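import Mathlib
import Pool.Agent.Lib.MP_7c08ba_nt.HeckeDefs

set_option autoImplicit false

/-!
Level one eigenforms as functions of bases of lattices, unramified Hecke characters of an
imaginary quadratic field, and the sum over the classes of ideals.
-/

namespace Pool.Agent.Lib.MP_7c08ba_nt

namespace RZ

open NumberField Matrix.SpecialLinearGroup UpperHalfPlane
open scoped MatrixGroups ComplexConjugate nonZeroDivisors

section

variable {w : ℕ}

/-- The Fourier coefficients of a cusp form of level one. -/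
noncomputable def coef (f : CuspForm 𝒮ℒ (w : ℤ)) (n : ℕ) : ℂ := (qExpansion 1 f).coeff n

/-- Normalised eigenforms of all Hecke operators, in terms of the Fourier coefficients. -/
structure IsEigen (f : CuspForm 𝒮ℒ (w : ℤ)) : Prop where
  one : coef f 1 = 1
  mul : ∀ m n : ℕ, 0 < m → 0 < n →
    coef f m * coef f n = ∑ d ∈ (m.gcd n).divisors, (d : ℂ) ^ (w - 1) * coef f (m * n / d ^ 2)

/-- The function of bases of lattices (the quotient `x / y` should be in the upper half plane)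
attached to a form of weight `w`. -/
noncomputable def lf (f : CuspForm 𝒮ℒ (w : ℤ)) (x y : ℂ) : ℂ :=
  (y ^ w)⁻¹ * f (ofComplex (x / y))

/-- The `r`-th Taylor coefficient of `lf f` along the antiholomorphic direction. -/
noncomputable def lfr (f : CuspForm 𝒮ℒ (w : ℤ)) (r : ℕ) (x y : ℂ) : ℂ :=
  iteratedDeriv r (fun e : ℂ => lf f (x + e * conj x) (y + e * conj y)) 0 / (r.factorial : ℂ)

end

section

variable {F : Type} [Field F] [NumberField F]

/-- Oriented bases of ideals. -/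
structure OBasis (σ : F →+* ℂ) (a : Ideal (𝓞 F)) (x y : 𝓞 F) : Prop where
  mem : ∀ z : 𝓞 F, z ∈ a ↔ ∃ m n : ℤ, z = (m : 𝓞 F) * x + (n : 𝓞 F) * y
  pos : 0 < (σ x * conj (σ y)).im

/-- Unramified Hecke characters of type `(k, 0)`, as functions of ideals. -/
def IsHecke (σ : F →+* ℂ) (k : ℕ) (ψ : Ideal (𝓞 F) →*₀ ℂ) : Prop :=
  ∀ t : 𝓞 F, t ≠ 0 → ψ (Ideal.span {t}) = σ t ^ k

/-- Representatives of the classes of ideals, with oriented bases. -/
structure Reps (σ : F →+* ℂ) where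
  /-- the ideals -/
  R : ClassGroup (𝓞 F) → (Ideal (𝓞 F))⁰
  /-- the first members of the bases -/
  X : ClassGroup (𝓞 F) → 𝓞 F
  /-- the second members of the bases -/
  Y : ClassGroup (𝓞 F) → 𝓞 F
  cls : ∀ A, ClassGroup.mk0 (R A) = A
  bas : ∀ A, OBasis σ (R A : Ideal (𝓞 F)) (X A) (Y A)

/-- The sum over the classes of ideals (it does not depend on the representatives if `ψ` has type
`(w + 2 * r, 0)`). -/
noncomputable def period {w : ℕ} (f : CuspForm 𝒮ℒ (w : ℤ)) (r : ℕ) {σ : F →+* ℂ}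
    (ψ : Ideal (𝓞 F) →*₀ ℂ) (c : Reps σ) : ℂ :=
  ∑ A : ClassGroup (𝓞 F), ψ (c.R A : Ideal (𝓞 F)) *
    ((Ideal.absNorm (c.R A : Ideal (𝓞 F)) : ℂ) ^ r)⁻¹ * lfr f r (σ (c.X A)) (σ (c.Y A))

/-- The character is trivial modulo the maximal ideal of a valuation ring above `2`. -/
structure ResTriv (V : ValuationSubring ℂ) (ψ : Ideal (𝓞 F) →*₀ ℂ) : Prop where
  two : V.valuation 2 < 1
  triv : ∀ a : Ideal (𝓞 F), Odd (Ideal.absNorm a) → V.valuation (ψ a - 1) < 1

/-- Part (C): the period is not zero. -/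
def StmtC : Prop :=
  ∀ (q : ℕ) (F : Type) (_ : Field F) (_ : NumberField F) (s : F) (σ : F →+* ℂ)
    (V : ValuationSubring ℂ) (w r : ℕ) (f : CuspForm 𝒮ℒ (w : ℤ)) (ψ : Ideal (𝓞 F) →*₀ ℂ),
    q.Prime → q % 16 = 7 → Module.finrank ℚ F = 2 → s ^ 2 = -(q : F) → IsEigen f →
    IsHecke σ (w + 2 * r) ψ → ResTriv V ψ → ∃ c : Reps σ, period f r ψ c ≠ 0

end

end RZ

end Pool.Agent.Lib.MP_7c08ba_nt
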