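import Pool.Agent.Lib.MP_7c08ba_nt.RZ.Basic
import Pool.Agent.Lib.MP_7c08ba_nt.RZ.Defs

set_option autoImplicit false

/-!
Project RZ3, part (C3): the CM period is not zero, `p = 3`.  Definitions and statements of the
modules.  Blueprint: team store `rz3_blueprint_C3.md`.  Everything which does not depend on the
prime is taken from `RZ/StmtsC.lean`.
-/

namespace Pool.Agent.Lib.MP_7c08ba_nt.RZC3

open UpperHalfPlane ModularForm EisensteinSeries MatrixGroups NumberField RZC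
open scoped Real Manifold ComplexConjugate nonZeroDivisors

noncomputable section

/-- `A` is a valuation ring of `ℂ` above 3 -/
def Above3 (A : ValuationSubring ℂ) : Prop := (3 : ℂ) ∈ A.nonunits

/-! ### group H: symmetric functions -/

/-- (H3) integrality and congruences for the elementary symmetric functions -/
def StSymmB3 : Prop := ∀ (A : ValuationSubring ℂ), Above3 A → ∀ (p : ℕ), p.Prime → p ≠ 3 →
  ∀ (k : ℕ), Even k → ∀ (f : ModularForm 𝒮ℒ (k : ℤ)), (∀ n, cf f n ∈ A) →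
  ∀ (i : ℕ) (g : ModularForm 𝒮ℒ ((i * k : ℕ) : ℤ)),
    (∀ w₁ w₂ : ℂ, Pos w₁ w₂ → LF (i * k) g w₁ w₂ = esy k p i f w₁ w₂) →
    (∀ n, cf g n ∈ A) ∧
    ∀ c : ℂ, c ∈ A → (∀ n, cf f n - (if n = 0 then c else 0) ∈ A.nonunits) →
      ∀ n, cf g n - (if n = 0 then ((p + 1).choose i : ℂ) * c ^ i else 0) ∈ A.nonunits

/-- (H4) the polynomial with roots the values on the sublattices of index `p` -/
def StSymm3 : Prop := ∀ (A : ValuationSubring ℂ), Above3 A → ∀ (p : ℕ), p.Prime → p ≠ 3 →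
  ∀ (k : ℕ), Even k → ∀ (f : ModularForm 𝒮ℒ (k : ℤ)), (∀ n, cf f n ∈ A) →
  ∃ e : (i : ℕ) → ModularForm 𝒮ℒ ((i * k : ℕ) : ℤ),
    (∀ i n, cf (e i) n ∈ A) ∧
    (∀ c : ℂ, c ∈ A → (∀ n, cf f n - (if n = 0 then c else 0) ∈ A.nonunits) →
      ∀ i n, cf (e i) n - (if n = 0 then ((p + 1).choose i : ℂ) * c ^ i else 0) ∈ A.nonunits) ∧
    ∀ w₁ w₂ : ℂ, Pos w₁ w₂ → ∀ T : ℂ, ∏ i, (T - LFs k f p w₁ w₂ i) =
      ∑ i ∈ Finset.range (p + 2), (-1) ^ i * LF (i * k) (e i) w₁ w₂ * T ^ (p + 1 - i)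

/-! ### group E: index prime to 3 -/

/-- (E1) sublattices of prime index `p ≠ 3` of an ordinary lattice -/
def StOddP3 : Prop := ∀ (A : ValuationSubring ℂ), Above3 A → ∀ (w₁ w₂ : ℂ), Ord A w₁ w₂ →
  ∀ (p : ℕ), p.Prime → p ≠ 3 → ∀ i : Option (Fin p), ∀ v₁ v₂ : ℂ, sub p w₁ w₂ i = (v₁, v₂) →
    Ord A v₁ v₂ ∧ e4 v₁ v₂ / e4 w₁ w₂ - 1 ∈ A.nonunits ∧ e6 v₁ v₂ / e6 w₁ w₂ - 1 ∈ A.nonunits

/-- (E2) sublattices of index prime to 3 of an ordinary lattice -/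
def StOdd3 : Prop := ∀ (A : ValuationSubring ℂ), Above3 A → ∀ (w₁ w₂ : ℂ), Ord A w₁ w₂ →
  ∀ v₁ v₂ : ℂ, Pos v₁ v₂ → lat v₁ v₂ ≤ lat w₁ w₂ →
    ¬ 3 ∣ (lat v₁ v₂).toAddSubgroup.relIndex (lat w₁ w₂).toAddSubgroup →
    Ord A v₁ v₂ ∧ e4 v₁ v₂ / e4 w₁ w₂ - 1 ∈ A.nonunits ∧ e6 v₁ v₂ / e6 w₁ w₂ - 1 ∈ A.nonunits

/-! ### group G: eigenforms modulo the maximal ideal -/

/-- the third root of unity in the upper half plane -/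
def rho : ℂ := ⟨-1 / 2, √3 / 2⟩

/-- (G2) the hexagonal lattice `(ρ, 1)` -/
def StRho : Prop := e4 rho 1 = 0 ∧ dl rho 1 ≠ 0 ∧ e6 rho 1 ^ 2 = -1728 * dl rho 1 ∧
  ∀ (A : ValuationSubring ℂ) (J : AddSubgroup ℂ), (∀ a ∈ A, ∀ z ∈ J, a * z ∈ J) →
    ∀ (k : ℕ) (g : ModularForm 𝒮ℒ ((12 * k : ℕ) : ℤ)), (∀ n, cf g n ∈ J) →
      LF (12 * k) g rho 1 / dl rho 1 ^ k ∈ J

/-- (G3) the sum over the sublattices of prime index `p ≠ 3` of the hexagonal lattice -/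
def StRhoP : Prop := ∀ (A : ValuationSubring ℂ), Above3 A → ∀ p : ℕ, p.Prime → p ≠ 3 →
  ∀ (k : ℕ) (g : ModularForm 𝒮ℒ ((12 * k : ℕ) : ℤ)), (∀ n, cf g n ∈ A) →
    (∑ i, LFs (12 * k) g p rho 1 i) / dl rho 1 ^ k -
      (1 + p) * (LF (12 * k) g rho 1 / dl rho 1 ^ k) ∈ A.nonunits

/-- (G4) `a_p = 1 + p` modulo the maximal ideal for `p ≠ 3` -/
def StTr3 : Prop := ∀ (A : ValuationSubring ℂ), Above3 A → ∀ (w : ℕ)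
  (f : CuspForm 𝒮ℒ (w : ℤ)), IsEig w (cf f) → ∀ p : ℕ, p.Prime → p ≠ 3 →
    cf f p - (1 + p) ∈ A.nonunits

/-- (G5) `(n - 1) τ(n)` is divisible by 3; `f = Δ` modulo the maximal ideal -/
def StDelta3 : Prop := (∀ n : ℕ, (3 : ℤ) ∣ ((n : ℤ) - 1) * D12.coeff n) ∧
  ∀ (A : ValuationSubring ℂ), Above3 A → ∀ (w : ℕ) (f : CuspForm 𝒮ℒ (w : ℤ)),
    IsEig w (cf f) → cf f 3 ∈ A.nonunits ∧ ∀ n, cf f n - (D12.coeff n : ℂ) ∈ A.nonunits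

/-- (V0) the value of an eigenform at an ordinary lattice -/
def StVal03 : Prop := ∀ (A : ValuationSubring ℂ), Above3 A → ∀ (w : ℕ)
  (f : CuspForm 𝒮ℒ (w : ℤ)), IsEig w (cf f) → ∀ w₁ w₂ : ℂ, Ord A w₁ w₂ →
    eb w (e4 w₁ w₂) (e6 w₁ w₂) ≠ 0 ∧
    LF w f w₁ w₂ / eb w (e4 w₁ w₂) (e6 w₁ w₂) - jv w₁ w₂ ∈ A.nonunits

/-! ### group W: Weierstrass functions and level 3 -/

/-- `6 e² - g₂ / 2`, the second derivative of `℘` at `h` -/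
def pa (L : PeriodPair) (h : ℂ) : ℂ := 6 * L.weierstrassP h ^ 2 - L.g₂ / 2

/-- (W1) sums of inverse powers -/
def StInv : Prop := ∀ (L : PeriodPair) (h : ℂ), h ∉ L.lattice →
  L.sumInvPow h 4 = pa L h / 6 ∧
  L.sumInvPow h 6 = (L.derivWeierstrassP h ^ 2 + L.weierstrassP h * pa L h) / 10

/-- (W2) the symmetric functions of the translates by a point of order 3 -/
def StProd3 : Prop := ∀ (L : PeriodPair) (h : ℂ), h ∉ L.lattice → 3 * h ∈ L.lattice →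
  ∀ z : ℂ, z ∉ L.lattice → z + h ∉ L.lattice → z - h ∉ L.lattice →
    (L.weierstrassP z - L.weierstrassP h) * (L.weierstrassP (z + h) - L.weierstrassP h) +
      (L.weierstrassP (z + h) - L.weierstrassP h) * (L.weierstrassP (z - h) - L.weierstrassP h) +
      (L.weierstrassP (z - h) - L.weierstrassP h) * (L.weierstrassP z - L.weierstrassP h) =
        pa L h ∧
    (L.weierstrassP z - L.weierstrassP h) * (L.weierstrassP (z + h) - L.weierstrassP h) *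
      (L.weierstrassP (z - h) - L.weierstrassP h) = -L.derivWeierstrassP h ^ 2

/-- (W3) the lattice `M = L + ℤ h` -/
def StSuper3 : Prop := ∀ (L M : PeriodPair) (h : ℂ), h ∉ L.lattice → 3 * h ∈ L.lattice →
  M.lattice = L.lattice ⊔ Submodule.span ℤ {h} →
  M.g₂ = L.g₂ + 20 * pa L h ∧
  M.g₃ = L.g₃ + 28 * (L.derivWeierstrassP h ^ 2 + L.weierstrassP h * pa L h) ∧
  ∀ z : ℂ, z ∉ M.lattice → M.weierstrassP z =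
    L.weierstrassP z + L.weierstrassP (z + h) + L.weierstrassP (z - h) - 2 * L.weierstrassP h

/-- (W3') the relation between the coordinates of a point of order 3 -/
def StTor3 : Prop := ∀ (L M : PeriodPair) (h : ℂ), h ∉ L.lattice → 3 * h ∈ L.lattice →
  M.lattice = L.lattice ⊔ Submodule.span ℤ {h} →
  pa L h ^ 2 = 12 * L.weierstrassP h * L.derivWeierstrassP h ^ 2

/-- (W5) the Hauptmodul `X = (η(τ)/η(3τ))^12`, for pairs `L = (w₁, w₂)`, `M = (w₁, w₂/3)`;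
the value in the first case is the right one (`j = 0`) -/
def XX3 (w₁ w₂ : ℂ) : ℂ :=
  open Classical in
  if 81 * e4 w₁ w₂ = e4 w₁ (w₂ / 3) then -27
  else 243 * (e4 w₁ (w₂ / 3) - e4 w₁ w₂) / (81 * e4 w₁ w₂ - e4 w₁ (w₂ / 3))

def StLevel3 : Prop := ∀ w₁ w₂ : ℂ, Pos w₁ w₂ →
  dl w₁ w₂ ≠ 0 ∧ dl w₁ (w₂ / 3) ≠ 0 ∧ XX3 w₁ w₂ ≠ 0 ∧
  1728 * dl w₁ w₂ = e4 w₁ w₂ ^ 3 - e6 w₁ w₂ ^ 2 ∧
  XX3 w₁ w₂ ^ 2 * dl w₁ (w₂ / 3) = 3 ^ 12 * dl w₁ w₂ ∧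
  e4 w₁ w₂ ^ 3 * XX3 w₁ w₂ ^ 3 = dl w₁ w₂ * (XX3 w₁ w₂ + 27) * (XX3 w₁ w₂ + 243) ^ 3 ∧
  e4 w₁ (w₂ / 3) ^ 3 * XX3 w₁ w₂ =
    dl w₁ (w₂ / 3) * (XX3 w₁ w₂ + 27) * (XX3 w₁ w₂ + 3) ^ 3 ∧
  e4 w₁ (w₂ / 3) * (XX3 w₁ w₂ + 243) = 81 * e4 w₁ w₂ * (XX3 w₁ w₂ + 3) ∧
  e6 w₁ (w₂ / 3) * (XX3 w₁ w₂ ^ 2 - 486 * XX3 w₁ w₂ - 19683) =
    729 * e6 w₁ w₂ * (XX3 w₁ w₂ ^ 2 + 18 * XX3 w₁ w₂ - 27) ∧
  ∃ v : ℂ, v ^ 3 = XX3 w₁ w₂ * (v ^ 2 + 9 * v + 27) ∧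
    XX3 w₁ (w₂ / 3) = v * (v ^ 2 + 9 * v + 27)

/-- (X) the cycle lemma -/
def StCycle3 : Prop := ∀ (A : ValuationSubring ℂ), Above3 A → ∀ (m : ℕ), 0 < m →
  ∀ (X : ℕ → ℂ) (u : ℂ), (∀ i, X i ≠ 0) → X m = X 0 →
  (∀ i < m, ∃ v : ℂ, v ^ 3 = X i * (v ^ 2 + 9 * v + 27) ∧
    X (i + 1) = v * (v ^ 2 + 9 * v + 27)) →
  (∏ i ∈ Finset.range m, X i ^ 2 = u ^ 12) → u ∈ A → u⁻¹ ∈ A → (u ^ 4 - 1) / 3 ∈ A →
  (∀ i ≤ m, X i ∈ A ∧ (X i)⁻¹ ∈ A) ∧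
    (∏ i ∈ Finset.range m, (X i + 243) = u ^ 4 * ∏ i ∈ Finset.range m, (X i + 3) →
      (∑ i ∈ Finset.range m, X i ^ 3 / ((X i + 27) * (X i + 243) ^ 3)) -
        ((u⁻¹) ^ 4 - 1) / 3 ∈ A.nonunits)

/-! ### group N: the imaginary quadratic field -/

/-- the hypotheses on the field: imaginary quadratic, 3 splits, and for the primes `P ≠ P'` above
3: the index in the class group of the subgroup generated by the class of `P` is not divisible by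
3, and the generators `x` of `P ^ m`, `m` the order of the class of `P`, satisfy `x ^ 4 ≢ 1` modulo
the square of `P'` -/
structure FieldC3 (D : ℕ) (F : Type) [Field F] [NumberField F] (s : F) : Prop where
  pos : 0 < D
  fin : Module.finrank ℚ F = 2
  sq : s ^ 2 = -(D : F)
  split : ∃ P P' : Ideal (𝓞 F), P.IsPrime ∧ P'.IsPrime ∧ P ≠ P' ∧ Ideal.absNorm P = 3 ∧
    Ideal.absNorm P' = 3
  cls : ∀ P : nonZeroDivisors (Ideal (𝓞 F)), Ideal.absNorm (P : Ideal (𝓞 F)) = 3 →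
    ¬ 3 ∣ (Subgroup.zpowers (ClassGroup.mk0 P)).index
  rig : ∀ P P' : nonZeroDivisors (Ideal (𝓞 F)), (P : Ideal (𝓞 F)).IsPrime →
    (P' : Ideal (𝓞 F)).IsPrime → P ≠ P' → Ideal.absNorm (P : Ideal (𝓞 F)) = 3 →
    Ideal.absNorm (P' : Ideal (𝓞 F)) = 3 → ∀ x : 𝓞 F,
      (P : Ideal (𝓞 F)) ^ orderOf (ClassGroup.mk0 P) = Ideal.span {x} →
      x ^ 4 - 1 ∉ (P' : Ideal (𝓞 F)) ^ 2

/-- (N2) oriented bases; index; covolume -/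
def StBasis3 : Prop := ∀ (D : ℕ) (F : Type) [Field F] [NumberField F] (s : F),
  FieldC3 D F s → ∀ (σ : F →+* ℂ), ∃ κ : ℝ, 0 < κ ∧ ∀ (a : Ideal (𝓞 F)), a ≠ ⊥ →
  (∃ w₁ w₂ : ℂ, IsB σ a w₁ w₂) ∧
  ∀ w₁ w₂ : ℂ, IsB σ a w₁ w₂ →
    ((w₁ * conj w₂).im = (Ideal.absNorm a : ℝ) * κ) ∧
    (∀ v₁ v₂ : ℂ, IsB σ ⊤ v₁ v₂ → lat w₁ w₂ ≤ lat v₁ v₂ ∧
      (lat w₁ w₂).toAddSubgroup.relIndex (lat v₁ v₂).toAddSubgroup = Ideal.absNorm a)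

/-- (N3) adapted bases for a prime of norm 3 -/
def StAdapt3 : Prop := ∀ (D : ℕ) (F : Type) [Field F] [NumberField F] (s : F),
  FieldC3 D F s → ∀ (σ : F →+* ℂ) (P : Ideal (𝓞 F)), P.IsPrime → Ideal.absNorm P = 3 →
  ∀ b : Ideal (𝓞 F), b ≠ ⊥ → ∃ w₁ w₂ : ℂ, IsB σ (P ^ 2 * b) w₁ w₂ ∧
      IsB σ (P * b) w₁ (w₂ / 3) ∧ IsB σ b w₁ (w₂ / 9)

/-- the condition on the period of a chain -/
def UnitC3 (A : ValuationSubring ℂ) (m : ℕ) (c : ℂ) : Prop :=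
  3 ^ m / c ∈ A ∧ (3 ^ m / c)⁻¹ ∈ A ∧ ((3 ^ m / c) ^ 4 - 1) / 3 ∈ A ∧
    ((3 ^ m / c) ^ 4 - 1) / 3 ∉ A.nonunits

/-- (N3') the prime above 3 attached to `A` and the unit `π-bar` -/
def StUnit3 : Prop := ∀ (D : ℕ) (F : Type) [Field F] [NumberField F] (s : F),
  FieldC3 D F s → ∀ (σ : F →+* ℂ) (A : ValuationSubring ℂ), Above3 A →
  ∃ P : nonZeroDivisors (Ideal (𝓞 F)), (P : Ideal (𝓞 F)).IsPrime ∧
    Ideal.absNorm (P : Ideal (𝓞 F)) = 3 ∧ ∀ x : 𝓞 F,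
      (P : Ideal (𝓞 F)) ^ orderOf (ClassGroup.mk0 P) = Ideal.span {x} →
      UnitC3 A (orderOf (ClassGroup.mk0 P)) (σ (x : F))

/-- (N4) representatives of norm prime to 3 -/
def StRep3 : Prop := ∀ (D : ℕ) (F : Type) [Field F] [NumberField F] (s : F),
  FieldC3 D F s → ∀ c : ClassGroup (𝓞 F), ∃ a : nonZeroDivisors (Ideal (𝓞 F)),
    ClassGroup.mk0 a = c ∧ ¬ 3 ∣ Ideal.absNorm (a : Ideal (𝓞 F))

/-! ### chains of lattices -/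

/-- `L_i = (u i, v i)`, `L_(i+1) = (u i, v i / 3)`, `L_(i+2) = (u i, v i / 9)`,
`c L_(i+m) = L_i` -/
structure Chain3 (m : ℕ) (c : ℂ) (u v : ℕ → ℂ) : Prop where
  pos : ∀ i, Pos (u i) (v i)
  third : ∀ i, lat (u (i + 1)) (v (i + 1)) = lat (u i) (v i / 3)
  ninth : ∀ i, lat (u (i + 1)) (v (i + 1) / 3) = lat (u i) (v i / 9)
  per : ∀ i, lat (c * u (i + m)) (c * v (i + m)) = lat (u i) (v i)
  c0 : c ≠ 0

/-- (N5) the chain attached to an ideal -/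
def StChain3 : Prop := ∀ (D : ℕ) (F : Type) [Field F] [NumberField F] (s : F),
  FieldC3 D F s → ∀ (σ : F →+* ℂ) (P : Ideal (𝓞 F)), P.IsPrime → Ideal.absNorm P = 3 →
    ∀ (m : ℕ) (x : 𝓞 F), 0 < m → P ^ m = Ideal.span {x} → ∀ a : Ideal (𝓞 F), a ≠ ⊥ →
      ∃ u v : ℕ → ℂ, Chain3 m (σ (x : F)) u v ∧ ∀ i ≤ m, IsB σ (P ^ (m - i) * a) (u i) (v i)

/-- (X2) ordinarity of the lattices of the chain and the sum of `1/j` -/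
def StOrdC3 : Prop := ∀ (A : ValuationSubring ℂ), Above3 A → ∀ (m : ℕ) (c : ℂ) (u v : ℕ → ℂ),
  0 < m → Chain3 m c u v → UnitC3 A m c →
  (∀ i, Ord A (u i) (v i) ∧ XX3 (u i) (v i) ∈ A ∧ (XX3 (u i) (v i))⁻¹ ∈ A) ∧
  (∑ i ∈ Finset.range m, jv (u i) (v i)) - (((3 ^ m / c)⁻¹) ^ 4 - 1) / 3 ∈ A.nonunits

/-! ### group R: `r > 0` -/

/-- `q ↦ q³` -/
def Vq3 {R : Type*} [Semiring R] (g : PowerSeries R) : PowerSeries R :=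
  PowerSeries.mk fun n => if 3 ∣ n then g.coeff (n / 3) else 0

/-- the level 3 form `3 E₂(3τ) - E₂(τ)` of weight 2 -/
def ee3 (w₁ w₂ : ℂ) : ℂ := LF 2 E2 w₁ (w₂ / 3) / 3 - LF 2 E2 w₁ w₂

/-- (R3) the level 3 relation for `E₂` -/
def StE2rel3 : Prop := ∀ w₁ w₂ : ℂ, Pos w₁ w₂ →
  2 * e6 w₁ w₂ * (XX3 w₁ w₂ + 27) * (XX3 w₁ w₂ + 243) =
    ee3 w₁ w₂ * e4 w₁ w₂ * (XX3 w₁ w₂ ^ 2 - 486 * XX3 w₁ w₂ - 19683)

/-- (R4) the level 3 relations for power series -/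
def StQrel3 : Prop := ∃ y : PowerSeries ℤ, y ^ 2 * D12 = Vq3 D12 ∧
  D12 * (1 + 27 * y) * (1 + 243 * y) ^ 3 = y * Q4 ^ 3 ∧
  Vq3 D12 * (1 + 27 * y) * (1 + 3 * y) ^ 3 = y ^ 3 * Vq3 Q4 ^ 3 ∧
  (1 + 243 * y) * Vq3 Q4 = (1 + 3 * y) * Q4 ∧
  (1 - 486 * y - 19683 * y ^ 2) * Vq3 R6 = (1 + 18 * y - 27 * y ^ 2) * R6 ∧
  2 * R6 * (1 + 27 * y) * (1 + 243 * y) =
    (3 * Vq3 P2 - P2) * Q4 * (1 - 486 * y - 19683 * y ^ 2)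

/-- (R5) good elements -/
def StGood3 : Prop := ∀ (S : Type) [CommRing S] (V : S →+* S) (x y a : S),
  x * (1 + 27 * y) * (1 + 243 * y) ^ 3 = y → V x * (1 + 27 * y) * (1 + 3 * y) ^ 3 = y ^ 3 →
  a * (1 - 486 * y - 19683 * y ^ 2) * (1 + 18 * y - 27 * y ^ 2) * (1 + 243 * y) ^ 2 =
    3 * V a * (1 - 486 * y - 19683 * y ^ 2) ^ 2 * (1 + 3 * y) ^ 2 -
      2 * (1 - 1728 * x) * (1 + 27 * y) * (1 + 243 * y) ^ 3 * (1 + 18 * y - 27 * y ^ 2) →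
  ∀ N : ℕ, ∃ (F : Polynomial ℤ) (z : S), a = Polynomial.aeval x F + 3 ^ N * z

/-- (R12) integrality and approximation of `E₂^* E₆ / E₄²` on the chain -/
def StApp3 : Prop := ∀ (A : ValuationSubring ℂ), Above3 A → ∀ (m : ℕ) (c : ℂ) (u v : ℕ → ℂ),
  0 < m → Chain3 m c u v → UnitC3 A m c → ∀ N : ℕ, ∃ F : Polynomial ℤ,
    (∀ i, (E2s (u i) (v i) * e6 (u i) (v i) / e4 (u i) (v i) ^ 2 -
      Polynomial.aeval (jv (u i) (v i)) F) / 3 ^ N ∈ A) ∧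
    ∃ x z : PowerSeries ℤ, x * Q4 ^ 3 = D12 ∧
      P2 * R6 = Q4 ^ 2 * (Polynomial.aeval x F + 3 ^ N * z)

/-- (V1) the value of `δ^r f` on the chain -/
def StValR3 : Prop := ∀ (A : ValuationSubring ℂ), Above3 A → ∀ (w : ℕ)
  (f : CuspForm 𝒮ℒ (w : ℤ)), IsEig w (cf f) →
  ∃ G : MvPolynomial (Fin 4) ℂ, G.IsWeightedHomogeneous wt w ∧
    (∀ w₁ w₂ α β : ℂ, Pos w₁ w₂ → LF w f w₁ w₂ = ev G w₁ w₂ α β) ∧
    ∀ (r m : ℕ) (c : ℂ) (u v : ℕ → ℂ), 0 < m → Chain3 m c u v → UnitC3 A m c → ∀ i,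
      eb (w + 2 * r) (e4 (u i) (v i)) (e6 (u i) (v i)) ≠ 0 ∧
      ev (dd^[r] G) (u i) (v i) (conj (u i)) (conj (v i)) /
        eb (w + 2 * r) (e4 (u i) (v i)) (e6 (u i) (v i)) - jv (u i) (v i) ∈ A.nonunits

/-! ### final statements of part (C3) -/

/-- the character: values on ideals -/
structure Char3 {F : Type} [Field F] [NumberField F] (σ : F →+* ℂ) (A : ValuationSubring ℂ)
    (k : ℕ) (ψ : Ideal (𝓞 F) → ℂ) : Prop where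
  mul : ∀ a b : Ideal (𝓞 F), a ≠ ⊥ → b ≠ ⊥ → ψ (a * b) = ψ a * ψ b
  princ : ∀ x : 𝓞 F, x ≠ 0 → ψ (Ideal.span {x}) = σ (x : F) ^ k
  triv : ∀ a : Ideal (𝓞 F), ¬ 3 ∣ Ideal.absNorm a → ψ a - 1 ∈ A.nonunits

/-- (F) the period is not zero: `S` is a homogeneous lattice function of weight `k` which takes
values as in (V0), (V1) -/
def StSum3 : Prop := ∀ (D : ℕ) (F : Type) [Field F] [NumberField F] (s : F),
  FieldC3 D F s → ∀ (σ : F →+* ℂ) (A : ValuationSubring ℂ), Above3 A →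
  ∀ (k : ℕ) (ψ : Ideal (𝓞 F) → ℂ), 4 ≤ k → Even k → Char3 σ A k ψ →
  ∀ (S : ℂ → ℂ → ℂ),
    (∀ w₁ w₂ v₁ v₂ : ℂ, Pos w₁ w₂ → Pos v₁ v₂ → lat w₁ w₂ = lat v₁ v₂ → S w₁ w₂ = S v₁ v₂) →
    (∀ c w₁ w₂ : ℂ, c ≠ 0 → Pos w₁ w₂ → S (c * w₁) (c * w₂) = (c ^ k)⁻¹ * S w₁ w₂) →
    (∀ (m : ℕ) (c : ℂ) (u v : ℕ → ℂ), 0 < m → Chain3 m c u v → UnitC3 A m c → ∀ i,
      eb k (e4 (u i) (v i)) (e6 (u i) (v i)) ≠ 0 ∧
      S (u i) (v i) / eb k (e4 (u i) (v i)) (e6 (u i) (v i)) - jv (u i) (v i) ∈ A.nonunits) →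
    ∀ (rep : ClassGroup (𝓞 F) → nonZeroDivisors (Ideal (𝓞 F))) (w₁ w₂ : ClassGroup (𝓞 F) → ℂ),
      (∀ c, ClassGroup.mk0 (rep c) = c) → (∀ c, IsB σ (rep c : Ideal (𝓞 F)) (w₁ c) (w₂ c)) →
      ∑ c, ψ (rep c : Ideal (𝓞 F)) * S (w₁ c) (w₂ c) ≠ 0

/-- The character is trivial modulo the maximal ideal of a valuation ring above `3`. -/
structure ResTriv3 {F : Type} [Field F] [NumberField F] (V : ValuationSubring ℂ)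
    (ψ : Ideal (𝓞 F) →*₀ ℂ) : Prop where
  three : V.valuation 3 < 1
  triv : ∀ a : Ideal (𝓞 F), ¬ 3 ∣ Ideal.absNorm a → V.valuation (ψ a - 1) < 1

/-- Part (C3): the period is not zero. -/
def StmtC3 : Prop :=
  ∀ (D : ℕ) (F : Type) (_ : Field F) (_ : NumberField F) (s : F) (σ : F →+* ℂ)
    (V : ValuationSubring ℂ) (w r : ℕ) (f : CuspForm 𝒮ℒ (w : ℤ)) (ψ : Ideal (𝓞 F) →*₀ ℂ),
    FieldC3 D F s → RZ.IsEigen f → RZ.IsHecke σ (w + 2 * r) ψ → ResTriv3 V ψ →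
    ∃ c : RZ.Reps σ, RZ.period f r ψ c ≠ 0

end

end Pool.Agent.Lib.MP_7c08ba_nt.RZC3
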