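import Mathlib
import Pool.Agent.Lib.MP_7c08ba_nt.Defs
import Pool.Agent.Lib.MP_7c08ba_nt.Split
import Pool.Agent.Lib.MP_7c08ba_nt.Gen.GenusPlace
import Pool.Agent.Lib.MP_7c08ba_nt.Glob.Emb
import Pool.Agent.Lib.MP_7c08ba_nt.Odd.Defs

set_option autoImplicit false

/-!
Primes of the ring of all algebraic integers and embeddings into the algebraic closure of `ℚ_l`.
-/

namespace Pool.Agent.Lib.MP_7c08ba_nt

namespace RZ

open NumberField BKGen BKGen.Genus IsDedekindDomain HeightOneSpectrum
open scoped Pointwise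

variable {l : ℕ} [Fact l.Prime] {F : Type} [Field F] [NumberField F]

instance algRat : Algebra.IsAlgebraic ℚ (AlgebraicClosure F) :=
  Algebra.IsAlgebraic.trans ℚ F (AlgebraicClosure F)

/-- The number field generated by an element. -/
noncomputable abbrev adjF (x : AlgebraicClosure F) : IntermediateField ℚ (AlgebraicClosure F) :=
  IntermediateField.adjoin ℚ {x}

instance nfAdj (x : AlgebraicClosure F) : NumberField (adjF x) := by
  have h : FiniteDimensional ℚ (adjF x) :=
    IntermediateField.adjoin.finiteDimensional (Algebra.IsIntegral.isIntegral x)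
  exact { to_charZero := inferInstance, to_finiteDimensional := h }

/-- Restriction of an embedding. -/
noncomputable def resE (j : AlgebraicClosure F →+* PadicAlgCl l)
    (E : IntermediateField ℚ (AlgebraicClosure F)) : E →+* PadicAlgCl l :=
  j.comp (algebraMap E (AlgebraicClosure F))

lemma mem_primeOf_res (j : AlgebraicClosure F →+* PadicAlgCl l)
    (E : IntermediateField ℚ (AlgebraicClosure F)) (a : 𝓞 E) :
    a ∈ primeOf (resE j E) ↔ algebraMap (𝓞 E) (AllInt F) a ∈ primeOf j := Iff.rfl

/-- Elements of norm at most one are fractions with a denominator prime to the place. -/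
theorem exists_frac (j : AlgebraicClosure F →+* PadicAlgCl l) {x : AlgebraicClosure F}
    (hx : ‖j x‖ ≤ 1) : ∃ a b : AllInt F, b ∉ primeOf j ∧
      x * (b : AlgebraicClosure F) = (a : AlgebraicClosure F) := by
  let y : adjF x := ⟨x, IntermediateField.mem_adjoin_simple_self ℚ x⟩
  have hv : (spec (resE j (adjF x))).valuation (adjF x) y ≤ 1 := by
    by_contra hcon
    push Not at hcon
    have h2 : (spec (resE j (adjF x))).valuation (adjF x) y⁻¹ < 1 := by
      rw [map_inv₀]
      exact inv_lt_one_of_one_lt₀ hcon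
    have h3 := norm_of_val_lt_one _ h2
    rw [map_inv₀, norm_inv] at h3
    have h4 : ‖resE j (adjF x) y‖ = ‖j x‖ := rfl
    rw [h4] at h3
    have hx0 : 0 < ‖j x‖ := by
      rw [norm_pos_iff]
      intro h0
      have h5 : y = 0 := by
        apply Subtype.ext
        exact (map_eq_zero j).mp h0
      rw [h5, map_zero] at hcon
      exact absurd hcon (not_lt.mpr zero_le)
    have h5 := (one_le_inv₀ hx0).mpr hx
    linarith
  obtain ⟨n, d, hnd⟩ := exists_primeCompl_mul_eq_of_integer (spec (resE j (adjF x))) y hv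
  refine ⟨algebraMap (𝓞 (adjF x)) (AllInt F) n, algebraMap (𝓞 (adjF x)) (AllInt F) d, ?_, ?_⟩
  · intro h
    exact d.2 ((mem_primeOf_res j _ _).mpr h)
  · exact congrArg (fun z : adjF x => (z : AlgebraicClosure F)) hnd

/-- The inertia group of the prime is contained in the inertia group of the embedding. -/
theorem inert_le (j : AlgebraicClosure F →+* PadicAlgCl l) {g : AbsGal F}
    (hg : g ∈ inert F (primeOf j)) : g ∈ Inert F (AlgebraicClosure F) j := by
  intro x hx
  obtain ⟨a, b, hb, hab⟩ := exists_frac j hx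
  have hb1 := norm_eq_one_of_not_mem j hb
  have hgb : ‖j (g (b : AlgebraicClosure F) - b)‖ < 1 := hg b
  have hga : ‖j (g (a : AlgebraicClosure F) - a)‖ < 1 := hg a
  have hgb1 : ‖j (g (b : AlgebraicClosure F))‖ = 1 := by
    have h1 : j (g (b : AlgebraicClosure F)) = j (g (b : AlgebraicClosure F) - b) + j b := by
      rw [map_sub, sub_add_cancel]
    rw [h1, IsUltrametricDist.norm_add_eq_max_of_norm_ne_norm (by rw [hb1]; exact hgb.ne), hb1]
    exact max_eq_right hgb.le
  have hgab : g x * g (b : AlgebraicClosure F) = g (a : AlgebraicClosure F) := by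
    rw [← map_mul, hab]
  have key : (g x - x) * (b * g (b : AlgebraicClosure F)) =
      (g (a : AlgebraicClosure F) - a) * b - a * (g (b : AlgebraicClosure F) - b) := by
    linear_combination (b : AlgebraicClosure F) * hgab -
      (g (b : AlgebraicClosure F)) * hab
  have h1 := congrArg (fun z => ‖j z‖) key
  simp only [map_mul, norm_mul, hb1, hgb1, mul_one] at h1
  rw [h1, map_sub j, sub_eq_add_neg]
  refine (IsUltrametricDist.norm_add_le_max _ _).trans_lt (max_lt ?_ ?_)
  · rw [map_mul, norm_mul, hb1, mul_one]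
    exact hga
  · rw [norm_neg, map_mul, norm_mul]
    exact mul_lt_one_of_nonneg_of_lt_one_right (norm_int_le j a) (norm_nonneg _) hgb

/-- The absolute value of an embedding is determined by the prime. -/
theorem norm_eq_of_primeOf_eq {j₁ j₂ : AlgebraicClosure F →+* PadicAlgCl l}
    (h : primeOf j₁ = primeOf j₂) (x : AlgebraicClosure F) : ‖j₁ x‖ = ‖j₂ x‖ := by
  let y : adjF x := ⟨x, IntermediateField.mem_adjoin_simple_self ℚ x⟩
  refine norm_eq_of_prime_eq (resE j₁ (adjF x)) (resE j₂ (adjF x)) ?_ y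
  ext a
  rw [mem_primeOf_res, mem_primeOf_res, h]

/-- The decomposition group of the prime is contained in the decomposition group of the
embedding. -/
theorem decomp_le (j : AlgebraicClosure F →+* PadicAlgCl l) {g : AbsGal F}
    (hg : g ∈ decomp F (primeOf j)) : g ∈ Dec F (AlgebraicClosure F) j := by
  intro x
  have h : primeOf (j.comp ((g : AlgebraicClosure F ≃ₐ[F] AlgebraicClosure F) :
      AlgebraicClosure F →+* AlgebraicClosure F)) = primeOf j := by
    ext a
    exact hg a
  exact norm_eq_of_primeOf_eq h x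

omit [NumberField F] in
lemma intCast_mem_iff {P : Ideal (AllInt F)} (hP : P.IsPrime) (hl : (l : AllInt F) ∈ P) (n : ℤ) :
    (n : AllInt F) ∈ P ↔ (l : ℤ) ∣ n := by
  constructor
  · intro h
    by_contra hcon
    have hcop : IsCoprime (l : ℤ) n :=
      (Nat.prime_iff_prime_int.mp (Fact.out : l.Prime)).coprime_iff_not_dvd.mpr hcon
    obtain ⟨a, b, hab⟩ := hcop
    apply hP.ne_top
    rw [Ideal.eq_top_iff_one]
    have h1 : (1 : AllInt F) = (a : AllInt F) * l + (b : AllInt F) * n := by
      exact_mod_cast (congrArg (fun z : ℤ => (z : AllInt F)) hab).symm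
    rw [h1]
    exact P.add_mem (P.mul_mem_left _ hl) (P.mul_mem_left _ h)
  · rintro ⟨m, rfl⟩
    push_cast
    exact P.mul_mem_right _ hl

/-- Every prime above `l` comes from an embedding. -/
theorem exists_emb {P : Ideal (AllInt F)} (hP : P.IsPrime) (hl : (l : AllInt F) ∈ P) :
    ∃ j : AlgebraicClosure F →+* PadicAlgCl l, primeOf j = P := by
  let j₁ : AlgebraicClosure F →+* PadicAlgCl l :=
    (IsAlgClosed.lift (S := AlgebraicClosure F) (M := PadicAlgCl l) (R := ℚ)).toRingHom
  have hac : IsAlgClosure ℚ (AlgebraicClosure F) := ⟨inferInstance, inferInstance⟩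
  have hgal : IsGalois ℚ (AlgebraicClosure F) := { }
  obtain ⟨g, -, hg⟩ := exists_smul_eq (F := ℚ) (Ω := AlgebraicClosure F) ⊤ isClosed_univ
    (primeOf j₁) P (by
      intro x hx
      have h1 : (x : AlgebraicClosure F) ∈ Set.range (algebraMap ℚ (AlgebraicClosure F)) := by
        rw [InfiniteGalois.mem_range_algebraMap_iff_fixed]
        intro k
        have h2 := hx k (Subgroup.mem_top k)
        exact congrArg (fun z : AllInt F => (z : AlgebraicClosure F)) h2
      obtain ⟨r, hr⟩ := h1
      have h2 : IsIntegral ℤ r := by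
        have h3 : IsIntegral ℤ (algebraMap ℚ (AlgebraicClosure F) r) := by
          rw [hr]
          exact x.2
        exact (isIntegral_algebraMap_iff (algebraMap ℚ (AlgebraicClosure F)).injective).mp h3
      obtain ⟨n, hn⟩ := IsIntegrallyClosed.isIntegral_iff.mp h2
      have h3 : x = (n : AllInt F) := by
        apply RingOfIntegers.ext
        rw [← hr, ← hn]
        simp
      rw [h3, intCast_mem_iff (primeOf_isPrime j₁) (l_mem_primeOf j₁),
        intCast_mem_iff hP hl])
  refine ⟨j₁.comp ((g⁻¹ : Gal(AlgebraicClosure F/ℚ)) : AlgebraicClosure F →+*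
    AlgebraicClosure F), ?_⟩
  ext x
  rw [hg, Ideal.mem_pointwise_smul_iff_inv_smul_mem]
  rfl

omit [NumberField F] in
/-- The prime number below a nonzero prime. -/
lemma exists_prime_below {P : Ideal (AllInt F)} (hP : P.IsPrime) (hP0 : P ≠ ⊥) :
    ∃ l : ℕ, l.Prime ∧ (l : AllInt F) ∈ P := by
  have hint : Algebra.IsIntegral ℤ (AllInt F) := inferInstance
  obtain ⟨x, hxP, hx0⟩ := Submodule.exists_mem_ne_zero_of_ne_bot hP0
  have h1 : Ideal.comap (algebraMap ℤ (AllInt F)) P ≠ ⊥ :=
    Ideal.IsIntegral.comap_ne_bot ℤ hP0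
  have h2 : (Ideal.comap (algebraMap ℤ (AllInt F)) P).IsPrime := Ideal.comap_isPrime _ _
  obtain ⟨m, hm⟩ := IsPrincipalIdealRing.principal (Ideal.comap (algebraMap ℤ (AllInt F)) P)
  rw [Ideal.submodule_span_eq] at hm
  have hm0 : m ≠ 0 := by
    rintro rfl
    apply h1
    rw [hm, Ideal.span_singleton_eq_bot]
  have h3 : Prime m := by
    rw [← Ideal.span_singleton_prime hm0, ← hm]
    exact h2
  refine ⟨m.natAbs, Int.prime_iff_natAbs_prime.mp h3, ?_⟩
  have h4 : m ∈ Ideal.comap (algebraMap ℤ (AllInt F)) P := by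
    rw [hm]
    exact Ideal.mem_span_singleton_self m
  rw [Ideal.mem_comap, eq_intCast] at h4
  have h6 : ((m.natAbs : ℤ) : AllInt F) ∈ P := by
    rcases Int.natAbs_eq m with h5 | h5
    · rwa [← h5]
    · have h7 : (m.natAbs : ℤ) = -m := by omega
      rw [h7, Int.cast_neg]
      exact P.neg_mem h4
  rwa [Int.cast_natCast] at h6

/-- The inertia group of the zero ideal is trivial. -/
lemma eq_one_of_inert_bot {g : AbsGal F} (hg : g ∈ inert F (⊥ : Ideal (AllInt F))) : g = 1 := by
  ext x
  obtain ⟨a, b, hb, hab⟩ := IsFractionRing.div_surjective (A := 𝓞 (adjF x))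
    (⟨x, IntermediateField.mem_adjoin_simple_self ℚ x⟩ : adjF x)
  have h2 : ∀ c : 𝓞 (adjF x), g ((c : adjF x) : AlgebraicClosure F) =
      ((c : adjF x) : AlgebraicClosure F) := by
    intro c
    have h3 := hg (algebraMap (𝓞 (adjF x)) (AllInt F) c)
    rw [Ideal.mem_bot, sub_eq_zero] at h3
    exact congrArg (fun t : AllInt F => (t : AlgebraicClosure F)) h3
  have h3 : x = ((a : adjF x) : AlgebraicClosure F) / ((b : adjF x) : AlgebraicClosure F) := by
    have := congrArg (fun t : adjF x => (t : AlgebraicClosure F)) hab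
    exact this.symm
  rw [h3, map_div₀, h2 a, h2 b, AlgEquiv.one_apply]

section Unr

variable {L : Type} [NormedField L] {n : ℕ}

/-- Unramified at the embeddings implies unramified at the primes. -/
theorem unr_of_emb {p : ℕ} {ρ : AbsGal F →* Matrix.GeneralLinearGroup (Fin n) L}
    (hur : ∀ (l : ℕ) [Fact l.Prime], l ≠ p → ∀ j : AlgebraicClosure F →+* PadicAlgCl l,
      ∀ g ∈ Inert F (AlgebraicClosure F) j, ρ g = 1)
    (P : Ideal (AllInt F)) (hP : P.IsPrime) (hp : (p : AllInt F) ∉ P) (g : AbsGal F)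
    (hg : g ∈ inert F P) : ρ g = 1 := by
  by_cases hP0 : P = ⊥
  · rw [hP0] at hg
    rw [eq_one_of_inert_bot hg, map_one]
  · obtain ⟨l, hl, hlP⟩ := exists_prime_below hP hP0
    have : Fact l.Prime := ⟨hl⟩
    obtain ⟨j, rfl⟩ := exists_emb hP hlP
    refine hur l ?_ j g (inert_le j hg)
    rintro rfl
    exact hp hlP

/-- Coboundaries on the inertia groups of the embeddings are coboundaries on the inertia groups of
the primes. -/
theorem cob_of_emb {p : ℕ} {ρ : AbsGal F →* Matrix.GeneralLinearGroup (Fin n) L}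
    {x : AbsGal F → Fin n → L} (hx1 : x 1 = 0) (hx : BKOdd.UnrAway p ρ x)
    (P : Ideal (AllInt F)) (hP : P.IsPrime) (hp : (p : AllInt F) ∉ P) :
    x ∈ coboundOn ρ (inert F P) := by
  by_cases hP0 : P = ⊥
  · refine ⟨0, fun g hg => ?_⟩
    rw [hP0] at hg
    rw [eq_one_of_inert_bot hg, hx1, Matrix.mulVec_zero, sub_zero]
  · obtain ⟨l, hl, hlP⟩ := exists_prime_below hP hP0
    have : Fact l.Prime := ⟨hl⟩
    obtain ⟨j, rfl⟩ := exists_emb hP hlP
    obtain ⟨v, hv⟩ := hx l (by
      rintro rfl
      exact hp hlP) j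
    exact ⟨v, fun g hg => hv g (inert_le j hg)⟩

end Unr

end RZ

end Pool.Agent.Lib.MP_7c08ba_nt
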