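import Mathlib
import Pool.Agent.Lib.MP_7c08ba_nt.RZ.DPlace
import Pool.Agent.Lib.MP_7c08ba_nt.Crys.Local

set_option autoImplicit false

/-!
The local condition `H¹_f` at a place above `p` where no Hodge–Tate weight is positive.
-/

namespace Pool.Agent.Lib.MP_7c08ba_nt

namespace RZ

open NumberField BKGen BKGen.Genus BKOdd MP_7c08ba.Crys TensorProduct

section Abstract

variable {L M : Type} [Field L] [AddCommGroup M] [Module L M]

theorem range_eq_top_of_quadratic (D : Submodule L M) (T : M →ₗ[L] M) (hT : ∀ y ∈ D, T y ∈ D)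
    (S : D →ₗ[L] D) (hS : ∀ y : D, ((S y : D) : M) = T (y : M) - y) {t d : L}
    (h1 : 1 - t + d ≠ 0) (h : ∀ y ∈ D, T (T y) - t • T y + d • y = 0) :
    LinearMap.range S = ⊤ := by
  rw [LinearMap.range_eq_top]
  rintro ⟨y, hy⟩
  have hz : -(1 - t + d)⁻¹ • (T y + (1 - t) • y) ∈ D :=
    D.smul_mem _ (D.add_mem (hT y hy) (D.smul_mem _ hy))
  refine ⟨⟨_, hz⟩, ?_⟩
  apply Subtype.ext
  rw [hS, map_smul, map_add, map_smul, ← smul_sub]
  have e2 : T (T y) + (1 - t) • T y - (T y + (1 - t) • y) = -(1 - t + d) • y := by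
    have e3 : T (T y) = t • T y - d • y := by
      have h2 := h y hy
      rw [sub_add, sub_eq_zero] at h2
      exact h2
    rw [e3]
    module
  rw [e2, smul_smul, neg_mul_neg, inv_mul_cancel₀ h1, one_smul]

theorem le_of_rank_map_mkQ {A B : Submodule L M} (h : Module.rank L (A.map B.mkQ) ≤ 0) :
    A ≤ B := by
  have h1 : A.map B.mkQ = ⊥ := Submodule.rank_eq_zero.mp (le_antisymm h zero_le)
  intro x hx
  have h2 : B.mkQ x ∈ A.map B.mkQ := Submodule.mem_map_of_mem hx
  rw [h1, Submodule.mem_bot, Submodule.mkQ_apply, Submodule.Quotient.mk_eq_zero] at h2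
  exact h2

theorem rank_quot_top {B : Submodule L M} (h : B = ⊤) : Module.rank L (M ⧸ B) = 0 := by
  subst h
  exact rank_subsingleton' _ _

end Abstract

section Local

variable {p : ℕ} [Fact p.Prime] {G : Type} [Group G] {L V : Type} [Field L] [Algebra ℚ_[p] L]
  [AddCommGroup V] [Module ℚ_[p] V] [Module L V] [IsScalarTower ℚ_[p] L V]

/-- The Frobenius of `V ⊗ B_cris`. -/
noncomputable def frobV (p : ℕ) [Fact p.Prime] (L V : Type) [Field L] [Algebra ℚ_[p] L]
    [AddCommGroup V] [Module ℚ_[p] V] [Module L V] [IsScalarTower ℚ_[p] L V] :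
    V ⊗[ℚ_[p]] BCris p →ₗ[L] V ⊗[ℚ_[p]] BCris p := lT (L := L) phBa

/-- A quadratic relation for Frobenius for which `1` is not a root. -/
theorem phSub_range (a : G →* GQp p) (ρ : G →* (V →ₗ[L] V)) {t d : L} (h1 : 1 - t + d ≠ 0)
    (h : ∀ b ∈ DCris a ρ, frobV p L V (frobV p L V b) - t • frobV p L V b + d • b = 0) :
    LinearMap.range (phSub a ρ) = ⊤ :=
  range_eq_top_of_quadratic (DCris a ρ) (frobV p L V)
    (fun _ hy => ph_DB ρ (gB a) phBa (ph_gB a) hy) (phSub a ρ)
    (fun y => coe_phSubB ρ (gB a) phBa (ph_gB a) y) h1 h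

/-- No positive Hodge–Tate weight and `φ - 1` onto: the local condition is trivial. -/
theorem zcris_le (a : G →* GQp p) (ρ : G →* (V →ₗ[L] V))
    (hHT : ∀ m : ℕ, 1 ≤ m → HTw a ρ m = ⊥) (hφ : LinearMap.range (phSub a ρ) = ⊤) :
    ZCris a ρ ≤ cobound ρ := by
  have h1 := rank_ZCris a ρ 0 (by
    intro m
    have e : ∑ i ∈ Finset.Icc 1 m, Module.rank L (HTw a ρ i) = 0 := by
      refine Finset.sum_eq_zero fun i hi => ?_
      rw [hHT i (Finset.mem_Icc.mp hi).1]
      exact rank_bot L _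
    rw [e, Nat.cast_zero])
  rw [rank_quot_top hφ, Nat.cast_zero, zero_add] at h1
  exact le_of_rank_map_mkQ h1

end Local

section Glob

variable {p : ℕ} [Fact p.Prime] {F : Type} [Field F] [NumberField F] {L : Type} [NormedField L]
  [NormedAlgebra ℚ_[p] L] {n : ℕ}

/-- The true local condition implies the strict condition on the decomposition group. -/
theorem cob_of_zcris (j : AlgebraicClosure F →+* PadicAlgCl p)
    (ρ : AbsGal F →* Matrix.GeneralLinearGroup (Fin n) L)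
    (hHT : ∀ m : ℕ, 1 ≤ m → HTw (toQ j) (lin (ρ.comp (toF j))) m = ⊥) {t d : L}
    (h1 : 1 - t + d ≠ 0)
    (hφ : ∀ b ∈ DCris (toQ j) (lin (ρ.comp (toF j))),
      frobV p L (Fin n → L) (frobV p L (Fin n → L) b) - t • frobV p L (Fin n → L) b +
        d • b = 0)
    {x : AbsGal F → Fin n → L}
    (hx : (fun d : PD j => x (toF j d)) ∈ ZCris (toQ j) (lin (ρ.comp (toF j)))) :
    x ∈ coboundOn ρ (decomp F (primeOf j)) := by
  have h2 := zcris_le _ _ hHT (phSub_range _ _ h1 hφ) hx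
  rw [mem_cobound] at h2
  obtain ⟨v, hv⟩ := h2
  refine ⟨v, fun g hg => ?_⟩
  obtain ⟨τ, hτ⟩ := BKGlob.exists_cpt j (decomp_le j hg)
  exact hv ⟨(g, τ), hτ⟩

end Glob

end RZ

end Pool.Agent.Lib.MP_7c08ba_nt
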