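import Mathlib
import Pool.Agent.Lib.MP_7c08ba_nt.RZ.Defs

set_option autoImplicit false

/-!
Definitions for the analytic part: Poincaré series, sums over matrices of given determinant,
theta series of ideals, Eisenstein series with the quadratic character.
-/

namespace Pool.Agent.Lib.MP_7c08ba_nt

namespace RZ

open NumberField MeasureTheory UpperHalfPlane
open scoped MatrixGroups ComplexConjugate nonZeroDivisors

/-- `e(z) = exp(2πiz)`. -/
noncomputable def ee (z : ℂ) : ℂ := Complex.exp (2 * Real.pi * Complex.I * z)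

/-- Pairs of coprime integers. -/
abbrev Cop : Type := {p : ℤ × ℤ // IsCoprime p.1 p.2}

/-- A matrix of determinant one with bottom row `p` (for coprime `p.1`, `p.2`) applied to `z`. -/
noncomputable def mob (p : ℤ × ℤ) (z : ℂ) : ℂ :=
  ((Int.gcdB p.1 p.2 : ℂ) * z - Int.gcdA p.1 p.2) / (p.1 * z + p.2)

/-- The vertical strip. -/
def strip : Set ℍ := {z | 0 < z.re ∧ z.re ≤ 1}

/-- Functions transforming like modular forms of weight `w` and level one. -/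
def Wt (w : ℕ) (h : ℂ → ℂ) : Prop :=
  ∀ (g : SL(2, ℤ)) (z : ℂ), 0 < z.im →
    h (((g 0 0 : ℂ) * z + g 0 1) / ((g 1 0 : ℂ) * z + g 1 1)) = ((g 1 0 : ℂ) * z + g 1 1) ^ w * h z

/-- Poincaré series. -/
noncomputable def poinc (w m : ℕ) (z : ℂ) : ℂ :=
  (1 / 2) * ∑' v : Cop, (((v.1.1 : ℂ) * z + v.1.2) ^ w)⁻¹ * ee (m * mob v.1 z)

/-- Integral matrices of determinant `m`. -/
abbrev DetM (m : ℕ) : Type := {g : Matrix (Fin 2) (Fin 2) ℤ // g.det = m}

/-- The bilinear form attached to a matrix. -/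
noncomputable def bil (g : Matrix (Fin 2) (Fin 2) ℤ) (x₁ x₂ y₁ y₂ : ℂ) : ℂ :=
  ((g 0 0 : ℂ) * y₁ + g 0 1 * y₂) * x₂ - ((g 1 0 : ℂ) * y₁ + g 1 1 * y₂) * x₁

/-- The constant of the Lipschitz formula. -/
noncomputable def Cw (w : ℕ) : ℂ := (2 * Real.pi * Complex.I) ^ w / ((w - 1).factorial : ℂ)

/-- The hypergeometric polynomial. -/
noncomputable def Jr (w r : ℕ) (x : ℂ) : ℂ :=
  ∑ j ∈ Finset.range (r + 1), (r.choose j : ℂ) * ((w + r + j - 1).choose j : ℂ) * (-x) ^ j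

/-- The Laguerre polynomial. -/
noncomputable def lag (r : ℕ) (x : ℂ) : ℂ :=
  ∑ j ∈ Finset.range (r + 1), (r.choose j : ℂ) * (-x) ^ j / (j.factorial : ℂ)

/-- The general term of the Eisenstein series. -/
noncomputable def gE (r : ℕ) (s z : ℂ) : ℂ :=
  (z ^ (2 * r + 1))⁻¹ * ((Complex.normSq z : ℝ) : ℂ) ^ (-s)

/-- The terms over a period of the character, corrected by a telescoping term. -/
noncomputable def dE (q : ℕ) (χ : DirichletCharacter ℂ q) (r : ℕ) (s z : ℂ) : ℂ :=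
  (∑ a ∈ Finset.range q, χ a * gE r s (z + a)) -
    (∑ a ∈ Finset.range q, χ a * a) / q * (gE r s (z + q) - gE r s z)

/-- The Eisenstein series of weight `2 * r + 1` with the character `χ` modulo `q`. -/
noncomputable def eis (q : ℕ) [NeZero q] (χ : DirichletCharacter ℂ q) (r : ℕ) (s u : ℂ) : ℂ :=
  (u.im : ℂ) ^ s * (DirichletCharacter.LFunction χ (2 * r + 1 + 2 * s) +
    ∑' p : ℕ × ℤ, dE q χ r s (q * (((p.1 : ℂ) + 1) * u + p.2)))

section

variable {F : Type} [Field F] [NumberField F]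

/-- The norm of an element divided by the norm of an ideal. -/
noncomputable def Qa (σ : F →+* ℂ) (a : Ideal (𝓞 F)) (x : 𝓞 F) : ℝ :=
  Complex.normSq (σ x) / (Ideal.absNorm a : ℝ)

/-- Theta series of ideals with a power of the variable. -/
noncomputable def th (σ : F →+* ℂ) (a : Ideal (𝓞 F)) (k : ℕ) (u : ℂ) : ℂ :=
  ∑' x : a, σ (x : 𝓞 F) ^ k * ee (Qa σ a x * u)

/-- Theta series at the other cusp. -/
noncomputable def thS (q : ℕ) (σ : F →+* ℂ) (a : Ideal (𝓞 F)) (k : ℕ) (u : ℂ) : ℂ :=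
  ∑' x : a, (σ (x : 𝓞 F) / (Complex.I * Real.sqrt q)) ^ k * ee (Qa σ a x / q * u)

/-- Theta series of ideals with Laguerre polynomials. -/
noncomputable def thl (σ : F →+* ℂ) (a : Ideal (𝓞 F)) (r : ℕ) (u : ℂ) : ℂ :=
  ((u.im : ℂ) ^ r)⁻¹ * ∑' x : a, lag r (4 * Real.pi * Qa σ a x * u.im) * ee (Qa σ a x * u)

/-- Theta series with Laguerre polynomials at the other cusp. -/
noncomputable def thlS (q : ℕ) (σ : F →+* ℂ) (a : Ideal (𝓞 F)) (r : ℕ) (u : ℂ) : ℂ :=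
  ((u.im : ℂ) ^ r)⁻¹ *
    ∑' x : a, lag r (4 * Real.pi * (Qa σ a x / q) * u.im) * ee (Qa σ a x / q * u)

/-- The theta series of the Hecke character. -/
noncomputable def thψ {σ : F →+* ℂ} (k : ℕ) (ψ : Ideal (𝓞 F) →*₀ ℂ) (c : Reps σ) (u : ℂ) : ℂ :=
  (1 / 2) * ∑ A : ClassGroup (𝓞 F), (ψ (c.R A : Ideal (𝓞 F)))⁻¹ *
    th σ (c.R A : Ideal (𝓞 F)) k u

/-- The field, the square root of `-q`, the embedding, the character and the conjugation. -/
structure Dat (q : ℕ) (s : 𝓞 F) (σ : F →+* ℂ) (χ : DirichletCharacter ℂ q)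
    (cj : 𝓞 F ≃+* 𝓞 F) : Prop where
  prime : q.Prime
  mod : q % 16 = 7
  fin : Module.finrank ℚ F = 2
  sq : s ^ 2 = -(q : 𝓞 F)
  im : σ s = Complex.I * Real.sqrt q
  chi : ∀ n : ℤ, χ n = (jacobiSym n q : ℂ)
  conjσ : ∀ x : 𝓞 F, σ (cj x) = conj (σ x)

/-- The group `Γ₀(q)`, transformation with the character `χ`. -/
def Wq (q : ℕ) (χ : DirichletCharacter ℂ q) (k : ℕ) (h : ℂ → ℂ) : Prop :=
  ∀ (g : SL(2, ℤ)) (z : ℂ), 0 < z.im → (q : ℤ) ∣ g 1 0 →
    h (((g 0 0 : ℂ) * z + g 0 1) / ((g 1 0 : ℂ) * z + g 1 1)) =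
      χ (g 1 1 : ℤ) * ((g 1 0 : ℂ) * z + g 1 1) ^ k * h z

/-- The factor `y ^ (2r+1)` times the product of the two theta series (weight `w`). -/
noncomputable def HH {σ : F →+* ℂ} (q : ℕ) [NeZero q] (χ : DirichletCharacter ℂ q) (w r : ℕ)
    (ψ : Ideal (𝓞 F) →*₀ ℂ) (c : Reps σ) (s u : ℂ) : ℂ :=
  thψ (w + 2 * r) ψ c u * conj (eis q χ r (conj s) u) * (u.im : ℂ) ^ (2 * r + 1)

end

/-- The sum over the cosets of `Γ₀(q)` (weight `w`). -/
noncomputable def tr (q w : ℕ) (H : ℂ → ℂ) (u : ℂ) : ℂ :=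
  H u + ∑ j ∈ Finset.range q, ((u + j) ^ w)⁻¹ * H (-1 / (u + j))

/-- The Rankin–Selberg integral. -/
noncomputable def rsI {w : ℕ} (q : ℕ) (H : ℂ → ℂ) (f : CuspForm 𝒮ℒ (w : ℤ)) : ℂ :=
  ∫ z : ℍ in ModularGroup.fd, tr q w H z * f (ofComplex (-conj (z : ℂ))) * (z.im : ℂ) ^ w

end RZ

end Pool.Agent.Lib.MP_7c08ba_nt
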