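import Mathlib
import Pool.Agent.Lib.MP_7c08ba_nt.RZ.ADefs

set_option autoImplicit false

/-!
Statements of the analytic modules, level one.
-/

namespace Pool.Agent.Lib.MP_7c08ba_nt

namespace RZ

open NumberField MeasureTheory UpperHalfPlane Set
open scoped MatrixGroups ComplexConjugate nonZeroDivisors

/-- (A0) the weight -/
def StW12 : Prop :=
  ∀ (w : ℕ) (f : CuspForm 𝒮ℒ (w : ℤ)), IsEigen f → 12 ≤ w ∧ Even w

/-- (A1) unfolding -/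
def StUnf : Prop :=
  ∀ G : ℂ → ℂ, ContinuousOn G {z | 0 < z.im} → (∀ z : ℂ, 0 < z.im → G (z + 1) = G z) →
    IntegrableOn (fun z : ℍ => G z) strip →
    (∀ᵐ z : ℍ, Summable fun v : Cop => G (mob v.1 z)) ∧
    IntegrableOn (fun z : ℍ => ∑' v : Cop, G (mob v.1 z)) ModularGroup.fd ∧
    ∫ z : ℍ in ModularGroup.fd, ∑' v : Cop, G (mob v.1 z) = 2 * ∫ z : ℍ in strip, G z

/-- (A2) integrals over the strip -/
def StStrip : Prop :=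
  ∀ (G : ℂ → ℂ) (b : ℝ → ℝ), ContinuousOn G {z | 0 < z.im} →
    (∀ x y : ℝ, 0 < x → x ≤ 1 → 0 < y → ‖G (x + y * Complex.I)‖ ≤ b y) →
    IntegrableOn (fun y : ℝ => b y / y ^ 2) (Ioi 0) →
    IntegrableOn (fun z : ℍ => G z) strip ∧
    ∫ z : ℍ in strip, G z =
      ∫ y in Ioi (0 : ℝ), (∫ x in (0 : ℝ)..1, G (x + y * Complex.I)) / (y : ℂ) ^ 2

/-- (A3) the fundamental domain has finite volume, is measurable, and lies above the line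
`Im z = 1 / 2` -/
def StFd : Prop :=
  volume (ModularGroup.fd : Set ℍ) < ⊤ ∧ MeasurableSet (ModularGroup.fd : Set ℍ) ∧
    (∀ z ∈ (ModularGroup.fd : Set ℍ), 1 / 2 < z.im ∧ |z.re| ≤ 1 / 2)

/-- (A4) summability of the terms of Poincaré series, uniformly in `m` -/
def StPoiS : Prop :=
  (∀ (w : ℕ) (z : ℂ), 3 ≤ w → 0 < z.im →
    Summable fun v : Cop => ‖(((v.1.1 : ℂ) * z + v.1.2) ^ w)⁻¹‖) ∧
  (∀ (v : Cop) (z : ℂ), 0 < z.im → 0 < (mob v.1 z).im ∧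
    (mob v.1 z).im = z.im / Complex.normSq ((v.1.1 : ℂ) * z + v.1.2))

/-- (A5) Poincaré series are cusp forms -/
def StPoi : Prop :=
  ∀ w m : ℕ, 3 ≤ w → Even w → 1 ≤ m → ∃ P : CuspForm 𝒮ℒ (w : ℤ), ∀ z : ℍ, P z = poinc w m z

/-- (A6) integrals against Poincaré series -/
def StPetU : Prop :=
  ∀ (w m : ℕ) (h : ℂ → ℂ), 4 ≤ w → Even w → 1 ≤ m → ContinuousOn h {z | 0 < z.im} → Wt w h →
    (∃ C : ℝ, ∀ z : ℂ, 0 < z.im → ‖h z‖ * z.im ^ ((w : ℝ) / 2) ≤ C) →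
    IntegrableOn (fun z : ℍ => h z * poinc w m (-conj (z : ℂ)) * (z.im : ℂ) ^ w)
      ModularGroup.fd ∧
    ∫ z : ℍ in ModularGroup.fd, h z * poinc w m (-conj (z : ℂ)) * (z.im : ℂ) ^ w =
      ∫ y in Ioi (0 : ℝ), (∫ x in (0 : ℝ)..1, h (x + y * Complex.I) *
        ee (-(m : ℂ) * (x - y * Complex.I))) * (y : ℂ) ^ (w - 2)

/-- (A7) cusp forms are linear combinations of Poincaré series -/
def StSpan : Prop :=
  ∀ (w : ℕ) (f : CuspForm 𝒮ℒ (w : ℤ)), 4 ≤ w → Even w → ∃ β : ℕ →₀ ℂ, β 0 = 0 ∧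
    ∀ z : ℍ, f z = β.sum fun m b => b * poinc w m z

/-- (A8) Hecke operators on eigenforms -/
def StTrF : Prop :=
  ∀ (w : ℕ) (f : CuspForm 𝒮ℒ (w : ℤ)), IsEigen f → ∀ (r : ℕ) (z : ℂ), 1 ≤ r → 0 < z.im →
    ∑ d ∈ r.divisors, ∑ b ∈ Finset.range d, (((r / d : ℕ) : ℂ)) ^ (w - 1) * (d : ℂ)⁻¹ *
      f (ofComplex ((((r / d : ℕ) : ℂ) * z + b) / d)) = coef f r * f (ofComplex z)

/-- (A9) Hecke operators on Poincaré series -/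
def StTrP : Prop :=
  ∀ (w m r : ℕ) (z : ℂ), 3 ≤ w → Even w → 1 ≤ m → 1 ≤ r → 0 < z.im →
    ∑ d ∈ r.divisors, ∑ b ∈ Finset.range d, (((r / d : ℕ) : ℂ)) ^ (w - 1) * (d : ℂ)⁻¹ *
      poinc w m ((((r / d : ℕ) : ℂ) * z + b) / d) =
    ∑ g ∈ (m.gcd r).divisors, ((r / g : ℕ) : ℂ) ^ (w - 1) * poinc w (r * m / g ^ 2) z

/-- (A10) sums over matrices of determinant `m`: convergence -/
def StMatS : Prop :=
  ∀ (w m : ℕ) (x₁ x₂ y₁ y₂ : ℂ), 5 ≤ w → 1 ≤ m → 0 < (x₁ * conj x₂).im →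
    (y₁ * conj y₂).im < 0 →
    (∀ g : DetM m, bil g.1 x₁ x₂ y₁ y₂ ≠ 0) ∧
    Summable fun g : DetM m => ‖((bil g.1 x₁ x₂ y₁ y₂) ^ w)⁻¹‖

/-- (A11) sums over matrices of determinant `m` in terms of Poincaré series -/
def StWk : Prop :=
  ∀ (w m : ℕ) (z z₁ : ℂ), 5 ≤ w → Even w → 1 ≤ m → 0 < z.im → 0 < z₁.im →
    ∑' g : DetM m, (((g.1 0 0 : ℂ) * z + g.1 0 1 + z₁ * ((g.1 1 0 : ℂ) * z + g.1 1 1)) ^ w)⁻¹ =
      2 * Cw w * ∑' r : ℕ, ee (((r : ℂ) + 1) * z₁) *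
        ∑ g ∈ (m.gcd (r + 1)).divisors, (((r + 1) / g : ℕ) : ℂ) ^ (w - 1) *
          poinc w ((r + 1) * m / g ^ 2) z

/-- The kernel identity for a combination of Poincaré series. -/
def KerId {w : ℕ} (f : CuspForm 𝒮ℒ (w : ℤ)) (β : ℕ →₀ ℂ) : Prop :=
  ∀ x₁ x₂ y₁ y₂ : ℂ, 0 < (x₁ * conj x₂).im → (y₁ * conj y₂).im < 0 →
    β.sum (fun m b => b * ∑' g : DetM m, ((bil g.1 x₁ x₂ y₁ y₂) ^ w)⁻¹) =
      2 * Cw w * lf f x₁ x₂ * lf f (-y₁) y₂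

/-- (A12) the kernel identity -/
def StKer : Prop :=
  ∀ (w : ℕ) (f : CuspForm 𝒮ℒ (w : ℤ)) (β : ℕ →₀ ℂ), IsEigen f → β 0 = 0 →
    (∀ z : ℍ, f z = β.sum fun m b => b * poinc w m z) → KerId f β

/-- (A13) Taylor coefficients of the kernel identity -/
def StDefo : Prop :=
  ∀ (w r : ℕ) (f : CuspForm 𝒮ℒ (w : ℤ)) (β : ℕ →₀ ℂ) (c₁ c₂ d₁ d₂ : ℂ), 5 ≤ w → β 0 = 0 →
    KerId f β → 0 < (c₁ * conj c₂).im → 0 < (d₁ * conj d₂).im →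
    (∀ m : ℕ, 1 ≤ m → Summable fun g : DetM m =>
      ‖((conj (bil g.1 (conj c₁) (conj c₂) d₁ d₂)) ^ (w + r))⁻¹ *
        (bil g.1 (conj c₁) (conj c₂) d₁ d₂) ^ r *
        Jr w r (Complex.normSq (bil g.1 c₁ c₂ d₁ d₂) /
          Complex.normSq (bil g.1 (conj c₁) (conj c₂) d₁ d₂))‖) ∧
    β.sum (fun m b => b * ∑' g : DetM m,
      ((conj (bil g.1 (conj c₁) (conj c₂) d₁ d₂)) ^ (w + r))⁻¹ *
        (bil g.1 (conj c₁) (conj c₂) d₁ d₂) ^ r *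
        Jr w r (Complex.normSq (bil g.1 c₁ c₂ d₁ d₂) /
          Complex.normSq (bil g.1 (conj c₁) (conj c₂) d₁ d₂))) * ((w + r - 1).choose r : ℂ) =
      (-1) ^ r * (2 * Cw w) * lfr f r c₁ c₂ * lfr f r (-conj d₁) (conj d₂)

/-- (A14) Poisson summation for a plane lattice and a Gaussian times an exponential -/
def StPoisson : Prop :=
  ∀ (X Y x u t : ℂ) (N : ℝ), 0 < (X * conj Y).im → 0 < N → 0 < u.im →
    let D : ℂ := Complex.I * N / (2 * (X * conj Y).im)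
    (Summable fun p : ℤ × ℤ => ‖Complex.exp (t * (x + p.1 * X + p.2 * Y)) *
      ee (Complex.normSq (x + p.1 * X + p.2 * Y) / N * u)‖) ∧
    ∑' p : ℤ × ℤ, Complex.exp (t * (x + p.1 * X + p.2 * Y)) *
        ee (Complex.normSq (x + p.1 * X + p.2 * Y) / N * u) =
      D / u * ∑' p : ℤ × ℤ, ee (2 * (x * conj (D * (p.1 * X + p.2 * Y))).re / N) *
        Complex.exp (t * (D * (p.1 * X + p.2 * Y)) / u) *
        ee (-(Complex.normSq (D * (p.1 * X + p.2 * Y)) / N) / u)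

/-- (A15) the same with powers, transformed under `u ↦ -1/u` -/
def StPoisK : Prop :=
  ∀ (k : ℕ) (X Y x u : ℂ) (N : ℝ), 0 < (X * conj Y).im → 0 < N → 0 < u.im →
    let D : ℂ := Complex.I * N / (2 * (X * conj Y).im)
    ∑' p : ℤ × ℤ, (x + p.1 * X + p.2 * Y) ^ k *
        ee (Complex.normSq (x + p.1 * X + p.2 * Y) / N * (-1 / u)) =
      D * (-u) ^ (k + 1) * ∑' p : ℤ × ℤ, ee (2 * (x * conj (D * (p.1 * X + p.2 * Y))).re / N) *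
        (D * (p.1 * X + p.2 * Y)) ^ k *
        ee (Complex.normSq (D * (p.1 * X + p.2 * Y)) / N * u)

/-- (A16) the trace from `Γ₀(q)` to level one -/
def StTrace : Prop :=
  ∀ (q w : ℕ) (H : ℂ → ℂ), q.Prime → Even w →
    (∀ (g : SL(2, ℤ)) (z : ℂ), 0 < z.im → (q : ℤ) ∣ g 1 0 →
      H (((g 0 0 : ℂ) * z + g 0 1) / ((g 1 0 : ℂ) * z + g 1 1)) =
        ((g 1 0 : ℂ) * z + g 1 1) ^ w * H z) →
    Wt w (tr q w H)

/-- (A17) raising the weight: from weight one to weight `2 * r + 1` -/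
def StRaise : Prop :=
  ∀ (ι : Type) (r : ℕ) (Q Q' : ι → ℝ) (a b c d : ℝ) (κ : ℂ),
    (∀ i, 0 ≤ Q i) → (∀ i, 0 ≤ Q' i) →
    (∀ y : ℝ, 0 < y → Summable fun i => Real.exp (-Q i * y)) →
    (∀ y : ℝ, 0 < y → Summable fun i => Real.exp (-Q' i * y)) →
    a * d - b * c = 1 →
    (∀ z : ℂ, 0 < z.im → ∑' i, ee (Q i * ((a * z + b) / (c * z + d))) =
      κ * (c * z + d) * ∑' i, ee (Q' i * z)) →
    ∀ z : ℂ, 0 < z.im →
      ((((a * z + b) / (c * z + d)).im : ℂ) ^ r)⁻¹ * ∑' i, lag r (4 * Real.pi * Q i *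
          ((a * z + b) / (c * z + d)).im) * ee (Q i * ((a * z + b) / (c * z + d))) =
        κ * (c * z + d) ^ (2 * r + 1) * (((z.im : ℂ) ^ r)⁻¹ *
          ∑' i, lag r (4 * Real.pi * Q' i * z.im) * ee (Q' i * z))

/-- (A18) the basic integral -/
def StGam : Prop :=
  ∀ (w r : ℕ) (Qα Qβ : ℝ), 1 ≤ w → 0 < Qα → 0 ≤ Qβ →
    IntegrableOn (fun y : ℝ => (y : ℂ) ^ (w + r - 1) * lag r (4 * Real.pi * Qβ * y) *
      Complex.exp (-(4 * Real.pi * Qα * y))) (Ioi 0) ∧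
    ∫ y in Ioi (0 : ℝ), (y : ℂ) ^ (w + r - 1) * lag r (4 * Real.pi * Qβ * y) *
        Complex.exp (-(4 * Real.pi * Qα * y)) =
      ((w + r - 1).factorial : ℂ) * ((4 * Real.pi * Qα) ^ (w + r))⁻¹ * Jr w r (Qβ / Qα)

/-- (A19) holomorphic dependence of integrals on a parameter -/
def StHol : Prop :=
  ∀ (X : Type) (_ : MeasurableSpace X) (μ : Measure X) (U : Set ℂ) (G : ℂ → X → ℂ), IsOpen U →
    (∀ s ∈ U, AEStronglyMeasurable (G s) μ) →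
    (∀ᵐ x ∂μ, DifferentiableOn ℂ (fun s => G s x) U) →
    (∀ s ∈ U, ∃ (δ : ℝ) (b : X → ℝ), 0 < δ ∧ Integrable b μ ∧
      ∀ᵐ x ∂μ, ∀ s' ∈ U, ‖s' - s‖ < δ → ‖G s' x‖ ≤ b x) →
    DifferentiableOn ℂ (fun s => ∫ x, G s x ∂μ) U

/-- (A20) Fourier coefficients of cusp forms: size, expansion, growth -/
def StCoef : Prop :=
  ∀ (w : ℕ) (f : CuspForm 𝒮ℒ (w : ℤ)),
    coef f 0 = 0 ∧
    (∃ C : ℝ, ∀ n : ℕ, ‖coef f n‖ ≤ C * (n : ℝ) ^ ((w : ℝ) / 2)) ∧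
    (∀ z : ℂ, 0 < z.im → Summable (fun n : ℕ => ‖coef f n * ee (n * z)‖) ∧
      f (ofComplex z) = ∑' n : ℕ, coef f n * ee (n * z)) ∧
    (∃ C : ℝ, ∀ z : ℂ, 0 < z.im → ‖f (ofComplex z)‖ * z.im ^ ((w : ℝ) / 2) ≤ C) ∧
    (∃ C : ℝ, ∀ z : ℂ, 1 / 2 ≤ z.im → ‖f (ofComplex z)‖ ≤ C * Real.exp (-(2 * Real.pi * z.im)))

end RZ

end Pool.Agent.Lib.MP_7c08ba_nt
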