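import Mathlib
import Pool.Agent.Lib.MP_7c08ba_nt.RZ.ADefs

set_option autoImplicit false

/-!
Statements of the analytic modules, part B: theta series of ideals and Eisenstein series.
-/

namespace Pool.Agent.Lib.MP_7c08ba_nt

namespace RZ

open NumberField MeasureTheory UpperHalfPlane Set
open scoped MatrixGroups ComplexConjugate nonZeroDivisors

/-- (B0) arithmetic of the field -/
def StBas : Prop :=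
  ∀ (q : ℕ) (F : Type) (_ : Field F) (_ : NumberField F) (s : 𝓞 F) (σ : F →+* ℂ)
    (χ : DirichletCharacter ℂ q) (cj : 𝓞 F ≃+* 𝓞 F), Dat q s σ χ cj →
    (∀ x : 𝓞 F, ∃ a b : ℤ, 2 * x = a + b * s ∧ (2 : ℤ) ∣ a - b) ∧
    (∀ x, cj (cj x) = x) ∧ cj s = -s ∧ (∀ x, s ∣ x - cj x) ∧
    (∀ x, x * cj x = (Ideal.absNorm (Ideal.span {x}) : 𝓞 F)) ∧
    (∀ x : 𝓞 F, Complex.normSq (σ x) = (Ideal.absNorm (Ideal.span {x}) : ℝ)) ∧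
    (∀ a : Ideal (𝓞 F), a * a.map (cj : 𝓞 F →+* 𝓞 F) = Ideal.span {(Ideal.absNorm a : 𝓞 F)}) ∧
    (∀ x : 𝓞 F, IsUnit x → x = 1 ∨ x = -1) ∧
    (Ideal.span {s}).IsPrime ∧ (∀ x : 𝓞 F, ∃ n : ℤ, s ∣ x - n) ∧
    (∀ n : ℤ, s ∣ (n : 𝓞 F) ↔ (q : ℤ) ∣ n)

/-- (B1) oriented bases of ideals -/
def StBase : Prop :=
  ∀ (q : ℕ) (F : Type) (_ : Field F) (_ : NumberField F) (s : 𝓞 F) (σ : F →+* ℂ)
    (χ : DirichletCharacter ℂ q) (cj : 𝓞 F ≃+* 𝓞 F), Dat q s σ χ cj →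
    (∀ a : Ideal (𝓞 F), a ≠ ⊥ → ∃ x y : 𝓞 F, OBasis σ a x y) ∧
    (∀ (a : Ideal (𝓞 F)) (x y : 𝓞 F), OBasis σ a x y →
      x * cj y - cj x * y = s * (Ideal.absNorm a : 𝓞 F)) ∧
    (∀ (a : Ideal (𝓞 F)) (x y : 𝓞 F), OBasis σ a x y →
      (σ x * conj (σ y)).im = Real.sqrt q / 2 * (Ideal.absNorm a : ℝ)) ∧
    (∀ (a : Ideal (𝓞 F)) (x y : 𝓞 F), OBasis σ a x y → ∀ m n : ℤ,
      (m : 𝓞 F) * x + (n : 𝓞 F) * y = 0 → m = 0 ∧ n = 0) ∧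
    (∀ (a : Ideal (𝓞 F)) (x y x' y' : 𝓞 F), OBasis σ a x y → OBasis σ a x' y' →
      ∃ g : SL(2, ℤ), x' = (g 0 0 : 𝓞 F) * x + (g 0 1 : 𝓞 F) * y ∧
        y' = (g 1 0 : 𝓞 F) * x + (g 1 1 : 𝓞 F) * y) ∧
    (∀ (a : Ideal (𝓞 F)) (x y : 𝓞 F), OBasis σ a x y →
      OBasis σ (a.map (cj : 𝓞 F →+* 𝓞 F)) (-cj x) (cj y)) ∧
    (∀ (a : Ideal (𝓞 F)) (x y t : 𝓞 F), OBasis σ a x y → t ≠ 0 →
      OBasis σ (Ideal.span {t} * a) (t * x) (t * y))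

/-- (B2) the class number is odd, and there are representatives prime to `s` -/
def StReps : Prop :=
  ∀ (q : ℕ) (F : Type) (_ : Field F) (_ : NumberField F) (s : 𝓞 F) (σ : F →+* ℂ)
    (χ : DirichletCharacter ℂ q) (cj : 𝓞 F ≃+* 𝓞 F), Dat q s σ χ cj →
    Odd (Nat.card (ClassGroup (𝓞 F))) ∧
    ∃ c : Reps σ, ∀ A, IsCoprime (c.R A : Ideal (𝓞 F)) (Ideal.span {s})

/-- (B3) the period does not depend on the representatives, and conjugation -/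
def StPInv : Prop :=
  ∀ (q : ℕ) (F : Type) (_ : Field F) (_ : NumberField F) (s : 𝓞 F) (σ : F →+* ℂ)
    (χ : DirichletCharacter ℂ q) (cj : 𝓞 F ≃+* 𝓞 F) (w r : ℕ) (f : CuspForm 𝒮ℒ (w : ℤ))
    (ψ : Ideal (𝓞 F) →*₀ ℂ), Dat q s σ χ cj → IsHecke σ (w + 2 * r) ψ → 1 ≤ w →
    (∀ c c' : Reps σ, period f r ψ c = period f r ψ c') ∧
    (∀ c : Reps σ, ∑ A : ClassGroup (𝓞 F), (ψ (c.R A : Ideal (𝓞 F)))⁻¹ *
      (Ideal.absNorm (c.R A : Ideal (𝓞 F)) : ℂ) ^ (w + r) *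
        lfr f r (-conj (σ (c.X A))) (conj (σ (c.Y A))) = period f r ψ c)

/-- (B4) convergence, continuity, periodicity and size of the theta series -/
def StThB : Prop :=
  ∀ (q : ℕ) (F : Type) (_ : Field F) (_ : NumberField F) (s : 𝓞 F) (σ : F →+* ℂ)
    (χ : DirichletCharacter ℂ q) (cj : 𝓞 F ≃+* 𝓞 F) (a : Ideal (𝓞 F)) (k r : ℕ),
    Dat q s σ χ cj → a ≠ ⊥ →
    (∀ x ∈ a, ∃ n : ℕ, Qa σ a x = n) ∧
    (∀ t : ℝ, 0 < t → Summable fun x : a =>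
      (1 + ‖σ (x : 𝓞 F)‖) ^ k * Real.exp (-(t * Qa σ a x))) ∧
    ContinuousOn (th σ a k) {u | 0 < u.im} ∧ ContinuousOn (thS q σ a k) {u | 0 < u.im} ∧
    ContinuousOn (thl σ a r) {u | 0 < u.im} ∧ ContinuousOn (thlS q σ a r) {u | 0 < u.im} ∧
    (∀ u : ℂ, th σ a k (u + 1) = th σ a k u) ∧ (∀ u : ℂ, thl σ a r (u + 1) = thl σ a r u) ∧
    (1 ≤ k → ∃ C δ : ℝ, 0 < δ ∧ ∀ u : ℂ, 1 / 2 ≤ u.im →
      ‖th σ a k u‖ ≤ C * Real.exp (-(δ * u.im)) ∧ ‖thS q σ a k u‖ ≤ C * Real.exp (-(δ * u.im))) ∧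
    (∃ C : ℝ, ∀ u : ℂ, 1 / 2 ≤ u.im → ‖thl σ a r u‖ ≤ C ∧ ‖thlS q σ a r u‖ ≤ C) ∧
    (∃ (C : ℝ) (A : ℕ), ∀ u : ℂ, 0 < u.im → ‖th σ a k u‖ ≤ C * (1 + (u.im ^ A)⁻¹))

/-- (B5) theta series: the transformation `u ↦ -1/u` -/
def StThS : Prop :=
  ∀ (q : ℕ) (F : Type) (_ : Field F) (_ : NumberField F) (s : 𝓞 F) (σ : F →+* ℂ)
    (χ : DirichletCharacter ℂ q) (cj : 𝓞 F ≃+* 𝓞 F) (a : Ideal (𝓞 F)) (k : ℕ) (u : ℂ),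
    Dat q s σ χ cj → a ≠ ⊥ → Even k → 0 < u.im →
    th σ a k (-1 / u) = (-Complex.I / Real.sqrt q) * u ^ (k + 1) * thS q σ a k u

/-- (B6) theta series: the group `Γ₀(q)` -/
def StThG : Prop :=
  ∀ (q : ℕ) (F : Type) (_ : Field F) (_ : NumberField F) (s : 𝓞 F) (σ : F →+* ℂ)
    (χ : DirichletCharacter ℂ q) (cj : 𝓞 F ≃+* 𝓞 F) (a : Ideal (𝓞 F)) (k : ℕ),
    Dat q s σ χ cj → a ≠ ⊥ → Even k → Wq q χ (k + 1) (th σ a k)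

/-- (B7) the same for Laguerre theta series -/
def StThl : Prop :=
  ∀ (q : ℕ) (F : Type) (_ : Field F) (_ : NumberField F) (s : 𝓞 F) (σ : F →+* ℂ)
    (χ : DirichletCharacter ℂ q) (cj : 𝓞 F ≃+* 𝓞 F) (a : Ideal (𝓞 F)) (r : ℕ),
    Dat q s σ χ cj → a ≠ ⊥ →
    Wq q χ (2 * r + 1) (thl σ a r) ∧
    ∀ u : ℂ, 0 < u.im →
      thl σ a r (-1 / u) = (-Complex.I / Real.sqrt q) * u ^ (2 * r + 1) * thlS q σ a r u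

/-- (B8) sums over ideals and sums over elements of representatives -/
def StIdSum : Prop :=
  ∀ (q : ℕ) (F : Type) (_ : Field F) (_ : NumberField F) (s : 𝓞 F) (σ : F →+* ℂ)
    (χ : DirichletCharacter ℂ q) (cj : 𝓞 F ≃+* 𝓞 F) (c : Reps σ) (g : Ideal (𝓞 F) → ℂ)
    (T : ClassGroup (𝓞 F) → 𝓞 F → ℂ), Dat q s σ χ cj → (∀ A, T A 0 = 0) →
    (∀ (A : ClassGroup (𝓞 F)) (x : 𝓞 F) (b : Ideal (𝓞 F)), x ≠ 0 →
      b * (c.R A : Ideal (𝓞 F)) = Ideal.span {x} → T A x = g b) →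
    (∀ A, Summable fun x : (c.R A : Ideal (𝓞 F)) => ‖T A x‖) →
    (Summable fun b : (Ideal (𝓞 F))⁰ => ‖g b‖) ∧
    ∑ A : ClassGroup (𝓞 F), ∑' x : (c.R A : Ideal (𝓞 F)), T A x =
      2 * ∑' b : (Ideal (𝓞 F))⁰, g b

/-- (B9) the number of ideals of given norm -/
def StCount : Prop :=
  ∀ (q : ℕ) (F : Type) (_ : Field F) (_ : NumberField F) (s : 𝓞 F) (σ : F →+* ℂ)
    (χ : DirichletCharacter ℂ q) (cj : 𝓞 F ≃+* 𝓞 F), Dat q s σ χ cj → ∀ n : ℕ, 1 ≤ n →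
    (Nat.card {b : Ideal (𝓞 F) // Ideal.absNorm b = n} : ℤ) = ∑ d ∈ n.divisors, jacobiSym d q

/-- (B10) splitting of primes -/
def StSplit : Prop :=
  ∀ (q : ℕ) (F : Type) (_ : Field F) (_ : NumberField F) (s : 𝓞 F) (σ : F →+* ℂ)
    (χ : DirichletCharacter ℂ q) (cj : 𝓞 F ≃+* 𝓞 F), Dat q s σ χ cj → ∀ p : ℕ, p.Prime →
    (jacobiSym p q = 1 → ∃ P P' : Ideal (𝓞 F), P.IsPrime ∧ P'.IsPrime ∧ P ≠ P' ∧
      P * P' = Ideal.span {(p : 𝓞 F)} ∧ Ideal.absNorm P = p ∧ Ideal.absNorm P' = p) ∧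
    (jacobiSym p q = -1 → (Ideal.span {(p : 𝓞 F)}).IsPrime ∧
      Ideal.absNorm (Ideal.span {(p : 𝓞 F)}) = p ^ 2) ∧
    (jacobiSym p q = 0 → p = q ∧ (Ideal.span {s}).IsPrime ∧
      Ideal.span {s} ^ 2 = Ideal.span {(p : 𝓞 F)} ∧ Ideal.absNorm (Ideal.span {s}) = p)

/-- (B11) convergence of the Eisenstein series: holomorphy, continuity, size -/
def StEisA : Prop :=
  ∀ (q : ℕ) (_ : NeZero q) (χ : DirichletCharacter ℂ q) (r : ℕ), q.Prime → 2 < q →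
    (∀ n : ℤ, χ n = (jacobiSym n q : ℂ)) →
    (∀ u : ℂ, 0 < u.im →
      DifferentiableOn ℂ (fun s => eis q χ r s u) {s | -(r : ℝ) - 1 / 2 < s.re}) ∧
    (∀ s u : ℂ, -(r : ℝ) - 1 / 2 < s.re → 0 < u.im →
      Summable fun p : ℕ × ℤ => ‖dE q χ r s (q * (((p.1 : ℂ) + 1) * u + p.2))‖) ∧
    (∀ s : ℂ, -(r : ℝ) - 1 / 2 < s.re → ContinuousOn (eis q χ r s) {u | 0 < u.im}) ∧
    (∀ σ₀ R : ℝ, -(r : ℝ) - 1 / 2 < σ₀ → ∃ C A : ℝ, 0 ≤ A ∧ ∀ s u : ℂ, σ₀ ≤ s.re → ‖s‖ ≤ R →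
      0 < u.im → ‖eis q χ r s u‖ ≤ C * ((1 + ‖u‖ ^ 2) / u.im) ^ A)

/-- (B12) the Eisenstein series as a sum over coprime pairs -/
def StEisBig : Prop :=
  ∀ (q : ℕ) (_ : NeZero q) (χ : DirichletCharacter ℂ q) (r : ℕ), q.Prime → 2 < q →
    (∀ n : ℤ, χ n = (jacobiSym n q : ℂ)) → jacobiSym (-1) q = -1 →
    ∀ s u : ℂ, 1 / 2 - (r : ℝ) < s.re → 0 < u.im →
      (Summable fun v : Cop => ‖((((v.1.1 : ℂ) * u + v.1.2) ^ (2 * r + 1))⁻¹ *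
        ((Complex.normSq ((v.1.1 : ℂ) * u + v.1.2) : ℝ) : ℂ) ^ (-s))‖) ∧
      eis q χ r s u = 1 / 2 * DirichletCharacter.LFunction χ (2 * r + 1 + 2 * s) *
        ∑' v : Cop, (if (q : ℤ) ∣ v.1.1 then χ (v.1.2 : ℤ) else 0) *
          (((v.1.1 : ℂ) * u + v.1.2) ^ (2 * r + 1))⁻¹ *
          ((Complex.normSq ((v.1.1 : ℂ) * u + v.1.2) : ℝ) : ℂ) ^ (-s) * (u.im : ℂ) ^ s

/-- (B13) invariance of the Eisenstein series -/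
def StEisLaw : Prop :=
  ∀ (q : ℕ) (_ : NeZero q) (χ : DirichletCharacter ℂ q) (r : ℕ), q.Prime → 2 < q →
    (∀ n : ℤ, χ n = (jacobiSym n q : ℂ)) → jacobiSym (-1) q = -1 →
    ∀ s : ℂ, -(r : ℝ) - 1 / 2 < s.re → Wq q χ (2 * r + 1) (eis q χ r s)

/-- (B14) the Eisenstein series at `s = -r` -/
def StEisAt : Prop :=
  ∀ (q : ℕ) (_ : NeZero q) (χ : DirichletCharacter ℂ q), q.Prime → 2 < q →
    (∀ n : ℤ, χ n = (jacobiSym n q : ℂ)) → jacobiSym (-1) q = -1 →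
    ∃ ε : ℂ, (ε = 1 ∨ ε = -1) ∧ ∀ (r : ℕ) (u : ℂ), 0 < u.im →
      eis q χ r (-r) u = ((u.im : ℂ) ^ r)⁻¹ * (DirichletCharacter.LFunction χ 1 +
        ε * (2 * Real.pi / Real.sqrt q) * ∑' p : ℕ × ℕ, χ ((p.2 + 1 : ℕ) : ℤ) *
          lag r (4 * Real.pi * ((p.1 + 1 : ℕ) * (p.2 + 1 : ℕ)) * u.im) *
          ee ((p.1 + 1 : ℕ) * (p.2 + 1 : ℕ) * u))

/-- (B15) the Eisenstein series at `s = -r` as a sum of theta series -/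
def StEisTh : Prop :=
  ∀ (q : ℕ) (_ : NeZero q) (F : Type) (_ : Field F) (_ : NumberField F) (s : 𝓞 F)
    (σ : F →+* ℂ) (χ : DirichletCharacter ℂ q) (cj : 𝓞 F ≃+* 𝓞 F) (c : Reps σ),
    Dat q s σ χ cj → ∃ ε : ℂ, (ε = 1 ∨ ε = -1) ∧ ∀ (r : ℕ) (u : ℂ), 0 < u.im →
      eis q χ r (-r) u = ε * (Real.pi / Real.sqrt q) *
        ∑ B : ClassGroup (𝓞 F), thl σ (c.R B : Ideal (𝓞 F)) r u

end RZ

end Pool.Agent.Lib.MP_7c08ba_nt
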