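import Mathlib
import Pool.Agent.Lib.MP_7c08ba_nt.RZ.StA
import Pool.Agent.Lib.MP_7c08ba_nt.RZ.StB

set_option autoImplicit false

/-!
Statements of the analytic modules, part D: the Rankin–Selberg integral, the Euler product, the
value at the centre.
-/

namespace Pool.Agent.Lib.MP_7c08ba_nt

namespace RZ

open NumberField MeasureTheory UpperHalfPlane Set IsDedekindDomain
open scoped MatrixGroups ComplexConjugate nonZeroDivisors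

section

variable {F : Type} [Field F] [NumberField F]

/-- The sum of the values of the character over the ideals of norm `n`. -/
noncomputable def bψ (ψ : Ideal (𝓞 F) →*₀ ℂ) (n : ℕ) : ℂ :=
  ∑' b : {b : Ideal (𝓞 F) // Ideal.absNorm b = n}, ψ b.1

/-- The Dirichlet series of the product of coefficients. -/
noncomputable def Dn {w : ℕ} (f : CuspForm 𝒮ℒ (w : ℤ)) (ψ : Ideal (𝓞 F) →*₀ ℂ) (s : ℂ) : ℂ :=
  ∑' n : ℕ, coef f n * bψ ψ n * (n : ℂ) ^ (-s)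

/-- The trace of the Satake parameters of the base change at a place of `F`. -/
noncomputable def tv {w : ℕ} (f : CuspForm 𝒮ℒ (w : ℤ)) (v : HeightOneSpectrum (𝓞 F)) : ℂ :=
  if (Ideal.absNorm v.asIdeal).Prime then coef f (Ideal.absNorm v.asIdeal)
  else coef f (Ideal.absNorm v.asIdeal).minFac ^ 2 -
    2 * ((Ideal.absNorm v.asIdeal).minFac : ℂ) ^ (w - 1)

/-- The Euler factor (a polynomial of degree two in `N(v) ^ (-s)`). -/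
noncomputable def eulF {w : ℕ} (f : CuspForm 𝒮ℒ (w : ℤ)) (ψ : Ideal (𝓞 F) →*₀ ℂ) (s : ℂ)
    (v : HeightOneSpectrum (𝓞 F)) : ℂ :=
  1 - tv f v * ψ v.asIdeal * (Ideal.absNorm v.asIdeal : ℂ) ^ (-s) +
    (Ideal.absNorm v.asIdeal : ℂ) ^ (w - 1) * (ψ v.asIdeal) ^ 2 *
      ((Ideal.absNorm v.asIdeal : ℂ) ^ (-s)) ^ 2

/-- The terms of the sums over pairs of elements of two ideals. -/
noncomputable def PT (w r : ℕ) (σ : F →+* ℂ) (a b : Ideal (𝓞 F)) (x y : 𝓞 F) : ℂ :=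
  σ x ^ (w + 2 * r) * ((Qa σ a x : ℂ) ^ (w + r))⁻¹ * Jr w r (Qa σ b y / Qa σ a x)

/-- The sum over the pairs of elements of two ideals with difference of norms `m` or `q m`. -/
noncomputable def SS (q w r m : ℕ) (σ : F →+* ℂ) (a b : Ideal (𝓞 F)) : ℂ :=
  (∑' p : {p : a × b // Qa σ a p.1 - Qa σ b p.2 = m}, PT w r σ a b p.1.1 p.1.2) +
  ((Complex.I * Real.sqrt q) ^ (w + 2 * r))⁻¹ * (q : ℂ) ^ (w + r) *
    ∑' p : {p : a × b // Qa σ a p.1 - Qa σ b p.2 = q * m}, PT w r σ a b p.1.1 p.1.2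

/-- The sum over the matrices of determinant `m` in terms of bases of two ideals. -/
noncomputable def XX (w r m : ℕ) (c₁ c₂ d₁ d₂ : ℂ) : ℂ :=
  ∑' g : DetM m, ((conj (bil g.1 (conj c₁) (conj c₂) d₁ d₂)) ^ (w + r))⁻¹ *
        (bil g.1 (conj c₁) (conj c₂) d₁ d₂) ^ r *
        Jr w r (Complex.normSq (bil g.1 c₁ c₂ d₁ d₂) /
          Complex.normSq (bil g.1 (conj c₁) (conj c₂) d₁ d₂))

/-- The integral of the trace against an exponential. -/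
noncomputable def JJ (w m : ℕ) (h : ℂ → ℂ) : ℂ :=
  ∫ y in Ioi (0 : ℝ), (∫ x in (0 : ℝ)..1, h (x + y * Complex.I) *
    ee (-(m : ℂ) * (x - y * Complex.I))) * (y : ℂ) ^ (w - 2)

end

/-- (D0) the Hecke character: absolute values, conjugate ideals, even type -/
def StPsi : Prop :=
  ∀ (q : ℕ) (F : Type) (_ : Field F) (_ : NumberField F) (s : 𝓞 F) (σ : F →+* ℂ)
    (χ : DirichletCharacter ℂ q) (cj : 𝓞 F ≃+* 𝓞 F) (k : ℕ) (ψ : Ideal (𝓞 F) →*₀ ℂ),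
    Dat q s σ χ cj → IsHecke σ k ψ →
    Even k ∧ (∀ b : Ideal (𝓞 F), b ≠ ⊥ → ‖ψ b‖ ^ 2 = (Ideal.absNorm b : ℝ) ^ k) ∧
    (∀ b : Ideal (𝓞 F), b ≠ ⊥ →
      ψ b * ψ (b.map (cj : 𝓞 F →+* 𝓞 F)) = (Ideal.absNorm b : ℂ) ^ k)

/-- (D1) the theta series of the Hecke character as a Fourier series -/
def StThPsi : Prop :=
  ∀ (q : ℕ) (F : Type) (_ : Field F) (_ : NumberField F) (s : 𝓞 F) (σ : F →+* ℂ)
    (χ : DirichletCharacter ℂ q) (cj : 𝓞 F ≃+* 𝓞 F) (k : ℕ) (ψ : Ideal (𝓞 F) →*₀ ℂ)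
    (c : Reps σ), Dat q s σ χ cj → IsHecke σ k ψ → 1 ≤ k →
    bψ ψ 0 = 0 ∧
    (∀ n : ℕ, 1 ≤ n → ‖bψ ψ n‖ ≤ (n.divisors.card : ℝ) * (n : ℝ) ^ ((k : ℝ) / 2)) ∧
    ∀ u : ℂ, 0 < u.im → (Summable fun n : ℕ => ‖bψ ψ n * ee (n * u)‖) ∧
      thψ k ψ c u = ∑' n : ℕ, bψ ψ n * ee (n * u)

/-- (D2) continuity, transformation, holomorphy and size of the integrand -/
def StHH : Prop :=
  ∀ (q : ℕ) (_ : NeZero q) (F : Type) (_ : Field F) (_ : NumberField F) (s : 𝓞 F)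
    (σ : F →+* ℂ) (χ : DirichletCharacter ℂ q) (cj : 𝓞 F ≃+* 𝓞 F) (w r : ℕ)
    (ψ : Ideal (𝓞 F) →*₀ ℂ) (c : Reps σ), Dat q s σ χ cj → 1 ≤ w → Even w →
    (∀ t : ℂ, -(r : ℝ) - 1 / 2 < t.re → ContinuousOn (HH q χ w r ψ c t) {u | 0 < u.im} ∧
      ContinuousOn (tr q w (HH q χ w r ψ c t)) {u | 0 < u.im} ∧
      (∀ (g : SL(2, ℤ)) (z : ℂ), 0 < z.im → (q : ℤ) ∣ g 1 0 →
        HH q χ w r ψ c t (((g 0 0 : ℂ) * z + g 0 1) / ((g 1 0 : ℂ) * z + g 1 1)) =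
          ((g 1 0 : ℂ) * z + g 1 1) ^ w * HH q χ w r ψ c t z)) ∧
    (∀ z : ℂ, 0 < z.im → DifferentiableOn ℂ (fun t => tr q w (HH q χ w r ψ c t) z)
      {t | -(r : ℝ) - 1 / 2 < t.re}) ∧
    (∀ σ₀ R : ℝ, -(r : ℝ) - 1 / 2 < σ₀ → ∃ C δ : ℝ, 0 < δ ∧ ∀ t z : ℂ, σ₀ ≤ t.re → ‖t‖ ≤ R →
      1 / 2 ≤ z.im → |z.re| ≤ 1 / 2 →
        ‖tr q w (HH q χ w r ψ c t) z‖ ≤ C * Real.exp (-(δ * z.im)))

/-- (D3) the Rankin–Selberg integral is holomorphic -/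
def StRSan : Prop :=
  ∀ (q : ℕ) (_ : NeZero q) (F : Type) (_ : Field F) (_ : NumberField F) (s : 𝓞 F)
    (σ : F →+* ℂ) (χ : DirichletCharacter ℂ q) (cj : 𝓞 F ≃+* 𝓞 F) (w r : ℕ)
    (f : CuspForm 𝒮ℒ (w : ℤ)) (ψ : Ideal (𝓞 F) →*₀ ℂ) (c : Reps σ), Dat q s σ χ cj →
    1 ≤ w → Even w →
    DifferentiableOn ℂ (fun t => rsI q (HH q χ w r ψ c t) f) {t | -(r : ℝ) - 1 / 2 < t.re}

/-- (D4) the integrand as a sum over coprime pairs -/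
def StRSpt : Prop :=
  ∀ (q : ℕ) (_ : NeZero q) (F : Type) (_ : Field F) (_ : NumberField F) (s : 𝓞 F)
    (σ : F →+* ℂ) (χ : DirichletCharacter ℂ q) (cj : 𝓞 F ≃+* 𝓞 F) (w r : ℕ)
    (f : CuspForm 𝒮ℒ (w : ℤ)) (ψ : Ideal (𝓞 F) →*₀ ℂ) (c : Reps σ), Dat q s σ χ cj →
    1 ≤ w → Even w → ∀ t z : ℂ, 1 / 2 - (r : ℝ) < t.re → 0 < z.im →
    tr q w (HH q χ w r ψ c t) z * f (ofComplex (-conj z)) * (z.im : ℂ) ^ w =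
      1 / 2 * DirichletCharacter.LFunction χ (2 * r + 1 + 2 * t) *
        ∑' v : Cop, (fun u : ℂ => thψ (w + 2 * r) ψ c u * f (ofComplex (-conj u)) *
          (u.im : ℂ) ^ ((w : ℂ) + 2 * r + 1 + t)) (mob v.1 z)

/-- (D5) the Rankin–Selberg integral in the region of convergence -/
def StRS : Prop :=
  ∀ (q : ℕ) (_ : NeZero q) (F : Type) (_ : Field F) (_ : NumberField F) (s : 𝓞 F)
    (σ : F →+* ℂ) (χ : DirichletCharacter ℂ q) (cj : 𝓞 F ≃+* 𝓞 F) (w r : ℕ)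
    (f : CuspForm 𝒮ℒ (w : ℤ)) (ψ : Ideal (𝓞 F) →*₀ ℂ) (c : Reps σ), Dat q s σ χ cj →
    1 ≤ w → Even w → IsHecke σ (w + 2 * r) ψ →
    ∃ A : ℝ, ∀ t : ℂ, A < t.re →
      rsI q (HH q χ w r ψ c t) f = Complex.Gamma (w + 2 * r + t) *
        (4 * Real.pi : ℂ) ^ (-((w : ℂ) + 2 * r + t)) *
        DirichletCharacter.LFunction χ (2 * r + 1 + 2 * t) * Dn f ψ (w + 2 * r + t)

/-- (D6) the Dirichlet series is holomorphic for `Re z > 1` -/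
def StDn : Prop :=
  ∀ (q : ℕ) (F : Type) (_ : Field F) (_ : NumberField F) (s : 𝓞 F)
    (σ : F →+* ℂ) (χ : DirichletCharacter ℂ q) (cj : 𝓞 F ≃+* 𝓞 F) (w r : ℕ)
    (f : CuspForm 𝒮ℒ (w : ℤ)) (ψ : Ideal (𝓞 F) →*₀ ℂ), Dat q s σ χ cj → 1 ≤ w →
    IsHecke σ (w + 2 * r) ψ →
    (∀ z : ℂ, 1 < z.re →
      Summable fun n : ℕ => ‖coef f n * bψ ψ n * (n : ℂ) ^ (-((w : ℂ) + r + z))‖) ∧
    DifferentiableOn ℂ (fun z => Dn f ψ ((w : ℂ) + r + z)) {z | 1 < z.re}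

/-- (D7) the coefficients `bψ` are multiplicative, values at prime powers -/
def StBmul : Prop :=
  ∀ (q : ℕ) (F : Type) (_ : Field F) (_ : NumberField F) (s : 𝓞 F) (σ : F →+* ℂ)
    (χ : DirichletCharacter ℂ q) (cj : 𝓞 F ≃+* 𝓞 F) (k : ℕ) (ψ : Ideal (𝓞 F) →*₀ ℂ),
    Dat q s σ χ cj → IsHecke σ k ψ →
    bψ ψ 1 = 1 ∧ (∀ m n : ℕ, m.Coprime n → bψ ψ (m * n) = bψ ψ m * bψ ψ n) ∧
    (∀ p : ℕ, p.Prime → jacobiSym p q = 1 → ∀ P P' : Ideal (𝓞 F), P.IsPrime → P'.IsPrime →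
      P ≠ P' → P * P' = Ideal.span {(p : 𝓞 F)} → ∀ n : ℕ,
      bψ ψ (p ^ n) = ∑ i ∈ Finset.range (n + 1), ψ P ^ i * ψ P' ^ (n - i)) ∧
    (∀ p : ℕ, p.Prime → jacobiSym p q = -1 → ∀ n : ℕ, bψ ψ (p ^ (2 * n + 1)) = 0 ∧
      bψ ψ (p ^ (2 * n)) = ((p : ℂ) ^ k) ^ n) ∧
    (∀ n : ℕ, bψ ψ (q ^ n) = ψ (Ideal.span {s}) ^ n)

/-- (D8) generating functions at a prime -/
def StLocal : Prop :=
  ∀ (u : ℕ → ℂ) (a c : ℂ), u 0 = 1 → u 1 = a → (∀ n, u (n + 2) = a * u (n + 1) - c * u n) →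
    (∀ (γ δ X : ℂ), Summable (fun n : ℕ => ‖u n *
      (∑ i ∈ Finset.range (n + 1), γ ^ i * δ ^ (n - i)) * X ^ n‖) →
      (∑' n : ℕ, u n * (∑ i ∈ Finset.range (n + 1), γ ^ i * δ ^ (n - i)) * X ^ n) *
        ((1 - a * γ * X + c * γ ^ 2 * X ^ 2) * (1 - a * δ * X + c * δ ^ 2 * X ^ 2)) =
          1 - c * γ * δ * X ^ 2) ∧
    (∀ (γ X : ℂ), Summable (fun n : ℕ => ‖u (2 * n) * γ ^ n * X ^ (2 * n)‖) →
      (∑' n : ℕ, u (2 * n) * γ ^ n * X ^ (2 * n)) *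
        (1 - (a ^ 2 - 2 * c) * γ * X ^ 2 + c ^ 2 * γ ^ 2 * X ^ 4) = 1 + c * γ * X ^ 2) ∧
    (∀ (γ X : ℂ), Summable (fun n : ℕ => ‖u n * γ ^ n * X ^ n‖) →
      (∑' n : ℕ, u n * γ ^ n * X ^ n) * (1 - a * γ * X + c * γ ^ 2 * X ^ 2) = 1)

/-- (D9) the Euler product over the rational primes -/
def StEulQ : Prop :=
  ∀ (q : ℕ) (_ : NeZero q) (F : Type) (_ : Field F) (_ : NumberField F) (s : 𝓞 F)
    (σ : F →+* ℂ) (χ : DirichletCharacter ℂ q) (cj : 𝓞 F ≃+* 𝓞 F) (w r : ℕ)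
    (f : CuspForm 𝒮ℒ (w : ℤ)) (ψ : Ideal (𝓞 F) →*₀ ℂ), Dat q s σ χ cj → IsEigen f →
    IsHecke σ (w + 2 * r) ψ → ∀ z : ℂ, 1 < z.re →
    (∀ v : HeightOneSpectrum (𝓞 F), eulF f ψ ((w : ℂ) + r + z) v ≠ 0) ∧
    HasProd (fun p : Nat.Primes => ∏ᶠ v : {v : HeightOneSpectrum (𝓞 F) //
        (p : 𝓞 F) ∈ v.asIdeal}, (eulF f ψ ((w : ℂ) + r + z) v.1)⁻¹)
      (DirichletCharacter.LFunction χ (1 + 2 * z) * Dn f ψ ((w : ℂ) + r + z))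

/-- (D10) the Euler product over the places of `F` -/
def StEul : Prop :=
  ∀ (q : ℕ) (_ : NeZero q) (F : Type) (_ : Field F) (_ : NumberField F) (s : 𝓞 F)
    (σ : F →+* ℂ) (χ : DirichletCharacter ℂ q) (cj : 𝓞 F ≃+* 𝓞 F) (w r : ℕ)
    (f : CuspForm 𝒮ℒ (w : ℤ)) (ψ : Ideal (𝓞 F) →*₀ ℂ), Dat q s σ χ cj → IsEigen f →
    IsHecke σ (w + 2 * r) ψ → ∀ z : ℂ, 1 < z.re →
    HasProd (fun v : HeightOneSpectrum (𝓞 F) => (eulF f ψ ((w : ℂ) + r + z) v)⁻¹)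
      (DirichletCharacter.LFunction χ (1 + 2 * z) * Dn f ψ ((w : ℂ) + r + z))

/-- (D11) the value at `-r` in terms of the integrals `JJ` -/
def StRSat : Prop :=
  ∀ (q : ℕ) (_ : NeZero q) (F : Type) (_ : Field F) (_ : NumberField F) (s : 𝓞 F)
    (σ : F →+* ℂ) (χ : DirichletCharacter ℂ q) (cj : 𝓞 F ≃+* 𝓞 F) (w r : ℕ)
    (f : CuspForm 𝒮ℒ (w : ℤ)) (ψ : Ideal (𝓞 F) →*₀ ℂ) (c : Reps σ) (β : ℕ →₀ ℂ),
    Dat q s σ χ cj → 4 ≤ w → Even w → β 0 = 0 →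
    (∀ z : ℍ, f z = β.sum fun m b => b * poinc w m z) →
    rsI q (HH q χ w r ψ c (-r)) f =
      β.sum fun m b => b * JJ w m (tr q w (HH q χ w r ψ c (-r)))

/-- (D12) the integrals `JJ` as sums over pairs -/
def StJm : Prop :=
  ∀ (q : ℕ) (_ : NeZero q) (F : Type) (_ : Field F) (_ : NumberField F) (s : 𝓞 F)
    (σ : F →+* ℂ) (χ : DirichletCharacter ℂ q) (cj : 𝓞 F ≃+* 𝓞 F) (w r : ℕ)
    (ψ : Ideal (𝓞 F) →*₀ ℂ) (c : Reps σ),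
    Dat q s σ χ cj → 5 ≤ w → Even w → ∃ ε : ℂ, (ε = 1 ∨ ε = -1) ∧ ∀ m : ℕ, 1 ≤ m →
    JJ w m (tr q w (HH q χ w r ψ c (-r))) =
      1 / 2 * ε * (Real.pi / Real.sqrt q) * ((w + r - 1).factorial : ℂ) *
        ((4 * Real.pi : ℂ) ^ (w + r))⁻¹ *
        ∑ A : ClassGroup (𝓞 F), ∑ B : ClassGroup (𝓞 F), (ψ (c.R A : Ideal (𝓞 F)))⁻¹ *
          SS q w r m σ (c.R A : Ideal (𝓞 F)) (c.R B : Ideal (𝓞 F))

/-- (D13) the sums over pairs only depend on the classes -/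
def StSSinv : Prop :=
  ∀ (q : ℕ) (F : Type) (_ : Field F) (_ : NumberField F) (s : 𝓞 F)
    (σ : F →+* ℂ) (χ : DirichletCharacter ℂ q) (cj : 𝓞 F ≃+* 𝓞 F) (w r m : ℕ)
    (ψ : Ideal (𝓞 F) →*₀ ℂ) (a a' b b' : (Ideal (𝓞 F))⁰),
    Dat q s σ χ cj → IsHecke σ (w + 2 * r) ψ → ClassGroup.mk0 a = ClassGroup.mk0 a' →
    ClassGroup.mk0 b = ClassGroup.mk0 b' →
    (ψ (a : Ideal (𝓞 F)))⁻¹ * SS q w r m σ (a : Ideal (𝓞 F)) (b : Ideal (𝓞 F)) =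
      (ψ (a' : Ideal (𝓞 F)))⁻¹ * SS q w r m σ (a' : Ideal (𝓞 F)) (b' : Ideal (𝓞 F))

/-- (D14) pairs of elements and matrices -/
def StImg : Prop :=
  ∀ (q : ℕ) (F : Type) (_ : Field F) (_ : NumberField F) (s : 𝓞 F)
    (σ : F →+* ℂ) (χ : DirichletCharacter ℂ q) (cj : 𝓞 F ≃+* 𝓞 F)
    (c d : Ideal (𝓞 F)) (c₁ c₂ d₁ d₂ : 𝓞 F), Dat q s σ χ cj →
    OBasis σ c c₁ c₂ → OBasis σ d d₁ d₂ → c ≠ ⊥ → d ≠ ⊥ →
    IsCoprime c (Ideal.span {s}) → IsCoprime d (Ideal.span {s}) →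
    let al : Matrix (Fin 2) (Fin 2) ℤ → 𝓞 F := fun g =>
      ((g 0 0 : 𝓞 F) * d₁ + g 0 1 * d₂) * cj c₂ - ((g 1 0 : 𝓞 F) * d₁ + g 1 1 * d₂) * cj c₁
    let be : Matrix (Fin 2) (Fin 2) ℤ → 𝓞 F := fun g =>
      ((g 0 0 : 𝓞 F) * d₁ + g 0 1 * d₂) * c₂ - ((g 1 0 : 𝓞 F) * d₁ + g 1 1 * d₂) * c₁
    (∀ g, al g * cj (al g) - be g * cj (be g) =
      (q : 𝓞 F) * (g.det : 𝓞 F) * (Ideal.absNorm c : 𝓞 F) * (Ideal.absNorm d : 𝓞 F)) ∧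
    (∀ g g', al g = al g' → be g = be g' → g = g') ∧
    (∀ x y : 𝓞 F, (x ∈ d * c.map (cj : 𝓞 F →+* 𝓞 F) ∧ y ∈ d * c ∧ s ∣ x - y) ↔
      ∃ g, al g = x ∧ be g = y)

/-- (D15) the sums over pairs and the sums over matrices -/
def StGlue : Prop :=
  ∀ (q : ℕ) (F : Type) (_ : Field F) (_ : NumberField F) (s : 𝓞 F)
    (σ : F →+* ℂ) (χ : DirichletCharacter ℂ q) (cj : 𝓞 F ≃+* 𝓞 F) (w r m : ℕ)
    (c d : Ideal (𝓞 F)) (c₁ c₂ d₁ d₂ : 𝓞 F), Dat q s σ χ cj → 5 ≤ w → 1 ≤ m → Even w →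
    OBasis σ c c₁ c₂ → OBasis σ d d₁ d₂ → c ≠ ⊥ → d ≠ ⊥ →
    IsCoprime c (Ideal.span {s}) → IsCoprime d (Ideal.span {s}) →
    SS q w r m σ (d * c.map (cj : 𝓞 F →+* 𝓞 F)) (d * c) =
      2 * ((Complex.I * Real.sqrt q) ^ (w + 2 * r))⁻¹ *
        ((q : ℂ) * Ideal.absNorm c * Ideal.absNorm d) ^ (w + r) *
        XX w r m (σ c₁) (σ c₂) (σ d₁) (σ d₂)

/-- (D16) sums over pairs of classes -/
def StCls : Prop :=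
  ∀ (q : ℕ) (F : Type) (_ : Field F) (_ : NumberField F) (s : 𝓞 F)
    (σ : F →+* ℂ) (χ : DirichletCharacter ℂ q) (cj : 𝓞 F ≃+* 𝓞 F)
    (Φ : ClassGroup (𝓞 F) → ClassGroup (𝓞 F) → ℂ), Dat q s σ χ cj →
    (∀ (b : (Ideal (𝓞 F))⁰) (h : (b : Ideal (𝓞 F)).map (cj : 𝓞 F →+* 𝓞 F) ∈ (Ideal (𝓞 F))⁰),
      ClassGroup.mk0 ⟨_, h⟩ = (ClassGroup.mk0 b)⁻¹) ∧
    ∑ A : ClassGroup (𝓞 F), ∑ B : ClassGroup (𝓞 F), Φ A B =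
      ∑ C : ClassGroup (𝓞 F), ∑ D : ClassGroup (𝓞 F), Φ (D * C⁻¹) (D * C)

/-- (D17) the central value -/
def StCen : Prop :=
  ∀ (q : ℕ) (_ : NeZero q) (F : Type) (_ : Field F) (_ : NumberField F) (s : 𝓞 F)
    (σ : F →+* ℂ) (χ : DirichletCharacter ℂ q) (cj : 𝓞 F ≃+* 𝓞 F) (w r : ℕ)
    (f : CuspForm 𝒮ℒ (w : ℤ)) (ψ : Ideal (𝓞 F) →*₀ ℂ), Dat q s σ χ cj → IsEigen f →
    IsHecke σ (w + 2 * r) ψ → ∃ (c : Reps σ) (K : ℂ), K ≠ 0 ∧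
      rsI q (HH q χ w r ψ c (-r)) f = K * period f r ψ c ^ 2

/-- (D18) the analytic part: the `L`-function and its central value -/
def StMain : Prop :=
  ∀ (q : ℕ) (F : Type) (_ : Field F) (_ : NumberField F) (s : F)
    (σ : F →+* ℂ) (w r : ℕ) (f : CuspForm 𝒮ℒ (w : ℤ)) (ψ : Ideal (𝓞 F) →*₀ ℂ), q.Prime →
    q % 16 = 7 → Module.finrank ℚ F = 2 → s ^ 2 = -(q : F) → IsEigen f →
    IsHecke σ (w + 2 * r) ψ →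
    ∃ Λ : ℂ → ℂ, DifferentiableOn ℂ Λ {z | -1 / 2 < z.re} ∧
      (∀ z : ℂ, 1 < z.re → HasProd (fun v : HeightOneSpectrum (𝓞 F) =>
        (eulF f ψ ((w : ℂ) + r + z) v)⁻¹) (Λ z)) ∧
      ∀ c : Reps σ, ∃ K : ℂ, K ≠ 0 ∧ Λ 0 = K * period f r ψ c ^ 2

end RZ

end Pool.Agent.Lib.MP_7c08ba_nt
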