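import Mathlib
import Pool.Agent.Lib.MP_7c08ba_nt.HeckeDefs
import Pool.Agent.Lib.MP_7c08ba_nt.Odd.Defs
import Pool.Agent.Lib.MP_7c08ba_nt.RZ.DCris
import Pool.Agent.Lib.MP_7c08ba_nt.RZ.StD

set_option autoImplicit false

/-!
The `L`-function and the `2`-adic realisation of the base change of an eigenform of level one
twisted by an unramified Hecke character of an imaginary quadratic field.
-/

namespace Pool.Agent.Lib.MP_7c08ba_nt

namespace RZ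

open NumberField Matrix IsDedekindDomain BKGen BKOdd MP_7c08ba.Crys
open scoped MatrixGroups

section

variable {F : Type} [Field F] [NumberField F] {w : ℕ}

/-- The trace of the (geometric) Frobenius at `v` on `BC_F(f) ⊗ ψ`, twisted to weight `-1`. -/
noncomputable def frobTrace (f : CuspForm 𝒮ℒ (w : ℤ)) (ψ : Ideal (𝓞 F) →*₀ ℂ) (r : ℕ)
    (v : HeightOneSpectrum (𝓞 F)) : ℂ :=
  tv f v * ψ v.asIdeal / (Ideal.absNorm v.asIdeal : ℂ) ^ (w + r)

/-- The determinant of the (geometric) Frobenius at `v` on `BC_F(f) ⊗ ψ`, twisted to weight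
`-1`. -/
noncomputable def frobDet (w : ℕ) (ψ : Ideal (𝓞 F) →*₀ ℂ) (r : ℕ)
    (v : HeightOneSpectrum (𝓞 F)) : ℂ :=
  (Ideal.absNorm v.asIdeal : ℂ) ^ (w - 1) * ψ v.asIdeal ^ 2 /
    (Ideal.absNorm v.asIdeal : ℂ) ^ (2 * (w + r))

/-- `Λ` is the `L`-function of `BC_F(f) ⊗ ψ`, twisted to weight `-1`, in `Re z > -1/2`. -/
structure IsLFunction (f : CuspForm 𝒮ℒ (w : ℤ)) (ψ : Ideal (𝓞 F) →*₀ ℂ) (r : ℕ)
    (Λ : ℂ → ℂ) : Prop where
  differentiable : DifferentiableOn ℂ Λ {z | -1 / 2 < z.re}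
  euler : ∀ z : ℂ, 1 < z.re → HasProd (fun v : HeightOneSpectrum (𝓞 F) =>
    (1 - frobTrace f ψ r v * (Ideal.absNorm v.asIdeal : ℂ) ^ (-z) +
      frobDet w ψ r v * ((Ideal.absNorm v.asIdeal : ℂ) ^ (-z)) ^ 2)⁻¹) (Λ z)

variable {L : Type} [NormedField L] [NormedAlgebra ℚ_[2] L]

/-- The values of the character on ideals of odd norm are congruent to `1` modulo the maximal
ideal. -/
def ResidueOne (ψ : Ideal (𝓞 F) →*₀ ℂ) (ι : ℂ →+* L) : Prop :=
  ∀ a : Ideal (𝓞 F), Odd (Ideal.absNorm a) → ‖ι (ψ a) - 1‖ < 1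

/-- The representation `ρ` realises `BC_F(f) ⊗ ψ`, twisted to weight `-1`: it is unramified outside
`2`, a geometric Frobenius at a place `v` not above `2` has trace `frobTrace` and determinant
`frobDet`, and at the place above `2` given by `ι ∘ σ` no Hodge–Tate weight is positive and the
Frobenius `φ` of `D_cris` satisfies `φ² - frobTrace φ + frobDet = 0`. -/
structure IsTwoAdic (σ : F →+* ℂ) (f : CuspForm 𝒮ℒ (w : ℤ)) (ψ : Ideal (𝓞 F) →*₀ ℂ) (r : ℕ)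
    (ι : ℂ →+* L) (ρ : AbsGal F →* GL (Fin 2) L) : Prop where
  continuous : Continuous ρ
  unramified : ∀ (l : ℕ) [Fact l.Prime], l ≠ 2 → ∀ j : AlgebraicClosure F →+* PadicAlgCl l,
    ∀ g ∈ Inert F (AlgebraicClosure F) j, ρ g = 1
  frobenius : ∀ (v : HeightOneSpectrum (𝓞 F)) (P : Ideal (AllInt F)), P.IsPrime →
    (2 : AllInt F) ∉ P → P.under (𝓞 F) = v.asIdeal → ∀ g : AbsGal F, IsFrobenius P g →
    (ρ g⁻¹ : Matrix (Fin 2) (Fin 2) L).trace = ι (frobTrace f ψ r v) ∧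
    (ρ g⁻¹ : Matrix (Fin 2) (Fin 2) L).det = ι (frobDet w ψ r v)
  weights : ∀ j : AlgebraicClosure F →+* PadicAlgCl 2,
    (∀ x : F, ‖j (algebraMap F (AlgebraicClosure F) x)‖ = ‖ι (σ x)‖) → ∀ m : ℕ, 1 ≤ m →
    HTw (toQ j) (lin (ρ.comp (toF j))) m = ⊥
  crystalline : ∀ j : AlgebraicClosure F →+* PadicAlgCl 2,
    (∀ x : F, ‖j (algebraMap F (AlgebraicClosure F) x)‖ = ‖ι (σ x)‖) →
    ∀ v : HeightOneSpectrum (𝓞 F), (∀ x : 𝓞 F, x ∈ v.asIdeal ↔ ‖ι (σ x)‖ < 1) →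
    ∀ b ∈ DCris (toQ j) (lin (ρ.comp (toF j))),
      frobV 2 L (Fin 2 → L) (frobV 2 L (Fin 2 → L) b) -
        ι (frobTrace f ψ r v) • frobV 2 L (Fin 2 → L) b + ι (frobDet w ψ r v) • b = 0

end

end RZ

end Pool.Agent.Lib.MP_7c08ba_nt
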