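import Pool.Agent.Lib.MP_bf61d2_nt.PrimeSum

set_option autoImplicit false

/-!
Counting places of degree one: an extension of number fields of degree at least two in which
almost all places of degree one of the base split completely does not exist.
-/

namespace Pool.Agent.Lib.MP_7c08ba_nt

open NumberField IsDedekindDomain Filter Topology
open Pool.Agent.Lib.MP_bf61d2_nt

/-- Places of degree one which do not divide `N`. -/
def GoodPl {K : Type*} [Field K] [NumberField K] (N : ℕ) (v : HeightOneSpectrum (𝓞 K)) : Prop :=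
  nm v = pr v ∧ (N : 𝓞 K) ∉ v.asIdeal

lemma wp_bad {K : Type*} [Field K] [NumberField K] {N : ℕ} (hN : N ≠ 0) {σ : ℝ} (hσ : 1 ≤ σ)
    (v : HeightOneSpectrum (𝓞 K)) (hv : ¬ GoodPl N v) :
    wp σ v ≤ ((N : ℝ) + 1) * (1 / (pr v : ℝ) ^ 2) := by
  have hp0 : (0 : ℝ) < pr v := by exact_mod_cast (pr_prime v).pos
  have hN0 : (0 : ℝ) ≤ N := Nat.cast_nonneg N
  by_cases h1 : nm v = pr v
  · have h2 : (N : 𝓞 K) ∈ v.asIdeal := by
      by_contra h
      exact hv ⟨h1, h⟩
    have h3 : pr v ∣ N := by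
      have h4 : ((N : ℤ) : 𝓞 K) ∈ v.asIdeal := by
        rw [Int.cast_natCast]
        exact h2
      exact_mod_cast Int.cast_mem_ideal_iff.mp h4
    have h5 : (pr v : ℝ) ≤ N := by exact_mod_cast Nat.le_of_dvd (Nat.pos_of_ne_zero hN) h3
    refine (wp_le hσ v).trans ?_
    rw [mul_one_div, div_le_div_iff₀ hp0 (by positivity)]
    nlinarith
  · have h2 := sq_pr_le_nm v h1
    have h3 : (1 : ℝ) ≤ nm v := by exact_mod_cast (one_lt_nm v).le
    have h4 : ((pr v : ℝ)) ^ 2 ≤ nm v := by exact_mod_cast h2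
    calc wp σ v ≤ (nm v : ℝ) ^ (-1 : ℝ) := Real.rpow_le_rpow_of_exponent_le h3 (by linarith)
      _ = 1 / nm v := by rw [Real.rpow_neg_one, one_div]
      _ ≤ 1 / (pr v : ℝ) ^ 2 := one_div_le_one_div_of_le (by positivity) h4
      _ = 1 * (1 / (pr v : ℝ) ^ 2) := (one_mul _).symm
      _ ≤ _ := mul_le_mul_of_nonneg_right (by linarith) (by positivity)

/-- The counting argument. -/
theorem no_split {K K' : Type*} [Field K] [NumberField K] [Field K'] [NumberField K'] {l N : ℕ}
    (hl : 2 ≤ l) (hN : N ≠ 0)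
    (W : HeightOneSpectrum (𝓞 K) → Fin l → HeightOneSpectrum (𝓞 K'))
    (hW : ∀ v, GoodPl N v → ∀ i, nm (W v i) = nm v)
    (hinj : ∀ v v' i i', GoodPl N v → GoodPl N v' → W v i = W v' i' → v = v' ∧ i = i') :
    False := by
  classical
  have key : ∀ σ : ℝ, 1 < σ →
      PS K σ ≤ PS K' σ / l + ((N : ℝ) + 1) * sqC K := by
    intro σ hσ
    have hl0 : (0 : ℝ) < l := by exact_mod_cast (by omega : 0 < l)
    refine (summable_wp hσ).tsum_le_of_sum_le fun S => ?_
    have h1 : ∑ v ∈ S with GoodPl N v, wp σ v ≤ PS K' σ / l := by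
      rw [le_div_iff₀ hl0]
      set T := (S.filter fun v => GoodPl N v) ×ˢ (Finset.univ : Finset (Fin l)) with hT
      have h2 : (∑ v ∈ S with GoodPl N v, wp σ v) * l = ∑ x ∈ T, wp σ (W x.1 x.2) := by
        rw [hT, Finset.sum_product, Finset.sum_mul]
        refine Finset.sum_congr rfl fun v hv => ?_
        have hv' := (Finset.mem_filter.mp hv).2
        have h3 : ∀ i ∈ (Finset.univ : Finset (Fin l)), wp σ (W v i) = wp σ v := by
          intro i _
          unfold wp
          rw [hW v hv' i]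
        rw [Finset.sum_congr rfl h3, Finset.sum_const, Finset.card_univ, Fintype.card_fin,
          nsmul_eq_mul, mul_comm]
      have h4 : Set.InjOn (fun x : HeightOneSpectrum (𝓞 K) × Fin l => W x.1 x.2) (T : Set _) := by
        rintro ⟨v, i⟩ hx ⟨v', i'⟩ hy hxy
        have hv := (Finset.mem_filter.mp (Finset.mem_product.mp hx).1).2
        have hv' := (Finset.mem_filter.mp (Finset.mem_product.mp hy).1).2
        obtain ⟨h5, h6⟩ := hinj v v' i i' hv hv' hxy
        rw [h5, h6]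
      rw [h2, ← Finset.sum_image (f := fun w => wp σ w) h4]
      exact (summable_wp hσ).sum_le_tsum _ fun w _ => (wp_pos σ w).le
    have h2 : ∑ v ∈ S with ¬ GoodPl N v, wp σ v ≤ ((N : ℝ) + 1) * sqC K := by
      calc ∑ v ∈ S with ¬ GoodPl N v, wp σ v
          ≤ ∑ v ∈ S with ¬ GoodPl N v, ((N : ℝ) + 1) * (1 / (pr v : ℝ) ^ 2) :=
            Finset.sum_le_sum fun v hv => wp_bad hN hσ.le v (Finset.mem_filter.mp hv).2
        _ = ((N : ℝ) + 1) * ∑ v ∈ S with ¬ GoodPl N v, (1 / (pr v : ℝ) ^ 2) := by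
            rw [Finset.mul_sum]
        _ ≤ _ := by
            refine mul_le_mul_of_nonneg_left ?_ (by positivity)
            exact summable_pr_sq.sum_le_tsum _ fun v _ => by positivity
    rw [← Finset.sum_filter_add_sum_filter_not S (fun v => GoodPl N v)]
    exact add_le_add h1 h2
  obtain ⟨C₁, hC₁, h1⟩ := PS_bound K
  obtain ⟨C₂, hC₂, h2⟩ := PS_bound K'
  have hlog : Tendsto (fun σ : ℝ => Real.log (1 / (σ - 1))) (𝓝[>] 1) atTop := by
    have h3 : Tendsto (fun σ : ℝ => σ - 1) (𝓝[>] 1) (𝓝[>] 0) := by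
      refine tendsto_nhdsWithin_iff.mpr ⟨?_, ?_⟩
      · have : Tendsto (fun σ : ℝ => σ - 1) (𝓝 1) (𝓝 (1 - 1)) :=
          (continuous_id.sub continuous_const).tendsto 1
        rw [sub_self] at this
        exact this.mono_left nhdsWithin_le_nhds
      · filter_upwards [self_mem_nhdsWithin] with σ hσ
        have : (1 : ℝ) < σ := hσ
        exact sub_pos.mpr this
    have h4 : Tendsto (fun σ : ℝ => (σ - 1)⁻¹) (𝓝[>] 1) atTop := tendsto_inv_nhdsGT_zero.comp h3
    have h5 := Real.tendsto_log_atTop.comp h4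
    refine h5.congr fun σ => ?_
    rw [Function.comp_apply, one_div]
  have h3 := hlog.eventually (eventually_gt_atTop (2 * (C₁ + C₂ + ((N : ℝ) + 1) * |sqC K|)))
  obtain ⟨σ, h4, h5, h6, h7⟩ := (h1.and (h2.and (h3.and self_mem_nhdsWithin))).exists
  have hσ : 1 < σ := h7
  have h8 := key σ hσ
  have hl2 : (2 : ℝ) ≤ l := by exact_mod_cast hl
  have h9 := abs_le.mp h4
  have h10 := abs_le.mp h5
  set Λ := Real.log (1 / (σ - 1)) with hΛ
  have hΛ0 : 0 ≤ Λ := by
    have : 0 ≤ 2 * (C₁ + C₂ + ((N : ℝ) + 1) * |sqC K|) := by positivity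
    linarith
  have h11 : PS K' σ / l ≤ (Λ + C₂) / 2 := by
    calc PS K' σ / l ≤ (Λ + C₂) / l := by
          apply div_le_div_of_nonneg_right _ (by linarith)
          linarith [h10.2]
      _ ≤ (Λ + C₂) / 2 := div_le_div_of_nonneg_left (by linarith) (by norm_num) hl2
  have h12 : ((N : ℝ) + 1) * sqC K ≤ ((N : ℝ) + 1) * |sqC K| :=
    mul_le_mul_of_nonneg_left (le_abs_self _) (by positivity)
  linarith [h9.1]

end Pool.Agent.Lib.MP_7c08ba_nt
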