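import Mathlib
import Pool.Agent.Lib.MP_7c08ba_nt.Tw.Frob
import Pool.Agent.Lib.MP_7c08ba_nt.Tw.SplitPrime
import Pool.Agent.Lib.MP_7c08ba_nt.RZ.DCount
import Pool.Agent.Lib.MP_7c08ba_nt.HeckeDefs

set_option autoImplicit false

/-!
Frobenius elements in open subgroups of the absolute Galois group.
-/

namespace Pool.Agent.Lib.MP_7c08ba_nt

set_option linter.unusedSectionVars false

open NumberField Matrix IsDedekindDomain Polynomial
open Pool.Agent.Lib.MP_bf61d2_nt
open scoped Pointwise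

section

variable {F : Type} [Field F] [NumberField F]

lemma charP_res {P : Ideal (AllInt F)} (hP : P.IsPrime) {l : ℕ} (hl : l.Prime)
    (hlP : (l : AllInt F) ∈ P) : CharP (AllInt F ⧸ P) l := by
  have h0 : ((l : ℕ) : AllInt F ⧸ P) = 0 := by
    have h1 : ((l : ℕ) : AllInt F ⧸ P) = Ideal.Quotient.mk P (l : AllInt F) := by
      rw [map_natCast]
    rw [h1, Ideal.Quotient.eq_zero_iff_mem]
    exact hlP
  obtain ⟨p, hp⟩ := CharP.exists (AllInt F ⧸ P)
  have h2 : p ∣ l := (CharP.cast_eq_zero_iff (AllInt F ⧸ P) p l).mp h0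
  rcases (Nat.dvd_prime hl).mp h2 with h3 | h3
  · exfalso
    rw [h3] at hp
    have := CharP.nontrivial_of_char_ne_one (R := AllInt F ⧸ P) (v := l)
    have h4 : ((1 : ℕ) : AllInt F ⧸ P) = 0 := (CharP.cast_eq_zero_iff (AllInt F ⧸ P) 1 1).mpr
      (dvd_refl 1)
    rw [Nat.cast_one] at h4
    exact one_ne_zero h4
  · rwa [h3] at hp

/-- Elements fixed by the Frobenius map are integers. -/
lemma exists_int_of_pow {P : Ideal (AllInt F)} (hP : P.IsPrime) {l : ℕ} (hl : l.Prime)
    (hlP : (l : AllInt F) ∈ P) {x : AllInt F} (hx : x ^ l - x ∈ P) : ∃ a : ℤ, x - a ∈ P := by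
  classical
  have : Fact l.Prime := ⟨hl⟩
  have hchar := charP_res hP hl hlP
  let R := AllInt F ⧸ P
  let Q := FractionRing R
  have hinjQ : Function.Injective (algebraMap R Q) := IsFractionRing.injective R Q
  have hcharQ : CharP Q l := charP_of_injective_algebraMap hinjQ l
  let φ : ZMod l →+* Q := ZMod.castHom (dvd_refl l) Q
  have hφ : Function.Injective φ := φ.injective
  have hne : (X ^ l - X : Q[X]) ≠ 0 := FiniteField.X_pow_card_sub_X_ne_zero Q hl.one_lt
  have hsub : Finset.univ.image φ ⊆ (X ^ l - X : Q[X]).roots.toFinset := by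
    intro y hy
    obtain ⟨a, -, rfl⟩ := Finset.mem_image.mp hy
    rw [Multiset.mem_toFinset, mem_roots hne, IsRoot.def, eval_sub, eval_pow, eval_X, ← map_pow,
      ZMod.pow_card, sub_self]
  have hcard : (X ^ l - X : Q[X]).roots.toFinset.card ≤ (Finset.univ.image φ).card := by
    rw [Finset.card_image_of_injective _ hφ, Finset.card_univ, ZMod.card]
    refine (Multiset.toFinset_card_le _).trans ?_
    refine (card_roots' _).trans ?_
    rw [FiniteField.X_pow_card_sub_X_natDegree_eq Q hl.one_lt]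
  have heq := Finset.eq_of_subset_of_card_le hsub hcard
  have hmem : algebraMap R Q (Ideal.Quotient.mk P x) ∈ (X ^ l - X : Q[X]).roots.toFinset := by
    rw [Multiset.mem_toFinset, mem_roots hne, IsRoot.def, eval_sub, eval_pow, eval_X, ← map_pow,
      ← map_pow, ← map_sub, ← map_sub, Ideal.Quotient.eq_zero_iff_mem.mpr hx, map_zero]
  rw [← heq] at hmem
  obtain ⟨a, -, ha⟩ := Finset.mem_image.mp hmem
  refine ⟨(a.val : ℤ), ?_⟩
  rw [← Ideal.Quotient.eq]
  apply hinjQ
  rw [← ha, map_intCast, map_intCast]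
  have h1 : φ a = φ ((a.val : ℕ) : ZMod l) := by rw [ZMod.natCast_val, ZMod.cast_id', id]
  rw [h1, map_natCast, Int.cast_natCast]

/-- Existence of Frobenius elements in closed subgroups. -/
theorem exists_frob_in (H : Subgroup (AbsGal F)) (hH : IsClosed (H : Set (AbsGal F)))
    {P : Ideal (AllInt F)} (hP : P.IsPrime) {l : ℕ} (hl : l.Prime)
    (hlP : (l : AllInt F) ∈ P)
    (hres : ∀ x : AllInt F, (∀ h ∈ H, h • x = x) → ∃ a : ℤ, x - a ∈ P) :
    ∃ g ∈ H, ∀ x : AllInt F, g • x - x ^ l ∈ P := by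
  have : Fact l.Prime := ⟨hl⟩
  have hchar := charP_res hP hl hlP
  have : ExpChar (AllInt F ⧸ P) l := ExpChar.prime hl
  have hinj : Function.Injective (frobenius (AllInt F ⧸ P) l) := frobenius_inj _ _
  have hsurj : Function.Surjective (frobenius (AllInt F ⧸ P) l) := by
    intro b
    obtain ⟨b, rfl⟩ := Ideal.Quotient.mk_surjective b
    obtain ⟨c, hc⟩ := IsAlgClosed.exists_pow_nat_eq (b : AlgebraicClosure F) hl.pos
    have hci : IsIntegral ℤ c := by
      apply IsIntegral.of_pow hl.pos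
      rw [hc]
      exact b.2
    obtain ⟨C, hC⟩ : ∃ C : AllInt F, C ^ l = b := ⟨⟨c, hci⟩, RingOfIntegers.ext hc⟩
    refine ⟨Ideal.Quotient.mk P C, ?_⟩
    rw [frobenius_def, ← map_pow, hC]
  let e : (AllInt F ⧸ P) ≃+* (AllInt F ⧸ P) := RingEquiv.ofBijective _ ⟨hinj, hsurj⟩
  have he : ∀ x, e x = x ^ l := fun x => rfl
  obtain ⟨g, hgH, hg⟩ := exists_lift_equiv (F := F) (Ω := AlgebraicClosure F) H hH P e (by
    intro x hx
    obtain ⟨a, ha⟩ := hres x hx
    have h1 : Ideal.Quotient.mk P x = Ideal.Quotient.mk P (a : AllInt F) :=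
      Ideal.Quotient.eq.mpr ha
    rw [h1, he, ← map_pow, Ideal.Quotient.eq]
    exact int_pow_sub_mem hl hlP a)
  refine ⟨g, hgH, fun x => ?_⟩
  rw [← Ideal.Quotient.eq, hg x, he, ← map_pow]

/-- Frobenius elements at primes of degree one. -/
lemma isFrobenius_of_res {P : Ideal (AllInt F)} (hP : P.IsPrime) {l : ℕ} (hl : l.Prime)
    (hlP : (l : AllInt F) ∈ P)
    (hres : ∀ x : 𝓞 F, ∃ a : ℤ, algebraMap (𝓞 F) (AllInt F) x - a ∈ P) {g : AbsGal F}
    (hg : ∀ x : AllInt F, g • x - x ^ l ∈ P) : IsFrobenius P g := by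
  intro x
  rw [card_res hl hP hlP hres]
  exact hg x

/-- The fixed field of a subgroup. -/
noncomputable abbrev fixF (H : Subgroup (AbsGal F)) : IntermediateField F (AlgebraicClosure F) :=
  IntermediateField.fixedField H

lemma fixingSubgroup_fixF {H : Subgroup (AbsGal F)} (hH : IsClosed (H : Set (AbsGal F))) :
    (fixF H).fixingSubgroup = H :=
  InfiniteGalois.fixingSubgroup_fixedField ⟨H, hH⟩

lemma finiteDimensional_fixF {H : Subgroup (AbsGal F)} (hH : IsOpen (H : Set (AbsGal F))) :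
    FiniteDimensional F (fixF H) := by
  rw [← InfiniteGalois.isOpen_iff_finite]
  have h1 := fixingSubgroup_fixF (H.isClosed_of_isOpen hH)
  rw [h1]
  exact hH

lemma numberField_fixF {H : Subgroup (AbsGal F)} (hH : IsOpen (H : Set (AbsGal F))) :
    NumberField (fixF H) := by
  have := finiteDimensional_fixF hH
  exact NumberField.of_module_finite F (fixF H)

/-- Fixed integers come from the fixed field. -/
lemma exists_of_fixed {H : Subgroup (AbsGal F)} (z : AllInt F) (hz : ∀ h ∈ H, h • z = z) :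
    ∃ x : 𝓞 (fixF H), algebraMap (𝓞 (fixF H)) (AllInt F) x = z := by
  have h1 : (z : AlgebraicClosure F) ∈ fixF H := by
    rintro ⟨h, hh⟩
    have := congrArg (fun t : AllInt F => (t : AlgebraicClosure F)) (hz h hh)
    exact this
  have h2 : IsIntegral ℤ (⟨(z : AlgebraicClosure F), h1⟩ : fixF H) := by
    have h3 : IsIntegral ℤ (algebraMap (fixF H) (AlgebraicClosure F) ⟨z, h1⟩) := z.2
    exact (isIntegral_algebraMap_iff (algebraMap (fixF H) (AlgebraicClosure F)).injective).mp h3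
  exact ⟨⟨⟨z, h1⟩, h2⟩, RingOfIntegers.ext rfl⟩

/-- Integers of the fixed field are fixed. -/
lemma fixed_of_int {H : Subgroup (AbsGal F)} (x : 𝓞 (fixF H)) (h : AbsGal F) (hh : h ∈ H) :
    h • algebraMap (𝓞 (fixF H)) (AllInt F) x = algebraMap (𝓞 (fixF H)) (AllInt F) x := by
  apply RingOfIntegers.ext
  have h1 := (x : fixF H).2
  exact h1 ⟨h, hh⟩

/-- An element outside an open subgroup moves some invariant integer. -/
lemma exists_moved {H : Subgroup (AbsGal F)} (hH : IsOpen (H : Set (AbsGal F))) {g : AbsGal F}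
    (hg : g ∉ H) : ∃ z : AllInt F, (∀ h ∈ H, h • z = z) ∧ g • z ≠ z := by
  by_contra hcon
  push Not at hcon
  apply hg
  have := numberField_fixF hH
  rw [← fixingSubgroup_fixF (H.isClosed_of_isOpen hH), IntermediateField.mem_fixingSubgroup_iff]
  intro x hx
  obtain ⟨a, b, hb, hab⟩ := IsFractionRing.div_surjective (A := 𝓞 (fixF H)) (⟨x, hx⟩ : fixF H)
  have h1 : ∀ c : 𝓞 (fixF H), g ((c : fixF H) : AlgebraicClosure F) =
      ((c : fixF H) : AlgebraicClosure F) := by
    intro c
    have h2 := hcon (algebraMap (𝓞 (fixF H)) (AllInt F) c) (fun h hh => fixed_of_int c h hh)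
    exact congrArg (fun t : AllInt F => (t : AlgebraicClosure F)) h2
  have h2 : x = ((a : fixF H) : AlgebraicClosure F) / ((b : fixF H) : AlgebraicClosure F) := by
    have := congrArg (fun t : fixF H => (t : AlgebraicClosure F)) hab
    exact this.symm
  rw [h2, map_div₀, h1 a, h1 b]

/-- Primes of the ring of all algebraic integers above a place of the fixed field. -/
lemma exists_prime_above {H : Subgroup (AbsGal F)} [NumberField (fixF H)]
    (v : HeightOneSpectrum (𝓞 (fixF H))) :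
    ∃ P : Ideal (AllInt F), P.IsPrime ∧
      ∀ x : 𝓞 (fixF H), x ∈ v.asIdeal ↔ algebraMap (𝓞 (fixF H)) (AllInt F) x ∈ P := by
  have := v.isPrime
  have : Algebra.IsIntegral (𝓞 (fixF H)) (AllInt F) :=
    ⟨fun x => (RingOfIntegers.isIntegral x).tower_top⟩
  obtain ⟨Q, hQ1, hQ2⟩ := Ideal.exists_ideal_over_prime_of_isIntegral_of_isDomain
    (S := AllInt F) v.asIdeal (by
      rw [(RingHom.injective_iff_ker_eq_bot _).mp
        (FaithfulSMul.algebraMap_injective (𝓞 (fixF H)) (AllInt F))]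
      exact bot_le)
  exact ⟨Q, hQ1, fun x => by rw [← hQ2]; rfl⟩

/-- The residue field at a place of degree one. -/
lemma exists_int_of_nm {K : Type*} [Field K] [NumberField K] (v : HeightOneSpectrum (𝓞 K))
    (hv : nm v = pr v) (x : 𝓞 K) : ∃ a : ℤ, x - a ∈ v.asIdeal := by
  have hp := pr_prime v
  have : Fact (pr v).Prime := ⟨hp⟩
  have hcard : Nat.card (𝓞 K ⧸ v.asIdeal) = pr v := by
    rw [← hv]
    rfl
  have h1 : (1 : 𝓞 K ⧸ v.asIdeal) ≠ 0 := by
    have := Ideal.Quotient.nontrivial_iff.mpr v.isPrime.ne_top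
    exact one_ne_zero
  have h2 := mem_zmultiples_of_prime_card hcard h1 (g' := Ideal.Quotient.mk v.asIdeal x)
  obtain ⟨a, ha⟩ := AddSubgroup.mem_zmultiples_iff.mp h2
  refine ⟨a, ?_⟩
  rw [← Ideal.Quotient.eq, ← ha, zsmul_one, map_intCast]

end

end Pool.Agent.Lib.MP_7c08ba_nt
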