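import Mathlib
import Pool.Agent.Lib.MP_7c08ba_nt.Defs

set_option autoImplicit false

/-!
Compact groups of matrices over a non-archimedean field are integral in a suitable basis; their
reductions modulo the maximal ideal.
-/

namespace Pool.Agent.Lib.MP_7c08ba_nt

set_option linter.unusedSectionVars false

open Matrix Polynomial

section Ring

variable (L : Type*) [NormedField L] [IsUltrametricDist L]

/-- The valuation ring of a non-archimedean field. -/
def normRing : ValuationSubring L where
  carrier := {x | ‖x‖ ≤ 1}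
  mul_mem' {a b} ha hb := by
    rw [Set.mem_ofPred_eq] at ha hb ⊢
    rw [norm_mul]
    exact mul_le_one₀ ha (norm_nonneg b) hb
  one_mem' := by
    rw [Set.mem_ofPred_eq, norm_one]
  add_mem' {a b} ha hb := by
    rw [Set.mem_ofPred_eq] at ha hb ⊢
    exact (IsUltrametricDist.norm_add_le_max a b).trans (max_le ha hb)
  zero_mem' := by
    rw [Set.mem_ofPred_eq, norm_zero]
    exact zero_le_one
  neg_mem' {a} ha := by
    rw [Set.mem_ofPred_eq] at ha ⊢
    rwa [norm_neg]
  mem_or_inv_mem' x := by
    rw [Set.mem_ofPred_eq, Set.mem_ofPred_eq, norm_inv]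
    rcases le_total ‖x‖ 1 with h | h
    · exact Or.inl h
    · exact Or.inr (inv_le_one_of_one_le₀ h)

variable {L}

lemma mem_normRing {x : L} : x ∈ normRing L ↔ ‖x‖ ≤ 1 := Iff.rfl

lemma isUnit_normRing (a : normRing L) : IsUnit a ↔ ‖(a : L)‖ = 1 := by
  constructor
  · intro h
    obtain ⟨b, hb⟩ := h.exists_right_inv
    have h1 : (a : L) * b = 1 := congrArg (fun t : normRing L => (t : L)) hb
    have h2 : ‖(a : L)‖ * ‖(b : L)‖ = 1 := by rw [← norm_mul, h1, norm_one]
    have h3 : ‖(b : L)‖ ≤ 1 := b.2
    have h4 : ‖(a : L)‖ ≤ 1 := a.2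
    nlinarith [norm_nonneg (a : L), norm_nonneg (b : L)]
  · intro h
    have h0 : (a : L) ≠ 0 := by
      intro h1
      rw [h1, norm_zero] at h
      exact zero_ne_one h
    have h1 : (a : L)⁻¹ ∈ normRing L := by
      rw [mem_normRing, norm_inv, h, inv_one]
    exact IsUnit.of_mul_eq_one ⟨_, h1⟩ (Subtype.ext (mul_inv_cancel₀ h0))

lemma residue_eq_zero (a : normRing L) :
    IsLocalRing.residue (normRing L) a = 0 ↔ ‖(a : L)‖ < 1 := by
  rw [IsLocalRing.residue_eq_zero_iff, IsLocalRing.mem_maximalIdeal, mem_nonunits_iff,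
    isUnit_normRing]
  have h4 : ‖(a : L)‖ ≤ 1 := a.2
  exact ⟨fun h => lt_of_le_of_ne h4 h, fun h => h.ne⟩

lemma charP_residue (hL : ‖(2 : L)‖ < 1) : CharP (IsLocalRing.ResidueField (normRing L)) 2 := by
  have h1 : (2 : IsLocalRing.ResidueField (normRing L)) = 0 := by
    have h2 : IsLocalRing.residue (normRing L) 2 = 0 := by
      rw [residue_eq_zero]
      exact hL
    rwa [map_ofNat] at h2
  exact CharTwo.of_one_ne_zero_of_two_eq_zero one_ne_zero h1

end Ring

section Lattice

variable {G : Type*} [Group G] [TopologicalSpace G] [CompactSpace G]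
  {L : Type*} [NormedField L] [IsUltrametricDist L] {n : ℕ}

/-- A continuous representation of a compact group is integral in a suitable basis. -/
theorem exists_integral_basis (ρ : G →* Matrix.GeneralLinearGroup (Fin n) L)
    (hρ : Continuous ρ) : ∃ B : Matrix.GeneralLinearGroup (Fin n) L, ∀ g i j,
      ‖((B⁻¹ * ρ g * B : Matrix.GeneralLinearGroup (Fin n) L) : Matrix (Fin n) (Fin n) L) i j‖
        ≤ 1 := by
  classical
  let A : (Fin n → G × Fin n) → Matrix (Fin n) (Fin n) L :=
    fun x => Matrix.of fun i k => (ρ (x k).1 : Matrix (Fin n) (Fin n) L) i (x k).2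
  have hA : Continuous fun x : Fin n → G × Fin n => ‖(A x).det‖ := by
    refine Continuous.norm (Continuous.matrix_det ?_)
    refine continuous_matrix fun i k => ?_
    have h1 : Continuous fun y : G × Fin n =>
        (ρ y.1 : Matrix (Fin n) (Fin n) L) i y.2 := by
      rw [continuous_prod_of_discrete_right]
      intro j
      have h2 : Continuous fun g : G => (ρ g : Matrix (Fin n) (Fin n) L) :=
        Units.continuous_val.comp hρ
      exact h2.matrix_elem i j
    exact h1.comp (continuous_apply k)
  obtain ⟨x, -, hx⟩ := isCompact_univ.exists_isMaxOn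
    (⟨fun k => (1, k), Set.mem_univ _⟩ : (Set.univ : Set (Fin n → G × Fin n)).Nonempty)
    hA.continuousOn
  have hmax : ∀ y, ‖(A y).det‖ ≤ ‖(A x).det‖ := fun y => hx (Set.mem_univ y)
  have h1 : A (fun k => (1, k)) = 1 := by
    ext i k
    simp only [A, Matrix.of_apply, map_one, Units.val_one]
  have hdet : (A x).det ≠ 0 := by
    intro h
    have h2 := hmax (fun k => (1, k))
    rw [h1, h, Matrix.det_one, norm_one, norm_zero] at h2
    linarith
  have hdet' : 0 < ‖(A x).det‖ := norm_pos_iff.mpr hdet
  let B : Matrix.GeneralLinearGroup (Fin n) L := Matrix.GeneralLinearGroup.mkOfDetNeZero (A x) hdet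
  have hB : (B : Matrix (Fin n) (Fin n) L) = A x := rfl
  refine ⟨B, fun g i j => ?_⟩
  -- the `j`-th column of `ρ g * B`
  set y : Fin n → G × Fin n := Function.update x i (g * (x j).1, (x j).2) with hy
  have h2 : A y = (A x).updateCol i (fun a => ((ρ g : Matrix (Fin n) (Fin n) L) * A x) a j) := by
    ext a k
    rw [Matrix.updateCol_apply]
    simp only [A, Matrix.of_apply]
    split_ifs with h
    · subst h
      rw [hy, Function.update_self, Matrix.mul_apply, map_mul, Units.val_mul, Matrix.mul_apply]
      rfl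
    · rw [hy, Function.update_of_ne h]
  have h3 : ((B⁻¹ * ρ g * B : Matrix.GeneralLinearGroup (Fin n) L) :
      Matrix (Fin n) (Fin n) L) i j = ((A x).det)⁻¹ * (A y).det := by
    rw [mul_assoc, Units.val_mul, Units.val_mul, hB, Matrix.coe_units_inv, hB, Matrix.mul_apply,
      h2, ← Matrix.cramer_apply]
    rw [Matrix.cramer_eq_adjugate_mulVec, Matrix.inv_def, Ring.inverse_eq_inv', Matrix.mulVec,
      dotProduct, Finset.mul_sum]
    refine Finset.sum_congr rfl fun a _ => ?_
    rw [Matrix.smul_apply, smul_eq_mul, mul_assoc]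
  rw [h3, norm_mul, norm_inv, inv_mul_le_iff₀ hdet', mul_one]
  exact hmax y

end Lattice

section CharTwo

variable {k : Type*} [Field k] {n : ℕ}

/-- Matrices of order a power of two in characteristic two. -/
lemma charpoly_of_pow_eq_one [CharP k 2] (A : Matrix (Fin n) (Fin n) k) (m : ℕ)
    (hA : A ^ 2 ^ m = 1) : A.charpoly = (X - 1) ^ n := by
  have : Fact (Nat.Prime 2) := ⟨Nat.prime_two⟩
  have h1 : A.charpoly ^ 2 ^ m = ((X - 1) ^ n) ^ 2 ^ m := by
    have : CharP (Matrix (Fin n) (Fin n) k[X]) 2 ∨ n = 0 := by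
      rcases Nat.eq_zero_or_pos n with h | h
      · exact Or.inr h
      · left
        have : Nonempty (Fin n) := ⟨⟨0, h⟩⟩
        infer_instance
    rcases this with h | h
    · rw [Matrix.charpoly, ← Matrix.det_pow, Matrix.charmatrix,
        sub_pow_char_pow_of_commute _ _ (Matrix.scalar_commute _ (fun r' => Commute.all _ _) _),
        ← map_pow, ← map_pow, hA, map_one]
      have h2 : Matrix.scalar (Fin n) (X ^ 2 ^ m : k[X]) - 1 =
          Matrix.scalar (Fin n) (X ^ 2 ^ m - 1 : k[X]) := by
        rw [map_sub, map_one]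
      rw [h2, Matrix.scalar_apply, Matrix.det_diagonal, Finset.prod_const, Finset.card_univ,
        Fintype.card_fin, ← pow_mul, mul_comm n, pow_mul, sub_pow_char_pow, one_pow]
    · subst h
      rw [pow_zero, Matrix.charpoly, Matrix.det_isEmpty]
  exact iterateFrobenius_inj k[X] 2 m h1

/-- Matrices with characteristic polynomial `(X - 1) ^ n` in characteristic two. -/
lemma pow_eq_one_of_charpoly [CharP k 2] (A : Matrix (Fin n) (Fin n) k)
    (hA : A.charpoly = (X - 1) ^ n) : A ^ 2 ^ n = 1 := by
  have : Fact (Nat.Prime 2) := ⟨Nat.prime_two⟩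
  rcases Nat.eq_zero_or_pos n with h | h
  · subst h
    exact Subsingleton.elim _ _
  · have : Nonempty (Fin n) := ⟨⟨0, h⟩⟩
    have h1 : (A - 1) ^ n = 0 := by
      have h2 := Matrix.aeval_self_charpoly A
      rw [hA, map_pow, map_sub, aeval_X, map_one] at h2
      exact h2
    have h3 : (A - 1) ^ 2 ^ n = 0 := by
      have h4 : n ≤ 2 ^ n := Nat.lt_two_pow_self.le
      rw [← Nat.sub_add_cancel h4, pow_add, h1, mul_zero]
    rw [sub_pow_char_pow_of_commute _ _ (Commute.one_right A), one_pow] at h3
    exact sub_eq_zero.mp h3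

end CharTwo

section Reduction

variable {G : Type*} [Group G] [TopologicalSpace G] [CompactSpace G] [IsTopologicalGroup G]
  {L : Type*} [NormedField L] [IsUltrametricDist L] {n : ℕ}

/-- The subgroup of elements trivial modulo the maximal ideal in an invariant lattice. -/
theorem exists_reduction (hL : ‖(2 : L)‖ < 1) (ρ : G →* Matrix.GeneralLinearGroup (Fin n) L)
    (hρ : Continuous ρ) : ∃ V : Subgroup G, V.Normal ∧ IsOpen (V : Set G) ∧
      (∀ g, (∀ i, ‖((ρ g : Matrix (Fin n) (Fin n) L).charpoly - (X - 1) ^ n).coeff i‖ < 1) →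
        g ^ 2 ^ n ∈ V) ∧
      (∀ g (m : ℕ), g ^ 2 ^ m ∈ V →
        ∀ i, ‖((ρ g : Matrix (Fin n) (Fin n) L).charpoly - (X - 1) ^ n).coeff i‖ < 1) := by
  classical
  obtain ⟨B, hB⟩ := exists_integral_basis ρ hρ
  have := charP_residue (L := L) hL
  let A := normRing L
  let k := IsLocalRing.ResidueField A
  let σ : G →* Matrix.GeneralLinearGroup (Fin n) L :=
    { toFun := fun g => B⁻¹ * ρ g * B
      map_one' := by rw [map_one, mul_one, inv_mul_cancel]
      map_mul' := fun g h => by
        rw [map_mul]
        group }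
  let σA : G → Matrix (Fin n) (Fin n) A := fun g => Matrix.of fun i j =>
    ⟨(σ g : Matrix (Fin n) (Fin n) L) i j, hB g i j⟩
  have hσA : ∀ g, (σA g).map A.subtype = (σ g : Matrix (Fin n) (Fin n) L) := fun g => rfl
  have hinj : Function.Injective fun M : Matrix (Fin n) (Fin n) A => M.map A.subtype := by
    intro M N h
    ext i j
    exact congrFun (congrFun h i) j
  let φ : G →* Matrix (Fin n) (Fin n) k :=
    { toFun := fun g => (σA g).map (IsLocalRing.residue A)
      map_one' := by
        have h1 : σA 1 = 1 := by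
          apply hinj
          simp only [hσA, map_one, Units.val_one]
          rw [Matrix.map_one _ (map_zero _) (map_one _)]
        rw [h1, Matrix.map_one _ (map_zero _) (map_one _)]
      map_mul' := fun g h => by
        have h1 : σA (g * h) = σA g * σA h := by
          apply hinj
          simp only [hσA, map_mul, Units.val_mul, Matrix.map_mul]
        rw [h1, Matrix.map_mul] }
  have hφ : ∀ g, φ g = (σA g).map (IsLocalRing.residue A) := fun g => rfl
  have hchar : ∀ g, (∀ i, ‖((ρ g : Matrix (Fin n) (Fin n) L).charpoly -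
      (X - 1) ^ n).coeff i‖ < 1) ↔ (φ g).charpoly = (X - 1) ^ n := by
    intro g
    have h1 : (ρ g : Matrix (Fin n) (Fin n) L).charpoly = ((σA g).charpoly).map A.subtype := by
      rw [← Matrix.charpoly_map, hσA]
      have h2 : (σ g : Matrix (Fin n) (Fin n) L) =
          (B⁻¹ : Matrix.GeneralLinearGroup (Fin n) L).val * (ρ g).val * B.val := rfl
      rw [h2, Matrix.coe_units_inv, Matrix.charpoly_units_conj']
    have h2 : (φ g).charpoly = ((σA g).charpoly).map (IsLocalRing.residue A) := by
      rw [← Matrix.charpoly_map, hφ]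
    have h3 : (ρ g : Matrix (Fin n) (Fin n) L).charpoly - (X - 1) ^ n =
        ((σA g).charpoly - (X - 1) ^ n).map A.subtype := by
      rw [h1, Polynomial.map_sub, Polynomial.map_pow, Polynomial.map_sub, map_X,
        Polynomial.map_one]
    have h4 : (φ g).charpoly - (X - 1) ^ n =
        ((σA g).charpoly - (X - 1) ^ n).map (IsLocalRing.residue A) := by
      rw [h2, Polynomial.map_sub, Polynomial.map_pow, Polynomial.map_sub, map_X,
        Polynomial.map_one]
    rw [h3, ← sub_eq_zero (a := (φ g).charpoly), h4, Polynomial.ext_iff]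
    refine forall_congr' fun i => ?_
    rw [coeff_map, coeff_map, coeff_zero, residue_eq_zero]
    rfl
  refine ⟨φ.ker, inferInstance, ?_, ?_, ?_⟩
  · have h1 : (φ.ker : Set G) =
        {g | ∀ i j, ‖((σ g : Matrix (Fin n) (Fin n) L) - 1) i j‖ < 1} := by
      ext g
      rw [SetLike.mem_coe, MonoidHom.mem_ker, Set.mem_ofPred_eq]
      have h2 : φ g = 1 ↔ φ g - 1 = 0 := sub_eq_zero.symm
      rw [h2, ← Matrix.ext_iff]
      refine forall_congr' fun i => forall_congr' fun j => ?_
      have h3 : (φ g - 1) i j = IsLocalRing.residue A ((σA g - 1) i j) := by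
        rw [Matrix.sub_apply, Matrix.sub_apply, map_sub, hφ, Matrix.map_apply]
        congr 1
        rw [Matrix.one_apply, Matrix.one_apply]
        split_ifs
        · rw [map_one]
        · rw [map_zero]
      have h4 : (((σA g - 1) i j : A) : L) = ((σ g : Matrix (Fin n) (Fin n) L) - 1) i j := by
        rw [Matrix.sub_apply, Matrix.sub_apply, Matrix.one_apply, Matrix.one_apply]
        split_ifs
        · rfl
        · rfl
      rw [h3, Matrix.zero_apply, residue_eq_zero, h4]
    rw [h1]
    have h2 : Continuous fun g : G => (σ g : Matrix (Fin n) (Fin n) L) := by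
      have h3 : Continuous fun g : G => (ρ g : Matrix (Fin n) (Fin n) L) :=
        Units.continuous_val.comp hρ
      exact (continuous_const.mul h3).mul continuous_const
    have h3 : {g : G | ∀ i j, ‖((σ g : Matrix (Fin n) (Fin n) L) - 1) i j‖ < 1} =
        ⋂ i, ⋂ j, {g | ‖((σ g : Matrix (Fin n) (Fin n) L) - 1) i j‖ < 1} := by
      ext g
      simp only [Set.mem_iInter, Set.mem_ofPred_eq]
    rw [h3]
    refine isOpen_iInter_of_finite fun i => isOpen_iInter_of_finite fun j => ?_
    exact isOpen_lt (((h2.sub continuous_const).matrix_elem i j).norm) continuous_const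
  · intro g hg
    rw [MonoidHom.mem_ker, map_pow]
    exact pow_eq_one_of_charpoly _ ((hchar g).mp hg)
  · intro g m hg
    rw [MonoidHom.mem_ker, map_pow] at hg
    exact (hchar g).mpr (charpoly_of_pow_eq_one _ m hg)

end Reduction

end Pool.Agent.Lib.MP_7c08ba_nt
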