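import Mathlib
import Pool.Agent.Lib.MP_7c08ba_nt.RZ.DDens
import Pool.Agent.Lib.MP_7c08ba_nt.RZ.DLat
import Pool.Agent.Lib.MP_7c08ba_nt.Main

set_option autoImplicit false

/-!
Residual unipotence from Frobenius elements, and the vanishing of the Selmer group.
-/

namespace Pool.Agent.Lib.MP_7c08ba_nt

open NumberField Matrix Polynomial

/-- Residual unipotence can be checked on Frobenius elements. -/
theorem resUnipotent_of_frobenius {F : Type} [Field F] [NumberField F] {L : Type} [NormedField L]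
    [IsUltrametricDist L] (hL : ‖(2 : L)‖ < 1) {n : ℕ}
    {ρ : AbsGal F →* Matrix.GeneralLinearGroup (Fin n) L} (hρ : Continuous ρ) {N₀ : ℕ}
    (hN₀ : N₀ ≠ 0)
    (h : ∀ P : Ideal (AllInt F), P.IsPrime → (N₀ : AllInt F) ∉ P → ∀ g : AbsGal F,
      IsFrobenius P g → ∀ i : ℕ,
        ‖((ρ g : Matrix (Fin n) (Fin n) L).charpoly - (X - 1) ^ n).coeff i‖ < 1) :
    ResUnipotent ρ := by
  obtain ⟨V, hV1, hV2, hV3, hV4⟩ := exists_reduction hL ρ hρ
  intro g
  obtain ⟨k, hk⟩ := two_group_of_frobenius hN₀ V hV2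
    (fun P hP hN g hg => ⟨n, hV3 g (h P hP hN g hg)⟩) g
  exact hV4 g k hk

/-- Two-dimensional representations with traces and determinants of Frobenius elements trivial
modulo the maximal ideal. -/
theorem resUnipotent_of_trace_det {F : Type} [Field F] [NumberField F] {L : Type} [NormedField L]
    [IsUltrametricDist L] (hL : ‖(2 : L)‖ < 1)
    {ρ : AbsGal F →* Matrix.GeneralLinearGroup (Fin 2) L} (hρ : Continuous ρ) {N₀ : ℕ}
    (hN₀ : N₀ ≠ 0)
    (h : ∀ P : Ideal (AllInt F), P.IsPrime → (N₀ : AllInt F) ∉ P → ∀ g : AbsGal F,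
      IsFrobenius P g → ‖(ρ g : Matrix (Fin 2) (Fin 2) L).trace‖ < 1 ∧
        ‖(ρ g : Matrix (Fin 2) (Fin 2) L).det - 1‖ < 1) :
    ResUnipotent ρ := by
  refine resUnipotent_of_frobenius hL hρ hN₀ fun P hP hN g hg => ?_
  obtain ⟨h1, h2⟩ := h P hP hN g hg
  set A : Matrix (Fin 2) (Fin 2) L := (ρ g).val with hA
  have h3 : A.charpoly - (X - 1) ^ 2 = C (2 - A.trace) * X + C (A.det - 1) := by
    rw [Matrix.charpoly_fin_two]
    simp only [map_sub, map_ofNat, map_one]
    ring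
  intro i
  rw [h3, coeff_add, coeff_C_mul, coeff_C]
  rcases i with _ | i
  · rw [coeff_X_zero, mul_zero, zero_add, if_pos rfl]
    exact h2
  · rw [if_neg (Nat.succ_ne_zero i), add_zero, norm_mul]
    have h4 : ‖(2 : L) - A.trace‖ < 1 := by
      rw [sub_eq_add_neg]
      refine (IsUltrametricDist.norm_add_le_max _ _).trans_lt (max_lt hL ?_)
      rwa [norm_neg]
    rw [coeff_X]
    split_ifs
    · rw [norm_one, mul_one]
      exact h4
    · rw [norm_zero, mul_zero]
      exact one_pos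

/-- The Selmer group vanishes. -/
theorem selmerRank_eq_zero {q : ℕ} (hq : q.Prime) (h16 : q % 16 = 7) {F : Type} [Field F]
    [NumberField F] (hF : Module.finrank ℚ F = 2) {s : F} (hs : s ^ 2 = -(q : F))
    (j : F →+* ℚ_[2]) {L : Type} [NormedField L] [IsUltrametricDist L] (hL : ‖(2 : L)‖ < 1)
    {ρ : AbsGal F →* Matrix.GeneralLinearGroup (Fin 2) L} (hρ : Continuous ρ)
    (hin : ∀ P : Ideal (AllInt F), P.IsPrime → (2 : AllInt F) ∉ P → ∀ g ∈ inert F P, ρ g = 1)
    (h : ∀ P : Ideal (AllInt F), P.IsPrime → (2 : AllInt F) ∉ P → ∀ g : AbsGal F,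
      IsFrobenius P g → ‖(ρ g : Matrix (Fin 2) (Fin 2) L).trace‖ < 1 ∧
        ‖(ρ g : Matrix (Fin 2) (Fin 2) L).det - 1‖ < 1)
    {P₀ : Ideal (AllInt F)} (hP₀ : LiesAt j P₀) : selmerRank ρ P₀ = 0 := by
  have hres : ResUnipotent ρ := by
    refine resUnipotent_of_trace_det hL hρ (N₀ := 2) two_ne_zero fun P hP hN g hg => ?_
    refine h P hP ?_ g hg
    rwa [Nat.cast_ofNat] at hN
  have hT : RamifiedOver ρ ∅ :=
    ⟨fun Q hQ => absurd hQ (Finset.notMem_empty Q), fun P hP h2 => Or.inl (hin P hP h2)⟩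
  have h1 := selmerRank_le hq h16 hF hs j hL hρ hres hT hP₀
  rw [Finset.sum_empty, Nat.cast_zero] at h1
  exact le_antisymm h1 zero_le

end Pool.Agent.Lib.MP_7c08ba_nt
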