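import Mathlib
import Pool.Agent.Lib.MP_7c08ba_nt.RZ.DMain
import Pool.Agent.Lib.MP_7c08ba_nt.RZ.C.Final

set_option autoImplicit false

/-!
Representations realising the base change of an eigenform of level one twisted by a Hecke
character, and the vanishing of their Selmer groups.
-/

namespace Pool.Agent.Lib.MP_7c08ba_nt

namespace RZ

open NumberField Matrix IsDedekindDomain
open scoped MatrixGroups

/-- The trace of Frobenius of the base change of an eigenform of weight `w` at a place of norm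
`N = p` or `N = p ^ 2`. -/
noncomputable def bcTrace {w : ℕ} (f : CuspForm 𝒮ℒ (w : ℤ)) (N : ℕ) : ℂ :=
  if N.Prime then coef f N else coef f N.sqrt ^ 2 - 2 * (N.sqrt : ℂ) ^ (w - 1)

/-- The representation `ρ` realises the base change of `f` twisted by `ψ`: it is unramified at all
primes not above `2`, where an arithmetic Frobenius element over a place `v` has trace
`a_v ψ(v)` and determinant `N(v) ^ (w - 1) ψ(v) ^ 2`. -/
structure IsRealisation {F : Type} [Field F] [NumberField F] {w : ℕ} (f : CuspForm 𝒮ℒ (w : ℤ))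
    (ψ : Ideal (𝓞 F) →*₀ ℂ) {E : Subfield ℂ} {L : Type} [NormedField L] (ι : E →+* L)
    (ρ : AbsGal F →* Matrix.GeneralLinearGroup (Fin 2) L) : Prop where
  continuous : Continuous ρ
  unramified : ∀ P : Ideal (AllInt F), P.IsPrime → (2 : AllInt F) ∉ P → ∀ g ∈ inert F P, ρ g = 1
  frobenius : ∀ P : Ideal (AllInt F), P.IsPrime → (2 : AllInt F) ∉ P → ∀ g : AbsGal F,
    IsFrobenius P g → ∃ t d : E,
      (t : ℂ) = bcTrace f (Ideal.absNorm (P.under (𝓞 F))) * ψ (P.under (𝓞 F)) ∧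
      (d : ℂ) = (Ideal.absNorm (P.under (𝓞 F)) : ℂ) ^ (w - 1) * ψ (P.under (𝓞 F)) ^ 2 ∧
      (ρ g : Matrix (Fin 2) (Fin 2) L).trace = ι t ∧ (ρ g : Matrix (Fin 2) (Fin 2) L).det = ι d

/-- The values of the character on ideals of odd norm are congruent to `1` modulo the maximal
ideal. -/
def ResOne {F : Type} [Field F] [NumberField F] (ψ : Ideal (𝓞 F) →*₀ ℂ) {E : Subfield ℂ}
    {L : Type} [NormedField L] (ι : E →+* L) : Prop :=
  ∀ a : Ideal (𝓞 F), Odd (Ideal.absNorm a) → ∃ z : E, (z : ℂ) = ψ a ∧ ‖ι z - 1‖ < 1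

section

variable {E : Subfield ℂ} {L : Type} [NormedField L] [IsUltrametricDist L]

/-- Extension of a valuation to the complex numbers. -/
theorem exists_valuation (ι : E →+* L) : ∃ V : ValuationSubring ℂ,
    (∀ x : E, ‖ι x‖ ≤ 1 → (x : ℂ) ∈ V) ∧ ∀ x : E, (x : ℂ) ∈ V.nonunits ↔ ‖ι x‖ < 1 := by
  let A₀ : Subring E := (normRing L).toSubring.comap ι
  let A : Subring ℂ := A₀.map E.subtype
  have hA : ∀ z : ℂ, z ∈ A ↔ ∃ x : E, ‖ι x‖ ≤ 1 ∧ (x : ℂ) = z := fun z => Iff.rfl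
  let I : Ideal A :=
    { carrier := {z | ∃ x : E, ‖ι x‖ < 1 ∧ (x : ℂ) = (z : ℂ)}
      add_mem' := by
        rintro a b ⟨x, hx, hxa⟩ ⟨y, hy, hyb⟩
        refine ⟨x + y, ?_, ?_⟩
        · rw [map_add]
          exact (IsUltrametricDist.norm_add_le_max _ _).trans_lt (max_lt hx hy)
        · rw [Subfield.coe_add, hxa, hyb, Subring.coe_add]
      zero_mem' := ⟨0, by rw [map_zero, norm_zero]; exact one_pos, rfl⟩
      smul_mem' := by
        rintro ⟨c, hc⟩ a ⟨x, hx, hxa⟩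
        obtain ⟨y, hy, hyc⟩ := (hA c).mp hc
        refine ⟨y * x, ?_, ?_⟩
        · rw [map_mul, norm_mul]
          calc ‖ι y‖ * ‖ι x‖ ≤ 1 * ‖ι x‖ := mul_le_mul_of_nonneg_right hy (norm_nonneg _)
            _ < 1 := by rwa [one_mul]
        · rw [Subfield.coe_mul, hyc, hxa]
          rfl }
  have hI : I ≠ ⊤ := by
    intro h
    have h1 : (1 : A) ∈ I := h ▸ Submodule.mem_top
    obtain ⟨x, hx, hx1⟩ := h1
    have h2 : x = 1 := Subtype.ext hx1
    rw [h2, map_one, norm_one] at hx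
    exact lt_irrefl _ hx
  obtain ⟨V, hV1, hV2⟩ := Ideal.image_subset_nonunits_valuationSubring I hI
  have h1 : ∀ x : E, ‖ι x‖ ≤ 1 → (x : ℂ) ∈ V := fun x hx => hV1 ((hA _).mpr ⟨x, hx, rfl⟩)
  refine ⟨V, h1, fun x => ⟨fun hx => ?_, fun hx => ?_⟩⟩
  · by_contra hcon
    push Not at hcon
    have h2 : ‖ι x⁻¹‖ ≤ 1 := by
      rw [map_inv₀, norm_inv]
      exact inv_le_one_of_one_le₀ hcon
    have h3 := (V.valuation_le_one_iff _).mpr (h1 _ h2)
    rw [ValuationSubring.mem_nonunits_iff] at hx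
    have hx0 : (x : ℂ) ≠ 0 := by
      intro h4
      have h5 : x = 0 := Subtype.ext h4
      rw [h5, map_zero, norm_zero] at hcon
      linarith
    have h4 : V.valuation (x : ℂ) * V.valuation ((x⁻¹ : E) : ℂ) = 1 := by
      rw [← map_mul]
      have : (x : ℂ) * ((x⁻¹ : E) : ℂ) = 1 := by
        rw [Subfield.coe_inv, mul_inv_cancel₀ hx0]
      rw [this, map_one]
    have h5 : V.valuation (x : ℂ) * V.valuation ((x⁻¹ : E) : ℂ) < 1 :=
      mul_lt_one_of_lt_of_le hx h3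
    exact h5.ne h4
  · apply hV2
    exact ⟨⟨(x : ℂ), (hA _).mpr ⟨x, hx.le, rfl⟩⟩, ⟨x, hx, rfl⟩, rfl⟩

variable {F : Type} [Field F] [NumberField F]

omit [IsUltrametricDist L] in
/-- The residual hypothesis in terms of valuation rings of the complex numbers. -/
theorem resTriv_of_resOne (hL : ‖(2 : L)‖ < 1) {ψ : Ideal (𝓞 F) →*₀ ℂ} {ι : E →+* L}
    (hψ : ResOne ψ ι) {V : ValuationSubring ℂ}
    (hV : ∀ x : E, (x : ℂ) ∈ V.nonunits ↔ ‖ι x‖ < 1) : ResTriv V ψ := by
  constructor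
  · have h := (hV 2).mpr (by rw [map_ofNat]; exact hL)
    exact V.mem_nonunits_iff.mp h
  · intro a ha
    obtain ⟨z, hz, hz1⟩ := hψ a ha
    have h := (hV (z - 1)).mpr (by rw [map_sub, map_one]; exact hz1)
    rw [Subfield.coe_sub, hz] at h
    exact V.mem_nonunits_iff.mp h

end

section

variable {F : Type} [Field F] [NumberField F]

/-- The norm of a prime of a quadratic field. -/
lemma absNorm_cases (hF : Module.finrank ℚ F = 2) (v : HeightOneSpectrum (𝓞 F)) :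
    ∃ p : ℕ, p.Prime ∧ (p : 𝓞 F) ∈ v.asIdeal ∧
      (Ideal.absNorm v.asIdeal = p ∨ Ideal.absNorm v.asIdeal = p ^ 2) := by
  refine ⟨MP_bf61d2_nt.pr v, MP_bf61d2_nt.pr_prime v, MP_bf61d2_nt.pr_mem v, ?_⟩
  have hp := MP_bf61d2_nt.pr_prime v
  have h1 : Ideal.absNorm v.asIdeal ∣ MP_bf61d2_nt.pr v ^ 2 := by
    have h2 : Ideal.absNorm (Ideal.span {((MP_bf61d2_nt.pr v : ℕ) : 𝓞 F)}) =
        MP_bf61d2_nt.pr v ^ 2 := by
      rw [Ideal.absNorm_span_natCast, RingOfIntegers.rank, hF]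
    rw [← h2]
    apply Ideal.absNorm_dvd_absNorm_of_le
    rw [Ideal.span_singleton_le_iff_mem]
    exact MP_bf61d2_nt.pr_mem v
  obtain ⟨k, hk, h2⟩ := (Nat.dvd_prime_pow hp).mp h1
  have h3 := MP_bf61d2_nt.one_lt_nm v
  change 1 < Ideal.absNorm v.asIdeal at h3
  rcases (by omega : k = 0 ∨ k = 1 ∨ k = 2) with h | h | h
  · rw [h2, h, pow_zero] at h3
    exact absurd h3 (lt_irrefl _)
  · left
    rw [h2, h, pow_one]
  · right
    rw [h2, h]

/-- A Frobenius element exists only at a nonzero prime. -/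
lemma ne_bot_of_isFrobenius {P : Ideal (AllInt F)} {g : AbsGal F} (hg : IsFrobenius P g) :
    P.under (𝓞 F) ≠ ⊥ := by
  intro h
  have hcard : Nat.card (𝓞 F ⧸ P.under (𝓞 F)) = 0 := by
    rw [h]
    have h1 : Nat.card (𝓞 F ⧸ (⊥ : Ideal (𝓞 F))) = Ideal.absNorm (⊥ : Ideal (𝓞 F)) := rfl
    rw [h1, Ideal.absNorm_bot]
  have h1 := hg 0
  have h2 := hg 1
  rw [hcard, pow_zero, smul_zero, zero_sub] at h1
  have h3 : (1 : AllInt F) ∈ P := by simpa using P.neg_mem h1
  have h4 : P.under (𝓞 F) = ⊤ := by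
    rw [Ideal.eq_top_iff_one, Ideal.mem_comap, map_one]
    exact h3
  rw [h4] at h
  exact bot_ne_top h.symm

end

/-- The Selmer group of a realisation vanishes. -/
theorem selmerRank_eq_zero_of_realisation (hC : RZC.StOddZero) {q : ℕ} (hq : q.Prime)
    (h16 : q % 16 = 7) {F : Type} [Field F] [NumberField F] (hF : Module.finrank ℚ F = 2) {s : F}
    (hs : s ^ 2 = -(q : F)) (j : F →+* ℚ_[2]) {L : Type} [NormedField L] [IsUltrametricDist L]
    (hL : ‖(2 : L)‖ < 1) {w : ℕ} {f : CuspForm 𝒮ℒ (w : ℤ)} (hf : IsEigen f)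
    {ψ : Ideal (𝓞 F) →*₀ ℂ} {E : Subfield ℂ} {ι : E →+* L} (hψ : ResOne ψ ι)
    {ρ : AbsGal F →* Matrix.GeneralLinearGroup (Fin 2) L} (hρ : IsRealisation f ψ ι ρ)
    {P₀ : Ideal (AllInt F)} (hP₀ : LiesAt j P₀) : selmerRank ρ P₀ = 0 := by
  obtain ⟨V, hV1, hV2⟩ := exists_valuation ι
  have h2V : (2 : ℂ) ∈ V.nonunits := by
    have h := (hV2 2).mpr (by rw [map_ofNat]; exact hL)
    exact h
  have hmulV : ∀ x y : ℂ, x ∈ V.nonunits → y ∈ V → x * y ∈ V.nonunits := by
    intro x y hx hy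
    rw [ValuationSubring.mem_nonunits_iff] at hx ⊢
    rw [map_mul]
    exact mul_lt_one_of_lt_of_le hx ((V.valuation_le_one_iff _).mpr hy)
  have haddV : ∀ x y : ℂ, x ∈ V.nonunits → y ∈ V.nonunits → x + y ∈ V.nonunits := by
    intro x y hx hy
    rw [ValuationSubring.mem_nonunits_iff] at hx hy ⊢
    exact (V.valuation.map_add x y).trans_lt (max_lt hx hy)
  have hsubV : ∀ x y : ℂ, x ∈ V.nonunits → y ∈ V.nonunits → x - y ∈ V.nonunits := by
    intro x y hx hy
    rw [ValuationSubring.mem_nonunits_iff] at hx hy ⊢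
    exact (V.valuation.map_sub x y).trans_lt (max_lt hx hy)
  have hmemV : ∀ x : ℂ, x ∈ V.nonunits → x ∈ V := by
    intro x hx
    rw [ValuationSubring.mem_nonunits_iff] at hx
    exact (V.valuation_le_one_iff _).mp hx.le
  have hnat : ∀ n : ℕ, (n : ℂ) ∈ V := fun n => natCast_mem V n
  -- congruences modulo the maximal ideal
  have hone : ∀ x y : ℂ, x - 1 ∈ V.nonunits → y - 1 ∈ V.nonunits → x * y - 1 ∈ V.nonunits := by
    intro x y hx hy
    have hyV : y ∈ V := by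
      have := V.add_mem _ _ (hmemV _ hy) V.one_mem
      rwa [sub_add_cancel] at this
    have h1 : x * y - 1 = (x - 1) * y + (y - 1) := by ring
    rw [h1]
    exact haddV _ _ (hmulV _ _ hx hyV) hy
  have hpow : ∀ (x : ℂ) (n : ℕ), x - 1 ∈ V.nonunits → x ^ n - 1 ∈ V.nonunits := by
    intro x n hx
    induction n with
    | zero =>
      rw [pow_zero, sub_self, ValuationSubring.mem_nonunits_iff, map_zero]
      exact zero_lt_one
    | succ n ih =>
      rw [pow_succ]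
      exact hone _ _ ih hx
  have hodd : ∀ n : ℕ, Odd n → (n : ℂ) - 1 ∈ V.nonunits := by
    rintro n ⟨m, rfl⟩
    have h1 : ((2 * m + 1 : ℕ) : ℂ) - 1 = 2 * (m : ℂ) := by
      push_cast
      ring
    rw [h1]
    exact hmulV _ _ h2V (hnat m)
  refine selmerRank_eq_zero hq h16 hF hs j hL hρ.continuous hρ.unramified ?_ hP₀
  intro P hP h2P g hg
  obtain ⟨t, d, ht, hd, htr, hdet⟩ := hρ.frobenius P hP h2P g hg
  have hne := ne_bot_of_isFrobenius hg
  have hprime : (P.under (𝓞 F)).IsPrime := Ideal.IsPrime.under (𝓞 F) P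
  obtain ⟨p, hp, hpv, hcase⟩ := absNorm_cases hF ⟨P.under (𝓞 F), hprime, hne⟩
  simp only at hpv hcase
  have hpP : (p : AllInt F) ∈ P := by
    have h1 : algebraMap (𝓞 F) (AllInt F) (p : 𝓞 F) ∈ P := hpv
    rwa [map_natCast] at h1
  have hp2 : p ≠ 2 := by
    rintro rfl
    exact h2P (by exact_mod_cast hpP)
  have hpo : Odd p := hp.odd_of_ne_two hp2
  have hNodd : Odd (Ideal.absNorm (P.under (𝓞 F))) := by
    rcases hcase with h | h
    · rw [h]
      exact hpo
    · rw [h]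
      exact hpo.pow
  have hψV : ψ (P.under (𝓞 F)) - 1 ∈ V.nonunits := by
    obtain ⟨z, hz, hz1⟩ := hψ _ hNodd
    have h := (hV2 (z - 1)).mpr (by rw [map_sub, map_one]; exact hz1)
    rwa [Subfield.coe_sub, hz] at h
  have hψV' : ψ (P.under (𝓞 F)) ∈ V := by
    have := V.add_mem _ _ (hmemV _ hψV) V.one_mem
    rwa [sub_add_cancel] at this
  have hap : coef f p ∈ V.nonunits := hC V h2V w f (RZC.isEig_of hf) p hp hp2
  have hbc : bcTrace f (Ideal.absNorm (P.under (𝓞 F))) ∈ V.nonunits := by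
    unfold bcTrace
    rcases hcase with h | h
    · rw [h, if_pos hp]
      exact hap
    · have h1 : ¬ (p ^ 2).Prime := by
        rw [pow_two]
        exact Nat.not_prime_mul hp.ne_one hp.ne_one
      rw [h, if_neg h1, Nat.sqrt_eq']
      refine hsubV _ _ ?_ (hmulV _ _ h2V (V.pow_mem (hnat p) _))
      rw [pow_two]
      exact hmulV _ _ hap (hmemV _ hap)
  constructor
  · rw [htr, ← hV2, ht]
    exact hmulV _ _ hbc hψV'
  · have h1 : ι d - 1 = ι (d - 1) := by rw [map_sub, map_one]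
    rw [hdet, h1, ← hV2, Subfield.coe_sub, hd]
    exact hone _ _ (hpow _ _ (hodd _ hNodd)) (hpow _ _ hψV)

end RZ

end Pool.Agent.Lib.MP_7c08ba_nt
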