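import Mathlib
import Pool.Agent.Lib.MP_7c08ba_nt.Dyadic
import Pool.Agent.Lib.MP_7c08ba_nt.Quad
import Pool.Agent.Lib.MP_7c08ba_nt.RZ.DPlace
import Pool.Agent.Lib.MP_7c08ba_nt.RZ.DReal

set_option autoImplicit false

/-!
The place above `2` of `ℚ(√-q)` given by an embedding.
-/

namespace Pool.Agent.Lib.MP_7c08ba_nt

namespace RZ

open NumberField BKGen BKGen.Genus IsDedekindDomain

lemma exists_sqrt {q : ℕ} (h16 : q % 16 = 7) : ∃ u : ℚ_[2], u ^ 2 = -(q : ℚ_[2]) := by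
  obtain ⟨k, hk⟩ : ∃ k : ℕ, q + 1 = 8 * k := ⟨(q + 1) / 8, by omega⟩
  obtain ⟨z, hz⟩ := isSquare_one_add_eight (-(k : ℤ_[2]))
  refine ⟨(z : ℚ_[2]), ?_⟩
  have h1 : ((1 + 8 * (-(k : ℤ_[2])) : ℤ_[2]) : ℚ_[2]) = ((z * z : ℤ_[2]) : ℚ_[2]) := by rw [hz]
  have h8 : ((8 : ℤ_[2]) : ℚ_[2]) = 8 := rfl
  push_cast at h1
  rw [h8] at h1
  have h2 : (q : ℚ_[2]) + 1 = 8 * k := by exact_mod_cast hk
  linear_combination -h1 + h2

/-- The embedding into `ℚ₂`. -/
theorem exists_padic {q : ℕ} (h16 : q % 16 = 7) {F : Type} [Field F] [NumberField F]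
    (hF : Module.finrank ℚ F = 2) {s : F} (hs : s ^ 2 = -(q : F)) {L : Type} [NormedField L]
    [NormedAlgebra ℚ_[2] L] (τ : F →+* L) :
    ∃ j : F →+* ℚ_[2], ∀ x, algebraMap ℚ_[2] L (j x) = τ x := by
  have hq0 : 0 < q := by omega
  have hinj : Function.Injective (algebraMap ℚ_[2] L) := (algebraMap ℚ_[2] L).injective
  obtain ⟨u, hu⟩ := exists_sqrt h16
  have h1 : ∃ u' : ℚ_[2], algebraMap ℚ_[2] L u' = τ s := by
    have h2 : τ s ^ 2 = (algebraMap ℚ_[2] L u) ^ 2 := by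
      rw [← map_pow, hs, ← map_pow, hu, map_neg, map_neg, map_natCast, map_natCast]
    rcases sq_eq_sq_iff_eq_or_eq_neg.mp h2 with h3 | h3
    · exact ⟨u, h3.symm⟩
    · exact ⟨-u, by rw [map_neg, h3]⟩
  obtain ⟨u', hu'⟩ := h1
  have h2 : ∀ x : F, ∃ y : ℚ_[2], algebraMap ℚ_[2] L y = τ x := by
    intro x
    obtain ⟨a, b, rfl⟩ := exists_coords hq0 hF hs x
    refine ⟨(a : ℚ_[2]) + b * u', ?_⟩
    rw [map_add, map_mul, map_add, map_mul, hu', map_ratCast, map_ratCast, map_ratCast,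
      map_ratCast]
  choose g hg using h2
  exact ⟨{ toFun := g
           map_one' := hinj (by rw [hg, map_one, map_one])
           map_mul' := fun x y => hinj (by rw [hg, map_mul, map_mul, hg, hg])
           map_zero' := hinj (by rw [hg, map_zero, map_zero])
           map_add' := fun x y => hinj (by rw [hg, map_add, map_add, hg, hg]) }, hg⟩

/-- Extension of the embedding to the algebraic closure. -/
theorem exists_ext {F : Type} [Field F] (j : F →+* ℚ_[2]) :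
    ∃ j₀ : AlgebraicClosure F →+* PadicAlgCl 2,
      ∀ x : F, ‖j₀ (algebraMap F (AlgebraicClosure F) x)‖ = ‖j x‖ := by
  let : Algebra F (PadicAlgCl 2) := ((algebraMap ℚ_[2] (PadicAlgCl 2)).comp j).toAlgebra
  let φ : AlgebraicClosure F →ₐ[F] PadicAlgCl 2 := IsAlgClosed.lift
  refine ⟨φ.toRingHom, fun x => ?_⟩
  have h1 : φ.toRingHom (algebraMap F (AlgebraicClosure F) x) =
      algebraMap ℚ_[2] (PadicAlgCl 2) (j x) := φ.commutes x
  rw [h1]
  exact PadicAlgCl.norm_extends 2 (j x)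

section Place

variable {F : Type} [Field F] [NumberField F] (j : F →+* ℚ_[2])

omit [NumberField F] in
lemma norm_int_le_one (x : 𝓞 F) : ‖j x‖ ≤ 1 := by
  obtain ⟨j₀, hj₀⟩ := exists_ext j
  rw [← hj₀]
  exact norm_int_le j₀ (algebraMap (𝓞 F) (AllInt F) x)

lemma norm_le_half {x : ℚ_[2]} (hx : ‖x‖ < 1) : ‖x‖ ≤ 1 / 2 := by
  have h := (Padic.norm_le_pow_iff_norm_lt_pow_add_one x (-1)).mpr (by simpa using hx)
  norm_num at h
  norm_num
  exact h

variable {j} {v : HeightOneSpectrum (𝓞 F)}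

lemma norm_le_pow_of_mem (hv : ∀ x : 𝓞 F, x ∈ v.asIdeal → ‖j x‖ < 1) (n : ℕ) (x : 𝓞 F)
    (hx : x ∈ v.asIdeal ^ n) : ‖j x‖ ≤ (1 / 2) ^ n := by
  induction n generalizing x with
  | zero =>
    rw [pow_zero]
    exact norm_int_le_one j x
  | succ n ih =>
    rw [pow_succ] at hx
    refine Submodule.mul_induction_on hx ?_ ?_
    · intro a ha b hb
      have h1 : j ((a * b : 𝓞 F) : F) = j a * j b := by
        rw [← map_mul]
        rfl
      rw [h1, norm_mul, pow_succ]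
      exact mul_le_mul (ih a ha) (norm_le_half (hv b hb)) (norm_nonneg _) (by positivity)
    · intro a b ha hb
      have h1 : j ((a + b : 𝓞 F) : F) = j a + j b := by
        rw [← map_add]
        rfl
      rw [h1]
      exact (IsUltrametricDist.norm_add_le_max _ _).trans (max_le ha hb)

lemma absNorm_eq_two (hF : Module.finrank ℚ F = 2)
    (hv : ∀ x : 𝓞 F, x ∈ v.asIdeal ↔ ‖j x‖ < 1) : Ideal.absNorm v.asIdeal = 2 := by
  have h2 : (2 : 𝓞 F) ∈ v.asIdeal := by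
    rw [hv]
    have h3 : j ((2 : 𝓞 F) : F) = 2 := by
      have : ((2 : 𝓞 F) : F) = 2 := rfl
      rw [this, map_ofNat]
    rw [h3]
    have h4 : ‖((2 : ℕ) : ℚ_[2])‖ < 1 := Padic.norm_p_lt_one
    exact_mod_cast h4
  obtain ⟨p, hp, hpv, hcase⟩ := absNorm_cases hF v
  have hp2 : p = 2 := by
    by_contra hne
    have hcop : Nat.Coprime p 2 := (Nat.coprime_primes hp Nat.prime_two).mpr hne
    have h3 : IsCoprime (p : ℤ) ((2 : ℕ) : ℤ) := Nat.isCoprime_iff_coprime.mpr hcop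
    obtain ⟨a, b, hab⟩ := h3
    apply v.isPrime.ne_top
    rw [Ideal.eq_top_iff_one]
    have h4 : (1 : 𝓞 F) = (a : 𝓞 F) * (p : 𝓞 F) + (b : 𝓞 F) * 2 := by
      exact_mod_cast (congrArg (fun z : ℤ => (z : 𝓞 F)) hab).symm
    rw [h4]
    exact v.asIdeal.add_mem (v.asIdeal.mul_mem_left _ hpv) (v.asIdeal.mul_mem_left _ h2)
  subst hp2
  rcases hcase with h | h
  · exact h
  · exfalso
    have hsurj : Function.Surjective
        (fun n : Fin 2 => Ideal.Quotient.mk v.asIdeal ((n : ℕ) : 𝓞 F)) := by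
      intro y
      obtain ⟨x, rfl⟩ := Ideal.Quotient.mk_surjective y
      let z : ℤ_[2] := ⟨j x, norm_int_le_one j x⟩
      obtain ⟨n, hn, hmem⟩ := PadicInt.exists_mem_range (p := 2) z
      refine ⟨⟨n, hn⟩, ?_⟩
      rw [Eq.comm, Ideal.Quotient.eq, hv]
      have h6 : ‖z - (n : ℤ_[2])‖ < 1 := by
        have := (IsLocalRing.mem_maximalIdeal _).mp hmem
        exact PadicInt.mem_nonunits.mp this
      have h7 : j ((x - (n : ℕ) : 𝓞 F) : F) = j x - n := by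
        have e1 : ((n : 𝓞 F) : F) = n := map_natCast (algebraMap (𝓞 F) F) n
        have e2 : ((x - (n : ℕ) : 𝓞 F) : F) = (x : F) - ((n : 𝓞 F) : F) := rfl
        rw [e2, e1, map_sub, map_natCast]
      change ‖j ((x - (n : ℕ) : 𝓞 F) : F)‖ < 1
      rw [h7]
      exact h6
    have h5 := Nat.card_le_card_of_surjective _ hsurj
    have h6 : Nat.card (𝓞 F ⧸ v.asIdeal) = 2 ^ 2 := h
    rw [h6, Nat.card_eq_fintype_card, Fintype.card_fin] at h5
    omega

end Place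

/-- The place above `2`. -/
theorem exists_place {F : Type} [Field F] [NumberField F] (j : F →+* ℚ_[2]) :
    ∃ v : HeightOneSpectrum (𝓞 F), ∀ x : 𝓞 F, x ∈ v.asIdeal ↔ ‖j x‖ < 1 := by
  obtain ⟨j₀, hj₀⟩ := exists_ext j
  have h1 : ∀ x : 𝓞 F, x ∈ (primeOf j₀).under (𝓞 F) ↔ ‖j x‖ < 1 := by
    intro x
    rw [← hj₀]
    rfl
  refine ⟨⟨(primeOf j₀).under (𝓞 F), Ideal.IsPrime.under (𝓞 F) _, ?_⟩, h1⟩
  intro h
  have h2 : (2 : 𝓞 F) ∈ (primeOf j₀).under (𝓞 F) := by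
    rw [h1]
    have h3 : j ((2 : 𝓞 F) : F) = 2 := by
      have : ((2 : 𝓞 F) : F) = 2 := rfl
      rw [this, map_ofNat]
    rw [h3]
    have h4 : ‖((2 : ℕ) : ℚ_[2])‖ < 1 := Padic.norm_p_lt_one
    exact_mod_cast h4
  rw [h, Ideal.mem_bot] at h2
  exact two_ne_zero h2

end RZ

end Pool.Agent.Lib.MP_7c08ba_nt
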