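import Mathlib
import Pool.Agent.Lib.MP_7c08ba_nt.Odd.Gal
import Pool.Agent.Lib.MP_7c08ba_nt.Odd.Adm
import Pool.Agent.Lib.MP_7c08ba_nt.Odd.Place
import Pool.Agent.Lib.MP_7c08ba_nt.Gen.Main
import Pool.Agent.Lib.MP_7c08ba_nt.RZ.DCris

set_option autoImplicit false

/-!
Vanishing of the Bloch–Kato Selmer group for odd `p`: `F(ζ_p)` rigid at the place `ι₀` and no
positive Hodge–Tate weight at `ι₀`.
-/

namespace Pool.Agent.Lib.MP_7c08ba_nt

namespace RZ

open NumberField BKGen BKOdd MP_7c08ba.Crys TensorProduct Matrix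

section

variable {p : ℕ} [Fact p.Prime] {F : Type} [Field F] [NumberField F] {L : Type} [NormedField L]
  [NormedAlgebra ℚ_[p] L] {n : ℕ}

/-- A `p`-adic field is ultrametric. -/
lemma ultra_p (p : ℕ) [Fact p.Prime] (L : Type) [NormedField L] [NormedAlgebra ℚ_[p] L] :
    IsUltrametricDist L := by
  apply IsUltrametricDist.isUltrametricDist_of_forall_norm_natCast_le_one
  intro n
  have h : (n : L) = algebraMap ℚ_[p] L n := (map_natCast _ n).symm
  rw [h, norm_algebraMap']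
  exact_mod_cast Padic.norm_int_le_one (p := p) n

lemma norm_p_eq (p : ℕ) [Fact p.Prime] (L : Type) [NormedField L] [NormedAlgebra ℚ_[p] L] :
    ‖(p : L)‖ = (p : ℝ)⁻¹ := by
  have h : (p : L) = algebraMap ℚ_[p] L p := (map_natCast _ p).symm
  rw [h, norm_algebraMap', Padic.norm_p]

lemma norm_p_lt (p : ℕ) [hp : Fact p.Prime] (L : Type) [NormedField L] [NormedAlgebra ℚ_[p] L] :
    ‖(p : L)‖ < 1 := by
  rw [norm_p_eq]
  exact inv_lt_one_of_one_lt₀ (by exact_mod_cast hp.out.one_lt)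

/-- The group `H¹_f` vanishes. -/
theorem h1f_eq_bot_of_oddHyp {ζ : AlgebraicClosure F} {ι₀ : AlgebraicClosure F →+* PadicAlgCl p}
    (hO : OddHyp p F ζ ι₀) {ρ : AbsGal F →* GL (Fin n) L} (hρ : Continuous ρ)
    (hunr : ∀ (l : ℕ) [Fact l.Prime], l ≠ p → ∀ j : AlgebraicClosure F →+* PadicAlgCl l,
      ∀ g ∈ Inert F (AlgebraicClosure F) j, ρ g = 1)
    (hres : ∀ g ∈ (Kz ζ).fixingSubgroup, ∀ i : ℕ,
      ‖((ρ g : Matrix (Fin n) (Fin n) L).charpoly - (Polynomial.X - 1) ^ n).coeff i‖ < 1)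
    (hHT : ∀ m : ℕ, 1 ≤ m → HTw (toQ ι₀) (lin (ρ.comp (toF ι₀))) m = ⊥) {t d : L}
    (h1 : 1 - t + d ≠ 0)
    (hφ : ∀ b ∈ DCris (toQ ι₀) (lin (ρ.comp (toF ι₀))),
      frobV p L (Fin n → L) (frobV p L (Fin n → L) b) - t • frobV p L (Fin n → L) b +
        d • b = 0) : H1f p ρ = ⊥ := by
  have hul := ultra_p p L
  have hpL := norm_p_lt p L
  obtain ⟨hfd, hgal, hdeg, -⟩ := stGal p F ζ ι₀ hO
  have hζ : (primitiveRoots p (Kz ζ)).Nonempty := by
    refine ⟨⟨ζ, IntermediateField.mem_adjoin_simple_self F ζ⟩, ?_⟩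
    rw [mem_primitiveRoots (Fact.out : p.Prime).pos]
    refine IsPrimitiveRoot.of_map_of_injective (f := algebraMap (Kz ζ) (AlgebraicClosure F)) ?_
      (algebraMap (Kz ζ) (AlgebraicClosure F)).injective
    exact hO.hζ
  have hZ : Z1f p ρ ≤ B1 ρ := by
    rintro x ⟨hx, hun, hcr⟩
    let ρ' : AbsGal F →* Matrix (Fin n) (Fin n) L := (Units.coeHom _).comp ρ
    have hdec : ∃ v, ∀ σ ∈ Dec F (AlgebraicClosure F) ι₀, x σ = ρ' σ *ᵥ v - v := by
      have h2 := zcris_le _ _ hHT (phSub_range _ _ h1 hφ) ((isTriv_iff ι₀ ρ x).mp (hcr ι₀))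
      rw [mem_cobound] at h2
      obtain ⟨v, hv⟩ := h2
      refine ⟨v, fun g hg => ?_⟩
      obtain ⟨τ, hτ⟩ := BKGlob.exists_cpt ι₀ hg
      exact hv ⟨(g, τ), hτ⟩
    obtain ⟨v, hv⟩ := coboundary_of_local (p := p) hpL (Kz ζ) hdeg hζ ι₀ hO.hrig ρ'
      (Units.continuous_val.comp hρ)
      (fun τ i => hres (τ.restrictScalars F) (by
        rw [IntermediateField.mem_fixingSubgroup_iff]
        intro y hy
        exact τ.commutes ⟨y, hy⟩) i)
      (fun l _ hl j τ hτ => by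
        have h2 : ρ (τ.restrictScalars F) = 1 := hunr l hl j (τ.restrictScalars F) hτ
        change ((ρ (τ.restrictScalars F) : GL (Fin n) L) : Matrix (Fin n) (Fin n) L) = 1
        rw [h2, Units.val_one])
      x hx.1 (fun g h => hx.2 g h) (fun l _ hl j => hun l hl j) hdec
    exact ⟨v, funext fun g => (hv g).symm⟩
  rw [eq_bot_iff]
  intro ξ hξ
  obtain ⟨x, hx, hxS, rfl⟩ := mem_cls.mp hξ
  rw [Submodule.mem_bot, Submodule.mkQ_apply, Submodule.Quotient.mk_eq_zero]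
  exact hZ hxS

end

end RZ

end Pool.Agent.Lib.MP_7c08ba_nt
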