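import Mathlib
import Pool.Agent.Lib.MP_7c08ba_nt.RZ.DPl
import Pool.Agent.Lib.MP_7c08ba_nt.RZ.EMain
import Pool.Agent.Lib.MP_7c08ba_nt.RZ.DDefs

set_option autoImplicit false

/-!
The place above a split prime `p` of an imaginary quadratic field given by an embedding.
-/

namespace Pool.Agent.Lib.MP_7c08ba_nt

namespace RZ

open NumberField BKGen BKGen.Genus IsDedekindDomain
open scoped MatrixGroups

variable {p : ℕ} [hp : Fact p.Prime]

/-- The embedding into `ℚ_p`. -/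
theorem exists_padic_p {D : ℕ} (hD : 0 < D) (hu : ∃ u : ℚ_[p], u ^ 2 = -(D : ℚ_[p])) {F : Type}
    [Field F] [NumberField F] (hF : Module.finrank ℚ F = 2) {s : F} (hs : s ^ 2 = -(D : F))
    {L : Type} [NormedField L] [NormedAlgebra ℚ_[p] L] (τ : F →+* L) :
    ∃ j : F →+* ℚ_[p], ∀ x, algebraMap ℚ_[p] L (j x) = τ x := by
  have hinj : Function.Injective (algebraMap ℚ_[p] L) := (algebraMap ℚ_[p] L).injective
  obtain ⟨u, hu⟩ := hu
  have h1 : ∃ u' : ℚ_[p], algebraMap ℚ_[p] L u' = τ s := by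
    have h2 : τ s ^ 2 = (algebraMap ℚ_[p] L u) ^ 2 := by
      rw [← map_pow, hs, ← map_pow, hu, map_neg, map_neg, map_natCast, map_natCast]
    rcases sq_eq_sq_iff_eq_or_eq_neg.mp h2 with h3 | h3
    · exact ⟨u, h3.symm⟩
    · exact ⟨-u, by rw [map_neg, h3]⟩
  obtain ⟨u', hu'⟩ := h1
  have h2 : ∀ x : F, ∃ y : ℚ_[p], algebraMap ℚ_[p] L y = τ x := by
    intro x
    obtain ⟨a, b, rfl⟩ := exists_coords hD hF hs x
    refine ⟨(a : ℚ_[p]) + b * u', ?_⟩
    rw [map_add, map_mul, map_add, map_mul, hu', map_ratCast, map_ratCast, map_ratCast,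
      map_ratCast]
  choose g hg using h2
  exact ⟨{ toFun := g
           map_one' := hinj (by rw [hg, map_one, map_one])
           map_mul' := fun x y => hinj (by rw [hg, map_mul, map_mul, hg, hg])
           map_zero' := hinj (by rw [hg, map_zero, map_zero])
           map_add' := fun x y => hinj (by rw [hg, map_add, map_add, hg, hg]) }, hg⟩

/-- Extension of the embedding to the algebraic closure. -/
theorem exists_ext_p {F : Type} [Field F] (j : F →+* ℚ_[p]) :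
    ∃ j₀ : AlgebraicClosure F →+* PadicAlgCl p,
      ∀ x : F, ‖j₀ (algebraMap F (AlgebraicClosure F) x)‖ = ‖j x‖ := by
  let : Algebra F (PadicAlgCl p) := ((algebraMap ℚ_[p] (PadicAlgCl p)).comp j).toAlgebra
  let φ : AlgebraicClosure F →ₐ[F] PadicAlgCl p := IsAlgClosed.lift
  refine ⟨φ.toRingHom, fun x => ?_⟩
  have h1 : φ.toRingHom (algebraMap F (AlgebraicClosure F) x) =
      algebraMap ℚ_[p] (PadicAlgCl p) (j x) := φ.commutes x
  rw [h1]
  exact PadicAlgCl.norm_extends p (j x)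

section Place

variable {F : Type} [Field F] [NumberField F] (j : F →+* ℚ_[p])

omit [NumberField F] in
lemma norm_int_le_one_p (x : 𝓞 F) : ‖j x‖ ≤ 1 := by
  obtain ⟨j₀, hj₀⟩ := exists_ext_p j
  rw [← hj₀]
  exact norm_int_le j₀ (algebraMap (𝓞 F) (AllInt F) x)

lemma norm_le_inv_p {x : ℚ_[p]} (hx : ‖x‖ < 1) : ‖x‖ ≤ (p : ℝ)⁻¹ := by
  have h := (Padic.norm_le_pow_iff_norm_lt_pow_add_one x (-1)).mpr (by simpa using hx)
  rwa [zpow_neg_one] at h

variable {j} {v : HeightOneSpectrum (𝓞 F)}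

lemma norm_le_pow_of_mem_p (hv : ∀ x : 𝓞 F, x ∈ v.asIdeal → ‖j x‖ < 1) (n : ℕ) (x : 𝓞 F)
    (hx : x ∈ v.asIdeal ^ n) : ‖j x‖ ≤ ((p : ℝ)⁻¹) ^ n := by
  induction n generalizing x with
  | zero =>
    rw [pow_zero]
    exact norm_int_le_one_p j x
  | succ n ih =>
    rw [pow_succ] at hx
    refine Submodule.mul_induction_on hx ?_ ?_
    · intro a ha b hb
      have h1 : j ((a * b : 𝓞 F) : F) = j a * j b := by
        rw [← map_mul]
        rfl
      rw [h1, norm_mul, pow_succ]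
      exact mul_le_mul (ih a ha) (norm_le_inv_p (hv b hb)) (norm_nonneg _) (by positivity)
    · intro a b ha hb
      have h1 : j ((a + b : 𝓞 F) : F) = j a + j b := by
        rw [← map_add]
        rfl
      rw [h1]
      exact (IsUltrametricDist.norm_add_le_max _ _).trans (max_le ha hb)

omit [NumberField F] in
lemma norm_natCast_p : ‖j (((p : ℕ) : 𝓞 F) : F)‖ < 1 := by
  have h3 : j (((p : ℕ) : 𝓞 F) : F) = p := by
    have : (((p : ℕ) : 𝓞 F) : F) = p := map_natCast (algebraMap (𝓞 F) F) p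
    rw [this, map_natCast]
  rw [h3]
  exact Padic.norm_p_lt_one

lemma absNorm_eq_p (hF : Module.finrank ℚ F = 2)
    (hv : ∀ x : 𝓞 F, x ∈ v.asIdeal ↔ ‖j x‖ < 1) : Ideal.absNorm v.asIdeal = p := by
  have h2 : ((p : ℕ) : 𝓞 F) ∈ v.asIdeal := by
    rw [hv]
    exact norm_natCast_p
  obtain ⟨l, hl, hlv, hcase⟩ := absNorm_cases hF v
  have hp2 : l = p := by
    by_contra hne
    have hcop : Nat.Coprime l p := (Nat.coprime_primes hl hp.out).mpr hne
    have h3 : IsCoprime (l : ℤ) (p : ℤ) := Nat.isCoprime_iff_coprime.mpr hcop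
    obtain ⟨a, b, hab⟩ := h3
    apply v.isPrime.ne_top
    rw [Ideal.eq_top_iff_one]
    have h4 : (1 : 𝓞 F) = (a : 𝓞 F) * (l : 𝓞 F) + (b : 𝓞 F) * (p : 𝓞 F) := by
      exact_mod_cast (congrArg (fun z : ℤ => (z : 𝓞 F)) hab).symm
    rw [h4]
    exact v.asIdeal.add_mem (v.asIdeal.mul_mem_left _ hlv) (v.asIdeal.mul_mem_left _ h2)
  subst hp2
  rcases hcase with h | h
  · exact h
  · exfalso
    have hsurj : Function.Surjective
        (fun n : Fin l => Ideal.Quotient.mk v.asIdeal ((n : ℕ) : 𝓞 F)) := by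
      intro y
      obtain ⟨x, rfl⟩ := Ideal.Quotient.mk_surjective y
      let z : ℤ_[l] := ⟨j x, norm_int_le_one_p j x⟩
      obtain ⟨n, hn, hmem⟩ := PadicInt.exists_mem_range (p := l) z
      refine ⟨⟨n, hn⟩, ?_⟩
      rw [Eq.comm, Ideal.Quotient.eq, hv]
      have h6 : ‖z - (n : ℤ_[l])‖ < 1 := by
        have := (IsLocalRing.mem_maximalIdeal _).mp hmem
        exact PadicInt.mem_nonunits.mp this
      have h7 : j ((x - (n : ℕ) : 𝓞 F) : F) = j x - n := by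
        have e1 : ((n : 𝓞 F) : F) = n := map_natCast (algebraMap (𝓞 F) F) n
        have e2 : ((x - (n : ℕ) : 𝓞 F) : F) = (x : F) - ((n : 𝓞 F) : F) := rfl
        rw [e2, e1, map_sub, map_natCast]
      change ‖j ((x - (n : ℕ) : 𝓞 F) : F)‖ < 1
      rw [h7]
      exact h6
    have h5 := Nat.card_le_card_of_surjective _ hsurj
    have h6 : Nat.card (𝓞 F ⧸ v.asIdeal) = l ^ 2 := h
    rw [h6, Nat.card_eq_fintype_card, Fintype.card_fin] at h5
    have h7 := hl.one_lt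
    nlinarith

end Place

/-- The place above `p`. -/
theorem exists_place_p {F : Type} [Field F] [NumberField F] (j : F →+* ℚ_[p]) :
    ∃ v : HeightOneSpectrum (𝓞 F), ∀ x : 𝓞 F, x ∈ v.asIdeal ↔ ‖j x‖ < 1 := by
  obtain ⟨j₀, hj₀⟩ := exists_ext_p j
  have h1 : ∀ x : 𝓞 F, x ∈ (primeOf j₀).under (𝓞 F) ↔ ‖j x‖ < 1 := by
    intro x
    rw [← hj₀]
    rfl
  refine ⟨⟨(primeOf j₀).under (𝓞 F), Ideal.IsPrime.under (𝓞 F) _, ?_⟩, h1⟩
  intro h
  have h2 : ((p : ℕ) : 𝓞 F) ∈ (primeOf j₀).under (𝓞 F) := by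
    rw [h1]
    exact norm_natCast_p
  rw [h, Ideal.mem_bot] at h2
  exact Nat.cast_ne_zero.mpr hp.out.ne_zero h2

/-- The absolute value of the character at the place given by the embedding. -/
theorem norm_psi_p {F : Type} [Field F] [NumberField F] {L : Type} [NormedField L]
    {σ : F →+* ℂ} {k : ℕ} {ψ : Ideal (𝓞 F) →*₀ ℂ} (hψ : IsHecke σ k ψ)
    {ι : ℂ →+* L} {j : F →+* ℚ_[p]} (hj : ∀ x : F, ‖j x‖ = ‖ι (σ x)‖)
    {v : HeightOneSpectrum (𝓞 F)} (hv : ∀ x : 𝓞 F, x ∈ v.asIdeal ↔ ‖j x‖ < 1) :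
    ‖ι (ψ v.asIdeal)‖ ≤ ((p : ℝ)⁻¹) ^ k := by
  classical
  let a : nonZeroDivisors (Ideal (𝓞 F)) :=
    ⟨v.asIdeal, mem_nonZeroDivisors_iff_ne_zero.mpr v.ne_bot⟩
  set h := Fintype.card (ClassGroup (𝓞 F)) with hh
  have h0 : h ≠ 0 := Fintype.card_ne_zero
  have h1 : ClassGroup.mk0 (a ^ h) = 1 := by
    rw [map_pow]
    exact pow_card_eq_one
  rw [ClassGroup.mk0_eq_one_iff] at h1
  obtain ⟨t, ht⟩ := h1
  rw [Ideal.submodule_span_eq] at ht
  have ht' : v.asIdeal ^ h = Ideal.span {t} := by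
    rw [← ht]
    rfl
  have ht0 : t ≠ 0 := by
    rintro rfl
    rw [Ideal.span_singleton_eq_bot.mpr rfl] at ht'
    exact pow_ne_zero h v.ne_bot ht'
  have h2 : ψ v.asIdeal ^ h = σ t ^ k := by
    rw [← map_pow, ht']
    exact hψ t ht0
  have h3 : ‖j t‖ ≤ ((p : ℝ)⁻¹) ^ h := by
    refine norm_le_pow_of_mem_p (fun x hx => (hv x).mp hx) h t ?_
    rw [ht']
    exact Ideal.mem_span_singleton_self t
  have h4 : ‖ι (ψ v.asIdeal)‖ ^ h ≤ (((p : ℝ)⁻¹) ^ k) ^ h := by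
    rw [← norm_pow, ← map_pow, h2, map_pow, norm_pow, ← hj, ← pow_mul, mul_comm k h, pow_mul]
    exact pow_le_pow_left₀ (norm_nonneg _) h3 k
  exact (pow_le_pow_iff_left₀ (norm_nonneg _) (by positivity) h0).mp h4

/-- At the place given by the embedding, `1` is not a root of the Hecke polynomial, if `a_p` is
not a unit. -/
theorem ne_at_p {F : Type} [Field F] [NumberField F] {L : Type} [NormedField L]
    [NormedAlgebra ℚ_[p] L] (hF : Module.finrank ℚ F = 2) {w : ℕ} (hw : 1 < w)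
    {f : CuspForm 𝒮ℒ (w : ℤ)} {σ : F →+* ℂ} {r : ℕ} {ψ : Ideal (𝓞 F) →*₀ ℂ}
    (hψ : IsHecke σ (w + 2 * r) ψ) {ι : ℂ →+* L} (hap : ‖ι (coef f p)‖ < 1)
    {j : F →+* ℚ_[p]} (hj : ∀ x : F, ‖j x‖ = ‖ι (σ x)‖)
    {v : HeightOneSpectrum (𝓞 F)} (hv : ∀ x : 𝓞 F, x ∈ v.asIdeal ↔ ‖j x‖ < 1) :
    1 - ι (frobTrace f ψ r v) + ι (frobDet w ψ r v) ≠ 0 := by
  have hul := ultra_p p L
  have hp1 : (1 : ℝ) < p := by exact_mod_cast hp.out.one_lt
  have hq1 : ((p : ℝ)⁻¹) < 1 := inv_lt_one_of_one_lt₀ hp1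
  have hq0 : 0 < (p : ℝ)⁻¹ := by positivity
  set q : ℝ := (p : ℝ)⁻¹ with hq
  have hN := absNorm_eq_p hF hv
  have hψn := norm_psi_p hψ hj hv
  have h2 : ‖ι ((p : ℕ) : ℂ)‖ = q := by
    rw [map_natCast, norm_p_eq]
  have hps0 : 0 < q ^ (w + r) := by positivity
  have h3 : ‖ι (frobTrace f ψ r v)‖ < 1 := by
    unfold frobTrace tv
    rw [hN, if_pos hp.out, map_div₀, map_mul, norm_div, norm_mul, map_pow, norm_pow, h2,
      div_lt_one hps0]
    calc ‖ι (coef f p)‖ * ‖ι (ψ v.asIdeal)‖ ≤ ‖ι (coef f p)‖ * q ^ (w + 2 * r) :=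
          mul_le_mul_of_nonneg_left hψn (norm_nonneg _)
      _ < 1 * q ^ (w + 2 * r) := mul_lt_mul_of_pos_right hap (by positivity)
      _ ≤ q ^ (w + r) := by
          rw [one_mul]
          exact pow_le_pow_of_le_one hq0.le hq1.le (by omega)
  have h4 : ‖ι (frobDet w ψ r v)‖ < 1 := by
    unfold frobDet
    rw [hN, map_div₀, map_mul, norm_div, norm_mul, map_pow, map_pow, map_pow, norm_pow, norm_pow,
      norm_pow, h2, div_lt_one (by positivity)]
    calc q ^ (w - 1) * ‖ι (ψ v.asIdeal)‖ ^ 2 ≤ q ^ (w - 1) * (q ^ (w + 2 * r)) ^ 2 := by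
          refine mul_le_mul_of_nonneg_left ?_ (by positivity)
          exact pow_le_pow_left₀ (norm_nonneg _) hψn 2
      _ = q ^ (w - 1 + (w + 2 * r) * 2) := by rw [← pow_mul, ← pow_add]
      _ < q ^ (2 * (w + r)) := by
          exact pow_lt_pow_right_of_lt_one₀ hq0 hq1 (by omega)
  intro h5
  have h6 : (1 : L) = ι (frobTrace f ψ r v) + -ι (frobDet w ψ r v) := by
    linear_combination h5
  have h7 := IsUltrametricDist.norm_add_le_max (ι (frobTrace f ψ r v)) (-ι (frobDet w ψ r v))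
  rw [← h6, norm_one, norm_neg] at h7
  exact absurd (max_lt h3 h4) (not_lt.mpr h7)

end RZ

end Pool.Agent.Lib.MP_7c08ba_nt
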