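import Mathlib
import Pool.Agent.Lib.MP_7c08ba_nt.RZ.StD

set_option autoImplicit false

/-!
Statements of the analytic modules for every odd fundamental discriminant `-D`.
-/

namespace Pool.Agent.Lib.MP_7c08ba_nt

namespace RZ

open NumberField MeasureTheory UpperHalfPlane Set IsDedekindDomain
open scoped MatrixGroups ComplexConjugate nonZeroDivisors

/-- The conditions on `D`. -/
def OddD (D : ℕ) : Prop := Squarefree D ∧ D % 4 = 3 ∧ 3 < D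

section

variable {F : Type} [Field F] [NumberField F]

/-- The field, the square root of `-D`, the embedding, the character and the conjugation. -/
structure DatD (D : ℕ) (s : 𝓞 F) (σ : F →+* ℂ) (χ : DirichletCharacter ℂ D)
    (cj : 𝓞 F ≃+* 𝓞 F) : Prop where
  odd : OddD D
  fin : Module.finrank ℚ F = 2
  sq : s ^ 2 = -(D : 𝓞 F)
  im : σ s = Complex.I * Real.sqrt D
  chi : ∀ n : ℤ, χ n = (jacobiSym n D : ℂ)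
  conjσ : ∀ x : 𝓞 F, σ (cj x) = conj (σ x)

/-- The ramified ideal of norm `g` (for `g ∣ D`). -/
def ram (s : 𝓞 F) (g : ℕ) : Ideal (𝓞 F) := Ideal.span {(g : 𝓞 F), s}

/-- Theta series at the cusp `1 / g`. -/
noncomputable def thG (D : ℕ) (s : 𝓞 F) (σ : F →+* ℂ) (a : Ideal (𝓞 F)) (g k : ℕ) (u : ℂ) : ℂ :=
  ∑' x : (a * ram s g : Ideal (𝓞 F)),
    (σ (x : 𝓞 F) / (Complex.I * Real.sqrt D)) ^ k * ee (Qa σ a x / D * u)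

/-- Theta series with Laguerre polynomials at the cusp `1 / g`. -/
noncomputable def thlG (D : ℕ) (s : 𝓞 F) (σ : F →+* ℂ) (a : Ideal (𝓞 F)) (g r : ℕ) (u : ℂ) : ℂ :=
  ((u.im : ℂ) ^ r)⁻¹ * ∑' x : (a * ram s g : Ideal (𝓞 F)),
    lag r (4 * Real.pi * (Qa σ a x / D) * u.im) * ee (Qa σ a x / D * u)

/-- Congruence modulo `s` with a factor `ρ`. -/
def CongS {D : ℕ} (s : 𝓞 F) (ρ : ZMod D) (x y : 𝓞 F) : Prop :=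
  ∃ n : ℤ, (n : ZMod D) = ρ ∧ s ∣ x - n * y

/-- The sum over the pairs with difference of norms `D m` which are congruent with factor `ρ`. -/
noncomputable def TT {D : ℕ} (w r m : ℕ) (s : 𝓞 F) (σ : F →+* ℂ) (a b : Ideal (𝓞 F))
    (ρ : ZMod D) : ℂ :=
  ∑' p : {p : a × b // Qa σ a p.1 - Qa σ b p.2 = D * m ∧ CongS s ρ (p.1 : 𝓞 F) (p.2 : 𝓞 F)},
    PT w r σ a b p.1.1 p.1.2

/-- The sum over all cusps. -/
noncomputable def SSD (D w r m : ℕ) (s : 𝓞 F) (σ : F →+* ℂ) (a b : Ideal (𝓞 F)) : ℂ :=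
  ((Complex.I * Real.sqrt D) ^ (w + 2 * r))⁻¹ * (D : ℂ) ^ (w + r) *
    ∑ g ∈ D.divisors, (jacobiSym (Ideal.absNorm a * Ideal.absNorm b) (D / g) : ℂ) *
      ∑' p : {p : (a * ram s g : Ideal (𝓞 F)) × (b * ram s g : Ideal (𝓞 F)) //
        Qa σ a p.1 - Qa σ b p.2 = D * m}, PT w r σ a b p.1.1 p.1.2

end

/-- The sum over the cosets of `Γ₀(D)` (weight `w`), `D` squarefree. -/
noncomputable def trD (D w : ℕ) (H : ℂ → ℂ) (u : ℂ) : ℂ :=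
  ∑ g ∈ D.divisors, ∑ j ∈ Finset.range (D / g),
    ((1 - g * (u + j)) ^ w)⁻¹ * H ((u + j) / (1 - g * (u + j)))

/-- The Rankin–Selberg integral. -/
noncomputable def rsD {w : ℕ} (D : ℕ) (H : ℂ → ℂ) (f : CuspForm 𝒮ℒ (w : ℤ)) : ℂ :=
  ∫ z : ℍ in ModularGroup.fd, trD D w H z * f (ofComplex (-conj (z : ℂ))) * (z.im : ℂ) ^ w

/-- (G0) arithmetic of the field -/
def StBasD : Prop :=
  ∀ (D : ℕ) (F : Type) (_ : Field F) (_ : NumberField F) (s : 𝓞 F) (σ : F →+* ℂ)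
    (χ : DirichletCharacter ℂ D) (cj : 𝓞 F ≃+* 𝓞 F), DatD D s σ χ cj →
    (∀ x : 𝓞 F, ∃ a b : ℤ, 2 * x = a + b * s ∧ (2 : ℤ) ∣ a - b) ∧
    (∀ x, cj (cj x) = x) ∧ cj s = -s ∧ (∀ x, s ∣ x - cj x) ∧
    (∀ x, x * cj x = (Ideal.absNorm (Ideal.span {x}) : 𝓞 F)) ∧
    (∀ x : 𝓞 F, Complex.normSq (σ x) = (Ideal.absNorm (Ideal.span {x}) : ℝ)) ∧
    (∀ a : Ideal (𝓞 F), a * a.map (cj : 𝓞 F →+* 𝓞 F) = Ideal.span {(Ideal.absNorm a : 𝓞 F)}) ∧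
    (∀ x : 𝓞 F, IsUnit x → x = 1 ∨ x = -1) ∧
    (∀ x : 𝓞 F, ∃ n : ℤ, s ∣ x - n) ∧ (∀ n : ℤ, s ∣ (n : 𝓞 F) ↔ (D : ℤ) ∣ n)

/-- (G0') the ramified ideals -/
def StRam : Prop :=
  ∀ (D : ℕ) (F : Type) (_ : Field F) (_ : NumberField F) (s : 𝓞 F) (σ : F →+* ℂ)
    (χ : DirichletCharacter ℂ D) (cj : 𝓞 F ≃+* 𝓞 F), DatD D s σ χ cj → ∀ g : ℕ, g ∣ D →
    Ideal.absNorm (ram s g) = g ∧ ram s g * ram s (D / g) = Ideal.span {s} ∧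
    ram s g ^ 2 = Ideal.span {(g : 𝓞 F)} ∧
    (∀ (x : 𝓞 F) (n : ℤ), s ∣ x - n → (x ∈ ram s g ↔ (g : ℤ) ∣ n)) ∧
    (∀ (a : Ideal (𝓞 F)) (x : 𝓞 F), IsCoprime a (Ideal.span {s}) →
      (x ∈ a * ram s g ↔ x ∈ a ∧ x ∈ ram s g))

/-- (G1) oriented bases of ideals -/
def StBaseD : Prop :=
  ∀ (D : ℕ) (F : Type) (_ : Field F) (_ : NumberField F) (s : 𝓞 F) (σ : F →+* ℂ)
    (χ : DirichletCharacter ℂ D) (cj : 𝓞 F ≃+* 𝓞 F), DatD D s σ χ cj →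
    (∀ a : Ideal (𝓞 F), a ≠ ⊥ → ∃ x y : 𝓞 F, OBasis σ a x y) ∧
    (∀ (a : Ideal (𝓞 F)) (x y : 𝓞 F), OBasis σ a x y →
      x * cj y - cj x * y = s * (Ideal.absNorm a : 𝓞 F)) ∧
    (∀ (a : Ideal (𝓞 F)) (x y : 𝓞 F), OBasis σ a x y →
      (σ x * conj (σ y)).im = Real.sqrt D / 2 * (Ideal.absNorm a : ℝ)) ∧
    (∀ (a : Ideal (𝓞 F)) (x y : 𝓞 F), OBasis σ a x y → ∀ m n : ℤ,
      (m : 𝓞 F) * x + (n : 𝓞 F) * y = 0 → m = 0 ∧ n = 0) ∧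
    (∀ (a : Ideal (𝓞 F)) (x y x' y' : 𝓞 F), OBasis σ a x y → OBasis σ a x' y' →
      ∃ g : SL(2, ℤ), x' = (g 0 0 : 𝓞 F) * x + (g 0 1 : 𝓞 F) * y ∧
        y' = (g 1 0 : 𝓞 F) * x + (g 1 1 : 𝓞 F) * y) ∧
    (∀ (a : Ideal (𝓞 F)) (x y : 𝓞 F), OBasis σ a x y →
      OBasis σ (a.map (cj : 𝓞 F →+* 𝓞 F)) (-cj x) (cj y)) ∧
    (∀ (a : Ideal (𝓞 F)) (x y t : 𝓞 F), OBasis σ a x y → t ≠ 0 →
      OBasis σ (Ideal.span {t} * a) (t * x) (t * y))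

/-- (G2) representatives prime to `s` -/
def StRepsD : Prop :=
  ∀ (D : ℕ) (F : Type) (_ : Field F) (_ : NumberField F) (s : 𝓞 F) (σ : F →+* ℂ)
    (χ : DirichletCharacter ℂ D) (cj : 𝓞 F ≃+* 𝓞 F), DatD D s σ χ cj →
    ∃ c : Reps σ, ∀ A, IsCoprime (c.R A : Ideal (𝓞 F)) (Ideal.span {s})

/-- (G3) the period does not depend on the representatives, and conjugation -/
def StPInvD : Prop :=
  ∀ (D : ℕ) (F : Type) (_ : Field F) (_ : NumberField F) (s : 𝓞 F) (σ : F →+* ℂ)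
    (χ : DirichletCharacter ℂ D) (cj : 𝓞 F ≃+* 𝓞 F) (w r : ℕ) (f : CuspForm 𝒮ℒ (w : ℤ))
    (ψ : Ideal (𝓞 F) →*₀ ℂ), DatD D s σ χ cj → IsHecke σ (w + 2 * r) ψ → 1 ≤ w →
    (∀ c c' : Reps σ, period f r ψ c = period f r ψ c') ∧
    (∀ c : Reps σ, ∑ A : ClassGroup (𝓞 F), (ψ (c.R A : Ideal (𝓞 F)))⁻¹ *
      (Ideal.absNorm (c.R A : Ideal (𝓞 F)) : ℂ) ^ (w + r) *
        lfr f r (-conj (σ (c.X A))) (conj (σ (c.Y A))) = period f r ψ c)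

/-- (G4) convergence, continuity, periodicity and size of the theta series -/
def StThBD : Prop :=
  ∀ (D : ℕ) (F : Type) (_ : Field F) (_ : NumberField F) (s : 𝓞 F) (σ : F →+* ℂ)
    (χ : DirichletCharacter ℂ D) (cj : 𝓞 F ≃+* 𝓞 F) (a : Ideal (𝓞 F)) (k r g : ℕ),
    DatD D s σ χ cj → a ≠ ⊥ → g ∣ D →
    (∀ x ∈ a, ∃ n : ℕ, Qa σ a x = n) ∧
    (∀ t : ℝ, 0 < t → Summable fun x : a =>
      (1 + ‖σ (x : 𝓞 F)‖) ^ k * Real.exp (-(t * Qa σ a x))) ∧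
    ContinuousOn (th σ a k) {u | 0 < u.im} ∧ ContinuousOn (thG D s σ a g k) {u | 0 < u.im} ∧
    ContinuousOn (thl σ a r) {u | 0 < u.im} ∧ ContinuousOn (thlG D s σ a g r) {u | 0 < u.im} ∧
    (∀ u : ℂ, th σ a k (u + 1) = th σ a k u) ∧ (∀ u : ℂ, thl σ a r (u + 1) = thl σ a r u) ∧
    (1 ≤ k → ∃ C δ : ℝ, 0 < δ ∧ ∀ u : ℂ, 1 / 2 ≤ u.im →
      ‖th σ a k u‖ ≤ C * Real.exp (-(δ * u.im)) ∧
      ‖thG D s σ a g k u‖ ≤ C * Real.exp (-(δ * u.im))) ∧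
    (∃ C : ℝ, ∀ u : ℂ, 1 / 2 ≤ u.im → ‖thl σ a r u‖ ≤ C ∧ ‖thlG D s σ a g r u‖ ≤ C) ∧
    (∃ (C : ℝ) (A : ℕ), ∀ u : ℂ, 0 < u.im → ‖th σ a k u‖ ≤ C * (1 + (u.im ^ A)⁻¹))

/-- (G5) theta series: the transformation `u ↦ -1/u` -/
def StThSD : Prop :=
  ∀ (D : ℕ) (F : Type) (_ : Field F) (_ : NumberField F) (s : 𝓞 F) (σ : F →+* ℂ)
    (χ : DirichletCharacter ℂ D) (cj : 𝓞 F ≃+* 𝓞 F) (a : Ideal (𝓞 F)) (k : ℕ) (u : ℂ),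
    DatD D s σ χ cj → a ≠ ⊥ → Even k → 0 < u.im →
    th σ a k (-1 / u) = (-Complex.I / Real.sqrt D) * u ^ (k + 1) * thS D σ a k u

/-- (G6) theta series: the group `Γ₀(D)` -/
def StThGD : Prop :=
  ∀ (D : ℕ) (F : Type) (_ : Field F) (_ : NumberField F) (s : 𝓞 F) (σ : F →+* ℂ)
    (χ : DirichletCharacter ℂ D) (cj : 𝓞 F ≃+* 𝓞 F) (a : Ideal (𝓞 F)) (k : ℕ),
    DatD D s σ χ cj → a ≠ ⊥ → Even k → Wq D χ (k + 1) (th σ a k)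

/-- (G7) theta series: the other cusps -/
def StThCD : Prop :=
  ∀ (D : ℕ) (F : Type) (_ : Field F) (_ : NumberField F) (s : 𝓞 F) (σ : F →+* ℂ)
    (χ : DirichletCharacter ℂ D) (cj : 𝓞 F ≃+* 𝓞 F), DatD D s σ χ cj → ∀ g : ℕ, g ∣ D →
    ∃ (h : ℤ) (κ : ℂ), Complex.normSq κ = (g : ℝ) / D ∧
    ∀ (a : Ideal (𝓞 F)) (k : ℕ) (u : ℂ), a ≠ ⊥ → IsCoprime a (Ideal.span {s}) → Even k →
      0 < u.im → th σ a k ((u + h) / (1 - g * (u + h))) =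
        (1 - g * (u + h)) ^ (k + 1) * κ * (jacobiSym (Ideal.absNorm a) (D / g) : ℂ) *
          thG D s σ a g k u

/-- (G8) raising the weight, two index sets -/
def StRaise2 : Prop :=
  ∀ (ι ι' : Type) (r : ℕ) (Q : ι → ℝ) (Q' : ι' → ℝ) (a b c d : ℝ) (κ : ℂ),
    (∀ i, 0 ≤ Q i) → (∀ i, 0 ≤ Q' i) →
    (∀ y : ℝ, 0 < y → Summable fun i => Real.exp (-Q i * y)) →
    (∀ y : ℝ, 0 < y → Summable fun i => Real.exp (-Q' i * y)) →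
    a * d - b * c = 1 →
    (∀ z : ℂ, 0 < z.im → ∑' i, ee (Q i * ((a * z + b) / (c * z + d))) =
      κ * (c * z + d) * ∑' i, ee (Q' i * z)) →
    ∀ z : ℂ, 0 < z.im →
      ((((a * z + b) / (c * z + d)).im : ℂ) ^ r)⁻¹ * ∑' i, lag r (4 * Real.pi * Q i *
          ((a * z + b) / (c * z + d)).im) * ee (Q i * ((a * z + b) / (c * z + d))) =
        κ * (c * z + d) ^ (2 * r + 1) * (((z.im : ℂ) ^ r)⁻¹ *
          ∑' i, lag r (4 * Real.pi * Q' i * z.im) * ee (Q' i * z))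

/-- (G9) Laguerre theta series: `Γ₀(D)`, and the other cusps with the same constants -/
def StThlD : Prop :=
  ∀ (D : ℕ) (F : Type) (_ : Field F) (_ : NumberField F) (s : 𝓞 F) (σ : F →+* ℂ)
    (χ : DirichletCharacter ℂ D) (cj : 𝓞 F ≃+* 𝓞 F), DatD D s σ χ cj →
    (∀ (a : Ideal (𝓞 F)) (r : ℕ), a ≠ ⊥ → Wq D χ (2 * r + 1) (thl σ a r)) ∧
    ∀ g : ℕ, g ∣ D → ∃ (h : ℤ) (κ : ℂ), Complex.normSq κ = (g : ℝ) / D ∧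
    (∀ (a : Ideal (𝓞 F)) (k : ℕ) (u : ℂ), a ≠ ⊥ → IsCoprime a (Ideal.span {s}) → Even k →
      0 < u.im → th σ a k ((u + h) / (1 - g * (u + h))) =
        (1 - g * (u + h)) ^ (k + 1) * κ * (jacobiSym (Ideal.absNorm a) (D / g) : ℂ) *
          thG D s σ a g k u) ∧
    (∀ (a : Ideal (𝓞 F)) (r : ℕ) (u : ℂ), a ≠ ⊥ → IsCoprime a (Ideal.span {s}) →
      0 < u.im → thl σ a r ((u + h) / (1 - g * (u + h))) =
        (1 - g * (u + h)) ^ (2 * r + 1) * κ * (jacobiSym (Ideal.absNorm a) (D / g) : ℂ) *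
          thlG D s σ a g r u)

/-- (G10) sums over ideals and sums over elements of representatives -/
def StIdSumD : Prop :=
  ∀ (D : ℕ) (F : Type) (_ : Field F) (_ : NumberField F) (s : 𝓞 F) (σ : F →+* ℂ)
    (χ : DirichletCharacter ℂ D) (cj : 𝓞 F ≃+* 𝓞 F) (c : Reps σ) (g : Ideal (𝓞 F) → ℂ)
    (T : ClassGroup (𝓞 F) → 𝓞 F → ℂ), DatD D s σ χ cj → (∀ A, T A 0 = 0) →
    (∀ (A : ClassGroup (𝓞 F)) (x : 𝓞 F) (b : Ideal (𝓞 F)), x ≠ 0 →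
      b * (c.R A : Ideal (𝓞 F)) = Ideal.span {x} → T A x = g b) →
    (∀ A, Summable fun x : (c.R A : Ideal (𝓞 F)) => ‖T A x‖) →
    (Summable fun b : (Ideal (𝓞 F))⁰ => ‖g b‖) ∧
    ∑ A : ClassGroup (𝓞 F), ∑' x : (c.R A : Ideal (𝓞 F)), T A x =
      2 * ∑' b : (Ideal (𝓞 F))⁰, g b

/-- (G11) the number of ideals of given norm -/
def StCountD : Prop :=
  ∀ (D : ℕ) (F : Type) (_ : Field F) (_ : NumberField F) (s : 𝓞 F) (σ : F →+* ℂ)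
    (χ : DirichletCharacter ℂ D) (cj : 𝓞 F ≃+* 𝓞 F), DatD D s σ χ cj → ∀ n : ℕ, 1 ≤ n →
    (Nat.card {b : Ideal (𝓞 F) // Ideal.absNorm b = n} : ℤ) = ∑ d ∈ n.divisors, jacobiSym d D

/-- (G12) splitting of primes -/
def StSplitD : Prop :=
  ∀ (D : ℕ) (F : Type) (_ : Field F) (_ : NumberField F) (s : 𝓞 F) (σ : F →+* ℂ)
    (χ : DirichletCharacter ℂ D) (cj : 𝓞 F ≃+* 𝓞 F), DatD D s σ χ cj → ∀ p : ℕ, p.Prime →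
    (jacobiSym p D = 1 → ∃ P P' : Ideal (𝓞 F), P.IsPrime ∧ P'.IsPrime ∧ P ≠ P' ∧
      P * P' = Ideal.span {(p : 𝓞 F)} ∧ Ideal.absNorm P = p ∧ Ideal.absNorm P' = p) ∧
    (jacobiSym p D = -1 → (Ideal.span {(p : 𝓞 F)}).IsPrime ∧
      Ideal.absNorm (Ideal.span {(p : 𝓞 F)}) = p ^ 2) ∧
    (jacobiSym p D = 0 → p ∣ D ∧ (ram s p).IsPrime ∧
      ram s p ^ 2 = Ideal.span {(p : 𝓞 F)} ∧ Ideal.absNorm (ram s p) = p)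

/-- (G13) convergence of the Eisenstein series: holomorphy, continuity, size -/
def StEisAD : Prop :=
  ∀ (D : ℕ) (_ : NeZero D) (χ : DirichletCharacter ℂ D) (r : ℕ), OddD D →
    (∀ n : ℤ, χ n = (jacobiSym n D : ℂ)) →
    (∀ u : ℂ, 0 < u.im →
      DifferentiableOn ℂ (fun s => eis D χ r s u) {s | -(r : ℝ) - 1 / 2 < s.re}) ∧
    (∀ s u : ℂ, -(r : ℝ) - 1 / 2 < s.re → 0 < u.im →
      Summable fun p : ℕ × ℤ => ‖dE D χ r s (D * (((p.1 : ℂ) + 1) * u + p.2))‖) ∧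
    (∀ s : ℂ, -(r : ℝ) - 1 / 2 < s.re → ContinuousOn (eis D χ r s) {u | 0 < u.im}) ∧
    (∀ σ₀ R : ℝ, -(r : ℝ) - 1 / 2 < σ₀ → ∃ C A : ℝ, 0 ≤ A ∧ ∀ s u : ℂ, σ₀ ≤ s.re → ‖s‖ ≤ R →
      0 < u.im → ‖eis D χ r s u‖ ≤ C * ((1 + ‖u‖ ^ 2) / u.im) ^ A)

/-- (G14) the Eisenstein series as a sum over coprime pairs -/
def StEisBigD : Prop :=
  ∀ (D : ℕ) (_ : NeZero D) (χ : DirichletCharacter ℂ D) (r : ℕ), OddD D →
    (∀ n : ℤ, χ n = (jacobiSym n D : ℂ)) →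
    ∀ s u : ℂ, 1 / 2 - (r : ℝ) < s.re → 0 < u.im →
      (Summable fun v : Cop => ‖((((v.1.1 : ℂ) * u + v.1.2) ^ (2 * r + 1))⁻¹ *
        ((Complex.normSq ((v.1.1 : ℂ) * u + v.1.2) : ℝ) : ℂ) ^ (-s))‖) ∧
      eis D χ r s u = 1 / 2 * DirichletCharacter.LFunction χ (2 * r + 1 + 2 * s) *
        ∑' v : Cop, (if (D : ℤ) ∣ v.1.1 then χ (v.1.2 : ℤ) else 0) *
          (((v.1.1 : ℂ) * u + v.1.2) ^ (2 * r + 1))⁻¹ *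
          ((Complex.normSq ((v.1.1 : ℂ) * u + v.1.2) : ℝ) : ℂ) ^ (-s) * (u.im : ℂ) ^ s

/-- (G15) invariance of the Eisenstein series -/
def StEisLawD : Prop :=
  ∀ (D : ℕ) (_ : NeZero D) (χ : DirichletCharacter ℂ D) (r : ℕ), OddD D →
    (∀ n : ℤ, χ n = (jacobiSym n D : ℂ)) →
    ∀ s : ℂ, -(r : ℝ) - 1 / 2 < s.re → Wq D χ (2 * r + 1) (eis D χ r s)

/-- (G16) the Eisenstein series at `s = -r` -/
def StEisAtD : Prop :=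
  ∀ (D : ℕ) (_ : NeZero D) (χ : DirichletCharacter ℂ D), OddD D →
    (∀ n : ℤ, χ n = (jacobiSym n D : ℂ)) →
    ∃ ε : ℂ, (ε = 1 ∨ ε = -1) ∧ ∀ (r : ℕ) (u : ℂ), 0 < u.im →
      eis D χ r (-r) u = ((u.im : ℂ) ^ r)⁻¹ * (DirichletCharacter.LFunction χ 1 +
        ε * (2 * Real.pi / Real.sqrt D) * ∑' p : ℕ × ℕ, χ ((p.2 + 1 : ℕ) : ℤ) *
          lag r (4 * Real.pi * ((p.1 + 1 : ℕ) * (p.2 + 1 : ℕ)) * u.im) *
          ee ((p.1 + 1 : ℕ) * (p.2 + 1 : ℕ) * u))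

/-- (G17) the Eisenstein series at `s = -r` as a sum of theta series -/
def StEisThD : Prop :=
  ∀ (D : ℕ) (_ : NeZero D) (F : Type) (_ : Field F) (_ : NumberField F) (s : 𝓞 F)
    (σ : F →+* ℂ) (χ : DirichletCharacter ℂ D) (cj : 𝓞 F ≃+* 𝓞 F) (c : Reps σ),
    DatD D s σ χ cj → ∃ ε : ℂ, (ε = 1 ∨ ε = -1) ∧ ∀ (r : ℕ) (u : ℂ), 0 < u.im →
      eis D χ r (-r) u = ε * (Real.pi / Real.sqrt D) *
        ∑ B : ClassGroup (𝓞 F), thl σ (c.R B : Ideal (𝓞 F)) r u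

/-- (G18) the trace from `Γ₀(D)` to level one -/
def StTraceD : Prop :=
  ∀ (D w : ℕ) (H : ℂ → ℂ), Squarefree D → Even w →
    (∀ (g : SL(2, ℤ)) (z : ℂ), 0 < z.im → (D : ℤ) ∣ g 1 0 →
      H (((g 0 0 : ℂ) * z + g 0 1) / ((g 1 0 : ℂ) * z + g 1 1)) =
        ((g 1 0 : ℂ) * z + g 1 1) ^ w * H z) →
    Wt w (trD D w H)

/-- (G19) the Hecke character: absolute values, conjugate ideals, even type -/
def StPsiD : Prop :=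
  ∀ (D : ℕ) (F : Type) (_ : Field F) (_ : NumberField F) (s : 𝓞 F) (σ : F →+* ℂ)
    (χ : DirichletCharacter ℂ D) (cj : 𝓞 F ≃+* 𝓞 F) (k : ℕ) (ψ : Ideal (𝓞 F) →*₀ ℂ),
    DatD D s σ χ cj → IsHecke σ k ψ →
    Even k ∧ (∀ b : Ideal (𝓞 F), b ≠ ⊥ → ‖ψ b‖ ^ 2 = (Ideal.absNorm b : ℝ) ^ k) ∧
    (∀ b : Ideal (𝓞 F), b ≠ ⊥ →
      ψ b * ψ (b.map (cj : 𝓞 F →+* 𝓞 F)) = (Ideal.absNorm b : ℂ) ^ k)

/-- (G20) the theta series of the Hecke character as a Fourier series -/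
def StThPsiD : Prop :=
  ∀ (D : ℕ) (F : Type) (_ : Field F) (_ : NumberField F) (s : 𝓞 F) (σ : F →+* ℂ)
    (χ : DirichletCharacter ℂ D) (cj : 𝓞 F ≃+* 𝓞 F) (k : ℕ) (ψ : Ideal (𝓞 F) →*₀ ℂ)
    (c : Reps σ), DatD D s σ χ cj → IsHecke σ k ψ → 1 ≤ k →
    bψ ψ 0 = 0 ∧
    (∀ n : ℕ, 1 ≤ n → ‖bψ ψ n‖ ≤ (n.divisors.card : ℝ) * (n : ℝ) ^ ((k : ℝ) / 2)) ∧
    ∀ u : ℂ, 0 < u.im → (Summable fun n : ℕ => ‖bψ ψ n * ee (n * u)‖) ∧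
      thψ k ψ c u = ∑' n : ℕ, bψ ψ n * ee (n * u)

/-- (G21) continuity, transformation, holomorphy and size of the integrand -/
def StHHD : Prop :=
  ∀ (D : ℕ) (_ : NeZero D) (F : Type) (_ : Field F) (_ : NumberField F) (s : 𝓞 F)
    (σ : F →+* ℂ) (χ : DirichletCharacter ℂ D) (cj : 𝓞 F ≃+* 𝓞 F) (w r : ℕ)
    (ψ : Ideal (𝓞 F) →*₀ ℂ) (c : Reps σ), DatD D s σ χ cj → 1 ≤ w → Even w →
    (∀ A, IsCoprime (c.R A : Ideal (𝓞 F)) (Ideal.span {s})) →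
    (∀ t : ℂ, -(r : ℝ) - 1 / 2 < t.re → ContinuousOn (HH D χ w r ψ c t) {u | 0 < u.im} ∧
      ContinuousOn (trD D w (HH D χ w r ψ c t)) {u | 0 < u.im} ∧
      (∀ (g : SL(2, ℤ)) (z : ℂ), 0 < z.im → (D : ℤ) ∣ g 1 0 →
        HH D χ w r ψ c t (((g 0 0 : ℂ) * z + g 0 1) / ((g 1 0 : ℂ) * z + g 1 1)) =
          ((g 1 0 : ℂ) * z + g 1 1) ^ w * HH D χ w r ψ c t z)) ∧
    (∀ z : ℂ, 0 < z.im → DifferentiableOn ℂ (fun t => trD D w (HH D χ w r ψ c t) z)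
      {t | -(r : ℝ) - 1 / 2 < t.re}) ∧
    (∀ σ₀ R : ℝ, -(r : ℝ) - 1 / 2 < σ₀ → ∃ C δ : ℝ, 0 < δ ∧ ∀ t z : ℂ, σ₀ ≤ t.re → ‖t‖ ≤ R →
      1 / 2 ≤ z.im → |z.re| ≤ 1 / 2 →
        ‖trD D w (HH D χ w r ψ c t) z‖ ≤ C * Real.exp (-(δ * z.im)))

/-- (G22) the Rankin–Selberg integral is holomorphic -/
def StRSanD : Prop :=
  ∀ (D : ℕ) (_ : NeZero D) (F : Type) (_ : Field F) (_ : NumberField F) (s : 𝓞 F)
    (σ : F →+* ℂ) (χ : DirichletCharacter ℂ D) (cj : 𝓞 F ≃+* 𝓞 F) (w r : ℕ)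
    (f : CuspForm 𝒮ℒ (w : ℤ)) (ψ : Ideal (𝓞 F) →*₀ ℂ) (c : Reps σ), DatD D s σ χ cj →
    1 ≤ w → Even w → (∀ A, IsCoprime (c.R A : Ideal (𝓞 F)) (Ideal.span {s})) →
    DifferentiableOn ℂ (fun t => rsD D (HH D χ w r ψ c t) f) {t | -(r : ℝ) - 1 / 2 < t.re}

/-- (G23) the integrand as a sum over coprime pairs -/
def StRSptD : Prop :=
  ∀ (D : ℕ) (_ : NeZero D) (F : Type) (_ : Field F) (_ : NumberField F) (s : 𝓞 F)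
    (σ : F →+* ℂ) (χ : DirichletCharacter ℂ D) (cj : 𝓞 F ≃+* 𝓞 F) (w r : ℕ)
    (f : CuspForm 𝒮ℒ (w : ℤ)) (ψ : Ideal (𝓞 F) →*₀ ℂ) (c : Reps σ), DatD D s σ χ cj →
    1 ≤ w → Even w → ∀ t z : ℂ, 1 / 2 - (r : ℝ) < t.re → 0 < z.im →
    trD D w (HH D χ w r ψ c t) z * f (ofComplex (-conj z)) * (z.im : ℂ) ^ w =
      1 / 2 * DirichletCharacter.LFunction χ (2 * r + 1 + 2 * t) *
        ∑' v : Cop, (fun u : ℂ => thψ (w + 2 * r) ψ c u * f (ofComplex (-conj u)) *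
          (u.im : ℂ) ^ ((w : ℂ) + 2 * r + 1 + t)) (mob v.1 z)

/-- (G24) the Rankin–Selberg integral in the region of convergence -/
def StRSD : Prop :=
  ∀ (D : ℕ) (_ : NeZero D) (F : Type) (_ : Field F) (_ : NumberField F) (s : 𝓞 F)
    (σ : F →+* ℂ) (χ : DirichletCharacter ℂ D) (cj : 𝓞 F ≃+* 𝓞 F) (w r : ℕ)
    (f : CuspForm 𝒮ℒ (w : ℤ)) (ψ : Ideal (𝓞 F) →*₀ ℂ) (c : Reps σ), DatD D s σ χ cj →
    1 ≤ w → Even w → IsHecke σ (w + 2 * r) ψ →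
    ∃ A : ℝ, ∀ t : ℂ, A < t.re →
      rsD D (HH D χ w r ψ c t) f = Complex.Gamma (w + 2 * r + t) *
        (4 * Real.pi : ℂ) ^ (-((w : ℂ) + 2 * r + t)) *
        DirichletCharacter.LFunction χ (2 * r + 1 + 2 * t) * Dn f ψ (w + 2 * r + t)

/-- (G25) the Dirichlet series is holomorphic for `Re z > 1` -/
def StDnD : Prop :=
  ∀ (D : ℕ) (F : Type) (_ : Field F) (_ : NumberField F) (s : 𝓞 F)
    (σ : F →+* ℂ) (χ : DirichletCharacter ℂ D) (cj : 𝓞 F ≃+* 𝓞 F) (w r : ℕ)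
    (f : CuspForm 𝒮ℒ (w : ℤ)) (ψ : Ideal (𝓞 F) →*₀ ℂ), DatD D s σ χ cj → 1 ≤ w →
    IsHecke σ (w + 2 * r) ψ →
    (∀ z : ℂ, 1 < z.re →
      Summable fun n : ℕ => ‖coef f n * bψ ψ n * (n : ℂ) ^ (-((w : ℂ) + r + z))‖) ∧
    DifferentiableOn ℂ (fun z => Dn f ψ ((w : ℂ) + r + z)) {z | 1 < z.re}

/-- (G26) the coefficients `bψ` are multiplicative, values at prime powers -/
def StBmulD : Prop :=
  ∀ (D : ℕ) (F : Type) (_ : Field F) (_ : NumberField F) (s : 𝓞 F) (σ : F →+* ℂ)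
    (χ : DirichletCharacter ℂ D) (cj : 𝓞 F ≃+* 𝓞 F) (k : ℕ) (ψ : Ideal (𝓞 F) →*₀ ℂ),
    DatD D s σ χ cj → IsHecke σ k ψ →
    bψ ψ 1 = 1 ∧ (∀ m n : ℕ, m.Coprime n → bψ ψ (m * n) = bψ ψ m * bψ ψ n) ∧
    (∀ p : ℕ, p.Prime → jacobiSym p D = 1 → ∀ P P' : Ideal (𝓞 F), P.IsPrime → P'.IsPrime →
      P ≠ P' → P * P' = Ideal.span {(p : 𝓞 F)} → ∀ n : ℕ,
      bψ ψ (p ^ n) = ∑ i ∈ Finset.range (n + 1), ψ P ^ i * ψ P' ^ (n - i)) ∧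
    (∀ p : ℕ, p.Prime → jacobiSym p D = -1 → ∀ n : ℕ, bψ ψ (p ^ (2 * n + 1)) = 0 ∧
      bψ ψ (p ^ (2 * n)) = ((p : ℂ) ^ k) ^ n) ∧
    (∀ p : ℕ, p.Prime → p ∣ D → ∀ n : ℕ, bψ ψ (p ^ n) = ψ (ram s p) ^ n)

/-- (G27) the Euler product over the rational primes -/
def StEulQD : Prop :=
  ∀ (D : ℕ) (_ : NeZero D) (F : Type) (_ : Field F) (_ : NumberField F) (s : 𝓞 F)
    (σ : F →+* ℂ) (χ : DirichletCharacter ℂ D) (cj : 𝓞 F ≃+* 𝓞 F) (w r : ℕ)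
    (f : CuspForm 𝒮ℒ (w : ℤ)) (ψ : Ideal (𝓞 F) →*₀ ℂ), DatD D s σ χ cj → IsEigen f →
    IsHecke σ (w + 2 * r) ψ → ∀ z : ℂ, 1 < z.re →
    (∀ v : HeightOneSpectrum (𝓞 F), eulF f ψ ((w : ℂ) + r + z) v ≠ 0) ∧
    HasProd (fun p : Nat.Primes => ∏ᶠ v : {v : HeightOneSpectrum (𝓞 F) //
        (p : 𝓞 F) ∈ v.asIdeal}, (eulF f ψ ((w : ℂ) + r + z) v.1)⁻¹)
      (DirichletCharacter.LFunction χ (1 + 2 * z) * Dn f ψ ((w : ℂ) + r + z))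

/-- (G28) the Euler product over the places of `F` -/
def StEulD : Prop :=
  ∀ (D : ℕ) (_ : NeZero D) (F : Type) (_ : Field F) (_ : NumberField F) (s : 𝓞 F)
    (σ : F →+* ℂ) (χ : DirichletCharacter ℂ D) (cj : 𝓞 F ≃+* 𝓞 F) (w r : ℕ)
    (f : CuspForm 𝒮ℒ (w : ℤ)) (ψ : Ideal (𝓞 F) →*₀ ℂ), DatD D s σ χ cj → IsEigen f →
    IsHecke σ (w + 2 * r) ψ → ∀ z : ℂ, 1 < z.re →
    HasProd (fun v : HeightOneSpectrum (𝓞 F) => (eulF f ψ ((w : ℂ) + r + z) v)⁻¹)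
      (DirichletCharacter.LFunction χ (1 + 2 * z) * Dn f ψ ((w : ℂ) + r + z))

/-- (G29) the value at `-r` in terms of the integrals `JJ` -/
def StRSatD : Prop :=
  ∀ (D : ℕ) (_ : NeZero D) (F : Type) (_ : Field F) (_ : NumberField F) (s : 𝓞 F)
    (σ : F →+* ℂ) (χ : DirichletCharacter ℂ D) (cj : 𝓞 F ≃+* 𝓞 F) (w r : ℕ)
    (f : CuspForm 𝒮ℒ (w : ℤ)) (ψ : Ideal (𝓞 F) →*₀ ℂ) (c : Reps σ) (β : ℕ →₀ ℂ),
    DatD D s σ χ cj → 4 ≤ w → Even w → β 0 = 0 →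
    (∀ A, IsCoprime (c.R A : Ideal (𝓞 F)) (Ideal.span {s})) →
    (∀ z : ℍ, f z = β.sum fun m b => b * poinc w m z) →
    rsD D (HH D χ w r ψ c (-r)) f =
      β.sum fun m b => b * JJ w m (trD D w (HH D χ w r ψ c (-r)))

/-- (G30) the integrals `JJ` as sums over pairs -/
def StJmD : Prop :=
  ∀ (D : ℕ) (_ : NeZero D) (F : Type) (_ : Field F) (_ : NumberField F) (s : 𝓞 F)
    (σ : F →+* ℂ) (χ : DirichletCharacter ℂ D) (cj : 𝓞 F ≃+* 𝓞 F) (w r : ℕ)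
    (ψ : Ideal (𝓞 F) →*₀ ℂ) (c : Reps σ),
    DatD D s σ χ cj → 5 ≤ w → Even w →
    (∀ A, IsCoprime (c.R A : Ideal (𝓞 F)) (Ideal.span {s})) →
    ∃ ε : ℂ, (ε = 1 ∨ ε = -1) ∧ ∀ m : ℕ, 1 ≤ m →
    JJ w m (trD D w (HH D χ w r ψ c (-r))) =
      1 / 2 * ε * (Real.pi / Real.sqrt D) * ((w + r - 1).factorial : ℂ) *
        ((4 * Real.pi : ℂ) ^ (w + r))⁻¹ *
        ∑ A : ClassGroup (𝓞 F), ∑ B : ClassGroup (𝓞 F), (ψ (c.R A : Ideal (𝓞 F)))⁻¹ *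
          SSD D w r m s σ (c.R A : Ideal (𝓞 F)) (c.R B : Ideal (𝓞 F))

/-- (G31) the sum over the cusps as a sum over the square roots of the quotient of norms -/
def StRho : Prop :=
  ∀ (D : ℕ) (_ : NeZero D) (F : Type) (_ : Field F) (_ : NumberField F) (s : 𝓞 F)
    (σ : F →+* ℂ) (χ : DirichletCharacter ℂ D) (cj : 𝓞 F ≃+* 𝓞 F) (w r m : ℕ)
    (a b : Ideal (𝓞 F)), DatD D s σ χ cj → 5 ≤ w → 1 ≤ m → a ≠ ⊥ → b ≠ ⊥ →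
    IsCoprime a (Ideal.span {s}) → IsCoprime b (Ideal.span {s}) →
    (Summable fun p : {p : a × b // Qa σ a p.1 - Qa σ b p.2 = D * m} =>
      ‖PT w r σ a b p.1.1 p.1.2‖) ∧
    SSD D w r m s σ a b = ((Complex.I * Real.sqrt D) ^ (w + 2 * r))⁻¹ * (D : ℂ) ^ (w + r) *
      ∑ ρ : ZMod D, if ρ ^ 2 * (Ideal.absNorm b : ZMod D) = (Ideal.absNorm a : ZMod D) then
        TT w r m s σ a b ρ else 0

/-- Invariance of a function of triples. -/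
def TInv {F : Type} [Field F] [NumberField F] {D : ℕ} (s : 𝓞 F)
    (Φ : Ideal (𝓞 F) → Ideal (𝓞 F) → ZMod D → ℂ) : Prop :=
  ∀ (a a' b b' : Ideal (𝓞 F)) (t t' u u' : 𝓞 F) (nt nt' nu nu' : ℤ) (ρ ρ' : ZMod D),
    a ≠ ⊥ → b ≠ ⊥ → a' ≠ ⊥ → b' ≠ ⊥ →
    IsCoprime a (Ideal.span {s}) → IsCoprime b (Ideal.span {s}) →
    IsCoprime a' (Ideal.span {s}) → IsCoprime b' (Ideal.span {s}) →
    s ∣ t - nt → s ∣ t' - nt' → s ∣ u - nu → s ∣ u' - nu' →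
    IsUnit (nt : ZMod D) → IsUnit (nt' : ZMod D) → IsUnit (nu : ZMod D) →
    IsUnit (nu' : ZMod D) →
    Ideal.span {t} * a = Ideal.span {t'} * a' → Ideal.span {u} * b = Ideal.span {u'} * b' →
    ρ' * (nt' * nu) = ρ * (nt * nu') → Φ a b ρ = Φ a' b' ρ'

/-- (G32) invariance of the sums `TT` -/
def StTTinv : Prop :=
  ∀ (D : ℕ) (F : Type) (_ : Field F) (_ : NumberField F) (s : 𝓞 F) (σ : F →+* ℂ)
    (χ : DirichletCharacter ℂ D) (cj : 𝓞 F ≃+* 𝓞 F) (w r m : ℕ) (ψ : Ideal (𝓞 F) →*₀ ℂ),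
    DatD D s σ χ cj → IsHecke σ (w + 2 * r) ψ →
    TInv s fun (a b : Ideal (𝓞 F)) (ρ : ZMod D) => (ψ a)⁻¹ * TT w r m s σ a b ρ

/-- (G33) injectivity: the pair of classes is determined by the triple -/
def StTinj : Prop :=
  ∀ (D : ℕ) (F : Type) (_ : Field F) (_ : NumberField F) (s : 𝓞 F) (σ : F →+* ℂ)
    (χ : DirichletCharacter ℂ D) (cj : 𝓞 F ≃+* 𝓞 F), DatD D s σ χ cj →
    ∀ (c c' d d' : (Ideal (𝓞 F))⁰) (t t' u u' : 𝓞 F) (nt nt' nu nu' : ℤ),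
    IsCoprime (c : Ideal (𝓞 F)) (Ideal.span {s}) →
    IsCoprime (c' : Ideal (𝓞 F)) (Ideal.span {s}) →
    IsCoprime (d : Ideal (𝓞 F)) (Ideal.span {s}) →
    IsCoprime (d' : Ideal (𝓞 F)) (Ideal.span {s}) →
    s ∣ t - nt → s ∣ t' - nt' → s ∣ u - nu → s ∣ u' - nu' →
    IsUnit (nt : ZMod D) → IsUnit (nt' : ZMod D) → IsUnit (nu : ZMod D) →
    IsUnit (nu' : ZMod D) →
    Ideal.span {t} * ((d : Ideal (𝓞 F)) * (c : Ideal (𝓞 F)).map (cj : 𝓞 F →+* 𝓞 F)) =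
      Ideal.span {t'} * ((d' : Ideal (𝓞 F)) * (c' : Ideal (𝓞 F)).map (cj : 𝓞 F →+* 𝓞 F)) →
    Ideal.span {u} * ((d : Ideal (𝓞 F)) * (c : Ideal (𝓞 F))) =
      Ideal.span {u'} * ((d' : Ideal (𝓞 F)) * (c' : Ideal (𝓞 F))) →
    ((nt : ZMod D) * nu' = nt' * nu ∨ (nt : ZMod D) * nu' = -(nt' * nu)) →
    ClassGroup.mk0 c = ClassGroup.mk0 c' ∧ ClassGroup.mk0 d = ClassGroup.mk0 d'

/-- (G34) genus theory: the number of triples is twice the square of the class number -/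
def StGen : Prop :=
  ∀ (D : ℕ) (_ : NeZero D) (F : Type) (_ : Field F) (_ : NumberField F) (s : 𝓞 F) (σ : F →+* ℂ)
    (χ : DirichletCharacter ℂ D) (cj : 𝓞 F ≃+* 𝓞 F) (c : Reps σ), DatD D s σ χ cj →
    (∀ A, IsCoprime (c.R A : Ideal (𝓞 F)) (Ideal.span {s})) →
    ∑ A : ClassGroup (𝓞 F), ∑ B : ClassGroup (𝓞 F), ∑ ρ : ZMod D,
      (if ρ ^ 2 * (Ideal.absNorm (c.R B : Ideal (𝓞 F)) : ZMod D) =
        (Ideal.absNorm (c.R A : Ideal (𝓞 F)) : ZMod D) then 1 else 0) =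
      2 * Nat.card (ClassGroup (𝓞 F)) ^ 2

/-- (G35) sums over triples and sums over pairs of classes -/
def StTrip : Prop :=
  ∀ (D : ℕ) (_ : NeZero D) (F : Type) (_ : Field F) (_ : NumberField F) (s : 𝓞 F) (σ : F →+* ℂ)
    (χ : DirichletCharacter ℂ D) (cj : 𝓞 F ≃+* 𝓞 F) (c : Reps σ)
    (Φ : Ideal (𝓞 F) → Ideal (𝓞 F) → ZMod D → ℂ), DatD D s σ χ cj →
    (∀ A, IsCoprime (c.R A : Ideal (𝓞 F)) (Ideal.span {s})) → TInv s Φ →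
    ∑ A : ClassGroup (𝓞 F), ∑ B : ClassGroup (𝓞 F), ∑ ρ : ZMod D,
      (if ρ ^ 2 * (Ideal.absNorm (c.R B : Ideal (𝓞 F)) : ZMod D) =
        (Ideal.absNorm (c.R A : Ideal (𝓞 F)) : ZMod D) then
        Φ (c.R A : Ideal (𝓞 F)) (c.R B : Ideal (𝓞 F)) ρ else 0) =
      2 * ∑ A : ClassGroup (𝓞 F), ∑ B : ClassGroup (𝓞 F),
        Φ ((c.R B : Ideal (𝓞 F)) * (c.R A : Ideal (𝓞 F)).map (cj : 𝓞 F →+* 𝓞 F))
          ((c.R B : Ideal (𝓞 F)) * (c.R A : Ideal (𝓞 F))) 1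

/-- (G36) pairs of elements and matrices -/
def StImgD : Prop :=
  ∀ (D : ℕ) (F : Type) (_ : Field F) (_ : NumberField F) (s : 𝓞 F)
    (σ : F →+* ℂ) (χ : DirichletCharacter ℂ D) (cj : 𝓞 F ≃+* 𝓞 F)
    (c d : Ideal (𝓞 F)) (c₁ c₂ d₁ d₂ : 𝓞 F), DatD D s σ χ cj →
    OBasis σ c c₁ c₂ → OBasis σ d d₁ d₂ → c ≠ ⊥ → d ≠ ⊥ →
    IsCoprime c (Ideal.span {s}) → IsCoprime d (Ideal.span {s}) →
    let al : Matrix (Fin 2) (Fin 2) ℤ → 𝓞 F := fun g =>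
      ((g 0 0 : 𝓞 F) * d₁ + g 0 1 * d₂) * cj c₂ - ((g 1 0 : 𝓞 F) * d₁ + g 1 1 * d₂) * cj c₁
    let be : Matrix (Fin 2) (Fin 2) ℤ → 𝓞 F := fun g =>
      ((g 0 0 : 𝓞 F) * d₁ + g 0 1 * d₂) * c₂ - ((g 1 0 : 𝓞 F) * d₁ + g 1 1 * d₂) * c₁
    (∀ g, al g * cj (al g) - be g * cj (be g) =
      (D : 𝓞 F) * (g.det : 𝓞 F) * (Ideal.absNorm c : 𝓞 F) * (Ideal.absNorm d : 𝓞 F)) ∧
    (∀ g g', al g = al g' → be g = be g' → g = g') ∧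
    (∀ x y : 𝓞 F, (x ∈ d * c.map (cj : 𝓞 F →+* 𝓞 F) ∧ y ∈ d * c ∧ s ∣ x - y) ↔
      ∃ g, al g = x ∧ be g = y)

/-- (G37) the sums `TT` and the sums over matrices -/
def StTTmat : Prop :=
  ∀ (D : ℕ) (F : Type) (_ : Field F) (_ : NumberField F) (s : 𝓞 F)
    (σ : F →+* ℂ) (χ : DirichletCharacter ℂ D) (cj : 𝓞 F ≃+* 𝓞 F) (w r m : ℕ)
    (c d : Ideal (𝓞 F)) (c₁ c₂ d₁ d₂ : 𝓞 F), DatD D s σ χ cj → 5 ≤ w → 1 ≤ m →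
    OBasis σ c c₁ c₂ → OBasis σ d d₁ d₂ → c ≠ ⊥ → d ≠ ⊥ →
    IsCoprime c (Ideal.span {s}) → IsCoprime d (Ideal.span {s}) →
    TT (D := D) w r m s σ (d * c.map (cj : 𝓞 F →+* 𝓞 F)) (d * c) 1 =
      ((Ideal.absNorm c : ℂ) * Ideal.absNorm d) ^ (w + r) *
        XX w r m (σ c₁) (σ c₂) (σ d₁) (σ d₂)

/-- (G38) the central value -/
def StCenD : Prop :=
  ∀ (D : ℕ) (_ : NeZero D) (F : Type) (_ : Field F) (_ : NumberField F) (s : 𝓞 F)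
    (σ : F →+* ℂ) (χ : DirichletCharacter ℂ D) (cj : 𝓞 F ≃+* 𝓞 F) (w r : ℕ)
    (f : CuspForm 𝒮ℒ (w : ℤ)) (ψ : Ideal (𝓞 F) →*₀ ℂ), DatD D s σ χ cj → IsEigen f →
    IsHecke σ (w + 2 * r) ψ → ∃ (c : Reps σ) (K : ℂ), K ≠ 0 ∧
      (∀ A, IsCoprime (c.R A : Ideal (𝓞 F)) (Ideal.span {s})) ∧
      rsD D (HH D χ w r ψ c (-r)) f = K * period f r ψ c ^ 2

/-- (G39) the analytic part for every odd fundamental discriminant: the `L`-function and its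
central value -/
def StMainD : Prop :=
  ∀ (D : ℕ) (F : Type) (_ : Field F) (_ : NumberField F) (s : F)
    (σ : F →+* ℂ) (w r : ℕ) (f : CuspForm 𝒮ℒ (w : ℤ)) (ψ : Ideal (𝓞 F) →*₀ ℂ), OddD D →
    Module.finrank ℚ F = 2 → s ^ 2 = -(D : F) → IsEigen f →
    IsHecke σ (w + 2 * r) ψ →
    ∃ Λ : ℂ → ℂ, DifferentiableOn ℂ Λ {z | -1 / 2 < z.re} ∧
      (∀ z : ℂ, 1 < z.re → HasProd (fun v : HeightOneSpectrum (𝓞 F) =>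
        (eulF f ψ ((w : ℂ) + r + z) v)⁻¹) (Λ z)) ∧
      ∀ c : Reps σ, ∃ K : ℂ, K ≠ 0 ∧ Λ 0 = K * period f r ψ c ^ 2

end RZ

end Pool.Agent.Lib.MP_7c08ba_nt
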