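import Mathlib
import Pool.Agent.Lib.MP_7c08ba_nt.RZ.StG
import Pool.Agent.Lib.MP_7c08ba_nt.Tw.Primes

set_option autoImplicit false

/-!
(G0) arithmetic of the field `ℚ(√-D)`, `D` squarefree, congruent to `3` modulo `4`.
-/

namespace Pool.Agent.Lib.MP_7c08ba_nt

namespace RZ

open NumberField MeasureTheory UpperHalfPlane Set
open scoped MatrixGroups ComplexConjugate nonZeroDivisors

namespace BasDAux

/-- Integral elements are half-integral combinations. -/
lemma exists_int_coords_sf {F : Type*} [Field F] [NumberField F] {q : ℕ} (hq0 : 0 < q)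
    (hF : Module.finrank ℚ F = 2) {s : F} (hs : s ^ 2 = -(q : F)) (hq : Squarefree q) {z : F}
    (hz : IsIntegral ℤ z) : ∃ A B : ℤ, 2 * z = A + B * s := by
  obtain ⟨a, b, rfl⟩ := exists_coords hq0 hF hs z
  obtain ⟨hN, hT⟩ := norm_trace hq0 hF hs a b
  have h1 : IsIntegral ℤ (2 * a) := by
    rw [← hT]
    exact Algebra.isIntegral_trace hz
  have h2 : IsIntegral ℤ (a ^ 2 + q * b ^ 2) := by
    rw [← hN]
    exact Algebra.isIntegral_norm ℚ hz
  obtain ⟨A, hA⟩ := IsIntegrallyClosed.isIntegral_iff.mp h1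
  obtain ⟨N, hN'⟩ := IsIntegrallyClosed.isIntegral_iff.mp h2
  have hA' : (A : ℚ) = 2 * a := hA
  have hN'' : (N : ℚ) = a ^ 2 + q * b ^ 2 := hN'
  have h3 : IsIntegral ℤ (q * (2 * b)) := by
    have h4 : ((q : ℚ) * (2 * b)) ^ 2 = ((q * (4 * N - A ^ 2) : ℤ) : ℚ) := by
      push_cast
      rw [hN'', hA']
      ring
    refine IsIntegral.of_pow (n := 2) (by norm_num) ?_
    rw [h4]
    exact isIntegral_algebraMap (R := ℤ) (A := ℚ)
  obtain ⟨C, hC⟩ := IsIntegrallyClosed.isIntegral_iff.mp h3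
  have hC' : (C : ℚ) = q * (2 * b) := hC
  have h5 : C ^ 2 = q * (4 * N - A ^ 2) := by
    have : ((C ^ 2 : ℤ) : ℚ) = ((q * (4 * N - A ^ 2) : ℤ) : ℚ) := by
      push_cast
      rw [hC', hN'', hA']
      ring
    exact_mod_cast this
  have hqz : Squarefree (q : ℤ) := Int.squarefree_natCast.mpr hq
  have h6 : (q : ℤ) ∣ C := (hqz.dvd_pow_iff_dvd two_ne_zero).mp ⟨_, h5⟩
  obtain ⟨B, rfl⟩ := h6
  have h7 : (B : ℚ) = 2 * b := by
    have hq' : (q : ℚ) ≠ 0 := by exact_mod_cast hq0.ne'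
    apply mul_left_cancel₀ hq'
    rw [← hC']
    push_cast
    rfl
  refine ⟨A, B, ?_⟩
  have h8 : ((A : ℚ) : F) = ((2 * a : ℚ) : F) := by rw [hA']
  have h9 : ((B : ℚ) : F) = ((2 * b : ℚ) : F) := by rw [h7]
  push_cast at h8 h9
  rw [h8, h9]
  ring

section

variable {q : ℕ} {F : Type} [Field F] [NumberField F] {s : 𝓞 F} {σ : F →+* ℂ}
  {χ : DirichletCharacter ℂ q} {cj : 𝓞 F ≃+* 𝓞 F} (D : DatD q s σ χ cj)

include D

lemma sqF : ((s : 𝓞 F) : F) ^ 2 = -(q : F) := by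
  have := congrArg (fun x : 𝓞 F => (x : F)) D.sq
  simpa using this

lemma sI_eq : sI (sqF D) = s := RingOfIntegers.ext rfl

lemma σ_inj {x y : 𝓞 F} (h : σ x = σ y) : x = y := RingOfIntegers.ext (σ.injective h)

lemma cj_cj (x : 𝓞 F) : cj (cj x) = x := by
  apply σ_inj D
  rw [D.conjσ, D.conjσ, Complex.conj_conj]

lemma cj_s : cj s = -s := by
  apply σ_inj D
  have h1 : ((-s : 𝓞 F) : F) = -(s : F) := by
    rw [RingOfIntegers.coe_eq_algebraMap, map_neg]
  rw [D.conjσ, h1, map_neg, D.im]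
  simp

lemma qpos : 0 < q := by
  have := D.odd.2.2
  omega

/-- half-integral coordinates -/
lemma coords (x : 𝓞 F) : ∃ a b : ℤ, 2 * x = a + b * s ∧ (2 : ℤ) ∣ a - b ∧
    4 * Algebra.norm ℤ x = a ^ 2 + q * b ^ 2 := by
  obtain ⟨A, B, hAB⟩ := exists_int_coords_sf (qpos D) D.fin (sqF D) D.odd.1 x.isIntegral_coe
  have h4 := four_norm (qpos D) D.fin (sqF D) hAB
  refine ⟨A, B, ?_, ?_, h4⟩
  · apply RingOfIntegers.ext
    change algebraMap (𝓞 F) F (2 * x) = algebraMap (𝓞 F) F (A + B * s)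
    rw [map_mul, map_add, map_mul, map_intCast, map_intCast, map_ofNat]
    exact hAB
  · obtain ⟨k, hk⟩ : ∃ k : ℤ, (q : ℤ) = 4 * k + 3 := by
      refine ⟨(q : ℤ) / 4, ?_⟩
      have := D.odd.2.1
      omega
    have h5 : (2 : ℤ) ∣ (A - B) * (A - B) := by
      refine ⟨2 * Algebra.norm ℤ x - A * B - (2 * k + 1) * B ^ 2, ?_⟩
      rw [hk] at h4
      linear_combination -h4
    rcases Int.prime_two.dvd_or_dvd h5 with h | h <;> exact h

lemma two_ne : (2 : 𝓞 F) ≠ 0 := two_ne_zero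

lemma cj_coords {x : 𝓞 F} {a b : ℤ} (h : 2 * x = a + b * s) : 2 * cj x = a - b * s := by
  have h1 := congrArg cj h
  rw [map_mul, map_ofNat, map_add, map_mul, map_intCast, map_intCast, cj_s D] at h1
  rw [h1]
  ring

lemma mul_cj_norm (x : 𝓞 F) : x * cj x = ((Algebra.norm ℤ x : ℤ) : 𝓞 F) := by
  obtain ⟨a, b, h, -, h4⟩ := coords D x
  have h2 := cj_coords D h
  have h5 : (4 : 𝓞 F) * (x * cj x) = 4 * ((Algebra.norm ℤ x : ℤ) : 𝓞 F) := by
    have h6 : ((4 * Algebra.norm ℤ x : ℤ) : 𝓞 F) = ((a ^ 2 + q * b ^ 2 : ℤ) : 𝓞 F) := by rw [h4]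
    push_cast at h6
    rw [h6]
    have h7 := D.sq
    linear_combination (2 * cj x) * h + (a + b * s) * h2 - (b : 𝓞 F) ^ 2 * h7
  have h8 : (4 : 𝓞 F) ≠ 0 := by norm_num
  exact mul_left_cancel₀ h8 h5

lemma norm_nonneg' (x : 𝓞 F) : 0 ≤ Algebra.norm ℤ x := by
  obtain ⟨a, b, -, -, h4⟩ := coords D x
  have : 0 ≤ (a ^ 2 + q * b ^ 2 : ℤ) := by positivity
  linarith

lemma absNorm_eq (x : 𝓞 F) :
    ((Ideal.absNorm (Ideal.span {x}) : ℕ) : ℤ) = Algebra.norm ℤ x := by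
  rw [Ideal.absNorm_span_singleton, Int.natAbs_of_nonneg (norm_nonneg' D x)]

lemma mul_cj (x : 𝓞 F) : x * cj x = (Ideal.absNorm (Ideal.span {x}) : 𝓞 F) := by
  rw [mul_cj_norm D, ← absNorm_eq D, Int.cast_natCast]

lemma normSq_eq (x : 𝓞 F) :
    Complex.normSq (σ x) = (Ideal.absNorm (Ideal.span {x}) : ℝ) := by
  have h1 := congrArg (fun y : 𝓞 F => σ (y : F)) (mul_cj D x)
  simp only [RingOfIntegers.coe_eq_algebraMap, map_mul, map_natCast] at h1
  have h2 := D.conjσ x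
  rw [RingOfIntegers.coe_eq_algebraMap, RingOfIntegers.coe_eq_algebraMap] at h2
  rw [h2, Complex.mul_conj] at h1
  rw [RingOfIntegers.coe_eq_algebraMap]
  exact_mod_cast h1

lemma map_span (x : 𝓞 F) :
    (Ideal.span {x}).map (cj : 𝓞 F →+* 𝓞 F) = Ideal.span {cj x} := by
  rw [Ideal.map_span, Set.image_singleton]
  rfl

lemma mul_map (a : Ideal (𝓞 F)) :
    a * a.map (cj : 𝓞 F →+* 𝓞 F) = Ideal.span {(Ideal.absNorm a : 𝓞 F)} := by
  classical
  by_cases ha : a = ⊥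
  · subst ha
    simp
  have hmem : a ∈ (Ideal (𝓞 F))⁰ := mem_nonZeroDivisors_of_ne_zero ha
  set h := Fintype.card (ClassGroup (𝓞 F)) with hh
  have hpos : h ≠ 0 := Fintype.card_ne_zero
  have h1 : ClassGroup.mk0 (⟨a, hmem⟩ ^ h) = 1 := by
    rw [map_pow, hh, pow_card_eq_one]
  have h2 : (a ^ h).IsPrincipal := by
    have h3 := (ClassGroup.mk0_eq_one_iff (pow_mem hmem h)).mp h1
    exact h3
  obtain ⟨x, hx⟩ := h2
  have hx' : a ^ h = Ideal.span {x} := hx
  have h4 : (a * a.map (cj : 𝓞 F →+* 𝓞 F)) ^ h =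
      (Ideal.span {(Ideal.absNorm a : 𝓞 F)}) ^ h := by
    rw [mul_pow, ← Ideal.map_pow, hx', map_span D, Ideal.span_singleton_mul_span_singleton,
      mul_cj D, ← hx', map_pow, Ideal.span_singleton_pow]
    push_cast
    rfl
  apply dvd_antisymm
  · exact (UniqueFactorizationMonoid.pow_dvd_pow_iff_dvd hpos).mp h4.dvd
  · exact (UniqueFactorizationMonoid.pow_dvd_pow_iff_dvd hpos).mp h4.symm.dvd

lemma units (x : 𝓞 F) (hx : IsUnit x) : x = 1 ∨ x = -1 := by
  obtain ⟨a, b, h, -, h4⟩ := coords D x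
  have h1 : Algebra.norm ℤ x = 1 := by
    rw [← absNorm_eq D, Ideal.span_singleton_eq_top.mpr hx, Ideal.absNorm_top, Nat.cast_one]
  rw [h1] at h4
  have hq7 : (7 : ℤ) ≤ q := by
    have := D.odd.2.1
    have := D.odd.2.2
    omega
  have hb : b = 0 := by
    by_contra hb
    have h5 : 1 ≤ b ^ 2 := by
      have : 0 < b ^ 2 := by positivity
      omega
    nlinarith [sq_nonneg a]
  subst hb
  have h6 : (a - 2) * (a + 2) = 0 := by linear_combination -h4
  rcases mul_eq_zero.mp h6 with h7 | h7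
  · left
    have : a = 2 := by omega
    subst this
    apply mul_left_cancel₀ (two_ne D)
    rw [h]
    push_cast
    ring
  · right
    have : a = -2 := by omega
    subst this
    apply mul_left_cancel₀ (two_ne D)
    rw [h]
    push_cast
    ring

end

end BasDAux

open BasDAux in
/-- Module G0. -/
theorem stBasD : StBasD := by
  intro q F _ _ s σ χ cj D
  have hs := sI_eq D
  refine ⟨?_, cj_cj D, cj_s D, ?_, mul_cj D, normSq_eq D, mul_map D, units D, ?_, ?_⟩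
  · intro x
    obtain ⟨a, b, h, h2, -⟩ := coords D x
    exact ⟨a, b, h, h2⟩
  · intro x
    obtain ⟨a, b, h, -, -⟩ := coords D x
    have h2 := cj_coords D h
    refine ⟨b, ?_⟩
    apply mul_left_cancel₀ (two_ne D)
    linear_combination h - h2
  · intro x
    obtain ⟨a, b, h, -, -⟩ := coords D x
    obtain ⟨k, hk⟩ : ∃ k : ℤ, (q : ℤ) = 2 * k + 1 := by
      refine ⟨(q : ℤ) / 2, ?_⟩
      have := D.odd.2.1
      omega
    have hk' : (q : 𝓞 F) = 2 * k + 1 := by exact_mod_cast congrArg (fun t : ℤ => (t : 𝓞 F)) hk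
    refine ⟨(k + 1) * a, (k + 1) * b + s * x, ?_⟩
    push_cast
    linear_combination ((k : 𝓞 F) + 1) * h - x * D.sq + x * hk'
  · intro n
    constructor
    · rintro ⟨y, hy⟩
      have h1 := congrArg (Algebra.norm ℤ) hy
      have h2 : Algebra.norm ℤ s = q := by
        have := norm_sI (qpos D) D.fin (sqF D)
        rwa [hs] at this
      rw [norm_int (qpos D) D.fin (sqF D), map_mul, h2] at h1
      have hqz : Squarefree (q : ℤ) := Int.squarefree_natCast.mpr D.odd.1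
      exact (hqz.dvd_pow_iff_dvd two_ne_zero).mp ⟨_, h1⟩
    · rintro ⟨m, rfl⟩
      refine ⟨-s * m, ?_⟩
      push_cast
      linear_combination (m : 𝓞 F) * D.sq

end RZ

end Pool.Agent.Lib.MP_7c08ba_nt
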