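import Pool.Agent.Lib.MP_7c08ba_nt.RZ.Bmul
import Pool.Agent.Lib.MP_7c08ba_nt.RZ.StG

set_option autoImplicit false

/-! Module G26: the coefficients of the Hecke character are multiplicative; prime powers
(every odd fundamental discriminant). -/

namespace Pool.Agent.Lib.MP_7c08ba_nt

namespace RZ

open NumberField MeasureTheory UpperHalfPlane Set IsDedekindDomain
open scoped MatrixGroups ComplexConjugate nonZeroDivisors

open BmulAux

theorem stBmulD (_h1 : StBasD) (h2 : StSplitD) (_h3 : StRam) : StBmulD := by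
  classical
  intro q F _ _ s σ χ cj k ψ D hψ
  have hrank : Module.finrank ℤ (𝓞 F) = 2 := by rw [RingOfIntegers.rank, D.fin]
  refine ⟨bpsi_one ψ, fun m n h => bpsi_mul ψ h, ?_, ?_, ?_⟩
  · intro p hp _ P P' hP hP' hne hPP n
    have hp0 : (p : 𝓞 F) ≠ 0 := Nat.cast_ne_zero.mpr hp.ne_zero
    have hspan : Ideal.span {(p : 𝓞 F)} ≠ ⊥ := by
      rw [Ne, Ideal.span_singleton_eq_bot]
      exact hp0
    have hP0 : P ≠ ⊥ := by
      rintro rfl
      rw [Ideal.bot_mul] at hPP
      exact hspan hPP.symm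
    have hP'0 : P' ≠ ⊥ := by
      rintro rfl
      rw [Ideal.mul_bot] at hPP
      exact hspan hPP.symm
    have hN : Ideal.absNorm P * Ideal.absNorm P' = p ^ 2 := by
      rw [← map_mul, hPP, Ideal.absNorm_span_natCast, hrank]
    obtain ⟨hNP, hNP'⟩ := (hp.mul_eq_prime_sq_iff
      (fun h => hP.ne_top (Ideal.absNorm_eq_one_iff.mp h))
      (fun h => hP'.ne_top (Ideal.absNorm_eq_one_iff.mp h))).mp hN
    have hPm : P.IsMaximal := hP.isMaximal hP0
    have hP'm : P'.IsMaximal := hP'.isMaximal hP'0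
    have huniq : ∀ Q : Ideal (𝓞 F), Q.IsMaximal → (p : 𝓞 F) ∈ Q → Q = P ∨ Q = P' := by
      intro Q hQ hpQ
      have h3 : P * P' ≤ Q := by
        rw [hPP, Ideal.span_singleton_le_iff_mem]
        exact hpQ
      rcases (Ideal.IsPrime.mul_le hQ.isPrime).mp h3 with h4 | h4
      · exact Or.inl (hPm.eq_of_le hQ.ne_top h4).symm
      · exact Or.inr (hP'm.eq_of_le hQ.ne_top h4).symm
    have hex : ∀ (n : ℕ) (b : Ideal (𝓞 F)), Ideal.absNorm b = p ^ n →
        ∃ i ≤ n, b = P ^ i * P' ^ (n - i) := by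
      intro n
      induction n with
      | zero =>
        intro b hb
        rw [pow_zero, Ideal.absNorm_eq_one_iff] at hb
        exact ⟨0, le_rfl, by rw [hb]; simp⟩
      | succ n ih =>
        intro b hb
        obtain ⟨Q, hQ, hpQ, b', rfl⟩ := exists_factor (Nat.succ_ne_zero n) hp.one_lt hb
        rw [map_mul] at hb
        rcases huniq Q hQ hpQ with rfl | rfl
        · rw [hNP, pow_succ, mul_comm] at hb
          obtain ⟨i, hi, rfl⟩ := ih b' (Nat.eq_of_mul_eq_mul_right hp.pos hb)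
          refine ⟨i + 1, by omega, ?_⟩
          rw [Nat.succ_sub_succ, pow_succ, ← mul_assoc, mul_comm Q]
        · rw [hNP', pow_succ, mul_comm] at hb
          obtain ⟨i, hi, rfl⟩ := ih b' (Nat.eq_of_mul_eq_mul_right hp.pos hb)
          refine ⟨i, by omega, ?_⟩
          rw [Nat.succ_sub hi, pow_succ, mul_comm Q, mul_assoc]
    have hinj : ∀ i j : ℕ, i < j → j ≤ n → P ^ i * P' ^ (n - i) ≠ P ^ j * P' ^ (n - j) := by
      intro i j hij hjn h3
      have h4 : P ^ j = P ^ i * P ^ (j - i) := by rw [← pow_add, Nat.add_sub_cancel' hij.le]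
      rw [h4, mul_assoc] at h3
      have h5 : P' ^ (n - i) = P ^ (j - i) * P' ^ (n - j) :=
        mul_left_cancel₀ (pow_ne_zero i hP0) h3
      have h6 : P' ^ (n - i) ≤ P := by
        rw [h5]
        exact Ideal.mul_le_left.trans (Ideal.pow_le_self (by omega))
      have h7 : P' ≤ P := (Ideal.IsPrime.pow_le_iff (by omega)).mp h6
      exact hne (hP'm.eq_of_le hP.ne_top h7).symm
    let g : Fin (n + 1) → Idn F (p ^ n) := fun i =>
      ⟨P ^ (i : ℕ) * P' ^ (n - i), by
        rw [map_mul, map_pow, map_pow, hNP, hNP', ← pow_add, Nat.add_sub_cancel' (by omega)]⟩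
    have hg : Function.Bijective g := by
      constructor
      · intro i j hij
        have h3 : P ^ (i : ℕ) * P' ^ (n - i) = P ^ (j : ℕ) * P' ^ (n - j) :=
          congrArg Subtype.val hij
        rcases lt_trichotomy (i : ℕ) (j : ℕ) with h4 | h4 | h4
        · exact absurd h3 (hinj _ _ h4 (by omega))
        · exact Fin.ext h4
        · exact absurd h3.symm (hinj _ _ h4 (by omega))
      · rintro ⟨b, hb⟩
        obtain ⟨i, hi, h3⟩ := hex n b hb
        exact ⟨⟨i, by omega⟩, Subtype.ext h3.symm⟩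
    have := Fintype.ofFinite (Idn F (p ^ n))
    unfold bψ
    rw [tsum_fintype, ← (Equiv.ofBijective g hg).sum_comp, Finset.sum_range]
    refine Finset.sum_congr rfl fun i _ => ?_
    change ψ (P ^ (i : ℕ) * P' ^ (n - i)) = _
    rw [map_mul, map_pow, map_pow]
  · intro p hp hj n
    obtain ⟨hpr, hNp⟩ := (h2 q F _ _ s σ χ cj D p hp).2.1 hj
    have hp0 : (p : 𝓞 F) ≠ 0 := Nat.cast_ne_zero.mpr hp.ne_zero
    have hspan : Ideal.span {(p : 𝓞 F)} ≠ ⊥ := by
      rw [Ne, Ideal.span_singleton_eq_bot]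
      exact hp0
    have hmax : (Ideal.span {(p : 𝓞 F)}).IsMaximal := hpr.isMaximal hspan
    have huniq : ∀ Q : Ideal (𝓞 F), Q.IsMaximal → (p : 𝓞 F) ∈ Q →
        Q = Ideal.span {(p : 𝓞 F)} := by
      intro Q hQ hpQ
      refine (hmax.eq_of_le hQ.ne_top ?_).symm
      rw [Ideal.span_singleton_le_iff_mem]
      exact hpQ
    have hpow := pow_of_unique hp.one_lt huniq hNp two_ne_zero
    constructor
    · have : IsEmpty (Idn F (p ^ (2 * n + 1))) := by
        constructor
        rintro ⟨b, hb⟩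
        obtain ⟨j, hj, -⟩ := hpow _ b hb
        omega
      unfold bψ
      exact tsum_empty
    · have h3 : Ideal.absNorm (Ideal.span {(p : 𝓞 F)} ^ n) = p ^ (2 * n) := by
        rw [map_pow, hNp, pow_mul]
      have h4 : ∀ b : Idn F (p ^ (2 * n)), b = ⟨Ideal.span {(p : 𝓞 F)} ^ n, h3⟩ := by
        rintro ⟨b, hb⟩
        obtain ⟨j, hj, hb'⟩ := hpow _ b hb
        have : j = n := by omega
        subst this
        exact Subtype.ext hb'
      unfold bψ
      rw [tsum_eq_single (⟨Ideal.span {(p : 𝓞 F)} ^ n, h3⟩ : Idn F (p ^ (2 * n)))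
        (fun b hb => absurd (h4 b) hb)]
      change ψ (Ideal.span {(p : 𝓞 F)} ^ n) = _
      rw [map_pow, hψ _ hp0]
      simp
  · intro p hp hpD n
    have hj : jacobiSym (p : ℤ) q = 0 := by
      have hq : q ≠ 0 := by
        have := D.odd.2.1
        omega
      have : NeZero q := ⟨hq⟩
      rw [jacobiSym.eq_zero_iff_not_coprime, Int.gcd_natCast_natCast]
      have hg : Nat.gcd p q = p := Nat.gcd_eq_left hpD
      rw [hg]
      exact hp.one_lt.ne'
    obtain ⟨-, hpr, hsq, hNs⟩ := (h2 q F _ _ s σ χ cj D p hp).2.2 hj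
    have hspan : ram s p ≠ ⊥ := by
      intro h3
      rw [h3, Ideal.absNorm_bot] at hNs
      exact hp.ne_zero hNs.symm
    have hmax : (ram s p).IsMaximal := hpr.isMaximal hspan
    have huniq : ∀ Q : Ideal (𝓞 F), Q.IsMaximal → (p : 𝓞 F) ∈ Q → Q = ram s p := by
      intro Q hQ hpQ
      refine (hmax.eq_of_le hQ.ne_top ?_).symm
      have h3 : ram s p ^ 2 ≤ Q := by
        rw [hsq, Ideal.span_singleton_le_iff_mem]
        exact hpQ
      exact ((@Ideal.IsPrime.pow_le_iff _ _ _ _ hQ.isPrime) two_ne_zero).mp h3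
    have hpow := pow_of_unique hp.one_lt huniq (e := 1) (by rw [hNs, pow_one]) one_ne_zero
    have h3 : Ideal.absNorm (ram s p ^ n) = p ^ n := by rw [map_pow, hNs]
    have h4 : ∀ b : Idn F (p ^ n), b = ⟨ram s p ^ n, h3⟩ := by
      rintro ⟨b, hb⟩
      obtain ⟨j, hj, hb'⟩ := hpow _ b hb
      have : j = n := by omega
      subst this
      exact Subtype.ext hb'
    unfold bψ
    rw [tsum_eq_single (⟨ram s p ^ n, h3⟩ : Idn F (p ^ n))
      (fun b hb => absurd (h4 b) hb)]
    change ψ (ram s p ^ n) = _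
    rw [map_pow]

end RZ

end Pool.Agent.Lib.MP_7c08ba_nt
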