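import Pool.Agent.Lib.MP_7c08ba_nt.RZ.StA

set_option autoImplicit false

/-! (A20) Fourier coefficients of cusp forms of level one. -/

namespace Pool.Agent.Lib.MP_7c08ba_nt

namespace RZ

open NumberField MeasureTheory UpperHalfPlane Set
open scoped MatrixGroups ComplexConjugate nonZeroDivisors Real

namespace CoefAux

variable {w : ℕ} (f : CuspForm 𝒮ℒ (w : ℤ))

theorem hasSum (z : ℂ) (hz : 0 < z.im) :
    HasSum (fun n : ℕ => coef f n * ee (n * z)) (f (ofComplex z)) := by
  have h := ModularForm.hasSum_qExpansion f one_pos one_mem_strictPeriods_SL (ofComplex z)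
  convert h using 2 with n
  rw [coef]
  congr 1
  rw [ofComplex_apply_of_im_pos hz, Function.Periodic.qParam, ← Complex.exp_nat_mul, ee]
  congr 1
  simp only [Complex.ofReal_one, div_one]
  change _ = _ * (2 * π * Complex.I * z)
  ring

theorem norm_ee (z : ℂ) (n : ℕ) : ‖ee (n * z)‖ = Real.exp (-(2 * π * z.im)) ^ n := by
  rw [ee, Complex.norm_exp, ← Real.exp_nat_mul]
  congr 1
  simp
  ring

end CoefAux

open CoefAux in
theorem stCoef : StCoef := by
  intro w f
  have h0 : coef f 0 = 0 := CuspFormClass.qExpansion_coeff_zero f one_pos one_mem_strictPeriods_SL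
  have hsum := hasSum f
  have hsn : ∀ z : ℂ, 0 < z.im → Summable (fun n : ℕ => ‖coef f n * ee (n * z)‖) := fun z hz =>
    (hsum z hz).summable.norm
  obtain ⟨C, hC⟩ := CuspFormClass.exists_bound f
  have hC' : ∀ z : ℂ, 0 < z.im → ‖f (ofComplex z)‖ * z.im ^ ((w : ℝ) / 2) ≤ C := by
    intro z hz
    have h := hC (ofComplex z)
    have h1 : (ofComplex z).im = z.im := by
      rw [ofComplex_apply_of_im_pos hz]; rfl
    rw [h1, Int.cast_natCast, le_div_iff₀ (Real.rpow_pos_of_pos hz _)] at h
    exact h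
  have hC0 : 0 ≤ C :=
    le_trans (mul_nonneg (norm_nonneg _) (Real.rpow_nonneg (by simp) _)) (hC' Complex.I (by simp))
  refine ⟨h0, ⟨Real.exp (2 * π) * C, fun n => ?_⟩, fun z hz => ⟨hsn z hz, (hsum z hz).tsum_eq.symm⟩,
    ⟨C, hC'⟩, ?_⟩
  · rcases Nat.eq_zero_or_pos n with rfl | hn
    · rw [h0, norm_zero]
      positivity
    have hn' : (0 : ℝ) < n := by exact_mod_cast hn
    have ht : (0 : ℝ) < 1 / n := by positivity
    have h := ModularFormClass.qExpansion_coeff_eq_intervalIntegral f one_pos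
      one_mem_strictPeriods_SL n ht
    change coef f n = _ at h
    rw [h]
    have hb : ∀ u ∈ Set.uIoc (0 : ℝ) 1,
        ‖1 / Function.Periodic.qParam 1 (u + (1 / n : ℝ) * Complex.I) ^ n *
          f ⟨u + (1 / n : ℝ) * Complex.I, by simpa using ht⟩‖ ≤
          Real.exp (2 * π) * C * (n : ℝ) ^ ((w : ℝ) / 2) := by
      intro u _
      rw [norm_mul, norm_div, norm_one, norm_pow, Function.Periodic.norm_qParam]
      have h1 : Real.exp (-2 * π * ((u : ℂ) + (1 / n : ℝ) * Complex.I).im / 1) ^ n =
          Real.exp (-(2 * π)) := by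
        rw [← Real.exp_nat_mul]
        congr 1
        simp
        field_simp
      rw [h1, one_div, ← Real.exp_neg, neg_neg, mul_assoc]
      refine mul_le_mul_of_nonneg_left ?_ (Real.exp_pos _).le
      have h2 := hC ⟨u + (1 / n : ℝ) * Complex.I, by simpa using ht⟩
      refine h2.trans (le_of_eq ?_)
      have h3 : (⟨u + (1 / n : ℝ) * Complex.I, by simpa using ht⟩ : ℍ).im = 1 / (n : ℝ) := by
        change ((u : ℂ) + (1 / n : ℝ) * Complex.I).im = _
        simp
      rw [h3, Int.cast_natCast, Real.div_rpow zero_le_one hn'.le, Real.one_rpow]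
      field_simp
    have h4 := intervalIntegral.norm_integral_le_of_norm_le_const hb
    simpa using h4
  · set D := ∑' n : ℕ, ‖coef f (n + 1)‖ * Real.exp (-π) ^ n with hD
    have hs0 : Summable fun n : ℕ => ‖coef f (n + 1)‖ * Real.exp (-π) ^ n := by
      have h1 := hsn (Complex.I / 2) (by simp)
      have h2 := (summable_nat_add_iff 1).2 h1
      have h3 := h2.mul_left (Real.exp π)
      refine h3.congr fun n => ?_
      rw [norm_mul, norm_ee]
      have h4 : Real.exp (-(2 * π * (Complex.I / 2).im)) = Real.exp (-π) := by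
        congr 1
        simp
        ring
      rw [h4, pow_succ]
      have h5 : Real.exp π * Real.exp (-π) = 1 := by rw [← Real.exp_add]; simp
      linear_combination (‖coef f (n + 1)‖ * Real.exp (-π) ^ n) * h5
    refine ⟨D, fun z hz => ?_⟩
    have hz0 : 0 < z.im := by linarith
    have hs1 := hsn z hz0
    have h1 : ‖f (ofComplex z)‖ ≤ ∑' n : ℕ, ‖coef f n * ee (n * z)‖ := by
      rw [← (hsum z hz0).tsum_eq]
      exact norm_tsum_le_tsum_norm hs1
    rw [hs1.tsum_eq_zero_add, h0, zero_mul, norm_zero, zero_add] at h1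
    refine h1.trans ?_
    rw [hD, ← tsum_mul_right]
    refine Summable.tsum_le_tsum (fun n => ?_) ((summable_nat_add_iff 1).2 hs1)
      (hs0.mul_right _)
    rw [norm_mul, norm_ee, pow_succ, ← mul_assoc]
    refine mul_le_mul_of_nonneg_right ?_ (Real.exp_pos _).le
    refine mul_le_mul_of_nonneg_left ?_ (norm_nonneg _)
    refine pow_le_pow_left₀ (Real.exp_pos _).le ?_ n
    refine Real.exp_le_exp.2 ?_
    nlinarith [Real.pi_pos]

end RZ

end Pool.Agent.Lib.MP_7c08ba_nt
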