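import Mathlib
import Pool.Agent.Lib.MP_7c08ba_nt.RZ.StB

set_option autoImplicit false

/-!
(B9) the number of ideals of given norm in the imaginary quadratic field.
-/

namespace Pool.Agent.Lib.MP_7c08ba_nt

namespace RZ

open NumberField
open scoped nonZeroDivisors

namespace CountAux

variable {F : Type} [Field F] [NumberField F]

lemma natCast_norm_mem (b : Ideal (𝓞 F)) : ((Ideal.absNorm b : ℕ) : 𝓞 F) ∈ b :=
  Ideal.absNorm_mem b

lemma coprime_of_norm {a b : Ideal (𝓞 F)} {m n : ℕ} (h : m.Coprime n) (ha : Ideal.absNorm a = m)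
    (hb : Ideal.absNorm b = n) : IsCoprime a b := by
  rw [Ideal.isCoprime_iff_exists]
  have h1 := Nat.gcd_eq_gcd_ab m n
  rw [Nat.coprime_iff_gcd_eq_one.mp h] at h1
  refine ⟨(m : 𝓞 F) * (Nat.gcdA m n : 𝓞 F), ?_, (n : 𝓞 F) * (Nat.gcdB m n : 𝓞 F), ?_, ?_⟩
  · rw [← ha]
    exact Ideal.mul_mem_right _ _ (natCast_norm_mem a)
  · rw [← hb]
    exact Ideal.mul_mem_right _ _ (natCast_norm_mem b)
  · have h2 : ((1 : ℤ) : 𝓞 F) = ((m * Nat.gcdA m n + n * Nat.gcdB m n : ℤ) : 𝓞 F) := by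
      exact_mod_cast congrArg (Int.cast : ℤ → 𝓞 F) h1
    push_cast at h2
    exact h2.symm

lemma card_mul {m n : ℕ} (hm : m ≠ 0) (hn : n ≠ 0) (h : m.Coprime n) :
    Nat.card {b : Ideal (𝓞 F) // Ideal.absNorm b = m * n} =
      Nat.card {b : Ideal (𝓞 F) // Ideal.absNorm b = m} *
        Nat.card {b : Ideal (𝓞 F) // Ideal.absNorm b = n} := by
  rw [← Nat.card_prod]
  symm
  refine Nat.card_eq_of_bijective (fun x => ⟨x.1.1 * x.2.1, by
    rw [map_mul, x.1.2, x.2.2]⟩) ⟨?_, ?_⟩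
  · rintro ⟨⟨a, ha⟩, ⟨b, hb⟩⟩ ⟨⟨a', ha'⟩, ⟨b', hb'⟩⟩ hx
    have hx' : a * b = a' * b' := congrArg Subtype.val hx
    have h1 : a ∣ a' := (coprime_of_norm h ha hb').dvd_of_dvd_mul_right (hx' ▸ dvd_mul_right a b)
    have h2 : a' ∣ a :=
      (coprime_of_norm h ha' hb).dvd_of_dvd_mul_right (hx' ▸ dvd_mul_right a' b')
    have h3 : a = a' := dvd_antisymm h1 h2
    subst h3
    have ha0 : a ≠ 0 := by
      rintro rfl
      simp at ha
      exact hm ha.symm
    have h4 : b = b' := mul_left_cancel₀ ha0 hx'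
    subst h4
    rfl
  · rintro ⟨c, hc⟩
    have hcop : IsCoprime ((m : ℕ) : 𝓞 F) ((n : ℕ) : 𝓞 F) := Nat.Coprime.cast h
    have hcm : ((m : ℕ) : 𝓞 F) * ((n : ℕ) : 𝓞 F) ∈ c := by
      have := natCast_norm_mem c
      rw [hc] at this
      push_cast at this
      exact this
    have hprod : (c ⊔ Ideal.span {((m : ℕ) : 𝓞 F)}) * (c ⊔ Ideal.span {((n : ℕ) : 𝓞 F)}) = c := by
      apply le_antisymm
      · rw [Ideal.sup_mul, Ideal.mul_sup, Ideal.mul_sup]
        refine sup_le (sup_le (Ideal.mul_le_left) (Ideal.mul_le_left)) (sup_le (Ideal.mul_le_right) ?_)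
        rw [Ideal.span_singleton_mul_span_singleton, Ideal.span_singleton_le_iff_mem]
        exact hcm
      · have h1 : c * (Ideal.span {((m : ℕ) : 𝓞 F)} ⊔ Ideal.span {((n : ℕ) : 𝓞 F)}) = c := by
          rw [← Ideal.isCoprime_span_singleton_iff] at hcop
          rw [hcop.sup_eq, Ideal.mul_top]
        conv_lhs => rw [← h1]
        rw [Ideal.mul_sup]
        refine sup_le ?_ ?_
        · rw [mul_comm]
          exact Ideal.mul_mono le_sup_right le_sup_left
        · exact Ideal.mul_mono le_sup_left le_sup_right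
    have key : Ideal.absNorm (c ⊔ Ideal.span {((m : ℕ) : 𝓞 F)}) *
        Ideal.absNorm (c ⊔ Ideal.span {((n : ℕ) : 𝓞 F)}) = m * n := by
      rw [← map_mul, hprod, hc]
    have d1 : Ideal.absNorm (c ⊔ Ideal.span {((m : ℕ) : 𝓞 F)}) ∣ m ^ Module.finrank ℤ (𝓞 F) := by
      have := Ideal.absNorm_dvd_absNorm_of_le
        (le_sup_right : Ideal.span {((m : ℕ) : 𝓞 F)} ≤ c ⊔ Ideal.span {((m : ℕ) : 𝓞 F)})
      rwa [Ideal.absNorm_span_natCast] at this
    have d2 : Ideal.absNorm (c ⊔ Ideal.span {((n : ℕ) : 𝓞 F)}) ∣ n ^ Module.finrank ℤ (𝓞 F) := by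
      have := Ideal.absNorm_dvd_absNorm_of_le
        (le_sup_right : Ideal.span {((n : ℕ) : 𝓞 F)} ≤ c ⊔ Ideal.span {((n : ℕ) : 𝓞 F)})
      rwa [Ideal.absNorm_span_natCast] at this
    set A := Ideal.absNorm (c ⊔ Ideal.span {((m : ℕ) : 𝓞 F)}) with hA
    set B := Ideal.absNorm (c ⊔ Ideal.span {((n : ℕ) : 𝓞 F)}) with hB
    have e1 : A ∣ m := (Nat.Coprime.coprime_dvd_left d1 (h.pow_left _)).dvd_of_dvd_mul_right
      (key ▸ dvd_mul_right A B)
    have e2 : B ∣ n := (Nat.Coprime.coprime_dvd_left d2 (h.symm.pow_left _)).dvd_of_dvd_mul_left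
      (key ▸ dvd_mul_left B A)
    have f1 : A ≤ m := Nat.le_of_dvd (Nat.pos_of_ne_zero hm) e1
    have f2 : B ≤ n := Nat.le_of_dvd (Nat.pos_of_ne_zero hn) e2
    have hB0 : 0 < B := Nat.pos_of_dvd_of_pos e2 (Nat.pos_of_ne_zero hn)
    have hA0 : 0 < A := Nat.pos_of_dvd_of_pos e1 (Nat.pos_of_ne_zero hm)
    have g1 : A = m := by
      by_contra hne
      have : A < m := lt_of_le_of_ne f1 hne
      nlinarith
    have g2 : B = n := by
      rw [g1] at key
      exact Nat.eq_of_mul_eq_mul_left (Nat.pos_of_ne_zero hm) key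
    exact ⟨⟨⟨_, g1⟩, ⟨_, g2⟩⟩, Subtype.ext hprod⟩

lemma dvd_span_of_norm {b : Ideal (𝓞 F)} {p k : ℕ} (hb : Ideal.absNorm b = p ^ k) :
    b ∣ Ideal.span {((p : ℕ) : 𝓞 F)} ^ k := by
  rw [Ideal.span_singleton_pow, Ideal.dvd_iff_le, Ideal.span_singleton_le_iff_mem]
  have := natCast_norm_mem b
  rw [hb] at this
  push_cast at this
  exact this

lemma prime_of {P : Ideal (𝓞 F)} (h : P.IsPrime) (h0 : P ≠ ⊥) : Prime P :=
  (Ideal.prime_iff_isPrime h0).mpr h

lemma ne_bot_of_norm {P : Ideal (𝓞 F)} {n : ℕ} (hn : n ≠ 0) (h : Ideal.absNorm P = n) :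
    P ≠ ⊥ := by
  rintro rfl
  simp at h
  exact hn h.symm

/-- split primes -/
lemma card_split {p : ℕ} (hp : p.Prime) {P P' : Ideal (𝓞 F)} (h1 : P.IsPrime) (h2 : P'.IsPrime)
    (h3 : P ≠ P') (h4 : P * P' = Ideal.span {((p : ℕ) : 𝓞 F)}) (h5 : Ideal.absNorm P = p)
    (h6 : Ideal.absNorm P' = p) (k : ℕ) :
    Nat.card {b : Ideal (𝓞 F) // Ideal.absNorm b = p ^ k} = k + 1 := by
  have hP0 := ne_bot_of_norm hp.ne_zero h5
  have hP0' := ne_bot_of_norm hp.ne_zero h6
  have hP := prime_of h1 hP0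
  have hP' := prime_of h2 hP0'
  have key : ∀ i j : ℕ, i < j → j ≤ k → P ^ i * P' ^ (k - i) ≠ P ^ j * P' ^ (k - j) := by
    intro i j hij hj h
    obtain ⟨t, rfl⟩ := Nat.exists_eq_add_of_lt hij
    have h7 : P' ^ (k - i) = P ^ (t + 1) * P' ^ (k - (i + t + 1)) := by
      apply mul_left_cancel₀ (pow_ne_zero i hP.ne_zero)
      rw [h, ← mul_assoc, ← pow_add, add_assoc]
    have h8 : P ∣ P' ^ (k - i) := by
      rw [h7]
      exact (dvd_pow_self P (Nat.succ_ne_zero t)).mul_right _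
    have h9 : P ∣ P' := hP.dvd_of_dvd_pow h8
    exact h3 (associated_iff_eq.mp ((hP.dvd_prime_iff_associated hP').mp h9))
  symm
  rw [← Nat.card_fin (k + 1)]
  refine Nat.card_eq_of_bijective (fun i : Fin (k + 1) => ⟨P ^ (i : ℕ) * P' ^ (k - i), by
    rw [map_mul, map_pow, map_pow, h5, h6, ← pow_add]
    congr 1
    have := i.2
    omega⟩) ⟨?_, ?_⟩
  · intro i j hij
    have h7 : P ^ (i : ℕ) * P' ^ (k - i) = P ^ (j : ℕ) * P' ^ (k - j) := congrArg Subtype.val hij
    rcases lt_trichotomy (i : ℕ) j with h | h | h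
    · exact absurd h7 (key i j h (by have := j.2; omega))
    · exact Fin.ext h
    · exact absurd h7.symm (key j i h (by have := i.2; omega))
  · rintro ⟨b, hb⟩
    have h7 := dvd_span_of_norm hb
    rw [← h4, mul_pow] at h7
    obtain ⟨d1, d2, h8, h9, rfl⟩ := exists_dvd_and_dvd_of_dvd_mul h7
    obtain ⟨i, hi, h10⟩ := (dvd_prime_pow hP k).mp h8
    obtain ⟨j, hj, h11⟩ := (dvd_prime_pow hP' k).mp h9
    rw [associated_iff_eq] at h10 h11
    subst h10 h11
    rw [map_mul, map_pow, map_pow, h5, h6, ← pow_add] at hb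
    have h12 : i + j = k := Nat.pow_right_injective hp.two_le hb
    refine ⟨⟨i, by omega⟩, Subtype.ext ?_⟩
    have h13 : k - i = j := by omega
    simp only [h13]

/-- the ideals of norm `p ^ k` when `p` is a power of a prime ideal -/
lemma card_power {p : ℕ} (hp : p.Prime) {P : Ideal (𝓞 F)} (h1 : P.IsPrime) {e f : ℕ}
    (h4 : P ^ e = Ideal.span {((p : ℕ) : 𝓞 F)}) (h5 : Ideal.absNorm P = p ^ f) (k : ℕ) (hf : f ≠ 0) :
    Nat.card {b : Ideal (𝓞 F) // Ideal.absNorm b = p ^ k} = if f ∣ k then 1 else 0 := by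
  have hP0 := ne_bot_of_norm (pow_ne_zero f hp.ne_zero) h5
  have hP := prime_of h1 hP0
  have key : ∀ b : Ideal (𝓞 F), Ideal.absNorm b = p ^ k → ∃ i : ℕ, b = P ^ i ∧ f * i = k := by
    intro b hb
    have h7 := dvd_span_of_norm hb
    rw [← h4, ← pow_mul] at h7
    obtain ⟨i, hi, h10⟩ := (dvd_prime_pow hP _).mp h7
    rw [associated_iff_eq] at h10
    subst h10
    rw [map_pow, h5, ← pow_mul] at hb
    exact ⟨i, rfl, Nat.pow_right_injective hp.two_le hb⟩
  split_ifs with h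
  · obtain ⟨i, rfl⟩ := h
    rw [Nat.card_eq_one_iff_unique]
    refine ⟨⟨?_⟩, ⟨⟨P ^ i, by rw [map_pow, h5, ← pow_mul]⟩⟩⟩
    rintro ⟨b, hb⟩ ⟨b', hb'⟩
    obtain ⟨j, rfl, hj⟩ := key b hb
    obtain ⟨j', rfl, hj'⟩ := key b' hb'
    have h11 : j = j' := by
      apply Nat.eq_of_mul_eq_mul_left (Nat.pos_of_ne_zero hf)
      rw [hj, hj']
    subst h11
    rfl
  · rw [Nat.card_eq_zero]
    left
    refine ⟨fun x => ?_⟩
    obtain ⟨i, -, hi⟩ := key x.1 x.2
    exact h ⟨i, hi.symm⟩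

/-- the Jacobi symbol as an arithmetic function -/
noncomputable def jac (q : ℕ) : ArithmeticFunction ℤ :=
  ⟨fun n => if n = 0 then 0 else jacobiSym (n : ℤ) q, by simp⟩

lemma jac_apply {q n : ℕ} (hn : n ≠ 0) : jac q n = jacobiSym (n : ℤ) q := by
  change (if n = 0 then 0 else jacobiSym (n : ℤ) q) = _
  rw [if_neg hn]

lemma jac_mult (q : ℕ) : (jac q).IsMultiplicative := by
  refine ⟨?_, ?_⟩
  · rw [jac_apply one_ne_zero]
    simp
  · intro m n _
    rcases eq_or_ne m 0 with rfl | hm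
    · simp
    rcases eq_or_ne n 0 with rfl | hn
    · simp
    rw [jac_apply hm, jac_apply hn, jac_apply (mul_ne_zero hm hn)]
    push_cast
    exact jacobiSym.mul_left _ _ _

lemma sum_jac {q n : ℕ} : ∑ d ∈ n.divisors, jacobiSym (d : ℤ) q =
    (jac q * (ArithmeticFunction.zeta : ArithmeticFunction ℤ)) n := by
  rw [ArithmeticFunction.coe_mul_zeta_apply]
  refine Finset.sum_congr rfl fun d hd => ?_
  rw [jac_apply]
  exact (Nat.pos_of_mem_divisors hd).ne'

end CountAux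

open CountAux in
/-- (B9) the number of ideals of given norm -/
theorem stCount (h1 : StBas) (h2 : StSplit) : StCount := by
  intro q F iF iN s σ χ cj D n
  have _ := h1
  induction n using Nat.recOnPosPrimePosCoprime with
  | prime_pow p k hp hk =>
    intro _
    obtain ⟨g1, g2, g3⟩ := h2 q F iF iN s σ χ cj D p hp
    rw [Nat.sum_divisors_prime_pow hp]
    have hJ : ∀ i : ℕ, jacobiSym ((p ^ i : ℕ) : ℤ) q = jacobiSym (p : ℤ) q ^ i := by
      intro i
      push_cast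
      exact jacobiSym.pow_left _ _ _
    simp only [hJ]
    rcases jacobiSym.trichotomy (p : ℤ) q with h | h | h
    · obtain ⟨rfl, h3, h4, h5⟩ := g3 h
      rw [card_power hp h3 h4 (f := 1) (by rw [h5, pow_one]) k one_ne_zero, h,
        Finset.sum_range_succ']
      simp
    · obtain ⟨P, P', h3, h4, h5, h6, h7, h8⟩ := g1 h
      rw [card_split hp h3 h4 h5 h6 h7 h8, h]
      simp
    · obtain ⟨h3, h4⟩ := g2 h
      rw [card_power hp h3 (pow_one _) h4 k two_ne_zero, h]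
      rcases Nat.even_or_odd k with hk' | hk'
      · rw [if_pos hk'.two_dvd, Finset.sum_range_succ, hk'.neg_one_pow]
        rw [Finset.sum_congr rfl fun _ _ => rfl, ← Nat.succ_pred_eq_of_pos hk]
        have := neg_one_geom_sum (R := ℤ) (n := k)
        rw [if_pos hk'] at this
        simp only [Nat.succ_eq_add_one, Nat.pred_eq_sub_one, Nat.sub_add_cancel hk]
        rw [this]
        simp
      · rw [if_neg (by rw [← even_iff_two_dvd]; exact Nat.not_even_iff_odd.mpr hk')]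
        have := neg_one_geom_sum (R := ℤ) (n := k + 1)
        rw [if_pos (by rw [Nat.even_add_one]; exact Nat.not_even_iff_odd.mpr hk')] at this
        rw [this]
        simp
  | zero => intro h; omega
  | one =>
    intro _
    have h3 : Nat.card {b : Ideal (𝓞 F) // Ideal.absNorm b = 1} = 1 := by
      rw [Nat.card_eq_one_iff_unique]
      refine ⟨⟨?_⟩, ⟨⟨⊤, by simp⟩⟩⟩
      rintro ⟨b, hb⟩ ⟨b', hb'⟩
      rw [Ideal.absNorm_eq_one_iff] at hb hb'
      subst hb hb'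
      rfl
    rw [h3]
    simp
  | coprime a b ha hb hab iha ihb =>
    intro _
    rw [card_mul (by omega) (by omega) hab]
    push_cast
    rw [iha (by omega), ihb (by omega)]
    simp only [sum_jac]
    rw [((jac_mult q).mul ArithmeticFunction.isMultiplicative_zeta.natCast).map_mul_of_coprime hab]

end RZ

end Pool.Agent.Lib.MP_7c08ba_nt
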