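import Mathlib
import Pool.Agent.Lib.MP_7c08ba_nt.RZ.StG
import Pool.Agent.Lib.MP_7c08ba_nt.RZ.Count

set_option autoImplicit false

/-!
(G11) the number of ideals of given norm in the imaginary quadratic field of odd discriminant.
-/

namespace Pool.Agent.Lib.MP_7c08ba_nt

namespace RZ

open NumberField
open scoped nonZeroDivisors

open CountAux in
/-- (G11) the number of ideals of given norm -/
theorem stCountD (h1 : StBasD) (h2 : StSplitD) : StCountD := by
  intro D F iF iN s σ χ cj hD n
  have _ := h1
  induction n using Nat.recOnPosPrimePosCoprime with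
  | prime_pow p k hp hk =>
    intro _
    obtain ⟨g1, g2, g3⟩ := h2 D F iF iN s σ χ cj hD p hp
    rw [Nat.sum_divisors_prime_pow hp]
    have hJ : ∀ i : ℕ, jacobiSym ((p ^ i : ℕ) : ℤ) D = jacobiSym (p : ℤ) D ^ i := by
      intro i
      push_cast
      exact jacobiSym.pow_left _ _ _
    simp only [hJ]
    rcases jacobiSym.trichotomy (p : ℤ) D with h | h | h
    · obtain ⟨-, h3, h4, h5⟩ := g3 h
      rw [card_power hp h3 h4 (f := 1) (by rw [h5, pow_one]) k one_ne_zero, h,
        Finset.sum_range_succ']
      simp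
    · obtain ⟨P, P', h3, h4, h5, h6, h7, h8⟩ := g1 h
      rw [card_split hp h3 h4 h5 h6 h7 h8, h]
      simp
    · obtain ⟨h3, h4⟩ := g2 h
      rw [card_power hp h3 (pow_one _) h4 k two_ne_zero, h]
      rcases Nat.even_or_odd k with hk' | hk'
      · rw [if_pos hk'.two_dvd, Finset.sum_range_succ, hk'.neg_one_pow]
        rw [Finset.sum_congr rfl fun _ _ => rfl, ← Nat.succ_pred_eq_of_pos hk]
        have := neg_one_geom_sum (R := ℤ) (n := k)
        rw [if_pos hk'] at this
        simp only [Nat.succ_eq_add_one, Nat.pred_eq_sub_one, Nat.sub_add_cancel hk]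
        rw [this]
        simp
      · rw [if_neg (by rw [← even_iff_two_dvd]; exact Nat.not_even_iff_odd.mpr hk')]
        have := neg_one_geom_sum (R := ℤ) (n := k + 1)
        rw [if_pos (by rw [Nat.even_add_one]; exact Nat.not_even_iff_odd.mpr hk')] at this
        rw [this]
        simp
  | zero => intro h; omega
  | one =>
    intro _
    have h3 : Nat.card {b : Ideal (𝓞 F) // Ideal.absNorm b = 1} = 1 := by
      rw [Nat.card_eq_one_iff_unique]
      refine ⟨⟨?_⟩, ⟨⟨⊤, by simp⟩⟩⟩
      rintro ⟨b, hb⟩ ⟨b', hb'⟩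
      rw [Ideal.absNorm_eq_one_iff] at hb hb'
      subst hb hb'
      rfl
    rw [h3]
    simp
  | coprime a b ha hb hab iha ihb =>
    intro _
    rw [card_mul (by omega) (by omega) hab]
    push_cast
    rw [iha (by omega), ihb (by omega)]
    simp only [sum_jac]
    rw [((jac_mult D).mul ArithmeticFunction.isMultiplicative_zeta.natCast).map_mul_of_coprime hab]

end RZ

end Pool.Agent.Lib.MP_7c08ba_nt
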