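import Mathlib
import Pool.Agent.Lib.MP_7c08ba_nt.RZ.StA

set_option autoImplicit false

/-! (A13) Taylor coefficients of the kernel identity. -/

namespace Pool.Agent.Lib.MP_7c08ba_nt

namespace RZ

open NumberField MeasureTheory UpperHalfPlane Set
open scoped MatrixGroups ComplexConjugate nonZeroDivisors

namespace DefoAux

/-! ### power series with parameters -/

theorem hsc {f g : ℕ → ℂ} {a b : ℂ} (h : HasSum g b) (hfg : ∀ n, f n = g n) (hab : a = b) :
    HasSum f a := by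
  rw [hab, funext hfg]
  exact h

/-- exchange of the sum over the parameters and the power series -/
theorem swap {ι : Type*} {a : ι → ℕ → ℂ} {u : ι → ℂ → ℂ} {R : ℝ} {M : ι → ℝ} {t : ℕ → ℝ}
    (hM : Summable M) (hM0 : ∀ i, 0 ≤ M i) (ht : Summable t) (ht0 : ∀ n, 0 ≤ t n)
    (hb : ∀ i n, ‖a i n‖ * R ^ n ≤ M i * t n)
    (hu : ∀ i (ε : ℂ), ‖ε‖ < R → HasSum (fun n => a i n * ε ^ n) (u i ε)) (ε : ℂ) (hε : ‖ε‖ < R) :
    HasSum (fun n => (∑' i, a i n) * ε ^ n) (∑' i, u i ε) ∧ Summable (fun i => u i ε) ∧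
      ∀ n, Summable (fun i => a i n) := by
  have hR : 0 < R := lt_of_le_of_lt (norm_nonneg _) hε
  have hsum : Summable (fun p : ι × ℕ => a p.1 p.2 * ε ^ p.2) := by
    refine Summable.of_norm_bounded (hM.mul_of_nonneg ht hM0 ht0) (fun p => ?_)
    rw [norm_mul, norm_pow]
    refine le_trans ?_ (hb p.1 p.2)
    gcongr
  have hn : ∀ n, Summable (fun i => a i n) := by
    intro n
    refine Summable.of_norm_bounded (g := fun i => M i * (t n / R ^ n))
      (hM.mul_right _) (fun i => ?_)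
    have h1 := hb i n
    rw [← mul_div_assoc, le_div_iff₀ (pow_pos hR n)]
    exact h1
  have h1 : HasSum (fun i => u i ε) (∑' p : ι × ℕ, a p.1 p.2 * ε ^ p.2) :=
    hsum.hasSum.prod_fiberwise (fun i => hu i ε hε)
  have h2 : HasSum (fun p : ℕ × ι => a p.2 p.1 * ε ^ p.1) (∑' p : ι × ℕ, a p.1 p.2 * ε ^ p.2) := by
    have := (Equiv.prodComm ℕ ι).hasSum_iff.2 hsum.hasSum
    exact this
  have h3 : HasSum (fun n => (∑' i, a i n) * ε ^ n) (∑' p : ι × ℕ, a p.1 p.2 * ε ^ p.2) :=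
    h2.prod_fiberwise (fun n => ((hn n).hasSum.mul_right _))
  refine ⟨?_, h1.summable, hn⟩
  rw [h1.tsum_eq]
  exact h3

theorem coef_unique {A : ℕ → ℂ} {Φ : ℂ → ℂ} {R : ℝ} (hR : 0 < R)
    (h : ∀ ε : ℂ, ‖ε‖ < R → HasSum (fun n => A n * ε ^ n) (Φ ε)) (n : ℕ) :
    A n = iteratedDeriv n Φ 0 / n.factorial := by
  have h1 : HasFPowerSeriesAt Φ (FormalMultilinearSeries.ofScalars ℂ A) 0 := by
    rw [hasFPowerSeriesAt_iff]
    filter_upwards [Metric.ball_mem_nhds (0 : ℂ) hR] with z hz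
    rw [mem_ball_zero_iff] at hz
    simp only [FormalMultilinearSeries.coeff_ofScalars, smul_eq_mul, zero_add]
    simpa only [mul_comm] using h z hz
  have h2 := h1.analyticAt.hasFPowerSeriesAt
  have h3 := h1.eq_formalMultilinearSeries h2
  have h4 := congrArg (fun p : FormalMultilinearSeries ℂ ℂ ℂ => p.coeff n) h3
  simpa [FormalMultilinearSeries.coeff_ofScalars] using h4

/-- multiplication of a power series by a power of the variable -/
theorem shift {B : ℕ → ℂ} {δ S : ℂ} (s : ℕ) (h : HasSum (fun n => B n * δ ^ n) S) :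
    HasSum (fun n => (if s ≤ n then B (n - s) else 0) * δ ^ n) (δ ^ s * S) := by
  have h1 : Function.Injective (fun n : ℕ => n + s) := fun a b hab => by simpa using hab
  refine (h1.hasSum_iff (f := fun n => (if s ≤ n then B (n - s) else 0) * δ ^ n) ?_).1 ?_
  · intro n hn
    rw [if_neg, zero_mul]
    intro hsn
    exact hn ⟨n - s, by simp; omega⟩
  · have h2 := h.mul_left (δ ^ s)
    have h3 : ((fun n => (if s ≤ n then B (n - s) else 0) * δ ^ n) ∘ fun n : ℕ => n + s) =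
        fun n => δ ^ s * (B n * δ ^ n) := by
      funext n
      simp only [Function.comp_apply]
      rw [if_pos (by omega), Nat.add_sub_cancel, pow_add]
      ring
    rw [h3]
    exact h2

/-! ### the general step -/

section gen

variable {ι : Type*} {al be : ι → ℂ} {k : ℕ}

/-- binomial series -/
theorem binom (k : ℕ) {x : ℂ} (hx : ‖x‖ < 1) :
    HasSum (fun n : ℕ => ((n + k).choose k : ℂ) * (-x) ^ n) (((1 + x) ^ (k + 1))⁻¹) := by
  have h := hasSum_choose_mul_geometric_of_norm_lt_one (𝕜 := ℂ) k (r := -x) (by simpa using hx)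
  simpa [one_div, sub_neg_eq_add] using h

theorem sumbin (k : ℕ) {t : ℝ} (h0 : 0 ≤ t) (h1 : t < 1) :
    Summable (fun n : ℕ => ((n + k).choose k : ℝ) * t ^ n) :=
  summable_choose_mul_geometric_of_norm_lt_one k (by rwa [Real.norm_of_nonneg h0])

/-- coefficients of the first expansion -/
noncomputable def a1 (al be : ι → ℂ) (k : ℕ) (δ : ℂ) (i : ι) (n : ℕ) : ℂ :=
  ((conj (al i) + δ * be i) ^ (k + 1))⁻¹ *
    (((n + k).choose k : ℂ) * (-((conj (be i) + δ * al i) / (conj (al i) + δ * be i))) ^ n)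

theorem normP (hal : ∀ i, al i ≠ 0) (hbe : ∀ i, ‖be i‖ ≤ ‖al i‖) {δ : ℂ} (hδ : ‖δ‖ < 1 / 4) (i : ι) :
    3 / 4 * ‖al i‖ ≤ ‖conj (al i) + δ * be i‖ ∧ 0 < ‖al i‖ ∧
      conj (al i) + δ * be i ≠ 0 := by
  have h0 : 0 < ‖al i‖ := norm_pos_iff.2 (hal i)
  have h1 : ‖conj (al i)‖ - ‖δ * be i‖ ≤ ‖conj (al i) + δ * be i‖ := by
    have := norm_sub_norm_le (conj (al i)) (-(δ * be i))
    simpa using this
  rw [RCLike.norm_conj, norm_mul] at h1
  have h2 : ‖δ‖ * ‖be i‖ ≤ 1 / 4 * ‖al i‖ :=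
    mul_le_mul hδ.le (hbe i) (norm_nonneg _) (by norm_num)
  have h3 : 3 / 4 * ‖al i‖ ≤ ‖conj (al i) + δ * be i‖ := by linarith
  refine ⟨h3, h0, ?_⟩
  intro h4
  rw [h4, norm_zero] at h3
  linarith

theorem step1 (hal : ∀ i, al i ≠ 0) (hbe : ∀ i, ‖be i‖ ≤ ‖al i‖)
    (hs : Summable fun i => (‖al i‖ ^ (k + 1))⁻¹) {δ : ℂ} (hδ : ‖δ‖ < 1 / 4) (ε : ℂ)
    (hε : ‖ε‖ < 1 / 4) :
    HasSum (fun n => (∑' i, a1 al be k δ i n) * ε ^ n)
      (∑' i, ((conj (al i) + δ * be i + ε * (conj (be i) + δ * al i)) ^ (k + 1))⁻¹) ∧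
    ∀ n, Summable (fun i => a1 al be k δ i n) := by
  have hq : ∀ i, ‖(conj (be i) + δ * al i) / (conj (al i) + δ * be i)‖ ≤ 5 / 3 := by
    intro i
    obtain ⟨h1, h2, h3⟩ := normP hal hbe hδ i
    rw [norm_div, div_le_iff₀ (lt_of_lt_of_le (by positivity) h1)]
    have h4 : ‖conj (be i) + δ * al i‖ ≤ ‖be i‖ + ‖δ‖ * ‖al i‖ := by
      refine (norm_add_le _ _).trans ?_
      rw [RCLike.norm_conj, norm_mul]
    have h5 : ‖δ‖ * ‖al i‖ ≤ 1 / 4 * ‖al i‖ := mul_le_mul_of_nonneg_right hδ.le h2.le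
    have h6 := hbe i
    linarith
  have key := swap (a := a1 al be k δ)
    (u := fun i ε => ((conj (al i) + δ * be i + ε * (conj (be i) + δ * al i)) ^ (k + 1))⁻¹)
    (R := 1 / 4) (M := fun i => (4 / 3) ^ (k + 1) * (‖al i‖ ^ (k + 1))⁻¹)
    (t := fun n => ((n + k).choose k : ℝ) * (5 / 12) ^ n)
    (hs.mul_left _) (fun i => by positivity) (sumbin k (by norm_num) (by norm_num))
    (fun n => by positivity) ?_ ?_ ε hε
  · exact ⟨key.1, key.2.2⟩
  · intro i n
    obtain ⟨h1, h2, h3⟩ := normP hal hbe hδ i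
    unfold a1
    rw [norm_mul, norm_mul, norm_inv, norm_pow, norm_pow, norm_neg, RCLike.norm_natCast]
    have h4 : (‖conj (al i) + δ * be i‖ ^ (k + 1))⁻¹ ≤ (4 / 3) ^ (k + 1) * (‖al i‖ ^ (k + 1))⁻¹ := by
      rw [← div_eq_mul_inv, le_div_iff₀ (by positivity), inv_mul_le_iff₀ (by positivity),
        ← mul_pow]
      apply pow_le_pow_left₀ h2.le
      linarith
    have h5 : ‖(conj (be i) + δ * al i) / (conj (al i) + δ * be i)‖ ^ n ≤ (5 / 3) ^ n :=
      pow_le_pow_left₀ (norm_nonneg _) (hq i) n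
    calc (‖conj (al i) + δ * be i‖ ^ (k + 1))⁻¹ * (((n + k).choose k : ℝ) *
          ‖(conj (be i) + δ * al i) / (conj (al i) + δ * be i)‖ ^ n) * (1 / 4) ^ n
        ≤ ((4 / 3) ^ (k + 1) * (‖al i‖ ^ (k + 1))⁻¹) * (((n + k).choose k : ℝ) * (5 / 3) ^ n) *
          (1 / 4) ^ n := by gcongr
      _ = _ := by
        rw [show (5 / 12 : ℝ) = 5 / 3 * (1 / 4) by norm_num, mul_pow]
        ring
  · intro i ε hε
    obtain ⟨h1, h2, h3⟩ := normP hal hbe hδ i
    have h4 : ‖(conj (be i) + δ * al i) / (conj (al i) + δ * be i) * ε‖ < 1 := by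
      rw [norm_mul]
      have := hq i
      have h5 : ‖(conj (be i) + δ * al i) / (conj (al i) + δ * be i)‖ * ‖ε‖ ≤ 5 / 3 * ‖ε‖ :=
        mul_le_mul_of_nonneg_right this (norm_nonneg _)
      linarith
    have h5 := (binom k h4).mul_left (((conj (al i) + δ * be i) ^ (k + 1))⁻¹)
    have h6 : ((conj (al i) + δ * be i) ^ (k + 1))⁻¹ *
        ((1 + (conj (be i) + δ * al i) / (conj (al i) + δ * be i) * ε) ^ (k + 1))⁻¹ =
        ((conj (al i) + δ * be i + ε * (conj (be i) + δ * al i)) ^ (k + 1))⁻¹ := by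
      rw [← mul_inv, ← mul_pow]
      congr 2
      field_simp
    rw [h6] at h5
    refine hsc h5 (fun n => ?_) rfl
    unfold a1
    rw [← neg_mul, mul_pow]
    ring

/-- the polynomial -/
theorem step2 (hal : ∀ i, al i ≠ 0) (hbe : ∀ i, ‖be i‖ ≤ ‖al i‖)
    (hs : Summable fun i => (‖al i‖ ^ (k + 1))⁻¹) (r : ℕ) :
    (Summable fun i => ‖((conj (al i)) ^ (k + 1 + r))⁻¹ * al i ^ r *
      Jr (k + 1) r (Complex.normSq (be i) / Complex.normSq (al i))‖) ∧
    ∃ e : ℕ → ℂ, (e r = (-1) ^ r * ((k + r).choose r : ℂ) * ∑' i, ((conj (al i)) ^ (k + 1 + r))⁻¹ *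
        al i ^ r * Jr (k + 1) r (Complex.normSq (be i) / Complex.normSq (al i))) ∧
      ∀ δ : ℂ, ‖δ‖ < 1 / 4 → HasSum (fun n => e n * δ ^ n) (∑' i, a1 al be k δ i r) := by
  set κ : ι → ℂ := fun i => ((conj (al i)) ^ (k + 1 + r))⁻¹ * al i ^ r with hκ
  set b : ι → ℂ := fun i => be i / conj (al i) with hb
  have hκn : ∀ i, ‖κ i‖ = (‖al i‖ ^ (k + 1))⁻¹ := by
    intro i
    have h0 : 0 < ‖al i‖ := norm_pos_iff.2 (hal i)
    rw [hκ, norm_mul, norm_inv, norm_pow, norm_pow, RCLike.norm_conj, pow_add]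
    field_simp
  have hbn : ∀ i, ‖b i‖ ≤ 1 := by
    intro i
    have h0 : 0 < ‖al i‖ := norm_pos_iff.2 (hal i)
    rw [hb, norm_div, RCLike.norm_conj, div_le_one h0]
    exact hbe i
  -- the expansions for each `j`
  set c : ℕ → ι → ℕ → ℂ := fun j i n =>
    κ i * conj (b i) ^ j * (((n + (k + r)).choose (k + r) : ℂ) * (-b i) ^ n) with hc
  have hsw : ∀ (j : ℕ) (δ : ℂ), ‖δ‖ < 1 / 4 →
      HasSum (fun n => (∑' i, c j i n) * δ ^ n)
        (∑' i, κ i * conj (b i) ^ j * ((1 + δ * b i) ^ (k + r + 1))⁻¹) ∧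
      Summable (fun i => κ i * conj (b i) ^ j * ((1 + δ * b i) ^ (k + r + 1))⁻¹) ∧
      ∀ n, Summable (fun i => c j i n) := by
    intro j δ hδ
    refine swap (a := c j)
      (u := fun i δ => κ i * conj (b i) ^ j * ((1 + δ * b i) ^ (k + r + 1))⁻¹)
      (R := 1 / 4) (M := fun i => (‖al i‖ ^ (k + 1))⁻¹)
      (t := fun n => ((n + (k + r)).choose (k + r) : ℝ) * (1 / 4) ^ n)
      hs (fun i => by positivity) (sumbin (k + r) (by norm_num) (by norm_num))
      (fun n => by positivity) ?_ ?_ δ hδ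
    · intro i n
      rw [hc]
      simp only [norm_mul, norm_pow, norm_neg, RCLike.norm_natCast, RCLike.norm_conj, hκn]
      have h1 : ‖b i‖ ^ j ≤ 1 := pow_le_one₀ (norm_nonneg _) (hbn i)
      have h2 : ‖b i‖ ^ n ≤ 1 := pow_le_one₀ (norm_nonneg _) (hbn i)
      calc (‖al i‖ ^ (k + 1))⁻¹ * ‖b i‖ ^ j *
            (((n + (k + r)).choose (k + r) : ℝ) * ‖b i‖ ^ n) * (1 / 4) ^ n
          ≤ (‖al i‖ ^ (k + 1))⁻¹ * 1 * (((n + (k + r)).choose (k + r) : ℝ) * 1) * (1 / 4) ^ n := by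
            gcongr
        _ = _ := by ring
    · intro i δ hδ
      have h1 : ‖b i * δ‖ < 1 := by
        rw [norm_mul]
        have := mul_le_mul_of_nonneg_right (hbn i) (norm_nonneg δ)
        linarith
      have h2 := (binom (k + r) h1).mul_left (κ i * conj (b i) ^ j)
      rw [mul_comm (b i) δ] at h2
      refine hsc h2 (fun n => ?_) rfl
      rw [hc]
      simp only
      rw [← mul_neg, mul_pow]
      ring
  -- the function as a finite combination
  have hfun : ∀ δ : ℂ, ‖δ‖ < 1 / 4 → ∀ i, a1 al be k δ i r =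
      (-1) ^ r * ((k + r).choose r : ℂ) * ∑ j ∈ Finset.range (r + 1), ((r.choose j : ℂ) *
        (δ ^ (r - j) * (κ i * conj (b i) ^ j * ((1 + δ * b i) ^ (k + r + 1))⁻¹))) := by
    intro δ hδ i
    obtain ⟨h1, h2, h3⟩ := normP hal hbe hδ i
    have ha : al i ≠ 0 := hal i
    have ha' : conj (al i) ≠ 0 := by simpa using ha
    have hP : conj (al i) + δ * be i = conj (al i) * (1 + δ * b i) := by
      rw [hb]; field_simp
    have hQ : conj (be i) + δ * al i = al i * (conj (b i) + δ) := by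
      rw [hb]; simp only [map_div₀, Complex.conj_conj]; field_simp
    have h1' : 1 + δ * b i ≠ 0 := by
      intro h; rw [h, mul_zero] at hP; exact h3 hP
    have hbin : (conj (b i) + δ) ^ r = ∑ j ∈ Finset.range (r + 1),
        conj (b i) ^ j * δ ^ (r - j) * (r.choose j : ℂ) := add_pow _ _ _
    have hch : ((r + k).choose k : ℂ) = ((k + r).choose r : ℂ) := by
      rw [add_comm r k, Nat.choose_symm_add]
    unfold a1
    rw [hP, hQ, hch]
    have h4 : ((conj (al i) * (1 + δ * b i)) ^ (k + 1))⁻¹ * (((k + r).choose r : ℂ) *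
        (-(al i * (conj (b i) + δ) / (conj (al i) * (1 + δ * b i)))) ^ r) =
        (-1) ^ r * ((k + r).choose r : ℂ) * ((conj (b i) + δ) ^ r *
          (κ i * ((1 + δ * b i) ^ (k + r + 1))⁻¹)) := by
      rw [hκ]
      rw [neg_pow, div_pow, mul_pow, mul_pow, mul_pow]
      field_simp
      ring
    rw [h4, hbin, Finset.sum_mul]
    congr 1
    refine Finset.sum_congr rfl fun j _ => ?_
    ring
  have hxx : ∀ i, b i * conj (b i) = (Complex.normSq (be i) : ℂ) / Complex.normSq (al i) := by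
    intro i
    have ha : al i ≠ 0 := hal i
    have ha' : conj (al i) ≠ 0 := by simpa using ha
    rw [hb]
    simp only [map_div₀, Complex.conj_conj]
    rw [Complex.normSq_eq_conj_mul_self, Complex.normSq_eq_conj_mul_self]
    field_simp
  have hJ : ∀ i, κ i * Jr (k + 1) r (Complex.normSq (be i) / Complex.normSq (al i)) =
      ∑ j ∈ Finset.range (r + 1), (r.choose j : ℂ) * c j i j := by
    intro i
    unfold Jr
    rw [Finset.mul_sum]
    refine Finset.sum_congr rfl fun j _ => ?_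
    have h5 : ((k + 1 + r + j - 1).choose j : ℂ) = ((j + (k + r)).choose (k + r) : ℂ) := by
      rw [show k + 1 + r + j - 1 = j + (k + r) by omega, Nat.choose_symm_add]
    rw [h5, ← hxx, hc, neg_pow, mul_pow]
    simp only
    rw [neg_pow (b i)]
    ring
  have h00 : ‖(0 : ℂ)‖ < 1 / 4 := by simp
  refine ⟨?_, fun n => (-1) ^ r * ((k + r).choose r : ℂ) * ∑ j ∈ Finset.range (r + 1),
    ((r.choose j : ℂ) * (if r - j ≤ n then ∑' i, c j i (n - (r - j)) else 0)), ?_, ?_⟩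
  · have h6 : (fun i => ‖((conj (al i)) ^ (k + 1 + r))⁻¹ * al i ^ r *
        Jr (k + 1) r (Complex.normSq (be i) / Complex.normSq (al i))‖) =
        fun i => ‖∑ j ∈ Finset.range (r + 1), (r.choose j : ℂ) * c j i j‖ := by
      funext i
      rw [← hJ i]
    rw [h6]
    exact (summable_sum fun j _ => ((hsw j 0 h00).2.2 j).mul_left _).norm
  · simp only
    congr 1
    have h7 : ∀ j ∈ Finset.range (r + 1), (r.choose j : ℂ) *
        (if r - j ≤ r then ∑' i, c j i (r - (r - j)) else 0) =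
        ∑' i, (r.choose j : ℂ) * c j i j := by
      intro j hj
      rw [Finset.mem_range] at hj
      rw [if_pos (by omega), show r - (r - j) = j by omega, tsum_mul_left]
    rw [Finset.sum_congr rfl h7, ← Summable.tsum_finsetSum]
    · exact tsum_congr fun i => (hJ i).symm
    · intro j _
      exact ((hsw j 0 h00).2.2 j).mul_left _
  · intro δ hδ
    have h8 : ∑' i, a1 al be k δ i r = (-1) ^ r * ((k + r).choose r : ℂ) *
        ∑ j ∈ Finset.range (r + 1), ((r.choose j : ℂ) * (δ ^ (r - j) *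
          ∑' i, κ i * conj (b i) ^ j * ((1 + δ * b i) ^ (k + r + 1))⁻¹)) := by
      rw [tsum_congr (hfun δ hδ), tsum_mul_left, Summable.tsum_finsetSum]
      · congr 1
        refine Finset.sum_congr rfl fun j _ => ?_
        rw [tsum_mul_left, tsum_mul_left]
      · intro j _
        exact (((hsw j δ hδ).2.1).mul_left _).mul_left _
    rw [h8]
    have h9 : HasSum (fun n => ∑ j ∈ Finset.range (r + 1), ((r.choose j : ℂ) *
        ((if r - j ≤ n then ∑' i, c j i (n - (r - j)) else 0) * δ ^ n)))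
        (∑ j ∈ Finset.range (r + 1), ((r.choose j : ℂ) * (δ ^ (r - j) *
          ∑' i, κ i * conj (b i) ^ j * ((1 + δ * b i) ^ (k + r + 1))⁻¹))) :=
      hasSum_sum fun j _ => (shift (r - j) (hsw j δ hδ).1).mul_left _
    have h10 := h9.mul_left ((-1) ^ r * ((k + r).choose r : ℂ))
    refine hsc h10 (fun n => ?_) rfl
    rw [mul_assoc, Finset.sum_mul]
    congr 1
    refine Finset.sum_congr rfl fun j _ => ?_
    ring

end gen

/-! ### the matrices -/

theorem normSq_identity (a b c d : ℝ) (c₁ c₂ d₁ d₂ : ℂ) :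
    Complex.normSq (((a : ℂ) * d₁ + b * d₂) * conj c₂ - ((c : ℂ) * d₁ + d * d₂) * conj c₁) -
      Complex.normSq (((a : ℂ) * d₁ + b * d₂) * c₂ - ((c : ℂ) * d₁ + d * d₂) * c₁) =
      4 * (a * d - b * c) * (c₁ * conj c₂).im * (d₁ * conj d₂).im := by
  simp [Complex.normSq_apply]
  ring

theorem norm_le {m : ℕ} (hm : 1 ≤ m) {c₁ c₂ d₁ d₂ : ℂ} (hc : 0 < (c₁ * conj c₂).im)
    (hd : 0 < (d₁ * conj d₂).im) (g : DetM m) :
    ‖bil g.1 c₁ c₂ d₁ d₂‖ ≤ ‖bil g.1 (conj c₁) (conj c₂) d₁ d₂‖ := by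
  have h1 := normSq_identity (g.1 0 0) (g.1 0 1) (g.1 1 0) (g.1 1 1) c₁ c₂ d₁ d₂
  have h2 : ((g.1 0 0 : ℝ) * (g.1 1 1 : ℝ) - (g.1 0 1 : ℝ) * (g.1 1 0 : ℝ)) = m := by
    have h3 := g.2
    rw [Matrix.det_fin_two] at h3
    exact_mod_cast h3
  rw [h2] at h1
  have h4 : 0 ≤ 4 * (m : ℝ) * (c₁ * conj c₂).im * (d₁ * conj d₂).im := by positivity
  have h5 : Complex.normSq (bil g.1 c₁ c₂ d₁ d₂) ≤
      Complex.normSq (bil g.1 (conj c₁) (conj c₂) d₁ d₂) := by
    unfold bil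
    simp only [Complex.ofReal_intCast] at h1
    linarith
  rw [Complex.normSq_eq_norm_sq, Complex.normSq_eq_norm_sq] at h5
  exact le_of_sq_le_sq h5 (norm_nonneg _)

theorem bil_conj (g : Matrix (Fin 2) (Fin 2) ℤ) (c₁ c₂ d₁ d₂ : ℂ) :
    bil g c₁ c₂ (conj d₁) (conj d₂) = conj (bil g (conj c₁) (conj c₂) d₁ d₂) := by
  unfold bil
  simp

theorem bil_expand (g : Matrix (Fin 2) (Fin 2) ℤ) (c₁ c₂ d₁ d₂ ε δ : ℂ) :
    bil g (c₁ + ε * conj c₁) (c₂ + ε * conj c₂) (conj d₁ + δ * d₁) (conj d₂ + δ * d₂) =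
      conj (bil g (conj c₁) (conj c₂) d₁ d₂) + δ * bil g c₁ c₂ d₁ d₂ +
        ε * (conj (bil g c₁ c₂ d₁ d₂) + δ * bil g (conj c₁) (conj c₂) d₁ d₂) := by
  unfold bil
  simp
  ring

theorem im_x (c₁ c₂ ε : ℂ) : ((c₁ + ε * conj c₁) * conj (c₂ + ε * conj c₂)).im =
    (1 - ‖ε‖ ^ 2) * (c₁ * conj c₂).im := by
  rw [← Complex.normSq_eq_norm_sq]
  simp [Complex.normSq_apply]
  ring

theorem im_y (d₁ d₂ δ : ℂ) : ((conj d₁ + δ * d₁) * conj (conj d₂ + δ * d₂)).im =
    -((1 - ‖δ‖ ^ 2) * (d₁ * conj d₂).im) := by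
  rw [← Complex.normSq_eq_norm_sq]
  simp [Complex.normSq_apply]
  ring

end DefoAux

open DefoAux in
/-- (A13) Taylor coefficients of the kernel identity -/
theorem stDefo (h : StMatS) : StDefo := by
  intro w r f β c₁ c₂ d₁ d₂ hw hβ hker hc hd
  obtain ⟨k, rfl⟩ : ∃ k, w = k + 1 := ⟨w - 1, by omega⟩
  have hdd : (conj d₁ * conj (conj d₂)).im < 0 := by
    have : (conj d₁ * conj (conj d₂)).im = -(d₁ * conj d₂).im := by
      simp; ring
    rw [this]
    linarith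
  -- the data for each `m`
  have hal : ∀ m : ℕ, 1 ≤ m → ∀ g : DetM m, bil g.1 (conj c₁) (conj c₂) d₁ d₂ ≠ 0 := by
    intro m hm g h0
    have := (h (k + 1) m c₁ c₂ (conj d₁) (conj d₂) hw hm hc hdd).1 g
    rw [bil_conj, h0] at this
    simp at this
  have hs : ∀ m : ℕ, 1 ≤ m → Summable fun g : DetM m =>
      (‖bil g.1 (conj c₁) (conj c₂) d₁ d₂‖ ^ (k + 1))⁻¹ := by
    intro m hm
    have := (h (k + 1) m c₁ c₂ (conj d₁) (conj d₂) hw hm hc hdd).2
    refine this.congr fun g => ?_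
    rw [bil_conj, norm_inv, norm_pow, RCLike.norm_conj]
  have hm0 : ∀ m ∈ β.support, 1 ≤ m := by
    intro m hm
    rcases Nat.eq_zero_or_pos m with rfl | h1
    · rw [Finsupp.mem_support_iff] at hm
      exact absurd hβ hm
    · exact h1
  refine ⟨fun m hm => (step2 (hal m hm) (norm_le hm hc hd) (hs m hm) r).1, ?_⟩
  -- first step
  have hone : ∀ δ : ℂ, ‖δ‖ < 1 / 4 →
      ∑ m ∈ β.support, β m * ∑' g : DetM m, a1 (fun g : DetM m =>
        bil g.1 (conj c₁) (conj c₂) d₁ d₂) (fun g : DetM m => bil g.1 c₁ c₂ d₁ d₂) k δ g r =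
      2 * Cw (k + 1) * lfr f r c₁ c₂ * lf f (-(conj d₁ + δ * d₁)) (conj d₂ + δ * d₂) := by
    intro δ hδ
    have h1 := coef_unique (A := fun n => ∑ m ∈ β.support, β m * ∑' g : DetM m,
        a1 (fun g : DetM m => bil g.1 (conj c₁) (conj c₂) d₁ d₂)
          (fun g : DetM m => bil g.1 c₁ c₂ d₁ d₂) k δ g n)
      (Φ := fun ε => (2 * Cw (k + 1) * lf f (-(conj d₁ + δ * d₁)) (conj d₂ + δ * d₂)) *
        lf f (c₁ + ε * conj c₁) (c₂ + ε * conj c₂)) (R := 1 / 4) (by norm_num) ?_ r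
    · rw [h1, iteratedDeriv_const_mul_field, lfr]
      ring
    · intro ε hε
      have h2 : ∀ m ∈ β.support, HasSum (fun n => (β m * ∑' g : DetM m,
          a1 (fun g : DetM m => bil g.1 (conj c₁) (conj c₂) d₁ d₂)
            (fun g : DetM m => bil g.1 c₁ c₂ d₁ d₂) k δ g n) * ε ^ n)
          (β m * ∑' g : DetM m, ((bil g.1 (c₁ + ε * conj c₁) (c₂ + ε * conj c₂)
            (conj d₁ + δ * d₁) (conj d₂ + δ * d₂)) ^ (k + 1))⁻¹) := by
        intro m hm
        have h3 := ((step1 (hal m (hm0 m hm)) (norm_le (hm0 m hm) hc hd) (hs m (hm0 m hm)) hδ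
          ε hε).1).mul_left (β m)
        simp only [bil_expand]
        exact hsc h3 (fun n => by ring) rfl
      have h4 := hasSum_sum h2
      have hx : 0 < ((c₁ + ε * conj c₁) * conj (c₂ + ε * conj c₂)).im := by
        rw [im_x]
        have : ‖ε‖ ^ 2 < 1 := by nlinarith [norm_nonneg ε]
        exact mul_pos (by linarith) hc
      have hy : ((conj d₁ + δ * d₁) * conj (conj d₂ + δ * d₂)).im < 0 := by
        rw [im_y]
        have : ‖δ‖ ^ 2 < 1 := by nlinarith [norm_nonneg δ]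
        have := mul_pos (show 0 < 1 - ‖δ‖ ^ 2 by linarith) hd
        linarith
      have h5 := hker _ _ _ _ hx hy
      rw [Finsupp.sum] at h5
      rw [h5] at h4
      refine hsc h4 (fun n => ?_) (by ring)
      rw [Finset.sum_mul]
  -- second step
  have h2 : ∀ m ∈ β.support, ∃ e : ℕ → ℂ,
      (e r = (-1) ^ r * ((k + r).choose r : ℂ) * ∑' g : DetM m,
        ((conj (bil g.1 (conj c₁) (conj c₂) d₁ d₂)) ^ (k + 1 + r))⁻¹ *
        bil g.1 (conj c₁) (conj c₂) d₁ d₂ ^ r * Jr (k + 1) r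
          (Complex.normSq (bil g.1 c₁ c₂ d₁ d₂) /
            Complex.normSq (bil g.1 (conj c₁) (conj c₂) d₁ d₂))) ∧
      ∀ δ : ℂ, ‖δ‖ < 1 / 4 → HasSum (fun n => e n * δ ^ n) (∑' g : DetM m, a1 (fun g : DetM m =>
        bil g.1 (conj c₁) (conj c₂) d₁ d₂) (fun g : DetM m => bil g.1 c₁ c₂ d₁ d₂) k δ g r) :=
    fun m hm => (step2 (hal m (hm0 m hm)) (norm_le (hm0 m hm) hc hd) (hs m (hm0 m hm)) r).2
  choose! e he1 he2 using h2
  have h3 := coef_unique (A := fun n => ∑ m ∈ β.support, β m * e m n)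
    (Φ := fun δ => (2 * Cw (k + 1) * lfr f r c₁ c₂) *
      lf f (-(conj d₁ + δ * d₁)) (conj d₂ + δ * d₂)) (R := 1 / 4) (by norm_num) ?_ r
  · have h4 : iteratedDeriv r (fun δ : ℂ => lf f (-(conj d₁ + δ * d₁)) (conj d₂ + δ * d₂)) 0 /
        (r.factorial : ℂ) = lfr f r (-conj d₁) (conj d₂) := by
      rw [lfr]
      congr 2
      funext δ
      congr 1
      · simp; ring
      · simp
    rw [iteratedDeriv_const_mul_field, mul_div_assoc, h4] at h3
    have h5 : ∑ m ∈ β.support, β m * e m r = (-1) ^ r * ((k + r).choose r : ℂ) *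
        β.sum (fun m b => b * ∑' g : DetM m,
        ((conj (bil g.1 (conj c₁) (conj c₂) d₁ d₂)) ^ (k + 1 + r))⁻¹ *
        bil g.1 (conj c₁) (conj c₂) d₁ d₂ ^ r * Jr (k + 1) r
          (Complex.normSq (bil g.1 c₁ c₂ d₁ d₂) /
            Complex.normSq (bil g.1 (conj c₁) (conj c₂) d₁ d₂))) := by
      rw [Finsupp.sum, Finset.mul_sum]
      refine Finset.sum_congr rfl fun m hm => ?_
      rw [he1 m hm]
      ring
    rw [h5] at h3
    have h6 : ((-1 : ℂ) ^ r) * (-1) ^ r = 1 := by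
      rw [← mul_pow]; norm_num
    rw [show k + 1 + r - 1 = k + r by omega]
    linear_combination (-1) ^ r * h3 - ((k + r).choose r : ℂ) * β.sum (fun m b => b * ∑' g : DetM m,
        ((conj (bil g.1 (conj c₁) (conj c₂) d₁ d₂)) ^ (k + 1 + r))⁻¹ *
        bil g.1 (conj c₁) (conj c₂) d₁ d₂ ^ r * Jr (k + 1) r
          (Complex.normSq (bil g.1 c₁ c₂ d₁ d₂) /
            Complex.normSq (bil g.1 (conj c₁) (conj c₂) d₁ d₂))) * h6
  · intro δ hδ
    have h4 := hasSum_sum (fun m hm => (he2 m hm δ hδ).mul_left (β m))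
    rw [hone δ hδ] at h4
    refine hsc h4 (fun n => ?_) rfl
    rw [Finset.sum_mul]
    refine Finset.sum_congr rfl fun m _ => ?_
    ring

end RZ

end Pool.Agent.Lib.MP_7c08ba_nt
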