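import Pool.Agent.Lib.MP_7c08ba_nt.RZ.EisBig
import Pool.Agent.Lib.MP_7c08ba_nt.RZ.StG

set_option autoImplicit false

/-!
Module G14 of RANK ZERO: the Eisenstein series as a sum over coprime pairs, odd fundamental
discriminants (adapted from `EisBig`).
-/

namespace Pool.Agent.Lib.MP_7c08ba_nt

namespace RZ

open UpperHalfPlane

namespace EisBigDAux

open EisBigAux

variable {q : ℕ} [NeZero q] (χ : DirichletCharacter ℂ q) (r : ℕ) (s u : ℂ)

lemma HC_gcd (n : ℕ) (v : ℤ × ℤ) :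
    HC χ r s u ((n : ℤ) * v.1, (n : ℤ) * v.2) =
      LSeries.term (fun k => χ (k : ZMod q)) (2 * r + 1 + 2 * s) n * HC χ r s u v := by
  rcases Nat.eq_zero_or_pos n with rfl | hn
  · simp [HC, gE_zero]
  · rw [LSeries.term_of_ne_zero hn.ne']
    unfold HC
    have e1 : ((((n : ℤ) * v.1 : ℤ) : ℂ) * u + (((n : ℤ) * v.2 : ℤ) : ℂ)) =
        (n : ℂ) * ((v.1 : ℂ) * u + v.2) := by
      push_cast
      ring
    simp only
    rw [e1, gE_mul r s _ n hn]
    by_cases hd : n.Coprime q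
    · have h2 : (q : ℤ) ∣ (n : ℤ) * v.1 ↔ (q : ℤ) ∣ v.1 := by
        constructor
        · intro h
          have hc : IsCoprime (q : ℤ) (n : ℤ) := (Nat.isCoprime_iff_coprime.mpr hd).symm
          exact hc.dvd_of_dvd_mul_left h
        · intro h
          exact h.mul_left _
      simp only [h2]
      split_ifs
      · push_cast
        rw [map_mul, div_eq_mul_inv]
        ring
      · ring
    · have h0 : χ ((n : ℕ) : ZMod q) = 0 := by
        apply χ.map_nonunit
        rwa [ZMod.isUnit_iff_coprime]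
      have h1 : χ ((((n : ℤ) * v.2 : ℤ)) : ZMod q) = 0 := by
        push_cast
        rw [map_mul, h0, zero_mul]
      rw [h0, h1]
      simp

lemma tsum_HC (hs : 1 / 2 - (r : ℝ) < s.re) (hu : 0 < u.im)
    (hL : Summable fun n => ‖LSeries.term (fun k => χ (k : ZMod q)) (2 * r + 1 + 2 * s) n‖) :
    ∑' p : ℤ × ℤ, HC χ r s u p =
      LSeries (fun k => χ (k : ZMod q)) (2 * r + 1 + 2 * s) * ∑' v : Cop, HC χ r s u v.1 := by
  have hc : Summable fun v : Cop => ‖HC χ r s u v.1‖ :=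
    (summable_HC χ r s u hs hu).comp_injective Subtype.val_injective
  rw [LSeries, tsum_mul_tsum_of_summable_norm hL hc, ← inj_gcd.tsum_eq (f := HC χ r s u)]
  · have hi : Function.Injective fun p : ℕ+ × Cop => (((p.1 : ℕ), p.2) : ℕ × Cop) := by
      rintro ⟨m, v⟩ ⟨n, w⟩ h
      simp only [Prod.mk.injEq] at h
      rw [PNat.coe_injective h.1, h.2]
    rw [← hi.tsum_eq]
    · exact tsum_congr fun p => HC_gcd χ r s u p.1 p.2.1
    · rintro ⟨n, v⟩ h
      rcases Nat.eq_zero_or_pos n with rfl | hn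
      · simp at h
      · exact ⟨(⟨n, hn⟩, v), rfl⟩
  · rintro ⟨a, b⟩ h
    by_cases h0 : a = 0 ∧ b = 0
    · obtain ⟨rfl, rfl⟩ := h0
      simp [HC, gE_zero] at h
    · have hg : 0 < Int.gcd a b := by
        rw [Int.gcd_pos_iff]
        tauto
      refine ⟨(⟨Int.gcd a b, hg⟩, ⟨(a / Int.gcd a b, b / Int.gcd a b), ?_⟩), ?_⟩
      · rw [Int.isCoprime_iff_gcd_eq_one]
        exact Int.gcd_ediv_gcd_ediv_gcd hg
      · simp only [PNat.mk_coe, Prod.mk.injEq]
        exact ⟨Int.mul_ediv_cancel' (Int.gcd_dvd_left ..),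
          Int.mul_ediv_cancel' (Int.gcd_dvd_right ..)⟩

end EisBigDAux

open EisBigAux in
/-- (G14) the Eisenstein series as a sum over coprime pairs. -/
theorem stEisBigD : StEisBigD := by
  intro q _ χ r hD hχ s u hs hu
  have hq4 : q % 4 = 3 := hD.2.1
  have hneg : jacobiSym (-1) q = -1 := by
    rw [jacobiSym.at_neg_one (Nat.odd_iff.mpr (by omega)), ZMod.χ₄_nat_three_mod_four hq4]
  have hodd : χ (-1) = -1 := by
    have h := hχ (-1)
    rw [hneg] at h
    push_cast at h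
    exact h
  have hre : 1 < (2 * (r : ℂ) + 1 + 2 * s).re := by
    have h1 : (2 * (r : ℂ) + 1 + 2 * s).re = 2 * (r : ℝ) + 1 + 2 * s.re := by
      simp
    rw [h1]
    linarith
  have hL : Summable fun n =>
      ‖LSeries.term (fun k => χ (k : ZMod q)) (2 * r + 1 + 2 * s) n‖ :=
    (DirichletCharacter.LSeriesSummable_of_one_lt_re χ hre).norm
  refine ⟨(summable_pairs r s u hs hu).comp_injective Subtype.val_injective, ?_⟩
  have h1 : eis q χ r s u = (u.im : ℂ) ^ s * (1 / 2 *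
      (DirichletCharacter.LFunction χ (2 * r + 1 + 2 * s) * ∑' v : Cop, HC χ r s u v.1)) := by
    unfold eis
    rw [tsum_dE χ r s u hs hu, DirichletCharacter.LFunction_eq_LSeries χ hre,
      ← EisBigDAux.tsum_HC χ r s u hs hu hL, ← tsum_HK_HC, tsum_HK χ r s u hodd hs hu hL]
    ring
  have h2 : ∑' v : Cop, (if (q : ℤ) ∣ v.1.1 then χ (v.1.2 : ℤ) else 0) *
      (((v.1.1 : ℂ) * u + v.1.2) ^ (2 * r + 1))⁻¹ *
      ((Complex.normSq ((v.1.1 : ℂ) * u + v.1.2) : ℝ) : ℂ) ^ (-s) * (u.im : ℂ) ^ s =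
      (∑' v : Cop, HC χ r s u v.1) * (u.im : ℂ) ^ s := by
    rw [← tsum_mul_right]
    refine tsum_congr fun v => ?_
    unfold HC gE
    ring
  rw [h1, h2]
  ring

end RZ

end Pool.Agent.Lib.MP_7c08ba_nt
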