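import Pool.Agent.Lib.MP_7c08ba_nt.RZ.StB

set_option autoImplicit false

/-! (B13) transformation law of the Eisenstein series. -/

namespace Pool.Agent.Lib.MP_7c08ba_nt

namespace RZ

open NumberField MeasureTheory UpperHalfPlane Set
open scoped MatrixGroups ComplexConjugate nonZeroDivisors

namespace EisLaw

/-- the determinant -/
theorem det_eq (g : SL(2, ℤ)) : g 0 0 * g 1 1 - g 0 1 * g 1 0 = 1 := by
  have := g.det_coe
  rwa [Matrix.det_fin_two] at this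

/-- the right action on pairs of coprime integers -/
def act (g : SL(2, ℤ)) : Cop ≃ Cop where
  toFun v := ⟨(v.1.1 * g 0 0 + v.1.2 * g 1 0, v.1.1 * g 0 1 + v.1.2 * g 1 1), by
    obtain ⟨m, n, h⟩ := v.2
    have hd := det_eq g
    refine ⟨m * g 1 1 - n * g 0 1, n * g 0 0 - m * g 1 0, ?_⟩
    dsimp only
    linear_combination h + (m * v.1.1 + n * v.1.2) * hd⟩
  invFun v := ⟨(v.1.1 * g 1 1 - v.1.2 * g 1 0, v.1.2 * g 0 0 - v.1.1 * g 0 1), by
    obtain ⟨m, n, h⟩ := v.2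
    have hd := det_eq g
    refine ⟨m * g 0 0 + n * g 0 1, m * g 1 0 + n * g 1 1, ?_⟩
    dsimp only
    linear_combination h + (m * v.1.1 + n * v.1.2) * hd⟩
  left_inv v := by
    have hd := det_eq g
    apply Subtype.ext
    apply Prod.ext
    · dsimp only
      linear_combination v.1.1 * hd
    · dsimp only
      linear_combination v.1.2 * hd
  right_inv v := by
    have hd := det_eq g
    apply Subtype.ext
    apply Prod.ext
    · dsimp only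
      linear_combination v.1.1 * hd
    · dsimp only
      linear_combination v.1.2 * hd

theorem den_ne (g : SL(2, ℤ)) {z : ℂ} (hz : 0 < z.im) : (g 1 0 : ℂ) * z + g 1 1 ≠ 0 := by
  intro h
  have him := congrArg Complex.im h
  have hre := congrArg Complex.re h
  simp only [Complex.add_im, Complex.mul_im, Complex.intCast_re, Complex.intCast_im, zero_mul,
    add_zero, Complex.zero_im, Complex.add_re, Complex.mul_re, sub_zero, Complex.zero_re] at him hre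
  have h0 : ((g 1 0 : ℤ) : ℝ) = 0 := by
    rcases mul_eq_zero.1 him with h | h
    · exact h
    · exact absurd h hz.ne'
  rw [h0, zero_mul, zero_add] at hre
  have h0' : g 1 0 = 0 := by exact_mod_cast h0
  have h1' : g 1 1 = 0 := by exact_mod_cast hre
  have hd := det_eq g
  rw [h0', h1'] at hd
  simp at hd

theorem im_gz (g : SL(2, ℤ)) {z : ℂ} (hz : 0 < z.im) :
    (((g 0 0 : ℂ) * z + g 0 1) / ((g 1 0 : ℂ) * z + g 1 1)).im *
      Complex.normSq ((g 1 0 : ℂ) * z + g 1 1) = z.im := by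
  have hne := den_ne g hz
  have hn : Complex.normSq ((g 1 0 : ℂ) * z + g 1 1) ≠ 0 := by
    rwa [Ne, Complex.normSq_eq_zero]
  have hd : ((g 0 0 : ℤ) : ℝ) * (g 1 1 : ℤ) - (g 0 1 : ℤ) * (g 1 0 : ℤ) = 1 := by
    exact_mod_cast det_eq g
  rw [Complex.div_im, sub_mul, div_mul_cancel₀ _ hn, div_mul_cancel₀ _ hn]
  simp only [Complex.add_im, Complex.mul_im, Complex.intCast_re, Complex.intCast_im, zero_mul,
    add_zero, Complex.add_re, Complex.mul_re, sub_zero]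
  linear_combination z.im * hd

theorem gz_pos (g : SL(2, ℤ)) {z : ℂ} (hz : 0 < z.im) :
    0 < (((g 0 0 : ℂ) * z + g 0 1) / ((g 1 0 : ℂ) * z + g 1 1)).im := by
  have h := im_gz g hz
  have hn : 0 < Complex.normSq ((g 1 0 : ℂ) * z + g 1 1) := by
    rw [Complex.normSq_pos]
    exact den_ne g hz
  rw [← h] at hz
  exact (mul_pos_iff_of_pos_right hn).1 hz

theorem form_gz (g : SL(2, ℤ)) {z : ℂ} (hz : 0 < z.im) (v : Cop) :
    (((v.1.1 : ℂ) * (((g 0 0 : ℂ) * z + g 0 1) / ((g 1 0 : ℂ) * z + g 1 1)) + v.1.2)) *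
      ((g 1 0 : ℂ) * z + g 1 1) = ((act g v).1.1 : ℂ) * z + (act g v).1.2 := by
  have hne := den_ne g hz
  rw [add_mul, mul_assoc, div_mul_cancel₀ _ hne]
  simp only [act, Equiv.coe_fn_mk]
  push_cast
  ring

section chi

variable {q : ℕ} {χ : DirichletCharacter ℂ q}

theorem chi_sq (hχ : ∀ n : ℤ, χ n = (jacobiSym n q : ℂ)) (g : SL(2, ℤ)) (hc : (q : ℤ) ∣ g 1 0) :
    χ (g 1 1 : ℤ) * χ (g 1 1 : ℤ) = 1 := by
  obtain ⟨k, hk⟩ := hc
  have hd := det_eq g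
  have hcop : IsCoprime (g 1 1) (q : ℤ) := ⟨g 0 0, -(g 0 1 * k), by
    rw [hk] at hd
    linear_combination hd⟩
  rw [Int.isCoprime_iff_gcd_eq_one] at hcop
  have h2 := jacobiSym.sq_one hcop
  rw [hχ, ← sq]
  exact_mod_cast h2

theorem dvd_iff (g : SL(2, ℤ)) (hc : (q : ℤ) ∣ g 1 0) (v : Cop) :
    (q : ℤ) ∣ (act g v).1.1 ↔ (q : ℤ) ∣ v.1.1 := by
  have hd := det_eq g
  simp only [act, Equiv.coe_fn_mk]
  obtain ⟨k, hk⟩ := hc
  constructor
  · rintro ⟨j, hj⟩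
    refine ⟨j * g 1 1 - v.1.2 * k * g 1 1 - v.1.1 * g 0 1 * k, ?_⟩
    rw [hk] at hj hd
    linear_combination g 1 1 * hj - v.1.1 * hd
  · rintro ⟨j, hj⟩
    exact ⟨j * g 0 0 + v.1.2 * k, by rw [hj, hk]; ring⟩

theorem chi_act (g : SL(2, ℤ)) {v : Cop} (hv : (q : ℤ) ∣ v.1.1) :
    χ ((act g v).1.2 : ℤ) = χ (v.1.2 : ℤ) * χ (g 1 1 : ℤ) := by
  have h0 : ((v.1.1 : ℤ) : ZMod q) = 0 := (ZMod.intCast_zmod_eq_zero_iff_dvd _ _).2 hv
  simp only [act, Equiv.coe_fn_mk]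
  push_cast
  rw [h0, zero_mul, zero_add, map_mul]

end chi

/-- the general term -/
noncomputable def tm (q : ℕ) (χ : DirichletCharacter ℂ q) (r : ℕ) (s u : ℂ) (v : Cop) : ℂ :=
  (if (q : ℤ) ∣ v.1.1 then χ (v.1.2 : ℤ) else 0) *
          (((v.1.1 : ℂ) * u + v.1.2) ^ (2 * r + 1))⁻¹ *
          ((Complex.normSq ((v.1.1 : ℂ) * u + v.1.2) : ℝ) : ℂ) ^ (-s) * (u.im : ℂ) ^ s

theorem tm_act {q : ℕ} {χ : DirichletCharacter ℂ q} (hχ : ∀ n : ℤ, χ n = (jacobiSym n q : ℂ))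
    (g : SL(2, ℤ)) (hc : (q : ℤ) ∣ g 1 0) {z : ℂ} (hz : 0 < z.im) (r : ℕ) (s : ℂ) (v : Cop) :
    tm q χ r s (((g 0 0 : ℂ) * z + g 0 1) / ((g 1 0 : ℂ) * z + g 1 1)) v =
      (χ (g 1 1 : ℤ) * ((g 1 0 : ℂ) * z + g 1 1) ^ (2 * r + 1)) * tm q χ r s z (act g v) := by
  set D : ℂ := (g 1 0 : ℂ) * z + g 1 1 with hD
  set u : ℂ := ((g 0 0 : ℂ) * z + g 0 1) / D with hu
  have hne : D ≠ 0 := den_ne g hz
  have hform : ((v.1.1 : ℂ) * u + v.1.2) * D = ((act g v).1.1 : ℂ) * z + (act g v).1.2 :=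
    form_gz g hz v
  have him : u.im * Complex.normSq D = z.im := im_gz g hz
  have hupos : 0 < u.im := gz_pos g hz
  have hYpos : 0 < Complex.normSq D := Complex.normSq_pos.2 hne
  have hYc : ((Complex.normSq D : ℝ) : ℂ) ≠ 0 := by exact_mod_cast hYpos.ne'
  have e1 : (z.im : ℂ) ^ s = (u.im : ℂ) ^ s * ((Complex.normSq D : ℝ) : ℂ) ^ s := by
    rw [← him]
    push_cast
    rw [Complex.mul_cpow_ofReal_nonneg hupos.le hYpos.le]
  have e2 : ((Complex.normSq (((act g v).1.1 : ℂ) * z + (act g v).1.2) : ℝ) : ℂ) ^ (-s) =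
      ((Complex.normSq ((v.1.1 : ℂ) * u + v.1.2) : ℝ) : ℂ) ^ (-s) *
        ((Complex.normSq D : ℝ) : ℂ) ^ (-s) := by
    rw [← hform, Complex.normSq_mul]
    push_cast
    rw [Complex.mul_cpow_ofReal_nonneg (Complex.normSq_nonneg _) hYpos.le]
  have e3 : ((Complex.normSq D : ℝ) : ℂ) ^ (-s) * ((Complex.normSq D : ℝ) : ℂ) ^ s = 1 := by
    rw [← Complex.cpow_add _ _ hYc, neg_add_cancel, Complex.cpow_zero]
  have e4 : D ^ (2 * r + 1) * ((((act g v).1.1 : ℂ) * z + (act g v).1.2) ^ (2 * r + 1))⁻¹ =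
      (((v.1.1 : ℂ) * u + v.1.2) ^ (2 * r + 1))⁻¹ := by
    rw [← hform, mul_pow, mul_inv]
    have : D ^ (2 * r + 1) ≠ 0 := pow_ne_zero _ hne
    field_simp
  have e5 : χ (g 1 1 : ℤ) * (if (q : ℤ) ∣ (act g v).1.1 then χ ((act g v).1.2 : ℤ) else 0) =
      if (q : ℤ) ∣ v.1.1 then χ (v.1.2 : ℤ) else 0 := by
    by_cases hv : (q : ℤ) ∣ v.1.1
    · rw [if_pos ((dvd_iff g hc v).2 hv), if_pos hv, chi_act g hv]
      linear_combination χ (v.1.2 : ℤ) * chi_sq hχ g hc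
    · rw [if_neg (fun h => hv ((dvd_iff g hc v).1 h)), if_neg hv, mul_zero]
  unfold tm
  rw [e1, e2, ← e4, ← e5]
  linear_combination -(χ (g 1 1 : ℤ) * (if (q : ℤ) ∣ (act g v).1.1 then χ ((act g v).1.2 : ℤ) else 0) *
    (D ^ (2 * r + 1) * ((((act g v).1.1 : ℂ) * z + (act g v).1.2) ^ (2 * r + 1))⁻¹) *
    ((Complex.normSq ((v.1.1 : ℂ) * u + v.1.2) : ℝ) : ℂ) ^ (-s) * (u.im : ℂ) ^ s) * e3

end EisLaw

open EisLaw in
theorem stEisLaw (h1 : StEisA) (h2 : StEisBig) : StEisLaw := by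
  intro q _ χ r hq hq2 hχ hm1 s hs g z hz hc
  have hgz := gz_pos g hz
  -- the law for large real part
  have hbig : ∀ s : ℂ, 1 / 2 - (r : ℝ) < s.re →
      eis q χ r s (((g 0 0 : ℂ) * z + g 0 1) / ((g 1 0 : ℂ) * z + g 1 1)) =
        χ (g 1 1 : ℤ) * ((g 1 0 : ℂ) * z + g 1 1) ^ (2 * r + 1) * eis q χ r s z := by
    intro s hs
    rw [(h2 q _ χ r hq hq2 hχ hm1 s _ hs hgz).2, (h2 q _ χ r hq hq2 hχ hm1 s z hs hz).2]
    have e1 : ∑' v : Cop, tm q χ r s (((g 0 0 : ℂ) * z + g 0 1) / ((g 1 0 : ℂ) * z + g 1 1)) v =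
        (χ (g 1 1 : ℤ) * ((g 1 0 : ℂ) * z + g 1 1) ^ (2 * r + 1)) *
          ∑' v : Cop, tm q χ r s z v := by
      rw [← (act g).tsum_eq (tm q χ r s z), ← tsum_mul_left]
      exact tsum_congr fun v => tm_act hχ g hc hz r s v
    unfold tm at e1
    rw [e1]
    ring
  -- analytic continuation
  set U : Set ℂ := {s | -(r : ℝ) - 1 / 2 < s.re} with hU
  have hUo : IsOpen U := isOpen_lt continuous_const Complex.continuous_re
  have hUc : IsPreconnected U := (convex_halfSpace_re_gt _).isPreconnected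
  obtain ⟨hdiff, -⟩ := h1 q _ χ r hq hq2 hχ
  have hf : AnalyticOnNhd ℂ (fun s => eis q χ r s
      (((g 0 0 : ℂ) * z + g 0 1) / ((g 1 0 : ℂ) * z + g 1 1))) U :=
    (hdiff _ hgz).analyticOnNhd hUo
  have hg : AnalyticOnNhd ℂ (fun s => χ (g 1 1 : ℤ) * ((g 1 0 : ℂ) * z + g 1 1) ^ (2 * r + 1) *
      eis q χ r s z) U :=
    ((hdiff z hz).const_mul _).analyticOnNhd hUo
  have h0 : ((1 - r : ℝ) : ℂ) ∈ U := by
    simp only [hU, Set.mem_ofPred_eq, Complex.ofReal_re]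
    linarith
  have hev : (fun s => eis q χ r s (((g 0 0 : ℂ) * z + g 0 1) / ((g 1 0 : ℂ) * z + g 1 1)))
      =ᶠ[nhds ((1 - r : ℝ) : ℂ)] (fun s => χ (g 1 1 : ℤ) *
        ((g 1 0 : ℂ) * z + g 1 1) ^ (2 * r + 1) * eis q χ r s z) := by
    have hopen : IsOpen {s : ℂ | 1 / 2 - (r : ℝ) < s.re} :=
      isOpen_lt continuous_const Complex.continuous_re
    filter_upwards [hopen.mem_nhds (show ((1 - r : ℝ) : ℂ) ∈ {s : ℂ | 1 / 2 - (r : ℝ) < s.re} by
      simp only [Set.mem_ofPred_eq, Complex.ofReal_re]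
      linarith)] with s hs
    exact hbig s hs
  exact hf.eqOn_of_preconnected_of_eventuallyEq hg hUc h0 hev hs

end RZ

end Pool.Agent.Lib.MP_7c08ba_nt
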