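import Pool.Agent.Lib.MP_7c08ba_nt.RZ.StG
import Pool.Agent.Lib.MP_7c08ba_nt.RZ.EisLaw

set_option autoImplicit false

/-! (G15) transformation law of the Eisenstein series, odd fundamental discriminants. -/

namespace Pool.Agent.Lib.MP_7c08ba_nt

namespace RZ

open NumberField MeasureTheory UpperHalfPlane Set
open scoped MatrixGroups ComplexConjugate nonZeroDivisors

open EisLaw in
theorem stEisLawD (h1 : StEisAD) (h2 : StEisBigD) : StEisLawD := by
  intro q _ χ r hq hχ s hs g z hz hc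
  have hgz := gz_pos g hz
  -- the law for large real part
  have hbig : ∀ s : ℂ, 1 / 2 - (r : ℝ) < s.re →
      eis q χ r s (((g 0 0 : ℂ) * z + g 0 1) / ((g 1 0 : ℂ) * z + g 1 1)) =
        χ (g 1 1 : ℤ) * ((g 1 0 : ℂ) * z + g 1 1) ^ (2 * r + 1) * eis q χ r s z := by
    intro s hs
    rw [(h2 q _ χ r hq hχ s _ hs hgz).2, (h2 q _ χ r hq hχ s z hs hz).2]
    have e1 : ∑' v : Cop, tm q χ r s (((g 0 0 : ℂ) * z + g 0 1) / ((g 1 0 : ℂ) * z + g 1 1)) v =
        (χ (g 1 1 : ℤ) * ((g 1 0 : ℂ) * z + g 1 1) ^ (2 * r + 1)) *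
          ∑' v : Cop, tm q χ r s z v := by
      rw [← (act g).tsum_eq (tm q χ r s z), ← tsum_mul_left]
      exact tsum_congr fun v => tm_act hχ g hc hz r s v
    unfold tm at e1
    rw [e1]
    ring
  -- analytic continuation
  set U : Set ℂ := {s | -(r : ℝ) - 1 / 2 < s.re} with hU
  have hUo : IsOpen U := isOpen_lt continuous_const Complex.continuous_re
  have hUc : IsPreconnected U := (convex_halfSpace_re_gt _).isPreconnected
  obtain ⟨hdiff, -⟩ := h1 q _ χ r hq hχ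
  have hf : AnalyticOnNhd ℂ (fun s => eis q χ r s
      (((g 0 0 : ℂ) * z + g 0 1) / ((g 1 0 : ℂ) * z + g 1 1))) U :=
    (hdiff _ hgz).analyticOnNhd hUo
  have hg : AnalyticOnNhd ℂ (fun s => χ (g 1 1 : ℤ) * ((g 1 0 : ℂ) * z + g 1 1) ^ (2 * r + 1) *
      eis q χ r s z) U :=
    ((hdiff z hz).const_mul _).analyticOnNhd hUo
  have h0 : ((1 - r : ℝ) : ℂ) ∈ U := by
    simp only [hU, Set.mem_ofPred_eq, Complex.ofReal_re]
    linarith
  have hev : (fun s => eis q χ r s (((g 0 0 : ℂ) * z + g 0 1) / ((g 1 0 : ℂ) * z + g 1 1)))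
      =ᶠ[nhds ((1 - r : ℝ) : ℂ)] (fun s => χ (g 1 1 : ℤ) *
        ((g 1 0 : ℂ) * z + g 1 1) ^ (2 * r + 1) * eis q χ r s z) := by
    have hopen : IsOpen {s : ℂ | 1 / 2 - (r : ℝ) < s.re} :=
      isOpen_lt continuous_const Complex.continuous_re
    filter_upwards [hopen.mem_nhds (show ((1 - r : ℝ) : ℂ) ∈ {s : ℂ | 1 / 2 - (r : ℝ) < s.re} by
      simp only [Set.mem_ofPred_eq, Complex.ofReal_re]
      linarith)] with s hs
    exact hbig s hs
  exact hf.eqOn_of_preconnected_of_eventuallyEq hg hUc h0 hev hs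

end RZ

end Pool.Agent.Lib.MP_7c08ba_nt
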