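import Pool.Agent.Lib.MP_7c08ba_nt.RZ.StB

set_option autoImplicit false

/-! (B15): the Eisenstein series at `s = -r` as a sum of theta series. -/

namespace Pool.Agent.Lib.MP_7c08ba_nt

namespace RZ

open NumberField MeasureTheory UpperHalfPlane Set
open scoped MatrixGroups ComplexConjugate nonZeroDivisors

namespace EisThAux

/-- the general term -/
noncomputable def G (r : ℕ) (u z : ℂ) : ℂ := lag r (4 * Real.pi * z * u.im) * ee (z * u)

theorem lag_zero (r : ℕ) : lag r 0 = 1 := by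
  unfold lag
  rw [Finset.sum_eq_single 0]
  · simp
  · intro j _ hj
    simp [hj]
  · intro h
    simp at h

theorem G_zero (r : ℕ) (u : ℂ) : G r u 0 = 1 := by
  simp [G, lag_zero, ee]

theorem norm_lag (r : ℕ) {x : ℝ} (hx : 0 ≤ x) :
    ‖lag r (x : ℂ)‖ ≤ 16 ^ r * Real.exp (x / 8) := by
  unfold lag
  refine (norm_sum_le _ _).trans ?_
  have h1 : ∀ j ∈ Finset.range (r + 1), ‖(r.choose j : ℂ) * (-(x : ℂ)) ^ j / (j.factorial : ℂ)‖ ≤
      (r.choose j : ℝ) * (8 ^ r * Real.exp (x / 8)) := by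
    intro j hj
    rw [Finset.mem_range] at hj
    rw [norm_div, norm_mul, norm_pow, norm_neg, Complex.norm_natCast, Complex.norm_natCast,
      Complex.norm_real, Real.norm_of_nonneg hx, mul_div_assoc]
    refine mul_le_mul_of_nonneg_left ?_ (Nat.cast_nonneg _)
    have h2 := Real.pow_div_factorial_le_exp (x / 8) (by positivity) j
    have h3 : x ^ j / (j.factorial : ℝ) = 8 ^ j * ((x / 8) ^ j / (j.factorial : ℝ)) := by
      rw [div_pow]
      field_simp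
    rw [h3]
    refine mul_le_mul ?_ h2 (by positivity) (by positivity)
    exact pow_le_pow_right₀ (by norm_num) (by omega)
  refine (Finset.sum_le_sum h1).trans ?_
  rw [← Finset.sum_mul]
  have h4 : ∑ j ∈ Finset.range (r + 1), (r.choose j : ℝ) = 2 ^ r := by
    exact_mod_cast Nat.sum_range_choose r
  rw [h4, ← mul_assoc, ← mul_pow]
  norm_num

theorem norm_ee (z : ℂ) : ‖ee z‖ = Real.exp (-(2 * Real.pi * z.im)) := by
  unfold ee
  rw [Complex.norm_exp]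
  congr 1
  simp [Complex.mul_re, Complex.mul_im]

theorem norm_G (r : ℕ) {u : ℂ} (hu : 0 < u.im) {Q : ℝ} (hQ : 0 ≤ Q) :
    ‖G r u (Q : ℂ)‖ ≤ 16 ^ r * Real.exp (-(3 / 2 * Real.pi * u.im * Q)) := by
  unfold G
  rw [norm_mul, norm_ee]
  have e1 : (4 * Real.pi * (Q : ℂ) * u.im : ℂ) = ((4 * Real.pi * Q * u.im : ℝ) : ℂ) := by
    push_cast; ring
  have e2 : ((Q : ℂ) * u).im = Q * u.im := by simp
  rw [e1, e2]
  have h1 := norm_lag r (x := 4 * Real.pi * Q * u.im) (by positivity)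
  refine (mul_le_mul_of_nonneg_right h1 (Real.exp_pos _).le).trans ?_
  rw [mul_assoc, ← Real.exp_add]
  refine le_of_eq ?_
  congr 2
  ring

/-! ### the sum over pairs -/

theorem summable_pairs (r : ℕ) {u : ℂ} (hu : 0 < u.im) (a : ℕ → ℂ) (ha : ∀ n, ‖a n‖ ≤ 1) :
    Summable fun c : ℕ+ × ℕ+ => a c.2 * G r u (((c.1 : ℕ) * (c.2 : ℕ) : ℕ) : ℂ) := by
  set ρ : ℝ := Real.exp (-(3 / 2 * Real.pi * u.im)) with hρ
  have hρ1 : ‖ρ‖ < 1 := by
    rw [hρ, Real.norm_of_nonneg (Real.exp_pos _).le, Real.exp_lt_one_iff]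
    have : 0 < 3 / 2 * Real.pi * u.im := by positivity
    linarith
  have h1 := (summable_prod_mul_pow 0 hρ1).mul_left (16 ^ r : ℝ)
  refine Summable.of_norm_bounded h1 fun c => ?_
  rw [norm_mul]
  have h2 := norm_G r hu (Q := (((c.1 : ℕ) * (c.2 : ℕ) : ℕ) : ℝ)) (Nat.cast_nonneg _)
  have h3 : Real.exp (-(3 / 2 * Real.pi * u.im * (((c.1 : ℕ) * (c.2 : ℕ) : ℕ) : ℝ))) =
      ρ ^ ((c.1 : ℕ) * (c.2 : ℕ)) := by
    rw [hρ, ← Real.exp_nat_mul]
    congr 1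
    ring
  rw [h3] at h2
  rw [pow_zero, one_mul]
  refine (mul_le_mul (ha _) h2 (norm_nonneg _) zero_le_one).trans ?_
  rw [one_mul]

/-- the sum over pairs as a sum over the product -/
theorem tsum_pairs (r : ℕ) {u : ℂ} (hu : 0 < u.im) (a : ℕ → ℂ) (ha : ∀ n, ‖a n‖ ≤ 1) :
    ∑' p : ℕ × ℕ, a (p.2 + 1) * G r u (((p.1 + 1) * (p.2 + 1) : ℕ) : ℂ) =
      ∑' n : ℕ+, (∑ d ∈ (n : ℕ).divisors, a d) * G r u ((n : ℕ) : ℂ) := by
  have hs := summable_pairs r hu a ha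
  have e1 : ∑' p : ℕ × ℕ, a (p.2 + 1) * G r u (((p.1 + 1) * (p.2 + 1) : ℕ) : ℂ) =
      ∑' c : ℕ+ × ℕ+, a c.2 * G r u (((c.1 : ℕ) * (c.2 : ℕ) : ℕ) : ℂ) := by
    rw [← (Equiv.prodCongr Equiv.pnatEquivNat Equiv.pnatEquivNat).symm.tsum_eq]
    refine tsum_congr fun p => ?_
    simp
  have hs' : Summable fun c : (n : ℕ+) × (n : ℕ).divisorsAntidiagonal =>
      a (sigmaAntidiagonalEquivProd c).2 * G r u ((((sigmaAntidiagonalEquivProd c).1 : ℕ) *
        ((sigmaAntidiagonalEquivProd c).2 : ℕ) : ℕ) : ℂ) :=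
    sigmaAntidiagonalEquivProd.summable_iff.2 hs
  rw [e1, ← sigmaAntidiagonalEquivProd.tsum_eq, Summable.tsum_sigma hs']
  refine tsum_congr fun n => ?_
  rw [tsum_fintype, Finset.univ_eq_attach]
  have e2 : ∀ x : {x // x ∈ (n : ℕ).divisorsAntidiagonal},
      (a ((sigmaAntidiagonalEquivProd ⟨n, x⟩).2 : ℕ) *
        G r u ((((sigmaAntidiagonalEquivProd ⟨n, x⟩).1 : ℕ) *
          ((sigmaAntidiagonalEquivProd ⟨n, x⟩).2 : ℕ) : ℕ) : ℂ)) =
      a (x : ℕ × ℕ).2 * G r u ((n : ℕ) : ℂ) := by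
    intro x
    have hx := (Nat.mem_divisorsAntidiagonal.1 x.2).1
    have h1 : ((sigmaAntidiagonalEquivProd ⟨n, x⟩).2 : ℕ) = (x : ℕ × ℕ).2 := rfl
    have h2 : ((sigmaAntidiagonalEquivProd ⟨n, x⟩).1 : ℕ) = (x : ℕ × ℕ).1 := rfl
    rw [h1, h2, hx]
  rw [Finset.sum_congr rfl fun x _ => e2 x]
  rw [(n : ℕ).divisorsAntidiagonal.sum_attach (fun x => a x.2 * G r u ((n : ℕ) : ℂ)),
    ← Finset.sum_mul, Nat.sum_divisorsAntidiagonal' (fun _ y => a y)]

/-! ### the sum over ideals -/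

section
variable {F : Type} [Field F] [NumberField F]

/-- the norm of a nonzero ideal, as a positive natural number -/
noncomputable def nrm (b : (Ideal (𝓞 F))⁰) : ℕ+ :=
  ⟨Ideal.absNorm (b : Ideal (𝓞 F)), Nat.pos_of_ne_zero
    (Ideal.absNorm_ne_zero_iff_mem_nonZeroDivisors.2 b.2)⟩

theorem card_fiber (n : ℕ+) : Nat.card {b : (Ideal (𝓞 F))⁰ // nrm b = n} =
    Nat.card {b : Ideal (𝓞 F) // Ideal.absNorm b = n} := by
  refine Nat.card_congr ⟨fun b => ⟨(b.1 : Ideal (𝓞 F)), ?_⟩, fun b => ⟨⟨b.1, ?_⟩, ?_⟩, ?_, ?_⟩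
  · have := congrArg (fun k : ℕ+ => (k : ℕ)) b.2
    exact this
  · rw [← Ideal.absNorm_ne_zero_iff_mem_nonZeroDivisors, b.2]
    exact n.ne_zero
  · exact PNat.eq b.2
  · intro b; rfl
  · intro b; rfl

theorem tsum_ideals (f : ℕ → ℂ)
    (hs : Summable fun b : (Ideal (𝓞 F))⁰ => ‖f (Ideal.absNorm (b : Ideal (𝓞 F)))‖) :
    ∑' b : (Ideal (𝓞 F))⁰, f (Ideal.absNorm (b : Ideal (𝓞 F))) =
      ∑' n : ℕ+, (Nat.card {b : Ideal (𝓞 F) // Ideal.absNorm b = n} : ℂ) * f n := by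
  have hs' := hs.of_norm
  rw [← (Equiv.sigmaFiberEquiv (nrm (F := F))).tsum_eq]
  have hs2 : Summable fun c : (Σ n : ℕ+, {b : (Ideal (𝓞 F))⁰ // nrm b = n}) =>
      f (Ideal.absNorm ((Equiv.sigmaFiberEquiv (nrm (F := F)) c : (Ideal (𝓞 F))⁰) :
        Ideal (𝓞 F))) :=
    (Equiv.sigmaFiberEquiv (nrm (F := F))).summable_iff.2 hs'
  rw [Summable.tsum_sigma hs2]
  refine tsum_congr fun n => ?_
  have e : ∀ c : {b : (Ideal (𝓞 F))⁰ // nrm b = n},
      f (Ideal.absNorm ((Equiv.sigmaFiberEquiv (nrm (F := F)) ⟨n, c⟩ : (Ideal (𝓞 F))⁰) :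
        Ideal (𝓞 F))) = f n := by
    intro c
    have h : Ideal.absNorm ((c : (Ideal (𝓞 F))⁰) : Ideal (𝓞 F)) = n :=
      congrArg (fun k : ℕ+ => (k : ℕ)) c.2
    rw [← h]
    rfl
  rw [tsum_congr e, tsum_const, card_fiber, nsmul_eq_mul]

end

/-! ### theta series -/

section
variable {F : Type} [Field F] [NumberField F]

theorem Qa_nonneg (σ : F →+* ℂ) (a : Ideal (𝓞 F)) (x : 𝓞 F) : 0 ≤ Qa σ a x :=
  div_nonneg (Complex.normSq_nonneg _) (Nat.cast_nonneg _)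

theorem summable_G {q : ℕ} {s : 𝓞 F} {σ : F →+* ℂ} {χ : DirichletCharacter ℂ q}
    {cj : 𝓞 F ≃+* 𝓞 F} (h7 : StThB) (hd : Dat q s σ χ cj) (a : Ideal (𝓞 F)) (ha : a ≠ ⊥)
    (r : ℕ) {u : ℂ} (hu : 0 < u.im) : Summable fun x : a => ‖G r u (Qa σ a x)‖ := by
  obtain ⟨-, h, -⟩ := h7 q F _ _ s σ χ cj a 0 0 hd ha
  have ht : 0 < 3 / 2 * Real.pi * u.im := by positivity
  refine Summable.of_nonneg_of_le (fun _ => norm_nonneg _) (fun x => ?_)
    ((h _ ht).mul_left (16 ^ r : ℝ))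
  have := norm_G r hu (Qa_nonneg σ a x)
  rwa [pow_zero, one_mul]

theorem sum_thl {q : ℕ} {s : 𝓞 F} {σ : F →+* ℂ} {χ : DirichletCharacter ℂ q}
    {cj : 𝓞 F ≃+* 𝓞 F} (c : Reps σ) (h4 : StIdSum) (h6 : StBas) (h7 : StThB)
    (hd : Dat q s σ χ cj) (r : ℕ) {u : ℂ} (hu : 0 < u.im) :
    (Summable fun b : (Ideal (𝓞 F))⁰ => ‖G r u (Ideal.absNorm (b : Ideal (𝓞 F)) : ℂ)‖) ∧
    ∑ B : ClassGroup (𝓞 F), thl σ (c.R B : Ideal (𝓞 F)) r u = ((u.im : ℂ) ^ r)⁻¹ *
      ((Fintype.card (ClassGroup (𝓞 F)) : ℂ) +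
        2 * ∑' b : (Ideal (𝓞 F))⁰, G r u (Ideal.absNorm (b : Ideal (𝓞 F)) : ℂ)) := by
  classical
  obtain ⟨-, -, -, -, -, hn, -⟩ := h6 q F _ _ s σ χ cj hd
  have hR : ∀ A, (c.R A : Ideal (𝓞 F)) ≠ ⊥ := fun A => nonZeroDivisors.coe_ne_zero (c.R A)
  set T : ClassGroup (𝓞 F) → 𝓞 F → ℂ := fun A x =>
    if x = 0 then 0 else G r u (Qa σ (c.R A : Ideal (𝓞 F)) x) with hT
  have hsG : ∀ A, Summable fun x : (c.R A : Ideal (𝓞 F)) =>
      G r u (Qa σ (c.R A : Ideal (𝓞 F)) x) := fun A =>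
    (summable_G h7 hd _ (hR A) r hu).of_norm
  have hsT : ∀ A, Summable fun x : (c.R A : Ideal (𝓞 F)) => ‖T A x‖ := by
    intro A
    refine Summable.of_nonneg_of_le (fun _ => norm_nonneg _) (fun x => ?_)
      (summable_G h7 hd _ (hR A) r hu)
    simp only [hT]
    split_ifs
    · rw [norm_zero]; exact norm_nonneg _
    · exact le_rfl
  obtain ⟨hs, he⟩ := h4 q F _ _ s σ χ cj c
    (fun b => G r u (Ideal.absNorm b : ℂ)) T hd (fun A => by simp [hT])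
    (fun A x b hx hb => by
      simp only [hT]
      rw [if_neg hx]
      have h1 : Qa σ (c.R A : Ideal (𝓞 F)) x = (Ideal.absNorm b : ℝ) := by
        unfold Qa
        rw [hn x, ← hb, map_mul, Nat.cast_mul, mul_div_assoc, div_self, mul_one]
        rw [Nat.cast_ne_zero]
        exact Ideal.absNorm_ne_zero_iff_mem_nonZeroDivisors.2 (c.R A).2
      rw [h1]
      simp) hsT
  refine ⟨hs, ?_⟩
  have hB : ∀ A, thl σ (c.R A : Ideal (𝓞 F)) r u = ((u.im : ℂ) ^ r)⁻¹ *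
      (1 + ∑' x : (c.R A : Ideal (𝓞 F)), T A x) := by
    intro A
    unfold thl
    congr 1
    have e0 : ∀ x : (c.R A : Ideal (𝓞 F)),
        lag r (4 * Real.pi * Qa σ (c.R A : Ideal (𝓞 F)) x * u.im) *
          ee (Qa σ (c.R A : Ideal (𝓞 F)) x * u) = (if x = 0 then (1 : ℂ) else 0) + T A x := by
      intro x
      show G r u (Qa σ (c.R A : Ideal (𝓞 F)) x) = _
      simp only [hT]
      by_cases hx : x = 0
      · have hx' : ((x : 𝓞 F)) = 0 := by rw [hx]; rfl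
        rw [if_pos hx, if_pos hx', hx']
        have : Qa σ (c.R A : Ideal (𝓞 F)) 0 = 0 := by simp [Qa]
        rw [this, Complex.ofReal_zero, G_zero, add_zero]
      · have hx' : ((x : 𝓞 F)) ≠ 0 := fun h => hx (Subtype.ext h)
        rw [if_neg hx, if_neg hx', zero_add]
    rw [tsum_congr e0, Summable.tsum_add (summable_of_ne_finset_zero (s := {0}) (by
      intro x hx
      rw [Finset.mem_singleton] at hx
      rw [if_neg hx])) (hsT A).of_norm, tsum_ite_eq]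
  rw [Finset.sum_congr rfl fun A _ => hB A, ← Finset.mul_sum, Finset.sum_add_distrib, he]
  simp

end

end EisThAux

open EisThAux in
/-- (B15) -/
theorem stEisTh (h1 : StEisAt) (h2 : StEisLaw) (h3 : StThl) (h4 : StIdSum) (h5 : StCount)
    (h6 : StBas) (h7 : StThB) : StEisTh := by
  intro q _ F _ _ s σ χ cj c hd
  have hq7 := hd.mod
  have hq2 : 2 < q := by omega
  have hqodd : Odd q := by rw [Nat.odd_iff]; omega
  have hneg : jacobiSym (-1) q = -1 := by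
    rw [jacobiSym.at_neg_one hqodd]
    exact ZMod.χ₄_nat_three_mod_four (by omega)
  obtain ⟨ε, hε, hE⟩ := h1 q _ χ hd.prime hq2 hd.chi hneg
  refine ⟨ε, hε, ?_⟩
  -- the number of ideals
  have hcount : ∀ n : ℕ+, (Nat.card {b : Ideal (𝓞 F) // Ideal.absNorm b = n} : ℂ) =
      ∑ d ∈ (n : ℕ).divisors, χ ((d : ℕ) : ℤ) := by
    intro n
    have h := h5 q F _ _ s σ χ cj hd n n.pos
    have h' := congrArg (fun z : ℤ => (z : ℂ)) h
    simp only [Int.cast_natCast, Int.cast_sum] at h'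
    rw [h']
    refine Finset.sum_congr rfl fun d _ => ?_
    exact (hd.chi d).symm
  -- the double sum as a sum over ideals
  have hdouble : ∀ (r : ℕ) (u : ℂ), 0 < u.im →
      ∑' p : ℕ × ℕ, χ ((p.2 + 1 : ℕ) : ℤ) *
          lag r (4 * Real.pi * ((p.1 + 1 : ℕ) * (p.2 + 1 : ℕ)) * u.im) *
          ee ((p.1 + 1 : ℕ) * (p.2 + 1 : ℕ) * u) =
        ∑' b : (Ideal (𝓞 F))⁰, G r u (Ideal.absNorm (b : Ideal (𝓞 F)) : ℂ) := by
    intro r u hu
    rw [tsum_ideals (fun n => G r u (n : ℂ)) (sum_thl c h4 h6 h7 hd r hu).1]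
    have hn : ∀ n : ℕ+, (Nat.card {b : Ideal (𝓞 F) // Ideal.absNorm b = n} : ℂ) *
        G r u ((n : ℕ) : ℂ) = (∑ d ∈ (n : ℕ).divisors, χ ((d : ℕ) : ℤ)) * G r u ((n : ℕ) : ℂ) :=
      fun n => by rw [hcount n]
    rw [tsum_congr hn,
      ← tsum_pairs r hu (fun n => χ ((n : ℕ) : ℤ)) (fun n => χ.norm_le_one _)]
    refine tsum_congr fun p => ?_
    unfold G
    push_cast
    ring
  -- the constant
  set κ : ℂ := DirichletCharacter.LFunction χ 1 -
    ε * (Real.pi / Real.sqrt q) * (Fintype.card (ClassGroup (𝓞 F)) : ℂ) with hκ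
  have hkey : ∀ (r : ℕ) (u : ℂ), 0 < u.im →
      eis q χ r (-r) u - ε * (Real.pi / Real.sqrt q) *
        ∑ B : ClassGroup (𝓞 F), thl σ (c.R B : Ideal (𝓞 F)) r u =
          ((u.im : ℂ) ^ r)⁻¹ * κ := by
    intro r u hu
    rw [hE r u hu, (sum_thl c h4 h6 h7 hd r hu).2, hdouble r u hu, hκ]
    ring
  have hκ0 : κ = 0 := by
    have hR : ∀ A, (c.R A : Ideal (𝓞 F)) ≠ ⊥ := fun A => nonZeroDivisors.coe_ne_zero (c.R A)
    -- the matrix (1 0; q 1)
    let g : SL(2, ℤ) := ⟨!![1, 0; (q : ℤ), 1], by simp [Matrix.det_fin_two]⟩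
    have g00 : g 0 0 = 1 := rfl
    have g01 : g 0 1 = 0 := rfl
    have g10 : g 1 0 = (q : ℤ) := rfl
    have g11 : g 1 1 = 1 := rfl
    have hI : 0 < Complex.I.im := by simp
    set u' : ℂ := (((g 0 0 : ℤ) : ℂ) * Complex.I + (g 0 1 : ℤ)) /
      (((g 1 0 : ℤ) : ℂ) * Complex.I + (g 1 1 : ℤ)) with hu'
    have hden : ((q : ℂ) * Complex.I + 1) ≠ 0 := by
      intro h
      have := congrArg Complex.re h
      simp at this
    have hu'im : 0 < u'.im := by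
      have e : u' = Complex.I / ((q : ℂ) * Complex.I + 1) := by
        rw [hu', g00, g01, g10, g11]; push_cast; ring
      rw [e, Complex.div_im]
      have : 0 < Complex.normSq ((q : ℂ) * Complex.I + 1) := Complex.normSq_pos.2 hden
      simp
      positivity
    have a1 := h2 q inferInstance χ 0 hd.prime hq2 hd.chi hneg 0 (by simp) g Complex.I hI
      (by rw [g10])
    have a2 : ∀ B, thl σ (c.R B : Ideal (𝓞 F)) 0 u' = χ (g 1 1 : ℤ) *
        (((g 1 0 : ℤ) : ℂ) * Complex.I + (g 1 1 : ℤ)) ^ (2 * 0 + 1) *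
          thl σ (c.R B : Ideal (𝓞 F)) 0 Complex.I :=
      fun B => (h3 q F _ _ s σ χ cj (c.R B : Ideal (𝓞 F)) 0 hd (hR B)).1 g
        Complex.I hI (by rw [g10])
    have b1 := hkey 0 Complex.I hI
    have b2 := hkey 0 u' hu'im
    have hc1 : χ ((g 1 1 : ℤ) : ℤ) = 1 := by rw [g11]; simp
    rw [← hu'] at a1
    have z0 : (-((0 : ℕ) : ℂ)) = 0 := by simp
    rw [z0] at b1 b2
    rw [a1, Finset.sum_congr rfl fun B _ => a2 B, hc1] at b2
    rw [← Finset.mul_sum] at b2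
    simp only [pow_zero, inv_one, one_mul, mul_zero, zero_add, pow_one] at b1 b2
    rw [g10, g11] at b2
    push_cast at b2
    have : (q : ℂ) * Complex.I * κ = 0 := by
      linear_combination b2 - ((q : ℂ) * Complex.I + 1) * b1
    rcases mul_eq_zero.1 this with h | h
    · exfalso
      rcases mul_eq_zero.1 h with h | h
      · have : q ≠ 0 := by omega
        exact this (by exact_mod_cast h)
      · exact Complex.I_ne_zero h
    · exact h
  intro r u hu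
  have := hkey r u hu
  rw [hκ0, mul_zero, sub_eq_zero] at this
  exact this

end RZ

end Pool.Agent.Lib.MP_7c08ba_nt
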