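import Mathlib
import Pool.Agent.Lib.MP_7c08ba_nt.RZ.StA

set_option autoImplicit false

/-!
The weight of a normalised eigenform of level one is even and at least `12`.
-/

namespace Pool.Agent.Lib.MP_7c08ba_nt

namespace RZ

open NumberField MeasureTheory UpperHalfPlane Set
open scoped MatrixGroups ComplexConjugate nonZeroDivisors

private theorem ne_zero_of_isEigen {w : ℕ} (f : CuspForm 𝒮ℒ (w : ℤ)) (hf : IsEigen f) :
    (f : ℍ → ℂ) ≠ 0 := by
  intro h0
  have h1 := hf.one
  unfold coef at h1
  rw [h0] at h1
  simp [UpperHalfPlane.qExpansion_zero] at h1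

theorem stW12 : StW12 := by
  intro w f hf
  have hne := ne_zero_of_isEigen f hf
  constructor
  · by_contra hlt
    have hk : (w : ℤ) < 12 := by omega
    have hr := CuspForm.rank_eq_zero_of_weight_lt_twelve hk
    have h0 : f = 0 := rank_zero_iff_forall_zero.mp hr f
    exact hne (by rw [h0]; rfl)
  · by_contra hodd
    have hodd' : Odd (w : ℤ) := by
      rw [Nat.not_even_iff_odd] at hodd
      exact_mod_cast hodd
    apply hne
    funext z
    have hz := SlashInvariantForm.slash_action_eqn'' f
      (show (-1 : GL (Fin 2) ℝ) ∈ 𝒮ℒ from ⟨-1, by ext; simp⟩) z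
    rw [neg_smul, one_smul, denom_neg, denom_one, hodd'.neg_one_zpow] at hz
    have h2 : (2 : ℂ) * f z = 0 := by linear_combination hz
    simpa using (mul_eq_zero.mp h2).resolve_left (by norm_num)

end RZ

end Pool.Agent.Lib.MP_7c08ba_nt
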