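import Mathlib
import Pool.Agent.Lib.MP_7c08ba_nt.RZ.StG
import Pool.Agent.Lib.MP_7c08ba_nt.RZ.W12

set_option autoImplicit false

/-!
(G27): the Euler product over the rational primes, for every odd fundamental discriminant.
-/

namespace Pool.Agent.Lib.MP_7c08ba_nt

namespace RZ

open NumberField MeasureTheory UpperHalfPlane Set IsDedekindDomain
open scoped MatrixGroups ComplexConjugate nonZeroDivisors

namespace EulQDAux

variable {F : Type} [Field F] [NumberField F]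

/-- the coefficients at the powers of a prime -/
theorem coef_rec {w : ℕ} {f : CuspForm 𝒮ℒ (w : ℤ)} (hf : IsEigen f) {p : ℕ} (hp : p.Prime)
    (n : ℕ) : coef f (p ^ (n + 2)) =
      coef f p * coef f (p ^ (n + 1)) - (p : ℂ) ^ (w - 1) * coef f (p ^ n) := by
  have h := hf.mul (p ^ (n + 1)) p (pow_pos hp.pos _) hp.pos
  have hg : (p ^ (n + 1)).gcd p = p :=
    Nat.gcd_eq_right (dvd_pow_self p (Nat.succ_ne_zero n))
  have e1 : p ^ (n + 1) * p / 1 ^ 2 = p ^ (n + 2) := by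
    rw [one_pow, Nat.div_one, ← pow_succ]
  have e2 : p ^ (n + 1) * p / p ^ 2 = p ^ n := by
    rw [← pow_succ, show n + 1 + 1 = n + 2 by ring, pow_add]
    exact Nat.mul_div_cancel _ (pow_pos hp.pos _)
  rw [hg, Nat.Prime.sum_divisors hp, e1, e2, Nat.cast_one, one_pow, one_mul] at h
  linear_combination (-1 : ℂ) * h

/-- powers of natural numbers -/
theorem pow_cpow (p n : ℕ) (s : ℂ) : ((p ^ n : ℕ) : ℂ) ^ s = ((p : ℂ) ^ s) ^ n := by
  induction n with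
  | zero => simp
  | succ n ih =>
    rw [pow_succ, Nat.cast_mul, Complex.natCast_mul_natCast_cpow, ih, pow_succ]

/-- the local factor of the character -/
theorem factor_eq {p : ℕ} (hp : p.Prime) {w r : ℕ} (hw : 1 ≤ w) (z : ℂ) :
    (p : ℂ) ^ (-(1 + 2 * z)) =
      (p : ℂ) ^ (w - 1) * (p : ℂ) ^ (w + 2 * r) * ((p : ℂ) ^ (-((w : ℂ) + r + z))) ^ 2 := by
  have hp0 : (p : ℂ) ≠ 0 := Nat.cast_ne_zero.mpr hp.ne_zero
  rw [← Complex.cpow_natCast, ← Complex.cpow_natCast, ← Complex.cpow_nat_mul,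
    ← Complex.cpow_add _ _ hp0, ← Complex.cpow_add _ _ hp0]
  congr 1
  push_cast [Nat.cast_sub hw]
  ring

/-- the value of the Hecke character at a rational number -/
theorem psi_nat {σ : F →+* ℂ} {k : ℕ} {ψ : Ideal (𝓞 F) →*₀ ℂ} (hψ : IsHecke σ k ψ) {p : ℕ}
    (hp : p ≠ 0) : ψ (Ideal.span {(p : 𝓞 F)}) = (p : ℂ) ^ k := by
  rw [hψ (p : 𝓞 F) (Nat.cast_ne_zero.mpr hp)]
  congr 1
  simp

theorem one_sub_ne {D : ℕ} (χ : DirichletCharacter ℂ D) {p : ℕ} (hp : p.Prime) {z : ℂ}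
    (hz : 1 < z.re) : 1 - χ p * (p : ℂ) ^ (-(1 + 2 * z)) ≠ 0 := by
  intro h
  have h1 : χ p * (p : ℂ) ^ (-(1 + 2 * z)) = 1 := (sub_eq_zero.mp h).symm
  have h2 : ‖χ p * (p : ℂ) ^ (-(1 + 2 * z))‖ < 1 := by
    rw [norm_mul, Complex.norm_natCast_cpow_of_pos hp.pos]
    have h3 : ‖χ p‖ ≤ 1 := DirichletCharacter.norm_le_one χ _
    have h4 : ((p : ℕ) : ℝ) ^ (-(1 + 2 * z)).re < 1 := by
      apply Real.rpow_lt_one_of_one_lt_of_neg
      · exact_mod_cast hp.one_lt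
      · simp only [Complex.neg_re, Complex.add_re, Complex.one_re, Complex.mul_re,
          Complex.re_ofNat, Complex.im_ofNat, zero_mul, sub_zero]
        linarith
    have h5 : 0 ≤ ((p : ℕ) : ℝ) ^ (-(1 + 2 * z)).re := Real.rpow_nonneg (Nat.cast_nonneg _) _
    calc ‖χ p‖ * ((p : ℕ) : ℝ) ^ (-(1 + 2 * z)).re ≤ 1 * ((p : ℕ) : ℝ) ^ (-(1 + 2 * z)).re :=
          mul_le_mul_of_nonneg_right h3 h5
      _ < 1 := by rw [one_mul]; exact h4
  rw [h1, norm_one] at h2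
  exact lt_irrefl _ h2

/-- a place of given ideal -/
theorem place_eq {v₀ : HeightOneSpectrum (𝓞 F)} (v : HeightOneSpectrum (𝓞 F))
    (h : v₀.asIdeal ≤ v.asIdeal) : v = v₀ := by
  apply HeightOneSpectrum.ext
  exact ((v₀.isPrime.isMaximal v₀.ne_bot).eq_of_le v.isPrime.ne_top h).symm

omit [NumberField F] in
theorem exists_place {P : Ideal (𝓞 F)} (hP : P.IsPrime) (hP0 : P ≠ ⊥) :
    ∃ v : HeightOneSpectrum (𝓞 F), v.asIdeal = P := ⟨⟨P, hP, hP0⟩, rfl⟩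

/-- every place lies above a rational prime -/
theorem exists_prime (v : HeightOneSpectrum (𝓞 F)) :
    ∃ p : ℕ, p.Prime ∧ (p : 𝓞 F) ∈ v.asIdeal := by
  have h1 : ((Ideal.absNorm v.asIdeal : ℕ) : 𝓞 F) ∈ v.asIdeal := Ideal.absNorm_mem _
  have h0 : Ideal.absNorm v.asIdeal ≠ 0 := by
    rw [Ne, Ideal.absNorm_eq_zero_iff]; exact v.ne_bot
  have key : ∀ l : List ℕ, ((l.prod : ℕ) : 𝓞 F) ∈ v.asIdeal → ∃ p ∈ l, (p : 𝓞 F) ∈ v.asIdeal := by
    intro l
    induction l with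
    | nil => intro h; exact absurd ((Ideal.eq_top_iff_one _).2 (by simpa using h)) v.isPrime.ne_top
    | cons a l ih =>
      intro h
      rw [List.prod_cons, Nat.cast_mul] at h
      rcases v.isPrime.mem_or_mem h with h | h
      · exact ⟨a, by simp, h⟩
      · obtain ⟨p, hp, h⟩ := ih h
        exact ⟨p, by simp [hp], h⟩
  obtain ⟨p, hp, h⟩ := key (Ideal.absNorm v.asIdeal).primeFactorsList (by
    rw [Nat.prod_primeFactorsList h0]; exact h1)
  exact ⟨p, Nat.prime_of_mem_primeFactorsList hp, h⟩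

/-- the Euler factor at a place of degree one -/
theorem eulF_one {w : ℕ} (f : CuspForm 𝒮ℒ (w : ℤ)) (ψ : Ideal (𝓞 F) →*₀ ℂ) (W : ℂ)
    (v : HeightOneSpectrum (𝓞 F)) {p : ℕ} (hp : p.Prime) (hv : Ideal.absNorm v.asIdeal = p) :
    eulF f ψ W v = 1 - coef f p * ψ v.asIdeal * (p : ℂ) ^ (-W) +
      (p : ℂ) ^ (w - 1) * (ψ v.asIdeal) ^ 2 * ((p : ℂ) ^ (-W)) ^ 2 := by
  unfold eulF tv
  rw [hv, if_pos hp]

/-- the Euler factor at a place of degree two -/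
theorem eulF_two {w : ℕ} (f : CuspForm 𝒮ℒ (w : ℤ)) (ψ : Ideal (𝓞 F) →*₀ ℂ) (W : ℂ)
    (v : HeightOneSpectrum (𝓞 F)) {p : ℕ} (hp : p.Prime)
    (hv : Ideal.absNorm v.asIdeal = p ^ 2) :
    eulF f ψ W v = 1 - (coef f p ^ 2 - 2 * (p : ℂ) ^ (w - 1)) * ψ v.asIdeal *
      ((p : ℂ) ^ (-W)) ^ 2 +
      ((p : ℂ) ^ (w - 1)) ^ 2 * (ψ v.asIdeal) ^ 2 * ((p : ℂ) ^ (-W)) ^ 4 := by
  unfold eulF tv
  have h1 : ¬ (p ^ 2).Prime := Nat.Prime.not_prime_pow le_rfl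
  have h2 : (p ^ 2).minFac = p := by
    rw [Nat.pow_minFac two_ne_zero, hp.minFac_eq]
  rw [hv, if_neg h1, h2, pow_cpow]
  push_cast
  ring

/-- the local computation, ramified primes -/
theorem local_ram (h4 : StLocal) {w : ℕ} (f : CuspForm 𝒮ℒ (w : ℤ)) (hf : IsEigen f)
    (ψ : Ideal (𝓞 F) →*₀ ℂ) (W : ℂ) {p : ℕ} (hp : p.Prime) {P : Ideal (𝓞 F)} (hP : P.IsPrime)
    (hP0 : P ≠ ⊥) (hP2 : P ^ 2 = Ideal.span {(p : 𝓞 F)}) (hN : Ideal.absNorm P = p)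
    (g : ℕ → ℂ) (hg : ∀ e, g e = coef f (p ^ e) * ψ P ^ e * ((p : ℂ) ^ (-W)) ^ e)
    (hs : Summable fun e => ‖g e‖) :
    ∃ t : Finset (HeightOneSpectrum (𝓞 F)), (∀ v, v ∈ t ↔ (p : 𝓞 F) ∈ v.asIdeal) ∧
      (∑' e, g e) * ∏ v ∈ t, eulF f ψ W v = 1 := by
  classical
  obtain ⟨v₀, hv₀⟩ := exists_place hP hP0
  refine ⟨{v₀}, fun v => ?_, ?_⟩
  · rw [Finset.mem_singleton]
    constructor
    · rintro rfl
      have : (p : 𝓞 F) ∈ P ^ 2 := by
        rw [hP2]; exact Ideal.mem_span_singleton_self _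
      rw [hv₀]
      exact Ideal.pow_le_self two_ne_zero this
    · intro hv
      apply place_eq
      have : P ^ 2 ≤ v.asIdeal := by
        rw [hP2, Ideal.span_singleton_le_iff_mem]; exact hv
      rw [hv₀]
      exact v.isPrime.le_of_pow_le this
  · rw [Finset.prod_singleton, eulF_one f ψ W v₀ hp (by rw [hv₀, hN]), hv₀, tsum_congr hg]
    obtain ⟨-, -, l3⟩ := h4 (fun n => coef f (p ^ n)) (coef f p) ((p : ℂ) ^ (w - 1))
      (by simp only [pow_zero]; exact hf.one) (by simp only [pow_one])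
      (fun n => coef_rec hf hp n)
    exact l3 (ψ P) ((p : ℂ) ^ (-W)) (hs.congr fun e => by rw [hg])

/-- the local computation, split primes -/
theorem local_split (h4 : StLocal) {w : ℕ} (f : CuspForm 𝒮ℒ (w : ℤ)) (hf : IsEigen f)
    (ψ : Ideal (𝓞 F) →*₀ ℂ) (W : ℂ) {p : ℕ} (hp : p.Prime) {P P' : Ideal (𝓞 F)}
    (hP : P.IsPrime) (hP' : P'.IsPrime) (hP0 : P ≠ ⊥) (hP0' : P' ≠ ⊥) (hne : P ≠ P')
    (hPP : P * P' = Ideal.span {(p : 𝓞 F)}) (hN : Ideal.absNorm P = p)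
    (hN' : Ideal.absNorm P' = p)
    (g : ℕ → ℂ) (hg : ∀ e, g e = coef f (p ^ e) *
      (∑ i ∈ Finset.range (e + 1), ψ P ^ i * ψ P' ^ (e - i)) * ((p : ℂ) ^ (-W)) ^ e)
    (hs : Summable fun e => ‖g e‖) :
    ∃ t : Finset (HeightOneSpectrum (𝓞 F)), (∀ v, v ∈ t ↔ (p : 𝓞 F) ∈ v.asIdeal) ∧
      (∑' e, g e) * ∏ v ∈ t, eulF f ψ W v =
        1 - (p : ℂ) ^ (w - 1) * (ψ P * ψ P') * ((p : ℂ) ^ (-W)) ^ 2 := by
  classical
  obtain ⟨v₁, hv₁⟩ := exists_place hP hP0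
  obtain ⟨v₂, hv₂⟩ := exists_place hP' hP0'
  have hv12 : v₁ ≠ v₂ := by
    rintro rfl
    exact hne (hv₁.symm.trans hv₂)
  refine ⟨{v₁, v₂}, fun v => ?_, ?_⟩
  · rw [Finset.mem_insert, Finset.mem_singleton]
    have hpm : (p : 𝓞 F) ∈ P * P' := by
      rw [hPP]; exact Ideal.mem_span_singleton_self _
    constructor
    · rintro (rfl | rfl)
      · rw [hv₁]; exact Ideal.mul_le_left hpm
      · rw [hv₂]; exact Ideal.mul_le_right hpm
    · intro hv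
      have hle : P * P' ≤ v.asIdeal := by
        rw [hPP, Ideal.span_singleton_le_iff_mem]; exact hv
      rcases v.isPrime.mul_le.1 hle with h' | h'
      · exact Or.inl (place_eq v (by rw [hv₁]; exact h'))
      · exact Or.inr (place_eq v (by rw [hv₂]; exact h'))
  · rw [Finset.prod_pair hv12, eulF_one f ψ W v₁ hp (by rw [hv₁, hN]),
      eulF_one f ψ W v₂ hp (by rw [hv₂, hN']), hv₁, hv₂, tsum_congr hg]
    obtain ⟨l1, -, -⟩ := h4 (fun n => coef f (p ^ n)) (coef f p) ((p : ℂ) ^ (w - 1))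
      (by simp only [pow_zero]; exact hf.one) (by simp only [pow_one])
      (fun n => coef_rec hf hp n)
    have := l1 (ψ P) (ψ P') ((p : ℂ) ^ (-W)) (hs.congr fun e => by rw [hg])
    rw [mul_assoc _ (ψ P) (ψ P')] at this
    exact this

/-- the local computation, inert primes -/
theorem local_inert (h4 : StLocal) {w : ℕ} (f : CuspForm 𝒮ℒ (w : ℤ)) (hf : IsEigen f)
    (ψ : Ideal (𝓞 F) →*₀ ℂ) (W : ℂ) {p : ℕ} (hp : p.Prime) {P : Ideal (𝓞 F)} (hP : P.IsPrime)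
    (hP0 : P ≠ ⊥) (hP2 : P = Ideal.span {(p : 𝓞 F)}) (hN : Ideal.absNorm P = p ^ 2)
    (g : ℕ → ℂ) (hodd : ∀ e, g (2 * e + 1) = 0)
    (hev : ∀ e, g (2 * e) = coef f (p ^ (2 * e)) * ψ P ^ e * ((p : ℂ) ^ (-W)) ^ (2 * e))
    (hs : Summable fun e => ‖g e‖) :
    ∃ t : Finset (HeightOneSpectrum (𝓞 F)), (∀ v, v ∈ t ↔ (p : 𝓞 F) ∈ v.asIdeal) ∧
      (∑' e, g e) * ∏ v ∈ t, eulF f ψ W v =
        1 + (p : ℂ) ^ (w - 1) * ψ P * ((p : ℂ) ^ (-W)) ^ 2 := by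
  classical
  obtain ⟨v₀, hv₀⟩ := exists_place hP hP0
  refine ⟨{v₀}, fun v => ?_, ?_⟩
  · rw [Finset.mem_singleton]
    constructor
    · rintro rfl
      rw [hv₀, hP2]
      exact Ideal.mem_span_singleton_self _
    · intro hv
      apply place_eq
      rw [hv₀, hP2, Ideal.span_singleton_le_iff_mem]
      exact hv
  · have hinj : Function.Injective fun e : ℕ => 2 * e := fun a b hab => by
      simpa using hab
    have hsupp : Function.support g ⊆ Set.range fun e : ℕ => 2 * e := by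
      intro e he
      rcases Nat.even_or_odd' e with ⟨m, rfl | rfl⟩
      · exact ⟨m, rfl⟩
      · exact absurd (hodd m) he
    have hts : ∑' e, g e = ∑' e, g (2 * e) := (hinj.tsum_eq hsupp).symm
    rw [Finset.prod_singleton, eulF_two f ψ W v₀ hp (by rw [hv₀, hN]), hv₀, hts,
      tsum_congr hev]
    obtain ⟨-, l2, -⟩ := h4 (fun n => coef f (p ^ n)) (coef f p) ((p : ℂ) ^ (w - 1))
      (by simp only [pow_zero]; exact hf.one) (by simp only [pow_one])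
      (fun n => coef_rec hf hp n)
    exact l2 (ψ P) ((p : ℂ) ^ (-W)) ((hs.comp_injective hinj).congr fun e => by
      simp only [Function.comp_apply]; rw [hev])

/-- the local computation -/
theorem local_all (h3 : StSplitD) (h2 : StBmulD) (h4 : StLocal) {D : ℕ} {s : 𝓞 F} {σ : F →+* ℂ}
    {χ : DirichletCharacter ℂ D} {cj : 𝓞 F ≃+* 𝓞 F} {w r : ℕ} (f : CuspForm 𝒮ℒ (w : ℤ))
    (ψ : Ideal (𝓞 F) →*₀ ℂ) (hD : DatD D s σ χ cj) (hf : IsEigen f)
    (hψ : IsHecke σ (w + 2 * r) ψ) (hw : 1 ≤ w) (z : ℂ) {p : ℕ} (hp : p.Prime)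
    (hs : Summable fun e : ℕ => ‖coef f (p ^ e) * bψ ψ (p ^ e) *
      ((p ^ e : ℕ) : ℂ) ^ (-((w : ℂ) + r + z))‖) :
    ∃ t : Finset (HeightOneSpectrum (𝓞 F)), (∀ v, v ∈ t ↔ (p : 𝓞 F) ∈ v.asIdeal) ∧
      (∑' e : ℕ, coef f (p ^ e) * bψ ψ (p ^ e) * ((p ^ e : ℕ) : ℂ) ^ (-((w : ℂ) + r + z))) *
        ∏ v ∈ t, eulF f ψ ((w : ℂ) + r + z) v = 1 - χ p * (p : ℂ) ^ (-(1 + 2 * z)) := by
  obtain ⟨hb1, hbm, hbs, hbi, hbr⟩ := h2 D F _ _ s σ χ cj (w + 2 * r) ψ hD hψ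
  obtain ⟨c1, c2, c3⟩ := h3 D F _ _ s σ χ cj hD p hp
  have hp0 : (Ideal.span {((p : ℕ) : 𝓞 F)}) ≠ ⊥ := by
    rw [Ne, Ideal.span_singleton_eq_bot]
    exact_mod_cast hp.ne_zero
  have hchi : χ p = (jacobiSym p D : ℂ) := by
    have := hD.chi (p : ℤ)
    simpa using this
  have hpsi := psi_nat hψ hp.ne_zero
  rw [factor_eq hp hw z]
  rcases jacobiSym.trichotomy (p : ℕ) D with h | h | h
  · obtain ⟨hpD, hr, hr2, hrn⟩ := c3 h
    have hr0 : ram s p ≠ ⊥ := by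
      intro h0
      rw [h0] at hr2
      apply hp0
      rw [← hr2]
      simp
    rw [hchi, h, Int.cast_zero, zero_mul, sub_zero]
    refine local_ram h4 f hf ψ _ hp hr hr0 hr2 hrn _ (fun e => ?_) hs
    rw [pow_cpow, hbr p hp hpD]
  · obtain ⟨P, P', hP, hP', hne, hPP, hN, hN'⟩ := c1 h
    have hb : P ≠ ⊥ ∧ P' ≠ ⊥ := by
      constructor
      · rintro rfl; apply hp0; rw [← hPP]; simp
      · rintro rfl; apply hp0; rw [← hPP]; simp
    rw [hchi, h, Int.cast_one, one_mul, ← hpsi, ← hPP, map_mul]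
    refine local_split h4 f hf ψ _ hp hP hP' hb.1 hb.2 hne hPP hN hN' _ (fun e => ?_) hs
    rw [pow_cpow, hbs p hp h P P' hP hP' hne hPP]
  · obtain ⟨hP, hN⟩ := c2 h
    rw [hchi, h, ← hpsi, Int.cast_neg, Int.cast_one, neg_one_mul, sub_neg_eq_add]
    refine local_inert h4 f hf ψ _ hp hP hp0 rfl hN _ (fun e => ?_) (fun e => ?_) hs
    · rw [(hbi p hp h e).1, mul_zero, zero_mul]
    · rw [pow_cpow, (hbi p hp h e).2, hpsi]

end EulQDAux

open EulQDAux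

theorem stEulQD (h1 : StDnD) (h2 : StBmulD) (h3 : StSplitD) (h4 : StLocal) (_h5 : StPsiD)
    (_h6 : StBasD) (h7 : StCoef) : StEulQD := by
  intro D _ F _ _ s σ χ cj w r f ψ hD hf hψ z hz
  have hw : 1 ≤ w := by
    have := (stW12 w f hf).1
    omega
  obtain ⟨hsum, -⟩ := h1 D F _ _ s σ χ cj w r f ψ hD hw hψ
  obtain ⟨hb1, hbm, -⟩ := h2 D F _ _ s σ χ cj (w + 2 * r) ψ hD hψ
  have hs := hsum z hz
  obtain ⟨g, hg⟩ : ∃ g : ℕ → ℂ, ∀ n, g n = coef f n * bψ ψ n *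
      (n : ℂ) ^ (-((w : ℂ) + r + z)) := ⟨_, fun _ => rfl⟩
  have hsg : Summable fun n => ‖g n‖ := hs.congr fun n => by rw [hg]
  have hg0 : g 0 = 0 := by rw [hg, (h7 w f).1, zero_mul, zero_mul]
  have hg1 : g 1 = 1 := by
    rw [hg, hf.one, hb1, Nat.cast_one, Complex.one_cpow, mul_one, mul_one]
  have hcm : ∀ m n : ℕ, m.Coprime n → coef f (m * n) = coef f m * coef f n := by
    intro m n hmn
    rcases Nat.eq_zero_or_pos m with rfl | hm
    · have : n = 1 := by simpa using hmn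
      rw [this, hf.one, mul_one, mul_one]
    · rcases Nat.eq_zero_or_pos n with rfl | hn
      · have : m = 1 := by simpa using hmn
        rw [this, hf.one, one_mul, one_mul]
      · have h := hf.mul m n hm hn
        rw [hmn.gcd_eq_one, Nat.divisors_one, Finset.sum_singleton, Nat.cast_one, one_pow,
          one_mul, one_pow, Nat.div_one] at h
        exact h.symm
  have hgm : ∀ {m n : ℕ}, m.Coprime n → g (m * n) = g m * g n := by
    intro m n hmn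
    rw [hg, hg, hg, hcm m n hmn, hbm m n hmn, Nat.cast_mul, Complex.natCast_mul_natCast_cpow]
    ring
  have hE := EulerProduct.eulerProduct_hasProd hg1 hgm hsg hg0
  have hz1 : 1 < (1 + 2 * z).re := by
    simp only [Complex.add_re, Complex.one_re, Complex.mul_re, Complex.re_ofNat,
      Complex.im_ofNat, zero_mul, sub_zero]
    linarith
  have hL := DirichletCharacter.LSeries_eulerProduct_hasProd χ hz1
  rw [← DirichletCharacter.LFunction_eq_LSeries χ hz1] at hL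
  have hsp : ∀ p : ℕ, p.Prime → Summable fun e => ‖g (p ^ e)‖ := fun p hp =>
    hsg.comp_injective (Nat.pow_right_injective hp.two_le)
  have key : ∀ p : ℕ, p.Prime → ∃ t : Finset (HeightOneSpectrum (𝓞 F)),
      (∀ v, v ∈ t ↔ (p : 𝓞 F) ∈ v.asIdeal) ∧
      (∑' e, g (p ^ e)) * ∏ v ∈ t, eulF f ψ ((w : ℂ) + r + z) v =
        1 - χ p * (p : ℂ) ^ (-(1 + 2 * z)) := by
    intro p hp
    have := local_all h3 h2 h4 f ψ hD hf hψ hw z hp ((hsp p hp).congr fun e => by rw [hg])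
    obtain ⟨t, ht, he⟩ := this
    refine ⟨t, ht, ?_⟩
    rw [← he, tsum_congr fun e => hg (p ^ e)]
  constructor
  · intro v
    obtain ⟨p, hp, hv⟩ := exists_prime v
    obtain ⟨t, ht, he⟩ := key p hp
    intro h0
    rw [Finset.prod_eq_zero ((ht v).2 hv) h0, mul_zero] at he
    exact one_sub_ne χ hp hz he.symm
  · have hDn : Dn f ψ ((w : ℂ) + r + z) = ∑' n, g n := (tsum_congr hg).symm
    rw [hDn]
    refine (hL.mul hE).congr_fun fun p => ?_
    obtain ⟨t, ht, he⟩ := key p p.2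
    have hset : {v : HeightOneSpectrum (𝓞 F) | (p : 𝓞 F) ∈ v.asIdeal} = ↑t := by
      ext v
      exact (ht v).symm
    have hfin : ∏ᶠ v : {v : HeightOneSpectrum (𝓞 F) // (p : 𝓞 F) ∈ v.asIdeal},
        (eulF f ψ ((w : ℂ) + r + z) v.1)⁻¹ = (∏ v ∈ t, eulF f ψ ((w : ℂ) + r + z) v)⁻¹ := by
      have e1 := finprod_set_coe_eq_finprod_mem (M := ℂ)
        (f := fun v => (eulF f ψ ((w : ℂ) + r + z) v)⁻¹)
        {v : HeightOneSpectrum (𝓞 F) | (p : 𝓞 F) ∈ v.asIdeal}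
      rw [hset, finprod_mem_coe_finset, Finset.prod_inv_distrib] at e1
      rw [← e1, ← hset]
      rfl
    rw [hfin]
    have hne : 1 - χ p * ((p : ℕ) : ℂ) ^ (-(1 + 2 * z)) ≠ 0 := one_sub_ne χ p.2 hz
    have hE0 : ∏ v ∈ t, eulF f ψ ((w : ℂ) + r + z) v ≠ 0 := by
      intro h0
      rw [h0, mul_zero] at he
      exact hne he.symm
    rw [← he] at hne ⊢
    have hS0 : (∑' e, g (p ^ e)) ≠ 0 := left_ne_zero_of_mul hne
    field_simp

end RZ

end Pool.Agent.Lib.MP_7c08ba_nt
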