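import Pool.Agent.Lib.MP_7c08ba_nt.RZ.StA

set_option autoImplicit false

/-! (A3) The fundamental domain has finite volume. -/

namespace Pool.Agent.Lib.MP_7c08ba_nt

namespace RZ

open NumberField MeasureTheory UpperHalfPlane Set
open scoped MatrixGroups ComplexConjugate nonZeroDivisors

namespace FdAux

theorem bounds {z : ℍ} (hz : z ∈ (ModularGroup.fd : Set ℍ)) : 1 / 2 < z.im ∧ |z.re| ≤ 1 / 2 := by
  have h1 := ModularGroup.three_le_four_mul_im_sq_of_mem_fd hz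
  have h2 := z.im_pos
  refine ⟨?_, hz.2⟩
  by_contra h3
  push Not at h3
  nlinarith

theorem int_lt : ∫⁻ y in Ioi (1 / 2 : ℝ), (((1 / ‖y‖₊) ^ 2 : NNReal) : ENNReal) < ⊤ := by
  have h1 := integrableOn_Ioi_rpow_of_lt (by norm_num : (-2 : ℝ) < -1)
    (by norm_num : (0 : ℝ) < 1 / 2)
  have h2 := h1.2
  rw [hasFiniteIntegral_iff_enorm] at h2
  refine lt_of_le_of_lt (le_of_eq ?_) h2
  refine setLIntegral_congr_fun measurableSet_Ioi fun y hy => ?_
  have hy0 : 0 < y := lt_trans (by norm_num) hy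
  have e1 : y ^ (-2 : ℝ) = (1 / y) ^ 2 := by
    rw [Real.rpow_neg hy0.le]
    norm_num
  change _ = ‖y ^ (-2 : ℝ)‖ₑ
  rw [e1, enorm_eq_nnnorm]
  congr 1
  rw [nnnorm_pow, nnnorm_div, nnnorm_one]

theorem prod_lt : ∫⁻ p in (Icc (-(1 / 2) : ℝ) (1 / 2)) ×ˢ (Ioi (1 / 2 : ℝ)),
    (((1 / ‖(p : ℝ × ℝ).2‖₊) ^ 2 : NNReal) : ENNReal) < ⊤ := by
  have hm : Measurable fun y : ℝ => (((1 / ‖y‖₊) ^ 2 : NNReal) : ENNReal) := by
    refine Measurable.coe_nnreal_ennreal ?_
    exact (measurable_const.div measurable_nnnorm).pow_const 2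
  have h1 := lintegral_prod_mul (μ := volume.restrict (Icc (-(1 / 2) : ℝ) (1 / 2)))
    (ν := volume.restrict (Ioi (1 / 2 : ℝ))) (f := fun _ => (1 : ENNReal))
    (g := fun y : ℝ => (((1 / ‖y‖₊) ^ 2 : NNReal) : ENNReal)) measurable_const.aemeasurable
    hm.aemeasurable
  rw [Measure.prod_restrict] at h1
  simp only [one_mul] at h1
  refine lt_of_le_of_lt (le_of_eq h1) ?_
  refine ENNReal.mul_lt_top ?_ int_lt
  rw [lintegral_one, Measure.restrict_apply_univ]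
  exact measure_Icc_lt_top

theorem vol_lt : volume (ModularGroup.fd : Set ℍ) < ⊤ := by
  rw [volume_eq_lintegral]
  have hm : Measurable fun p : ℝ × ℝ => (((1 / ‖p.2‖₊) ^ 2 : NNReal) : ENNReal) := by
    refine Measurable.coe_nnreal_ennreal ?_
    exact (measurable_const.div (measurable_nnnorm.comp measurable_snd)).pow_const 2
  have hS : MeasurableSet ((Icc (-(1 / 2) : ℝ) (1 / 2)) ×ˢ (Ioi (1 / 2 : ℝ))) :=
    measurableSet_Icc.prod measurableSet_Ioi
  have h1 := Complex.volume_preserving_equiv_real_prod.setLIntegral_comp_preimage hS hm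
  refine lt_of_le_of_lt ?_ (lt_of_le_of_lt (le_of_eq h1) prod_lt)
  refine lintegral_mono_set ?_
  rintro _ ⟨z, hz, rfl⟩
  obtain ⟨h2, h3⟩ := bounds hz
  exact ⟨abs_le.mp h3, h2⟩

end FdAux

/-- (A3) -/
theorem stFd : StFd :=
  ⟨FdAux.vol_lt, ModularGroup.isClosed_fd.measurableSet, fun _ hz => FdAux.bounds hz⟩

end RZ

end Pool.Agent.Lib.MP_7c08ba_nt
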