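import Pool.Agent.Lib.MP_7c08ba_nt.RZ.StA

set_option autoImplicit false

/-! (A18): the Gamma integral of a Laguerre polynomial. -/

namespace Pool.Agent.Lib.MP_7c08ba_nt

namespace RZ

open MeasureTheory Set

namespace GamAux

theorem real_int (n : ℕ) {a : ℝ} (ha : 0 < a) :
    IntegrableOn (fun y : ℝ => y ^ n * Real.exp (-(a * y))) (Ioi 0) ∧
    ∫ y in Ioi (0 : ℝ), y ^ n * Real.exp (-(a * y)) = n.factorial * (a ^ (n + 1))⁻¹ := by
  constructor
  · have h := integrableOn_rpow_mul_exp_neg_mul_rpow (p := 1) (s := n) (b := a)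
      (by have : (0 : ℝ) ≤ n := Nat.cast_nonneg n
          linarith) (by norm_num) ha
    refine h.congr_fun (fun y _ => ?_) measurableSet_Ioi
    simp only [Real.rpow_natCast, Real.rpow_one]
    ring_nf
  · have h := Real.integral_rpow_mul_exp_neg_mul_Ioi (a := (n : ℝ) + 1) (r := a) (by positivity) ha
    have e : ∫ y in Ioi (0 : ℝ), y ^ n * Real.exp (-(a * y)) =
        ∫ y in Ioi (0 : ℝ), y ^ ((n : ℝ) + 1 - 1) * Real.exp (-(a * y)) := by
      refine setIntegral_congr_fun measurableSet_Ioi fun y _ => ?_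
      simp only [add_sub_cancel_right, Real.rpow_natCast]
    rw [e, h, Real.Gamma_nat_eq_factorial]
    have e2 : (1 / a) ^ ((n : ℝ) + 1) = (a ^ (n + 1))⁻¹ := by
      have : ((n : ℝ) + 1) = ((n + 1 : ℕ) : ℝ) := by push_cast; ring
      rw [this, Real.rpow_natCast, one_div, inv_pow]
    rw [e2]
    ring

theorem cplx_int (n : ℕ) {a : ℝ} (ha : 0 < a) :
    IntegrableOn (fun y : ℝ => (y : ℂ) ^ n * Complex.exp (-(a * y))) (Ioi 0) ∧
    ∫ y in Ioi (0 : ℝ), (y : ℂ) ^ n * Complex.exp (-(a * y)) =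
      n.factorial * ((a : ℂ) ^ (n + 1))⁻¹ := by
  obtain ⟨h1, h2⟩ := real_int n ha
  have e : (fun y : ℝ => (y : ℂ) ^ n * Complex.exp (-(a * y))) =
      fun y : ℝ => ((y ^ n * Real.exp (-(a * y)) : ℝ) : ℂ) := by
    funext y
    push_cast
    rfl
  rw [e]
  refine ⟨h1.ofReal, ?_⟩
  rw [integral_complex_ofReal, h2]
  push_cast
  rfl

end GamAux

open GamAux

theorem stGam : StGam := by
  intro w r Qα Qβ hw hα hβ
  have ha : 0 < 4 * Real.pi * Qα := by positivity
  set a : ℝ := 4 * Real.pi * Qα with hadef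
  have hac : (4 * Real.pi * Qα : ℂ) = (a : ℂ) := by rw [hadef]; push_cast; ring
  have ha0 : (a : ℂ) ≠ 0 := by exact_mod_cast ha.ne'
  let g : ℕ → ℝ → ℂ := fun j y =>
    ((r.choose j : ℂ) * (-(4 * Real.pi * Qβ)) ^ j / (j.factorial : ℂ)) *
      ((y : ℂ) ^ (w + r - 1 + j) * Complex.exp (-(a * y)))
  have hg : ∀ y : ℝ, (y : ℂ) ^ (w + r - 1) * lag r (4 * Real.pi * Qβ * y) *
      Complex.exp (-(4 * Real.pi * Qα * y)) = ∑ j ∈ Finset.range (r + 1), g j y := by
    intro y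
    unfold lag
    rw [Finset.mul_sum, Finset.sum_mul, hac]
    refine Finset.sum_congr rfl fun j _ => ?_
    simp only [g]
    rw [pow_add]
    have : (-(4 * (Real.pi : ℂ) * Qβ * y)) ^ j = (-(4 * Real.pi * Qβ)) ^ j * (y : ℂ) ^ j := by
      rw [← mul_pow]; ring
    rw [this]
    ring
  have hgi : ∀ j, IntegrableOn (g j) (Ioi 0) := fun j => (cplx_int _ ha).1.const_mul _
  have hfun : (fun y : ℝ => (y : ℂ) ^ (w + r - 1) * lag r (4 * Real.pi * Qβ * y) *
      Complex.exp (-(4 * Real.pi * Qα * y))) = fun y => ∑ j ∈ Finset.range (r + 1), g j y :=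
    funext hg
  rw [hfun]
  refine ⟨integrable_finsetSum _ fun j _ => hgi j, ?_⟩
  rw [integral_finsetSum _ fun j _ => hgi j]
  unfold Jr
  rw [Finset.mul_sum]
  refine Finset.sum_congr rfl fun j _ => ?_
  have h1 : ∫ y in Ioi (0 : ℝ), g j y =
      ((r.choose j : ℂ) * (-(4 * Real.pi * Qβ)) ^ j / (j.factorial : ℂ)) *
        (((w + r - 1 + j).factorial : ℂ) * ((a : ℂ) ^ (w + r - 1 + j + 1))⁻¹) := by
    simp only [g]
    rw [integral_const_mul, (cplx_int _ ha).2]
  rw [h1]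
  push_cast
  have h2 : ((w + r - 1 + j).factorial : ℂ) =
      ((w + r + j - 1).choose j : ℂ) * (j.factorial : ℂ) * ((w + r - 1).factorial : ℂ) := by
    have e1 : w + r + j - 1 = w + r - 1 + j := by omega
    have := Nat.choose_mul_factorial_mul_factorial (n := w + r - 1 + j) (k := j) (by omega)
    rw [Nat.add_sub_cancel] at this
    rw [e1]
    exact_mod_cast this.symm
  rw [h2]
  have h3 : w + r - 1 + j + 1 = w + r + j := by omega
  rw [h3]
  have hj : (j.factorial : ℂ) ≠ 0 := by exact_mod_cast j.factorial_ne_zero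
  have hQ : (-(4 * (Real.pi : ℂ) * Qβ)) ^ j = (a : ℂ) ^ j * (-((Qβ : ℂ) / Qα)) ^ j := by
    rw [← mul_pow]
    congr 1
    have hα0 : (Qα : ℂ) ≠ 0 := by exact_mod_cast hα.ne'
    rw [← hac]
    field_simp
  rw [hQ, pow_add]
  field_simp

end RZ

end Pool.Agent.Lib.MP_7c08ba_nt
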