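import Pool.Agent.Lib.MP_7c08ba_nt.RZ.StG

set_option autoImplicit false

/-! (G34) genus theory: the number of triples is twice the square of the class number. -/

namespace Pool.Agent.Lib.MP_7c08ba_nt

namespace RZ

open NumberField UpperHalfPlane
open scoped MatrixGroups ComplexConjugate nonZeroDivisors

namespace Genm

/-! ### Counting -/

section

variable {U C : Type} [CommGroup U] [Finite U] [CommGroup C] [Fintype C]

/-- the squares -/
abbrev sqr (U : Type) [CommGroup U] : Subgroup U := (powMonoidHom 2 : U →* U).range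

theorem card_ker_eq_index :
    Nat.card (powMonoidHom 2 : U →* U).ker = (sqr U).index := by
  have h1 : Nat.card (powMonoidHom 2 : U →* U).ker * Nat.card (sqr U) = Nat.card U := by
    rw [← Subgroup.index_ker]
    exact Subgroup.card_mul_index _
  have h2 := (sqr U).card_mul_index
  have h3 : 0 < Nat.card (sqr U) := Nat.card_pos
  rw [← h2, mul_comm] at h1
  exact Nat.eq_of_mul_eq_mul_left h3 h1

/-- the number of pairs with the same image -/
theorem pairs {Q : Type} [CommGroup Q] [Finite Q] [DecidableEq Q] (φ : C →* Q)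
    (hφ : φ.range.index = 2) :
    2 * ∑ A : C, ∑ B : C, (if φ A = φ B then Nat.card Q else 0) = 2 * (2 * Nat.card C ^ 2) := by
  classical
  have h1 : ∀ A : C, ∑ B : C, (if φ A = φ B then Nat.card Q else 0) =
      Nat.card φ.ker * Nat.card Q := by
    intro A
    rw [← Finset.sum_filter, Finset.sum_const, smul_eq_mul]
    congr 1
    rw [Nat.card_eq_fintype_card, Fintype.card_subtype]
    refine Finset.card_bij' (fun B _ => B * A⁻¹) (fun B _ => B * A) ?_ ?_ ?_ ?_
    · intro B hB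
      rw [Finset.mem_filter] at hB ⊢
      refine ⟨Finset.mem_univ _, ?_⟩
      rw [MonoidHom.mem_ker, map_mul, map_inv, ← hB.2, mul_inv_cancel]
    · intro B hB
      rw [Finset.mem_filter] at hB ⊢
      refine ⟨Finset.mem_univ _, ?_⟩
      have := hB.2
      rw [MonoidHom.mem_ker] at this
      rw [map_mul, this, one_mul]
    · intro B _
      simp
    · intro B _
      simp
  rw [Finset.sum_congr rfl fun A _ => h1 A, Finset.sum_const, smul_eq_mul, Finset.card_univ,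
    ← Nat.card_eq_fintype_card]
  have h2 : Nat.card φ.ker * Nat.card φ.range = Nat.card C := by
    rw [← Subgroup.index_ker]
    exact Subgroup.card_mul_index _
  have h3 : Nat.card φ.range * 2 = Nat.card Q := by
    rw [← hφ]
    exact Subgroup.card_mul_index _
  rw [← h3, sq]
  calc 2 * (Nat.card C * (Nat.card φ.ker * (Nat.card φ.range * 2)))
      = 2 * (2 * (Nat.card C * (Nat.card φ.ker * Nat.card φ.range))) := by ring
    _ = _ := by rw [h2]

end

/-- the number of square roots -/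
theorem roots {D : ℕ} [NeZero D] (x y : (ZMod D)ˣ) [DecidableEq ((ZMod D)ˣ ⧸ sqr (ZMod D)ˣ)] :
    ∑ ρ : ZMod D, (if ρ ^ 2 * (y : ZMod D) = (x : ZMod D) then 1 else 0) =
      if (x : (ZMod D)ˣ ⧸ sqr (ZMod D)ˣ) = (y : (ZMod D)ˣ ⧸ sqr (ZMod D)ˣ) then
        Nat.card ((ZMod D)ˣ ⧸ sqr (ZMod D)ˣ) else 0 := by
  classical
  rw [← Finset.sum_filter, Finset.sum_const, smul_eq_mul, mul_one]
  have hQ : Nat.card ((ZMod D)ˣ ⧸ sqr (ZMod D)ˣ) =
      Nat.card (powMonoidHom 2 : (ZMod D)ˣ →* (ZMod D)ˣ).ker := by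
    rw [card_ker_eq_index]
    rfl
  split_ifs with h
  · rw [QuotientGroup.eq] at h
    obtain ⟨v, hv⟩ := h
    rw [powMonoidHom_apply] at hv
    have hv' : y = v ^ 2 * x := by rw [hv, mul_right_comm, inv_mul_cancel, one_mul]
    have hx : (v⁻¹) ^ 2 * y = x := by rw [hv']; group
    rw [hQ, Nat.card_eq_fintype_card, Fintype.card_subtype]
    symm
    refine Finset.card_bij (fun k _ => ((k * v⁻¹ : (ZMod D)ˣ) : ZMod D)) ?_ ?_ ?_
    · intro k hk
      rw [Finset.mem_filter, MonoidHom.mem_ker, powMonoidHom_apply] at hk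
      rw [Finset.mem_filter]
      refine ⟨Finset.mem_univ _, ?_⟩
      rw [← Units.val_pow_eq_pow_val, ← Units.val_mul, mul_pow, hk.2, one_mul, hx]
    · intro k _ k' _ hkk
      exact mul_right_cancel (Units.ext hkk)
    · intro ρ hρ
      rw [Finset.mem_filter] at hρ
      have hu : IsUnit ρ := by
        have h1 : IsUnit (ρ ^ 2 * (y : ZMod D)) := by
          rw [hρ.2]
          exact x.isUnit
        exact (isUnit_pow_iff two_ne_zero).1 (isUnit_of_mul_isUnit_left h1)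
      obtain ⟨ρ', rfl⟩ := hu
      have hρ' : ρ' ^ 2 * y = x := by
        apply Units.ext
        rw [Units.val_mul, Units.val_pow_eq_pow_val]
        exact hρ.2
      refine ⟨ρ' * v, ?_, ?_⟩
      · rw [Finset.mem_filter, MonoidHom.mem_ker, powMonoidHom_apply]
        refine ⟨Finset.mem_univ _, ?_⟩
        rw [mul_pow, ← mul_right_cancel_iff (a := x)]
        calc ρ' ^ 2 * v ^ 2 * x = ρ' ^ 2 * y := by rw [hv', mul_assoc]
          _ = 1 * x := by rw [hρ', one_mul]
      · simp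
  · rw [Finset.card_eq_zero, Finset.filter_eq_empty_iff]
    intro ρ _ hρ
    apply h
    have hu : IsUnit ρ := by
      have h1 : IsUnit (ρ ^ 2 * (y : ZMod D)) := by
        rw [hρ]
        exact x.isUnit
      exact (isUnit_pow_iff two_ne_zero).1 (isUnit_of_mul_isUnit_left h1)
    obtain ⟨ρ', rfl⟩ := hu
    have hρ' : ρ' ^ 2 * y = x := by
      apply Units.ext
      rw [Units.val_mul, Units.val_pow_eq_pow_val]
      exact hρ
    rw [QuotientGroup.eq]
    refine ⟨ρ'⁻¹, ?_⟩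
    rw [powMonoidHom_apply, ← hρ', mul_inv, inv_pow, mul_assoc, inv_mul_cancel, mul_one]

/-! ### Norms of ideals prime to `s` -/

section

variable {D : ℕ} {F : Type} [Field F] [NumberField F] {s : 𝓞 F} {σ : F →+* ℂ}
  {χ : DirichletCharacter ℂ D} {cj : 𝓞 F ≃+* 𝓞 F}

/-- the norm of an ideal prime to `s` is invertible -/
theorem norm_unit (hB : StBasD) (hd : DatD D s σ χ cj) {a : Ideal (𝓞 F)}
    (ha : IsCoprime a (Ideal.span {s})) : IsUnit ((Ideal.absNorm a : ℕ) : ZMod D) := by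
  obtain ⟨-, -, hs, -, -, -, hN, -, hint, hsD⟩ := hB D F _ _ s σ χ cj hd
  rw [Ideal.isCoprime_iff_exists] at ha
  obtain ⟨i, hi, j, hj, hij⟩ := ha
  obtain ⟨y, rfl⟩ := Ideal.mem_span_singleton.1 hj
  have h1 : i * cj i ∈ a * a.map (cj : 𝓞 F →+* 𝓞 F) :=
    Ideal.mul_mem_mul hi (Ideal.mem_map_of_mem _ hi)
  rw [hN a, Ideal.mem_span_singleton] at h1
  obtain ⟨x, hx⟩ := h1
  obtain ⟨n, hn⟩ := hint x
  have h2 : s ∣ (((Ideal.absNorm a : ℤ) * n - 1 : ℤ) : 𝓞 F) := by
    have h3 : (((Ideal.absNorm a : ℤ) * n - 1 : ℤ) : 𝓞 F) =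
        -((Ideal.absNorm a : 𝓞 F) * (x - n)) + (i * cj i - 1) := by
      rw [hx]
      push_cast
      ring
    rw [h3]
    refine dvd_add (dvd_neg.2 (hn.mul_left _)) ?_
    have hi' : i = 1 - s * y := by linear_combination hij
    refine ⟨-y + cj y - s * y * cj y, ?_⟩
    have : cj i = 1 + s * cj y := by
      rw [hi', map_sub, map_one, map_mul, hs]
      ring
    rw [this, hi']
    ring
  rw [hsD, ← ZMod.intCast_zmod_eq_zero_iff_dvd] at h2
  push_cast at h2
  exact IsUnit.of_mul_eq_one _ (sub_eq_zero.1 h2)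

/-- the product of the norms of equivalent ideals is a square -/
theorem norm_sq (hB : StBasD) (hd : DatD D s σ χ cj) {a b : (Ideal (𝓞 F))⁰}
    (hab : ClassGroup.mk0 a = ClassGroup.mk0 b) :
    ∃ n : ℤ, ((Ideal.absNorm (a : Ideal (𝓞 F)) : ℕ) : ZMod D) *
      (Ideal.absNorm (b : Ideal (𝓞 F)) : ℕ) = (n : ZMod D) ^ 2 := by
  obtain ⟨-, -, hs, hsx, hNx, -, hN, -, hint, hsD⟩ := hB D F _ _ s σ χ cj hd
  have hb0 : (b : Ideal (𝓞 F)) ≠ ⊥ := nonZeroDivisors.coe_ne_zero b
  have hbc0 : (b : Ideal (𝓞 F)).map (cj : 𝓞 F →+* 𝓞 F) ≠ ⊥ := by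
    intro h
    have h1 := hN (b : Ideal (𝓞 F))
    rw [h, Ideal.mul_bot] at h1
    have h2 : ((Ideal.absNorm (b : Ideal (𝓞 F)) : ℕ) : 𝓞 F) = 0 := by
      rw [← Ideal.span_singleton_eq_bot]
      exact h1.symm
    have h3 : Ideal.absNorm (b : Ideal (𝓞 F)) = 0 := by exact_mod_cast h2
    exact hb0 (Ideal.absNorm_eq_zero_iff.1 h3)
  set b' : (Ideal (𝓞 F))⁰ := ⟨_, mem_nonZeroDivisors_of_ne_zero hbc0⟩ with hb'
  have hNb : Ideal.absNorm (b' : Ideal (𝓞 F)) = Ideal.absNorm (b : Ideal (𝓞 F)) := by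
    have h1 := congrArg Ideal.absNorm (hN (b : Ideal (𝓞 F)))
    have h2 := hNx ((Ideal.absNorm (b : Ideal (𝓞 F)) : ℕ) : 𝓞 F)
    rw [map_natCast] at h2
    have h3 : Ideal.absNorm (b : Ideal (𝓞 F)) * Ideal.absNorm (b : Ideal (𝓞 F)) =
        Ideal.absNorm (Ideal.span {((Ideal.absNorm (b : Ideal (𝓞 F)) : ℕ) : 𝓞 F)}) := by
      exact_mod_cast h2
    rw [map_mul, ← h3] at h1
    exact Nat.eq_of_mul_eq_mul_left
      (Nat.pos_of_ne_zero fun h => hb0 (Ideal.absNorm_eq_zero_iff.1 h)) h1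
  have hprin : ((a * b' : (Ideal (𝓞 F))⁰) : Ideal (𝓞 F)).IsPrincipal := by
    rw [← ClassGroup.mk0_eq_one_iff (a * b').2]
    show ClassGroup.mk0 (a * b') = 1
    rw [map_mul, hab, ← map_mul]
    have h1 : ((b * b' : (Ideal (𝓞 F))⁰) : Ideal (𝓞 F)).IsPrincipal := by
      show ((b : Ideal (𝓞 F)) * (b : Ideal (𝓞 F)).map (cj : 𝓞 F →+* 𝓞 F)).IsPrincipal
      rw [hN]
      exact ⟨⟨_, rfl⟩⟩
    exact (ClassGroup.mk0_eq_one_iff (b * b').2).2 h1
  obtain ⟨z, hz⟩ := hprin.principal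
  have hz' : (a : Ideal (𝓞 F)) * (b' : Ideal (𝓞 F)) = Ideal.span {z} := hz
  have hNz : Ideal.absNorm (Ideal.span {z}) =
      Ideal.absNorm (a : Ideal (𝓞 F)) * Ideal.absNorm (b : Ideal (𝓞 F)) := by
    rw [← hz', map_mul, hNb]
  obtain ⟨n, t, hn⟩ := hint z
  refine ⟨n, ?_⟩
  have h1 := hNx z
  rw [hNz] at h1
  have h2 : s ∣ (((Ideal.absNorm (a : Ideal (𝓞 F)) : ℤ) * Ideal.absNorm (b : Ideal (𝓞 F)) -
      n ^ 2 : ℤ) : 𝓞 F) := by
    have hc : cj z = n - s * cj t := by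
      have : z = n + s * t := by linear_combination hn
      rw [this, map_add, map_mul, hs, map_intCast]
      ring
    refine ⟨t * cj z - n * cj t, ?_⟩
    push_cast at h1 ⊢
    rw [← h1]
    have : z = n + s * t := by linear_combination hn
    linear_combination cj z * this + (n : 𝓞 F) * hc
  rw [hsD, ← ZMod.intCast_zmod_eq_zero_iff_dvd] at h2
  push_cast at h2
  exact sub_eq_zero.1 h2

omit [NumberField F] in
theorem exists_prime_mem {P : Ideal (𝓞 F)} (hP : P.IsPrime) (n : ℕ) (hn : n ≠ 0)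
    (hm : (n : 𝓞 F) ∈ P) : ∃ p : ℕ, p.Prime ∧ (p : 𝓞 F) ∈ P := by
  induction n using Nat.strong_induction_on with
  | _ n ih =>
    by_cases h1 : n = 1
    · rw [h1, Nat.cast_one] at hm
      exact absurd ((Ideal.eq_top_iff_one P).2 hm) hP.ne_top
    · have hpr := Nat.minFac_prime h1
      obtain ⟨m, hm'⟩ := Nat.minFac_dvd n
      have hm0 : m ≠ 0 := by
        rintro rfl
        exact hn (by simpa using hm')
      have hmul : ((n.minFac : ℕ) : 𝓞 F) * (m : 𝓞 F) ∈ P := by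
        rw [← Nat.cast_mul, ← hm']
        exact hm
      rcases hP.mem_or_mem hmul with h | h
      · exact ⟨_, hpr, h⟩
      · refine ih m ?_ hm0 h
        have h2 := hpr.two_le
        have h3 : 0 < m := Nat.pos_of_ne_zero hm0
        calc m < 2 * m := by omega
          _ ≤ n.minFac * m := Nat.mul_le_mul_right _ h2
          _ = n := hm'.symm

theorem ne_bot_of_absNorm {P : Ideal (𝓞 F)} (h : Ideal.absNorm P ≠ 0) : P ≠ ⊥ := by
  rintro rfl
  exact h Ideal.absNorm_bot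

theorem eq_of_le_prime {P Q : Ideal (𝓞 F)} (hQ : Q.IsPrime) (hQ0 : Q ≠ ⊥) (hP : P.IsPrime)
    (h : Q ≤ P) : Q = P :=
  (hQ.isMaximal hQ0).eq_of_le hP.ne_top h

/-- the character is one at the norms of prime ideals prime to `s` -/
theorem jac_prime (hS : StSplitD) (hd : DatD D s σ χ cj) {P : Ideal (𝓞 F)} (hP : P.IsPrime)
    (hP0 : P ≠ ⊥) (hc : IsCoprime P (Ideal.span {s})) :
    jacobiSym (Ideal.absNorm P : ℤ) D = 1 := by
  obtain ⟨p, hp, hpP⟩ := exists_prime_mem hP (Ideal.absNorm P)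
    (fun h => hP0 (Ideal.absNorm_eq_zero_iff.1 h)) (Ideal.absNorm_mem P)
  have hle : Ideal.span {(p : 𝓞 F)} ≤ P := (Ideal.span_singleton_le_iff_mem P).2 hpP
  obtain ⟨h1, h2, h3⟩ := hS D F _ _ s σ χ cj hd p hp
  rcases jacobiSym.trichotomy (p : ℤ) D with hj | hj | hj
  · exfalso
    obtain ⟨-, hr1, hr2, hr3⟩ := h3 hj
    have hle2 : ram s p ≤ P := by
      rw [← hr2] at hle
      exact hP.le_of_pow_le hle
    have hs : s ∈ P := hle2 (Ideal.subset_span (by simp))
    have hsl : Ideal.span {s} ≤ P := (Ideal.span_singleton_le_iff_mem P).2 hs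
    rw [Ideal.isCoprime_iff_sup_eq, sup_eq_left.2 hsl] at hc
    exact hP.ne_top hc
  · obtain ⟨P1, P2, hP1, hP2, -, hmul, hn1, hn2⟩ := h1 hj
    rw [← hmul] at hle
    rcases hP.mul_le.1 hle with h | h
    · have := eq_of_le_prime hP1 (ne_bot_of_absNorm (by rw [hn1]; exact hp.ne_zero)) hP h
      rw [← this, hn1, hj]
    · have := eq_of_le_prime hP2 (ne_bot_of_absNorm (by rw [hn2]; exact hp.ne_zero)) hP h
      rw [← this, hn2, hj]
  · obtain ⟨hpr, hn⟩ := h2 hj
    have := eq_of_le_prime hpr (ne_bot_of_absNorm (by rw [hn]; exact pow_ne_zero _ hp.ne_zero))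
      hP hle
    rw [← this, hn]
    push_cast
    rw [jacobiSym.pow_left, hj]
    norm_num

theorem jac_norm (hS : StSplitD) (hd : DatD D s σ χ cj) (a : Ideal (𝓞 F)) :
    a ≠ 0 → IsCoprime a (Ideal.span {s}) → jacobiSym (Ideal.absNorm a : ℤ) D = 1 := by
  refine UniqueFactorizationMonoid.induction_on_prime a (fun h => absurd rfl h) ?_ ?_
  · intro x hx _ _
    rw [Ideal.isUnit_iff] at hx
    rw [hx, Ideal.absNorm_top, Nat.cast_one, jacobiSym.one_left]
  · intro b P hb hP ih _ hc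
    have h1 := jac_prime hS hd (Ideal.isPrime_of_prime hP) hP.ne_zero hc.of_mul_left_left
    rw [map_mul]
    push_cast
    rw [jacobiSym.mul_left, h1, ih hb hc.of_mul_left_right, one_mul]

/-- every class of residues on which the character is one is the norm of an ideal -/
theorem exists_ideal [NeZero D] (hS : StSplitD) (hd : DatD D s σ χ cj) (u : (ZMod D)ˣ)
    (hu : χ (u : ZMod D) = 1) : ∃ a : (Ideal (𝓞 F))⁰,
      IsCoprime (a : Ideal (𝓞 F)) (Ideal.span {s}) ∧
      ((Ideal.absNorm (a : Ideal (𝓞 F)) : ℕ) : ZMod D) = u := by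
  obtain ⟨l, hlD, hl, hlu⟩ := Nat.forall_exists_prime_gt_and_eq_mod u.isUnit D
  have hj : jacobiSym (l : ℤ) D = 1 := by
    have h1 := hd.chi (l : ℤ)
    rw [Int.cast_natCast, hlu, hu] at h1
    exact_mod_cast h1.symm
  obtain ⟨P, -, hP, -, -, -, hn, -⟩ := (hS D F _ _ s σ χ cj hd l hl).1 hj
  have hP0 : P ≠ ⊥ := ne_bot_of_absNorm (by rw [hn]; exact hl.ne_zero)
  refine ⟨⟨P, mem_nonZeroDivisors_of_ne_zero hP0⟩, ?_, ?_⟩
  · show IsCoprime P (Ideal.span {s})
    rw [Ideal.isCoprime_iff_sup_eq]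
    by_contra hne
    have hmax := hP.isMaximal hP0
    have heq : P = P ⊔ Ideal.span {s} := hmax.eq_of_le hne le_sup_left
    have hs : s ∈ P := by
      rw [heq]
      exact Ideal.mem_sup_right (Ideal.mem_span_singleton_self s)
    have hD : (D : 𝓞 F) ∈ P := by
      have h1 : s ^ 2 ∈ P := Ideal.pow_mem_of_mem P hs 2 (by norm_num)
      rw [hd.sq] at h1
      exact (neg_mem_iff).1 h1
    have hlP : (l : 𝓞 F) ∈ P := by
      have := Ideal.absNorm_mem P
      rwa [hn] at this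
    have hcop : IsCoprime (l : ℤ) (D : ℤ) := by
      rw [Nat.isCoprime_iff_coprime, Nat.Prime.coprime_iff_not_dvd hl]
      intro hdvd
      exact absurd (Nat.le_of_dvd (Nat.pos_of_ne_zero (NeZero.ne D)) hdvd) (by omega)
    obtain ⟨x, y, hxy⟩ := hcop
    apply hP.ne_top
    rw [Ideal.eq_top_iff_one]
    have h2 : (1 : 𝓞 F) = (x : 𝓞 F) * l + (y : 𝓞 F) * D := by
      have := congrArg (Int.cast : ℤ → 𝓞 F) hxy
      push_cast at this
      exact this.symm
    rw [h2]
    exact add_mem (Ideal.mul_mem_left _ _ hlP) (Ideal.mul_mem_left _ _ hD)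
  · show ((Ideal.absNorm P : ℕ) : ZMod D) = u
    rw [hn, hlu]

/-- the values of the character -/
theorem chi_val (hd : DatD D s σ χ cj) (u : (ZMod D)ˣ) :
    χ (u : ZMod D) = 1 ∨ χ (u : ZMod D) = -1 := by
  obtain ⟨n, hn⟩ := ZMod.intCast_surjective (u : ZMod D)
  have h1 := hd.chi n
  have h0 : χ (u : ZMod D) ≠ 0 := (u.isUnit.map χ).ne_zero
  rw [hn] at h1
  rw [h1] at h0 ⊢
  rcases jacobiSym.trichotomy n D with h | h | h
  · rw [h] at h0
    simp at h0
  · left
    rw [h]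
    simp
  · right
    rw [h]
    simp

theorem chi_neg_one (hd : DatD D s σ χ cj) : χ (-1 : ZMod D) = -1 := by
  have h1 := hd.chi (-1)
  have hodd : Odd D := by
    have := hd.odd.2.1
    rw [Nat.odd_iff]
    omega
  rw [jacobiSym.at_neg_one hodd, ZMod.χ₄_nat_three_mod_four hd.odd.2.1] at h1
  push_cast at h1
  exact h1

end

end Genm

open Genm in
theorem stGen (h1 : StBasD) (h2 : StSplitD) (_h3 : StRam) : StGen := by
  classical
  intro D _ F _ _ s σ χ cj c hd hc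
  set u : ClassGroup (𝓞 F) → (ZMod D)ˣ := fun A => (norm_unit h1 hd (hc A)).unit with hudef
  have hu : ∀ A, ((u A : (ZMod D)ˣ) : ZMod D) =
      ((Ideal.absNorm (c.R A : Ideal (𝓞 F)) : ℕ) : ZMod D) := fun A => IsUnit.unit_spec _
  have key : ∀ (a : (Ideal (𝓞 F))⁰) (v : (ZMod D)ˣ),
      (v : ZMod D) = ((Ideal.absNorm (a : Ideal (𝓞 F)) : ℕ) : ZMod D) →
      (v : (ZMod D)ˣ ⧸ sqr (ZMod D)ˣ) = (u (ClassGroup.mk0 a) : (ZMod D)ˣ ⧸ sqr (ZMod D)ˣ) := by
    intro a v hv
    obtain ⟨n, hn⟩ := norm_sq h1 hd (a := a) (b := c.R (ClassGroup.mk0 a)) (c.cls _).symm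
    rw [← hv, ← hu] at hn
    have hun : IsUnit (n : ZMod D) := by
      refine (isUnit_pow_iff two_ne_zero).1 ?_
      rw [← hn]
      exact v.isUnit.mul (u _).isUnit
    obtain ⟨w, hw⟩ := hun
    have hw2 : v * u (ClassGroup.mk0 a) = w ^ 2 := by
      apply Units.ext
      rw [Units.val_mul, Units.val_pow_eq_pow_val, hw]
      exact hn
    rw [QuotientGroup.eq]
    refine ⟨v⁻¹ * w, ?_⟩
    rw [powMonoidHom_apply, mul_pow, ← hw2, inv_pow, sq, mul_inv, mul_assoc, inv_mul_cancel_left]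
  let φ : ClassGroup (𝓞 F) →* (ZMod D)ˣ ⧸ sqr (ZMod D)ˣ :=
    MonoidHom.mk' (fun A => (u A : (ZMod D)ˣ ⧸ sqr (ZMod D)ˣ)) (by
      intro A B
      have h3 := key (c.R A * c.R B) (u A * u B) (by
        rw [Units.val_mul, hu, hu]
        show _ = ((Ideal.absNorm ((c.R A : Ideal (𝓞 F)) * (c.R B : Ideal (𝓞 F))) : ℕ) : ZMod D)
        rw [map_mul]
        push_cast
        rfl)
      rw [map_mul, c.cls, c.cls] at h3
      exact h3.symm)
  have hφ : ∀ A, φ A = (u A : (ZMod D)ˣ ⧸ sqr (ZMod D)ˣ) := fun _ => rfl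
  have hχu : ∀ A, χ (u A : ZMod D) = 1 := by
    intro A
    have h3 := hd.chi (Ideal.absNorm (c.R A : Ideal (𝓞 F)) : ℤ)
    rw [jac_norm h2 hd _ (nonZeroDivisors.coe_ne_zero (c.R A)) (hc A)] at h3
    rw [hu]
    push_cast at h3
    exact h3
  have hmem : ∀ v : (ZMod D)ˣ, (v : (ZMod D)ˣ ⧸ sqr (ZMod D)ˣ) ∈ φ.range ↔
      χ (v : ZMod D) = 1 := by
    intro v
    constructor
    · rintro ⟨A, hA⟩
      rw [hφ, QuotientGroup.eq] at hA
      obtain ⟨w, hw⟩ := hA
      rw [powMonoidHom_apply] at hw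
      have hv : v = w ^ 2 * u A := by rw [hw, mul_right_comm, inv_mul_cancel, one_mul]
      rw [hv, Units.val_mul, Units.val_pow_eq_pow_val, map_mul, map_pow, hχu, mul_one]
      rcases chi_val hd w with h | h <;> rw [h] <;> norm_num
    · intro hv
      obtain ⟨a, -, ha⟩ := exists_ideal h2 hd v hv
      exact ⟨ClassGroup.mk0 a, (key a v ha.symm).symm⟩
  have hindex : φ.range.index = 2 := by
    rw [Subgroup.index_eq_two_iff]
    refine ⟨((-1 : (ZMod D)ˣ) : (ZMod D)ˣ ⧸ sqr (ZMod D)ˣ), fun b => ?_⟩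
    obtain ⟨v, rfl⟩ := QuotientGroup.mk_surjective b
    rw [← QuotientGroup.mk_mul, hmem, hmem, Units.val_mul, Units.val_neg, Units.val_one, map_mul,
      chi_neg_one hd]
    rcases chi_val hd v with h | h
    · rw [h]
      refine Or.inr ⟨rfl, ?_⟩
      norm_num
    · rw [h]
      refine Or.inl ⟨by norm_num, ?_⟩
      norm_num
  have hp := pairs φ hindex
  have hsum : ∀ A B : ClassGroup (𝓞 F), ∑ ρ : ZMod D,
      (if ρ ^ 2 * (Ideal.absNorm (c.R B : Ideal (𝓞 F)) : ZMod D) =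
        (Ideal.absNorm (c.R A : Ideal (𝓞 F)) : ZMod D) then 1 else 0) =
      if φ A = φ B then Nat.card ((ZMod D)ˣ ⧸ sqr (ZMod D)ˣ) else 0 := by
    intro A B
    have h3 := roots (u A) (u B)
    rw [hu, hu] at h3
    exact h3
  simp only [hsum]
  omega


end RZ

end Pool.Agent.Lib.MP_7c08ba_nt
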