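import Pool.Agent.Lib.MP_7c08ba_nt.RZ.StG
import Pool.Agent.Lib.MP_7c08ba_nt.RZ.EisLaw

set_option autoImplicit false

/-! (G21) continuity, transformation, holomorphy and size of the integrand of the Rankin–Selberg
integral, for every odd fundamental discriminant. -/

namespace Pool.Agent.Lib.MP_7c08ba_nt

namespace RZ

open NumberField MeasureTheory UpperHalfPlane Set
open scoped MatrixGroups ComplexConjugate nonZeroDivisors

namespace HHDm

theorem bot_ne {F : Type} [Field F] [NumberField F] (a : (Ideal (𝓞 F))⁰) :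
    (a : Ideal (𝓞 F)) ≠ ⊥ :=
  nonZeroDivisors.coe_ne_zero a

theorem im_cusp (g : ℕ) (v : ℂ) :
    (v / (1 - g * v)).im = v.im / Complex.normSq (1 - g * v) := by
  rw [Complex.div_im, ← sub_div]
  congr 1
  simp
  ring

theorem den_cusp {g : ℕ} (hg : 1 ≤ g) {v : ℂ} (hv : 0 < v.im) : (1 : ℂ) - g * v ≠ 0 := by
  intro h
  have h1 := congrArg Complex.im h
  simp at h1
  rcases h1 with h1 | h1
  · omega
  · exact hv.ne' h1

/-- a polynomial times an exponential -/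
theorem poly_exp (δ a : ℝ) (N : ℕ) (hδ : 0 < δ) (ha : 0 ≤ a) :
    ∃ K : ℝ, 0 ≤ K ∧ ∀ y : ℝ, 0 ≤ y → (y + a) ^ N * Real.exp (-(δ * y)) ≤
      K * Real.exp (-(δ / 2 * y)) := by
  refine ⟨(N.factorial : ℝ) * (2 / δ) ^ N * Real.exp (δ / 2 * a), by positivity, fun y hy => ?_⟩
  have h := Real.pow_div_factorial_le_exp (x := δ / 2 * (y + a)) (by positivity) N
  have hf : (0 : ℝ) < N.factorial := by exact_mod_cast N.factorial_pos
  rw [div_le_iff₀ hf] at h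
  have e1 : (y + a) ^ N = (2 / δ) ^ N * (δ / 2 * (y + a)) ^ N := by
    rw [← mul_pow]
    congr 1
    field_simp
  have e2 : Real.exp (δ / 2 * (y + a)) * Real.exp (-(δ * y)) =
      Real.exp (δ / 2 * a) * Real.exp (-(δ / 2 * y)) := by
    rw [← Real.exp_add, ← Real.exp_add]
    congr 1
    ring
  calc (y + a) ^ N * Real.exp (-(δ * y))
      = (2 / δ) ^ N * (δ / 2 * (y + a)) ^ N * Real.exp (-(δ * y)) := by rw [← e1]
    _ ≤ (2 / δ) ^ N * (Real.exp (δ / 2 * (y + a)) * N.factorial) * Real.exp (-(δ * y)) := by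
        gcongr
    _ = (N.factorial : ℝ) * (2 / δ) ^ N *
        (Real.exp (δ / 2 * (y + a)) * Real.exp (-(δ * y))) := by ring
    _ = _ := by rw [e2]; ring

/-- finite sums of functions with exponential decay -/
theorem sum_decay {ι X : Type} (S : Finset ι) (f : ι → X → ℂ) (y : X → ℝ) (P : X → Prop)
    (hy : ∀ x, P x → 0 ≤ y x)
    (h : ∀ i ∈ S, ∃ C δ : ℝ, 0 < δ ∧ ∀ x, P x → ‖f i x‖ ≤ C * Real.exp (-(δ * y x))) :
    ∃ C δ : ℝ, 0 < δ ∧ ∀ x, P x → ‖∑ i ∈ S, f i x‖ ≤ C * Real.exp (-(δ * y x)) := by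
  classical
  induction S using Finset.induction_on with
  | empty => exact ⟨0, 1, one_pos, fun x _ => by simp⟩
  | insert i S hi ih =>
    obtain ⟨C₁, δ₁, hδ₁, h₁⟩ := h i (Finset.mem_insert_self _ _)
    obtain ⟨C₂, δ₂, hδ₂, h₂⟩ := ih fun j hj => h j (Finset.mem_insert_of_mem hj)
    refine ⟨|C₁| + |C₂|, min δ₁ δ₂, lt_min hδ₁ hδ₂, fun x hx => ?_⟩
    have hy0 := hy x hx
    rw [Finset.sum_insert hi]
    refine (norm_add_le _ _).trans ?_
    rw [add_mul]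
    gcongr ?_ + ?_
    · refine (h₁ x hx).trans ?_
      have : min δ₁ δ₂ ≤ δ₁ := min_le_left _ _
      gcongr
      exact le_abs_self _
    · refine (h₂ x hx).trans ?_
      have : min δ₁ δ₂ ≤ δ₂ := min_le_right _ _
      gcongr
      exact le_abs_self _

section

variable {D : ℕ} [NeZero D] {F : Type} [Field F] [NumberField F] {s : 𝓞 F} {σ : F →+* ℂ}
  {χ : DirichletCharacter ℂ D} {cj : 𝓞 F ≃+* 𝓞 F} {ψ : Ideal (𝓞 F) →*₀ ℂ} {c : Reps σ}

theorem thψ_cont (h1 : StThBD) (hd : DatD D s σ χ cj) (k : ℕ) :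
    ContinuousOn (thψ k ψ c) {u | 0 < u.im} := by
  unfold thψ
  refine continuousOn_const.mul (continuousOn_finsetSum _ fun A _ => continuousOn_const.mul ?_)
  exact (h1 D F _ _ s σ χ cj _ k 0 1 hd (bot_ne _) (one_dvd _)).2.2.1

theorem HH_cont (h1 : StThBD) (h4 : StEisAD) (hd : DatD D s σ χ cj) (w r : ℕ) {t : ℂ}
    (ht : -(r : ℝ) - 1 / 2 < t.re) :
    ContinuousOn (HH D χ w r ψ c t) {u | 0 < u.im} := by
  unfold HH
  have hE := (h4 D inferInstance χ r hd.odd hd.chi).2.2.1 (conj t) (by simpa using ht)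
  refine ((thψ_cont h1 hd _).mul (Complex.continuous_conj.comp_continuousOn hE)).mul ?_
  exact ((Complex.continuous_ofReal.comp Complex.continuous_im).pow _).continuousOn

theorem cusp_pos {g : ℕ} (hg : 1 ≤ g) {v : ℂ} (hv : 0 < v.im) : 0 < (v / (1 - g * v)).im := by
  rw [im_cusp]
  exact div_pos hv (Complex.normSq_pos.2 (den_cusp hg hv))

theorem tr_cont (h1 : StThBD) (h4 : StEisAD) (hd : DatD D s σ χ cj) (w r : ℕ) {t : ℂ}
    (ht : -(r : ℝ) - 1 / 2 < t.re) :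
    ContinuousOn (trD D w (HH D χ w r ψ c t)) {u | 0 < u.im} := by
  unfold trD
  have hH := HH_cont (ψ := ψ) (c := c) h1 h4 hd w r ht
  refine continuousOn_finsetSum _ fun g hg => continuousOn_finsetSum _ fun j _ => ?_
  have hg1 : 1 ≤ g := Nat.pos_of_mem_divisors hg
  have him : ∀ u ∈ {u : ℂ | 0 < u.im}, 0 < (u + (j : ℂ)).im := by
    intro u hu
    simpa using hu
  have hne : ∀ u ∈ {u : ℂ | 0 < u.im}, (1 : ℂ) - g * (u + (j : ℂ)) ≠ 0 := fun u hu =>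
    den_cusp hg1 (him u hu)
  refine ContinuousOn.mul (ContinuousOn.inv₀ (by fun_prop) fun u hu => pow_ne_zero _ (hne u hu)) ?_
  refine hH.comp (ContinuousOn.div (by fun_prop) (by fun_prop) hne) ?_
  intro u hu
  exact cusp_pos hg1 (him u hu)

theorem thψ_law (h3 : StThGD) (hd : DatD D s σ χ cj) {k : ℕ} (hk : Even k) (g : SL(2, ℤ)) {z : ℂ}
    (hz : 0 < z.im) (hc : (D : ℤ) ∣ g 1 0) :
    thψ k ψ c (((g 0 0 : ℂ) * z + g 0 1) / ((g 1 0 : ℂ) * z + g 1 1)) =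
      χ (g 1 1 : ℤ) * ((g 1 0 : ℂ) * z + g 1 1) ^ (k + 1) * thψ k ψ c z := by
  unfold thψ
  simp only [Finset.mul_sum]
  refine Finset.sum_congr rfl fun A _ => ?_
  rw [h3 D F _ _ s σ χ cj _ k hd (bot_ne _) hk g z hz hc]
  ring

theorem chi_conj (hd : DatD D s σ χ cj) (n : ℤ) : conj (χ n) = χ n := by
  rw [hd.chi]
  exact map_intCast (starRingEnd ℂ) _

theorem HH_law (h3 : StThGD) (h5 : StEisLawD) (hd : DatD D s σ χ cj) {w r : ℕ}
    (hw : Even w) {t : ℂ} (ht : -(r : ℝ) - 1 / 2 < t.re) (g : SL(2, ℤ)) {z : ℂ}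
    (hz : 0 < z.im) (hc : (D : ℤ) ∣ g 1 0) :
    HH D χ w r ψ c t (((g 0 0 : ℂ) * z + g 0 1) / ((g 1 0 : ℂ) * z + g 1 1)) =
      ((g 1 0 : ℂ) * z + g 1 1) ^ w * HH D χ w r ψ c t z := by
  have hE := h5 D inferInstance χ r hd.odd hd.chi (conj t) (by simpa using ht) g z hz hc
  have hT := thψ_law (ψ := ψ) (c := c) h3 hd (k := w + 2 * r)
    (hw.add (even_two_mul r)) g hz hc
  have him := EisLaw.im_gz g hz
  have hchi := EisLaw.chi_sq hd.chi g hc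
  set E : ℂ := (g 1 0 : ℂ) * z + g 1 1 with hED
  set v : ℂ := ((g 0 0 : ℂ) * z + g 0 1) / E with hv
  have hn : (z.im : ℂ) = (v.im : ℂ) * (E * conj E) := by
    rw [Complex.mul_conj, ← him]
    push_cast
    rfl
  unfold HH
  rw [hT, hE, map_mul, map_mul, chi_conj hd, map_pow, hn]
  have hp : E ^ (w + 2 * r + 1) = E ^ w * E ^ (2 * r + 1) := by ring
  rw [hp, mul_pow, mul_pow]
  linear_combination (E ^ w * E ^ (2 * r + 1) * thψ (w + 2 * r) ψ c z * conj E ^ (2 * r + 1) *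
    conj (eis D χ r (conj t) z) * (v.im : ℂ) ^ (2 * r + 1)) * hchi

theorem HH_diff (h4 : StEisAD) (hd : DatD D s σ χ cj) (w r : ℕ) {z : ℂ} (hz : 0 < z.im) :
    DifferentiableOn ℂ (fun t => HH D χ w r ψ c t z) {t | -(r : ℝ) - 1 / 2 < t.re} := by
  have hopen : IsOpen {t : ℂ | -(r : ℝ) - 1 / 2 < t.re} :=
    isOpen_lt continuous_const Complex.continuous_re
  have hE := (h4 D inferInstance χ r hd.odd hd.chi).1 z hz
  intro t ht
  refine DifferentiableAt.differentiableWithinAt ?_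
  unfold HH
  refine (DifferentiableAt.const_mul ?_ _).mul_const _
  have h0 : conj t ∈ {t : ℂ | -(r : ℝ) - 1 / 2 < t.re} := by
    simpa using ht
  have h1 : DifferentiableAt ℂ (fun s => eis D χ r s z) (conj t) :=
    hE.differentiableAt (hopen.mem_nhds h0)
  have h2 := h1.conj_conj
  rw [Complex.conj_conj] at h2
  exact h2

theorem tr_diff (h4 : StEisAD) (hd : DatD D s σ χ cj) (w r : ℕ) {z : ℂ} (hz : 0 < z.im) :
    DifferentiableOn ℂ (fun t => trD D w (HH D χ w r ψ c t) z)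
      {t | -(r : ℝ) - 1 / 2 < t.re} := by
  unfold trD
  refine DifferentiableOn.fun_sum fun g hg => DifferentiableOn.fun_sum fun j _ =>
    (HH_diff h4 hd w r ?_).const_mul _
  exact cusp_pos (Nat.pos_of_mem_divisors hg) (by simpa using hz)

theorem jac_le (a : ℤ) (b : ℕ) : ‖((jacobiSym a b : ℤ) : ℂ)‖ ≤ 1 := by
  rcases jacobiSym.trichotomy a b with h | h | h <;> rw [h] <;> simp

/-- the sum over the classes at the cusp `1 / g` -/
noncomputable def SG (D : ℕ) (s : 𝓞 F) (ψ : Ideal (𝓞 F) →*₀ ℂ) (c : Reps σ) (g k : ℕ)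
    (u : ℂ) : ℂ :=
  (1 / 2 : ℂ) * ∑ A : ClassGroup (𝓞 F), (ψ (c.R A : Ideal (𝓞 F)))⁻¹ *
    ((jacobiSym (Ideal.absNorm (c.R A : Ideal (𝓞 F))) (D / g) : ℂ) *
      thG D s σ (c.R A : Ideal (𝓞 F)) g k u)

/-- size of the theta series at the cusps -/
theorem SG_size (h1 : StThBD) (hd : DatD D s σ χ cj) {k g : ℕ} (hk : 1 ≤ k) (hg : g ∣ D) :
    ∃ C δ : ℝ, 0 < δ ∧ ∀ u : ℂ, 1 / 2 ≤ u.im →
      ‖SG D s ψ c g k u‖ ≤ C * Real.exp (-(δ * u.im)) := by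
  have H : ∀ A ∈ (Finset.univ : Finset (ClassGroup (𝓞 F))), ∃ C δ : ℝ, 0 < δ ∧
      ∀ u : ℂ, 1 / 2 ≤ u.im → ‖(ψ (c.R A : Ideal (𝓞 F)))⁻¹ *
        ((jacobiSym (Ideal.absNorm (c.R A : Ideal (𝓞 F))) (D / g) : ℂ) *
          thG D s σ (c.R A : Ideal (𝓞 F)) g k u)‖ ≤ C * Real.exp (-(δ * u.im)) := by
    intro A _
    obtain ⟨C, δ, hδ, hb⟩ := (h1 D F _ _ s σ χ cj (c.R A : Ideal (𝓞 F)) k 0 g hd (bot_ne _)
      hg).2.2.2.2.2.2.2.2.1 hk
    refine ⟨‖(ψ (c.R A : Ideal (𝓞 F)))⁻¹‖ * C, δ, hδ, fun u hu => ?_⟩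
    rw [norm_mul, norm_mul, mul_assoc]
    refine mul_le_mul_of_nonneg_left ?_ (norm_nonneg _)
    refine le_trans ?_ (hb u hu).2
    exact mul_le_of_le_one_left (norm_nonneg _) (jac_le _ _)
  obtain ⟨C, δ, hδ, hb⟩ := sum_decay Finset.univ (fun A (u : ℂ) => (ψ (c.R A : Ideal (𝓞 F)))⁻¹ *
        ((jacobiSym (Ideal.absNorm (c.R A : Ideal (𝓞 F))) (D / g) : ℂ) *
          thG D s σ (c.R A : Ideal (𝓞 F)) g k u)) (fun u => u.im) (fun u => 1 / 2 ≤ u.im)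
    (fun u hu => by linarith) H
  refine ⟨‖(1 / 2 : ℂ)‖ * C, δ, hδ, fun u hu => ?_⟩
  rw [SG, norm_mul, mul_assoc]
  gcongr
  exact hb u hu

/-- the terms of the trace -/
theorem term_size {w r g : ℕ} (hg : 1 ≤ g) {t v : ℂ} {T E : ℝ} (hv : 0 < v.im) (hT : 0 ≤ T)
    (_hE : 0 ≤ E) {κ S : ℂ} (hκ : ‖κ‖ ≤ 1) (hS : ‖S‖ ≤ T)
    (h1 : thψ (w + 2 * r) ψ c (v / (1 - g * v)) = κ * (1 - g * v) ^ (w + 2 * r + 1) * S)
    (h2 : ‖eis D χ r (conj t) (v / (1 - g * v))‖ ≤ E) :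
    ‖((1 - g * v) ^ w)⁻¹ * HH D χ w r ψ c t (v / (1 - g * v))‖ ≤ T * E := by
  have hd0 : (1 : ℂ) - g * v ≠ 0 := den_cusp hg hv
  have hn : 0 < ‖(1 : ℂ) - g * v‖ := norm_pos_iff.2 hd0
  have him : |v.im| ≤ ‖(1 : ℂ) - g * v‖ := by
    refine le_trans ?_ (Complex.abs_im_le_norm _)
    have : ((1 : ℂ) - g * v).im = -(g * v.im) := by simp
    rw [this, abs_neg, abs_mul, Nat.abs_cast]
    have hg' : (1 : ℝ) ≤ g := by exact_mod_cast hg
    exact le_mul_of_one_le_left (abs_nonneg _) hg'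
  set d : ℂ := (1 : ℂ) - g * v with hdd
  have hp : (d ^ w)⁻¹ * (κ * d ^ (w + 2 * r + 1) * S) = κ * d ^ (2 * r + 1) * S := by
    have : d ^ w ≠ 0 := pow_ne_zero _ hd0
    rw [show w + 2 * r + 1 = w + (2 * r + 1) by ring, pow_add]
    field_simp
  have himc : (v / d).im = v.im / Complex.normSq d := im_cusp g v
  unfold HH
  rw [h1, mul_assoc, ← mul_assoc, hp, himc]
  rw [norm_mul, norm_mul, norm_mul, norm_mul, RCLike.norm_conj, norm_pow, norm_pow,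
    Complex.norm_real, Real.norm_eq_abs, abs_div, abs_of_nonneg (Complex.normSq_nonneg d),
    Complex.normSq_eq_norm_sq]
  have e1 : ‖d‖ ^ (2 * r + 1) * (|v.im| / ‖d‖ ^ 2) ^ (2 * r + 1) ≤ 1 := by
    rw [← mul_pow]
    apply pow_le_one₀ (by positivity)
    rw [mul_div_assoc', div_le_one (by positivity), sq]
    gcongr
  calc ‖κ‖ * ‖d‖ ^ (2 * r + 1) * ‖S‖ * (‖eis D χ r (conj t) (v / d)‖ *
        (|v.im| / ‖d‖ ^ 2) ^ (2 * r + 1))
      = ‖κ‖ * (‖d‖ ^ (2 * r + 1) * (|v.im| / ‖d‖ ^ 2) ^ (2 * r + 1)) * (‖S‖ *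
        ‖eis D χ r (conj t) (v / d)‖) := by ring
    _ ≤ 1 * 1 * (T * E) := by gcongr
    _ = T * E := by ring

end

end HHDm

open HHDm in
theorem stHHD (h1 : StThBD) (h3 : StThlD) (h4 : StEisAD) (h5 : StEisLawD)
    (_h6 : StBasD) (h7 : StThGD) : StHHD := by
  intro D _ F _ _ s σ χ cj w r ψ c hd hw1 hw hcop
  refine ⟨fun t ht => ⟨HH_cont h1 h4 hd w r ht, tr_cont h1 h4 hd w r ht,
    fun g z hz hc => HH_law h7 h5 hd hw ht g hz hc⟩, fun z hz => tr_diff h4 hd w r hz, ?_⟩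
  intro σ₀ R hσ
  have hk : Even (w + 2 * r) := hw.add (even_two_mul r)
  obtain ⟨C₂, A, hA, hE⟩ := (h4 D inferInstance χ r hd.odd hd.chi).2.2.2 σ₀ R hσ
  obtain ⟨n, hn⟩ := exists_nat_ge A
  have key : ∀ g ∈ D.divisors, ∀ j ∈ Finset.range (D / g), ∃ C δ : ℝ, 0 < δ ∧ ∀ x : ℂ × ℂ,
      (σ₀ ≤ x.1.re ∧ ‖x.1‖ ≤ R ∧ 1 / 2 ≤ x.2.im ∧ |x.2.re| ≤ 1 / 2) →
        ‖((1 - g * (x.2 + j)) ^ w)⁻¹ *
          HH D χ w r ψ c x.1 ((x.2 + j) / (1 - g * (x.2 + j)))‖ ≤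
            C * Real.exp (-(δ * x.2.im)) := by
    intro g hg j hj
    have hgD : g ∣ D := Nat.dvd_of_mem_divisors hg
    have hg1 : 1 ≤ g := Nat.pos_of_mem_divisors hg
    have hgle : (g : ℝ) ≤ D := by exact_mod_cast Nat.divisor_le hg
    have hjle : (j : ℝ) ≤ D := by
      have h := (Finset.mem_range.1 hj).le.trans (Nat.div_le_self D g)
      exact_mod_cast h
    have hD1 : (1 : ℝ) ≤ D := by
      have : 1 ≤ D := NeZero.one_le
      exact_mod_cast this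
    obtain ⟨h, κ, hκ, hth, -⟩ := (h3 D F _ _ s σ χ cj hd).2 g hgD
    have hκ1 : ‖κ‖ ≤ 1 := by
      rw [Complex.normSq_eq_norm_sq] at hκ
      have : ‖κ‖ ^ 2 ≤ 1 := by
        rw [hκ, div_le_one (by linarith)]
        exact hgle
      exact (sq_le_one_iff₀ (norm_nonneg _)).1 this
    obtain ⟨C₁, δ, hδ, hS⟩ := SG_size (ψ := ψ) (c := c) h1 hd (k := w + 2 * r) (g := g)
      (by omega) hgD
    obtain ⟨K, hK, hpe⟩ := poly_exp δ (D + 1) (2 * n) hδ (by positivity)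
    refine ⟨|C₁| * (|C₂| * (4 * (D + 1) ^ 2) ^ n) * K, δ / 2, by positivity, ?_⟩
    rintro ⟨t, z⟩ ⟨ht, hR, hz, hx⟩
    dsimp only at ht hR hz hx ⊢
    have hz0 : 0 < z.im := by linarith
    set y := z.im with hy
    set v : ℂ := z + j with hv
    have hvim : v.im = y := by simp [hv, hy]
    have hv0 : 0 < v.im := by rw [hvim]; exact hz0
    have hnz : ‖z‖ ≤ y + 1 := by
      have h3 := Complex.norm_le_abs_re_add_abs_im z
      rw [abs_of_pos hz0] at h3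
      linarith
    have hnv : ‖v‖ ≤ y + (D + 1) := by
      refine (norm_add_le _ _).trans ?_
      rw [Complex.norm_natCast]
      linarith
    have hnd : ‖(1 : ℂ) - g * v‖ ≤ (D + 1) * (y + (D + 1)) := by
      refine (norm_sub_le _ _).trans ?_
      rw [norm_one, norm_mul, Complex.norm_natCast]
      have h1 : (g : ℝ) * ‖v‖ ≤ D * (y + (D + 1)) := by gcongr
      linarith
    have hd0 : (1 : ℂ) - g * v ≠ 0 := den_cusp hg1 hv0
    have hdn : 0 < ‖(1 : ℂ) - g * v‖ := norm_pos_iff.2 hd0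
    have hvc : 0 < (v / (1 - g * v)).im := cusp_pos hg1 hv0
    -- the Eisenstein series
    have hEis : ‖eis D χ r (conj t) (v / (1 - g * v))‖ ≤
        |C₂| * ((4 * (D + 1) ^ 2) ^ n * (y + (D + 1)) ^ (2 * n)) := by
      have h3 := hE (conj t) (v / (1 - g * v)) (by simpa using ht) (by simpa using hR) hvc
      refine h3.trans ?_
      have e1 : (1 + ‖v / (1 - g * v)‖ ^ 2) / (v / (1 - g * v)).im =
          (‖(1 : ℂ) - g * v‖ ^ 2 + ‖v‖ ^ 2) / y := by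
        rw [im_cusp, norm_div, Complex.normSq_eq_norm_sq, hvim]
        field_simp
      have hle : (1 + ‖v / (1 - g * v)‖ ^ 2) / (v / (1 - g * v)).im ≤
          4 * (D + 1) ^ 2 * (y + (D + 1)) ^ 2 := by
        rw [e1, div_le_iff₀ hz0]
        have h4 : ‖(1 : ℂ) - g * v‖ ^ 2 ≤ (D + 1) ^ 2 * (y + (D + 1)) ^ 2 := by
          rw [← mul_pow]
          gcongr
        have h5 : ‖v‖ ^ 2 ≤ (D + 1) ^ 2 * (y + (D + 1)) ^ 2 := by
          have h6 : ‖v‖ ^ 2 ≤ (y + (D + 1)) ^ 2 := by gcongr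
          have h7 : (1 : ℝ) ≤ ((D : ℝ) + 1) ^ 2 := one_le_pow₀ (by linarith)
          exact h6.trans (le_mul_of_one_le_left (sq_nonneg _) h7)
        have h9 : 0 ≤ ((D : ℝ) + 1) ^ 2 * (y + (D + 1)) ^ 2 := by positivity
        have h10 := mul_nonneg h9 (show (0 : ℝ) ≤ y - 1 / 2 by linarith)
        rw [mul_assoc 4]
        generalize ((D : ℝ) + 1) ^ 2 * (y + (D + 1)) ^ 2 = P at h4 h5 h9 h10 ⊢
        linarith
      have h1B : (1 : ℝ) ≤ 4 * (D + 1) ^ 2 * (y + (D + 1)) ^ 2 := by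
        have h4 : (1 : ℝ) ≤ y + (D + 1) := by linarith
        have h5 : (1 : ℝ) ≤ (y + (D + 1)) ^ 2 := one_le_pow₀ h4
        have h7 : (1 : ℝ) ≤ ((D : ℝ) + 1) ^ 2 := one_le_pow₀ (by linarith)
        have h6 : (1 : ℝ) ≤ 4 * (D + 1) ^ 2 := by linarith
        exact one_le_mul_of_one_le_of_one_le h6 h5
      have h0 : 0 ≤ (1 + ‖v / (1 - g * v)‖ ^ 2) / (v / (1 - g * v)).im := by positivity
      calc C₂ * ((1 + ‖v / (1 - g * v)‖ ^ 2) / (v / (1 - g * v)).im) ^ A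
          ≤ |C₂| * (4 * (D + 1) ^ 2 * (y + (D + 1)) ^ 2) ^ n := by
            gcongr ?_ * ?_
            · exact le_abs_self _
            · calc _ ≤ (4 * (D + 1) ^ 2 * (y + (D + 1)) ^ 2) ^ A :=
                  Real.rpow_le_rpow h0 hle hA
                _ ≤ (4 * (D + 1) ^ 2 * (y + (D + 1)) ^ 2) ^ (n : ℝ) :=
                  Real.rpow_le_rpow_of_exponent_le h1B hn
                _ = _ := Real.rpow_natCast _ _
        _ = _ := by rw [mul_pow (4 * ((D : ℝ) + 1) ^ 2), ← pow_mul]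
    -- the theta series
    set u : ℂ := v - h with hu
    have huim : u.im = y := by
      rw [hu, ← hvim]
      simp
    have huv : u + h = v := by rw [hu]; ring
    have hSb : ‖SG D s ψ c g (w + 2 * r) u‖ ≤ |C₁| * Real.exp (-(δ * y)) := by
      have h3 := hS u (by rw [huim]; exact hz)
      rw [huim] at h3
      refine h3.trans ?_
      gcongr
      exact le_abs_self _
    have hthv : thψ (w + 2 * r) ψ c (v / (1 - g * v)) =
        κ * (1 - g * v) ^ (w + 2 * r + 1) * SG D s ψ c g (w + 2 * r) u := by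
      unfold thψ SG
      simp only [Finset.mul_sum]
      refine Finset.sum_congr rfl fun B _ => ?_
      have h3 := hth (c.R B : Ideal (𝓞 F)) (w + 2 * r) u (bot_ne _) (hcop B) hk
        (by rw [huim]; exact hz0)
      rw [huv] at h3
      rw [h3]
      ring
    have h3 := term_size (χ := χ) (w := w) (r := r) (t := t) (ψ := ψ) (c := c) hg1
      (T := |C₁| * Real.exp (-(δ * y)))
      (E := |C₂| * ((4 * (D + 1) ^ 2) ^ n * (y + (D + 1)) ^ (2 * n))) hv0 (by positivity)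
      (by positivity) hκ1 hSb hthv hEis
    refine h3.trans ?_
    have h4 := hpe y hz0.le
    calc |C₁| * Real.exp (-(δ * y)) *
          (|C₂| * ((4 * (D + 1) ^ 2) ^ n * (y + (D + 1)) ^ (2 * n)))
        = |C₁| * (|C₂| * (4 * (D + 1) ^ 2) ^ n) * ((y + (D + 1)) ^ (2 * n) *
          Real.exp (-(δ * y))) := by ring
      _ ≤ |C₁| * (|C₂| * (4 * (D + 1) ^ 2) ^ n) * (K * Real.exp (-(δ / 2 * y))) := by gcongr
      _ = _ := by ring
  have key2 : ∀ g ∈ D.divisors, ∃ C δ : ℝ, 0 < δ ∧ ∀ x : ℂ × ℂ,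
      (σ₀ ≤ x.1.re ∧ ‖x.1‖ ≤ R ∧ 1 / 2 ≤ x.2.im ∧ |x.2.re| ≤ 1 / 2) →
        ‖∑ j ∈ Finset.range (D / g), ((1 - g * (x.2 + j)) ^ w)⁻¹ *
          HH D χ w r ψ c x.1 ((x.2 + j) / (1 - g * (x.2 + j)))‖ ≤
            C * Real.exp (-(δ * x.2.im)) := fun g hg =>
    sum_decay (Finset.range (D / g)) (fun (j : ℕ) (x : ℂ × ℂ) => ((1 - g * (x.2 + j)) ^ w)⁻¹ *
      HH D χ w r ψ c x.1 ((x.2 + j) / (1 - g * (x.2 + j)))) (fun x => x.2.im)
      (fun x => σ₀ ≤ x.1.re ∧ ‖x.1‖ ≤ R ∧ 1 / 2 ≤ x.2.im ∧ |x.2.re| ≤ 1 / 2)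
      (fun x hx => by linarith [hx.2.2.1]) (key g hg)
  obtain ⟨C, δ, hδ, hb⟩ := sum_decay D.divisors (fun (g : ℕ) (x : ℂ × ℂ) =>
      ∑ j ∈ Finset.range (D / g), ((1 - g * (x.2 + j)) ^ w)⁻¹ *
      HH D χ w r ψ c x.1 ((x.2 + j) / (1 - g * (x.2 + j)))) (fun x => x.2.im)
      (fun x => σ₀ ≤ x.1.re ∧ ‖x.1‖ ≤ R ∧ 1 / 2 ≤ x.2.im ∧ |x.2.re| ≤ 1 / 2)
      (fun x hx => by linarith [hx.2.2.1]) key2
  exact ⟨C, δ, hδ, fun t z ht hR hz hx => hb (t, z) ⟨ht, hR, hz, hx⟩⟩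

end RZ

end Pool.Agent.Lib.MP_7c08ba_nt
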