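import Mathlib
import Pool.Agent.Lib.MP_7c08ba_nt.RZ.StA

set_option autoImplicit false

/-!
Module RZ-Hol: integrals which depend holomorphically on a parameter.
-/

namespace Pool.Agent.Lib.MP_7c08ba_nt

namespace RZ

open MeasureTheory Set Filter Topology

theorem stHol : StHol := by
  intro X _ μ U G hU hmeas hdiff hdom s₀ hs₀
  obtain ⟨δ, b, hδ, hb, hbd⟩ := hdom s₀ hs₀
  obtain ⟨ρ, hρ, hρU⟩ := Metric.isOpen_iff.mp hU s₀ hs₀
  obtain ⟨r, hr, hrρ, hrδ⟩ : ∃ r : ℝ, 0 < r ∧ 2 * r < ρ ∧ 2 * r < δ := by
    refine ⟨min ρ δ / 4, by positivity, ?_, ?_⟩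
    · have := min_le_left ρ δ
      linarith
    · have := min_le_right ρ δ
      linarith
  -- the closed ball of radius r around points of the ball
  have hin : ∀ s ∈ Metric.ball s₀ r, ∀ z ∈ Metric.closedBall s r, z ∈ U ∧ ‖z - s₀‖ < δ := by
    intro s hs z hz
    have h1 : dist z s₀ < 2 * r := by
      have := dist_triangle z s s₀
      have h2 := Metric.mem_ball.mp hs
      have h3 := Metric.mem_closedBall.mp hz
      linarith
    refine ⟨hρU (Metric.mem_ball.mpr (lt_trans h1 hrρ)), ?_⟩
    rw [← dist_eq_norm]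
    exact lt_trans h1 hrδ
  have hs₀r : s₀ ∈ Metric.ball s₀ r := Metric.mem_ball_self hr
  have hd : ∀ᵐ x ∂μ, ∀ s ∈ Metric.ball s₀ r,
      HasDerivAt (fun t => G t x) (deriv (fun t => G t x) s) s := by
    filter_upwards [hdiff] with x hx s hs
    have hsU : s ∈ U := (hin s hs s (Metric.mem_closedBall_self hr.le)).1
    exact ((hx s hsU).differentiableAt (hU.mem_nhds hsU)).hasDerivAt
  have hbound : ∀ᵐ x ∂μ, ∀ s ∈ Metric.ball s₀ r, ‖deriv (fun t => G t x) s‖ ≤ b x / r := by
    filter_upwards [hdiff, hbd] with x hx hxb s hs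
    refine Complex.norm_deriv_le_of_forall_mem_sphere_norm_le hr ?_ ?_
    · refine DifferentiableOn.diffContOnCl ?_
      rw [closure_ball s hr.ne']
      exact hx.mono fun z hz => (hin s hs z hz).1
    · intro z hz
      have hz' := hin s hs z (Metric.sphere_subset_closedBall hz)
      exact hxb z hz'.1 hz'.2
  have hm' : AEStronglyMeasurable (fun x => deriv (fun t => G t x) s₀) μ := by
    -- a limit of difference quotients
    set e : ℕ → ℂ := fun n => (r / (n + 2) : ℝ) with he
    have he0 : ∀ n, e n ≠ 0 := by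
      intro n
      rw [he]
      have : (0 : ℝ) < r / (n + 2) := by positivity
      simp only
      exact Complex.ofReal_ne_zero.mpr this.ne'
    have hen : ∀ n, ‖e n‖ < r := by
      intro n
      have h2 : (0 : ℝ) < r / (n + 2) := by positivity
      rw [he]
      simp only
      rw [Complex.norm_real, Real.norm_eq_abs, abs_of_pos h2, div_lt_iff₀ (by positivity)]
      have : (0 : ℝ) ≤ n := by positivity
      nlinarith
    have hlim : Tendsto e atTop (𝓝[≠] 0) := by
      rw [tendsto_nhdsWithin_iff]
      refine ⟨?_, Eventually.of_forall fun n => he0 n⟩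
      have h3 : Tendsto (fun n : ℕ => r / ((n : ℝ) + 2)) atTop (𝓝 0) := by
        refine Tendsto.div_atTop tendsto_const_nhds ?_
        exact tendsto_atTop_add_const_right _ _ tendsto_natCast_atTop_atTop
      have h4 := (Complex.continuous_ofReal.tendsto (0 : ℝ)).comp h3
      rw [Complex.ofReal_zero] at h4
      exact h4
    have hquot : ∀ n, AEStronglyMeasurable (fun x => (e n)⁻¹ • (G (s₀ + e n) x - G s₀ x)) μ := by
      intro n
      have h6 := AEStronglyMeasurable.const_smul (μ := μ)
        ((hmeas (s₀ + e n) ?_).sub (hmeas s₀ hs₀)) (e n)⁻¹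
      · exact h6
      refine (hin s₀ hs₀r (s₀ + e n) ?_).1
      rw [Metric.mem_closedBall, dist_eq_norm]
      simpa using (hen n).le
    refine aestronglyMeasurable_of_tendsto_ae atTop hquot ?_
    filter_upwards [hd] with x hx
    have h5 := (hasDerivAt_iff_tendsto_slope_zero.mp (hx s₀ hs₀r)).comp hlim
    exact h5
  have key := hasDerivAt_integral_of_dominated_loc_of_deriv_le (μ := μ)
    (F := G) (F' := fun s x => deriv (fun t => G t x) s) (bound := fun x => b x / r)
    (Metric.ball_mem_nhds s₀ hr)
    (by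
      filter_upwards [hU.mem_nhds hs₀] with s hs
      exact hmeas s hs)
    (by
      refine Integrable.mono' hb (hmeas s₀ hs₀) ?_
      filter_upwards [hbd] with x hx
      exact hx s₀ hs₀ (by simpa using hδ))
    hm' hbound (hb.div_const r) hd
  exact key.2.differentiableAt.differentiableWithinAt

end RZ

end Pool.Agent.Lib.MP_7c08ba_nt
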