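import Pool.Agent.Lib.MP_7c08ba_nt.RZ.JmP

set_option autoImplicit false

/-!
(G30) the integrals `JJ` as sums over pairs, all cusps.
-/

namespace Pool.Agent.Lib.MP_7c08ba_nt

namespace RZ

open NumberField MeasureTheory UpperHalfPlane Set
open scoped MatrixGroups ComplexConjugate nonZeroDivisors

namespace JmX

theorem countable_of_summable {ι : Type} {f : ι → ℝ} (hf : Summable f) (h0 : ∀ i, f i ≠ 0) :
    Countable ι := by
  have h1 := hf.countable_support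
  have h2 : Function.support f = Set.univ := by
    ext i
    simp [h0 i]
  rw [h2] at h1
  exact Set.countable_univ_iff.1 h1

section

variable {F : Type} [Field F] [NumberField F] {D : ℕ} {s : 𝓞 F} {σ : F →+* ℂ}
  {χ : DirichletCharacter ℂ D} {cj : 𝓞 F ≃+* 𝓞 F}

/-- the coefficient of the first series at the cusp -/
noncomputable def cG (D : ℕ) (s : 𝓞 F) (σ : F →+* ℂ) (a : Ideal (𝓞 F)) (g k : ℕ)
    (x : (a * ram s g : Ideal (𝓞 F))) : ℂ :=
  (σ (x : 𝓞 F) / (Complex.I * Real.sqrt D)) ^ k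

/-- the exponent at the cusp -/
noncomputable def qG (D : ℕ) (s : 𝓞 F) (σ : F →+* ℂ) (a : Ideal (𝓞 F)) (g : ℕ)
    (x : (a * ram s g : Ideal (𝓞 F))) : ℝ :=
  Qa σ a x / D

theorem thG_eq (a : Ideal (𝓞 F)) (g k : ℕ) (u : ℂ) :
    thG D s σ a g k u = SA (cG D s σ a g k) (qG D s σ a g) u := by
  unfold thG SA cG qG
  refine tsum_congr fun x => ?_
  push_cast
  rfl

theorem thlG_eq (a : Ideal (𝓞 F)) (g r : ℕ) (u : ℂ) :
    thlG D s σ a g r u = SB r (qG D s σ a g) u := by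
  unfold thlG SB qG
  congr 1
  refine tsum_congr fun x => ?_
  push_cast
  rfl

theorem Dpos (hd : DatD D s σ χ cj) : 0 < D := by
  have := hd.odd.2.2
  omega

theorem ram_ne (h8 : StRam) (hd : DatD D s σ χ cj) {g : ℕ} (hg : g ∣ D) {a : Ideal (𝓞 F)}
    (ha : a ≠ ⊥) : a * ram s g ≠ ⊥ := by
  have hD := Dpos hd
  intro h
  have h1 := (h8 D F inferInstance inferInstance s σ χ cj hd g hg).1
  have h2 := congrArg Ideal.absNorm h
  rw [map_mul, h1, Ideal.absNorm_bot] at h2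
  rcases mul_eq_zero.1 h2 with h3 | h3
  · exact ha (Ideal.absNorm_eq_zero_iff.1 h3)
  · subst h3
    have := Nat.eq_zero_of_zero_dvd hg
    omega

theorem qG_nonneg (a : Ideal (𝓞 F)) (g : ℕ) (x : (a * ram s g : Ideal (𝓞 F))) :
    0 ≤ qG D s σ a g x := by
  unfold qG Qa
  have := Complex.normSq_nonneg (σ (x : 𝓞 F))
  positivity

theorem Q_div (h6 : StBasD) (h8 : StRam) (hd : DatD D s σ χ cj) {g : ℕ} (hg : g ∣ D)
    {a : Ideal (𝓞 F)} (ha : a ≠ ⊥) (x : (a * ram s g : Ideal (𝓞 F))) :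
    ∃ n : ℕ, Qa σ a x = g * n := by
  have h1 := (h8 D F inferInstance inferInstance s σ χ cj hd g hg).1
  obtain ⟨-, -, -, -, -, h2, -⟩ := h6 D F inferInstance inferInstance s σ χ cj hd
  have h3 : Ideal.absNorm (a * ram s g) ∣ Ideal.absNorm (Ideal.span {(x : 𝓞 F)}) :=
    Ideal.absNorm_dvd_absNorm_of_le ((Ideal.span_singleton_le_iff_mem _).2 x.2)
  rw [map_mul, h1] at h3
  obtain ⟨n, hn⟩ := h3
  refine ⟨n, ?_⟩
  have ha0 : (Ideal.absNorm a : ℝ) ≠ 0 := by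
    intro h
    exact ha (Ideal.absNorm_eq_zero_iff.1 (by exact_mod_cast h))
  unfold Qa
  rw [h2, hn]
  push_cast
  field_simp

theorem sqrtD (hd : DatD D s σ χ cj) : 0 < Real.sqrt D :=
  Real.sqrt_pos.2 (by exact_mod_cast Dpos hd)

omit [NumberField F] in
theorem norm_cG (a : Ideal (𝓞 F)) (g k : ℕ) (x : (a * ram s g : Ideal (𝓞 F))) :
    ‖cG D s σ a g k x‖ = (Real.sqrt D ^ k)⁻¹ * ‖σ (x : 𝓞 F)‖ ^ k := by
  unfold cG
  rw [norm_pow, norm_div, norm_mul, Complex.norm_I, one_mul,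
    Complex.norm_of_nonneg (Real.sqrt_nonneg _), div_pow]
  ring

theorem summ_exp (h1 : StThBD) (h8 : StRam) (hd : DatD D s σ χ cj) {g : ℕ} (hg : g ∣ D)
    {a : Ideal (𝓞 F)} (ha : a ≠ ⊥) (k : ℕ) {t : ℝ} (ht : 0 < t) :
    Summable fun x : (a * ram s g : Ideal (𝓞 F)) =>
      (1 + ‖σ (x : 𝓞 F)‖) ^ k * Real.exp (-(t * qG D s σ a g x)) := by
  have hD := Dpos hd
  have hg0 : 0 < g := Nat.pos_of_dvd_of_pos hg hD
  have hne := ram_ne h8 hd hg ha
  have h2 := (h1 D F inferInstance inferInstance s σ χ cj (a * ram s g) k 0 1 hd hne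
    (one_dvd _)).2.1 (t * g / D) (by positivity)
  have h3 := (h8 D F inferInstance inferInstance s σ χ cj hd g hg).1
  have ha0 : (Ideal.absNorm a : ℝ) ≠ 0 := by
    intro h
    exact ha (Ideal.absNorm_eq_zero_iff.1 (by exact_mod_cast h))
  refine h2.congr fun x => ?_
  congr 3
  unfold qG Qa
  rw [map_mul, h3]
  push_cast
  have hg0' : (g : ℝ) ≠ 0 := by exact_mod_cast hg0.ne'
  have hD' : (D : ℝ) ≠ 0 := by exact_mod_cast hD.ne'
  field_simp

theorem summ_c (h1 : StThBD) (h8 : StRam) (hd : DatD D s σ χ cj) {g : ℕ} (hg : g ∣ D)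
    {a : Ideal (𝓞 F)} (ha : a ≠ ⊥) (k : ℕ) (t : ℝ) (ht : 0 < t) :
    Summable fun x : (a * ram s g : Ideal (𝓞 F)) =>
      ‖cG D s σ a g k x‖ * Real.exp (-(t * qG D s σ a g x)) := by
  refine Summable.of_nonneg_of_le (fun x => by positivity) (fun x => ?_)
    ((summ_exp h1 h8 hd hg ha k ht).mul_left ((Real.sqrt D ^ k)⁻¹))
  rw [norm_cG, mul_assoc]
  have := sqrtD hd
  gcongr
  linarith [norm_nonneg (σ (x : 𝓞 F))]

theorem summ_1 (h1 : StThBD) (h8 : StRam) (hd : DatD D s σ χ cj) {g : ℕ} (hg : g ∣ D)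
    {a : Ideal (𝓞 F)} (ha : a ≠ ⊥) (t : ℝ) (ht : 0 < t) :
    Summable fun x : (a * ram s g : Ideal (𝓞 F)) => Real.exp (-(t * qG D s σ a g x)) := by
  simpa using summ_exp h1 h8 hd hg ha 0 ht

theorem cnt (h1 : StThBD) (h8 : StRam) (hd : DatD D s σ χ cj) {g : ℕ} (hg : g ∣ D)
    {a : Ideal (𝓞 F)} (ha : a ≠ ⊥) : Countable (a * ram s g : Ideal (𝓞 F)) :=
  countable_of_summable (summ_1 h1 h8 hd hg ha 1 one_pos) fun _ => (Real.exp_pos _).ne'

theorem qG_int (h6 : StBasD) (h8 : StRam) (hd : DatD D s σ χ cj) {g : ℕ} (hg : g ∣ D)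
    {a b : Ideal (𝓞 F)} (ha : a ≠ ⊥) (hb : b ≠ ⊥) (x : (a * ram s g : Ideal (𝓞 F)))
    (y : (b * ram s g : Ideal (𝓞 F))) :
    ∃ n : ℤ, ((D / g : ℕ) : ℝ) * (qG D s σ a g x - qG D s σ b g y) = n := by
  have hD := Dpos hd
  have hg0 : 0 < g := Nat.pos_of_dvd_of_pos hg hD
  obtain ⟨n1, hn1⟩ := Q_div h6 h8 hd hg ha x
  obtain ⟨n2, hn2⟩ := Q_div h6 h8 hd hg hb y
  refine ⟨n1 - n2, ?_⟩
  unfold qG
  rw [hn1, hn2, Nat.cast_div hg (by exact_mod_cast hg0.ne')]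
  have hg0' : (g : ℝ) ≠ 0 := by exact_mod_cast hg0.ne'
  have hD' : (D : ℝ) ≠ 0 := by exact_mod_cast hD.ne'
  push_cast
  field_simp

theorem summ_S (h7 : StBaseD) (h8 : StRam) (hd : DatD D s σ χ cj) {g : ℕ} (hg : g ∣ D)
    {a b : Ideal (𝓞 F)} (ha : a ≠ ⊥) (hb : b ≠ ⊥) {w r m : ℕ} (hw : 6 ≤ w) (hm : 1 ≤ m) :
    Summable fun p : {p : (a * ram s g : Ideal (𝓞 F)) × (b * ram s g : Ideal (𝓞 F)) //
      qG D s σ a g p.1 - qG D s σ b g p.2 = m} =>
      ‖cG D s σ a g (w + 2 * r) p.1.1‖ * ((qG D s σ a g p.1.1) ^ (w + r))⁻¹ := by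
  have hD := Dpos hd
  obtain ⟨h2, -⟩ := h7 D F inferInstance inferInstance s σ χ cj hd
  obtain ⟨x1, y1, hb1⟩ := h2 _ (ram_ne h8 hd hg ha)
  obtain ⟨x2, y2, hb2⟩ := h2 _ (ram_ne h8 hd hg hb)
  have hna : ∀ a : Ideal (𝓞 F), a ≠ ⊥ → 0 < (Ideal.absNorm a : ℝ) := by
    intro a ha
    have : 0 < Ideal.absNorm a := Nat.pos_of_ne_zero fun h => ha (Ideal.absNorm_eq_zero_iff.1 h)
    exact_mod_cast this
  have hD' : (0 : ℝ) < D := by exact_mod_cast hD
  refine summ_pairs (r := r) w m hw hm (X := fun x => ‖σ (x : 𝓞 F)‖) (Y := fun y => ‖σ (y : 𝓞 F)‖)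
    (k0 := (Real.sqrt D ^ (w + 2 * r))⁻¹) (k1 := ((Ideal.absNorm a : ℝ) * D)⁻¹)
    (k2 := ((Ideal.absNorm b : ℝ) * D)⁻¹) (fun _ => norm_nonneg _) (fun _ => norm_nonneg _)
    (by have := sqrtD hd; positivity) (by have := hna a ha; positivity)
    (by have := hna b hb; positivity) (summ_id hb1) (summ_id' hb2) (fun x => norm_cG a g _ x)
    (fun x => ?_) (fun y => ?_)
  · unfold qG Qa
    rw [Complex.normSq_eq_norm_sq, mul_inv]
    ring
  · unfold qG Qa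
    rw [Complex.normSq_eq_norm_sq, mul_inv]
    ring

/-- the two local factors -/
noncomputable def SAg (D : ℕ) (s : 𝓞 F) (σ : F →+* ℂ) (ψ : Ideal (𝓞 F) →*₀ ℂ) (c : Reps σ)
    (g k : ℕ) (u : ℂ) : ℂ :=
  ∑ A : ClassGroup (𝓞 F), (ψ (c.R A : Ideal (𝓞 F)))⁻¹ *
    ((jacobiSym (Ideal.absNorm (c.R A : Ideal (𝓞 F))) (D / g) : ℂ) *
      thG D s σ (c.R A : Ideal (𝓞 F)) g k u)

/-- the two local factors -/
noncomputable def SBg (D : ℕ) (s : 𝓞 F) (σ : F →+* ℂ) (c : Reps σ)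
    (g r : ℕ) (u : ℂ) : ℂ :=
  ∑ B : ClassGroup (𝓞 F), (jacobiSym (Ideal.absNorm (c.R B : Ideal (𝓞 F))) (D / g) : ℂ) *
      conj (thlG D s σ (c.R B : Ideal (𝓞 F)) g r u)

omit [NumberField F] in
theorem bot_ne' (a : (Ideal (𝓞 F))⁰) : (a : Ideal (𝓞 F)) ≠ ⊥ :=
  nonZeroDivisors.coe_ne_zero a

theorem loc [NeZero D] {w r : ℕ} {ψ : Ideal (𝓞 F) →*₀ ℂ} {c : Reps σ} (hwe : Even w)
    (hc : ∀ A, IsCoprime (c.R A : Ideal (𝓞 F)) (Ideal.span {s})) {ε : ℂ} (hε : conj ε = ε)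
    (hE : ∀ u : ℂ, 0 < u.im → eis D χ r (-r) u = ε * (Real.pi / Real.sqrt D) *
        ∑ B : ClassGroup (𝓞 F), thl σ (c.R B : Ideal (𝓞 F)) r u)
    {g : ℕ} {h : ℤ} {κ : ℂ} (hκ : Complex.normSq κ = (g : ℝ) / D)
    (hth : ∀ (a : Ideal (𝓞 F)) (k : ℕ) (u : ℂ), a ≠ ⊥ → IsCoprime a (Ideal.span {s}) → Even k →
      0 < u.im → th σ a k ((u + h) / (1 - g * (u + h))) =
        (1 - g * (u + h)) ^ (k + 1) * κ * (jacobiSym (Ideal.absNorm a) (D / g) : ℂ) *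
          thG D s σ a g k u)
    (hthl : ∀ (a : Ideal (𝓞 F)) (r : ℕ) (u : ℂ), a ≠ ⊥ → IsCoprime a (Ideal.span {s}) →
      0 < u.im → thl σ a r ((u + h) / (1 - g * (u + h))) =
        (1 - g * (u + h)) ^ (2 * r + 1) * κ * (jacobiSym (Ideal.absNorm a) (D / g) : ℂ) *
          thlG D s σ a g r u) {v : ℂ} (hv : 0 < v.im) :
    ((1 - g * v) ^ w)⁻¹ * HH D χ w r ψ c (-r) (v / (1 - g * v)) =
      1 / 2 * ε * (Real.pi / Real.sqrt D) * (g / D) * (SAg D s σ ψ c g (w + 2 * r) (v - h) *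
        SBg D s σ c g r (v - h)) * (v.im : ℂ) ^ (2 * r + 1) := by
  have hδ : (1 - g * v : ℂ) ≠ 0 := by
    intro h0
    have h1 := congrArg Complex.im h0
    have h2 : (g : ℝ) * v.im = 0 := by simpa using h1
    rcases mul_eq_zero.1 h2 with h3 | h3
    · have : (g : ℂ) = 0 := by exact_mod_cast h3
      rw [this] at h0
      simp at h0
    · exact hv.ne' h3
  set δ : ℂ := 1 - g * v with hδd
  have him : (v / δ).im = v.im / Complex.normSq δ := by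
    have h1 : v / δ = v * conj δ / (Complex.normSq δ : ℝ) := by
      rw [Complex.normSq_eq_conj_mul_self]
      have : conj δ ≠ 0 := by simpa using hδ
      field_simp
    rw [h1, Complex.div_ofReal_im]
    congr 1
    rw [hδd]
    simp
    ring
  have hns : 0 < Complex.normSq δ := Complex.normSq_pos.2 hδ
  have hnsc : (Complex.normSq δ : ℂ) = conj δ * δ := Complex.normSq_eq_conj_mul_self
  have hu' : 0 < (v / δ).im := by rw [him]; positivity
  have hvh : (v - h : ℂ) + h = v := by ring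
  have hvi : 0 < (v - h : ℂ).im := by simpa using hv
  have e1 : thψ (w + 2 * r) ψ c (v / δ) =
      1 / 2 * (δ ^ (w + 2 * r + 1) * κ) * SAg D s σ ψ c g (w + 2 * r) (v - h) := by
    unfold thψ SAg
    rw [mul_assoc (1 / 2 : ℂ), Finset.mul_sum _ _ (δ ^ (w + 2 * r + 1) * κ)]
    congr 1
    refine Finset.sum_congr rfl fun A _ => ?_
    have := hth (c.R A : Ideal (𝓞 F)) (w + 2 * r) (v - h) (bot_ne' _) (hc A)
      (hwe.add (even_two_mul r)) hvi
    rw [hvh] at this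
    rw [this]
    ring
  have e2 : conj (eis D χ r (conj (-(r : ℂ))) (v / δ)) =
      ε * (Real.pi / Real.sqrt D) * (conj δ ^ (2 * r + 1) * conj κ) * SBg D s σ c g r (v - h) := by
    have h1 : conj (-(r : ℂ)) = -(r : ℂ) := by simp
    rw [h1, hE _ hu']
    unfold SBg
    simp only [map_mul, map_div₀, map_sum, Complex.conj_ofReal, hε]
    rw [mul_assoc (ε * (Real.pi / Real.sqrt D) : ℂ),
      Finset.mul_sum _ _ (conj δ ^ (2 * r + 1) * conj κ)]
    congr 1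
    refine Finset.sum_congr rfl fun B _ => ?_
    have := hthl (c.R B : Ideal (𝓞 F)) r (v - h) (bot_ne' _) (hc B) hvi
    rw [hvh] at this
    rw [this]
    simp only [map_mul, map_pow, map_intCast]
    ring
  unfold HH
  rw [e1, e2, him]
  have hκ' : κ * conj κ = (g : ℂ) / D := by
    rw [Complex.mul_conj, hκ]
    push_cast
    rfl
  have hδc : conj δ ≠ 0 := by simpa using hδ
  have e3 : (((v.im / Complex.normSq δ : ℝ) : ℂ)) ^ (2 * r + 1) =
      (v.im : ℂ) ^ (2 * r + 1) * ((conj δ) ^ (2 * r + 1))⁻¹ * (δ ^ (2 * r + 1))⁻¹ := by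
    push_cast
    rw [hnsc, div_pow, mul_pow]
    field_simp
  rw [e3]
  have e4 : δ ^ (w + 2 * r + 1) = δ ^ w * δ ^ (2 * r + 1) := by rw [← pow_add]; ring_nf
  rw [e4, ← hκ']
  field_simp

/-- the terms for a pair of classes -/
noncomputable def PP (D : ℕ) (s : 𝓞 F) (σ : F →+* ℂ) (g k r : ℕ) (a b : Ideal (𝓞 F)) (u : ℂ) : ℂ :=
  SA (cG D s σ a g k) (qG D s σ a g) u * conj (SB r (qG D s σ b g) u)

theorem split (w r g : ℕ) (ψ : Ideal (𝓞 F) →*₀ ℂ) (c : Reps σ) (K : ℂ) (u : ℕ → ℂ) (y : ℂ)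
    (G : ℕ) (hu : ∀ j, ((u j).im : ℂ) = y) :
    ∑ j ∈ Finset.range G, K * (SAg D s σ ψ c g (w + 2 * r) (u j) *
        SBg D s σ c g r (u j)) * ((u j).im : ℂ) ^ (2 * r + 1) =
      ∑ A : ClassGroup (𝓞 F), ∑ B : ClassGroup (𝓞 F), K * (ψ (c.R A : Ideal (𝓞 F)))⁻¹ *
        (jacobiSym (Ideal.absNorm (c.R A : Ideal (𝓞 F)) * Ideal.absNorm (c.R B : Ideal (𝓞 F)))
          (D / g) : ℂ) * y ^ (2 * r + 1) *
        ∑ j ∈ Finset.range G, PP D s σ g (w + 2 * r) r (c.R A : Ideal (𝓞 F))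
          (c.R B : Ideal (𝓞 F)) (u j) := by
  have h1 : ∀ j ∈ Finset.range G, K * (SAg D s σ ψ c g (w + 2 * r) (u j) *
        SBg D s σ c g r (u j)) * ((u j).im : ℂ) ^ (2 * r + 1) =
      ∑ A : ClassGroup (𝓞 F), ∑ B : ClassGroup (𝓞 F), K * (ψ (c.R A : Ideal (𝓞 F)))⁻¹ *
        (jacobiSym (Ideal.absNorm (c.R A : Ideal (𝓞 F)) * Ideal.absNorm (c.R B : Ideal (𝓞 F)))
          (D / g) : ℂ) * y ^ (2 * r + 1) *
        PP D s σ g (w + 2 * r) r (c.R A : Ideal (𝓞 F)) (c.R B : Ideal (𝓞 F)) (u j) := by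
    intro j _
    rw [hu]
    unfold SAg SBg PP
    rw [Finset.sum_mul_sum, Finset.mul_sum, Finset.sum_mul]
    refine Finset.sum_congr rfl fun A _ => ?_
    rw [Finset.mul_sum, Finset.sum_mul]
    refine Finset.sum_congr rfl fun B _ => ?_
    rw [jacobiSym.mul_left, thG_eq, thlG_eq]
    push_cast
    ring
  rw [Finset.sum_congr rfl h1, Finset.sum_comm]
  refine Finset.sum_congr rfl fun A _ => ?_
  rw [Finset.sum_comm]
  refine Finset.sum_congr rfl fun B _ => ?_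
  rw [Finset.mul_sum]

theorem val (hd : DatD D s σ χ cj) (w r m g : ℕ) (a b : Ideal (𝓞 F)) :
    ∑' p : {p : (a * ram s g : Ideal (𝓞 F)) × (b * ram s g : Ideal (𝓞 F)) //
      qG D s σ a g p.1 - qG D s σ b g p.2 = m},
      cG D s σ a g (w + 2 * r) p.1.1 * (((w + r - 1).factorial : ℂ) *
        ((4 * Real.pi * qG D s σ a g p.1.1) ^ (w + r))⁻¹ *
          Jr w r (qG D s σ b g p.1.2 / qG D s σ a g p.1.1)) =
    ((w + r - 1).factorial : ℂ) * ((4 * Real.pi : ℂ) ^ (w + r))⁻¹ *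
      (((Complex.I * Real.sqrt D) ^ (w + 2 * r))⁻¹ * (D : ℂ) ^ (w + r) *
      ∑' p : {p : (a * ram s g : Ideal (𝓞 F)) × (b * ram s g : Ideal (𝓞 F)) //
        Qa σ a p.1 - Qa σ b p.2 = D * m}, PT w r σ a b p.1.1 p.1.2) := by
  have hD : (D : ℝ) ≠ 0 := by exact_mod_cast (Dpos hd).ne'
  have hDc : (D : ℂ) ≠ 0 := by exact_mod_cast (Dpos hd).ne'
  let e : {p : (a * ram s g : Ideal (𝓞 F)) × (b * ram s g : Ideal (𝓞 F)) //
      qG D s σ a g p.1 - qG D s σ b g p.2 = m} ≃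
      {p : (a * ram s g : Ideal (𝓞 F)) × (b * ram s g : Ideal (𝓞 F)) //
        Qa σ a p.1 - Qa σ b p.2 = D * m} := Equiv.subtypeEquivRight fun p => by
    unfold qG
    rw [← sub_div, div_eq_iff hD, mul_comm (m : ℝ)]
  rw [← e.tsum_eq, ← tsum_mul_left, ← tsum_mul_left]
  refine tsum_congr fun p => ?_
  have he1 : (e p).1 = p.1 := rfl
  rw [he1]
  unfold cG PT qG
  push_cast
  rw [div_div_div_cancel_right₀ hDc, div_pow, ← mul_div_assoc, div_pow, mul_pow (4 * (Real.pi : ℂ))]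
  rw [inv_div, div_eq_mul_inv, div_eq_mul_inv, mul_inv]
  ring

end

end JmX

open JmX

theorem stJmD (h1 : StThBD) (h3 : StThlD) (h4 : StEisThD) (h5 : StGam) (h6 : StBasD)
    (h7 : StBaseD) (h8 : StRam) : StJmD := by
  intro D _ F _ _ s σ χ cj w r ψ c hd hw hwe hc
  classical
  obtain ⟨ε, hε, hE⟩ := h4 D inferInstance F inferInstance inferInstance s σ χ cj c hd
  refine ⟨ε, hε, fun m hm => ?_⟩
  have hεc : conj ε = ε := by rcases hε with rfl | rfl <;> simp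
  obtain ⟨-, h3'⟩ := h3 D F inferInstance inferInstance s σ χ cj hd
  choose! hh κ hκ hth hthl using h3'
  have hD := Dpos hd
  have hw6 : 6 ≤ w := by
    obtain ⟨k, hk⟩ := hwe
    omega
  let co : ClassGroup (𝓞 F) → ClassGroup (𝓞 F) → ℕ → ℂ := fun A B g =>
    1 / 2 * ε * (Real.pi / Real.sqrt D) * (g / D) * (ψ (c.R A : Ideal (𝓞 F)))⁻¹ *
      (jacobiSym (Ideal.absNorm (c.R A : Ideal (𝓞 F)) * Ideal.absNorm (c.R B : Ideal (𝓞 F)))
          (D / g) : ℂ)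
  let W : ClassGroup (𝓞 F) → ClassGroup (𝓞 F) → ℕ → ℝ → ℂ := fun A B g y =>
    ∑' p : {p : ((c.R A : Ideal (𝓞 F)) * ram s g : Ideal (𝓞 F)) ×
        ((c.R B : Ideal (𝓞 F)) * ram s g : Ideal (𝓞 F)) //
      qG D s σ (c.R A : Ideal (𝓞 F)) g p.1 - qG D s σ (c.R B : Ideal (𝓞 F)) g p.2 = m},
        cG D s σ (c.R A : Ideal (𝓞 F)) g (w + 2 * r) p.1.1 *
          lag r (4 * Real.pi * qG D s σ (c.R B : Ideal (𝓞 F)) g p.1.2 * y) *
          Complex.exp (-(4 * Real.pi * qG D s σ (c.R A : Ideal (𝓞 F)) g p.1.1 * y))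
  have hgd : ∀ {g : ℕ}, g ∈ D.divisors → g ∣ D := fun hg => Nat.dvd_of_mem_divisors hg
  have hG1 : ∀ {g : ℕ}, g ∈ D.divisors → 1 ≤ D / g := fun {g} hg =>
    Nat.div_pos (Nat.le_of_dvd hD (hgd hg)) (Nat.pos_of_dvd_of_pos (hgd hg) hD)
  -- the trace
  have htr : ∀ x y : ℝ, 0 < y → trD D w (HH D χ w r ψ c (-r)) (x + y * Complex.I) =
      ∑ g ∈ D.divisors, ∑ A : ClassGroup (𝓞 F), ∑ B : ClassGroup (𝓞 F),
        co A B g * (y : ℂ) ^ (2 * r + 1) * ∑ j ∈ Finset.range (D / g),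
          PP D s σ g (w + 2 * r) r (c.R A : Ideal (𝓞 F)) (c.R B : Ideal (𝓞 F))
            (x + y * Complex.I + j - hh g) := by
    intro x y hy
    unfold trD
    refine Finset.sum_congr rfl fun g hg => ?_
    have h9 : ∀ j ∈ Finset.range (D / g),
        ((1 - g * ((x : ℂ) + y * Complex.I + j)) ^ w)⁻¹ *
          HH D χ w r ψ c (-r) (((x : ℂ) + y * Complex.I + j) / (1 - g * ((x : ℂ) + y * Complex.I + j))) =
        1 / 2 * ε * (Real.pi / Real.sqrt D) * (g / D) *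
          (SAg D s σ ψ c g (w + 2 * r) ((x : ℂ) + y * Complex.I + j - hh g) *
            SBg D s σ c g r ((x : ℂ) + y * Complex.I + j - hh g)) *
          (((x : ℂ) + y * Complex.I + j - hh g).im : ℂ) ^ (2 * r + 1) := by
      intro j _
      rw [loc hwe hc hεc (fun u hu => hE r u hu) (hκ g (hgd hg)) (hth g (hgd hg))
        (hthl g (hgd hg)) (by simpa using hy)]
      congr 2
      simp
    rw [Finset.sum_congr rfl h9]
    exact split w r g ψ c _ (fun j => (x : ℂ) + y * Complex.I + j - hh g) y _ (fun j => by simp)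
  -- the inner integral
  have hin : ∀ g ∈ D.divisors, ∀ (A B : ClassGroup (𝓞 F)) {y : ℝ}, 0 < y →
      IntervalIntegrable (fun x : ℝ => (∑ j ∈ Finset.range (D / g),
          PP D s σ g (w + 2 * r) r (c.R A : Ideal (𝓞 F)) (c.R B : Ideal (𝓞 F))
            (x + y * Complex.I + j - hh g)) * ee (-(m : ℂ) * (x - y * Complex.I))) volume 0 1 ∧
      ∫ x in (0 : ℝ)..1, (∑ j ∈ Finset.range (D / g),
          PP D s σ g (w + 2 * r) r (c.R A : Ideal (𝓞 F)) (c.R B : Ideal (𝓞 F))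
            (x + y * Complex.I + j - hh g)) * ee (-(m : ℂ) * (x - y * Complex.I)) =
        ((D / g : ℕ) : ℂ) * ((y : ℂ) ^ r)⁻¹ * W A B g y := by
    intro g hg A B y hy
    have c1 := cnt h1 h8 hd (hgd hg) (bot_ne' (c.R A))
    have c2 := cnt h1 h8 hd (hgd hg) (bot_ne' (c.R B))
    exact inner (summ_c h1 h8 hd (hgd hg) (bot_ne' _) _) (summ_1 h1 h8 hd (hgd hg) (bot_ne' _))
      (qG_nonneg _ _) (D / g) (hG1 hg) (qG_int h6 h8 hd (hgd hg) (bot_ne' _) (bot_ne' _)) m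
      (hh g) hy
  have hout : ∀ g ∈ D.divisors, ∀ (A B : ClassGroup (𝓞 F)),
      IntegrableOn (fun y : ℝ => (y : ℂ) ^ (w + r - 1) * W A B g y) (Ioi 0) ∧
      ∫ y in Ioi (0 : ℝ), (y : ℂ) ^ (w + r - 1) * W A B g y =
        ((w + r - 1).factorial : ℂ) * ((4 * Real.pi : ℂ) ^ (w + r))⁻¹ *
      (((Complex.I * Real.sqrt D) ^ (w + 2 * r))⁻¹ * (D : ℂ) ^ (w + r) *
      ∑' p : {p : ((c.R A : Ideal (𝓞 F)) * ram s g : Ideal (𝓞 F)) ×
        ((c.R B : Ideal (𝓞 F)) * ram s g : Ideal (𝓞 F)) //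
        Qa σ (c.R A : Ideal (𝓞 F)) p.1 - Qa σ (c.R B : Ideal (𝓞 F)) p.2 = D * m},
        PT w r σ (c.R A : Ideal (𝓞 F)) (c.R B : Ideal (𝓞 F)) p.1.1 p.1.2) := by
    intro g hg A B
    have c1 := cnt h1 h8 hd (hgd hg) (bot_ne' (c.R A))
    have c2 := cnt h1 h8 hd (hgd hg) (bot_ne' (c.R B))
    rw [← val hd]
    exact outer h5 (qG_nonneg _ _) (by omega) hm
      (summ_S h7 h8 hd (hgd hg) (bot_ne' _) (bot_ne' _) hw6 hm)
  unfold JJ
  have hstep : ∀ y ∈ Ioi (0 : ℝ), (∫ x in (0 : ℝ)..1,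
      trD D w (HH D χ w r ψ c (-r)) (x + y * Complex.I) * ee (-(m : ℂ) * (x - y * Complex.I))) *
        (y : ℂ) ^ (w - 2) = ∑ g ∈ D.divisors, ∑ A : ClassGroup (𝓞 F), ∑ B : ClassGroup (𝓞 F),
        co A B g * ((D / g : ℕ) : ℂ) * ((y : ℂ) ^ (w + r - 1) * W A B g y) := by
    intro y hy
    have hy' : (0 : ℝ) < y := hy
    have hyc : (y : ℂ) ≠ 0 := by exact_mod_cast hy'.ne'
    have e1 : ∀ x : ℝ, trD D w (HH D χ w r ψ c (-r)) (x + y * Complex.I) *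
        ee (-(m : ℂ) * (x - y * Complex.I)) =
        ∑ g ∈ D.divisors, ∑ A : ClassGroup (𝓞 F), ∑ B : ClassGroup (𝓞 F),
        co A B g * (y : ℂ) ^ (2 * r + 1) * ((∑ j ∈ Finset.range (D / g),
          PP D s σ g (w + 2 * r) r (c.R A : Ideal (𝓞 F)) (c.R B : Ideal (𝓞 F))
            (x + y * Complex.I + j - hh g)) * ee (-(m : ℂ) * (x - y * Complex.I))) := by
      intro x
      rw [htr x y hy', Finset.sum_mul]
      refine Finset.sum_congr rfl fun g _ => ?_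
      rw [Finset.sum_mul]
      refine Finset.sum_congr rfl fun A _ => ?_
      rw [Finset.sum_mul]
      refine Finset.sum_congr rfl fun B _ => ?_
      ring
    simp_rw [e1]
    have hi : ∀ g ∈ D.divisors, ∀ (A B : ClassGroup (𝓞 F)), IntervalIntegrable (fun x : ℝ =>
        co A B g * (y : ℂ) ^ (2 * r + 1) * ((∑ j ∈ Finset.range (D / g),
          PP D s σ g (w + 2 * r) r (c.R A : Ideal (𝓞 F)) (c.R B : Ideal (𝓞 F))
            (x + y * Complex.I + j - hh g)) * ee (-(m : ℂ) * (x - y * Complex.I)))) volume 0 1 :=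
      fun g hg A B => (hin g hg A B hy').1.const_mul _
    have hi2 : ∀ g ∈ D.divisors, ∀ (A : ClassGroup (𝓞 F)), IntervalIntegrable (fun x : ℝ =>
        ∑ B : ClassGroup (𝓞 F), co A B g * (y : ℂ) ^ (2 * r + 1) * ((∑ j ∈ Finset.range (D / g),
          PP D s σ g (w + 2 * r) r (c.R A : Ideal (𝓞 F)) (c.R B : Ideal (𝓞 F))
            (x + y * Complex.I + j - hh g)) * ee (-(m : ℂ) * (x - y * Complex.I)))) volume 0 1 :=
      fun g hg A => intervalIntegrable_iff.2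
        (integrable_finsetSum _ fun B _ => intervalIntegrable_iff.1 (hi g hg A B))
    have hi3 : ∀ g ∈ D.divisors, IntervalIntegrable (fun x : ℝ => ∑ A : ClassGroup (𝓞 F),
        ∑ B : ClassGroup (𝓞 F), co A B g * (y : ℂ) ^ (2 * r + 1) * ((∑ j ∈ Finset.range (D / g),
          PP D s σ g (w + 2 * r) r (c.R A : Ideal (𝓞 F)) (c.R B : Ideal (𝓞 F))
            (x + y * Complex.I + j - hh g)) * ee (-(m : ℂ) * (x - y * Complex.I)))) volume 0 1 :=
      fun g hg => intervalIntegrable_iff.2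
        (integrable_finsetSum _ fun A _ => intervalIntegrable_iff.1 (hi2 g hg A))
    rw [intervalIntegral.integral_finsetSum hi3, Finset.sum_mul]
    refine Finset.sum_congr rfl fun g hg => ?_
    rw [intervalIntegral.integral_finsetSum (fun A _ => hi2 g hg A), Finset.sum_mul]
    refine Finset.sum_congr rfl fun A _ => ?_
    rw [intervalIntegral.integral_finsetSum (fun B _ => hi g hg A B), Finset.sum_mul]
    refine Finset.sum_congr rfl fun B _ => ?_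
    rw [intervalIntegral.integral_const_mul, (hin g hg A B hy').2]
    have e2 : (y : ℂ) ^ (2 * r + 1) * ((y : ℂ) ^ r)⁻¹ * (y : ℂ) ^ (w - 2) =
        (y : ℂ) ^ (w + r - 1) := by
      rw [mul_inv_eq_iff_eq_mul₀ (pow_ne_zero _ hyc) |>.2 (show (y : ℂ) ^ (2 * r + 1) =
        (y : ℂ) ^ (r + 1) * (y : ℂ) ^ r by rw [← pow_add]; congr 1; omega), ← pow_add]
      congr 1
      omega
    rw [← e2]
    ring
  rw [setIntegral_congr_fun measurableSet_Ioi hstep]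
  have ho : ∀ g ∈ D.divisors, ∀ (A B : ClassGroup (𝓞 F)), Integrable (fun y : ℝ =>
      co A B g * ((D / g : ℕ) : ℂ) * ((y : ℂ) ^ (w + r - 1) * W A B g y))
        (volume.restrict (Ioi (0 : ℝ))) := fun g hg A B => (hout g hg A B).1.const_mul _
  have ho2 : ∀ g ∈ D.divisors, ∀ (A : ClassGroup (𝓞 F)), Integrable (fun y : ℝ =>
      ∑ B : ClassGroup (𝓞 F), co A B g * ((D / g : ℕ) : ℂ) *
        ((y : ℂ) ^ (w + r - 1) * W A B g y)) (volume.restrict (Ioi (0 : ℝ))) :=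
    fun g hg A => integrable_finsetSum _ fun B _ => ho g hg A B
  have ho3 : ∀ g ∈ D.divisors, Integrable (fun y : ℝ => ∑ A : ClassGroup (𝓞 F),
      ∑ B : ClassGroup (𝓞 F), co A B g * ((D / g : ℕ) : ℂ) *
        ((y : ℂ) ^ (w + r - 1) * W A B g y)) (volume.restrict (Ioi (0 : ℝ))) :=
    fun g hg => integrable_finsetSum _ fun A _ => ho2 g hg A
  rw [integral_finsetSum _ ho3]
  rw [Finset.mul_sum]
  have e3 : ∀ g ∈ D.divisors, ∫ y in Ioi (0 : ℝ), ∑ A : ClassGroup (𝓞 F),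
      ∑ B : ClassGroup (𝓞 F), co A B g * ((D / g : ℕ) : ℂ) *
        ((y : ℂ) ^ (w + r - 1) * W A B g y) = ∑ A : ClassGroup (𝓞 F), ∑ B : ClassGroup (𝓞 F),
        co A B g * ((D / g : ℕ) : ℂ) * (((w + r - 1).factorial : ℂ) *
          ((4 * Real.pi : ℂ) ^ (w + r))⁻¹ *
      (((Complex.I * Real.sqrt D) ^ (w + 2 * r))⁻¹ * (D : ℂ) ^ (w + r) *
      ∑' p : {p : ((c.R A : Ideal (𝓞 F)) * ram s g : Ideal (𝓞 F)) ×
        ((c.R B : Ideal (𝓞 F)) * ram s g : Ideal (𝓞 F)) //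
        Qa σ (c.R A : Ideal (𝓞 F)) p.1 - Qa σ (c.R B : Ideal (𝓞 F)) p.2 = D * m},
        PT w r σ (c.R A : Ideal (𝓞 F)) (c.R B : Ideal (𝓞 F)) p.1.1 p.1.2)) := by
    intro g hg
    rw [integral_finsetSum _ (fun A _ => ho2 g hg A)]
    refine Finset.sum_congr rfl fun A _ => ?_
    rw [integral_finsetSum _ (fun B _ => ho g hg A B)]
    refine Finset.sum_congr rfl fun B _ => ?_
    rw [integral_const_mul, (hout g hg A B).2]
  rw [Finset.sum_congr rfl e3, Finset.sum_comm]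
  refine Finset.sum_congr rfl fun A _ => ?_
  rw [Finset.sum_comm, Finset.mul_sum]
  refine Finset.sum_congr rfl fun B _ => ?_
  unfold SSD
  rw [Finset.mul_sum, Finset.mul_sum, Finset.mul_sum]
  refine Finset.sum_congr rfl fun g hg => ?_
  have hgD : (g : ℂ) / D * ((D / g : ℕ) : ℂ) = 1 := by
    have hg0 : (g : ℂ) ≠ 0 := by
      have := Nat.pos_of_dvd_of_pos (hgd hg) hD
      exact_mod_cast this.ne'
    have hDc : (D : ℂ) ≠ 0 := by exact_mod_cast hD.ne'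
    rw [Nat.cast_div (hgd hg) hg0]
    field_simp
  simp only [co]
  calc _ = ((g : ℂ) / D * ((D / g : ℕ) : ℂ)) * (1 / 2 * ε * (Real.pi / Real.sqrt D) *
        (ψ (c.R A : Ideal (𝓞 F)))⁻¹ *
      (jacobiSym (Ideal.absNorm (c.R A : Ideal (𝓞 F)) * Ideal.absNorm (c.R B : Ideal (𝓞 F)))
          (D / g) : ℂ) * (((w + r - 1).factorial : ℂ) *
          ((4 * Real.pi : ℂ) ^ (w + r))⁻¹ *
      (((Complex.I * Real.sqrt D) ^ (w + 2 * r))⁻¹ * (D : ℂ) ^ (w + r) *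
      ∑' p : {p : ((c.R A : Ideal (𝓞 F)) * ram s g : Ideal (𝓞 F)) ×
        ((c.R B : Ideal (𝓞 F)) * ram s g : Ideal (𝓞 F)) //
        Qa σ (c.R A : Ideal (𝓞 F)) p.1 - Qa σ (c.R B : Ideal (𝓞 F)) p.2 = D * m},
        PT w r σ (c.R A : Ideal (𝓞 F)) (c.R B : Ideal (𝓞 F)) p.1.1 p.1.2))) := by ring
    _ = _ := by rw [hgD]; ring

end RZ

end Pool.Agent.Lib.MP_7c08ba_nt
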