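import Pool.Agent.Lib.MP_7c08ba_nt.RZ.StA

set_option autoImplicit false

/-! (A12) the kernel identity. -/

namespace Pool.Agent.Lib.MP_7c08ba_nt

namespace RZ

open NumberField MeasureTheory UpperHalfPlane Set
open scoped MatrixGroups ComplexConjugate nonZeroDivisors

namespace KerAux

theorem div_im_eq (x y : ℂ) : (x / y).im = (x * conj y).im * (Complex.normSq y)⁻¹ := by
  rw [div_eq_mul_inv, Complex.inv_def, ← mul_assoc, Complex.im_mul_ofReal]

theorem mob_im_nonneg (v : Cop) (z : ℂ) (hz : 0 < z.im) : 0 ≤ (mob v.1 z).im := by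
  obtain ⟨⟨c, d⟩, hcd⟩ := v
  unfold mob
  rw [div_im_eq]
  refine mul_nonneg ?_ (inv_nonneg.2 (Complex.normSq_nonneg _))
  have hg : c * Int.gcdA c d + d * Int.gcdB c d = 1 := by
    rw [← Int.gcd_eq_gcd_ab]
    exact_mod_cast Int.isCoprime_iff_gcd_eq_one.1 hcd
  have hgr : (c : ℝ) * Int.gcdA c d + d * Int.gcdB c d = 1 := by exact_mod_cast hg
  have : (((Int.gcdB c d : ℂ) * z - Int.gcdA c d) * conj ((c : ℂ) * z + d)).im =
      ((c : ℝ) * Int.gcdA c d + d * Int.gcdB c d) * z.im := by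
    simp [Complex.mul_im, Complex.mul_re]
    ring
  show 0 ≤ (((Int.gcdB c d : ℂ) * z - Int.gcdA c d) * conj ((c : ℂ) * z + d)).im
  rw [this, hgr, one_mul]
  exact hz.le

theorem norm_ee (z : ℂ) : ‖ee z‖ = Real.exp (-(2 * Real.pi * z.im)) := by
  unfold ee
  rw [Complex.norm_exp]
  congr 1
  simp [Complex.mul_re, Complex.mul_im]

theorem summable_cop (w : ℕ) (hw : 3 ≤ w) (z : ℂ) (hz : 0 < z.im) :
    Summable fun v : Cop => ‖(((v.1.1 : ℂ) * z + v.1.2) ^ w)⁻¹‖ := by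
  have h := EisensteinSeries.summable_norm_eisSummand (k := (w : ℤ)) (by exact_mod_cast hw)
    (⟨z, hz⟩ : ℍ)
  have hi : Function.Injective fun v : Cop => (![v.1.1, v.1.2] : Fin 2 → ℤ) := by
    intro v u huv
    have h0 := congrFun huv 0
    have h1 := congrFun huv 1
    simp at h0 h1
    exact Subtype.ext (Prod.ext h0 h1)
  have h2 := h.comp_injective hi
  refine h2.congr fun v => ?_
  simp only [Function.comp, EisensteinSeries.eisSummand]
  simp [zpow_neg]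

theorem norm_poinc (w : ℕ) (hw : 3 ≤ w) (z : ℂ) (hz : 0 < z.im) : ∃ K : ℝ, 0 ≤ K ∧ ∀ n : ℕ,
    ‖poinc w n z‖ ≤ K := by
  have hs := summable_cop w hw z hz
  refine ⟨(1 / 2) * ∑' v : Cop, ‖(((v.1.1 : ℂ) * z + v.1.2) ^ w)⁻¹‖,
    mul_nonneg (by norm_num) (tsum_nonneg fun _ => norm_nonneg _), fun n => ?_⟩
  unfold poinc
  rw [norm_mul]
  have hb : ∀ v : Cop, ‖(((v.1.1 : ℂ) * z + v.1.2) ^ w)⁻¹ * ee (n * mob v.1 z)‖ ≤
      ‖(((v.1.1 : ℂ) * z + v.1.2) ^ w)⁻¹‖ := by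
    intro v
    rw [norm_mul]
    refine mul_le_of_le_one_right (norm_nonneg _) ?_
    rw [norm_ee, Real.exp_le_one_iff]
    have h1 : ((n : ℂ) * mob v.1 z).im = n * (mob v.1 z).im := by
      simp [Complex.mul_im]
    rw [h1]
    have := mob_im_nonneg v z hz
    have : 0 ≤ 2 * Real.pi * (n * (mob v.1 z).im) := by positivity
    linarith
  have hs2 : Summable fun v : Cop => ‖(((v.1.1 : ℂ) * z + v.1.2) ^ w)⁻¹ * ee (n * mob v.1 z)‖ :=
    Summable.of_nonneg_of_le (fun _ => norm_nonneg _) hb hs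
  have h3 : ‖(1 / 2 : ℂ)‖ = 1 / 2 := by simp
  rw [h3]
  refine mul_le_mul_of_nonneg_left ?_ (by norm_num)
  exact (norm_tsum_le_tsum_norm hs2).trans (hs2.tsum_le_tsum hb hs)

/-- the change of signs on matrices of determinant `m` -/
def sgnE (m : ℕ) : DetM m ≃ DetM m where
  toFun g := ⟨!![g.1 0 0, -g.1 0 1; -g.1 1 0, g.1 1 1], by
    have := g.2
    rw [Matrix.det_fin_two] at this
    rw [Matrix.det_fin_two_of]
    linarith⟩
  invFun g := ⟨!![g.1 0 0, -g.1 0 1; -g.1 1 0, g.1 1 1], by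
    have := g.2
    rw [Matrix.det_fin_two] at this
    rw [Matrix.det_fin_two_of]
    linarith⟩
  left_inv g := by
    apply Subtype.ext
    ext i j
    fin_cases i <;> fin_cases j <;> simp
  right_inv g := by
    apply Subtype.ext
    ext i j
    fin_cases i <;> fin_cases j <;> simp

theorem bil_eq (g : Matrix (Fin 2) (Fin 2) ℤ) {x₁ x₂ y₁ y₂ : ℂ} (hx : x₂ ≠ 0) (hy : y₂ ≠ 0) :
    bil g x₁ x₂ y₁ y₂ = -(x₂ * y₂) * ((g 0 0 : ℂ) * (-y₁ / y₂) + ((-g 0 1 : ℤ) : ℂ) +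
      (x₁ / x₂) * (((-g 1 0 : ℤ) : ℂ) * (-y₁ / y₂) + (g 1 1 : ℂ))) := by
  unfold bil
  push_cast
  field_simp
  ring

theorem sum_bil (w m : ℕ) (hev : Even w) {x₁ x₂ y₁ y₂ : ℂ} (hx : x₂ ≠ 0) (hy : y₂ ≠ 0) :
    ∑' g : DetM m, ((bil g.1 x₁ x₂ y₁ y₂) ^ w)⁻¹ = ((x₂ * y₂) ^ w)⁻¹ *
      ∑' g : DetM m, (((g.1 0 0 : ℂ) * (-y₁ / y₂) + g.1 0 1 +
        (x₁ / x₂) * ((g.1 1 0 : ℂ) * (-y₁ / y₂) + g.1 1 1)) ^ w)⁻¹ := by
  rw [← (sgnE m).tsum_eq, ← tsum_mul_left]
  refine tsum_congr fun g => ?_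
  have e0 : ((sgnE m) g).1 0 0 = g.1 0 0 := rfl
  have e1 : -((sgnE m) g).1 0 1 = g.1 0 1 := neg_neg _
  have e2 : -((sgnE m) g).1 1 0 = g.1 1 0 := neg_neg _
  have e3 : ((sgnE m) g).1 1 1 = g.1 1 1 := rfl
  rw [bil_eq ((sgnE m) g).1 hx hy, mul_pow, hev.neg_pow, mul_inv, e0, e1, e2, e3]

end KerAux

open KerAux in
theorem stKer (h1 : StW12) (h2 : StTrF) (h3 : StTrP) (h4 : StWk) (h5 : StCoef) : StKer := by
  intro w f β hf hβ hfβ x₁ x₂ y₁ y₂ hx hy
  obtain ⟨hw12, hev⟩ := h1 w f hf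
  have hx2 : x₂ ≠ 0 := by
    rintro rfl
    simp at hx
  have hy2 : y₂ ≠ 0 := by
    rintro rfl
    simp at hy
  set z : ℂ := -y₁ / y₂ with hzdef
  set z₁ : ℂ := x₁ / x₂ with hz1def
  have hz : 0 < z.im := by
    rw [hzdef, div_im_eq]
    have : (-y₁ * conj y₂).im = -(y₁ * conj y₂).im := by
      rw [neg_mul, Complex.neg_im]
    rw [this]
    exact mul_pos (by linarith) (inv_pos.2 (Complex.normSq_pos.2 hy2))
  have hz1 : 0 < z₁.im := by
    rw [hz1def, div_im_eq]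
    exact mul_pos hx (inv_pos.2 (Complex.normSq_pos.2 hx2))
  have hsup : ∀ m ∈ β.support, 1 ≤ m := by
    intro m hm
    rcases Nat.eq_zero_or_pos m with rfl | h
    · exact absurd hβ (Finsupp.mem_support_iff.1 hm)
    · exact h
  -- the terms
  let T : ℕ → ℕ → ℂ := fun m r => ee (((r : ℂ) + 1) * z₁) *
    ∑ g ∈ (m.gcd (r + 1)).divisors, (((r + 1) / g : ℕ) : ℂ) ^ (w - 1) *
      poinc w ((r + 1) * m / g ^ 2) z
  obtain ⟨K, hK0, hK⟩ := norm_poinc w (by omega) z hz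
  have hT : ∀ m ∈ β.support, Summable (T m) := by
    intro m hm
    have hm1 := hsup m hm
    set ρ : ℝ := Real.exp (-(2 * Real.pi * z₁.im)) with hρ
    have hρ1 : ‖ρ‖ < 1 := by
      rw [Real.norm_eq_abs, abs_of_pos (Real.exp_pos _), Real.exp_lt_one_iff]
      have : 0 < 2 * Real.pi * z₁.im := by positivity
      linarith
    have hs := summable_pow_mul_geometric_of_norm_lt_one (w - 1) hρ1
    have hs2 := ((summable_nat_add_iff 1).2 hs).mul_left (m * K)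
    refine Summable.of_norm_bounded hs2 fun r => ?_
    show ‖ee (((r : ℂ) + 1) * z₁) * _‖ ≤ _
    rw [norm_mul]
    have e1 : ‖ee (((r : ℂ) + 1) * z₁)‖ = ρ ^ (r + 1) := by
      rw [norm_ee, hρ, ← Real.exp_nat_mul]
      congr 1
      have : (((r : ℂ) + 1) * z₁).im = ((r : ℝ) + 1) * z₁.im := by
        simp [Complex.mul_im]
      rw [this]
      push_cast
      ring
    have e2 : ‖∑ g ∈ (m.gcd (r + 1)).divisors, (((r + 1) / g : ℕ) : ℂ) ^ (w - 1) *
        poinc w ((r + 1) * m / g ^ 2) z‖ ≤ m * (((r + 1 : ℕ) : ℝ) ^ (w - 1) * K) := by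
      refine (norm_sum_le _ _).trans ?_
      have e3 : ∀ g ∈ (m.gcd (r + 1)).divisors, ‖(((r + 1) / g : ℕ) : ℂ) ^ (w - 1) *
          poinc w ((r + 1) * m / g ^ 2) z‖ ≤ ((r + 1 : ℕ) : ℝ) ^ (w - 1) * K := by
        intro g _
        rw [norm_mul, norm_pow, Complex.norm_natCast]
        have : (((r + 1) / g : ℕ) : ℝ) ≤ ((r + 1 : ℕ) : ℝ) := by
          exact_mod_cast Nat.div_le_self _ _
        gcongr
        exact hK _
      refine (Finset.sum_le_card_nsmul _ _ _ e3).trans ?_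
      rw [nsmul_eq_mul]
      have e4 : ((m.gcd (r + 1)).divisors.card : ℝ) ≤ m := by
        have h6 : (m.gcd (r + 1)).divisors.card ≤ m.gcd (r + 1) := Nat.card_divisors_le_self _
        have h7 : m.gcd (r + 1) ≤ m := Nat.gcd_le_left _ hm1
        exact_mod_cast h6.trans h7
      gcongr
    rw [e1]
    calc ρ ^ (r + 1) * _ ≤ ρ ^ (r + 1) * (m * (((r + 1 : ℕ) : ℝ) ^ (w - 1) * K)) := by
          gcongr
      _ = _ := by ring
  -- the sum over `m` of the terms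
  have hsum : ∀ r : ℕ, ∑ m ∈ β.support, β m * T m r =
      f (ofComplex z) * (coef f (r + 1) * ee (((r + 1 : ℕ) : ℂ) * z₁)) := by
    intro r
    have e1 : ∀ m ∈ β.support, β m * T m r = ee (((r : ℂ) + 1) * z₁) *
        ∑ d ∈ (r + 1).divisors, ∑ b ∈ Finset.range d,
          ((((r + 1) / d : ℕ) : ℂ)) ^ (w - 1) * (d : ℂ)⁻¹ *
          (β m * poinc w m (((((r + 1) / d : ℕ) : ℂ) * z + b) / d)) := by
      intro m hm
      have e2 := h3 w m (r + 1) z (by omega) hev (hsup m hm) (by omega) hz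
      show β m * (ee (((r : ℂ) + 1) * z₁) * _) = _
      rw [← e2, Finset.mul_sum, Finset.mul_sum, Finset.mul_sum]
      refine Finset.sum_congr rfl fun d _ => ?_
      rw [Finset.mul_sum, Finset.mul_sum, Finset.mul_sum]
      refine Finset.sum_congr rfl fun b _ => ?_
      ring
    rw [Finset.sum_congr rfl e1, ← Finset.mul_sum, Finset.sum_comm]
    have e3 : ∀ d ∈ (r + 1).divisors, ∑ m ∈ β.support, ∑ b ∈ Finset.range d,
          ((((r + 1) / d : ℕ) : ℂ)) ^ (w - 1) * (d : ℂ)⁻¹ *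
          (β m * poinc w m (((((r + 1) / d : ℕ) : ℂ) * z + b) / d)) =
        ∑ b ∈ Finset.range d, ((((r + 1) / d : ℕ) : ℂ)) ^ (w - 1) * (d : ℂ)⁻¹ *
          f (ofComplex (((((r + 1) / d : ℕ) : ℂ) * z + b) / d)) := by
      intro d hd
      rw [Finset.sum_comm]
      refine Finset.sum_congr rfl fun b _ => ?_
      rw [← Finset.mul_sum]
      congr 1
      have hd0 : 0 < d := Nat.pos_of_mem_divisors hd
      have hd1 : 0 < (r + 1) / d := Nat.div_pos (Nat.divisor_le hd) hd0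
      have him : 0 < (((((r + 1) / d : ℕ) : ℂ) * z + b) / d).im := by
        rw [Complex.div_natCast_im]
        have : ((((r + 1) / d : ℕ) : ℂ) * z + b).im = (((r + 1) / d : ℕ) : ℝ) * z.im := by
          simp only [Complex.add_im, Complex.mul_im, Complex.natCast_re, Complex.natCast_im]
          ring
        rw [this]
        have h8 : (0 : ℝ) < (((r + 1) / d : ℕ) : ℝ) := by exact_mod_cast hd1
        have h9 : (0 : ℝ) < d := by exact_mod_cast hd0
        positivity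
      rw [ofComplex_apply_of_im_pos him, hfβ]
      rfl
    rw [Finset.sum_congr rfl e3, h2 w f hf (r + 1) z (by omega) hz]
    push_cast
    ring
  obtain ⟨hc0, -, hexp, -, -⟩ := h5 w f
  have hfz1 : f (ofComplex z₁) = ∑' r : ℕ, coef f (r + 1) * ee (((r + 1 : ℕ) : ℂ) * z₁) := by
    obtain ⟨hs, he⟩ := hexp z₁ hz1
    rw [he, hs.of_norm.tsum_eq_zero_add, hc0]
    simp
  unfold Finsupp.sum
  have e5 : ∀ m ∈ β.support, β m * ∑' g : DetM m, ((bil g.1 x₁ x₂ y₁ y₂) ^ w)⁻¹ =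
      ((x₂ * y₂) ^ w)⁻¹ * (2 * Cw w) * ∑' r : ℕ, β m * T m r := by
    intro m hm
    rw [sum_bil w m hev hx2 hy2, h4 w m z z₁ (by omega) hev (hsup m hm) hz hz1, tsum_mul_left]
    show _ = ((x₂ * y₂) ^ w)⁻¹ * (2 * Cw w) * (β m * ∑' r : ℕ, ee (((r : ℂ) + 1) * z₁) * _)
    ring
  rw [Finset.sum_congr rfl e5, ← Finset.mul_sum,
    ← Summable.tsum_finsetSum fun m hm => (hT m hm).mul_left (β m), tsum_congr hsum,
    tsum_mul_left, ← hfz1]
  unfold lf
  rw [mul_pow, mul_inv]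
  ring

end RZ

end Pool.Agent.Lib.MP_7c08ba_nt
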