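import Pool.Agent.Lib.MP_7c08ba_nt.RZ.StD

set_option autoImplicit false

/-! Module D8: generating functions at a prime. -/

namespace Pool.Agent.Lib.MP_7c08ba_nt

namespace RZ

namespace LocalAux

/-- linear recurrences of order four -/
lemma rec_four {t : ℕ → ℂ} {e₁ e₂ e₃ e₄ : ℂ} (ht : Summable t)
    (h : ∀ n, t (n + 4) + e₁ * t (n + 3) + e₂ * t (n + 2) + e₃ * t (n + 1) + e₄ * t n = 0) :
    (∑' n, t n) * (1 + e₁ + e₂ + e₃ + e₄) =
      t 0 + t 1 + t 2 + t 3 + e₁ * (t 0 + t 1 + t 2) + e₂ * (t 0 + t 1) + e₃ * t 0 := by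
  have hs : ∀ k : ℕ, Summable fun n => t (n + k) := fun k => (summable_nat_add_iff k).mpr ht
  have h1 : ∑' n, t n = t 0 + ∑' n, t (n + 1) := by
    rw [← ht.sum_add_tsum_nat_add 1]; simp
  have h2 : ∑' n, t n = t 0 + t 1 + ∑' n, t (n + 2) := by
    rw [← ht.sum_add_tsum_nat_add 2]; simp [Finset.sum_range_succ]
  have h3 : ∑' n, t n = t 0 + t 1 + t 2 + ∑' n, t (n + 3) := by
    rw [← ht.sum_add_tsum_nat_add 3]; simp [Finset.sum_range_succ]
  have h4 : ∑' n, t n = t 0 + t 1 + t 2 + t 3 + ∑' n, t (n + 4) := by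
    rw [← ht.sum_add_tsum_nat_add 4]; simp [Finset.sum_range_succ]
  have h5 : ∑' n, t (n + 4) + e₁ * ∑' n, t (n + 3) + e₂ * ∑' n, t (n + 2) +
      e₃ * ∑' n, t (n + 1) + e₄ * ∑' n, t n = 0 := by
    rw [← tsum_mul_left, ← tsum_mul_left, ← tsum_mul_left, ← tsum_mul_left,
      ← (hs 4).tsum_add ((hs 3).mul_left e₁),
      ← ((hs 4).add ((hs 3).mul_left e₁)).tsum_add ((hs 2).mul_left e₂),
      ← (((hs 4).add ((hs 3).mul_left e₁)).add ((hs 2).mul_left e₂)).tsum_add
        ((hs 1).mul_left e₃),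
      ← ((((hs 4).add ((hs 3).mul_left e₁)).add ((hs 2).mul_left e₂)).add
        ((hs 1).mul_left e₃)).tsum_add (ht.mul_left e₄)]
    rw [tsum_congr h, tsum_zero]
  linear_combination h5 + e₁ * h3 + e₂ * h2 + e₃ * h1 + h4

/-- linear recurrences of order two -/
lemma rec_two {t : ℕ → ℂ} {e₁ e₂ : ℂ} (ht : Summable t)
    (h : ∀ n, t (n + 2) + e₁ * t (n + 1) + e₂ * t n = 0) :
    (∑' n, t n) * (1 + e₁ + e₂) = t 0 + t 1 + e₁ * t 0 := by
  have h1 := rec_four (e₁ := e₁) (e₂ := e₂) (e₃ := 0) (e₄ := 0) ht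
    (fun n => by linear_combination h (n + 2))
  have h0 := h 0
  have h2 := h 1
  simp only [zero_add, Nat.reduceAdd] at h0 h2
  linear_combination h1 + h0 + h2

/-- the sums of products of powers -/
lemma pow_rec (γ δ : ℂ) (n : ℕ) :
    ∑ i ∈ Finset.range (n + 3), γ ^ i * δ ^ (n + 2 - i) =
      (γ + δ) * ∑ i ∈ Finset.range (n + 2), γ ^ i * δ ^ (n + 1 - i) -
        γ * δ * ∑ i ∈ Finset.range (n + 1), γ ^ i * δ ^ (n - i) := by
  have key : ∀ m : ℕ, ∑ i ∈ Finset.range (m + 2), γ ^ i * δ ^ (m + 1 - i) =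
      δ * ∑ i ∈ Finset.range (m + 1), γ ^ i * δ ^ (m - i) + γ ^ (m + 1) := by
    intro m
    rw [Finset.sum_range_succ, Nat.sub_self, pow_zero, mul_one, Finset.mul_sum]
    congr 1
    refine Finset.sum_congr rfl fun i hi => ?_
    have : i ≤ m := Nat.lt_succ_iff.mp (Finset.mem_range.mp hi)
    rw [Nat.succ_sub this, pow_succ]
    ring
  rw [key (n + 1), key n]
  ring

end LocalAux

open LocalAux in
theorem stLocal : StLocal := by
  intro u a c h0 h1 hu
  have h2 : u 2 = a * a - c := by rw [hu 0, h0, zero_add, h1, mul_one]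
  have h3 : u 3 = a * (a * a - c) - c * a := by
    have := hu 1
    simp only [Nat.reduceAdd] at this
    rw [this, h2, h1]
  refine ⟨?_, ?_, ?_⟩
  · intro γ δ X hs
    set b : ℕ → ℂ := fun n => ∑ i ∈ Finset.range (n + 1), γ ^ i * δ ^ (n - i) with hb
    have hb0 : b 0 = 1 := by simp [hb]
    have hb1 : b 1 = γ + δ := by simp [hb, Finset.sum_range_succ]; ring
    have hbr : ∀ n, b (n + 2) = (γ + δ) * b (n + 1) - γ * δ * b n := fun n => pow_rec γ δ n
    have hb2 : b 2 = (γ + δ) * (γ + δ) - γ * δ := by rw [hbr 0, zero_add, hb0, hb1]; ring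
    have hb3 : b 3 = (γ + δ) * ((γ + δ) * (γ + δ) - γ * δ) - γ * δ * (γ + δ) := by
      have := hbr 1
      simp only [Nat.reduceAdd] at this
      rw [this, hb2, hb1]
    have ht : Summable fun n : ℕ => u n * b n * X ^ n := hs.of_norm
    have hr := rec_four (t := fun n : ℕ => u n * b n * X ^ n) (e₁ := -(a * (γ + δ) * X))
      (e₂ := (c * (γ ^ 2 + δ ^ 2) + a ^ 2 * (γ * δ)) * X ^ 2)
      (e₃ := -(a * c * (γ * δ) * (γ + δ) * X ^ 3)) (e₄ := c ^ 2 * γ ^ 2 * δ ^ 2 * X ^ 4) ht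
      (fun n => by
        have a4 := hu (n + 2)
        have a3 := hu (n + 1)
        have a2 := hu n
        have b4 := hbr (n + 2)
        have b3 := hbr (n + 1)
        have b2 := hbr n
        rw [show n + 2 + 2 = n + 4 by ring, show n + 2 + 1 = n + 3 by ring] at a4 b4
        rw [show n + 1 + 2 = n + 3 by ring, show n + 1 + 1 = n + 2 by ring] at a3 b3
        rw [a4, b4, a3, b3, a2, b2]
        ring)
    simp only [h0, h1, h2, h3, hb0, hb1, hb2, hb3] at hr
    linear_combination hr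
  · intro γ X hs
    have ht : Summable fun n : ℕ => u (2 * n) * γ ^ n * X ^ (2 * n) := hs.of_norm
    have hr := rec_two (t := fun n : ℕ => u (2 * n) * γ ^ n * X ^ (2 * n))
      (e₁ := -((a ^ 2 - 2 * c) * γ * X ^ 2)) (e₂ := c ^ 2 * γ ^ 2 * X ^ 4) ht
      (fun n => by
        have a4 := hu (2 * n + 2)
        have a3 := hu (2 * n + 1)
        have a2 := hu (2 * n)
        rw [show 2 * (n + 2) = 2 * n + 2 + 2 by ring, show 2 * (n + 1) = 2 * n + 2 by ring]
        rw [show 2 * n + 2 + 1 = 2 * n + 3 by ring] at a4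
        rw [show 2 * n + 1 + 2 = 2 * n + 3 by ring, show 2 * n + 1 + 1 = 2 * n + 2 by ring] at a3
        rw [a4, a3, a2]
        ring)
    simp only [mul_zero, mul_one, pow_zero, pow_one, h0, h2] at hr
    linear_combination hr
  · intro γ X hs
    have ht : Summable fun n : ℕ => u n * γ ^ n * X ^ n := hs.of_norm
    have hr := rec_two (t := fun n : ℕ => u n * γ ^ n * X ^ n)
      (e₁ := -(a * γ * X)) (e₂ := c * γ ^ 2 * X ^ 2) ht
      (fun n => by
        rw [hu n]
        ring)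
    simp only [mul_one, pow_zero, pow_one, h0, h1] at hr
    linear_combination hr

end RZ

end Pool.Agent.Lib.MP_7c08ba_nt
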