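import Mathlib
import Pool.Agent.Lib.MP_7c08ba_nt.RZ.StG

set_option autoImplicit false

/-!
Assembly of the analytic part for every odd fundamental discriminant `-D`.
-/

namespace Pool.Agent.Lib.MP_7c08ba_nt

namespace RZ

open NumberField MeasureTheory UpperHalfPlane Set IsDedekindDomain
open scoped MatrixGroups ComplexConjugate nonZeroDivisors

namespace MainDAux

/-- The Jacobi symbol as a Dirichlet character. -/
lemma exists_chi {D : ℕ} (hD : 1 < D) :
    ∃ χ : DirichletCharacter ℂ D, ∀ n : ℤ, χ n = (jacobiSym n D : ℂ) := by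
  have : NeZero D := ⟨by omega⟩
  have hval : ∀ n : ℤ, jacobiSym (((n : ZMod D).val : ℕ) : ℤ) D = jacobiSym n D := by
    intro n
    rw [ZMod.val_intCast, ← jacobiSym.mod_left]
  have hone : jacobiSym (((1 : ZMod D).val : ℕ) : ℤ) D = 1 := by
    have := hval 1
    rwa [Int.cast_one, jacobiSym.one_left] at this
  have hmul : ∀ x y : ZMod D, jacobiSym (((x * y).val : ℕ) : ℤ) D =
      jacobiSym ((x.val : ℕ) : ℤ) D * jacobiSym ((y.val : ℕ) : ℤ) D := by
    intro x y
    have h1 := hval ((x.val : ℤ) * (y.val : ℤ))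
    rw [jacobiSym.mul_left] at h1
    rw [← h1]
    congr 3
    push_cast
    rw [ZMod.natCast_zmod_val, ZMod.natCast_zmod_val]
  refine ⟨{ toFun := fun x => ((jacobiSym ((x.val : ℕ) : ℤ) D : ℤ) : ℂ)
            map_one' := by rw [hone]; norm_num
            map_mul' := fun x y => by rw [hmul]; push_cast; ring
            map_nonunit' := ?_ }, fun n => ?_⟩
  · intro x hx
    have h1 : jacobiSym ((x.val : ℕ) : ℤ) D = 0 := by
      rw [jacobiSym.eq_zero_iff_not_coprime]
      intro hc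
      apply hx
      have h2 : Nat.Coprime x.val D := by
        rw [Int.gcd_natCast_natCast] at hc
        exact hc
      rw [← ZMod.natCast_zmod_val x]
      exact (ZMod.isUnit_iff_coprime _ _).2 h2
    show ((jacobiSym ((x.val : ℕ) : ℤ) D : ℤ) : ℂ) = 0
    rw [h1]
    norm_num
  · show ((jacobiSym (((n : ZMod D).val : ℕ) : ℤ) D : ℤ) : ℂ) = _
    rw [hval]

/-- Complex conjugation on a quadratic field. -/
lemma exists_cj {F : Type} [Field F] [NumberField F] (hF : Module.finrank ℚ F = 2)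
    (σ : F →+* ℂ) : ∃ cj : 𝓞 F ≃+* 𝓞 F, ∀ x : 𝓞 F, σ (cj x) = conj (σ x) := by
  have : Algebra.IsQuadraticExtension ℚ F := ⟨hF⟩
  obtain ⟨τ, hτ⟩ := ComplexEmbedding.exists_comp_symm_eq_of_comp_eq (k := ℚ) σ
    (ComplexEmbedding.conjugate σ) (Subsingleton.elim _ _)
  refine ⟨RingOfIntegers.mapRingEquiv (τ.symm : F ≃+* F), fun x => ?_⟩
  have h := RingHom.congr_fun hτ (x : F)
  exact h

/-- The data attached to the field. -/
lemma exists_dat {D : ℕ} {F : Type} [Field F] [NumberField F] {s : F} (σ : F →+* ℂ)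
    (hD : OddD D) (hF : Module.finrank ℚ F = 2) (hs : s ^ 2 = -(D : F)) :
    ∃ (s' : 𝓞 F) (χ : DirichletCharacter ℂ D) (cj : 𝓞 F ≃+* 𝓞 F), DatD D s' σ χ cj := by
  obtain ⟨χ, hχ⟩ := exists_chi (D := D) (by have := hD.2.2; omega)
  obtain ⟨cj, hcj⟩ := exists_cj hF σ
  -- the square root in the ring of integers
  have hint : IsIntegral ℤ s := by
    refine IsIntegral.of_pow (n := 2) (by norm_num) ?_
    rw [hs]
    exact (isIntegral_natCast D).neg
  obtain ⟨s₁, hs₁⟩ : ∃ s₁ : 𝓞 F, (s₁ : F) = s := ⟨⟨s, hint⟩, rfl⟩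
  have hsq : s₁ ^ 2 = -(D : 𝓞 F) := by
    apply RingOfIntegers.ext
    simp only [map_pow, map_neg, map_natCast, hs₁, hs]
  -- its image
  have h2 : (σ s - Complex.I * Real.sqrt D) * (σ s + Complex.I * Real.sqrt D) = 0 := by
    have h3 : (Real.sqrt D : ℂ) ^ 2 = D := by
      rw [← Complex.ofReal_pow, Real.sq_sqrt (Nat.cast_nonneg D), Complex.ofReal_natCast]
    have h4 : σ s ^ 2 = -(D : ℂ) := by rw [← map_pow, hs, map_neg, map_natCast]
    have h5 : (σ s - Complex.I * Real.sqrt D) * (σ s + Complex.I * Real.sqrt D) =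
        σ s ^ 2 - Complex.I ^ 2 * (Real.sqrt D : ℂ) ^ 2 := by ring
    rw [h5, h3, h4, Complex.I_sq]
    ring
  rcases mul_eq_zero.mp h2 with h3 | h3
  · refine ⟨s₁, χ, cj, hD, hF, hsq, ?_, hχ, hcj⟩
    rw [hs₁]
    exact sub_eq_zero.mp h3
  · refine ⟨-s₁, χ, cj, hD, hF, ?_, ?_, hχ, hcj⟩
    · rw [neg_sq, hsq]
    · have hc : ((-s₁ : 𝓞 F) : F) = -s := by
        rw [← hs₁]
        rfl
      rw [hc, map_neg, neg_eq_iff_eq_neg]
      exact add_eq_zero_iff_eq_neg.mp h3

end MainDAux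

theorem stMainD (h1 : StCenD) (h2 : StRSanD) (h3 : StRSD) (h4 : StDnD) (h5 : StEulD) (h6 : StW12)
    (h8 : StPInvD) : StMainD := by
  intro q F _ _ s σ w r f ψ hq hF hs hf hψ
  obtain ⟨s', χ, cj, hD⟩ := MainDAux.exists_dat σ hq hF hs
  obtain ⟨hw, hwe⟩ := h6 w f hf
  have hq0 : NeZero q := ⟨by have := hq.2.2; omega⟩
  obtain ⟨c₀, K₀, hK₀, hcop, hcen⟩ := h1 q hq0 F _ _ s' σ χ cj w r f ψ hD hf hψ
  have han := h2 q hq0 F _ _ s' σ χ cj w r f ψ c₀ hD (by omega) hwe hcop
  obtain ⟨A, hA⟩ := h3 q hq0 F _ _ s' σ χ cj w r f ψ c₀ hD (by omega) hwe hψ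
  obtain ⟨-, hDn⟩ := h4 q F _ _ s' σ χ cj w r f ψ hD (by omega) hψ
  have hpi : (4 * Real.pi : ℂ) ≠ 0 := by
    have := Real.pi_ne_zero
    simp [this]
  -- the function
  let Λ : ℂ → ℂ := fun z => (4 * Real.pi : ℂ) ^ ((w : ℂ) + r + z) *
    (Complex.Gamma ((w : ℂ) + r + z))⁻¹ * rsD q (HH q χ w r ψ c₀ (z - r)) f
  have hΛ : DifferentiableOn ℂ Λ {z | -1 / 2 < z.re} := by
    have e1 : Differentiable ℂ fun z : ℂ => (w : ℂ) + r + z :=
      (differentiable_const _).add differentiable_id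
    have e2 : Differentiable ℂ fun z : ℂ => (4 * Real.pi : ℂ) ^ ((w : ℂ) + r + z) :=
      e1.const_cpow (Or.inl hpi)
    have e3 : Differentiable ℂ fun z : ℂ => (Complex.Gamma ((w : ℂ) + r + z))⁻¹ :=
      Complex.differentiable_one_div_Gamma.comp e1
    refine (e2.mul e3).differentiableOn.mul ?_
    refine han.comp (g := fun t => rsD q (HH q χ w r ψ c₀ t) f) (f := fun z : ℂ => z - r)
      (differentiable_id.sub (differentiable_const _)).differentiableOn ?_
    intro z hz
    simp only [mem_ofPred_eq, Complex.sub_re, Complex.natCast_re] at hz ⊢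
    linarith
  have hEq : EqOn Λ (fun z => DirichletCharacter.LFunction χ (1 + 2 * z) *
      Dn f ψ ((w : ℂ) + r + z)) {z | 1 < z.re} := by
    have hopen : IsOpen {z : ℂ | 1 < z.re} := isOpen_lt continuous_const Complex.continuous_re
    have ha1 : AnalyticOnNhd ℂ Λ {z | 1 < z.re} :=
      (hΛ.mono fun z (hz : 1 < z.re) => by
        show -1 / 2 < z.re
        linarith).analyticOnNhd hopen
    have ha2 : AnalyticOnNhd ℂ (fun z => DirichletCharacter.LFunction χ (1 + 2 * z) *
        Dn f ψ ((w : ℂ) + r + z)) {z | 1 < z.re} := by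
      refine DifferentiableOn.analyticOnNhd (DifferentiableOn.mul ?_ hDn) hopen
      intro z hz
      refine DifferentiableAt.differentiableWithinAt ?_
      refine DifferentiableAt.comp (g := DirichletCharacter.LFunction χ)
        (f := fun z : ℂ => 1 + 2 * z) z
        (DirichletCharacter.differentiableAt_LFunction χ _ (Or.inl ?_)) ?_
      · intro h
        have h' := congrArg Complex.re h
        simp only [mem_ofPred_eq] at hz
        simp at h'
        rw [h'] at hz
        norm_num at hz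
      · exact ((differentiable_const _).add ((differentiable_const _).mul differentiable_id)) z
    -- the point where the two functions agree
    let z₀ : ℂ := ((max 1 (A + r) + 1 : ℝ) : ℂ)
    have hz₀ : z₀ ∈ {z : ℂ | 1 < z.re} := by
      show 1 < z₀.re
      rw [Complex.ofReal_re]
      have := le_max_left 1 (A + r)
      linarith
    refine ha1.eqOn_of_preconnected_of_eventuallyEq ha2
      (convex_halfSpace_re_gt 1).isPreconnected hz₀ ?_
    have hev : ∀ᶠ z in nhds z₀, A + r < z.re :=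
      (isOpen_lt continuous_const Complex.continuous_re).mem_nhds (by
        show A + r < z₀.re
        rw [Complex.ofReal_re]
        have := le_max_right 1 (A + r)
        linarith)
    have hev2 : ∀ᶠ z in nhds z₀, 1 < z.re := hopen.mem_nhds hz₀
    filter_upwards [hev, hev2] with z hz hz1
    have h9 := hA (z - r) (by
      rw [Complex.sub_re, Complex.natCast_re]
      linarith)
    have e1 : (w : ℂ) + 2 * r + (z - r) = (w : ℂ) + r + z := by ring
    have e2 : 2 * (r : ℂ) + 1 + 2 * (z - r) = 1 + 2 * z := by ring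
    rw [e1, e2] at h9
    have hG : Complex.Gamma ((w : ℂ) + r + z) ≠ 0 := by
      refine Complex.Gamma_ne_zero_of_re_pos ?_
      simp only [Complex.add_re, Complex.natCast_re]
      have : (0 : ℝ) ≤ w := Nat.cast_nonneg w
      have : (0 : ℝ) ≤ r := Nat.cast_nonneg r
      linarith
    have hP : (4 * Real.pi : ℂ) ^ ((w : ℂ) + r + z) ≠ 0 := by
      rw [Complex.cpow_def_of_ne_zero hpi]
      exact Complex.exp_ne_zero _
    show (4 * Real.pi : ℂ) ^ ((w : ℂ) + r + z) *
      (Complex.Gamma ((w : ℂ) + r + z))⁻¹ * rsD q (HH q χ w r ψ c₀ (z - r)) f = _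
    rw [h9, Complex.cpow_neg]
    field_simp
  refine ⟨Λ, hΛ, ?_, ?_⟩
  · intro z hz
    rw [hEq hz]
    exact h5 q hq0 F _ _ s' σ χ cj w r f ψ hD hf hψ z hz
  · intro c
    have hper := (h8 q F _ _ s' σ χ cj w r f ψ hD hψ (by omega)).1 c₀ c
    refine ⟨(4 * Real.pi : ℂ) ^ ((w : ℂ) + r + 0) *
      (Complex.Gamma ((w : ℂ) + r + 0))⁻¹ * K₀, ?_, ?_⟩
    · refine mul_ne_zero (mul_ne_zero ?_ (inv_ne_zero ?_)) hK₀
      · rw [Complex.cpow_def_of_ne_zero hpi]
        exact Complex.exp_ne_zero _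
      · refine Complex.Gamma_ne_zero_of_re_pos ?_
        simp only [Complex.add_re, Complex.natCast_re, Complex.zero_re]
        have : (12 : ℝ) ≤ w := by exact_mod_cast hw
        have : (0 : ℝ) ≤ r := Nat.cast_nonneg r
        linarith
    · show (4 * Real.pi : ℂ) ^ ((w : ℂ) + r + 0) *
        (Complex.Gamma ((w : ℂ) + r + 0))⁻¹ * rsD q (HH q χ w r ψ c₀ (0 - r)) f = _
      rw [zero_sub, hcen, hper]
      ring

end RZ

end Pool.Agent.Lib.MP_7c08ba_nt
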