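import Mathlib
import Pool.Agent.Lib.MP_7c08ba_nt.RZ.StA

set_option autoImplicit false

/-!
(A10) sums over integral matrices of determinant `m`: convergence.
-/

namespace Pool.Agent.Lib.MP_7c08ba_nt

namespace RZ

open NumberField MeasureTheory UpperHalfPlane Set
open scoped MatrixGroups ComplexConjugate nonZeroDivisors

namespace MatSAux

/-- Two numbers with quotient off the real line are independent. -/
lemma indep {y₁ y₂ : ℂ} (hy : (y₁ * conj y₂).im ≠ 0) {c d : ℝ}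
    (h : (c : ℂ) * y₁ + d * y₂ = 0) : c = 0 ∧ d = 0 := by
  have h1 : (c : ℂ) * (y₁ * conj y₂) + d * (y₂ * conj y₂) = 0 := by
    linear_combination (conj y₂) * h
  have h2 : (c : ℂ) * (y₁ * conj y₁) + d * (y₂ * conj y₁) = 0 := by
    linear_combination (conj y₁) * h
  have i1 := congrArg Complex.im h1
  have i2 := congrArg Complex.im h2
  rw [Complex.mul_conj] at h1 h2
  simp only [Complex.add_im, Complex.mul_im, Complex.mul_re, Complex.conj_re, Complex.conj_im,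
    Complex.ofReal_re, Complex.ofReal_im, Complex.zero_im] at i1 i2 hy
  constructor
  · have : c * (y₁.re * -y₂.im + y₁.im * y₂.re) = 0 := by linarith
    rcases mul_eq_zero.mp this with h | h
    · exact h
    · exact absurd h hy
  · have : d * (y₁.re * -y₂.im + y₁.im * y₂.re) = 0 := by linarith
    rcases mul_eq_zero.mp this with h | h
    · exact h
    · exact absurd h hy

/-- The bilinear form vanishes only at zero, on matrices of nonnegative determinant. -/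
lemma nonvan {x₁ x₂ y₁ y₂ : ℂ} (hx : 0 < (x₁ * conj x₂).im) (hy : (y₁ * conj y₂).im < 0)
    {a b c d : ℝ} (hdet : 0 ≤ a * d - b * c)
    (h : ((a : ℂ) * y₁ + b * y₂) * x₂ - ((c : ℂ) * y₁ + d * y₂) * x₁ = 0) :
    a = 0 ∧ b = 0 ∧ c = 0 ∧ d = 0 := by
  have hx2 : x₂ ≠ 0 := by
    rintro rfl
    simp at hx
  set P : ℂ := (a : ℂ) * y₁ + b * y₂ with hP
  set Q : ℂ := (c : ℂ) * y₁ + d * y₂ with hQ
  have h1 : P * conj Q * (x₂ * conj x₂) = Q * conj Q * (x₁ * conj x₂) := by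
    linear_combination (conj Q * conj x₂) * h
  have h2 : (P * conj Q).im = (a * d - b * c) * (y₁ * conj y₂).im := by
    rw [hP, hQ]
    simp only [map_add, map_mul, Complex.conj_ofReal, Complex.add_im, Complex.mul_im,
      Complex.mul_re, Complex.add_re, Complex.conj_re, Complex.conj_im,
      Complex.ofReal_re, Complex.ofReal_im]
    ring
  rw [Complex.mul_conj, Complex.mul_conj] at h1
  have h3 := congrArg Complex.im h1
  rw [Complex.im_mul_ofReal, Complex.im_ofReal_mul, h2] at h3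
  have hn : 0 < Complex.normSq x₂ := Complex.normSq_pos.mpr hx2
  have h4 : (a * d - b * c) * (y₁ * conj y₂).im * Complex.normSq x₂ ≤ 0 :=
    mul_nonpos_of_nonpos_of_nonneg (mul_nonpos_of_nonneg_of_nonpos hdet hy.le) hn.le
  have h5 : Complex.normSq Q * (x₁ * conj x₂).im ≤ 0 := h3 ▸ h4
  have h6 : Complex.normSq Q = 0 := by
    have := Complex.normSq_nonneg Q
    by_contra hne
    have hpos : 0 < Complex.normSq Q := lt_of_le_of_ne this (Ne.symm hne)
    exact absurd h5 (not_le.mpr (mul_pos hpos hx))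
  have hQ0 : Q = 0 := Complex.normSq_eq_zero.mp h6
  have hP0 : P = 0 := by
    rw [hQ0, zero_mul, sub_zero] at h
    exact (mul_eq_zero.mp h).resolve_right hx2
  obtain ⟨ha, hb⟩ := indep hy.ne hP0
  obtain ⟨hc, hd⟩ := indep hy.ne hQ0
  exact ⟨ha, hb, hc, hd⟩

/-- The bilinear form on pairs of rows. -/
noncomputable def bl (x₁ x₂ y₁ y₂ : ℂ) (p : (Fin 2 → ℝ) × (Fin 2 → ℝ)) : ℂ :=
  ((p.1 0 : ℂ) * y₁ + p.1 1 * y₂) * x₂ - ((p.2 0 : ℂ) * y₁ + p.2 1 * y₂) * x₁

lemma bl_smul (x₁ x₂ y₁ y₂ : ℂ) (p : (Fin 2 → ℝ) × (Fin 2 → ℝ)) (t : ℝ) :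
    bl x₁ x₂ y₁ y₂ (t • p) = t * bl x₁ x₂ y₁ y₂ p := by
  unfold bl
  simp only [Prod.smul_fst, Prod.smul_snd, Pi.smul_apply, smul_eq_mul, Complex.ofReal_mul]
  ring

/-- The lower bound for the bilinear form. -/
lemma lower {x₁ x₂ y₁ y₂ : ℂ} (hx : 0 < (x₁ * conj x₂).im) (hy : (y₁ * conj y₂).im < 0) :
    ∃ δ : ℝ, 0 < δ ∧ ∀ p : (Fin 2 → ℝ) × (Fin 2 → ℝ), 0 ≤ p.1 0 * p.2 1 - p.1 1 * p.2 0 →
      δ * ‖p‖ ≤ ‖bl x₁ x₂ y₁ y₂ p‖ := by
  set S : Set ((Fin 2 → ℝ) × (Fin 2 → ℝ)) :=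
    Metric.sphere 0 1 ∩ {p | 0 ≤ p.1 0 * p.2 1 - p.1 1 * p.2 0} with hS
  have hcl : IsClosed {p : (Fin 2 → ℝ) × (Fin 2 → ℝ) | 0 ≤ p.1 0 * p.2 1 - p.1 1 * p.2 0} := by
    apply isClosed_le continuous_const
    fun_prop
  have hK : IsCompact S := (isCompact_sphere 0 1).inter_right hcl
  have hcont : Continuous fun p : (Fin 2 → ℝ) × (Fin 2 → ℝ) => ‖bl x₁ x₂ y₁ y₂ p‖ := by
    unfold bl
    fun_prop
  have hne : S.Nonempty := by
    refine ⟨(fun i => if i = 0 then 1 else 0, fun i => if i = 0 then 0 else 1), ?_, ?_⟩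
    · rw [mem_sphere_zero_iff_norm, Prod.norm_def]
      have e1 : ‖(fun i : Fin 2 => if i = 0 then (1 : ℝ) else 0)‖ = 1 := by
        apply le_antisymm
        · rw [pi_norm_le_iff_of_nonneg zero_le_one]
          intro i
          fin_cases i <;> simp
        · have := norm_le_pi_norm (fun i : Fin 2 => if i = 0 then (1 : ℝ) else 0) 0
          simpa using this
      have e2 : ‖(fun i : Fin 2 => if i = 0 then (0 : ℝ) else 1)‖ ≤ 1 := by
        rw [pi_norm_le_iff_of_nonneg zero_le_one]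
        intro i
        fin_cases i <;> simp
      rw [e1]
      exact max_eq_left e2
    · simp
  obtain ⟨p₀, hp₀, hmin⟩ := hK.exists_isMinOn hne hcont.continuousOn
  have hpos : 0 < ‖bl x₁ x₂ y₁ y₂ p₀‖ := by
    rw [norm_pos_iff]
    intro h0
    obtain ⟨h1, h2, h3, h4⟩ := nonvan hx hy hp₀.2 h0
    have hz : p₀ = 0 := by
      apply Prod.ext
      · funext i
        fin_cases i
        · exact h1
        · exact h2
      · funext i
        fin_cases i
        · exact h3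
        · exact h4
    have hn := hp₀.1
    rw [mem_sphere_zero_iff_norm, hz, norm_zero] at hn
    exact zero_ne_one hn
  refine ⟨‖bl x₁ x₂ y₁ y₂ p₀‖, hpos, fun p hp => ?_⟩
  rcases eq_or_ne p 0 with rfl | hp0
  · simp [bl]
  · have hnp : 0 < ‖p‖ := norm_pos_iff.mpr hp0
    have hin : ‖p‖⁻¹ • p ∈ S := by
      refine ⟨?_, ?_⟩
      · rw [mem_sphere_zero_iff_norm, norm_smul, norm_inv, norm_norm, inv_mul_cancel₀ hnp.ne']
      · show 0 ≤ (‖p‖⁻¹ * p.1 0) * (‖p‖⁻¹ * p.2 1) - (‖p‖⁻¹ * p.1 1) * (‖p‖⁻¹ * p.2 0)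
        have : (‖p‖⁻¹ * p.1 0) * (‖p‖⁻¹ * p.2 1) - (‖p‖⁻¹ * p.1 1) * (‖p‖⁻¹ * p.2 0) =
            (‖p‖⁻¹) ^ 2 * (p.1 0 * p.2 1 - p.1 1 * p.2 0) := by ring
        rw [this]
        exact mul_nonneg (sq_nonneg _) hp
    have h1 : ‖bl x₁ x₂ y₁ y₂ p₀‖ ≤ ‖bl x₁ x₂ y₁ y₂ (‖p‖⁻¹ • p)‖ := hmin hin
    rw [bl_smul, norm_mul, Complex.norm_real, norm_inv, norm_norm] at h1
    calc ‖bl x₁ x₂ y₁ y₂ p₀‖ * ‖p‖ ≤ (‖p‖⁻¹ * ‖bl x₁ x₂ y₁ y₂ p‖) * ‖p‖ :=
          mul_le_mul_of_nonneg_right h1 hnp.le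
      _ = ‖bl x₁ x₂ y₁ y₂ p‖ := by field_simp

/-- The rows of an integral matrix. -/
def rows (g : Matrix (Fin 2) (Fin 2) ℤ) : (Fin 2 → ℤ) × (Fin 2 → ℤ) := (g 0, g 1)

lemma rows_inj : Function.Injective rows := by
  intro g h hgh
  have h0 : g 0 = h 0 := congrArg Prod.fst hgh
  have h1 : g 1 = h 1 := congrArg Prod.snd hgh
  ext i j
  fin_cases i
  · exact congrFun h0 j
  · exact congrFun h1 j

lemma norm_castR (v : Fin 2 → ℤ) : ‖(fun i => (v i : ℝ))‖ = ‖v‖ := by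
  apply le_antisymm
  · rw [pi_norm_le_iff_of_nonneg (norm_nonneg _)]
    intro i
    rw [Int.norm_cast_real]
    exact norm_le_pi_norm v i
  · rw [pi_norm_le_iff_of_nonneg (norm_nonneg _)]
    intro i
    rw [← Int.norm_cast_real]
    exact norm_le_pi_norm (fun i => (v i : ℝ)) i

lemma bil_eq (g : Matrix (Fin 2) (Fin 2) ℤ) (x₁ x₂ y₁ y₂ : ℂ) :
    bil g x₁ x₂ y₁ y₂ = bl x₁ x₂ y₁ y₂ ((fun i => (g 0 i : ℝ)), (fun i => (g 1 i : ℝ))) := by
  unfold bil bl
  push_cast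
  ring

lemma one_le_norm {v : Fin 2 → ℤ} (h : v ≠ 0) : 1 ≤ ‖v‖ := by
  obtain ⟨i, hi⟩ := Function.ne_iff.mp h
  have h1 : (1 : ℝ) ≤ ‖v i‖ := by
    rw [Int.norm_eq_abs]
    exact_mod_cast Int.one_le_abs hi
  exact h1.trans (norm_le_pi_norm v i)

end MatSAux

open MatSAux in
/-- Module A10. -/
theorem stMatS : StMatS := by
  intro w m x₁ x₂ y₁ y₂ hw hm hx hy
  have hdet : ∀ g : DetM m, g.1 0 0 * g.1 1 1 - g.1 0 1 * g.1 1 0 = (m : ℤ) := by
    intro g
    have := g.2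
    rwa [Matrix.det_fin_two] at this
  have hdetR : ∀ g : DetM m, (g.1 0 0 : ℝ) * g.1 1 1 - g.1 0 1 * g.1 1 0 = m := by
    intro g
    exact_mod_cast hdet g
  have hm0 : (0 : ℤ) < m := by exact_mod_cast hm
  refine ⟨?_, ?_⟩
  · intro g h0
    have h1 : (((g.1 0 0 : ℝ) : ℂ) * y₁ + ((g.1 0 1 : ℝ) : ℂ) * y₂) * x₂ -
        (((g.1 1 0 : ℝ) : ℂ) * y₁ + ((g.1 1 1 : ℝ) : ℂ) * y₂) * x₁ = 0 := by
      push_cast
      exact h0
    obtain ⟨a, b, c, d⟩ := nonvan hx hy (by rw [hdetR g]; positivity) h1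
    have h2 := hdetR g
    rw [a, b, c, d] at h2
    simp only [mul_zero, sub_zero] at h2
    have : (0 : ℝ) < m := by exact_mod_cast hm
    exact this.ne h2
  · obtain ⟨δ, hδ, hlow⟩ := lower hx hy
    have hs : Summable fun v : Fin 2 → ℤ => ‖v‖ ^ (-((w : ℝ) / 2)) := by
      apply EisensteinSeries.summable_one_div_norm_rpow
      have : (5 : ℝ) ≤ w := by exact_mod_cast hw
      linarith
    have hs2 : Summable fun p : (Fin 2 → ℤ) × (Fin 2 → ℤ) =>
        ‖p.1‖ ^ (-((w : ℝ) / 2)) * ‖p.2‖ ^ (-((w : ℝ) / 2)) :=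
      hs.mul_of_nonneg hs (fun v => by positivity) (fun v => by positivity)
    have hs3 : Summable fun g : DetM m => (δ ^ w)⁻¹ *
        (‖(rows g.1).1‖ ^ (-((w : ℝ) / 2)) * ‖(rows g.1).2‖ ^ (-((w : ℝ) / 2))) :=
      (hs2.comp_injective (rows_inj.comp Subtype.val_injective)).mul_left _
    refine Summable.of_nonneg_of_le (fun g => norm_nonneg _) (fun g => ?_) hs3
    have hu : g.1 0 ≠ 0 := by
      intro h
      have := hdet g
      rw [show g.1 0 0 = 0 from congrFun h 0, show g.1 0 1 = 0 from congrFun h 1] at this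
      simp only [zero_mul, sub_zero] at this
      exact hm0.ne this
    have hv : g.1 1 ≠ 0 := by
      intro h
      have := hdet g
      rw [show g.1 1 0 = 0 from congrFun h 0, show g.1 1 1 = 0 from congrFun h 1] at this
      simp only [mul_zero, sub_zero] at this
      exact hm0.ne this
    have hu1 := one_le_norm hu
    have hv1 := one_le_norm hv
    set U : ℝ := ‖g.1 0‖ with hU
    set V : ℝ := ‖g.1 1‖ with hV
    have hb := hlow ((fun i => (g.1 0 i : ℝ)), (fun i => (g.1 1 i : ℝ)))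
      (by show 0 ≤ (g.1 0 0 : ℝ) * g.1 1 1 - g.1 0 1 * g.1 1 0
          rw [hdetR g]; positivity)
    rw [← bil_eq, Prod.norm_def, norm_castR, norm_castR] at hb
    have hU0 : 0 < U := by linarith
    have hV0 : 0 < V := by linarith
    have hUV : (U * V) ^ ((w : ℝ) / 2) ≤ (max U V) ^ w := by
      have h1 : U * V ≤ (max U V) ^ 2 := by
        rw [sq]
        exact mul_le_mul (le_max_left _ _) (le_max_right _ _) hV0.le (hU0.le.trans (le_max_left _ _))
      calc (U * V) ^ ((w : ℝ) / 2) ≤ ((max U V) ^ 2) ^ ((w : ℝ) / 2) :=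
            Real.rpow_le_rpow (by positivity) h1 (by positivity)
        _ = (max U V) ^ w := by
            rw [← Real.rpow_natCast (max U V) 2, ← Real.rpow_mul (hU0.le.trans (le_max_left _ _)),
              ← Real.rpow_natCast]
            congr 1
            push_cast
            ring
    have hfin : δ ^ w * (U * V) ^ ((w : ℝ) / 2) ≤ ‖bil g.1 x₁ x₂ y₁ y₂‖ ^ w := by
      calc δ ^ w * (U * V) ^ ((w : ℝ) / 2) ≤ δ ^ w * (max U V) ^ w :=
            mul_le_mul_of_nonneg_left hUV (by positivity)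
        _ = (δ * max U V) ^ w := by rw [mul_pow]
        _ ≤ _ := pow_le_pow_left₀ (by positivity) hb w
    show ‖((bil g.1 x₁ x₂ y₁ y₂) ^ w)⁻¹‖ ≤ (δ ^ w)⁻¹ * (U ^ (-((w : ℝ) / 2)) * V ^ (-((w : ℝ) / 2)))
    rw [norm_inv, norm_pow, Real.rpow_neg hU0.le, Real.rpow_neg hV0.le, ← mul_inv, ← mul_inv,
      ← Real.mul_rpow hU0.le hV0.le]
    exact inv_anti₀ (by positivity) hfin

end RZ

end Pool.Agent.Lib.MP_7c08ba_nt
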