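import Mathlib
import Pool.Agent.Lib.MP_7c08ba_nt.RZ.StB

set_option autoImplicit false

/-!
The period does not depend on the representatives of the classes of ideals.
-/

namespace Pool.Agent.Lib.MP_7c08ba_nt

namespace RZ

open NumberField MeasureTheory UpperHalfPlane Set
open scoped MatrixGroups ComplexConjugate nonZeroDivisors

namespace PInvAux

variable {w : ℕ}

/-- the function of bases is invariant under `SL(2, ℤ)` -/
theorem lf_sl (f : CuspForm 𝒮ℒ (w : ℤ)) (g : SL(2, ℤ)) {x y : ℂ} (h : 0 < (x * conj y).im) :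
    lf f ((g 0 0 : ℂ) * x + (g 0 1 : ℂ) * y) ((g 1 0 : ℂ) * x + (g 1 1 : ℂ) * y) = lf f x y := by
  have hy : y ≠ 0 := by
    rintro rfl
    simp at h
  have him : 0 < (x / y).im := by
    have e : x / y = ((Complex.normSq y)⁻¹ : ℝ) * (x * conj y) := by
      rw [Complex.ofReal_inv, Complex.normSq_eq_conj_mul_self]
      have : conj y ≠ 0 := by simpa using hy
      field_simp
    rw [e, Complex.im_ofReal_mul]
    exact mul_pos (inv_pos.2 (Complex.normSq_pos.2 hy)) h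
  set τ : ℍ := ⟨x / y, him⟩ with hτ
  have hτc : (τ : ℂ) = x / y := rfl
  have hs : f (g • τ) = ((g 1 0 : ℂ) * τ + (g 1 1 : ℂ)) ^ w * f τ := by
    have hg : (Matrix.SpecialLinearGroup.mapGL ℝ g : GL (Fin 2) ℝ) ∈ (𝒮ℒ : Subgroup _) :=
      ⟨g, rfl⟩
    have := SlashInvariantForm.slash_action_eqn' f hg τ
    rw [zpow_natCast] at this
    change f (Matrix.SpecialLinearGroup.mapGL ℝ g • τ) = _
    rw [this]
    simp
  have hc : ((g • τ : ℍ) : ℂ) = ((g 0 0 : ℂ) * τ + (g 0 1 : ℂ)) / ((g 1 0 : ℂ) * τ + (g 1 1 : ℂ)) := by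
    rw [UpperHalfPlane.coe_specialLinearGroup_apply]
    simp
  have hd : (g 1 0 : ℂ) * τ + (g 1 1 : ℂ) ≠ 0 := by
    have := UpperHalfPlane.denom_ne_zero (Matrix.SpecialLinearGroup.mapGL ℝ g) τ
    simpa [UpperHalfPlane.denom] using this
  have e1 : (g 1 0 : ℂ) * x + (g 1 1 : ℂ) * y = y * ((g 1 0 : ℂ) * τ + (g 1 1 : ℂ)) := by
    rw [hτc]; field_simp
  have e2 : (g 0 0 : ℂ) * x + (g 0 1 : ℂ) * y = y * ((g 0 0 : ℂ) * τ + (g 0 1 : ℂ)) := by
    rw [hτc]; field_simp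
  unfold lf
  rw [e1, e2, mul_div_mul_left _ _ hy, ← hc, ofComplex_apply, hs, ← hτc, ofComplex_apply, mul_pow,
    mul_inv]
  field_simp

/-- homogeneity -/
theorem lf_smul (f : CuspForm 𝒮ℒ (w : ℤ)) {t : ℂ} (ht : t ≠ 0) (x y : ℂ) :
    lf f (t * x) (t * y) = (t ^ w)⁻¹ * lf f x y := by
  unfold lf
  rw [mul_div_mul_left _ _ ht, mul_pow, mul_inv, mul_assoc]

theorem im_aux (X Y e : ℂ) :
    ((X + e * conj X) * conj (Y + e * conj Y)).im =
      (1 - Complex.normSq e) * (X * conj Y).im := by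
  simp only [map_add, map_mul, Complex.conj_conj, Complex.mul_im, Complex.mul_re, Complex.add_re,
    Complex.add_im, Complex.conj_re, Complex.conj_im, Complex.normSq_apply]
  ring

/-- the Taylor coefficients are invariant under `SL(2, ℤ)` -/
theorem lfr_sl (f : CuspForm 𝒮ℒ (w : ℤ)) (r : ℕ) (g : SL(2, ℤ)) {X Y : ℂ}
    (h : 0 < (X * conj Y).im) :
    lfr f r ((g 0 0 : ℂ) * X + (g 0 1 : ℂ) * Y) ((g 1 0 : ℂ) * X + (g 1 1 : ℂ) * Y) =
      lfr f r X Y := by
  unfold lfr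
  congr 1
  apply Filter.EventuallyEq.iteratedDeriv_eq
  have hb : Metric.ball (0 : ℂ) 1 ∈ nhds (0 : ℂ) := Metric.ball_mem_nhds _ one_pos
  filter_upwards [hb] with e he
  have he' : Complex.normSq e < 1 := by
    rw [mem_ball_zero_iff] at he
    rw [Complex.normSq_eq_norm_sq]
    nlinarith [norm_nonneg e]
  have hp : 0 < ((X + e * conj X) * conj (Y + e * conj Y)).im := by
    rw [im_aux]
    exact mul_pos (by linarith) h
  rw [← lf_sl f g hp]
  have c1 : ∀ n : ℤ, conj (n : ℂ) = n := fun n => by simp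
  congr 1 <;> simp only [map_add, map_mul, c1] <;> ring

theorem iteratedDeriv_scale (G : ℂ → ℂ) (c : ℂ) (n : ℕ) :
    iteratedDeriv n (fun e => G (c * e)) = fun e => c ^ n * iteratedDeriv n G (c * e) := by
  induction n with
  | zero => simp
  | succ n ih =>
    rw [iteratedDeriv_succ, ih]
    funext e
    rw [deriv_const_mul_field]
    have := deriv_comp_mul_left c (iteratedDeriv n G) e
    rw [this, iteratedDeriv_succ, smul_eq_mul]
    ring

/-- homogeneity of the Taylor coefficients -/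
theorem lfr_smul (f : CuspForm 𝒮ℒ (w : ℤ)) (r : ℕ) {t : ℂ} (ht : t ≠ 0) (X Y : ℂ) :
    lfr f r (t * X) (t * Y) = (t ^ w)⁻¹ * (conj t / t) ^ r * lfr f r X Y := by
  unfold lfr
  have e1 : (fun e : ℂ => lf f (t * X + e * conj (t * X)) (t * Y + e * conj (t * Y))) =
      fun e : ℂ => (t ^ w)⁻¹ *
        (fun e : ℂ => lf f (X + e * conj X) (Y + e * conj Y)) ((conj t / t) * e) := by
    funext e
    simp only
    rw [← lf_smul f ht]
    congr 1 <;> rw [map_mul] <;> field_simp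
  rw [e1, iteratedDeriv_const_mul_field]
  have := congrFun (iteratedDeriv_scale (fun e : ℂ => lf f (X + e * conj X) (Y + e * conj Y))
    (conj t / t) r) 0
  simp only [mul_zero] at this
  rw [this]
  ring

end PInvAux

section

variable {F : Type} [Field F] [NumberField F] {w : ℕ}

/-- the summand of the period -/
noncomputable def PInvAux.Ph (f : CuspForm 𝒮ℒ (w : ℤ)) (r : ℕ) (σ : F →+* ℂ)
    (ψ : Ideal (𝓞 F) →*₀ ℂ) (a : Ideal (𝓞 F)) (x y : 𝓞 F) : ℂ :=
  ψ a * ((Ideal.absNorm a : ℂ) ^ r)⁻¹ * lfr f r (σ x) (σ y)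

end

theorem stPInv (h : StBas) (h2 : StBase) : StPInv := by
  intro q F _ _ s σ χ cj w r f ψ hD hψ _
  obtain ⟨-, hcj2, -, -, hN, hNσ, hcc, -, -, -, -⟩ := h q F _ _ s σ χ cj hD
  obtain ⟨-, -, -, -, hg, hconj, hmul⟩ := h2 q F _ _ s σ χ cj hD
  -- the summand depends only on the ideal
  have key1 : ∀ (a : Ideal (𝓞 F)) (x y x' y' : 𝓞 F), OBasis σ a x y → OBasis σ a x' y' →
      PInvAux.Ph f r σ ψ a x y = PInvAux.Ph f r σ ψ a x' y' := by
    intro a x y x' y' hx hx'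
    obtain ⟨g, e1, e2⟩ := hg a x y x' y' hx hx'
    unfold PInvAux.Ph
    rw [e1, e2]
    have := PInvAux.lfr_sl f r g hx.pos
    rw [← this]
    simp
  -- homogeneity
  have key2 : ∀ (a : Ideal (𝓞 F)) (x y t : 𝓞 F), t ≠ 0 →
      PInvAux.Ph f r σ ψ (Ideal.span {t} * a) (t * x) (t * y) = PInvAux.Ph f r σ ψ a x y := by
    intro a x y t ht
    have ht' : σ (t : F) ≠ 0 := by
      rw [Ne, map_eq_zero]
      simpa using ht
    have hct : conj (σ (t : F)) ≠ 0 := by simpa using ht'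
    unfold PInvAux.Ph
    rw [map_mul, map_mul, hψ t ht]
    have e1 : (Ideal.absNorm (Ideal.span {t}) : ℂ) = σ (t : F) * conj (σ (t : F)) := by
      rw [Complex.mul_conj, hNσ t, Complex.ofReal_natCast]
    have e2 : σ ((t * x : 𝓞 F) : F) = σ (t : F) * σ (x : F) := by simp
    have e3 : σ ((t * y : 𝓞 F) : F) = σ (t : F) * σ (y : F) := by simp
    rw [e2, e3, PInvAux.lfr_smul f r ht', Nat.cast_mul, e1]
    rw [div_pow, mul_pow, mul_pow, pow_add, pow_mul]
    field_simp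
    ring
  -- the summand depends only on the class
  have key3 : ∀ (a b : (Ideal (𝓞 F))⁰) (x y x' y' : 𝓞 F), OBasis σ (a : Ideal (𝓞 F)) x y →
      OBasis σ (b : Ideal (𝓞 F)) x' y' → ClassGroup.mk0 a = ClassGroup.mk0 b →
      PInvAux.Ph f r σ ψ a x y = PInvAux.Ph f r σ ψ b x' y' := by
    intro a b x y x' y' ha hb hab
    obtain ⟨t, u, ht, hu, e⟩ := (ClassGroup.mk0_eq_mk0_iff).1 hab
    rw [← key2 a x y t ht, ← key2 b x' y' u hu, e]
    exact key1 _ _ _ _ _ (e ▸ hmul _ _ _ t ha ht) (hmul _ _ _ u hb hu)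
  refine ⟨fun c c' => ?_, fun c => ?_⟩
  · unfold period
    refine Finset.sum_congr rfl fun A _ => ?_
    exact key3 _ _ _ _ _ _ (c.bas A) (c'.bas A) ((c.cls A).trans (c'.cls A).symm)
  · -- conjugate ideals
    have hne : ∀ A, (c.R A : Ideal (𝓞 F)) ≠ ⊥ := fun A => nonZeroDivisors.coe_ne_zero _
    have hNn : ∀ a : Ideal (𝓞 F), a ≠ ⊥ → Ideal.absNorm a ≠ 0 := fun a ha => by
      rwa [Ne, Ideal.absNorm_eq_zero_iff]
    have hcjn : ∀ n : ℕ, cj (n : 𝓞 F) = n := fun n => map_natCast cj n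
    have hspan : ∀ n : ℕ, Ideal.absNorm (Ideal.span {(n : 𝓞 F)}) = n * n := by
      intro n
      have := hN (n : 𝓞 F)
      rw [hcjn] at this
      exact_mod_cast this.symm
    have hNc : ∀ a : Ideal (𝓞 F), a ≠ ⊥ →
        Ideal.absNorm (a.map (cj : 𝓞 F →+* 𝓞 F)) = Ideal.absNorm a := by
      intro a ha
      have e := congrArg Ideal.absNorm (hcc a)
      rw [map_mul, hspan] at e
      exact Nat.eq_of_mul_eq_mul_left (Nat.pos_of_ne_zero (hNn a ha)) e
    have hψc : ∀ a : Ideal (𝓞 F), a ≠ ⊥ →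
        ψ a * ψ (a.map (cj : 𝓞 F →+* 𝓞 F)) = (Ideal.absNorm a : ℂ) ^ (w + 2 * r) := by
      intro a ha
      rw [← map_mul, hcc a, hψ _ (by exact_mod_cast hNn a ha)]
      simp
    have hne' : ∀ a : Ideal (𝓞 F), a ≠ ⊥ → a.map (cj : 𝓞 F →+* 𝓞 F) ≠ ⊥ := by
      intro a ha h0
      have := hNc a ha
      rw [h0] at this
      exact hNn a ha (by simpa using this.symm)
    have term : ∀ A : ClassGroup (𝓞 F), (ψ (c.R A : Ideal (𝓞 F)))⁻¹ *
        (Ideal.absNorm (c.R A : Ideal (𝓞 F)) : ℂ) ^ (w + r) *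
          lfr f r (-conj (σ (c.X A))) (conj (σ (c.Y A))) =
        PInvAux.Ph f r σ ψ (c.R A⁻¹) (c.X A⁻¹) (c.Y A⁻¹) := by
      intro A
      have hb : OBasis σ ((c.R A : Ideal (𝓞 F)).map (cj : 𝓞 F →+* 𝓞 F)) (-cj (c.X A))
        (cj (c.Y A)) := hconj _ _ _ (c.bas A)
      let b : (Ideal (𝓞 F))⁰ := ⟨_, mem_nonZeroDivisors_of_ne_zero (hne' _ (hne A))⟩
      have hcls : ClassGroup.mk0 b = ClassGroup.mk0 (c.R A⁻¹) := by
        rw [c.cls, eq_inv_iff_mul_eq_one, ← c.cls A, ← map_mul, ClassGroup.mk0_eq_one_iff]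
        rw [mul_comm]
        change ((c.R A : Ideal (𝓞 F)) * (c.R A : Ideal (𝓞 F)).map (cj : 𝓞 F →+* 𝓞 F)).IsPrincipal
        rw [hcc]
        exact ⟨⟨_, rfl⟩⟩
      rw [← key3 b _ _ _ _ _ hb (c.bas A⁻¹) hcls]
      unfold PInvAux.Ph
      have eb : (b : Ideal (𝓞 F)) = (c.R A : Ideal (𝓞 F)).map (cj : 𝓞 F →+* 𝓞 F) := rfl
      rw [eb, hNc _ (hne A)]
      have hn0 : (Ideal.absNorm (c.R A : Ideal (𝓞 F)) : ℂ) ≠ 0 := by
        exact_mod_cast hNn _ (hne A)
      have hm := hψc _ (hne A)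
      have hψ0 : ψ (c.R A : Ideal (𝓞 F)) ≠ 0 := by
        intro h0
        rw [h0, zero_mul] at hm
        exact pow_ne_zero _ hn0 hm.symm
      have e1 : σ ((-cj (c.X A) : 𝓞 F) : F) = -conj (σ (c.X A)) := by
        rw [← hD.conjσ]; simp
      have e2 : σ ((cj (c.Y A) : 𝓞 F) : F) = conj (σ (c.Y A)) := hD.conjσ _
      rw [e1, e2]
      congr 1
      rw [inv_mul_eq_iff_eq_mul₀ hψ0, ← mul_assoc, hm, ← div_eq_mul_inv,
        eq_div_iff (pow_ne_zero _ hn0), ← pow_add]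
      congr 1
      ring
    rw [Finset.sum_congr rfl fun A _ => term A]
    unfold period
    exact Fintype.sum_equiv (Equiv.inv _) _ _ fun A => rfl

end RZ

end Pool.Agent.Lib.MP_7c08ba_nt
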