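import Pool.Agent.Lib.MP_7c08ba_nt.RZ.StA

set_option autoImplicit false

/-!
(A6) integrals against Poincaré series
-/

namespace Pool.Agent.Lib.MP_7c08ba_nt

namespace RZ

namespace PetX

open MeasureTheory UpperHalfPlane Set Filter
open scoped MatrixGroups ComplexConjugate

theorem ee_add_int (z : ℂ) (n : ℤ) : ee (z + n) = ee z := by
  unfold ee
  rw [mul_add, Complex.exp_add]
  have h1 : Complex.exp (2 * Real.pi * Complex.I * n) = 1 := by
    rw [mul_comm]
    exact Complex.exp_int_mul_two_pi_mul_I n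
  rw [h1, mul_one]

theorem conj_ee (z : ℂ) : conj (ee z) = ee (-conj z) := by
  unfold ee
  rw [← Complex.exp_conj]
  congr 1
  simp only [map_mul, Complex.conj_I, Complex.conj_ofReal, map_ofNat]
  ring

theorem den_ne {c d : ℤ} {z : ℂ} (hz : z.im ≠ 0) (h : IsCoprime c d) :
    (c : ℂ) * z + d ≠ 0 := by
  intro h0
  have h1 := congrArg Complex.im h0
  simp only [Complex.add_im, Complex.mul_im, Complex.intCast_re, Complex.intCast_im, zero_mul,
    add_zero, Complex.zero_im] at h1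
  have hc : (c : ℝ) = 0 := by
    rcases mul_eq_zero.1 h1 with h2 | h2
    · exact h2
    · exact absurd h2 hz
  have hc' : c = 0 := by exact_mod_cast hc
  subst hc'
  have hd : d = 0 := by
    have : (d : ℂ) = 0 := by simpa using h0
    exact_mod_cast this
  subst hd
  obtain ⟨a, b, hab⟩ := h
  simp at hab

theorem bez {c d : ℤ} (h : IsCoprime c d) : c * Int.gcdA c d + d * Int.gcdB c d = 1 := by
  rw [← Int.gcd_eq_gcd_ab, Int.isCoprime_iff_gcd_eq_one.1 h]
  rfl

/-- two matrices with the same bottom row -/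
theorem ee_mob (m : ℕ) {a b c d : ℤ} {z : ℂ} (hz : z.im ≠ 0) (h : a * d - b * c = 1) :
    ee (m * (((a : ℂ) * z + b) / ((c : ℂ) * z + d))) = ee (m * mob (c, d) z) := by
  have hc : IsCoprime c d := ⟨-b, a, by linear_combination h⟩
  have hne := den_ne hz hc
  have hb := bez hc
  set A := Int.gcdA c d with hA
  set B := Int.gcdB c d with hB
  have h1 : a = B + (a * A + b * B) * c := by linear_combination (-a) * hb + B * h
  have h2 : b = -A + (a * A + b * B) * d := by linear_combination (-b) * hb - A * h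
  have h3 : ((a : ℂ) * z + b) / ((c : ℂ) * z + d) = mob (c, d) z + ((a * A + b * B : ℤ) : ℂ) := by
    unfold mob
    simp only
    rw [← hA, ← hB]
    rw [div_add' _ _ _ hne]
    congr 1
    have h1' : (a : ℂ) = B + ((a * A + b * B : ℤ) : ℂ) * c := by exact_mod_cast h1
    have h2' : (b : ℂ) = -A + ((a * A + b * B : ℤ) : ℂ) * d := by exact_mod_cast h2
    linear_combination z * h1' + h2'
  rw [h3, mul_add]
  have h4 : (m : ℂ) * ((a * A + b * B : ℤ) : ℂ) = (((m : ℤ) * (a * A + b * B) : ℤ) : ℂ) := by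
    push_cast
    ring
  rw [h4, ee_add_int]

/-- change of sign of the first member of a pair -/
def negE : Cop ≃ Cop where
  toFun v := ⟨(-v.1.1, v.1.2), v.2.neg_left⟩
  invFun v := ⟨(-v.1.1, v.1.2), v.2.neg_left⟩
  left_inv v := by
    apply Subtype.ext
    simp
  right_inv v := by
    apply Subtype.ext
    simp

theorem poinc_neg_conj (w m : ℕ) (z : ℂ) (hz : 0 < z.im) :
    poinc w m (-conj z) = (1 / 2) * ∑' v : Cop,
      conj ((((v.1.1 : ℂ) * z + v.1.2) ^ w)⁻¹ * ee (m * mob v.1 z)) := by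
  unfold poinc
  congr 1
  rw [← negE.tsum_eq]
  refine tsum_congr fun v => ?_
  obtain ⟨⟨c, d⟩, hv⟩ := v
  show ((((-c : ℤ) : ℂ) * (-conj z) + d) ^ w)⁻¹ * ee (m * mob (-c, d) (-conj z)) =
    conj ((((c : ℂ) * z + d) ^ w)⁻¹ * ee (m * mob (c, d) z))
  have hb := bez hv
  simp only at hb
  have h1 := ee_mob m (a := Int.gcdB c d) (b := Int.gcdA c d) (c := -c) (d := d) (z := -conj z)
    (by simpa using hz.ne') (by linear_combination hb)
  rw [← h1, map_mul, map_inv₀, map_pow, map_add, map_mul, map_intCast,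
    map_intCast, conj_ee]
  congr 2
  · congr 1
    push_cast
    ring
  · rw [map_mul, map_natCast]
    unfold mob
    simp only
    rw [map_div₀, map_sub, map_add, map_mul, map_mul, map_intCast,
      map_intCast, map_intCast, map_intCast, ← mul_neg, ← neg_div]
    congr 2
    · ring
    · push_cast
      ring

/-- the function to be unfolded -/
noncomputable def GG (w m : ℕ) (h : ℂ → ℂ) (z : ℂ) : ℂ :=
  h z * conj (ee (m * z)) * (z.im : ℂ) ^ w

theorem GG_mob {w m : ℕ} {h : ℂ → ℂ} (hW : Wt w h) (h4 : StPoiS) (v : Cop) (z : ℂ)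
    (hz : 0 < z.im) : GG w m h (mob v.1 z) =
      h z * (z.im : ℂ) ^ w * conj ((((v.1.1 : ℂ) * z + v.1.2) ^ w)⁻¹ * ee (m * mob v.1 z)) := by
  obtain ⟨⟨c, d⟩, hv⟩ := v
  simp only
  simp only at hv
  have hne := den_ne hz.ne' hv
  have hb := bez hv
  let g : SL(2, ℤ) := ⟨!![Int.gcdB c d, -Int.gcdA c d; c, d], by
    rw [Matrix.det_fin_two_of]
    linear_combination hb⟩
  have h1 : h (mob (c, d) z) = ((c : ℂ) * z + d) ^ w * h z := by
    have h2 := hW g z hz
    have e : (((g 0 0 : ℤ) : ℂ) * z + ((g 0 1 : ℤ) : ℂ)) / (((g 1 0 : ℤ) : ℂ) * z +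
        ((g 1 1 : ℤ) : ℂ)) = mob (c, d) z := by
      show (((Int.gcdB c d : ℤ) : ℂ) * z + ((-Int.gcdA c d : ℤ) : ℂ)) / ((c : ℂ) * z + d) =
        mob (c, d) z
      unfold mob
      push_cast
      rw [sub_eq_add_neg]
    rw [e] at h2
    exact h2
  have him := (h4.2 ⟨(c, d), hv⟩ z hz).2
  simp only at him
  unfold GG
  rw [h1, him]
  have hns : ((z.im / Complex.normSq ((c : ℂ) * z + d) : ℝ) : ℂ) =
      z.im / (((c : ℂ) * z + d) * conj ((c : ℂ) * z + d)) := by
    rw [Complex.mul_conj]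
    push_cast
    rfl
  rw [hns, map_mul, map_inv₀, map_pow, div_pow, mul_pow]
  have hne2 : conj ((c : ℂ) * z + d) ≠ 0 := (map_ne_zero _).2 hne
  field_simp

theorem sum_GG {w m : ℕ} {h : ℂ → ℂ} (hW : Wt w h) (h4 : StPoiS) (z : ℂ) (hz : 0 < z.im) :
    h z * poinc w m (-conj z) * (z.im : ℂ) ^ w = (1 / 2) * ∑' v : Cop, GG w m h (mob v.1 z) := by
  rw [poinc_neg_conj w m z hz]
  have h1 : ∑' v : Cop, GG w m h (mob v.1 z) = h z * (z.im : ℂ) ^ w *
      ∑' v : Cop, conj ((((v.1.1 : ℂ) * z + v.1.2) ^ w)⁻¹ * ee (m * mob v.1 z)) := by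
    rw [← tsum_mul_left]
    exact tsum_congr fun v => GG_mob hW h4 v z hz
  rw [h1]
  ring

theorem norm_conj_ee (m : ℕ) (z : ℂ) :
    ‖conj (ee (m * z))‖ = Real.exp (-(2 * Real.pi * m) * z.im) := by
  rw [RCLike.norm_conj]
  unfold ee
  rw [Complex.norm_exp]
  congr 1
  simp
  ring

end PetX

open MeasureTheory UpperHalfPlane Set Filter
open scoped MatrixGroups ComplexConjugate

/-- (A6) integrals against Poincaré series -/
theorem stPetU (h1 : StUnf) (h2 : StStrip) (_h3 : StFd) (h4 : StPoiS) : StPetU := by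
  intro w m h hw hev hm hcont hW hbd
  obtain ⟨C, hC⟩ := hbd
  have hGc : ContinuousOn (PetX.GG w m h) {z | 0 < z.im} := by
    have e1 : Continuous fun z : ℂ => conj (ee (m * z)) * (z.im : ℂ) ^ w := by
      unfold ee
      have := Complex.continuous_im
      have := Complex.continuous_conj
      fun_prop
    have e2 := hcont.mul e1.continuousOn
    refine e2.congr fun z _ => ?_
    unfold PetX.GG
    rw [mul_assoc]
    rfl
  have hGp : ∀ z : ℂ, 0 < z.im → PetX.GG w m h (z + 1) = PetX.GG w m h z := by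
    intro z hz
    have e1 : h (z + 1) = h z := by
      have e2 := hW ⟨!![1, 1; 0, 1], by rw [Matrix.det_fin_two_of]; norm_num⟩ z hz
      simpa using e2
    unfold PetX.GG
    rw [e1]
    have e3 : ee (m * (z + 1)) = ee (m * z) := by
      have := PetX.ee_add_int (m * z) (m : ℤ)
      rw [← this]
      congr 1
      push_cast
      ring
    rw [e3]
    simp
  set b : ℝ → ℝ := fun y => C * (y ^ ((w : ℝ) / 2) * Real.exp (-(2 * Real.pi * m) * y)) with hb
  have hm0 : (0 : ℝ) < m := by exact_mod_cast hm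
  have hGb : ∀ x y : ℝ, 0 < x → x ≤ 1 → 0 < y →
      ‖PetX.GG w m h (x + y * Complex.I)‖ ≤ b y := by
    intro x y _ _ hy
    have him : ((x : ℂ) + y * Complex.I).im = y := by simp
    have e1 := hC (x + y * Complex.I) (by rw [him]; exact hy)
    rw [him] at e1
    unfold PetX.GG
    rw [norm_mul, norm_mul, PetX.norm_conj_ee, him, norm_pow, Complex.norm_real,
      Real.norm_of_nonneg hy.le]
    have e2 : y ^ w = y ^ ((w : ℝ) / 2) * y ^ ((w : ℝ) / 2) := by
      rw [← Real.rpow_add hy, add_halves, Real.rpow_natCast]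
    rw [hb, e2]
    have e3 : 0 ≤ y ^ ((w : ℝ) / 2) * Real.exp (-(2 * Real.pi * m) * y) := by positivity
    calc ‖h (x + y * Complex.I)‖ * Real.exp (-(2 * Real.pi * m) * y) *
          (y ^ ((w : ℝ) / 2) * y ^ ((w : ℝ) / 2))
        = (‖h (x + y * Complex.I)‖ * y ^ ((w : ℝ) / 2)) *
          (y ^ ((w : ℝ) / 2) * Real.exp (-(2 * Real.pi * m) * y)) := by ring
      _ ≤ C * (y ^ ((w : ℝ) / 2) * Real.exp (-(2 * Real.pi * m) * y)) :=
        mul_le_mul_of_nonneg_right e1 e3
  have hbi : IntegrableOn (fun y : ℝ => b y / y ^ 2) (Ioi 0) := by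
    have hw4 : (4 : ℝ) ≤ w := by exact_mod_cast hw
    have e1 : IntegrableOn (fun y : ℝ => y ^ ((w : ℝ) / 2 - 2) *
        Real.exp (-(2 * Real.pi * m) * y ^ (1 : ℝ))) (Ioi 0) :=
      integrableOn_rpow_mul_exp_neg_mul_rpow (by linarith) one_pos (by positivity)
    refine IntegrableOn.congr_fun (e1.const_mul C) ?_ measurableSet_Ioi
    intro y hy
    have hy' : (0 : ℝ) < y := hy
    simp only [hb, Real.rpow_one]
    rw [Real.rpow_sub hy', Real.rpow_ofNat]
    ring
  obtain ⟨hstr, hint⟩ := h2 _ b hGc hGb hbi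
  obtain ⟨-, hfi, hfe⟩ := h1 _ hGc hGp hstr
  have hkey : ∀ z : ℍ, h z * poinc w m (-conj (z : ℂ)) * (z.im : ℂ) ^ w =
      (1 / 2) * ∑' v : Cop, PetX.GG w m h (mob v.1 z) := fun z =>
    PetX.sum_GG hW h4 z z.im_pos
  refine ⟨?_, ?_⟩
  · simp_rw [hkey]
    exact hfi.const_mul (1 / 2)
  · simp_rw [hkey]
    rw [integral_const_mul, hfe, hint]
    have e1 : (1 / 2 : ℂ) * (2 * ∫ y in Ioi (0 : ℝ),
        (∫ x in (0 : ℝ)..1, PetX.GG w m h (x + y * Complex.I)) / (y : ℂ) ^ 2) =
        ∫ y in Ioi (0 : ℝ),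
          (∫ x in (0 : ℝ)..1, PetX.GG w m h (x + y * Complex.I)) / (y : ℂ) ^ 2 := by ring
    rw [e1]
    refine setIntegral_congr_fun measurableSet_Ioi fun y hy => ?_
    have hy' : (0 : ℝ) < y := hy
    have hy0 : (y : ℂ) ≠ 0 := by exact_mod_cast hy'.ne'
    have e2 : ∀ x : ℝ, PetX.GG w m h (x + y * Complex.I) =
        h (x + y * Complex.I) * ee (-(m : ℂ) * (x - y * Complex.I)) * (y : ℂ) ^ w := by
      intro x
      have him : ((x : ℂ) + y * Complex.I).im = y := by simp
      unfold PetX.GG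
      rw [PetX.conj_ee, him]
      congr 3
      simp only [map_mul, map_add, map_natCast, Complex.conj_ofReal, Complex.conj_I]
      ring
    simp_rw [e2]
    rw [intervalIntegral.integral_mul_const, mul_div_assoc]
    congr 1
    obtain ⟨k, rfl⟩ : ∃ k, w = k + 2 := ⟨w - 2, by omega⟩
    rw [Nat.add_sub_cancel, pow_add, mul_div_assoc, div_self (pow_ne_zero 2 hy0), mul_one]

end RZ

end Pool.Agent.Lib.MP_7c08ba_nt
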