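import Mathlib
import Pool.Agent.Lib.MP_7c08ba_nt.RZ.StA

set_option autoImplicit false

/-!
(A5) Poincaré series are cusp forms.
-/

namespace Pool.Agent.Lib.MP_7c08ba_nt

namespace RZ

namespace Poi

open UpperHalfPlane Filter Topology EisensteinSeries
open scoped MatrixGroups ComplexConjugate ModularForm

/-! ### Elementary facts on the general term -/

/-- The general term. -/
noncomputable def tm (w m : ℕ) (v : Cop) (z : ℂ) : ℂ :=
  (((v.1.1 : ℂ) * z + v.1.2) ^ w)⁻¹ * ee (m * mob v.1 z)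

theorem bez (v : Cop) : v.1.1 * Int.gcdA v.1.1 v.1.2 + v.1.2 * Int.gcdB v.1.1 v.1.2 = 1 := by
  have h := Int.gcd_eq_gcd_ab v.1.1 v.1.2
  rw [Int.isCoprime_iff_gcd_eq_one.mp v.2] at h
  exact_mod_cast h.symm

theorem ne0 (v : Cop) : v.1.1 ≠ 0 ∨ v.1.2 ≠ 0 := by
  by_contra h
  push Not at h
  have := bez v
  rw [h.1, h.2] at this
  simp at this

theorem den_ne (v : Cop) (z : ℂ) (hz : 0 < z.im) : (v.1.1 : ℂ) * z + v.1.2 ≠ 0 := by
  intro h
  have him : ((v.1.1 : ℂ) * z + v.1.2).im = 0 := by rw [h]; simp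
  simp only [Complex.add_im, Complex.mul_im, Complex.intCast_re, Complex.intCast_im, zero_mul,
    add_zero] at him
  have h1 : (v.1.1 : ℝ) = 0 := by
    rcases mul_eq_zero.mp him with h | h
    · exact h
    · exact absurd h hz.ne'
  have h1' : v.1.1 = 0 := by exact_mod_cast h1
  rw [h1'] at h
  simp only [Int.cast_zero, zero_mul, zero_add] at h
  have h2' : v.1.2 = 0 := by exact_mod_cast h
  rcases ne0 v with h3 | h3
  · exact h3 h1'
  · exact h3 h2'

theorem im_mob (v : Cop) (z : ℂ) (hz : 0 < z.im) :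
    (mob v.1 z).im = z.im / Complex.normSq ((v.1.1 : ℂ) * z + v.1.2) := by
  have hb : (v.1.1 : ℝ) * Int.gcdA v.1.1 v.1.2 + v.1.2 * Int.gcdB v.1.1 v.1.2 = 1 := by
    exact_mod_cast bez v
  have hn : Complex.normSq ((v.1.1 : ℂ) * z + v.1.2) ≠ 0 := by
    rw [Ne, Complex.normSq_eq_zero]
    exact den_ne v z hz
  rw [mob, Complex.div_im]
  rw [← sub_div]
  congr 1
  simp only [Complex.add_im, Complex.mul_im, Complex.intCast_re, Complex.intCast_im, zero_mul,
    add_zero, Complex.sub_im, Complex.sub_re, Complex.mul_re, Complex.add_re, sub_zero]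
  linear_combination z.im * hb

theorem im_mob_pos (v : Cop) (z : ℂ) (hz : 0 < z.im) : 0 < (mob v.1 z).im := by
  rw [im_mob v z hz]
  exact div_pos hz (Complex.normSq_pos.mpr (den_ne v z hz))

theorem norm_ee (x : ℂ) : ‖ee x‖ = Real.exp (-(2 * Real.pi * x.im)) := by
  rw [ee, Complex.norm_exp]
  congr 1
  simp only [Complex.mul_re, Complex.re_ofNat, Complex.ofReal_re, Complex.im_ofNat,
    Complex.ofReal_im, mul_zero, sub_zero, Complex.I_re, Complex.mul_im, zero_mul, add_zero,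
    Complex.I_im, mul_one, zero_sub]

theorem ee_add_int (x : ℂ) (n : ℤ) : ee (x + n) = ee x := by
  rw [ee, ee, mul_add, Complex.exp_add]
  have : (2 * Real.pi * Complex.I * (n : ℂ)) = n * (2 * Real.pi * Complex.I) := by ring
  rw [this, Complex.exp_int_mul_two_pi_mul_I, mul_one]

theorem norm_ee_le (m : ℕ) (v : Cop) (z : ℂ) (hz : 0 < z.im) : ‖ee (m * mob v.1 z)‖ ≤ 1 := by
  rw [norm_ee, Real.exp_le_one_iff]
  have h := im_mob_pos v z hz
  have h2 : ((m : ℂ) * mob v.1 z).im = m * (mob v.1 z).im := by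
    simp [Complex.mul_im]
  rw [h2]
  have := Real.pi_pos
  have : 0 ≤ 2 * Real.pi * ((m : ℝ) * (mob v.1 z).im) := by positivity
  linarith

theorem norm_tm_le (w m : ℕ) (v : Cop) (z : ℂ) (hz : 0 < z.im) :
    ‖tm w m v z‖ ≤ (‖(v.1.1 : ℂ) * z + v.1.2‖ ^ w)⁻¹ := by
  rw [tm, norm_mul, norm_inv, norm_pow]
  exact mul_le_of_le_one_right (by positivity) (norm_ee_le m v z hz)

/-- The vector attached to a pair. -/
def vc (v : Cop) : Fin 2 → ℤ := ![v.1.1, v.1.2]

theorem vc_inj : Function.Injective vc := by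
  intro v v' h
  have h0 := congrFun h 0
  have h1 := congrFun h 1
  simp only [vc, Matrix.cons_val_zero, Matrix.cons_val_one] at h0 h1
  exact Subtype.ext (Prod.ext h0 h1)

/-- The dominating series. -/
noncomputable def dom (w : ℕ) (A B : ℝ) (hB : 0 < B) (v : Cop) : ℝ :=
  r ⟨⟨A, B⟩, hB⟩ ^ (-(w : ℝ)) * ‖vc v‖ ^ (-(w : ℝ))

theorem dom_summable (w : ℕ) (hw : 3 ≤ w) (A B : ℝ) (hB : 0 < B) :
    Summable (dom w A B hB) := by
  have h2 : (2 : ℝ) < w := by exact_mod_cast (by omega : 2 < w)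
  have := (summable_one_div_norm_rpow h2).comp_injective vc_inj
  exact this.mul_left _

theorem tm_le_dom (w m : ℕ) (A B : ℝ) (hB : 0 < B) (v : Cop) (z : ℂ) (hA : |z.re| ≤ A)
    (hB' : B ≤ z.im) : ‖tm w m v z‖ ≤ dom w A B hB v := by
  have hz : 0 < z.im := lt_of_lt_of_le hB hB'
  refine (norm_tm_le w m v z hz).trans ?_
  have h := summand_bound_of_mem_verticalStrip (z := ⟨z, hz⟩) (k := (w : ℝ)) (Nat.cast_nonneg w)
    (vc v) hB ⟨hA, hB'⟩
  rw [dom]
  refine le_trans (le_of_eq ?_) h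
  rw [Real.rpow_neg (norm_nonneg _), Real.rpow_natCast]
  rfl

theorem tm_summable (w m : ℕ) (hw : 3 ≤ w) (z : ℂ) (hz : 0 < z.im) :
    Summable fun v : Cop => tm w m v z :=
  Summable.of_norm_bounded (dom_summable w hw |z.re| z.im hz)
    fun v => tm_le_dom w m _ _ hz v z le_rfl le_rfl

theorem poinc_eq (w m : ℕ) (z : ℂ) : poinc w m z = (1 / 2) * ∑' v : Cop, tm w m v z := rfl

/-! ### Holomorphy -/

theorem tm_diff (w m : ℕ) (v : Cop) : DifferentiableOn ℂ (tm w m v) {z : ℂ | 0 < z.im} := by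
  intro z hz
  have hne := den_ne v z hz
  have h1 : DifferentiableAt ℂ (fun z : ℂ => (v.1.1 : ℂ) * z + v.1.2) z := by fun_prop
  have h2 : DifferentiableAt ℂ (fun z : ℂ => (((v.1.1 : ℂ) * z + v.1.2) ^ w)⁻¹) z :=
    (h1.pow w).inv (pow_ne_zero w hne)
  have h3 : DifferentiableAt ℂ (fun z : ℂ => mob v.1 z) z := by
    unfold mob
    exact (by fun_prop : DifferentiableAt ℂ (fun z : ℂ => (Int.gcdB v.1.1 v.1.2 : ℂ) * z -
      Int.gcdA v.1.1 v.1.2) z).div h1 hne
  have h4 : DifferentiableAt ℂ (fun z : ℂ => ee (m * mob v.1 z)) z := by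
    unfold ee
    exact ((h3.const_mul _).const_mul _).cexp
  exact (h2.mul h4).differentiableWithinAt

theorem poinc_diff (w m : ℕ) (hw : 3 ≤ w) : DifferentiableOn ℂ (poinc w m) {z : ℂ | 0 < z.im} := by
  intro z hz
  have hz' : 0 < z.im := hz
  set U : Set ℂ := {u : ℂ | |u.re| < |z.re| + 1 ∧ z.im / 2 < u.im} with hU
  have hUo : IsOpen U := by
    have h1 : IsOpen {u : ℂ | |u.re| < |z.re| + 1} :=
      isOpen_lt (continuous_abs.comp Complex.continuous_re) continuous_const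
    have h2 : IsOpen {u : ℂ | z.im / 2 < u.im} :=
      isOpen_lt continuous_const Complex.continuous_im
    exact h1.inter h2
  have hzU : z ∈ U := ⟨by linarith, by linarith⟩
  have hsub : U ⊆ {z : ℂ | 0 < z.im} := fun u hu => by
    have := hu.2
    show 0 < u.im
    linarith
  have hB : 0 < z.im / 2 := by linarith
  have := Complex.differentiableOn_tsum_of_summable_norm (F := fun v => tm w m v) (U := U)
    (dom_summable w hw (|z.re| + 1) (z.im / 2) hB)
    (fun v => (tm_diff w m v).mono hsub) hUo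
    (fun v u hu => tm_le_dom w m _ _ hB v u hu.1.le hu.2.le)
  have h2 : DifferentiableAt ℂ (fun u => ∑' v : Cop, tm w m v u) z :=
    (this z hzU).differentiableAt (hUo.mem_nhds hzU)
  exact (h2.const_mul (1 / 2)).differentiableWithinAt

/-! ### Invariance -/

/-- The action on pairs. -/
def av (g : SL(2, ℤ)) (p : ℤ × ℤ) : ℤ × ℤ :=
  (p.1 * g 0 0 + p.2 * g 1 0, p.1 * g 0 1 + p.2 * g 1 1)

theorem det_eq (g : SL(2, ℤ)) : g 0 0 * g 1 1 - g 0 1 * g 1 0 = 1 := by
  have := g.2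
  rw [Matrix.det_fin_two] at this
  exact this

theorem av_cop (g : SL(2, ℤ)) (v : Cop) : IsCoprime (av g v.1).1 (av g v.1).2 := by
  have hb := bez v
  have hd := det_eq g
  refine ⟨g 1 1 * Int.gcdA v.1.1 v.1.2 - g 0 1 * Int.gcdB v.1.1 v.1.2,
    g 0 0 * Int.gcdB v.1.1 v.1.2 - g 1 0 * Int.gcdA v.1.1 v.1.2, ?_⟩
  simp only [av]
  linear_combination (g 0 0 * g 1 1 - g 0 1 * g 1 0) * hb + hd

/-- The action on coprime pairs. -/
def ac (g : SL(2, ℤ)) : Cop ≃ Cop where
  toFun v := ⟨av g v.1, av_cop g v⟩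
  invFun v := ⟨av g⁻¹ v.1, av_cop g⁻¹ v⟩
  left_inv v := by
    have hd := det_eq g
    apply Subtype.ext
    apply Prod.ext
    · simp only [av, Matrix.SpecialLinearGroup.SL2_inv_expl g]
      simp
      linear_combination v.1.1 * hd
    · simp only [av, Matrix.SpecialLinearGroup.SL2_inv_expl g]
      simp
      linear_combination v.1.2 * hd
  right_inv v := by
    have hd := det_eq g
    apply Subtype.ext
    apply Prod.ext
    · simp only [av, Matrix.SpecialLinearGroup.SL2_inv_expl g]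
      simp
      linear_combination v.1.1 * hd
    · simp only [av, Matrix.SpecialLinearGroup.SL2_inv_expl g]
      simp
      linear_combination v.1.2 * hd

/-- Two matrices with the same bottom row. -/
theorem ee_same (m : ℕ) (a b a' b' c d : ℤ) (z : ℂ) (hne : (c : ℂ) * z + d ≠ 0)
    (h : a * d - b * c = 1) (h' : a' * d - b' * c = 1) :
    ee (m * (((a : ℂ) * z + b) / (c * z + d))) = ee (m * (((a' : ℂ) * z + b') / (c * z + d))) := by
  have h1 : (a : ℂ) * d - b * c = 1 := by exact_mod_cast h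
  have h2 : (a' : ℂ) * d - b' * c = 1 := by exact_mod_cast h'
  have key : ((a : ℂ) * z + b) / (c * z + d) =
      ((a' : ℂ) * z + b') / (c * z + d) + ((b * a' - a * b' : ℤ) : ℂ) := by
    rw [div_add' _ _ _ hne]
    congr 1
    push_cast
    linear_combination (a' * z + b') * h1 - (a * z + b) * h2
  rw [key, mul_add]
  have : (m : ℂ) * ((b * a' - a * b' : ℤ) : ℂ) = ((m * (b * a' - a * b') : ℤ) : ℂ) := by
    push_cast; ring
  rw [this, ee_add_int]

theorem alg1 (p q a b c d z : ℂ) (h : c * z + d ≠ 0) :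
    p * ((a * z + b) / (c * z + d)) + q = ((p * a + q * c) * z + (p * b + q * d)) / (c * z + d) := by
  rw [eq_div_iff h, add_mul, mul_assoc, div_mul_cancel₀ _ h]
  ring

theorem alg2 (A B X a b c d z : ℂ) (h : c * z + d ≠ 0) :
    (B * ((a * z + b) / (c * z + d)) - A) / (X / (c * z + d)) =
      ((B * a - A * c) * z + (B * b - A * d)) / X := by
  rw [div_div_eq_mul_div, sub_mul, mul_assoc, div_mul_cancel₀ _ h]
  congr 1
  ring

theorem tm_act (w m : ℕ) (g : SL(2, ℤ)) (v : Cop) (z : ℂ) (hz : 0 < z.im)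
    (hd : (g 1 0 : ℂ) * z + g 1 1 ≠ 0) :
    tm w m v (((g 0 0 : ℂ) * z + g 0 1) / ((g 1 0 : ℂ) * z + g 1 1)) =
      ((g 1 0 : ℂ) * z + g 1 1) ^ w * tm w m (ac g v) z := by
  have hv := den_ne (ac g v) z hz
  have hbz := bez (ac g v)
  have hbv := bez v
  have hdt := det_eq g
  have e1 : (v.1.1 : ℂ) * (((g 0 0 : ℂ) * z + g 0 1) / ((g 1 0 : ℂ) * z + g 1 1)) + v.1.2 =
      (((ac g v).1.1 : ℂ) * z + (ac g v).1.2) / ((g 1 0 : ℂ) * z + g 1 1) := by
    have e0 : (ac g v).1 = av g v.1 := rfl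
    rw [e0, av]
    push_cast
    exact alg1 _ _ _ _ _ _ z hd
  have e2 : mob v.1 (((g 0 0 : ℂ) * z + g 0 1) / ((g 1 0 : ℂ) * z + g 1 1)) =
      (((Int.gcdB v.1.1 v.1.2 * g 0 0 - Int.gcdA v.1.1 v.1.2 * g 1 0 : ℤ) : ℂ) * z +
        ((Int.gcdB v.1.1 v.1.2 * g 0 1 - Int.gcdA v.1.1 v.1.2 * g 1 1 : ℤ) : ℂ)) /
        (((ac g v).1.1 : ℂ) * z + (ac g v).1.2) := by
    rw [mob, e1]
    push_cast
    exact alg2 _ _ _ _ _ _ _ z hd
  have e3 : mob (ac g v).1 z =
      (((Int.gcdB (ac g v).1.1 (ac g v).1.2 : ℤ) : ℂ) * z +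
        ((- Int.gcdA (ac g v).1.1 (ac g v).1.2 : ℤ) : ℂ)) /
        (((ac g v).1.1 : ℂ) * z + (ac g v).1.2) := by
    rw [mob]
    push_cast
    ring
  rw [tm, tm, e1, e2, e3]
  rw [ee_same m _ _ (Int.gcdB (ac g v).1.1 (ac g v).1.2) (- Int.gcdA (ac g v).1.1 (ac g v).1.2)
    _ _ z hv]
  · rw [div_pow, inv_div, div_eq_mul_inv]
    ring
  · have e0 : (ac g v).1 = av g v.1 := rfl
    rw [e0, av]
    linear_combination (g 0 0 * g 1 1 - g 0 1 * g 1 0) * hbv + hdt
  · linear_combination hbz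

theorem poinc_act (w m : ℕ) (g : SL(2, ℤ)) (z : ℂ) (hz : 0 < z.im)
    (hd : (g 1 0 : ℂ) * z + g 1 1 ≠ 0) :
    poinc w m (((g 0 0 : ℂ) * z + g 0 1) / ((g 1 0 : ℂ) * z + g 1 1)) =
      ((g 1 0 : ℂ) * z + g 1 1) ^ w * poinc w m z := by
  rw [poinc_eq, poinc_eq]
  simp_rw [tm_act w m g _ z hz hd]
  rw [tsum_mul_left, Equiv.tsum_eq (ac g) (fun v => tm w m v z)]
  ring

/-- The Poincaré series on the upper half plane. -/
noncomputable def PP (w m : ℕ) : ℍ → ℂ := fun z => poinc w m z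

theorem PP_slash (w m : ℕ) (g : SL(2, ℤ)) : ((PP w m) ∣[(w : ℤ)] g) = PP w m := by
  ext z
  rw [ModularForm.SL_slash_apply]
  have hd : (g 1 0 : ℂ) * z + g 1 1 ≠ 0 := by
    have := UpperHalfPlane.denom_ne_zero g z
    simpa [UpperHalfPlane.denom] using this
  have h := poinc_act w m g z z.im_pos hd
  have hden : UpperHalfPlane.denom g z = (g 1 0 : ℂ) * z + g 1 1 := by
    simp [UpperHalfPlane.denom]
  have hco : ((g • z : ℍ) : ℂ) = (((g 0 0 : ℂ) * z + g 0 1) / ((g 1 0 : ℂ) * z + g 1 1)) := by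
    rw [UpperHalfPlane.specialLinearGroup_apply]
    simp
  rw [PP, hco, h, hden, zpow_neg, zpow_natCast, PP, mul_comm, ← mul_assoc,
    inv_mul_cancel₀ (pow_ne_zero w hd), one_mul]

/-! ### Behaviour at infinity -/

theorem abs_im_le (v : Cop) (z : ℂ) (hz : 0 < z.im) (hc : v.1.1 ≠ 0) :
    z.im ≤ ‖(v.1.1 : ℂ) * z + v.1.2‖ := by
  have h1 : |((v.1.1 : ℂ) * z + v.1.2).im| ≤ ‖(v.1.1 : ℂ) * z + v.1.2‖ := Complex.abs_im_le_norm _
  have h2 : ((v.1.1 : ℂ) * z + v.1.2).im = v.1.1 * z.im := by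
    simp [Complex.mul_im]
  rw [h2, abs_mul, abs_of_pos hz] at h1
  have h3 : (1 : ℝ) ≤ |(v.1.1 : ℝ)| := by
    exact_mod_cast Int.one_le_abs hc
  nlinarith

theorem tm_tendsto (w m : ℕ) (hw : 3 ≤ w) (hm : 1 ≤ m) (v : Cop) :
    Tendsto (fun z : ℍ => tm w m v z) atImInfty (𝓝 0) := by
  rw [tendsto_zero_iff_norm_tendsto_zero]
  have him : Tendsto (fun z : ℍ => z.im) atImInfty atTop := tendsto_comap
  by_cases hc : v.1.1 = 0
  · -- the terms with `c = 0`
    have hd : (v.1.2 : ℂ) * v.1.2 = 1 := by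
      have h := v.2
      rw [hc, isCoprime_zero_left, Int.isUnit_iff] at h
      rcases h with h | h <;> rw [h] <;> norm_num
    have hlim : Tendsto (fun z : ℍ => Real.exp (-(2 * Real.pi * m * z.im))) atImInfty (𝓝 0) := by
      apply Real.tendsto_exp_atBot.comp
      apply tendsto_neg_atTop_atBot.comp
      have hpos : (0 : ℝ) < 2 * Real.pi * m := by
        have : (0 : ℝ) < m := by exact_mod_cast (by omega : 0 < m)
        have := Real.pi_pos
        positivity
      exact him.const_mul_atTop hpos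
    refine squeeze_zero (fun z => norm_nonneg _) (fun z => ?_) hlim
    have hn : Complex.normSq ((v.1.1 : ℂ) * z + v.1.2) = 1 := by
      rw [hc]
      simp only [Int.cast_zero, zero_mul, zero_add]
      rw [← Complex.ofReal_inj, Complex.normSq_eq_conj_mul_self]
      simp only [map_intCast, hd, Complex.ofReal_one]
    have hn2 : ‖((v.1.1 : ℂ) * z + v.1.2)‖ = 1 := by
      have h := Complex.normSq_eq_norm_sq ((v.1.1 : ℂ) * z + v.1.2)
      rw [hn] at h
      have := norm_nonneg ((v.1.1 : ℂ) * z + v.1.2)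
      nlinarith
    rw [tm, norm_mul, norm_inv, norm_pow, hn2, one_pow, inv_one, one_mul, norm_ee]
    have h2 : ((m : ℂ) * mob v.1 z).im = m * (mob v.1 z).im := by
      simp [Complex.mul_im]
    rw [h2, im_mob v z z.im_pos, hn, div_one]
    apply le_of_eq
    congr 1
    have : (z : ℂ).im = z.im := rfl
    rw [this]
    ring
  · -- the terms with `c ≠ 0`
    have hlim : Tendsto (fun z : ℍ => (z.im ^ w)⁻¹) atImInfty (𝓝 0) := by
      apply Tendsto.inv_tendsto_atTop
      exact (tendsto_pow_atTop (by omega)).comp him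
    refine squeeze_zero (fun z => norm_nonneg _) (fun z => ?_) hlim
    refine (norm_tm_le w m v z z.im_pos).trans ?_
    have h := abs_im_le v z z.im_pos hc
    have hp : 0 < (z : ℂ).im := z.im_pos
    have : (z : ℂ).im = z.im := rfl
    rw [← this]
    gcongr

theorem poinc_tendsto (w m : ℕ) (hw : 3 ≤ w) (hm : 1 ≤ m) :
    Tendsto (fun z : ℍ => poinc w m z) (atImInfty ⊓ 𝓟 {z : ℍ | |z.re| ≤ 1}) (𝓝 0) := by
  have h1 : Tendsto (fun z : ℍ => ∑' v : Cop, tm w m v z)
      (atImInfty ⊓ 𝓟 {z : ℍ | |z.re| ≤ 1}) (𝓝 (∑' _ : Cop, (0 : ℂ))) := by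
    refine tendsto_tsum_of_dominated_convergence (dom_summable w hw 1 1 one_pos) ?_ ?_
    · intro v
      exact (tm_tendsto w m hw hm v).mono_left inf_le_left
    · rw [eventually_inf_principal]
      have : ∀ᶠ z : ℍ in atImInfty, 1 ≤ z.im := by
        rw [Filter.Eventually, atImInfty_mem]
        exact ⟨1, fun z hz => hz⟩
      filter_upwards [this] with z hz hz2 v
      exact tm_le_dom w m 1 1 one_pos v z hz2 hz
  rw [tsum_zero] at h1
  have h2 := h1.const_mul (1 / 2 : ℂ)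
  rw [mul_zero] at h2
  exact h2

theorem PP_T (w m : ℕ) (n : ℤ) (z z' : ℍ) (h : (z' : ℂ) = z + n) : PP w m z' = PP w m z := by
  have h1 : (0 : ℂ) * z + 1 ≠ 0 := by simp
  have h2 := poinc_act w m ⟨!![1, n; 0, 1], by simp [Matrix.det_fin_two]⟩ z z.im_pos
    (by simp)
  simp at h2
  rw [PP, PP, h, h2]

theorem PP_zero (w m : ℕ) (hw : 3 ≤ w) (hm : 1 ≤ m) : IsZeroAtImInfty (PP w m) := by
  rw [isZeroAtImInfty_iff]
  intro ε hε
  have h := poinc_tendsto w m hw hm
  rw [Metric.tendsto_nhds] at h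
  have h2 := h ε hε
  rw [eventually_inf_principal, Filter.Eventually, atImInfty_mem] at h2
  obtain ⟨Y, hY⟩ := h2
  refine ⟨Y, fun z hz => ?_⟩
  have him : 0 < ((z : ℂ) + ((-⌊z.re⌋ : ℤ) : ℂ)).im := by
    have : ((z : ℂ) + ((-⌊z.re⌋ : ℤ) : ℂ)).im = z.im := by
      rw [Complex.add_im, Complex.intCast_im, add_zero]; rfl
    rw [this]
    exact z.im_pos
  set z' : ℍ := ⟨(z : ℂ) + ((-⌊z.re⌋ : ℤ) : ℂ), him⟩ with hz'
  have e1 : PP w m z' = PP w m z := PP_T w m (-⌊z.re⌋) z z' rfl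
  have e2 : z'.im = z.im := by
    show ((z : ℂ) + ((-⌊z.re⌋ : ℤ) : ℂ)).im = z.im
    rw [Complex.add_im, Complex.intCast_im, add_zero]; rfl
  have e3 : |z'.re| ≤ 1 := by
    have : z'.re = z.re - ⌊z.re⌋ := by
      show ((z : ℂ) + ((-⌊z.re⌋ : ℤ) : ℂ)).re = z.re - ⌊z.re⌋
      rw [Complex.add_re, Complex.intCast_re]
      push_cast
      rfl
    rw [this, abs_le]
    have h1 := Int.floor_le z.re
    have h2 := Int.lt_floor_add_one z.re
    constructor <;> linarith
  have h3 := hY z' (by rw [e2]; exact hz)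
  have h4 := h3 e3
  rw [dist_zero_right] at h4
  rw [← e1]
  exact h4.le

end Poi

open UpperHalfPlane Manifold
open scoped MatrixGroups ModularForm

/-- (A5) Poincaré series are cusp forms. -/
theorem stPoi : StPoi := by
  intro w m hw _ hm
  refine ⟨{ toFun := Poi.PP w m
            slash_action_eq' := ?_
            holo' := ?_
            zero_at_cusps' := ?_ }, fun z => rfl⟩
  · rintro γ ⟨g, rfl⟩
    exact Poi.PP_slash w m g
  · intro τ
    have hd : DifferentiableAt ℂ (poinc w m) τ :=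
      (Poi.poinc_diff w m hw).differentiableAt (isOpen_upperHalfPlaneSet.mem_nhds τ.2)
    exact MDifferentiableAt.comp (g := poinc w m) (f := UpperHalfPlane.coe) τ
      hd.mdifferentiableAt τ.mdifferentiable_coe
  · intro c hc
    rw [Subgroup.IsArithmetic.isCusp_iff_isCusp_SL2Z] at hc
    rw [OnePoint.isZeroAt_iff_forall_SL2Z hc]
    intro γ _
    rw [Poi.PP_slash w m γ]
    exact Poi.PP_zero w m hw hm

end RZ

end Pool.Agent.Lib.MP_7c08ba_nt
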