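import Mathlib
import Pool.Agent.Lib.MP_7c08ba_nt.RZ.StA

set_option autoImplicit false

/-!
(A4) summability of the terms of Poincaré series, imaginary parts.
-/

namespace Pool.Agent.Lib.MP_7c08ba_nt

namespace RZ

open NumberField MeasureTheory UpperHalfPlane Set
open scoped MatrixGroups ComplexConjugate nonZeroDivisors

namespace PoiSAux

lemma cz_ne {c d : ℤ} (h : IsCoprime c d) {z : ℂ} (hz : 0 < z.im) : (c : ℂ) * z + d ≠ 0 := by
  intro h0
  have h1 := congrArg Complex.im h0
  simp only [Complex.add_im, Complex.mul_im, Complex.intCast_re, Complex.intCast_im, zero_mul,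
    add_zero, Complex.zero_im, mul_eq_zero, Int.cast_eq_zero] at h1
  rcases h1 with h1 | h1
  · subst h1
    rw [Int.cast_zero, zero_mul, zero_add, Int.cast_eq_zero] at h0
    subst h0
    exact not_isCoprime_zero_zero h
  · exact hz.ne' h1

lemma im_mob {c d : ℤ} (h : IsCoprime c d) {z : ℂ} (hz : 0 < z.im) :
    (mob (c, d) z).im = z.im / Complex.normSq ((c : ℂ) * z + d) := by
  have h0 := cz_ne h hz
  have h1 : (c : ℤ) * Int.gcdA c d + d * Int.gcdB c d = 1 := by
    have := Int.gcd_eq_gcd_ab c d
    rw [Int.isCoprime_iff_gcd_eq_one.mp h] at this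
    exact_mod_cast this.symm
  have h2 : (c : ℝ) * Int.gcdA c d + d * Int.gcdB c d = 1 := by exact_mod_cast h1
  have hn : Complex.normSq ((c : ℂ) * z + d) ≠ 0 := by
    rwa [Ne, Complex.normSq_eq_zero]
  unfold mob
  rw [Complex.div_im]
  simp only [Complex.sub_im, Complex.mul_im, Complex.intCast_re, Complex.intCast_im, zero_mul,
    add_zero, Complex.add_re, Complex.mul_re, sub_zero, Complex.add_im, Complex.sub_re]
  field_simp
  linear_combination h2

end PoiSAux

open PoiSAux in
/-- Module A4. -/
theorem stPoiS : StPoiS := by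
  refine ⟨?_, ?_⟩
  · intro w z hw hz
    have h1 := EisensteinSeries.summable_norm_eisSummand (k := (w : ℤ)) (by exact_mod_cast hw)
      (⟨z, hz⟩ : ℍ)
    have hinj : Function.Injective (fun v : Cop => (![v.1.1, v.1.2] : Fin 2 → ℤ)) := by
      intro a b hab
      have e0 := congrFun hab 0
      have e1 := congrFun hab 1
      simp only [Matrix.cons_val_zero, Matrix.cons_val_one] at e0 e1
      exact Subtype.ext (Prod.ext e0 e1)
    have h2 := h1.comp_injective hinj
    refine h2.congr ?_
    intro v
    simp only [Function.comp, EisensteinSeries.eisSummand, Matrix.cons_val_zero,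
      Matrix.cons_val_one, zpow_neg, zpow_natCast]
  · intro v z hz
    have h1 := im_mob v.2 hz
    have h2 := cz_ne v.2 hz
    refine ⟨?_, h1⟩
    rw [show (mob v.1 z).im = (mob (v.1.1, v.1.2) z).im from rfl, h1]
    exact div_pos hz (Complex.normSq_pos.mpr h2)

end RZ

end Pool.Agent.Lib.MP_7c08ba_nt
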