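import Mathlib
import Pool.Agent.Lib.MP_7c08ba_nt.RZ.StA

set_option autoImplicit false

/-!
Poisson summation for a plane lattice and a Gaussian times an exponential (A14).
-/

namespace Pool.Agent.Lib.MP_7c08ba_nt

namespace RZ

open scoped ComplexConjugate

namespace PoissonAux

open Complex Real

/-- The product of the two square roots. -/
lemma sqrt_mul {a c V : ℝ} (ha : 0 < a) (hc : 0 < c) (hV : 0 < V) (h : a * c = V ^ 2) {w : ℂ}
    (hw : w ≠ 0) : ((a : ℂ) * w) ^ (1 / 2 : ℂ) * ((c : ℂ) * w) ^ (1 / 2 : ℂ) = V * w := by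
  have ha' : (a : ℂ) ≠ 0 := by exact_mod_cast ha.ne'
  have hc' : (c : ℂ) ≠ 0 := by exact_mod_cast hc.ne'
  rw [cpow_def_of_ne_zero (mul_ne_zero ha' hw), cpow_def_of_ne_zero (mul_ne_zero hc' hw),
    log_ofReal_mul ha hw, log_ofReal_mul hc hw, ← Complex.exp_add]
  have h1 : Real.log a + Real.log c = 2 * Real.log V := by
    rw [← Real.log_mul ha.ne' hc.ne', h, Real.log_pow]
    push_cast
    ring
  have h2 : ((Real.log a : ℂ) + Complex.log w) * (1 / 2) + ((Real.log c : ℂ) + Complex.log w) *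
      (1 / 2) = (Real.log V : ℂ) + Complex.log w := by
    have h3 : (Real.log a : ℂ) + (Real.log c : ℂ) = 2 * (Real.log V : ℂ) := by exact_mod_cast h1
    linear_combination (1 / 2 : ℂ) * h3
  rw [h2, Complex.exp_add, Complex.exp_log hw, ← Complex.ofReal_exp, Real.exp_log hV]

/-- The general term. -/
noncomputable def F (u : ℂ) (a R b : ℝ) (p q : ℂ) (x : ℤ × ℤ) : ℂ :=
  cexp (π * I * u * (a * x.1 ^ 2 + 2 * R * x.1 * x.2 + b * x.2 ^ 2) +
    2 * π * I * (p * x.1 + q * x.2))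

/-- The term after the first transformation (without a constant factor). -/
noncomputable def G (u : ℂ) (a R b : ℝ) (p q : ℂ) (x : ℤ × ℤ) : ℂ :=
  cexp (-π * I * (p + u * R * x.2 - x.1) ^ 2 / (u * a) + π * I * u * b * x.2 ^ 2 +
    2 * π * I * q * x.2)

/-- The term after both transformations (without a constant factor). -/
noncomputable def H (u : ℂ) (a R b V : ℝ) (p q : ℂ) (x : ℤ × ℤ) : ℂ :=
  cexp (-π * I / (u * V ^ 2) * (b * (p - x.1) ^ 2 - 2 * R * (p - x.1) * (q - x.2) +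
    a * (q - x.2) ^ 2))

lemma norm_F (u : ℂ) (a R b : ℝ) (p q : ℂ) (x : ℤ × ℤ) : ‖F u a R b p q x‖ =
    rexp (-π * u.im * (a * x.1 ^ 2 + 2 * R * x.1 * x.2 + b * x.2 ^ 2) - 2 * π * x.1 * p.im -
      2 * π * x.2 * q.im) := by
  rw [F, Complex.norm_exp]
  congr 1
  have h : (π : ℂ) * I * u * (a * x.1 ^ 2 + 2 * R * x.1 * x.2 + b * x.2 ^ 2) +
      2 * π * I * (p * x.1 + q * x.2) =
      ((π * (a * x.1 ^ 2 + 2 * R * x.1 * x.2 + b * x.2 ^ 2) : ℝ) : ℂ) * u * I +
        ((2 * π * x.1 : ℝ) : ℂ) * p * I + ((2 * π * x.2 : ℝ) : ℂ) * q * I := by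
    push_cast
    ring
  rw [h, add_re, add_re, mul_I_re, mul_I_re, mul_I_re, im_ofReal_mul, im_ofReal_mul,
    im_ofReal_mul]
  ring

lemma summable_F {u : ℂ} (hu : 0 < u.im) {a R b : ℝ} (ha : 0 < a) (hV : 0 < a * b - R ^ 2)
    (p q : ℂ) : Summable fun x => ‖F u a R b p q x‖ := by
  have hb : 0 < b := by
    by_contra hb
    push Not at hb
    nlinarith [mul_nonpos_of_nonneg_of_nonpos ha.le hb, sq_nonneg R]
  set ε : ℝ := (a * b - R ^ 2) / (a + b) with hε
  have hε0 : 0 < ε := div_pos hV (by positivity)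
  have hsum : Summable fun x : ℤ × ℤ => ‖jacobiTheta₂_term x.1 p ((ε * u.im : ℝ) * I)‖ *
      ‖jacobiTheta₂_term x.2 q ((ε * u.im : ℝ) * I)‖ := by
    have h1 : 0 < (((ε * u.im : ℝ) : ℂ) * I).im := by
      rw [mul_I_im, ofReal_re]
      positivity
    exact ((summable_jacobiTheta₂_term_iff p _).mpr h1).norm.mul_of_nonneg
      ((summable_jacobiTheta₂_term_iff q _).mpr h1).norm (fun _ => norm_nonneg _)
      (fun _ => norm_nonneg _)
  refine Summable.of_nonneg_of_le (fun _ => norm_nonneg _) (fun x => ?_) hsum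
  rw [norm_F, norm_jacobiTheta₂_term, norm_jacobiTheta₂_term, ← Real.exp_add]
  refine Real.exp_le_exp.mpr ?_
  rw [mul_I_im, ofReal_re]
  have hq : ε * ((x.1 : ℝ) ^ 2 + (x.2 : ℝ) ^ 2) ≤
      a * (x.1 : ℝ) ^ 2 + 2 * R * x.1 * x.2 + b * (x.2 : ℝ) ^ 2 := by
    rw [hε, div_mul_eq_mul_div, div_le_iff₀ (by positivity)]
    nlinarith [sq_nonneg (a * (x.1 : ℝ) + R * x.2), sq_nonneg (R * (x.1 : ℝ) + b * x.2)]
  nlinarith [mul_le_mul_of_nonneg_left hq (mul_pos Real.pi_pos hu).le]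

lemma summable_F' {u : ℂ} (hu : 0 < u.im) {a R b : ℝ} (ha : 0 < a) (hV : 0 < a * b - R ^ 2)
    (p q : ℂ) : Summable (F u a R b p q) := (summable_F hu ha hV p q).of_norm

lemma im_pos_aux {u : ℂ} (hu : 0 < u.im) {c : ℝ} (hc : 0 < c) : 0 < (-1 / (u * c)).im := by
  have hu0 : u ≠ 0 := by
    rintro rfl
    simp at hu
  have h1 : -1 / (u * c) = ((c⁻¹ : ℝ) : ℂ) * (-1 / u) := by
    have hc' : (c : ℂ) ≠ 0 := by exact_mod_cast hc.ne'
    push_cast
    field_simp
  rw [h1, im_ofReal_mul, neg_div, neg_im, one_div, inv_im, neg_div, neg_neg]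
  exact mul_pos (inv_pos.mpr hc) (div_pos hu (normSq_pos.mpr hu0))

lemma H_eq {u : ℂ} (hu : u ≠ 0) {a R b V : ℝ} (hV : 0 < V) (p q : ℂ) (x : ℤ × ℤ) :
    H u a R b V p q x = cexp (-π * I / (u * V ^ 2) * (b * p ^ 2 - 2 * R * p * q + a * q ^ 2)) *
      F (-1 / (u * (V ^ 2 : ℝ))) b (-R) a ((b * p - R * q) / (u * V ^ 2))
        ((a * q - R * p) / (u * V ^ 2)) x := by
  have hV' : (V : ℂ) ≠ 0 := by exact_mod_cast hV.ne'
  rw [H, F, ← Complex.exp_add]
  congr 1
  push_cast
  field_simp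
  ring

lemma summable_H {u : ℂ} (hu : 0 < u.im) {a R b V : ℝ} (ha : 0 < a) (hV : 0 < V)
    (h : a * b - R ^ 2 = V ^ 2) (p q : ℂ) : Summable (H u a R b V p q) := by
  have hu0 : u ≠ 0 := by
    rintro rfl
    simp at hu
  have hb : 0 < b := by
    by_contra hb
    push Not at hb
    nlinarith [mul_nonpos_of_nonneg_of_nonpos ha.le hb, sq_nonneg R, pow_pos hV 2]
  have h1 : H u a R b V p q = fun x => _ := funext fun x => H_eq hu0 hV p q x
  rw [h1]
  refine Summable.mul_left _ (summable_F' (im_pos_aux hu (by positivity)) hb ?_ _ _)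
  nlinarith [pow_pos hV 2]

lemma G_eq {u : ℂ} (hu : u ≠ 0) {a R b V : ℝ} (ha : 0 < a) (h : a * b - R ^ 2 = V ^ 2) (p q : ℂ)
    (x : ℤ × ℤ) : G u a R b p q x = cexp (-π * I * p ^ 2 / (u * a)) *
      cexp (((2 * π * (R / a) * x.1 * x.2 : ℝ) : ℂ) * I) *
        (jacobiTheta₂_term x.1 (p / (u * a)) (-1 / (u * a)) *
          jacobiTheta₂_term x.2 (q - p * R / a) (u * V ^ 2 / a)) := by
  have ha' : (a : ℂ) ≠ 0 := by exact_mod_cast ha.ne'
  have h' : (a : ℂ) * b - R ^ 2 = V ^ 2 := by exact_mod_cast h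
  rw [G, jacobiTheta₂_term, jacobiTheta₂_term, ← Complex.exp_add, ← Complex.exp_add,
    ← Complex.exp_add]
  congr 1
  rw [← h']
  push_cast
  field_simp
  ring

lemma summable_G {u : ℂ} (hu : 0 < u.im) {a R b V : ℝ} (ha : 0 < a) (hV : 0 < V)
    (h : a * b - R ^ 2 = V ^ 2) (p q : ℂ) : Summable (G u a R b p q) := by
  have hu0 : u ≠ 0 := by
    rintro rfl
    simp at hu
  have h1 : 0 < (u * V ^ 2 / a : ℂ).im := by
    have h2 : (u * V ^ 2 / a : ℂ) = ((V ^ 2 / a : ℝ) : ℂ) * u := by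
      push_cast
      ring
    rw [h2, im_ofReal_mul]
    positivity
  have hsum : Summable fun x : ℤ × ℤ => ‖jacobiTheta₂_term x.1 (p / (u * a)) (-1 / (u * a))‖ *
      ‖jacobiTheta₂_term x.2 (q - p * R / a) (u * V ^ 2 / a)‖ :=
    ((summable_jacobiTheta₂_term_iff _ _).mpr (im_pos_aux hu ha)).norm.mul_of_nonneg
      ((summable_jacobiTheta₂_term_iff _ _).mpr h1).norm (fun _ => norm_nonneg _)
      (fun _ => norm_nonneg _)
  refine Summable.of_norm ?_
  refine (hsum.mul_left ‖cexp (-π * I * p ^ 2 / (u * a))‖).congr fun x => ?_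
  rw [G_eq hu0 ha h, norm_mul, norm_mul, norm_mul, Complex.norm_exp_ofReal_mul_I, mul_one]

/-- The two-dimensional transformation formula. -/
lemma poisson {u : ℂ} (hu : 0 < u.im) {a R b V : ℝ} (ha : 0 < a) (hV : 0 < V)
    (h : a * b - R ^ 2 = V ^ 2) (p q : ℂ) :
    ∑' x, F u a R b p q x = I / (u * V) * ∑' x, H u a R b V p q x := by
  have hu0 : u ≠ 0 := by
    rintro rfl
    simp at hu
  have ha' : (a : ℂ) ≠ 0 := by exact_mod_cast ha.ne'
  have hV' : (V : ℂ) ≠ 0 := by exact_mod_cast hV.ne'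
  have h' : (a : ℂ) * b - R ^ 2 = V ^ 2 := by exact_mod_cast h
  have hV2 : 0 < a * b - R ^ 2 := by rw [h]; positivity
  set κ₁ : ℂ := 1 / (-I * (u * a)) ^ (1 / 2 : ℂ) with hκ₁
  set κ₂ : ℂ := 1 / (-I * (u * V ^ 2 / a)) ^ (1 / 2 : ℂ) with hκ₂
  have hF := summable_F' hu ha hV2 p q
  have hG := summable_G hu ha hV h p q
  have hH := summable_H hu ha hV h p q
  have s1 : ∀ n : ℤ, ∑' m : ℤ, F u a R b p q (m, n) = κ₁ * ∑' m : ℤ, G u a R b p q (m, n) := by
    intro n
    have e1 : ∀ m : ℤ, F u a R b p q (m, n) = cexp (π * I * u * b * n ^ 2 + 2 * π * I * q * n) *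
        jacobiTheta₂_term m (p + u * R * n) (u * a) := by
      intro m
      rw [F, jacobiTheta₂_term, ← Complex.exp_add]
      congr 1
      ring
    have e2 : ∀ m : ℤ, G u a R b p q (m, n) = cexp (π * I * u * b * n ^ 2 + 2 * π * I * q * n) *
        (cexp (-π * I * (p + u * R * n) ^ 2 / (u * a)) *
          jacobiTheta₂_term m ((p + u * R * n) / (u * a)) (-1 / (u * a))) := by
      intro m
      rw [G, jacobiTheta₂_term, ← Complex.exp_add, ← Complex.exp_add]
      congr 1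
      field_simp
      ring
    simp_rw [e1, e2]
    rw [tsum_mul_left, tsum_mul_left, tsum_mul_left]
    have h3 := jacobiTheta₂_functional_equation (p + u * R * n) (u * a)
    rw [jacobiTheta₂, jacobiTheta₂] at h3
    rw [h3, ← hκ₁]
    ring
  have s2 : ∀ m : ℤ, ∑' n : ℤ, G u a R b p q (m, n) =
      κ₂ * ∑' n : ℤ, H u a R b V p q (m, n) := by
    intro m
    have e1 : ∀ n : ℤ, G u a R b p q (m, n) = cexp (-π * I * (p - m) ^ 2 / (u * a)) *
        jacobiTheta₂_term n (q - (p - m) * R / a) (u * V ^ 2 / a) := by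
      intro n
      rw [G, jacobiTheta₂_term, ← Complex.exp_add, ← h']
      congr 1
      field_simp
      ring
    have e2 : ∀ n : ℤ, H u a R b V p q (m, n) = cexp (-π * I * (p - m) ^ 2 / (u * a)) *
        (cexp (-π * I * (q - (p - m) * R / a) ^ 2 / (u * V ^ 2 / a)) *
          jacobiTheta₂_term n ((q - (p - m) * R / a) / (u * V ^ 2 / a))
            (-1 / (u * V ^ 2 / a))) := by
      intro n
      rw [H, jacobiTheta₂_term, ← Complex.exp_add, ← Complex.exp_add]
      congr 1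
      have hb : (b : ℂ) = (V ^ 2 + R ^ 2) / a := by
        rw [← h']
        field_simp
        ring
      rw [hb]
      field_simp
      ring
    simp_rw [e1, e2]
    rw [tsum_mul_left, tsum_mul_left, tsum_mul_left]
    have h3 := jacobiTheta₂_functional_equation (q - (p - m) * R / a) (u * V ^ 2 / a)
    rw [jacobiTheta₂, jacobiTheta₂] at h3
    rw [h3, ← hκ₂]
    ring
  have hκ : κ₁ * κ₂ = I / (u * V) := by
    have hw : -I * u ≠ 0 := mul_ne_zero (neg_ne_zero.mpr I_ne_zero) hu0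
    have h3 := sqrt_mul ha (show 0 < V ^ 2 / a by positivity) hV (by field_simp) hw
    have e1 : (a : ℂ) * (-I * u) = -I * (u * a) := by ring
    have e2 : ((V ^ 2 / a : ℝ) : ℂ) * (-I * u) = -I * (u * V ^ 2 / a) := by
      push_cast
      ring
    rw [e1, e2] at h3
    rw [hκ₁, hκ₂, div_mul_div_comm, one_mul, h3]
    rw [div_eq_div_iff (mul_ne_zero hV' hw) (mul_ne_zero hu0 hV')]
    linear_combination (u * V : ℂ) * I_sq
  have t1 : ∑' x, F u a R b p q x = ∑' n : ℤ, ∑' m : ℤ, F u a R b p q (m, n) := by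
    rw [hF.tsum_prod]
    exact (Summable.tsum_comm (f := fun m n : ℤ => F u a R b p q (m, n)) hF).symm
  have t2 : ∑' n : ℤ, ∑' m : ℤ, G u a R b p q (m, n) =
      ∑' m : ℤ, ∑' n : ℤ, G u a R b p q (m, n) :=
    Summable.tsum_comm (f := fun m n : ℤ => G u a R b p q (m, n)) hG
  have t3 : ∑' x, H u a R b V p q x = ∑' m : ℤ, ∑' n : ℤ, H u a R b V p q (m, n) :=
    hH.tsum_prod
  rw [t1]
  simp_rw [s1]
  rw [tsum_mul_left, t2]
  simp_rw [s2]
  rw [tsum_mul_left, ← t3, ← mul_assoc, hκ]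

lemma normSq_cast (z : ℂ) : ((normSq z : ℝ) : ℂ) = z * conj z := (mul_conj z).symm

/-- The left hand side in terms of `F`. -/
lemma lhs_eq (X Y x u t : ℂ) {N : ℝ} (hN : 0 < N) (p : ℤ × ℤ) :
    cexp (t * (x + p.1 * X + p.2 * Y)) * ee (normSq (x + p.1 * X + p.2 * Y) / N * u) =
      cexp (t * x + 2 * π * I * (x * conj x) * u / N) *
        F (2 * u / N) (normSq X) (X * conj Y).re (normSq Y)
          (X * t / (2 * π * I) + u / N * (x * conj X + conj x * X))
          (Y * t / (2 * π * I) + u / N * (x * conj Y + conj x * Y)) p := by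
  have hN' : (N : ℂ) ≠ 0 := by exact_mod_cast hN.ne'
  have hπ : (π : ℂ) ≠ 0 := by exact_mod_cast Real.pi_ne_zero
  have hR : (((X * conj Y).re : ℝ) : ℂ) = (X * conj Y + conj X * Y) / 2 := by
    rw [re_eq_add_conj, map_mul, conj_conj]
  rw [ee, F, ← Complex.exp_add, ← Complex.exp_add, hR, normSq_cast, normSq_cast, normSq_cast]
  congr 1
  simp only [map_add, map_mul, map_intCast]
  field_simp
  ring

/-- The right hand side in terms of `H`. -/
lemma rhs_eq (X Y x u t : ℂ) {N : ℝ} (hN : 0 < N) (hV : 0 < (X * conj Y).im) (hu : u ≠ 0)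
    (p : ℤ × ℤ) :
    ee (2 * (x * conj (I * N / (2 * (X * conj Y).im) *
        ((-p.2 : ℤ) * X + (p.1 : ℤ) * Y))).re / N) *
      cexp (t * (I * N / (2 * (X * conj Y).im) * ((-p.2 : ℤ) * X + (p.1 : ℤ) * Y)) / u) *
      ee (-(normSq (I * N / (2 * (X * conj Y).im) * ((-p.2 : ℤ) * X + (p.1 : ℤ) * Y)) / N) / u) =
      cexp (t * x + 2 * π * I * (x * conj x) * u / N) *
        H (2 * u / N) (normSq X) (X * conj Y).re (normSq Y) (X * conj Y).im
          (X * t / (2 * π * I) + u / N * (x * conj X + conj x * X))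
          (Y * t / (2 * π * I) + u / N * (x * conj Y + conj x * Y)) p := by
  have hN' : (N : ℂ) ≠ 0 := by exact_mod_cast hN.ne'
  have hπ : (π : ℂ) ≠ 0 := by exact_mod_cast Real.pi_ne_zero
  have hR : (((X * conj Y).re : ℝ) : ℂ) = (X * conj Y + conj X * Y) / 2 := by
    rw [re_eq_add_conj, map_mul, conj_conj]
  have hI : (((X * conj Y).im : ℝ) : ℂ) = I * (conj X * Y - X * conj Y) / 2 := by
    rw [im_eq_sub_conj, map_mul, conj_conj, div_eq_div_iff (by simp) (by simp)]
    linear_combination (2 * (X * conj Y - conj X * Y)) * (I_sq)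
  have hV' : (((X * conj Y).im : ℝ) : ℂ) ≠ 0 := by exact_mod_cast hV.ne'
  have hΔ : conj X * Y - X * conj Y ≠ 0 := by
    intro h0
    rw [hI, h0] at hV'
    simp at hV'
  have hD : I * N / (2 * (X * conj Y).im) = N / (conj X * Y - X * conj Y) := by
    rw [hI]
    field_simp
  have hΔ' : X * conj Y - conj X * Y ≠ 0 := by
    intro h0
    apply hΔ
    linear_combination -h0
  have hD' : conj (I * N / (2 * (X * conj Y).im)) = -(N / (conj X * Y - X * conj Y)) := by
    rw [hD, map_div₀, conj_ofReal, map_sub, map_mul, map_mul, conj_conj, conj_conj]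
    rw [← div_neg, neg_sub]
  have hRe : ∀ z : ℂ, (((x * conj z).re : ℝ) : ℂ) = (x * conj z + conj x * z) / 2 := by
    intro z
    rw [re_eq_add_conj, map_mul, conj_conj]
  rw [ee, ee, H, ← Complex.exp_add, ← Complex.exp_add, ← Complex.exp_add, hRe, hR, hI,
    normSq_cast, normSq_cast, normSq_cast, map_mul, ← hI, hD', hD, hI]
  congr 1
  simp only [map_add, map_mul, map_intCast]
  push_cast
  have hI2 : (I * (conj X * Y - X * conj Y) / 2) ^ 2 = -(conj X * Y - X * conj Y) ^ 2 / 4 := by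
    rw [div_pow, mul_pow, I_sq]
    ring
  rw [hI2]
  field_simp
  ring

end PoissonAux

open PoissonAux in
theorem stPoisson : StPoisson := by
  intro X Y x u t N hV hN hu D
  have hu0 : u ≠ 0 := by
    rintro rfl
    simp at hu
  have hX : X ≠ 0 := by
    rintro rfl
    simp at hV
  have ha : 0 < Complex.normSq X := Complex.normSq_pos.mpr hX
  have hab : Complex.normSq X * Complex.normSq Y - (X * conj Y).re ^ 2 = (X * conj Y).im ^ 2 := by
    have h1 := Complex.normSq_apply (X * conj Y)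
    rw [Complex.normSq_mul, Complex.normSq_conj] at h1
    linear_combination h1
  have hu2 : 0 < (2 * u / N : ℂ).im := by
    have h1 : (2 * u / N : ℂ) = ((2 / N : ℝ) : ℂ) * u := by
      push_cast
      ring
    rw [h1, Complex.im_ofReal_mul]
    positivity
  have hV2 : 0 < Complex.normSq X * Complex.normSq Y - (X * conj Y).re ^ 2 := by
    rw [hab]
    positivity
  constructor
  · simp_rw [lhs_eq X Y x u t hN, norm_mul]
    exact (summable_F hu2 ha hV2 _ _).mul_left _
  · simp_rw [lhs_eq X Y x u t hN]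
    rw [tsum_mul_left, poisson hu2 ha hV hab]
    let e : ℤ × ℤ ≃ ℤ × ℤ :=
      { toFun := fun p => (-p.2, p.1)
        invFun := fun p => (p.2, -p.1)
        left_inv := fun p => by simp
        right_inv := fun p => by simp }
    rw [← e.tsum_eq (fun p : ℤ × ℤ => ee (2 * (x * conj (D * (p.1 * X + p.2 * Y))).re / N) *
      Complex.exp (t * (D * (p.1 * X + p.2 * Y)) / u) *
      ee (-(Complex.normSq (D * (p.1 * X + p.2 * Y)) / N) / u))]
    have h2 : ∀ p : ℤ × ℤ, ee (2 * (x * conj (D * ((e p).1 * X + (e p).2 * Y))).re / N) *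
        Complex.exp (t * (D * ((e p).1 * X + (e p).2 * Y)) / u) *
        ee (-(Complex.normSq (D * ((e p).1 * X + (e p).2 * Y)) / N) / u) = _ :=
      fun p => rhs_eq X Y x u t hN hV hu0 p
    simp_rw [h2]
    rw [tsum_mul_left]
    have hN' : (N : ℂ) ≠ 0 := by exact_mod_cast hN.ne'
    have hV' : (((X * conj Y).im : ℝ) : ℂ) ≠ 0 := by exact_mod_cast hV.ne'
    have h3 : Complex.I / (2 * u / N * (X * conj Y).im) = D / u := by
      show _ = Complex.I * N / (2 * (X * conj Y).im) / u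
      field_simp
    rw [h3]
    ring

end RZ

end Pool.Agent.Lib.MP_7c08ba_nt
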