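import Pool.Agent.Lib.MP_7c08ba_nt.RZ.StD

set_option autoImplicit false

/-!
Module D5: the Rankin–Selberg integral in the region of convergence.
-/

namespace Pool.Agent.Lib.MP_7c08ba_nt

namespace RZ

open NumberField MeasureTheory UpperHalfPlane Set IsDedekindDomain
open scoped MatrixGroups ComplexConjugate nonZeroDivisors

namespace RSAux

variable {w : ℕ}

/-! ### exponentials -/

theorem norm_ee (z : ℂ) : ‖ee z‖ = Real.exp (-(2 * Real.pi * z.im)) := by
  unfold ee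
  rw [Complex.norm_exp]
  congr 1
  simp

theorem norm_ee_n (n : ℕ) (x y : ℝ) :
    ‖ee (n * ((x : ℂ) + y * Complex.I))‖ = ‖ee (n * ((y : ℂ) * Complex.I))‖ := by
  rw [norm_ee, norm_ee]
  congr 1
  simp

theorem norm_ee_neg (n : ℕ) (x y : ℝ) :
    ‖ee (n * (-(x : ℂ) + y * Complex.I))‖ = ‖ee (n * ((y : ℂ) * Complex.I))‖ := by
  rw [norm_ee, norm_ee]
  congr 1
  simp

theorem ee_mul_ee (m n : ℕ) (x y : ℝ) :
    ee (n * ((x : ℂ) + y * Complex.I)) * ee (m * (-(x : ℂ) + y * Complex.I)) =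
      Complex.exp (-(2 * Real.pi * ((n : ℂ) + m) * y)) *
        Complex.exp ((2 * Real.pi * Complex.I * ((n : ℂ) - m)) * x) := by
  unfold ee
  rw [← Complex.exp_add, ← Complex.exp_add]
  congr 1
  linear_combination (2 * (Real.pi : ℂ) * (n + m) * y) * Complex.I_sq

theorem integral_ee (m n : ℕ) (y : ℝ) :
    ∫ x in (0 : ℝ)..1, ee (n * ((x : ℂ) + y * Complex.I)) * ee (m * (-(x : ℂ) + y * Complex.I)) =
      if m = n then ((Real.exp (-(4 * Real.pi * n) * y) : ℝ) : ℂ) else 0 := by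
  simp_rw [ee_mul_ee]
  rw [intervalIntegral.integral_const_mul]
  split_ifs with h
  · subst h
    have : ∀ x : ℝ, Complex.exp ((2 * Real.pi * Complex.I * ((m : ℂ) - m)) * x) = 1 := by
      intro x
      rw [sub_self, mul_zero, zero_mul, Complex.exp_zero]
    simp_rw [this]
    rw [intervalIntegral.integral_const, sub_zero, one_smul, mul_one, Complex.ofReal_exp]
    congr 1
    push_cast
    ring
  · have hne : (n : ℂ) - m ≠ 0 := by
      rw [sub_ne_zero]
      exact_mod_cast fun h' : n = m => h h'.symm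
    have hc : 2 * (Real.pi : ℂ) * Complex.I * ((n : ℂ) - m) ≠ 0 :=
      mul_ne_zero Complex.two_pi_I_ne_zero hne
    rw [integral_exp_mul_complex hc]
    have h1 : Complex.exp (2 * (Real.pi : ℂ) * Complex.I * ((n : ℂ) - m) * ((1 : ℝ) : ℂ)) = 1 := by
      have := Complex.exp_int_mul_two_pi_mul_I ((n : ℤ) - m)
      rw [← this]
      congr 1
      push_cast
      ring
    rw [h1, Complex.ofReal_zero, mul_zero, Complex.exp_zero, sub_self, zero_div, mul_zero]

theorem neg_conj_eq (x y : ℝ) :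
    -conj ((x : ℂ) + y * Complex.I) = -(x : ℂ) + y * Complex.I := by
  rw [map_add, map_mul, Complex.conj_ofReal, Complex.conj_ofReal, Complex.conj_I]
  ring

theorem im_neg_conj (z : ℂ) : (-conj z).im = z.im := by simp

theorem im_xy (x y : ℝ) : ((x : ℂ) + y * Complex.I).im = y := by simp

theorem im_nxy (x y : ℝ) : (-(x : ℂ) + y * Complex.I).im = y := by simp

/-! ### integrals over a period -/

theorem inner_one (h6 : StCoef) (f : CuspForm 𝒮ℒ (w : ℤ)) (n : ℕ) {y : ℝ} (hy : 0 < y) :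
    ∫ x in (0 : ℝ)..1, ee (n * ((x : ℂ) + y * Complex.I)) *
        f (ofComplex (-(x : ℂ) + y * Complex.I)) =
      coef f n * ((Real.exp (-(4 * Real.pi * n) * y) : ℝ) : ℂ) := by
  obtain ⟨-, -, hexp, -, -⟩ := h6 w f
  have hsum0 := (hexp ((y : ℂ) * Complex.I) (by simpa using hy)).1
  have key : HasSum (fun m : ℕ => ∫ x in (0 : ℝ)..1,
      coef f m * (ee (n * ((x : ℂ) + y * Complex.I)) * ee (m * (-(x : ℂ) + y * Complex.I))))
      (∫ x in (0 : ℝ)..1, ee (n * ((x : ℂ) + y * Complex.I)) *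
        f (ofComplex (-(x : ℂ) + y * Complex.I))) := by
    refine intervalIntegral.hasSum_integral_of_dominated_convergence
      (fun m _ => ‖coef f m * ee (m * ((y : ℂ) * Complex.I))‖ *
        ‖ee (n * ((y : ℂ) * Complex.I))‖) ?_ ?_ ?_ ?_ ?_
    · intro m
      refine Continuous.aestronglyMeasurable ?_
      unfold ee
      fun_prop
    · intro m
      refine Filter.Eventually.of_forall fun x _ => ?_
      rw [norm_mul, norm_mul, norm_ee_n, norm_ee_neg, norm_mul]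
      exact le_of_eq (by ring)
    · refine Filter.Eventually.of_forall fun x _ => ?_
      exact hsum0.mul_right _
    · exact intervalIntegrable_const
    · refine Filter.Eventually.of_forall fun x _ => ?_
      obtain ⟨hs, he⟩ := hexp (-(x : ℂ) + y * Complex.I) (by rw [im_nxy]; exact hy)
      have h5 : HasSum (fun m : ℕ => coef f m * ee (m * (-(x : ℂ) + y * Complex.I)))
          (f (ofComplex (-(x : ℂ) + y * Complex.I))) := by
        rw [he]
        exact hs.of_norm.hasSum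
      have h8 := h5.mul_left (ee (n * ((x : ℂ) + y * Complex.I)))
      have e : (fun m : ℕ => ee (n * ((x : ℂ) + y * Complex.I)) *
          (coef f m * ee (m * (-(x : ℂ) + y * Complex.I)))) = fun m : ℕ =>
          coef f m * (ee (n * ((x : ℂ) + y * Complex.I)) *
            ee (m * (-(x : ℂ) + y * Complex.I))) := funext fun m => by ring
      rw [e] at h8
      exact h8
  have hval : ∀ m : ℕ, (∫ x in (0 : ℝ)..1,
      coef f m * (ee (n * ((x : ℂ) + y * Complex.I)) * ee (m * (-(x : ℂ) + y * Complex.I)))) =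
      if m = n then coef f n * ((Real.exp (-(4 * Real.pi * n) * y) : ℝ) : ℂ) else 0 := by
    intro m
    rw [intervalIntegral.integral_const_mul, integral_ee]
    split_ifs with h
    · rw [h]
    · rw [mul_zero]
  simp_rw [hval] at key
  exact key.unique (hasSum_ite_eq n _)

theorem continuousOn_f (f : CuspForm 𝒮ℒ (w : ℤ)) :
    ContinuousOn (fun u : ℂ => f (ofComplex (-conj u))) {u | 0 < u.im} := by
  have h1 : ContinuousOn (fun z : ℂ => f (ofComplex z)) {z | 0 < z.im} :=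
    (UpperHalfPlane.mdifferentiable_iff.mp (CuspFormClass.holo f)).continuousOn
  refine h1.comp (Complex.continuous_conj.neg.continuousOn) fun u hu => ?_
  show 0 < (-conj u).im
  rw [im_neg_conj]
  exact hu

theorem inner_two (h6 : StCoef) (f : CuspForm 𝒮ℒ (w : ℤ)) (b : ℕ → ℂ) (g : ℂ → ℂ)
    (hg : ∀ u : ℂ, 0 < u.im → (Summable fun n : ℕ => ‖b n * ee (n * u)‖) ∧
      g u = ∑' n : ℕ, b n * ee (n * u)) {y : ℝ} (hy : 0 < y) :
    HasSum (fun n : ℕ => (coef f n * b n) * ((Real.exp (-(4 * Real.pi * n) * y) : ℝ) : ℂ))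
      (∫ x in (0 : ℝ)..1, g ((x : ℂ) + y * Complex.I) *
        f (ofComplex (-(x : ℂ) + y * Complex.I))) := by
  obtain ⟨-, -, -, ⟨C, hC⟩, -⟩ := h6 w f
  have hsum0 := (hg ((y : ℂ) * Complex.I) (by simpa using hy)).1
  have hyp : 0 < y ^ ((w : ℝ) / 2) := Real.rpow_pos_of_pos hy _
  have hfb : ∀ x : ℝ, ‖f (ofComplex (-(x : ℂ) + y * Complex.I))‖ ≤ C / y ^ ((w : ℝ) / 2) := by
    intro x
    have := hC (-(x : ℂ) + y * Complex.I) (by rw [im_nxy]; exact hy)
    rw [im_nxy] at this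
    rwa [le_div_iff₀ hyp]
  have hcont : Continuous fun x : ℝ => f (ofComplex (-(x : ℂ) + y * Complex.I)) := by
    have h1 := (continuousOn_f f).comp_continuous
      (f := fun x : ℝ => (x : ℂ) + y * Complex.I) (by fun_prop)
      (fun x => by
        show 0 < ((x : ℂ) + y * Complex.I).im
        rw [im_xy]
        exact hy)
    refine h1.congr fun x => ?_
    show f (ofComplex (-conj ((x : ℂ) + y * Complex.I))) = _
    rw [neg_conj_eq]
  have key : HasSum (fun n : ℕ => ∫ x in (0 : ℝ)..1,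
      b n * (ee (n * ((x : ℂ) + y * Complex.I)) * f (ofComplex (-(x : ℂ) + y * Complex.I))))
      (∫ x in (0 : ℝ)..1, g ((x : ℂ) + y * Complex.I) *
        f (ofComplex (-(x : ℂ) + y * Complex.I))) := by
    refine intervalIntegral.hasSum_integral_of_dominated_convergence
      (fun n _ => ‖b n * ee (n * ((y : ℂ) * Complex.I))‖ * (C / y ^ ((w : ℝ) / 2))) ?_ ?_ ?_ ?_ ?_
    · intro n
      refine Continuous.aestronglyMeasurable ?_
      refine continuous_const.mul (Continuous.mul ?_ hcont)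
      unfold ee
      fun_prop
    · intro n
      refine Filter.Eventually.of_forall fun x _ => ?_
      rw [norm_mul, norm_mul, norm_ee_n, norm_mul, ← mul_assoc]
      exact mul_le_mul_of_nonneg_left (hfb x) (by positivity)
    · refine Filter.Eventually.of_forall fun x _ => ?_
      exact hsum0.mul_right _
    · exact intervalIntegrable_const
    · refine Filter.Eventually.of_forall fun x _ => ?_
      obtain ⟨hs, he⟩ := hg ((x : ℂ) + y * Complex.I) (by rw [im_xy]; exact hy)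
      have h5 : HasSum (fun n : ℕ => b n * ee (n * ((x : ℂ) + y * Complex.I)))
          (g ((x : ℂ) + y * Complex.I)) := by
        rw [he]
        exact hs.of_norm.hasSum
      have h8 := h5.mul_right (f (ofComplex (-(x : ℂ) + y * Complex.I)))
      have e : (fun n : ℕ => b n * ee (n * ((x : ℂ) + y * Complex.I)) *
          f (ofComplex (-(x : ℂ) + y * Complex.I))) = fun n : ℕ =>
          b n * (ee (n * ((x : ℂ) + y * Complex.I)) *
            f (ofComplex (-(x : ℂ) + y * Complex.I))) := funext fun n => by ring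
      rw [e] at h8
      exact h8
  convert key using 1
  funext n
  rw [intervalIntegral.integral_const_mul, inner_one h6 f n hy]
  ring

/-! ### bounds -/

theorem inv_pow_le {y : ℝ} (hy : 0 < y) {a b : ℕ} (hab : a ≤ b) :
    (y ^ a)⁻¹ ≤ 1 + (y ^ b)⁻¹ := by
  rcases le_or_gt 1 y with h | h
  · have h1 : (y ^ a)⁻¹ ≤ 1 := inv_le_one_of_one_le₀ (one_le_pow₀ h)
    have h2 : 0 ≤ (y ^ b)⁻¹ := by positivity
    linarith
  · have h1 : (y ^ a)⁻¹ ≤ (y ^ b)⁻¹ :=
      inv_anti₀ (by positivity) (pow_le_pow_of_le_one hy.le h.le hab)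
    linarith

theorem bound_f (h6 : StCoef) (f : CuspForm 𝒮ℒ (w : ℤ)) :
    ∃ C : ℝ, 0 ≤ C ∧ ∀ u : ℂ, 0 < u.im →
      ‖f (ofComplex (-conj u))‖ ≤ C * (1 + (u.im ^ w)⁻¹) * Real.exp (-(2 * Real.pi * u.im)) := by
  obtain ⟨-, -, -, ⟨C₄, hC₄⟩, ⟨C₅, hC₅⟩⟩ := h6 w f
  have hpi := Real.pi_pos
  refine ⟨|C₅| + |C₄| * Real.exp Real.pi, by positivity, fun u hu => ?_⟩
  have hu' : 0 < (-conj u).im := by
    rw [im_neg_conj]
    exact hu
  have hinv : 0 < (u.im ^ w)⁻¹ := by positivity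
  have hE := Real.exp_pos (-(2 * Real.pi * u.im))
  rcases le_or_gt (1 / 2) u.im with h | h
  · have h1 := hC₅ (-conj u) (by rw [im_neg_conj]; exact h)
    rw [im_neg_conj] at h1
    refine h1.trans ?_
    have h2 : C₅ ≤ (|C₅| + |C₄| * Real.exp Real.pi) * (1 + (u.im ^ w)⁻¹) := by
      have h3 : C₅ ≤ |C₅| := le_abs_self _
      have h4 : 0 ≤ |C₄| * Real.exp Real.pi := by positivity
      have h5 : 0 ≤ (|C₅| + |C₄| * Real.exp Real.pi) * (u.im ^ w)⁻¹ := by positivity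
      nlinarith
    exact mul_le_mul_of_nonneg_right h2 hE.le
  · have h1 := hC₄ (-conj u) hu'
    rw [im_neg_conj] at h1
    have hyp : 0 < u.im ^ ((w : ℝ) / 2) := Real.rpow_pos_of_pos hu _
    have h2 : ‖f (ofComplex (-conj u))‖ ≤ |C₄| * (u.im ^ w)⁻¹ := by
      have h3 : ‖f (ofComplex (-conj u))‖ ≤ |C₄| / u.im ^ ((w : ℝ) / 2) := by
        rw [le_div_iff₀ hyp]
        exact h1.trans (le_abs_self _)
      refine h3.trans ?_
      rw [div_eq_mul_inv]
      refine mul_le_mul_of_nonneg_left ?_ (abs_nonneg _)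
      refine inv_anti₀ (by positivity) ?_
      rw [← Real.rpow_natCast]
      refine Real.rpow_le_rpow_of_exponent_ge hu (by linarith) ?_
      have : (0 : ℝ) ≤ w := Nat.cast_nonneg w
      linarith
    have h4 : 1 ≤ Real.exp Real.pi * Real.exp (-(2 * Real.pi * u.im)) := by
      rw [← Real.exp_add]
      refine Real.one_le_exp ?_
      nlinarith
    have h5 : |C₄| * (u.im ^ w)⁻¹ ≤ |C₄| * Real.exp Real.pi * (u.im ^ w)⁻¹ *
        Real.exp (-(2 * Real.pi * u.im)) := by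
      have h6 : 0 ≤ |C₄| * (u.im ^ w)⁻¹ := by positivity
      calc |C₄| * (u.im ^ w)⁻¹ = |C₄| * (u.im ^ w)⁻¹ * 1 := (mul_one _).symm
        _ ≤ |C₄| * (u.im ^ w)⁻¹ * (Real.exp Real.pi * Real.exp (-(2 * Real.pi * u.im))) :=
          mul_le_mul_of_nonneg_left h4 h6
        _ = _ := by ring
    refine (h2.trans h5).trans (mul_le_mul_of_nonneg_right ?_ hE.le)
    have h7 : 0 ≤ |C₅| := abs_nonneg _
    have h8 : 0 ≤ |C₄| * Real.exp Real.pi := by positivity
    nlinarith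

section

variable {F : Type} [Field F] [NumberField F]

theorem bound_th (h5 : StThB) {q : ℕ} {s : 𝓞 F} {σ : F →+* ℂ} {χ : DirichletCharacter ℂ q}
    {cj : 𝓞 F ≃+* 𝓞 F} (hD : Dat q s σ χ cj) (k : ℕ) (ψ : Ideal (𝓞 F) →*₀ ℂ) (c : Reps σ) :
    ∃ (C : ℝ) (A : ℕ), 0 ≤ C ∧ ∀ u : ℂ, 0 < u.im →
      ‖thψ k ψ c u‖ ≤ C * (1 + (u.im ^ A)⁻¹) := by
  have hne : ∀ B : ClassGroup (𝓞 F), (c.R B : Ideal (𝓞 F)) ≠ ⊥ := fun B =>
    nonZeroDivisors.coe_ne_zero (c.R B)
  have hb : ∀ B : ClassGroup (𝓞 F), ∃ (C : ℝ) (A : ℕ), ∀ u : ℂ, 0 < u.im →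
      ‖th σ (c.R B : Ideal (𝓞 F)) k u‖ ≤ C * (1 + (u.im ^ A)⁻¹) := by
    intro B
    obtain ⟨-, -, -, -, -, -, -, -, -, -, h⟩ :=
      h5 q F _ _ s σ χ cj (c.R B : Ideal (𝓞 F)) k 0 hD (hne B)
    exact h
  choose Cf Af hf using hb
  refine ⟨1 / 2 * ∑ B : ClassGroup (𝓞 F), ‖(ψ (c.R B : Ideal (𝓞 F)))⁻¹‖ * (2 * |Cf B|),
    Finset.univ.sup Af, by positivity, fun u hu => ?_⟩
  unfold thψ
  rw [norm_mul]
  have h2 : ‖(1 / 2 : ℂ)‖ = 1 / 2 := by norm_num
  rw [h2, mul_assoc, Finset.sum_mul]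
  refine mul_le_mul_of_nonneg_left ((norm_sum_le _ _).trans (Finset.sum_le_sum fun B _ => ?_))
    (by norm_num)
  rw [norm_mul, mul_assoc]
  refine mul_le_mul_of_nonneg_left ?_ (norm_nonneg _)
  have h3 : (u.im ^ Af B)⁻¹ ≤ 1 + (u.im ^ Finset.univ.sup Af)⁻¹ :=
    inv_pow_le hu (Finset.le_sup (Finset.mem_univ B))
  have h4 : 0 ≤ (u.im ^ Finset.univ.sup Af)⁻¹ := by positivity
  have h6 : 0 ≤ (u.im ^ Af B)⁻¹ := by positivity
  calc ‖th σ (c.R B : Ideal (𝓞 F)) k u‖ ≤ Cf B * (1 + (u.im ^ Af B)⁻¹) := hf B u hu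
    _ ≤ |Cf B| * (1 + (u.im ^ Af B)⁻¹) :=
      mul_le_mul_of_nonneg_right (le_abs_self _) (by linarith)
    _ ≤ |Cf B| * (2 * (1 + (u.im ^ Finset.univ.sup Af)⁻¹)) :=
      mul_le_mul_of_nonneg_left (by linarith) (abs_nonneg _)
    _ = _ := by ring

theorem continuousOn_th (h5 : StThB) {q : ℕ} {s : 𝓞 F} {σ : F →+* ℂ}
    {χ : DirichletCharacter ℂ q} {cj : 𝓞 F ≃+* 𝓞 F} (hD : Dat q s σ χ cj) (k : ℕ)
    (ψ : Ideal (𝓞 F) →*₀ ℂ) (c : Reps σ) :
    ContinuousOn (thψ k ψ c) {u | 0 < u.im} ∧ ∀ u : ℂ, thψ k ψ c (u + 1) = thψ k ψ c u := by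
  have hne : ∀ B : ClassGroup (𝓞 F), (c.R B : Ideal (𝓞 F)) ≠ ⊥ := fun B =>
    nonZeroDivisors.coe_ne_zero (c.R B)
  constructor
  · unfold thψ
    refine continuousOn_const.mul (continuousOn_finsetSum _ fun B _ => continuousOn_const.mul ?_)
    obtain ⟨-, -, h, -⟩ := h5 q F _ _ s σ χ cj (c.R B : Ideal (𝓞 F)) k 0 hD (hne B)
    exact h
  · intro u
    unfold thψ
    congr 1
    refine Finset.sum_congr rfl fun B _ => ?_
    obtain ⟨-, -, -, -, -, -, h, -⟩ := h5 q F _ _ s σ χ cj (c.R B : Ideal (𝓞 F)) k 0 hD (hne B)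
    rw [h u]

end

theorem int_term {e : ℝ} (he : -1 < e) :
    IntegrableOn (fun y : ℝ => y ^ e * Real.exp (-(2 * Real.pi * y))) (Ioi 0) := by
  have h := integrableOn_rpow_mul_exp_neg_mul_rpow he one_pos (b := 2 * Real.pi)
    (by positivity)
  refine h.congr_fun (fun y _ => ?_) measurableSet_Ioi
  show y ^ e * Real.exp (-(2 * Real.pi) * y ^ (1 : ℝ)) = _
  rw [Real.rpow_one, neg_mul]

theorem int_bound (C₁ C₂ : ℝ) (A w : ℕ) {E : ℝ} (hE : (A : ℝ) + w + 1 < E) :
    IntegrableOn (fun y : ℝ => (C₁ * (1 + (y ^ A)⁻¹) *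
      (C₂ * (1 + (y ^ w)⁻¹) * Real.exp (-(2 * Real.pi * y))) * y ^ E) / y ^ 2) (Ioi 0) := by
  have hA : (0 : ℝ) ≤ A := Nat.cast_nonneg A
  have hw : (0 : ℝ) ≤ w := Nat.cast_nonneg w
  have i1 := int_term (e := E - 2) (by linarith)
  have i2 := int_term (e := E - 2 - A) (by linarith)
  have i3 := int_term (e := E - 2 - w) (by linarith)
  have i4 := int_term (e := E - 2 - A - w) (by linarith)
  have i := (((i1.add i2).add i3).add i4).const_mul (C₁ * C₂)
  refine IntegrableOn.congr_fun i (fun y hy => ?_) measurableSet_Ioi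
  have hy' : 0 < y := hy
  show C₁ * C₂ * (y ^ (E - 2) * Real.exp (-(2 * Real.pi * y)) +
    y ^ (E - 2 - A) * Real.exp (-(2 * Real.pi * y)) +
    y ^ (E - 2 - w) * Real.exp (-(2 * Real.pi * y)) +
    y ^ (E - 2 - A - w) * Real.exp (-(2 * Real.pi * y))) = _
  have e1 : y ^ (E - 2) = y ^ E * (y ^ 2)⁻¹ := by
    rw [Real.rpow_sub hy', div_eq_mul_inv]
    congr 2
    exact Real.rpow_natCast y 2
  have e2 : y ^ (E - 2 - A) = y ^ E * (y ^ 2)⁻¹ * (y ^ A)⁻¹ := by
    rw [Real.rpow_sub hy' (E - 2) A, e1, Real.rpow_natCast, div_eq_mul_inv]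
  have e3 : y ^ (E - 2 - w) = y ^ E * (y ^ 2)⁻¹ * (y ^ w)⁻¹ := by
    rw [Real.rpow_sub hy' (E - 2) w, e1, Real.rpow_natCast, div_eq_mul_inv]
  have e4 : y ^ (E - 2 - A - w) = y ^ E * (y ^ 2)⁻¹ * (y ^ A)⁻¹ * (y ^ w)⁻¹ := by
    rw [Real.rpow_sub hy' (E - 2 - A) w, e2, Real.rpow_natCast, div_eq_mul_inv]
  rw [e1, e2, e3, e4]
  ring

theorem periodic_f (h6 : StCoef) (f : CuspForm 𝒮ℒ (w : ℤ)) {z : ℂ} (hz : 0 < z.im) :
    f (ofComplex (-conj (z + 1))) = f (ofComplex (-conj z)) := by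
  obtain ⟨-, -, hexp, -, -⟩ := h6 w f
  rw [(hexp (-conj (z + 1)) (by rw [im_neg_conj]; simpa using hz)).2,
    (hexp (-conj z) (by rw [im_neg_conj]; exact hz)).2]
  refine tsum_congr fun n => ?_
  congr 1
  unfold ee
  have h1 : 2 * (Real.pi : ℂ) * Complex.I * (n * -conj (z + 1)) =
      2 * (Real.pi : ℂ) * Complex.I * (n * -conj z) -
        ((n : ℤ) : ℂ) * (2 * Real.pi * Complex.I) := by
    rw [map_add, map_one]
    push_cast
    ring
  rw [h1, Complex.exp_sub, Complex.exp_int_mul_two_pi_mul_I, div_one]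

end RSAux

open RSAux in
/-- (D5) -/
theorem stRS (h1 : StRSpt) (h2 : StUnf) (h3 : StStrip) (h4 : StThPsi) (h5 : StThB)
    (h6 : StCoef) : StRS := by
  intro q hq F hF hNF s σ χ cj w r f ψ c hD hw hev hψ
  obtain ⟨C₁, A₁, hC₁, hth⟩ := bound_th h5 hD (w + 2 * r) ψ c
  obtain ⟨C₂, hC₂, hfb⟩ := bound_f h6 f
  obtain ⟨hcth, hpth⟩ := continuousOn_th h5 hD (w + 2 * r) ψ c
  obtain ⟨hb0, hbn, hbexp⟩ := h4 q F hF hNF s σ χ cj (w + 2 * r) ψ c hD hψ (by omega)
  refine ⟨(A₁ : ℝ) + 2, fun t ht => ?_⟩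
  have hA₁ : (0 : ℝ) ≤ A₁ := Nat.cast_nonneg A₁
  have hr0 : (0 : ℝ) ≤ r := Nat.cast_nonneg r
  have hw0 : (0 : ℝ) ≤ w := Nat.cast_nonneg w
  have ht2 : 2 < t.re := by linarith
  set G : ℂ → ℂ := fun u : ℂ => thψ (w + 2 * r) ψ c u * f (ofComplex (-conj u)) *
    (u.im : ℂ) ^ ((w : ℂ) + 2 * r + 1 + t) with hG
  -- continuity and periodicity
  have hGc : ContinuousOn G {z | 0 < z.im} := by
    refine (hcth.mul (continuousOn_f f)).mul ?_
    refine ContinuousOn.cpow (Complex.continuous_ofReal.comp Complex.continuous_im).continuousOn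
      continuousOn_const fun u hu => ?_
    exact Complex.ofReal_mem_slitPlane.mpr hu
  have hGp : ∀ z : ℂ, 0 < z.im → G (z + 1) = G z := by
    intro z hz
    show thψ (w + 2 * r) ψ c (z + 1) * f (ofComplex (-conj (z + 1))) *
      ((z + 1).im : ℂ) ^ ((w : ℂ) + 2 * r + 1 + t) = _
    rw [hpth, periodic_f h6 f hz, Complex.add_im, Complex.one_im, add_zero]
  -- the bound
  set E : ℝ := (w : ℝ) + 2 * r + 1 + t.re with hE
  have hre : ((w : ℂ) + 2 * r + 1 + t).re = E := by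
    rw [hE]
    simp
  have hGb : ∀ x y : ℝ, 0 < x → x ≤ 1 → 0 < y → ‖G (x + y * Complex.I)‖ ≤
      C₁ * (1 + (y ^ A₁)⁻¹) * (C₂ * (1 + (y ^ w)⁻¹) * Real.exp (-(2 * Real.pi * y))) * y ^ E := by
    intro x y _ _ hy
    have him := im_xy x y
    have b1 := hth ((x : ℂ) + y * Complex.I) (by rw [him]; exact hy)
    have b2 := hfb ((x : ℂ) + y * Complex.I) (by rw [him]; exact hy)
    rw [him] at b1 b2
    have b3 : ‖((((x : ℂ) + y * Complex.I).im : ℝ) : ℂ) ^ ((w : ℂ) + 2 * r + 1 + t)‖ = y ^ E := by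
      rw [him, Complex.norm_cpow_eq_rpow_re_of_pos hy, hre]
    show ‖thψ (w + 2 * r) ψ c ((x : ℂ) + y * Complex.I) *
      f (ofComplex (-conj ((x : ℂ) + y * Complex.I))) *
      ((((x : ℂ) + y * Complex.I).im : ℝ) : ℂ) ^ ((w : ℂ) + 2 * r + 1 + t)‖ ≤ _
    rw [norm_mul, norm_mul, b3]
    refine mul_le_mul_of_nonneg_right ?_ (Real.rpow_nonneg hy.le _)
    exact mul_le_mul b1 b2 (norm_nonneg _) (by positivity)
  obtain ⟨hint, hstrip⟩ := h3 G _ hGc hGb (int_bound C₁ C₂ A₁ w (E := E) (by linarith))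
  obtain ⟨-, -, hunf⟩ := h2 G hGc hGp hint
  -- the unfolded integral
  have hrs : rsI q (HH q χ w r ψ c t) f =
      DirichletCharacter.LFunction χ (2 * r + 1 + 2 * t) * ∫ z : ℍ in strip, G z := by
    have e1 : rsI q (HH q χ w r ψ c t) f =
        ∫ z : ℍ in ModularGroup.fd, (1 / 2 * DirichletCharacter.LFunction χ (2 * r + 1 + 2 * t)) *
          ∑' v : Cop, G (mob v.1 z) := by
      unfold rsI
      refine integral_congr_ae (Filter.Eventually.of_forall fun z => ?_)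
      exact h1 q hq F hF hNF s σ χ cj w r f ψ c hD hw hev t z (by linarith) z.im_pos
    rw [e1, integral_const_mul, hunf]
    ring
  rw [hrs, hstrip]
  -- the integral as a Mellin transform
  set S : ℂ := (w : ℂ) + 2 * r + t with hS
  set Fy : ℝ → ℂ := fun y => ∫ x in (0 : ℝ)..1, thψ (w + 2 * r) ψ c ((x : ℂ) + y * Complex.I) *
    f (ofComplex (-(x : ℂ) + y * Complex.I)) with hFy
  have hmel : ∫ y in Ioi (0 : ℝ), (∫ x in (0 : ℝ)..1, G (x + y * Complex.I)) / (y : ℂ) ^ 2 =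
      mellin Fy S := by
    unfold mellin
    refine setIntegral_congr_fun measurableSet_Ioi fun y hy => ?_
    have hy' : 0 < y := hy
    have hyc : (y : ℂ) ≠ 0 := Complex.ofReal_ne_zero.mpr hy'.ne'
    have e2 : ∫ x in (0 : ℝ)..1, G (x + y * Complex.I) =
        Fy y * (y : ℂ) ^ ((w : ℂ) + 2 * r + 1 + t) := by
      rw [hFy, ← intervalIntegral.integral_mul_const]
      refine intervalIntegral.integral_congr fun x _ => ?_
      show thψ (w + 2 * r) ψ c ((x : ℂ) + y * Complex.I) *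
        f (ofComplex (-conj ((x : ℂ) + y * Complex.I))) *
        ((((x : ℂ) + y * Complex.I).im : ℝ) : ℂ) ^ ((w : ℂ) + 2 * r + 1 + t) = _
      rw [neg_conj_eq, im_xy]
    show (∫ x in (0 : ℝ)..1, G (x + y * Complex.I)) / (y : ℂ) ^ 2 = (y : ℂ) ^ (S - 1) • Fy y
    rw [e2, smul_eq_mul]
    have e3 : (w : ℂ) + 2 * r + 1 + t = (S - 1) + ((2 : ℕ) : ℂ) := by
      rw [hS]
      push_cast
      ring
    rw [e3, Complex.cpow_add _ _ hyc, Complex.cpow_natCast]
    field_simp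
  rw [hmel]
  -- the Dirichlet series
  have hSre : S.re = (w : ℝ) + 2 * r + t.re := by
    rw [hS]
    simp
  have hpi := Real.pi_pos
  have hterm0 : coef f 0 * bψ ψ 0 = 0 := by rw [hb0, mul_zero]
  have hsum : Summable fun n : ℕ => ‖coef f n * bψ ψ n‖ / (4 * Real.pi * n) ^ S.re := by
    obtain ⟨-, ⟨C, hC⟩, -, -, -⟩ := h6 w f
    have hS1 : (w : ℝ) / 2 + ((w + 2 * r : ℕ) : ℝ) / 2 + 1 - S.re < -1 := by
      rw [hSre]
      push_cast
      linarith
    refine Summable.of_nonneg_of_le (fun n => ?_) (fun n => ?_)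
      ((Real.summable_nat_rpow.mpr hS1).mul_left (|C| * ((4 * Real.pi) ^ S.re)⁻¹))
    · have : 0 ≤ (4 * Real.pi * n) ^ S.re := Real.rpow_nonneg (by positivity) _
      positivity
    · rcases Nat.eq_zero_or_pos n with rfl | hn
      · rw [hterm0, norm_zero, zero_div]
        have h9 : (0 : ℝ) ≤ ((0 : ℕ) : ℝ) ^
            ((w : ℝ) / 2 + ((w + 2 * r : ℕ) : ℝ) / 2 + 1 - S.re) :=
          Real.rpow_nonneg (by simp) _
        positivity
      · have hn' : (0 : ℝ) < n := by exact_mod_cast hn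
        have b1 : ‖coef f n‖ ≤ |C| * (n : ℝ) ^ ((w : ℝ) / 2) :=
          (hC n).trans (mul_le_mul_of_nonneg_right (le_abs_self _) (by positivity))
        have b2 : ‖bψ ψ n‖ ≤ (n : ℝ) * (n : ℝ) ^ (((w + 2 * r : ℕ) : ℝ) / 2) :=
          (hbn n hn).trans (mul_le_mul_of_nonneg_right
            (by exact_mod_cast Nat.card_divisors_le_self n) (by positivity))
        have b3 : ‖coef f n * bψ ψ n‖ ≤ |C| * (n : ℝ) ^ ((w : ℝ) / 2) *
            ((n : ℝ) * (n : ℝ) ^ (((w + 2 * r : ℕ) : ℝ) / 2)) := by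
          rw [norm_mul]
          exact mul_le_mul b1 b2 (norm_nonneg _) (by positivity)
        have hp : (4 * Real.pi * (n : ℝ)) ^ S.re = (4 * Real.pi) ^ S.re * (n : ℝ) ^ S.re :=
          Real.mul_rpow (by positivity) hn'.le
        have hnp : 0 < (n : ℝ) ^ S.re := Real.rpow_pos_of_pos hn' _
        have h4p : 0 < (4 * Real.pi) ^ S.re := Real.rpow_pos_of_pos (by positivity) _
        rw [hp, Real.rpow_sub hn', Real.rpow_add hn', Real.rpow_add hn', Real.rpow_one]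
        calc ‖coef f n * bψ ψ n‖ / ((4 * Real.pi) ^ S.re * (n : ℝ) ^ S.re)
            ≤ (|C| * (n : ℝ) ^ ((w : ℝ) / 2) *
              ((n : ℝ) * (n : ℝ) ^ (((w + 2 * r : ℕ) : ℝ) / 2))) /
                ((4 * Real.pi) ^ S.re * (n : ℝ) ^ S.re) :=
              div_le_div_of_nonneg_right b3 (by positivity)
          _ = _ := by
              field_simp
  have hM := hasSum_mellin (a := fun n : ℕ => coef f n * bψ ψ n)
    (p := fun n : ℕ => 4 * Real.pi * n) (F := Fy) (s := S) (fun n => by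
      rcases Nat.eq_zero_or_pos n with rfl | hn
      · exact Or.inl hterm0
      · right
        have hn' : (0 : ℝ) < n := by exact_mod_cast hn
        positivity) (by rw [hSre]; linarith)
    (fun y hy => inner_two h6 f (bψ ψ) (thψ (w + 2 * r) ψ c) hbexp hy) hsum
  rw [← hM.tsum_eq]
  unfold Dn
  rw [← tsum_mul_left, ← tsum_mul_left]
  refine tsum_congr fun n => ?_
  rcases Nat.eq_zero_or_pos n with rfl | hn
  · rw [hterm0]
    ring
  · have hn' : (0 : ℝ) < n := by exact_mod_cast hn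
    have hnc : (n : ℂ) ≠ 0 := by exact_mod_cast hn.ne'
    have h4c : (4 * Real.pi : ℂ) ≠ 0 := by
      simp
    have e5 : ((4 * Real.pi * n : ℝ) : ℂ) ^ S = (4 * Real.pi : ℂ) ^ S * (n : ℂ) ^ S := by
      have := Complex.mul_cpow_ofReal_nonneg (a := 4 * Real.pi) (b := n) (by positivity) hn'.le S
      push_cast at this ⊢
      exact this
    rw [e5, Complex.cpow_neg, Complex.cpow_neg]
    have hn1 : (n : ℂ) ^ S ≠ 0 := by
      rw [Ne, Complex.cpow_eq_zero_iff]
      tauto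
    have hn2 : (4 * Real.pi : ℂ) ^ S ≠ 0 := by
      rw [Ne, Complex.cpow_eq_zero_iff]
      tauto
    field_simp

end RZ

end Pool.Agent.Lib.MP_7c08ba_nt
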