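import Pool.Agent.Lib.MP_7c08ba_nt.RZ.StD

set_option autoImplicit false

/-!
(D11) the value at `-r` in terms of the integrals `JJ`
-/

namespace Pool.Agent.Lib.MP_7c08ba_nt

namespace RZ

open NumberField MeasureTheory UpperHalfPlane Set
open scoped MatrixGroups ComplexConjugate nonZeroDivisors

namespace RSatAux

/-- a power times a decaying exponential is bounded -/
theorem pow_mul_exp_le (n : ℕ) {δ y : ℝ} (hδ : 0 < δ) (hy : 0 ≤ y) :
    y ^ n * Real.exp (-(δ * y)) ≤ n.factorial / δ ^ n := by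
  have h1 := Real.pow_div_factorial_le_exp (δ * y) (by positivity) n
  rw [Real.exp_neg, ← div_eq_mul_inv, div_le_div_iff₀ (Real.exp_pos _) (by positivity)]
  rw [div_le_iff₀ (by positivity), mul_pow] at h1
  linarith [h1]

/-- a function of weight `w` whose size on the fundamental domain is bounded is bounded -/
theorem bounded_of_fd {w : ℕ} (hw : Even w) {h : ℂ → ℂ} (hW : Wt w h) {C δ : ℝ} (hδ : 0 < δ)
    (hb : ∀ z : ℂ, 1 / 2 ≤ z.im → |z.re| ≤ 1 / 2 → ‖h z‖ ≤ C * Real.exp (-(δ * z.im)))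
    (hfd : StFd) :
    ∃ C' : ℝ, ∀ z : ℂ, 0 < z.im → ‖h z‖ * z.im ^ ((w : ℝ) / 2) ≤ C' := by
  obtain ⟨n, rfl⟩ := hw
  have hn : (((n + n : ℕ) : ℝ)) / 2 = (n : ℝ) := by push_cast; ring
  have hC : 0 ≤ C := by
    have h1 := hb Complex.I (by norm_num) (by norm_num)
    have h2 := (norm_nonneg _).trans h1
    exact nonneg_of_mul_nonneg_left h2 (Real.exp_pos _)
  refine ⟨C * (n.factorial / δ ^ n), fun z hz => ?_⟩
  rw [hn, Real.rpow_natCast]
  obtain ⟨g, hg⟩ := ModularGroup.exists_smul_mem_fd ⟨z, hz⟩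
  have hg' := hfd.2.2 _ hg
  have e1 : (((g • (⟨z, hz⟩ : ℍ)) : ℍ) : ℂ) =
      ((g 0 0 : ℂ) * z + g 0 1) / ((g 1 0 : ℂ) * z + g 1 1) := by
    rw [coe_specialLinearGroup_apply]
    simp
  have e2 : (g • (⟨z, hz⟩ : ℍ)).im = z.im / Complex.normSq ((g 1 0 : ℂ) * z + g 1 1) := by
    rw [ModularGroup.im_smul_eq_div_normSq, ModularGroup.denom_apply]
    rfl
  set D : ℂ := (g 1 0 : ℂ) * z + g 1 1 with hD
  have e3 : h ((g • (⟨z, hz⟩ : ℍ) : ℍ) : ℂ) = D ^ (n + n) * h z := by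
    rw [e1]
    exact hW g z hz
  have h4 := hb ((g • (⟨z, hz⟩ : ℍ) : ℍ) : ℂ) hg'.1.le hg'.2
  have him : 0 < (g • (⟨z, hz⟩ : ℍ)).im := (g • (⟨z, hz⟩ : ℍ)).im_pos
  have hDpos : 0 < Complex.normSq D := by
    rcases (Complex.normSq_nonneg D).lt_or_eq with h | h
    · exact h
    · rw [e2, ← h, div_zero] at him
      exact absurd him (lt_irrefl _)
  have e4 : ‖h z‖ * z.im ^ n = ‖h ((g • (⟨z, hz⟩ : ℍ) : ℍ) : ℂ)‖ * (g • (⟨z, hz⟩ : ℍ)).im ^ n := by
    rw [e3, e2, norm_mul, norm_pow, div_pow, ← two_mul, pow_mul, ← Complex.normSq_eq_norm_sq]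
    field_simp
  rw [e4]
  calc ‖h ((g • (⟨z, hz⟩ : ℍ) : ℍ) : ℂ)‖ * (g • (⟨z, hz⟩ : ℍ)).im ^ n
      ≤ C * Real.exp (-(δ * (g • (⟨z, hz⟩ : ℍ)).im)) * (g • (⟨z, hz⟩ : ℍ)).im ^ n :=
        mul_le_mul_of_nonneg_right h4 (by positivity)
    _ = C * ((g • (⟨z, hz⟩ : ℍ)).im ^ n * Real.exp (-(δ * (g • (⟨z, hz⟩ : ℍ)).im))) := by ring
    _ ≤ C * (n.factorial / δ ^ n) :=
        mul_le_mul_of_nonneg_left (pow_mul_exp_le n hδ him.le) hC

end RSatAux

open RSatAux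

theorem stRSat (h1 : StHH) (h2 : StTrace) (h3 : StPetU) (h4 : StFd) (_h5 : StCoef) : StRSat := by
  intro q hq F _ _ s σ χ cj w r f ψ c β hD hw hwe hβ hf
  obtain ⟨hc, -, hsz⟩ := h1 q hq F _ _ s σ χ cj w r ψ c hD (by omega) hwe
  have hre : -(r : ℝ) - 1 / 2 < (-(r : ℂ)).re := by
    rw [Complex.neg_re, Complex.natCast_re]
    linarith
  obtain ⟨-, hc2, hc3⟩ := hc (-(r : ℂ)) hre
  obtain ⟨C, δ, hδ, hC⟩ := hsz (-(r : ℝ) - 1 / 4) ‖(-(r : ℂ))‖ (by linarith)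
  set h : ℂ → ℂ := tr q w (HH q χ w r ψ c (-r)) with hh
  have hW : Wt w h := h2 q w _ hD.prime hwe hc3
  have hbd := bounded_of_fd hwe hW (C := C) (δ := δ) hδ (fun z hz1 hz2 =>
    hC (-(r : ℂ)) z (by rw [Complex.neg_re, Complex.natCast_re]; linarith) le_rfl hz1 hz2) h4
  have hm : ∀ m ∈ β.support, 1 ≤ m := by
    intro m hm
    rcases Nat.eq_zero_or_pos m with h0 | h0
    · rw [h0] at hm
      exact absurd hβ (Finsupp.mem_support_iff.1 hm)
    · exact h0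
  have key : ∀ m ∈ β.support, IntegrableOn
      (fun z : ℍ => h z * poinc w m (-conj (z : ℂ)) * (z.im : ℂ) ^ w) ModularGroup.fd ∧
      ∫ z : ℍ in ModularGroup.fd, h z * poinc w m (-conj (z : ℂ)) * (z.im : ℂ) ^ w = JJ w m h :=
    fun m hm' => h3 w m h hw hwe (hm m hm') hc2 hW hbd
  have e1 : ∀ z : ℍ, h z * f (ofComplex (-conj (z : ℂ))) * (z.im : ℂ) ^ w =
      ∑ m ∈ β.support, β m * (h z * poinc w m (-conj (z : ℂ)) * (z.im : ℂ) ^ w) := by
    intro z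
    have hz : 0 < (-conj (z : ℂ)).im := by
      rw [Complex.neg_im, Complex.conj_im, neg_neg]
      exact z.im_pos
    rw [hf, ofComplex_apply_of_im_pos hz, Finsupp.sum, Finset.mul_sum, Finset.sum_mul]
    refine Finset.sum_congr rfl fun m _ => ?_
    show h z * (β m * poinc w m (-conj (z : ℂ))) * (z.im : ℂ) ^ w = _
    ring
  unfold rsI
  rw [← hh]
  rw [Finsupp.sum, integral_congr_ae (Filter.Eventually.of_forall e1),
    integral_finsetSum _ fun m hm' => ((key m hm').1.const_mul (β m))]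
  refine Finset.sum_congr rfl fun m hm' => ?_
  rw [integral_const_mul, (key m hm').2]

end RZ

end Pool.Agent.Lib.MP_7c08ba_nt
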