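import Mathlib
import Pool.Agent.Lib.MP_7c08ba_nt.RZ.StG

set_option autoImplicit false

/-!
Module G23 of RANK ZERO: the integrand of the Rankin–Selberg integral as a sum over coprime pairs,
for every odd fundamental discriminant.
-/

namespace Pool.Agent.Lib.MP_7c08ba_nt

namespace RZ

open NumberField MeasureTheory UpperHalfPlane Set IsDedekindDomain
open scoped MatrixGroups ComplexConjugate nonZeroDivisors

namespace RSptDAux

/-! ### The action of integral matrices -/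

/-- The action on `ℂ`. -/
noncomputable def ac (g : SL(2, ℤ)) (z : ℂ) : ℂ :=
  ((g 0 0 : ℂ) * z + g 0 1) / ((g 1 0 : ℂ) * z + g 1 1)

/-- The denominator. -/
noncomputable def dn (g : SL(2, ℤ)) (z : ℂ) : ℂ := (g 1 0 : ℂ) * z + g 1 1

lemma det_eq (g : SL(2, ℤ)) : g 0 0 * g 1 1 - g 0 1 * g 1 0 = 1 := by
  have h := g.det_coe
  rwa [Matrix.det_fin_two] at h

lemma dn_ne (g : SL(2, ℤ)) {z : ℂ} (hz : 0 < z.im) : dn g z ≠ 0 := by
  intro h
  have him : (dn g z).im = 0 := by rw [h]; simp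
  simp only [dn, Complex.add_im, Complex.mul_im, Complex.intCast_re, Complex.intCast_im, zero_mul,
    add_zero] at him
  have h1 : (g 1 0 : ℝ) = 0 := by
    rcases mul_eq_zero.mp him with h | h
    · exact h
    · exact absurd h hz.ne'
  have h1' : g 1 0 = 0 := by exact_mod_cast h1
  rw [dn, h1'] at h
  simp only [Int.cast_zero, zero_mul, zero_add] at h
  have h2' : g 1 1 = 0 := by exact_mod_cast h
  have h3 := det_eq g
  rw [h1', h2'] at h3
  simp at h3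

lemma im_ac (g : SL(2, ℤ)) {z : ℂ} (hz : 0 < z.im) :
    (ac g z).im = z.im / Complex.normSq (dn g z) := by
  have hb : (g 0 0 : ℝ) * g 1 1 - g 0 1 * g 1 0 = 1 := by
    exact_mod_cast det_eq g
  have hn : Complex.normSq (dn g z) ≠ 0 := by
    rw [Ne, Complex.normSq_eq_zero]
    exact dn_ne g hz
  rw [ac, Complex.div_im]
  change _ / Complex.normSq (dn g z) - _ / Complex.normSq (dn g z) = _
  rw [← sub_div]
  congr 1
  simp only [Complex.add_im, Complex.mul_im, Complex.intCast_re, Complex.intCast_im, zero_mul,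
    add_zero, Complex.mul_re, Complex.add_re, sub_zero]
  linear_combination z.im * hb

lemma im_ac_pos (g : SL(2, ℤ)) {z : ℂ} (hz : 0 < z.im) : 0 < (ac g z).im := by
  rw [im_ac g hz]
  exact div_pos hz (Complex.normSq_pos.mpr (dn_ne g hz))

lemma mul00 (g h : SL(2, ℤ)) : (g * h) 0 0 = g 0 0 * h 0 0 + g 0 1 * h 1 0 := by
  rw [Matrix.SpecialLinearGroup.coe_mul, Matrix.mul_apply, Fin.sum_univ_two]

lemma mul01 (g h : SL(2, ℤ)) : (g * h) 0 1 = g 0 0 * h 0 1 + g 0 1 * h 1 1 := by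
  rw [Matrix.SpecialLinearGroup.coe_mul, Matrix.mul_apply, Fin.sum_univ_two]

lemma mul10 (g h : SL(2, ℤ)) : (g * h) 1 0 = g 1 0 * h 0 0 + g 1 1 * h 1 0 := by
  rw [Matrix.SpecialLinearGroup.coe_mul, Matrix.mul_apply, Fin.sum_univ_two]

lemma mul11 (g h : SL(2, ℤ)) : (g * h) 1 1 = g 1 0 * h 0 1 + g 1 1 * h 1 1 := by
  rw [Matrix.SpecialLinearGroup.coe_mul, Matrix.mul_apply, Fin.sum_univ_two]

lemma alg (p q a b c d z : ℂ) (h : c * z + d ≠ 0) :
    p * ((a * z + b) / (c * z + d)) + q = ((p * a + q * c) * z + (p * b + q * d)) /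
      (c * z + d) := by
  have h1 := div_mul_cancel₀ (a * z + b) h
  rw [eq_div_iff h]
  linear_combination p * h1

lemma ac_ac (g h : SL(2, ℤ)) {z : ℂ} (hz : 0 < z.im) : ac g (ac h z) = ac (g * h) z := by
  have h1 := dn_ne h hz
  have h2 := dn_ne (g * h) hz
  have h3 := dn_ne g (im_ac_pos h hz)
  unfold dn at h1 h2
  unfold ac
  rw [mul00, mul01, mul10, mul11]
  rw [mul10, mul11] at h2
  have e1 := alg (g 1 0) (g 1 1) (h 0 0) (h 0 1) (h 1 0) (h 1 1) z h1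
  have e2 := alg (g 0 0) (g 0 1) (h 0 0) (h 0 1) (h 1 0) (h 1 1) z h1
  rw [e1, e2, div_div_div_cancel_right₀ h1]
  push_cast
  rfl

lemma same_row (g h : SL(2, ℤ)) {z : ℂ} (hz : 0 < z.im) (h0 : g 1 0 = h 1 0)
    (h1 : g 1 1 = h 1 1) : ∃ n : ℤ, ac g z = ac h z + n := by
  have hg := det_eq g
  have hh := det_eq h
  rw [h0, h1] at hg
  have hne := dn_ne h hz
  unfold dn at hne
  refine ⟨g 0 1 * h 0 0 - g 0 0 * h 0 1, ?_⟩
  unfold ac
  rw [h0, h1, div_add' _ _ _ hne, div_left_inj' hne]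
  have hg' : (g 0 0 : ℂ) * h 1 1 - g 0 1 * h 1 0 = 1 := by exact_mod_cast hg
  have hh' : (h 0 0 : ℂ) * h 1 1 - h 0 1 * h 1 0 = 1 := by exact_mod_cast hh
  push_cast
  linear_combination (-(g 0 0 : ℂ) * z - g 0 1) * hh' + ((h 0 0 : ℂ) * z + h 0 1) * hg'

/-- The translation. -/
def tn (n : ℤ) : SL(2, ℤ) := ⟨!![1, n; 0, 1], by simp [Matrix.det_fin_two]⟩

lemma ac_tn (n : ℤ) (z : ℂ) : ac (tn n) z = z + n := by
  simp [ac, tn]

lemma bez (v : Cop) : v.1.1 * Int.gcdA v.1.1 v.1.2 + v.1.2 * Int.gcdB v.1.1 v.1.2 = 1 := by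
  have h := Int.gcd_eq_gcd_ab v.1.1 v.1.2
  rw [Int.isCoprime_iff_gcd_eq_one.mp v.2] at h
  exact_mod_cast h.symm

/-- The matrix with given bottom row. -/
def gm (v : Cop) : SL(2, ℤ) :=
  ⟨!![Int.gcdB v.1.1 v.1.2, -Int.gcdA v.1.1 v.1.2; v.1.1, v.1.2], by
    rw [Matrix.det_fin_two_of]
    linear_combination bez v⟩

lemma gm10 (v : Cop) : gm v 1 0 = v.1.1 := rfl

lemma gm11 (v : Cop) : gm v 1 1 = v.1.2 := rfl

lemma ac_gm (v : Cop) (z : ℂ) : ac (gm v) z = mob v.1 z := by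
  have h00 : gm v 0 0 = Int.gcdB v.1.1 v.1.2 := rfl
  have h01 : gm v 0 1 = -Int.gcdA v.1.1 v.1.2 := rfl
  unfold ac mob
  rw [gm10, gm11, h00, h01]
  push_cast
  rw [sub_eq_add_neg]

/-- The right action on rows. -/
def ra (g : SL(2, ℤ)) (v : Cop) : Cop :=
  ⟨(v.1.1 * g 0 0 + v.1.2 * g 1 0, v.1.1 * g 0 1 + v.1.2 * g 1 1), by
    obtain ⟨a, b, hab⟩ := v.2
    refine ⟨a * g 1 1 - b * g 0 1, -a * g 1 0 + b * g 0 0, ?_⟩
    linear_combination hab + (a * v.1.1 + b * v.1.2) * det_eq g⟩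

/-- The inverse of the right action on rows. -/
def rb (g : SL(2, ℤ)) (v : Cop) : Cop :=
  ⟨(v.1.1 * g 1 1 - v.1.2 * g 1 0, -v.1.1 * g 0 1 + v.1.2 * g 0 0), by
    obtain ⟨a, b, hab⟩ := v.2
    refine ⟨a * g 0 0 + b * g 0 1, a * g 1 0 + b * g 1 1, ?_⟩
    linear_combination hab + (a * v.1.1 + b * v.1.2) * det_eq g⟩

lemma rb_ra (g : SL(2, ℤ)) (v : Cop) : rb g (ra g v) = v := by
  refine Subtype.ext (Prod.ext ?_ ?_)
  · change (v.1.1 * g 0 0 + v.1.2 * g 1 0) * g 1 1 - (v.1.1 * g 0 1 + v.1.2 * g 1 1) * g 1 0 = v.1.1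
    linear_combination v.1.1 * det_eq g
  · change -(v.1.1 * g 0 0 + v.1.2 * g 1 0) * g 0 1 + (v.1.1 * g 0 1 + v.1.2 * g 1 1) * g 0 0 = v.1.2
    linear_combination v.1.2 * det_eq g

lemma ra_rb (g : SL(2, ℤ)) (v : Cop) : ra g (rb g v) = v := by
  refine Subtype.ext (Prod.ext ?_ ?_)
  · change (v.1.1 * g 1 1 - v.1.2 * g 1 0) * g 0 0 + (-v.1.1 * g 0 1 + v.1.2 * g 0 0) * g 1 0 = v.1.1
    linear_combination v.1.1 * det_eq g
  · change (v.1.1 * g 1 1 - v.1.2 * g 1 0) * g 0 1 + (-v.1.1 * g 0 1 + v.1.2 * g 0 0) * g 1 1 = v.1.2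
    linear_combination v.1.2 * det_eq g

/-- The right action as a permutation. -/
def re (g : SL(2, ℤ)) : Cop ≃ Cop := ⟨ra g, rb g, rb_ra g, ra_rb g⟩

lemma mob_ac (g : SL(2, ℤ)) (v : Cop) {z : ℂ} (hz : 0 < z.im) :
    ∃ n : ℤ, mob v.1 (ac g z) = mob (ra g v).1 z + n := by
  rw [← ac_gm, ← ac_gm, ac_ac _ _ hz]
  refine same_row _ _ hz ?_ ?_
  · rw [mul10]; rfl
  · rw [mul11]; rfl

/-! ### The partition of the coprime pairs -/

lemma partition {D : ℕ} (hD : D ≠ 0) (hsq : Squarefree D) (v : Cop) :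
    ∑ g ∈ D.divisors, ∑ j ∈ Finset.range (D / g),
      (if (D : ℤ) ∣ v.1.1 * (1 - g * j) + v.1.2 * g then (1 : ℂ) else 0) = 1 := by
  set c := v.1.1 with hc
  set d := v.1.2 with hd
  have hcop : IsCoprime c d := v.2
  have hg0 : Int.gcd c D ∣ D := by
    have h := Int.gcd_dvd_right c (D : ℤ)
    exact_mod_cast h
  set g0 := Int.gcd c D with hg0def
  have hg0pos : 0 < g0 := Nat.pos_of_dvd_of_pos hg0 (Nat.pos_of_ne_zero hD)
  rw [Finset.sum_eq_single g0]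
  · obtain ⟨D', hD'⟩ := hg0
    have hD'pos : 0 < D' := by
      rcases Nat.eq_zero_or_pos D' with h | h
      · rw [h, mul_zero] at hD'
        exact absurd hD' hD
      · exact h
    have hq : D / g0 = D' := by
      rw [hD']
      exact Nat.mul_div_cancel_left D' hg0pos
    have hcg : (g0 : ℤ) ∣ c := Int.gcd_dvd_left c (D : ℤ)
    obtain ⟨c', hc'⟩ := hcg
    have hcopD : IsCoprime c' (D' : ℤ) := by
      rw [Int.isCoprime_iff_gcd_eq_one]
      have h := hg0def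
      rw [hc', show (D : ℤ) = (g0 : ℤ) * (D' : ℤ) by rw [hD']; push_cast; rfl] at h
      rw [Int.gcd_mul_left] at h
      have h2 : g0 * 1 = g0 * Int.gcd c' D' := by
        rw [mul_one]
        simpa using h
      exact (Nat.eq_of_mul_eq_mul_left hg0pos h2).symm
    have hcopg : IsCoprime (g0 : ℤ) (D' : ℤ) := by
      have h : Nat.Coprime g0 D' := by
        apply Nat.coprime_of_squarefree_mul
        rw [← hD']
        exact hsq
      exact Nat.isCoprime_iff_coprime.mpr h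
    have hcopcg : IsCoprime (c' * g0) (D' : ℤ) := IsCoprime.mul_left hcopD hcopg
    have hiff : ∀ j : ℕ, ((D : ℤ) ∣ c * (1 - g0 * j) + d * g0) ↔
        (D' : ℤ) ∣ (c' + d) - (c' * g0) * j := by
      intro j
      have e1 : c * (1 - g0 * j) + d * g0 = g0 * ((c' + d) - (c' * g0) * j) := by
        rw [hc']
        ring
      rw [e1, show (D : ℤ) = (g0 : ℤ) * (D' : ℤ) by rw [hD']; push_cast; rfl]
      exact mul_dvd_mul_iff_left (by exact_mod_cast hg0pos.ne')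
    rw [hq]
    obtain ⟨x, y, hxy⟩ := hcopcg
    have hD'z : (0 : ℤ) < D' := by exact_mod_cast hD'pos
    set j0 : ℕ := ((x * (c' + d)) % (D' : ℤ)).toNat with hj0
    have hj0z : (j0 : ℤ) = (x * (c' + d)) % (D' : ℤ) := by
      rw [hj0]
      exact Int.toNat_of_nonneg (Int.emod_nonneg _ hD'z.ne')
    have hj0lt : j0 < D' := by
      have h := Int.emod_lt_of_pos (x * (c' + d)) hD'z
      rw [← hj0z] at h
      exact_mod_cast h
    have hj0dvd : (D' : ℤ) ∣ (c' + d) - (c' * g0) * j0 := by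
      have h1 : (D' : ℤ) ∣ x * (c' + d) - j0 := by
        rw [hj0z]
        exact Int.dvd_self_sub_emod
      obtain ⟨k, hk⟩ := h1
      refine ⟨y * (c' + d) + c' * g0 * k, ?_⟩
      linear_combination (-(c' + d)) * hxy + (c' * g0) * hk
    rw [Finset.sum_eq_single j0]
    · rw [if_pos ((hiff j0).mpr hj0dvd)]
    · intro j hj hne
      rw [if_neg]
      intro hdvd
      have h1 := (hiff j).mp hdvd
      have h2 : (D' : ℤ) ∣ (c' * g0) * ((j : ℤ) - j0) := by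
        have h3 := dvd_sub hj0dvd h1
        have e : (c' + d) - (c' * g0) * j0 - ((c' + d) - (c' * g0) * j) =
            (c' * g0) * ((j : ℤ) - j0) := by ring
        rwa [e] at h3
      have h4 : (D' : ℤ) ∣ (j : ℤ) - j0 :=
        (IsCoprime.dvd_of_dvd_mul_left (IsCoprime.symm ⟨x, y, hxy⟩) h2)
      have hjlt : j < D' := Finset.mem_range.mp hj
      apply hne
      have h5 : (j : ℤ) - j0 = 0 := by
        apply Int.eq_zero_of_abs_lt_dvd h4
        rw [abs_lt]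
        constructor <;> omega
      omega
    · intro h
      exact absurd (Finset.mem_range.mpr hj0lt) h
  · intro g hg hne
    refine Finset.sum_eq_zero fun j _ => ?_
    rw [if_neg]
    intro hdvd
    apply hne
    have hgD : (g : ℤ) ∣ D := by exact_mod_cast Nat.dvd_of_mem_divisors hg
    apply Nat.dvd_antisymm
    · -- g ∣ gcd
      have h1 : (g : ℤ) ∣ c := by
        have h2 := hgD.trans hdvd
        have e : c = (c * (1 - g * j) + d * g) - g * (d - c * j) := by ring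
        rw [e]
        exact dvd_sub h2 (dvd_mul_right _ _)
      exact Int.dvd_gcd h1 hgD
    · have h1 : (g0 : ℤ) ∣ c := Int.gcd_dvd_left c (D : ℤ)
      have h2 : (g0 : ℤ) ∣ (D : ℤ) := by exact_mod_cast hg0
      have h3 : (g0 : ℤ) ∣ d * g := by
        have h4 := h2.trans hdvd
        have e : d * g = (c * (1 - g * j) + d * g) - c * (1 - g * j) := by ring
        rw [e]
        exact dvd_sub h4 (h1.mul_right _)
      have h5 : IsCoprime (g0 : ℤ) d := IsCoprime.of_isCoprime_of_dvd_left hcop h1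
      have h6 : (g0 : ℤ) ∣ g := h5.dvd_of_dvd_mul_left h3
      exact_mod_cast h6
  · intro h
    exact absurd (Nat.mem_divisors.mpr ⟨hg0, hD⟩) h

/-! ### The cusp form -/

variable {w : ℕ}

lemma f_ac (f : CuspForm 𝒮ℒ (w : ℤ)) (g : SL(2, ℤ)) {z : ℂ} (hz : 0 < z.im) :
    f (ofComplex (ac g z)) = dn g z ^ w * f (ofComplex z) := by
  have h := SlashInvariantForm.slash_action_eqn'' (Γ := 𝒮ℒ) f
    (γ := (g : GL (Fin 2) ℝ)) ⟨g, rfl⟩ ⟨z, hz⟩
  have h1 : ((g • (⟨z, hz⟩ : ℍ) : ℍ) : ℂ) = ac g z := by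
    rw [coe_specialLinearGroup_apply]
    simp [ac]
  rw [← h1, ofComplex_apply, ofComplex_apply_of_im_pos hz]
  have h2 : denom (g : GL (Fin 2) ℝ) (⟨z, hz⟩ : ℍ) = dn g z :=
    ModularGroup.denom_apply g ⟨z, hz⟩
  rw [h2, zpow_natCast] at h
  exact h

/-- The conjugate matrix. -/
def nc (g : SL(2, ℤ)) : SL(2, ℤ) :=
  ⟨!![g 0 0, -g 0 1; -g 1 0, g 1 1], by
    rw [Matrix.det_fin_two_of]
    linear_combination det_eq g⟩

lemma ac_nc (g : SL(2, ℤ)) (z : ℂ) : -conj (ac g z) = ac (nc g) (-conj z) := by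
  have h00 : nc g 0 0 = g 0 0 := rfl
  have h01 : nc g 0 1 = -g 0 1 := rfl
  have h10 : nc g 1 0 = -g 1 0 := rfl
  have h11 : nc g 1 1 = g 1 1 := rfl
  unfold ac
  rw [h00, h01, h10, h11, map_div₀, map_add, map_add, map_mul, map_mul, map_intCast, map_intCast,
    map_intCast, map_intCast, neg_div']
  push_cast
  congr 1 <;> ring

lemma dn_nc (g : SL(2, ℤ)) (z : ℂ) : dn (nc g) (-conj z) = conj (dn g z) := by
  have h10 : nc g 1 0 = -g 1 0 := rfl
  have h11 : nc g 1 1 = g 1 1 := rfl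
  unfold dn
  rw [h10, h11, map_add, map_mul, map_intCast, map_intCast]
  push_cast
  ring

lemma fb_ac (f : CuspForm 𝒮ℒ (w : ℤ)) (g : SL(2, ℤ)) {z : ℂ} (hz : 0 < z.im) :
    f (ofComplex (-conj (ac g z))) = conj (dn g z) ^ w * f (ofComplex (-conj z)) := by
  have hz' : 0 < (-conj z).im := by simpa using hz
  rw [ac_nc, f_ac f _ hz', dn_nc]

/-! ### Powers -/

lemma pow_im (n : ℕ) (t : ℂ) {y N : ℝ} (hy : 0 < y) (hN : 0 < N) :
    ((y / N : ℝ) : ℂ) ^ ((n : ℂ) + t) =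
      (y : ℂ) ^ n * (y : ℂ) ^ t * ((N : ℂ) ^ n)⁻¹ * (N : ℂ) ^ (-t) := by
  have hyN : ((y / N : ℝ) : ℂ) ≠ 0 := by
    exact_mod_cast (div_pos hy hN).ne'
  have hN' : (N : ℂ) ≠ 0 := by exact_mod_cast hN.ne'
  rw [Complex.cpow_add _ _ hyN, Complex.cpow_natCast]
  have h1 : ((y / N : ℝ) : ℂ) ^ t = (y : ℂ) ^ t * (N : ℂ) ^ (-t) := by
    rw [div_eq_mul_inv, Complex.ofReal_mul,
      Complex.mul_cpow_ofReal_nonneg hy.le (inv_pos.mpr hN).le, Complex.ofReal_inv]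
    congr 1
    rw [Complex.inv_cpow _ _ (by rw [Complex.arg_ofReal_of_nonneg hN.le]; exact Real.pi_pos.ne),
      Complex.cpow_neg]
  rw [h1, Complex.ofReal_div, div_pow]
  field_simp

/-! ### The character and its L-function -/

lemma conj_L {D : ℕ} [NeZero D] (χ : DirichletCharacter ℂ D) (hχ : ∀ n : ℤ, conj (χ n) = χ n)
    {s : ℂ} (hs : 1 < s.re) :
    conj (DirichletCharacter.LFunction χ (conj s)) = DirichletCharacter.LFunction χ s := by
  have hs' : 1 < (conj s).re := by simpa using hs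
  rw [DirichletCharacter.LFunction_eq_LSeries χ hs, DirichletCharacter.LFunction_eq_LSeries χ hs']
  unfold LSeries
  rw [Complex.conj_tsum]
  refine tsum_congr fun n => ?_
  rcases eq_or_ne n 0 with rfl | hn
  · simp
  · rw [LSeries.term_of_ne_zero hn, LSeries.term_of_ne_zero hn, map_div₀]
    have h1 : conj (χ (n : ZMod D)) = χ (n : ZMod D) := by
      have h := hχ n
      simpa using h
    rw [h1]
    congr 1
    rw [Complex.cpow_conj _ _ (by rw [Complex.natCast_arg]; exact Real.pi_pos.ne),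
      Complex.conj_conj, Complex.conj_natCast]

/-! ### One coset -/

/-- The summand. -/
noncomputable def GG {w : ℕ} (r : ℕ) (Θ : ℂ → ℂ) (f : CuspForm 𝒮ℒ (w : ℤ)) (t u : ℂ) : ℂ :=
  Θ u * f (ofComplex (-conj u)) * (u.im : ℂ) ^ ((w : ℂ) + 2 * r + 1 + t)

lemma GG_int {D : ℕ} (χ : DirichletCharacter ℂ D) (r : ℕ) (Θ : ℂ → ℂ)
    (f : CuspForm 𝒮ℒ (w : ℤ)) (t : ℂ) (hΘ : Wq D χ (w + 2 * r + 1) Θ) (n : ℤ) {z : ℂ}
    (hz : 0 < z.im) : GG r Θ f t (z + n) = GG r Θ f t z := by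
  have h1 : Θ (z + n) = Θ z := by
    have h := hΘ (tn n) z hz (by simp [tn])
    have h2 := ac_tn n z
    unfold ac at h2
    rw [h2] at h
    simpa [tn] using h
  have h2 : f (ofComplex (-conj (z + n))) = f (ofComplex (-conj z)) := by
    have h := fb_ac f (tn n) hz
    rw [ac_tn] at h
    simpa [tn, dn] using h
  have h3 : (z + n).im = z.im := by simp
  unfold GG
  rw [h1, h2, h3]

lemma term_eq {D : ℕ} (χ : DirichletCharacter ℂ D) (r : ℕ) (Θ : ℂ → ℂ)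
    (f : CuspForm 𝒮ℒ (w : ℤ)) (t : ℂ) (hΘ : Wq D χ (w + 2 * r + 1) Θ)
    (hχ : ∀ n : ℤ, conj (χ n) = χ n) (hχ2 : ∀ n : ℤ, IsCoprime n (D : ℤ) → χ n * χ n = 1)
    (v : Cop) {z : ℂ} (hz : 0 < z.im) :
    Θ z * (z.im : ℂ) ^ t * (z.im : ℂ) ^ (2 * r + 1) * f (ofComplex (-conj z)) *
      (z.im : ℂ) ^ w * conj ((if (D : ℤ) ∣ v.1.1 then χ (v.1.2 : ℤ) else 0) *
        (((v.1.1 : ℂ) * z + v.1.2) ^ (2 * r + 1))⁻¹ *
          ((Complex.normSq ((v.1.1 : ℂ) * z + v.1.2) : ℝ) : ℂ) ^ (-conj t)) =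
      if (D : ℤ) ∣ v.1.1 then GG r Θ f t (mob v.1 z) else 0 := by
  by_cases hv : (D : ℤ) ∣ v.1.1
  · rw [if_pos hv, if_pos hv]
    have hcop : IsCoprime v.1.2 (D : ℤ) := IsCoprime.of_isCoprime_of_dvd_right v.2.symm hv
    have hx := hχ2 _ hcop
    have hdn : dn (gm v) z = (v.1.1 : ℂ) * z + v.1.2 := rfl
    have hd0 : dn (gm v) z ≠ 0 := dn_ne _ hz
    have hd1 : conj (dn (gm v) z) ≠ 0 := by simpa using hd0
    have hN : 0 < Complex.normSq (dn (gm v) z) := Complex.normSq_pos.mpr hd0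
    have hNe : ((Complex.normSq (dn (gm v) z) : ℝ) : ℂ) = dn (gm v) z * conj (dn (gm v) z) :=
      (Complex.mul_conj _).symm
    have hΘv : Θ (mob v.1 z) = χ (v.1.2 : ℤ) * dn (gm v) z ^ (w + 2 * r + 1) * Θ z := by
      have h := hΘ (gm v) z hz hv
      have h2 := ac_gm v z
      unfold ac at h2
      rw [h2] at h
      exact h
    have hfv := fb_ac f (gm v) hz
    have himv := im_ac (gm v) hz
    rw [ac_gm] at hfv himv
    have hcast : ((w : ℂ) + 2 * r + 1 + t) = ((w + 2 * r + 1 : ℕ) : ℂ) + t := by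
      push_cast
      ring
    unfold GG
    rw [hΘv, hfv, himv, hcast, pow_im _ _ hz hN, ← hdn, map_mul, map_mul, hχ, map_inv₀, map_pow]
    have hcj : conj (((Complex.normSq (dn (gm v) z) : ℝ) : ℂ) ^ (-conj t)) =
        ((Complex.normSq (dn (gm v) z) : ℝ) : ℂ) ^ (-t) := by
      rw [← map_neg, Complex.cpow_conj _ _ (by
        rw [Complex.arg_ofReal_of_nonneg hN.le]; exact Real.pi_pos.ne), Complex.conj_conj,
        Complex.conj_ofReal]
    rw [hcj]
    generalize ((Complex.normSq (dn (gm v) z) : ℝ) : ℂ) ^ (-t) = X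
    rw [hNe, mul_pow]
    have e1 : dn (gm v) z ^ (w + 2 * r + 1) * (dn (gm v) z ^ (w + 2 * r + 1))⁻¹ = 1 :=
      mul_inv_cancel₀ (pow_ne_zero _ hd0)
    have e2 : conj (dn (gm v) z) ^ w * (conj (dn (gm v) z) ^ (w + 2 * r + 1))⁻¹ =
        (conj (dn (gm v) z) ^ (2 * r + 1))⁻¹ := by
      rw [show w + 2 * r + 1 = w + (2 * r + 1) by ring, pow_add, mul_inv, ← mul_assoc,
        mul_inv_cancel₀ (pow_ne_zero _ hd1), one_mul]
    have e3 : ((z.im : ℝ) : ℂ) ^ (w + 2 * r + 1) =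
        ((z.im : ℝ) : ℂ) ^ w * ((z.im : ℝ) : ℂ) ^ (2 * r + 1) := by
      rw [← pow_add]
      congr 1
    rw [mul_inv, e3, ← e2]
    linear_combination (-(Θ z * χ (v.1.2 : ℤ) * ((z.im : ℝ) : ℂ) ^ w * ((z.im : ℝ) : ℂ) ^ (2 * r + 1) *
      ((z.im : ℝ) : ℂ) ^ t * X * f (ofComplex (-conj z)) *
        (conj (dn (gm v) z) ^ w * (conj (dn (gm v) z) ^ (w + 2 * r + 1))⁻¹))) * e1
  · rw [if_neg hv, if_neg hv]
    simp

lemma one_coset (h1 : StEisBigD) {D : ℕ} [NeZero D] (χ : DirichletCharacter ℂ D) (r : ℕ)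
    (Θ : ℂ → ℂ) (f : CuspForm 𝒮ℒ (w : ℤ)) {t : ℂ} (hΘ : Wq D χ (w + 2 * r + 1) Θ)
    (hχ : ∀ n : ℤ, conj (χ n) = χ n) (hχ2 : ∀ n : ℤ, IsCoprime n (D : ℤ) → χ n * χ n = 1)
    (hD : OddD D) (hχj : ∀ n : ℤ, χ n = (jacobiSym n D : ℂ))
    (ht : 1 / 2 - (r : ℝ) < t.re) {z : ℂ} (hz : 0 < z.im) :
    ∃ A : ℂ, HasSum (fun v : Cop => if (D : ℤ) ∣ v.1.1 then GG r Θ f t (mob v.1 z) else 0) A ∧
      Θ z * conj (eis D χ r (conj t) z) * (z.im : ℂ) ^ (2 * r + 1) * f (ofComplex (-conj z)) *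
        (z.im : ℂ) ^ w = 1 / 2 * DirichletCharacter.LFunction χ (2 * r + 1 + 2 * t) * A := by
  obtain ⟨hs, he⟩ := h1 D inferInstance χ r hD hχj (conj t) z (by simpa using ht) hz
  set X : Cop → ℂ := fun v => (((v.1.1 : ℂ) * z + v.1.2) ^ (2 * r + 1))⁻¹ *
    ((Complex.normSq ((v.1.1 : ℂ) * z + v.1.2) : ℝ) : ℂ) ^ (-conj t) with hX
  set Y : Cop → ℂ := fun v => (if (D : ℤ) ∣ v.1.1 then χ (v.1.2 : ℤ) else 0) *
    (((v.1.1 : ℂ) * z + v.1.2) ^ (2 * r + 1))⁻¹ *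
    ((Complex.normSq ((v.1.1 : ℂ) * z + v.1.2) : ℝ) : ℂ) ^ (-conj t) with hY
  have hYs : Summable Y := by
    refine Summable.of_norm_bounded hs fun v => ?_
    rw [hY]
    simp only
    rw [mul_assoc, norm_mul]
    refine mul_le_of_le_one_left (norm_nonneg _) ?_
    split_ifs
    · exact DirichletCharacter.norm_le_one χ _
    · simp
  have hYc : HasSum (fun v => conj (Y v)) (conj (∑' v, Y v)) :=
    hYs.hasSum.map (starRingEnd ℂ) Complex.continuous_conj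
  set C : ℂ := Θ z * (z.im : ℂ) ^ t * (z.im : ℂ) ^ (2 * r + 1) * f (ofComplex (-conj z)) *
      (z.im : ℂ) ^ w with hC
  refine ⟨C * conj (∑' v, Y v), ?_, ?_⟩
  · have h3 := hYc.mul_left C
    have h4 : (fun v => C * conj (Y v)) =
        fun v : Cop => if (D : ℤ) ∣ v.1.1 then GG r Θ f t (mob v.1 z) else 0 :=
      funext fun v => term_eq χ r Θ f t hΘ hχ hχ2 v hz
    rwa [h4] at h3
  · have h5 : (∑' v : Cop, (if (D : ℤ) ∣ v.1.1 then χ (v.1.2 : ℤ) else 0) *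
        (((v.1.1 : ℂ) * z + v.1.2) ^ (2 * r + 1))⁻¹ *
        ((Complex.normSq ((v.1.1 : ℂ) * z + v.1.2) : ℝ) : ℂ) ^ (-conj t) *
          (z.im : ℂ) ^ (conj t)) = (∑' v, Y v) * (z.im : ℂ) ^ (conj t) := by
      rw [← tsum_mul_right]
    have h6 : conj ((z.im : ℂ) ^ (conj t)) = (z.im : ℂ) ^ t := by
      rw [Complex.cpow_conj _ _ (by
        rw [Complex.arg_ofReal_of_nonneg hz.le]; exact Real.pi_pos.ne), Complex.conj_conj,
        Complex.conj_ofReal]
    have h7 : conj (DirichletCharacter.LFunction χ (2 * r + 1 + 2 * conj t)) =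
        DirichletCharacter.LFunction χ (2 * r + 1 + 2 * t) := by
      have h8 : (2 * (r : ℂ) + 1 + 2 * conj t) = conj (2 * (r : ℂ) + 1 + 2 * t) := by
        rw [map_add, map_add, map_mul, map_mul, map_one, map_natCast, map_ofNat]
      rw [h8]
      refine conj_L χ hχ ?_
      have h9 : (2 * (r : ℂ) + 1 + 2 * t).re = 2 * r + 1 + 2 * t.re := by simp
      rw [h9]
      linarith
    have h10 : conj (1 / 2 : ℂ) = 1 / 2 := by
      rw [map_div₀, map_one, map_ofNat]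
    rw [he, h5, map_mul, map_mul, map_mul, h6, h7, h10, hC]
    ring

lemma chi_conj {D : ℕ} (χ : DirichletCharacter ℂ D)
    (hχj : ∀ n : ℤ, χ n = (jacobiSym n D : ℂ)) (n : ℤ) : conj (χ n) = χ n := by
  rw [hχj, map_intCast]

lemma chi_sq {D : ℕ} (χ : DirichletCharacter ℂ D)
    (hχj : ∀ n : ℤ, χ n = (jacobiSym n D : ℂ)) (n : ℤ) (h : IsCoprime n (D : ℤ)) :
    χ n * χ n = 1 := by
  rw [hχj, ← Int.cast_mul, ← sq, jacobiSym.sq_one (Int.isCoprime_iff_gcd_eq_one.mp h)]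
  simp

/-- The representatives of the cosets. -/
def sg (g j : ℕ) : SL(2, ℤ) :=
  ⟨!![1, (j : ℤ); -(g : ℤ), 1 - g * j], by
    rw [Matrix.det_fin_two_of]
    ring⟩

lemma ac_sg (g j : ℕ) (z : ℂ) : ac (sg g j) z = (z + j) / (1 - g * (z + j)) := by
  have h00 : sg g j 0 0 = 1 := rfl
  have h01 : sg g j 0 1 = j := rfl
  have h10 : sg g j 1 0 = -(g : ℤ) := rfl
  have h11 : sg g j 1 1 = 1 - g * j := rfl
  unfold ac
  rw [h00, h01, h10, h11]
  push_cast
  congr 1 <;> ring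

lemma dn_sg (g j : ℕ) (z : ℂ) : dn (sg g j) z = 1 - g * (z + j) := by
  have h10 : sg g j 1 0 = -(g : ℤ) := rfl
  have h11 : sg g j 1 1 = 1 - g * j := rfl
  unfold dn
  rw [h10, h11]
  push_cast
  ring

lemma main_sum (h1 : StEisBigD) {D : ℕ} [NeZero D] (χ : DirichletCharacter ℂ D) (r : ℕ)
    (Θ : ℂ → ℂ) (f : CuspForm 𝒮ℒ (w : ℤ)) {t : ℂ} (hΘ : Wq D χ (w + 2 * r + 1) Θ)
    (hD : OddD D) (hχj : ∀ n : ℤ, χ n = (jacobiSym n D : ℂ))
    (ht : 1 / 2 - (r : ℝ) < t.re) {z : ℂ} (hz : 0 < z.im) :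
    trD D w (fun u => Θ u * conj (eis D χ r (conj t) u) * (u.im : ℂ) ^ (2 * r + 1)) z *
      f (ofComplex (-conj z)) * (z.im : ℂ) ^ w =
      1 / 2 * DirichletCharacter.LFunction χ (2 * r + 1 + 2 * t) *
        ∑' v : Cop, GG r Θ f t (mob v.1 z) := by
  have hχ := chi_conj χ hχj
  have hχ2 := chi_sq χ hχj
  have hone : ∀ g j : ℕ, ∃ A : ℂ,
      HasSum (fun v : Cop => if (D : ℤ) ∣ v.1.1 * (1 - g * j) + v.1.2 * g then
        GG r Θ f t (mob v.1 z) else 0) A ∧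
      ((1 - g * (z + j)) ^ w)⁻¹ * (Θ ((z + j) / (1 - g * (z + j))) *
        conj (eis D χ r (conj t) ((z + j) / (1 - g * (z + j)))) *
        (((z + j) / (1 - g * (z + j))).im : ℂ) ^ (2 * r + 1)) * f (ofComplex (-conj z)) *
        (z.im : ℂ) ^ w = 1 / 2 * DirichletCharacter.LFunction χ (2 * r + 1 + 2 * t) * A := by
    intro g j
    obtain ⟨A, hA, hA2⟩ := one_coset h1 χ r Θ f hΘ hχ hχ2 hD hχj ht (im_ac_pos (sg g j) hz)
    refine ⟨A, ?_, ?_⟩
    · have h3 : (fun v : Cop => if (D : ℤ) ∣ v.1.1 then GG r Θ f t (mob v.1 (ac (sg g j) z)) else 0)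
          = (fun v : Cop => if (D : ℤ) ∣ v.1.1 * (1 - g * j) + v.1.2 * g then
              GG r Θ f t (mob v.1 z) else 0) ∘ (re (sg g j)) := by
        funext v
        have h4 : GG r Θ f t (mob v.1 (ac (sg g j) z)) =
            GG r Θ f t (mob (ra (sg g j) v).1 z) := by
          obtain ⟨n, hn⟩ := mob_ac (sg g j) v hz
          rw [hn]
          refine GG_int χ r Θ f t hΘ n ?_
          rw [← ac_gm]
          exact im_ac_pos _ hz
        have h5 : ((ra (sg g j) v).1.1 * (1 - g * j) + (ra (sg g j) v).1.2 * g : ℤ) = v.1.1 := by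
          have h6 := rb_ra (sg g j) v
          have h7 : (rb (sg g j) (ra (sg g j) v)).1.1 =
            (ra (sg g j) v).1.1 * (1 - g * j) - (ra (sg g j) v).1.2 * (-(g : ℤ)) := rfl
          rw [h6] at h7
          rw [h7]
          ring
        simp only [Function.comp_apply]
        change _ = if (D : ℤ) ∣ (ra (sg g j) v).1.1 * (1 - g * j) + (ra (sg g j) v).1.2 * g then
          GG r Θ f t (mob (ra (sg g j) v).1 z) else 0
        rw [h5, h4]
      rw [h3] at hA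
      exact (Equiv.hasSum_iff (re (sg g j))).mp hA
    · rw [← hA2, ← ac_sg, fb_ac f _ hz, ← dn_sg]
      have hd0 : dn (sg g j) z ≠ 0 := dn_ne _ hz
      have hd1 : conj (dn (sg g j) z) ≠ 0 := by simpa using hd0
      have hN : ((Complex.normSq (dn (sg g j) z) : ℝ) : ℂ) =
          dn (sg g j) z * conj (dn (sg g j) z) := (Complex.mul_conj _).symm
      have h8 : (((ac (sg g j) z).im : ℝ) : ℂ) ^ w = (z.im : ℂ) ^ w *
          ((dn (sg g j) z ^ w)⁻¹ * (conj (dn (sg g j) z) ^ w)⁻¹) := by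
        rw [im_ac _ hz, Complex.ofReal_div, hN, div_pow, mul_pow, div_eq_mul_inv, mul_inv]
      have h9 : conj (dn (sg g j) z) ^ w * (conj (dn (sg g j) z) ^ w)⁻¹ = 1 :=
        mul_inv_cancel₀ (pow_ne_zero _ hd1)
      rw [h8]
      linear_combination (-((dn (sg g j) z ^ w)⁻¹ * (Θ (ac (sg g j) z) *
        conj (eis D χ r (conj t) (ac (sg g j) z)) *
        ((ac (sg g j) z).im : ℂ) ^ (2 * r + 1)) * f (ofComplex (-conj z)) *
        (z.im : ℂ) ^ w)) * h9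
  choose A hA hA2 using hone
  have h10 : HasSum (fun v : Cop => ∑ g ∈ D.divisors, ∑ j ∈ Finset.range (D / g),
      (if (D : ℤ) ∣ v.1.1 * (1 - g * j) + v.1.2 * g then GG r Θ f t (mob v.1 z) else 0))
      (∑ g ∈ D.divisors, ∑ j ∈ Finset.range (D / g), A g j) :=
    hasSum_sum fun g _ => hasSum_sum fun j _ => hA g j
  have h11 : (fun v : Cop => ∑ g ∈ D.divisors, ∑ j ∈ Finset.range (D / g),
      (if (D : ℤ) ∣ v.1.1 * (1 - g * j) + v.1.2 * g then GG r Θ f t (mob v.1 z) else 0)) =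
      fun v : Cop => GG r Θ f t (mob v.1 z) := by
    funext v
    have h12 := partition (NeZero.ne D) hD.1 v
    calc ∑ g ∈ D.divisors, ∑ j ∈ Finset.range (D / g),
          (if (D : ℤ) ∣ v.1.1 * (1 - g * j) + v.1.2 * g then GG r Θ f t (mob v.1 z) else 0)
        = (∑ g ∈ D.divisors, ∑ j ∈ Finset.range (D / g),
          (if (D : ℤ) ∣ v.1.1 * (1 - g * j) + v.1.2 * g then (1 : ℂ) else 0)) *
            GG r Θ f t (mob v.1 z) := by
          rw [Finset.sum_mul]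
          refine Finset.sum_congr rfl fun g _ => ?_
          rw [Finset.sum_mul]
          refine Finset.sum_congr rfl fun j _ => ?_
          split_ifs
          · rw [one_mul]
          · rw [zero_mul]
      _ = GG r Θ f t (mob v.1 z) := by rw [h12, one_mul]
  rw [h11] at h10
  rw [h10.tsum_eq, Finset.mul_sum]
  unfold trD
  rw [Finset.sum_mul, Finset.sum_mul]
  refine Finset.sum_congr rfl fun g _ => ?_
  rw [Finset.sum_mul, Finset.sum_mul, Finset.mul_sum]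
  refine Finset.sum_congr rfl fun j _ => ?_
  exact hA2 g j

end RSptDAux

open RSptDAux in
/-- (G23) -/
theorem stRSptD (h1 : StEisBigD) (h2 : StThGD) (_h3 : StBasD) (_h4 : StThBD) : StRSptD := by
  intro D hN F hF hNF s σ χ cj w r f ψ c hD hw hev t z ht hz
  have hΘ : Wq D χ (w + 2 * r + 1) (thψ (w + 2 * r) ψ c) := by
    intro g u hu hg
    unfold thψ
    have hk : Even (w + 2 * r) := hev.add (even_two_mul r)
    have h5 : ∀ A : ClassGroup (𝓞 F), th σ (c.R A : Ideal (𝓞 F)) (w + 2 * r)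
        (((g 0 0 : ℂ) * u + g 0 1) / ((g 1 0 : ℂ) * u + g 1 1)) =
        χ (g 1 1 : ℤ) * ((g 1 0 : ℂ) * u + g 1 1) ^ (w + 2 * r + 1) *
          th σ (c.R A : Ideal (𝓞 F)) (w + 2 * r) u := fun A =>
      h2 D F hF hNF s σ χ cj (c.R A : Ideal (𝓞 F)) (w + 2 * r) hD
        (nonZeroDivisors.coe_ne_zero (c.R A)) hk g u hu hg
    simp only [h5]
    have h6 : ∀ X Y : ℂ, X * (1 / 2 * Y) = 1 / 2 * (X * Y) := fun X Y => by ring
    rw [h6]
    congr 1
    rw [Finset.mul_sum]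
    refine Finset.sum_congr rfl fun A _ => ?_
    ring
  exact main_sum h1 χ r (thψ (w + 2 * r) ψ c) f hΘ hD.odd hD.chi ht hz

end RZ

end Pool.Agent.Lib.MP_7c08ba_nt
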