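import Mathlib
import Pool.Agent.Lib.MP_7c08ba_nt.RZ.StA

set_option autoImplicit false

/-!
Raising the weight of a theta identity from one to `2 * r + 1` with Laguerre polynomials, through
the generating function of the Laguerre polynomials.
-/

namespace Pool.Agent.Lib.MP_7c08ba_nt

namespace RZ

namespace RaiseAux

open scoped ComplexConjugate Topology

/-- Exchange of the two summations of an absolutely summable double series. -/
lemma exch {β γ : Type} (f : β × γ → ℂ) (hf : Summable fun p => ‖f p‖) (g : β → ℂ) (h : γ → ℂ)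
    (S : ℂ) (hg : ∀ b, HasSum (fun c => f (b, c)) (g b))
    (hh : ∀ c, HasSum (fun b => f (b, c)) (h c)) (hS : HasSum h S) : HasSum g S := by
  obtain ⟨a, ha⟩ := hf.of_norm
  have h1 : HasSum g a := ha.prod_fiberwise hg
  have ha' : HasSum (f ∘ (Equiv.prodComm γ β)) a := (Equiv.hasSum_iff _).2 ha
  have h2 : HasSum h a := ha'.prod_fiberwise (fun c => hh c)
  rwa [h2.unique hS] at h1

lemma choose_hasSum {R : Type} [RCLike R] (j : ℕ) (t : R) (ht : ‖t‖ < 1) :
    HasSum (fun r : ℕ => (r.choose j : R) * t ^ r) (t ^ j * (1 / (1 - t) ^ (j + 1))) := by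
  have h := (hasSum_choose_mul_geometric_of_norm_lt_one j ht).mul_left (t ^ j)
  have h0 : ∑ i ∈ Finset.range j, (i.choose j : R) * t ^ i = 0 := by
    refine Finset.sum_eq_zero fun i hi => ?_
    rw [Nat.choose_eq_zero_of_lt (Finset.mem_range.1 hi)]
    simp
  have h2 := (hasSum_nat_add_iff (f := fun r : ℕ => (r.choose j : R) * t ^ r) j
    (g := t ^ j * (1 / (1 - t) ^ (j + 1)))).1 (by
      refine h.congr_fun fun n => ?_
      rw [pow_add]; ring)
  rw [h0, add_zero] at h2
  exact h2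

lemma exp_hasSum (z : ℂ) :
    HasSum (fun j : ℕ => z ^ j / (j.factorial : ℂ)) (Complex.exp z) := by
  rw [Complex.exp_eq_exp_ℂ]
  exact NormedSpace.expSeries_div_hasSum_exp z

lemma lag_gen_summable (x t : ℂ) (ht : ‖t‖ < 1) :
    Summable fun p : ℕ × ℕ => ‖(-x) ^ p.2 / (p.2.factorial : ℂ) *
      ((p.1.choose p.2 : ℂ) * t ^ p.1)‖ := by
  have ht' : ‖(‖t‖ : ℝ)‖ < 1 := by rwa [norm_norm]
  have hs : Summable fun p : ℕ × ℕ => ‖x‖ ^ p.1 / (p.1.factorial : ℝ) *
      ((p.2.choose p.1 : ℝ) * ‖t‖ ^ p.2) := by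
    refine (summable_prod_of_nonneg fun p => ?_).2 ⟨fun j => ?_, ?_⟩
    · exact mul_nonneg (by positivity) (by positivity)
    · have := ((choose_hasSum (R := ℝ) j ‖t‖ ht').summable).mul_left
        (‖x‖ ^ j / (j.factorial : ℝ))
      exact this
    · have h1 : ∀ j : ℕ, ∑' r : ℕ, ‖x‖ ^ j / (j.factorial : ℝ) * ((r.choose j : ℝ) * ‖t‖ ^ r) =
          (1 - ‖t‖)⁻¹ * ((‖x‖ * ‖t‖ / (1 - ‖t‖)) ^ j / (j.factorial : ℝ)) := by
        intro j
        rw [tsum_mul_left, (choose_hasSum (R := ℝ) j ‖t‖ ht').tsum_eq, div_pow, mul_pow, pow_succ]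
        have : 1 - ‖t‖ ≠ 0 := by linarith
        field_simp
      have h2 := (Real.summable_pow_div_factorial (‖x‖ * ‖t‖ / (1 - ‖t‖))).mul_left ((1 - ‖t‖)⁻¹)
      exact h2.congr fun j => (h1 j).symm
  have hs' := (Equiv.prodComm ℕ ℕ).summable_iff.2 hs
  refine hs'.congr fun p => ?_
  simp [norm_pow]

/-- The generating function of the Laguerre polynomials. -/
lemma lag_gen (x t : ℂ) (ht : ‖t‖ < 1) :
    HasSum (fun r : ℕ => lag r x * t ^ r) ((1 - t)⁻¹ * Complex.exp (-(x * t / (1 - t)))) := by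
  have h1t : (1 : ℂ) - t ≠ 0 := by
    intro h
    have : t = 1 := by linear_combination -h
    rw [this] at ht
    simp at ht
  have hA : ∀ r : ℕ, HasSum (fun j : ℕ => (-x) ^ j / (j.factorial : ℂ) *
      ((r.choose j : ℂ) * t ^ r)) (lag r x * t ^ r) := by
    intro r
    have h : HasSum (fun j : ℕ => (-x) ^ j / (j.factorial : ℂ) * ((r.choose j : ℂ) * t ^ r))
        (∑ j ∈ Finset.range (r + 1), (-x) ^ j / (j.factorial : ℂ) *
          ((r.choose j : ℂ) * t ^ r)) := by
      refine hasSum_sum_of_ne_finset_zero fun j hj => ?_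
      rw [Finset.mem_range, not_lt] at hj
      rw [Nat.choose_eq_zero_of_lt (by omega)]
      simp
    convert h using 1
    rw [lag, Finset.sum_mul]
    refine Finset.sum_congr rfl fun j _ => ?_
    ring
  have hB : ∀ j : ℕ, HasSum (fun r : ℕ => (-x) ^ j / (j.factorial : ℂ) *
      ((r.choose j : ℂ) * t ^ r))
      ((-x) ^ j / (j.factorial : ℂ) * (t ^ j * (1 / (1 - t) ^ (j + 1)))) := by
    intro j
    exact (choose_hasSum (R := ℂ) j t ht).mul_left _
  have hC : HasSum (fun j : ℕ => (-x) ^ j / (j.factorial : ℂ) * (t ^ j * (1 / (1 - t) ^ (j + 1))))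
      ((1 - t)⁻¹ * Complex.exp (-(x * t / (1 - t)))) := by
    have h := (exp_hasSum (-(x * t / (1 - t)))).mul_left ((1 - t)⁻¹)
    have e : (fun j : ℕ => (-x) ^ j / (j.factorial : ℂ) * (t ^ j * (1 / (1 - t) ^ (j + 1)))) =
        fun j : ℕ => (1 - t)⁻¹ * ((-(x * t / (1 - t))) ^ j / (j.factorial : ℂ)) := by
      funext j
      have e1 : (-(x * t / (1 - t))) ^ j = (-x) ^ j * t ^ j / (1 - t) ^ j := by
        rw [← mul_pow, ← div_pow]
        congr 1
        ring
      rw [e1, pow_succ]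
      have : (j.factorial : ℂ) ≠ 0 := by exact_mod_cast j.factorial_ne_zero
      field_simp
    rw [e]
    exact h
  exact exch (fun p : ℕ × ℕ => (-x) ^ p.2 / (p.2.factorial : ℂ) *
    ((p.1.choose p.2 : ℂ) * t ^ p.1)) (lag_gen_summable x t ht) _ _ _ hA hB hC

/-- The absolute majorant. -/
lemma lag_norm (r : ℕ) (x : ℝ) (hx : 0 ≤ x) : ‖lag r (x : ℂ)‖ ≤ (lag r (-(x : ℂ))).re := by
  have h1 : lag r (-(x : ℂ)) = ((∑ j ∈ Finset.range (r + 1), (r.choose j : ℝ) * x ^ j /
      (j.factorial : ℝ) : ℝ) : ℂ) := by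
    rw [lag]
    push_cast
    simp
  rw [h1, Complex.ofReal_re, lag]
  refine (norm_sum_le _ _).trans (Finset.sum_le_sum fun j _ => ?_)
  rw [norm_div, norm_mul, norm_pow, norm_neg, Complex.norm_real, Real.norm_of_nonneg hx,
    Complex.norm_natCast, Complex.norm_natCast]

lemma lag_maj (x τ : ℝ) (hτ : 0 ≤ τ) (hτ1 : τ < 1) :
    HasSum (fun r : ℕ => (lag r (-(x : ℂ))).re * τ ^ r)
      ((1 - τ)⁻¹ * Real.exp (x * τ / (1 - τ))) := by
  have h := lag_gen (-(x : ℂ)) (τ : ℂ) (by
    rw [Complex.norm_real, Real.norm_of_nonneg hτ]; exact hτ1)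
  have h2 := Complex.hasSum_re h
  have e1 : (((1 : ℂ) - (τ : ℂ))⁻¹ * Complex.exp (-(-(x : ℂ) * (τ : ℂ) / (1 - (τ : ℂ))))).re =
      (1 - τ)⁻¹ * Real.exp (x * τ / (1 - τ)) := by
    have : ((1 : ℂ) - (τ : ℂ))⁻¹ * Complex.exp (-(-(x : ℂ) * (τ : ℂ) / (1 - (τ : ℂ)))) =
        (((1 - τ)⁻¹ * Real.exp (x * τ / (1 - τ)) : ℝ) : ℂ) := by
      push_cast
      congr 2
      ring
    rw [this, Complex.ofReal_re]
  rw [e1] at h2
  refine h2.congr_fun fun r => ?_
  rw [← Complex.ofReal_pow, Complex.re_mul_ofReal]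

lemma norm_ee (Q : ℝ) (z : ℂ) : ‖ee (Q * z)‖ = Real.exp (-(4 * Real.pi * Q * z.im) / 2) := by
  rw [ee, Complex.norm_exp]
  congr 1
  simp
  ring

section

variable {ι : Type} (Q : ι → ℝ) (hQ : ∀ i, 0 ≤ Q i)
  (hs : ∀ y : ℝ, 0 < y → Summable fun i => Real.exp (-Q i * y))

include hQ hs in
lemma double_summable (z : ℂ) (hz : 0 < z.im) (t : ℂ) (ht : ‖t‖ ≤ 1 / 4) :
    Summable fun p : ℕ × ι => ‖lag p.1 (4 * Real.pi * Q p.2 * z.im) * ee (Q p.2 * z) *
      t ^ p.1‖ := by
  have hτ : 0 ≤ ‖t‖ := norm_nonneg t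
  have hx : ∀ i, 0 ≤ 4 * Real.pi * Q i * z.im := fun i => by
    have := hQ i
    have := Real.pi_pos
    positivity
  have hcast : ∀ i, (4 * Real.pi * Q i * z.im : ℂ) = ((4 * Real.pi * Q i * z.im : ℝ) : ℂ) := by
    intro i
    push_cast
    ring
  have hle : ∀ (i : ι) (r : ℕ), ‖lag r (4 * Real.pi * Q i * z.im) * ee (Q i * z) * t ^ r‖ ≤
      Real.exp (-(4 * Real.pi * Q i * z.im) / 2) *
        ((lag r (-((4 * Real.pi * Q i * z.im : ℝ) : ℂ))).re * ‖t‖ ^ r) := by
    intro i r
    rw [norm_mul, norm_mul, norm_pow, norm_ee, hcast]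
    have := lag_norm r _ (hx i)
    calc _ ≤ (lag r (-((4 * Real.pi * Q i * z.im : ℝ) : ℂ))).re *
          Real.exp (-(4 * Real.pi * Q i * z.im) / 2) * ‖t‖ ^ r := by
          gcongr
      _ = _ := by ring
  have hmaj : ∀ i : ι, HasSum (fun r : ℕ => Real.exp (-(4 * Real.pi * Q i * z.im) / 2) *
        ((lag r (-((4 * Real.pi * Q i * z.im : ℝ) : ℂ))).re * ‖t‖ ^ r))
      (Real.exp (-(4 * Real.pi * Q i * z.im) / 2) * ((1 - ‖t‖)⁻¹ *
        Real.exp ((4 * Real.pi * Q i * z.im) * ‖t‖ / (1 - ‖t‖)))) := fun i =>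
    (lag_maj _ _ hτ (by linarith)).mul_left _
  have hswap : Summable fun p : ι × ℕ => ‖lag p.2 (4 * Real.pi * Q p.1 * z.im) *
      ee (Q p.1 * z) * t ^ p.2‖ := by
    refine (summable_prod_of_nonneg fun p => norm_nonneg _).2 ⟨fun i => ?_, ?_⟩
    · exact Summable.of_nonneg_of_le (fun r => norm_nonneg _) (hle i) (hmaj i).summable
    · have h0 : 0 < 4 * Real.pi * z.im / 6 := by
        have := Real.pi_pos
        positivity
      refine Summable.of_nonneg_of_le (fun i => tsum_nonneg fun r => norm_nonneg _) (fun i => ?_)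
        ((hs _ h0).mul_left (4 / 3))
      have hsum : Summable fun r : ℕ => ‖lag r (4 * Real.pi * Q i * z.im) *
          ee (Q i * z) * t ^ r‖ :=
        Summable.of_nonneg_of_le (fun r => norm_nonneg _) (hle i) (hmaj i).summable
      refine (hsum.tsum_le_tsum (hle i) (hmaj i).summable).trans ?_
      rw [(hmaj i).tsum_eq]
      have h1 : (1 - ‖t‖)⁻¹ ≤ 4 / 3 := by
        rw [inv_le_comm₀ (by linarith) (by norm_num)]
        linarith
      have h2 : ‖t‖ / (1 - ‖t‖) ≤ 1 / 3 := by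
        rw [div_le_iff₀ (by linarith)]
        linarith
      calc _ = (1 - ‖t‖)⁻¹ * Real.exp (-(4 * Real.pi * Q i * z.im) / 2 +
            (4 * Real.pi * Q i * z.im) * (‖t‖ / (1 - ‖t‖))) := by
            rw [Real.exp_add, mul_div_assoc]; ring
        _ ≤ 4 / 3 * Real.exp (-Q i * (4 * Real.pi * z.im / 6)) := by
            refine mul_le_mul h1 (Real.exp_le_exp.2 ?_) (Real.exp_pos _).le (by norm_num)
            have := mul_le_mul_of_nonneg_left h2 (hx i)
            linarith
  exact (Equiv.prodComm ℕ ι).summable_iff.2 hswap |>.congr fun p => by simp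

include hQ hs in
lemma single_summable (z : ℂ) (hz : 0 < z.im) (r : ℕ) :
    Summable fun i => lag r (4 * Real.pi * Q i * z.im) * ee (Q i * z) := by
  have h := (double_summable Q hQ hs z hz (1 / 4) (by norm_num)).of_norm
  have h1 := h.prod_factor r
  have h2 := h1.mul_right (((1 / 4 : ℂ) ^ r)⁻¹)
  refine h2.congr fun i => ?_
  field_simp

include hQ hs in
/-- The generating series of the theta series with Laguerre polynomials. -/
lemma theta_hasSum (z : ℂ) (hz : 0 < z.im) (t : ℂ) (ht : ‖t‖ ≤ 1 / 4) :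
    HasSum (fun r : ℕ => (∑' i, lag r (4 * Real.pi * Q i * z.im) * ee (Q i * z)) * t ^ r)
      ((1 - t)⁻¹ * ∑' i, ee (Q i * ((z - t * conj z) / (1 - t)))) := by
  have h1t : (1 : ℂ) - t ≠ 0 := by
    intro h
    have : t = 1 := by linear_combination -h
    rw [this] at ht
    norm_num at ht
  have hf := double_summable Q hQ hs z hz t ht
  have hA : ∀ r : ℕ, HasSum (fun i => lag r (4 * Real.pi * Q i * z.im) * ee (Q i * z) * t ^ r)
      ((∑' i, lag r (4 * Real.pi * Q i * z.im) * ee (Q i * z)) * t ^ r) := fun r =>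
    (single_summable Q hQ hs z hz r).hasSum.mul_right _
  have hB : ∀ i, HasSum (fun r : ℕ => lag r (4 * Real.pi * Q i * z.im) * ee (Q i * z) * t ^ r)
      ((1 - t)⁻¹ * ee (Q i * ((z - t * conj z) / (1 - t)))) := by
    intro i
    have h := (lag_gen (4 * Real.pi * Q i * z.im) t (by linarith)).mul_left (ee (Q i * z))
    have e1 : ee (Q i * z) * ((1 - t)⁻¹ *
        Complex.exp (-(4 * Real.pi * Q i * z.im * t / (1 - t)))) =
        (1 - t)⁻¹ * ee (Q i * ((z - t * conj z) / (1 - t))) := by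
      have e2 : ee (Q i * ((z - t * conj z) / (1 - t))) = ee (Q i * z) *
          Complex.exp (-(4 * Real.pi * Q i * z.im * t / (1 - t))) := by
        rw [ee, ee, ← Complex.exp_add]
        congr 1
        have hc : z - conj z = 2 * z.im * Complex.I := by
          apply Complex.ext
          · simp
          · simp
            ring
        have e3 : (z - t * conj z) / (1 - t) = z + (2 * z.im * Complex.I) * t / (1 - t) := by
          rw [← hc]
          field_simp
          ring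
        rw [e3]
        field_simp
        ring_nf
        rw [Complex.I_sq]
        ring
      rw [e2]
      ring
    rw [e1] at h
    refine h.congr_fun fun r => ?_
    ring
  have hsum : Summable fun i => (1 - t)⁻¹ * ee (Q i * ((z - t * conj z) / (1 - t))) := by
    obtain ⟨a, ha⟩ := hf.of_norm
    have ha' : HasSum ((fun p : ℕ × ι => lag p.1 (4 * Real.pi * Q p.2 * z.im) *
        ee (Q p.2 * z) * t ^ p.1) ∘ (Equiv.prodComm ι ℕ)) a := (Equiv.hasSum_iff _).2 ha
    exact (ha'.prod_fiberwise (fun i => hB i)).summable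
  have hC := hsum.hasSum
  rw [tsum_mul_left] at hC
  exact exch (fun p : ℕ × ι => lag p.1 (4 * Real.pi * Q p.2 * z.im) * ee (Q p.2 * z) *
    t ^ p.1) hf _ _ _ hA hB hC

end

/-- Uniqueness of the coefficients of a power series. -/
lemma coeff_unique (u v : ℕ → ℂ) (f : ℂ → ℂ)
    (hu : ∀ t : ℂ, ‖t‖ ≤ 1 / 4 → HasSum (fun r => u r * t ^ r) (f t))
    (hv : ∀ t : ℂ, ‖t‖ ≤ 1 / 4 → HasSum (fun r => v r * t ^ r) (f t)) (r : ℕ) : u r = v r := by
  have key : ∀ w : ℕ → ℂ, (∀ t : ℂ, ‖t‖ ≤ 1 / 4 → HasSum (fun r => w r * t ^ r) (f t)) →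
      HasFPowerSeriesAt f (FormalMultilinearSeries.ofScalars ℂ w) 0 := by
    intro w hw
    rw [hasFPowerSeriesAt_iff]
    have : ∀ᶠ t : ℂ in 𝓝 0, ‖t‖ < 1 / 4 := by
      have h := Metric.ball_mem_nhds (0 : ℂ) (show (0 : ℝ) < 1 / 4 by norm_num)
      filter_upwards [h] with t ht
      simpa using ht
    filter_upwards [this] with t ht
    rw [zero_add]
    refine (hw t ht.le).congr_fun fun n => ?_
    rw [FormalMultilinearSeries.coeff_ofScalars, smul_eq_mul, mul_comm]
  have h := (key u hu).eq_formalMultilinearSeries (key v hv)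
  have h2 := congrArg (fun p : FormalMultilinearSeries ℂ ℂ ℂ => p.coeff r) h
  simpa only [FormalMultilinearSeries.coeff_ofScalars] using h2

lemma denom_ne (a b c d : ℝ) (h : a * d - b * c = 1) (z : ℂ) (hz : 0 < z.im) :
    (c : ℂ) * z + d ≠ 0 := by
  intro h0
  have him := congrArg Complex.im h0
  have hre := congrArg Complex.re h0
  simp at him hre
  rcases him with hc | hc
  · subst hc
    simp at hre
    subst hre
    simp at h
  · exact hz.ne' hc

lemma point_im (z t : ℂ) (hz : 0 < z.im) (ht : ‖t‖ ≤ 1 / 4) :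
    0 < ((z - t * conj z) / (1 - t)).im := by
  have h1t : (1 : ℂ) - t ≠ 0 := by
    intro h
    have : t = 1 := by linear_combination -h
    rw [this] at ht
    norm_num at ht
  have hn : 0 < Complex.normSq (1 - t) := Complex.normSq_pos.2 h1t
  rw [Complex.div_im]
  have h2 : t.re ^ 2 + t.im ^ 2 ≤ 1 / 16 := by
    have h3 : Complex.normSq t = ‖t‖ ^ 2 := Complex.normSq_eq_norm_sq t
    rw [Complex.normSq_apply] at h3
    have h4 : ‖t‖ ^ 2 ≤ (1 / 4) ^ 2 := pow_le_pow_left₀ (norm_nonneg t) ht 2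
    nlinarith
  rw [← sub_div]
  refine div_pos ?_ hn
  simp
  nlinarith [mul_pos hz (show 0 < 1 - (t.re ^ 2 + t.im ^ 2) by linarith)]

lemma alg1 (a b c d z w : ℂ) (hD : c * z + d ≠ 0) (hDc : c * w + d ≠ 0)
    (hdet : a * d - b * c = 1) :
    ((a * z + b) / (c * z + d) - (a * w + b) / (c * w + d)) * ((c * z + d) * (c * w + d)) =
      z - w := by
  rw [div_sub_div _ _ hD hDc, div_mul_cancel₀ _ (mul_ne_zero hD hDc)]
  linear_combination (z - w) * hdet

lemma alg2 (a b c d z w t : ℂ) (hD : c * z + d ≠ 0) (hDc : c * w + d ≠ 0) (h1 : 1 - t ≠ 0) :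
    (a * ((z - t * w) / (1 - t)) + b) / (c * ((z - t * w) / (1 - t)) + d) =
      ((a * z + b) / (c * z + d) - (c * w + d) / (c * z + d) * t * ((a * w + b) / (c * w + d))) /
        (1 - (c * w + d) / (c * z + d) * t) := by
  have e1 : a * ((z - t * w) / (1 - t)) + b = (a * (z - t * w) + b * (1 - t)) / (1 - t) := by
    rw [add_div, mul_div_assoc, mul_div_cancel_right₀ _ h1]
  have e2 : c * ((z - t * w) / (1 - t)) + d = (c * (z - t * w) + d * (1 - t)) / (1 - t) := by
    rw [add_div, mul_div_assoc, mul_div_cancel_right₀ _ h1]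
  have e3 : 1 - (c * w + d) / (c * z + d) * t = (c * (z - t * w) + d * (1 - t)) / (c * z + d) := by
    rw [eq_div_iff hD, sub_mul, mul_assoc, mul_comm t, ← mul_assoc, div_mul_cancel₀ _ hD]
    ring
  have e4 : (a * z + b) / (c * z + d) -
      (c * w + d) / (c * z + d) * t * ((a * w + b) / (c * w + d)) =
      (a * (z - t * w) + b * (1 - t)) / (c * z + d) := by
    have : (c * w + d) / (c * z + d) * t * ((a * w + b) / (c * w + d)) =
        t * (a * w + b) / (c * z + d) := by
      rw [div_mul_eq_mul_div, div_mul_div_comm, div_eq_div_iff (mul_ne_zero hD hDc) hD]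
      ring
    rw [this, ← sub_div]
    congr 1
    ring
  rw [e1, e2, e3, e4, div_div_div_cancel_right₀ h1, div_div_div_cancel_right₀ hD]

end RaiseAux

open RaiseAux in
theorem stRaise : StRaise := by
  intro ι r Q Q' a b c d κ hQ hQ' hs hs' hdet hth z hz
  set z' : ℂ := (a * z + b) / (c * z + d) with hz'
  have hD : (c : ℂ) * z + d ≠ 0 := denom_ne a b c d hdet z hz
  have hDc : (c : ℂ) * (starRingEnd ℂ) z + d ≠ 0 := by
    intro h
    apply hD
    have := congrArg (starRingEnd ℂ) h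
    simpa using this
  have hcz' : (starRingEnd ℂ) z' = (a * (starRingEnd ℂ) z + b) / (c * (starRingEnd ℂ) z + d) := by
    rw [hz']
    simp
  set ρ : ℂ := (c * (starRingEnd ℂ) z + d) / (c * z + d) with hρ
  have hρ0 : ρ ≠ 0 := div_ne_zero hDc hD
  have hρn : ‖ρ‖ = 1 := by
    rw [hρ, norm_div]
    have : (c : ℂ) * (starRingEnd ℂ) z + d = (starRingEnd ℂ) (c * z + d) := by simp
    rw [this, Complex.norm_conj]
    exact div_self (by simpa using hD)
  have hns : Complex.normSq (c * z + d) ≠ 0 := by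
    simpa using hD
  have hy' : (z'.im : ℂ) * ((c * z + d) * (c * (starRingEnd ℂ) z + d)) = z.im := by
    have e1 : (2 * Complex.I) * ((z'.im : ℂ) * ((c * z + d) * (c * (starRingEnd ℂ) z + d))) =
        (2 * Complex.I) * z.im := by
      have hc1 : z' - (starRingEnd ℂ) z' = 2 * z'.im * Complex.I := by
        apply Complex.ext
        · simp
        · simp
          ring
      have hc2 : z - (starRingEnd ℂ) z = 2 * z.im * Complex.I := by
        apply Complex.ext
        · simp
        · simp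
          ring
      have hdet' : (a : ℂ) * d - b * c = 1 := by exact_mod_cast hdet
      have e2 : (z' - (starRingEnd ℂ) z') * ((c * z + d) * (c * (starRingEnd ℂ) z + d)) =
          z - (starRingEnd ℂ) z := by
        rw [hcz', hz']
        exact alg1 _ _ _ _ _ _ hD hDc hdet'
      linear_combination e2 - ((c * z + d) * (c * (starRingEnd ℂ) z + d)) * hc1 + hc2
    exact mul_left_cancel₀ (by simp [Complex.I_ne_zero]) e1
  have hz'im : 0 < z'.im := by
    have h1 : (c * z + d) * (c * (starRingEnd ℂ) z + d) = (Complex.normSq (c * z + d) : ℂ) := by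
      rw [← Complex.mul_conj]
      simp
    rw [h1] at hy'
    have h2 : z'.im * Complex.normSq (c * z + d) = z.im := by exact_mod_cast hy'
    have h3 : 0 < Complex.normSq (c * z + d) := Complex.normSq_pos.2 hD
    by_contra h4
    have : z'.im * Complex.normSq (c * z + d) ≤ 0 :=
      mul_nonpos_of_nonpos_of_nonneg (not_lt.1 h4) h3.le
    linarith
  -- the two power series
  have key := coeff_unique
    (fun r => (∑' i, lag r (4 * Real.pi * Q i * z'.im) * ee (Q i * z')) * ρ ^ r)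
    (fun r => κ * (c * z + d) * ∑' i, lag r (4 * Real.pi * Q' i * z.im) * ee (Q' i * z))
    (fun t => κ * (c * z + d) * ((1 - t)⁻¹ *
      ∑' i, ee (Q' i * ((z - t * (starRingEnd ℂ) z) / (1 - t)))))
    (fun t ht => by
      have ht' : ‖ρ * t‖ ≤ 1 / 4 := by rw [norm_mul, hρn, one_mul]; exact ht
      have h := theta_hasSum Q hQ hs z' hz'im (ρ * t) ht'
      have h1t : (1 : ℂ) - t ≠ 0 := by
        intro h
        have : t = 1 := by linear_combination -h
        rw [this] at ht
        norm_num at ht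
      have h1t' : (1 : ℂ) - ρ * t ≠ 0 := by
        intro h
        have : ρ * t = 1 := by linear_combination -h
        rw [this] at ht'
        norm_num at ht'
      have hp := point_im z t hz ht
      have hth' := hth _ hp
      have e1 : (a * ((z - t * (starRingEnd ℂ) z) / (1 - t)) + b) /
          (c * ((z - t * (starRingEnd ℂ) z) / (1 - t)) + d) =
          (z' - ρ * t * (starRingEnd ℂ) z') / (1 - ρ * t) := by
        rw [hcz', hz', hρ]
        exact alg2 _ _ _ _ _ _ _ hD hDc h1t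
      have e2 : (1 - ρ * t)⁻¹ * (c * ((z - t * (starRingEnd ℂ) z) / (1 - t)) + d) =
          (c * z + d) * (1 - t)⁻¹ := by
        rw [inv_mul_eq_iff_eq_mul₀ h1t', hρ]
        field_simp
        ring
      rw [e1] at hth'
      rw [hth'] at h
      have e3 : (1 - ρ * t)⁻¹ * (κ * (c * ((z - t * (starRingEnd ℂ) z) / (1 - t)) + d) *
          ∑' i, ee (Q' i * ((z - t * (starRingEnd ℂ) z) / (1 - t)))) =
          κ * (c * z + d) * ((1 - t)⁻¹ *
            ∑' i, ee (Q' i * ((z - t * (starRingEnd ℂ) z) / (1 - t)))) := by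
        linear_combination (κ * ∑' i, ee (Q' i * ((z - t * (starRingEnd ℂ) z) / (1 - t)))) * e2
      rw [e3] at h
      refine h.congr_fun fun n => ?_
      rw [mul_pow]
      ring)
    (fun t ht => by
      have h := (theta_hasSum Q' hQ' hs' z hz t ht).mul_left (κ * (c * z + d))
      refine h.congr_fun fun n => ?_
      ring) r
  have hzi : (z.im : ℂ) ≠ 0 := by exact_mod_cast hz.ne'
  have hz'i : (z'.im : ℂ) ≠ 0 := by exact_mod_cast hz'im.ne'
  have e4 : ((z'.im : ℂ) ^ r)⁻¹ = ((z.im : ℂ) ^ r)⁻¹ * (c * z + d) ^ (2 * r) * ρ ^ r := by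
    rw [← hy', hρ, div_pow, mul_pow, mul_pow, pow_mul']
    field_simp
  beta_reduce at key
  rw [e4]
  calc ((z.im : ℂ) ^ r)⁻¹ * (c * z + d) ^ (2 * r) * ρ ^ r *
        ∑' i, lag r (4 * Real.pi * Q i * z'.im) * ee (Q i * z')
      = ((z.im : ℂ) ^ r)⁻¹ * (c * z + d) ^ (2 * r) *
        ((∑' i, lag r (4 * Real.pi * Q i * z'.im) * ee (Q i * z')) * ρ ^ r) := by ring
    _ = _ := by
      rw [key]
      ring


end RZ

end Pool.Agent.Lib.MP_7c08ba_nt
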