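import Mathlib
import Pool.Agent.Lib.MP_7c08ba_nt.RZ.StG
import Pool.Agent.Lib.MP_7c08ba_nt.RZ.Raise

set_option autoImplicit false

/-!
Raising the weight of a theta identity from one to `2 * r + 1` with Laguerre polynomials, for
theta series over two different index sets.
-/

namespace Pool.Agent.Lib.MP_7c08ba_nt

namespace RZ

open RaiseAux in
theorem stRaise2 : StRaise2 := by
  intro ι ι' r Q Q' a b c d κ hQ hQ' hs hs' hdet hth z hz
  set z' : ℂ := (a * z + b) / (c * z + d) with hz'
  have hD : (c : ℂ) * z + d ≠ 0 := denom_ne a b c d hdet z hz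
  have hDc : (c : ℂ) * (starRingEnd ℂ) z + d ≠ 0 := by
    intro h
    apply hD
    have := congrArg (starRingEnd ℂ) h
    simpa using this
  have hcz' : (starRingEnd ℂ) z' = (a * (starRingEnd ℂ) z + b) / (c * (starRingEnd ℂ) z + d) := by
    rw [hz']
    simp
  set ρ : ℂ := (c * (starRingEnd ℂ) z + d) / (c * z + d) with hρ
  have hρ0 : ρ ≠ 0 := div_ne_zero hDc hD
  have hρn : ‖ρ‖ = 1 := by
    rw [hρ, norm_div]
    have : (c : ℂ) * (starRingEnd ℂ) z + d = (starRingEnd ℂ) (c * z + d) := by simp
    rw [this, Complex.norm_conj]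
    exact div_self (by simpa using hD)
  have hns : Complex.normSq (c * z + d) ≠ 0 := by
    simpa using hD
  have hy' : (z'.im : ℂ) * ((c * z + d) * (c * (starRingEnd ℂ) z + d)) = z.im := by
    have e1 : (2 * Complex.I) * ((z'.im : ℂ) * ((c * z + d) * (c * (starRingEnd ℂ) z + d))) =
        (2 * Complex.I) * z.im := by
      have hc1 : z' - (starRingEnd ℂ) z' = 2 * z'.im * Complex.I := by
        apply Complex.ext
        · simp
        · simp
          ring
      have hc2 : z - (starRingEnd ℂ) z = 2 * z.im * Complex.I := by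
        apply Complex.ext
        · simp
        · simp
          ring
      have hdet' : (a : ℂ) * d - b * c = 1 := by exact_mod_cast hdet
      have e2 : (z' - (starRingEnd ℂ) z') * ((c * z + d) * (c * (starRingEnd ℂ) z + d)) =
          z - (starRingEnd ℂ) z := by
        rw [hcz', hz']
        exact alg1 _ _ _ _ _ _ hD hDc hdet'
      linear_combination e2 - ((c * z + d) * (c * (starRingEnd ℂ) z + d)) * hc1 + hc2
    exact mul_left_cancel₀ (by simp [Complex.I_ne_zero]) e1
  have hz'im : 0 < z'.im := by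
    have h1 : (c * z + d) * (c * (starRingEnd ℂ) z + d) = (Complex.normSq (c * z + d) : ℂ) := by
      rw [← Complex.mul_conj]
      simp
    rw [h1] at hy'
    have h2 : z'.im * Complex.normSq (c * z + d) = z.im := by exact_mod_cast hy'
    have h3 : 0 < Complex.normSq (c * z + d) := Complex.normSq_pos.2 hD
    by_contra h4
    have : z'.im * Complex.normSq (c * z + d) ≤ 0 :=
      mul_nonpos_of_nonpos_of_nonneg (not_lt.1 h4) h3.le
    linarith
  -- the two power series
  have key := coeff_unique
    (fun r => (∑' i, lag r (4 * Real.pi * Q i * z'.im) * ee (Q i * z')) * ρ ^ r)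
    (fun r => κ * (c * z + d) * ∑' i, lag r (4 * Real.pi * Q' i * z.im) * ee (Q' i * z))
    (fun t => κ * (c * z + d) * ((1 - t)⁻¹ *
      ∑' i, ee (Q' i * ((z - t * (starRingEnd ℂ) z) / (1 - t)))))
    (fun t ht => by
      have ht' : ‖ρ * t‖ ≤ 1 / 4 := by rw [norm_mul, hρn, one_mul]; exact ht
      have h := theta_hasSum Q hQ hs z' hz'im (ρ * t) ht'
      have h1t : (1 : ℂ) - t ≠ 0 := by
        intro h
        have : t = 1 := by linear_combination -h
        rw [this] at ht
        norm_num at ht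
      have h1t' : (1 : ℂ) - ρ * t ≠ 0 := by
        intro h
        have : ρ * t = 1 := by linear_combination -h
        rw [this] at ht'
        norm_num at ht'
      have hp := point_im z t hz ht
      have hth' := hth _ hp
      have e1 : (a * ((z - t * (starRingEnd ℂ) z) / (1 - t)) + b) /
          (c * ((z - t * (starRingEnd ℂ) z) / (1 - t)) + d) =
          (z' - ρ * t * (starRingEnd ℂ) z') / (1 - ρ * t) := by
        rw [hcz', hz', hρ]
        exact alg2 _ _ _ _ _ _ _ hD hDc h1t
      have e2 : (1 - ρ * t)⁻¹ * (c * ((z - t * (starRingEnd ℂ) z) / (1 - t)) + d) =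
          (c * z + d) * (1 - t)⁻¹ := by
        rw [inv_mul_eq_iff_eq_mul₀ h1t', hρ]
        field_simp
        ring
      rw [e1] at hth'
      rw [hth'] at h
      have e3 : (1 - ρ * t)⁻¹ * (κ * (c * ((z - t * (starRingEnd ℂ) z) / (1 - t)) + d) *
          ∑' i, ee (Q' i * ((z - t * (starRingEnd ℂ) z) / (1 - t)))) =
          κ * (c * z + d) * ((1 - t)⁻¹ *
            ∑' i, ee (Q' i * ((z - t * (starRingEnd ℂ) z) / (1 - t)))) := by
        linear_combination (κ * ∑' i, ee (Q' i * ((z - t * (starRingEnd ℂ) z) / (1 - t)))) * e2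
      rw [e3] at h
      refine h.congr_fun fun n => ?_
      rw [mul_pow]
      ring)
    (fun t ht => by
      have h := (theta_hasSum Q' hQ' hs' z hz t ht).mul_left (κ * (c * z + d))
      refine h.congr_fun fun n => ?_
      ring) r
  have hzi : (z.im : ℂ) ≠ 0 := by exact_mod_cast hz.ne'
  have hz'i : (z'.im : ℂ) ≠ 0 := by exact_mod_cast hz'im.ne'
  have e4 : ((z'.im : ℂ) ^ r)⁻¹ = ((z.im : ℂ) ^ r)⁻¹ * (c * z + d) ^ (2 * r) * ρ ^ r := by
    rw [← hy', hρ, div_pow, mul_pow, mul_pow, pow_mul']
    field_simp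
  beta_reduce at key
  rw [e4]
  calc ((z.im : ℂ) ^ r)⁻¹ * (c * z + d) ^ (2 * r) * ρ ^ r *
        ∑' i, lag r (4 * Real.pi * Q i * z'.im) * ee (Q i * z')
      = ((z.im : ℂ) ^ r)⁻¹ * (c * z + d) ^ (2 * r) *
        ((∑' i, lag r (4 * Real.pi * Q i * z'.im) * ee (Q i * z')) * ρ ^ r) := by ring
    _ = _ := by
      rw [key]
      ring


end RZ

end Pool.Agent.Lib.MP_7c08ba_nt
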