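import Pool.Agent.Lib.MP_7c08ba_nt.RZ.StG

set_option autoImplicit false

/-! (G0') The ramified ideals `(g, s)`. -/

namespace Pool.Agent.Lib.MP_7c08ba_nt

namespace RZ

open NumberField MeasureTheory UpperHalfPlane Set IsDedekindDomain
open scoped MatrixGroups ComplexConjugate nonZeroDivisors

theorem stRam (h : StBasD) : StRam := by
  intro D F _ _ s σ χ cj hD g hg
  obtain ⟨-, -, -, -, -, -, -, -, -, hs⟩ := h D F _ _ s σ χ cj hD
  obtain ⟨g', rfl⟩ := hg
  have hsq : Squarefree (g * g') := hD.odd.1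
  have h3 : 3 < g * g' := hD.odd.2.2
  have hg0 : 0 < g := Nat.pos_of_ne_zero (by rintro rfl; simp at h3)
  have hg0' : 0 < g' := Nat.pos_of_ne_zero (by rintro rfl; simp at h3)
  have hdiv : g * g' / g = g' := Nat.mul_div_cancel_left g' hg0
  have hcop : IsCoprime (g : ℤ) (g' : ℤ) := by
    rw [Nat.isCoprime_iff_coprime]
    exact Nat.coprime_of_squarefree_mul hsq
  obtain ⟨u, v, huv⟩ := hcop
  have hb : (u : 𝓞 F) * g + v * g' = 1 := by exact_mod_cast congrArg (fun z : ℤ => (z : 𝓞 F)) huv
  have hs2 : s * s = -((g : 𝓞 F) * g') := by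
    have := hD.sq
    rw [pow_two] at this
    rw [this]
    push_cast
    ring
  rw [hdiv]
  have e2 : ram s g * ram s g' = Ideal.span {s} := by
    rw [ram, ram, Ideal.span_pair_mul_span_pair]
    apply le_antisymm
    · rw [Ideal.span_le]
      rintro x (rfl | rfl | rfl | rfl)
      · exact Ideal.mem_span_singleton'.2 ⟨-s, by linear_combination -hs2⟩
      · exact Ideal.mem_span_singleton'.2 ⟨g, rfl⟩
      · exact Ideal.mem_span_singleton'.2 ⟨g', by ring⟩
      · exact Ideal.mem_span_singleton'.2 ⟨s, rfl⟩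
    · rw [Ideal.span_le]
      rintro x rfl
      have m1 : (g : 𝓞 F) * x ∈ Ideal.span {(g : 𝓞 F) * g', g * x, x * g', x * x} :=
        Ideal.subset_span (by simp)
      have m2 : x * (g' : 𝓞 F) ∈ Ideal.span {(g : 𝓞 F) * g', g * x, x * g', x * x} :=
        Ideal.subset_span (by simp)
      have := add_mem (Ideal.mul_mem_left _ (u : 𝓞 F) m1) (Ideal.mul_mem_left _ (v : 𝓞 F) m2)
      have e : (u : 𝓞 F) * (g * x) + v * (x * g') = x := by linear_combination x * hb
      rw [e] at this
      exact this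
  have e3 : ram s g ^ 2 = Ideal.span {(g : 𝓞 F)} := by
    rw [pow_two, ram, Ideal.span_pair_mul_span_pair]
    apply le_antisymm
    · rw [Ideal.span_le]
      rintro x (rfl | rfl | rfl | rfl)
      · exact Ideal.mem_span_singleton'.2 ⟨g, rfl⟩
      · exact Ideal.mem_span_singleton'.2 ⟨s, by ring⟩
      · exact Ideal.mem_span_singleton'.2 ⟨s, rfl⟩
      · exact Ideal.mem_span_singleton'.2 ⟨-g', by linear_combination -hs2⟩
    · rw [Ideal.span_le]
      rintro x rfl
      have m1 : (g : 𝓞 F) * g ∈ Ideal.span {(g : 𝓞 F) * g, g * s, s * g, s * s} :=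
        Ideal.subset_span (by simp)
      have m2 : s * s ∈ Ideal.span {(g : 𝓞 F) * g, g * s, s * g, s * s} :=
        Ideal.subset_span (by simp)
      have := add_mem (Ideal.mul_mem_left _ (u : 𝓞 F) m1) (Ideal.mul_mem_left _ (-(v : 𝓞 F)) m2)
      have e : (u : 𝓞 F) * (g * g) + -(v : 𝓞 F) * (s * s) = g := by
        linear_combination (g : 𝓞 F) * hb - (v : 𝓞 F) * hs2
      rw [e] at this
      exact this
  have e1 : Ideal.absNorm (ram s g) = g := by
    have h1 : Ideal.absNorm (ram s g) ^ 2 = g ^ 2 := by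
      rw [← map_pow, e3, Ideal.absNorm_span_singleton]
      have : Algebra.norm ℤ (g : 𝓞 F) = (g : ℤ) ^ 2 := by
        have h2 := Algebra.norm_algebraMap (R := ℤ) (S := 𝓞 F) (g : ℤ)
        rw [RingOfIntegers.rank, hD.fin] at h2
        simpa using h2
      rw [this, Int.natAbs_pow, Int.natAbs_natCast]
    exact Nat.pow_left_injective (by norm_num) h1
  have hsm : s ∈ ram s g := Ideal.subset_span (by simp)
  have hgm : (g : 𝓞 F) ∈ ram s g := Ideal.subset_span (by simp)
  refine ⟨e1, e2, e3, ?_, ?_⟩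
  · intro x n hx
    have hxn : x - n ∈ ram s g := by
      obtain ⟨y, hy⟩ := hx
      rw [hy]
      exact Ideal.mul_mem_right _ _ hsm
    have h1 : x ∈ ram s g ↔ (n : 𝓞 F) ∈ ram s g := by
      constructor
      · intro h
        have := sub_mem h hxn
        simpa using this
      · intro h
        have := add_mem hxn h
        simpa using this
    rw [h1]
    constructor
    · intro h
      rw [ram, Ideal.mem_span_pair] at h
      obtain ⟨a, b, hab⟩ := h
      have h2 : s ∣ (((g' : ℤ) * n : ℤ) : 𝓞 F) := by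
        refine ⟨-a * s + b * g', ?_⟩
        push_cast
        rw [← hab]
        linear_combination a * hs2
      have h3 := (hs _).1 h2
      push_cast at h3
      rw [mul_comm (g : ℤ) g'] at h3
      exact (mul_dvd_mul_iff_left (by exact_mod_cast hg0'.ne')).1 h3
    · rintro ⟨m, rfl⟩
      push_cast
      exact Ideal.mul_mem_right _ _ hgm
  · intro a x ha
    have h1 : IsCoprime a (ram s g) := by
      rw [Ideal.isCoprime_iff_sup_eq] at ha ⊢
      rw [eq_top_iff, ← ha]
      refine sup_le_sup_left ?_ a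
      rw [Ideal.span_le]
      rintro y rfl
      exact hsm
    rw [← Ideal.inf_eq_mul_of_isCoprime h1]
    exact Iff.rfl

end RZ

end Pool.Agent.Lib.MP_7c08ba_nt
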