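import Pool.Agent.Lib.MP_7c08ba_nt.RZ.StG

set_option autoImplicit false

/-! (G2) representatives prime to `s`, for every odd fundamental discriminant. -/

namespace Pool.Agent.Lib.MP_7c08ba_nt

namespace RZ

open NumberField
open scoped nonZeroDivisors

/-- every class of ideals contains an ideal prime to a given element which is not zero and not a
unit -/
theorem exists_coprime_rep {F : Type} [Field F] [NumberField F] {s : 𝓞 F} (hs0 : s ≠ 0)
    (hsu : ¬ IsUnit s) (A : ClassGroup (𝓞 F)) : ∃ b : (Ideal (𝓞 F))⁰,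
      ClassGroup.mk0 b = A ∧ IsCoprime (b : Ideal (𝓞 F)) (Ideal.span {s}) := by
  obtain ⟨I, hI⟩ := ClassGroup.mk0_surjective A⁻¹
  have hI0 : (I : Ideal (𝓞 F)) ≠ ⊥ := nonZeroDivisors.coe_ne_zero I
  have h20 : Ideal.span {s} ≠ ⊥ := by
    rw [Ne, Ideal.span_singleton_eq_bot]
    exact hs0
  have h2t : Ideal.span {s} ≠ ⊤ := by
    rw [Ne, Ideal.span_singleton_eq_top]
    exact hsu
  obtain ⟨a, ha⟩ := IsDedekindDomain.exists_sup_span_eq
    (I := (I : Ideal (𝓞 F)) * Ideal.span {s}) (J := (I : Ideal (𝓞 F))) Ideal.mul_le_left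
    (mul_ne_zero hI0 h20)
  obtain ⟨K, hK⟩ : (I : Ideal (𝓞 F)) ∣ Ideal.span {a} := by
    rw [Ideal.dvd_iff_le]
    calc Ideal.span {a} ≤ _ := le_sup_right
      _ = _ := ha
  have hsup : Ideal.span {s} ⊔ K = ⊤ := by
    rw [hK, ← Ideal.mul_sup] at ha
    have h1 : (I : Ideal (𝓞 F)) * (Ideal.span {s} ⊔ K) = (I : Ideal (𝓞 F)) * 1 := by
      rw [ha, mul_one]
    have h2 := mul_left_cancel₀ hI0 h1
    rw [h2, Ideal.one_eq_top]
  have hK0 : K ≠ ⊥ := by
    rintro rfl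
    rw [sup_bot_eq] at hsup
    exact h2t hsup
  have hKm : K ∈ nonZeroDivisors (Ideal (𝓞 F)) := mem_nonZeroDivisors_of_ne_zero hK0
  refine ⟨⟨K, hKm⟩, ?_, ?_⟩
  · have ha0 : a ≠ 0 := by
      rintro rfl
      rw [Ideal.span_singleton_eq_bot.2 rfl] at hK
      exact mul_ne_zero hI0 hK0 hK.symm
    have hprod : ClassGroup.mk0 (I * ⟨K, hKm⟩) = 1 := by
      have h1 : (I * ⟨K, hKm⟩ : nonZeroDivisors (Ideal (𝓞 F))) =
          ⟨(I : Ideal (𝓞 F)) * K, mul_mem I.2 hKm⟩ := rfl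
      rw [h1, ClassGroup.mk0_eq_one_iff, ← hK]
      exact ⟨⟨a, rfl⟩⟩
    rw [map_mul, hI, inv_mul_eq_one] at hprod
    exact hprod.symm
  · rw [Ideal.isCoprime_iff_sup_eq, sup_comm]
    exact hsup

theorem stRepsD (h : StBasD) (h2 : StBaseD) : StRepsD := by
  intro D F _ _ s σ χ cj hD
  obtain ⟨-, -, -, -, -, -, -, b8, -, -⟩ := h D F _ _ s σ χ cj hD
  obtain ⟨c1, -⟩ := h2 D F _ _ s σ χ cj hD
  have hD3 := hD.odd.2.2
  have hs0 : s ≠ 0 := by
    intro h
    have h1 := hD.sq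
    rw [h] at h1
    have h2 : (D : 𝓞 F) = 0 := by
      have : (0 : 𝓞 F) ^ 2 = 0 := by ring
      rw [this] at h1
      linear_combination h1
    have h3 : D = 0 := by exact_mod_cast h2
    omega
  have hsu : ¬ IsUnit s := by
    intro hu
    have h1 : s ^ 2 = 1 := by
      rcases b8 s hu with h | h <;> rw [h] <;> ring
    rw [hD.sq] at h1
    have h2 : ((D + 1 : ℕ) : 𝓞 F) = 0 := by
      push_cast
      linear_combination -h1
    have h3 : D + 1 = 0 := by exact_mod_cast h2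
    omega
  choose R hR hR2 using exists_coprime_rep (F := F) hs0 hsu
  have hb : ∀ A, ∃ xy : 𝓞 F × 𝓞 F, OBasis σ (R A : Ideal (𝓞 F)) xy.1 xy.2 := by
    intro A
    obtain ⟨x, y, hxy⟩ := c1 (R A : Ideal (𝓞 F)) (mem_nonZeroDivisors_iff_ne_zero.1 (R A).2)
    exact ⟨(x, y), hxy⟩
  choose xy hxy using hb
  exact ⟨⟨R, fun A => (xy A).1, fun A => (xy A).2, hR, hxy⟩, hR2⟩

end RZ

end Pool.Agent.Lib.MP_7c08ba_nt
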