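import Mathlib
import Pool.Agent.Lib.MP_7c08ba_nt.RZ.StG

set_option autoImplicit false

/-!
(G31) the sum over the cusps as a sum over the square roots of the quotient of norms.
-/

namespace Pool.Agent.Lib.MP_7c08ba_nt

namespace RZ

open NumberField MeasureTheory UpperHalfPlane Set
open scoped MatrixGroups ComplexConjugate nonZeroDivisors

namespace RhoAux



/-- the sum over the divisors -/
noncomputable def LL (C x y : ℤ) (D : ℕ) : ℤ :=
  ∑ g ∈ D.divisors, if (g : ℤ) ∣ x ∧ (g : ℤ) ∣ y then jacobiSym C (D / g) else 0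

/-- the number of square roots -/
noncomputable def RR (A B x y : ℤ) (D : ℕ) : ℕ :=
  Nat.card {ρ : ZMod D // ρ ^ 2 * (B : ZMod D) = (A : ZMod D) ∧ (x : ZMod D) = ρ * (y : ZMod D)}

/-- the indicator of the common divisors -/
noncomputable def alp (x y : ℤ) : ArithmeticFunction ℤ :=
  ⟨fun g => if g = 0 then 0 else if (g : ℤ) ∣ x ∧ (g : ℤ) ∣ y then 1 else 0, by simp⟩

/-- the symbol as an arithmetic function -/
noncomputable def bet (C : ℤ) : ArithmeticFunction ℤ :=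
  ⟨fun g => if g = 0 then 0 else jacobiSym C g, by simp⟩

lemma alp_apply (x y : ℤ) (g : ℕ) :
    alp x y g = if g = 0 then 0 else if (g : ℤ) ∣ x ∧ (g : ℤ) ∣ y then 1 else 0 := rfl

lemma bet_apply (C : ℤ) (g : ℕ) : bet C g = if g = 0 then 0 else jacobiSym C g := rfl

lemma alp_mult (x y : ℤ) : (alp x y).IsMultiplicative := by
  refine ⟨by simp [alp_apply], ?_⟩
  intro m n h
  rcases eq_or_ne m 0 with rfl | hm
  · simp [alp_apply]
  rcases eq_or_ne n 0 with rfl | hn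
  · simp [alp_apply]
  have key : ∀ z : ℤ, (((m * n : ℕ) : ℤ) ∣ z ↔ (m : ℤ) ∣ z ∧ (n : ℤ) ∣ z) := by
    intro z
    push_cast
    constructor
    · intro h1
      exact ⟨(dvd_mul_right _ _).trans h1, (dvd_mul_left _ _).trans h1⟩
    · rintro ⟨h1, h2⟩
      exact IsCoprime.mul_dvd (Nat.isCoprime_iff_coprime.2 h) h1 h2
  simp only [alp_apply, hm, hn, Nat.mul_eq_zero, or_self, if_false, key]
  by_cases h1 : (m : ℤ) ∣ x <;> by_cases h2 : (n : ℤ) ∣ x <;> by_cases h3 : (m : ℤ) ∣ y <;>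
    by_cases h4 : (n : ℤ) ∣ y <;> simp [h1, h2, h3, h4]

lemma bet_mult (C : ℤ) : (bet C).IsMultiplicative := by
  refine ⟨by simp [bet_apply], ?_⟩
  intro m n _
  rcases eq_or_ne m 0 with rfl | hm
  · simp [bet_apply]
  rcases eq_or_ne n 0 with rfl | hn
  · simp [bet_apply]
  simp only [bet_apply, hm, hn, Nat.mul_eq_zero, or_self, if_false]
  have : NeZero m := ⟨hm⟩
  have : NeZero n := ⟨hn⟩
  exact jacobiSym.mul_right C m n

lemma LL_eq (C x y : ℤ) (D : ℕ) : LL C x y D = (alp x y * bet C) D := by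
  rw [ArithmeticFunction.mul_apply, Nat.sum_divisorsAntidiagonal (f := fun i j => alp x y i * bet C j)]
  refine Finset.sum_congr rfl fun g hg => ?_
  have hD := (Nat.mem_divisors.1 hg).2
  have hg1 := (Nat.mem_divisors.1 hg).1
  have hg0 : g ≠ 0 := fun h => hD (by rw [h] at hg1; exact Nat.eq_zero_of_zero_dvd hg1)
  have h2 : D / g ≠ 0 := (Nat.div_pos (Nat.le_of_dvd (Nat.pos_of_ne_zero hD) hg1)
    (Nat.pos_of_ne_zero hg0)).ne'
  rw [alp_apply, bet_apply, if_neg hg0, if_neg h2]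
  split_ifs <;> simp

lemma LL_mul (C x y : ℤ) {m n : ℕ} (h : m.Coprime n) :
    LL C x y (m * n) = LL C x y m * LL C x y n := by
  rw [LL_eq, LL_eq, LL_eq]
  exact ((alp_mult x y).mul (bet_mult C)).map_mul_of_coprime h

lemma RR_mul (A B x y : ℤ) {m n : ℕ} (h : m.Coprime n) :
    RR A B x y (m * n) = RR A B x y m * RR A B x y n := by
  unfold RR
  rw [← Nat.card_prod]
  refine Nat.card_congr ?_
  refine ((ZMod.chineseRemainder h).toEquiv.subtypeEquiv (q := fun z : ZMod m × ZMod n =>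
    (z.1 ^ 2 * (B : ZMod m) = (A : ZMod m) ∧ (x : ZMod m) = z.1 * (y : ZMod m)) ∧
    (z.2 ^ 2 * (B : ZMod n) = (A : ZMod n) ∧ (x : ZMod n) = z.2 * (y : ZMod n))) ?_).trans
    (Equiv.subtypeProdEquivProd (p := fun z : ZMod m =>
      (z ^ 2 * (B : ZMod m) = (A : ZMod m) ∧ (x : ZMod m) = z * (y : ZMod m)))
      (q := fun z : ZMod n =>
      (z ^ 2 * (B : ZMod n) = (A : ZMod n) ∧ (x : ZMod n) = z * (y : ZMod n))))
  intro ρ
  have e := (ZMod.chineseRemainder h).injective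
  rw [← e.eq_iff, ← e.eq_iff (a := (x : ZMod (m * n)))]
  simp only [map_mul, map_pow, map_intCast, Prod.ext_iff, Prod.fst_mul, Prod.snd_mul,
    Prod.pow_fst, Prod.pow_snd, Prod.fst_intCast, Prod.snd_intCast, RingEquiv.toEquiv_eq_coe,
    EquivLike.coe_coe]
  tauto

lemma prime_case {p : ℕ} (hp : p.Prime) (hp2 : p ≠ 2) {A B x y : ℤ} (hA : ¬ (p : ℤ) ∣ A)
    (hB : ¬ (p : ℤ) ∣ B) (h : (p : ℤ) ∣ x ^ 2 * B - y ^ 2 * A) :
    LL (A * B) x y p = RR A B x y p := by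
  have : Fact p.Prime := ⟨hp⟩
  have hA' : (A : ZMod p) ≠ 0 := by rwa [Ne, ZMod.intCast_zmod_eq_zero_iff_dvd]
  have hB' : (B : ZMod p) ≠ 0 := by rwa [Ne, ZMod.intCast_zmod_eq_zero_iff_dvd]
  have h' : (x : ZMod p) ^ 2 * B = (y : ZMod p) ^ 2 * A := by
    have := (ZMod.intCast_zmod_eq_zero_iff_dvd _ p).2 h
    push_cast at this
    linear_combination this
  have hL : LL (A * B) x y p = legendreSym p (A * B) +
      (if (p : ℤ) ∣ x ∧ (p : ℤ) ∣ y then 1 else 0) := by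
    unfold LL
    rw [Nat.Prime.divisors hp, Finset.sum_pair hp.one_lt.ne]
    simp only [Nat.cast_one, one_dvd, and_self, if_true, Nat.div_one, Nat.div_self hp.pos,
      jacobiSym.one_right, jacobiSym.legendreSym.to_jacobiSym]
  rw [hL]
  by_cases hy : (p : ℤ) ∣ y
  · have hy' : (y : ZMod p) = 0 := (ZMod.intCast_zmod_eq_zero_iff_dvd _ p).2 hy
    have hx' : (x : ZMod p) = 0 := by
      rw [hy'] at h'
      have : (x : ZMod p) ^ 2 * B = 0 := by rw [h']; ring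
      rcases mul_eq_zero.1 this with h1 | h1
      · exact pow_eq_zero_iff (two_ne_zero) |>.1 h1
      · exact absurd h1 hB'
    have hx : (p : ℤ) ∣ x := (ZMod.intCast_zmod_eq_zero_iff_dvd _ p).1 hx'
    rw [if_pos ⟨hx, hy⟩, ← legendreSym.card_sqrts p hp2 (A * B)]
    unfold RR
    rw [hx', hy', Nat.card_eq_fintype_card, Set.toFinset_card]
    congr 1
    refine Fintype.card_congr ?_
    refine (Equiv.mulRight₀ (B : ZMod p) hB').symm.subtypeEquiv ?_
    intro τ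
    simp only [Set.mem_ofPred_eq, mul_zero, and_true, Equiv.mulRight₀_symm_apply]
    push_cast
    constructor
    · intro h1
      rw [mul_pow, h1]
      field_simp
    · intro h1
      have h2 : τ ^ 2 = (τ * (B : ZMod p)⁻¹) ^ 2 * B * B := by
        field_simp
      rw [h2, h1]
  · have hy' : (y : ZMod p) ≠ 0 := by rwa [Ne, ZMod.intCast_zmod_eq_zero_iff_dvd]
    have h1 : legendreSym p (A * B) = 1 := by
      rw [legendreSym.eq_one_iff]
      · refine ⟨(B : ZMod p) * x / y, ?_⟩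
        push_cast
        field_simp
        linear_combination -h'
      · push_cast
        exact mul_ne_zero hA' hB'
    rw [if_neg (fun h2 => hy h2.2), h1]
    unfold RR
    have h2 : Nat.card {ρ : ZMod p // ρ ^ 2 * (B : ZMod p) = (A : ZMod p) ∧
        (x : ZMod p) = ρ * (y : ZMod p)} = 1 := by
      rw [Nat.card_eq_one_iff_unique]
      refine ⟨⟨fun a b => Subtype.ext ?_⟩, ⟨⟨(x : ZMod p) / y, ?_, ?_⟩⟩⟩
      · exact mul_right_cancel₀ hy' (a.2.2.symm.trans b.2.2)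
      · field_simp
        linear_combination h'
      · field_simp
    rw [h2]
    norm_num

/-- the identity -/
theorem key (D : ℕ) (hsq : Squarefree D) (hodd : Odd D) {A B x y : ℤ} (hA : IsCoprime A D)
    (hB : IsCoprime B D) (h : (D : ℤ) ∣ x ^ 2 * B - y ^ 2 * A) :
    LL (A * B) x y D = RR A B x y D := by
  induction D using Nat.recOnMul with
  | zero => exact absurd hsq (by simp)
  | one =>
    unfold LL RR
    simp only [Nat.divisors_one, Finset.sum_singleton, Nat.cast_one, one_dvd, and_self, if_true,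
      Nat.div_one, jacobiSym.one_right]
    have : Nat.card {ρ : ZMod 1 // ρ ^ 2 * (B : ZMod 1) = (A : ZMod 1) ∧
        (x : ZMod 1) = ρ * (y : ZMod 1)} = 1 := by
      rw [Nat.card_eq_one_iff_unique]
      exact ⟨⟨fun a b => Subtype.ext (Subsingleton.elim _ _)⟩,
        ⟨⟨0, Subsingleton.elim _ _, Subsingleton.elim _ _⟩⟩⟩
    rw [this]
    rfl
  | prime p hp =>
    have h2 : ∀ {z : ℤ}, IsCoprime z p → ¬ (p : ℤ) ∣ z := by
      intro z hz hd
      have h3 : IsUnit (p : ℤ) := hz.isUnit_of_dvd' hd dvd_rfl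
      exact (Nat.prime_iff_prime_int.1 hp).not_isUnit h3
    exact prime_case hp (fun h3 => by rw [h3] at hodd; exact absurd hodd (by decide)) (h2 hA)
      (h2 hB) h
  | mul m n ihm ihn =>
    rw [Nat.squarefree_mul_iff] at hsq
    obtain ⟨hc, hsm, hsn⟩ := hsq
    rw [Nat.odd_mul] at hodd
    push_cast at hA hB h
    rw [LL_mul _ _ _ hc, RR_mul _ _ _ _ hc,
      ihm hsm hodd.1 hA.of_mul_right_left hB.of_mul_right_left ((dvd_mul_right _ _).trans h),
      ihn hsn hodd.2 hA.of_mul_right_right hB.of_mul_right_right ((dvd_mul_left _ _).trans h)]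
    push_cast
    rfl

/-! ### analysis -/

theorem norm_Jr_le (w r : ℕ) {x : ℂ} (hx : ‖x‖ ≤ 1) :
    ‖Jr w r x‖ ≤ ∑ j ∈ Finset.range (r + 1), (r.choose j : ℝ) * ((w + r + j - 1).choose j : ℝ) := by
  unfold Jr
  refine (norm_sum_le _ _).trans (Finset.sum_le_sum fun j _ => ?_)
  rw [norm_mul, norm_mul, norm_pow, norm_neg, Complex.norm_natCast, Complex.norm_natCast]
  exact mul_le_of_le_one_right (by positivity) (pow_le_one₀ (norm_nonneg _) hx)

section

variable {F : Type} [Field F] [NumberField F] {D : ℕ} {s : 𝓞 F} {σ : F →+* ℂ}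
  {χ : DirichletCharacter ℂ D} {cj : 𝓞 F ≃+* 𝓞 F}

omit [NumberField F] in
/-- sums over an ideal -/
theorem summable_ideal {a : Ideal (𝓞 F)} {X Y : 𝓞 F} (h : OBasis σ a X Y) :
    Summable fun z : a => (1 + ‖σ (z : 𝓞 F)‖) ^ (-(5 / 2 : ℝ)) := by
  have hc : ∀ z : a, ∃ v : Fin 2 → ℤ, (z : 𝓞 F) = (v 0 : 𝓞 F) * X + (v 1 : 𝓞 F) * Y := by
    intro z
    obtain ⟨m, n, hmn⟩ := (h.mem z).1 z.2
    exact ⟨![m, n], by simpa using hmn⟩
  choose ψ hψ using hc
  have hinj : Function.Injective ψ := by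
    intro z z' hz
    exact Subtype.ext (by rw [hψ z, hψ z', hz])
  have hσ : ∀ z : a, σ (z : 𝓞 F) = (ψ z 0 : ℂ) * σ X + (ψ z 1 : ℂ) * σ Y := by
    intro z
    have h1 : ((z : 𝓞 F) : F) = (ψ z 0 : F) * (X : F) + (ψ z 1 : F) * (Y : F) := by
      have := congrArg (algebraMap (𝓞 F) F) (hψ z)
      simpa only [map_add, map_mul, map_intCast] using this
    rw [h1, map_add, map_mul, map_mul, map_intCast, map_intCast]
  have hI : 0 < (σ X * conj (σ Y)).im := h.pos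
  set I : ℝ := (σ X * conj (σ Y)).im with hIdef
  set M : ℝ := ‖σ X‖ + ‖σ Y‖ with hM
  have h0 : ∀ z : a, |(ψ z 0 : ℝ)| * I ≤ ‖σ (z : 𝓞 F)‖ * M := by
    intro z
    have h1 : (σ (z : 𝓞 F) * conj (σ Y)).im = (ψ z 0 : ℝ) * I := by
      rw [hσ z, add_mul, mul_assoc, mul_assoc, Complex.mul_conj, Complex.add_im]
      have e1 : (((ψ z 0 : ℤ) : ℂ) * (σ X * conj (σ Y))).im = (ψ z 0 : ℝ) * I := by
        rw [← Complex.ofReal_intCast, Complex.im_ofReal_mul]
      have e2 : (((ψ z 1 : ℤ) : ℂ) * ((Complex.normSq (σ Y) : ℝ) : ℂ)).im = 0 := by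
        rw [← Complex.ofReal_intCast, Complex.im_ofReal_mul, Complex.ofReal_im, mul_zero]
      rw [e1, e2, add_zero]
    have h2 : |(ψ z 0 : ℝ)| * I = |(σ (z : 𝓞 F) * conj (σ Y)).im| := by
      rw [h1, abs_mul, abs_of_pos hI]
    rw [h2]
    refine (Complex.abs_im_le_norm _).trans ?_
    rw [norm_mul, Complex.norm_conj]
    exact mul_le_mul_of_nonneg_left (by rw [hM]; linarith [norm_nonneg (σ X)]) (norm_nonneg _)
  have h1' : ∀ z : a, |(ψ z 1 : ℝ)| * I ≤ ‖σ (z : 𝓞 F)‖ * M := by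
    intro z
    have h1 : (σ (z : 𝓞 F) * conj (σ X)).im = -((ψ z 1 : ℝ) * I) := by
      rw [hσ z, add_mul, mul_assoc, mul_assoc, Complex.mul_conj, Complex.add_im]
      have e3 : (σ Y * conj (σ X)).im = -I := by
        rw [hIdef, ← Complex.conj_im, map_mul, Complex.conj_conj, mul_comm]
      have e1 : (((ψ z 1 : ℤ) : ℂ) * (σ Y * conj (σ X))).im = -((ψ z 1 : ℝ) * I) := by
        rw [← Complex.ofReal_intCast, Complex.im_ofReal_mul, e3, mul_neg]
      have e2 : (((ψ z 0 : ℤ) : ℂ) * ((Complex.normSq (σ X) : ℝ) : ℂ)).im = 0 := by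
        rw [← Complex.ofReal_intCast, Complex.im_ofReal_mul, Complex.ofReal_im, mul_zero]
      rw [e1, e2, zero_add]
    have h2 : |(ψ z 1 : ℝ)| * I = |(σ (z : 𝓞 F) * conj (σ X)).im| := by
      rw [h1, abs_neg, abs_mul, abs_of_pos hI]
    rw [h2]
    refine (Complex.abs_im_le_norm _).trans ?_
    rw [norm_mul, Complex.norm_conj]
    exact mul_le_mul_of_nonneg_left (by rw [hM]; linarith [norm_nonneg (σ Y)]) (norm_nonneg _)
  have hM0 : 0 ≤ M := by rw [hM]; positivity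
  have hψn : ∀ z : a, ‖ψ z‖ * I ≤ (1 + ‖σ (z : 𝓞 F)‖) * (M + 1) := by
    intro z
    have hb : ‖ψ z‖ ≤ (‖σ (z : 𝓞 F)‖ * M) / I := by
      rw [pi_norm_le_iff_of_nonneg (by positivity)]
      intro i
      rw [le_div_iff₀ hI, ← Int.norm_cast_real, Real.norm_eq_abs]
      fin_cases i
      · exact h0 z
      · exact h1' z
    rw [le_div_iff₀ hI] at hb
    have := norm_nonneg (σ (z : 𝓞 F))
    nlinarith
  have hs : Summable fun v : Fin 2 → ℤ => ‖v‖ ^ (-(5 / 2 : ℝ)) :=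
    EisensteinSeries.summable_one_div_norm_rpow (by norm_num)
  have hs2 : Summable fun z : a => ((M + 1) / I) ^ (5 / 2 : ℝ) * ‖ψ z‖ ^ (-(5 / 2 : ℝ)) :=
    (hs.comp_injective hinj).mul_left _
  refine Summable.of_norm_bounded_eventually hs2 ?_
  filter_upwards [Filter.eventually_cofinite_ne (0 : a)] with z hz
  have hz1 : ψ z ≠ 0 := by
    intro h2
    apply hz
    apply Subtype.ext
    rw [hψ z, h2]
    simp
  have hz2 : 0 < ‖ψ z‖ := norm_pos_iff.2 hz1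
  have hp : 0 < 1 + ‖σ (z : 𝓞 F)‖ := by positivity
  rw [Real.norm_of_nonneg (by positivity), Real.rpow_neg hp.le, Real.rpow_neg hz2.le,
    ← div_eq_mul_inv, ← Real.div_rpow (by positivity) hz2.le,
    ← Real.inv_rpow hp.le]
  apply Real.rpow_le_rpow (by positivity) _ (by norm_num)
  rw [inv_eq_one_div, div_le_div_iff₀ hp hz2, div_mul_eq_mul_div, le_div_iff₀ hI]
  linarith [hψn z]

theorem Qa_nonneg (a : Ideal (𝓞 F)) (x : 𝓞 F) : 0 ≤ Qa σ a x := by
  unfold Qa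
  exact div_nonneg (Complex.normSq_nonneg _) (Nat.cast_nonneg _)

/-- the bound for the terms -/
theorem bound (w r : ℕ) (hw : 5 ≤ w) {a b : Ideal (𝓞 F)} (ha : a ≠ ⊥) (hb : b ≠ ⊥) :
    ∃ C : ℝ, ∀ x y : 𝓞 F, 1 ≤ Qa σ a x - Qa σ b y → ‖PT w r σ a b x y‖ ≤
      C * ((1 + ‖σ x‖) ^ (-(5 / 2 : ℝ)) * (1 + ‖σ y‖) ^ (-(5 / 2 : ℝ))) := by
  set CJ : ℝ := ∑ j ∈ Finset.range (r + 1), (r.choose j : ℝ) * ((w + r + j - 1).choose j : ℝ)
    with hCJ
  have hCJ0 : 0 ≤ CJ := by rw [hCJ]; positivity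
  have ha0 : Ideal.absNorm a ≠ 0 := by rwa [Ne, Ideal.absNorm_eq_zero_iff]
  have hb0 : Ideal.absNorm b ≠ 0 := by rwa [Ne, Ideal.absNorm_eq_zero_iff]
  have hA : (1 : ℝ) ≤ Ideal.absNorm a := by exact_mod_cast Nat.one_le_iff_ne_zero.2 ha0
  have hB : (1 : ℝ) ≤ Ideal.absNorm b := by exact_mod_cast Nat.one_le_iff_ne_zero.2 hb0
  set A : ℝ := ((Ideal.absNorm a : ℕ) : ℝ) with hAdef
  set B : ℝ := ((Ideal.absNorm b : ℕ) : ℝ) with hBdef
  refine ⟨A ^ (w + r) * CJ * (2 * (1 + B)) ^ (5 / 2 : ℝ), fun x y hxy => ?_⟩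
  have hy0 : 0 ≤ Qa σ b y := Qa_nonneg b y
  have hx1 : 1 ≤ Qa σ a x := by linarith
  have hQx : Qa σ a x * A = ‖σ x‖ ^ 2 := by
    unfold Qa
    rw [div_mul_cancel₀ _ (by positivity), Complex.normSq_eq_norm_sq]
  have hQy : Qa σ b y * B = ‖σ y‖ ^ 2 := by
    unfold Qa
    rw [div_mul_cancel₀ _ (by positivity), Complex.normSq_eq_norm_sq]
  set X : ℝ := ‖σ x‖ with hX
  set Y : ℝ := ‖σ y‖ with hY
  have hXn : 0 ≤ X := norm_nonneg _
  have hYn : 0 ≤ Y := norm_nonneg _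
  have hX1 : 1 ≤ X := by
    have : 1 ≤ X ^ 2 := by nlinarith
    nlinarith
  have hX0 : 0 < X := by linarith
  have hYX : Y ≤ B * X := by
    apply le_of_sq_le_sq _ (by positivity)
    have h1 : Qa σ b y ≤ Qa σ a x := by linarith
    have h2 : Y ^ 2 ≤ B * (Qa σ a x) := by nlinarith
    have h3 : Qa σ a x ≤ X ^ 2 := by nlinarith
    have h4 : B * Qa σ a x ≤ B * X ^ 2 := mul_le_mul_of_nonneg_left h3 (by positivity)
    have h5 : B * X ^ 2 ≤ B ^ 2 * X ^ 2 := by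
      apply mul_le_mul_of_nonneg_right _ (by positivity)
      nlinarith
    rw [mul_pow]
    linarith
  have hJ : ‖Jr w r ((Qa σ b y : ℂ) / (Qa σ a x : ℂ))‖ ≤ CJ := by
    apply norm_Jr_le
    rw [norm_div, Complex.norm_of_nonneg hy0, Complex.norm_of_nonneg (by linarith)]
    exact div_le_one_of_le₀ (by linarith) (by linarith)
  have h1 : ‖PT w r σ a b x y‖ ≤ A ^ (w + r) * CJ * (X ^ w)⁻¹ := by
    unfold PT
    rw [norm_mul, norm_mul, norm_pow, norm_inv, norm_pow,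
      Complex.norm_of_nonneg (by linarith : 0 ≤ Qa σ a x), ← hX]
    have hq : Qa σ a x = X ^ 2 / A := by
      rw [← hQx]
      field_simp
    have e1 : X ^ (w + 2 * r) * ((Qa σ a x) ^ (w + r))⁻¹ = A ^ (w + r) * (X ^ w)⁻¹ := by
      rw [hq, div_pow, inv_div, ← pow_mul]
      have e2 : X ^ (2 * (w + r)) = X ^ (w + 2 * r) * X ^ w := by
        rw [← pow_add]
        congr 1
        ring
      rw [e2]
      field_simp
    rw [e1]
    calc A ^ (w + r) * (X ^ w)⁻¹ * ‖Jr w r ((Qa σ b y : ℂ) / (Qa σ a x : ℂ))‖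
        ≤ A ^ (w + r) * (X ^ w)⁻¹ * CJ := by gcongr
      _ = A ^ (w + r) * CJ * (X ^ w)⁻¹ := by ring
  refine h1.trans ?_
  have h2 : (X ^ w)⁻¹ ≤ (X ^ 5)⁻¹ := by
    apply inv_anti₀ (by positivity)
    exact pow_le_pow_right₀ hX1 hw
  have hT : (1 + X) * (1 + Y) ≤ 2 * (1 + B) * X ^ 2 := by
    have h3 : 1 + X ≤ 2 * X := by linarith
    have h4 : 1 + Y ≤ (1 + B) * X := by nlinarith
    calc (1 + X) * (1 + Y) ≤ (2 * X) * ((1 + B) * X) :=
          mul_le_mul h3 h4 (by positivity) (by positivity)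
      _ = _ := by ring
  have h3 : (X ^ 5)⁻¹ ≤ (2 * (1 + B)) ^ (5 / 2 : ℝ) *
      ((1 + X) ^ (-(5 / 2 : ℝ)) * (1 + Y) ^ (-(5 / 2 : ℝ))) := by
    rw [← Real.mul_rpow (by positivity) (by positivity), Real.rpow_neg (by positivity),
      ← div_eq_mul_inv, inv_eq_one_div, div_le_div_iff₀ (by positivity) (by positivity), one_mul]
    calc ((1 + X) * (1 + Y)) ^ (5 / 2 : ℝ) ≤ (2 * (1 + B) * X ^ 2) ^ (5 / 2 : ℝ) :=
          Real.rpow_le_rpow (by positivity) hT (by norm_num)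
      _ = (2 * (1 + B)) ^ (5 / 2 : ℝ) * X ^ 5 := by
          rw [Real.mul_rpow (by positivity) (by positivity)]
          congr 1
          rw [← Real.rpow_natCast X 2, ← Real.rpow_mul hXn, ← Real.rpow_natCast X 5]
          congr 1
          norm_num
  calc A ^ (w + r) * CJ * (X ^ w)⁻¹ ≤ A ^ (w + r) * CJ * ((2 * (1 + B)) ^ (5 / 2 : ℝ) *
        ((1 + X) ^ (-(5 / 2 : ℝ)) * (1 + Y) ^ (-(5 / 2 : ℝ)))) := by
        gcongr
        exact h2.trans h3
    _ = _ := by ring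

omit [NumberField F] in
theorem pairs_tsum (a b : Ideal (𝓞 F)) (R : 𝓞 F → 𝓞 F → Prop) (f : 𝓞 F × 𝓞 F → ℂ) :
    ∑' p : {p : a × b // R p.1 p.2}, f ((p.1.1 : 𝓞 F), (p.1.2 : 𝓞 F)) =
      ∑' p, {p : 𝓞 F × 𝓞 F | p.1 ∈ a ∧ p.2 ∈ b ∧ R p.1 p.2}.indicator f p := by
  set E : Set (𝓞 F × 𝓞 F) := {p : 𝓞 F × 𝓞 F | p.1 ∈ a ∧ p.2 ∈ b ∧ R p.1 p.2} with hE
  have hi : Function.Injective
      (fun p : {p : a × b // R p.1 p.2} => (((p.1.1 : 𝓞 F), (p.1.2 : 𝓞 F)) : 𝓞 F × 𝓞 F)) := by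
    intro p p' h
    have h1 := congrArg Prod.fst h
    have h2 := congrArg Prod.snd h
    dsimp only at h1 h2
    exact Subtype.ext (Prod.ext (Subtype.ext h1) (Subtype.ext h2))
  rw [← hi.tsum_eq (f := E.indicator f)]
  · refine tsum_congr fun p => ?_
    rw [Set.indicator_of_mem]
    exact ⟨p.1.1.2, p.1.2.2, p.2⟩
  · intro p hp
    have hpE : p ∈ E := by
      by_contra h
      exact hp (Set.indicator_of_notMem h f)
    exact ⟨⟨(⟨p.1, hpE.1⟩, ⟨p.2, hpE.2.1⟩), hpE.2.2⟩, rfl⟩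

omit [NumberField F] in
theorem pairs_summable (a b : Ideal (𝓞 F)) (R : 𝓞 F → 𝓞 F → Prop) (f : 𝓞 F × 𝓞 F → ℂ)
    (h : Summable fun p : {p : a × b // R p.1 p.2} => f ((p.1.1 : 𝓞 F), (p.1.2 : 𝓞 F))) :
    Summable ({p : 𝓞 F × 𝓞 F | p.1 ∈ a ∧ p.2 ∈ b ∧ R p.1 p.2}.indicator f) := by
  set E : Set (𝓞 F × 𝓞 F) := {p : 𝓞 F × 𝓞 F | p.1 ∈ a ∧ p.2 ∈ b ∧ R p.1 p.2} with hE
  have hi : Function.Injective
      (fun p : {p : a × b // R p.1 p.2} => (((p.1.1 : 𝓞 F), (p.1.2 : 𝓞 F)) : 𝓞 F × 𝓞 F)) := by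
    intro p p' h
    have h1 := congrArg Prod.fst h
    have h2 := congrArg Prod.snd h
    dsimp only at h1 h2
    exact Subtype.ext (Prod.ext (Subtype.ext h1) (Subtype.ext h2))
  rw [← hi.summable_iff]
  · convert h using 1
    funext p
    have hpE : ((p.1.1 : 𝓞 F), (p.1.2 : 𝓞 F)) ∈ E := ⟨p.1.1.2, p.1.2.2, p.2⟩
    exact Set.indicator_of_mem hpE f
  · intro p hp
    refine Set.indicator_of_notMem (fun hpE => hp ?_) f
    exact ⟨⟨(⟨p.1, hpE.1⟩, ⟨p.2, hpE.2.1⟩), hpE.2.2⟩, rfl⟩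

/-- the norm of an ideal prime to `s` is prime to `D` -/
theorem coprime_norm (h1 : StBasD) (H : DatD D s σ χ cj) {a : Ideal (𝓞 F)}
    (ha : IsCoprime a (Ideal.span {s})) : IsCoprime (Ideal.absNorm a : ℤ) (D : ℤ) := by
  obtain ⟨-, -, b3, -, -, -, b7, -, b9, b10⟩ := h1 D F _ _ s σ χ cj H
  rw [Ideal.isCoprime_iff_exists] at ha
  obtain ⟨i, hi, j, hj, hij⟩ := ha
  obtain ⟨t, rfl⟩ := Ideal.mem_span_singleton.1 hj
  have hci : cj i = 1 + s * cj t := by
    have := congrArg cj hij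
    rw [map_add, map_mul, b3, map_one] at this
    linear_combination this
  have hm : i * cj i ∈ Ideal.span {(Ideal.absNorm a : 𝓞 F)} := by
    rw [← b7 a]
    exact Ideal.mul_mem_mul hi (Ideal.mem_map_of_mem (cj : 𝓞 F →+* 𝓞 F) hi)
  obtain ⟨u, hu⟩ := Ideal.mem_span_singleton.1 hm
  obtain ⟨n, v, hv⟩ := b9 u
  have hd : s ∣ ((1 - (Ideal.absNorm a : ℤ) * n : ℤ) : 𝓞 F) := by
    refine ⟨t - cj t * i + (Ideal.absNorm a : 𝓞 F) * v, ?_⟩
    push_cast
    rw [hci] at hu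
    linear_combination -hij + hu + (Ideal.absNorm a : 𝓞 F) * hv
  obtain ⟨k, hk⟩ := (b10 _).1 hd
  exact ⟨n, k, by linear_combination -hk⟩

end

end RhoAux

open RhoAux in
/-- Module G31. -/
theorem stRho (h1 : StBasD) (h2 : StRam) (h3 : StBaseD) (_h4 : StMatS) : StRho := by
  intro D _ F _ _ s σ χ cj w r m a b H hw hm ha hb has hbs
  classical
  obtain ⟨b1, b2, b3, b4, b5, b6, b7, b8, b9, b10⟩ := h1 D F _ _ s σ χ cj H
  obtain ⟨c1, -⟩ := h3 D F _ _ s σ χ cj H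
  have hD3 : 3 < D := H.odd.2.2
  have hDm : (1 : ℝ) ≤ D * m := by
    have e1 : (1 : ℝ) ≤ D := by exact_mod_cast (by omega : 1 ≤ D)
    have e2 : (1 : ℝ) ≤ m := by exact_mod_cast hm
    nlinarith
  -- convergence
  have hsum : Summable fun p : {p : a × b // Qa σ a p.1 - Qa σ b p.2 = D * m} =>
      ‖PT w r σ a b p.1.1 p.1.2‖ := by
    obtain ⟨C, hC⟩ := bound (σ := σ) w r hw ha hb
    obtain ⟨X, Y, hXY⟩ := c1 a ha
    obtain ⟨X', Y', hXY'⟩ := c1 b hb
    have e1 := (summable_ideal hXY).mul_of_nonneg (summable_ideal hXY')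
      (fun z => by positivity) (fun z => by positivity)
    refine Summable.of_nonneg_of_le (fun p => norm_nonneg _) (fun p => ?_)
      ((e1.mul_left C).comp_injective Subtype.val_injective)
    exact hC p.1.1 p.1.2 (by rw [p.2]; exact hDm)
  refine ⟨hsum, ?_⟩
  set f : 𝓞 F × 𝓞 F → ℂ := fun p => PT w r σ a b p.1 p.2 with hf
  set E : Set (𝓞 F × 𝓞 F) := {p | p.1 ∈ a ∧ p.2 ∈ b ∧ Qa σ a p.1 - Qa σ b p.2 = D * m} with hE
  have hsE : Summable (E.indicator f) :=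
    pairs_summable a b (fun x y => Qa σ a x - Qa σ b y = D * m) f hsum.of_norm
  -- residues
  choose N hN using b9
  have hNA : IsCoprime (Ideal.absNorm a : ℤ) (D : ℤ) := coprime_norm h1 H has
  have hNB : IsCoprime (Ideal.absNorm b : ℤ) (D : ℤ) := coprime_norm h1 H hbs
  have hres : ∀ x : 𝓞 F, (D : ℤ) ∣ (Ideal.absNorm (Ideal.span {x}) : ℤ) - N x ^ 2 := by
    intro x
    rw [← b10]
    push_cast
    rw [← b5 x]
    obtain ⟨u, hu⟩ := hN x
    obtain ⟨v, hv⟩ := b4 x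
    refine ⟨x * (u - v) + N x * u, ?_⟩
    linear_combination (x + (N x : 𝓞 F)) * hu - x * hv
  have hdiv : ∀ p ∈ E, (D : ℤ) ∣ N p.1 ^ 2 * (Ideal.absNorm b : ℤ) -
      N p.2 ^ 2 * (Ideal.absNorm a : ℤ) := by
    intro p hp
    have ha0 : (Ideal.absNorm a : ℝ) ≠ 0 := by
      have : Ideal.absNorm a ≠ 0 := by rwa [Ne, Ideal.absNorm_eq_zero_iff]
      exact_mod_cast this
    have hb0 : (Ideal.absNorm b : ℝ) ≠ 0 := by
      have : Ideal.absNorm b ≠ 0 := by rwa [Ne, Ideal.absNorm_eq_zero_iff]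
      exact_mod_cast this
    have h5 := hp.2.2
    unfold Qa at h5
    rw [b6, b6, div_sub_div _ _ ha0 hb0, div_eq_iff (mul_ne_zero ha0 hb0)] at h5
    have h6 : (Ideal.absNorm (Ideal.span {p.1}) : ℤ) * (Ideal.absNorm b : ℤ) -
        (Ideal.absNorm a : ℤ) * (Ideal.absNorm (Ideal.span {p.2}) : ℤ) =
        D * m * ((Ideal.absNorm a : ℤ) * (Ideal.absNorm b : ℤ)) := by exact_mod_cast h5
    obtain ⟨u, hu⟩ := hres p.1
    obtain ⟨v, hv⟩ := hres p.2
    refine ⟨m * ((Ideal.absNorm a : ℤ) * (Ideal.absNorm b : ℤ)) - u * (Ideal.absNorm b : ℤ) +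
      v * (Ideal.absNorm a : ℤ), ?_⟩
    linear_combination h6 - (Ideal.absNorm b : ℤ) * hu + (Ideal.absNorm a : ℤ) * hv
  -- the sets for the cusps
  have hS1 : ∀ g : ℕ, g ∣ D → ∀ p : 𝓞 F × 𝓞 F,
      {p : 𝓞 F × 𝓞 F | p.1 ∈ a * ram s g ∧ p.2 ∈ b * ram s g ∧
        Qa σ a p.1 - Qa σ b p.2 = D * m}.indicator f p =
      if ((g : ℤ) ∣ N p.1 ∧ (g : ℤ) ∣ N p.2) then E.indicator f p else 0 := by
    intro g hg p
    obtain ⟨-, -, -, d4, d5⟩ := h2 D F _ _ s σ χ cj H g hg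
    have e1 : p.1 ∈ a * ram s g ↔ p.1 ∈ a ∧ (g : ℤ) ∣ N p.1 := by
      rw [d5 a p.1 has, d4 p.1 (N p.1) (hN p.1)]
    have e2 : p.2 ∈ b * ram s g ↔ p.2 ∈ b ∧ (g : ℤ) ∣ N p.2 := by
      rw [d5 b p.2 hbs, d4 p.2 (N p.2) (hN p.2)]
    simp only [Set.indicator_apply, Set.mem_ofPred_eq, hE, e1, e2]
    by_cases g1 : (g : ℤ) ∣ N p.1 <;> by_cases g2 : (g : ℤ) ∣ N p.2 <;> simp [g1, g2]
  have hS2 : ∀ ρ : ZMod D, ∀ p : 𝓞 F × 𝓞 F,
      {p : 𝓞 F × 𝓞 F | p.1 ∈ a ∧ p.2 ∈ b ∧ (Qa σ a p.1 - Qa σ b p.2 = D * m ∧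
        CongS s ρ p.1 p.2)}.indicator f p =
      if ((N p.1 : ZMod D) = ρ * (N p.2 : ZMod D)) then E.indicator f p else 0 := by
    intro ρ p
    have e1 : CongS s ρ p.1 p.2 ↔ (N p.1 : ZMod D) = ρ * (N p.2 : ZMod D) := by
      obtain ⟨u, hu⟩ := hN p.1
      obtain ⟨v, hv⟩ := hN p.2
      have e2 : ∀ n : ℤ, s ∣ p.1 - n * p.2 ↔ (N p.1 : ZMod D) = (n : ZMod D) * (N p.2 : ZMod D) := by
        intro n
        have e3 : p.1 - n * p.2 = ((N p.1 - n * N p.2 : ℤ) : 𝓞 F) + s * (u - n * v) := by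
          push_cast
          linear_combination hu - (n : 𝓞 F) * hv
        rw [e3, dvd_add_left (dvd_mul_right _ _), b10, ← ZMod.intCast_zmod_eq_zero_iff_dvd]
        push_cast
        rw [sub_eq_zero]
      constructor
      · rintro ⟨n, rfl, h5⟩
        exact (e2 n).1 h5
      · intro h5
        obtain ⟨n, rfl⟩ := ZMod.intCast_surjective ρ
        exact ⟨n, rfl, (e2 n).2 h5⟩
    simp only [Set.indicator_apply, Set.mem_ofPred_eq, hE, e1]
    by_cases g1 : (N p.1 : ZMod D) = ρ * (N p.2 : ZMod D) <;> simp [g1]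
  -- pointwise identity
  have hpt : ∀ p : 𝓞 F × 𝓞 F,
      ∑ g ∈ D.divisors, (jacobiSym ((Ideal.absNorm a : ℤ) * (Ideal.absNorm b : ℤ)) (D / g) : ℂ) *
        (if ((g : ℤ) ∣ N p.1 ∧ (g : ℤ) ∣ N p.2) then E.indicator f p else 0) =
      ∑ ρ : ZMod D, (if ρ ^ 2 * (Ideal.absNorm b : ZMod D) = (Ideal.absNorm a : ZMod D) then
        (if ((N p.1 : ZMod D) = ρ * (N p.2 : ZMod D)) then E.indicator f p else 0) else 0) := by
    intro p
    by_cases hp : p ∈ E
    · have hodd : Odd D := by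
        have := H.odd.2.1
        exact Nat.odd_iff.2 (by omega)
      have hk := key D H.odd.1 hodd hNA hNB (hdiv p hp)
      have e1 : ∑ g ∈ D.divisors,
          (jacobiSym ((Ideal.absNorm a : ℤ) * (Ideal.absNorm b : ℤ)) (D / g) : ℂ) *
          (if ((g : ℤ) ∣ N p.1 ∧ (g : ℤ) ∣ N p.2) then E.indicator f p else 0) =
          ((LL ((Ideal.absNorm a : ℤ) * (Ideal.absNorm b : ℤ)) (N p.1) (N p.2) D : ℤ) : ℂ) *
            E.indicator f p := by
        unfold LL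
        rw [Int.cast_sum, Finset.sum_mul]
        refine Finset.sum_congr rfl fun g _ => ?_
        split_ifs <;> simp
      have e2 : ∑ ρ : ZMod D, (if ρ ^ 2 * (Ideal.absNorm b : ZMod D) = (Ideal.absNorm a : ZMod D)
          then (if ((N p.1 : ZMod D) = ρ * (N p.2 : ZMod D)) then E.indicator f p else 0) else 0) =
          (RR (Ideal.absNorm a : ℤ) (Ideal.absNorm b : ℤ) (N p.1) (N p.2) D : ℂ) *
            E.indicator f p := by
        unfold RR
        rw [Nat.card_eq_fintype_card, Fintype.card_subtype, Finset.card_filter, Nat.cast_sum,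
          Finset.sum_mul]
        refine Finset.sum_congr rfl fun ρ _ => ?_
        push_cast
        by_cases g1 : ρ ^ 2 * (Ideal.absNorm b : ZMod D) = (Ideal.absNorm a : ZMod D) <;>
          by_cases g2 : (N p.1 : ZMod D) = ρ * (N p.2 : ZMod D) <;> simp [g1, g2]
      rw [e1, e2, hk]
      norm_cast
    · simp [Set.indicator_of_notMem hp]
  -- assembly
  have hsub : ∀ (P : 𝓞 F × 𝓞 F → Prop) [DecidablePred P],
      Summable fun p => if P p then E.indicator f p else 0 := by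
    intro P _
    have : (fun p => if P p then E.indicator f p else 0) = {p | P p}.indicator (E.indicator f) := by
      funext p
      simp only [Set.indicator_apply, Set.mem_ofPred_eq]
    rw [this]
    exact hsE.indicator _
  unfold SSD
  congr 1
  have l1 : ∀ g ∈ D.divisors,
      (jacobiSym (Ideal.absNorm a * Ideal.absNorm b) (D / g) : ℂ) *
        ∑' p : {p : (a * ram s g : Ideal (𝓞 F)) × (b * ram s g : Ideal (𝓞 F)) //
          Qa σ a p.1 - Qa σ b p.2 = D * m}, PT w r σ a b p.1.1 p.1.2 =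
      ∑' p, (jacobiSym (Ideal.absNorm a * Ideal.absNorm b) (D / g) : ℂ) *
        (if ((g : ℤ) ∣ N p.1 ∧ (g : ℤ) ∣ N p.2) then E.indicator f p else 0) := by
    intro g hg
    rw [tsum_mul_left]
    congr 1
    rw [← tsum_congr (hS1 g (Nat.mem_divisors.1 hg).1)]
    exact pairs_tsum (a * ram s g) (b * ram s g) (fun x y => Qa σ a x - Qa σ b y = D * m) f
  rw [Finset.sum_congr rfl l1, ← Summable.tsum_finsetSum (fun g _ => (hsub _).mul_left _)]
  have l2 : ∀ ρ : ZMod D, (if ρ ^ 2 * (Ideal.absNorm b : ZMod D) = (Ideal.absNorm a : ZMod D) then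
      TT w r m s σ a b ρ else 0) =
      ∑' p : 𝓞 F × 𝓞 F, (if ρ ^ 2 * (Ideal.absNorm b : ZMod D) = (Ideal.absNorm a : ZMod D) then
        (if ((N p.1 : ZMod D) = ρ * (N p.2 : ZMod D)) then E.indicator f p else 0) else 0) := by
    intro ρ
    split_ifs
    · rw [← tsum_congr (hS2 ρ)]
      exact pairs_tsum a b (fun x y => Qa σ a x - Qa σ b y = D * m ∧ CongS s ρ x y) f
    · rw [tsum_zero]
  rw [Finset.sum_congr rfl (fun ρ _ => l2 ρ), ← Summable.tsum_finsetSum]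
  · exact tsum_congr hpt
  · intro ρ _
    split_ifs
    · exact hsub _
    · exact summable_zero

end RZ

end Pool.Agent.Lib.MP_7c08ba_nt
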