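import Pool.Agent.Lib.MP_7c08ba_nt.RZ.StA

set_option autoImplicit false

/-! (A2) integrals over the strip. -/

namespace Pool.Agent.Lib.MP_7c08ba_nt

namespace RZ

open MeasureTheory UpperHalfPlane Set
open scoped NNReal

namespace StripAux

/-- the density -/
noncomputable def den (z : ℍ) : ℝ≥0 := (1 / NNReal.mk z.im z.im_pos.le : ℝ≥0) ^ 2

theorem measurable_den : Measurable den := by
  apply Measurable.pow_const
  apply Measurable.div measurable_const
  exact (UpperHalfPlane.continuous_im.subtype_mk _).measurable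

theorem measurableSet_strip : MeasurableSet strip := by
  have h : strip = (fun z : ℍ => z.re) ⁻¹' Ioc 0 1 := rfl
  rw [h]
  exact UpperHalfPlane.continuous_re.measurable measurableSet_Ioc

/-- real coordinates -/
noncomputable def e (z : ℍ) : ℝ × ℝ := Complex.measurableEquivRealProd (z : ℂ)

theorem e_emb : MeasurableEmbedding e :=
  Complex.measurableEquivRealProd.measurableEmbedding.comp measurableEmbedding_coe

theorem map_e : ((volume.comap UpperHalfPlane.coe : Measure ℍ).restrict strip).map e =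
    (volume.restrict (Ioc (0 : ℝ) 1)).prod (volume.restrict (Ioi (0 : ℝ))) := by
  have h1 : strip = e ⁻¹' (Ioc (0 : ℝ) 1 ×ˢ Ioi (0 : ℝ)) := by
    ext z
    simp only [strip, e, mem_ofPred_eq, mem_preimage, Complex.measurableEquivRealProd_apply,
      mem_prod, mem_Ioc, mem_Ioi]
    exact ⟨fun h => ⟨h, z.im_pos⟩, fun h => h.1⟩
  have h4 : range UpperHalfPlane.coe =
      Complex.measurableEquivRealProd ⁻¹' {p : ℝ × ℝ | 0 < p.2} := by
    ext z
    simp only [mem_range, mem_preimage, mem_ofPred_eq, Complex.measurableEquivRealProd_apply]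
    exact ⟨fun ⟨w, hw⟩ => hw ▸ w.im_pos, fun h => ⟨⟨z, h⟩, rfl⟩⟩
  have h2 : (volume.comap UpperHalfPlane.coe : Measure ℍ).map e =
      volume.restrict {p : ℝ × ℝ | 0 < p.2} := by
    have h3 : e = Complex.measurableEquivRealProd ∘ UpperHalfPlane.coe := rfl
    rw [h3, ← Measure.map_map Complex.measurableEquivRealProd.measurable measurable_coe,
      measurableEmbedding_coe.map_comap, h4,
      ← Complex.measurableEquivRealProd.measurableEmbedding.restrict_map,
      Complex.volume_preserving_equiv_real_prod.map_eq]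
  rw [Measure.prod_restrict, h1, ← e_emb.restrict_map, h2, Measure.restrict_restrict]
  · congr 1
    ext p
    simp only [mem_inter_iff, mem_prod, mem_Ioc, mem_Ioi, mem_ofPred_eq]
    exact ⟨fun h => h.1, fun h => ⟨h, h.2⟩⟩
  · exact measurableSet_Ioc.prod measurableSet_Ioi

/-- the function in real coordinates -/
noncomputable def H (G : ℂ → ℂ) (p : ℝ × ℝ) : ℂ := G (p.1 + p.2 * Complex.I) / (p.2 : ℂ) ^ 2

theorem den_smul (G : ℂ → ℂ) (z : ℍ) : den z • G z = H G (e z) := by
  have h1 : (z : ℂ) = ((z : ℂ).re : ℂ) + ((z : ℂ).im : ℂ) * Complex.I := (Complex.re_add_im _).symm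
  have h2 : ((den z : ℝ) : ℂ) = 1 / (((z : ℂ).im : ℝ) : ℂ) ^ 2 := by
    rw [den]
    push_cast
    rw [div_pow, one_pow]
    rfl
  rw [NNReal.smul_def, Complex.real_smul, h2]
  simp only [H, e, Complex.measurableEquivRealProd_apply]
  rw [← h1, one_div_mul_eq_div]

theorem aesm (G : ℂ → ℂ) (hG : ContinuousOn G {z | 0 < z.im}) :
    AEStronglyMeasurable (H G)
      ((volume.restrict (Ioc (0 : ℝ) 1)).prod (volume.restrict (Ioi (0 : ℝ)))) := by
  rw [Measure.prod_restrict]
  refine ContinuousOn.aestronglyMeasurable ?_ (measurableSet_Ioc.prod measurableSet_Ioi)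
  have h1 : ContinuousOn (fun p : ℝ × ℝ => (p.1 : ℂ) + p.2 * Complex.I)
      (Ioc (0 : ℝ) 1 ×ˢ Ioi (0 : ℝ)) := by fun_prop
  refine ContinuousOn.div (hG.comp h1 ?_) (by fun_prop) ?_
  · rintro ⟨x, y⟩ ⟨_, hy⟩
    simpa using hy
  · rintro ⟨x, y⟩ ⟨_, hy⟩
    have : y ≠ 0 := ne_of_gt hy
    simpa using this

theorem integrableH (G : ℂ → ℂ) (b : ℝ → ℝ) (hG : ContinuousOn G {z | 0 < z.im})
    (hb : ∀ x y : ℝ, 0 < x → x ≤ 1 → 0 < y → ‖G (x + y * Complex.I)‖ ≤ b y)
    (hi : IntegrableOn (fun y : ℝ => b y / y ^ 2) (Ioi 0)) :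
    Integrable (H G)
      ((volume.restrict (Ioc (0 : ℝ) 1)).prod (volume.restrict (Ioi (0 : ℝ)))) := by
  have h1 : Integrable (fun p : ℝ × ℝ => (1 : ℝ) * (b p.2 / p.2 ^ 2))
      ((volume.restrict (Ioc (0 : ℝ) 1)).prod (volume.restrict (Ioi (0 : ℝ)))) :=
    Integrable.mul_prod (f := fun _ : ℝ => (1 : ℝ)) (g := fun y : ℝ => b y / y ^ 2)
      (integrableOn_const (by simp)) hi
  refine h1.mono' (aesm G hG) ?_
  rw [Measure.prod_restrict]
  refine (ae_restrict_iff' (measurableSet_Ioc.prod measurableSet_Ioi)).2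
    (Filter.Eventually.of_forall ?_)
  rintro ⟨x, y⟩ ⟨⟨hx0, hx1⟩, hy⟩
  have hy' : (0 : ℝ) < y := hy
  simp only [H, norm_div, norm_pow, Complex.norm_real, one_mul, Real.norm_eq_abs, sq_abs]
  exact div_le_div_of_nonneg_right (hb x y hx0 hx1 hy') (by positivity)

end StripAux

open StripAux in
theorem stStrip : StStrip := by
  intro G b hG hb hi
  have hI := integrableH G b hG hb hi
  have hvol : (volume : Measure ℍ) =
      (volume.comap UpperHalfPlane.coe).withDensity fun z => (den z : ENNReal) := by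
    rw [UpperHalfPlane.volume_def]
    rfl
  have h1 : Integrable (fun z => H G (e z))
      ((volume.comap UpperHalfPlane.coe : Measure ℍ).restrict strip) := by
    rw [← map_e] at hI
    exact (e_emb.integrable_map_iff).1 hI
  constructor
  · rw [IntegrableOn, hvol, restrict_withDensity measurableSet_strip,
      integrable_withDensity_iff_integrable_smul measurable_den]
    simpa only [den_smul] using h1
  · rw [hvol, setIntegral_withDensity_eq_setIntegral_smul measurable_den _ measurableSet_strip]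
    simp only [den_smul]
    rw [← e_emb.integral_map, map_e, integral_prod_symm _ hI]
    refine setIntegral_congr_fun measurableSet_Ioi fun y _ => ?_
    simp only [H]
    rw [integral_div, intervalIntegral.integral_of_le zero_le_one]

end RZ

end Pool.Agent.Lib.MP_7c08ba_nt
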