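import Pool.Agent.Lib.MP_7c08ba_nt.RZ.StD

set_option autoImplicit false

/-! (D13) the sums over pairs only depend on the classes. -/

namespace Pool.Agent.Lib.MP_7c08ba_nt

namespace RZ

open NumberField MeasureTheory UpperHalfPlane Set
open scoped MatrixGroups ComplexConjugate nonZeroDivisors

namespace SSinvAux

variable {F : Type} [Field F] [NumberField F]

/-- multiplication by `t`, a bijection of `a` and `(t) a` -/
noncomputable def me (t : 𝓞 F) (ht : t ≠ 0) (a : Ideal (𝓞 F)) :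
    a ≃ (Ideal.span {t} * a : Ideal (𝓞 F)) :=
  Equiv.ofBijective
    (fun x => ⟨t * (x : 𝓞 F), Ideal.mem_span_singleton_mul.2 ⟨x, x.2, rfl⟩⟩) (by
      constructor
      · intro x y hxy
        have h1 : t * (x : 𝓞 F) = t * (y : 𝓞 F) := congrArg Subtype.val hxy
        exact Subtype.ext (mul_left_cancel₀ ht h1)
      · rintro ⟨y, hy⟩
        obtain ⟨z, hz, rfl⟩ := Ideal.mem_span_singleton_mul.1 hy
        exact ⟨⟨z, hz⟩, rfl⟩)

omit [NumberField F] in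
theorem me_val (t : 𝓞 F) (ht : t ≠ 0) (a : Ideal (𝓞 F)) (x : a) :
    ((me t ht a x : (Ideal.span {t} * a : Ideal (𝓞 F))) : 𝓞 F) = t * (x : 𝓞 F) := rfl

variable {σ : F →+* ℂ}

theorem Qa_mul (hn : ∀ x : 𝓞 F, Complex.normSq (σ x) = (Ideal.absNorm (Ideal.span {x}) : ℝ))
    (t : 𝓞 F) (ht : t ≠ 0) (a : Ideal (𝓞 F)) (x : 𝓞 F) :
    Qa σ (Ideal.span {t} * a) (t * x) = Qa σ a x := by
  have h1 : Complex.normSq (σ t) ≠ 0 := by
    rw [Ne, Complex.normSq_eq_zero, map_eq_zero]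
    simpa using ht
  unfold Qa
  rw [map_mul Ideal.absNorm, Nat.cast_mul, ← hn t]
  rw [show (((t * x : 𝓞 F)) : F) = (t : F) * (x : F) from rfl, map_mul σ, map_mul,
    mul_div_mul_left _ _ h1]

theorem PT_mul_left (hn : ∀ x : 𝓞 F, Complex.normSq (σ x) =
      (Ideal.absNorm (Ideal.span {x}) : ℝ)) (w r : ℕ)
    (t : 𝓞 F) (ht : t ≠ 0) (a b : Ideal (𝓞 F)) (x y : 𝓞 F) :
    PT w r σ (Ideal.span {t} * a) b (t * x) y = σ t ^ (w + 2 * r) * PT w r σ a b x y := by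
  unfold PT
  rw [Qa_mul hn t ht]
  rw [show (((t * x : 𝓞 F)) : F) = (t : F) * (x : F) from rfl, map_mul σ, mul_pow]
  ring

theorem PT_mul_right (hn : ∀ x : 𝓞 F, Complex.normSq (σ x) =
      (Ideal.absNorm (Ideal.span {x}) : ℝ)) (w r : ℕ)
    (t : 𝓞 F) (ht : t ≠ 0) (a b : Ideal (𝓞 F)) (x y : 𝓞 F) :
    PT w r σ a (Ideal.span {t} * b) x (t * y) = PT w r σ a b x y := by
  unfold PT
  rw [Qa_mul hn t ht]

theorem sum_left (hn : ∀ x : 𝓞 F, Complex.normSq (σ x) =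
      (Ideal.absNorm (Ideal.span {x}) : ℝ)) (w r : ℕ)
    (t : 𝓞 F) (ht : t ≠ 0) (a b : Ideal (𝓞 F)) (M : ℝ) :
    (∑' p : {p : (Ideal.span {t} * a : Ideal (𝓞 F)) × b //
        Qa σ (Ideal.span {t} * a) p.1 - Qa σ b p.2 = M},
      PT w r σ (Ideal.span {t} * a) b p.1.1 p.1.2) =
    σ t ^ (w + 2 * r) *
      ∑' p : {p : a × b // Qa σ a p.1 - Qa σ b p.2 = M}, PT w r σ a b p.1.1 p.1.2 := by
  let E : {p : a × b // Qa σ a p.1 - Qa σ b p.2 = M} ≃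
      {p : (Ideal.span {t} * a : Ideal (𝓞 F)) × b //
        Qa σ (Ideal.span {t} * a) p.1 - Qa σ b p.2 = M} :=
    ((me t ht a).prodCongr (Equiv.refl b)).subtypeEquiv (by
      rintro ⟨x, y⟩
      simp only [Equiv.prodCongr_apply, Prod.map_apply, Equiv.refl_apply, me_val,
        Qa_mul hn t ht])
  rw [← E.tsum_eq, ← tsum_mul_left]
  refine tsum_congr ?_
  rintro ⟨⟨x, y⟩, h⟩
  exact PT_mul_left hn w r t ht a b x y

theorem sum_right (hn : ∀ x : 𝓞 F, Complex.normSq (σ x) =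
      (Ideal.absNorm (Ideal.span {x}) : ℝ)) (w r : ℕ)
    (t : 𝓞 F) (ht : t ≠ 0) (a b : Ideal (𝓞 F)) (M : ℝ) :
    (∑' p : {p : a × (Ideal.span {t} * b : Ideal (𝓞 F)) //
        Qa σ a p.1 - Qa σ (Ideal.span {t} * b) p.2 = M},
      PT w r σ a (Ideal.span {t} * b) p.1.1 p.1.2) =
      ∑' p : {p : a × b // Qa σ a p.1 - Qa σ b p.2 = M}, PT w r σ a b p.1.1 p.1.2 := by
  let E : {p : a × b // Qa σ a p.1 - Qa σ b p.2 = M} ≃
      {p : a × (Ideal.span {t} * b : Ideal (𝓞 F)) //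
        Qa σ a p.1 - Qa σ (Ideal.span {t} * b) p.2 = M} :=
    ((Equiv.refl a).prodCongr (me t ht b)).subtypeEquiv (by
      rintro ⟨x, y⟩
      simp only [Equiv.prodCongr_apply, Prod.map_apply, Equiv.refl_apply, me_val,
        Qa_mul hn t ht])
  rw [← E.tsum_eq]
  refine tsum_congr ?_
  rintro ⟨⟨x, y⟩, h⟩
  exact PT_mul_right hn w r t ht a b x y

theorem SS_left (hn : ∀ x : 𝓞 F, Complex.normSq (σ x) =
      (Ideal.absNorm (Ideal.span {x}) : ℝ)) (q w r m : ℕ)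
    (t : 𝓞 F) (ht : t ≠ 0) (a b : Ideal (𝓞 F)) :
    SS q w r m σ (Ideal.span {t} * a) b = σ t ^ (w + 2 * r) * SS q w r m σ a b := by
  unfold SS
  rw [sum_left hn w r t ht, sum_left hn w r t ht]
  ring

theorem SS_right (hn : ∀ x : 𝓞 F, Complex.normSq (σ x) =
      (Ideal.absNorm (Ideal.span {x}) : ℝ)) (q w r m : ℕ)
    (t : 𝓞 F) (ht : t ≠ 0) (a b : Ideal (𝓞 F)) :
    SS q w r m σ a (Ideal.span {t} * b) = SS q w r m σ a b := by
  unfold SS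
  rw [sum_right hn w r t ht, sum_right hn w r t ht]

theorem psi_left (hn : ∀ x : 𝓞 F, Complex.normSq (σ x) =
      (Ideal.absNorm (Ideal.span {x}) : ℝ)) (q w r m : ℕ) (ψ : Ideal (𝓞 F) →*₀ ℂ)
    (hψ : IsHecke σ (w + 2 * r) ψ)
    (t : 𝓞 F) (ht : t ≠ 0) (a b : Ideal (𝓞 F)) :
    (ψ (Ideal.span {t} * a))⁻¹ * SS q w r m σ (Ideal.span {t} * a) b =
      (ψ a)⁻¹ * SS q w r m σ a b := by
  have h1 : σ t ^ (w + 2 * r) ≠ 0 := by
    refine pow_ne_zero _ ?_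
    rw [Ne, map_eq_zero]
    simpa using ht
  rw [SS_left hn _ _ _ _ t ht, map_mul, hψ t ht, mul_inv]
  field_simp

end SSinvAux

open SSinvAux in
theorem stSSinv (h : StBas) : StSSinv := by
  intro q F _ _ s σ χ cj w r m ψ a a' b b' hD hψ ha hb
  obtain ⟨-, -, -, -, -, hn, -⟩ := h q F _ _ s σ χ cj hD
  obtain ⟨x, y, hx, hy, hxy⟩ := ClassGroup.mk0_eq_mk0_iff.1 ha
  obtain ⟨x', y', hx', hy', hxy'⟩ := ClassGroup.mk0_eq_mk0_iff.1 hb
  rw [← psi_left hn q w r m ψ hψ x hx, hxy, psi_left hn q w r m ψ hψ y hy,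
    ← SS_right hn q w r m x' hx', hxy', SS_right hn q w r m y' hy']

end RZ

end Pool.Agent.Lib.MP_7c08ba_nt
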