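import Pool.Agent.Lib.MP_7c08ba_nt.RZ.StG
import Pool.Agent.Lib.MP_7c08ba_nt.RZ.SSinv

set_option autoImplicit false

/-! (G32) invariance of the sums `TT`. -/

namespace Pool.Agent.Lib.MP_7c08ba_nt

namespace RZ

open NumberField
open scoped ComplexConjugate nonZeroDivisors

namespace TTinvAux

open SSinvAux

variable {F : Type} [Field F] [NumberField F]

omit [NumberField F] in
theorem cong_iff {D : ℕ} {s : 𝓞 F} (hsD : ∀ n : ℤ, (D : ℤ) ∣ n → s ∣ (n : 𝓞 F)) {t u : 𝓞 F}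
    {nt nu : ℤ} (ht : s ∣ t - nt) (hu : s ∣ u - nu) (hnt : IsUnit (nt : ZMod D))
    {ρ ρ₁ : ZMod D} (hρ : ρ₁ * nu = nt * ρ) (x y : 𝓞 F) :
    CongS s ρ₁ (t * x) (u * y) ↔ CongS s ρ x y := by
  have key : ∀ n n₁ : ℤ, (n : ZMod D) = ρ → (n₁ : ZMod D) = ρ₁ →
      s ∣ ((n₁ * nu - nt * n : ℤ) : 𝓞 F) := by
    intro n n₁ h h₁
    apply hsD
    rw [← ZMod.intCast_zmod_eq_zero_iff_dvd]
    push_cast
    rw [h, h₁, hρ, sub_self]
  constructor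
  · rintro ⟨n₁, h₁, hd⟩
    obtain ⟨n, hn⟩ := ZMod.intCast_surjective ρ
    refine ⟨n, hn, ?_⟩
    have hk := key n n₁ hn h₁
    obtain ⟨v', hv'⟩ := hnt.exists_left_inv
    obtain ⟨v, hv⟩ := ZMod.intCast_surjective v'
    have hv1 : s ∣ ((1 - v * nt : ℤ) : 𝓞 F) := by
      apply hsD
      rw [← ZMod.intCast_zmod_eq_zero_iff_dvd]
      push_cast
      rw [hv, hv', sub_self]
    push_cast at hk hv1
    have e : x - n * y = v * ((t * x - n₁ * (u * y)) - (t - nt) * x + n₁ * (u - nu) * y +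
        (n₁ * nu - nt * n) * y) + (1 - v * nt) * (x - n * y) := by ring
    rw [e]
    refine dvd_add (Dvd.dvd.mul_left ?_ _) (Dvd.dvd.mul_right hv1 _)
    refine dvd_add (dvd_add (dvd_sub hd (Dvd.dvd.mul_right ht _)) ?_) (Dvd.dvd.mul_right hk _)
    exact Dvd.dvd.mul_right (Dvd.dvd.mul_left hu _) _
  · rintro ⟨n, hn, hd⟩
    obtain ⟨n₁, h₁⟩ := ZMod.intCast_surjective ρ₁
    refine ⟨n₁, h₁, ?_⟩
    have hk := key n n₁ hn h₁
    push_cast at hk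
    have e : t * x - n₁ * (u * y) = (t - nt) * x - n₁ * (u - nu) * y + nt * (x - n * y) -
        (n₁ * nu - nt * n) * y := by ring
    rw [e]
    refine dvd_sub (dvd_add (dvd_sub (Dvd.dvd.mul_right ht _) ?_) (Dvd.dvd.mul_left hd _))
      (Dvd.dvd.mul_right hk _)
    exact Dvd.dvd.mul_right (Dvd.dvd.mul_left hu _) _

variable {σ : F →+* ℂ}

theorem TT_mul (hn : ∀ x : 𝓞 F, Complex.normSq (σ x) =
      (Ideal.absNorm (Ideal.span {x}) : ℝ)) {D : ℕ} (w r m : ℕ) {s : 𝓞 F}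
    (hsD : ∀ n : ℤ, (D : ℤ) ∣ n → s ∣ (n : 𝓞 F)) {t u : 𝓞 F} (ht0 : t ≠ 0) (hu0 : u ≠ 0)
    {nt nu : ℤ} (ht : s ∣ t - nt) (hu : s ∣ u - nu) (hnt : IsUnit (nt : ZMod D))
    {ρ ρ₁ : ZMod D} (hρ : ρ₁ * nu = nt * ρ) (a b : Ideal (𝓞 F)) :
    TT w r m s σ (Ideal.span {t} * a) (Ideal.span {u} * b) ρ₁ =
      σ t ^ (w + 2 * r) * TT w r m s σ a b ρ := by
  unfold TT
  let E : {p : a × b // Qa σ a p.1 - Qa σ b p.2 = D * m ∧
        CongS s ρ (p.1 : 𝓞 F) (p.2 : 𝓞 F)} ≃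
      {p : (Ideal.span {t} * a : Ideal (𝓞 F)) × (Ideal.span {u} * b : Ideal (𝓞 F)) //
        Qa σ (Ideal.span {t} * a) p.1 - Qa σ (Ideal.span {u} * b) p.2 = D * m ∧
        CongS s ρ₁ (p.1 : 𝓞 F) (p.2 : 𝓞 F)} :=
    ((me t ht0 a).prodCongr (me u hu0 b)).subtypeEquiv (by
      rintro ⟨x, y⟩
      simp only [Equiv.prodCongr_apply, Prod.map_apply, me_val,
        Qa_mul hn t ht0, Qa_mul hn u hu0, cong_iff hsD ht hu hnt hρ])
  rw [← E.tsum_eq, ← tsum_mul_left]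
  refine tsum_congr ?_
  rintro ⟨⟨x, y⟩, h⟩
  calc PT w r σ (Ideal.span {t} * a) (Ideal.span {u} * b) (t * (x : 𝓞 F)) (u * (y : 𝓞 F))
      = σ t ^ (w + 2 * r) * PT w r σ a (Ideal.span {u} * b) x (u * (y : 𝓞 F)) :=
        PT_mul_left hn w r t ht0 a _ x _
    _ = _ := by rw [PT_mul_right hn w r u hu0 a b x y]

end TTinvAux

open TTinvAux in
theorem stTTinv (h : StBasD) : StTTinv := by
  intro D F _ _ s σ χ cj w r m ψ hD hψ
  obtain ⟨-, -, -, -, -, hn, -, -, -, hs⟩ := h D F _ _ s σ χ cj hD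
  have hsD : ∀ n : ℤ, (D : ℤ) ∣ n → s ∣ (n : 𝓞 F) := fun n hn => (hs n).2 hn
  have hD1 : 1 < D := by
    have := hD.odd.2.2
    omega
  have : Fact (1 < D) := ⟨hD1⟩
  have ne0 : ∀ (t : 𝓞 F) (nt : ℤ), s ∣ t - nt → IsUnit (nt : ZMod D) → t ≠ 0 := by
    rintro t nt hd hu rfl
    rw [zero_sub, dvd_neg, hs, ← ZMod.intCast_zmod_eq_zero_iff_dvd] at hd
    rw [hd] at hu
    exact not_isUnit_zero hu
  have main : ∀ (a b : Ideal (𝓞 F)) (t u : 𝓞 F) (nt nu : ℤ) (ρ ρ₁ : ZMod D),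
      s ∣ t - nt → s ∣ u - nu → IsUnit (nt : ZMod D) → IsUnit (nu : ZMod D) →
      ρ₁ * nu = nt * ρ →
      (ψ (Ideal.span {t} * a))⁻¹ * TT w r m s σ (Ideal.span {t} * a) (Ideal.span {u} * b) ρ₁ =
        (ψ a)⁻¹ * TT w r m s σ a b ρ := by
    intro a b t u nt nu ρ ρ₁ ht hu hnt hnu hρ
    have ht0 := ne0 t nt ht hnt
    have h1 : σ t ^ (w + 2 * r) ≠ 0 := by
      refine pow_ne_zero _ ?_
      rw [Ne, map_eq_zero]
      simpa using ht0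
    rw [TT_mul hn w r m hsD ht0 (ne0 u nu hu hnu) ht hu hnt hρ, map_mul, hψ t ht0, mul_inv]
    field_simp
  intro a a' b b' t t' u u' nt nt' nu nu' ρ ρ' _ _ _ _ _ _ _ _ ht ht' hu hu' hnt hnt' hnu
    hnu' hta hub hρ
  have i1 : (nu : ZMod D) * (nu : ZMod D)⁻¹ = 1 := ZMod.mul_inv_of_unit _ hnu
  have e1 : (nt * ρ * (nu : ZMod D)⁻¹) * nu = nt * ρ := by
    linear_combination (nt * ρ) * i1
  have e2 : (nt * ρ * (nu : ZMod D)⁻¹) * nu' = nt' * ρ' := by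
    linear_combination (-(nu : ZMod D)⁻¹) * hρ + (nt' * ρ') * i1
  simp only
  rw [← main a b t u nt nu ρ _ ht hu hnt hnu e1, hta, hub,
    main a' b' t' u' nt' nu' ρ' _ ht' hu' hnt' hnu' e2]

end RZ

end Pool.Agent.Lib.MP_7c08ba_nt
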