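import Pool.Agent.Lib.MP_7c08ba_nt.RZ.StD

set_option autoImplicit false

/-! (D15) the sums over pairs and the sums over matrices. -/

namespace Pool.Agent.Lib.MP_7c08ba_nt

namespace RZ

open NumberField MeasureTheory UpperHalfPlane Set IsDedekindDomain
open scoped MatrixGroups ComplexConjugate nonZeroDivisors

namespace Glue

/-! ### sums over sets -/

theorem sum_sets {X : Type*} (f : X → ℂ) (E P N : Set X) (e : X ≃ X) (hE : E = P ∪ N)
    (hf : ∀ x, f (e x) = f x) (hPN : ∀ x, e x ∈ N ↔ x ∈ P) (hs : Summable (P.indicator f)) :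
    ∑' x, E.indicator f x + ∑' x, (P ∩ N).indicator f x = 2 * ∑' x, P.indicator f x := by
  have h1 : (N.indicator f) ∘ e = P.indicator f := by
    funext x
    simp only [Function.comp_apply]
    by_cases hx : x ∈ P
    · rw [Set.indicator_of_mem hx, Set.indicator_of_mem ((hPN x).2 hx), hf]
    · rw [Set.indicator_of_notMem hx, Set.indicator_of_notMem (fun h => hx ((hPN x).1 h))]
  have hsN : Summable (N.indicator f) := by
    rw [← e.summable_iff, h1]
    exact hs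
  have h2 : ∑' x, N.indicator f x = ∑' x, P.indicator f x := by
    rw [← e.tsum_eq (N.indicator f)]
    exact tsum_congr fun x => congrFun h1 x
  have hsI : Summable ((P ∩ N).indicator f) := by
    have : (P ∩ N).indicator f = N.indicator (P.indicator f) := by
      rw [Set.indicator_indicator, Set.inter_comm]
    rw [this]
    exact hs.indicator N
  have h3 : E.indicator f + (P ∩ N).indicator f = P.indicator f + N.indicator f := by
    rw [hE]
    exact Set.indicator_union_add_inter f P N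
  have hsE : Summable (E.indicator f) := by
    have : E.indicator f = (P.indicator f + N.indicator f) - (P ∩ N).indicator f := by
      rw [← h3, add_sub_cancel_right]
    rw [this]
    exact (hs.add hsN).sub hsI
  have h4 : ∑' x, (E.indicator f + (P ∩ N).indicator f) x =
      ∑' x, (P.indicator f + N.indicator f) x := by rw [h3]
  simp only [Pi.add_apply] at h4
  rw [hsE.tsum_add hsI, hs.tsum_add hsN, h2] at h4
  rw [h4]
  ring

theorem norm_Jr_le (w r : ℕ) {x : ℂ} (hx : ‖x‖ ≤ 1) :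
    ‖Jr w r x‖ ≤ ∑ j ∈ Finset.range (r + 1), (r.choose j : ℝ) * ((w + r + j - 1).choose j : ℝ) := by
  unfold Jr
  refine (norm_sum_le _ _).trans (Finset.sum_le_sum fun j _ => ?_)
  rw [norm_mul, norm_mul, norm_pow, norm_neg, Complex.norm_natCast, Complex.norm_natCast]
  exact mul_le_of_le_one_right (by positivity) (pow_le_one₀ (norm_nonneg _) hx)

section

variable {F : Type} [Field F] [NumberField F] {q : ℕ} {s : 𝓞 F} {σ : F →+* ℂ}
  {χ : DirichletCharacter ℂ q} {cj : 𝓞 F ≃+* 𝓞 F}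

/-- the embedding of the ring of integers -/
noncomputable def tau (σ : F →+* ℂ) : 𝓞 F →+* ℂ := σ.comp (algebraMap (𝓞 F) F)

omit [NumberField F] in
theorem tau_def (x : 𝓞 F) : σ (x : F) = tau σ x := rfl

omit [NumberField F] in
theorem tau_inj {x y : 𝓞 F} (h : tau σ x = tau σ y) : x = y :=
  RingOfIntegers.coe_injective (σ.injective h)

theorem s_ne (D : Dat q s σ χ cj) : s ≠ 0 := by
  rintro rfl
  have h := D.sq
  have h1 : (q : 𝓞 F) = 0 := by linear_combination h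
  have h2 : q = 0 := by exact_mod_cast h1
  exact D.prime.ne_zero h2

theorem tau_cj (D : Dat q s σ χ cj) (x : 𝓞 F) : tau σ (cj x) = conj (tau σ x) := D.conjσ x

theorem tau_mul_cj (D : Dat q s σ χ cj) (x : 𝓞 F) :
    tau σ (x * cj x) = (Complex.normSq (tau σ x) : ℂ) := by
  rw [map_mul, tau_cj D, Complex.mul_conj]

theorem normSq_s (D : Dat q s σ χ cj) : Complex.normSq (tau σ s) = q := by
  have h : tau σ s = Complex.I * Real.sqrt q := D.im
  rw [h, Complex.normSq_mul, Complex.normSq_I, one_mul, Complex.normSq_ofReal,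
    Real.mul_self_sqrt (by positivity)]

omit [NumberField F] in
theorem pairs_tsum (a b : Ideal (𝓞 F)) (R : 𝓞 F → 𝓞 F → Prop) (f : 𝓞 F × 𝓞 F → ℂ) :
    ∑' p : {p : a × b // R p.1 p.2}, f ((p.1.1 : 𝓞 F), (p.1.2 : 𝓞 F)) =
      ∑' p, {p : 𝓞 F × 𝓞 F | p.1 ∈ a ∧ p.2 ∈ b ∧ R p.1 p.2}.indicator f p := by
  set E : Set (𝓞 F × 𝓞 F) := {p : 𝓞 F × 𝓞 F | p.1 ∈ a ∧ p.2 ∈ b ∧ R p.1 p.2} with hE
  have hi : Function.Injective
      (fun p : {p : a × b // R p.1 p.2} => (((p.1.1 : 𝓞 F), (p.1.2 : 𝓞 F)) : 𝓞 F × 𝓞 F)) := by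
    intro p p' h
    have h1 := congrArg Prod.fst h
    have h2 := congrArg Prod.snd h
    dsimp only at h1 h2
    exact Subtype.ext (Prod.ext (Subtype.ext h1) (Subtype.ext h2))
  rw [← hi.tsum_eq (f := E.indicator f)]
  · refine tsum_congr fun p => ?_
    rw [Set.indicator_of_mem]
    exact ⟨p.1.1.2, p.1.2.2, p.2⟩
  · intro p hp
    have hpE : p ∈ E := by
      by_contra h
      exact hp (Set.indicator_of_notMem h f)
    exact ⟨⟨(⟨p.1, hpE.1⟩, ⟨p.2, hpE.2.1⟩), hpE.2.2⟩, rfl⟩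

theorem absNorm_map (hB : StBas) (D : Dat q s σ χ cj) {c : Ideal (𝓞 F)} (hc : c ≠ ⊥) :
    Ideal.absNorm (c.map (cj : 𝓞 F →+* 𝓞 F)) = Ideal.absNorm c := by
  obtain ⟨-, -, -, -, -, -, h, -⟩ := hB q F _ _ s σ χ cj D
  have h1 := congrArg Ideal.absNorm (h c)
  rw [map_mul, Ideal.absNorm_span_natCast, RingOfIntegers.rank, D.fin, sq] at h1
  have h0 : Ideal.absNorm c ≠ 0 := by
    rwa [Ne, Ideal.absNorm_eq_zero_iff]
  exact mul_left_cancel₀ h0 h1

omit [NumberField F] in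
/-- elements of an ideal prime to `s` -/
theorem mem_of_mul (a : Ideal (𝓞 F)) (ha : IsCoprime a (Ideal.span {s})) {x : 𝓞 F} :
    s * x ∈ a ↔ x ∈ a := by
  constructor
  · intro h
    rw [Ideal.isCoprime_iff_exists] at ha
    obtain ⟨i, hi, j, hj, hij⟩ := ha
    rw [Ideal.mem_span_singleton] at hj
    obtain ⟨t, rfl⟩ := hj
    have : x = i * x + t * (s * x) := by linear_combination -x * hij
    rw [this]
    exact a.add_mem (a.mul_mem_right x hi) (a.mul_mem_left t h)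
  · exact fun h => a.mul_mem_left s h

theorem dvd_diff (hB : StBas) (D : Dat q s σ χ cj) {x y : 𝓞 F} {n : ℤ}
    (h : x * cj x - y * cj y = q * n) : s ∣ x - y ∨ s ∣ x + y := by
  obtain ⟨-, -, -, h1, -, -, -, -, h2, -, -⟩ := hB q F _ _ s σ χ cj D
  rw [Ideal.span_singleton_prime (s_ne D)] at h2
  have h3 : s ∣ (x - y) * (x + y) := by
    have e : (x - y) * (x + y) = x * (x - cj x) - y * (y - cj y) + s * (-(s * n)) := by
      linear_combination h + n * D.sq
    rw [e]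
    exact dvd_add (dvd_sub (Dvd.dvd.mul_left (h1 x) x) (Dvd.dvd.mul_left (h1 y) y))
      (dvd_mul_right _ _)
  exact h2.dvd_or_dvd h3

theorem dvd_both (hB : StBas) (D : Dat q s σ χ cj) {x y : 𝓞 F} (h1 : s ∣ x - y)
    (h2 : s ∣ x + y) : s ∣ x ∧ s ∣ y := by
  obtain ⟨-, -, -, -, -, -, -, -, h3, -, h4⟩ := hB q F _ _ s σ χ cj D
  rw [Ideal.span_singleton_prime (s_ne D)] at h3
  have h5 : ¬ s ∣ (2 : 𝓞 F) := by
    intro h
    have h6 := (h4 2).1 (by simpa using h)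
    have h7 := D.mod
    have h8 : (q : ℤ) ≤ 2 := Int.le_of_dvd (by norm_num) h6
    omega
  constructor
  · have : s ∣ 2 * x := by
      have := dvd_add h1 h2
      rwa [show x - y + (x + y) = 2 * x by ring] at this
    exact (h3.dvd_or_dvd this).resolve_left h5
  · have : s ∣ 2 * y := by
      have := dvd_sub h2 h1
      rwa [show x + y - (x - y) = 2 * y by ring] at this
    exact (h3.dvd_or_dvd this).resolve_left h5

/-- the terms in terms of the values -/
theorem PT_eq (w r : ℕ) {a b : Ideal (𝓞 F)} {M : ℕ} (hM : M ≠ 0) (ha : Ideal.absNorm a = M)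
    (hb : Ideal.absNorm b = M) {x y : 𝓞 F} (hx : tau σ x ≠ 0) :
    PT w r σ a b x y = (M : ℂ) ^ (w + r) * (((conj (tau σ x)) ^ (w + r))⁻¹ * tau σ x ^ r *
      Jr w r (Complex.normSq (tau σ y) / Complex.normSq (tau σ x))) := by
  have hMc : (M : ℂ) ≠ 0 := by exact_mod_cast hM
  have hc : conj (tau σ x) ≠ 0 := by rwa [Ne, map_eq_zero]
  have hn : ((Complex.normSq (tau σ x) : ℝ) : ℂ) ≠ 0 := by
    have : Complex.normSq (tau σ x) ≠ 0 := by rwa [Ne, Complex.normSq_eq_zero]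
    exact_mod_cast this
  unfold PT Qa
  rw [ha, hb]
  simp only [tau_def]
  have e1 : (((Complex.normSq (tau σ y) / (M : ℝ) : ℝ) : ℂ)) /
      (((Complex.normSq (tau σ x) / (M : ℝ) : ℝ) : ℂ)) =
      (Complex.normSq (tau σ y) : ℂ) / (Complex.normSq (tau σ x) : ℂ) := by
    push_cast
    field_simp
  rw [e1]
  have e2 : (((Complex.normSq (tau σ x) / (M : ℝ) : ℝ) : ℂ) ^ (w + r))⁻¹ =
      (M : ℂ) ^ (w + r) * ((tau σ x ^ (w + r))⁻¹ * (conj (tau σ x) ^ (w + r))⁻¹) := by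
    push_cast
    rw [← Complex.mul_conj, div_pow, inv_div, mul_pow, ← mul_inv]
    rfl
  rw [e2]
  have e3 : tau σ x ^ (w + 2 * r) = tau σ x ^ (w + r) * tau σ x ^ r := by
    rw [← pow_add]
    congr 1
    ring
  rw [e3]
  have h1 : tau σ x ^ (w + r) ≠ 0 := pow_ne_zero _ hx
  field_simp

theorem PT_neg (w r : ℕ) (a b : Ideal (𝓞 F)) (x y : 𝓞 F) :
    PT w r σ a b x (-y) = PT w r σ a b x y := by
  unfold PT Qa
  simp only [tau_def, map_neg, Complex.normSq_neg]

theorem Qa_s (D : Dat q s σ χ cj) (a : Ideal (𝓞 F)) (x : 𝓞 F) :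
    Qa σ a (s * x) = q * Qa σ a x := by
  unfold Qa
  simp only [tau_def, map_mul, normSq_s D]
  ring

theorem PT_s (D : Dat q s σ χ cj) (w r : ℕ) (a b : Ideal (𝓞 F)) (x y : 𝓞 F) :
    PT w r σ a b (s * x) (s * y) = (Complex.I * Real.sqrt q) ^ (w + 2 * r) *
      ((q : ℂ) ^ (w + r))⁻¹ * PT w r σ a b x y := by
  have hq : (q : ℂ) ≠ 0 := by exact_mod_cast D.prime.ne_zero
  have hs : tau σ s = Complex.I * Real.sqrt q := D.im
  unfold PT
  rw [Qa_s D, Qa_s D]
  simp only [tau_def, map_mul, hs]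
  push_cast
  rw [mul_div_mul_left _ _ hq]
  simp only [mul_pow, mul_inv]
  ring

/-- the first member of the pair attached to a matrix -/
noncomputable def al (cj : 𝓞 F ≃+* 𝓞 F) (c₁ c₂ d₁ d₂ : 𝓞 F) (g : Matrix (Fin 2) (Fin 2) ℤ) : 𝓞 F :=
  ((g 0 0 : 𝓞 F) * d₁ + g 0 1 * d₂) * cj c₂ - ((g 1 0 : 𝓞 F) * d₁ + g 1 1 * d₂) * cj c₁

/-- the second member of the pair attached to a matrix -/
noncomputable def be (c₁ c₂ d₁ d₂ : 𝓞 F) (g : Matrix (Fin 2) (Fin 2) ℤ) : 𝓞 F :=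
  ((g 0 0 : 𝓞 F) * d₁ + g 0 1 * d₂) * c₂ - ((g 1 0 : 𝓞 F) * d₁ + g 1 1 * d₂) * c₁

theorem tau_al (D : Dat q s σ χ cj) (c₁ c₂ d₁ d₂ : 𝓞 F) (g : Matrix (Fin 2) (Fin 2) ℤ) :
    tau σ (al cj c₁ c₂ d₁ d₂ g) =
      bil g (conj (tau σ c₁)) (conj (tau σ c₂)) (tau σ d₁) (tau σ d₂) := by
  unfold al bil
  simp only [map_sub, map_mul, map_add, map_intCast, tau_cj D]

omit [NumberField F] in
theorem tau_be (c₁ c₂ d₁ d₂ : 𝓞 F) (g : Matrix (Fin 2) (Fin 2) ℤ) :
    tau σ (be c₁ c₂ d₁ d₂ g) =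
      bil g (tau σ c₁) (tau σ c₂) (tau σ d₁) (tau σ d₂) := by
  unfold be bil
  simp only [map_sub, map_mul, map_add, map_intCast]

theorem conj_bil (g : Matrix (Fin 2) (Fin 2) ℤ) (x₁ x₂ y₁ y₂ : ℂ) :
    conj (bil g (conj x₁) (conj x₂) y₁ y₂) = bil g x₁ x₂ (conj y₁) (conj y₂) := by
  unfold bil
  simp only [map_sub, map_mul, map_add, map_intCast, Complex.conj_conj]

end

end Glue

open Glue in
theorem stGlue (h1 : StImg) (h2 : StBas) (_h3 : StBase) (h4 : StMatS) : StGlue := by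
  intro q F _ _ s σ χ cj w r m c d c₁ c₂ d₁ d₂ D hw hm hev hbc hbd hc hd hcs hds
  classical
  obtain ⟨himg1, himg2, himg3⟩ := h1 q F _ _ s σ χ cj c d c₁ c₂ d₁ d₂ D hbc hbd hc hd hcs hds
  set A : Matrix (Fin 2) (Fin 2) ℤ → 𝓞 F := al cj c₁ c₂ d₁ d₂ with hA
  set B : Matrix (Fin 2) (Fin 2) ℤ → 𝓞 F := be c₁ c₂ d₁ d₂ with hB
  have i1 : ∀ g, A g * cj (A g) - B g * cj (B g) =
      (q : 𝓞 F) * (g.det : 𝓞 F) * (Ideal.absNorm c : 𝓞 F) * (Ideal.absNorm d : 𝓞 F) := himg1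
  have i2 : ∀ g g', A g = A g' → B g = B g' → g = g' := himg2
  have i3 : ∀ x y : 𝓞 F, (x ∈ d * c.map (cj : 𝓞 F →+* 𝓞 F) ∧ y ∈ d * c ∧ s ∣ x - y) ↔
      ∃ g, A g = x ∧ B g = y := himg3
  clear himg1 himg2 himg3
  set a : Ideal (𝓞 F) := d * c.map (cj : 𝓞 F →+* 𝓞 F) with ha
  set b : Ideal (𝓞 F) := d * c with hb
  set M : ℕ := Ideal.absNorm d * Ideal.absNorm c with hM
  have hc0 : Ideal.absNorm c ≠ 0 := by rwa [Ne, Ideal.absNorm_eq_zero_iff]
  have hd0 : Ideal.absNorm d ≠ 0 := by rwa [Ne, Ideal.absNorm_eq_zero_iff]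
  have hM0 : M ≠ 0 := mul_ne_zero hd0 hc0
  have hMR : (M : ℝ) ≠ 0 := by exact_mod_cast hM0
  have hq0 : q ≠ 0 := D.prime.ne_zero
  have hqR : (q : ℝ) ≠ 0 := by exact_mod_cast hq0
  have haM : Ideal.absNorm a = M := by
    rw [ha, map_mul, absNorm_map h2 D hc]
  have hbM : Ideal.absNorm b = M := by
    rw [hb, map_mul]
  -- the two ideals are prime to `s`
  have hcs' : IsCoprime (c.map (cj : 𝓞 F →+* 𝓞 F)) (Ideal.span {s}) := by
    obtain ⟨-, -, hcjs, -⟩ := h2 q F _ _ s σ χ cj D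
    rw [Ideal.isCoprime_iff_exists] at hcs ⊢
    obtain ⟨i, hi, j, hj, hij⟩ := hcs
    refine ⟨cj i, Ideal.mem_map_of_mem _ hi, cj j, ?_, ?_⟩
    · rw [Ideal.mem_span_singleton] at hj ⊢
      obtain ⟨t, rfl⟩ := hj
      rw [map_mul, hcjs]
      exact ⟨-cj t, by ring⟩
    · rw [← map_add, hij, map_one]
  have has : IsCoprime a (Ideal.span {s}) := IsCoprime.mul_left hds hcs'
  have hbs : IsCoprime b (Ideal.span {s}) := IsCoprime.mul_left hds hcs
  -- differences of norms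
  have hdiff : ∀ g, Complex.normSq (tau σ (A g)) - Complex.normSq (tau σ (B g)) =
      q * (g.det : ℝ) * M := by
    intro g
    have h := congrArg (tau σ) (i1 g)
    rw [map_sub, tau_mul_cj D, tau_mul_cj D] at h
    simp only [map_mul, map_natCast, map_intCast] at h
    generalize g.det = Δ at h ⊢
    have h' : ((Complex.normSq (tau σ (A g)) - Complex.normSq (tau σ (B g)) : ℝ) : ℂ) =
        ((q * (Δ : ℝ) * M : ℝ) : ℂ) := by
      rw [hM]
      push_cast
      rw [h]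
      ring
    exact_mod_cast h'
  -- the sets
  set f : 𝓞 F × 𝓞 F → ℂ := fun p => PT w r σ a b p.1 p.2 with hf
  set E₁ : Set (𝓞 F × 𝓞 F) := {p | p.1 ∈ a ∧ p.2 ∈ b ∧ Qa σ a p.1 - Qa σ b p.2 = m} with hE₁
  set E : Set (𝓞 F × 𝓞 F) := {p | p.1 ∈ a ∧ p.2 ∈ b ∧ Qa σ a p.1 - Qa σ b p.2 = q * m} with hE
  set P : Set (𝓞 F × 𝓞 F) := {p | p ∈ E ∧ s ∣ p.1 - p.2} with hP
  set N : Set (𝓞 F × 𝓞 F) := {p | p ∈ E ∧ s ∣ p.1 + p.2} with hN
  have hQ : ∀ x y : 𝓞 F, Qa σ a x - Qa σ b y =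
      (Complex.normSq (tau σ x) - Complex.normSq (tau σ y)) / M := by
    intro x y
    unfold Qa
    rw [haM, hbM]
    simp only [tau_def]
    ring
  have hEPN : E = P ∪ N := by
    ext p
    constructor
    · intro hp
      have h5 := hp.2.2
      rw [hQ, div_eq_iff hMR] at h5
      have h6 : p.1 * cj p.1 - p.2 * cj p.2 = q * ((m * M : ℕ) : ℤ) := by
        apply tau_inj (σ := σ)
        rw [map_sub, tau_mul_cj D, tau_mul_cj D]
        simp only [map_mul, map_natCast, Int.cast_natCast]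
        have h7 : ((Complex.normSq (tau σ p.1) - Complex.normSq (tau σ p.2) : ℝ) : ℂ) =
            ((q * m * M : ℝ) : ℂ) := by rw [h5]
        push_cast at h7 ⊢
        rw [h7]
        ring
      rcases dvd_diff h2 D h6 with h | h
      · exact Or.inl ⟨hp, h⟩
      · exact Or.inr ⟨hp, h⟩
    · rintro (hp | hp)
      · exact hp.1
      · exact hp.1
  have hneg : ∀ p : 𝓞 F × 𝓞 F, (p.1, -p.2) ∈ E ↔ p ∈ E := by
    intro p
    have e : Qa σ b (-p.2) = Qa σ b p.2 := by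
      unfold Qa
      simp only [tau_def, map_neg, Complex.normSq_neg]
    simp only [hE, Set.mem_ofPred_eq, neg_mem_iff, e]
  -- the pairs attached to matrices
  have hρ : Function.Injective (fun g : DetM m => ((A g.1, B g.1) : 𝓞 F × 𝓞 F)) := by
    intro g g' h
    have e1 := congrArg Prod.fst h
    have e2 := congrArg Prod.snd h
    exact Subtype.ext (i2 _ _ e1 e2)
  have hρP : ∀ g : DetM m, (A g.1, B g.1) ∈ P := by
    intro g
    obtain ⟨e1, e2, e3⟩ := (i3 (A g.1) (B g.1)).2 ⟨g.1, rfl, rfl⟩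
    refine ⟨⟨e1, e2, ?_⟩, e3⟩
    dsimp only
    rw [hQ, hdiff, g.2]
    push_cast
    field_simp
  have hPρ : ∀ p ∈ P, ∃ g : DetM m, (A g.1, B g.1) = p := by
    intro p hp
    obtain ⟨g, e1, e2⟩ := (i3 p.1 p.2).1 ⟨hp.1.1, hp.1.2.1, hp.2⟩
    have h5 := hp.1.2.2
    rw [hQ, ← e1, ← e2, hdiff, div_eq_iff hMR] at h5
    have h6 : (g.det : ℝ) = m := by
      have := mul_right_cancel₀ hMR h5
      exact mul_left_cancel₀ hqR this
    have h7 : g.det = m := by exact_mod_cast h6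
    exact ⟨⟨g, h7⟩, Prod.ext e1 e2⟩
  -- the terms
  have hA0 : ∀ g : DetM m, tau σ (A g.1) ≠ 0 := by
    intro g h0
    have h5 := hdiff g.1
    rw [h0, g.2, map_zero] at h5
    have h6 : (0 : ℝ) < q * ((m : ℤ) : ℝ) * M := by
      have : (0 : ℝ) < m := by exact_mod_cast hm
      push_cast
      positivity
    linarith [Complex.normSq_nonneg (tau σ (B g.1))]
  have hterm : ∀ g : DetM m, f (A g.1, B g.1) = (M : ℂ) ^ (w + r) *
      (((conj (bil g.1 (conj (tau σ c₁)) (conj (tau σ c₂)) (tau σ d₁) (tau σ d₂))) ^ (w + r))⁻¹ *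
        (bil g.1 (conj (tau σ c₁)) (conj (tau σ c₂)) (tau σ d₁) (tau σ d₂)) ^ r *
        Jr w r (Complex.normSq (bil g.1 (tau σ c₁) (tau σ c₂) (tau σ d₁) (tau σ d₂)) /
          Complex.normSq (bil g.1 (conj (tau σ c₁)) (conj (tau σ c₂)) (tau σ d₁) (tau σ d₂)))) := by
    intro g
    rw [hf]
    dsimp only
    rw [PT_eq w r hM0 haM hbM (hA0 g), hA, hB, tau_al D, tau_be]
  -- summability
  have hpos1 : 0 < (tau σ c₁ * conj (tau σ c₂)).im := hbc.pos
  have hpos2 : (conj (tau σ d₁) * conj (conj (tau σ d₂))).im < 0 := by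
    have h5 : 0 < (tau σ d₁ * conj (tau σ d₂)).im := hbd.pos
    have h6 : conj (tau σ d₁) * conj (conj (tau σ d₂)) = conj (tau σ d₁ * conj (tau σ d₂)) := by
      rw [map_mul]
    rw [h6, Complex.conj_im]
    linarith
  obtain ⟨-, hsum⟩ := h4 w m (tau σ c₁) (tau σ c₂) (conj (tau σ d₁)) (conj (tau σ d₂)) hw hm
    hpos1 hpos2
  have hsumf : Summable fun g : DetM m => f (A g.1, B g.1) := by
    set C : ℝ := ∑ j ∈ Finset.range (r + 1), (r.choose j : ℝ) * ((w + r + j - 1).choose j : ℝ)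
      with hC
    refine Summable.of_norm_bounded (g := fun g : DetM m => (M : ℝ) ^ (w + r) * C *
      ‖((bil g.1 (tau σ c₁) (tau σ c₂) (conj (tau σ d₁)) (conj (tau σ d₂))) ^ w)⁻¹‖)
      (hsum.mul_left _) fun g => ?_
    rw [hterm g]
    have hx0 : bil g.1 (conj (tau σ c₁)) (conj (tau σ c₂)) (tau σ d₁) (tau σ d₂) ≠ 0 := by
      rw [← tau_al D]
      exact hA0 g
    have e1 : ‖bil g.1 (tau σ c₁) (tau σ c₂) (conj (tau σ d₁)) (conj (tau σ d₂))‖ =
        ‖bil g.1 (conj (tau σ c₁)) (conj (tau σ c₂)) (tau σ d₁) (tau σ d₂)‖ := by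
      rw [← conj_bil, Complex.norm_conj]
    have e2 : ‖((Complex.normSq (bil g.1 (tau σ c₁) (tau σ c₂) (tau σ d₁) (tau σ d₂)) : ℝ) : ℂ) /
        ((Complex.normSq (bil g.1 (conj (tau σ c₁)) (conj (tau σ c₂)) (tau σ d₁)
          (tau σ d₂)) : ℝ) : ℂ)‖ ≤ 1 := by
      rw [norm_div, Complex.norm_of_nonneg (Complex.normSq_nonneg _),
        Complex.norm_of_nonneg (Complex.normSq_nonneg _)]
      apply div_le_one_of_le₀ _ (Complex.normSq_nonneg _)
      have h5 := hdiff g.1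
      rw [hA, hB, tau_al D, tau_be, g.2] at h5
      have h6 : (0 : ℝ) ≤ q * ((m : ℤ) : ℝ) * M := by
        push_cast
        positivity
      linarith
    have e3 := norm_Jr_le w r e2
    rw [norm_mul, norm_mul, norm_mul, norm_inv, norm_inv, norm_pow, norm_pow, norm_pow, norm_pow,
      Complex.norm_conj, e1, Complex.norm_natCast]
    set X : ℝ := ‖bil g.1 (conj (tau σ c₁)) (conj (tau σ c₂)) (tau σ d₁) (tau σ d₂)‖ with hX
    have hXpos : 0 < X := norm_pos_iff.2 hx0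
    have e4 : (X ^ (w + r))⁻¹ * X ^ r = (X ^ w)⁻¹ := by
      rw [pow_add]
      have : X ^ r ≠ 0 := pow_ne_zero _ hXpos.ne'
      field_simp
    rw [e4, mul_assoc ((M : ℝ) ^ (w + r)) C, mul_comm C]
    gcongr
  have hPsum : Summable (P.indicator f) := by
    rw [← hρ.summable_iff]
    · have : (P.indicator f) ∘ (fun g : DetM m => ((A g.1, B g.1) : 𝓞 F × 𝓞 F)) =
          fun g : DetM m => f (A g.1, B g.1) := by
        funext g
        exact Set.indicator_of_mem (hρP g) f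
      rw [this]
      exact hsumf
    · intro p hp
      refine Set.indicator_of_notMem (fun h => hp ?_) f
      exact hPρ p h
  have hPval : ∑' p, P.indicator f p = (M : ℂ) ^ (w + r) * XX w r m (tau σ c₁) (tau σ c₂)
      (tau σ d₁) (tau σ d₂) := by
    rw [← hρ.tsum_eq (f := P.indicator f)]
    · unfold XX
      rw [← tsum_mul_left]
      refine tsum_congr fun g => ?_
      rw [Set.indicator_of_mem (hρP g) f, hterm g]
    · intro p hp
      have hpP : p ∈ P := by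
        by_contra h
        exact hp (Set.indicator_of_notMem h f)
      exact hPρ p hpP
  -- the involution
  have hmain := sum_sets f E P N ((Equiv.refl _).prodCongr (Equiv.neg _)) hEPN
    (fun p => PT_neg w r a b p.1 p.2)
    (fun p => by
      change ((p.1, -p.2) ∈ E ∧ s ∣ p.1 + -p.2) ↔ (p ∈ E ∧ s ∣ p.1 - p.2)
      rw [hneg, sub_eq_add_neg]) hPsum
  -- the pairs divisible by `s`
  have hs0 := s_ne D
  have hj : Function.Injective (fun p : 𝓞 F × 𝓞 F => ((s * p.1, s * p.2) : 𝓞 F × 𝓞 F)) := by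
    intro p p' h
    have e1 := congrArg Prod.fst h
    have e2 := congrArg Prod.snd h
    exact Prod.ext (mul_left_cancel₀ hs0 e1) (mul_left_cancel₀ hs0 e2)
  have hjmem : ∀ p : 𝓞 F × 𝓞 F, (s * p.1, s * p.2) ∈ P ∩ N ↔ p ∈ E₁ := by
    intro p
    have e0 : (s * p.1, s * p.2) ∈ E ↔ p ∈ E₁ := by
      simp only [hE, hE₁, Set.mem_ofPred_eq, mem_of_mul a has, mem_of_mul b hbs, Qa_s D]
      rw [← mul_sub]
      constructor
      · rintro ⟨h5, h6, h7⟩
        exact ⟨h5, h6, mul_left_cancel₀ hqR h7⟩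
      · rintro ⟨h5, h6, h7⟩
        exact ⟨h5, h6, by rw [h7]⟩
    constructor
    · intro h
      exact e0.1 h.1.1
    · intro h
      exact ⟨⟨e0.2 h, ⟨p.1 - p.2, by ring⟩⟩, ⟨e0.2 h, ⟨p.1 + p.2, by ring⟩⟩⟩
  have hPN : ∑' p, (P ∩ N).indicator f p = (Complex.I * Real.sqrt q) ^ (w + 2 * r) *
      ((q : ℂ) ^ (w + r))⁻¹ * ∑' p, E₁.indicator f p := by
    rw [← hj.tsum_eq (f := (P ∩ N).indicator f), ← tsum_mul_left]
    · refine tsum_congr fun p => ?_
      by_cases hp : p ∈ E₁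
      · rw [Set.indicator_of_mem ((hjmem p).2 hp), Set.indicator_of_mem hp]
        exact PT_s D w r a b p.1 p.2
      · rw [Set.indicator_of_notMem (fun h => hp ((hjmem p).1 h)), Set.indicator_of_notMem hp,
          mul_zero]
    · intro p hp
      have hpI : p ∈ P ∩ N := by
        by_contra h
        exact hp (Set.indicator_of_notMem h f)
      obtain ⟨⟨x, hx⟩, ⟨y, hy⟩⟩ := dvd_both h2 D hpI.1.2 hpI.2.2
      exact ⟨(x, y), Prod.ext hx.symm hy.symm⟩
  -- assembly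
  have hS1 : ∑' p : {p : a × b // Qa σ a p.1 - Qa σ b p.2 = m}, PT w r σ a b p.1.1 p.1.2 =
      ∑' p, E₁.indicator f p :=
    pairs_tsum a b (fun x y => Qa σ a x - Qa σ b y = m) f
  have hS2 : ∑' p : {p : a × b // Qa σ a p.1 - Qa σ b p.2 = q * m}, PT w r σ a b p.1.1 p.1.2 =
      ∑' p, E.indicator f p :=
    pairs_tsum a b (fun x y => Qa σ a x - Qa σ b y = q * m) f
  unfold SS
  rw [hS1, hS2]
  rw [hPN, hPval] at hmain
  have hk : (Complex.I * (Real.sqrt q : ℂ)) ^ (w + 2 * r) ≠ 0 := by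
    apply pow_ne_zero
    apply mul_ne_zero Complex.I_ne_zero
    have : Real.sqrt q ≠ 0 := by
      rw [Real.sqrt_ne_zero']
      have : (0 : ℝ) ≤ q := by positivity
      exact lt_of_le_of_ne this hqR.symm
    exact_mod_cast this
  have hqC : (q : ℂ) ^ (w + r) ≠ 0 := pow_ne_zero _ (by exact_mod_cast hq0)
  have e1 : ∑' p, E.indicator f p = 2 * ((M : ℂ) ^ (w + r) * XX w r m (tau σ c₁) (tau σ c₂)
      (tau σ d₁) (tau σ d₂)) - (Complex.I * Real.sqrt q) ^ (w + 2 * r) *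
      ((q : ℂ) ^ (w + r))⁻¹ * ∑' p, E₁.indicator f p := by
    rw [← hmain]
    ring
  rw [e1]
  simp only [tau_def]
  have e2 : ((q : ℂ) * Ideal.absNorm c * Ideal.absNorm d) ^ (w + r) =
      (q : ℂ) ^ (w + r) * (M : ℂ) ^ (w + r) := by
    rw [← mul_pow, hM]
    push_cast
    ring
  rw [e2]
  field_simp
  ring

end RZ

end Pool.Agent.Lib.MP_7c08ba_nt
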