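import Pool.Agent.Lib.MP_7c08ba_nt.RZ.StA
import Pool.Agent.Lib.MP_7c08ba_nt.RZ.StG

set_option autoImplicit false

/-!
Module `ThCD`: theta series of ideals at the cusps `1 / g`, `g ∣ D`.
-/

namespace Pool.Agent.Lib.MP_7c08ba_nt

namespace RZ

open NumberField MeasureTheory UpperHalfPlane Set
open scoped MatrixGroups ComplexConjugate nonZeroDivisors

namespace ThCDX

section gauss

/-- The quadratic Gauss sum. -/
noncomputable def gs (n : ℕ) [NeZero n] (a : ZMod n) : ℂ := ∑ x : ZMod n, ZMod.stdAddChar (a * x ^ 2)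

theorem gs_mul_neg {n : ℕ} [NeZero n] (h2 : IsUnit (2 : ZMod n)) {a : ZMod n} (ha : IsUnit a) :
    gs n a * gs n (-a) = n := by
  unfold gs
  rw [Finset.sum_mul_sum, Finset.sum_comm]
  have h1 : ∀ y : ZMod n, ∑ x : ZMod n, (ZMod.stdAddChar (a * x ^ 2) *
      ZMod.stdAddChar (-a * y ^ 2) : ℂ) =
      ∑ d : ZMod n, (ZMod.stdAddChar (a * d ^ 2) * ZMod.stdAddChar (y * (2 * a * d)) : ℂ) := by
    intro y
    refine (Fintype.sum_equiv (Equiv.addRight y) _ _ fun d => ?_).symm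
    rw [← AddChar.map_add_eq_mul, ← AddChar.map_add_eq_mul]
    congr 1
    simp only [Equiv.coe_addRight]
    ring
  rw [Finset.sum_congr rfl fun y _ => h1 y, Finset.sum_comm]
  have h3 : ∀ d : ZMod n, ∑ y : ZMod n, (ZMod.stdAddChar (a * d ^ 2) *
      ZMod.stdAddChar (y * (2 * a * d)) : ℂ) = if d = 0 then (n : ℂ) else 0 := by
    intro d
    rw [← Finset.mul_sum, AddChar.sum_mulShift (2 * a * d) (ZMod.isPrimitive_stdAddChar n)]
    have h4 : 2 * a * d = 0 ↔ d = 0 := by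
      constructor
      · intro h
        exact (h2.mul ha).mul_right_eq_zero.1 h
      · rintro rfl
        simp
    by_cases hd : d = 0
    · subst hd
      simp
    · rw [if_neg (fun h => hd (h4.1 h)), if_neg hd]
      simp
  rw [Finset.sum_congr rfl fun d _ => h3 d]
  simp

theorem gs_neg {n : ℕ} [NeZero n] (a : ZMod n) : gs n (-a) = conj (gs n a) := by
  unfold gs
  rw [map_sum]
  refine Finset.sum_congr rfl fun x _ => ?_
  rw [neg_mul, AddChar.map_neg_eq_conj]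

theorem gs_mul_sq {n : ℕ} [NeZero n] (a : ZMod n) {c : ZMod n} (hc : IsUnit c) :
    gs n (a * c ^ 2) = gs n a := by
  unfold gs
  obtain ⟨c, rfl⟩ := hc
  refine Fintype.sum_equiv (Units.mulLeft c) _ _ fun x => ?_
  rw [Units.mulLeft_apply]
  congr 1
  ring

/-- the quadratic Fourier expansion of a quadratic character -/
theorem gs_fourier {n : ℕ} [NeZero n] (h2 : IsUnit (2 : ZMod n)) {N Ni : ZMod n}
    (hN : N * Ni = 1) (m : ZMod n) :
    (ZMod.stdAddChar (Ni * m ^ 2) : ℂ) * n = gs n N *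
      ∑ t : ZMod n, ZMod.stdAddChar (-(N * t ^ 2)) * ZMod.stdAddChar (-(2 * t * m)) := by
  have hu : IsUnit N := IsUnit.of_mul_eq_one _ hN
  have h1 : ∑ t : ZMod n, (ZMod.stdAddChar (-(N * t ^ 2)) * ZMod.stdAddChar (-(2 * t * m)) : ℂ) =
      ZMod.stdAddChar (Ni * m ^ 2) * gs n (-N) := by
    unfold gs
    rw [Finset.mul_sum]
    refine Fintype.sum_equiv (Equiv.addRight (Ni * m)) _ _ fun t => ?_
    rw [← AddChar.map_add_eq_mul, ← AddChar.map_add_eq_mul]
    congr 1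
    simp only [Equiv.coe_addRight]
    linear_combination (2 * t * m + Ni * m ^ 2) * hN
  rw [h1, mul_left_comm, gs_mul_neg h2 hu]

theorem std_eq {n : ℕ} [NeZero n] (m : ℤ) :
    (ZMod.stdAddChar (m : ZMod n) : ℂ) = Complex.exp (2 * Real.pi * Complex.I * (m / n)) := by
  rw [ZMod.stdAddChar_coe]
  congr 1
  ring

theorem crt_bij {m n : ℕ} [NeZero m] [NeZero n] (h : m.Coprime n) :
    Function.Bijective (fun p : ZMod m × ZMod n =>
      (((p.1.val : ℤ) * n + (p.2.val : ℤ) * m : ℤ) : ZMod (m * n))) := by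
  have hi : IsCoprime (m : ℤ) (n : ℤ) := Nat.isCoprime_iff_coprime.2 h
  rw [Fintype.bijective_iff_injective_and_card]
  constructor
  · rintro ⟨x, y⟩ ⟨x', y'⟩ hxy
    simp only at hxy
    rw [← sub_eq_zero, ← Int.cast_sub, ZMod.intCast_zmod_eq_zero_iff_dvd] at hxy
    push_cast at hxy
    have e1 : (m : ℤ) ∣ ((x.val : ℤ) - x'.val) := by
      have : (m : ℤ) ∣ ((x.val : ℤ) - x'.val) * n := by
        have h1 := (dvd_mul_right (m : ℤ) n).trans hxy
        have h2 : ((x.val : ℤ) - x'.val) * n = ((x.val : ℤ) * n + (y.val : ℤ) * m -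
          ((x'.val : ℤ) * n + (y'.val : ℤ) * m)) - m * ((y.val : ℤ) - y'.val) := by ring
        rw [h2]
        exact dvd_sub h1 (dvd_mul_right _ _)
      exact hi.dvd_of_dvd_mul_right this
    have e2 : (n : ℤ) ∣ ((y.val : ℤ) - y'.val) := by
      have : (n : ℤ) ∣ ((y.val : ℤ) - y'.val) * m := by
        have h1 := (dvd_mul_left (n : ℤ) m).trans hxy
        have h2 : ((y.val : ℤ) - y'.val) * m = ((x.val : ℤ) * n + (y.val : ℤ) * m -
          ((x'.val : ℤ) * n + (y'.val : ℤ) * m)) - n * ((x.val : ℤ) - x'.val) := by ring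
        rw [h2]
        exact dvd_sub h1 (dvd_mul_right _ _)
      exact hi.symm.dvd_of_dvd_mul_right this
    have e3 : x = x' := by
      have := (ZMod.intCast_zmod_eq_zero_iff_dvd _ m).2 e1
      rw [Int.cast_sub, sub_eq_zero] at this
      simpa using this
    have e4 : y = y' := by
      have := (ZMod.intCast_zmod_eq_zero_iff_dvd _ n).2 e2
      rw [Int.cast_sub, sub_eq_zero] at this
      simpa using this
    rw [e3, e4]
  · rw [Fintype.card_prod, ZMod.card, ZMod.card, ZMod.card]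

theorem gs_crt {m n : ℕ} [NeZero m] [NeZero n] (h : m.Coprime n) (a : ℤ) :
    gs (m * n) (a : ZMod (m * n)) = gs m ((a * n : ℤ) : ZMod m) * gs n ((a * m : ℤ) : ZMod n) := by
  unfold gs
  rw [Finset.sum_mul_sum, ← Fintype.sum_prod_type', ← (crt_bij h).sum_comp]
  refine Fintype.sum_congr _ _ fun p => ?_
  have hm : (m : ℂ) ≠ 0 := by exact_mod_cast NeZero.ne m
  have hn : (n : ℂ) ≠ 0 := by exact_mod_cast NeZero.ne n
  have e1 : ((a : ZMod (m * n)) * (((p.1.val : ℤ) * n + (p.2.val : ℤ) * m : ℤ) :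
      ZMod (m * n)) ^ 2) = ((a * ((p.1.val : ℤ) * n + (p.2.val : ℤ) * m) ^ 2 : ℤ) :
      ZMod (m * n)) := by push_cast; ring
  have e2 : ((a * n : ℤ) : ZMod m) * p.1 ^ 2 = ((a * n * (p.1.val : ℤ) ^ 2 : ℤ) : ZMod m) := by
    push_cast
    rw [ZMod.natCast_zmod_val]
  have e3 : ((a * m : ℤ) : ZMod n) * p.2 ^ 2 = ((a * m * (p.2.val : ℤ) ^ 2 : ℤ) : ZMod n) := by
    push_cast
    rw [ZMod.natCast_zmod_val]
  rw [e1, e2, e3, std_eq, std_eq, std_eq, ← Complex.exp_add]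
  have e4 : 2 * (Real.pi : ℂ) * Complex.I * (((a * ((p.1.val : ℤ) * n + (p.2.val : ℤ) * m) ^ 2 : ℤ) : ℂ) /
      ((m * n : ℕ) : ℂ)) = (2 * Real.pi * Complex.I * (((a * n * (p.1.val : ℤ) ^ 2 : ℤ) : ℂ) / m) +
      2 * Real.pi * Complex.I * (((a * m * (p.2.val : ℤ) ^ 2 : ℤ) : ℂ) / n)) +
      ((2 * a * p.1.val * p.2.val : ℤ) : ℂ) * (2 * Real.pi * Complex.I) := by
    push_cast
    field_simp
    ring
  rw [e4, Complex.exp_add, Complex.exp_int_mul_two_pi_mul_I, mul_one]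

section prime
variable {q : ℕ} [Fact q.Prime]

theorem gs_eq (hq : q ≠ 2) {a : ZMod q} (ha : a ≠ 0) :
    gs q a = ∑ x : ZMod q, (quadraticChar (ZMod q) x : ℂ) * ZMod.stdAddChar (a * x) := by
  classical
  have h1 : gs q a = ∑ x : ZMod q, ((quadraticChar (ZMod q) x : ℂ) + 1) * ZMod.stdAddChar (a * x) := by
    unfold gs
    rw [← Finset.sum_fiberwise Finset.univ (fun n : ZMod q => n ^ 2)]
    refine Finset.sum_congr rfl fun x _ => ?_
    rw [Finset.sum_congr rfl (g := fun _ => ZMod.stdAddChar (a * x)) (fun n hn => by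
      rw [(Finset.mem_filter.1 hn).2])]
    rw [Finset.sum_const, nsmul_eq_mul]
    congr 1
    have h2 := quadraticChar_card_sqrts (F := ZMod q) (by rwa [ZMod.ringChar_zmod_n]) x
    have h3 : ({n | n ^ 2 = x} : Set (ZMod q)).toFinset =
        Finset.univ.filter fun n : ZMod q => n ^ 2 = x := by
      ext n
      simp
    rw [h3] at h2
    have h4 : (((Finset.univ.filter fun n : ZMod q => n ^ 2 = x).card : ℤ) : ℂ) =
        ((quadraticChar (ZMod q) x + 1 : ℤ) : ℂ) := by rw [h2]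
    push_cast at h4
    exact h4
  rw [h1]
  simp_rw [add_mul, one_mul]
  rw [Finset.sum_add_distrib]
  have h5 := AddChar.sum_mulShift (ψ := ZMod.stdAddChar (N := q)) a (ZMod.isPrimitive_stdAddChar q)
  rw [if_neg ha, Nat.cast_zero] at h5
  have h6 : ∑ x : ZMod q, (ZMod.stdAddChar (a * x) : ℂ) = 0 := by
    rw [← h5]
    exact Finset.sum_congr rfl fun x _ => by rw [mul_comm]
  rw [h6, add_zero]

theorem gs_mul (hq : q ≠ 2) {a j : ZMod q} (ha : a ≠ 0) (hj : j ≠ 0) :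
    gs q (j * a) = (quadraticChar (ZMod q) j : ℂ) * gs q a := by
  rw [gs_eq hq (mul_ne_zero hj ha), gs_eq hq ha, Finset.mul_sum]
  refine Fintype.sum_equiv (Equiv.mulLeft₀ j hj) _ _ fun x => ?_
  show _ = (quadraticChar (ZMod q) j : ℂ) * ((quadraticChar (ZMod q) (j * x) : ℂ) *
    ZMod.stdAddChar (a * (j * x)))
  have h1 : (quadraticChar (ZMod q) j : ℂ) * (quadraticChar (ZMod q) j : ℂ) = 1 := by
    have := quadraticChar_sq_one hj
    rw [sq] at this
    exact_mod_cast this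
  have h2 : (quadraticChar (ZMod q) (j * x) : ℂ) =
      quadraticChar (ZMod q) j * quadraticChar (ZMod q) x := by
    rw [map_mul]
    push_cast
    rfl
  rw [h2, ← mul_assoc, ← mul_assoc, h1, one_mul, mul_left_comm a, mul_assoc j]

theorem gs_prime (hq : q ≠ 2) {a j : ℤ} (ha : ¬ (q : ℤ) ∣ a) (hj : ¬ (q : ℤ) ∣ j) :
    gs q ((j * a : ℤ) : ZMod q) = (jacobiSym j q : ℂ) * gs q (a : ZMod q) := by
  have ha' : (a : ZMod q) ≠ 0 := fun h => ha ((ZMod.intCast_zmod_eq_zero_iff_dvd _ q).1 h)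
  have hj' : (j : ZMod q) ≠ 0 := fun h => hj ((ZMod.intCast_zmod_eq_zero_iff_dvd _ q).1 h)
  rw [Int.cast_mul, gs_mul hq ha' hj', ← jacobiSym.legendreSym.to_jacobiSym]
  rfl

end prime

theorem gs_jacobi (G : ℕ) : ∀ [NeZero G], Odd G → Squarefree G → ∀ a j : ℤ, IsCoprime a G →
    IsCoprime j G → gs G ((j * a : ℤ) : ZMod G) = (jacobiSym j G : ℂ) * gs G (a : ZMod G) := by
  induction G using Nat.strong_induction_on with
  | _ G ih =>
    intro _ hodd hsq a j ha hj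
    by_cases hG : G = 1
    · subst hG
      rw [jacobiSym.one_right, Int.cast_one, one_mul]
      congr 1
      exact Subsingleton.elim _ _
    · have hp : (Nat.minFac G).Prime := Nat.minFac_prime hG
      obtain ⟨n, hn⟩ := Nat.minFac_dvd G
      set p := Nat.minFac G with hpd
      have hG0 : G ≠ 0 := NeZero.ne G
      have hn0 : n ≠ 0 := by
        rintro rfl
        exact hG0 (by rw [hn, mul_zero])
      have hcop : p.Coprime n := by
        rw [hn] at hsq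
        exact Nat.coprime_of_squarefree_mul hsq
      have hsqn : Squarefree n := hsq.squarefree_of_dvd ⟨p, by rw [mul_comm]; exact hn⟩
      have hoddn : Odd n := hodd.of_dvd_nat ⟨p, by rw [mul_comm]; exact hn⟩
      have hoddp : Odd p := hodd.of_dvd_nat ⟨n, hn⟩
      have hp2 : p ≠ 2 := by
        rintro h
        rw [h] at hoddp
        exact absurd hoddp (by decide)
      have hlt : n < G := by
        rw [hn]
        exact lt_mul_of_one_lt_left (Nat.pos_of_ne_zero hn0) hp.one_lt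
      have : Fact p.Prime := ⟨hp⟩
      have : NeZero p := ⟨hp.ne_zero⟩
      have : NeZero n := ⟨hn0⟩
      clear_value p
      subst hn
      have hpn : IsCoprime (p : ℤ) (n : ℤ) := Nat.isCoprime_iff_coprime.2 hcop
      have key : ∀ b : ℤ, IsCoprime b ((p * n : ℕ) : ℤ) → ¬ (p : ℤ) ∣ b ∧ IsCoprime b (n : ℤ) := by
        intro b hb
        push_cast at hb
        constructor
        · intro h
          have h1 := hb.of_mul_right_left
          have h2 : IsUnit (p : ℤ) := h1.isUnit_of_dvd' h dvd_rfl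
          exact (Nat.prime_iff_prime_int.1 hp).not_isUnit h2
        · exact hb.of_mul_right_right
      obtain ⟨a1, a2⟩ := key a ha
      obtain ⟨j1, j2⟩ := key j hj
      have hpI : Prime (p : ℤ) := Nat.prime_iff_prime_int.1 hp
      have n1 : ¬ (p : ℤ) ∣ (n : ℤ) := fun h => hpI.not_isUnit (hpn.isUnit_of_dvd' dvd_rfl h)
      rw [gs_crt hcop, gs_crt hcop, mul_assoc j a n, mul_assoc j a p,
        gs_prime hp2 (fun h => (hpI.dvd_or_dvd h).elim a1 n1) j1,
        ih n hlt hoddn hsqn (a * p) j (a2.mul_left hpn) j2, jacobiSym.mul_right]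
      push_cast
      ring

end gauss

section field

variable {F : Type} [Field F] [NumberField F] {D : ℕ} {s : 𝓞 F} {σ : F →+* ℂ}
  {χ : DirichletCharacter ℂ D} {cj : 𝓞 F ≃+* 𝓞 F} {a : Ideal (𝓞 F)}

/-- The number `√(-D)`. -/
noncomputable def Sq (D : ℕ) : ℂ := Complex.I * Real.sqrt D

theorem ee_add (x y : ℂ) : ee (x + y) = ee x * ee y := by
  unfold ee
  rw [← Complex.exp_add]
  congr 1
  ring

theorem ee_int (m : ℤ) : ee m = 1 := by
  unfold ee
  rw [show 2 * (Real.pi : ℂ) * Complex.I * m = m * (2 * Real.pi * Complex.I) by ring]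
  exact Complex.exp_int_mul_two_pi_mul_I m

theorem norm_ee (z : ℂ) : ‖ee z‖ = Real.exp (-(2 * Real.pi * z.im)) := by
  unfold ee
  rw [Complex.norm_exp]
  congr 1
  simp

theorem ee_div {n : ℕ} [NeZero n] (m : ℤ) : ee (m / n) = ZMod.stdAddChar (m : ZMod n) := by
  rw [std_eq]
  rfl

theorem normSq_Sq (D : ℕ) : Complex.normSq (Sq D) = D := by
  unfold Sq
  rw [Complex.normSq_mul, Complex.normSq_I, Complex.normSq_ofReal,
    Real.mul_self_sqrt (Nat.cast_nonneg D), one_mul]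

theorem Sq_ne {D : ℕ} (hD : D ≠ 0) : Sq D ≠ 0 := by
  intro h
  have := normSq_Sq D
  rw [h, map_zero] at this
  exact hD (by exact_mod_cast this.symm)

omit [NumberField F] in
theorem σ_int (n : ℤ) : σ ((n : 𝓞 F) : F) = n := by
  rw [show ((n : 𝓞 F) : F) = (n : F) from map_intCast (algebraMap (𝓞 F) F) n, map_intCast]

theorem pos_norm (ha : a ≠ ⊥) : (0 : ℝ) < (Ideal.absNorm a : ℝ) := by
  have : Ideal.absNorm a ≠ 0 := fun h0 => ha (Ideal.absNorm_eq_zero_iff.1 h0)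
  exact_mod_cast Nat.pos_of_ne_zero this

/-- The parametrisation of the ideal. -/
noncomputable def par (hB : StBaseD) (hD : DatD D s σ χ cj) {x y : 𝓞 F} (h : OBasis σ a x y) :
    ℤ × ℤ ≃ a :=
  Equiv.ofBijective (fun p : ℤ × ℤ => (⟨(p.1 : 𝓞 F) * x + (p.2 : 𝓞 F) * y,
    (h.mem _).2 ⟨p.1, p.2, rfl⟩⟩ : a)) (by
    constructor
    · intro p p' e
      have e1 : (p.1 : 𝓞 F) * x + (p.2 : 𝓞 F) * y = (p'.1 : 𝓞 F) * x + (p'.2 : 𝓞 F) * y :=
        congrArg Subtype.val e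
      have e2 := (hB D F _ _ s σ χ cj hD).2.2.2.1 a x y h (p.1 - p'.1) (p.2 - p'.2) (by
        push_cast
        linear_combination e1)
      exact Prod.ext (by omega) (by omega)
    · rintro ⟨z, hz⟩
      obtain ⟨m, n, e⟩ := (h.mem z).1 hz
      exact ⟨(m, n), Subtype.ext e.symm⟩)

theorem par_val (hB : StBaseD) (hD : DatD D s σ χ cj) {x y : 𝓞 F} (h : OBasis σ a x y)
    (p : ℤ × ℤ) : σ ((par hB hD h p : a) : 𝓞 F) = (p.1 : ℂ) * σ x + p.2 * σ y := by
  show σ (((p.1 : 𝓞 F) * x + (p.2 : 𝓞 F) * y : 𝓞 F) : F) = _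
  push_cast
  rw [map_add, map_mul, map_mul, σ_int, σ_int]

/-- Poisson summation for an ideal. -/
theorem pois (hP : StPoisK) (hB : StBaseD) (hD : DatD D s σ χ cj) (ha : a ≠ ⊥) {k : ℕ}
    (hk : Even k) (x : ℂ) {u : ℂ} (hu : 0 < u.im) :
    ∑' α : a, (x + σ (α : 𝓞 F)) ^ k *
        ee (Complex.normSq (x + σ (α : 𝓞 F)) / (Ideal.absNorm a : ℝ) * (-1 / u)) =
      (Sq D)⁻¹ * u ^ (k + 1) * ∑' η : a,
        ee (-(2 * (x * conj (σ (η : 𝓞 F) / Sq D)).re / (Ideal.absNorm a : ℝ) : ℝ)) *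
        ((σ (η : 𝓞 F) / Sq D) ^ k * ee (Qa σ a η / D * u)) := by
  obtain ⟨X, Y, hb⟩ := (hB D F _ _ s σ χ cj hD).1 a ha
  have him := (hB D F _ _ s σ χ cj hD).2.2.1 a X Y hb
  have hD0 : D ≠ 0 := by
    have := hD.odd.2.2
    omega
  have hDpos : (0 : ℝ) < D := by exact_mod_cast Nat.pos_of_ne_zero hD0
  have hsq : (0 : ℝ) < Real.sqrt D := Real.sqrt_pos.2 hDpos
  have hsqC : (Real.sqrt D : ℂ) ≠ 0 := by exact_mod_cast hsq.ne'
  have hDC : (D : ℂ) ≠ 0 := by exact_mod_cast hD0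
  have hN := pos_norm ha
  have hNC : ((Ideal.absNorm a : ℝ) : ℂ) ≠ 0 := by exact_mod_cast hN.ne'
  have hpos : 0 < (σ (X : F) * conj (σ (Y : F))).im := by rw [him]; positivity
  have key := hP k (σ X) (σ Y) x u (Ideal.absNorm a : ℝ) hpos hN hu
  have hDval : (Complex.I * (Ideal.absNorm a : ℝ) / (2 * (σ (X : F) * conj (σ (Y : F))).im) : ℂ) =
      -(Sq D)⁻¹ := by
    rw [him]
    unfold Sq
    push_cast at hNC ⊢
    field_simp
    linear_combination Complex.I_sq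
  simp only [hDval] at key
  rw [← (par hB hD hb).tsum_eq, ← (par hB hD hb).tsum_eq]
  simp_rw [add_assoc] at key
  have e1 : ∑' p : ℤ × ℤ, (x + σ ((par hB hD hb p : a) : 𝓞 F)) ^ k *
      ee (Complex.normSq (x + σ ((par hB hD hb p : a) : 𝓞 F)) / (Ideal.absNorm a : ℝ) * (-1 / u)) =
      ∑' p : ℤ × ℤ, (x + ((p.1 : ℂ) * σ X + p.2 * σ Y)) ^ k *
        ee (Complex.normSq (x + ((p.1 : ℂ) * σ X + p.2 * σ Y)) / (Ideal.absNorm a : ℝ) *
          (-1 / u)) := tsum_congr fun p => by rw [par_val]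
  rw [e1, key]
  have e2 : -(Sq D)⁻¹ * (-u) ^ (k + 1) = (Sq D)⁻¹ * u ^ (k + 1) := by
    rw [Odd.neg_pow hk.add_one]
    ring
  rw [e2]
  congr 1
  refine tsum_congr fun p => ?_
  have e3 : -(Sq D)⁻¹ * ((p.1 : ℂ) * σ X + p.2 * σ Y) =
      -(((p.1 : ℂ) * σ X + p.2 * σ Y) / Sq D) := by
    rw [div_eq_mul_inv]
    ring
  rw [par_val, Qa, par_val, e3, hk.neg_pow, Complex.normSq_neg, Complex.normSq_div, normSq_Sq,
    map_neg, mul_neg, Complex.neg_re, mul_assoc]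
  congr 2
  · push_cast
    ring
  · congr 2
    push_cast
    field_simp

/-- Facts on residues modulo `s`. -/
theorem res_norm (hb : StBasD) (hD : DatD D s σ χ cj) (x : 𝓞 F) (n : ℤ) (h : s ∣ x - n) :
    (D : ℤ) ∣ (Ideal.absNorm (Ideal.span {x}) : ℤ) - n ^ 2 := by
  obtain ⟨-, -, -, b4, b5, -, -, -, -, b10⟩ := hb D F _ _ s σ χ cj hD
  rw [← b10]
  have e : (((Ideal.absNorm (Ideal.span {x}) : ℤ) - n ^ 2 : ℤ) : 𝓞 F) =
      x * ((x - n) - (x - cj x)) + n * (x - n) := by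
    push_cast
    rw [← b5 x]
    ring
  rw [e]
  exact dvd_add (dvd_mul_of_dvd_right (dvd_sub h (b4 x)) _) (dvd_mul_of_dvd_right h _)

theorem res_trace (hb : StBasD) (hD : DatD D s σ χ cj) (x : 𝓞 F) :
    ∃ T : ℤ, 2 * (σ (x : F)).re = T ∧ ∀ n : ℤ, s ∣ x - n → (D : ℤ) ∣ T - 2 * n := by
  obtain ⟨b1, -, -, -, -, -, -, -, -, b10⟩ := hb D F _ _ s σ χ cj hD
  obtain ⟨A, B, e, -⟩ := b1 x
  refine ⟨A, ?_, fun n hn => ?_⟩
  · have e1 : σ ((x + x : 𝓞 F) : F) = σ ((A + B * s : 𝓞 F) : F) := by rw [← two_mul, e]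
    push_cast at e1
    rw [map_add, map_add, map_mul, hD.im, σ_int, σ_int] at e1
    have e2 := congrArg Complex.re e1
    simp at e2
    linarith
  · rw [← b10]
    have e1 : ((A - 2 * n : ℤ) : 𝓞 F) = 2 * (x - n) - B * s := by
      push_cast
      linear_combination -e
    rw [e1]
    exact dvd_sub (dvd_mul_of_dvd_right hn _) (dvd_mul_left _ _)

theorem res_Qa (hb : StBasD) (hT : StThBD) (hD : DatD D s σ χ cj) (ha : a ≠ ⊥) {x : 𝓞 F}
    (hx : x ∈ a) : ∃ m : ℤ, Qa σ a x = m ∧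
      (Ideal.absNorm (Ideal.span {x}) : ℤ) = m * Ideal.absNorm a := by
  obtain ⟨m, hm⟩ := (hT D F _ _ s σ χ cj a 0 0 1 hD ha (one_dvd _)).1 x hx
  refine ⟨m, by rw [hm]; push_cast; rfl, ?_⟩
  have h1 := (hb D F _ _ s σ χ cj hD).2.2.2.2.2.1 x
  have hN := pos_norm ha
  unfold Qa at hm
  rw [div_eq_iff hN.ne', h1] at hm
  exact_mod_cast hm

/-- An inverse of the norm of an ideal prime to `s`. -/
theorem norm_inv (hb : StBasD) (hT : StThBD) (hD : DatD D s σ χ cj) (ha : a ≠ ⊥)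
    (hc : IsCoprime a (Ideal.span {s})) :
    ∃ Ni : ℤ, (D : ℤ) ∣ (Ideal.absNorm a : ℤ) * Ni - 1 := by
  obtain ⟨x, hx, y, hy, hxy⟩ := Submodule.mem_sup.1 ((Ideal.isCoprime_iff_sup_eq.1 hc) ▸
    Submodule.mem_top (x := (1 : 𝓞 F)))
  obtain ⟨m, -, hm⟩ := res_Qa hb hT hD ha hx
  refine ⟨m, ?_⟩
  have h1 := res_norm hb hD x 1 (by
    obtain ⟨c, rfl⟩ := Ideal.mem_span_singleton.1 hy
    exact ⟨-c, by push_cast; linear_combination hxy⟩)
  rw [hm] at h1
  rw [mul_comm]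
  simpa using h1

end field

section main

variable {F : Type} [Field F] [NumberField F] {D : ℕ} {s : 𝓞 F} {σ : F →+* ℂ}
  {χ : DirichletCharacter ℂ D} {cj : 𝓞 F ≃+* 𝓞 F} {a : Ideal (𝓞 F)} {g G : ℕ}

theorem s_dvd_D (hD : DatD D s σ χ cj) : s ∣ ((D : ℕ) : 𝓞 F) :=
  ⟨-s, by linear_combination hD.sq⟩

theorem s_ne (hD : DatD D s σ χ cj) : s ≠ 0 := by
  rintro rfl
  have h := hD.im
  have h1 : Sq D = 0 := by
    unfold Sq
    rw [← h]
    simp
  have hD0 : D ≠ 0 := by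
    have := hD.odd.2.2
    omega
  exact Sq_ne hD0 h1

/-- The character of the quadratic form. -/
theorem char_Q (hb : StBasD) (hT : StThBD) (hD : DatD D s σ χ cj) (ha : a ≠ ⊥) (hgG : g * G = D)
    [NeZero G] {Ni : ℤ} (hNi : (D : ℤ) ∣ (Ideal.absNorm a : ℤ) * Ni - 1) (η : a) :
    ∃ (m T : ℤ), Qa σ a η = m ∧ 2 * (σ ((η : 𝓞 F) : F)).re = T ∧
      (ZMod.stdAddChar (m : ZMod G) : ℂ) * G =
        gs G ((Ideal.absNorm a : ℤ) : ZMod G) * ∑ t : ZMod G,
          ZMod.stdAddChar (-(((Ideal.absNorm a : ℤ) : ZMod G) * t ^ 2)) *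
            ZMod.stdAddChar (-(t * (T : ZMod G))) := by
  obtain ⟨m, hm, hm'⟩ := res_Qa hb hT hD ha η.2
  obtain ⟨T, hT1, hT2⟩ := res_trace hb hD (η : 𝓞 F)
  obtain ⟨n, hn⟩ := (hb D F _ _ s σ χ cj hD).2.2.2.2.2.2.2.2.1 (η : 𝓞 F)
  have h1 := res_norm hb hD _ n hn
  have h2 := hT2 n hn
  rw [hm'] at h1
  have hGD : (G : ℤ) ∣ (D : ℤ) := by
    rw [← hgG]
    push_cast
    exact dvd_mul_left _ _
  refine ⟨m, T, hm, hT1, ?_⟩
  have e1 : (m : ZMod G) * ((Ideal.absNorm a : ℤ) : ZMod G) = (n : ZMod G) ^ 2 := by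
    have := (ZMod.intCast_zmod_eq_zero_iff_dvd _ G).2 (hGD.trans h1)
    push_cast at this ⊢
    rwa [sub_eq_zero] at this
  have e2 : (T : ZMod G) = 2 * n := by
    have := (ZMod.intCast_zmod_eq_zero_iff_dvd _ G).2 (hGD.trans h2)
    push_cast at this ⊢
    rwa [sub_eq_zero] at this
  have e3 : ((Ideal.absNorm a : ℤ) : ZMod G) * (Ni : ZMod G) = 1 := by
    have := (ZMod.intCast_zmod_eq_zero_iff_dvd _ G).2 (hGD.trans hNi)
    push_cast at this ⊢
    rwa [sub_eq_zero] at this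
  have hodd : Odd G := by
    have h3 : Odd D := by
      rw [Nat.odd_iff]
      have := hD.odd.2.1
      omega
    exact h3.of_dvd_nat ⟨g, by rw [mul_comm]; exact hgG.symm⟩
  have h2u : IsUnit (2 : ZMod G) := by
    have : IsUnit ((2 : ℕ) : ZMod G) := (ZMod.isUnit_iff_coprime 2 G).2 (by
      rwa [Nat.coprime_two_left])
    simpa using this
  have h3 := gs_fourier h2u e3 (n : ZMod G)
  have e4 : (m : ZMod G) = Ni * (n : ZMod G) ^ 2 := by
    rw [← e1, mul_comm (m : ZMod G), ← mul_assoc, mul_comm (Ni : ZMod G), e3, one_mul]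
  rw [e4, h3]
  congr 1
  refine Finset.sum_congr rfl fun t _ => ?_
  congr 2
  rw [e2]
  ring

/-- The shifts. -/
noncomputable def sh (D g G : ℕ) (a : ℕ) (t : ZMod G) : ℂ := ((g * t.val * a : ℕ) : ℂ) / Sq D

theorem phase (hD : DatD D s σ χ cj) (ha : a ≠ ⊥) (hgG : g * G = D)
    [NeZero G] {z : ℂ} {T : ℤ} (hT : 2 * z.re = T) (t : ZMod G) :
    ee (-(2 * (sh D g G (Ideal.absNorm a) t * conj (z / Sq D)).re / (Ideal.absNorm a : ℝ) : ℝ)) =
      ZMod.stdAddChar (-(t * (T : ZMod G))) := by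
  have hD0 : D ≠ 0 := by
    have := hD.odd.2.2
    omega
  have hG0 : (G : ℝ) ≠ 0 := by exact_mod_cast NeZero.ne G
  have hg0 : (g : ℝ) ≠ 0 := by
    rintro h
    have : g = 0 := by exact_mod_cast h
    rw [this, zero_mul] at hgG
    exact hD0 hgG.symm
  have hN := pos_norm ha
  have hS := Sq_ne hD0
  have e0 : Sq D * conj (Sq D) = (D : ℂ) := by
    rw [Complex.mul_conj, normSq_Sq]
    simp
  have hDC : (D : ℂ) ≠ 0 := by exact_mod_cast hD0
  have hcS : conj (Sq D) ≠ 0 := by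
    rw [Ne, map_eq_zero]
    exact hS
  have e1 : sh D g G (Ideal.absNorm a) t * conj (z / Sq D) =
      (((g * t.val * Ideal.absNorm a : ℕ) / D : ℝ) : ℂ) * conj z := by
    unfold sh
    rw [map_div₀]
    push_cast
    rw [← e0]
    field_simp
  rw [e1, Complex.re_ofReal_mul, Complex.conj_re]
  have e2 : 2 * (((g * t.val * Ideal.absNorm a : ℕ) / D : ℝ) * z.re) / (Ideal.absNorm a : ℝ) =
      t.val * T / G := by
    rw [← hT, ← hgG]
    push_cast
    field_simp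
  rw [e2]
  have e3 : (-((t.val * T / G : ℝ) : ℂ)) = ((-(t.val * T) : ℤ) : ℂ) / G := by
    push_cast
    ring
  have e4 : ee (-((t.val * T / G : ℝ) : ℂ)) = ee (((-(t.val * T) : ℤ) : ℂ) / G) := by rw [e3]
  have e5 : (((-(t.val * T : ℝ) / G : ℝ)) : ℂ) = -((t.val * T / G : ℝ) : ℂ) := by
    push_cast
    ring
  rw [e4, ee_div]
  congr 1
  push_cast
  rw [ZMod.natCast_zmod_val]

/-- Summability. -/
theorem summ (hT : StThBD) (hD : DatD D s σ χ cj) (ha : a ≠ ⊥) (k : ℕ) {u : ℂ}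
    (hu : 0 < u.im) :
    Summable fun η : a => (σ ((η : 𝓞 F) : F) / Sq D) ^ k * ee (Qa σ a η / D * u) := by
  have hD0 : D ≠ 0 := by
    have := hD.odd.2.2
    omega
  have hDpos : (0 : ℝ) < D := by exact_mod_cast Nat.pos_of_ne_zero hD0
  have h1 := (hT D F _ _ s σ χ cj a k 0 1 hD ha (one_dvd _)).2.1 (2 * Real.pi * u.im / D)
    (by positivity)
  refine Summable.of_norm_bounded (h1.mul_left (‖Sq D‖ ^ k)⁻¹) fun η => ?_
  rw [norm_mul, norm_pow, norm_div, norm_ee, div_pow]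
  have e1 : ((Qa σ a (η : 𝓞 F) : ℂ) / D * u).im = Qa σ a (η : 𝓞 F) / D * u.im := by
    rw [show ((Qa σ a (η : 𝓞 F) : ℂ) / D * u) = ((Qa σ a (η : 𝓞 F) / D : ℝ) : ℂ) * u by
      push_cast; rfl, Complex.im_ofReal_mul]
  rw [e1]
  have e2 : Real.exp (-(2 * Real.pi * (Qa σ a (η : 𝓞 F) / D * u.im))) =
      Real.exp (-(2 * Real.pi * u.im / D * Qa σ a (η : 𝓞 F))) := by
    congr 1
    field_simp
  rw [e2]
  have e3 : ‖σ ((η : 𝓞 F) : F)‖ ^ k ≤ (1 + ‖σ ((η : 𝓞 F) : F)‖) ^ k := by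
    gcongr
    linarith [norm_nonneg (σ ((η : 𝓞 F) : F))]
  have e4 : 0 ≤ (‖Sq D‖ ^ k)⁻¹ := by positivity
  calc ‖σ ((η : 𝓞 F) : F)‖ ^ k / ‖Sq D‖ ^ k *
        Real.exp (-(2 * Real.pi * u.im / D * Qa σ a (η : 𝓞 F)))
      = (‖Sq D‖ ^ k)⁻¹ * (‖σ ((η : 𝓞 F) : F)‖ ^ k *
        Real.exp (-(2 * Real.pi * u.im / D * Qa σ a (η : 𝓞 F)))) := by ring
    _ ≤ _ := by gcongr

theorem aux_mul (c v p S : ℂ) (hc : c ≠ 0) : v * (p * S) = c * (p * (c⁻¹ * v * S)) := by
  field_simp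

/-- The sum at the other cusp at `g + v`. -/
theorem step (hP : StPoisK) (hB : StBaseD) (hb : StBasD) (hT : StThBD) (hD : DatD D s σ χ cj)
    (ha : a ≠ ⊥) (hgG : g * G = D) [NeZero G] {Ni : ℤ}
    (hNi : (D : ℤ) ∣ (Ideal.absNorm a : ℤ) * Ni - 1) {k : ℕ} (hk : Even k) {v : ℂ}
    (hv : 0 < v.im) :
    v ^ (k + 1) * ∑' η : a, (σ ((η : 𝓞 F) : F) / Sq D) ^ k * ee (Qa σ a η / D * (g + v)) =
      Sq D * (gs G ((Ideal.absNorm a : ℤ) : ZMod G) / G) * ∑ t : ZMod G,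
        ZMod.stdAddChar (-(((Ideal.absNorm a : ℤ) : ZMod G) * t ^ 2)) *
        ∑' α : a, (sh D g G (Ideal.absNorm a) t + σ ((α : 𝓞 F) : F)) ^ k *
          ee (Complex.normSq (sh D g G (Ideal.absNorm a) t + σ ((α : 𝓞 F) : F)) /
            (Ideal.absNorm a : ℝ) * (-1 / v)) := by
  have hD0 : D ≠ 0 := by
    have := hD.odd.2.2
    omega
  have hG0 : (G : ℂ) ≠ 0 := by exact_mod_cast NeZero.ne G
  have hg0 : (g : ℂ) ≠ 0 := by
    rintro h
    have : g = 0 := by exact_mod_cast h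
    rw [this, zero_mul] at hgG
    exact hD0 hgG.symm
  have hS := Sq_ne hD0
  have e1 : ∀ η : a, (σ ((η : 𝓞 F) : F) / Sq D) ^ k * ee (Qa σ a η / D * (g + v)) =
      gs G ((Ideal.absNorm a : ℤ) : ZMod G) / G * ∑ t : ZMod G,
        ZMod.stdAddChar (-(((Ideal.absNorm a : ℤ) : ZMod G) * t ^ 2)) *
        (ee (-(2 * (sh D g G (Ideal.absNorm a) t * conj (σ ((η : 𝓞 F) : F) / Sq D)).re /
          (Ideal.absNorm a : ℝ) : ℝ)) * ((σ ((η : 𝓞 F) : F) / Sq D) ^ k *
            ee (Qa σ a η / D * v))) := by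
    intro η
    obtain ⟨m, T, hm, hT', hc⟩ := char_Q hb hT hD ha hgG hNi η
    have e2 : ((Qa σ a (η : 𝓞 F) : ℂ) / D * (g + v)) = (m : ℂ) / G + Qa σ a (η : 𝓞 F) / D * v := by
      rw [hm, ← hgG]
      push_cast
      field_simp
    rw [e2, ee_add, ee_div]
    have e3 : (ZMod.stdAddChar (m : ZMod G) : ℂ) = gs G ((Ideal.absNorm a : ℤ) : ZMod G) / G *
        ∑ t : ZMod G, ZMod.stdAddChar (-(((Ideal.absNorm a : ℤ) : ZMod G) * t ^ 2)) *
          ZMod.stdAddChar (-(t * (T : ZMod G))) := by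
      rw [div_mul_eq_mul_div, eq_div_iff hG0, hc]
    rw [e3, mul_left_comm, mul_assoc, Finset.sum_mul]
    congr 1
    refine Finset.sum_congr rfl fun t _ => ?_
    rw [phase hD ha hgG hT' t]
    ring
  rw [tsum_congr e1, tsum_mul_left]
  have hsum : ∀ t : ZMod G, Summable fun η : a =>
      (ZMod.stdAddChar (-(((Ideal.absNorm a : ℤ) : ZMod G) * t ^ 2)) : ℂ) *
        (ee (-(2 * (sh D g G (Ideal.absNorm a) t * conj (σ ((η : 𝓞 F) : F) / Sq D)).re /
          (Ideal.absNorm a : ℝ) : ℝ)) * ((σ ((η : 𝓞 F) : F) / Sq D) ^ k *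
            ee (Qa σ a η / D * v))) := by
    intro t
    refine Summable.mul_left _ ?_
    refine Summable.of_norm_bounded (summ hT hD ha k hv).norm fun η => ?_
    rw [norm_mul, norm_ee]
    simp
  rw [Summable.tsum_finsetSum fun t _ => hsum t]
  rw [← mul_assoc, mul_comm (v ^ (k + 1)), mul_assoc, mul_comm (Sq D), mul_assoc]
  congr 1
  rw [Finset.mul_sum, Finset.mul_sum]
  refine Finset.sum_congr rfl fun t _ => ?_
  rw [tsum_mul_left, pois hP hB hD ha hk _ hv]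
  exact aux_mul _ _ _ _ hS

/-- The cosets. -/
theorem mem_ram (hR : StRam) (hD : DatD D s σ χ cj) (hc : IsCoprime a (Ideal.span {s}))
    (hgG : g * G = D) {x : 𝓞 F} {n : ℤ} (h : s ∣ x - n) :
    x ∈ a * ram s g ↔ x ∈ a ∧ (g : ℤ) ∣ n := by
  obtain ⟨-, -, -, r4, r5⟩ := hR D F _ _ s σ χ cj hD g ⟨G, hgG.symm⟩
  rw [r5 a x hc, r4 x n h]

omit [NumberField F] in
theorem div_s_mem (hc : IsCoprime a (Ideal.span {s})) {y : 𝓞 F} (h : s * y ∈ a) : y ∈ a := by
  obtain ⟨p, hp, z, hz, hpz⟩ := Submodule.mem_sup.1 ((Ideal.isCoprime_iff_sup_eq.1 hc) ▸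
    Submodule.mem_top (x := (1 : 𝓞 F)))
  obtain ⟨c, rfl⟩ := Ideal.mem_span_singleton.1 hz
  have : y = y * p + c * (s * y) := by linear_combination -y * hpz
  rw [this]
  exact a.add_mem (a.mul_mem_left _ hp) (a.mul_mem_left _ h)

/-- The union of the cosets. -/
theorem exists_equiv (hb : StBasD) (hR : StRam) (hD : DatD D s σ χ cj)
    (hc : IsCoprime a (Ideal.span {s})) (hgG : g * G = D) [NeZero G] {Ni : ℤ}
    (hNi : (D : ℤ) ∣ (Ideal.absNorm a : ℤ) * Ni - 1) :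
    ∃ e : ZMod G × a ≃ (a * ram s g : Ideal (𝓞 F)), ∀ p,
      ((e p : (a * ram s g : Ideal (𝓞 F))) : 𝓞 F) =
        ((g * p.1.val * Ideal.absNorm a : ℕ) : 𝓞 F) + s * (p.2 : 𝓞 F) := by
  obtain ⟨-, -, -, -, -, -, -, -, b9, b10⟩ := hb D F _ _ s σ χ cj hD
  have hD0 : D ≠ 0 := by
    have := hD.odd.2.2
    omega
  have hg0 : (g : ℤ) ≠ 0 := by
    rintro h
    have : g = 0 := by exact_mod_cast h
    rw [this, zero_mul] at hgG
    exact hD0 hgG.symm
  have hGD : (G : ℤ) ∣ (D : ℤ) := by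
    rw [← hgG]
    push_cast
    exact dvd_mul_left _ _
  have e3 : ((Ideal.absNorm a : ℤ) : ZMod G) * (Ni : ZMod G) = 1 := by
    have := (ZMod.intCast_zmod_eq_zero_iff_dvd _ G).2 (hGD.trans hNi)
    push_cast at this ⊢
    rwa [sub_eq_zero] at this
  have hNa : ((Ideal.absNorm a : ℕ) : 𝓞 F) ∈ a := Ideal.absNorm_mem a
  have hmem : ∀ p : ZMod G × a, ((g * p.1.val * Ideal.absNorm a : ℕ) : 𝓞 F) +
      s * (p.2 : 𝓞 F) ∈ a * ram s g := by
    intro p
    rw [mem_ram hR hD hc hgG (n := ((g * p.1.val * Ideal.absNorm a : ℕ) : ℤ))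
      ⟨p.2, by push_cast; ring⟩]
    constructor
    · refine a.add_mem ?_ (a.mul_mem_left _ p.2.2)
      rw [Nat.cast_mul]
      exact a.mul_mem_left _ hNa
    · push_cast
      exact ⟨p.1.val * Ideal.absNorm a, by ring⟩
  refine ⟨Equiv.ofBijective (fun p => ⟨_, hmem p⟩) ⟨?_, ?_⟩, fun p => rfl⟩
  · rintro ⟨t, α⟩ ⟨t', α'⟩ h
    have h1 : ((g * t.val * Ideal.absNorm a : ℕ) : 𝓞 F) + s * (α : 𝓞 F) =
        ((g * t'.val * Ideal.absNorm a : ℕ) : 𝓞 F) + s * (α' : 𝓞 F) :=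
      congrArg Subtype.val h
    have h2 : (D : ℤ) ∣ (g * t.val * Ideal.absNorm a : ℕ) - (g * t'.val * Ideal.absNorm a : ℕ) := by
      rw [← b10]
      refine ⟨(α' : 𝓞 F) - α, ?_⟩
      rw [Int.cast_sub, Int.cast_natCast, Int.cast_natCast]
      linear_combination h1
    have h3 : (G : ℤ) ∣ (t.val * Ideal.absNorm a : ℤ) - (t'.val * Ideal.absNorm a : ℤ) := by
      rw [← hgG] at h2
      push_cast at h2
      apply Int.dvd_of_mul_dvd_mul_left hg0
      convert h2 using 1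
      ring
    have h4 : t = t' := by
      have h5 := (ZMod.intCast_zmod_eq_zero_iff_dvd _ G).2 h3
      push_cast at h5 e3
      rw [ZMod.natCast_zmod_val, ZMod.natCast_zmod_val, sub_eq_zero] at h5
      have h6 := congrArg (fun x => x * (Ni : ZMod G)) h5
      simp only [mul_assoc] at h6
      rwa [e3, mul_one, mul_one] at h6
    subst h4
    have h5 : (α : 𝓞 F) = α' := mul_left_cancel₀ (s_ne hD) (add_left_cancel h1)
    exact Prod.ext rfl (Subtype.ext h5)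
  · rintro ⟨β, hβ⟩
    obtain ⟨n, hn⟩ := b9 β
    obtain ⟨hβa, n', rfl⟩ := (mem_ram hR hD hc hgG hn).1 hβ
    set t : ZMod G := (n' : ZMod G) * Ni with ht
    have h1 : (G : ℤ) ∣ (t.val : ℤ) * Ideal.absNorm a - n' := by
      rw [← ZMod.intCast_zmod_eq_zero_iff_dvd]
      push_cast at e3 ⊢
      rw [ZMod.natCast_zmod_val, ht, mul_assoc, mul_comm (Ni : ZMod G), e3]
      ring
    have h2 : s ∣ β - ((g * t.val * Ideal.absNorm a : ℕ) : 𝓞 F) := by
      obtain ⟨c, hc'⟩ := h1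
      obtain ⟨d, hd⟩ := hn
      obtain ⟨e, he⟩ := s_dvd_D hD
      have h3 : ((t.val : 𝓞 F) * Ideal.absNorm a - n') = G * c := by
        have := congrArg (Int.cast : ℤ → 𝓞 F) hc'
        push_cast at this
        exact this
      have h4 : (g : 𝓞 F) * G = D := by exact_mod_cast congrArg (Nat.cast : ℕ → 𝓞 F) hgG
      refine ⟨d - e * c, ?_⟩
      push_cast at hd ⊢
      linear_combination hd - g * h3 - c * h4 - c * he
    obtain ⟨y, hy⟩ := h2
    have hy' : y ∈ a := by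
      apply div_s_mem hc
      rw [← hy]
      refine a.sub_mem hβa ?_
      rw [Nat.cast_mul]
      exact a.mul_mem_left _ hNa
    refine ⟨(t, ⟨y, hy'⟩), Subtype.ext ?_⟩
    show ((g * t.val * Ideal.absNorm a : ℕ) : 𝓞 F) + s * y = β
    rw [← hy]
    ring

theorem aux_mul2 (x y z w : ℂ) : x * (y * (z * w)) = (x * w) * (y * z) := by ring

theorem collect (hb : StBasD) (hT : StThBD) (hR : StRam) (hD : DatD D s σ χ cj) (ha : a ≠ ⊥)
    (hc : IsCoprime a (Ideal.span {s})) (hgG : g * G = D) [NeZero G] {Ni : ℤ}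
    (hNi : (D : ℤ) ∣ (Ideal.absNorm a : ℤ) * Ni - 1) {h : ℤ} (hh : ((g * h : ℤ) : ZMod G) = 1)
    {k : ℕ} {u : ℂ} (hu : 0 < u.im) :
    ∑ t : ZMod G, ZMod.stdAddChar (-(((Ideal.absNorm a : ℤ) : ZMod G) * t ^ 2)) *
        ∑' α : a, (sh D g G (Ideal.absNorm a) t + σ ((α : 𝓞 F) : F)) ^ k *
          ee (Complex.normSq (sh D g G (Ideal.absNorm a) t + σ ((α : 𝓞 F) : F)) /
            (Ideal.absNorm a : ℝ) * (u + h)) = thG D s σ a g k u := by
  have hD0 : D ≠ 0 := by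
    have := hD.odd.2.2
    omega
  have hG0 : (G : ℂ) ≠ 0 := by exact_mod_cast NeZero.ne G
  have hg00 : g ≠ 0 := by
    rintro rfl
    rw [zero_mul] at hgG
    exact hD0 hgG.symm
  have hg0 : (g : ℂ) ≠ 0 := by exact_mod_cast hg00
  have hDC : (D : ℂ) ≠ 0 := by exact_mod_cast hD0
  have hS := Sq_ne hD0
  have hN := pos_norm ha
  have hram : ram s g ≠ ⊥ := by
    intro h0
    have h1 := (hR D F _ _ s σ χ cj hD g ⟨G, hgG.symm⟩).1
    rw [h0, Ideal.absNorm_bot] at h1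
    exact hg00 h1.symm
  have ha' : a * ram s g ≠ ⊥ := mul_ne_zero ha hram
  obtain ⟨e, he⟩ := exists_equiv hb hR hD hc hgG hNi
  have hval : ∀ p : ZMod G × a, sh D g G (Ideal.absNorm a) p.1 + σ ((p.2 : 𝓞 F) : F) =
      σ (((e p : (a * ram s g : Ideal (𝓞 F))) : 𝓞 F) : F) / Sq D := by
    intro p
    rw [he p, eq_div_iff hS]
    have e1 : σ ((((g * p.1.val * Ideal.absNorm a : ℕ) : 𝓞 F) + s * (p.2 : 𝓞 F) : 𝓞 F) : F) =
        ((g * p.1.val * Ideal.absNorm a : ℕ) : ℂ) + Sq D * σ ((p.2 : 𝓞 F) : F) := by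
      have e2 : ((((g * p.1.val * Ideal.absNorm a : ℕ) : 𝓞 F) + s * (p.2 : 𝓞 F) : 𝓞 F) : F) =
          ((((g * p.1.val * Ideal.absNorm a : ℕ) : ℤ) : 𝓞 F) : F) + (s : F) * ((p.2 : 𝓞 F) : F) := by
        push_cast
        rfl
      rw [e2, map_add, map_mul, σ_int, hD.im]
      push_cast
      rfl
    rw [e1]
    unfold sh
    field_simp
  have hterm : ∀ p : ZMod G × a,
      ZMod.stdAddChar (-(((Ideal.absNorm a : ℤ) : ZMod G) * p.1 ^ 2)) *
        ((sh D g G (Ideal.absNorm a) p.1 + σ ((p.2 : 𝓞 F) : F)) ^ k *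
          ee (Complex.normSq (sh D g G (Ideal.absNorm a) p.1 + σ ((p.2 : 𝓞 F) : F)) /
            (Ideal.absNorm a : ℝ) * (u + h))) =
      (σ (((e p : (a * ram s g : Ideal (𝓞 F))) : 𝓞 F) : F) / Sq D) ^ k *
        ee (Qa σ a (e p : (a * ram s g : Ideal (𝓞 F))) / D * u) := by
    intro p
    rw [hval p, Complex.normSq_div, normSq_Sq]
    set β : 𝓞 F := ((e p : (a * ram s g : Ideal (𝓞 F))) : 𝓞 F) with hβ
    have hβm : β ∈ a * ram s g := (e p).2
    have hle : a * ram s g ≤ a := Ideal.mul_le_left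
    have hβa : β ∈ a := hle hβm
    obtain ⟨m, hm, hm'⟩ := res_Qa hb hT hD ha hβa
    have h1 := res_norm hb hD β ((g * p.1.val * Ideal.absNorm a : ℕ) : ℤ)
      ⟨p.2, by rw [hβ, he p]; push_cast; ring⟩
    rw [hm'] at h1
    obtain ⟨l, hl⟩ := h1
    obtain ⟨l', hl'⟩ := hNi
    have h2 : ∃ c : ℤ, m = g ^ 2 * (p.1.val : ℤ) ^ 2 * Ideal.absNorm a + D * c := by
      refine ⟨-(m * l') + Ni * l + g ^ 2 * (p.1.val : ℤ) ^ 2 * Ideal.absNorm a * l', ?_⟩
      push_cast at hl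
      linear_combination -m * hl' + Ni * hl +
        g ^ 2 * (p.1.val : ℤ) ^ 2 * Ideal.absNorm a * hl'
    obtain ⟨c, hc'⟩ := h2
    have e1 : (((Complex.normSq (σ (β : F)) / D : ℝ) : ℂ) / ((Ideal.absNorm a : ℝ) : ℂ) * (u + h)) =
        (Qa σ a β / D * u) + (((g * h * Ideal.absNorm a * (p.1.val : ℤ) ^ 2 : ℤ) : ℂ) / G +
          ((c * h : ℤ) : ℂ)) := by
      have e2 : (((Complex.normSq (σ (β : F)) / D : ℝ) : ℂ) / ((Ideal.absNorm a : ℝ) : ℂ)) =
          (Qa σ a β : ℂ) / D := by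
        unfold Qa
        push_cast
        ring
      have e3 : (Qa σ a β : ℂ) = m := by rw [hm]; push_cast; rfl
      rw [e2, mul_add, e3, hc', ← hgG]
      push_cast
      field_simp
    rw [e1, ee_add, ee_add, ee_int, mul_one, ee_div]
    have e4 : ((g * h * Ideal.absNorm a * (p.1.val : ℤ) ^ 2 : ℤ) : ZMod G) =
        ((Ideal.absNorm a : ℤ) : ZMod G) * p.1 ^ 2 := by
      push_cast at hh ⊢
      rw [ZMod.natCast_zmod_val, hh, one_mul]
    rw [e4]
    have e5 : (ZMod.stdAddChar (-(((Ideal.absNorm a : ℤ) : ZMod G) * p.1 ^ 2)) : ℂ) *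
        ZMod.stdAddChar (((Ideal.absNorm a : ℤ) : ZMod G) * p.1 ^ 2) = 1 := by
      rw [← AddChar.map_add_eq_mul, neg_add_cancel, AddChar.map_zero_eq_one]
    rw [aux_mul2, e5, one_mul]
  have hsum : Summable fun β : (a * ram s g : Ideal (𝓞 F)) =>
      (σ ((β : 𝓞 F) : F) / Sq D) ^ k * ee (Qa σ a β / D * u) := by
    have hgpos : (0 : ℝ) < g := by exact_mod_cast Nat.pos_of_ne_zero hg00
    have h1 : 0 < (u * g).im := by
      rw [show (u * (g : ℂ)) = ((g : ℝ) : ℂ) * u by push_cast; ring, Complex.im_ofReal_mul]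
      positivity
    refine (summ hT hD ha' k h1).congr fun β => ?_
    congr 2
    have e1 : Ideal.absNorm (a * ram s g) = Ideal.absNorm a * g := by
      rw [map_mul, (hR D F _ _ s σ χ cj hD g ⟨G, hgG.symm⟩).1]
    have hNC : ((Ideal.absNorm a : ℕ) : ℂ) ≠ 0 := by exact_mod_cast hN.ne'
    unfold Qa
    rw [e1]
    push_cast
    field_simp
  have hsum2 := (e.summable_iff).2 hsum
  have h3 : ∀ t : ZMod G, ZMod.stdAddChar (-(((Ideal.absNorm a : ℤ) : ZMod G) * t ^ 2)) *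
        ∑' α : a, (sh D g G (Ideal.absNorm a) t + σ ((α : 𝓞 F) : F)) ^ k *
          ee (Complex.normSq (sh D g G (Ideal.absNorm a) t + σ ((α : 𝓞 F) : F)) /
            (Ideal.absNorm a : ℝ) * (u + h)) =
      ∑' α : a, ((fun β : (a * ram s g : Ideal (𝓞 F)) =>
        (σ ((β : 𝓞 F) : F) / Sq D) ^ k * ee (Qa σ a β / D * u)) ∘ e) (t, α) := by
    intro t
    rw [← tsum_mul_left]
    exact tsum_congr fun α => hterm (t, α)
  rw [Finset.sum_congr rfl fun t _ => h3 t, ← tsum_fintype (L := .unconditional _),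
    ← hsum2.tsum_prod]
  exact e.tsum_eq (fun β : (a * ram s g : Ideal (𝓞 F)) =>
        (σ ((β : 𝓞 F) : F) / Sq D) ^ k * ee (Qa σ a β / D * u))

end main

end ThCDX

open ThCDX in
theorem stThCD (h1 : StPoisK) (h2 : StBaseD) (h3 : StBasD) (h4 : StThBD) (h5 : StRam)
    (_h6 : StRepsD) : StThCD := by
  intro D F _ _ s σ χ cj hD g hgD
  obtain ⟨G, hG⟩ := hgD
  have hgG : g * G = D := hG.symm
  have hD0 : D ≠ 0 := by
    have := hD.odd.2.2
    omega
  have hg00 : g ≠ 0 := by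
    rintro rfl
    rw [zero_mul] at hgG
    exact hD0 hgG.symm
  have hG00 : G ≠ 0 := by
    rintro rfl
    rw [mul_zero] at hgG
    exact hD0 hgG.symm
  have : NeZero G := ⟨hG00⟩
  have hdiv : D / g = G := by
    rw [hG]
    exact Nat.mul_div_cancel_left G (Nat.pos_of_ne_zero hg00)
  have hsqf : Squarefree (g * G) := hgG ▸ hD.odd.1
  have hcop : g.Coprime G := Nat.coprime_of_squarefree_mul hsqf
  have hsqG : Squarefree G := hD.odd.1.squarefree_of_dvd ⟨g, by rw [mul_comm]; exact hG⟩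
  have hoddD : Odd D := by
    rw [Nat.odd_iff]
    have := hD.odd.2.1
    omega
  have hoddG : Odd G := hoddD.of_dvd_nat ⟨g, by rw [mul_comm]; exact hG⟩
  have h2u : IsUnit (2 : ZMod G) := by
    have : IsUnit ((2 : ℕ) : ZMod G) := (ZMod.isUnit_iff_coprime 2 G).2 (by
      rwa [Nat.coprime_two_left])
    simpa using this
  -- the inverse of `g` modulo `G`
  obtain ⟨h, hh⟩ : ∃ h : ℤ, ((g * h : ℤ) : ZMod G) = 1 := by
    have hu : IsUnit ((g : ℕ) : ZMod G) := (ZMod.isUnit_iff_coprime g G).2 hcop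
    obtain ⟨c, hc⟩ := hu.exists_right_inv
    refine ⟨(c.val : ℤ), ?_⟩
    push_cast
    rw [ZMod.natCast_zmod_val, hc]
  have hGR : (G : ℝ) ≠ 0 := by exact_mod_cast hG00
  have hGC : (G : ℂ) ≠ 0 := by exact_mod_cast hG00
  have hgR : (g : ℝ) ≠ 0 := by exact_mod_cast hg00
  refine ⟨h, gs G 1 / G, ?_, ?_⟩
  · have e1 : Complex.normSq (gs G 1) = G := by
      have e2 := gs_mul_neg h2u (isUnit_one (M := ZMod G))
      rw [gs_neg, Complex.mul_conj] at e2
      exact_mod_cast e2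
    rw [Complex.normSq_div, e1, Complex.normSq_natCast, ← hgG]
    push_cast
    field_simp
  · intro a k u ha hc hk hu
    rw [hdiv]
    obtain ⟨Ni, hNi⟩ := norm_inv h3 h4 hD ha hc
    set z : ℂ := u + h with hz
    have hzim : 0 < z.im := by
      rw [hz, Complex.add_im, Complex.intCast_im, add_zero]
      exact hu
    have hz0 : z ≠ 0 := by
      intro h0
      rw [h0] at hzim
      simp at hzim
    have hvim : 0 < (-1 / z).im := by
      rw [neg_div, Complex.neg_im, one_div, Complex.inv_im, neg_div, neg_neg]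
      have := Complex.normSq_pos.2 hz0
      positivity
    set v : ℂ := -1 / z with hv
    have hv0 : v ≠ 0 := by
      intro h0
      rw [h0] at hvim
      simp at hvim
    have hvz : -1 / v = z := by
      rw [hv]
      field_simp
    have hwim : 0 < ((g : ℂ) + v).im := by
      rw [Complex.add_im, Complex.natCast_im, zero_add]
      exact hvim
    have hw0 : (g : ℂ) + v ≠ 0 := by
      intro h0
      rw [h0] at hwim
      simp at hwim
    have hwv : (1 - g * z) * v = g + v := by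
      rw [hv]
      field_simp
      ring
    have hgz : 1 - g * z ≠ 0 := by
      intro h0
      rw [h0, zero_mul] at hwv
      exact hw0 hwv.symm
    have harg : z / (1 - g * z) = -1 / (g + v) := by
      rw [div_eq_div_iff hgz hw0, ← hwv, hv]
      field_simp
    rw [harg]
    -- the transformation at infinity
    have p1 := pois h1 h2 hD ha hk 0 hwim
    have p2 : th σ a k (-1 / (g + v)) = (Sq D)⁻¹ * (g + v) ^ (k + 1) *
        ∑' η : a, (σ ((η : 𝓞 F) : F) / Sq D) ^ k * ee (Qa σ a η / D * (g + v)) := by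
      have e1 : ∀ η : a, ee (-(2 * ((0 : ℂ) * conj (σ ((η : 𝓞 F) : F) / Sq D)).re /
          (Ideal.absNorm a : ℝ) : ℝ)) = 1 := by
        intro η
        rw [zero_mul, Complex.zero_re, mul_zero, zero_div]
        have := ee_int 0
        simpa using this
      simp only [e1, one_mul, zero_add] at p1
      rw [← p1]
      unfold th
      refine tsum_congr fun η => ?_
      unfold Qa
      push_cast
      rfl
    have p3 := step h1 h2 h3 h4 hD ha hgG hNi hk hvim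
    rw [hvz, hz, collect h3 h4 h5 hD ha hc hgG hNi hh hu] at p3
    -- the Gauss sum
    have hNG : IsCoprime ((Ideal.absNorm a : ℕ) : ℤ) (G : ℤ) := by
      obtain ⟨l, hl⟩ := hNi
      refine ⟨Ni, -(g * l), ?_⟩
      rw [← hgG] at hl
      push_cast at hl
      linear_combination hl
    have p4 := gs_jacobi G hoddG hsqG 1 (Ideal.absNorm a : ℤ) isCoprime_one_left hNG
    rw [mul_one, Int.cast_one] at p4
    rw [p4] at p3
    have hS := Sq_ne hD0
    have hvk : v ^ (k + 1) ≠ 0 := pow_ne_zero _ hv0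
    have p5 : ∑' η : a, (σ ((η : 𝓞 F) : F) / Sq D) ^ k * ee (Qa σ a η / D * (g + v)) =
        (v ^ (k + 1))⁻¹ * (Sq D * ((jacobiSym (Ideal.absNorm a) G : ℂ) * gs G 1 / G) *
          thG D s σ a g k u) := by
      rw [← p3, ← mul_assoc, inv_mul_cancel₀ hvk, one_mul]
    rw [p2, p5, ← hwv, mul_pow]
    field_simp

end RZ

end Pool.Agent.Lib.MP_7c08ba_nt
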