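import Pool.Agent.Lib.MP_7c08ba_nt.RZ.StA
import Pool.Agent.Lib.MP_7c08ba_nt.RZ.StB

set_option autoImplicit false

/-!
(B6) theta series of ideals and the group `Γ₀(q)`.
-/

namespace Pool.Agent.Lib.MP_7c08ba_nt

namespace RZ

open NumberField MeasureTheory UpperHalfPlane Set
open scoped MatrixGroups ComplexConjugate nonZeroDivisors

namespace ThGX

/-! ### Gauss sums -/

section gauss

variable {q : ℕ} [Fact q.Prime]

/-- The quadratic Gauss sum. -/
noncomputable def Gs (a : ZMod q) : ℂ := ∑ n : ZMod q, ZMod.stdAddChar (a * n ^ 2)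

theorem Gs_eq (hq : q ≠ 2) {a : ZMod q} (ha : a ≠ 0) :
    Gs a = ∑ x : ZMod q, (quadraticChar (ZMod q) x : ℂ) * ZMod.stdAddChar (a * x) := by
  classical
  have h1 : Gs a = ∑ x : ZMod q, ((quadraticChar (ZMod q) x : ℂ) + 1) * ZMod.stdAddChar (a * x) := by
    unfold Gs
    rw [← Finset.sum_fiberwise Finset.univ (fun n : ZMod q => n ^ 2)]
    refine Finset.sum_congr rfl fun x _ => ?_
    rw [Finset.sum_congr rfl (g := fun _ => ZMod.stdAddChar (a * x)) (fun n hn => by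
      rw [(Finset.mem_filter.1 hn).2])]
    rw [Finset.sum_const, nsmul_eq_mul]
    congr 1
    have h2 := quadraticChar_card_sqrts (F := ZMod q) (by rwa [ZMod.ringChar_zmod_n]) x
    have h3 : ({n | n ^ 2 = x} : Set (ZMod q)).toFinset =
        Finset.univ.filter fun n : ZMod q => n ^ 2 = x := by
      ext n
      simp
    rw [h3] at h2
    have h4 : (((Finset.univ.filter fun n : ZMod q => n ^ 2 = x).card : ℤ) : ℂ) =
        ((quadraticChar (ZMod q) x + 1 : ℤ) : ℂ) := by rw [h2]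
    push_cast at h4
    exact h4
  rw [h1]
  simp_rw [add_mul, one_mul]
  rw [Finset.sum_add_distrib]
  have h5 := AddChar.sum_mulShift (ψ := ZMod.stdAddChar (N := q)) a (ZMod.isPrimitive_stdAddChar q)
  rw [if_neg ha, Nat.cast_zero] at h5
  have h6 : ∑ x : ZMod q, (ZMod.stdAddChar (a * x) : ℂ) = 0 := by
    rw [← h5]
    exact Finset.sum_congr rfl fun x _ => by rw [mul_comm]
  rw [h6, add_zero]

theorem Gs_mul (hq : q ≠ 2) {a j : ZMod q} (ha : a ≠ 0) (hj : j ≠ 0) :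
    Gs (j * a) = (quadraticChar (ZMod q) j : ℂ) * Gs a := by
  rw [Gs_eq hq (mul_ne_zero hj ha), Gs_eq hq ha, Finset.mul_sum]
  refine Fintype.sum_equiv (Equiv.mulLeft₀ j hj) _ _ fun x => ?_
  show _ = (quadraticChar (ZMod q) j : ℂ) * ((quadraticChar (ZMod q) (j * x) : ℂ) *
    ZMod.stdAddChar (a * (j * x)))
  have h1 : (quadraticChar (ZMod q) j : ℂ) * (quadraticChar (ZMod q) j : ℂ) = 1 := by
    have := quadraticChar_sq_one hj
    rw [sq] at this
    exact_mod_cast this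
  have h2 : (quadraticChar (ZMod q) (j * x) : ℂ) =
      quadraticChar (ZMod q) j * quadraticChar (ZMod q) x := by
    rw [map_mul]
    push_cast
    rfl
  rw [h2, ← mul_assoc, ← mul_assoc, h1, one_mul, mul_left_comm a, mul_assoc j]

theorem square (a b c : ZMod q) (h : 2 * a * c = b) :
    ∑ n : ZMod q, (ZMod.stdAddChar (a * n ^ 2 - n * b) : ℂ) =
      ZMod.stdAddChar (-(a * c ^ 2)) * Gs a := by
  unfold Gs
  rw [Finset.mul_sum]
  refine Fintype.sum_equiv (Equiv.addRight (-c)) _ _ fun n => ?_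
  rw [← AddChar.map_add_eq_mul, ← h]
  congr 1
  simp only [Equiv.coe_addRight]
  ring

end gauss

/-! ### exponentials -/

theorem ee_add (a b : ℂ) : ee (a + b) = ee a * ee b := by
  unfold ee
  rw [← Complex.exp_add]
  congr 1
  ring

theorem ee_int (m : ℤ) : ee m = 1 := by
  unfold ee
  rw [show 2 * (Real.pi : ℂ) * Complex.I * m = m * (2 * Real.pi * Complex.I) by ring]
  exact Complex.exp_int_mul_two_pi_mul_I m

theorem norm_ee (z : ℂ) : ‖ee z‖ = Real.exp (-(2 * Real.pi * z.im)) := by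
  unfold ee
  rw [Complex.norm_exp]
  congr 1
  simp

theorem ee_div {q : ℕ} [NeZero q] (m : ℤ) : ee (m / q) = ZMod.stdAddChar (m : ZMod q) := by
  rw [ZMod.stdAddChar_coe]
  unfold ee
  congr 1
  ring

/-! ### binary forms -/

/-- The form `A m² + B m n + C n²`. -/
def qf (A B C : ℤ) (p : ℤ × ℤ) : ℤ := A * p.1 ^ 2 + B * p.1 * p.2 + C * p.2 ^ 2

/-- The data of a lattice of discriminant `-q`. -/
structure Frm (q : ℕ) (A B C : ℤ) (X Y : ℂ) (N : ℝ) : Prop where
  pos : 0 < N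
  im : (X * conj Y).im = Real.sqrt q / 2 * N
  re : 2 * (X * conj Y).re = B * N
  XX : Complex.normSq X = A * N
  YY : Complex.normSq Y = C * N

/-- The number `√(-q)`. -/
noncomputable def Sq (q : ℕ) : ℂ := Complex.I * Real.sqrt q

theorem Sq_sq (q : ℕ) : Sq q ^ 2 = -(q : ℂ) := by
  unfold Sq
  rw [mul_pow, Complex.I_sq, ← Complex.ofReal_pow, Real.sq_sqrt (Nat.cast_nonneg q)]
  push_cast
  ring

theorem conj_Sq (q : ℕ) : conj (Sq q) = -Sq q := by
  unfold Sq
  rw [map_mul, Complex.conj_I, Complex.conj_ofReal]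
  ring

theorem normSq_Sq (q : ℕ) : Complex.normSq (Sq q) = q := by
  unfold Sq
  rw [Complex.normSq_mul, Complex.normSq_I, Complex.normSq_ofReal,
    Real.mul_self_sqrt (Nat.cast_nonneg q), one_mul]

theorem Sq_ne {q : ℕ} (hq : q ≠ 0) : Sq q ≠ 0 := by
  intro h
  have := Sq_sq q
  rw [h] at this
  have h2 : (q : ℂ) = 0 := by linear_combination this
  exact hq (by exact_mod_cast h2)

section frm

variable {q : ℕ} {A B C : ℤ} {X Y : ℂ} {N : ℝ}

theorem Frm.normSq (h : Frm q A B C X Y N) (p : ℤ × ℤ) :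
    Complex.normSq ((p.1 : ℂ) * X + p.2 * Y) = qf A B C p * N := by
  have h1 := h.re
  have h2 := h.XX
  have h3 := h.YY
  simp only [Complex.normSq_apply, Complex.add_re, Complex.add_im, Complex.mul_re, Complex.mul_im,
    Complex.intCast_re, Complex.intCast_im, Complex.conj_re, Complex.conj_im] at *
  unfold qf
  push_cast
  linear_combination (p.1 * p.2 : ℝ) * h1 + (p.1 : ℝ) ^ 2 * h2 + (p.2 : ℝ) ^ 2 * h3

theorem Frm.disc (h : Frm q A B C X Y N) : B ^ 2 - 4 * A * C = -(q : ℤ) := by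
  have h1 : Complex.normSq (X * conj Y) = Complex.normSq X * Complex.normSq Y := by
    rw [Complex.normSq_mul, Complex.normSq_conj]
  rw [h.XX, h.YY, Complex.normSq_apply, h.im] at h1
  have h2 : (X * conj Y).re = B * N / 2 := by linear_combination h.re / 2
  rw [h2] at h1
  have h3 : Real.sqrt q * Real.sqrt q = q := Real.mul_self_sqrt (Nat.cast_nonneg q)
  have h4 : ((B : ℝ) ^ 2 - 4 * A * C) * N ^ 2 = -(q : ℝ) * N ^ 2 := by
    linear_combination 4 * h1 - N ^ 2 * h3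
  have h5 := mul_right_cancel₀ (pow_ne_zero 2 h.pos.ne') h4
  exact_mod_cast h5

theorem Frm.prod (h : Frm q A B C X Y N) : X * conj Y = N * (B + Sq q) / 2 := by
  apply Complex.ext
  · have h2 : (X * conj Y).re = B * N / 2 := by linear_combination h.re / 2
    rw [h2]
    simp [Sq]
    ring
  · rw [h.im]
    simp [Sq]
    ring

theorem Frm.SX (h : Frm q A B C X Y N) : Sq q * X = B * X - 2 * A * Y := by
  have h1 : Y * conj X = N * (B - Sq q) / 2 := by
    have := congrArg conj h.prod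
    rw [map_mul, Complex.conj_conj, map_div₀, map_mul, map_add, Complex.conj_ofReal, conj_Sq,
      Complex.conj_ofNat, map_intCast] at this
    rw [mul_comm, this]
    ring
  have h2 : X * conj X = A * N := by
    rw [Complex.mul_conj, h.XX]
    push_cast
    ring
  have hN : (N : ℂ) ≠ 0 := by exact_mod_cast h.pos.ne'
  apply mul_left_cancel₀ hN
  linear_combination 2 * X * h1 - 2 * Y * h2

theorem Frm.SY (h : Frm q A B C X Y N) : Sq q * Y = 2 * C * X - B * Y := by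
  have h1 := h.prod
  have h2 : Y * conj Y = C * N := by
    rw [Complex.mul_conj, h.YY]
    push_cast
    ring
  have hN : (N : ℂ) ≠ 0 := by exact_mod_cast h.pos.ne'
  apply mul_left_cancel₀ hN
  linear_combination 2 * X * h2 - 2 * Y * h1

theorem Frm.bil (h : Frm q A B C X Y N) (p : ℤ × ℤ) :
    2 * (X * conj ((p.1 : ℂ) * X + p.2 * Y)).re = (2 * A * p.1 + B * p.2) * N := by
  have h1 := h.re
  have h2 := h.XX
  simp only [Complex.normSq_apply, Complex.add_re, Complex.add_im, Complex.mul_re, Complex.mul_im,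
    Complex.intCast_re, Complex.intCast_im, Complex.conj_re, Complex.conj_im] at *
  linear_combination (p.2 : ℝ) * h1 + 2 * (p.1 : ℝ) * h2

/-- The decomposition of the lattice into cosets of `√(-q)` times the lattice. -/
def emb (q : ℕ) (A B C : ℤ) (z : ZMod q × (ℤ × ℤ)) : ℤ × ℤ :=
  ((z.1.val : ℤ) + z.2.1 * B + 2 * C * z.2.2, -2 * A * z.2.1 - B * z.2.2)

theorem qf_emb (hD : B ^ 2 - 4 * A * C = -(q : ℤ)) (z : ZMod q × (ℤ × ℤ)) :
    qf A B C (emb q A B C z) = A * (z.1.val : ℤ) ^ 2 + q * (z.1.val * z.2.2 + qf A B C z.2) := by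
  unfold qf emb
  simp only
  linear_combination -((z.1.val : ℤ) * z.2.2 + (A * z.2.1 ^ 2 + B * z.2.1 * z.2.2 +
    C * z.2.2 ^ 2)) * hD

theorem emb_bij [Fact q.Prime] (hq : q ≠ 2) (hD : B ^ 2 - 4 * A * C = -(q : ℤ))
    (hA : ¬ (q : ℤ) ∣ A) : Function.Bijective (emb q A B C) := by
  have hp : Prime (q : ℤ) := Nat.prime_iff_prime_int.1 Fact.out
  have hq0 : (q : ℤ) ≠ 0 := hp.ne_zero
  have hA0 : A ≠ 0 := by
    rintro rfl
    exact hA (dvd_zero _)
  have h2 : ¬ (q : ℤ) ∣ 2 := by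
    intro h
    have h1 := Int.natAbs_dvd_natAbs.2 h
    rw [Int.natAbs_natCast] at h1
    exact hq ((Nat.prime_dvd_prime_iff_eq Fact.out Nat.prime_two).1 h1)
  have h2A : ¬ (q : ℤ) ∣ 2 * A := fun h => (hp.dvd_or_dvd h).elim h2 hA
  constructor
  · rintro ⟨n, m1, m2⟩ ⟨n', m1', m2'⟩ h
    simp only [emb, Prod.mk.injEq] at h
    obtain ⟨ha, hb⟩ := h
    have e1 : 2 * A * ((n.val : ℤ) - n'.val) = -(q : ℤ) * (m2 - m2') := by
      linear_combination 2 * A * ha + B * hb + (m2 - m2') * hD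
    have e2 : (q : ℤ) ∣ (n.val : ℤ) - n'.val := by
      have : (q : ℤ) ∣ 2 * A * ((n.val : ℤ) - n'.val) := by
        rw [e1, neg_mul]
        exact (dvd_mul_right _ _).neg_right
      exact (hp.dvd_or_dvd this).resolve_left h2A
    have e3 : n = n' := by
      have e4 : ((n.val : ℤ) : ZMod q) = ((n'.val : ℤ) : ZMod q) := by
        rw [← sub_eq_zero, ← Int.cast_sub]
        exact (ZMod.intCast_zmod_eq_zero_iff_dvd _ q).2 e2
      simpa using e4
    subst e3
    have e5 : m2 = m2' := by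
      have : (q : ℤ) * (m2 - m2') = 0 := by linear_combination e1
      rcases mul_eq_zero.1 this with h | h
      · exact absurd h hq0
      · exact sub_eq_zero.1 h
    subst e5
    have e6 : m1 = m1' := by
      have : 2 * A * (m1 - m1') = 0 := by linear_combination -hb
      rcases mul_eq_zero.1 this with h | h
      · exact absurd h (mul_ne_zero two_ne_zero hA0)
      · exact sub_eq_zero.1 h
    subst e6
    rfl
  · rintro ⟨m, n⟩
    -- the residue class
    have hunit : ((2 * A : ℤ) : ZMod q) ≠ 0 := fun h =>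
      h2A ((ZMod.intCast_zmod_eq_zero_iff_dvd _ q).1 h)
    set r : ZMod q := ((m : ZMod q)) + ((B * n : ℤ) : ZMod q) / ((2 * A : ℤ) : ZMod q) with hr
    have e1 : (q : ℤ) ∣ 2 * A * (m - r.val) + B * n := by
      rw [← ZMod.intCast_zmod_eq_zero_iff_dvd]
      have hrv : ((r.val : ℤ) : ZMod q) = r := by simp
      rw [Int.cast_add, Int.cast_mul (2 * A), Int.cast_sub, hrv, hr]
      field_simp
      ring
    have e2 : (q : ℤ) ∣ (m - r.val) * B + 2 * C * n := by
      have : (q : ℤ) ∣ 2 * A * ((m - r.val) * B + 2 * C * n) := by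
        have e3 : 2 * A * ((m - r.val) * B + 2 * C * n) =
            B * (2 * A * (m - r.val) + B * n) + q * n := by
          linear_combination -n * hD
        rw [e3]
        exact dvd_add (dvd_mul_of_dvd_right e1 _) (dvd_mul_right _ _)
      exact (hp.dvd_or_dvd this).resolve_left h2A
    obtain ⟨a, ha⟩ := e1
    obtain ⟨b, hb⟩ := e2
    refine ⟨(r, (-b, a)), ?_⟩
    unfold emb
    simp only [Prod.mk.injEq]
    constructor
    · apply mul_left_cancel₀ hq0
      linear_combination B * hb - 2 * C * ha - (m - (r.val : ℤ)) * hD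
    · apply mul_left_cancel₀ hq0
      linear_combination -2 * A * hb + B * ha - n * hD

/-- The theta series. -/
noncomputable def T1 (A B C : ℤ) (X Y : ℂ) (k : ℕ) (u : ℂ) : ℂ :=
  ∑' p : ℤ × ℤ, ((p.1 : ℂ) * X + p.2 * Y) ^ k * ee (qf A B C p * u)

/-- The theta series at the other cusp. -/
noncomputable def T2 (q : ℕ) (A B C : ℤ) (X Y : ℂ) (k : ℕ) (u : ℂ) : ℂ :=
  ∑' p : ℤ × ℤ, (((p.1 : ℂ) * X + p.2 * Y) / Sq q) ^ k * ee (qf A B C p / q * u)

/-- Convergence. -/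
def Sm (A B C : ℤ) (X Y : ℂ) : Prop := ∀ (k : ℕ) (t : ℝ), 0 < t →
  Summable fun p : ℤ × ℤ => ‖(p.1 : ℂ) * X + p.2 * Y‖ ^ k * Real.exp (-(t * qf A B C p))

theorem T1_add_int (k : ℕ) (u : ℂ) (m : ℤ) : T1 A B C X Y k (u + m) = T1 A B C X Y k u := by
  unfold T1
  refine tsum_congr fun p => ?_
  rw [mul_add, ee_add, ← Int.cast_mul, ee_int, mul_one]

theorem T2_add_int (hq : q ≠ 0) (k : ℕ) (u : ℂ) (m : ℤ) (hm : (q : ℤ) ∣ m) :
    T2 q A B C X Y k (u + m) = T2 q A B C X Y k u := by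
  obtain ⟨l, rfl⟩ := hm
  unfold T2
  refine tsum_congr fun p => ?_
  have hq' : (q : ℂ) ≠ 0 := by exact_mod_cast hq
  have h1 : (qf A B C p / q * (u + ((q * l : ℤ) : ℂ)) : ℂ) =
      qf A B C p / q * u + ((qf A B C p * l : ℤ) : ℂ) := by
    push_cast
    field_simp
  rw [h1, ee_add, ee_int, mul_one]

theorem sum1 (hS : Sm A B C X Y) (k : ℕ) {u : ℂ} (hu : 0 < u.im) :
    Summable fun p : ℤ × ℤ => ((p.1 : ℂ) * X + p.2 * Y) ^ k * ee (qf A B C p * u) := by
  refine Summable.of_norm ?_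
  refine (hS k (2 * Real.pi * u.im) (by positivity)).congr fun p => ?_
  rw [norm_mul, norm_pow, norm_ee]
  congr 2
  rw [show ((qf A B C p : ℤ) : ℂ) = (((qf A B C p : ℤ) : ℝ) : ℂ) by push_cast; rfl,
    Complex.im_ofReal_mul]
  ring

theorem sum2 (hq : q ≠ 0) (hS : Sm A B C X Y) (k : ℕ) {u : ℂ} (hu : 0 < u.im) :
    Summable fun p : ℤ × ℤ =>
      (((p.1 : ℂ) * X + p.2 * Y) / Sq q) ^ k * ee (qf A B C p / q * u) := by
  have hq' : (q : ℂ) ≠ 0 := by exact_mod_cast hq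
  have hqpos : (0 : ℝ) < q := by exact_mod_cast Nat.pos_of_ne_zero hq
  have h1 : 0 < (u / q).im := by
    rw [Complex.div_natCast_im]
    positivity
  refine ((sum1 hS k h1).mul_left ((Sq q ^ k)⁻¹)).congr fun p => ?_
  rw [div_pow, show (qf A B C p : ℂ) * (u / q) = qf A B C p / q * u by field_simp]
  have := pow_ne_zero k (Sq_ne hq)
  field_simp

theorem Frm.D_eq (h : Frm q A B C X Y N) (hq : q ≠ 0) :
    Complex.I * N / (2 * ((X * conj Y).im : ℂ)) = -(Sq q)⁻¹ := by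
  have hN : (N : ℂ) ≠ 0 := by exact_mod_cast h.pos.ne'
  have hqpos : (0 : ℝ) < Real.sqrt q := Real.sqrt_pos.2 (by exact_mod_cast Nat.pos_of_ne_zero hq)
  have hsq : ((Real.sqrt q : ℝ) : ℂ) ≠ 0 := by exact_mod_cast hqpos.ne'
  rw [h.im]
  unfold Sq
  push_cast
  field_simp
  linear_combination Complex.I_sq

/-- Poisson summation. -/
theorem Frm.pois (h : Frm q A B C X Y N) (hq : q ≠ 0) (hP : StPoisK) {k : ℕ} (hk : Even k)
    (x : ℂ) {u : ℂ} (hu : 0 < u.im) :
    ∑' p : ℤ × ℤ, (x + ((p.1 : ℂ) * X + p.2 * Y)) ^ k *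
        ee (Complex.normSq (x + ((p.1 : ℂ) * X + p.2 * Y)) / N * (-1 / u)) =
      (Sq q)⁻¹ * u ^ (k + 1) * ∑' p : ℤ × ℤ,
        ee (-(2 * (x * conj (((p.1 : ℂ) * X + p.2 * Y) / Sq q)).re / N : ℝ)) *
        ((((p.1 : ℂ) * X + p.2 * Y) / Sq q) ^ k * ee (qf A B C p / q * u)) := by
  have him : 0 < (X * conj Y).im := by
    rw [h.im]
    have hqpos : (0 : ℝ) < Real.sqrt q :=
      Real.sqrt_pos.2 (by exact_mod_cast Nat.pos_of_ne_zero hq)
    have := h.pos
    positivity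
  have h1 := hP k X Y x u N him h.pos hu
  simp only at h1
  rw [h.D_eq hq] at h1
  simp_rw [add_assoc] at h1
  rw [h1]
  have h2 : -(Sq q)⁻¹ * (-u) ^ (k + 1) = (Sq q)⁻¹ * u ^ (k + 1) := by
    rw [Odd.neg_pow hk.add_one]
    ring
  rw [h2]
  congr 1
  refine tsum_congr fun p => ?_
  have h3 : -(Sq q)⁻¹ * ((p.1 : ℂ) * X + p.2 * Y) = -(((p.1 : ℂ) * X + p.2 * Y) / Sq q) := by
    rw [div_eq_mul_inv]
    ring
  rw [h3, hk.neg_pow, Complex.normSq_neg, Complex.normSq_div, h.normSq, normSq_Sq, map_neg,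
    mul_neg, Complex.neg_re, mul_assoc]
  have hN : (N : ℂ) ≠ 0 := by exact_mod_cast h.pos.ne'
  have hq' : (q : ℂ) ≠ 0 := by exact_mod_cast hq
  congr 2
  · push_cast
    ring
  · congr 2
    push_cast
    field_simp

theorem Frm.S1 (h : Frm q A B C X Y N) (hq : q ≠ 0) (hP : StPoisK) {k : ℕ} (hk : Even k)
    {u : ℂ} (hu : 0 < u.im) :
    T1 A B C X Y k (-1 / u) = (Sq q)⁻¹ * u ^ (k + 1) * T2 q A B C X Y k u := by
  have h1 := h.pois hq hP hk 0 hu
  simp only [zero_add, zero_mul, Complex.zero_re, mul_zero, zero_div] at h1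
  unfold T1 T2
  have h2 : ∀ p : ℤ × ℤ, ((p.1 : ℂ) * X + p.2 * Y) ^ k * ee (qf A B C p * (-1 / u)) =
      ((p.1 : ℂ) * X + p.2 * Y) ^ k *
        ee (Complex.normSq ((p.1 : ℂ) * X + p.2 * Y) / N * (-1 / u)) := by
    intro p
    rw [h.normSq]
    have hN : (N : ℂ) ≠ 0 := by exact_mod_cast h.pos.ne'
    congr 3
    push_cast
    field_simp
  rw [tsum_congr h2, h1]
  congr 1
  refine tsum_congr fun p => ?_
  rw [show (-((0 : ℝ) : ℂ)) = ((0 : ℤ) : ℂ) by simp, ee_int, one_mul]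

theorem Frm.S2 (h : Frm q A B C X Y N) (hq : q ≠ 0) (hP : StPoisK) {k : ℕ} (hk : Even k)
    {u : ℂ} (hu : 0 < u.im) :
    T2 q A B C X Y k (-1 / u) = -Sq q * u ^ (k + 1) * T1 A B C X Y k u := by
  have hu0 : u ≠ 0 := by
    rintro rfl
    simp at hu
  have hS := Sq_ne hq
  have hv : 0 < (-1 / u).im := by
    rw [neg_div, one_div, Complex.neg_im, Complex.inv_im, neg_div, neg_neg]
    exact div_pos hu (Complex.normSq_pos.2 hu0)
  have h1 := h.S1 hq hP hk hv
  rw [show -1 / (-1 / u) = u by field_simp] at h1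
  rw [h1]
  have h2 : (-1 / u) ^ (k + 1) * u ^ (k + 1) = -1 := by
    rw [← mul_pow, div_mul_cancel₀ _ hu0, Odd.neg_one_pow hk.add_one]
  have h3 : Sq q * (Sq q)⁻¹ = 1 := mul_inv_cancel₀ hS
  linear_combination (T2 q A B C X Y k (-1 / u)) * h2 +
    ((-1 / u) ^ (k + 1) * u ^ (k + 1) * T2 q A B C X Y k (-1 / u)) * h3

theorem Frm.emb_val (h : Frm q A B C X Y N) (hq : q ≠ 0) (z : ZMod q × (ℤ × ℤ)) :
    (((emb q A B C z).1 : ℂ) * X + (emb q A B C z).2 * Y) / Sq q =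
      (z.1.val : ℂ) * X / Sq q + ((z.2.1 : ℂ) * X + z.2.2 * Y) := by
  have hS := Sq_ne hq
  have h1 := h.SX
  have h2 := h.SY
  unfold emb
  push_cast
  field_simp
  linear_combination -(z.2.1 : ℂ) * h1 - (z.2.2 : ℂ) * h2

theorem im_neg_inv {u : ℂ} (hu : 0 < u.im) : 0 < (-1 / u).im := by
  have hu0 : u ≠ 0 := by
    rintro rfl
    simp at hu
  rw [neg_div, one_div, Complex.neg_im, Complex.inv_im, neg_div, neg_neg]
  exact div_pos hu (Complex.normSq_pos.2 hu0)

/-- The transformation of the second theta series. -/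
theorem Frm.S3 [Fact q.Prime] (h : Frm q A B C X Y N) (hq2 : q ≠ 2) (hA : ¬ (q : ℤ) ∣ A)
    (hS : Sm A B C X Y) (hP : StPoisK) {k : ℕ} (hk : Even k) {u : ℂ} (hu : 0 < u.im)
    (j j' : ℤ) (hj : (q : ℤ) ∣ j * j' + 1) :
    T2 q A B C X Y k (-1 / u + j) =
      (Sq q)⁻¹ * Gs ((j * A : ℤ) : ZMod q) * u ^ (k + 1) * T2 q A B C X Y k (u + j') := by
  have hq : q ≠ 0 := (Fact.out : q.Prime).ne_zero
  have hq' : (q : ℂ) ≠ 0 := by exact_mod_cast hq
  have hv := im_neg_inv hu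
  have hvj : 0 < (-1 / u + j).im := by
    rw [Complex.add_im, Complex.intCast_im, add_zero]
    exact hv
  set E := Equiv.ofBijective (emb q A B C) (emb_bij hq2 h.disc hA) with hE
  have hsum : Summable fun z : ZMod q × (ℤ × ℤ) =>
      ((((E z).1 : ℂ) * X + (E z).2 * Y) / Sq q) ^ k *
        ee (qf A B C (E z) / q * (-1 / u + j)) := E.summable_iff.2 (sum2 hq hS k hvj)
  unfold T2
  rw [← E.tsum_eq, Summable.tsum_prod hsum, tsum_fintype]
  -- each coset
  have hterm : ∀ n : ZMod q, ∑' p : ℤ × ℤ,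
      ((((E (n, p)).1 : ℂ) * X + (E (n, p)).2 * Y) / Sq q) ^ k *
        ee (qf A B C (E (n, p)) / q * (-1 / u + j)) =
      (Sq q)⁻¹ * u ^ (k + 1) * ∑' p : ℤ × ℤ,
        ZMod.stdAddChar (((j * A : ℤ) : ZMod q) * n ^ 2 -
          n * ((2 * A * p.1 + B * p.2 : ℤ) : ZMod q)) *
        ((((p.1 : ℂ) * X + p.2 * Y) / Sq q) ^ k * ee (qf A B C p / q * u)) := by
    intro n
    have hN : (N : ℂ) ≠ 0 := by exact_mod_cast h.pos.ne'
    have hnv : ((n.val : ℤ) : ZMod q) = n := by simp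
    have h1 : ∀ p : ℤ × ℤ, ((((E (n, p)).1 : ℂ) * X + (E (n, p)).2 * Y) / Sq q) ^ k *
        ee (qf A B C (E (n, p)) / q * (-1 / u + j)) =
        ZMod.stdAddChar (((j * A : ℤ) : ZMod q) * n ^ 2) *
        (((n.val : ℂ) * X / Sq q + ((p.1 : ℂ) * X + p.2 * Y)) ^ k *
          ee (Complex.normSq ((n.val : ℂ) * X / Sq q + ((p.1 : ℂ) * X + p.2 * Y)) / N *
            (-1 / u))) := by
      intro p
      have e1 : E (n, p) = emb q A B C (n, p) := rfl
      have e2 := h.emb_val hq (n, p)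
      simp only at e2
      rw [e1, ← e2, Complex.normSq_div, h.normSq, normSq_Sq, mul_add, ee_add]
      have e3 : ee (qf A B C (emb q A B C (n, p)) / q * j) =
          ZMod.stdAddChar (((j * A : ℤ) : ZMod q) * n ^ 2) := by
        rw [show (qf A B C (emb q A B C (n, p)) / q * j : ℂ) =
          ((qf A B C (emb q A B C (n, p)) * j : ℤ) : ℂ) / q by push_cast; ring, ee_div]
        congr 1
        rw [qf_emb h.disc]
        push_cast
        rw [ZMod.natCast_self]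
        simp only [ZMod.natCast_val, ZMod.cast_id', id_eq]
        ring
      have e4 : ((((qf A B C (emb q A B C (n, p)) : ℝ) * N / q : ℝ) : ℂ) / N * (-1 / u) : ℂ) =
          qf A B C (emb q A B C (n, p)) / q * (-1 / u) := by
        push_cast
        field_simp
      rw [e3, e4]
      ring
    rw [tsum_congr h1, tsum_mul_left, h.pois hq hP hk _ hu, ← mul_assoc,
      mul_comm (ZMod.stdAddChar _ : ℂ), mul_assoc, ← tsum_mul_left]
    congr 1
    refine tsum_congr fun p => ?_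
    rw [← mul_assoc]
    congr 1
    rw [sub_eq_add_neg, AddChar.map_add_eq_mul]
    congr 1
    have e5 : (n.val : ℂ) * X / Sq q * conj (((p.1 : ℂ) * X + p.2 * Y) / Sq q) =
        ((n.val / q : ℝ) : ℂ) * (X * conj ((p.1 : ℂ) * X + p.2 * Y)) := by
      rw [map_div₀, conj_Sq]
      have h3 := Sq_sq q
      have h4 := Sq_ne hq
      push_cast
      field_simp
      rw [h3]
      ring
    have e6 := h.bil p
    have e7 : (-((2 * ((n.val : ℂ) * X / Sq q *
        conj (((p.1 : ℂ) * X + p.2 * Y) / Sq q)).re / N : ℝ) : ℂ)) =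
        ((-(n.val * (2 * A * p.1 + B * p.2)) : ℤ) : ℂ) / q := by
      rw [e5, Complex.re_ofReal_mul]
      have e8 : (2 * (n.val / q * (X * conj ((p.1 : ℂ) * X + p.2 * Y)).re) / N : ℝ) =
          n.val * (2 * A * p.1 + B * p.2) / q := by
        have hqr : (q : ℝ) ≠ 0 := by exact_mod_cast hq
        have hNr := h.pos.ne'
        generalize (X * conj ((p.1 : ℂ) * X + p.2 * Y)).re = ρ at e6 ⊢
        field_simp
        linear_combination (n.val : ℝ) * e6
      rw [e8]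
      push_cast
      ring
    rw [e7, ee_div]
    congr 1
    push_cast
    simp only [ZMod.natCast_val, ZMod.cast_id', id_eq]
  rw [Finset.sum_congr rfl fun n _ => hterm n, ← Finset.mul_sum]
  have hs2 := sum2 hq hS k hu
  rw [← Summable.tsum_finsetSum (fun n _ => by
    refine Summable.of_norm ?_
    refine hs2.norm.congr fun p => ?_
    rw [norm_mul (ZMod.stdAddChar _ : ℂ), AddChar.norm_apply, one_mul])]
  have key : ∑' p : ℤ × ℤ, ∑ n : ZMod q,
        ZMod.stdAddChar (((j * A : ℤ) : ZMod q) * n ^ 2 -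
          n * ((2 * A * p.1 + B * p.2 : ℤ) : ZMod q)) *
        ((((p.1 : ℂ) * X + p.2 * Y) / Sq q) ^ k * ee (qf A B C p / q * u)) =
      Gs ((j * A : ℤ) : ZMod q) * ∑' p : ℤ × ℤ, (((p.1 : ℂ) * X + p.2 * Y) / Sq q) ^ k *
        ee (qf A B C p / q * (u + j')) := ?_
  · rw [key]
    ring
  rw [← tsum_mul_left]
  refine tsum_congr fun p => ?_
  rw [← Finset.sum_mul]
  have hjj : ((j : ZMod q)) * (j' : ZMod q) = -1 := by
    have := (ZMod.intCast_zmod_eq_zero_iff_dvd _ q).2 hj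
    push_cast at this
    linear_combination this
  have hj0 : (j : ZMod q) ≠ 0 := by
    intro h0
    rw [h0, zero_mul] at hjj
    exact one_ne_zero (neg_eq_zero.1 hjj.symm)
  have hA0 : (A : ZMod q) ≠ 0 := fun h0 => hA ((ZMod.intCast_zmod_eq_zero_iff_dvd _ q).1 h0)
  have h20 : (2 : ZMod q) ≠ 0 := by
    intro h0
    have : ((2 : ℕ) : ZMod q) = 0 := by exact_mod_cast h0
    rw [ZMod.natCast_eq_zero_iff] at this
    exact hq2 ((Nat.prime_dvd_prime_iff_eq Fact.out Nat.prime_two).1 this)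
  rw [square _ _ (((2 * A * p.1 + B * p.2 : ℤ) : ZMod q) / (2 * ((j * A : ℤ) : ZMod q))) (by
    push_cast
    field_simp)]
  have hdisc : (B : ZMod q) ^ 2 = 4 * A * C := by
    have h1 := congrArg (Int.cast : ℤ → ZMod q) h.disc
    push_cast at h1
    rw [ZMod.natCast_self] at h1
    linear_combination h1
  have hexp : -(((j * A : ℤ) : ZMod q) *
      (((2 * A * p.1 + B * p.2 : ℤ) : ZMod q) / (2 * ((j * A : ℤ) : ZMod q))) ^ 2) =
      ((qf A B C p * j' : ℤ) : ZMod q) := by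
    unfold qf
    push_cast
    have h40 : (4 : ZMod q) * j * A ≠ 0 := by
      have : (4 : ZMod q) = 2 * 2 := by norm_num
      rw [this]
      exact mul_ne_zero (mul_ne_zero (mul_ne_zero h20 h20) hj0) hA0
    apply mul_left_cancel₀ h40
    have e1 : (4 : ZMod q) * j * A * -(j * A * ((2 * A * p.1 + B * p.2) / (2 * (j * A))) ^ 2) =
        -(2 * A * p.1 + B * p.2) ^ 2 := by
      field_simp
      norm_num
    rw [e1]
    linear_combination -(p.2 : ZMod q) ^ 2 * hdisc -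
      4 * A * (A * (p.1 : ZMod q) ^ 2 + B * p.1 * p.2 + C * (p.2 : ZMod q) ^ 2) * hjj
  rw [hexp, ← ee_div]
  have h9 : ee (qf A B C p / q * (u + j')) = ee (qf A B C p / q * u) *
      ee (((qf A B C p * j' : ℤ) : ℂ) / q) := by
    rw [← ee_add]
    congr 1
    push_cast
    ring
  rw [h9]
  ring

/-- The value of the Gauss sum, from the case `k = 0`. -/
theorem Frm.gauss [Fact q.Prime] (h : Frm q A B C X Y N) (hq2 : q ≠ 2) (hA : ¬ (q : ℤ) ∣ A)
    (hS : Sm A B C X Y) (hP : StPoisK) : (Sq q)⁻¹ * Gs (A : ZMod q) = 1 := by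
  have hq : q ≠ 0 := (Fact.out : q.Prime).ne_zero
  set u : ℂ := 1 + Complex.I with hu
  have hu1 : 0 < u.im := by simp [hu]
  have hu0 : u ≠ 0 := by
    intro h0
    rw [h0] at hu1
    simp at hu1
  have hI : 0 < Complex.I.im := by simp
  have h1 := h.S3 hq2 hA hS hP (k := 0) (by norm_num) hu1 1 (-1) (by norm_num)
  have hv : 0 < (-1 / u + ((1 : ℤ) : ℂ)).im := by
    rw [Complex.add_im, Complex.intCast_im, add_zero]
    exact im_neg_inv hu1
  have h2 := h.S1 hq hP (k := 0) (by norm_num) hv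
  have h3 := h.S1 hq hP (k := 0) (by norm_num) hI
  have e1 : u + ((-1 : ℤ) : ℂ) = Complex.I := by
    rw [hu]
    push_cast
    ring
  have e2 : -1 / (-1 / u + ((1 : ℤ) : ℂ)) = Complex.I + ((-1 : ℤ) : ℂ) := by
    have hI2 := Complex.I_sq
    have h5 : (1 : ℂ) + Complex.I ≠ 0 := hu ▸ hu0
    have h6 : (-1 / (1 + Complex.I) + 1 : ℂ) = Complex.I / (1 + Complex.I) := by
      field_simp
      ring
    rw [hu]
    push_cast
    rw [h6]
    field_simp
    linear_combination -hI2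
  have e3 : (-1 / Complex.I : ℂ) = Complex.I := by
    field_simp
    exact Complex.I_sq.symm
  rw [e1] at h1
  rw [e2, T1_add_int, h1] at h2
  rw [e3] at h3
  have e4 : (-1 / u + ((1 : ℤ) : ℂ)) * u = Complex.I := by
    rw [add_mul, div_mul_cancel₀ _ hu0, hu]
    push_cast
    ring
  have h7 : T1 A B C X Y 0 Complex.I ≠ 0 := by
    have h8 : T1 A B C X Y 0 Complex.I =
        ((∑' p : ℤ × ℤ, Real.exp (-(2 * Real.pi * qf A B C p)) : ℝ) : ℂ) := by
      unfold T1
      rw [Complex.ofReal_tsum]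
      refine tsum_congr fun p => ?_
      rw [pow_zero, one_mul]
      unfold ee
      push_cast
      congr 1
      linear_combination (2 * Real.pi * qf A B C p : ℂ) * Complex.I_sq
    rw [h8]
    have h9 : Summable fun p : ℤ × ℤ => Real.exp (-(2 * Real.pi * qf A B C p)) := by
      refine (hS 0 (2 * Real.pi) (by positivity)).congr fun p => ?_
      rw [pow_zero, one_mul]
    have h10 := h9.tsum_pos (fun p => (Real.exp_pos _).le) (0, 0) (Real.exp_pos _)
    exact_mod_cast h10.ne'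
  rw [one_mul] at h2
  simp only [zero_add, pow_one] at h2 h3
  apply mul_right_cancel₀ h7
  rw [one_mul]
  have h11 : T1 A B C X Y 0 Complex.I = (Sq q)⁻¹ * Gs (A : ZMod q) *
      ((Sq q)⁻¹ * ((-1 / u + ((1 : ℤ) : ℂ)) * u) * T2 q A B C X Y 0 Complex.I) := by
    rw [h2]
    ring
  rw [e4, ← h3] at h11
  exact h11.symm

theorem den_ne {c d : ℤ} (h : c ≠ 0 ∨ d ≠ 0) {u : ℂ} (hu : 0 < u.im) : (c : ℂ) * u + d ≠ 0 := by
  intro h0
  by_cases hc : c = 0
  · subst hc
    have hd := h.resolve_left (not_not.2 rfl)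
    rw [Int.cast_zero, zero_mul, zero_add] at h0
    exact hd (by exact_mod_cast h0)
  · have h1 := congrArg Complex.im h0
    simp only [Complex.add_im, Complex.mul_im, Complex.intCast_re, Complex.intCast_im,
      Complex.zero_im, zero_mul, add_zero] at h1
    rcases mul_eq_zero.1 h1 with h2 | h2
    · exact hc (by exact_mod_cast h2)
    · exact hu.ne' h2

/-- The law of transformation. -/
def Law (q : ℕ) (χ : DirichletCharacter ℂ q) (A B C : ℤ) (X Y : ℂ) (k : ℕ) (g : SL(2, ℤ)) :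
    Prop :=
  ∀ u : ℂ, 0 < u.im →
    ((q : ℤ) ∣ g 1 0 → T1 A B C X Y k (((g 0 0 : ℂ) * u + g 0 1) / ((g 1 0 : ℂ) * u + g 1 1)) =
      χ (g 1 1 : ℤ) * ((g 1 0 : ℂ) * u + g 1 1) ^ (k + 1) * T1 A B C X Y k u) ∧
    (¬ (q : ℤ) ∣ g 1 0 → ∀ j : ℤ, (q : ℤ) ∣ j * g 1 0 - g 1 1 →
      T1 A B C X Y k (((g 0 0 : ℂ) * u + g 0 1) / ((g 1 0 : ℂ) * u + g 1 1)) =
      χ (g 1 0 : ℤ) * (Sq q)⁻¹ * ((g 1 0 : ℂ) * u + g 1 1) ^ (k + 1) *
        T2 q A B C X Y k (u + j))

theorem mulS (g : SL(2, ℤ)) : (g * ModularGroup.S) 0 0 = g 0 1 ∧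
    (g * ModularGroup.S) 0 1 = -g 0 0 ∧ (g * ModularGroup.S) 1 0 = g 1 1 ∧
    (g * ModularGroup.S) 1 1 = -g 1 0 := by
  refine ⟨?_, ?_, ?_, ?_⟩ <;>
  simp [Matrix.SpecialLinearGroup.coe_mul, ModularGroup.coe_S, Matrix.mul_apply,
    Fin.sum_univ_two]

theorem mulT (g : SL(2, ℤ)) (n : ℤ) : (g * ModularGroup.T ^ n) 0 0 = g 0 0 ∧
    (g * ModularGroup.T ^ n) 0 1 = g 0 0 * n + g 0 1 ∧ (g * ModularGroup.T ^ n) 1 0 = g 1 0 ∧
    (g * ModularGroup.T ^ n) 1 1 = g 1 0 * n + g 1 1 := by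
  refine ⟨?_, ?_, ?_, ?_⟩ <;>
  simp [Matrix.SpecialLinearGroup.coe_mul, ModularGroup.coe_T_zpow, Matrix.mul_apply,
    Fin.sum_univ_two]

theorem chi_congr (χ : DirichletCharacter ℂ q) {m n : ℤ} (h : (q : ℤ) ∣ m - n) :
    χ (m : ZMod q) = χ (n : ZMod q) := by
  congr 1
  rw [← sub_eq_zero, ← Int.cast_sub]
  exact (ZMod.intCast_zmod_eq_zero_iff_dvd _ q).2 h

theorem law_T (χ : DirichletCharacter ℂ q) {k : ℕ} {g : SL(2, ℤ)}
    (hg : Law q χ A B C X Y k g) (n : ℤ) : Law q χ A B C X Y k (g * ModularGroup.T ^ n) := by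
  intro u hu
  obtain ⟨e1, e2, e3, e4⟩ := mulT g n
  rw [e1, e2, e3, e4]
  have hu' : 0 < (u + n).im := by
    rw [Complex.add_im, Complex.intCast_im, add_zero]
    exact hu
  obtain ⟨h1, h2⟩ := hg (u + n) hu'
  have e5 : ((g 0 0 : ℂ) * u + ((g 0 0 * n + g 0 1 : ℤ) : ℂ)) = (g 0 0 : ℂ) * (u + n) + g 0 1 := by
    push_cast
    ring
  have e6 : ((g 1 0 : ℂ) * u + ((g 1 0 * n + g 1 1 : ℤ) : ℂ)) = (g 1 0 : ℂ) * (u + n) + g 1 1 := by
    push_cast
    ring
  rw [e5, e6]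
  refine ⟨fun hd => ?_, fun hd j hj => ?_⟩
  · rw [h1 hd, T1_add_int]
    congr 2
    exact chi_congr χ (by
      rw [show g 1 1 - (g 1 0 * n + g 1 1) = g 1 0 * (-n) by ring]
      exact dvd_mul_of_dvd_left hd _)
  · rw [h2 hd (j - n) (by
      rw [show (j - n) * g 1 0 - g 1 1 = j * g 1 0 - (g 1 0 * n + g 1 1) by ring]
      exact hj)]
    congr 2
    push_cast
    ring

theorem law_S [Fact q.Prime] (h : Frm q A B C X Y N) (hq2 : q ≠ 2) (hA : ¬ (q : ℤ) ∣ A)
    (hS : Sm A B C X Y) (hP : StPoisK) {k : ℕ} (hk : Even k) (χ : DirichletCharacter ℂ q)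
    (hχ : ∀ n : ℤ, χ n = (jacobiSym n q : ℂ)) (hχ1 : χ (-1 : ℤ) = -1) {g : SL(2, ℤ)}
    (hg : Law q χ A B C X Y k g) : Law q χ A B C X Y k (g * ModularGroup.S) := by
  have hq : q ≠ 0 := (Fact.out : q.Prime).ne_zero
  have hp : Prime (q : ℤ) := Nat.prime_iff_prime_int.1 Fact.out
  intro u hu
  have hu0 : u ≠ 0 := by
    rintro rfl
    simp at hu
  obtain ⟨e1, e2, e3, e4⟩ := mulS g
  rw [e1, e2, e3, e4]
  have hv := im_neg_inv hu
  obtain ⟨h1, h2⟩ := hg (-1 / u) hv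
  have hdet : g 0 0 * g 1 1 - g 0 1 * g 1 0 = 1 := by
    have := g.det_coe
    rwa [Matrix.det_fin_two] at this
  have hcd : g 1 0 ≠ 0 ∨ g 1 1 ≠ 0 := by
    by_contra hh
    push Not at hh
    rw [hh.1, hh.2] at hdet
    simp at hdet
  have hden := den_ne hcd hv
  have hden2 : (g 1 1 : ℂ) * u + ((-g 1 0 : ℤ) : ℂ) ≠ 0 := den_ne (by
    rcases hcd with hh | hh
    · exact Or.inr (neg_ne_zero.2 hh)
    · exact Or.inl hh) hu
  have e5 : ((g 0 1 : ℂ) * u + ((-g 0 0 : ℤ) : ℂ)) / ((g 1 1 : ℂ) * u + ((-g 1 0 : ℤ) : ℂ)) =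
      ((g 0 0 : ℂ) * (-1 / u) + g 0 1) / ((g 1 0 : ℂ) * (-1 / u) + g 1 1) := by
    rw [div_eq_div_iff hden2 hden]
    push_cast
    field_simp
    ring
  have e6 : ((g 1 1 : ℂ) * u + ((-g 1 0 : ℤ) : ℂ)) ^ (k + 1) =
      ((g 1 0 : ℂ) * (-1 / u) + g 1 1) ^ (k + 1) * u ^ (k + 1) := by
    rw [← mul_pow]
    congr 1
    push_cast
    field_simp
    ring
  rw [e5, e6]
  refine ⟨fun hd => ?_, fun hd j' hj' => ?_⟩
  · -- `q` divides the new entry
    have hd' : ¬ (q : ℤ) ∣ g 1 0 := by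
      intro h0
      have : (q : ℤ) ∣ 1 := by
        rw [← hdet]
        exact dvd_sub (dvd_mul_of_dvd_right hd _) (dvd_mul_of_dvd_right h0 _)
      exact hp.not_dvd_one this
    have h3 := h2 hd' 0 (by
      rw [zero_mul, zero_sub]
      exact hd.neg_right)
    rw [Int.cast_zero, add_zero, h.S2 hq hP hk hu] at h3
    rw [h3]
    have e7 : χ ((-g 1 0 : ℤ) : ZMod q) = -χ ((g 1 0 : ℤ) : ZMod q) := by
      rw [show (-g 1 0 : ℤ) = (-1) * g 1 0 by ring, Int.cast_mul, map_mul, hχ1]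
      ring
    rw [e7]
    have e8 : (Sq q)⁻¹ * Sq q = 1 := inv_mul_cancel₀ (Sq_ne hq)
    linear_combination (-(χ ((g 1 0 : ℤ) : ZMod q)) *
      ((g 1 0 : ℂ) * (-1 / u) + g 1 1) ^ (k + 1) * u ^ (k + 1) * T1 A B C X Y k u) * e8
  · by_cases hc : (q : ℤ) ∣ g 1 0
    · rw [h1 hc, h.S1 hq hP hk hu]
      have e7 : (q : ℤ) ∣ j' := by
        have : (q : ℤ) ∣ j' * g 1 1 := by
          have := dvd_add hj' (dvd_neg.2 hc)
          rwa [sub_add_cancel] at this
        exact (hp.dvd_or_dvd this).resolve_right hd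
      rw [T2_add_int hq k u j' e7]
      ring
    · -- an inverse of `g 1 0`
      have hunit : ((g 1 0 : ℤ) : ZMod q) ≠ 0 := fun h0 =>
        hc ((ZMod.intCast_zmod_eq_zero_iff_dvd _ q).1 h0)
      set r : ZMod q := ((g 1 1 : ℤ) : ZMod q) / ((g 1 0 : ℤ) : ZMod q) with hr
      set j : ℤ := (r.val : ℤ) with hjd
      have hjr : (j : ZMod q) = r := by simp [hjd]
      have hj : (q : ℤ) ∣ j * g 1 0 - g 1 1 := by
        rw [← ZMod.intCast_zmod_eq_zero_iff_dvd]
        rw [Int.cast_sub, Int.cast_mul, hjr, hr]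
        field_simp
        ring
      have hjj : (q : ℤ) ∣ j * j' + 1 := by
        have h4 : (q : ℤ) ∣ (j * j' + 1) * g 1 0 := by
          have e7 : (j * j' + 1) * g 1 0 = j' * (j * g 1 0 - g 1 1) + (j' * g 1 1 - -g 1 0) := by
            ring
          rw [e7]
          exact dvd_add (dvd_mul_of_dvd_right hj _) hj'
        exact (hp.dvd_or_dvd h4).resolve_right hc
      have hj0 : (j : ZMod q) ≠ 0 := by
        intro h0
        rw [hjr, hr, div_eq_zero_iff] at h0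
        rcases h0 with h0 | h0
        · exact hd ((ZMod.intCast_zmod_eq_zero_iff_dvd _ q).1 h0)
        · exact hunit h0
      have hA0 : (A : ZMod q) ≠ 0 := fun h0 =>
        hA ((ZMod.intCast_zmod_eq_zero_iff_dvd _ q).1 h0)
      rw [h2 hc j hj, h.S3 hq2 hA hS hP hk hu j j' hjj]
      have e8 : (Sq q)⁻¹ * Gs ((j * A : ℤ) : ZMod q) = χ ((j : ℤ) : ZMod q) := by
        rw [Int.cast_mul, Gs_mul hq2 hA0 hj0, mul_left_comm, h.gauss hq2 hA hS hP, mul_one, hχ,
          ← jacobiSym.legendreSym.to_jacobiSym]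
        rfl
      have e9 : χ ((g 1 1 : ℤ) : ZMod q) = χ ((j : ℤ) : ZMod q) * χ ((g 1 0 : ℤ) : ZMod q) := by
        rw [← map_mul, ← Int.cast_mul]
        exact (chi_congr χ hj).symm
      rw [e8, e9]
      ring

theorem law_all [Fact q.Prime] (h : Frm q A B C X Y N) (hq2 : q ≠ 2) (hA : ¬ (q : ℤ) ∣ A)
    (hS : Sm A B C X Y) (hP : StPoisK) {k : ℕ} (hk : Even k) (χ : DirichletCharacter ℂ q)
    (hχ : ∀ n : ℤ, χ n = (jacobiSym n q : ℂ)) (hχ1 : χ (-1 : ℤ) = -1) (g : SL(2, ℤ)) :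
    Law q χ A B C X Y k g := by
  have hmem : g ∈ Subgroup.closure {ModularGroup.S, ModularGroup.T} := by
    rw [SpecialLinearGroup.SL2Z_generators]
    trivial
  induction hmem using Subgroup.closure_induction_right with
  | one =>
    intro u hu
    refine ⟨fun _ => ?_, fun hd => ?_⟩
    · simp
    · exfalso
      apply hd
      simp
  | mul_right x hx y hy ih =>
    rcases hy with rfl | rfl
    · exact law_S h hq2 hA hS hP hk χ hχ hχ1 ih
    · have := law_T χ ih 1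
      rwa [zpow_one] at this
  | mul_inv_cancel x hx y hy ih =>
    rcases hy with rfl | rfl
    · have h4 : (ModularGroup.S)⁻¹ = ModularGroup.S * ModularGroup.S * ModularGroup.S := by
        ext i j
        fin_cases i <;> fin_cases j <;>
        simp [Matrix.SpecialLinearGroup.coe_mul, ModularGroup.coe_S,
          Matrix.SpecialLinearGroup.coe_inv, Matrix.adjugate_fin_two]
      rw [h4, ← mul_assoc, ← mul_assoc]
      exact law_S h hq2 hA hS hP hk χ hχ hχ1 (law_S h hq2 hA hS hP hk χ hχ hχ1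
        (law_S h hq2 hA hS hP hk χ hχ hχ1 ih))
    · have := law_T χ ih (-1)
      rwa [zpow_neg_one] at this

theorem Frm.swap (h : Frm q A B C X Y N) : Frm q C (-B) A Y (-X) N where
  pos := h.pos
  im := by
    have h1 := h.im
    simp only [Complex.mul_im, Complex.conj_re, Complex.conj_im, map_neg, Complex.neg_re,
      Complex.neg_im] at *
    linear_combination h1
  re := by
    have h1 := h.re
    simp only [Complex.mul_re, Complex.conj_re, Complex.conj_im, map_neg, Complex.neg_re,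
      Complex.neg_im] at *
    push_cast
    linear_combination -h1
  XX := h.YY
  YY := by rw [Complex.normSq_neg, h.XX]

/-- One of the outer coefficients is prime to `q`. -/
theorem Frm.not_both [Fact q.Prime] (h : Frm q A B C X Y N) (hA : (q : ℤ) ∣ A) :
    ¬ (q : ℤ) ∣ C := by
  intro hC
  have hp : Prime (q : ℤ) := Nat.prime_iff_prime_int.1 Fact.out
  have h1 := h.disc
  obtain ⟨a, rfl⟩ := hA
  obtain ⟨c, rfl⟩ := hC
  have h2 : (q : ℤ) ∣ B ^ 2 := ⟨4 * a * (q * c) - 1, by linear_combination h1⟩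
  obtain ⟨b, rfl⟩ := hp.dvd_of_dvd_pow h2
  have h3 : (q : ℤ) * (q * (b ^ 2 - 4 * a * c) + 1) = 0 := by linear_combination h1
  rcases mul_eq_zero.1 h3 with h4 | h4
  · exact hp.ne_zero h4
  · exact hp.not_dvd_one ⟨-(b ^ 2 - 4 * a * c), by linear_combination h4⟩

end frm

section field

variable {F : Type} [Field F] [NumberField F] {q : ℕ} {s : 𝓞 F} {σ : F →+* ℂ}
  {χ : DirichletCharacter ℂ q} {cj : 𝓞 F ≃+* 𝓞 F} {a : Ideal (𝓞 F)}

omit [NumberField F] in
theorem mem1 {x y : 𝓞 F} (h : OBasis σ a x y) :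
    x ∈ a := (h.mem x).2 ⟨1, 0, by push_cast; ring⟩

omit [NumberField F] in
theorem mem2 {x y : 𝓞 F} (h : OBasis σ a x y) :
    y ∈ a := (h.mem y).2 ⟨0, 1, by push_cast; ring⟩

theorem obasis_swap {x y : 𝓞 F} (h : OBasis σ a x y) : OBasis σ a y (-x) where
  mem z := by
    rw [h.mem z]
    constructor
    · rintro ⟨m, n, e⟩
      exact ⟨n, -m, by rw [e]; push_cast; ring⟩
    · rintro ⟨m, n, e⟩
      exact ⟨-n, m, by rw [e]; push_cast; ring⟩
  pos := by
    have h1 := h.pos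
    rw [show ((-x : 𝓞 F) : F) = -(x : F) from rfl, map_neg]
    simp only [Complex.mul_im, Complex.conj_re, Complex.conj_im, map_neg, Complex.neg_re,
      Complex.neg_im] at *
    linarith

theorem exists_frm (hB : StBase) (hTh : StThB) (hD : Dat q s σ χ cj) (ha : a ≠ ⊥) {x y : 𝓞 F}
    (h : OBasis σ a x y) :
    ∃ A B C : ℤ, Frm q A B C (σ x) (σ y) (Ideal.absNorm a : ℝ) := by
  have hN : (0 : ℝ) < (Ideal.absNorm a : ℝ) := by
    have : Ideal.absNorm a ≠ 0 := fun h0 => ha (Ideal.absNorm_eq_zero_iff.1 h0)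
    exact_mod_cast Nat.pos_of_ne_zero this
  have hQ := (hTh q F _ _ s σ χ cj a 0 0 hD ha).1
  obtain ⟨nA, hA⟩ := hQ x (mem1 h)
  obtain ⟨nC, hC⟩ := hQ y (mem2 h)
  obtain ⟨nB, hBn⟩ := hQ (x + y) (a.add_mem (mem1 h) (mem2 h))
  unfold Qa at hA hC hBn
  rw [div_eq_iff hN.ne'] at hA hC hBn
  refine ⟨nA, nB - nA - nC, nC, hN, (hB q F _ _ s σ χ cj hD).2.2.1 a x y h, ?_, ?_, ?_⟩
  · rw [show ((x + y : 𝓞 F) : F) = (x : F) + y from rfl, map_add, Complex.normSq_add, hA, hC]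
      at hBn
    push_cast
    linear_combination hBn
  · rw [hA]
    push_cast
    ring
  · rw [hC]
    push_cast
    ring

/-- The parametrisation of the ideal. -/
noncomputable def par (hB : StBase) (hD : Dat q s σ χ cj) {x y : 𝓞 F} (h : OBasis σ a x y) :
    ℤ × ℤ ≃ a :=
  Equiv.ofBijective (fun p : ℤ × ℤ => (⟨(p.1 : 𝓞 F) * x + (p.2 : 𝓞 F) * y,
    (h.mem _).2 ⟨p.1, p.2, rfl⟩⟩ : a)) (by
    constructor
    · intro p p' e
      have e1 : (p.1 : 𝓞 F) * x + (p.2 : 𝓞 F) * y = (p'.1 : 𝓞 F) * x + (p'.2 : 𝓞 F) * y :=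
        congrArg Subtype.val e
      have e2 := (hB q F _ _ s σ χ cj hD).2.2.2.1 a x y h (p.1 - p'.1) (p.2 - p'.2) (by
        push_cast
        linear_combination e1)
      exact Prod.ext (by omega) (by omega)
    · rintro ⟨z, hz⟩
      obtain ⟨m, n, e⟩ := (h.mem z).1 hz
      exact ⟨(m, n), Subtype.ext e.symm⟩)

theorem par_val (hB : StBase) (hD : Dat q s σ χ cj) {x y : 𝓞 F} (h : OBasis σ a x y)
    (p : ℤ × ℤ) : σ ((par hB hD h p : a) : 𝓞 F) = (p.1 : ℂ) * σ x + p.2 * σ y := by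
  have e : ∀ n : ℤ, σ ((n : 𝓞 F) : F) = n := by
    intro n
    rw [show ((n : 𝓞 F) : F) = (n : F) from map_intCast (algebraMap (𝓞 F) F) n, map_intCast]
  show σ (((p.1 : 𝓞 F) * x + (p.2 : 𝓞 F) * y : 𝓞 F) : F) = _
  push_cast
  rw [map_add, map_mul, map_mul, e, e]

theorem par_Qa (hB : StBase) (hD : Dat q s σ χ cj) {x y : 𝓞 F} (h : OBasis σ a x y)
    {A B C : ℤ} (hF : Frm q A B C (σ x) (σ y) (Ideal.absNorm a : ℝ)) (p : ℤ × ℤ) :
    Qa σ a ((par hB hD h p : a) : 𝓞 F) = qf A B C p := by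
  unfold Qa
  rw [par_val, hF.normSq, mul_div_cancel_right₀ _ hF.pos.ne']

theorem th_eq (hB : StBase) (hD : Dat q s σ χ cj) {x y : 𝓞 F} (h : OBasis σ a x y)
    {A B C : ℤ} (hF : Frm q A B C (σ x) (σ y) (Ideal.absNorm a : ℝ)) (k : ℕ) (u : ℂ) :
    th σ a k u = T1 A B C (σ x) (σ y) k u := by
  unfold th T1
  rw [← (par hB hD h).tsum_eq]
  refine tsum_congr fun p => ?_
  rw [par_val, par_Qa hB hD h hF]
  congr 3

theorem sm (hB : StBase) (hTh : StThB) (hD : Dat q s σ χ cj) (ha : a ≠ ⊥) {x y : 𝓞 F}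
    (h : OBasis σ a x y) {A B C : ℤ}
    (hF : Frm q A B C (σ x) (σ y) (Ideal.absNorm a : ℝ)) : Sm A B C (σ x) (σ y) := by
  intro k t ht
  have h1 := (hTh q F _ _ s σ χ cj a k 0 hD ha).2.1 t ht
  rw [← (par hB hD h).summable_iff] at h1
  refine Summable.of_nonneg_of_le (fun p => by positivity) (fun p => ?_) h1
  simp only [Function.comp_apply]
  rw [par_val, par_Qa hB hD h hF]
  gcongr
  linarith [norm_nonneg ((p.1 : ℂ) * σ x + p.2 * σ y)]

end field

end ThGX

open ThGX in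
theorem stThG (h1 : StPoisK) (h2 : StBase) (_h3 : StBas) (h4 : StThB) : StThG := by
  intro q F _ _ s σ χ cj a k hD ha hk g z hz hdvd
  have : Fact q.Prime := ⟨hD.prime⟩
  have hq2 : q ≠ 2 := by
    have := hD.mod
    omega
  have hχ1 : χ ((-1 : ℤ) : ZMod q) = -1 := by
    rw [hD.chi, jacobiSym.at_neg_one (by
      rw [Nat.odd_iff]
      have := hD.mod
      omega), ZMod.χ₄_nat_three_mod_four (by
      have := hD.mod
      omega)]
    norm_num
  -- a basis whose first vector has norm prime to `q`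
  obtain ⟨x, y, A, B, C, hb, hF, hA⟩ : ∃ (x y : 𝓞 F) (A B C : ℤ), OBasis σ a x y ∧
      Frm q A B C (σ x) (σ y) (Ideal.absNorm a : ℝ) ∧ ¬ (q : ℤ) ∣ A := by
    obtain ⟨x, y, hb⟩ := (h2 q F _ _ s σ χ cj hD).1 a ha
    obtain ⟨A, B, C, hF⟩ := exists_frm h2 h4 hD ha hb
    by_cases hA : (q : ℤ) ∣ A
    · refine ⟨y, -x, C, -B, A, obasis_swap hb, ?_, hF.not_both hA⟩
      have := hF.swap
      rwa [← map_neg σ] at this
    · exact ⟨x, y, A, B, C, hb, hF, hA⟩
  have hS := sm h2 h4 hD ha hb hF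
  rw [th_eq h2 hD hb hF, th_eq h2 hD hb hF]
  exact (law_all hF hq2 hA hS h1 hk χ hD.chi hχ1 g z hz).1 hdvd

end RZ

end Pool.Agent.Lib.MP_7c08ba_nt
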