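import Pool.Agent.Lib.MP_7c08ba_nt.RZ.StG
import Pool.Agent.Lib.MP_7c08ba_nt.RZ.ThG

set_option autoImplicit false

/-!
(G6) theta series of ideals and the group `Γ₀(D)`, `D` composite: proof by Dirichlet's theorem.
-/

namespace Pool.Agent.Lib.MP_7c08ba_nt

namespace RZ

open NumberField MeasureTheory UpperHalfPlane Set
open scoped MatrixGroups ComplexConjugate nonZeroDivisors

namespace ThGDX

open ThGX

/-! ### residue classes -/

theorem cl1_bij (p : ℕ) [NeZero p] :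
    Function.Bijective fun z : ZMod p × ℤ => (z.1.val : ℤ) + p * z.2 := by
  have hp : (p : ℤ) ≠ 0 := by exact_mod_cast NeZero.ne p
  constructor
  · rintro ⟨x, m⟩ ⟨x', m'⟩ h
    simp only at h
    have h1 : x = x' := by
      have h2 := congrArg (Int.cast : ℤ → ZMod p) h
      push_cast at h2
      simpa using h2
    subst h1
    have h2 : (p : ℤ) * (m - m') = 0 := by linear_combination h
    rcases mul_eq_zero.1 h2 with h3 | h3
    · exact absurd h3 hp
    · rw [sub_eq_zero.1 h3]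
  · intro n
    refine ⟨((n : ZMod p), n / p), ?_⟩
    simp only
    rw [ZMod.val_intCast]
    exact Int.emod_add_mul_ediv n p

/-- Decomposition into residue classes. -/
noncomputable def cl (p : ℕ) [NeZero p] : (ZMod p × ZMod p) × (ℤ × ℤ) ≃ ℤ × ℤ :=
  (Equiv.prodProdProdComm _ _ _ _).trans
    ((Equiv.ofBijective _ (cl1_bij p)).prodCongr (Equiv.ofBijective _ (cl1_bij p)))

theorem cl_apply (p : ℕ) [NeZero p] (x : ZMod p × ZMod p) (y : ℤ × ℤ) :
    cl p (x, y) = ((x.1.val : ℤ) + p * y.1, (x.2.val : ℤ) + p * y.2) := rfl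

/-! ### Gauss sums of binary forms -/

section gauss

variable {p : ℕ} [Fact p.Prime]

theorem gauss_shift (A B C b c e1 e2 D : ZMod p) (hD : 4 * A * C - B ^ 2 = D)
    (h : b * D * c = -1) :
    ∑ x : ZMod p × ZMod p, (ZMod.stdAddChar (b * (A * x.1 ^ 2 + B * x.1 * x.2 + C * x.2 ^ 2) +
      x.1 * e2 - x.2 * e1) : ℂ) =
    ZMod.stdAddChar (c * (A * e1 ^ 2 + B * e1 * e2 + C * e2 ^ 2)) *
      ∑ x : ZMod p × ZMod p,
        ZMod.stdAddChar (b * (A * x.1 ^ 2 + B * x.1 * x.2 + C * x.2 ^ 2)) := by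
  rw [Finset.mul_sum]
  refine Fintype.sum_equiv (Equiv.addRight (-(c * (B * e1 + 2 * C * e2)),
    c * (2 * A * e1 + B * e2))) _ _ fun x => ?_
  rw [← AddChar.map_add_eq_mul]
  congr 1
  simp only [Equiv.coe_addRight, Prod.fst_add, Prod.snd_add]
  subst hD
  linear_combination (x.1 * e2 - x.2 * e1 - c * (A * e1 ^ 2 + B * e1 * e2 + C * e2 ^ 2)) * h

theorem Gs_sq (hp : p ≠ 2) {a : ZMod p} (ha : a ≠ 0) :
    Gs a ^ 2 = (quadraticChar (ZMod p) (-1) : ℂ) * p := by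
  classical
  set χ : MulChar (ZMod p) ℂ := (quadraticChar (ZMod p)).ringHomComp (Int.castRingHom ℂ) with hχ
  have h1 : Gs a = gaussSum χ (AddChar.mulShift (ZMod.stdAddChar (N := p)) a) := by
    rw [Gs_eq hp ha]
    rfl
  have hr : ringChar (ZMod p) ≠ 2 := by rwa [ZMod.ringChar_zmod_n]
  have h2 : χ ≠ 1 := (MulChar.ringHomComp_ne_one_iff (RingHom.injective_int _)).2
    (quadraticChar_ne_one hr)
  have h3 : χ.IsQuadratic := (quadraticChar_isQuadratic _).comp _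
  have h4 : (AddChar.mulShift (ZMod.stdAddChar (N := p)) a).IsPrimitive :=
    AddChar.IsPrimitive.of_ne_one (ZMod.isPrimitive_stdAddChar p ha)
  rw [h1, gaussSum_sq h2 h3 h4, ZMod.card]
  rfl

theorem gauss_eq (hp : p ≠ 2) {A B C b D : ZMod p} (hA : A ≠ 0) (hb : b ≠ 0) (hD0 : D ≠ 0)
    (hD : 4 * A * C - B ^ 2 = D) :
    ∑ x : ZMod p × ZMod p, (ZMod.stdAddChar (b * (A * x.1 ^ 2 + B * x.1 * x.2 + C * x.2 ^ 2)) : ℂ)
      = (quadraticChar (ZMod p) (-D) : ℂ) * p := by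
  have h2 : (2 : ZMod p) ≠ 0 := by
    intro h
    have h3 : ((2 : ℕ) : ZMod p) = 0 := by exact_mod_cast h
    rw [ZMod.natCast_eq_zero_iff] at h3
    exact hp ((Nat.prime_dvd_prime_iff_eq Fact.out Nat.prime_two).1 h3)
  have h2A : 2 * A ≠ 0 := mul_ne_zero h2 hA
  have hbA : b * A ≠ 0 := mul_ne_zero hb hA
  rw [Fintype.sum_prod_type_right]
  have h3 : ∀ y : ZMod p, ∑ x : ZMod p,
      (ZMod.stdAddChar (b * (A * x ^ 2 + B * x * y + C * y ^ 2)) : ℂ) =
        Gs (b * A) * ZMod.stdAddChar (D / (2 * A) ^ 2 * (b * A) * y ^ 2) := by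
    intro y
    have h4 := square (b * A) (-(b * B * y)) (-(B * y) / (2 * A)) (by field_simp)
    have h5 : ∀ x : ZMod p, (ZMod.stdAddChar (b * (A * x ^ 2 + B * x * y + C * y ^ 2)) : ℂ) =
        ZMod.stdAddChar (b * C * y ^ 2) *
          ZMod.stdAddChar (b * A * x ^ 2 - x * (-(b * B * y))) := by
      intro x
      rw [← AddChar.map_add_eq_mul]
      congr 1
      ring
    rw [Finset.sum_congr rfl fun x _ => h5 x, ← Finset.mul_sum, h4, ← mul_assoc,
      ← AddChar.map_add_eq_mul, mul_comm]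
    congr 2
    subst hD
    field_simp
    ring
  rw [Finset.sum_congr rfl fun y _ => h3 y, ← Finset.mul_sum]
  have h6 : ∑ y : ZMod p, (ZMod.stdAddChar (D / (2 * A) ^ 2 * (b * A) * y ^ 2) : ℂ) =
      Gs (D / (2 * A) ^ 2 * (b * A)) := rfl
  rw [h6, Gs_mul hp hbA (div_ne_zero hD0 (pow_ne_zero 2 h2A))]
  have h7 : (quadraticChar (ZMod p) (D / (2 * A) ^ 2) : ℤ) = quadraticChar (ZMod p) D := by
    have h8 : quadraticChar (ZMod p) D =
        quadraticChar (ZMod p) (D / (2 * A) ^ 2) * quadraticChar (ZMod p) ((2 * A) ^ 2) := by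
      rw [← map_mul]
      congr 1
      field_simp
    rw [h8, quadraticChar_sq_one' h2A, mul_one]
  rw [h7]
  have h9 : quadraticChar (ZMod p) (-D) = quadraticChar (ZMod p) (-1) * quadraticChar (ZMod p) D := by
    rw [← map_mul]
    congr 1
    ring
  rw [h9]
  push_cast
  linear_combination (quadraticChar (ZMod p) D : ℂ) * Gs_sq hp hbA

end gauss

/-! ### the law for prime denominators -/

section law

variable {D : ℕ} {A B C : ℤ} {X Y : ℂ} {N : ℝ}

theorem qf_cl (p : ℕ) [NeZero p] (A B C : ℤ) (x : ZMod p × ZMod p) (y : ℤ × ℤ) :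
    ∃ M : ℤ, qf A B C (cl p (x, y)) = qf A B C ((x.1.val : ℤ), (x.2.val : ℤ)) + p * M := by
  refine ⟨2 * A * x.1.val * y.1 + B * (x.1.val * y.2 + x.2.val * y.1) + 2 * C * x.2.val * y.2 +
    p * qf A B C y, ?_⟩
  rw [cl_apply]
  unfold qf
  ring

theorem bil2 (h : Frm D A B C X Y N) (hD : D ≠ 0) (x e : ℤ × ℤ) :
    2 * (((x.1 : ℂ) * X + x.2 * Y) * conj (((e.1 : ℂ) * X + e.2 * Y) / Sq D)).re =
      (x.2 * e.1 - x.1 * e.2) * N := by
  have h1 := h.prod
  have h2 : Y * conj X = N * (B - Sq D) / 2 := by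
    have := congrArg conj h.prod
    rw [map_mul, Complex.conj_conj, map_div₀, map_mul, map_add, Complex.conj_ofReal, conj_Sq,
      Complex.conj_ofNat, map_intCast] at this
    rw [mul_comm, this]
    ring
  have h3 : X * conj X = A * N := by
    rw [Complex.mul_conj, h.XX]
    push_cast
    ring
  have h4 : Y * conj Y = C * N := by
    rw [Complex.mul_conj, h.YY]
    push_cast
    ring
  have hS := Sq_ne hD
  have h5 : ((x.1 : ℂ) * X + x.2 * Y) * conj (((e.1 : ℂ) * X + e.2 * Y) / Sq D) =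
      ((x.2 * e.1 - x.1 * e.2 : ℝ) : ℂ) * N / 2 +
        -(((A * x.1 * e.1 + C * x.2 * e.2 + B * (x.1 * e.2 + x.2 * e.1) / 2 : ℝ) : ℂ) * N /
          Sq D) := by
    rw [map_div₀, conj_Sq, map_add, map_mul, map_mul, map_intCast, map_intCast]
    push_cast
    field_simp
    linear_combination -(2 * x.1 * e.2 : ℂ) * h1 - (2 * x.2 * e.1 : ℂ) * h2 -
      (2 * x.1 * e.1 : ℂ) * h3 - (2 * x.2 * e.2 : ℂ) * h4
  have h6 : ∀ t : ℝ, ((t : ℂ) / Sq D).re = 0 := by
    intro t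
    unfold Sq
    rw [div_eq_mul_inv, mul_inv, Complex.inv_I]
    simp
  rw [h5, Complex.add_re, Complex.neg_re]
  have h7 := h6 ((A * x.1 * e.1 + C * x.2 * e.2 + B * (x.1 * e.2 + x.2 * e.1) / 2) * N)
  rw [Complex.ofReal_mul] at h7
  rw [h7]
  have h8 : (((x.2 * e.1 - x.1 * e.2 : ℝ) : ℂ) * N / 2).re = (x.2 * e.1 - x.1 * e.2) * N / 2 := by
    rw [← Complex.ofReal_mul]
    simp
  rw [h8]
  ring

theorem law_prime (h : Frm D A B C X Y N) (hD : D ≠ 0) (hS : Sm A B C X Y) (hP : StPoisK)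
    {k : ℕ} (hk : Even k) {p : ℕ} [Fact p.Prime] (hp2 : p ≠ 2) (hpA : ¬ (p : ℤ) ∣ A)
    (hpD : ¬ (p : ℤ) ∣ D) {a b c : ℤ} (hdet : a * p - b * (D * c) = 1) {u : ℂ} (hu : 0 < u.im) :
    T1 A B C X Y k ((a * u + b) / (((D * c : ℤ) : ℂ) * u + p)) =
      (quadraticChar (ZMod p) (((-(D : ℤ) : ℤ)) : ZMod p) : ℂ) *
        (((D * c : ℤ) : ℂ) * u + p) ^ (k + 1) * T1 A B C X Y k u := by
  have hp0 : (p : ℂ) ≠ 0 := by exact_mod_cast (Fact.out : p.Prime).ne_zero
  have hu0 : u ≠ 0 := by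
    rintro rfl
    simp at hu
  have hDC : (D : ℂ) ≠ 0 := by exact_mod_cast hD
  have hN : (N : ℂ) ≠ 0 := by exact_mod_cast h.pos.ne'
  have hSq := Sq_ne hD
  have hden : ((D * c : ℤ) : ℂ) * u + p ≠ 0 := by
    have := den_ne (c := D * c) (d := p) (Or.inr (by exact_mod_cast (Fact.out : p.Prime).ne_zero))
      hu
    simpa using this
  have hdet' : (a : ℂ) * p - b * (D * c) = 1 := by exact_mod_cast hdet
  set v : ℂ := -1 / u - (c * D : ℤ) / p with hv
  have hvim : 0 < v.im := by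
    have h1 := im_neg_inv hu
    have h2 : (((c * D : ℤ) : ℂ) / p).im = 0 := by
      rw [Complex.div_natCast_im, Complex.intCast_im, zero_div]
    rw [hv, Complex.sub_im, h2, sub_zero]
    exact h1
  have hv0 : v ≠ 0 := by
    intro h0
    rw [h0] at hvim
    simp at hvim
  have hvu : v * u = -((((D * c : ℤ) : ℂ) * u + p) / p) := by
    rw [hv]
    push_cast
    field_simp
    ring
  set z : ℂ := (a * u + b) / (((D * c : ℤ) : ℂ) * u + p) with hz
  have hz1 : z = b / p + (-1 / v) / p ^ 2 := by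
    have h1 : v = -((((D * c : ℤ) : ℂ) * u + p) / (p * u)) := by
      rw [hv]
      push_cast
      field_simp
      ring
    rw [hz, h1]
    obtain ⟨den, hd⟩ : ∃ den : ℂ, den = ((D * c : ℤ) : ℂ) * u + p := ⟨_, rfl⟩
    rw [← hd] at hden ⊢
    field_simp
    rw [hd]
    push_cast
    linear_combination u * hdet'
  have hzim : 0 < z.im := by
    rw [hz1, Complex.add_im, Complex.div_natCast_im, Complex.intCast_im, zero_div, zero_add]
    have h1 : ((-1 / v) / (p : ℂ) ^ 2).im = (-1 / v).im / (p : ℝ) ^ 2 := by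
      rw [← Nat.cast_pow, Complex.div_natCast_im]
      push_cast
      rfl
    rw [h1]
    have h2 := im_neg_inv hvim
    have h3 : (0 : ℝ) < p := by exact_mod_cast (Fact.out : p.Prime).pos
    positivity
  -- the terms
  let F : ℤ × ℤ → ℂ := fun α => ((α.1 : ℂ) * X + α.2 * Y) ^ k * ee (qf A B C α * z)
  have hF : Summable F := sum1 hS k hzim
  let H : ℤ × ℤ → ℂ := fun e => (((e.1 : ℂ) * X + e.2 * Y) / Sq D) ^ k * ee (qf A B C e / D * v)
  have hH : Summable H := sum2 hD hS k hvim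
  have hFcl : ∀ (x : ZMod p × ZMod p), ∑' y : ℤ × ℤ, F (cl p (x, y)) =
      (p : ℂ) ^ k * (Sq D)⁻¹ * v ^ (k + 1) * ∑' e : ℤ × ℤ,
        ee ((b * qf A B C ((x.1.val : ℤ), (x.2.val : ℤ)) + (x.1.val : ℤ) * e.2 -
          (x.2.val : ℤ) * e.1 : ℤ) / p) * H e := by
    intro x
    set x0 : ℂ := ((x.1.val : ℤ) : ℂ) * X + ((x.2.val : ℤ) : ℂ) * Y with hx0
    have h1 : ∀ y : ℤ × ℤ, F (cl p (x, y)) = (p : ℂ) ^ k *
        ee ((b * qf A B C ((x.1.val : ℤ), (x.2.val : ℤ)) : ℤ) / p) *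
        ((x0 / p + ((y.1 : ℂ) * X + y.2 * Y)) ^ k *
          ee (Complex.normSq (x0 / p + ((y.1 : ℂ) * X + y.2 * Y)) / N * (-1 / v))) := by
      intro y
      have e1 : ((cl p (x, y)).1 : ℂ) * X + (cl p (x, y)).2 * Y =
          p * (x0 / p + ((y.1 : ℂ) * X + y.2 * Y)) := by
        rw [cl_apply, hx0]
        push_cast
        field_simp
        ring
      have e2 : (qf A B C (cl p (x, y)) : ℂ) =
          (p : ℂ) ^ 2 * (Complex.normSq (x0 / p + ((y.1 : ℂ) * X + y.2 * Y)) / N) := by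
        have e3 := h.normSq (cl p (x, y))
        rw [e1, Complex.normSq_mul, Complex.normSq_natCast] at e3
        have e4 : ((p : ℂ) * p) * (Complex.normSq (x0 / p + ((y.1 : ℂ) * X + y.2 * Y)) : ℂ) =
            (qf A B C (cl p (x, y)) : ℂ) * N := by exact_mod_cast e3
        generalize Complex.normSq (x0 / p + ((y.1 : ℂ) * X + y.2 * Y)) = n1 at e4 ⊢
        field_simp
        linear_combination -e4
      obtain ⟨M, hM⟩ := qf_cl p A B C x y
      have e5 : (qf A B C (cl p (x, y)) : ℂ) * z =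
          ((b * qf A B C ((x.1.val : ℤ), (x.2.val : ℤ)) : ℤ) : ℂ) / p + ((b * M : ℤ) : ℂ) +
            Complex.normSq (x0 / p + ((y.1 : ℂ) * X + y.2 * Y)) / N * (-1 / v) := by
        rw [hz1, mul_add]
        congr 1
        · rw [hM]
          push_cast
          field_simp
        · rw [e2]
          field_simp
      show ((((cl p (x, y)).1 : ℂ) * X + (cl p (x, y)).2 * Y) ^ k *
        ee (qf A B C (cl p (x, y)) * z)) = _
      rw [e1, e5, ee_add, ee_add, ee_int, mul_one, mul_pow]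
      ring
    rw [tsum_congr h1, tsum_mul_left, h.pois hD hP hk (x0 / p) hvim, ← tsum_mul_left,
      ← tsum_mul_left, ← tsum_mul_left]
    refine tsum_congr fun e => ?_
    have h2 : ee (-(2 * (x0 / p * conj (((e.1 : ℂ) * X + e.2 * Y) / Sq D)).re / N : ℝ)) =
        ee ((((x.1.val : ℤ) * e.2 - (x.2.val : ℤ) * e.1 : ℤ) : ℂ) / p) := by
      have h3 := bil2 h hD ((x.1.val : ℤ), (x.2.val : ℤ)) e
      simp only at h3
      rw [← hx0] at h3
      have h4 : (x0 / p * conj (((e.1 : ℂ) * X + e.2 * Y) / Sq D)).re =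
          (x0 * conj (((e.1 : ℂ) * X + e.2 * Y) / Sq D)).re / p := by
        rw [div_mul_eq_mul_div, Complex.div_natCast_re]
      rw [h4]
      congr 1
      have h5 : -(2 * ((x0 * conj (((e.1 : ℂ) * X + e.2 * Y) / Sq D)).re / p) / N) =
          (((x.1.val : ℤ) * e.2 - (x.2.val : ℤ) * e.1 : ℤ) : ℝ) / p := by
        have hp' : (p : ℝ) ≠ 0 := by exact_mod_cast (Fact.out : p.Prime).ne_zero
        have hN' := h.pos.ne'
        push_cast
        field_simp
        push_cast at h3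
        linear_combination -h3
      rw [← Complex.ofReal_neg, h5]
      push_cast
      rfl
    rw [h2]
    have h6 : ee (((b * qf A B C ((x.1.val : ℤ), (x.2.val : ℤ)) + (x.1.val : ℤ) * e.2 -
          (x.2.val : ℤ) * e.1 : ℤ) : ℂ) / p) =
        ee ((b * qf A B C ((x.1.val : ℤ), (x.2.val : ℤ)) : ℤ) / p) *
          ee ((((x.1.val : ℤ) * e.2 - (x.2.val : ℤ) * e.1 : ℤ) : ℂ) / p) := by
      rw [← ee_add]
      congr 1
      push_cast
      ring
    rw [h6]
    ring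
  have hTz : T1 A B C X Y k z = ∑ x : ZMod p × ZMod p, ∑' y : ℤ × ℤ, F (cl p (x, y)) := by
    have h1 : Summable fun w : (ZMod p × ZMod p) × (ℤ × ℤ) => F (cl p w) :=
      (cl p).summable_iff.2 hF
    have h2 : ∑' w, F (cl p w) = ∑' x : ZMod p × ZMod p, ∑' y : ℤ × ℤ, F (cl p (x, y)) :=
      h1.tsum_prod
    have h3 : ∑' w, F (cl p w) = ∑' e, F e := (cl p).tsum_eq F
    have h4 : ∑' x : ZMod p × ZMod p, (∑' y : ℤ × ℤ, F (cl p (x, y))) =
        ∑ x : ZMod p × ZMod p, ∑' y : ℤ × ℤ, F (cl p (x, y)) := tsum_fintype _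
    exact h3.symm.trans (h2.trans h4)
  -- the finite sums
  have hG : ∀ e : ℤ × ℤ, ∑ x : ZMod p × ZMod p,
      ee ((b * qf A B C ((x.1.val : ℤ), (x.2.val : ℤ)) + (x.1.val : ℤ) * e.2 -
          (x.2.val : ℤ) * e.1 : ℤ) / p) =
      ee ((c * qf A B C e : ℤ) / p) *
        ((quadraticChar (ZMod p) (((-(D : ℤ) : ℤ)) : ZMod p) : ℂ) * p) := by
    intro e
    have hdZ : ((4 : ZMod p) * (A : ZMod p) * (C : ZMod p) - (B : ZMod p) ^ 2) =
        ((D : ℤ) : ZMod p) := by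
      have h1 : 4 * A * C - B ^ 2 = (D : ℤ) := by linear_combination -h.disc
      exact_mod_cast congrArg (Int.cast : ℤ → ZMod p) h1
    have hbc : (b : ZMod p) * ((D : ℤ) : ZMod p) * (c : ZMod p) = -1 := by
      have h1 := congrArg (Int.cast : ℤ → ZMod p) hdet
      push_cast at h1 ⊢
      rw [CharP.cast_eq_zero (ZMod p) p] at h1
      linear_combination -h1
    have hb0 : (b : ZMod p) ≠ 0 := by
      intro h0
      rw [h0, zero_mul, zero_mul] at hbc
      exact one_ne_zero (neg_eq_zero.1 hbc.symm)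
    have hA0 : (A : ZMod p) ≠ 0 := fun h0 => hpA ((ZMod.intCast_zmod_eq_zero_iff_dvd _ p).1 h0)
    have hD0 : ((D : ℤ) : ZMod p) ≠ 0 :=
      fun h0 => hpD ((ZMod.intCast_zmod_eq_zero_iff_dvd _ p).1 h0)
    have h2 := gauss_shift (A : ZMod p) B C b c e.1 e.2 _ hdZ hbc
    rw [gauss_eq hp2 hA0 hb0 hD0 hdZ] at h2
    rw [ee_div]
    have h3 : ∀ x : ZMod p × ZMod p,
        ee ((b * qf A B C ((x.1.val : ℤ), (x.2.val : ℤ)) + (x.1.val : ℤ) * e.2 -
          (x.2.val : ℤ) * e.1 : ℤ) / p) = (ZMod.stdAddChar ((b : ZMod p) *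
            ((A : ZMod p) * x.1 ^ 2 + (B : ZMod p) * x.1 * x.2 + (C : ZMod p) * x.2 ^ 2) +
              x.1 * (e.2 : ZMod p) - x.2 * (e.1 : ZMod p)) : ℂ) := by
      intro x
      rw [ee_div]
      congr 1
      unfold qf
      push_cast
      simp
    rw [Finset.sum_congr rfl fun x _ => h3 x, h2]
    congr 2
    · unfold qf
      push_cast
      ring
    · push_cast
      rfl
  have hsw : T1 A B C X Y k z = (p : ℂ) ^ k * (Sq D)⁻¹ * v ^ (k + 1) *
      ((quadraticChar (ZMod p) (((-(D : ℤ) : ℤ)) : ZMod p) : ℂ) * p) *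
        T2 D A B C X Y k (-1 / u) := by
    rw [hTz, Finset.sum_congr rfl fun x _ => hFcl x, ← Finset.mul_sum, mul_assoc _ (_ * (p : ℂ))]
    congr 1
    rw [← Summable.tsum_finsetSum]
    · unfold T2
      rw [← tsum_mul_left]
      refine tsum_congr fun e => ?_
      rw [← Finset.sum_mul, hG e]
      have h1 : ee ((c * qf A B C e : ℤ) / p) * H e =
          (((e.1 : ℂ) * X + e.2 * Y) / Sq D) ^ k * ee (qf A B C e / D * (-1 / u)) := by
        have h2 : ((c * qf A B C e : ℤ) : ℂ) / p + qf A B C e / D * v =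
            qf A B C e / D * (-1 / u) := by
          rw [hv]
          push_cast
          field_simp
          ring
        rw [← h2, ee_add]
        ring
      linear_combination ((quadraticChar (ZMod p) (((-(D : ℤ) : ℤ)) : ZMod p) : ℂ) * p) * h1
    · intro x _
      refine Summable.of_norm ?_
      refine hH.norm.congr fun e => ?_
      have h1 : ‖ee ((b * qf A B C ((x.1.val : ℤ), (x.2.val : ℤ)) + (x.1.val : ℤ) * e.2 -
          (x.2.val : ℤ) * e.1 : ℤ) / p)‖ = 1 := by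
        rw [norm_ee, Complex.div_natCast_im, Complex.intCast_im]
        simp
      rw [norm_mul (ee _) (H e), h1, one_mul]
  rw [hsw, h.S2 hD hP hk hu]
  have h1 : (v * u) ^ (k + 1) = -(((((D * c : ℤ) : ℂ) * u + p) ^ (k + 1)) / (p : ℂ) ^ (k + 1)) := by
    rw [hvu, Odd.neg_pow hk.add_one, div_pow]
  rw [mul_pow] at h1
  have h2 : (Sq D)⁻¹ * Sq D = 1 := inv_mul_cancel₀ hSq
  have h3 : (p : ℂ) ^ k * p = p ^ (k + 1) := (pow_succ _ _).symm
  have h4 : (p : ℂ) ^ (k + 1) ≠ 0 := pow_ne_zero _ hp0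
  obtain ⟨W, hW⟩ : ∃ W : ℂ, W = (((D * c : ℤ) : ℂ) * u + p) ^ (k + 1) := ⟨_, rfl⟩
  rw [← hW] at h1 ⊢
  have h5 : (p : ℂ) ^ (k + 1) * (v ^ (k + 1) * u ^ (k + 1)) = -W := by
    rw [h1]
    field_simp
  obtain ⟨QC, hQ⟩ : ∃ QC : ℂ, QC =
    (quadraticChar (ZMod p) (((-(D : ℤ) : ℤ)) : ZMod p) : ℂ) := ⟨_, rfl⟩
  rw [← hQ]
  linear_combination (-(QC * T1 A B C X Y k u)) * h5 -
    (p ^ k * p * QC * v ^ (k + 1) * u ^ (k + 1) * T1 A B C X Y k u) * h2 -
    (QC * v ^ (k + 1) * u ^ (k + 1) * T1 A B C X Y k u) * h3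

theorem recip {D : ℕ} (hD : D % 4 = 3) {p : ℕ} [Fact p.Prime] (hp2 : p ≠ 2) :
    quadraticChar (ZMod p) (((-(D : ℤ) : ℤ)) : ZMod p) = jacobiSym p D := by
  have h1 : quadraticChar (ZMod p) (((-(D : ℤ) : ℤ)) : ZMod p) = legendreSym p (-(D : ℤ)) := rfl
  have hodd : Odd p := (Fact.out : p.Prime).odd_of_ne_two hp2
  have hDodd : Odd D := by
    rw [Nat.odd_iff]
    omega
  rw [h1, jacobiSym.legendreSym.to_jacobiSym, jacobiSym.neg _ hodd]
  have h2 : p % 4 = 1 ∨ p % 4 = 3 := by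
    have := Nat.odd_iff.1 hodd
    omega
  rcases h2 with h2 | h2
  · rw [ZMod.χ₄_nat_one_mod_four h2, one_mul, jacobiSym.quadratic_reciprocity_one_mod_four' hDodd h2]
  · rw [ZMod.χ₄_nat_three_mod_four h2, jacobiSym.quadratic_reciprocity_three_mod_four hD h2]
    ring

theorem law_gen (h : Frm D A B C X Y N) (hO : OddD D) (hS : Sm A B C X Y) (hP : StPoisK)
    {k : ℕ} (hk : Even k) (χ : DirichletCharacter ℂ D)
    (hχ : ∀ n : ℤ, χ n = (jacobiSym n D : ℂ)) (g : SL(2, ℤ)) (hdvd : (D : ℤ) ∣ g 1 0)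
    {u : ℂ} (hu : 0 < u.im) :
    T1 A B C X Y k (((g 0 0 : ℂ) * u + g 0 1) / ((g 1 0 : ℂ) * u + g 1 1)) =
      χ (g 1 1 : ℤ) * ((g 1 0 : ℂ) * u + g 1 1) ^ (k + 1) * T1 A B C X Y k u := by
  obtain ⟨-, hD4, hD3⟩ := hO
  have hD0 : D ≠ 0 := by omega
  have hdet : g 0 0 * g 1 1 - g 0 1 * g 1 0 = 1 := by
    have h1 := g.det_coe
    rw [Matrix.det_fin_two] at h1
    exact h1
  by_cases hc : g 1 0 = 0
  · rw [hc, mul_zero, sub_zero] at hdet
    rcases Int.eq_one_or_neg_one_of_mul_eq_one' hdet with ⟨h1, h2⟩ | ⟨h1, h2⟩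
    · have h3 : ((g 0 0 : ℂ) * u + g 0 1) / ((g 1 0 : ℂ) * u + g 1 1) = u + (g 0 1 : ℤ) := by
        rw [h1, h2, hc]
        push_cast
        ring
      rw [h3, T1_add_int, h2, hc]
      push_cast
      rw [map_one]
      ring
    · have h3 : ((g 0 0 : ℂ) * u + g 0 1) / ((g 1 0 : ℂ) * u + g 1 1) = u + (-g 0 1 : ℤ) := by
        rw [h1, h2, hc]
        push_cast
        ring
      have h4 : χ ((-1 : ℤ) : ZMod D) = -1 := by
        rw [hχ, jacobiSym.at_neg_one (by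
          rw [Nat.odd_iff]
          omega), ZMod.χ₄_nat_three_mod_four hD4]
        norm_num
      rw [h3, T1_add_int, h2, h4, hc]
      have h5 : (((0 : ℤ) : ℂ) * u + ((-1 : ℤ) : ℂ)) ^ (k + 1) = -1 := by
        push_cast
        rw [zero_mul, zero_add, Odd.neg_one_pow hk.add_one]
      rw [h5]
      ring
  · obtain ⟨c, hcD⟩ := hdvd
    have hcop : IsCoprime (g 1 1) ((g 1 0).natAbs : ℤ) := by
      have h1 : IsCoprime (g 1 1) (g 1 0) := ⟨g 0 0, -g 0 1, by linarith⟩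
      rw [Int.natCast_natAbs]
      rcases abs_choice (g 1 0) with h2 | h2
      · rw [h2]
        exact h1
      · rw [h2]
        exact h1.neg_right
    obtain ⟨p, hpgt, hpp, hpmod⟩ := Nat.forall_exists_prime_gt_and_zmodEq
      (A.natAbs + D + 2) (q := (g 1 0).natAbs) (a := g 1 1) (Int.natAbs_ne_zero.2 hc) hcop
    have : Fact p.Prime := ⟨hpp⟩
    have hp2 : p ≠ 2 := by omega
    have hA0 : A ≠ 0 := by
      rintro rfl
      have h1 := h.disc
      have h2 : B ^ 2 = -(D : ℤ) := by linarith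
      have h3 : (0 : ℤ) < D := by exact_mod_cast Nat.pos_of_ne_zero hD0
      nlinarith [sq_nonneg B]
    have hpA : ¬ (p : ℤ) ∣ A := by
      intro hdv
      have h1 := Int.natAbs_dvd_natAbs.2 hdv
      rw [Int.natAbs_natCast] at h1
      have h2 := Nat.le_of_dvd (Int.natAbs_pos.2 hA0) h1
      omega
    have hpD : ¬ (p : ℤ) ∣ D := by
      intro hdv
      have h1 : p ∣ D := by exact_mod_cast hdv
      have h2 := Nat.le_of_dvd (Nat.pos_of_ne_zero hD0) h1
      omega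
    obtain ⟨n, hn⟩ : ∃ n : ℤ, (p : ℤ) = g 1 1 + g 1 0 * n := by
      have h1 : ((g 1 0).natAbs : ℤ) ∣ (p : ℤ) - g 1 1 := hpmod.symm.dvd
      rw [Int.natAbs_dvd] at h1
      obtain ⟨n, hn⟩ := h1
      exact ⟨n, by linarith⟩
    have hdet2 : g 0 0 * p - (g 0 0 * n + g 0 1) * (D * c) = 1 := by
      rw [← hcD, hn]
      linear_combination hdet
    have hu' : 0 < (u + (-n : ℤ)).im := by
      rw [Complex.add_im, Complex.intCast_im, add_zero]
      exact hu
    have key := law_prime h hD0 hS hP hk hp2 hpA hpD hdet2 hu'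
    have e1 : ((g 0 0 : ℤ) : ℂ) * (u + (-n : ℤ)) + ((g 0 0 * n + g 0 1 : ℤ) : ℂ) =
        (g 0 0 : ℂ) * u + g 0 1 := by
      push_cast
      ring
    have e2 : ((D * c : ℤ) : ℂ) * (u + (-n : ℤ)) + (p : ℂ) = (g 1 0 : ℂ) * u + g 1 1 := by
      have e3 : (p : ℂ) = (g 1 1 : ℂ) + g 1 0 * n := by exact_mod_cast congrArg (Int.cast : ℤ → ℂ) hn
      rw [← hcD, e3]
      push_cast
      ring
    rw [e1, e2, T1_add_int, recip hD4 hp2] at key
    rw [key, ← hχ]
    congr 3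
    have h5 : ((g 1 1 : ℤ) : ZMod D) = (((p : ℕ) : ℤ) : ZMod D) := by
      rw [ZMod.intCast_eq_intCast_iff_dvd_sub]
      rw [hn, hcD]
      exact ⟨c * n, by ring⟩
    rw [h5]

end law

section field

variable {F : Type} [Field F] [NumberField F] {D : ℕ} {s : 𝓞 F} {σ : F →+* ℂ}
  {χ : DirichletCharacter ℂ D} {cj : 𝓞 F ≃+* 𝓞 F} {a : Ideal (𝓞 F)}

theorem exists_frmD (hB : StBaseD) (hTh : StThBD) (hD : DatD D s σ χ cj) (ha : a ≠ ⊥)
    {x y : 𝓞 F} (h : OBasis σ a x y) :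
    ∃ A B C : ℤ, Frm D A B C (σ x) (σ y) (Ideal.absNorm a : ℝ) := by
  have hN : (0 : ℝ) < (Ideal.absNorm a : ℝ) := by
    have : Ideal.absNorm a ≠ 0 := fun h0 => ha (Ideal.absNorm_eq_zero_iff.1 h0)
    exact_mod_cast Nat.pos_of_ne_zero this
  have hQ := (hTh D F _ _ s σ χ cj a 0 0 1 hD ha (one_dvd _)).1
  obtain ⟨nA, hA⟩ := hQ x (mem1 h)
  obtain ⟨nC, hC⟩ := hQ y (mem2 h)
  obtain ⟨nB, hBn⟩ := hQ (x + y) (a.add_mem (mem1 h) (mem2 h))
  unfold Qa at hA hC hBn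
  rw [div_eq_iff hN.ne'] at hA hC hBn
  refine ⟨nA, nB - nA - nC, nC, hN, (hB D F _ _ s σ χ cj hD).2.2.1 a x y h, ?_, ?_, ?_⟩
  · rw [show ((x + y : 𝓞 F) : F) = (x : F) + y from rfl, map_add, Complex.normSq_add, hA, hC]
      at hBn
    push_cast
    linear_combination hBn
  · rw [hA]
    push_cast
    ring
  · rw [hC]
    push_cast
    ring

/-- The parametrisation of the ideal. -/
noncomputable def parD (hB : StBaseD) (hD : DatD D s σ χ cj) {x y : 𝓞 F} (h : OBasis σ a x y) :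
    ℤ × ℤ ≃ a :=
  Equiv.ofBijective (fun p : ℤ × ℤ => (⟨(p.1 : 𝓞 F) * x + (p.2 : 𝓞 F) * y,
    (h.mem _).2 ⟨p.1, p.2, rfl⟩⟩ : a)) (by
    constructor
    · intro p p' e
      have e1 : (p.1 : 𝓞 F) * x + (p.2 : 𝓞 F) * y = (p'.1 : 𝓞 F) * x + (p'.2 : 𝓞 F) * y :=
        congrArg Subtype.val e
      have e2 := (hB D F _ _ s σ χ cj hD).2.2.2.1 a x y h (p.1 - p'.1) (p.2 - p'.2) (by
        push_cast
        linear_combination e1)
      exact Prod.ext (by omega) (by omega)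
    · rintro ⟨z, hz⟩
      obtain ⟨m, n, e⟩ := (h.mem z).1 hz
      exact ⟨(m, n), Subtype.ext e.symm⟩)

theorem parD_val (hB : StBaseD) (hD : DatD D s σ χ cj) {x y : 𝓞 F} (h : OBasis σ a x y)
    (p : ℤ × ℤ) : σ ((parD hB hD h p : a) : 𝓞 F) = (p.1 : ℂ) * σ x + p.2 * σ y := by
  have e : ∀ n : ℤ, σ ((n : 𝓞 F) : F) = n := by
    intro n
    rw [show ((n : 𝓞 F) : F) = (n : F) from map_intCast (algebraMap (𝓞 F) F) n, map_intCast]
  show σ (((p.1 : 𝓞 F) * x + (p.2 : 𝓞 F) * y : 𝓞 F) : F) = _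
  push_cast
  rw [map_add, map_mul, map_mul, e, e]

theorem parD_Qa (hB : StBaseD) (hD : DatD D s σ χ cj) {x y : 𝓞 F} (h : OBasis σ a x y)
    {A B C : ℤ} (hF : Frm D A B C (σ x) (σ y) (Ideal.absNorm a : ℝ)) (p : ℤ × ℤ) :
    Qa σ a ((parD hB hD h p : a) : 𝓞 F) = qf A B C p := by
  unfold Qa
  rw [parD_val, hF.normSq, mul_div_cancel_right₀ _ hF.pos.ne']

theorem th_eqD (hB : StBaseD) (hD : DatD D s σ χ cj) {x y : 𝓞 F} (h : OBasis σ a x y)
    {A B C : ℤ} (hF : Frm D A B C (σ x) (σ y) (Ideal.absNorm a : ℝ)) (k : ℕ) (u : ℂ) :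
    th σ a k u = T1 A B C (σ x) (σ y) k u := by
  unfold th T1
  rw [← (parD hB hD h).tsum_eq]
  refine tsum_congr fun p => ?_
  rw [parD_val, parD_Qa hB hD h hF]
  congr 3

theorem smD (hB : StBaseD) (hTh : StThBD) (hD : DatD D s σ χ cj) (ha : a ≠ ⊥) {x y : 𝓞 F}
    (h : OBasis σ a x y) {A B C : ℤ}
    (hF : Frm D A B C (σ x) (σ y) (Ideal.absNorm a : ℝ)) : Sm A B C (σ x) (σ y) := by
  intro k t ht
  have h1 := (hTh D F _ _ s σ χ cj a k 0 1 hD ha (one_dvd _)).2.1 t ht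
  rw [← (parD hB hD h).summable_iff] at h1
  refine Summable.of_nonneg_of_le (fun p => by positivity) (fun p => ?_) h1
  simp only [Function.comp_apply]
  rw [parD_val, parD_Qa hB hD h hF]
  gcongr
  linarith [norm_nonneg ((p.1 : ℂ) * σ x + p.2 * σ y)]

end field

end ThGDX

open ThGX ThGDX in
theorem stThGD (h1 : StPoisK) (h2 : StBaseD) (_h3 : StBasD) (h4 : StThBD) (_h5 : StThSD) :
    StThGD := by
  intro D F _ _ s σ χ cj a k hD ha hk g z hz hdvd
  obtain ⟨x, y, hb⟩ := (h2 D F _ _ s σ χ cj hD).1 a ha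
  obtain ⟨A, B, C, hF⟩ := exists_frmD h2 h4 hD ha hb
  have hS := smD h2 h4 hD ha hb hF
  rw [th_eqD h2 hD hb hF, th_eqD h2 hD hb hF]
  exact law_gen hF hD.odd hS h1 hk χ hD.chi g hdvd hz

end RZ

end Pool.Agent.Lib.MP_7c08ba_nt
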