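import Mathlib
import Pool.Agent.Lib.MP_7c08ba_nt.RZ.StG

set_option autoImplicit false

/-!
(G9) Laguerre theta series of ideals, every odd fundamental discriminant: the group `Γ₀(D)` and
the other cusps.
-/

namespace Pool.Agent.Lib.MP_7c08ba_nt

namespace RZ

open NumberField MeasureTheory UpperHalfPlane Set
open scoped MatrixGroups ComplexConjugate nonZeroDivisors

namespace ThlDAux

variable {F : Type} [Field F] [NumberField F]

theorem th_zero (σ : F →+* ℂ) (a : Ideal (𝓞 F)) (u : ℂ) :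
    th σ a 0 u = ∑' x : a, ee (Qa σ a x * u) := by
  simp [th]

theorem thG_zero (D : ℕ) (s : 𝓞 F) (σ : F →+* ℂ) (a : Ideal (𝓞 F)) (g : ℕ) (u : ℂ) :
    thG D s σ a g 0 u =
      ∑' x : (a * ram s g : Ideal (𝓞 F)), ee (((Qa σ a x / D : ℝ) : ℂ) * u) := by
  simp [thG]

theorem summ_sub (I J : Ideal (𝓞 F)) (hIJ : ∀ x, x ∈ I → x ∈ J) (f g : 𝓞 F → ℝ)
    (hf : Summable fun x : J => f (x : 𝓞 F)) (hfg : ∀ x, g x = f x) :
    Summable fun x : I => g (x : 𝓞 F) := by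
  have h := hf.comp_injective (i := fun x : I => (⟨(x : 𝓞 F), hIJ x x.2⟩ : J))
    (fun x y hxy => Subtype.ext (Subtype.mk.inj hxy))
  exact h.congr fun x => (hfg x).symm

theorem mem_left (I J : Ideal (𝓞 F)) (x : 𝓞 F) (h : x ∈ I * J) : x ∈ I :=
  (Ideal.mul_le_inf h).1

end ThlDAux

theorem stThlD (h1 : StRaise2) (h2 : StThGD) (h3 : StThCD) (_h4 : StBasD) (h5 : StThBD)
    (_h6 : StRam) : StThlD := by
  intro D F _ _ s σ χ cj hD
  have hD0 : (0 : ℝ) < D := by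
    have h : 0 < D := lt_trans (by norm_num) hD.odd.2.2
    exact_mod_cast h
  have hQ : ∀ (a : Ideal (𝓞 F)) (x : 𝓞 F), 0 ≤ Qa σ a x := fun a x =>
    div_nonneg (Complex.normSq_nonneg _) (Nat.cast_nonneg _)
  have hS : ∀ a : Ideal (𝓞 F), a ≠ ⊥ → ∀ y : ℝ, 0 < y →
      Summable fun x : a => Real.exp (-Qa σ a (x : 𝓞 F) * y) := by
    intro a ha y hy
    have h := (h5 D F _ _ s σ χ cj a 0 0 1 hD ha (one_dvd _)).2.1 y hy
    refine h.congr fun x => ?_
    rw [pow_zero, one_mul, neg_mul, mul_comm y]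
  have hS' : ∀ (a : Ideal (𝓞 F)) (g : ℕ), a ≠ ⊥ → ∀ y : ℝ, 0 < y →
      Summable fun x : (a * ram s g : Ideal (𝓞 F)) =>
        Real.exp (-(Qa σ a (x : 𝓞 F) / D) * y) := by
    intro a g ha y hy
    exact ThlDAux.summ_sub (a * ram s g) a (fun x hx => ThlDAux.mem_left a (ram s g) x hx)
      (fun x => Real.exp (-Qa σ a x * (y / D))) (fun x => Real.exp (-(Qa σ a x / D) * y))
      (hS a ha (y / D) (div_pos hy hD0)) (fun x => by
        congr 1
        ring)
  refine ⟨?_, ?_⟩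
  · intro a r ha g z hz hg
    have hdet : (g 0 0 : ℝ) * (g 1 1 : ℝ) - (g 0 1 : ℝ) * (g 1 0 : ℝ) = 1 := by
      have := g.det_coe
      rw [Matrix.det_fin_two] at this
      exact_mod_cast this
    have key := h1 a a r (fun x : a => Qa σ a (x : 𝓞 F)) (fun x : a => Qa σ a (x : 𝓞 F))
      (g 0 0 : ℝ) (g 0 1 : ℝ) (g 1 0 : ℝ) (g 1 1 : ℝ) (χ (g 1 1 : ℤ))
      (fun x => hQ a x) (fun x => hQ a x) (hS a ha) (hS a ha) hdet
      (fun u hu => by
        have h := h2 D F _ _ s σ χ cj a 0 hD ha (by simp) g u hu hg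
        rw [ThlDAux.th_zero, ThlDAux.th_zero, zero_add, pow_one] at h
        simpa using h) z hz
    simpa [thl] using key
  · intro g hg
    obtain ⟨h, κ, hκ, hth⟩ := h3 D F _ _ s σ χ cj hD g hg
    refine ⟨h, κ, hκ, hth, ?_⟩
    intro a r u ha hco hu
    have key := h1 a (a * ram s g : Ideal (𝓞 F)) r (fun x : a => Qa σ a (x : 𝓞 F))
      (fun x : (a * ram s g : Ideal (𝓞 F)) => Qa σ a (x : 𝓞 F) / D)
      1 (h : ℝ) (-(g : ℝ)) (1 - (g : ℝ) * (h : ℝ))
      (κ * (jacobiSym (Ideal.absNorm a) (D / g) : ℂ))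
      (fun x => hQ a x) (fun x => div_nonneg (hQ a x) hD0.le) (hS a ha) (hS' a g ha)
      (by ring)
      (fun v hv => by
        have h' := hth a 0 v ha hco (by simp) hv
        rw [ThlDAux.th_zero, ThlDAux.thG_zero, zero_add, pow_one] at h'
        have e1 : (((1 : ℝ) : ℂ) * v + ((h : ℝ) : ℂ)) /
            (((-(g : ℝ) : ℝ) : ℂ) * v + ((1 - (g : ℝ) * (h : ℝ) : ℝ) : ℂ)) =
            (v + h) / (1 - g * (v + h)) := by
          push_cast
          congr 1 <;> ring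
        have e2 : (((-(g : ℝ) : ℝ) : ℂ) * v + ((1 - (g : ℝ) * (h : ℝ) : ℝ) : ℂ)) =
            1 - g * (v + h) := by
          push_cast
          ring
        rw [e1, e2, h']
        ring) u hu
    have e1 : (((1 : ℝ) : ℂ) * u + ((h : ℝ) : ℂ)) /
        (((-(g : ℝ) : ℝ) : ℂ) * u + ((1 - (g : ℝ) * (h : ℝ) : ℝ) : ℂ)) =
        (u + h) / (1 - g * (u + h)) := by
      push_cast
      congr 1 <;> ring
    have e2 : (((-(g : ℝ) : ℝ) : ℂ) * u + ((1 - (g : ℝ) * (h : ℝ) : ℝ) : ℂ)) =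
        1 - g * (u + h) := by
      push_cast
      ring
    rw [e1, e2] at key
    unfold thl thlG
    rw [key]
    push_cast
    ring

end RZ

end Pool.Agent.Lib.MP_7c08ba_nt
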