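import Pool.Agent.Lib.MP_7c08ba_nt.RZ.StA

set_option autoImplicit false

/-! Module A8: Hecke operators on eigenforms. -/

namespace Pool.Agent.Lib.MP_7c08ba_nt

namespace RZ

open UpperHalfPlane
open scoped MatrixGroups

namespace TrFAux

variable {w : ℕ} (f : CuspForm 𝒮ℒ (w : ℤ))

lemma hasSum_f {z : ℂ} (hz : 0 < z.im) :
    HasSum (fun n : ℕ => coef f n * Complex.exp (2 * Real.pi * Complex.I * z) ^ n)
      (f (ofComplex z)) := by
  have h := ModularForm.hasSum_qExpansion (f := f) one_pos one_mem_strictPeriods_SL ⟨z, hz⟩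
  rw [ofComplex_apply_of_im_pos hz]
  refine h.congr_fun fun n => ?_
  have h1 : Function.Periodic.qParam 1 ((⟨z, hz⟩ : ℍ) : ℂ) =
      Complex.exp (2 * Real.pi * Complex.I * z) := by
    unfold Function.Periodic.qParam
    congr 1
    simp
  rw [h1]
  rfl

lemma coef_zero : coef f 0 = 0 :=
  CuspFormClass.qExpansion_coeff_zero f one_pos one_mem_strictPeriods_SL

/-- sums of roots of unity -/
lemma sum_root {d : ℕ} (hd : 0 < d) (n : ℕ) :
    ∑ b ∈ Finset.range d, (Complex.exp (2 * Real.pi * Complex.I / d) ^ n) ^ b =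
      if d ∣ n then (d : ℂ) else 0 := by
  have hp := Complex.isPrimitiveRoot_exp d hd.ne'
  split_ifs with h
  · rw [(hp.pow_eq_one_iff_dvd n).mpr h]
    simp
  · have h1 : Complex.exp (2 * Real.pi * Complex.I / d) ^ n ≠ 1 := fun h2 =>
      h ((hp.pow_eq_one_iff_dvd n).mp h2)
    rw [geom_sum_eq h1, ← pow_mul, mul_comm n d, pow_mul, hp.pow_eq_one, one_pow, sub_self,
      zero_div]

/-- The term of the divisor `d`. -/
lemma hasSum_d {z : ℂ} (hz : 0 < z.im) {d e : ℕ} (hd : 0 < d) (he : 0 < e) :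
    HasSum (fun N : ℕ => if e ∣ N then coef f (d * (N / e)) *
        Complex.exp (2 * Real.pi * Complex.I * z) ^ N else 0)
      ((d : ℂ)⁻¹ * ∑ b ∈ Finset.range d, f (ofComplex (((e : ℂ) * z + b) / d))) := by
  have hdc : (d : ℂ) ≠ 0 := by exact_mod_cast hd.ne'
  have him : ∀ b : ℕ, 0 < (((e : ℂ) * z + b) / d).im := by
    intro b
    rw [Complex.div_natCast_im, Complex.add_im, Complex.natCast_im, add_zero, Complex.mul_im,
      Complex.natCast_im, Complex.natCast_re, zero_mul, add_zero]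
    positivity
  have h1 : HasSum (fun n : ℕ => ∑ b ∈ Finset.range d, coef f n *
      Complex.exp (2 * Real.pi * Complex.I * (((e : ℂ) * z + b) / d)) ^ n)
      (∑ b ∈ Finset.range d, f (ofComplex (((e : ℂ) * z + b) / d))) :=
    hasSum_sum fun b _ => hasSum_f f (him b)
  set Q : ℂ := Complex.exp (2 * Real.pi * Complex.I * ((e : ℂ) * z / d)) with hQ
  have h2 : HasSum (fun n : ℕ => if d ∣ n then coef f n * Q ^ n else 0)
      ((d : ℂ)⁻¹ * ∑ b ∈ Finset.range d, f (ofComplex (((e : ℂ) * z + b) / d))) := by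
    refine (h1.mul_left (d : ℂ)⁻¹).congr_fun fun n => ?_
    have h3 : ∀ b ∈ Finset.range d, coef f n *
        Complex.exp (2 * Real.pi * Complex.I * (((e : ℂ) * z + b) / d)) ^ n =
        coef f n * Q ^ n * (Complex.exp (2 * Real.pi * Complex.I / d) ^ n) ^ b := by
      intro b _
      have h4 : 2 * Real.pi * Complex.I * (((e : ℂ) * z + b) / d) =
          2 * Real.pi * Complex.I * ((e : ℂ) * z / d) + b * (2 * Real.pi * Complex.I / d) := by
        ring
      rw [h4, Complex.exp_add, mul_pow, Complex.exp_nat_mul, ← pow_mul, mul_comm b n, pow_mul]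
      ring
    rw [Finset.sum_congr rfl h3, ← Finset.mul_sum, sum_root hd]
    split_ifs with h
    · field_simp
    · ring
  -- from multiples of `d` to all integers
  have inj : ∀ {k : ℕ}, 0 < k → Function.Injective fun m : ℕ => k * m := fun hk a b hab =>
    Nat.eq_of_mul_eq_mul_left hk hab
  have h5 : HasSum (fun m : ℕ => coef f (d * m) * Q ^ (d * m))
      ((d : ℂ)⁻¹ * ∑ b ∈ Finset.range d, f (ofComplex (((e : ℂ) * z + b) / d))) := by
    have h6 := ((inj hd).hasSum_iff (f := fun n : ℕ => if d ∣ n then coef f n * Q ^ n else 0)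
      (fun x hx => by
        rw [if_neg]
        rintro ⟨c, rfl⟩
        exact hx ⟨c, rfl⟩)).mpr h2
    refine h6.congr_fun fun m => ?_
    simp
  rw [← (inj he).hasSum_iff (fun x hx => by
    rw [if_neg]
    rintro ⟨c, rfl⟩
    exact hx ⟨c, rfl⟩)]
  refine h5.congr_fun fun m => ?_
  simp only [Function.comp_apply, dvd_mul_right, if_true]
  rw [Nat.mul_div_cancel_left _ he]
  congr 1
  rw [hQ, ← Complex.exp_nat_mul, ← Complex.exp_nat_mul]
  congr 1
  push_cast
  field_simp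

/-- The coefficients. -/
lemma coef_sum (hf : IsEigen f) {r : ℕ} (hr : 0 < r) (N : ℕ) :
    ∑ d ∈ r.divisors, (((r / d : ℕ) : ℂ)) ^ (w - 1) *
      (if (r / d) ∣ N then coef f (d * (N / (r / d))) else 0) = coef f r * coef f N := by
  rcases Nat.eq_zero_or_pos N with rfl | hN
  · rw [coef_zero, mul_zero]
    refine Finset.sum_eq_zero fun d _ => ?_
    simp [coef_zero]
  rw [hf.mul r N hr hN]
  have h1 : ∑ d ∈ r.divisors, (((r / d : ℕ) : ℂ)) ^ (w - 1) *
      (if (r / d) ∣ N then coef f (d * (N / (r / d))) else 0) =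
      ∑ d ∈ r.divisors, (fun e : ℕ => (e : ℂ) ^ (w - 1) *
        (if e ∣ N then coef f ((r / e) * (N / e)) else 0)) (r / d) := by
    refine Finset.sum_congr rfl fun d hd => ?_
    have hd1 : d ∣ r := Nat.dvd_of_mem_divisors hd
    simp only
    rw [Nat.div_div_self hd1 hr.ne']
  rw [h1, Nat.sum_div_divisors r (fun e : ℕ => (e : ℂ) ^ (w - 1) *
        (if e ∣ N then coef f ((r / e) * (N / e)) else 0))]
  have h2 : (r.gcd N).divisors = r.divisors.filter (fun e => e ∣ N) := by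
    ext e
    simp only [Nat.mem_divisors, Finset.mem_filter, Nat.dvd_gcd_iff]
    have h3 : r.gcd N ≠ 0 := (Nat.gcd_pos_of_pos_left _ hr).ne'
    constructor
    · rintro ⟨⟨h4, h5⟩, -⟩
      exact ⟨⟨h4, hr.ne'⟩, h5⟩
    · rintro ⟨⟨h4, -⟩, h5⟩
      exact ⟨⟨h4, h5⟩, h3⟩
  rw [h2, Finset.sum_filter]
  refine Finset.sum_congr rfl fun e he => ?_
  have he1 : e ∣ r := Nat.dvd_of_mem_divisors he
  split_ifs with h
  · rw [Nat.div_mul_div_comm he1 h, sq]
  · ring

end TrFAux

open TrFAux in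
theorem stTrF : StTrF := by
  intro w f hf r z hr hz
  have h1 : HasSum (fun N : ℕ => ∑ d ∈ r.divisors, (((r / d : ℕ) : ℂ)) ^ (w - 1) *
      (if (r / d) ∣ N then coef f (d * (N / (r / d))) *
        Complex.exp (2 * Real.pi * Complex.I * z) ^ N else 0))
      (∑ d ∈ r.divisors, (((r / d : ℕ) : ℂ)) ^ (w - 1) * ((d : ℂ)⁻¹ *
        ∑ b ∈ Finset.range d, f (ofComplex ((((r / d : ℕ) : ℂ) * z + b) / d)))) := by
    refine hasSum_sum fun d hd => HasSum.mul_left _ ?_
    have hd1 : d ∣ r := Nat.dvd_of_mem_divisors hd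
    have hd0 : 0 < d := Nat.pos_of_mem_divisors hd
    exact hasSum_d f hz hd0 (Nat.div_pos (Nat.le_of_dvd hr hd1) hd0)
  have h2 := (hasSum_f f hz).mul_left (coef f r)
  have h3 : ∑ d ∈ r.divisors, ∑ b ∈ Finset.range d, (((r / d : ℕ) : ℂ)) ^ (w - 1) * (d : ℂ)⁻¹ *
      f (ofComplex ((((r / d : ℕ) : ℂ) * z + b) / d)) =
      ∑ d ∈ r.divisors, (((r / d : ℕ) : ℂ)) ^ (w - 1) * ((d : ℂ)⁻¹ *
        ∑ b ∈ Finset.range d, f (ofComplex ((((r / d : ℕ) : ℂ) * z + b) / d))) := by
    refine Finset.sum_congr rfl fun d _ => ?_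
    rw [← Finset.mul_sum, mul_assoc]
  rw [h3]
  refine h1.unique (h2.congr_fun fun N => ?_)
  rw [← mul_assoc, ← coef_sum f hf hr N, Finset.sum_mul]
  refine Finset.sum_congr rfl fun d _ => ?_
  split_ifs
  · ring
  · ring

end RZ

end Pool.Agent.Lib.MP_7c08ba_nt
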