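import Pool.Agent.Lib.MP_7c08ba_nt.RZ.StA

set_option autoImplicit false

/-!
(A9) Hecke operators on Poincaré series: two parametrisations of the matrices of determinant `r`
modulo translations on the left.
-/

namespace Pool.Agent.Lib.MP_7c08ba_nt

namespace RZ

namespace TrP

/-- integral two by two matrices -/
@[ext] structure Qd where
  /-- entry -/
  a : ℤ
  /-- entry -/
  b : ℤ
  /-- entry -/
  c : ℤ
  /-- entry -/
  d : ℤ

/-- the determinant -/
def Qd.det (p : Qd) : ℤ := p.a * p.d - p.b * p.c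

/-- equality up to translation on the left -/
def Rel (p q : Qd) : Prop :=
  ∃ n : ℤ, q.a = p.a + n * p.c ∧ q.b = p.b + n * p.d ∧ q.c = p.c ∧ q.d = p.d

theorem Rel.symm {p q : Qd} (h : Rel p q) : Rel q p := by
  obtain ⟨n, h1, h2, h3, h4⟩ := h
  exact ⟨-n, by rw [h1, h3]; ring, by rw [h2, h4]; ring, h3.symm, h4.symm⟩

theorem Rel.trans {p q s : Qd} (h : Rel p q) (h' : Rel q s) : Rel p s := by
  obtain ⟨n, h1, h2, h3, h4⟩ := h
  obtain ⟨k, k1, k2, k3, k4⟩ := h'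
  exact ⟨n + k, by rw [k1, h1, h3]; ring, by rw [k2, h2, h4]; ring, k3.trans h3, k4.trans h4⟩

/-- sums over two systems of representatives -/
theorem tsum_reps {I J : Type} (f : I → Qd) (g : J → Qd)
    (fi : ∀ i i', Rel (f i) (f i') → i = i') (gi : ∀ j j', Rel (g j) (g j') → j = j')
    (fs : ∀ j, ∃ i, Rel (f i) (g j)) (gs : ∀ i, ∃ j, Rel (g j) (f i))
    (Φ : Qd → ℂ) (hΦ : ∀ p q, Rel p q → Φ p = Φ q) : ∑' i, Φ (f i) = ∑' j, Φ (g j) := by
  choose E hE using gs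
  have hbij : Function.Bijective E := by
    constructor
    · intro i i' h
      apply fi
      have h1 := hE i
      rw [h] at h1
      exact h1.symm.trans (hE i')
    · intro j
      obtain ⟨i, hi⟩ := fs j
      exact ⟨i, gi _ _ ((hE i).trans hi)⟩
  rw [← (Equiv.ofBijective E hbij).tsum_eq]
  exact tsum_congr fun i => (hΦ _ _ (hE i)).symm

theorem bez {v : ℤ × ℤ} (hv : IsCoprime v.1 v.2) :
    Int.gcdB v.1 v.2 * v.2 - -Int.gcdA v.1 v.2 * v.1 = 1 := by
  have h1 := Int.gcd_eq_gcd_ab v.1 v.2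
  rw [Int.isCoprime_iff_gcd_eq_one.1 hv] at h1
  push_cast at h1
  linarith

/-- right multiplication by `(e, b; 0, d)` -/
def m1 (e d b : ℕ) (v : ℤ × ℤ) : Qd :=
  ⟨Int.gcdB v.1 v.2 * e, Int.gcdB v.1 v.2 * b + -Int.gcdA v.1 v.2 * d, v.1 * e, v.1 * b + v.2 * d⟩

/-- left multiplication by `(e, t; 0, g)` -/
def m2 (e g t : ℕ) (v : ℤ × ℤ) : Qd :=
  ⟨e * Int.gcdB v.1 v.2 + t * v.1, e * -Int.gcdA v.1 v.2 + t * v.2, g * v.1, g * v.2⟩

theorem eq_of_dvd_dvd {x y : ℕ} (h : (x : ℤ) ∣ y) (h' : (y : ℤ) ∣ x) : x = y :=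
  Nat.dvd_antisymm (Int.natCast_dvd_natCast.1 h) (Int.natCast_dvd_natCast.1 h')

theorem eq_of_lt {x y n : ℕ} (hx : x < n) (hy : y < n) (h : (n : ℤ) ∣ (y : ℤ) - x) : x = y := by
  have h2 : (y : ℤ) % n = (x : ℤ) % n :=
    Int.emod_eq_emod_iff_emod_sub_eq_zero.2 (Int.emod_eq_zero_of_dvd h)
  rw [Int.emod_eq_of_lt (by omega) (by omega), Int.emod_eq_of_lt (by omega) (by omega)] at h2
  omega

theorem inj1 {r : ℕ} (hr : 0 < r) {e d b e' d' b' : ℕ} {v v' : ℤ × ℤ} (hv : IsCoprime v.1 v.2)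
    (hv' : IsCoprime v'.1 v'.2) (he : e * d = r) (he' : e' * d' = r) (hb : b < d) (hb' : b' < d')
    (h : Rel (m1 e d b v) (m1 e' d' b' v')) : d = d' ∧ b = b' ∧ v = v' := by
  obtain ⟨n, h1, h2, h3, h4⟩ := h
  have z1 := bez hv
  have z2 := bez hv'
  unfold m1 at h1 h2 h3 h4
  dsimp only at h1 h2 h3 h4
  generalize Int.gcdB v.1 v.2 = A at *
  generalize Int.gcdA v.1 v.2 = B at *
  generalize Int.gcdB v'.1 v'.2 = A' at *
  generalize Int.gcdA v'.1 v'.2 = B' at *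
  obtain ⟨c, δ⟩ := v
  obtain ⟨c', δ'⟩ := v'
  dsimp only at *
  have hee : e = e' := by
    apply eq_of_dvd_dvd
    · refine ⟨(A + n * c) * δ' + B' * c, ?_⟩
      linear_combination (-(e' : ℤ)) * z2 + δ' * h1 + B' * h3
    · refine ⟨A' * δ + (B - n * δ) * c', ?_⟩
      linear_combination (-(e : ℤ)) * z1 - δ * h1 + (n * δ - B) * h3
  subst hee
  have he0 : 0 < e := by
    rcases Nat.eq_zero_or_pos e with h | h
    · rw [h] at he; omega
    · exact h
  have hdd : d = d' := by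
    apply Nat.eq_of_mul_eq_mul_left he0
    rw [he, he']
  subst hdd
  have hez : (e : ℤ) ≠ 0 := by exact_mod_cast he0.ne'
  have hc : c' = c := mul_right_cancel₀ hez h3
  subst hc
  have hA : A' = A + n * c' := mul_right_cancel₀ hez (by rw [h1]; ring)
  have hbb : b = b' := by
    apply eq_of_lt hb hb'
    refine ⟨(-B + n * δ + B') * δ' + B' * (δ - δ'), ?_⟩
    linear_combination (-((b' : ℤ) - b)) * z2 + δ' * h2 + B' * h4 - δ' * b * hA
  subst hbb
  have hd0 : (d : ℤ) ≠ 0 := by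
    have : 0 < d := by omega
    exact_mod_cast this.ne'
  have hδ : δ' = δ := mul_right_cancel₀ hd0 (by linear_combination h4)
  exact ⟨rfl, rfl, by rw [hδ]⟩

theorem surj1 {r : ℕ} (hr : 0 < r) (M : Qd) (hM : M.det = r) :
    ∃ (e d b : ℕ) (v : ℤ × ℤ), e * d = r ∧ b < d ∧ IsCoprime v.1 v.2 ∧ Rel (m1 e d b v) M := by
  obtain ⟨A, B, C, D⟩ := M
  unfold Qd.det at hM
  dsimp only at hM
  set e : ℕ := Int.gcd A C with he
  have hrz : (0 : ℤ) < r := by exact_mod_cast hr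
  have he0 : 0 < e := by
    rcases Nat.eq_zero_or_pos e with h | h
    · rw [he, Int.gcd_eq_zero_iff] at h
      rw [h.1, h.2] at hM
      simp at hM
      omega
    · exact h
  have hez : (e : ℤ) ≠ 0 := by exact_mod_cast he0.ne'
  have hez' : (0 : ℤ) < e := by exact_mod_cast he0
  obtain ⟨a1, ha1⟩ : (e : ℤ) ∣ A := Int.gcd_dvd_left ..
  obtain ⟨c1, hc1⟩ : (e : ℤ) ∣ C := Int.gcd_dvd_right ..
  set x := Int.gcdA A C with hx
  set y := Int.gcdB A C with hy
  have hbez : (e : ℤ) = A * x + C * y := Int.gcd_eq_gcd_ab A C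
  have h1 : a1 * x + c1 * y = 1 := by
    apply mul_left_cancel₀ hez
    rw [ha1, hc1] at hbez
    linear_combination -hbez
  have hd0 : (e : ℤ) * (a1 * D - c1 * B) = r := by
    rw [ha1, hc1] at hM
    linear_combination hM
  have hpos : 0 < a1 * D - c1 * B := by
    by_contra hcon
    push Not at hcon
    have := mul_nonpos_of_nonneg_of_nonpos hez'.le hcon
    omega
  obtain ⟨d, hd⟩ : ∃ d : ℕ, (d : ℤ) = a1 * D - c1 * B := ⟨(a1 * D - c1 * B).toNat, by omega⟩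
  have hdpos : 0 < d := by
    have : (0 : ℤ) < d := by rw [hd]; exact hpos
    exact_mod_cast this
  have hdz : (d : ℤ) ≠ 0 := by exact_mod_cast hdpos.ne'
  set b0 := x * B + y * D with hb0
  have hm0 := Int.emod_nonneg b0 hdz
  have hm1 := Int.emod_lt_of_pos b0 (by exact_mod_cast hdpos : (0 : ℤ) < d)
  obtain ⟨b, hb⟩ : ∃ b : ℕ, (b : ℤ) = b0 % d := ⟨(b0 % d).toNat, by omega⟩
  set k := b0 / d with hk
  have hbk : b0 = b + k * d := by
    have := Int.emod_add_mul_ediv b0 d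
    rw [hb, hk]
    linear_combination -this
  have hcop : IsCoprime c1 (x + k * c1) := ⟨y - k * a1, a1, by linear_combination h1⟩
  have hzz := bez (v := (c1, x + k * c1)) hcop
  dsimp only at hzz
  refine ⟨e, d, b, (c1, x + k * c1), ?_, ?_, hcop, ?_⟩
  · have : ((e * d : ℕ) : ℤ) = r := by push_cast; rw [hd]; exact hd0
    exact_mod_cast this
  · have : (b : ℤ) < d := by rw [hb]; exact hm1
    exact_mod_cast this
  · unfold m1 Rel
    dsimp only
    generalize Int.gcdB c1 (x + k * c1) = A' at *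
    generalize Int.gcdA c1 (x + k * c1) = B' at *
    have e1 : A' + (a1 * B' + (-y + k * a1) * A') * c1 = a1 := by
      linear_combination a1 * hzz - A' * h1
    have e2 : -B' + (a1 * B' + (-y + k * a1) * A') * (x + k * c1) = -y + k * a1 := by
      linear_combination (-y + k * a1) * hzz + B' * h1
    refine ⟨a1 * B' + (-y + k * a1) * A', ?_, ?_, ?_, ?_⟩
    · rw [ha1]
      linear_combination (-(e : ℤ)) * e1
    · have e3 : a1 * b + (-y + k * a1) * d = B := by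
        have e4 : a1 * b0 - y * d = B := by
          rw [hb0, hd]
          linear_combination B * h1
        rw [hbk] at e4
        linear_combination e4
      rw [← e3]
      linear_combination (-(b : ℤ)) * e1 - (d : ℤ) * e2
    · rw [hc1]; ring
    · have e4 : c1 * b0 + x * d = D := by
        rw [hb0, hd]
        linear_combination D * h1
      rw [hbk] at e4
      linear_combination -e4

theorem inj2 {e g t e' g' t' : ℕ} {v v' : ℤ × ℤ} (hv : IsCoprime v.1 v.2)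
    (hv' : IsCoprime v'.1 v'.2) (hg : e * g = e' * g') (ht : t < g) (ht' : t' < g')
    (h : Rel (m2 e g t v) (m2 e' g' t' v')) : g = g' ∧ t = t' ∧ v = v' := by
  obtain ⟨n, h1, h2, h3, h4⟩ := h
  have z1 := bez hv
  have z2 := bez hv'
  unfold m2 at h1 h2 h3 h4
  dsimp only at h1 h2 h3 h4
  have hgg : g = g' := by
    apply eq_of_dvd_dvd
    · refine ⟨Int.gcdB v'.1 v'.2 * v.2 - -Int.gcdA v'.1 v'.2 * v.1, ?_⟩
      linear_combination (-(g' : ℤ)) * z2 + Int.gcdB v'.1 v'.2 * h4 + Int.gcdA v'.1 v'.2 * h3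
    · refine ⟨Int.gcdB v.1 v.2 * v'.2 - -Int.gcdA v.1 v.2 * v'.1, ?_⟩
      linear_combination (-(g : ℤ)) * z1 - Int.gcdB v.1 v.2 * h4 - Int.gcdA v.1 v.2 * h3
  subst hgg
  have hg0 : 0 < g := by omega
  have hgz : (g : ℤ) ≠ 0 := by exact_mod_cast hg0.ne'
  have hee : e = e' := Nat.eq_of_mul_eq_mul_right hg0 hg
  subst hee
  have hvv : v' = v := Prod.ext (mul_left_cancel₀ hgz h3) (mul_left_cancel₀ hgz h4)
  subst hvv
  have h5 : ((t' : ℤ) - t - n * g) = 0 := by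
    have k1 : ((t' : ℤ) - t - n * g) * v'.1 = 0 := by linear_combination h1
    have k2 : ((t' : ℤ) - t - n * g) * v'.2 = 0 := by linear_combination h2
    linear_combination (-((t' : ℤ) - t - n * g)) * z1 + Int.gcdB v'.1 v'.2 * k2 +
      Int.gcdA v'.1 v'.2 * k1
  refine ⟨rfl, ?_, rfl⟩
  exact eq_of_lt ht ht' ⟨n, by linear_combination h5⟩

theorem surj2 {r : ℕ} (hr : 0 < r) (M : Qd) (hM : M.det = r) :
    ∃ (e g t : ℕ) (v : ℤ × ℤ), e * g = r ∧ t < g ∧ IsCoprime v.1 v.2 ∧ Rel (m2 e g t v) M := by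
  obtain ⟨A, B, C, D⟩ := M
  unfold Qd.det at hM
  dsimp only at hM
  set g : ℕ := Int.gcd C D with hg
  have hrz : (0 : ℤ) < r := by exact_mod_cast hr
  have hg0 : 0 < g := by
    rcases Nat.eq_zero_or_pos g with h | h
    · rw [hg, Int.gcd_eq_zero_iff] at h
      rw [h.1, h.2] at hM
      simp at hM
      omega
    · exact h
  have hgz : (g : ℤ) ≠ 0 := by exact_mod_cast hg0.ne'
  have hgz' : (0 : ℤ) < g := by exact_mod_cast hg0
  obtain ⟨c1, hc1⟩ : (g : ℤ) ∣ C := Int.gcd_dvd_left ..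
  obtain ⟨d1, hd1⟩ : (g : ℤ) ∣ D := Int.gcd_dvd_right ..
  have hbez : (g : ℤ) = C * Int.gcdA C D + D * Int.gcdB C D := Int.gcd_eq_gcd_ab C D
  have h1 : c1 * Int.gcdA C D + d1 * Int.gcdB C D = 1 := by
    apply mul_left_cancel₀ hgz
    generalize Int.gcdA C D = x at *
    generalize Int.gcdB C D = y at *
    rw [hc1, hd1] at hbez
    linear_combination -hbez
  have hcop : IsCoprime c1 d1 := ⟨Int.gcdA C D, Int.gcdB C D, by linear_combination h1⟩
  have he0 : (g : ℤ) * (A * d1 - B * c1) = r := by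
    rw [hc1, hd1] at hM
    linear_combination hM
  have hpos : 0 < A * d1 - B * c1 := by
    by_contra hcon
    push Not at hcon
    have := mul_nonpos_of_nonneg_of_nonpos hgz'.le hcon
    omega
  obtain ⟨e, he⟩ : ∃ e : ℕ, (e : ℤ) = A * d1 - B * c1 := ⟨(A * d1 - B * c1).toNat, by omega⟩
  have hzz := bez (v := (c1, d1)) hcop
  dsimp only at hzz
  unfold m2 Rel
  dsimp only
  set t0 := B * Int.gcdB c1 d1 - A * -Int.gcdA c1 d1 with ht0
  have hm0 := Int.emod_nonneg t0 hgz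
  have hm1 := Int.emod_lt_of_pos t0 hgz'
  obtain ⟨t, ht⟩ : ∃ t : ℕ, (t : ℤ) = t0 % g := ⟨(t0 % g).toNat, by omega⟩
  have htk : t0 = t + t0 / g * g := by
    have := Int.emod_add_mul_ediv t0 g
    rw [ht]
    linear_combination -this
  refine ⟨e, g, t, (c1, d1), ?_, ?_, hcop, t0 / g, ?_, ?_, hc1, hd1⟩
  · have : ((e * g : ℕ) : ℤ) = r := by push_cast; rw [he]; linear_combination he0
    exact_mod_cast this
  · have : (t : ℤ) < g := by rw [ht]; exact hm1
    exact_mod_cast this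
  · dsimp only
    generalize Int.gcdB c1 d1 = A' at *
    generalize Int.gcdA c1 d1 = B' at *
    rw [ht0] at htk
    rw [← ht0] at htk
    have e1 : (e : ℤ) * A' + t0 * c1 = A := by
      rw [he, ht0]
      linear_combination A * hzz
    rw [htk] at e1
    linear_combination -e1
  · dsimp only
    generalize Int.gcdB c1 d1 = A' at *
    generalize Int.gcdA c1 d1 = B' at *
    have e1 : (e : ℤ) * -B' + t0 * d1 = B := by
      rw [he, ht0]
      linear_combination B * hzz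
    rw [htk] at e1
    linear_combination -e1

/-! ### the terms -/

/-- the term of the Poincaré series attached to a matrix -/
noncomputable def term (w m : ℕ) (z : ℂ) (p : Qd) : ℂ :=
  (((p.c : ℂ) * z + p.d) ^ w)⁻¹ * ee (m * (((p.a : ℂ) * z + p.b) / ((p.c : ℂ) * z + p.d)))

theorem ee_add (x y : ℂ) : ee (x + y) = ee x * ee y := by
  unfold ee
  rw [← Complex.exp_add]
  congr 1
  ring

theorem ee_int (n : ℤ) : ee n = 1 := by
  unfold ee
  rw [Complex.exp_eq_one_iff]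
  exact ⟨n, by ring⟩

theorem norm_ee_le {z : ℂ} (hz : 0 ≤ z.im) : ‖ee z‖ ≤ 1 := by
  unfold ee
  rw [Complex.norm_exp]
  apply Real.exp_le_one_iff.2
  have : (2 * (Real.pi : ℂ) * Complex.I * z).re = -(2 * Real.pi * z.im) := by
    have : 2 * (Real.pi : ℂ) * Complex.I * z = ((2 * Real.pi : ℝ) : ℂ) * (Complex.I * z) := by
      push_cast; ring
    rw [this, Complex.re_ofReal_mul, Complex.I_mul_re]
    ring
  rw [this]
  have := Real.pi_pos
  have := mul_nonneg (mul_nonneg (by norm_num : (0 : ℝ) ≤ 2) this.le) hz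
  linarith

theorem term_rel {w m : ℕ} (hw : 1 ≤ w) (z : ℂ) (p q : Qd) (h : Rel p q) :
    term w m z p = term w m z q := by
  obtain ⟨n, h1, h2, h3, h4⟩ := h
  unfold term
  rw [h1, h2, h3, h4]
  rcases eq_or_ne ((p.c : ℂ) * z + p.d) 0 with h0 | h0
  · rw [h0, zero_pow (by omega), inv_zero, zero_mul, zero_mul]
  · congr 1
    have e1 : (m : ℂ) * ((((p.a + n * p.c : ℤ) : ℂ) * z + ((p.b + n * p.d : ℤ) : ℂ)) /
        ((p.c : ℂ) * z + p.d)) =
        m * (((p.a : ℂ) * z + p.b) / ((p.c : ℂ) * z + p.d)) + ((m * n : ℤ) : ℂ) := by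
      push_cast
      field_simp
      ring
    rw [e1, ee_add, ee_int, mul_one]

/-- the general term of the Poincaré series -/
noncomputable def pt (w m : ℕ) (z : ℂ) (v : Cop) : ℂ :=
  (((v.1.1 : ℂ) * z + v.1.2) ^ w)⁻¹ * ee (m * mob v.1 z)

theorem pt_summable (h : StPoiS) {w : ℕ} (hw : 3 ≤ w) (m : ℕ) {z : ℂ} (hz : 0 < z.im) :
    Summable fun v : Cop => ‖pt w m z v‖ := by
  refine Summable.of_nonneg_of_le (fun v => norm_nonneg _) (fun v => ?_) (h.1 w z hw hz)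
  unfold pt
  rw [norm_mul]
  refine mul_le_of_le_one_right (norm_nonneg _) (norm_ee_le ?_)
  have h1 := (h.2 v z hz).1
  have : ((m : ℂ) * mob v.1 z).im = m * (mob v.1 z).im := by simp
  rw [this]
  positivity

theorem term_m1 {w m e d b : ℕ} (hw : 1 ≤ w) (hd : 0 < d) (z : ℂ) (v : Cop) :
    ((e : ℂ)) ^ (w - 1) * (d : ℂ)⁻¹ * pt w m (((e : ℂ) * z + b) / d) v =
      ((e * d : ℕ) : ℂ) ^ (w - 1) * term w m z (m1 e d b v.1) := by
  have hdz : (d : ℂ) ≠ 0 := by exact_mod_cast hd.ne'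
  unfold pt term mob m1
  dsimp only
  have e1 : (v.1.1 : ℂ) * (((e : ℂ) * z + b) / d) + v.1.2 =
      (((v.1.1 * e : ℤ) : ℂ) * z + ((v.1.1 * b + v.1.2 * d : ℤ) : ℂ)) / d := by
    push_cast
    field_simp
    ring
  have e2 : (Int.gcdB v.1.1 v.1.2 : ℂ) * (((e : ℂ) * z + b) / d) - Int.gcdA v.1.1 v.1.2 =
      (((Int.gcdB v.1.1 v.1.2 * e : ℤ) : ℂ) * z +
        ((Int.gcdB v.1.1 v.1.2 * b + -Int.gcdA v.1.1 v.1.2 * d : ℤ) : ℂ)) / d := by
    push_cast
    field_simp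
    ring
  rw [e1, e2, div_div_div_cancel_right₀ hdz, div_pow, inv_div]
  obtain ⟨k, rfl⟩ : ∃ k, w = k + 1 := ⟨w - 1, by omega⟩
  rw [Nat.add_sub_cancel, Nat.cast_mul, mul_pow, pow_succ (d : ℂ) k, div_eq_mul_inv]
  field_simp

theorem term_m2 {w m e g t : ℕ} (hg : 0 < g) (z : ℂ) (v : Cop) (hv : (v.1.1 : ℂ) * z + v.1.2 ≠ 0) :
    term w m z (m2 e g t v.1) = ((g : ℂ) ^ w)⁻¹ * ee ((m : ℂ) * t / g) *
      ((((v.1.1 : ℂ) * z + v.1.2) ^ w)⁻¹ * ee ((m : ℂ) * e / g * mob v.1 z)) := by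
  have hgz : (g : ℂ) ≠ 0 := by exact_mod_cast hg.ne'
  unfold term mob m2
  dsimp only
  have e1 : ((g * v.1.1 : ℤ) : ℂ) * z + ((g * v.1.2 : ℤ) : ℂ) =
      (g : ℂ) * ((v.1.1 : ℂ) * z + v.1.2) := by
    push_cast
    ring
  have e2 : (m : ℂ) * ((((e * Int.gcdB v.1.1 v.1.2 + t * v.1.1 : ℤ) : ℂ) * z +
      ((e * -Int.gcdA v.1.1 v.1.2 + t * v.1.2 : ℤ) : ℂ)) / ((g : ℂ) * ((v.1.1 : ℂ) * z + v.1.2))) =
      (m : ℂ) * t / g + (m : ℂ) * e / g *
        (((Int.gcdB v.1.1 v.1.2 : ℂ) * z - Int.gcdA v.1.1 v.1.2) /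
          ((v.1.1 : ℂ) * z + v.1.2)) := by
    push_cast
    field_simp
    ring
  rw [e1, e2, ee_add, mul_pow, mul_inv]
  ring

/-- sums of roots of unity -/
theorem sum_ee (m g : ℕ) (hg : 0 < g) :
    ∑ t ∈ Finset.range g, ee ((m : ℂ) * t / g) = if g ∣ m then (g : ℂ) else 0 := by
  have hgz : (g : ℂ) ≠ 0 := by exact_mod_cast hg.ne'
  set x : ℂ := ee ((m : ℂ) / g) with hx
  have h1 : ∀ t : ℕ, ee ((m : ℂ) * t / g) = x ^ t := by
    intro t
    rw [hx]
    unfold ee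
    rw [← Complex.exp_nat_mul]
    congr 1
    ring
  simp only [h1]
  have hxg : x ^ g = 1 := by
    rw [← h1]
    have : (m : ℂ) * g / g = ((m : ℤ) : ℂ) := by
      push_cast
      field_simp
    rw [this, ee_int]
  split_ifs with h
  · obtain ⟨k, rfl⟩ := h
    have : x = 1 := by
      rw [hx]
      have : ((g * k : ℕ) : ℂ) / g = ((k : ℤ) : ℂ) := by
        push_cast
        field_simp
      rw [this, ee_int]
    simp [this]
  · have hx1 : x ≠ 1 := by
      intro h2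
      apply h
      rw [hx] at h2
      unfold ee at h2
      rw [Complex.exp_eq_one_iff] at h2
      obtain ⟨n, hn⟩ := h2
      have hpi : (2 * (Real.pi : ℂ) * Complex.I) ≠ 0 := Complex.two_pi_I_ne_zero
      have h3 : (m : ℂ) / g = n := by
        apply mul_left_cancel₀ hpi
        rw [hn]
        ring
      rw [div_eq_iff hgz] at h3
      have h4 : (m : ℤ) = n * g := by exact_mod_cast h3
      exact Int.natCast_dvd_natCast.1 ⟨n, by rw [h4]; ring⟩
    rw [geom_sum_eq hx1, hxg, sub_self, zero_div]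

theorem den_ne (h : StPoiS) {z : ℂ} (hz : 0 < z.im) (v : Cop) : (v.1.1 : ℂ) * z + v.1.2 ≠ 0 := by
  intro h0
  obtain ⟨h1, h2⟩ := h.2 v z hz
  rw [h2, h0] at h1
  simp at h1

/-- the pairs `(d, b)` with `d ∣ r` and `b < d` -/
def prs (r : ℕ) : Finset (Σ _ : ℕ, ℕ) := r.divisors.sigma fun d => Finset.range d

theorem mem_prs {r : ℕ} (hr : 0 < r) {d b : ℕ} : (⟨d, b⟩ : Σ _ : ℕ, ℕ) ∈ prs r ↔
    (r / d) * d = r ∧ b < d := by
  unfold prs
  rw [Finset.mem_sigma, Nat.mem_divisors, Finset.mem_range]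
  constructor
  · rintro ⟨⟨h1, _⟩, h2⟩
    exact ⟨Nat.div_mul_cancel h1, h2⟩
  · rintro ⟨h1, h2⟩
    exact ⟨⟨Dvd.intro_left _ h1, hr.ne'⟩, h2⟩

/-- the sums over the two systems of representatives agree -/
theorem sums_eq {r : ℕ} (hr : 0 < r) {w : ℕ} (hw : 1 ≤ w) (m : ℕ) (z : ℂ) :
    ∑' i : ↥(prs r) × Cop, term w m z (m1 (r / i.1.1.1) i.1.1.1 i.1.1.2 i.2.1) =
      ∑' i : ↥(prs r) × Cop, term w m z (m2 (r / i.1.1.1) i.1.1.1 i.1.1.2 i.2.1) := by
  refine tsum_reps (fun i : ↥(prs r) × Cop => m1 (r / i.1.1.1) i.1.1.1 i.1.1.2 i.2.1)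
    (fun i : ↥(prs r) × Cop => m2 (r / i.1.1.1) i.1.1.1 i.1.1.2 i.2.1) ?_ ?_ ?_ ?_
    (term w m z) (term_rel hw z)
  · rintro ⟨⟨⟨d, b⟩, hp⟩, v⟩ ⟨⟨⟨d', b'⟩, hp'⟩, v'⟩ h
    have h1 := (mem_prs hr).1 hp
    have h2 := (mem_prs hr).1 hp'
    obtain ⟨rfl, rfl, h3⟩ := inj1 hr v.2 v'.2 h1.1 h2.1 h1.2 h2.2 h
    have h4 : v = v' := Subtype.ext h3
    rw [h4]
  · rintro ⟨⟨⟨d, b⟩, hp⟩, v⟩ ⟨⟨⟨d', b'⟩, hp'⟩, v'⟩ h
    have h1 := (mem_prs hr).1 hp
    have h2 := (mem_prs hr).1 hp'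
    obtain ⟨rfl, rfl, h3⟩ := inj2 v.2 v'.2 (h1.1.trans h2.1.symm) h1.2 h2.2 h
    have h4 : v = v' := Subtype.ext h3
    rw [h4]
  · rintro ⟨⟨⟨d, b⟩, hp⟩, v⟩
    obtain ⟨h1, _⟩ := (mem_prs hr).1 hp
    obtain ⟨e, d', b', v', k1, k2, k3, k4⟩ := surj1 hr (m2 (r / d) d b v.1) (by
      have h2 := bez v.2
      have h3 : (((r / d : ℕ) : ℤ)) * d = r := by exact_mod_cast h1
      unfold Qd.det m2
      dsimp only
      linear_combination (((r / d : ℕ) : ℤ)) * d * h2 + h3)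
    have hd' : 0 < d' := by omega
    have he : e = r / d' := by rw [← k1, Nat.mul_div_cancel _ hd']
    subst he
    exact ⟨⟨⟨⟨d', b'⟩, (mem_prs hr).2 ⟨k1, k2⟩⟩, ⟨v', k3⟩⟩, k4⟩
  · rintro ⟨⟨⟨d, b⟩, hp⟩, v⟩
    obtain ⟨h1, _⟩ := (mem_prs hr).1 hp
    obtain ⟨e, d', b', v', k1, k2, k3, k4⟩ := surj2 hr (m1 (r / d) d b v.1) (by
      have h2 := bez v.2
      have h3 : (((r / d : ℕ) : ℤ)) * d = r := by exact_mod_cast h1
      unfold Qd.det m1
      dsimp only
      linear_combination (((r / d : ℕ) : ℤ)) * d * h2 + h3)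
    have hd' : 0 < d' := by omega
    have he : e = r / d' := by rw [← k1, Nat.mul_div_cancel _ hd']
    subst he
    exact ⟨⟨⟨⟨d', b'⟩, (mem_prs hr).2 ⟨k1, k2⟩⟩, ⟨v', k3⟩⟩, k4⟩

/-- sums over `prs r × Cop` -/
theorem tsum_prs {r : ℕ} (f : (Σ _ : ℕ, ℕ) → Cop → ℂ) (hf : ∀ p ∈ prs r, Summable (f p)) :
    ∑' i : ↥(prs r) × Cop, f i.1.1 i.2 =
      ∑ d ∈ r.divisors, ∑ b ∈ Finset.range d, ∑' v : Cop, f ⟨d, b⟩ v := by
  have h1 : Summable fun i : ↥(prs r) × Cop => f i.1.1 i.2 := by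
    apply Summable.of_norm
    rw [summable_prod_of_nonneg fun i => norm_nonneg _]
    exact ⟨fun p => (hf p.1 p.2).norm, (hasSum_fintype _).summable⟩
  rw [h1.tsum_prod' fun p => hf p.1 p.2, tsum_fintype,
    Finset.sum_coe_sort (prs r) fun p => ∑' v : Cop, f p v, prs, Finset.sum_sigma]

end TrP

open TrP in
theorem stTrP (h : StPoiS) : StTrP := by
  intro w m r z hw _ hm hr hz
  have hw1 : 1 ≤ w := by omega
  have hz' : ∀ e d b : ℕ, 0 < e → 0 < d → 0 < (((e : ℂ) * z + b) / d).im := by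
    intro e d b he hd
    have h1 : (((e : ℂ) * z + b) / d).im = (e : ℝ) * z.im / d := by
      rw [Complex.div_natCast_im]
      simp
    rw [h1]
    positivity
  have hL : ∑ d ∈ r.divisors, ∑ b ∈ Finset.range d, (((r / d : ℕ) : ℂ)) ^ (w - 1) * (d : ℂ)⁻¹ *
      poinc w m ((((r / d : ℕ) : ℂ) * z + b) / d) = (1 / 2) * (r : ℂ) ^ (w - 1) *
      ∑' i : ↥(prs r) × Cop, term w m z (m1 (r / i.1.1.1) i.1.1.1 i.1.1.2 i.2.1) := by
    rw [tsum_prs (fun p v => term w m z (m1 (r / p.1) p.1 p.2 v.1)), Finset.mul_sum]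
    · refine Finset.sum_congr rfl fun d hd => ?_
      rw [Finset.mul_sum]
      refine Finset.sum_congr rfl fun b hb => ?_
      have hdr : d ∣ r := Nat.dvd_of_mem_divisors hd
      have hd0 : 0 < d := Nat.pos_of_mem_divisors hd
      dsimp only
      have e1 : ∀ v : Cop, (r : ℂ) ^ (w - 1) * term w m z (m1 (r / d) d b v.1) =
          (((r / d : ℕ) : ℂ)) ^ (w - 1) * (d : ℂ)⁻¹ * pt w m ((((r / d : ℕ) : ℂ) * z + b) / d) v := by
        intro v
        rw [term_m1 hw1 hd0 z v, Nat.div_mul_cancel hdr]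
      have e2 : 1 / 2 * (r : ℂ) ^ (w - 1) * ∑' v : Cop, term w m z (m1 (r / d) d b v.1) =
          1 / 2 * ∑' v : Cop, (r : ℂ) ^ (w - 1) * term w m z (m1 (r / d) d b v.1) := by
        rw [tsum_mul_left]
        ring
      rw [e2, tsum_congr e1, tsum_mul_left]
      unfold poinc pt
      ring
    · rintro ⟨d, b⟩ hp
      obtain ⟨h1, h2⟩ := (mem_prs hr).1 hp
      have hd0 : 0 < d := by omega
      have he0 : 0 < r / d := by
        rcases Nat.eq_zero_or_pos (r / d) with h3 | h3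
        · rw [h3] at h1; omega
        · exact h3
      have hr0 : (r : ℂ) ^ (w - 1) ≠ 0 := pow_ne_zero _ (by exact_mod_cast (by omega : r ≠ 0))
      have h4 := (pt_summable h hw m (hz' (r / d) d b he0 hd0)).of_norm
      have h5 := h4.mul_left ((((r / d : ℕ) : ℂ)) ^ (w - 1) * (d : ℂ)⁻¹ * ((r : ℂ) ^ (w - 1))⁻¹)
      refine h5.congr fun v => ?_
      dsimp only
      have h6 := term_m1 (m := m) (e := r / d) (b := b) hw1 hd0 z v
      rw [h1] at h6
      rw [mul_right_comm, h6]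
      field_simp
  have hR : ∑ g ∈ (m.gcd r).divisors, ((r / g : ℕ) : ℂ) ^ (w - 1) * poinc w (r * m / g ^ 2) z =
      (1 / 2) * (r : ℂ) ^ (w - 1) *
      ∑' i : ↥(prs r) × Cop, term w m z (m2 (r / i.1.1.1) i.1.1.1 i.1.1.2 i.2.1) := by
    have hsum : ∀ e g t : ℕ, 0 < g → Summable fun v : Cop =>
        ((((v.1.1 : ℂ) * z + v.1.2) ^ w)⁻¹ * ee ((m : ℂ) * e / g * mob v.1 z)) := by
      intro e g _ hg
      apply Summable.of_norm
      refine Summable.of_nonneg_of_le (fun v => norm_nonneg _) (fun v => ?_) (h.1 w z hw hz)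
      rw [norm_mul]
      refine mul_le_of_le_one_right (norm_nonneg _) (norm_ee_le ?_)
      have h1 := (h.2 v z hz).1
      have : ((m : ℂ) * e / g * mob v.1 z).im = (m : ℝ) * e / g * (mob v.1 z).im := by
        have : (m : ℂ) * e / g * mob v.1 z = (((m : ℝ) * e / g : ℝ) : ℂ) * mob v.1 z := by
          push_cast; ring
        rw [this, Complex.im_ofReal_mul]
      rw [this]
      positivity
    rw [tsum_prs (fun p v => term w m z (m2 (r / p.1) p.1 p.2 v.1)), Finset.mul_sum]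
    · have e1 : ∀ g ∈ r.divisors, (1 / 2) * (r : ℂ) ^ (w - 1) * ∑ t ∈ Finset.range g,
          ∑' v : Cop, term w m z (m2 (r / g) g t v.1) =
          if g ∣ m then ((r / g : ℕ) : ℂ) ^ (w - 1) * poinc w (r * m / g ^ 2) z else 0 := by
        intro g hg
        have hgr : g ∣ r := Nat.dvd_of_mem_divisors hg
        have hg0 : 0 < g := Nat.pos_of_mem_divisors hg
        have hgz : (g : ℂ) ≠ 0 := by exact_mod_cast hg0.ne'
        have e2 : ∀ t : ℕ, ∑' v : Cop, term w m z (m2 (r / g) g t v.1) =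
            ee ((m : ℂ) * t / g) * (((g : ℂ) ^ w)⁻¹ * ∑' v : Cop,
              ((((v.1.1 : ℂ) * z + v.1.2) ^ w)⁻¹ *
                ee ((m : ℂ) * (r / g : ℕ) / g * mob v.1 z))) := by
          intro t
          rw [← mul_assoc, ← tsum_mul_left]
          refine tsum_congr fun v => ?_
          rw [term_m2 hg0 z v (den_ne h hz v)]
          ring
        simp only [e2]
        rw [← Finset.sum_mul, sum_ee m g hg0]
        split_ifs with hgm
        · obtain ⟨k, rfl⟩ := hgm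
          obtain ⟨l, rfl⟩ := hgr
          have e3 : g * l * (g * k) / g ^ 2 = l * k := by
            rw [show g * l * (g * k) = l * k * g ^ 2 by ring]
            exact Nat.mul_div_cancel _ (by positivity)
          rw [e3, Nat.mul_div_cancel_left _ hg0]
          have e4 : ((g * k : ℕ) : ℂ) * l / g = ((l * k : ℕ) : ℂ) := by
            push_cast
            field_simp
          rw [e4]
          unfold poinc
          obtain ⟨u, rfl⟩ : ∃ u, w = u + 1 := ⟨w - 1, by omega⟩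
          generalize (∑' v : Cop, (((v.1.1 : ℂ) * z + v.1.2) ^ (u + 1))⁻¹ *
            ee (((l * k : ℕ) : ℂ) * mob v.1 z)) = T
          rw [Nat.add_sub_cancel, Nat.cast_mul, mul_pow, pow_succ (g : ℂ) u]
          field_simp
        · rw [zero_mul, mul_zero]
      rw [Finset.sum_congr rfl e1, ← Finset.sum_filter]
      refine Finset.sum_congr ?_ fun _ _ => rfl
      ext g
      rw [Finset.mem_filter, Nat.mem_divisors, Nat.mem_divisors, Nat.dvd_gcd_iff]
      constructor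
      · rintro ⟨h1, _⟩
        exact ⟨⟨h1.2, by omega⟩, h1.1⟩
      · rintro ⟨⟨h1, _⟩, h2⟩
        exact ⟨⟨h2, h1⟩, (Nat.gcd_pos_of_pos_left _ hm).ne'⟩
    · rintro ⟨g, t⟩ hp
      obtain ⟨h1, h2⟩ := (mem_prs hr).1 hp
      have hg0 : 0 < g := by omega
      refine ((hsum (r / g) g t hg0).mul_left (((g : ℂ) ^ w)⁻¹ * ee ((m : ℂ) * t / g))).congr
        fun v => ?_
      exact (term_m2 hg0 z v (den_ne h hz v)).symm
  rw [hL, hR, sums_eq hr hw1]

end RZ

end Pool.Agent.Lib.MP_7c08ba_nt
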