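import Mathlib
import Pool.Agent.Lib.MP_7c08ba_nt.RZ.StG

set_option autoImplicit false

/-!
(G18) The trace from `Γ₀(D)` to level one, for squarefree `D`.
-/

namespace Pool.Agent.Lib.MP_7c08ba_nt.RZ

open UpperHalfPlane
open scoped MatrixGroups ModularForm

namespace TrDAux

/-- The matrix with given entries. -/
def mk (a b c d : ℤ) (h : a * d - b * c = 1) : SL(2, ℤ) :=
  ⟨!![a, b; c, d], by rw [Matrix.det_fin_two_of]; exact h⟩

theorem coe_smul' (g : SL(2, ℤ)) (z : ℍ) :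
    ((g • z : ℍ) : ℂ) = ((g 0 0 : ℂ) * z + g 0 1) / ((g 1 0 : ℂ) * z + g 1 1) := by
  rw [UpperHalfPlane.coe_specialLinearGroup_apply]
  simp

/-- The representatives. -/
def dl (g j : ℤ) : SL(2, ℤ) := mk 1 j (-g) (1 - g * j) (by ring)

theorem dl_apply (w : ℕ) (f : ℍ → ℂ) (g j : ℤ) (z : ℍ) :
    (f ∣[(w : ℤ)] (dl g j)) z = ((1 - g * ((z : ℂ) + j)) ^ w)⁻¹ * f (dl g j • z) := by
  rw [ModularForm.SL_slash_apply, mul_comm]
  congr 1
  rw [zpow_neg, zpow_natCast]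
  congr 2
  change ((((dl g j) 1 0 : ℤ) : ℝ) : ℂ) * z + ((((dl g j) 1 1 : ℤ) : ℝ) : ℂ) = _
  simp [dl, mk]
  ring

theorem dl_smul (g j : ℤ) (z : ℍ) :
    ((dl g j • z : ℍ) : ℂ) = ((z : ℂ) + j) / (1 - g * ((z : ℂ) + j)) := by
  rw [coe_smul']
  simp only [dl, mk]
  congr 1
  · simp
  · simp
    ring

theorem mul_entry (A B : SL(2, ℤ)) (i j : Fin 2) :
    (A * B) i j = A i 0 * B 0 j + A i 1 * B 1 j := by
  change ((A * B : SL(2, ℤ)) : Matrix (Fin 2) (Fin 2) ℤ) i j = _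
  rw [Matrix.SpecialLinearGroup.coe_mul, Matrix.mul_apply, Fin.sum_univ_two]

theorem inv_entry_00 (A : SL(2, ℤ)) : A⁻¹ 0 0 = A 1 1 := by
  change ((A⁻¹ : SL(2, ℤ)) : Matrix (Fin 2) (Fin 2) ℤ) 0 0 = _
  rw [Matrix.SpecialLinearGroup.coe_inv, Matrix.adjugate_fin_two]; rfl

theorem inv_entry_10 (A : SL(2, ℤ)) : A⁻¹ 1 0 = -A 1 0 := by
  change ((A⁻¹ : SL(2, ℤ)) : Matrix (Fin 2) (Fin 2) ℤ) 1 0 = _
  rw [Matrix.SpecialLinearGroup.coe_inv, Matrix.adjugate_fin_two]; rfl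

theorem ent (A B : SL(2, ℤ)) : (A * B⁻¹) 1 0 = A 1 0 * B 1 1 - A 1 1 * B 1 0 := by
  rw [mul_entry, inv_entry_00, inv_entry_10]
  ring

theorem dl_10 (g j : ℤ) : (dl g j) 1 0 = -g := by simp [dl, mk]

theorem dl_11 (g j : ℤ) : (dl g j) 1 1 = 1 - g * j := by simp [dl, mk]

theorem ent_dl (A : SL(2, ℤ)) (g j : ℤ) :
    (A * (dl g j)⁻¹) 1 0 = A 1 0 * (1 - g * j) + A 1 1 * g := by
  rw [ent, dl_10, dl_11]
  ring

/-- The set of the indices. -/
def ind (D : ℕ) : Finset (Σ _ : ℕ, ℕ) := D.divisors.sigma fun g => Finset.range (D / g)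

theorem mem_ind {D : ℕ} {p : Σ _ : ℕ, ℕ} :
    p ∈ ind D ↔ p.1 ∈ D.divisors ∧ p.2 < D / p.1 := by
  rw [ind, Finset.mem_sigma, Finset.mem_range]

/-- Existence of a representative. -/
theorem exists_rep {D : ℕ} (hD : Squarefree D) (A : SL(2, ℤ)) :
    ∃ p ∈ ind D, (D : ℤ) ∣ (A * (dl p.1 p.2)⁻¹) 1 0 := by
  have hD0 : D ≠ 0 := hD.ne_zero
  set c := A 1 0 with hc
  set d := A 1 1 with hd
  have hcop : IsCoprime c d := by
    have h := A.det_coe
    rw [Matrix.det_fin_two] at h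
    refine ⟨-A 0 1, A 0 0, ?_⟩
    rw [hc, hd]
    linear_combination h
  set g := Int.gcd c D with hg
  have hgD : g ∣ D := by
    have : (g : ℤ) ∣ (D : ℤ) := Int.gcd_dvd_right c D
    exact_mod_cast this
  have hg0 : 0 < g := Nat.pos_of_dvd_of_pos hgD (Nat.pos_of_ne_zero hD0)
  obtain ⟨E, hE⟩ := hgD
  have hE0 : 0 < E := by
    rcases Nat.eq_zero_or_pos E with h | h
    · exact absurd (by rw [hE, h, mul_zero]) hD0
    · exact h
  have hDg : D / g = E := by rw [hE, Nat.mul_div_cancel_left _ hg0]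
  obtain ⟨c', hc'⟩ : (g : ℤ) ∣ c := Int.gcd_dvd_left c D
  have hgE : Nat.Coprime g E := by
    rw [hE] at hD
    exact Nat.coprime_of_squarefree_mul hD
  have hc'E : IsCoprime c' (E : ℤ) := by
    have h1 : Int.gcd (c / g) ((D : ℤ) / g) = 1 :=
      Int.gcd_div_gcd_div_gcd (by exact_mod_cast hg0)
    have hgz : (g : ℤ) ≠ 0 := by exact_mod_cast hg0.ne'
    have h2 : c / (g : ℤ) = c' := by rw [hc', Int.mul_ediv_cancel_left _ hgz]
    have h3 : (D : ℤ) / g = E := by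
      rw [hE]; push_cast; rw [Int.mul_ediv_cancel_left _ hgz]
    rw [h2, h3] at h1
    exact Int.isCoprime_iff_gcd_eq_one.2 h1
  have hcg : IsCoprime (c' * g) (E : ℤ) :=
    IsCoprime.mul_left hc'E (Nat.isCoprime_iff_coprime.2 hgE)
  -- the solution of the congruence
  obtain ⟨a, b, hab⟩ := hcg
  have hEz : (E : ℤ) ≠ 0 := by exact_mod_cast hE0.ne'
  set jz : ℤ := (a * (c' + d)) % E with hjz
  have hj0 : 0 ≤ jz := Int.emod_nonneg _ hEz
  have hj1 : jz < E := Int.emod_lt_of_pos _ (by exact_mod_cast hE0)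
  have hjn : ((jz.toNat : ℕ) : ℤ) = jz := Int.toNat_of_nonneg hj0
  refine ⟨⟨g, jz.toNat⟩, mem_ind.2 ⟨Nat.mem_divisors.2 ⟨⟨E, hE⟩, hD0⟩, ?_⟩, ?_⟩
  · change jz.toNat < D / g
    rw [hDg]
    have : ((jz.toNat : ℕ) : ℤ) < E := by rw [hjn]; exact hj1
    exact_mod_cast this
  · change (D : ℤ) ∣ (A * (dl (g : ℤ) ((jz.toNat : ℕ) : ℤ))⁻¹) 1 0
    rw [ent_dl, hjn, ← hc, ← hd]
    have h1 : jz = a * (c' + d) - E * (a * (c' + d) / E) := by
      have := Int.emod_add_mul_ediv (a * (c' + d)) E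
      rw [hjz]
      linarith
    refine ⟨b * (c' + d) + c' * g * (a * (c' + d) / E), ?_⟩
    rw [h1, hE]
    push_cast
    rw [hc']
    linear_combination (-(g : ℤ) * (c' + d)) * hab

/-- Uniqueness of the representative. -/
theorem uniq {D : ℕ} (hD : Squarefree D) (p p' : Σ _ : ℕ, ℕ) (hp : p ∈ ind D) (hp' : p' ∈ ind D)
    (h : (D : ℤ) ∣ (dl p.1 p.2 * (dl p'.1 p'.2)⁻¹) 1 0) : p = p' := by
  have hD0 : D ≠ 0 := hD.ne_zero
  obtain ⟨g, j⟩ := p
  obtain ⟨g', j'⟩ := p'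
  obtain ⟨hg, hj⟩ := mem_ind.1 hp
  obtain ⟨hg', hj'⟩ := mem_ind.1 hp'
  simp only at hg hj hg' hj' h
  rw [ent_dl, dl_10, dl_11] at h
  have hgD : g ∣ D := (Nat.mem_divisors.1 hg).1
  have hgD' : g' ∣ D := (Nat.mem_divisors.1 hg').1
  have hg0 : 0 < g := Nat.pos_of_dvd_of_pos hgD (Nat.pos_of_ne_zero hD0)
  have h1 : (g : ℤ) ∣ g' := by
    have e : (g : ℤ) ∣ (-(g : ℤ)) * (1 - g' * j') + (1 - g * j) * g' :=
      dvd_trans (by exact_mod_cast hgD) h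
    have e2 : (g' : ℤ) = ((-(g : ℤ)) * (1 - g' * j') + (1 - g * j) * g') +
        g * ((1 - g' * j') + j * g') := by ring
    rw [e2]
    exact dvd_add e (dvd_mul_right _ _)
  have h2 : (g' : ℤ) ∣ g := by
    have e : (g' : ℤ) ∣ (-(g : ℤ)) * (1 - g' * j') + (1 - g * j) * g' :=
      dvd_trans (by exact_mod_cast hgD') h
    have e2 : (g : ℤ) = -((-(g : ℤ)) * (1 - g' * j') + (1 - g * j) * g') +
        g' * (g * j' + (1 - g * j)) := by ring
    rw [e2]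
    exact dvd_add ((dvd_neg).2 e) (dvd_mul_right _ _)
  have hgg : g = g' := Nat.dvd_antisymm (by exact_mod_cast h1) (by exact_mod_cast h2)
  subst hgg
  obtain ⟨E, hE⟩ := hgD
  have hDg : D / g = E := by rw [hE, Nat.mul_div_cancel_left _ hg0]
  rw [hDg] at hj hj'
  have hgE : Nat.Coprime g E := by
    rw [hE] at hD
    exact Nat.coprime_of_squarefree_mul hD
  have h3 : (-(g : ℤ)) * (1 - g * j') + (1 - g * j) * g = g * (g * (j' - j)) := by ring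
  rw [h3, hE] at h
  push_cast at h
  have hgz : (g : ℤ) ≠ 0 := by exact_mod_cast hg0.ne'
  have h4 : (E : ℤ) ∣ g * (j' - j) := (mul_dvd_mul_iff_left hgz).1 h
  have h5 : (E : ℤ) ∣ j' - j :=
    IsCoprime.dvd_of_dvd_mul_left (Nat.isCoprime_iff_coprime.2 hgE.symm) h4
  have h6 : (j' : ℤ) - j = 0 := by
    apply Int.eq_zero_of_abs_lt_dvd h5
    rw [abs_lt]
    constructor <;> omega
  have h7 : j = j' := by omega
  rw [h7]

end TrDAux

open TrDAux in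
/-- (G18) the trace from `Γ₀(D)` to level one -/
theorem stTraceD : StTraceD := by
  intro D w H hD hw hH
  classical
  set F : ℍ → ℂ := fun z => H z with hF
  -- invariance under the group
  have inv : ∀ g : SL(2, ℤ), (D : ℤ) ∣ g 1 0 → F ∣[(w : ℤ)] g = F := by
    intro g hg
    funext z
    rw [ModularForm.slash_action_eq'_iff, zpow_natCast]
    have := hH g z z.im_pos hg
    rw [← coe_smul'] at this
    exact this
  have coset : ∀ g g' : SL(2, ℤ), (D : ℤ) ∣ (g * g'⁻¹) 1 0 →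
      F ∣[(w : ℤ)] g = F ∣[(w : ℤ)] g' := by
    intro g g' h
    have e : g = (g * g'⁻¹) * g' := by group
    rw [e, SlashAction.slash_mul, inv _ h]
  set G : ℍ → ℂ := ∑ p ∈ ind D, F ∣[(w : ℤ)] (dl (p.1 : ℤ) (p.2 : ℤ)) with hG
  have hGtr : ∀ z : ℍ, G z = trD D w H z := by
    intro z
    rw [hG, trD, Finset.sum_apply, ind, Finset.sum_sigma]
    refine Finset.sum_congr rfl fun g _ => Finset.sum_congr rfl fun j _ => ?_
    rw [dl_apply]
    simp only [hF]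
    rw [dl_smul]
    simp
  have slG : ∀ g : SL(2, ℤ), G ∣[(w : ℤ)] g =
      ∑ p ∈ ind D, F ∣[(w : ℤ)] (dl (p.1 : ℤ) (p.2 : ℤ) * g) := by
    intro g
    rw [hG, SlashAction.sum_slash]
    exact Finset.sum_congr rfl fun j _ => (SlashAction.slash_mul _ _ _ _).symm
  have hall : ∀ g : SL(2, ℤ), G ∣[(w : ℤ)] g = G := by
    intro g
    choose π hπ1 hπ2 using fun p : (Σ _ : ℕ, ℕ) => exists_rep hD (dl (p.1 : ℤ) (p.2 : ℤ) * g)
    rw [slG, hG]
    have hinj : Set.InjOn π (ind D : Set (Σ _ : ℕ, ℕ)) := by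
      intro p hp p' hp' h
      apply uniq hD p p' hp hp'
      have h1 := hπ2 p
      have h2 := hπ2 p'
      rw [← h] at h2
      have hm : ∀ A : SL(2, ℤ), (D : ℤ) ∣ A 1 0 ↔ A ∈ CongruenceSubgroup.Gamma0 D := by
        intro A
        rw [CongruenceSubgroup.Gamma0_mem, ZMod.intCast_zmod_eq_zero_iff_dvd]
      rw [hm] at h1 h2 ⊢
      have h3 := mul_mem h1 (inv_mem h2)
      have e : dl (p.1 : ℤ) (p.2 : ℤ) * g * (dl ((π p).1 : ℤ) ((π p).2 : ℤ))⁻¹ *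
          (dl (p'.1 : ℤ) (p'.2 : ℤ) * g * (dl ((π p).1 : ℤ) ((π p).2 : ℤ))⁻¹)⁻¹ =
          dl (p.1 : ℤ) (p.2 : ℤ) * (dl (p'.1 : ℤ) (p'.2 : ℤ))⁻¹ := by group
      rw [e] at h3
      exact h3
    have hmaps : ∀ p ∈ ind D, π p ∈ ind D := fun p _ => hπ1 p
    have hsurj : Set.SurjOn π (ind D : Set (Σ _ : ℕ, ℕ)) (ind D : Set (Σ _ : ℕ, ℕ)) :=
      Finset.surjOn_of_injOn_of_card_le π (fun p hp => hmaps p hp) hinj le_rfl
    exact Finset.sum_nbij π hmaps hinj hsurj fun p _ => coset _ _ (hπ2 p)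
  intro g z hz
  have h1 := congrFun (hall g) ⟨z, hz⟩
  rw [ModularForm.slash_action_eq'_iff, zpow_natCast] at h1
  rw [hGtr, hGtr, coe_smul'] at h1
  exact h1

end Pool.Agent.Lib.MP_7c08ba_nt.RZ
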