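import Mathlib
import Pool.Agent.Lib.MP_7c08ba_nt.RZ.StG

set_option autoImplicit false

/-!
Sums over triples and sums over pairs of classes.
-/

namespace Pool.Agent.Lib.MP_7c08ba_nt

namespace RZ

open NumberField MeasureTheory UpperHalfPlane Set IsDedekindDomain
open scoped MatrixGroups ComplexConjugate nonZeroDivisors

namespace TripAux

section

variable {F : Type} [Field F] [NumberField F] {D : ℕ} {s : 𝓞 F} {cj : 𝓞 F ≃+* 𝓞 F}

/-- Elements prime to `s` are congruent to units modulo `D`. -/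
lemma unit_of_coprime (h9 : ∀ x : 𝓞 F, ∃ n : ℤ, s ∣ x - n)
    (h10 : ∀ n : ℤ, s ∣ (n : 𝓞 F) ↔ (D : ℤ) ∣ n) {x : 𝓞 F} {n : ℤ}
    (hx : IsCoprime (Ideal.span {x}) (Ideal.span {s})) (hn : s ∣ x - n) :
    IsUnit (n : ZMod D) := by
  rw [Ideal.isCoprime_span_singleton_iff] at hx
  obtain ⟨z, w, hzw⟩ := hx
  obtain ⟨m, hm⟩ := h9 z
  have h1 : s ∣ ((m * n - 1 : ℤ) : 𝓞 F) := by
    obtain ⟨p, hp⟩ := hn
    obtain ⟨r, hr⟩ := hm
    refine ⟨-(w + z * p + r * (x - s * p)), ?_⟩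
    push_cast
    have e1 : (n : 𝓞 F) = x - s * p := by rw [← hp]; ring
    have e2 : (m : 𝓞 F) = z - s * r := by rw [← hr]; ring
    rw [e1, e2]
    linear_combination hzw
  have h2 := (h10 _).mp h1
  rw [← ZMod.intCast_zmod_eq_zero_iff_dvd] at h2
  push_cast at h2
  exact IsUnit.of_mul_eq_one (m : ZMod D) (by rw [mul_comm]; exact sub_eq_zero.mp h2)

/-- Conjugate ideals are prime to `s`. -/
lemma coprime_conj (h3 : cj s = -s) {a : Ideal (𝓞 F)} (ha : IsCoprime a (Ideal.span {s})) :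
    IsCoprime (a.map (cj : 𝓞 F →+* 𝓞 F)) (Ideal.span {s}) := by
  rw [Ideal.isCoprime_iff_sup_eq] at ha ⊢
  have h1 : (Ideal.span {s}).map (cj : 𝓞 F →+* 𝓞 F) = Ideal.span {s} := by
    rw [Ideal.map_span, Set.image_singleton]
    show Ideal.span {cj s} = _
    rw [h3, Ideal.span_singleton_neg]
  rw [← h1, ← Ideal.map_sup, ha, Ideal.map_top]

/-- Ideals prime to `s` in the same class. -/
lemma exists_mul (h3 : cj s = -s)
    (h7 : ∀ a : Ideal (𝓞 F),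
      a * a.map (cj : 𝓞 F →+* 𝓞 F) = Ideal.span {(Ideal.absNorm a : 𝓞 F)})
    (h9 : ∀ x : 𝓞 F, ∃ n : ℤ, s ∣ x - n) (h10 : ∀ n : ℤ, s ∣ (n : 𝓞 F) ↔ (D : ℤ) ∣ n)
    {a a' : (Ideal (𝓞 F))⁰} (ha : IsCoprime (a : Ideal (𝓞 F)) (Ideal.span {s}))
    (ha' : IsCoprime (a' : Ideal (𝓞 F)) (Ideal.span {s}))
    (hcl : ClassGroup.mk0 a = ClassGroup.mk0 a') :
    ∃ (t t' : 𝓞 F) (nt nt' : ℤ), s ∣ t - nt ∧ s ∣ t' - nt' ∧ IsUnit (nt : ZMod D) ∧
      IsUnit (nt' : ZMod D) ∧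
      Ideal.span {t} * (a : Ideal (𝓞 F)) = Ideal.span {t'} * (a' : Ideal (𝓞 F)) := by
  have hinj : Function.Injective (cj : 𝓞 F →+* 𝓞 F) := cj.injective
  -- the conjugate ideal
  have hne : (a' : Ideal (𝓞 F)).map (cj : 𝓞 F →+* 𝓞 F) ∈ (Ideal (𝓞 F))⁰ := by
    rw [mem_nonZeroDivisors_iff_ne_zero]
    intro h
    rw [Ideal.zero_eq_bot, Ideal.map_eq_bot_iff_of_injective hinj] at h
    exact nonZeroDivisors.coe_ne_zero a' h
  have hN : Ideal.absNorm (a' : Ideal (𝓞 F)) ≠ 0 := by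
    rw [Ne, Ideal.absNorm_eq_zero_iff]
    exact nonZeroDivisors.coe_ne_zero a'
  have hprin : ClassGroup.mk0 (a * ⟨_, hne⟩) = 1 := by
    rw [map_mul, hcl, ← map_mul, ClassGroup.mk0_eq_one_iff]
    show ((a' : Ideal (𝓞 F)) * (a' : Ideal (𝓞 F)).map (cj : 𝓞 F →+* 𝓞 F)).IsPrincipal
    rw [h7]
    exact ⟨⟨_, rfl⟩⟩
  rw [ClassGroup.mk0_eq_one_iff] at hprin
  obtain ⟨⟨y, hy⟩⟩ := hprin
  have hy' : (a : Ideal (𝓞 F)) * (a' : Ideal (𝓞 F)).map (cj : 𝓞 F →+* 𝓞 F) =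
      Ideal.span {y} := hy
  obtain ⟨n, hn⟩ := h9 y
  refine ⟨(Ideal.absNorm (a' : Ideal (𝓞 F)) : 𝓞 F), y,
    (Ideal.absNorm (a' : Ideal (𝓞 F)) : ℤ), n, ?_, hn, ?_, ?_, ?_⟩
  · simp
  · refine unit_of_coprime h9 h10 (x := (Ideal.absNorm (a' : Ideal (𝓞 F)) : 𝓞 F)) ?_ ?_
    · rw [← h7]
      exact ha'.mul_left (coprime_conj h3 ha')
    · simp
  · refine unit_of_coprime h9 h10 ?_ hn
    rw [← hy']
    exact ha.mul_left (coprime_conj h3 ha')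
  · rw [← h7, ← hy']
    ring

/-- Norms modulo `D`. -/
lemma norm_eq_sq (h3 : cj s = -s)
    (h5 : ∀ x : 𝓞 F, x * cj x = (Ideal.absNorm (Ideal.span {x}) : 𝓞 F))
    (h10 : ∀ n : ℤ, s ∣ (n : 𝓞 F) ↔ (D : ℤ) ∣ n) {t : 𝓞 F} {n : ℤ} (hn : s ∣ t - n) :
    (Ideal.absNorm (Ideal.span {t}) : ZMod D) = (n : ZMod D) ^ 2 := by
  obtain ⟨y, hy⟩ := hn
  have e1 : t = n + s * y := by rw [← hy]; ring
  have e2 : cj t = n - s * cj y := by
    rw [e1, map_add, map_mul, h3, map_intCast]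
    ring
  have h1 : s ∣ (((Ideal.absNorm (Ideal.span {t}) : ℤ) - n ^ 2 : ℤ) : 𝓞 F) := by
    refine ⟨y * n - n * cj y - s * y * cj y, ?_⟩
    push_cast
    rw [← h5 t, e2]
    have e3 : t * (n - s * cj y) - (n : 𝓞 F) ^ 2 = (t - n) * n - t * s * cj y := by ring
    rw [e3, hy]
    rw [e1]
    ring
  have h2 := (h10 _).mp h1
  rw [← ZMod.intCast_zmod_eq_zero_iff_dvd] at h2
  push_cast at h2
  exact sub_eq_zero.mp h2

/-- The triple attached to a pair of ideals of the same norm. -/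
lemma exists_triple {σ : F →+* ℂ} (c : Reps σ)
    (hc : ∀ A, IsCoprime (c.R A : Ideal (𝓞 F)) (Ideal.span {s})) (h3 : cj s = -s)
    (h5 : ∀ x : 𝓞 F, x * cj x = (Ideal.absNorm (Ideal.span {x}) : 𝓞 F))
    (h7 : ∀ a : Ideal (𝓞 F),
      a * a.map (cj : 𝓞 F →+* 𝓞 F) = Ideal.span {(Ideal.absNorm a : 𝓞 F)})
    (h9 : ∀ x : 𝓞 F, ∃ n : ℤ, s ∣ x - n) (h10 : ∀ n : ℤ, s ∣ (n : 𝓞 F) ↔ (D : ℤ) ∣ n)
    {a b : Ideal (𝓞 F)} (ha0 : a ≠ ⊥) (hb0 : b ≠ ⊥) (ha : IsCoprime a (Ideal.span {s}))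
    (hb : IsCoprime b (Ideal.span {s})) (hab : Ideal.absNorm a = Ideal.absNorm b) :
    ∃ (A B : ClassGroup (𝓞 F)) (ρ : ZMod D) (t t' u u' : 𝓞 F) (nt nt' nu nu' : ℤ),
      s ∣ t - nt ∧ s ∣ t' - nt' ∧ s ∣ u - nu ∧ s ∣ u' - nu' ∧
      IsUnit (nt : ZMod D) ∧ IsUnit (nt' : ZMod D) ∧ IsUnit (nu : ZMod D) ∧
      IsUnit (nu' : ZMod D) ∧
      Ideal.span {t} * a = Ideal.span {t'} * (c.R A : Ideal (𝓞 F)) ∧
      Ideal.span {u} * b = Ideal.span {u'} * (c.R B : Ideal (𝓞 F)) ∧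
      ρ * (nt' * nu) = nt * nu' ∧
      ρ ^ 2 * (Ideal.absNorm (c.R B : Ideal (𝓞 F)) : ZMod D) =
        (Ideal.absNorm (c.R A : Ideal (𝓞 F)) : ZMod D) ∧ IsUnit ρ := by
  have ha1 : a ∈ (Ideal (𝓞 F))⁰ := mem_nonZeroDivisors_of_ne_zero ha0
  have hb1 : b ∈ (Ideal (𝓞 F))⁰ := mem_nonZeroDivisors_of_ne_zero hb0
  obtain ⟨t, t', nt, nt', q1, q2, q3, q4, q5⟩ := exists_mul (a := ⟨a, ha1⟩)
    (a' := c.R (ClassGroup.mk0 ⟨a, ha1⟩)) h3 h7 h9 h10 ha (hc _) (c.cls _).symm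
  obtain ⟨u, u', nu, nu', p1, p2, p3, p4, p5⟩ := exists_mul (a := ⟨b, hb1⟩)
    (a' := c.R (ClassGroup.mk0 ⟨b, hb1⟩)) h3 h7 h9 h10 hb (hc _) (c.cls _).symm
  obtain ⟨v, hv⟩ := q4.mul p3
  have hρ : (nt : ZMod D) * nu' * (v⁻¹ : (ZMod D)ˣ) * (nt' * nu) = nt * nu' := by
    rw [← hv, mul_assoc, Units.inv_mul, mul_one]
  refine ⟨_, _, (nt : ZMod D) * nu' * (v⁻¹ : (ZMod D)ˣ), t, t', u, u', nt, nt', nu, nu', q1, q2,
    p1, p2, q3, q4, p3, p4, q5, p5, hρ, ?_, (q3.mul p4).mul (v⁻¹).isUnit⟩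
  -- norms
  have e1 := congrArg (fun I => (Ideal.absNorm I : ZMod D)) q5
  have e2 := congrArg (fun I => (Ideal.absNorm I : ZMod D)) p5
  simp only [map_mul, Nat.cast_mul] at e1 e2
  rw [norm_eq_sq h3 h5 h10 q1, norm_eq_sq h3 h5 h10 q2] at e1
  rw [norm_eq_sq h3 h5 h10 p1, norm_eq_sq h3 h5 h10 p2] at e2
  simp only [hab] at e1
  set ρ := (nt : ZMod D) * nu' * (v⁻¹ : (ZMod D)ˣ)
  have hu : IsUnit (((nt' : ZMod D) * nu) ^ 2 * (nu' : ZMod D) ^ 2) :=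
    ((q4.mul p3).pow 2).mul (p4.pow 2)
  refine hu.mul_left_cancel ?_
  have e3 : ρ ^ 2 * ((nt' : ZMod D) * nu) ^ 2 = (nt * nu' : ZMod D) ^ 2 := by
    rw [← hρ]
    ring
  linear_combination
    (nu' : ZMod D) ^ 2 * (Ideal.absNorm (c.R (ClassGroup.mk0 ⟨b, hb1⟩) : Ideal (𝓞 F)) : ZMod D) * e3
      - (nt : ZMod D) ^ 2 * (nu' : ZMod D) ^ 2 * e2 + (nu' : ZMod D) ^ 2 * (nu : ZMod D) ^ 2 * e1

/-- The norm of the conjugate ideal. -/
lemma norm_conj (h5 : ∀ x : 𝓞 F, x * cj x = (Ideal.absNorm (Ideal.span {x}) : 𝓞 F))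
    (h7 : ∀ a : Ideal (𝓞 F),
      a * a.map (cj : 𝓞 F →+* 𝓞 F) = Ideal.span {(Ideal.absNorm a : 𝓞 F)})
    {a : Ideal (𝓞 F)} (ha : a ≠ ⊥) :
    Ideal.absNorm (a.map (cj : 𝓞 F →+* 𝓞 F)) = Ideal.absNorm a := by
  have h1 : ∀ n : ℕ, Ideal.absNorm (Ideal.span {(n : 𝓞 F)}) = n * n := by
    intro n
    have h := h5 (n : 𝓞 F)
    rw [map_natCast, ← Nat.cast_mul] at h
    exact_mod_cast h.symm
  have h2 := congrArg Ideal.absNorm (h7 a)
  rw [map_mul, h1] at h2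
  have h3 : Ideal.absNorm a ≠ 0 := by
    rw [Ne, Ideal.absNorm_eq_zero_iff]
    exact ha
  exact mul_left_cancel₀ h3 h2

/-- Products of congruences modulo `s`. -/
lemma dvd_mul_sub {x y : 𝓞 F} {m n : ℤ} (hx : s ∣ x - m) (hy : s ∣ y - n) :
    s ∣ x * y - ((m * n : ℤ) : 𝓞 F) := by
  have e : x * y - ((m * n : ℤ) : 𝓞 F) = (x - m) * y + m * (y - n) := by
    push_cast
    ring
  rw [e]
  exact dvd_add (dvd_mul_of_dvd_left hx _) (dvd_mul_of_dvd_right hy _)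

end

end TripAux

theorem stTrip (h1 : StTinj) (h2 : StGen) (h3 : StBasD) (_h4 : StRam) : StTrip := by
  intro D hD0 F _ _ s σ χ cj c Φ hD hc hΦ
  classical
  obtain ⟨g1, g2, g3, g4, g5, g6, g7, g8, g9, g10⟩ := h3 D F _ _ s σ χ cj hD
  have hcard := h2 D hD0 F _ _ s σ χ cj c hD hc
  have hinj : Function.Injective (cj : 𝓞 F →+* 𝓞 F) := cj.injective
  -- the pairs of ideals
  let ia : ClassGroup (𝓞 F) × ClassGroup (𝓞 F) → Ideal (𝓞 F) := fun p =>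
    (c.R p.2 : Ideal (𝓞 F)) * (c.R p.1 : Ideal (𝓞 F)).map (cj : 𝓞 F →+* 𝓞 F)
  let ib : ClassGroup (𝓞 F) × ClassGroup (𝓞 F) → Ideal (𝓞 F) := fun p =>
    (c.R p.2 : Ideal (𝓞 F)) * (c.R p.1 : Ideal (𝓞 F))
  have hR0 : ∀ A, (c.R A : Ideal (𝓞 F)) ≠ ⊥ := fun A => nonZeroDivisors.coe_ne_zero _
  have hRc0 : ∀ A, (c.R A : Ideal (𝓞 F)).map (cj : 𝓞 F →+* 𝓞 F) ≠ ⊥ := fun A h =>
    hR0 A ((Ideal.map_eq_bot_iff_of_injective hinj).mp h)
  have hRc : ∀ A, IsCoprime ((c.R A : Ideal (𝓞 F)).map (cj : 𝓞 F →+* 𝓞 F))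
      (Ideal.span {s}) := fun A => TripAux.coprime_conj g3 (hc A)
  have hia0 : ∀ p, ia p ≠ ⊥ := fun p => mul_ne_zero (hR0 _) (hRc0 _)
  have hib0 : ∀ p, ib p ≠ ⊥ := fun p => mul_ne_zero (hR0 _) (hR0 _)
  have hiac : ∀ p, IsCoprime (ia p) (Ideal.span {s}) := fun p => (hc _).mul_left (hRc _)
  have hibc : ∀ p, IsCoprime (ib p) (Ideal.span {s}) := fun p => (hc _).mul_left (hc _)
  have hN : ∀ p, Ideal.absNorm (ia p) = Ideal.absNorm (ib p) := by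
    intro p
    simp only [ia, ib, map_mul]
    rw [TripAux.norm_conj g5 g7 (hR0 _)]
  choose A B ρ t t' u u' nt nt' nu nu' q1 q2 q3 q4 q5 q6 q7 q8 q9 q10 q11 q12 q13 using
    fun p => TripAux.exists_triple c hc g3 g5 g7 g9 g10 (hia0 p) (hib0 p) (hiac p) (hibc p)
      (hN p)
  -- the map
  let Θ : (ClassGroup (𝓞 F) × ClassGroup (𝓞 F)) × Bool →
      ClassGroup (𝓞 F) × ClassGroup (𝓞 F) × ZMod D :=
    fun x => (A x.1, B x.1, if x.2 then ρ x.1 else -ρ x.1)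
  have htwo : ∀ v : ZMod D, IsUnit v → v ≠ -v := by
    intro v hv h
    have h5 : ((2 : ℕ) : ZMod D) = 0 := by
      refine hv.mul_left_cancel ?_
      rw [mul_zero]
      push_cast
      linear_combination h
    rw [ZMod.natCast_eq_zero_iff] at h5
    have h6 := Nat.le_of_dvd (by norm_num) h5
    have h7 := hD.odd.2.2
    omega
  have hΘ : Function.Injective Θ := by
    intro x y hxy
    have hA : A x.1 = A y.1 := congrArg Prod.fst hxy
    have hB : B x.1 = B y.1 := congrArg (fun z => z.2.1) hxy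
    have hρ : (if x.2 then ρ x.1 else -ρ x.1) = if y.2 then ρ y.1 else -ρ y.1 :=
      congrArg (fun z => z.2.2) hxy
    have hρ' : ρ x.1 = ρ y.1 ∨ ρ x.1 = -ρ y.1 := by
      split_ifs at hρ
      · exact Or.inl hρ
      · exact Or.inr hρ
      · exact Or.inr (neg_eq_iff_eq_neg.mp hρ)
      · exact Or.inl (neg_injective hρ)
    have hcls := h1 D F _ _ s σ χ cj hD (c.R x.1.1) (c.R y.1.1) (c.R x.1.2) (c.R y.1.2)
      (t x.1 * t' y.1) (t' x.1 * t y.1) (u x.1 * u' y.1) (u' x.1 * u y.1)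
      (nt x.1 * nt' y.1) (nt' x.1 * nt y.1) (nu x.1 * nu' y.1) (nu' x.1 * nu y.1)
      (hc _) (hc _) (hc _) (hc _) (TripAux.dvd_mul_sub (q1 _) (q2 _))
      (TripAux.dvd_mul_sub (q2 _) (q1 _)) (TripAux.dvd_mul_sub (q3 _) (q4 _))
      (TripAux.dvd_mul_sub (q4 _) (q3 _))
      (by push_cast; exact (q5 _).mul (q6 _)) (by push_cast; exact (q6 _).mul (q5 _))
      (by push_cast; exact (q7 _).mul (q8 _)) (by push_cast; exact (q8 _).mul (q7 _))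
      (by
        rw [← Ideal.span_singleton_mul_span_singleton, ← Ideal.span_singleton_mul_span_singleton]
        have e1 : Ideal.span {t x.1} * Ideal.span {t' y.1} * ia x.1 =
            Ideal.span {t' y.1} * (Ideal.span {t x.1} * ia x.1) := by ring
        have e2 : Ideal.span {t' x.1} * Ideal.span {t y.1} * ia y.1 =
            Ideal.span {t' x.1} * (Ideal.span {t y.1} * ia y.1) := by ring
        show Ideal.span {t x.1} * Ideal.span {t' y.1} * ia x.1 =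
          Ideal.span {t' x.1} * Ideal.span {t y.1} * ia y.1
        rw [e1, e2, q9, q9, hA]
        ring)
      (by
        rw [← Ideal.span_singleton_mul_span_singleton, ← Ideal.span_singleton_mul_span_singleton]
        have e1 : Ideal.span {u x.1} * Ideal.span {u' y.1} * ib x.1 =
            Ideal.span {u' y.1} * (Ideal.span {u x.1} * ib x.1) := by ring
        have e2 : Ideal.span {u' x.1} * Ideal.span {u y.1} * ib y.1 =
            Ideal.span {u' x.1} * (Ideal.span {u y.1} * ib y.1) := by ring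
        show Ideal.span {u x.1} * Ideal.span {u' y.1} * ib x.1 =
          Ideal.span {u' x.1} * Ideal.span {u y.1} * ib y.1
        rw [e1, e2, q10, q10, hB]
        ring)
      (by
        push_cast
        have e1 := q11 x.1
        have e2 := q11 y.1
        rcases hρ' with h | h
        · left
          rw [h] at e1
          linear_combination (-(nt' y.1 * nu y.1 : ZMod D)) * e1 + (nt' x.1 * nu x.1 : ZMod D) * e2
        · right
          rw [h] at e1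
          linear_combination (-(nt' y.1 * nu y.1 : ZMod D)) * e1 - (nt' x.1 * nu x.1 : ZMod D) * e2)
    rw [c.cls, c.cls, c.cls, c.cls] at hcls
    have hxy1 : x.1 = y.1 := Prod.ext hcls.1 hcls.2
    refine Prod.ext hxy1 ?_
    rw [hxy1] at hρ
    cases hx2 : x.2 <;> cases hy2 : y.2
    · rfl
    · simp only [hx2, hy2, Bool.false_eq_true, if_false, if_true] at hρ
      exact absurd hρ.symm (htwo _ (q13 _))
    · simp only [hx2, hy2, Bool.false_eq_true, if_false, if_true] at hρ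
      exact absurd hρ (htwo _ (q13 _))
    · rfl
  -- the set of triples
  let T : Finset (ClassGroup (𝓞 F) × ClassGroup (𝓞 F) × ZMod D) :=
    Finset.univ.filter fun x => x.2.2 ^ 2 * (Ideal.absNorm (c.R x.2.1 : Ideal (𝓞 F)) : ZMod D) =
      (Ideal.absNorm (c.R x.1 : Ideal (𝓞 F)) : ZMod D)
  have hT : T.card = 2 * Nat.card (ClassGroup (𝓞 F)) ^ 2 := by
    rw [← hcard, Finset.card_filter, Fintype.sum_prod_type]
    refine Finset.sum_congr rfl fun _ _ => ?_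
    rw [Fintype.sum_prod_type]
  have himg : Finset.univ.image Θ = T := by
    refine Finset.eq_of_subset_of_card_le ?_ ?_
    · intro z hz
      obtain ⟨x, -, rfl⟩ := Finset.mem_image.mp hz
      refine Finset.mem_filter.mpr ⟨Finset.mem_univ _, ?_⟩
      show (if x.2 then ρ x.1 else -ρ x.1) ^ 2 * _ = _
      have e : (if x.2 then ρ x.1 else -ρ x.1) ^ 2 = ρ x.1 ^ 2 := by
        split_ifs
        · rfl
        · exact neg_sq _
      rw [e]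
      exact q12 x.1
    · rw [hT, Finset.card_image_of_injective _ hΘ, Finset.card_univ, Fintype.card_prod,
        Fintype.card_prod, Fintype.card_bool, ← Nat.card_eq_fintype_card]
      exact le_of_eq (by ring)
  -- the function
  have hΦ1 : ∀ p, Φ (c.R (A p) : Ideal (𝓞 F)) (c.R (B p) : Ideal (𝓞 F)) (ρ p) =
      Φ (ia p) (ib p) 1 := by
    intro p
    refine (hΦ (ia p) (c.R (A p)) (ib p) (c.R (B p)) (t p) (t' p) (u p) (u' p) (nt p) (nt' p)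
      (nu p) (nu' p) 1 (ρ p) (hia0 p) (hib0 p) (hR0 _) (hR0 _) (hiac p) (hibc p) (hc _) (hc _)
      (q1 p) (q2 p) (q3 p) (q4 p) (q5 p) (q6 p) (q7 p) (q8 p) (q9 p) (q10 p) ?_).symm
    rw [q11 p, one_mul]
  have hΦ2 : ∀ (a b : Ideal (𝓞 F)) (v : ZMod D), a ≠ ⊥ → b ≠ ⊥ →
      IsCoprime a (Ideal.span {s}) → IsCoprime b (Ideal.span {s}) → Φ a b (-v) = Φ a b v := by
    intro a b v ha hb hac hbc
    refine (hΦ a a b b (-1) 1 1 1 (-1) 1 1 1 v (-v) ha hb ha hb hac hbc hac hbc ?_ ?_ ?_ ?_ ?_ ?_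
      ?_ ?_ ?_ rfl ?_).symm
    · simp
    · simp
    · simp
    · simp
    · simp
    · simp
    · simp
    · simp
    · rw [Ideal.span_singleton_neg]
    · push_cast
      ring
  -- the sums
  have hL : ∑ A : ClassGroup (𝓞 F), ∑ B : ClassGroup (𝓞 F), ∑ ρ : ZMod D,
      (if ρ ^ 2 * (Ideal.absNorm (c.R B : Ideal (𝓞 F)) : ZMod D) =
        (Ideal.absNorm (c.R A : Ideal (𝓞 F)) : ZMod D) then
        Φ (c.R A : Ideal (𝓞 F)) (c.R B : Ideal (𝓞 F)) ρ else 0) =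
      ∑ x ∈ T, Φ (c.R x.1 : Ideal (𝓞 F)) (c.R x.2.1 : Ideal (𝓞 F)) x.2.2 := by
    rw [Finset.sum_filter, Fintype.sum_prod_type]
    refine Finset.sum_congr rfl fun _ _ => ?_
    rw [Fintype.sum_prod_type]
  rw [hL, ← himg, Finset.sum_image fun x _ y _ h => hΘ h, Fintype.sum_prod_type, Finset.mul_sum,
    Fintype.sum_prod_type]
  refine Finset.sum_congr rfl fun C _ => ?_
  rw [Finset.mul_sum]
  refine Finset.sum_congr rfl fun E _ => ?_
  rw [Fintype.sum_bool]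
  show Φ (c.R (A (C, E)) : Ideal (𝓞 F)) (c.R (B (C, E)) : Ideal (𝓞 F)) (ρ (C, E)) +
    Φ (c.R (A (C, E)) : Ideal (𝓞 F)) (c.R (B (C, E)) : Ideal (𝓞 F)) (-ρ (C, E)) = _
  rw [hΦ2 _ _ _ (hR0 _) (hR0 _) (hc _) (hc _), hΦ1]
  ring

end RZ

end Pool.Agent.Lib.MP_7c08ba_nt
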