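import Pool.Agent.Lib.MP_7c08ba_nt.RZ.StA

set_option autoImplicit false

/-!
(A1) unfolding over the modular group.
-/

namespace Pool.Agent.Lib.MP_7c08ba_nt

namespace RZ

open Filter Topology MeasureTheory MatrixGroups
open UpperHalfPlane hiding I
open scoped Modular

namespace UnfAux

theorem continuous_sl (g : SL(2, ℤ)) : Continuous fun z : ℍ => g • z :=
  continuous_const_smul (g : GL (Fin 2) ℝ)

theorem inv_sl : SMulInvariantMeasure SL(2, ℤ) ℍ volume :=
  ⟨fun c _ hs => SMulInvariantMeasure.measure_preimage_smul (c : GL (Fin 2) ℝ) hs⟩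

theorem mp_sl (g : SL(2, ℤ)) : MeasurePreserving (fun z : ℍ => g • z) volume volume := by
  refine ⟨(continuous_sl g).measurable, ?_⟩
  ext s hs
  rw [Measure.map_apply (continuous_sl g).measurable hs]
  exact inv_sl.measure_preimage_smul g hs

theorem vol_line (c : ℝ) : volume {z : ℂ | z.re = c} = 0 := by
  have h1 := Complex.volume_preserving_equiv_real_prod
  have h2 : {z : ℂ | z.re = c} =
      Complex.measurableEquivRealProd ⁻¹' (({c} : Set ℝ) ×ˢ (Set.univ : Set ℝ)) := by
    ext z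
    simp [Complex.measurableEquivRealProd]
  rw [h2, h1.measure_preimage_equiv, Measure.volume_eq_prod, Measure.prod_prod, measure_singleton,
    zero_mul]

theorem null_bd : volume (𝒟 \ 𝒟ᵒ : Set ℍ) = 0 := by
  rw [volume_eq_lintegral]
  have h0 : volume ((UpperHalfPlane.coe) '' (𝒟 \ 𝒟ᵒ : Set ℍ)) = 0 := by
    refine measure_mono_null (t := {z : ℂ | z.re = 1 / 2} ∪ {z : ℂ | z.re = -(1 / 2)} ∪
      Metric.sphere 0 1) ?_ ?_
    · rintro _ ⟨z, ⟨hz, hz'⟩, rfl⟩
      by_cases h1 : 1 < Complex.normSq (z : ℂ)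
      · left
        have h2 : ¬ |z.re| < 1 / 2 := fun h => hz' ⟨h1, h⟩
        have h3 : |z.re| = 1 / 2 := le_antisymm hz.2 (not_lt.1 h2)
        rcases abs_choice z.re with h | h
        · left
          show (z : ℂ).re = 1 / 2
          rw [← h3, h]
          rfl
        · right
          show (z : ℂ).re = -(1 / 2)
          rw [← h3, h, neg_neg]
          rfl
      · right
        have h2 : Complex.normSq (z : ℂ) = 1 := le_antisymm (not_lt.1 h1) hz.1
        rw [mem_sphere_zero_iff_norm]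
        rw [Complex.normSq_eq_norm_sq] at h2
        have h3 := norm_nonneg (z : ℂ)
        nlinarith
    · refine measure_union_null (measure_union_null (vol_line _) (vol_line _)) ?_
      exact Measure.addHaar_sphere _ _ _
  rw [Measure.restrict_eq_zero.2 h0, lintegral_zero_measure]

theorem countable_sl : Countable SL(2, ℤ) := by
  have h : Countable (Matrix (Fin 2) (Fin 2) ℤ) := inferInstanceAs (Countable (Fin 2 → Fin 2 → ℤ))
  exact Function.Injective.countable (f := fun g : SL(2, ℤ) => (g : Matrix (Fin 2) (Fin 2) ℤ))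
    Subtype.val_injective

theorem ae_good : ∀ᵐ z : ℍ, ∀ g : SL(2, ℤ), g • z ∈ 𝒟 → g • z ∈ 𝒟ᵒ := by
  have := countable_sl
  rw [ae_all_iff]
  intro g
  have h1 : volume ((fun z : ℍ => g • z) ⁻¹' (𝒟 \ 𝒟ᵒ : Set ℍ)) = 0 :=
    (mp_sl g).quasiMeasurePreserving.preimage_null null_bd
  have h2 := compl_mem_ae_iff.2 h1
  filter_upwards [h2] with z hz h
  by_contra h3
  exact hz ⟨h, h3⟩

/-- the indicator function of the fundamental domain -/
noncomputable def oneD (z : ℍ) : ℂ := Set.indicator 𝒟 (fun _ => (1 : ℂ)) z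

theorem meas_fd : MeasurableSet (𝒟 : Set ℍ) := ModularGroup.isClosed_fd.measurableSet

theorem oneD_meas : Measurable oneD := by
  unfold oneD
  exact measurable_const.indicator meas_fd

theorem ne_neg (g : SL(2, ℤ)) : g ≠ -g := by
  intro h
  have h1 : ∀ i j, g i j = -g i j := fun i j => by
    have h2 := congrArg (fun q : SL(2, ℤ) => q i j) h
    exact h2
  have h3 := g.det_coe
  rw [Matrix.det_fin_two] at h3
  have h4 : g 0 0 = 0 := by have := h1 0 0; omega
  have h5 : g 0 1 = 0 := by have := h1 0 1; omega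
  have h6 : (g : Matrix (Fin 2) (Fin 2) ℤ) 0 0 = 0 := h4
  have h7 : (g : Matrix (Fin 2) (Fin 2) ℤ) 0 1 = 0 := h5
  rw [h6, h7] at h3
  simp at h3

/-- all translates in the fundamental domain -/
theorem exists_pair (z : ℍ) (hz : ∀ g : SL(2, ℤ), g • z ∈ 𝒟 → g • z ∈ 𝒟ᵒ) :
    ∃ g₀ : SL(2, ℤ), g₀ • z ∈ 𝒟 ∧ (-g₀) • z ∈ 𝒟 ∧
      ∀ g : SL(2, ℤ), g • z ∈ 𝒟 → g = g₀ ∨ g = -g₀ := by
  obtain ⟨g₀, hg₀⟩ := ModularGroup.exists_smul_mem_fd z
  refine ⟨g₀, hg₀, ?_, fun g hD => ?_⟩
  · rw [ModularGroup.SL_neg_smul]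
    exact hg₀
  · have h3 : (g * g₀⁻¹) • (g₀ • z) ∈ 𝒟 := by
      rw [smul_smul, inv_mul_cancel_right]
      exact hD
    rcases ModularGroup.eq_one_or_neg_one_of_mem_fdo_mem_fd (hz g₀ hg₀) h3 with h | h
    · left
      exact mul_inv_eq_one.1 h
    · right
      rw [← inv_mul_cancel_right g g₀, h, neg_mul, one_mul]

variable {E : Type*} [AddCommMonoid E] [TopologicalSpace E]

/-- sums over the translates by inverses -/
theorem hasSum_two (z : ℍ) (hz : ∀ g : SL(2, ℤ), g • z ∈ 𝒟 → g • z ∈ 𝒟ᵒ) (f : ℍ → E) (a : E)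
    (h1 : ∀ w ∈ (𝒟 : Set ℍ), f w = a) (h2 : ∀ w ∉ (𝒟 : Set ℍ), f w = 0) :
    HasSum (fun g : SL(2, ℤ) => f (g⁻¹ • z)) (a + a) := by
  classical
  obtain ⟨g₀, hg, hg', hall⟩ := exists_pair z hz
  have h3 : HasSum (fun g : SL(2, ℤ) => f (g • z)) (a + a) := by
    have h4 : ∀ g ∉ ({g₀, -g₀} : Finset SL(2, ℤ)), f (g • z) = 0 := by
      intro g hg
      refine h2 _ fun hD => hg ?_
      rw [Finset.mem_insert, Finset.mem_singleton]
      exact hall g hD
    have h5 : ∑ g ∈ ({g₀, -g₀} : Finset SL(2, ℤ)), f (g • z) = a + a := by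
      rw [Finset.sum_pair (ne_neg g₀), h1 _ hg, h1 _ hg']
    have h6 : HasSum (fun g : SL(2, ℤ) => f (g • z))
      (∑ g ∈ ({g₀, -g₀} : Finset SL(2, ℤ)), f (g • z)) := hasSum_sum_of_ne_finset_zero h4
    rw [h5] at h6
    exact h6
  exact (Equiv.inv SL(2, ℤ)).hasSum_iff.2 h3

/-! ### coprime pairs -/

/-- the matrix attached to a coprime pair -/
def gm (v : Cop) : SL(2, ℤ) :=
  ⟨!![Int.gcdB v.1.1 v.1.2, -Int.gcdA v.1.1 v.1.2; v.1.1, v.1.2], by
    have h := Int.gcd_eq_gcd_ab v.1.1 v.1.2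
    rw [Int.isCoprime_iff_gcd_eq_one.1 v.2] at h
    rw [Matrix.det_fin_two_of]
    push_cast at h
    linear_combination -h⟩

theorem gm_00 (v : Cop) : gm v 0 0 = Int.gcdB v.1.1 v.1.2 := rfl
theorem gm_01 (v : Cop) : gm v 0 1 = -Int.gcdA v.1.1 v.1.2 := rfl
theorem gm_10 (v : Cop) : gm v 1 0 = v.1.1 := rfl
theorem gm_11 (v : Cop) : gm v 1 1 = v.1.2 := rfl

theorem mob_eq (v : Cop) (z : ℍ) : mob v.1 z = ((gm v • z : ℍ) : ℂ) := by
  rw [UpperHalfPlane.specialLinearGroup_apply, mob]
  simp only [gm_00, gm_01, gm_10, gm_11, algebraMap_int_eq, Int.coe_castRingHom]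
  push_cast
  simp [sub_eq_add_neg]

theorem T_mul (n : ℤ) (g : SL(2, ℤ)) : (ModularGroup.T ^ n * g) 0 0 = g 0 0 + n * g 1 0 ∧
    (ModularGroup.T ^ n * g) 0 1 = g 0 1 + n * g 1 1 ∧ (ModularGroup.T ^ n * g) 1 0 = g 1 0 ∧
    (ModularGroup.T ^ n * g) 1 1 = g 1 1 := by
  have h : ∀ i j, (ModularGroup.T ^ n * g) i j =
      (!![1, n; 0, 1] * (g : Matrix (Fin 2) (Fin 2) ℤ)) i j := by
    intro i j
    rw [← ModularGroup.coe_T_zpow]
    rfl
  refine ⟨?_, ?_, ?_, ?_⟩ <;> rw [h] <;> simp [Matrix.mul_apply, Fin.sum_univ_two]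

theorem sl_ext {g h : SL(2, ℤ)} (h00 : g 0 0 = h 0 0) (h01 : g 0 1 = h 0 1)
    (h10 : g 1 0 = h 1 0) (h11 : g 1 1 = h 1 1) : g = h := by
  apply Subtype.ext
  funext i j
  fin_cases i <;> fin_cases j
  exacts [h00, h01, h10, h11]

/-- the parametrisation of `SL₂(ℤ)` -/
noncomputable def par : Cop × ℤ ≃ SL(2, ℤ) := Equiv.ofBijective
  (fun x => ModularGroup.T ^ x.2 * gm x.1) (by
    constructor
    · rintro ⟨v, n⟩ ⟨v', n'⟩ h
      have h0 : ModularGroup.T ^ n * gm v = ModularGroup.T ^ n' * gm v' := h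
      have h10 := congrArg (fun q : SL(2, ℤ) => q 1 0) h0
      have h11 := congrArg (fun q : SL(2, ℤ) => q 1 1) h0
      have h00 := congrArg (fun q : SL(2, ℤ) => q 0 0) h0
      have h01 := congrArg (fun q : SL(2, ℤ) => q 0 1) h0
      simp only [(T_mul _ _).1, (T_mul _ _).2.1, (T_mul _ _).2.2.1, (T_mul _ _).2.2.2,
        gm_10, gm_11] at h00 h01 h10 h11
      have hv : v = v' := Subtype.ext (Prod.ext h10 h11)
      subst hv
      have h1 : (n - n') * v.1.1 = 0 := by linarith
      have h2 : (n - n') * v.1.2 = 0 := by linarith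
      obtain ⟨a, b, hab⟩ := v.2
      have h3 : n - n' = 0 := by
        calc n - n' = (n - n') * (a * v.1.1 + b * v.1.2) := by rw [hab, mul_one]
          _ = a * ((n - n') * v.1.1) + b * ((n - n') * v.1.2) := by ring
          _ = 0 := by rw [h1, h2]; ring
      rw [sub_eq_zero.1 h3]
    · intro g
      have hdet : g 0 0 * g 1 1 - g 0 1 * g 1 0 = 1 := by
        have h := g.det_coe
        rw [Matrix.det_fin_two] at h
        exact h
      have hc : IsCoprime (g 1 0) (g 1 1) := ⟨-g 0 1, g 0 0, by linarith⟩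
      let v : Cop := ⟨(g 1 0, g 1 1), hc⟩
      have hdet' : gm v 0 0 * g 1 1 - gm v 0 1 * g 1 0 = 1 := by
        have h := (gm v).det_coe
        rw [Matrix.det_fin_two] at h
        exact h
      refine ⟨(v, (g 0 0 - gm v 0 0) * -gm v 0 1 + (g 0 1 - gm v 0 1) * gm v 0 0), ?_⟩
      refine sl_ext ?_ ?_ ?_ ?_
      · rw [(T_mul _ _).1]
        have : gm v 1 0 = g 1 0 := rfl
        rw [this]
        linear_combination (g 0 0 - gm v 0 0) * hdet' -
          gm v 0 0 * (hdet - hdet')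
      · rw [(T_mul _ _).2.1]
        have : gm v 1 1 = g 1 1 := rfl
        rw [this]
        linear_combination (g 0 1 - gm v 0 1) * hdet' -
          gm v 0 1 * (hdet - hdet')
      · rw [(T_mul _ _).2.2.1]
        rfl
      · rw [(T_mul _ _).2.2.2]
        rfl)

theorem par_apply (v : Cop) (n : ℤ) : par (v, n) = ModularGroup.T ^ n * gm v := rfl

theorem coe_T_smul (n : ℤ) (z : ℍ) : ((ModularGroup.T ^ n • z : ℍ) : ℂ) = z + n := by
  rw [UpperHalfPlane.modular_T_zpow_smul, UpperHalfPlane.coe_vadd]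
  push_cast
  ring

theorem per {G : ℂ → ℂ} (hper : ∀ z : ℂ, 0 < z.im → G (z + 1) = G z) (n : ℤ) (z : ℂ)
    (hz : 0 < z.im) : G (z + n) = G z := by
  induction n using Int.induction_on with
  | zero => simp
  | succ i ih =>
    have h := hper (z + (i : ℤ)) (by simpa using hz)
    rw [← ih, ← h]
    congr 1
    push_cast
    ring
  | pred i ih =>
    have h := hper (z + (-(i : ℤ) - 1 : ℤ)) (by simpa using hz)
    rw [← ih, ← h]
    congr 1
    push_cast
    ring

theorem strip_iff (n : ℤ) (z : ℍ) : ModularGroup.T ^ n • z ∈ strip ↔ n = 1 - ⌈z.re⌉ := by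
  have h : (ModularGroup.T ^ n • z : ℍ).re = z.re + n := by
    have := congrArg Complex.re (coe_T_smul n z)
    simpa using this
  constructor
  · rintro ⟨h1, h2⟩
    rw [h] at h1 h2
    have h3 : ⌈z.re⌉ = 1 - n := by
      rw [Int.ceil_eq_iff]
      constructor
      · push_cast; linarith
      · push_cast; linarith
    omega
  · rintro rfl
    refine ⟨?_, ?_⟩
    · rw [h]
      push_cast
      have := Int.ceil_lt_add_one z.re
      linarith
    · rw [h]
      push_cast
      have := Int.le_ceil z.re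
      linarith

/-- the function on the strip -/
noncomputable def ph (G : ℂ → ℂ) (z : ℍ) : ℂ := strip.indicator (fun z : ℍ => G z) z

theorem hasSum_ph {G : ℂ → ℂ} (hper : ∀ z : ℂ, 0 < z.im → G (z + 1) = G z) (v : Cop) (z : ℍ) :
    HasSum (fun n : ℤ => ph G (par (v, n) • z)) (G (mob v.1 z)) := by
  have h : ∀ n : ℤ, par (v, n) • z = ModularGroup.T ^ n • (gm v • z) := by
    intro n
    rw [par_apply, mul_smul]
  have h1 : G (mob v.1 z) = ph G (par (v, 1 - ⌈(gm v • z : ℍ).re⌉) • z) := by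
    rw [h, ph, Set.indicator_of_mem ((strip_iff _ _).2 rfl), coe_T_smul,
      per hper _ _ (gm v • z : ℍ).im_pos, mob_eq]
  rw [h1]
  refine hasSum_single _ fun n hn => ?_
  rw [h, ph]
  exact Set.indicator_of_notMem (fun h2 => hn ((strip_iff _ _).1 h2)) _

theorem meas_strip : MeasurableSet strip := by
  have h : strip = UpperHalfPlane.re ⁻¹' Set.Ioc 0 1 := rfl
  rw [h]
  exact UpperHalfPlane.continuous_re.measurable measurableSet_Ioc

end UnfAux

open UnfAux in
theorem stUnf : StUnf := by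
  intro G _ hper hint
  have := countable_sl
  have hΦ : Integrable (ph G) := (integrable_indicator_iff meas_strip).2 hint
  -- the two families
  let u : SL(2, ℤ) → ℍ → ℂ := fun g z => oneD z * ph G (g • z)
  let w : SL(2, ℤ) → ℍ → ℂ := fun g z => oneD (g⁻¹ • z) * ph G z
  have huw : ∀ g z, u g z = w g (g • z) := by
    intro g z
    simp only [u, w, inv_smul_smul]
  have wm : ∀ g, AEStronglyMeasurable (w g) volume := fun g =>
    ((oneD_meas.comp (continuous_sl _).measurable).aestronglyMeasurable).mul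
      hΦ.aestronglyMeasurable
  have um : ∀ g, AEStronglyMeasurable (u g) volume := fun g =>
    (oneD_meas.aestronglyMeasurable).mul
      (hΦ.aestronglyMeasurable.comp_measurePreserving (mp_sl g))
  have me : ∀ g : SL(2, ℤ), MeasurableEmbedding fun z : ℍ => g • z := fun g =>
    ((Homeomorph.smul (g : GL (Fin 2) ℝ)).measurableEmbedding)
  have lint : ∀ g, ∫⁻ z, ‖u g z‖ₑ = ∫⁻ z, ‖w g z‖ₑ := by
    intro g
    simp only [huw]
    exact (mp_sl g).lintegral_comp_emb (me g) (fun z => ‖w g z‖ₑ)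
  have iint : ∀ g, ∫ z, u g z = ∫ z, w g z := by
    intro g
    simp only [huw]
    exact (mp_sl g).integral_comp (me g) (fun z => w g z)
  have wsum : ∀ᵐ z : ℍ, HasSum (fun g => w g z) (2 * ph G z) := by
    filter_upwards [ae_good] with z hz
    have h1 := hasSum_two z hz oneD 1 (fun w hw => Set.indicator_of_mem hw _)
      (fun w hw => Set.indicator_of_notMem hw _)
    have h2 := h1.mul_right (ph G z)
    rw [one_add_one_eq_two] at h2
    exact h2
  have wesum : ∀ᵐ z : ℍ, ∑' g, ‖w g z‖ₑ = 2 * ‖ph G z‖ₑ := by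
    filter_upwards [ae_good] with z hz
    have h1 := hasSum_two z hz (fun z => ‖oneD z‖ₑ) 1
      (fun w hw => by
        have : oneD w = 1 := Set.indicator_of_mem hw _
        simp [this])
      (fun w hw => by
        have : oneD w = 0 := Set.indicator_of_notMem hw _
        simp [this])
    simp only [w, enorm_mul]
    rw [ENNReal.tsum_mul_right, h1.tsum_eq, one_add_one_eq_two]
  have hfin : ∑' g, ∫⁻ z, ‖w g z‖ₑ ≠ ⊤ := by
    rw [← lintegral_tsum (fun g => (wm g).enorm), lintegral_congr_ae wesum,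
      lintegral_const_mul' _ _ (by norm_num)]
    exact ENNReal.mul_ne_top (by norm_num) hΦ.hasFiniteIntegral.ne
  have hfin' : ∑' g, ∫⁻ z, ‖u g z‖ₑ ≠ ⊤ := by
    simp only [lint]
    exact hfin
  have hlt : ∫⁻ z, ∑' g, ‖u g z‖ₑ ≠ ⊤ := by
    rw [lintegral_tsum (fun g => (um g).enorm)]
    exact hfin'
  have hae : ∀ᵐ z : ℍ, Summable fun g => u g z := by
    have hm : AEMeasurable (fun z : ℍ => ∑' g, ‖u g z‖ₑ) :=
      AEMeasurable.tsum fun g => (um g).enorm
    filter_upwards [ae_lt_top' hm hlt] with z hz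
    apply Summable.of_enorm
    exact hz.ne
  -- summability over the group, almost everywhere
  have hgr : ∀ᵐ z : ℍ, Summable fun g : SL(2, ℤ) => ph G (g • z) := by
    have h1 : ∀ᵐ z : ℍ, ∀ h : SL(2, ℤ), Summable fun g => u g (h • z) := by
      rw [ae_all_iff]
      intro h
      exact (mp_sl h).quasiMeasurePreserving.ae hae
    filter_upwards [h1] with z hz
    obtain ⟨h, hh⟩ := ModularGroup.exists_smul_mem_fd z
    have h2 := hz h
    have h3 : oneD (h • z) = 1 := Set.indicator_of_mem hh _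
    simp only [u, h3, one_mul, smul_smul] at h2
    have h4 := (Equiv.mulRight h).summable_iff (f := fun g : SL(2, ℤ) => ph G (g • z))
    exact h4.1 h2
  have hcop : ∀ᵐ z : ℍ, (Summable fun v : Cop => G (mob v.1 z)) ∧
      ∑' v : Cop, G (mob v.1 z) = ∑' g : SL(2, ℤ), ph G (g • z) := by
    filter_upwards [hgr] with z hz
    have h1 : Summable fun x : Cop × ℤ => ph G (par x • z) :=
      (par.summable_iff (f := fun g : SL(2, ℤ) => ph G (g • z))).2 hz
    have h2 : (fun v : Cop => ∑' n : ℤ, ph G (par (v, n) • z)) = fun v : Cop => G (mob v.1 z) := by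
      funext v
      exact (hasSum_ph hper v z).tsum_eq
    refine ⟨?_, ?_⟩
    · rw [← h2]
      exact h1.prod
    · rw [← h2, ← h1.tsum_prod]
      exact par.tsum_eq (fun g : SL(2, ℤ) => ph G (g • z))
  have husum : ∀ᵐ z : ℍ, ∑' g, u g z =
      (𝒟 : Set ℍ).indicator (fun z : ℍ => ∑' v : Cop, G (mob v.1 z)) z := by
    filter_upwards [hcop] with z hz
    simp only [u]
    rw [tsum_mul_left, ← hz.2]
    by_cases hD : z ∈ (𝒟 : Set ℍ)
    · rw [Set.indicator_of_mem hD]
      have : oneD z = 1 := Set.indicator_of_mem hD _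
      rw [this, one_mul]
    · rw [Set.indicator_of_notMem hD]
      have : oneD z = 0 := Set.indicator_of_notMem hD _
      rw [this, zero_mul]
  have hIu : Integrable fun z : ℍ => ∑' g, u g z := by
    refine ⟨?_, ?_⟩
    · refine aestronglyMeasurable_of_tendsto_ae (atTop : Filter (Finset SL(2, ℤ)))
        (f := fun s z => ∑ g ∈ s, u g z) (fun s => ?_) ?_
      · exact Finset.aestronglyMeasurable_fun_sum s fun g _ => um g
      · filter_upwards [hae] with z hz using hz.hasSum
    · refine lt_of_le_of_lt (lintegral_mono fun z => ?_) (lt_top_iff_ne_top.2 hlt)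
      exact enorm_tsum_le_tsum_enorm
  refine ⟨hcop.mono fun z hz => hz.1, ?_, ?_⟩
  · rw [← integrable_indicator_iff meas_fd]
    exact hIu.congr husum
  · rw [← integral_indicator meas_fd, ← integral_congr_ae husum,
      integral_tsum um hfin']
    simp only [iint]
    rw [← integral_tsum wm hfin, ← integral_indicator meas_strip]
    rw [integral_congr_ae (wsum.mono fun z hz => hz.tsum_eq)]
    exact integral_const_mul _ _

end RZ

end Pool.Agent.Lib.MP_7c08ba_nt
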