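import Pool.Agent.Lib.MP_7c08ba_nt.RZ.StA

set_option autoImplicit false

/-!
(A11) sums over matrices of determinant `m` in terms of Poincaré series.
-/

namespace Pool.Agent.Lib.MP_7c08ba_nt

namespace RZ

open NumberField MeasureTheory UpperHalfPlane Set
open scoped MatrixGroups ComplexConjugate nonZeroDivisors

/-! ### the parametrisation of the matrices of determinant `m` -/

/-- the matrix attached to `g ∣ m`, a coprime pair and an integer -/
def wkM (m g : ℕ) (v : ℤ × ℤ) (s : ℤ) : Matrix (Fin 2) (Fin 2) ℤ :=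
  !![((m / g : ℕ) : ℤ) * Int.gcdB v.1 v.2 + s * v.1,
    -(((m / g : ℕ) : ℤ) * Int.gcdA v.1 v.2) + s * v.2; (g : ℤ) * v.1, (g : ℤ) * v.2]

lemma cop_bezout (v : Cop) : v.1.1 * Int.gcdA v.1.1 v.1.2 + v.1.2 * Int.gcdB v.1.1 v.1.2 = 1 := by
  have h := Int.gcd_eq_gcd_ab v.1.1 v.1.2
  rw [Int.isCoprime_iff_gcd_eq_one.1 v.2] at h
  exact_mod_cast h.symm

lemma wkM_det (m g : ℕ) (hg : g ∣ m) (v : Cop) (s : ℤ) : (wkM m g v.1 s).det = m := by
  have h := cop_bezout v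
  have h2 : ((m / g : ℕ) : ℤ) * g = m := by exact_mod_cast Nat.div_mul_cancel hg
  rw [Matrix.det_fin_two]
  simp only [wkM, Matrix.of_apply, Matrix.cons_val', Matrix.cons_val_zero, Matrix.cons_val_one,
    Matrix.cons_val_fin_one]
  linear_combination ((m / g : ℕ) : ℤ) * g * h + h2

/-- the parametrisation -/
def wkP (m : ℕ) (p : {g : ℕ // g ∈ m.divisors} × (Cop × ℤ)) : DetM m :=
  ⟨wkM m p.1.1 p.2.1.1 p.2.2, wkM_det m p.1.1 (Nat.dvd_of_mem_divisors p.1.2) p.2.1 p.2.2⟩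

lemma wkP_inj (m : ℕ) : Function.Injective (wkP m) := by
  rintro ⟨⟨g, hg⟩, v, s⟩ ⟨⟨g', hg'⟩, v', s'⟩ h
  have h0 : wkM m g v.1 s = wkM m g' v'.1 s' := congrArg Subtype.val h
  have h00 := congrFun (congrFun h0 0) 0
  have h01 := congrFun (congrFun h0 0) 1
  have h10 := congrFun (congrFun h0 1) 0
  have h11 := congrFun (congrFun h0 1) 1
  simp only [wkM, Matrix.of_apply, Matrix.cons_val', Matrix.cons_val_zero, Matrix.cons_val_one,
    Matrix.cons_val_fin_one] at h00 h01 h10 h11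
  have hgpos : 0 < g := Nat.pos_of_mem_divisors hg
  have e1 : ∀ (g : ℕ) (v : Cop), Int.gcd ((g : ℤ) * v.1.1) ((g : ℤ) * v.1.2) = g := by
    intro g v
    rw [Int.gcd_mul_left, Int.isCoprime_iff_gcd_eq_one.1 v.2]
    simp
  have hgg : g = g' := by
    rw [← e1 g v, ← e1 g' v', h10, h11]
  subst hgg
  have hg0 : (g : ℤ) ≠ 0 := by exact_mod_cast hgpos.ne'
  have hv1 : v.1.1 = v'.1.1 := mul_left_cancel₀ hg0 h10
  have hv2 : v.1.2 = v'.1.2 := mul_left_cancel₀ hg0 h11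
  have hv : v = v' := Subtype.ext (Prod.ext hv1 hv2)
  subst hv
  have hs : s = s' := by
    have hb := cop_bezout v
    linear_combination (Int.gcdA v.1.1 v.1.2) * h00 + (Int.gcdB v.1.1 v.1.2) * h01 -
      (s - s') * hb
  subst hs
  rfl

lemma wkP_surj (m : ℕ) (hm : 1 ≤ m) : Function.Surjective (wkP m) := by
  rintro ⟨M, hM⟩
  have hdet : M 0 0 * M 1 1 - M 0 1 * M 1 0 = m := by rw [← hM, Matrix.det_fin_two]
  set g := Int.gcd (M 1 0) (M 1 1) with hg
  have hgpos : 0 < g := by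
    rw [Nat.pos_iff_ne_zero]
    intro h0
    rw [hg, Int.gcd_eq_zero_iff] at h0
    rw [h0.1, h0.2] at hdet
    have : (m : ℤ) = 0 := by rw [← hdet]; ring
    omega
  obtain ⟨c, hc⟩ : (g : ℤ) ∣ M 1 0 := Int.gcd_dvd_left ..
  obtain ⟨d, hd⟩ : (g : ℤ) ∣ M 1 1 := Int.gcd_dvd_right ..
  have hg0 : (g : ℤ) ≠ 0 := by exact_mod_cast hgpos.ne'
  have hcop : IsCoprime c d := by
    rw [Int.isCoprime_iff_gcd_eq_one]
    have h1 : Int.gcd ((g : ℤ) * c) ((g : ℤ) * d) = g * Int.gcd c d := by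
      rw [Int.gcd_mul_left]; simp
    rw [← hc, ← hd, ← hg] at h1
    have h2 : g * 1 = g * Int.gcd c d := by rw [mul_one]; exact h1
    exact (Nat.eq_of_mul_eq_mul_left hgpos h2).symm
  have hm' : (m : ℤ) = g * (M 0 0 * d - M 0 1 * c) := by
    rw [← hdet, hc, hd]; ring
  have hgm : g ∣ m := by
    have : (g : ℤ) ∣ (m : ℤ) := ⟨_, hm'⟩
    exact_mod_cast this
  have hq : ((m / g : ℕ) : ℤ) = M 0 0 * d - M 0 1 * c := by
    have h2 : (g : ℤ) * ((m / g : ℕ) : ℤ) = m := by exact_mod_cast Nat.mul_div_cancel' hgm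
    exact mul_left_cancel₀ hg0 (h2.trans hm')
  let v : Cop := ⟨(c, d), hcop⟩
  have hb : c * Int.gcdA c d + d * Int.gcdB c d = 1 := cop_bezout v
  refine ⟨(⟨g, Nat.mem_divisors.2 ⟨hgm, by omega⟩⟩, v,
    M 0 0 * Int.gcdA c d + M 0 1 * Int.gcdB c d), ?_⟩
  apply Subtype.ext
  show wkM m g (c, d) (M 0 0 * Int.gcdA c d + M 0 1 * Int.gcdB c d) = M
  ext i j
  fin_cases i <;> fin_cases j
  · simp only [wkM, Matrix.of_apply, Matrix.cons_val', Matrix.cons_val_zero, Matrix.cons_val_one,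
      Matrix.cons_val_fin_one, Fin.zero_eta, Fin.mk_one]
    rw [hq]
    linear_combination M 0 0 * hb
  · simp only [wkM, Matrix.of_apply, Matrix.cons_val', Matrix.cons_val_zero, Matrix.cons_val_one,
      Matrix.cons_val_fin_one, Fin.zero_eta, Fin.mk_one]
    rw [hq]
    linear_combination M 0 1 * hb
  · simp only [wkM, Matrix.of_apply, Matrix.cons_val', Matrix.cons_val_zero, Matrix.cons_val_one,
      Matrix.cons_val_fin_one, Fin.zero_eta, Fin.mk_one]
    exact hc.symm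
  · simp only [wkM, Matrix.of_apply, Matrix.cons_val', Matrix.cons_val_zero, Matrix.cons_val_one,
      Matrix.cons_val_fin_one, Fin.zero_eta, Fin.mk_one]
    exact hd.symm

/-- the parametrisation as an equivalence -/
noncomputable def wkE (m : ℕ) (hm : 1 ≤ m) : {g : ℕ // g ∈ m.divisors} × (Cop × ℤ) ≃ DetM m :=
  Equiv.ofBijective (wkP m) ⟨wkP_inj m, wkP_surj m hm⟩

/-! ### exponentials and the Lipschitz formula -/

lemma wk_ee_norm (x : ℂ) : ‖ee x‖ = Real.exp (-(2 * Real.pi * x.im)) := by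
  unfold ee
  rw [Complex.norm_exp]
  congr 1
  have : (2 * (Real.pi : ℂ) * Complex.I * x) = ((2 * Real.pi : ℝ) : ℂ) * (Complex.I * x) := by
    push_cast; ring
  rw [this, Complex.re_ofReal_mul, Complex.I_mul_re]
  ring

lemma wk_ee_add (x y : ℂ) : ee (x + y) = ee x * ee y := by
  unfold ee
  rw [mul_add, Complex.exp_add]

lemma wk_ee_nat (n : ℕ) (x : ℂ) : ee (n * x) = ee x ^ n := by
  unfold ee
  rw [← Complex.exp_nat_mul]
  congr 1
  ring

lemma wk_ee_le {x : ℂ} (hx : 0 ≤ x.im) : ‖ee x‖ ≤ 1 := by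
  rw [wk_ee_norm, Real.exp_le_one_iff]
  have := Real.pi_pos
  have : 0 ≤ 2 * Real.pi * x.im := by positivity
  linarith

lemma wk_lip (w : ℕ) (hw : 5 ≤ w) (he : Even w) (τ : ℂ) (hτ : 0 < τ.im) :
    ∑' s : ℤ, ((τ + s) ^ w)⁻¹ =
      Cw w * ∑' k : ℕ, ((k : ℂ) + 1) ^ (w - 1) * ee (((k : ℂ) + 1) * τ) := by
  obtain ⟨k, rfl⟩ : ∃ k, w = k + 1 := ⟨w - 1, by omega⟩
  have h := EisensteinSeries.qExpansion_identity_pnat (k := k) (by omega) ⟨τ, hτ⟩
  simp only [one_div] at h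
  rw [h, tsum_pnat_eq_tsum_succ (f := fun n : ℕ => (n : ℂ) ^ k *
    Complex.exp (2 * Real.pi * Complex.I * τ) ^ n)]
  have hC : ((-2 * (Real.pi : ℂ) * Complex.I) ^ (k + 1) / (k.factorial : ℂ)) = Cw (k + 1) := by
    unfold Cw
    rw [show (-2 * (Real.pi : ℂ) * Complex.I) = -(2 * Real.pi * Complex.I) by ring,
      he.neg_pow, Nat.add_sub_cancel]
  rw [hC]
  congr 1
  apply tsum_congr
  intro n
  have h2 : ee (((n : ℂ) + 1) * τ) = Complex.exp (2 * Real.pi * Complex.I * τ) ^ (n + 1) := by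
    have := wk_ee_nat (n + 1) τ
    push_cast at this
    rw [this]
    rfl
  rw [h2, Nat.add_sub_cancel]
  push_cast
  rfl

lemma wk_geo (w : ℕ) (x : ℂ) (hx : 0 < x.im) :
    Summable fun k : ℕ => ‖((k : ℂ) + 1) ^ w * ee (((k : ℂ) + 1) * x)‖ := by
  have h1 : ‖ee x‖ < 1 := by
    rw [wk_ee_norm, Real.exp_lt_one_iff]
    have := Real.pi_pos
    have : 0 < 2 * Real.pi * x.im := by positivity
    linarith
  have h2 : Summable fun n : ℕ => ‖((n : ℂ) ^ w * ee x ^ n : ℂ)‖ :=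
    summable_norm_pow_mul_geometric_of_norm_lt_one w h1
  have h3 := (summable_nat_add_iff 1).2 h2
  refine h3.congr fun k => ?_
  have := wk_ee_nat (k + 1) x
  push_cast at this
  rw [this]
  push_cast
  rfl

/-! ### the inner sums -/

lemma wk_den (h2 : StPoiS) {z : ℂ} (hz : 0 < z.im) (v : Cop) :
    (v.1.1 : ℂ) * z + v.1.2 ≠ 0 := by
  intro h0
  obtain ⟨h3, h4⟩ := h2.2 v z hz
  rw [h0] at h4
  rw [h4] at h3
  simp at h3

lemma wk_poinc (w n : ℕ) (z : ℂ) : 2 * poinc w n z =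
    ∑' v : Cop, (((v.1.1 : ℂ) * z + v.1.2) ^ w)⁻¹ * ee (n * mob v.1 z) := by
  unfold poinc
  ring

lemma wk_term_le (h2 : StPoiS) (w n : ℕ) {z : ℂ} (hz : 0 < z.im) (v : Cop) :
    ‖(((v.1.1 : ℂ) * z + v.1.2) ^ w)⁻¹ * ee (n * mob v.1 z)‖ ≤
      ‖(((v.1.1 : ℂ) * z + v.1.2) ^ w)⁻¹‖ := by
  rw [norm_mul]
  refine mul_le_of_le_one_right (norm_nonneg _) (wk_ee_le ?_)
  have h3 := (h2.2 v z hz).1
  rw [show ((n : ℂ) * mob v.1 z) = ((n : ℝ) : ℂ) * mob v.1 z by push_cast; rfl,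
    Complex.im_ofReal_mul]
  positivity

lemma wk_poinc_le (h2 : StPoiS) (w n : ℕ) (hw : 3 ≤ w) {z : ℂ} (hz : 0 < z.im) :
    ‖2 * poinc w n z‖ ≤ ∑' v : Cop, ‖(((v.1.1 : ℂ) * z + v.1.2) ^ w)⁻¹‖ := by
  have hs := h2.1 w z hw hz
  have hs2 : Summable fun v : Cop =>
      ‖(((v.1.1 : ℂ) * z + v.1.2) ^ w)⁻¹ * ee (n * mob v.1 z)‖ :=
    Summable.of_nonneg_of_le (fun _ => norm_nonneg _) (wk_term_le h2 w n hz) hs
  rw [wk_poinc]
  exact (norm_tsum_le_tsum_norm hs2).trans (hs2.tsum_le_tsum (wk_term_le h2 w n hz) hs)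

lemma wk_gz {g : ℕ} (hg : 1 ≤ g) {z₁ : ℂ} (hz₁ : 0 < z₁.im) : 0 < ((g : ℂ) * z₁).im := by
  rw [show ((g : ℂ) * z₁) = ((g : ℝ) : ℂ) * z₁ by push_cast; rfl, Complex.im_ofReal_mul]
  have : (0 : ℝ) < g := by exact_mod_cast hg
  positivity

lemma wk_sumk (h2 : StPoiS) (w n g : ℕ) (hw : 5 ≤ w) (hg : 1 ≤ g) {z z₁ : ℂ} (hz : 0 < z.im)
    (hz₁ : 0 < z₁.im) : Summable fun k : ℕ => ((k : ℂ) + 1) ^ (w - 1) *
      ee (((k : ℂ) + 1) * (g * z₁)) * (2 * poinc w ((k + 1) * n) z) := by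
  have hs := (wk_geo (w - 1) (g * z₁) (wk_gz hg hz₁)).mul_right
    (∑' v : Cop, ‖(((v.1.1 : ℂ) * z + v.1.2) ^ w)⁻¹‖)
  refine Summable.of_norm_bounded hs fun k => ?_
  rw [norm_mul]
  exact mul_le_mul_of_nonneg_left (wk_poinc_le h2 w _ (by omega) hz) (norm_nonneg _)

lemma wk_inner (h2 : StPoiS) (w n g : ℕ) (hw : 5 ≤ w) (hg : 1 ≤ g) {z z₁ : ℂ} (hz : 0 < z.im)
    (hz₁ : 0 < z₁.im) :
    ∑' v : Cop, (((v.1.1 : ℂ) * z + v.1.2) ^ w)⁻¹ * (∑' k : ℕ, ((k : ℂ) + 1) ^ (w - 1) *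
      ee (((k : ℂ) + 1) * (n * mob v.1 z + g * z₁))) =
    ∑' k : ℕ, ((k : ℂ) + 1) ^ (w - 1) * ee (((k : ℂ) + 1) * (g * z₁)) *
      (2 * poinc w ((k + 1) * n) z) := by
  set T : Cop → ℕ → ℂ := fun v k => ((k : ℂ) + 1) ^ (w - 1) * ee (((k : ℂ) + 1) * (g * z₁)) *
    ((((v.1.1 : ℂ) * z + v.1.2) ^ w)⁻¹ * ee (((k + 1) * n : ℕ) * mob v.1 z)) with hT
  have hTs : Summable (Function.uncurry T) := by
    have hs : Summable fun p : Cop × ℕ => ‖(((p.1.1.1 : ℂ) * z + p.1.1.2) ^ w)⁻¹‖ *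
        ‖((p.2 : ℂ) + 1) ^ (w - 1) * ee (((p.2 : ℂ) + 1) * (g * z₁))‖ :=
      Summable.mul_of_nonneg (h2.1 w z (by omega) hz)
        (wk_geo (w - 1) (g * z₁) (wk_gz hg hz₁)) (fun _ => norm_nonneg _) (fun _ => norm_nonneg _)
    refine Summable.of_norm_bounded hs fun p => ?_
    simp only [Function.uncurry, hT]
    rw [norm_mul, mul_comm]
    exact mul_le_mul_of_nonneg_right (wk_term_le h2 w _ hz p.1) (norm_nonneg _)
  have h1 : ∀ v : Cop, (((v.1.1 : ℂ) * z + v.1.2) ^ w)⁻¹ * (∑' k : ℕ, ((k : ℂ) + 1) ^ (w - 1) *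
      ee (((k : ℂ) + 1) * (n * mob v.1 z + g * z₁))) = ∑' k : ℕ, T v k := by
    intro v
    rw [← tsum_mul_left]
    refine tsum_congr fun k => ?_
    simp only [hT]
    have : ((k : ℂ) + 1) * (n * mob v.1 z + g * z₁) =
        ((k : ℂ) + 1) * (g * z₁) + (((k + 1) * n : ℕ) : ℂ) * mob v.1 z := by
      push_cast; ring
    rw [this, wk_ee_add]
    ring
  rw [tsum_congr h1, ← hTs.tsum_comm]
  refine tsum_congr fun k => ?_
  rw [wk_poinc]
  simp only [hT]
  rw [tsum_mul_left]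

/-- (A11) sums over matrices of determinant `m` in terms of Poincaré series -/
theorem stWk (h1 : StMatS) (h2 : StPoiS) : StWk := by
  intro w m z z₁ hw he hm hz hz₁
  set F : DetM m → ℂ := fun g =>
    (((g.1 0 0 : ℂ) * z + g.1 0 1 + z₁ * ((g.1 1 0 : ℂ) * z + g.1 1 1)) ^ w)⁻¹ with hF
  -- summability
  let inv : DetM m → DetM m := fun g => ⟨!![g.1 0 0, -(g.1 0 1); -(g.1 1 0), g.1 1 1], by
    have := g.2
    rw [Matrix.det_fin_two] at this ⊢
    simp only [Matrix.of_apply, Matrix.cons_val', Matrix.cons_val_zero, Matrix.cons_val_one,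
      Matrix.cons_val_fin_one]
    linear_combination this⟩
  have hinv : Function.Involutive inv := by
    intro g
    apply Subtype.ext
    ext i j
    fin_cases i <;> fin_cases j <;> simp [inv]
  have hFs : Summable F := by
    have hb := (h1 w m z₁ 1 (-z) 1 hw hm (by simpa using hz₁) (by simpa using hz)).2.of_norm
    have hb2 := (Function.Involutive.toPerm inv hinv).summable_iff.2 hb
    refine hb2.congr fun g => ?_
    simp only [Function.comp_apply, hF]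
    congr 1
    have : bil ((Function.Involutive.toPerm inv hinv g).1) z₁ 1 (-z) 1 =
        -((g.1 0 0 : ℂ) * z + g.1 0 1 + z₁ * ((g.1 1 0 : ℂ) * z + g.1 1 1)) := by
      simp only [bil, Function.Involutive.coe_toPerm, inv, Matrix.of_apply, Matrix.cons_val',
        Matrix.cons_val_zero, Matrix.cons_val_one, Matrix.cons_val_fin_one]
      push_cast
      ring
    rw [this, he.neg_pow]
  -- the terms in the parametrisation
  have hterm : ∀ (g : {g : ℕ // g ∈ m.divisors}) (v : Cop) (s : ℤ),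
      F (wkE m hm (g, (v, s))) = (((v.1.1 : ℂ) * z + v.1.2) ^ w)⁻¹ *
        (((((m / g.1 : ℕ) : ℂ) * mob v.1 z + (g.1 : ℂ) * z₁) + s) ^ w)⁻¹ := by
    intro g v s
    have hd := wk_den h2 hz v
    have hmob : ((v.1.1 : ℂ) * z + v.1.2) * mob v.1 z =
        (Int.gcdB v.1.1 v.1.2 : ℂ) * z - Int.gcdA v.1.1 v.1.2 := by
      unfold mob
      rw [mul_div_cancel₀ _ hd]
    rw [← mul_inv, ← mul_pow]
    simp only [hF]
    congr 2
    have hval : (wkE m hm (g, (v, s))).1 = wkM m g.1 v.1 s := rfl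
    rw [hval]
    simp only [wkM, Matrix.of_apply, Matrix.cons_val', Matrix.cons_val_zero, Matrix.cons_val_one,
      Matrix.cons_val_fin_one]
    generalize m / g.1 = n
    push_cast
    linear_combination (-(n : ℂ)) * hmob
  have hFs2 : Summable fun p => F (wkE m hm p) := (wkE m hm).summable_iff.2 hFs
  -- the sum for one divisor
  have hdiv : ∀ g : {g : ℕ // g ∈ m.divisors}, ∑' q : Cop × ℤ, F (wkE m hm (g, q)) =
      Cw w * ∑' k : ℕ, ((k : ℂ) + 1) ^ (w - 1) * ee (((k : ℂ) + 1) * (g.1 * z₁)) *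
        (2 * poinc w ((k + 1) * (m / g.1)) z) := by
    intro g
    have hg1 : 1 ≤ g.1 := Nat.pos_of_mem_divisors g.2
    have hs1 : Summable fun q : Cop × ℤ => F (wkE m hm (g, q)) := hFs2.prod_factor g
    rw [hs1.tsum_prod, ← wk_inner h2 w (m / g.1) g.1 hw hg1 hz hz₁, ← tsum_mul_left]
    refine tsum_congr fun v => ?_
    have hτ : 0 < (((m / g.1 : ℕ) : ℂ) * mob v.1 z + (g.1 : ℂ) * z₁).im := by
      rw [Complex.add_im]
      have e1 := wk_gz hg1 hz₁
      have e2 : 0 ≤ (((m / g.1 : ℕ) : ℂ) * mob v.1 z).im := by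
        have h3 := (h2.2 v z hz).1
        rw [show (((m / g.1 : ℕ) : ℂ) * mob v.1 z) = (((m / g.1 : ℕ) : ℝ) : ℂ) * mob v.1 z by
          push_cast; rfl, Complex.im_ofReal_mul]
        positivity
      linarith
    have e3 : (∑' s : ℤ, F (wkE m hm (g, (v, s)))) = (((v.1.1 : ℂ) * z + v.1.2) ^ w)⁻¹ *
        ∑' s : ℤ, (((((m / g.1 : ℕ) : ℂ) * mob v.1 z + (g.1 : ℂ) * z₁) + s) ^ w)⁻¹ := by
      rw [← tsum_mul_left]
      exact tsum_congr fun s => hterm g v s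
    rw [e3, wk_lip w hw he _ hτ]
    ring
  -- the left side
  have hL : ∑' g : DetM m, F g = Cw w * ∑ g ∈ m.divisors, ∑' k : ℕ, ((k : ℂ) + 1) ^ (w - 1) *
      ee (((k : ℂ) + 1) * (g * z₁)) * (2 * poinc w ((k + 1) * (m / g)) z) := by
    rw [← (wkE m hm).tsum_eq F, hFs2.tsum_prod, tsum_congr hdiv, tsum_mul_left, tsum_fintype,
      Finset.univ_eq_attach]
    congr 1
    exact Finset.sum_attach m.divisors fun g => ∑' k : ℕ, ((k : ℂ) + 1) ^ (w - 1) *
      ee (((k : ℂ) + 1) * (g * z₁)) * (2 * poinc w ((k + 1) * (m / g)) z)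
  -- the right side
  set f : ℕ → ℕ → ℂ := fun g r => if g ∣ r + 1 then ee (((r : ℂ) + 1) * z₁) *
    ((((r + 1) / g : ℕ) : ℂ) ^ (w - 1) * poinc w ((r + 1) * m / g ^ 2) z) else 0 with hf
  have hR : ∀ r : ℕ, ee (((r : ℂ) + 1) * z₁) * ∑ g ∈ (m.gcd (r + 1)).divisors,
      (((r + 1) / g : ℕ) : ℂ) ^ (w - 1) * poinc w ((r + 1) * m / g ^ 2) z =
        ∑ g ∈ m.divisors, f g r := by
    intro r
    have hset : (m.gcd (r + 1)).divisors = m.divisors.filter fun g => g ∣ r + 1 := by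
      ext g
      simp only [Nat.mem_divisors, Finset.mem_filter, Nat.dvd_gcd_iff]
      constructor
      · rintro ⟨⟨a, b⟩, _⟩
        exact ⟨⟨a, by omega⟩, b⟩
      · rintro ⟨⟨a, _⟩, b⟩
        exact ⟨⟨a, b⟩, (Nat.gcd_pos_of_pos_left _ (by omega)).ne'⟩
    rw [hset, Finset.sum_filter, Finset.mul_sum]
    refine Finset.sum_congr rfl fun g _ => ?_
    simp only [hf]
    split_ifs
    · rfl
    · rw [mul_zero]
  -- one divisor on the right side
  have hfg : ∀ g ∈ m.divisors, Summable (f g) ∧ 2 * ∑' r : ℕ, f g r =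
      ∑' k : ℕ, ((k : ℂ) + 1) ^ (w - 1) * ee (((k : ℂ) + 1) * (g * z₁)) *
        (2 * poinc w ((k + 1) * (m / g)) z) := by
    intro g hg
    have hg1 : 1 ≤ g := Nat.pos_of_mem_divisors hg
    have hgm : g ∣ m := Nat.dvd_of_mem_divisors hg
    set i : ℕ → ℕ := fun k => g * (k + 1) - 1 with hi
    have hi1 : ∀ k, i k + 1 = g * (k + 1) := by
      intro k
      have : 1 ≤ g * (k + 1) := Nat.one_le_iff_ne_zero.2 (by positivity)
      simp only [hi]
      omega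
    have hinj : Function.Injective i := by
      intro a b hab
      have h3 : g * (a + 1) = g * (b + 1) := by rw [← hi1, ← hi1, hab]
      have := Nat.eq_of_mul_eq_mul_left hg1 h3
      omega
    have hout : ∀ r, r ∉ Set.range i → f g r = 0 := by
      intro r hr
      simp only [hf]
      rw [if_neg]
      rintro ⟨k, hk⟩
      apply hr
      have hk0 : k ≠ 0 := by
        rintro rfl
        simp at hk
      refine ⟨k - 1, ?_⟩
      have h4 := hi1 (k - 1)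
      rw [Nat.sub_add_cancel (by omega : 1 ≤ k), ← hk] at h4
      omega
    have hval : ∀ k, 2 * f g (i k) = ((k : ℂ) + 1) ^ (w - 1) * ee (((k : ℂ) + 1) * (g * z₁)) *
        (2 * poinc w ((k + 1) * (m / g)) z) := by
      intro k
      have e1 : ((i k : ℂ) + 1) = (g : ℂ) * ((k : ℂ) + 1) := by
        have := hi1 k
        exact_mod_cast this
      have e2 : (i k + 1) / g = k + 1 := by
        rw [hi1, Nat.mul_div_cancel_left _ hg1]
      have e3 : (i k + 1) * m / g ^ 2 = (k + 1) * (m / g) := by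
        obtain ⟨n, rfl⟩ := hgm
        rw [hi1, Nat.mul_div_cancel_left _ hg1,
          show g * (k + 1) * (g * n) = g ^ 2 * ((k + 1) * n) by ring,
          Nat.mul_div_cancel_left _ (by positivity)]
      simp only [hf]
      rw [if_pos (by rw [hi1]; exact dvd_mul_right _ _), e1, e2, e3,
        show (g : ℂ) * ((k : ℂ) + 1) * z₁ = ((k : ℂ) + 1) * (g * z₁) by ring]
      push_cast
      ring
    have hs := wk_sumk h2 w (m / g) g hw hg1 hz hz₁
    have hs2 : Summable fun k => f g (i k) := by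
      refine (hs.mul_left (1 / 2)).congr fun k => ?_
      rw [← hval]
      ring
    refine ⟨(hinj.summable_iff hout).1 hs2, ?_⟩
    rw [← hinj.tsum_eq (f := f g) (fun r hr => by
      by_contra h5
      exact hr (hout r h5)), ← tsum_mul_left]
    exact tsum_congr hval
  rw [hL, tsum_congr hR, Summable.tsum_finsetSum (fun g hg => (hfg g hg).1),
    Finset.sum_congr rfl (fun g hg => ((hfg g hg).2).symm), ← Finset.mul_sum]
  ring

end RZ

end Pool.Agent.Lib.MP_7c08ba_nt
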