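import Mathlib
import Pool.Agent.Lib.MP_7c08ba_nt.RZ.BasD
import Pool.Agent.Lib.MP_7c08ba_nt.RZ.BaseD
import Pool.Agent.Lib.MP_7c08ba_nt.RZ.BmulD
import Pool.Agent.Lib.MP_7c08ba_nt.RZ.CenD
import Pool.Agent.Lib.MP_7c08ba_nt.RZ.Coef
import Pool.Agent.Lib.MP_7c08ba_nt.RZ.CountD
import Pool.Agent.Lib.MP_7c08ba_nt.RZ.Defo
import Pool.Agent.Lib.MP_7c08ba_nt.RZ.DnD
import Pool.Agent.Lib.MP_7c08ba_nt.RZ.EisAD
import Pool.Agent.Lib.MP_7c08ba_nt.RZ.EisAtD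
import Pool.Agent.Lib.MP_7c08ba_nt.RZ.EisBigD
import Pool.Agent.Lib.MP_7c08ba_nt.RZ.EisLawD
import Pool.Agent.Lib.MP_7c08ba_nt.RZ.EisThD
import Pool.Agent.Lib.MP_7c08ba_nt.RZ.EulD
import Pool.Agent.Lib.MP_7c08ba_nt.RZ.EulQD
import Pool.Agent.Lib.MP_7c08ba_nt.RZ.Fd
import Pool.Agent.Lib.MP_7c08ba_nt.RZ.Gam
import Pool.Agent.Lib.MP_7c08ba_nt.RZ.Gen
import Pool.Agent.Lib.MP_7c08ba_nt.RZ.HHD
import Pool.Agent.Lib.MP_7c08ba_nt.RZ.Hol
import Pool.Agent.Lib.MP_7c08ba_nt.RZ.IdSumD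
import Pool.Agent.Lib.MP_7c08ba_nt.RZ.ImgD
import Pool.Agent.Lib.MP_7c08ba_nt.RZ.JmD
import Pool.Agent.Lib.MP_7c08ba_nt.RZ.Ker
import Pool.Agent.Lib.MP_7c08ba_nt.RZ.Local
import Pool.Agent.Lib.MP_7c08ba_nt.RZ.MainD
import Pool.Agent.Lib.MP_7c08ba_nt.RZ.MatS
import Pool.Agent.Lib.MP_7c08ba_nt.RZ.PInvD
import Pool.Agent.Lib.MP_7c08ba_nt.RZ.PetU
import Pool.Agent.Lib.MP_7c08ba_nt.RZ.Poi
import Pool.Agent.Lib.MP_7c08ba_nt.RZ.PoiS
import Pool.Agent.Lib.MP_7c08ba_nt.RZ.PoisK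
import Pool.Agent.Lib.MP_7c08ba_nt.RZ.Poisson
import Pool.Agent.Lib.MP_7c08ba_nt.RZ.PsiD
import Pool.Agent.Lib.MP_7c08ba_nt.RZ.RSD
import Pool.Agent.Lib.MP_7c08ba_nt.RZ.RSanD
import Pool.Agent.Lib.MP_7c08ba_nt.RZ.RSatD
import Pool.Agent.Lib.MP_7c08ba_nt.RZ.RSptD
import Pool.Agent.Lib.MP_7c08ba_nt.RZ.Raise2
import Pool.Agent.Lib.MP_7c08ba_nt.RZ.Ram
import Pool.Agent.Lib.MP_7c08ba_nt.RZ.RepsD
import Pool.Agent.Lib.MP_7c08ba_nt.RZ.Rho
import Pool.Agent.Lib.MP_7c08ba_nt.RZ.Span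
import Pool.Agent.Lib.MP_7c08ba_nt.RZ.SplitD
import Pool.Agent.Lib.MP_7c08ba_nt.RZ.Strip
import Pool.Agent.Lib.MP_7c08ba_nt.RZ.TTinv
import Pool.Agent.Lib.MP_7c08ba_nt.RZ.TTmat
import Pool.Agent.Lib.MP_7c08ba_nt.RZ.ThBD
import Pool.Agent.Lib.MP_7c08ba_nt.RZ.ThCD
import Pool.Agent.Lib.MP_7c08ba_nt.RZ.ThGD
import Pool.Agent.Lib.MP_7c08ba_nt.RZ.ThPsiD
import Pool.Agent.Lib.MP_7c08ba_nt.RZ.ThSD
import Pool.Agent.Lib.MP_7c08ba_nt.RZ.ThlD
import Pool.Agent.Lib.MP_7c08ba_nt.RZ.Tinj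
import Pool.Agent.Lib.MP_7c08ba_nt.RZ.TrF
import Pool.Agent.Lib.MP_7c08ba_nt.RZ.TrP
import Pool.Agent.Lib.MP_7c08ba_nt.RZ.TraceD
import Pool.Agent.Lib.MP_7c08ba_nt.RZ.Trip
import Pool.Agent.Lib.MP_7c08ba_nt.RZ.Unf
import Pool.Agent.Lib.MP_7c08ba_nt.RZ.W12
import Pool.Agent.Lib.MP_7c08ba_nt.RZ.Wk

set_option autoImplicit false

/-!
Assembly of all modules: StMainD.
-/

namespace Pool.Agent.Lib.MP_7c08ba_nt

namespace RZ

theorem aW12 : StW12 := stW12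

theorem aPoi : StPoi := stPoi

theorem aUnf : StUnf := stUnf

theorem aStrip : StStrip := stStrip

theorem aFd : StFd := stFd

theorem aPoiS : StPoiS := stPoiS

theorem aPetU : StPetU := stPetU aUnf aStrip aFd aPoiS

theorem aCoef : StCoef := stCoef

theorem aSpan : StSpan := stSpan aPoi aPetU aCoef aFd

theorem aTrF : StTrF := stTrF

theorem aTrP : StTrP := stTrP aPoiS

theorem aMatS : StMatS := stMatS

theorem aWk : StWk := stWk aMatS aPoiS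

theorem aKer : StKer := stKer aW12 aTrF aTrP aWk aCoef

theorem aDefo : StDefo := stDefo aMatS

theorem aBasD : StBasD := stBasD

theorem aBaseD : StBaseD := stBaseD aBasD

theorem aRam : StRam := stRam aBasD

theorem aThBD : StThBD := stThBD aBasD aBaseD aRam

theorem aRaise2 : StRaise2 := stRaise2

theorem aPoisson : StPoisson := stPoisson

theorem aPoisK : StPoisK := stPoisK aPoisson

theorem aThSD : StThSD := stThSD aPoisK aBaseD aBasD

theorem aThGD : StThGD := stThGD aPoisK aBaseD aBasD aThBD aThSD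

theorem aRepsD : StRepsD := stRepsD aBasD aBaseD

theorem aThCD : StThCD := stThCD aPoisK aBaseD aBasD aThBD aRam aRepsD

theorem aThlD : StThlD := stThlD aRaise2 aThGD aThCD aBasD aThBD aRam

theorem aEisAD : StEisAD := stEisAD

theorem aEisBigD : StEisBigD := stEisBigD

theorem aEisLawD : StEisLawD := stEisLawD aEisAD aEisBigD

theorem aHHD : StHHD := stHHD aThBD aThlD aEisAD aEisLawD aBasD aThGD

theorem aTraceD : StTraceD := stTraceD

theorem aRSatD : StRSatD := stRSatD aHHD aTraceD aPetU aFd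

theorem aEisAtD : StEisAtD := stEisAtD aEisAD

theorem aIdSumD : StIdSumD := stIdSumD aBasD

theorem aSplitD : StSplitD := stSplitD aBasD aRam

theorem aCountD : StCountD := stCountD aBasD aSplitD

theorem aEisThD : StEisThD := stEisThD aEisAtD aEisLawD aThlD aIdSumD aCountD aBasD aThBD

theorem aGam : StGam := stGam

theorem aJmD : StJmD := stJmD aThBD aThlD aEisThD aGam aBasD aBaseD aRam

theorem aRho : StRho := stRho aBasD aRam aBaseD aMatS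

theorem aTTinv : StTTinv := stTTinv aBasD

theorem aTinj : StTinj := stTinj aBasD aSplitD aRam

theorem aGen : StGen := stGen aBasD aSplitD aRam

theorem aTrip : StTrip := stTrip aTinj aGen aBasD aRam

theorem aImgD : StImgD := stImgD aBasD aBaseD

theorem aTTmat : StTTmat := stTTmat aImgD aBasD aBaseD

theorem aPInvD : StPInvD := stPInvD aBasD aBaseD

theorem aPsiD : StPsiD := stPsiD aBasD

theorem aCenD : StCenD := stCenD aW12 aSpan aKer aDefo aRSatD aJmD aRho aTTinv aTrip aTTmat aRepsD aPInvD aPsiD aBasD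

theorem aHol : StHol := stHol

theorem aRSanD : StRSanD := stRSanD aHHD aHol aFd aCoef

theorem aRSptD : StRSptD := stRSptD aEisBigD aThGD aBasD aThBD

theorem aThPsiD : StThPsiD := stThPsiD aIdSumD aBasD aThBD aPsiD aCountD

theorem aRSD : StRSD := stRSD aRSptD aUnf aStrip aThPsiD aThBD aCoef

theorem aDnD : StDnD := stDnD aCoef aThPsiD aRepsD

theorem aBmulD : StBmulD := stBmulD aBasD aSplitD aRam

theorem aLocal : StLocal := stLocal

theorem aEulQD : StEulQD := stEulQD aDnD aBmulD aSplitD aLocal aPsiD aBasD aCoef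

theorem aEulD : StEulD := stEulD aEulQD aSplitD aCoef aPsiD aW12

theorem aMainD : StMainD := stMainD aCenD aRSanD aRSD aDnD aEulD aW12 aPInvD

end RZ

end Pool.Agent.Lib.MP_7c08ba_nt
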