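import Mathlib
import Pool.Agent.Lib.MP_7c08ba_nt.RZ.StG

set_option autoImplicit false

/-!
Statements of the analytic modules for characters of type `(k, 0)` with `k + 2 * r + 2 = w`
(the other half: the sign is `-1`), every odd fundamental discriminant: the `L`-function vanishes
at the centre.
-/

namespace Pool.Agent.Lib.MP_7c08ba_nt

namespace RZ

open NumberField MeasureTheory UpperHalfPlane Set IsDedekindDomain
open scoped MatrixGroups ComplexConjugate nonZeroDivisors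

section

variable {F : Type} [Field F] [NumberField F]

/-- The theta series of the Hecke character times the Eisenstein series (weight
`k + 2 * r + 2`). -/
noncomputable def HN {σ : F →+* ℂ} (D : ℕ) [NeZero D] (χ : DirichletCharacter ℂ D) (k r : ℕ)
    (ψ : Ideal (𝓞 F) →*₀ ℂ) (c : Reps σ) (t u : ℂ) : ℂ :=
  thψ k ψ c u * eis D χ r t u

end

/-- (E1) theta series at the cusps `1 / g`: the square of the constant -/
def StKap : Prop :=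
  ∀ (D : ℕ) (F : Type) (_ : Field F) (_ : NumberField F) (s : 𝓞 F) (σ : F →+* ℂ)
    (χ : DirichletCharacter ℂ D) (cj : 𝓞 F ≃+* 𝓞 F), DatD D s σ χ cj → ∀ g : ℕ, g ∣ D →
    ∃ (h : ℤ) (κ : ℂ), κ ^ 2 = (jacobiSym (-1) (D / g) : ℂ) * g / D ∧
    (∀ (a : Ideal (𝓞 F)) (k : ℕ) (u : ℂ), a ≠ ⊥ → IsCoprime a (Ideal.span {s}) → Even k →
      0 < u.im → th σ a k ((u + h) / (1 - g * (u + h))) =
        (1 - g * (u + h)) ^ (k + 1) * κ * (jacobiSym (Ideal.absNorm a) (D / g) : ℂ) *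
          thG D s σ a g k u) ∧
    (∀ (a : Ideal (𝓞 F)) (r : ℕ) (u : ℂ), a ≠ ⊥ → IsCoprime a (Ideal.span {s}) →
      0 < u.im → thl σ a r ((u + h) / (1 - g * (u + h))) =
        (1 - g * (u + h)) ^ (2 * r + 1) * κ * (jacobiSym (Ideal.absNorm a) (D / g) : ℂ) *
          thlG D s σ a g r u)

/-- (E2) continuity, transformation, holomorphy and size of the integrand -/
def StHN : Prop :=
  ∀ (D : ℕ) (_ : NeZero D) (F : Type) (_ : Field F) (_ : NumberField F) (s : 𝓞 F)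
    (σ : F →+* ℂ) (χ : DirichletCharacter ℂ D) (cj : 𝓞 F ≃+* 𝓞 F) (w k r : ℕ)
    (ψ : Ideal (𝓞 F) →*₀ ℂ) (c : Reps σ), DatD D s σ χ cj → Even k → w = k + 2 * r + 2 →
    (∀ A, IsCoprime (c.R A : Ideal (𝓞 F)) (Ideal.span {s})) →
    (∀ t : ℂ, -(r : ℝ) - 1 / 2 < t.re → ContinuousOn (HN D χ k r ψ c t) {u | 0 < u.im} ∧
      ContinuousOn (trD D w (HN D χ k r ψ c t)) {u | 0 < u.im} ∧
      (∀ (g : SL(2, ℤ)) (z : ℂ), 0 < z.im → (D : ℤ) ∣ g 1 0 →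
        HN D χ k r ψ c t (((g 0 0 : ℂ) * z + g 0 1) / ((g 1 0 : ℂ) * z + g 1 1)) =
          ((g 1 0 : ℂ) * z + g 1 1) ^ w * HN D χ k r ψ c t z)) ∧
    (∀ z : ℂ, 0 < z.im → DifferentiableOn ℂ (fun t => trD D w (HN D χ k r ψ c t) z)
      {t | -(r : ℝ) - 1 / 2 < t.re}) ∧
    (∀ σ₀ R : ℝ, -(r : ℝ) - 1 / 2 < σ₀ → ∃ (C : ℝ) (N : ℕ), ∀ t z : ℂ, σ₀ ≤ t.re → ‖t‖ ≤ R →
      1 / 2 ≤ z.im → |z.re| ≤ 1 / 2 →
        ‖trD D w (HN D χ k r ψ c t) z‖ ≤ C * (z.im + 1) ^ N)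

/-- (E3) the Rankin–Selberg integral is holomorphic -/
def StRSanN : Prop :=
  ∀ (D : ℕ) (_ : NeZero D) (F : Type) (_ : Field F) (_ : NumberField F) (s : 𝓞 F)
    (σ : F →+* ℂ) (χ : DirichletCharacter ℂ D) (cj : 𝓞 F ≃+* 𝓞 F) (w k r : ℕ)
    (f : CuspForm 𝒮ℒ (w : ℤ)) (ψ : Ideal (𝓞 F) →*₀ ℂ) (c : Reps σ), DatD D s σ χ cj →
    Even k → w = k + 2 * r + 2 → (∀ A, IsCoprime (c.R A : Ideal (𝓞 F)) (Ideal.span {s})) →
    DifferentiableOn ℂ (fun t => rsD D (HN D χ k r ψ c t) f) {t | -(r : ℝ) - 1 / 2 < t.re}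

/-- (E4) the integrand as a sum over coprime pairs -/
def StRSptN : Prop :=
  ∀ (D : ℕ) (_ : NeZero D) (F : Type) (_ : Field F) (_ : NumberField F) (s : 𝓞 F)
    (σ : F →+* ℂ) (χ : DirichletCharacter ℂ D) (cj : 𝓞 F ≃+* 𝓞 F) (w k r : ℕ)
    (f : CuspForm 𝒮ℒ (w : ℤ)) (ψ : Ideal (𝓞 F) →*₀ ℂ) (c : Reps σ), DatD D s σ χ cj →
    Even k → w = k + 2 * r + 2 → ∀ t z : ℂ, 1 / 2 - (r : ℝ) < t.re → 0 < z.im →
    trD D w (HN D χ k r ψ c t) z * f (ofComplex (-conj z)) * (z.im : ℂ) ^ w =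
      1 / 2 * DirichletCharacter.LFunction χ (2 * r + 1 + 2 * t) *
        ∑' v : Cop, (fun u : ℂ => thψ k ψ c u * f (ofComplex (-conj u)) *
          (u.im : ℂ) ^ ((w : ℂ) + t)) (mob v.1 z)

/-- (E5) the theta series of the Hecke character as a Fourier series, every `k` -/
def StThPsiN : Prop :=
  ∀ (D : ℕ) (F : Type) (_ : Field F) (_ : NumberField F) (s : 𝓞 F) (σ : F →+* ℂ)
    (χ : DirichletCharacter ℂ D) (cj : 𝓞 F ≃+* 𝓞 F) (k : ℕ) (ψ : Ideal (𝓞 F) →*₀ ℂ)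
    (c : Reps σ), DatD D s σ χ cj → IsHecke σ k ψ →
    bψ ψ 0 = 0 ∧
    (∀ n : ℕ, 1 ≤ n → ‖bψ ψ n‖ ≤ (n.divisors.card : ℝ) * (n : ℝ) ^ ((k : ℝ) / 2)) ∧
    ∃ κ : ℂ, ∀ u : ℂ, 0 < u.im → (Summable fun n : ℕ => ‖bψ ψ n * ee (n * u)‖) ∧
      thψ k ψ c u = κ + ∑' n : ℕ, bψ ψ n * ee (n * u)

/-- (E6) the Rankin–Selberg integral in the region of convergence -/
def StRSN : Prop :=
  ∀ (D : ℕ) (_ : NeZero D) (F : Type) (_ : Field F) (_ : NumberField F) (s : 𝓞 F)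
    (σ : F →+* ℂ) (χ : DirichletCharacter ℂ D) (cj : 𝓞 F ≃+* 𝓞 F) (w k r : ℕ)
    (f : CuspForm 𝒮ℒ (w : ℤ)) (ψ : Ideal (𝓞 F) →*₀ ℂ) (c : Reps σ), DatD D s σ χ cj →
    w = k + 2 * r + 2 → IsHecke σ k ψ →
    ∃ A : ℝ, ∀ t : ℂ, A < t.re →
      rsD D (HN D χ k r ψ c t) f = Complex.Gamma (k + 2 * r + 1 + t) *
        (4 * Real.pi : ℂ) ^ (-((k : ℂ) + 2 * r + 1 + t)) *
        DirichletCharacter.LFunction χ (2 * r + 1 + 2 * t) * Dn f ψ (k + 2 * r + 1 + t)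

/-- (E7) the Dirichlet series is holomorphic for `Re z > 1`, every `k` -/
def StDnN : Prop :=
  ∀ (D : ℕ) (F : Type) (_ : Field F) (_ : NumberField F) (s : 𝓞 F)
    (σ : F →+* ℂ) (χ : DirichletCharacter ℂ D) (cj : 𝓞 F ≃+* 𝓞 F) (w k : ℕ)
    (f : CuspForm 𝒮ℒ (w : ℤ)) (ψ : Ideal (𝓞 F) →*₀ ℂ), DatD D s σ χ cj → 1 ≤ w →
    IsHecke σ k ψ →
    (∀ z : ℂ, 1 < z.re →
      Summable fun n : ℕ => ‖coef f n * bψ ψ n * (n : ℂ) ^ (-(((w : ℂ) + k) / 2 + z))‖) ∧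
    DifferentiableOn ℂ (fun z => Dn f ψ (((w : ℂ) + k) / 2 + z)) {z | 1 < z.re}

/-- (E8) the Euler product over the rational primes, every `k` -/
def StEulQN : Prop :=
  ∀ (D : ℕ) (_ : NeZero D) (F : Type) (_ : Field F) (_ : NumberField F) (s : 𝓞 F)
    (σ : F →+* ℂ) (χ : DirichletCharacter ℂ D) (cj : 𝓞 F ≃+* 𝓞 F) (w k : ℕ)
    (f : CuspForm 𝒮ℒ (w : ℤ)) (ψ : Ideal (𝓞 F) →*₀ ℂ), DatD D s σ χ cj → IsEigen f →
    IsHecke σ k ψ → ∀ z : ℂ, 1 < z.re →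
    (∀ v : HeightOneSpectrum (𝓞 F), eulF f ψ (((w : ℂ) + k) / 2 + z) v ≠ 0) ∧
    HasProd (fun p : Nat.Primes => ∏ᶠ v : {v : HeightOneSpectrum (𝓞 F) //
        (p : 𝓞 F) ∈ v.asIdeal}, (eulF f ψ (((w : ℂ) + k) / 2 + z) v.1)⁻¹)
      (DirichletCharacter.LFunction χ (1 + 2 * z) * Dn f ψ (((w : ℂ) + k) / 2 + z))

/-- (E9) the Euler product over the places of `F`, every `k` -/
def StEulN : Prop :=
  ∀ (D : ℕ) (_ : NeZero D) (F : Type) (_ : Field F) (_ : NumberField F) (s : 𝓞 F)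
    (σ : F →+* ℂ) (χ : DirichletCharacter ℂ D) (cj : 𝓞 F ≃+* 𝓞 F) (w k : ℕ)
    (f : CuspForm 𝒮ℒ (w : ℤ)) (ψ : Ideal (𝓞 F) →*₀ ℂ), DatD D s σ χ cj → IsEigen f →
    IsHecke σ k ψ → ∀ z : ℂ, 1 < z.re →
    HasProd (fun v : HeightOneSpectrum (𝓞 F) => (eulF f ψ (((w : ℂ) + k) / 2 + z) v)⁻¹)
      (DirichletCharacter.LFunction χ (1 + 2 * z) * Dn f ψ (((w : ℂ) + k) / 2 + z))

open Classical in
/-- (E10) the sum of the signs over the cusps is zero -/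
def StSgn : Prop :=
  ∀ (D : ℕ) (F : Type) (_ : Field F) (_ : NumberField F) (s : 𝓞 F) (σ : F →+* ℂ)
    (χ : DirichletCharacter ℂ D) (cj : 𝓞 F ≃+* 𝓞 F), DatD D s σ χ cj →
    ∀ (a b : Ideal (𝓞 F)) (x y : 𝓞 F) (m : ℤ), a ≠ ⊥ → b ≠ ⊥ →
    IsCoprime a (Ideal.span {s}) → IsCoprime b (Ideal.span {s}) → x ∈ a → y ∈ b →
    Qa σ a x + Qa σ b y = D * m →
    ∑ g ∈ D.divisors, (if x ∈ a * ram s g ∧ y ∈ b * ram s g then
      jacobiSym (-((Ideal.absNorm a : ℤ) * Ideal.absNorm b)) (D / g) else 0) = 0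

/-- (E11) the sum over the cusps of the products of two theta series is zero -/
def StPair0 : Prop :=
  ∀ (D : ℕ) (F : Type) (_ : Field F) (_ : NumberField F) (s : 𝓞 F) (σ : F →+* ℂ)
    (χ : DirichletCharacter ℂ D) (cj : 𝓞 F ≃+* 𝓞 F), DatD D s σ χ cj →
    ∀ (a b : Ideal (𝓞 F)) (k r : ℕ) (u : ℂ), a ≠ ⊥ → b ≠ ⊥ →
    IsCoprime a (Ideal.span {s}) → IsCoprime b (Ideal.span {s}) → 0 < u.im →
    ∑ g ∈ D.divisors, (jacobiSym (-((Ideal.absNorm a : ℤ) * Ideal.absNorm b)) (D / g) : ℂ) *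
      ((g : ℂ) / D) * ∑ j ∈ Finset.range (D / g),
        thG D s σ a g k (u + j) * thlG D s σ b g r (u + j) = 0

/-- (E12) the trace is zero at `t = -r` -/
def StTr0 : Prop :=
  ∀ (D : ℕ) (_ : NeZero D) (F : Type) (_ : Field F) (_ : NumberField F) (s : 𝓞 F)
    (σ : F →+* ℂ) (χ : DirichletCharacter ℂ D) (cj : 𝓞 F ≃+* 𝓞 F) (w k r : ℕ)
    (ψ : Ideal (𝓞 F) →*₀ ℂ) (c : Reps σ), DatD D s σ χ cj → Even k → w = k + 2 * r + 2 →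
    (∀ A, IsCoprime (c.R A : Ideal (𝓞 F)) (Ideal.span {s})) →
    ∀ u : ℂ, 0 < u.im → trD D w (HN D χ k r ψ c (-r)) u = 0

/-- (E13) the analytic part for characters of type `(k, 0)`, `k + 2 * r + 2 = w`: the
`L`-function vanishes at the centre -/
def StMainN : Prop :=
  ∀ (D : ℕ) (F : Type) (_ : Field F) (_ : NumberField F) (s : F)
    (σ : F →+* ℂ) (w k r : ℕ) (f : CuspForm 𝒮ℒ (w : ℤ)) (ψ : Ideal (𝓞 F) →*₀ ℂ), OddD D →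
    Module.finrank ℚ F = 2 → s ^ 2 = -(D : F) → IsEigen f → w = k + 2 * r + 2 →
    IsHecke σ k ψ →
    ∃ Λ : ℂ → ℂ, DifferentiableOn ℂ Λ {z | -1 / 2 < z.re} ∧
      (∀ z : ℂ, 1 < z.re → HasProd (fun v : HeightOneSpectrum (𝓞 F) =>
        (eulF f ψ (((w : ℂ) + k) / 2 + z) v)⁻¹) (Λ z)) ∧ Λ 0 = 0

end RZ

end Pool.Agent.Lib.MP_7c08ba_nt
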