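import Mathlib
import Pool.Agent.Lib.MP_7c08ba_nt.RZ.StE

set_option autoImplicit false

/-! (E7): convergence and holomorphy of the Dirichlet series, every `k`. -/

namespace Pool.Agent.Lib.MP_7c08ba_nt

namespace RZ

open NumberField MeasureTheory UpperHalfPlane Set IsDedekindDomain
open scoped MatrixGroups ComplexConjugate nonZeroDivisors

namespace DnNAux

theorem summable_div {x : ℝ} (hx : 1 < x) :
    Summable fun n : ℕ => (n.divisors.card : ℝ) * (n : ℝ) ^ (-x) := by
  have hz : LSeriesSummable (fun n => (ArithmeticFunction.zeta n : ℂ)) (x : ℂ) :=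
    ArithmeticFunction.LSeriesSummable_zeta_iff.mpr (by simpa using hx)
  have hz' : LSeriesSummable (fun n => ((ArithmeticFunction.zeta : ArithmeticFunction ℂ) n))
      (x : ℂ) := by
    refine (LSeriesSummable_congr (x : ℂ) fun {n} _ => ?_).mpr hz
    rfl
  have h := (ArithmeticFunction.LSeriesSummable_mul hz' hz').norm
  refine h.congr fun n => ?_
  rcases Nat.eq_zero_or_pos n with rfl | hn
  · simp
  · have hn0 : n ≠ 0 := hn.ne'
    rw [LSeries.term_of_ne_zero hn0, norm_div, Complex.norm_natCast_cpow_of_pos hn]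
    have h1 : ((ArithmeticFunction.zeta : ArithmeticFunction ℂ) *
        (ArithmeticFunction.zeta : ArithmeticFunction ℂ)) n = (n.divisors.card : ℂ) := by
      rw [ArithmeticFunction.coe_zeta_mul_apply]
      have h2 : ∀ i ∈ n.divisors, (ArithmeticFunction.zeta : ArithmeticFunction ℂ) i = 1 := by
        intro i hi
        have hi0 : i ≠ 0 := (Nat.pos_of_mem_divisors hi).ne'
        simp [ArithmeticFunction.natCoe_apply, ArithmeticFunction.zeta_apply, hi0]
      rw [Finset.sum_congr rfl h2, Finset.sum_const, nsmul_eq_mul, mul_one]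
    rw [h1, Complex.norm_natCast, Complex.ofReal_re, Real.rpow_neg (Nat.cast_nonneg n),
      div_eq_mul_inv]

end DnNAux

theorem stDnN (h1 : StCoef) (h2 : StThPsiN) (h3 : StRepsD) : StDnN := by
  intro D F _ _ s σ χ cj w k f ψ hD hw hH
  obtain ⟨c, -⟩ := h3 D F _ _ s σ χ cj hD
  obtain ⟨hb0, hb, -⟩ := h2 D F _ _ s σ χ cj k ψ c hD hH
  obtain ⟨-, ⟨C, hC⟩, -⟩ := h1 w f
  have hsum : ∀ z : ℂ, 1 < z.re →
      Summable fun n : ℕ => ‖coef f n * bψ ψ n * (n : ℂ) ^ (-(((w : ℂ) + k) / 2 + z))‖ := by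
    intro z hz
    refine Summable.of_nonneg_of_le (fun _ => norm_nonneg _) (fun n => ?_)
      ((DnNAux.summable_div hz).mul_left C)
    rcases Nat.eq_zero_or_pos n with rfl | hn
    · rw [hb0, mul_zero, zero_mul, norm_zero]
      simp
    · have hn' : (0 : ℝ) < n := by exact_mod_cast hn
      rw [norm_mul, norm_mul, Complex.norm_natCast_cpow_of_pos hn]
      have hre : (-(((w : ℂ) + k) / 2 + z)).re = -(((w : ℝ) + k) / 2 + z.re) := by simp
      rw [hre]
      have e1 := hC n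
      have e2 := hb n hn
      have e3 : 0 ≤ C * (n : ℝ) ^ ((w : ℝ) / 2) := (norm_nonneg _).trans e1
      have e4 : ‖coef f n‖ * ‖bψ ψ n‖ ≤ C * (n : ℝ) ^ ((w : ℝ) / 2) *
          ((n.divisors.card : ℝ) * (n : ℝ) ^ ((k : ℝ) / 2)) :=
        mul_le_mul e1 e2 (norm_nonneg _) e3
      refine (mul_le_mul_of_nonneg_right e4 (Real.rpow_nonneg hn'.le _)).trans (le_of_eq ?_)
      have e5 : (n : ℝ) ^ ((w : ℝ) / 2) * (n : ℝ) ^ ((k : ℝ) / 2) *
          (n : ℝ) ^ (-(((w : ℝ) + k) / 2 + z.re)) = (n : ℝ) ^ (-z.re) := by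
        rw [← Real.rpow_add hn', ← Real.rpow_add hn']
        congr 1
        ring
      calc C * (n : ℝ) ^ ((w : ℝ) / 2) *
            ((n.divisors.card : ℝ) * (n : ℝ) ^ ((k : ℝ) / 2)) *
            (n : ℝ) ^ (-(((w : ℝ) + k) / 2 + z.re))
          = C * ((n.divisors.card : ℝ) * ((n : ℝ) ^ ((w : ℝ) / 2) *
              (n : ℝ) ^ ((k : ℝ) / 2) *
              (n : ℝ) ^ (-(((w : ℝ) + k) / 2 + z.re)))) := by ring
        _ = C * ((n.divisors.card : ℝ) * (n : ℝ) ^ (-z.re)) := by rw [e5]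
  refine ⟨hsum, ?_⟩
  have hterm : ∀ (t : ℂ) (n : ℕ), coef f n * bψ ψ n * (n : ℂ) ^ (-t) =
      LSeries.term (fun n => coef f n * bψ ψ n) t n := by
    intro t n
    rcases Nat.eq_zero_or_pos n with rfl | hn
    · rw [hb0, mul_zero, zero_mul, LSeries.term_zero]
    · rw [LSeries.term_of_ne_zero hn.ne', Complex.cpow_neg, div_eq_mul_inv]
  have hDn : ∀ t : ℂ, Dn f ψ t = LSeries (fun n => coef f n * bψ ψ n) t := by
    intro t
    unfold Dn LSeries
    exact tsum_congr (hterm t)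
  have habs : LSeries.abscissaOfAbsConv (fun n => coef f n * bψ ψ n) ≤
      ((((w : ℝ) + k) / 2 + 1 : ℝ) : EReal) := by
    refine LSeries.abscissaOfAbsConv_le_of_forall_lt_LSeriesSummable fun y hy => ?_
    have hre : ((y : ℂ) - ((w : ℂ) + k) / 2).re = y - ((w : ℝ) + k) / 2 := by simp
    have h4 := hsum ((y : ℂ) - ((w : ℂ) + k) / 2) (by
      rw [hre]
      linarith)
    refine Summable.of_norm ?_
    refine h4.congr fun n => ?_
    rw [show -(((w : ℂ) + k) / 2 + ((y : ℂ) - ((w : ℂ) + k) / 2)) = -(y : ℂ) by ring, hterm]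
  have hfun : (fun z => Dn f ψ (((w : ℂ) + k) / 2 + z)) =
      (LSeries (fun n => coef f n * bψ ψ n)) ∘ (fun z => ((w : ℂ) + k) / 2 + z) := by
    funext z
    exact hDn _
  rw [hfun]
  refine (LSeries_differentiableOn _).comp (Differentiable.differentiableOn (by fun_prop)) ?_
  intro z hz
  have hz' : 1 < z.re := hz
  show LSeries.abscissaOfAbsConv _ < (((((w : ℂ) + k) / 2 + z).re : ℝ) : EReal)
  refine lt_of_le_of_lt habs ?_
  rw [EReal.coe_lt_coe_iff]
  have hre : ((((w : ℂ) + k) / 2 + z)).re = ((w : ℝ) + k) / 2 + z.re := by simp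
  rw [hre]
  linarith

end RZ

end Pool.Agent.Lib.MP_7c08ba_nt
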