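import Mathlib
import Pool.Agent.Lib.MP_7c08ba_nt.RZ.StE
import Pool.Agent.Lib.MP_7c08ba_nt.RZ.EulQD

set_option autoImplicit false

/-!
(E8): the Euler product over the rational primes, for every odd fundamental discriminant and
characters of every type `(k, 0)`.
-/

namespace Pool.Agent.Lib.MP_7c08ba_nt

namespace RZ

open NumberField MeasureTheory UpperHalfPlane Set IsDedekindDomain
open scoped MatrixGroups ComplexConjugate nonZeroDivisors

namespace EulQNAux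

open EulQDAux

variable {F : Type} [Field F] [NumberField F]

/-- the local factor of the character -/
theorem factor_eqN {p : ℕ} (hp : p.Prime) {w k : ℕ} (hw : 1 ≤ w) (z : ℂ) :
    (p : ℂ) ^ (-(1 + 2 * z)) =
      (p : ℂ) ^ (w - 1) * (p : ℂ) ^ k * ((p : ℂ) ^ (-(((w : ℂ) + k) / 2 + z))) ^ 2 := by
  have hp0 : (p : ℂ) ≠ 0 := Nat.cast_ne_zero.mpr hp.ne_zero
  rw [← Complex.cpow_natCast, ← Complex.cpow_natCast, ← Complex.cpow_nat_mul,
    ← Complex.cpow_add _ _ hp0, ← Complex.cpow_add _ _ hp0]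
  congr 1
  push_cast [Nat.cast_sub hw]
  ring

/-- the local computation -/
theorem local_allN (h3 : StSplitD) (h2 : StBmulD) (h4 : StLocal) {D : ℕ} {s : 𝓞 F} {σ : F →+* ℂ}
    {χ : DirichletCharacter ℂ D} {cj : 𝓞 F ≃+* 𝓞 F} {w k : ℕ} (f : CuspForm 𝒮ℒ (w : ℤ))
    (ψ : Ideal (𝓞 F) →*₀ ℂ) (hD : DatD D s σ χ cj) (hf : IsEigen f)
    (hψ : IsHecke σ k ψ) (hw : 1 ≤ w) (z : ℂ) {p : ℕ} (hp : p.Prime)
    (hs : Summable fun e : ℕ => ‖coef f (p ^ e) * bψ ψ (p ^ e) *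
      ((p ^ e : ℕ) : ℂ) ^ (-(((w : ℂ) + k) / 2 + z))‖) :
    ∃ t : Finset (HeightOneSpectrum (𝓞 F)), (∀ v, v ∈ t ↔ (p : 𝓞 F) ∈ v.asIdeal) ∧
      (∑' e : ℕ, coef f (p ^ e) * bψ ψ (p ^ e) * ((p ^ e : ℕ) : ℂ) ^ (-(((w : ℂ) + k) / 2 + z))) *
        ∏ v ∈ t, eulF f ψ (((w : ℂ) + k) / 2 + z) v = 1 - χ p * (p : ℂ) ^ (-(1 + 2 * z)) := by
  obtain ⟨hb1, hbm, hbs, hbi, hbr⟩ := h2 D F _ _ s σ χ cj k ψ hD hψ
  obtain ⟨c1, c2, c3⟩ := h3 D F _ _ s σ χ cj hD p hp
  have hp0 : (Ideal.span {((p : ℕ) : 𝓞 F)}) ≠ ⊥ := by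
    rw [Ne, Ideal.span_singleton_eq_bot]
    exact_mod_cast hp.ne_zero
  have hchi : χ p = (jacobiSym p D : ℂ) := by
    have := hD.chi (p : ℤ)
    simpa using this
  have hpsi := psi_nat hψ hp.ne_zero
  rw [factor_eqN hp hw z]
  rcases jacobiSym.trichotomy (p : ℕ) D with h | h | h
  · obtain ⟨hpD, hr, hr2, hrn⟩ := c3 h
    have hr0 : ram s p ≠ ⊥ := by
      intro h0
      rw [h0] at hr2
      apply hp0
      rw [← hr2]
      simp
    rw [hchi, h, Int.cast_zero, zero_mul, sub_zero]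
    refine local_ram h4 f hf ψ _ hp hr hr0 hr2 hrn _ (fun e => ?_) hs
    rw [pow_cpow, hbr p hp hpD]
  · obtain ⟨P, P', hP, hP', hne, hPP, hN, hN'⟩ := c1 h
    have hb : P ≠ ⊥ ∧ P' ≠ ⊥ := by
      constructor
      · rintro rfl; apply hp0; rw [← hPP]; simp
      · rintro rfl; apply hp0; rw [← hPP]; simp
    rw [hchi, h, Int.cast_one, one_mul, ← hpsi, ← hPP, map_mul]
    refine local_split h4 f hf ψ _ hp hP hP' hb.1 hb.2 hne hPP hN hN' _ (fun e => ?_) hs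
    rw [pow_cpow, hbs p hp h P P' hP hP' hne hPP]
  · obtain ⟨hP, hN⟩ := c2 h
    rw [hchi, h, ← hpsi, Int.cast_neg, Int.cast_one, neg_one_mul, sub_neg_eq_add]
    refine local_inert h4 f hf ψ _ hp hP hp0 rfl hN _ (fun e => ?_) (fun e => ?_) hs
    · rw [(hbi p hp h e).1, mul_zero, zero_mul]
    · rw [pow_cpow, (hbi p hp h e).2, hpsi]

end EulQNAux

open EulQDAux EulQNAux

theorem stEulQN (h1 : StDnN) (h2 : StBmulD) (h3 : StSplitD) (h4 : StLocal) (h5 : StCoef) :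
    StEulQN := by
  intro D _ F _ _ s σ χ cj w k f ψ hD hf hψ z hz
  have hw : 1 ≤ w := by
    have := (stW12 w f hf).1
    omega
  obtain ⟨hsum, -⟩ := h1 D F _ _ s σ χ cj w k f ψ hD hw hψ
  obtain ⟨hb1, hbm, -⟩ := h2 D F _ _ s σ χ cj k ψ hD hψ
  have hs := hsum z hz
  obtain ⟨g, hg⟩ : ∃ g : ℕ → ℂ, ∀ n, g n = coef f n * bψ ψ n *
      (n : ℂ) ^ (-(((w : ℂ) + k) / 2 + z)) := ⟨_, fun _ => rfl⟩
  have hsg : Summable fun n => ‖g n‖ := hs.congr fun n => by rw [hg]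
  have hg0 : g 0 = 0 := by rw [hg, (h5 w f).1, zero_mul, zero_mul]
  have hg1 : g 1 = 1 := by
    rw [hg, hf.one, hb1, Nat.cast_one, Complex.one_cpow, mul_one, mul_one]
  have hcm : ∀ m n : ℕ, m.Coprime n → coef f (m * n) = coef f m * coef f n := by
    intro m n hmn
    rcases Nat.eq_zero_or_pos m with rfl | hm
    · have : n = 1 := by simpa using hmn
      rw [this, hf.one, mul_one, mul_one]
    · rcases Nat.eq_zero_or_pos n with rfl | hn
      · have : m = 1 := by simpa using hmn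
        rw [this, hf.one, one_mul, one_mul]
      · have h := hf.mul m n hm hn
        rw [hmn.gcd_eq_one, Nat.divisors_one, Finset.sum_singleton, Nat.cast_one, one_pow,
          one_mul, one_pow, Nat.div_one] at h
        exact h.symm
  have hgm : ∀ {m n : ℕ}, m.Coprime n → g (m * n) = g m * g n := by
    intro m n hmn
    rw [hg, hg, hg, hcm m n hmn, hbm m n hmn, Nat.cast_mul, Complex.natCast_mul_natCast_cpow]
    ring
  have hE := EulerProduct.eulerProduct_hasProd hg1 hgm hsg hg0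
  have hz1 : 1 < (1 + 2 * z).re := by
    simp only [Complex.add_re, Complex.one_re, Complex.mul_re, Complex.re_ofNat,
      Complex.im_ofNat, zero_mul, sub_zero]
    linarith
  have hL := DirichletCharacter.LSeries_eulerProduct_hasProd χ hz1
  rw [← DirichletCharacter.LFunction_eq_LSeries χ hz1] at hL
  have hsp : ∀ p : ℕ, p.Prime → Summable fun e => ‖g (p ^ e)‖ := fun p hp =>
    hsg.comp_injective (Nat.pow_right_injective hp.two_le)
  have key : ∀ p : ℕ, p.Prime → ∃ t : Finset (HeightOneSpectrum (𝓞 F)),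
      (∀ v, v ∈ t ↔ (p : 𝓞 F) ∈ v.asIdeal) ∧
      (∑' e, g (p ^ e)) * ∏ v ∈ t, eulF f ψ (((w : ℂ) + k) / 2 + z) v =
        1 - χ p * (p : ℂ) ^ (-(1 + 2 * z)) := by
    intro p hp
    have := local_allN h3 h2 h4 f ψ hD hf hψ hw z hp ((hsp p hp).congr fun e => by rw [hg])
    obtain ⟨t, ht, he⟩ := this
    refine ⟨t, ht, ?_⟩
    rw [← he, tsum_congr fun e => hg (p ^ e)]
  constructor
  · intro v
    obtain ⟨p, hp, hv⟩ := exists_prime v
    obtain ⟨t, ht, he⟩ := key p hp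
    intro h0
    rw [Finset.prod_eq_zero ((ht v).2 hv) h0, mul_zero] at he
    exact one_sub_ne χ hp hz he.symm
  · have hDn : Dn f ψ (((w : ℂ) + k) / 2 + z) = ∑' n, g n := (tsum_congr hg).symm
    rw [hDn]
    refine (hL.mul hE).congr_fun fun p => ?_
    obtain ⟨t, ht, he⟩ := key p p.2
    have hset : {v : HeightOneSpectrum (𝓞 F) | (p : 𝓞 F) ∈ v.asIdeal} = ↑t := by
      ext v
      exact (ht v).symm
    have hfin : ∏ᶠ v : {v : HeightOneSpectrum (𝓞 F) // (p : 𝓞 F) ∈ v.asIdeal},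
        (eulF f ψ (((w : ℂ) + k) / 2 + z) v.1)⁻¹ = (∏ v ∈ t, eulF f ψ (((w : ℂ) + k) / 2 + z) v)⁻¹ := by
      have e1 := finprod_set_coe_eq_finprod_mem (M := ℂ)
        (f := fun v => (eulF f ψ (((w : ℂ) + k) / 2 + z) v)⁻¹)
        {v : HeightOneSpectrum (𝓞 F) | (p : 𝓞 F) ∈ v.asIdeal}
      rw [hset, finprod_mem_coe_finset, Finset.prod_inv_distrib] at e1
      rw [← e1, ← hset]
      rfl
    rw [hfin]
    have hne : 1 - χ p * ((p : ℕ) : ℂ) ^ (-(1 + 2 * z)) ≠ 0 := one_sub_ne χ p.2 hz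
    have hE0 : ∏ v ∈ t, eulF f ψ (((w : ℂ) + k) / 2 + z) v ≠ 0 := by
      intro h0
      rw [h0, mul_zero] at he
      exact hne he.symm
    rw [← he] at hne ⊢
    have hS0 : (∑' e, g (p ^ e)) ≠ 0 := left_ne_zero_of_mul hne
    field_simp

end RZ

end Pool.Agent.Lib.MP_7c08ba_nt
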