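import Pool.Agent.Lib.MP_7c08ba_nt.RZ.StE
import Pool.Agent.Lib.MP_7c08ba_nt.RZ.HHD

set_option autoImplicit false

/-! (E2) continuity, transformation, holomorphy and size of the integrand of the Rankin–Selberg
integral, characters of type `(k, 0)` with `k + 2 * r + 2 = w`. -/

namespace Pool.Agent.Lib.MP_7c08ba_nt

namespace RZ

open NumberField MeasureTheory UpperHalfPlane Set
open scoped MatrixGroups ComplexConjugate nonZeroDivisors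

namespace HNm

open HHDm

/-- finite sums of bounded functions -/
theorem sum_bdd {ι X : Type} (S : Finset ι) (f : ι → X → ℂ) (b : X → ℝ) (P : X → Prop)
    (h : ∀ i ∈ S, ∃ C : ℝ, ∀ x, P x → ‖f i x‖ ≤ C * b x) :
    ∃ C : ℝ, ∀ x, P x → ‖∑ i ∈ S, f i x‖ ≤ C * b x := by
  classical
  induction S using Finset.induction_on with
  | empty => exact ⟨0, fun x _ => by simp⟩
  | insert i S hi ih =>
    obtain ⟨C₁, h₁⟩ := h i (Finset.mem_insert_self _ _)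
    obtain ⟨C₂, h₂⟩ := ih fun j hj => h j (Finset.mem_insert_of_mem hj)
    refine ⟨C₁ + C₂, fun x hx => ?_⟩
    rw [Finset.sum_insert hi, add_mul]
    exact (norm_add_le _ _).trans (add_le_add (h₁ x hx) (h₂ x hx))

section

variable {D : ℕ} [NeZero D] {F : Type} [Field F] [NumberField F] {s : 𝓞 F} {σ : F →+* ℂ}
  {χ : DirichletCharacter ℂ D} {cj : 𝓞 F ≃+* 𝓞 F} {ψ : Ideal (𝓞 F) →*₀ ℂ} {c : Reps σ}

theorem HN_cont (h1 : StThBD) (h4 : StEisAD) (hd : DatD D s σ χ cj) (k r : ℕ) {t : ℂ}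
    (ht : -(r : ℝ) - 1 / 2 < t.re) :
    ContinuousOn (HN D χ k r ψ c t) {u | 0 < u.im} := by
  unfold HN
  exact (thψ_cont h1 hd _).mul ((h4 D inferInstance χ r hd.odd hd.chi).2.2.1 t ht)

theorem tr_cont (h1 : StThBD) (h4 : StEisAD) (hd : DatD D s σ χ cj) (w k r : ℕ) {t : ℂ}
    (ht : -(r : ℝ) - 1 / 2 < t.re) :
    ContinuousOn (trD D w (HN D χ k r ψ c t)) {u | 0 < u.im} := by
  unfold trD
  have hH := HN_cont (ψ := ψ) (c := c) h1 h4 hd k r ht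
  refine continuousOn_finsetSum _ fun g hg => continuousOn_finsetSum _ fun j _ => ?_
  have hg1 : 1 ≤ g := Nat.pos_of_mem_divisors hg
  have him : ∀ u ∈ {u : ℂ | 0 < u.im}, 0 < (u + (j : ℂ)).im := by
    intro u hu
    simpa using hu
  have hne : ∀ u ∈ {u : ℂ | 0 < u.im}, (1 : ℂ) - g * (u + (j : ℂ)) ≠ 0 := fun u hu =>
    den_cusp hg1 (him u hu)
  refine ContinuousOn.mul (ContinuousOn.inv₀ (by fun_prop) fun u hu => pow_ne_zero _ (hne u hu)) ?_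
  refine hH.comp (ContinuousOn.div (by fun_prop) (by fun_prop) hne) ?_
  intro u hu
  exact cusp_pos hg1 (him u hu)

theorem HN_law (h3 : StThGD) (h5 : StEisLawD) (hd : DatD D s σ χ cj) {w k r : ℕ}
    (hk : Even k) (hw : w = k + 2 * r + 2) {t : ℂ} (ht : -(r : ℝ) - 1 / 2 < t.re) (g : SL(2, ℤ))
    {z : ℂ} (hz : 0 < z.im) (hc : (D : ℤ) ∣ g 1 0) :
    HN D χ k r ψ c t (((g 0 0 : ℂ) * z + g 0 1) / ((g 1 0 : ℂ) * z + g 1 1)) =
      ((g 1 0 : ℂ) * z + g 1 1) ^ w * HN D χ k r ψ c t z := by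
  have hE := h5 D inferInstance χ r hd.odd hd.chi t ht g z hz hc
  have hT := thψ_law (ψ := ψ) (c := c) h3 hd hk g hz hc
  have hchi := EisLaw.chi_sq hd.chi g hc
  unfold HN
  rw [hT, hE, show w = (k + 1) + (2 * r + 1) by omega, pow_add]
  linear_combination (((g 1 0 : ℂ) * z + g 1 1) ^ (k + 1) *
    ((g 1 0 : ℂ) * z + g 1 1) ^ (2 * r + 1) * thψ k ψ c z * eis D χ r t z) * hchi

theorem HN_diff (h4 : StEisAD) (hd : DatD D s σ χ cj) (k r : ℕ) {z : ℂ} (hz : 0 < z.im) :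
    DifferentiableOn ℂ (fun t => HN D χ k r ψ c t z) {t | -(r : ℝ) - 1 / 2 < t.re} := by
  unfold HN
  exact ((h4 D inferInstance χ r hd.odd hd.chi).1 z hz).const_mul _

theorem tr_diff (h4 : StEisAD) (hd : DatD D s σ χ cj) (w k r : ℕ) {z : ℂ} (hz : 0 < z.im) :
    DifferentiableOn ℂ (fun t => trD D w (HN D χ k r ψ c t) z)
      {t | -(r : ℝ) - 1 / 2 < t.re} := by
  unfold trD
  refine DifferentiableOn.fun_sum fun g hg => DifferentiableOn.fun_sum fun j _ =>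
    (HN_diff h4 hd k r ?_).const_mul _
  exact cusp_pos (Nat.pos_of_mem_divisors hg) (by simpa using hz)

omit [NeZero D] in
/-- the theta series at the cusps are bounded -/
theorem thG_bdd (h1 : StThBD) (hd : DatD D s σ χ cj) (a : Ideal (𝓞 F)) (ha : a ≠ ⊥) (k : ℕ)
    {g : ℕ} (hg : g ∣ D) :
    ∃ C : ℝ, ∀ u : ℂ, 1 / 2 ≤ u.im → ‖thG D s σ a g k u‖ ≤ C := by
  rcases Nat.eq_zero_or_pos k with rfl | hk
  · obtain ⟨C, hC⟩ := (h1 D F _ _ s σ χ cj a 0 0 g hd ha hg).2.2.2.2.2.2.2.2.2.1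
    refine ⟨C, fun u hu => ?_⟩
    have h2 := (hC u hu).2
    have h3 : thG D s σ a g 0 u = thlG D s σ a g 0 u := by
      unfold thG thlG lag
      simp
    rw [h3]
    exact h2
  · obtain ⟨C, δ, hδ, hb⟩ := (h1 D F _ _ s σ χ cj a k 0 g hd ha hg).2.2.2.2.2.2.2.2.1 hk
    refine ⟨|C|, fun u hu => ((hb u hu).2).trans ?_⟩
    have h2 : Real.exp (-(δ * u.im)) ≤ 1 := by
      rw [Real.exp_le_one_iff]
      have : 0 ≤ δ * u.im := mul_nonneg hδ.le (by linarith)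
      linarith
    calc C * Real.exp (-(δ * u.im)) ≤ |C| * Real.exp (-(δ * u.im)) := by
          gcongr
          exact le_abs_self _
      _ ≤ |C| * 1 := by gcongr
      _ = |C| := mul_one _

theorem SG_bdd (h1 : StThBD) (hd : DatD D s σ χ cj) (k : ℕ) {g : ℕ} (hg : g ∣ D) :
    ∃ C : ℝ, 0 ≤ C ∧ ∀ u : ℂ, 1 / 2 ≤ u.im → ‖SG D s ψ c g k u‖ ≤ C := by
  have H : ∀ A ∈ (Finset.univ : Finset (ClassGroup (𝓞 F))), ∃ C : ℝ,
      ∀ u : ℂ, 1 / 2 ≤ u.im → ‖(ψ (c.R A : Ideal (𝓞 F)))⁻¹ *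
        ((jacobiSym (Ideal.absNorm (c.R A : Ideal (𝓞 F))) (D / g) : ℂ) *
          thG D s σ (c.R A : Ideal (𝓞 F)) g k u)‖ ≤ C * (1 : ℝ) := by
    intro A _
    obtain ⟨C, hb⟩ := thG_bdd h1 hd (c.R A : Ideal (𝓞 F)) (bot_ne _) k hg
    refine ⟨‖(ψ (c.R A : Ideal (𝓞 F)))⁻¹‖ * C, fun u hu => ?_⟩
    rw [norm_mul, norm_mul, mul_one]
    refine mul_le_mul_of_nonneg_left ?_ (norm_nonneg _)
    refine le_trans ?_ (hb u hu)
    exact mul_le_of_le_one_left (norm_nonneg _) (jac_le _ _)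
  obtain ⟨C, hb⟩ := sum_bdd Finset.univ (fun A (u : ℂ) => (ψ (c.R A : Ideal (𝓞 F)))⁻¹ *
        ((jacobiSym (Ideal.absNorm (c.R A : Ideal (𝓞 F))) (D / g) : ℂ) *
          thG D s σ (c.R A : Ideal (𝓞 F)) g k u)) (fun _ => 1) (fun u => 1 / 2 ≤ u.im) H
  refine ⟨‖(1 / 2 : ℂ)‖ * |C|, by positivity, fun u hu => ?_⟩
  rw [SG, norm_mul]
  gcongr
  have h2 := hb u hu
  rw [mul_one] at h2
  exact h2.trans (le_abs_self _)

/-- the terms of the trace -/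
theorem term_size {w k r g : ℕ} (hw : w = k + 2 * r + 2) (hg : 1 ≤ g) {t v : ℂ} {T E : ℝ}
    (hv : 1 / 2 ≤ v.im) (hT : 0 ≤ T) {κ S : ℂ} (hκ : ‖κ‖ ≤ 1) (hS : ‖S‖ ≤ T)
    (h1 : thψ k ψ c (v / (1 - g * v)) = κ * (1 - g * v) ^ (k + 1) * S)
    (h2 : ‖eis D χ r t (v / (1 - g * v))‖ ≤ E) :
    ‖((1 - g * v) ^ w)⁻¹ * HN D χ k r ψ c t (v / (1 - g * v))‖ ≤ 2 ^ (2 * r + 1) * (T * E) := by
  have hv0 : 0 < v.im := by linarith
  have hd0 : (1 : ℂ) - g * v ≠ 0 := den_cusp hg hv0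
  have hn : 0 < ‖(1 : ℂ) - g * v‖ := norm_pos_iff.2 hd0
  have him : (1 : ℝ) / 2 ≤ ‖(1 : ℂ) - g * v‖ := by
    have h3 : |v.im| ≤ ‖(1 : ℂ) - g * v‖ := by
      refine le_trans ?_ (Complex.abs_im_le_norm _)
      have : ((1 : ℂ) - g * v).im = -(g * v.im) := by simp
      rw [this, abs_neg, abs_mul, Nat.abs_cast]
      have hg' : (1 : ℝ) ≤ g := by exact_mod_cast hg
      exact le_mul_of_one_le_left (abs_nonneg _) hg'
    rw [abs_of_pos hv0] at h3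
    linarith
  set d : ℂ := (1 : ℂ) - g * v with hdd
  have hp : (d ^ w)⁻¹ * (κ * d ^ (k + 1) * S) = (d ^ (2 * r + 1))⁻¹ * (κ * S) := by
    rw [show w = (k + 1) + (2 * r + 1) by omega, pow_add]
    have h3 : d ^ (k + 1) ≠ 0 := pow_ne_zero _ hd0
    have h4 : d ^ (2 * r + 1) ≠ 0 := pow_ne_zero _ hd0
    field_simp
  unfold HN
  rw [h1, ← mul_assoc, hp, norm_mul, norm_mul, norm_mul, norm_inv, norm_pow]
  have e1 : (‖d‖ ^ (2 * r + 1))⁻¹ ≤ 2 ^ (2 * r + 1) := by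
    rw [← inv_pow]
    have h3 : ‖d‖⁻¹ ≤ 2 := by
      rw [inv_le_comm₀ hn two_pos]
      linarith
    have h4 : 0 ≤ ‖d‖⁻¹ := by positivity
    gcongr
  calc (‖d‖ ^ (2 * r + 1))⁻¹ * (‖κ‖ * ‖S‖) * ‖eis D χ r t (v / d)‖
      ≤ 2 ^ (2 * r + 1) * (1 * T) * E := by gcongr
    _ = 2 ^ (2 * r + 1) * (T * E) := by ring

end

end HNm

open HHDm HNm in
theorem stHN (h1 : StThBD) (h2 : StKap) (h3 : StThGD) (h4 : StEisAD) (h5 : StEisLawD) :
    StHN := by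
  intro D _ F _ _ s σ χ cj w k r ψ c hd hk hw hcop
  refine ⟨fun t ht => ⟨HN_cont h1 h4 hd k r ht, HNm.tr_cont h1 h4 hd w k r ht,
    fun g z hz hc => HN_law h3 h5 hd hk hw ht g hz hc⟩, fun z hz => HNm.tr_diff h4 hd w k r hz, ?_⟩
  intro σ₀ R hσ
  obtain ⟨C₂, A, hA, hE⟩ := (h4 D inferInstance χ r hd.odd hd.chi).2.2.2 σ₀ R hσ
  obtain ⟨n, hn⟩ := exists_nat_ge A
  have key : ∀ g ∈ D.divisors, ∀ j ∈ Finset.range (D / g), ∃ C : ℝ, ∀ x : ℂ × ℂ,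
      (σ₀ ≤ x.1.re ∧ ‖x.1‖ ≤ R ∧ 1 / 2 ≤ x.2.im ∧ |x.2.re| ≤ 1 / 2) →
        ‖((1 - g * (x.2 + j)) ^ w)⁻¹ *
          HN D χ k r ψ c x.1 ((x.2 + j) / (1 - g * (x.2 + j)))‖ ≤
            C * (x.2.im + 1) ^ (2 * n) := by
    intro g hg j hj
    have hgD : g ∣ D := Nat.dvd_of_mem_divisors hg
    have hg1 : 1 ≤ g := Nat.pos_of_mem_divisors hg
    have hgle : (g : ℝ) ≤ D := by exact_mod_cast Nat.divisor_le hg
    have hjle : (j : ℝ) ≤ D := by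
      have h := (Finset.mem_range.1 hj).le.trans (Nat.div_le_self D g)
      exact_mod_cast h
    have hD1 : (1 : ℝ) ≤ D := by
      have : 1 ≤ D := NeZero.one_le
      exact_mod_cast this
    obtain ⟨h, κ, hκ, hth, -⟩ := h2 D F _ _ s σ χ cj hd g hgD
    have hκ1 : ‖κ‖ ≤ 1 := by
      have h3 : ‖κ‖ ^ 2 ≤ 1 := by
        rw [← norm_pow, hκ, norm_div, norm_mul, Complex.norm_natCast, Complex.norm_natCast]
        rw [div_le_one (by linarith)]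
        have h4 := jac_le (-1) (D / g)
        have h5 : (0 : ℝ) ≤ g := by positivity
        calc ‖((jacobiSym (-1) (D / g) : ℤ) : ℂ)‖ * (g : ℝ) ≤ 1 * g := by gcongr
          _ ≤ D := by linarith
      exact (sq_le_one_iff₀ (norm_nonneg _)).1 h3
    obtain ⟨C₁, hC₁, hS⟩ := SG_bdd (ψ := ψ) (c := c) h1 hd k hgD
    refine ⟨2 ^ (2 * r + 1) * (C₁ * (|C₂| * ((4 * (D + 1) ^ 2) ^ n * (D + 1) ^ (2 * n)))), ?_⟩
    rintro ⟨t, z⟩ ⟨ht, hR, hz, hx⟩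
    dsimp only at ht hR hz hx ⊢
    have hz0 : 0 < z.im := by linarith
    set y := z.im with hy
    set v : ℂ := z + j with hv
    have hvim : v.im = y := by simp [hv, hy]
    have hv0 : 0 < v.im := by rw [hvim]; exact hz0
    have hnz : ‖z‖ ≤ y + 1 := by
      have h3 := Complex.norm_le_abs_re_add_abs_im z
      rw [abs_of_pos hz0] at h3
      linarith
    have hnv : ‖v‖ ≤ y + (D + 1) := by
      refine (norm_add_le _ _).trans ?_
      rw [Complex.norm_natCast]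
      linarith
    have hnd : ‖(1 : ℂ) - g * v‖ ≤ (D + 1) * (y + (D + 1)) := by
      refine (norm_sub_le _ _).trans ?_
      rw [norm_one, norm_mul, Complex.norm_natCast]
      have h1 : (g : ℝ) * ‖v‖ ≤ D * (y + (D + 1)) := by gcongr
      linarith
    have hvc : 0 < (v / (1 - g * v)).im := cusp_pos hg1 hv0
    -- the Eisenstein series
    have hEis : ‖eis D χ r t (v / (1 - g * v))‖ ≤
        |C₂| * ((4 * (D + 1) ^ 2) ^ n * (y + (D + 1)) ^ (2 * n)) := by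
      have h3 := hE t (v / (1 - g * v)) ht hR hvc
      refine h3.trans ?_
      have hd0 : (1 : ℂ) - g * v ≠ 0 := den_cusp hg1 hv0
      have hdn : 0 < ‖(1 : ℂ) - g * v‖ := norm_pos_iff.2 hd0
      have e1 : (1 + ‖v / (1 - g * v)‖ ^ 2) / (v / (1 - g * v)).im =
          (‖(1 : ℂ) - g * v‖ ^ 2 + ‖v‖ ^ 2) / y := by
        rw [im_cusp, norm_div, Complex.normSq_eq_norm_sq, hvim]
        field_simp
      have hle : (1 + ‖v / (1 - g * v)‖ ^ 2) / (v / (1 - g * v)).im ≤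
          4 * (D + 1) ^ 2 * (y + (D + 1)) ^ 2 := by
        rw [e1, div_le_iff₀ hz0]
        have h4 : ‖(1 : ℂ) - g * v‖ ^ 2 ≤ (D + 1) ^ 2 * (y + (D + 1)) ^ 2 := by
          rw [← mul_pow]
          gcongr
        have h5 : ‖v‖ ^ 2 ≤ (D + 1) ^ 2 * (y + (D + 1)) ^ 2 := by
          have h6 : ‖v‖ ^ 2 ≤ (y + (D + 1)) ^ 2 := by gcongr
          have h7 : (1 : ℝ) ≤ ((D : ℝ) + 1) ^ 2 := one_le_pow₀ (by linarith)
          exact h6.trans (le_mul_of_one_le_left (sq_nonneg _) h7)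
        have h9 : 0 ≤ ((D : ℝ) + 1) ^ 2 * (y + (D + 1)) ^ 2 := by positivity
        have h10 := mul_nonneg h9 (show (0 : ℝ) ≤ y - 1 / 2 by linarith)
        rw [mul_assoc 4]
        generalize ((D : ℝ) + 1) ^ 2 * (y + (D + 1)) ^ 2 = P at h4 h5 h9 h10 ⊢
        linarith
      have h1B : (1 : ℝ) ≤ 4 * (D + 1) ^ 2 * (y + (D + 1)) ^ 2 := by
        have h4 : (1 : ℝ) ≤ y + (D + 1) := by linarith
        have h5 : (1 : ℝ) ≤ (y + (D + 1)) ^ 2 := one_le_pow₀ h4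
        have h7 : (1 : ℝ) ≤ ((D : ℝ) + 1) ^ 2 := one_le_pow₀ (by linarith)
        have h6 : (1 : ℝ) ≤ 4 * (D + 1) ^ 2 := by linarith
        exact one_le_mul_of_one_le_of_one_le h6 h5
      have h0 : 0 ≤ (1 + ‖v / (1 - g * v)‖ ^ 2) / (v / (1 - g * v)).im := by positivity
      calc C₂ * ((1 + ‖v / (1 - g * v)‖ ^ 2) / (v / (1 - g * v)).im) ^ A
          ≤ |C₂| * (4 * (D + 1) ^ 2 * (y + (D + 1)) ^ 2) ^ n := by
            gcongr ?_ * ?_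
            · exact le_abs_self _
            · calc _ ≤ (4 * (D + 1) ^ 2 * (y + (D + 1)) ^ 2) ^ A :=
                  Real.rpow_le_rpow h0 hle hA
                _ ≤ (4 * (D + 1) ^ 2 * (y + (D + 1)) ^ 2) ^ (n : ℝ) :=
                  Real.rpow_le_rpow_of_exponent_le h1B hn
                _ = _ := Real.rpow_natCast _ _
        _ = _ := by rw [mul_pow (4 * ((D : ℝ) + 1) ^ 2), ← pow_mul]
    -- the theta series
    set u : ℂ := v - h with hu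
    have huim : u.im = y := by
      rw [hu, ← hvim]
      simp
    have huv : u + h = v := by rw [hu]; ring
    have hSb : ‖SG D s ψ c g k u‖ ≤ C₁ := hS u (by rw [huim]; exact hz)
    have hthv : thψ k ψ c (v / (1 - g * v)) =
        κ * (1 - g * v) ^ (k + 1) * SG D s ψ c g k u := by
      unfold thψ SG
      simp only [Finset.mul_sum]
      refine Finset.sum_congr rfl fun B _ => ?_
      have h3 := hth (c.R B : Ideal (𝓞 F)) k u (bot_ne _) (hcop B) hk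
        (by rw [huim]; exact hz0)
      rw [huv] at h3
      rw [h3]
      ring
    have h3 := HNm.term_size (χ := χ) (ψ := ψ) (c := c) (t := t) hw hg1
      (T := C₁) (E := |C₂| * ((4 * (D + 1) ^ 2) ^ n * (y + (D + 1)) ^ (2 * n)))
      (by rw [hvim]; exact hz) hC₁ hκ1 hSb hthv hEis
    refine h3.trans ?_
    have h4 : y + (D + 1) ≤ (D + 1) * (y + 1) := by nlinarith
    have h5 : 0 ≤ y + ((D : ℝ) + 1) := by positivity
    calc 2 ^ (2 * r + 1) * (C₁ * (|C₂| * ((4 * ((D : ℝ) + 1) ^ 2) ^ n * (y + (D + 1)) ^ (2 * n))))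
        ≤ 2 ^ (2 * r + 1) * (C₁ * (|C₂| * ((4 * ((D : ℝ) + 1) ^ 2) ^ n *
          ((D + 1) * (y + 1)) ^ (2 * n)))) := by gcongr
      _ = _ := by rw [mul_pow ((D : ℝ) + 1)]; ring
  have key2 : ∀ g ∈ D.divisors, ∃ C : ℝ, ∀ x : ℂ × ℂ,
      (σ₀ ≤ x.1.re ∧ ‖x.1‖ ≤ R ∧ 1 / 2 ≤ x.2.im ∧ |x.2.re| ≤ 1 / 2) →
        ‖∑ j ∈ Finset.range (D / g), ((1 - g * (x.2 + j)) ^ w)⁻¹ *
          HN D χ k r ψ c x.1 ((x.2 + j) / (1 - g * (x.2 + j)))‖ ≤
            C * (x.2.im + 1) ^ (2 * n) := fun g hg =>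
    sum_bdd (Finset.range (D / g)) (fun (j : ℕ) (x : ℂ × ℂ) => ((1 - g * (x.2 + j)) ^ w)⁻¹ *
      HN D χ k r ψ c x.1 ((x.2 + j) / (1 - g * (x.2 + j)))) (fun x => (x.2.im + 1) ^ (2 * n))
      (fun x => σ₀ ≤ x.1.re ∧ ‖x.1‖ ≤ R ∧ 1 / 2 ≤ x.2.im ∧ |x.2.re| ≤ 1 / 2) (key g hg)
  obtain ⟨C, hb⟩ := sum_bdd D.divisors (fun (g : ℕ) (x : ℂ × ℂ) =>
      ∑ j ∈ Finset.range (D / g), ((1 - g * (x.2 + j)) ^ w)⁻¹ *
      HN D χ k r ψ c x.1 ((x.2 + j) / (1 - g * (x.2 + j)))) (fun x => (x.2.im + 1) ^ (2 * n))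
      (fun x => σ₀ ≤ x.1.re ∧ ‖x.1‖ ≤ R ∧ 1 / 2 ≤ x.2.im ∧ |x.2.re| ≤ 1 / 2) key2
  exact ⟨C, 2 * n, fun t z ht hR hz hx => hb (t, z) ⟨ht, hR, hz, hx⟩⟩

end RZ

end Pool.Agent.Lib.MP_7c08ba_nt
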