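import Pool.Agent.Lib.MP_7c08ba_nt.RZ.ThCD
import Pool.Agent.Lib.MP_7c08ba_nt.RZ.StE

set_option autoImplicit false

/-!
(E1) theta series of ideals at the cusps `1 / g`: the square of the constant, and the same
constant for the theta series with Laguerre polynomials.
-/

namespace Pool.Agent.Lib.MP_7c08ba_nt

namespace RZ

open NumberField MeasureTheory UpperHalfPlane Set
open scoped MatrixGroups ComplexConjugate nonZeroDivisors

namespace KapX

open ThCDX

/-- The square of the Gauss sum. -/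
theorem gs_sq {G : ℕ} [NeZero G] (h2 : IsUnit (2 : ZMod G)) (hodd : Odd G) (hsq : Squarefree G) :
    gs G 1 ^ 2 = (jacobiSym (-1) G : ℂ) * G := by
  have e1 := gs_mul_neg h2 (isUnit_one (M := ZMod G))
  have e2 := gs_jacobi G hodd hsq 1 (-1) isCoprime_one_left isCoprime_one_left.neg_left
  rw [mul_one, Int.cast_neg, Int.cast_one] at e2
  rw [e2] at e1
  have e3 : (jacobiSym (-1) G : ℂ) * (jacobiSym (-1) G : ℂ) = 1 := by
    have h : jacobiSym (-1) G = 1 ∨ jacobiSym (-1) G = -1 := by
      apply jacobiSym.eq_one_or_neg_one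
      simp
    rcases h with h | h <;> rw [h] <;> norm_num
  linear_combination (jacobiSym (-1) G : ℂ) * e1 - gs G 1 ^ 2 * e3

variable {F : Type} [Field F] [NumberField F]

theorem th_zero (σ : F →+* ℂ) (a : Ideal (𝓞 F)) (u : ℂ) :
    th σ a 0 u = ∑' x : a, ee (Qa σ a x * u) := by
  simp [th]

theorem thG_zero (D : ℕ) (s : 𝓞 F) (σ : F →+* ℂ) (a : Ideal (𝓞 F)) (g : ℕ) (u : ℂ) :
    thG D s σ a g 0 u =
      ∑' x : (a * ram s g : Ideal (𝓞 F)), ee (((Qa σ a x / D : ℝ) : ℂ) * u) := by
  simp [thG]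

end KapX

open ThCDX KapX in
theorem stKap (h1 : StPoisK) (h2 : StBaseD) (h3 : StBasD) (h4 : StThBD) (h5 : StRam)
    (h6 : StRaise2) : StKap := by
  intro D F _ _ s σ χ cj hD g hgD
  obtain ⟨G, hG⟩ := hgD
  have hgG : g * G = D := hG.symm
  have hD0 : D ≠ 0 := by
    have := hD.odd.2.2
    omega
  have hg00 : g ≠ 0 := by
    rintro rfl
    rw [zero_mul] at hgG
    exact hD0 hgG.symm
  have hG00 : G ≠ 0 := by
    rintro rfl
    rw [mul_zero] at hgG
    exact hD0 hgG.symm
  have : NeZero G := ⟨hG00⟩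
  have hdiv : D / g = G := by
    rw [hG]
    exact Nat.mul_div_cancel_left G (Nat.pos_of_ne_zero hg00)
  have hsqf : Squarefree (g * G) := hgG ▸ hD.odd.1
  have hcop : g.Coprime G := Nat.coprime_of_squarefree_mul hsqf
  have hsqG : Squarefree G := hD.odd.1.squarefree_of_dvd ⟨g, by rw [mul_comm]; exact hG⟩
  have hoddD : Odd D := by
    rw [Nat.odd_iff]
    have := hD.odd.2.1
    omega
  have hoddG : Odd G := hoddD.of_dvd_nat ⟨g, by rw [mul_comm]; exact hG⟩
  have h2u : IsUnit (2 : ZMod G) := by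
    have : IsUnit ((2 : ℕ) : ZMod G) := (ZMod.isUnit_iff_coprime 2 G).2 (by
      rwa [Nat.coprime_two_left])
    simpa using this
  -- the inverse of `g` modulo `G`
  obtain ⟨h, hh⟩ : ∃ h : ℤ, ((g * h : ℤ) : ZMod G) = 1 := by
    have hu : IsUnit ((g : ℕ) : ZMod G) := (ZMod.isUnit_iff_coprime g G).2 hcop
    obtain ⟨c, hc⟩ := hu.exists_right_inv
    refine ⟨(c.val : ℤ), ?_⟩
    push_cast
    rw [ZMod.natCast_zmod_val, hc]
  have hGR : (G : ℝ) ≠ 0 := by exact_mod_cast hG00
  have hGC : (G : ℂ) ≠ 0 := by exact_mod_cast hG00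
  have hgR : (g : ℝ) ≠ 0 := by exact_mod_cast hg00
  have hgC : (g : ℂ) ≠ 0 := by exact_mod_cast hg00
  have hth : ∀ (a : Ideal (𝓞 F)) (k : ℕ) (u : ℂ), a ≠ ⊥ → IsCoprime a (Ideal.span {s}) →
      Even k → 0 < u.im → th σ a k ((u + h) / (1 - g * (u + h))) =
        (1 - g * (u + h)) ^ (k + 1) * (gs G 1 / G) * (jacobiSym (Ideal.absNorm a) (D / g) : ℂ) *
          thG D s σ a g k u := by
    intro a k u ha hc hk hu
    rw [hdiv]
    obtain ⟨Ni, hNi⟩ := norm_inv h3 h4 hD ha hc
    set z : ℂ := u + h with hz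
    have hzim : 0 < z.im := by
      rw [hz, Complex.add_im, Complex.intCast_im, add_zero]
      exact hu
    have hz0 : z ≠ 0 := by
      intro h0
      rw [h0] at hzim
      simp at hzim
    have hvim : 0 < (-1 / z).im := by
      rw [neg_div, Complex.neg_im, one_div, Complex.inv_im, neg_div, neg_neg]
      have := Complex.normSq_pos.2 hz0
      positivity
    set v : ℂ := -1 / z with hv
    have hv0 : v ≠ 0 := by
      intro h0
      rw [h0] at hvim
      simp at hvim
    have hvz : -1 / v = z := by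
      rw [hv]
      field_simp
    have hwim : 0 < ((g : ℂ) + v).im := by
      rw [Complex.add_im, Complex.natCast_im, zero_add]
      exact hvim
    have hw0 : (g : ℂ) + v ≠ 0 := by
      intro h0
      rw [h0] at hwim
      simp at hwim
    have hwv : (1 - g * z) * v = g + v := by
      rw [hv]
      field_simp
      ring
    have hgz : 1 - g * z ≠ 0 := by
      intro h0
      rw [h0, zero_mul] at hwv
      exact hw0 hwv.symm
    have harg : z / (1 - g * z) = -1 / (g + v) := by
      rw [div_eq_div_iff hgz hw0, ← hwv, hv]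
      field_simp
    rw [harg]
    -- the transformation at infinity
    have p1 := pois h1 h2 hD ha hk 0 hwim
    have p2 : th σ a k (-1 / (g + v)) = (Sq D)⁻¹ * (g + v) ^ (k + 1) *
        ∑' η : a, (σ ((η : 𝓞 F) : F) / Sq D) ^ k * ee (Qa σ a η / D * (g + v)) := by
      have e1 : ∀ η : a, ee (-(2 * ((0 : ℂ) * conj (σ ((η : 𝓞 F) : F) / Sq D)).re /
          (Ideal.absNorm a : ℝ) : ℝ)) = 1 := by
        intro η
        rw [zero_mul, Complex.zero_re, mul_zero, zero_div]
        have := ee_int 0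
        simpa using this
      simp only [e1, one_mul, zero_add] at p1
      rw [← p1]
      unfold th
      refine tsum_congr fun η => ?_
      unfold Qa
      push_cast
      rfl
    have p3 := step h1 h2 h3 h4 hD ha hgG hNi hk hvim
    rw [hvz, hz, collect h3 h4 h5 hD ha hc hgG hNi hh hu] at p3
    -- the Gauss sum
    have hNG : IsCoprime ((Ideal.absNorm a : ℕ) : ℤ) (G : ℤ) := by
      obtain ⟨l, hl⟩ := hNi
      refine ⟨Ni, -(g * l), ?_⟩
      rw [← hgG] at hl
      push_cast at hl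
      linear_combination hl
    have p4 := gs_jacobi G hoddG hsqG 1 (Ideal.absNorm a : ℤ) isCoprime_one_left hNG
    rw [mul_one, Int.cast_one] at p4
    rw [p4] at p3
    have hS := Sq_ne hD0
    have hvk : v ^ (k + 1) ≠ 0 := pow_ne_zero _ hv0
    have p5 : ∑' η : a, (σ ((η : 𝓞 F) : F) / Sq D) ^ k * ee (Qa σ a η / D * (g + v)) =
        (v ^ (k + 1))⁻¹ * (Sq D * ((jacobiSym (Ideal.absNorm a) G : ℂ) * gs G 1 / G) *
          thG D s σ a g k u) := by
      rw [← p3, ← mul_assoc, inv_mul_cancel₀ hvk, one_mul]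
    rw [p2, p5, ← hwv, mul_pow]
    field_simp
  refine ⟨h, gs G 1 / G, ?_, hth, ?_⟩
  · rw [hdiv, div_pow, gs_sq h2u hoddG hsqG, ← hgG]
    push_cast
    field_simp
  · intro a r u ha hc hu
    have hD0R : (0 : ℝ) < D := by exact_mod_cast Nat.pos_of_ne_zero hD0
    have hQ : ∀ x : 𝓞 F, 0 ≤ Qa σ a x := fun x =>
      div_nonneg (Complex.normSq_nonneg _) (Nat.cast_nonneg _)
    have hS : ∀ y : ℝ, 0 < y → Summable fun x : a => Real.exp (-Qa σ a (x : 𝓞 F) * y) := by
      intro y hy
      have h := (h4 D F _ _ s σ χ cj a 0 r g hD ha ⟨G, hG⟩).2.1 y hy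
      refine h.congr fun x => ?_
      rw [pow_zero, one_mul, neg_mul, mul_comm y]
    have hle : a * ram s g ≤ a := Ideal.mul_le_left
    have hS' : ∀ y : ℝ, 0 < y → Summable fun x : (a * ram s g : Ideal (𝓞 F)) =>
        Real.exp (-(Qa σ a (x : 𝓞 F) / D) * y) := by
      intro y hy
      have h := (hS (y / D) (div_pos hy hD0R)).comp_injective
        (Submodule.inclusion_injective hle)
      refine h.congr fun x => ?_
      simp only [Function.comp_apply, Submodule.coe_inclusion]
      congr 1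
      ring
    have key := h6 a (a * ram s g : Ideal (𝓞 F)) r (fun x => Qa σ a (x : 𝓞 F))
      (fun x => Qa σ a (x : 𝓞 F) / D) 1 h (-g) (1 - g * h)
      (gs G 1 / G * (jacobiSym (Ideal.absNorm a) (D / g) : ℂ)) (fun x => hQ x)
      (fun x => div_nonneg (hQ x) hD0R.le) hS hS' (by ring)
      (fun z hz => by
        have hz' := hth a 0 z ha hc (by simp) hz
        rw [th_zero, thG_zero, zero_add, pow_one] at hz'
        have e1 : ((((1 : ℝ) : ℂ) * z + ((h : ℝ) : ℂ)) / (((-(g : ℝ) : ℝ) : ℂ) * z +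
            ((1 - (g : ℝ) * h : ℝ) : ℂ))) = (z + h) / (1 - g * (z + h)) := by
          push_cast
          congr 1 <;> ring
        have e2 : (((-(g : ℝ) : ℝ) : ℂ) * z + ((1 - (g : ℝ) * h : ℝ) : ℂ)) =
            1 - g * (z + h) := by
          push_cast
          ring
        rw [e1, e2, hz']
        ring) u hu
    have e1 : ((((1 : ℝ) : ℂ) * u + ((h : ℝ) : ℂ)) / (((-(g : ℝ) : ℝ) : ℂ) * u +
        ((1 - (g : ℝ) * h : ℝ) : ℂ))) = (u + h) / (1 - g * (u + h)) := by
      push_cast
      congr 1 <;> ring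
    have e2 : (((-(g : ℝ) : ℝ) : ℂ) * u + ((1 - (g : ℝ) * h : ℝ) : ℂ)) =
        1 - g * (u + h) := by
      push_cast
      ring
    rw [e1, e2] at key
    unfold thl thlG
    rw [key]
    push_cast
    ring

end RZ

end Pool.Agent.Lib.MP_7c08ba_nt
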