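import Mathlib
import Pool.Agent.Lib.MP_7c08ba_nt.RZ.StE
import Pool.Agent.Lib.MP_7c08ba_nt.RZ.MainD

set_option autoImplicit false

/-!
Assembly of the analytic part for characters of type `(k, 0)`, `k + 2 * r + 2 = w`: the
`L`-function vanishes at the centre.
-/

namespace Pool.Agent.Lib.MP_7c08ba_nt

namespace RZ

open NumberField MeasureTheory UpperHalfPlane Set IsDedekindDomain
open scoped MatrixGroups ComplexConjugate nonZeroDivisors

theorem stMainN (h1 : StTr0) (h2 : StRSanN) (h3 : StRSN) (h4 : StDnN) (h5 : StEulN) (h6 : StW12)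
    (h7 : StRepsD) (h8 : StPsiD) : StMainN := by
  intro q F _ _ s σ w k r f ψ hq hF hs hf hwk hψ
  obtain ⟨s', χ, cj, hD⟩ := MainDAux.exists_dat σ hq hF hs
  obtain ⟨hw, -⟩ := h6 w f hf
  have hq0 : NeZero q := ⟨by have := hq.2.2; omega⟩
  obtain ⟨c₀, hcop⟩ := h7 q F _ _ s' σ χ cj hD
  obtain ⟨hk, -⟩ := h8 q F _ _ s' σ χ cj k ψ hD hψ
  have han := h2 q hq0 F _ _ s' σ χ cj w k r f ψ c₀ hD hk hwk hcop
  obtain ⟨A, hA⟩ := h3 q hq0 F _ _ s' σ χ cj w k r f ψ c₀ hD hwk hψ
  obtain ⟨-, hDn⟩ := h4 q F _ _ s' σ χ cj w k f ψ hD (by omega) hψ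
  have hpi : (4 * Real.pi : ℂ) ≠ 0 := by
    have := Real.pi_ne_zero
    simp [this]
  have hcen : ((w : ℂ) + k) / 2 = k + r + 1 := by
    rw [hwk]
    push_cast
    ring
  rw [hcen] at hDn ⊢
  -- the function
  let Λ : ℂ → ℂ := fun z => (4 * Real.pi : ℂ) ^ ((k : ℂ) + r + 1 + z) *
    (Complex.Gamma ((k : ℂ) + r + 1 + z))⁻¹ * rsD q (HN q χ k r ψ c₀ (z - r)) f
  have hΛ : DifferentiableOn ℂ Λ {z | -1 / 2 < z.re} := by
    have e1 : Differentiable ℂ fun z : ℂ => (k : ℂ) + r + 1 + z :=
      (differentiable_const _).add differentiable_id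
    have e2 : Differentiable ℂ fun z : ℂ => (4 * Real.pi : ℂ) ^ ((k : ℂ) + r + 1 + z) :=
      e1.const_cpow (Or.inl hpi)
    have e3 : Differentiable ℂ fun z : ℂ => (Complex.Gamma ((k : ℂ) + r + 1 + z))⁻¹ :=
      Complex.differentiable_one_div_Gamma.comp e1
    refine (e2.mul e3).differentiableOn.mul ?_
    refine han.comp (g := fun t => rsD q (HN q χ k r ψ c₀ t) f) (f := fun z : ℂ => z - r)
      (differentiable_id.sub (differentiable_const _)).differentiableOn ?_
    intro z hz
    simp only [mem_ofPred_eq, Complex.sub_re, Complex.natCast_re] at hz ⊢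
    linarith
  have hEq : EqOn Λ (fun z => DirichletCharacter.LFunction χ (1 + 2 * z) *
      Dn f ψ ((k : ℂ) + r + 1 + z)) {z | 1 < z.re} := by
    have hopen : IsOpen {z : ℂ | 1 < z.re} := isOpen_lt continuous_const Complex.continuous_re
    have ha1 : AnalyticOnNhd ℂ Λ {z | 1 < z.re} :=
      (hΛ.mono fun z (hz : 1 < z.re) => by
        show -1 / 2 < z.re
        linarith).analyticOnNhd hopen
    have ha2 : AnalyticOnNhd ℂ (fun z => DirichletCharacter.LFunction χ (1 + 2 * z) *
        Dn f ψ ((k : ℂ) + r + 1 + z)) {z | 1 < z.re} := by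
      refine DifferentiableOn.analyticOnNhd (DifferentiableOn.mul ?_ hDn) hopen
      intro z hz
      refine DifferentiableAt.differentiableWithinAt ?_
      refine DifferentiableAt.comp (g := DirichletCharacter.LFunction χ)
        (f := fun z : ℂ => 1 + 2 * z) z
        (DirichletCharacter.differentiableAt_LFunction χ _ (Or.inl ?_)) ?_
      · intro h
        have h' := congrArg Complex.re h
        simp only [mem_ofPred_eq] at hz
        simp at h'
        rw [h'] at hz
        norm_num at hz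
      · exact ((differentiable_const _).add ((differentiable_const _).mul differentiable_id)) z
    -- the point where the two functions agree
    let z₀ : ℂ := ((max 1 (A + r) + 1 : ℝ) : ℂ)
    have hz₀ : z₀ ∈ {z : ℂ | 1 < z.re} := by
      show 1 < z₀.re
      rw [Complex.ofReal_re]
      have := le_max_left 1 (A + r)
      linarith
    refine ha1.eqOn_of_preconnected_of_eventuallyEq ha2
      (convex_halfSpace_re_gt 1).isPreconnected hz₀ ?_
    have hev : ∀ᶠ z in nhds z₀, A + r < z.re :=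
      (isOpen_lt continuous_const Complex.continuous_re).mem_nhds (by
        show A + r < z₀.re
        rw [Complex.ofReal_re]
        have := le_max_right 1 (A + r)
        linarith)
    have hev2 : ∀ᶠ z in nhds z₀, 1 < z.re := hopen.mem_nhds hz₀
    filter_upwards [hev, hev2] with z hz hz1
    have h9 := hA (z - r) (by
      rw [Complex.sub_re, Complex.natCast_re]
      linarith)
    have e1 : (k : ℂ) + 2 * r + 1 + (z - r) = (k : ℂ) + r + 1 + z := by ring
    have e2 : 2 * (r : ℂ) + 1 + 2 * (z - r) = 1 + 2 * z := by ring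
    rw [e1, e2] at h9
    have hG : Complex.Gamma ((k : ℂ) + r + 1 + z) ≠ 0 := by
      refine Complex.Gamma_ne_zero_of_re_pos ?_
      simp only [Complex.add_re, Complex.natCast_re, Complex.one_re]
      have : (0 : ℝ) ≤ k := Nat.cast_nonneg k
      have : (0 : ℝ) ≤ r := Nat.cast_nonneg r
      linarith
    have hP : (4 * Real.pi : ℂ) ^ ((k : ℂ) + r + 1 + z) ≠ 0 := by
      rw [Complex.cpow_def_of_ne_zero hpi]
      exact Complex.exp_ne_zero _
    show (4 * Real.pi : ℂ) ^ ((k : ℂ) + r + 1 + z) *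
      (Complex.Gamma ((k : ℂ) + r + 1 + z))⁻¹ * rsD q (HN q χ k r ψ c₀ (z - r)) f = _
    rw [h9, Complex.cpow_neg]
    field_simp
  refine ⟨Λ, hΛ, ?_, ?_⟩
  · intro z hz
    rw [hEq hz]
    have h := h5 q hq0 F _ _ s' σ χ cj w k f ψ hD hf hψ z hz
    rwa [hcen] at h
  · show (4 * Real.pi : ℂ) ^ ((k : ℂ) + r + 1 + 0) *
      (Complex.Gamma ((k : ℂ) + r + 1 + 0))⁻¹ * rsD q (HN q χ k r ψ c₀ (0 - r)) f = 0
    have h0 : rsD q (HN q χ k r ψ c₀ (0 - r)) f = 0 := by
      rw [zero_sub]
      have hz : (fun z : ℍ => trD q w (HN q χ k r ψ c₀ (-r)) z *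
          f (ofComplex (-conj (z : ℂ))) * (z.im : ℂ) ^ w) = fun _ => 0 := by
        funext z
        rw [h1 q hq0 F _ _ s' σ χ cj w k r ψ c₀ hD hk hwk hcop z z.im_pos, zero_mul, zero_mul]
      show ∫ z : ℍ in ModularGroup.fd, trD q w (HN q χ k r ψ c₀ (-r)) z *
          f (ofComplex (-conj (z : ℂ))) * (z.im : ℂ) ^ w = 0
      rw [hz, integral_zero]
    rw [h0, mul_zero]

end RZ

end Pool.Agent.Lib.MP_7c08ba_nt
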