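import Pool.Agent.Lib.MP_7c08ba_nt.RZ.JmP
import Pool.Agent.Lib.MP_7c08ba_nt.RZ.StE
import Pool.Agent.Lib.MP_7c08ba_nt.RZ.ThCD
import Pool.Agent.Lib.MP_7c08ba_nt.RZ.Rho

set_option autoImplicit false

/-!
(E11) the sum over the cusps of the products of two theta series is zero, odd discriminants.
-/

namespace Pool.Agent.Lib.MP_7c08ba_nt

namespace RZ

open NumberField UpperHalfPlane Set
open scoped MatrixGroups ComplexConjugate nonZeroDivisors

namespace Pair0X

open JmX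

theorem geo (W : ℕ) (hW : 1 ≤ W) (t : ℤ) :
    ∑ j ∈ Finset.range W, ee (j * ((t : ℂ) / W)) = if (W : ℤ) ∣ t then (W : ℂ) else 0 := by
  have hW0 : (W : ℂ) ≠ 0 := by
    have : W ≠ 0 := by omega
    exact_mod_cast this
  by_cases h : (W : ℤ) ∣ t
  · rw [if_pos h]
    obtain ⟨k, rfl⟩ := h
    have h1 : ∀ j ∈ Finset.range W, ee (j * (((W * k : ℤ) : ℂ) / W)) = 1 := by
      intro j _
      have : (j : ℂ) * (((W * k : ℤ) : ℂ) / W) = ((j * k : ℤ) : ℂ) := by
        push_cast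
        field_simp
      rw [this, ee_int]
    rw [Finset.sum_congr rfl h1]
    simp
  · rw [if_neg h]
    have h1 : ee ((t : ℂ) / W) ≠ 1 := by
      intro h2
      unfold ee at h2
      rw [Complex.exp_eq_one_iff] at h2
      obtain ⟨n, hn⟩ := h2
      apply h
      refine ⟨n, ?_⟩
      have h3 : (2 * (Real.pi : ℂ) * Complex.I) ≠ 0 := Complex.two_pi_I_ne_zero
      have h4 : (t : ℂ) / W = n := by
        apply mul_left_cancel₀ h3
        rw [hn]
        ring
      rw [div_eq_iff hW0] at h4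
      have h5 : (t : ℂ) = ((W * n : ℤ) : ℂ) := by
        rw [h4]
        push_cast
        ring
      exact_mod_cast h5
    have h2 : (∑ j ∈ Finset.range W, ee (j * ((t : ℂ) / W))) * (ee ((t : ℂ) / W) - 1) = 0 := by
      simp_rw [ee_nsmul]
      rw [geom_sum_mul, ← ee_nsmul]
      have : ((W : ℂ) * ((t : ℂ) / W)) = (t : ℂ) := by field_simp
      rw [this, ee_int, sub_self]
    rcases mul_eq_zero.1 h2 with h3 | h3
    · exact h3
    · exact absurd (sub_eq_zero.1 h3) h1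

open Classical in
theorem tsum_ideal {F : Type} [Field F] [NumberField F] {I J : Ideal (𝓞 F)} (h : I ≤ J)
    (f : 𝓞 F → ℂ) : ∑' x : I, f x = ∑' x : J, (if (x : 𝓞 F) ∈ I then (1 : ℂ) else 0) * f x := by
  have e1 : ∑' x : I, f x = ∑' x : 𝓞 F, (I : Set (𝓞 F)).indicator f x :=
    tsum_subtype (I : Set (𝓞 F)) f
  have e2 : ∑' x : J, (if (x : 𝓞 F) ∈ I then (1 : ℂ) else 0) * f x = ∑' x : 𝓞 F,
      (J : Set (𝓞 F)).indicator (fun x => (if x ∈ I then (1 : ℂ) else 0) * f x) x :=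
    tsum_subtype (J : Set (𝓞 F)) (fun x => (if x ∈ I then (1 : ℂ) else 0) * f x)
  rw [e1, e2]
  refine tsum_congr fun x => ?_
  by_cases hx : x ∈ I
  · have hx' : x ∈ (I : Set (𝓞 F)) := hx
    have hxJ : x ∈ (J : Set (𝓞 F)) := h hx
    rw [Set.indicator_of_mem hx', Set.indicator_of_mem hxJ, if_pos hx, one_mul]
  · have hx' : x ∉ (I : Set (𝓞 F)) := hx
    rw [Set.indicator_of_notMem hx']
    by_cases hxJ : x ∈ (J : Set (𝓞 F))
    · rw [Set.indicator_of_mem hxJ, if_neg hx, zero_mul]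
    · rw [Set.indicator_of_notMem hxJ]

/-- elements of `a * ram s g` have norm divisible by `g` -/
theorem g_dvd {F : Type} [Field F] [NumberField F] {D : ℕ} {s : 𝓞 F} {σ : F →+* ℂ}
    {χ : DirichletCharacter ℂ D} {cj : 𝓞 F ≃+* 𝓞 F} (hd : DatD D s σ χ cj) (h3 : StRam)
    (h4 : StBasD) {a : Ideal (𝓞 F)} (ha : a ≠ ⊥) (hca : IsCoprime a (Ideal.span {s})) {g : ℕ}
    (hg : g ∣ D) {x : 𝓞 F} (hx : x ∈ a * ram s g) {n : ℕ} (hn : Qa σ a x = n) : g ∣ n := by
  obtain ⟨-, -, -, -, -, b6, -, -, b9, -⟩ := h4 D F _ _ s σ χ cj hd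
  obtain ⟨m, hm⟩ := b9 x
  obtain ⟨-, -, -, r4, r5⟩ := h3 D F _ _ s σ χ cj hd g hg
  have h5 : (g : ℤ) ∣ m := (r4 x m hm).1 ((r5 a x hca).1 hx).2
  obtain ⟨u, hu⟩ := ThCDX.res_norm h4 hd x m hm
  have ha0 : (Ideal.absNorm a : ℝ) ≠ 0 := by
    have : Ideal.absNorm a ≠ 0 := by rwa [Ne, Ideal.absNorm_eq_zero_iff]
    exact_mod_cast this
  unfold Qa at hn
  rw [div_eq_iff ha0, b6] at hn
  have hn' : (Ideal.absNorm (Ideal.span {x}) : ℤ) = n * Ideal.absNorm a := by exact_mod_cast hn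
  have h6 : (g : ℤ) ∣ n * Ideal.absNorm a := by
    rw [← hn']
    have h7 : (g : ℤ) ∣ (D : ℤ) := by exact_mod_cast hg
    have h8 : (Ideal.absNorm (Ideal.span {x}) : ℤ) = m ^ 2 + D * u := by linear_combination hu
    rw [h8]
    exact dvd_add (h5.trans (dvd_pow_self _ two_ne_zero)) (h7.mul_right _)
  have h9 : IsCoprime (g : ℤ) (Ideal.absNorm a : ℤ) := by
    have h10 := (RhoAux.coprime_norm h4 hd hca).symm
    exact h10.of_isCoprime_of_dvd_left (by exact_mod_cast hg)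
  have h11 := h9.dvd_of_dvd_mul_right h6
  exact_mod_cast h11

open Classical in
/-- the coefficient of a pair -/
theorem coef_zero {F : Type} [Field F] [NumberField F] {D : ℕ} {s : 𝓞 F} {σ : F →+* ℂ}
    {χ : DirichletCharacter ℂ D} {cj : 𝓞 F ≃+* 𝓞 F} (hd : DatD D s σ χ cj) (h1 : StSgn)
    (h3 : StRam) (h4 : StBasD)
    {a b : Ideal (𝓞 F)} (ha : a ≠ ⊥) (hb : b ≠ ⊥)
    (hca : IsCoprime a (Ideal.span {s})) (hcb : IsCoprime b (Ideal.span {s}))
    {x y : 𝓞 F} (hx : x ∈ a) (hy : y ∈ b) {n n' : ℕ} (hn : Qa σ a x = n) (hn' : Qa σ b y = n') :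
    ∑ g ∈ D.divisors, (jacobiSym (-((Ideal.absNorm a : ℤ) * Ideal.absNorm b)) (D / g) : ℂ) *
      ((g : ℂ) / D) * ((if x ∈ a * ram s g then (1 : ℂ) else 0) *
        (if y ∈ b * ram s g then (1 : ℂ) else 0) *
          ∑ j ∈ Finset.range (D / g), ee (j * (((n : ℂ) + n') / D))) = 0 := by
  have hD0 : 0 < D := by
    have := hd.odd.2.2
    omega
  have hDc : (D : ℂ) ≠ 0 := by exact_mod_cast hD0.ne'
  -- the inner sum
  have hin : ∀ g ∈ D.divisors, g ∣ n → g ∣ n' →
      ((g : ℂ) / D) * ∑ j ∈ Finset.range (D / g), ee (j * (((n : ℂ) + n') / D)) =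
        if D ∣ n + n' then 1 else 0 := by
    intro g hg hs hs'
    have hgD := Nat.dvd_of_mem_divisors hg
    obtain ⟨t, ht⟩ := dvd_add hs hs'
    have hg0 : g ≠ 0 := (Nat.pos_of_dvd_of_pos hgD hD0).ne'
    have hgc : (g : ℂ) ≠ 0 := by exact_mod_cast hg0
    set W := D / g with hW
    have hgW : g * W = D := Nat.mul_div_cancel' hgD
    have hWp : 1 ≤ W := Nat.div_pos (Nat.le_of_dvd hD0 hgD) (Nat.pos_of_ne_zero hg0)
    have hWc : (W : ℂ) ≠ 0 := by
      have : W ≠ 0 := by omega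
      exact_mod_cast this
    have hDW : (D : ℂ) = g * W := by exact_mod_cast hgW.symm
    have e1 : ((n : ℂ) + n') / D = ((t : ℤ) : ℂ) / W := by
      have h4 : ((n : ℂ) + n') = g * t := by exact_mod_cast ht
      rw [h4, hDW]
      push_cast
      field_simp
    rw [e1, geo _ hWp, ht]
    have e2 : ((W : ℤ) ∣ (t : ℤ)) ↔ D ∣ g * t := by
      rw [← hgW, Nat.mul_dvd_mul_iff_left (Nat.pos_of_ne_zero hg0)]
      exact Int.natCast_dvd_natCast
    by_cases h8 : D ∣ g * t
    · rw [if_pos (e2.2 h8), if_pos h8, hDW]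
      field_simp
    · rw [if_neg (fun h9 => h8 (e2.1 h9)), if_neg h8, mul_zero]
  have h5 : ∀ g ∈ D.divisors, (jacobiSym (-((Ideal.absNorm a : ℤ) * Ideal.absNorm b)) (D / g) : ℂ) *
      ((g : ℂ) / D) * ((if x ∈ a * ram s g then (1 : ℂ) else 0) *
        (if y ∈ b * ram s g then (1 : ℂ) else 0) *
          ∑ j ∈ Finset.range (D / g), ee (j * (((n : ℂ) + n') / D))) =
      (((if x ∈ a * ram s g ∧ y ∈ b * ram s g then
      jacobiSym (-((Ideal.absNorm a : ℤ) * Ideal.absNorm b)) (D / g) else 0 : ℤ) : ℤ) : ℂ) *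
        (if D ∣ n + n' then 1 else 0) := by
    intro g hg
    have hgD := Nat.dvd_of_mem_divisors hg
    by_cases hxg : x ∈ a * ram s g
    · by_cases hyg : y ∈ b * ram s g
      · rw [if_pos hxg, if_pos hyg, if_pos ⟨hxg, hyg⟩,
          ← hin g hg (g_dvd hd h3 h4 ha hca hgD hxg hn) (g_dvd hd h3 h4 hb hcb hgD hyg hn')]
        ring
      · have h9 : ¬ (x ∈ a * ram s g ∧ y ∈ b * ram s g) := fun h => hyg h.2
        rw [if_neg hyg, if_neg h9, Int.cast_zero]
        ring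
    · have h9 : ¬ (x ∈ a * ram s g ∧ y ∈ b * ram s g) := fun h => hxg h.1
      rw [if_neg hxg, if_neg h9, Int.cast_zero]
      ring
  rw [Finset.sum_congr rfl h5, ← Finset.sum_mul]
  by_cases hdiv : D ∣ n + n'
  · obtain ⟨m, hm⟩ := hdiv
    have h6 := h1 D F inferInstance inferInstance s σ χ cj hd a b x y m ha hb hca hcb hx hy (by
      rw [hn, hn']
      exact_mod_cast hm)
    have h7 : (∑ g ∈ D.divisors, (((if x ∈ a * ram s g ∧ y ∈ b * ram s g then
      jacobiSym (-((Ideal.absNorm a : ℤ) * Ideal.absNorm b)) (D / g) else 0 : ℤ) : ℤ) : ℂ)) = 0 := by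
      rw [← Int.cast_sum]
      rw [h6, Int.cast_zero]
    rw [h7, zero_mul]
  · rw [if_neg hdiv, mul_zero]

end Pair0X

open JmX Pair0X

open Classical in
theorem stPair0 (h1 : StSgn) (h2 : StThBD) (h3 : StRam) (h4 : StBasD) : StPair0 := by
  intro D F _ _ s σ χ cj hd a b k r u ha hb hca hcb hu
  have hD0 : 0 < D := by
    have := hd.odd.2.2
    omega
  have hDr : (0 : ℝ) < D := by exact_mod_cast hD0
  have hDc : (D : ℂ) ≠ 0 := by exact_mod_cast hD0.ne'
  have hqa := h2 D F inferInstance inferInstance s σ χ cj a k r 1 hd ha (one_dvd _)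
  have hqb := h2 D F inferInstance inferInstance s σ χ cj b 0 r 1 hd hb (one_dvd _)
  choose nx hnx using fun x : a => hqa.1 x x.2
  choose ny hny using fun y : b => hqb.1 y y.2
  set Y : ℝ := u.im with hY
  have hY0 : 0 < Y := hu
  -- the two series at `u + j`
  have hQb0 : ∀ y : b, 0 ≤ Qa σ b y / D := by
    intro y
    rw [hny]
    positivity
  have hsa : Summable fun x : a => (1 + ‖σ (x : 𝓞 F)‖) ^ k * Real.exp (-(2 * Real.pi * Y / D * Qa σ a x)) :=
    hqa.2.1 _ (by positivity)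
  have hsb : Summable fun y : b => ‖lag r (4 * Real.pi * ((Qa σ b y / D : ℝ) : ℂ) * Y)‖ *
      Real.exp (-(2 * Real.pi * (Qa σ b y / D) * Y)) := by
    refine summ_B (r := r) (Q' := fun y : b => Qa σ b y / D) (fun t ht => ?_) hQb0 hY0
    have := hqb.2.1 (t / D) (by positivity)
    refine this.congr fun y => ?_
    rw [pow_zero, one_mul]
    congr 2
    ring
  let A : a → ℂ := fun x => (σ (x : 𝓞 F) / (Complex.I * Real.sqrt D)) ^ k * ee (Qa σ a x / D * u)
  let B : b → ℂ := fun y => lag r (4 * Real.pi * (Qa σ b y / D) * Y) * ee (Qa σ b y / D * u)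
  have hAn : ∀ x, ‖A x‖ ≤ (Real.sqrt D ^ k)⁻¹ * ((1 + ‖σ (x : 𝓞 F)‖) ^ k *
      Real.exp (-(2 * Real.pi * Y / D * Qa σ a x))) := by
    intro x
    simp only [A]
    have e1 : (Qa σ a x : ℂ) / D * u = ((Qa σ a x / D : ℝ) : ℂ) * u := by push_cast; ring
    rw [norm_mul, e1, ThBAux.norm_ee, norm_pow, norm_div, norm_mul, Complex.norm_I, one_mul,
      Complex.norm_of_nonneg (Real.sqrt_nonneg _), div_pow]
    have e2 : Real.exp (-(2 * Real.pi * (Qa σ a x / D) * u.im)) =
        Real.exp (-(2 * Real.pi * Y / D * Qa σ a x)) := by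
      congr 1
      rw [hY]
      ring
    rw [e2, div_eq_inv_mul, mul_assoc]
    have hsq : 0 < Real.sqrt D := Real.sqrt_pos.2 hDr
    gcongr
    linarith [norm_nonneg (σ (x : 𝓞 F))]
  have hAs : Summable fun x => ‖A x‖ := Summable.of_nonneg_of_le (fun _ => norm_nonneg _) hAn
    (hsa.mul_left _)
  have hBs : Summable fun y => ‖B y‖ := by
    refine hsb.congr fun y => ?_
    simp only [B]
    have e1 : (Qa σ b y : ℂ) / D * u = ((Qa σ b y / D : ℝ) : ℂ) * u := by push_cast; ring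
    rw [norm_mul, e1, ThBAux.norm_ee]
    push_cast
    rfl
  have hAB : Summable fun p : a × b => ‖A p.1 * B p.2‖ := by
    have := hAs.mul_of_nonneg hBs (fun _ => norm_nonneg _) (fun _ => norm_nonneg _)
    exact this.congr fun p => (norm_mul (A p.1) (B p.2)).symm
  let ia : ℕ → a → ℂ := fun g x => if (x : 𝓞 F) ∈ a * ram s g then 1 else 0
  let ib : ℕ → b → ℂ := fun g y => if (y : 𝓞 F) ∈ b * ram s g then 1 else 0
  have hia : ∀ g x, ‖ia g x‖ ≤ 1 := by
    intro g x
    simp only [ia]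
    split_ifs <;> simp
  have hib : ∀ g y, ‖ib g y‖ ≤ 1 := by
    intro g y
    simp only [ib]
    split_ifs <;> simp
  have heen : ∀ (n : ℕ) (j : ℕ), ‖ee (j * ((n : ℂ) / D))‖ = 1 := by
    intro n j
    have : (j : ℂ) * ((n : ℂ) / D) = ((j * (n / D) : ℝ) : ℂ) := by push_cast; ring
    rw [this, ee_re]
  have hprod : ∀ g ∈ D.divisors, ∀ j : ℕ,
      thG D s σ a g k (u + j) * thlG D s σ b g r (u + j) = ((Y : ℂ) ^ r)⁻¹ *
        ∑' p : a × b, ia g p.1 * ib g p.2 * ee (j * (((nx p.1 : ℂ) + ny p.2) / D)) *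
          (A p.1 * B p.2) := by
    intro g hg j
    have him : (u + (j : ℂ)).im = Y := by simp [hY]
    unfold thG thlG
    rw [him]
    rw [tsum_ideal (I := a * ram s g) (J := a) Ideal.mul_le_left (fun x : 𝓞 F =>
        (σ (x : 𝓞 F) / (Complex.I * Real.sqrt D)) ^ k * ee (Qa σ a x / D * (u + j))),
      tsum_ideal (I := b * ram s g) (J := b) Ideal.mul_le_left (fun x : 𝓞 F =>
        lag r (4 * Real.pi * (Qa σ b x / D) * Y) * ee (Qa σ b x / D * (u + j)))]
    have e1 : ∀ x : a, (if (x : 𝓞 F) ∈ a * ram s g then (1 : ℂ) else 0) *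
        ((σ (x : 𝓞 F) / (Complex.I * Real.sqrt D)) ^ k *
        ee (Qa σ a x / D * (u + j))) = ia g x * ee (j * ((nx x : ℂ) / D)) * A x := by
      intro x
      simp only [A, ia]
      have : (Qa σ a x : ℂ) / D * (u + j) = Qa σ a x / D * u + j * ((nx x : ℂ) / D) := by
        rw [hnx]
        push_cast
        ring
      rw [this, ee_add']
      ring
    have e2 : ∀ y : b, (if (y : 𝓞 F) ∈ b * ram s g then (1 : ℂ) else 0) *
        (lag r (4 * Real.pi * (Qa σ b y / D) * Y) *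
        ee (Qa σ b y / D * (u + j))) = ib g y * ee (j * ((ny y : ℂ) / D)) * B y := by
      intro y
      simp only [B, ib]
      have : (Qa σ b y : ℂ) / D * (u + j) = Qa σ b y / D * u + j * ((ny y : ℂ) / D) := by
        rw [hny]
        push_cast
        ring
      rw [this, ee_add']
      ring
    rw [tsum_congr e1, tsum_congr e2]
    have s1 : Summable fun x : a => ‖ia g x * ee (j * ((nx x : ℂ) / D)) * A x‖ := by
      refine Summable.of_nonneg_of_le (fun _ => norm_nonneg _) (fun x => ?_) hAs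
      rw [norm_mul, norm_mul, heen, mul_one]
      exact mul_le_of_le_one_left (norm_nonneg _) (hia g _)
    have s2 : Summable fun y : b => ‖ib g y * ee (j * ((ny y : ℂ) / D)) * B y‖ := by
      refine Summable.of_nonneg_of_le (fun _ => norm_nonneg _) (fun x => ?_) hBs
      rw [norm_mul, norm_mul, heen, mul_one]
      exact mul_le_of_le_one_left (norm_nonneg _) (hib g _)
    rw [mul_left_comm, tsum_mul_tsum_of_summable_norm s1 s2]
    congr 1
    refine tsum_congr fun p => ?_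
    have : (j : ℂ) * (((nx p.1 : ℂ) + ny p.2) / D) =
        j * ((nx p.1 : ℂ) / D) + j * ((ny p.2 : ℂ) / D) := by ring
    rw [this, ee_add']
    ring
  have hsum : ∀ g ∈ D.divisors, ∀ j : ℕ, Summable fun p : a × b =>
      ia g p.1 * ib g p.2 * ee (j * (((nx p.1 : ℂ) + ny p.2) / D)) * (A p.1 * B p.2) := by
    intro g hg j
    refine Summable.of_norm (Summable.of_nonneg_of_le (fun _ => norm_nonneg _) (fun p => ?_) hAB)
    have e3 : ‖ee (j * (((nx p.1 : ℂ) + ny p.2) / D))‖ = 1 := by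
      have := heen (nx p.1 + ny p.2) j
      push_cast at this
      exact this
    rw [norm_mul, norm_mul, norm_mul, e3, mul_one]
    refine mul_le_of_le_one_left (norm_nonneg _) ?_
    exact mul_le_one₀ (hia g _) (norm_nonneg _) (hib g _)
  have hg1 : ∀ g ∈ D.divisors,
      (jacobiSym (-((Ideal.absNorm a : ℤ) * Ideal.absNorm b)) (D / g) : ℂ) * ((g : ℂ) / D) *
      ∑ j ∈ Finset.range (D / g), thG D s σ a g k (u + j) * thlG D s σ b g r (u + j) =
      ((Y : ℂ) ^ r)⁻¹ * ∑' p : a × b,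
        (jacobiSym (-((Ideal.absNorm a : ℤ) * Ideal.absNorm b)) (D / g) : ℂ) * ((g : ℂ) / D) *
        (ia g p.1 * ib g p.2 * ∑ j ∈ Finset.range (D / g),
          ee (j * (((nx p.1 : ℂ) + ny p.2) / D))) * (A p.1 * B p.2) := by
    intro g hg
    rw [Finset.sum_congr rfl (fun j _ => hprod g hg j), ← Finset.mul_sum,
      ← Summable.tsum_finsetSum (fun j _ => hsum g hg j), mul_left_comm, ← tsum_mul_left]
    congr 1
    refine tsum_congr fun p => ?_
    rw [Finset.mul_sum, Finset.mul_sum, Finset.mul_sum, Finset.sum_mul]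
    refine Finset.sum_congr rfl fun j _ => ?_
    ring
  have hsum2 : ∀ g ∈ D.divisors, Summable fun p : a × b =>
      (jacobiSym (-((Ideal.absNorm a : ℤ) * Ideal.absNorm b)) (D / g) : ℂ) * ((g : ℂ) / D) *
        (ia g p.1 * ib g p.2 * ∑ j ∈ Finset.range (D / g),
          ee (j * (((nx p.1 : ℂ) + ny p.2) / D))) * (A p.1 * B p.2) := by
    intro g hg
    have := (summable_sum (fun j (_ : j ∈ Finset.range (D / g)) => hsum g hg j)).mul_left
      ((jacobiSym (-((Ideal.absNorm a : ℤ) * Ideal.absNorm b)) (D / g) : ℂ) * ((g : ℂ) / D))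
    refine this.congr fun p => ?_
    rw [Finset.mul_sum, Finset.mul_sum, Finset.mul_sum, Finset.sum_mul]
    refine Finset.sum_congr rfl fun j _ => ?_
    ring
  rw [Finset.sum_congr rfl hg1, ← Finset.mul_sum, ← Summable.tsum_finsetSum hsum2]
  have hz : ∀ p : a × b, ∑ g ∈ D.divisors,
      (jacobiSym (-((Ideal.absNorm a : ℤ) * Ideal.absNorm b)) (D / g) : ℂ) * ((g : ℂ) / D) *
        (ia g p.1 * ib g p.2 * ∑ j ∈ Finset.range (D / g),
          ee (j * (((nx p.1 : ℂ) + ny p.2) / D))) * (A p.1 * B p.2) = 0 := by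
    intro p
    rw [← Finset.sum_mul, coef_zero hd h1 h3 h4 ha hb hca hcb p.1.2 p.2.2 (hnx p.1) (hny p.2),
      zero_mul]
  rw [tsum_congr hz, tsum_zero, mul_zero]

end RZ

end Pool.Agent.Lib.MP_7c08ba_nt
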