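import Mathlib
import Pool.Agent.Lib.MP_7c08ba_nt.RZ.StE
import Pool.Agent.Lib.MP_7c08ba_nt.RZ.ThPsi

set_option autoImplicit false

/-!
(E5) the theta series of the Hecke character as a Fourier series, every type `(k, 0)`, for every
odd fundamental discriminant.
-/

namespace Pool.Agent.Lib.MP_7c08ba_nt

namespace RZ

open NumberField MeasureTheory UpperHalfPlane Set IsDedekindDomain
open scoped MatrixGroups ComplexConjugate nonZeroDivisors

open ThPsiAux in
/-- Module E5. -/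
theorem stThPsiN (h1 : StIdSumD) (h2 : StBasD) (h3 : StThBD) (h4 : StPsiD) (h5 : StCountD)
    (h6 : StThPsiD) : StThPsiN := by
  intro q F _ _ s σ χ cj k ψ c D hψ
  classical
  have _ := h6
  obtain ⟨-, hnorm, -⟩ := h4 q F _ _ s σ χ cj k ψ D hψ
  obtain ⟨-, -, -, -, -, hsq, -⟩ := h2 q F _ _ s σ χ cj D
  have hne : ∀ b : Ideal (𝓞 F), b ≠ ⊥ → (Ideal.absNorm b : ℝ) ≠ 0 := by
    intro b hb
    rw [Nat.cast_ne_zero, Ne, Ideal.absNorm_eq_zero_iff]
    exact hb
  have hψne : ∀ b : Ideal (𝓞 F), b ≠ ⊥ → ψ b ≠ 0 := by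
    intro b hb h0
    have := hnorm b hb
    rw [h0, norm_zero, zero_pow two_ne_zero] at this
    exact (pow_ne_zero k (hne b hb)) this.symm
  refine ⟨bpsi_zero ψ, ?_, ?_⟩
  · intro n hn
    have hfin : {b : Ideal (𝓞 F) | Ideal.absNorm b = n}.Finite :=
      Ideal.finite_setOfPred_absNorm_eq n
    have : Finite {b : Ideal (𝓞 F) // Ideal.absNorm b = n} := hfin
    let := Fintype.ofFinite {b : Ideal (𝓞 F) // Ideal.absNorm b = n}
    unfold bψ
    rw [tsum_fintype]
    have hb : ∀ b : {b : Ideal (𝓞 F) // Ideal.absNorm b = n}, ‖ψ b.1‖ = (n : ℝ) ^ ((k : ℝ) / 2) := by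
      rintro ⟨b, hb⟩
      have hb0 : b ≠ ⊥ := by
        rintro rfl
        rw [Ideal.absNorm_bot] at hb
        omega
      have h6 := hnorm b hb0
      rw [hb] at h6
      have hn0 : (0 : ℝ) ≤ n := Nat.cast_nonneg n
      have h7 : ((n : ℝ) ^ ((k : ℝ) / 2)) ^ 2 = (n : ℝ) ^ k := by
        rw [← Real.rpow_natCast, ← Real.rpow_mul hn0, ← Real.rpow_natCast]
        congr 1
        push_cast
        ring
      rw [← h7] at h6
      exact (pow_left_inj₀ (norm_nonneg _) (Real.rpow_nonneg hn0 _) two_ne_zero).mp h6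
    calc ‖∑ b : {b : Ideal (𝓞 F) // Ideal.absNorm b = n}, ψ b.1‖
        ≤ ∑ b : {b : Ideal (𝓞 F) // Ideal.absNorm b = n}, ‖ψ b.1‖ := norm_sum_le _ _
      _ = (Nat.card {b : Ideal (𝓞 F) // Ideal.absNorm b = n} : ℝ) * (n : ℝ) ^ ((k : ℝ) / 2) := by
          rw [Finset.sum_congr rfl fun b _ => hb b, Finset.sum_const, Finset.card_univ,
            nsmul_eq_mul, Nat.card_eq_fintype_card]
      _ ≤ (n.divisors.card : ℝ) * (n : ℝ) ^ ((k : ℝ) / 2) := by
          refine mul_le_mul_of_nonneg_right ?_ (Real.rpow_nonneg (Nat.cast_nonneg n) _)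
          have h8 := h5 q F _ _ s σ χ cj D n hn
          have h9 : ∑ d ∈ n.divisors, jacobiSym d q ≤ ∑ d ∈ n.divisors, (1 : ℤ) :=
            Finset.sum_le_sum fun d _ => jac_le d q
          rw [← h8, Finset.sum_const, nsmul_eq_mul, mul_one] at h9
          exact_mod_cast h9
  · refine ⟨(1 / 2) * ∑ A : ClassGroup (𝓞 F), (ψ (c.R A : Ideal (𝓞 F)))⁻¹ * (0 : ℂ) ^ k, ?_⟩
    intro u hu
    set g : Ideal (𝓞 F) → ℂ := fun b => ψ b * ee ((Ideal.absNorm b : ℂ) * u) with hg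
    set U : ClassGroup (𝓞 F) → 𝓞 F → ℂ := fun A x =>
      (ψ (c.R A : Ideal (𝓞 F)))⁻¹ * (σ x ^ k * ee (Qa σ (c.R A : Ideal (𝓞 F)) x * u)) with hU
    set T : ClassGroup (𝓞 F) → 𝓞 F → ℂ := fun A x => if x = 0 then 0 else U A x with hT
    have hR : ∀ A, (c.R A : Ideal (𝓞 F)) ≠ ⊥ := fun A => nonZeroDivisors.coe_ne_zero (c.R A)
    have hT0 : ∀ A, T A 0 = 0 := by
      intro A
      simp [hT]
    have hTg : ∀ (A : ClassGroup (𝓞 F)) (x : 𝓞 F) (b : Ideal (𝓞 F)), x ≠ 0 →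
        b * (c.R A : Ideal (𝓞 F)) = Ideal.span {x} → T A x = g b := by
      intro A x b hx hb
      have e1 := congrArg ψ hb
      rw [map_mul, hψ x hx] at e1
      have e2 := congrArg (fun I : Ideal (𝓞 F) => (Ideal.absNorm I : ℝ)) hb
      simp only [map_mul, Nat.cast_mul] at e2
      rw [← hsq x] at e2
      have e3 : Qa σ (c.R A : Ideal (𝓞 F)) x = (Ideal.absNorm b : ℝ) := by
        unfold Qa
        rw [← e2, mul_div_assoc, div_self (hne _ (hR A)), mul_one]
      simp only [hT, hg]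
      rw [if_neg hx]
      simp only [hU]
      rw [e3, ← e1, Complex.ofReal_natCast]
      have := hψne _ (hR A)
      field_simp
    have hUs : ∀ A, Summable fun x : (c.R A : Ideal (𝓞 F)) => ‖U A x‖ := by
      intro A
      obtain ⟨-, hsum, -⟩ := h3 q F _ _ s σ χ cj (c.R A : Ideal (𝓞 F)) k 0 1 D (hR A) (one_dvd q)
      have h6 := (hsum (2 * Real.pi * u.im) (by positivity)).mul_left
        ‖(ψ (c.R A : Ideal (𝓞 F)))⁻¹‖
      refine Summable.of_nonneg_of_le (fun x => norm_nonneg _) (fun x => ?_) h6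
      simp only [hU]
      rw [norm_mul, norm_mul, norm_pow, norm_ee]
      refine mul_le_mul_of_nonneg_left ?_ (norm_nonneg _)
      have e1 : ((Qa σ (c.R A : Ideal (𝓞 F)) x : ℂ) * u).im =
          Qa σ (c.R A : Ideal (𝓞 F)) x * u.im := Complex.im_ofReal_mul _ _
      rw [e1]
      have e2 : -(2 * Real.pi * (Qa σ (c.R A : Ideal (𝓞 F)) (x : 𝓞 F) * u.im)) =
          -(2 * Real.pi * u.im * Qa σ (c.R A : Ideal (𝓞 F)) (x : 𝓞 F)) := by ring
      rw [e2]
      refine mul_le_mul_of_nonneg_right ?_ (Real.exp_pos _).le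
      exact pow_le_pow_left₀ (norm_nonneg _) (by linarith) k
    have hTs : ∀ A, Summable fun x : (c.R A : Ideal (𝓞 F)) => ‖T A x‖ := by
      intro A
      refine Summable.of_nonneg_of_le (fun x => norm_nonneg _) (fun x => ?_) (hUs A)
      simp only [hT]
      split_ifs
      · rw [norm_zero]
        exact norm_nonneg _
      · exact le_rfl
    have hUT : ∀ A, ∑' x : (c.R A : Ideal (𝓞 F)), U A x =
        (ψ (c.R A : Ideal (𝓞 F)))⁻¹ * (0 : ℂ) ^ k +
          ∑' x : (c.R A : Ideal (𝓞 F)), T A x := by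
      intro A
      have e1 := (hUs A).of_norm.tsum_eq_add_tsum_ite (0 : (c.R A : Ideal (𝓞 F)))
      have e2 : U A ((0 : (c.R A : Ideal (𝓞 F))) : 𝓞 F) =
          (ψ (c.R A : Ideal (𝓞 F)))⁻¹ * (0 : ℂ) ^ k := by
        simp only [hU, Qa, ee]
        simp
      rw [e1, e2]
      congr 1
      refine tsum_congr fun x => ?_
      simp only [hT]
      by_cases hx : x = 0
      · rw [if_pos hx, if_pos (by rw [hx]; rfl)]
      · have hx' : (x : 𝓞 F) ≠ 0 := fun h => hx (Subtype.ext h)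
        rw [if_neg hx, if_neg hx']
    obtain ⟨hsum, htsum⟩ := h1 q F _ _ s σ χ cj c g T D hT0 hTg hTs
    obtain ⟨hA, hB⟩ := group ψ u hsum
    refine ⟨hA, ?_⟩
    rw [← hB]
    have h7 : ∑' b : (Ideal (𝓞 F))⁰, ψ (b : Ideal (𝓞 F)) *
        ee ((Ideal.absNorm (b : Ideal (𝓞 F)) : ℂ) * u) =
        (1 / 2) * ∑ A : ClassGroup (𝓞 F), ∑' x : (c.R A : Ideal (𝓞 F)), T A x := by
      rw [htsum]
      simp only [hg]
      ring
    rw [h7, ← mul_add, ← Finset.sum_add_distrib]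
    unfold thψ th
    congr 1
    refine Finset.sum_congr rfl fun A _ => ?_
    rw [← hUT A]
    simp only [hU]
    rw [tsum_mul_left]

end RZ

end Pool.Agent.Lib.MP_7c08ba_nt
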