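import Mathlib
import Pool.Agent.Lib.MP_7c08ba_nt.RZ.StE

set_option autoImplicit false

/-!
The trace of the product of the theta series of the Hecke character and of the Eisenstein series
is zero at `t = -r` (module RZ-Tr0).
-/

namespace Pool.Agent.Lib.MP_7c08ba_nt

namespace RZ

open NumberField MeasureTheory UpperHalfPlane Set IsDedekindDomain
open scoped MatrixGroups ComplexConjugate nonZeroDivisors

namespace Tr0m

/-- Sums over a period. -/
theorem sum_period (n : ℕ) (G : ℤ → ℂ) (hG : ∀ j, G (j + n) = G j) (h : ℤ) :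
    ∑ j ∈ Finset.range n, G (j + h) = ∑ j ∈ Finset.range n, G j := by
  have step : ∀ h : ℤ, ∑ j ∈ Finset.range n, G (j + (h + 1)) =
      ∑ j ∈ Finset.range n, G (j + h) := by
    intro h
    have h1 := Finset.sum_range_succ (fun j : ℕ => G ((j : ℤ) + h)) n
    have h2 := Finset.sum_range_succ' (fun j : ℕ => G ((j : ℤ) + h)) n
    rw [h1] at h2
    have h3 : G ((n : ℤ) + h) = G (((0 : ℕ) : ℤ) + h) := by
      rw [add_comm, hG]
      simp
    rw [h3] at h2
    have h4 := add_right_cancel h2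
    rw [h4]
    refine Finset.sum_congr rfl fun j _ => ?_
    congr 1
    push_cast
    ring
  induction h using Int.induction_on with
  | zero => simp
  | succ i ih => rw [step, ih]
  | pred i ih =>
    rw [← ih, ← step (-(i : ℤ) - 1)]
    refine Finset.sum_congr rfl fun j _ => ?_
    congr 1
    ring

/-- The function at the cusp `1 / g` has period `D / g`. -/
theorem period_cusp (D w g n : ℕ) (hgn : g * n = D) (hg : 0 < g) (H : ℂ → ℂ)
    (hH : ∀ (γ : SL(2, ℤ)) (z : ℂ), 0 < z.im → (D : ℤ) ∣ γ 1 0 →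
      H (((γ 0 0 : ℂ) * z + γ 0 1) / ((γ 1 0 : ℂ) * z + γ 1 1)) =
        ((γ 1 0 : ℂ) * z + γ 1 1) ^ w * H z) (v : ℂ) (hv : 0 < v.im) :
    ((1 - g * (v + n)) ^ w)⁻¹ * H ((v + n) / (1 - g * (v + n))) =
      ((1 - g * v) ^ w)⁻¹ * H (v / (1 - g * v)) := by
  have hgR : (0 : ℝ) < g := by exact_mod_cast hg
  have ne1 : ∀ x : ℂ, 0 < x.im → (1 - (g : ℂ) * x) ≠ 0 := by
    intro x hx h
    have h1 := congrArg Complex.im h
    simp at h1
    rcases h1 with h1 | h1
    · exact absurd h1 (by positivity)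
    · exact absurd h1 hx.ne'
  have hvn : 0 < (v + n).im := by simpa using hv
  have e1 := ne1 v hv
  have e2 := ne1 (v + n) hvn
  have hz : 0 < (v / (1 - g * v)).im := by
    rw [Complex.div_im]
    have h1 : 0 < Complex.normSq (1 - g * v) := Complex.normSq_pos.2 e1
    have h2 : v.im * (1 - (g : ℂ) * v).re / Complex.normSq (1 - g * v) -
        v.re * (1 - (g : ℂ) * v).im / Complex.normSq (1 - g * v) =
        v.im / Complex.normSq (1 - g * v) := by
      rw [← sub_div]
      congr 1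
      simp
      ring
    rw [h2]
    positivity
  let M : Matrix (Fin 2) (Fin 2) ℤ := !![1 + (D : ℤ), n; -(g * D), 1 - D]
  have hM : M.det = 1 := by
    rw [Matrix.det_fin_two_of]
    have : (g : ℤ) * n = D := by exact_mod_cast hgn
    linear_combination (D : ℤ) * this
  let γ : SL(2, ℤ) := ⟨M, hM⟩
  have m00 : (γ 0 0 : ℤ) = 1 + D := rfl
  have m01 : (γ 0 1 : ℤ) = n := rfl
  have m10 : (γ 1 0 : ℤ) = -(g * D) := rfl
  have m11 : (γ 1 1 : ℤ) = 1 - D := rfl
  have hlaw := hH γ (v / (1 - g * v)) hz (by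
    rw [m10]
    exact ⟨-g, by ring⟩)
  rw [m00, m01, m10, m11] at hlaw
  have hgnC : (g : ℂ) * n = D := by exact_mod_cast hgn
  have f1 : (((-(g * D : ℤ) : ℤ) : ℂ) * (v / (1 - g * v)) + ((1 - D : ℤ) : ℂ)) =
      (1 - g * (v + n)) / (1 - g * v) := by
    rw [eq_div_iff e1]
    push_cast
    rw [add_mul, mul_assoc, div_mul_cancel₀ _ e1]
    linear_combination (1 : ℂ) * hgnC
  have f2 : ((((1 + D : ℤ) : ℤ) : ℂ) * (v / (1 - g * v)) + ((n : ℤ) : ℂ)) =
      (v + n) / (1 - g * v) := by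
    rw [eq_div_iff e1]
    push_cast
    rw [add_mul, mul_assoc, div_mul_cancel₀ _ e1]
    linear_combination (-v : ℂ) * hgnC
  rw [f1, f2, div_div_div_cancel_right₀ e1] at hlaw
  rw [hlaw, div_pow]
  have e1w : (1 - (g : ℂ) * v) ^ w ≠ 0 := pow_ne_zero _ e1
  have e2w : (1 - (g : ℂ) * (v + n)) ^ w ≠ 0 := pow_ne_zero _ e2
  field_simp

end Tr0m

open Tr0m

/-- (E12) -/
theorem stTr0 (h1 : StKap) (h2 : StPair0) (h3 : StEisThD) (h4 : StHN) : StTr0 := by
  intro D _ F _ _ s σ χ cj w k r ψ c hD hk hw hc u hu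
  obtain ⟨hcont, -, -⟩ := h4 D inferInstance F inferInstance inferInstance s σ χ cj w k r ψ c hD
    hk hw hc
  obtain ⟨-, -, hlaw⟩ := hcont (-r) (by simp)
  obtain ⟨ε, -, heis⟩ := h3 D inferInstance F inferInstance inferInstance s σ χ cj c hD
  have hD0 : D ≠ 0 := NeZero.ne D
  set K : ℂ := 1 / 2 * (ε * (Real.pi / Real.sqrt D)) with hK
  -- the product of the two series
  have hprod : ∀ v : ℂ, 0 < v.im → HN D χ k r ψ c (-r) v =
      K * ∑ A : ClassGroup (𝓞 F), ∑ B : ClassGroup (𝓞 F), (ψ (c.R A : Ideal (𝓞 F)))⁻¹ *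
        (th σ (c.R A : Ideal (𝓞 F)) k v * thl σ (c.R B : Ideal (𝓞 F)) r v) := by
    intro v hv
    unfold HN thψ
    rw [heis r v hv, hK]
    have e : (∑ A : ClassGroup (𝓞 F), (ψ (c.R A : Ideal (𝓞 F)))⁻¹ *
          th σ (c.R A : Ideal (𝓞 F)) k v) * (∑ B : ClassGroup (𝓞 F),
            thl σ (c.R B : Ideal (𝓞 F)) r v) =
        ∑ A : ClassGroup (𝓞 F), ∑ B : ClassGroup (𝓞 F), (ψ (c.R A : Ideal (𝓞 F)))⁻¹ *
        (th σ (c.R A : Ideal (𝓞 F)) k v * thl σ (c.R B : Ideal (𝓞 F)) r v) := by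
      rw [Finset.sum_mul_sum]
      refine Finset.sum_congr rfl fun A _ => Finset.sum_congr rfl fun B _ => ?_
      ring
    rw [← e]
    ring
  have hR0 : ∀ A, (c.R A : Ideal (𝓞 F)) ≠ ⊥ := fun A => nonZeroDivisors.coe_ne_zero (c.R A)
  -- the sum over one cusp
  have hcusp : ∀ g ∈ D.divisors, ∑ j ∈ Finset.range (D / g),
      ((1 - g * (u + j)) ^ w)⁻¹ * HN D χ k r ψ c (-r) ((u + j) / (1 - g * (u + j))) =
      K * ∑ A : ClassGroup (𝓞 F), ∑ B : ClassGroup (𝓞 F), (ψ (c.R A : Ideal (𝓞 F)))⁻¹ *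
        ((jacobiSym (-((Ideal.absNorm (c.R A : Ideal (𝓞 F)) : ℤ) *
          Ideal.absNorm (c.R B : Ideal (𝓞 F)))) (D / g) : ℂ) * ((g : ℂ) / D) *
          ∑ j ∈ Finset.range (D / g), thG D s σ (c.R A : Ideal (𝓞 F)) g k (u + j) *
            thlG D s σ (c.R B : Ideal (𝓞 F)) g r (u + j)) := by
    intro g hg
    have hgD : g ∣ D := Nat.dvd_of_mem_divisors hg
    have hg0 : 0 < g := Nat.pos_of_mem_divisors hg
    obtain ⟨h, κ, hκ, hth, hthl⟩ := h1 D F inferInstance inferInstance s σ χ cj hD g hgD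
    have hgn : g * (D / g) = D := Nat.mul_div_cancel' hgD
    set n := D / g with hn
    have hgR : (0 : ℝ) < g := by exact_mod_cast hg0
    have ne1 : ∀ x : ℂ, 0 < x.im → (1 - (g : ℂ) * x) ≠ 0 := by
      intro x hx h
      have h1 := congrArg Complex.im h
      simp at h1
      rcases h1 with h1 | h1
      · exact absurd h1 (by positivity)
      · exact absurd h1 hx.ne'
    -- shift by h
    let G : ℤ → ℂ := fun i => ((1 - g * (u + i)) ^ w)⁻¹ *
        HN D χ k r ψ c (-r) ((u + i) / (1 - g * (u + i)))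
    have hper : ∀ j : ℤ, G (j + n) = G j := by
      intro j
      have := period_cusp D w g n hgn hg0 (HN D χ k r ψ c (-r)) hlaw (u + j) (by simpa using hu)
      simp only [G]
      rw [← this]
      push_cast
      rw [add_assoc]
    have hshift := sum_period n G hper h
    have hG0 : ∑ j ∈ Finset.range n, G j = ∑ j ∈ Finset.range n, ((1 - g * (u + j)) ^ w)⁻¹ *
        HN D χ k r ψ c (-r) ((u + j) / (1 - g * (u + j))) := by
      refine Finset.sum_congr rfl fun j _ => ?_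
      simp only [G, Int.cast_natCast]
    rw [← hG0, ← hshift]
    have hterm : ∀ j : ℕ, ((1 - g * (u + ((j + h : ℤ) : ℂ))) ^ w)⁻¹ *
        HN D χ k r ψ c (-r) ((u + ((j + h : ℤ) : ℂ)) / (1 - g * (u + ((j + h : ℤ) : ℂ)))) =
        K * ∑ A : ClassGroup (𝓞 F), ∑ B : ClassGroup (𝓞 F), (ψ (c.R A : Ideal (𝓞 F)))⁻¹ *
          ((jacobiSym (-((Ideal.absNorm (c.R A : Ideal (𝓞 F)) : ℤ) *
            Ideal.absNorm (c.R B : Ideal (𝓞 F)))) n : ℂ) * ((g : ℂ) / D) *
            (thG D s σ (c.R A : Ideal (𝓞 F)) g k (u + j) *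
              thlG D s σ (c.R B : Ideal (𝓞 F)) g r (u + j))) := by
      intro j
      have hv : 0 < (u + (j : ℂ)).im := by simpa using hu
      have hvh : 0 < (u + (j : ℂ) + (h : ℂ)).im := by simpa using hu
      have e0 : u + ((j + h : ℤ) : ℂ) = u + (j : ℂ) + (h : ℂ) := by
        push_cast
        ring
      rw [e0]
      have e1 := ne1 _ hvh
      have hz : 0 < ((u + (j : ℂ) + (h : ℂ)) / (1 - g * (u + (j : ℂ) + (h : ℂ)))).im := by
        set v := u + (j : ℂ) + (h : ℂ)
        rw [Complex.div_im]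
        have h1 : 0 < Complex.normSq (1 - g * v) := Complex.normSq_pos.2 e1
        have h2 : v.im * (1 - (g : ℂ) * v).re / Complex.normSq (1 - g * v) -
            v.re * (1 - (g : ℂ) * v).im / Complex.normSq (1 - g * v) =
            v.im / Complex.normSq (1 - g * v) := by
          rw [← sub_div]
          congr 1
          simp
          ring
        rw [h2]
        positivity
      rw [hprod _ hz, mul_left_comm, Finset.mul_sum]
      congr 1
      refine Finset.sum_congr rfl fun A _ => ?_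
      rw [Finset.mul_sum]
      refine Finset.sum_congr rfl fun B _ => ?_
      rw [hth _ k _ (hR0 A) (hc A) hk hv, hthl _ r _ (hR0 B) (hc B) hv]
      have hJ : (jacobiSym (-((Ideal.absNorm (c.R A : Ideal (𝓞 F)) : ℤ) *
          Ideal.absNorm (c.R B : Ideal (𝓞 F)))) n : ℂ) =
          (jacobiSym (-1) n : ℂ) * (jacobiSym (Ideal.absNorm (c.R A : Ideal (𝓞 F))) n : ℂ) *
            (jacobiSym (Ideal.absNorm (c.R B : Ideal (𝓞 F))) n : ℂ) := by
        rw [neg_eq_neg_one_mul, jacobiSym.mul_left, jacobiSym.mul_left]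
        push_cast
        ring
      rw [hJ]
      have hpow : (1 - (g : ℂ) * (u + (j : ℂ) + (h : ℂ))) ^ w =
          (1 - g * (u + (j : ℂ) + (h : ℂ))) ^ (k + 1) *
            (1 - g * (u + (j : ℂ) + (h : ℂ))) ^ (2 * r + 1) := by
        rw [← pow_add]
        congr 1
        omega
      rw [hpow]
      have p1 := pow_ne_zero (k + 1) e1
      have p2 := pow_ne_zero (2 * r + 1) e1
      have hκ' : (jacobiSym (-1) n : ℂ) * ((g : ℂ) / D) = κ ^ 2 := by
        rw [hκ]
        ring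
      calc _ = (ψ (c.R A : Ideal (𝓞 F)))⁻¹ * (κ ^ 2 *
            (jacobiSym (Ideal.absNorm (c.R A : Ideal (𝓞 F))) n : ℂ) *
            (jacobiSym (Ideal.absNorm (c.R B : Ideal (𝓞 F))) n : ℂ) *
            (thG D s σ (c.R A : Ideal (𝓞 F)) g k (u + j) *
              thlG D s σ (c.R B : Ideal (𝓞 F)) g r (u + j))) := by
            field_simp
        _ = _ := by
            rw [← hκ']
            ring
    rw [Finset.sum_congr rfl fun (j : ℕ) _ => (show G (j + h) = _ from hterm j), ← Finset.mul_sum,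
      Finset.sum_comm]
    congr 1
    refine Finset.sum_congr rfl fun A _ => ?_
    rw [Finset.sum_comm]
    refine Finset.sum_congr rfl fun B _ => ?_
    rw [← Finset.mul_sum, ← Finset.mul_sum]
  unfold trD
  rw [Finset.sum_congr rfl hcusp, ← Finset.mul_sum, Finset.sum_comm]
  have hz : ∀ A : ClassGroup (𝓞 F), ∑ g ∈ D.divisors, ∑ B : ClassGroup (𝓞 F),
      (ψ (c.R A : Ideal (𝓞 F)))⁻¹ *
        ((jacobiSym (-((Ideal.absNorm (c.R A : Ideal (𝓞 F)) : ℤ) *
          Ideal.absNorm (c.R B : Ideal (𝓞 F)))) (D / g) : ℂ) * ((g : ℂ) / D) *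
          ∑ j ∈ Finset.range (D / g), thG D s σ (c.R A : Ideal (𝓞 F)) g k (u + j) *
            thlG D s σ (c.R B : Ideal (𝓞 F)) g r (u + j)) = 0 := by
    intro A
    rw [Finset.sum_comm]
    refine Finset.sum_eq_zero fun B _ => ?_
    rw [← Finset.mul_sum, h2 D F inferInstance inferInstance s σ χ cj hD _ _ k r u (hR0 A) (hR0 B)
      (hc A) (hc B) hu, mul_zero]
  rw [Finset.sum_eq_zero fun A _ => hz A, mul_zero]

end RZ

end Pool.Agent.Lib.MP_7c08ba_nt
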