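import Mathlib
import Pool.Agent.Lib.MP_7c08ba_nt.RZ.All
import Pool.Agent.Lib.MP_7c08ba_nt.RZ.Kap
import Pool.Agent.Lib.MP_7c08ba_nt.RZ.HN
import Pool.Agent.Lib.MP_7c08ba_nt.RZ.RSanN
import Pool.Agent.Lib.MP_7c08ba_nt.RZ.RSptN
import Pool.Agent.Lib.MP_7c08ba_nt.RZ.ThPsiN
import Pool.Agent.Lib.MP_7c08ba_nt.RZ.RSN
import Pool.Agent.Lib.MP_7c08ba_nt.RZ.DnN
import Pool.Agent.Lib.MP_7c08ba_nt.RZ.EulQN
import Pool.Agent.Lib.MP_7c08ba_nt.RZ.EulN
import Pool.Agent.Lib.MP_7c08ba_nt.RZ.Sgn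
import Pool.Agent.Lib.MP_7c08ba_nt.RZ.Pair0
import Pool.Agent.Lib.MP_7c08ba_nt.RZ.Tr0
import Pool.Agent.Lib.MP_7c08ba_nt.RZ.MainN

set_option autoImplicit false

/-!
Assembly of the modules for `k < w`, odd discriminants: StMainN.
-/

namespace Pool.Agent.Lib.MP_7c08ba_nt

namespace RZ

theorem aKap : StKap := stKap aPoisK aBaseD aBasD aThBD aRam aRaise2

theorem aHN : StHN := stHN aThBD aKap aThGD aEisAD aEisLawD

theorem aRSanN : StRSanN := stRSanN aHN aHol aFd aCoef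

theorem aRSptN : StRSptN := stRSptN aEisBigD aThGD

theorem aThPsiN : StThPsiN := stThPsiN aIdSumD aBasD aThBD aPsiD aCountD aThPsiD

theorem aRSN : StRSN := stRSN aRSptN aUnf aStrip aThPsiN aThBD aCoef aPsiD

theorem aDnN : StDnN := stDnN aCoef aThPsiN aRepsD

theorem aEulQN : StEulQN := stEulQN aDnN aBmulD aSplitD aLocal aCoef

theorem aEulN : StEulN := stEulN aEulQN aSplitD aCoef aPsiD aW12

theorem aSgn : StSgn := stSgn aBasD aRam aSplitD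

theorem aPair0 : StPair0 := stPair0 aSgn aThBD aRam aBasD

theorem aTr0 : StTr0 := stTr0 aKap aPair0 aEisThD aHN

theorem aMainN : StMainN := stMainN aTr0 aRSanN aRSN aDnN aEulN aW12 aRepsD aPsiD

end RZ

end Pool.Agent.Lib.MP_7c08ba_nt
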