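import Mathlib
import Pool.Agent.Lib.MP_7c08ba_nt.RZ.StG

set_option autoImplicit false

/-!
Statements of the analytic modules for every even fundamental discriminant `-D`, `D > 4`.
-/

namespace Pool.Agent.Lib.MP_7c08ba_nt

namespace RZ

open NumberField MeasureTheory UpperHalfPlane Set IsDedekindDomain
open scoped MatrixGroups ComplexConjugate nonZeroDivisors

/-- The conditions on `D`. -/
def EvD (D : ℕ) : Prop := 4 < D ∧ ∃ n : ℕ, D = 4 * n ∧ Squarefree n ∧ (n % 4 = 1 ∨ n % 4 = 2)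

/-- The quadratic symbol of the field of even discriminant `-D`, on natural numbers. -/
def kr (D a : ℕ) : ℤ := if Even a then 0 else jacobiSym (-((D / 4 : ℕ) : ℤ)) a

/-- Odd primitive real characters. -/
structure QC (D : ℕ) (χ : DirichletCharacter ℂ D) : Prop where
  prim : χ.IsPrimitive
  odd : χ (-1) = -1
  real : ∀ a : ZMod D, χ a = 0 ∨ χ a = 1 ∨ χ a = -1

/-- The odd part. -/
def oddp (m : ℕ) : ℕ := ordCompl[2] m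

/-- The power of two. -/
def twop (m : ℕ) : ℕ := ordProj[2] m

/-- The width of the cusp `1 / g` of `Γ₀(D)`. -/
def wid (D g : ℕ) : ℕ := D / (g * Nat.gcd g (D / g))

/-- The values of the norm which occur at the cusp `1 / g`. -/
def supE (D g : ℕ) (n : ℤ) : Prop :=
  (oddp g : ℤ) ∣ n ∧ (Odd g ∨ Int.gcd n (twop D) = twop g)

/-- The genus sign at the cusp `1 / g`. -/
def epsE (D g c : ℕ) : ℤ := if Odd g then jacobiSym c g else jacobiSym c (oddp (D / g))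

/-- The sign for the product of opposite values. -/
def sgnE (D g : ℕ) : ℤ := if Odd g then -jacobiSym (-1) g else jacobiSym (-1) (oddp (D / g))

/-- The coefficient functions at the cusp `1 / g`. -/
structure CuspF (D g : ℕ) (Φ : ℤ → ℂ) : Prop where
  per : ∀ n, Φ (n + D) = Φ n
  nrm : ∀ n, supE D g n → Complex.normSq (Φ n) = ((wid D g : ℕ) : ℝ)⁻¹
  zero : ∀ n, ¬ supE D g n → Φ n = 0
  neg : ∀ n, supE D g n → Φ n * Φ (-n) = (sgnE D g : ℂ) * ((wid D g : ℕ) : ℂ)⁻¹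

section

variable {F : Type} [Field F] [NumberField F]

/-- The field, the square root of `-D`, the embedding, the character and the conjugation. -/
structure DatE (D : ℕ) (s : 𝓞 F) (σ : F →+* ℂ) (χ : DirichletCharacter ℂ D)
    (cj : 𝓞 F ≃+* 𝓞 F) : Prop where
  ev : EvD D
  fin : Module.finrank ℚ F = 2
  sq : s ^ 2 = -(D : 𝓞 F)
  im : σ s = Complex.I * Real.sqrt D
  qc : QC D χ
  chi : ∀ a : ℕ, χ (a : ZMod D) = (kr D a : ℂ)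
  conjσ : ∀ x : 𝓞 F, σ (cj x) = conj (σ x)

/-- Theta series at the cusp `1 / g`, with a coefficient function of the norm. -/
noncomputable def thP (D : ℕ) (σ : F →+* ℂ) (a : Ideal (𝓞 F)) (Φ : ℤ → ℂ) (k : ℕ) (u : ℂ) : ℂ :=
  ∑' x : a, Φ ⌊Qa σ a x⌋ * (σ (x : 𝓞 F) / (Complex.I * Real.sqrt D)) ^ k *
    ee (Qa σ a x / D * u)

/-- The same with Laguerre polynomials. -/
noncomputable def thlP (D : ℕ) (σ : F →+* ℂ) (a : Ideal (𝓞 F)) (Φ : ℤ → ℂ) (r : ℕ) (u : ℂ) : ℂ :=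
  ((u.im : ℂ) ^ r)⁻¹ * ∑' x : a, Φ ⌊Qa σ a x⌋ *
    lag r (4 * Real.pi * (Qa σ a x / D) * u.im) * ee (Qa σ a x / D * u)

/-- The sum over the pairs with difference of norms `D m` which are congruent with factor `ρ`. -/
noncomputable def TTE (D w r m : ℕ) (s : 𝓞 F) (σ : F →+* ℂ) (a b : Ideal (𝓞 F))
    (ρ : 𝓞 F ⧸ Ideal.span {s}) : ℂ :=
  ∑' p : {p : a × b // Qa σ a p.1 - Qa σ b p.2 = D * m ∧
      Ideal.Quotient.mk (Ideal.span {s}) (p.1 : 𝓞 F) =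
        ρ * Ideal.Quotient.mk (Ideal.span {s}) (p.2 : 𝓞 F)}, PT w r σ a b p.1.1 p.1.2

/-- The factors with the right norm. -/
def RhoOK (D : ℕ) (s : 𝓞 F) (a b : Ideal (𝓞 F)) (ρ : 𝓞 F ⧸ Ideal.span {s}) : Prop :=
  ∃ x : 𝓞 F, Ideal.Quotient.mk (Ideal.span {s}) x = ρ ∧
    (Ideal.absNorm (Ideal.span {x}) : ZMod D) * (Ideal.absNorm b : ZMod D) =
      (Ideal.absNorm a : ZMod D)

/-- The sum over all cusps. -/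
noncomputable def SSE (D w r m : ℕ) (σ : F →+* ℂ) (a b : Ideal (𝓞 F)) : ℂ :=
  ((Complex.I * Real.sqrt D) ^ (w + 2 * r))⁻¹ * (D : ℂ) ^ (w + r) *
    ∑ g ∈ D.divisors, (epsE D g (Ideal.absNorm a * Ideal.absNorm b) : ℂ) *
      ∑' p : {p : a × b // Qa σ a p.1 - Qa σ b p.2 = D * m ∧ supE D g ⌊Qa σ a p.1⌋},
        PT w r σ a b p.1.1 p.1.2

end

/-- The sum over the cosets of `Γ₀(D)` (weight `w`), even `D`. -/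
noncomputable def trE (D w : ℕ) (H : ℂ → ℂ) (u : ℂ) : ℂ :=
  ∑ g ∈ D.divisors, ∑ j ∈ Finset.range (wid D g),
    ((1 - g * (u + j)) ^ w)⁻¹ * H ((u + j) / (1 - g * (u + j)))

/-- The Rankin–Selberg integral. -/
noncomputable def rsE {w : ℕ} (D : ℕ) (H : ℂ → ℂ) (f : CuspForm 𝒮ℒ (w : ℤ)) : ℂ :=
  ∫ z : ℍ in ModularGroup.fd, trE D w H z * f (ofComplex (-conj (z : ℂ))) * (z.im : ℂ) ^ w

/-- (H00) existence of the character -/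
def StChiE : Prop :=
  ∀ (D : ℕ) (_ : NeZero D), EvD D →
    ∃ χ : DirichletCharacter ℂ D, QC D χ ∧ ∀ a : ℕ, χ (a : ZMod D) = (kr D a : ℂ)

/-- (H0) arithmetic of the field -/
def StBasE : Prop :=
  ∀ (D : ℕ) (F : Type) (_ : Field F) (_ : NumberField F) (s : 𝓞 F) (σ : F →+* ℂ)
    (χ : DirichletCharacter ℂ D) (cj : 𝓞 F ≃+* 𝓞 F), DatE D s σ χ cj →
    (∃ t : 𝓞 F, s = 2 * t ∧ t ^ 2 = -((D / 4 : ℕ) : 𝓞 F) ∧
      (∀ x : 𝓞 F, ∃ a b : ℤ, x = a + b * t) ∧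
      (∀ a b : ℤ, s ∣ (a : 𝓞 F) + b * t ↔ ((D / 2 : ℕ) : ℤ) ∣ a ∧ (2 : ℤ) ∣ b) ∧
      ∀ a b : ℤ, (Ideal.absNorm (Ideal.span {(a : 𝓞 F) + b * t}) : ℤ) =
        a ^ 2 + (D / 4 : ℕ) * b ^ 2) ∧
    (∀ x, cj (cj x) = x) ∧ cj s = -s ∧ (∀ x, s ∣ x - cj x) ∧
    (∀ x, x * cj x = (Ideal.absNorm (Ideal.span {x}) : 𝓞 F)) ∧
    (∀ x : 𝓞 F, Complex.normSq (σ x) = (Ideal.absNorm (Ideal.span {x}) : ℝ)) ∧
    (∀ a : Ideal (𝓞 F), a * a.map (cj : 𝓞 F →+* 𝓞 F) = Ideal.span {(Ideal.absNorm a : 𝓞 F)}) ∧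
    (∀ x : 𝓞 F, IsUnit x → x = 1 ∨ x = -1) ∧
    (∀ n : ℤ, s ∣ (n : 𝓞 F) ↔ ((D / 2 : ℕ) : ℤ) ∣ n) ∧
    (∀ x y : 𝓞 F, s ∣ x - y → (Ideal.absNorm (Ideal.span {x}) : ZMod D) =
      (Ideal.absNorm (Ideal.span {y}) : ZMod D))

/-- (H1) oriented bases of ideals -/
def StBaseE : Prop :=
  ∀ (D : ℕ) (F : Type) (_ : Field F) (_ : NumberField F) (s : 𝓞 F) (σ : F →+* ℂ)
    (χ : DirichletCharacter ℂ D) (cj : 𝓞 F ≃+* 𝓞 F), DatE D s σ χ cj →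
    (∀ a : Ideal (𝓞 F), a ≠ ⊥ → ∃ x y : 𝓞 F, OBasis σ a x y) ∧
    (∀ (a : Ideal (𝓞 F)) (x y : 𝓞 F), OBasis σ a x y →
      x * cj y - cj x * y = s * (Ideal.absNorm a : 𝓞 F)) ∧
    (∀ (a : Ideal (𝓞 F)) (x y : 𝓞 F), OBasis σ a x y →
      (σ x * conj (σ y)).im = Real.sqrt D / 2 * (Ideal.absNorm a : ℝ)) ∧
    (∀ (a : Ideal (𝓞 F)) (x y : 𝓞 F), OBasis σ a x y → ∀ m n : ℤ,
      (m : 𝓞 F) * x + (n : 𝓞 F) * y = 0 → m = 0 ∧ n = 0) ∧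
    (∀ (a : Ideal (𝓞 F)) (x y x' y' : 𝓞 F), OBasis σ a x y → OBasis σ a x' y' →
      ∃ g : SL(2, ℤ), x' = (g 0 0 : 𝓞 F) * x + (g 0 1 : 𝓞 F) * y ∧
        y' = (g 1 0 : 𝓞 F) * x + (g 1 1 : 𝓞 F) * y) ∧
    (∀ (a : Ideal (𝓞 F)) (x y : 𝓞 F), OBasis σ a x y →
      OBasis σ (a.map (cj : 𝓞 F →+* 𝓞 F)) (-cj x) (cj y)) ∧
    (∀ (a : Ideal (𝓞 F)) (x y t : 𝓞 F), OBasis σ a x y → t ≠ 0 →
      OBasis σ (Ideal.span {t} * a) (t * x) (t * y))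

/-- (H2) representatives prime to `s` -/
def StRepsE : Prop :=
  ∀ (D : ℕ) (F : Type) (_ : Field F) (_ : NumberField F) (s : 𝓞 F) (σ : F →+* ℂ)
    (χ : DirichletCharacter ℂ D) (cj : 𝓞 F ≃+* 𝓞 F), DatE D s σ χ cj →
    ∃ c : Reps σ, ∀ A, IsCoprime (c.R A : Ideal (𝓞 F)) (Ideal.span {s})

/-- (H3) the period does not depend on the representatives, and conjugation -/
def StPInvE : Prop :=
  ∀ (D : ℕ) (F : Type) (_ : Field F) (_ : NumberField F) (s : 𝓞 F) (σ : F →+* ℂ)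
    (χ : DirichletCharacter ℂ D) (cj : 𝓞 F ≃+* 𝓞 F) (w r : ℕ) (f : CuspForm 𝒮ℒ (w : ℤ))
    (ψ : Ideal (𝓞 F) →*₀ ℂ), DatE D s σ χ cj → IsHecke σ (w + 2 * r) ψ → 1 ≤ w →
    (∀ c c' : Reps σ, period f r ψ c = period f r ψ c') ∧
    (∀ c : Reps σ, ∑ A : ClassGroup (𝓞 F), (ψ (c.R A : Ideal (𝓞 F)))⁻¹ *
      (Ideal.absNorm (c.R A : Ideal (𝓞 F)) : ℂ) ^ (w + r) *
        lfr f r (-conj (σ (c.X A))) (conj (σ (c.Y A))) = period f r ψ c)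

/-- (H4) convergence, continuity, periodicity and size of the theta series -/
def StThBE : Prop :=
  ∀ (D : ℕ) (F : Type) (_ : Field F) (_ : NumberField F) (s : 𝓞 F) (σ : F →+* ℂ)
    (χ : DirichletCharacter ℂ D) (cj : 𝓞 F ≃+* 𝓞 F) (a : Ideal (𝓞 F)) (k r : ℕ) (Φ : ℤ → ℂ),
    DatE D s σ χ cj → a ≠ ⊥ → (∀ n, ‖Φ n‖ ≤ 1) →
    (∀ x ∈ a, ∃ n : ℕ, Qa σ a x = n) ∧
    (∀ t : ℝ, 0 < t → Summable fun x : a =>
      (1 + ‖σ (x : 𝓞 F)‖) ^ k * Real.exp (-(t * Qa σ a x))) ∧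
    ContinuousOn (th σ a k) {u | 0 < u.im} ∧ ContinuousOn (thP D σ a Φ k) {u | 0 < u.im} ∧
    ContinuousOn (thl σ a r) {u | 0 < u.im} ∧ ContinuousOn (thlP D σ a Φ r) {u | 0 < u.im} ∧
    (∀ u : ℂ, th σ a k (u + 1) = th σ a k u) ∧ (∀ u : ℂ, thl σ a r (u + 1) = thl σ a r u) ∧
    (1 ≤ k → ∃ C δ : ℝ, 0 < δ ∧ ∀ u : ℂ, 1 / 2 ≤ u.im →
      ‖th σ a k u‖ ≤ C * Real.exp (-(δ * u.im)) ∧
      ‖thP D σ a Φ k u‖ ≤ C * Real.exp (-(δ * u.im))) ∧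
    (∃ C : ℝ, ∀ u : ℂ, 1 / 2 ≤ u.im → ‖thl σ a r u‖ ≤ C ∧ ‖thlP D σ a Φ r u‖ ≤ C) ∧
    (∃ (C : ℝ) (A : ℕ), ∀ u : ℂ, 0 < u.im → ‖th σ a k u‖ ≤ C * (1 + (u.im ^ A)⁻¹))

/-- (H5) theta series: the transformation `u ↦ -1/u` -/
def StThSE : Prop :=
  ∀ (D : ℕ) (F : Type) (_ : Field F) (_ : NumberField F) (s : 𝓞 F) (σ : F →+* ℂ)
    (χ : DirichletCharacter ℂ D) (cj : 𝓞 F ≃+* 𝓞 F) (a : Ideal (𝓞 F)) (k : ℕ) (u : ℂ),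
    DatE D s σ χ cj → a ≠ ⊥ → Even k → 0 < u.im →
    th σ a k (-1 / u) = (-Complex.I / Real.sqrt D) * u ^ (k + 1) * thS D σ a k u

/-- (H6) theta series: the group `Γ₀(D)` -/
def StThGE : Prop :=
  ∀ (D : ℕ) (F : Type) (_ : Field F) (_ : NumberField F) (s : 𝓞 F) (σ : F →+* ℂ)
    (χ : DirichletCharacter ℂ D) (cj : 𝓞 F ≃+* 𝓞 F) (a : Ideal (𝓞 F)) (k : ℕ),
    DatE D s σ χ cj → a ≠ ⊥ → Even k → Wq D χ (k + 1) (th σ a k)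

/-- The finite sums at the cusp `1 / g`. -/
def GsP (D g : ℕ) : Prop :=
  ∃ Φ : ℤ → ℂ, CuspF D g Φ ∧ ∀ (ν : ℕ) (x y : ℤ), kr D ν = 1 →
    ∑ a ∈ Finset.range (D / 2), ∑ b ∈ Finset.range 2,
      ee (((ν * (g * (a ^ 2 + (D / 4 : ℕ) * b ^ 2) + 2 * (a * x + (D / 4 : ℕ) * b * y)) : ℤ) : ℂ)
        / D) = D * (epsE D g ν : ℂ) * Φ (ν * (x ^ 2 + (D / 4 : ℕ) * y ^ 2))

/-- (H7a) the finite sums at the cusps, odd `g` -/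
def StGs1 : Prop := ∀ D g : ℕ, EvD D → g ∣ D → Odd g → GsP D g

/-- (H7b) the finite sums at the cusps, even `g` -/
def StGs2 : Prop := ∀ D g : ℕ, EvD D → g ∣ D → Even g → GsP D g

/-- (H7) theta series: the other cusps -/
def StThCE : Prop :=
  ∀ (D : ℕ) (F : Type) (_ : Field F) (_ : NumberField F) (s : 𝓞 F) (σ : F →+* ℂ)
    (χ : DirichletCharacter ℂ D) (cj : 𝓞 F ≃+* 𝓞 F), DatE D s σ χ cj → ∀ g : ℕ, g ∣ D →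
    ∃ Φ : ℤ → ℂ, CuspF D g Φ ∧
    ∀ (a : Ideal (𝓞 F)) (k : ℕ) (u : ℂ), a ≠ ⊥ → IsCoprime a (Ideal.span {s}) → Even k →
      0 < u.im → th σ a k (u / (1 - g * u)) =
        (1 - g * u) ^ (k + 1) * (epsE D g (Ideal.absNorm a) : ℂ) * thP D σ a Φ k u

/-- (H8) raising the weight, two index sets, with coefficients -/
def StRaise3 : Prop :=
  ∀ (ι ι' : Type) (r : ℕ) (Q : ι → ℝ) (Q' : ι' → ℝ) (C : ι → ℂ) (C' : ι' → ℂ) (a b c d : ℝ)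
    (κ : ℂ), (∀ i, 0 ≤ Q i) → (∀ i, 0 ≤ Q' i) → (∀ i, ‖C i‖ ≤ 1) → (∀ i, ‖C' i‖ ≤ 1) →
    (∀ y : ℝ, 0 < y → Summable fun i => Real.exp (-Q i * y)) →
    (∀ y : ℝ, 0 < y → Summable fun i => Real.exp (-Q' i * y)) →
    a * d - b * c = 1 →
    (∀ z : ℂ, 0 < z.im → ∑' i, C i * ee (Q i * ((a * z + b) / (c * z + d))) =
      κ * (c * z + d) * ∑' i, C' i * ee (Q' i * z)) →
    ∀ z : ℂ, 0 < z.im →
      ((((a * z + b) / (c * z + d)).im : ℂ) ^ r)⁻¹ * ∑' i, C i * lag r (4 * Real.pi * Q i *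
          ((a * z + b) / (c * z + d)).im) * ee (Q i * ((a * z + b) / (c * z + d))) =
        κ * (c * z + d) ^ (2 * r + 1) * (((z.im : ℂ) ^ r)⁻¹ *
          ∑' i, C' i * lag r (4 * Real.pi * Q' i * z.im) * ee (Q' i * z))

/-- (H9) Laguerre theta series: `Γ₀(D)`, and the other cusps with the same functions -/
def StThlE : Prop :=
  ∀ (D : ℕ) (F : Type) (_ : Field F) (_ : NumberField F) (s : 𝓞 F) (σ : F →+* ℂ)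
    (χ : DirichletCharacter ℂ D) (cj : 𝓞 F ≃+* 𝓞 F), DatE D s σ χ cj →
    (∀ (a : Ideal (𝓞 F)) (r : ℕ), a ≠ ⊥ → Wq D χ (2 * r + 1) (thl σ a r)) ∧
    ∀ g : ℕ, g ∣ D → ∃ Φ : ℤ → ℂ, CuspF D g Φ ∧
    (∀ (a : Ideal (𝓞 F)) (k : ℕ) (u : ℂ), a ≠ ⊥ → IsCoprime a (Ideal.span {s}) → Even k →
      0 < u.im → th σ a k (u / (1 - g * u)) =
        (1 - g * u) ^ (k + 1) * (epsE D g (Ideal.absNorm a) : ℂ) * thP D σ a Φ k u) ∧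
    (∀ (a : Ideal (𝓞 F)) (r : ℕ) (u : ℂ), a ≠ ⊥ → IsCoprime a (Ideal.span {s}) →
      0 < u.im → thl σ a r (u / (1 - g * u)) =
        (1 - g * u) ^ (2 * r + 1) * (epsE D g (Ideal.absNorm a) : ℂ) * thlP D σ a Φ r u)

/-- (H10) sums over ideals and sums over elements of representatives -/
def StIdSumE : Prop :=
  ∀ (D : ℕ) (F : Type) (_ : Field F) (_ : NumberField F) (s : 𝓞 F) (σ : F →+* ℂ)
    (χ : DirichletCharacter ℂ D) (cj : 𝓞 F ≃+* 𝓞 F) (c : Reps σ) (g : Ideal (𝓞 F) → ℂ)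
    (T : ClassGroup (𝓞 F) → 𝓞 F → ℂ), DatE D s σ χ cj → (∀ A, T A 0 = 0) →
    (∀ (A : ClassGroup (𝓞 F)) (x : 𝓞 F) (b : Ideal (𝓞 F)), x ≠ 0 →
      b * (c.R A : Ideal (𝓞 F)) = Ideal.span {x} → T A x = g b) →
    (∀ A, Summable fun x : (c.R A : Ideal (𝓞 F)) => ‖T A x‖) →
    (Summable fun b : (Ideal (𝓞 F))⁰ => ‖g b‖) ∧
    ∑ A : ClassGroup (𝓞 F), ∑' x : (c.R A : Ideal (𝓞 F)), T A x =
      2 * ∑' b : (Ideal (𝓞 F))⁰, g b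

/-- (H11) the number of ideals of given norm -/
def StCountE : Prop :=
  ∀ (D : ℕ) (F : Type) (_ : Field F) (_ : NumberField F) (s : 𝓞 F) (σ : F →+* ℂ)
    (χ : DirichletCharacter ℂ D) (cj : 𝓞 F ≃+* 𝓞 F), DatE D s σ χ cj → ∀ n : ℕ, 1 ≤ n →
    (Nat.card {b : Ideal (𝓞 F) // Ideal.absNorm b = n} : ℤ) = ∑ d ∈ n.divisors, kr D d

/-- (H12) splitting of primes -/
def StSplitE : Prop :=
  ∀ (D : ℕ) (F : Type) (_ : Field F) (_ : NumberField F) (s : 𝓞 F) (σ : F →+* ℂ)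
    (χ : DirichletCharacter ℂ D) (cj : 𝓞 F ≃+* 𝓞 F), DatE D s σ χ cj → ∀ p : ℕ, p.Prime →
    (kr D p = 1 → ∃ P P' : Ideal (𝓞 F), P.IsPrime ∧ P'.IsPrime ∧ P ≠ P' ∧
      P * P' = Ideal.span {(p : 𝓞 F)} ∧ Ideal.absNorm P = p ∧ Ideal.absNorm P' = p) ∧
    (kr D p = -1 → (Ideal.span {(p : 𝓞 F)}).IsPrime ∧
      Ideal.absNorm (Ideal.span {(p : 𝓞 F)}) = p ^ 2) ∧
    (kr D p = 0 → p ∣ D ∧ ∃ P : Ideal (𝓞 F), P.IsPrime ∧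
      P ^ 2 = Ideal.span {(p : 𝓞 F)} ∧ Ideal.absNorm P = p)

/-- (H13) convergence of the Eisenstein series: holomorphy, continuity, size -/
def StEisAQ : Prop :=
  ∀ (D : ℕ) (_ : NeZero D) (χ : DirichletCharacter ℂ D) (r : ℕ), QC D χ →
    (∀ u : ℂ, 0 < u.im →
      DifferentiableOn ℂ (fun s => eis D χ r s u) {s | -(r : ℝ) - 1 / 2 < s.re}) ∧
    (∀ s u : ℂ, -(r : ℝ) - 1 / 2 < s.re → 0 < u.im →
      Summable fun p : ℕ × ℤ => ‖dE D χ r s (D * (((p.1 : ℂ) + 1) * u + p.2))‖) ∧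
    (∀ s : ℂ, -(r : ℝ) - 1 / 2 < s.re → ContinuousOn (eis D χ r s) {u | 0 < u.im}) ∧
    (∀ σ₀ R : ℝ, -(r : ℝ) - 1 / 2 < σ₀ → ∃ C A : ℝ, 0 ≤ A ∧ ∀ s u : ℂ, σ₀ ≤ s.re → ‖s‖ ≤ R →
      0 < u.im → ‖eis D χ r s u‖ ≤ C * ((1 + ‖u‖ ^ 2) / u.im) ^ A)

/-- (H14) the Eisenstein series as a sum over coprime pairs -/
def StEisBigQ : Prop :=
  ∀ (D : ℕ) (_ : NeZero D) (χ : DirichletCharacter ℂ D) (r : ℕ), QC D χ →
    ∀ s u : ℂ, 1 / 2 - (r : ℝ) < s.re → 0 < u.im →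
      (Summable fun v : Cop => ‖((((v.1.1 : ℂ) * u + v.1.2) ^ (2 * r + 1))⁻¹ *
        ((Complex.normSq ((v.1.1 : ℂ) * u + v.1.2) : ℝ) : ℂ) ^ (-s))‖) ∧
      eis D χ r s u = 1 / 2 * DirichletCharacter.LFunction χ (2 * r + 1 + 2 * s) *
        ∑' v : Cop, (if (D : ℤ) ∣ v.1.1 then χ (v.1.2 : ℤ) else 0) *
          (((v.1.1 : ℂ) * u + v.1.2) ^ (2 * r + 1))⁻¹ *
          ((Complex.normSq ((v.1.1 : ℂ) * u + v.1.2) : ℝ) : ℂ) ^ (-s) * (u.im : ℂ) ^ s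

/-- (H15) invariance of the Eisenstein series -/
def StEisLawQ : Prop :=
  ∀ (D : ℕ) (_ : NeZero D) (χ : DirichletCharacter ℂ D) (r : ℕ), QC D χ →
    ∀ s : ℂ, -(r : ℝ) - 1 / 2 < s.re → Wq D χ (2 * r + 1) (eis D χ r s)

/-- (H16) the Eisenstein series at `s = -r` -/
def StEisAtQ : Prop :=
  ∀ (D : ℕ) (_ : NeZero D) (χ : DirichletCharacter ℂ D), QC D χ →
    ∃ ε : ℂ, (ε = 1 ∨ ε = -1) ∧ ∀ (r : ℕ) (u : ℂ), 0 < u.im →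
      eis D χ r (-r) u = ((u.im : ℂ) ^ r)⁻¹ * (DirichletCharacter.LFunction χ 1 +
        ε * (2 * Real.pi / Real.sqrt D) * ∑' p : ℕ × ℕ, χ ((p.2 + 1 : ℕ) : ℤ) *
          lag r (4 * Real.pi * ((p.1 + 1 : ℕ) * (p.2 + 1 : ℕ)) * u.im) *
          ee ((p.1 + 1 : ℕ) * (p.2 + 1 : ℕ) * u))

/-- (H17) the Eisenstein series at `s = -r` as a sum of theta series -/
def StEisThE : Prop :=
  ∀ (D : ℕ) (_ : NeZero D) (F : Type) (_ : Field F) (_ : NumberField F) (s : 𝓞 F)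
    (σ : F →+* ℂ) (χ : DirichletCharacter ℂ D) (cj : 𝓞 F ≃+* 𝓞 F) (c : Reps σ),
    DatE D s σ χ cj → ∃ ε : ℂ, (ε = 1 ∨ ε = -1) ∧ ∀ (r : ℕ) (u : ℂ), 0 < u.im →
      eis D χ r (-r) u = ε * (Real.pi / Real.sqrt D) *
        ∑ B : ClassGroup (𝓞 F), thl σ (c.R B : Ideal (𝓞 F)) r u

/-- (H18) the trace from `Γ₀(D)` to level one -/
def StTraceE : Prop :=
  ∀ (D w : ℕ) (H : ℂ → ℂ), EvD D → Even w →
    (∀ (g : SL(2, ℤ)) (z : ℂ), 0 < z.im → (D : ℤ) ∣ g 1 0 →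
      H (((g 0 0 : ℂ) * z + g 0 1) / ((g 1 0 : ℂ) * z + g 1 1)) =
        ((g 1 0 : ℂ) * z + g 1 1) ^ w * H z) →
    Wt w (trE D w H)

/-- (H19) the Hecke character: absolute values, conjugate ideals, even type -/
def StPsiE : Prop :=
  ∀ (D : ℕ) (F : Type) (_ : Field F) (_ : NumberField F) (s : 𝓞 F) (σ : F →+* ℂ)
    (χ : DirichletCharacter ℂ D) (cj : 𝓞 F ≃+* 𝓞 F) (k : ℕ) (ψ : Ideal (𝓞 F) →*₀ ℂ),
    DatE D s σ χ cj → IsHecke σ k ψ →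
    Even k ∧ (∀ b : Ideal (𝓞 F), b ≠ ⊥ → ‖ψ b‖ ^ 2 = (Ideal.absNorm b : ℝ) ^ k) ∧
    (∀ b : Ideal (𝓞 F), b ≠ ⊥ →
      ψ b * ψ (b.map (cj : 𝓞 F →+* 𝓞 F)) = (Ideal.absNorm b : ℂ) ^ k)

/-- (H20) the theta series of the Hecke character as a Fourier series -/
def StThPsiE : Prop :=
  ∀ (D : ℕ) (F : Type) (_ : Field F) (_ : NumberField F) (s : 𝓞 F) (σ : F →+* ℂ)
    (χ : DirichletCharacter ℂ D) (cj : 𝓞 F ≃+* 𝓞 F) (k : ℕ) (ψ : Ideal (𝓞 F) →*₀ ℂ)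
    (c : Reps σ), DatE D s σ χ cj → IsHecke σ k ψ → 1 ≤ k →
    bψ ψ 0 = 0 ∧
    (∀ n : ℕ, 1 ≤ n → ‖bψ ψ n‖ ≤ (n.divisors.card : ℝ) * (n : ℝ) ^ ((k : ℝ) / 2)) ∧
    ∀ u : ℂ, 0 < u.im → (Summable fun n : ℕ => ‖bψ ψ n * ee (n * u)‖) ∧
      thψ k ψ c u = ∑' n : ℕ, bψ ψ n * ee (n * u)

/-- (H21) continuity, transformation, holomorphy and size of the integrand -/
def StHHE : Prop :=
  ∀ (D : ℕ) (_ : NeZero D) (F : Type) (_ : Field F) (_ : NumberField F) (s : 𝓞 F)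
    (σ : F →+* ℂ) (χ : DirichletCharacter ℂ D) (cj : 𝓞 F ≃+* 𝓞 F) (w r : ℕ)
    (ψ : Ideal (𝓞 F) →*₀ ℂ) (c : Reps σ), DatE D s σ χ cj → 1 ≤ w → Even w →
    (∀ A, IsCoprime (c.R A : Ideal (𝓞 F)) (Ideal.span {s})) →
    (∀ t : ℂ, -(r : ℝ) - 1 / 2 < t.re → ContinuousOn (HH D χ w r ψ c t) {u | 0 < u.im} ∧
      ContinuousOn (trE D w (HH D χ w r ψ c t)) {u | 0 < u.im} ∧
      (∀ (g : SL(2, ℤ)) (z : ℂ), 0 < z.im → (D : ℤ) ∣ g 1 0 →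
        HH D χ w r ψ c t (((g 0 0 : ℂ) * z + g 0 1) / ((g 1 0 : ℂ) * z + g 1 1)) =
          ((g 1 0 : ℂ) * z + g 1 1) ^ w * HH D χ w r ψ c t z)) ∧
    (∀ z : ℂ, 0 < z.im → DifferentiableOn ℂ (fun t => trE D w (HH D χ w r ψ c t) z)
      {t | -(r : ℝ) - 1 / 2 < t.re}) ∧
    (∀ σ₀ R : ℝ, -(r : ℝ) - 1 / 2 < σ₀ → ∃ C δ : ℝ, 0 < δ ∧ ∀ t z : ℂ, σ₀ ≤ t.re → ‖t‖ ≤ R →
      1 / 2 ≤ z.im → |z.re| ≤ 1 / 2 →
        ‖trE D w (HH D χ w r ψ c t) z‖ ≤ C * Real.exp (-(δ * z.im)))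

/-- (H22) the Rankin–Selberg integral is holomorphic -/
def StRSanE : Prop :=
  ∀ (D : ℕ) (_ : NeZero D) (F : Type) (_ : Field F) (_ : NumberField F) (s : 𝓞 F)
    (σ : F →+* ℂ) (χ : DirichletCharacter ℂ D) (cj : 𝓞 F ≃+* 𝓞 F) (w r : ℕ)
    (f : CuspForm 𝒮ℒ (w : ℤ)) (ψ : Ideal (𝓞 F) →*₀ ℂ) (c : Reps σ), DatE D s σ χ cj →
    1 ≤ w → Even w → (∀ A, IsCoprime (c.R A : Ideal (𝓞 F)) (Ideal.span {s})) →
    DifferentiableOn ℂ (fun t => rsE D (HH D χ w r ψ c t) f) {t | -(r : ℝ) - 1 / 2 < t.re}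

/-- (H23) the integrand as a sum over coprime pairs -/
def StRSptE : Prop :=
  ∀ (D : ℕ) (_ : NeZero D) (F : Type) (_ : Field F) (_ : NumberField F) (s : 𝓞 F)
    (σ : F →+* ℂ) (χ : DirichletCharacter ℂ D) (cj : 𝓞 F ≃+* 𝓞 F) (w r : ℕ)
    (f : CuspForm 𝒮ℒ (w : ℤ)) (ψ : Ideal (𝓞 F) →*₀ ℂ) (c : Reps σ), DatE D s σ χ cj →
    1 ≤ w → Even w → ∀ t z : ℂ, 1 / 2 - (r : ℝ) < t.re → 0 < z.im →
    trE D w (HH D χ w r ψ c t) z * f (ofComplex (-conj z)) * (z.im : ℂ) ^ w =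
      1 / 2 * DirichletCharacter.LFunction χ (2 * r + 1 + 2 * t) *
        ∑' v : Cop, (fun u : ℂ => thψ (w + 2 * r) ψ c u * f (ofComplex (-conj u)) *
          (u.im : ℂ) ^ ((w : ℂ) + 2 * r + 1 + t)) (mob v.1 z)

/-- (H24) the Rankin–Selberg integral in the region of convergence -/
def StRSE : Prop :=
  ∀ (D : ℕ) (_ : NeZero D) (F : Type) (_ : Field F) (_ : NumberField F) (s : 𝓞 F)
    (σ : F →+* ℂ) (χ : DirichletCharacter ℂ D) (cj : 𝓞 F ≃+* 𝓞 F) (w r : ℕ)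
    (f : CuspForm 𝒮ℒ (w : ℤ)) (ψ : Ideal (𝓞 F) →*₀ ℂ) (c : Reps σ), DatE D s σ χ cj →
    1 ≤ w → Even w → IsHecke σ (w + 2 * r) ψ →
    ∃ A : ℝ, ∀ t : ℂ, A < t.re →
      rsE D (HH D χ w r ψ c t) f = Complex.Gamma (w + 2 * r + t) *
        (4 * Real.pi : ℂ) ^ (-((w : ℂ) + 2 * r + t)) *
        DirichletCharacter.LFunction χ (2 * r + 1 + 2 * t) * Dn f ψ (w + 2 * r + t)

/-- (H25) the Dirichlet series is holomorphic for `Re z > 1` -/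
def StDnE : Prop :=
  ∀ (D : ℕ) (F : Type) (_ : Field F) (_ : NumberField F) (s : 𝓞 F)
    (σ : F →+* ℂ) (χ : DirichletCharacter ℂ D) (cj : 𝓞 F ≃+* 𝓞 F) (w r : ℕ)
    (f : CuspForm 𝒮ℒ (w : ℤ)) (ψ : Ideal (𝓞 F) →*₀ ℂ), DatE D s σ χ cj → 1 ≤ w →
    IsHecke σ (w + 2 * r) ψ →
    (∀ z : ℂ, 1 < z.re →
      Summable fun n : ℕ => ‖coef f n * bψ ψ n * (n : ℂ) ^ (-((w : ℂ) + r + z))‖) ∧
    DifferentiableOn ℂ (fun z => Dn f ψ ((w : ℂ) + r + z)) {z | 1 < z.re}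

/-- (H26) the coefficients `bψ` are multiplicative, values at prime powers -/
def StBmulE : Prop :=
  ∀ (D : ℕ) (F : Type) (_ : Field F) (_ : NumberField F) (s : 𝓞 F) (σ : F →+* ℂ)
    (χ : DirichletCharacter ℂ D) (cj : 𝓞 F ≃+* 𝓞 F) (k : ℕ) (ψ : Ideal (𝓞 F) →*₀ ℂ),
    DatE D s σ χ cj → IsHecke σ k ψ →
    bψ ψ 1 = 1 ∧ (∀ m n : ℕ, m.Coprime n → bψ ψ (m * n) = bψ ψ m * bψ ψ n) ∧
    (∀ p : ℕ, p.Prime → kr D p = 1 → ∀ P P' : Ideal (𝓞 F), P.IsPrime → P'.IsPrime →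
      P ≠ P' → P * P' = Ideal.span {(p : 𝓞 F)} → ∀ n : ℕ,
      bψ ψ (p ^ n) = ∑ i ∈ Finset.range (n + 1), ψ P ^ i * ψ P' ^ (n - i)) ∧
    (∀ p : ℕ, p.Prime → kr D p = -1 → ∀ n : ℕ, bψ ψ (p ^ (2 * n + 1)) = 0 ∧
      bψ ψ (p ^ (2 * n)) = ((p : ℂ) ^ k) ^ n) ∧
    (∀ p : ℕ, p.Prime → p ∣ D → ∀ P : Ideal (𝓞 F), P.IsPrime →
      P ^ 2 = Ideal.span {(p : 𝓞 F)} → ∀ n : ℕ, bψ ψ (p ^ n) = ψ P ^ n)

/-- (H27) the Euler product over the rational primes -/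
def StEulQE : Prop :=
  ∀ (D : ℕ) (_ : NeZero D) (F : Type) (_ : Field F) (_ : NumberField F) (s : 𝓞 F)
    (σ : F →+* ℂ) (χ : DirichletCharacter ℂ D) (cj : 𝓞 F ≃+* 𝓞 F) (w r : ℕ)
    (f : CuspForm 𝒮ℒ (w : ℤ)) (ψ : Ideal (𝓞 F) →*₀ ℂ), DatE D s σ χ cj → IsEigen f →
    IsHecke σ (w + 2 * r) ψ → ∀ z : ℂ, 1 < z.re →
    (∀ v : HeightOneSpectrum (𝓞 F), eulF f ψ ((w : ℂ) + r + z) v ≠ 0) ∧
    HasProd (fun p : Nat.Primes => ∏ᶠ v : {v : HeightOneSpectrum (𝓞 F) //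
        (p : 𝓞 F) ∈ v.asIdeal}, (eulF f ψ ((w : ℂ) + r + z) v.1)⁻¹)
      (DirichletCharacter.LFunction χ (1 + 2 * z) * Dn f ψ ((w : ℂ) + r + z))

/-- (H28) the Euler product over the places of `F` -/
def StEulE : Prop :=
  ∀ (D : ℕ) (_ : NeZero D) (F : Type) (_ : Field F) (_ : NumberField F) (s : 𝓞 F)
    (σ : F →+* ℂ) (χ : DirichletCharacter ℂ D) (cj : 𝓞 F ≃+* 𝓞 F) (w r : ℕ)
    (f : CuspForm 𝒮ℒ (w : ℤ)) (ψ : Ideal (𝓞 F) →*₀ ℂ), DatE D s σ χ cj → IsEigen f →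
    IsHecke σ (w + 2 * r) ψ → ∀ z : ℂ, 1 < z.re →
    HasProd (fun v : HeightOneSpectrum (𝓞 F) => (eulF f ψ ((w : ℂ) + r + z) v)⁻¹)
      (DirichletCharacter.LFunction χ (1 + 2 * z) * Dn f ψ ((w : ℂ) + r + z))

/-- (H29) the value at `-r` in terms of the integrals `JJ` -/
def StRSatE : Prop :=
  ∀ (D : ℕ) (_ : NeZero D) (F : Type) (_ : Field F) (_ : NumberField F) (s : 𝓞 F)
    (σ : F →+* ℂ) (χ : DirichletCharacter ℂ D) (cj : 𝓞 F ≃+* 𝓞 F) (w r : ℕ)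
    (f : CuspForm 𝒮ℒ (w : ℤ)) (ψ : Ideal (𝓞 F) →*₀ ℂ) (c : Reps σ) (β : ℕ →₀ ℂ),
    DatE D s σ χ cj → 4 ≤ w → Even w → β 0 = 0 →
    (∀ A, IsCoprime (c.R A : Ideal (𝓞 F)) (Ideal.span {s})) →
    (∀ z : ℍ, f z = β.sum fun m b => b * poinc w m z) →
    rsE D (HH D χ w r ψ c (-r)) f =
      β.sum fun m b => b * JJ w m (trE D w (HH D χ w r ψ c (-r)))

/-- (H30) the integrals `JJ` as sums over pairs -/
def StJmE : Prop :=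
  ∀ (D : ℕ) (_ : NeZero D) (F : Type) (_ : Field F) (_ : NumberField F) (s : 𝓞 F)
    (σ : F →+* ℂ) (χ : DirichletCharacter ℂ D) (cj : 𝓞 F ≃+* 𝓞 F) (w r : ℕ)
    (ψ : Ideal (𝓞 F) →*₀ ℂ) (c : Reps σ),
    DatE D s σ χ cj → 5 ≤ w → Even w →
    (∀ A, IsCoprime (c.R A : Ideal (𝓞 F)) (Ideal.span {s})) →
    ∃ ε : ℂ, (ε = 1 ∨ ε = -1) ∧ ∀ m : ℕ, 1 ≤ m →
    JJ w m (trE D w (HH D χ w r ψ c (-r))) =
      1 / 2 * ε * (Real.pi / Real.sqrt D) * ((w + r - 1).factorial : ℂ) *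
        ((4 * Real.pi : ℂ) ^ (w + r))⁻¹ *
        ∑ A : ClassGroup (𝓞 F), ∑ B : ClassGroup (𝓞 F), (ψ (c.R A : Ideal (𝓞 F)))⁻¹ *
          SSE D w r m σ (c.R A : Ideal (𝓞 F)) (c.R B : Ideal (𝓞 F))

/-- (H31a) the number of factors, for two elements with norms congruent modulo `D` -/
def StKeyE : Prop :=
  ∀ (D : ℕ) (F : Type) (_ : Field F) (_ : NumberField F) (s : 𝓞 F) (σ : F →+* ℂ)
    (χ : DirichletCharacter ℂ D) (cj : 𝓞 F ≃+* 𝓞 F), DatE D s σ χ cj → ∀ (a b : Ideal (𝓞 F)) (x y : 𝓞 F) (n n' : ℕ), a ≠ ⊥ → b ≠ ⊥ →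
    IsCoprime a (Ideal.span {s}) → IsCoprime b (Ideal.span {s}) → x ∈ a → y ∈ b →
    Ideal.absNorm (Ideal.span {x}) = n * Ideal.absNorm a →
    Ideal.absNorm (Ideal.span {y}) = n' * Ideal.absNorm b → (n : ZMod D) = (n' : ZMod D) →
    (Nat.card {ρ : 𝓞 F ⧸ Ideal.span {s} // RhoOK D s a b ρ ∧
      Ideal.Quotient.mk (Ideal.span {s}) x = ρ * Ideal.Quotient.mk (Ideal.span {s}) y} : ℤ) =
      ∑ᶠ g ∈ {g : ℕ | g ∣ D ∧ supE D g n}, epsE D g (Ideal.absNorm a * Ideal.absNorm b)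

/-- (H31) the sum over the cusps as a sum over the factors -/
def StRhoE : Prop :=
  ∀ (D : ℕ) (_ : NeZero D) (F : Type) (_ : Field F) (_ : NumberField F) (s : 𝓞 F)
    (σ : F →+* ℂ) (χ : DirichletCharacter ℂ D) (cj : 𝓞 F ≃+* 𝓞 F) (w r m : ℕ)
    (a b : Ideal (𝓞 F)), DatE D s σ χ cj → 5 ≤ w → 1 ≤ m → a ≠ ⊥ → b ≠ ⊥ →
    IsCoprime a (Ideal.span {s}) → IsCoprime b (Ideal.span {s}) →
    (Summable fun p : {p : a × b // Qa σ a p.1 - Qa σ b p.2 = D * m} =>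
      ‖PT w r σ a b p.1.1 p.1.2‖) ∧
    SSE D w r m σ a b = ((Complex.I * Real.sqrt D) ^ (w + 2 * r))⁻¹ * (D : ℂ) ^ (w + r) *
      ∑ᶠ ρ ∈ {ρ : 𝓞 F ⧸ Ideal.span {s} | RhoOK D s a b ρ}, TTE D w r m s σ a b ρ

/-- Invariance of a function of triples. -/
def TInvE {F : Type} [Field F] [NumberField F] (s : 𝓞 F)
    (Φ : Ideal (𝓞 F) → Ideal (𝓞 F) → (𝓞 F ⧸ Ideal.span {s}) → ℂ) : Prop :=
  ∀ (a a' b b' : Ideal (𝓞 F)) (t t' u u' : 𝓞 F) (ρ ρ' : 𝓞 F ⧸ Ideal.span {s}),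
    a ≠ ⊥ → b ≠ ⊥ → a' ≠ ⊥ → b' ≠ ⊥ →
    IsCoprime a (Ideal.span {s}) → IsCoprime b (Ideal.span {s}) →
    IsCoprime a' (Ideal.span {s}) → IsCoprime b' (Ideal.span {s}) →
    IsCoprime t s → IsCoprime t' s → IsCoprime u s → IsCoprime u' s →
    Ideal.span {t} * a = Ideal.span {t'} * a' → Ideal.span {u} * b = Ideal.span {u'} * b' →
    ρ' * Ideal.Quotient.mk (Ideal.span {s}) (t' * u) =
      ρ * Ideal.Quotient.mk (Ideal.span {s}) (t * u') → Φ a b ρ = Φ a' b' ρ'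

/-- (H32) invariance of the sums `TTE` -/
def StTTinvE : Prop :=
  ∀ (D : ℕ) (F : Type) (_ : Field F) (_ : NumberField F) (s : 𝓞 F) (σ : F →+* ℂ)
    (χ : DirichletCharacter ℂ D) (cj : 𝓞 F ≃+* 𝓞 F) (w r m : ℕ) (ψ : Ideal (𝓞 F) →*₀ ℂ),
    DatE D s σ χ cj → IsHecke σ (w + 2 * r) ψ →
    TInvE s fun (a b : Ideal (𝓞 F)) (ρ : 𝓞 F ⧸ Ideal.span {s}) =>
      (ψ a)⁻¹ * TTE D w r m s σ a b ρ

/-- (H33) injectivity: the pair of classes is determined by the triple -/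
def StTinjE : Prop :=
  ∀ (D : ℕ) (F : Type) (_ : Field F) (_ : NumberField F) (s : 𝓞 F) (σ : F →+* ℂ)
    (χ : DirichletCharacter ℂ D) (cj : 𝓞 F ≃+* 𝓞 F), DatE D s σ χ cj →
    ∀ (c c' d d' : (Ideal (𝓞 F))⁰) (t t' u u' : 𝓞 F),
    IsCoprime (c : Ideal (𝓞 F)) (Ideal.span {s}) →
    IsCoprime (c' : Ideal (𝓞 F)) (Ideal.span {s}) →
    IsCoprime (d : Ideal (𝓞 F)) (Ideal.span {s}) →
    IsCoprime (d' : Ideal (𝓞 F)) (Ideal.span {s}) →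
    IsCoprime t s → IsCoprime t' s → IsCoprime u s → IsCoprime u' s →
    Ideal.span {t} * ((d : Ideal (𝓞 F)) * (c : Ideal (𝓞 F)).map (cj : 𝓞 F →+* 𝓞 F)) =
      Ideal.span {t'} * ((d' : Ideal (𝓞 F)) * (c' : Ideal (𝓞 F)).map (cj : 𝓞 F →+* 𝓞 F)) →
    Ideal.span {u} * ((d : Ideal (𝓞 F)) * (c : Ideal (𝓞 F))) =
      Ideal.span {u'} * ((d' : Ideal (𝓞 F)) * (c' : Ideal (𝓞 F))) →
    (s ∣ t * u' - t' * u ∨ s ∣ t * u' + t' * u) →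
    ClassGroup.mk0 c = ClassGroup.mk0 c' ∧ ClassGroup.mk0 d = ClassGroup.mk0 d'

/-- (H34) genus theory: the number of triples is at most twice the square of the class number -/
def StGenE : Prop :=
  ∀ (D : ℕ) (_ : NeZero D) (F : Type) (_ : Field F) (_ : NumberField F) (s : 𝓞 F) (σ : F →+* ℂ)
    (χ : DirichletCharacter ℂ D) (cj : 𝓞 F ≃+* 𝓞 F) (c : Reps σ), DatE D s σ χ cj →
    (∀ A, IsCoprime (c.R A : Ideal (𝓞 F)) (Ideal.span {s})) →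
    ∑ A : ClassGroup (𝓞 F), ∑ B : ClassGroup (𝓞 F),
      Nat.card {ρ : 𝓞 F ⧸ Ideal.span {s} //
        RhoOK D s (c.R A : Ideal (𝓞 F)) (c.R B : Ideal (𝓞 F)) ρ} ≤
      2 * Nat.card (ClassGroup (𝓞 F)) ^ 2

/-- (H35) sums over triples and sums over pairs of classes -/
def StTripE : Prop :=
  ∀ (D : ℕ) (_ : NeZero D) (F : Type) (_ : Field F) (_ : NumberField F) (s : 𝓞 F) (σ : F →+* ℂ)
    (χ : DirichletCharacter ℂ D) (cj : 𝓞 F ≃+* 𝓞 F) (c : Reps σ)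
    (Φ : Ideal (𝓞 F) → Ideal (𝓞 F) → (𝓞 F ⧸ Ideal.span {s}) → ℂ), DatE D s σ χ cj →
    (∀ A, IsCoprime (c.R A : Ideal (𝓞 F)) (Ideal.span {s})) → TInvE s Φ →
    ∑ A : ClassGroup (𝓞 F), ∑ B : ClassGroup (𝓞 F),
      ∑ᶠ ρ ∈ {ρ : 𝓞 F ⧸ Ideal.span {s} |
        RhoOK D s (c.R A : Ideal (𝓞 F)) (c.R B : Ideal (𝓞 F)) ρ},
        Φ (c.R A : Ideal (𝓞 F)) (c.R B : Ideal (𝓞 F)) ρ =
      2 * ∑ A : ClassGroup (𝓞 F), ∑ B : ClassGroup (𝓞 F),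
        Φ ((c.R B : Ideal (𝓞 F)) * (c.R A : Ideal (𝓞 F)).map (cj : 𝓞 F →+* 𝓞 F))
          ((c.R B : Ideal (𝓞 F)) * (c.R A : Ideal (𝓞 F))) 1

/-- (H36) pairs of elements and matrices -/
def StImgE : Prop :=
  ∀ (D : ℕ) (F : Type) (_ : Field F) (_ : NumberField F) (s : 𝓞 F)
    (σ : F →+* ℂ) (χ : DirichletCharacter ℂ D) (cj : 𝓞 F ≃+* 𝓞 F)
    (c d : Ideal (𝓞 F)) (c₁ c₂ d₁ d₂ : 𝓞 F), DatE D s σ χ cj →
    OBasis σ c c₁ c₂ → OBasis σ d d₁ d₂ → c ≠ ⊥ → d ≠ ⊥ →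
    IsCoprime c (Ideal.span {s}) → IsCoprime d (Ideal.span {s}) →
    let al : Matrix (Fin 2) (Fin 2) ℤ → 𝓞 F := fun g =>
      ((g 0 0 : 𝓞 F) * d₁ + g 0 1 * d₂) * cj c₂ - ((g 1 0 : 𝓞 F) * d₁ + g 1 1 * d₂) * cj c₁
    let be : Matrix (Fin 2) (Fin 2) ℤ → 𝓞 F := fun g =>
      ((g 0 0 : 𝓞 F) * d₁ + g 0 1 * d₂) * c₂ - ((g 1 0 : 𝓞 F) * d₁ + g 1 1 * d₂) * c₁
    (∀ g, al g * cj (al g) - be g * cj (be g) =
      (D : 𝓞 F) * (g.det : 𝓞 F) * (Ideal.absNorm c : 𝓞 F) * (Ideal.absNorm d : 𝓞 F)) ∧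
    (∀ g g', al g = al g' → be g = be g' → g = g') ∧
    (∀ x y : 𝓞 F, (x ∈ d * c.map (cj : 𝓞 F →+* 𝓞 F) ∧ y ∈ d * c ∧ s ∣ x - y) ↔
      ∃ g, al g = x ∧ be g = y)

/-- (H37) the sums `TT` and the sums over matrices -/
def StTTmatE : Prop :=
  ∀ (D : ℕ) (F : Type) (_ : Field F) (_ : NumberField F) (s : 𝓞 F)
    (σ : F →+* ℂ) (χ : DirichletCharacter ℂ D) (cj : 𝓞 F ≃+* 𝓞 F) (w r m : ℕ)
    (c d : Ideal (𝓞 F)) (c₁ c₂ d₁ d₂ : 𝓞 F), DatE D s σ χ cj → 5 ≤ w → 1 ≤ m →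
    OBasis σ c c₁ c₂ → OBasis σ d d₁ d₂ → c ≠ ⊥ → d ≠ ⊥ →
    IsCoprime c (Ideal.span {s}) → IsCoprime d (Ideal.span {s}) →
    TTE D w r m s σ (d * c.map (cj : 𝓞 F →+* 𝓞 F)) (d * c) 1 =
      ((Ideal.absNorm c : ℂ) * Ideal.absNorm d) ^ (w + r) *
        XX w r m (σ c₁) (σ c₂) (σ d₁) (σ d₂)

/-- (H38) the central value -/
def StCenE : Prop :=
  ∀ (D : ℕ) (_ : NeZero D) (F : Type) (_ : Field F) (_ : NumberField F) (s : 𝓞 F)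
    (σ : F →+* ℂ) (χ : DirichletCharacter ℂ D) (cj : 𝓞 F ≃+* 𝓞 F) (w r : ℕ)
    (f : CuspForm 𝒮ℒ (w : ℤ)) (ψ : Ideal (𝓞 F) →*₀ ℂ), DatE D s σ χ cj → IsEigen f →
    IsHecke σ (w + 2 * r) ψ → ∃ (c : Reps σ) (K : ℂ), K ≠ 0 ∧
      (∀ A, IsCoprime (c.R A : Ideal (𝓞 F)) (Ideal.span {s})) ∧
      rsE D (HH D χ w r ψ c (-r)) f = K * period f r ψ c ^ 2

/-- (H39) the analytic part for every even fundamental discriminant: the `L`-function and its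
central value -/
def StMainE : Prop :=
  ∀ (D : ℕ) (F : Type) (_ : Field F) (_ : NumberField F) (s : F)
    (σ : F →+* ℂ) (w r : ℕ) (f : CuspForm 𝒮ℒ (w : ℤ)) (ψ : Ideal (𝓞 F) →*₀ ℂ), EvD D →
    Module.finrank ℚ F = 2 → s ^ 2 = -(D : F) → IsEigen f →
    IsHecke σ (w + 2 * r) ψ →
    ∃ Λ : ℂ → ℂ, DifferentiableOn ℂ Λ {z | -1 / 2 < z.re} ∧
      (∀ z : ℂ, 1 < z.re → HasProd (fun v : HeightOneSpectrum (𝓞 F) =>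
        (eulF f ψ ((w : ℂ) + r + z) v)⁻¹) (Λ z)) ∧
      ∀ c : Reps σ, ∃ K : ℂ, K ≠ 0 ∧ Λ 0 = K * period f r ψ c ^ 2

end RZ

end Pool.Agent.Lib.MP_7c08ba_nt
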