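import Mathlib
import Pool.Agent.Lib.MP_7c08ba_nt.RZ.StH
import Pool.Agent.Lib.MP_7c08ba_nt.RZ.BasD

set_option autoImplicit false

/-!
(H0) arithmetic of the field `ℚ(√-n)`, `n` squarefree, congruent to `1` or `2` modulo `4`,
of discriminant `-D`, `D = 4 n`.
-/

namespace Pool.Agent.Lib.MP_7c08ba_nt

namespace RZ

open NumberField MeasureTheory UpperHalfPlane Set
open scoped MatrixGroups ComplexConjugate nonZeroDivisors

namespace BasEAux

/-- parity of the half-integral coordinates -/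
lemma even_of {n : ℕ} (hn : n % 4 = 1 ∨ n % 4 = 2) {A B N : ℤ} (h : 4 * N = A ^ 2 + n * B ^ 2) :
    (2 : ℤ) ∣ A ∧ (2 : ℤ) ∣ B := by
  have hA : A % 4 = 0 ∨ A % 4 = 1 ∨ A % 4 = 2 ∨ A % 4 = 3 := by omega
  have hB : B % 4 = 0 ∨ B % 4 = 1 ∨ B % 4 = 2 ∨ B % 4 = 3 := by omega
  have h2 : (A ^ 2 + n * B ^ 2) % 4 = 0 := by rw [← h]; omega
  have hn' : (n : ℤ) % 4 = 1 ∨ (n : ℤ) % 4 = 2 := by omega
  rw [Int.add_emod, Int.mul_emod, pow_two, pow_two, Int.mul_emod A A, Int.mul_emod B B] at h2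
  rcases hA with hA | hA | hA | hA <;> rcases hB with hB | hB | hB | hB <;>
    rcases hn' with hn' | hn' <;> rw [hA, hB, hn'] at h2 <;> omega

section

variable {q : ℕ} {F : Type} [Field F] [NumberField F] {s : 𝓞 F} {σ : F →+* ℂ}
  {χ : DirichletCharacter ℂ q} {cj : 𝓞 F ≃+* 𝓞 F} (D : DatE q s σ χ cj)

include D

lemma ev4 : q = 4 * (q / 4) ∧ Squarefree (q / 4) ∧ (q / 4 % 4 = 1 ∨ q / 4 % 4 = 2) ∧
    2 ≤ q / 4 := by
  obtain ⟨h1, n, rfl, h2, h3⟩ := D.ev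
  have h4 : 4 * n / 4 = n := by omega
  rw [h4]
  exact ⟨rfl, h2, h3, by omega⟩

lemma sqF : ((s : 𝓞 F) : F) ^ 2 = -(q : F) := by
  have := congrArg (fun x : 𝓞 F => (x : F)) D.sq
  simpa using this

lemma tF_sq : (((s : 𝓞 F) : F) / 2) ^ 2 = -((q / 4 : ℕ) : F) := by
  rw [div_pow, sqF D]
  have h1 := (ev4 D).1
  have h2 : (q : F) = 4 * ((q / 4 : ℕ) : F) := by exact_mod_cast congrArg (fun t : ℕ => (t : F)) h1
  rw [h2]
  ring

/-- the basis element -/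
lemma exists_t : ∃ t : 𝓞 F, s = 2 * t ∧ t ^ 2 = -((q / 4 : ℕ) : 𝓞 F) ∧
    (∀ x : 𝓞 F, ∃ a b : ℤ, x = a + b * t) ∧
    ∀ a b : ℤ, Algebra.norm ℤ ((a : 𝓞 F) + b * t) = a ^ 2 + (q / 4 : ℕ) * b ^ 2 := by
  obtain ⟨-, hsf, hmod, h2⟩ := ev4 D
  have hpos : 0 < q / 4 := by omega
  have ht := tF_sq D
  have hc2 : (2 : F) ≠ 0 := two_ne_zero
  refine ⟨sI ht, ?_, sI_sq ht, fun x => ?_, fun a b => ?_⟩
  · apply RingOfIntegers.ext
    change algebraMap (𝓞 F) F s = algebraMap (𝓞 F) F (2 * sI ht)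
    rw [map_mul, map_ofNat, algebraMap_sI]
    field_simp
  · obtain ⟨A, B, hAB⟩ := BasDAux.exists_int_coords_sf hpos D.fin ht hsf x.isIntegral_coe
    have h4 := four_norm hpos D.fin ht hAB
    obtain ⟨⟨a, rfl⟩, ⟨b, rfl⟩⟩ := even_of hmod h4
    refine ⟨a, b, ?_⟩
    apply RingOfIntegers.ext
    change algebraMap (𝓞 F) F x = algebraMap (𝓞 F) F (a + b * sI ht)
    rw [map_add, map_mul, map_intCast, map_intCast, algebraMap_sI]
    push_cast at hAB
    apply mul_left_cancel₀ hc2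
    change 2 * (x : F) = _
    rw [hAB]
    ring
  · have h1 : 2 * (((a : 𝓞 F) + b * sI ht : 𝓞 F) : F) =
        ((2 * a : ℤ) : F) + ((2 * b : ℤ) : F) * (((s : 𝓞 F) : F) / 2) := by
      rw [RingOfIntegers.coe_eq_algebraMap, map_add, map_mul, map_intCast, map_intCast,
        algebraMap_sI]
      push_cast
      ring
    have h3 := four_norm hpos D.fin ht h1
    linarith

lemma σ_inj {x y : 𝓞 F} (h : σ x = σ y) : x = y := RingOfIntegers.ext (σ.injective h)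

lemma cj_cj (x : 𝓞 F) : cj (cj x) = x := by
  apply σ_inj D
  rw [D.conjσ, D.conjσ, Complex.conj_conj]

lemma cj_s : cj s = -s := by
  apply σ_inj D
  have h1 : ((-s : 𝓞 F) : F) = -(s : F) := by
    rw [RingOfIntegers.coe_eq_algebraMap, map_neg]
  rw [D.conjσ, h1, map_neg, D.im]
  simp

lemma cj_t {t : 𝓞 F} (h : s = 2 * t) : cj t = -t := by
  have h1 := cj_s D
  rw [h, map_mul, map_ofNat] at h1
  have h2 : (2 : 𝓞 F) ≠ 0 := two_ne_zero
  apply mul_left_cancel₀ h2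
  rw [h1]
  ring

lemma cj_coords {t : 𝓞 F} (h : s = 2 * t) (a b : ℤ) :
    cj ((a : 𝓞 F) + b * t) = (a : 𝓞 F) - b * t := by
  rw [map_add, map_mul, map_intCast, map_intCast, cj_t D h]
  ring

lemma mul_cj_norm (x : 𝓞 F) : x * cj x = ((Algebra.norm ℤ x : ℤ) : 𝓞 F) := by
  obtain ⟨t, hs, ht, hx, hN⟩ := exists_t D
  obtain ⟨a, b, rfl⟩ := hx x
  rw [hN, cj_coords D hs]
  generalize q / 4 = n at *
  push_cast
  linear_combination (-(b : 𝓞 F) ^ 2) * ht

lemma norm_nonneg' (x : 𝓞 F) : 0 ≤ Algebra.norm ℤ x := by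
  obtain ⟨t, hs, ht, hx, hN⟩ := exists_t D
  obtain ⟨a, b, rfl⟩ := hx x
  rw [hN]
  positivity

lemma absNorm_eq (x : 𝓞 F) :
    ((Ideal.absNorm (Ideal.span {x}) : ℕ) : ℤ) = Algebra.norm ℤ x := by
  rw [Ideal.absNorm_span_singleton, Int.natAbs_of_nonneg (norm_nonneg' D x)]

lemma mul_cj (x : 𝓞 F) : x * cj x = (Ideal.absNorm (Ideal.span {x}) : 𝓞 F) := by
  rw [mul_cj_norm D, ← absNorm_eq D, Int.cast_natCast]

lemma normSq_eq (x : 𝓞 F) :
    Complex.normSq (σ x) = (Ideal.absNorm (Ideal.span {x}) : ℝ) := by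
  have h1 := congrArg (fun y : 𝓞 F => σ (y : F)) (mul_cj D x)
  simp only [map_mul, map_natCast] at h1
  have h2 := D.conjσ x
  rw [RingOfIntegers.coe_eq_algebraMap, RingOfIntegers.coe_eq_algebraMap] at h2
  rw [h2, Complex.mul_conj] at h1
  rw [RingOfIntegers.coe_eq_algebraMap]
  exact_mod_cast h1

lemma map_span (x : 𝓞 F) :
    (Ideal.span {x}).map (cj : 𝓞 F →+* 𝓞 F) = Ideal.span {cj x} := by
  rw [Ideal.map_span, Set.image_singleton]
  rfl

lemma mul_map (a : Ideal (𝓞 F)) :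
    a * a.map (cj : 𝓞 F →+* 𝓞 F) = Ideal.span {(Ideal.absNorm a : 𝓞 F)} := by
  classical
  by_cases ha : a = ⊥
  · subst ha
    simp
  have hmem : a ∈ (Ideal (𝓞 F))⁰ := mem_nonZeroDivisors_of_ne_zero ha
  set h := Fintype.card (ClassGroup (𝓞 F)) with hh
  have hpos : h ≠ 0 := Fintype.card_ne_zero
  have h1 : ClassGroup.mk0 (⟨a, hmem⟩ ^ h) = 1 := by
    rw [map_pow, hh, pow_card_eq_one]
  have h2 : (a ^ h).IsPrincipal := by
    have h3 := (ClassGroup.mk0_eq_one_iff (pow_mem hmem h)).mp h1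
    exact h3
  obtain ⟨x, hx⟩ := h2
  have hx' : a ^ h = Ideal.span {x} := hx
  have h4 : (a * a.map (cj : 𝓞 F →+* 𝓞 F)) ^ h =
      (Ideal.span {(Ideal.absNorm a : 𝓞 F)}) ^ h := by
    rw [mul_pow, ← Ideal.map_pow, hx', map_span D, Ideal.span_singleton_mul_span_singleton,
      mul_cj D, ← hx', map_pow, Ideal.span_singleton_pow]
    push_cast
    rfl
  apply dvd_antisymm
  · exact (UniqueFactorizationMonoid.pow_dvd_pow_iff_dvd hpos).mp h4.dvd
  · exact (UniqueFactorizationMonoid.pow_dvd_pow_iff_dvd hpos).mp h4.symm.dvd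

lemma units (x : 𝓞 F) (hx : IsUnit x) : x = 1 ∨ x = -1 := by
  obtain ⟨t, hs, ht, hx', hN⟩ := exists_t D
  obtain ⟨a, b, rfl⟩ := hx' x
  have h1 : Algebra.norm ℤ ((a : 𝓞 F) + b * t) = 1 := by
    rw [← absNorm_eq D, Ideal.span_singleton_eq_top.mpr hx, Ideal.absNorm_top, Nat.cast_one]
  rw [hN] at h1
  have hq : (2 : ℤ) ≤ (q / 4 : ℕ) := by
    have := (ev4 D).2.2.2
    omega
  have hb : b = 0 := by
    by_contra hb
    have h5 : 1 ≤ b ^ 2 := by
      have : 0 < b ^ 2 := by positivity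
      omega
    nlinarith [sq_nonneg a]
  subst hb
  have h6 : (a - 1) * (a + 1) = 0 := by linear_combination h1
  rcases mul_eq_zero.mp h6 with h7 | h7
  · left
    have : a = 1 := by omega
    subst this
    push_cast
    ring
  · right
    have : a = -1 := by omega
    subst this
    push_cast
    ring

lemma s_dvd {t : 𝓞 F} (hs : s = 2 * t) (ht : t ^ 2 = -((q / 4 : ℕ) : 𝓞 F))
    (hx : ∀ x : 𝓞 F, ∃ a b : ℤ, x = a + b * t)
    (hN : ∀ a b : ℤ, Algebra.norm ℤ ((a : 𝓞 F) + b * t) = a ^ 2 + (q / 4 : ℕ) * b ^ 2)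
    (a b : ℤ) : s ∣ (a : 𝓞 F) + b * t ↔ ((q / 2 : ℕ) : ℤ) ∣ a ∧ (2 : ℤ) ∣ b := by
  have h4 := (ev4 D).1
  have h42 : q / 2 = 2 * (q / 4) := by omega
  have hn := (ev4 D).2.2.2
  rw [h42]
  clear h42 h4
  generalize q / 4 = n at *
  constructor
  · rintro ⟨y, hy⟩
    obtain ⟨c, d, rfl⟩ := hx y
    have h1 : (((a + 2 * n * d : ℤ) : 𝓞 F)) + ((b - 2 * c : ℤ) : 𝓞 F) * t = 0 := by
      push_cast
      rw [hs] at hy
      linear_combination hy + (2 * (d : 𝓞 F)) * ht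
    have h2 := hN (a + 2 * n * d) (b - 2 * c)
    rw [h1, Algebra.norm_zero] at h2
    have h3 : (0 : ℤ) < n := by omega
    have h5 : b - 2 * c = 0 := by
      by_contra h
      have : 0 < (b - 2 * c) ^ 2 := by positivity
      have h6 := mul_pos h3 this
      nlinarith [sq_nonneg (a + 2 * n * d)]
    have h6 : a + 2 * n * d = 0 := by
      rw [h5] at h2
      have : (a + 2 * n * d) ^ 2 = 0 := by linarith
      exact pow_eq_zero_iff two_ne_zero |>.mp this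
    refine ⟨⟨-d, ?_⟩, ⟨c, by omega⟩⟩
    push_cast
    linear_combination h6
  · rintro ⟨⟨c, rfl⟩, ⟨d, rfl⟩⟩
    refine ⟨(d : 𝓞 F) - c * t, ?_⟩
    rw [hs]
    push_cast
    linear_combination (2 * (c : 𝓞 F)) * ht

end

end BasEAux

open BasEAux in
/-- Module H0. -/
theorem stBasE : StBasE := by
  intro q F _ _ s σ χ cj D
  obtain ⟨t, hs, ht, hx, hN⟩ := exists_t D
  have hdvd := s_dvd D hs ht hx hN
  have hsub : ∀ x : 𝓞 F, ∃ b : ℤ, x - cj x = s * b := by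
    intro x
    obtain ⟨a, b, rfl⟩ := hx x
    refine ⟨b, ?_⟩
    rw [cj_coords D hs, hs]
    ring
  refine ⟨⟨t, hs, ht, hx, hdvd, fun a b => ?_⟩, cj_cj D, cj_s D, ?_, mul_cj D, normSq_eq D,
    mul_map D, units D, ?_, ?_⟩
  · rw [absNorm_eq D, hN]
  · intro x
    obtain ⟨b, hb⟩ := hsub x
    exact ⟨_, hb⟩
  · intro n
    have := hdvd n 0
    rw [Int.cast_zero, zero_mul, add_zero] at this
    rw [this]
    exact ⟨fun h => h.1, fun h => ⟨h, dvd_zero _⟩⟩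
  · rintro x y ⟨z, hz⟩
    obtain ⟨b, hb⟩ := hsub (z * cj y)
    have hx' : x = y + s * z := by linear_combination hz
    have h1 : ((Algebra.norm ℤ x : ℤ) : 𝓞 F) =
        ((Algebra.norm ℤ y + q * (Algebra.norm ℤ z - b) : ℤ) : 𝓞 F) := by
      push_cast
      rw [← mul_cj_norm D x, ← mul_cj_norm D y, ← mul_cj_norm D z, hx', map_add, map_mul, cj_s D]
      rw [map_mul, cj_cj D] at hb
      linear_combination s * hb + ((b : 𝓞 F) - z * cj z) * D.sq
    have h2 : Algebra.norm ℤ x = Algebra.norm ℤ y + q * (Algebra.norm ℤ z - b) := by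
      exact_mod_cast h1
    have h3 : ((Ideal.absNorm (Ideal.span {x}) : ℕ) : ZMod q) =
        (((Ideal.absNorm (Ideal.span {x}) : ℕ) : ℤ) : ZMod q) := by push_cast; rfl
    have h4 : ((Ideal.absNorm (Ideal.span {y}) : ℕ) : ZMod q) =
        (((Ideal.absNorm (Ideal.span {y}) : ℕ) : ℤ) : ZMod q) := by push_cast; rfl
    rw [h3, h4, absNorm_eq D, absNorm_eq D, h2]
    push_cast
    simp

end RZ

end Pool.Agent.Lib.MP_7c08ba_nt
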