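import Pool.Agent.Lib.MP_7c08ba_nt.RZ.StH

set_option autoImplicit false

/-! (H38) the central value is a non-zero multiple of the square of the period, for every even
fundamental discriminant. -/

namespace Pool.Agent.Lib.MP_7c08ba_nt

namespace RZ

open NumberField MeasureTheory UpperHalfPlane Set IsDedekindDomain
open scoped MatrixGroups ComplexConjugate nonZeroDivisors

theorem stCenE (h1 : StW12) (h2 : StSpan) (h3 : StKer) (h4 : StDefo) (h5 : StRSatE)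
    (h6 : StJmE) (h7 : StRhoE) (h8 : StTTinvE) (h9 : StTripE) (h10 : StTTmatE) (h11 : StRepsE)
    (h12 : StPInvE) (h13 : StPsiE) (_h14 : StBasE) : StCenE := by
  intro D hD0 F _ _ s σ χ cj w r f ψ hD hf hψ
  obtain ⟨hw, hev⟩ := h1 w f hf
  obtain ⟨β, hβ0, hβ⟩ := h2 w f (by omega) hev
  have hker := h3 w f β hf hβ0 hβ
  obtain ⟨c, hcop⟩ := h11 D F _ _ s σ χ cj hD
  have hrs := h5 D hD0 F _ _ s σ χ cj w r f ψ c β hD (by omega) hev hβ0 hcop hβ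
  obtain ⟨ε, hε, hJ⟩ := h6 D hD0 F _ _ s σ χ cj w r ψ c hD (by omega) hev hcop
  have hP := (h12 D F _ _ s σ χ cj w r f ψ hD hψ (by omega)).2 c
  obtain ⟨-, hψn, hψc⟩ := h13 D F _ _ s σ χ cj (w + 2 * r) ψ hD hψ
  have hb : ∀ A, (c.R A : Ideal (𝓞 F)) ≠ ⊥ := fun A => nonZeroDivisors.coe_ne_zero (c.R A)
  have hN0 : ∀ A, (Ideal.absNorm (c.R A : Ideal (𝓞 F)) : ℂ) ≠ 0 := by
    intro A
    have := Ideal.absNorm_ne_zero_of_nonZeroDivisors (c.R A)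
    exact_mod_cast this
  have hψ0 : ∀ A, ψ (c.R A : Ideal (𝓞 F)) ≠ 0 := by
    intro A h
    have h13 := hψn _ (hb A)
    rw [h, norm_zero] at h13
    have h14 : ((Ideal.absNorm (c.R A : Ideal (𝓞 F)) : ℝ)) ≠ 0 := by exact_mod_cast hN0 A
    exact pow_ne_zero _ h14 (by rw [← h13]; norm_num)
  have hDpos : 0 < D := by
    have := hD.ev.1
    omega
  have hq : (D : ℂ) ≠ 0 := by exact_mod_cast hDpos.ne'
  have hsq : (Real.sqrt D : ℂ) ≠ 0 := by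
    have : Real.sqrt D ≠ 0 := Real.sqrt_ne_zero'.2 (by exact_mod_cast hDpos)
    exact_mod_cast this
  -- the sums over the classes
  have hsum : ∀ m : ℕ, 1 ≤ m → ∑ A : ClassGroup (𝓞 F), ∑ B : ClassGroup (𝓞 F),
      (ψ (c.R A : Ideal (𝓞 F)))⁻¹ *
        SSE D w r m σ (c.R A : Ideal (𝓞 F)) (c.R B : Ideal (𝓞 F)) =
      ∑ C : ClassGroup (𝓞 F), ∑ E : ClassGroup (𝓞 F),
        (2 * ((Complex.I * Real.sqrt D) ^ (w + 2 * r))⁻¹ * (D : ℂ) ^ (w + r)) *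
        (ψ (c.R C : Ideal (𝓞 F)) * ((Ideal.absNorm (c.R C : Ideal (𝓞 F)) : ℂ) ^ r)⁻¹) *
        ((ψ (c.R E : Ideal (𝓞 F)))⁻¹ * (Ideal.absNorm (c.R E : Ideal (𝓞 F)) : ℂ) ^ (w + r)) *
        XX w r m (σ (c.X C)) (σ (c.Y C)) (σ (c.X E)) (σ (c.Y E)) := by
    intro m hm
    have ht := h9 D hD0 F _ _ s σ χ cj c (fun (a b : Ideal (𝓞 F))
      (ρ : 𝓞 F ⧸ Ideal.span {s}) => (ψ a)⁻¹ * TTE D w r m s σ a b ρ) hD hcop
      (h8 D F _ _ s σ χ cj w r m ψ hD hψ)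
    have e0 : ∀ A B : ClassGroup (𝓞 F), (ψ (c.R A : Ideal (𝓞 F)))⁻¹ *
        SSE D w r m σ (c.R A : Ideal (𝓞 F)) (c.R B : Ideal (𝓞 F)) =
        (((Complex.I * Real.sqrt D) ^ (w + 2 * r))⁻¹ * (D : ℂ) ^ (w + r)) *
        ∑ᶠ ρ ∈ {ρ : 𝓞 F ⧸ Ideal.span {s} |
          RhoOK D s (c.R A : Ideal (𝓞 F)) (c.R B : Ideal (𝓞 F)) ρ},
          (ψ (c.R A : Ideal (𝓞 F)))⁻¹ *
            TTE D w r m s σ (c.R A : Ideal (𝓞 F)) (c.R B : Ideal (𝓞 F)) ρ := by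
      intro A B
      have e1 := (h7 D hD0 F _ _ s σ χ cj w r m (c.R A : Ideal (𝓞 F)) (c.R B : Ideal (𝓞 F)) hD
        (by omega) hm (hb A) (hb B) (hcop A) (hcop B)).2
      rw [e1, ← mul_assoc, mul_comm (ψ (c.R A : Ideal (𝓞 F)))⁻¹, mul_assoc]
      congr 1
      rw [← smul_eq_mul, smul_finsum]
      refine finsum_congr fun ρ => ?_
      rw [smul_finsum]
      rfl
    simp_rw [e0]
    simp_rw [← Finset.mul_sum]
    rw [ht, Finset.mul_sum, Finset.mul_sum]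
    refine Finset.sum_congr rfl fun C _ => ?_
    rw [Finset.mul_sum, Finset.mul_sum]
    refine Finset.sum_congr rfl fun E _ => ?_
    have e4 := h10 D F _ _ s σ χ cj w r m (c.R C : Ideal (𝓞 F)) (c.R E : Ideal (𝓞 F))
      (c.X C) (c.Y C) (c.X E) (c.Y E) hD (by omega) hm (c.bas C) (c.bas E) (hb C) (hb E)
      (hcop C) (hcop E)
    rw [mul_pow] at e4
    rw [e4, map_mul]
    have e7 := hψc _ (hb C)
    have e8 : (ψ ((c.R C : Ideal (𝓞 F)).map (cj : 𝓞 F →+* 𝓞 F)))⁻¹ =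
        ψ (c.R C : Ideal (𝓞 F)) *
          ((Ideal.absNorm (c.R C : Ideal (𝓞 F)) : ℂ) ^ (w + 2 * r))⁻¹ := by
      rw [← e7, mul_inv, ← mul_assoc, mul_inv_cancel₀ (hψ0 C), one_mul]
    rw [mul_inv, e8]
    have e9 : (Ideal.absNorm (c.R C : Ideal (𝓞 F)) : ℂ) ^ (w + 2 * r) =
        (Ideal.absNorm (c.R C : Ideal (𝓞 F)) : ℂ) ^ (w + r) *
          (Ideal.absNorm (c.R C : Ideal (𝓞 F)) : ℂ) ^ r := by
      rw [← pow_add]
      congr 1
      ring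
    rw [e9, mul_inv ((Ideal.absNorm (c.R C : Ideal (𝓞 F)) : ℂ) ^ (w + r))]
    have e10 : (Ideal.absNorm (c.R C : Ideal (𝓞 F)) : ℂ) ^ (w + r) ≠ 0 := pow_ne_zero _ (hN0 C)
    field_simp
  -- the kernel identity
  have hS : ∀ C E : ClassGroup (𝓞 F), (∑ m ∈ β.support, β m *
      XX w r m (σ (c.X C)) (σ (c.Y C)) (σ (c.X E)) (σ (c.Y E))) =
      (((w + r - 1).choose r : ℂ)⁻¹ * ((-1) ^ r * (2 * Cw w))) *
        lfr f r (σ (c.X C)) (σ (c.Y C)) *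
        lfr f r (-conj (σ (c.X E))) (conj (σ (c.Y E))) := by
    intro C E
    have e1 := (h4 w r f β (σ (c.X C)) (σ (c.Y C)) (σ (c.X E)) (σ (c.Y E)) (by omega) hβ0 hker
      (c.bas C).pos (c.bas E).pos).2
    have e2 : ((w + r - 1).choose r : ℂ) ≠ 0 := by
      have : (w + r - 1).choose r ≠ 0 := (Nat.choose_pos (by omega)).ne'
      exact_mod_cast this
    have e3 : (∑ m ∈ β.support, β m *
      XX w r m (σ (c.X C)) (σ (c.Y C)) (σ (c.X E)) (σ (c.Y E))) *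
        ((w + r - 1).choose r : ℂ) = (-1) ^ r * (2 * Cw w) * lfr f r (σ (c.X C)) (σ (c.Y C)) *
        lfr f r (-conj (σ (c.X E))) (conj (σ (c.Y E))) := e1
    rw [eq_comm, mul_assoc, mul_assoc, inv_mul_eq_iff_eq_mul₀ e2, mul_comm _ (Finset.sum _ _), e3]
    ring
  set K0 : ℂ := 1 / 2 * ε * (Real.pi / Real.sqrt D) * ((w + r - 1).factorial : ℂ) *
        ((4 * Real.pi : ℂ) ^ (w + r))⁻¹ with hK0
  set K2 : ℂ := 2 * ((Complex.I * Real.sqrt D) ^ (w + 2 * r))⁻¹ * (D : ℂ) ^ (w + r) with hK2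
  set K3 : ℂ := ((w + r - 1).choose r : ℂ)⁻¹ * ((-1) ^ r * (2 * Cw w)) with hK3
  refine ⟨c, K0 * K2 * K3, ?_, hcop, ?_⟩
  · have hε0 : ε ≠ 0 := by
      rcases hε with h | h <;> rw [h] <;> norm_num
    have hπ : (Real.pi : ℂ) ≠ 0 := by exact_mod_cast Real.pi_ne_zero
    have hch : ((w + r - 1).choose r : ℂ) ≠ 0 := by
      have : (w + r - 1).choose r ≠ 0 := (Nat.choose_pos (by omega)).ne'
      exact_mod_cast this
    have hfac : ∀ n : ℕ, (n.factorial : ℂ) ≠ 0 := fun n => by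
      exact_mod_cast n.factorial_ne_zero
    have hI := Complex.I_ne_zero
    have hCw : Cw w ≠ 0 := by
      unfold Cw
      refine div_ne_zero (pow_ne_zero _ ?_) (hfac _)
      exact mul_ne_zero (mul_ne_zero two_ne_zero hπ) hI
    have a1 : K0 ≠ 0 := by
      rw [hK0]
      refine mul_ne_zero (mul_ne_zero (mul_ne_zero (mul_ne_zero (by norm_num) hε0)
        (div_ne_zero hπ hsq)) (hfac _)) (inv_ne_zero (pow_ne_zero _ ?_))
      exact mul_ne_zero (by norm_num) hπ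
    have a2 : K2 ≠ 0 := by
      rw [hK2]
      exact mul_ne_zero (mul_ne_zero two_ne_zero (inv_ne_zero (pow_ne_zero _
        (mul_ne_zero hI hsq)))) (pow_ne_zero _ hq)
    have a3 : K3 ≠ 0 := by
      rw [hK3]
      exact mul_ne_zero (inv_ne_zero hch) (mul_ne_zero (pow_ne_zero _ (by norm_num))
        (mul_ne_zero two_ne_zero hCw))
    exact mul_ne_zero (mul_ne_zero a1 a2) a3
  · rw [hrs]
    unfold Finsupp.sum
    have e1 : ∀ m ∈ β.support, β m * JJ w m (trE D w (HH D χ w r ψ c (-r))) =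
        ∑ C : ClassGroup (𝓞 F), ∑ E : ClassGroup (𝓞 F), K0 * (K2 *
        (ψ (c.R C : Ideal (𝓞 F)) * ((Ideal.absNorm (c.R C : Ideal (𝓞 F)) : ℂ) ^ r)⁻¹) *
        ((ψ (c.R E : Ideal (𝓞 F)))⁻¹ * (Ideal.absNorm (c.R E : Ideal (𝓞 F)) : ℂ) ^ (w + r))) *
        (β m * XX w r m (σ (c.X C)) (σ (c.Y C)) (σ (c.X E)) (σ (c.Y E))) := by
      intro m hm
      have hm1 : 1 ≤ m := by
        rcases Nat.eq_zero_or_pos m with rfl | h
        · exact absurd hβ0 (Finsupp.mem_support_iff.1 hm)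
        · exact h
      rw [hJ m hm1, hsum m hm1, Finset.mul_sum, Finset.mul_sum]
      refine Finset.sum_congr rfl fun C _ => ?_
      rw [Finset.mul_sum, Finset.mul_sum]
      refine Finset.sum_congr rfl fun E _ => ?_
      ring
    rw [Finset.sum_congr rfl e1, Finset.sum_comm]
    have e2 : ∀ C : ClassGroup (𝓞 F), ∑ m ∈ β.support, ∑ E : ClassGroup (𝓞 F), K0 * (K2 *
        (ψ (c.R C : Ideal (𝓞 F)) * ((Ideal.absNorm (c.R C : Ideal (𝓞 F)) : ℂ) ^ r)⁻¹) *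
        ((ψ (c.R E : Ideal (𝓞 F)))⁻¹ * (Ideal.absNorm (c.R E : Ideal (𝓞 F)) : ℂ) ^ (w + r))) *
        (β m * XX w r m (σ (c.X C)) (σ (c.Y C)) (σ (c.X E)) (σ (c.Y E))) =
        ∑ E : ClassGroup (𝓞 F), K0 * K2 * K3 *
          ((ψ (c.R C : Ideal (𝓞 F)) * ((Ideal.absNorm (c.R C : Ideal (𝓞 F)) : ℂ) ^ r)⁻¹ *
            lfr f r (σ (c.X C)) (σ (c.Y C))) *
          ((ψ (c.R E : Ideal (𝓞 F)))⁻¹ * (Ideal.absNorm (c.R E : Ideal (𝓞 F)) : ℂ) ^ (w + r) *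
            lfr f r (-conj (σ (c.X E))) (conj (σ (c.Y E))))) := by
      intro C
      rw [Finset.sum_comm]
      refine Finset.sum_congr rfl fun E _ => ?_
      rw [← Finset.mul_sum, hS C E]
      ring
    rw [Finset.sum_congr rfl fun C _ => e2 C]
    simp_rw [← Finset.mul_sum]
    rw [← Finset.sum_mul, hP, sq]
    rfl

end RZ

end Pool.Agent.Lib.MP_7c08ba_nt
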