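import Mathlib
import Pool.Agent.Lib.MP_7c08ba_nt.RZ.StH

set_option autoImplicit false

/-!
The odd quadratic character of even conductor `D`, as a Jacobi symbol.
-/

namespace Pool.Agent.Lib.MP_7c08ba_nt

namespace RZ

namespace ChiEAux

open NumberTheorySymbols

lemma kr_of_odd (D : ℕ) {a : ℕ} (h : Odd a) :
    kr D a = jacobiSym (-((D / 4 : ℕ) : ℤ)) a := by
  rw [kr, if_neg (Nat.not_even_iff_odd.2 h)]

lemma kr_of_even (D : ℕ) {a : ℕ} (h : Even a) : kr D a = 0 := by
  rw [kr, if_pos h]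

lemma four_mul {D : ℕ} (hD : EvD D) : D = 4 * (D / 4) := by
  obtain ⟨-, n, hn, -⟩ := hD
  omega

lemma kr_mod {D : ℕ} (hD : EvD D) (a : ℕ) : kr D (a % D) = kr D a := by
  have h4 := four_mul hD
  have h2 : a % D % 2 = a % 2 := Nat.mod_mod_of_dvd a ⟨2 * (D / 4), by omega⟩
  rcases Nat.even_or_odd a with ha | ha
  · rw [kr_of_even D ha, kr_of_even]
    rw [Nat.even_iff] at ha ⊢
    omega
  · have ha' : Odd (a % D) := by
      rw [Nat.odd_iff] at ha ⊢
      omega
    rw [kr_of_odd D ha, kr_of_odd D ha', jacobiSym.mod_right _ ha, Int.natAbs_neg,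
      Int.natAbs_natCast, ← h4]

lemma kr_one (D : ℕ) : kr D 1 = 1 := by
  rw [kr_of_odd D odd_one, jacobiSym.one_right]

lemma kr_mul (D : ℕ) (a b : ℕ) : kr D (a * b) = kr D a * kr D b := by
  rcases Nat.even_or_odd a with ha | ha
  · rw [kr_of_even D (ha.mul_right b), kr_of_even D ha, zero_mul]
  rcases Nat.even_or_odd b with hb | hb
  · rw [kr_of_even D (hb.mul_left a), kr_of_even D hb, mul_zero]
  rw [kr_of_odd D (ha.mul hb), kr_of_odd D ha, kr_of_odd D hb,
    jacobiSym.mul_right' _ ha.pos.ne' hb.pos.ne']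

lemma kr_zero {D : ℕ} (hD : EvD D) {a : ℕ} (h : ¬ a.Coprime D) : kr D a = 0 := by
  rcases Nat.even_or_odd a with ha | ha
  · exact kr_of_even D ha
  rw [kr_of_odd D ha, jacobiSym.eq_zero_iff]
  refine ⟨ha.pos.ne', fun h1 => h ?_⟩
  rw [Int.neg_gcd, Int.gcd_natCast_natCast] at h1
  rw [four_mul hD]
  have h2 : a.Coprime 2 := ha.coprime_two_right
  refine Nat.Coprime.mul_right ?_ (Nat.coprime_comm.1 h1)
  have : (4 : ℕ) = 2 * 2 := rfl
  rw [this]
  exact h2.mul_right h2

/-- The character. -/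
noncomputable def chi (D : ℕ) [NeZero D] (hD : EvD D) : DirichletCharacter ℂ D where
  toFun x := (kr D x.val : ℂ)
  map_one' := by
    rw [ZMod.val_one_eq_one_mod, kr_mod hD, kr_one, Int.cast_one]
  map_mul' x y := by
    rw [ZMod.val_mul, kr_mod hD, kr_mul, Int.cast_mul]
  map_nonunit' x hx := by
    rw [kr_zero hD, Int.cast_zero]
    intro h
    apply hx
    rw [← ZMod.natCast_zmod_val x]
    exact (ZMod.isUnit_iff_coprime _ _).2 h

lemma chi_nat (D : ℕ) [NeZero D] (hD : EvD D) (a : ℕ) :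
    chi D hD (a : ZMod D) = (kr D a : ℂ) := by
  change ((kr D (a : ZMod D).val : ℤ) : ℂ) = _
  rw [ZMod.val_natCast, kr_mod hD]

lemma chi_val (D : ℕ) [NeZero D] (hD : EvD D) (a : ZMod D) :
    chi D hD a = (kr D a.val : ℂ) := rfl

/-- A character which factors through a divisor is one on the numbers `1` modulo the divisor. -/
lemma factors {D : ℕ} (χ : DirichletCharacter ℂ D) {c : ℕ} (hc : χ.FactorsThrough c) {a : ℕ}
    (ha : a.Coprime D) (h1 : a ≡ 1 [MOD c]) : χ (a : ZMod D) = 1 := by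
  have h2 := DirichletCharacter.changeLevel_eq_cast_of_dvd' hc.χ₀ hc.dvd (a := (a : ℤ))
    (Nat.isCoprime_iff_coprime.2 ha)
  rw [← hc.eq_changeLevel] at h2
  have h3 : (((a : ℕ) : ℤ) : ZMod c) = 1 := by
    have := (ZMod.natCast_eq_natCast_iff a 1 c).2 h1
    push_cast at this ⊢
    exact this
  rw [h3, map_one] at h2
  exact_mod_cast h2

/-- The value at `2 n + 1`, where `D = 4 n`. -/
lemma kr_half {D n : ℕ} (hD : D = 4 * n) (hn : 0 < n) (h : n % 4 = 1 ∨ n % 4 = 2) :
    kr D (2 * n + 1) = -1 := by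
  have hodd : Odd (2 * n + 1) := ⟨n, rfl⟩
  have hDn : D / 4 = n := by omega
  rw [kr_of_odd D hodd, hDn]
  rcases h with h | h
  · have h3 : (2 * n + 1) % 4 = 3 := by omega
    rw [jacobiSym.neg _ hodd, ZMod.χ₄_nat_three_mod_four h3,
      jacobiSym.quadratic_reciprocity_one_mod_four h hodd]
    have h4 : jacobiSym (((2 * n + 1 : ℕ) : ℤ)) n = jacobiSym 1 n := by
      refine jacobiSym.mod_left' ?_
      push_cast
      rw [show (2 * (n : ℤ) + 1) = 1 + n * 2 by ring, Int.add_mul_emod_self_left]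
    rw [h4, jacobiSym.one_left]
    norm_num
  · obtain ⟨n', rfl⟩ : ∃ n', n = 2 * n' := ⟨n / 2, by omega⟩
    have h5 : (2 * (2 * n') + 1) % 8 = 5 := by omega
    have h6 := jacobiSym.even_odd (a := -((2 * n' : ℕ) : ℤ)) (b := 2 * (2 * n') + 1)
      (by push_cast; omega) (by omega)
    rw [if_pos (Or.inr h5)] at h6
    rw [← h6]
    have h7 : -((2 * n' : ℕ) : ℤ) / 2 = -(n' : ℤ) := by push_cast; omega
    rw [h7, jacobiSym.mod_right _ hodd, Int.natAbs_neg, Int.natAbs_natCast]
    have h8 : (2 * (2 * n') + 1) % (4 * n') = 1 := by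
      rw [show 2 * (2 * n') + 1 = 1 + 4 * n' by ring, Nat.add_mod_right, Nat.mod_eq_of_lt]
      omega
    rw [h8, jacobiSym.one_right]

/-- The value at `D - 1`. -/
lemma kr_neg_one {D : ℕ} (hD : EvD D) : kr D (D - 1) = -1 := by
  have h4 := four_mul hD
  have hD4 := hD.1
  set n := D / 4 with hn
  have hb : (D - 1) % 4 = 3 := by omega
  have hodd : Odd (D - 1) := by
    rw [Nat.odd_iff]
    omega
  rw [kr_of_odd D hodd, ← hn, jacobiSym.neg _ hodd, ZMod.χ₄_nat_three_mod_four hb]
  have h1 : jacobiSym (4 * (n : ℤ)) (D - 1) = jacobiSym (n : ℤ) (D - 1) := by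
    rw [jacobiSym.mul_left, jacobiSym.at_four hodd, one_mul]
  have h2 : jacobiSym (4 * (n : ℤ)) (D - 1) = jacobiSym 1 (D - 1) := by
    refine jacobiSym.mod_left' ?_
    have : (4 * (n : ℤ)) = 1 + ((D - 1 : ℕ) : ℤ) := by
      rw [Nat.cast_sub (by omega)]
      push_cast
      have : (D : ℤ) = 4 * n := by exact_mod_cast h4
      rw [this]
      ring
    rw [this, Int.add_emod_right]
  rw [← h1, h2, jacobiSym.one_left]
  norm_num

/-- For every prime divisor `p` of `D` there is a number which is `1` modulo `D / p` with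
value `-1`. -/
lemma exists_neg {D : ℕ} (hD : EvD D) {p : ℕ} (hp : p.Prime) (hpD : p ∣ D) :
    ∃ a : ℕ, a.Coprime D ∧ a ≡ 1 [MOD D / p] ∧ kr D a = -1 := by
  obtain ⟨hD4, n, hn, hsq, hmod⟩ := hD
  have hD' : EvD D := ⟨hD4, n, hn, hsq, hmod⟩
  have hn0 : 0 < n := by omega
  by_cases hp2 : p = 2
  · subst hp2
    refine ⟨2 * n + 1, ?_, ?_, kr_half hn hn0 hmod⟩
    · by_contra h
      have h1 := kr_zero hD' h
      rw [kr_half hn hn0 hmod] at h1
      norm_num at h1
    · have : D / 2 = 2 * n := by omega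
      rw [this, Nat.ModEq, Nat.add_mod_left]
  · have hpodd : Odd p := hp.odd_of_ne_two hp2
    have hp4 : p.Coprime 4 := by
      rw [show (4 : ℕ) = 2 * 2 from rfl]
      exact hpodd.coprime_two_right.mul_right hpodd.coprime_two_right
    have hpn : p ∣ n := hp4.dvd_of_dvd_mul_left (hn ▸ hpD)
    obtain ⟨n', rfl⟩ := hpn
    have hn'0 : 0 < n' := Nat.pos_of_mul_pos_left hn0
    have hpn' : ¬ p ∣ n' := by
      rintro ⟨k, rfl⟩
      have := hsq p ⟨k, by ring⟩
      exact hp.one_lt.ne' (Nat.isUnit_iff.1 this)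
    have hcop : (4 * n').Coprime p :=
      Nat.Coprime.mul_left hp4.symm ((Nat.Prime.coprime_iff_not_dvd hp).2 hpn').symm
    have : Fact p.Prime := ⟨hp⟩
    obtain ⟨r, hr⟩ := FiniteField.exists_nonsquare (F := ZMod p) (by
      rw [ZMod.ringChar_zmod_n]
      exact hp2)
    obtain ⟨a, ha1, ha2⟩ := Nat.chineseRemainder hcop 1 r.val
    have hDp : D / p = 4 * n' := by
      rw [hn, show 4 * (p * n') = 4 * n' * p by ring, Nat.mul_div_cancel _ hp.pos]
    have hDq : D / 4 = p * n' := by omega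
    have ha4 : a % 4 = 1 := by
      have h1 : a ≡ 1 [MOD 4] := ha1.of_dvd ⟨n', rfl⟩
      exact h1
    have haodd : Odd a := by
      rw [Nat.odd_iff]
      omega
    have hk : kr D a = -1 := by
      rw [kr_of_odd D haodd, hDq]
      have e1 : -((p * n' : ℕ) : ℤ) = -(n' : ℤ) * p := by
        push_cast
        ring
      rw [e1, jacobiSym.mul_left]
      have e2 : jacobiSym (-(n' : ℤ)) a = 1 := by
        rw [jacobiSym.mod_right _ haodd, Int.natAbs_neg, Int.natAbs_natCast]
        have : a % (4 * n') = 1 := by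
          have h2 : a % (4 * n') = 1 % (4 * n') := ha1
          rw [h2, Nat.mod_eq_of_lt]
          omega
        rw [this, jacobiSym.one_right]
      have e3 : jacobiSym (p : ℤ) a = -1 := by
        rw [jacobiSym.quadratic_reciprocity_one_mod_four' hpodd ha4,
          ← jacobiSym.legendreSym.to_jacobiSym, legendreSym.eq_neg_one_iff]
        have : (((a : ℕ) : ℤ) : ZMod p) = r := by
          have h2 := (ZMod.natCast_eq_natCast_iff a r.val p).2 ha2
          rw [ZMod.natCast_zmod_val] at h2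
          push_cast
          exact h2
        rw [this]
        exact hr
      rw [e2, e3, one_mul]
    refine ⟨a, ?_, ?_, hk⟩
    · by_contra h
      have h1 := kr_zero hD' h
      rw [hk] at h1
      norm_num at h1
    · rw [hDp]
      exact ha1

end ChiEAux

open ChiEAux in
theorem stChiE : StChiE := by
  intro D _ hD
  refine ⟨chi D hD, ⟨?_, ?_, ?_⟩, chi_nat D hD⟩
  · rw [DirichletCharacter.isPrimitive_def]
    by_contra hne
    have hft := DirichletCharacter.factorsThrough_conductor (chi D hD)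
    have hdvd := DirichletCharacter.conductor_dvd_level (chi D hD)
    generalize (chi D hD).conductor = c at hne hft hdvd
    obtain ⟨e, he⟩ := hdvd
    have he1 : e ≠ 1 := by
      rintro rfl
      rw [mul_one] at he
      exact hne he.symm
    obtain ⟨p, hp, f, hf⟩ := Nat.exists_prime_and_dvd he1
    have hpD : D = c * f * p := by
      rw [hf] at he
      linarith
    obtain ⟨a, ha1, ha2, ha3⟩ := exists_neg hD hp ⟨c * f, by linarith⟩
    have hc : c ∣ D / p := ⟨f, by
      conv_lhs => rw [hpD]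
      rw [Nat.mul_div_cancel _ hp.pos]⟩
    have h1 := factors (chi D hD) hft ha1 (ha2.of_dvd hc)
    rw [chi_nat, ha3] at h1
    norm_num at h1
  · have h1 : ((-1 : ZMod D)) = ((D - 1 : ℕ) : ZMod D) := by
      have h4 := hD.1
      rw [Nat.cast_sub (by omega), Nat.cast_one, CharP.cast_eq_zero, zero_sub]
    rw [h1, chi_nat, kr_neg_one hD]
    norm_num
  · intro a
    rw [chi_val]
    unfold kr
    split_ifs
    · left; norm_num
    · rcases jacobiSym.trichotomy (-((D / 4 : ℕ) : ℤ)) a.val with h | h | h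
      · left; rw [h]; norm_num
      · right; left; rw [h]; norm_num
      · right; right; rw [h]; norm_num

end RZ

end Pool.Agent.Lib.MP_7c08ba_nt
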