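import Mathlib
import Pool.Agent.Lib.MP_7c08ba_nt.RZ.StH
import Pool.Agent.Lib.MP_7c08ba_nt.RZ.Count

set_option autoImplicit false

/-!
(H11) the number of ideals of given norm in the imaginary quadratic field of even discriminant.
-/

namespace Pool.Agent.Lib.MP_7c08ba_nt

namespace RZ

open NumberField
open scoped nonZeroDivisors

namespace CountEAux

lemma kr_one (D : ℕ) : kr D 1 = 1 := by
  simp [kr]

lemma kr_mul (D m n : ℕ) : kr D (m * n) = kr D m * kr D n := by
  unfold kr
  rcases Nat.even_or_odd m with hm | hm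
  · rw [if_pos (hm.mul_right n), if_pos hm, zero_mul]
  rcases Nat.even_or_odd n with hn | hn
  · rw [if_pos (hn.mul_left m), if_pos hn, mul_zero]
  rw [if_neg (Nat.not_even_iff_odd.mpr (hm.mul hn)), if_neg (Nat.not_even_iff_odd.mpr hm),
    if_neg (Nat.not_even_iff_odd.mpr hn)]
  haveI : NeZero m := ⟨hm.pos.ne'⟩
  haveI : NeZero n := ⟨hn.pos.ne'⟩
  exact jacobiSym.mul_right _ _ _

lemma kr_pow (D p : ℕ) (i : ℕ) : kr D (p ^ i) = kr D p ^ i := by
  induction i with
  | zero => rw [pow_zero, pow_zero, kr_one]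
  | succ i ih => rw [pow_succ, kr_mul, ih, pow_succ]

lemma kr_tri (D a : ℕ) : kr D a = 0 ∨ kr D a = 1 ∨ kr D a = -1 := by
  unfold kr
  split_ifs
  · exact Or.inl rfl
  · exact jacobiSym.trichotomy _ _

/-- the symbol as an arithmetic function -/
noncomputable def kra (D : ℕ) : ArithmeticFunction ℤ :=
  ⟨fun n => if n = 0 then 0 else kr D n, by simp⟩

lemma kra_apply {D n : ℕ} (hn : n ≠ 0) : kra D n = kr D n := by
  change (if n = 0 then 0 else kr D n) = _
  rw [if_neg hn]

lemma kra_mult (D : ℕ) : (kra D).IsMultiplicative := by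
  refine ⟨?_, ?_⟩
  · rw [kra_apply one_ne_zero, kr_one]
  · intro m n _
    rcases eq_or_ne m 0 with rfl | hm
    · simp
    rcases eq_or_ne n 0 with rfl | hn
    · simp
    rw [kra_apply hm, kra_apply hn, kra_apply (mul_ne_zero hm hn), kr_mul]

lemma sum_kr {D n : ℕ} : ∑ d ∈ n.divisors, kr D d =
    (kra D * (ArithmeticFunction.zeta : ArithmeticFunction ℤ)) n := by
  rw [ArithmeticFunction.coe_mul_zeta_apply]
  refine Finset.sum_congr rfl fun d hd => ?_
  rw [kra_apply]
  exact (Nat.pos_of_mem_divisors hd).ne'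

end CountEAux

open CountAux CountEAux in
/-- (H11) the number of ideals of given norm -/
theorem stCountE (h1 : StBasE) (h2 : StSplitE) : StCountE := by
  intro D F iF iN s σ χ cj hD n
  have _ := h1
  induction n using Nat.recOnPosPrimePosCoprime with
  | prime_pow p k hp hk =>
    intro _
    obtain ⟨g1, g2, g3⟩ := h2 D F iF iN s σ χ cj hD p hp
    rw [Nat.sum_divisors_prime_pow hp]
    simp only [kr_pow]
    rcases kr_tri D p with h | h | h
    · obtain ⟨-, P, h3, h4, h5⟩ := g3 h
      rw [card_power hp h3 h4 (f := 1) (by rw [h5, pow_one]) k one_ne_zero, h,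
        Finset.sum_range_succ']
      simp
    · obtain ⟨P, P', h3, h4, h5, h6, h7, h8⟩ := g1 h
      rw [card_split hp h3 h4 h5 h6 h7 h8, h]
      simp
    · obtain ⟨h3, h4⟩ := g2 h
      rw [card_power hp h3 (pow_one _) h4 k two_ne_zero, h]
      rcases Nat.even_or_odd k with hk' | hk'
      · rw [if_pos hk'.two_dvd, Finset.sum_range_succ, hk'.neg_one_pow]
        rw [Finset.sum_congr rfl fun _ _ => rfl, ← Nat.succ_pred_eq_of_pos hk]
        have := neg_one_geom_sum (R := ℤ) (n := k)
        rw [if_pos hk'] at this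
        simp only [Nat.succ_eq_add_one, Nat.pred_eq_sub_one, Nat.sub_add_cancel hk]
        rw [this]
        simp
      · rw [if_neg (by rw [← even_iff_two_dvd]; exact Nat.not_even_iff_odd.mpr hk')]
        have := neg_one_geom_sum (R := ℤ) (n := k + 1)
        rw [if_pos (by rw [Nat.even_add_one]; exact Nat.not_even_iff_odd.mpr hk')] at this
        rw [this]
        simp
  | zero => intro h; omega
  | one =>
    intro _
    have h3 : Nat.card {b : Ideal (𝓞 F) // Ideal.absNorm b = 1} = 1 := by
      rw [Nat.card_eq_one_iff_unique]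
      refine ⟨⟨?_⟩, ⟨⟨⊤, by simp⟩⟩⟩
      rintro ⟨b, hb⟩ ⟨b', hb'⟩
      rw [Ideal.absNorm_eq_one_iff] at hb hb'
      subst hb hb'
      rfl
    rw [h3]
    simp [kr_one]
  | coprime a b ha hb hab iha ihb =>
    intro _
    rw [card_mul (by omega) (by omega) hab]
    push_cast
    rw [iha (by omega), ihb (by omega)]
    simp only [sum_kr]
    rw [((kra_mult D).mul ArithmeticFunction.isMultiplicative_zeta.natCast).map_mul_of_coprime hab]

end RZ

end Pool.Agent.Lib.MP_7c08ba_nt
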