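import Pool.Agent.Lib.MP_7c08ba_nt.RZ.EisA
import Pool.Agent.Lib.MP_7c08ba_nt.RZ.StH

set_option autoImplicit false

/-!
(H13) convergence of the Eisenstein series with an odd primitive real character of conductor `D`.
-/

namespace Pool.Agent.Lib.MP_7c08ba_nt

namespace RZ

open NumberField MeasureTheory UpperHalfPlane Set
open scoped MatrixGroups ComplexConjugate nonZeroDivisors

namespace EisAQaux

lemma chi_ne_one {D : ℕ} {χ : DirichletCharacter ℂ D} (hD : QC D χ) : χ ≠ 1 := by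
  intro h
  have h1 := hD.odd
  rw [h, MulChar.one_apply isUnit_one.neg] at h1
  norm_num at h1

end EisAQaux

open EisAaux in
theorem stEisAQ : StEisAQ := by
  intro q _ χ r hq
  have hχ : χ ≠ 1 := EisAQaux.chi_ne_one hq
  have hL : Differentiable ℂ (DirichletCharacter.LFunction χ) :=
    DirichletCharacter.differentiable_LFunction hχ
  refine ⟨?_, ?_, ?_, ?_⟩
  · -- holomorphy
    intro u hu s hs
    rw [mem_ofPred_eq] at hs
    refine DifferentiableAt.differentiableWithinAt ?_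
    obtain ⟨σ₀, h1, h3⟩ := exists_between hs
    have hO : IsOpen {s' : ℂ | σ₀ < s'.re ∧ ‖s'‖ < ‖s‖ + 1} :=
      (isOpen_lt continuous_const Complex.continuous_re).inter
        (isOpen_lt continuous_norm continuous_const)
    have hmem : s ∈ {s' : ℂ | σ₀ < s'.re ∧ ‖s'‖ < ‖s‖ + 1} := ⟨h3, by linarith⟩
    have hsum : Summable fun p : ℕ × ℤ => Ku q r (‖s‖ + 1) (Xu u) *
        Np p ^ (-(2 * (r : ℝ) + 3 + 2 * σ₀)) := (summable_Np (by linarith)).mul_left _
    have h4 : DifferentiableOn ℂ (fun s' => ∑' p : ℕ × ℤ, dE q χ r s' (zp q p u))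
        {s' : ℂ | σ₀ < s'.re ∧ ‖s'‖ < ‖s‖ + 1} := by
      refine Complex.differentiableOn_tsum_of_summable_norm hsum ?_ hO ?_
      · intro p
        exact (diff_dE r (zp_im p hu)).differentiableOn
      · intro p s' hs'
        exact unif_bound hχ r h1 hs'.1.le hs'.2.le hu p
    have h5 : DifferentiableAt ℂ (fun s' => ∑' p : ℕ × ℤ, dE q χ r s' (zp q p u)) s :=
      (h4 s hmem).differentiableAt (hO.mem_nhds hmem)
    have h6 : DifferentiableAt ℂ
        (fun s' : ℂ => DirichletCharacter.LFunction χ (2 * r + 1 + 2 * s')) s :=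
      DifferentiableAt.comp s (hL _) (by fun_prop)
    have h7 : DifferentiableAt ℂ (fun s' : ℂ => ((u.im : ℝ) : ℂ) ^ s') s :=
      differentiableAt_id.const_cpow (Or.inl (by exact_mod_cast hu.ne'))
    exact h7.mul (h6.add h5)
  · -- summability
    intro s u hs hu
    have hsum : Summable fun p : ℕ × ℤ => Ku q r ‖s‖ (Xu u) *
        Np p ^ (-(2 * (r : ℝ) + 3 + 2 * s.re)) := (summable_Np (by linarith)).mul_left _
    exact Summable.of_nonneg_of_le (fun p => norm_nonneg _)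
      (fun p => unif_bound hχ r hs le_rfl le_rfl hu p) hsum
  · -- continuity
    intro s hs u₀ hu₀
    rw [mem_ofPred_eq] at hu₀
    refine ContinuousAt.continuousWithinAt ?_
    have hO : IsOpen {u : ℂ | u₀.im / 2 < u.im ∧ ‖u‖ < ‖u₀‖ + 1} :=
      (isOpen_lt continuous_const Complex.continuous_im).inter
        (isOpen_lt continuous_norm continuous_const)
    have hmem : u₀ ∈ {u : ℂ | u₀.im / 2 < u.im ∧ ‖u‖ < ‖u₀‖ + 1} :=
      ⟨by linarith, by linarith⟩
    have hX : ∀ u ∈ {u : ℂ | u₀.im / 2 < u.im ∧ ‖u‖ < ‖u₀‖ + 1},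
        Xu u ≤ (1 + (‖u₀‖ + 1) ^ 2) / (u₀.im / 2) := by
      intro u hu
      unfold Xu
      have h1 : ‖u‖ ^ 2 ≤ (‖u₀‖ + 1) ^ 2 := pow_le_pow_left₀ (norm_nonneg _) hu.2.le 2
      exact div_le_div₀ (by positivity) (by linarith) (by positivity) hu.1.le
    have hpos : ∀ u ∈ {u : ℂ | u₀.im / 2 < u.im ∧ ‖u‖ < ‖u₀‖ + 1}, 0 < u.im := by
      intro u hu
      have : 0 < u₀.im / 2 := by positivity
      exact this.trans hu.1
    have hsum : Summable fun p : ℕ × ℤ => Ku q r ‖s‖ ((1 + (‖u₀‖ + 1) ^ 2) / (u₀.im / 2)) *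
        Np p ^ (-(2 * (r : ℝ) + 3 + 2 * s.re)) := (summable_Np (by linarith)).mul_left _
    have h4 : ContinuousOn (fun u => ∑' p : ℕ × ℤ, dE q χ r s (zp q p u))
        {u : ℂ | u₀.im / 2 < u.im ∧ ‖u‖ < ‖u₀‖ + 1} := by
      refine continuousOn_tsum ?_ hsum ?_
      · intro p u hu
        exact (ContinuousAt.comp (f := zp q p) (cont_dE r s (zp_im p (hpos u hu)))
          (cont_zp q p).continuousAt).continuousWithinAt
      · intro p u hu
        refine (unif_bound hχ r hs le_rfl le_rfl (hpos u hu) p).trans ?_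
        refine mul_le_mul_of_nonneg_right ?_ (Real.rpow_nonneg (by linarith [one_le_Np p]) _)
        exact Ku_mono q r (norm_nonneg s) (Xu_pos (hpos u hu)).le (hX u hu)
    have h5 : ContinuousAt (fun u => ∑' p : ℕ × ℤ, dE q χ r s (zp q p u)) u₀ :=
      h4.continuousAt (hO.mem_nhds hmem)
    have h7 : ContinuousAt (fun u : ℂ => ((u.im : ℝ) : ℂ) ^ s) u₀ := by
      refine ContinuousAt.cpow ?_ continuousAt_const ?_
      · exact (Complex.continuous_ofReal.comp Complex.continuous_im).continuousAt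
      · exact Complex.ofReal_mem_slitPlane.mpr hu₀
    exact h7.mul (continuousAt_const.add h5)
  · -- size
    intro σ₀ R hσ
    rcases lt_or_ge R 0 with hR | hR
    · exact ⟨0, 0, le_rfl, fun s u _ hs _ => absurd ((norm_nonneg s).trans hs) (by linarith)⟩
    have hcont : Continuous fun s : ℂ => DirichletCharacter.LFunction χ (2 * r + 1 + 2 * s) :=
      hL.continuous.comp (by fun_prop)
    obtain ⟨Lm, hLm⟩ := (isCompact_closedBall (0 : ℂ) R).exists_bound_of_continuousOn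
      hcont.continuousOn
    have hLm0 : 0 ≤ Lm := (norm_nonneg _).trans (hLm 0 (Metric.mem_closedBall_self hR))
    have hsumN : Summable fun p : ℕ × ℤ => Np p ^ (-(2 * (r : ℝ) + 3 + 2 * σ₀)) :=
      summable_Np (by linarith)
    set T : ℝ := ∑' p : ℕ × ℤ, Np p ^ (-(2 * (r : ℝ) + 3 + 2 * σ₀)) with hT
    have hT0 : 0 ≤ T := tsum_nonneg fun p => Real.rpow_nonneg (by linarith [one_le_Np p]) _
    have hκ : 0 ≤ 2 * (r : ℝ) + 3 + 2 * R := by positivity
    refine ⟨Lm + Ku q r R 1 * T, R + (2 * (r : ℝ) + 3 + 2 * R), by positivity, ?_⟩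
    intro s u hs hsR hu
    have hX1 : 1 ≤ Xu u := one_le_Xu hu
    have hX0 : 0 < Xu u := Xu_pos hu
    have hK : Ku q r R (Xu u) = Ku q r R 1 * Xu u ^ (2 * (r : ℝ) + 3 + 2 * R) := by
      unfold Ku
      rw [Real.mul_rpow (by norm_num) hX0.le, mul_one]
      ring
    have h1 : ‖∑' p : ℕ × ℤ, dE q χ r s (zp q p u)‖ ≤ Ku q r R (Xu u) * T :=
      tsum_of_norm_bounded (hsumN.hasSum.mul_left _)
        (fun p => unif_bound hχ r hσ hs hsR hu p)
    have h3 : ‖DirichletCharacter.LFunction χ (2 * r + 1 + 2 * s)‖ ≤ Lm :=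
      hLm s (by simpa using hsR)
    have h4 : eis q χ r s u = ((u.im : ℝ) : ℂ) ^ s *
        (DirichletCharacter.LFunction χ (2 * r + 1 + 2 * s) +
          ∑' p : ℕ × ℤ, dE q χ r s (zp q p u)) := rfl
    have hXu : (1 + ‖u‖ ^ 2) / u.im = Xu u := rfl
    have hXκ : 1 ≤ Xu u ^ (2 * (r : ℝ) + 3 + 2 * R) := Real.one_le_rpow hX1 hκ
    have hK1 : 0 ≤ Ku q r R 1 := Ku_nonneg q r hR zero_le_one
    rw [h4, hXu, norm_mul, Real.rpow_add hX0]
    calc ‖((u.im : ℝ) : ℂ) ^ s‖ * ‖DirichletCharacter.LFunction χ (2 * r + 1 + 2 * s) +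
          ∑' p : ℕ × ℤ, dE q χ r s (zp q p u)‖
        ≤ Xu u ^ R * (Lm + Ku q r R (Xu u) * T) :=
          mul_le_mul (norm_im_cpow hsR hu) ((norm_add_le _ _).trans (add_le_add h3 h1))
            (norm_nonneg _) (Real.rpow_nonneg hX0.le _)
      _ ≤ Xu u ^ R * ((Lm + Ku q r R 1 * T) * Xu u ^ (2 * (r : ℝ) + 3 + 2 * R)) := by
          refine mul_le_mul_of_nonneg_left ?_ (Real.rpow_nonneg hX0.le _)
          rw [hK]
          nlinarith [mul_le_mul_of_nonneg_left hXκ hLm0]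
      _ = _ := by ring

end RZ

end Pool.Agent.Lib.MP_7c08ba_nt
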