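import Pool.Agent.Lib.MP_7c08ba_nt.RZ.StB

set_option autoImplicit false

/-! (B14) the Eisenstein series at `s = -r`. -/

namespace Pool.Agent.Lib.MP_7c08ba_nt

namespace RZ

namespace EisAt

open Complex Filter Topology Finset
open UpperHalfPlane hiding I
open scoped Nat

/-- `gE` at `s = -r`, expanded in powers of `1 / z` -/
theorem gE_expand (r : ℕ) {z : ℂ} (hz : z ≠ 0) :
    gE r (-r) z = ∑ j ∈ range (r + 1),
      (r.choose j : ℂ) * (-2 * I * z.im) ^ j * (z ^ (j + 1))⁻¹ := by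
  have h1 : gE r (-r) z = (starRingEnd ℂ z) ^ r * (z ^ (r + 1))⁻¹ := by
    unfold gE
    rw [neg_neg, Complex.cpow_natCast, Complex.normSq_eq_conj_mul_self, mul_pow]
    have : z ^ (2 * r + 1) = z ^ r * z ^ (r + 1) := by ring
    rw [this, mul_inv]
    field_simp
  have h2 : starRingEnd ℂ z = (-2 * I * z.im) + z := by
    apply Complex.ext
    · simp
    · simp
      ring
  rw [h1, h2, add_pow, Finset.sum_mul]
  refine Finset.sum_congr rfl fun j hj => ?_
  have hj' : j ≤ r := Nat.lt_succ_iff.1 (Finset.mem_range.1 hj)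
  have : z ^ (r + 1) = z ^ (r - j) * z ^ (j + 1) := by
    rw [← pow_add]; congr 1; omega
  rw [this, mul_inv]
  have hz' : z ^ (r - j) ≠ 0 := pow_ne_zero _ hz
  field_simp

/-- symmetric partial sums of a function on `ℤ` -/
noncomputable def sy (f : ℤ → ℂ) (N : ℕ) : ℂ := ∑ n ∈ range N, (f n + f (-(n + 1)))

/-- telescoping sums -/
theorem sy_tel (g : ℤ → ℂ) (N : ℕ) : sy (fun n => g (n + 1) - g n) N = g N - g (-N) := by
  induction N with
  | zero => simp [sy]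
  | succ N ih =>
    have : sy (fun n => g (n + 1) - g n) (N + 1) = sy (fun n => g (n + 1) - g n) N +
        ((g (N + 1) - g N) + (g (-(N + 1) + 1) - g (-(N + 1)))) := by
      unfold sy
      rw [Finset.sum_range_succ]
    rw [this, ih]
    have e : (-((N : ℤ) + 1) + 1) = -N := by ring
    rw [e]
    push_cast
    ring

/-- the constant of the cotangent series -/
noncomputable def c0 (j : ℕ) : ℂ := if j = 0 then -(Real.pi * I) else 0

/-- the limit of the symmetric sums -/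
noncomputable def Lj (j : ℕ) (w : ℂ) : ℂ :=
  c0 j + (-2 * Real.pi * I) ^ (j + 1) / (j ! : ℂ) * ∑' d : ℕ, ((d + 1 : ℕ) : ℂ) ^ j * ee ((d + 1 : ℕ) * w)

theorem ee_nat (d : ℕ) (w : ℂ) : ee (d * w) = Complex.exp (2 * Real.pi * I * w) ^ d := by
  rw [← Complex.exp_nat_mul]
  unfold ee
  congr 1
  ring

theorem sy_cot (w : ℂ) (N : ℕ) :
    sy (fun n => (w + n)⁻¹) N = 1 / w + ∑ k ∈ range N, cotTerm w k - 1 / (w + N) := by
  induction N with
  | zero => simp [sy]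
  | succ N ih =>
    have : sy (fun n => (w + n)⁻¹) (N + 1) = sy (fun n => (w + n)⁻¹) N +
        ((w + (N : ℤ))⁻¹ + (w + ((-((N : ℤ) + 1) : ℤ) : ℂ))⁻¹) := by
      unfold sy
      rw [Finset.sum_range_succ]
    rw [this, ih, Finset.sum_range_succ, cotTerm]
    push_cast
    rw [show w + (-((N : ℂ) + 1)) = w - (N + 1) by ring]
    ring

theorem tendsto_cot {w : ℂ} (hw : 0 < w.im) :
    Tendsto (sy fun n => (w + n)⁻¹) atTop (𝓝 (Lj 0 w)) := by
  have hw0 : ∀ n : ℤ, w + n ≠ 0 := by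
    intro n h
    have := congrArg Complex.im h
    simp at this
    exact hw.ne' this
  have hmem : w ∈ Complex.integerComplement := coe_mem_integerComplement ⟨w, hw⟩
  have h1 := tendsto_logDeriv_euler_cot_sub hmem
  have h2 : Tendsto (fun N : ℕ => 1 / (w + N)) atTop (𝓝 0) := by
    simpa using EisensteinSeries.tendsto_zero_inv_linear w 1
  have h3 := (h1.const_add (1 / w)).sub h2
  have h4 : (1 / w + (Real.pi * Complex.cot (Real.pi * w) - 1 / w) - 0) = Lj 0 w := by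
    have h5 := pi_mul_cot_pi_q_exp ⟨w, hw⟩
    rw [add_sub_cancel, sub_zero]
    have hn : ‖Complex.exp (2 * Real.pi * I * w)‖ < 1 := UpperHalfPlane.norm_exp_two_pi_I_lt_one ⟨w, hw⟩
    have h6 := (summable_geometric_of_norm_lt_one hn).tsum_eq_zero_add
    change _ = _ at h5
    rw [show (Real.pi : ℂ) * Complex.cot (Real.pi * w) = _ from h5]
    rw [h6]
    unfold Lj c0
    simp only [if_true, pow_zero, one_mul, zero_add, pow_one, Nat.factorial_zero, Nat.cast_one, div_one]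
    simp only [ee_nat]
    ring
  rw [h4] at h3
  refine h3.congr fun N => ?_
  rw [sy_cot w N]


theorem summable_lip {j : ℕ} (hj : 1 ≤ j) (w : ℂ) :
    Summable fun n : ℤ => ((w + n) ^ (j + 1))⁻¹ := by
  have := EisensteinSeries.linear_right_summable w 1 (k := ((j + 1 : ℕ) : ℤ)) (by push_cast; omega)
  simpa only [Int.cast_one, one_mul, zpow_natCast] using this

theorem summable_ee (j : ℕ) {w : ℂ} (hw : 0 < w.im) :
    Summable fun d : ℕ => ((d + 1 : ℕ) : ℂ) ^ j * ee ((d + 1 : ℕ) * w) := by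
  have h1 := summable_pow_mul_cexp j 1 ⟨w, hw⟩
  have h2 := (summable_nat_add_iff 1).2 h1
  refine h2.congr fun d => ?_
  rw [ee_nat]
  congr 2
  simp

theorem tendsto_lip {j : ℕ} (hj : 1 ≤ j) {w : ℂ} (hw : 0 < w.im) :
    Tendsto (sy fun n => ((w + n) ^ (j + 1))⁻¹) atTop (𝓝 (Lj j w)) := by
  have h1 := (summable_lip hj w).hasSum.nat_add_neg_add_one.tendsto_sum_nat
  have h2 : ∑' n : ℤ, ((w + n) ^ (j + 1))⁻¹ = Lj j w := by
    have h3 := EisensteinSeries.qExpansion_identity hj ⟨w, hw⟩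
    have h4 : ∑' n : ℤ, ((w + n) ^ (j + 1))⁻¹ = ∑' n : ℤ, 1 / ((w : ℂ) + n) ^ (j + 1) :=
      tsum_congr fun n => (one_div _).symm
    rw [h4]
    refine Eq.trans h3 ?_
    have h5 : Summable fun n : ℕ => (n : ℂ) ^ j * Complex.exp (2 * Real.pi * I * w) ^ n := by
      refine (summable_pow_mul_cexp j 1 ⟨w, hw⟩).congr fun d => ?_
      congr 2
      simp
    have h6 := h5.tsum_eq_zero_add
    have h7 : ∑' n : ℕ, (n : ℂ) ^ j * Complex.exp (2 * Real.pi * I * w) ^ n =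
        ∑' d : ℕ, ((d + 1 : ℕ) : ℂ) ^ j * ee ((d + 1 : ℕ) * w) := by
      rw [h6]
      have : j ≠ 0 := by omega
      simp only [Nat.cast_zero, zero_pow this, zero_mul, zero_add]
      exact tsum_congr fun d => by rw [ee_nat]
    unfold Lj c0
    rw [if_neg (by omega), zero_add, ← h7]
  rw [h2] at h1
  refine h1.congr fun N => ?_
  unfold sy
  rfl

theorem tendsto_Lj (j : ℕ) {w : ℂ} (hw : 0 < w.im) :
    Tendsto (sy fun n => ((w + n) ^ (j + 1))⁻¹) atTop (𝓝 (Lj j w)) := by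
  rcases Nat.eq_zero_or_pos j with rfl | hj
  · simpa using tendsto_cot hw
  · exact tendsto_lip hj hw


section gauss

variable (q : ℕ) [NeZero q] (χ : DirichletCharacter ℂ q)

/-- the Gauss sum -/
noncomputable def gs : ℂ := gaussSum χ (ZMod.stdAddChar (N := q))

theorem sum_range_zmod (f : ZMod q → ℂ) : ∑ a ∈ range q, f (a : ZMod q) = ∑ a : ZMod q, f a := by
  refine Finset.sum_bij' (fun a _ => (a : ZMod q)) (fun x _ => x.val) ?_ ?_ ?_ ?_ ?_
  · intro a _; exact Finset.mem_univ _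
  · intro x _; exact Finset.mem_range.2 x.val_lt
  · intro a ha; exact ZMod.val_cast_of_lt (Finset.mem_range.1 ha)
  · intro x _; exact ZMod.natCast_zmod_val x
  · intro a _; rfl

variable {q χ}

theorem quad (hχ : ∀ n : ℤ, χ n = (jacobiSym n q : ℂ)) : χ.IsQuadratic := by
  intro a
  have h1 : a = ((a.val : ℤ) : ZMod q) := by simp
  rw [h1, hχ]
  rcases jacobiSym.trichotomy (a.val : ℤ) q with h | h | h <;> rw [h] <;> simp

omit [NeZero q] in
theorem ne_one (hχ : ∀ n : ℤ, χ n = (jacobiSym n q : ℂ)) (h1 : jacobiSym (-1) q = -1) :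
    χ ≠ 1 := by
  intro h
  have h2 := hχ (-1)
  rw [h1, h] at h2
  have h3 : (1 : DirichletCharacter ℂ q) ((-1 : ℤ) : ZMod q) = 1 := by
    rw [MulChar.one_apply]
    exact ⟨-1, by simp⟩
  rw [h3] at h2
  norm_num at h2

theorem gs_sq (hq : q.Prime) (hχ : ∀ n : ℤ, χ n = (jacobiSym n q : ℂ))
    (h1 : jacobiSym (-1) q = -1) : gs q χ ^ 2 = -(q : ℂ) := by
  have : Fact q.Prime := ⟨hq⟩
  have h := gaussSum_sq (R := ZMod q) (χ := χ) (ne_one hχ h1) (quad hχ)
    (ψ := ZMod.stdAddChar (N := q)) (ZMod.isPrimitive_stdAddChar q)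
  rw [ZMod.card] at h
  refine Eq.trans h ?_
  have h2 := hχ (-1)
  rw [h1] at h2
  have h3 : ((-1 : ℤ) : ZMod q) = -1 := by simp
  rw [h3] at h2
  rw [h2]
  simp

theorem gauss_shift (hq : q.Prime) (hχ : ∀ n : ℤ, χ n = (jacobiSym n q : ℂ))
    (h1 : jacobiSym (-1) q = -1) (d : ℕ) :
    ∑ a ∈ range q, χ a * ee (d * (a / q)) = χ d * gs q χ := by
  have h2 : ∑ a ∈ range q, χ a * ee (d * (a / q)) =
      ∑ a : ZMod q, χ a * ZMod.stdAddChar (N := q) (d * a) := by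
    rw [← sum_range_zmod]
    refine Finset.sum_congr rfl fun a _ => ?_
    have h3 := ZMod.stdAddChar_coe (N := q) ((d * a : ℕ) : ℤ)
    have h4 : (((d * a : ℕ) : ℤ) : ZMod q) = (d : ZMod q) * a := by push_cast; rfl
    rw [← h4, h3]
    unfold ee
    congr 2
    push_cast
    ring
  rw [h2]
  have : Fact q.Prime := ⟨hq⟩
  by_cases hd : (d : ZMod q) = 0
  · rw [hd, MulChar.map_zero]
    simp only [zero_mul, AddChar.map_zero_eq_one, mul_one]
    exact MulChar.sum_eq_zero_of_ne_one (ne_one hχ h1)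
  · have h5 := gaussSum_mulShift_eq χ (ZMod.stdAddChar (N := q)) (Units.mk0 (d : ZMod q) hd)
    have h6 : gaussSum χ (AddChar.mulShift (ZMod.stdAddChar (N := q)) (Units.mk0 (d : ZMod q) hd))
      = ∑ a : ZMod q, χ a * ZMod.stdAddChar (N := q) (d * a) := rfl
    rw [h6, (quad hχ).inv] at h5
    exact h5

theorem exists_eps (hq' : q.Prime) (hχ : ∀ n : ℤ, χ n = (jacobiSym n q : ℂ)) (h1 : jacobiSym (-1) q = -1) :
    ∃ ε : ℂ, (ε = 1 ∨ ε = -1) ∧ gs q χ = ε * (I * Real.sqrt q) := by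
  have hq : (0 : ℝ) < q := by exact_mod_cast Nat.pos_of_ne_zero (NeZero.ne q)
  have h3 : ((Real.sqrt q : ℝ) : ℂ) ^ 2 = q := by
    rw [← Complex.ofReal_pow, Real.sq_sqrt hq.le]
    simp
  have h4 : (I * Real.sqrt q) ^ 2 = gs q χ ^ 2 := by
    rw [gs_sq hq' hχ h1, mul_pow, h3, I_sq]
    ring
  rcases sq_eq_sq_iff_eq_or_eq_neg.1 h4 with h5 | h5
  · exact ⟨1, Or.inl rfl, by rw [one_mul, h5]⟩
  · exact ⟨-1, Or.inr rfl, by rw [h5]; ring⟩

end gauss


section fiber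

variable {q : ℕ} [NeZero q] {χ : DirichletCharacter ℂ q}

theorem sum_chi (hq : q.Prime) (hχ : ∀ n : ℤ, χ n = (jacobiSym n q : ℂ))
    (h1 : jacobiSym (-1) q = -1) : ∑ a ∈ range q, χ a = 0 := by
  rw [sum_range_zmod q (fun a => χ a)]
  have : Fact q.Prime := ⟨hq⟩
  exact MulChar.sum_eq_zero_of_ne_one (ne_one hχ h1)

theorem sum_Lj (hq : q.Prime) (hχ : ∀ n : ℤ, χ n = (jacobiSym n q : ℂ))
    (h1 : jacobiSym (-1) q = -1) (j : ℕ) {μ : ℂ} (hμ : 0 < μ.im) :
    ∑ a ∈ range q, χ a * Lj j (μ + a / q) =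
      (-2 * Real.pi * I) ^ (j + 1) / (j ! : ℂ) * gs q χ *
        ∑' d : ℕ, χ ((d + 1 : ℕ) : ZMod q) * ((d + 1 : ℕ) : ℂ) ^ j * ee ((d + 1 : ℕ) * μ) := by
  have him : ∀ a : ℕ, 0 < (μ + a / q).im := by
    intro a
    have : ((a : ℂ) / q).im = 0 := by
      have : (a : ℂ) / q = ((a / q : ℝ) : ℂ) := by push_cast; rfl
      rw [this, Complex.ofReal_im]
    rw [Complex.add_im, this, add_zero]
    exact hμ
  have h2 : ∀ a : ℕ, χ a * Lj j (μ + a / q) = χ a * c0 j +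
      ∑' d : ℕ, (-2 * Real.pi * I) ^ (j + 1) / (j ! : ℂ) * (((d + 1 : ℕ) : ℂ) ^ j *
        ee ((d + 1 : ℕ) * μ) * (χ a * ee ((d + 1 : ℕ) * (a / q)))) := by
    intro a
    unfold Lj
    rw [mul_add, ← mul_assoc, ← tsum_mul_left]
    congr 1
    refine tsum_congr fun d => ?_
    have : ee ((d + 1 : ℕ) * (μ + a / q)) = ee ((d + 1 : ℕ) * μ) * ee ((d + 1 : ℕ) * (a / q)) := by
      unfold ee
      rw [← Complex.exp_add]
      congr 1
      ring
    rw [this]
    ring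
  have hsum : ∀ a : ℕ, Summable fun d : ℕ => (-2 * Real.pi * I) ^ (j + 1) / (j ! : ℂ) *
      (((d + 1 : ℕ) : ℂ) ^ j * ee ((d + 1 : ℕ) * μ) * (χ a * ee ((d + 1 : ℕ) * (a / q)))) := by
    intro a
    refine (((summable_ee j (him a)).mul_left (χ a)).mul_left
      ((-2 * Real.pi * I) ^ (j + 1) / (j ! : ℂ))).congr fun d => ?_
    have : ee ((d + 1 : ℕ) * (μ + a / q)) = ee ((d + 1 : ℕ) * μ) * ee ((d + 1 : ℕ) * (a / q)) := by
      unfold ee
      rw [← Complex.exp_add]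
      congr 1
      ring
    rw [this]
    ring
  rw [Finset.sum_congr rfl fun a _ => h2 a, Finset.sum_add_distrib, ← Finset.sum_mul,
    sum_chi hq hχ h1, zero_mul, zero_add, ← Summable.tsum_finsetSum fun a _ => hsum a,
    ← tsum_mul_left]
  refine tsum_congr fun d => ?_
  rw [← Finset.mul_sum, ← Finset.mul_sum, gauss_shift hq hχ h1 (d + 1)]
  ring

/-- the coefficients -/
noncomputable def Kj (q r j : ℕ) (y : ℝ) : ℂ :=
  (r.choose j : ℂ) * (-2 * I * y) ^ j / q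

theorem gE_q (r : ℕ) {w : ℂ} (hw : 0 < w.im) (n : ℤ) :
    gE r (-r) (q * (w + n)) = ∑ j ∈ range (r + 1), Kj q r j w.im * ((w + n) ^ (j + 1))⁻¹ := by
  have hq : (q : ℂ) ≠ 0 := by exact_mod_cast NeZero.ne q
  have hw0 : w + n ≠ 0 := by
    intro h
    have := congrArg Complex.im h
    simp at this
    exact hw.ne' this
  rw [gE_expand r (mul_ne_zero hq hw0)]
  refine Finset.sum_congr rfl fun j _ => ?_
  have him : ((q : ℂ) * (w + n)).im = q * w.im := by
    have : (q : ℂ) = ((q : ℝ) : ℂ) := by simp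
    rw [this, Complex.im_ofReal_mul]
    simp
  rw [him, mul_pow (q : ℂ), mul_inv, pow_succ (q : ℂ)]
  unfold Kj
  push_cast
  have : (-2 * I * ((q : ℂ) * w.im)) ^ j = (-2 * I * w.im) ^ j * (q : ℂ) ^ j := by
    rw [← mul_pow]
    congr 1
    ring
  rw [this]
  field_simp

theorem sy_sum {ι : Type} (s : Finset ι) (c : ι → ℂ) (f : ι → ℤ → ℂ) (N : ℕ) :
    sy (fun n => ∑ i ∈ s, c i * f i n) N = ∑ i ∈ s, c i * sy (f i) N := by
  unfold sy
  simp only [Finset.mul_sum]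
  rw [Finset.sum_comm]
  refine Finset.sum_congr rfl fun n _ => ?_
  rw [← Finset.sum_add_distrib]
  refine Finset.sum_congr rfl fun i _ => ?_
  ring

theorem sy_sub (f g : ℤ → ℂ) (N : ℕ) : sy (fun n => f n - g n) N = sy f N - sy g N := by
  unfold sy
  rw [← Finset.sum_sub_distrib]
  refine Finset.sum_congr rfl fun n _ => ?_
  ring

theorem sy_mul (c : ℂ) (f : ℤ → ℂ) (N : ℕ) : sy (fun n => c * f n) N = c * sy f N := by
  unfold sy
  rw [Finset.mul_sum]
  refine Finset.sum_congr rfl fun n _ => ?_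
  ring

theorem tendsto_G (r : ℕ) {μ : ℂ} (hμ : 0 < μ.im) :
    Tendsto (fun N : ℕ => gE r (-r) (q * (μ + ((N : ℤ) : ℂ))) -
      gE r (-r) (q * (μ + ((-(N : ℤ) : ℤ) : ℂ)))) atTop (𝓝 0) := by
  have h1 : Tendsto (fun N : ℕ => (μ + N)⁻¹) atTop (𝓝 0) := by
    simpa using EisensteinSeries.tendsto_zero_inv_linear μ 1
  have h2 : Tendsto (fun N : ℕ => (μ - N)⁻¹) atTop (𝓝 0) := by
    simpa using EisensteinSeries.tendsto_zero_inv_linear_sub μ 1
  have h3 : ∀ u : ℕ → ℂ, Tendsto u atTop (𝓝 0) →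
      Tendsto (fun N : ℕ => ∑ j ∈ range (r + 1), Kj q r j μ.im * (u N) ^ (j + 1)) atTop (𝓝 0) := by
    intro u hu
    have : (0 : ℂ) = ∑ j ∈ range (r + 1), Kj q r j μ.im * (0 : ℂ) ^ (j + 1) := by
      simp
    rw [this]
    exact tendsto_finsetSum _ fun j _ => (hu.pow (j + 1)).const_mul _
  have h4 := (h3 _ h1).sub (h3 _ h2)
  rw [sub_zero] at h4
  refine h4.congr fun N => ?_
  rw [gE_q r hμ, gE_q r hμ]
  simp only [inv_pow]
  push_cast
  simp only [← sub_eq_add_neg]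

theorem tendsto_dE (r : ℕ) {μ : ℂ} (hμ : 0 < μ.im) :
    Tendsto (sy fun n => dE q χ r (-r) (q * (μ + n))) atTop
      (𝓝 (∑ a ∈ range q, χ a * ∑ j ∈ range (r + 1), Kj q r j μ.im * Lj j (μ + a / q))) := by
  have hq : (q : ℂ) ≠ 0 := by exact_mod_cast NeZero.ne q
  have him : ∀ a : ℕ, (μ + a / q).im = μ.im := by
    intro a
    have : ((a : ℂ) / q).im = 0 := by
      have : (a : ℂ) / q = ((a / q : ℝ) : ℂ) := by push_cast; rfl
      rw [this, Complex.ofReal_im]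
    rw [Complex.add_im, this, add_zero]
  have h1 : ∀ N, sy (fun n => dE q χ r (-r) (q * (μ + n))) N =
      (∑ a ∈ range q, χ a * ∑ j ∈ range (r + 1), Kj q r j μ.im *
        sy (fun n => ((μ + a / q + n) ^ (j + 1))⁻¹) N) -
      (∑ a ∈ range q, χ a * a) / q * (gE r (-r) (q * (μ + ((N : ℤ) : ℂ))) -
      gE r (-r) (q * (μ + ((-(N : ℤ) : ℤ) : ℂ)))) := by
    intro N
    rw [← sy_tel (fun n : ℤ => gE r (-r) (q * (μ + n))) N]
    simp only [← sy_sum]
    rw [← sy_mul, ← sy_sub]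
    congr 1
    funext n
    unfold dE
    congr 1
    · refine Finset.sum_congr rfl fun a _ => ?_
      rw [← him a, ← gE_q r (by rw [him a]; exact hμ)]
      congr 2
      field_simp
      ring
    · congr 2
      congr 1
      push_cast
      ring
  have h2 : Tendsto (fun N => (∑ a ∈ range q, χ a * ∑ j ∈ range (r + 1), Kj q r j μ.im *
        sy (fun n => ((μ + a / q + n) ^ (j + 1))⁻¹) N)) atTop
      (𝓝 (∑ a ∈ range q, χ a * ∑ j ∈ range (r + 1), Kj q r j μ.im * Lj j (μ + a / q))) := by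
    refine tendsto_finsetSum _ fun a _ => Tendsto.const_mul _ ?_
    refine tendsto_finsetSum _ fun j _ => Tendsto.const_mul _ ?_
    exact tendsto_Lj j (by rw [him a]; exact hμ)
  have h3 := h2.sub ((tendsto_G (q := q) r hμ).const_mul ((∑ a ∈ range q, χ a * a) / q))
  rw [mul_zero, sub_zero] at h3
  exact h3.congr fun N => (h1 N).symm


omit [NeZero q] in
theorem summable_chi_ee (j : ℕ) {w : ℂ} (hw : 0 < w.im) :
    Summable fun d : ℕ => χ ((d + 1 : ℕ) : ZMod q) * ((d + 1 : ℕ) : ℂ) ^ j *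
      ee ((d + 1 : ℕ) * w) := by
  refine Summable.of_norm_bounded (summable_ee j hw).norm fun d => ?_
  rw [mul_assoc, norm_mul]
  have : ‖χ ((d + 1 : ℕ) : ZMod q)‖ ≤ 1 := DirichletCharacter.norm_le_one χ _
  calc _ ≤ 1 * ‖((d + 1 : ℕ) : ℂ) ^ j * ee ((d + 1 : ℕ) * w)‖ := by gcongr
    _ = _ := one_mul _

theorem fiber (hq : q.Prime) (hχ : ∀ n : ℤ, χ n = (jacobiSym n q : ℂ))
    (h1 : jacobiSym (-1) q = -1) (r : ℕ) {μ : ℂ} (hμ : 0 < μ.im)
    (hs : Summable fun n : ℤ => dE q χ r (-r) (q * (μ + n))) :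
    ∑' n : ℤ, dE q χ r (-r) (q * (μ + n)) = (-2 * Real.pi * I) * gs q χ / q *
      ∑' d : ℕ, χ ((d + 1 : ℕ) : ZMod q) * lag r (4 * Real.pi * (d + 1 : ℕ) * μ.im) *
        ee ((d + 1 : ℕ) * μ) := by
  have h2 := hs.hasSum.nat_add_neg_add_one.tendsto_sum_nat
  have h3 : Tendsto (sy fun n => dE q χ r (-r) (q * (μ + n))) atTop
      (𝓝 (∑' n : ℤ, dE q χ r (-r) (q * (μ + n)))) := by
    refine h2.congr fun N => ?_
    unfold sy
    rfl
  have h4 := tendsto_nhds_unique h3 (tendsto_dE (χ := χ) r hμ)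
  rw [h4]
  have h5 : ∑ a ∈ range q, χ a * ∑ j ∈ range (r + 1), Kj q r j μ.im * Lj j (μ + a / q) =
      ∑ j ∈ range (r + 1), Kj q r j μ.im * ∑ a ∈ range q, χ a * Lj j (μ + a / q) := by
    simp only [Finset.mul_sum]
    rw [Finset.sum_comm]
    refine Finset.sum_congr rfl fun j _ => Finset.sum_congr rfl fun a _ => ?_
    ring
  rw [h5]
  simp only [sum_Lj hq hχ h1 _ hμ]
  have h6 : ∑' d : ℕ, χ ((d + 1 : ℕ) : ZMod q) * lag r (4 * Real.pi * (d + 1 : ℕ) * μ.im) *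
        ee ((d + 1 : ℕ) * μ) = ∑ j ∈ range (r + 1), (r.choose j : ℂ) *
        (-(4 * Real.pi * μ.im)) ^ j / (j ! : ℂ) *
        ∑' d : ℕ, χ ((d + 1 : ℕ) : ZMod q) * ((d + 1 : ℕ) : ℂ) ^ j * ee ((d + 1 : ℕ) * μ) := by
    simp only [← tsum_mul_left]
    rw [← Summable.tsum_finsetSum fun j _ => (summable_chi_ee j hμ).mul_left _]
    refine tsum_congr fun d => ?_
    unfold lag
    rw [Finset.mul_sum, Finset.sum_mul]
    refine Finset.sum_congr rfl fun j _ => ?_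
    have : (-(4 * (Real.pi : ℂ) * (d + 1 : ℕ) * μ.im)) ^ j =
        (-(4 * Real.pi * μ.im)) ^ j * ((d + 1 : ℕ) : ℂ) ^ j := by
      rw [← mul_pow]
      congr 1
      ring
    rw [this]
    ring
  rw [h6, Finset.mul_sum]
  refine Finset.sum_congr rfl fun j _ => ?_
  unfold Kj
  have : (-2 * I * (μ.im : ℂ)) ^ j * (-2 * Real.pi * I) ^ (j + 1) =
      (-2 * Real.pi * I) * (-(4 * Real.pi * μ.im)) ^ j := by
    rw [pow_succ, ← mul_assoc, ← mul_pow, mul_comm]
    congr 2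
    linear_combination (4 * Real.pi * (μ.im : ℂ)) * I_sq
  calc _ = (r.choose j : ℂ) * ((-2 * I * (μ.im : ℂ)) ^ j * (-2 * Real.pi * I) ^ (j + 1)) /
      (j ! : ℂ) * (gs q χ / q) * ∑' d : ℕ, χ ((d + 1 : ℕ) : ZMod q) * ((d + 1 : ℕ) : ℂ) ^ j *
        ee ((d + 1 : ℕ) * μ) := by ring
    _ = _ := by rw [this]; ring

end fiber

theorem lag_bound (r : ℕ) {x : ℝ} (hx : 0 ≤ x) : ‖lag r x‖ ≤ (2 : ℝ) ^ r * (1 + x) ^ r := by
  unfold lag
  have h0 : 0 ≤ 1 + x := by linarith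
  calc _ ≤ ∑ j ∈ range (r + 1), ‖(r.choose j : ℂ) * (-(x : ℂ)) ^ j / (j ! : ℂ)‖ :=
        norm_sum_le _ _
    _ ≤ ∑ j ∈ range (r + 1), (r.choose j : ℝ) * (1 + x) ^ r := by
        refine Finset.sum_le_sum fun j hj => ?_
        have hj' : j ≤ r := Nat.lt_succ_iff.1 (Finset.mem_range.1 hj)
        rw [norm_div, norm_mul, norm_pow, norm_neg, Complex.norm_real, Real.norm_of_nonneg hx,
          Complex.norm_natCast, Complex.norm_natCast]
        have h1 : x ^ j ≤ (1 + x) ^ r :=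
          calc x ^ j ≤ (1 + x) ^ j := by gcongr; linarith
            _ ≤ (1 + x) ^ r := pow_le_pow_right₀ (by linarith) hj'
        have h2 : (1 : ℝ) ≤ (j ! : ℝ) := by exact_mod_cast Nat.factorial_pos j
        calc (r.choose j : ℝ) * x ^ j / (j ! : ℝ) ≤ (r.choose j : ℝ) * x ^ j :=
              div_le_self (by positivity) h2
          _ ≤ _ := by gcongr
    _ = _ := by
        rw [← Finset.sum_mul]
        congr 1
        exact_mod_cast Nat.sum_range_choose r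


theorem poly_exp (r : ℕ) {x : ℝ} (hx : 0 ≤ x) :
    (1 + 2 * x) ^ r * Real.exp (-x) ≤ (4 * (r + 1)) ^ r * Real.exp (-(x / 2)) := by
  have hr : (0 : ℝ) < r + 1 := by positivity
  have h1 : 1 + 2 * x ≤ 4 * (r + 1) * Real.exp (x / (2 * (r + 1))) := by
    have h2 := Real.add_one_le_exp (x / (2 * (r + 1)))
    have h3 : 4 * (r + 1) * (x / (2 * (r + 1)) + 1) = 2 * x + 4 * (r + 1) := by
      field_simp
      ring
    have h4 : (1 : ℝ) ≤ 4 * (r + 1) := by nlinarith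
    calc 1 + 2 * x ≤ 2 * x + 4 * (r + 1) := by linarith
      _ = 4 * (r + 1) * (x / (2 * (r + 1)) + 1) := h3.symm
      _ ≤ _ := by gcongr
  have h5 : Real.exp (x / (2 * (r + 1))) ^ r ≤ Real.exp (x / 2) := by
    rw [← Real.exp_nat_mul]
    apply Real.exp_le_exp.2
    rw [mul_div_assoc', div_le_div_iff₀ (by positivity) (by norm_num)]
    nlinarith
  calc (1 + 2 * x) ^ r * Real.exp (-x)
      ≤ (4 * (r + 1) * Real.exp (x / (2 * (r + 1)))) ^ r * Real.exp (-x) := by gcongr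
    _ = (4 * (r + 1)) ^ r * (Real.exp (x / (2 * (r + 1))) ^ r * Real.exp (-x)) := by
        rw [mul_pow]; ring
    _ ≤ (4 * (r + 1)) ^ r * (Real.exp (x / 2) * Real.exp (-x)) := by gcongr
    _ = _ := by
        rw [← Real.exp_add]
        congr 2
        ring

theorem norm_ee (k : ℕ) (u : ℂ) : ‖ee (k * u)‖ = Real.exp (-(2 * Real.pi * k * u.im)) := by
  unfold ee
  rw [Complex.norm_exp]
  congr 1
  have : (2 * (Real.pi : ℂ) * I * (k * u)) = ((2 * Real.pi * k : ℝ) : ℂ) * (I * u) := by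
    push_cast; ring
  rw [this, Complex.re_ofReal_mul, Complex.I_mul_re]
  ring

theorem summable_T {q : ℕ} (χ : DirichletCharacter ℂ q) (r : ℕ) {u : ℂ} (hu : 0 < u.im) :
    Summable fun p : ℕ × ℕ => χ ((p.2 + 1 : ℕ) : ZMod q) *
      lag r (4 * Real.pi * ((p.1 + 1 : ℕ) * (p.2 + 1 : ℕ)) * u.im) *
        ee ((p.1 + 1 : ℕ) * (p.2 + 1 : ℕ) * u) := by
  set x : ℝ := Real.exp (-(Real.pi * u.im)) with hx
  have hx0 : 0 ≤ x := (Real.exp_pos _).le
  have hx1 : x < 1 := by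
    rw [hx, Real.exp_lt_one_iff]
    have := mul_pos Real.pi_pos hu
    linarith
  have hg : Summable fun n : ℕ => x ^ n := summable_geometric_of_lt_one hx0 hx1
  have hgg := hg.mul_of_nonneg hg (fun n => pow_nonneg hx0 n) (fun n => pow_nonneg hx0 n)
  refine Summable.of_norm_bounded (hgg.mul_left ((2 : ℝ) ^ r * (4 * (r + 1)) ^ r))
    fun p => ?_
  obtain ⟨m, d⟩ := p
  simp only
  set k : ℕ := (m + 1) * (d + 1) with hk
  have e1 : (4 * (Real.pi : ℂ) * ((m + 1 : ℕ) * (d + 1 : ℕ)) * u.im) =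
      ((4 * Real.pi * k * u.im : ℝ) : ℂ) := by
    rw [hk]; push_cast; ring
  have e2 : ((m + 1 : ℕ) : ℂ) * (d + 1 : ℕ) * u = (k : ℂ) * u := by
    rw [hk]; push_cast; ring
  have hy : 0 ≤ 2 * Real.pi * k * u.im := by positivity
  rw [e1, e2, norm_mul, norm_mul, norm_ee]
  have h1 : ‖χ ((d + 1 : ℕ) : ZMod q)‖ ≤ 1 := DirichletCharacter.norm_le_one χ _
  have h2 := lag_bound r (x := 4 * Real.pi * k * u.im) (by positivity)
  have h3 := poly_exp r hy
  have h4 : Real.exp (-(2 * Real.pi * k * u.im / 2)) ≤ x ^ m * x ^ d := by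
    rw [← pow_add, hx, ← Real.exp_nat_mul]
    apply Real.exp_le_exp.2
    have h5 : ((m + d : ℕ) : ℝ) ≤ (k : ℝ) := by
      have : m + d ≤ k := by rw [hk]; nlinarith
      exact_mod_cast this
    have h6 := mul_le_mul_of_nonneg_left h5 (mul_pos Real.pi_pos hu).le
    nlinarith
  calc ‖χ ((d + 1 : ℕ) : ZMod q)‖ * ‖lag r ((4 * Real.pi * k * u.im : ℝ) : ℂ)‖ *
        Real.exp (-(2 * Real.pi * k * u.im))
      ≤ 1 * (2 ^ r * (1 + 4 * Real.pi * k * u.im) ^ r) * Real.exp (-(2 * Real.pi * k * u.im)) := by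
        gcongr
    _ = 2 ^ r * ((1 + 2 * (2 * Real.pi * k * u.im)) ^ r *
        Real.exp (-(2 * Real.pi * k * u.im))) := by ring
    _ ≤ 2 ^ r * ((4 * (r + 1)) ^ r * Real.exp (-(2 * Real.pi * k * u.im / 2))) := by gcongr
    _ ≤ 2 ^ r * ((4 * (r + 1)) ^ r * (x ^ m * x ^ d)) := by gcongr
    _ = _ := by ring

end EisAt

open EisAt in
/-- (B14) the Eisenstein series at `s = -r` -/
theorem stEisAt (h : StEisA) : StEisAt := by
  intro q _ χ hq hq2 hχ h1
  obtain ⟨ε, hε, hg⟩ := exists_eps hq hχ h1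
  refine ⟨ε, hε, fun r u hu => ?_⟩
  obtain ⟨-, hA, -, -⟩ := h q inferInstance χ r hq hq2 hχ
  have hs := (hA (-r) u (by simp) hu).of_norm
  have hqs : 0 < Real.sqrt q := Real.sqrt_pos.2 (by exact_mod_cast hq.pos)
  have hq0 : (q : ℂ) ≠ 0 := by exact_mod_cast hq.ne_zero
  have e1 : (u.im : ℂ) ^ (-(r : ℂ)) = ((u.im : ℂ) ^ r)⁻¹ := by
    rw [Complex.cpow_neg, Complex.cpow_natCast]
  have e2 : (2 * (r : ℂ) + 1 + 2 * -(r : ℂ)) = 1 := by ring
  have e3 : ∑' p : ℕ × ℤ, dE q χ r (-r) (q * (((p.1 : ℂ) + 1) * u + p.2)) =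
      ε * (2 * Real.pi / Real.sqrt q) * ∑' p : ℕ × ℕ, χ ((p.2 + 1 : ℕ) : ℤ) *
          lag r (4 * Real.pi * ((p.1 + 1 : ℕ) * (p.2 + 1 : ℕ)) * u.im) *
          ee ((p.1 + 1 : ℕ) * (p.2 + 1 : ℕ) * u) := by
    have hT := summable_T χ r hu
    have hT' : (fun p : ℕ × ℕ => χ ((p.2 + 1 : ℕ) : ℤ) *
          lag r (4 * Real.pi * ((p.1 + 1 : ℕ) * (p.2 + 1 : ℕ)) * u.im) *
          ee ((p.1 + 1 : ℕ) * (p.2 + 1 : ℕ) * u)) = fun p : ℕ × ℕ => χ ((p.2 + 1 : ℕ) : ZMod q) *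
      lag r (4 * Real.pi * ((p.1 + 1 : ℕ) * (p.2 + 1 : ℕ)) * u.im) *
        ee ((p.1 + 1 : ℕ) * (p.2 + 1 : ℕ) * u) := by
      funext p
      rw [Int.cast_natCast]
    rw [hT', hs.tsum_prod, hT.tsum_prod, ← tsum_mul_left]
    refine tsum_congr fun m => ?_
    have him : (((m : ℂ) + 1) * u).im = (m + 1) * u.im := by
      have : ((m : ℂ) + 1) = ((m + 1 : ℝ) : ℂ) := by push_cast; rfl
      rw [this, Complex.im_ofReal_mul]
    have hμ : 0 < (((m : ℂ) + 1) * u).im := by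
      rw [him]
      positivity
    have hf := fiber hq hχ h1 r hμ (hs.prod_factor m)
    refine Eq.trans hf ?_
    have e4 : (-2 * Real.pi * Complex.I) * gs q χ / q = ε * (2 * Real.pi / Real.sqrt q) := by
      rw [hg]
      have h3 : ((Real.sqrt q : ℝ) : ℂ) * ((Real.sqrt q : ℝ) : ℂ) = q := by
        rw [← Complex.ofReal_mul, Real.mul_self_sqrt (by positivity)]
        simp
      have h4 : ((Real.sqrt q : ℝ) : ℂ) ≠ 0 := by exact_mod_cast hqs.ne'
      rw [← h3]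
      field_simp
      linear_combination (-ε) * Complex.I_sq
    rw [e4]
    congr 1
    refine tsum_congr fun d => ?_
    rw [him]
    congr 1
    · congr 1
      congr 1
      push_cast
      ring
    · congr 1
      push_cast
      ring
  unfold eis
  rw [e1, e2, e3]

end RZ

end Pool.Agent.Lib.MP_7c08ba_nt
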