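import Pool.Agent.Lib.MP_7c08ba_nt.RZ.StH
import Pool.Agent.Lib.MP_7c08ba_nt.RZ.EisAt

set_option autoImplicit false

/-! (H16) the Eisenstein series at `s = -r`, for odd primitive real characters. -/

namespace Pool.Agent.Lib.MP_7c08ba_nt

namespace RZ

namespace EisAtQ

open Complex Filter Topology Finset EisAt
open UpperHalfPlane hiding I
open scoped Nat

section gauss

variable {D : ℕ} [NeZero D] {χ : DirichletCharacter ℂ D}

omit [NeZero D] in
theorem inv_eq (hχ : QC D χ) : χ⁻¹ = χ := MulChar.IsQuadratic.inv hχ.real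

omit [NeZero D] in
theorem chi_neg (hχ : QC D χ) (k : ZMod D) : χ (-k) = -χ k := by
  rw [← neg_one_mul, map_mul, hχ.odd, neg_one_mul]

omit [NeZero D] in
theorem ne_one' (hχ : QC D χ) : χ ≠ 1 := by
  rintro rfl
  have h := hχ.odd
  rw [MulChar.one_apply isUnit_one.neg] at h
  norm_num at h

open ZMod in
theorem gs_sq (hχ : QC D χ) :
    gs D χ ^ 2 = -(D : ℂ) := by
  have h1 : ∀ k, ZMod.dft (χ : ZMod D → ℂ) k = -gs D χ * χ k := by
    intro k
    have h := hχ.prim.fourierTransform_eq_inv_mul_gaussSum k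
    rw [inv_eq hχ, chi_neg hχ] at h
    refine Eq.trans h ?_
    unfold gs
    ring
  have h2 : ZMod.dft (χ : ZMod D → ℂ) = fun k => -gs D χ * χ k := funext h1
  have h3 := ZMod.dft_dft (χ : ZMod D → ℂ)
  rw [h2] at h3
  have h4 := congrFun h3 1
  rw [ZMod.dft_const_mul (-gs D χ) (χ : ZMod D → ℂ)] at h4
  simp only [h1, chi_neg hχ, map_one, smul_eq_mul] at h4
  linear_combination h4

theorem gauss_shift (hχ : QC D χ) (d : ℕ) :
    ∑ a ∈ range D, χ a * ee (d * (a / D)) = χ d * gs D χ := by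
  have h2 : ∑ a ∈ range D, χ a * ee (d * (a / D)) =
      ∑ a : ZMod D, χ a * ZMod.stdAddChar (N := D) (d * a) := by
    rw [← sum_range_zmod]
    refine Finset.sum_congr rfl fun a _ => ?_
    have h3 := ZMod.stdAddChar_coe (N := D) ((d * a : ℕ) : ℤ)
    have h4 : (((d * a : ℕ) : ℤ) : ZMod D) = (d : ZMod D) * a := by push_cast; rfl
    rw [← h4, h3]
    unfold ee
    congr 2
    push_cast
    ring
  rw [h2]
  have h5 := gaussSum_mulShift_of_isPrimitive (ZMod.stdAddChar (N := D)) hχ.prim (d : ZMod D)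
  rw [inv_eq hχ] at h5
  exact h5

theorem exists_eps (hχ : QC D χ) :
    ∃ ε : ℂ, (ε = 1 ∨ ε = -1) ∧ gs D χ = ε * (I * Real.sqrt D) := by
  have hq : (0 : ℝ) < D := by exact_mod_cast Nat.pos_of_ne_zero (NeZero.ne D)
  have h3 : ((Real.sqrt D : ℝ) : ℂ) ^ 2 = D := by
    rw [← Complex.ofReal_pow, Real.sq_sqrt hq.le]
    simp
  have h4 : (I * Real.sqrt D) ^ 2 = gs D χ ^ 2 := by
    rw [gs_sq hχ, mul_pow, h3, I_sq]
    ring
  rcases sq_eq_sq_iff_eq_or_eq_neg.1 h4 with h5 | h5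
  · exact ⟨1, Or.inl rfl, by rw [one_mul, h5]⟩
  · exact ⟨-1, Or.inr rfl, by rw [h5]; ring⟩

theorem sum_chi (hχ : QC D χ) :
    ∑ a ∈ range D, χ a = 0 := by
  rw [sum_range_zmod D (fun a => χ a)]
  exact MulChar.sum_eq_zero_of_ne_one (ne_one' hχ)

theorem sum_Lj (hχ : QC D χ) (j : ℕ) {μ : ℂ}
    (hμ : 0 < μ.im) :
    ∑ a ∈ range D, χ a * Lj j (μ + a / D) =
      (-2 * Real.pi * I) ^ (j + 1) / (j ! : ℂ) * gs D χ *
        ∑' d : ℕ, χ ((d + 1 : ℕ) : ZMod D) * ((d + 1 : ℕ) : ℂ) ^ j * ee ((d + 1 : ℕ) * μ) := by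
  have him : ∀ a : ℕ, 0 < (μ + a / D).im := by
    intro a
    have : ((a : ℂ) / D).im = 0 := by
      have : (a : ℂ) / D = ((a / D : ℝ) : ℂ) := by push_cast; rfl
      rw [this, Complex.ofReal_im]
    rw [Complex.add_im, this, add_zero]
    exact hμ
  have h2 : ∀ a : ℕ, χ a * Lj j (μ + a / D) = χ a * c0 j +
      ∑' d : ℕ, (-2 * Real.pi * I) ^ (j + 1) / (j ! : ℂ) * (((d + 1 : ℕ) : ℂ) ^ j *
        ee ((d + 1 : ℕ) * μ) * (χ a * ee ((d + 1 : ℕ) * (a / D)))) := by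
    intro a
    unfold Lj
    rw [mul_add, ← mul_assoc, ← tsum_mul_left]
    congr 1
    refine tsum_congr fun d => ?_
    have : ee ((d + 1 : ℕ) * (μ + a / D)) = ee ((d + 1 : ℕ) * μ) * ee ((d + 1 : ℕ) * (a / D)) := by
      unfold ee
      rw [← Complex.exp_add]
      congr 1
      ring
    rw [this]
    ring
  have hsum : ∀ a : ℕ, Summable fun d : ℕ => (-2 * Real.pi * I) ^ (j + 1) / (j ! : ℂ) *
      (((d + 1 : ℕ) : ℂ) ^ j * ee ((d + 1 : ℕ) * μ) * (χ a * ee ((d + 1 : ℕ) * (a / D)))) := by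
    intro a
    refine (((summable_ee j (him a)).mul_left (χ a)).mul_left
      ((-2 * Real.pi * I) ^ (j + 1) / (j ! : ℂ))).congr fun d => ?_
    have : ee ((d + 1 : ℕ) * (μ + a / D)) = ee ((d + 1 : ℕ) * μ) * ee ((d + 1 : ℕ) * (a / D)) := by
      unfold ee
      rw [← Complex.exp_add]
      congr 1
      ring
    rw [this]
    ring
  rw [Finset.sum_congr rfl fun a _ => h2 a, Finset.sum_add_distrib, ← Finset.sum_mul,
    sum_chi hχ, zero_mul, zero_add, ← Summable.tsum_finsetSum fun a _ => hsum a,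
    ← tsum_mul_left]
  refine tsum_congr fun d => ?_
  rw [← Finset.mul_sum, ← Finset.mul_sum, gauss_shift hχ (d + 1)]
  ring

theorem fiber (hχ : QC D χ) (r : ℕ) {μ : ℂ}
    (hμ : 0 < μ.im) (hs : Summable fun n : ℤ => dE D χ r (-r) (D * (μ + n))) :
    ∑' n : ℤ, dE D χ r (-r) (D * (μ + n)) = (-2 * Real.pi * I) * gs D χ / D *
      ∑' d : ℕ, χ ((d + 1 : ℕ) : ZMod D) * lag r (4 * Real.pi * (d + 1 : ℕ) * μ.im) *
        ee ((d + 1 : ℕ) * μ) := by
  have h2 := hs.hasSum.nat_add_neg_add_one.tendsto_sum_nat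
  have h3 : Tendsto (sy fun n => dE D χ r (-r) (D * (μ + n))) atTop
      (𝓝 (∑' n : ℤ, dE D χ r (-r) (D * (μ + n)))) := by
    refine h2.congr fun N => ?_
    unfold sy
    rfl
  have h4 := tendsto_nhds_unique h3 (tendsto_dE (χ := χ) r hμ)
  rw [h4]
  have h5 : ∑ a ∈ range D, χ a * ∑ j ∈ range (r + 1), Kj D r j μ.im * Lj j (μ + a / D) =
      ∑ j ∈ range (r + 1), Kj D r j μ.im * ∑ a ∈ range D, χ a * Lj j (μ + a / D) := by
    simp only [Finset.mul_sum]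
    rw [Finset.sum_comm]
    refine Finset.sum_congr rfl fun j _ => Finset.sum_congr rfl fun a _ => ?_
    ring
  rw [h5]
  simp only [sum_Lj hχ _ hμ]
  have h6 : ∑' d : ℕ, χ ((d + 1 : ℕ) : ZMod D) * lag r (4 * Real.pi * (d + 1 : ℕ) * μ.im) *
        ee ((d + 1 : ℕ) * μ) = ∑ j ∈ range (r + 1), (r.choose j : ℂ) *
        (-(4 * Real.pi * μ.im)) ^ j / (j ! : ℂ) *
        ∑' d : ℕ, χ ((d + 1 : ℕ) : ZMod D) * ((d + 1 : ℕ) : ℂ) ^ j * ee ((d + 1 : ℕ) * μ) := by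
    simp only [← tsum_mul_left]
    rw [← Summable.tsum_finsetSum fun j _ => (summable_chi_ee j hμ).mul_left _]
    refine tsum_congr fun d => ?_
    unfold lag
    rw [Finset.mul_sum, Finset.sum_mul]
    refine Finset.sum_congr rfl fun j _ => ?_
    have : (-(4 * (Real.pi : ℂ) * (d + 1 : ℕ) * μ.im)) ^ j =
        (-(4 * Real.pi * μ.im)) ^ j * ((d + 1 : ℕ) : ℂ) ^ j := by
      rw [← mul_pow]
      congr 1
      ring
    rw [this]
    ring
  rw [h6, Finset.mul_sum]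
  refine Finset.sum_congr rfl fun j _ => ?_
  unfold Kj
  have : (-2 * I * (μ.im : ℂ)) ^ j * (-2 * Real.pi * I) ^ (j + 1) =
      (-2 * Real.pi * I) * (-(4 * Real.pi * μ.im)) ^ j := by
    rw [pow_succ, ← mul_assoc, ← mul_pow, mul_comm]
    congr 2
    linear_combination (4 * Real.pi * (μ.im : ℂ)) * I_sq
  calc _ = (r.choose j : ℂ) * ((-2 * I * (μ.im : ℂ)) ^ j * (-2 * Real.pi * I) ^ (j + 1)) /
      (j ! : ℂ) * (gs D χ / D) * ∑' d : ℕ, χ ((d + 1 : ℕ) : ZMod D) * ((d + 1 : ℕ) : ℂ) ^ j *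
        ee ((d + 1 : ℕ) * μ) := by ring
    _ = _ := by rw [this]; ring

end gauss

end EisAtQ

open EisAtQ in
open EisAt (gs summable_T) in
/-- (H16) the Eisenstein series at `s = -r` -/
theorem stEisAtQ (h : StEisAQ) : StEisAtQ := by
  intro D _ χ hχ
  obtain ⟨ε, hε, hg⟩ := exists_eps hχ
  refine ⟨ε, hε, fun r u hu => ?_⟩
  obtain ⟨-, hA, -, -⟩ := h D inferInstance χ r hχ
  have hs := (hA (-r) u (by simp) hu).of_norm
  have hDpos : 0 < D := Nat.pos_of_ne_zero (NeZero.ne D)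
  have hqs : 0 < Real.sqrt D := Real.sqrt_pos.2 (by exact_mod_cast hDpos)
  have hq0 : (D : ℂ) ≠ 0 := by exact_mod_cast NeZero.ne D
  have e1 : (u.im : ℂ) ^ (-(r : ℂ)) = ((u.im : ℂ) ^ r)⁻¹ := by
    rw [Complex.cpow_neg, Complex.cpow_natCast]
  have e2 : (2 * (r : ℂ) + 1 + 2 * -(r : ℂ)) = 1 := by ring
  have e3 : ∑' p : ℕ × ℤ, dE D χ r (-r) (D * (((p.1 : ℂ) + 1) * u + p.2)) =
      ε * (2 * Real.pi / Real.sqrt D) * ∑' p : ℕ × ℕ, χ ((p.2 + 1 : ℕ) : ℤ) *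
          lag r (4 * Real.pi * ((p.1 + 1 : ℕ) * (p.2 + 1 : ℕ)) * u.im) *
          ee ((p.1 + 1 : ℕ) * (p.2 + 1 : ℕ) * u) := by
    have hT := summable_T χ r hu
    have hT' : (fun p : ℕ × ℕ => χ ((p.2 + 1 : ℕ) : ℤ) *
          lag r (4 * Real.pi * ((p.1 + 1 : ℕ) * (p.2 + 1 : ℕ)) * u.im) *
          ee ((p.1 + 1 : ℕ) * (p.2 + 1 : ℕ) * u)) = fun p : ℕ × ℕ => χ ((p.2 + 1 : ℕ) : ZMod D) *
      lag r (4 * Real.pi * ((p.1 + 1 : ℕ) * (p.2 + 1 : ℕ)) * u.im) *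
        ee ((p.1 + 1 : ℕ) * (p.2 + 1 : ℕ) * u) := by
      funext p
      rw [Int.cast_natCast]
    rw [hT', hs.tsum_prod, hT.tsum_prod, ← tsum_mul_left]
    refine tsum_congr fun m => ?_
    have him : (((m : ℂ) + 1) * u).im = (m + 1) * u.im := by
      have : ((m : ℂ) + 1) = ((m + 1 : ℝ) : ℂ) := by push_cast; rfl
      rw [this, Complex.im_ofReal_mul]
    have hμ : 0 < (((m : ℂ) + 1) * u).im := by
      rw [him]
      positivity
    have hf := fiber hχ r hμ (hs.prod_factor m)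
    refine Eq.trans hf ?_
    have e4 : (-2 * Real.pi * Complex.I) * gs D χ / D = ε * (2 * Real.pi / Real.sqrt D) := by
      rw [hg]
      have h3 : ((Real.sqrt D : ℝ) : ℂ) * ((Real.sqrt D : ℝ) : ℂ) = D := by
        rw [← Complex.ofReal_mul, Real.mul_self_sqrt (by positivity)]
        simp
      have h4 : ((Real.sqrt D : ℝ) : ℂ) ≠ 0 := by exact_mod_cast hqs.ne'
      rw [← h3]
      field_simp
      linear_combination (-ε) * Complex.I_sq
    rw [e4]
    congr 1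
    refine tsum_congr fun d => ?_
    rw [him]
    congr 1
    · congr 1
      congr 1
      push_cast
      ring
    · congr 1
      push_cast
      ring
  unfold eis
  rw [e1, e2, e3]

end RZ

end Pool.Agent.Lib.MP_7c08ba_nt
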