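import Pool.Agent.Lib.MP_7c08ba_nt.RZ.StH
import Pool.Agent.Lib.MP_7c08ba_nt.RZ.EisLaw

set_option autoImplicit false

/-! (H15) transformation law of the Eisenstein series, odd primitive real characters. -/

namespace Pool.Agent.Lib.MP_7c08ba_nt

namespace RZ

open NumberField MeasureTheory UpperHalfPlane Set
open scoped MatrixGroups ComplexConjugate nonZeroDivisors

namespace EisLawQAux

open EisLaw hiding chi_sq tm_act

theorem chi_sq {q : ℕ} {χ : DirichletCharacter ℂ q} (hq : QC q χ) (g : SL(2, ℤ))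
    (hc : (q : ℤ) ∣ g 1 0) : χ (g 1 1 : ℤ) * χ (g 1 1 : ℤ) = 1 := by
  obtain ⟨k, hk⟩ := hc
  have hd := det_eq g
  have h1 : ((g 0 0 : ℤ) : ZMod q) * ((g 1 1 : ℤ) : ZMod q) = 1 := by
    have h2 := congrArg (fun t : ℤ => (t : ZMod q)) hd
    rw [hk] at h2
    push_cast at h2
    rw [ZMod.natCast_self, zero_mul, mul_zero, sub_zero] at h2
    exact h2
  have h3 : χ ((g 0 0 : ℤ) : ZMod q) * χ ((g 1 1 : ℤ) : ZMod q) = 1 := by
    rw [← map_mul, h1, map_one]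
  rcases hq.real ((g 1 1 : ℤ) : ZMod q) with h | h | h
  · rw [h, mul_zero] at h3
    exact absurd h3 zero_ne_one
  · rw [h, mul_one]
  · rw [h]
    norm_num

theorem tm_act {q : ℕ} {χ : DirichletCharacter ℂ q} (hq : QC q χ)
    (g : SL(2, ℤ)) (hc : (q : ℤ) ∣ g 1 0) {z : ℂ} (hz : 0 < z.im) (r : ℕ) (s : ℂ) (v : Cop) :
    tm q χ r s (((g 0 0 : ℂ) * z + g 0 1) / ((g 1 0 : ℂ) * z + g 1 1)) v =
      (χ (g 1 1 : ℤ) * ((g 1 0 : ℂ) * z + g 1 1) ^ (2 * r + 1)) * tm q χ r s z (act g v) := by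
  set D : ℂ := (g 1 0 : ℂ) * z + g 1 1 with hD
  set u : ℂ := ((g 0 0 : ℂ) * z + g 0 1) / D with hu
  have hne : D ≠ 0 := den_ne g hz
  have hform : ((v.1.1 : ℂ) * u + v.1.2) * D = ((act g v).1.1 : ℂ) * z + (act g v).1.2 :=
    form_gz g hz v
  have him : u.im * Complex.normSq D = z.im := im_gz g hz
  have hupos : 0 < u.im := gz_pos g hz
  have hYpos : 0 < Complex.normSq D := Complex.normSq_pos.2 hne
  have hYc : ((Complex.normSq D : ℝ) : ℂ) ≠ 0 := by exact_mod_cast hYpos.ne'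
  have e1 : (z.im : ℂ) ^ s = (u.im : ℂ) ^ s * ((Complex.normSq D : ℝ) : ℂ) ^ s := by
    rw [← him]
    push_cast
    rw [Complex.mul_cpow_ofReal_nonneg hupos.le hYpos.le]
  have e2 : ((Complex.normSq (((act g v).1.1 : ℂ) * z + (act g v).1.2) : ℝ) : ℂ) ^ (-s) =
      ((Complex.normSq ((v.1.1 : ℂ) * u + v.1.2) : ℝ) : ℂ) ^ (-s) *
        ((Complex.normSq D : ℝ) : ℂ) ^ (-s) := by
    rw [← hform, Complex.normSq_mul]
    push_cast
    rw [Complex.mul_cpow_ofReal_nonneg (Complex.normSq_nonneg _) hYpos.le]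
  have e3 : ((Complex.normSq D : ℝ) : ℂ) ^ (-s) * ((Complex.normSq D : ℝ) : ℂ) ^ s = 1 := by
    rw [← Complex.cpow_add _ _ hYc, neg_add_cancel, Complex.cpow_zero]
  have e4 : D ^ (2 * r + 1) * ((((act g v).1.1 : ℂ) * z + (act g v).1.2) ^ (2 * r + 1))⁻¹ =
      (((v.1.1 : ℂ) * u + v.1.2) ^ (2 * r + 1))⁻¹ := by
    rw [← hform, mul_pow, mul_inv]
    have : D ^ (2 * r + 1) ≠ 0 := pow_ne_zero _ hne
    field_simp
  have e5 : χ (g 1 1 : ℤ) * (if (q : ℤ) ∣ (act g v).1.1 then χ ((act g v).1.2 : ℤ) else 0) =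
      if (q : ℤ) ∣ v.1.1 then χ (v.1.2 : ℤ) else 0 := by
    by_cases hv : (q : ℤ) ∣ v.1.1
    · rw [if_pos ((dvd_iff g hc v).2 hv), if_pos hv, chi_act g hv]
      linear_combination χ (v.1.2 : ℤ) * chi_sq hq g hc
    · rw [if_neg (fun h => hv ((dvd_iff g hc v).1 h)), if_neg hv, mul_zero]
  unfold tm
  rw [e1, e2, ← e4, ← e5]
  linear_combination -(χ (g 1 1 : ℤ) * (if (q : ℤ) ∣ (act g v).1.1 then χ ((act g v).1.2 : ℤ) else 0) *
    (D ^ (2 * r + 1) * ((((act g v).1.1 : ℂ) * z + (act g v).1.2) ^ (2 * r + 1))⁻¹) *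
    ((Complex.normSq ((v.1.1 : ℂ) * u + v.1.2) : ℝ) : ℂ) ^ (-s) * (u.im : ℂ) ^ s) * e3

end EisLawQAux

open EisLaw EisLawQAux in
theorem stEisLawQ (h1 : StEisAQ) (h2 : StEisBigQ) : StEisLawQ := by
  intro q _ χ r hq s hs g z hz hc
  have hgz := gz_pos g hz
  -- the law for large real part
  have hbig : ∀ s : ℂ, 1 / 2 - (r : ℝ) < s.re →
      eis q χ r s (((g 0 0 : ℂ) * z + g 0 1) / ((g 1 0 : ℂ) * z + g 1 1)) =
        χ (g 1 1 : ℤ) * ((g 1 0 : ℂ) * z + g 1 1) ^ (2 * r + 1) * eis q χ r s z := by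
    intro s hs
    rw [(h2 q _ χ r hq s _ hs hgz).2, (h2 q _ χ r hq s z hs hz).2]
    have e1 : ∑' v : Cop, tm q χ r s (((g 0 0 : ℂ) * z + g 0 1) / ((g 1 0 : ℂ) * z + g 1 1)) v =
        (χ (g 1 1 : ℤ) * ((g 1 0 : ℂ) * z + g 1 1) ^ (2 * r + 1)) *
          ∑' v : Cop, tm q χ r s z v := by
      rw [← (act g).tsum_eq (tm q χ r s z), ← tsum_mul_left]
      exact tsum_congr fun v => EisLawQAux.tm_act hq g hc hz r s v
    unfold tm at e1
    rw [e1]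
    ring
  -- analytic continuation
  set U : Set ℂ := {s | -(r : ℝ) - 1 / 2 < s.re} with hU
  have hUo : IsOpen U := isOpen_lt continuous_const Complex.continuous_re
  have hUc : IsPreconnected U := (convex_halfSpace_re_gt _).isPreconnected
  obtain ⟨hdiff, -⟩ := h1 q _ χ r hq
  have hf : AnalyticOnNhd ℂ (fun s => eis q χ r s
      (((g 0 0 : ℂ) * z + g 0 1) / ((g 1 0 : ℂ) * z + g 1 1))) U :=
    (hdiff _ hgz).analyticOnNhd hUo
  have hg : AnalyticOnNhd ℂ (fun s => χ (g 1 1 : ℤ) * ((g 1 0 : ℂ) * z + g 1 1) ^ (2 * r + 1) *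
      eis q χ r s z) U :=
    ((hdiff z hz).const_mul _).analyticOnNhd hUo
  have h0 : ((1 - r : ℝ) : ℂ) ∈ U := by
    simp only [hU, Set.mem_ofPred_eq, Complex.ofReal_re]
    linarith
  have hev : (fun s => eis q χ r s (((g 0 0 : ℂ) * z + g 0 1) / ((g 1 0 : ℂ) * z + g 1 1)))
      =ᶠ[nhds ((1 - r : ℝ) : ℂ)] (fun s => χ (g 1 1 : ℤ) *
        ((g 1 0 : ℂ) * z + g 1 1) ^ (2 * r + 1) * eis q χ r s z) := by
    have hopen : IsOpen {s : ℂ | 1 / 2 - (r : ℝ) < s.re} :=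
      isOpen_lt continuous_const Complex.continuous_re
    filter_upwards [hopen.mem_nhds (show ((1 - r : ℝ) : ℂ) ∈ {s : ℂ | 1 / 2 - (r : ℝ) < s.re} by
      simp only [Set.mem_ofPred_eq, Complex.ofReal_re]
      linarith)] with s hs
    exact hbig s hs
  exact hf.eqOn_of_preconnected_of_eventuallyEq hg hUc h0 hev hs

end RZ

end Pool.Agent.Lib.MP_7c08ba_nt
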