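import Pool.Agent.Lib.MP_7c08ba_nt.RZ.StH
import Pool.Agent.Lib.MP_7c08ba_nt.RZ.EisTh

set_option autoImplicit false

/-! (H17): the Eisenstein series at `s = -r` as a sum of theta series, even discriminants. -/

namespace Pool.Agent.Lib.MP_7c08ba_nt

namespace RZ

open NumberField MeasureTheory UpperHalfPlane Set
open scoped MatrixGroups ComplexConjugate nonZeroDivisors

namespace EisThEAux

open EisThAux

section
variable {F : Type} [Field F] [NumberField F]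

theorem summable_G {D : ℕ} {s : 𝓞 F} {σ : F →+* ℂ} {χ : DirichletCharacter ℂ D}
    {cj : 𝓞 F ≃+* 𝓞 F} (h7 : StThBE) (hd : DatE D s σ χ cj) (a : Ideal (𝓞 F)) (ha : a ≠ ⊥)
    (r : ℕ) {u : ℂ} (hu : 0 < u.im) : Summable fun x : a => ‖G r u (Qa σ a x)‖ := by
  obtain ⟨-, h, -⟩ := h7 D F _ _ s σ χ cj a 0 0 (fun _ => 0) hd ha (fun _ => by simp)
  have ht : 0 < 3 / 2 * Real.pi * u.im := by positivity
  refine Summable.of_nonneg_of_le (fun _ => norm_nonneg _) (fun x => ?_)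
    ((h _ ht).mul_left (16 ^ r : ℝ))
  have := norm_G r hu (Qa_nonneg σ a x)
  rwa [pow_zero, one_mul]

theorem sum_thl {D : ℕ} {s : 𝓞 F} {σ : F →+* ℂ} {χ : DirichletCharacter ℂ D}
    {cj : 𝓞 F ≃+* 𝓞 F} (c : Reps σ) (h4 : StIdSumE) (h6 : StBasE) (h7 : StThBE)
    (hd : DatE D s σ χ cj) (r : ℕ) {u : ℂ} (hu : 0 < u.im) :
    (Summable fun b : (Ideal (𝓞 F))⁰ => ‖G r u (Ideal.absNorm (b : Ideal (𝓞 F)) : ℂ)‖) ∧
    ∑ B : ClassGroup (𝓞 F), thl σ (c.R B : Ideal (𝓞 F)) r u = ((u.im : ℂ) ^ r)⁻¹ *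
      ((Fintype.card (ClassGroup (𝓞 F)) : ℂ) +
        2 * ∑' b : (Ideal (𝓞 F))⁰, G r u (Ideal.absNorm (b : Ideal (𝓞 F)) : ℂ)) := by
  classical
  obtain ⟨-, -, -, -, -, hn, -⟩ := h6 D F _ _ s σ χ cj hd
  have hR : ∀ A, (c.R A : Ideal (𝓞 F)) ≠ ⊥ := fun A => nonZeroDivisors.coe_ne_zero (c.R A)
  set T : ClassGroup (𝓞 F) → 𝓞 F → ℂ := fun A x =>
    if x = 0 then 0 else G r u (Qa σ (c.R A : Ideal (𝓞 F)) x) with hT
  have hsG : ∀ A, Summable fun x : (c.R A : Ideal (𝓞 F)) =>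
      G r u (Qa σ (c.R A : Ideal (𝓞 F)) x) := fun A =>
    (summable_G h7 hd _ (hR A) r hu).of_norm
  have hsT : ∀ A, Summable fun x : (c.R A : Ideal (𝓞 F)) => ‖T A x‖ := by
    intro A
    refine Summable.of_nonneg_of_le (fun _ => norm_nonneg _) (fun x => ?_)
      (summable_G h7 hd _ (hR A) r hu)
    simp only [hT]
    split_ifs
    · rw [norm_zero]; exact norm_nonneg _
    · exact le_rfl
  obtain ⟨hs, he⟩ := h4 D F _ _ s σ χ cj c
    (fun b => G r u (Ideal.absNorm b : ℂ)) T hd (fun A => by simp [hT])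
    (fun A x b hx hb => by
      simp only [hT]
      rw [if_neg hx]
      have h1 : Qa σ (c.R A : Ideal (𝓞 F)) x = (Ideal.absNorm b : ℝ) := by
        unfold Qa
        rw [hn x, ← hb, map_mul, Nat.cast_mul, mul_div_assoc, div_self, mul_one]
        rw [Nat.cast_ne_zero]
        exact Ideal.absNorm_ne_zero_iff_mem_nonZeroDivisors.2 (c.R A).2
      rw [h1]
      simp) hsT
  refine ⟨hs, ?_⟩
  have hB : ∀ A, thl σ (c.R A : Ideal (𝓞 F)) r u = ((u.im : ℂ) ^ r)⁻¹ *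
      (1 + ∑' x : (c.R A : Ideal (𝓞 F)), T A x) := by
    intro A
    unfold thl
    congr 1
    have e0 : ∀ x : (c.R A : Ideal (𝓞 F)),
        lag r (4 * Real.pi * Qa σ (c.R A : Ideal (𝓞 F)) x * u.im) *
          ee (Qa σ (c.R A : Ideal (𝓞 F)) x * u) = (if x = 0 then (1 : ℂ) else 0) + T A x := by
      intro x
      show G r u (Qa σ (c.R A : Ideal (𝓞 F)) x) = _
      simp only [hT]
      by_cases hx : x = 0
      · have hx' : ((x : 𝓞 F)) = 0 := by rw [hx]; rfl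
        rw [if_pos hx, if_pos hx', hx']
        have : Qa σ (c.R A : Ideal (𝓞 F)) 0 = 0 := by simp [Qa]
        rw [this, Complex.ofReal_zero, G_zero, add_zero]
      · have hx' : ((x : 𝓞 F)) ≠ 0 := fun h => hx (Subtype.ext h)
        rw [if_neg hx, if_neg hx', zero_add]
    rw [tsum_congr e0, Summable.tsum_add (summable_of_ne_finset_zero (s := {0}) (by
      intro x hx
      rw [Finset.mem_singleton] at hx
      rw [if_neg hx])) (hsT A).of_norm, tsum_ite_eq]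
  rw [Finset.sum_congr rfl fun A _ => hB A, ← Finset.mul_sum, Finset.sum_add_distrib, he]
  simp

end

end EisThEAux

open EisThAux EisThEAux in
/-- (H17) -/
theorem stEisThE (h1 : StEisAtQ) (h2 : StEisLawQ) (h3 : StThlE) (h4 : StIdSumE)
    (h5 : StCountE) (h6 : StBasE) (h7 : StThBE) : StEisThE := by
  intro D _ F _ _ s σ χ cj c hd
  have hD3 : 4 < D := hd.ev.1
  obtain ⟨ε, hε, hE⟩ := h1 D _ χ hd.qc
  refine ⟨ε, hε, ?_⟩
  -- the number of ideals
  have hcount : ∀ n : ℕ+, (Nat.card {b : Ideal (𝓞 F) // Ideal.absNorm b = n} : ℂ) =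
      ∑ d ∈ (n : ℕ).divisors, χ ((d : ℕ) : ℤ) := by
    intro n
    have h := h5 D F _ _ s σ χ cj hd n n.pos
    have h' := congrArg (fun z : ℤ => (z : ℂ)) h
    simp only [Int.cast_natCast, Int.cast_sum] at h'
    rw [h']
    refine Finset.sum_congr rfl fun d _ => ?_
    rw [Int.cast_natCast]
    exact (hd.chi d).symm
  -- the double sum as a sum over ideals
  have hdouble : ∀ (r : ℕ) (u : ℂ), 0 < u.im →
      ∑' p : ℕ × ℕ, χ ((p.2 + 1 : ℕ) : ℤ) *
          lag r (4 * Real.pi * ((p.1 + 1 : ℕ) * (p.2 + 1 : ℕ)) * u.im) *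
          ee ((p.1 + 1 : ℕ) * (p.2 + 1 : ℕ) * u) =
        ∑' b : (Ideal (𝓞 F))⁰, G r u (Ideal.absNorm (b : Ideal (𝓞 F)) : ℂ) := by
    intro r u hu
    rw [tsum_ideals (fun n => G r u (n : ℂ)) (sum_thl c h4 h6 h7 hd r hu).1]
    have hn : ∀ n : ℕ+, (Nat.card {b : Ideal (𝓞 F) // Ideal.absNorm b = n} : ℂ) *
        G r u ((n : ℕ) : ℂ) = (∑ d ∈ (n : ℕ).divisors, χ ((d : ℕ) : ℤ)) * G r u ((n : ℕ) : ℂ) :=
      fun n => by rw [hcount n]
    rw [tsum_congr hn,
      ← tsum_pairs r hu (fun n => χ ((n : ℕ) : ℤ)) (fun n => χ.norm_le_one _)]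
    refine tsum_congr fun p => ?_
    unfold G
    push_cast
    ring
  -- the constant
  set κ : ℂ := DirichletCharacter.LFunction χ 1 -
    ε * (Real.pi / Real.sqrt D) * (Fintype.card (ClassGroup (𝓞 F)) : ℂ) with hκ
  have hkey : ∀ (r : ℕ) (u : ℂ), 0 < u.im →
      eis D χ r (-r) u - ε * (Real.pi / Real.sqrt D) *
        ∑ B : ClassGroup (𝓞 F), thl σ (c.R B : Ideal (𝓞 F)) r u =
          ((u.im : ℂ) ^ r)⁻¹ * κ := by
    intro r u hu
    rw [hE r u hu, (sum_thl c h4 h6 h7 hd r hu).2, hdouble r u hu, hκ]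
    ring
  have hκ0 : κ = 0 := by
    have hR : ∀ A, (c.R A : Ideal (𝓞 F)) ≠ ⊥ := fun A => nonZeroDivisors.coe_ne_zero (c.R A)
    -- the matrix (1 0; D 1)
    let g : SL(2, ℤ) := ⟨!![1, 0; (D : ℤ), 1], by simp [Matrix.det_fin_two]⟩
    have g00 : g 0 0 = 1 := rfl
    have g01 : g 0 1 = 0 := rfl
    have g10 : g 1 0 = (D : ℤ) := rfl
    have g11 : g 1 1 = 1 := rfl
    have hI : 0 < Complex.I.im := by simp
    set u' : ℂ := (((g 0 0 : ℤ) : ℂ) * Complex.I + (g 0 1 : ℤ)) /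
      (((g 1 0 : ℤ) : ℂ) * Complex.I + (g 1 1 : ℤ)) with hu'
    have hden : ((D : ℂ) * Complex.I + 1) ≠ 0 := by
      intro h
      have := congrArg Complex.re h
      simp at this
    have hu'im : 0 < u'.im := by
      have e : u' = Complex.I / ((D : ℂ) * Complex.I + 1) := by
        rw [hu', g00, g01, g10, g11]; push_cast; ring
      rw [e, Complex.div_im]
      have : 0 < Complex.normSq ((D : ℂ) * Complex.I + 1) := Complex.normSq_pos.2 hden
      simp
      positivity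
    have a1 := h2 D inferInstance χ 0 hd.qc 0 (by simp) g Complex.I hI
      (by rw [g10])
    have a2 : ∀ B, thl σ (c.R B : Ideal (𝓞 F)) 0 u' = χ (g 1 1 : ℤ) *
        (((g 1 0 : ℤ) : ℂ) * Complex.I + (g 1 1 : ℤ)) ^ (2 * 0 + 1) *
          thl σ (c.R B : Ideal (𝓞 F)) 0 Complex.I :=
      fun B => (h3 D F _ _ s σ χ cj hd).1 (c.R B : Ideal (𝓞 F)) 0 (hR B) g
        Complex.I hI (by rw [g10])
    have b1 := hkey 0 Complex.I hI
    have b2 := hkey 0 u' hu'im
    have hc1 : χ ((g 1 1 : ℤ) : ℤ) = 1 := by rw [g11]; simp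
    rw [← hu'] at a1
    have z0 : (-((0 : ℕ) : ℂ)) = 0 := by simp
    rw [z0] at b1 b2
    rw [a1, Finset.sum_congr rfl fun B _ => a2 B, hc1] at b2
    rw [← Finset.mul_sum] at b2
    simp only [pow_zero, inv_one, one_mul, mul_zero, zero_add, pow_one] at b1 b2
    rw [g10, g11] at b2
    push_cast at b2
    have : (D : ℂ) * Complex.I * κ = 0 := by
      linear_combination b2 - ((D : ℂ) * Complex.I + 1) * b1
    rcases mul_eq_zero.1 this with h | h
    · exfalso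
      rcases mul_eq_zero.1 h with h | h
      · have : D ≠ 0 := by omega
        exact this (by exact_mod_cast h)
      · exact Complex.I_ne_zero h
    · exact h
  intro r u hu
  have := hkey r u hu
  rw [hκ0, mul_zero, sub_eq_zero] at this
  exact this

end RZ

end Pool.Agent.Lib.MP_7c08ba_nt
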