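import Mathlib
import Pool.Agent.Lib.MP_7c08ba_nt.RZ.StH
import Pool.Agent.Lib.MP_7c08ba_nt.RZ.Eul

set_option autoImplicit false

/-!
The Euler product over the places of the field (all even fundamental discriminants).
-/

namespace Pool.Agent.Lib.MP_7c08ba_nt

namespace RZ

open NumberField MeasureTheory UpperHalfPlane Set IsDedekindDomain
open scoped MatrixGroups ComplexConjugate nonZeroDivisors

namespace EulEAux

variable {F : Type} [Field F] [NumberField F]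

open EulAux

theorem kr_tri (D p : ℕ) : kr D p = 0 ∨ kr D p = 1 ∨ kr D p = -1 := by
  unfold kr
  split_ifs
  · exact Or.inl rfl
  · exact jacobiSym.trichotomy _ _

/-- the places above a rational prime -/
theorem above (h2 : StSplitE) {D : ℕ} {s : 𝓞 F} {σ : F →+* ℂ} {χ : DirichletCharacter ℂ D}
    {cj : 𝓞 F ≃+* 𝓞 F} (hD : DatE D s σ χ cj) (p : Nat.Primes) :
    ∃ A B : Ideal (𝓞 F), ∀ v : HeightOneSpectrum (𝓞 F), (p : 𝓞 F) ∈ v.asIdeal →
      (v.asIdeal = A ∨ v.asIdeal = B) ∧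
      (Ideal.absNorm v.asIdeal = p ∨ Ideal.absNorm v.asIdeal = p ^ 2) := by
  obtain ⟨c1, c2, c3⟩ := h2 D F _ _ s σ χ cj hD p p.2
  have hp0 : (Ideal.span {((p : ℕ) : 𝓞 F)}) ≠ ⊥ := by
    rw [Ne, Ideal.span_singleton_eq_bot]
    exact_mod_cast p.2.ne_zero
  have max : ∀ (P : Ideal (𝓞 F)) (v : HeightOneSpectrum (𝓞 F)), P.IsPrime → P ≠ ⊥ →
      P ≤ v.asIdeal → v.asIdeal = P := by
    intro P v hP hP0 hle
    exact ((hP.isMaximal hP0).eq_of_le v.isPrime.ne_top hle).symm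
  rcases kr_tri D p with h | h | h
  · obtain ⟨-, P, hs, hs2, hn⟩ := c3 h
    refine ⟨P, P, fun v hv => ?_⟩
    have hle : P ≤ v.asIdeal := by
      have : P ^ 2 ≤ v.asIdeal := by
        rw [hs2, Ideal.span_singleton_le_iff_mem]; exact hv
      exact v.isPrime.le_of_pow_le this
    have h0 : P ≠ ⊥ := by
      intro h0
      rw [h0] at hs2
      apply hp0
      rw [← hs2]
      simp
    have ev := max _ v hs h0 hle
    exact ⟨Or.inl ev, Or.inl (by rw [ev, hn])⟩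
  · obtain ⟨P, P', hP, hP', -, hPP, hN, hN'⟩ := c1 h
    refine ⟨P, P', fun v hv => ?_⟩
    have hle : P * P' ≤ v.asIdeal := by
      rw [hPP, Ideal.span_singleton_le_iff_mem]; exact hv
    have hb : P ≠ ⊥ ∧ P' ≠ ⊥ := by
      constructor
      · rintro rfl; apply hp0; rw [← hPP]; simp
      · rintro rfl; apply hp0; rw [← hPP]; simp
    rcases v.isPrime.mul_le.1 hle with h' | h'
    · have ev := max _ v hP hb.1 h'
      exact ⟨Or.inl ev, Or.inl (by rw [ev, hN])⟩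
    · have ev := max _ v hP' hb.2 h'
      exact ⟨Or.inr ev, Or.inl (by rw [ev, hN'])⟩
  · obtain ⟨hP, hN⟩ := c2 h
    refine ⟨Ideal.span {(p : 𝓞 F)}, Ideal.span {(p : 𝓞 F)}, fun v hv => ?_⟩
    have ev := max _ v hP hp0 (by rw [Ideal.span_singleton_le_iff_mem]; exact hv)
    exact ⟨Or.inl ev, Or.inr (by rw [ev, hN])⟩

/-- convergence of the sum over the places -/
theorem summable_pr (h2 : StSplitE) {D : ℕ} {s : 𝓞 F} {σ : F →+* ℂ} {χ : DirichletCharacter ℂ D}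
    {cj : 𝓞 F ≃+* 𝓞 F} (hD : DatE D s σ χ cj) {x : ℝ} (hx : 1 < x) :
    Summable fun v : HeightOneSpectrum (𝓞 F) => ((pr v : ℕ) : ℝ) ^ (-x) := by
  classical
  choose A B hAB using fun p => above h2 hD p
  let φ : HeightOneSpectrum (𝓞 F) → Nat.Primes × Bool :=
    fun v => (pr v, decide (v.asIdeal = A (pr v)))
  have hφ : Function.Injective φ := by
    intro v v' h
    have e1 : pr v = pr v' := congrArg Prod.fst h
    have e2 : decide (v.asIdeal = A (pr v)) = decide (v'.asIdeal = A (pr v')) :=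
      congrArg Prod.snd h
    apply HeightOneSpectrum.ext
    have a1 := (hAB (pr v) v (pr_mem v)).1
    have a2 := (hAB (pr v') v' (pr_mem v')).1
    rw [decide_eq_decide] at e2
    by_cases hA : v.asIdeal = A (pr v)
    · rw [hA, e2.1 hA, e1]
    · have hA' : v'.asIdeal ≠ A (pr v') := fun h' => hA (e2.2 h')
      rw [a1.resolve_left hA, a2.resolve_left hA', e1]
  have s1 : Summable fun p : Nat.Primes => ((p : ℕ) : ℝ) ^ (-x) :=
    Nat.Primes.summable_rpow.2 (by linarith)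
  have s2 : Summable fun _ : Bool => (1 : ℝ) := Summable.of_finite
  have s3 := s1.mul_of_nonneg s2 (fun p => by positivity) (fun _ => zero_le_one)
  have s4 := s3.comp_injective hφ
  simpa [Function.comp_def, φ] using s4

/-- the size of the Euler factors -/
theorem bound (h2 : StSplitE) (h3 : StCoef) (h4 : StPsiE) (h6 : StW12) {D : ℕ} {s : 𝓞 F}
    {σ : F →+* ℂ} {χ : DirichletCharacter ℂ D} {cj : 𝓞 F ≃+* 𝓞 F} (hD : DatE D s σ χ cj)
    {w r : ℕ} {f : CuspForm 𝒮ℒ (w : ℤ)} {ψ : Ideal (𝓞 F) →*₀ ℂ} (hf : IsEigen f)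
    (hψ : IsHecke σ (w + 2 * r) ψ) {z : ℂ} (hz : 1 < z.re) :
    ∃ K : ℝ, ∀ v : HeightOneSpectrum (𝓞 F),
      ‖eulF f ψ ((w : ℂ) + r + z) v - 1‖ ≤ K * ((pr v : ℕ) : ℝ) ^ (-z.re) := by
  obtain ⟨-, ⟨C, hC⟩, -, -, -⟩ := h3 w f
  obtain ⟨-, hψn, -⟩ := h4 D F _ _ s σ χ cj (w + 2 * r) ψ hD hψ
  have hw : 12 ≤ w := (h6 w f hf).1
  have hC0 : 0 ≤ C := by
    have := hC 1
    simp only [Nat.cast_one, Real.one_rpow, mul_one] at this
    exact (norm_nonneg _).trans this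
  refine ⟨(C ^ 2 + C + 2) + 1, fun v => ?_⟩
  obtain ⟨A, B, hAB⟩ := above h2 hD (pr v)
  have hN := (hAB v (pr_mem v)).2
  set p : ℕ := (pr v : ℕ) with hp
  have hpp : p.Prime := (pr v).2
  have hp1 : (1 : ℝ) ≤ p := by exact_mod_cast hpp.one_lt.le
  set N : ℕ := Ideal.absNorm v.asIdeal with hNdef
  have hNp : p ≤ N := by
    rcases hN with h | h <;> rw [h]
    exact Nat.le_self_pow two_ne_zero _
  have hN0 : 0 < N := hpp.pos.trans_le hNp
  have hL : (0 : ℝ) < N := by exact_mod_cast hN0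
  have hL1 : (1 : ℝ) ≤ N := by exact_mod_cast hN0
  -- the trace
  have ht : ‖tv f v‖ ≤ (C ^ 2 + C + 2) * (N : ℝ) ^ ((w : ℝ) / 2) := by
    have hpos : 0 ≤ (N : ℝ) ^ ((w : ℝ) / 2) := by positivity
    unfold tv
    rw [← hNdef]
    rcases hN with h | h
    · rw [if_pos (by rw [h]; exact hpp)]
      refine (hC _).trans ?_
      gcongr
      nlinarith [sq_nonneg C]
    · rw [if_neg (by rw [h]; exact Nat.Prime.not_prime_pow le_rfl)]
      have hm : N.minFac = p := by rw [h, hpp.pow_minFac two_ne_zero]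
      rw [hm]
      have e1 : (N : ℝ) ^ ((w : ℝ) / 2) = (p : ℝ) ^ w := by
        rw [h, Nat.cast_pow, ← Real.rpow_natCast, ← Real.rpow_mul (by positivity),
          ← Real.rpow_natCast]
        congr 1
        push_cast
        ring
      have e2 : ‖coef f p‖ ^ 2 ≤ C ^ 2 * (p : ℝ) ^ w := by
        have := hC p
        calc ‖coef f p‖ ^ 2 ≤ (C * (p : ℝ) ^ ((w : ℝ) / 2)) ^ 2 := by gcongr
          _ = C ^ 2 * (p : ℝ) ^ w := by
            rw [mul_pow, ← Real.rpow_natCast ((p : ℝ) ^ ((w : ℝ) / 2)), ← Real.rpow_mul (by positivity)]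
            congr 1
            rw [← Real.rpow_natCast]
            congr 1
            push_cast
            ring
      have e3 : (p : ℝ) ^ (w - 1) ≤ (p : ℝ) ^ w := pow_le_pow_right₀ hp1 (Nat.sub_le _ _)
      calc ‖coef f p ^ 2 - 2 * (p : ℂ) ^ (w - 1)‖
          ≤ ‖coef f p ^ 2‖ + ‖2 * (p : ℂ) ^ (w - 1)‖ := norm_sub_le _ _
        _ = ‖coef f p‖ ^ 2 + 2 * (p : ℝ) ^ (w - 1) := by
          rw [norm_pow, norm_mul, norm_pow, Complex.norm_natCast, Complex.norm_ofNat]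
        _ ≤ C ^ 2 * (p : ℝ) ^ w + 2 * (p : ℝ) ^ w := by gcongr
        _ ≤ (C ^ 2 + C + 2) * (N : ℝ) ^ ((w : ℝ) / 2) := by
          rw [e1]
          have : 0 ≤ (p : ℝ) ^ w := by positivity
          nlinarith [mul_nonneg hC0 this]
  -- the character
  have hψv : ‖ψ v.asIdeal‖ = (N : ℝ) ^ (((w + 2 * r : ℕ) : ℝ) / 2) := by
    have h1 := hψn v.asIdeal v.ne_bot
    rw [← hNdef] at h1
    have h2 : ‖ψ v.asIdeal‖ = Real.sqrt ((N : ℝ) ^ (w + 2 * r)) := by
      rw [← h1, Real.sqrt_sq (norm_nonneg _)]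
    rw [h2, Real.sqrt_eq_rpow, ← Real.rpow_natCast, ← Real.rpow_mul hL.le]
    congr 1
    ring
  have hcp : ‖((N : ℕ) : ℂ) ^ (-((w : ℂ) + r + z))‖ = (N : ℝ) ^ (-((w : ℝ) + r + z.re)) := by
    rw [Complex.norm_natCast_cpow_of_pos hN0]
    simp
  have e : eulF f ψ ((w : ℂ) + r + z) v - 1 =
      -(tv f v * ψ v.asIdeal * (N : ℂ) ^ (-((w : ℂ) + r + z))) +
        (N : ℂ) ^ (w - 1) * (ψ v.asIdeal) ^ 2 * ((N : ℂ) ^ (-((w : ℂ) + r + z))) ^ 2 := by
    unfold eulF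
    ring
  have t1 : ‖tv f v * ψ v.asIdeal * (N : ℂ) ^ (-((w : ℂ) + r + z))‖ ≤
      (C ^ 2 + C + 2) * (N : ℝ) ^ (-z.re) := by
    rw [norm_mul, norm_mul, hψv, hcp]
    calc ‖tv f v‖ * (N : ℝ) ^ (((w + 2 * r : ℕ) : ℝ) / 2) * (N : ℝ) ^ (-((w : ℝ) + r + z.re))
        ≤ ((C ^ 2 + C + 2) * (N : ℝ) ^ ((w : ℝ) / 2)) * (N : ℝ) ^ (((w + 2 * r : ℕ) : ℝ) / 2) *
          (N : ℝ) ^ (-((w : ℝ) + r + z.re)) := by gcongr
      _ = (C ^ 2 + C + 2) * (N : ℝ) ^ (-z.re) := by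
        rw [mul_assoc, mul_assoc, ← Real.rpow_add hL, ← Real.rpow_add hL]
        congr 2
        push_cast
        ring
  have t2 : ‖(N : ℂ) ^ (w - 1) * (ψ v.asIdeal) ^ 2 * ((N : ℂ) ^ (-((w : ℂ) + r + z))) ^ 2‖ ≤
      1 * (N : ℝ) ^ (-z.re) := by
    rw [norm_mul, norm_mul, norm_pow, norm_pow, norm_pow, hψv, hcp, Complex.norm_natCast]
    have e1 : (N : ℝ) ^ (w - 1) = (N : ℝ) ^ ((w : ℝ) - 1) := by
      rw [← Real.rpow_natCast, Nat.cast_sub (by omega)]
      simp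
    rw [e1, ← Real.rpow_natCast ((N : ℝ) ^ (((w + 2 * r : ℕ) : ℝ) / 2)), ← Real.rpow_mul hL.le,
      ← Real.rpow_natCast ((N : ℝ) ^ (-((w : ℝ) + r + z.re))), ← Real.rpow_mul hL.le,
      ← Real.rpow_add hL, ← Real.rpow_add hL, one_mul]
    apply Real.rpow_le_rpow_of_exponent_le hL1
    push_cast
    nlinarith
  have hpN : (N : ℝ) ^ (-z.re) ≤ (p : ℝ) ^ (-z.re) := by
    apply Real.rpow_le_rpow_of_nonpos (by linarith) (by exact_mod_cast hNp) (by linarith)
  calc ‖eulF f ψ ((w : ℂ) + r + z) v - 1‖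
      ≤ (C ^ 2 + C + 2) * (N : ℝ) ^ (-z.re) + 1 * (N : ℝ) ^ (-z.re) := by
        rw [e]
        refine (norm_add_le _ _).trans ?_
        rw [norm_neg]
        exact add_le_add t1 t2
    _ = (C ^ 2 + C + 2 + 1) * (N : ℝ) ^ (-z.re) := by ring
    _ ≤ (C ^ 2 + C + 2 + 1) * (p : ℝ) ^ (-z.re) := by gcongr

end EulEAux

theorem stEulE (h1 : StEulQE) (h2 : StSplitE) (h3 : StCoef) (h4 : StPsiE) (h6 : StW12) : StEulE := by
  intro D _ F _ _ s σ χ cj w r f ψ hD hf hψ z hz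
  obtain ⟨hne, hprod⟩ := h1 D _ F _ _ s σ χ cj w r f ψ hD hf hψ z hz
  obtain ⟨K, hK⟩ := EulEAux.bound h2 h3 h4 h6 hD hf hψ hz
  set E := eulF f ψ ((w : ℂ) + r + z) with hE
  have s1 : Summable fun v : HeightOneSpectrum (𝓞 F) => ‖E v - 1‖ :=
    Summable.of_nonneg_of_le (fun _ => norm_nonneg _) hK ((EulEAux.summable_pr h2 hD hz).mul_left K)
  have s2 : Summable fun v : HeightOneSpectrum (𝓞 F) => ‖(E v)⁻¹ - 1‖ := by
    refine Summable.of_norm_bounded_eventually (g := fun v => 2 * ‖E v - 1‖) (s1.mul_left 2) ?_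
    have := s1.tendsto_cofinite_zero.eventually (gt_mem_nhds (show (0 : ℝ) < 1 / 2 by norm_num))
    filter_upwards [this] with v hv
    rw [norm_norm]
    have e : (E v)⁻¹ - 1 = (1 - E v) * (E v)⁻¹ := by
      rw [sub_mul, mul_inv_cancel₀ (hne v), one_mul]
    have hl : 1 / 2 ≤ ‖E v‖ := by
      have := norm_sub_norm_le (1 : ℂ) (E v)
      rw [norm_one, norm_sub_rev] at this
      linarith
    rw [e, norm_mul, norm_inv, norm_sub_rev, mul_comm]
    have : ‖E v‖⁻¹ ≤ 2 := by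
      rw [inv_le_comm₀ (by linarith) (by norm_num)]
      linarith
    gcongr
  have hm : Multipliable fun v : HeightOneSpectrum (𝓞 F) => (E v)⁻¹ := by
    have := multipliable_one_add_of_summable s2
    simpa using this
  -- the equivalence
  let e : (Σ p : Nat.Primes, {v : HeightOneSpectrum (𝓞 F) // (p : 𝓞 F) ∈ v.asIdeal}) ≃
      HeightOneSpectrum (𝓞 F) :=
    { toFun := fun x => x.2.1
      invFun := fun v => ⟨EulAux.pr v, v, EulAux.pr_mem v⟩
      left_inv := by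
        rintro ⟨p, v, hv⟩
        obtain rfl := EulAux.pr_eq hv
        rfl
      right_inv := fun v => rfl }
  have hm' := (e.hasProd_iff (f := fun v => (E v)⁻¹)).2 hm.hasProd
  have fin : ∀ p : Nat.Primes,
      Finite {v : HeightOneSpectrum (𝓞 F) // (p : 𝓞 F) ∈ v.asIdeal} := by
    intro p
    obtain ⟨A, B, hAB⟩ := EulEAux.above h2 hD p
    let g : {v : HeightOneSpectrum (𝓞 F) // (p : 𝓞 F) ∈ v.asIdeal} → ({A, B} : Set (Ideal (𝓞 F))) :=
      fun v => ⟨v.1.asIdeal, by simpa using (hAB v.1 v.2).1⟩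
    apply Finite.of_injective g
    intro v v' h
    apply Subtype.ext
    apply HeightOneSpectrum.ext
    exact congrArg Subtype.val h
  have hs := hm'.sigma (g := fun p : Nat.Primes => ∏ᶠ v : {v : HeightOneSpectrum (𝓞 F) //
        (p : 𝓞 F) ∈ v.asIdeal}, (E v.1)⁻¹) (fun p => by
    have := fin p
    have := Fintype.ofFinite {v : HeightOneSpectrum (𝓞 F) // (p : 𝓞 F) ∈ v.asIdeal}
    rw [finprod_eq_prod_of_fintype]
    exact hasProd_fintype _)
  rw [← hs.unique hprod]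
  exact hm.hasProd

end RZ

end Pool.Agent.Lib.MP_7c08ba_nt
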