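import Mathlib
import Pool.Agent.Lib.MP_7c08ba_nt.RZ.StH
import Pool.Agent.Lib.MP_7c08ba_nt.DH.Defs

set_option autoImplicit false

/-!
Fundamental discriminants, and the analytic part for all of them.
-/

namespace Pool.Agent.Lib.MP_7c08ba_nt

namespace RZ

open NumberField MeasureTheory UpperHalfPlane Set IsDedekindDomain
open scoped MatrixGroups ComplexConjugate nonZeroDivisors

/-- Every fundamental discriminant `-D < -4` is odd or even. -/
theorem fund_cases {D : ℕ} (h : BKDH.IsFund D) (h4 : 4 < D) : OddD D ∨ EvD D := by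
  obtain ⟨h2, hp⟩ := h
  have hF2 : D % 4 = 3 ∨ D % 16 = 4 ∨ D % 16 = 8 := by
    rcases h2 with h | h | h <;> omega
  rcases hF2 with h | h
  · left
    refine ⟨?_, h, by omega⟩
    rw [Nat.squarefree_iff_prime_squarefree]
    intro p hpp hd
    by_cases h2 : p = 2
    · subst h2
      obtain ⟨c, hc⟩ := hd
      omega
    · exact hp p hpp h2 (by rw [pow_two]; exact hd)
  · right
    obtain ⟨n, hn⟩ : 4 ∣ D := by omega
    refine ⟨h4, n, hn, ?_, by omega⟩
    rw [Nat.squarefree_iff_prime_squarefree]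
    intro p hpp hd
    by_cases h2 : p = 2
    · subst h2
      obtain ⟨c, hc⟩ := hd
      omega
    · refine hp p hpp h2 ?_
      rw [pow_two, hn]
      exact hd.mul_left 4

/-- The analytic part for every fundamental discriminant `-D < -4`. -/
def StMainA : Prop :=
  ∀ (D : ℕ) (F : Type) (_ : Field F) (_ : NumberField F) (s : F)
    (σ : F →+* ℂ) (w r : ℕ) (f : CuspForm 𝒮ℒ (w : ℤ)) (ψ : Ideal (𝓞 F) →*₀ ℂ),
    BKDH.IsFund D → 4 < D → Module.finrank ℚ F = 2 → s ^ 2 = -(D : F) → IsEigen f →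
    IsHecke σ (w + 2 * r) ψ →
    ∃ Λ : ℂ → ℂ, DifferentiableOn ℂ Λ {z | -1 / 2 < z.re} ∧
      (∀ z : ℂ, 1 < z.re → HasProd (fun v : HeightOneSpectrum (𝓞 F) =>
        (eulF f ψ ((w : ℂ) + r + z) v)⁻¹) (Λ z)) ∧
      ∀ c : Reps σ, ∃ K : ℂ, K ≠ 0 ∧ Λ 0 = K * period f r ψ c ^ 2

theorem stMainA (h1 : StMainD) (h2 : StMainE) : StMainA := by
  intro D F i1 i2 s σ w r f ψ hD h4 hF hs hf hψ
  rcases fund_cases hD h4 with h | h
  · exact h1 D F i1 i2 s σ w r f ψ h hF hs hf hψ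
  · exact h2 D F i1 i2 s σ w r f ψ h hF hs hf hψ

/-- The case of primes `q = 7` modulo `16`. -/
theorem stMain_of (h : StMainD) : StMain := by
  intro q F i1 i2 s σ w r f ψ hq h7 hF hs hf hψ
  refine h q F i1 i2 s σ w r f ψ ⟨?_, by omega, by omega⟩ hF hs hf hψ
  exact (Nat.prime_iff.mp hq).squarefree

end RZ

end Pool.Agent.Lib.MP_7c08ba_nt
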