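import Pool.Agent.Lib.MP_7c08ba_nt.RZ.StH

set_option autoImplicit false

/-! (H34) genus theory: the number of triples is at most twice the square of the class number. -/

namespace Pool.Agent.Lib.MP_7c08ba_nt

namespace RZ

open NumberField UpperHalfPlane
open scoped MatrixGroups ComplexConjugate nonZeroDivisors

namespace GenEAux

/-! ### Counting -/

/-- the number of pairs with the same image -/
theorem pairs_le {C Q : Type} [CommGroup C] [Fintype C] [CommGroup Q] [DecidableEq Q]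
    (φ : C →* Q) (K : ℕ) (hK : K ≤ 2 * Nat.card φ.range) :
    ∑ A : C, ∑ B : C, (if φ A = φ B then K else 0) ≤ 2 * Nat.card C ^ 2 := by
  classical
  have h1 : ∀ A : C, ∑ B : C, (if φ A = φ B then K else 0) = Nat.card φ.ker * K := by
    intro A
    rw [← Finset.sum_filter, Finset.sum_const, smul_eq_mul]
    congr 1
    rw [Nat.card_eq_fintype_card, Fintype.card_subtype]
    refine Finset.card_bij' (fun B _ => B * A⁻¹) (fun B _ => B * A) ?_ ?_ ?_ ?_
    · intro B hB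
      rw [Finset.mem_filter] at hB ⊢
      refine ⟨Finset.mem_univ _, ?_⟩
      rw [MonoidHom.mem_ker, map_mul, map_inv, ← hB.2, mul_inv_cancel]
    · intro B hB
      rw [Finset.mem_filter] at hB ⊢
      refine ⟨Finset.mem_univ _, ?_⟩
      have := hB.2
      rw [MonoidHom.mem_ker] at this
      rw [map_mul, this, one_mul]
    · intro B _
      simp
    · intro B _
      simp
  rw [Finset.sum_congr rfl fun A _ => h1 A, Finset.sum_const, smul_eq_mul, Finset.card_univ,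
    ← Nat.card_eq_fintype_card]
  have h2 : Nat.card φ.ker * Nat.card φ.range = Nat.card C := by
    rw [← Subgroup.index_ker]
    exact Subgroup.card_mul_index _
  calc Nat.card C * (Nat.card φ.ker * K)
      ≤ Nat.card C * (Nat.card φ.ker * (2 * Nat.card φ.range)) := by gcongr
    _ = 2 * (Nat.card C * (Nat.card φ.ker * Nat.card φ.range)) := by ring
    _ = 2 * Nat.card C ^ 2 := by rw [h2]; ring

/-- the abstract form of the counting argument -/
theorem count {C U V : Type} [CommGroup C] [Fintype C] [CommGroup U] [Finite U] [CommGroup V]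
    [Finite V] (ν : U →* V) (u : C → V)
    (hmul : ∀ A B, (u A * u B)⁻¹ * u (A * B) ∈ ν.range) (ε : V)
    (hε : ∀ v : V, (∃ A, v⁻¹ * u A ∈ ν.range) ∨ ∃ A, (v * ε)⁻¹ * u A ∈ ν.range)
    (hcard : Nat.card U ≤ Nat.card V) (S : C → C → Type)
    (hS : ∀ A B, ∃ g : S A B → U, Function.Injective g ∧ ∀ ρ, ν (g ρ) * u B = u A) :
    ∑ A : C, ∑ B : C, Nat.card (S A B) ≤ 2 * Nat.card C ^ 2 := by
  classical
  let φ : C →* V ⧸ ν.range := MonoidHom.mk' (fun A => (u A : V ⧸ ν.range)) (by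
    intro A B
    have h3 : ((u A * u B : V) : V ⧸ ν.range) = (u (A * B) : V ⧸ ν.range) := by
      rw [QuotientGroup.eq]
      exact hmul A B
    rw [← h3, QuotientGroup.mk_mul])
  have hφ : ∀ A, φ A = (u A : V ⧸ ν.range) := fun _ => rfl
  have hQ : Nat.card (V ⧸ ν.range) ≤ 2 * Nat.card φ.range := by
    have h3 : Nat.card (φ.range × Bool) = 2 * Nat.card φ.range := by
      rw [Nat.card_prod, mul_comm]
      congr 1
      simp
    rw [← h3]
    refine Nat.card_le_card_of_surjective (fun q : φ.range × Bool =>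
      (q.1 : V ⧸ ν.range) * (if q.2 then (((ε : V) : V ⧸ ν.range))⁻¹ else 1)) ?_
    intro q
    obtain ⟨v, rfl⟩ := QuotientGroup.mk_surjective q
    rcases hε v with ⟨A, hA⟩ | ⟨A, hA⟩
    · refine ⟨(⟨φ A, A, rfl⟩, false), ?_⟩
      show φ A * 1 = _
      rw [mul_one, hφ, eq_comm, QuotientGroup.eq]
      exact hA
    · refine ⟨(⟨φ A, A, rfl⟩, true), ?_⟩
      show φ A * ((ε : V ⧸ ν.range))⁻¹ = _
      have h4 : φ A = ((v * ε : V) : V ⧸ ν.range) := by
        rw [hφ, eq_comm, QuotientGroup.eq]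
        exact hA
      rw [h4, QuotientGroup.mk_mul, mul_inv_cancel_right]
  have hK : Nat.card ν.ker ≤ 2 * Nat.card φ.range := by
    refine le_trans ?_ hQ
    have h3 : Nat.card ν.ker * Nat.card ν.range = Nat.card U := by
      rw [← Subgroup.index_ker]
      exact Subgroup.card_mul_index _
    have h4 : Nat.card ν.range * Nat.card (V ⧸ ν.range) = Nat.card V :=
      Subgroup.card_mul_index _
    rw [← h3, ← h4, mul_comm] at hcard
    exact Nat.le_of_mul_le_mul_left hcard Nat.card_pos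
  refine le_trans ?_ (pairs_le φ _ hK)
  refine Finset.sum_le_sum fun A _ => Finset.sum_le_sum fun B _ => ?_
  obtain ⟨g, hg, hgu⟩ := hS A B
  by_cases hne : Nonempty (S A B)
  · obtain ⟨ρ₀⟩ := hne
    have hAB : φ A = φ B := by
      rw [hφ, hφ, eq_comm, QuotientGroup.eq]
      refine ⟨g ρ₀, ?_⟩
      rw [← hgu ρ₀, mul_comm, mul_inv_cancel_right]
    rw [if_pos hAB]
    have hk : ∀ ρ, g ρ * (g ρ₀)⁻¹ ∈ ν.ker := by
      intro ρ
      rw [MonoidHom.mem_ker, map_mul, map_inv, mul_inv_eq_one]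
      exact mul_right_cancel ((hgu ρ).trans (hgu ρ₀).symm)
    refine Nat.card_le_card_of_injective (fun ρ => (⟨g ρ * (g ρ₀)⁻¹, hk ρ⟩ : ν.ker)) ?_
    intro ρ ρ' h
    exact hg (mul_right_cancel (congrArg Subtype.val h))
  · rw [not_nonempty_iff] at hne
    rw [Nat.card_of_isEmpty]
    exact Nat.zero_le _

/-! ### The norm modulo `D` -/

section

variable {D : ℕ} {F : Type} [Field F] [NumberField F] {s : 𝓞 F} {σ : F →+* ℂ}
  {χ : DirichletCharacter ℂ D} {cj : 𝓞 F ≃+* 𝓞 F}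

/-- the norm modulo `D` -/
noncomputable def nrm (D : ℕ) (s : 𝓞 F) (ρ : 𝓞 F ⧸ Ideal.span {s}) : ZMod D :=
  ((Ideal.absNorm (Ideal.span {(Ideal.Quotient.mk_surjective ρ).choose}) : ℕ) : ZMod D)

theorem nrm_mk (hB : StBasE) (hd : DatE D s σ χ cj) (x : 𝓞 F) :
    nrm D s (Ideal.Quotient.mk (Ideal.span {s}) x) = (Ideal.absNorm (Ideal.span {x}) : ZMod D) := by
  obtain ⟨-, -, -, -, -, -, -, -, -, hc⟩ := hB D F _ _ s σ χ cj hd
  refine hc _ _ ?_
  rw [← Ideal.mem_span_singleton, ← Ideal.Quotient.eq]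
  exact (Ideal.Quotient.mk_surjective (Ideal.Quotient.mk (Ideal.span {s}) x)).choose_spec

/-- the norm as a homomorphism -/
noncomputable def nrmHom (hB : StBasE) (hd : DatE D s σ χ cj) :
    (𝓞 F ⧸ Ideal.span {s}) →* ZMod D where
  toFun := nrm D s
  map_one' := by
    rw [← map_one (Ideal.Quotient.mk (Ideal.span {s})), nrm_mk hB hd, Ideal.span_singleton_one,
      Ideal.absNorm_top, Nat.cast_one]
  map_mul' x y := by
    obtain ⟨x, rfl⟩ := Ideal.Quotient.mk_surjective x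
    obtain ⟨y, rfl⟩ := Ideal.Quotient.mk_surjective y
    rw [← map_mul, nrm_mk hB hd, nrm_mk hB hd, nrm_mk hB hd,
      ← Ideal.span_singleton_mul_span_singleton, map_mul, Nat.cast_mul]

theorem nrmHom_mk (hB : StBasE) (hd : DatE D s σ χ cj) (x : 𝓞 F) :
    nrmHom hB hd (Ideal.Quotient.mk (Ideal.span {s}) x) =
      (Ideal.absNorm (Ideal.span {x}) : ZMod D) := nrm_mk hB hd x

theorem rhoOK_iff (hB : StBasE) (hd : DatE D s σ χ cj) (a b : Ideal (𝓞 F))
    (ρ : 𝓞 F ⧸ Ideal.span {s}) : RhoOK D s a b ρ ↔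
      nrmHom hB hd ρ * (Ideal.absNorm b : ZMod D) = (Ideal.absNorm a : ZMod D) := by
  constructor
  · rintro ⟨x, rfl, hx⟩
    rw [nrmHom_mk]
    exact hx
  · intro h
    obtain ⟨x, rfl⟩ := Ideal.Quotient.mk_surjective ρ
    refine ⟨x, rfl, ?_⟩
    rw [nrmHom_mk] at h
    exact h

/-- a residue is invertible if its norm is -/
theorem isUnit_of_nrm (hB : StBasE) (hd : DatE D s σ χ cj) {ρ : 𝓞 F ⧸ Ideal.span {s}}
    (h : IsUnit (nrmHom hB hd ρ)) : IsUnit ρ := by
  obtain ⟨x, rfl⟩ := Ideal.Quotient.mk_surjective ρ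
  rw [nrmHom_mk] at h
  obtain ⟨-, -, -, -, hN, -, -, -, -, -⟩ := hB D F _ _ s σ χ cj hd
  obtain ⟨m, hm⟩ := h.exists_right_inv
  obtain ⟨k, rfl⟩ := ZMod.intCast_surjective m
  have h1 : (((Ideal.absNorm (Ideal.span {x}) : ℤ) * k - 1 : ℤ) : ZMod D) = 0 := by
    push_cast
    rw [hm, sub_self]
  rw [ZMod.intCast_zmod_eq_zero_iff_dvd] at h1
  obtain ⟨j, hj⟩ := h1
  refine IsUnit.of_mul_eq_one (Ideal.Quotient.mk (Ideal.span {s}) (cj x * k)) ?_
  rw [← map_mul, ← map_one (Ideal.Quotient.mk (Ideal.span {s})), Ideal.Quotient.eq,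
    Ideal.mem_span_singleton]
  have h2 : x * (cj x * k) - 1 = (((Ideal.absNorm (Ideal.span {x}) : ℤ) * k - 1 : ℤ) : 𝓞 F) := by
    rw [← mul_assoc, hN]
    push_cast
    ring
  rw [h2, hj]
  refine ⟨-s * j, ?_⟩
  push_cast
  have := hd.sq
  linear_combination (j : 𝓞 F) * this

/-- the norm of an ideal prime to `s` is invertible -/
theorem norm_unit (hB : StBasE) (hd : DatE D s σ χ cj) {a : Ideal (𝓞 F)}
    (ha : IsCoprime a (Ideal.span {s})) : IsUnit ((Ideal.absNorm a : ℕ) : ZMod D) := by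
  rw [Ideal.isCoprime_iff_exists] at ha
  obtain ⟨i, hi, j, hj, hij⟩ := ha
  have h1 : Ideal.Quotient.mk (Ideal.span {s}) i = 1 := by
    rw [← map_one (Ideal.Quotient.mk (Ideal.span {s})), Ideal.Quotient.eq, ← hij]
    simpa using neg_mem hj
  have h2 := nrmHom_mk hB hd i
  rw [h1, map_one] at h2
  obtain ⟨m, hm⟩ := Ideal.absNorm_dvd_absNorm_of_le ((Ideal.span_singleton_le_iff_mem a).2 hi)
  rw [hm] at h2
  push_cast at h2
  exact IsUnit.of_mul_eq_one _ h2.symm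

/-- the product of the norms of equivalent ideals is the norm of an element -/
theorem norm_prin (hB : StBasE) (hd : DatE D s σ χ cj) {a b : (Ideal (𝓞 F))⁰}
    (hab : ClassGroup.mk0 a = ClassGroup.mk0 b) :
    ∃ z : 𝓞 F, Ideal.absNorm (Ideal.span {z}) =
      Ideal.absNorm (a : Ideal (𝓞 F)) * Ideal.absNorm (b : Ideal (𝓞 F)) := by
  obtain ⟨-, -, -, -, hNx, -, hN, -, -, -⟩ := hB D F _ _ s σ χ cj hd
  have hb0 : (b : Ideal (𝓞 F)) ≠ ⊥ := nonZeroDivisors.coe_ne_zero b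
  have hbc0 : (b : Ideal (𝓞 F)).map (cj : 𝓞 F →+* 𝓞 F) ≠ ⊥ := by
    intro h
    have h1 := hN (b : Ideal (𝓞 F))
    rw [h, Ideal.mul_bot] at h1
    have h2 : ((Ideal.absNorm (b : Ideal (𝓞 F)) : ℕ) : 𝓞 F) = 0 := by
      rw [← Ideal.span_singleton_eq_bot]
      exact h1.symm
    have h3 : Ideal.absNorm (b : Ideal (𝓞 F)) = 0 := by exact_mod_cast h2
    exact hb0 (Ideal.absNorm_eq_zero_iff.1 h3)
  set b' : (Ideal (𝓞 F))⁰ := ⟨_, mem_nonZeroDivisors_of_ne_zero hbc0⟩ with hb'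
  have hNb : Ideal.absNorm (b' : Ideal (𝓞 F)) = Ideal.absNorm (b : Ideal (𝓞 F)) := by
    have h1 := congrArg Ideal.absNorm (hN (b : Ideal (𝓞 F)))
    have h2 := hNx ((Ideal.absNorm (b : Ideal (𝓞 F)) : ℕ) : 𝓞 F)
    rw [map_natCast] at h2
    have h3 : Ideal.absNorm (b : Ideal (𝓞 F)) * Ideal.absNorm (b : Ideal (𝓞 F)) =
        Ideal.absNorm (Ideal.span {((Ideal.absNorm (b : Ideal (𝓞 F)) : ℕ) : 𝓞 F)}) := by
      exact_mod_cast h2
    rw [map_mul, ← h3] at h1
    exact Nat.eq_of_mul_eq_mul_left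
      (Nat.pos_of_ne_zero fun h => hb0 (Ideal.absNorm_eq_zero_iff.1 h)) h1
  have hprin : ((a * b' : (Ideal (𝓞 F))⁰) : Ideal (𝓞 F)).IsPrincipal := by
    rw [← ClassGroup.mk0_eq_one_iff (a * b').2]
    show ClassGroup.mk0 (a * b') = 1
    rw [map_mul, hab, ← map_mul]
    have h1 : ((b * b' : (Ideal (𝓞 F))⁰) : Ideal (𝓞 F)).IsPrincipal := by
      show ((b : Ideal (𝓞 F)) * (b : Ideal (𝓞 F)).map (cj : 𝓞 F →+* 𝓞 F)).IsPrincipal
      rw [hN]
      exact ⟨⟨_, rfl⟩⟩
    exact (ClassGroup.mk0_eq_one_iff (b * b').2).2 h1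
  obtain ⟨z, hz⟩ := hprin.principal
  have hz' : (a : Ideal (𝓞 F)) * (b' : Ideal (𝓞 F)) = Ideal.span {z} := hz
  exact ⟨z, by rw [← hz', map_mul, hNb]⟩

/-- the norm on the units -/
noncomputable abbrev nu (hB : StBasE) (hd : DatE D s σ χ cj) :
    (𝓞 F ⧸ Ideal.span {s})ˣ →* (ZMod D)ˣ := Units.map (nrmHom hB hd)

theorem mem_range_nu (hB : StBasE) (hd : DatE D s σ χ cj) (z : 𝓞 F) (v : (ZMod D)ˣ)
    (h : (v : ZMod D) = (Ideal.absNorm (Ideal.span {z}) : ZMod D)) : v ∈ (nu hB hd).range := by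
  have h1 : IsUnit (nrmHom hB hd (Ideal.Quotient.mk (Ideal.span {s}) z)) := by
    rw [nrmHom_mk, ← h]
    exact v.isUnit
  obtain ⟨w, hw⟩ := isUnit_of_nrm hB hd h1
  refine ⟨w, Units.ext ?_⟩
  rw [Units.coe_map, h, ← nrmHom_mk hB hd, ← hw]

/-- the classes of the norms of equivalent ideals -/
theorem norm_class (hB : StBasE) (hd : DatE D s σ χ cj) {a b : (Ideal (𝓞 F))⁰}
    (hab : ClassGroup.mk0 a = ClassGroup.mk0 b) (v w : (ZMod D)ˣ)
    (hv : (v : ZMod D) = (Ideal.absNorm (a : Ideal (𝓞 F)) : ZMod D))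
    (hw : (w : ZMod D) = (Ideal.absNorm (b : Ideal (𝓞 F)) : ZMod D)) :
    v⁻¹ * w ∈ (nu hB hd).range := by
  obtain ⟨z, hz⟩ := norm_prin hB hd hab
  obtain ⟨z', hz'⟩ := norm_prin hB hd (a := b) (b := b) rfl
  have h1 : v * w ∈ (nu hB hd).range := by
    refine mem_range_nu hB hd z _ ?_
    rw [Units.val_mul, hv, hw, hz, Nat.cast_mul]
  have h2 : w * w ∈ (nu hB hd).range := by
    refine mem_range_nu hB hd z' _ ?_
    rw [Units.val_mul, hw, hz', Nat.cast_mul]
  have h3 := mul_mem (inv_mem h1) h2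
  have h4 : (v * w)⁻¹ * (w * w) = v⁻¹ * w := by
    rw [mul_inv]
    calc v⁻¹ * w⁻¹ * (w * w) = v⁻¹ * (w⁻¹ * w) * w := by group
      _ = v⁻¹ * w := by rw [inv_mul_cancel, mul_one]
  rwa [h4] at h3

/-! ### The number of units -/

theorem exists_ab (hB : StBasE) (hd : DatE D s σ χ cj) :
    ∃ t : 𝓞 F, (∀ a b a' b' : ℤ, ((D / 2 : ℕ) : ℤ) ∣ a - a' → (2 : ℤ) ∣ b - b' →
      Ideal.Quotient.mk (Ideal.span {s}) ((a : 𝓞 F) + b * t) =
        Ideal.Quotient.mk (Ideal.span {s}) ((a' : 𝓞 F) + b' * t)) ∧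
      ∀ v : (𝓞 F ⧸ Ideal.span {s})ˣ, ∃ p : ℤ × ℤ, (v : 𝓞 F ⧸ Ideal.span {s}) =
        Ideal.Quotient.mk (Ideal.span {s}) ((p.1 : 𝓞 F) + p.2 * t) ∧
        IsCoprime (D : ℤ) (p.1 ^ 2 + (D / 4 : ℕ) * p.2 ^ 2) := by
  obtain ⟨⟨t, -, -, hbas, hdvd, hnorm⟩, -⟩ := hB D F _ _ s σ χ cj hd
  refine ⟨t, ?_, ?_⟩
  · intro a b a' b' h1 h2
    rw [Ideal.Quotient.eq, Ideal.mem_span_singleton]
    have h3 := (hdvd (a - a') (b - b')).2 ⟨h1, h2⟩
    push_cast at h3
    convert h3 using 1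
    ring
  · intro v
    obtain ⟨x, hx⟩ := Ideal.Quotient.mk_surjective (v : 𝓞 F ⧸ Ideal.span {s})
    obtain ⟨a, b, hab⟩ := hbas x
    refine ⟨(a, b), ?_, ?_⟩
    · rw [← hx, hab]
    · have h1 : IsUnit (nrmHom hB hd (v : 𝓞 F ⧸ Ideal.span {s})) := v.isUnit.map _
      rw [← hx, hab, nrmHom_mk] at h1
      rw [← ZMod.coe_int_isUnit_iff_isCoprime, ← hnorm a b, Int.cast_natCast]
      exact h1

theorem card_units_le (hB : StBasE) (hd : DatE D s σ χ cj) :
    Nat.card (𝓞 F ⧸ Ideal.span {s})ˣ ≤ Nat.card (ZMod D)ˣ := by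
  obtain ⟨t, heq, hp⟩ := exists_ab hB hd
  choose p hp1 hp2 using hp
  obtain ⟨hD, n, rfl, -, hn⟩ := hd.ev
  have hn0 : NeZero n := ⟨by omega⟩
  have hn4 : NeZero (4 * n) := ⟨by omega⟩
  have hn2 : NeZero (2 * n) := ⟨by omega⟩
  have e1 : 4 * n / 4 = n := by omega
  have e2 : 4 * n / 2 = 2 * n := by omega
  rw [e2] at heq
  rw [e1] at hp2
  have hR : Nat.card (ZMod (4 * n))ˣ = (4 * n).totient := by
    rw [Nat.card_eq_fintype_card, ZMod.card_units_eq_totient]
  rw [hR]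
  have hinj : ∀ v w, ((2 * n : ℕ) : ℤ) ∣ (p v).1 - (p w).1 →
      (2 : ℤ) ∣ (p v).2 - (p w).2 → v = w := by
    intro v w h1 h2
    refine Units.ext ?_
    rw [hp1 v, hp1 w]
    exact heq _ _ _ _ h1 h2
  have hn1 : ∀ v, IsCoprime (n : ℤ) (p v).1 := by
    intro v
    have h1 : IsCoprime (n : ℤ) ((p v).1 ^ 2 + n * (p v).2 ^ 2) := by
      refine IsCoprime.of_mul_left_right (x := 4) ?_
      have := hp2 v
      push_cast at this
      exact this
    have h2 : IsCoprime (n : ℤ) ((p v).1 ^ 2) :=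
      (IsCoprime.add_mul_left_right_iff (z := (p v).2 ^ 2)).1 h1
    exact (IsCoprime.pow_right_iff (by norm_num)).1 h2
  have h2even : ∀ v, ¬ Even ((p v).1 ^ 2 + n * (p v).2 ^ 2) := by
    rintro v ⟨k, hk⟩
    have := hp2 v
    push_cast at this
    rw [hk] at this
    obtain ⟨u, w, huw⟩ := this
    have h3 : 2 * (u * 2 * n + w * k) = 1 := by
      rw [← huw]
      ring
    omega
  rcases hn with hn | hn
  · -- odd `n`
    have hcop : ∀ v, IsUnit ((p v).1 : ZMod n) := by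
      intro v
      rw [ZMod.coe_int_isUnit_iff_isCoprime]
      exact hn1 v
    have hodd : ∀ v, ((p v).1 + (p v).2) % 2 = 1 := by
      intro v
      have h3 := h2even v
      have h4 : ¬ Even n := by
        rw [Nat.not_even_iff]
        omega
      rw [Int.even_add, Int.even_mul, Int.even_pow' two_ne_zero, Int.even_pow' two_ne_zero,
        Int.even_coe_nat] at h3
      rw [← Int.not_even_iff, Int.even_add]
      tauto
    have hle : Nat.card (𝓞 F ⧸ Ideal.span {s})ˣ ≤ Nat.card (ZMod 2 × (ZMod n)ˣ) := by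
      refine Nat.card_le_card_of_injective (fun v => (((p v).1 : ZMod 2), (hcop v).unit)) ?_
      intro v w hvw
      rw [Prod.mk.injEq] at hvw
      obtain ⟨h3, h4⟩ := hvw
      have h5 : ((p v).1 : ZMod n) = ((p w).1 : ZMod n) := congrArg Units.val h4
      rw [ZMod.intCast_eq_intCast_iff_dvd_sub] at h3 h5
      have h6 : (2 : ℤ) ∣ (p w).1 - (p v).1 := h3
      have h7 : IsCoprime (2 : ℤ) (n : ℤ) := by
        rw [Int.isCoprime_iff_gcd_eq_one]
        show Nat.gcd 2 n = 1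
        rw [← Nat.coprime_iff_gcd_eq_one, Nat.coprime_two_left, Nat.odd_iff]
        omega
      have h8 : (2 : ℤ) * n ∣ (p w).1 - (p v).1 := h7.mul_dvd h6 h5
      refine hinj v w ?_ ?_
      · push_cast
        rw [← neg_sub]
        exact (dvd_neg).2 h8
      · have := hodd v
        have := hodd w
        omega
    refine hle.trans (le_of_eq ?_)
    rw [Nat.card_prod, Nat.card_zmod, Nat.card_eq_fintype_card, ZMod.card_units_eq_totient]
    rw [Nat.totient_mul (by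
      have : Nat.Coprime (2 ^ 2) n := by
        refine Nat.Coprime.pow_left 2 ?_
        rw [Nat.coprime_two_left, Nat.odd_iff]
        omega
      exact this)]
    congr 1
  · -- even `n`
    have hcop : ∀ v, IsUnit ((p v).1 : ZMod (2 * n)) := by
      intro v
      rw [ZMod.coe_int_isUnit_iff_isCoprime]
      push_cast
      refine IsCoprime.mul_left ?_ (hn1 v)
      obtain ⟨m, hm⟩ : (2 : ℤ) ∣ (n : ℤ) := by omega
      have := hn1 v
      rw [hm] at this
      exact this.of_mul_left_left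
    have hle : Nat.card (𝓞 F ⧸ Ideal.span {s})ˣ ≤ Nat.card (ZMod 2 × (ZMod (2 * n))ˣ) := by
      refine Nat.card_le_card_of_injective (fun v => (((p v).2 : ZMod 2), (hcop v).unit)) ?_
      intro v w hvw
      rw [Prod.mk.injEq] at hvw
      obtain ⟨h3, h4⟩ := hvw
      have h5 : ((p v).1 : ZMod (2 * n)) = ((p w).1 : ZMod (2 * n)) := congrArg Units.val h4
      rw [ZMod.intCast_eq_intCast_iff_dvd_sub] at h3 h5
      have h6 : (2 : ℤ) ∣ (p w).2 - (p v).2 := h3
      refine hinj v w ?_ ?_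
      · rw [← neg_sub]
        exact (dvd_neg).2 h5
      · omega
    refine hle.trans (le_of_eq ?_)
    rw [Nat.card_prod, Nat.card_zmod, Nat.card_eq_fintype_card, ZMod.card_units_eq_totient]
    have : 4 * n = 2 * (2 * n) := by ring
    rw [this, Nat.totient_mul_of_prime_of_dvd Nat.prime_two (Dvd.intro _ rfl)]

/-! ### The character -/

/-- every class of residues on which the character is one is the norm of an ideal -/
theorem exists_ideal [NeZero D] (hS : StSplitE) (hd : DatE D s σ χ cj) (u : (ZMod D)ˣ)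
    (hu : χ (u : ZMod D) = 1) : ∃ a : (Ideal (𝓞 F))⁰,
      (Ideal.absNorm (a : Ideal (𝓞 F)) : ZMod D) = u := by
  obtain ⟨l, -, hl, hlu⟩ := Nat.forall_exists_prime_gt_and_eq_mod u.isUnit D
  have hj : kr D l = 1 := by
    have h1 := hd.chi l
    rw [hlu, hu] at h1
    exact_mod_cast h1.symm
  obtain ⟨P, -, hP, -, -, -, hn, -⟩ := (hS D F _ _ s σ χ cj hd l hl).1 hj
  have hP0 : P ≠ ⊥ := by
    rintro rfl
    rw [Ideal.absNorm_bot] at hn
    exact hl.ne_zero hn.symm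
  refine ⟨⟨P, mem_nonZeroDivisors_of_ne_zero hP0⟩, ?_⟩
  show (Ideal.absNorm P : ZMod D) = u
  rw [hn, hlu]

/-- the values of the character -/
theorem chi_val (hd : DatE D s σ χ cj) (u : (ZMod D)ˣ) :
    χ (u : ZMod D) = 1 ∨ χ (u : ZMod D) = -1 := by
  have h0 : χ (u : ZMod D) ≠ 0 := (u.isUnit.map χ).ne_zero
  rcases hd.qc.real (u : ZMod D) with h | h | h
  · exact absurd h h0
  · exact Or.inl h
  · exact Or.inr h

end

end GenEAux

open GenEAux in
theorem stGenE (h1 : StBasE) (h2 : StSplitE) : StGenE := by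
  intro D _ F _ _ s σ χ cj c hd hc
  have hfin : Finite (𝓞 F ⧸ Ideal.span {s}) := by
    rw [← Ideal.absNorm_ne_zero_iff]
    intro h
    rw [Ideal.absNorm_eq_zero_iff, Ideal.span_singleton_eq_bot] at h
    have h3 := hd.sq
    rw [h, zero_pow two_ne_zero, eq_comm, neg_eq_zero, Nat.cast_eq_zero] at h3
    exact NeZero.ne D h3
  have hu0 : ∀ A, ∃ v : (ZMod D)ˣ, (v : ZMod D) =
      ((Ideal.absNorm (c.R A : Ideal (𝓞 F)) : ℕ) : ZMod D) := fun A => norm_unit h1 hd (hc A)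
  choose u hu using hu0
  have key : ∀ (a : (Ideal (𝓞 F))⁰) (v : (ZMod D)ˣ),
      (v : ZMod D) = ((Ideal.absNorm (a : Ideal (𝓞 F)) : ℕ) : ZMod D) →
      v⁻¹ * u (ClassGroup.mk0 a) ∈ (nu h1 hd).range := fun a v hv =>
    norm_class h1 hd (a := a) (b := c.R (ClassGroup.mk0 a)) (c.cls _).symm _ _ hv (hu _)
  refine count (nu h1 hd) u ?_ (-1) ?_ (card_units_le h1 hd) _ ?_
  · intro A B
    have h3 := key (c.R A * c.R B) (u A * u B) (by
      rw [Units.val_mul, hu, hu]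
      show _ = ((Ideal.absNorm ((c.R A : Ideal (𝓞 F)) * (c.R B : Ideal (𝓞 F))) : ℕ) : ZMod D)
      rw [map_mul]
      push_cast
      rfl)
    rw [map_mul, c.cls, c.cls] at h3
    exact h3
  · intro v
    rcases chi_val hd v with h | h
    · obtain ⟨a, ha⟩ := exists_ideal h2 hd v h
      exact Or.inl ⟨_, key a v ha.symm⟩
    · have h4 : χ ((v * -1 : (ZMod D)ˣ) : ZMod D) = 1 := by
        rw [Units.val_mul, Units.val_neg, Units.val_one, map_mul, hd.qc.odd, h]
        norm_num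
      obtain ⟨a, ha⟩ := exists_ideal h2 hd _ h4
      exact Or.inr ⟨_, key a _ ha.symm⟩
  · intro A B
    have hun : ∀ ρ : {ρ : 𝓞 F ⧸ Ideal.span {s} //
        RhoOK D s (c.R A : Ideal (𝓞 F)) (c.R B : Ideal (𝓞 F)) ρ}, ∃ v : (𝓞 F ⧸ Ideal.span {s})ˣ,
        (v : 𝓞 F ⧸ Ideal.span {s}) = ρ.1 ∧ nu h1 hd v * u B = u A := by
      rintro ⟨ρ, hρ⟩
      rw [rhoOK_iff h1 hd, ← hu, ← hu] at hρ
      have h3 : IsUnit (nrmHom h1 hd ρ) := by
        refine isUnit_of_mul_isUnit_left (y := (u B : ZMod D)) ?_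
        rw [hρ]
        exact (u A).isUnit
      obtain ⟨v, hv⟩ := isUnit_of_nrm h1 hd h3
      refine ⟨v, hv, Units.ext ?_⟩
      rw [Units.val_mul, Units.coe_map, ← hρ, ← hv]
    choose g hg1 hg2 using hun
    refine ⟨g, ?_, hg2⟩
    intro ρ ρ' h
    apply Subtype.ext
    rw [← hg1 ρ, ← hg1 ρ', h]

end RZ

end Pool.Agent.Lib.MP_7c08ba_nt
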