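import Pool.Agent.Lib.MP_7c08ba_nt.RZ.ThCD
import Pool.Agent.Lib.MP_7c08ba_nt.RZ.Kap
import Pool.Agent.Lib.MP_7c08ba_nt.RZ.StH

set_option autoImplicit false

/-!
(H7a) the finite sums at the cusps `1 / g`, odd `g`, for even discriminants.
-/

namespace Pool.Agent.Lib.MP_7c08ba_nt

namespace RZ

open scoped ComplexConjugate

namespace Gs1aux

open ThCDX KapX

theorem sum_range_zmod (n : ℕ) [NeZero n] (F : ZMod n → ℂ) :
    ∑ a ∈ Finset.range n, F (a : ZMod n) = ∑ a : ZMod n, F a := by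
  refine Finset.sum_nbij' (fun a => (a : ZMod n)) ZMod.val ?_ ?_ ?_ ?_ ?_
  · intro a _
    exact Finset.mem_univ _
  · intro a _
    exact Finset.mem_range.2 (ZMod.val_lt a)
  · intro a ha
    exact ZMod.val_cast_of_lt (Finset.mem_range.1 ha)
  · intro a _
    exact ZMod.natCast_zmod_val a
  · intro a _
    rfl

theorem ee_congr {N : ℕ} [NeZero N] {m m' : ℤ} (h : (N : ℤ) ∣ m - m') :
    ee ((m : ℂ) / N) = ee ((m' : ℂ) / N) := by
  rw [ee_div, ee_div]
  congr 1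
  rw [← sub_eq_zero, ← Int.cast_sub, ZMod.intCast_zmod_eq_zero_iff_dvd]
  exact h

theorem ee_zero : ee 0 = 1 := by
  have := ee_int 0
  rwa [Int.cast_zero] at this

theorem normSq_ee {N : ℕ} [NeZero N] (m : ℤ) : Complex.normSq (ee ((m : ℂ) / N)) = 1 := by
  rw [Complex.normSq_eq_norm_sq, norm_ee]
  have h : ((m : ℂ) / N).im = 0 := by
    rw [← Complex.ofReal_intCast, ← Complex.ofReal_natCast, ← Complex.ofReal_div,
      Complex.ofReal_im]
  rw [h]
  simp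

theorem ee_quarter : ee ((1 : ℤ) / (4 : ℕ)) = Complex.I := by
  unfold ee
  rw [show 2 * (Real.pi : ℂ) * Complex.I * (((1 : ℤ) : ℂ) / ((4 : ℕ) : ℂ)) =
    (Real.pi : ℂ) / 2 * Complex.I by push_cast; ring]
  exact Complex.exp_pi_div_two_mul_I

theorem ee_pow {N : ℕ} (m : ℤ) (j : ℕ) : ee (((m * j : ℤ) : ℂ) / N) = ee ((m : ℂ) / N) ^ j := by
  induction j with
  | zero => rw [pow_zero, Nat.cast_zero, mul_zero, Int.cast_zero, zero_div, ee_zero]
  | succ j ih =>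
    rw [pow_succ, ← ih, ← ee_add]
    congr 1
    push_cast
    ring

theorem ee_four (m : ℤ) : ee ((m : ℂ) / (4 : ℕ)) =
    if m % 4 = 0 then 1 else if m % 4 = 1 then Complex.I else if m % 4 = 2 then -1
      else -Complex.I := by
  have h : ∀ j : ℕ, m % 4 = j → ee ((m : ℂ) / (4 : ℕ)) = Complex.I ^ j := by
    intro j hj
    rw [← ee_quarter, ← ee_pow, one_mul]
    apply ee_congr
    rw [← hj]
    exact Int.dvd_self_sub_emod
  have h4 : m % 4 = 0 ∨ m % 4 = 1 ∨ m % 4 = 2 ∨ m % 4 = 3 := by omega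
  rcases h4 with h4 | h4 | h4 | h4
  · rw [h 0 h4, h4]
    simp
  · rw [h 1 h4, h4]
    simp
  · rw [h 2 h4, h4]
    simp
  · rw [h 3 h4, h4]
    simp

/-- The Gauss sum modulo four. -/
theorem gs_four (m : ℤ) : gs 4 (m : ZMod 4) = 2 * (1 + ee ((m : ℂ) / (4 : ℕ))) := by
  unfold gs
  have h : (Finset.univ : Finset (ZMod 4)) = {0, 1, 2, 3} := by decide
  rw [h, Finset.sum_insert (by decide), Finset.sum_insert (by decide),
    Finset.sum_insert (by decide), Finset.sum_singleton]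
  have h0 : (0 : ZMod 4) ^ 2 = 0 := by decide
  have h1 : (1 : ZMod 4) ^ 2 = 1 := by decide
  have h2 : (2 : ZMod 4) ^ 2 = 0 := by decide
  have h3 : (3 : ZMod 4) ^ 2 = 1 := by decide
  rw [h0, h1, h2, h3, mul_zero, mul_one, AddChar.map_zero_eq_one, ← ee_div]
  ring

/-- The Gauss sum modulo eight. -/
theorem gs_eight {m : ℤ} (hm : Odd m) : gs 8 (m : ZMod 8) = 4 * ee ((m : ℂ) / (8 : ℕ)) := by
  unfold gs
  have h : (Finset.univ : Finset (ZMod 8)) = {0, 1, 2, 3, 4, 5, 6, 7} := by decide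
  rw [h, Finset.sum_insert (by decide), Finset.sum_insert (by decide),
    Finset.sum_insert (by decide), Finset.sum_insert (by decide), Finset.sum_insert (by decide),
    Finset.sum_insert (by decide), Finset.sum_insert (by decide), Finset.sum_singleton]
  have h0 : (0 : ZMod 8) ^ 2 = 0 := by decide
  have h1 : (1 : ZMod 8) ^ 2 = 1 := by decide
  have h2 : (2 : ZMod 8) ^ 2 = 4 := by decide
  have h3 : (3 : ZMod 8) ^ 2 = 1 := by decide
  have h4 : (4 : ZMod 8) ^ 2 = 0 := by decide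
  have h5 : (5 : ZMod 8) ^ 2 = 1 := by decide
  have h6 : (6 : ZMod 8) ^ 2 = 4 := by decide
  have h7 : (7 : ZMod 8) ^ 2 = 1 := by decide
  have h8 : (m : ZMod 8) * 4 = ((4 : ℤ) : ZMod 8) := by
    obtain ⟨j, rfl⟩ := hm
    push_cast
    have : (8 : ZMod 8) = 0 := by decide
    linear_combination j * this
  have h9 : (ZMod.stdAddChar ((4 : ℤ) : ZMod 8) : ℂ) = -1 := by
    rw [← ee_div]
    unfold ee
    rw [show 2 * (Real.pi : ℂ) * Complex.I * (((4 : ℤ) : ℂ) / ((8 : ℕ) : ℂ)) =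
      (Real.pi : ℂ) * Complex.I by push_cast; ring]
    exact Complex.exp_pi_mul_I
  rw [h0, h1, h2, h3, h4, h5, h6, h7, mul_zero, mul_one, h8, h9, AddChar.map_zero_eq_one,
    ← ee_div]
  ring

/-- The sum over a half period. -/
theorem half (G : ℕ) [NeZero G] (ν x : ℤ) :
    2 * ∑ a ∈ Finset.range (2 * G), ee (((ν * ((a : ℤ) + x) ^ 2 : ℤ) : ℂ) / (4 * G : ℕ)) =
      gs (4 * G) (ν : ZMod (4 * G)) := by
  have h4 : NeZero (4 * G) := ⟨mul_ne_zero (by norm_num) (NeZero.ne G)⟩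
  obtain ⟨f, hf⟩ : ∃ f : ℕ → ℂ, f = fun a : ℕ =>
      ee (((ν * ((a : ℤ) + x) ^ 2 : ℤ) : ℂ) / (4 * G : ℕ)) := ⟨_, rfl⟩
  have hper : ∀ a, f (2 * G + a) = f a := by
    intro a
    rw [hf]
    apply ee_congr
    refine ⟨ν * (a + x + G), ?_⟩
    push_cast
    ring
  have h1 : ∑ a ∈ Finset.range (4 * G), f a = 2 * ∑ a ∈ Finset.range (2 * G), f a := by
    have h2 : 4 * G = 2 * G + 2 * G := by ring
    rw [h2, Finset.sum_range_add]
    simp only [hper]
    ring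
  have h3 : ∑ a ∈ Finset.range (2 * G), ee (((ν * ((a : ℤ) + x) ^ 2 : ℤ) : ℂ) / (4 * G : ℕ)) =
      ∑ a ∈ Finset.range (2 * G), f a := by rw [hf]
  rw [h3, ← h1]
  have h5 : ∑ a : ZMod (4 * G), (ZMod.stdAddChar ((ν : ZMod (4 * G)) *
      (a + (x : ZMod (4 * G))) ^ 2) : ℂ) = gs (4 * G) (ν : ZMod (4 * G)) :=
    Fintype.sum_equiv (Equiv.addRight (x : ZMod (4 * G))) _ _ fun a => rfl
  rw [← h5, ← sum_range_zmod (4 * G) (fun a => (ZMod.stdAddChar ((ν : ZMod (4 * G)) *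
    (a + (x : ZMod (4 * G))) ^ 2) : ℂ))]
  refine Finset.sum_congr rfl fun a _ => ?_
  rw [hf]
  beta_reduce
  rw [ee_div]
  congr 1
  push_cast
  ring

/-- The sum over the roots of unity. -/
theorem orth (g : ℕ) [NeZero g] (m : ℤ) :
    ∑ c ∈ Finset.range g, ee (((m * c : ℤ) : ℂ) / g) = if (g : ℤ) ∣ m then (g : ℂ) else 0 := by
  have h1 := AddChar.sum_mulShift (m : ZMod g) (ZMod.isPrimitive_stdAddChar g)
  have h2 : ∑ c ∈ Finset.range g, ee (((m * c : ℤ) : ℂ) / g) =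
      ∑ c : ZMod g, (ZMod.stdAddChar (c * (m : ZMod g)) : ℂ) := by
    rw [← sum_range_zmod g (fun c => (ZMod.stdAddChar (c * (m : ZMod g)) : ℂ))]
    refine Finset.sum_congr rfl fun c _ => ?_
    rw [ee_div]
    congr 1
    push_cast
    ring
  rw [h2, h1]
  by_cases h : (g : ℤ) ∣ m
  · rw [if_pos h, if_pos ((ZMod.intCast_zmod_eq_zero_iff_dvd _ g).2 h), ZMod.card]
  · rw [if_neg h, if_neg (fun h' => h ((ZMod.intCast_zmod_eq_zero_iff_dvd _ g).1 h')),
      Nat.cast_zero]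

/-- The sum over `a`. -/
theorem sumA (g G : ℕ) [NeZero g] [NeZero G] (ν x : ℤ) :
    ∑ a ∈ Finset.range (2 * (g * G)),
      ee (((ν * (g * (a : ℤ) ^ 2 + 2 * (a * x)) : ℤ) : ℂ) / (4 * (g * G) : ℕ)) =
    (if (g : ℤ) ∣ ν * x then (g : ℂ) else 0) * ∑ a ∈ Finset.range (2 * G),
      ee (((ν * (g * (a : ℤ) ^ 2 + 2 * (a * x)) : ℤ) : ℂ) / (4 * (g * G) : ℕ)) := by
  have hN : NeZero (4 * (g * G)) :=
    ⟨mul_ne_zero (by norm_num) (mul_ne_zero (NeZero.ne g) (NeZero.ne G))⟩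
  have hg : (g : ℂ) ≠ 0 := by exact_mod_cast NeZero.ne g
  have hG : (G : ℂ) ≠ 0 := by exact_mod_cast NeZero.ne G
  have hG0 : 0 < 2 * G := Nat.mul_pos two_pos (Nat.pos_of_ne_zero (NeZero.ne G))
  rw [← orth g (ν * x), Finset.sum_mul_sum, ← Finset.sum_product']
  symm
  refine Finset.sum_nbij' (fun p => p.2 + 2 * G * p.1) (fun a => (a / (2 * G), a % (2 * G)))
    ?_ ?_ ?_ ?_ ?_
  · rintro ⟨c, a⟩ h
    rw [Finset.mem_product, Finset.mem_range, Finset.mem_range] at h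
    rw [Finset.mem_range]
    simp only at h ⊢
    have h1 : 2 * G * c + 2 * G ≤ 2 * (g * G) := by
      calc 2 * G * c + 2 * G = 2 * G * (c + 1) := by ring
        _ ≤ 2 * G * g := Nat.mul_le_mul_left _ h.1
        _ = 2 * (g * G) := by ring
    omega
  · intro a h
    rw [Finset.mem_range] at h
    rw [Finset.mem_product, Finset.mem_range, Finset.mem_range]
    refine ⟨?_, Nat.mod_lt _ hG0⟩
    rw [Nat.div_lt_iff_lt_mul hG0]
    calc a < 2 * (g * G) := h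
      _ = g * (2 * G) := by ring
  · rintro ⟨c, a⟩ h
    rw [Finset.mem_product, Finset.mem_range, Finset.mem_range] at h
    simp only at h ⊢
    rw [Nat.add_mul_div_left _ _ hG0, Nat.div_eq_of_lt h.2, zero_add, Nat.add_mul_mod_self_left,
      Nat.mod_eq_of_lt h.2]
  · intro a _
    exact Nat.mod_add_div a (2 * G)
  · rintro ⟨c, a⟩ _
    simp only
    have h1 : ee (((ν * x * c : ℤ) : ℂ) / g) =
        ee (((ν * x * c * (4 * G) : ℤ) : ℂ) / (4 * (g * G) : ℕ)) := by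
      congr 1
      push_cast
      field_simp
    rw [h1, ← ee_add, ← add_div, ← Int.cast_add]
    apply ee_congr
    refine ⟨-(ν * (a * c + G * c ^ 2)), ?_⟩
    push_cast
    ring

/-- The Gauss sum as a sum over a range. -/
noncomputable def Q (N : ℕ) (ν : ℤ) : ℂ :=
  ∑ a ∈ Finset.range N, ee (((ν * (a : ℤ) ^ 2 : ℤ) : ℂ) / N)

theorem Q_eq (N : ℕ) [NeZero N] (ν : ℤ) : Q N ν = gs N (ν : ZMod N) := by
  unfold Q gs
  rw [← sum_range_zmod N (fun a => (ZMod.stdAddChar ((ν : ZMod N) * a ^ 2) : ℂ))]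
  refine Finset.sum_congr rfl fun a _ => ?_
  rw [ee_div]
  congr 1
  push_cast
  ring

theorem two_unit {G : ℕ} (hG : Odd G) : IsUnit (2 : ZMod G) := by
  have h := (ZMod.isUnit_iff_coprime 2 G).2 (Nat.coprime_two_left.2 hG)
  exact_mod_cast h

theorem Q_four {G : ℕ} [NeZero G] (hG : Odd G) (hs : Squarefree G) (ν : ℤ)
    (hν : IsCoprime ν G) :
    Q (4 * G) ν = 2 * (1 + ee (((ν * G : ℤ) : ℂ) / (4 : ℕ))) * (jacobiSym ν G : ℂ) * gs G 1 := by
  have hc : Nat.Coprime 4 G := by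
    have : Nat.Coprime (2 ^ 2) G := (Nat.coprime_two_left.2 hG).pow_left 2
    exact this
  rw [Q_eq, gs_crt hc ν, gs_four]
  have h1 : ((ν * (4 : ℕ) : ℤ) : ZMod G) = ((ν * 1 : ℤ) : ZMod G) * 2 ^ 2 := by
    push_cast
    ring
  rw [h1, gs_mul_sq _ (two_unit hG), gs_jacobi G hG hs 1 ν isCoprime_one_left hν, Int.cast_one]
  ring

theorem Q_eight {G : ℕ} [NeZero G] (hG : Odd G) (hs : Squarefree G) {ν : ℤ} (hν2 : Odd ν)
    (hν : IsCoprime ν G) :
    Q (4 * (2 * G)) ν = 4 * ee (((ν * G : ℤ) : ℂ) / (8 : ℕ)) * (jacobiSym (2 * ν) G : ℂ) *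
      gs G 1 := by
  have hc : Nat.Coprime 8 G := by
    have : Nat.Coprime (2 ^ 3) G := (Nat.coprime_two_left.2 hG).pow_left 3
    exact this
  have hGo : Odd (ν * (G : ℤ)) := hν2.mul (by exact_mod_cast hG)
  have h2 : IsCoprime (2 : ℤ) (G : ℤ) := by
    have := Nat.isCoprime_iff_coprime.2 (Nat.coprime_two_left.2 hG)
    exact_mod_cast this
  rw [show 4 * (2 * G) = 8 * G by ring, Q_eq, gs_crt hc ν, gs_eight hGo]
  have h1 : ((ν * (8 : ℕ) : ℤ) : ZMod G) = (((2 * ν) * 1 : ℤ) : ZMod G) * 2 ^ 2 := by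
    push_cast
    ring
  rw [h1, gs_mul_sq _ (two_unit hG), gs_jacobi G hG hs 1 (2 * ν) isCoprime_one_left
    (h2.mul_left hν), Int.cast_one]
  ring

theorem jac_sq {a : ℤ} {b : ℕ} (h : IsCoprime a b) :
    (jacobiSym a b : ℂ) * (jacobiSym a b : ℂ) = 1 := by
  have h1 : jacobiSym a b = 1 ∨ jacobiSym a b = -1 :=
    jacobiSym.eq_one_or_neg_one (Int.isCoprime_iff_gcd_eq_one.1 h)
  rcases h1 with h1 | h1 <;> rw [h1] <;> norm_num

/-- The factor of the sum over `b`. -/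
noncomputable def t (m : ℤ) : ℂ := 1 + ee ((m : ℂ) / (4 : ℕ))

theorem t_one {m : ℤ} (h : m % 4 = 1) : t m = 1 + Complex.I := by
  unfold t
  rw [ee_four, h]
  norm_num

theorem t_three {m : ℤ} (h : m % 4 = 3) : t m = 1 - Complex.I := by
  unfold t
  rw [ee_four, h]
  norm_num
  ring

theorem mul_mod4 {a b r s : ℤ} (ha : a % 4 = r) (hb : b % 4 = s) : a * b % 4 = r * s % 4 := by
  rw [Int.mul_emod, ha, hb]

/-- The comparison for odd `n`. -/
theorem cmp_odd {ν g G : ℤ} {s : ℂ} (hν : ν % 4 = 1 ∧ s = 1 ∨ ν % 4 = 3 ∧ s = -1)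
    (hg : g % 4 = 1 ∧ G % 4 = 1 ∨ g % 4 = 3 ∧ G % 4 = 3) :
    s * (t (ν * G) * t (ν * g)) = t G * t g := by
  have hI := Complex.I_sq
  rcases hν with ⟨h1, rfl⟩ | ⟨h1, rfl⟩ <;> rcases hg with ⟨h2, h3⟩ | ⟨h2, h3⟩
  · rw [t_one (mul_mod4 h1 h3), t_one (mul_mod4 h1 h2), t_one h3, t_one h2]
    ring
  · rw [t_three (mul_mod4 h1 h3), t_three (mul_mod4 h1 h2), t_three h3, t_three h2]
    ring
  · rw [t_three (mul_mod4 h1 h3), t_three (mul_mod4 h1 h2), t_one h3, t_one h2]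
    linear_combination (-2 : ℂ) * hI
  · rw [t_one (mul_mod4 h1 h3), t_one (mul_mod4 h1 h2), t_three h3, t_three h2]
    linear_combination (-2 : ℂ) * hI

theorem ee_four_eq (m : ℤ) (r : ℤ) (h : m % 4 = r) : ee ((m : ℂ) / (4 : ℕ)) =
    if r = 0 then 1 else if r = 1 then Complex.I else if r = 2 then -1 else -Complex.I := by
  rw [ee_four, h]

/-- The comparison for even `n`. -/
theorem cmp_even {h g G : ℤ} {s : ℂ} (hG : G % 4 = 1 ∨ G % 4 = 3) (hg : g % 4 = 1 ∨ g % 4 = 3)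
    (hs : (h % 4 = 0 ∧ s = 1) ∨ (h % 4 = 1 ∧ g % 4 = G % 4 ∧ s = 1) ∨
      (h % 4 = 1 ∧ g % 4 ≠ G % 4 ∧ s = -1) ∨ (h % 4 = 2 ∧ s = -1) ∨
      (h % 4 = 3 ∧ g % 4 = G % 4 ∧ s = -1) ∨ (h % 4 = 3 ∧ g % 4 ≠ G % 4 ∧ s = 1)) :
    ee (((h * G : ℤ) : ℂ) / (4 : ℕ)) * s * t ((1 + 2 * h) * g) = t g := by
  have hI := Complex.I_sq
  have key : ∀ a b c : ℤ, h % 4 = a → G % 4 = b → g % 4 = c →
      h * G % 4 = a * b % 4 ∧ (1 + 2 * h) * g % 4 = (1 + 2 * a) * c % 4 := by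
    intro a b c ha hb hc
    refine ⟨mul_mod4 ha hb, ?_⟩
    rw [Int.mul_emod, hc, Int.add_emod, Int.mul_emod 2 h, ha]
    simp [Int.mul_emod, Int.add_emod]
  rcases hG with hG | hG <;> rcases hg with hg | hg <;>
    rcases hs with ⟨hh, rfl⟩ | ⟨hh, he, rfl⟩ | ⟨hh, he, rfl⟩ | ⟨hh, rfl⟩ | ⟨hh, he, rfl⟩ |
      ⟨hh, he, rfl⟩ <;>
    first
    | (exfalso; omega)
    | (obtain ⟨k1, k2⟩ := key _ _ _ hh hG hg
       rw [ee_four_eq _ _ k1]
       norm_num at k2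
       first
       | rw [t_one k2]
       | rw [t_three k2]
       first
       | rw [t_one hg]
       | rw [t_three hg]
       norm_num
       first
       | done
       | ring1
       | linear_combination hI
       | linear_combination (-1 : ℂ) * hI)

/-- The value of the symbol. -/
theorem kr_val {n ν : ℕ} (h : kr (4 * n) ν = 1) : Odd ν ∧ jacobiSym (-(n : ℤ)) ν = 1 := by
  unfold kr at h
  by_cases h1 : Even ν
  · rw [if_pos h1] at h
    exact absurd h zero_ne_one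
  · rw [if_neg h1, Nat.mul_div_cancel_left _ (by norm_num : 0 < 4)] at h
    exact ⟨Nat.not_even_iff_odd.1 h1, h⟩

theorem kr_coprime {n ν : ℕ} (h : jacobiSym (-(n : ℤ)) ν = 1) (hν : Odd ν) :
    IsCoprime (ν : ℤ) (n : ℤ) := by
  have hν0 : NeZero ν := ⟨by rintro rfl; exact absurd hν (by decide)⟩
  have h2 : Int.gcd (-(n : ℤ)) ν = 1 := by
    by_contra hcon
    rw [jacobiSym.eq_zero_iff_not_coprime.2 hcon] at h
    exact zero_ne_one h
  have h3 : IsCoprime (-(n : ℤ)) ν := Int.isCoprime_iff_gcd_eq_one.2 h2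
  exact (IsCoprime.neg_left_iff _ _).1 h3 |>.symm

/-- The symbol for odd `n`. -/
theorem sym_odd {n ν : ℕ} (hn : n % 4 = 1) (hν : Odd ν) (h : jacobiSym (-(n : ℤ)) ν = 1) :
    (ν % 4 = 1 ∧ jacobiSym ν n = 1) ∨ (ν % 4 = 3 ∧ jacobiSym ν n = -1) := by
  rw [← neg_one_mul, jacobiSym.mul_left, jacobiSym.at_neg_one hν,
    jacobiSym.quadratic_reciprocity_one_mod_four hn hν] at h
  have h4 : ν % 4 = 1 ∨ ν % 4 = 3 := by
    obtain ⟨j, rfl⟩ := hν
    omega
  rcases h4 with h4 | h4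
  · left
    rw [ZMod.χ₄_nat_one_mod_four h4, one_mul] at h
    exact ⟨h4, h⟩
  · right
    rw [ZMod.χ₄_nat_three_mod_four h4] at h
    exact ⟨h4, by linarith⟩

/-- The symbol for even `n`. -/
theorem sym_even {m k : ℕ} (hm : Odd m) (h : jacobiSym (-((2 * m : ℕ) : ℤ)) (1 + 2 * k) = 1) :
    (k % 4 = 0 ∧ jacobiSym ((1 + 2 * k : ℕ) : ℤ) m = 1) ∨
      (k % 4 = 1 ∧ m % 4 = 1 ∧ jacobiSym ((1 + 2 * k : ℕ) : ℤ) m = 1) ∨
      (k % 4 = 1 ∧ m % 4 = 3 ∧ jacobiSym ((1 + 2 * k : ℕ) : ℤ) m = -1) ∨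
      (k % 4 = 2 ∧ jacobiSym ((1 + 2 * k : ℕ) : ℤ) m = -1) ∨
      (k % 4 = 3 ∧ m % 4 = 1 ∧ jacobiSym ((1 + 2 * k : ℕ) : ℤ) m = -1) ∨
      (k % 4 = 3 ∧ m % 4 = 3 ∧ jacobiSym ((1 + 2 * k : ℕ) : ℤ) m = 1) := by
  have hν : Odd (1 + 2 * k) := ⟨k, by ring⟩
  have e1 : -((2 * m : ℕ) : ℤ) = -2 * (m : ℤ) := by
    push_cast
    ring
  have e2 : (1 + 2 * k) / 2 = k := by omega
  rw [e1, jacobiSym.mul_left, jacobiSym.at_neg_two hν, ZMod.χ₈'_nat_eq_if_mod_eight,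
    jacobiSym.quadratic_reciprocity hm hν, e2] at h
  have hm4 : m % 4 = 1 ∨ m % 4 = 3 := by
    obtain ⟨j, rfl⟩ := hm
    omega
  have hpow : ∀ c : ℤ, (m % 4 = 1 ∧ c = 1 ∨ k % 2 = 0 ∧ c = 1 ∨
      m % 4 = 3 ∧ k % 2 = 1 ∧ c = -1) → (-1 : ℤ) ^ (m / 2 * k) = c := by
    rintro c (⟨h1, rfl⟩ | ⟨h1, rfl⟩ | ⟨h1, h2, rfl⟩)
    · exact Even.neg_one_pow (Even.mul_right ⟨m / 4, by omega⟩ k)
    · exact Even.neg_one_pow (Even.mul_left ⟨k / 2, by omega⟩ _)
    · refine Odd.neg_one_pow (Odd.mul ⟨m / 4, by omega⟩ ⟨k / 2, by omega⟩)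
  have n2 : (1 + 2 * k) % 2 ≠ 0 := by omega
  rw [if_neg n2] at h
  have hk : k % 4 = 0 ∨ k % 4 = 1 ∨ k % 4 = 2 ∨ k % 4 = 3 := by omega
  rcases hk with hk | hk | hk | hk
  · left
    rw [if_pos (by omega), hpow 1 (by omega)] at h
    exact ⟨hk, by linarith⟩
  · rcases hm4 with h4 | h4
    · right; left
      rw [if_pos (by omega), hpow 1 (by omega)] at h
      exact ⟨hk, h4, by linarith⟩
    · right; right; left
      rw [if_pos (by omega), hpow (-1) (by omega)] at h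
      exact ⟨hk, h4, by linarith⟩
  · right; right; right; left
    rw [if_neg (by omega), hpow 1 (by omega)] at h
    exact ⟨hk, by linarith⟩
  · rcases hm4 with h4 | h4
    · right; right; right; right; left
      rw [if_neg (by omega), hpow 1 (by omega)] at h
      exact ⟨hk, h4, by linarith⟩
    · right; right; right; right; right
      rw [if_neg (by omega), hpow (-1) (by omega)] at h
      exact ⟨hk, h4, by linarith⟩

/-- The main factor. -/
noncomputable def w (g G : ℕ) (ν : ℤ) : ℂ := Q (4 * G) ν * t (ν * g)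

/-- The dependence on `ν`, odd `n`. -/
theorem w_odd {g G ν : ℕ} [NeZero G] [NeZero g] (hs : Squarefree (g * G)) (hn : g * G % 4 = 1)
    (hν : Odd ν) (h : jacobiSym (-((g * G : ℕ) : ℤ)) ν = 1) :
    w g G ν = (jacobiSym ν g : ℂ) * w g G 1 := by
  have hc := kr_coprime h hν
  have hno : Odd (g * G) := Nat.odd_iff.2 (by omega)
  have hg : Odd g := (Nat.odd_mul.1 hno).1
  have hG : Odd G := (Nat.odd_mul.1 hno).2
  have hsG : Squarefree G := hs.squarefree_of_dvd (dvd_mul_left _ _)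
  push_cast at hc
  have hcg : IsCoprime (ν : ℤ) (g : ℤ) := hc.of_mul_right_left
  have hcG : IsCoprime (ν : ℤ) (G : ℤ) := hc.of_mul_right_right
  have h1 := sym_odd hn hν h
  rw [jacobiSym.mul_right] at h1
  have h2 := jac_sq hcg
  unfold w
  rw [Q_four hG hsG ν hcG, Q_four hG hsG 1 isCoprime_one_left, jacobiSym.one_left, one_mul,
    one_mul, Int.cast_one]
  have h3 : (jacobiSym ν g : ℂ) * (jacobiSym ν G : ℂ) * (t (ν * G) * t (ν * g)) = t G * t g := by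
    apply cmp_odd
    · rcases h1 with ⟨a, b⟩ | ⟨a, b⟩
      · left
        refine ⟨by omega, ?_⟩
        rw [← Int.cast_mul, b, Int.cast_one]
      · right
        refine ⟨by omega, ?_⟩
        rw [← Int.cast_mul, b, Int.cast_neg, Int.cast_one]
    · have hg4 : g % 4 = 1 ∨ g % 4 = 3 := by
        obtain ⟨j, rfl⟩ := hg
        omega
      have hG4 : G % 4 = 1 ∨ G % 4 = 3 := by
        obtain ⟨j, rfl⟩ := hG
        omega
      rw [Nat.mul_mod] at hn
      rcases hg4 with a | a <;> rcases hG4 with b | b <;> rw [a, b] at hn <;> omega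
  have e1 : (1 : ℂ) + ee (((ν * G : ℤ) : ℂ) / (4 : ℕ)) = t (ν * G) := rfl
  have e2 : (1 : ℂ) + ee (((G : ℤ) : ℂ) / (4 : ℕ)) = t G := rfl
  rw [e1, e2]
  linear_combination (2 * (jacobiSym ν g : ℂ) * gs G 1) * h3 -
    (2 * (jacobiSym ν G : ℂ) * gs G 1 * t (ν * G) * t (ν * g)) * h2

/-- The dependence on `ν`, even `n`. -/
theorem w_even {g G ν : ℕ} [NeZero G] [NeZero g] (hs : Squarefree (2 * (g * G)))
    (hν : Odd ν) (h : jacobiSym (-((2 * (g * G) : ℕ) : ℤ)) ν = 1) :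
    w g (2 * G) ν = (jacobiSym ν g : ℂ) * w g (2 * G) 1 := by
  have hc := kr_coprime h hν
  have hno : Odd (g * G) := by
    have := Nat.coprime_of_squarefree_mul hs
    exact Nat.coprime_two_left.1 this
  have hg : Odd g := (Nat.odd_mul.1 hno).1
  have hG : Odd G := (Nat.odd_mul.1 hno).2
  have hsG : Squarefree G := hs.squarefree_of_dvd ((dvd_mul_left _ _).mul_left _)
  push_cast at hc
  have hcg : IsCoprime (ν : ℤ) (g : ℤ) := hc.of_mul_right_right.of_mul_right_left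
  have hcG : IsCoprime (ν : ℤ) (G : ℤ) := hc.of_mul_right_right.of_mul_right_right
  have h2 := jac_sq hcg
  have hνo : Odd (ν : ℤ) := by exact_mod_cast hν
  obtain ⟨k, hk⟩ := hν
  obtain rfl : ν = 1 + 2 * k := by omega
  have h1 := sym_even hno h
  rw [jacobiSym.mul_right] at h1
  have hg4 : g % 4 = 1 ∨ g % 4 = 3 := by
    obtain ⟨j, rfl⟩ := hg
    omega
  have hG4 : G % 4 = 1 ∨ G % 4 = 3 := by
    obtain ⟨j, rfl⟩ := hG
    omega
  have hm4 : (g * G % 4 = 1 ∧ g % 4 = G % 4) ∨ (g * G % 4 = 3 ∧ g % 4 ≠ G % 4) := by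
    rw [Nat.mul_mod]
    rcases hg4 with a | a <;> rcases hG4 with b | b <;> rw [a, b] <;> norm_num
  have h3 : ee ((((k : ℤ) * (G : ℤ) : ℤ) : ℂ) / (4 : ℕ)) *
      ((jacobiSym ((1 + 2 * k : ℕ) : ℤ) g : ℂ) * (jacobiSym ((1 + 2 * k : ℕ) : ℤ) G : ℂ)) *
      t ((1 + 2 * (k : ℤ)) * (g : ℤ)) = t g := by
    have cst : ∀ c : ℤ, jacobiSym ((1 + 2 * k : ℕ) : ℤ) g * jacobiSym ((1 + 2 * k : ℕ) : ℤ) G = c →
        (jacobiSym ((1 + 2 * k : ℕ) : ℤ) g : ℂ) * (jacobiSym ((1 + 2 * k : ℕ) : ℤ) G : ℂ) = c := by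
      intro c hc
      rw [← Int.cast_mul, hc]
    apply cmp_even
    · rcases hG4 with b | b
      · left; omega
      · right; omega
    · rcases hg4 with b | b
      · left; omega
      · right; omega
    · rcases h1 with ⟨a, b⟩ | ⟨a, a', b⟩ | ⟨a, a', b⟩ | ⟨a, b⟩ | ⟨a, a', b⟩ | ⟨a, a', b⟩
      · left
        exact ⟨by omega, by rw [cst _ b, Int.cast_one]⟩
      · right; left
        exact ⟨by omega, by omega, by rw [cst _ b, Int.cast_one]⟩
      · right; right; left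
        exact ⟨by omega, by omega, by rw [cst _ b, Int.cast_neg, Int.cast_one]⟩
      · right; right; right; left
        exact ⟨by omega, by rw [cst _ b, Int.cast_neg, Int.cast_one]⟩
      · right; right; right; right; left
        exact ⟨by omega, by omega, by rw [cst _ b, Int.cast_neg, Int.cast_one]⟩
      · right; right; right; right; right
        exact ⟨by omega, by omega, by rw [cst _ b, Int.cast_one]⟩
  unfold w
  rw [Q_eight hG hsG hνo hcG, Q_eight hG hsG odd_one isCoprime_one_left, jacobiSym.mul_left,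
    one_mul, one_mul, mul_one]
  have h4 : ee (((((1 + 2 * k : ℕ) : ℤ) * (G : ℤ) : ℤ) : ℂ) / (8 : ℕ)) =
      ee (((G : ℤ) : ℂ) / (8 : ℕ)) * ee ((((k : ℤ) * (G : ℤ) : ℤ) : ℂ) / (4 : ℕ)) := by
    rw [← ee_add]
    congr 1
    push_cast
    ring
  have h5 : t (((1 + 2 * k : ℕ) : ℤ) * (g : ℤ)) = t ((1 + 2 * (k : ℤ)) * (g : ℤ)) := by
    push_cast
    rfl
  have h6 : ((jacobiSym 2 G * jacobiSym ((1 + 2 * k : ℕ) : ℤ) G : ℤ) : ℂ) =
      (jacobiSym 2 G : ℂ) * (jacobiSym ((1 + 2 * k : ℕ) : ℤ) G : ℂ) := Int.cast_mul _ _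
  rw [h4, h5, h6]
  linear_combination (4 * ee (((G : ℤ) : ℂ) / (8 : ℕ)) * (jacobiSym 2 G : ℂ) * gs G 1 *
    (jacobiSym ((1 + 2 * k : ℕ) : ℤ) g : ℂ)) * h3 - (4 * ee (((G : ℤ) : ℂ) / (8 : ℕ)) *
    (jacobiSym 2 G : ℂ) * gs G 1 * ee ((((k : ℤ) * (G : ℤ) : ℤ) : ℂ) / (4 : ℕ)) *
    (jacobiSym ((1 + 2 * k : ℕ) : ℤ) G : ℂ) * t ((1 + 2 * (k : ℤ)) * (g : ℤ))) * h2

theorem t_sq {g : ℕ} (hg : Odd g) : t g ^ 2 = 2 * Complex.I * (jacobiSym (-1) g : ℂ) := by
  have hI := Complex.I_sq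
  rw [jacobiSym.at_neg_one hg]
  have hg4 : g % 4 = 1 ∨ g % 4 = 3 := by
    obtain ⟨j, rfl⟩ := hg
    omega
  rcases hg4 with h | h
  · rw [ZMod.χ₄_nat_one_mod_four h, t_one (by omega)]
    push_cast
    linear_combination hI
  · rw [ZMod.χ₄_nat_three_mod_four h, t_three (by omega)]
    push_cast
    linear_combination hI

/-- The square, odd `n`. -/
theorem sq_odd {g G : ℕ} [NeZero G] (hs : Squarefree (g * G)) (hn : g * G % 4 = 1) :
    w g G 1 ^ 2 = -16 * G * (jacobiSym (-1) g : ℂ) := by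
  have hno : Odd (g * G) := Nat.odd_iff.2 (by omega)
  have hg : Odd g := (Nat.odd_mul.1 hno).1
  have hG : Odd G := (Nat.odd_mul.1 hno).2
  have hsG : Squarefree G := hs.squarefree_of_dvd (dvd_mul_left _ _)
  unfold w
  rw [Q_four hG hsG 1 isCoprime_one_left, jacobiSym.one_left, one_mul, one_mul, Int.cast_one]
  have e2 : (1 : ℂ) + ee (((G : ℤ) : ℂ) / (4 : ℕ)) = t G := rfl
  rw [e2]
  have h1 := gs_sq (two_unit hG) hG hsG
  have h2 := t_sq hG
  have h3 := t_sq hg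
  have h4 : (jacobiSym (-1) G : ℂ) * (jacobiSym (-1) G : ℂ) = 1 :=
    jac_sq (isCoprime_one_left.neg_left)
  have hI := Complex.I_sq
  calc (2 * t G * 1 * gs G 1 * t g) ^ 2 = 4 * t G ^ 2 * (gs G 1 ^ 2) * t g ^ 2 := by ring
    _ = 16 * Complex.I ^ 2 * G * ((jacobiSym (-1) G : ℂ) * (jacobiSym (-1) G : ℂ)) *
        (jacobiSym (-1) g : ℂ) := by
        rw [h1, h2, h3]
        ring
    _ = _ := by
        rw [h4, hI]
        ring

/-- The square, even `n`. -/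
theorem sq_even {g G : ℕ} [NeZero G] (hs : Squarefree (2 * (g * G))) :
    w g (2 * G) 1 ^ 2 = -16 * (2 * G : ℕ) * (jacobiSym (-1) g : ℂ) := by
  have hno : Odd (g * G) := by
    have := Nat.coprime_of_squarefree_mul hs
    exact Nat.coprime_two_left.1 this
  have hg : Odd g := (Nat.odd_mul.1 hno).1
  have hG : Odd G := (Nat.odd_mul.1 hno).2
  have hsG : Squarefree G := hs.squarefree_of_dvd ((dvd_mul_left _ _).mul_left _)
  unfold w
  rw [Q_eight hG hsG odd_one isCoprime_one_left, one_mul, one_mul, mul_one]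
  have h1 := gs_sq (two_unit hG) hG hsG
  have h3 := t_sq hg
  have hI := Complex.I_sq
  have h2c : IsCoprime (2 : ℤ) (G : ℤ) := by
    have := Nat.isCoprime_iff_coprime.2 (Nat.coprime_two_left.2 hG)
    exact_mod_cast this
  have h4 := jac_sq h2c
  have h5 : ee (((G : ℤ) : ℂ) / (8 : ℕ)) ^ 2 = ee (((G : ℤ) : ℂ) / (4 : ℕ)) := by
    rw [sq, ← ee_add]
    congr 1
    push_cast
    ring
  have h6 : ee (((G : ℤ) : ℂ) / (4 : ℕ)) * (jacobiSym (-1) G : ℂ) = Complex.I := by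
    rw [jacobiSym.at_neg_one hG]
    have hG4 : G % 4 = 1 ∨ G % 4 = 3 := by
      obtain ⟨j, rfl⟩ := hG
      omega
    rcases hG4 with h | h
    · rw [ZMod.χ₄_nat_one_mod_four h, ee_four_eq _ 1 (by omega)]
      norm_num
    · rw [ZMod.χ₄_nat_three_mod_four h, ee_four_eq _ 3 (by omega)]
      norm_num
  calc (4 * ee (((G : ℤ) : ℂ) / (8 : ℕ)) * (jacobiSym 2 G : ℂ) * gs G 1 * t g) ^ 2 =
      16 * ee (((G : ℤ) : ℂ) / (8 : ℕ)) ^ 2 * ((jacobiSym 2 G : ℂ) * (jacobiSym 2 G : ℂ)) *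
        gs G 1 ^ 2 * t g ^ 2 := by ring
    _ = 32 * Complex.I * G * (ee (((G : ℤ) : ℂ) / (4 : ℕ)) * (jacobiSym (-1) G : ℂ)) *
        (jacobiSym (-1) g : ℂ) := by
        rw [h1, h3, h4, h5]
        ring
    _ = _ := by
        rw [h6]
        push_cast
        linear_combination (32 * G * (jacobiSym (-1) g : ℂ)) * hI

theorem t_add_two {m : ℤ} (hm : Odd m) : t (m + 2) = t m * ee (((-m : ℤ) : ℂ) / (4 : ℕ)) := by
  have hI := Complex.I_sq
  have hm4 : m % 4 = 1 ∨ m % 4 = 3 := by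
    obtain ⟨j, rfl⟩ := hm
    omega
  rcases hm4 with h | h
  · rw [t_one h, t_three (by omega), ee_four_eq _ 3 (by omega)]
    norm_num
    linear_combination hI
  · rw [t_three h, t_one (by omega), ee_four_eq _ 1 (by omega)]
    norm_num
    linear_combination hI

theorem t_congr {m m' : ℤ} (h : (4 : ℤ) ∣ m - m') : t m = t m' := by
  unfold t
  congr 1
  exact ee_congr h

/-- The change of the factor of the sum over `b`. -/
theorem t_shift {ν g y gb : ℤ} (hν : Odd ν) (hg : Odd g) (hgb : (4 : ℤ) ∣ gb - g) :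
    t (ν * (g + 2 * y)) = t (ν * g) * ee (((-(gb * (ν * y ^ 2)) : ℤ) : ℂ) / (4 : ℕ)) := by
  rcases Int.even_or_odd y with hy | hy
  · obtain ⟨j, rfl⟩ := hy
    have e1 : t (ν * (g + 2 * (j + j))) = t (ν * g) := t_congr ⟨ν * j, by ring⟩
    have e2 : ee (((-(gb * (ν * (j + j) ^ 2)) : ℤ) : ℂ) / (4 : ℕ)) = ee (((0 : ℤ) : ℂ) / (4 : ℕ)) :=
      ee_congr ⟨-(gb * (ν * j ^ 2)), by push_cast; ring⟩
    rw [e1, e2, Int.cast_zero, zero_div, ee_zero, mul_one]
  · obtain ⟨j, rfl⟩ := hy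
    obtain ⟨i, hi⟩ := hν
    obtain ⟨c, hc⟩ := hgb
    have e1 : t (ν * (g + 2 * (2 * j + 1))) = t (ν * g + 2) :=
      t_congr ⟨ν * j + i, by rw [hi]; ring⟩
    have e2 : ee (((-(gb * (ν * (2 * j + 1) ^ 2)) : ℤ) : ℂ) / (4 : ℕ)) =
        ee (((-(ν * g) : ℤ) : ℂ) / (4 : ℕ)) := by
      have hgb' : gb = g + 4 * c := by linarith
      refine ee_congr ⟨-(g * ν * (j ^ 2 + j) + c * (ν * (2 * j + 1) ^ 2)), ?_⟩
      rw [hgb']
      push_cast
      ring
    rw [e1, e2]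
    exact t_add_two (Odd.mul ⟨i, hi⟩ hg)

/-- Division by `g`. -/
theorem dvd_norm {g G : ℕ} (hs : Squarefree g) {ν x y : ℤ} (hν : IsCoprime ν g) :
    (g : ℤ) ∣ ν * (x ^ 2 + (g * G : ℕ) * y ^ 2) ↔ (g : ℤ) ∣ x := by
  have h1 : (g : ℤ) ∣ (g * G : ℕ) * y ^ 2 := ⟨G * y ^ 2, by push_cast; ring⟩
  constructor
  · intro h
    have h2 := hν.symm.dvd_of_dvd_mul_left h
    have h3 : (g : ℤ) ∣ x ^ 2 := (dvd_add_left h1).1 h2
    have h4 : Squarefree (g : ℤ) := Int.squarefree_natCast.2 hs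
    exact (h4.dvd_pow_iff_dvd two_ne_zero).1 h3
  · intro h
    exact Dvd.dvd.mul_left (dvd_add (h.trans (dvd_pow_self x two_ne_zero)) h1) ν

/-- The finite sums, general form. -/
theorem main (g G : ℕ) [NeZero g] [NeZero G] (hg : Odd g) (hs : Squarefree g)
    (hc : Nat.Coprime g (4 * G)) (hD : EvD (4 * (g * G))) (hsq : w g G 1 ^ 2 = -16 * G *
      (jacobiSym (-1) g : ℂ))
    (hw : ∀ ν : ℕ, kr (4 * (g * G)) ν = 1 → w g G ν = (jacobiSym ν g : ℂ) * w g G 1) :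
    GsP (4 * (g * G)) g := by
  have hg0 : g ≠ 0 := NeZero.ne g
  have hG0 : G ≠ 0 := NeZero.ne G
  have hgc : (g : ℂ) ≠ 0 := by exact_mod_cast hg0
  have hGc : (G : ℂ) ≠ 0 := by exact_mod_cast hG0
  have h4G : NeZero (4 * G) := ⟨mul_ne_zero (by norm_num) hG0⟩
  obtain ⟨gb, c, hgb⟩ : ∃ gb c : ℤ, gb * g - 1 = 4 * G * c := by
    have h1 : IsCoprime (g : ℤ) ((4 * G : ℕ) : ℤ) := Nat.isCoprime_iff_coprime.2 hc
    obtain ⟨u, v, huv⟩ := h1
    refine ⟨u, -v, ?_⟩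
    push_cast at huv
    linear_combination huv
  have hgb4 : (4 : ℤ) ∣ gb - g := by
    have hgo : ((g : ℤ)) % 4 = 1 ∨ ((g : ℤ)) % 4 = 3 := by
      obtain ⟨j, rfl⟩ := hg
      omega
    have h1 : gb * g % 4 = 1 := by
      have h2 : gb * g = 1 + 4 * (G * c) := by linear_combination hgb
      rw [h2]
      omega
    have h3 : gb % 4 = 0 ∨ gb % 4 = 1 ∨ gb % 4 = 2 ∨ gb % 4 = 3 := by omega
    rcases hgo with a | a <;> rcases h3 with b | b | b | b <;>
      rw [Int.mul_emod, a, b] at h1 <;> omega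
  obtain ⟨K, hK⟩ : ∃ K : ℂ, K = w g G 1 / (8 * G) := ⟨_, rfl⟩
  have hK2 : K ^ 2 = -(jacobiSym (-1) g : ℂ) * ((4 * G : ℕ) : ℂ)⁻¹ := by
    rw [hK, div_pow, hsq]
    push_cast
    field_simp
    norm_num
    ring
  have hjg : IsCoprime (-1 : ℤ) (g : ℤ) := isCoprime_one_left.neg_left
  have hKn : Complex.normSq K = ((4 * G : ℕ) : ℝ)⁻¹ := by
    have h1 : Complex.normSq K ^ 2 = (((4 * G : ℕ) : ℝ)⁻¹) ^ 2 := by
      rw [← map_pow, hK2, map_mul, Complex.normSq_neg, map_inv₀, Complex.normSq_natCast]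
      have h2 : jacobiSym (-1) g = 1 ∨ jacobiSym (-1) g = -1 :=
        jacobiSym.eq_one_or_neg_one (Int.isCoprime_iff_gcd_eq_one.1 hjg)
      have h3 : Complex.normSq (jacobiSym (-1) g : ℂ) = 1 := by
        rcases h2 with h2 | h2 <;> rw [h2] <;> simp
      rw [h3, one_mul, mul_inv, sq]
    exact (pow_left_inj₀ (Complex.normSq_nonneg _) (by positivity) two_ne_zero).1 h1
  have hwid : wid (4 * (g * G)) g = 4 * G := by
    unfold wid
    have h1 : 4 * (g * G) / g = 4 * G := by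
      rw [show 4 * (g * G) = g * (4 * G) by ring]
      exact Nat.mul_div_cancel_left _ (Nat.pos_of_ne_zero hg0)
    rw [h1, Nat.Coprime.gcd_eq_one hc, mul_one, h1]
  have hodd : oddp g = g := by
    unfold oddp
    rw [Nat.factorization_eq_zero_of_not_dvd (fun h => by
      exact (Nat.not_even_iff_odd.2 hg) (even_iff_two_dvd.2 h)), pow_zero, Nat.div_one]
  have hsup : ∀ N : ℤ, supE (4 * (g * G)) g N ↔ (g : ℤ) ∣ N := by
    intro N
    unfold supE
    rw [hodd]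
    exact ⟨fun h => h.1, fun h => ⟨h, Or.inl hg⟩⟩
  classical
  obtain ⟨Φ, hΦ⟩ : ∃ Φ : ℤ → ℂ, ∀ N, Φ N = if (g : ℤ) ∣ N then
      ee (((-(gb * (N / g)) : ℤ) : ℂ) / (4 * G : ℕ)) * K else 0 := ⟨_, fun _ => rfl⟩
  refine ⟨Φ, ⟨?_, ?_, ?_, ?_⟩, ?_⟩
  · intro N
    have h1 : (g : ℤ) ∣ N + (4 * (g * G) : ℕ) ↔ (g : ℤ) ∣ N :=
      dvd_add_left ⟨4 * G, by push_cast; ring⟩
    rw [hΦ, hΦ]
    by_cases h : (g : ℤ) ∣ N
    · rw [if_pos h, if_pos (h1.2 h)]
      congr 1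
      obtain ⟨M, rfl⟩ := h
      have h2 : (g : ℤ) * M + (4 * (g * G) : ℕ) = g * (M + 4 * G) := by
        push_cast
        ring
      have h3 : (g : ℤ) ≠ 0 := by exact_mod_cast hg0
      rw [h2, Int.mul_ediv_cancel_left _ h3, Int.mul_ediv_cancel_left _ h3]
      apply ee_congr
      exact ⟨-gb, by push_cast; ring⟩
    · rw [if_neg h, if_neg (fun h' => h (h1.1 h'))]
  · intro N hN
    rw [hΦ, if_pos ((hsup N).1 hN), map_mul, normSq_ee, one_mul, hKn, hwid]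
  · intro N hN
    rw [hΦ, if_neg (fun h => hN ((hsup N).2 h))]
  · intro N hN
    have h := (hsup N).1 hN
    rw [hΦ, hΦ, if_pos h, if_pos ((dvd_neg).2 h), hwid]
    have h1 : -N / g = -(N / g) := Int.neg_ediv_of_dvd h
    unfold sgnE
    rw [if_pos hg, h1]
    calc _ = (ee (((-(gb * (N / g)) : ℤ) : ℂ) / (4 * G : ℕ)) *
          ee (((-(gb * -(N / g)) : ℤ) : ℂ) / (4 * G : ℕ))) * K ^ 2 := by ring
      _ = K ^ 2 := by
          rw [← ee_add, ← add_div, ← Int.cast_add]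
          have h2 : -(gb * (N / g)) + -(gb * -(N / g)) = 0 := by ring
          rw [h2, Int.cast_zero, zero_div, ee_zero, one_mul]
      _ = _ := by
          rw [hK2]
          push_cast
          ring
  · intro ν x y hν
    obtain ⟨hνo, hνj⟩ := kr_val hν
    have hνn := kr_coprime hνj hνo
    push_cast at hνn
    have hνg : IsCoprime (ν : ℤ) (g : ℤ) := hνn.of_mul_right_left
    have hνoZ : Odd (ν : ℤ) := by exact_mod_cast hνo
    have hgoZ : Odd (g : ℤ) := by exact_mod_cast hg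
    have e1 : 4 * (g * G) / 2 = 2 * (g * G) := by omega
    have e2 : 4 * (g * G) / 4 = g * G := by omega
    have hsplit : ∑ a ∈ Finset.range (4 * (g * G) / 2), ∑ b ∈ Finset.range 2,
        ee (((ν * (g * ((a : ℤ) ^ 2 + (4 * (g * G) / 4 : ℕ) * (b : ℤ) ^ 2) +
          2 * (a * x + (4 * (g * G) / 4 : ℕ) * b * y)) : ℤ) : ℂ) / (4 * (g * G) : ℕ)) =
        (∑ a ∈ Finset.range (2 * (g * G)),
          ee (((ν * (g * (a : ℤ) ^ 2 + 2 * (a * x)) : ℤ) : ℂ) / (4 * (g * G) : ℕ))) *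
          t (ν * (g + 2 * y)) := by
      have ht : t (ν * (g + 2 * y)) = ∑ b ∈ Finset.range 2,
          ee (((ν * (g * (b : ℤ) ^ 2 + 2 * (b * y)) : ℤ) : ℂ) / (4 : ℕ)) := by
        rw [Finset.sum_range_succ, Finset.sum_range_one]
        unfold t
        congr 1
        · push_cast
          ring_nf
          rw [ee_zero]
        · congr 1
          push_cast
          ring
      rw [e1, e2, ht, Finset.sum_mul_sum]
      refine Finset.sum_congr rfl fun a _ => Finset.sum_congr rfl fun b _ => ?_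
      rw [← ee_add]
      congr 1
      push_cast
      field_simp
      ring
    rw [hsplit, sumA g G ν x]
    unfold epsE
    rw [if_pos hg, e2, hΦ]
    by_cases hx : (g : ℤ) ∣ x
    · obtain ⟨x', rfl⟩ := hx
      rw [if_pos ((dvd_mul_right _ _).mul_left _),
        if_pos ((dvd_norm hs hνg).2 (dvd_mul_right _ _))]
      have h3 : (g : ℤ) ≠ 0 := by exact_mod_cast hg0
      have h4 : (ν : ℤ) * ((g * x') ^ 2 + (g * G : ℕ) * y ^ 2) / g =
          ν * (g * x' ^ 2 + G * y ^ 2) := by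
        have : (ν : ℤ) * ((g * x') ^ 2 + (g * G : ℕ) * y ^ 2) =
            g * (ν * (g * x' ^ 2 + G * y ^ 2)) := by
          push_cast
          ring
        rw [this, Int.mul_ediv_cancel_left _ h3]
      rw [h4]
      have h5 : ∑ a ∈ Finset.range (2 * G),
          ee (((ν * (g * (a : ℤ) ^ 2 + 2 * (a * (g * x'))) : ℤ) : ℂ) / (4 * (g * G) : ℕ)) =
          ee (((-(ν * x' ^ 2) : ℤ) : ℂ) / (4 * G : ℕ)) * (Q (4 * G) ν / 2) := by
        have h6 := half G ν x'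
        rw [← Q_eq] at h6
        rw [← h6, mul_div_cancel_left₀ _ (two_ne_zero), Finset.mul_sum]
        refine Finset.sum_congr rfl fun a _ => ?_
        rw [← ee_add]
        congr 1
        push_cast
        field_simp
        ring
      rw [h5, t_shift hνoZ hgoZ hgb4]
      have h7 : ee (((-(gb * (ν * (g * x' ^ 2 + G * y ^ 2))) : ℤ) : ℂ) / (4 * G : ℕ)) =
          ee (((-(ν * x' ^ 2) : ℤ) : ℂ) / (4 * G : ℕ)) *
            ee (((-(gb * (ν * y ^ 2)) : ℤ) : ℂ) / (4 : ℕ)) := by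
        have h8 : ee (((-(gb * (ν * y ^ 2)) : ℤ) : ℂ) / (4 : ℕ)) =
            ee (((-(gb * (ν * G * y ^ 2)) : ℤ) : ℂ) / (4 * G : ℕ)) := by
          congr 1
          push_cast
          field_simp
        rw [h8, ← ee_add, ← add_div, ← Int.cast_add]
        apply ee_congr
        refine ⟨-(ν * x' ^ 2 * c), ?_⟩
        push_cast
        linear_combination (-(ν * x' ^ 2)) * hgb
      rw [h7, hK]
      have h9 := hw ν hν
      unfold w at h9
      have h10 : w g G 1 = Q (4 * G) 1 * t (1 * g) := rfl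
      rw [h10]
      generalize ee (((-(ν * x' ^ 2) : ℤ) : ℂ) / (4 * G : ℕ)) = α
      generalize ee (((-(gb * (ν * y ^ 2)) : ℤ) : ℂ) / (4 : ℕ)) = β
      have h11 : ((4 * (g * G) : ℕ) : ℂ) * (jacobiSym ν g : ℂ) *
          (α * β * (Q (4 * G) 1 * t (1 * g) / (8 * G))) =
          g / 2 * α * β * ((jacobiSym ν g : ℂ) * (Q (4 * G) 1 * t (1 * g))) := by
        push_cast
        field_simp
        ring
      rw [h11, ← h9]
      ring
    · rw [if_neg (fun h => hx (hνg.symm.dvd_of_dvd_mul_left h)),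
        if_neg (fun h => hx ((dvd_norm hs hνg).1 h))]
      ring

end Gs1aux

open Gs1aux in
theorem stGs1 : StGs1 := by
  intro D g hD hgD hg
  obtain ⟨h4D, n, rfl, hs, hn⟩ := hD
  have hgn : g ∣ n := by
    have : Nat.Coprime g 4 := by
      have : Nat.Coprime g (2 ^ 2) := (Nat.coprime_two_right.2 hg).pow_right 2
      exact this
    exact this.dvd_of_dvd_mul_left hgD
  obtain ⟨G, rfl⟩ := hgn
  have hD : EvD (4 * (g * G)) := ⟨h4D, g * G, rfl, hs, hn⟩
  have hg0 : NeZero g := ⟨by rintro rfl; exact absurd hg (by decide)⟩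
  have hG0 : NeZero G := ⟨by rintro rfl; simp at h4D⟩
  have hsg : Squarefree g := hs.squarefree_of_dvd (dvd_mul_right _ _)
  have hcg : Nat.Coprime g G := Nat.coprime_of_squarefree_mul hs
  have hc : Nat.Coprime g (4 * G) := by
    refine Nat.Coprime.mul_right ?_ hcg
    have : Nat.Coprime g (2 ^ 2) := (Nat.coprime_two_right.2 hg).pow_right 2
    exact this
  rcases hn with hn | hn
  · refine main g G hg hsg hc hD (sq_odd hs hn) ?_
    intro ν hν
    obtain ⟨hνo, hνj⟩ := kr_val hν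
    exact w_odd hs hn hνo hνj
  · have hG2 : 2 ∣ G := by
      have h2 : 2 ∣ g * G := by omega
      exact (Nat.coprime_two_left.2 hg).dvd_of_dvd_mul_left h2
    obtain ⟨G', rfl⟩ := hG2
    have hG0' : NeZero G' := ⟨by rintro rfl; simp at h4D⟩
    have e : g * (2 * G') = 2 * (g * G') := by ring
    rw [e] at hs
    refine main g (2 * G') hg hsg hc hD (sq_even hs) ?_
    intro ν hν
    obtain ⟨hνo, hνj⟩ := kr_val hν
    rw [e] at hνj
    exact w_even hs hνo hνj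


end RZ

end Pool.Agent.Lib.MP_7c08ba_nt
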