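import Mathlib
import Pool.Agent.Lib.MP_7c08ba_nt.RZ.StH
import Pool.Agent.Lib.MP_7c08ba_nt.RZ.ThCD

set_option autoImplicit false

/-!
Module `Gs2`: finite quadratic sums at the cusps `1 / g`, `g` even.
-/

namespace Pool.Agent.Lib.MP_7c08ba_nt

namespace RZ

open NumberField MeasureTheory UpperHalfPlane Set
open scoped MatrixGroups ComplexConjugate nonZeroDivisors

namespace Gs2X

open ThCDX (gs ee_add ee_int ee_div)

theorem sum_range_zmod {k : ℕ} [NeZero k] (f : ZMod k → ℂ) :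
    ∑ a ∈ Finset.range k, f (a : ZMod k) = ∑ a : ZMod k, f a := by
  refine Finset.sum_nbij' (fun a => (a : ZMod k)) ZMod.val ?_ ?_ ?_ ?_ ?_
  · intro a _
    exact Finset.mem_univ _
  · intro a _
    exact Finset.mem_range.2 (ZMod.val_lt a)
  · intro a ha
    exact ZMod.val_cast_of_lt (Finset.mem_range.1 ha)
  · intro a _
    exact ZMod.natCast_zmod_val a
  · intro a _
    rfl

theorem sum_quasi (F : ℕ → ℂ) (c : ℂ) (k h : ℕ) (hF : ∀ a, F (a + k) = c * F a) :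
    ∑ a ∈ Finset.range (h * k), F a =
      (∑ j ∈ Finset.range h, c ^ j) * ∑ a ∈ Finset.range k, F a := by
  have h1 : ∀ j i : ℕ, F (j * k + i) = c ^ j * F i := by
    intro j
    induction j with
    | zero => intro i; simp
    | succ j ih =>
      intro i
      rw [show (j + 1) * k + i = (j * k + i) + k by ring, hF, ih, pow_succ]
      ring
  induction h with
  | zero => simp
  | succ h ih =>
    rw [show (h + 1) * k = h * k + k by ring, Finset.sum_range_add, ih, Finset.sum_range_succ,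
      add_mul, Finset.mul_sum (Finset.range k) F (c ^ h)]
    congr 1
    exact Finset.sum_congr rfl fun i _ => h1 h i

theorem ee_zero : ee 0 = 1 := by
  unfold ee
  simp

theorem ee_eq_one {h : ℕ} [NeZero h] {m : ℤ} (H : ee (m / h) = 1) : (h : ℤ) ∣ m := by
  rw [ee_div, ← AddChar.map_zero_eq_one (ZMod.stdAddChar (N := h))] at H
  exact (ZMod.intCast_zmod_eq_zero_iff_dvd _ _).1 (ZMod.injective_stdAddChar H)

theorem ee_congr {z w : ℂ} (m : ℤ) (h : z = w + m) : ee z = ee w := by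
  rw [h, ee_add, ee_int, mul_one]

theorem ee_pow (z : ℂ) (j : ℕ) : ee z ^ j = ee (j * z) := by
  unfold ee
  rw [← Complex.exp_nat_mul]
  congr 1
  ring

theorem geom {h : ℕ} [NeZero h] {m : ℤ} (H : ¬ (h : ℤ) ∣ m) :
    ∑ j ∈ Finset.range h, ee (m / h) ^ j = 0 := by
  have h1 : ee (m / h) ≠ 1 := fun h => H (ee_eq_one h)
  have h2 := mul_geom_sum (ee (m / h)) h
  have h3 : (h : ℂ) ≠ 0 := by exact_mod_cast NeZero.ne h
  rw [ee_pow, mul_div_cancel₀ _ h3, ee_int, sub_self] at h2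
  exact (mul_eq_zero.1 h2).resolve_left (sub_ne_zero.2 h1)

theorem ee_half (m : ℤ) : ee (m / 2) = if Even m then 1 else -1 := by
  split_ifs with h
  · obtain ⟨k, rfl⟩ := h
    rw [← ee_int k]
    congr 1
    push_cast
    ring
  · obtain ⟨k, rfl⟩ := Int.not_even_iff_odd.1 h
    rw [show (((2 * k + 1 : ℤ) : ℂ) / 2) = 1 / 2 + (k : ℤ) by push_cast; ring, ee_add, ee_int,
      mul_one]
    unfold ee
    rw [show 2 * (Real.pi : ℂ) * Complex.I * (1 / 2) = Real.pi * Complex.I by ring,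
      Complex.exp_pi_mul_I]

/-- The sums `∑ e(ν (a² + x a) / k)`. -/
noncomputable def T (k : ℕ) (ν x : ℤ) : ℂ :=
  ∑ a ∈ Finset.range k, ee (((ν * ((a : ℤ) ^ 2 + x * a) : ℤ) : ℂ) / k)

theorem sq_sum {G : ℕ} [NeZero G] (t c x : ZMod G) (ht : 2 * t = 1) :
    ∑ a : ZMod G, (ZMod.stdAddChar (c * (a ^ 2 + x * a)) : ℂ) =
      ZMod.stdAddChar (-(c * t ^ 2 * x ^ 2)) * gs G c := by
  unfold gs
  rw [Finset.mul_sum]
  refine Fintype.sum_equiv (Equiv.addRight (t * x)) _ _ fun a => ?_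
  rw [← AddChar.map_add_eq_mul]
  congr 1
  simp only [Equiv.coe_addRight]
  linear_combination (-(c * a * x)) * ht

theorem T_odd {G : ℕ} [NeZero G] (t ν x : ℤ) (ht : ((2 * t : ℤ) : ZMod G) = 1) :
    T G ν x = ee (((-(ν * t ^ 2 * x ^ 2) : ℤ) : ℂ) / G) * gs G (ν : ZMod G) := by
  have h := sq_sum (G := G) (t : ZMod G) (ν : ZMod G) (x : ZMod G) (by push_cast at ht; exact ht)
  unfold T
  rw [ee_div]
  push_cast
  rw [← h, ← sum_range_zmod]
  refine Finset.sum_congr rfl fun a _ => ?_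
  have := ee_div (n := G) (ν * ((a : ℤ) ^ 2 + x * a))
  push_cast at this
  exact this

theorem T_two {G : ℕ} [NeZero G] (hG : Odd G) (t ν x : ℤ) (hν : Odd ν)
    (ht : ((2 * t : ℤ) : ZMod G) = 1) :
    T (2 * G) ν x = if Odd x then
      2 * (ee (((-(ν * t ^ 3 * x ^ 2) : ℤ) : ℂ) / G) * gs G ((ν * t : ℤ) : ZMod G)) else 0 := by
  have hG0 : (G : ℂ) ≠ 0 := by exact_mod_cast NeZero.ne G
  unfold T
  rw [sum_quasi _ (ee (((ν * (G + x) : ℤ) : ℂ) / 2)) G 2]
  · rw [ee_half, Finset.sum_range_succ, Finset.sum_range_one, pow_zero, pow_one]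
    have h1 : Even (ν * (G + x)) ↔ Odd x := by
      have h2 : ¬ Even (G : ℤ) := Int.not_even_iff_odd.2 (by exact_mod_cast hG)
      have h3 : ¬ Even ν := Int.not_even_iff_odd.2 hν
      rw [Int.even_mul, Int.even_add, ← Int.not_even_iff_odd]
      tauto
    by_cases hx : Odd x
    · rw [if_pos (h1.2 hx), if_pos hx]
      have h3 : ((t : ℤ) : ZMod G) * 2 = 1 := by push_cast at ht; rw [mul_comm]; exact ht
      have h := sq_sum (G := G) (t : ZMod G) (ν * t : ZMod G) (x : ZMod G)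
        (by push_cast at ht; exact ht)
      rw [ee_div]
      push_cast
      rw [show (-(ν * t ^ 3 * x ^ 2) : ZMod G) = -((ν * t) * t ^ 2 * x ^ 2) by ring, ← h,
        ← sum_range_zmod, one_add_one_eq_two]
      congr 1
      refine Finset.sum_congr rfl fun a _ => ?_
      obtain ⟨b, hb⟩ : ∃ b : ℤ, ν * ((a : ℤ) ^ 2 + x * a) = 2 * b := by
        have : Even (ν * ((a : ℤ) ^ 2 + x * a)) := by
          rw [← Int.not_even_iff_odd] at hx hν
          rw [Int.even_mul, Int.even_add, Int.even_pow, Int.even_mul]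
          tauto
        obtain ⟨b, hb⟩ := this
        exact ⟨b, by rw [hb]; ring⟩
      have e1 : ee (b / G) = ZMod.stdAddChar (b : ZMod G) := ee_div b
      have e2 : (b : ZMod G) = ν * t * ((a : ZMod G) ^ 2 + x * a) := by
        have := congrArg (fun z : ℤ => (t : ZMod G) * (z : ZMod G)) hb
        push_cast at this
        linear_combination (-(b : ZMod G)) * h3 - this
      rw [← e2, ← e1]
      congr 1
      have := congrArg (fun z : ℤ => (z : ℂ)) hb
      push_cast at this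
      rw [this]
      field_simp
    · rw [if_neg (fun h => hx (h1.1 h)), if_neg hx]
      ring
  · intro a
    rw [← ee_add]
    refine ee_congr (ν * a) ?_
    push_cast
    field_simp
    ring

theorem gs_four (c : ℤ) : gs 4 (c : ZMod 4) = 2 * (1 + ee (c / 4)) := by
  have h1 : gs 4 (c : ZMod 4) = ZMod.stdAddChar ((c : ZMod 4) * 0 ^ 2) +
      ZMod.stdAddChar ((c : ZMod 4) * 1 ^ 2) + ZMod.stdAddChar ((c : ZMod 4) * 2 ^ 2) +
      ZMod.stdAddChar ((c : ZMod 4) * 3 ^ 2) := by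
    unfold gs
    exact Fin.sum_univ_four _
  have h2 : ee (c / (4 : ℕ)) = ZMod.stdAddChar (c : ZMod 4) := ee_div c
  rw [h1, show (2 : ZMod 4) ^ 2 = 0 by decide, show (3 : ZMod 4) ^ 2 = 1 by decide]
  simp only [one_pow, mul_one, mul_zero, ne_eq, OfNat.ofNat_ne_zero, not_false_eq_true, zero_pow,
    AddChar.map_zero_eq_one]
  rw [← h2]
  push_cast
  ring

theorem T_four_odd {G : ℕ} [NeZero G] (ν x : ℤ) (hν : Odd ν) (hx : Odd x) :
    T (4 * G) ν x = 0 := by
  have hG0 : (G : ℂ) ≠ 0 := by exact_mod_cast NeZero.ne G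
  unfold T
  rw [show 4 * G = 2 * (2 * G) by ring, sum_quasi _ (ee (((ν * x : ℤ) : ℂ) / 2)) (2 * G) 2]
  · rw [ee_half, Finset.sum_range_succ, Finset.sum_range_one, pow_zero, pow_one,
      if_neg (Int.not_even_iff_odd.2 (hν.mul hx))]
    ring
  · intro a
    rw [← ee_add]
    refine ee_congr (ν * (a + G)) ?_
    push_cast
    field_simp
    ring

theorem T_sq {K : ℕ} [NeZero K] (ν x : ℤ) :
    T K ν (2 * x) = ee (((-(ν * x ^ 2) : ℤ) : ℂ) / K) * gs K (ν : ZMod K) := by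
  rw [ee_div]
  unfold T gs
  rw [Finset.mul_sum]
  have e2 : ∀ a : ℕ, ee (((ν * ((a : ℤ) ^ 2 + 2 * x * a) : ℤ) : ℂ) / (K : ℂ)) =
      (fun a : ZMod K => (ZMod.stdAddChar ((ν : ZMod K) * (a ^ 2 + 2 * (x : ZMod K) * a)) : ℂ))
        (a : ZMod K) := by
    intro a
    rw [ee_div]
    push_cast
    rfl
  refine (Finset.sum_congr rfl fun a _ => e2 a).trans ((sum_range_zmod (fun a : ZMod K =>
    (ZMod.stdAddChar ((ν : ZMod K) * (a ^ 2 + 2 * (x : ZMod K) * a)) : ℂ))).trans ?_)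
  refine Fintype.sum_equiv (Equiv.addRight (x : ZMod K)) _ _ fun a => ?_
  rw [← AddChar.map_add_eq_mul]
  congr 1
  simp only [Equiv.coe_addRight]
  push_cast
  ring

theorem T_four {G : ℕ} [NeZero G] (hG : Odd G) (t ν x : ℤ) (hν : Odd ν)
    (ht : ((2 * t : ℤ) : ZMod G) = 1) :
    T (4 * G) ν (2 * x) = ee (((-(ν * x ^ 2) : ℤ) : ℂ) / (4 * G)) *
      (2 * (1 + ee (((ν * G : ℤ) : ℂ) / 4)) * gs G (ν : ZMod G)) := by
  have hn : NeZero (4 * G) := ⟨mul_ne_zero (by norm_num) (NeZero.ne G)⟩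
  have hc : Nat.Coprime 4 G := by
    rw [show 4 = 2 ^ 2 by norm_num]
    exact Nat.Coprime.pow_left 2 (Nat.coprime_two_left.2 hG)
  rw [T_sq, ThCDX.gs_crt hc, gs_four]
  have h2 : IsUnit (2 : ZMod G) := IsUnit.of_mul_eq_one (t : ZMod G) (by push_cast at ht; exact ht)
  have h3 : gs G ((ν * (4 : ℕ) : ℤ) : ZMod G) = gs G (ν : ZMod G) := by
    rw [← ThCDX.gs_mul_sq (ν : ZMod G) h2]
    congr 1
    push_cast
    ring
  rw [h3]
  push_cast
  ring

theorem split (n h k : ℕ) (hn : n ≠ 0) (hk : 2 * n = h * k) (ν : ℕ) (hν : Odd ν)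
    (hc : Nat.Coprime ν h) (x y : ℤ) :
    ∑ a ∈ Finset.range ((4 * n) / 2), ∑ b ∈ Finset.range 2,
      ee (((ν * ((2 * h : ℕ) * ((a : ℤ) ^ 2 + ((4 * n) / 4 : ℕ) * (b : ℤ) ^ 2) +
        2 * (a * x + ((4 * n) / 4 : ℕ) * b * y)) : ℤ) : ℂ) / ((4 * n : ℕ) : ℂ)) =
      (if Even (h + y) then 2 else 0) *
        (if (h : ℤ) ∣ x then (h : ℂ) * T k ν (x / h) else 0) := by
  have h0 : h ≠ 0 := by rintro rfl; omega
  have k0 : k ≠ 0 := by rintro rfl; omega
  have : NeZero h := ⟨h0⟩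
  have h0' : (h : ℂ) ≠ 0 := by exact_mod_cast h0
  have k0' : (k : ℂ) ≠ 0 := by exact_mod_cast k0
  have n0' : (n : ℂ) ≠ 0 := by exact_mod_cast hn
  have hk' : 2 * (n : ℂ) = h * k := by exact_mod_cast hk
  have e1 : 4 * n / 2 = 2 * n := by omega
  have e2 : 4 * n / 4 = n := by omega
  rw [e1, e2]
  have h1 : ∀ a : ℕ, ∑ b ∈ Finset.range 2,
      ee (((ν * ((2 * h : ℕ) * ((a : ℤ) ^ 2 + (n : ℕ) * (b : ℤ) ^ 2) +
        2 * (a * x + (n : ℕ) * b * y)) : ℤ) : ℂ) / ((4 * n : ℕ) : ℂ)) =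
      (if Even (h + y) then 2 else 0) * ee (((ν * (h * (a : ℤ) ^ 2 + x * a) : ℤ) : ℂ) / (h * k)) := by
    intro a
    rw [Finset.sum_range_succ, Finset.sum_range_one]
    have e3 : ee (((ν * ((2 * h : ℕ) * ((a : ℤ) ^ 2 + (n : ℕ) * ((0 : ℕ) : ℤ) ^ 2) +
        2 * (a * x + (n : ℕ) * (0 : ℕ) * y)) : ℤ) : ℂ) / ((4 * n : ℕ) : ℂ)) =
        ee (((ν * (h * (a : ℤ) ^ 2 + x * a) : ℤ) : ℂ) / (h * k)) := by
      congr 1
      rw [← hk']
      push_cast
      field_simp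
      ring
    have e4 : ee (((ν * ((2 * h : ℕ) * ((a : ℤ) ^ 2 + (n : ℕ) * ((1 : ℕ) : ℤ) ^ 2) +
        2 * (a * x + (n : ℕ) * (1 : ℕ) * y)) : ℤ) : ℂ) / ((4 * n : ℕ) : ℂ)) =
        ee (((ν * (h * (a : ℤ) ^ 2 + x * a) : ℤ) : ℂ) / (h * k)) *
          ee (((ν * (h + y) : ℤ) : ℂ) / 2) := by
      rw [← ee_add]
      congr 1
      rw [← hk']
      push_cast
      field_simp
      ring
    rw [e3, e4, ee_half]
    have h2 : Even ((ν : ℤ) * (h + y)) ↔ Even (h + y) := by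
      have : ¬ Even (ν : ℤ) := Int.not_even_iff_odd.2 (by exact_mod_cast hν)
      rw [Int.even_mul]
      tauto
    by_cases hy : Even (h + y)
    · rw [if_pos (h2.2 hy), if_pos hy]
      ring
    · rw [if_neg (fun h => hy (h2.1 h)), if_neg hy]
      ring
  rw [Finset.sum_congr rfl fun a _ => h1 a, ← Finset.mul_sum]
  congr 1
  rw [hk, sum_quasi _ (ee (((ν * x : ℤ) : ℂ) / h)) k h]
  · split_ifs with hx
    · obtain ⟨x, rfl⟩ := hx
      rw [Int.mul_ediv_cancel_left _ (by exact_mod_cast h0)]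
      have e5 : ee (((ν * (h * x) : ℤ) : ℂ) / h) = 1 := by
        rw [← ee_int (ν * x)]
        congr 1
        push_cast
        field_simp
      rw [e5]
      simp only [one_pow, Finset.sum_const, Finset.card_range, nsmul_eq_mul, mul_one]
      congr 1
      unfold T
      refine Finset.sum_congr rfl fun a _ => ?_
      congr 1
      push_cast
      field_simp
    · rw [geom, zero_mul]
      intro H
      exact hx ((Nat.isCoprime_iff_coprime.2 hc).symm.dvd_of_dvd_mul_left H)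
  · intro a
    rw [← ee_add]
    refine ee_congr (ν * (2 * a + k)) ?_
    push_cast
    field_simp
    ring

theorem gs_sq {G : ℕ} [NeZero G] (hG : Odd G) (hs : Squarefree G) :
    gs G 1 * gs G 1 = (jacobiSym (-1) G : ℂ) * G := by
  have h2 : IsUnit (2 : ZMod G) := by
    have := (ZMod.isUnit_iff_coprime 2 G).2 (Nat.coprime_two_left.2 hG)
    exact_mod_cast this
  have h3 := ThCDX.gs_mul_neg h2 (isUnit_one (M := ZMod G))
  have h4 := ThCDX.gs_jacobi G hG hs 1 (-1) isCoprime_one_left isCoprime_one_left.neg_left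
  push_cast at h4
  rw [h4] at h3
  have h5 : (jacobiSym (-1) G : ℂ) * (jacobiSym (-1) G : ℂ) = 1 := by
    have := jacobiSym.sq_one (a := -1) (b := G) (by simp)
    rw [sq] at this
    exact_mod_cast this
  linear_combination (jacobiSym (-1) G : ℂ) * h3 - gs G 1 * gs G 1 * h5

theorem gs_norm {G : ℕ} [NeZero G] (hG : Odd G) : Complex.normSq (gs G 1) = G := by
  have h2 : IsUnit (2 : ZMod G) := by
    have := (ZMod.isUnit_iff_coprime 2 G).2 (Nat.coprime_two_left.2 hG)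
    exact_mod_cast this
  have h3 := ThCDX.gs_mul_neg h2 (isUnit_one (M := ZMod G))
  rw [ThCDX.gs_neg, Complex.mul_conj] at h3
  exact_mod_cast h3

theorem normSq_ee (x : ℝ) : Complex.normSq (ee x) = 1 := by
  rw [Complex.normSq_eq_norm_sq, ThCDX.norm_ee]
  simp

theorem supE_neg {D g : ℕ} {N : ℤ} (h : supE D g N) : supE D g (-N) := by
  refine ⟨(dvd_neg).2 h.1, ?_⟩
  rw [Int.neg_gcd]
  exact h.2

theorem build (D g n m g' G h k : ℕ) [NeZero G] (u : ℤ) (W : ℤ → ℂ) (hD : D = 4 * n)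
    (hg : g = 2 * h) (hk : 2 * n = h * k) (hn : n ≠ 0) (hm : n = m * (g' * G)) (hge : Even g)
    (hG : Odd G) (hs : Squarefree G) (ho : oddp (D / g) = G) (hhc : h ∣ 2 * n)
    (hper : ∀ N, W (N + D) = W N)
    (hnrm : ∀ N, supE D g N → Complex.normSq (W N) = (G : ℝ) / (wid D g : ℕ))
    (hneg : ∀ N, supE D g N → W N * W (-N) = (G : ℂ) / (wid D g : ℕ))
    (hno : ∀ (ν : ℕ) (x y : ℤ), Odd ν → ν.Coprime n → supE D g (ν * (x ^ 2 + n * y ^ 2)) →
      (h : ℤ) ∣ x)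
    (main : ∀ (ν : ℕ) (x y : ℤ), Odd ν → ν.Coprime n →
      (supE D g (ν * ((h * x) ^ 2 + n * y ^ 2)) → (if Even (h + y) then 2 else 0) * T k ν x =
       2 * k * W (ν * ((h * x) ^ 2 + n * y ^ 2)) *
        ee (((-(u * (ν * ((h * x) ^ 2 + n * y ^ 2))) : ℤ) : ℂ) / (g' * G)) * gs G (ν : ZMod G) / G) ∧
      (¬ supE D g (ν * ((h * x) ^ 2 + n * y ^ 2)) →
        (if Even (h + y) then 2 else 0) * T k ν x = 0)) : GsP D g := by
  classical
  have hG0 : (G : ℂ) ≠ 0 := by exact_mod_cast NeZero.ne G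
  have hG0r : (G : ℝ) ≠ 0 := by exact_mod_cast NeZero.ne G
  have hn0 : (n : ℂ) ≠ 0 := by exact_mod_cast hn
  have hg0 : (g' : ℂ) ≠ 0 := by
    intro h
    apply hn0
    rw [hm]
    push_cast
    rw [h]
    ring
  refine ⟨fun N => if supE D g N then W N * ee (((-(u * N) : ℤ) : ℂ) / (g' * G)) * gs G 1 / G
    else 0, ⟨?_, ?_, ?_, ?_⟩, ?_⟩
  · intro N
    have h1 : supE D g (N + D) ↔ supE D g N := by
      unfold supE
      have e1 : (oddp g : ℤ) ∣ (D : ℤ) := by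
        have : oddp g ∣ D := by
          have h1 : oddp g ∣ g := Nat.ordCompl_dvd g 2
          refine h1.trans ?_
          rw [hg, hD, show 4 * n = 2 * (2 * n) by ring]
          exact Nat.mul_dvd_mul_left 2 hhc
        exact_mod_cast this
      have e2 : (twop D : ℤ) ∣ (D : ℤ) := by
        have : twop D ∣ D := Nat.ordProj_dvd D 2
        exact_mod_cast this
      obtain ⟨c, hc⟩ := e2
      rw [dvd_add_left e1]
      have e3 : Int.gcd (N + D) (twop D) = Int.gcd N (twop D) := by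
        conv_lhs => rw [hc]
        rw [Int.gcd_add_mul_left_left]
      rw [e3]
    by_cases h2 : supE D g N
    · rw [if_pos h2, if_pos (h1.2 h2), hper]
      congr 2
      congr 1
      refine ee_congr (-(u * (4 * m))) ?_
      rw [hD, hm]
      push_cast
      field_simp
      ring
    · rw [if_neg h2, if_neg (fun h => h2 (h1.1 h))]
  · intro N hN
    simp only [if_pos hN]
    rw [Complex.normSq_div, Complex.normSq_mul, Complex.normSq_mul, gs_norm hG, hnrm N hN]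
    have e1 : (((-(u * N) : ℤ) : ℂ) / (g' * G)) = (((-(u * N) : ℤ) : ℝ) / (g' * G) : ℝ) := by
      push_cast
      ring
    rw [e1, normSq_ee, Complex.normSq_natCast]
    field_simp
  · intro N hN
    simp only [if_neg hN]
  · intro N hN
    simp only [if_pos hN, if_pos (supE_neg hN)]
    have e1 : ee (((-(u * N) : ℤ) : ℂ) / (g' * G)) * ee (((-(u * -N) : ℤ) : ℂ) / (g' * G)) = 1 := by
      rw [← ee_add, ← ee_zero]
      congr 1
      push_cast
      ring
    have e2 := gs_sq hG hs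
    have e3 : (sgnE D g : ℂ) = (jacobiSym (-1) G : ℂ) := by
      unfold sgnE
      rw [if_neg (Nat.not_odd_iff_even.2 hge), ho]
    rw [e3]
    have e4 := hneg N hN
    calc _ = (W N * W (-N)) * (ee (((-(u * N) : ℤ) : ℂ) / (g' * G)) *
        ee (((-(u * -N) : ℤ) : ℂ) / (g' * G))) * (gs G 1 * gs G 1) / (G * G) := by ring
      _ = _ := by
        rw [e1, e2, e4]
        field_simp
  · intro ν x y hν
    have hodd : Odd ν := by
      rw [← Nat.not_even_iff_odd]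
      intro h
      unfold kr at hν
      rw [if_pos h] at hν
      exact zero_ne_one hν
    have hcop : ν.Coprime n := by
      unfold kr at hν
      rw [if_neg (Nat.not_even_iff_odd.2 hodd)] at hν
      have e1 : D / 4 = n := by omega
      rw [e1] at hν
      by_contra hc
      have e2 : jacobiSym (-(n : ℤ)) ν = 0 := by
        rw [jacobiSym.eq_zero_iff]
        refine ⟨by rintro rfl; exact absurd hodd (by decide), fun h => hc ?_⟩
        rw [Int.neg_gcd, Int.gcd_natCast_natCast] at h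
        rw [Nat.coprime_comm]
        exact h
      rw [e2] at hν
      exact zero_ne_one hν
    have hch : Nat.Coprime ν h :=
      Nat.Coprime.coprime_dvd_right hhc
        (Nat.Coprime.mul_right (Nat.coprime_two_right.2 hodd) hcop)
    have hcG : ν.Coprime G := Nat.Coprime.coprime_dvd_right
      ⟨m * g', by rw [hm]; ring⟩ hcop
    have e1 := split n h k hn hk ν hodd hch x y
    have e5 : 4 * n / 4 = n := by omega
    subst hD hg
    rw [e1]
    rw [e5]
    have hε : (epsE (4 * n) (2 * h) ν : ℂ) = (jacobiSym ν G : ℂ) := by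
      unfold epsE
      rw [if_neg (Nat.not_odd_iff_even.2 hge), ho]
    have hgs : gs G (ν : ZMod G) = (jacobiSym ν G : ℂ) * gs G 1 := by
      have := ThCDX.gs_jacobi G hG hs 1 ν isCoprime_one_left
        (Nat.isCoprime_iff_coprime.2 hcG)
      push_cast at this
      simpa using this
    rw [hε]
    by_cases hx : (h : ℤ) ∣ x
    · rw [if_pos hx]
      obtain ⟨x, rfl⟩ := hx
      have h0 : (h : ℤ) ≠ 0 := by
        intro h0
        have : h = 0 := by exact_mod_cast h0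
        subst this
        omega
      rw [Int.mul_ediv_cancel_left _ h0]
      obtain ⟨m1, m2⟩ := main ν x y hodd hcop
      have hk' : 2 * (n : ℂ) = h * k := by exact_mod_cast hk
      by_cases h3 : supE (4 * n) (2 * h) (ν * ((h * x) ^ 2 + n * y ^ 2))
      · have m3 := m1 h3
        rw [hgs] at m3
        simp only [if_pos h3]
        have e6 : ((4 * n : ℕ) : ℂ) = 2 * h * k := by
          push_cast
          linear_combination 2 * hk'
        rw [e6]
        linear_combination (h : ℂ) * m3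
      · have m3 := m2 h3
        simp only [if_neg h3]
        linear_combination (h : ℂ) * m3
    · rw [if_neg hx, mul_zero]
      beta_reduce
      rw [if_neg (fun h => hx (hno ν x y hodd hcop h)), mul_zero]

theorem fac_two {i m : ℕ} (hm : Odd m) : (2 ^ i * m).factorization 2 = i := by
  have h0 : m ≠ 0 := by rintro rfl; exact absurd hm (by decide)
  rw [Nat.factorization_mul (by positivity) h0, Nat.Prime.factorization_pow Nat.prime_two]
  simp only [Finsupp.coe_add, Pi.add_apply, Finsupp.single_eq_same]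
  rw [Nat.factorization_eq_zero_of_not_dvd hm.not_two_dvd_nat, add_zero]

theorem twop_eq {i m : ℕ} (hm : Odd m) : twop (2 ^ i * m) = 2 ^ i := by
  unfold twop
  rw [fac_two hm]

theorem oddp_eq {i m : ℕ} (hm : Odd m) : oddp (2 ^ i * m) = m := by
  unfold oddp
  rw [fac_two hm, Nat.mul_div_cancel_left _ (by positivity)]

theorem supE_iff {e i g' G : ℕ} (h1 : Odd g') (h2 : Odd G) (hi : 1 ≤ i) (N : ℤ) :
    supE (2 ^ (e + 2) * (g' * G)) (2 ^ i * g') N ↔
      (g' : ℤ) ∣ N ∧ Int.gcd N ((2 ^ (e + 2) : ℕ) : ℤ) = 2 ^ i := by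
  unfold supE
  rw [oddp_eq h1, twop_eq h1, twop_eq (h1.mul h2)]
  have : ¬ Odd (2 ^ i * g') := by
    rw [Nat.not_odd_iff_even]
    exact ((Nat.even_pow.2 ⟨even_two, by omega⟩)).mul_right _
  tauto

theorem supE_nu {e i g' G n : ℕ} (h1 : Odd g') (h2 : Odd G) (hi : 1 ≤ i) (hs : Squarefree g')
    (hn : g' ∣ n) (ν : ℕ) (hν : Odd ν) (hc : ν.Coprime n) (x y : ℤ) :
    supE (2 ^ (e + 2) * (g' * G)) (2 ^ i * g') (ν * (x ^ 2 + n * y ^ 2)) ↔
      (g' : ℤ) ∣ x ∧ Int.gcd (x ^ 2 + n * y ^ 2) ((2 ^ (e + 2) : ℕ) : ℤ) = 2 ^ i := by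
  rw [supE_iff h1 h2 hi]
  have e1 : (g' : ℤ) ∣ ν * (x ^ 2 + n * y ^ 2) ↔ (g' : ℤ) ∣ x := by
    have hcg : IsCoprime (g' : ℤ) (ν : ℤ) :=
      Nat.isCoprime_iff_coprime.2 (Nat.Coprime.coprime_dvd_right hn hc).symm
    have e3 : (g' : ℤ) ∣ ν * (x ^ 2 + n * y ^ 2) ↔ (g' : ℤ) ∣ x ^ 2 + n * y ^ 2 :=
      ⟨fun h => hcg.dvd_of_dvd_mul_left h, fun h => h.mul_left _⟩
    have e4 : (g' : ℤ) ∣ n * y ^ 2 := Dvd.dvd.mul_right (by exact_mod_cast hn) _
    rw [e3, dvd_add_left e4, Squarefree.dvd_pow_iff_dvd (Int.squarefree_natCast.2 hs) (by norm_num)]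
  have e2 : Int.gcd (ν * (x ^ 2 + n * y ^ 2)) ((2 ^ (e + 2) : ℕ) : ℤ) =
      Int.gcd (x ^ 2 + n * y ^ 2) ((2 ^ (e + 2) : ℕ) : ℤ) := by
    rw [Int.gcd_def, Int.gcd_def, Int.natAbs_mul, Int.natAbs_natCast, Int.natAbs_natCast]
    apply Nat.Coprime.gcd_mul_left_cancel
    exact Nat.Coprime.pow_right _ (Nat.coprime_two_right.2 hν)
  rw [e1, e2]

theorem gcd_four (M : ℤ) : (Int.gcd M 4 = 4 ↔ M % 4 = 0) ∧ (Int.gcd M 4 = 2 ↔ M % 4 = 2) := by
  have h : Int.gcd M 4 = Int.gcd (M % 4) 4 := (Int.gcd_emod M 4).symm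
  rw [h]
  have h1 := Int.emod_nonneg M (show (4 : ℤ) ≠ 0 by norm_num)
  have h2 := Int.emod_lt_of_pos M (show (0 : ℤ) < 4 by norm_num)
  generalize M % 4 = r at *
  interval_cases r <;> decide

theorem gcd_eight (M : ℤ) : (Int.gcd M 8 = 8 ↔ M % 8 = 0) ∧ (Int.gcd M 8 = 4 ↔ M % 8 = 4) ∧
    (Int.gcd M 8 = 2 ↔ M % 4 = 2) := by
  have h : Int.gcd M 8 = Int.gcd (M % 8) 8 := (Int.gcd_emod M 8).symm
  rw [h]
  have h1 := Int.emod_nonneg M (show (8 : ℤ) ≠ 0 by norm_num)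
  have h2 := Int.emod_lt_of_pos M (show (0 : ℤ) < 8 by norm_num)
  have h3 : M % 4 = (M % 8) % 4 := by omega
  rw [h3]
  generalize M % 8 = r at *
  interval_cases r <;> decide

theorem mod_four {n : ℕ} (hn : n % 4 = 1) (x y : ℤ) :
    ((x ^ 2 + n * y ^ 2) % 4 = 0 ↔ Even x ∧ Even y) ∧
      ((x ^ 2 + n * y ^ 2) % 4 = 2 ↔ Odd x ∧ Odd y) := by
  obtain ⟨q, hq⟩ : ∃ q : ℤ, (n : ℤ) = 4 * q + 1 := ⟨(n / 4 : ℕ), by omega⟩
  rw [hq]
  rcases Int.even_or_odd x with hx | hx <;> rcases Int.even_or_odd y with hy | hy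
  · have h1 : ¬ Odd x := Int.not_odd_iff_even.2 hx
    obtain ⟨a, ha⟩ := hx
    obtain ⟨b, hb⟩ := hy
    have : x ^ 2 + (4 * q + 1) * y ^ 2 = 4 * (a ^ 2 + (4 * q + 1) * b ^ 2) := by
      rw [ha, hb]; ring
    rw [this]
    constructor
    · exact ⟨fun _ => ⟨⟨a, ha⟩, ⟨b, hb⟩⟩, fun _ => by omega⟩
    · exact ⟨fun h => by omega, fun h => absurd h.1 h1⟩
  · have h1 : ¬ Odd x := Int.not_odd_iff_even.2 hx
    have h2 : ¬ Even y := Int.not_even_iff_odd.2 hy
    obtain ⟨a, ha⟩ := hx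
    obtain ⟨b, hb⟩ := hy
    have : x ^ 2 + (4 * q + 1) * y ^ 2 =
        4 * (a ^ 2 + (4 * q + 1) * (b ^ 2 + b) + q) + 1 := by
      rw [ha, hb]; ring
    rw [this]
    constructor
    · exact ⟨fun h => by omega, fun h => absurd h.2 h2⟩
    · exact ⟨fun h => by omega, fun h => absurd h.1 h1⟩
  · have h1 : ¬ Even x := Int.not_even_iff_odd.2 hx
    have h2 : ¬ Odd y := Int.not_odd_iff_even.2 hy
    obtain ⟨a, ha⟩ := hx
    obtain ⟨b, hb⟩ := hy
    have : x ^ 2 + (4 * q + 1) * y ^ 2 =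
        4 * (a ^ 2 + a + (4 * q + 1) * b ^ 2) + 1 := by
      rw [ha, hb]; ring
    rw [this]
    constructor
    · exact ⟨fun h => by omega, fun h => absurd h.1 h1⟩
    · exact ⟨fun h => by omega, fun h => absurd h.2 h2⟩
  · have h1 : ¬ Even x := Int.not_even_iff_odd.2 hx
    obtain ⟨a, ha⟩ := hx
    obtain ⟨b, hb⟩ := hy
    have : x ^ 2 + (4 * q + 1) * y ^ 2 =
        4 * (a ^ 2 + a + (4 * q + 1) * (b ^ 2 + b) + q) + 2 := by
      rw [ha, hb]; ring
    rw [this]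
    constructor
    · exact ⟨fun h => by omega, fun h => absurd h.1 h1⟩
    · exact ⟨fun _ => ⟨⟨a, ha⟩, ⟨b, hb⟩⟩, fun _ => by omega⟩

theorem mod_eight {n : ℕ} (hn : n % 4 = 2) (x y : ℤ) :
    ((x ^ 2 + n * y ^ 2) % 8 = 0 ↔ (4 : ℤ) ∣ x ∧ Even y) ∧
      ((x ^ 2 + n * y ^ 2) % 8 = 4 ↔ (Even x ∧ ¬ (4 : ℤ) ∣ x) ∧ Even y) ∧
      ((x ^ 2 + n * y ^ 2) % 4 = 2 ↔ Even x ∧ Odd y) := by
  obtain ⟨q, hq⟩ : ∃ q : ℤ, (n : ℤ) = 4 * q + 2 := ⟨(n / 4 : ℕ), by omega⟩
  rw [hq]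
  rcases Int.even_or_odd x with hx | hx
  · obtain ⟨a, ha⟩ := hx
    rcases Int.even_or_odd y with hy | hy
    · have h2 : ¬ Odd y := Int.not_odd_iff_even.2 hy
      obtain ⟨b, hb⟩ := hy
      rcases Int.even_or_odd a with hc | hc
      · obtain ⟨c, hc⟩ := hc
        have : x ^ 2 + (4 * q + 2) * y ^ 2 = 8 * (2 * c ^ 2 + (2 * q + 1) * b ^ 2) := by
          rw [ha, hb, hc]; ring
        rw [this]
        have h4 : (4 : ℤ) ∣ x := ⟨c, by rw [ha, hc]; ring⟩
        refine ⟨⟨fun _ => ⟨h4, ⟨b, hb⟩⟩, fun _ => by omega⟩,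
          ⟨fun h => by omega, fun h => absurd h4 h.1.2⟩, ⟨fun h => by omega, fun h => absurd h.2 h2⟩⟩
      · obtain ⟨c, hc⟩ := hc
        have : x ^ 2 + (4 * q + 2) * y ^ 2 =
            8 * (2 * (c ^ 2 + c) + (2 * q + 1) * b ^ 2) + 4 := by
          rw [ha, hb, hc]; ring
        rw [this]
        have h4 : ¬ (4 : ℤ) ∣ x := by omega
        refine ⟨⟨fun h => by omega, fun h => absurd h.1 h4⟩,
          ⟨fun _ => ⟨⟨⟨a, ha⟩, h4⟩, ⟨b, hb⟩⟩, fun h => by omega⟩,
          ⟨fun h => by omega, fun h => absurd h.2 h2⟩⟩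
    · have h2 : ¬ Even y := Int.not_even_iff_odd.2 hy
      obtain ⟨b, hb⟩ := hy
      have : x ^ 2 + (4 * q + 2) * y ^ 2 =
          4 * (a ^ 2 + (4 * q + 2) * (b ^ 2 + b) + q) + 2 := by
        rw [ha, hb]; ring
      rw [this]
      refine ⟨⟨fun h => by omega, fun h => absurd h.2 h2⟩,
        ⟨fun h => by omega, fun h => absurd h.2 h2⟩,
        ⟨fun _ => ⟨⟨a, ha⟩, ⟨b, hb⟩⟩, fun h => by omega⟩⟩
  · have h1 : ¬ Even x := Int.not_even_iff_odd.2 hx
    obtain ⟨a, ha⟩ := hx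
    have : x ^ 2 + (4 * q + 2) * y ^ 2 =
        2 * (2 * (a ^ 2 + a) + (2 * q + 1) * y ^ 2) + 1 := by
      rw [ha]; ring
    rw [this]
    refine ⟨⟨fun h => by omega, fun h => by omega⟩,
        ⟨fun h => by omega, fun h => absurd h.1.1 h1⟩,
        ⟨fun h => by omega, fun h => absurd h.1 h1⟩⟩

theorem inv_two {G : ℕ} (hG : Odd G) : ((2 * ((G + 1) / 2 : ℤ) : ℤ) : ZMod G) = 1 := by
  have : (2 * ((G + 1) / 2 : ℤ) : ℤ) = G + 1 := by
    obtain ⟨k, hk⟩ := hG
    subst hk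
    push_cast
    omega
  rw [this]
  push_cast
  rw [ZMod.natCast_self, zero_add]

theorem exists_inv {G g' : ℕ} (h : g'.Coprime G) : ∃ c : ℤ, ((c * g' : ℤ) : ZMod G) = 1 := by
  obtain ⟨a, b, hab⟩ := Nat.isCoprime_iff_coprime.2 h
  refine ⟨a, ?_⟩
  have := congrArg (fun z : ℤ => (z : ZMod G)) hab
  push_cast at this
  rw [ZMod.natCast_self, mul_zero, add_zero] at this
  push_cast
  exact this

theorem ee_eq {G : ℕ} [NeZero G] {a b : ℤ} (h : (a : ZMod G) = b) : ee (a / G) = ee (b / G) := by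
  rw [ee_div, ee_div, h]

theorem case1 {e g' G n : ℕ} [NeZero G] (h1 : Odd g') (h2 : Odd G) (hs1 : Squarefree g')
    (hs2 : Squarefree G) (hc : g'.Coprime G) (hn : n = 2 ^ e * (g' * G))
    (hsup : ∀ x y : ℤ, Int.gcd (x ^ 2 + n * y ^ 2) ((2 ^ (e + 2) : ℕ) : ℤ) = 2 ^ (e + 2) ↔
      (2 ^ (e + 1) : ℤ) ∣ x ∧ Even y) :
    GsP (2 ^ (e + 2) * (g' * G)) (2 ^ (e + 2) * g') := by
  have hG0 : (G : ℂ) ≠ 0 := by exact_mod_cast NeZero.ne G
  have g0 : g' ≠ 0 := by rintro rfl; exact absurd h1 (by decide)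
  have hg0 : (g' : ℂ) ≠ 0 := by exact_mod_cast g0
  have G0 : G ≠ 0 := NeZero.ne G
  have hn0 : n ≠ 0 := by rw [hn]; positivity
  have hDg : 2 ^ (e + 2) * (g' * G) / (2 ^ (e + 2) * g') = G := by
    rw [← mul_assoc, Nat.mul_div_cancel_left]
    positivity
  have hw : wid (2 ^ (e + 2) * (g' * G)) (2 ^ (e + 2) * g') = G := by
    unfold wid
    rw [hDg]
    have : Nat.gcd (2 ^ (e + 2) * g') G = 1 :=
      Nat.Coprime.mul_left (Nat.Coprime.pow_left _ (Nat.coprime_two_left.2 h2)) hc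
    rw [this, mul_one, hDg]
  have hGG : (G : ℂ) / (G : ℂ) = 1 := div_self hG0
  obtain ⟨c, hc1⟩ := exists_inv hc
  set t : ℤ := (G + 1) / 2 with ht
  have ht2 : ((2 * t : ℤ) : ZMod G) = 1 := inv_two h2
  refine build (2 ^ (e + 2) * (g' * G)) (2 ^ (e + 2) * g') n (2 ^ e) g' G (2 ^ (e + 1) * g') G
    (t ^ (2 * e + 4) * c) (fun _ => 1) (by rw [hn]; ring) (by ring) (by rw [hn]; ring) hn0 hn
    (by
      rw [pow_succ, mul_assoc, mul_comm]
      exact (even_two.mul_right _).mul_right _) h2 hs2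
    (by rw [hDg]; simpa using oddp_eq (i := 0) h2) ⟨G, by rw [hn]; ring⟩ (fun _ => rfl) ?_ ?_ ?_ ?_
  · intro N _
    rw [hw, Complex.normSq_one, div_self (by exact_mod_cast G0)]
  · intro N _
    rw [hw, hGG, one_mul]
  · intro ν x y hν hcν h
    rw [supE_nu h1 h2 (by omega) hs1 ⟨2 ^ e * G, by rw [hn]; ring⟩ ν hν hcν, hsup] at h
    push_cast
    refine IsCoprime.mul_dvd ?_ h.2.1 h.1
    exact (Int.isCoprime_iff_gcd_eq_one.2 (by
      have := Nat.coprime_two_left.2 h1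
      exact_mod_cast this)).pow_left
  · intro ν x y hν hcν
    have hsu := supE_nu (G := G) (e := e) (i := e + 2) h1 h2 (by omega) hs1
      ⟨2 ^ e * G, by rw [hn]; ring⟩ ν hν hcν
      (((2 ^ (e + 1) * g' : ℕ) : ℤ) * x) y
    rw [hsup] at hsu
    have hsu2 : supE (2 ^ (e + 2) * (g' * G)) (2 ^ (e + 2) * g')
      (ν * ((((2 ^ (e + 1) * g' : ℕ) : ℤ) * x) ^ 2 + n * y ^ 2)) ↔ Even y := by
      rw [hsu]
      constructor
      · exact fun h => h.2.2
      · intro h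
        refine ⟨⟨2 ^ (e + 1) * x, by push_cast; ring⟩, ⟨g' * x, by push_cast; ring⟩, h⟩
    rw [hsu2]
    have hev : Even (((2 ^ (e + 1) * g' : ℕ) : ℤ) + y) ↔ Even y := by
      have : Even ((2 ^ (e + 1) * g' : ℕ) : ℤ) := by
        push_cast
        rw [pow_succ, mul_assoc]
        exact (even_two.mul_right _).mul_left _
      rw [Int.even_add]
      tauto
    refine ⟨fun hy => ?_, fun hy => ?_⟩
    · rw [if_pos (hev.2 hy), T_odd t ν x ht2]
      have e1 : ee (((-(t ^ (2 * e + 4) * c * (ν * ((((2 ^ (e + 1) * g' : ℕ) : ℤ) * x) ^ 2 +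
          n * y ^ 2))) : ℤ) : ℂ) / (g' * G)) = ee (((-(ν * t ^ 2 * x ^ 2) : ℤ) : ℂ) / G) := by
        have e2 : (((-(t ^ (2 * e + 4) * c * (ν * ((((2 ^ (e + 1) * g' : ℕ) : ℤ) * x) ^ 2 +
          n * y ^ 2))) : ℤ) : ℂ) / (g' * G)) = (((-(t ^ (2 * e + 4) * c * (ν *
            ((2 ^ (e + 1)) ^ 2 * g' * x ^ 2 + 2 ^ e * G * y ^ 2))) : ℤ) : ℂ) / G) := by
          rw [hn]
          push_cast
          field_simp
        rw [e2]
        refine ee_eq ?_
        push_cast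
        rw [ZMod.natCast_self]
        push_cast at hc1 ht2
        have e3 : (t : ZMod G) ^ (2 * e + 4) * (2 ^ (e + 1)) ^ 2 = t ^ 2 := by
          have : (t : ZMod G) ^ (2 * e + 4) * (2 ^ (e + 1)) ^ 2 = (2 * t) ^ (2 * (e + 1)) * t ^ 2 := by
            ring
          rw [this, ht2, one_pow, one_mul]
        linear_combination (-(ν : ZMod G) * x ^ 2 * (c * g')) * e3 -
          (ν : ZMod G) * x ^ 2 * t ^ 2 * hc1
      rw [e1]
      field_simp
      push_cast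
      ring
    · rw [if_neg (fun h => hy (hev.1 h)), zero_mul]

theorem case2 {e g' G n : ℕ} [NeZero G] (h1 : Odd g') (h2 : Odd G) (hs1 : Squarefree g')
    (hs2 : Squarefree G) (hc : g'.Coprime G) (hn : n = 2 ^ e * (g' * G))
    (hsup : ∀ x y : ℤ, Int.gcd (x ^ 2 + n * y ^ 2) ((2 ^ (e + 2) : ℕ) : ℤ) = 2 ^ (e + 1) ↔
      ((2 ^ e : ℤ) ∣ x ∧ ¬ (2 ^ (e + 1) : ℤ) ∣ x) ∧ Even (2 ^ e + y)) :
    GsP (2 ^ (e + 2) * (g' * G)) (2 ^ (e + 1) * g') := by
  have hG0 : (G : ℂ) ≠ 0 := by exact_mod_cast NeZero.ne G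
  have g0 : g' ≠ 0 := by rintro rfl; exact absurd h1 (by decide)
  have hg0 : (g' : ℂ) ≠ 0 := by exact_mod_cast g0
  have G0 : G ≠ 0 := NeZero.ne G
  have hn0 : n ≠ 0 := by rw [hn]; positivity
  have hDg : 2 ^ (e + 2) * (g' * G) / (2 ^ (e + 1) * g') = 2 * G := by
    rw [show 2 ^ (e + 2) * (g' * G) = 2 ^ (e + 1) * g' * (2 * G) by ring, Nat.mul_div_cancel_left]
    positivity
  have hw : wid (2 ^ (e + 2) * (g' * G)) (2 ^ (e + 1) * g') = G := by
    unfold wid
    rw [hDg]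
    have : Nat.gcd (2 ^ (e + 1) * g') (2 * G) = 2 := by
      have h3 : Nat.gcd (2 ^ e * g') G = 1 :=
        Nat.Coprime.mul_left (Nat.Coprime.pow_left _ (Nat.coprime_two_left.2 h2)) hc
      rw [show 2 ^ (e + 1) * g' = 2 * (2 ^ e * g') by ring, Nat.gcd_mul_left, h3, mul_one]
    rw [this, show 2 ^ (e + 2) * (g' * G) = 2 ^ (e + 1) * g' * 2 * G by ring,
      Nat.mul_div_cancel_left]
    positivity
  have hGG : (G : ℂ) / (G : ℂ) = 1 := div_self hG0
  obtain ⟨c, hc1⟩ := exists_inv hc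
  set t : ℤ := (G + 1) / 2 with ht
  have ht2 : ((2 * t : ℤ) : ZMod G) = 1 := inv_two h2
  have htG : IsCoprime t (G : ℤ) := by
    refine ⟨2, -1, ?_⟩
    rw [ht]
    obtain ⟨k, hk⟩ := h2
    subst hk
    push_cast
    omega
  have hJ : (jacobiSym t G : ℂ) * (jacobiSym t G : ℂ) = 1 := by
    have := jacobiSym.sq_one (a := t) (b := G) (Int.isCoprime_iff_gcd_eq_one.1 htG)
    rw [sq] at this
    exact_mod_cast this
  have hu : t ^ (2 * e + 3) * (2 ^ e) ^ 2 = (2 * t) ^ (2 * e) * t ^ 3 := by ring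
  have h2g : (2 ^ e * g') ∣ 2 * n := ⟨2 * G, by rw [hn]; ring⟩
  have hcg : IsCoprime (2 : ℤ) (g' : ℤ) := Int.isCoprime_iff_gcd_eq_one.2 (by
      have := Nat.coprime_two_left.2 h1
      exact_mod_cast this)
  refine build (2 ^ (e + 2) * (g' * G)) (2 ^ (e + 1) * g') n (2 ^ e) g' G (2 ^ e * g') (2 * G)
    (t ^ (2 * e + 3) * c) (fun _ => (jacobiSym t G : ℂ)) (by rw [hn]; ring) (by ring)
    (by rw [hn]; ring) hn0 hn
    (by
      rw [pow_succ, mul_assoc, mul_comm]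
      exact (even_two.mul_right _).mul_right _) h2 hs2
    (by rw [hDg]; simpa using oddp_eq (i := 1) h2) h2g (fun _ => rfl) ?_ ?_ ?_ ?_
  · intro N _
    rw [hw, div_self (by exact_mod_cast G0)]
    have : Complex.normSq (jacobiSym t G : ℂ) = ((jacobiSym t G : ℤ) : ℝ) * (jacobiSym t G : ℤ) := by
      rw [← Complex.ofReal_intCast, Complex.normSq_ofReal]
    rw [this]
    exact_mod_cast hJ
  · intro N _
    rw [hw, hGG, hJ]
  · intro ν x y hν hcν h
    rw [supE_nu h1 h2 (by omega) hs1 ⟨2 ^ e * G, by rw [hn]; ring⟩ ν hν hcν, hsup] at h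
    push_cast
    exact IsCoprime.mul_dvd hcg.pow_left h.2.1.1 h.1
  · intro ν x y hν hcν
    have hsu := supE_nu (G := G) (e := e) (i := e + 1) h1 h2 (by omega) hs1
      ⟨2 ^ e * G, by rw [hn]; ring⟩ ν hν hcν
      (((2 ^ e * g' : ℕ) : ℤ) * x) y
    rw [hsup] at hsu
    have hodd : (2 ^ (e + 1) : ℤ) ∣ ((2 ^ e * g' : ℕ) : ℤ) * x ↔ Even x := by
      push_cast
      rw [pow_succ, mul_assoc, mul_dvd_mul_iff_left (by positivity), even_iff_two_dvd]
      exact ⟨fun h => hcg.dvd_of_dvd_mul_left h, fun h => h.mul_left _⟩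
    have hsu2 : supE (2 ^ (e + 2) * (g' * G)) (2 ^ (e + 1) * g')
      (ν * ((((2 ^ e * g' : ℕ) : ℤ) * x) ^ 2 + n * y ^ 2)) ↔ Odd x ∧ Even (2 ^ e + y) := by
      rw [hsu, hodd, Int.not_even_iff_odd]
      constructor
      · exact fun h => ⟨h.2.1.2, h.2.2⟩
      · intro h
        refine ⟨⟨2 ^ e * x, by push_cast; ring⟩, ⟨⟨g' * x, by push_cast; ring⟩, h.1⟩, h.2⟩
    rw [hsu2]
    have hev : Even (((2 ^ e * g' : ℕ) : ℤ) + y) ↔ Even (2 ^ e + y) := by
      have h3 : Even ((2 ^ e * g' : ℕ) : ℤ) ↔ Even (2 ^ e : ℤ) := by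
        have : ¬ Even (g' : ℤ) := Int.not_even_iff_odd.2 (by exact_mod_cast h1)
        push_cast
        rw [Int.even_mul]
        tauto
      rw [Int.even_add, Int.even_add, h3]
    have hν' : Odd (ν : ℤ) := by exact_mod_cast hν
    have hcG : ν.Coprime G := Nat.Coprime.coprime_dvd_right
      ⟨2 ^ e * g', by rw [hn]; ring⟩ hcν
    refine ⟨fun hy => ?_, fun hy => ?_⟩
    · rw [if_pos (hev.2 hy.2), T_two h2 t ν x hν' ht2, if_pos hy.1]
      have e1 : ee (((-(t ^ (2 * e + 3) * c * (ν * ((((2 ^ e * g' : ℕ) : ℤ) * x) ^ 2 +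
          n * y ^ 2))) : ℤ) : ℂ) / (g' * G)) = ee (((-(ν * t ^ 3 * x ^ 2) : ℤ) : ℂ) / G) := by
        have e2 : (((-(t ^ (2 * e + 3) * c * (ν * ((((2 ^ e * g' : ℕ) : ℤ) * x) ^ 2 +
          n * y ^ 2))) : ℤ) : ℂ) / (g' * G)) = (((-(t ^ (2 * e + 3) * c * (ν *
            ((2 ^ e) ^ 2 * g' * x ^ 2 + 2 ^ e * G * y ^ 2))) : ℤ) : ℂ) / G) := by
          rw [hn]
          push_cast
          field_simp
        rw [e2]
        refine ee_eq ?_
        push_cast
        rw [ZMod.natCast_self]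
        push_cast at hc1 ht2
        have e3 : (t : ZMod G) ^ (2 * e + 3) * (2 ^ e) ^ 2 = t ^ 3 := by
          have : (t : ZMod G) ^ (2 * e + 3) * (2 ^ e) ^ 2 = (2 * t) ^ (2 * e) * t ^ 3 := by
            ring
          rw [this, ht2, one_pow, one_mul]
        linear_combination (-(ν : ZMod G) * x ^ 2 * (c * g')) * e3 -
          (ν : ZMod G) * x ^ 2 * t ^ 3 * hc1
      have e4 : gs G ((ν * t : ℤ) : ZMod G) = (jacobiSym t G : ℂ) * gs G (ν : ZMod G) := by
        have := ThCDX.gs_jacobi G h2 hs2 ν t (Nat.isCoprime_iff_coprime.2 hcG) htG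
        rw [mul_comm t] at this
        simpa using this
      rw [e1, e4]
      field_simp
      push_cast
      ring
    · by_cases h3 : Odd x
      · have h4 : ¬ Even (2 ^ e + y) := fun h => hy ⟨h3, h⟩
        rw [if_neg (fun h => h4 (hev.1 h)), zero_mul]
      · rw [T_two h2 t ν x hν' ht2, if_neg h3, mul_zero]

theorem odd_sq {a : ℤ} (h : Odd a) : ∃ b, a ^ 2 = 8 * b + 1 := by
  obtain ⟨k, rfl⟩ := h
  obtain ⟨c, hc⟩ := Int.even_mul_succ_self k
  exact ⟨c, by linear_combination 4 * hc⟩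

theorem ee_quarter_odd {M : ℤ} (h : Odd M) : ee (M / 4) = Complex.I ∨ ee (M / 4) = -Complex.I := by
  have h1 : ee (1 / 4) = Complex.I := by
    unfold ee
    rw [show 2 * (Real.pi : ℂ) * Complex.I * (1 / 4) = (Real.pi / 2) * Complex.I by ring,
      Complex.exp_mul_I, Complex.cos_pi_div_two, Complex.sin_pi_div_two]
    ring
  obtain ⟨k, rfl⟩ := h
  have h2 : ee (((2 * k + 1 : ℤ) : ℂ) / 4) = ee (k / 2) * ee (1 / 4) := by
    rw [← ee_add]
    congr 1
    push_cast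
    ring
  rw [h2, ee_half, h1]
  split_ifs
  · left; ring
  · right; ring

theorem key_id {g' G : ℕ} [NeZero G] (ν x y : ℤ) (h1 : Odd g') (h2 : Odd G) (hν : Odd ν)
    (hy : Odd y) : ee (((-(ν * x ^ 2 * G) : ℤ) : ℂ) / 4) * (1 + ee (((ν * G : ℤ) : ℂ) / 4)) =
      1 + ee (((g' * (ν * ((g' * (2 * x)) ^ 2 + 2 * (g' * G) * y ^ 2)) : ℤ) : ℂ) / 8) := by
  have h1' : Odd (g' : ℤ) := by exact_mod_cast h1
  have h2' : Odd (G : ℤ) := by exact_mod_cast h2
  obtain ⟨b, hb⟩ := odd_sq (h1'.mul hy)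
  have hb' : ((g' : ℂ) * y) ^ 2 = 8 * b + 1 := by exact_mod_cast hb
  rcases Int.even_or_odd x with hx | hx
  · obtain ⟨a, rfl⟩ := hx
    have e1 : ee (((-(ν * (a + a) ^ 2 * G) : ℤ) : ℂ) / 4) = 1 := by
      rw [← ee_int (-(ν * a ^ 2 * G))]
      congr 1
      push_cast
      ring
    rw [e1, one_mul]
    congr 1
    symm
    refine ee_congr (2 * ν * g' ^ 3 * a ^ 2 + 2 * ν * G * b) ?_
    push_cast
    linear_combination (ν : ℂ) * G / 4 * hb'
  · obtain ⟨a, ha⟩ := odd_sq hx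
    have ha' : (x : ℂ) ^ 2 = 8 * a + 1 := by exact_mod_cast ha
    have h3 : Even (ν * g' ^ 3 + ν * G) := (hν.mul h1'.pow).add_odd (hν.mul h2')
    obtain ⟨c, hc⟩ := h3
    have hc' : (ν : ℂ) * g' ^ 3 + ν * G = c + c := by exact_mod_cast hc
    rw [mul_add, mul_one, ← ee_add, add_comm]
    congr 1
    · rw [← ee_int (-(2 * ν * G * a))]
      congr 1
      push_cast
      linear_combination (-(ν : ℂ) * G / 4) * ha'
    · refine ee_congr (-(2 * ν * a * G + 4 * ν * g' ^ 3 * a + 2 * ν * G * b + c)) ?_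
      push_cast
      linear_combination (-(ν : ℂ) * G / 4 - (ν : ℂ) * g' ^ 3 / 2) * ha' -
        (ν : ℂ) * G / 4 * hb' - 1 / 2 * hc'

theorem case3 {g' G n : ℕ} [NeZero G] (h1 : Odd g') (h2 : Odd G) (hs1 : Squarefree g')
    (hs2 : Squarefree G) (hc : g'.Coprime G) (hn : n = 2 ^ 1 * (g' * G))
    (hsup : ∀ x y : ℤ, Int.gcd (x ^ 2 + n * y ^ 2) ((2 ^ (1 + 2) : ℕ) : ℤ) = 2 ^ 1 ↔
      Even x ∧ Odd y) :
    GsP (2 ^ (1 + 2) * (g' * G)) (2 ^ 1 * g') := by
  have hG0 : (G : ℂ) ≠ 0 := by exact_mod_cast NeZero.ne G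
  have g0 : g' ≠ 0 := by rintro rfl; exact absurd h1 (by decide)
  have hg0 : (g' : ℂ) ≠ 0 := by exact_mod_cast g0
  have G0 : G ≠ 0 := NeZero.ne G
  have hn0 : n ≠ 0 := by rw [hn]; positivity
  have hDg : 2 ^ (1 + 2) * (g' * G) / (2 ^ 1 * g') = 4 * G := by
    rw [show 2 ^ (1 + 2) * (g' * G) = 2 ^ 1 * g' * (4 * G) by ring, Nat.mul_div_cancel_left]
    positivity
  have hw : wid (2 ^ (1 + 2) * (g' * G)) (2 ^ 1 * g') = 2 * G := by
    unfold wid
    rw [hDg]
    have : Nat.gcd (2 ^ 1 * g') (4 * G) = 2 := by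
      have h3 : Nat.gcd g' (2 * G) = 1 :=
        Nat.Coprime.mul_right (Nat.coprime_two_right.2 h1) hc
      rw [pow_one, show 4 * G = 2 * (2 * G) by ring, Nat.gcd_mul_left, h3, mul_one]
    rw [this, show 2 ^ (1 + 2) * (g' * G) = 2 ^ 1 * g' * 2 * (2 * G) by ring,
      Nat.mul_div_cancel_left]
    positivity
  obtain ⟨c, hc1⟩ := exists_inv hc
  set t : ℤ := (G + 1) / 2 with ht
  have ht2 : ((2 * t : ℤ) : ZMod G) = 1 := inv_two h2
  have h2g : g' ∣ 2 * n := ⟨4 * G, by rw [hn]; ring⟩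
  have hcg : IsCoprime (2 : ℤ) (g' : ℤ) := Int.isCoprime_iff_gcd_eq_one.2 (by
      have := Nat.coprime_two_left.2 h1
      exact_mod_cast this)
  have h1' : Odd (g' : ℤ) := by exact_mod_cast h1
  have h2' : Odd (G : ℤ) := by exact_mod_cast h2
  have hval : ∀ N, supE (2 ^ (1 + 2) * (g' * G)) (2 ^ 1 * g') N →
      ∃ M : ℤ, Odd M ∧ (((g' * N : ℤ) : ℂ) / 8) = (M : ℂ) / 4 := by
    intro N hN
    rw [supE_iff h1 h2 le_rfl] at hN
    have h3 := hN.2
    norm_num at h3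
    rw [(gcd_eight N).2.2] at h3
    refine ⟨g' * (N / 2), h1'.mul (Int.odd_iff.2 (by omega)), ?_⟩
    have h4 : N = 2 * (N / 2) := by omega
    have h5 : (N : ℂ) = 2 * ((N / 2 : ℤ) : ℂ) := by exact_mod_cast congrArg (fun z : ℤ => (z : ℂ)) h4
    push_cast at h5 ⊢
    rw [h5]
    ring
  refine build (2 ^ (1 + 2) * (g' * G)) (2 ^ 1 * g') n 2 g' G g' (4 * G)
    (t ^ 4 * c) (fun N => (1 + ee (((g' * N : ℤ) : ℂ) / 8)) / 2) (by rw [hn]; ring) (by ring)
    (by rw [hn]; ring) hn0 (by rw [hn]; ring)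
    (by
      rw [pow_one]
      exact even_two.mul_right _) h2 hs2
    (by rw [hDg]; simpa using oddp_eq (i := 2) h2) h2g ?_ ?_ ?_ ?_ ?_
  · intro N
    congr 2
    refine ee_congr (g' * (g' * G)) ?_
    push_cast
    ring
  · intro N hN
    obtain ⟨M, hM, e1⟩ := hval N hN
    rw [hw, e1]
    have h3 : Complex.normSq ((1 + ee ((M : ℂ) / 4)) / 2) = 1 / 2 := by
      rw [Complex.normSq_div]
      rcases ee_quarter_odd hM with h | h <;> rw [h] <;> simp [Complex.normSq_apply] <;> norm_num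
    rw [h3]
    have : (G : ℝ) ≠ 0 := by exact_mod_cast G0
    push_cast
    field_simp
  · intro N hN
    obtain ⟨M, hM, e1⟩ := hval N hN
    have e2 : (((g' * -N : ℤ) : ℂ) / 8) = -((M : ℂ) / 4) := by
      rw [← e1]
      push_cast
      ring
    rw [hw, e1, e2]
    have e3 : ee ((M : ℂ) / 4) * ee (-((M : ℂ) / 4)) = 1 := by
      rw [← ee_add, add_neg_cancel, ee_zero]
    have e4 : ee ((M : ℂ) / 4) + ee (-((M : ℂ) / 4)) = 0 := by
      rcases ee_quarter_odd hM with h | h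
      · rw [h] at e3 ⊢
        have : ee (-((M : ℂ) / 4)) = -Complex.I := by
          linear_combination (-Complex.I) * e3 + ee (-((M : ℂ) / 4)) * Complex.I_mul_I
        rw [this]
        ring
      · rw [h] at e3 ⊢
        have : ee (-((M : ℂ) / 4)) = Complex.I := by
          linear_combination Complex.I * e3 + ee (-((M : ℂ) / 4)) * Complex.I_mul_I
        rw [this]
        ring
    have e5 : (1 + ee ((M : ℂ) / 4)) / 2 * ((1 + ee (-((M : ℂ) / 4))) / 2) = 1 / 2 := by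
      linear_combination 1 / 4 * e3 + 1 / 4 * e4
    rw [e5]
    push_cast
    field_simp
  · intro ν x y hν hcν h
    rw [supE_nu h1 h2 (by omega) hs1 ⟨2 ^ 1 * G, by rw [hn]; ring⟩ ν hν hcν] at h
    exact h.1
  · intro ν x y hν hcν
    have hsu := supE_nu (G := G) (e := 1) (i := 1) h1 h2 (by omega) hs1
      ⟨2 ^ 1 * G, by rw [hn]; ring⟩ ν hν hcν
      ((g' : ℤ) * x) y
    rw [hsup] at hsu
    have hsu2 : supE (2 ^ (1 + 2) * (g' * G)) (2 ^ 1 * g')
      (ν * (((g' : ℤ) * x) ^ 2 + n * y ^ 2)) ↔ Even x ∧ Odd y := by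
      rw [hsu]
      constructor
      · intro h
        refine ⟨?_, h.2.2⟩
        have := h.2.1
        rw [Int.even_mul] at this
        exact this.resolve_left (Int.not_even_iff_odd.2 h1')
      · intro h
        exact ⟨⟨x, rfl⟩, h.1.mul_left _, h.2⟩
    rw [hsu2]
    have hev : Even ((g' : ℤ) + y) ↔ Odd y := by
      have : ¬ Even (g' : ℤ) := Int.not_even_iff_odd.2 h1'
      rw [Int.even_add, ← Int.not_even_iff_odd]
      tauto
    have hν' : Odd (ν : ℤ) := by exact_mod_cast hν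
    refine ⟨fun hy => ?_, fun hy => ?_⟩
    · obtain ⟨hx, hy⟩ := hy
      obtain ⟨x, rfl⟩ := hx
      rw [if_pos (hev.2 hy), show x + x = 2 * x by ring, T_four h2 t ν x hν' ht2]
      obtain ⟨β, hβ⟩ : ∃ β : ℤ, 4 * β = 1 - (G : ℤ) ^ 2 := by
        obtain ⟨b, hb⟩ := odd_sq h2'
        exact ⟨-2 * b, by rw [hb]; ring⟩
      have hβ' : 4 * (β : ℂ) = 1 - (G : ℂ) ^ 2 := by exact_mod_cast hβ
      have hβz : 4 * (β : ZMod G) = 1 := by
        have := congrArg (fun z : ℤ => (z : ZMod G)) hβ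
        push_cast at this
        rw [ZMod.natCast_self] at this
        rw [this]
        ring
      have e1 : ee (((-(t ^ 4 * c * (ν * (((g' : ℤ) * (2 * x)) ^ 2 +
          n * y ^ 2))) : ℤ) : ℂ) / (g' * G)) = ee (((-(ν * x ^ 2 * β) : ℤ) : ℂ) / G) := by
        have e2 : (((-(t ^ 4 * c * (ν * (((g' : ℤ) * (2 * x)) ^ 2 +
          n * y ^ 2))) : ℤ) : ℂ) / (g' * G)) = (((-(t ^ 4 * c * (ν *
            (4 * g' * x ^ 2 + 2 * G * y ^ 2))) : ℤ) : ℂ) / G) := by
          rw [hn]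
          push_cast
          field_simp
          ring
        rw [e2]
        refine ee_eq ?_
        push_cast
        rw [ZMod.natCast_self]
        push_cast at hc1 ht2
        have e3 : 4 * (t : ZMod G) ^ 4 = β := by
          have e4 : (2 * (t : ZMod G)) ^ 4 = 1 := by rw [ht2, one_pow]
          linear_combination (-(4 : ZMod G) * t ^ 4) * hβz + (β : ZMod G) * e4
        linear_combination (-(ν : ZMod G) * x ^ 2 * (c * g')) * e3 -
          (ν : ZMod G) * x ^ 2 * β * hc1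
      have e5 : ee (((-(ν * x ^ 2) : ℤ) : ℂ) / (4 * G)) =
          ee (((-(ν * x ^ 2 * G) : ℤ) : ℂ) / 4) * ee (((-(ν * x ^ 2 * β) : ℤ) : ℂ) / G) := by
        rw [← ee_add]
        congr 1
        push_cast
        field_simp
        linear_combination ((ν : ℂ) * x ^ 2) * hβ'
      have e6 := key_id (G := G) (g' := g') ν x y h1 h2 hν' hy
      have e7 : ((g' : ℤ) * (ν * (((g' : ℤ) * (2 * x)) ^ 2 + n * y ^ 2))) =
          (g' * (ν * ((g' * (2 * x)) ^ 2 + 2 * (g' * G) * y ^ 2)) : ℤ) := by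
        rw [hn]
        push_cast
        ring
      rw [e1, e5, e7, ← e6]
      push_cast
      field_simp
      ring
    · by_cases h3 : Odd y
      · have h4 : Odd x := by
          rw [← Int.not_even_iff_odd]
          exact fun h => hy ⟨h, h3⟩
        rw [T_four_odd ν x hν' h4, mul_zero]
      · rw [if_neg (fun h => h3 (hev.1 h)), zero_mul]

end Gs2X

open Gs2X in
theorem stGs2 : StGs2 := by
  intro D g ⟨hD4, n, hD, hs, hn4⟩ hgD hge
  subst hD
  -- the odd parts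
  obtain ⟨e, m, he, hm, hnm, he1, he2⟩ : ∃ e m : ℕ, e ≤ 1 ∧ Odd m ∧ n = 2 ^ e * m ∧
      (e = 0 → n % 4 = 1) ∧ (e = 1 → n % 4 = 2) := by
    rcases hn4 with h | h
    · exact ⟨0, n, by omega, Nat.odd_iff.2 (by omega), by ring, fun _ => h, by omega⟩
    · exact ⟨1, n / 2, le_rfl, Nat.odd_iff.2 (by omega), by omega, by omega, fun _ => h⟩
  have hD' : 4 * n = 2 ^ (e + 2) * m := by rw [hnm]; ring
  have hm0 : m ≠ 0 := by rintro rfl; exact absurd hm (by decide)
  have hg0 : g ≠ 0 := by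
    rintro rfl
    rw [zero_dvd_iff] at hgD
    omega
  obtain ⟨i, g', hg'⟩ : ∃ i g' : ℕ, Odd g' ∧ g = 2 ^ i * g' := by
    obtain ⟨i, g', h1, h2⟩ := Nat.exists_eq_two_pow_mul_odd hg0
    exact ⟨i, g', h1, h2⟩
  obtain ⟨hg1, rfl⟩ := hg'
  have hi : 1 ≤ i := by
    by_contra h
    have : i = 0 := by omega
    subst this
    rw [pow_zero, one_mul] at hge
    exact absurd hge (Nat.not_even_iff_odd.2 hg1)
  rw [hD'] at hgD
  have hgm : g' ∣ m := by
    have h1 : g' ∣ 2 ^ (e + 2) * m := (Dvd.intro_left _ rfl).trans hgD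
    exact (Nat.Coprime.pow_right _ (Nat.coprime_two_right.2 hg1)).dvd_of_dvd_mul_left h1
  have hie : i ≤ e + 2 := by
    have h1 : 2 ^ i ∣ 2 ^ (e + 2) * m := (Dvd.intro _ rfl).trans hgD
    have h2 : 2 ^ i ∣ 2 ^ (e + 2) :=
      (Nat.Coprime.pow_left _ (Nat.coprime_two_left.2 hm)).dvd_of_dvd_mul_right h1
    exact (Nat.pow_dvd_pow_iff_le_right (by norm_num)).1 h2
  obtain ⟨G, rfl⟩ := hgm
  have hG1 : Odd G := (Nat.odd_mul.1 hm).2
  have : NeZero G := ⟨by rintro rfl; exact absurd hG1 (by decide)⟩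
  have hsm : Squarefree (g' * G) := hs.squarefree_of_dvd ⟨2 ^ e, by rw [hnm]; ring⟩
  have hs1 : Squarefree g' := hsm.squarefree_of_dvd ⟨G, rfl⟩
  have hs2 : Squarefree G := hsm.squarefree_of_dvd ⟨g', by ring⟩
  have hc : g'.Coprime G := Nat.coprime_of_squarefree_mul hsm
  rw [hD']
  by_cases h1 : i = e + 2
  · subst h1
    refine case1 hg1 hG1 hs1 hs2 hc hnm ?_
    intro x y
    interval_cases e
    · have h3 := (gcd_four (x ^ 2 + n * y ^ 2)).1
      have h4 := (mod_four (he1 rfl) x y).1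
      norm_num
      rw [h3, h4, even_iff_two_dvd]
    · have h3 := (gcd_eight (x ^ 2 + n * y ^ 2)).1
      have h4 := (mod_eight (he2 rfl) x y).1
      norm_num
      rw [h3, h4]
  · by_cases h2 : i = e + 1
    · subst h2
      refine case2 hg1 hG1 hs1 hs2 hc hnm ?_
      intro x y
      interval_cases e
      · have h3 := (gcd_four (x ^ 2 + n * y ^ 2)).2
        have h4 := (mod_four (he1 rfl) x y).2
        norm_num
        rw [h3, h4, Int.odd_iff, Int.odd_iff, Int.even_iff]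
        omega
      · have h3 := (gcd_eight (x ^ 2 + n * y ^ 2)).2.1
        have h4 := (mod_eight (he2 rfl) x y).2.1
        norm_num
        rw [h3, h4, Int.even_iff, Int.even_iff, Int.even_iff]
        omega
    · have h3 : e = 1 := by omega
      have h4 : i = 1 := by omega
      subst h3 h4
      refine case3 hg1 hG1 hs1 hs2 hc hnm ?_
      intro x y
      have h3 := (gcd_eight (x ^ 2 + n * y ^ 2)).2.2
      have h4 := (mod_eight (he2 rfl) x y).2.2
      norm_num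
      rw [h3, h4]


end RZ

end Pool.Agent.Lib.MP_7c08ba_nt
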