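import Pool.Agent.Lib.MP_7c08ba_nt.RZ.StH
import Pool.Agent.Lib.MP_7c08ba_nt.RZ.HHD

set_option autoImplicit false

/-! (H21) continuity, transformation, holomorphy and size of the integrand of the Rankin–Selberg
integral, for every even fundamental discriminant. -/

namespace Pool.Agent.Lib.MP_7c08ba_nt

namespace RZ

open NumberField MeasureTheory UpperHalfPlane Set
open scoped MatrixGroups ComplexConjugate nonZeroDivisors

namespace HHEm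

open HHDm

theorem wid_le (D g : ℕ) : wid D g ≤ D := Nat.div_le_self _ _

theorem phi_le {D g : ℕ} {Φ : ℤ → ℂ} (h : CuspF D g Φ) (n : ℤ) : ‖Φ n‖ ≤ 1 := by
  by_cases hn : supE D g n
  · have h1 := h.nrm n hn
    rw [Complex.normSq_eq_norm_sq] at h1
    have h2 : ‖Φ n‖ ^ 2 ≤ 1 := by
      rw [h1]
      exact Nat.cast_inv_le_one _
    exact (sq_le_one_iff₀ (norm_nonneg _)).1 h2
  · rw [h.zero n hn, norm_zero]
    exact zero_le_one

theorem eps_le (D g c : ℕ) : ‖((epsE D g c : ℤ) : ℂ)‖ ≤ 1 := by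
  unfold epsE
  split_ifs
  · exact jac_le _ _
  · exact jac_le _ _

theorem chi_sq' {D : ℕ} {χ : DirichletCharacter ℂ D} (hχ : QC D χ) (g : SL(2, ℤ))
    (hc : (D : ℤ) ∣ g 1 0) : χ (g 1 1 : ℤ) * χ (g 1 1 : ℤ) = 1 := by
  obtain ⟨k, hk⟩ := hc
  have hd := EisLaw.det_eq g
  have hu : IsUnit (((g 1 1 : ℤ) : ZMod D)) := by
    refine IsUnit.of_mul_eq_one ((g 0 0 : ℤ) : ZMod D) ?_
    have h1 := congrArg (fun n : ℤ => (n : ZMod D)) hd
    rw [hk] at h1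
    push_cast at h1
    rw [ZMod.natCast_self] at h1
    linear_combination h1
  have h0 : χ ((g 1 1 : ℤ) : ZMod D) ≠ 0 := (hu.map χ).ne_zero
  rcases hχ.real ((g 1 1 : ℤ) : ZMod D) with h | h | h
  · exact absurd h h0
  · rw [h]; norm_num
  · rw [h]; norm_num

section

variable {D : ℕ} [NeZero D] {F : Type} [Field F] [NumberField F] {s : 𝓞 F} {σ : F →+* ℂ}
  {χ : DirichletCharacter ℂ D} {cj : 𝓞 F ≃+* 𝓞 F} {ψ : Ideal (𝓞 F) →*₀ ℂ} {c : Reps σ}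

theorem thψ_cont (h1 : StThBE) (hd : DatE D s σ χ cj) (k : ℕ) :
    ContinuousOn (thψ k ψ c) {u | 0 < u.im} := by
  unfold thψ
  refine continuousOn_const.mul (continuousOn_finsetSum _ fun A _ => continuousOn_const.mul ?_)
  exact (h1 D F _ _ s σ χ cj _ k 0 (fun _ => 0) hd (bot_ne _) (fun _ => by simp)).2.2.1

theorem HH_cont (h1 : StThBE) (h4 : StEisAQ) (hd : DatE D s σ χ cj) (w r : ℕ) {t : ℂ}
    (ht : -(r : ℝ) - 1 / 2 < t.re) :
    ContinuousOn (HH D χ w r ψ c t) {u | 0 < u.im} := by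
  unfold HH
  have hE := (h4 D inferInstance χ r hd.qc).2.2.1 (conj t) (by simpa using ht)
  refine ((thψ_cont h1 hd _).mul (Complex.continuous_conj.comp_continuousOn hE)).mul ?_
  exact ((Complex.continuous_ofReal.comp Complex.continuous_im).pow _).continuousOn

theorem tr_cont (h1 : StThBE) (h4 : StEisAQ) (hd : DatE D s σ χ cj) (w r : ℕ) {t : ℂ}
    (ht : -(r : ℝ) - 1 / 2 < t.re) :
    ContinuousOn (trE D w (HH D χ w r ψ c t)) {u | 0 < u.im} := by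
  unfold trE
  have hH := HH_cont (ψ := ψ) (c := c) h1 h4 hd w r ht
  refine continuousOn_finsetSum _ fun g hg => continuousOn_finsetSum _ fun j _ => ?_
  have hg1 : 1 ≤ g := Nat.pos_of_mem_divisors hg
  have him : ∀ u ∈ {u : ℂ | 0 < u.im}, 0 < (u + (j : ℂ)).im := by
    intro u hu
    simpa using hu
  have hne : ∀ u ∈ {u : ℂ | 0 < u.im}, (1 : ℂ) - g * (u + (j : ℂ)) ≠ 0 := fun u hu =>
    den_cusp hg1 (him u hu)
  refine ContinuousOn.mul (ContinuousOn.inv₀ (by fun_prop) fun u hu => pow_ne_zero _ (hne u hu)) ?_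
  refine hH.comp (ContinuousOn.div (by fun_prop) (by fun_prop) hne) ?_
  intro u hu
  exact cusp_pos hg1 (him u hu)

theorem thψ_law (h3 : StThGE) (hd : DatE D s σ χ cj) {k : ℕ} (hk : Even k) (g : SL(2, ℤ)) {z : ℂ}
    (hz : 0 < z.im) (hc : (D : ℤ) ∣ g 1 0) :
    thψ k ψ c (((g 0 0 : ℂ) * z + g 0 1) / ((g 1 0 : ℂ) * z + g 1 1)) =
      χ (g 1 1 : ℤ) * ((g 1 0 : ℂ) * z + g 1 1) ^ (k + 1) * thψ k ψ c z := by
  unfold thψ
  simp only [Finset.mul_sum]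
  refine Finset.sum_congr rfl fun A _ => ?_
  rw [h3 D F _ _ s σ χ cj _ k hd (bot_ne _) hk g z hz hc]
  ring

theorem chi_conj (hd : DatE D s σ χ cj) (n : ℤ) : conj (χ n) = χ n := by
  rcases hd.qc.real (n : ZMod D) with h | h | h <;> rw [h] <;> simp

theorem HH_law (h3 : StThGE) (h5 : StEisLawQ) (hd : DatE D s σ χ cj) {w r : ℕ}
    (hw : Even w) {t : ℂ} (ht : -(r : ℝ) - 1 / 2 < t.re) (g : SL(2, ℤ)) {z : ℂ}
    (hz : 0 < z.im) (hc : (D : ℤ) ∣ g 1 0) :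
    HH D χ w r ψ c t (((g 0 0 : ℂ) * z + g 0 1) / ((g 1 0 : ℂ) * z + g 1 1)) =
      ((g 1 0 : ℂ) * z + g 1 1) ^ w * HH D χ w r ψ c t z := by
  have hE := h5 D inferInstance χ r hd.qc (conj t) (by simpa using ht) g z hz hc
  have hT := thψ_law (ψ := ψ) (c := c) h3 hd (k := w + 2 * r)
    (hw.add (even_two_mul r)) g hz hc
  have him := EisLaw.im_gz g hz
  have hchi := chi_sq' hd.qc g hc
  set E : ℂ := (g 1 0 : ℂ) * z + g 1 1 with hED
  set v : ℂ := ((g 0 0 : ℂ) * z + g 0 1) / E with hv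
  have hn : (z.im : ℂ) = (v.im : ℂ) * (E * conj E) := by
    rw [Complex.mul_conj, ← him]
    push_cast
    rfl
  unfold HH
  rw [hT, hE, map_mul, map_mul, chi_conj hd, map_pow, hn]
  have hp : E ^ (w + 2 * r + 1) = E ^ w * E ^ (2 * r + 1) := by ring
  rw [hp, mul_pow, mul_pow]
  linear_combination (E ^ w * E ^ (2 * r + 1) * thψ (w + 2 * r) ψ c z * conj E ^ (2 * r + 1) *
    conj (eis D χ r (conj t) z) * (v.im : ℂ) ^ (2 * r + 1)) * hchi

theorem HH_diff (h4 : StEisAQ) (hd : DatE D s σ χ cj) (w r : ℕ) {z : ℂ} (hz : 0 < z.im) :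
    DifferentiableOn ℂ (fun t => HH D χ w r ψ c t z) {t | -(r : ℝ) - 1 / 2 < t.re} := by
  have hopen : IsOpen {t : ℂ | -(r : ℝ) - 1 / 2 < t.re} :=
    isOpen_lt continuous_const Complex.continuous_re
  have hE := (h4 D inferInstance χ r hd.qc).1 z hz
  intro t ht
  refine DifferentiableAt.differentiableWithinAt ?_
  unfold HH
  refine (DifferentiableAt.const_mul ?_ _).mul_const _
  have h0 : conj t ∈ {t : ℂ | -(r : ℝ) - 1 / 2 < t.re} := by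
    simpa using ht
  have h1 : DifferentiableAt ℂ (fun s => eis D χ r s z) (conj t) :=
    hE.differentiableAt (hopen.mem_nhds h0)
  have h2 := h1.conj_conj
  rw [Complex.conj_conj] at h2
  exact h2

theorem tr_diff (h4 : StEisAQ) (hd : DatE D s σ χ cj) (w r : ℕ) {z : ℂ} (hz : 0 < z.im) :
    DifferentiableOn ℂ (fun t => trE D w (HH D χ w r ψ c t) z)
      {t | -(r : ℝ) - 1 / 2 < t.re} := by
  unfold trE
  refine DifferentiableOn.fun_sum fun g hg => DifferentiableOn.fun_sum fun j _ =>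
    (HH_diff h4 hd w r ?_).const_mul _
  exact cusp_pos (Nat.pos_of_mem_divisors hg) (by simpa using hz)

/-- the sum over the classes at the cusp `1 / g` -/
noncomputable def SG (D : ℕ) (ψ : Ideal (𝓞 F) →*₀ ℂ) (c : Reps σ) (Φ : ℤ → ℂ) (g k : ℕ)
    (u : ℂ) : ℂ :=
  (1 / 2 : ℂ) * ∑ A : ClassGroup (𝓞 F), (ψ (c.R A : Ideal (𝓞 F)))⁻¹ *
    ((epsE D g (Ideal.absNorm (c.R A : Ideal (𝓞 F))) : ℂ) *
      thP D σ (c.R A : Ideal (𝓞 F)) Φ k u)

/-- size of the theta series at the cusps -/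
theorem SG_size (h1 : StThBE) (hd : DatE D s σ χ cj) {k g : ℕ} {Φ : ℤ → ℂ} (hk : 1 ≤ k)
    (hΦ : ∀ n, ‖Φ n‖ ≤ 1) :
    ∃ C δ : ℝ, 0 < δ ∧ ∀ u : ℂ, 1 / 2 ≤ u.im →
      ‖SG D ψ c Φ g k u‖ ≤ C * Real.exp (-(δ * u.im)) := by
  have H : ∀ A ∈ (Finset.univ : Finset (ClassGroup (𝓞 F))), ∃ C δ : ℝ, 0 < δ ∧
      ∀ u : ℂ, 1 / 2 ≤ u.im → ‖(ψ (c.R A : Ideal (𝓞 F)))⁻¹ *
        ((epsE D g (Ideal.absNorm (c.R A : Ideal (𝓞 F))) : ℂ) *
          thP D σ (c.R A : Ideal (𝓞 F)) Φ k u)‖ ≤ C * Real.exp (-(δ * u.im)) := by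
    intro A _
    obtain ⟨C, δ, hδ, hb⟩ := (h1 D F _ _ s σ χ cj (c.R A : Ideal (𝓞 F)) k 0 Φ hd (bot_ne _)
      hΦ).2.2.2.2.2.2.2.2.1 hk
    refine ⟨‖(ψ (c.R A : Ideal (𝓞 F)))⁻¹‖ * C, δ, hδ, fun u hu => ?_⟩
    rw [norm_mul, norm_mul, mul_assoc]
    refine mul_le_mul_of_nonneg_left ?_ (norm_nonneg _)
    refine le_trans ?_ (hb u hu).2
    exact mul_le_of_le_one_left (norm_nonneg _) (eps_le _ _ _)
  obtain ⟨C, δ, hδ, hb⟩ := sum_decay Finset.univ (fun A (u : ℂ) => (ψ (c.R A : Ideal (𝓞 F)))⁻¹ *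
        ((epsE D g (Ideal.absNorm (c.R A : Ideal (𝓞 F))) : ℂ) *
          thP D σ (c.R A : Ideal (𝓞 F)) Φ k u)) (fun u => u.im) (fun u => 1 / 2 ≤ u.im)
    (fun u hu => by linarith) H
  refine ⟨‖(1 / 2 : ℂ)‖ * C, δ, hδ, fun u hu => ?_⟩
  rw [SG, norm_mul, mul_assoc]
  gcongr
  exact hb u hu

end

end HHEm

open HHEm HHDm in
theorem stHHE (h1 : StThBE) (h3 : StThlE) (h4 : StEisAQ) (h5 : StEisLawQ)
    (_h6 : StBasE) (h7 : StThGE) : StHHE := by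
  intro D _ F _ _ s σ χ cj w r ψ c hd hw1 hw hcop
  refine ⟨fun t ht => ⟨HHEm.HH_cont h1 h4 hd w r ht, HHEm.tr_cont h1 h4 hd w r ht,
    fun g z hz hc => HHEm.HH_law h7 h5 hd hw ht g hz hc⟩, fun z hz => HHEm.tr_diff h4 hd w r hz, ?_⟩
  intro σ₀ R hσ
  have hk : Even (w + 2 * r) := hw.add (even_two_mul r)
  obtain ⟨C₂, A, hA, hE⟩ := (h4 D inferInstance χ r hd.qc).2.2.2 σ₀ R hσ
  obtain ⟨n, hn⟩ := exists_nat_ge A
  have key : ∀ g ∈ D.divisors, ∀ j ∈ Finset.range (wid D g), ∃ C δ : ℝ, 0 < δ ∧ ∀ x : ℂ × ℂ,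
      (σ₀ ≤ x.1.re ∧ ‖x.1‖ ≤ R ∧ 1 / 2 ≤ x.2.im ∧ |x.2.re| ≤ 1 / 2) →
        ‖((1 - g * (x.2 + j)) ^ w)⁻¹ *
          HH D χ w r ψ c x.1 ((x.2 + j) / (1 - g * (x.2 + j)))‖ ≤
            C * Real.exp (-(δ * x.2.im)) := by
    intro g hg j hj
    have hgD : g ∣ D := Nat.dvd_of_mem_divisors hg
    have hg1 : 1 ≤ g := Nat.pos_of_mem_divisors hg
    have hgle : (g : ℝ) ≤ D := by exact_mod_cast Nat.divisor_le hg
    have hjle : (j : ℝ) ≤ D := by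
      have h := (Finset.mem_range.1 hj).le.trans (wid_le D g)
      exact_mod_cast h
    have hD1 : (1 : ℝ) ≤ D := by
      have : 1 ≤ D := NeZero.one_le
      exact_mod_cast this
    obtain ⟨Φ, hCF, hth, -⟩ := (h3 D F _ _ s σ χ cj hd).2 g hgD
    have hκ1 : ‖(1 : ℂ)‖ ≤ 1 := by simp
    obtain ⟨C₁, δ, hδ, hS⟩ := HHEm.SG_size (ψ := ψ) (c := c) h1 hd (k := w + 2 * r) (g := g)
      (Φ := Φ) (by omega) (phi_le hCF)
    obtain ⟨K, hK, hpe⟩ := poly_exp δ (D + 1) (2 * n) hδ (by positivity)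
    refine ⟨|C₁| * (|C₂| * (4 * (D + 1) ^ 2) ^ n) * K, δ / 2, by positivity, ?_⟩
    rintro ⟨t, z⟩ ⟨ht, hR, hz, hx⟩
    dsimp only at ht hR hz hx ⊢
    have hz0 : 0 < z.im := by linarith
    set y := z.im with hy
    set v : ℂ := z + j with hv
    have hvim : v.im = y := by simp [hv, hy]
    have hv0 : 0 < v.im := by rw [hvim]; exact hz0
    have hnz : ‖z‖ ≤ y + 1 := by
      have h3 := Complex.norm_le_abs_re_add_abs_im z
      rw [abs_of_pos hz0] at h3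
      linarith
    have hnv : ‖v‖ ≤ y + (D + 1) := by
      refine (norm_add_le _ _).trans ?_
      rw [Complex.norm_natCast]
      linarith
    have hnd : ‖(1 : ℂ) - g * v‖ ≤ (D + 1) * (y + (D + 1)) := by
      refine (norm_sub_le _ _).trans ?_
      rw [norm_one, norm_mul, Complex.norm_natCast]
      have h1 : (g : ℝ) * ‖v‖ ≤ D * (y + (D + 1)) := by gcongr
      linarith
    have hd0 : (1 : ℂ) - g * v ≠ 0 := den_cusp hg1 hv0
    have hdn : 0 < ‖(1 : ℂ) - g * v‖ := norm_pos_iff.2 hd0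
    have hvc : 0 < (v / (1 - g * v)).im := cusp_pos hg1 hv0
    -- the Eisenstein series
    have hEis : ‖eis D χ r (conj t) (v / (1 - g * v))‖ ≤
        |C₂| * ((4 * (D + 1) ^ 2) ^ n * (y + (D + 1)) ^ (2 * n)) := by
      have h3 := hE (conj t) (v / (1 - g * v)) (by simpa using ht) (by simpa using hR) hvc
      refine h3.trans ?_
      have e1 : (1 + ‖v / (1 - g * v)‖ ^ 2) / (v / (1 - g * v)).im =
          (‖(1 : ℂ) - g * v‖ ^ 2 + ‖v‖ ^ 2) / y := by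
        rw [im_cusp, norm_div, Complex.normSq_eq_norm_sq, hvim]
        field_simp
      have hle : (1 + ‖v / (1 - g * v)‖ ^ 2) / (v / (1 - g * v)).im ≤
          4 * (D + 1) ^ 2 * (y + (D + 1)) ^ 2 := by
        rw [e1, div_le_iff₀ hz0]
        have h4 : ‖(1 : ℂ) - g * v‖ ^ 2 ≤ (D + 1) ^ 2 * (y + (D + 1)) ^ 2 := by
          rw [← mul_pow]
          gcongr
        have h5 : ‖v‖ ^ 2 ≤ (D + 1) ^ 2 * (y + (D + 1)) ^ 2 := by
          have h6 : ‖v‖ ^ 2 ≤ (y + (D + 1)) ^ 2 := by gcongr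
          have h7 : (1 : ℝ) ≤ ((D : ℝ) + 1) ^ 2 := one_le_pow₀ (by linarith)
          exact h6.trans (le_mul_of_one_le_left (sq_nonneg _) h7)
        have h9 : 0 ≤ ((D : ℝ) + 1) ^ 2 * (y + (D + 1)) ^ 2 := by positivity
        have h10 := mul_nonneg h9 (show (0 : ℝ) ≤ y - 1 / 2 by linarith)
        rw [mul_assoc 4]
        generalize ((D : ℝ) + 1) ^ 2 * (y + (D + 1)) ^ 2 = P at h4 h5 h9 h10 ⊢
        linarith
      have h1B : (1 : ℝ) ≤ 4 * (D + 1) ^ 2 * (y + (D + 1)) ^ 2 := by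
        have h4 : (1 : ℝ) ≤ y + (D + 1) := by linarith
        have h5 : (1 : ℝ) ≤ (y + (D + 1)) ^ 2 := one_le_pow₀ h4
        have h7 : (1 : ℝ) ≤ ((D : ℝ) + 1) ^ 2 := one_le_pow₀ (by linarith)
        have h6 : (1 : ℝ) ≤ 4 * (D + 1) ^ 2 := by linarith
        exact one_le_mul_of_one_le_of_one_le h6 h5
      have h0 : 0 ≤ (1 + ‖v / (1 - g * v)‖ ^ 2) / (v / (1 - g * v)).im := by positivity
      calc C₂ * ((1 + ‖v / (1 - g * v)‖ ^ 2) / (v / (1 - g * v)).im) ^ A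
          ≤ |C₂| * (4 * (D + 1) ^ 2 * (y + (D + 1)) ^ 2) ^ n := by
            gcongr ?_ * ?_
            · exact le_abs_self _
            · calc _ ≤ (4 * (D + 1) ^ 2 * (y + (D + 1)) ^ 2) ^ A :=
                  Real.rpow_le_rpow h0 hle hA
                _ ≤ (4 * (D + 1) ^ 2 * (y + (D + 1)) ^ 2) ^ (n : ℝ) :=
                  Real.rpow_le_rpow_of_exponent_le h1B hn
                _ = _ := Real.rpow_natCast _ _
        _ = _ := by rw [mul_pow (4 * ((D : ℝ) + 1) ^ 2), ← pow_mul]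
    -- the theta series
    have hSb : ‖HHEm.SG D ψ c Φ g (w + 2 * r) v‖ ≤ |C₁| * Real.exp (-(δ * y)) := by
      have h3 := hS v (by rw [hvim]; exact hz)
      rw [hvim] at h3
      refine h3.trans ?_
      gcongr
      exact le_abs_self _
    have hthv : thψ (w + 2 * r) ψ c (v / (1 - g * v)) =
        1 * (1 - g * v) ^ (w + 2 * r + 1) * HHEm.SG D ψ c Φ g (w + 2 * r) v := by
      unfold thψ HHEm.SG
      simp only [Finset.mul_sum]
      refine Finset.sum_congr rfl fun B _ => ?_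
      have h3 := hth (c.R B : Ideal (𝓞 F)) (w + 2 * r) v (bot_ne _) (hcop B) hk hv0
      rw [h3]
      ring
    have h3 := term_size (χ := χ) (w := w) (r := r) (t := t) (ψ := ψ) (c := c) hg1
      (T := |C₁| * Real.exp (-(δ * y)))
      (E := |C₂| * ((4 * (D + 1) ^ 2) ^ n * (y + (D + 1)) ^ (2 * n))) hv0 (by positivity)
      (by positivity) hκ1 hSb hthv hEis
    refine h3.trans ?_
    have h4 := hpe y hz0.le
    calc |C₁| * Real.exp (-(δ * y)) *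
          (|C₂| * ((4 * (D + 1) ^ 2) ^ n * (y + (D + 1)) ^ (2 * n)))
        = |C₁| * (|C₂| * (4 * (D + 1) ^ 2) ^ n) * ((y + (D + 1)) ^ (2 * n) *
          Real.exp (-(δ * y))) := by ring
      _ ≤ |C₁| * (|C₂| * (4 * (D + 1) ^ 2) ^ n) * (K * Real.exp (-(δ / 2 * y))) := by gcongr
      _ = _ := by ring
  have key2 : ∀ g ∈ D.divisors, ∃ C δ : ℝ, 0 < δ ∧ ∀ x : ℂ × ℂ,
      (σ₀ ≤ x.1.re ∧ ‖x.1‖ ≤ R ∧ 1 / 2 ≤ x.2.im ∧ |x.2.re| ≤ 1 / 2) →
        ‖∑ j ∈ Finset.range (wid D g), ((1 - g * (x.2 + j)) ^ w)⁻¹ *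
          HH D χ w r ψ c x.1 ((x.2 + j) / (1 - g * (x.2 + j)))‖ ≤
            C * Real.exp (-(δ * x.2.im)) := fun g hg =>
    sum_decay (Finset.range (wid D g)) (fun (j : ℕ) (x : ℂ × ℂ) => ((1 - g * (x.2 + j)) ^ w)⁻¹ *
      HH D χ w r ψ c x.1 ((x.2 + j) / (1 - g * (x.2 + j)))) (fun x => x.2.im)
      (fun x => σ₀ ≤ x.1.re ∧ ‖x.1‖ ≤ R ∧ 1 / 2 ≤ x.2.im ∧ |x.2.re| ≤ 1 / 2)
      (fun x hx => by linarith [hx.2.2.1]) (key g hg)
  obtain ⟨C, δ, hδ, hb⟩ := sum_decay D.divisors (fun (g : ℕ) (x : ℂ × ℂ) =>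
      ∑ j ∈ Finset.range (wid D g), ((1 - g * (x.2 + j)) ^ w)⁻¹ *
      HH D χ w r ψ c x.1 ((x.2 + j) / (1 - g * (x.2 + j)))) (fun x => x.2.im)
      (fun x => σ₀ ≤ x.1.re ∧ ‖x.1‖ ≤ R ∧ 1 / 2 ≤ x.2.im ∧ |x.2.re| ≤ 1 / 2)
      (fun x hx => by linarith [hx.2.2.1]) key2
  exact ⟨C, δ, hδ, fun t z ht hR hz hx => hb (t, z) ⟨ht, hR, hz, hx⟩⟩

end RZ

end Pool.Agent.Lib.MP_7c08ba_nt
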