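import Mathlib
import Pool.Agent.Lib.MP_7c08ba_nt.RZ.StB

set_option autoImplicit false

/-!
Module (B8): sums over ideals are sums over the elements of the representatives, each ideal being
obtained twice.
-/

namespace Pool.Agent.Lib.MP_7c08ba_nt

namespace RZ

open NumberField
open scoped nonZeroDivisors

namespace IdSumAux

variable {F : Type} [Field F] [NumberField F]

/-- A generator of the product of an ideal and the representative of the inverse class. -/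
lemma exists_gen (R : ClassGroup (𝓞 F) → (Ideal (𝓞 F))⁰) (hcls : ∀ A, ClassGroup.mk0 (R A) = A)
    (b : (Ideal (𝓞 F))⁰) :
    ∃ t : 𝓞 F, t ≠ 0 ∧ (b : Ideal (𝓞 F)) * (R (ClassGroup.mk0 b)⁻¹ : Ideal (𝓞 F)) =
      Ideal.span {t} := by
  have h1 : ClassGroup.mk0 (b * R (ClassGroup.mk0 b)⁻¹) = 1 := by
    rw [map_mul, hcls, mul_inv_cancel]
  have h2 := (ClassGroup.mk0_eq_one_iff (b * R (ClassGroup.mk0 b)⁻¹).2).1 h1
  obtain ⟨t, ht⟩ := h2.principal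
  refine ⟨t, ?_, ?_⟩
  · rintro rfl
    have h3 := nonZeroDivisors.coe_ne_zero (b * R (ClassGroup.mk0 b)⁻¹)
    apply h3
    rw [ht]
    simp
  · exact ht

lemma gen_mem (R : ClassGroup (𝓞 F) → (Ideal (𝓞 F))⁰) (b : (Ideal (𝓞 F))⁰) (t : 𝓞 F)
    (h : (b : Ideal (𝓞 F)) * (R (ClassGroup.mk0 b)⁻¹ : Ideal (𝓞 F)) = Ideal.span {t}) :
    t ∈ (R (ClassGroup.mk0 b)⁻¹ : Ideal (𝓞 F)) := by
  have h1 : t ∈ (b : Ideal (𝓞 F)) * (R (ClassGroup.mk0 b)⁻¹ : Ideal (𝓞 F)) := by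
    rw [h]
    exact Ideal.mem_span_singleton_self t
  exact Ideal.mul_le_right h1

/-- The general form of the identity. -/
lemma main (hunit : ∀ x : 𝓞 F, IsUnit x → x = 1 ∨ x = -1)
    (R : ClassGroup (𝓞 F) → (Ideal (𝓞 F))⁰) (hcls : ∀ A, ClassGroup.mk0 (R A) = A)
    (g : Ideal (𝓞 F) → ℂ) (T : ClassGroup (𝓞 F) → 𝓞 F → ℂ) (h0 : ∀ A, T A 0 = 0)
    (hT : ∀ (A : ClassGroup (𝓞 F)) (x : 𝓞 F) (b : Ideal (𝓞 F)), x ≠ 0 →
      b * (R A : Ideal (𝓞 F)) = Ideal.span {x} → T A x = g b)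
    (hs : ∀ A, Summable fun x : (R A : Ideal (𝓞 F)) => ‖T A x‖) :
    (Summable fun b : (Ideal (𝓞 F))⁰ => ‖g b‖) ∧
    ∑ A : ClassGroup (𝓞 F), ∑' x : (R A : Ideal (𝓞 F)), T A x =
      2 * ∑' b : (Ideal (𝓞 F))⁰, g b := by
  classical
  choose t ht0 ht using exists_gen R hcls
  have htm : ∀ b, t b ∈ (R (ClassGroup.mk0 b)⁻¹ : Ideal (𝓞 F)) := fun b => gen_mem R b _ (ht b)
  have htm' : ∀ (b : (Ideal (𝓞 F))⁰) (e : Bool),
      (cond e (t b) (-t b)) ∈ (R (ClassGroup.mk0 b)⁻¹ : Ideal (𝓞 F)) := by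
    intro b e
    cases e
    · exact neg_mem (htm b)
    · exact htm b
  -- the parametrisation
  let Φ : (Ideal (𝓞 F))⁰ × Bool → (Σ A : ClassGroup (𝓞 F), (R A : Ideal (𝓞 F))) :=
    fun p => ⟨(ClassGroup.mk0 p.1)⁻¹, ⟨cond p.2 (t p.1) (-t p.1), htm' p.1 p.2⟩⟩
  let f : (Σ A : ClassGroup (𝓞 F), (R A : Ideal (𝓞 F))) → ℂ := fun p => T p.1 (p.2 : 𝓞 F)
  have hspan : ∀ (b : (Ideal (𝓞 F))⁰) (e : Bool),
      (b : Ideal (𝓞 F)) * (R (ClassGroup.mk0 b)⁻¹ : Ideal (𝓞 F)) =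
        Ideal.span {cond e (t b) (-t b)} := by
    intro b e
    cases e
    · change _ = Ideal.span {-t b}
      rw [ht b, Ideal.span_singleton_neg]
    · exact ht b
  have hne : ∀ (b : (Ideal (𝓞 F))⁰) (e : Bool), cond e (t b) (-t b) ≠ 0 := by
    intro b e
    cases e
    · exact neg_ne_zero.2 (ht0 b)
    · exact ht0 b
  have hfΦ : ∀ p, f (Φ p) = g (p.1 : Ideal (𝓞 F)) := fun p =>
    hT _ _ _ (hne p.1 p.2) (hspan p.1 p.2)
  have hval : ∀ (A A' : ClassGroup (𝓞 F)) (x : (R A : Ideal (𝓞 F))) (x' : (R A' : Ideal (𝓞 F))),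
      (⟨A, x⟩ : Σ A : ClassGroup (𝓞 F), (R A : Ideal (𝓞 F))) = ⟨A', x'⟩ →
      A = A' ∧ (x : 𝓞 F) = (x' : 𝓞 F) := by
    intro A A' x x' h
    cases h
    exact ⟨rfl, rfl⟩
  have hinj : Function.Injective Φ := by
    rintro ⟨b, e⟩ ⟨b', e'⟩ h
    obtain ⟨hA, hx⟩ := hval _ _ _ _ h
    change cond e (t b) (-t b) = cond e' (t b') (-t b') at hx
    change (ClassGroup.mk0 b)⁻¹ = (ClassGroup.mk0 b')⁻¹ at hA
    have h1 := hspan b e
    have h2 := hspan b' e'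
    rw [hx, ← h2, hA] at h1
    have hR0 : (R (ClassGroup.mk0 b')⁻¹ : Ideal (𝓞 F)) ≠ 0 :=
      nonZeroDivisors.coe_ne_zero _
    have h3 : (b : Ideal (𝓞 F)) = b' := mul_right_cancel₀ hR0 h1
    have h4 : b = b' := Subtype.ext h3
    subst h4
    have h5 : e = e' := by
      have ht1 := ht0 b
      cases e <;> cases e'
      · rfl
      · exfalso
        change -t b = t b at hx
        exact ht1 (self_eq_neg.1 hx.symm)
      · exfalso
        change t b = -t b at hx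
        exact ht1 (self_eq_neg.1 hx)
      · rfl
    rw [h5]
  have hsurj : ∀ (A : ClassGroup (𝓞 F)) (x : (R A : Ideal (𝓞 F))), (x : 𝓞 F) ≠ 0 →
      (⟨A, x⟩ : Σ A : ClassGroup (𝓞 F), (R A : Ideal (𝓞 F))) ∈ Set.range Φ := by
    intro A x hx
    have hdvd : (R A : Ideal (𝓞 F)) ∣ Ideal.span {(x : 𝓞 F)} := by
      rw [Ideal.dvd_span_singleton]
      exact x.2
    obtain ⟨b, hb⟩ := hdvd
    rw [mul_comm] at hb
    have hb0 : b ≠ 0 := by
      rintro rfl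
      rw [zero_mul] at hb
      exact hx (Ideal.span_singleton_eq_bot.1 hb)
    have hbm : b ∈ (Ideal (𝓞 F))⁰ := mem_nonZeroDivisors_of_ne_zero hb0
    have hcl : ClassGroup.mk0 (⟨b, hbm⟩ * R A) = 1 := by
      rw [ClassGroup.mk0_eq_one_iff]
      constructor
      exact ⟨(x : 𝓞 F), hb.symm⟩
    rw [map_mul, hcls] at hcl
    have hA : A = (ClassGroup.mk0 ⟨b, hbm⟩)⁻¹ := (inv_eq_of_mul_eq_one_right hcl).symm
    subst hA
    have h1 := ht ⟨b, hbm⟩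
    have h2 : Ideal.span {(x : 𝓞 F)} = Ideal.span {t ⟨b, hbm⟩} := hb.trans h1
    rw [Ideal.span_singleton_eq_span_singleton] at h2
    obtain ⟨u, hu⟩ := h2.symm
    rcases hunit _ u.isUnit with h3 | h3
    · refine ⟨(⟨b, hbm⟩, true), ?_⟩
      have : (x : 𝓞 F) = t ⟨b, hbm⟩ := by rw [← hu, h3, mul_one]
      refine Sigma.ext rfl (heq_of_eq (Subtype.ext ?_))
      exact this.symm
    · refine ⟨(⟨b, hbm⟩, false), ?_⟩
      have : (x : 𝓞 F) = -t ⟨b, hbm⟩ := by rw [← hu, h3]; ring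
      refine Sigma.ext rfl (heq_of_eq (Subtype.ext ?_))
      exact this.symm
  have hsupp : Function.support f ⊆ Set.range Φ := by
    rintro ⟨A, x⟩ h
    apply hsurj
    intro hx
    apply h
    change T A (x : 𝓞 F) = 0
    rw [hx, h0]
  have hsn : Summable fun p => ‖f p‖ := by
    rw [summable_sigma_of_nonneg (fun p => norm_nonneg _)]
    exact ⟨fun A => hs A, Summable.of_finite⟩
  have hsf : Summable f := hsn.of_norm
  have hsΦ : Summable fun p : (Ideal (𝓞 F))⁰ × Bool => ‖g (p.1 : Ideal (𝓞 F))‖ := by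
    have h1 := hsn.comp_injective hinj
    refine h1.congr fun p => ?_
    change ‖f (Φ p)‖ = ‖g (p.1 : Ideal (𝓞 F))‖
    rw [hfΦ p]
  have hsg : Summable fun b : (Ideal (𝓞 F))⁰ => ‖g b‖ :=
    hsΦ.comp_injective (i := fun b : (Ideal (𝓞 F))⁰ => ((b, true) : (Ideal (𝓞 F))⁰ × Bool))
      (fun b b' h => (Prod.ext_iff.1 h).1)
  refine ⟨hsg, ?_⟩
  have h1 : ∑' p, f p = ∑ A : ClassGroup (𝓞 F), ∑' x : (R A : Ideal (𝓞 F)), T A x := by
    rw [hsf.tsum_sigma, tsum_fintype]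
  have h2 : ∑' p, f p = ∑' p : (Ideal (𝓞 F))⁰ × Bool, g (p.1 : Ideal (𝓞 F)) := by
    rw [← hinj.tsum_eq hsupp]
    exact tsum_congr fun p => hfΦ p
  have h3 : ∑' p : (Ideal (𝓞 F))⁰ × Bool, g (p.1 : Ideal (𝓞 F)) =
      ∑' b : (Ideal (𝓞 F))⁰, 2 * g b := by
    have hs' : Summable fun p : (Ideal (𝓞 F))⁰ × Bool => g (p.1 : Ideal (𝓞 F)) := hsΦ.of_norm
    rw [hs'.tsum_prod]
    refine tsum_congr fun b => ?_
    rw [tsum_fintype]
    simp [two_mul]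
  rw [← h1, h2, h3, tsum_mul_left]

end IdSumAux

/-- (B8) sums over ideals and sums over elements of representatives -/
theorem stIdSum (h : StBas) : StIdSum := by
  intro q F _ _ s σ χ cj c g T hD h0 hT hs
  obtain ⟨-, -, -, -, -, -, -, hunit, -⟩ := h q F _ _ s σ χ cj hD
  exact IdSumAux.main hunit c.R c.cls g T h0 hT hs

end RZ

end Pool.Agent.Lib.MP_7c08ba_nt
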