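import Mathlib
import Pool.Agent.Lib.MP_7c08ba_nt.RZ.StH
import Pool.Agent.Lib.MP_7c08ba_nt.RZ.Rho
import Pool.Agent.Lib.MP_7c08ba_nt.RZ.Gen

set_option autoImplicit false

/-!
(H31a) the number of factors.
-/

namespace Pool.Agent.Lib.MP_7c08ba_nt

namespace RZ

open NumberField Set
open scoped nonZeroDivisors

namespace KeyEAux

/-! ### finite computations -/

theorem fin1 : ∀ c x1 x2 y1 y2 : ZMod 4, (c = 1 ∨ c = 3) →
    x1 * x1 + x2 * x2 = c * (y1 * y1 + y2 * y2) →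
    Fintype.card {v : ZMod 2 × ZMod 2 // ((v.1.val : ZMod 4) * v.1.val + v.2.val * v.2.val = c) ∧
      2 * (x1 - (v.1.val * y1 - v.2.val * y2)) = 0 ∧ 2 * (x2 - (v.1.val * y2 + v.2.val * y1)) = 0} =
      if 2 * (y1 * y1 + y2 * y2) = 2 then 1 else if c = 1 then 2 else 0 := by
  decide +kernel

theorem fin2a : ∀ (n0 c : ZMod 8), (n0 = 2 ∨ n0 = 6) → (c = 1 ∨ c = 3 ∨ c = 5 ∨ c = 7) →
    ∀ (x1 y1 : Fin 4) (x2 y2 : Fin 2),
    (x1.val : ZMod 8) * x1.val + n0 * (x2.val * x2.val) =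
      c * (y1.val * y1.val + n0 * (y2.val * y2.val)) →
    Fintype.card {v : ZMod 4 × ZMod 2 //
      ((v.1.val : ZMod 8) * v.1.val + n0 * (v.2.val * v.2.val) = c) ∧
      2 * (x1.val - (v.1.val * y1.val - n0 * (v.2.val * y2.val)) : ZMod 8) = 0 ∧
      4 * (x2.val - (v.1.val * y2.val + v.2.val * y1.val) : ZMod 8) = 0} =
      if 4 * (y1.val * y1.val : ZMod 8) = 4 then 1 else if c = 1 ∨ c = 1 + n0 then 2 else 0 := by
  decide +kernel

theorem red4 : ∀ x : ZMod 8, ∃ a : Fin 4, x * x = (a.val : ZMod 8) * a.val ∧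
    2 * x = 2 * (a.val : ZMod 8) ∧ 4 * x = 4 * (a.val : ZMod 8) := by decide +kernel

theorem red2 : ∀ x : ZMod 8, ∃ a : Fin 2, 4 * x = 4 * (a.val : ZMod 8) ∧
    2 * (x * x) = 2 * ((a.val : ZMod 8) * a.val) ∧
    6 * (x * x) = 6 * ((a.val : ZMod 8) * a.val) := by decide +kernel

theorem fin2 (n0 c x1 y1 x2 y2 : ZMod 8) (hn : n0 = 2 ∨ n0 = 6)
    (hc : c = 1 ∨ c = 3 ∨ c = 5 ∨ c = 7)
    (h : x1 * x1 + n0 * (x2 * x2) = c * (y1 * y1 + n0 * (y2 * y2))) :
    Fintype.card {v : ZMod 4 × ZMod 2 //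
      ((v.1.val : ZMod 8) * v.1.val + n0 * (v.2.val * v.2.val) = c) ∧
      2 * (x1 - (v.1.val * y1 - n0 * (v.2.val * y2))) = 0 ∧
      4 * (x2 - (v.1.val * y2 + v.2.val * y1)) = 0} =
      if 4 * (y1 * y1) = 4 then 1 else if c = 1 ∨ c = 1 + n0 then 2 else 0 := by
  obtain ⟨a1, ha1, ha1', -⟩ := red4 x1
  obtain ⟨b1, hb1, hb1', hb1''⟩ := red4 y1
  obtain ⟨a2, ha2, ha2', ha2''⟩ := red2 x2
  obtain ⟨b2, hb2, hb2', hb2''⟩ := red2 y2
  have key := fin2a n0 c hn hc a1 b1 a2 b2 (by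
    rcases hn with rfl | rfl
    · rw [← ha1, ← ha2', ← hb1, ← hb2']; exact h
    · rw [← ha1, ← ha2'', ← hb1, ← hb2'']; exact h)
  rw [← hb1] at key
  rw [← key]
  have e1 : ∀ i u : ZMod 8, 2 * (x1 - (i * y1 - n0 * (u * y2))) =
      2 * (a1.val - (i * b1.val - n0 * (u * b2.val)) : ZMod 8) := by
    intro i u
    have h12 : (12 : ZMod 8) = 4 := by decide
    rcases hn with rfl | rfl
    · linear_combination ha1' - i * hb1' + u * hb2
    · linear_combination ha1' - i * hb1' + u * hb2 + u * (y2 - b2.val) * h12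
  have e2 : ∀ i u : ZMod 8, 4 * (x2 - (i * y2 + u * y1)) =
      4 * (a2.val - (i * b2.val + u * b1.val) : ZMod 8) := by
    intro i u
    linear_combination ha2 - i * hb2 - u * hb1''
  simp only [e1, e2]

/-- the conditions at two -/
def P2 (K : ℕ) (n0 A B x1 x2 y1 y2 i u : ℤ) : Prop :=
  ((2 * K : ℕ) : ℤ) ∣ (i ^ 2 + n0 * u ^ 2) * B - A ∧
  (K : ℤ) ∣ x1 - (i * y1 - n0 * (u * y2)) ∧ (2 : ℤ) ∣ x2 - (i * y2 + u * y1)

theorem odd4 {A : ℤ} (h : Odd A) : (A : ZMod 4) = 1 ∨ (A : ZMod 4) = 3 := by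
  obtain ⟨k, rfl⟩ := h
  push_cast
  generalize (k : ZMod 4) = k
  revert k
  decide

theorem odd8 {A : ℤ} (h : Odd A) :
    (A : ZMod 8) = 1 ∨ (A : ZMod 8) = 3 ∨ (A : ZMod 8) = 5 ∨ (A : ZMod 8) = 7 := by
  obtain ⟨k, rfl⟩ := h
  push_cast
  generalize (k : ZMod 8) = k
  revert k
  decide

theorem sq4 : ∀ b : ZMod 4, (b = 1 ∨ b = 3) → b * b = 1 := by decide

theorem sq8 : ∀ b : ZMod 8, (b = 1 ∨ b = 3 ∨ b = 5 ∨ b = 7) → b * b = 1 := by decide

theorem two1 {n0 A B x1 x2 y1 y2 n n' : ℤ} (hn0 : n0 % 4 = 1) (hA : Odd A) (hB : Odd B)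
    (hx : x1 ^ 2 + n0 * x2 ^ 2 = n * A) (hy : y1 ^ 2 + n0 * y2 ^ 2 = n' * B)
    (hnn : (4 : ℤ) ∣ n - n') :
    Nat.card {v : ZMod 2 × ZMod 2 // P2 2 n0 A B x1 x2 y1 y2 v.1.val v.2.val} =
      if Odd n then 1 else if (A * B) % 4 = 1 then 2 else 0 := by
  have hn0' : (n0 : ZMod 4) = 1 := by
    have : ((n0 : ℤ) : ZMod 4) = ((1 : ℤ) : ZMod 4) := by
      rw [ZMod.intCast_eq_intCast_iff']
      exact hn0
    rw [this]
    simp
  have hB1 := sq4 _ (odd4 hB)
  have hA1 := sq4 _ (odd4 hA)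
  have hnn' : (n : ZMod 4) = (n' : ZMod 4) := by
    have := (ZMod.intCast_zmod_eq_zero_iff_dvd _ 4).2 hnn
    push_cast at this
    linear_combination this
  have hx' : (x1 : ZMod 4) * x1 + x2 * x2 = n * A := by
    have := congrArg (Int.cast : ℤ → ZMod 4) hx
    push_cast at this
    rw [hn0'] at this
    linear_combination this
  have hy' : (y1 : ZMod 4) * y1 + y2 * y2 = n' * B := by
    have := congrArg (Int.cast : ℤ → ZMod 4) hy
    push_cast at this
    rw [hn0'] at this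
    linear_combination this
  have hc := odd4 (hA.mul hB)
  push_cast at hc
  have key := fin1 ((A : ZMod 4) * B) x1 x2 y1 y2 hc (by
    rw [hx', hy', hnn']
    linear_combination -(n' : ZMod 4) * A * hB1)
  have e1 : ∀ v : ZMod 2 × ZMod 2, P2 2 n0 A B x1 x2 y1 y2 v.1.val v.2.val ↔
      ((v.1.val : ZMod 4) * v.1.val + v.2.val * v.2.val = (A : ZMod 4) * B) ∧
      2 * ((x1 : ZMod 4) - (v.1.val * y1 - v.2.val * y2)) = 0 ∧
      2 * ((x2 : ZMod 4) - (v.1.val * y2 + v.2.val * y1)) = 0 := by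
    intro v
    unfold P2
    have a1 : (((2 * 2 : ℕ) : ℤ) ∣ ((v.1.val : ℤ) ^ 2 + n0 * (v.2.val : ℤ) ^ 2) * B - A) ↔
        ((v.1.val : ZMod 4) * v.1.val + v.2.val * v.2.val = (A : ZMod 4) * B) := by
      rw [show (2 * 2 : ℕ) = 4 from rfl, ← ZMod.intCast_zmod_eq_zero_iff_dvd]
      push_cast
      rw [hn0']
      constructor
      · intro h
        linear_combination (B : ZMod 4) * h - ((v.1.val : ZMod 4) * v.1.val +
          v.2.val * v.2.val) * hB1
      · intro h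
        linear_combination (B : ZMod 4) * h + (A : ZMod 4) * hB1
    have a2 : ∀ E : ℤ, ((2 : ℤ) ∣ E) ↔ 2 * (E : ZMod 4) = 0 := by
      intro E
      have : (2 : ZMod 4) * E = ((2 * E : ℤ) : ZMod 4) := by push_cast; rfl
      rw [this, ZMod.intCast_zmod_eq_zero_iff_dvd]
      push_cast
      omega
    rw [a1, show (((2 : ℕ) : ℤ)) = 2 from rfl, a2, a2]
    push_cast
    rw [hn0', one_mul]
  rw [Nat.card_congr (Equiv.subtypeEquivRight e1), Nat.card_eq_fintype_card, key]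
  have e2 : (2 * ((y1 : ZMod 4) * y1 + y2 * y2) = 2) ↔ Odd n := by
    rw [hy', ← hnn']
    have hb := odd4 hB
    have : ((2 : ZMod 4) * (n * B) = 2 ↔ 2 * (n : ZMod 4) = 2) := by
      generalize (n : ZMod 4) = z
      rcases hb with hb | hb <;> rw [hb] <;> revert z <;> decide
    rw [this]
    have h2 : (2 : ZMod 4) * n = ((2 * n : ℤ) : ZMod 4) := by push_cast; rfl
    have h3 : (2 : ZMod 4) = ((2 : ℤ) : ZMod 4) := by push_cast; rfl
    rw [h2]
    conv_lhs => rhs; rw [h3]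
    rw [ZMod.intCast_eq_intCast_iff', Int.odd_iff]
    push_cast
    omega
  have e3 : ((A : ZMod 4) * B = 1) ↔ (A * B) % 4 = 1 := by
    have h2 : (A : ZMod 4) * B = ((A * B : ℤ) : ZMod 4) := by push_cast; rfl
    have h3 : (1 : ZMod 4) = ((1 : ℤ) : ZMod 4) := by push_cast; rfl
    rw [h2, h3, ZMod.intCast_eq_intCast_iff']
    rfl
  simp only [e2, e3]

theorem two2 {n0 A B x1 x2 y1 y2 n n' : ℤ} (hn0 : n0 % 8 = 2 ∨ n0 % 8 = 6) (hA : Odd A)
    (hB : Odd B) (hx : x1 ^ 2 + n0 * x2 ^ 2 = n * A) (hy : y1 ^ 2 + n0 * y2 ^ 2 = n' * B)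
    (hnn : (8 : ℤ) ∣ n - n') :
    Nat.card {v : ZMod 4 × ZMod 2 // P2 4 n0 A B x1 x2 y1 y2 v.1.val v.2.val} =
      if Odd n then 1 else if (A * B) % 8 = 1 ∨ (A * B) % 8 = (1 + n0) % 8 then 2 else 0 := by
  have hn0' : (n0 : ZMod 8) = 2 ∨ (n0 : ZMod 8) = 6 := by
    rcases hn0 with h | h
    · left
      have : ((n0 : ℤ) : ZMod 8) = ((2 : ℤ) : ZMod 8) := by
        rw [ZMod.intCast_eq_intCast_iff']
        exact h
      rw [this]
      rfl
    · right
      have : ((n0 : ℤ) : ZMod 8) = ((6 : ℤ) : ZMod 8) := by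
        rw [ZMod.intCast_eq_intCast_iff']
        exact h
      rw [this]
      rfl
  have hB1 := sq8 _ (odd8 hB)
  have hA1 := sq8 _ (odd8 hA)
  have hnn' : (n : ZMod 8) = (n' : ZMod 8) := by
    have := (ZMod.intCast_zmod_eq_zero_iff_dvd _ 8).2 hnn
    push_cast at this
    linear_combination this
  have hx' : (x1 : ZMod 8) * x1 + n0 * (x2 * x2) = n * A := by
    have := congrArg (Int.cast : ℤ → ZMod 8) hx
    push_cast at this
    linear_combination this
  have hy' : (y1 : ZMod 8) * y1 + n0 * (y2 * y2) = n' * B := by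
    have := congrArg (Int.cast : ℤ → ZMod 8) hy
    push_cast at this
    linear_combination this
  have hc := odd8 (hA.mul hB)
  push_cast at hc
  have key := fin2 n0 ((A : ZMod 8) * B) x1 y1 x2 y2 hn0' hc (by
    rw [hx', hy', hnn']
    linear_combination -(n' : ZMod 8) * A * hB1)
  have e1 : ∀ v : ZMod 4 × ZMod 2, P2 4 n0 A B x1 x2 y1 y2 v.1.val v.2.val ↔
      ((v.1.val : ZMod 8) * v.1.val + n0 * (v.2.val * v.2.val) = (A : ZMod 8) * B) ∧
      2 * ((x1 : ZMod 8) - (v.1.val * y1 - n0 * (v.2.val * y2))) = 0 ∧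
      4 * ((x2 : ZMod 8) - (v.1.val * y2 + v.2.val * y1)) = 0 := by
    intro v
    unfold P2
    have a1 : (((2 * 4 : ℕ) : ℤ) ∣ ((v.1.val : ℤ) ^ 2 + n0 * (v.2.val : ℤ) ^ 2) * B - A) ↔
        ((v.1.val : ZMod 8) * v.1.val + n0 * (v.2.val * v.2.val) = (A : ZMod 8) * B) := by
      rw [show (2 * 4 : ℕ) = 8 from rfl, ← ZMod.intCast_zmod_eq_zero_iff_dvd]
      push_cast
      constructor
      · intro h
        linear_combination (B : ZMod 8) * h - ((v.1.val : ZMod 8) * v.1.val +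
          n0 * (v.2.val * v.2.val)) * hB1
      · intro h
        linear_combination (B : ZMod 8) * h + (A : ZMod 8) * hB1
    have a2 : ∀ E : ℤ, ((2 : ℤ) ∣ E) ↔ 4 * (E : ZMod 8) = 0 := by
      intro E
      have : (4 : ZMod 8) * E = ((4 * E : ℤ) : ZMod 8) := by push_cast; rfl
      rw [this, ZMod.intCast_zmod_eq_zero_iff_dvd]
      push_cast
      omega
    have a3 : ∀ E : ℤ, (((4 : ℕ) : ℤ) ∣ E) ↔ 2 * (E : ZMod 8) = 0 := by
      intro E
      have : (2 : ZMod 8) * E = ((2 * E : ℤ) : ZMod 8) := by push_cast; rfl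
      rw [this, ZMod.intCast_zmod_eq_zero_iff_dvd]
      push_cast
      omega
    rw [a1, a3, a2]
    push_cast
    rfl
  rw [Nat.card_congr (Equiv.subtypeEquivRight e1), Nat.card_eq_fintype_card, key]
  have e2 : (4 * ((y1 : ZMod 8) * y1) = 4) ↔ Odd n := by
    have h1 : (4 : ZMod 8) * (y1 * y1) = 4 * (n * B) := by
      rw [hnn', ← hy']
      have h48 : (8 : ZMod 8) = 0 := by decide
      rcases hn0' with h | h <;> rw [h]
      · linear_combination -(y2 * y2 : ZMod 8) * h48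
      · linear_combination -(3 * (y2 * y2 : ZMod 8)) * h48
    rw [h1]
    have hb := odd8 hB
    have : ((4 : ZMod 8) * (n * B) = 4 ↔ 4 * (n : ZMod 8) = 4) := by
      generalize (n : ZMod 8) = z
      rcases hb with hb | hb | hb | hb <;> rw [hb] <;> revert z <;> decide
    rw [this]
    have h2 : (4 : ZMod 8) * n = ((4 * n : ℤ) : ZMod 8) := by push_cast; rfl
    have h3 : (4 : ZMod 8) = ((4 : ℤ) : ZMod 8) := by push_cast; rfl
    rw [h2]
    conv_lhs => rhs; rw [h3]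
    rw [ZMod.intCast_eq_intCast_iff', Int.odd_iff]
    push_cast
    omega
  have e3 : ((A : ZMod 8) * B = 1) ↔ (A * B) % 8 = 1 := by
    have h2 : (A : ZMod 8) * B = ((A * B : ℤ) : ZMod 8) := by push_cast; rfl
    have h3 : (1 : ZMod 8) = ((1 : ℤ) : ZMod 8) := by push_cast; rfl
    rw [h2, h3, ZMod.intCast_eq_intCast_iff']
    rfl
  have e4 : ((A : ZMod 8) * B = 1 + n0) ↔ (A * B) % 8 = (1 + n0) % 8 := by
    have h2 : (A : ZMod 8) * B = ((A * B : ℤ) : ZMod 8) := by push_cast; rfl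
    have h3 : (1 : ZMod 8) + n0 = ((1 + n0 : ℤ) : ZMod 8) := by push_cast; rfl
    rw [h2, h3, ZMod.intCast_eq_intCast_iff']
    rfl
  simp only [e2, e3, e4]


/-! ### reciprocity -/

theorem recip1 {n0 c : ℕ} (hn : n0 % 4 = 1) (hc : Odd c) (h : jacobiSym (-(n0 : ℤ)) c = 1) :
    jacobiSym c n0 = if (c : ℤ) % 4 = 1 then 1 else -1 := by
  rw [neg_eq_neg_one_mul, jacobiSym.mul_left, jacobiSym.at_neg_one hc,
    jacobiSym.quadratic_reciprocity_one_mod_four hn hc] at h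
  have hc2 := Nat.odd_iff.1 hc
  have h4 : c % 4 = 1 ∨ c % 4 = 3 := by omega
  rcases h4 with h4 | h4
  · rw [ZMod.χ₄_nat_one_mod_four h4, one_mul] at h
    rw [h, if_pos (by omega)]
  · rw [ZMod.χ₄_nat_three_mod_four h4] at h
    rw [if_neg (by omega)]
    linarith

theorem recip2 {m c : ℕ} (hm : Odd m) (hc : Odd c) (h : jacobiSym (-((2 * m : ℕ) : ℤ)) c = 1) :
    jacobiSym c m = if (c : ℤ) % 8 = 1 ∨ (c : ℤ) % 8 = (1 + ((2 * m : ℕ) : ℤ)) % 8 then 1 else -1 := by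
  have e : (-((2 * m : ℕ) : ℤ)) = (-2) * (m : ℤ) := by push_cast; ring
  rw [e, jacobiSym.mul_left, jacobiSym.at_neg_two hc, ZMod.χ₈'_nat_eq_if_mod_eight] at h
  have hc2 := Nat.odd_iff.1 hc
  have hm2 := Nat.odd_iff.1 hm
  have hm4 : m % 4 = 1 ∨ m % 4 = 3 := by omega
  have hc8 : c % 8 = 1 ∨ c % 8 = 3 ∨ c % 8 = 5 ∨ c % 8 = 7 := by omega
  rw [if_neg (by omega)] at h
  rcases hm4 with hm4 | hm4
  · rw [jacobiSym.quadratic_reciprocity_one_mod_four hm4 hc] at h
    rcases hc8 with h8 | h8 | h8 | h8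
    · rw [if_pos (by omega), one_mul] at h
      rw [h, if_pos (by omega)]
    · rw [if_pos (by omega), one_mul] at h
      rw [h, if_pos (by omega)]
    · rw [if_neg (by omega)] at h
      rw [if_neg (by omega)]
      linarith
    · rw [if_neg (by omega)] at h
      rw [if_neg (by omega)]
      linarith
  · rcases hc8 with h8 | h8 | h8 | h8
    · rw [if_pos (by omega), one_mul,
        ← jacobiSym.quadratic_reciprocity_one_mod_four (by omega : c % 4 = 1) hm] at h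
      rw [h, if_pos (by omega)]
    · rw [if_pos (by omega), one_mul,
        jacobiSym.quadratic_reciprocity_three_mod_four hm4 (by omega : c % 4 = 3)] at h
      rw [if_neg (by omega)]
      linarith
    · rw [if_neg (by omega),
        ← jacobiSym.quadratic_reciprocity_one_mod_four (by omega : c % 4 = 1) hm] at h
      rw [if_neg (by omega)]
      linarith
    · rw [if_neg (by omega),
        jacobiSym.quadratic_reciprocity_three_mod_four hm4 (by omega : c % 4 = 3)] at h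
      rw [if_pos (by omega)]
      linarith

/-! ### the sum over the cusps -/

theorem fac_two (j : ℕ) {g : ℕ} (hg : Odd g) : (2 ^ j * g).factorization 2 = j := by
  have h2 : ¬ 2 ∣ g := by
    intro h
    exact (Nat.not_even_iff_odd.2 hg) (even_iff_two_dvd.2 h)
  rw [Nat.factorization_mul (by positivity) (by rintro rfl; exact absurd hg (by decide)),
    Nat.Prime.factorization_pow Nat.prime_two]
  simp [Nat.factorization_eq_zero_of_not_dvd h2]

theorem oddp_eq (j : ℕ) {g : ℕ} (hg : Odd g) : oddp (2 ^ j * g) = g := by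
  unfold oddp
  rw [fac_two j hg, Nat.mul_div_cancel_left _ (by positivity)]

theorem twop_eq (j : ℕ) {g : ℕ} (hg : Odd g) : twop (2 ^ j * g) = 2 ^ j := by
  unfold twop
  rw [fac_two j hg]

theorem jac_div {c m g : ℕ} (hc : c.Coprime m) (hm : m ≠ 0) (hg : g ∣ m) :
    jacobiSym c (m / g) = jacobiSym c m * jacobiSym c g := by
  obtain ⟨l, rfl⟩ := hg
  have hg0 : g ≠ 0 := left_ne_zero_of_mul hm
  have hl0 : l ≠ 0 := right_ne_zero_of_mul hm
  have : NeZero g := ⟨hg0⟩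
  have : NeZero l := ⟨hl0⟩
  rw [Nat.mul_div_cancel_left _ (Nat.pos_of_ne_zero hg0), jacobiSym.mul_right]
  have h1 : jacobiSym c g ^ 2 = 1 := by
    apply jacobiSym.sq_one
    rw [Int.gcd_natCast_natCast]
    exact Nat.Coprime.coprime_mul_right_right hc
  linear_combination -(jacobiSym c l) * h1

theorem rhs {D m : ℕ} (hm : Odd m) (k : ℕ) (hD : D = 2 ^ (k + 1) * m) {c : ℕ} (hc : c.Coprime m)
    (n : ℕ) :
    ∑ᶠ g ∈ {g : ℕ | g ∣ D ∧ supE D g n}, epsE D g c =
      (1 + if Even n then jacobiSym c m else 0) *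
        ∑ g ∈ m.divisors with g ∣ n, jacobiSym c g := by
  classical
  have hm0 : m ≠ 0 := by rintro rfl; exact absurd hm (by decide)
  have hD0 : D ≠ 0 := by rw [hD]; positivity
  set V := m.divisors.filter (fun g => g ∣ n) with hV
  set w := Nat.gcd n (2 ^ (k + 1)) with hw
  obtain ⟨j0, hj0, hwj⟩ := (Nat.dvd_prime_pow Nat.prime_two).1 (Nat.gcd_dvd_right n (2 ^ (k + 1)))
  rw [← hw] at hwj
  have hVodd : ∀ g ∈ V, Odd g := by
    intro g hg
    rw [hV, Finset.mem_filter, Nat.mem_divisors] at hg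
    exact Odd.of_dvd_nat hm hg.1.1
  have hpar : Even n ↔ j0 ≠ 0 := by
    constructor
    · intro h h0
      rw [h0, pow_zero] at hwj
      have : 2 ∣ w := Nat.dvd_gcd (even_iff_two_dvd.1 h) (dvd_pow_self 2 (by omega))
      rw [hwj] at this
      omega
    · intro h
      have h1 : 2 ∣ w := by rw [hwj]; exact dvd_pow_self 2 h
      exact even_iff_two_dvd.2 (h1.trans (Nat.gcd_dvd_left _ _))
  have hset : {g : ℕ | g ∣ D ∧ supE D g n} =
      ((V ∪ (if Even n then V.image (fun g => w * g) else ∅) : Finset ℕ) : Set ℕ) := by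
    ext g
    rw [Finset.coe_union, Set.mem_union, Finset.mem_coe, Finset.mem_coe, Set.mem_ofPred_eq]
    by_cases hg0 : g = 0
    · subst hg0
      have h1 : ¬ (0 ∣ D) := fun h => hD0 (Nat.eq_zero_of_zero_dvd h)
      have h2 : 0 ∉ V := by
        intro h
        exact absurd (hVodd 0 h) (by decide)
      have h3 : 0 ∉ (if Even n then V.image (fun g => w * g) else ∅) := by
        split_ifs
        · rw [Finset.mem_image]
          rintro ⟨g, hg, hg1⟩
          rcases Nat.mul_eq_zero.1 hg1 with h | h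
          · rw [hwj] at h
            exact absurd h (by positivity)
          · rw [h] at hg
            exact h2 hg
        · simp
      simp only [h1, h2, h3, false_and, or_self]
    obtain ⟨j, g', hg', rfl⟩ := Nat.exists_eq_two_pow_mul_odd hg0
    have hdv : 2 ^ j * g' ∣ D ↔ j ≤ k + 1 ∧ g' ∣ m := by
      rw [hD]
      have c1 : Nat.Coprime (2 ^ j) m := Nat.Coprime.pow_left _ (Nat.coprime_two_left.2 hm)
      have c2 : Nat.Coprime g' (2 ^ (k + 1)) :=
        Nat.Coprime.pow_right _ (Nat.coprime_two_right.2 hg')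
      constructor
      · intro h
        refine ⟨?_, ?_⟩
        · have h1 : 2 ^ j ∣ 2 ^ (k + 1) := c1.dvd_of_dvd_mul_right ((dvd_mul_right _ _).trans h)
          exact (Nat.pow_dvd_pow_iff_le_right (by norm_num)).1 h1
        · exact c2.dvd_of_dvd_mul_left ((dvd_mul_left _ _).trans h)
      · rintro ⟨h1, h2⟩
        exact Nat.mul_dvd_mul (pow_dvd_pow _ h1) h2
    have hsup : supE D (2 ^ j * g') n ↔ g' ∣ n ∧ (j = 0 ∨ w = 2 ^ j) := by
      unfold supE
      rw [oddp_eq j hg', twop_eq j hg', hD, twop_eq (k + 1) hm, Int.gcd_natCast_natCast,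
        Int.natCast_dvd_natCast]
      have : Odd (2 ^ j * g') ↔ j = 0 := by
        constructor
        · intro h
          by_contra h0
          rw [Nat.odd_mul, Nat.odd_pow_iff h0] at h
          exact absurd h.1 (by decide)
        · rintro rfl
          simpa using hg'
      rw [this, hw]
    have hVj : 2 ^ j * g' ∈ V ↔ j = 0 ∧ g' ∣ m ∧ g' ∣ n := by
      constructor
      · intro h
        have h1 := hVodd _ h
        have h2 : j = 0 := by
          by_contra h0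
          rw [Nat.odd_mul, Nat.odd_pow_iff h0] at h1
          exact absurd h1.1 (by decide)
        subst h2
        rw [pow_zero, one_mul, hV, Finset.mem_filter, Nat.mem_divisors] at h
        exact ⟨rfl, h.1.1, h.2⟩
      · rintro ⟨rfl, h1, h2⟩
        rw [pow_zero, one_mul, hV, Finset.mem_filter, Nat.mem_divisors]
        exact ⟨⟨h1, hm0⟩, h2⟩
    rw [hdv, hsup, hVj]
    constructor
    · rintro ⟨⟨h1, h2⟩, h3, h4⟩
      by_cases hj : j = 0
      · exact Or.inl ⟨hj, h2, h3⟩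
      · right
        have h5 : w = 2 ^ j := h4.resolve_left hj
        have h6 : Even n := by
          rw [hpar]
          rintro rfl
          rw [h5, pow_zero] at hwj
          exact hj (Nat.pow_eq_one.1 hwj |>.resolve_left (by norm_num))
        rw [if_pos h6, Finset.mem_image]
        refine ⟨g', ?_, by rw [h5]⟩
        rw [hV, Finset.mem_filter, Nat.mem_divisors]
        exact ⟨⟨h2, hm0⟩, h3⟩
    · rintro (⟨h1, h2, h3⟩ | h)
      · exact ⟨⟨by omega, h2⟩, h3, Or.inl h1⟩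
      · split_ifs at h with he
        · rw [Finset.mem_image] at h
          obtain ⟨g, hg, hg1⟩ := h
          have hgo := hVodd g hg
          rw [hwj] at hg1
          have e1 := oddp_eq j0 hgo
          have e2 := twop_eq j0 hgo
          rw [hg1, oddp_eq j hg'] at e1
          rw [hg1, twop_eq j hg'] at e2
          subst e1
          rw [hV, Finset.mem_filter, Nat.mem_divisors] at hg
          have e3 : j = j0 := Nat.pow_right_injective (le_refl 2) e2
          exact ⟨⟨by omega, hg.1.1⟩, hg.2, Or.inr (by rw [hwj, e2])⟩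
        · simp at h
  rw [hset, finsum_mem_coe_finset, Finset.sum_union]
  · have s1 : ∑ g ∈ V, epsE D g c = ∑ g ∈ V, jacobiSym c g :=
      Finset.sum_congr rfl fun g hg => by
        unfold epsE
        rw [if_pos (hVodd g hg)]
    rw [s1, add_mul, one_mul]
    congr 1
    split_ifs with he
    · rw [Finset.sum_image, Finset.mul_sum]
      · refine Finset.sum_congr rfl fun g hg => ?_
        have hj0 := hpar.1 he
        have hg' := hg
        rw [hV, Finset.mem_filter, Nat.mem_divisors] at hg'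
        have hno : ¬ Odd (w * g) := by
          rw [hwj, Nat.odd_mul, Nat.odd_pow_iff hj0]
          intro h
          exact absurd h.1 (by decide)
        unfold epsE
        rw [if_neg hno]
        have e1 : D / (w * g) = 2 ^ (k + 1 - j0) * (m / g) := by
          rw [hD, hwj, ← Nat.div_mul_div_comm (pow_dvd_pow _ (by assumption)) hg'.1.1,
            Nat.pow_div (by assumption) (by norm_num)]
        have e2 : Odd (m / g) := Odd.of_dvd_nat hm (Nat.div_dvd_of_dvd hg'.1.1)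
        rw [e1, oddp_eq _ e2, jac_div hc hm0 hg'.1.1]
      · intro g _ g' _ h
        have hw0 : w ≠ 0 := by rw [hwj]; positivity
        exact Nat.eq_of_mul_eq_mul_left (Nat.pos_of_ne_zero hw0) h
    · simp
  · rw [Finset.disjoint_left]
    intro g hg hg2
    split_ifs at hg2 with he
    · rw [Finset.mem_image] at hg2
      obtain ⟨g', -, rfl⟩ := hg2
      have h1 := hVodd _ hg
      rw [hwj, Nat.odd_mul, Nat.odd_pow_iff (hpar.1 he)] at h1
      exact absurd h1.1 (by decide)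
    · simp at hg2

/-! ### Chinese remainder theorem -/

section

variable {F : Type} [Field F] [NumberField F]

theorem count {D K m : ℕ} (hKm : K.Coprime m) (hK : 2 ∣ K) (hD : D = 2 * (K * m)) (hK0 : K ≠ 0)
    (hm0 : m ≠ 0) {n0 : ℤ} (hmn : (m : ℤ) ∣ n0) {s t : 𝓞 F}
    (hsurj : ∀ x : 𝓞 F, ∃ a b : ℤ, x = a + b * t) (ht : t ^ 2 = -(n0 : 𝓞 F))
    (hdv : ∀ a b : ℤ, s ∣ (a : 𝓞 F) + b * t ↔ ((K * m : ℕ) : ℤ) ∣ a ∧ (2 : ℤ) ∣ b)
    (hN : ∀ a b : ℤ, (Ideal.absNorm (Ideal.span {(a : 𝓞 F) + b * t}) : ℤ) = a ^ 2 + n0 * b ^ 2)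
    (hcong : ∀ x y : 𝓞 F, s ∣ x - y → (Ideal.absNorm (Ideal.span {x}) : ZMod D) =
      (Ideal.absNorm (Ideal.span {y}) : ZMod D))
    (a b : Ideal (𝓞 F)) (x1 x2 y1 y2 : ℤ) :
    Nat.card {ρ : 𝓞 F ⧸ Ideal.span {s} // RhoOK D s a b ρ ∧
      Ideal.Quotient.mk (Ideal.span {s}) ((x1 : 𝓞 F) + x2 * t) =
        ρ * Ideal.Quotient.mk (Ideal.span {s}) ((y1 : 𝓞 F) + y2 * t)} =
    Nat.card {v : ZMod K × ZMod 2 // P2 K n0 (Ideal.absNorm a) (Ideal.absNorm b) x1 x2 y1 y2
      v.1.val v.2.val} * RhoAux.RR (Ideal.absNorm a) (Ideal.absNorm b) x1 y1 m := by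
  have : NeZero K := ⟨hK0⟩
  have : NeZero m := ⟨hm0⟩
  set A : ℕ := Ideal.absNorm a with hA
  set B : ℕ := Ideal.absNorm b with hB
  have hdvd : ∀ z w : 𝓞 F, Ideal.Quotient.mk (Ideal.span {s}) z =
      Ideal.Quotient.mk (Ideal.span {s}) w ↔ s ∣ z - w := by
    intro z w
    rw [Ideal.Quotient.eq, Ideal.mem_span_singleton]
  -- representatives
  have hR : ∀ (i : ZMod K) (j : ZMod m), ∃ R : ℤ, (K : ℤ) ∣ R - i.val ∧ (m : ℤ) ∣ R - j.val := by
    intro i j
    obtain ⟨R, h1, h2⟩ := Nat.chineseRemainder hKm i.val j.val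
    exact ⟨R, Nat.modEq_iff_dvd.1 h1.symm, Nat.modEq_iff_dvd.1 h2.symm⟩
  choose R hR1 hR2 using hR
  let f : (ZMod K × ZMod 2) × ZMod m → 𝓞 F ⧸ Ideal.span {s} := fun v =>
    Ideal.Quotient.mk (Ideal.span {s}) ((R v.1.1 v.2 : 𝓞 F) + ((v.1.2.val : ℤ) : 𝓞 F) * t)
  have hKmZ : IsCoprime (K : ℤ) (m : ℤ) := Nat.isCoprime_iff_coprime.2 hKm
  have hKmd : ∀ z : ℤ, ((K * m : ℕ) : ℤ) ∣ z ↔ (K : ℤ) ∣ z ∧ (m : ℤ) ∣ z := by
    intro z
    push_cast
    exact ⟨fun h => ⟨(dvd_mul_right _ _).trans h, (dvd_mul_left _ _).trans h⟩,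
      fun h => hKmZ.mul_dvd h.1 h.2⟩
  have hval : ∀ {N : ℕ} [NeZero N] (i i' : ZMod N), (N : ℤ) ∣ (i.val : ℤ) - i'.val → i = i' := by
    intro N _ i i' h
    have := (ZMod.intCast_zmod_eq_zero_iff_dvd _ N).2 h
    push_cast at this
    rw [ZMod.natCast_zmod_val, ZMod.natCast_zmod_val] at this
    exact sub_eq_zero.1 this
  have hval2 : ∀ {N : ℕ} [NeZero N] (z : ℤ), (N : ℤ) ∣ (((z : ZMod N)).val : ℤ) - z := by
    intro N _ z
    rw [← ZMod.intCast_zmod_eq_zero_iff_dvd]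
    push_cast
    rw [ZMod.natCast_zmod_val, sub_self]
  have hf : Function.Bijective f := by
    constructor
    · rintro ⟨⟨i, u⟩, j⟩ ⟨⟨i', u'⟩, j'⟩ h
      rw [hdvd] at h
      have e : ((R i j : ℤ) : 𝓞 F) + ((u.val : ℤ) : 𝓞 F) * t -
          (((R i' j' : ℤ) : 𝓞 F) + ((u'.val : ℤ) : 𝓞 F) * t) =
          ((R i j - R i' j' : ℤ) : 𝓞 F) + (((u.val : ℤ) - u'.val : ℤ) : 𝓞 F) * t := by
        push_cast
        ring
      dsimp only at h
      rw [e, hdv, hKmd] at h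
      obtain ⟨⟨h1, h2⟩, h3⟩ := h
      have g1 : i = i' := hval i i' (by
        have := (h1.sub (hR1 i j)).add (hR1 i' j')
        have e2 : R i j - R i' j' - (R i j - i.val) + (R i' j' - i'.val) =
          (i.val : ℤ) - i'.val := by ring
        rwa [e2] at this)
      have g2 : j = j' := hval j j' (by
        have := (h2.sub (hR2 i j)).add (hR2 i' j')
        have e2 : R i j - R i' j' - (R i j - j.val) + (R i' j' - j'.val) =
          (j.val : ℤ) - j'.val := by ring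
        rwa [e2] at this)
      have g3 : u = u' := hval u u' (by exact_mod_cast h3)
      rw [g1, g2, g3]
    · intro ρ
      obtain ⟨z, rfl⟩ := Ideal.Quotient.mk_surjective ρ
      obtain ⟨z1, z2, rfl⟩ := hsurj z
      refine ⟨((z1, z2), z1), ?_⟩
      rw [hdvd]
      dsimp only
      have e : ((R (z1 : ZMod K) (z1 : ZMod m) : ℤ) : 𝓞 F) +
          ((((z2 : ZMod 2)).val : ℤ) : 𝓞 F) * t - ((z1 : 𝓞 F) + z2 * t) =
          ((R (z1 : ZMod K) (z1 : ZMod m) - z1 : ℤ) : 𝓞 F) +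
            (((((z2 : ZMod 2)).val : ℤ) - z2 : ℤ) : 𝓞 F) * t := by
        push_cast
        ring
      rw [e, hdv, hKmd]
      refine ⟨⟨?_, ?_⟩, hval2 z2⟩
      · have := (hR1 (z1 : ZMod K) (z1 : ZMod m)).add (hval2 (N := K) z1)
        simpa using this
      · have := (hR2 (z1 : ZMod K) (z1 : ZMod m)).add (hval2 (N := m) z1)
        simpa using this
  have hOK : ∀ z1 z2 : ℤ, RhoOK D s a b (Ideal.Quotient.mk (Ideal.span {s})
      ((z1 : 𝓞 F) + z2 * t)) ↔ (D : ℤ) ∣ (z1 ^ 2 + n0 * z2 ^ 2) * B - A := by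
    intro z1 z2
    have e : (D : ℤ) ∣ (z1 ^ 2 + n0 * z2 ^ 2) * B - A ↔
        (Ideal.absNorm (Ideal.span {(z1 : 𝓞 F) + z2 * t}) : ZMod D) * (B : ZMod D) =
          (A : ZMod D) := by
      rw [← hN, ← ZMod.intCast_zmod_eq_zero_iff_dvd]
      push_cast
      rw [sub_eq_zero]
    rw [e]
    constructor
    · rintro ⟨x, hx, hx2⟩
      rw [hdvd] at hx
      rw [← hcong _ _ hx]
      exact hx2
    · intro h
      exact ⟨_, rfl, h⟩
  have hiff : ∀ v : (ZMod K × ZMod 2) × ZMod m,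
      ((P2 K n0 A B x1 x2 y1 y2 v.1.1.val v.1.2.val) ∧
        (v.2 ^ 2 * ((B : ℤ) : ZMod m) = ((A : ℤ) : ZMod m) ∧
          (x1 : ZMod m) = v.2 * (y1 : ZMod m))) ↔
      (RhoOK D s a b (f v) ∧ Ideal.Quotient.mk (Ideal.span {s}) ((x1 : 𝓞 F) + x2 * t) =
        f v * Ideal.Quotient.mk (Ideal.span {s}) ((y1 : 𝓞 F) + y2 * t)) := by
    rintro ⟨⟨i, u⟩, j⟩
    have e1 : RhoOK D s a b (f ((i, u), j)) ↔
        (D : ℤ) ∣ ((R i j) ^ 2 + n0 * (u.val : ℤ) ^ 2) * B - A := hOK _ _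
    have e2 : Ideal.Quotient.mk (Ideal.span {s}) ((x1 : 𝓞 F) + x2 * t) =
        f ((i, u), j) * Ideal.Quotient.mk (Ideal.span {s}) ((y1 : 𝓞 F) + y2 * t) ↔
        ((K * m : ℕ) : ℤ) ∣ x1 - (R i j * y1 - n0 * ((u.val : ℤ) * y2)) ∧
        (2 : ℤ) ∣ x2 - (R i j * y2 + (u.val : ℤ) * y1) := by
      rw [show f ((i, u), j) = Ideal.Quotient.mk (Ideal.span {s})
        ((R i j : 𝓞 F) + ((u.val : ℤ) : 𝓞 F) * t) from rfl, ← map_mul, hdvd, ← hdv]
      have e3 : (x1 : 𝓞 F) + x2 * t - ((R i j : 𝓞 F) + ((u.val : ℤ) : 𝓞 F) * t) *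
          ((y1 : 𝓞 F) + y2 * t) =
          ((x1 - (R i j * y1 - n0 * ((u.val : ℤ) * y2)) : ℤ) : 𝓞 F) +
          ((x2 - (R i j * y2 + (u.val : ℤ) * y1) : ℤ) : 𝓞 F) * t := by
        push_cast
        linear_combination -((u.val : ℕ) : 𝓞 F) * y2 * ht
      rw [e3]
    rw [e1, e2]
    obtain ⟨p, hp⟩ := hR1 i j
    obtain ⟨q, hq⟩ := hR2 i j
    obtain ⟨κ, hκ⟩ := hK
    have hκZ : (K : ℤ) = 2 * κ := by exact_mod_cast hκ
    obtain ⟨l, hl⟩ := hmn
    have hcop : IsCoprime ((2 * K : ℕ) : ℤ) (m : ℤ) := by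
      rw [Nat.isCoprime_iff_coprime]
      refine Nat.Coprime.mul_left (Nat.Coprime.coprime_dvd_left ?_ hKm) hKm
      exact ⟨κ, hκ⟩
    have d1 : (D : ℤ) ∣ ((R i j) ^ 2 + n0 * (u.val : ℤ) ^ 2) * B - A ↔
        ((2 * K : ℕ) : ℤ) ∣ ((i.val : ℤ) ^ 2 + n0 * (u.val : ℤ) ^ 2) * B - A ∧
        j ^ 2 * ((B : ℤ) : ZMod m) = ((A : ℤ) : ZMod m) := by
      have f0 : (D : ℤ) ∣ ((R i j) ^ 2 + n0 * (u.val : ℤ) ^ 2) * B - A ↔
          ((2 * K : ℕ) : ℤ) ∣ ((R i j) ^ 2 + n0 * (u.val : ℤ) ^ 2) * B - A ∧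
          (m : ℤ) ∣ ((R i j) ^ 2 + n0 * (u.val : ℤ) ^ 2) * B - A := by
        have : (D : ℤ) = ((2 * K : ℕ) : ℤ) * m := by rw [hD]; push_cast; ring
        rw [this]
        exact ⟨fun h => ⟨(dvd_mul_right _ _).trans h, (dvd_mul_left _ _).trans h⟩,
          fun h => hcop.mul_dvd h.1 h.2⟩
      have f1 : ((2 * K : ℕ) : ℤ) ∣ (((R i j) ^ 2 + n0 * (u.val : ℤ) ^ 2) * B - A) -
          (((i.val : ℤ) ^ 2 + n0 * (u.val : ℤ) ^ 2) * B - A) := by
        have hRi : R i j = i.val + K * p := by linear_combination hp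
        refine ⟨(p * i.val + κ * p ^ 2) * B, ?_⟩
        rw [hRi]
        push_cast
        linear_combination (K : ℤ) * p ^ 2 * B * hκZ
      have f2 : (m : ℤ) ∣ (((R i j) ^ 2 + n0 * (u.val : ℤ) ^ 2) * B - A) -
          ((j.val : ℤ) ^ 2 * B - A) := by
        have hRj : R i j = j.val + m * q := by linear_combination hq
        refine ⟨(2 * q * j.val + m * q ^ 2 + l * (u.val : ℤ) ^ 2) * B, ?_⟩
        rw [hRj, hl]
        ring
      rw [f0, dvd_iff_dvd_of_dvd_sub f1, dvd_iff_dvd_of_dvd_sub f2,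
        ← ZMod.intCast_zmod_eq_zero_iff_dvd _ m]
      push_cast
      rw [ZMod.natCast_zmod_val, sub_eq_zero]
    have d2 : ((K * m : ℕ) : ℤ) ∣ x1 - (R i j * y1 - n0 * ((u.val : ℤ) * y2)) ↔
        (K : ℤ) ∣ x1 - ((i.val : ℤ) * y1 - n0 * ((u.val : ℤ) * y2)) ∧
        (x1 : ZMod m) = j * (y1 : ZMod m) := by
      have f1 : (K : ℤ) ∣ (x1 - (R i j * y1 - n0 * ((u.val : ℤ) * y2))) -
          (x1 - ((i.val : ℤ) * y1 - n0 * ((u.val : ℤ) * y2))) := by
        have hRi : R i j = i.val + K * p := by linear_combination hp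
        refine ⟨-(p * y1), ?_⟩
        rw [hRi]
        ring
      have f2 : (m : ℤ) ∣ (x1 - (R i j * y1 - n0 * ((u.val : ℤ) * y2))) -
          (x1 - (j.val : ℤ) * y1) := by
        have hRj : R i j = j.val + m * q := by linear_combination hq
        refine ⟨-(q * y1) + l * ((u.val : ℤ) * y2), ?_⟩
        rw [hRj, hl]
        ring
      rw [hKmd, dvd_iff_dvd_of_dvd_sub f1, dvd_iff_dvd_of_dvd_sub f2,
        ← ZMod.intCast_zmod_eq_zero_iff_dvd _ m]
      push_cast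
      rw [ZMod.natCast_zmod_val, sub_eq_zero]
    have d3 : (2 : ℤ) ∣ x2 - (R i j * y2 + (u.val : ℤ) * y1) ↔
        (2 : ℤ) ∣ x2 - ((i.val : ℤ) * y2 + (u.val : ℤ) * y1) := by
      apply dvd_iff_dvd_of_dvd_sub
      have hRi : R i j = i.val + K * p := by linear_combination hp
      refine ⟨-(κ * p * y2), ?_⟩
      rw [hRi]
      linear_combination -(p * y2) * hκZ
    rw [d1, d2, d3]
    unfold P2
    tauto
  unfold RhoAux.RR
  rw [← Nat.card_prod]
  refine (Nat.card_congr ?_).symm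
  refine (Equiv.subtypeProdEquivProd (p := fun v : ZMod K × ZMod 2 =>
      P2 K n0 A B x1 x2 y1 y2 v.1.val v.2.val) (q := fun z : ZMod m =>
      z ^ 2 * ((B : ℤ) : ZMod m) = ((A : ℤ) : ZMod m) ∧ (x1 : ZMod m) = z * (y1 : ZMod m))).symm.trans
    ((Equiv.ofBijective f hf).subtypeEquiv ?_)
  exact hiff


end

/-! ### the odd part -/

theorem sum_nonneg {m c : ℕ} (hm : Odd m) (hsq : Squarefree m) (hc : c.Coprime m) (n : ℕ) :
    0 ≤ ∑ g ∈ m.divisors with g ∣ n, jacobiSym c g := by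
  have hm0 : m ≠ 0 := hsq.ne_zero
  set l := Nat.gcd m n with hl
  have hlm : l ∣ m := Nat.gcd_dvd_left _ _
  have hl0 : l ≠ 0 := fun h => hm0 (by rw [h] at hlm; exact Nat.eq_zero_of_zero_dvd hlm)
  have hcl : c.Coprime l := Nat.Coprime.coprime_dvd_right hlm hc
  have e1 : m.divisors.filter (fun g => g ∣ n) = l.divisors := by
    ext g
    rw [Finset.mem_filter, Nat.mem_divisors, Nat.mem_divisors, hl, Nat.dvd_gcd_iff]
    constructor
    · rintro ⟨⟨h1, -⟩, h2⟩
      exact ⟨⟨h1, h2⟩, hl0⟩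
    · rintro ⟨⟨h1, h2⟩, -⟩
      exact ⟨⟨h1, hm0⟩, h2⟩
  rw [e1]
  have h := RhoAux.key l (hsq.squarefree_of_dvd hlm) (Odd.of_dvd_nat hm hlm) (A := (c : ℤ))
    (B := 1) (x := 0) (y := 0) (Nat.isCoprime_iff_coprime.2 hcl) isCoprime_one_left (by simp)
  unfold RhoAux.LL at h
  simp only [dvd_zero, and_self, if_true, mul_one] at h
  rw [← Nat.sum_div_divisors l (fun g => jacobiSym c g), h]
  positivity

theorem fin_step {m : ℕ} (hm : Odd m) (hsq : Squarefree m) {A B : ℕ} (hA : A.Coprime m)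
    (hB : B.Coprime m) {x1 y1 n0 x2 y2 : ℤ} {n n' : ℕ} (hx : x1 ^ 2 + n0 * x2 ^ 2 = n * A)
    (hy : y1 ^ 2 + n0 * y2 ^ 2 = n' * B) (hmn : (m : ℤ) ∣ n0) (hnn : (m : ℤ) ∣ (n : ℤ) - n')
    {cnt : ℤ} (hcnt : cnt = 1 + if Even n then jacobiSym ((A * B : ℕ) : ℤ) m else 0) :
    cnt * RhoAux.RR A B x1 y1 m =
      (1 + if Even n then jacobiSym ((A * B : ℕ) : ℤ) m else 0) *
        ∑ g ∈ m.divisors with g ∣ n, jacobiSym ((A * B : ℕ) : ℤ) g := by
  have hm0 : m ≠ 0 := hsq.ne_zero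
  have hc : (A * B).Coprime m := hA.mul_left hB
  set c : ℕ := A * B with hcdef
  set δ := jacobiSym (c : ℤ) m with hδ
  have hδ1 : δ ^ 2 = 1 := by
    apply jacobiSym.sq_one
    rw [Int.gcd_natCast_natCast]
    exact hc
  obtain ⟨l, hl⟩ := hmn
  obtain ⟨q, hq⟩ := hnn
  have hAZ : IsCoprime (A : ℤ) (m : ℤ) := Nat.isCoprime_iff_coprime.2 hA
  have hBZ : IsCoprime (B : ℤ) (m : ℤ) := Nat.isCoprime_iff_coprime.2 hB
  have hkey := RhoAux.key m hsq hm (A := (A : ℤ)) (B := (B : ℤ)) (x := x1) (y := y1) hAZ hBZ (by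
    refine ⟨q * A * B - l * x2 ^ 2 * B + l * y2 ^ 2 * A, ?_⟩
    rw [hl] at hx hy
    linear_combination (B : ℤ) * hx - (A : ℤ) * hy + (A : ℤ) * B * hq)
  have hLL : RhoAux.LL ((A : ℤ) * B) x1 y1 m =
      δ * ∑ g ∈ m.divisors with g ∣ n, jacobiSym (c : ℤ) g := by
    unfold RhoAux.LL
    rw [Finset.mul_sum, Finset.sum_filter]
    refine Finset.sum_congr rfl fun g hg => ?_
    have hgm := (Nat.mem_divisors.1 hg).1
    have hgsq : Squarefree (g : ℤ) := Int.squarefree_natCast.2 (hsq.squarefree_of_dvd hgm)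
    have hgmZ : (g : ℤ) ∣ (m : ℤ) := by exact_mod_cast hgm
    have hgA : IsCoprime (g : ℤ) (A : ℤ) := (hAZ.of_isCoprime_of_dvd_right hgmZ).symm
    have hgB : IsCoprime (g : ℤ) (B : ℤ) := (hBZ.of_isCoprime_of_dvd_right hgmZ).symm
    have hiff : ((g : ℤ) ∣ x1 ∧ (g : ℤ) ∣ y1) ↔ g ∣ n := by
      rw [← Int.natCast_dvd_natCast]
      have hgn0 : (g : ℤ) ∣ n0 := hgmZ.trans ⟨l, hl⟩
      have hgnn : (g : ℤ) ∣ (n : ℤ) - n' := hgmZ.trans ⟨q, hq⟩
      have e1 : (g : ℤ) ∣ x1 ↔ (g : ℤ) ∣ n := by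
        rw [← hgsq.dvd_pow_iff_dvd two_ne_zero, ← dvd_add_left (hgn0.mul_right (x2 ^ 2)), hx]
        exact ⟨fun h => hgA.dvd_of_dvd_mul_right h, fun h => h.mul_right _⟩
      have e2 : (g : ℤ) ∣ y1 ↔ (g : ℤ) ∣ n' := by
        rw [← hgsq.dvd_pow_iff_dvd two_ne_zero, ← dvd_add_left (hgn0.mul_right (y2 ^ 2)), hy]
        exact ⟨fun h => hgB.dvd_of_dvd_mul_right h, fun h => h.mul_right _⟩
      rw [e1, e2, dvd_iff_dvd_of_dvd_sub hgnn]
      tauto
    by_cases hgn : g ∣ n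
    · rw [if_pos (hiff.2 hgn), if_pos hgn]
      have := jac_div hc hm0 hgm
      rw [← hδ] at this
      rw [← this, hcdef]
      push_cast
      rfl
    · rw [if_neg (fun h => hgn (hiff.1 h)), if_neg hgn]
  have hS := sum_nonneg hm hsq hc n
  rw [hLL] at hkey
  rw [← hkey, hcnt]
  by_cases hn : Even n
  · rw [if_pos hn]
    linear_combination (∑ g ∈ m.divisors with g ∣ n, jacobiSym (c : ℤ) g) * hδ1
  · rw [if_neg hn]
    have hR : (0 : ℤ) ≤ RhoAux.RR (A : ℤ) B x1 y1 m := by positivity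
    rw [← hkey] at hR
    have : δ = 1 ∨ δ = -1 := sq_eq_one_iff.1 hδ1
    rcases this with h | h
    · rw [h]; ring
    · rw [h] at hR ⊢
      have : ∑ g ∈ m.divisors with g ∣ n, jacobiSym (c : ℤ) g = 0 := by linarith
      rw [this]
      ring

/-! ### the character at norms -/

theorem kr_mul (D a b : ℕ) : kr D (a * b) = kr D a * kr D b := by
  unfold kr
  by_cases ha : Even a
  · rw [if_pos ha, if_pos (ha.mul_right b), zero_mul]
  by_cases hb : Even b
  · rw [if_pos hb, if_pos (hb.mul_left a), mul_zero]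
  rw [if_neg ha, if_neg hb, if_neg]
  · have : NeZero a := ⟨by rintro rfl; exact ha (by decide)⟩
    have : NeZero b := ⟨by rintro rfl; exact hb (by decide)⟩
    exact jacobiSym.mul_right _ a b
  · rw [Nat.even_mul]
    tauto

section

variable {F : Type} [Field F] [NumberField F] {D : ℕ} {s : 𝓞 F} {σ : F →+* ℂ}
  {χ : DirichletCharacter ℂ D} {cj : 𝓞 F ≃+* 𝓞 F}

theorem kr_prime (hS : StSplitE) (hd : DatE D s σ χ cj) {P : Ideal (𝓞 F)} (hP : P.IsPrime)
    (hP0 : P ≠ ⊥) (hc : IsCoprime P (Ideal.span {s})) : kr D (Ideal.absNorm P) = 1 := by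
  obtain ⟨p, hp, hpP⟩ := Genm.exists_prime_mem hP (Ideal.absNorm P)
    (fun h => hP0 (Ideal.absNorm_eq_zero_iff.1 h)) (Ideal.absNorm_mem P)
  have hle : Ideal.span {(p : 𝓞 F)} ≤ P := (Ideal.span_singleton_le_iff_mem P).2 hpP
  obtain ⟨h1, h2, h3⟩ := hS D F _ _ s σ χ cj hd p hp
  have htri : kr D p = 0 ∨ kr D p = 1 ∨ kr D p = -1 := by
    unfold kr
    split_ifs
    · exact Or.inl rfl
    · exact jacobiSym.trichotomy _ _
  rcases htri with hj | hj | hj
  · exfalso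
    obtain ⟨⟨q, hq⟩, -⟩ := h3 hj
    have hs : s ∈ P := by
      apply hP.mem_of_pow_mem 2
      rw [hd.sq, hq]
      push_cast
      exact P.neg_mem (P.mul_mem_right _ hpP)
    have hsl : Ideal.span {s} ≤ P := (Ideal.span_singleton_le_iff_mem P).2 hs
    rw [Ideal.isCoprime_iff_sup_eq, sup_eq_left.2 hsl] at hc
    exact hP.ne_top hc
  · obtain ⟨P1, P2, hP1, hP2, -, hmul, hn1, hn2⟩ := h1 hj
    rw [← hmul] at hle
    rcases hP.mul_le.1 hle with h | h
    · have := Genm.eq_of_le_prime hP1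
        (Genm.ne_bot_of_absNorm (by rw [hn1]; exact hp.ne_zero)) hP h
      rw [← this, hn1, hj]
    · have := Genm.eq_of_le_prime hP2
        (Genm.ne_bot_of_absNorm (by rw [hn2]; exact hp.ne_zero)) hP h
      rw [← this, hn2, hj]
  · obtain ⟨hpr, hn⟩ := h2 hj
    have := Genm.eq_of_le_prime hpr
      (Genm.ne_bot_of_absNorm (by rw [hn]; exact pow_ne_zero _ hp.ne_zero)) hP hle
    rw [← this, hn, pow_two, kr_mul, hj]
    norm_num

theorem kr_norm (hS : StSplitE) (hd : DatE D s σ χ cj) (a : Ideal (𝓞 F)) :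
    a ≠ 0 → IsCoprime a (Ideal.span {s}) → kr D (Ideal.absNorm a) = 1 := by
  refine UniqueFactorizationMonoid.induction_on_prime a (fun h => absurd rfl h) ?_ ?_
  · intro x hx _ _
    rw [Ideal.isUnit_iff] at hx
    rw [hx, Ideal.absNorm_top]
    unfold kr
    rw [if_neg (by decide), jacobiSym.one_right]
  · intro b P hb hP ih _ hc
    have h1 := kr_prime hS hd (Ideal.isPrime_of_prime hP) hP.ne_zero hc.of_mul_left_left
    rw [map_mul, kr_mul, h1, ih hb hc.of_mul_left_right, one_mul]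

end

end KeyEAux

open KeyEAux in
/-- Module H31a. -/
theorem stKeyE (h1 : StBasE) (h2 : StSplitE) : StKeyE := by
  intro D F _ _ s σ χ cj H a b x y n n' ha hb has hbs _ _ hx hy hnn
  obtain ⟨⟨t, hst, ht, hsurj, hdv, hN⟩, -, -, -, -, -, -, -, -, hcong⟩ := h1 D F _ _ s σ χ cj H
  obtain ⟨hD4, q, hD, hsq, hmod⟩ := H.ev
  have hDq : D / 4 = q := by omega
  have hD2 : D / 2 = 2 * q := by omega
  rw [hDq] at ht hN
  rw [hD2] at hdv
  have hq0 : q ≠ 0 := hsq.ne_zero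
  set A : ℕ := Ideal.absNorm a with hA
  set B : ℕ := Ideal.absNorm b with hB
  have kA := kr_norm h2 H a ha has
  have kB := kr_norm h2 H b hb hbs
  rw [← hA] at kA
  rw [← hB] at kB
  have kAB : kr D (A * B) = 1 := by rw [kr_mul, kA, kB, one_mul]
  have kOdd : ∀ c : ℕ, kr D c = 1 → Odd c ∧ jacobiSym (-(q : ℤ)) c = 1 ∧ c.Coprime q := by
    intro c hc
    unfold kr at hc
    rw [hDq] at hc
    have he : ¬ Even c := by
      intro he
      rw [if_pos he] at hc
      exact absurd hc (by norm_num)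
    rw [if_neg he] at hc
    refine ⟨Nat.not_even_iff_odd.1 he, hc, ?_⟩
    have hc0 : c ≠ 0 := by rintro rfl; exact he (by decide)
    by_contra hcop
    have : NeZero c := ⟨hc0⟩
    have := (jacobiSym.eq_zero_iff_not_coprime (a := -(q : ℤ)) (b := c)).2 (by
      rw [Int.neg_gcd, Int.gcd_natCast_natCast]
      exact fun h => hcop (Nat.Coprime.symm h))
    rw [this] at hc
    exact absurd hc (by norm_num)
  obtain ⟨oA, -, cA⟩ := kOdd A kA
  obtain ⟨oB, -, cB⟩ := kOdd B kB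
  obtain ⟨oAB, jAB, cAB⟩ := kOdd _ kAB
  obtain ⟨x1, x2, rfl⟩ := hsurj x
  obtain ⟨y1, y2, rfl⟩ := hsurj y
  have hx' : x1 ^ 2 + (q : ℤ) * x2 ^ 2 = n * A := by
    rw [← hN, hx]
    push_cast
    rfl
  have hy' : y1 ^ 2 + (q : ℤ) * y2 ^ 2 = n' * B := by
    rw [← hN, hy]
    push_cast
    rfl
  have hnD : (D : ℤ) ∣ (n : ℤ) - n' := by
    rw [← ZMod.intCast_zmod_eq_zero_iff_dvd]
    push_cast
    rw [hnn, sub_self]
  have oAZ : Odd (A : ℤ) := by exact_mod_cast oA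
  have oBZ : Odd (B : ℤ) := by exact_mod_cast oB
  rcases hmod with hmod | hmod
  · -- `q` is odd
    have hqo : Odd q := Nat.odd_iff.2 (by omega)
    have hcnt := count (D := D) (K := 2) (m := q) (n0 := q) (s := s) (t := t)
      (Nat.coprime_two_left.2 hqo) (dvd_refl 2) (by omega) (by norm_num) hq0 dvd_rfl hsurj
      (by rw [ht]; push_cast; rfl) hdv hN hcong a b x1 x2 y1 y2
    rw [hcnt, two1 (n := n) (n' := n') (by omega) oAZ oBZ hx' hy'
      ((Int.natCast_dvd_natCast.2 ⟨q, hD⟩ : ((4 : ℕ) : ℤ) ∣ (D : ℤ)).trans hnD),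
      rhs hqo 1 (by omega) cAB n]
    push_cast
    refine fin_step hqo hsq cA cB hx' hy' dvd_rfl
      ((Int.natCast_dvd_natCast.2 ⟨4, by omega⟩ : ((q : ℕ) : ℤ) ∣ (D : ℤ)).trans hnD) ?_
    rw [recip1 hmod oAB jAB]
    push_cast
    by_cases hn : Even n
    · have hn' : ¬ Odd (n : ℤ) := by
        rw [Int.not_odd_iff_even]
        exact_mod_cast hn
      rw [if_neg hn', if_pos hn]
      split_ifs <;> norm_num
    · have hn' : Odd (n : ℤ) := by
        rw [← Int.not_even_iff_odd]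
        exact_mod_cast hn
      rw [if_pos hn', if_neg hn]
      norm_num
  · -- `q` is even
    obtain ⟨m, hm⟩ : ∃ m, q = 2 * m := ⟨q / 2, by omega⟩
    have hmo : Odd m := Nat.odd_iff.2 (by omega)
    have hm0 : m ≠ 0 := by omega
    have hmsq : Squarefree m := hsq.squarefree_of_dvd ⟨2, by omega⟩
    have hmq : m ∣ q := ⟨2, by omega⟩
    have hcnt := count (D := D) (K := 4) (m := m) (n0 := q) (s := s) (t := t)
      (by
        have : Nat.Coprime (2 ^ 2) m := Nat.Coprime.pow_left _ (Nat.coprime_two_left.2 hmo)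
        exact this) ⟨2, rfl⟩ (by omega) (by norm_num) hm0 (by exact_mod_cast hmq) hsurj
      (by rw [ht]; push_cast; rfl)
      (by
        intro a b
        rw [hdv, show 2 * q = 4 * m by omega]) hN hcong a b x1 x2 y1 y2
    rw [hcnt, two2 (n := n) (n' := n') (by omega) oAZ oBZ hx' hy'
      ((Int.natCast_dvd_natCast.2 ⟨m, by omega⟩ : ((8 : ℕ) : ℤ) ∣ (D : ℤ)).trans hnD),
      rhs hmo 2 (by omega) (Nat.Coprime.coprime_dvd_right hmq cAB) n]
    push_cast
    refine fin_step hmo hmsq (Nat.Coprime.coprime_dvd_right hmq cA)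
      (Nat.Coprime.coprime_dvd_right hmq cB) hx' hy' (by exact_mod_cast hmq)
      ((Int.natCast_dvd_natCast.2 ⟨8, by omega⟩ : ((m : ℕ) : ℤ) ∣ (D : ℤ)).trans hnD) ?_
    rw [recip2 hmo oAB (by rw [← hm]; exact jAB), hm]
    push_cast
    by_cases hn : Even n
    · have hn' : ¬ Odd (n : ℤ) := by
        rw [Int.not_odd_iff_even]
        exact_mod_cast hn
      rw [if_neg hn', if_pos hn]
      split_ifs <;> norm_num
    · have hn' : Odd (n : ℤ) := by
        rw [← Int.not_even_iff_odd]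
        exact_mod_cast hn
      rw [if_pos hn', if_neg hn]
      norm_num

end RZ

end Pool.Agent.Lib.MP_7c08ba_nt
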