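import Mathlib
import Pool.Agent.Lib.MP_7c08ba_nt.RZ.StH
import Pool.Agent.Lib.MP_7c08ba_nt.RZ.PInv

set_option autoImplicit false

/-!
The period does not depend on the representatives of the classes of ideals: even fundamental
discriminants.
-/

namespace Pool.Agent.Lib.MP_7c08ba_nt

namespace RZ

open NumberField MeasureTheory UpperHalfPlane Set
open scoped MatrixGroups ComplexConjugate nonZeroDivisors

theorem stPInvE (h : StBasE) (h2 : StBaseE) : StPInvE := by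
  intro D F _ _ s σ χ cj w r f ψ hD hψ _
  obtain ⟨-, -, -, -, hN, hNσ, hcc, -, -, -⟩ := h D F _ _ s σ χ cj hD
  obtain ⟨-, -, -, -, hg, hconj, hmul⟩ := h2 D F _ _ s σ χ cj hD
  -- the summand depends only on the ideal
  have key1 : ∀ (a : Ideal (𝓞 F)) (x y x' y' : 𝓞 F), OBasis σ a x y → OBasis σ a x' y' →
      PInvAux.Ph f r σ ψ a x y = PInvAux.Ph f r σ ψ a x' y' := by
    intro a x y x' y' hx hx'
    obtain ⟨g, e1, e2⟩ := hg a x y x' y' hx hx'
    unfold PInvAux.Ph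
    rw [e1, e2]
    have := PInvAux.lfr_sl f r g hx.pos
    rw [← this]
    simp
  -- homogeneity
  have key2 : ∀ (a : Ideal (𝓞 F)) (x y t : 𝓞 F), t ≠ 0 →
      PInvAux.Ph f r σ ψ (Ideal.span {t} * a) (t * x) (t * y) = PInvAux.Ph f r σ ψ a x y := by
    intro a x y t ht
    have ht' : σ (t : F) ≠ 0 := by
      rw [Ne, map_eq_zero]
      simpa using ht
    have hct : conj (σ (t : F)) ≠ 0 := by simpa using ht'
    unfold PInvAux.Ph
    rw [map_mul, map_mul, hψ t ht]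
    have e1 : (Ideal.absNorm (Ideal.span {t}) : ℂ) = σ (t : F) * conj (σ (t : F)) := by
      rw [Complex.mul_conj, hNσ t, Complex.ofReal_natCast]
    have e2 : σ ((t * x : 𝓞 F) : F) = σ (t : F) * σ (x : F) := by simp
    have e3 : σ ((t * y : 𝓞 F) : F) = σ (t : F) * σ (y : F) := by simp
    rw [e2, e3, PInvAux.lfr_smul f r ht', Nat.cast_mul, e1]
    rw [div_pow, mul_pow, mul_pow, pow_add, pow_mul]
    field_simp
    ring
  -- the summand depends only on the class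
  have key3 : ∀ (a b : (Ideal (𝓞 F))⁰) (x y x' y' : 𝓞 F), OBasis σ (a : Ideal (𝓞 F)) x y →
      OBasis σ (b : Ideal (𝓞 F)) x' y' → ClassGroup.mk0 a = ClassGroup.mk0 b →
      PInvAux.Ph f r σ ψ a x y = PInvAux.Ph f r σ ψ b x' y' := by
    intro a b x y x' y' ha hb hab
    obtain ⟨t, u, ht, hu, e⟩ := (ClassGroup.mk0_eq_mk0_iff).1 hab
    rw [← key2 a x y t ht, ← key2 b x' y' u hu, e]
    exact key1 _ _ _ _ _ (e ▸ hmul _ _ _ t ha ht) (hmul _ _ _ u hb hu)
  refine ⟨fun c c' => ?_, fun c => ?_⟩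
  · unfold period
    refine Finset.sum_congr rfl fun A _ => ?_
    exact key3 _ _ _ _ _ _ (c.bas A) (c'.bas A) ((c.cls A).trans (c'.cls A).symm)
  · -- conjugate ideals
    have hne : ∀ A, (c.R A : Ideal (𝓞 F)) ≠ ⊥ := fun A => nonZeroDivisors.coe_ne_zero _
    have hNn : ∀ a : Ideal (𝓞 F), a ≠ ⊥ → Ideal.absNorm a ≠ 0 := fun a ha => by
      rwa [Ne, Ideal.absNorm_eq_zero_iff]
    have hcjn : ∀ n : ℕ, cj (n : 𝓞 F) = n := fun n => map_natCast cj n
    have hspan : ∀ n : ℕ, Ideal.absNorm (Ideal.span {(n : 𝓞 F)}) = n * n := by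
      intro n
      have := hN (n : 𝓞 F)
      rw [hcjn] at this
      exact_mod_cast this.symm
    have hNc : ∀ a : Ideal (𝓞 F), a ≠ ⊥ →
        Ideal.absNorm (a.map (cj : 𝓞 F →+* 𝓞 F)) = Ideal.absNorm a := by
      intro a ha
      have e := congrArg Ideal.absNorm (hcc a)
      rw [map_mul, hspan] at e
      exact Nat.eq_of_mul_eq_mul_left (Nat.pos_of_ne_zero (hNn a ha)) e
    have hψc : ∀ a : Ideal (𝓞 F), a ≠ ⊥ →
        ψ a * ψ (a.map (cj : 𝓞 F →+* 𝓞 F)) = (Ideal.absNorm a : ℂ) ^ (w + 2 * r) := by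
      intro a ha
      rw [← map_mul, hcc a, hψ _ (by exact_mod_cast hNn a ha)]
      simp
    have hne' : ∀ a : Ideal (𝓞 F), a ≠ ⊥ → a.map (cj : 𝓞 F →+* 𝓞 F) ≠ ⊥ := by
      intro a ha h0
      have := hNc a ha
      rw [h0] at this
      exact hNn a ha (by simpa using this.symm)
    have term : ∀ A : ClassGroup (𝓞 F), (ψ (c.R A : Ideal (𝓞 F)))⁻¹ *
        (Ideal.absNorm (c.R A : Ideal (𝓞 F)) : ℂ) ^ (w + r) *
          lfr f r (-conj (σ (c.X A))) (conj (σ (c.Y A))) =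
        PInvAux.Ph f r σ ψ (c.R A⁻¹) (c.X A⁻¹) (c.Y A⁻¹) := by
      intro A
      have hb : OBasis σ ((c.R A : Ideal (𝓞 F)).map (cj : 𝓞 F →+* 𝓞 F)) (-cj (c.X A))
        (cj (c.Y A)) := hconj _ _ _ (c.bas A)
      let b : (Ideal (𝓞 F))⁰ := ⟨_, mem_nonZeroDivisors_of_ne_zero (hne' _ (hne A))⟩
      have hcls : ClassGroup.mk0 b = ClassGroup.mk0 (c.R A⁻¹) := by
        rw [c.cls, eq_inv_iff_mul_eq_one, ← c.cls A, ← map_mul, ClassGroup.mk0_eq_one_iff]
        rw [mul_comm]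
        change ((c.R A : Ideal (𝓞 F)) * (c.R A : Ideal (𝓞 F)).map (cj : 𝓞 F →+* 𝓞 F)).IsPrincipal
        rw [hcc]
        exact ⟨⟨_, rfl⟩⟩
      rw [← key3 b _ _ _ _ _ hb (c.bas A⁻¹) hcls]
      unfold PInvAux.Ph
      have eb : (b : Ideal (𝓞 F)) = (c.R A : Ideal (𝓞 F)).map (cj : 𝓞 F →+* 𝓞 F) := rfl
      rw [eb, hNc _ (hne A)]
      have hn0 : (Ideal.absNorm (c.R A : Ideal (𝓞 F)) : ℂ) ≠ 0 := by
        exact_mod_cast hNn _ (hne A)
      have hm := hψc _ (hne A)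
      have hψ0 : ψ (c.R A : Ideal (𝓞 F)) ≠ 0 := by
        intro h0
        rw [h0, zero_mul] at hm
        exact pow_ne_zero _ hn0 hm.symm
      have e1 : σ ((-cj (c.X A) : 𝓞 F) : F) = -conj (σ (c.X A)) := by
        rw [← hD.conjσ]; simp
      have e2 : σ ((cj (c.Y A) : 𝓞 F) : F) = conj (σ (c.Y A)) := hD.conjσ _
      rw [e1, e2]
      congr 1
      rw [inv_mul_eq_iff_eq_mul₀ hψ0, ← mul_assoc, hm, ← div_eq_mul_inv,
        eq_div_iff (pow_ne_zero _ hn0), ← pow_add]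
      congr 1
      ring
    rw [Finset.sum_congr rfl fun A _ => term A]
    unfold period
    exact Fintype.sum_equiv (Equiv.inv _) _ _ fun A => rfl

end RZ

end Pool.Agent.Lib.MP_7c08ba_nt
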