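import Pool.Agent.Lib.MP_7c08ba_nt.RZ.StH
import Pool.Agent.Lib.MP_7c08ba_nt.RZ.RS

set_option autoImplicit false

/-!
Module H24: the Rankin–Selberg integral in the region of convergence, every even fundamental
discriminant.
-/

namespace Pool.Agent.Lib.MP_7c08ba_nt

namespace RZ

open NumberField MeasureTheory UpperHalfPlane Set IsDedekindDomain
open scoped MatrixGroups ComplexConjugate nonZeroDivisors

namespace RSEAux

open RSAux

variable {F : Type} [Field F] [NumberField F]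

theorem bound_thE (h5 : StThBE) {D : ℕ} {s : 𝓞 F} {σ : F →+* ℂ} {χ : DirichletCharacter ℂ D}
    {cj : 𝓞 F ≃+* 𝓞 F} (hD : DatE D s σ χ cj) (k : ℕ) (ψ : Ideal (𝓞 F) →*₀ ℂ) (c : Reps σ) :
    ∃ (C : ℝ) (A : ℕ), 0 ≤ C ∧ ∀ u : ℂ, 0 < u.im →
      ‖thψ k ψ c u‖ ≤ C * (1 + (u.im ^ A)⁻¹) := by
  have hne : ∀ B : ClassGroup (𝓞 F), (c.R B : Ideal (𝓞 F)) ≠ ⊥ := fun B =>
    nonZeroDivisors.coe_ne_zero (c.R B)
  have hb : ∀ B : ClassGroup (𝓞 F), ∃ (C : ℝ) (A : ℕ), ∀ u : ℂ, 0 < u.im →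
      ‖th σ (c.R B : Ideal (𝓞 F)) k u‖ ≤ C * (1 + (u.im ^ A)⁻¹) := by
    intro B
    obtain ⟨-, -, -, -, -, -, -, -, -, -, h⟩ :=
      h5 D F _ _ s σ χ cj (c.R B : Ideal (𝓞 F)) k 0 (fun _ => 0) hD (hne B)
        (fun _ => by simp)
    exact h
  choose Cf Af hf using hb
  refine ⟨1 / 2 * ∑ B : ClassGroup (𝓞 F), ‖(ψ (c.R B : Ideal (𝓞 F)))⁻¹‖ * (2 * |Cf B|),
    Finset.univ.sup Af, by positivity, fun u hu => ?_⟩
  unfold thψ
  rw [norm_mul]
  have h2 : ‖(1 / 2 : ℂ)‖ = 1 / 2 := by norm_num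
  rw [h2, mul_assoc, Finset.sum_mul]
  refine mul_le_mul_of_nonneg_left ((norm_sum_le _ _).trans (Finset.sum_le_sum fun B _ => ?_))
    (by norm_num)
  rw [norm_mul, mul_assoc]
  refine mul_le_mul_of_nonneg_left ?_ (norm_nonneg _)
  have h3 : (u.im ^ Af B)⁻¹ ≤ 1 + (u.im ^ Finset.univ.sup Af)⁻¹ :=
    inv_pow_le hu (Finset.le_sup (Finset.mem_univ B))
  have h4 : 0 ≤ (u.im ^ Finset.univ.sup Af)⁻¹ := by positivity
  have h6 : 0 ≤ (u.im ^ Af B)⁻¹ := by positivity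
  calc ‖th σ (c.R B : Ideal (𝓞 F)) k u‖ ≤ Cf B * (1 + (u.im ^ Af B)⁻¹) := hf B u hu
    _ ≤ |Cf B| * (1 + (u.im ^ Af B)⁻¹) :=
      mul_le_mul_of_nonneg_right (le_abs_self _) (by linarith)
    _ ≤ |Cf B| * (2 * (1 + (u.im ^ Finset.univ.sup Af)⁻¹)) :=
      mul_le_mul_of_nonneg_left (by linarith) (abs_nonneg _)
    _ = _ := by ring

theorem continuousOn_thE (h5 : StThBE) {D : ℕ} {s : 𝓞 F} {σ : F →+* ℂ}
    {χ : DirichletCharacter ℂ D} {cj : 𝓞 F ≃+* 𝓞 F} (hD : DatE D s σ χ cj) (k : ℕ)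
    (ψ : Ideal (𝓞 F) →*₀ ℂ) (c : Reps σ) :
    ContinuousOn (thψ k ψ c) {u | 0 < u.im} ∧ ∀ u : ℂ, thψ k ψ c (u + 1) = thψ k ψ c u := by
  have hne : ∀ B : ClassGroup (𝓞 F), (c.R B : Ideal (𝓞 F)) ≠ ⊥ := fun B =>
    nonZeroDivisors.coe_ne_zero (c.R B)
  constructor
  · unfold thψ
    refine continuousOn_const.mul (continuousOn_finsetSum _ fun B _ => continuousOn_const.mul ?_)
    obtain ⟨-, -, h, -⟩ := h5 D F _ _ s σ χ cj (c.R B : Ideal (𝓞 F)) k 0 (fun _ => 0) hD (hne B)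
        (fun _ => by simp)
    exact h
  · intro u
    unfold thψ
    congr 1
    refine Finset.sum_congr rfl fun B _ => ?_
    obtain ⟨-, -, -, -, -, -, h, -⟩ := h5 D F _ _ s σ χ cj (c.R B : Ideal (𝓞 F)) k 0 (fun _ => 0) hD (hne B)
        (fun _ => by simp)
    rw [h u]

end RSEAux

open RSAux RSEAux in
/-- (H24) -/
theorem stRSE (h1 : StRSptE) (h2 : StUnf) (h3 : StStrip) (h4 : StThPsiE) (h5 : StThBE)
    (h6 : StCoef) : StRSE := by
  intro D hq F hF hNF s σ χ cj w r f ψ c hD hw hev hψ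
  obtain ⟨C₁, A₁, hC₁, hth⟩ := bound_thE h5 hD (w + 2 * r) ψ c
  obtain ⟨C₂, hC₂, hfb⟩ := bound_f h6 f
  obtain ⟨hcth, hpth⟩ := continuousOn_thE h5 hD (w + 2 * r) ψ c
  obtain ⟨hb0, hbn, hbexp⟩ := h4 D F hF hNF s σ χ cj (w + 2 * r) ψ c hD hψ (by omega)
  refine ⟨(A₁ : ℝ) + 2, fun t ht => ?_⟩
  have hA₁ : (0 : ℝ) ≤ A₁ := Nat.cast_nonneg A₁
  have hr0 : (0 : ℝ) ≤ r := Nat.cast_nonneg r
  have hw0 : (0 : ℝ) ≤ w := Nat.cast_nonneg w
  have ht2 : 2 < t.re := by linarith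
  set G : ℂ → ℂ := fun u : ℂ => thψ (w + 2 * r) ψ c u * f (ofComplex (-conj u)) *
    (u.im : ℂ) ^ ((w : ℂ) + 2 * r + 1 + t) with hG
  -- continuity and periodicity
  have hGc : ContinuousOn G {z | 0 < z.im} := by
    refine (hcth.mul (continuousOn_f f)).mul ?_
    refine ContinuousOn.cpow (Complex.continuous_ofReal.comp Complex.continuous_im).continuousOn
      continuousOn_const fun u hu => ?_
    exact Complex.ofReal_mem_slitPlane.mpr hu
  have hGp : ∀ z : ℂ, 0 < z.im → G (z + 1) = G z := by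
    intro z hz
    show thψ (w + 2 * r) ψ c (z + 1) * f (ofComplex (-conj (z + 1))) *
      ((z + 1).im : ℂ) ^ ((w : ℂ) + 2 * r + 1 + t) = _
    rw [hpth, periodic_f h6 f hz, Complex.add_im, Complex.one_im, add_zero]
  -- the bound
  set E : ℝ := (w : ℝ) + 2 * r + 1 + t.re with hE
  have hre : ((w : ℂ) + 2 * r + 1 + t).re = E := by
    rw [hE]
    simp
  have hGb : ∀ x y : ℝ, 0 < x → x ≤ 1 → 0 < y → ‖G (x + y * Complex.I)‖ ≤
      C₁ * (1 + (y ^ A₁)⁻¹) * (C₂ * (1 + (y ^ w)⁻¹) * Real.exp (-(2 * Real.pi * y))) * y ^ E := by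
    intro x y _ _ hy
    have him := im_xy x y
    have b1 := hth ((x : ℂ) + y * Complex.I) (by rw [him]; exact hy)
    have b2 := hfb ((x : ℂ) + y * Complex.I) (by rw [him]; exact hy)
    rw [him] at b1 b2
    have b3 : ‖((((x : ℂ) + y * Complex.I).im : ℝ) : ℂ) ^ ((w : ℂ) + 2 * r + 1 + t)‖ = y ^ E := by
      rw [him, Complex.norm_cpow_eq_rpow_re_of_pos hy, hre]
    show ‖thψ (w + 2 * r) ψ c ((x : ℂ) + y * Complex.I) *
      f (ofComplex (-conj ((x : ℂ) + y * Complex.I))) *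
      ((((x : ℂ) + y * Complex.I).im : ℝ) : ℂ) ^ ((w : ℂ) + 2 * r + 1 + t)‖ ≤ _
    rw [norm_mul, norm_mul, b3]
    refine mul_le_mul_of_nonneg_right ?_ (Real.rpow_nonneg hy.le _)
    exact mul_le_mul b1 b2 (norm_nonneg _) (by positivity)
  obtain ⟨hint, hstrip⟩ := h3 G _ hGc hGb (int_bound C₁ C₂ A₁ w (E := E) (by linarith))
  obtain ⟨-, -, hunf⟩ := h2 G hGc hGp hint
  -- the unfolded integral
  have hrs : rsE D (HH D χ w r ψ c t) f =
      DirichletCharacter.LFunction χ (2 * r + 1 + 2 * t) * ∫ z : ℍ in strip, G z := by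
    have e1 : rsE D (HH D χ w r ψ c t) f =
        ∫ z : ℍ in ModularGroup.fd, (1 / 2 * DirichletCharacter.LFunction χ (2 * r + 1 + 2 * t)) *
          ∑' v : Cop, G (mob v.1 z) := by
      unfold rsE
      refine integral_congr_ae (Filter.Eventually.of_forall fun z => ?_)
      exact h1 D hq F hF hNF s σ χ cj w r f ψ c hD hw hev t z (by linarith) z.im_pos
    rw [e1, integral_const_mul, hunf]
    ring
  rw [hrs, hstrip]
  -- the integral as a Mellin transform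
  set S : ℂ := (w : ℂ) + 2 * r + t with hS
  set Fy : ℝ → ℂ := fun y => ∫ x in (0 : ℝ)..1, thψ (w + 2 * r) ψ c ((x : ℂ) + y * Complex.I) *
    f (ofComplex (-(x : ℂ) + y * Complex.I)) with hFy
  have hmel : ∫ y in Ioi (0 : ℝ), (∫ x in (0 : ℝ)..1, G (x + y * Complex.I)) / (y : ℂ) ^ 2 =
      mellin Fy S := by
    unfold mellin
    refine setIntegral_congr_fun measurableSet_Ioi fun y hy => ?_
    have hy' : 0 < y := hy
    have hyc : (y : ℂ) ≠ 0 := Complex.ofReal_ne_zero.mpr hy'.ne'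
    have e2 : ∫ x in (0 : ℝ)..1, G (x + y * Complex.I) =
        Fy y * (y : ℂ) ^ ((w : ℂ) + 2 * r + 1 + t) := by
      rw [hFy, ← intervalIntegral.integral_mul_const]
      refine intervalIntegral.integral_congr fun x _ => ?_
      show thψ (w + 2 * r) ψ c ((x : ℂ) + y * Complex.I) *
        f (ofComplex (-conj ((x : ℂ) + y * Complex.I))) *
        ((((x : ℂ) + y * Complex.I).im : ℝ) : ℂ) ^ ((w : ℂ) + 2 * r + 1 + t) = _
      rw [neg_conj_eq, im_xy]
    show (∫ x in (0 : ℝ)..1, G (x + y * Complex.I)) / (y : ℂ) ^ 2 = (y : ℂ) ^ (S - 1) • Fy y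
    rw [e2, smul_eq_mul]
    have e3 : (w : ℂ) + 2 * r + 1 + t = (S - 1) + ((2 : ℕ) : ℂ) := by
      rw [hS]
      push_cast
      ring
    rw [e3, Complex.cpow_add _ _ hyc, Complex.cpow_natCast]
    field_simp
  rw [hmel]
  -- the Dirichlet series
  have hSre : S.re = (w : ℝ) + 2 * r + t.re := by
    rw [hS]
    simp
  have hpi := Real.pi_pos
  have hterm0 : coef f 0 * bψ ψ 0 = 0 := by rw [hb0, mul_zero]
  have hsum : Summable fun n : ℕ => ‖coef f n * bψ ψ n‖ / (4 * Real.pi * n) ^ S.re := by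
    obtain ⟨-, ⟨C, hC⟩, -, -, -⟩ := h6 w f
    have hS1 : (w : ℝ) / 2 + ((w + 2 * r : ℕ) : ℝ) / 2 + 1 - S.re < -1 := by
      rw [hSre]
      push_cast
      linarith
    refine Summable.of_nonneg_of_le (fun n => ?_) (fun n => ?_)
      ((Real.summable_nat_rpow.mpr hS1).mul_left (|C| * ((4 * Real.pi) ^ S.re)⁻¹))
    · have : 0 ≤ (4 * Real.pi * n) ^ S.re := Real.rpow_nonneg (by positivity) _
      positivity
    · rcases Nat.eq_zero_or_pos n with rfl | hn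
      · rw [hterm0, norm_zero, zero_div]
        have h9 : (0 : ℝ) ≤ ((0 : ℕ) : ℝ) ^
            ((w : ℝ) / 2 + ((w + 2 * r : ℕ) : ℝ) / 2 + 1 - S.re) :=
          Real.rpow_nonneg (by simp) _
        positivity
      · have hn' : (0 : ℝ) < n := by exact_mod_cast hn
        have b1 : ‖coef f n‖ ≤ |C| * (n : ℝ) ^ ((w : ℝ) / 2) :=
          (hC n).trans (mul_le_mul_of_nonneg_right (le_abs_self _) (by positivity))
        have b2 : ‖bψ ψ n‖ ≤ (n : ℝ) * (n : ℝ) ^ (((w + 2 * r : ℕ) : ℝ) / 2) :=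
          (hbn n hn).trans (mul_le_mul_of_nonneg_right
            (by exact_mod_cast Nat.card_divisors_le_self n) (by positivity))
        have b3 : ‖coef f n * bψ ψ n‖ ≤ |C| * (n : ℝ) ^ ((w : ℝ) / 2) *
            ((n : ℝ) * (n : ℝ) ^ (((w + 2 * r : ℕ) : ℝ) / 2)) := by
          rw [norm_mul]
          exact mul_le_mul b1 b2 (norm_nonneg _) (by positivity)
        have hp : (4 * Real.pi * (n : ℝ)) ^ S.re = (4 * Real.pi) ^ S.re * (n : ℝ) ^ S.re :=
          Real.mul_rpow (by positivity) hn'.le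
        have hnp : 0 < (n : ℝ) ^ S.re := Real.rpow_pos_of_pos hn' _
        have h4p : 0 < (4 * Real.pi) ^ S.re := Real.rpow_pos_of_pos (by positivity) _
        rw [hp, Real.rpow_sub hn', Real.rpow_add hn', Real.rpow_add hn', Real.rpow_one]
        calc ‖coef f n * bψ ψ n‖ / ((4 * Real.pi) ^ S.re * (n : ℝ) ^ S.re)
            ≤ (|C| * (n : ℝ) ^ ((w : ℝ) / 2) *
              ((n : ℝ) * (n : ℝ) ^ (((w + 2 * r : ℕ) : ℝ) / 2))) /
                ((4 * Real.pi) ^ S.re * (n : ℝ) ^ S.re) :=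
              div_le_div_of_nonneg_right b3 (by positivity)
          _ = _ := by
              field_simp
  have hM := hasSum_mellin (a := fun n : ℕ => coef f n * bψ ψ n)
    (p := fun n : ℕ => 4 * Real.pi * n) (F := Fy) (s := S) (fun n => by
      rcases Nat.eq_zero_or_pos n with rfl | hn
      · exact Or.inl hterm0
      · right
        have hn' : (0 : ℝ) < n := by exact_mod_cast hn
        positivity) (by rw [hSre]; linarith)
    (fun y hy => inner_two h6 f (bψ ψ) (thψ (w + 2 * r) ψ c) hbexp hy) hsum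
  rw [← hM.tsum_eq]
  unfold Dn
  rw [← tsum_mul_left, ← tsum_mul_left]
  refine tsum_congr fun n => ?_
  rcases Nat.eq_zero_or_pos n with rfl | hn
  · rw [hterm0]
    ring
  · have hn' : (0 : ℝ) < n := by exact_mod_cast hn
    have hnc : (n : ℂ) ≠ 0 := by exact_mod_cast hn.ne'
    have h4c : (4 * Real.pi : ℂ) ≠ 0 := by
      simp
    have e5 : ((4 * Real.pi * n : ℝ) : ℂ) ^ S = (4 * Real.pi : ℂ) ^ S * (n : ℂ) ^ S := by
      have := Complex.mul_cpow_ofReal_nonneg (a := 4 * Real.pi) (b := n) (by positivity) hn'.le S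
      push_cast at this ⊢
      exact this
    rw [e5, Complex.cpow_neg, Complex.cpow_neg]
    have hn1 : (n : ℂ) ^ S ≠ 0 := by
      rw [Ne, Complex.cpow_eq_zero_iff]
      tauto
    have hn2 : (4 * Real.pi : ℂ) ^ S ≠ 0 := by
      rw [Ne, Complex.cpow_eq_zero_iff]
      tauto
    field_simp

end RZ

end Pool.Agent.Lib.MP_7c08ba_nt
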