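import Pool.Agent.Lib.MP_7c08ba_nt.RZ.StH
import Pool.Agent.Lib.MP_7c08ba_nt.RZ.RSat

set_option autoImplicit false

/-!
(H29) the value at `-r` in terms of the integrals `JJ`, every even fundamental discriminant
-/

namespace Pool.Agent.Lib.MP_7c08ba_nt

namespace RZ

open NumberField MeasureTheory UpperHalfPlane Set
open scoped MatrixGroups ComplexConjugate nonZeroDivisors

open RSatAux in
theorem stRSatE (h1 : StHHE) (h2 : StTraceE) (h3 : StPetU) (h4 : StFd) : StRSatE := by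
  intro q hq F _ _ s σ χ cj w r f ψ c β hD hw hwe hβ hcop hf
  obtain ⟨hc, -, hsz⟩ := h1 q hq F _ _ s σ χ cj w r ψ c hD (by omega) hwe hcop
  have hre : -(r : ℝ) - 1 / 2 < (-(r : ℂ)).re := by
    rw [Complex.neg_re, Complex.natCast_re]
    linarith
  obtain ⟨-, hc2, hc3⟩ := hc (-(r : ℂ)) hre
  obtain ⟨C, δ, hδ, hC⟩ := hsz (-(r : ℝ) - 1 / 4) ‖(-(r : ℂ))‖ (by linarith)
  set h : ℂ → ℂ := trE q w (HH q χ w r ψ c (-r)) with hh
  have hW : Wt w h := h2 q w _ hD.ev hwe hc3
  have hbd := bounded_of_fd hwe hW (C := C) (δ := δ) hδ (fun z hz1 hz2 =>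
    hC (-(r : ℂ)) z (by rw [Complex.neg_re, Complex.natCast_re]; linarith) le_rfl hz1 hz2) h4
  have hm : ∀ m ∈ β.support, 1 ≤ m := by
    intro m hm
    rcases Nat.eq_zero_or_pos m with h0 | h0
    · rw [h0] at hm
      exact absurd hβ (Finsupp.mem_support_iff.1 hm)
    · exact h0
  have key : ∀ m ∈ β.support, IntegrableOn
      (fun z : ℍ => h z * poinc w m (-conj (z : ℂ)) * (z.im : ℂ) ^ w) ModularGroup.fd ∧
      ∫ z : ℍ in ModularGroup.fd, h z * poinc w m (-conj (z : ℂ)) * (z.im : ℂ) ^ w = JJ w m h :=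
    fun m hm' => h3 w m h hw hwe (hm m hm') hc2 hW hbd
  have e1 : ∀ z : ℍ, h z * f (ofComplex (-conj (z : ℂ))) * (z.im : ℂ) ^ w =
      ∑ m ∈ β.support, β m * (h z * poinc w m (-conj (z : ℂ)) * (z.im : ℂ) ^ w) := by
    intro z
    have hz : 0 < (-conj (z : ℂ)).im := by
      rw [Complex.neg_im, Complex.conj_im, neg_neg]
      exact z.im_pos
    rw [hf, ofComplex_apply_of_im_pos hz, Finsupp.sum, Finset.mul_sum, Finset.sum_mul]
    refine Finset.sum_congr rfl fun m _ => ?_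
    show h z * (β m * poinc w m (-conj (z : ℂ))) * (z.im : ℂ) ^ w = _
    ring
  unfold rsE
  rw [← hh]
  rw [Finsupp.sum, integral_congr_ae (Filter.Eventually.of_forall e1),
    integral_finsetSum _ fun m hm' => ((key m hm').1.const_mul (β m))]
  refine Finset.sum_congr rfl fun m hm' => ?_
  rw [integral_const_mul, (key m hm').2]

end RZ

end Pool.Agent.Lib.MP_7c08ba_nt
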