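import Mathlib
import Pool.Agent.Lib.MP_7c08ba_nt.RZ.StH
import Pool.Agent.Lib.MP_7c08ba_nt.RZ.RSptD

set_option autoImplicit false

/-!
Module H23 of RANK ZERO: the integrand of the Rankin–Selberg integral as a sum over coprime pairs,
for every even fundamental discriminant.
-/

namespace Pool.Agent.Lib.MP_7c08ba_nt

namespace RZ

open NumberField MeasureTheory UpperHalfPlane Set IsDedekindDomain
open scoped MatrixGroups ComplexConjugate nonZeroDivisors

namespace RSptEAux

open RSptDAux hiding partition one_coset main_sum chi_conj chi_sq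

variable {w : ℕ}

/-- The greatest common divisors which occur in the widths. -/
lemma gcd_cases {D : ℕ} (hD : EvD D) {g D' : ℕ} (h : D = g * D') :
    Nat.gcd g D' = 1 ∨ Nat.gcd g D' = 2 := by
  obtain ⟨h4, n, hn, hsq, hmod⟩ := hD
  set m := Nat.gcd g D' with hm
  have hm2 : m * m ∣ 4 * n := by
    rw [← hn, h]
    exact mul_dvd_mul (Nat.gcd_dvd_left _ _) (Nat.gcd_dvd_right _ _)
  have hodd : ∀ p : ℕ, p.Prime → p ∣ m → p = 2 := by
    intro p hp hpm
    by_contra hp2
    have h5 : p * p ∣ 4 * n := (mul_dvd_mul hpm hpm).trans hm2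
    have h6 : Nat.Coprime (p * p) 4 := by
      have h7 : Nat.Coprime p 2 := (Nat.coprime_primes hp Nat.prime_two).mpr hp2
      have h8 : Nat.Coprime p 4 := by
        rw [show (4 : ℕ) = 2 * 2 by norm_num]
        exact Nat.Coprime.mul_right h7 h7
      exact Nat.Coprime.mul_left h8 h8
    have h7 := h6.dvd_of_dvd_mul_left h5
    exact hp.one_lt.ne' (Nat.isUnit_iff.mp (hsq p h7))
  have h4m : ¬ 4 ∣ m := by
    intro h5
    have h6 : 4 * 4 ∣ 4 * n := (mul_dvd_mul h5 h5).trans hm2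
    have h7 : 4 ∣ n := Nat.dvd_of_mul_dvd_mul_left (by norm_num) h6
    omega
  have hm0 : m ≠ 0 := by
    intro h5
    rw [h5] at hm2
    simp only [mul_zero, zero_dvd_iff] at hm2
    omega
  by_cases h1 : m = 1
  · exact Or.inl h1
  · right
    obtain ⟨p, hp, hpm⟩ := Nat.exists_prime_and_dvd h1
    have h2 := hodd p hp hpm
    subst h2
    obtain ⟨k, hk⟩ := hpm
    by_cases hk1 : k = 1
    · rw [hk, hk1]
    · exfalso
      obtain ⟨p', hp', hpk⟩ := Nat.exists_prime_and_dvd hk1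
      have h3 := hodd p' hp' (hpk.trans ⟨2, by rw [hk]; ring⟩)
      subst h3
      obtain ⟨k', hk'⟩ := hpk
      exact h4m ⟨k', by rw [hk, hk']; ring⟩

lemma partition {D : ℕ} (hD : EvD D) (v : Cop) :
    ∑ g ∈ D.divisors, ∑ j ∈ Finset.range (wid D g),
      (if (D : ℤ) ∣ v.1.1 * (1 - g * j) + v.1.2 * g then (1 : ℂ) else 0) = 1 := by
  have hD0 : D ≠ 0 := by have := hD.1; omega
  set c := v.1.1 with hc
  set d := v.1.2 with hd
  have hcop : IsCoprime c d := v.2
  have hg0 : Int.gcd c D ∣ D := by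
    have h := Int.gcd_dvd_right c (D : ℤ)
    exact_mod_cast h
  set g0 := Int.gcd c D with hg0def
  have hg0pos : 0 < g0 := Nat.pos_of_dvd_of_pos hg0 (Nat.pos_of_ne_zero hD0)
  rw [Finset.sum_eq_single g0]
  · obtain ⟨D', hD'⟩ := hg0
    have hD'pos : 0 < D' := by
      rcases Nat.eq_zero_or_pos D' with h | h
      · rw [h, mul_zero] at hD'
        exact absurd hD' hD0
      · exact h
    have hq : D / g0 = D' := by
      rw [hD']
      exact Nat.mul_div_cancel_left D' hg0pos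
    have hcg : (g0 : ℤ) ∣ c := Int.gcd_dvd_left c (D : ℤ)
    obtain ⟨c', hc'⟩ := hcg
    have hcopD : IsCoprime c' (D' : ℤ) := by
      rw [Int.isCoprime_iff_gcd_eq_one]
      have h := hg0def
      rw [hc', show (D : ℤ) = (g0 : ℤ) * (D' : ℤ) by rw [hD']; push_cast; rfl] at h
      rw [Int.gcd_mul_left] at h
      have h2 : g0 * 1 = g0 * Int.gcd c' D' := by
        rw [mul_one]
        simpa using h
      exact (Nat.eq_of_mul_eq_mul_left hg0pos h2).symm
    -- the common factor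
    set m := Nat.gcd g0 D' with hm
    have hmpos : 0 < m := Nat.gcd_pos_of_pos_left _ hg0pos
    obtain ⟨G, hG⟩ : m ∣ g0 := Nat.gcd_dvd_left _ _
    obtain ⟨W, hW⟩ : m ∣ D' := Nat.gcd_dvd_right _ _
    have hwid : wid D g0 = W := by
      unfold wid
      rw [hq, ← hm, hD', hW, ← mul_assoc]
      exact Nat.mul_div_cancel_left W (Nat.mul_pos hg0pos hmpos)
    have hWpos : 0 < W := by
      rcases Nat.eq_zero_or_pos W with h | h
      · rw [h, mul_zero] at hW
        omega
      · exact h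
    have hGW : IsCoprime (G : ℤ) (W : ℤ) := by
      have h : Nat.Coprime G W := by
        have h1 : m * Nat.gcd G W = m * 1 := by
          rw [← Nat.gcd_mul_left, ← hG, ← hW, mul_one]
        exact Nat.eq_of_mul_eq_mul_left hmpos h1
      exact Nat.isCoprime_iff_coprime.mpr h
    have hcW : IsCoprime c' (W : ℤ) := by
      refine IsCoprime.of_isCoprime_of_dvd_right hcopD ⟨m, ?_⟩
      rw [hW]; push_cast; ring
    have hcopcg : IsCoprime (c' * G) (W : ℤ) := IsCoprime.mul_left hcW hGW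
    -- the factor divides
    have hmdvd : (m : ℤ) ∣ c' + d := by
      rcases gcd_cases hD hD' with h1 | h2
      · rw [hm, h1]
        exact one_dvd _
      · have hm2 : m = 2 := by rw [hm, h2]
        rw [hm2] at hG hW ⊢
        have hc'odd : ¬ (2 : ℤ) ∣ c' := by
          intro h
          have h3 : (2 : ℤ) ∣ (D' : ℤ) := ⟨W, by rw [hW]; push_cast; ring⟩
          have h4 := hcopD.isUnit_of_dvd' h h3
          rw [Int.isUnit_iff] at h4
          omega
        have hdodd : ¬ (2 : ℤ) ∣ d := by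
          intro h
          have h3 : (2 : ℤ) ∣ c := ⟨G * c', by rw [hc', hG]; push_cast; ring⟩
          have h4 := hcop.isUnit_of_dvd' h3 h
          rw [Int.isUnit_iff] at h4
          omega
        push_cast
        omega
    obtain ⟨e, he⟩ := hmdvd
    have hmz : (m : ℤ) ≠ 0 := by exact_mod_cast hmpos.ne'
    have hiff : ∀ j : ℕ, ((D : ℤ) ∣ c * (1 - g0 * j) + d * g0) ↔
        (W : ℤ) ∣ e - (c' * G) * j := by
      intro j
      have e1 : c * (1 - g0 * j) + d * g0 = g0 * (m * (e - (c' * G) * j)) := by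
        have e2 : (g0 : ℤ) = m * G := by rw [hG]; push_cast; rfl
        rw [hc']
        linear_combination (g0 : ℤ) * he - (g0 : ℤ) * c' * j * e2
      rw [e1, show (D : ℤ) = (g0 : ℤ) * ((m : ℤ) * (W : ℤ)) by rw [hD', hW]; push_cast; rfl,
        mul_dvd_mul_iff_left (by exact_mod_cast hg0pos.ne'), mul_dvd_mul_iff_left hmz]
    rw [hwid]
    obtain ⟨x, y, hxy⟩ := hcopcg
    have hWz : (0 : ℤ) < W := by exact_mod_cast hWpos
    set j0 : ℕ := ((x * e) % (W : ℤ)).toNat with hj0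
    have hj0z : (j0 : ℤ) = (x * e) % (W : ℤ) := by
      rw [hj0]
      exact Int.toNat_of_nonneg (Int.emod_nonneg _ hWz.ne')
    have hj0lt : j0 < W := by
      have h := Int.emod_lt_of_pos (x * e) hWz
      rw [← hj0z] at h
      exact_mod_cast h
    have hj0dvd : (W : ℤ) ∣ e - (c' * G) * j0 := by
      have h1 : (W : ℤ) ∣ x * e - j0 := by
        rw [hj0z]
        exact Int.dvd_self_sub_emod
      obtain ⟨k, hk⟩ := h1
      refine ⟨y * e + c' * G * k, ?_⟩
      linear_combination (-e) * hxy + (c' * G) * hk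
    rw [Finset.sum_eq_single j0]
    · rw [if_pos ((hiff j0).mpr hj0dvd)]
    · intro j hj hne
      rw [if_neg]
      intro hdvd
      have h1 := (hiff j).mp hdvd
      have h2 : (W : ℤ) ∣ (c' * G) * ((j : ℤ) - j0) := by
        have h3 := dvd_sub hj0dvd h1
        have e : e - (c' * G) * j0 - (e - (c' * G) * j) =
            (c' * G) * ((j : ℤ) - j0) := by ring
        rwa [e] at h3
      have h4 : (W : ℤ) ∣ (j : ℤ) - j0 :=
        (IsCoprime.dvd_of_dvd_mul_left (IsCoprime.symm ⟨x, y, hxy⟩) h2)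
      have hjlt : j < W := Finset.mem_range.mp hj
      apply hne
      have h5 : (j : ℤ) - j0 = 0 := by
        apply Int.eq_zero_of_abs_lt_dvd h4
        rw [abs_lt]
        constructor <;> omega
      omega
    · intro h
      exact absurd (Finset.mem_range.mpr hj0lt) h
  · intro g hg hne
    refine Finset.sum_eq_zero fun j _ => ?_
    rw [if_neg]
    intro hdvd
    apply hne
    have hgD : (g : ℤ) ∣ D := by exact_mod_cast Nat.dvd_of_mem_divisors hg
    apply Nat.dvd_antisymm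
    · -- g ∣ gcd
      have h1 : (g : ℤ) ∣ c := by
        have h2 := hgD.trans hdvd
        have e : c = (c * (1 - g * j) + d * g) - g * (d - c * j) := by ring
        rw [e]
        exact dvd_sub h2 (dvd_mul_right _ _)
      exact Int.dvd_gcd h1 hgD
    · have h1 : (g0 : ℤ) ∣ c := Int.gcd_dvd_left c (D : ℤ)
      have h2 : (g0 : ℤ) ∣ (D : ℤ) := by exact_mod_cast hg0
      have h3 : (g0 : ℤ) ∣ d * g := by
        have h4 := h2.trans hdvd
        have e : d * g = (c * (1 - g * j) + d * g) - c * (1 - g * j) := by ring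
        rw [e]
        exact dvd_sub h4 (h1.mul_right _)
      have h5 : IsCoprime (g0 : ℤ) d := IsCoprime.of_isCoprime_of_dvd_left hcop h1
      have h6 : (g0 : ℤ) ∣ g := h5.dvd_of_dvd_mul_left h3
      exact_mod_cast h6
  · intro h
    exact absurd (Nat.mem_divisors.mpr ⟨hg0, hD0⟩) h

lemma chi_conj {D : ℕ} (χ : DirichletCharacter ℂ D) (hq : QC D χ) (n : ℤ) :
    conj (χ n) = χ n := by
  rcases hq.real (n : ZMod D) with h | h | h <;> rw [h] <;> simp

lemma chi_sq {D : ℕ} (χ : DirichletCharacter ℂ D) (hq : QC D χ) (n : ℤ)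
    (h : IsCoprime n (D : ℤ)) : χ n * χ n = 1 := by
  have hu : IsUnit (n : ZMod D) := by
    obtain ⟨a, b, hab⟩ := h
    refine IsUnit.of_mul_eq_one (a : ZMod D) ?_
    have h1 : (((a * n + b * D : ℤ)) : ZMod D) = 1 := by rw [hab]; simp
    push_cast at h1
    rw [ZMod.natCast_self, mul_zero, add_zero] at h1
    rw [mul_comm]
    exact h1
  have h0 : χ (n : ZMod D) ≠ 0 := (hu.map χ).ne_zero
  rcases hq.real (n : ZMod D) with h | h | h
  · exact absurd h h0
  · rw [h]; ring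
  · rw [h]; ring

lemma one_coset (h1 : StEisBigQ) {D : ℕ} [NeZero D] (χ : DirichletCharacter ℂ D) (r : ℕ)
    (Θ : ℂ → ℂ) (f : CuspForm 𝒮ℒ (w : ℤ)) {t : ℂ} (hΘ : Wq D χ (w + 2 * r + 1) Θ)
    (hχ : ∀ n : ℤ, conj (χ n) = χ n) (hχ2 : ∀ n : ℤ, IsCoprime n (D : ℤ) → χ n * χ n = 1)
    (hq : QC D χ) (ht : 1 / 2 - (r : ℝ) < t.re) {z : ℂ} (hz : 0 < z.im) :
    ∃ A : ℂ, HasSum (fun v : Cop => if (D : ℤ) ∣ v.1.1 then GG r Θ f t (mob v.1 z) else 0) A ∧
      Θ z * conj (eis D χ r (conj t) z) * (z.im : ℂ) ^ (2 * r + 1) * f (ofComplex (-conj z)) *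
        (z.im : ℂ) ^ w = 1 / 2 * DirichletCharacter.LFunction χ (2 * r + 1 + 2 * t) * A := by
  obtain ⟨hs, he⟩ := h1 D inferInstance χ r hq (conj t) z (by simpa using ht) hz
  set X : Cop → ℂ := fun v => (((v.1.1 : ℂ) * z + v.1.2) ^ (2 * r + 1))⁻¹ *
    ((Complex.normSq ((v.1.1 : ℂ) * z + v.1.2) : ℝ) : ℂ) ^ (-conj t) with hX
  set Y : Cop → ℂ := fun v => (if (D : ℤ) ∣ v.1.1 then χ (v.1.2 : ℤ) else 0) *
    (((v.1.1 : ℂ) * z + v.1.2) ^ (2 * r + 1))⁻¹ *
    ((Complex.normSq ((v.1.1 : ℂ) * z + v.1.2) : ℝ) : ℂ) ^ (-conj t) with hY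
  have hYs : Summable Y := by
    refine Summable.of_norm_bounded hs fun v => ?_
    rw [hY]
    simp only
    rw [mul_assoc, norm_mul]
    refine mul_le_of_le_one_left (norm_nonneg _) ?_
    split_ifs
    · exact DirichletCharacter.norm_le_one χ _
    · simp
  have hYc : HasSum (fun v => conj (Y v)) (conj (∑' v, Y v)) :=
    hYs.hasSum.map (starRingEnd ℂ) Complex.continuous_conj
  set C : ℂ := Θ z * (z.im : ℂ) ^ t * (z.im : ℂ) ^ (2 * r + 1) * f (ofComplex (-conj z)) *
      (z.im : ℂ) ^ w with hC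
  refine ⟨C * conj (∑' v, Y v), ?_, ?_⟩
  · have h3 := hYc.mul_left C
    have h4 : (fun v => C * conj (Y v)) =
        fun v : Cop => if (D : ℤ) ∣ v.1.1 then GG r Θ f t (mob v.1 z) else 0 :=
      funext fun v => term_eq χ r Θ f t hΘ hχ hχ2 v hz
    rwa [h4] at h3
  · have h5 : (∑' v : Cop, (if (D : ℤ) ∣ v.1.1 then χ (v.1.2 : ℤ) else 0) *
        (((v.1.1 : ℂ) * z + v.1.2) ^ (2 * r + 1))⁻¹ *
        ((Complex.normSq ((v.1.1 : ℂ) * z + v.1.2) : ℝ) : ℂ) ^ (-conj t) *
          (z.im : ℂ) ^ (conj t)) = (∑' v, Y v) * (z.im : ℂ) ^ (conj t) := by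
      rw [← tsum_mul_right]
    have h6 : conj ((z.im : ℂ) ^ (conj t)) = (z.im : ℂ) ^ t := by
      rw [Complex.cpow_conj _ _ (by
        rw [Complex.arg_ofReal_of_nonneg hz.le]; exact Real.pi_pos.ne), Complex.conj_conj,
        Complex.conj_ofReal]
    have h7 : conj (DirichletCharacter.LFunction χ (2 * r + 1 + 2 * conj t)) =
        DirichletCharacter.LFunction χ (2 * r + 1 + 2 * t) := by
      have h8 : (2 * (r : ℂ) + 1 + 2 * conj t) = conj (2 * (r : ℂ) + 1 + 2 * t) := by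
        rw [map_add, map_add, map_mul, map_mul, map_one, map_natCast, map_ofNat]
      rw [h8]
      refine conj_L χ hχ ?_
      have h9 : (2 * (r : ℂ) + 1 + 2 * t).re = 2 * r + 1 + 2 * t.re := by simp
      rw [h9]
      linarith
    have h10 : conj (1 / 2 : ℂ) = 1 / 2 := by
      rw [map_div₀, map_one, map_ofNat]
    rw [he, h5, map_mul, map_mul, map_mul, h6, h7, h10, hC]
    ring

lemma main_sum (h1 : StEisBigQ) {D : ℕ} [NeZero D] (χ : DirichletCharacter ℂ D) (r : ℕ)
    (Θ : ℂ → ℂ) (f : CuspForm 𝒮ℒ (w : ℤ)) {t : ℂ} (hΘ : Wq D χ (w + 2 * r + 1) Θ)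
    (hD : EvD D) (hq : QC D χ) (ht : 1 / 2 - (r : ℝ) < t.re) {z : ℂ} (hz : 0 < z.im) :
    trE D w (fun u => Θ u * conj (eis D χ r (conj t) u) * (u.im : ℂ) ^ (2 * r + 1)) z *
      f (ofComplex (-conj z)) * (z.im : ℂ) ^ w =
      1 / 2 * DirichletCharacter.LFunction χ (2 * r + 1 + 2 * t) *
        ∑' v : Cop, GG r Θ f t (mob v.1 z) := by
  have hχ := chi_conj χ hq
  have hχ2 := chi_sq χ hq
  have hone : ∀ g j : ℕ, ∃ A : ℂ,
      HasSum (fun v : Cop => if (D : ℤ) ∣ v.1.1 * (1 - g * j) + v.1.2 * g then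
        GG r Θ f t (mob v.1 z) else 0) A ∧
      ((1 - g * (z + j)) ^ w)⁻¹ * (Θ ((z + j) / (1 - g * (z + j))) *
        conj (eis D χ r (conj t) ((z + j) / (1 - g * (z + j)))) *
        (((z + j) / (1 - g * (z + j))).im : ℂ) ^ (2 * r + 1)) * f (ofComplex (-conj z)) *
        (z.im : ℂ) ^ w = 1 / 2 * DirichletCharacter.LFunction χ (2 * r + 1 + 2 * t) * A := by
    intro g j
    obtain ⟨A, hA, hA2⟩ := one_coset h1 χ r Θ f hΘ hχ hχ2 hq ht (im_ac_pos (sg g j) hz)
    refine ⟨A, ?_, ?_⟩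
    · have h3 : (fun v : Cop => if (D : ℤ) ∣ v.1.1 then GG r Θ f t (mob v.1 (ac (sg g j) z)) else 0)
          = (fun v : Cop => if (D : ℤ) ∣ v.1.1 * (1 - g * j) + v.1.2 * g then
              GG r Θ f t (mob v.1 z) else 0) ∘ (re (sg g j)) := by
        funext v
        have h4 : GG r Θ f t (mob v.1 (ac (sg g j) z)) =
            GG r Θ f t (mob (ra (sg g j) v).1 z) := by
          obtain ⟨n, hn⟩ := mob_ac (sg g j) v hz
          rw [hn]
          refine GG_int χ r Θ f t hΘ n ?_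
          rw [← ac_gm]
          exact im_ac_pos _ hz
        have h5 : ((ra (sg g j) v).1.1 * (1 - g * j) + (ra (sg g j) v).1.2 * g : ℤ) = v.1.1 := by
          have h6 := rb_ra (sg g j) v
          have h7 : (rb (sg g j) (ra (sg g j) v)).1.1 =
            (ra (sg g j) v).1.1 * (1 - g * j) - (ra (sg g j) v).1.2 * (-(g : ℤ)) := rfl
          rw [h6] at h7
          rw [h7]
          ring
        simp only [Function.comp_apply]
        change _ = if (D : ℤ) ∣ (ra (sg g j) v).1.1 * (1 - g * j) + (ra (sg g j) v).1.2 * g then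
          GG r Θ f t (mob (ra (sg g j) v).1 z) else 0
        rw [h5, h4]
      rw [h3] at hA
      exact (Equiv.hasSum_iff (re (sg g j))).mp hA
    · rw [← hA2, ← ac_sg, fb_ac f _ hz, ← dn_sg]
      have hd0 : dn (sg g j) z ≠ 0 := dn_ne _ hz
      have hd1 : conj (dn (sg g j) z) ≠ 0 := by simpa using hd0
      have hN : ((Complex.normSq (dn (sg g j) z) : ℝ) : ℂ) =
          dn (sg g j) z * conj (dn (sg g j) z) := (Complex.mul_conj _).symm
      have h8 : (((ac (sg g j) z).im : ℝ) : ℂ) ^ w = (z.im : ℂ) ^ w *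
          ((dn (sg g j) z ^ w)⁻¹ * (conj (dn (sg g j) z) ^ w)⁻¹) := by
        rw [im_ac _ hz, Complex.ofReal_div, hN, div_pow, mul_pow, div_eq_mul_inv, mul_inv]
      have h9 : conj (dn (sg g j) z) ^ w * (conj (dn (sg g j) z) ^ w)⁻¹ = 1 :=
        mul_inv_cancel₀ (pow_ne_zero _ hd1)
      rw [h8]
      linear_combination (-((dn (sg g j) z ^ w)⁻¹ * (Θ (ac (sg g j) z) *
        conj (eis D χ r (conj t) (ac (sg g j) z)) *
        ((ac (sg g j) z).im : ℂ) ^ (2 * r + 1)) * f (ofComplex (-conj z)) *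
        (z.im : ℂ) ^ w)) * h9
  choose A hA hA2 using hone
  have h10 : HasSum (fun v : Cop => ∑ g ∈ D.divisors, ∑ j ∈ Finset.range (wid D g),
      (if (D : ℤ) ∣ v.1.1 * (1 - g * j) + v.1.2 * g then GG r Θ f t (mob v.1 z) else 0))
      (∑ g ∈ D.divisors, ∑ j ∈ Finset.range (wid D g), A g j) :=
    hasSum_sum fun g _ => hasSum_sum fun j _ => hA g j
  have h11 : (fun v : Cop => ∑ g ∈ D.divisors, ∑ j ∈ Finset.range (wid D g),
      (if (D : ℤ) ∣ v.1.1 * (1 - g * j) + v.1.2 * g then GG r Θ f t (mob v.1 z) else 0)) =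
      fun v : Cop => GG r Θ f t (mob v.1 z) := by
    funext v
    have h12 := partition hD v
    calc ∑ g ∈ D.divisors, ∑ j ∈ Finset.range (wid D g),
          (if (D : ℤ) ∣ v.1.1 * (1 - g * j) + v.1.2 * g then GG r Θ f t (mob v.1 z) else 0)
        = (∑ g ∈ D.divisors, ∑ j ∈ Finset.range (wid D g),
          (if (D : ℤ) ∣ v.1.1 * (1 - g * j) + v.1.2 * g then (1 : ℂ) else 0)) *
            GG r Θ f t (mob v.1 z) := by
          rw [Finset.sum_mul]
          refine Finset.sum_congr rfl fun g _ => ?_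
          rw [Finset.sum_mul]
          refine Finset.sum_congr rfl fun j _ => ?_
          split_ifs
          · rw [one_mul]
          · rw [zero_mul]
      _ = GG r Θ f t (mob v.1 z) := by rw [h12, one_mul]
  rw [h11] at h10
  rw [h10.tsum_eq, Finset.mul_sum]
  unfold trE
  rw [Finset.sum_mul, Finset.sum_mul]
  refine Finset.sum_congr rfl fun g _ => ?_
  rw [Finset.sum_mul, Finset.sum_mul, Finset.mul_sum]
  refine Finset.sum_congr rfl fun j _ => ?_
  exact hA2 g j

end RSptEAux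

open RSptDAux RSptEAux in
/-- (H23) -/
theorem stRSptE (h1 : StEisBigQ) (h2 : StThGE) (_h3 : StBasE) (_h4 : StThBE) : StRSptE := by
  intro D hN F hF hNF s σ χ cj w r f ψ c hD hw hev t z ht hz
  have hΘ : Wq D χ (w + 2 * r + 1) (thψ (w + 2 * r) ψ c) := by
    intro g u hu hg
    unfold thψ
    have hk : Even (w + 2 * r) := hev.add (even_two_mul r)
    have h5 : ∀ A : ClassGroup (𝓞 F), th σ (c.R A : Ideal (𝓞 F)) (w + 2 * r)
        (((g 0 0 : ℂ) * u + g 0 1) / ((g 1 0 : ℂ) * u + g 1 1)) =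
        χ (g 1 1 : ℤ) * ((g 1 0 : ℂ) * u + g 1 1) ^ (w + 2 * r + 1) *
          th σ (c.R A : Ideal (𝓞 F)) (w + 2 * r) u := fun A =>
      h2 D F hF hNF s σ χ cj (c.R A : Ideal (𝓞 F)) (w + 2 * r) hD
        (nonZeroDivisors.coe_ne_zero (c.R A)) hk g u hu hg
    simp only [h5]
    have h6 : ∀ X Y : ℂ, X * (1 / 2 * Y) = 1 / 2 * (X * Y) := fun X Y => by ring
    rw [h6]
    congr 1
    rw [Finset.mul_sum]
    refine Finset.sum_congr rfl fun A _ => ?_
    ring
  exact RSptEAux.main_sum h1 χ r (thψ (w + 2 * r) ψ c) f hΘ hD.ev hD.qc ht hz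

end RZ

end Pool.Agent.Lib.MP_7c08ba_nt
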