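import Mathlib
import Pool.Agent.Lib.MP_7c08ba_nt.RZ.StH
import Pool.Agent.Lib.MP_7c08ba_nt.RZ.Raise

set_option autoImplicit false

/-!
Raising the weight of a theta identity from one to `2 * r + 1` with Laguerre polynomials, for
theta series over two different index sets with bounded coefficients.
-/

namespace Pool.Agent.Lib.MP_7c08ba_nt

namespace RZ

namespace Raise3Aux

open RaiseAux

open scoped ComplexConjugate Topology

section

variable {ι : Type} (Q : ι → ℝ) (C : ι → ℂ) (hQ : ∀ i, 0 ≤ Q i) (hC : ∀ i, ‖C i‖ ≤ 1)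
  (hs : ∀ y : ℝ, 0 < y → Summable fun i => Real.exp (-Q i * y))

include hQ hC hs in
lemma double_summable' (z : ℂ) (hz : 0 < z.im) (t : ℂ) (ht : ‖t‖ ≤ 1 / 4) :
    Summable fun p : ℕ × ι => ‖C p.2 * lag p.1 (4 * Real.pi * Q p.2 * z.im) *
      ee (Q p.2 * z) * t ^ p.1‖ := by
  refine Summable.of_nonneg_of_le (fun p => norm_nonneg _) (fun p => ?_)
    (double_summable Q hQ hs z hz t ht)
  rw [mul_assoc (C p.2), mul_assoc (C p.2), norm_mul (C p.2)]
  exact mul_le_of_le_one_left (norm_nonneg _) (hC p.2)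

include hQ hC hs in
lemma single_summable' (z : ℂ) (hz : 0 < z.im) (r : ℕ) :
    Summable fun i => C i * lag r (4 * Real.pi * Q i * z.im) * ee (Q i * z) := by
  have h := (double_summable' Q C hQ hC hs z hz (1 / 4) (by norm_num)).of_norm
  have h1 := h.prod_factor r
  have h2 := h1.mul_right (((1 / 4 : ℂ) ^ r)⁻¹)
  refine h2.congr fun i => ?_
  field_simp

include hQ hC hs in
/-- The generating series of the theta series with Laguerre polynomials. -/
lemma theta_hasSum' (z : ℂ) (hz : 0 < z.im) (t : ℂ) (ht : ‖t‖ ≤ 1 / 4) :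
    HasSum (fun r : ℕ => (∑' i, C i * lag r (4 * Real.pi * Q i * z.im) * ee (Q i * z)) * t ^ r)
      ((1 - t)⁻¹ * ∑' i, C i * ee (Q i * ((z - t * conj z) / (1 - t)))) := by
  have h1t : (1 : ℂ) - t ≠ 0 := by
    intro h
    have : t = 1 := by linear_combination -h
    rw [this] at ht
    norm_num at ht
  have hf := double_summable' Q C hQ hC hs z hz t ht
  have hA : ∀ r : ℕ, HasSum (fun i => C i * lag r (4 * Real.pi * Q i * z.im) * ee (Q i * z) *
      t ^ r) ((∑' i, C i * lag r (4 * Real.pi * Q i * z.im) * ee (Q i * z)) * t ^ r) := fun r =>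
    (single_summable' Q C hQ hC hs z hz r).hasSum.mul_right _
  have hB : ∀ i, HasSum (fun r : ℕ => C i * lag r (4 * Real.pi * Q i * z.im) * ee (Q i * z) *
      t ^ r) ((1 - t)⁻¹ * (C i * ee (Q i * ((z - t * conj z) / (1 - t))))) := by
    intro i
    have h := (lag_gen (4 * Real.pi * Q i * z.im) t (by linarith)).mul_left (ee (Q i * z))
    have e1 : ee (Q i * z) * ((1 - t)⁻¹ *
        Complex.exp (-(4 * Real.pi * Q i * z.im * t / (1 - t)))) =
        (1 - t)⁻¹ * ee (Q i * ((z - t * conj z) / (1 - t))) := by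
      have e2 : ee (Q i * ((z - t * conj z) / (1 - t))) = ee (Q i * z) *
          Complex.exp (-(4 * Real.pi * Q i * z.im * t / (1 - t))) := by
        rw [ee, ee, ← Complex.exp_add]
        congr 1
        have hc : z - conj z = 2 * z.im * Complex.I := by
          apply Complex.ext
          · simp
          · simp
            ring
        have e3 : (z - t * conj z) / (1 - t) = z + (2 * z.im * Complex.I) * t / (1 - t) := by
          rw [← hc]
          field_simp
          ring
        rw [e3]
        field_simp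
        ring_nf
        rw [Complex.I_sq]
        ring
      rw [e2]
      ring
    rw [e1] at h
    have h' := h.mul_left (C i)
    rw [mul_left_comm] at h'
    refine h'.congr_fun fun r => ?_
    ring
  have hsum : Summable fun i => (1 - t)⁻¹ * (C i * ee (Q i * ((z - t * conj z) / (1 - t)))) := by
    obtain ⟨a, ha⟩ := hf.of_norm
    have ha' : HasSum ((fun p : ℕ × ι => C p.2 * lag p.1 (4 * Real.pi * Q p.2 * z.im) *
        ee (Q p.2 * z) * t ^ p.1) ∘ (Equiv.prodComm ι ℕ)) a := (Equiv.hasSum_iff _).2 ha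
    exact (ha'.prod_fiberwise (fun i => hB i)).summable
  have hCC := hsum.hasSum
  rw [tsum_mul_left] at hCC
  exact exch (fun p : ℕ × ι => C p.2 * lag p.1 (4 * Real.pi * Q p.2 * z.im) * ee (Q p.2 * z) *
    t ^ p.1) hf _ _ _ hA hB hCC

end

end Raise3Aux

open RaiseAux Raise3Aux in
theorem stRaise3 : StRaise3 := by
  intro ι ι' r Q Q' C C' a b c d κ hQ hQ' hC hC' hs hs' hdet hth z hz
  set z' : ℂ := (a * z + b) / (c * z + d) with hz'
  have hD : (c : ℂ) * z + d ≠ 0 := denom_ne a b c d hdet z hz
  have hDc : (c : ℂ) * (starRingEnd ℂ) z + d ≠ 0 := by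
    intro h
    apply hD
    have := congrArg (starRingEnd ℂ) h
    simpa using this
  have hcz' : (starRingEnd ℂ) z' = (a * (starRingEnd ℂ) z + b) / (c * (starRingEnd ℂ) z + d) := by
    rw [hz']
    simp
  set ρ : ℂ := (c * (starRingEnd ℂ) z + d) / (c * z + d) with hρ
  have hρ0 : ρ ≠ 0 := div_ne_zero hDc hD
  have hρn : ‖ρ‖ = 1 := by
    rw [hρ, norm_div]
    have : (c : ℂ) * (starRingEnd ℂ) z + d = (starRingEnd ℂ) (c * z + d) := by simp
    rw [this, Complex.norm_conj]
    exact div_self (by simpa using hD)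
  have hns : Complex.normSq (c * z + d) ≠ 0 := by
    simpa using hD
  have hy' : (z'.im : ℂ) * ((c * z + d) * (c * (starRingEnd ℂ) z + d)) = z.im := by
    have e1 : (2 * Complex.I) * ((z'.im : ℂ) * ((c * z + d) * (c * (starRingEnd ℂ) z + d))) =
        (2 * Complex.I) * z.im := by
      have hc1 : z' - (starRingEnd ℂ) z' = 2 * z'.im * Complex.I := by
        apply Complex.ext
        · simp
        · simp
          ring
      have hc2 : z - (starRingEnd ℂ) z = 2 * z.im * Complex.I := by
        apply Complex.ext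
        · simp
        · simp
          ring
      have hdet' : (a : ℂ) * d - b * c = 1 := by exact_mod_cast hdet
      have e2 : (z' - (starRingEnd ℂ) z') * ((c * z + d) * (c * (starRingEnd ℂ) z + d)) =
          z - (starRingEnd ℂ) z := by
        rw [hcz', hz']
        exact alg1 _ _ _ _ _ _ hD hDc hdet'
      linear_combination e2 - ((c * z + d) * (c * (starRingEnd ℂ) z + d)) * hc1 + hc2
    exact mul_left_cancel₀ (by simp [Complex.I_ne_zero]) e1
  have hz'im : 0 < z'.im := by
    have h1 : (c * z + d) * (c * (starRingEnd ℂ) z + d) = (Complex.normSq (c * z + d) : ℂ) := by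
      rw [← Complex.mul_conj]
      simp
    rw [h1] at hy'
    have h2 : z'.im * Complex.normSq (c * z + d) = z.im := by exact_mod_cast hy'
    have h3 : 0 < Complex.normSq (c * z + d) := Complex.normSq_pos.2 hD
    by_contra h4
    have : z'.im * Complex.normSq (c * z + d) ≤ 0 :=
      mul_nonpos_of_nonpos_of_nonneg (not_lt.1 h4) h3.le
    linarith
  -- the two power series
  have key := coeff_unique
    (fun r => (∑' i, C i * lag r (4 * Real.pi * Q i * z'.im) * ee (Q i * z')) * ρ ^ r)
    (fun r => κ * (c * z + d) * ∑' i, C' i * lag r (4 * Real.pi * Q' i * z.im) * ee (Q' i * z))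
    (fun t => κ * (c * z + d) * ((1 - t)⁻¹ *
      ∑' i, C' i * ee (Q' i * ((z - t * (starRingEnd ℂ) z) / (1 - t)))))
    (fun t ht => by
      have ht' : ‖ρ * t‖ ≤ 1 / 4 := by rw [norm_mul, hρn, one_mul]; exact ht
      have h := theta_hasSum' Q C hQ hC hs z' hz'im (ρ * t) ht'
      have h1t : (1 : ℂ) - t ≠ 0 := by
        intro h
        have : t = 1 := by linear_combination -h
        rw [this] at ht
        norm_num at ht
      have h1t' : (1 : ℂ) - ρ * t ≠ 0 := by
        intro h
        have : ρ * t = 1 := by linear_combination -h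
        rw [this] at ht'
        norm_num at ht'
      have hp := point_im z t hz ht
      have hth' := hth _ hp
      have e1 : (a * ((z - t * (starRingEnd ℂ) z) / (1 - t)) + b) /
          (c * ((z - t * (starRingEnd ℂ) z) / (1 - t)) + d) =
          (z' - ρ * t * (starRingEnd ℂ) z') / (1 - ρ * t) := by
        rw [hcz', hz', hρ]
        exact alg2 _ _ _ _ _ _ _ hD hDc h1t
      have e2 : (1 - ρ * t)⁻¹ * (c * ((z - t * (starRingEnd ℂ) z) / (1 - t)) + d) =
          (c * z + d) * (1 - t)⁻¹ := by
        rw [inv_mul_eq_iff_eq_mul₀ h1t', hρ]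
        field_simp
        ring
      rw [e1] at hth'
      rw [hth'] at h
      have e3 : (1 - ρ * t)⁻¹ * (κ * (c * ((z - t * (starRingEnd ℂ) z) / (1 - t)) + d) *
          ∑' i, C' i * ee (Q' i * ((z - t * (starRingEnd ℂ) z) / (1 - t)))) =
          κ * (c * z + d) * ((1 - t)⁻¹ *
            ∑' i, C' i * ee (Q' i * ((z - t * (starRingEnd ℂ) z) / (1 - t)))) := by
        linear_combination (κ * ∑' i, C' i * ee (Q' i * ((z - t * (starRingEnd ℂ) z) / (1 - t)))) * e2
      rw [e3] at h
      refine h.congr_fun fun n => ?_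
      rw [mul_pow]
      ring)
    (fun t ht => by
      have h := (theta_hasSum' Q' C' hQ' hC' hs' z hz t ht).mul_left (κ * (c * z + d))
      refine h.congr_fun fun n => ?_
      ring) r
  have hzi : (z.im : ℂ) ≠ 0 := by exact_mod_cast hz.ne'
  have hz'i : (z'.im : ℂ) ≠ 0 := by exact_mod_cast hz'im.ne'
  have e4 : ((z'.im : ℂ) ^ r)⁻¹ = ((z.im : ℂ) ^ r)⁻¹ * (c * z + d) ^ (2 * r) * ρ ^ r := by
    rw [← hy', hρ, div_pow, mul_pow, mul_pow, pow_mul']
    field_simp
  beta_reduce at key
  rw [e4]
  calc ((z.im : ℂ) ^ r)⁻¹ * (c * z + d) ^ (2 * r) * ρ ^ r *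
        ∑' i, C i * lag r (4 * Real.pi * Q i * z'.im) * ee (Q i * z')
      = ((z.im : ℂ) ^ r)⁻¹ * (c * z + d) ^ (2 * r) *
        ((∑' i, C i * lag r (4 * Real.pi * Q i * z'.im) * ee (Q i * z')) * ρ ^ r) := by ring
    _ = _ := by
      rw [key]
      ring


end RZ

end Pool.Agent.Lib.MP_7c08ba_nt
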