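import Pool.Agent.Lib.MP_7c08ba_nt.RZ.StH
import Pool.Agent.Lib.MP_7c08ba_nt.RZ.RepsD

set_option autoImplicit false

/-! (H2) representatives prime to `s`, for every even fundamental discriminant. -/

namespace Pool.Agent.Lib.MP_7c08ba_nt

namespace RZ

open NumberField
open scoped nonZeroDivisors

theorem stRepsE (h : StBasE) (h2 : StBaseE) : StRepsE := by
  intro D F _ _ s σ χ cj hD
  obtain ⟨-, -, -, -, -, -, -, b8, -, -⟩ := h D F _ _ s σ χ cj hD
  obtain ⟨c1, -⟩ := h2 D F _ _ s σ χ cj hD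
  have hD3 : 3 < D := by
    have h3 := hD.ev
    unfold EvD at h3
    omega
  have hs0 : s ≠ 0 := by
    intro h
    have h1 := hD.sq
    rw [h] at h1
    have h2 : (D : 𝓞 F) = 0 := by
      have : (0 : 𝓞 F) ^ 2 = 0 := by ring
      rw [this] at h1
      linear_combination h1
    have h3 : D = 0 := by exact_mod_cast h2
    omega
  have hsu : ¬ IsUnit s := by
    intro hu
    have h1 : s ^ 2 = 1 := by
      rcases b8 s hu with h | h <;> rw [h] <;> ring
    rw [hD.sq] at h1
    have h2 : ((D + 1 : ℕ) : 𝓞 F) = 0 := by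
      push_cast
      linear_combination -h1
    have h3 : D + 1 = 0 := by exact_mod_cast h2
    omega
  choose R hR hR2 using exists_coprime_rep (F := F) hs0 hsu
  have hb : ∀ A, ∃ xy : 𝓞 F × 𝓞 F, OBasis σ (R A : Ideal (𝓞 F)) xy.1 xy.2 := by
    intro A
    obtain ⟨x, y, hxy⟩ := c1 (R A : Ideal (𝓞 F)) (mem_nonZeroDivisors_iff_ne_zero.1 (R A).2)
    exact ⟨(x, y), hxy⟩
  choose xy hxy using hb
  exact ⟨⟨R, fun A => (xy A).1, fun A => (xy A).2, hR, hxy⟩, hR2⟩

end RZ

end Pool.Agent.Lib.MP_7c08ba_nt
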