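import Pool.Agent.Lib.MP_7c08ba_nt.RZ.StH

set_option autoImplicit false

/-! (H12) splitting of primes, every even fundamental discriminant. -/

namespace Pool.Agent.Lib.MP_7c08ba_nt

namespace RZ

open NumberField MeasureTheory UpperHalfPlane Set
open scoped MatrixGroups ComplexConjugate nonZeroDivisors

namespace SplitEAux

variable {F : Type} [Field F] [NumberField F]

theorem N_mul (x y : 𝓞 F) : Ideal.absNorm (Ideal.span {x * y}) =
    Ideal.absNorm (Ideal.span {x}) * Ideal.absNorm (Ideal.span {y}) := by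
  rw [← Ideal.span_singleton_mul_span_singleton, map_mul]

theorem N_dvd {x y : 𝓞 F} (h : x ∣ y) : Ideal.absNorm (Ideal.span {x}) ∣
    Ideal.absNorm (Ideal.span {y}) := by
  obtain ⟨z, rfl⟩ := h
  rw [N_mul]
  exact dvd_mul_right _ _

theorem castinj {m n : ℕ} (h : (m : 𝓞 F) = n) : m = n := by exact_mod_cast h

theorem ram_sq {R : Type} [CommRing R] {p τ u v w z : R} (h1 : τ ^ 2 = p * z)
    (h2 : p = u * (p * p) + v * (p * τ) + w * (τ * τ)) :
    Ideal.span {p, τ} ^ 2 = Ideal.span {p} := by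
  apply le_antisymm
  · rw [sq, Ideal.span_pair_mul_span_pair, Ideal.span_le]
    rintro y hy
    simp only [Set.mem_insert_iff, Set.mem_singleton_iff] at hy
    rw [SetLike.mem_coe, Ideal.mem_span_singleton]
    rcases hy with rfl | rfl | rfl | rfl
    · exact dvd_mul_right _ _
    · exact dvd_mul_right _ _
    · exact dvd_mul_left _ _
    · rw [← sq, h1]
      exact dvd_mul_right _ _
  · rw [Ideal.span_singleton_le_iff_mem, sq]
    have hp : p ∈ Ideal.span {p, τ} := Ideal.subset_span (by simp)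
    have ht : τ ∈ Ideal.span {p, τ} := Ideal.subset_span (by simp)
    have h3 : u * (p * p) + v * (p * τ) + w * (τ * τ) ∈
        Ideal.span {p, τ} * Ideal.span {p, τ} := add_mem (add_mem (Ideal.mul_mem_left _ _ (Ideal.mul_mem_mul hp hp))
      (Ideal.mul_mem_left _ _ (Ideal.mul_mem_mul hp ht)))
      (Ideal.mul_mem_left _ _ (Ideal.mul_mem_mul ht ht))
    rwa [← h2] at h3

end SplitEAux

open SplitEAux in
theorem stSplitE (hB : StBasE) : StSplitE := by
  intro D F _ _ s σ χ cj hD p hp
  obtain ⟨⟨t, hst, ht2, hcoord, -, hNf⟩, hcc, hcs, hsd, hN, -, hI, hun, -, hsn⟩ :=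
    hB D F _ _ s σ χ cj hD
  obtain ⟨hD4, n, hDn, hsqf, hn4⟩ := hD.ev
  have hDn' : D / 4 = n := by omega
  have hs2 := hD.sq
  rw [hDn'] at ht2
  simp only [hDn'] at hNf
  have hct : cj t = -t := by
    have h1 : (2 : 𝓞 F) * cj t = 2 * -t := by
      have h2 := hcs
      rw [hst, map_mul, map_ofNat] at h2
      rw [h2]
      ring
    exact mul_left_cancel₀ two_ne_zero h1
  have hp0 : (p : 𝓞 F) ≠ 0 := by exact_mod_cast hp.ne_zero
  have hNp : ∀ n : ℕ, Ideal.absNorm (Ideal.span {(n : 𝓞 F)}) = n * n := by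
    intro n
    have := hN (n : 𝓞 F)
    rw [map_natCast] at this
    exact castinj (F := F) (by rw [← this]; push_cast; rfl)
  have hnu : ¬ IsUnit (p : 𝓞 F) := by
    intro h
    have h1 : Ideal.absNorm (Ideal.span {(p : 𝓞 F)}) = 1 := by
      rw [Ideal.absNorm_eq_one_iff, Ideal.span_singleton_eq_top]
      exact h
    rw [hNp] at h1
    have := hp.one_lt
    nlinarith
  have hxdvd : ∀ x : 𝓞 F, (p : 𝓞 F) ∣ cj x → (p : 𝓞 F) ∣ x := by
    rintro x ⟨y, hy⟩
    refine ⟨cj y, ?_⟩
    have := congrArg cj hy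
    rwa [hcc, map_mul, map_natCast] at this
  have hNs : Ideal.absNorm (Ideal.span {s}) = D := by
    have := hN s
    rw [hcs] at this
    exact castinj (F := F) (by rw [← this]; linear_combination -hs2)
  refine ⟨fun hJ => ?_, fun hJ => ?_, fun hJ => ?_⟩
  · -- split case
    have hpo : Odd p := by
      rw [← Nat.not_even_iff_odd]
      intro h
      rw [kr, if_pos h] at hJ
      exact zero_ne_one hJ
    rw [kr, if_neg (Nat.not_even_iff_odd.2 hpo), hDn'] at hJ
    have : Fact p.Prime := ⟨hp⟩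
    have hp2 : ¬ p ∣ 2 := by
      intro h
      have := (Nat.prime_dvd_prime_iff_eq hp Nat.prime_two).1 h
      rw [this] at hpo
      exact absurd hpo (by decide)
    have hpn : ¬ p ∣ n := by
      intro h
      have h1 : jacobiSym (-(n : ℤ)) p = 0 := by
        rw [jacobiSym.eq_zero_iff]
        refine ⟨hp.ne_zero, ?_⟩
        rw [Int.neg_gcd, Int.gcd_natCast_natCast, Nat.gcd_eq_right h]
        exact hp.ne_one
      rw [h1] at hJ
      exact zero_ne_one hJ
    have hpq : ¬ p ∣ D := by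
      intro h
      rw [hDn, show (4 : ℕ) = 2 * 2 from rfl] at h
      rcases hp.dvd_mul.1 h with h | h
      · rcases hp.dvd_mul.1 h with h | h
        · exact hp2 h
        · exact hp2 h
      · exact hpn h
    obtain ⟨x, c, hx1, hx2, hc1, hc2⟩ : ∃ (x : 𝓞 F) (c : ℕ), p ∣ Ideal.absNorm (Ideal.span {x}) ∧
        ¬ (p : 𝓞 F) ∣ x ∧ x - cj x = c * s ∧ ¬ p ∣ c := by
      have h2 := ZMod.isSquare_of_jacobiSym_eq_one hJ
      obtain ⟨u, hu⟩ := h2
      obtain ⟨a, rfl⟩ := ZMod.intCast_surjective u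
      have h3 : (p : ℤ) ∣ a ^ 2 + n * 1 ^ 2 := by
        rw [← ZMod.intCast_zmod_eq_zero_iff_dvd]
        push_cast
        push_cast at hu
        linear_combination -hu
      have hx : ((a : ℤ) : 𝓞 F) + ((1 : ℤ) : 𝓞 F) * t - cj (((a : ℤ) : 𝓞 F) + ((1 : ℤ) : 𝓞 F) * t) =
          s := by
        rw [map_add, map_mul, map_intCast, map_intCast, hct, hst]
        push_cast
        ring
      refine ⟨((a : ℤ) : 𝓞 F) + ((1 : ℤ) : 𝓞 F) * t, 1, ?_, ?_, ?_, hp.not_dvd_one⟩
      · rw [← hNf] at h3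
        exact_mod_cast h3
      · rintro ⟨y, hy⟩
        have h4 : (p : 𝓞 F) * (y - cj y) = s := by
          rw [← hx, hy, map_mul, map_natCast]
          ring
        have h5 := N_dvd (F := F) (Dvd.intro _ h4)
        rw [hNp, hNs] at h5
        exact hpq ((dvd_mul_right p p).trans h5)
      · rw [hx, Nat.cast_one, one_mul]
    -- the ideal `(p)` is not prime
    have hxp : x * cj x ∈ Ideal.span {(p : 𝓞 F)} := by
      rw [hN, Ideal.mem_span_singleton]
      exact_mod_cast (Nat.cast_dvd_cast (α := 𝓞 F) hx1)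
    have hnp : ¬ (Ideal.span {(p : 𝓞 F)}).IsPrime := by
      intro h
      rcases h.mem_or_mem hxp with h1 | h1
      · exact hx2 (Ideal.mem_span_singleton.1 h1)
      · exact hx2 (hxdvd x (Ideal.mem_span_singleton.1 h1))
    have htop : Ideal.span {(p : 𝓞 F)} ≠ ⊤ := by
      rw [Ne, Ideal.span_singleton_eq_top]
      exact hnu
    obtain ⟨P, hPm, hPle⟩ := Ideal.exists_le_maximal _ htop
    have hPp : P.IsPrime := hPm.isPrime
    have hdvd := Ideal.absNorm_dvd_absNorm_of_le hPle
    rw [hNp, ← sq, Nat.dvd_prime_pow hp] at hdvd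
    obtain ⟨k, hk2, hk⟩ := hdvd
    have hk1 : k = 1 := by
      rcases (by omega : k = 0 ∨ k = 1 ∨ k = 2) with rfl | rfl | rfl
      · rw [pow_zero, Ideal.absNorm_eq_one_iff] at hk
        exact absurd hk hPp.ne_top
      · rfl
      · exfalso
        obtain ⟨J, hJJ⟩ := Ideal.dvd_iff_le.2 hPle
        have h1 := congrArg Ideal.absNorm hJJ
        rw [map_mul, hk, hNp, ← sq] at h1
        have h2 : Ideal.absNorm J = 1 := by
          have h3 : 0 < p ^ 2 := pow_pos hp.pos 2
          exact (Nat.mul_left_cancel h3 (by rw [mul_one]; exact h1)).symm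
        rw [Ideal.absNorm_eq_one_iff] at h2
        rw [h2, Ideal.mul_top] at hJJ
        rw [hJJ] at hnp
        exact hnp hPp
    rw [hk1, pow_one] at hk
    have hPP := hI P
    rw [hk] at hPP
    have hcjm : ∀ y, y ∈ P → cj y ∈ P.map (cj : 𝓞 F →+* 𝓞 F) := fun y hy =>
      Ideal.mem_map_of_mem _ hy
    refine ⟨P, P.map (cj : 𝓞 F →+* 𝓞 F), hPp, ?_, ?_, hPP, hk, ?_⟩
    · exact Ideal.map_isPrime_of_equiv cj
    · intro heq
      have h1 : x ∈ P ∧ cj x ∈ P := by
        rcases hPp.mem_or_mem (hPle hxp) with h1 | h1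
        · refine ⟨h1, ?_⟩
          rw [heq]
          exact hcjm x h1
        · refine ⟨?_, h1⟩
          rw [heq]
          have := hcjm _ h1
          rwa [hcc] at this
      have h2 := P.sub_mem h1.1 h1.2
      rw [hc1] at h2
      have h3 : ((c * c * D : ℕ) : 𝓞 F) ∈ P := by
        have h4 := P.mul_mem_left (-(c * s : 𝓞 F)) h2
        have h5 : -(c * s : 𝓞 F) * (c * s) = ((c * c * D : ℕ) : 𝓞 F) := by
          push_cast
          linear_combination -(c : 𝓞 F) ^ 2 * hs2
        rwa [h5] at h4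
      have h6 : (p : 𝓞 F) ∈ P := hPle (Ideal.mem_span_singleton_self _)
      have h7 : IsCoprime (p : ℤ) ((c * c * D : ℕ) : ℤ) := by
        rw [Nat.isCoprime_iff_coprime]
        have h8 : Nat.Coprime p c := (Nat.Prime.coprime_iff_not_dvd hp).2 hc2
        have h9 : Nat.Coprime p D := (Nat.Prime.coprime_iff_not_dvd hp).2 hpq
        exact (h8.mul_right h8).mul_right h9
      obtain ⟨u, v, huv⟩ := h7
      apply hPp.ne_top
      rw [Ideal.eq_top_iff_one]
      have h8 := congrArg (fun t : ℤ => (t : 𝓞 F)) huv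
      simp only [Int.cast_add, Int.cast_mul, Int.cast_natCast, Int.cast_one] at h8
      rw [← h8]
      exact P.add_mem (P.mul_mem_left _ h6) (P.mul_mem_left _ h3)
    · have h1 := congrArg Ideal.absNorm hPP
      rw [map_mul, hk, hNp] at h1
      exact Nat.mul_left_cancel hp.pos h1
  · -- inert case
    have hpo : Odd p := by
      rw [← Nat.not_even_iff_odd]
      intro h
      rw [kr, if_pos h] at hJ
      exact absurd hJ (by norm_num)
    rw [kr, if_neg (Nat.not_even_iff_odd.2 hpo), hDn'] at hJ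
    have : Fact p.Prime := ⟨hp⟩
    have key : ∀ x : 𝓞 F, p ∣ Ideal.absNorm (Ideal.span {x}) → (p : 𝓞 F) ∣ x := by
      intro x hx
      obtain ⟨a, b, rfl⟩ := hcoord x
      have h5 := hNf a b
      have h6 : (p : ℤ) ∣ a ^ 2 - -(n : ℤ) * b ^ 2 := by
        have h7 : a ^ 2 - -(n : ℤ) * b ^ 2 = a ^ 2 + (n : ℤ) * b ^ 2 := by ring
        rw [h7, ← h5]
        exact_mod_cast hx
      obtain ⟨⟨a', ha'⟩, ⟨b', hb'⟩⟩ := jacobiSym.prime_dvd_of_eq_neg_one hJ h6
      refine ⟨a' + b' * t, ?_⟩
      rw [ha', hb']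
      push_cast
      ring
    refine ⟨?_, ?_⟩
    · rw [Ideal.span_singleton_prime hp0]
      refine ⟨hp0, hnu, fun a b hab => ?_⟩
      have h2 : p ∣ Ideal.absNorm (Ideal.span {a}) * Ideal.absNorm (Ideal.span {b}) := by
        rw [← N_mul]
        have h3 := N_dvd hab
        rw [hNp] at h3
        exact (dvd_mul_right p p).trans h3
      rcases hp.dvd_mul.1 h2 with h3 | h3
      · exact Or.inl (key _ h3)
      · exact Or.inr (key _ h3)
    · rw [hNp, sq]
  · -- ramified case
    have hfin : ∀ τ u v w z : 𝓞 F, τ ^ 2 = p * z →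
        (p : 𝓞 F) = u * (p * p) + v * (p * τ) + w * (τ * τ) →
        ∃ P : Ideal (𝓞 F), P.IsPrime ∧ P ^ 2 = Ideal.span {(p : 𝓞 F)} ∧
          Ideal.absNorm P = p := by
      intro τ u v w z h1 h2
      have h3 := ram_sq h1 h2
      have h4 : Ideal.absNorm (Ideal.span {(p : 𝓞 F), τ}) = p := by
        have h5 := congrArg Ideal.absNorm h3
        rw [map_pow, hNp, ← sq] at h5
        exact Nat.pow_left_injective two_ne_zero h5
      refine ⟨_, ?_, h3, h4⟩
      refine Ideal.isPrime_of_irreducible_absNorm ?_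
      rw [h4]
      exact hp
    rcases Nat.even_or_odd p with he | ho
    · have hp2 : p = 2 := (hp.even_iff).1 he
      subst hp2
      refine ⟨⟨2 * n, by omega⟩, ?_⟩
      rcases hn4 with h | h
      · obtain ⟨k, hk⟩ : ∃ k : ℕ, n = 4 * k + 1 := ⟨n / 4, by omega⟩
        have ht3 : t ^ 2 = -(4 * (k : 𝓞 F) + 1) := by
          rw [ht2, hk]
          push_cast
          ring
        refine hfin (1 + t) (-k) 1 (-1) (t - 2 * k) ?_ ?_
        · push_cast
          linear_combination ht3
        · push_cast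
          linear_combination ht3
      · obtain ⟨k, hk⟩ : ∃ k : ℕ, n = 4 * k + 2 := ⟨n / 4, by omega⟩
        have ht3 : t ^ 2 = -(4 * (k : 𝓞 F) + 2) := by
          rw [ht2, hk]
          push_cast
          ring
        refine hfin t (-k) 0 (-1) (-(2 * k + 1)) ?_ ?_
        · push_cast
          linear_combination ht3
        · push_cast
          linear_combination ht3
    · rw [kr, if_neg (Nat.not_even_iff_odd.2 ho), hDn'] at hJ
      have hpn : p ∣ n := by
        rw [jacobiSym.eq_zero_iff] at hJ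
        obtain ⟨-, h1⟩ := hJ
        by_contra h2
        apply h1
        rw [Int.neg_gcd, Int.gcd_natCast_natCast, Nat.gcd_comm]
        exact (Nat.Prime.coprime_iff_not_dvd hp).2 h2
      obtain ⟨m, hm⟩ := hpn
      have hpm : Nat.Coprime p m := by
        rw [hm] at hsqf
        exact (Nat.squarefree_mul_iff.1 hsqf).1
      have h7 : IsCoprime (p : ℤ) (m : ℤ) := Nat.isCoprime_iff_coprime.2 hpm
      obtain ⟨u, v, huv⟩ := h7
      have h8 : (u : 𝓞 F) * p + v * m = 1 := by
        have h9 := congrArg (fun t : ℤ => (t : 𝓞 F)) huv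
        simpa only [Int.cast_add, Int.cast_mul, Int.cast_natCast, Int.cast_one] using h9
      have ht3 : t ^ 2 = -((p : 𝓞 F) * m) := by
        rw [ht2, hm]
        push_cast
        ring
      refine ⟨⟨4 * m, by rw [hDn, hm]; ring⟩, ?_⟩
      refine hfin t u 0 (-v) (-m) ?_ ?_
      · linear_combination ht3
      · linear_combination (-(p : 𝓞 F)) * h8 + (v : 𝓞 F) * ht3

end RZ

end Pool.Agent.Lib.MP_7c08ba_nt
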