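import Pool.Agent.Lib.MP_7c08ba_nt.RZ.StH
import Pool.Agent.Lib.MP_7c08ba_nt.RZ.SSinv

set_option autoImplicit false

/-! (H32) invariance of the sums `TTE`. -/

namespace Pool.Agent.Lib.MP_7c08ba_nt

namespace RZ

open NumberField
open scoped ComplexConjugate nonZeroDivisors

namespace TTinvEAux

open SSinvAux

variable {F : Type} [Field F] [NumberField F]

omit [NumberField F] in
theorem isUnit_mk {s t : 𝓞 F} (h : IsCoprime t s) :
    IsUnit (Ideal.Quotient.mk (Ideal.span {s}) t) := by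
  obtain ⟨a, b, hab⟩ := h
  have h1 : Ideal.Quotient.mk (Ideal.span {s}) s = 0 :=
    Ideal.Quotient.eq_zero_iff_mem.2 (Ideal.mem_span_singleton_self s)
  have h2 := congrArg (Ideal.Quotient.mk (Ideal.span {s})) hab
  rw [map_add, map_mul, map_mul, h1, mul_zero, add_zero, map_one] at h2
  exact IsUnit.of_mul_eq_one _ (by rw [mul_comm]; exact h2)

omit [NumberField F] in
theorem cong_iff {s t u : 𝓞 F} (ht : IsCoprime t s)
    {ρ ρ₁ : 𝓞 F ⧸ Ideal.span {s}}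
    (hρ : ρ₁ * Ideal.Quotient.mk (Ideal.span {s}) u =
      Ideal.Quotient.mk (Ideal.span {s}) t * ρ) (x y : 𝓞 F) :
    Ideal.Quotient.mk (Ideal.span {s}) (t * x) =
        ρ₁ * Ideal.Quotient.mk (Ideal.span {s}) (u * y) ↔
      Ideal.Quotient.mk (Ideal.span {s}) x = ρ * Ideal.Quotient.mk (Ideal.span {s}) y := by
  rw [map_mul, map_mul, ← mul_assoc, hρ, mul_assoc]
  exact (isUnit_mk ht).mul_right_inj

variable {σ : F →+* ℂ}

theorem TT_mul (hn : ∀ x : 𝓞 F, Complex.normSq (σ x) =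
      (Ideal.absNorm (Ideal.span {x}) : ℝ)) (D w r m : ℕ) {s : 𝓞 F}
    {t u : 𝓞 F} (ht0 : t ≠ 0) (hu0 : u ≠ 0) (ht : IsCoprime t s)
    {ρ ρ₁ : 𝓞 F ⧸ Ideal.span {s}}
    (hρ : ρ₁ * Ideal.Quotient.mk (Ideal.span {s}) u =
      Ideal.Quotient.mk (Ideal.span {s}) t * ρ) (a b : Ideal (𝓞 F)) :
    TTE D w r m s σ (Ideal.span {t} * a) (Ideal.span {u} * b) ρ₁ =
      σ t ^ (w + 2 * r) * TTE D w r m s σ a b ρ := by
  unfold TTE
  let E : {p : a × b // Qa σ a p.1 - Qa σ b p.2 = D * m ∧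
        Ideal.Quotient.mk (Ideal.span {s}) (p.1 : 𝓞 F) =
          ρ * Ideal.Quotient.mk (Ideal.span {s}) (p.2 : 𝓞 F)} ≃
      {p : (Ideal.span {t} * a : Ideal (𝓞 F)) × (Ideal.span {u} * b : Ideal (𝓞 F)) //
        Qa σ (Ideal.span {t} * a) p.1 - Qa σ (Ideal.span {u} * b) p.2 = D * m ∧
        Ideal.Quotient.mk (Ideal.span {s}) (p.1 : 𝓞 F) =
          ρ₁ * Ideal.Quotient.mk (Ideal.span {s}) (p.2 : 𝓞 F)} :=
    ((me t ht0 a).prodCongr (me u hu0 b)).subtypeEquiv (by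
      rintro ⟨x, y⟩
      simp only [Equiv.prodCongr_apply, Prod.map_apply, me_val,
        Qa_mul hn t ht0, Qa_mul hn u hu0, cong_iff ht hρ])
  rw [← E.tsum_eq, ← tsum_mul_left]
  refine tsum_congr ?_
  rintro ⟨⟨x, y⟩, h⟩
  calc PT w r σ (Ideal.span {t} * a) (Ideal.span {u} * b) (t * (x : 𝓞 F)) (u * (y : 𝓞 F))
      = σ t ^ (w + 2 * r) * PT w r σ a (Ideal.span {u} * b) x (u * (y : 𝓞 F)) :=
        PT_mul_left hn w r t ht0 a _ x _
    _ = _ := by rw [PT_mul_right hn w r u hu0 a b x y]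

end TTinvEAux

open TTinvEAux in
theorem stTTinvE (h : StBasE) : StTTinvE := by
  intro D F _ _ s σ χ cj w r m ψ hD hψ
  obtain ⟨-, -, -, -, -, hn, -, -, hs, -⟩ := h D F _ _ s σ χ cj hD
  have hsu : ¬ IsUnit s := by
    intro hu
    have h1 : s ∣ ((1 : ℤ) : 𝓞 F) := by
      push_cast
      exact hu.dvd
    rw [hs] at h1
    have h2 := Int.le_of_dvd one_pos h1
    have h3 := hD.ev.1
    omega
  have ne0 : ∀ t : 𝓞 F, IsCoprime t s → t ≠ 0 := by
    rintro t hd rfl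
    exact hsu (isCoprime_zero_left.1 hd)
  have main : ∀ (a b : Ideal (𝓞 F)) (t u : 𝓞 F) (ρ ρ₁ : 𝓞 F ⧸ Ideal.span {s}),
      IsCoprime t s → IsCoprime u s →
      ρ₁ * Ideal.Quotient.mk (Ideal.span {s}) u =
        Ideal.Quotient.mk (Ideal.span {s}) t * ρ →
      (ψ (Ideal.span {t} * a))⁻¹ *
        TTE D w r m s σ (Ideal.span {t} * a) (Ideal.span {u} * b) ρ₁ =
        (ψ a)⁻¹ * TTE D w r m s σ a b ρ := by
    intro a b t u ρ ρ₁ ht hu hρ
    have ht0 := ne0 t ht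
    have h1 : σ t ^ (w + 2 * r) ≠ 0 := by
      refine pow_ne_zero _ ?_
      rw [Ne, map_eq_zero]
      simpa using ht0
    rw [TT_mul hn D w r m ht0 (ne0 u hu) ht hρ, map_mul, hψ t ht0, mul_inv]
    field_simp
  intro a a' b b' t t' u u' ρ ρ' _ _ _ _ _ _ _ _ ht ht' hu hu' hta hub hρ
  obtain ⟨iu, i1⟩ := (isUnit_mk hu).exists_right_inv
  rw [map_mul, map_mul] at hρ
  have e1 : (Ideal.Quotient.mk (Ideal.span {s}) t * ρ * iu) *
      Ideal.Quotient.mk (Ideal.span {s}) u = Ideal.Quotient.mk (Ideal.span {s}) t * ρ := by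
    linear_combination (Ideal.Quotient.mk (Ideal.span {s}) t * ρ) * i1
  have e2 : (Ideal.Quotient.mk (Ideal.span {s}) t * ρ * iu) *
      Ideal.Quotient.mk (Ideal.span {s}) u' = Ideal.Quotient.mk (Ideal.span {s}) t' * ρ' := by
    linear_combination (-iu) * hρ + (Ideal.Quotient.mk (Ideal.span {s}) t' * ρ') * i1
  simp only
  rw [← main a b t u ρ _ ht hu e1, hta, hub, main a' b' t' u' ρ' _ ht' hu' e2]

end RZ

end Pool.Agent.Lib.MP_7c08ba_nt
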