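import Pool.Agent.Lib.MP_7c08ba_nt.RZ.StH
import Pool.Agent.Lib.MP_7c08ba_nt.RZ.Glue

set_option autoImplicit false

/-! (H37) the sums `TTE` and the sums over matrices. -/

namespace Pool.Agent.Lib.MP_7c08ba_nt

namespace RZ

open NumberField MeasureTheory UpperHalfPlane Set IsDedekindDomain
open scoped MatrixGroups ComplexConjugate nonZeroDivisors

namespace TTmatE

open Glue

section

variable {F : Type} [Field F] [NumberField F] {q : ℕ} {s : 𝓞 F} {σ : F →+* ℂ}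
  {χ : DirichletCharacter ℂ q} {cj : 𝓞 F ≃+* 𝓞 F}

theorem tau_cj (D : DatE q s σ χ cj) (x : 𝓞 F) : tau σ (cj x) = conj (tau σ x) := D.conjσ x

theorem tau_mul_cj (D : DatE q s σ χ cj) (x : 𝓞 F) :
    tau σ (x * cj x) = (Complex.normSq (tau σ x) : ℂ) := by
  rw [map_mul, tau_cj D, Complex.mul_conj]

theorem absNorm_map (hB : StBasE) (D : DatE q s σ χ cj) {c : Ideal (𝓞 F)} (hc : c ≠ ⊥) :
    Ideal.absNorm (c.map (cj : 𝓞 F →+* 𝓞 F)) = Ideal.absNorm c := by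
  obtain ⟨-, -, -, -, -, -, h, -⟩ := hB q F _ _ s σ χ cj D
  have h1 := congrArg Ideal.absNorm (h c)
  rw [map_mul, Ideal.absNorm_span_natCast, RingOfIntegers.rank, D.fin, sq] at h1
  have h0 : Ideal.absNorm c ≠ 0 := by
    rwa [Ne, Ideal.absNorm_eq_zero_iff]
  exact mul_left_cancel₀ h0 h1

theorem tau_al (D : DatE q s σ χ cj) (c₁ c₂ d₁ d₂ : 𝓞 F) (g : Matrix (Fin 2) (Fin 2) ℤ) :
    tau σ (al cj c₁ c₂ d₁ d₂ g) =
      bil g (conj (tau σ c₁)) (conj (tau σ c₂)) (tau σ d₁) (tau σ d₂) := by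
  unfold al bil
  simp only [map_sub, map_mul, map_add, map_intCast, tau_cj D]

omit [NumberField F] in
theorem mk_one (x y : 𝓞 F) : Ideal.Quotient.mk (Ideal.span {s}) x =
    1 * Ideal.Quotient.mk (Ideal.span {s}) y ↔ s ∣ x - y := by
  rw [one_mul, Ideal.Quotient.eq, Ideal.mem_span_singleton]

end

end TTmatE

open Glue in
theorem stTTmatE (h1 : StImgE) (h2 : StBasE) (_h3 : StBaseE) : StTTmatE := by
  intro q F _ _ s σ χ cj w r m c d c₁ c₂ d₁ d₂ D hw hm hbc hbd hc hd hcs hds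
  classical
  obtain ⟨himg1, himg2, himg3⟩ := h1 q F _ _ s σ χ cj c d c₁ c₂ d₁ d₂ D hbc hbd hc hd hcs hds
  set A : Matrix (Fin 2) (Fin 2) ℤ → 𝓞 F := al cj c₁ c₂ d₁ d₂ with hA
  set B : Matrix (Fin 2) (Fin 2) ℤ → 𝓞 F := be c₁ c₂ d₁ d₂ with hB
  have i1 : ∀ g, A g * cj (A g) - B g * cj (B g) =
      (q : 𝓞 F) * (g.det : 𝓞 F) * (Ideal.absNorm c : 𝓞 F) * (Ideal.absNorm d : 𝓞 F) := himg1
  have i2 : ∀ g g', A g = A g' → B g = B g' → g = g' := himg2
  have i3 : ∀ x y : 𝓞 F, (x ∈ d * c.map (cj : 𝓞 F →+* 𝓞 F) ∧ y ∈ d * c ∧ s ∣ x - y) ↔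
      ∃ g, A g = x ∧ B g = y := himg3
  clear himg1 himg2 himg3
  set a : Ideal (𝓞 F) := d * c.map (cj : 𝓞 F →+* 𝓞 F) with ha
  set b : Ideal (𝓞 F) := d * c with hb
  set M : ℕ := Ideal.absNorm d * Ideal.absNorm c with hM
  have hc0 : Ideal.absNorm c ≠ 0 := by rwa [Ne, Ideal.absNorm_eq_zero_iff]
  have hd0 : Ideal.absNorm d ≠ 0 := by rwa [Ne, Ideal.absNorm_eq_zero_iff]
  have hM0 : M ≠ 0 := mul_ne_zero hd0 hc0
  have hMR : (M : ℝ) ≠ 0 := by exact_mod_cast hM0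
  have hq0 : q ≠ 0 := by
    have := D.ev.1
    omega
  have hqR : (q : ℝ) ≠ 0 := by exact_mod_cast hq0
  have haM : Ideal.absNorm a = M := by
    rw [ha, map_mul, TTmatE.absNorm_map h2 D hc]
  have hbM : Ideal.absNorm b = M := by
    rw [hb, map_mul]
  -- differences of norms
  have hdiff : ∀ g, Complex.normSq (tau σ (A g)) - Complex.normSq (tau σ (B g)) =
      q * (g.det : ℝ) * M := by
    intro g
    have h := congrArg (tau σ) (i1 g)
    rw [map_sub, TTmatE.tau_mul_cj D, TTmatE.tau_mul_cj D] at h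
    simp only [map_mul, map_natCast, map_intCast] at h
    generalize g.det = Δ at h ⊢
    have h' : ((Complex.normSq (tau σ (A g)) - Complex.normSq (tau σ (B g)) : ℝ) : ℂ) =
        ((q * (Δ : ℝ) * M : ℝ) : ℂ) := by
      rw [hM]
      push_cast
      rw [h]
      ring
    exact_mod_cast h'
  -- the sets
  set f : 𝓞 F × 𝓞 F → ℂ := fun p => PT w r σ a b p.1 p.2 with hf
  set P : Set (𝓞 F × 𝓞 F) := {p | p.1 ∈ a ∧ p.2 ∈ b ∧
    (Qa σ a p.1 - Qa σ b p.2 = q * m ∧ Ideal.Quotient.mk (Ideal.span {s}) p.1 =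
      1 * Ideal.Quotient.mk (Ideal.span {s}) p.2)} with hP
  have hQ : ∀ x y : 𝓞 F, Qa σ a x - Qa σ b y =
      (Complex.normSq (tau σ x) - Complex.normSq (tau σ y)) / M := by
    intro x y
    unfold Qa
    rw [haM, hbM]
    simp only [tau_def]
    ring
  -- the pairs attached to matrices
  have hρ : Function.Injective (fun g : DetM m => ((A g.1, B g.1) : 𝓞 F × 𝓞 F)) := by
    intro g g' h
    have e1 := congrArg Prod.fst h
    have e2 := congrArg Prod.snd h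
    exact Subtype.ext (i2 _ _ e1 e2)
  have hρP : ∀ g : DetM m, (A g.1, B g.1) ∈ P := by
    intro g
    obtain ⟨e1, e2, e3⟩ := (i3 (A g.1) (B g.1)).2 ⟨g.1, rfl, rfl⟩
    refine ⟨e1, e2, ?_, (TTmatE.mk_one _ _).2 e3⟩
    dsimp only
    rw [hQ, hdiff, g.2]
    push_cast
    field_simp
  have hPρ : ∀ p ∈ P, ∃ g : DetM m, (A g.1, B g.1) = p := by
    intro p hp
    obtain ⟨g, e1, e2⟩ := (i3 p.1 p.2).1 ⟨hp.1, hp.2.1, (TTmatE.mk_one _ _).1 hp.2.2.2⟩
    have h5 := hp.2.2.1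
    rw [hQ, ← e1, ← e2, hdiff, div_eq_iff hMR] at h5
    have h6 : (g.det : ℝ) = m := by
      have := mul_right_cancel₀ hMR h5
      exact mul_left_cancel₀ hqR this
    have h7 : g.det = m := by exact_mod_cast h6
    exact ⟨⟨g, h7⟩, Prod.ext e1 e2⟩
  -- the terms
  have hA0 : ∀ g : DetM m, tau σ (A g.1) ≠ 0 := by
    intro g h0
    have h5 := hdiff g.1
    rw [h0, g.2, map_zero] at h5
    have h6 : (0 : ℝ) < q * ((m : ℤ) : ℝ) * M := by
      have : (0 : ℝ) < m := by exact_mod_cast hm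
      push_cast
      positivity
    linarith [Complex.normSq_nonneg (tau σ (B g.1))]
  have hterm : ∀ g : DetM m, f (A g.1, B g.1) = (M : ℂ) ^ (w + r) *
      (((conj (bil g.1 (conj (tau σ c₁)) (conj (tau σ c₂)) (tau σ d₁) (tau σ d₂))) ^ (w + r))⁻¹ *
        (bil g.1 (conj (tau σ c₁)) (conj (tau σ c₂)) (tau σ d₁) (tau σ d₂)) ^ r *
        Jr w r (Complex.normSq (bil g.1 (tau σ c₁) (tau σ c₂) (tau σ d₁) (tau σ d₂)) /
          Complex.normSq (bil g.1 (conj (tau σ c₁)) (conj (tau σ c₂)) (tau σ d₁) (tau σ d₂)))) := by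
    intro g
    rw [hf]
    dsimp only
    rw [PT_eq w r hM0 haM hbM (hA0 g), hA, hB, TTmatE.tau_al D, tau_be]
  have hPval : ∑' p, P.indicator f p = (M : ℂ) ^ (w + r) * XX w r m (tau σ c₁) (tau σ c₂)
      (tau σ d₁) (tau σ d₂) := by
    rw [← hρ.tsum_eq (f := P.indicator f)]
    · unfold XX
      rw [← tsum_mul_left]
      refine tsum_congr fun g => ?_
      rw [Set.indicator_of_mem (hρP g) f, hterm g]
    · intro p hp
      have hpP : p ∈ P := by
        by_contra h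
        exact hp (Set.indicator_of_notMem h f)
      exact hPρ p hpP
  have hS : TTE q w r m s σ a b 1 = ∑' p, P.indicator f p :=
    pairs_tsum a b (fun x y => Qa σ a x - Qa σ b y = q * m ∧
      Ideal.Quotient.mk (Ideal.span {s}) x = 1 * Ideal.Quotient.mk (Ideal.span {s}) y) f
  rw [hS, hPval]
  simp only [tau_def]
  rw [hM]
  push_cast
  ring

end RZ

end Pool.Agent.Lib.MP_7c08ba_nt
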