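import Pool.Agent.Lib.MP_7c08ba_nt.RZ.ThB
import Pool.Agent.Lib.MP_7c08ba_nt.RZ.StH

set_option autoImplicit false

/-!
Theta series of ideals with bounded coefficients: convergence, continuity, size (module RZ-ThBE).
-/

namespace Pool.Agent.Lib.MP_7c08ba_nt

namespace RZ

open NumberField UpperHalfPlane
open scoped ComplexConjugate

namespace ThBEAux

open ThBAux

/-- Bounded sums with Laguerre polynomials. -/
theorem lagSumF {ι : Type} {N : ℝ} {W Q : ι → ℝ} (h : Dt N W Q) (f : ι → ℂ)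
    (hf : ∀ i, ‖f i‖ ≤ 1) (R : ι → ℝ) {c : ℝ} (hc : 0 < c) (hR : ∀ i, c * Q i ≤ R i)
    (hR' : ∀ i, R i ≤ Q i) (r : ℕ) :
    ∃ C : ℝ, ∀ u : ℂ, 1 / 2 ≤ u.im →
      ‖((u.im : ℂ) ^ r)⁻¹ * ∑' i, f i * lag r (4 * Real.pi * (R i : ℂ) * u.im) *
        ee ((R i : ℂ) * u)‖ ≤ C := by
  have hpi := Real.pi_pos
  have hpi3 := Real.pi_gt_three
  have ht : 0 < Real.pi * c := by positivity
  refine ⟨(2 * (4 * Real.pi)) ^ r * ∑' i, W i ^ (2 * r) * Real.exp (-(Real.pi * c * Q i)), ?_⟩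
  intro u hu
  have hu0 : 0 < u.im := by linarith
  have hterm : ∀ i, ‖f i * lag r (4 * Real.pi * (R i : ℂ) * u.im) * ee ((R i : ℂ) * u)‖ ≤
      (u.im ^ r * (2 * (4 * Real.pi)) ^ r) *
        (W i ^ (2 * r) * Real.exp (-(Real.pi * c * Q i))) := by
    intro i
    have hQ := h.Q0 i
    have hcQ : 0 ≤ c * Q i := by positivity
    have hRi : 0 ≤ R i := le_trans hcQ (hR i)
    have hW : 0 < W i := lt_of_lt_of_le one_pos (h.W1 i)
    have e1 : (4 * Real.pi * (R i : ℂ) * u.im : ℂ) = ((4 * Real.pi * R i * u.im : ℝ) : ℂ) := by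
      push_cast
      ring
    rw [norm_mul, norm_mul, norm_ee, e1]
    have hfi := hf i
    have h1 := lag_bd r (4 * Real.pi * R i * u.im) (by positivity)
    have h2 : 1 + 4 * Real.pi * R i * u.im ≤ u.im * (4 * Real.pi * W i ^ 2) := by
      have h3 : 1 + R i ≤ W i ^ 2 := le_trans (by linarith [hR' i]) (h.QW i)
      have h4 : 1 + 4 * Real.pi * R i * u.im ≤ u.im * (4 * Real.pi * (1 + R i)) := by
        nlinarith
      refine le_trans h4 ?_
      gcongr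
    have h5 : (2 : ℝ) ^ r * (1 + 4 * Real.pi * R i * u.im) ^ r ≤
        u.im ^ r * (2 * (4 * Real.pi)) ^ r * W i ^ (2 * r) := by
      calc (2 : ℝ) ^ r * (1 + 4 * Real.pi * R i * u.im) ^ r
          ≤ (2 : ℝ) ^ r * (u.im * (4 * Real.pi * W i ^ 2)) ^ r := by
            gcongr
        _ = _ := by
            rw [pow_mul, ← mul_pow, ← mul_pow, ← mul_pow]
            congr 1
            ring
    have h6 : Real.exp (-(2 * Real.pi * R i * u.im)) ≤ Real.exp (-(Real.pi * c * Q i)) := by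
      apply Real.exp_le_exp.2
      have h7 : c * Q i * (1 / 2) ≤ R i * u.im := mul_le_mul (hR i) hu (by norm_num) hRi
      have h8 : Real.pi * (2 * (c * Q i * (1 / 2))) ≤ Real.pi * (2 * (R i * u.im)) :=
        mul_le_mul_of_nonneg_left (by linarith) hpi.le
      linarith
    have h9 : ‖f i‖ * ‖lag r ((4 * Real.pi * R i * u.im : ℝ) : ℂ)‖ ≤
        ‖lag r ((4 * Real.pi * R i * u.im : ℝ) : ℂ)‖ :=
      mul_le_of_le_one_left (norm_nonneg _) hfi
    calc ‖f i‖ * ‖lag r ((4 * Real.pi * R i * u.im : ℝ) : ℂ)‖ *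
          Real.exp (-(2 * Real.pi * R i * u.im))
        ≤ (u.im ^ r * (2 * (4 * Real.pi)) ^ r * W i ^ (2 * r)) *
            Real.exp (-(Real.pi * c * Q i)) :=
          mul_le_mul (le_trans h9 (le_trans h1 h5)) h6 (Real.exp_pos _).le (by positivity)
      _ = _ := by ring
  have hs := (h.summ (2 * r) ht).mul_left (u.im ^ r * (2 * (4 * Real.pi)) ^ r)
  have hb := norm_tsum_bd hs hterm
  rw [tsum_mul_left] at hb
  rw [norm_mul, norm_inv, norm_pow, Complex.norm_of_nonneg hu0.le]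
  calc (u.im ^ r)⁻¹ * ‖∑' i, f i * lag r (4 * Real.pi * (R i : ℂ) * u.im) *
        ee ((R i : ℂ) * u)‖
      ≤ (u.im ^ r)⁻¹ * (u.im ^ r * (2 * (4 * Real.pi)) ^ r *
          ∑' i, W i ^ (2 * r) * Real.exp (-(Real.pi * c * Q i))) :=
        mul_le_mul_of_nonneg_left hb (by positivity)
    _ = _ := by
        field_simp

/-- All the bounds, for the sums over an ideal with bounded coefficients. -/
theorem core {F : Type} [Field F] [NumberField F] (σ : F →+* ℂ) (a : Ideal (𝓞 F))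
    (φ : a → ℂ) (hφ : ∀ x, ‖φ x‖ ≤ 1) (X Y : 𝓞 F) (hXY : OBasis σ a X Y) (ha : a ≠ ⊥)
    (hnorm : ∀ x : 𝓞 F, Complex.normSq (σ x) = (Ideal.absNorm (Ideal.span {x}) : ℝ))
    (E : ℝ) (hE : 1 ≤ E) (κ : ℂ) (hκ : 1 ≤ ‖κ‖) (k r : ℕ) :
    (∀ x ∈ a, ∃ n : ℕ, Qa σ a x = n) ∧
    (∀ t : ℝ, 0 < t → Summable fun x : a =>
      (1 + ‖σ (x : 𝓞 F)‖) ^ k * Real.exp (-(t * Qa σ a x))) ∧
    ContinuousOn (fun u : ℂ => ∑' x : a, φ x * (σ ((x : 𝓞 F) : F) / κ) ^ k *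
      ee (((Qa σ a x / E : ℝ) : ℂ) * u)) {u | 0 < u.im} ∧
    ContinuousOn (fun u : ℂ => ((u.im : ℂ) ^ r)⁻¹ * ∑' x : a,
      φ x * lag r (4 * Real.pi * ((Qa σ a x / E : ℝ) : ℂ) * u.im) *
        ee (((Qa σ a x / E : ℝ) : ℂ) * u)) {u | 0 < u.im} ∧
    (1 ≤ k → ∃ C : ℝ, 0 ≤ C ∧ ∀ u : ℂ, 1 / 2 ≤ u.im →
      ‖∑' x : a, φ x * (σ ((x : 𝓞 F) : F) / κ) ^ k * ee (((Qa σ a x / E : ℝ) : ℂ) * u)‖ ≤
        C * Real.exp (-(Real.pi * (1 / E) * u.im))) ∧
    (∃ C : ℝ, ∀ u : ℂ, 1 / 2 ≤ u.im →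
      ‖((u.im : ℂ) ^ r)⁻¹ * ∑' x : a, φ x * lag r (4 * Real.pi * ((Qa σ a x / E : ℝ) : ℂ) * u.im) *
        ee (((Qa σ a x / E : ℝ) : ℂ) * u)‖ ≤ C) ∧
    (∃ (C : ℝ) (A : ℕ), ∀ u : ℂ, 0 < u.im →
      ‖∑' x : a, φ x * (σ ((x : 𝓞 F) : F) / κ) ^ k * ee (((Qa σ a x : ℝ) : ℂ) * u)‖ ≤
        C * (1 + (u.im ^ A)⁻¹)) := by
  have hN0 : 0 < Ideal.absNorm a :=
    Nat.pos_of_ne_zero (fun h => ha (Ideal.absNorm_eq_zero_iff.1 h))
  have hN1 : (1 : ℝ) ≤ (Ideal.absNorm a : ℝ) := by exact_mod_cast hN0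
  have hE0 : 0 < E := lt_of_lt_of_le one_pos hE
  -- integrality
  have hint : ∀ x ∈ a, ∃ n : ℕ, Qa σ a x = n := by
    intro x hx
    have h1 : Ideal.absNorm a ∣ Ideal.absNorm (Ideal.span {x}) :=
      Ideal.absNorm_dvd_absNorm_of_le ((Ideal.span_singleton_le_iff_mem a).2 hx)
    obtain ⟨n, hn⟩ := h1
    refine ⟨n, ?_⟩
    unfold Qa
    rw [hnorm x, hn]
    push_cast
    field_simp
  have hQn : ∀ x : 𝓞 F, Qa σ a x = ‖σ (x : F)‖ ^ 2 / (Ideal.absNorm a : ℝ) := by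
    intro x
    unfold Qa
    rw [Complex.normSq_eq_norm_sq]
  have hdt : Dt (Ideal.absNorm a : ℝ) (fun x : a => 1 + ‖σ ((x : 𝓞 F) : F)‖)
      (fun x : a => Qa σ a x) := by
    refine ⟨hN1, fun x => by linarith [norm_nonneg (σ ((x : 𝓞 F) : F))], fun x => ?_, fun x => ?_,
      fun x => ?_, summ_ideal σ a X Y hXY⟩
    · rw [hQn]
      positivity
    · rw [hQn]
      have h0 := norm_nonneg (σ ((x : 𝓞 F) : F))
      have h1 : (Ideal.absNorm a : ℝ) * (‖σ ((x : 𝓞 F) : F)‖ ^ 2 / (Ideal.absNorm a : ℝ)) =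
          ‖σ ((x : 𝓞 F) : F)‖ ^ 2 := by
        field_simp
      have h2 : (2 : ℝ) * (Ideal.absNorm a : ℝ) *
          (1 + ‖σ ((x : 𝓞 F) : F)‖ ^ 2 / (Ideal.absNorm a : ℝ)) =
          2 * (Ideal.absNorm a : ℝ) + 2 * ((Ideal.absNorm a : ℝ) *
            (‖σ ((x : 𝓞 F) : F)‖ ^ 2 / (Ideal.absNorm a : ℝ))) := by
        ring
      rw [h2, h1]
      nlinarith [sq_nonneg (‖σ ((x : 𝓞 F) : F)‖ - 1)]
    · rw [hQn]
      have h0 := norm_nonneg (σ ((x : 𝓞 F) : F))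
      have h1 : ‖σ ((x : 𝓞 F) : F)‖ ^ 2 / (Ideal.absNorm a : ℝ) ≤ ‖σ ((x : 𝓞 F) : F)‖ ^ 2 :=
        div_le_self (by positivity) hN1
      nlinarith
  have hR : ∀ x : a, (1 / E) * Qa σ a x ≤ Qa σ a x / E := fun x => by
    rw [one_div, inv_mul_eq_div]
  have hR' : ∀ x : a, Qa σ a x / E ≤ Qa σ a x := fun x => div_le_self (hdt.Q0 x) hE
  have hc : 0 < 1 / E := by positivity
  have hw0 : ∀ x : a, 0 ≤ ‖σ ((x : 𝓞 F) : F)‖ := fun x => norm_nonneg _
  have hpow : ∀ x : a, ‖φ x * (σ ((x : 𝓞 F) : F) / κ) ^ k‖ ≤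
      (1 + ‖σ ((x : 𝓞 F) : F)‖) ^ k := fun x => by
    rw [norm_mul, norm_pow, norm_div]
    refine le_trans (mul_le_of_le_one_left (by positivity) (hφ x)) ?_
    refine pow_le_pow_left₀ (by positivity) ?_ k
    exact le_trans (div_le_self (hw0 x) hκ) (by linarith [hw0 x])
  have himc : ContinuousOn (fun u : ℂ => ((u.im : ℂ) ^ r)⁻¹) {u : ℂ | 0 < u.im} := by
    refine ContinuousOn.inv₀ (Continuous.continuousOn (by fun_prop)) fun u hu => ?_
    have h1 : (0 : ℝ) < u.im := hu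
    exact pow_ne_zero _ (by exact_mod_cast h1.ne')
  have hlagc : ContinuousOn (fun u : ℂ => ∑' x : a,
      φ x * lag r (4 * Real.pi * ((Qa σ a x / E : ℝ) : ℂ) * u.im) *
        ee (((Qa σ a x / E : ℝ) : ℂ) * u)) {u : ℂ | 0 < u.im} := by
    refine hdt.contOn (fun x => Qa σ a x / E) hc hR
      (fun x u => φ x * lag r (4 * Real.pi * ((Qa σ a x / E : ℝ) : ℂ) * u.im))
      (2 ^ r * (4 * Real.pi) ^ r) (by have := Real.pi_pos; positivity) (2 * r) ?_ ?_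
    · intro x
      exact (continuous_const.mul ((lag_cont r).comp (by fun_prop))).continuousOn
    · intro x u hu
      have hpi := Real.pi_pos
      have hpi3 := Real.pi_gt_three
      have hRx : 0 ≤ Qa σ a x / E := le_trans (mul_nonneg hc.le (hdt.Q0 x)) (hR x)
      have e1 : (4 * Real.pi * ((Qa σ a x / E : ℝ) : ℂ) * u.im : ℂ) =
          ((4 * Real.pi * (Qa σ a x / E) * u.im : ℝ) : ℂ) := by
        push_cast
        ring
      show ‖φ x * lag r (4 * Real.pi * ((Qa σ a x / E : ℝ) : ℂ) * u.im)‖ ≤ _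
      rw [e1, norm_mul]
      refine le_trans (mul_le_of_le_one_left (norm_nonneg _) (hφ x)) ?_
      refine le_trans (lag_bd r _ (by positivity)) ?_
      have h3 : 1 + Qa σ a x / E ≤ (1 + ‖σ ((x : 𝓞 F) : F)‖) ^ 2 :=
        le_trans (by linarith [hR' x]) (hdt.QW x)
      have h4 : 1 + 4 * Real.pi * (Qa σ a x / E) * u.im ≤
          4 * Real.pi * ((1 + ‖σ ((x : 𝓞 F) : F)‖) ^ 2 * (1 + u.im) ^ 2) := by
        have h5 : 1 + 4 * Real.pi * (Qa σ a x / E) * u.im ≤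
            4 * Real.pi * ((1 + Qa σ a x / E) * (1 + u.im)) := by
          have h6 : 0 ≤ 4 * Real.pi * (Qa σ a x / E) := by positivity
          have h7 : 0 ≤ 4 * Real.pi * u.im := by positivity
          nlinarith
        refine le_trans h5 ?_
        have h6 : (1 + u.im) ≤ (1 + u.im) ^ 2 := by nlinarith
        gcongr
      calc (2 : ℝ) ^ r * (1 + 4 * Real.pi * (Qa σ a x / E) * u.im) ^ r
          ≤ 2 ^ r * (4 * Real.pi * ((1 + ‖σ ((x : 𝓞 F) : F)‖) ^ 2 * (1 + u.im) ^ 2)) ^ r := by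
            gcongr
        _ = _ := by
            rw [mul_pow (4 * Real.pi) _ r, mul_pow (((1 : ℝ) + ‖σ ((x : 𝓞 F) : F)‖) ^ 2) _ r,
              ← pow_mul, ← pow_mul]
            ring
  have hQone : ∀ x : a, σ ((x : 𝓞 F) : F) ≠ 0 → 1 ≤ Qa σ a x := by
    intro x hx
    obtain ⟨n, hn⟩ := hint x x.2
    rw [hn]
    have h1 : n ≠ 0 := by
      rintro rfl
      rw [hQn, Nat.cast_zero, div_eq_zero_iff] at hn
      rcases hn with hn | hn
      · exact hx (norm_eq_zero.1 (pow_eq_zero_iff (two_ne_zero)|>.1 hn))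
      · exact absurd hn (by positivity)
    exact_mod_cast Nat.one_le_iff_ne_zero.2 h1
  refine ⟨hint, fun t ht => hdt.summ k ht, ?_, himc.mul hlagc, ?_, ?_, ?_⟩
  · -- continuity
    refine hdt.contOn (fun x => Qa σ a x / E) hc hR
      (fun x _ => φ x * (σ ((x : 𝓞 F) : F) / κ) ^ k) 1 zero_le_one k
      (fun x => continuousOn_const) ?_
    intro x u hu
    have h1 : (1 : ℝ) ≤ (1 + u.im) ^ k := one_le_pow₀ (by linarith)
    rw [one_mul]
    exact le_trans (hpow x) (le_mul_of_one_le_right (by positivity) h1)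
  · intro hk
    have hz : ∀ x : a, φ x * (σ ((x : 𝓞 F) : F) / κ) ^ k = 0 ∨ 1 / E ≤ Qa σ a x / E := by
      intro x
      by_cases hx : σ ((x : 𝓞 F) : F) = 0
      · left
        rw [hx, zero_div, zero_pow (by omega), mul_zero]
      · right
        have := hQone x hx
        gcongr
    exact hdt.expSum (fun x => Qa σ a x / E) hc hR k _ hpow hz
  · exact lagSumF hdt φ hφ (fun x => Qa σ a x / E) hc hR hR' r
  · exact hdt.polySum k _ hpow

end ThBEAux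

open ThBAux ThBEAux

/-- (H4) -/
theorem stThBE (h1 : StBasE) (h2 : StBaseE) : StThBE := by
  intro D F _ _ s σ χ cj a k r Φ hD ha hΦ
  obtain ⟨-, -, -, -, -, hnorm, -⟩ := h1 D F _ _ s σ χ cj hD
  obtain ⟨hbas, -⟩ := h2 D F _ _ s σ χ cj hD
  have hD4 : 4 < D := hD.ev.1
  have hD1 : (1 : ℝ) ≤ D := by exact_mod_cast (by omega : 1 ≤ D)
  have hD0 : (0 : ℝ) < D := lt_of_lt_of_le one_pos hD1
  obtain ⟨X, Y, hXY⟩ := hbas a ha
  have hκ : (1 : ℝ) ≤ ‖Complex.I * (Real.sqrt D : ℂ)‖ := by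
    rw [norm_mul, Complex.norm_I, one_mul, Complex.norm_of_nonneg (Real.sqrt_nonneg _)]
    exact Real.one_le_sqrt.2 hD1
  obtain ⟨hint, hsum, hc1, hc2, he, hl, hp⟩ := core σ a (fun _ => 1)
    (fun _ => by rw [norm_one]) X Y hXY ha hnorm 1 le_rfl 1 (by rw [norm_one]) k r
  obtain ⟨-, -, hc1', hc2', he', hl', -⟩ := core σ a (fun x => Φ ⌊Qa σ a x⌋)
    (fun x => hΦ _) X Y hXY ha hnorm D hD1 (Complex.I * (Real.sqrt D : ℂ)) hκ k r
  have hth : ∀ u : ℂ, th σ a k u = ∑' x : a, 1 * (σ ((x : 𝓞 F) : F) / 1) ^ k *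
      ee (((Qa σ a x / 1 : ℝ) : ℂ) * u) := by
    intro u
    unfold th
    refine tsum_congr fun x => ?_
    rw [div_one, div_one, one_mul]
  have hth' : ∀ u : ℂ, th σ a k u = ∑' x : a, 1 * (σ ((x : 𝓞 F) : F) / 1) ^ k *
      ee (((Qa σ a x : ℝ) : ℂ) * u) := by
    intro u
    unfold th
    refine tsum_congr fun x => ?_
    rw [div_one, one_mul]
  have hthl : ∀ u : ℂ, thl σ a r u = ((u.im : ℂ) ^ r)⁻¹ *
      ∑' x : a, 1 * lag r (4 * Real.pi * ((Qa σ a x / 1 : ℝ) : ℂ) * u.im) *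
        ee (((Qa σ a x / 1 : ℝ) : ℂ) * u) := by
    intro u
    unfold thl
    congr 1
    refine tsum_congr fun x => ?_
    rw [div_one, one_mul]
  have hthP : ∀ u : ℂ, thP D σ a Φ k u = ∑' x : a, Φ ⌊Qa σ a x⌋ *
      (σ ((x : 𝓞 F) : F) / (Complex.I * Real.sqrt D)) ^ k *
        ee (((Qa σ a x / D : ℝ) : ℂ) * u) := by
    intro u
    unfold thP
    refine tsum_congr fun x => ?_
    push_cast
    rfl
  have hthlP : ∀ u : ℂ, thlP D σ a Φ r u = ((u.im : ℂ) ^ r)⁻¹ *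
      ∑' x : a, Φ ⌊Qa σ a x⌋ *
        lag r (4 * Real.pi * ((Qa σ a x / D : ℝ) : ℂ) * u.im) *
        ee (((Qa σ a x / D : ℝ) : ℂ) * u) := by
    intro u
    unfold thlP
    congr 1
    refine tsum_congr fun x => ?_
    push_cast
    rfl
  refine ⟨hint, hsum, hc1.congr fun u _ => hth u, hc1'.congr fun u _ => hthP u,
    hc2.congr fun u _ => hthl u, hc2'.congr fun u _ => hthlP u, ?_, ?_, ?_, ?_, ?_⟩
  · intro u
    unfold th
    refine tsum_congr fun x => ?_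
    obtain ⟨n, hn⟩ := hint x x.2
    rw [hn, mul_add, mul_one, ee_add]
    push_cast
    rw [ee_nat, mul_one]
  · intro u
    unfold thl
    have him : (u + 1).im = u.im := by simp
    rw [him]
    congr 1
    refine tsum_congr fun x => ?_
    obtain ⟨n, hn⟩ := hint x x.2
    rw [hn, mul_add, mul_one, ee_add]
    push_cast
    rw [ee_nat, mul_one]
  · intro hk
    obtain ⟨C₁, hC₁, h1⟩ := he hk
    obtain ⟨C₂, hC₂, h2⟩ := he' hk
    refine ⟨C₁ + C₂, Real.pi * (1 / (D : ℝ)), by have := Real.pi_pos; positivity, ?_⟩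
    intro u hu
    have hpi := Real.pi_pos
    have hu0 : 0 < u.im := by linarith
    constructor
    · rw [hth u]
      refine le_trans (h1 u hu) ?_
      have h4 : 1 / (D : ℝ) ≤ 1 / 1 := one_div_le_one_div_of_le one_pos hD1
      gcongr
      linarith
    · rw [hthP u]
      refine le_trans (h2 u hu) ?_
      gcongr
      linarith
  · obtain ⟨C₁, h1⟩ := hl
    obtain ⟨C₂, h2⟩ := hl'
    refine ⟨max C₁ C₂, fun u hu => ⟨?_, ?_⟩⟩
    · rw [hthl u]
      exact le_trans (h1 u hu) (le_max_left _ _)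
    · rw [hthlP u]
      exact le_trans (h2 u hu) (le_max_right _ _)
  · obtain ⟨C, A, h1⟩ := hp
    exact ⟨C, A, fun u hu => by rw [hth' u]; exact h1 u hu⟩

end RZ

end Pool.Agent.Lib.MP_7c08ba_nt
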