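import Pool.Agent.Lib.MP_7c08ba_nt.RZ.StA
import Pool.Agent.Lib.MP_7c08ba_nt.RZ.StH

set_option autoImplicit false

/-!
Module `ThCE`: theta series of ideals at the cusps `1 / g`, `g ∣ D`, even discriminants.
-/

namespace Pool.Agent.Lib.MP_7c08ba_nt

namespace RZ

open NumberField MeasureTheory UpperHalfPlane Set
open scoped MatrixGroups ComplexConjugate nonZeroDivisors

namespace ThCEX

section field

variable {F : Type} [Field F] [NumberField F] {D : ℕ} {s : 𝓞 F} {σ : F →+* ℂ}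
  {χ : DirichletCharacter ℂ D} {cj : 𝓞 F ≃+* 𝓞 F} {a : Ideal (𝓞 F)}

/-- The number `√(-D)`. -/
noncomputable def Sq (D : ℕ) : ℂ := Complex.I * Real.sqrt D

theorem ee_add (x y : ℂ) : ee (x + y) = ee x * ee y := by
  unfold ee
  rw [← Complex.exp_add]
  congr 1
  ring

theorem ee_int (m : ℤ) : ee m = 1 := by
  unfold ee
  rw [show 2 * (Real.pi : ℂ) * Complex.I * m = m * (2 * Real.pi * Complex.I) by ring]
  exact Complex.exp_int_mul_two_pi_mul_I m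

theorem norm_ee (z : ℂ) : ‖ee z‖ = Real.exp (-(2 * Real.pi * z.im)) := by
  unfold ee
  rw [Complex.norm_exp]
  congr 1
  simp

theorem normSq_Sq (D : ℕ) : Complex.normSq (Sq D) = D := by
  unfold Sq
  rw [Complex.normSq_mul, Complex.normSq_I, Complex.normSq_ofReal,
    Real.mul_self_sqrt (Nat.cast_nonneg D), one_mul]

theorem Sq_ne {D : ℕ} (hD : D ≠ 0) : Sq D ≠ 0 := by
  intro h
  have := normSq_Sq D
  rw [h, map_zero] at this
  exact hD (by exact_mod_cast this.symm)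

omit [NumberField F] in
theorem σ_int (n : ℤ) : σ ((n : 𝓞 F) : F) = n := by
  rw [show ((n : 𝓞 F) : F) = (n : F) from map_intCast (algebraMap (𝓞 F) F) n, map_intCast]

theorem pos_norm (ha : a ≠ ⊥) : (0 : ℝ) < (Ideal.absNorm a : ℝ) := by
  have : Ideal.absNorm a ≠ 0 := fun h0 => ha (Ideal.absNorm_eq_zero_iff.1 h0)
  exact_mod_cast Nat.pos_of_ne_zero this

/-- The parametrisation of the ideal. -/
noncomputable def par (hB : StBaseE) (hD : DatE D s σ χ cj) {x y : 𝓞 F} (h : OBasis σ a x y) :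
    ℤ × ℤ ≃ a :=
  Equiv.ofBijective (fun p : ℤ × ℤ => (⟨(p.1 : 𝓞 F) * x + (p.2 : 𝓞 F) * y,
    (h.mem _).2 ⟨p.1, p.2, rfl⟩⟩ : a)) (by
    constructor
    · intro p p' e
      have e1 : (p.1 : 𝓞 F) * x + (p.2 : 𝓞 F) * y = (p'.1 : 𝓞 F) * x + (p'.2 : 𝓞 F) * y :=
        congrArg Subtype.val e
      have e2 := (hB D F _ _ s σ χ cj hD).2.2.2.1 a x y h (p.1 - p'.1) (p.2 - p'.2) (by
        push_cast
        linear_combination e1)
      exact Prod.ext (by omega) (by omega)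
    · rintro ⟨z, hz⟩
      obtain ⟨m, n, e⟩ := (h.mem z).1 hz
      exact ⟨(m, n), Subtype.ext e.symm⟩)

theorem par_val (hB : StBaseE) (hD : DatE D s σ χ cj) {x y : 𝓞 F} (h : OBasis σ a x y)
    (p : ℤ × ℤ) : σ ((par hB hD h p : a) : 𝓞 F) = (p.1 : ℂ) * σ x + p.2 * σ y := by
  show σ (((p.1 : 𝓞 F) * x + (p.2 : 𝓞 F) * y : 𝓞 F) : F) = _
  push_cast
  rw [map_add, map_mul, map_mul, σ_int, σ_int]

/-- Poisson summation for an ideal. -/
theorem pois (hP : StPoisK) (hB : StBaseE) (hD : DatE D s σ χ cj) (ha : a ≠ ⊥) {k : ℕ}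
    (hk : Even k) (x : ℂ) {u : ℂ} (hu : 0 < u.im) :
    ∑' α : a, (x + σ (α : 𝓞 F)) ^ k *
        ee (Complex.normSq (x + σ (α : 𝓞 F)) / (Ideal.absNorm a : ℝ) * (-1 / u)) =
      (Sq D)⁻¹ * u ^ (k + 1) * ∑' η : a,
        ee (-(2 * (x * conj (σ (η : 𝓞 F) / Sq D)).re / (Ideal.absNorm a : ℝ) : ℝ)) *
        ((σ (η : 𝓞 F) / Sq D) ^ k * ee (Qa σ a η / D * u)) := by
  obtain ⟨X, Y, hb⟩ := (hB D F _ _ s σ χ cj hD).1 a ha
  have him := (hB D F _ _ s σ χ cj hD).2.2.1 a X Y hb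
  have hD0 : D ≠ 0 := by
    have := hD.ev.1
    omega
  have hDpos : (0 : ℝ) < D := by exact_mod_cast Nat.pos_of_ne_zero hD0
  have hsq : (0 : ℝ) < Real.sqrt D := Real.sqrt_pos.2 hDpos
  have hsqC : (Real.sqrt D : ℂ) ≠ 0 := by exact_mod_cast hsq.ne'
  have hDC : (D : ℂ) ≠ 0 := by exact_mod_cast hD0
  have hN := pos_norm ha
  have hNC : ((Ideal.absNorm a : ℝ) : ℂ) ≠ 0 := by exact_mod_cast hN.ne'
  have hpos : 0 < (σ (X : F) * conj (σ (Y : F))).im := by rw [him]; positivity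
  have key := hP k (σ X) (σ Y) x u (Ideal.absNorm a : ℝ) hpos hN hu
  have hDval : (Complex.I * (Ideal.absNorm a : ℝ) / (2 * (σ (X : F) * conj (σ (Y : F))).im) : ℂ) =
      -(Sq D)⁻¹ := by
    rw [him]
    unfold Sq
    push_cast at hNC ⊢
    field_simp
    linear_combination Complex.I_sq
  simp only [hDval] at key
  rw [← (par hB hD hb).tsum_eq, ← (par hB hD hb).tsum_eq]
  simp_rw [add_assoc] at key
  have e1 : ∑' p : ℤ × ℤ, (x + σ ((par hB hD hb p : a) : 𝓞 F)) ^ k *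
      ee (Complex.normSq (x + σ ((par hB hD hb p : a) : 𝓞 F)) / (Ideal.absNorm a : ℝ) * (-1 / u)) =
      ∑' p : ℤ × ℤ, (x + ((p.1 : ℂ) * σ X + p.2 * σ Y)) ^ k *
        ee (Complex.normSq (x + ((p.1 : ℂ) * σ X + p.2 * σ Y)) / (Ideal.absNorm a : ℝ) *
          (-1 / u)) := tsum_congr fun p => by rw [par_val]
  rw [e1, key]
  have e2 : -(Sq D)⁻¹ * (-u) ^ (k + 1) = (Sq D)⁻¹ * u ^ (k + 1) := by
    rw [Odd.neg_pow hk.add_one]
    ring
  rw [e2]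
  congr 1
  refine tsum_congr fun p => ?_
  have e3 : -(Sq D)⁻¹ * ((p.1 : ℂ) * σ X + p.2 * σ Y) =
      -(((p.1 : ℂ) * σ X + p.2 * σ Y) / Sq D) := by
    rw [div_eq_mul_inv]
    ring
  rw [par_val, Qa, par_val, e3, hk.neg_pow, Complex.normSq_neg, Complex.normSq_div, normSq_Sq,
    map_neg, mul_neg, Complex.neg_re, mul_assoc]
  congr 2
  · push_cast
    ring
  · congr 2
    push_cast
    field_simp

/-- Summability. -/
theorem summ (hT : StThBE) (hD : DatE D s σ χ cj) (ha : a ≠ ⊥) (k : ℕ) {u : ℂ}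
    (hu : 0 < u.im) :
    Summable fun η : a => (σ ((η : 𝓞 F) : F) / Sq D) ^ k * ee (Qa σ a η / D * u) := by
  have hD0 : D ≠ 0 := by
    have := hD.ev.1
    omega
  have hDpos : (0 : ℝ) < D := by exact_mod_cast Nat.pos_of_ne_zero hD0
  have h1 := (hT D F _ _ s σ χ cj a k 0 (fun _ => 0) hD ha (by simp)).2.1 (2 * Real.pi * u.im / D)
    (by positivity)
  refine Summable.of_norm_bounded (h1.mul_left (‖Sq D‖ ^ k)⁻¹) fun η => ?_
  rw [norm_mul, norm_pow, norm_div, norm_ee, div_pow]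
  have e1 : ((Qa σ a (η : 𝓞 F) : ℂ) / D * u).im = Qa σ a (η : 𝓞 F) / D * u.im := by
    rw [show ((Qa σ a (η : 𝓞 F) : ℂ) / D * u) = ((Qa σ a (η : 𝓞 F) / D : ℝ) : ℂ) * u by
      push_cast; rfl, Complex.im_ofReal_mul]
  rw [e1]
  have e2 : Real.exp (-(2 * Real.pi * (Qa σ a (η : 𝓞 F) / D * u.im))) =
      Real.exp (-(2 * Real.pi * u.im / D * Qa σ a (η : 𝓞 F))) := by
    congr 1
    field_simp
  rw [e2]
  have e3 : ‖σ ((η : 𝓞 F) : F)‖ ^ k ≤ (1 + ‖σ ((η : 𝓞 F) : F)‖) ^ k := by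
    gcongr
    linarith [norm_nonneg (σ ((η : 𝓞 F) : F))]
  have e4 : 0 ≤ (‖Sq D‖ ^ k)⁻¹ := by positivity
  calc ‖σ ((η : 𝓞 F) : F)‖ ^ k / ‖Sq D‖ ^ k *
        Real.exp (-(2 * Real.pi * u.im / D * Qa σ a (η : 𝓞 F)))
      = (‖Sq D‖ ^ k)⁻¹ * (‖σ ((η : 𝓞 F) : F)‖ ^ k *
        Real.exp (-(2 * Real.pi * u.im / D * Qa σ a (η : 𝓞 F)))) := by ring
    _ ≤ _ := by gcongr

omit [NumberField F] in
theorem div_s_mem (hc : IsCoprime a (Ideal.span {s})) {y : 𝓞 F} (h : s * y ∈ a) : y ∈ a := by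
  obtain ⟨p, hp, z, hz, hpz⟩ := Submodule.mem_sup.1 ((Ideal.isCoprime_iff_sup_eq.1 hc) ▸
    Submodule.mem_top (x := (1 : 𝓞 F)))
  obtain ⟨c, rfl⟩ := Ideal.mem_span_singleton.1 hz
  have : y = y * p + c * (s * y) := by linear_combination -y * hpz
  rw [this]
  exact a.add_mem (a.mul_mem_left _ hp) (a.mul_mem_left _ h)

theorem D0 (hD : DatE D s σ χ cj) : D ≠ 0 := by
  have := hD.ev.1
  omega

theorem s_ne (hD : DatE D s σ χ cj) : s ≠ 0 := by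
  rintro rfl
  have h := hD.im
  have h1 : Sq D = 0 := by
    unfold Sq
    rw [← h]
    simp
  exact Sq_ne (D0 hD) h1

/-- An integer divisible by `D` in the ring of integers. -/
theorem dvd_of_dvd (hb : StBasE) (hD : DatE D s σ χ cj) {m : ℤ}
    (h : ((D : ℤ) : 𝓞 F) ∣ (m : 𝓞 F)) : (D : ℤ) ∣ m := by
  obtain ⟨t, -, -, -, -, hN⟩ := (hb D F _ _ s σ χ cj hD).1
  obtain ⟨c, hc⟩ := h
  have e1 : ∀ b : ℤ, (Ideal.absNorm (Ideal.span {(b : 𝓞 F)}) : ℤ) = b ^ 2 := by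
    intro b
    have := hN b 0
    simpa using this
  have h2 : m ^ 2 = (D : ℤ) ^ 2 * (Ideal.absNorm (Ideal.span {c}) : ℤ) := by
    rw [← e1 m, hc, ← Ideal.span_singleton_mul_span_singleton, map_mul, Nat.cast_mul, e1]
  exact (Int.pow_dvd_pow_iff two_ne_zero).1 ⟨_, h2⟩

theorem res_Qa (hb : StBasE) (hT : StThBE) (hD : DatE D s σ χ cj) (ha : a ≠ ⊥) {x : 𝓞 F}
    (hx : x ∈ a) : ∃ m : ℕ, Qa σ a x = m ∧
      Ideal.absNorm (Ideal.span {x}) = m * Ideal.absNorm a := by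
  obtain ⟨m, hm⟩ := (hT D F _ _ s σ χ cj a 0 0 (fun _ => 0) hD ha (by simp)).1 x hx
  refine ⟨m, hm, ?_⟩
  have h1 := (hb D F _ _ s σ χ cj hD).2.2.2.2.2.1 x
  have hN := pos_norm ha
  unfold Qa at hm
  rw [div_eq_iff hN.ne', h1] at hm
  exact_mod_cast hm

/-- `kr` is multiplicative. -/
theorem kr_mul (D a b : ℕ) : kr D (a * b) = kr D a * kr D b := by
  unfold kr
  by_cases ha : Even a
  · rw [if_pos (ha.mul_right b), if_pos ha, zero_mul]
  by_cases hb : Even b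
  · rw [if_pos (hb.mul_left a), if_pos hb, mul_zero]
  have ha' : NeZero a := ⟨by rintro rfl; exact ha (by simp)⟩
  have hb' : NeZero b := ⟨by rintro rfl; exact hb (by simp)⟩
  rw [if_neg (fun h => (Nat.even_mul.1 h).elim ha hb), if_neg ha, if_neg hb, jacobiSym.mul_right]

theorem kr_one (D : ℕ) : kr D 1 = 1 := by
  unfold kr
  rw [if_neg (by decide), jacobiSym.one_right]

theorem kr_tri (D a : ℕ) : kr D a = 0 ∨ kr D a = 1 ∨ kr D a = -1 := by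
  unfold kr
  split_ifs
  · exact Or.inl rfl
  · exact jacobiSym.trichotomy _ _

/-- The norm of an ideal prime to `s` has symbol one. -/
theorem kr_norm (hS : StSplitE) (hD : DatE D s σ χ cj) :
    ∀ c : Ideal (𝓞 F), c ≠ ⊥ → IsCoprime c (Ideal.span {s}) → kr D (Ideal.absNorm c) = 1 := by
  intro c
  induction c using UniqueFactorizationMonoid.induction_on_prime with
  | h₁ => intro h; exact absurd rfl h
  | h₂ c hc =>
    intro _ _
    rw [Ideal.isUnit_iff.1 hc, Ideal.absNorm_top, kr_one]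
  | h₃ c P hc hP ih =>
    intro _ hcop
    have hP0 : P ≠ ⊥ := hP.ne_zero
    have hcopP : IsCoprime P (Ideal.span {s}) := hcop.of_mul_left_left
    rw [map_mul, kr_mul, ih hc hcop.of_mul_left_right, mul_one]
    have hPp : P.IsPrime := Ideal.isPrime_of_prime hP
    have hmax : P.IsMaximal := hPp.isMaximal hP0
    -- a prime number in `P`
    obtain ⟨p, hp, hpP⟩ : ∃ p : ℕ, p.Prime ∧ (p : 𝓞 F) ∈ P := by
      have hN : ((Ideal.absNorm P : ℕ) : 𝓞 F) ∈ P := Ideal.absNorm_mem P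
      have hN0 : Ideal.absNorm P ≠ 0 := by
        rw [Ne, Ideal.absNorm_eq_zero_iff]
        exact hP0
      have : ∀ n : ℕ, n ≠ 0 → (n : 𝓞 F) ∈ P → ∃ p : ℕ, p.Prime ∧ (p : 𝓞 F) ∈ P := by
        intro n
        induction n using Nat.recOnPrimeCoprime with
        | zero => intro h; exact absurd rfl h
        | prime_pow p n hp =>
          intro _ h
          rw [Nat.cast_pow] at h
          exact ⟨p, hp, hPp.mem_of_pow_mem n h⟩
        | coprime a b ha hb _ iha ihb =>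
          intro _ h
          rw [Nat.cast_mul] at h
          rcases hPp.mem_or_mem h with h | h
          · exact iha (by omega) h
          · exact ihb (by omega) h
      exact this _ hN0 hN
    obtain ⟨s1, s2, s3⟩ := hS D F _ _ s σ χ cj hD p hp
    have hle : Ideal.span {(p : 𝓞 F)} ≤ P := (Ideal.span_singleton_le_iff_mem _).2 hpP
    rcases kr_tri D p with h | h | h
    · exfalso
      obtain ⟨hpD, -⟩ := s3 h
      have h1 : s ∈ P := by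
        have h2 : s ^ 2 ∈ P := by
          rw [hD.sq]
          obtain ⟨e, he⟩ := hpD
          rw [he, Nat.cast_mul]
          exact P.neg_mem (P.mul_mem_right _ hpP)
        exact hPp.mem_of_pow_mem 2 h2
      have h3 := Ideal.isCoprime_iff_sup_eq.1 hcopP
      have h4 : P ⊔ Ideal.span {s} = P :=
        sup_eq_left.2 ((Ideal.span_singleton_le_iff_mem _).2 h1)
      rw [h4] at h3
      exact hPp.ne_top h3
    · obtain ⟨Q, Q', hQ, hQ', -, hQQ, hn, hn'⟩ := s1 h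
      rw [← hQQ] at hle
      have hQ0 : Q ≠ ⊥ := by
        rintro rfl
        rw [Ideal.absNorm_bot] at hn
        exact hp.ne_zero hn.symm
      have hQ0' : Q' ≠ ⊥ := by
        rintro rfl
        rw [Ideal.absNorm_bot] at hn'
        exact hp.ne_zero hn'.symm
      rcases hPp.mul_le.1 hle with h5 | h5
      · rw [← (hQ.isMaximal hQ0).eq_of_le hPp.ne_top h5, hn, h]
      · rw [← (hQ'.isMaximal hQ0').eq_of_le hPp.ne_top h5, hn', h]
    · obtain ⟨hpp, hn⟩ := s2 h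
      have hp0 : Ideal.span {(p : 𝓞 F)} ≠ ⊥ := by
        rw [Ne, Ideal.span_singleton_eq_bot]
        exact_mod_cast hp.ne_zero
      rw [← (hpp.isMaximal hp0).eq_of_le hPp.ne_top hle, hn, sq, kr_mul, h]
      norm_num

/-- The signs of two numbers with product one modulo `D`. -/
theorem eps_eq {g ν N : ℕ} (hg : g ∣ D) (hD0 : D ≠ 0) (h : (D : ℤ) ∣ (ν : ℤ) * N - 1) :
    epsE D g ν = epsE D g N := by
  have key : ∀ m : ℕ, m ∣ D → Odd m → jacobiSym ν m = jacobiSym N m := by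
    intro m hm hodd
    have hmD : (m : ℤ) ∣ (ν : ℤ) * N - 1 := (Int.natCast_dvd_natCast.2 hm).trans h
    have h1 : jacobiSym ((ν : ℤ) * N) m = 1 := by
      have h2 : (1 : ℤ) % m = ((ν : ℤ) * N) % m := Int.modEq_iff_dvd.2 hmD
      rw [jacobiSym.mod_left, ← h2, ← jacobiSym.mod_left, jacobiSym.one_left]
    rw [jacobiSym.mul_left] at h1
    rcases jacobiSym.trichotomy (ν : ℤ) m with h3 | h3 | h3 <;>
      rcases jacobiSym.trichotomy (N : ℤ) m with h4 | h4 | h4 <;>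
        rw [h3, h4] at h1 ⊢ <;> norm_num at h1
  unfold epsE
  split_ifs with hodd
  · exact key g hg hodd
  · refine key _ ?_ ?_
    · exact (Nat.ordCompl_dvd _ _).trans (Nat.div_dvd_of_dvd hg)
    · unfold oddp
      have hne : D / g ≠ 0 := by
        obtain ⟨e, he⟩ := hg
        have hg0 : g ≠ 0 := by
          rintro rfl
          rw [zero_mul] at he
          exact hD0 he
        rw [he, Nat.mul_div_cancel_left _ (Nat.pos_of_ne_zero hg0)]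
        rintro rfl
        rw [mul_zero] at he
        exact hD0 he
      have := Nat.not_dvd_ordCompl Nat.prime_two hne
      rw [Nat.odd_iff]
      omega

end field

section main

variable {F : Type} [Field F] [NumberField F] {D : ℕ} {s t : 𝓞 F} {σ : F →+* ℂ}
  {χ : DirichletCharacter ℂ D} {cj : 𝓞 F ≃+* 𝓞 F} {a : Ideal (𝓞 F)} {g ν : ℕ} {ν0 : 𝓞 F}

/-- A multiplier for the ideal. -/
structure Mult (D : ℕ) (s t : 𝓞 F) (a : Ideal (𝓞 F)) (ν : ℕ) (ν0 : 𝓞 F) : Prop where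
  mem : ν0 ∈ a
  one : s ∣ ν0 - 1
  nrm : Ideal.absNorm (Ideal.span {ν0}) = ν * Ideal.absNorm a
  st : s = 2 * t
  tt : t ^ 2 = -((D / 4 : ℕ) : 𝓞 F)
  co : ∀ x : 𝓞 F, ∃ a b : ℤ, x = a + b * t
  sdvd : ∀ a b : ℤ, s ∣ (a : 𝓞 F) + b * t ↔ ((D / 2 : ℕ) : ℤ) ∣ a ∧ (2 : ℤ) ∣ b
  nn : ∀ a b : ℤ, (Ideal.absNorm (Ideal.span {(a : 𝓞 F) + b * t}) : ℤ) =
    a ^ 2 + (D / 4 : ℕ) * b ^ 2
  inv : (D : ℤ) ∣ (ν : ℤ) * Ideal.absNorm a - 1

theorem exists_mult (hb : StBasE) (hT : StThBE) (hS : StSplitE) (hD : DatE D s σ χ cj)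
    (ha : a ≠ ⊥) (hc : IsCoprime a (Ideal.span {s})) :
    ∃ (t : 𝓞 F) (ν : ℕ) (ν0 : 𝓞 F), Mult D s t a ν ν0 ∧ kr D ν = 1 := by
  obtain ⟨⟨t, t1, t2, t3, t4, t5⟩, -, -, -, -, -, -, -, -, b10⟩ := hb D F _ _ s σ χ cj hD
  obtain ⟨x, hx, y, hy, hxy⟩ := Submodule.mem_sup.1 ((Ideal.isCoprime_iff_sup_eq.1 hc) ▸
    Submodule.mem_top (x := (1 : 𝓞 F)))
  obtain ⟨m, -, hm⟩ := res_Qa hb hT hD ha hx
  obtain ⟨c, rfl⟩ := Ideal.mem_span_singleton.1 hy
  have h1 : s ∣ x - 1 := ⟨-c, by linear_combination hxy⟩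
  have hinv : (D : ℤ) ∣ (m : ℤ) * Ideal.absNorm a - 1 := by
    have h2 := b10 x 1 h1
    rw [hm, Ideal.span_singleton_one, Ideal.absNorm_top] at h2
    rw [← ZMod.intCast_zmod_eq_zero_iff_dvd]
    push_cast at h2 ⊢
    rw [h2, sub_self]
  refine ⟨t, m, x, ⟨hx, h1, hm, t1, t2, t3, t4, t5, hinv⟩, ?_⟩
  have hx0 : x ≠ 0 := by
    rintro rfl
    have h3 : IsUnit s := by
      rw [isUnit_iff_dvd_one]
      have h4 := h1
      rw [zero_sub, dvd_neg] at h4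
      exact h4
    have h5 := (t4 1 0).1 (by simpa using h3.dvd)
    have h6 := hD.ev.1
    have h7 := Int.le_of_dvd one_pos h5.1
    omega
  obtain ⟨b, hb'⟩ := Ideal.dvd_iff_le.2 ((Ideal.span_singleton_le_iff_mem _).2 hx)
  have hb0 : b ≠ ⊥ := by
    rintro rfl
    rw [Ideal.mul_bot, Ideal.span_singleton_eq_bot] at hb'
    exact hx0 hb'
  have hcx : IsCoprime (Ideal.span {x}) (Ideal.span {s}) := by
    rw [Ideal.isCoprime_span_singleton_iff]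
    exact ⟨1, c, by linear_combination hxy⟩
  have hbn : Ideal.absNorm b = m := by
    have h4 := hm
    rw [hb', map_mul, mul_comm] at h4
    have hN := pos_norm ha
    have hN' : 0 < Ideal.absNorm a := by exact_mod_cast hN
    exact Nat.eq_of_mul_eq_mul_right hN' h4
  rw [← hbn]
  rw [hb'] at hcx
  exact kr_norm hS hD b hb0 hcx.of_mul_left_right

/-- The representatives of the cosets. -/
noncomputable def yp (t ν0 : 𝓞 F) (p : Fin (D / 2) × Fin 2) : 𝓞 F :=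
  ν0 * (((p.1 : ℕ) : 𝓞 F) + ((p.2 : ℕ) : 𝓞 F) * t)

theorem yp_mem (hM : Mult D s t a ν ν0) (p : Fin (D / 2) × Fin 2) : yp t ν0 p ∈ a :=
  a.mul_mem_right _ hM.mem

/-- The union of the cosets. -/
theorem exists_equiv (hD : DatE D s σ χ cj) (hc : IsCoprime a (Ideal.span {s}))
    (hM : Mult D s t a ν ν0) :
    ∃ e : (Fin (D / 2) × Fin 2) × a ≃ a, ∀ p, ((e p : a) : 𝓞 F) = yp t ν0 p.1 + s * (p.2 : 𝓞 F) := by
  have hmem : ∀ p : (Fin (D / 2) × Fin 2) × a, yp t ν0 p.1 + s * (p.2 : 𝓞 F) ∈ a := fun p =>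
    a.add_mem (yp_mem hM _) (a.mul_mem_left _ p.2.2)
  have hev := hD.ev.1
  refine ⟨Equiv.ofBijective (fun p => ⟨_, hmem p⟩) ⟨?_, ?_⟩, fun p => rfl⟩
  · rintro ⟨⟨x, y⟩, α⟩ ⟨⟨x', y'⟩, α'⟩ h
    have h1 : yp t ν0 (x, y) + s * (α : 𝓞 F) = yp t ν0 (x', y') + s * (α' : 𝓞 F) :=
      congrArg Subtype.val h
    obtain ⟨c, hc'⟩ := hM.one
    have h2 : s ∣ (((x : ℕ) - (x' : ℕ) : ℤ) : 𝓞 F) + (((y : ℕ) - (y' : ℕ) : ℤ) : 𝓞 F) * t := by
      refine ⟨α' - α - c * ((((x : ℕ) : 𝓞 F) + ((y : ℕ) : 𝓞 F) * t) -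
        (((x' : ℕ) : 𝓞 F) + ((y' : ℕ) : 𝓞 F) * t)), ?_⟩
      unfold yp at h1
      push_cast
      linear_combination h1 - ((((x : ℕ) : 𝓞 F) + ((y : ℕ) : 𝓞 F) * t) -
        (((x' : ℕ) : 𝓞 F) + ((y' : ℕ) : 𝓞 F) * t)) * hc'
    rw [hM.sdvd] at h2
    obtain ⟨h3, h4⟩ := h2
    have hx := x.2
    have hx' := x'.2
    have hy := y.2
    have hy' := y'.2
    have e1 : x = x' := by
      apply Fin.ext
      have h5 : ((x : ℕ) : ℤ) - ((x' : ℕ) : ℤ) = 0 := by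
        apply Int.eq_zero_of_abs_lt_dvd h3
        rw [abs_lt]
        omega
      omega
    have e2 : y = y' := by
      apply Fin.ext
      have h5 : ((y : ℕ) : ℤ) - ((y' : ℕ) : ℤ) = 0 := by
        apply Int.eq_zero_of_abs_lt_dvd h4
        rw [abs_lt]
        omega
      omega
    subst e1 e2
    have h5 : (α : 𝓞 F) = α' := mul_left_cancel₀ (s_ne hD) (add_left_cancel h1)
    exact Prod.ext rfl (Subtype.ext h5)
  · rintro ⟨β, hβ⟩
    obtain ⟨X, Y, rfl⟩ := hM.co β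
    have hd : 0 < D / 2 := by omega
    have hdz : ((D / 2 : ℕ) : ℤ) ≠ 0 := by omega
    have hx1 := Int.emod_nonneg X hdz
    have hx2 := Int.emod_lt_of_pos X (b := ((D / 2 : ℕ) : ℤ)) (by omega)
    have hy1 := Int.emod_nonneg Y (b := 2) (by norm_num)
    have hy2 := Int.emod_lt_of_pos Y (b := 2) (by norm_num)
    set x : Fin (D / 2) := ⟨(X % ((D / 2 : ℕ) : ℤ)).toNat, by omega⟩ with hx
    set y : Fin 2 := ⟨(Y % 2).toNat, by omega⟩ with hy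
    have ex : ((x : ℕ) : ℤ) = X % ((D / 2 : ℕ) : ℤ) := by
      rw [hx]
      exact Int.toNat_of_nonneg hx1
    have ey : ((y : ℕ) : ℤ) = Y % 2 := by
      rw [hy]
      exact Int.toNat_of_nonneg hy1
    have h2 : s ∣ ((X - (x : ℕ) : ℤ) : 𝓞 F) + ((Y - (y : ℕ) : ℤ) : 𝓞 F) * t := by
      rw [hM.sdvd, ex, ey]
      exact ⟨Int.dvd_self_sub_emod, Int.dvd_self_sub_emod⟩
    obtain ⟨d, hd'⟩ := h2
    obtain ⟨c, hc'⟩ := hM.one
    have h3 : ((X : 𝓞 F) + Y * t) - yp t ν0 (x, y) =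
        s * (d - c * (((x : ℕ) : 𝓞 F) + ((y : ℕ) : 𝓞 F) * t)) := by
      unfold yp
      push_cast at hd'
      linear_combination hd' - (((x : ℕ) : 𝓞 F) + ((y : ℕ) : 𝓞 F) * t) * hc'
    have h4 : d - c * (((x : ℕ) : 𝓞 F) + ((y : ℕ) : 𝓞 F) * t) ∈ a := by
      apply div_s_mem hc
      rw [← h3]
      exact a.sub_mem hβ (yp_mem hM _)
    refine ⟨((x, y), ⟨_, h4⟩), Subtype.ext ?_⟩
    show yp t ν0 (x, y) + s * (d - c * (((x : ℕ) : 𝓞 F) + ((y : ℕ) : 𝓞 F) * t)) = (X : 𝓞 F) + Y * t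
    rw [← h3]
    ring

/-- The values of the quadratic form modulo `D`. -/
theorem Q_cong (hb : StBasE) (hD : DatE D s σ χ cj) (hM : Mult D s t a ν ν0) {x y : 𝓞 F}
    {m m' : ℤ} (hm : (Ideal.absNorm (Ideal.span {x}) : ℤ) = m * Ideal.absNorm a)
    (hm' : (Ideal.absNorm (Ideal.span {y}) : ℤ) = m' * Ideal.absNorm a) (h : s ∣ x - y) :
    (D : ℤ) ∣ m - m' := by
  have h1 := (hb D F _ _ s σ χ cj hD).2.2.2.2.2.2.2.2.2 x y h
  have e1 : ((Ideal.absNorm (Ideal.span {x}) : ℤ) : ZMod D) =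
      ((Ideal.absNorm (Ideal.span {y}) : ℤ) : ZMod D) := by exact_mod_cast h1
  rw [hm, hm'] at e1
  have e2 : ((ν : ℤ) : ZMod D) * ((Ideal.absNorm a : ℤ) : ZMod D) = 1 := by
    have := (ZMod.intCast_zmod_eq_zero_iff_dvd _ D).2 hM.inv
    push_cast at this ⊢
    rwa [sub_eq_zero] at this
  rw [← ZMod.intCast_zmod_eq_zero_iff_dvd]
  push_cast at e1 e2 ⊢
  linear_combination (ν : ZMod D) * e1 - (m - m' : ZMod D) * e2

theorem yp_norm (hM : Mult D s t a ν ν0) (p : Fin (D / 2) × Fin 2) :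
    (Ideal.absNorm (Ideal.span {yp t ν0 p}) : ℤ) =
      (ν * (((p.1 : ℕ) : ℤ) ^ 2 + (D / 4 : ℕ) * ((p.2 : ℕ) : ℤ) ^ 2) : ℤ) * Ideal.absNorm a := by
  unfold yp
  rw [← Ideal.span_singleton_mul_span_singleton, map_mul, hM.nrm]
  have h := hM.nn (p.1 : ℕ) (p.2 : ℕ)
  rw [Int.cast_natCast, Int.cast_natCast] at h
  push_cast at h ⊢
  rw [h]
  ring

theorem cj_t (hb : StBasE) (hD : DatE D s σ χ cj) (hM : Mult D s t a ν ν0) : cj t = -t := by
  have h1 := (hb D F _ _ s σ χ cj hD).2.2.1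
  rw [hM.st, map_mul, map_ofNat] at h1
  have h2 : (2 : 𝓞 F) ≠ 0 := two_ne_zero
  apply mul_left_cancel₀ h2
  rw [h1]
  ring

/-- The trace form. -/
theorem trace (hb : StBasE) (hD : DatE D s σ χ cj) (ha : a ≠ ⊥)
    (hc : IsCoprime a (Ideal.span {s})) (hM : Mult D s t a ν ν0)
    (p : Fin (D / 2) × Fin 2) {X Y : ℤ} (hη : (X : 𝓞 F) + Y * t ∈ a) :
    ∃ T : ℤ, 2 * (σ ((yp t ν0 p : 𝓞 F) : F) * conj (σ (((X : 𝓞 F) + Y * t : 𝓞 F) : F))).re =
        T * Ideal.absNorm a ∧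
      (D : ℤ) ∣ T - 2 * ν * (((p.1 : ℕ) : ℤ) * X + (D / 4 : ℕ) * ((p.2 : ℕ) : ℤ) * Y) := by
  obtain ⟨-, b2, b3, b4, b5, -, b7, -, -, -⟩ := hb D F _ _ s σ χ cj hD
  have hct := cj_t hb hD hM
  have hN := pos_norm ha
  have hNO : ((Ideal.absNorm a : ℕ) : 𝓞 F) ≠ 0 := by
    have : Ideal.absNorm a ≠ 0 := by
      intro h
      rw [h] at hN
      simp at hN
    exact_mod_cast this
  have hprod : ∀ x y : 𝓞 F, x ∈ a → y ∈ a → ((Ideal.absNorm a : ℕ) : 𝓞 F) ∣ x * cj y := by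
    intro x y hx hy
    rw [← Ideal.mem_span_singleton, ← b7 a]
    exact Ideal.mul_mem_mul hx (Ideal.mem_map_of_mem _ hy)
  -- the element congruent to `η`
  obtain ⟨c, hc'⟩ := hM.one
  have h1 : -(c * ((X : 𝓞 F) + Y * t)) ∈ a := by
    apply div_s_mem hc
    have e1 : s * -(c * ((X : 𝓞 F) + Y * t)) = ((X : 𝓞 F) + Y * t) - ν0 * ((X : 𝓞 F) + Y * t) := by
      linear_combination ((X : 𝓞 F) + Y * t) * hc'
    rw [e1]
    exact a.sub_mem hη (a.mul_mem_right _ hM.mem)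
  set β : 𝓞 F := -(c * ((X : 𝓞 F) + Y * t)) with hβ
  have hηβ : (X : 𝓞 F) + Y * t = ν0 * ((X : 𝓞 F) + Y * t) + s * β := by
    rw [hβ]
    linear_combination -((X : 𝓞 F) + Y * t) * hc'
  obtain ⟨ω, hω⟩ := hprod _ _ (yp_mem hM p) hη
  obtain ⟨ω', hω'⟩ := hprod _ _ (yp_mem hM p) h1
  obtain ⟨A, B, hAB⟩ := hM.co ω
  have hnu : ν0 * cj ν0 = (ν : 𝓞 F) * ((Ideal.absNorm a : ℕ) : 𝓞 F) := by
    rw [b5, hM.nrm]
    push_cast
    rfl
  have hcjη : cj ((X : 𝓞 F) + Y * t) = X - Y * t := by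
    rw [map_add, map_mul, map_intCast, map_intCast, hct]
    ring
  have hω2 : ω = (ν : 𝓞 F) * ((((p.1 : ℕ) : 𝓞 F) + ((p.2 : ℕ) : 𝓞 F) * t) * (X - Y * t)) - s * ω' := by
    apply mul_left_cancel₀ hNO
    rw [← hω]
    have e2 : cj ((X : 𝓞 F) + Y * t) = cj ν0 * (X - Y * t) - s * cj β := by
      conv_lhs => rw [hηβ]
      rw [map_add, map_mul, map_mul, hcjη, b3]
      ring
    rw [e2]
    have e3 : yp t ν0 p * (cj ν0 * (X - Y * t) - s * cj β) =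
        ν0 * cj ν0 * ((((p.1 : ℕ) : 𝓞 F) + ((p.2 : ℕ) : 𝓞 F) * t) * (X - Y * t)) -
          s * (yp t ν0 p * cj β) := by
      unfold yp
      ring
    rw [e3, hω', hnu]
    ring
  refine ⟨2 * A, ?_, ?_⟩
  · have e1 : σ ((yp t ν0 p : 𝓞 F) : F) * conj (σ (((X : 𝓞 F) + Y * t : 𝓞 F) : F)) =
        (Ideal.absNorm a : ℂ) * σ ((ω : 𝓞 F) : F) := by
      rw [← hD.conjσ, ← map_mul]
      have e2 : ((yp t ν0 p : 𝓞 F) : F) * ((cj ((X : 𝓞 F) + Y * t) : 𝓞 F) : F) =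
          ((((Ideal.absNorm a : ℕ) : ℤ) : 𝓞 F) : F) * ((ω : 𝓞 F) : F) := by
        rw [Int.cast_natCast]
        exact_mod_cast congrArg (fun z : 𝓞 F => (z : F)) hω
      rw [e2, map_mul, σ_int, Int.cast_natCast]
    have e3 : 2 * (σ ((ω : 𝓞 F) : F)).re = 2 * A := by
      have e4 : σ ((ω : 𝓞 F) : F) + conj (σ ((ω : 𝓞 F) : F)) = ((2 * A : ℤ) : ℂ) := by
        rw [← hD.conjσ, ← map_add, ← σ_int (σ := σ)]
        congr 1
        have e5 : ω + cj ω = ((2 * A : ℤ) : 𝓞 F) := by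
          rw [hAB, map_add, map_mul, map_intCast, map_intCast, hct]
          push_cast
          ring
        exact_mod_cast congrArg (fun z : 𝓞 F => (z : F)) e5
      have e6 := congrArg Complex.re e4
      rw [Complex.add_re, Complex.conj_re, Complex.intCast_re] at e6
      push_cast at e6
      linarith
    rw [e1]
    have e7 : ((Ideal.absNorm a : ℂ) * σ ((ω : 𝓞 F) : F)).re =
        (Ideal.absNorm a : ℝ) * (σ ((ω : 𝓞 F) : F)).re := by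
      rw [show (Ideal.absNorm a : ℂ) = (((Ideal.absNorm a : ℕ) : ℝ) : ℂ) by push_cast; rfl,
        Complex.re_ofReal_mul]
    rw [e7]
    push_cast
    linear_combination (Ideal.absNorm a : ℝ) * e3
  · apply dvd_of_dvd hb hD
    obtain ⟨d, hd⟩ := b4 ω'
    refine ⟨d, ?_⟩
    have e1 : ((2 * A : ℤ) : 𝓞 F) = ω + cj ω := by
      rw [hAB, map_add, map_mul, map_intCast, map_intCast, hct]
      push_cast
      ring
    have e2 : cj ω = (ν : 𝓞 F) * ((((p.1 : ℕ) : 𝓞 F) - ((p.2 : ℕ) : 𝓞 F) * t) * (X + Y * t)) +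
        s * cj ω' := by
      rw [hω2, map_sub, map_mul, map_mul, map_mul, map_add, map_mul, map_sub, map_mul, b3, hct]
      simp only [map_natCast, map_intCast]
      ring
    have e3 : ((2 * A - 2 * ν * (((p.1 : ℕ) : ℤ) * X + (D / 4 : ℕ) * ((p.2 : ℕ) : ℤ) * Y) : ℤ) :
        𝓞 F) = ((2 * A : ℤ) : 𝓞 F) - 2 * ν * (((p.1 : ℕ) : 𝓞 F) * X +
          ((D / 4 : ℕ) : 𝓞 F) * ((p.2 : ℕ) : 𝓞 F) * Y) := by
      generalize D / 4 = n4
      push_cast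
      ring
    rw [e3, e1, e2]
    nth_rw 1 [hω2]
    have e4 : ω' = cj ω' + s * d := by linear_combination hd
    have e5 : s ^ 2 = -((D : ℤ) : 𝓞 F) := by
      rw [hD.sq, Int.cast_natCast]
    have e6 := hM.tt
    nth_rw 1 [e4]
    linear_combination (-d) * e5 - 2 * ν * ((p.2 : ℕ) : 𝓞 F) * Y * e6

/-- The phase in Poisson summation. -/
theorem phase (hb : StBasE) (hD : DatE D s σ χ cj) (ha : a ≠ ⊥)
    (hc : IsCoprime a (Ideal.span {s})) (hM : Mult D s t a ν ν0)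
    (p : Fin (D / 2) × Fin 2) {X Y : ℤ} (hη : (X : 𝓞 F) + Y * t ∈ a) :
    ee (-(2 * (σ ((yp t ν0 p : 𝓞 F) : F) / Sq D *
        conj (σ (((X : 𝓞 F) + Y * t : 𝓞 F) : F) / Sq D)).re / (Ideal.absNorm a : ℝ) : ℝ)) =
      ee (((-(2 * ν * (((p.1 : ℕ) : ℤ) * X + (D / 4 : ℕ) * ((p.2 : ℕ) : ℤ) * Y)) : ℤ) : ℂ) / D) := by
  obtain ⟨T, hT, c, hTc⟩ := trace hb hD ha hc hM p hη
  have hD0 := D0 hD
  have hDR : (D : ℝ) ≠ 0 := by exact_mod_cast hD0
  have hDC : (D : ℂ) ≠ 0 := by exact_mod_cast hD0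
  have hN := pos_norm ha
  have hS := Sq_ne hD0
  have e0 : Sq D * conj (Sq D) = (D : ℂ) := by
    rw [Complex.mul_conj, normSq_Sq]
    simp
  have hcS : conj (Sq D) ≠ 0 := by
    rw [Ne, map_eq_zero]
    exact hS
  have e1 : σ ((yp t ν0 p : 𝓞 F) : F) / Sq D *
      conj (σ (((X : 𝓞 F) + Y * t : 𝓞 F) : F) / Sq D) =
      (((D : ℝ)⁻¹ : ℝ) : ℂ) * (σ ((yp t ν0 p : 𝓞 F) : F) *
        conj (σ (((X : 𝓞 F) + Y * t : 𝓞 F) : F))) := by
    rw [map_div₀]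
    push_cast
    rw [← e0]
    field_simp
  rw [e1, Complex.re_ofReal_mul]
  have e2 : 2 * ((D : ℝ)⁻¹ * (σ ((yp t ν0 p : 𝓞 F) : F) *
      conj (σ (((X : 𝓞 F) + Y * t : 𝓞 F) : F))).re) / (Ideal.absNorm a : ℝ) = T / D := by
    rw [div_eq_div_iff hN.ne' hDR, ← hT]
    field_simp
  rw [e2]
  set Z : ℤ := 2 * ν * (((p.1 : ℕ) : ℤ) * X + (D / 4 : ℕ) * ((p.2 : ℕ) : ℤ) * Y) with hZ
  have e3 : ((-(T / D : ℝ) : ℝ) : ℂ) = ((-Z : ℤ) : ℂ) / D + ((-c : ℤ) : ℂ) := by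
    have e4 : T = Z + D * c := by linear_combination hTc
    rw [e4]
    push_cast
    field_simp
    ring
  rw [show ee (-((T / D : ℝ) : ℂ)) = ee ((-(T / D : ℝ) : ℝ) : ℂ) by push_cast; rfl, e3, ee_add,
    ee_int, mul_one]

/-- The finite sum. -/
theorem gsum {Φ : ℤ → ℂ} (hG : ∀ (ν : ℕ) (x y : ℤ), kr D ν = 1 →
    ∑ a ∈ Finset.range (D / 2), ∑ b ∈ Finset.range 2,
      ee (((ν * (g * (a ^ 2 + (D / 4 : ℕ) * b ^ 2) + 2 * (a * x + (D / 4 : ℕ) * b * y)) : ℤ) : ℂ)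
        / D) = D * (epsE D g ν : ℂ) * Φ (ν * (x ^ 2 + (D / 4 : ℕ) * y ^ 2))) (hν : kr D ν = 1)
    (X Y : ℤ) :
    ∑ p : Fin (D / 2) × Fin 2,
      ee (((g * (ν * (((p.1 : ℕ) : ℤ) ^ 2 + (D / 4 : ℕ) * ((p.2 : ℕ) : ℤ) ^ 2)) : ℤ) : ℂ) / D) *
      ee (((-(2 * ν * (((p.1 : ℕ) : ℤ) * X + (D / 4 : ℕ) * ((p.2 : ℕ) : ℤ) * Y)) : ℤ) : ℂ) / D) =
      D * (epsE D g ν : ℂ) * Φ (ν * (X ^ 2 + (D / 4 : ℕ) * Y ^ 2)) := by
  have h := hG ν (-X) (-Y) hν
  rw [neg_sq, neg_sq, Finset.sum_range] at h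
  rw [← h, Fintype.sum_prod_type]
  refine Finset.sum_congr rfl fun x _ => ?_
  rw [Finset.sum_range]
  refine Finset.sum_congr rfl fun y _ => ?_
  rw [← ee_add, ← add_div, ← Int.cast_add]
  congr 3
  ring

/-- The sum over the cosets. -/
theorem cosets (hb : StBasE) (hT : StThBE) (hD : DatE D s σ χ cj) (ha : a ≠ ⊥)
    (hc : IsCoprime a (Ideal.span {s})) (hM : Mult D s t a ν ν0) (g : ℕ) (k : ℕ) {v : ℂ}
    (hv : 0 < v.im) :
    ∑' η : a, (σ ((η : 𝓞 F) : F) / Sq D) ^ k * ee (Qa σ a η / D * (g + v)) =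
      ∑ p : Fin (D / 2) × Fin 2,
        ee (((g * (ν * (((p.1 : ℕ) : ℤ) ^ 2 + (D / 4 : ℕ) * ((p.2 : ℕ) : ℤ) ^ 2)) : ℤ) : ℂ) / D) *
        ∑' α : a, (σ ((yp t ν0 p : 𝓞 F) : F) / Sq D + σ ((α : 𝓞 F) : F)) ^ k *
          ee (Complex.normSq (σ ((yp t ν0 p : 𝓞 F) : F) / Sq D + σ ((α : 𝓞 F) : F)) /
            (Ideal.absNorm a : ℝ) * v) := by
  have hD0 := D0 hD
  have hDC : (D : ℂ) ≠ 0 := by exact_mod_cast hD0
  have hS := Sq_ne hD0
  have hN := pos_norm ha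
  obtain ⟨e, he⟩ := exists_equiv hD hc hM
  have hval : ∀ p : (Fin (D / 2) × Fin 2) × a, σ ((yp t ν0 p.1 : 𝓞 F) : F) / Sq D +
      σ ((p.2 : 𝓞 F) : F) = σ (((e p : a) : 𝓞 F) : F) / Sq D := by
    intro p
    rw [he p, eq_div_iff hS]
    have e2 : ((yp t ν0 p.1 + s * (p.2 : 𝓞 F) : 𝓞 F) : F) =
        ((yp t ν0 p.1 : 𝓞 F) : F) + (s : F) * ((p.2 : 𝓞 F) : F) := by
      push_cast
      rfl
    rw [e2, map_add, map_mul, hD.im, add_mul, div_mul_cancel₀ _ hS]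
    unfold Sq
    ring
  have hterm : ∀ p : (Fin (D / 2) × Fin 2) × a,
      (σ (((e p : a) : 𝓞 F) : F) / Sq D) ^ k * ee (Qa σ a (e p : a) / D * (g + v)) =
      ee (((g * (ν * (((p.1.1 : ℕ) : ℤ) ^ 2 + (D / 4 : ℕ) * ((p.1.2 : ℕ) : ℤ) ^ 2)) : ℤ) : ℂ) / D) *
        ((σ ((yp t ν0 p.1 : 𝓞 F) : F) / Sq D + σ ((p.2 : 𝓞 F) : F)) ^ k *
          ee (Complex.normSq (σ ((yp t ν0 p.1 : 𝓞 F) : F) / Sq D + σ ((p.2 : 𝓞 F) : F)) /
            (Ideal.absNorm a : ℝ) * v)) := by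
    intro p
    rw [hval p]
    obtain ⟨m, hm, hm'⟩ := res_Qa hb hT hD ha (e p : a).2
    obtain ⟨c, hc'⟩ := Q_cong hb hD hM (m := (m : ℤ)) (by exact_mod_cast hm') (yp_norm hM p.1)
      (show s ∣ ((e p : a) : 𝓞 F) - yp t ν0 p.1 from ⟨p.2, by rw [he p]; ring⟩)
    set Z : ℤ := ν * (((p.1.1 : ℕ) : ℤ) ^ 2 + (D / 4 : ℕ) * ((p.1.2 : ℕ) : ℤ) ^ 2) with hZ
    have e1 : ((Qa σ a ((e p : a) : 𝓞 F) : ℂ) / D * (g + v)) =
        ((g * Z : ℤ) : ℂ) / D + ((g * c : ℤ) : ℂ) + Qa σ a ((e p : a) : 𝓞 F) / D * v := by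
      have e2 : (Qa σ a ((e p : a) : 𝓞 F) : ℂ) = Z + D * c := by
        rw [hm]
        have : ((m : ℤ) : ℂ) = ((Z + D * c : ℤ) : ℂ) := by
          congr 1
          linear_combination hc'
        push_cast at this ⊢
        exact this
      rw [mul_add]
      congr 1
      rw [e2]
      push_cast
      field_simp
    rw [e1, ee_add, ee_add, ee_int, mul_one]
    have e3 : (Qa σ a ((e p : a) : 𝓞 F) : ℂ) / D * v =
        ((Complex.normSq (σ (((e p : a) : 𝓞 F) : F) / Sq D) : ℝ) : ℂ) /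
          ((Ideal.absNorm a : ℝ) : ℂ) * v := by
      rw [Complex.normSq_div, normSq_Sq]
      unfold Qa
      push_cast
      ring
    rw [e3]
    ring
  have hgv : 0 < ((g : ℂ) + v).im := by
    rw [Complex.add_im, Complex.natCast_im, zero_add]
    exact hv
  have hsum := summ hT hD ha k hgv
  have hsum2 := (e.summable_iff).2 hsum
  rw [← e.tsum_eq (fun η : a => (σ ((η : 𝓞 F) : F) / Sq D) ^ k *
    ee (Qa σ a η / D * (g + v)))]
  have h3 := hsum2.tsum_prod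
  refine h3.trans ?_
  rw [tsum_fintype]
  refine Finset.sum_congr rfl fun p _ => ?_
  rw [← tsum_mul_left]
  exact tsum_congr fun α => hterm (p, α)

end main

end ThCEX

open ThCEX in
/-- (H7) theta series: the other cusps -/
theorem stThCE (h1 : StPoisK) (h2 : StBaseE) (h3 : StBasE) (h4 : StThBE) (h5 : StGs1)
    (h6 : StGs2) (h7 : StSplitE) : StThCE := by
  intro D F _ _ s σ χ cj hD g hg
  have hD0 := D0 hD
  have hGs : GsP D g := by
    by_cases hodd : Odd g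
    · exact h5 D g hD.ev hg hodd
    · exact h6 D g hD.ev hg (Nat.not_odd_iff_even.1 hodd)
  obtain ⟨Φ, hΦ, hG⟩ := hGs
  refine ⟨Φ, hΦ, ?_⟩
  intro a k u ha hc hk hu
  obtain ⟨t, ν, ν0, hM, hν⟩ := exists_mult h3 h4 h7 hD ha hc
  have hu0 : u ≠ 0 := by
    rintro rfl
    simp at hu
  have hvim : 0 < (-1 / u).im := by
    rw [neg_div, Complex.neg_im, one_div, Complex.inv_im, neg_div, neg_neg]
    have := Complex.normSq_pos.2 hu0
    positivity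
  set v : ℂ := -1 / u with hv
  have hwim : 0 < ((g : ℂ) + v).im := by
    rw [Complex.add_im, Complex.natCast_im, zero_add]
    exact hvim
  have hw0 : (g : ℂ) + v ≠ 0 := by
    intro h0
    rw [h0] at hwim
    simp at hwim
  have hwu : ((g : ℂ) + v) * u = -(1 - g * u) := by
    rw [hv]
    field_simp
    ring
  have hgu : 1 - g * u ≠ 0 := by
    intro h0
    rw [h0, neg_zero] at hwu
    exact (mul_ne_zero hw0 hu0) hwu
  have harg : u / (1 - g * u) = -1 / (g + v) := by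
    rw [div_eq_div_iff hgu hw0]
    linear_combination hwu
  rw [harg]
  -- the transformation at infinity
  have p1 := pois h1 h2 hD ha hk 0 hwim
  have p2 : th σ a k (-1 / (g + v)) = (Sq D)⁻¹ * (g + v) ^ (k + 1) *
      ∑' η : a, (σ ((η : 𝓞 F) : F) / Sq D) ^ k * ee (Qa σ a η / D * (g + v)) := by
    have e1 : ∀ η : a, ee (-(2 * ((0 : ℂ) * conj (σ ((η : 𝓞 F) : F) / Sq D)).re /
        (Ideal.absNorm a : ℝ) : ℝ)) = 1 := by
      intro η
      rw [zero_mul, Complex.zero_re, mul_zero, zero_div]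
      have := ee_int 0
      simpa using this
    simp only [e1, one_mul, zero_add] at p1
    rw [← p1]
    unfold th
    refine tsum_congr fun η => ?_
    unfold Qa
    push_cast
    rfl
  -- the sum over the cosets
  have p3 : ∑' η : a, (σ ((η : 𝓞 F) : F) / Sq D) ^ k * ee (Qa σ a η / D * (g + v)) =
      (Sq D)⁻¹ * u ^ (k + 1) * (D * (epsE D g ν : ℂ) * thP D σ a Φ k u) := by
    rw [cosets h3 h4 hD ha hc hM g k hvim]
    have e1 : ∀ p : Fin (D / 2) × Fin 2,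
        ee (((g * (ν * (((p.1 : ℕ) : ℤ) ^ 2 + (D / 4 : ℕ) * ((p.2 : ℕ) : ℤ) ^ 2)) : ℤ) : ℂ) / D) *
        ∑' α : a, (σ ((yp t ν0 p : 𝓞 F) : F) / Sq D + σ ((α : 𝓞 F) : F)) ^ k *
          ee (Complex.normSq (σ ((yp t ν0 p : 𝓞 F) : F) / Sq D + σ ((α : 𝓞 F) : F)) /
            (Ideal.absNorm a : ℝ) * v) =
        (Sq D)⁻¹ * u ^ (k + 1) * ∑' η : a,
          ee (((g * (ν * (((p.1 : ℕ) : ℤ) ^ 2 + (D / 4 : ℕ) * ((p.2 : ℕ) : ℤ) ^ 2)) : ℤ) : ℂ) / D) *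
          (ee (-(2 * (σ ((yp t ν0 p : 𝓞 F) : F) / Sq D *
            conj (σ ((η : 𝓞 F) : F) / Sq D)).re / (Ideal.absNorm a : ℝ) : ℝ)) *
            ((σ ((η : 𝓞 F) : F) / Sq D) ^ k * ee (Qa σ a η / D * u))) := by
      intro p
      rw [hv, pois h1 h2 hD ha hk _ hu, tsum_mul_left]
      ring
    rw [Finset.sum_congr rfl fun p _ => e1 p, ← Finset.mul_sum]
    congr 1
    have hsum : ∀ p : Fin (D / 2) × Fin 2, Summable fun η : a =>
          ee (((g * (ν * (((p.1 : ℕ) : ℤ) ^ 2 + (D / 4 : ℕ) * ((p.2 : ℕ) : ℤ) ^ 2)) : ℤ) : ℂ) / D) *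
          (ee (-(2 * (σ ((yp t ν0 p : 𝓞 F) : F) / Sq D *
            conj (σ ((η : 𝓞 F) : F) / Sq D)).re / (Ideal.absNorm a : ℝ) : ℝ)) *
            ((σ ((η : 𝓞 F) : F) / Sq D) ^ k * ee (Qa σ a η / D * u))) := by
      intro p
      refine Summable.mul_left _ ?_
      refine Summable.of_norm_bounded (summ h4 hD ha k hu).norm fun η => ?_
      rw [norm_mul, norm_ee]
      simp
    rw [← Summable.tsum_finsetSum fun p _ => hsum p]
    unfold thP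
    rw [← tsum_mul_left]
    refine tsum_congr fun η => ?_
    obtain ⟨X, Y, hXY⟩ := hM.co (η : 𝓞 F)
    have hη : (X : 𝓞 F) + Y * t ∈ a := by
      rw [← hXY]
      exact η.2
    obtain ⟨m, hm, hm'⟩ := res_Qa h3 h4 hD ha η.2
    have e2 : ∑ p : Fin (D / 2) × Fin 2,
          ee (((g * (ν * (((p.1 : ℕ) : ℤ) ^ 2 + (D / 4 : ℕ) * ((p.2 : ℕ) : ℤ) ^ 2)) : ℤ) : ℂ) / D) *
          (ee (-(2 * (σ ((yp t ν0 p : 𝓞 F) : F) / Sq D *
            conj (σ ((η : 𝓞 F) : F) / Sq D)).re / (Ideal.absNorm a : ℝ) : ℝ)) *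
            ((σ ((η : 𝓞 F) : F) / Sq D) ^ k * ee (Qa σ a η / D * u))) =
        (D * (epsE D g ν : ℂ) * Φ (ν * (X ^ 2 + (D / 4 : ℕ) * Y ^ 2))) *
          ((σ ((η : 𝓞 F) : F) / Sq D) ^ k * ee (Qa σ a η / D * u)) := by
      rw [← gsum hG hν X Y, Finset.sum_mul]
      refine Finset.sum_congr rfl fun p _ => ?_
      rw [← phase h3 hD ha hc hM p hη, ← hXY, mul_assoc]
    rw [e2]
    have e3 : Φ (ν * (X ^ 2 + (D / 4 : ℕ) * Y ^ 2)) = Φ ⌊Qa σ a (η : 𝓞 F)⌋ := by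
      have e4 : ⌊Qa σ a (η : 𝓞 F)⌋ = (m : ℤ) := by
        rw [hm]
        exact Int.floor_natCast m
      rw [e4]
      have e5 := hM.nn X Y
      rw [← hXY, hm'] at e5
      obtain ⟨c, hc'⟩ := hM.inv
      have e6 : (ν * (X ^ 2 + (D / 4 : ℕ) * Y ^ 2) : ℤ) = m + (m * c) * D := by
        rw [← e5]
        push_cast
        linear_combination (m : ℤ) * hc'
      rw [e6]
      have hper : Function.Periodic Φ (D : ℤ) := hΦ.per
      exact hper.int_mul (m * c) m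
    rw [e3]
    unfold Sq
    ring
  rw [p2, p3, eps_eq hg hD0 hM.inv]
  have hS := Sq_ne hD0
  have hSS : Sq D * Sq D = -(D : ℂ) := by
    unfold Sq
    have : ((Real.sqrt D : ℝ) : ℂ) * Real.sqrt D = D := by
      rw [← Complex.ofReal_mul, Real.mul_self_sqrt (Nat.cast_nonneg D)]
      push_cast
      rfl
    linear_combination (-1 : ℂ) * this + (Real.sqrt D : ℂ) ^ 2 * Complex.I_sq
  have hDC : (D : ℂ) ≠ 0 := by exact_mod_cast hD0
  have e7 : ((g : ℂ) + v) ^ (k + 1) * u ^ (k + 1) = -(1 - g * u) ^ (k + 1) := by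
    rw [← mul_pow, hwu, Odd.neg_pow hk.add_one]
  have e8 : (Sq D)⁻¹ * (Sq D)⁻¹ * D = -1 := by
    rw [← mul_inv, hSS]
    field_simp
  linear_combination ((Sq D)⁻¹ * (Sq D)⁻¹ * D * (epsE D g (Ideal.absNorm a) : ℂ) *
    thP D σ a Φ k u) * e7 - (1 - g * u) ^ (k + 1) * (epsE D g (Ideal.absNorm a) : ℂ) *
    thP D σ a Φ k u * e8

end RZ

end Pool.Agent.Lib.MP_7c08ba_nt
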