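import Pool.Agent.Lib.MP_7c08ba_nt.RZ.StH
import Pool.Agent.Lib.MP_7c08ba_nt.RZ.ThGD

set_option autoImplicit false

/-!
(H6) theta series of ideals and the group `Γ₀(D)`, even discriminant: proof by Dirichlet's theorem.
-/

namespace Pool.Agent.Lib.MP_7c08ba_nt

namespace RZ

open NumberField MeasureTheory UpperHalfPlane Set
open scoped MatrixGroups ComplexConjugate nonZeroDivisors

namespace ThGEX

open ThGX ThGDX

section law

variable {D : ℕ} {A B C : ℤ} {X Y : ℂ} {N : ℝ}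

theorem recipE {D n : ℕ} (hD : D = 4 * n) {p : ℕ} [Fact p.Prime] (hp2 : p ≠ 2) :
    quadraticChar (ZMod p) (((-(D : ℤ) : ℤ)) : ZMod p) = kr D p := by
  have hodd : Odd p := (Fact.out : p.Prime).odd_of_ne_two hp2
  have h2 : (2 : ZMod p) ≠ 0 := by
    intro h
    have h3 : ((2 : ℕ) : ZMod p) = 0 := by exact_mod_cast h
    rw [ZMod.natCast_eq_zero_iff] at h3
    exact hp2 ((Nat.prime_dvd_prime_iff_eq Fact.out Nat.prime_two).1 h3)
  have h4 : D / 4 = n := by omega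
  have h5 : (((-(D : ℤ) : ℤ)) : ZMod p) = (((-(n : ℤ) : ℤ)) : ZMod p) * (2 : ZMod p) ^ 2 := by
    rw [hD]
    push_cast
    ring
  have h6 : quadraticChar (ZMod p) (((-(n : ℤ) : ℤ)) : ZMod p) = legendreSym p (-(n : ℤ)) := rfl
  unfold kr
  rw [if_neg (by rwa [Nat.not_even_iff_odd]), h4, h5, map_mul, quadraticChar_sq_one' h2, mul_one, h6,
    jacobiSym.legendreSym.to_jacobiSym]

theorem law_genE (h : Frm D A B C X Y N) (hO : EvD D) (hS : Sm A B C X Y) (hP : StPoisK)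
    {k : ℕ} (hk : Even k) (χ : DirichletCharacter ℂ D) (hqc : QC D χ)
    (hχ : ∀ a : ℕ, χ (a : ZMod D) = (kr D a : ℂ)) (g : SL(2, ℤ)) (hdvd : (D : ℤ) ∣ g 1 0)
    {u : ℂ} (hu : 0 < u.im) :
    T1 A B C X Y k (((g 0 0 : ℂ) * u + g 0 1) / ((g 1 0 : ℂ) * u + g 1 1)) =
      χ (g 1 1 : ℤ) * ((g 1 0 : ℂ) * u + g 1 1) ^ (k + 1) * T1 A B C X Y k u := by
  obtain ⟨hD4, n0, hD3, -, -⟩ := hO
  have hD0 : D ≠ 0 := by omega
  have hdet : g 0 0 * g 1 1 - g 0 1 * g 1 0 = 1 := by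
    have h1 := g.det_coe
    rw [Matrix.det_fin_two] at h1
    exact h1
  by_cases hc : g 1 0 = 0
  · rw [hc, mul_zero, sub_zero] at hdet
    rcases Int.eq_one_or_neg_one_of_mul_eq_one' hdet with ⟨h1, h2⟩ | ⟨h1, h2⟩
    · have h3 : ((g 0 0 : ℂ) * u + g 0 1) / ((g 1 0 : ℂ) * u + g 1 1) = u + (g 0 1 : ℤ) := by
        rw [h1, h2, hc]
        push_cast
        ring
      rw [h3, T1_add_int, h2, hc]
      push_cast
      rw [map_one]
      ring
    · have h3 : ((g 0 0 : ℂ) * u + g 0 1) / ((g 1 0 : ℂ) * u + g 1 1) = u + (-g 0 1 : ℤ) := by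
        rw [h1, h2, hc]
        push_cast
        ring
      have h4 : χ ((-1 : ℤ) : ZMod D) = -1 := by
        rw [Int.cast_neg, Int.cast_one]
        exact hqc.odd
      rw [h3, T1_add_int, h2, h4, hc]
      have h5 : (((0 : ℤ) : ℂ) * u + ((-1 : ℤ) : ℂ)) ^ (k + 1) = -1 := by
        push_cast
        rw [zero_mul, zero_add, Odd.neg_one_pow hk.add_one]
      rw [h5]
      ring
  · obtain ⟨c, hcD⟩ := hdvd
    have hcop : IsCoprime (g 1 1) ((g 1 0).natAbs : ℤ) := by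
      have h1 : IsCoprime (g 1 1) (g 1 0) := ⟨g 0 0, -g 0 1, by linarith⟩
      rw [Int.natCast_natAbs]
      rcases abs_choice (g 1 0) with h2 | h2
      · rw [h2]
        exact h1
      · rw [h2]
        exact h1.neg_right
    obtain ⟨p, hpgt, hpp, hpmod⟩ := Nat.forall_exists_prime_gt_and_zmodEq
      (A.natAbs + D + 2) (q := (g 1 0).natAbs) (a := g 1 1) (Int.natAbs_ne_zero.2 hc) hcop
    have : Fact p.Prime := ⟨hpp⟩
    have hp2 : p ≠ 2 := by omega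
    have hA0 : A ≠ 0 := by
      rintro rfl
      have h1 := h.disc
      have h2 : B ^ 2 = -(D : ℤ) := by linarith
      have h3 : (0 : ℤ) < D := by exact_mod_cast Nat.pos_of_ne_zero hD0
      nlinarith [sq_nonneg B]
    have hpA : ¬ (p : ℤ) ∣ A := by
      intro hdv
      have h1 := Int.natAbs_dvd_natAbs.2 hdv
      rw [Int.natAbs_natCast] at h1
      have h2 := Nat.le_of_dvd (Int.natAbs_pos.2 hA0) h1
      omega
    have hpD : ¬ (p : ℤ) ∣ D := by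
      intro hdv
      have h1 : p ∣ D := by exact_mod_cast hdv
      have h2 := Nat.le_of_dvd (Nat.pos_of_ne_zero hD0) h1
      omega
    obtain ⟨n, hn⟩ : ∃ n : ℤ, (p : ℤ) = g 1 1 + g 1 0 * n := by
      have h1 : ((g 1 0).natAbs : ℤ) ∣ (p : ℤ) - g 1 1 := hpmod.symm.dvd
      rw [Int.natAbs_dvd] at h1
      obtain ⟨n, hn⟩ := h1
      exact ⟨n, by linarith⟩
    have hdet2 : g 0 0 * p - (g 0 0 * n + g 0 1) * (D * c) = 1 := by
      rw [← hcD, hn]
      linear_combination hdet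
    have hu' : 0 < (u + (-n : ℤ)).im := by
      rw [Complex.add_im, Complex.intCast_im, add_zero]
      exact hu
    have key := law_prime h hD0 hS hP hk hp2 hpA hpD hdet2 hu'
    have e1 : ((g 0 0 : ℤ) : ℂ) * (u + (-n : ℤ)) + ((g 0 0 * n + g 0 1 : ℤ) : ℂ) =
        (g 0 0 : ℂ) * u + g 0 1 := by
      push_cast
      ring
    have e2 : ((D * c : ℤ) : ℂ) * (u + (-n : ℤ)) + (p : ℂ) = (g 1 0 : ℂ) * u + g 1 1 := by
      have e3 : (p : ℂ) = (g 1 1 : ℂ) + g 1 0 * n := by exact_mod_cast congrArg (Int.cast : ℤ → ℂ) hn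
      rw [← hcD, e3]
      push_cast
      ring
    rw [e1, e2, T1_add_int, recipE hD3 hp2] at key
    rw [key, ← hχ]
    congr 3
    have h5 : ((g 1 1 : ℤ) : ZMod D) = (((p : ℕ) : ℤ) : ZMod D) := by
      rw [ZMod.intCast_eq_intCast_iff_dvd_sub]
      rw [hn, hcD]
      exact ⟨c * n, by ring⟩
    rw [h5, Int.cast_natCast]

end law

section field

variable {F : Type} [Field F] [NumberField F] {D : ℕ} {s : 𝓞 F} {σ : F →+* ℂ}
  {χ : DirichletCharacter ℂ D} {cj : 𝓞 F ≃+* 𝓞 F} {a : Ideal (𝓞 F)}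

theorem exists_frmE (hB : StBaseE) (hTh : StThBE) (hD : DatE D s σ χ cj) (ha : a ≠ ⊥)
    {x y : 𝓞 F} (h : OBasis σ a x y) :
    ∃ A B C : ℤ, Frm D A B C (σ x) (σ y) (Ideal.absNorm a : ℝ) := by
  have hN : (0 : ℝ) < (Ideal.absNorm a : ℝ) := by
    have : Ideal.absNorm a ≠ 0 := fun h0 => ha (Ideal.absNorm_eq_zero_iff.1 h0)
    exact_mod_cast Nat.pos_of_ne_zero this
  have hQ := (hTh D F _ _ s σ χ cj a 0 0 0 hD ha (by simp)).1
  obtain ⟨nA, hA⟩ := hQ x (mem1 h)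
  obtain ⟨nC, hC⟩ := hQ y (mem2 h)
  obtain ⟨nB, hBn⟩ := hQ (x + y) (a.add_mem (mem1 h) (mem2 h))
  unfold Qa at hA hC hBn
  rw [div_eq_iff hN.ne'] at hA hC hBn
  refine ⟨nA, nB - nA - nC, nC, hN, (hB D F _ _ s σ χ cj hD).2.2.1 a x y h, ?_, ?_, ?_⟩
  · rw [show ((x + y : 𝓞 F) : F) = (x : F) + y from rfl, map_add, Complex.normSq_add, hA, hC]
      at hBn
    push_cast
    linear_combination hBn
  · rw [hA]
    push_cast
    ring
  · rw [hC]
    push_cast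
    ring

/-- The parametrisation of the ideal. -/
noncomputable def parE (hB : StBaseE) (hD : DatE D s σ χ cj) {x y : 𝓞 F} (h : OBasis σ a x y) :
    ℤ × ℤ ≃ a :=
  Equiv.ofBijective (fun p : ℤ × ℤ => (⟨(p.1 : 𝓞 F) * x + (p.2 : 𝓞 F) * y,
    (h.mem _).2 ⟨p.1, p.2, rfl⟩⟩ : a)) (by
    constructor
    · intro p p' e
      have e1 : (p.1 : 𝓞 F) * x + (p.2 : 𝓞 F) * y = (p'.1 : 𝓞 F) * x + (p'.2 : 𝓞 F) * y :=
        congrArg Subtype.val e
      have e2 := (hB D F _ _ s σ χ cj hD).2.2.2.1 a x y h (p.1 - p'.1) (p.2 - p'.2) (by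
        push_cast
        linear_combination e1)
      exact Prod.ext (by omega) (by omega)
    · rintro ⟨z, hz⟩
      obtain ⟨m, n, e⟩ := (h.mem z).1 hz
      exact ⟨(m, n), Subtype.ext e.symm⟩)

theorem parE_val (hB : StBaseE) (hD : DatE D s σ χ cj) {x y : 𝓞 F} (h : OBasis σ a x y)
    (p : ℤ × ℤ) : σ ((parE hB hD h p : a) : 𝓞 F) = (p.1 : ℂ) * σ x + p.2 * σ y := by
  have e : ∀ n : ℤ, σ ((n : 𝓞 F) : F) = n := by
    intro n
    rw [show ((n : 𝓞 F) : F) = (n : F) from map_intCast (algebraMap (𝓞 F) F) n, map_intCast]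
  show σ (((p.1 : 𝓞 F) * x + (p.2 : 𝓞 F) * y : 𝓞 F) : F) = _
  push_cast
  rw [map_add, map_mul, map_mul, e, e]

theorem parE_Qa (hB : StBaseE) (hD : DatE D s σ χ cj) {x y : 𝓞 F} (h : OBasis σ a x y)
    {A B C : ℤ} (hF : Frm D A B C (σ x) (σ y) (Ideal.absNorm a : ℝ)) (p : ℤ × ℤ) :
    Qa σ a ((parE hB hD h p : a) : 𝓞 F) = qf A B C p := by
  unfold Qa
  rw [parE_val, hF.normSq, mul_div_cancel_right₀ _ hF.pos.ne']

theorem th_eqE (hB : StBaseE) (hD : DatE D s σ χ cj) {x y : 𝓞 F} (h : OBasis σ a x y)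
    {A B C : ℤ} (hF : Frm D A B C (σ x) (σ y) (Ideal.absNorm a : ℝ)) (k : ℕ) (u : ℂ) :
    th σ a k u = T1 A B C (σ x) (σ y) k u := by
  unfold th T1
  rw [← (parE hB hD h).tsum_eq]
  refine tsum_congr fun p => ?_
  rw [parE_val, parE_Qa hB hD h hF]
  congr 3

theorem smE (hB : StBaseE) (hTh : StThBE) (hD : DatE D s σ χ cj) (ha : a ≠ ⊥) {x y : 𝓞 F}
    (h : OBasis σ a x y) {A B C : ℤ}
    (hF : Frm D A B C (σ x) (σ y) (Ideal.absNorm a : ℝ)) : Sm A B C (σ x) (σ y) := by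
  intro k t ht
  have h1 := (hTh D F _ _ s σ χ cj a k 0 0 hD ha (by simp)).2.1 t ht
  rw [← (parE hB hD h).summable_iff] at h1
  refine Summable.of_nonneg_of_le (fun p => by positivity) (fun p => ?_) h1
  simp only [Function.comp_apply]
  rw [parE_val, parE_Qa hB hD h hF]
  gcongr
  linarith [norm_nonneg ((p.1 : ℂ) * σ x + p.2 * σ y)]

end field

end ThGEX

open ThGX ThGDX ThGEX in
/-- (H6) -/
theorem stThGE (h1 : StPoisK) (h2 : StBaseE) (_h3 : StBasE) (h4 : StThBE) (_h5 : StThSE) :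
    StThGE := by
  intro D F _ _ s σ χ cj a k hD ha hk g z hz hdvd
  obtain ⟨x, y, hb⟩ := (h2 D F _ _ s σ χ cj hD).1 a ha
  obtain ⟨A, B, C, hF⟩ := exists_frmE h2 h4 hD ha hb
  have hS := smE h2 h4 hD ha hb hF
  rw [th_eqE h2 hD hb hF, th_eqE h2 hD hb hF]
  exact law_genE hF hD.ev hS h1 hk χ hD.qc hD.chi g hdvd hz

end RZ

end Pool.Agent.Lib.MP_7c08ba_nt
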