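import Mathlib
import Pool.Agent.Lib.MP_7c08ba_nt.RZ.StH

set_option autoImplicit false

/-!
(H9) Laguerre theta series of ideals: the group `Γ₀(D)` and the other cusps.
-/

namespace Pool.Agent.Lib.MP_7c08ba_nt

namespace RZ

open NumberField MeasureTheory UpperHalfPlane Set
open scoped MatrixGroups ComplexConjugate nonZeroDivisors

namespace ThlEAux

variable {F : Type} [Field F] [NumberField F]

theorem th_zero (σ : F →+* ℂ) (a : Ideal (𝓞 F)) (u : ℂ) :
    th σ a 0 u = ∑' x : a, ee (Qa σ a x * u) := by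
  simp [th]

theorem thP_zero (D : ℕ) (σ : F →+* ℂ) (a : Ideal (𝓞 F)) (Φ : ℤ → ℂ) (u : ℂ) :
    thP D σ a Φ 0 u = ∑' x : a, Φ ⌊Qa σ a x⌋ * ee (((Qa σ a x / D : ℝ) : ℂ) * u) := by
  simp [thP]

theorem CuspF.norm_le {D g : ℕ} {Φ : ℤ → ℂ} (h : CuspF D g Φ) (n : ℤ) : ‖Φ n‖ ≤ 1 := by
  by_cases hn : supE D g n
  · have h1 := h.nrm n hn
    have h2 : (((wid D g : ℕ) : ℝ))⁻¹ ≤ 1 := by
      rcases Nat.eq_zero_or_pos (wid D g) with h0 | h0
      · rw [h0]
        norm_num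
      · exact inv_le_one_of_one_le₀ (by exact_mod_cast h0)
    rw [Complex.normSq_eq_norm_sq] at h1
    nlinarith [norm_nonneg (Φ n)]
  · rw [h.zero n hn, norm_zero]
    exact zero_le_one

end ThlEAux

theorem stThlE (h1 : StRaise3) (h2 : StThGE) (h3 : StThCE) (_h4 : StBasE) (h5 : StThBE) :
    StThlE := by
  intro D F _ _ s σ χ cj hD
  have hD0 : (0 : ℝ) < D := by exact_mod_cast (lt_trans (by norm_num) hD.ev.1 : 0 < D)
  have hQ : ∀ (a : Ideal (𝓞 F)) (x : a), 0 ≤ Qa σ a (x : 𝓞 F) := fun a x =>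
    div_nonneg (Complex.normSq_nonneg _) (Nat.cast_nonneg _)
  have hS : ∀ (a : Ideal (𝓞 F)), a ≠ ⊥ → ∀ y : ℝ, 0 < y →
      Summable fun x : a => Real.exp (-Qa σ a (x : 𝓞 F) * y) := by
    intro a ha y hy
    have h := (h5 D F _ _ s σ χ cj a 0 0 (fun _ => 0) hD ha (by simp)).2.1 y hy
    refine h.congr fun x => ?_
    rw [pow_zero, one_mul, neg_mul, mul_comm y]
  have hS' : ∀ (a : Ideal (𝓞 F)), a ≠ ⊥ → ∀ y : ℝ, 0 < y →
      Summable fun x : a => Real.exp (-(Qa σ a (x : 𝓞 F) / D) * y) := by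
    intro a ha y hy
    refine (hS a ha (y / D) (div_pos hy hD0)).congr fun x => ?_
    congr 1
    ring
  refine ⟨?_, ?_⟩
  · intro a r ha g z hz hg
    have hdet : (g 0 0 : ℝ) * (g 1 1 : ℝ) - (g 0 1 : ℝ) * (g 1 0 : ℝ) = 1 := by
      have := g.det_coe
      rw [Matrix.det_fin_two] at this
      exact_mod_cast this
    have key := h1 a a r (fun x : a => Qa σ a (x : 𝓞 F)) (fun x : a => Qa σ a (x : 𝓞 F))
      (fun _ => 1) (fun _ => 1)
      (g 0 0 : ℝ) (g 0 1 : ℝ) (g 1 0 : ℝ) (g 1 1 : ℝ) (χ (g 1 1 : ℤ)) (hQ a) (hQ a)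
      (by simp) (by simp) (hS a ha) (hS a ha) hdet
      (fun u hu => by
        have h := h2 D F _ _ s σ χ cj a 0 hD ha (by simp) g u hu hg
        rw [ThlEAux.th_zero, ThlEAux.th_zero, zero_add, pow_one] at h
        simpa using h) z hz
    simpa [thl] using key
  · intro g hg
    obtain ⟨Φ, hΦ, hth⟩ := h3 D F _ _ s σ χ cj hD g hg
    refine ⟨Φ, hΦ, hth, ?_⟩
    intro a r u ha hc hu
    have key := h1 a a r (fun x : a => Qa σ a (x : 𝓞 F)) (fun x : a => Qa σ a (x : 𝓞 F) / D)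
      (fun _ => 1) (fun x : a => Φ ⌊Qa σ a (x : 𝓞 F)⌋)
      1 0 (-(g : ℝ)) 1 (epsE D g (Ideal.absNorm a) : ℂ) (hQ a)
      (fun x => div_nonneg (hQ a x) hD0.le) (by simp)
      (fun x => ThlEAux.CuspF.norm_le hΦ _) (hS a ha) (hS' a ha) (by norm_num)
      (fun v hv => by
        have h := hth a 0 v ha hc (by simp) hv
        rw [ThlEAux.th_zero, ThlEAux.thP_zero, zero_add, pow_one] at h
        have e1 : (((1 : ℝ) : ℂ) * v + ((0 : ℝ) : ℂ)) / (((-(g : ℝ) : ℝ) : ℂ) * v + ((1 : ℝ) : ℂ)) =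
            v / (1 - g * v) := by
          push_cast
          congr 1
          · ring
          · ring
        have e2 : (((-(g : ℝ) : ℝ) : ℂ) * v + ((1 : ℝ) : ℂ)) = 1 - g * v := by
          push_cast
          ring
        rw [e1, e2]
        simp only [one_mul]
        rw [h]
        ring) u hu
    have e1 : (((1 : ℝ) : ℂ) * u + ((0 : ℝ) : ℂ)) / (((-(g : ℝ) : ℝ) : ℂ) * u + ((1 : ℝ) : ℂ)) =
        u / (1 - g * u) := by
      push_cast
      congr 1
      · ring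
      · ring
    have e2 : (((-(g : ℝ) : ℝ) : ℂ) * u + ((1 : ℝ) : ℂ)) = 1 - g * u := by
      push_cast
      ring
    rw [e1, e2] at key
    simp only [one_mul] at key
    rw [thl, thlP]
    push_cast at key ⊢
    rw [key]
    ring

end RZ

end Pool.Agent.Lib.MP_7c08ba_nt
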