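import Pool.Agent.Lib.MP_7c08ba_nt.RZ.StG

set_option autoImplicit false

/-! (G33) injectivity: the pair of classes is determined by the triple (Hilbert 90 and ideals
invariant under conjugation). -/

namespace Pool.Agent.Lib.MP_7c08ba_nt

namespace RZ

open NumberField MeasureTheory UpperHalfPlane Set IsDedekindDomain
open scoped MatrixGroups ComplexConjugate nonZeroDivisors

namespace TinjM

section

variable {F : Type} [Field F] [NumberField F]

/-- a nonzero prime ideal contains a prime number -/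
theorem exists_prime (P : Ideal (𝓞 F)) (hP : P.IsPrime) (h0 : P ≠ ⊥) :
    ∃ p : ℕ, p.Prime ∧ (p : 𝓞 F) ∈ P := by
  classical
  have hex : ∃ n : ℕ, 0 < n ∧ (n : 𝓞 F) ∈ P :=
    ⟨Ideal.absNorm P, Nat.pos_of_ne_zero (by rwa [Ne, Ideal.absNorm_eq_zero_iff]),
      Ideal.absNorm_mem P⟩
  refine ⟨Nat.find hex, ?_, (Nat.find_spec hex).2⟩
  have hpos := (Nat.find_spec hex).1
  have hmem := (Nat.find_spec hex).2
  have h1 : Nat.find hex ≠ 1 := by
    intro h
    rw [h, Nat.cast_one] at hmem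
    exact hP.ne_top ((Ideal.eq_top_iff_one _).2 hmem)
  rw [Nat.prime_def]
  refine ⟨by omega, fun m hm => ?_⟩
  obtain ⟨k, hk⟩ := hm
  have hm0 : 0 < m := by
    rcases Nat.eq_zero_or_pos m with h | h
    · rw [h, zero_mul] at hk
      omega
    · exact h
  have hk0 : 0 < k := by
    rcases Nat.eq_zero_or_pos k with h | h
    · rw [h, mul_zero] at hk
      omega
    · exact h
  rw [hk, Nat.cast_mul] at hmem
  rcases hP.mem_or_mem hmem with h | h
  · right
    have := Nat.find_min' hex ⟨hm0, h⟩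
    nlinarith
  · left
    have h2 := Nat.find_min' hex ⟨hk0, h⟩
    have h3 : m * k ≤ k := by rw [← hk]; exact h2
    nlinarith

end

section

variable {D : ℕ} {F : Type} [Field F] [NumberField F] {s : 𝓞 F} {σ : F →+* ℂ}
  {χ : DirichletCharacter ℂ D} {cj : 𝓞 F ≃+* 𝓞 F}

theorem map_span (x : 𝓞 F) : (Ideal.span {x}).map (cj : 𝓞 F →+* 𝓞 F) = Ideal.span {cj x} := by
  rw [Ideal.map_span, Set.image_singleton]
  rfl

theorem map_map_cj (h : ∀ x, cj (cj x) = x) (a : Ideal (𝓞 F)) :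
    (a.map (cj : 𝓞 F →+* 𝓞 F)).map (cj : 𝓞 F →+* 𝓞 F) = a := by
  rw [Ideal.map_map]
  have : ((cj : 𝓞 F →+* 𝓞 F)).comp (cj : 𝓞 F →+* 𝓞 F) = RingHom.id _ := by
    ext x
    simp [h x]
  rw [this, Ideal.map_id]

/-- invariant ideals prime to `s` are generated by natural numbers -/
theorem inv_principal (h1 : StBasD) (h2 : StSplitD) (hd : DatD D s σ χ cj) :
    ∀ (N : ℕ) (I : Ideal (𝓞 F)), Ideal.absNorm I ≤ N → I ≠ ⊥ →
      I.map (cj : 𝓞 F →+* 𝓞 F) = I → IsCoprime I (Ideal.span {s}) →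
      ∃ n : ℕ, n ≠ 0 ∧ I = Ideal.span {(n : 𝓞 F)} := by
  obtain ⟨-, hcc, hcs, -, -, -, hnorm, -, -, -⟩ := h1 D F _ _ s σ χ cj hd
  intro N
  induction N with
  | zero =>
    intro I hI h0
    exact absurd (Ideal.absNorm_eq_zero_iff.1 (Nat.le_zero.1 hI)) h0
  | succ N ih =>
    intro I hI h0 hinv hcop
    by_cases htop : I = ⊤
    · exact ⟨1, one_ne_zero, by rw [htop, Nat.cast_one, Ideal.span_singleton_one]⟩
    obtain ⟨P, hPmax, hIP⟩ := Ideal.exists_le_maximal I htop
    have hP := hPmax.isPrime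
    have hP0 : P ≠ ⊥ := by
      rintro rfl
      exact h0 (le_bot_iff.1 hIP)
    obtain ⟨p, hp, hpP⟩ := exists_prime P hP hP0
    have hpne : (p : 𝓞 F) ≠ 0 := by exact_mod_cast hp.ne_zero
    -- enough: `p` divides `I`
    have key : I ≤ Ideal.span {(p : 𝓞 F)} → ∃ n : ℕ, n ≠ 0 ∧ I = Ideal.span {(n : 𝓞 F)} := by
      intro hle
      obtain ⟨J, hJ⟩ := Ideal.dvd_iff_le.2 hle
      have hsp0 : Ideal.span {(p : 𝓞 F)} ≠ ⊥ := by
        rw [Ne, Ideal.span_singleton_eq_bot]
        exact hpne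
      have hJ0 : J ≠ ⊥ := by
        rintro rfl
        exact h0 (by rw [hJ, Ideal.mul_bot])
      have hJinv : J.map (cj : 𝓞 F →+* 𝓞 F) = J := by
        rw [hJ, Ideal.map_mul, map_span, map_natCast] at hinv
        exact mul_left_cancel₀ hsp0 hinv
      have hJcop : IsCoprime J (Ideal.span {s}) := by
        rw [hJ] at hcop
        exact hcop.of_mul_left_right
      have hJn : Ideal.absNorm J ≤ N := by
        have e1 : Ideal.absNorm I = Ideal.absNorm (Ideal.span {(p : 𝓞 F)}) * Ideal.absNorm J := by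
          rw [hJ, map_mul]
        have e2 : 1 < Ideal.absNorm (Ideal.span {(p : 𝓞 F)}) := by
          have e3 : Ideal.absNorm (Ideal.span {(p : 𝓞 F)}) ≠ 0 := by
            rwa [Ne, Ideal.absNorm_eq_zero_iff]
          have e4 : Ideal.absNorm (Ideal.span {(p : 𝓞 F)}) ≠ 1 := by
            rw [Ne, Ideal.absNorm_eq_one_iff]
            intro h
            have : P = ⊤ := by
              rw [eq_top_iff, ← h, Ideal.span_singleton_le_iff_mem]
              exact hpP
            exact hP.ne_top this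
          omega
        have e5 : Ideal.absNorm J ≠ 0 := by
          rwa [Ne, Ideal.absNorm_eq_zero_iff]
        have e6 : 0 < Ideal.absNorm J := Nat.pos_of_ne_zero e5
        nlinarith
      obtain ⟨n, hn, hJn⟩ := ih J hJn hJ0 hJinv hJcop
      refine ⟨p * n, Nat.mul_ne_zero hp.ne_zero hn, ?_⟩
      rw [hJ, hJn, Ideal.span_singleton_mul_span_singleton, Nat.cast_mul]
    have hmaxof : ∀ Q : Ideal (𝓞 F), Q.IsPrime → Q ≠ ⊥ → Q ≤ P → P = Q := by
      intro Q hQ hQ0 hQP
      have hQm : Q.IsMaximal := hQ.isMaximal hQ0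
      exact (hQm.eq_of_le hP.ne_top hQP).symm
    obtain ⟨hs1, hs2, hs3⟩ := h2 D F _ _ s σ χ cj hd p hp
    rcases jacobiSym.trichotomy (p : ℤ) D with h | h | h
    · -- ramified
      obtain ⟨-, hr1, hr2, hr3⟩ := hs3 h
      exfalso
      have hr0 : ram s p ≠ ⊥ := by
        intro hr
        rw [hr] at hr2
        rw [Ideal.bot_pow two_ne_zero] at hr2
        exact hpne (Ideal.span_singleton_eq_bot.1 hr2.symm)
      have hle : ram s p ≤ P := by
        have : ram s p ^ 2 ≤ P := by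
          rw [hr2, Ideal.span_singleton_le_iff_mem]
          exact hpP
        exact hP.le_of_pow_le this
      have hPr := hmaxof _ hr1 hr0 hle
      have hsP : s ∈ P := by
        rw [hPr]
        exact Ideal.subset_span (by simp)
      have : (⊤ : Ideal (𝓞 F)) ≤ P := by
        rw [← (Ideal.isCoprime_iff_sup_eq.1 hcop)]
        exact sup_le hIP (by rw [Ideal.span_singleton_le_iff_mem]; exact hsP)
      exact hP.ne_top (top_le_iff.1 this)
    · -- split
      obtain ⟨P₁, P₂, hP1, hP2, hne, hmul, hn1, hn2⟩ := hs1 h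
      apply key
      have hsp0 : Ideal.span {(p : 𝓞 F)} ≠ ⊥ := by
        rw [Ne, Ideal.span_singleton_eq_bot]
        exact hpne
      have hP10 : P₁ ≠ ⊥ := by
        rintro rfl
        exact hsp0 (by rw [← hmul, Ideal.bot_mul])
      have hP20 : P₂ ≠ ⊥ := by
        rintro rfl
        exact hsp0 (by rw [← hmul, Ideal.mul_bot])
      have hc1 : P₁.map (cj : 𝓞 F →+* 𝓞 F) = P₂ := by
        have := hnorm P₁
        rw [hn1, ← hmul] at this
        exact mul_left_cancel₀ hP10 this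
      have hc2 : P₂.map (cj : 𝓞 F →+* 𝓞 F) = P₁ := by
        rw [← hc1, map_map_cj hcc]
      have hle : P₁ * P₂ ≤ P := by
        rw [hmul, Ideal.span_singleton_le_iff_mem]
        exact hpP
      have hcop12 : IsCoprime P₁ P₂ := by
        have hm1 : P₁.IsMaximal := hP1.isMaximal hP10
        have hm2 : P₂.IsMaximal := hP2.isMaximal hP20
        rw [Ideal.isCoprime_iff_sup_eq]
        by_contra hsup
        have e1 := hm1.eq_of_le hsup le_sup_left
        have e2 := hm2.eq_of_le hsup le_sup_right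
        exact hne (e1.trans e2.symm)
      rw [← hmul, Ideal.mul_eq_inf_of_coprime (Ideal.isCoprime_iff_sup_eq.1 hcop12)]
      rcases hP.mul_le.1 hle with hl | hl
      · have hPP := hmaxof _ hP1 hP10 hl
        refine le_inf (hPP ▸ hIP) ?_
        have := Ideal.map_mono (f := (cj : 𝓞 F →+* 𝓞 F)) hIP
        rw [hinv, hPP, hc1] at this
        exact this
      · have hPP := hmaxof _ hP2 hP20 hl
        refine le_inf ?_ (hPP ▸ hIP)
        have := Ideal.map_mono (f := (cj : 𝓞 F →+* 𝓞 F)) hIP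
        rw [hinv, hPP, hc2] at this
        exact this
    · -- inert
      obtain ⟨hpp, -⟩ := hs2 h
      apply key
      have hsp0 : Ideal.span {(p : 𝓞 F)} ≠ ⊥ := by
        rw [Ne, Ideal.span_singleton_eq_bot]
        exact hpne
      have := hmaxof _ hpp hsp0 (by rw [Ideal.span_singleton_le_iff_mem]; exact hpP)
      rw [← this]
      exact hIP

/-- elements which are units modulo `s` -/
theorem cop_of_unit (hd : DatD D s σ χ cj) {x : 𝓞 F} {n : ℤ} (hx : s ∣ x - n)
    (hn : IsUnit (n : ZMod D)) : IsCoprime (Ideal.span {x}) (Ideal.span {s}) := by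
  obtain ⟨m, hm⟩ : ∃ m : ℤ, (D : ℤ) ∣ n * m - 1 := by
    obtain ⟨u, hu⟩ := hn
    have hD : NeZero D := ⟨by have := hd.odd.2.2; omega⟩
    refine ⟨(((u⁻¹ : (ZMod D)ˣ) : ZMod D).val : ℤ), ?_⟩
    rw [← ZMod.intCast_zmod_eq_zero_iff_dvd]
    push_cast
    rw [ZMod.natCast_val, ZMod.cast_id, ← hu, Units.mul_inv, sub_self]
  obtain ⟨k, hk⟩ := hm
  obtain ⟨y, hy⟩ := hx
  have hsD : (D : 𝓞 F) = s * (-s) := by
    have := hd.sq
    linear_combination this
  rw [Ideal.isCoprime_span_singleton_iff]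
  refine ⟨(m : 𝓞 F), -(y * m - s * k), ?_⟩
  have hk' : (n : 𝓞 F) * m - 1 = (D : 𝓞 F) * k := by exact_mod_cast congrArg (fun z : ℤ => (z : 𝓞 F)) hk
  rw [hsD] at hk'
  linear_combination m * hy + hk'

theorem cop_conj (hcs : cj s = -s) {a : Ideal (𝓞 F)} (ha : IsCoprime a (Ideal.span {s})) :
    IsCoprime (a.map (cj : 𝓞 F →+* 𝓞 F)) (Ideal.span {s}) := by
  rw [Ideal.isCoprime_iff_sup_eq] at ha ⊢
  have := congrArg (Ideal.map (cj : 𝓞 F →+* 𝓞 F)) ha
  rw [Ideal.map_sup, map_span, hcs, Ideal.span_singleton_neg, Ideal.map_top] at this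
  exact this

end

end TinjM

open TinjM in
theorem stTinj (h1 : StBasD) (h2 : StSplitD) (_h3 : StRam) : StTinj := by
  intro D F _ _ s σ χ cj hd c c' d d' t t' u u' nt nt' nu nu' hc hc' hdd hdd' ht ht' hu hu'
    ht1 ht1' hu1 hu1' E1 E2 hsign
  obtain ⟨-, hcc, hcs, hcx, hxx, -, hnorm, -, -, hsn⟩ := h1 D F _ _ s σ χ cj hd
  have hD3 := hd.odd.2.2
  have hs1 : ¬ s ∣ 1 := by
    intro h
    have := (hsn 1).1 (by simpa using h)
    have h4 : D ∣ 1 := by exact_mod_cast this
    have := Nat.le_of_dvd one_pos h4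
    omega
  have ne_of_cop : ∀ {a : Ideal (𝓞 F)}, IsCoprime a (Ideal.span {s}) → a ≠ ⊥ := by
    rintro a ha rfl
    rw [Ideal.isCoprime_iff_sup_eq, bot_sup_eq, Ideal.span_singleton_eq_top] at ha
    exact hs1 ha.dvd
  have ne_of_unit : ∀ {x : 𝓞 F} {n : ℤ}, s ∣ x - n → IsUnit (n : ZMod D) → x ≠ 0 := by
    rintro x n hx hn rfl
    exact ne_of_cop (cop_of_unit hd hx hn) (Ideal.span_singleton_eq_bot.2 rfl)
  have hc0 : (c : Ideal (𝓞 F)) ≠ ⊥ := ne_of_cop hc
  have hc0' : (c' : Ideal (𝓞 F)) ≠ ⊥ := ne_of_cop hc'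
  have hd0 : (d : Ideal (𝓞 F)) ≠ ⊥ := ne_of_cop hdd
  have hd0' : (d' : Ideal (𝓞 F)) ≠ ⊥ := ne_of_cop hdd'
  set C : Ideal (𝓞 F) := (c : Ideal (𝓞 F)) with hC
  set C' : Ideal (𝓞 F) := (c' : Ideal (𝓞 F)) with hC'
  set Dd : Ideal (𝓞 F) := (d : Ideal (𝓞 F)) with hDd
  set Dd' : Ideal (𝓞 F) := (d' : Ideal (𝓞 F)) with hDd'
  have mulc : ∀ {x y : 𝓞 F} {m n : ℤ}, s ∣ x - m → s ∣ y - n → s ∣ x * y - (m * n : ℤ) := by
    rintro x y m n ⟨a, ha⟩ ⟨b, hb⟩
    refine ⟨a * y + m * b, ?_⟩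
    push_cast
    linear_combination y * ha + m * hb
  -- the numbers `x = t u'` and `y = ± t' u`
  obtain ⟨y, hyI, hyc⟩ : ∃ y : 𝓞 F, Ideal.span {y} = Ideal.span {t' * u} ∧
      s ∣ y - (nt * nu' : ℤ) := by
    have hb := mulc ht' hu
    rcases hsign with h | h
    · refine ⟨t' * u, rfl, ?_⟩
      have h5 : (D : ℤ) ∣ nt' * nu - nt * nu' := by
        rw [← ZMod.intCast_zmod_eq_zero_iff_dvd]
        push_cast
        rw [h, sub_self]
      have h6 := (hsn _).2 h5
      have h7 := dvd_add hb h6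
      convert h7 using 1
      push_cast
      ring
    · refine ⟨-(t' * u), by rw [Ideal.span_singleton_neg], ?_⟩
      have h5 : (D : ℤ) ∣ nt' * nu + nt * nu' := by
        rw [← ZMod.intCast_zmod_eq_zero_iff_dvd]
        push_cast
        rw [h]
        ring
      have h6 := (hsn _).2 h5
      have h7 := dvd_neg.2 (dvd_add hb h6)
      convert h7 using 1
      push_cast
      ring
  have hxc := mulc ht hu'
  have hxu : IsUnit ((nt * nu' : ℤ) : ZMod D) := by
    push_cast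
    exact ht1.mul hu1'
  obtain ⟨x, hx⟩ : ∃ x : 𝓞 F, x = t * u' := ⟨_, rfl⟩
  rw [← hx] at hxc
  have hx0 : x ≠ 0 := ne_of_unit hxc hxu
  have hy0 : y ≠ 0 := ne_of_unit hyc hxu
  -- the equation for `e = c' conj c`
  have hE : Ideal.span {x} * (C' * C.map (cj : 𝓞 F →+* 𝓞 F)) =
      Ideal.span {y} * (C * C'.map (cj : 𝓞 F →+* 𝓞 F)) := by
    apply mul_left_cancel₀ hd0
    rw [hyI, hx, ← Ideal.span_singleton_mul_span_singleton,
      ← Ideal.span_singleton_mul_span_singleton]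
    calc Dd * (Ideal.span {t} * Ideal.span {u'} * (C' * C.map (cj : 𝓞 F →+* 𝓞 F)))
        = (Ideal.span {t} * (Dd * C.map (cj : 𝓞 F →+* 𝓞 F))) * (Ideal.span {u'} * C') := by ring
      _ = (Ideal.span {u'} * (Dd' * C')) * (Ideal.span {t'} * C'.map (cj : 𝓞 F →+* 𝓞 F)) := by
          rw [E1]; ring
      _ = _ := by rw [← E2]; ring
  -- the norms are equal
  have hN : x * cj x = y * cj y := by
    have h5 := congrArg Ideal.absNorm hE
    rw [map_mul, map_mul, map_mul, map_mul] at h5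
    have hmapn : ∀ a : Ideal (𝓞 F), a ≠ ⊥ →
        Ideal.absNorm (a.map (cj : 𝓞 F →+* 𝓞 F)) = Ideal.absNorm a := by
      intro a ha
      have h6 := congrArg Ideal.absNorm (hnorm a)
      have h7 := congrArg Ideal.absNorm (hnorm (a.map (cj : 𝓞 F →+* 𝓞 F)))
      rw [map_map_cj hcc, mul_comm, hnorm a] at h7
      have h8 : Ideal.span {(Ideal.absNorm a : 𝓞 F)} =
          Ideal.span {(Ideal.absNorm (a.map (cj : 𝓞 F →+* 𝓞 F)) : 𝓞 F)} := by
        rw [← hnorm a, ← hnorm (a.map (cj : 𝓞 F →+* 𝓞 F)), map_map_cj hcc, mul_comm]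
      have h9 : ∀ n : ℕ, Ideal.absNorm (Ideal.span {(n : 𝓞 F)}) = n ^ 2 := by
        intro n
        have := Ideal.absNorm_span_singleton (S := 𝓞 F) (n : 𝓞 F)
        rw [this]
        have h10 : (Algebra.norm ℤ) ((n : ℕ) : 𝓞 F) = (n : ℤ) ^ 2 := by
          have h11 := Algebra.norm_algebraMap_of_basis (RingOfIntegers.basis F) (n : ℤ)
          have h12 : Fintype.card (Module.Free.ChooseBasisIndex ℤ (𝓞 F)) = 2 := by
            rw [← Module.finrank_eq_card_chooseBasisIndex, RingOfIntegers.rank, hd.fin]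
          rw [h12] at h11
          rw [← h11]
          simp
        rw [h10]
        simp [Int.natAbs_pow]
      have h13 := congrArg Ideal.absNorm h8
      rw [h9, h9] at h13
      exact (Nat.pow_left_injective (n := 2) (by norm_num) h13).symm
    rw [hmapn _ hc0, hmapn _ hc0'] at h5
    have h14 : Ideal.absNorm C * Ideal.absNorm C' ≠ 0 := by
      refine mul_ne_zero ?_ ?_
      · rwa [Ne, Ideal.absNorm_eq_zero_iff]
      · rwa [Ne, Ideal.absNorm_eq_zero_iff]
    have h15 : Ideal.absNorm (Ideal.span {x}) = Ideal.absNorm (Ideal.span {y}) := by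
      apply mul_right_cancel₀ h14
      rw [← h5]
      ring
    rw [hxx, hxx, h15]
  -- the element `W`
  obtain ⟨W, hW⟩ : ∃ W : 𝓞 F, W = (x + y) * cj x := ⟨_, rfl⟩
  have hWy : W * x = cj W * y := by
    rw [hW, map_mul, map_add, hcc]
    linear_combination x * hN
  have hWE : Ideal.span {cj W} * (C' * C.map (cj : 𝓞 F →+* 𝓞 F)) =
      Ideal.span {W} * (C * C'.map (cj : 𝓞 F →+* 𝓞 F)) := by
    have hy0' : Ideal.span {y} ≠ ⊥ := by
      rw [Ne, Ideal.span_singleton_eq_bot]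
      exact hy0
    apply mul_left_cancel₀ hy0'
    rw [← mul_assoc, Ideal.span_singleton_mul_span_singleton, mul_comm y, ← hWy,
      ← Ideal.span_singleton_mul_span_singleton, mul_assoc, hE]
    ring
  -- coprime to `s`
  have h2u : IsUnit ((2 * (nt * nu') : ℤ) : ZMod D) := by
    push_cast
    refine IsUnit.mul ?_ (by exact_mod_cast hxu)
    have hodd : Nat.Coprime 2 D := by
      rw [Nat.coprime_two_left, Nat.odd_iff]
      have := hd.odd.2.1
      omega
    exact_mod_cast (ZMod.isUnit_iff_coprime 2 D).2 hodd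
  have hz : s ∣ (x + y) - (2 * (nt * nu') : ℤ) := by
    have := dvd_add hxc hyc
    convert this using 1
    push_cast
    ring
  have hconj : ∀ {a : 𝓞 F} {n : ℤ}, s ∣ a - n → s ∣ cj a - n := by
    intro a n ha
    have := dvd_sub ha (hcx a)
    convert this using 1
    ring
  have hcopW : IsCoprime (Ideal.span {cj W}) (Ideal.span {s}) := by
    have h5 : Ideal.span {cj W} = Ideal.span {cj (x + y)} * Ideal.span {x} := by
      rw [Ideal.span_singleton_mul_span_singleton, hW, map_mul, hcc]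
    rw [h5]
    exact (cop_of_unit hd (hconj hz) h2u).mul_left (cop_of_unit hd hxc hxu)
  set I : Ideal (𝓞 F) := Ideal.span {cj W} * (C' * C.map (cj : 𝓞 F →+* 𝓞 F)) with hI
  have hIcop : IsCoprime I (Ideal.span {s}) :=
    hcopW.mul_left (hc'.mul_left (cop_conj hcs hc))
  have hIinv : I.map (cj : 𝓞 F →+* 𝓞 F) = I := by
    have h5 : I.map (cj : 𝓞 F →+* 𝓞 F) = Ideal.span {W} * (C * C'.map (cj : 𝓞 F →+* 𝓞 F)) := by
      rw [hI, Ideal.map_mul, Ideal.map_mul, map_span, hcc, map_map_cj hcc]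
      ring
    rw [h5]
    exact hWE.symm
  obtain ⟨n, hn0, hIn⟩ := inv_principal h1 h2 hd _ I le_rfl (ne_of_cop hIcop) hIinv hIcop
  have hW0 : cj W ≠ 0 := by
    intro h
    apply ne_of_cop hcopW
    rw [h]
    exact Ideal.span_singleton_eq_bot.2 rfl
  have hNc : (Ideal.absNorm C : 𝓞 F) ≠ 0 := by
    have : Ideal.absNorm C ≠ 0 := by rwa [Ne, Ideal.absNorm_eq_zero_iff]
    exact_mod_cast this
  have hn0' : (n : 𝓞 F) ≠ 0 := by exact_mod_cast hn0
  have hu0 : u ≠ 0 := ne_of_unit hu hu1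
  have hu0' : u' ≠ 0 := ne_of_unit hu' hu1'
  -- the classes of `c` and `c'`
  have hfin : Ideal.span {(n : 𝓞 F)} * C = Ideal.span {(Ideal.absNorm C : 𝓞 F) * cj W} * C' := by
    rw [← hIn, hI, ← Ideal.span_singleton_mul_span_singleton, ← hnorm C]
    ring
  constructor
  · rw [ClassGroup.mk0_eq_mk0_iff]
    exact ⟨n, _, hn0', mul_ne_zero hNc hW0, hfin⟩
  · rw [ClassGroup.mk0_eq_mk0_iff]
    refine ⟨u * ((Ideal.absNorm C : 𝓞 F) * cj W), n * u', mul_ne_zero hu0 (mul_ne_zero hNc hW0),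
      mul_ne_zero hn0' hu0', ?_⟩
    apply mul_left_cancel₀ hc0'
    rw [← Ideal.span_singleton_mul_span_singleton u, ← Ideal.span_singleton_mul_span_singleton
      (n : 𝓞 F)]
    calc C' * (Ideal.span {u} * Ideal.span {(Ideal.absNorm C : 𝓞 F) * cj W} * Dd)
        = Ideal.span {u} * Dd * (Ideal.span {(Ideal.absNorm C : 𝓞 F) * cj W} * C') := by ring
      _ = (Ideal.span {u} * (Dd * C)) * Ideal.span {(n : 𝓞 F)} := by rw [← hfin]; ring
      _ = _ := by rw [E2]; ring

end RZ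

end Pool.Agent.Lib.MP_7c08ba_nt
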