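import Mathlib
import Pool.Agent.Lib.MP_7c08ba_nt.RZ.StH
import Pool.Agent.Lib.MP_7c08ba_nt.RZ.Tinj

set_option autoImplicit false

/-! (H33) injectivity for even discriminants: the pair of classes is determined by the triple
(Hilbert 90, ideals invariant under conjugation, and the parity of the valuations at the
ramified primes). -/

namespace Pool.Agent.Lib.MP_7c08ba_nt

namespace RZ

open NumberField MeasureTheory UpperHalfPlane Set IsDedekindDomain
open scoped MatrixGroups ComplexConjugate nonZeroDivisors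

namespace TinjEM

open TinjM (exists_prime map_span map_map_cj cop_conj)

section

variable {F : Type} [Field F] [NumberField F]

/-- the primes `Q` with `Q ^ 2 = (q)` divide `I` to an even power -/
def Ev (I : Ideal (𝓞 F)) : Prop :=
  ∀ (Q : Ideal (𝓞 F)) (q : ℕ), q.Prime → Q.IsPrime → Q ^ 2 = Ideal.span {(q : 𝓞 F)} →
    ∀ k : ℕ, Q ^ (2 * k + 1) ∣ I → Q ^ (2 * k + 2) ∣ I

theorem span_nat_ne {q : ℕ} (hq : q.Prime) : Ideal.span {(q : 𝓞 F)} ≠ 0 := by
  rw [Ne, Ideal.zero_eq_bot, Ideal.span_singleton_eq_bot]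
  exact_mod_cast hq.ne_zero

theorem ev_of_mul {p : ℕ} (hp : p.Prime) {J : Ideal (𝓞 F)}
    (h : Ev (Ideal.span {(p : 𝓞 F)} * J)) : Ev J := by
  intro Q q hq hQ hQq k hk
  by_cases hqp : q = p
  · subst hqp
    have h0 : Ideal.span {(q : 𝓞 F)} ≠ 0 := span_nat_ne hq
    have h1 := h Q q hq hQ hQq (k + 1) (by
      rw [show 2 * (k + 1) + 1 = 2 + (2 * k + 1) by ring, pow_add, hQq]
      exact mul_dvd_mul_left _ hk)
    rw [show 2 * (k + 1) + 2 = 2 + (2 * k + 2) by ring, pow_add, hQq] at h1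
    exact (mul_dvd_mul_iff_left h0).1 h1
  · have h1 := h Q q hq hQ hQq k (Dvd.dvd.mul_left hk _)
    have hc : IsCoprime Q (Ideal.span {(p : 𝓞 F)}) := by
      have h2 : IsCoprime (Q ^ 2) (Ideal.span {(p : 𝓞 F)}) := by
        rw [hQq, Ideal.isCoprime_span_singleton_iff]
        exact Nat.Coprime.cast ((Nat.coprime_primes hq hp).2 hqp)
      exact (IsCoprime.pow_left_iff (by norm_num)).1 h2
    exact (hc.pow_left (m := 2 * k + 2)).dvd_of_dvd_mul_left h1

/-- integers have even valuation at `Q` -/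
theorem int_ev {Q : Ideal (𝓞 F)} {q : ℕ} (hq : q.Prime) (hQ : Q.IsPrime)
    (hQq : Q ^ 2 = Ideal.span {(q : 𝓞 F)}) : ∀ (k : ℕ) (b : ℤ),
    Q ^ (2 * k + 1) ∣ Ideal.span {(b : 𝓞 F)} → Q ^ (2 * k + 2) ∣ Ideal.span {(b : 𝓞 F)} := by
  have hbase : ∀ b : ℤ, (b : 𝓞 F) ∈ Q → (q : ℤ) ∣ b := by
    intro b hb
    by_contra hnd
    have hcop : IsCoprime (q : ℤ) b :=
      ((Nat.prime_iff_prime_int.1 hq).irreducible.coprime_iff_not_dvd).2 hnd
    obtain ⟨u, v, huv⟩ := hcop
    have h1 : ((u * q + v * b : ℤ) : 𝓞 F) ∈ Q := by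
      push_cast
      refine Q.add_mem (Q.mul_mem_left _ ?_) (Q.mul_mem_left _ hb)
      have : (q : 𝓞 F) ∈ Q ^ 2 := by
        rw [hQq]
        exact Ideal.mem_span_singleton_self _
      exact Ideal.pow_le_self two_ne_zero this
    rw [huv, Int.cast_one] at h1
    exact hQ.ne_top ((Ideal.eq_top_iff_one _).2 h1)
  have h0 : Ideal.span {(q : 𝓞 F)} ≠ 0 := span_nat_ne hq
  intro k
  induction k with
  | zero =>
    intro b hb
    have h1 : (b : 𝓞 F) ∈ Q := by
      rw [Ideal.dvd_span_singleton] at hb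
      simpa using hb
    obtain ⟨b', hb'⟩ := hbase b h1
    rw [show 2 * 0 + 2 = 2 by ring, hQq, Ideal.dvd_span_singleton, hb']
    push_cast
    exact Ideal.mul_mem_right _ _ (Ideal.mem_span_singleton_self _)
  | succ k ih =>
    intro b hb
    have h1 : (b : 𝓞 F) ∈ Q := by
      rw [Ideal.dvd_span_singleton] at hb
      exact Ideal.pow_le_self (by omega) hb
    obtain ⟨b', hb'⟩ := hbase b h1
    have h2 : Ideal.span {(b : 𝓞 F)} = Ideal.span {(q : 𝓞 F)} * Ideal.span {(b' : 𝓞 F)} := by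
      rw [Ideal.span_singleton_mul_span_singleton, hb']
      push_cast
      rfl
    rw [h2, show 2 * (k + 1) + 1 = 2 + (2 * k + 1) by ring, pow_add, hQq,
      mul_dvd_mul_iff_left h0] at hb
    rw [h2, show 2 * (k + 1) + 2 = 2 + (2 * k + 2) by ring, pow_add, hQq,
      mul_dvd_mul_iff_left h0]
    exact ih b' hb

end

section

variable {D : ℕ} {F : Type} [Field F] [NumberField F] {s : 𝓞 F} {σ : F →+* ℂ}
  {χ : DirichletCharacter ℂ D} {cj : 𝓞 F ≃+* 𝓞 F}

/-- invariant ideals with even valuations at the ramified primes are generated by natural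
numbers -/
theorem inv_principal (h1 : StBasE) (h2 : StSplitE) (hd : DatE D s σ χ cj) :
    ∀ (N : ℕ) (I : Ideal (𝓞 F)), Ideal.absNorm I ≤ N → I ≠ ⊥ →
      I.map (cj : 𝓞 F →+* 𝓞 F) = I → Ev I →
      ∃ n : ℕ, n ≠ 0 ∧ I = Ideal.span {(n : 𝓞 F)} := by
  obtain ⟨-, hcc, hcs, -, -, -, hnorm, -, -, -⟩ := h1 D F _ _ s σ χ cj hd
  intro N
  induction N with
  | zero =>
    intro I hI h0
    exact absurd (Ideal.absNorm_eq_zero_iff.1 (Nat.le_zero.1 hI)) h0
  | succ N ih =>
    intro I hI h0 hinv hcop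
    by_cases htop : I = ⊤
    · exact ⟨1, one_ne_zero, by rw [htop, Nat.cast_one, Ideal.span_singleton_one]⟩
    obtain ⟨P, hPmax, hIP⟩ := Ideal.exists_le_maximal I htop
    have hP := hPmax.isPrime
    have hP0 : P ≠ ⊥ := by
      rintro rfl
      exact h0 (le_bot_iff.1 hIP)
    obtain ⟨p, hp, hpP⟩ := exists_prime P hP hP0
    have hpne : (p : 𝓞 F) ≠ 0 := by exact_mod_cast hp.ne_zero
    -- enough: `p` divides `I`
    have key : I ≤ Ideal.span {(p : 𝓞 F)} → ∃ n : ℕ, n ≠ 0 ∧ I = Ideal.span {(n : 𝓞 F)} := by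
      intro hle
      obtain ⟨J, hJ⟩ := Ideal.dvd_iff_le.2 hle
      have hsp0 : Ideal.span {(p : 𝓞 F)} ≠ ⊥ := by
        rw [Ne, Ideal.span_singleton_eq_bot]
        exact hpne
      have hJ0 : J ≠ ⊥ := by
        rintro rfl
        exact h0 (by rw [hJ, Ideal.mul_bot])
      have hJinv : J.map (cj : 𝓞 F →+* 𝓞 F) = J := by
        rw [hJ, Ideal.map_mul, map_span, map_natCast] at hinv
        exact mul_left_cancel₀ hsp0 hinv
      have hJcop : Ev J := by
        rw [hJ] at hcop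
        exact ev_of_mul hp hcop
      have hJn : Ideal.absNorm J ≤ N := by
        have e1 : Ideal.absNorm I = Ideal.absNorm (Ideal.span {(p : 𝓞 F)}) * Ideal.absNorm J := by
          rw [hJ, map_mul]
        have e2 : 1 < Ideal.absNorm (Ideal.span {(p : 𝓞 F)}) := by
          have e3 : Ideal.absNorm (Ideal.span {(p : 𝓞 F)}) ≠ 0 := by
            rwa [Ne, Ideal.absNorm_eq_zero_iff]
          have e4 : Ideal.absNorm (Ideal.span {(p : 𝓞 F)}) ≠ 1 := by
            rw [Ne, Ideal.absNorm_eq_one_iff]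
            intro h
            have : P = ⊤ := by
              rw [eq_top_iff, ← h, Ideal.span_singleton_le_iff_mem]
              exact hpP
            exact hP.ne_top this
          omega
        have e5 : Ideal.absNorm J ≠ 0 := by
          rwa [Ne, Ideal.absNorm_eq_zero_iff]
        have e6 : 0 < Ideal.absNorm J := Nat.pos_of_ne_zero e5
        nlinarith
      obtain ⟨n, hn, hJn⟩ := ih J hJn hJ0 hJinv hJcop
      refine ⟨p * n, Nat.mul_ne_zero hp.ne_zero hn, ?_⟩
      rw [hJ, hJn, Ideal.span_singleton_mul_span_singleton, Nat.cast_mul]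
    have hmaxof : ∀ Q : Ideal (𝓞 F), Q.IsPrime → Q ≠ ⊥ → Q ≤ P → P = Q := by
      intro Q hQ hQ0 hQP
      have hQm : Q.IsMaximal := hQ.isMaximal hQ0
      exact (hQm.eq_of_le hP.ne_top hQP).symm
    obtain ⟨hs1, hs2, hs3⟩ := h2 D F _ _ s σ χ cj hd p hp
    have htri : kr D p = 0 ∨ kr D p = 1 ∨ kr D p = -1 := by
      unfold kr
      split_ifs
      · left; rfl
      · exact jacobiSym.trichotomy _ _
    rcases htri with h | h | h
    · -- ramified
      obtain ⟨-, R, hr1, hr2, hr3⟩ := hs3 h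
      apply key
      have hr0 : R ≠ ⊥ := by
        intro hr
        rw [hr] at hr2
        rw [Ideal.bot_pow two_ne_zero] at hr2
        exact hpne (Ideal.span_singleton_eq_bot.1 hr2.symm)
      have hle : R ≤ P := by
        have : R ^ 2 ≤ P := by
          rw [hr2, Ideal.span_singleton_le_iff_mem]
          exact hpP
        exact hP.le_of_pow_le this
      have hPr := hmaxof _ hr1 hr0 hle
      have h3 : R ^ (2 * 0 + 1) ∣ I := by
        rw [show 2 * 0 + 1 = 1 by ring, pow_one, ← hPr]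
        exact Ideal.dvd_iff_le.2 hIP
      have h4 := hcop R p hp hr1 hr2 0 h3
      rw [show 2 * 0 + 2 = 2 by ring, hr2] at h4
      exact Ideal.dvd_iff_le.1 h4
    · -- split
      obtain ⟨P₁, P₂, hP1, hP2, hne, hmul, hn1, hn2⟩ := hs1 h
      apply key
      have hsp0 : Ideal.span {(p : 𝓞 F)} ≠ ⊥ := by
        rw [Ne, Ideal.span_singleton_eq_bot]
        exact hpne
      have hP10 : P₁ ≠ ⊥ := by
        rintro rfl
        exact hsp0 (by rw [← hmul, Ideal.bot_mul])
      have hP20 : P₂ ≠ ⊥ := by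
        rintro rfl
        exact hsp0 (by rw [← hmul, Ideal.mul_bot])
      have hc1 : P₁.map (cj : 𝓞 F →+* 𝓞 F) = P₂ := by
        have := hnorm P₁
        rw [hn1, ← hmul] at this
        exact mul_left_cancel₀ hP10 this
      have hc2 : P₂.map (cj : 𝓞 F →+* 𝓞 F) = P₁ := by
        rw [← hc1, map_map_cj hcc]
      have hle : P₁ * P₂ ≤ P := by
        rw [hmul, Ideal.span_singleton_le_iff_mem]
        exact hpP
      have hcop12 : IsCoprime P₁ P₂ := by
        have hm1 : P₁.IsMaximal := hP1.isMaximal hP10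
        have hm2 : P₂.IsMaximal := hP2.isMaximal hP20
        rw [Ideal.isCoprime_iff_sup_eq]
        by_contra hsup
        have e1 := hm1.eq_of_le hsup le_sup_left
        have e2 := hm2.eq_of_le hsup le_sup_right
        exact hne (e1.trans e2.symm)
      rw [← hmul, Ideal.mul_eq_inf_of_coprime (Ideal.isCoprime_iff_sup_eq.1 hcop12)]
      rcases hP.mul_le.1 hle with hl | hl
      · have hPP := hmaxof _ hP1 hP10 hl
        refine le_inf (hPP ▸ hIP) ?_
        have := Ideal.map_mono (f := (cj : 𝓞 F →+* 𝓞 F)) hIP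
        rw [hinv, hPP, hc1] at this
        exact this
      · have hPP := hmaxof _ hP2 hP20 hl
        refine le_inf ?_ (hPP ▸ hIP)
        have := Ideal.map_mono (f := (cj : 𝓞 F →+* 𝓞 F)) hIP
        rw [hinv, hPP, hc2] at this
        exact this
    · -- inert
      obtain ⟨hpp, -⟩ := hs2 h
      apply key
      have hsp0 : Ideal.span {(p : 𝓞 F)} ≠ ⊥ := by
        rw [Ne, Ideal.span_singleton_eq_bot]
        exact hpne
      have := hmaxof _ hpp hsp0 (by rw [Ideal.span_singleton_le_iff_mem]; exact hpP)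
      rw [← this]
      exact hIP

/-- a prime with `Q ^ 2 = (q)` divides `s` -/
theorem dvd_s (h2 : StSplitE) (hd : DatE D s σ χ cj) {Q : Ideal (𝓞 F)} {q : ℕ} (hq : q.Prime)
    (hQ : Q.IsPrime) (hQq : Q ^ 2 = Ideal.span {(q : 𝓞 F)}) : s ∈ Q := by
  have h0 : Ideal.span {(q : 𝓞 F)} ≠ 0 := span_nat_ne hq
  have hQ0 : Q ≠ ⊥ := by
    rintro rfl
    rw [Ideal.bot_pow two_ne_zero] at hQq
    exact h0 hQq.symm
  have hQle : ∀ {R : Ideal (𝓞 F)}, R.IsPrime → Q ^ 2 ≤ R → R = Q := by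
    intro R hR hle
    have hQm : Q.IsMaximal := hQ.isMaximal hQ0
    exact (hQm.eq_of_le hR.ne_top (hR.le_of_pow_le hle)).symm
  obtain ⟨hs1, hs2, hs3⟩ := h2 D F _ _ s σ χ cj hd q hq
  have htri : kr D q = 0 ∨ kr D q = 1 ∨ kr D q = -1 := by
    unfold kr
    split_ifs
    · left; rfl
    · exact jacobiSym.trichotomy _ _
  rcases htri with h | h | h
  · obtain ⟨⟨m, hm⟩, -⟩ := hs3 h
    have h3 : s ^ 2 ∈ Q := by
      rw [hd.sq, hm]
      push_cast
      rw [neg_mem_iff]
      refine Ideal.mul_mem_right _ _ ?_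
      have : (q : 𝓞 F) ∈ Q ^ 2 := by
        rw [hQq]
        exact Ideal.mem_span_singleton_self _
      exact Ideal.pow_le_self two_ne_zero this
    exact hQ.mem_of_pow_mem 2 h3
  · obtain ⟨P₁, P₂, hP1, hP2, hne, hmul, -, -⟩ := hs1 h
    exfalso
    have e1 := hQle hP1 (by rw [hQq, ← hmul]; exact Ideal.mul_le_left)
    have e2 := hQle hP2 (by rw [hQq, ← hmul]; exact Ideal.mul_le_right)
    exact hne (e1.trans e2.symm)
  · obtain ⟨hpp, -⟩ := hs2 h
    exfalso
    have e1 := hQle hpp hQq.le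
    rw [e1] at hQq
    have e2 : Q * Q = Q * 1 := by
      rw [mul_one, ← sq, hQq]
    have e3 := mul_left_cancel₀ (show Q ≠ 0 from hQ0) e2
    exact hQ.ne_top (by rw [e3, Ideal.one_eq_top])

end

end TinjEM

open TinjEM in
open TinjM (map_span map_map_cj cop_conj) in
theorem stTinjE (h1 : StBasE) (h2 : StSplitE) : StTinjE := by
  intro D F _ _ s σ χ cj hd c c' d d' t t' u u' hc hc' hdd hdd' ht ht' hu hu' E1 E2 hsign
  obtain ⟨⟨r, hsr, -, hbas, -, -⟩, hcc, hcs, hcx, hxx, -, hnorm, -, hsn, -⟩ :=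
    h1 D F _ _ s σ χ cj hd
  have hD8 : 8 ≤ D := by
    obtain ⟨h4, n, hn, -, -⟩ := hd.ev
    omega
  have hs1 : ∀ n : ℕ, n = 1 ∨ n = 2 → ¬ s ∣ (n : 𝓞 F) := by
    intro n hn h
    have := (hsn n).1 (by exact_mod_cast h)
    have h4 : D / 2 ∣ n := by exact_mod_cast this
    have := Nat.le_of_dvd (by omega) h4
    omega
  have hs1' : ¬ s ∣ 1 := by
    intro h
    exact hs1 1 (Or.inl rfl) (by simpa using h)
  have ne_of_cop : ∀ {a : Ideal (𝓞 F)}, IsCoprime a (Ideal.span {s}) → a ≠ ⊥ := by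
    rintro a ha rfl
    rw [Ideal.isCoprime_iff_sup_eq, bot_sup_eq, Ideal.span_singleton_eq_top] at ha
    exact hs1' ha.dvd
  have ne_of_unit : ∀ {x : 𝓞 F}, IsCoprime x s → x ≠ 0 := by
    rintro x hx rfl
    rw [isCoprime_zero_left] at hx
    exact hs1' hx.dvd
  have hs0 : s ≠ 0 := by
    rintro rfl
    have := hd.sq
    rw [zero_pow two_ne_zero] at this
    have h3 : (D : 𝓞 F) = 0 := by
      rw [← neg_eq_zero]
      exact this.symm
    have : D = 0 := by exact_mod_cast h3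
    omega
  have hc0 : (c : Ideal (𝓞 F)) ≠ ⊥ := ne_of_cop hc
  have hc0' : (c' : Ideal (𝓞 F)) ≠ ⊥ := ne_of_cop hc'
  have hd0 : (d : Ideal (𝓞 F)) ≠ ⊥ := ne_of_cop hdd
  have hd0' : (d' : Ideal (𝓞 F)) ≠ ⊥ := ne_of_cop hdd'
  set C : Ideal (𝓞 F) := (c : Ideal (𝓞 F)) with hC
  set C' : Ideal (𝓞 F) := (c' : Ideal (𝓞 F)) with hC'
  set Dd : Ideal (𝓞 F) := (d : Ideal (𝓞 F)) with hDd
  set Dd' : Ideal (𝓞 F) := (d' : Ideal (𝓞 F)) with hDd'
  -- the numbers `x = t u'` and `y = ± t' u`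
  obtain ⟨x, hx⟩ : ∃ x : 𝓞 F, x = t * u' := ⟨_, rfl⟩
  have hxc : IsCoprime x s := by
    rw [hx]
    exact ht.mul_left hu'
  obtain ⟨y, hyI, hyc, hxy⟩ : ∃ y : 𝓞 F, Ideal.span {y} = Ideal.span {t' * u} ∧
      IsCoprime y s ∧ s ∣ x - y := by
    rcases hsign with h | h
    · exact ⟨t' * u, rfl, ht'.mul_left hu, by rw [hx]; exact h⟩
    · refine ⟨-(t' * u), by rw [Ideal.span_singleton_neg], (ht'.mul_left hu).neg_left, ?_⟩
      rw [hx, sub_neg_eq_add]
      exact h
  have hx0 : x ≠ 0 := ne_of_unit hxc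
  have hy0 : y ≠ 0 := ne_of_unit hyc
  -- the equation for `e = c' conj c`
  have hE : Ideal.span {x} * (C' * C.map (cj : 𝓞 F →+* 𝓞 F)) =
      Ideal.span {y} * (C * C'.map (cj : 𝓞 F →+* 𝓞 F)) := by
    apply mul_left_cancel₀ hd0
    rw [hyI, hx, ← Ideal.span_singleton_mul_span_singleton,
      ← Ideal.span_singleton_mul_span_singleton]
    calc Dd * (Ideal.span {t} * Ideal.span {u'} * (C' * C.map (cj : 𝓞 F →+* 𝓞 F)))
        = (Ideal.span {t} * (Dd * C.map (cj : 𝓞 F →+* 𝓞 F))) * (Ideal.span {u'} * C') := by ring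
      _ = (Ideal.span {u'} * (Dd' * C')) * (Ideal.span {t'} * C'.map (cj : 𝓞 F →+* 𝓞 F)) := by
          rw [E1]; ring
      _ = _ := by rw [← E2]; ring
  -- the norms are equal
  have hN : x * cj x = y * cj y := by
    have h5 := congrArg Ideal.absNorm hE
    rw [map_mul, map_mul, map_mul, map_mul] at h5
    have hmapn : ∀ a : Ideal (𝓞 F), a ≠ ⊥ →
        Ideal.absNorm (a.map (cj : 𝓞 F →+* 𝓞 F)) = Ideal.absNorm a := by
      intro a ha
      have h8 : Ideal.span {(Ideal.absNorm a : 𝓞 F)} =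
          Ideal.span {(Ideal.absNorm (a.map (cj : 𝓞 F →+* 𝓞 F)) : 𝓞 F)} := by
        rw [← hnorm a, ← hnorm (a.map (cj : 𝓞 F →+* 𝓞 F)), map_map_cj hcc, mul_comm]
      have h9 : ∀ n : ℕ, Ideal.absNorm (Ideal.span {(n : 𝓞 F)}) = n ^ 2 := by
        intro n
        have := Ideal.absNorm_span_singleton (S := 𝓞 F) (n : 𝓞 F)
        rw [this]
        have h10 : (Algebra.norm ℤ) ((n : ℕ) : 𝓞 F) = (n : ℤ) ^ 2 := by
          have h11 := Algebra.norm_algebraMap_of_basis (RingOfIntegers.basis F) (n : ℤ)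
          have h12 : Fintype.card (Module.Free.ChooseBasisIndex ℤ (𝓞 F)) = 2 := by
            rw [← Module.finrank_eq_card_chooseBasisIndex, RingOfIntegers.rank, hd.fin]
          rw [h12] at h11
          rw [← h11]
          simp
        rw [h10]
        simp [Int.natAbs_pow]
      have h13 := congrArg Ideal.absNorm h8
      rw [h9, h9] at h13
      exact (Nat.pow_left_injective (n := 2) (by norm_num) h13).symm
    rw [hmapn _ hc0, hmapn _ hc0'] at h5
    have h14 : Ideal.absNorm C * Ideal.absNorm C' ≠ 0 := by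
      refine mul_ne_zero ?_ ?_
      · rwa [Ne, Ideal.absNorm_eq_zero_iff]
      · rwa [Ne, Ideal.absNorm_eq_zero_iff]
    have h15 : Ideal.absNorm (Ideal.span {x}) = Ideal.absNorm (Ideal.span {y}) := by
      apply mul_right_cancel₀ h14
      rw [← h5]
      ring
    rw [hxx, hxx, h15]
  -- the element `W`
  obtain ⟨W, hW⟩ : ∃ W : 𝓞 F, W = (x + y) * cj x := ⟨_, rfl⟩
  have hWy : W * x = cj W * y := by
    rw [hW, map_mul, map_add, hcc]
    linear_combination x * hN
  have hWE : Ideal.span {cj W} * (C' * C.map (cj : 𝓞 F →+* 𝓞 F)) =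
      Ideal.span {W} * (C * C'.map (cj : 𝓞 F →+* 𝓞 F)) := by
    have hy0' : Ideal.span {y} ≠ ⊥ := by
      rw [Ne, Ideal.span_singleton_eq_bot]
      exact hy0
    apply mul_left_cancel₀ hy0'
    rw [← mul_assoc, Ideal.span_singleton_mul_span_singleton, mul_comm y, ← hWy,
      ← Ideal.span_singleton_mul_span_singleton, mul_assoc, hE]
    ring
  have hxy0 : x + y ≠ 0 := by
    intro h
    have h5 : s ∣ 2 * x := by
      have : 2 * x = (x - y) + (x + y) := by ring
      rw [this, h, add_zero]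
      exact hxy
    have h6 : s ∣ 2 := hxc.symm.dvd_of_dvd_mul_right h5
    exact hs1 2 (Or.inr rfl) (by exact_mod_cast h6)
  have hcjx0 : ∀ z : 𝓞 F, z ≠ 0 → cj z ≠ 0 := by
    intro z hz h
    exact hz (by simpa using h)
  have hW0' : W ≠ 0 := by
    rw [hW]
    exact mul_ne_zero hxy0 (hcjx0 x hx0)
  have hW0 : cj W ≠ 0 := hcjx0 W hW0'
  set I : Ideal (𝓞 F) := Ideal.span {cj W} * (C' * C.map (cj : 𝓞 F →+* 𝓞 F)) with hI
  have hecop : IsCoprime (C' * C.map (cj : 𝓞 F →+* 𝓞 F)) (Ideal.span {s}) :=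
    hc'.mul_left (cop_conj hcs hc)
  have hI0 : I ≠ ⊥ := by
    rw [hI]
    exact mul_ne_zero (by rwa [Ne, Ideal.zero_eq_bot, Ideal.span_singleton_eq_bot])
      (ne_of_cop hecop)
  have hIev : Ev I := by
    intro Q q hq hQ hQq k hk
    have hsQ : s ∈ Q := dvd_s h2 hd hq hQ hQq
    have hcopQ : ∀ {a : Ideal (𝓞 F)}, IsCoprime a (Ideal.span {s}) → ∀ m : ℕ,
        IsCoprime (Q ^ m) a := by
      intro a ha m
      have h5 : IsCoprime a Q := by
        rw [Ideal.isCoprime_iff_sup_eq] at ha ⊢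
        rw [eq_top_iff, ← ha]
        exact sup_le_sup_left (by rw [Ideal.span_singleton_le_iff_mem]; exact hsQ) _
      exact h5.symm.pow_left
    rw [hI] at hk ⊢
    refine Dvd.dvd.mul_right ?_ _
    have hV : Q ^ (2 * k + 1) ∣ Ideal.span {cj W} :=
      (hcopQ hecop _).dvd_of_dvd_mul_right hk
    obtain ⟨a, b, hab⟩ := hbas (cj W)
    obtain ⟨z, hz⟩ := hxy
    have hcr : cj r = -r := by
      have h5 := hcs
      rw [hsr, map_mul, map_ofNat] at h5
      have h6 : (2 : 𝓞 F) ≠ 0 := two_ne_zero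
      apply mul_left_cancel₀ h6
      rw [h5]
      ring
    have hW2 : W = a - b * r := by
      have h5 := congrArg cj hab
      rw [hcc, map_add, map_mul, map_intCast, map_intCast, hcr] at h5
      rw [h5]
      ring
    have hbx : (b : 𝓞 F) * x = cj W * z := by
      apply mul_left_cancel₀ hs0
      have h5 : cj W * (x - y) = s * ((b : 𝓞 F) * x) := by
        rw [mul_sub, ← hWy, hab, hW2, hsr]
        ring
      rw [← h5, hz]
      ring
    have hb1 : Q ^ (2 * k + 1) ∣ Ideal.span {(b : 𝓞 F)} := by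
      have h5 : Q ^ (2 * k + 1) ∣ Ideal.span {(b : 𝓞 F)} * Ideal.span {x} := by
        rw [Ideal.span_singleton_mul_span_singleton, hbx,
          ← Ideal.span_singleton_mul_span_singleton]
        exact Dvd.dvd.mul_right hV _
      refine (hcopQ ?_ _).dvd_of_dvd_mul_right h5
      rw [Ideal.isCoprime_span_singleton_iff]
      exact hxc
    have hb2 := int_ev hq hQ hQq k b hb1
    rw [Ideal.dvd_span_singleton] at hV hb1 hb2 ⊢
    have ha1 : (a : 𝓞 F) ∈ Q ^ (2 * k + 1) := by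
      have h5 : (a : 𝓞 F) = cj W - b * r := by
        rw [hab]
        ring
      rw [h5]
      exact sub_mem hV (Ideal.mul_mem_right _ _ hb1)
    have ha2 := int_ev hq hQ hQq k a (Ideal.dvd_span_singleton.2 ha1)
    rw [Ideal.dvd_span_singleton] at ha2
    rw [hab]
    exact add_mem ha2 (Ideal.mul_mem_right _ _ hb2)
  have hIinv : I.map (cj : 𝓞 F →+* 𝓞 F) = I := by
    have h5 : I.map (cj : 𝓞 F →+* 𝓞 F) = Ideal.span {W} * (C * C'.map (cj : 𝓞 F →+* 𝓞 F)) := by
      rw [hI, Ideal.map_mul, Ideal.map_mul, map_span, hcc, map_map_cj hcc]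
      ring
    rw [h5]
    exact hWE.symm
  obtain ⟨n, hn0, hIn⟩ := inv_principal h1 h2 hd _ I le_rfl hI0 hIinv hIev
  have hNc : (Ideal.absNorm C : 𝓞 F) ≠ 0 := by
    have : Ideal.absNorm C ≠ 0 := by rwa [Ne, Ideal.absNorm_eq_zero_iff]
    exact_mod_cast this
  have hn0' : (n : 𝓞 F) ≠ 0 := by exact_mod_cast hn0
  have hu0 : u ≠ 0 := ne_of_unit hu
  have hu0' : u' ≠ 0 := ne_of_unit hu'
  -- the classes of `c` and `c'`
  have hfin : Ideal.span {(n : 𝓞 F)} * C = Ideal.span {(Ideal.absNorm C : 𝓞 F) * cj W} * C' := by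
    rw [← hIn, hI, ← Ideal.span_singleton_mul_span_singleton, ← hnorm C]
    ring
  constructor
  · rw [ClassGroup.mk0_eq_mk0_iff]
    exact ⟨n, _, hn0', mul_ne_zero hNc hW0, hfin⟩
  · rw [ClassGroup.mk0_eq_mk0_iff]
    refine ⟨u * ((Ideal.absNorm C : 𝓞 F) * cj W), n * u', mul_ne_zero hu0 (mul_ne_zero hNc hW0),
      mul_ne_zero hn0' hu0', ?_⟩
    apply mul_left_cancel₀ hc0'
    rw [← Ideal.span_singleton_mul_span_singleton u, ← Ideal.span_singleton_mul_span_singleton
      (n : 𝓞 F)]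
    calc C' * (Ideal.span {u} * Ideal.span {(Ideal.absNorm C : 𝓞 F) * cj W} * Dd)
        = Ideal.span {u} * Dd * (Ideal.span {(Ideal.absNorm C : 𝓞 F) * cj W} * C') := by ring
      _ = (Ideal.span {u} * (Dd * C)) * Ideal.span {(n : 𝓞 F)} := by rw [← hfin]; ring
      _ = _ := by rw [E2]; ring

end RZ

end Pool.Agent.Lib.MP_7c08ba_nt
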