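import Mathlib
import Pool.Agent.Lib.MP_7c08ba_nt.RZ.StH

set_option autoImplicit false

/-!
(H35) Sums over triples and sums over pairs of classes, even discriminants.
-/

namespace Pool.Agent.Lib.MP_7c08ba_nt

namespace RZ

open NumberField MeasureTheory UpperHalfPlane Set IsDedekindDomain
open scoped MatrixGroups ComplexConjugate nonZeroDivisors

namespace TripEAux

section

variable {F : Type} [Field F] [NumberField F] {D : ℕ} {s : 𝓞 F} {cj : 𝓞 F ≃+* 𝓞 F}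

omit [NumberField F] in
theorem isUnit_mk {t : 𝓞 F} (h : IsCoprime t s) :
    IsUnit (Ideal.Quotient.mk (Ideal.span {s}) t) := by
  obtain ⟨a, b, hab⟩ := h
  have h1 : Ideal.Quotient.mk (Ideal.span {s}) s = 0 :=
    Ideal.Quotient.eq_zero_iff_mem.2 (Ideal.mem_span_singleton_self s)
  have h2 := congrArg (Ideal.Quotient.mk (Ideal.span {s})) hab
  rw [map_add, map_mul, map_mul, h1, mul_zero, add_zero, map_one] at h2
  exact IsUnit.of_mul_eq_one _ (by rw [mul_comm]; exact h2)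

/-- The norm of an element prime to `s` is a unit modulo `D`. -/
lemma isUnit_norm (h10 : ∀ x y : 𝓞 F, s ∣ x - y → (Ideal.absNorm (Ideal.span {x}) : ZMod D) =
      (Ideal.absNorm (Ideal.span {y}) : ZMod D)) {t : 𝓞 F} (h : IsCoprime t s) :
    IsUnit (Ideal.absNorm (Ideal.span {t}) : ZMod D) := by
  obtain ⟨a, b, hab⟩ := h
  have h1 := h10 (t * a) 1 ⟨-b, by linear_combination hab⟩
  rw [← Ideal.span_singleton_mul_span_singleton, map_mul, Nat.cast_mul, Ideal.span_singleton_one,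
    ← Ideal.one_eq_top, map_one, Nat.cast_one] at h1
  exact IsUnit.of_mul_eq_one _ h1

/-- Conjugate ideals are prime to `s`. -/
lemma coprime_conj (h3 : cj s = -s) {a : Ideal (𝓞 F)} (ha : IsCoprime a (Ideal.span {s})) :
    IsCoprime (a.map (cj : 𝓞 F →+* 𝓞 F)) (Ideal.span {s}) := by
  rw [Ideal.isCoprime_iff_sup_eq] at ha ⊢
  have h1 : (Ideal.span {s}).map (cj : 𝓞 F →+* 𝓞 F) = Ideal.span {s} := by
    rw [Ideal.map_span, Set.image_singleton]
    show Ideal.span {cj s} = _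
    rw [h3, Ideal.span_singleton_neg]
  rw [← h1, ← Ideal.map_sup, ha, Ideal.map_top]

/-- Ideals prime to `s` in the same class. -/
lemma exists_mul (h3 : cj s = -s)
    (h7 : ∀ a : Ideal (𝓞 F),
      a * a.map (cj : 𝓞 F →+* 𝓞 F) = Ideal.span {(Ideal.absNorm a : 𝓞 F)})
    {a a' : (Ideal (𝓞 F))⁰} (ha : IsCoprime (a : Ideal (𝓞 F)) (Ideal.span {s}))
    (ha' : IsCoprime (a' : Ideal (𝓞 F)) (Ideal.span {s}))
    (hcl : ClassGroup.mk0 a = ClassGroup.mk0 a') :
    ∃ t t' : 𝓞 F, IsCoprime t s ∧ IsCoprime t' s ∧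
      Ideal.span {t} * (a : Ideal (𝓞 F)) = Ideal.span {t'} * (a' : Ideal (𝓞 F)) := by
  have hinj : Function.Injective (cj : 𝓞 F →+* 𝓞 F) := cj.injective
  -- the conjugate ideal
  have hne : (a' : Ideal (𝓞 F)).map (cj : 𝓞 F →+* 𝓞 F) ∈ (Ideal (𝓞 F))⁰ := by
    rw [mem_nonZeroDivisors_iff_ne_zero]
    intro h
    rw [Ideal.zero_eq_bot, Ideal.map_eq_bot_iff_of_injective hinj] at h
    exact nonZeroDivisors.coe_ne_zero a' h
  have hprin : ClassGroup.mk0 (a * ⟨_, hne⟩) = 1 := by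
    rw [map_mul, hcl, ← map_mul, ClassGroup.mk0_eq_one_iff]
    show ((a' : Ideal (𝓞 F)) * (a' : Ideal (𝓞 F)).map (cj : 𝓞 F →+* 𝓞 F)).IsPrincipal
    rw [h7]
    exact ⟨⟨_, rfl⟩⟩
  rw [ClassGroup.mk0_eq_one_iff] at hprin
  obtain ⟨⟨y, hy⟩⟩ := hprin
  have hy' : (a : Ideal (𝓞 F)) * (a' : Ideal (𝓞 F)).map (cj : 𝓞 F →+* 𝓞 F) =
      Ideal.span {y} := hy
  refine ⟨(Ideal.absNorm (a' : Ideal (𝓞 F)) : 𝓞 F), y, ?_, ?_, ?_⟩
  · rw [← Ideal.isCoprime_span_singleton_iff, ← h7]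
    exact ha'.mul_left (coprime_conj h3 ha')
  · rw [← Ideal.isCoprime_span_singleton_iff, ← hy']
    exact ha.mul_left (coprime_conj h3 ha')
  · rw [← h7, ← hy']
    ring

/-- The triple attached to a pair of ideals of the same norm. -/
lemma exists_triple {σ : F →+* ℂ} (c : Reps σ)
    (hc : ∀ A, IsCoprime (c.R A : Ideal (𝓞 F)) (Ideal.span {s})) (h3 : cj s = -s)
    (h7 : ∀ a : Ideal (𝓞 F),
      a * a.map (cj : 𝓞 F →+* 𝓞 F) = Ideal.span {(Ideal.absNorm a : 𝓞 F)})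
    (h10 : ∀ x y : 𝓞 F, s ∣ x - y → (Ideal.absNorm (Ideal.span {x}) : ZMod D) =
      (Ideal.absNorm (Ideal.span {y}) : ZMod D))
    {a b : Ideal (𝓞 F)} (ha0 : a ≠ ⊥) (hb0 : b ≠ ⊥) (ha : IsCoprime a (Ideal.span {s}))
    (hb : IsCoprime b (Ideal.span {s})) (hab : Ideal.absNorm a = Ideal.absNorm b) :
    ∃ (A B : ClassGroup (𝓞 F)) (ρ : 𝓞 F ⧸ Ideal.span {s}) (t t' u u' : 𝓞 F),
      IsCoprime t s ∧ IsCoprime t' s ∧ IsCoprime u s ∧ IsCoprime u' s ∧
      Ideal.span {t} * a = Ideal.span {t'} * (c.R A : Ideal (𝓞 F)) ∧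
      Ideal.span {u} * b = Ideal.span {u'} * (c.R B : Ideal (𝓞 F)) ∧
      ρ * Ideal.Quotient.mk (Ideal.span {s}) (t' * u) =
        Ideal.Quotient.mk (Ideal.span {s}) (t * u') ∧
      RhoOK D s (c.R A : Ideal (𝓞 F)) (c.R B : Ideal (𝓞 F)) ρ ∧ IsUnit ρ := by
  have ha1 : a ∈ (Ideal (𝓞 F))⁰ := mem_nonZeroDivisors_of_ne_zero ha0
  have hb1 : b ∈ (Ideal (𝓞 F))⁰ := mem_nonZeroDivisors_of_ne_zero hb0
  obtain ⟨t, t', q1, q2, q5⟩ := exists_mul (a := ⟨a, ha1⟩)
    (a' := c.R (ClassGroup.mk0 ⟨a, ha1⟩)) h3 h7 ha (hc _) (c.cls _).symm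
  obtain ⟨u, u', p1, p2, p5⟩ := exists_mul (a := ⟨b, hb1⟩)
    (a' := c.R (ClassGroup.mk0 ⟨b, hb1⟩)) h3 h7 hb (hc _) (c.cls _).symm
  obtain ⟨v, hv⟩ := isUnit_mk (q2.mul_left p1)
  have hρ : Ideal.Quotient.mk (Ideal.span {s}) (t * u') * (v⁻¹ : (𝓞 F ⧸ Ideal.span {s})ˣ) *
      Ideal.Quotient.mk (Ideal.span {s}) (t' * u) =
      Ideal.Quotient.mk (Ideal.span {s}) (t * u') := by
    rw [← hv, mul_assoc, Units.inv_mul, mul_one]
  refine ⟨_, _, Ideal.Quotient.mk (Ideal.span {s}) (t * u') *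
    (v⁻¹ : (𝓞 F ⧸ Ideal.span {s})ˣ), t, t', u, u', q1, q2, p1, p2, q5, p5, hρ, ?_,
    (isUnit_mk (q1.mul_left p2)).mul (v⁻¹).isUnit⟩
  -- norms
  set ρ := Ideal.Quotient.mk (Ideal.span {s}) (t * u') * (v⁻¹ : (𝓞 F ⧸ Ideal.span {s})ˣ)
  obtain ⟨x, hx⟩ := Ideal.Quotient.mk_surjective ρ
  refine ⟨x, hx, ?_⟩
  rw [← hx, ← map_mul, Ideal.Quotient.eq, Ideal.mem_span_singleton] at hρ
  have e0 := h10 _ _ hρ
  have e1 := congrArg (fun I => (Ideal.absNorm I : ZMod D)) q5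
  have e2 := congrArg (fun I => (Ideal.absNorm I : ZMod D)) p5
  simp only [map_mul, Nat.cast_mul] at e1 e2
  simp only [← Ideal.span_singleton_mul_span_singleton, map_mul, Nat.cast_mul] at e0
  simp only [hab] at e1
  refine (((isUnit_norm h10 q2).mul (isUnit_norm h10 p1)).mul
    (isUnit_norm h10 p2)).mul_left_cancel ?_
  linear_combination
    (Ideal.absNorm (Ideal.span {u'}) : ZMod D) *
      (Ideal.absNorm (c.R (ClassGroup.mk0 ⟨b, hb1⟩) : Ideal (𝓞 F)) : ZMod D) * e0 -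
    (Ideal.absNorm (Ideal.span {t}) : ZMod D) * (Ideal.absNorm (Ideal.span {u'}) : ZMod D) * e2 +
    (Ideal.absNorm (Ideal.span {u}) : ZMod D) * (Ideal.absNorm (Ideal.span {u'}) : ZMod D) * e1

/-- The norm of the conjugate ideal. -/
lemma norm_conj (h5 : ∀ x : 𝓞 F, x * cj x = (Ideal.absNorm (Ideal.span {x}) : 𝓞 F))
    (h7 : ∀ a : Ideal (𝓞 F),
      a * a.map (cj : 𝓞 F →+* 𝓞 F) = Ideal.span {(Ideal.absNorm a : 𝓞 F)})
    {a : Ideal (𝓞 F)} (ha : a ≠ ⊥) :
    Ideal.absNorm (a.map (cj : 𝓞 F →+* 𝓞 F)) = Ideal.absNorm a := by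
  have h1 : ∀ n : ℕ, Ideal.absNorm (Ideal.span {(n : 𝓞 F)}) = n * n := by
    intro n
    have h := h5 (n : 𝓞 F)
    rw [map_natCast, ← Nat.cast_mul] at h
    exact_mod_cast h.symm
  have h2 := congrArg Ideal.absNorm (h7 a)
  rw [map_mul, h1] at h2
  have h3 : Ideal.absNorm a ≠ 0 := by
    rw [Ne, Ideal.absNorm_eq_zero_iff]
    exact ha
  exact mul_left_cancel₀ h3 h2

end

end TripEAux

theorem stTripE (h1 : StTinjE) (h2 : StGenE) (h3 : StBasE) : StTripE := by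
  intro D hD0 F _ _ s σ χ cj c Φ hD hc hΦ
  classical
  obtain ⟨-, g2, g3, g4, g5, g6, g7, g8, g9, g10⟩ := h3 D F _ _ s σ χ cj hD
  have hcard := h2 D hD0 F _ _ s σ χ cj c hD hc
  have hinj : Function.Injective (cj : 𝓞 F →+* 𝓞 F) := cj.injective
  -- the quotient is finite
  have hD8 : 8 ≤ D := by
    obtain ⟨h4, n, hn, -⟩ := hD.ev
    omega
  have hs0 : s ≠ 0 := by
    rintro rfl
    have h4 := (g9 ((D / 2 : ℕ) : ℤ)).2 dvd_rfl
    rw [zero_dvd_iff] at h4
    have h5 : ((D / 2 : ℕ) : 𝓞 F) = 0 := by exact_mod_cast h4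
    rw [Nat.cast_eq_zero] at h5
    omega
  have hsp : Ideal.span {s} ≠ (⊥ : Ideal (𝓞 F)) := by
    rwa [Ne, Ideal.span_singleton_eq_bot]
  have hfin : Finite (𝓞 F ⧸ Ideal.span {s}) := Ideal.finiteQuotientOfFreeOfNeBot _ hsp
  let _ : Fintype (𝓞 F ⧸ Ideal.span {s}) := Fintype.ofFinite _
  -- the pairs of ideals
  let ia : ClassGroup (𝓞 F) × ClassGroup (𝓞 F) → Ideal (𝓞 F) := fun p =>
    (c.R p.2 : Ideal (𝓞 F)) * (c.R p.1 : Ideal (𝓞 F)).map (cj : 𝓞 F →+* 𝓞 F)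
  let ib : ClassGroup (𝓞 F) × ClassGroup (𝓞 F) → Ideal (𝓞 F) := fun p =>
    (c.R p.2 : Ideal (𝓞 F)) * (c.R p.1 : Ideal (𝓞 F))
  have hR0 : ∀ A, (c.R A : Ideal (𝓞 F)) ≠ ⊥ := fun A => nonZeroDivisors.coe_ne_zero _
  have hRc0 : ∀ A, (c.R A : Ideal (𝓞 F)).map (cj : 𝓞 F →+* 𝓞 F) ≠ ⊥ := fun A h =>
    hR0 A ((Ideal.map_eq_bot_iff_of_injective hinj).mp h)
  have hRc : ∀ A, IsCoprime ((c.R A : Ideal (𝓞 F)).map (cj : 𝓞 F →+* 𝓞 F))
      (Ideal.span {s}) := fun A => TripEAux.coprime_conj g3 (hc A)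
  have hia0 : ∀ p, ia p ≠ ⊥ := fun p => mul_ne_zero (hR0 _) (hRc0 _)
  have hib0 : ∀ p, ib p ≠ ⊥ := fun p => mul_ne_zero (hR0 _) (hR0 _)
  have hiac : ∀ p, IsCoprime (ia p) (Ideal.span {s}) := fun p => (hc _).mul_left (hRc _)
  have hibc : ∀ p, IsCoprime (ib p) (Ideal.span {s}) := fun p => (hc _).mul_left (hc _)
  have hN : ∀ p, Ideal.absNorm (ia p) = Ideal.absNorm (ib p) := by
    intro p
    simp only [ia, ib, map_mul]
    rw [TripEAux.norm_conj g5 g7 (hR0 _)]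
  choose A B ρ t t' u u' q1 q2 q3 q4 q9 q10 q11 q12 q13 using
    fun p => TripEAux.exists_triple c hc g3 g7 g10 (hia0 p) (hib0 p) (hiac p) (hibc p)
      (hN p)
  -- the map
  let Θ : (ClassGroup (𝓞 F) × ClassGroup (𝓞 F)) × Bool →
      ClassGroup (𝓞 F) × ClassGroup (𝓞 F) × (𝓞 F ⧸ Ideal.span {s}) :=
    fun x => (A x.1, B x.1, if x.2 then ρ x.1 else -ρ x.1)
  have htwo : ∀ v : 𝓞 F ⧸ Ideal.span {s}, IsUnit v → v ≠ -v := by
    intro v hv h
    have h5 : Ideal.Quotient.mk (Ideal.span {s}) (((2 : ℤ) : 𝓞 F)) = 0 := by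
      refine hv.mul_left_cancel ?_
      rw [mul_zero]
      push_cast
      rw [map_ofNat]
      linear_combination h
    rw [Ideal.Quotient.eq_zero_iff_mem, Ideal.mem_span_singleton, g9] at h5
    have h6 := Int.le_of_dvd (by norm_num) h5
    omega
  have hΘ : Function.Injective Θ := by
    intro x y hxy
    have hA : A x.1 = A y.1 := congrArg Prod.fst hxy
    have hB : B x.1 = B y.1 := congrArg (fun z => z.2.1) hxy
    have hρ : (if x.2 then ρ x.1 else -ρ x.1) = if y.2 then ρ y.1 else -ρ y.1 :=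
      congrArg (fun z => z.2.2) hxy
    have hρ' : ρ x.1 = ρ y.1 ∨ ρ x.1 = -ρ y.1 := by
      split_ifs at hρ
      · exact Or.inl hρ
      · exact Or.inr hρ
      · exact Or.inr (neg_eq_iff_eq_neg.mp hρ)
      · exact Or.inl (neg_injective hρ)
    have hcls := h1 D F _ _ s σ χ cj hD (c.R x.1.1) (c.R y.1.1) (c.R x.1.2) (c.R y.1.2)
      (t x.1 * t' y.1) (t' x.1 * t y.1) (u x.1 * u' y.1) (u' x.1 * u y.1)
      (hc _) (hc _) (hc _) (hc _) ((q1 _).mul_left (q2 _))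
      ((q2 _).mul_left (q1 _)) ((q3 _).mul_left (q4 _)) ((q4 _).mul_left (q3 _))
      (by
        rw [← Ideal.span_singleton_mul_span_singleton, ← Ideal.span_singleton_mul_span_singleton]
        have e1 : Ideal.span {t x.1} * Ideal.span {t' y.1} * ia x.1 =
            Ideal.span {t' y.1} * (Ideal.span {t x.1} * ia x.1) := by ring
        have e2 : Ideal.span {t' x.1} * Ideal.span {t y.1} * ia y.1 =
            Ideal.span {t' x.1} * (Ideal.span {t y.1} * ia y.1) := by ring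
        show Ideal.span {t x.1} * Ideal.span {t' y.1} * ia x.1 =
          Ideal.span {t' x.1} * Ideal.span {t y.1} * ia y.1
        rw [e1, e2, q9, q9, hA]
        ring)
      (by
        rw [← Ideal.span_singleton_mul_span_singleton, ← Ideal.span_singleton_mul_span_singleton]
        have e1 : Ideal.span {u x.1} * Ideal.span {u' y.1} * ib x.1 =
            Ideal.span {u' y.1} * (Ideal.span {u x.1} * ib x.1) := by ring
        have e2 : Ideal.span {u' x.1} * Ideal.span {u y.1} * ib y.1 =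
            Ideal.span {u' x.1} * (Ideal.span {u y.1} * ib y.1) := by ring
        show Ideal.span {u x.1} * Ideal.span {u' y.1} * ib x.1 =
          Ideal.span {u' x.1} * Ideal.span {u y.1} * ib y.1
        rw [e1, e2, q10, q10, hB]
        ring)
      (by
        have e1 := q11 x.1
        have e2 := q11 y.1
        simp only [map_mul] at e1 e2
        rcases hρ' with h | h
        · left
          rw [h] at e1
          rw [← Ideal.mem_span_singleton, ← Ideal.Quotient.eq]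
          simp only [map_mul]
          linear_combination
            (-(Ideal.Quotient.mk (Ideal.span {s}) (t' y.1) *
              Ideal.Quotient.mk (Ideal.span {s}) (u y.1))) * e1 +
            (Ideal.Quotient.mk (Ideal.span {s}) (t' x.1) *
              Ideal.Quotient.mk (Ideal.span {s}) (u x.1)) * e2
        · right
          rw [h] at e1
          rw [← Ideal.mem_span_singleton, ← Ideal.Quotient.eq_zero_iff_mem]
          simp only [map_mul, map_add]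
          linear_combination
            (-(Ideal.Quotient.mk (Ideal.span {s}) (t' y.1) *
              Ideal.Quotient.mk (Ideal.span {s}) (u y.1))) * e1 -
            (Ideal.Quotient.mk (Ideal.span {s}) (t' x.1) *
              Ideal.Quotient.mk (Ideal.span {s}) (u x.1)) * e2)
    rw [c.cls, c.cls, c.cls, c.cls] at hcls
    have hxy1 : x.1 = y.1 := Prod.ext hcls.1 hcls.2
    refine Prod.ext hxy1 ?_
    rw [hxy1] at hρ
    cases hx2 : x.2 <;> cases hy2 : y.2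
    · rfl
    · simp only [hx2, hy2, Bool.false_eq_true, if_false, if_true] at hρ
      exact absurd hρ.symm (htwo _ (q13 _))
    · simp only [hx2, hy2, Bool.false_eq_true, if_false, if_true] at hρ
      exact absurd hρ (htwo _ (q13 _))
    · rfl
  -- the set of triples
  let T : Finset (ClassGroup (𝓞 F) × ClassGroup (𝓞 F) × (𝓞 F ⧸ Ideal.span {s})) :=
    Finset.univ.filter fun x =>
      RhoOK D s (c.R x.1 : Ideal (𝓞 F)) (c.R x.2.1 : Ideal (𝓞 F)) x.2.2
  have hT : T.card ≤ 2 * Nat.card (ClassGroup (𝓞 F)) ^ 2 := by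
    refine le_trans (le_of_eq ?_) hcard
    rw [Finset.card_filter, Fintype.sum_prod_type]
    refine Finset.sum_congr rfl fun _ _ => ?_
    rw [Fintype.sum_prod_type]
    refine Finset.sum_congr rfl fun _ _ => ?_
    rw [Nat.card_eq_fintype_card, Fintype.card_subtype, Finset.card_filter]
  have himg : Finset.univ.image Θ = T := by
    refine Finset.eq_of_subset_of_card_le ?_ ?_
    · intro z hz
      obtain ⟨x, -, rfl⟩ := Finset.mem_image.mp hz
      refine Finset.mem_filter.mpr ⟨Finset.mem_univ _, ?_⟩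
      show RhoOK D s (c.R (A x.1) : Ideal (𝓞 F)) (c.R (B x.1) : Ideal (𝓞 F))
        (if x.2 then ρ x.1 else -ρ x.1)
      split_ifs
      · exact q12 x.1
      · obtain ⟨v, hv1, hv2⟩ := q12 x.1
        refine ⟨-v, ?_, ?_⟩
        · rw [map_neg, hv1]
        · rw [Ideal.span_singleton_neg]
          exact hv2
    · refine hT.trans ?_
      rw [Finset.card_image_of_injective _ hΘ, Finset.card_univ, Fintype.card_prod,
        Fintype.card_prod, Fintype.card_bool, ← Nat.card_eq_fintype_card]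
      exact le_of_eq (by ring)
  -- the function
  have hΦ1 : ∀ p, Φ (c.R (A p) : Ideal (𝓞 F)) (c.R (B p) : Ideal (𝓞 F)) (ρ p) =
      Φ (ia p) (ib p) 1 := by
    intro p
    refine (hΦ (ia p) (c.R (A p)) (ib p) (c.R (B p)) (t p) (t' p) (u p) (u' p)
      1 (ρ p) (hia0 p) (hib0 p) (hR0 _) (hR0 _) (hiac p) (hibc p) (hc _) (hc _)
      (q1 p) (q2 p) (q3 p) (q4 p) (q9 p) (q10 p) ?_).symm
    rw [q11 p, one_mul]
  have hΦ2 : ∀ (a b : Ideal (𝓞 F)) (v : 𝓞 F ⧸ Ideal.span {s}), a ≠ ⊥ → b ≠ ⊥ →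
      IsCoprime a (Ideal.span {s}) → IsCoprime b (Ideal.span {s}) → Φ a b (-v) = Φ a b v := by
    intro a b v ha hb hac hbc
    refine (hΦ a a b b (-1) 1 1 1 v (-v) ha hb ha hb hac hbc hac hbc
      isCoprime_one_left.neg_left isCoprime_one_left isCoprime_one_left isCoprime_one_left
      ?_ rfl ?_).symm
    · rw [Ideal.span_singleton_neg]
    · simp
  -- the sums
  have hL : ∑ A : ClassGroup (𝓞 F), ∑ B : ClassGroup (𝓞 F),
      ∑ᶠ ρ ∈ {ρ : 𝓞 F ⧸ Ideal.span {s} |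
        RhoOK D s (c.R A : Ideal (𝓞 F)) (c.R B : Ideal (𝓞 F)) ρ},
        Φ (c.R A : Ideal (𝓞 F)) (c.R B : Ideal (𝓞 F)) ρ =
      ∑ x ∈ T, Φ (c.R x.1 : Ideal (𝓞 F)) (c.R x.2.1 : Ideal (𝓞 F)) x.2.2 := by
    rw [Finset.sum_filter, Fintype.sum_prod_type]
    refine Finset.sum_congr rfl fun _ _ => ?_
    rw [Fintype.sum_prod_type]
    refine Finset.sum_congr rfl fun _ _ => ?_
    rw [finsum_mem_def, finsum_eq_sum_of_fintype]
    refine Finset.sum_congr rfl fun v _ => ?_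
    rw [Set.indicator_apply]
    rfl
  rw [hL, ← himg, Finset.sum_image fun x _ y _ h => hΘ h, Fintype.sum_prod_type, Finset.mul_sum,
    Fintype.sum_prod_type]
  refine Finset.sum_congr rfl fun C _ => ?_
  rw [Finset.mul_sum]
  refine Finset.sum_congr rfl fun E _ => ?_
  rw [Fintype.sum_bool]
  show Φ (c.R (A (C, E)) : Ideal (𝓞 F)) (c.R (B (C, E)) : Ideal (𝓞 F)) (ρ (C, E)) +
    Φ (c.R (A (C, E)) : Ideal (𝓞 F)) (c.R (B (C, E)) : Ideal (𝓞 F)) (-ρ (C, E)) = _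
  rw [hΦ2 _ _ _ (hR0 _) (hR0 _) (hc _) (hc _), hΦ1]
  ring

end RZ

end Pool.Agent.Lib.MP_7c08ba_nt
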