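import Mathlib
import Pool.Agent.Lib.MP_7c08ba_nt.RZ.BasE
import Pool.Agent.Lib.MP_7c08ba_nt.RZ.BaseE
import Pool.Agent.Lib.MP_7c08ba_nt.RZ.BmulE
import Pool.Agent.Lib.MP_7c08ba_nt.RZ.CenE
import Pool.Agent.Lib.MP_7c08ba_nt.RZ.ChiE
import Pool.Agent.Lib.MP_7c08ba_nt.RZ.CountE
import Pool.Agent.Lib.MP_7c08ba_nt.RZ.DnE
import Pool.Agent.Lib.MP_7c08ba_nt.RZ.EisAQ
import Pool.Agent.Lib.MP_7c08ba_nt.RZ.EisAtQ
import Pool.Agent.Lib.MP_7c08ba_nt.RZ.EisBigQ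
import Pool.Agent.Lib.MP_7c08ba_nt.RZ.EisLawQ
import Pool.Agent.Lib.MP_7c08ba_nt.RZ.EisThE
import Pool.Agent.Lib.MP_7c08ba_nt.RZ.EulE
import Pool.Agent.Lib.MP_7c08ba_nt.RZ.EulQE
import Pool.Agent.Lib.MP_7c08ba_nt.RZ.GenE
import Pool.Agent.Lib.MP_7c08ba_nt.RZ.Gs1
import Pool.Agent.Lib.MP_7c08ba_nt.RZ.Gs2
import Pool.Agent.Lib.MP_7c08ba_nt.RZ.HHE
import Pool.Agent.Lib.MP_7c08ba_nt.RZ.IdSumE
import Pool.Agent.Lib.MP_7c08ba_nt.RZ.ImgE
import Pool.Agent.Lib.MP_7c08ba_nt.RZ.JmE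
import Pool.Agent.Lib.MP_7c08ba_nt.RZ.KeyE
import Pool.Agent.Lib.MP_7c08ba_nt.RZ.MainE
import Pool.Agent.Lib.MP_7c08ba_nt.RZ.PInvE
import Pool.Agent.Lib.MP_7c08ba_nt.RZ.PsiE
import Pool.Agent.Lib.MP_7c08ba_nt.RZ.RSE
import Pool.Agent.Lib.MP_7c08ba_nt.RZ.RSanE
import Pool.Agent.Lib.MP_7c08ba_nt.RZ.RSatE
import Pool.Agent.Lib.MP_7c08ba_nt.RZ.RSptE
import Pool.Agent.Lib.MP_7c08ba_nt.RZ.Raise3
import Pool.Agent.Lib.MP_7c08ba_nt.RZ.RepsE
import Pool.Agent.Lib.MP_7c08ba_nt.RZ.RhoE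
import Pool.Agent.Lib.MP_7c08ba_nt.RZ.SplitE
import Pool.Agent.Lib.MP_7c08ba_nt.RZ.TTinvE
import Pool.Agent.Lib.MP_7c08ba_nt.RZ.TTmatE
import Pool.Agent.Lib.MP_7c08ba_nt.RZ.ThBE
import Pool.Agent.Lib.MP_7c08ba_nt.RZ.ThCE
import Pool.Agent.Lib.MP_7c08ba_nt.RZ.ThGE
import Pool.Agent.Lib.MP_7c08ba_nt.RZ.ThPsiE
import Pool.Agent.Lib.MP_7c08ba_nt.RZ.ThSE
import Pool.Agent.Lib.MP_7c08ba_nt.RZ.ThlE
import Pool.Agent.Lib.MP_7c08ba_nt.RZ.TinjE
import Pool.Agent.Lib.MP_7c08ba_nt.RZ.TraceE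
import Pool.Agent.Lib.MP_7c08ba_nt.RZ.TripE
import Pool.Agent.Lib.MP_7c08ba_nt.RZ.All
import Pool.Agent.Lib.MP_7c08ba_nt.RZ.Fund

set_option autoImplicit false

/-!
Assembly of all modules: StMainE.
-/

namespace Pool.Agent.Lib.MP_7c08ba_nt

namespace RZ

theorem aChiE : StChiE := stChiE

theorem aBasE : StBasE := stBasE

theorem aBaseE : StBaseE := stBaseE aBasE

theorem aThBE : StThBE := stThBE aBasE aBaseE

theorem aRaise3 : StRaise3 := stRaise3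

theorem aThSE : StThSE := stThSE aPoisK aBaseE aBasE

theorem aThGE : StThGE := stThGE aPoisK aBaseE aBasE aThBE aThSE

theorem aGs1 : StGs1 := stGs1

theorem aGs2 : StGs2 := stGs2

theorem aSplitE : StSplitE := stSplitE aBasE

theorem aThCE : StThCE := stThCE aPoisK aBaseE aBasE aThBE aGs1 aGs2 aSplitE

theorem aThlE : StThlE := stThlE aRaise3 aThGE aThCE aBasE aThBE

theorem aEisAQ : StEisAQ := stEisAQ

theorem aEisBigQ : StEisBigQ := stEisBigQ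

theorem aEisLawQ : StEisLawQ := stEisLawQ aEisAQ aEisBigQ

theorem aHHE : StHHE := stHHE aThBE aThlE aEisAQ aEisLawQ aBasE aThGE

theorem aTraceE : StTraceE := stTraceE

theorem aRSatE : StRSatE := stRSatE aHHE aTraceE aPetU aFd

theorem aEisAtQ : StEisAtQ := stEisAtQ aEisAQ

theorem aIdSumE : StIdSumE := stIdSumE aBasE

theorem aCountE : StCountE := stCountE aBasE aSplitE

theorem aEisThE : StEisThE := stEisThE aEisAtQ aEisLawQ aThlE aIdSumE aCountE aBasE aThBE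

theorem aJmE : StJmE := stJmE aThBE aThlE aEisThE aGam aBasE aBaseE

theorem aKeyE : StKeyE := stKeyE aBasE aSplitE

theorem aRhoE : StRhoE := stRhoE aKeyE aBasE aBaseE

theorem aTTinvE : StTTinvE := stTTinvE aBasE

theorem aTinjE : StTinjE := stTinjE aBasE aSplitE

theorem aGenE : StGenE := stGenE aBasE aSplitE

theorem aTripE : StTripE := stTripE aTinjE aGenE aBasE

theorem aImgE : StImgE := stImgE aBasE aBaseE

theorem aTTmatE : StTTmatE := stTTmatE aImgE aBasE aBaseE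

theorem aRepsE : StRepsE := stRepsE aBasE aBaseE

theorem aPInvE : StPInvE := stPInvE aBasE aBaseE

theorem aPsiE : StPsiE := stPsiE aBasE

theorem aCenE : StCenE := stCenE aW12 aSpan aKer aDefo aRSatE aJmE aRhoE aTTinvE aTripE aTTmatE aRepsE aPInvE aPsiE aBasE

theorem aRSanE : StRSanE := stRSanE aHHE aHol aFd aCoef

theorem aRSptE : StRSptE := stRSptE aEisBigQ aThGE aBasE aThBE

theorem aThPsiE : StThPsiE := stThPsiE aIdSumE aBasE aThBE aPsiE aCountE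

theorem aRSE : StRSE := stRSE aRSptE aUnf aStrip aThPsiE aThBE aCoef

theorem aDnE : StDnE := stDnE aCoef aThPsiE aRepsE

theorem aBmulE : StBmulE := stBmulE aBasE aSplitE

theorem aEulQE : StEulQE := stEulQE aDnE aBmulE aSplitE aLocal aPsiE aBasE aCoef

theorem aEulE : StEulE := stEulE aEulQE aSplitE aCoef aPsiE aW12

theorem aMainE : StMainE := stMainE aChiE aCenE aRSanE aRSE aDnE aEulE aW12 aPInvE

end RZ

end Pool.Agent.Lib.MP_7c08ba_nt
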