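import Mathlib
import Pool.Agent.Lib.MP_7c08ba_nt.RZ.StE
import Pool.Agent.Lib.MP_7c08ba_nt.RZ.StH

set_option autoImplicit false

/-!
Statements of the analytic modules for characters of type `(k, 0)` with `k + 2 * r + 2 = w`
(the other half: the sign is `-1`), every even fundamental discriminant `-D`, `D > 4`: the
`L`-function vanishes at the centre.
-/

namespace Pool.Agent.Lib.MP_7c08ba_nt

namespace RZ

open NumberField MeasureTheory UpperHalfPlane Set IsDedekindDomain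
open scoped MatrixGroups ComplexConjugate nonZeroDivisors

/-- (I1) continuity, transformation, holomorphy and size of the integrand -/
def StHNE : Prop :=
  ∀ (D : ℕ) (_ : NeZero D) (F : Type) (_ : Field F) (_ : NumberField F) (s : 𝓞 F)
    (σ : F →+* ℂ) (χ : DirichletCharacter ℂ D) (cj : 𝓞 F ≃+* 𝓞 F) (w k r : ℕ)
    (ψ : Ideal (𝓞 F) →*₀ ℂ) (c : Reps σ), DatE D s σ χ cj → Even k → w = k + 2 * r + 2 →
    (∀ A, IsCoprime (c.R A : Ideal (𝓞 F)) (Ideal.span {s})) →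
    (∀ t : ℂ, -(r : ℝ) - 1 / 2 < t.re → ContinuousOn (HN D χ k r ψ c t) {u | 0 < u.im} ∧
      ContinuousOn (trE D w (HN D χ k r ψ c t)) {u | 0 < u.im} ∧
      (∀ (g : SL(2, ℤ)) (z : ℂ), 0 < z.im → (D : ℤ) ∣ g 1 0 →
        HN D χ k r ψ c t (((g 0 0 : ℂ) * z + g 0 1) / ((g 1 0 : ℂ) * z + g 1 1)) =
          ((g 1 0 : ℂ) * z + g 1 1) ^ w * HN D χ k r ψ c t z)) ∧
    (∀ z : ℂ, 0 < z.im → DifferentiableOn ℂ (fun t => trE D w (HN D χ k r ψ c t) z)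
      {t | -(r : ℝ) - 1 / 2 < t.re}) ∧
    (∀ σ₀ R : ℝ, -(r : ℝ) - 1 / 2 < σ₀ → ∃ (C : ℝ) (N : ℕ), ∀ t z : ℂ, σ₀ ≤ t.re → ‖t‖ ≤ R →
      1 / 2 ≤ z.im → |z.re| ≤ 1 / 2 →
        ‖trE D w (HN D χ k r ψ c t) z‖ ≤ C * (z.im + 1) ^ N)

/-- (I2) the Rankin–Selberg integral is holomorphic -/
def StRSanNE : Prop :=
  ∀ (D : ℕ) (_ : NeZero D) (F : Type) (_ : Field F) (_ : NumberField F) (s : 𝓞 F)
    (σ : F →+* ℂ) (χ : DirichletCharacter ℂ D) (cj : 𝓞 F ≃+* 𝓞 F) (w k r : ℕ)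
    (f : CuspForm 𝒮ℒ (w : ℤ)) (ψ : Ideal (𝓞 F) →*₀ ℂ) (c : Reps σ), DatE D s σ χ cj →
    Even k → w = k + 2 * r + 2 → (∀ A, IsCoprime (c.R A : Ideal (𝓞 F)) (Ideal.span {s})) →
    DifferentiableOn ℂ (fun t => rsE D (HN D χ k r ψ c t) f) {t | -(r : ℝ) - 1 / 2 < t.re}

/-- (I3) the integrand as a sum over coprime pairs -/
def StRSptNE : Prop :=
  ∀ (D : ℕ) (_ : NeZero D) (F : Type) (_ : Field F) (_ : NumberField F) (s : 𝓞 F)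
    (σ : F →+* ℂ) (χ : DirichletCharacter ℂ D) (cj : 𝓞 F ≃+* 𝓞 F) (w k r : ℕ)
    (f : CuspForm 𝒮ℒ (w : ℤ)) (ψ : Ideal (𝓞 F) →*₀ ℂ) (c : Reps σ), DatE D s σ χ cj →
    Even k → w = k + 2 * r + 2 → ∀ t z : ℂ, 1 / 2 - (r : ℝ) < t.re → 0 < z.im →
    trE D w (HN D χ k r ψ c t) z * f (ofComplex (-conj z)) * (z.im : ℂ) ^ w =
      1 / 2 * DirichletCharacter.LFunction χ (2 * r + 1 + 2 * t) *
        ∑' v : Cop, (fun u : ℂ => thψ k ψ c u * f (ofComplex (-conj u)) *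
          (u.im : ℂ) ^ ((w : ℂ) + t)) (mob v.1 z)

/-- (I4) the theta series of the Hecke character as a Fourier series, every `k` -/
def StThPsiNE : Prop :=
  ∀ (D : ℕ) (F : Type) (_ : Field F) (_ : NumberField F) (s : 𝓞 F) (σ : F →+* ℂ)
    (χ : DirichletCharacter ℂ D) (cj : 𝓞 F ≃+* 𝓞 F) (k : ℕ) (ψ : Ideal (𝓞 F) →*₀ ℂ)
    (c : Reps σ), DatE D s σ χ cj → IsHecke σ k ψ →
    bψ ψ 0 = 0 ∧
    (∀ n : ℕ, 1 ≤ n → ‖bψ ψ n‖ ≤ (n.divisors.card : ℝ) * (n : ℝ) ^ ((k : ℝ) / 2)) ∧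
    ∃ κ : ℂ, ∀ u : ℂ, 0 < u.im → (Summable fun n : ℕ => ‖bψ ψ n * ee (n * u)‖) ∧
      thψ k ψ c u = κ + ∑' n : ℕ, bψ ψ n * ee (n * u)

/-- (I5) the Rankin–Selberg integral in the region of convergence -/
def StRSNE : Prop :=
  ∀ (D : ℕ) (_ : NeZero D) (F : Type) (_ : Field F) (_ : NumberField F) (s : 𝓞 F)
    (σ : F →+* ℂ) (χ : DirichletCharacter ℂ D) (cj : 𝓞 F ≃+* 𝓞 F) (w k r : ℕ)
    (f : CuspForm 𝒮ℒ (w : ℤ)) (ψ : Ideal (𝓞 F) →*₀ ℂ) (c : Reps σ), DatE D s σ χ cj →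
    w = k + 2 * r + 2 → IsHecke σ k ψ →
    ∃ A : ℝ, ∀ t : ℂ, A < t.re →
      rsE D (HN D χ k r ψ c t) f = Complex.Gamma (k + 2 * r + 1 + t) *
        (4 * Real.pi : ℂ) ^ (-((k : ℂ) + 2 * r + 1 + t)) *
        DirichletCharacter.LFunction χ (2 * r + 1 + 2 * t) * Dn f ψ (k + 2 * r + 1 + t)

/-- (I6) the Dirichlet series is holomorphic for `Re z > 1`, every `k` -/
def StDnNE : Prop :=
  ∀ (D : ℕ) (F : Type) (_ : Field F) (_ : NumberField F) (s : 𝓞 F)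
    (σ : F →+* ℂ) (χ : DirichletCharacter ℂ D) (cj : 𝓞 F ≃+* 𝓞 F) (w k : ℕ)
    (f : CuspForm 𝒮ℒ (w : ℤ)) (ψ : Ideal (𝓞 F) →*₀ ℂ), DatE D s σ χ cj → 1 ≤ w →
    IsHecke σ k ψ →
    (∀ z : ℂ, 1 < z.re →
      Summable fun n : ℕ => ‖coef f n * bψ ψ n * (n : ℂ) ^ (-(((w : ℂ) + k) / 2 + z))‖) ∧
    DifferentiableOn ℂ (fun z => Dn f ψ (((w : ℂ) + k) / 2 + z)) {z | 1 < z.re}

/-- (I7) the Euler product over the rational primes, every `k` -/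
def StEulQNE : Prop :=
  ∀ (D : ℕ) (_ : NeZero D) (F : Type) (_ : Field F) (_ : NumberField F) (s : 𝓞 F)
    (σ : F →+* ℂ) (χ : DirichletCharacter ℂ D) (cj : 𝓞 F ≃+* 𝓞 F) (w k : ℕ)
    (f : CuspForm 𝒮ℒ (w : ℤ)) (ψ : Ideal (𝓞 F) →*₀ ℂ), DatE D s σ χ cj → IsEigen f →
    IsHecke σ k ψ → ∀ z : ℂ, 1 < z.re →
    (∀ v : HeightOneSpectrum (𝓞 F), eulF f ψ (((w : ℂ) + k) / 2 + z) v ≠ 0) ∧
    HasProd (fun p : Nat.Primes => ∏ᶠ v : {v : HeightOneSpectrum (𝓞 F) //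
        (p : 𝓞 F) ∈ v.asIdeal}, (eulF f ψ (((w : ℂ) + k) / 2 + z) v.1)⁻¹)
      (DirichletCharacter.LFunction χ (1 + 2 * z) * Dn f ψ (((w : ℂ) + k) / 2 + z))

/-- (I8) the Euler product over the places of `F`, every `k` -/
def StEulNE : Prop :=
  ∀ (D : ℕ) (_ : NeZero D) (F : Type) (_ : Field F) (_ : NumberField F) (s : 𝓞 F)
    (σ : F →+* ℂ) (χ : DirichletCharacter ℂ D) (cj : 𝓞 F ≃+* 𝓞 F) (w k : ℕ)
    (f : CuspForm 𝒮ℒ (w : ℤ)) (ψ : Ideal (𝓞 F) →*₀ ℂ), DatE D s σ χ cj → IsEigen f →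
    IsHecke σ k ψ → ∀ z : ℂ, 1 < z.re →
    HasProd (fun v : HeightOneSpectrum (𝓞 F) => (eulF f ψ (((w : ℂ) + k) / 2 + z) v)⁻¹)
      (DirichletCharacter.LFunction χ (1 + 2 * z) * Dn f ψ (((w : ℂ) + k) / 2 + z))

open Classical in
/-- (I9) the sum of the signs over the cusps is zero -/
def StSgnE : Prop :=
  ∀ (D : ℕ) (F : Type) (_ : Field F) (_ : NumberField F) (s : 𝓞 F) (σ : F →+* ℂ)
    (χ : DirichletCharacter ℂ D) (cj : 𝓞 F ≃+* 𝓞 F), DatE D s σ χ cj →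
    ∀ (a b : Ideal (𝓞 F)) (x y : 𝓞 F) (n n' : ℕ), a ≠ ⊥ → b ≠ ⊥ →
    IsCoprime a (Ideal.span {s}) → IsCoprime b (Ideal.span {s}) → x ∈ a → y ∈ b →
    Ideal.absNorm (Ideal.span {x}) = n * Ideal.absNorm a →
    Ideal.absNorm (Ideal.span {y}) = n' * Ideal.absNorm b → D ∣ n + n' →
    ∑ g ∈ D.divisors, (if supE D g n then
      epsE D g (Ideal.absNorm a * Ideal.absNorm b) * sgnE D g else 0) = 0

/-- (I10) the sum over the cusps of the products of two theta series is zero -/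
def StPair0E : Prop :=
  ∀ (D : ℕ) (F : Type) (_ : Field F) (_ : NumberField F) (s : 𝓞 F) (σ : F →+* ℂ)
    (χ : DirichletCharacter ℂ D) (cj : 𝓞 F ≃+* 𝓞 F), DatE D s σ χ cj →
    ∀ (a b : Ideal (𝓞 F)) (Φ : ℕ → ℤ → ℂ) (k r : ℕ) (u : ℂ), a ≠ ⊥ → b ≠ ⊥ →
    IsCoprime a (Ideal.span {s}) → IsCoprime b (Ideal.span {s}) →
    (∀ g, g ∣ D → CuspF D g (Φ g)) → 0 < u.im →
    ∑ g ∈ D.divisors, (epsE D g (Ideal.absNorm a * Ideal.absNorm b) : ℂ) *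
      ∑ j ∈ Finset.range (wid D g),
        thP D σ a (Φ g) k (u + j) * thlP D σ b (Φ g) r (u + j) = 0

/-- (I11) the trace is zero at `t = -r` -/
def StTr0E : Prop :=
  ∀ (D : ℕ) (_ : NeZero D) (F : Type) (_ : Field F) (_ : NumberField F) (s : 𝓞 F)
    (σ : F →+* ℂ) (χ : DirichletCharacter ℂ D) (cj : 𝓞 F ≃+* 𝓞 F) (w k r : ℕ)
    (ψ : Ideal (𝓞 F) →*₀ ℂ) (c : Reps σ), DatE D s σ χ cj → Even k → w = k + 2 * r + 2 →
    (∀ A, IsCoprime (c.R A : Ideal (𝓞 F)) (Ideal.span {s})) →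
    ∀ u : ℂ, 0 < u.im → trE D w (HN D χ k r ψ c (-r)) u = 0

/-- (I12) the analytic part for characters of type `(k, 0)`, `k + 2 * r + 2 = w`: the
`L`-function vanishes at the centre -/
def StMainNE : Prop :=
  ∀ (D : ℕ) (F : Type) (_ : Field F) (_ : NumberField F) (s : F)
    (σ : F →+* ℂ) (w k r : ℕ) (f : CuspForm 𝒮ℒ (w : ℤ)) (ψ : Ideal (𝓞 F) →*₀ ℂ), EvD D →
    Module.finrank ℚ F = 2 → s ^ 2 = -(D : F) → IsEigen f → w = k + 2 * r + 2 →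
    IsHecke σ k ψ →
    ∃ Λ : ℂ → ℂ, DifferentiableOn ℂ Λ {z | -1 / 2 < z.re} ∧
      (∀ z : ℂ, 1 < z.re → HasProd (fun v : HeightOneSpectrum (𝓞 F) =>
        (eulF f ψ (((w : ℂ) + k) / 2 + z) v)⁻¹) (Λ z)) ∧ Λ 0 = 0

end RZ

end Pool.Agent.Lib.MP_7c08ba_nt
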