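import Pool.Agent.Lib.MP_7c08ba_nt.RZ.JmE
import Pool.Agent.Lib.MP_7c08ba_nt.RZ.StI

set_option autoImplicit false

/-!
(I10) the sum over the cusps of the products of two theta series is zero, even discriminants.
-/

namespace Pool.Agent.Lib.MP_7c08ba_nt

namespace RZ

open NumberField UpperHalfPlane Set
open scoped MatrixGroups ComplexConjugate nonZeroDivisors

namespace Pair0EX

open JmX JmEX

theorem geo (W : ℕ) (hW : 1 ≤ W) (t : ℤ) :
    ∑ j ∈ Finset.range W, ee (j * ((t : ℂ) / W)) = if (W : ℤ) ∣ t then (W : ℂ) else 0 := by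
  have hW0 : (W : ℂ) ≠ 0 := by
    have : W ≠ 0 := by omega
    exact_mod_cast this
  by_cases h : (W : ℤ) ∣ t
  · rw [if_pos h]
    obtain ⟨k, rfl⟩ := h
    have h1 : ∀ j ∈ Finset.range W, ee (j * (((W * k : ℤ) : ℂ) / W)) = 1 := by
      intro j _
      have : (j : ℂ) * (((W * k : ℤ) : ℂ) / W) = ((j * k : ℤ) : ℂ) := by
        push_cast
        field_simp
      rw [this, ee_int]
    rw [Finset.sum_congr rfl h1]
    simp
  · rw [if_neg h]
    have h1 : ee ((t : ℂ) / W) ≠ 1 := by
      intro h2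
      unfold ee at h2
      rw [Complex.exp_eq_one_iff] at h2
      obtain ⟨n, hn⟩ := h2
      apply h
      refine ⟨n, ?_⟩
      have h3 : (2 * (Real.pi : ℂ) * Complex.I) ≠ 0 := Complex.two_pi_I_ne_zero
      have h4 : (t : ℂ) / W = n := by
        apply mul_left_cancel₀ h3
        rw [hn]
        ring
      rw [div_eq_iff hW0] at h4
      have h5 : (t : ℂ) = ((W * n : ℤ) : ℂ) := by
        rw [h4]
        push_cast
        ring
      exact_mod_cast h5
    have h2 : (∑ j ∈ Finset.range W, ee (j * ((t : ℂ) / W))) * (ee ((t : ℂ) / W) - 1) = 0 := by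
      simp_rw [ee_nsmul]
      rw [geom_sum_mul, ← ee_nsmul]
      have : ((W : ℂ) * ((t : ℂ) / W)) = (t : ℂ) := by field_simp
      rw [this, ee_int, sub_self]
    rcases mul_eq_zero.1 h2 with h3 | h3
    · exact h3
    · exact absurd (sub_eq_zero.1 h3) h1

theorem supE_neg {D g : ℕ} {n : ℤ} (h : supE D g n) : supE D g (-n) := by
  refine ⟨(dvd_neg).2 h.1, ?_⟩
  rcases h.2 with h2 | h2
  · exact Or.inl h2
  · right
    rw [Int.neg_gcd]
    exact h2

theorem wid_pos {D g : ℕ} (hD : EvD D) (hg : g ∣ D) : 1 ≤ wid D g := by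
  have hD0 := Dpos' hD
  obtain ⟨h1, -⟩ := width_facts hD hg
  unfold wid
  exact Nat.div_pos (Nat.le_of_dvd hD0 h1) (Nat.pos_of_dvd_of_pos h1 hD0)

theorem norm_Phi {D g : ℕ} (hD : EvD D) (hg : g ∣ D) {Φ : ℤ → ℂ} (h : CuspF D g Φ) (n : ℤ) :
    ‖Φ n‖ ≤ 1 := by
  by_cases hn : supE D g n
  · have h1 := h.nrm n hn
    have h2 : (1 : ℝ) ≤ wid D g := by exact_mod_cast wid_pos hD hg
    have h3 : ‖Φ n‖ ^ 2 ≤ 1 := by
      rw [← Complex.normSq_eq_norm_sq, h1]
      exact inv_le_one_of_one_le₀ h2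
    nlinarith [norm_nonneg (Φ n)]
  · rw [h.zero n hn]
    simp

theorem per_int {D g : ℕ} {Φ : ℤ → ℂ} (h : CuspF D g Φ) (n k : ℤ) : Φ (n + D * k) = Φ n := by
  induction k using Int.induction_on with
  | zero => simp
  | succ i ih =>
    have : n + (D : ℤ) * (i + 1) = (n + D * i) + D := by ring
    rw [this, h.per, ih]
  | pred i ih =>
    have h1 := h.per (n + D * (-(i : ℤ) - 1))
    have : n + (D : ℤ) * (-(i : ℤ) - 1) + D = n + D * (-i) := by ring
    rw [this] at h1
    rw [← h1, ih]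

/-- the coefficient of a pair -/
theorem coef_zero {F : Type} [Field F] [NumberField F] {D : ℕ} {s : 𝓞 F} {σ : F →+* ℂ}
    {χ : DirichletCharacter ℂ D} {cj : 𝓞 F ≃+* 𝓞 F} (hd : DatE D s σ χ cj) (h1 : StSgnE)
    {a b : Ideal (𝓞 F)} {Φ : ℕ → ℤ → ℂ} (ha : a ≠ ⊥) (hb : b ≠ ⊥)
    (hca : IsCoprime a (Ideal.span {s})) (hcb : IsCoprime b (Ideal.span {s}))
    (hΦ : ∀ g, g ∣ D → CuspF D g (Φ g)) {x y : 𝓞 F} (hx : x ∈ a) (hy : y ∈ b) {n n' : ℕ}
    (hn : Ideal.absNorm (Ideal.span {x}) = n * Ideal.absNorm a)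
    (hn' : Ideal.absNorm (Ideal.span {y}) = n' * Ideal.absNorm b) :
    ∑ g ∈ D.divisors, (epsE D g (Ideal.absNorm a * Ideal.absNorm b) : ℂ) *
      (Φ g n * Φ g n' * ∑ j ∈ Finset.range (wid D g), ee (j * (((n : ℂ) + n') / D))) = 0 := by
  classical
  have hD := hd.ev
  have hD0 := Dpos' hD
  have hDc : (D : ℂ) ≠ 0 := by exact_mod_cast hD0.ne'
  -- the inner sum
  have hin : ∀ g ∈ D.divisors, supE D g n → supE D g n' →
      ∑ j ∈ Finset.range (wid D g), ee (j * (((n : ℂ) + n') / D)) =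
        if D ∣ n + n' then (wid D g : ℂ) else 0 := by
    intro g hg hs hs'
    have hgD := Nat.dvd_of_mem_divisors hg
    obtain ⟨hw1, hw2⟩ := width_facts hD hgD
    have h3 := hw2 n (-n') hs (supE_neg hs')
    rw [sub_neg_eq_add] at h3
    obtain ⟨t, ht⟩ := h3
    set G : ℕ := g * Nat.gcd g (D / g) with hG
    have hW : G * wid D g = D := by
      unfold wid
      exact Nat.mul_div_cancel' hw1
    have hG0 : G ≠ 0 := (Nat.pos_of_dvd_of_pos hw1 hD0).ne'
    have hGc : (G : ℂ) ≠ 0 := by exact_mod_cast hG0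
    have hWp := wid_pos hD hgD
    have hWc : (wid D g : ℂ) ≠ 0 := by
      have : wid D g ≠ 0 := by omega
      exact_mod_cast this
    have e1 : ((n : ℂ) + n') / D = (t : ℂ) / (wid D g : ℕ) := by
      have h4 : ((n : ℂ) + n') = G * t := by exact_mod_cast ht
      have h5 : (D : ℂ) = G * (wid D g : ℕ) := by exact_mod_cast hW.symm
      rw [h4, h5]
      field_simp
    rw [e1, geo _ hWp]
    have e2 : (((wid D g : ℕ) : ℤ) ∣ t) ↔ D ∣ n + n' := by
      have h6 : (D : ℤ) ∣ (n : ℤ) + n' ↔ D ∣ n + n' := by exact_mod_cast Iff.rfl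
      rw [← h6, ht]
      have h7 : (D : ℤ) = (G : ℤ) * (wid D g : ℕ) := by exact_mod_cast hW.symm
      rw [h7]
      exact (mul_dvd_mul_iff_left (by exact_mod_cast hG0)).symm
    by_cases h8 : D ∣ n + n'
    · rw [if_pos (e2.2 h8), if_pos h8]
    · rw [if_neg (fun h9 => h8 (e2.1 h9)), if_neg h8]
  by_cases hdiv : D ∣ n + n'
  · have hdiv0 : D ∣ n + n' := hdiv
    have h2 := h1 D F inferInstance inferInstance s σ χ cj hd a b x y n n' ha hb hca hcb hx hy hn
      hn' hdiv
    have h3 : ∀ g ∈ D.divisors, (epsE D g (Ideal.absNorm a * Ideal.absNorm b) : ℂ) *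
      (Φ g n * Φ g n' * ∑ j ∈ Finset.range (wid D g), ee (j * (((n : ℂ) + n') / D))) =
        (((if supE D g n then epsE D g (Ideal.absNorm a * Ideal.absNorm b) * sgnE D g else 0 : ℤ)
          : ℤ) : ℂ) := by
      intro g hg
      have hgD := Nat.dvd_of_mem_divisors hg
      obtain ⟨t, ht⟩ := hdiv
      have e0 : ((n' : ℤ)) = -(n : ℤ) + D * t := by
        have : (n : ℤ) + n' = D * t := by exact_mod_cast ht
        linarith
      have e1 : Φ g n' = Φ g (-(n : ℤ)) := by
        rw [e0, per_int (hΦ g hgD)]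
      by_cases hs : supE D g n
      · rw [if_pos hs]
        by_cases hs' : supE D g n'
        · rw [hin g hg hs hs', if_pos hdiv0, e1, (hΦ g hgD).neg _ hs]
          have hWc : (wid D g : ℂ) ≠ 0 := by
            have := wid_pos hD hgD
            have : wid D g ≠ 0 := by omega
            exact_mod_cast this
          push_cast
          field_simp
        · exfalso
          have h5 := (hΦ g hgD).neg _ hs
          rw [← e1, (hΦ g hgD).zero _ hs', mul_zero] at h5
          have hWc : (wid D g : ℂ) ≠ 0 := by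
            have := wid_pos hD hgD
            have : wid D g ≠ 0 := by omega
            exact_mod_cast this
          have h6 : ((sgnE D g : ℤ) : ℂ) = 0 := by
            have := h5.symm
            rcases mul_eq_zero.1 this with h7 | h7
            · exact h7
            · exact absurd h7 (inv_ne_zero hWc)
          -- the sign is not zero: `Φ (-n)` has norm one over the width
          have h8 := (hΦ g hgD).nrm _ (supE_neg hs)
          rw [← e1, (hΦ g hgD).zero _ hs'] at h8
          have h9 : ((wid D g : ℕ) : ℝ) ≠ 0 := by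
            have := wid_pos hD hgD
            have : wid D g ≠ 0 := by omega
            exact_mod_cast this
          rw [map_zero] at h8
          exact absurd h8.symm (inv_ne_zero h9)
      · rw [if_neg hs, (hΦ g hgD).zero _ hs]
        simp
    rw [Finset.sum_congr rfl h3]
    exact_mod_cast h2
  · refine Finset.sum_eq_zero fun g hg => ?_
    have hgD := Nat.dvd_of_mem_divisors hg
    by_cases hs : supE D g n
    · by_cases hs' : supE D g n'
      · rw [hin g hg hs hs', if_neg hdiv]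
        ring
      · rw [(hΦ g hgD).zero _ hs']
        ring
    · rw [(hΦ g hgD).zero _ hs]
      ring

end Pair0EX

open JmX JmEX Pair0EX

theorem stPair0E (h1 : StSgnE) (h2 : StThBE) (h3 : StBasE) : StPair0E := by
  intro D F _ _ s σ χ cj hd a b Φ k r u ha hb hca hcb hΦ hu
  have hD := hd.ev
  have hD0 := Dpos' hD
  have hDr : (0 : ℝ) < D := by exact_mod_cast hD0
  have hDc : (D : ℂ) ≠ 0 := by exact_mod_cast hD0.ne'
  have hqa := h2 D F inferInstance inferInstance s σ χ cj a k r (fun _ => 0) hd ha (by simp)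
  have hqb := h2 D F inferInstance inferInstance s σ χ cj b 0 r (fun _ => 0) hd hb (by simp)
  obtain ⟨-, -, -, -, -, hns, -⟩ := h3 D F inferInstance inferInstance s σ χ cj hd
  have hna : ∀ {a : Ideal (𝓞 F)}, a ≠ ⊥ → (Ideal.absNorm a : ℝ) ≠ 0 := by
    intro a ha h
    exact ha (Ideal.absNorm_eq_zero_iff.1 (by exact_mod_cast h))
  choose nx hnx using fun x : a => hqa.1 x x.2
  choose ny hny using fun y : b => hqb.1 y y.2
  have hnorm : ∀ {a : Ideal (𝓞 F)}, a ≠ ⊥ → ∀ (x : a) (n : ℕ), Qa σ a x = n →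
      Ideal.absNorm (Ideal.span {(x : 𝓞 F)}) = n * Ideal.absNorm a := by
    intro a ha x n hn
    unfold Qa at hn
    rw [div_eq_iff (hna ha), hns] at hn
    exact_mod_cast hn
  set Y : ℝ := u.im with hY
  have hY0 : 0 < Y := hu
  -- the two series at `u + j`
  have hQb0 : ∀ y : b, 0 ≤ Qa σ b y / D := by
    intro y
    rw [hny]
    positivity
  have hsa : Summable fun x : a => (1 + ‖σ (x : 𝓞 F)‖) ^ k * Real.exp (-(2 * Real.pi * Y / D * Qa σ a x)) :=
    hqa.2.1 _ (by positivity)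
  have hsb : Summable fun y : b => ‖lag r (4 * Real.pi * ((Qa σ b y / D : ℝ) : ℂ) * Y)‖ *
      Real.exp (-(2 * Real.pi * (Qa σ b y / D) * Y)) := by
    refine summ_B (r := r) (Q' := fun y : b => Qa σ b y / D) (fun t ht => ?_) hQb0 hY0
    have := hqb.2.1 (t / D) (by positivity)
    refine this.congr fun y => ?_
    rw [pow_zero, one_mul]
    congr 2
    ring
  let A : a → ℂ := fun x => (σ (x : 𝓞 F) / (Complex.I * Real.sqrt D)) ^ k * ee (Qa σ a x / D * u)
  let B : b → ℂ := fun y => lag r (4 * Real.pi * (Qa σ b y / D) * Y) * ee (Qa σ b y / D * u)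
  have hAn : ∀ x, ‖A x‖ ≤ (Real.sqrt D ^ k)⁻¹ * ((1 + ‖σ (x : 𝓞 F)‖) ^ k *
      Real.exp (-(2 * Real.pi * Y / D * Qa σ a x))) := by
    intro x
    simp only [A]
    have e1 : (Qa σ a x : ℂ) / D * u = ((Qa σ a x / D : ℝ) : ℂ) * u := by push_cast; ring
    rw [norm_mul, e1, ThBAux.norm_ee, norm_pow, norm_div, norm_mul, Complex.norm_I, one_mul,
      Complex.norm_of_nonneg (Real.sqrt_nonneg _), div_pow]
    have e2 : Real.exp (-(2 * Real.pi * (Qa σ a x / D) * u.im)) =
        Real.exp (-(2 * Real.pi * Y / D * Qa σ a x)) := by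
      congr 1
      rw [hY]
      ring
    rw [e2, div_eq_inv_mul, mul_assoc]
    have hsq : 0 < Real.sqrt D := Real.sqrt_pos.2 hDr
    gcongr
    linarith [norm_nonneg (σ (x : 𝓞 F))]
  have hAs : Summable fun x => ‖A x‖ := Summable.of_nonneg_of_le (fun _ => norm_nonneg _) hAn
    (hsa.mul_left _)
  have hBs : Summable fun y => ‖B y‖ := by
    refine hsb.congr fun y => ?_
    simp only [B]
    have e1 : (Qa σ b y : ℂ) / D * u = ((Qa σ b y / D : ℝ) : ℂ) * u := by push_cast; ring
    rw [norm_mul, e1, ThBAux.norm_ee]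
    push_cast
    rfl
  have hAB : Summable fun p : a × b => ‖A p.1 * B p.2‖ := by
    have := hAs.mul_of_nonneg hBs (fun _ => norm_nonneg _) (fun _ => norm_nonneg _)
    exact this.congr fun p => (norm_mul (A p.1) (B p.2)).symm
  have hΦn : ∀ g ∈ D.divisors, ∀ n, ‖Φ g n‖ ≤ 1 := fun g hg n =>
    norm_Phi hD (Nat.dvd_of_mem_divisors hg) (hΦ g (Nat.dvd_of_mem_divisors hg)) n
  have heen : ∀ (n : ℕ) (j : ℕ), ‖ee (j * ((n : ℂ) / D))‖ = 1 := by
    intro n j
    have : (j : ℂ) * ((n : ℂ) / D) = ((j * (n / D) : ℝ) : ℂ) := by push_cast; ring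
    rw [this, ee_re]
  have hprod : ∀ g ∈ D.divisors, ∀ j : ℕ,
      thP D σ a (Φ g) k (u + j) * thlP D σ b (Φ g) r (u + j) = ((Y : ℂ) ^ r)⁻¹ *
        ∑' p : a × b, Φ g (nx p.1) * Φ g (ny p.2) * ee (j * (((nx p.1 : ℂ) + ny p.2) / D)) *
          (A p.1 * B p.2) := by
    intro g hg j
    have him : (u + (j : ℂ)).im = Y := by simp [hY]
    unfold thP thlP
    rw [him]
    have hfa : ∀ x : a, ⌊Qa σ a x⌋ = (nx x : ℤ) := fun x => by rw [hnx]; simp
    have hfb : ∀ y : b, ⌊Qa σ b y⌋ = (ny y : ℤ) := fun y => by rw [hny]; simp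
    have e1 : ∀ x : a, Φ g ⌊Qa σ a x⌋ * (σ (x : 𝓞 F) / (Complex.I * Real.sqrt D)) ^ k *
        ee (Qa σ a x / D * (u + j)) = Φ g (nx x) * ee (j * ((nx x : ℂ) / D)) * A x := by
      intro x
      rw [hfa]
      simp only [A]
      have : (Qa σ a x : ℂ) / D * (u + j) = Qa σ a x / D * u + j * ((nx x : ℂ) / D) := by
        rw [hnx]
        push_cast
        ring
      rw [this, ee_add']
      ring
    have e2 : ∀ y : b, Φ g ⌊Qa σ b y⌋ * lag r (4 * Real.pi * (Qa σ b y / D) * Y) *
        ee (Qa σ b y / D * (u + j)) = Φ g (ny y) * ee (j * ((ny y : ℂ) / D)) * B y := by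
      intro y
      rw [hfb]
      simp only [B]
      have : (Qa σ b y : ℂ) / D * (u + j) = Qa σ b y / D * u + j * ((ny y : ℂ) / D) := by
        rw [hny]
        push_cast
        ring
      rw [this, ee_add']
      ring
    simp_rw [e1, e2]
    have s1 : Summable fun x : a => ‖Φ g (nx x) * ee (j * ((nx x : ℂ) / D)) * A x‖ := by
      refine Summable.of_nonneg_of_le (fun _ => norm_nonneg _) (fun x => ?_) hAs
      rw [norm_mul, norm_mul, heen, mul_one]
      exact mul_le_of_le_one_left (norm_nonneg _) (hΦn g hg _)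
    have s2 : Summable fun y : b => ‖Φ g (ny y) * ee (j * ((ny y : ℂ) / D)) * B y‖ := by
      refine Summable.of_nonneg_of_le (fun _ => norm_nonneg _) (fun x => ?_) hBs
      rw [norm_mul, norm_mul, heen, mul_one]
      exact mul_le_of_le_one_left (norm_nonneg _) (hΦn g hg _)
    rw [mul_left_comm, tsum_mul_tsum_of_summable_norm s1 s2]
    congr 1
    refine tsum_congr fun p => ?_
    have : (j : ℂ) * (((nx p.1 : ℂ) + ny p.2) / D) =
        j * ((nx p.1 : ℂ) / D) + j * ((ny p.2 : ℂ) / D) := by ring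
    rw [this, ee_add']
    ring
  have hsum : ∀ g ∈ D.divisors, ∀ j : ℕ, Summable fun p : a × b =>
      Φ g (nx p.1) * Φ g (ny p.2) * ee (j * (((nx p.1 : ℂ) + ny p.2) / D)) *
        (A p.1 * B p.2) := by
    intro g hg j
    refine Summable.of_norm (Summable.of_nonneg_of_le (fun _ => norm_nonneg _) (fun p => ?_) hAB)
    have e3 : ‖ee (j * (((nx p.1 : ℂ) + ny p.2) / D))‖ = 1 := by
      have := heen (nx p.1 + ny p.2) j
      push_cast at this
      exact this
    rw [norm_mul, norm_mul, norm_mul, e3, mul_one]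
    refine mul_le_of_le_one_left (norm_nonneg _) ?_
    exact mul_le_one₀ (hΦn g hg _) (norm_nonneg _) (hΦn g hg _)
  have hg1 : ∀ g ∈ D.divisors, (epsE D g (Ideal.absNorm a * Ideal.absNorm b) : ℂ) *
      ∑ j ∈ Finset.range (wid D g), thP D σ a (Φ g) k (u + j) * thlP D σ b (Φ g) r (u + j) =
      ((Y : ℂ) ^ r)⁻¹ * ∑' p : a × b, (epsE D g (Ideal.absNorm a * Ideal.absNorm b) : ℂ) *
        (Φ g (nx p.1) * Φ g (ny p.2) * ∑ j ∈ Finset.range (wid D g),
          ee (j * (((nx p.1 : ℂ) + ny p.2) / D))) * (A p.1 * B p.2) := by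
    intro g hg
    rw [Finset.sum_congr rfl (fun j _ => hprod g hg j), ← Finset.mul_sum,
      ← Summable.tsum_finsetSum (fun j _ => hsum g hg j), mul_left_comm, ← tsum_mul_left]
    congr 1
    refine tsum_congr fun p => ?_
    rw [Finset.mul_sum, Finset.mul_sum, Finset.mul_sum, Finset.sum_mul]
    refine Finset.sum_congr rfl fun j _ => ?_
    ring
  have hsum2 : ∀ g ∈ D.divisors, Summable fun p : a × b =>
      (epsE D g (Ideal.absNorm a * Ideal.absNorm b) : ℂ) *
        (Φ g (nx p.1) * Φ g (ny p.2) * ∑ j ∈ Finset.range (wid D g),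
          ee (j * (((nx p.1 : ℂ) + ny p.2) / D))) * (A p.1 * B p.2) := by
    intro g hg
    have := (summable_sum (fun j (_ : j ∈ Finset.range (wid D g)) => hsum g hg j)).mul_left
      (epsE D g (Ideal.absNorm a * Ideal.absNorm b) : ℂ)
    refine this.congr fun p => ?_
    rw [Finset.mul_sum, Finset.mul_sum, Finset.mul_sum, Finset.sum_mul]
    refine Finset.sum_congr rfl fun j _ => ?_
    ring
  rw [Finset.sum_congr rfl hg1, ← Finset.mul_sum, ← Summable.tsum_finsetSum hsum2]
  have hz : ∀ p : a × b, ∑ g ∈ D.divisors, (epsE D g (Ideal.absNorm a * Ideal.absNorm b) : ℂ) *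
        (Φ g (nx p.1) * Φ g (ny p.2) * ∑ j ∈ Finset.range (wid D g),
          ee (j * (((nx p.1 : ℂ) + ny p.2) / D))) * (A p.1 * B p.2) = 0 := by
    intro p
    rw [← Finset.sum_mul, coef_zero hd h1 ha hb hca hcb hΦ p.1.2 p.2.2
      (hnorm ha p.1 _ (hnx p.1)) (hnorm hb p.2 _ (hny p.2)), zero_mul]
  simp_rw [hz]
  simp

end RZ

end Pool.Agent.Lib.MP_7c08ba_nt
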