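import Mathlib
import Pool.Agent.Lib.MP_7c08ba_nt.RZ.StI
import Pool.Agent.Lib.MP_7c08ba_nt.RZ.RSptE
import Pool.Agent.Lib.MP_7c08ba_nt.RZ.RSptN

set_option autoImplicit false

/-!
Module I3 of RANK ZERO (the other half, even discriminants): the integrand of the Rankin–Selberg
integral as a sum over coprime pairs, for the product of a theta series and an Eisenstein series.
-/

namespace Pool.Agent.Lib.MP_7c08ba_nt

namespace RZ

open NumberField MeasureTheory UpperHalfPlane Set IsDedekindDomain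
open scoped MatrixGroups ComplexConjugate nonZeroDivisors

namespace RSptNEAux

open RSptDAux hiding partition one_coset main_sum
open RSptNAux hiding one_coset main_sum

variable {w : ℕ}

lemma one_coset (h1 : StEisBigQ) {D : ℕ} [NeZero D] (χ : DirichletCharacter ℂ D) (k r : ℕ)
    (Θ : ℂ → ℂ) (f : CuspForm 𝒮ℒ (w : ℤ)) {t : ℂ} (hw : w = k + 2 * r + 2)
    (hΘ : Wq D χ (k + 1) Θ) (hq : QC D χ)
    (ht : 1 / 2 - (r : ℝ) < t.re) {z : ℂ} (hz : 0 < z.im) :
    ∃ A : ℂ, HasSum (fun v : Cop => if (D : ℤ) ∣ v.1.1 then GN Θ f t (mob v.1 z) else 0) A ∧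
      Θ z * eis D χ r t z * f (ofComplex (-conj z)) *
        (z.im : ℂ) ^ w = 1 / 2 * DirichletCharacter.LFunction χ (2 * r + 1 + 2 * t) * A := by
  obtain ⟨hs, he⟩ := h1 D inferInstance χ r hq t z ht hz
  set X : Cop → ℂ := fun v => (((v.1.1 : ℂ) * z + v.1.2) ^ (2 * r + 1))⁻¹ *
    ((Complex.normSq ((v.1.1 : ℂ) * z + v.1.2) : ℝ) : ℂ) ^ (-t) with hX
  set Y : Cop → ℂ := fun v => (if (D : ℤ) ∣ v.1.1 then χ (v.1.2 : ℤ) else 0) *
    (((v.1.1 : ℂ) * z + v.1.2) ^ (2 * r + 1))⁻¹ *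
    ((Complex.normSq ((v.1.1 : ℂ) * z + v.1.2) : ℝ) : ℂ) ^ (-t) with hY
  have hYs : Summable Y := by
    refine Summable.of_norm_bounded hs fun v => ?_
    rw [hY]
    simp only
    rw [mul_assoc, norm_mul]
    refine mul_le_of_le_one_left (norm_nonneg _) ?_
    split_ifs
    · exact DirichletCharacter.norm_le_one χ _
    · simp
  set C : ℂ := Θ z * (z.im : ℂ) ^ t * f (ofComplex (-conj z)) * (z.im : ℂ) ^ w with hC
  refine ⟨C * ∑' v, Y v, ?_, ?_⟩
  · have h3 := hYs.hasSum.mul_left C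
    have h4 : (fun v => C * Y v) =
        fun v : Cop => if (D : ℤ) ∣ v.1.1 then GN Θ f t (mob v.1 z) else 0 :=
      funext fun v => term_eq χ k r Θ f t hw hΘ v hz
    rwa [h4] at h3
  · have h5 : (∑' v : Cop, (if (D : ℤ) ∣ v.1.1 then χ (v.1.2 : ℤ) else 0) *
        (((v.1.1 : ℂ) * z + v.1.2) ^ (2 * r + 1))⁻¹ *
        ((Complex.normSq ((v.1.1 : ℂ) * z + v.1.2) : ℝ) : ℂ) ^ (-t) *
          (z.im : ℂ) ^ t) = (∑' v, Y v) * (z.im : ℂ) ^ t := by
      rw [← tsum_mul_right]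
    rw [he, h5, hC]
    ring

lemma main_sum (h1 : StEisBigQ) {D : ℕ} [NeZero D] (χ : DirichletCharacter ℂ D) (k r : ℕ)
    (Θ : ℂ → ℂ) (f : CuspForm 𝒮ℒ (w : ℤ)) {t : ℂ} (hw : w = k + 2 * r + 2)
    (hΘ : Wq D χ (k + 1) Θ) (hD : EvD D) (hq : QC D χ)
    (ht : 1 / 2 - (r : ℝ) < t.re) {z : ℂ} (hz : 0 < z.im) :
    trE D w (fun u => Θ u * eis D χ r t u) z *
      f (ofComplex (-conj z)) * (z.im : ℂ) ^ w =
      1 / 2 * DirichletCharacter.LFunction χ (2 * r + 1 + 2 * t) *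
        ∑' v : Cop, GN Θ f t (mob v.1 z) := by
  have hone : ∀ g j : ℕ, ∃ A : ℂ,
      HasSum (fun v : Cop => if (D : ℤ) ∣ v.1.1 * (1 - g * j) + v.1.2 * g then
        GN Θ f t (mob v.1 z) else 0) A ∧
      ((1 - g * (z + j)) ^ w)⁻¹ * (Θ ((z + j) / (1 - g * (z + j))) *
        eis D χ r t ((z + j) / (1 - g * (z + j)))) * f (ofComplex (-conj z)) *
        (z.im : ℂ) ^ w = 1 / 2 * DirichletCharacter.LFunction χ (2 * r + 1 + 2 * t) * A := by
    intro g j
    obtain ⟨A, hA, hA2⟩ := one_coset h1 χ k r Θ f hw hΘ hq ht (im_ac_pos (sg g j) hz)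
    refine ⟨A, ?_, ?_⟩
    · have h3 : (fun v : Cop => if (D : ℤ) ∣ v.1.1 then GN Θ f t (mob v.1 (ac (sg g j) z)) else 0)
          = (fun v : Cop => if (D : ℤ) ∣ v.1.1 * (1 - g * j) + v.1.2 * g then
              GN Θ f t (mob v.1 z) else 0) ∘ (re (sg g j)) := by
        funext v
        have h4 : GN Θ f t (mob v.1 (ac (sg g j) z)) =
            GN Θ f t (mob (ra (sg g j) v).1 z) := by
          obtain ⟨n, hn⟩ := mob_ac (sg g j) v hz
          rw [hn]
          refine GN_int χ k Θ f t hΘ n ?_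
          rw [← ac_gm]
          exact im_ac_pos _ hz
        have h5 : ((ra (sg g j) v).1.1 * (1 - g * j) + (ra (sg g j) v).1.2 * g : ℤ) = v.1.1 := by
          have h6 := rb_ra (sg g j) v
          have h7 : (rb (sg g j) (ra (sg g j) v)).1.1 =
            (ra (sg g j) v).1.1 * (1 - g * j) - (ra (sg g j) v).1.2 * (-(g : ℤ)) := rfl
          rw [h6] at h7
          rw [h7]
          ring
        simp only [Function.comp_apply]
        change _ = if (D : ℤ) ∣ (ra (sg g j) v).1.1 * (1 - g * j) + (ra (sg g j) v).1.2 * g then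
          GN Θ f t (mob (ra (sg g j) v).1 z) else 0
        rw [h5, h4]
      rw [h3] at hA
      exact (Equiv.hasSum_iff (re (sg g j))).mp hA
    · rw [← hA2, ← ac_sg, fb_ac f _ hz, ← dn_sg]
      have hd0 : dn (sg g j) z ≠ 0 := dn_ne _ hz
      have hd1 : conj (dn (sg g j) z) ≠ 0 := by simpa using hd0
      have hN : ((Complex.normSq (dn (sg g j) z) : ℝ) : ℂ) =
          dn (sg g j) z * conj (dn (sg g j) z) := (Complex.mul_conj _).symm
      have h8 : (((ac (sg g j) z).im : ℝ) : ℂ) ^ w = (z.im : ℂ) ^ w *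
          ((dn (sg g j) z ^ w)⁻¹ * (conj (dn (sg g j) z) ^ w)⁻¹) := by
        rw [im_ac _ hz, Complex.ofReal_div, hN, div_pow, mul_pow, div_eq_mul_inv, mul_inv]
      have h9 : conj (dn (sg g j) z) ^ w * (conj (dn (sg g j) z) ^ w)⁻¹ = 1 :=
        mul_inv_cancel₀ (pow_ne_zero _ hd1)
      rw [h8]
      linear_combination (-((dn (sg g j) z ^ w)⁻¹ * (Θ (ac (sg g j) z) *
        eis D χ r t (ac (sg g j) z)) * f (ofComplex (-conj z)) *
        (z.im : ℂ) ^ w)) * h9
  choose A hA hA2 using hone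
  have h10 : HasSum (fun v : Cop => ∑ g ∈ D.divisors, ∑ j ∈ Finset.range (wid D g),
      (if (D : ℤ) ∣ v.1.1 * (1 - g * j) + v.1.2 * g then GN Θ f t (mob v.1 z) else 0))
      (∑ g ∈ D.divisors, ∑ j ∈ Finset.range (wid D g), A g j) :=
    hasSum_sum fun g _ => hasSum_sum fun j _ => hA g j
  have h11 : (fun v : Cop => ∑ g ∈ D.divisors, ∑ j ∈ Finset.range (wid D g),
      (if (D : ℤ) ∣ v.1.1 * (1 - g * j) + v.1.2 * g then GN Θ f t (mob v.1 z) else 0)) =
      fun v : Cop => GN Θ f t (mob v.1 z) := by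
    funext v
    have h12 := RSptEAux.partition hD v
    calc ∑ g ∈ D.divisors, ∑ j ∈ Finset.range (wid D g),
          (if (D : ℤ) ∣ v.1.1 * (1 - g * j) + v.1.2 * g then GN Θ f t (mob v.1 z) else 0)
        = (∑ g ∈ D.divisors, ∑ j ∈ Finset.range (wid D g),
          (if (D : ℤ) ∣ v.1.1 * (1 - g * j) + v.1.2 * g then (1 : ℂ) else 0)) *
            GN Θ f t (mob v.1 z) := by
          rw [Finset.sum_mul]
          refine Finset.sum_congr rfl fun g _ => ?_
          rw [Finset.sum_mul]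
          refine Finset.sum_congr rfl fun j _ => ?_
          split_ifs
          · rw [one_mul]
          · rw [zero_mul]
      _ = GN Θ f t (mob v.1 z) := by rw [h12, one_mul]
  rw [h11] at h10
  rw [h10.tsum_eq, Finset.mul_sum]
  unfold trE
  rw [Finset.sum_mul, Finset.sum_mul]
  refine Finset.sum_congr rfl fun g _ => ?_
  rw [Finset.sum_mul, Finset.sum_mul, Finset.mul_sum]
  refine Finset.sum_congr rfl fun j _ => ?_
  exact hA2 g j

end RSptNEAux

open RSptNEAux in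
/-- (I3) -/
theorem stRSptNE (h1 : StEisBigQ) (h2 : StThGE) : StRSptNE := by
  intro D hN F hF hNF s σ χ cj w k r f ψ c hD hk hw t z ht hz
  have hΘ : Wq D χ (k + 1) (thψ k ψ c) := by
    intro g u hu hg
    unfold thψ
    have h5 : ∀ A : ClassGroup (𝓞 F), th σ (c.R A : Ideal (𝓞 F)) k
        (((g 0 0 : ℂ) * u + g 0 1) / ((g 1 0 : ℂ) * u + g 1 1)) =
        χ (g 1 1 : ℤ) * ((g 1 0 : ℂ) * u + g 1 1) ^ (k + 1) *
          th σ (c.R A : Ideal (𝓞 F)) k u := fun A =>
      h2 D F hF hNF s σ χ cj (c.R A : Ideal (𝓞 F)) k hD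
        (nonZeroDivisors.coe_ne_zero (c.R A)) hk g u hu hg
    simp only [h5]
    have h6 : ∀ X Y : ℂ, X * (1 / 2 * Y) = 1 / 2 * (X * Y) := fun X Y => by ring
    rw [h6]
    congr 1
    rw [Finset.mul_sum]
    refine Finset.sum_congr rfl fun A _ => ?_
    ring
  exact main_sum h1 χ k r (thψ k ψ c) f hw hΘ hD.ev hD.qc ht hz

end RZ

end Pool.Agent.Lib.MP_7c08ba_nt
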