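import Mathlib
import Pool.Agent.Lib.MP_7c08ba_nt.RZ.StI

set_option autoImplicit false

/-!
The trace of the product of the theta series of the Hecke character and of the Eisenstein series
is zero at `t = -r`, even discriminants (module RZ-Tr0E).
-/

namespace Pool.Agent.Lib.MP_7c08ba_nt

namespace RZ

open NumberField MeasureTheory UpperHalfPlane Set IsDedekindDomain
open scoped MatrixGroups ComplexConjugate nonZeroDivisors

namespace Tr0Em

theorem epsE_mul (D g a b : ℕ) : epsE D g (a * b) = epsE D g a * epsE D g b := by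
  unfold epsE
  split_ifs
  · rw [Nat.cast_mul, jacobiSym.mul_left]
  · rw [Nat.cast_mul, jacobiSym.mul_left]

theorem ne_one {g : ℕ} (hg : 0 < g) {x : ℂ} (hx : 0 < x.im) : (1 - (g : ℂ) * x) ≠ 0 := by
  have hgR : (0 : ℝ) < g := by exact_mod_cast hg
  intro h
  have h1 := congrArg Complex.im h
  simp at h1
  rcases h1 with h1 | h1
  · exact absurd h1 (by positivity)
  · exact absurd h1 hx.ne'

theorem im_pos {g : ℕ} (hg : 0 < g) {x : ℂ} (hx : 0 < x.im) : 0 < (x / (1 - g * x)).im := by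
  have e1 := ne_one hg hx
  rw [Complex.div_im]
  have h1 : 0 < Complex.normSq (1 - g * x) := Complex.normSq_pos.2 e1
  have h2 : x.im * (1 - (g : ℂ) * x).re / Complex.normSq (1 - g * x) -
      x.re * (1 - (g : ℂ) * x).im / Complex.normSq (1 - g * x) =
      x.im / Complex.normSq (1 - g * x) := by
    rw [← sub_div]
    congr 1
    simp
    ring
  rw [h2]
  positivity

end Tr0Em

open Tr0Em

/-- (I11) -/
theorem stTr0E (h1 : StThlE) (h2 : StPair0E) (h3 : StEisThE) : StTr0E := by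
  intro D _ F _ _ s σ χ cj w k r ψ c hD hk hw hc u hu
  obtain ⟨ε, -, heis⟩ := h3 D inferInstance F inferInstance inferInstance s σ χ cj c hD
  obtain ⟨-, hthl⟩ := h1 D F inferInstance inferInstance s σ χ cj hD
  choose Φ₀ hΦ₀ using hthl
  classical
  let Φ : ℕ → ℤ → ℂ := fun g => if hg : g ∣ D then Φ₀ g hg else 0
  have hΦ : ∀ (g : ℕ) (hg : g ∣ D), Φ g = Φ₀ g hg := fun g hg => dif_pos hg
  have hD0 : D ≠ 0 := NeZero.ne D
  set K : ℂ := 1 / 2 * (ε * (Real.pi / Real.sqrt D)) with hK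
  have hR0 : ∀ A, (c.R A : Ideal (𝓞 F)) ≠ ⊥ := fun A => nonZeroDivisors.coe_ne_zero (c.R A)
  -- the product of the two series
  have hprod : ∀ v : ℂ, 0 < v.im → HN D χ k r ψ c (-r) v =
      K * ∑ A : ClassGroup (𝓞 F), ∑ B : ClassGroup (𝓞 F), (ψ (c.R A : Ideal (𝓞 F)))⁻¹ *
        (th σ (c.R A : Ideal (𝓞 F)) k v * thl σ (c.R B : Ideal (𝓞 F)) r v) := by
    intro v hv
    unfold HN thψ
    rw [heis r v hv, hK]
    have e : (∑ A : ClassGroup (𝓞 F), (ψ (c.R A : Ideal (𝓞 F)))⁻¹ *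
          th σ (c.R A : Ideal (𝓞 F)) k v) * (∑ B : ClassGroup (𝓞 F),
            thl σ (c.R B : Ideal (𝓞 F)) r v) =
        ∑ A : ClassGroup (𝓞 F), ∑ B : ClassGroup (𝓞 F), (ψ (c.R A : Ideal (𝓞 F)))⁻¹ *
        (th σ (c.R A : Ideal (𝓞 F)) k v * thl σ (c.R B : Ideal (𝓞 F)) r v) := by
      rw [Finset.sum_mul_sum]
      refine Finset.sum_congr rfl fun A _ => Finset.sum_congr rfl fun B _ => ?_
      ring
    rw [← e]
    ring
  -- the sum over one cusp
  have hcusp : ∀ g ∈ D.divisors, ∑ j ∈ Finset.range (wid D g),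
      ((1 - g * (u + j)) ^ w)⁻¹ * HN D χ k r ψ c (-r) ((u + j) / (1 - g * (u + j))) =
      K * ∑ A : ClassGroup (𝓞 F), ∑ B : ClassGroup (𝓞 F), (ψ (c.R A : Ideal (𝓞 F)))⁻¹ *
        ((epsE D g (Ideal.absNorm (c.R A : Ideal (𝓞 F)) *
          Ideal.absNorm (c.R B : Ideal (𝓞 F))) : ℂ) *
          ∑ j ∈ Finset.range (wid D g), thP D σ (c.R A : Ideal (𝓞 F)) (Φ g) k (u + j) *
            thlP D σ (c.R B : Ideal (𝓞 F)) (Φ g) r (u + j)) := by
    intro g hg
    have hgD : g ∣ D := Nat.dvd_of_mem_divisors hg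
    have hg0 : 0 < g := Nat.pos_of_mem_divisors hg
    obtain ⟨-, hth, hthl⟩ := hΦ₀ g hgD
    rw [hΦ g hgD]
    have hterm : ∀ j : ℕ, ((1 - g * (u + j)) ^ w)⁻¹ *
        HN D χ k r ψ c (-r) ((u + j) / (1 - g * (u + j))) =
        K * ∑ A : ClassGroup (𝓞 F), ∑ B : ClassGroup (𝓞 F), (ψ (c.R A : Ideal (𝓞 F)))⁻¹ *
          ((epsE D g (Ideal.absNorm (c.R A : Ideal (𝓞 F)) *
            Ideal.absNorm (c.R B : Ideal (𝓞 F))) : ℂ) *
            (thP D σ (c.R A : Ideal (𝓞 F)) (Φ₀ g hgD) k (u + j) *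
              thlP D σ (c.R B : Ideal (𝓞 F)) (Φ₀ g hgD) r (u + j))) := by
      intro j
      have hv : 0 < (u + (j : ℂ)).im := by simpa using hu
      have e1 := ne_one hg0 hv
      have hz := im_pos hg0 hv
      rw [hprod _ hz, mul_left_comm, Finset.mul_sum]
      congr 1
      refine Finset.sum_congr rfl fun A _ => ?_
      rw [Finset.mul_sum]
      refine Finset.sum_congr rfl fun B _ => ?_
      rw [hth _ k _ (hR0 A) (hc A) hk hv, hthl _ r _ (hR0 B) (hc B) hv, epsE_mul]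
      have hpow : (1 - (g : ℂ) * (u + (j : ℂ))) ^ w =
          (1 - g * (u + (j : ℂ))) ^ (k + 1) * (1 - g * (u + (j : ℂ))) ^ (2 * r + 1) := by
        rw [← pow_add]
        congr 1
        omega
      rw [hpow]
      have p1 := pow_ne_zero (k + 1) e1
      have p2 := pow_ne_zero (2 * r + 1) e1
      push_cast
      field_simp
    rw [Finset.sum_congr rfl fun (j : ℕ) _ => hterm j, ← Finset.mul_sum, Finset.sum_comm]
    congr 1
    refine Finset.sum_congr rfl fun A _ => ?_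
    rw [Finset.sum_comm]
    refine Finset.sum_congr rfl fun B _ => ?_
    rw [← Finset.mul_sum, ← Finset.mul_sum]
  unfold trE
  rw [Finset.sum_congr rfl hcusp, ← Finset.mul_sum, Finset.sum_comm]
  have hz : ∀ A : ClassGroup (𝓞 F), ∑ g ∈ D.divisors, ∑ B : ClassGroup (𝓞 F),
      (ψ (c.R A : Ideal (𝓞 F)))⁻¹ *
        ((epsE D g (Ideal.absNorm (c.R A : Ideal (𝓞 F)) *
          Ideal.absNorm (c.R B : Ideal (𝓞 F))) : ℂ) *
          ∑ j ∈ Finset.range (wid D g), thP D σ (c.R A : Ideal (𝓞 F)) (Φ g) k (u + j) *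
            thlP D σ (c.R B : Ideal (𝓞 F)) (Φ g) r (u + j)) = 0 := by
    intro A
    rw [Finset.sum_comm]
    refine Finset.sum_eq_zero fun B _ => ?_
    rw [← Finset.mul_sum, h2 D F inferInstance inferInstance s σ χ cj hD _ _ Φ k r u (hR0 A)
      (hR0 B) (hc A) (hc B) (fun g hg => by rw [hΦ g hg]; exact (hΦ₀ g hg).1) hu, mul_zero]
  rw [Finset.sum_eq_zero fun A _ => hz A, mul_zero]

end RZ

end Pool.Agent.Lib.MP_7c08ba_nt
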