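import Mathlib
import Pool.Agent.Lib.MP_7c08ba_nt.RZ.AllE
import Pool.Agent.Lib.MP_7c08ba_nt.RZ.HNE
import Pool.Agent.Lib.MP_7c08ba_nt.RZ.RSanNE
import Pool.Agent.Lib.MP_7c08ba_nt.RZ.RSptNE
import Pool.Agent.Lib.MP_7c08ba_nt.RZ.ThPsiNE
import Pool.Agent.Lib.MP_7c08ba_nt.RZ.RSNE
import Pool.Agent.Lib.MP_7c08ba_nt.RZ.DnNE
import Pool.Agent.Lib.MP_7c08ba_nt.RZ.EulQNE
import Pool.Agent.Lib.MP_7c08ba_nt.RZ.EulNE
import Pool.Agent.Lib.MP_7c08ba_nt.RZ.SgnE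
import Pool.Agent.Lib.MP_7c08ba_nt.RZ.Pair0E
import Pool.Agent.Lib.MP_7c08ba_nt.RZ.Tr0E
import Pool.Agent.Lib.MP_7c08ba_nt.RZ.MainNE

set_option autoImplicit false

/-!
Assembly of the modules for `k < w`, even discriminants: StMainNE.
-/

namespace Pool.Agent.Lib.MP_7c08ba_nt

namespace RZ

theorem aHNE : StHNE := stHNE aThBE aThlE aThGE aEisAQ aEisLawQ

theorem aRSanNE : StRSanNE := stRSanNE aHNE aHol aFd aCoef

theorem aRSptNE : StRSptNE := stRSptNE aEisBigQ aThGE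

theorem aThPsiNE : StThPsiNE := stThPsiNE aIdSumE aBasE aThBE aPsiE aCountE aThPsiE

theorem aRSNE : StRSNE := stRSNE aRSptNE aUnf aStrip aThPsiNE aThBE aCoef aPsiE

theorem aDnNE : StDnNE := stDnNE aCoef aThPsiNE aRepsE

theorem aEulQNE : StEulQNE := stEulQNE aDnNE aBmulE aSplitE aLocal aCoef

theorem aEulNE : StEulNE := stEulNE aEulQNE aSplitE aCoef aPsiE aW12

theorem aSgnE : StSgnE := stSgnE aBasE aSplitE

theorem aPair0E : StPair0E := stPair0E aSgnE aThBE aBasE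

theorem aTr0E : StTr0E := stTr0E aThlE aPair0E aEisThE

theorem aMainNE : StMainNE := stMainNE aChiE aTr0E aRSanNE aRSNE aDnNE aEulNE aW12 aRepsE aPsiE

end RZ

end Pool.Agent.Lib.MP_7c08ba_nt
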