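import Pool.Agent.Lib.MP_7c08ba_nt.RZ.StB

set_option autoImplicit false

/-! (B2) the class number is odd, and there are representatives prime to `s` (helper65). -/

namespace Pool.Agent.Lib.MP_7c08ba_nt

namespace RZ

open NumberField MeasureTheory UpperHalfPlane Set
open scoped MatrixGroups ComplexConjugate nonZeroDivisors

namespace RepsAux

variable {F : Type} [Field F] [NumberField F]

/-- the facts about the field which are used -/
structure Ar (q : ℕ) (s : 𝓞 F) (cj : 𝓞 F ≃+* 𝓞 F) : Prop where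
  q2 : q % 4 = 3
  sq : s ^ 2 = -(q : 𝓞 F)
  co : ∀ x : 𝓞 F, ∃ a b : ℤ, 2 * x = a + b * s ∧ (2 : ℤ) ∣ a - b
  inv : ∀ x, cj (cj x) = x
  cjs : cj s = -s
  dif : ∀ x, s ∣ x - cj x
  nrm : ∀ x, x * cj x = (Ideal.absNorm (Ideal.span {x}) : 𝓞 F)
  idl : ∀ a : Ideal (𝓞 F), a * a.map (cj : 𝓞 F →+* 𝓞 F) = Ideal.span {(Ideal.absNorm a : 𝓞 F)}
  prm : (Ideal.span {s}).IsPrime

variable {q : ℕ} {s : 𝓞 F} {cj : 𝓞 F ≃+* 𝓞 F}

theorem Ar.s0 (H : Ar q s cj) : s ≠ 0 := by
  intro h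
  have h1 := H.sq
  rw [h] at h1
  have h2 : (q : 𝓞 F) = 0 := by
    have : (0 : 𝓞 F) ^ 2 = 0 := by ring
    rw [this] at h1
    linear_combination h1
  have h3 : q = 0 := by exact_mod_cast h2
  have := H.q2
  omega

theorem two0 : (2 : 𝓞 F) ≠ 0 := two_ne_zero

/-- the element `(1 + s) / 2` -/
theorem Ar.om (H : Ar q s cj) : ∃ o : 𝓞 F, 2 * o = 1 + s := by
  obtain ⟨m, hm⟩ : ∃ m : ℕ, 1 + q = 4 * m := ⟨(1 + q) / 4, by have := H.q2; omega⟩
  have hs : ((s : 𝓞 F) : F) ^ 2 = -(q : F) := by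
    have := congrArg (algebraMap (𝓞 F) F) H.sq
    simpa using this
  have hi : IsIntegral ℤ ((1 + (s : F)) / 2) := by
    refine ⟨Polynomial.X ^ 2 - Polynomial.X + Polynomial.C (m : ℤ), ?_, ?_⟩
    · have : (Polynomial.X ^ 2 - Polynomial.X + Polynomial.C (m : ℤ) : Polynomial ℤ) =
          Polynomial.X ^ 2 + (-Polynomial.X + Polynomial.C (m : ℤ)) := by ring
      rw [this]
      apply Polynomial.monic_X_pow_add
      refine lt_of_le_of_lt (Polynomial.degree_add_le _ _) ?_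
      rw [Polynomial.degree_neg, Polynomial.degree_X]
      refine max_lt (by norm_num) (lt_of_le_of_lt Polynomial.degree_C_le (by norm_num))
    · have hm' : (1 : F) + q = 4 * m := by exact_mod_cast hm
      simp only [Polynomial.eval₂_add, Polynomial.eval₂_sub, Polynomial.eval₂_pow,
        Polynomial.eval₂_X, map_natCast, Polynomial.eval₂_natCast]
      linear_combination hs / 4 - hm' / 4
  refine ⟨⟨(1 + (s : F)) / 2, hi⟩, ?_⟩
  apply RingOfIntegers.ext
  push_cast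
  show 2 * ((1 + (s : F)) / 2) = 1 + (s : F)
  ring

/-- an even rational integer in the ring -/
theorem Ar.even (H : Ar q s cj) {z : 𝓞 F} {m : ℤ} (h : 2 * z = m) :
    ∃ m' : ℤ, m = 2 * m' ∧ z = m' := by
  obtain ⟨a, b, h1, h2⟩ := H.co z
  have h3 : (a : 𝓞 F) + b * s = m := by rw [← h1, h]
  have h4 : (a : 𝓞 F) - b * s = m := by
    have := congrArg cj h3
    simp only [map_add, map_mul, map_intCast, H.cjs] at this
    linear_combination this
  have h5 : (b : 𝓞 F) * s = 0 := by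
    have : (2 : 𝓞 F) * (b * s) = 2 * 0 := by linear_combination h3 - h4
    exact mul_left_cancel₀ two0 this
  have h6 : (b : 𝓞 F) = 0 := by
    rcases mul_eq_zero.1 h5 with h | h
    · exact h
    · exact absurd h H.s0
  have h7 : b = 0 := by exact_mod_cast h6
  subst h7
  have h8 : (a : 𝓞 F) = m := by rw [← h3]; simp
  have h9 : a = m := by exact_mod_cast h8
  subst h9
  obtain ⟨m', hm'⟩ : (2 : ℤ) ∣ a := by simpa using h2
  refine ⟨m', hm', ?_⟩
  apply mul_left_cancel₀ two0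
  rw [h, hm']
  push_cast
  ring

/-- a stable ideal prime to `s` is generated by a rational integer -/
theorem Ar.stable_coprime (H : Ar q s cj) {b : Ideal (𝓞 F)} (hb : b ≠ ⊥)
    (hst : ∀ x ∈ b, cj x ∈ b) (hc : IsCoprime b (Ideal.span {s})) :
    ∃ n : ℤ, b = Ideal.span {(n : 𝓞 F)} := by
  obtain ⟨o, ho⟩ := H.om
  obtain ⟨n, hn⟩ : ∃ n : ℤ, b.comap (Int.castRingHom (𝓞 F)) = Ideal.span {n} := by
    obtain ⟨n, hn⟩ := (IsPrincipalIdealRing.principal (b.comap (Int.castRingHom (𝓞 F)))).1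
    exact ⟨n, hn⟩
  have hmem : ∀ m : ℤ, (m : 𝓞 F) ∈ b → n ∣ m := by
    intro m hm
    have : m ∈ b.comap (Int.castRingHom (𝓞 F)) := by
      rw [Ideal.mem_comap]; simpa using hm
    rw [hn, Ideal.mem_span_singleton] at this
    exact this
  have hnb : (n : 𝓞 F) ∈ b := by
    have : n ∈ b.comap (Int.castRingHom (𝓞 F)) := by
      rw [hn]; exact Ideal.mem_span_singleton_self n
    rw [Ideal.mem_comap] at this
    simpa using this
  have hn0 : n ≠ 0 := by
    rintro rfl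
    have h1 : ((Ideal.absNorm b : ℤ) : 𝓞 F) ∈ b := by
      have := Ideal.absNorm_mem b
      exact_mod_cast this
    have h2 := hmem _ h1
    rw [zero_dvd_iff] at h2
    have h3 : Ideal.absNorm b = 0 := by exact_mod_cast h2
    exact hb (Ideal.absNorm_eq_zero_iff.1 h3)
  have hn0' : (n : 𝓞 F) ≠ 0 := by exact_mod_cast hn0
  refine ⟨n, le_antisymm ?_ ?_⟩
  · intro x hx
    rw [Ideal.mem_span_singleton]
    obtain ⟨a, c, h1, h2⟩ := H.co x
    have hcx : cj x ∈ b := hst x hx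
    have h1' : 2 * cj x = a - c * s := by
      have := congrArg cj h1
      simp only [map_add, map_mul, map_intCast, H.cjs, map_ofNat] at this
      linear_combination this
    have h3 : x - cj x = c * s := by
      apply mul_left_cancel₀ two0
      linear_combination h1 - h1'
    have h4 : x + cj x = a := by
      apply mul_left_cancel₀ two0
      linear_combination h1 + h1'
    have ha : (a : 𝓞 F) ∈ b := by rw [← h4]; exact b.add_mem hx hcx
    have hcb : (c : 𝓞 F) ∈ b := by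
      have h5 : x - cj x ∈ b * Ideal.span {s} := by
        rw [Ideal.mul_eq_inf_of_isCoprime hc]
        exact ⟨b.sub_mem hx hcx, Ideal.mem_span_singleton.2 (H.dif x)⟩
      obtain ⟨y, hy, hys⟩ := Ideal.mem_mul_span_singleton.1 h5
      have : y = c := mul_right_cancel₀ H.s0 (hys.trans h3)
      rwa [← this]
    obtain ⟨a1, rfl⟩ := hmem a ha
    obtain ⟨c1, rfl⟩ := hmem c hcb
    rcases Int.even_or_odd (a1 - c1) with he | ho'
    · obtain ⟨d, hd⟩ := he
      refine ⟨d + c1 * o, ?_⟩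
      apply mul_left_cancel₀ two0
      have hd' : (a1 : 𝓞 F) = c1 + 2 * d := by
        have : a1 = c1 + 2 * d := by omega
        rw [this]; push_cast; ring
      push_cast at h1
      rw [h1, hd']
      linear_combination (-(n : 𝓞 F) * c1) * ho
    · exfalso
      have h5 : 2 * (x * (a1 - c1 * s)) = ((n * (a1 ^ 2 + q * c1 ^ 2) : ℤ) : 𝓞 F) := by
        push_cast at h1 ⊢
        linear_combination (a1 - c1 * s : 𝓞 F) * h1 - (n : 𝓞 F) * c1 ^ 2 * H.sq
      obtain ⟨m', hm', hz⟩ := H.even h5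
      have h6 : (m' : 𝓞 F) ∈ b := by
        rw [← hz]; exact b.mul_mem_right _ hx
      obtain ⟨k, hk⟩ := hmem m' h6
      have h7 : n * (a1 ^ 2 + q * c1 ^ 2) = n * (2 * k) := by rw [hm', hk]; ring
      have h8 := mul_left_cancel₀ hn0 h7
      have hq : Odd (q : ℤ) := by
        have := H.q2
        exact ⟨(q / 2 : ℕ), by omega⟩
      have h9 : Even (a1 ^ 2 + q * c1 ^ 2) := by rw [h8]; exact even_two_mul k
      rw [Int.even_add, Int.even_mul, Int.even_pow' two_ne_zero, Int.even_pow' two_ne_zero] at h9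
      rw [Int.odd_sub] at ho'
      have hq' : ¬ Even (q : ℤ) := Int.not_even_iff_odd.2 hq
      have h10 : ¬ Odd a1 ↔ Odd c1 := by
        rw [Int.not_odd_iff_even]
        constructor
        · intro h; by_contra h'
          have := ho'.2 (Int.not_odd_iff_even.1 h')
          exact absurd h (Int.not_even_iff_odd.2 this)
        · intro h; by_contra h'
          have := ho'.1 (Int.not_even_iff_odd.1 h')
          exact absurd this (Int.not_even_iff_odd.2 h)
      rcases Int.even_or_odd a1 with h | h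
      · have h11 := h9.1 h
        rcases h11 with h12 | h12
        · exact hq' h12
        · have := h10.1 (Int.not_odd_iff_even.2 h)
          exact (Int.not_even_iff_odd.2 this) h12
      · have h11 : Even c1 := ho'.1 h
        have := h9.2 (Or.inr h11)
        exact (Int.not_even_iff_odd.2 h) this
  · rw [Ideal.span_singleton_le_iff_mem]
    exact hnb

theorem map_stable {b : Ideal (𝓞 F)} (h : b.map (cj : 𝓞 F →+* 𝓞 F) = b) :
    ∀ x ∈ b, cj x ∈ b := by
  intro x hx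
  rw [← h]
  exact Ideal.mem_map_of_mem (cj : 𝓞 F →+* 𝓞 F) hx

theorem Ar.span0 (H : Ar q s cj) : Ideal.span {s} ≠ (⊥ : Ideal (𝓞 F)) := by
  rw [Ne, Ideal.span_singleton_eq_bot]
  exact H.s0

theorem Ar.coprime (H : Ar q s cj) {b : Ideal (𝓞 F)} (h : ¬ Ideal.span {s} ∣ b) :
    IsCoprime b (Ideal.span {s}) := by
  have hm : (Ideal.span {s}).IsMaximal := H.prm.isMaximal H.span0
  rw [Ideal.isCoprime_iff_sup_eq]
  have h1 : ¬ b ≤ Ideal.span {s} := fun hle => h (Ideal.dvd_iff_le.2 hle)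
  have h2 : Ideal.span {s} < b ⊔ Ideal.span {s} := by
    refine lt_of_le_of_ne le_sup_right fun he => h1 ?_
    rw [he]; exact le_sup_left
  exact hm.1.2 _ h2

/-- every ideal is a power of `(s)` times an ideal prime to `(s)` -/
theorem Ar.split (H : Ar q s cj) {b : Ideal (𝓞 F)} (hb : b ≠ ⊥) :
    ∃ (i : ℕ) (c : Ideal (𝓞 F)), b = Ideal.span {s} ^ i * c ∧ IsCoprime c (Ideal.span {s}) := by
  have hf : FiniteMultiplicity (Ideal.span {s}) b := by
    apply FiniteMultiplicity.of_not_isUnit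
    · rw [Ideal.isUnit_iff]; exact H.prm.ne_top
    · exact hb
  obtain ⟨c, hc, hn⟩ := hf.exists_eq_pow_mul_and_not_dvd
  exact ⟨_, c, hc, H.coprime hn⟩

theorem Ar.map_span_s (H : Ar q s cj) :
    (Ideal.span {s}).map (cj : 𝓞 F →+* 𝓞 F) = Ideal.span {s} := by
  rw [Ideal.map_span, Set.image_singleton]
  show Ideal.span {cj s} = _
  rw [H.cjs, Ideal.span_singleton_neg]

/-- a stable ideal is principal -/
theorem Ar.stable (H : Ar q s cj) {b : Ideal (𝓞 F)} (hb : b ≠ ⊥)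
    (hst : b.map (cj : 𝓞 F →+* 𝓞 F) = b) : ∃ x : 𝓞 F, b = Ideal.span {x} := by
  obtain ⟨i, c, rfl, hc⟩ := H.split hb
  have hs : Ideal.span {s} ^ i ≠ (⊥ : Ideal (𝓞 F)) := pow_ne_zero i H.span0
  have h1 : c.map (cj : 𝓞 F →+* 𝓞 F) = c := by
    rw [Ideal.map_mul, Ideal.map_pow, H.map_span_s] at hst
    exact mul_left_cancel₀ hs hst
  have hc0 : c ≠ ⊥ := by
    rintro rfl
    exact hb (by rw [Ideal.mul_bot])
  obtain ⟨n, hn⟩ := H.stable_coprime hc0 (map_stable h1) hc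
  exact ⟨s ^ i * n, by rw [hn, Ideal.span_singleton_pow, Ideal.span_singleton_mul_span_singleton]⟩

/-- an ideal whose square is principal is principal -/
theorem Ar.sq_principal (H : Ar q s cj) {I : Ideal (𝓞 F)} (hI : I ≠ ⊥) {x : 𝓞 F}
    (hx : I * I = Ideal.span {x}) : I.IsPrincipal := by
  set N := Ideal.absNorm I with hN
  have hN0 : N ≠ 0 := fun h => hI (Ideal.absNorm_eq_zero_iff.1 h)
  have hN0' : (N : 𝓞 F) ≠ 0 := by exact_mod_cast hN0
  -- choice of the sign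
  obtain ⟨y, hy, hg⟩ : ∃ y : 𝓞 F, I * I = Ideal.span {y} ∧ (N : 𝓞 F) + y ≠ 0 := by
    by_cases h : (N : 𝓞 F) + x = 0
    · refine ⟨-x, by rw [Ideal.span_singleton_neg, hx], ?_⟩
      intro h'
      apply hN0'
      apply mul_left_cancel₀ two0
      linear_combination h + h'
    · exact ⟨x, hx, h⟩
  have hyy : y * cj y = (N : 𝓞 F) ^ 2 := by
    rw [H.nrm, ← hy, map_mul]
    push_cast
    rw [← hN]
    ring
  set g := (N : 𝓞 F) + y with hgd
  have hcg : cj g = N + cj y := by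
    rw [hgd, map_add, map_natCast]
  have hcg0 : cj g ≠ 0 := by
    intro h
    apply hg
    have := congrArg cj h
    rwa [H.inv, map_zero] at this
  have hk : y * cj g = N * g := by
    rw [hcg, hgd]
    linear_combination hyy
  have hb0 : I * Ideal.span {cj g} ≠ ⊥ := by
    intro h
    rcases mul_eq_zero.1 (show I * Ideal.span {cj g} = 0 from h) with h | h
    · exact hI h
    · exact hcg0 (Ideal.span_singleton_eq_bot.1 h)
  have hst : (I * Ideal.span {cj g}).map (cj : 𝓞 F →+* 𝓞 F) = I * Ideal.span {cj g} := by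
    have e1 : (Ideal.span {cj g}).map (cj : 𝓞 F →+* 𝓞 F) = Ideal.span {g} := by
      rw [Ideal.map_span, Set.image_singleton]
      show Ideal.span {cj (cj g)} = _
      rw [H.inv]
    rw [Ideal.map_mul, e1]
    apply mul_left_cancel₀ (show I ≠ 0 from hI)
    rw [← mul_assoc, H.idl, ← mul_assoc, hy, Ideal.span_singleton_mul_span_singleton,
      Ideal.span_singleton_mul_span_singleton, hk]
  obtain ⟨z, hz⟩ := H.stable hb0 hst
  have hI' : I ∈ (Ideal (𝓞 F))⁰ := mem_nonZeroDivisors_iff_ne_zero.2 hI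
  have hG' : Ideal.span {cj g} ∈ (Ideal (𝓞 F))⁰ :=
    mem_nonZeroDivisors_iff_ne_zero.2 (fun h => hcg0 (Ideal.span_singleton_eq_bot.1 h))
  rw [← ClassGroup.mk0_eq_one_iff hI']
  have h1 : ClassGroup.mk0 ((⟨I, hI'⟩ : (Ideal (𝓞 F))⁰) * ⟨Ideal.span {cj g}, hG'⟩) = 1 := by
    rw [Submonoid.mk_mul_mk, ClassGroup.mk0_eq_one_iff, hz]
    exact ⟨⟨z, rfl⟩⟩
  have h2 : ClassGroup.mk0 (⟨Ideal.span {cj g}, hG'⟩ : (Ideal (𝓞 F))⁰) = 1 := by
    rw [ClassGroup.mk0_eq_one_iff]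
    exact ⟨⟨cj g, rfl⟩⟩
  rw [map_mul, h2, mul_one] at h1
  exact h1

theorem Ar.odd (H : Ar q s cj) : Odd (Nat.card (ClassGroup (𝓞 F))) := by
  by_contra hodd
  rw [Nat.not_odd_iff_even] at hodd
  haveI : Fact (Nat.Prime 2) := ⟨Nat.prime_two⟩
  obtain ⟨A, hA⟩ := exists_prime_orderOf_dvd_card' (G := ClassGroup (𝓞 F)) 2
    (even_iff_two_dvd.1 hodd)
  obtain ⟨⟨I, hI⟩, rfl⟩ := ClassGroup.mk0_surjective A
  have hI0 : I ≠ ⊥ := mem_nonZeroDivisors_iff_ne_zero.1 hI
  have h1 : ClassGroup.mk0 (⟨I, hI⟩ : (Ideal (𝓞 F))⁰) ^ 2 = 1 := by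
    rw [← hA]; exact pow_orderOf_eq_one _
  have h2 : ClassGroup.mk0 ((⟨I, hI⟩ : (Ideal (𝓞 F))⁰) * ⟨I, hI⟩) = 1 := by
    rw [map_mul, ← pow_two]; exact h1
  rw [Submonoid.mk_mul_mk, ClassGroup.mk0_eq_one_iff] at h2
  obtain ⟨⟨x, hx⟩⟩ := h2
  have h3 := H.sq_principal hI0 (x := x) hx
  have h4 : ClassGroup.mk0 (⟨I, hI⟩ : (Ideal (𝓞 F))⁰) = 1 :=
    (ClassGroup.mk0_eq_one_iff hI).2 h3
  rw [h4, orderOf_one] at hA
  exact absurd hA (by norm_num)

/-- representatives prime to `s` -/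
theorem Ar.rep (H : Ar q s cj) (A : ClassGroup (𝓞 F)) : ∃ b : (Ideal (𝓞 F))⁰,
    ClassGroup.mk0 b = A ∧ IsCoprime (b : Ideal (𝓞 F)) (Ideal.span {s}) := by
  obtain ⟨⟨I, hI⟩, rfl⟩ := ClassGroup.mk0_surjective A
  have hI0 : I ≠ ⊥ := mem_nonZeroDivisors_iff_ne_zero.1 hI
  obtain ⟨i, c, hIc, hc⟩ := H.split hI0
  have hc0 : c ≠ ⊥ := by
    rintro rfl
    exact hI0 (by rw [hIc, Ideal.mul_bot])
  have hc' : c ∈ (Ideal (𝓞 F))⁰ := mem_nonZeroDivisors_iff_ne_zero.2 hc0
  refine ⟨⟨c, hc'⟩, ?_, hc⟩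
  rw [ClassGroup.mk0_eq_mk0_iff]
  refine ⟨s ^ i, 1, pow_ne_zero i H.s0, one_ne_zero, ?_⟩
  simp only [Ideal.span_singleton_one, Ideal.top_mul, hIc, Ideal.span_singleton_pow]

end RepsAux

open RepsAux

theorem stReps (h : StBas) (h2 : StBase) : StReps := by
  intro q F _ _ s σ χ cj D
  obtain ⟨b1, b2, b3, b4, b5, b6, b7, b8, b9, b10, b11⟩ := h q F _ _ s σ χ cj D
  obtain ⟨c1, -⟩ := h2 q F _ _ s σ χ cj D
  have H : Ar q s cj := ⟨by have := D.mod; omega, D.sq, b1, b2, b3, b4, b5, b7, b9⟩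
  refine ⟨H.odd, ?_⟩
  choose R hR hR2 using H.rep
  have hb : ∀ A, ∃ xy : 𝓞 F × 𝓞 F, OBasis σ (R A : Ideal (𝓞 F)) xy.1 xy.2 := by
    intro A
    obtain ⟨x, y, hxy⟩ := c1 (R A : Ideal (𝓞 F)) (mem_nonZeroDivisors_iff_ne_zero.1 (R A).2)
    exact ⟨(x, y), hxy⟩
  choose xy hxy using hb
  exact ⟨⟨R, fun A => (xy A).1, fun A => (xy A).2, hR, hxy⟩, hR2⟩

end RZ

end Pool.Agent.Lib.MP_7c08ba_nt
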