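import Mathlib

set_option autoImplicit false

/-!
Project RZ, part (C): the CM period is a 2-adic unit.  Definitions and statements of the modules.
Blueprint: team store `rz_blueprint_C.md`.
-/

namespace Pool.Agent.Lib.MP_7c08ba_nt.RZC

open UpperHalfPlane ModularForm EisensteinSeries MatrixGroups NumberField
open scoped Real Manifold ComplexConjugate

noncomputable section

/-! ### basic definitions -/

/-- the homogeneous function of weight `k` on oriented pairs attached to `F : ℍ → ℂ` -/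
def LF (k : ℕ) (F : ℍ → ℂ) (w₁ w₂ : ℂ) : ℂ := (w₂ ^ k)⁻¹ * F (ofComplex (w₁ / w₂))

/-- oriented pairs -/
def Pos (w₁ w₂ : ℂ) : Prop := 0 < (w₁ / w₂).im

/-- the lattice generated by a pair -/
def lat (w₁ w₂ : ℂ) : Submodule ℤ ℂ := Submodule.span ℤ {w₁, w₂}

abbrev e4 (w₁ w₂ : ℂ) : ℂ := LF 4 (E₄ : ℍ → ℂ) w₁ w₂
abbrev e6 (w₁ w₂ : ℂ) : ℂ := LF 6 (E₆ : ℍ → ℂ) w₁ w₂
abbrev dl (w₁ w₂ : ℂ) : ℂ := LF 12 discriminant w₁ w₂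

/-- `1/j` of the lattice -/
def jv (w₁ w₂ : ℂ) : ℂ := dl w₁ w₂ / e4 w₁ w₂ ^ 3

/-- the standard element of weight `k` (`k` even, `k ≠ 2`): `a ^ (k/4)` or `a ^ ((k-6)/4) * b` -/
def eb {K : Type*} [Monoid K] (k : ℕ) (a b : K) : K :=
  if k % 4 = 0 then a ^ (k / 4) else a ^ ((k - 6) / 4) * b

/-- `A` is a valuation ring of `ℂ` above 2 -/
def Above2 (A : ValuationSubring ℂ) : Prop := (2 : ℂ) ∈ A.nonunits

/-- ordinary oriented pairs: `E₄ ≠ 0` and `1/j ∈ A` -/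
def Ord (A : ValuationSubring ℂ) (w₁ w₂ : ℂ) : Prop :=
  Pos w₁ w₂ ∧ e4 w₁ w₂ ≠ 0 ∧ jv w₁ w₂ ∈ A

/-- the `n`-th coefficient -/
abbrev cf (f : ℍ → ℂ) (n : ℕ) : ℂ := (qExpansion 1 f).coeff n

/-- normalised Hecke eigenforms of weight `w` and level one, in terms of the coefficients -/
def IsEig (w : ℕ) (a : ℕ → ℂ) : Prop :=
  a 1 = 1 ∧ ∀ p n : ℕ, p.Prime → 0 < n →
    a p * a n = a (p * n) + if p ∣ n then (p : ℂ) ^ (w - 1) * a (n / p) else 0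

/-- the `p + 1` sublattices of index `p` (oriented bases) -/
def sub (p : ℕ) (w₁ w₂ : ℂ) : Option (Fin p) → ℂ × ℂ
  | none => ((p : ℂ) * w₁, w₂)
  | some b => (w₁ + (b : ℕ) * w₂, (p : ℂ) * w₂)

/-- value of a homogeneous function on the sublattice number `i` -/
abbrev LFs (k : ℕ) (F : ℍ → ℂ) (p : ℕ) (w₁ w₂ : ℂ) (i : Option (Fin p)) : ℂ :=
  LF k F (sub p w₁ w₂ i).1 (sub p w₁ w₂ i).2

/-! ### group L: lattices -/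

/-- (L1) values of level one forms depend only on the lattice -/
def StLat : Prop := ∀ (k : ℕ) (f : ModularForm 𝒮ℒ (k : ℤ)) (w₁ w₂ v₁ v₂ : ℂ),
  Pos w₁ w₂ → Pos v₁ v₂ → lat w₁ w₂ = lat v₁ v₂ → LF k f w₁ w₂ = LF k f v₁ v₂

/-- (L2) construction of level one forms -/
def StMk : Prop := ∀ (k : ℕ) (F : ℍ → ℂ), MDiff F →
  (∀ w₁ w₂ v₁ v₂ : ℂ, Pos w₁ w₂ → Pos v₁ v₂ → lat w₁ w₂ = lat v₁ v₂ →
    LF k F w₁ w₂ = LF k F v₁ v₂) →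
  IsBoundedAtImInfty F → ∃ g : ModularForm 𝒮ℒ (k : ℤ), (g : ℍ → ℂ) = F

/-- (L3) sublattices of prime index -/
def StSub : Prop := ∀ (p : ℕ), p.Prime → ∀ (w₁ w₂ : ℂ), Pos w₁ w₂ →
  (∀ i, Pos (sub p w₁ w₂ i).1 (sub p w₁ w₂ i).2 ∧
    lat (sub p w₁ w₂ i).1 (sub p w₁ w₂ i).2 ≤ lat w₁ w₂ ∧
    (lat (sub p w₁ w₂ i).1 (sub p w₁ w₂ i).2).toAddSubgroup.relIndex
      (lat w₁ w₂).toAddSubgroup = p) ∧
  (Function.Injective fun i => lat (sub p w₁ w₂ i).1 (sub p w₁ w₂ i).2) ∧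
  (∀ N : Submodule ℤ ℂ, N ≤ lat w₁ w₂ →
    N.toAddSubgroup.relIndex (lat w₁ w₂).toAddSubgroup = p →
    ∃ i, N = lat (sub p w₁ w₂ i).1 (sub p w₁ w₂ i).2)

/-- (L4) a second basis of the same lattice permutes the sublattices of index `p` -/
def StPerm : Prop := ∀ (p : ℕ), p.Prime → ∀ (w₁ w₂ v₁ v₂ : ℂ), Pos w₁ w₂ → Pos v₁ v₂ →
  lat w₁ w₂ = lat v₁ v₂ → ∃ σ : Equiv.Perm (Option (Fin p)), ∀ i,
    lat (sub p v₁ v₂ (σ i)).1 (sub p v₁ v₂ (σ i)).2 =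
      lat (sub p w₁ w₂ i).1 (sub p w₁ w₂ i).2

/-- (L5) a subgroup of index `n` in a lattice is a lattice; if `n > 1`, it is contained in one
of the sublattices of index `p` for a prime `p` dividing `n` -/
def StStep : Prop := ∀ (w₁ w₂ v₁ v₂ : ℂ), Pos w₁ w₂ → Pos v₁ v₂ → lat v₁ v₂ ≤ lat w₁ w₂ →
  ∀ n : ℕ, 1 < n → (lat v₁ v₂).toAddSubgroup.relIndex (lat w₁ w₂).toAddSubgroup = n →
  ∃ p : ℕ, p.Prime ∧ p ∣ n ∧ ∃ i : Option (Fin p),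
    lat v₁ v₂ ≤ lat (sub p w₁ w₂ i).1 (sub p w₁ w₂ i).2 ∧
    (lat v₁ v₂).toAddSubgroup.relIndex
      (lat (sub p w₁ w₂ i).1 (sub p w₁ w₂ i).2).toAddSubgroup = n / p

/-! ### group H: Hecke operators and symmetric functions -/

/-- (H1) the Hecke operator `T_p` -/
def StHecke : Prop := ∀ (p : ℕ), p.Prime → ∀ (k : ℕ), 0 < k → ∀ f : ModularForm 𝒮ℒ (k : ℤ),
  ∃ g : ModularForm 𝒮ℒ (k : ℤ),
    (∀ n, cf g n = cf f (p * n) + if p ∣ n then (p : ℂ) ^ (k - 1) * cf f (n / p) else 0) ∧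
    ∀ w₁ w₂ : ℂ, Pos w₁ w₂ → LF k g w₁ w₂ = (p : ℂ) ^ (k - 1) * ∑ i, LFs k f p w₁ w₂ i

/-- elementary symmetric function of the values on the sublattices of index `p` -/
def esy (k p i : ℕ) (F : ℍ → ℂ) (w₁ w₂ : ℂ) : ℂ :=
  ((Finset.univ : Finset (Option (Fin p))).val.map fun j => LFs k F p w₁ w₂ j).esymm i

/-- (H2) the elementary symmetric functions are level one forms -/
def StSymmA : Prop := ∀ (p : ℕ), p.Prime → ∀ (k : ℕ) (f : ModularForm 𝒮ℒ (k : ℤ)) (i : ℕ),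
  ∃ g : ModularForm 𝒮ℒ ((i * k : ℕ) : ℤ), ∀ w₁ w₂ : ℂ, Pos w₁ w₂ →
    LF (i * k) g w₁ w₂ = esy k p i f w₁ w₂

/-- (H3) integrality and congruences for the elementary symmetric functions -/
def StSymmB : Prop := ∀ (A : ValuationSubring ℂ), Above2 A → ∀ (p : ℕ), p.Prime → p ≠ 2 →
  ∀ (k : ℕ) (f : ModularForm 𝒮ℒ (k : ℤ)), (∀ n, cf f n ∈ A) →
  ∀ (i : ℕ) (g : ModularForm 𝒮ℒ ((i * k : ℕ) : ℤ)),
    (∀ w₁ w₂ : ℂ, Pos w₁ w₂ → LF (i * k) g w₁ w₂ = esy k p i f w₁ w₂) →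
    (∀ n, cf g n ∈ A) ∧
    ∀ c : ℂ, c ∈ A → (∀ n, cf f n - (if n = 0 then c else 0) ∈ A.nonunits) →
      ∀ n, cf g n - (if n = 0 then ((p + 1).choose i : ℂ) * c ^ i else 0) ∈ A.nonunits

/-- (H4) consequence: the polynomial with roots the values on the sublattices of index `p` -/
def StSymm : Prop := ∀ (A : ValuationSubring ℂ), Above2 A → ∀ (p : ℕ), p.Prime → p ≠ 2 →
  ∀ (k : ℕ) (f : ModularForm 𝒮ℒ (k : ℤ)), (∀ n, cf f n ∈ A) →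
  ∃ e : (i : ℕ) → ModularForm 𝒮ℒ ((i * k : ℕ) : ℤ),
    (∀ i n, cf (e i) n ∈ A) ∧
    (∀ c : ℂ, c ∈ A → (∀ n, cf f n - (if n = 0 then c else 0) ∈ A.nonunits) →
      ∀ i n, cf (e i) n - (if n = 0 then ((p + 1).choose i : ℂ) * c ^ i else 0) ∈ A.nonunits) ∧
    ∀ w₁ w₂ : ℂ, Pos w₁ w₂ → ∀ T : ℂ, ∏ i, (T - LFs k f p w₁ w₂ i) =
      ∑ i ∈ Finset.range (p + 2), (-1) ^ i * LF (i * k) (e i) w₁ w₂ * T ^ (p + 1 - i)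

/-! ### group I: integral structure -/

/-- `∑_{n ≥ 1} σ_k(n) q^n` -/
def sg (k : ℕ) : PowerSeries ℤ :=
  PowerSeries.mk fun n => if n = 0 then 0 else (ArithmeticFunction.sigma k n : ℤ)
def P2 : PowerSeries ℤ := 1 - 24 * sg 1
def Q4 : PowerSeries ℤ := 1 + 240 * sg 3
def R6 : PowerSeries ℤ := 1 - 504 * sg 5
def D12 : PowerSeries ℤ := PowerSeries.mk fun n => (Q4 ^ 3 - R6 ^ 2).coeff n / 1728

/-- from `ℤ` to `ℂ` -/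
abbrev toC (g : PowerSeries ℤ) : PowerSeries ℂ := g.map (Int.castRingHom ℂ)

/-- (I1) integral q-expansions -/
def StEis : Prop := 1728 * D12 = Q4 ^ 3 - R6 ^ 2 ∧ D12.coeff 0 = 0 ∧ D12.coeff 1 = 1 ∧
  qExpansion 1 (E₄ : ℍ → ℂ) = toC Q4 ∧ qExpansion 1 (E₆ : ℍ → ℂ) = toC R6 ∧
  qExpansion 1 discriminant = toC D12

/-- (I2) structure theorem over any additive subgroup of coefficients -/
def StStruct : Prop := ∀ (I : AddSubgroup ℂ) (k : ℕ), Even k → ∀ f : ModularForm 𝒮ℒ (k : ℤ),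
  (∀ n, cf f n ∈ I) → ∃ c : ℕ → ℂ, (∀ j, c j ∈ I) ∧ (∀ j, k = 12 * j + 2 → c j = 0) ∧
    (∀ τ : ℍ, f τ = ∑ j ∈ Finset.range (k / 12 + 1),
      c j * discriminant τ ^ j * eb (k - 12 * j) (E₄ τ) (E₆ τ)) ∧
    qExpansion 1 (f : ℍ → ℂ) = ∑ j ∈ Finset.range (k / 12 + 1),
      PowerSeries.C (c j) * toC D12 ^ j * eb (k - 12 * j) (toC Q4) (toC R6)

/-- (I3) values of forms with coefficients in an `A`-submodule at ordinary lattices -/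
def StEval : Prop := ∀ (A : ValuationSubring ℂ) (I : AddSubgroup ℂ),
  (∀ a ∈ A, ∀ z ∈ I, a * z ∈ I) → ∀ (k : ℕ), Even k → ∀ f : ModularForm 𝒮ℒ (k : ℤ),
  (∀ n, cf f n ∈ I) → ∀ w₁ w₂ : ℂ, Ord A w₁ w₂ →
    ∃ z ∈ I, LF k f w₁ w₂ = z * eb k (e4 w₁ w₂) (e6 w₁ w₂)

/-! ### group E: odd index -/

/-- (E1) sublattices of odd prime index of an ordinary lattice -/
def StOddP : Prop := ∀ (A : ValuationSubring ℂ), Above2 A → ∀ (w₁ w₂ : ℂ), Ord A w₁ w₂ →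
  ∀ (p : ℕ), p.Prime → p ≠ 2 → ∀ i : Option (Fin p), ∀ v₁ v₂ : ℂ, sub p w₁ w₂ i = (v₁, v₂) →
    Ord A v₁ v₂ ∧ e4 v₁ v₂ / e4 w₁ w₂ - 1 ∈ A.nonunits ∧ e6 v₁ v₂ / e6 w₁ w₂ - 1 ∈ A.nonunits

/-- (E2) sublattices of odd index of an ordinary lattice -/
def StOdd : Prop := ∀ (A : ValuationSubring ℂ), Above2 A → ∀ (w₁ w₂ : ℂ), Ord A w₁ w₂ →
  ∀ v₁ v₂ : ℂ, Pos v₁ v₂ → lat v₁ v₂ ≤ lat w₁ w₂ →
    Odd ((lat v₁ v₂).toAddSubgroup.relIndex (lat w₁ w₂).toAddSubgroup) →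
    Ord A v₁ v₂ ∧ e4 v₁ v₂ / e4 w₁ w₂ - 1 ∈ A.nonunits ∧ e6 v₁ v₂ / e6 w₁ w₂ - 1 ∈ A.nonunits

/-! ### group G: eigenforms modulo the maximal ideal -/

/-- (G1) eigenvalues are integral -/
def StInt : Prop := ∀ (A : ValuationSubring ℂ) (w : ℕ) (f : CuspForm 𝒮ℒ (w : ℤ)),
  IsEig w (cf f) → ∀ n, cf f n ∈ A

/-- (G2) the Gaussian lattice `(i, 1)` -/
def StGauss : Prop := e6 Complex.I 1 = 0 ∧ dl Complex.I 1 ≠ 0 ∧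
  e4 Complex.I 1 ^ 3 = 1728 * dl Complex.I 1 ∧
  ∀ (A : ValuationSubring ℂ) (J : AddSubgroup ℂ), (∀ a ∈ A, ∀ z ∈ J, a * z ∈ J) →
    ∀ (k : ℕ) (g : ModularForm 𝒮ℒ ((12 * k : ℕ) : ℤ)), (∀ n, cf g n ∈ J) →
      LF (12 * k) g Complex.I 1 / dl Complex.I 1 ^ k ∈ J

/-- (G3) the sum over the sublattices of odd prime index of the Gaussian lattice -/
def StGaussP : Prop := ∀ (A : ValuationSubring ℂ), Above2 A → ∀ p : ℕ, p.Prime → p ≠ 2 →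
  ∀ (k : ℕ) (g : ModularForm 𝒮ℒ ((12 * k : ℕ) : ℤ)), (∀ n, cf g n ∈ A) →
    (∑ i, LFs (12 * k) g p Complex.I 1 i) / dl Complex.I 1 ^ k ∈ A.nonunits

/-- (G4) `a_p = 0` modulo the maximal ideal for odd `p` -/
def StOddZero : Prop := ∀ (A : ValuationSubring ℂ), Above2 A → ∀ (w : ℕ)
  (f : CuspForm 𝒮ℒ (w : ℤ)), IsEig w (cf f) → ∀ p : ℕ, p.Prime → p ≠ 2 → cf f p ∈ A.nonunits

/-- (G5) `Δ` is an eigenform; `τ(n)` is even for even `n`; `f = Δ` modulo the maximal ideal -/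
def StDelta : Prop := (∀ n : ℕ, Even n → (2 : ℤ) ∣ D12.coeff n) ∧ IsEig 12 (cf discriminant) ∧
  ∀ (A : ValuationSubring ℂ), Above2 A → ∀ (w : ℕ) (f : CuspForm 𝒮ℒ (w : ℤ)),
    IsEig w (cf f) → cf f 2 ∈ A.nonunits ∧ ∀ n, cf f n - (D12.coeff n : ℂ) ∈ A.nonunits

/-! ### group W: Weierstrass functions and level 2 -/

/-- (W1) values at half periods -/
def StHalf : Prop := ∀ (L : PeriodPair) (h : ℂ), h ∉ L.lattice → 2 * h ∈ L.lattice →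
  4 * L.weierstrassP h ^ 3 - L.g₂ * L.weierstrassP h - L.g₃ = 0 ∧
  L.sumInvPow h 4 = L.weierstrassP h ^ 2 - L.g₂ / 12 ∧
  L.sumInvPow h 6 = 3 / 5 * L.weierstrassP h ^ 3 - L.g₂ * L.weierstrassP h / 20

/-- (W2) the product identity -/
def StProd : Prop := ∀ (L : PeriodPair) (h : ℂ), h ∉ L.lattice → 2 * h ∈ L.lattice →
  ∀ z : ℂ, z ∉ L.lattice → z + h ∉ L.lattice →
    (L.weierstrassP z - L.weierstrassP h) * (L.weierstrassP (z + h) - L.weierstrassP h) =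
      3 * L.weierstrassP h ^ 2 - L.g₂ / 4

/-- (W3) the lattice `M = L + ℤ h` -/
def StSuper : Prop := ∀ (L M : PeriodPair) (h : ℂ), h ∉ L.lattice → 2 * h ∈ L.lattice →
  M.lattice = L.lattice ⊔ Submodule.span ℤ {h} →
  M.g₂ = 60 * L.weierstrassP h ^ 2 - 4 * L.g₂ ∧
  M.g₃ = 22 * L.g₃ + 14 * L.g₂ * L.weierstrassP h ∧
  ∀ z : ℂ, z ∉ M.lattice →
    M.weierstrassP z = L.weierstrassP z + L.weierstrassP (z + h) - L.weierstrassP h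

/-- (W4) `g₂`, `g₃` and Eisenstein series -/
def StLink : Prop := ∀ (L : PeriodPair), Pos L.ω₁ L.ω₂ →
  L.g₂ = 4 * (π : ℂ) ^ 4 / 3 * e4 L.ω₁ L.ω₂ ∧ L.g₃ = 8 * (π : ℂ) ^ 6 / 27 * e6 L.ω₁ L.ω₂

/-- (W5) the level 2 relations; `X = Δ(τ)/Δ(2τ)`, stated for pairs `L = (w₁, w₂)`,
`M = (w₁, w₂/2)`, `N = (w₁, w₂/4)` -/
def XX (w₁ w₂ : ℂ) : ℂ := 2 ^ 12 * dl w₁ w₂ / dl w₁ (w₂ / 2)

def StLevel : Prop := ∀ w₁ w₂ : ℂ, Pos w₁ w₂ →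
  dl w₁ w₂ ≠ 0 ∧ dl w₁ (w₂ / 2) ≠ 0 ∧ XX w₁ w₂ ≠ 0 ∧
  1728 * dl w₁ w₂ = e4 w₁ w₂ ^ 3 - e6 w₁ w₂ ^ 2 ∧
  e4 w₁ w₂ ^ 3 * XX w₁ w₂ ^ 2 = dl w₁ w₂ * (XX w₁ w₂ + 256) ^ 3 ∧
  e4 w₁ (w₂ / 2) ^ 3 * XX w₁ w₂ = dl w₁ (w₂ / 2) * (XX w₁ w₂ + 16) ^ 3 ∧
  e4 w₁ (w₂ / 2) * (XX w₁ w₂ + 256) = 16 * e4 w₁ w₂ * (XX w₁ w₂ + 16) ∧
  e6 w₁ (w₂ / 2) * (XX w₁ w₂ - 512) = 64 * e6 w₁ w₂ * (XX w₁ w₂ - 8) ∧
  XX w₁ (w₂ / 2) ^ 2 = XX w₁ w₂ * (XX w₁ w₂ + 48) * XX w₁ (w₂ / 2) + 4096 * XX w₁ w₂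

/-- (X) the cycle lemma -/
def StCycle : Prop := ∀ (A : ValuationSubring ℂ), Above2 A → ∀ (m : ℕ), 0 < m →
  ∀ (X : ℕ → ℂ) (u : ℂ), (∀ i, X i ≠ 0) → X m = X 0 →
  (∀ i < m, X (i + 1) ^ 2 = X i * (X i + 48) * X (i + 1) + 4096 * X i) →
  (∏ i ∈ Finset.range m, X i = u ^ 12) → u ∈ A → u⁻¹ ∈ A → (u ^ 4 - 17) / 32 ∈ A →
  (∀ i ≤ m, X i ∈ A ∧ (X i)⁻¹ ∈ A) ∧
    (∑ i ∈ Finset.range m, X i / (X i + 16) ^ 3) - 1 ∈ A.nonunits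

/-! ### group N: the quadratic field -/

/-- the hypotheses on the field -/
def FieldC (q : ℕ) (F : Type) [Field F] [NumberField F] (s : F) : Prop :=
  q.Prime ∧ q % 16 = 7 ∧ Module.finrank ℚ F = 2 ∧ s ^ 2 = -(q : F)

/-- `(w₁, w₂)` is an oriented basis of `σ(𝔞)` -/
def IsB {F : Type} [Field F] [NumberField F] (σ : F →+* ℂ) (a : Ideal (𝓞 F)) (w₁ w₂ : ℂ) :
    Prop := Pos w₁ w₂ ∧ ∀ z : ℂ, z ∈ lat w₁ w₂ ↔ ∃ x ∈ a, σ (x : F) = z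

/-- (N1) the class number is odd -/
def StClass : Prop := ∀ (q : ℕ) (F : Type) [Field F] [NumberField F] (s : F),
  FieldC q F s → Odd (Fintype.card (ClassGroup (𝓞 F)))

/-- (N2) oriented bases; index; covolume -/
def StBasis : Prop := ∀ (q : ℕ) (F : Type) [Field F] [NumberField F] (s : F),
  FieldC q F s → ∀ (σ : F →+* ℂ) (a : Ideal (𝓞 F)), a ≠ ⊥ →
  (∃ w₁ w₂ : ℂ, IsB σ a w₁ w₂) ∧
  ∀ w₁ w₂ : ℂ, IsB σ a w₁ w₂ →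
    ((w₁ * conj w₂).im = (Ideal.absNorm a : ℝ) * √q / 2) ∧
    (∀ v₁ v₂ : ℂ, IsB σ ⊤ v₁ v₂ → lat w₁ w₂ ≤ lat v₁ v₂ ∧
      (lat w₁ w₂).toAddSubgroup.relIndex (lat v₁ v₂).toAddSubgroup = Ideal.absNorm a)

/-- (N3) adapted bases for a prime of norm 2 -/
def StAdapt : Prop := ∀ (q : ℕ) (F : Type) [Field F] [NumberField F] (s : F),
  FieldC q F s → ∀ (σ : F →+* ℂ) (P : Ideal (𝓞 F)), P.IsPrime → Ideal.absNorm P = 2 →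
  ∀ b : Ideal (𝓞 F), b ≠ ⊥ → ∃ w₁ w₂ : ℂ, IsB σ (P ^ 2 * b) w₁ w₂ ∧
      IsB σ (P * b) w₁ (w₂ / 2) ∧ IsB σ b w₁ (w₂ / 4)

/-- the condition on the period of a chain -/
def UnitC (A : ValuationSubring ℂ) (m : ℕ) (c : ℂ) : Prop :=
  2 ^ m / c ∈ A ∧ (2 ^ m / c)⁻¹ ∈ A ∧ ((2 ^ m / c) ^ 4 - 17) / 32 ∈ A

/-- (N3') the prime above 2 attached to `A` and the unit `π-bar` -/
def StUnit : Prop := ∀ (q : ℕ) (F : Type) [Field F] [NumberField F] (s : F),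
  FieldC q F s → ∀ (σ : F →+* ℂ) (A : ValuationSubring ℂ), Above2 A →
  ∃ P : Ideal (𝓞 F), P.IsPrime ∧ Ideal.absNorm P = 2 ∧
    ∀ (m : ℕ) (x : 𝓞 F), Odd m → P ^ m = Ideal.span {x} → UnitC A m (σ (x : F))

/-- (N4) representatives of odd norm -/
def StRep : Prop := ∀ (q : ℕ) (F : Type) [Field F] [NumberField F] (s : F),
  FieldC q F s → ∀ c : ClassGroup (𝓞 F), ∃ a : nonZeroDivisors (Ideal (𝓞 F)),
    ClassGroup.mk0 a = c ∧ Odd (Ideal.absNorm (a : Ideal (𝓞 F)))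

/-! ### chains of lattices -/

/-- `L_i = (u i, v i)`, `L_(i+1) = (u i, v i / 2)`, `L_(i+2) = (u i, v i / 4)`,
`c L_(i+m) = L_i` -/
structure Chain (m : ℕ) (c : ℂ) (u v : ℕ → ℂ) : Prop where
  pos : ∀ i, Pos (u i) (v i)
  half : ∀ i, lat (u (i + 1)) (v (i + 1)) = lat (u i) (v i / 2)
  quarter : ∀ i, lat (u (i + 1)) (v (i + 1) / 2) = lat (u i) (v i / 4)
  per : ∀ i, lat (c * u (i + m)) (c * v (i + m)) = lat (u i) (v i)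
  c0 : c ≠ 0

/-- (N5) the chain attached to an ideal -/
def StChain : Prop := ∀ (q : ℕ) (F : Type) [Field F] [NumberField F] (s : F),
  FieldC q F s → ∀ (σ : F →+* ℂ) (P : Ideal (𝓞 F)), P.IsPrime → Ideal.absNorm P = 2 →
    ∀ (m : ℕ) (x : 𝓞 F), 0 < m → P ^ m = Ideal.span {x} → ∀ a : Ideal (𝓞 F), a ≠ ⊥ →
      ∃ u v : ℕ → ℂ, Chain m (σ (x : F)) u v ∧ ∀ i ≤ m, IsB σ (P ^ (m - i) * a) (u i) (v i)

/-- (X2) ordinarity of the lattices of the chain and the sum of `1/j` -/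
def StOrdC : Prop := ∀ (A : ValuationSubring ℂ), Above2 A → ∀ (m : ℕ) (c : ℂ) (u v : ℕ → ℂ),
  0 < m → Chain m c u v → UnitC A m c →
  (∀ i, Ord A (u i) (v i) ∧ XX (u i) (v i) ∈ A ∧ (XX (u i) (v i))⁻¹ ∈ A) ∧
  (∑ i ∈ Finset.range m, jv (u (i + 1)) (v (i + 1))) - 1 ∈ A.nonunits

/-- (V0) the value of an eigenform at an ordinary lattice -/
def StVal0 : Prop := ∀ (A : ValuationSubring ℂ), Above2 A → ∀ (w : ℕ) (f : CuspForm 𝒮ℒ (w : ℤ)),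
  IsEig w (cf f) → ∀ w₁ w₂ : ℂ, Ord A w₁ w₂ →
    eb w (e4 w₁ w₂) (e6 w₁ w₂) ≠ 0 ∧
    LF w f w₁ w₂ / eb w (e4 w₁ w₂) (e6 w₁ w₂) - jv w₁ w₂ ∈ A.nonunits

/-! ### group R: `r > 0` -/

/-- (R1) Ramanujan's identities -/
def StRam : Prop :=
  (∀ τ : ℍ, Derivative.normalizedDerivOfComplex E2 τ = (E2 τ ^ 2 - E₄ τ) / 12) ∧
  (∀ τ : ℍ, Derivative.normalizedDerivOfComplex E₄ τ = (E2 τ * E₄ τ - E₆ τ) / 3) ∧
  (∀ τ : ℍ, Derivative.normalizedDerivOfComplex E₆ τ = (E2 τ * E₆ τ - E₄ τ ^ 2) / 2) ∧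
  (∀ τ : ℍ, Derivative.normalizedDerivOfComplex discriminant τ = E2 τ * discriminant τ)

/-- `q d/dq` -/
def th {R : Type*} [Semiring R] (g : PowerSeries R) : PowerSeries R :=
  PowerSeries.mk fun n => (n : R) * g.coeff n

/-- (R2) Ramanujan's identities for power series -/
def StRamQ : Prop := 12 * th P2 = P2 ^ 2 - Q4 ∧ 3 * th Q4 = P2 * Q4 - R6 ∧
  2 * th R6 = P2 * R6 - Q4 ^ 2 ∧ th D12 = P2 * D12

/-- `q ↦ q²` -/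
def Vq {R : Type*} [Semiring R] (g : PowerSeries R) : PowerSeries R :=
  PowerSeries.mk fun n => if Even n then g.coeff (n / 2) else 0

/-- the level 2 form `2 E₂(2τ) - E₂(τ)` of weight 2 -/
def ee (w₁ w₂ : ℂ) : ℂ := LF 2 E2 w₁ (w₂ / 2) / 2 - LF 2 E2 w₁ w₂

/-- (R3) the level 2 relation for `E₂` -/
def StE2rel : Prop := ∀ w₁ w₂ : ℂ, Pos w₁ w₂ →
  e6 w₁ w₂ * (XX w₁ w₂ + 256) = ee w₁ w₂ * e4 w₁ w₂ * (XX w₁ w₂ - 512)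

/-- (R4) the level 2 relations for power series -/
def StQrel : Prop := ∃ y : PowerSeries ℤ, D12 * y = Vq D12 ∧
  D12 * (1 + 256 * y) ^ 3 = y * Q4 ^ 3 ∧
  Vq D12 * (1 + 16 * y) ^ 3 = y ^ 2 * Vq Q4 ^ 3 ∧
  (1 + 256 * y) * Vq Q4 = (1 + 16 * y) * Q4 ∧
  (1 - 512 * y) * Vq R6 = (1 - 8 * y) * R6 ∧
  R6 * (1 + 256 * y) = (2 * Vq P2 - P2) * Q4 * (1 - 512 * y)

/-- (R5) good elements -/
def StGood : Prop := ∀ (S : Type) [CommRing S] (V : S →+* S) (x y a : S),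
  x * (1 + 256 * y) ^ 3 = y → V x * (1 + 16 * y) ^ 3 = y ^ 2 →
  a * (1 + 256 * y) ^ 2 * (1 - 8 * y) * (1 - 512 * y) =
    2 * V a * (1 + 16 * y) ^ 2 * (1 - 512 * y) ^ 2 -
      (1 - 1728 * x) * (1 + 256 * y) ^ 3 * (1 - 8 * y) →
  ∀ N : ℕ, ∃ (F : Polynomial ℤ) (z : S), a = Polynomial.aeval x F + 2 ^ N * z

/-- the area form, with `α`, `β` in the place of the conjugates -/
def vol (w₁ w₂ α β : ℂ) : ℂ := (β * w₁ - α * w₂) / (2 * Complex.I)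

/-- `E₂^*` -/
def e2s (w₁ w₂ α β : ℂ) : ℂ := LF 2 E2 w₁ w₂ - 3 * β / (π * w₂ * vol w₁ w₂ α β)

/-- `E₂^*` of a lattice -/
def E2s (w₁ w₂ : ℂ) : ℂ := e2s w₁ w₂ (conj w₁) (conj w₂)

/-- (R6) derivatives along lines -/
def StLine : Prop := ∀ w₁ w₂ α β : ℂ, Pos w₁ w₂ → vol w₁ w₂ α β ≠ 0 →
  HasDerivAt (fun t => e2s (w₁ + t * α) (w₂ + t * β) α β)
    (4 * π * vol w₁ w₂ α β * ((e2s w₁ w₂ α β ^ 2 - e4 w₁ w₂) / 12)) 0 ∧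
  HasDerivAt (fun t => e4 (w₁ + t * α) (w₂ + t * β))
    (4 * π * vol w₁ w₂ α β * ((e2s w₁ w₂ α β * e4 w₁ w₂ - e6 w₁ w₂) / 3)) 0 ∧
  HasDerivAt (fun t => e6 (w₁ + t * α) (w₂ + t * β))
    (4 * π * vol w₁ w₂ α β * ((e2s w₁ w₂ α β * e6 w₁ w₂ - e4 w₁ w₂ ^ 2) / 2)) 0 ∧
  HasDerivAt (fun t => dl (w₁ + t * α) (w₂ + t * β))
    (4 * π * vol w₁ w₂ α β * (e2s w₁ w₂ α β * dl w₁ w₂)) 0

open MvPolynomial in
/-- the derivation in the variables `P, Q, R, D` -/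
def dd : Derivation ℂ (MvPolynomial (Fin 4) ℂ) (MvPolynomial (Fin 4) ℂ) :=
  mkDerivation ℂ ![C (1 / 12) * (X 0 ^ 2 - X 1), C (1 / 3) * (X 0 * X 1 - X 2),
    C (1 / 2) * (X 0 * X 2 - X 1 ^ 2), X 0 * X 3]

/-- evaluation of a polynomial in `P, Q, R, D` at a lattice, with `α`, `β` -/
def ev (G : MvPolynomial (Fin 4) ℂ) (w₁ w₂ α β : ℂ) : ℂ :=
  MvPolynomial.eval ![e2s w₁ w₂ α β, e4 w₁ w₂, e6 w₁ w₂, dl w₁ w₂] G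

/-- (R7) iterated derivatives along lines -/
def StTaylor : Prop := ∀ (G : MvPolynomial (Fin 4) ℂ) (r : ℕ) (w₁ w₂ α β : ℂ), Pos w₁ w₂ →
  vol w₁ w₂ α β ≠ 0 →
  iteratedDeriv r (fun t => ev G (w₁ + t * α) (w₂ + t * β) α β) 0 =
    (4 * π * vol w₁ w₂ α β) ^ r * ev (dd^[r] G) w₁ w₂ α β

/-- (R8) `E₂^*` depends only on the lattice -/
def StE2Lat : Prop := ∀ (w₁ w₂ v₁ v₂ : ℂ), Pos w₁ w₂ → Pos v₁ v₂ → lat w₁ w₂ = lat v₁ v₂ →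
  E2s w₁ w₂ = E2s v₁ v₂

/-- the weights of `P, Q, R, D` -/
def wt : Fin 4 → ℕ := ![2, 4, 6, 12]

/-- (R9) `(12 dd)^r` preserves integrality and is homogeneous -/
def StDD : Prop := ∀ (A : ValuationSubring ℂ) (k : ℕ) (G : MvPolynomial (Fin 4) ℂ),
  G.IsWeightedHomogeneous wt k → (∀ m, G.coeff m ∈ A) → ∀ r : ℕ,
  (dd^[r] G).IsWeightedHomogeneous wt (k + 2 * r) ∧ ∀ m, 12 ^ r * (dd^[r] G).coeff m ∈ A

/-- (R10) normalised form of a homogeneous polynomial -/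
def StNorm : Prop := ∀ (A : ValuationSubring ℂ) (k : ℕ) (G : MvPolynomial (Fin 4) ℂ), 4 ≤ k →
  Even k → G.IsWeightedHomogeneous wt k → (∀ m, G.coeff m ∈ A) →
  ∃ K : MvPolynomial (Fin 4) ℂ, (∀ m, K.coeff m ∈ A) ∧
    ∀ (S : Type) [CommRing S] [Algebra ℂ S] (P D : S) (Q R : Sˣ),
      MvPolynomial.aeval ![P, (Q : S), (R : S), D] G = eb k (Q : S) (R : S) *
        MvPolynomial.aeval ![P * R * (Q⁻¹ : Sˣ) ^ 2, D * (Q⁻¹ : Sˣ) ^ 3,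
          (R : S) ^ 2 * (Q⁻¹ : Sˣ) ^ 3, (Q : S) ^ 3 * (R⁻¹ : Sˣ) ^ 2] K

/-- (R11) the polynomial of a cusp form: iterated derivatives of q-expansions -/
def StTheta : Prop := ∀ (G : MvPolynomial (Fin 4) ℂ) (r : ℕ),
  MvPolynomial.aeval ![toC P2, toC Q4, toC R6, toC D12] (dd^[r] G) =
    th^[r] (MvPolynomial.aeval ![toC P2, toC Q4, toC R6, toC D12] G)

/-- (R12) integrality and approximation of `E₂^* E₆ / E₄²` on the chain -/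
def StApp : Prop := ∀ (A : ValuationSubring ℂ), Above2 A → ∀ (m : ℕ) (c : ℂ) (u v : ℕ → ℂ),
  0 < m → Chain m c u v → UnitC A m c → ∀ N : ℕ, ∃ F : Polynomial ℤ,
    (∀ i, (E2s (u i) (v i) * e6 (u i) (v i) / e4 (u i) (v i) ^ 2 -
      Polynomial.aeval (jv (u i) (v i)) F) / 2 ^ N ∈ A) ∧
    ∃ x z : PowerSeries ℤ, x * Q4 ^ 3 = D12 ∧
      P2 * R6 = Q4 ^ 2 * (Polynomial.aeval x F + 2 ^ N * z)

/-- (V1) the value of `δ^r f` on the chain -/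
def StValR : Prop := ∀ (A : ValuationSubring ℂ), Above2 A → ∀ (w : ℕ) (f : CuspForm 𝒮ℒ (w : ℤ)),
  IsEig w (cf f) → ∃ G : MvPolynomial (Fin 4) ℂ, G.IsWeightedHomogeneous wt w ∧
    (∀ w₁ w₂ α β : ℂ, Pos w₁ w₂ → LF w f w₁ w₂ = ev G w₁ w₂ α β) ∧
    ∀ (r m : ℕ) (c : ℂ) (u v : ℕ → ℂ), 0 < m → Chain m c u v → UnitC A m c → ∀ i,
      eb (w + 2 * r) (e4 (u i) (v i)) (e6 (u i) (v i)) ≠ 0 ∧
      ev (dd^[r] G) (u i) (v i) (conj (u i)) (conj (v i)) /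
        eb (w + 2 * r) (e4 (u i) (v i)) (e6 (u i) (v i)) - jv (u i) (v i) ∈ A.nonunits

/-! ### final statements of part (C) -/

/-- the character: values on ideals -/
structure Char {F : Type} [Field F] [NumberField F] (σ : F →+* ℂ) (A : ValuationSubring ℂ)
    (k : ℕ) (ψ : Ideal (𝓞 F) → ℂ) : Prop where
  mul : ∀ a b : Ideal (𝓞 F), a ≠ ⊥ → b ≠ ⊥ → ψ (a * b) = ψ a * ψ b
  princ : ∀ x : 𝓞 F, x ≠ 0 → ψ (Ideal.span {x}) = σ (x : F) ^ k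
  triv : ∀ a : Ideal (𝓞 F), Odd (Ideal.absNorm a) → ψ a - 1 ∈ A.nonunits

/-- (F) the period is not zero: `S` is a homogeneous lattice function of weight `k` which takes
values as in (V0), (V1) -/
def StSum : Prop := ∀ (q : ℕ) (F : Type) [Field F] [NumberField F] (s : F),
  FieldC q F s → ∀ (σ : F →+* ℂ) (A : ValuationSubring ℂ), Above2 A →
  ∀ (k : ℕ) (ψ : Ideal (𝓞 F) → ℂ), 4 ≤ k → Even k → Char σ A k ψ →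
  ∀ (S : ℂ → ℂ → ℂ),
    (∀ w₁ w₂ v₁ v₂ : ℂ, Pos w₁ w₂ → Pos v₁ v₂ → lat w₁ w₂ = lat v₁ v₂ → S w₁ w₂ = S v₁ v₂) →
    (∀ c w₁ w₂ : ℂ, c ≠ 0 → Pos w₁ w₂ → S (c * w₁) (c * w₂) = (c ^ k)⁻¹ * S w₁ w₂) →
    (∀ (m : ℕ) (c : ℂ) (u v : ℕ → ℂ), 0 < m → Chain m c u v → UnitC A m c → ∀ i,
      eb k (e4 (u i) (v i)) (e6 (u i) (v i)) ≠ 0 ∧
      S (u i) (v i) / eb k (e4 (u i) (v i)) (e6 (u i) (v i)) - jv (u i) (v i) ∈ A.nonunits) →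
    ∀ (rep : ClassGroup (𝓞 F) → nonZeroDivisors (Ideal (𝓞 F))) (w₁ w₂ : ClassGroup (𝓞 F) → ℂ),
      (∀ c, ClassGroup.mk0 (rep c) = c) → (∀ c, IsB σ (rep c : Ideal (𝓞 F)) (w₁ c) (w₂ c)) →
      ∑ c, ψ (rep c : Ideal (𝓞 F)) * S (w₁ c) (w₂ c) ≠ 0

end

end Pool.Agent.Lib.MP_7c08ba_nt.RZC
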