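import Pool.Agent.Lib.MP_7c08ba_nt.RZ.StmtsC

set_option autoImplicit false

/-! Helper lemmas for part (C). -/

namespace Pool.Agent.Lib.MP_7c08ba_nt.RZC

open UpperHalfPlane ModularForm EisensteinSeries MatrixGroups NumberField
open scoped Real Manifold ComplexConjugate

noncomputable section

variable {w₁ w₂ : ℂ}

theorem Pos.ne (h : Pos w₁ w₂) : w₂ ≠ 0 := by
  rintro rfl
  simp [Pos] at h

theorem Pos.ne1 (h : Pos w₁ w₂) : w₁ ≠ 0 := by
  rintro rfl
  simp [Pos] at h

theorem pos_smul {c : ℂ} (hc : c ≠ 0) : Pos (c * w₁) (c * w₂) ↔ Pos w₁ w₂ := by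
  unfold Pos
  rw [mul_div_mul_left _ _ hc]

theorem Pos.scale {r : ℝ} (hr : 0 < r) (h : Pos w₁ w₂) : Pos w₁ (w₂ / r) := by
  unfold Pos at *
  have : w₁ / (w₂ / (r : ℂ)) = (r : ℂ) * (w₁ / w₂) := by
    rw [div_div_eq_mul_div, mul_comm, mul_div_assoc]
  rw [this, Complex.im_ofReal_mul]
  exact mul_pos hr h

theorem Pos.half (h : Pos w₁ w₂) : Pos w₁ (w₂ / 2) := by
  simpa using h.scale (r := 2) (by norm_num)

theorem Pos.quarter (h : Pos w₁ w₂) : Pos w₁ (w₂ / 4) := by
  simpa using h.scale (r := 4) (by norm_num)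

theorem pos_tau (τ : ℍ) : Pos τ 1 := by
  simpa [Pos] using τ.im_pos

theorem LF_eq {k : ℕ} {F : ℍ → ℂ} (h : Pos w₁ w₂) :
    LF k F w₁ w₂ = (w₂ ^ k)⁻¹ * F ⟨w₁ / w₂, h⟩ := by
  unfold LF
  rw [ofComplex_apply_of_im_pos h]

theorem LF_tau {k : ℕ} {F : ℍ → ℂ} (τ : ℍ) : LF k F τ 1 = F τ := by
  rw [LF_eq (pos_tau τ)]
  simp only [one_pow, inv_one, one_mul, div_one]

theorem LF_smul {k : ℕ} {F : ℍ → ℂ} {c : ℂ} (hc : c ≠ 0) :
    LF k F (c * w₁) (c * w₂) = (c ^ k)⁻¹ * LF k F w₁ w₂ := by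
  unfold LF
  rw [mul_div_mul_left _ _ hc, mul_pow, mul_inv, mul_assoc]

theorem mem_lat {z : ℂ} : z ∈ lat w₁ w₂ ↔ ∃ m n : ℤ, m * w₁ + n * w₂ = z := by
  simp only [lat, Submodule.mem_span_pair, zsmul_eq_mul]

theorem mem_lat_smul {c z : ℂ} (hc : c ≠ 0) : c * z ∈ lat (c * w₁) (c * w₂) ↔ z ∈ lat w₁ w₂ := by
  rw [mem_lat, mem_lat]
  constructor
  · rintro ⟨m, n, h⟩
    exact ⟨m, n, mul_left_cancel₀ hc (by linear_combination h)⟩
  · rintro ⟨m, n, h⟩
    exact ⟨m, n, by linear_combination c * h⟩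

theorem lat_smul {c v₁ v₂ : ℂ} (hc : c ≠ 0) (h : lat w₁ w₂ = lat v₁ v₂) :
    lat (c * w₁) (c * w₂) = lat (c * v₁) (c * v₂) := by
  ext z
  obtain ⟨y, rfl⟩ : ∃ y, z = c * y := ⟨z / c, by field_simp⟩
  rw [mem_lat_smul hc, mem_lat_smul hc, h]

/-! ### the valuation ring -/

section val
variable {A : ValuationSubring ℂ} {x y : ℂ}

theorem nonunits_mem (hx : x ∈ A.nonunits) : x ∈ A := A.nonunits_le hx

theorem nonunits_iff : x ∈ A.nonunits ↔ A.valuation x < 1 := A.mem_nonunits_iff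

theorem zero_nonunits : (0 : ℂ) ∈ A.nonunits := by
  rw [nonunits_iff]; simp

theorem nonunits_add (hx : x ∈ A.nonunits) (hy : y ∈ A.nonunits) : x + y ∈ A.nonunits := by
  rw [nonunits_iff] at *
  exact (A.valuation.map_add x y).trans_lt (max_lt hx hy)

theorem nonunits_neg (hx : x ∈ A.nonunits) : -x ∈ A.nonunits := by
  rw [nonunits_iff] at *
  rwa [Valuation.map_neg]

theorem nonunits_sub (hx : x ∈ A.nonunits) (hy : y ∈ A.nonunits) : x - y ∈ A.nonunits := by
  rw [sub_eq_add_neg]; exact nonunits_add hx (nonunits_neg hy)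

theorem nonunits_mul_left (hx : x ∈ A) (hy : y ∈ A.nonunits) : x * y ∈ A.nonunits := by
  rw [nonunits_iff] at *
  rw [map_mul]
  exact mul_lt_one_of_nonneg_of_lt_one_right ((A.valuation_le_one_iff x).2 hx) zero_le hy

theorem nonunits_mul_right (hx : x ∈ A.nonunits) (hy : y ∈ A) : x * y ∈ A.nonunits := by
  rw [mul_comm]; exact nonunits_mul_left hy hx

/-- an element of `A` which is not in the maximal ideal is a unit -/
theorem inv_mem_of_not_nonunits (_ : x ∈ A) (h : x ∉ A.nonunits) : x⁻¹ ∈ A := by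
  rw [nonunits_iff, not_lt] at h
  rw [← A.valuation_le_one_iff, map_inv₀]
  exact inv_le_one_of_one_le₀ h

theorem not_mem_inv_nonunits (hx : x ∉ A) : x⁻¹ ∈ A.nonunits := by
  rw [nonunits_iff, map_inv₀]
  rw [← A.valuation_le_one_iff, not_le] at hx
  exact inv_lt_one_of_one_lt₀ hx

theorem not_nonunits_of_inv_mem (h0 : x ≠ 0) (h : x⁻¹ ∈ A) : x ∉ A.nonunits := by
  intro hx
  have h1 := nonunits_mul_left h hx
  rw [inv_mul_cancel₀ h0, nonunits_iff] at h1
  simp at h1

theorem one_not_nonunits : (1 : ℂ) ∉ A.nonunits := by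
  rw [nonunits_iff]; simp

theorem nonunits_of_pow {n : ℕ} (h : x ^ n ∈ A.nonunits) : x ∈ A.nonunits := by
  rw [nonunits_iff] at *
  rw [map_pow] at h
  by_contra h1
  exact absurd h (not_lt.2 (one_le_pow₀ (not_lt.1 h1)))

theorem nonunits_of_mul_unit (hy : y⁻¹ ∈ A) (hy0 : y ≠ 0) (h : y * x ∈ A.nonunits) :
    x ∈ A.nonunits := by
  have := nonunits_mul_left hy h
  rwa [← mul_assoc, inv_mul_cancel₀ hy0, one_mul] at this

/-- `x = 1` modulo the maximal ideal: `x` is a unit -/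
theorem unit_of_sub_one (h : x - 1 ∈ A.nonunits) : x ∈ A ∧ x ∉ A.nonunits ∧ x ≠ 0 ∧ x⁻¹ ∈ A := by
  have h1 : x ∈ A := by
    have := A.add_mem _ _ (nonunits_mem h) A.one_mem
    simpa using this
  have h2 : x ∉ A.nonunits := by
    intro hx
    have := nonunits_sub hx h
    rw [sub_sub_cancel] at this
    exact one_not_nonunits this
  refine ⟨h1, h2, ?_, inv_mem_of_not_nonunits h1 h2⟩
  rintro rfl
  exact h2 zero_nonunits

theorem int_mem (n : ℤ) : (n : ℂ) ∈ A := intCast_mem A n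
theorem nat_mem (n : ℕ) : (n : ℂ) ∈ A := natCast_mem A n

/-- even integers -/
theorem even_nonunits (hA : Above2 A) {n : ℤ} (h : Even n) : (n : ℂ) ∈ A.nonunits := by
  obtain ⟨k, rfl⟩ := h
  have := nonunits_mul_left (int_mem (A := A) k) hA
  convert this using 1
  push_cast
  ring

/-- odd integers -/
theorem odd_sub_one (hA : Above2 A) {n : ℤ} (h : Odd n) : (n : ℂ) - 1 ∈ A.nonunits := by
  have := even_nonunits hA (n := n - 1) (by
    obtain ⟨k, rfl⟩ := h
    exact ⟨k, by ring⟩)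
  simpa using this

theorem nonunits_pow_sub_one (h : x - 1 ∈ A.nonunits) (n : ℕ) : x ^ n - 1 ∈ A.nonunits := by
  have hx := (unit_of_sub_one h).1
  induction n with
  | zero => simp [zero_nonunits]
  | succ n ih =>
    have := nonunits_add (nonunits_mul_left hx ih) h
    convert this using 1
    ring

theorem mul_sub_one (hx : x - 1 ∈ A.nonunits) (hy : y - 1 ∈ A.nonunits) :
    x * y - 1 ∈ A.nonunits := by
  have := nonunits_add (nonunits_mul_left (unit_of_sub_one hx).1 hy) hx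
  convert this using 1
  ring

theorem inv_sub_one (hx : x - 1 ∈ A.nonunits) : x⁻¹ - 1 ∈ A.nonunits := by
  obtain ⟨_, _, h0, hi⟩ := unit_of_sub_one hx
  have := nonunits_neg (nonunits_mul_left hi hx)
  convert this using 1
  field_simp
  ring

/-- `A` is integrally closed: roots of monic polynomials with coefficients in `A` -/
theorem mem_of_root {n : ℕ} {c : ℕ → ℂ} (hc : ∀ i < n, c i ∈ A)
    (h : x ^ n + ∑ i ∈ Finset.range n, c i * x ^ i = 0) : x ∈ A := by
  by_contra hx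
  have hv : 1 < A.valuation x := by
    rw [← A.valuation_le_one_iff, not_le] at hx; exact hx
  have h0 : x ≠ 0 := by
    rintro rfl
    simp at hv
  rcases Nat.eq_zero_or_pos n with rfl | hn
  · simp at h
  have h1 : x ^ n = - ∑ i ∈ Finset.range n, c i * x ^ i := by linear_combination h
  have h2 : A.valuation (∑ i ∈ Finset.range n, c i * x ^ i) ≤ A.valuation x ^ (n - 1) := by
    refine A.valuation.map_sum_le fun i hi => ?_
    rw [Finset.mem_range] at hi
    rw [map_mul, map_pow]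
    calc A.valuation (c i) * A.valuation x ^ i ≤ 1 * A.valuation x ^ (n - 1) := by
          gcongr
          · exact (A.valuation_le_one_iff _).2 (hc i hi)
          · exact hv.le
          · omega
      _ = _ := one_mul _
  have h3 : A.valuation x ^ n ≤ A.valuation x ^ (n - 1) := by
    rw [← map_pow, h1, Valuation.map_neg]
    exact h2
  have h4 : A.valuation x ^ (n - 1) < A.valuation x ^ n :=
    pow_lt_pow_right₀ hv (by omega)
  exact absurd h3 (not_le.2 h4)

/-- roots of unity are in `A` -/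
theorem rootOfUnity_mem {n : ℕ} (hn : 0 < n) (h : x ^ n = 1) : x ∈ A := by
  rw [← A.valuation_le_one_iff]
  have h1 : A.valuation x ^ n = 1 := by rw [← map_pow, h, map_one]
  by_contra h2
  exact absurd h1 (one_lt_pow₀ (not_le.1 h2) hn.ne').ne'

end val

end

end Pool.Agent.Lib.MP_7c08ba_nt.RZC
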