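import Pool.Agent.Lib.MP_7c08ba_nt.RZ.StmtsC3

set_option autoImplicit false

/-! Helper lemmas for part (C3). -/

namespace Pool.Agent.Lib.MP_7c08ba_nt.RZC3

open UpperHalfPlane ModularForm EisensteinSeries MatrixGroups NumberField RZC
open scoped Real Manifold ComplexConjugate

noncomputable section

variable {w₁ w₂ : ℂ}

theorem pos_third (h : Pos w₁ w₂) : Pos w₁ (w₂ / 3) := by
  simpa using h.scale (r := 3) (by norm_num)

theorem pos_ninth (h : Pos w₁ w₂) : Pos w₁ (w₂ / 9) := by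
  simpa using h.scale (r := 9) (by norm_num)

theorem pos_third_left (h : Pos w₁ w₂) : Pos (w₁ / 3) w₂ := by
  unfold Pos at *
  have h1 : w₁ / 3 / w₂ = ((1 / 3 : ℝ) : ℂ) * (w₁ / w₂) := by
    push_cast
    ring
  rw [h1, Complex.im_ofReal_mul]
  positivity

section val
variable {A : ValuationSubring ℂ} {x y : ℂ}

/-- multiples of 3 -/
theorem three_dvd_nonunits (hA : Above3 A) {n : ℤ} (h : (3 : ℤ) ∣ n) : (n : ℂ) ∈ A.nonunits := by
  obtain ⟨k, rfl⟩ := h
  have := nonunits_mul_right hA (int_mem (A := A) k)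
  simpa using this

/-- multiples of 3, natural numbers -/
theorem three_dvd_nonunits_nat (hA : Above3 A) {n : ℕ} (h : 3 ∣ n) : (n : ℂ) ∈ A.nonunits := by
  have := three_dvd_nonunits hA (n := (n : ℤ)) (by exact_mod_cast h)
  simpa using this

/-- congruences of integers modulo 3 -/
theorem int_modEq_nonunits (hA : Above3 A) {a b : ℤ} (h : (3 : ℤ) ∣ a - b) :
    (a : ℂ) - b ∈ A.nonunits := by
  have := three_dvd_nonunits hA h
  simpa using this

/-- an integer which is not divisible by 3 is a unit of `A` -/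
theorem not_three_dvd_unit (hA : Above3 A) {n : ℤ} (h : ¬ (3 : ℤ) ∣ n) :
    (n : ℂ) ∉ A.nonunits ∧ ((n : ℂ))⁻¹ ∈ A := by
  have h1 : (n : ℂ) ∉ A.nonunits := by
    intro hn
    have hc : IsCoprime (3 : ℤ) n :=
      (Int.prime_three.coprime_iff_not_dvd).2 h
    obtain ⟨u, v, huv⟩ := hc
    have h2 := nonunits_add (nonunits_mul_left (int_mem (A := A) u) hA)
      (nonunits_mul_left (int_mem (A := A) v) hn)
    have h3 : (u : ℂ) * 3 + (v : ℂ) * (n : ℂ) = 1 := by exact_mod_cast huv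
    rw [h3] at h2
    exact one_not_nonunits h2
  exact ⟨h1, inv_mem_of_not_nonunits (int_mem n) h1⟩

/-- `n ^ k = 1` modulo 3 for even `k` and `n` prime to 3 -/
theorem pow_even_sub_one (hA : Above3 A) {n : ℤ} (h : ¬ (3 : ℤ) ∣ n) {k : ℕ} (hk : Even k) :
    (n : ℂ) ^ k - 1 ∈ A.nonunits := by
  obtain ⟨j, rfl⟩ := hk
  have h1 : (3 : ℤ) ∣ n ^ 2 - 1 := by
    have h2 : n % 3 = 1 ∨ n % 3 = 2 := by omega
    rcases h2 with h2 | h2
    · obtain ⟨t, ht⟩ : ∃ t, n = 3 * t + 1 := ⟨n / 3, by omega⟩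
      exact ⟨3 * t ^ 2 + 2 * t, by rw [ht]; ring⟩
    · obtain ⟨t, ht⟩ : ∃ t, n = 3 * t + 2 := ⟨n / 3, by omega⟩
      exact ⟨3 * t ^ 2 + 4 * t + 1, by rw [ht]; ring⟩
  have h3 := three_dvd_nonunits hA h1
  have h4 : ((n ^ 2 - 1 : ℤ) : ℂ) = (n : ℂ) ^ 2 - 1 := by push_cast; ring
  rw [h4] at h3
  have h5 := nonunits_pow_sub_one h3 j
  rwa [← pow_mul, two_mul] at h5

/-- the same for the inverse and natural numbers -/
theorem nat_pow_even_sub_one (hA : Above3 A) {n : ℕ} (h : ¬ 3 ∣ n) {k : ℕ} (hk : Even k) :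
    (n : ℂ) ^ k - 1 ∈ A.nonunits ∧ ((n : ℂ) ^ k)⁻¹ - 1 ∈ A.nonunits := by
  have h1 := pow_even_sub_one hA (n := (n : ℤ)) (by exact_mod_cast h) hk
  rw [Int.cast_natCast] at h1
  exact ⟨h1, inv_sub_one h1⟩

/-- `n ^ k = n` modulo 3 for odd `k` -/
theorem pow_odd_sub (hA : Above3 A) {n : ℤ} {k : ℕ} (hk : Odd k) :
    (n : ℂ) ^ k - n ∈ A.nonunits := by
  by_cases h : (3 : ℤ) ∣ n
  · refine nonunits_sub ?_ (three_dvd_nonunits hA h)
    have := three_dvd_nonunits hA (dvd_pow h (Nat.ne_of_odd_add (by simpa using hk) : k ≠ 0))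
    simpa using this
  · obtain ⟨j, rfl⟩ := hk
    have := nonunits_mul_right (pow_even_sub_one hA h (even_two_mul j)) (int_mem (A := A) n)
    convert this using 1
    ring

/-- the prime `p ≠ 3` -/
theorem prime_not_three_dvd {p : ℕ} (hp : p.Prime) (h3 : p ≠ 3) : ¬ 3 ∣ p := fun h =>
  h3 ((Nat.prime_dvd_prime_iff_eq Nat.prime_three hp).1 h).symm

end val

end

end Pool.Agent.Lib.MP_7c08ba_nt.RZC3
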