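import Mathlib
import Pool.Agent.Lib.MP_7c08ba_nt.RZ.DDefs
import Pool.Agent.Lib.MP_7c08ba_nt.RZ.DMain
import Pool.Agent.Lib.MP_7c08ba_nt.RZ.DPl
import Pool.Agent.Lib.MP_7c08ba_nt.Odd.Place
import Pool.Agent.Lib.MP_7c08ba_nt.RZ.C.Final

set_option autoImplicit false

/-!
Final assembly: non-vanishing of the central value and of the Selmer group.
-/

namespace Pool.Agent.Lib.MP_7c08ba_nt

namespace RZ

open NumberField Matrix IsDedekindDomain BKGen BKGen.Genus BKOdd MP_7c08ba.Crys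
open scoped MatrixGroups nonZeroDivisors

section Val

variable {L : Type} [NormedField L] [IsUltrametricDist L]

/-- The valuation ring of an embedding of the complex numbers. -/
def valRing (ι : ℂ →+* L) : ValuationSubring ℂ where
  carrier := {x | ‖ι x‖ ≤ 1}
  mul_mem' {x y} hx hy := by
    change ‖ι (x * y)‖ ≤ 1
    rw [map_mul, norm_mul]
    exact mul_le_one₀ hx (norm_nonneg _) hy
  one_mem' := by
    change ‖ι 1‖ ≤ 1
    rw [map_one, norm_one]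
  add_mem' {x y} hx hy := by
    change ‖ι (x + y)‖ ≤ 1
    rw [map_add]
    exact (IsUltrametricDist.norm_add_le_max _ _).trans (max_le hx hy)
  zero_mem' := by
    change ‖ι 0‖ ≤ 1
    rw [map_zero, norm_zero]
    exact zero_le_one
  neg_mem' {x} hx := by
    change ‖ι (-x)‖ ≤ 1
    rw [map_neg, norm_neg]
    exact hx
  mem_or_inv_mem' x := by
    change ‖ι x‖ ≤ 1 ∨ ‖ι x⁻¹‖ ≤ 1
    rw [map_inv₀, norm_inv]
    rcases le_total ‖ι x‖ 1 with h | h
    · exact Or.inl h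
    · exact Or.inr (inv_le_one_of_one_le₀ h)

lemma mem_valRing (ι : ℂ →+* L) {x : ℂ} : x ∈ valRing ι ↔ ‖ι x‖ ≤ 1 := Iff.rfl

lemma mem_nonunits_valRing (ι : ℂ →+* L) {x : ℂ} : x ∈ (valRing ι).nonunits ↔ ‖ι x‖ < 1 := by
  rw [ValuationSubring.mem_nonunits_iff]
  by_cases hx : x = 0
  · rw [hx, map_zero, map_zero, norm_zero]
    exact ⟨fun _ => one_pos, fun _ => zero_lt_one⟩
  have h1 : (valRing ι).valuation x < 1 ↔ ¬ ((valRing ι).valuation x⁻¹ ≤ 1) := by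
    rw [map_inv₀, not_le]
    have h2 : (valRing ι).valuation x ≠ 0 := by rwa [Ne, Valuation.zero_iff]
    exact (one_lt_inv₀ (zero_lt_iff.mpr h2)).symm
  rw [h1, ValuationSubring.valuation_le_one_iff, mem_valRing, map_inv₀, norm_inv, not_le]
  have h3 : 0 < ‖ι x‖ := by rwa [norm_pos_iff, Ne, map_eq_zero]
  exact one_lt_inv₀ h3

end Val

section Mat

variable {L : Type} [Field L]

lemma trace_inv_two (u : GL (Fin 2) L) : (u⁻¹ : Matrix (Fin 2) (Fin 2) L).trace =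
    (u : Matrix (Fin 2) (Fin 2) L).trace * (u : Matrix (Fin 2) (Fin 2) L).det⁻¹ := by
  have h1 : (u : Matrix (Fin 2) (Fin 2) L)⁻¹ = (u : Matrix (Fin 2) (Fin 2) L).det⁻¹ •
      (u : Matrix (Fin 2) (Fin 2) L).adjugate := by
    rw [Matrix.inv_def, Ring.inverse_eq_inv']
  rw [h1, Matrix.trace_smul, Matrix.adjugate_fin_two, Matrix.trace_fin_two, Matrix.trace_fin_two]
  simp only [Matrix.of_apply, Matrix.cons_val', Matrix.cons_val_zero, Matrix.cons_val_one,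
    Matrix.cons_val_fin_one, smul_eq_mul]
  ring

end Mat

section Main

variable {F : Type} [Field F] [NumberField F] {w : ℕ} {L : Type} [NormedField L]
  [NormedAlgebra ℚ_[2] L]

lemma ultra (L : Type) [NormedField L] [NormedAlgebra ℚ_[2] L] : IsUltrametricDist L := by
  apply IsUltrametricDist.isUltrametricDist_of_forall_norm_natCast_le_one
  intro n
  have h : (n : L) = algebraMap ℚ_[2] L n := (map_natCast _ n).symm
  rw [h, norm_algebraMap']
  exact_mod_cast Padic.norm_int_le_one (p := 2) n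

lemma norm_two (L : Type) [NormedField L] [NormedAlgebra ℚ_[2] L] : ‖(2 : L)‖ = 1 / 2 := by
  have h : (2 : L) = algebraMap ℚ_[2] L 2 := (map_ofNat _ 2).symm
  have h2 : ‖((2 : ℕ) : ℚ_[2])‖ = ((2 : ℕ) : ℝ)⁻¹ := Padic.norm_p
  rw [h, norm_algebraMap', one_div]
  exact_mod_cast h2

lemma tv_nonunit (hO : RZC.StOddZero) {f : CuspForm 𝒮ℒ (w : ℤ)} (hf : IsEigen f)
    {A : ValuationSubring ℂ} (hA : RZC.Above2 A) (v : HeightOneSpectrum (𝓞 F)) {p : ℕ}
    (hp : p.Prime) (hp2 : p ≠ 2)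
    (hcase : Ideal.absNorm v.asIdeal = p ∨ Ideal.absNorm v.asIdeal = p ^ 2) :
    tv f v ∈ A.nonunits := by
  have hap : coef f p ∈ A.nonunits := hO A hA w f (RZC.isEig_of hf) p hp hp2
  have hap' : coef f p ∈ A := RZC.nonunits_mem hap
  unfold tv
  rcases hcase with h | h
  · rw [h, if_pos hp]
    exact hap
  · have h1 : ¬ (p ^ 2).Prime := by
      rw [pow_two]
      exact Nat.not_prime_mul hp.ne_one hp.ne_one
    have h2 : (p ^ 2).minFac = p := hp.pow_minFac two_ne_zero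
    rw [h, if_neg h1, h2]
    refine RZC.nonunits_sub ?_ (RZC.nonunits_mul_right hA (A.pow_mem (RZC.nat_mem p) _))
    rw [pow_two]
    exact RZC.nonunits_mul_left hap' hap

/-- Frobenius elements have trace zero and determinant one modulo the maximal ideal. -/
theorem frob_congr (hO : RZC.StOddZero) (hF : Module.finrank ℚ F = 2) {f : CuspForm 𝒮ℒ (w : ℤ)}
    (hf : IsEigen f) {ψ : Ideal (𝓞 F) →*₀ ℂ} {r : ℕ} {ι : ℂ →+* L} (hι : ResidueOne ψ ι)
    (v : HeightOneSpectrum (𝓞 F)) (hv : (2 : 𝓞 F) ∉ v.asIdeal) :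
    ‖ι (frobTrace f ψ r v)‖ < 1 ∧ ‖ι (frobDet w ψ r v) - 1‖ < 1 := by
  have hul := ultra L
  have hL2 : ‖(2 : L)‖ < 1 := by rw [norm_two]; norm_num
  set A := valRing ι with hA0
  have hA : RZC.Above2 A := by
    rw [RZC.Above2, mem_nonunits_valRing, map_ofNat]
    exact hL2
  obtain ⟨p, hp, hpv, hcase⟩ := absNorm_cases hF v
  have hp2 : p ≠ 2 := by
    rintro rfl
    exact hv (by exact_mod_cast hpv)
  have hNodd : Odd (Ideal.absNorm v.asIdeal) := by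
    rcases hcase with h | h
    · rw [h]
      exact hp.odd_of_ne_two hp2
    · rw [h]
      exact (hp.odd_of_ne_two hp2).pow
  set N := Ideal.absNorm v.asIdeal with hN
  have hψ : ψ v.asIdeal - 1 ∈ A.nonunits := by
    rw [mem_nonunits_valRing, map_sub, map_one]
    exact hι _ hNodd
  have hNu : (N : ℂ) - 1 ∈ A.nonunits := by
    have := RZC.odd_sub_one hA (n := (N : ℤ)) (by exact_mod_cast hNodd)
    simpa using this
  have hpow : ∀ k : ℕ, (N : ℂ) ^ k - 1 ∈ A.nonunits := RZC.nonunits_pow_sub_one hNu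
  constructor
  · rw [← mem_nonunits_valRing]
    unfold frobTrace
    rw [div_eq_mul_inv, mul_assoc]
    refine RZC.nonunits_mul_right (tv_nonunit hO hf hA v hp hp2 hcase) ?_
    exact A.mul_mem _ _ (RZC.unit_of_sub_one hψ).1 (RZC.unit_of_sub_one (hpow _)).2.2.2
  · have h1 : ι (frobDet w ψ r v) - 1 = ι (frobDet w ψ r v - 1) := by rw [map_sub, map_one]
    rw [h1, ← mem_nonunits_valRing]
    unfold frobDet
    rw [div_eq_mul_inv]
    exact RZC.mul_sub_one (RZC.mul_sub_one (hpow _) (RZC.nonunits_pow_sub_one hψ 2))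
      (RZC.inv_sub_one (hpow _))

omit [NormedAlgebra ℚ_[2] L] in
/-- The absolute value of the character at the place given by the embedding. -/
theorem norm_psi {σ : F →+* ℂ} {k : ℕ} {ψ : Ideal (𝓞 F) →*₀ ℂ} (hψ : IsHecke σ k ψ)
    {ι : ℂ →+* L} {j : F →+* ℚ_[2]} (hj : ∀ x : F, ‖j x‖ = ‖ι (σ x)‖)
    {v : HeightOneSpectrum (𝓞 F)} (hv : ∀ x : 𝓞 F, x ∈ v.asIdeal ↔ ‖j x‖ < 1) :
    ‖ι (ψ v.asIdeal)‖ ≤ (1 / 2) ^ k := by
  classical
  let a : (Ideal (𝓞 F))⁰ := ⟨v.asIdeal, mem_nonZeroDivisors_iff_ne_zero.mpr v.ne_bot⟩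
  set h := Fintype.card (ClassGroup (𝓞 F)) with hh
  have h0 : h ≠ 0 := Fintype.card_ne_zero
  have h1 : ClassGroup.mk0 (a ^ h) = 1 := by
    rw [map_pow]
    exact pow_card_eq_one
  rw [ClassGroup.mk0_eq_one_iff] at h1
  obtain ⟨t, ht⟩ := h1
  rw [Ideal.submodule_span_eq] at ht
  have ht' : v.asIdeal ^ h = Ideal.span {t} := by
    rw [← ht]
    rfl
  have ht0 : t ≠ 0 := by
    rintro rfl
    rw [Ideal.span_singleton_eq_bot.mpr rfl] at ht'
    exact pow_ne_zero h v.ne_bot ht'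
  have h2 : ψ v.asIdeal ^ h = σ t ^ k := by
    rw [← map_pow, ht']
    exact hψ t ht0
  have h3 : ‖j t‖ ≤ (1 / 2) ^ h := by
    refine norm_le_pow_of_mem (fun x hx => (hv x).mp hx) h t ?_
    rw [ht']
    exact Ideal.mem_span_singleton_self t
  have h4 : ‖ι (ψ v.asIdeal)‖ ^ h ≤ ((1 / 2) ^ k) ^ h := by
    rw [← norm_pow, ← map_pow, h2, map_pow, norm_pow, ← hj, ← pow_mul, mul_comm k h, pow_mul]
    exact pow_le_pow_left₀ (norm_nonneg _) h3 k
  exact (pow_le_pow_iff_left₀ (norm_nonneg _) (by positivity) h0).mp h4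

/-- At the place given by the embedding, `1` is not a root of the Hecke polynomial. -/
theorem ne_at_two (hD : RZC.StDelta) (hF : Module.finrank ℚ F = 2) {f : CuspForm 𝒮ℒ (w : ℤ)}
    (hf : IsEigen f) {σ : F →+* ℂ} {r : ℕ} {ψ : Ideal (𝓞 F) →*₀ ℂ}
    (hψ : IsHecke σ (w + 2 * r) ψ)
    {ι : ℂ →+* L} {j : F →+* ℚ_[2]} (hj : ∀ x : F, ‖j x‖ = ‖ι (σ x)‖)
    {v : HeightOneSpectrum (𝓞 F)} (hv : ∀ x : 𝓞 F, x ∈ v.asIdeal ↔ ‖j x‖ < 1) :
    1 - ι (frobTrace f ψ r v) + ι (frobDet w ψ r v) ≠ 0 := by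
  have hul := ultra L
  have hL2 : ‖(2 : L)‖ < 1 := by rw [norm_two]; norm_num
  have hA : RZC.Above2 (valRing ι) := by
    rw [RZC.Above2, mem_nonunits_valRing, map_ofNat]
    exact hL2
  obtain ⟨hw1, ha2⟩ : 1 < w ∧ ‖ι (coef f 2)‖ < 1 := by
    refine ⟨by have := (RZC.weight_ge hf.one).1; omega, ?_⟩
    rw [← mem_nonunits_valRing]
    exact (hD.2.2 (valRing ι) hA w f (RZC.isEig_of hf)).1
  have hN := absNorm_eq_two hF hv
  have hψn := norm_psi hψ hj hv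
  have h2 : ‖ι ((2 : ℕ) : ℂ)‖ = 1 / 2 := by
    rw [map_natCast, Nat.cast_ofNat, norm_two]
  have hps0 : (0 : ℝ) < (1 / 2) ^ (w + r) := by positivity
  have h3 : ‖ι (frobTrace f ψ r v)‖ < 1 := by
    unfold frobTrace tv
    rw [hN, if_pos Nat.prime_two, map_div₀, map_mul, norm_div, norm_mul, map_pow, norm_pow, h2,
      div_lt_one hps0]
    calc ‖ι (coef f 2)‖ * ‖ι (ψ v.asIdeal)‖ ≤ ‖ι (coef f 2)‖ * (1 / 2) ^ (w + 2 * r) :=
          mul_le_mul_of_nonneg_left hψn (norm_nonneg _)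
      _ < 1 * (1 / 2) ^ (w + 2 * r) := mul_lt_mul_of_pos_right ha2 (by positivity)
      _ ≤ (1 / 2) ^ (w + r) := by
          rw [one_mul]
          exact pow_le_pow_of_le_one (by norm_num) (by norm_num) (by omega)
  have h4 : ‖ι (frobDet w ψ r v)‖ < 1 := by
    unfold frobDet
    rw [hN, map_div₀, map_mul, norm_div, norm_mul, map_pow, map_pow, map_pow, norm_pow, norm_pow,
      norm_pow, h2, div_lt_one (by positivity)]
    calc (1 / 2 : ℝ) ^ (w - 1) * ‖ι (ψ v.asIdeal)‖ ^ 2 ≤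
          (1 / 2) ^ (w - 1) * ((1 / 2) ^ (w + 2 * r)) ^ 2 := by
          refine mul_le_mul_of_nonneg_left ?_ (by positivity)
          exact pow_le_pow_left₀ (norm_nonneg _) hψn 2
      _ = (1 / 2) ^ (w - 1 + (w + 2 * r) * 2) := by rw [← pow_mul, ← pow_add]
      _ < (1 / 2) ^ (2 * (w + r)) := by
          exact pow_lt_pow_right_of_lt_one₀ (by norm_num) (by norm_num) (by omega)
  intro h5
  have h6 : (1 : L) = ι (frobTrace f ψ r v) + -ι (frobDet w ψ r v) := by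
    linear_combination h5
  have h7 := IsUltrametricDist.norm_add_le_max (ι (frobTrace f ψ r v)) (-ι (frobDet w ψ r v))
  rw [← h6, norm_one, norm_neg] at h7
  exact absurd (max_lt h3 h4) (not_lt.mpr h7)

/-- The Bloch–Kato Selmer group vanishes. -/
theorem h1f_eq_bot (hO : RZC.StOddZero) (hD : RZC.StDelta) {q : ℕ} (hq : q.Prime)
    (h16 : q % 16 = 7) (hF : Module.finrank ℚ F = 2) {s : F} (hs : s ^ 2 = -(q : F))
    {f : CuspForm 𝒮ℒ (w : ℤ)} (hf : IsEigen f) {σ : F →+* ℂ} {r : ℕ} {ψ : Ideal (𝓞 F) →*₀ ℂ}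
    (hψ : IsHecke σ (w + 2 * r) ψ) {ι : ℂ →+* L} (hι : ResidueOne ψ ι)
    {ρ : AbsGal F →* GL (Fin 2) L} (hρ : IsTwoAdic σ f ψ r ι ρ) : H1f 2 ρ = ⊥ := by
  have hul := ultra L
  have hL2 : ‖(2 : L)‖ < 1 := by rw [norm_two]; norm_num
  obtain ⟨j, hj⟩ := exists_padic h16 hF hs (ι.comp σ)
  have hjn : ∀ x : F, ‖j x‖ = ‖ι (σ x)‖ := fun x => by
    rw [← norm_algebraMap' L (j x), hj]
    rfl
  obtain ⟨j₀, hj₀⟩ := exists_ext j
  obtain ⟨v, hv⟩ := exists_place j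
  have hj₀n : ∀ x : F, ‖j₀ (algebraMap F (AlgebraicClosure F) x)‖ = ‖ι (σ x)‖ := fun x => by
    rw [hj₀, hjn]
  have hP₀ : LiesAt j (primeOf j₀) := by
    refine ⟨primeOf_isPrime j₀, fun x => ?_⟩
    rw [← hj₀]
    rfl
  have hunr : ∀ P : Ideal (AllInt F), P.IsPrime → (2 : AllInt F) ∉ P → ∀ g ∈ inert F P,
      ρ g = 1 := by
    intro P hP h2 g hg
    exact unr_of_emb (p := 2) hρ.unramified P hP (by rwa [Nat.cast_ofNat]) g hg
  have hrank : selmerRank ρ (primeOf j₀) = 0 := by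
    refine selmerRank_eq_zero hq h16 hF hs j hL2 hρ.continuous hunr ?_ hP₀
    intro P hP h2P g hg
    have hne := ne_bot_of_isFrobenius hg
    let v' : HeightOneSpectrum (𝓞 F) := ⟨P.under (𝓞 F), Ideal.IsPrime.under (𝓞 F) P, hne⟩
    have hv' : (2 : 𝓞 F) ∉ v'.asIdeal := by
      intro h
      have h1 : algebraMap (𝓞 F) (AllInt F) 2 ∈ P := h
      rw [map_ofNat] at h1
      exact h2P h1
    obtain ⟨ht, hd⟩ := hρ.frobenius v' P hP h2P rfl g hg
    obtain ⟨h1, h2⟩ := frob_congr (r := r) hO hF hf hι v' hv'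
    have hg' : ρ g = (ρ g⁻¹)⁻¹ := by rw [map_inv, inv_inv]
    have hdet1 : ‖(ρ g⁻¹ : Matrix (Fin 2) (Fin 2) L).det‖ = 1 := by
      rw [hd]
      have h3 : ι (frobDet w ψ r v') = (ι (frobDet w ψ r v') - 1) + 1 := by ring
      rw [h3, IsUltrametricDist.norm_add_eq_max_of_norm_ne_norm (by rw [norm_one]; exact h2.ne),
        norm_one]
      exact max_eq_right h2.le
    constructor
    · rw [hg', Matrix.coe_units_inv, trace_inv_two, norm_mul, norm_inv, hdet1, inv_one, mul_one,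
        ht]
      exact h1
    · rw [hg', Matrix.coe_units_inv, Matrix.det_nonsing_inv, Ring.inverse_eq_inv']
      have h3 : (ρ g⁻¹ : Matrix (Fin 2) (Fin 2) L).det ≠ 0 := by
        intro h4
        rw [h4, norm_zero] at hdet1
        exact zero_ne_one hdet1
      have h4 : (ρ g⁻¹ : Matrix (Fin 2) (Fin 2) L).det⁻¹ - 1 =
          -((ρ g⁻¹ : Matrix (Fin 2) (Fin 2) L).det - 1) *
            (ρ g⁻¹ : Matrix (Fin 2) (Fin 2) L).det⁻¹ := by
        field_simp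
        ring
      rw [h4, norm_mul, norm_neg, norm_inv, hdet1, inv_one, mul_one, hd]
      exact h2
  have hle : selmer ρ (primeOf j₀) ≤ coboundOn ρ ⊤ := by
    rw [selmerRank, rank_zero_iff, Submodule.Quotient.subsingleton_iff] at hrank
    intro x hx
    have h1 : (⟨x, hx⟩ : selmer ρ (primeOf j₀)) ∈
        (coboundOn ρ ⊤).submoduleOf (selmer ρ (primeOf j₀)) := by
      rw [hrank]
      exact Submodule.mem_top
    exact h1
  have hZ : Z1f 2 ρ ≤ B1 ρ := by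
    rintro x ⟨hx, hun, hcr⟩
    have hx1 : x 1 = 0 := by
      have h1 := hx.2 1 1
      rw [mul_one, map_one, Units.val_one, Matrix.one_mulVec] at h1
      exact left_eq_add.mp h1
    have hmem : x ∈ selmer ρ (primeOf j₀) := by
      refine ⟨⟨⟨hx.1, hx.2⟩, ?_⟩, ?_⟩
      · refine cob_of_zcris j₀ ρ (hρ.weights j₀ hj₀n) (ne_at_two hD hF hf hψ hjn hv)
          (hρ.crystalline j₀ hj₀n v ?_) ((isTriv_iff j₀ ρ x).mp (hcr j₀))
        intro x
        rw [hv, hjn]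
      · rw [SetLike.mem_coe, Submodule.mem_iInf]
        rintro ⟨P, hP, h2⟩
        exact cob_of_emb hx1 hun P hP (by rwa [Nat.cast_ofNat])
    obtain ⟨y, hy⟩ := hle hmem
    exact ⟨y, funext fun g => (hy g (Subgroup.mem_top g)).symm⟩
  rw [eq_bot_iff]
  intro ξ hξ
  obtain ⟨x, hx, hxS, rfl⟩ := mem_cls.mp hξ
  rw [Submodule.mem_bot, Submodule.mkQ_apply, Submodule.Quotient.mk_eq_zero]
  exact hZ hxS

/-- The Euler factors. -/
lemma eulF_eq (f : CuspForm 𝒮ℒ (w : ℤ)) (ψ : Ideal (𝓞 F) →*₀ ℂ) (r : ℕ) (z : ℂ)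
    (v : HeightOneSpectrum (𝓞 F)) : eulF f ψ ((w : ℂ) + r + z) v =
      1 - frobTrace f ψ r v * (Ideal.absNorm v.asIdeal : ℂ) ^ (-z) +
        frobDet w ψ r v * ((Ideal.absNorm v.asIdeal : ℂ) ^ (-z)) ^ 2 := by
  have hN : (Ideal.absNorm v.asIdeal : ℂ) ≠ 0 := by
    have h : Ideal.absNorm v.asIdeal ≠ 0 := by
      rw [Ne, Ideal.absNorm_eq_zero_iff]
      exact v.ne_bot
    exact_mod_cast h
  have h1 : (Ideal.absNorm v.asIdeal : ℂ) ^ (-((w : ℂ) + r + z)) =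
      (Ideal.absNorm v.asIdeal : ℂ) ^ (-z) / (Ideal.absNorm v.asIdeal : ℂ) ^ (w + r) := by
    have h2 : -((w : ℂ) + r + z) = -z - ((w + r : ℕ) : ℂ) := by
      push_cast
      ring
    rw [h2, Complex.cpow_sub _ _ hN, Complex.cpow_natCast]
  unfold eulF frobTrace frobDet
  rw [h1, mul_comm 2 (w + r), pow_mul]
  ring

/-- Existence of the `L`-function, non-vanishing at the centre. -/
theorem lfun (hM : StMain) (hC : StmtC) {q : ℕ} (hq : q.Prime) (h16 : q % 16 = 7)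
    (hF : Module.finrank ℚ F = 2) {s : F} (hs : s ^ 2 = -(q : F)) {f : CuspForm 𝒮ℒ (w : ℤ)}
    (hf : IsEigen f) {σ : F →+* ℂ} {r : ℕ} {ψ : Ideal (𝓞 F) →*₀ ℂ}
    (hψ : IsHecke σ (w + 2 * r) ψ) {ι : ℂ →+* L} (hι : ResidueOne ψ ι) :
    ∃ Λ : ℂ → ℂ, IsLFunction f ψ r Λ ∧ Λ 0 ≠ 0 := by
  have hul := ultra L
  have hL2 : ‖(2 : L)‖ < 1 := by rw [norm_two]; norm_num
  obtain ⟨Λ, h1, h2, h3⟩ := hM q F _ _ s σ w r f ψ hq h16 hF hs hf hψ
  have hres : ResTriv (valRing ι) ψ := by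
    refine ⟨?_, fun a ha => ?_⟩
    · rw [← ValuationSubring.mem_nonunits_iff, mem_nonunits_valRing, map_ofNat]
      exact hL2
    · rw [← ValuationSubring.mem_nonunits_iff, mem_nonunits_valRing, map_sub, map_one]
      exact hι a ha
  obtain ⟨c, hc⟩ := hC q F _ _ s σ (valRing ι) w r f ψ hq h16 hF hs hf hψ hres
  obtain ⟨K, hK, hK'⟩ := h3 c
  refine ⟨Λ, ⟨h1, fun z hz => ?_⟩, ?_⟩
  · have h4 := h2 z hz
    simp only [eulF_eq] at h4
    exact h4
  · rw [hK']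
    exact mul_ne_zero hK (pow_ne_zero 2 hc)

/-- Uniqueness of the `L`-function. -/
theorem IsLFunction.unique {f : CuspForm 𝒮ℒ (w : ℤ)} {ψ : Ideal (𝓞 F) →*₀ ℂ} {r : ℕ}
    {Λ Λ' : ℂ → ℂ} (h : IsLFunction f ψ r Λ) (h' : IsLFunction f ψ r Λ') {z : ℂ}
    (hz : -1 / 2 < z.re) : Λ z = Λ' z := by
  have hopen : IsOpen {z : ℂ | -1 / 2 < z.re} := isOpen_lt continuous_const Complex.continuous_re
  have hconv : Convex ℝ {z : ℂ | -1 / 2 < z.re} := convex_halfSpace_re_gt _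
  have h1 : AnalyticOnNhd ℂ Λ {z | -1 / 2 < z.re} := h.differentiable.analyticOnNhd hopen
  have h2 : AnalyticOnNhd ℂ Λ' {z | -1 / 2 < z.re} := h'.differentiable.analyticOnNhd hopen
  refine h1.eqOn_of_preconnected_of_eventuallyEq h2 hconv.isPreconnected (z₀ := 2) ?_ ?_ hz
  · change (-1 / 2 : ℝ) < (2 : ℂ).re
    norm_num
  · have h3 : {z : ℂ | 1 < z.re} ∈ nhds (2 : ℂ) :=
      (isOpen_lt continuous_const Complex.continuous_re).mem_nhds (by
        change (1 : ℝ) < (2 : ℂ).re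
        norm_num)
    filter_upwards [h3] with z hz
    exact (h.euler z hz).unique (h'.euler z hz)

/-- **The Bloch–Kato conjecture in rank zero**, from the statements of the parts. -/
theorem main (hM : StMain) (hC : StmtC) (hO : RZC.StOddZero) (hD : RZC.StDelta) {q : ℕ}
    (hq : q.Prime) (h16 : q % 16 = 7) (hF : Module.finrank ℚ F = 2) {s : F}
    (hs : s ^ 2 = -(q : F)) {f : CuspForm 𝒮ℒ (w : ℤ)} (hf : IsEigen f) {σ : F →+* ℂ} {r : ℕ}
    {ψ : Ideal (𝓞 F) →*₀ ℂ} (hψ : IsHecke σ (w + 2 * r) ψ) {ι : ℂ →+* L}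
    (hι : ResidueOne ψ ι) :
    (∃ Λ : ℂ → ℂ, IsLFunction f ψ r Λ) ∧ (∀ Λ : ℂ → ℂ, IsLFunction f ψ r Λ → Λ 0 ≠ 0) ∧
      ∀ ρ : AbsGal F →* GL (Fin 2) L, IsTwoAdic σ f ψ r ι ρ → H1f 2 ρ = ⊥ := by
  obtain ⟨Λ, hΛ, h0⟩ := lfun hM hC hq h16 hF hs hf hψ hι
  refine ⟨⟨Λ, hΛ⟩, fun Λ' hΛ' => ?_, fun ρ hρ => h1f_eq_bot hO hD hq h16 hF hs hf hψ hι hρ⟩
  rw [hΛ'.unique hΛ (by norm_num)]
  exact h0

end Main

end RZ

end Pool.Agent.Lib.MP_7c08ba_nt
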