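import Mathlib
import Pool.Agent.Lib.MP_7c08ba_nt.RZ.DDefs

set_option autoImplicit false

/-!
The `p`-adic realisation of the base change of an eigenform of level one twisted by an unramified
Hecke character of an imaginary quadratic field.
-/

namespace Pool.Agent.Lib.MP_7c08ba_nt

namespace RZ

open NumberField Matrix IsDedekindDomain BKGen BKOdd MP_7c08ba.Crys
open scoped MatrixGroups

section

variable {F : Type} [Field F] [NumberField F] {w : ℕ}

/-- The values of the character on ideals of norm prime to `p` are congruent to `1` modulo the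
maximal ideal. -/
def ResidueOneAt (p : ℕ) {L : Type} [NormedField L] (ψ : Ideal (𝓞 F) →*₀ ℂ)
    (ι : ℂ →+* L) : Prop :=
  ∀ a : Ideal (𝓞 F), ¬ p ∣ Ideal.absNorm a → ‖ι (ψ a) - 1‖ < 1

/-- The representation `ρ` realises `BC_F(f) ⊗ ψ`, twisted to weight `-1`: it is unramified outside
`p`, a geometric Frobenius at a place `v` not above `p` has trace `frobTrace` and determinant
`frobDet`, and at the place above `p` given by `ι ∘ σ` no Hodge–Tate weight is positive and the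
Frobenius `φ` of `D_cris` satisfies `φ² - frobTrace φ + frobDet = 0`. -/
structure IsPadic (p : ℕ) [Fact p.Prime] {L : Type} [NormedField L] [NormedAlgebra ℚ_[p] L]
    (σ : F →+* ℂ) (f : CuspForm 𝒮ℒ (w : ℤ)) (ψ : Ideal (𝓞 F) →*₀ ℂ) (r : ℕ)
    (ι : ℂ →+* L) (ρ : AbsGal F →* GL (Fin 2) L) : Prop where
  continuous : Continuous ρ
  unramified : ∀ (l : ℕ) [Fact l.Prime], l ≠ p → ∀ j : AlgebraicClosure F →+* PadicAlgCl l,
    ∀ g ∈ Inert F (AlgebraicClosure F) j, ρ g = 1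
  frobenius : ∀ (v : HeightOneSpectrum (𝓞 F)) (P : Ideal (AllInt F)), P.IsPrime →
    (p : AllInt F) ∉ P → P.under (𝓞 F) = v.asIdeal → ∀ g : AbsGal F, IsFrobenius P g →
    (ρ g⁻¹ : Matrix (Fin 2) (Fin 2) L).trace = ι (frobTrace f ψ r v) ∧
    (ρ g⁻¹ : Matrix (Fin 2) (Fin 2) L).det = ι (frobDet w ψ r v)
  weights : ∀ j : AlgebraicClosure F →+* PadicAlgCl p,
    (∀ x : F, ‖j (algebraMap F (AlgebraicClosure F) x)‖ = ‖ι (σ x)‖) → ∀ m : ℕ, 1 ≤ m →
    HTw (toQ j) (lin (ρ.comp (toF j))) m = ⊥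
  crystalline : ∀ j : AlgebraicClosure F →+* PadicAlgCl p,
    (∀ x : F, ‖j (algebraMap F (AlgebraicClosure F) x)‖ = ‖ι (σ x)‖) →
    ∀ v : HeightOneSpectrum (𝓞 F), (∀ x : 𝓞 F, x ∈ v.asIdeal ↔ ‖ι (σ x)‖ < 1) →
    ∀ b ∈ DCris (toQ j) (lin (ρ.comp (toF j))),
      frobV p L (Fin 2 → L) (frobV p L (Fin 2 → L) b) -
        ι (frobTrace f ψ r v) • frobV p L (Fin 2 → L) b + ι (frobDet w ψ r v) • b = 0

end

end RZ

end Pool.Agent.Lib.MP_7c08ba_nt
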