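import Mathlib
import Pool.Agent.Lib.MP_7c08ba_nt.RZ.EDefs
import Pool.Agent.Lib.MP_7c08ba_nt.RZ.EMain
import Pool.Agent.Lib.MP_7c08ba_nt.RZ.DFin
import Pool.Agent.Lib.MP_7c08ba_nt.RZ.Basic3

set_option autoImplicit false

/-!
Congruences modulo the maximal ideal for Frobenius elements, `p = 3`.
-/

namespace Pool.Agent.Lib.MP_7c08ba_nt

namespace RZ

open NumberField Matrix IsDedekindDomain BKGen BKGen.Genus BKOdd MP_7c08ba.Crys
open scoped MatrixGroups nonZeroDivisors

section Mat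

variable {L : Type} [NormedField L] [IsUltrametricDist L]

omit [IsUltrametricDist L] in
/-- Trace `2` and determinant `1` modulo the maximal ideal. -/
lemma coeff_lt_of_trace_det {M : Matrix (Fin 2) (Fin 2) L} (h1 : ‖M.trace - 2‖ < 1)
    (h2 : ‖M.det - 1‖ < 1) (i : ℕ) :
    ‖(M.charpoly - (Polynomial.X - 1) ^ 2).coeff i‖ < 1 := by
  have h3 : M.charpoly - (Polynomial.X - 1) ^ 2 =
      Polynomial.C (2 - M.trace) * Polynomial.X + Polynomial.C (M.det - 1) := by
    rw [Matrix.charpoly_fin_two]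
    simp only [Polynomial.C_sub, Polynomial.C_1]
    have h4 : (Polynomial.C 2 : Polynomial L) = 2 := rfl
    rw [h4]
    ring
  rw [h3]
  match i with
  | 0 =>
    rw [Polynomial.coeff_add, Polynomial.coeff_C_mul, Polynomial.coeff_X_zero, mul_zero, zero_add,
      Polynomial.coeff_C_zero]
    exact h2
  | 1 =>
    rw [Polynomial.coeff_add, Polynomial.coeff_C_mul, Polynomial.coeff_X_one, mul_one,
      Polynomial.coeff_C, if_neg one_ne_zero, add_zero, ← norm_neg, neg_sub]
    exact h1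
  | n + 2 =>
    rw [Polynomial.coeff_add, Polynomial.coeff_C_mul, Polynomial.coeff_X_of_ne_one (by omega),
      mul_zero, Polynomial.coeff_C, if_neg (by omega), add_zero, norm_zero]
    exact one_pos

lemma norm_natCast_le (n : ℕ) : ‖(n : L)‖ ≤ 1 := IsUltrametricDist.norm_natCast_le_one L n

/-- Trace and determinant of the inverse. -/
lemma trace_det_inv {u v : GL (Fin 2) L} (huv : u = v⁻¹)
    (h1 : ‖(v : Matrix (Fin 2) (Fin 2) L).trace - 2‖ < 1)
    (h2 : ‖(v : Matrix (Fin 2) (Fin 2) L).det - 1‖ < 1) :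
    ‖(u : Matrix (Fin 2) (Fin 2) L).trace - 2‖ < 1 ∧
      ‖(u : Matrix (Fin 2) (Fin 2) L).det - 1‖ < 1 := by
  subst huv
  set t := (v : Matrix (Fin 2) (Fin 2) L).trace with ht
  set d := (v : Matrix (Fin 2) (Fin 2) L).det with hd
  have hd1 : ‖d‖ = 1 := by
    have h3 : d = (d - 1) + 1 := by ring
    rw [h3, IsUltrametricDist.norm_add_eq_max_of_norm_ne_norm (by rw [norm_one]; exact h2.ne),
      norm_one]
    exact max_eq_right h2.le
  have hd0 : d ≠ 0 := by
    intro h
    rw [h, norm_zero] at hd1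
    exact zero_ne_one hd1
  constructor
  · rw [Matrix.coe_units_inv, trace_inv_two]
    have h3 : t * d⁻¹ - 2 = ((t - 2) + -(2 * (d - 1))) * d⁻¹ := by
      field_simp
      ring
    rw [← ht, ← hd, h3, norm_mul, norm_inv, hd1, inv_one, mul_one]
    refine lt_of_le_of_lt (IsUltrametricDist.norm_add_le_max _ _) (max_lt h1 ?_)
    rw [norm_neg, norm_mul]
    have h4 : ‖(2 : L)‖ ≤ 1 := by exact_mod_cast norm_natCast_le (L := L) 2
    exact lt_of_le_of_lt (mul_le_of_le_one_left (norm_nonneg _) h4) h2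
  · rw [Matrix.coe_units_inv, Matrix.det_nonsing_inv, Ring.inverse_eq_inv', ← hd]
    have h3 : d⁻¹ - 1 = -(d - 1) * d⁻¹ := by
      field_simp
      ring
    rw [h3, norm_mul, norm_neg, norm_inv, hd1, inv_one, mul_one]
    exact h2

end Mat

section Cong

variable {F : Type} [Field F] [NumberField F] {w : ℕ} {L : Type} [NormedField L]
  [NormedAlgebra ℚ_[3] L]

lemma above3_valRing (ι : ℂ →+* L) : @RZC3.Above3 (@valRing L _ (ultra_p 3 L) ι) := by
  have hul := ultra_p 3 L
  rw [RZC3.Above3, mem_nonunits_valRing, map_ofNat]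
  exact_mod_cast norm_p_lt 3 L

lemma tv_sub_two (hT : RZC3.StTr3) {f : CuspForm 𝒮ℒ (w : ℤ)} (hf : IsEigen f)
    {A : ValuationSubring ℂ} (hA : RZC3.Above3 A) (v : HeightOneSpectrum (𝓞 F)) {p : ℕ}
    (hp : p.Prime)
    (hcase : Ideal.absNorm v.asIdeal = p ∨ Ideal.absNorm v.asIdeal = p ^ 2)
    (hN : Ideal.absNorm v.asIdeal % 3 = 1) : tv f v - 2 ∈ A.nonunits := by
  have hp3 : p ≠ 3 := by
    rintro rfl
    rcases hcase with h | h <;> rw [h] at hN <;> norm_num at hN
  have hap : coef f p - (1 + p) ∈ A.nonunits := hT A hA w f (RZC.isEig_of hf) p hp hp3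
  obtain ⟨hw12, hwe⟩ := RZC.weight_ge hf.one
  unfold tv
  rcases hcase with h | h
  · rw [h, if_pos hp]
    have h1 : ((p : ℕ) : ℂ) - 1 ∈ A.nonunits := by
      have := RZC3.three_dvd_nonunits hA (n := (p : ℤ) - 1) (by
        rw [h] at hN
        omega)
      simpa using this
    have h2 := RZC.nonunits_add hap h1
    have h3 : coef f p - 2 = coef f p - (1 + p) + (p - 1) := by ring
    rw [h3]
    exact h2
  · have h1 : ¬ (p ^ 2).Prime := by
      rw [pow_two]
      exact Nat.not_prime_mul hp.ne_one hp.ne_one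
    have h2 : (p ^ 2).minFac = p := hp.pow_minFac two_ne_zero
    rw [h, if_neg h1, h2]
    have hapA : coef f p + (1 + p) ∈ A := by
      have h3 := A.add_mem _ _ (RZC.nonunits_mem hap) (RZC.nat_mem (A := A) (2 * (1 + p)))
      have h4 : coef f p - (1 + p) + ((2 * (1 + p) : ℕ) : ℂ) = coef f p + (1 + p) := by
        push_cast
        ring
      rwa [h4] at h3
    have h3 : coef f p ^ 2 - (1 + p) ^ 2 ∈ A.nonunits := by
      have := RZC.nonunits_mul_right hap hapA
      convert this using 1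
      ring
    have h4 : ((p : ℕ) : ℂ) ^ (w - 1) - p ∈ A.nonunits := by
      have hodd : Odd (w - 1) := by
        obtain ⟨m, hm⟩ := hwe
        exact ⟨m - 1, by omega⟩
      have := RZC3.pow_odd_sub hA (n := (p : ℤ)) hodd
      simpa using this
    have h5 : ((p : ℕ) : ℂ) ^ 2 - 1 ∈ A.nonunits := by
      have := RZC3.three_dvd_nonunits hA (n := (p : ℤ) ^ 2 - 1) (by
        have h6 : ¬ 3 ∣ p := RZC3.prime_not_three_dvd hp hp3
        have h7 : (p : ℤ) % 3 = 1 ∨ (p : ℤ) % 3 = 2 := by omega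
        rcases h7 with h7 | h7
        · obtain ⟨t, ht⟩ : ∃ t, (p : ℤ) = 3 * t + 1 := ⟨(p : ℤ) / 3, by omega⟩
          exact ⟨3 * t ^ 2 + 2 * t, by rw [ht]; ring⟩
        · obtain ⟨t, ht⟩ : ∃ t, (p : ℤ) = 3 * t + 2 := ⟨(p : ℤ) / 3, by omega⟩
          exact ⟨3 * t ^ 2 + 4 * t + 1, by rw [ht]; ring⟩)
      simpa using this
    have h6 := RZC.nonunits_add (RZC.nonunits_sub h3
      (RZC.nonunits_mul_left (RZC.nat_mem (A := A) 2) h4)) h5
    convert h6 using 1
    push_cast
    ring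

/-- Frobenius elements of `Gal(F(μ₃))` have trace two and determinant one modulo the maximal
ideal. -/
theorem frob_congr_three (hT : RZC3.StTr3) (hF : Module.finrank ℚ F = 2)
    {f : CuspForm 𝒮ℒ (w : ℤ)} (hf : IsEigen f) {ψ : Ideal (𝓞 F) →*₀ ℂ} {r : ℕ} {ι : ℂ →+* L}
    (hι : ResidueOneAt 3 ψ ι) (v : HeightOneSpectrum (𝓞 F))
    (hN : Ideal.absNorm v.asIdeal % 3 = 1) :
    ‖ι (frobTrace f ψ r v) - 2‖ < 1 ∧ ‖ι (frobDet w ψ r v) - 1‖ < 1 := by
  have hul := ultra_p 3 L
  set A := valRing ι with hA0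
  have hA : RZC3.Above3 A := above3_valRing ι
  obtain ⟨p, hp, hpv, hcase⟩ := absNorm_cases hF v
  have htv := tv_sub_two hT hf hA v hp hcase hN
  set N := Ideal.absNorm v.asIdeal with hN0
  have hψ : ψ v.asIdeal - 1 ∈ A.nonunits := by
    rw [mem_nonunits_valRing, map_sub, map_one]
    exact hι _ (by omega)
  have hNu : (N : ℂ) - 1 ∈ A.nonunits := by
    have := RZC3.three_dvd_nonunits hA (n := (N : ℤ) - 1) (by omega)
    simpa using this
  have hpow : ∀ k : ℕ, (N : ℂ) ^ k - 1 ∈ A.nonunits := RZC.nonunits_pow_sub_one hNu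
  constructor
  · have h1 : ι (frobTrace f ψ r v) - 2 = ι (frobTrace f ψ r v - 2) := by
      rw [map_sub, map_ofNat]
    rw [h1, ← mem_nonunits_valRing]
    unfold frobTrace
    have h2 : ψ v.asIdeal * ((N : ℂ) ^ (w + r))⁻¹ - 1 ∈ A.nonunits :=
      RZC.mul_sub_one hψ (RZC.inv_sub_one (hpow _))
    have h3 : tv f v ∈ A := by
      have h4 := A.add_mem _ _ (RZC.nonunits_mem htv) (RZC.nat_mem (A := A) 2)
      have h5 : tv f v - 2 + ((2 : ℕ) : ℂ) = tv f v := by
        push_cast
        ring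
      rwa [h5] at h4
    have h6 := RZC.nonunits_add (RZC.nonunits_mul_left h3 h2) htv
    convert h6 using 1
    rw [← hN0, div_eq_mul_inv]
    ring
  · have h1 : ι (frobDet w ψ r v) - 1 = ι (frobDet w ψ r v - 1) := by rw [map_sub, map_one]
    rw [h1, ← mem_nonunits_valRing]
    unfold frobDet
    rw [div_eq_mul_inv]
    exact RZC.mul_sub_one (RZC.mul_sub_one (hpow _) (RZC.nonunits_pow_sub_one hψ 2))
      (RZC.inv_sub_one (hpow _))

end Cong

section Frob

variable {F : Type} [Field F] [NumberField F]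

/-- The residue field at a Frobenius element which fixes the third roots of unity. -/
theorem card_mod_three {ζ : AlgebraicClosure F} (hζ : IsPrimitiveRoot ζ 3)
    {P : Ideal (AllInt F)} (hP : P.IsPrime) (h3 : (3 : AllInt F) ∉ P) {g : AbsGal F}
    (hg : IsFrobenius P g) (hgζ : g ζ = ζ) : Nat.card (𝓞 F ⧸ P.under (𝓞 F)) % 3 = 1 := by
  set N := Nat.card (𝓞 F ⧸ P.under (𝓞 F)) with hN
  let z : AllInt F := ⟨ζ, hζ.isIntegral (by norm_num)⟩
  have hz3 : z ^ 3 = 1 := Subtype.ext hζ.pow_eq_one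
  have hgz : g • z = z := Subtype.ext hgζ
  have hquad : z ^ 2 + z + 1 = 0 := by
    have h1 : (ζ - 1) * (ζ ^ 2 + ζ + 1) = 0 := by
      have := hζ.pow_eq_one
      linear_combination this
    have h2 : ζ ^ 2 + ζ + 1 = 0 :=
      (mul_eq_zero.mp h1).resolve_left (sub_ne_zero.mpr (hζ.ne_one (by norm_num)))
    exact Subtype.ext h2
  have hne : z - 1 ∉ P := by
    intro h
    apply h3
    have h4 : (3 : AllInt F) = (z - 1) * (-(z + 2)) := by
      linear_combination hquad
    rw [h4]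
    exact P.mul_mem_right _ h
  have hfr := hg z
  rw [hgz, ← hN] at hfr
  have hcases : N % 3 = 0 ∨ N % 3 = 1 ∨ N % 3 = 2 := by omega
  have hpow : z ^ N = z ^ (N % 3) := by
    conv_lhs => rw [← Nat.div_add_mod N 3, pow_add, pow_mul, hz3, one_pow, one_mul]
  rw [hpow] at hfr
  rcases hcases with h | h | h
  · exfalso
    rw [h, pow_zero] at hfr
    exact hne hfr
  · exact h
  · exfalso
    rw [h] at hfr
    apply hne
    have h4 : z - z ^ 2 = (z - 1) * (-z) := by ring
    rw [h4] at hfr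
    rcases hP.mem_or_mem hfr with h5 | h5
    · exact h5
    · exfalso
      apply hP.ne_top
      rw [Ideal.eq_top_iff_one]
      have h6 : (1 : AllInt F) = -z * (-z ^ 2) := by linear_combination -hz3
      rw [h6]
      exact P.mul_mem_right _ h5

end Frob

end RZ

end Pool.Agent.Lib.MP_7c08ba_nt
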