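import Mathlib
import Pool.Agent.Lib.MP_7c08ba_nt.RZ.DDens

set_option autoImplicit false

/-!
A finite quotient of an open subgroup of the absolute Galois group of a number field in which
almost all Frobenius elements have order a power of `p` is a `p`-group.
-/

namespace Pool.Agent.Lib.MP_7c08ba_nt

set_option linter.unusedSectionVars false

open NumberField IsDedekindDomain
open Pool.Agent.Lib.MP_bf61d2_nt
open scoped Pointwise nonZeroDivisors

lemma exists_other_prime {G : Type*} [Group G] (V : Subgroup G) [V.Normal] [Finite (G ⧸ V)]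
    (p : ℕ) (g₀ : G) (h : ∀ k : ℕ, g₀ ^ p ^ k ∉ V) :
    ∃ l : ℕ, l.Prime ∧ l ≠ p ∧ ∃ c : ℕ, g₀ ^ c ∉ V ∧ (g₀ ^ c) ^ l ∈ V := by
  have hmem : ∀ (x : G) (n : ℕ), x ^ n ∈ V ↔ (x : G ⧸ V) ^ n = 1 := by
    intro x n
    rw [← QuotientGroup.mk_pow, QuotientGroup.eq_one_iff]
  set m := orderOf (g₀ : G ⧸ V) with hm
  have hm0 : 0 < m := orderOf_pos _
  obtain ⟨l, hl, hl2, hlm⟩ : ∃ l : ℕ, l.Prime ∧ l ≠ p ∧ l ∣ m := by
    by_contra hcon
    push Not at hcon
    have h1 : m = p ^ m.primeFactorsList.length :=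
      Nat.eq_prime_pow_of_unique_prime_dvd hm0.ne' (fun {d} hd hdm => by
        by_contra h2
        exact hcon d hd h2 hdm)
    apply h m.primeFactorsList.length
    rw [hmem, ← h1, pow_orderOf_eq_one]
  obtain ⟨c, hc⟩ := hlm
  refine ⟨l, hl, hl2, c, ?_, ?_⟩
  · rw [hmem, ← orderOf_dvd_iff_pow_eq_one, ← hm, hc]
    intro h1
    have hc0 : 0 < c := by
      rcases Nat.eq_zero_or_pos c with h2 | h2
      · rw [h2, mul_zero] at hc
        omega
      · exact h2
    have h2 := Nat.le_of_dvd hc0 h1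
    nlinarith [hl.two_le]
  · rw [← pow_mul, hmem, mul_comm c l, ← hc, pow_orderOf_eq_one]

variable {F : Type} [Field F] [NumberField F]

/-- The theorem. -/
theorem p_group_of_frobenius {p : ℕ} (hp0 : p.Prime) {N₀ : ℕ} (hN₀ : N₀ ≠ 0)
    (G' V : Subgroup (AbsGal F)) [hVn : V.Normal] (hVG : V ≤ G')
    (hV : IsOpen (V : Set (AbsGal F)))
    (hfrob : ∀ P : Ideal (AllInt F), P.IsPrime → (N₀ : AllInt F) ∉ P → ∀ g ∈ G',
      IsFrobenius P g → ∃ k : ℕ, g ^ p ^ k ∈ V) (g₀ : AbsGal F) (hg₀G : g₀ ∈ G') :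
    ∃ k : ℕ, g₀ ^ p ^ k ∈ V := by
  by_contra hg₀
  push Not at hg₀
  have hfin : Finite (AbsGal F ⧸ V) := V.quotient_finite_of_isOpen hV
  obtain ⟨l, hl, hl2, c₀, hgV, hgl⟩ := exists_other_prime V p g₀ hg₀
  obtain ⟨g, hg⟩ : ∃ g, g = g₀ ^ c₀ := ⟨_, rfl⟩
  rw [← hg] at hgV hgl
  have hgG : g ∈ G' := by
    rw [hg]
    exact G'.pow_mem hg₀G c₀
  let H : Subgroup (AbsGal F) :=
    (Subgroup.zpowers (g : AbsGal F ⧸ V)).comap (QuotientGroup.mk' V)
  have hmemH : ∀ h, h ∈ H ↔ (h : AbsGal F ⧸ V) ∈ Subgroup.zpowers (g : AbsGal F ⧸ V) :=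
    fun h => Iff.rfl
  have hVH : V ≤ H := by
    intro h hh
    rw [hmemH, (QuotientGroup.eq_one_iff h).mpr hh]
    exact Subgroup.one_mem _
  have hH : IsOpen (H : Set (AbsGal F)) := Subgroup.isOpen_mono hVH hV
  have hgH : g ∈ H := (hmemH g).mpr (Subgroup.mem_zpowers _)
  have hHl : ∀ h ∈ H, h ^ l ∈ V := by
    intro h hh
    obtain ⟨k, hk⟩ := Subgroup.mem_zpowers_iff.mp ((hmemH h).mp hh)
    rw [← QuotientGroup.eq_one_iff, QuotientGroup.mk_pow, ← hk, ← zpow_natCast, ← zpow_mul,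
      mul_comm, zpow_mul, zpow_natCast, ← QuotientGroup.mk_pow, (QuotientGroup.eq_one_iff _).mpr hgl,
      one_zpow]
  have hHG : H ≤ G' := by
    intro h hh
    obtain ⟨k, hk⟩ := Subgroup.mem_zpowers_iff.mp ((hmemH h).mp hh)
    have h1 : (g ^ k)⁻¹ * h ∈ V := by
      rw [← QuotientGroup.eq_one_iff, QuotientGroup.mk_mul, QuotientGroup.mk_inv,
        QuotientGroup.mk_zpow, hk, inv_mul_cancel]
    have h2 := G'.mul_mem (G'.zpow_mem hgG k) (hVG h1)
    rwa [mul_inv_cancel_left] at h2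
  have hKn := numberField_fixF hH
  have hKn' := numberField_fixF hV
  obtain ⟨θ, hθ, hgθ⟩ := exists_moved hV hgV
  have hθm : ∀ m ∈ Finset.Ico 1 l, g ^ m • θ - θ ≠ 0 := by
    intro m hm h1
    rw [Finset.mem_Ico] at hm
    apply hgθ
    have h2 : g ^ m ∈ MulAction.stabilizer (AbsGal F) θ := sub_eq_zero.mp h1
    have h3 : g ^ l ∈ MulAction.stabilizer (AbsGal F) θ := hθ _ hgl
    have h4 : m.Coprime l := by
      rw [Nat.coprime_comm, hl.coprime_iff_not_dvd]
      intro h5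
      have := Nat.le_of_dvd (by omega) h5
      omega
    exact mem_of_coprime_pow h4 h2 h3
  obtain ⟨N₁, hN₁, hδ⟩ := exists_nat_dvd (Finset.Ico 1 l) (fun m => g ^ m • θ - θ) hθm
  have hN : N₀ * N₁ ≠ 0 := mul_ne_zero hN₀ hN₁
  -- rational integers in primes above places
  have hint : ∀ (v : HeightOneSpectrum (𝓞 (fixF H))) (P : Ideal (AllInt F)),
      (∀ x : 𝓞 (fixF H), x ∈ v.asIdeal ↔ algebraMap (𝓞 (fixF H)) (AllInt F) x ∈ P) →
      ∀ n : ℕ, (n : 𝓞 (fixF H)) ∈ v.asIdeal ↔ (n : AllInt F) ∈ P := by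
    intro v P hP n
    rw [hP, map_natCast]
  -- the local statement
  have hloc : ∀ v : HeightOneSpectrum (𝓞 (fixF H)), GoodPl (N₀ * N₁) v →
      ∀ P : Ideal (AllInt F), P.IsPrime →
      (∀ x : 𝓞 (fixF H), x ∈ v.asIdeal ↔ algebraMap (𝓞 (fixF H)) (AllInt F) x ∈ P) →
      ∀ z : AllInt F, (∀ h ∈ V, h • z = z) → ∃ a : ℤ, z - a ∈ P := by
    intro v hv P hPp hP z hz
    have hp := pr_prime v
    have hpP : ((pr v : ℕ) : AllInt F) ∈ P := (hint v P hP _).mp (pr_mem v)
    have hres : ∀ x : AllInt F, (∀ h ∈ H, h • x = x) → ∃ a : ℤ, x - a ∈ P := by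
      intro x hx
      obtain ⟨x₀, rfl⟩ := exists_of_fixed x hx
      obtain ⟨a, ha⟩ := exists_int_of_nm v hv.1 x₀
      refine ⟨a, ?_⟩
      rw [hP, map_sub, map_intCast] at ha
      exact ha
    obtain ⟨h, hhH, hh⟩ := exists_frob_in H (H.isClosed_of_isOpen hH) hPp hp hpP hres
    have hfr : IsFrobenius P h := by
      refine isFrobenius_of_res hPp hp hpP (fun x => hres _ (fun k _ => ?_)) hh
      apply RingOfIntegers.ext
      exact k.commutes (x : F)
    have hN₀P : (N₀ : AllInt F) ∉ P := by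
      intro h1
      apply hv.2
      rw [hint v P hP, Nat.cast_mul]
      exact P.mul_mem_right _ h1
    obtain ⟨k, hk⟩ := hfrob P hPp hN₀P h (hHG hhH) hfr
    have hhV : h ∈ V := by
      refine mem_of_coprime_pow ?_ hk (hHl h hhH)
      exact Nat.Coprime.pow_left _ ((Nat.coprime_primes hp0 hl).mpr (Ne.symm hl2))
    apply exists_int_of_pow hPp hp hpP
    have h1 := hh z
    rw [hz h hhV] at h1
    have h2 := P.neg_mem h1
    rwa [neg_sub] at h2
  -- the places
  have hex : ∀ v : HeightOneSpectrum (𝓞 (fixF H)), ∃ (P : Ideal (AllInt F))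
      (W : Fin l → HeightOneSpectrum (𝓞 (fixF V))), P.IsPrime ∧
      (∀ x : 𝓞 (fixF H), x ∈ v.asIdeal ↔ algebraMap (𝓞 (fixF H)) (AllInt F) x ∈ P) ∧
      ∀ (i : Fin l) (x : 𝓞 (fixF V)), x ∈ (W i).asIdeal ↔
        algebraMap (𝓞 (fixF V)) (AllInt F) x ∈ (g ^ (i : ℕ)) • P := by
    intro v
    obtain ⟨P, hPp, hP⟩ := exists_prime_above v
    have hpP : ((pr v : ℕ) : AllInt F) ∈ P := (hint v P hP _).mp (pr_mem v)
    have hprime : ∀ i : Fin l, ((g ^ (i : ℕ)) • P).IsPrime := fun i => by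
      infer_instance
    have hne : ∀ i : Fin l,
        Ideal.comap (algebraMap (𝓞 (fixF V)) (AllInt F)) ((g ^ (i : ℕ)) • P) ≠ ⊥ := by
      intro i h1
      have h2 : ((pr v : ℕ) : 𝓞 (fixF V)) ∈
          Ideal.comap (algebraMap (𝓞 (fixF V)) (AllInt F)) ((g ^ (i : ℕ)) • P) := by
        rw [Ideal.mem_comap, map_natCast, Ideal.mem_pointwise_smul_iff_inv_smul_mem, gal_smul_natCast]
        exact hpP
      rw [h1, Ideal.mem_bot] at h2
      exact (pr_prime v).ne_zero (by exact_mod_cast h2)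
    exact ⟨P, fun i => ⟨Ideal.comap (algebraMap (𝓞 (fixF V)) (AllInt F)) ((g ^ (i : ℕ)) • P),
      Ideal.IsPrime.comap _, hne i⟩, hPp, hP, fun i x => Iff.rfl⟩
  choose P W hPp hP hW using hex
  have hgi : ∀ i : ℕ, g ^ i ∈ H := fun i => H.pow_mem hgH i
  -- the translates lie above the same place
  have hPi : ∀ (v : HeightOneSpectrum (𝓞 (fixF H))) (i : ℕ) (x : 𝓞 (fixF H)), x ∈ v.asIdeal ↔
      algebraMap (𝓞 (fixF H)) (AllInt F) x ∈ (g ^ i) • P v := by
    intro v i x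
    rw [hP, Ideal.mem_pointwise_smul_iff_inv_smul_mem,
      fixed_of_int x _ (H.inv_mem (hgi i))]
  refine no_split hl.two_le hN W ?_ ?_
  · intro v hv i
    rw [hv.1]
    apply nm_of_int _ (pr_prime v)
    · rw [hW, map_natCast]
      exact (hint v _ (hPi v i) _).mp (pr_mem v)
    · intro x
      obtain ⟨a, ha⟩ := hloc v hv _ inferInstance (hPi v i)
        (algebraMap (𝓞 (fixF V)) (AllInt F) x) (fun h hh => fixed_of_int x h hh)
      refine ⟨a, ?_⟩
      rw [hW, map_sub, map_intCast]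
      exact ha
  · have hne : ∀ v, GoodPl (N₀ * N₁) v → ∀ i i' : Fin l, (i : ℕ) < i' → W v i ≠ W v i' := by
      intro v hv i i' hii h1
      have hi' := i'.2
      set m : ℕ := i' - i with hm
      have hmI : m ∈ Finset.Ico 1 l := by
        rw [Finset.mem_Ico]
        omega
      have hz : ∀ h ∈ V, h • (g ^ m • θ) = g ^ m • θ := by
        intro h hh
        have h2 := hθ _ (hVn.conj_mem h hh (g ^ m)⁻¹)
        rw [inv_inv] at h2
        have h3 : h • (g ^ m • θ) = g ^ m • (((g ^ m)⁻¹ * h * g ^ m) • θ) := by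
          rw [smul_smul, smul_smul]
          congr 1
          group
        rw [h3, h2]
      obtain ⟨a, ha⟩ := hloc v hv _ inferInstance (hPi v i) _ hz
      have hza : ∀ h ∈ V, h • (g ^ m • θ - (a : AllInt F)) = g ^ m • θ - a := by
        intro h hh
        rw [smul_sub, hz h hh, gal_smul_intCast]
      obtain ⟨y, hy⟩ := exists_of_fixed _ hza
      have h2 : y ∈ (W v i).asIdeal := by
        rw [hW, hy]
        exact ha
      rw [h1, hW, hy, Ideal.mem_pointwise_smul_iff_inv_smul_mem, smul_sub, gal_smul_intCast] at h2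
      rw [Ideal.mem_pointwise_smul_iff_inv_smul_mem, smul_sub, gal_smul_intCast] at ha
      have h3 : (g ^ (i' : ℕ))⁻¹ • g ^ m • θ = (g ^ (i : ℕ))⁻¹ • θ := by
        rw [smul_smul]
        congr 1
        have : (i' : ℕ) = m + i := by omega
        rw [this, pow_add, mul_inv_rev, inv_mul_cancel_right]
      rw [h3] at h2
      have h4 := (P v).sub_mem ha h2
      rw [sub_sub_sub_cancel_right, ← smul_sub] at h4
      obtain ⟨c, hc⟩ := hδ m hmI
      have h5 : (N₁ : AllInt F) ∈ P v := by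
        have h6 : (N₁ : AllInt F) =
            ((g ^ (i : ℕ))⁻¹ • (g ^ m • θ - θ)) * ((g ^ (i : ℕ))⁻¹ • c) := by
          rw [← smul_mul', ← hc, gal_smul_natCast]
        rw [h6]
        exact (P v).mul_mem_right _ h4
      apply hv.2
      rw [hint v _ (hP v), Nat.cast_mul]
      exact (P v).mul_mem_left _ h5
    intro v v' i i' hv hv' hWW
    have hvv : v = v' := by
      apply HeightOneSpectrum.ext
      ext x
      obtain ⟨y, hy⟩ := exists_of_fixed (H := V) (algebraMap (𝓞 (fixF H)) (AllInt F) x)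
        (fun h hh => fixed_of_int x h (hVH hh))
      rw [hPi v i, hPi v' i', ← hy, ← hW, ← hW, hWW]
    subst hvv
    refine ⟨rfl, ?_⟩
    by_contra hcon
    rcases lt_or_gt_of_ne hcon with h1 | h1
    · exact hne v hv i i' h1 hWW
    · exact hne v hv i' i h1 hWW.symm

end Pool.Agent.Lib.MP_7c08ba_nt
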