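import Mathlib
import Pool.Agent.Lib.MP_7c08ba_nt.RZ.DLat
import Pool.Agent.Lib.MP_7c08ba_nt.RZ.EDens

set_option autoImplicit false

/-!
Residual unipotence on an open subgroup, for all primes `p`.
-/

namespace Pool.Agent.Lib.MP_7c08ba_nt

set_option linter.unusedSectionVars false

open Matrix Polynomial NumberField

lemma charP_residue' {L : Type*} [NormedField L] [IsUltrametricDist L] {p : ℕ} [Fact p.Prime]
    (hL : ‖(p : L)‖ < 1) : CharP (IsLocalRing.ResidueField (normRing L)) p := by
  have h1 : ((p : ℕ) : IsLocalRing.ResidueField (normRing L)) = 0 := by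
    have h2 : IsLocalRing.residue (normRing L) (p : normRing L) = 0 := by
      rw [residue_eq_zero]
      exact hL
    rwa [map_natCast] at h2
  obtain ⟨c, hc⟩ := CharP.exists (IsLocalRing.ResidueField (normRing L))
  have h2 : c ∣ p := (CharP.cast_eq_zero_iff _ c p).mp h1
  rcases (Nat.dvd_prime Fact.out).mp h2 with h3 | h3
  · exfalso
    rw [h3] at hc
    have h4 : ((1 : ℕ) : IsLocalRing.ResidueField (normRing L)) = 0 :=
      (CharP.cast_eq_zero_iff _ 1 1).mpr (dvd_refl 1)
    rw [Nat.cast_one] at h4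
    exact one_ne_zero h4
  · rwa [h3] at hc

section CharP

variable {k : Type*} [Field k] {n : ℕ}

/-- Matrices of order a power of `p` in characteristic `p`. -/
lemma charpoly_of_pow_eq_one' {p : ℕ} [Fact p.Prime] [CharP k p] (A : Matrix (Fin n) (Fin n) k) (m : ℕ)
    (hA : A ^ p ^ m = 1) : A.charpoly = (X - 1) ^ n := by
  have h1 : A.charpoly ^ p ^ m = ((X - 1) ^ n) ^ p ^ m := by
    have : CharP (Matrix (Fin n) (Fin n) k[X]) p ∨ n = 0 := by
      rcases Nat.eq_zero_or_pos n with h | h
      · exact Or.inr h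
      · left
        have : Nonempty (Fin n) := ⟨⟨0, h⟩⟩
        infer_instance
    rcases this with h | h
    · rw [Matrix.charpoly, ← Matrix.det_pow, Matrix.charmatrix,
        sub_pow_char_pow_of_commute _ _ (Matrix.scalar_commute _ (fun r' => Commute.all _ _) _),
        ← map_pow, ← map_pow, hA, map_one]
      have h2 : Matrix.scalar (Fin n) (X ^ p ^ m : k[X]) - 1 =
          Matrix.scalar (Fin n) (X ^ p ^ m - 1 : k[X]) := by
        rw [map_sub, map_one]
      rw [h2, Matrix.scalar_apply, Matrix.det_diagonal, Finset.prod_const, Finset.card_univ,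
        Fintype.card_fin, ← pow_mul, mul_comm n, pow_mul, sub_pow_char_pow, one_pow]
    · subst h
      rw [pow_zero, Matrix.charpoly, Matrix.det_isEmpty]
  exact iterateFrobenius_inj k[X] p m h1

/-- Matrices with characteristic polynomial `(X - 1) ^ n` in characteristic `p`. -/
lemma pow_eq_one_of_charpoly' {p : ℕ} [Fact p.Prime] [CharP k p] (A : Matrix (Fin n) (Fin n) k)
    (hA : A.charpoly = (X - 1) ^ n) : A ^ p ^ n = 1 := by
  rcases Nat.eq_zero_or_pos n with h | h
  · subst h
    exact Subsingleton.elim _ _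
  · have : Nonempty (Fin n) := ⟨⟨0, h⟩⟩
    have h1 : (A - 1) ^ n = 0 := by
      have h2 := Matrix.aeval_self_charpoly A
      rw [hA, map_pow, map_sub, aeval_X, map_one] at h2
      exact h2
    have h3 : (A - 1) ^ p ^ n = 0 := by
      have h4 : n ≤ p ^ n := (Nat.lt_pow_self (Fact.out : p.Prime).one_lt).le
      rw [← Nat.sub_add_cancel h4, pow_add, h1, mul_zero]
    rw [sub_pow_char_pow_of_commute _ _ (Commute.one_right A), one_pow] at h3
    exact sub_eq_zero.mp h3

end CharP

section Reduction

variable {G : Type*} [Group G] [TopologicalSpace G] [CompactSpace G] [IsTopologicalGroup G]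
  {L : Type*} [NormedField L] [IsUltrametricDist L] {n : ℕ}

/-- The subgroup of elements trivial modulo the maximal ideal in an invariant lattice. -/
theorem exists_reduction' {p : ℕ} [Fact p.Prime] (hL : ‖(p : L)‖ < 1) (ρ : G →* Matrix.GeneralLinearGroup (Fin n) L)
    (hρ : Continuous ρ) : ∃ V : Subgroup G, V.Normal ∧ IsOpen (V : Set G) ∧
      (∀ g, (∀ i, ‖((ρ g : Matrix (Fin n) (Fin n) L).charpoly - (X - 1) ^ n).coeff i‖ < 1) →
        g ^ p ^ n ∈ V) ∧
      (∀ g (m : ℕ), g ^ p ^ m ∈ V →
        ∀ i, ‖((ρ g : Matrix (Fin n) (Fin n) L).charpoly - (X - 1) ^ n).coeff i‖ < 1) := by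
  classical
  obtain ⟨B, hB⟩ := exists_integral_basis ρ hρ
  have := charP_residue' (L := L) hL
  let A := normRing L
  let k := IsLocalRing.ResidueField A
  let σ : G →* Matrix.GeneralLinearGroup (Fin n) L :=
    { toFun := fun g => B⁻¹ * ρ g * B
      map_one' := by rw [map_one, mul_one, inv_mul_cancel]
      map_mul' := fun g h => by
        rw [map_mul]
        group }
  let σA : G → Matrix (Fin n) (Fin n) A := fun g => Matrix.of fun i j =>
    ⟨(σ g : Matrix (Fin n) (Fin n) L) i j, hB g i j⟩
  have hσA : ∀ g, (σA g).map A.subtype = (σ g : Matrix (Fin n) (Fin n) L) := fun g => rfl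
  have hinj : Function.Injective fun M : Matrix (Fin n) (Fin n) A => M.map A.subtype := by
    intro M N h
    ext i j
    exact congrFun (congrFun h i) j
  let φ : G →* Matrix (Fin n) (Fin n) k :=
    { toFun := fun g => (σA g).map (IsLocalRing.residue A)
      map_one' := by
        have h1 : σA 1 = 1 := by
          apply hinj
          simp only [hσA, map_one, Units.val_one]
          rw [Matrix.map_one _ (map_zero _) (map_one _)]
        rw [h1, Matrix.map_one _ (map_zero _) (map_one _)]
      map_mul' := fun g h => by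
        have h1 : σA (g * h) = σA g * σA h := by
          apply hinj
          simp only [hσA, map_mul, Units.val_mul, Matrix.map_mul]
        rw [h1, Matrix.map_mul] }
  have hφ : ∀ g, φ g = (σA g).map (IsLocalRing.residue A) := fun g => rfl
  have hchar : ∀ g, (∀ i, ‖((ρ g : Matrix (Fin n) (Fin n) L).charpoly -
      (X - 1) ^ n).coeff i‖ < 1) ↔ (φ g).charpoly = (X - 1) ^ n := by
    intro g
    have h1 : (ρ g : Matrix (Fin n) (Fin n) L).charpoly = ((σA g).charpoly).map A.subtype := by
      rw [← Matrix.charpoly_map, hσA]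
      have h2 : (σ g : Matrix (Fin n) (Fin n) L) =
          (B⁻¹ : Matrix.GeneralLinearGroup (Fin n) L).val * (ρ g).val * B.val := rfl
      rw [h2, Matrix.coe_units_inv, Matrix.charpoly_units_conj']
    have h2 : (φ g).charpoly = ((σA g).charpoly).map (IsLocalRing.residue A) := by
      rw [← Matrix.charpoly_map, hφ]
    have h3 : (ρ g : Matrix (Fin n) (Fin n) L).charpoly - (X - 1) ^ n =
        ((σA g).charpoly - (X - 1) ^ n).map A.subtype := by
      rw [h1, Polynomial.map_sub, Polynomial.map_pow, Polynomial.map_sub, map_X,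
        Polynomial.map_one]
    have h4 : (φ g).charpoly - (X - 1) ^ n =
        ((σA g).charpoly - (X - 1) ^ n).map (IsLocalRing.residue A) := by
      rw [h2, Polynomial.map_sub, Polynomial.map_pow, Polynomial.map_sub, map_X,
        Polynomial.map_one]
    rw [h3, ← sub_eq_zero (a := (φ g).charpoly), h4, Polynomial.ext_iff]
    refine forall_congr' fun i => ?_
    rw [coeff_map, coeff_map, coeff_zero, residue_eq_zero]
    rfl
  refine ⟨φ.ker, inferInstance, ?_, ?_, ?_⟩
  · have h1 : (φ.ker : Set G) =
        {g | ∀ i j, ‖((σ g : Matrix (Fin n) (Fin n) L) - 1) i j‖ < 1} := by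
      ext g
      rw [SetLike.mem_coe, MonoidHom.mem_ker, Set.mem_ofPred_eq]
      have h2 : φ g = 1 ↔ φ g - 1 = 0 := sub_eq_zero.symm
      rw [h2, ← Matrix.ext_iff]
      refine forall_congr' fun i => forall_congr' fun j => ?_
      have h3 : (φ g - 1) i j = IsLocalRing.residue A ((σA g - 1) i j) := by
        rw [Matrix.sub_apply, Matrix.sub_apply, map_sub, hφ, Matrix.map_apply]
        congr 1
        rw [Matrix.one_apply, Matrix.one_apply]
        split_ifs
        · rw [map_one]
        · rw [map_zero]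
      have h4 : (((σA g - 1) i j : A) : L) = ((σ g : Matrix (Fin n) (Fin n) L) - 1) i j := by
        rw [Matrix.sub_apply, Matrix.sub_apply, Matrix.one_apply, Matrix.one_apply]
        split_ifs
        · rfl
        · rfl
      rw [h3, Matrix.zero_apply, residue_eq_zero, h4]
    rw [h1]
    have h2 : Continuous fun g : G => (σ g : Matrix (Fin n) (Fin n) L) := by
      have h3 : Continuous fun g : G => (ρ g : Matrix (Fin n) (Fin n) L) :=
        Units.continuous_val.comp hρ
      exact (continuous_const.mul h3).mul continuous_const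
    have h3 : {g : G | ∀ i j, ‖((σ g : Matrix (Fin n) (Fin n) L) - 1) i j‖ < 1} =
        ⋂ i, ⋂ j, {g | ‖((σ g : Matrix (Fin n) (Fin n) L) - 1) i j‖ < 1} := by
      ext g
      simp only [Set.mem_iInter, Set.mem_ofPred_eq]
    rw [h3]
    refine isOpen_iInter_of_finite fun i => isOpen_iInter_of_finite fun j => ?_
    exact isOpen_lt (((h2.sub continuous_const).matrix_elem i j).norm) continuous_const
  · intro g hg
    rw [MonoidHom.mem_ker, map_pow]
    exact pow_eq_one_of_charpoly' _ ((hchar g).mp hg)
  · intro g m hg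
    rw [MonoidHom.mem_ker, map_pow] at hg
    exact (hchar g).mpr (charpoly_of_pow_eq_one' _ m hg)

end Reduction

/-- Residual unipotence on an open normal subgroup can be checked on Frobenius elements. -/
theorem resUnipotent_on {p : ℕ} [Fact p.Prime] {F : Type} [Field F] [NumberField F] {L : Type}
    [NormedField L] [IsUltrametricDist L] (hL : ‖(p : L)‖ < 1) {n : ℕ}
    {ρ : AbsGal F →* Matrix.GeneralLinearGroup (Fin n) L} (hρ : Continuous ρ) {N₀ : ℕ}
    (hN₀ : N₀ ≠ 0) (G' : Subgroup (AbsGal F)) [G'.Normal] (hG' : IsOpen (G' : Set (AbsGal F)))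
    (h : ∀ P : Ideal (AllInt F), P.IsPrime → (N₀ : AllInt F) ∉ P → ∀ g ∈ G',
      IsFrobenius P g → ∀ i : ℕ,
        ‖((ρ g : Matrix (Fin n) (Fin n) L).charpoly - (X - 1) ^ n).coeff i‖ < 1) :
    ∀ g ∈ G', ∀ i : ℕ,
      ‖((ρ g : Matrix (Fin n) (Fin n) L).charpoly - (X - 1) ^ n).coeff i‖ < 1 := by
  obtain ⟨V, hV1, hV2, hV3, hV4⟩ := exists_reduction' (p := p) hL ρ hρ
  intro g hg
  have hVo : IsOpen ((V ⊓ G' : Subgroup (AbsGal F)) : Set (AbsGal F)) := by
    rw [Subgroup.coe_inf]
    exact hV2.inter hG'
  obtain ⟨k, hk⟩ := p_group_of_frobenius (Fact.out : p.Prime) hN₀ G' (V ⊓ G') inf_le_right hVo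
    (fun P hP hN g hg hf => ⟨n, hV3 g (h P hP hN g hg hf), G'.pow_mem hg _⟩) g hg
  exact hV4 g k hk.1

end Pool.Agent.Lib.MP_7c08ba_nt
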