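import Mathlib
import Pool.Agent.Lib.MP_7c08ba_nt.RZ.ELat
import Pool.Agent.Lib.MP_7c08ba_nt.RZ.EPl
import Pool.Agent.Lib.MP_7c08ba_nt.RZ.ECong
import Pool.Agent.Lib.MP_7c08ba_nt.RZ.Fund

set_option autoImplicit false

/-!
Final assembly for `p = 3`: non-vanishing of the central value and vanishing of the Selmer group.
-/

namespace Pool.Agent.Lib.MP_7c08ba_nt

namespace RZ

open NumberField Matrix IsDedekindDomain BKGen BKGen.Genus BKOdd MP_7c08ba.Crys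
open scoped MatrixGroups nonZeroDivisors

section Main

variable {F : Type} [Field F] [NumberField F] {w : ℕ} {L : Type} [NormedField L]
  [NormedAlgebra ℚ_[3] L]

/-- The Bloch–Kato Selmer group vanishes, `p = 3`. -/
theorem h1f_eq_bot_three (hT : RZC3.StTr3) (hD : RZC3.StDelta3) {D : ℕ} (hD0 : 0 < D)
    (hF : Module.finrank ℚ F = 2) {s : F} (hs : s ^ 2 = -(D : F))
    (hu : ∃ u : ℚ_[3], u ^ 2 = -(D : ℚ_[3])) {ζ : AlgebraicClosure F}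
    (hO : ∀ j₀ : AlgebraicClosure F →+* PadicAlgCl 3, OddHyp 3 F ζ j₀)
    {f : CuspForm 𝒮ℒ (w : ℤ)} (hf : IsEigen f) {σ : F →+* ℂ} {r : ℕ} {ψ : Ideal (𝓞 F) →*₀ ℂ}
    (hψ : IsHecke σ (w + 2 * r) ψ) {ι : ℂ →+* L} (hι : ResidueOneAt 3 ψ ι)
    {ρ : AbsGal F →* GL (Fin 2) L} (hρ : IsPadic 3 σ f ψ r ι ρ) : H1f 3 ρ = ⊥ := by
  have hul := ultra_p 3 L
  obtain ⟨j, hj⟩ := exists_padic_p (p := 3) hD0 hu hF hs (ι.comp σ)
  have hjn : ∀ x : F, ‖j x‖ = ‖ι (σ x)‖ := fun x => by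
    rw [← norm_algebraMap' L (j x), hj]
    rfl
  obtain ⟨j₀, hj₀⟩ := exists_ext_p j
  obtain ⟨v₀, hv₀⟩ := exists_place_p j
  have hj₀n : ∀ x : F, ‖j₀ (algebraMap F (AlgebraicClosure F) x)‖ = ‖ι (σ x)‖ := fun x => by
    rw [hj₀, hjn]
  have hOj := hO j₀
  obtain ⟨hfd, hgal, hdeg, -⟩ := stGal 3 F ζ j₀ hOj
  have hnorm : (Kz ζ).fixingSubgroup.Normal := InfiniteGalois.normal_iff_isGalois (Kz ζ) |>.mpr hgal
  have hopen : IsOpen ((Kz ζ).fixingSubgroup : Set (AbsGal F)) :=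
    IntermediateField.fixingSubgroup_isOpen (Kz ζ)
  have hw1 : 1 < w := by
    have := (RZC.weight_ge hf.one).1
    omega
  have ha3 : ‖ι (coef f 3)‖ < 1 := by
    have h1 := (hD.2 (valRing ι) (above3_valRing ι) w f (RZC.isEig_of hf)).1
    rwa [mem_nonunits_valRing] at h1
  have hres := resUnipotent_on (p := 3) (norm_p_lt 3 L) hρ.continuous (N₀ := 3) (by norm_num)
    (Kz ζ).fixingSubgroup hopen (by
      intro P hP h3P g hgK hg i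
      have h3P' : (3 : AllInt F) ∉ P := by exact_mod_cast h3P
      have hgζ : g ζ = ζ := by
        rw [IntermediateField.mem_fixingSubgroup_iff] at hgK
        exact hgK ζ (IntermediateField.mem_adjoin_simple_self F ζ)
      have hcard := card_mod_three hOj.hζ hP h3P' hg hgζ
      have hne := ne_bot_of_isFrobenius hg
      let v' : HeightOneSpectrum (𝓞 F) := ⟨P.under (𝓞 F), Ideal.IsPrime.under (𝓞 F) P, hne⟩
      obtain ⟨ht, hd⟩ := hρ.frobenius v' P hP (by exact_mod_cast h3P) rfl g hg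
      obtain ⟨h1, h2⟩ := frob_congr_three (r := r) hT hF hf hι v' hcard
      rw [← ht] at h1
      rw [← hd] at h2
      have hg' : ρ g = (ρ g⁻¹)⁻¹ := by rw [map_inv, inv_inv]
      obtain ⟨h3, h4⟩ := trace_det_inv hg' h1 h2
      exact coeff_lt_of_trace_det h3 h4 i)
  refine h1f_eq_bot_of_oddHyp hOj hρ.continuous hρ.unramified hres (hρ.weights j₀ hj₀n)
    (ne_at_p hF hw1 hψ ha3 hjn hv₀) (hρ.crystalline j₀ hj₀n v₀ ?_)
  intro x
  rw [hv₀, hjn]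

/-- Existence of the `L`-function and non-vanishing at the centre, `p = 3`. -/
theorem lfun_three (hM : StMainA) (hC : RZC3.StmtC3) {D : ℕ} (hD : BKDH.IsFund D)
    (h4 : 4 < D) (hF : Module.finrank ℚ F = 2) {s : F} (hs : s ^ 2 = -(D : F)) (hFC : RZC3.FieldC3 D F s)
    {f : CuspForm 𝒮ℒ (w : ℤ)} (hf : IsEigen f) {σ : F →+* ℂ} {r : ℕ}
    {ψ : Ideal (𝓞 F) →*₀ ℂ} (hψ : IsHecke σ (w + 2 * r) ψ) {ι : ℂ →+* L}
    (hι : ResidueOneAt 3 ψ ι) : ∃ Λ : ℂ → ℂ, IsLFunction f ψ r Λ ∧ Λ 0 ≠ 0 := by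
  have hul := ultra_p 3 L
  obtain ⟨Λ, h1, h2, h3⟩ := hM D F _ _ s σ w r f ψ hD h4 hF hs hf hψ
  have hres : RZC3.ResTriv3 (valRing ι) ψ := by
    refine ⟨?_, fun a ha => ?_⟩
    · rw [← ValuationSubring.mem_nonunits_iff]
      exact above3_valRing ι
    · rw [← ValuationSubring.mem_nonunits_iff, mem_nonunits_valRing, map_sub, map_one]
      exact hι a ha
  obtain ⟨c, hc⟩ := hC D F _ _ s σ (valRing ι) w r f ψ hFC hf hψ hres
  obtain ⟨K, hK, hK'⟩ := h3 c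
  refine ⟨Λ, ⟨h1, fun z hz => ?_⟩, ?_⟩
  · have h4 := h2 z hz
    simp only [eulF_eq] at h4
    exact h4
  · rw [hK']
    exact mul_ne_zero hK (pow_ne_zero 2 hc)

/-- **The Bloch–Kato conjecture in rank zero**, `p = 3`, from the statements of the parts. -/
theorem main_three (hM : StMainA) (hC : RZC3.StmtC3) (hT : RZC3.StTr3) (hDl : RZC3.StDelta3)
    {D : ℕ} (hD : BKDH.IsFund D) (h4 : 4 < D) (hF : Module.finrank ℚ F = 2) {s : F} (hs : s ^ 2 = -(D : F))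
    (hFC : RZC3.FieldC3 D F s) (hu : ∃ u : ℚ_[3], u ^ 2 = -(D : ℚ_[3]))
    (hO : ∀ (ζ : AlgebraicClosure F) (j₀ : AlgebraicClosure F →+* PadicAlgCl 3),
      IsPrimitiveRoot ζ 3 → OddHyp 3 F ζ j₀)
    {f : CuspForm 𝒮ℒ (w : ℤ)} (hf : IsEigen f) {σ : F →+* ℂ} {r : ℕ}
    {ψ : Ideal (𝓞 F) →*₀ ℂ} (hψ : IsHecke σ (w + 2 * r) ψ) {ι : ℂ →+* L}
    (hι : ResidueOneAt 3 ψ ι) :
    (∃ Λ : ℂ → ℂ, IsLFunction f ψ r Λ) ∧ (∀ Λ : ℂ → ℂ, IsLFunction f ψ r Λ → Λ 0 ≠ 0) ∧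
      ∀ ρ : AbsGal F →* GL (Fin 2) L, IsPadic 3 σ f ψ r ι ρ → H1f 3 ρ = ⊥ := by
  obtain ⟨Λ, hΛ, h0⟩ := lfun_three hM hC hD h4 hF hs hFC hf hψ hι
  refine ⟨⟨Λ, hΛ⟩, fun Λ' hΛ' => ?_, fun ρ hρ => ?_⟩
  · rw [hΛ'.unique hΛ (by norm_num)]
    exact h0
  · have h3 : NeZero ((3 : ℕ) : AlgebraicClosure F) := ⟨by norm_num⟩
    obtain ⟨ζ, hζ⟩ := HasEnoughRootsOfUnity.exists_primitiveRoot (AlgebraicClosure F) 3
    exact h1f_eq_bot_three hT hDl (by omega) hF hs hu (fun j₀ => hO ζ j₀ hζ) hf hψ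
      hι hρ

end Main

end RZ

end Pool.Agent.Lib.MP_7c08ba_nt
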