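import Mathlib
import Pool.Agent.Lib.MP_7c08ba_nt.RZ.EFin
import Pool.Agent.Lib.MP_7c08ba_nt.DH.Link
import Pool.Agent.Lib.MP_7c08ba_nt.DH.Final

set_option autoImplicit false

/-!
The Bloch–Kato conjecture in rank zero for at least half of the imaginary quadratic fields in which
`3` splits.
-/

namespace Pool.Agent.Lib.MP_7c08ba_nt

namespace RZ

open NumberField Matrix IsDedekindDomain BKGen BKGen.Genus BKOdd MP_7c08ba.Crys
open scoped MatrixGroups nonZeroDivisors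

/-- The Bloch–Kato conjecture at `p` in rank zero over `F = ℚ(√-D)`, for the base changes of all
normalised eigenforms of level one, twisted by unramified Hecke characters of type `(w + 2r, 0)`
which are trivial modulo `p`: the `L`-function does not vanish at the centre and `H¹_f = 0`. -/
def BKZero (p : ℕ) [Fact p.Prime] (D : ℕ) : Prop :=
  ∀ (F : Type) [Field F] [NumberField F] (s : F), Module.finrank ℚ F = 2 → s ^ 2 = -(D : F) →
  ∀ (w r : ℕ) (f : CuspForm 𝒮ℒ (w : ℤ)) (σ : F →+* ℂ) (ψ : Ideal (𝓞 F) →*₀ ℂ),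
    IsEigen f → IsHecke σ (w + 2 * r) ψ →
  ∀ (L : Type) [NormedField L] [NormedAlgebra ℚ_[p] L] (ι : ℂ →+* L), ResidueOneAt p ψ ι →
    (∃ Λ : ℂ → ℂ, IsLFunction f ψ r Λ) ∧ (∀ Λ : ℂ → ℂ, IsLFunction f ψ r Λ → Λ 0 ≠ 0) ∧
      ∀ ρ : AbsGal F →* GL (Fin 2) L, IsPadic p σ f ψ r ι ρ → H1f p ρ = ⊥

/-- The hypotheses on the field for part (C3). -/
def StField3 : Prop := ∀ (D : ℕ) (F : Type) (_ : Field F) (_ : NumberField F) (s : F),
  BKDH.IsFund D → D % 3 = 2 → BKDH.RigidAll D → Module.finrank ℚ F = 2 → s ^ 2 = -(D : F) →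
    RZC3.FieldC3 D F s

/-- The rigid fields satisfy the Bloch–Kato conjecture in rank zero, `p = 3`. -/
theorem bkZero_three (hM : StMainA) (hC : RZC3.StmtC3) (hT : RZC3.StTr3) (hDl : RZC3.StDelta3)
    (hFC : StField3) {D : ℕ} (hD : BKDH.IsFund D) (h3 : D % 3 = 2) (hR : BKDH.RigidAll D) :
    BKZero 3 D := by
  intro F _ _ s hF hs w r f σ ψ hf hψ L _ _ ι hι
  have h4 : 4 < D := by
    obtain ⟨h2, -⟩ := hD
    rcases h2 with h | h | h <;> omega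
  obtain ⟨-, j, hj⟩ := BKDH.stQF F D s hD h3 hs hF
  exact main_three hM hC hT hDl hD h4 hF hs (hFC D F _ _ s hD h3 hR hF hs)
    ⟨j s, by rw [← map_pow, hs, map_neg, map_natCast]⟩
    (fun ζ j₀ hζ => BKDH.oddHyp hD h3 hR hs hF ζ hζ j₀) hf hψ hι

/-- **The Bloch–Kato conjecture in rank zero** holds at `p = 3` for at least half of the imaginary
quadratic fields in which `3` splits. -/
theorem density_three (hM : StMainA) (hC : RZC3.StmtC3) (hT : RZC3.StTr3) (hDl : RZC3.StDelta3)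
    (hFC : StField3) (ε : ℝ) (hε : 0 < ε) : ∃ X₀ : ℕ, ∀ X : ℕ, X₀ ≤ X →
    (1 / 2 - ε) * ({D : ℕ | D ≤ X ∧ BKDH.IsFund D ∧ D % 3 = 2}.ncard : ℝ) ≤
      ({D : ℕ | D ≤ X ∧ BKDH.IsFund D ∧ D % 3 = 2 ∧ BKZero 3 D}.ncard : ℝ) := by
  obtain ⟨X₀, hX₀⟩ := BKDH.half ε hε
  refine ⟨X₀, fun X hX => (hX₀ X hX).trans ?_⟩
  have hfin : {D : ℕ | D ≤ X ∧ BKDH.IsFund D ∧ D % 3 = 2 ∧ BKZero 3 D}.Finite :=
    (Set.finite_Iic X).subset fun D hD => hD.1
  have hsub : {D : ℕ | D ≤ X ∧ BKDH.IsFund D ∧ D % 3 = 2 ∧ BKDH.RigidAll D} ⊆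
      {D : ℕ | D ≤ X ∧ BKDH.IsFund D ∧ D % 3 = 2 ∧ BKZero 3 D} := fun D hD =>
    ⟨hD.1, hD.2.1, hD.2.2.1, bkZero_three hM hC hT hDl hFC hD.2.1 hD.2.2.1 hD.2.2.2⟩
  exact_mod_cast Set.ncard_le_ncard hsub hfin

end RZ

end Pool.Agent.Lib.MP_7c08ba_nt
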