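import Mathlib
import Pool.Agent.Lib.MP_7c08ba_nt.RZ.EAll

set_option autoImplicit false

/-!
The Bloch–Kato conjecture in rank zero for `p = 2` and the fields `ℚ(√-q)`, `q = 7` modulo `16`.
-/

namespace Pool.Agent.Lib.MP_7c08ba_nt

namespace RZ

open NumberField Matrix IsDedekindDomain BKGen BKGen.Genus BKOdd MP_7c08ba.Crys
open scoped MatrixGroups nonZeroDivisors

section

variable {F : Type} [Field F] [NumberField F] {w : ℕ} {L : Type} [NormedField L]

lemma ResidueOneAt.residueOne {ψ : Ideal (𝓞 F) →*₀ ℂ} {ι : ℂ →+* L}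
    (h : ResidueOneAt 2 ψ ι) : ResidueOne ψ ι := by
  intro a ha
  refine h a fun h2 => ?_
  rw [← Nat.not_even_iff_odd] at ha
  exact ha (even_iff_two_dvd.mpr h2)

lemma IsPadic.isTwoAdic [NormedAlgebra ℚ_[2] L] {σ : F →+* ℂ} {f : CuspForm 𝒮ℒ (w : ℤ)}
    {ψ : Ideal (𝓞 F) →*₀ ℂ} {r : ℕ} {ι : ℂ →+* L} {ρ : AbsGal F →* GL (Fin 2) L}
    (h : IsPadic 2 σ f ψ r ι ρ) : IsTwoAdic σ f ψ r ι ρ where
  continuous := h.continuous
  unramified := h.unramified
  frobenius v P hP h2 hv g hg := h.frobenius v P hP (by rwa [Nat.cast_ofNat]) hv g hg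
  weights := h.weights
  crystalline := h.crystalline

end

/-- The Bloch–Kato conjecture in rank zero, `p = 2`. -/
theorem bkZero_two (hM : StMain) (hC : StmtC) (hO : RZC.StOddZero) (hD : RZC.StDelta) {q : ℕ}
    (hq : q.Prime) (h16 : q % 16 = 7) : BKZero 2 q := by
  intro F _ _ s hF hs w r f σ ψ hf hψ L _ _ ι hι
  obtain ⟨h1, h2, h3⟩ := main hM hC hO hD hq h16 hF hs hf hψ hι.residueOne
  exact ⟨h1, h2, fun ρ hρ => h3 ρ hρ.isTwoAdic⟩

end RZ

end Pool.Agent.Lib.MP_7c08ba_nt
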