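import Pool.Agent.Lib.MP_7c08ba_nt.RZ.Indep

set_option autoImplicit false

/-!
Existence of a valuation ring of `ℂ` above `p` for which an unramified Hecke character has trivial
reduction (class number odd and prime to the type of the character).
-/

namespace Pool.Agent.Lib.MP_7c08ba_nt.RZX

open NumberField Polynomial
open scoped nonZeroDivisors

noncomputable section

variable {F : Type} [Field F] [NumberField F]

theorem absNorm_of_sup (p : ℕ) (hp : p.Prime) (K : Ideal (𝓞 F)) (hK : K ≠ ⊥)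
    (h : Ideal.span {(p : 𝓞 F)} ⊔ K = ⊤) : ¬ p ∣ Ideal.absNorm K := by
  intro he
  have hfin : Finite (𝓞 F ⧸ K) :=
    (Ideal.absNorm_ne_zero_iff K).1 (by rwa [Ne, Ideal.absNorm_eq_zero_iff])
  have := Fintype.ofFinite (𝓞 F ⧸ K)
  have hdvd : p ∣ Fintype.card (𝓞 F ⧸ K) := by
    rw [← Nat.card_eq_fintype_card]
    exact he
  have : Fact (Nat.Prime p) := ⟨hp⟩
  obtain ⟨x, hx⟩ := exists_prime_addOrderOf_dvd_card p hdvd
  have h2 : p • x = 0 := by
    rw [← hx]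
    exact addOrderOf_nsmul_eq_zero x
  obtain ⟨a, ha, k, hk, hak⟩ := Submodule.mem_sup.1 ((Ideal.eq_top_iff_one _).1 h)
  obtain ⟨b, rfl⟩ := Ideal.mem_span_singleton.1 ha
  have hx0 : x = 0 := by
    have h3 : (Ideal.Quotient.mk K (p * b + k)) * x = x := by
      rw [hak, map_one, one_mul]
    rw [← h3, map_add, map_mul, Ideal.Quotient.eq_zero_iff_mem.2 hk, add_zero, map_natCast]
    have h4 : (p : 𝓞 F ⧸ K) * x = 0 := by
      rw [← h2, nsmul_eq_mul]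
    rw [mul_comm (p : 𝓞 F ⧸ K), mul_assoc, h4, mul_zero]
  rw [hx0, addOrderOf_zero] at hx
  exact hp.one_lt.ne hx

/-- Representatives of norm prime to `p`. -/
theorem exists_rep (p : ℕ) (hp : p.Prime) (c : ClassGroup (𝓞 F)) : ∃ a : (Ideal (𝓞 F))⁰,
    ClassGroup.mk0 a = c ∧ ¬ p ∣ Ideal.absNorm (a : Ideal (𝓞 F)) := by
  obtain ⟨I, hI⟩ := ClassGroup.mk0_surjective c⁻¹
  have hI0 : (I : Ideal (𝓞 F)) ≠ ⊥ := nonZeroDivisors.coe_ne_zero I
  have h20 : Ideal.span {(p : 𝓞 F)} ≠ ⊥ := by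
    rw [Ne, Ideal.span_singleton_eq_bot]
    exact_mod_cast hp.ne_zero
  have h2t : Ideal.span {(p : 𝓞 F)} ≠ ⊤ := by
    intro h
    have h1 : Ideal.absNorm (Ideal.span {(p : 𝓞 F)}) = 1 := Ideal.absNorm_eq_one_iff.2 h
    rw [Ideal.absNorm_span_singleton] at h1
    have h3 : (p : 𝓞 F) = algebraMap ℤ (𝓞 F) p := by simp
    rw [h3, Algebra.norm_algebraMap, RingOfIntegers.rank, Int.natAbs_pow, Int.natAbs_natCast] at h1
    rcases Nat.pow_eq_one.1 h1 with h4 | h4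
    · exact hp.one_lt.ne' h4
    · exact Module.finrank_pos.ne' h4
  obtain ⟨a, ha⟩ := IsDedekindDomain.exists_sup_span_eq
    (I := (I : Ideal (𝓞 F)) * Ideal.span {(p : 𝓞 F)}) (J := (I : Ideal (𝓞 F))) Ideal.mul_le_left
    (mul_ne_zero hI0 h20)
  obtain ⟨K, hK⟩ : (I : Ideal (𝓞 F)) ∣ Ideal.span {a} := by
    rw [Ideal.dvd_iff_le]
    calc Ideal.span {a} ≤ _ := le_sup_right
      _ = _ := ha
  have hsup : Ideal.span {(p : 𝓞 F)} ⊔ K = ⊤ := by
    rw [hK, ← Ideal.mul_sup] at ha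
    have h1 : (I : Ideal (𝓞 F)) * (Ideal.span {(p : 𝓞 F)} ⊔ K) = (I : Ideal (𝓞 F)) * 1 := by
      rw [ha, mul_one]
    have h2 := mul_left_cancel₀ hI0 h1
    rw [h2, Ideal.one_eq_top]
  have hK0 : K ≠ ⊥ := by
    rintro rfl
    rw [sup_bot_eq] at hsup
    exact h2t hsup
  have hKm : K ∈ nonZeroDivisors (Ideal (𝓞 F)) := mem_nonZeroDivisors_of_ne_zero hK0
  refine ⟨⟨K, hKm⟩, ?_, absNorm_of_sup p hp K hK0 hsup⟩
  have ha0 : a ≠ 0 := by
    rintro rfl
    rw [Ideal.span_singleton_eq_bot.2 rfl] at hK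
    exact mul_ne_zero hI0 hK0 hK.symm
  have hprod : ClassGroup.mk0 (I * ⟨K, hKm⟩) = 1 := by
    rw [ClassGroup.mk0_eq_one_iff]
    rw [Submonoid.coe_mul]
    change ((I : Ideal (𝓞 F)) * K).IsPrincipal
    rw [← hK]
    exact ⟨a, rfl⟩
  rw [map_mul, hI, inv_mul_eq_one] at hprod
  exact hprod.symm

/-- The data. -/
structure XDat (σ : F →+* ℂ) (k : ℕ) (ψ : Ideal (𝓞 F) →*₀ ℂ) (p : ℕ)
    (v : Valuation F (WithZero (Multiplicative ℤ)))
    (a : ClassGroup (𝓞 F) → (Ideal (𝓞 F))⁰) : Prop where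
  hp : v (p : F) < 1
  int : ∀ J : (Ideal (𝓞 F))⁰, ¬ p ∣ Ideal.absNorm (J : Ideal (𝓞 F)) → ∃ t : F, v t = 1 ∧
    v (t - 1) < 1 ∧ ψ (J : Ideal (𝓞 F)) = σ t * ψ (a (ClassGroup.mk0 J) : Ideal (𝓞 F))
  cls : ∀ c, ClassGroup.mk0 (a c) = c
  nrm : ∀ c, ¬ p ∣ Ideal.absNorm (a c : Ideal (𝓞 F))
  prime : p.Prime
  ind : ∀ x : ClassGroup (𝓞 F) → F, ∑ c, σ (x c) * ψ (a c : Ideal (𝓞 F)) = 0 → ∀ c, x c = 0

theorem xdat (σ : F →+* ℂ) {k : ℕ} {ψ : Ideal (𝓞 F) →*₀ ℂ} (hψ : RZ.IsHecke σ k ψ)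
    (hodd : Odd (Fintype.card (ClassGroup (𝓞 F))))
    (hcop : k.Coprime (Fintype.card (ClassGroup (𝓞 F)))) {p : ℕ} (hp : p.Prime)
    (hk : (p - 1) ∣ k) {P : Ideal (𝓞 F)} (hP : P.IsPrime) (hPN : Ideal.absNorm P = p) :
    ∃ (v : Valuation F (WithZero (Multiplicative ℤ))) (a : ClassGroup (𝓞 F) → (Ideal (𝓞 F))⁰),
      XDat σ k ψ p v a := by
  choose a ha1 ha2 using exists_rep (F := F) p hp
  have hPb : P ≠ ⊥ := by
    rintro rfl
    rw [Ideal.absNorm_bot] at hPN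
    exact hp.ne_zero hPN.symm
  set w : IsDedekindDomain.HeightOneSpectrum (𝓞 F) := ⟨P, hP, hPb⟩ with hw
  have hv1 : ∀ x : 𝓞 F, w.valuation F (x : F) ≤ 1 := fun x => w.valuation_le_one x
  have hv2 : ∀ x : 𝓞 F, w.valuation F (x : F) < 1 ↔ x ∈ P := by
    intro x
    have := w.valuation_lt_one_iff_dvd (K := F) x
    rw [this, Ideal.dvd_span_singleton]
  have hpP : (p : 𝓞 F) ∈ P := by
    rw [← hPN]
    exact Ideal.absNorm_mem P
  -- Fermat
  have hfin : Finite (𝓞 F ⧸ P) :=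
    (Ideal.absNorm_ne_zero_iff P).1 (by rw [hPN]; exact hp.ne_zero)
  have hmax : P.IsMaximal := hP.isMaximal hPb
  letI : Field (𝓞 F ⧸ P) := Ideal.Quotient.field P
  letI : Fintype (𝓞 F ⧸ P) := Fintype.ofFinite _
  have hcard : Fintype.card (𝓞 F ⧸ P) = p := by
    rw [← Nat.card_eq_fintype_card, ← hPN]
    rfl
  have hfer : ∀ x : 𝓞 F, x ∉ P → x ^ k - 1 ∈ P := by
    intro x hx
    obtain ⟨t, rfl⟩ := hk
    rw [← Ideal.Quotient.eq_zero_iff_mem, map_sub, map_pow, map_one, pow_mul]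
    have h1 : (Ideal.Quotient.mk P x) ≠ 0 := by
      rwa [Ne, Ideal.Quotient.eq_zero_iff_mem]
    have h2 := FiniteField.pow_card_sub_one_eq_one _ h1
    rw [hcard] at h2
    rw [h2, one_pow, sub_self]
  have hnot : ∀ (J : Ideal (𝓞 F)) (x : 𝓞 F), J = Ideal.span {x} → ¬ p ∣ Ideal.absNorm J →
      x ∉ P := by
    intro J x hJ hN hx
    apply hN
    rw [← hPN]
    apply Ideal.absNorm_dvd_absNorm_of_le
    rw [hJ, Ideal.span_singleton_le_iff_mem]
    exact hx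
  refine ⟨w.valuation F, a, ?_, ?_, ha1, ha2, hp, fun x hx c => indep σ hψ hodd hcop a ha1 x hx c⟩
  · have := (hv2 (p : 𝓞 F)).2 hpP
    simpa using this
  · intro J hJ
    set d := a (ClassGroup.mk0 J)⁻¹ with hd
    have h1 : ClassGroup.mk0 (J * d) = 1 := by
      rw [map_mul, hd, ha1, mul_inv_cancel]
    have h2 : ClassGroup.mk0 (a (ClassGroup.mk0 J) * d) = 1 := by
      rw [map_mul, hd, ha1, ha1, mul_inv_cancel]
    rw [ClassGroup.mk0_eq_one_iff] at h1 h2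
    obtain ⟨x, hx⟩ := h1
    obtain ⟨y, hy⟩ := h2
    have hx' : ((J * d : (Ideal (𝓞 F))⁰) : Ideal (𝓞 F)) = Ideal.span {x} := hx
    have hy' : ((a (ClassGroup.mk0 J) * d : (Ideal (𝓞 F))⁰) : Ideal (𝓞 F)) = Ideal.span {y} := hy
    have hxP : x ∉ P := by
      refine hnot _ x hx' ?_
      rw [Submonoid.coe_mul, map_mul]
      intro h3
      rcases hp.dvd_mul.1 h3 with h3 | h3
      · exact hJ h3
      · exact ha2 _ h3
    have hyP : y ∉ P := by
      refine hnot _ y hy' ?_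
      rw [Submonoid.coe_mul, map_mul]
      intro h3
      rcases hp.dvd_mul.1 h3 with h3 | h3
      · exact ha2 _ h3
      · exact ha2 _ h3
    have hx0 : x ≠ 0 := fun h => hxP (h ▸ P.zero_mem)
    have hy0 : y ≠ 0 := fun h => hyP (h ▸ P.zero_mem)
    have hyF : (y : F) ≠ 0 := fun h => hy0 (RingOfIntegers.coe_injective (h.trans (map_zero _).symm))
    have vx : w.valuation F (x : F) = 1 :=
      le_antisymm (hv1 x) (not_lt.1 fun h => hxP ((hv2 x).1 h))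
    have vy : w.valuation F (y : F) = 1 :=
      le_antisymm (hv1 y) (not_lt.1 fun h => hyP ((hv2 y).1 h))
    refine ⟨((x : F) / y) ^ k, ?_, ?_, ?_⟩
    · rw [map_pow, map_div₀, vx, vy, div_one, one_pow]
    · have h3 : ((x : F) / y) ^ k - 1 = ((x ^ k - y ^ k : 𝓞 F) : F) / (y : F) ^ k := by
        have h6 : ((x ^ k - y ^ k : 𝓞 F) : F) = (x : F) ^ k - (y : F) ^ k := by
          push_cast
          rfl
        have := pow_ne_zero k hyF
        rw [h6, div_pow]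
        field_simp
      rw [h3, map_div₀, map_pow, vy, one_pow, div_one, hv2]
      have h4 := P.sub_mem (hfer x hxP) (hfer y hyP)
      have h5 : x ^ k - 1 - (y ^ k - 1) = x ^ k - y ^ k := by ring
      rwa [h5] at h4
    · have e1 : ψ (J : Ideal (𝓞 F)) * ψ (d : Ideal (𝓞 F)) = σ (x : F) ^ k := by
        rw [← map_mul, ← Submonoid.coe_mul, hx', hψ x hx0]
      have e2 : ψ (a (ClassGroup.mk0 J) : Ideal (𝓞 F)) * ψ (d : Ideal (𝓞 F)) = σ (y : F) ^ k := by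
        rw [← map_mul, ← Submonoid.coe_mul, hy', hψ y hy0]
      have hyσ : σ (y : F) ≠ 0 := by
        rw [Ne, map_eq_zero]
        exact hyF
      have hyσk := pow_ne_zero k hyσ
      have hd0 : ψ (d : Ideal (𝓞 F)) ≠ 0 := by
        intro h
        rw [h, mul_zero] at e2
        exact hyσk e2.symm
      rw [map_pow, map_div₀, div_pow, ← e1, ← e2]
      have hA : ψ (a (ClassGroup.mk0 J) : Ideal (𝓞 F)) ≠ 0 := by
        intro h
        rw [h, zero_mul] at e2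
        exact hyσk e2.symm
      field_simp

section val

variable {σ : F →+* ℂ} {k : ℕ} {ψ : Ideal (𝓞 F) →*₀ ℂ} {p : ℕ}
  {v : Valuation F (WithZero (Multiplicative ℤ))} {a : ClassGroup (𝓞 F) → (Ideal (𝓞 F))⁰}

/-- `z` is a combination of the values with integral coefficients of sum `s` -/
def Rep (σ : F →+* ℂ) (ψ : Ideal (𝓞 F) →*₀ ℂ) (v : Valuation F (WithZero (Multiplicative ℤ)))
    (a : ClassGroup (𝓞 F) → (Ideal (𝓞 F))⁰) (z : ℂ) (s : F) : Prop :=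
  ∃ x : ClassGroup (𝓞 F) → F, (∀ c, v (x c) ≤ 1) ∧
    z = ∑ c, σ (x c) * ψ (a c : Ideal (𝓞 F)) ∧ s = ∑ c, x c

theorem Rep.le {z : ℂ} {s : F} (h : Rep σ ψ v a z s) : v s ≤ 1 := by
  obtain ⟨x, hx, -, rfl⟩ := h
  exact v.map_sum_le fun c _ => hx c

theorem Rep.add {z z' : ℂ} {s s' : F} (h : Rep σ ψ v a z s) (h' : Rep σ ψ v a z' s') :
    Rep σ ψ v a (z + z') (s + s') := by
  obtain ⟨x, hx, rfl, rfl⟩ := h
  obtain ⟨y, hy, rfl, rfl⟩ := h'
  refine ⟨fun c => x c + y c, fun c => (v.map_add _ _).trans (max_le (hx c) (hy c)), ?_, ?_⟩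
  · rw [← Finset.sum_add_distrib]
    exact Finset.sum_congr rfl fun c _ => by rw [map_add]; ring
  · rw [← Finset.sum_add_distrib]

theorem Rep.neg {z : ℂ} {s : F} (h : Rep σ ψ v a z s) : Rep σ ψ v a (-z) (-s) := by
  obtain ⟨x, hx, rfl, rfl⟩ := h
  refine ⟨fun c => - x c, fun c => by rw [Valuation.map_neg]; exact hx c, ?_, ?_⟩
  · rw [← Finset.sum_neg_distrib]
    exact Finset.sum_congr rfl fun c _ => by rw [map_neg]; ring
  · rw [← Finset.sum_neg_distrib]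

theorem rep_zero : Rep σ ψ v a 0 0 :=
  ⟨fun _ => 0, fun _ => by simp, by simp, by simp⟩

theorem Rep.unique (h : XDat σ k ψ p v a) {z : ℂ} {s s' : F} (h1 : Rep σ ψ v a z s)
    (h2 : Rep σ ψ v a z s') : s = s' := by
  obtain ⟨x, hx, hz, rfl⟩ := h1
  obtain ⟨y, hy, hz', rfl⟩ := h2
  have h3 : ∑ c, σ (x c - y c) * ψ (a c : Ideal (𝓞 F)) = 0 := by
    simp only [map_sub, sub_mul]
    rw [Finset.sum_sub_distrib, ← hz, ← hz', sub_self]
  have h4 := h.ind _ h3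
  exact Finset.sum_congr rfl fun c _ => sub_eq_zero.1 (h4 c)

theorem Rep.mul (h : XDat σ k ψ p v a) {z z' : ℂ} {s s' : F} (h1 : Rep σ ψ v a z s)
    (h2 : Rep σ ψ v a z' s') : ∃ s'', Rep σ ψ v a (z * z') s'' ∧ v (s'' - s * s') < 1 := by
  obtain ⟨x, hx, rfl, rfl⟩ := h1
  obtain ⟨y, hy, rfl, rfl⟩ := h2
  -- structure constants
  have ht : ∀ c d, ∃ t : F, v t = 1 ∧ v (t - 1) < 1 ∧
      ψ (a c : Ideal (𝓞 F)) * ψ (a d : Ideal (𝓞 F)) = σ t * ψ (a (c * d) : Ideal (𝓞 F)) := by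
    intro c d
    obtain ⟨t, ht1, ht2, ht3⟩ := h.int (a c * a d) (by
      rw [Submonoid.coe_mul, map_mul]
      intro h3
      rcases h.prime.dvd_mul.1 h3 with h3 | h3
      · exact h.nrm _ h3
      · exact h.nrm _ h3)
    rw [map_mul, h.cls, h.cls, Submonoid.coe_mul, map_mul] at ht3
    exact ⟨t, ht1, ht2, ht3⟩
  choose t ht1 ht2 ht3 using ht
  refine ⟨∑ e, ∑ c, x c * y (c⁻¹ * e) * t c (c⁻¹ * e), ⟨fun e => ∑ c, x c * y (c⁻¹ * e) *
    t c (c⁻¹ * e), ?_, ?_, rfl⟩, ?_⟩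
  · intro e
    refine v.map_sum_le fun c _ => ?_
    rw [map_mul, map_mul, ht1, mul_one]
    exact mul_le_one' (hx c) (hy _)
  · rw [Finset.sum_mul_sum]
    have e1 : ∀ c, ∑ d, σ (x c) * ψ (a c : Ideal (𝓞 F)) * (σ (y d) * ψ (a d : Ideal (𝓞 F))) =
        ∑ e, σ (x c * y (c⁻¹ * e) * t c (c⁻¹ * e)) * ψ (a e : Ideal (𝓞 F)) := by
      intro c
      refine Fintype.sum_equiv (Equiv.mulLeft c) _ _ fun d => ?_
      rw [Equiv.coe_mulLeft, inv_mul_cancel_left, map_mul, map_mul]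
      linear_combination (σ (x c) * σ (y d)) * ht3 c d
    rw [Finset.sum_congr rfl fun c _ => e1 c, Finset.sum_comm]
    refine Finset.sum_congr rfl fun e _ => ?_
    rw [map_sum, Finset.sum_mul]
  · have e2 : ∑ e, ∑ c, x c * y (c⁻¹ * e) * t c (c⁻¹ * e) - (∑ c, x c) * ∑ d, y d =
        ∑ c, ∑ d, x c * y d * (t c d - 1) := by
      have e3 : ∑ e, ∑ c, x c * y (c⁻¹ * e) * t c (c⁻¹ * e) = ∑ c, ∑ d, x c * y d * t c d := by
        rw [Finset.sum_comm]
        refine Finset.sum_congr rfl fun c _ => ?_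
        symm
        refine Fintype.sum_equiv (Equiv.mulLeft c) _ _ fun d => ?_
        rw [Equiv.coe_mulLeft, inv_mul_cancel_left]
      rw [e3, Finset.sum_mul_sum, ← Finset.sum_sub_distrib]
      refine Finset.sum_congr rfl fun c _ => ?_
      rw [← Finset.sum_sub_distrib]
      exact Finset.sum_congr rfl fun d _ => by ring
    rw [e2]
    refine v.map_sum_lt one_ne_zero fun c _ => v.map_sum_lt one_ne_zero fun d _ => ?_
    rw [map_mul, map_mul]
    calc v (x c) * v (y d) * v (t c d - 1) ≤ 1 * v (t c d - 1) := by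
          gcongr
          exact mul_le_one' (hx c) (hy d)
      _ < 1 := by rw [one_mul]; exact ht2 c d

theorem rep_psi (h : XDat σ k ψ p v a) (J : (Ideal (𝓞 F))⁰)
    (hJ : ¬ p ∣ Ideal.absNorm (J : Ideal (𝓞 F))) :
    ∃ t : F, v t = 1 ∧ v (t - 1) < 1 ∧ Rep σ ψ v a (ψ (J : Ideal (𝓞 F))) t := by
  classical
  obtain ⟨t, h1, h2, h3⟩ := h.int J hJ
  refine ⟨t, h1, h2, fun c => if c = ClassGroup.mk0 J then t else 0, ?_, ?_, ?_⟩
  · intro c
    dsimp only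
    split_ifs
    · exact h1.le
    · simp
  · rw [h3, Finset.sum_eq_single (ClassGroup.mk0 J)]
    · simp only [if_true]
    · intro c _ hc
      simp only [if_neg hc, map_zero, zero_mul]
    · intro h4
      exact absurd (Finset.mem_univ _) h4
  · simp

theorem rep_one (h : XDat σ k ψ p v a) :
    ∃ t : F, v t = 1 ∧ v (t - 1) < 1 ∧ Rep σ ψ v a 1 t := by
  obtain ⟨t, h1, h2, h3⟩ := rep_psi h 1 (by
    rw [Submonoid.coe_one, map_one]
    intro h4
    exact h.prime.one_lt.ne' (Nat.dvd_one.1 h4))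
  rw [Submonoid.coe_one, map_one] at h3
  exact ⟨t, h1, h2, h3⟩

/-- the subring of the integral combinations -/
def R0 (h : XDat σ k ψ p v a) : Subring ℂ where
  carrier := {z | ∃ s, Rep σ ψ v a z s}
  mul_mem' := by
    rintro z z' ⟨s, hs⟩ ⟨s', hs'⟩
    obtain ⟨s'', h1, -⟩ := Rep.mul h hs hs'
    exact ⟨s'', h1⟩
  one_mem' := by
    obtain ⟨t, -, -, ht⟩ := rep_one h
    exact ⟨t, ht⟩
  add_mem' := by
    rintro z z' ⟨s, hs⟩ ⟨s', hs'⟩
    exact ⟨_, hs.add hs'⟩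
  zero_mem' := ⟨0, rep_zero⟩
  neg_mem' := by
    rintro z ⟨s, hs⟩
    exact ⟨_, hs.neg⟩

/-- the ideal of the combinations with sum of positive valuation -/
def I0 (h : XDat σ k ψ p v a) : Ideal (R0 h) where
  carrier := {z | ∃ s, Rep σ ψ v a z.1 s ∧ v s < 1}
  add_mem' := by
    rintro z z' ⟨s, hs, h1⟩ ⟨s', hs', h2⟩
    exact ⟨_, hs.add hs', (v.map_add _ _).trans_lt (max_lt h1 h2)⟩
  zero_mem' := ⟨0, rep_zero, by simp⟩
  smul_mem' := by
    rintro ⟨r, sr, hr⟩ ⟨z, hz⟩ ⟨s, hs, h1⟩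
    obtain ⟨s'', h2, h3⟩ := Rep.mul h hr hs
    refine ⟨s'', h2, ?_⟩
    have h4 : s'' = (s'' - sr * s) + sr * s := by ring
    rw [h4]
    refine (v.map_add _ _).trans_lt (max_lt h3 ?_)
    rw [map_mul]
    calc v sr * v s ≤ 1 * v s := by
          gcongr
          exact hr.le
      _ < 1 := by rw [one_mul]; exact h1

end val

/-- **Existence of a valuation ring of `ℂ` for which the character has trivial reduction.** -/
theorem exists_valuationSubring (σ : F →+* ℂ) {k : ℕ} {ψ : Ideal (𝓞 F) →*₀ ℂ}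
    (hψ : RZ.IsHecke σ k ψ) (hodd : Odd (Fintype.card (ClassGroup (𝓞 F))))
    (hcop : k.Coprime (Fintype.card (ClassGroup (𝓞 F)))) {p : ℕ} (hp : p.Prime)
    (hk : (p - 1) ∣ k) {P : Ideal (𝓞 F)} (hP : P.IsPrime) (hPN : Ideal.absNorm P = p) :
    ∃ V : ValuationSubring ℂ, V.valuation (p : ℂ) < 1 ∧
      ∀ a : Ideal (𝓞 F), ¬ p ∣ Ideal.absNorm a → V.valuation (ψ a - 1) < 1 := by
  obtain ⟨v, a, h⟩ := xdat σ hψ hodd hcop hp hk hP hPN
  obtain ⟨t, ht1, ht2, ht3⟩ := rep_one h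
  have hI : I0 h ≠ ⊤ := by
    rw [Ne, Ideal.eq_top_iff_one]
    rintro ⟨s, hs, h1⟩
    have h2 : s = t := Rep.unique h hs ht3
    rw [h2, ht1] at h1
    exact lt_irrefl _ h1
  obtain ⟨V, hV1, hV2⟩ := Ideal.image_subset_nonunits_valuationSubring (I0 h) hI
  have key : ∀ (z : ℂ) (s : F), Rep σ ψ v a z s → v s < 1 → V.valuation z < 1 := by
    intro z s hs h1
    rw [← V.mem_nonunits_iff]
    exact hV2 ⟨⟨z, s, hs⟩, ⟨s, hs, h1⟩, rfl⟩
  refine ⟨V, ?_, ?_⟩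
  · -- `p`
    have h1 : ∀ n : ℕ, Rep σ ψ v a (n : ℂ) ((n : F) * t) := by
      intro n
      induction n with
      | zero => simpa using rep_zero
      | succ n ih =>
        have := ih.add ht3
        convert this using 1
        · push_cast
          ring
        · push_cast
          ring
    refine key _ _ (h1 p) ?_
    rw [map_mul, ht1, mul_one]
    exact h.hp
  · intro J hJ
    have hJ0 : J ≠ ⊥ := by
      rintro rfl
      rw [Ideal.absNorm_bot] at hJ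
      exact hJ (dvd_zero p)
    obtain ⟨t', h1, h2, h3⟩ := rep_psi h ⟨J, mem_nonZeroDivisors_of_ne_zero hJ0⟩ hJ
    have h4 := h3.add ht3.neg
    rw [← sub_eq_add_neg, ← sub_eq_add_neg] at h4
    refine key _ _ h4 ?_
    have h5 : t' - t = (t' - 1) - (t - 1) := by ring
    rw [h5]
    exact (v.map_sub _ _).trans_lt (max_lt h2 ht2)

end

end Pool.Agent.Lib.MP_7c08ba_nt.RZX
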