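import Mathlib
import Pool.Agent.Lib.MP_7c08ba_nt.RZ.ETwo
import Pool.Agent.Lib.MP_7c08ba_nt.RZ.All
import Pool.Agent.Lib.MP_7c08ba_nt.RZ.C.All
import Pool.Agent.Lib.MP_7c08ba_nt.RZ.C3.All3
import Pool.Agent.Lib.MP_7c08ba_nt.RZ.ExV

set_option autoImplicit false

/-!
Non-vanishing of the central value: `p = 2` and `p = 3`.
-/

namespace Pool.Agent.Lib.MP_7c08ba_nt

namespace RZ

open NumberField Matrix IsDedekindDomain
open scoped MatrixGroups nonZeroDivisors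

variable {F : Type} [Field F] [NumberField F] {w : ℕ}

/-- From the analytic part and a period which is not zero. -/
lemma lval_of {f : CuspForm 𝒮ℒ (w : ℤ)} {σ : F →+* ℂ} {r : ℕ} {ψ : Ideal (𝓞 F) →*₀ ℂ}
    (h : ∃ Λ : ℂ → ℂ, DifferentiableOn ℂ Λ {z | -1 / 2 < z.re} ∧
      (∀ z : ℂ, 1 < z.re → HasProd (fun v : HeightOneSpectrum (𝓞 F) =>
        (eulF f ψ ((w : ℂ) + r + z) v)⁻¹) (Λ z)) ∧
      ∀ c : Reps σ, ∃ K : ℂ, K ≠ 0 ∧ Λ 0 = K * period f r ψ c ^ 2)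
    (h' : ∃ c : Reps σ, period f r ψ c ≠ 0) :
    ∃ Λ : ℂ → ℂ, IsLFunction f ψ r Λ ∧ Λ 0 ≠ 0 := by
  obtain ⟨Λ, h1, h2, h3⟩ := h
  obtain ⟨c, hc⟩ := h'
  obtain ⟨K, hK, hK'⟩ := h3 c
  refine ⟨Λ, ⟨h1, fun z hz => ?_⟩, ?_⟩
  · have h4 := h2 z hz
    simp only [eulF_eq] at h4
    exact h4
  · rw [hK']
    exact mul_ne_zero hK (pow_ne_zero 2 hc)

/-- The central value is not zero if the character is trivial modulo a valuation above `2`. -/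
theorem lval_two {q : ℕ} (hq : q.Prime) (h16 : q % 16 = 7) (hF : Module.finrank ℚ F = 2) {s : F}
    (hs : s ^ 2 = -(q : F)) {f : CuspForm 𝒮ℒ (w : ℤ)} (hf : IsEigen f) {σ : F →+* ℂ} {r : ℕ}
    {ψ : Ideal (𝓞 F) →*₀ ℂ} (hψ : IsHecke σ (w + 2 * r) ψ) {V : ValuationSubring ℂ}
    (hV : ResTriv V ψ) : ∃ Λ : ℂ → ℂ, IsLFunction f ψ r Λ ∧ Λ 0 ≠ 0 :=
  lval_of (stMain_of aMainD q F _ _ s σ w r f ψ hq h16 hF hs hf hψ)
    (RZC.stmtC_all q F _ _ s σ V w r f ψ hq h16 hF hs hf hψ hV)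

/-- The central value is not zero if the character is trivial modulo a valuation above `3`. -/
theorem lval_three (hM : StMainA) (hFC : StField3) {D : ℕ} (hD : BKDH.IsFund D) (h3 : D % 3 = 2)
    (hR : BKDH.RigidAll D) (hF : Module.finrank ℚ F = 2) {s : F}
    (hs : s ^ 2 = -(D : F)) {f : CuspForm 𝒮ℒ (w : ℤ)} (hf : IsEigen f) {σ : F →+* ℂ} {r : ℕ}
    {ψ : Ideal (𝓞 F) →*₀ ℂ} (hψ : IsHecke σ (w + 2 * r) ψ) {V : ValuationSubring ℂ}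
    (hV : RZC3.ResTriv3 V ψ) : ∃ Λ : ℂ → ℂ, IsLFunction f ψ r Λ ∧ Λ 0 ≠ 0 := by
  have h4 : 4 < D := by
    obtain ⟨h2, -⟩ := hD
    rcases h2 with h | h | h <;> omega
  exact lval_of (hM D F _ _ s σ w r f ψ hD h4 hF hs hf hψ)
    (RZC3.stmtC3_all D F _ _ s σ V w r f ψ (hFC D F _ _ s hD h3 hR hF hs) hf hψ hV)

/-- The valuation ring of an embedding, `p = 2`. -/
lemma resTriv_valRing {E : Type} [NormedField E] [NormedAlgebra ℚ_[2] E]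
    {ψ : Ideal (𝓞 F) →*₀ ℂ} {ι : ℂ →+* E} (hι : ResidueOneAt 2 ψ ι) :
    ∃ V : ValuationSubring ℂ, ResTriv V ψ := by
  have hul := ultra E
  refine ⟨valRing ι, ?_, fun a ha => ?_⟩
  · rw [← ValuationSubring.mem_nonunits_iff, mem_nonunits_valRing, map_ofNat, norm_two]
    norm_num
  · rw [← ValuationSubring.mem_nonunits_iff, mem_nonunits_valRing, map_sub, map_one]
    exact hι.residueOne a ha

/-- The valuation ring of an embedding, `p = 3`. -/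
lemma resTriv3_valRing {E : Type} [NormedField E] [NormedAlgebra ℚ_[3] E]
    {ψ : Ideal (𝓞 F) →*₀ ℂ} {ι : ℂ →+* E} (hι : ResidueOneAt 3 ψ ι) :
    ∃ V : ValuationSubring ℂ, RZC3.ResTriv3 V ψ := by
  have hul := ultra_p 3 E
  refine ⟨valRing ι, ?_, fun a ha => ?_⟩
  · rw [← ValuationSubring.mem_nonunits_iff]
    exact above3_valRing ι
  · rw [← ValuationSubring.mem_nonunits_iff, mem_nonunits_valRing, map_sub, map_one]
    exact hι a ha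

/-- The half `k ≥ w`, `p = 2`. -/
theorem lhalf_two {q : ℕ} (hq : q.Prime) (h16 : q % 16 = 7) (hF : Module.finrank ℚ F = 2) {s : F}
    (hs : s ^ 2 = -(q : F)) {f : CuspForm 𝒮ℒ (w : ℤ)} (hf : IsEigen f) {σ : F →+* ℂ} {r : ℕ}
    {ψ : Ideal (𝓞 F) →*₀ ℂ} (hψ : IsHecke σ (w + 2 * r) ψ) {E : Type} [NormedField E]
    [NormedAlgebra ℚ_[2] E] {ι : ℂ →+* E} (hι : ResidueOneAt 2 ψ ι) :
    ∃ Λ : ℂ → ℂ, IsLFunction f ψ r Λ ∧ Λ 0 ≠ 0 := by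
  obtain ⟨V, hV⟩ := resTriv_valRing hι
  exact lval_two hq h16 hF hs hf hψ hV

/-- The half `k ≥ w`, `p = 3`. -/
theorem lhalf_three (hM : StMainA) (hFC : StField3) {D : ℕ} (hD : BKDH.IsFund D) (h3 : D % 3 = 2)
    (hR : BKDH.RigidAll D) (hF : Module.finrank ℚ F = 2) {s : F}
    (hs : s ^ 2 = -(D : F)) {f : CuspForm 𝒮ℒ (w : ℤ)} (hf : IsEigen f) {σ : F →+* ℂ} {r : ℕ}
    {ψ : Ideal (𝓞 F) →*₀ ℂ} (hψ : IsHecke σ (w + 2 * r) ψ) {E : Type} [NormedField E]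
    [NormedAlgebra ℚ_[3] E] {ι : ℂ →+* E} (hι : ResidueOneAt 3 ψ ι) :
    ∃ Λ : ℂ → ℂ, IsLFunction f ψ r Λ ∧ Λ 0 ≠ 0 := by
  obtain ⟨V, hV⟩ := resTriv3_valRing hι
  exact lval_three hM hFC hD h3 hR hF hs hf hψ hV

/-- **The Bloch–Kato conjecture in rank zero**, `p = 2`. -/
theorem bkZero_two_all {q : ℕ} (hq : q.Prime) (h16 : q % 16 = 7) : BKZero 2 q :=
  bkZero_two (stMain_of aMainD) RZC.stmtC_all RZC.pOddZero RZC.pDelta hq h16

/-- **The Bloch–Kato conjecture in rank zero**, `p = 3`. -/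
theorem bkZero_three_all (hM : StMainA) (hFC : StField3) {D : ℕ} (hD : BKDH.IsFund D)
    (h3 : D % 3 = 2) (hR : BKDH.RigidAll D) : BKZero 3 D :=
  bkZero_three hM RZC3.stmtC3_all RZC3.pTr3 RZC3.pDelta3 hFC hD h3 hR

/-- A prime of norm `2`. -/
lemma exists_norm_two {q : ℕ} (h16 : q % 16 = 7) (hF : Module.finrank ℚ F = 2) {s : F}
    (hs : s ^ 2 = -(q : F)) : ∃ P : Ideal (𝓞 F), P.IsPrime ∧ Ideal.absNorm P = 2 := by
  obtain ⟨u, hu⟩ := exists_sqrt h16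
  have h1 : ∃ j : F →+* ℚ_[2], True := by
    have hq0 : 0 < q := by omega
    let : NormedField (PadicAlgCl 2) := inferInstance
    have h2 : Nonempty (F →+* PadicAlgCl 2) := by
      let : Algebra ℚ (PadicAlgCl 2) := DivisionRing.toRatAlgebra
      exact ⟨(IsAlgClosed.lift (R := ℚ) (S := F) (M := PadicAlgCl 2)).toRingHom⟩
    obtain ⟨τ⟩ := h2
    obtain ⟨j, -⟩ := exists_padic h16 hF hs τ
    exact ⟨j, trivial⟩
  obtain ⟨j, -⟩ := h1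
  obtain ⟨v, hv⟩ := exists_place j
  exact ⟨v.asIdeal, v.isPrime, absNorm_eq_two hF hv⟩

/-- Non-vanishing of the central value for all characters of type `(k, 0)` with `k` prime to the
class number, `p = 2`. -/
theorem lval_coprime_two {q : ℕ} (hq : q.Prime) (h16 : q % 16 = 7)
    (hF : Module.finrank ℚ F = 2) {s : F}
    (hs : s ^ 2 = -(q : F)) (hodd : Odd (Fintype.card (ClassGroup (𝓞 F))))
    {f : CuspForm 𝒮ℒ (w : ℤ)} (hf : IsEigen f) {σ : F →+* ℂ} {r : ℕ}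
    (hcop : (w + 2 * r).Coprime (Fintype.card (ClassGroup (𝓞 F))))
    {ψ : Ideal (𝓞 F) →*₀ ℂ} (hψ : IsHecke σ (w + 2 * r) ψ) :
    ∃ Λ : ℂ → ℂ, IsLFunction f ψ r Λ ∧ Λ 0 ≠ 0 := by
  obtain ⟨P, hP, hPN⟩ := exists_norm_two h16 hF hs
  obtain ⟨V, hV1, hV2⟩ := RZX.exists_valuationSubring σ hψ hodd hcop Nat.prime_two
    (by simp) hP hPN
  refine lval_two hq h16 hF hs hf hψ (V := V) ⟨?_, fun a ha => ?_⟩
  · exact_mod_cast hV1
  · refine hV2 a fun h2 => ?_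
    rw [← Nat.not_even_iff_odd] at ha
    exact ha (even_iff_two_dvd.mpr h2)

end RZ

end Pool.Agent.Lib.MP_7c08ba_nt
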