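import Mathlib
import Pool.Agent.Lib.MP_7c08ba_nt.RZ.EDefs
import Pool.Agent.Lib.MP_7c08ba_nt.BK.Stmt

set_option autoImplicit false

/-!
The `L`-function and the `p`-adic realisation of the base change of an eigenform of level one and
weight `w`, twisted by an unramified Hecke character of type `(k, 0)` of an imaginary quadratic
field, for every `k` with `w + k` even.
-/

namespace Pool.Agent.Lib.MP_7c08ba_nt

namespace RZ

open NumberField Matrix IsDedekindDomain BKGen BKOdd MP_7c08ba.Crys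
open scoped MatrixGroups

section

variable {F : Type} [Field F] [NumberField F] {w : ℕ}

/-- The trace of the (geometric) Frobenius at `v` on `BC_F(f) ⊗ ψ`, twisted to weight `-1`. -/
noncomputable def frobTr (f : CuspForm 𝒮ℒ (w : ℤ)) (ψ : Ideal (𝓞 F) →*₀ ℂ) (k : ℕ)
    (v : HeightOneSpectrum (𝓞 F)) : ℂ :=
  tv f v * ψ v.asIdeal / (Ideal.absNorm v.asIdeal : ℂ) ^ ((w + k) / 2)

/-- The determinant of the (geometric) Frobenius at `v` on `BC_F(f) ⊗ ψ`, twisted to weight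
`-1`. -/
noncomputable def frobDt (w : ℕ) (ψ : Ideal (𝓞 F) →*₀ ℂ) (k : ℕ)
    (v : HeightOneSpectrum (𝓞 F)) : ℂ :=
  (Ideal.absNorm v.asIdeal : ℂ) ^ (w - 1) * ψ v.asIdeal ^ 2 /
    (Ideal.absNorm v.asIdeal : ℂ) ^ (2 * ((w + k) / 2))

/-- `Λ` is the `L`-function of `BC_F(f) ⊗ ψ`, twisted to weight `-1`, in `Re z > -1/2`. -/
structure IsLFun (f : CuspForm 𝒮ℒ (w : ℤ)) (ψ : Ideal (𝓞 F) →*₀ ℂ) (k : ℕ)
    (Λ : ℂ → ℂ) : Prop where
  differentiable : DifferentiableOn ℂ Λ {z | -1 / 2 < z.re}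
  euler : ∀ z : ℂ, 1 < z.re → HasProd (fun v : HeightOneSpectrum (𝓞 F) =>
    (1 - frobTr f ψ k v * (Ideal.absNorm v.asIdeal : ℂ) ^ (-z) +
      frobDt w ψ k v * ((Ideal.absNorm v.asIdeal : ℂ) ^ (-z)) ^ 2)⁻¹) (Λ z)

/-- The representation `ρ` over `L` realises `BC_F(f) ⊗ ψ`, twisted to weight `-1`: it is
unramified outside `p`, a geometric Frobenius at a place `v` not above `p` has trace `frobTr` and
determinant `frobDt`, there is a symmetric form with `⟨g x, (c g c⁻¹) y⟩ = χ(g) ⟨x, y⟩`, at each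
place `v` above `p` it is de Rham and the Frobenius `φ` of `D_cris` (over `F(μ_p)`) satisfies
`φ² - frobTr φ + frobDt = 0`, and the dimension of `D_dR / Fil⁰` is one at each place above `p` if
`k < w`, and zero at the place given by `ι ∘ σ` if `w ≤ k`. -/
structure IsReal (p : ℕ) [Fact p.Prime] {L E : Type} [NormedField L] [NormedAlgebra ℚ_[p] L]
    [NormedField E] [NormedAlgebra L E] (σ : F →+* ℂ) (f : CuspForm 𝒮ℒ (w : ℤ))
    (ψ : Ideal (𝓞 F) →*₀ ℂ) (k : ℕ) (ι : ℂ →+* E) (ρ : AbsGal F →* GL (Fin 2) L) : Prop where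
  continuous : Continuous ρ
  unramified : ∀ (l : ℕ) [Fact l.Prime], l ≠ p → ∀ j : AlgebraicClosure F →+* PadicAlgCl l,
    ∀ g ∈ Inert F (AlgebraicClosure F) j, ρ g = 1
  frobenius : ∀ (v : HeightOneSpectrum (𝓞 F)) (P : Ideal (AllInt F)), P.IsPrime →
    (p : AllInt F) ∉ P → P.under (𝓞 F) = v.asIdeal → ∀ g : AbsGal F, IsFrobenius P g →
    algebraMap L E (ρ g⁻¹ : Matrix (Fin 2) (Fin 2) L).trace = ι (frobTr f ψ k v) ∧
    algebraMap L E (ρ g⁻¹ : Matrix (Fin 2) (Fin 2) L).det = ι (frobDt w ψ k v)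
  dual : ∃ (c : AlgebraicClosure F ≃+* AlgebraicClosure F) (τ : F ≃+* F) (hc : ConjHyp c τ)
    (B : GL (Fin 2) L), (B : Matrix (Fin 2) (Fin 2) L)ᵀ = B ∧
    ∀ g, (ρ g : Matrix (Fin 2) (Fin 2) L)ᵀ * (B : Matrix (Fin 2) (Fin 2) L) *
      (ρ (conj c τ hc.h g) : Matrix (Fin 2) (Fin 2) L) =
        chL (cyc p F) L g • (B : Matrix (Fin 2) (Fin 2) L)
  deRham : ∀ j : AlgebraicClosure F →+* PadicAlgCl p, DeRhamAt j ρ
  crystalline : ∀ (ζ : AlgebraicClosure F), IsPrimitiveRoot ζ p →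
    ∀ (j : AlgebraicClosure F →+* PadicAlgCl p) (v : HeightOneSpectrum (𝓞 F)),
    (∀ x : 𝓞 F, x ∈ v.asIdeal ↔ ‖j (algebraMap F (AlgebraicClosure F) x)‖ < 1) →
    ∃ t d : L, algebraMap L E t = ι (frobTr f ψ k v) ∧ algebraMap L E d = ι (frobDt w ψ k v) ∧
      ∀ b ∈ DBat galBa (Kz ζ).fixingSubgroup j ρ,
        frobV p L (Fin 2 → L) (frobV p L (Fin 2 → L) b) - t • frobV p L (Fin 2 → L) b +
          d • b = 0
  weights_lt : k < w → ∀ j : AlgebraicClosure F →+* PadicAlgCl p, tdim j ρ = 1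
  weights_ge : w ≤ k → ∀ j : AlgebraicClosure F →+* PadicAlgCl p,
    (∀ x : F, ‖j (algebraMap F (AlgebraicClosure F) x)‖ = ‖ι (σ x)‖) → tdim j ρ = 0

lemma frobTr_eq (f : CuspForm 𝒮ℒ (w : ℤ)) (ψ : Ideal (𝓞 F) →*₀ ℂ) (r : ℕ)
    (v : HeightOneSpectrum (𝓞 F)) : frobTr f ψ (w + 2 * r) v = frobTrace f ψ r v := by
  have h : (w + (w + 2 * r)) / 2 = w + r := by omega
  rw [frobTr, h, frobTrace]

lemma frobDt_eq (ψ : Ideal (𝓞 F) →*₀ ℂ) (r : ℕ)
    (v : HeightOneSpectrum (𝓞 F)) : frobDt w ψ (w + 2 * r) v = frobDet w ψ r v := by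
  have h : (w + (w + 2 * r)) / 2 = w + r := by omega
  rw [frobDt, h, frobDet]

theorem isLFun_iff (f : CuspForm 𝒮ℒ (w : ℤ)) (ψ : Ideal (𝓞 F) →*₀ ℂ) (r : ℕ) (Λ : ℂ → ℂ) :
    IsLFun f ψ (w + 2 * r) Λ ↔ IsLFunction f ψ r Λ := by
  constructor
  · rintro ⟨h1, h2⟩
    refine ⟨h1, ?_⟩
    simpa only [frobTr_eq, frobDt_eq] using h2
  · rintro ⟨h1, h2⟩
    refine ⟨h1, ?_⟩
    simpa only [frobTr_eq, frobDt_eq] using h2

end

end RZ

end Pool.Agent.Lib.MP_7c08ba_nt
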