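import Mathlib
import Pool.Agent.Lib.MP_7c08ba_nt.RZ.R1.SpecAll
import Pool.Agent.Lib.MP_7c08ba_nt.RZ.NDefs
import Pool.Agent.Lib.MP_7c08ba_nt.RZ.AllE
import Pool.Agent.Lib.MP_7c08ba_nt.RZ.Fund

set_option autoImplicit false

/-!
The strict form of the trivial bound for the Hecke eigenvalues, and the values of the Hecke
polynomials at the places of degree one.
-/

namespace Pool.Agent.Lib.MP_7c08ba_nt

namespace RZ

open NumberField MeasureTheory UpperHalfPlane Set IsDedekindDomain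
open scoped MatrixGroups ComplexConjugate nonZeroDivisors

namespace Ram

open SpanAux Spec

variable {w : ℕ}

/-- The invariant absolute value. -/
noncomputable def FF (f : CuspForm 𝒮ℒ (w : ℤ)) (z : ℂ) : ℝ := ‖ext f z‖ * z.im ^ ((w : ℝ) / 2)

lemma FF_nonneg (f : CuspForm 𝒮ℒ (w : ℤ)) {z : ℂ} (hz : 0 < z.im) : 0 ≤ FF f z :=
  mul_nonneg (norm_nonneg _) (Real.rpow_nonneg hz.le _)

lemma FF_sq (f : CuspForm 𝒮ℒ (w : ℤ)) (τ : ℍ) : FF f (τ : ℂ) ^ 2 = ‖petersson w f f τ‖ := by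
  have hy : 0 < τ.im := τ.im_pos
  unfold FF
  rw [ext_coe, mul_pow, petersson, norm_mul, norm_mul, Complex.norm_conj, ← pow_two]
  congr 1
  rw [← Real.rpow_natCast, ← Real.rpow_mul (by exact hy.le)]
  have h1 : (w : ℝ) / 2 * ((2 : ℕ) : ℝ) = (w : ℝ) := by push_cast; ring
  rw [h1, Real.rpow_natCast, zpow_natCast, norm_pow, Complex.norm_real, Real.norm_eq_abs,
    abs_of_pos hy]
  rfl

lemma FF_smul (f : CuspForm 𝒮ℒ (w : ℤ)) (γ : SL(2, ℤ)) (τ : ℍ) :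
    FF f ((γ • τ : ℍ) : ℂ) = FF f (τ : ℂ) := by
  have h1 : FF f ((γ • τ : ℍ) : ℂ) ^ 2 = FF f (τ : ℂ) ^ 2 := by
    rw [FF_sq, FF_sq]
    have h2 := SlashInvariantFormClass.petersson_smul (f := f) (f' := f) (k := (w : ℤ))
      (g := Matrix.SpecialLinearGroup.mapGL ℝ γ) (τ := τ) ⟨γ, rfl⟩
    exact congrArg norm h2
  exact (pow_left_inj₀ (FF_nonneg f (γ • τ).im_pos) (FF_nonneg f τ.im_pos) two_ne_zero).mp h1

/-- Points with large imaginary part. -/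
lemma exists_half (f : CuspForm 𝒮ℒ (w : ℤ)) {z : ℂ} (hz : 0 < z.im) :
    ∃ z' : ℂ, 1 / 2 ≤ z'.im ∧ FF f z' = FF f z := by
  obtain ⟨γ, hγ⟩ := ModularGroup.exists_one_half_le_im_smul ⟨z, hz⟩
  exact ⟨((γ • (⟨z, hz⟩ : ℍ) : ℍ) : ℂ), hγ, FF_smul f γ ⟨z, hz⟩⟩

lemma FF_bdd (f : CuspForm 𝒮ℒ (w : ℤ)) : ∃ C : ℝ, ∀ z : ℂ, 0 < z.im → FF f z ≤ C :=
  (aCoef w f).2.2.2.1

/-- Decay. -/
lemma FF_decay (f : CuspForm 𝒮ℒ (w : ℤ)) {ε : ℝ} (hε : 0 < ε) :
    ∃ Y : ℝ, ∀ z : ℂ, Y ≤ z.im → FF f z ≤ ε := by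
  obtain ⟨C, hC⟩ := (aCoef w f).2.2.2.2
  have h1 : Filter.Tendsto (fun y : ℝ => C * (y ^ ((w : ℝ) / 2) * Real.exp (-(2 * Real.pi) * y)))
      Filter.atTop (nhds (C * 0)) :=
    (tendsto_rpow_mul_exp_neg_mul_atTop_nhds_zero _ _ (by positivity)).const_mul C
  rw [mul_zero] at h1
  have h2 := (h1.eventually (ge_mem_nhds hε)).and (Filter.eventually_ge_atTop (1 / 2 : ℝ))
  obtain ⟨Y, hY⟩ := Filter.eventually_atTop.mp h2
  refine ⟨Y, fun z hz => ?_⟩
  obtain ⟨h3, h4⟩ := hY z.im hz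
  have h5 := hC z h4
  have h6 : (0 : ℝ) ≤ z.im ^ ((w : ℝ) / 2) := Real.rpow_nonneg (by linarith) _
  calc FF f z ≤ C * Real.exp (-(2 * Real.pi * z.im)) * z.im ^ ((w : ℝ) / 2) :=
        mul_le_mul_of_nonneg_right h5 h6
    _ = C * (z.im ^ ((w : ℝ) / 2) * Real.exp (-(2 * Real.pi) * z.im)) := by
        rw [neg_mul]
        ring
    _ ≤ ε := h3

/-- The Hecke relation. -/
lemma hecke (hw : 4 ≤ w) (hev : Even w) {f : CuspForm 𝒮ℒ (w : ℤ)} (hf : IsEigen f) {p : ℕ}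
    (hp : p.Prime) {z : ℂ} (hz : 0 < z.im) :
    coef f p * ext f z = (p : ℂ) ^ (w - 1) * ext f (p * z) +
      ∑ b ∈ Finset.range p, (p : ℂ)⁻¹ * ext f ((z + b) / p) := by
  have h1 := T_apply aPoi aSpan aTrP hw hev hp f ⟨z, hz⟩
  rw [T_eigen aPoi aCoef aSpan aTrP RZC.pHecke hw hev hf hp, Tpt_eq hp] at h1
  rw [← h1]
  rw [ext_pos f hz]
  rfl

/-- The Hecke relation for the invariant absolute values. -/
lemma FF_hecke (hw : 4 ≤ w) (hev : Even w) {f : CuspForm 𝒮ℒ (w : ℤ)} (hf : IsEigen f) {p : ℕ}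
    (hp : p.Prime) {z : ℂ} (hz : 0 < z.im) :
    ‖coef f p‖ * FF f z ≤ (p : ℝ) ^ ((w : ℝ) / 2 - 1) *
      (FF f (p * z) + ∑ b ∈ Finset.range p, FF f ((z + b) / p)) := by
  have hp0 : (0 : ℝ) < p := by exact_mod_cast hp.pos
  have hpc : (p : ℂ) ≠ 0 := by exact_mod_cast hp.ne_zero
  have him1 : ((p : ℂ) * z).im = p * z.im := by simp
  have him2 : ∀ b : ℕ, ((z + b) / p : ℂ).im = z.im / p := by
    intro b
    have h1 : (z + b) / (p : ℂ) = ((p : ℝ)⁻¹ : ℝ) * (z + b) := by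
      push_cast
      rw [div_eq_inv_mul]
    rw [h1, Complex.im_ofReal_mul]
    simp [div_eq_inv_mul]
  have hs : (0 : ℝ) < z.im ^ ((w : ℝ) / 2) := Real.rpow_pos_of_pos hz _
  have h0 : (p : ℝ) ^ (w - 1) = (p : ℝ) ^ ((w : ℝ) / 2 - 1) * (p : ℝ) ^ ((w : ℝ) / 2) := by
    rw [← Real.rpow_add hp0, ← Real.rpow_natCast]
    congr 1
    rw [Nat.cast_sub (by omega)]
    push_cast
    ring
  have h1 : (p : ℝ) ^ (w - 1) * ‖ext f (p * z)‖ * z.im ^ ((w : ℝ) / 2) =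
      (p : ℝ) ^ ((w : ℝ) / 2 - 1) * FF f (p * z) := by
    unfold FF
    rw [him1, Real.mul_rpow hp0.le hz.le, h0]
    ring
  have h2 : ∀ b : ℕ, (p : ℝ)⁻¹ * ‖ext f ((z + b) / p)‖ * z.im ^ ((w : ℝ) / 2) =
      (p : ℝ) ^ ((w : ℝ) / 2 - 1) * FF f ((z + b) / p) := by
    intro b
    unfold FF
    rw [him2, Real.div_rpow hz.le hp0.le, Real.rpow_sub hp0, Real.rpow_one]
    have h3 : (p : ℝ) ^ ((w : ℝ) / 2) ≠ 0 := (Real.rpow_pos_of_pos hp0 _).ne'
    field_simp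
  have h3 := congrArg norm (hecke hw hev hf hp hz)
  rw [norm_mul] at h3
  have h4 : ‖(p : ℂ) ^ (w - 1) * ext f (p * z) +
      ∑ b ∈ Finset.range p, (p : ℂ)⁻¹ * ext f ((z + b) / p)‖ ≤
      (p : ℝ) ^ (w - 1) * ‖ext f (p * z)‖ +
        ∑ b ∈ Finset.range p, (p : ℝ)⁻¹ * ‖ext f ((z + b) / p)‖ := by
    refine (norm_add_le _ _).trans (add_le_add ?_ ((norm_sum_le _ _).trans ?_))
    · rw [norm_mul, norm_pow, Complex.norm_natCast]
    · refine Finset.sum_le_sum fun b _ => ?_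
      rw [norm_mul, norm_inv, Complex.norm_natCast]
  calc ‖coef f p‖ * FF f z = ‖coef f p‖ * ‖ext f z‖ * z.im ^ ((w : ℝ) / 2) := by
        unfold FF
        ring
    _ ≤ ((p : ℝ) ^ (w - 1) * ‖ext f (p * z)‖ +
        ∑ b ∈ Finset.range p, (p : ℝ)⁻¹ * ‖ext f ((z + b) / p)‖) * z.im ^ ((w : ℝ) / 2) := by
        rw [h3]
        exact mul_le_mul_of_nonneg_right h4 hs.le
    _ = _ := by
        rw [add_mul, Finset.sum_mul, h1, Finset.sum_congr rfl fun b _ => h2 b, ← Finset.mul_sum]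
        ring

/-- **The strict form of the trivial bound.** -/
theorem norm_coef_lt (hw : 4 ≤ w) (hev : Even w) {f : CuspForm 𝒮ℒ (w : ℤ)} (hf : IsEigen f)
    {p : ℕ} (hp : p.Prime) : ‖coef f p‖ < (p : ℝ) ^ ((w : ℝ) / 2 - 1) * (p + 1) := by
  by_contra hcon
  rw [not_lt] at hcon
  have hp0 : (0 : ℝ) < p := by exact_mod_cast hp.pos
  have hp1 : (1 : ℝ) < p := by exact_mod_cast hp.one_lt
  have hpp : (0 : ℝ) < (p : ℝ) ^ ((w : ℝ) / 2 - 1) := Real.rpow_pos_of_pos hp0 _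
  obtain ⟨C, hC⟩ := FF_bdd f
  set S : Set ℝ := (FF f) '' {z : ℂ | 0 < z.im} with hS
  have hbdd : BddAbove S := ⟨C, by rintro _ ⟨z, hz, rfl⟩; exact hC z hz⟩
  have hne : S.Nonempty := ⟨_, Complex.I, by simp, rfl⟩
  set M := sSup S with hM
  have hle : ∀ z : ℂ, 0 < z.im → FF f z ≤ M := fun z hz => le_csSup hbdd ⟨z, hz, rfl⟩
  -- `M > 0`
  have hM0 : 0 < M := by
    by_contra h
    rw [not_lt] at h
    have h1 : ∀ z : ℂ, 0 < z.im → ext f z = 0 := by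
      intro z hz
      have h2 := hle z hz
      have h3 := FF_nonneg f hz
      have h4 : ‖ext f z‖ * z.im ^ ((w : ℝ) / 2) = 0 := le_antisymm (h2.trans h) h3
      have h5 : z.im ^ ((w : ℝ) / 2) ≠ 0 := (Real.rpow_pos_of_pos hz _).ne'
      exact norm_eq_zero.mp ((mul_eq_zero.mp h4).resolve_right h5)
    have h6 : f = 0 := by
      refine DFunLike.ext _ _ fun z => ?_
      rw [← ext_coe, h1 z z.im_pos]
      rfl
    have h7 := hf.one
    rw [h6] at h7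
    have h8 : coef (0 : CuspForm 𝒮ℒ (w : ℤ)) 1 = 0 := by
      have h9 := coef_smul (0 : ℂ) (0 : CuspForm 𝒮ℒ (w : ℤ)) 1
      rwa [zero_smul, zero_mul] at h9
    rw [h8] at h7
    exact zero_ne_one h7
  -- one step
  have hstep : ∀ z : ℂ, 0 < z.im → M - FF f (p * z) ≤ (p + 1) * (M - FF f z) := by
    intro z hz
    have h1 := FF_hecke hw hev hf hp hz
    have h2 : (p : ℝ) ^ ((w : ℝ) / 2 - 1) * (p + 1) * FF f z ≤ ‖coef f p‖ * FF f z :=
      mul_le_mul_of_nonneg_right hcon (FF_nonneg f hz)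
    have h3 : ∑ b ∈ Finset.range p, FF f ((z + b) / p) ≤ p * M := by
      calc ∑ b ∈ Finset.range p, FF f ((z + b) / p) ≤ ∑ _b ∈ Finset.range p, M := by
            refine Finset.sum_le_sum fun b _ => hle _ ?_
            have h4 : (z + b) / (p : ℂ) = ((p : ℝ)⁻¹ : ℝ) * (z + b) := by
              push_cast
              rw [div_eq_inv_mul]
            rw [h4, Complex.im_ofReal_mul]
            have h5 : (z + b).im = z.im := by simp
            rw [h5]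
            positivity
        _ = p * M := by rw [Finset.sum_const, Finset.card_range, nsmul_eq_mul]
    have h4 : (p : ℝ) ^ ((w : ℝ) / 2 - 1) * ((p + 1) * FF f z) ≤
        (p : ℝ) ^ ((w : ℝ) / 2 - 1) * (FF f (p * z) + p * M) := by
      calc (p : ℝ) ^ ((w : ℝ) / 2 - 1) * ((p + 1) * FF f z) =
          (p : ℝ) ^ ((w : ℝ) / 2 - 1) * (p + 1) * FF f z := by ring
        _ ≤ ‖coef f p‖ * FF f z := h2
        _ ≤ _ := h1.trans (mul_le_mul_of_nonneg_left (by linarith) hpp.le)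
    have h5 := le_of_mul_le_mul_left h4 hpp
    linarith
  have hiter : ∀ (n : ℕ) (z : ℂ), 0 < z.im →
      M - FF f ((p : ℂ) ^ n * z) ≤ (p + 1) ^ n * (M - FF f z) := by
    intro n
    induction n with
    | zero => intro z _; simp
    | succ n ih =>
      intro z hz
      have h1 : (0 : ℝ) < ((p : ℂ) ^ n * z).im := by
        have h2 : (p : ℂ) ^ n * z = (((p : ℝ) ^ n : ℝ) : ℂ) * z := by push_cast; ring
        rw [h2, Complex.im_ofReal_mul]
        positivity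
      have h3 := hstep _ h1
      have h4 : (p : ℂ) * ((p : ℂ) ^ n * z) = (p : ℂ) ^ (n + 1) * z := by ring
      rw [h4] at h3
      calc M - FF f ((p : ℂ) ^ (n + 1) * z) ≤ (p + 1) * (M - FF f ((p : ℂ) ^ n * z)) := h3
        _ ≤ (p + 1) * ((p + 1) ^ n * (M - FF f z)) :=
            mul_le_mul_of_nonneg_left (ih z hz) (by positivity)
        _ = _ := by ring
  obtain ⟨Y, hY⟩ := FF_decay f (ε := M / 2) (by linarith)
  obtain ⟨n, hn⟩ : ∃ n : ℕ, 2 * Y ≤ (p : ℝ) ^ n := by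
    obtain ⟨n, hn⟩ := pow_unbounded_of_one_lt (2 * Y) hp1
    exact ⟨n, hn.le⟩
  have hq : (0 : ℝ) < (p + 1) ^ n := by positivity
  obtain ⟨_, ⟨z₀, hz₀, rfl⟩, hz₁⟩ := exists_lt_of_lt_csSup hne
    (show M - M / 4 / (p + 1) ^ n < sSup S by
      rw [← hM]
      have : 0 < M / 4 / ((p : ℝ) + 1) ^ n := by positivity
      linarith)
  obtain ⟨z, hz, hzF⟩ := exists_half f hz₀
  rw [← hzF] at hz₁
  have hz' : 0 < z.im := by linarith
  have h1 := hiter n z hz'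
  have h2 : FF f ((p : ℂ) ^ n * z) ≤ M / 2 := by
    refine hY _ ?_
    have h3 : (p : ℂ) ^ n * z = (((p : ℝ) ^ n : ℝ) : ℂ) * z := by push_cast; ring
    rw [h3, Complex.im_ofReal_mul]
    nlinarith [pow_pos hp0 n]
  have h4 : (p + 1) ^ n * (M - FF f z) ≤ M / 4 := by
    have h5 : M - FF f z ≤ M / 4 / (p + 1) ^ n := by linarith
    calc ((p : ℝ) + 1) ^ n * (M - FF f z) ≤ (p + 1) ^ n * (M / 4 / (p + 1) ^ n) :=
          mul_le_mul_of_nonneg_left h5 hq.le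
      _ = M / 4 := by field_simp
  linarith

/-- A root of the Hecke polynomial at `p`. -/
theorem root_ne (hw : 4 ≤ w) (hev : Even w) {f : CuspForm 𝒮ℒ (w : ℤ)} (hf : IsEigen f)
    {p : ℕ} (hp : p.Prime) {x : ℂ} (hx : ‖x‖ ^ 2 * (p : ℝ) ^ w = 1) :
    1 - coef f p * x + (p : ℂ) ^ (w - 1) * x ^ 2 ≠ 0 := by
  intro h0
  have hp0 : (0 : ℝ) < p := by exact_mod_cast hp.pos
  have hp1 : (1 : ℝ) < p := by exact_mod_cast hp.one_lt
  have hx0 : x ≠ 0 := by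
    rintro rfl
    rw [norm_zero, zero_pow two_ne_zero, zero_mul] at hx
    exact zero_ne_one hx
  have hreal : conj (coef f p) = coef f p := coef_real_all hw hev hf p
  set a := coef f p with ha
  set α := x⁻¹ with hα
  have hαx : α * x = 1 := inv_mul_cancel₀ hx0
  -- `α² = a α - p^(w-1)`
  have h1 : α ^ 2 = a * α - (p : ℂ) ^ (w - 1) := by
    have h2 : α ^ 2 * (1 - a * x + (p : ℂ) ^ (w - 1) * x ^ 2) = 0 := by rw [h0, mul_zero]
    have h3 : α ^ 2 * (1 - a * x + (p : ℂ) ^ (w - 1) * x ^ 2) =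
        α ^ 2 - a * α * (α * x) + (p : ℂ) ^ (w - 1) * (α * x) ^ 2 := by ring
    rw [h3, hαx] at h2
    linear_combination h2
  have h2 : conj α ^ 2 = a * conj α - (p : ℂ) ^ (w - 1) := by
    have h3 := congrArg conj h1
    rw [map_pow, map_sub, map_mul, map_pow, map_natCast, hreal] at h3
    exact h3
  have hnorm : ‖α‖ ^ 2 = (p : ℝ) ^ w := by
    rw [hα, norm_inv, inv_pow]
    exact (eq_inv_of_mul_eq_one_right hx).symm
  have hsq : α * conj α = ((p : ℂ)) ^ w := by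
    rw [Complex.mul_conj, Complex.normSq_eq_norm_sq, hnorm]
    push_cast
    rfl
  have h3 : (α - conj α) * (α + conj α - a) = 0 := by linear_combination h1 - h2
  rcases mul_eq_zero.mp h3 with h4 | h4
  · -- real root
    have h5 : conj α = α := (sub_eq_zero.mp h4).symm
    obtain ⟨β, hβ⟩ : ∃ β : ℝ, (β : ℂ) = α := Complex.conj_eq_iff_real.mp h5 |>.imp fun _ h => h.symm
    have hβ2 : β ^ 2 = (p : ℝ) ^ w := by
      have h6 : ‖α‖ = |β| := by rw [← hβ, Complex.norm_real, Real.norm_eq_abs]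
      rw [← hnorm, h6, sq_abs]
    have hβ0 : β ≠ 0 := by
      rintro rfl
      rw [zero_pow two_ne_zero] at hβ2
      exact (pow_pos hp0 w).ne hβ2
    obtain ⟨b, hb⟩ : ∃ b : ℝ, (b : ℂ) = a :=
      Complex.conj_eq_iff_real.mp hreal |>.imp fun _ h => h.symm
    have h7 : β ^ 2 = b * β - (p : ℝ) ^ (w - 1) := by
      rw [← hβ, ← hb] at h1
      exact_mod_cast h1
    -- `|b| |β| = p^w + p^(w-1)`
    have h8 : |b| * |β| = (p : ℝ) ^ w + (p : ℝ) ^ (w - 1) := by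
      rw [← abs_mul]
      have h9 : b * β = (p : ℝ) ^ w + (p : ℝ) ^ (w - 1) := by linarith
      rw [h9, abs_of_pos (by positivity)]
    have h9 : |β| = (p : ℝ) ^ ((w : ℝ) / 2) := by
      have h10 : |β| ^ 2 = ((p : ℝ) ^ ((w : ℝ) / 2)) ^ 2 := by
        rw [sq_abs, hβ2, ← Real.rpow_natCast, ← Real.rpow_natCast, ← Real.rpow_mul hp0.le]
        congr 1
        push_cast
        ring
      exact (pow_left_inj₀ (abs_nonneg _) (Real.rpow_nonneg hp0.le _) two_ne_zero).mp h10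
    have h10 := norm_coef_lt hw hev hf hp
    rw [← ha, ← hb, Complex.norm_real, Real.norm_eq_abs] at h10
    have h11 : (0 : ℝ) < (p : ℝ) ^ ((w : ℝ) / 2) := Real.rpow_pos_of_pos hp0 _
    have h12 := mul_lt_mul_of_pos_right h10 h11
    rw [h9] at h8
    rw [h8] at h12
    have h13 : (p : ℝ) ^ ((w : ℝ) / 2 - 1) * (p + 1) * (p : ℝ) ^ ((w : ℝ) / 2) =
        (p : ℝ) ^ w + (p : ℝ) ^ (w - 1) := by
      have h14 : (p : ℝ) ^ ((w : ℝ) / 2 - 1) * (p : ℝ) ^ ((w : ℝ) / 2) = (p : ℝ) ^ (w - 1) := by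
        rw [← Real.rpow_add hp0, ← Real.rpow_natCast]
        congr 1
        rw [Nat.cast_sub (by omega)]
        push_cast
        ring
      have h15 : (p : ℝ) ^ w = (p : ℝ) ^ (w - 1) * p := by
        rw [← pow_succ]
        congr 1
        omega
      rw [h15, ← h14]
      ring
    rw [h13] at h12
    exact lt_irrefl _ h12
  · -- complex roots: `p^(w-1) = |α|² = p^w`
    have h5 : a = α + conj α := (sub_eq_zero.mp h4).symm
    have h6 : (p : ℂ) ^ (w - 1) = (p : ℂ) ^ w := by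
      rw [h5] at h1
      linear_combination h1 + hsq
    have h7 : (p : ℝ) ^ (w - 1) = (p : ℝ) ^ w := by exact_mod_cast h6
    exact absurd h7 (pow_lt_pow_right₀ hp1 (by omega)).ne

section Psi

variable {F : Type} [Field F] [NumberField F]

/-- The absolute value of an unramified Hecke character. -/
theorem norm_psi_sq {D : ℕ} (hD : BKDH.IsFund D) (h4 : 4 < D) (hF : Module.finrank ℚ F = 2)
    {s : F} (hs : s ^ 2 = -(D : F)) {σ : F →+* ℂ} {k : ℕ} {ψ : Ideal (𝓞 F) →*₀ ℂ}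
    (hψ : IsHecke σ k ψ) {b : Ideal (𝓞 F)} (hb : b ≠ ⊥) :
    ‖ψ b‖ ^ 2 = (Ideal.absNorm b : ℝ) ^ k := by
  rcases fund_cases hD h4 with h | h
  · obtain ⟨s', χ, cj, hDat⟩ := MainDAux.exists_dat σ h hF hs
    exact (aPsiD D F _ _ s' σ χ cj k ψ hDat hψ).2.1 b hb
  · obtain ⟨s', χ, cj, hDat⟩ := MainEAux.exists_dat aChiE D ⟨by omega⟩ σ h hF hs
    exact (aPsiE D F _ _ s' σ χ cj k ψ hDat hψ).2.1 b hb

/-- **The Hecke polynomial at a place of degree one does not vanish at `1`.** -/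
theorem hecke_ne {D : ℕ} (hD : BKDH.IsFund D) (h4 : 4 < D) (hF : Module.finrank ℚ F = 2)
    {s : F} (hs : s ^ 2 = -(D : F)) {f : CuspForm 𝒮ℒ (w : ℤ)} (hf : IsEigen f) {σ : F →+* ℂ}
    {k : ℕ} {ψ : Ideal (𝓞 F) →*₀ ℂ} (hψ : IsHecke σ k ψ) (hk : Even k)
    (v : HeightOneSpectrum (𝓞 F)) (hv : (Ideal.absNorm v.asIdeal).Prime) :
    1 - frobTr f ψ k v + frobDt w ψ k v ≠ 0 := by
  obtain ⟨hw, hwe⟩ := aW12 w f hf
  set p := Ideal.absNorm v.asIdeal with hp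
  have hp0 : (0 : ℝ) < p := by exact_mod_cast hv.pos
  have hpc : (p : ℂ) ≠ 0 := by exact_mod_cast hv.ne_zero
  obtain ⟨c, hc⟩ : ∃ c, w + k = 2 * c := by
    obtain ⟨a, ha⟩ := hwe
    obtain ⟨b, hb⟩ := hk
    exact ⟨a + b, by omega⟩
  have hc2 : (w + k) / 2 = c := by omega
  have h1 := norm_psi_sq hD h4 hF hs hψ v.ne_bot
  set x : ℂ := ψ v.asIdeal / (p : ℂ) ^ c with hx
  have hxn : ‖x‖ ^ 2 * (p : ℝ) ^ w = 1 := by
    rw [hx, norm_div, div_pow, h1, norm_pow, Complex.norm_natCast, ← hp, ← pow_mul,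
      div_mul_eq_mul_div, ← pow_add, mul_comm c 2, ← hc, add_comm w k]
    exact div_self (by positivity)
  have h2 := root_ne (by omega) hwe hf hv hxn
  have h3 : frobTr f ψ k v = coef f p * x := by
    unfold frobTr tv
    rw [← hp, if_pos hv, hc2, hx]
    ring
  have h5 : frobDt w ψ k v = (p : ℂ) ^ (w - 1) * x ^ 2 := by
    unfold frobDt
    rw [← hp, hc2, hx, div_pow, ← pow_mul, mul_comm c 2]
    ring
  rw [h3, h5]
  exact h2

end Psi

end Ram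

end RZ

end Pool.Agent.Lib.MP_7c08ba_nt
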