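import Mathlib
import Pool.Agent.Lib.MP_7c08ba_nt.RZ.NRam
import Pool.Agent.Lib.MP_7c08ba_nt.RZ.EFin
import Pool.Agent.Lib.MP_7c08ba_nt.Odd.DRTrans
import Pool.Agent.Lib.MP_7c08ba_nt.RZ.StE
import Pool.Agent.Lib.MP_7c08ba_nt.RZ.StI

set_option autoImplicit false

/-!
Final assembly for `k < w`: the `L`-function vanishes at the centre and the Selmer group has
dimension one.
-/

namespace Pool.Agent.Lib.MP_7c08ba_nt

namespace RZ

open NumberField Matrix IsDedekindDomain BKGen BKGen.Genus BKOdd MP_7c08ba.Crys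
open scoped MatrixGroups nonZeroDivisors

section Cong

variable {F : Type} [Field F] [NumberField F] {w : ℕ} {L : Type} [NormedField L]
  [IsUltrametricDist L]

/-- Trace two and determinant one modulo the maximal ideal. -/
lemma frob_congr_gen {f : CuspForm 𝒮ℒ (w : ℤ)} {ψ : Ideal (𝓞 F) →*₀ ℂ} {k : ℕ} {ι : ℂ →+* L}
    {v : HeightOneSpectrum (𝓞 F)} (hψ : ψ v.asIdeal - 1 ∈ (valRing ι).nonunits)
    (hN : (Ideal.absNorm v.asIdeal : ℂ) - 1 ∈ (valRing ι).nonunits)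
    (htv : tv f v - 2 ∈ (valRing ι).nonunits) :
    ‖ι (frobTr f ψ k v) - 2‖ < 1 ∧ ‖ι (frobDt w ψ k v) - 1‖ < 1 := by
  set A := valRing ι with hA0
  set N := Ideal.absNorm v.asIdeal with hN0
  have hpow : ∀ k : ℕ, (N : ℂ) ^ k - 1 ∈ A.nonunits := RZC.nonunits_pow_sub_one hN
  constructor
  · have h1 : ι (frobTr f ψ k v) - 2 = ι (frobTr f ψ k v - 2) := by
      rw [map_sub, map_ofNat]
    rw [h1, ← mem_nonunits_valRing]
    unfold frobTr
    have h2 : ψ v.asIdeal * ((N : ℂ) ^ ((w + k) / 2))⁻¹ - 1 ∈ A.nonunits :=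
      RZC.mul_sub_one hψ (RZC.inv_sub_one (hpow _))
    have h3 : tv f v ∈ A := by
      have h4 := A.add_mem _ _ (RZC.nonunits_mem htv) (RZC.nat_mem (A := A) 2)
      have h5 : tv f v - 2 + ((2 : ℕ) : ℂ) = tv f v := by
        push_cast
        ring
      rwa [h5] at h4
    have h6 := RZC.nonunits_add (RZC.nonunits_mul_left h3 h2) htv
    convert h6 using 1
    rw [← hN0, div_eq_mul_inv]
    ring
  · have h1 : ι (frobDt w ψ k v) - 1 = ι (frobDt w ψ k v - 1) := by rw [map_sub, map_one]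
    rw [h1, ← mem_nonunits_valRing]
    unfold frobDt
    rw [div_eq_mul_inv]
    exact RZC.mul_sub_one (RZC.mul_sub_one (hpow _) (RZC.nonunits_pow_sub_one hψ 2))
      (RZC.inv_sub_one (hpow _))

end Cong

section CongP

variable {F : Type} [Field F] [NumberField F] {w : ℕ}

/-- `p = 2` -/
theorem frobTr_congr_two {L : Type} [NormedField L] [NormedAlgebra ℚ_[2] L]
    (hO : RZC.StOddZero) (hF : Module.finrank ℚ F = 2) {f : CuspForm 𝒮ℒ (w : ℤ)}
    (hf : IsEigen f) {ψ : Ideal (𝓞 F) →*₀ ℂ} {k : ℕ} {ι : ℂ →+* L} (hι : ResidueOneAt 2 ψ ι)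
    (v : HeightOneSpectrum (𝓞 F)) (hN : Ideal.absNorm v.asIdeal % 2 = 1) :
    ‖ι (frobTr f ψ k v) - 2‖ < 1 ∧ ‖ι (frobDt w ψ k v) - 1‖ < 1 := by
  have hul := ultra L
  have hL2 : ‖(2 : L)‖ < 1 := by rw [norm_two]; norm_num
  set A := valRing ι with hA0
  have hA : RZC.Above2 A := by
    rw [RZC.Above2, mem_nonunits_valRing, map_ofNat]
    exact hL2
  obtain ⟨p, hp, hpv, hcase⟩ := absNorm_cases hF v
  have hp2 : p ≠ 2 := by
    rintro rfl
    rcases hcase with h | h <;> rw [h] at hN <;> norm_num at hN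
  refine frob_congr_gen ?_ ?_ (RZC.nonunits_sub (tv_nonunit hO hf hA v hp hp2 hcase) hA)
  · rw [mem_nonunits_valRing, map_sub, map_one]
    exact hι _ (by omega)
  · have := RZC.odd_sub_one hA (n := (Ideal.absNorm v.asIdeal : ℤ))
      (by exact_mod_cast Nat.odd_iff.mpr hN)
    simpa using this

/-- `p = 3` -/
theorem frobTr_congr_three {L : Type} [NormedField L] [NormedAlgebra ℚ_[3] L]
    (hT : RZC3.StTr3) (hF : Module.finrank ℚ F = 2) {f : CuspForm 𝒮ℒ (w : ℤ)}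
    (hf : IsEigen f) {ψ : Ideal (𝓞 F) →*₀ ℂ} {k : ℕ} {ι : ℂ →+* L} (hι : ResidueOneAt 3 ψ ι)
    (v : HeightOneSpectrum (𝓞 F)) (hN : Ideal.absNorm v.asIdeal % 3 = 1) :
    ‖ι (frobTr f ψ k v) - 2‖ < 1 ∧ ‖ι (frobDt w ψ k v) - 1‖ < 1 := by
  have hul := ultra_p 3 L
  set A := valRing ι with hA0
  have hA : RZC3.Above3 A := above3_valRing ι
  obtain ⟨p, hp, hpv, hcase⟩ := absNorm_cases hF v
  refine frob_congr_gen ?_ ?_ (tv_sub_two hT hf hA v hp hcase hN)
  · rw [mem_nonunits_valRing, map_sub, map_one]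
    exact hι _ (by omega)
  · have := RZC3.three_dvd_nonunits hA (n := (Ideal.absNorm v.asIdeal : ℤ) - 1) (by omega)
    simpa using this

end CongP

section Sel

variable {p : ℕ} [Fact p.Prime] {F : Type} [Field F] [NumberField F] {w : ℕ}

/-- The residue field at a Frobenius element which fixes the roots of unity of order `p`. -/
theorem card_mod_p {ζ : AlgebraicClosure F} (hζ : IsPrimitiveRoot ζ p)
    {P : Ideal (AllInt F)} (hP : P.IsPrime) (hp : (p : AllInt F) ∉ P) {g : AbsGal F}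
    (hg : IsFrobenius P g) (hgζ : g ζ = ζ) : Nat.card (𝓞 F ⧸ P.under (𝓞 F)) % p = 1 := by
  have hpp : p.Prime := Fact.out
  set N := Nat.card (𝓞 F ⧸ P.under (𝓞 F)) with hN
  let z : AllInt F := ⟨ζ, hζ.isIntegral hpp.pos⟩
  have hz : IsPrimitiveRoot z p := by
    refine IsPrimitiveRoot.of_map_of_injective (f := algebraMap (AllInt F) (AlgebraicClosure F))
      ?_ Subtype.val_injective
    exact hζ
  have hgz : g • z = z := Subtype.ext hgζ
  have hfr := hg z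
  rw [hgz, ← hN] at hfr
  by_contra hne
  -- `N ≢ 1`
  obtain ⟨m, hm, hpm⟩ : ∃ m : ℕ, z ^ N = z * z ^ m ∧ 1 ≤ m ∧ m < p := by
    have h1 : z ^ N = z ^ (N % p) := by
      conv_lhs => rw [← Nat.div_add_mod N p, pow_add, pow_mul, hz.pow_eq_one, one_pow, one_mul]
    rcases Nat.eq_zero_or_pos (N % p) with h | h
    · refine ⟨p - 1, ?_, ?_, ?_⟩
      · rw [h1, h, pow_zero, ← pow_succ', Nat.sub_add_cancel hpp.one_le, hz.pow_eq_one]
      · have := hpp.two_le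
        omega
      · have := hpp.two_le
        omega
    · refine ⟨N % p - 1, ?_, ?_, ?_⟩
      · rw [h1, ← pow_succ', Nat.sub_add_cancel h]
      · omega
      · have := Nat.mod_lt N hpp.pos
        omega
  rw [hm] at hfr
  have h2 : z - z * z ^ m = z * (1 - z ^ m) := by ring
  rw [h2] at hfr
  have hzu : z ∉ P := by
    intro h
    apply hP.ne_top
    rw [Ideal.eq_top_iff_one, ← hz.pow_eq_one]
    exact P.pow_mem_of_mem h p hpp.pos
  have h3 := (hP.mem_or_mem hfr).resolve_left hzu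
  apply hp
  obtain ⟨n, rfl⟩ : ∃ n, p = n + 1 := ⟨p - 1, by have := hpp.pos; omega⟩
  have h4 := IsPrimitiveRoot.prod_one_sub_pow_eq_order hz
  have h5 : ((n + 1 : ℕ) : AllInt F) = ∏ k ∈ Finset.range n, (1 - z ^ (k + 1)) := by
    rw [h4]
    push_cast
    ring
  rw [h5]
  have h6 : m - 1 ∈ Finset.range n := Finset.mem_range.mpr (by omega)
  rw [← Finset.mul_prod_erase _ _ h6, Nat.sub_add_cancel hpm.1]
  exact P.mul_mem_right _ h3

/-- A place above `p`. -/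
theorem exists_embN (p : ℕ) [Fact p.Prime] (F : Type) [Field F] [NumberField F] :
    Nonempty (AlgebraicClosure F →+* PadicAlgCl p) := by
  have : Algebra.IsAlgebraic ℚ (AlgebraicClosure F) := Algebra.IsAlgebraic.trans ℚ F _
  exact ⟨(IsAlgClosed.lift (R := ℚ) (S := AlgebraicClosure F) (M := PadicAlgCl p)).toRingHom⟩

omit [NumberField F] in
theorem kz_normal {ζ : AlgebraicClosure F} (hζ : IsPrimitiveRoot ζ p) :
    (Kz ζ).fixingSubgroup.Normal := by
  constructor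
  intro h hh g
  rw [IntermediateField.mem_fixingSubgroup_iff] at hh
  have h0 : h ζ = ζ := hh ζ (IntermediateField.mem_adjoin_simple_self F ζ)
  have key : (g * h * g⁻¹) ζ = ζ := by
    have hp : 0 < p := (Fact.out : p.Prime).pos
    have : NeZero p := ⟨hp.ne'⟩
    have h1 : (g⁻¹ ζ) ^ p = 1 := by rw [← map_pow, hζ.pow_eq_one, map_one]
    obtain ⟨i, -, hi⟩ := hζ.eq_pow_of_pow_eq_one h1
    have h2 : h (g⁻¹ ζ) = g⁻¹ ζ := by rw [← hi, map_pow, h0]
    change g (h (g⁻¹ ζ)) = ζ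
    rw [h2, ← AlgEquiv.mul_apply, mul_inv_cancel, AlgEquiv.one_apply]
  have h3 : Kz ζ ≤ IntermediateField.fixedField (Subgroup.zpowers (g * h * g⁻¹)) := by
    rw [Kz, IntermediateField.adjoin_simple_le_iff, IntermediateField.mem_fixedField_iff]
    intro y hy
    obtain ⟨n, rfl⟩ := Subgroup.mem_zpowers_iff.mp hy
    have h4 : (g * h * g⁻¹) ∈ MulAction.stabilizer (AbsGal F) ζ := key
    exact Subgroup.zpow_mem _ h4 n
  rw [IntermediateField.mem_fixingSubgroup_iff]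
  intro x hx
  have h4 := h3 hx
  rw [IntermediateField.mem_fixedField_iff] at h4
  exact h4 _ (Subgroup.mem_zpowers _)

variable {L E : Type} [NormedField L] [NormedAlgebra ℚ_[p] L] [NormedField E]
  [NormedAlgebra L E]

omit [NumberField F] in
/-- A quadratic relation for Frobenius for which `1` is not a root. -/
theorem frobAt_of_quadratic {n : ℕ} (H : Subgroup (GF F)) (j : AlgebraicClosure F →+* PadicAlgCl p)
    (ρ : GF F →* GL (Fin n) L) {t d : L} (h1 : 1 - t + d ≠ 0)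
    (h : ∀ b ∈ DBat galBa H j ρ, frobV p L (Fin n → L) (frobV p L (Fin n → L) b) -
      t • frobV p L (Fin n → L) b + d • b = 0) : FrobAt H j ρ := by
  rw [frobAt_iff]
  have hD : DBat galBa H j ρ = DCris ((toQ j).comp (H.comap (toF j)).subtype)
      ((lin (ρ.comp (toF j))).comp (H.comap (toF j)).subtype) := DBat_eq_sub galBa H j ρ
  rw [hD] at h
  refine ⟨?_, LinearMap.range_eq_top.mp (phSub_range _ _ h1 h)⟩
  rintro ⟨a, ha⟩ ⟨b, hb⟩ hab
  have h3 : frobV p L (Fin n → L) a - a = frobV p L (Fin n → L) b - b :=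
    congrArg Subtype.val hab
  have h2 : frobV p L (Fin n → L) (a - b) = a - b := by
    rw [map_sub]
    exact sub_eq_sub_iff_sub_eq_sub.mp h3
  have h4 := h (a - b) (Submodule.sub_mem _ ha hb)
  rw [h2, h2] at h4
  have h5 : (1 - t + d) • (a - b) = 0 := by
    rw [add_smul, sub_smul, one_smul]
    exact h4
  exact Subtype.ext (sub_eq_zero.mp ((smul_eq_zero.mp h5).resolve_left h1))

/-- The Frobenius of `D_cris` does not have the eigenvalue `1`. -/
theorem IsReal.frobAt {D : ℕ} (hD : BKDH.IsFund D) (h4 : 4 < D)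
    (hu : ∃ u : ℚ_[p], u ^ 2 = -(D : ℚ_[p])) (hF : Module.finrank ℚ F = 2) {s : F}
    (hs : s ^ 2 = -(D : F)) {f : CuspForm 𝒮ℒ (w : ℤ)} (hf : IsEigen f) {σ : F →+* ℂ} {k : ℕ}
    {ψ : Ideal (𝓞 F) →*₀ ℂ} (hψ : IsHecke σ k ψ) (hk : Even k) {ι : ℂ →+* E}
    {ρ : AbsGal F →* GL (Fin 2) L} (hρ : IsReal p σ f ψ k ι ρ) (ζ : AlgebraicClosure F)
    (hζ : IsPrimitiveRoot ζ p) (j : AlgebraicClosure F →+* PadicAlgCl p) :
    FrobAt (Kz ζ).fixingSubgroup j ρ := by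
  obtain ⟨j', hj'⟩ := exists_padic_p (by omega) hu hF hs
    (j.comp (algebraMap F (AlgebraicClosure F)))
  obtain ⟨v, hv⟩ := exists_place_p j'
  have hv' : ∀ x : 𝓞 F, x ∈ v.asIdeal ↔ ‖j (algebraMap F (AlgebraicClosure F) x)‖ < 1 := by
    intro x
    rw [hv]
    have h1 : j (algebraMap F (AlgebraicClosure F) x) =
        algebraMap ℚ_[p] (PadicAlgCl p) (j' x) := (hj' x).symm
    rw [h1, norm_algebraMap']
  obtain ⟨t, d, ht, hd, h⟩ := hρ.crystalline ζ hζ j v hv'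
  refine frobAt_of_quadratic _ j ρ (t := t) (d := d) ?_ h
  have hN : (Ideal.absNorm v.asIdeal).Prime := by
    rw [absNorm_eq_p hF hv]
    exact Fact.out
  have h1 := Ram.hecke_ne hD h4 hF hs hf hψ hk v hN
  intro h0
  apply h1
  apply ι.injective
  rw [map_zero, map_add, map_sub, map_one, ← ht, ← hd, ← map_one (algebraMap L E), ← map_sub,
    ← map_add, h0, map_zero]

/-- The Selmer group is finite dimensional, and its dimension is at most the dimension of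
`D_dR / Fil⁰`, with the same parity. -/
theorem h1f_of_parity (hP : BKF.Parity p F) [FiniteDimensional ℚ_[p] L] {σ : F →+* ℂ}
    {f : CuspForm 𝒮ℒ (w : ℤ)} {ψ : Ideal (𝓞 F) →*₀ ℂ} {k : ℕ} {ι : ℂ →+* E}
    (hcong : ∀ v : HeightOneSpectrum (𝓞 F), Ideal.absNorm v.asIdeal % p = 1 →
      ‖ι (frobTr f ψ k v) - 2‖ < 1 ∧ ‖ι (frobDt w ψ k v) - 1‖ < 1)
    {ρ : AbsGal F →* GL (Fin 2) L} (hρ : IsReal p σ f ψ k ι ρ)
    (hfr : ∀ (ζ : AlgebraicClosure F), IsPrimitiveRoot ζ p →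
      ∀ j : AlgebraicClosure F →+* PadicAlgCl p, FrobAt (Kz ζ).fixingSubgroup j ρ) :
    FiniteDimensional L (H1f p ρ) ∧ ∀ j : AlgebraicClosure F →+* PadicAlgCl p,
      Module.finrank L (H1f p ρ) % 2 = tdim j ρ % 2 ∧ Module.finrank L (H1f p ρ) ≤ tdim j ρ := by
  have hul := ultra_p p L
  have hp : p.Prime := Fact.out
  have hp0 : NeZero ((p : ℕ) : AlgebraicClosure F) := ⟨by exact_mod_cast hp.ne_zero⟩
  obtain ⟨ζ, hζ⟩ := HasEnoughRootsOfUnity.exists_primitiveRoot (AlgebraicClosure F) p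
  have hfd : FiniteDimensional F (Kz ζ) :=
    IntermediateField.adjoin.finiteDimensional (hζ.isIntegral hp.pos).tower_top
  have hnorm := kz_normal hζ
  have hopen : IsOpen ((Kz ζ).fixingSubgroup : Set (AbsGal F)) :=
    IntermediateField.fixingSubgroup_isOpen (Kz ζ)
  have hres := resUnipotent_on (p := p) (norm_p_lt p L) hρ.continuous (N₀ := p) hp.ne_zero
    (Kz ζ).fixingSubgroup hopen (by
      intro P hP h3P g hgK hg i
      have hgζ : g ζ = ζ := by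
        rw [IntermediateField.mem_fixingSubgroup_iff] at hgK
        exact hgK ζ (IntermediateField.mem_adjoin_simple_self F ζ)
      have hcard := card_mod_p hζ hP h3P hg hgζ
      have hne := ne_bot_of_isFrobenius hg
      let v' : HeightOneSpectrum (𝓞 F) := ⟨P.under (𝓞 F), Ideal.IsPrime.under (𝓞 F) P, hne⟩
      obtain ⟨ht, hd⟩ := hρ.frobenius v' P hP h3P rfl g hg
      obtain ⟨h1, h2⟩ := hcong v' hcard
      have h1' : ‖(ρ g⁻¹ : Matrix (Fin 2) (Fin 2) L).trace - 2‖ < 1 := by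
        rw [← norm_algebraMap' E, map_sub, map_ofNat, ht]
        exact h1
      have h2' : ‖(ρ g⁻¹ : Matrix (Fin 2) (Fin 2) L).det - 1‖ < 1 := by
        rw [← norm_algebraMap' E, map_sub, map_one, hd]
        exact h2
      have hg' : ρ g = (ρ g⁻¹)⁻¹ := by rw [map_inv, inv_inv]
      obtain ⟨h3, h4⟩ := trace_det_inv hg' h1' h2'
      exact coeff_lt_of_trace_det h3 h4 i)
  obtain ⟨c, τ, hc, B, hB, hpol⟩ := hρ.dual
  exact hP ζ hζ c τ hc L 2 ρ ⟨hρ.continuous, hρ.unramified, hres, ⟨B, hB, hpol⟩,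
    hρ.deRham, hfr ζ hζ⟩

/-- **The Selmer group has dimension one**, `k < w`. -/
theorem finrank_h1f_lt (hP : BKF.Parity p F) [FiniteDimensional ℚ_[p] L] {σ : F →+* ℂ}
    {f : CuspForm 𝒮ℒ (w : ℤ)} {ψ : Ideal (𝓞 F) →*₀ ℂ} {k : ℕ} {ι : ℂ →+* E} (hk : k < w)
    (hcong : ∀ v : HeightOneSpectrum (𝓞 F), Ideal.absNorm v.asIdeal % p = 1 →
      ‖ι (frobTr f ψ k v) - 2‖ < 1 ∧ ‖ι (frobDt w ψ k v) - 1‖ < 1)
    {ρ : AbsGal F →* GL (Fin 2) L} (hρ : IsReal p σ f ψ k ι ρ)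
    (hfr : ∀ (ζ : AlgebraicClosure F), IsPrimitiveRoot ζ p →
      ∀ j : AlgebraicClosure F →+* PadicAlgCl p, FrobAt (Kz ζ).fixingSubgroup j ρ) :
    Module.finrank L (H1f p ρ) = 1 := by
  obtain ⟨-, h2⟩ := h1f_of_parity hP hcong hρ hfr
  obtain ⟨j⟩ := exists_embN p F
  obtain ⟨h3, h4⟩ := h2 j
  rw [hρ.weights_lt hk j] at h3 h4
  omega

/-- **The Selmer group is zero**, `w ≤ k`. -/
theorem h1f_ge [NormedAlgebra ℚ_[p] E] (hP : BKF.Parity p F) [FiniteDimensional ℚ_[p] L]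
    {D : ℕ} (hD : 0 < D) (hu : ∃ u : ℚ_[p], u ^ 2 = -(D : ℚ_[p])) (hF : Module.finrank ℚ F = 2)
    {s : F} (hs : s ^ 2 = -(D : F)) {σ : F →+* ℂ}
    {f : CuspForm 𝒮ℒ (w : ℤ)} {ψ : Ideal (𝓞 F) →*₀ ℂ} {k : ℕ} {ι : ℂ →+* E} (hk : w ≤ k)
    (hcong : ∀ v : HeightOneSpectrum (𝓞 F), Ideal.absNorm v.asIdeal % p = 1 →
      ‖ι (frobTr f ψ k v) - 2‖ < 1 ∧ ‖ι (frobDt w ψ k v) - 1‖ < 1)
    {ρ : AbsGal F →* GL (Fin 2) L} (hρ : IsReal p σ f ψ k ι ρ)
    (hfr : ∀ (ζ : AlgebraicClosure F), IsPrimitiveRoot ζ p →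
      ∀ j : AlgebraicClosure F →+* PadicAlgCl p, FrobAt (Kz ζ).fixingSubgroup j ρ) : H1f p ρ = ⊥ := by
  obtain ⟨h1, h2⟩ := h1f_of_parity hP hcong hρ hfr
  obtain ⟨j, hj⟩ := exists_padic_p hD hu hF hs (ι.comp σ)
  obtain ⟨j₀, hj₀⟩ := exists_ext_p j
  have h3 : ∀ x : F, ‖j₀ (algebraMap F (AlgebraicClosure F) x)‖ = ‖ι (σ x)‖ := fun x => by
    rw [hj₀, ← norm_algebraMap' E (j x), hj]
    rfl
  obtain ⟨-, h4⟩ := h2 j₀
  rw [hρ.weights_ge hk j₀ h3] at h4
  exact Submodule.finrank_eq_zero.mp (Nat.le_zero.mp h4)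

end Sel

end RZ

end Pool.Agent.Lib.MP_7c08ba_nt
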