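import Mathlib
import Pool.Agent.Lib.MP_7c08ba_nt.RZ.NFin
import Pool.Agent.Lib.MP_7c08ba_nt.RZ.LHalf
import Pool.Agent.Lib.MP_7c08ba_nt.BK.Dens

set_option autoImplicit false

/-!
Final assembly of both halves: the order of vanishing of the `L`-function and the dimension of the
Selmer group.
-/

namespace Pool.Agent.Lib.MP_7c08ba_nt

namespace RZ

open NumberField Matrix IsDedekindDomain BKGen BKGen.Genus BKOdd MP_7c08ba.Crys
open scoped MatrixGroups nonZeroDivisors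

/-- The analytic part for `k < w`, for every fundamental discriminant `-D < -4`. -/
def StMainNA : Prop :=
  ∀ (D : ℕ) (F : Type) (_ : Field F) (_ : NumberField F) (s : F)
    (σ : F →+* ℂ) (w k r : ℕ) (f : CuspForm 𝒮ℒ (w : ℤ)) (ψ : Ideal (𝓞 F) →*₀ ℂ),
    BKDH.IsFund D → 4 < D → Module.finrank ℚ F = 2 → s ^ 2 = -(D : F) → IsEigen f →
    w = k + 2 * r + 2 → IsHecke σ k ψ →
    ∃ Λ : ℂ → ℂ, DifferentiableOn ℂ Λ {z | -1 / 2 < z.re} ∧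
      (∀ z : ℂ, 1 < z.re → HasProd (fun v : HeightOneSpectrum (𝓞 F) =>
        (eulF f ψ (((w : ℂ) + k) / 2 + z) v)⁻¹) (Λ z)) ∧ Λ 0 = 0

theorem stMainNA (h1 : StMainN) (h2 : StMainNE) : StMainNA := by
  intro D F i1 i2 s σ w k r f ψ hD h4 hF hs hf hw hψ
  rcases fund_cases hD h4 with h | h
  · exact h1 D F i1 i2 s σ w k r f ψ h hF hs hf hw hψ
  · exact h2 D F i1 i2 s σ w k r f ψ h hF hs hf hw hψ

section

variable {F : Type} [Field F] [NumberField F] {w : ℕ}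

/-- The type of an unramified character is even. -/
theorem IsHecke.even {σ : F →+* ℂ} {k : ℕ} {ψ : Ideal (𝓞 F) →*₀ ℂ} (h : IsHecke σ k ψ) :
    Even k := by
  have h1 := h (-1) (neg_ne_zero.mpr one_ne_zero)
  have h2 : Ideal.span {(-1 : 𝓞 F)} = 1 := by
    rw [Ideal.one_eq_top, Ideal.span_singleton_eq_top]
    exact isUnit_one.neg
  rw [h2, map_one] at h1
  have h3 : σ ((-1 : 𝓞 F) : F) = -1 := by
    have h4 : ((-1 : 𝓞 F) : F) = -1 := by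
      change algebraMap (𝓞 F) F (-1) = -1
      rw [map_neg, map_one]
    rw [h4, map_neg, map_one]
  rw [h3] at h1
  by_contra hk
  rw [Nat.not_even_iff_odd] at hk
  rw [hk.neg_one_pow] at h1
  norm_num at h1

/-- The Euler factors, for every type. -/
lemma eulF_eq_tr (f : CuspForm 𝒮ℒ (w : ℤ)) (ψ : Ideal (𝓞 F) →*₀ ℂ) (k : ℕ) (hk : Even (w + k))
    (z : ℂ) (v : HeightOneSpectrum (𝓞 F)) : eulF f ψ (((w : ℂ) + k) / 2 + z) v =
      1 - frobTr f ψ k v * (Ideal.absNorm v.asIdeal : ℂ) ^ (-z) +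
        frobDt w ψ k v * ((Ideal.absNorm v.asIdeal : ℂ) ^ (-z)) ^ 2 := by
  have hN : (Ideal.absNorm v.asIdeal : ℂ) ≠ 0 := by
    have h : Ideal.absNorm v.asIdeal ≠ 0 := by
      rw [Ne, Ideal.absNorm_eq_zero_iff]
      exact v.ne_bot
    exact_mod_cast h
  obtain ⟨c, hc⟩ := hk
  have hc2 : (w + k) / 2 = c := by omega
  have hc3 : ((w : ℂ) + k) / 2 = (c : ℂ) := by
    have h : ((w + k : ℕ) : ℂ) = ((c + c : ℕ) : ℂ) := by rw [hc]
    push_cast at h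
    rw [h]
    ring
  have h1 : (Ideal.absNorm v.asIdeal : ℂ) ^ (-((c : ℂ) + z)) =
      (Ideal.absNorm v.asIdeal : ℂ) ^ (-z) / (Ideal.absNorm v.asIdeal : ℂ) ^ c := by
    have h2 : -((c : ℂ) + z) = -z - ((c : ℕ) : ℂ) := by ring
    rw [h2, Complex.cpow_sub _ _ hN, Complex.cpow_natCast]
  unfold eulF frobTr frobDt
  rw [hc2, hc3, h1, mul_comm 2 c, pow_mul]
  ring

/-- Uniqueness of the `L`-function. -/
theorem IsLFun.unique {f : CuspForm 𝒮ℒ (w : ℤ)} {ψ : Ideal (𝓞 F) →*₀ ℂ} {k : ℕ}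
    {Λ Λ' : ℂ → ℂ} (h : IsLFun f ψ k Λ) (h' : IsLFun f ψ k Λ') {z : ℂ}
    (hz : -1 / 2 < z.re) : Λ z = Λ' z := by
  have hopen : IsOpen {z : ℂ | -1 / 2 < z.re} := isOpen_lt continuous_const Complex.continuous_re
  have hconv : Convex ℝ {z : ℂ | -1 / 2 < z.re} := convex_halfSpace_re_gt _
  have h1 : AnalyticOnNhd ℂ Λ {z | -1 / 2 < z.re} := h.differentiable.analyticOnNhd hopen
  have h2 : AnalyticOnNhd ℂ Λ' {z | -1 / 2 < z.re} := h'.differentiable.analyticOnNhd hopen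
  refine h1.eqOn_of_preconnected_of_eventuallyEq h2 hconv.isPreconnected (z₀ := 2) ?_ ?_ hz
  · change (-1 / 2 : ℝ) < (2 : ℂ).re
    norm_num
  · have h3 : {z : ℂ | 1 < z.re} ∈ nhds (2 : ℂ) :=
      (isOpen_lt continuous_const Complex.continuous_re).mem_nhds (by
        change (1 : ℝ) < (2 : ℂ).re
        norm_num)
    filter_upwards [h3] with z hz
    exact (h.euler z hz).unique (h'.euler z hz)

/-- **The sign `-1`**: for `k < w` the `L`-function exists and vanishes at the centre. -/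
theorem lfun_lt (hM : StMainNA) {D : ℕ} (hD : BKDH.IsFund D) (h4 : 4 < D)
    (hF : Module.finrank ℚ F = 2) {s : F} (hs : s ^ 2 = -(D : F)) {f : CuspForm 𝒮ℒ (w : ℤ)}
    (hf : IsEigen f) {σ : F →+* ℂ} {k : ℕ} (hk : k < w) {ψ : Ideal (𝓞 F) →*₀ ℂ}
    (hψ : IsHecke σ k ψ) : ∃ Λ : ℂ → ℂ, IsLFun f ψ k Λ ∧ Λ 0 = 0 := by
  have hke := hψ.even
  have hwe := (RZC.weight_ge hf.one).2
  obtain ⟨r, hr⟩ : ∃ r, w = k + 2 * r + 2 := by
    obtain ⟨a, ha⟩ := hke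
    obtain ⟨b, hb⟩ := hwe
    exact ⟨b - a - 1, by omega⟩
  obtain ⟨Λ, h1, h2, h3⟩ := hM D F inferInstance inferInstance s σ w k r f ψ hD h4 hF
    hs hf hr hψ
  refine ⟨Λ, ⟨h1, fun z hz => ?_⟩, h3⟩
  have h5 := h2 z hz
  simp only [eulF_eq_tr f ψ k (hwe.add hke)] at h5
  exact h5

/-- **The sign `+1`**: for `w ≤ k` the type is `w + 2 r`. -/
theorem exists_r {f : CuspForm 𝒮ℒ (w : ℤ)} (hf : IsEigen f) {σ : F →+* ℂ} {k : ℕ} (hk : w ≤ k)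
    {ψ : Ideal (𝓞 F) →*₀ ℂ} (hψ : IsHecke σ k ψ) : ∃ r, k = w + 2 * r := by
  obtain ⟨a, ha⟩ := hψ.even
  obtain ⟨b, hb⟩ := (RZC.weight_ge hf.one).2
  exact ⟨a - b, by omega⟩

end

/-- The central value and the Selmer group at `p` over `F = ℚ(√-D)`, for the base changes of all
normalised eigenforms of level one and weight `w`, twisted by unramified Hecke characters of type
`(k, 0)` which are trivial modulo `p`: the `L`-function vanishes at the centre if and only if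
`k < w`, and `H¹_f` has dimension one if `k < w` and zero if `w ≤ k`. -/
def Central (p : ℕ) [Fact p.Prime] (D : ℕ) : Prop :=
  ∀ (F : Type) [Field F] [NumberField F] (s : F), Module.finrank ℚ F = 2 → s ^ 2 = -(D : F) →
  ∀ (w k : ℕ) (f : CuspForm 𝒮ℒ (w : ℤ)) (σ : F →+* ℂ) (ψ : Ideal (𝓞 F) →*₀ ℂ),
    IsEigen f → IsHecke σ k ψ →
  ∀ (E : Type) [NormedField E] [NormedAlgebra ℚ_[p] E] (ι : ℂ →+* E), ResidueOneAt p ψ ι →
    (∃ Λ : ℂ → ℂ, IsLFun f ψ k Λ) ∧ (∀ Λ : ℂ → ℂ, IsLFun f ψ k Λ → (Λ 0 = 0 ↔ k < w)) ∧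
    ∀ (L : Type) [NormedField L] [NormedAlgebra ℚ_[p] L] [FiniteDimensional ℚ_[p] L]
      [NormedAlgebra L E] (ρ : AbsGal F →* GL (Fin 2) L), IsReal p σ f ψ k ι ρ →
      FiniteDimensional L (H1f p ρ) ∧ Module.finrank L (H1f p ρ) = if k < w then 1 else 0

/-- The half `k < w` of `Central`. -/
def CentralLt (p : ℕ) [Fact p.Prime] (D : ℕ) : Prop :=
  ∀ (F : Type) [Field F] [NumberField F] (s : F), Module.finrank ℚ F = 2 → s ^ 2 = -(D : F) →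
  ∀ (w k : ℕ) (f : CuspForm 𝒮ℒ (w : ℤ)) (σ : F →+* ℂ) (ψ : Ideal (𝓞 F) →*₀ ℂ),
    IsEigen f → IsHecke σ k ψ → k < w →
  ∀ (E : Type) [NormedField E] [NormedAlgebra ℚ_[p] E] (ι : ℂ →+* E), ResidueOneAt p ψ ι →
    (∃ Λ : ℂ → ℂ, IsLFun f ψ k Λ) ∧ (∀ Λ : ℂ → ℂ, IsLFun f ψ k Λ → Λ 0 = 0) ∧
    ∀ (L : Type) [NormedField L] [NormedAlgebra ℚ_[p] L] [FiniteDimensional ℚ_[p] L]
      [NormedAlgebra L E] (ρ : AbsGal F →* GL (Fin 2) L), IsReal p σ f ψ k ι ρ →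
      FiniteDimensional L (H1f p ρ) ∧ Module.finrank L (H1f p ρ) = 1

section Gen

variable {p : ℕ} [Fact p.Prime] {D : ℕ}

/-- From the parts. -/
theorem centralLt_of (hM : StMainNA) (hD : BKDH.IsFund D) (h4 : 4 < D)
    (hu : ∀ (F : Type) [Field F] [NumberField F] (s : F), Module.finrank ℚ F = 2 →
      s ^ 2 = -(D : F) → ∃ u : ℚ_[p], u ^ 2 = -(D : ℚ_[p]))
    (hP : ∀ (F : Type) [Field F] [NumberField F] (s : F), Module.finrank ℚ F = 2 →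
      s ^ 2 = -(D : F) → BKF.Parity p F)
    (hcong : ∀ (F : Type) [Field F] [NumberField F] (s : F), Module.finrank ℚ F = 2 →
      s ^ 2 = -(D : F) → ∀ (w k : ℕ) (f : CuspForm 𝒮ℒ (w : ℤ)) (ψ : Ideal (𝓞 F) →*₀ ℂ),
      IsEigen f → ∀ (E : Type) [NormedField E] [NormedAlgebra ℚ_[p] E] (ι : ℂ →+* E),
      ResidueOneAt p ψ ι →
      ∀ v : HeightOneSpectrum (𝓞 F), Ideal.absNorm v.asIdeal % p = 1 →
      ‖ι (frobTr f ψ k v) - 2‖ < 1 ∧ ‖ι (frobDt w ψ k v) - 1‖ < 1) : CentralLt p D := by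
  intro F _ _ s hF hs w k f σ ψ hf hψ hk E _ _ ι hι
  obtain ⟨Λ, h1, h2⟩ := lfun_lt hM hD h4 hF hs hf hk hψ
  refine ⟨⟨Λ, h1⟩, fun Λ' h1' => ?_, fun L _ _ _ _ ρ hρ => ?_⟩
  · rw [h1'.unique h1 (by norm_num), h2]
  · have hc := hcong F s hF hs w k f ψ hf E ι hι
    have hfr := hρ.frobAt hD h4 (hu F s hF hs) hF hs hf hψ hψ.even
    exact ⟨(h1f_of_parity (hP F s hF hs) hc hρ hfr).1,
      finrank_h1f_lt (hP F s hF hs) hk hc hρ hfr⟩

/-- From the parts. -/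
theorem central_of (hM : StMainNA) (hD : BKDH.IsFund D) (h4 : 4 < D)
    (hu : ∀ (F : Type) [Field F] [NumberField F] (s : F), Module.finrank ℚ F = 2 →
      s ^ 2 = -(D : F) → ∃ u : ℚ_[p], u ^ 2 = -(D : ℚ_[p]))
    (hP : ∀ (F : Type) [Field F] [NumberField F] (s : F), Module.finrank ℚ F = 2 →
      s ^ 2 = -(D : F) → BKF.Parity p F)
    (hcong : ∀ (F : Type) [Field F] [NumberField F] (s : F), Module.finrank ℚ F = 2 →
      s ^ 2 = -(D : F) → ∀ (w k : ℕ) (f : CuspForm 𝒮ℒ (w : ℤ)) (ψ : Ideal (𝓞 F) →*₀ ℂ),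
      IsEigen f → ∀ (E : Type) [NormedField E] [NormedAlgebra ℚ_[p] E] (ι : ℂ →+* E),
      ResidueOneAt p ψ ι →
      ∀ v : HeightOneSpectrum (𝓞 F), Ideal.absNorm v.asIdeal % p = 1 →
      ‖ι (frobTr f ψ k v) - 2‖ < 1 ∧ ‖ι (frobDt w ψ k v) - 1‖ < 1)
    (hL : ∀ (F : Type) [Field F] [NumberField F] (s : F), Module.finrank ℚ F = 2 →
      s ^ 2 = -(D : F) → ∀ (w r : ℕ) (f : CuspForm 𝒮ℒ (w : ℤ)) (σ : F →+* ℂ)
      (ψ : Ideal (𝓞 F) →*₀ ℂ), IsEigen f → IsHecke σ (w + 2 * r) ψ →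
      ∀ (E : Type) [NormedField E] [NormedAlgebra ℚ_[p] E] (ι : ℂ →+* E), ResidueOneAt p ψ ι →
      ∃ Λ : ℂ → ℂ, IsLFunction f ψ r Λ ∧ Λ 0 ≠ 0) : Central p D := by
  intro F _ _ s hF hs w k f σ ψ hf hψ E _ _ ι hι
  rcases lt_or_ge k w with hk | hk
  · obtain ⟨h1, h2, h3⟩ := centralLt_of hM hD h4 hu hP hcong F s hF hs w k f σ ψ hf hψ hk
      E ι hι
    refine ⟨h1, fun Λ hΛ => ⟨fun _ => hk, fun _ => h2 Λ hΛ⟩, fun L _ _ _ _ ρ hρ => ?_⟩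
    rw [if_pos hk]
    exact h3 L ρ hρ
  · obtain ⟨r, hr⟩ := exists_r hf hk hψ
    have hψ' := hψ
    rw [hr] at hψ'
    obtain ⟨Λ, h1, h2⟩ := hL F s hF hs w r f σ ψ hf hψ' E ι hι
    rw [← isLFun_iff, ← hr] at h1
    refine ⟨⟨Λ, h1⟩, fun Λ' h1' => ?_, fun L _ _ _ _ ρ hρ => ?_⟩
    · rw [h1'.unique h1 (by norm_num)]
      exact ⟨fun h => absurd h h2, fun h => absurd h (not_lt.mpr hk)⟩
    · have hc := hcong F s hF hs w k f ψ hf E ι hι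
      have hfr := hρ.frobAt hD h4 (hu F s hF hs) hF hs hf hψ hψ.even
      have h3 := h1f_ge (hP F s hF hs) (by omega) (hu F s hF hs) hF hs hk hc hρ hfr
      rw [if_neg (not_lt.mpr hk)]
      refine ⟨(h1f_of_parity (hP F s hF hs) hc hρ hfr).1, ?_⟩
      rw [h3]
      exact finrank_bot L _

end Gen

end RZ

end Pool.Agent.Lib.MP_7c08ba_nt
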