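import Mathlib
import Pool.Agent.Lib.MP_7c08ba_nt.RZ.NMain
import Pool.Agent.Lib.MP_7c08ba_nt.RZ.C3.RigO

set_option autoImplicit false

/-!
Final assembly of both halves for `p = 2` and `p = 3`.
-/

namespace Pool.Agent.Lib.MP_7c08ba_nt

namespace RZ

open NumberField Matrix IsDedekindDomain BKGen BKGen.Genus BKOdd MP_7c08ba.Crys
open scoped MatrixGroups nonZeroDivisors

/-- Squarefree numbers which are `3` modulo `4`. -/
lemma isFund_of_squarefree {D : ℕ} (h : Squarefree D) (h3 : D % 4 = 3) : BKDH.IsFund D := by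
  refine ⟨Or.inl (by omega), fun p hp _ hd => ?_⟩
  rw [pow_two] at hd
  exact hp.one_lt.ne' (Nat.isUnit_iff.mp (h p hd))

lemma exists_sqrt_seven {D : ℕ} (h8 : D % 8 = 7) : ∃ u : ℚ_[2], u ^ 2 = -(D : ℚ_[2]) := by
  obtain ⟨k, hk⟩ : ∃ k : ℕ, D + 1 = 8 * k := ⟨(D + 1) / 8, by omega⟩
  obtain ⟨z, hz⟩ := isSquare_one_add_eight (-(k : ℤ_[2]))
  refine ⟨(z : ℚ_[2]), ?_⟩
  have h1 : ((1 + 8 * (-(k : ℤ_[2])) : ℤ_[2]) : ℚ_[2]) = ((z * z : ℤ_[2]) : ℚ_[2]) := by rw [hz]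
  have h8' : ((8 : ℤ_[2]) : ℚ_[2]) = 8 := rfl
  push_cast at h1
  rw [h8'] at h1
  have h2 : (D : ℚ_[2]) + 1 = 8 * k := by exact_mod_cast hk
  linear_combination -h1 + h2

/-- **`p = 2`**: the primes `q` congruent to `7` modulo `16`. -/
theorem central_two (hM : StMainNA) {q : ℕ} (hq : q.Prime) (h16 : q % 16 = 7) : Central 2 q := by
  refine central_of hM (isFund_of_squarefree hq.prime.squarefree (by omega)) (by omega)
    (fun F _ _ s hF hs => exists_sqrt h16)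
    (fun F _ _ s hF hs => BKF.parity_two (Or.inl ⟨hq, h16⟩) hF hs)
    (fun F _ _ s hF hs w k f ψ hf E _ _ ι hι v hv =>
      frobTr_congr_two RZC.pOddZero hF hf hι v hv)
    (fun F _ _ s hF hs w r f σ ψ hf hψ E _ _ ι hι => lhalf_two hq h16 hF hs hf hψ hι)

/-- **`p = 2`, `k < w`**: also the products of two primes `3` and `5` modulo `8`. -/
theorem centralLt_two (hM : StMainNA) {D : ℕ} (hD : (D.Prime ∧ D % 16 = 7) ∨
    ∃ q r : ℕ, q.Prime ∧ r.Prime ∧ q % 8 = 3 ∧ r % 8 = 5 ∧ D = q * r) : CentralLt 2 D := by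
  have hD' : Squarefree D ∧ D % 8 = 7 := by
    rcases hD with ⟨hp, h16⟩ | ⟨q, r, hq, hr, h3, h5, rfl⟩
    · exact ⟨hp.prime.squarefree, by omega⟩
    · have hne : q ≠ r := by rintro rfl; omega
      refine ⟨?_, by rw [Nat.mul_mod, h3, h5]⟩
      rw [Nat.squarefree_mul ((Nat.coprime_primes hq hr).2 hne)]
      exact ⟨hq.prime.squarefree, hr.prime.squarefree⟩
  exact centralLt_of hM (isFund_of_squarefree hD'.1 (by omega)) (by omega)
    (fun F _ _ s hF hs => exists_sqrt_seven hD'.2)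
    (fun F _ _ s hF hs => BKF.parity_two hD hF hs)
    (fun F _ _ s hF hs w k f ψ hf E _ _ ι hι v hv =>
      frobTr_congr_two RZC.pOddZero hF hf hι v hv)

/-- The rigid fields for `p = 3`. -/
theorem stField3 : StField3 := by
  intro D F _ _ s hD h3 hR hF hs
  exact RZC3.fieldC3_of_rigidAll hD h3 hR hF hs

/-- **`p = 3`**: the rigid fields. -/
theorem central_three (hM : StMainNA) (hMA : StMainA) {D : ℕ} (hD : BKDH.IsFund D)
    (h3 : D % 3 = 2) (hR : BKDH.RigidAll D) : Central 3 D := by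
  have h4 : 4 < D := by
    obtain ⟨h2, -⟩ := hD
    rcases h2 with h | h | h <;> omega
  refine central_of hM hD h4 (fun F _ _ s hF hs => ?_)
    (fun F _ _ s hF hs => BKF.parity_three hD h3 hR hs hF)
    (fun F _ _ s hF hs w k f ψ hf E _ _ ι hι v hv =>
      frobTr_congr_three RZC3.pTr3 hF hf hι v hv)
    (fun F _ _ s hF hs w r f σ ψ hf hψ E _ _ ι hι =>
      lhalf_three hMA stField3 hD h3 hR hF hs hf hψ hι)
  obtain ⟨-, j, hj⟩ := BKDH.stQF F D s hD h3 hs hF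
  exact ⟨j s, by rw [← map_pow, hs, map_neg, map_natCast]⟩

/-- **`p = 3`**: at least half of the fields in which `3` splits. -/
theorem central_density (hM : StMainNA) (hMA : StMainA) (ε : ℝ) (hε : 0 < ε) :
    ∃ X₀ : ℕ, ∀ X : ℕ, X₀ ≤ X →
    (1 / 2 - ε) * ({D : ℕ | D ≤ X ∧ BKDH.IsFund D ∧ D % 3 = 2}.ncard : ℝ) ≤
      ({D : ℕ | D ≤ X ∧ BKDH.IsFund D ∧ D % 3 = 2 ∧ Central 3 D}.ncard : ℝ) := by
  obtain ⟨X₀, hX₀⟩ := BKDH.half ε hε
  refine ⟨X₀, fun X hX => (hX₀ X hX).trans ?_⟩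
  have hfin : {D : ℕ | D ≤ X ∧ BKDH.IsFund D ∧ D % 3 = 2 ∧ Central 3 D}.Finite :=
    (Set.finite_Iic X).subset fun D hD => hD.1
  have hsub : {D : ℕ | D ≤ X ∧ BKDH.IsFund D ∧ D % 3 = 2 ∧ BKDH.RigidAll D} ⊆
      {D : ℕ | D ≤ X ∧ BKDH.IsFund D ∧ D % 3 = 2 ∧ Central 3 D} := fun D hD =>
    ⟨hD.1, hD.2.1, hD.2.2.1, central_three hM hMA hD.2.1 hD.2.2.1 hD.2.2.2⟩
  exact_mod_cast Set.ncard_le_ncard hsub hfin

end RZ

end Pool.Agent.Lib.MP_7c08ba_nt
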