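import Mathlib
import Pool.Agent.Lib.MP_7c08ba_nt.RZ.NTwo
import Pool.Agent.Lib.MP_7c08ba_nt.RZ.AllN
import Pool.Agent.Lib.MP_7c08ba_nt.RZ.AllNE

set_option autoImplicit false

/-!
The final theorems, without hypotheses.
-/

namespace Pool.Agent.Lib.MP_7c08ba_nt

namespace RZ

/-- The analytic part for `k < w`, every fundamental discriminant `-D < -4`. -/
theorem aMainNA : StMainNA := stMainNA aMainN aMainNE

/-- **`p = 2`**: the primes `q` congruent to `7` modulo `16`. -/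
theorem central_two_all {q : ℕ} (hq : q.Prime) (h16 : q % 16 = 7) : Central 2 q :=
  central_two aMainNA hq h16

/-- **`p = 2`, `k < w`**: also the products of two primes `3` and `5` modulo `8`. -/
theorem centralLt_two_all {D : ℕ} (hD : (D.Prime ∧ D % 16 = 7) ∨
    ∃ q r : ℕ, q.Prime ∧ r.Prime ∧ q % 8 = 3 ∧ r % 8 = 5 ∧ D = q * r) : CentralLt 2 D :=
  centralLt_two aMainNA hD

/-- **`p = 3`**: the rigid fields. -/
theorem central_three_all {D : ℕ} (hD : BKDH.IsFund D) (h3 : D % 3 = 2)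
    (hR : BKDH.RigidAll D) : Central 3 D :=
  central_three aMainNA (stMainA aMainD aMainE) hD h3 hR

/-- **`p = 3`**: at least half of the fields in which `3` splits. -/
theorem central_density_all (ε : ℝ) (hε : 0 < ε) :
    ∃ X₀ : ℕ, ∀ X : ℕ, X₀ ≤ X →
    (1 / 2 - ε) * ({D : ℕ | D ≤ X ∧ BKDH.IsFund D ∧ D % 3 = 2}.ncard : ℝ) ≤
      ({D : ℕ | D ≤ X ∧ BKDH.IsFund D ∧ D % 3 = 2 ∧ Central 3 D}.ncard : ℝ) :=
  central_density aMainNA (stMainA aMainD aMainE) ε hε

end RZ

end Pool.Agent.Lib.MP_7c08ba_nt
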