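import Pool.Agent.Lib.MP_7c08ba_nt.RZ.ExPsi
import Pool.Agent.Lib.MP_7c08ba_nt.RZ.EPl
import Pool.Agent.Lib.MP_7c08ba_nt.RZ.DPl
import Pool.Agent.Lib.MP_7c08ba_nt.RZ.BasD
import Pool.Agent.Lib.MP_7c08ba_nt.RZ.BasE
import Pool.Agent.Lib.MP_7c08ba_nt.RZ.MainD
import Pool.Agent.Lib.MP_7c08ba_nt.RZ.MainE
import Pool.Agent.Lib.MP_7c08ba_nt.RZ.ChiE
import Pool.Agent.Lib.MP_7c08ba_nt.RZ.Fund
import Pool.Agent.Lib.MP_7c08ba_nt.DH.QF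
import Pool.Agent.Lib.MP_7c08ba_nt.Gen.RT.Emb

set_option autoImplicit false

/-!
Existence of unramified Hecke characters of every even type `(k, 0)` with trivial reduction, for
the fundamental discriminants.
-/

namespace Pool.Agent.Lib.MP_7c08ba_nt.RZX

open NumberField
open scoped nonZeroDivisors

noncomputable section

variable {F : Type} [Field F] [NumberField F]

theorem units_pow {D : ℕ} {s : F} (hD : BKDH.IsFund D) (h4 : 4 < D)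
    (hF : Module.finrank ℚ F = 2) (hs : s ^ 2 = -(D : F)) (σ : F →+* ℂ) {k : ℕ} (hk : Even k)
    (u : (𝓞 F)ˣ) : σ ((u : 𝓞 F) : F) ^ k = 1 := by
  have h : (u : 𝓞 F) = 1 ∨ (u : 𝓞 F) = -1 := by
    rcases RZ.fund_cases hD h4 with h | h
    · obtain ⟨s', χ, cj, hd⟩ := RZ.MainDAux.exists_dat σ h hF hs
      exact (RZ.stBasD D F _ _ s' σ χ cj hd).2.2.2.2.2.2.2.1 _ u.isUnit
    · obtain ⟨s', χ, cj, hd⟩ := RZ.MainEAux.exists_dat RZ.stChiE D ⟨by omega⟩ σ h hF hs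
      exact (RZ.stBasE D F _ _ s' σ χ cj hd).2.2.2.2.2.2.2.1 _ u.isUnit
  rcases h with h | h
  · rw [h]
    simp
  · rw [h]
    simp [hk.neg_one_pow]

theorem split_norm {p : ℕ} [hp : Fact p.Prime] {D : ℕ} (hD : 0 < D)
    (hu : ∃ u : ℚ_[p], u ^ 2 = -(D : ℚ_[p])) (hF : Module.finrank ℚ F = 2) {s : F}
    (hs : s ^ 2 = -(D : F)) (P : Ideal (𝓞 F)) (hP : P.IsPrime) (hpP : (p : 𝓞 F) ∈ P) :
    Ideal.absNorm P = p := by
  have hP0 : P ≠ ⊥ := by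
    rintro rfl
    rw [Ideal.mem_bot] at hpP
    exact Nat.cast_ne_zero.mpr hp.out.ne_zero hpP
  obtain ⟨i, hi⟩ := BKGen.RT.exists_emb P hP0 hpP
  obtain ⟨j, hj⟩ := RZ.exists_padic_p hD hu hF hs i
  exact RZ.absNorm_eq_p (v := ⟨P, hP, hP0⟩) (j := j) hF (by
    intro x
    change x ∈ P ↔ _
    rw [hi, BKGen.RT.mem_pr, ← hj, PadicAlgCl.norm_extends])

theorem exists_psi {p : ℕ} [hp : Fact p.Prime] {D : ℕ} {s : F} (hD : BKDH.IsFund D) (h4 : 4 < D)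
    (hu : ∃ u : ℚ_[p], u ^ 2 = -(D : ℚ_[p])) (hF : Module.finrank ℚ F = 2)
    (hs : s ^ 2 = -(D : F)) (σ : F →+* ℂ) {k : ℕ} (hk : Even k) (hpk : (p - 1) ∣ k)
    {E : Type} [NormedField E] [NormedAlgebra ℚ_[p] E] (ι : ℂ →+* E) :
    ∃ ψ : Ideal (𝓞 F) →*₀ ℂ, RZ.IsHecke σ k ψ ∧
      ∀ a : Ideal (𝓞 F), ¬ p ∣ Ideal.absNorm a → ‖ι (ψ a) - 1‖ < 1 := by
  have : IsUltrametricDist E := IsUltrametricDist.of_normedAlgebra ℚ_[p]
  refine exists_residueOne σ ι hp.out ?_ k (units_pow hD h4 hF hs σ hk) hpk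
    (split_norm (by omega) hu hF hs)
  have h1 : ‖(p : E)‖ = ‖(p : ℚ_[p])‖ := by
    rw [← map_natCast (algebraMap ℚ_[p] E), norm_algebraMap']
  rw [h1]
  exact Padic.norm_p_lt_one

/-- `p = 3` -/
theorem exists_psi_three {D : ℕ} {s : F} (hD : BKDH.IsFund D) (h3 : D % 3 = 2)
    (hF : Module.finrank ℚ F = 2) (hs : s ^ 2 = -(D : F)) (σ : F →+* ℂ) {k : ℕ} (hk : Even k)
    {E : Type} [NormedField E] [NormedAlgebra ℚ_[3] E] (ι : ℂ →+* E) :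
    ∃ ψ : Ideal (𝓞 F) →*₀ ℂ, RZ.IsHecke σ k ψ ∧
      ∀ a : Ideal (𝓞 F), ¬ 3 ∣ Ideal.absNorm a → ‖ι (ψ a) - 1‖ < 1 := by
  have h4 : 4 < D := by
    obtain ⟨h2, -⟩ := hD
    unfold BKDH.F2 at h2
    omega
  exact exists_psi hD h4 (BKDH.QFd.exists_sqrt D h3) hF hs σ hk (even_iff_two_dvd.1 hk) ι

/-- `p = 2` -/
theorem exists_psi_two {q : ℕ} {s : F} (hq : q.Prime) (h16 : q % 16 = 7)
    (hF : Module.finrank ℚ F = 2) (hs : s ^ 2 = -(q : F)) (σ : F →+* ℂ) {k : ℕ} (hk : Even k)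
    {E : Type} [NormedField E] [NormedAlgebra ℚ_[2] E] (ι : ℂ →+* E) :
    ∃ ψ : Ideal (𝓞 F) →*₀ ℂ, RZ.IsHecke σ k ψ ∧
      ∀ a : Ideal (𝓞 F), ¬ 2 ∣ Ideal.absNorm a → ‖ι (ψ a) - 1‖ < 1 := by
  have hf : BKDH.IsFund q := by
    refine ⟨Or.inl (by omega), fun p hp _ hd => ?_⟩
    have h1 := (Nat.prime_dvd_prime_iff_eq hp hq).1 ((dvd_pow_self p two_ne_zero).trans hd)
    subst h1
    have h2 := Nat.le_of_dvd hp.pos hd
    have h3 := hp.two_le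
    nlinarith
  exact exists_psi hf (by omega) (RZ.exists_sqrt h16) hF hs σ hk (one_dvd k) ι

end

end Pool.Agent.Lib.MP_7c08ba_nt.RZX
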