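import Pool.Agent.Lib.MP_7c08ba_nt.RZ.ExV

set_option autoImplicit false

/-!
Existence of unramified Hecke characters of type `(k, 0)`, and of such characters with trivial
reduction at a given place above `p`.
-/

namespace Pool.Agent.Lib.MP_7c08ba_nt.RZX

open NumberField Polynomial
open scoped nonZeroDivisors

noncomputable section

/-! ### extension of homomorphisms -/

/-- homomorphisms to the multiplicative group of `ℂ` extend from subgroups -/
theorem ext_hom {A : Type} [CommGroup A] (H : Subgroup A) (g : H →* ℂˣ) :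
    ∃ f : A →* ℂˣ, ∀ x : H, f (x : A) = g x := by
  have hn : ∀ {n : ℕ}, n ≠ 0 → Function.Surjective fun a : Additive ℂˣ => n • a := by
    intro n hn a
    obtain ⟨z, hz⟩ := IsAlgClosed.exists_pow_nat_eq ((Additive.toMul a : ℂˣ) : ℂ)
      (Nat.pos_of_ne_zero hn)
    have hz0 : z ≠ 0 := by
      rintro rfl
      rw [zero_pow hn] at hz
      exact (Additive.toMul a).ne_zero hz.symm
    refine ⟨Additive.ofMul (Units.mk0 z hz0), ?_⟩
    apply Additive.toMul.injective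
    apply Units.ext
    simpa using hz
  let _ : DivisibleBy (Additive ℂˣ) ℕ := divisibleByOfSMulRightSurj _ _ hn
  let _ : DivisibleBy (Additive ℂˣ) ℤ := AddGroup.divisibleByIntOfDivisibleByNat _
  obtain ⟨f, hf⟩ := (Module.Baer.of_divisible (Additive ℂˣ)).extension_property_addMonoidHom
    (MonoidHom.toAdditive H.subtype) (fun x y h => by simpa using h) (MonoidHom.toAdditive g)
  refine ⟨MonoidHom.toAdditive.symm f, fun x => ?_⟩
  have := DFunLike.congr_fun hf (Additive.ofMul x)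
  exact congrArg Additive.toMul this

variable {F : Type} [Field F] [NumberField F]

/-- a homomorphism of the monoid of nonzero ideals as a function of ideals -/
def mkPsi (g : (Ideal (𝓞 F))⁰ →* ℂˣ) : Ideal (𝓞 F) →*₀ ℂ where
  toFun := by
    classical
    exact fun a => if h : a ∈ (Ideal (𝓞 F))⁰ then (g ⟨a, h⟩ : ℂˣ) else 0
  map_zero' := by
    rw [dif_neg]
    intro h
    exact nonZeroDivisors.ne_zero h rfl
  map_one' := by
    rw [dif_pos (Submonoid.one_mem _)]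
    have : (⟨1, Submonoid.one_mem _⟩ : (Ideal (𝓞 F))⁰) = 1 := rfl
    rw [this, map_one]
    rfl
  map_mul' := by
    intro a b
    by_cases ha : a ∈ (Ideal (𝓞 F))⁰
    · by_cases hb : b ∈ (Ideal (𝓞 F))⁰
      · rw [dif_pos ha, dif_pos hb, dif_pos (Submonoid.mul_mem _ ha hb)]
        have : (⟨a * b, Submonoid.mul_mem _ ha hb⟩ : (Ideal (𝓞 F))⁰) = ⟨a, ha⟩ * ⟨b, hb⟩ := rfl
        rw [this, map_mul]
        rfl
      · rw [dif_neg hb, mul_zero, dif_neg]
        intro h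
        exact hb (by
          rw [mem_nonZeroDivisors_iff_ne_zero] at h ⊢
          exact right_ne_zero_of_mul h)
    · rw [dif_neg ha, zero_mul, dif_neg]
      intro h
      exact ha (by
        rw [mem_nonZeroDivisors_iff_ne_zero] at h ⊢
        exact left_ne_zero_of_mul h)

omit [NumberField F] in
theorem mkPsi_apply (g : (Ideal (𝓞 F))⁰ →* ℂˣ) (a : (Ideal (𝓞 F))⁰) :
    mkPsi g (a : Ideal (𝓞 F)) = (g a : ℂˣ) := by
  exact dif_pos a.2

/-- twist by a character of the class group -/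
def twist (ψ : Ideal (𝓞 F) →*₀ ℂ) (hψ : ∀ J : (Ideal (𝓞 F))⁰, ψ (J : Ideal (𝓞 F)) ≠ 0)
    (χ : ClassGroup (𝓞 F) →* ℂˣ) : (Ideal (𝓞 F))⁰ →* ℂˣ where
  toFun J := Units.mk0 (ψ (J : Ideal (𝓞 F))) (hψ J) * (χ (ClassGroup.mk0 J))⁻¹
  map_one' := by
    rw [map_one, map_one, inv_one, mul_one]
    apply Units.ext
    exact map_one ψ
  map_mul' J K := by
    apply Units.ext
    rw [map_mul, map_mul]
    simp only [Units.val_mul, Units.val_mk0, mul_inv, Submonoid.coe_mul, map_mul]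
    ring

theorem mkPsi_twist (ψ : Ideal (𝓞 F) →*₀ ℂ)
    (hψ : ∀ J : (Ideal (𝓞 F))⁰, ψ (J : Ideal (𝓞 F)) ≠ 0) (χ : ClassGroup (𝓞 F) →* ℂˣ)
    (J : (Ideal (𝓞 F))⁰) : mkPsi (twist ψ hψ χ) (J : Ideal (𝓞 F)) =
      ψ (J : Ideal (𝓞 F)) * ((χ (ClassGroup.mk0 J) : ℂˣ) : ℂ)⁻¹ := by
  rw [mkPsi_apply]
  change ((Units.mk0 (ψ (J : Ideal (𝓞 F))) (hψ J) * (χ (ClassGroup.mk0 J))⁻¹ : ℂˣ) : ℂ) = _
  rw [Units.val_mul, Units.val_inv_eq_inv_val, Units.val_mk0]

/-- Unramified Hecke characters of type `(k, 0)` exist if `σ u ^ k = 1` for all units. -/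
theorem exists_hecke (σ : F →+* ℂ) (k : ℕ) (hu : ∀ u : (𝓞 F)ˣ, σ ((u : 𝓞 F) : F) ^ k = 1) :
    ∃ ψ : Ideal (𝓞 F) →*₀ ℂ, RZ.IsHecke σ k ψ := by
  classical
  let T := toPrincipalIdeal (𝓞 F) F
  let s : Fˣ →* ℂˣ := (powMonoidHom k).comp (Units.map (σ : F →* ℂ))
  have hker : ∀ x : Fˣ, T x = 1 → s x = 1 := by
    intro x hx
    have h1 : FractionalIdeal.spanSingleton (𝓞 F)⁰ (x : F) = 1 := by
      have := (toPrincipalIdeal_eq_iff (R := 𝓞 F) (K := F) (I := 1) (x := x)).1 hx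
      simpa using this
    have h2 : FractionalIdeal.spanSingleton (𝓞 F)⁰ ((x : F)⁻¹) = 1 := by
      have hx' : T x⁻¹ = 1 := by rw [map_inv, hx, inv_one]
      have := (toPrincipalIdeal_eq_iff (R := 𝓞 F) (K := F) (I := 1) (x := x⁻¹)).1 hx'
      simpa using this
    have h3 : (x : F) ∈ (1 : FractionalIdeal (𝓞 F)⁰ F) := by
      rw [← h1]
      exact FractionalIdeal.mem_spanSingleton_self _ _
    have h4 : (x : F)⁻¹ ∈ (1 : FractionalIdeal (𝓞 F)⁰ F) := by
      rw [← h2]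
      exact FractionalIdeal.mem_spanSingleton_self _ _
    rw [FractionalIdeal.mem_one_iff] at h3 h4
    obtain ⟨a, ha⟩ := h3
    obtain ⟨b, hb⟩ := h4
    have hab : a * b = 1 := by
      apply RingOfIntegers.coe_injective
      rw [map_mul, ha, hb, mul_inv_cancel₀ x.ne_zero, map_one]
    apply Units.ext
    have := hu ⟨a, b, hab, by rw [mul_comm, hab]⟩
    change σ (x : F) ^ k = 1
    rw [← ha]
    exact this
  -- the homomorphism on principal ideals
  have hle : T.rangeRestrict.ker ≤ s.ker := by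
    intro x hx
    rw [MonoidHom.mem_ker] at hx ⊢
    apply hker
    have := congrArg Subtype.val hx
    exact this
  let g : T.range →* ℂˣ := MonoidHom.liftOfSurjective T.rangeRestrict
    T.rangeRestrict_surjective ⟨s, hle⟩
  have hg : ∀ x : Fˣ, g (T.rangeRestrict x) = s x := fun x =>
    MonoidHom.liftOfRightInverse_comp_apply _ _ _ ⟨s, hle⟩ x
  obtain ⟨f, hf⟩ := ext_hom T.range g
  refine ⟨mkPsi (f.comp (FractionalIdeal.mk0 F)), fun t ht => ?_⟩
  have hmem : Ideal.span {t} ∈ (Ideal (𝓞 F))⁰ := by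
    rw [mem_nonZeroDivisors_iff_ne_zero, Ne, Ideal.zero_eq_bot, Ideal.span_singleton_eq_bot]
    exact ht
  have htF : (t : F) ≠ 0 := fun h =>
    ht (RingOfIntegers.coe_injective (h.trans (map_zero _).symm))
  have h1 := mkPsi_apply (f.comp (FractionalIdeal.mk0 F)) ⟨Ideal.span {t}, hmem⟩
  change mkPsi _ (Ideal.span {t}) = _ at h1
  rw [h1]
  have h2 : FractionalIdeal.mk0 F ⟨Ideal.span {t}, hmem⟩ = T (Units.mk0 (t : F) htF) := by
    symm
    rw [toPrincipalIdeal_eq_iff]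
    simp
  rw [MonoidHom.comp_apply, h2]
  have h3 := hf (T.rangeRestrict (Units.mk0 (t : F) htF))
  rw [hg] at h3
  have h4 : ((T.rangeRestrict (Units.mk0 (t : F) htF) : T.range) : _) =
    T (Units.mk0 (t : F) htF) := rfl
  rw [h4] at h3
  rw [h3]
  rfl

/-! ### roots of unity modulo a valuation ring -/

section val

variable (V : ValuationSubring ℂ)

theorem val_nat_le (n : ℕ) : V.valuation (n : ℂ) ≤ 1 :=
  (V.valuation_le_one_iff _).2 (natCast_mem V n)

theorem val_root {N : ℕ} (hN : N ≠ 0) {ζ : ℂ} (h : ζ ^ N = 1) : V.valuation ζ = 1 := by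
  have h1 : (V.valuation ζ) ^ N = 1 := by rw [← map_pow, h, map_one]
  exact (pow_eq_one_iff_of_nonneg zero_le hN).1 h1

/-- if `p` is not a unit and `p` does not divide `N` then `N` is a unit -/
theorem val_nat {p N : ℕ} (hp : p.Prime) (hV : V.valuation (p : ℂ) < 1) (hN : ¬ p ∣ N) :
    V.valuation (N : ℂ) = 1 := by
  refine le_antisymm (val_nat_le V N) (not_lt.1 fun hlt => ?_)
  have hc : IsCoprime (p : ℤ) (N : ℤ) :=
    Nat.isCoprime_iff_coprime.2 ((Nat.Prime.coprime_iff_not_dvd hp).2 hN)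
  obtain ⟨u, v, huv⟩ := hc
  have h1 : (u : ℂ) * p + v * N = 1 := by exact_mod_cast congrArg (Int.cast : ℤ → ℂ) huv
  have hint : ∀ m : ℤ, V.valuation (m : ℂ) ≤ 1 := fun m =>
    (V.valuation_le_one_iff _).2 (intCast_mem V m)
  have h2 : V.valuation ((u : ℂ) * p + v * N) < 1 := by
    refine (V.valuation.map_add _ _).trans_lt (max_lt ?_ ?_)
    · rw [map_mul]
      exact mul_lt_one_of_nonneg_of_lt_one_right (hint u) zero_le hV
    · rw [map_mul]
      exact mul_lt_one_of_nonneg_of_lt_one_right (hint v) zero_le hlt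
  rw [h1, map_one] at h2
  exact lt_irrefl _ h2

/-- congruent roots of unity of order prime to `p` are equal -/
theorem root_unique {N : ℕ} (hN0 : N ≠ 0) (hN : V.valuation (N : ℂ) = 1) {ζ ξ : ℂ}
    (hζ : ζ ^ N = 1) (hξ : ξ ^ N = 1) (h : V.valuation (ζ - ξ) < 1) : ζ = ξ := by
  have hξ0 : ξ ≠ 0 := by
    rintro rfl
    rw [zero_pow hN0] at hξ
    exact zero_ne_one hξ
  set η := ζ / ξ with hη
  have h1 : η ^ N = 1 := by rw [hη, div_pow, hζ, hξ, div_one]
  have h2 : V.valuation (η - 1) < 1 := by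
    have e : η - 1 = (ζ - ξ) / ξ := by rw [hη]; field_simp
    rw [e, map_div₀, val_root V hN0 hξ, div_one]
    exact h
  by_contra hne
  have hη1 : η ≠ 1 := by
    intro he
    rw [hη, div_eq_one_iff_eq hξ0] at he
    exact hne he
  have h3 : ∑ i ∈ Finset.range N, η ^ i = 0 := by
    have := geom_sum_eq hη1 N
    rw [this, h1, sub_self, zero_div]
  have h4 : ∀ i : ℕ, V.valuation (η ^ i - 1) < 1 := by
    intro i
    have e : η ^ i - 1 = (∑ m ∈ Finset.range i, η ^ m) * (η - 1) := (geom_sum_mul η i).symm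
    rw [e, map_mul]
    refine mul_lt_one_of_nonneg_of_lt_one_right ?_ zero_le h2
    refine V.valuation.map_sum_le fun m _ => ?_
    rw [map_pow, val_root V hN0 h1, one_pow]
  have h5 : V.valuation (∑ i ∈ Finset.range N, (η ^ i - 1)) < 1 :=
    V.valuation.map_sum_lt one_ne_zero fun i _ => h4 i
  rw [Finset.sum_sub_distrib, h3, zero_sub, Valuation.map_neg] at h5
  simp only [Finset.sum_const, Finset.card_range, nsmul_eq_mul, mul_one] at h5
  rw [hN] at h5
  exact lt_irrefl _ h5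

/-- an element with `z ^ N ≡ 1` is congruent to a root of unity -/
theorem exists_root {N : ℕ} (hN0 : N ≠ 0) {z : ℂ} (h : V.valuation (z ^ N - 1) < 1) :
    ∃ ζ : ℂ, ζ ^ N = 1 ∧ V.valuation (z - ζ) < 1 := by
  classical
  have h1 : z ^ N - 1 = ∏ ζ ∈ nthRootsFinset N (1 : ℂ), (z - ζ) := by
    have h2 := X_pow_sub_one_eq_prod (Nat.pos_of_ne_zero hN0) (Complex.isPrimitiveRoot_exp N hN0)
    have h3 := congrArg (Polynomial.eval z) h2
    rw [Polynomial.eval_prod] at h3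
    simpa using h3
  by_contra hcon
  push Not at hcon
  have h2 : 1 ≤ V.valuation (z ^ N - 1) := by
    rw [h1, map_prod]
    refine Finset.one_le_prod' fun ζ hζ => ?_
    exact hcon ζ ((mem_nthRootsFinset (Nat.pos_of_ne_zero hN0) (1 : ℂ)).1 hζ)
  exact absurd h (not_lt.2 h2)

/-- removing powers of `p` -/
theorem val_pow_p {p : ℕ} (hp : p.Prime) (hV : V.valuation (p : ℂ) < 1) {z : ℂ} (e : ℕ)
    (hz : V.valuation z ≤ 1) (h : V.valuation (z ^ p ^ e - 1) < 1) : V.valuation (z - 1) < 1 := by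
  induction e generalizing z with
  | zero => simpa using h
  | succ e ih =>
    have h1 : V.valuation (z ^ p - 1) < 1 := by
      apply ih
      · rw [map_pow]
        exact pow_le_one₀ zero_le hz
      · rw [← pow_mul, ← pow_succ']
        exact h
    -- `(z - 1) ^ p ≡ z ^ p - 1`
    have hmem : z ∈ V := (V.valuation_le_one_iff _).1 hz
    set a : V := ⟨z, hmem⟩ with ha
    obtain ⟨r, hr⟩ := exists_add_pow_prime_eq hp (a - 1) 1
    have h2 : (z - 1) ^ p = (z ^ p - 1) - p * ((z - 1) * (r : ℂ)) := by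
      have h3 := congrArg (Subtype.val : V → ℂ) hr
      simp only [sub_add_cancel, one_pow, mul_one] at h3
      push_cast at h3
      have h4 : ((a : V) : ℂ) = z := rfl
      rw [h4] at h3
      linear_combination -h3
    have h5 : V.valuation ((z - 1) ^ p) < 1 := by
      rw [h2]
      refine (V.valuation.map_sub _ _).trans_lt (max_lt h1 ?_)
      rw [map_mul]
      refine mul_lt_one_of_lt_of_le hV ?_
      exact (V.valuation_le_one_iff _).2 (V.mul_mem _ _ (V.sub_mem hmem V.one_mem) r.2)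
    rw [map_pow] at h5
    by_contra hcon
    exact absurd h5 (not_lt.2 (one_le_pow₀ (not_lt.1 hcon)))

/-- integers are in all valuation rings -/
theorem int_val {z : ℂ} (h : IsIntegral ℤ z) : V.valuation z ≤ 1 := by
  have h1 : IsIntegral V z := h.tower_top
  obtain ⟨y, hy⟩ := IsIntegrallyClosed.isIntegral_iff.1 h1
  rw [← hy]
  exact (V.valuation_le_one_iff _).2 y.2

end val

/-! ### the twist -/

section twist

variable (σ : F →+* ℂ)

omit [NumberField F] in
theorem val_int (V : ValuationSubring ℂ) (x : 𝓞 F) : V.valuation (σ (x : F)) ≤ 1 :=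
  int_val V (x.isIntegral_coe.map σ.toIntAlgHom)

/-- the prime ideal of a valuation ring -/
def prV (V : ValuationSubring ℂ) : Ideal (𝓞 F) where
  carrier := {x | V.valuation (σ (x : F)) < 1}
  zero_mem' := by simp
  add_mem' := by
    intro x y hx hy
    change V.valuation (σ ((x + y : 𝓞 F) : F)) < 1
    simp only [map_add]
    exact (V.valuation.map_add _ _).trans_lt (max_lt hx hy)
  smul_mem' := by
    intro c x hx
    change V.valuation (σ ((c * x : 𝓞 F) : F)) < 1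
    simp only [map_mul]
    exact mul_lt_one_of_nonneg_of_lt_one_right (val_int σ V c) zero_le hx

theorem mem_prV {V : ValuationSubring ℂ} {x : 𝓞 F} :
    x ∈ prV σ V ↔ V.valuation (σ (x : F)) < 1 := Iff.rfl

theorem prV_prime (V : ValuationSubring ℂ) : (prV σ V).IsPrime := by
  refine ⟨?_, ?_⟩
  · rw [Ne, Ideal.eq_top_iff_one, mem_prV]
    simp
  · intro x y hxy
    rw [mem_prV, mem_prV]
    rw [mem_prV] at hxy
    simp only [map_mul] at hxy
    by_contra hcon
    push Not at hcon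
    have h1 := one_le_mul hcon.1 hcon.2
    exact absurd hxy (not_lt.2 h1)

/-- Existence of unramified Hecke characters of type `(k, 0)` with trivial reduction. -/
theorem exists_trivial (V : ValuationSubring ℂ) {p : ℕ} (hp : p.Prime)
    (hV : V.valuation (p : ℂ) < 1) (k : ℕ) (hu : ∀ u : (𝓞 F)ˣ, σ ((u : 𝓞 F) : F) ^ k = 1)
    (hk : (p - 1) ∣ k)
    (hsplit : ∀ P : Ideal (𝓞 F), P.IsPrime → (p : 𝓞 F) ∈ P → Ideal.absNorm P = p) :
    ∃ ψ : Ideal (𝓞 F) →*₀ ℂ, RZ.IsHecke σ k ψ ∧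
      ∀ a : Ideal (𝓞 F), ¬ p ∣ Ideal.absNorm a → V.valuation (ψ a - 1) < 1 := by
  classical
  obtain ⟨ψ₀, hψ₀⟩ := exists_hecke σ k hu
  -- the prime below
  set P := prV σ V with hP
  have hPp : P.IsPrime := prV_prime σ V
  have hpP : (p : 𝓞 F) ∈ P := by
    rw [hP, mem_prV]
    have e : σ (((p : 𝓞 F) : F)) = (p : ℂ) := by simp
    rw [e]
    exact hV
  have hPN := hsplit P hPp hpP
  have hPb : P ≠ ⊥ := by
    intro h
    rw [h, Ideal.absNorm_bot] at hPN
    exact hp.ne_zero hPN.symm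
  have hfin : Finite (𝓞 F ⧸ P) :=
    (Ideal.absNorm_ne_zero_iff P).1 (by rw [hPN]; exact hp.ne_zero)
  have hmax : P.IsMaximal := hPp.isMaximal hPb
  let _ : Field (𝓞 F ⧸ P) := Ideal.Quotient.field P
  let _ : Fintype (𝓞 F ⧸ P) := Fintype.ofFinite _
  have hcard : Fintype.card (𝓞 F ⧸ P) = p := by
    rw [← Nat.card_eq_fintype_card, ← hPN]
    rfl
  have hfer : ∀ x : 𝓞 F, x ∉ P → x ^ k - 1 ∈ P := by
    intro x hx
    obtain ⟨t, rfl⟩ := hk
    rw [← Ideal.Quotient.eq_zero_iff_mem, map_sub, map_pow, map_one, pow_mul]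
    have h1 : (Ideal.Quotient.mk P x) ≠ 0 := by
      rwa [Ne, Ideal.Quotient.eq_zero_iff_mem]
    have h2 := FiniteField.pow_card_sub_one_eq_one _ h1
    rw [hcard] at h2
    rw [h2, one_pow, sub_self]
  -- values at principal ideals
  have hprin : ∀ (J : (Ideal (𝓞 F))⁰), ClassGroup.mk0 J = 1 →
      ¬ p ∣ Ideal.absNorm (J : Ideal (𝓞 F)) → V.valuation (ψ₀ (J : Ideal (𝓞 F)) - 1) < 1 := by
    intro J hJ hN
    rw [ClassGroup.mk0_eq_one_iff] at hJ
    obtain ⟨x, hx⟩ := hJ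
    have hx' : (J : Ideal (𝓞 F)) = Ideal.span {x} := hx
    have hxP : x ∉ P := by
      intro hxP
      apply hN
      rw [← hPN]
      apply Ideal.absNorm_dvd_absNorm_of_le
      rw [hx', Ideal.span_singleton_le_iff_mem]
      exact hxP
    have hx0 : x ≠ 0 := fun h => hxP (h ▸ P.zero_mem)
    have h1 := hfer x hxP
    rw [hP, mem_prV] at h1
    rw [hx', hψ₀ x hx0]
    have e : σ (((x ^ k - 1 : 𝓞 F)) : F) = σ (x : F) ^ k - 1 := by simp
    rwa [e] at h1
  -- the part of the class number prime to `p`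
  set h := Fintype.card (ClassGroup (𝓞 F)) with hh
  have hh0 : h ≠ 0 := Fintype.card_ne_zero
  obtain ⟨e, N, hN, heN⟩ := Nat.exists_eq_pow_mul_and_not_dvd hh0 p hp.ne_one
  have hN0 : N ≠ 0 := by
    rintro rfl
    exact hN (dvd_zero p)
  have hVN : V.valuation (N : ℂ) = 1 := val_nat V hp hV hN
  have hψ0 : ∀ J : (Ideal (𝓞 F))⁰, ψ₀ (J : Ideal (𝓞 F)) ≠ 0 ∧
      V.valuation (ψ₀ (J : Ideal (𝓞 F))) ≤ 1 := by
    intro J
    have h1 : ClassGroup.mk0 (J ^ h) = 1 := by rw [map_pow, hh, pow_card_eq_one]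
    rw [ClassGroup.mk0_eq_one_iff] at h1
    obtain ⟨x, hx⟩ := h1
    have hx' : (J : Ideal (𝓞 F)) ^ h = Ideal.span {x} := by simpa using hx
    have hx0 : x ≠ 0 := by
      rintro rfl
      rw [Ideal.span_singleton_eq_bot.2 rfl] at hx'
      exact pow_ne_zero h (nonZeroDivisors.ne_zero J.2) hx'
    have h2 : ψ₀ (J : Ideal (𝓞 F)) ^ h = σ (x : F) ^ k := by
      rw [← map_pow, hx', hψ₀ x hx0]
    refine ⟨?_, ?_⟩
    · intro h0
      rw [h0, zero_pow hh0] at h2
      have : σ (x : F) = 0 := by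
        by_contra hne
        exact pow_ne_zero k hne h2.symm
      rw [map_eq_zero] at this
      exact hx0 (RingOfIntegers.coe_injective (this.trans (map_zero _).symm))
    · by_contra hcon
      rw [not_le] at hcon
      have h3 : 1 < V.valuation (ψ₀ (J : Ideal (𝓞 F)) ^ h) := by
        rw [map_pow]
        exact one_lt_pow₀ hcon hh0
      rw [h2, map_pow] at h3
      exact absurd h3 (not_lt.2 (pow_le_one₀ zero_le (val_int σ V x)))
  -- the root of unity of an ideal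
  have hroot : ∀ J : (Ideal (𝓞 F))⁰, ¬ p ∣ Ideal.absNorm (J : Ideal (𝓞 F)) →
      ∃ ζ : ℂ, ζ ^ N = 1 ∧ V.valuation (ψ₀ (J : Ideal (𝓞 F)) - ζ) < 1 := by
    intro J hJ
    apply exists_root V hN0
    apply val_pow_p V hp hV e
    · rw [map_pow]
      exact pow_le_one₀ zero_le (hψ0 J).2
    · rw [← pow_mul, mul_comm N, ← heN, ← map_pow, ← SubmonoidClass.coe_pow]
      apply hprin
      · rw [map_pow, hh, pow_card_eq_one]
      · rw [SubmonoidClass.coe_pow, map_pow]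
        exact fun h3 => hJ (hp.dvd_of_dvd_pow h3)
  choose! ζ hζ1 hζ2 using hroot
  have hmulN : ∀ J K : (Ideal (𝓞 F))⁰, ¬ p ∣ Ideal.absNorm (J : Ideal (𝓞 F)) →
      ¬ p ∣ Ideal.absNorm (K : Ideal (𝓞 F)) →
      ¬ p ∣ Ideal.absNorm ((J * K : (Ideal (𝓞 F))⁰) : Ideal (𝓞 F)) := by
    intro J K hJ hK h3
    rw [Submonoid.coe_mul, map_mul] at h3
    rcases hp.dvd_mul.1 h3 with h3 | h3
    · exact hJ h3
    · exact hK h3
  have hζmul : ∀ J K : (Ideal (𝓞 F))⁰, ¬ p ∣ Ideal.absNorm (J : Ideal (𝓞 F)) →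
      ¬ p ∣ Ideal.absNorm (K : Ideal (𝓞 F)) → ζ (J * K) = ζ J * ζ K := by
    intro J K hJ hK
    apply root_unique V hN0 hVN (hζ1 _ (hmulN J K hJ hK))
    · rw [mul_pow, hζ1 J hJ, hζ1 K hK, one_mul]
    · have e1 : ζ (J * K) - ζ J * ζ K =
          (ψ₀ (J : Ideal (𝓞 F)) - ζ J) * ψ₀ (K : Ideal (𝓞 F)) +
          (ζ J * (ψ₀ (K : Ideal (𝓞 F)) - ζ K) -
            (ψ₀ ((J * K : (Ideal (𝓞 F))⁰) : Ideal (𝓞 F)) - ζ (J * K))) := by
        rw [Submonoid.coe_mul, map_mul]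
        ring
      rw [e1]
      refine (V.valuation.map_add _ _).trans_lt (max_lt ?_ ((V.valuation.map_sub _ _).trans_lt
        (max_lt ?_ (hζ2 _ (hmulN J K hJ hK)))))
      · rw [map_mul]
        exact mul_lt_one_of_lt_of_le (hζ2 J hJ) (hψ0 K).2
      · rw [map_mul, val_root V hN0 (hζ1 J hJ), one_mul]
        exact hζ2 K hK
  have hζone : ∀ J : (Ideal (𝓞 F))⁰, ClassGroup.mk0 J = 1 →
      ¬ p ∣ Ideal.absNorm (J : Ideal (𝓞 F)) → ζ J = 1 := by
    intro J hJ hN'
    apply root_unique V hN0 hVN (hζ1 J hN') (one_pow N)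
    have e1 : ζ J - 1 = (ψ₀ (J : Ideal (𝓞 F)) - 1) - (ψ₀ (J : Ideal (𝓞 F)) - ζ J) := by ring
    rw [e1]
    exact (V.valuation.map_sub _ _).trans_lt (max_lt (hprin J hJ hN') (hζ2 J hN'))
  have hζcls : ∀ J K : (Ideal (𝓞 F))⁰, ¬ p ∣ Ideal.absNorm (J : Ideal (𝓞 F)) →
      ¬ p ∣ Ideal.absNorm (K : Ideal (𝓞 F)) → ClassGroup.mk0 J = ClassGroup.mk0 K →
      ζ J = ζ K := by
    intro J K hJ hK hJK
    obtain ⟨d, hd1, hd2⟩ := exists_rep p hp (ClassGroup.mk0 J)⁻¹
    have h1 : ζ J * ζ d = 1 := by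
      rw [← hζmul J d hJ hd2]
      exact hζone _ (by rw [map_mul, hd1, mul_inv_cancel]) (hmulN J d hJ hd2)
    have h2 : ζ K * ζ d = 1 := by
      rw [← hζmul K d hK hd2]
      exact hζone _ (by rw [map_mul, hd1, hJK, mul_inv_cancel]) (hmulN K d hK hd2)
    have h3 : ζ d ≠ 0 := by
      intro h0
      rw [h0, mul_zero] at h1
      exact zero_ne_one h1
    exact mul_right_cancel₀ h3 (h1.trans h2.symm)
  choose a ha1 ha2 using exists_rep (F := F) p hp
  have hζ0 : ∀ J : (Ideal (𝓞 F))⁰, ¬ p ∣ Ideal.absNorm (J : Ideal (𝓞 F)) → ζ J ≠ 0 := by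
    intro J hJ h0
    have := hζ1 J hJ
    rw [h0, zero_pow hN0] at this
    exact zero_ne_one this
  let χ : ClassGroup (𝓞 F) →* ℂˣ :=
    { toFun := fun c => Units.mk0 (ζ (a c)) (hζ0 _ (ha2 c))
      map_one' := by
        apply Units.ext
        exact hζone _ (ha1 1) (ha2 1)
      map_mul' := by
        intro c d
        apply Units.ext
        change ζ (a (c * d)) = ζ (a c) * ζ (a d)
        rw [← hζmul _ _ (ha2 c) (ha2 d)]
        exact hζcls _ _ (ha2 _) (hmulN _ _ (ha2 c) (ha2 d)) (by rw [map_mul, ha1, ha1, ha1]) }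
  have hχ : ∀ J : (Ideal (𝓞 F))⁰, ¬ p ∣ Ideal.absNorm (J : Ideal (𝓞 F)) →
      ((χ (ClassGroup.mk0 J) : ℂˣ) : ℂ) = ζ J := by
    intro J hJ
    exact hζcls _ _ (ha2 _) hJ (ha1 _)
  have hne : ∀ J : (Ideal (𝓞 F))⁰, ψ₀ (J : Ideal (𝓞 F)) ≠ 0 := fun J => (hψ0 J).1
  have hg := mkPsi_twist ψ₀ hne χ
  refine ⟨mkPsi (twist ψ₀ hne χ), ?_, ?_⟩
  · intro t ht
    have hmem : Ideal.span {t} ∈ (Ideal (𝓞 F))⁰ := by
      rw [mem_nonZeroDivisors_iff_ne_zero, Ne, Ideal.zero_eq_bot, Ideal.span_singleton_eq_bot]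
      exact ht
    have h1 := hg ⟨Ideal.span {t}, hmem⟩
    have h2 : ClassGroup.mk0 (⟨Ideal.span {t}, hmem⟩ : (Ideal (𝓞 F))⁰) = 1 := by
      rw [ClassGroup.mk0_eq_one_iff]
      exact ⟨t, rfl⟩
    rw [h2, map_one, Units.val_one, inv_one, mul_one] at h1
    exact h1.trans (hψ₀ t ht)
  · intro J hJ
    have hJ0 : J ∈ (Ideal (𝓞 F))⁰ := by
      rw [mem_nonZeroDivisors_iff_ne_zero]
      rintro rfl
      apply hJ
      rw [Ideal.zero_eq_bot, Ideal.absNorm_bot]
      exact dvd_zero p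
    obtain ⟨K, rfl⟩ : ∃ K : (Ideal (𝓞 F))⁰, (K : Ideal (𝓞 F)) = J := ⟨⟨J, hJ0⟩, rfl⟩
    have h1 := hg K
    rw [hχ K hJ] at h1
    have h3 := hζ0 K hJ
    have h2 : mkPsi (twist ψ₀ hne χ) (K : Ideal (𝓞 F)) - 1 =
        (ψ₀ (K : Ideal (𝓞 F)) - ζ K) / ζ K := by
      rw [h1]
      field_simp
    rw [h2, map_div₀, val_root V hN0 (hζ1 K hJ), div_one]
    exact hζ2 K hJ

/-- The valuation ring of `ℂ` given by an embedding in a nonarchimedean field. -/
def valOf {E : Type} [NormedField E] [IsUltrametricDist E] (ι : ℂ →+* E) :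
    ValuationSubring ℂ where
  carrier := {x | ‖ι x‖ ≤ 1}
  zero_mem' := by simp
  one_mem' := by simp
  mul_mem' := by
    intro x y hx hy
    change ‖ι (x * y)‖ ≤ 1
    rw [map_mul, norm_mul]
    exact mul_le_one₀ hx (norm_nonneg _) hy
  add_mem' := by
    intro x y hx hy
    change ‖ι (x + y)‖ ≤ 1
    rw [map_add]
    exact (IsUltrametricDist.norm_add_le_max _ _).trans (max_le hx hy)
  neg_mem' := by
    intro x hx
    change ‖ι (-x)‖ ≤ 1
    rw [map_neg, norm_neg]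
    exact hx
  mem_or_inv_mem' := by
    intro x
    change ‖ι x‖ ≤ 1 ∨ ‖ι x⁻¹‖ ≤ 1
    rw [map_inv₀, norm_inv]
    rcases le_total ‖ι x‖ 1 with h | h
    · exact Or.inl h
    · exact Or.inr (inv_le_one_of_one_le₀ h)

theorem valOf_lt {E : Type} [NormedField E] [IsUltrametricDist E] (ι : ℂ →+* E) (x : ℂ) :
    (valOf ι).valuation x < 1 ↔ ‖ι x‖ < 1 := by
  by_cases hx : x = 0
  · subst hx
    simp
  · rw [← not_le, ← not_le, not_iff_not]
    have h1 : 1 ≤ (valOf ι).valuation x ↔ (valOf ι).valuation x⁻¹ ≤ 1 := by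
      rw [map_inv₀]
      exact (inv_le_one₀ (by simpa [zero_lt_iff] using hx)).symm
    rw [h1, ValuationSubring.valuation_le_one_iff]
    change ‖ι x⁻¹‖ ≤ 1 ↔ _
    rw [map_inv₀, norm_inv, inv_le_one₀ (by simpa using hx)]

/-- Existence of unramified Hecke characters of type `(k, 0)` with trivial reduction, for an
embedding of `ℂ` in a nonarchimedean field of residue characteristic `p`. -/
theorem exists_residueOne {E : Type} [NormedField E] [IsUltrametricDist E] (ι : ℂ →+* E)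
    {p : ℕ} (hp : p.Prime) (hE : ‖(p : E)‖ < 1) (k : ℕ)
    (hu : ∀ u : (𝓞 F)ˣ, σ ((u : 𝓞 F) : F) ^ k = 1) (hk : (p - 1) ∣ k)
    (hsplit : ∀ P : Ideal (𝓞 F), P.IsPrime → (p : 𝓞 F) ∈ P → Ideal.absNorm P = p) :
    ∃ ψ : Ideal (𝓞 F) →*₀ ℂ, RZ.IsHecke σ k ψ ∧
      ∀ a : Ideal (𝓞 F), ¬ p ∣ Ideal.absNorm a → ‖ι (ψ a) - 1‖ < 1 := by
  obtain ⟨ψ, h1, h2⟩ := exists_trivial σ (valOf ι) hp (by
    rw [valOf_lt, map_natCast]
    exact hE) k hu hk hsplit
  refine ⟨ψ, h1, fun a ha => ?_⟩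
  have := h2 a ha
  rw [valOf_lt, map_sub, map_one] at this
  exact this

end twist

end

end Pool.Agent.Lib.MP_7c08ba_nt.RZX
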