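import Mathlib
import Pool.Agent.Lib.MP_7c08ba_nt.RZ.ADefs
import Pool.Agent.Lib.MP_7c08ba_nt.RZ.StB

set_option autoImplicit false

/-!
Module B12 of RANK ZERO: the Eisenstein series as a sum over coprime pairs.
-/

namespace Pool.Agent.Lib.MP_7c08ba_nt

namespace RZ

open UpperHalfPlane

namespace EisBigAux

lemma gE_zero (r : ℕ) (s : ℂ) : gE r s 0 = 0 := by
  simp [gE]

lemma gE_neg (r : ℕ) (s z : ℂ) : gE r s (-z) = -gE r s z := by
  unfold gE
  rw [Complex.normSq_neg, Odd.neg_pow ⟨r, rfl⟩, inv_neg, neg_mul]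

lemma norm_gE (r : ℕ) (s z : ℂ) (hz : z ≠ 0) :
    ‖gE r s z‖ = ‖z‖ ^ (-((2 * r + 1 : ℝ) + 2 * s.re)) := by
  have hpos : 0 < ‖z‖ := norm_pos_iff.mpr hz
  have hN : 0 < Complex.normSq z := Complex.normSq_pos.mpr hz
  unfold gE
  rw [norm_mul, norm_inv, norm_pow, Complex.norm_cpow_eq_rpow_re_of_pos hN,
    Complex.normSq_eq_norm_sq, ← Real.rpow_natCast, ← Real.rpow_natCast, ← Real.rpow_neg hpos.le,
    ← Real.rpow_mul hpos.le, ← Real.rpow_add hpos]
  congr 1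
  push_cast
  simp only [Complex.neg_re]
  ring

lemma norm_gE_le (r : ℕ) (s z : ℂ) :
    ‖gE r s z‖ ≤ ‖z‖ ^ (-((2 * r + 1 : ℝ) + 2 * s.re)) := by
  rcases eq_or_ne z 0 with rfl | hz
  · rw [gE_zero, norm_zero]
    positivity
  · exact (norm_gE r s z hz).le

lemma gE_mul (r : ℕ) (s z : ℂ) (n : ℕ) (hn : 0 < n) :
    gE r s (n * z) = ((n : ℂ) ^ (2 * (r : ℂ) + 1 + 2 * s))⁻¹ * gE r s z := by
  have hn0 : (n : ℂ) ≠ 0 := by exact_mod_cast hn.ne'
  have h1 : (n : ℂ) ^ (2 * (r : ℂ) + 1 + 2 * s) = (n : ℂ) ^ (2 * r + 1) * ((n : ℂ) ^ s * (n : ℂ) ^ s) := by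
    rw [two_mul s, Complex.cpow_add _ (s + s) hn0, Complex.cpow_add s s hn0,
      ← Complex.cpow_natCast]
    push_cast
    rfl
  unfold gE
  have h2 : ((Complex.normSq ((n : ℂ) * z) : ℝ) : ℂ) ^ (-s) =
      ((n : ℂ) ^ s * (n : ℂ) ^ s)⁻¹ * ((Complex.normSq z : ℝ) : ℂ) ^ (-s) := by
    rw [Complex.normSq_mul, Complex.normSq_natCast, Complex.ofReal_mul,
      Complex.mul_cpow_ofReal_nonneg (by positivity) (Complex.normSq_nonneg _),
      Complex.ofReal_mul, Complex.mul_cpow_ofReal_nonneg (by positivity) (by positivity),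
      Complex.ofReal_natCast, Complex.cpow_neg, mul_inv]
  rw [h1, h2, mul_pow, mul_inv, mul_inv]
  ring

/-- Absolute convergence over all pairs. -/
lemma summable_pairs (r : ℕ) (s u : ℂ) (hs : 1 / 2 - (r : ℝ) < s.re) (hu : 0 < u.im) :
    Summable fun p : ℤ × ℤ => ‖gE r s ((p.1 : ℂ) * u + p.2)‖ := by
  have hk : 2 < (2 * r + 1 : ℝ) + 2 * s.re := by linarith
  have h1 := EisensteinSeries.summable_one_div_norm_rpow hk
  have h2 : Summable fun p : ℤ × ℤ =>
      ‖gE r s (((finTwoArrowEquiv ℤ).symm p 0 : ℂ) * u + (finTwoArrowEquiv ℤ).symm p 1)‖ := by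
    have h3 : Summable fun x : Fin 2 → ℤ => ‖gE r s ((x 0 : ℂ) * u + x 1)‖ := by
      refine Summable.of_nonneg_of_le (fun _ => norm_nonneg _) (fun x => ?_)
        (h1.mul_left ((EisensteinSeries.r ⟨u, hu⟩) ^ (-((2 * r + 1 : ℝ) + 2 * s.re))))
      refine (norm_gE_le r s _).trans ?_
      exact EisensteinSeries.summand_bound ⟨u, hu⟩ (by linarith) x
    exact h3.comp_injective (finTwoArrowEquiv ℤ).symm.injective
  simpa using h2

section

variable {q : ℕ} [NeZero q] (χ : DirichletCharacter ℂ q)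

lemma norm_chi_le (a : ZMod q) (z : ℂ) : ‖χ a * z‖ ≤ ‖z‖ := by
  rw [norm_mul]
  exact mul_le_of_le_one_left (norm_nonneg _) (χ.norm_le_one a)

/-- The terms of the double series. -/
noncomputable def HK (r : ℕ) (s u : ℂ) (p : ℤ × ℤ) : ℂ :=
  χ (p.2 : ℤ) * gE r s ((q : ℂ) * ((p.1 : ℂ) * u) + p.2)

/-- The terms of the double series over all pairs. -/
noncomputable def HC (r : ℕ) (s u : ℂ) (p : ℤ × ℤ) : ℂ :=
  (if (q : ℤ) ∣ p.1 then χ (p.2 : ℤ) else 0) * gE r s ((p.1 : ℂ) * u + p.2)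

variable (r : ℕ) (s u : ℂ)

lemma inj_q : Function.Injective fun p : ℤ × ℤ => (((q : ℤ) * p.1, p.2) : ℤ × ℤ) := by
  rintro ⟨a, b⟩ ⟨c, d⟩ h
  simp only [Prod.mk.injEq] at h
  have hq : (q : ℤ) ≠ 0 := by exact_mod_cast NeZero.ne q
  rw [mul_left_cancel₀ hq h.1, h.2]

lemma summable_HK (hs : 1 / 2 - (r : ℝ) < s.re) (hu : 0 < u.im) :
    Summable fun p : ℤ × ℤ => ‖HK χ r s u p‖ := by
  have h1 := (summable_pairs r s u hs hu).comp_injective (inj_q (q := q))
  refine Summable.of_nonneg_of_le (fun _ => norm_nonneg _) (fun p => ?_) h1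
  unfold HK
  refine (norm_chi_le χ _ _).trans (le_of_eq ?_)
  simp only [Function.comp_apply]
  push_cast
  rw [mul_assoc]

lemma summable_HC (hs : 1 / 2 - (r : ℝ) < s.re) (hu : 0 < u.im) :
    Summable fun p : ℤ × ℤ => ‖HC χ r s u p‖ := by
  refine Summable.of_nonneg_of_le (fun _ => norm_nonneg _) (fun p => ?_)
    (summable_pairs r s u hs hu)
  unfold HC
  split_ifs
  · exact norm_chi_le χ _ _
  · rw [zero_mul, norm_zero]
    exact norm_nonneg _

lemma tsum_HK_HC : ∑' p : ℤ × ℤ, HK χ r s u p = ∑' p : ℤ × ℤ, HC χ r s u p := by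
  rw [← (inj_q (q := q)).tsum_eq (f := HC χ r s u)]
  · refine tsum_congr fun p => ?_
    unfold HK HC
    simp only [dvd_mul_right, if_true]
    push_cast
    rw [mul_assoc]
  · rintro ⟨a, b⟩ h
    rw [Function.mem_support] at h
    unfold HC at h
    by_cases hd : (q : ℤ) ∣ a
    · obtain ⟨c, rfl⟩ := hd
      exact ⟨(c, b), rfl⟩
    · simp only [hd, if_false, zero_mul, ne_eq, not_true_eq_false] at h

/-- Pairs and their greatest common divisor. -/
lemma inj_gcd : Function.Injective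
    fun p : ℕ+ × Cop => ((((p.1 : ℕ) : ℤ) * p.2.1.1, ((p.1 : ℕ) : ℤ) * p.2.1.2) : ℤ × ℤ) := by
  rintro ⟨m, ⟨⟨a, b⟩, hab⟩⟩ ⟨n, ⟨⟨c, d⟩, hcd⟩⟩ h
  simp only [Prod.mk.injEq] at h
  obtain ⟨h1, h2⟩ := h
  have e1 : Int.gcd (((m : ℕ) : ℤ) * a) (((m : ℕ) : ℤ) * b) = (m : ℕ) := by
    rw [Int.gcd_mul_left, Int.isCoprime_iff_gcd_eq_one.mp hab]
    simp
  have e2 : Int.gcd (((n : ℕ) : ℤ) * c) (((n : ℕ) : ℤ) * d) = (n : ℕ) := by
    rw [Int.gcd_mul_left, Int.isCoprime_iff_gcd_eq_one.mp hcd]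
    simp
  rw [h1, h2, e2] at e1
  have e3 : n = m := PNat.coe_injective e1
  subst e3
  have hn : ((n : ℕ) : ℤ) ≠ 0 := by exact_mod_cast n.ne_zero
  have h3 := mul_left_cancel₀ hn h1
  have h4 := mul_left_cancel₀ hn h2
  subst h3 h4
  rfl

lemma HC_gcd (hq : q.Prime) (n : ℕ) (v : ℤ × ℤ) :
    HC χ r s u ((n : ℤ) * v.1, (n : ℤ) * v.2) =
      LSeries.term (fun k => χ (k : ZMod q)) (2 * r + 1 + 2 * s) n * HC χ r s u v := by
  rcases Nat.eq_zero_or_pos n with rfl | hn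
  · simp [HC, gE_zero]
  · rw [LSeries.term_of_ne_zero hn.ne']
    unfold HC
    have e1 : ((((n : ℤ) * v.1 : ℤ) : ℂ) * u + (((n : ℤ) * v.2 : ℤ) : ℂ)) =
        (n : ℂ) * ((v.1 : ℂ) * u + v.2) := by
      push_cast
      ring
    simp only
    rw [e1, gE_mul r s _ n hn]
    by_cases hd : q ∣ n
    · have h0 : χ ((n : ℕ) : ZMod q) = 0 := by
        rw [(ZMod.natCast_eq_zero_iff n q).mpr hd]
        haveI : Fact q.Prime := ⟨hq⟩
        exact χ.map_zero
      have h1 : χ ((((n : ℤ) * v.2 : ℤ)) : ZMod q) = 0 := by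
        push_cast
        rw [map_mul, h0, zero_mul]
      rw [h0, h1]
      simp
    · have h2 : (q : ℤ) ∣ (n : ℤ) * v.1 ↔ (q : ℤ) ∣ v.1 := by
        constructor
        · intro h
          have hp : Prime (q : ℤ) := Nat.prime_iff_prime_int.mp hq
          rcases hp.dvd_or_dvd h with h3 | h3
          · exact absurd (by exact_mod_cast h3) hd
          · exact h3
        · intro h
          exact h.mul_left _
      simp only [h2]
      split_ifs
      · push_cast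
        rw [map_mul, div_eq_mul_inv]
        ring
      · ring

lemma tsum_HC (hq : q.Prime) (hs : 1 / 2 - (r : ℝ) < s.re) (hu : 0 < u.im)
    (hL : Summable fun n => ‖LSeries.term (fun k => χ (k : ZMod q)) (2 * r + 1 + 2 * s) n‖) :
    ∑' p : ℤ × ℤ, HC χ r s u p =
      LSeries (fun k => χ (k : ZMod q)) (2 * r + 1 + 2 * s) * ∑' v : Cop, HC χ r s u v.1 := by
  have hc : Summable fun v : Cop => ‖HC χ r s u v.1‖ :=
    (summable_HC χ r s u hs hu).comp_injective Subtype.val_injective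
  rw [LSeries, tsum_mul_tsum_of_summable_norm hL hc, ← inj_gcd.tsum_eq (f := HC χ r s u)]
  · have hi : Function.Injective fun p : ℕ+ × Cop => (((p.1 : ℕ), p.2) : ℕ × Cop) := by
      rintro ⟨m, v⟩ ⟨n, w⟩ h
      simp only [Prod.mk.injEq] at h
      rw [PNat.coe_injective h.1, h.2]
    rw [← hi.tsum_eq]
    · exact tsum_congr fun p => HC_gcd χ r s u hq p.1 p.2.1
    · rintro ⟨n, v⟩ h
      rcases Nat.eq_zero_or_pos n with rfl | hn
      · simp at h
      · exact ⟨(⟨n, hn⟩, v), rfl⟩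
  · rintro ⟨a, b⟩ h
    by_cases h0 : a = 0 ∧ b = 0
    · obtain ⟨rfl, rfl⟩ := h0
      simp [HC, gE_zero] at h
    · have hg : 0 < Int.gcd a b := by
        rw [Int.gcd_pos_iff]
        tauto
      refine ⟨(⟨Int.gcd a b, hg⟩, ⟨(a / Int.gcd a b, b / Int.gcd a b), ?_⟩), ?_⟩
      · rw [Int.isCoprime_iff_gcd_eq_one]
        exact Int.gcd_ediv_gcd_ediv_gcd hg
      · simp only [PNat.mk_coe, Prod.mk.injEq]
        exact ⟨Int.mul_ediv_cancel' (Int.gcd_dvd_left ..),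
          Int.mul_ediv_cancel' (Int.gcd_dvd_right ..)⟩

/-- Even functions on the integers. -/
lemma tsum_even (f : ℤ → ℂ) (hf : Summable f) (he : ∀ n, f (-n) = f n) :
    ∑' n, f n = f 0 + 2 * ∑' n : ℕ, f ((n : ℤ) + 1) := by
  have h1 : Summable fun n : ℕ => f n := hf.comp_injective Nat.cast_injective
  have h2 : Summable fun n : ℕ => f (-((n : ℤ) + 1)) := by
    refine hf.comp_injective ?_
    intro a b h
    simp only [neg_inj, add_left_inj, Nat.cast_inj] at h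
    exact h
  rw [tsum_of_nat_of_neg_add_one h1 h2, h1.tsum_eq_zero_add]
  simp only [he]
  push_cast
  ring

lemma HK_neg (hodd : χ (-1) = -1) (p : ℤ × ℤ) : HK χ r s u (-p.1, -p.2) = HK χ r s u p := by
  unfold HK
  have e1 : (q : ℂ) * (((-p.1 : ℤ) : ℂ) * u) + ((-p.2 : ℤ) : ℂ) =
      -((q : ℂ) * ((p.1 : ℂ) * u) + p.2) := by
    push_cast
    ring
  have e2 : χ ((-p.2 : ℤ) : ZMod q) = -χ ((p.2 : ℤ) : ZMod q) := by
    push_cast
    rw [← neg_one_mul, map_mul, hodd, neg_one_mul]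
  simp only
  rw [e1, e2, gE_neg]
  ring

lemma tsum_HK (hodd : χ (-1) = -1) (hs : 1 / 2 - (r : ℝ) < s.re) (hu : 0 < u.im)
    (hL : Summable fun n => ‖LSeries.term (fun k => χ (k : ZMod q)) (2 * r + 1 + 2 * s) n‖) :
    ∑' p : ℤ × ℤ, HK χ r s u p =
      2 * (LSeries (fun k => χ (k : ZMod q)) (2 * r + 1 + 2 * s) +
        ∑' p : ℕ × ℤ, HK χ r s u ((p.1 : ℤ) + 1, p.2)) := by
  have hS : Summable (HK χ r s u) := (summable_HK χ r s u hs hu).of_norm
  have hF : Summable fun m : ℤ => ∑' d : ℤ, HK χ r s u (m, d) := hS.prod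
  have hin : Function.Injective fun p : ℕ × ℤ => (((p.1 : ℤ) + 1, p.2) : ℤ × ℤ) := by
    rintro ⟨a, b⟩ ⟨c, d⟩ h
    simp only [Prod.mk.injEq, add_left_inj, Nat.cast_inj] at h
    rw [h.1, h.2]
  have hJ : ∑' p : ℕ × ℤ, HK χ r s u ((p.1 : ℤ) + 1, p.2) =
      ∑' (n : ℕ) (d : ℤ), HK χ r s u ((n : ℤ) + 1, d) := (hS.comp_injective hin).tsum_prod
  rw [hS.tsum_prod, tsum_even _ hF, hJ, mul_add]
  · congr 1
    have hG : Summable fun d : ℤ => HK χ r s u (0, d) :=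
      hS.comp_injective (Prod.mk_right_injective 0)
    rw [tsum_even _ hG]
    · have h0 : HK χ r s u (0, 0) = 0 := by
        simp [HK, gE_zero]
      rw [h0, zero_add, LSeries, hL.of_norm.tsum_eq_zero_add, LSeries.term_zero, zero_add]
      congr 1
      refine tsum_congr fun n => ?_
      rw [LSeries.term_of_ne_zero (Nat.succ_ne_zero n)]
      have e1 : (q : ℂ) * (((0 : ℤ) : ℂ) * u) + (((n : ℤ) + 1 : ℤ) : ℂ) = ((n + 1 : ℕ) : ℂ) * 1 := by
        push_cast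
        ring
      have e2 : gE r s 1 = 1 := by
        simp [gE]
      unfold HK
      simp only
      rw [e1, gE_mul r s 1 (n + 1) (Nat.succ_pos n), e2, mul_one, div_eq_mul_inv]
      push_cast
      rfl
    · intro n
      have := HK_neg χ r s u hodd (0, n)
      simpa using this
  · intro n
    rw [← (Equiv.neg ℤ).tsum_eq]
    exact tsum_congr fun d => HK_neg χ r s u hodd (n, d)

/-- The sum of the corrected terms. -/
lemma tsum_dE (hs : 1 / 2 - (r : ℝ) < s.re) (hu : 0 < u.im) :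
    ∑' p : ℕ × ℤ, dE q χ r s (q * (((p.1 : ℂ) + 1) * u + p.2)) =
      ∑' p : ℕ × ℤ, HK χ r s u ((p.1 : ℤ) + 1, p.2) := by
  have hq0 : (q : ℤ) ≠ 0 := by exact_mod_cast NeZero.ne q
  -- the terms without the character
  let G : ℕ × ℤ → ℂ := fun p => gE r s ((q : ℂ) * (((p.1 : ℂ) + 1) * u) + p.2)
  have hin : Function.Injective fun p : ℕ × ℤ => (((q : ℤ) * ((p.1 : ℤ) + 1), p.2) : ℤ × ℤ) := by
    rintro ⟨a, b⟩ ⟨c, d⟩ h
    simp only [Prod.mk.injEq] at h
    have h1 := mul_left_cancel₀ hq0 h.1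
    simp only [add_left_inj, Nat.cast_inj] at h1
    rw [h1, h.2]
  have hG : Summable fun p => ‖G p‖ := by
    have := (summable_pairs r s u hs hu).comp_injective hin
    refine this.congr fun p => ?_
    simp only [Function.comp_apply, G]
    push_cast
    rw [mul_assoc]
  have hK : Summable fun p : ℕ × ℤ => HK χ r s u ((p.1 : ℤ) + 1, p.2) := by
    have hin2 : Function.Injective fun p : ℕ × ℤ => (((p.1 : ℤ) + 1, p.2) : ℤ × ℤ) := by
      rintro ⟨a, b⟩ ⟨c, d⟩ h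
      simp only [Prod.mk.injEq, add_left_inj, Nat.cast_inj] at h
      rw [h.1, h.2]
    exact (summable_HK χ r s u hs hu).of_norm.comp_injective hin2
  have hKG : ∀ p : ℕ × ℤ, HK χ r s u ((p.1 : ℤ) + 1, p.2) = χ (p.2 : ZMod q) * G p := by
    intro p
    simp only [HK, G]
    push_cast
    rfl
  -- regroup by residues
  let e : (ℕ × ℤ) × Fin q ≃ ℕ × ℤ :=
    (Equiv.prodAssoc ℕ ℤ (Fin q)).trans ((Equiv.refl ℕ).prodCongr (Int.divModEquiv q).symm)
  have he : ∀ p : (ℕ × ℤ) × Fin q, e p = (p.1.1, p.1.2 * q + (p.2 : ℕ)) := fun p => rfl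
  have hA : ∑' p : ℕ × ℤ, HK χ r s u ((p.1 : ℤ) + 1, p.2) =
      ∑' p : ℕ × ℤ, ∑ a ∈ Finset.range q, χ (a : ZMod q) * G (p.1, q * p.2 + a) := by
    have hE : ∑' p : (ℕ × ℤ) × Fin q, HK χ r s u (((e p).1 : ℤ) + 1, (e p).2) =
        ∑' (p : ℕ × ℤ) (a : Fin q), HK χ r s u (((e (p, a)).1 : ℤ) + 1, (e (p, a)).2) :=
      (e.summable_iff.mpr hK).tsum_prod
    rw [← e.tsum_eq, hE]
    refine tsum_congr fun p => ?_
    rw [tsum_fintype, Finset.sum_range]
    refine Finset.sum_congr rfl fun a _ => ?_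
    rw [he, hKG]
    simp only
    rw [mul_comm p.2 (q : ℤ)]
    push_cast
    rw [ZMod.natCast_self, zero_mul, zero_add]
  have hsum : ∀ a : ℤ, Summable fun p : ℕ × ℤ => G (p.1, q * p.2 + a) := by
    intro a
    have hin3 : Function.Injective fun p : ℕ × ℤ => ((p.1, (q : ℤ) * p.2 + a) : ℕ × ℤ) := by
      rintro ⟨x, y⟩ ⟨z, w⟩ h
      simp only [Prod.mk.injEq, add_left_inj] at h
      rw [h.1, mul_left_cancel₀ hq0 h.2]
    exact hG.of_norm.comp_injective hin3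
  have hB : ∑' p : ℕ × ℤ, G (p.1, q * p.2 + q) = ∑' p : ℕ × ℤ, G (p.1, q * p.2 + 0) := by
    rw [← ((Equiv.refl ℕ).prodCongr (Equiv.addRight (1 : ℤ))).tsum_eq
      (fun p : ℕ × ℤ => G (p.1, q * p.2 + 0))]
    refine tsum_congr fun p => ?_
    simp only [Equiv.prodCongr_apply, Equiv.coe_refl, Equiv.coe_addRight, Prod.map_fst,
      Prod.map_snd, id_eq]
    congr 2
    ring
  have hC : Summable fun p : ℕ × ℤ =>
      ∑ a ∈ Finset.range q, χ (a : ZMod q) * G (p.1, q * p.2 + a) :=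
    summable_sum fun a _ => (hsum a).mul_left _
  have hD : ∀ p : ℕ × ℤ, dE q χ r s (q * (((p.1 : ℂ) + 1) * u + p.2)) =
      (∑ a ∈ Finset.range q, χ (a : ZMod q) * G (p.1, q * p.2 + a)) -
        (∑ a ∈ Finset.range q, χ (a : ZMod q) * a) / q *
          (G (p.1, q * p.2 + q) - G (p.1, q * p.2 + 0)) := by
    intro p
    unfold dE
    simp only [G]
    push_cast
    congr 1
    · refine Finset.sum_congr rfl fun a _ => ?_
      congr 2
      ring
    · congr 3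
      · ring
      · ring
  rw [tsum_congr hD, hC.tsum_sub (((hsum q).sub (hsum 0)).mul_left _), tsum_mul_left,
    (hsum q).tsum_sub (hsum 0), hB, sub_self, mul_zero, sub_zero, hA]

end

end EisBigAux

open EisBigAux in
/-- (B12) the Eisenstein series as a sum over coprime pairs. -/
theorem stEisBig : StEisBig := by
  intro q _ χ r hq hq2 hχ hneg s u hs hu
  have hodd : χ (-1) = -1 := by
    have h := hχ (-1)
    rw [hneg] at h
    push_cast at h
    exact h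
  have hre : 1 < (2 * (r : ℂ) + 1 + 2 * s).re := by
    have h1 : (2 * (r : ℂ) + 1 + 2 * s).re = 2 * (r : ℝ) + 1 + 2 * s.re := by
      simp
    rw [h1]
    linarith
  have hL : Summable fun n =>
      ‖LSeries.term (fun k => χ (k : ZMod q)) (2 * r + 1 + 2 * s) n‖ :=
    (DirichletCharacter.LSeriesSummable_of_one_lt_re χ hre).norm
  refine ⟨(summable_pairs r s u hs hu).comp_injective Subtype.val_injective, ?_⟩
  have h1 : eis q χ r s u = (u.im : ℂ) ^ s * (1 / 2 *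
      (DirichletCharacter.LFunction χ (2 * r + 1 + 2 * s) * ∑' v : Cop, HC χ r s u v.1)) := by
    unfold eis
    rw [tsum_dE χ r s u hs hu, DirichletCharacter.LFunction_eq_LSeries χ hre,
      ← tsum_HC χ r s u hq hs hu hL, ← tsum_HK_HC, tsum_HK χ r s u hodd hs hu hL]
    ring
  have h2 : ∑' v : Cop, (if (q : ℤ) ∣ v.1.1 then χ (v.1.2 : ℤ) else 0) *
      (((v.1.1 : ℂ) * u + v.1.2) ^ (2 * r + 1))⁻¹ *
      ((Complex.normSq ((v.1.1 : ℂ) * u + v.1.2) : ℝ) : ℂ) ^ (-s) * (u.im : ℂ) ^ s =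
      (∑' v : Cop, HC χ r s u v.1) * (u.im : ℂ) ^ s := by
    rw [← tsum_mul_right]
    refine tsum_congr fun v => ?_
    unfold HC gE
    ring
  rw [h1, h2]
  ring

end RZ

end Pool.Agent.Lib.MP_7c08ba_nt
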