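import Pool.Agent.Lib.MP_7c08ba_nt.RZ.StR
import Pool.Agent.Lib.MP_7c08ba_nt.RZ.EisBig

set_option autoImplicit false

/-!
Module R4 of RANK ONE: the trace for prime `D` in the region of convergence.
-/

namespace Pool.Agent.Lib.MP_7c08ba_nt

namespace RZ

open NumberField MeasureTheory UpperHalfPlane Set IsDedekindDomain
open scoped MatrixGroups ComplexConjugate nonZeroDivisors

namespace TrSAux

open EisBigAux

lemma inv_cpow_neg (b : ℝ) (hb : 0 < b) (t : ℂ) : ((b⁻¹ : ℝ) : ℂ) ^ (-t) = (b : ℂ) ^ t := by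
  rw [Complex.ofReal_inv, Complex.inv_cpow _ _ (by
    rw [Complex.arg_ofReal_of_nonneg hb.le]
    exact Real.pi_pos.ne), Complex.cpow_neg, inv_inv]

lemma gE_div (r : ℕ) (t x v : ℂ) (hv : v ≠ 0) : gE r t (x / v) =
    v ^ (2 * r + 1) * ((Complex.normSq v : ℝ) : ℂ) ^ t * gE r t x := by
  have hN : 0 < Complex.normSq v := Complex.normSq_pos.mpr hv
  unfold gE
  rw [Complex.normSq_div, div_eq_mul_inv (Complex.normSq x), Complex.ofReal_mul,
    Complex.mul_cpow_ofReal_nonneg (Complex.normSq_nonneg _) (inv_nonneg.mpr hN.le),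
    inv_cpow_neg _ hN, div_pow, inv_div, div_eq_mul_inv]
  ring

lemma neg_one_div_im (v : ℂ) : (-1 / v).im = v.im / Complex.normSq v := by
  rw [neg_div, one_div, Complex.neg_im, Complex.inv_im, neg_div, neg_neg]

section

variable {q : ℕ} [NeZero q] (χ : DirichletCharacter ℂ q) (r : ℕ) (t : ℂ)

/-- The terms of the double series, other order. -/
noncomputable def KK (v : ℂ) (p : ℤ × ℤ) : ℂ :=
  χ (p.2 : ℤ) * gE r t ((p.2 : ℂ) * v + (q : ℂ) * p.1)

lemma inj_sw : Function.Injective fun p : ℤ × ℤ => ((p.2, (q : ℤ) * p.1) : ℤ × ℤ) := by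
  rintro ⟨a, b⟩ ⟨c, d⟩ h
  simp only [Prod.mk.injEq] at h
  have hq : (q : ℤ) ≠ 0 := by exact_mod_cast NeZero.ne q
  rw [mul_left_cancel₀ hq h.2, h.1]

lemma summable_KK (v : ℂ) (ht : 1 / 2 - (r : ℝ) < t.re) (hv : 0 < v.im) :
    Summable (KK χ r t v) := by
  have h1 := (summable_pairs r t v ht hv).comp_injective (inj_sw (q := q))
  refine Summable.of_norm (Summable.of_nonneg_of_le (fun _ => norm_nonneg _) (fun p => ?_) h1)
  unfold KK
  refine (norm_chi_le χ _ _).trans (le_of_eq ?_)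
  simp only [Function.comp_apply]
  push_cast
  rfl

lemma KK_neg (hodd : χ (-1) = -1) (v : ℂ) (p : ℤ × ℤ) :
    KK χ r t v (-p.1, -p.2) = KK χ r t v p := by
  unfold KK
  have e1 : ((-p.2 : ℤ) : ℂ) * v + (q : ℂ) * ((-p.1 : ℤ) : ℂ) =
      -((p.2 : ℂ) * v + (q : ℂ) * p.1) := by
    push_cast
    ring
  have e2 : χ ((-p.2 : ℤ) : ZMod q) = -χ ((p.2 : ℤ) : ZMod q) := by
    push_cast
    rw [← neg_one_mul, map_mul, hodd, neg_one_mul]
  simp only
  rw [e1, e2, gE_neg]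
  ring

/-- The sum over all pairs in terms of the positive second entries. -/
lemma tsum_KK (h0 : χ 0 = 0) (hodd : χ (-1) = -1) (v : ℂ) (ht : 1 / 2 - (r : ℝ) < t.re)
    (hv : 0 < v.im) :
    ∑' p : ℤ × ℤ, KK χ r t v p = 2 * ∑' p : ℕ × ℤ, KK χ r t v (p.2, (p.1 : ℤ) + 1) := by
  have hS : Summable (KK χ r t v) := summable_KK χ r t v ht hv
  have hS' : Summable fun p : ℤ × ℤ => KK χ r t v (p.2, p.1) :=
    hS.comp_injective (Equiv.prodComm ℤ ℤ).injective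
  have hF : Summable fun m : ℤ => ∑' c : ℤ, KK χ r t v (c, m) := hS'.prod
  have hin : Function.Injective fun p : ℕ × ℤ => (((p.1 : ℤ) + 1, p.2) : ℤ × ℤ) := by
    rintro ⟨a, b⟩ ⟨c, d⟩ h
    simp only [Prod.mk.injEq, add_left_inj, Nat.cast_inj] at h
    rw [h.1, h.2]
  have hJ : ∑' p : ℕ × ℤ, KK χ r t v (p.2, (p.1 : ℤ) + 1) =
      ∑' (n : ℕ) (c : ℤ), KK χ r t v (c, (n : ℤ) + 1) := (hS'.comp_injective hin).tsum_prod
  have hsw : ∑' p : ℤ × ℤ, KK χ r t v p = ∑' p : ℤ × ℤ, KK χ r t v (p.2, p.1) :=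
    ((Equiv.prodComm ℤ ℤ).tsum_eq (KK χ r t v)).symm
  rw [hsw, hS'.tsum_prod, tsum_even _ hF, hJ]
  · have hz : ∑' c : ℤ, KK χ r t v (c, 0) = 0 := by
      have : ∀ c : ℤ, KK χ r t v (c, 0) = 0 := by
        intro c
        unfold KK
        simp only [Int.cast_zero]
        rw [h0, zero_mul]
      simp only [this, tsum_zero]
    rw [hz, zero_add]
  · intro n
    rw [← (Equiv.neg ℤ).tsum_eq]
    exact tsum_congr fun d => KK_neg χ r t hodd v (d, n)

/-- The Eisenstein series as a sum over all pairs. -/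
lemma eis_eq (hodd : χ (-1) = -1) (u : ℂ) (ht : 1 / 2 - (r : ℝ) < t.re) (hu : 0 < u.im) :
    eis q χ r t u = (u.im : ℂ) ^ t * (1 / 2 * ∑' p : ℤ × ℤ, HK χ r t u p) := by
  have hre : 1 < (2 * (r : ℂ) + 1 + 2 * t).re := by
    have h1 : (2 * (r : ℂ) + 1 + 2 * t).re = 2 * (r : ℝ) + 1 + 2 * t.re := by
      simp
    rw [h1]
    linarith
  have hL : Summable fun n =>
      ‖LSeries.term (fun k => χ (k : ZMod q)) (2 * r + 1 + 2 * t) n‖ :=
    (DirichletCharacter.LSeriesSummable_of_one_lt_re χ hre).norm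
  unfold eis
  rw [tsum_dE χ r t u ht hu, DirichletCharacter.LFunction_eq_LSeries χ hre,
    tsum_HK χ r t u hodd ht hu hL]
  ring

lemma HK_inv (v : ℂ) (hv : 0 < v.im) (p : ℤ × ℤ) : HK χ r t (-1 / v) (-p.1, p.2) =
    v ^ (2 * r + 1) * ((Complex.normSq v : ℝ) : ℂ) ^ t * KK χ r t v p := by
  have hv0 : v ≠ 0 := by
    rintro rfl
    simp at hv
  unfold HK KK
  have e1 : (q : ℂ) * (((-p.1 : ℤ) : ℂ) * (-1 / v)) + (p.2 : ℂ) =
      ((p.2 : ℂ) * v + (q : ℂ) * p.1) / v := by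
    push_cast
    field_simp
    ring
  simp only
  rw [e1, gE_div r t _ v hv0]
  ring

/-- The Eisenstein series at `-1 / v`. -/
lemma eis_inv (h0 : χ 0 = 0) (hodd : χ (-1) = -1) (v : ℂ) (ht : 1 / 2 - (r : ℝ) < t.re)
    (hv : 0 < v.im) :
    eis q χ r t (-1 / v) = (v.im : ℂ) ^ t * (v ^ (2 * r + 1) *
      ∑' p : ℕ × ℤ, KK χ r t v (p.2, (p.1 : ℤ) + 1)) := by
  have hv0 : v ≠ 0 := by
    rintro rfl
    simp at hv
  have hN : 0 < Complex.normSq v := Complex.normSq_pos.mpr hv0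
  have him : 0 < (-1 / v).im := by
    rw [neg_one_div_im]
    exact div_pos hv hN
  rw [eis_eq χ r t hodd _ ht him]
  have h1 : ∑' p : ℤ × ℤ, HK χ r t (-1 / v) p =
      v ^ (2 * r + 1) * ((Complex.normSq v : ℝ) : ℂ) ^ t *
        (2 * ∑' p : ℕ × ℤ, KK χ r t v (p.2, (p.1 : ℤ) + 1)) := by
    rw [← tsum_KK χ r t h0 hodd v ht hv, ← tsum_mul_left,
      ← ((Equiv.neg ℤ).prodCongr (Equiv.refl ℤ)).tsum_eq (HK χ r t (-1 / v))]
    exact tsum_congr fun p => HK_inv χ r t v hv p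
  have h2 : (((-1 / v).im : ℝ) : ℂ) ^ t * ((Complex.normSq v : ℝ) : ℂ) ^ t = (v.im : ℂ) ^ t := by
    rw [← Complex.mul_cpow_ofReal_nonneg him.le hN.le, neg_one_div_im, ← Complex.ofReal_mul,
      div_mul_cancel₀ _ hN.ne']
  rw [h1, ← h2]
  ring

/-- The Eisenstein series, absolutely convergent form. -/
lemma eis_fwd (u : ℂ) (ht : 1 / 2 - (r : ℝ) < t.re) (hu : 0 < u.im) :
    eis q χ r t u = (u.im : ℂ) ^ t * (DirichletCharacter.LFunction χ (2 * r + 1 + 2 * t) +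
      ∑' p : ℕ × ℤ, χ (p.2 : ZMod q) * gE r t (q * ((p.1 : ℂ) + 1) * u + p.2)) := by
  unfold eis
  rw [tsum_dE χ r t u ht hu]
  congr 2
  refine tsum_congr fun p => ?_
  unfold HK
  simp only
  push_cast
  rw [mul_assoc]

end

/-- `GT 1` is periodic. -/
lemma GT_add_one (r : ℕ) (g : ℕ → ℂ) (ρ : ℕ → ℂ) (t z : ℂ) :
    GT 1 r (fun c _ => g c) ρ t (z + 1) = GT 1 r (fun c _ => g c) ρ t z := by
  unfold GT
  have h1 : ∀ n : ℕ, ee (n * (z + 1)) = ee (n * z) := by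
    intro n
    unfold ee
    rw [Complex.exp_eq_exp_iff_exists_int]
    refine ⟨n, ?_⟩
    push_cast
    ring
  have h2 : (z + 1).im = z.im := by simp
  have h3 : ∑' p : ℕ × ℤ, g (p.1 + 1) * gE r t (((1 : ℕ) : ℂ) * ((p.1 : ℂ) + 1) * (z + 1) + p.2) =
      ∑' p : ℕ × ℤ, g (p.1 + 1) * gE r t (((1 : ℕ) : ℂ) * ((p.1 : ℂ) + 1) * z + p.2) := by
    rw [← (Equiv.prodShear (Equiv.refl ℕ) fun n : ℕ => Equiv.addRight ((n : ℤ) + 1)).tsum_eq
      (fun p : ℕ × ℤ => g (p.1 + 1) * gE r t (((1 : ℕ) : ℂ) * ((p.1 : ℂ) + 1) * z + p.2))]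
    refine tsum_congr fun p => ?_
    simp only [Equiv.prodShear_apply, Equiv.coe_refl, id_eq, Equiv.coe_addRight]
    congr 2
    push_cast
    ring
  simp only [h1, h2, h3]

/-- Sum over a complete system of residues. -/
lemma sum_shift (D : ℕ) (hD : 0 < D) (f : ℂ → ℂ) (hf : ∀ z, f (z + 1) = f z) (z : ℂ) :
    ∑ j ∈ Finset.range D, f ((z + j - 1) / D) = ∑ j ∈ Finset.range D, f ((z + j) / D) := by
  obtain ⟨n, rfl⟩ : ∃ n, D = n + 1 := ⟨D - 1, by omega⟩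
  rw [Finset.sum_range_succ', Finset.sum_range_succ]
  congr 1
  · refine Finset.sum_congr rfl fun j _ => ?_
    congr 2
    push_cast
    ring
  · rw [← hf]
    congr 1
    have : ((n + 1 : ℕ) : ℂ) ≠ 0 := by exact_mod_cast Nat.succ_ne_zero n
    field_simp
    push_cast
    ring

section

variable {F : Type} [Field F] [NumberField F]

lemma thψ_inv {σ : F →+* ℂ} {D : ℕ} (s : 𝓞 F) (χ : DirichletCharacter ℂ D) (cj : 𝓞 F ≃+* 𝓞 F)
    (k : ℕ) (ψ : Ideal (𝓞 F) →*₀ ℂ) (c : Reps σ) (hTh : StThGD) (hdat : DatD D s σ χ cj)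
    (hk : Even k) : Wq D χ (k + 1) (thψ k ψ c) := by
  intro g z hz hg
  unfold thψ
  rw [Finset.mul_sum, Finset.mul_sum, Finset.mul_sum]
  refine Finset.sum_congr rfl fun A _ => ?_
  rw [hTh D F _ _ s σ χ cj (c.R A : Ideal (𝓞 F)) k hdat (nonZeroDivisors.coe_ne_zero _) hk g z hz hg]
  ring

end

end TrSAux

open TrSAux EisBigAux in
/-- (R4) the trace, `D` prime, in the region of convergence. -/
theorem stTrS (h1 : StThK) (h2 : StThGD) (h3 : StEisLawD) (h4 : StPsiD) : StTrS := by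
  intro D _ F _ _ s σ χ cj w k r ψ c hdat hp hψ hw t z ht hz
  have hkev : Even k := (h4 D F _ _ s σ χ cj k ψ hdat hψ).1
  have hwev : Even w := by
    rw [hw]
    exact (hkev.add (even_two_mul r)).add even_two
  have hDpos : 0 < D := hp.pos
  have hD0 : (D : ℂ) ≠ 0 := by exact_mod_cast hDpos.ne'
  have h0 : χ 0 = 0 := by
    haveI : Fact D.Prime := ⟨hp⟩
    exact χ.map_zero
  have hodd : χ (-1) = -1 := by
    have h := hdat.chi (-1)
    rw [jacobiSym.at_neg_one (Nat.odd_iff.mpr (by have := hdat.odd.2.1; omega)),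
      ZMod.χ₄_nat_three_mod_four hdat.odd.2.1] at h
    push_cast at h
    exact h
  obtain ⟨-, -, -, -, hK⟩ := h1 D F _ _ s σ χ cj k ψ c hdat hψ
  -- invariance
  have hinv : ∀ (g : SL(2, ℤ)) (z : ℂ), 0 < z.im → (D : ℤ) ∣ g 1 0 → g 1 1 = 1 →
      HN D χ k r ψ c t (((g 0 0 : ℂ) * z + g 0 1) / ((g 1 0 : ℂ) * z + g 1 1)) =
        ((g 1 0 : ℂ) * z + g 1 1) ^ w * HN D χ k r ψ c t z := by
    intro g z hz hg h11
    unfold HN
    rw [thψ_inv s χ cj k ψ c h2 hdat hkev g z hz hg,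
      h3 D _ χ r hdat.odd hdat.chi t (by linarith) g z hz hg, h11]
    simp only [Int.cast_one, map_one]
    rw [hw, show k + 2 * r + 2 = (k + 1) + (2 * r + 1) by ring, pow_add]
    ring
  -- the term for the cusp infinity
  have hinf : HN D χ k r ψ c t z =
      DirichletCharacter.LFunction χ (2 * r + 1 + 2 * t) * (thψ k ψ c z * (z.im : ℂ) ^ t) +
      GT D r (fun _ d => χ (d : ZMod D)) (rT k ψ c) t z := by
    unfold HN GT
    rw [eis_fwd χ r t z ht hz, ← (hK z hz).2.1]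
    ring
  have hg1 : ((1 - (D : ℂ) * (z + ((0 : ℕ) : ℂ))) ^ w)⁻¹ *
      HN D χ k r ψ c t ((z + ((0 : ℕ) : ℂ)) / (1 - (D : ℂ) * (z + ((0 : ℕ) : ℂ)))) =
      HN D χ k r ψ c t z := by
    have hne : (1 - (D : ℂ) * z) ≠ 0 := by
      intro h
      have h5 := congrArg Complex.im h
      simp only [Complex.sub_im, Complex.one_im, Complex.mul_im, Complex.natCast_re,
        Complex.natCast_im, zero_mul, add_zero, zero_sub, Complex.zero_im] at h5
      have h6 : 0 < (D : ℝ) * z.im := mul_pos (by exact_mod_cast hDpos) hz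
      linarith
    have h5 := hinv ⟨!![1, 0; -(D : ℤ), 1], by simp [Matrix.det_fin_two]⟩ z hz (by simp) (by simp)
    have e1 : (((1 : ℤ) : ℂ) * z + ((0 : ℤ) : ℂ)) / (((-(D : ℤ) : ℤ) : ℂ) * z + ((1 : ℤ) : ℂ)) =
        z / (1 - (D : ℂ) * z) := by
      push_cast
      congr 1
      · ring
      · ring
    have e2 : ((-(D : ℤ) : ℤ) : ℂ) * z + ((1 : ℤ) : ℂ) = 1 - (D : ℂ) * z := by
      push_cast
      ring
    simp only [Matrix.SpecialLinearGroup.coe_mk, Matrix.of_apply, Matrix.cons_val', Matrix.cons_val_zero,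
      Matrix.cons_val_one, Matrix.cons_val_fin_one] at h5
    rw [e1, e2] at h5
    rw [Nat.cast_zero, add_zero, h5, ← mul_assoc, inv_mul_cancel₀ (pow_ne_zero _ hne), one_mul]
  -- periodicity
  have hper : ∀ u : ℂ, 0 < u.im → HN D χ k r ψ c t (u - 1) = HN D χ k r ψ c t u := by
    intro u hu
    have h5 := hinv ⟨!![1, -1; 0, 1], by simp [Matrix.det_fin_two]⟩ u hu (by simp) (by simp)
    simp only [Matrix.SpecialLinearGroup.coe_mk, Matrix.of_apply, Matrix.cons_val', Matrix.cons_val_zero,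
      Matrix.cons_val_one, Matrix.cons_val_fin_one] at h5
    have e1 : (((1 : ℤ) : ℂ) * u + ((-1 : ℤ) : ℂ)) / (((0 : ℤ) : ℂ) * u + ((1 : ℤ) : ℂ)) =
        u - 1 := by
      push_cast
      ring
    have e2 : ((0 : ℤ) : ℂ) * u + ((1 : ℤ) : ℂ) = 1 := by
      push_cast
      ring
    rw [e1, e2, one_pow, one_mul] at h5
    exact h5
  -- the terms for the cusp zero
  have hterm : ∀ v : ℂ, 0 < v.im → (v ^ w)⁻¹ * HN D χ k r ψ c t (-1 / v) =
      (-Complex.I / Real.sqrt D) * ((Complex.I * Real.sqrt D) ^ k)⁻¹ *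
        (D : ℂ) ^ (-(2 * (r : ℂ) + 1) - t) *
          GT 1 r (fun c _ => χ ((c : ℤ) : ZMod D)) (rT k ψ c) t (v / D) := by
    intro v hv
    have hv0 : v ≠ 0 := by
      rintro rfl
      simp at hv
    have hvD : 0 < (v / (D : ℂ)).im := by
      have : (v / (D : ℂ)).im = v.im / D := by
        rw [← Complex.ofReal_natCast, Complex.div_ofReal_im]
      rw [this]
      exact div_pos hv (by exact_mod_cast hDpos)
    have hsum : ∑' p : ℕ × ℤ, KK χ r t v (p.2, (p.1 : ℤ) + 1) =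
        ((D : ℂ) ^ (2 * (r : ℂ) + 1 + 2 * t))⁻¹ * ∑' p : ℕ × ℤ,
          χ (((p.1 + 1 : ℕ) : ℤ) : ZMod D) *
            gE r t (((1 : ℕ) : ℂ) * ((p.1 : ℂ) + 1) * (v / D) + p.2) := by
      rw [← tsum_mul_left]
      refine tsum_congr fun p => ?_
      unfold KK
      have e1 : (((p.1 : ℤ) + 1 : ℤ) : ℂ) * v + (D : ℂ) * (p.2 : ℂ) =
          (D : ℂ) * (((1 : ℕ) : ℂ) * ((p.1 : ℂ) + 1) * (v / D) + p.2) := by
        push_cast
        field_simp
      simp only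
      rw [e1, gE_mul r t _ D hDpos]
      push_cast
      ring
    have him : ((v.im : ℝ) : ℂ) ^ t = (D : ℂ) ^ t * (((v / (D : ℂ)).im : ℝ) : ℂ) ^ t := by
      have e1 : (v / (D : ℂ)).im = v.im / D := by
        rw [← Complex.ofReal_natCast, Complex.div_ofReal_im]
      have e2 : (D : ℂ) = ((D : ℝ) : ℂ) := by push_cast; rfl
      rw [e2, ← Complex.mul_cpow_ofReal_nonneg (Nat.cast_nonneg D) (by rw [← e2]; exact hvD.le),
        ← Complex.ofReal_mul, ← e2, e1, mul_div_cancel₀ _ (by exact_mod_cast hDpos.ne')]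
    have hpow : (D : ℂ) ^ (-(2 * (r : ℂ) + 1) - t) =
        (D : ℂ) ^ t * ((D : ℂ) ^ (2 * (r : ℂ) + 1 + 2 * t))⁻¹ := by
      rw [← Complex.cpow_neg, ← Complex.cpow_add _ _ hD0]
      congr 1
      ring
    unfold HN GT
    rw [(hK v hv).2.2, eis_inv χ r t h0 hodd v ht hv, hsum, him, ← (hK (v / D) hvD).2.1, hpow, hw,
      show k + 2 * r + 2 = (k + 1) + (2 * r + 1) by ring, pow_add v (k + 1) (2 * r + 1), mul_inv]
    have hv1 : v ^ (k + 1) ≠ 0 := pow_ne_zero _ hv0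
    have hv2 : v ^ (2 * r + 1) ≠ 0 := pow_ne_zero _ hv0
    field_simp
  have hterm' : ∀ j : ℕ, ((1 - ((1 : ℕ) : ℂ) * (z + (j : ℂ))) ^ w)⁻¹ *
      HN D χ k r ψ c t ((z + (j : ℂ)) / (1 - ((1 : ℕ) : ℂ) * (z + (j : ℂ)))) =
      (-Complex.I / Real.sqrt D) * ((Complex.I * Real.sqrt D) ^ k)⁻¹ *
        (D : ℂ) ^ (-(2 * (r : ℂ) + 1) - t) *
          GT 1 r (fun c _ => χ ((c : ℤ) : ZMod D)) (rT k ψ c) t ((z + j - 1) / D) := by
    intro j
    have hv : 0 < (z + j - 1 : ℂ).im := by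
      simpa using hz
    have hv0 : (z + j - 1 : ℂ) ≠ 0 := by
      intro h
      rw [h] at hv
      simp at hv
    have e1 : (1 - ((1 : ℕ) : ℂ) * (z + (j : ℂ))) = -(z + j - 1) := by
      push_cast
      ring
    have e2 : (z + (j : ℂ)) / (-(z + j - 1)) = -1 / (z + j - 1) - 1 := by
      field_simp
      ring
    have him : 0 < (-1 / (z + j - 1 : ℂ)).im := by
      rw [neg_one_div_im]
      exact div_pos hv (Complex.normSq_pos.mpr hv0)
    rw [e1, e2, hwev.neg_pow, hper _ him, hterm _ hv]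
  have hD1 : (1 : ℕ) ≠ D := hp.one_lt.ne
  unfold trD
  rw [hp.divisors, Finset.sum_pair hD1, Nat.div_one, Nat.div_self hDpos, Finset.sum_range_one, hg1,
    hinf, Finset.sum_congr rfl fun j _ => hterm' j, ← Finset.mul_sum,
    sum_shift D hDpos _ (GT_add_one r (fun c => χ ((c : ℤ) : ZMod D)) (rT k ψ c) t)]
  ring

end RZ

end Pool.Agent.Lib.MP_7c08ba_nt
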