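import Pool.Agent.Lib.MP_7c08ba_nt.RZ.StB

set_option autoImplicit false

/-! Module B1: oriented bases of ideals. -/

namespace Pool.Agent.Lib.MP_7c08ba_nt

namespace RZ

open NumberField MeasureTheory UpperHalfPlane Set
open scoped MatrixGroups ComplexConjugate nonZeroDivisors

namespace BaseAux

variable {F : Type} [Field F] [NumberField F] {q : ℕ} {s : 𝓞 F} {σ : F →+* ℂ}
  {χ : DirichletCharacter ℂ q} {cj : 𝓞 F ≃+* 𝓞 F}

lemma sqrt_pos (D : Dat q s σ χ cj) : 0 < Real.sqrt q :=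
  Real.sqrt_pos.mpr (by exact_mod_cast D.prime.pos)

/-- The second basis element of the ring of integers. -/
lemma exists_om (D : Dat q s σ χ cj) : ∃ ω : 𝓞 F, 2 * ω = 1 + s := by
  obtain ⟨k, hk⟩ : ∃ k : ℕ, q = 4 * k + 3 := ⟨q / 4, by have := D.mod; omega⟩
  have hs : (s : F) ^ 2 = -(4 * k + 3) := by
    have h1 := congrArg (fun x : 𝓞 F => (x : F)) D.sq
    have h2 : (((-(q : 𝓞 F) : 𝓞 F)) : F) = -(q : F) := by simp
    have h3 : (((s ^ 2 : 𝓞 F)) : F) = (s : F) ^ 2 := by simp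
    rw [← h3, D.sq, h2, hk]
    push_cast
    ring
  have hint : IsIntegral ℤ ((1 + (s : F)) / 2) := by
    refine ⟨Polynomial.X ^ 2 - Polynomial.X + Polynomial.C ((k : ℤ) + 1), by monicity!, ?_⟩
    simp only [Polynomial.eval₂_add, Polynomial.eval₂_sub, Polynomial.eval₂_pow,
      Polynomial.eval₂_X, Polynomial.eval₂_C]
    have : (algebraMap ℤ F) ((k : ℤ) + 1) = (k : F) + 1 := by simp
    rw [this]
    linear_combination (1 / 4 : F) * hs
  obtain ⟨w, hw⟩ : ∃ w : 𝓞 F, (w : F) = (1 + (s : F)) / 2 := ⟨⟨_, hint⟩, rfl⟩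
  refine ⟨w, ?_⟩
  apply RingOfIntegers.ext
  have h5 : (((2 * w : 𝓞 F)) : F) = 2 * (w : F) := by
    rw [two_mul, two_mul]
    exact map_add (algebraMap (𝓞 F) F) w w
  have h4 : (((1 + s : 𝓞 F)) : F) = 1 + (s : F) := by simp
  rw [h5, hw, h4]
  ring

/-- The data for the basis `1, ω`. -/
structure Om (D : Dat q s σ χ cj) (ω : 𝓞 F) : Prop where
  two : 2 * ω = 1 + s
  gen : ∀ x : 𝓞 F, ∃ a b : ℤ, x = a + b * ω
  sub : ω - cj ω = s
  sig : σ ω = (1 + Complex.I * Real.sqrt q) / 2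

lemma exists_Om (h : StBas) (D : Dat q s σ χ cj) : ∃ ω, Om D ω := by
  obtain ⟨h1, -, h3, -⟩ := h q F _ _ s σ χ cj D
  obtain ⟨ω, hω⟩ := exists_om D
  have h20 : (2 : 𝓞 F) ≠ 0 := two_ne_zero
  refine ⟨ω, hω, ?_, ?_, ?_⟩
  · intro x
    obtain ⟨a, b, h4, k, hk⟩ := h1 x
    refine ⟨k, b, mul_left_cancel₀ h20 ?_⟩
    have h5 : (a : 𝓞 F) = b + 2 * k := by
      have : a = b + 2 * k := by linarith
      rw [this]
      push_cast
      ring
    rw [h4, h5]
    linear_combination (-(b : 𝓞 F)) * hω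
  · apply mul_left_cancel₀ h20
    have h6 : cj (2 * ω) = cj (1 + s) := by rw [hω]
    rw [map_mul, map_add, map_one, map_ofNat, h3] at h6
    linear_combination hω - h6
  · have h7 : σ ((2 * ω : 𝓞 F) : F) = σ ((1 + s : 𝓞 F) : F) := by rw [hω]
    have h8 : σ ((2 * ω : 𝓞 F) : F) = 2 * σ ω := by
      rw [← map_ofNat σ 2, ← map_mul]
      congr 1
    have h9 : σ ((1 + s : 𝓞 F) : F) = 1 + σ s := by
      rw [← map_one σ, ← map_add]
      congr 1
    rw [h8, h9, D.im] at h7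
    rw [← h7]
    ring

lemma sig_add (x y : 𝓞 F) : σ ((x + y : 𝓞 F) : F) = σ x + σ y := by
  rw [← map_add]
  rfl

lemma sig_mul (x y : 𝓞 F) : σ ((x * y : 𝓞 F) : F) = σ x * σ y := by
  rw [← map_mul]
  rfl

lemma sig_int (n : ℤ) : σ (((n : 𝓞 F) : 𝓞 F) : F) = n := by
  have : (((n : 𝓞 F) : 𝓞 F) : F) = (n : F) := by simp
  rw [this, map_intCast]

lemma sig_comb (m n : ℤ) (x y : 𝓞 F) :
    σ (((m : 𝓞 F) * x + (n : 𝓞 F) * y : 𝓞 F) : F) = m * σ x + n * σ y := by
  rw [sig_add, sig_mul, sig_mul, sig_int, sig_int]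

/-- The imaginary part for combinations. -/
lemma im_comb (a b c d : ℤ) (z w : ℂ) :
    (((a : ℂ) * z + b * w) * conj ((c : ℂ) * z + d * w)).im = (a * d - b * c : ℤ) * (z * conj w).im := by
  have h1 : ((a : ℂ) * z + b * w) * conj ((c : ℂ) * z + d * w) =
      (a * c : ℤ) * (z * conj z) + (b * d : ℤ) * (w * conj w) + (a * d : ℤ) * (z * conj w) +
        (b * c : ℤ) * (w * conj z) := by
    simp only [map_add, map_mul, map_intCast]
    push_cast
    ring
  rw [h1]
  simp only [Complex.add_im, Complex.mul_conj, Complex.mul_im, Complex.intCast_im,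
    Complex.intCast_re, Complex.ofReal_im, Complex.conj_re, Complex.conj_im, zero_mul, add_zero,
    mul_zero, zero_add]
  push_cast
  ring

lemma im_conj_sig {D : Dat q s σ χ cj} {ω : 𝓞 F} (hω : Om D ω) :
    ((1 : ℂ) * conj (σ ω)).im = -(Real.sqrt q / 2) := by
  have : (1 + Complex.I * (Real.sqrt q : ℂ)) / 2 = ((1 / 2 : ℝ) : ℂ) +
      ((Real.sqrt q / 2 : ℝ) : ℂ) * Complex.I := by
    push_cast
    ring
  rw [one_mul, Complex.conj_im, hω.sig, this]
  simp only [Complex.add_im, Complex.ofReal_im, Complex.mul_im, Complex.I_re, Complex.I_im,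
    Complex.ofReal_re]
  ring

/-- Independence over the integers. -/
lemma indep {a : Ideal (𝓞 F)} {x y : 𝓞 F} (hB : OBasis σ a x y) (m n : ℤ)
    (h : (m : 𝓞 F) * x + (n : 𝓞 F) * y = 0) : m = 0 ∧ n = 0 := by
  have h1 := sig_comb (σ := σ) m n x y
  rw [h] at h1
  have h0 : σ (((0 : 𝓞 F) : 𝓞 F) : F) = 0 := by simp
  rw [h0] at h1
  have h2 := im_comb m n 0 1 (σ x) (σ y)
  have h3 := im_comb m n (-1) 0 (σ x) (σ y)
  rw [← h1] at h2 h3
  simp only [zero_mul, Complex.zero_im] at h2 h3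
  have hp := hB.pos
  constructor
  · rcases mul_eq_zero.mp h2.symm with h4 | h4
    · have : m * 1 - n * 0 = 0 := by exact_mod_cast h4
      linarith
    · exact absurd h4 hp.ne'
  · rcases mul_eq_zero.mp h3.symm with h4 | h4
    · have : m * 0 - n * (-1) = 0 := by exact_mod_cast h4
      linarith
    · exact absurd h4 hp.ne'

/-- The basis `1, ω`. -/
lemma exists_basis {D : Dat q s σ χ cj} {ω : 𝓞 F} (hω : Om D ω) :
    ∃ b : Module.Basis (Fin 2) ℤ (𝓞 F), b 0 = 1 ∧ b 1 = ω := by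
  have hli : LinearIndependent ℤ ![(1 : 𝓞 F), ω] := by
    rw [LinearIndependent.pair_iff]
    intro m n h
    rw [zsmul_eq_mul, zsmul_eq_mul] at h
    have h1 := sig_comb (σ := σ) m n 1 ω
    rw [h] at h1
    have h0 : σ (((0 : 𝓞 F) : 𝓞 F) : F) = 0 := by simp
    have h01 : σ (((1 : 𝓞 F) : 𝓞 F) : F) = 1 := by simp
    rw [h0, h01, hω.sig] at h1
    have h2 := congrArg Complex.im h1
    have h3 := congrArg Complex.re h1
    simp at h2 h3
    have hq := sqrt_pos D
    have hn : n = 0 := by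
      rcases h2 with h2 | h2
      · exact_mod_cast h2
      · exact absurd h2 D.prime.pos.ne'
    subst hn
    simp at h3
    exact ⟨by exact_mod_cast h3.symm, rfl⟩
  have hsp : ⊤ ≤ Submodule.span ℤ (Set.range ![(1 : 𝓞 F), ω]) := by
    intro x _
    obtain ⟨a, b, rfl⟩ := hω.gen x
    have h1 : (a : 𝓞 F) + b * ω = a • (![(1 : 𝓞 F), ω] 0) + b • (![(1 : 𝓞 F), ω] 1) := by
      simp [zsmul_eq_mul]
    rw [h1]
    exact add_mem (Submodule.smul_mem _ _ (Submodule.subset_span ⟨0, rfl⟩))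
      (Submodule.smul_mem _ _ (Submodule.subset_span ⟨1, rfl⟩))
  refine ⟨Module.Basis.mk hli hsp, ?_, ?_⟩
  · rw [Module.Basis.mk_apply]; rfl
  · rw [Module.Basis.mk_apply]; rfl

lemma det_eq {b : Module.Basis (Fin 2) ℤ (𝓞 F)} {ω : 𝓞 F} (hb0 : b 0 = 1) (hb1 : b 1 = ω)
    (v : Fin 2 → 𝓞 F) (α β γ δ : ℤ) (h0 : v 0 = α + β * ω) (h1 : v 1 = γ + δ * ω) :
    b.det v = α * δ - β * γ := by
  have e0 : v 0 = α • b 0 + β • b 1 := by
    rw [h0, hb0, hb1]
    simp [zsmul_eq_mul]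
  have e1 : v 1 = γ • b 0 + δ • b 1 := by
    rw [h1, hb0, hb1]
    simp [zsmul_eq_mul]
  rw [Module.Basis.det_apply, Matrix.det_fin_two]
  simp only [Module.Basis.toMatrix_apply, e0, e1, map_add, map_smul, Module.Basis.repr_self,
    Finsupp.add_apply, Finsupp.smul_apply, Finsupp.single_apply]
  simp
  ring

/-- The basis of the ideal. -/
lemma exists_ideal_basis {a : Ideal (𝓞 F)} {x y : 𝓞 F} (hB : OBasis σ a x y) :
    ∃ bI : Module.Basis (Fin 2) ℤ a, (bI 0 : 𝓞 F) = x ∧ (bI 1 : 𝓞 F) = y := by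
  have hx : x ∈ a := (hB.mem x).mpr ⟨1, 0, by simp⟩
  have hy : y ∈ a := (hB.mem y).mpr ⟨0, 1, by simp⟩
  have hli : LinearIndependent ℤ ![(⟨x, hx⟩ : a), ⟨y, hy⟩] := by
    rw [LinearIndependent.pair_iff]
    intro m n h
    have h1 := congrArg (fun z : a => (z : 𝓞 F)) h
    simp only [Submodule.coe_add, Submodule.coe_smul_of_tower, Submodule.coe_zero,
      zsmul_eq_mul] at h1
    exact indep hB m n h1
  have hsp : ⊤ ≤ Submodule.span ℤ (Set.range ![(⟨x, hx⟩ : a), ⟨y, hy⟩]) := by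
    rintro ⟨z, hz⟩ _
    obtain ⟨m, n, h1⟩ := (hB.mem z).mp hz
    have h2 : (⟨z, hz⟩ : a) = m • (![(⟨x, hx⟩ : a), ⟨y, hy⟩] 0) +
        n • (![(⟨x, hx⟩ : a), ⟨y, hy⟩] 1) := by
      apply Subtype.ext
      simp [zsmul_eq_mul, h1]
    rw [h2]
    exact add_mem (Submodule.smul_mem _ _ (Submodule.subset_span ⟨0, rfl⟩))
      (Submodule.smul_mem _ _ (Submodule.subset_span ⟨1, rfl⟩))
  refine ⟨Module.Basis.mk hli hsp, ?_, ?_⟩
  · rw [Module.Basis.mk_apply]; rfl
  · rw [Module.Basis.mk_apply]; rfl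

/-- The determinant of an oriented basis. -/
lemma det_obasis (D : Dat q s σ χ cj) {ω : 𝓞 F} (hω : Om D ω) {a : Ideal (𝓞 F)} {x y : 𝓞 F}
    (hB : OBasis σ a x y) (α β γ δ : ℤ) (hx : x = α + β * ω) (hy : y = γ + δ * ω) :
    β * γ - α * δ = (Ideal.absNorm a : ℤ) ∧
      (σ x * conj (σ y)).im = Real.sqrt q / 2 * ((β * γ - α * δ : ℤ) : ℝ) := by
  obtain ⟨b, hb0, hb1⟩ := exists_basis hω
  obtain ⟨bI, hI0, hI1⟩ := exists_ideal_basis hB
  have h1 := Ideal.natAbs_det_basis_change b a bI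
  have h2 := det_eq hb0 hb1 ((↑) ∘ bI) α β γ δ (by rw [← hx, ← hI0]; rfl)
    (by rw [← hy, ← hI1]; rfl)
  have h3 : (σ x * conj (σ y)).im = Real.sqrt q / 2 * ((β * γ - α * δ : ℤ) : ℝ) := by
    have e1 : σ x = (α : ℂ) * 1 + β * σ ω := by
      rw [hx]
      have := sig_comb (σ := σ) α β 1 ω
      rw [mul_one] at this
      rw [this]
      simp
    have e2 : σ y = (γ : ℂ) * 1 + δ * σ ω := by
      rw [hy]
      have := sig_comb (σ := σ) γ δ 1 ω
      rw [mul_one] at this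
      rw [this]
      simp
    rw [e1, e2, im_comb, im_conj_sig hω]
    push_cast
    ring
  have hpos : 0 < β * γ - α * δ := by
    have h4 := hB.pos
    rw [h3] at h4
    have h5 := sqrt_pos D
    have h6 : (0 : ℝ) < ((β * γ - α * δ : ℤ) : ℝ) := by
      by_contra h7
      have h8 : Real.sqrt q / 2 * ((β * γ - α * δ : ℤ) : ℝ) ≤ 0 :=
        mul_nonpos_of_nonneg_of_nonpos (by positivity) (not_lt.mp h7)
      linarith
    exact_mod_cast h6
  refine ⟨?_, h3⟩
  rw [← h1, h2]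
  omega

end BaseAux

open BaseAux

theorem stBase (h : StBas) : StBase := by
  intro q F _ _ s σ χ cj D
  obtain ⟨ω, hω⟩ := exists_Om h D
  obtain ⟨-, hcc, hcs, -⟩ := h q F _ _ s σ χ cj D
  have hnorm : ∀ (a : Ideal (𝓞 F)) (x y : 𝓞 F), OBasis σ a x y →
      (σ x * conj (σ y)).im = Real.sqrt q / 2 * (Ideal.absNorm a : ℝ) := by
    intro a x y hB
    obtain ⟨α, β, hx⟩ := hω.gen x
    obtain ⟨γ, δ, hy⟩ := hω.gen y
    obtain ⟨h1, h2⟩ := det_obasis D hω hB α β γ δ hx hy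
    rw [h2, h1]
    push_cast
    ring
  refine ⟨?_, ?_, hnorm, fun a x y hB m n => indep hB m n, ?_, ?_, ?_⟩
  · -- existence
    intro a ha
    obtain ⟨b, hb0, hb1⟩ := exists_basis hω
    let bI := Ideal.selfBasis b a ha
    have hmem : ∀ z : 𝓞 F, z ∈ a ↔ ∃ m n : ℤ, z = (m : 𝓞 F) * (bI 0 : 𝓞 F) + (n : 𝓞 F) * (bI 1 : 𝓞 F) := by
      intro z
      constructor
      · intro hz
        refine ⟨bI.repr ⟨z, hz⟩ 0, bI.repr ⟨z, hz⟩ 1, ?_⟩
        have h1 := bI.sum_repr ⟨z, hz⟩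
        rw [Fin.sum_univ_two] at h1
        have h2 := congrArg (fun t : a => (t : 𝓞 F)) h1
        simp only [Submodule.coe_add, Submodule.coe_smul_of_tower, zsmul_eq_mul] at h2
        exact h2.symm
      · rintro ⟨m, n, rfl⟩
        exact add_mem (Ideal.mul_mem_left _ _ (bI 0).2) (Ideal.mul_mem_left _ _ (bI 1).2)
    have hne : (σ (bI 0 : 𝓞 F) * conj (σ (bI 1 : 𝓞 F))).im ≠ 0 := by
      intro h0
      obtain ⟨α, β, hx⟩ := hω.gen (bI 0 : 𝓞 F)
      obtain ⟨γ, δ, hy⟩ := hω.gen (bI 1 : 𝓞 F)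
      have h1 : (b.det (fun i => (bI i : 𝓞 F))).natAbs = Ideal.absNorm a :=
        Ideal.natAbs_det_basis_change b a bI
      have h2 := det_eq hb0 hb1 (fun i => (bI i : 𝓞 F)) α β γ δ hx hy
      have h3 : Ideal.absNorm a ≠ 0 := by
        rw [Ne, Ideal.absNorm_eq_zero_iff]
        exact ha
      have e1 : σ (bI 0 : 𝓞 F) = (α : ℂ) * 1 + β * σ ω := by
        rw [hx]
        have := sig_comb (σ := σ) α β 1 ω
        rw [mul_one] at this
        rw [this]
        simp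
      have e2 : σ (bI 1 : 𝓞 F) = (γ : ℂ) * 1 + δ * σ ω := by
        rw [hy]
        have := sig_comb (σ := σ) γ δ 1 ω
        rw [mul_one] at this
        rw [this]
        simp
      rw [e1, e2, im_comb] at h0
      have h4 : ((1 : ℂ) * conj (σ ω)).im ≠ 0 := by
        rw [im_conj_sig hω]
        have h5 := sqrt_pos D
        linarith
      rcases mul_eq_zero.mp h0 with h5 | h5
      · apply h3
        have h6 : α * δ - β * γ = 0 := by exact_mod_cast h5
        rw [← h1, h2, h6]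
        rfl
      · exact h4 h5
    rcases lt_or_gt_of_ne hne with hlt | hgt
    · refine ⟨bI 1, bI 0, ?_, ?_⟩
      · intro z
        rw [hmem z]
        constructor
        · rintro ⟨m, n, rfl⟩
          exact ⟨n, m, by ring⟩
        · rintro ⟨m, n, rfl⟩
          exact ⟨n, m, by ring⟩
      · have h1 : σ (bI 1 : 𝓞 F) * conj (σ (bI 0 : 𝓞 F)) =
            conj (σ (bI 0 : 𝓞 F) * conj (σ (bI 1 : 𝓞 F))) := by
          rw [map_mul, Complex.conj_conj, mul_comm]
        rw [h1, Complex.conj_im]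
        linarith
    · exact ⟨bI 0, bI 1, hmem, hgt⟩
  · -- the formula
    intro a x y hB
    obtain ⟨α, β, hx⟩ := hω.gen x
    obtain ⟨γ, δ, hy⟩ := hω.gen y
    obtain ⟨h1, -⟩ := det_obasis D hω hB α β γ δ hx hy
    have h2 : (Ideal.absNorm a : 𝓞 F) = ((β * γ - α * δ : ℤ) : 𝓞 F) := by
      rw [h1]
      push_cast
      rfl
    have hcx : cj x = α + β * cj ω := by
      rw [hx, map_add, map_mul, map_intCast, map_intCast]
    have hcy : cj y = γ + δ * cj ω := by
      rw [hy, map_add, map_mul, map_intCast, map_intCast]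
    rw [h2, hcx, hcy, hx, hy]
    push_cast
    linear_combination ((β : 𝓞 F) * γ - α * δ) * hω.sub
  · -- two bases
    intro a x y x' y' hB hB'
    have hx' : x' ∈ a := (hB'.mem x').mpr ⟨1, 0, by simp⟩
    have hy' : y' ∈ a := (hB'.mem y').mpr ⟨0, 1, by simp⟩
    obtain ⟨m, n, h1⟩ := (hB.mem x').mp hx'
    obtain ⟨k, l, h2⟩ := (hB.mem y').mp hy'
    have h3 := hnorm a x y hB
    have h4 := hnorm a x' y' hB'
    rw [h1, h2, sig_comb, sig_comb, im_comb, ← h3] at h4
    have h5 : ((m * l - n * k : ℤ) : ℝ) = 1 := by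
      have h6 := hB.pos.ne'
      have h7 : (((m * l - n * k : ℤ) : ℝ) - 1) * (σ x * conj (σ y)).im = 0 := by
        rw [sub_mul, one_mul, h4, sub_self]
      rcases mul_eq_zero.mp h7 with h8 | h8
      · linarith
      · exact absurd h8 h6
    have h6 : m * l - n * k = 1 := by exact_mod_cast h5
    refine ⟨⟨!![m, n; k, l], by rw [Matrix.det_fin_two_of]; exact h6⟩, ?_, ?_⟩
    · exact h1
    · exact h2
  · -- conjugation
    intro a x y hB
    constructor
    · intro z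
      have h1 : z ∈ a.map (cj : 𝓞 F →+* 𝓞 F) ↔ cj z ∈ a := by
        constructor
        · intro hz
          obtain ⟨t, ht, rfl⟩ := (Ideal.mem_map_iff_of_surjective (cj : 𝓞 F →+* 𝓞 F)
            cj.surjective).mp hz
          change cj (cj t) ∈ a
          rw [hcc]
          exact ht
        · intro hz
          have h2 := Ideal.mem_map_of_mem (cj : 𝓞 F →+* 𝓞 F) hz
          change cj (cj z) ∈ _ at h2
          rwa [hcc] at h2
      rw [h1, hB.mem]
      constructor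
      · rintro ⟨m, n, h2⟩
        refine ⟨-m, n, ?_⟩
        have h3 := congrArg cj h2
        rw [hcc, map_add, map_mul, map_mul, map_intCast, map_intCast] at h3
        rw [h3]
        push_cast
        ring
      · rintro ⟨m, n, rfl⟩
        refine ⟨-m, n, ?_⟩
        rw [map_add, map_mul, map_mul, map_intCast, map_intCast, map_neg, hcc, hcc]
        push_cast
        ring
    · have h1 : σ ((-cj x : 𝓞 F) : F) = -conj (σ x) := by
        have h0 : ((-cj x : 𝓞 F) : F) = -((cj x : 𝓞 F) : F) := by simp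
        rw [← D.conjσ x, h0, map_neg]
      rw [h1, D.conjσ y, Complex.conj_conj, neg_mul, Complex.neg_im]
      have h2 : conj (σ x) * σ y = conj (σ x * conj (σ y)) := by
        rw [map_mul, Complex.conj_conj]
      rw [h2, Complex.conj_im, neg_neg]
      exact hB.pos
  · -- multiplication
    intro a x y t hB ht
    constructor
    · intro z
      rw [Ideal.mem_span_singleton_mul]
      constructor
      · rintro ⟨w, hw, rfl⟩
        obtain ⟨m, n, rfl⟩ := (hB.mem w).mp hw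
        exact ⟨m, n, by ring⟩
      · rintro ⟨m, n, rfl⟩
        exact ⟨(m : 𝓞 F) * x + (n : 𝓞 F) * y, (hB.mem _).mpr ⟨m, n, rfl⟩, by ring⟩
    · have h1 : σ ((t * x : 𝓞 F) : F) * conj (σ ((t * y : 𝓞 F) : F)) =
          ((Complex.normSq (σ t) : ℝ) : ℂ) * (σ x * conj (σ y)) := by
        rw [sig_mul, sig_mul, map_mul, ← Complex.mul_conj]
        ring
      rw [h1, Complex.im_ofReal_mul]
      apply mul_pos _ hB.pos
      rw [Complex.normSq_pos]
      intro h2
      apply ht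
      have h3 := (map_eq_zero σ).mp h2
      exact RingOfIntegers.ext (by simpa using h3)

end RZ

end Pool.Agent.Lib.MP_7c08ba_nt
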