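import Pool.Agent.Lib.MP_7c08ba_nt.RZ.StA

set_option autoImplicit false

/-! (A15) Poisson summation with powers. -/

namespace Pool.Agent.Lib.MP_7c08ba_nt

namespace RZ

open NumberField MeasureTheory UpperHalfPlane Set
open scoped MatrixGroups ComplexConjugate nonZeroDivisors Nat Topology

noncomputable section

namespace PoisKAux

variable {ι : Type*} {a z : ι → ℂ}

theorem exp_norm_le (r : ℝ) (hr : 0 ≤ r) (w : ℂ) :
    Real.exp (r * ‖w‖) ≤ ‖Complex.exp (((r : ℂ) * (1 + Complex.I)) * w)‖ +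
      ‖Complex.exp (((r : ℂ) * (1 - Complex.I)) * w)‖ +
      ‖Complex.exp (((r : ℂ) * (-1 + Complex.I)) * w)‖ +
      ‖Complex.exp (((r : ℂ) * (-1 - Complex.I)) * w)‖ := by
  have h0 : r * ‖w‖ ≤ r * |w.re| + r * |w.im| := by
    rw [← mul_add]
    exact mul_le_mul_of_nonneg_left (Complex.norm_le_abs_re_add_abs_im w) hr
  have e1 := Real.exp_pos (r * w.re - r * w.im)
  have e2 := Real.exp_pos (r * w.re + r * w.im)
  have e3 := Real.exp_pos (-(r * w.re) - r * w.im)
  have e4 := Real.exp_pos (-(r * w.re) + r * w.im)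
  have n1 : ‖Complex.exp (((r : ℂ) * (1 + Complex.I)) * w)‖ =
      Real.exp (r * w.re - r * w.im) := by
    rw [Complex.norm_exp]
    congr 1
    simp
  have n2 : ‖Complex.exp (((r : ℂ) * (1 - Complex.I)) * w)‖ =
      Real.exp (r * w.re + r * w.im) := by
    rw [Complex.norm_exp]
    congr 1
    simp
  have n3 : ‖Complex.exp (((r : ℂ) * (-1 + Complex.I)) * w)‖ =
      Real.exp (-(r * w.re) - r * w.im) := by
    rw [Complex.norm_exp]
    congr 1
    simp
  have n4 : ‖Complex.exp (((r : ℂ) * (-1 - Complex.I)) * w)‖ =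
      Real.exp (-(r * w.re) + r * w.im) := by
    rw [Complex.norm_exp]
    congr 1
    simp
  rw [n1, n2, n3, n4]
  have h1 := Real.exp_le_exp.2 h0
  rcases abs_cases w.re with ⟨h2, _⟩ | ⟨h2, _⟩ <;> rcases abs_cases w.im with ⟨h3, _⟩ | ⟨h3, _⟩ <;>
    rw [h2, h3] at h1
  · linarith
  · have : r * w.re + r * -w.im = r * w.re - r * w.im := by ring
    rw [this] at h1
    linarith
  · have : r * -w.re + r * w.im = -(r * w.re) + r * w.im := by ring
    rw [this] at h1
    linarith
  · have : r * -w.re + r * -w.im = -(r * w.re) - r * w.im := by ring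
    rw [this] at h1
    linarith

theorem summable_abs (H : ∀ t : ℂ, Summable fun p => ‖a p * Complex.exp (t * z p)‖) (r : ℝ)
    (hr : 0 ≤ r) : Summable fun p => ‖a p‖ * Real.exp (r * ‖z p‖) := by
  refine Summable.of_nonneg_of_le (fun p => by positivity) (fun p => ?_)
    ((((H ((r : ℂ) * (1 + Complex.I))).add (H ((r : ℂ) * (1 - Complex.I)))).add
      (H ((r : ℂ) * (-1 + Complex.I)))).add (H ((r : ℂ) * (-1 - Complex.I))))
  have h1 := mul_le_mul_of_nonneg_left (exp_norm_le r hr (z p)) (norm_nonneg (a p))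
  refine h1.trans (le_of_eq ?_)
  simp only [norm_mul]
  ring

theorem hasSum_exp (x : ℂ) : HasSum (fun n : ℕ => x ^ n / n !) (Complex.exp x) := by
  rw [Complex.exp_eq_exp_ℂ]
  exact NormedSpace.expSeries_div_hasSum_exp x

theorem hasSum_exp_real (x : ℝ) : HasSum (fun n : ℕ => x ^ n / n !) (Real.exp x) := by
  rw [Real.exp_eq_exp_ℝ]
  exact NormedSpace.expSeries_div_hasSum_exp x

theorem expsum (H : ∀ t : ℂ, Summable fun p => ‖a p * Complex.exp (t * z p)‖) (t : ℂ) :
    HasSum (fun n : ℕ => t ^ n • ((∑' p, a p * z p ^ n) / n !))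
      (∑' p, a p * Complex.exp (t * z p)) := by
  have h1 := summable_abs H ‖t‖ (norm_nonneg t)
  have h2 : Summable fun q : ι × ℕ => a q.1 * ((t * z q.1) ^ q.2 / q.2 !) := by
    apply Summable.of_norm
    rw [summable_prod_of_nonneg (fun _ => norm_nonneg _)]
    have h3 : ∀ p : ι, HasSum (fun n : ℕ => ‖a p * ((t * z p) ^ n / n !)‖)
        (‖a p‖ * Real.exp (‖t‖ * ‖z p‖)) := by
      intro p
      have h4 := (hasSum_exp_real (‖t‖ * ‖z p‖)).mul_left ‖a p‖
      have h5 : (fun n : ℕ => ‖a p * ((t * z p) ^ n / n !)‖) =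
          fun n : ℕ => ‖a p‖ * ((‖t‖ * ‖z p‖) ^ n / n !) := by
        funext n
        rw [norm_mul, norm_div, norm_pow, norm_mul, Complex.norm_natCast]
      rw [h5]
      exact h4
    refine ⟨fun p => (h3 p).summable, ?_⟩
    simp only [fun p => (h3 p).tsum_eq]
    exact h1
  have h3 : ∑' q : ι × ℕ, a q.1 * ((t * z q.1) ^ q.2 / q.2 !) =
      ∑' p, a p * Complex.exp (t * z p) := by
    rw [h2.tsum_prod' (fun p => ((hasSum_exp (t * z p)).mul_left (a p)).summable)]
    exact tsum_congr fun p => ((hasSum_exp (t * z p)).mul_left (a p)).tsum_eq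
  have h4 : HasSum (fun q : ℕ × ι => a q.2 * ((t * z q.2) ^ q.1 / q.1 !))
      (∑' p, a p * Complex.exp (t * z p)) := by
    rw [← h3]
    exact (Equiv.prodComm ℕ ι).hasSum_iff.2 h2.hasSum
  refine h4.prod_fiberwise fun n => ?_
  have h5 : (fun p => a p * ((t * z p) ^ n / n !)) = fun p => t ^ n / n ! * (a p * z p ^ n) := by
    funext p
    rw [mul_pow]
    ring
  have h6 : Summable fun p => a p * ((t * z p) ^ n / n !) := h4.summable.prod_factor n
  have h7 := h6.hasSum
  show HasSum (fun p => a p * ((t * z p) ^ n / n !)) _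
  rw [h5, tsum_mul_left] at h7
  rw [h5]
  convert h7 using 1
  rw [smul_eq_mul]
  ring

theorem coeff_eq {κ : Type*} {b w : κ → ℂ} {C : ℂ}
    (H : ∀ t : ℂ, Summable fun p => ‖a p * Complex.exp (t * z p)‖)
    (H' : ∀ t : ℂ, Summable fun p => ‖b p * Complex.exp (t * w p)‖)
    (h : ∀ t : ℂ, ∑' p, a p * Complex.exp (t * z p) = C * ∑' p, b p * Complex.exp (t * w p))
    (k : ℕ) : ∑' p, a p * z p ^ k = C * ∑' p, b p * w p ^ k := by
  have key : ∀ (c : ℕ → ℂ) (f : ℂ → ℂ), (∀ t, HasSum (fun n : ℕ => t ^ n • c n) (f t)) →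
      HasFPowerSeriesAt f (FormalMultilinearSeries.ofScalars ℂ c) 0 := by
    intro c f hf
    rw [hasFPowerSeriesAt_iff]
    refine Filter.Eventually.of_forall fun t => ?_
    rw [zero_add]
    simp only [FormalMultilinearSeries.coeff_ofScalars]
    exact hf t
  have h1 := key _ _ (expsum H)
  have h2 := key (fun n => C * ((∑' p, b p * w p ^ n) / n !))
    (fun t => ∑' p, a p * Complex.exp (t * z p)) (fun t => by
      have h0 := (expsum H' t).mul_left C
      rw [← h t] at h0
      have h5 : (fun n : ℕ => t ^ n • (C * ((∑' p, b p * w p ^ n) / n !))) =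
          fun n : ℕ => C * (t ^ n • ((∑' p, b p * w p ^ n) / n !)) := by
        funext n
        rw [smul_eq_mul, smul_eq_mul]
        ring
      rw [h5]
      exact h0)
  have h3 := h1.eq_formalMultilinearSeries h2
  have h4 := congrArg (fun q : FormalMultilinearSeries ℂ ℂ ℂ => q.coeff k) h3
  simp only [FormalMultilinearSeries.coeff_ofScalars] at h4
  have h5 : ((k ! : ℕ) : ℂ) ≠ 0 := by exact_mod_cast k.factorial_ne_zero
  field_simp at h4
  exact h4

theorem norm_ee_real (x : ℝ) : ‖ee x‖ = 1 := by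
  unfold ee
  have : 2 * (Real.pi : ℂ) * Complex.I * x = ((2 * Real.pi * x : ℝ) : ℂ) * Complex.I := by
    push_cast
    ring
  rw [this, Complex.norm_exp_ofReal_mul_I]

end PoisKAux

open PoisKAux in
theorem stPoisK (h : StPoisson) : StPoisK := by
  intro k X Y x u N hV hN hu
  have hu0 : u ≠ 0 := by
    rintro rfl
    simp at hu
  have hu' : 0 < (-1 / u).im := by
    rw [neg_div, Complex.neg_im, one_div, Complex.inv_im, neg_div, neg_neg]
    exact div_pos hu (Complex.normSq_pos.2 hu0)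
  set D : ℂ := Complex.I * N / (2 * (X * conj Y).im) with hD
  have hV' : ((X * conj Y).im : ℂ) ≠ 0 := by exact_mod_cast hV.ne'
  have hN' : (N : ℂ) ≠ 0 := by exact_mod_cast hN.ne'
  have hD0 : D ≠ 0 := div_ne_zero (mul_ne_zero Complex.I_ne_zero hN') (mul_ne_zero two_ne_zero hV')
  have hVD : 0 < (D * X * conj (D * Y)).im := by
    have h1 : D * X * conj (D * Y) = ((Complex.normSq D : ℝ) : ℂ) * (X * conj Y) := by
      rw [map_mul, Complex.normSq_eq_conj_mul_self]
      ring
    rw [h1, Complex.im_ofReal_mul]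
    exact mul_pos (Complex.normSq_pos.2 hD0) hV
  have H1 : ∀ t : ℂ, Summable fun p : ℤ × ℤ =>
      ‖ee (Complex.normSq (x + p.1 * X + p.2 * Y) / N * (-1 / u)) *
        Complex.exp (t * (x + p.1 * X + p.2 * Y))‖ := by
    intro t
    have := (h X Y x (-1 / u) t N hV hN hu').1
    convert this using 3 with p
    rw [mul_comm]
  have H2 : ∀ t : ℂ, Summable fun p : ℤ × ℤ =>
      ‖(ee (2 * (x * conj (D * (p.1 * X + p.2 * Y))).re / N) *
        ee (Complex.normSq (D * (p.1 * X + p.2 * Y)) / N * u)) *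
        Complex.exp (t * (-u * (D * (p.1 * X + p.2 * Y))))‖ := by
    intro t
    have := (h (D * X) (D * Y) 0 u (t * -u) N hVD hN hu).1
    convert this using 2 with p
    have e1 : ‖ee (2 * (x * conj (D * (p.1 * X + p.2 * Y))).re / N)‖ = 1 := by
      have e2 : (2 * ((x * conj (D * (p.1 * X + p.2 * Y))).re : ℂ) / (N : ℂ)) =
          ((2 * (x * conj (D * (p.1 * X + p.2 * Y))).re / N : ℝ) : ℂ) := by
        push_cast
        ring
      rw [e2, norm_ee_real]
    have e3 : (0 : ℂ) + p.1 * (D * X) + p.2 * (D * Y) = D * (p.1 * X + p.2 * Y) := by ring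
    rw [norm_mul, norm_mul, e1, one_mul, e3, norm_mul, mul_comm]
    congr 3
    ring
  have key := coeff_eq (C := -(D * u)) H1 H2 (by
    intro t
    have h1 := (h X Y x (-1 / u) t N hV hN hu').2
    have h2 : ∀ p : ℤ × ℤ, ee (Complex.normSq (x + p.1 * X + p.2 * Y) / N * (-1 / u)) *
        Complex.exp (t * (x + p.1 * X + p.2 * Y)) = Complex.exp (t * (x + p.1 * X + p.2 * Y)) *
        ee (Complex.normSq (x + p.1 * X + p.2 * Y) / N * (-1 / u)) := fun p => mul_comm _ _
    rw [tsum_congr h2, h1]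
    have h3 : (D / (-1 / u)) = -(D * u) := by
      field_simp
    rw [← hD, h3]
    congr 1
    refine tsum_congr fun p => ?_
    have h4 : t * (D * (p.1 * X + p.2 * Y)) / (-1 / u) =
        t * (-u * (D * (p.1 * X + p.2 * Y))) := by
      field_simp
    have h5 : -((Complex.normSq (D * (p.1 * X + p.2 * Y)) : ℂ) / N) / (-1 / u) =
        Complex.normSq (D * (p.1 * X + p.2 * Y)) / N * u := by
      field_simp
    rw [h4, h5]
    ring) k
  intro D'
  have hDD : D' = D := rfl
  rw [hDD]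
  have h1 : ∀ p : ℤ × ℤ, (x + p.1 * X + p.2 * Y) ^ k *
      ee (Complex.normSq (x + p.1 * X + p.2 * Y) / N * (-1 / u)) =
      ee (Complex.normSq (x + p.1 * X + p.2 * Y) / N * (-1 / u)) *
        (x + p.1 * X + p.2 * Y) ^ k := fun p => mul_comm _ _
  rw [tsum_congr h1, key]
  have h2 : ∀ p : ℤ × ℤ, ee (2 * (x * conj (D * (p.1 * X + p.2 * Y))).re / N) *
        ee (Complex.normSq (D * (p.1 * X + p.2 * Y)) / N * u) *
        (-u * (D * (p.1 * X + p.2 * Y))) ^ k =
      (-u) ^ k * (ee (2 * (x * conj (D * (p.1 * X + p.2 * Y))).re / N) *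
        (D * (p.1 * X + p.2 * Y)) ^ k *
        ee (Complex.normSq (D * (p.1 * X + p.2 * Y)) / N * u)) := by
    intro p
    rw [mul_pow]
    ring
  rw [tsum_congr h2, tsum_mul_left, pow_succ]
  ring

end

end RZ

end Pool.Agent.Lib.MP_7c08ba_nt
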