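import Pool.Agent.Lib.MP_7c08ba_nt.RZ.StB

set_option autoImplicit false

/-!
Theta series of ideals: convergence, continuity, size (module RZ-ThB).
-/

namespace Pool.Agent.Lib.MP_7c08ba_nt

namespace RZ

open NumberField UpperHalfPlane
open scoped ComplexConjugate

namespace ThBAux

theorem norm_ee (R : ℝ) (u : ℂ) : ‖ee ((R : ℂ) * u)‖ = Real.exp (-(2 * Real.pi * R * u.im)) := by
  unfold ee
  rw [Complex.norm_exp]
  congr 1
  simp
  ring

theorem ee_nat (n : ℕ) : ee (n : ℂ) = 1 := by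
  unfold ee
  rw [Complex.exp_eq_one_iff]
  exact ⟨n, by push_cast; ring⟩

theorem ee_add (z w : ℂ) : ee (z + w) = ee z * ee w := by
  unfold ee
  rw [mul_add, Complex.exp_add]

theorem ee_cont : Continuous ee := by
  unfold ee
  fun_prop

/-- The abstract data. -/
structure Dt {ι : Type} (N : ℝ) (W Q : ι → ℝ) : Prop where
  N1 : 1 ≤ N
  W1 : ∀ i, 1 ≤ W i
  Q0 : ∀ i, 0 ≤ Q i
  WQ : ∀ i, W i ^ 2 ≤ 2 * N * (1 + Q i)
  QW : ∀ i, 1 + Q i ≤ W i ^ 2
  sm : Summable fun i => (W i ^ 4)⁻¹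

variable {ι : Type} {N : ℝ} {W Q : ι → ℝ}

theorem Dt.bound (h : Dt N W Q) (j : ℕ) {t : ℝ} (ht : 0 < t) (i : ι) :
    W i ^ j ≤ (2 * N * (1 + t⁻¹)) ^ j * ((j.factorial : ℝ) * Real.exp 1) * Real.exp (t * Q i) := by
  have hW := h.W1 i
  have hQ := h.Q0 i
  have hN := h.N1
  have h1 : W i ^ j ≤ (W i ^ 2) ^ j := by
    refine pow_le_pow_left₀ (by linarith) ?_ j
    nlinarith
  have h2 : W i ^ 2 ≤ 2 * N * (1 + t⁻¹) * (1 + t * Q i) := by
    refine le_trans (h.WQ i) ?_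
    have h3 : (1 + Q i) ≤ (1 + t⁻¹) * (1 + t * Q i) := by
      have h4 : t⁻¹ * (t * Q i) = Q i := by field_simp
      have h5 : 0 ≤ t⁻¹ := by positivity
      have h6 : 0 ≤ t * Q i := by positivity
      nlinarith
    calc 2 * N * (1 + Q i) ≤ 2 * N * ((1 + t⁻¹) * (1 + t * Q i)) :=
          mul_le_mul_of_nonneg_left h3 (by linarith)
      _ = _ := by ring
  have h3 : (1 + t * Q i) ^ j ≤ (j.factorial : ℝ) * Real.exp 1 * Real.exp (t * Q i) := by
    have h4 := Real.pow_div_factorial_le_exp (1 + t * Q i) (by positivity) j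
    rw [div_le_iff₀ (by positivity), Real.exp_add] at h4
    linarith
  calc W i ^ j ≤ (W i ^ 2) ^ j := h1
    _ ≤ (2 * N * (1 + t⁻¹) * (1 + t * Q i)) ^ j := pow_le_pow_left₀ (by positivity) h2 j
    _ = (2 * N * (1 + t⁻¹)) ^ j * (1 + t * Q i) ^ j := by rw [mul_pow]
    _ ≤ (2 * N * (1 + t⁻¹)) ^ j * ((j.factorial : ℝ) * Real.exp 1 * Real.exp (t * Q i)) :=
        mul_le_mul_of_nonneg_left h3 (by positivity)
    _ = _ := by ring

theorem Dt.term (h : Dt N W Q) (k : ℕ) {t : ℝ} (ht : 0 < t) (i : ι) :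
    W i ^ k * Real.exp (-(t * Q i)) ≤
      (2 * N * (1 + t⁻¹)) ^ (k + 4) * (((k + 4).factorial : ℝ) * Real.exp 1) * (W i ^ 4)⁻¹ := by
  have hW : 0 < W i := lt_of_lt_of_le one_pos (h.W1 i)
  have h1 := h.bound (k + 4) ht i
  rw [Real.exp_neg, ← div_eq_mul_inv, ← div_eq_mul_inv, div_le_div_iff₀ (Real.exp_pos _)
    (by positivity)]
  calc W i ^ k * W i ^ 4 = W i ^ (k + 4) := by ring
    _ ≤ _ := h1

theorem Dt.summ (h : Dt N W Q) (k : ℕ) {t : ℝ} (ht : 0 < t) :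
    Summable fun i => W i ^ k * Real.exp (-(t * Q i)) := by
  refine Summable.of_nonneg_of_le (fun i => ?_) (fun i => h.term k ht i) (h.sm.mul_left _)
  have hW : 0 < W i := lt_of_lt_of_le one_pos (h.W1 i)
  positivity

/-- Continuity of sums. -/
theorem Dt.contOn (h : Dt N W Q) (R : ι → ℝ) {c : ℝ} (hc : 0 < c) (hR : ∀ i, c * Q i ≤ R i)
    (F : ι → ℂ → ℂ) (C : ℝ) (hC : 0 ≤ C) (m : ℕ)
    (hF : ∀ i, ContinuousOn (F i) {u | 0 < u.im})
    (hb : ∀ i u, 0 < u.im → ‖F i u‖ ≤ C * W i ^ m * (1 + u.im) ^ m) :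
    ContinuousOn (fun u => ∑' i, F i u * ee ((R i : ℂ) * u)) {u | 0 < u.im} := by
  intro u₀ hu₀
  have hu₀' : 0 < u₀.im := hu₀
  set s : Set ℂ := {u | u₀.im / 2 < u.im ∧ u.im < u₀.im + 1} with hs
  have hso : IsOpen s := by
    exact (isOpen_lt continuous_const Complex.continuous_im).and
      (isOpen_lt Complex.continuous_im continuous_const)
  have hsu : u₀ ∈ s := ⟨by linarith, by linarith⟩
  have hsub : s ⊆ {u : ℂ | 0 < u.im} := by
    intro u hu
    have h1 : u₀.im / 2 < u.im := hu.1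
    show 0 < u.im
    linarith
  have ht : 0 < Real.pi * c * u₀.im := by
    have := Real.pi_pos
    positivity
  have key : ContinuousOn (fun u => ∑' i, F i u * ee ((R i : ℂ) * u)) s := by
    refine continuousOn_tsum (u := fun i => C * (2 + u₀.im) ^ m *
      (W i ^ m * Real.exp (-(Real.pi * c * u₀.im * Q i)))) ?_ ?_ ?_
    · intro i
      refine ((hF i).mono hsub).mul ?_
      exact (ee_cont.comp (by fun_prop : Continuous fun u : ℂ => (R i : ℂ) * u)).continuousOn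
    · exact (h.summ m ht).mul_left _
    · intro i u hu
      have hu1 : u₀.im / 2 < u.im := hu.1
      have hu2 : u.im < u₀.im + 1 := hu.2
      have hu0 : 0 < u.im := by linarith
      have hW : 0 < W i := lt_of_lt_of_le one_pos (h.W1 i)
      have hQ := h.Q0 i
      have hpi := Real.pi_pos
      rw [norm_mul, norm_ee]
      have h1 : (1 + u.im) ^ m ≤ (2 + u₀.im) ^ m :=
        pow_le_pow_left₀ (by linarith) (by linarith) m
      have h2 : ‖F i u‖ ≤ C * W i ^ m * (2 + u₀.im) ^ m :=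
        le_trans (hb i u hu0) (mul_le_mul_of_nonneg_left h1 (by positivity))
      have h3 : Real.exp (-(2 * Real.pi * R i * u.im)) ≤
          Real.exp (-(Real.pi * c * u₀.im * Q i)) := by
        apply Real.exp_le_exp.2
        have h4 : c * Q i ≤ R i := hR i
        have h5 : 0 ≤ c * Q i := by positivity
        have h6 : c * Q i * (u₀.im / 2) ≤ R i * u.im :=
          mul_le_mul h4 hu1.le (by linarith) (le_trans h5 h4)
        have h7 : Real.pi * (2 * (c * Q i * (u₀.im / 2))) ≤ Real.pi * (2 * (R i * u.im)) :=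
          mul_le_mul_of_nonneg_left (by linarith) hpi.le
        linarith
      calc ‖F i u‖ * Real.exp (-(2 * Real.pi * R i * u.im))
          ≤ (C * W i ^ m * (2 + u₀.im) ^ m) * Real.exp (-(Real.pi * c * u₀.im * Q i)) :=
            mul_le_mul h2 h3 (Real.exp_pos _).le (by positivity)
        _ = _ := by ring
  exact (key.continuousAt (hso.mem_nhds hsu)).continuousWithinAt

/-- Bound for sums. -/
theorem norm_tsum_bd {f : ι → ℂ} {g : ι → ℝ} (hg : Summable g) (hf : ∀ i, ‖f i‖ ≤ g i) :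
    ‖∑' i, f i‖ ≤ ∑' i, g i :=
  tsum_of_norm_bounded hg.hasSum hf

/-! ### Laguerre polynomials -/

theorem lag_bd (r : ℕ) (x : ℝ) (hx : 0 ≤ x) : ‖lag r (x : ℂ)‖ ≤ (2 : ℝ) ^ r * (1 + x) ^ r := by
  unfold lag
  refine le_trans (norm_sum_le _ _) ?_
  have h1 : ∀ j ∈ Finset.range (r + 1),
      ‖((r.choose j : ℂ) * (-(x : ℂ)) ^ j / (j.factorial : ℂ))‖ ≤
        (r.choose j : ℝ) * (1 + x) ^ r := by
    intro j hj
    have hj' : j ≤ r := Nat.lt_succ_iff.1 (Finset.mem_range.1 hj)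
    rw [norm_div, norm_mul, norm_pow, norm_neg, Complex.norm_natCast, Complex.norm_natCast,
      Complex.norm_of_nonneg hx]
    have h2 : x ^ j ≤ (1 + x) ^ r :=
      le_trans (pow_le_pow_left₀ hx (by linarith) j) (pow_le_pow_right₀ (by linarith) hj')
    have h3 : (1 : ℝ) ≤ (j.factorial : ℝ) := by exact_mod_cast Nat.succ_le_of_lt j.factorial_pos
    calc (r.choose j : ℝ) * x ^ j / (j.factorial : ℝ) ≤ (r.choose j : ℝ) * x ^ j :=
          div_le_self (by positivity) h3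
      _ ≤ _ := mul_le_mul_of_nonneg_left h2 (by positivity)
  refine le_trans (Finset.sum_le_sum h1) ?_
  rw [← Finset.sum_mul]
  have h2 : (∑ j ∈ Finset.range (r + 1), (r.choose j : ℝ)) = (2 : ℝ) ^ r := by
    exact_mod_cast Nat.sum_range_choose r
  rw [h2]

theorem lag_cont (r : ℕ) : Continuous (lag r) := by
  unfold lag
  fun_prop

/-- Bounded sums with Laguerre polynomials. -/
theorem Dt.lagSum (h : Dt N W Q) (R : ι → ℝ) {c : ℝ} (hc : 0 < c) (hR : ∀ i, c * Q i ≤ R i)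
    (hR' : ∀ i, R i ≤ Q i) (r : ℕ) :
    ∃ C : ℝ, ∀ u : ℂ, 1 / 2 ≤ u.im →
      ‖((u.im : ℂ) ^ r)⁻¹ * ∑' i, lag r (4 * Real.pi * (R i : ℂ) * u.im) *
        ee ((R i : ℂ) * u)‖ ≤ C := by
  have hpi := Real.pi_pos
  have hpi3 := Real.pi_gt_three
  have ht : 0 < Real.pi * c := by positivity
  refine ⟨(2 * (4 * Real.pi)) ^ r * ∑' i, W i ^ (2 * r) * Real.exp (-(Real.pi * c * Q i)), ?_⟩
  intro u hu
  have hu0 : 0 < u.im := by linarith
  have hterm : ∀ i, ‖lag r (4 * Real.pi * (R i : ℂ) * u.im) * ee ((R i : ℂ) * u)‖ ≤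
      (u.im ^ r * (2 * (4 * Real.pi)) ^ r) *
        (W i ^ (2 * r) * Real.exp (-(Real.pi * c * Q i))) := by
    intro i
    have hQ := h.Q0 i
    have hcQ : 0 ≤ c * Q i := by positivity
    have hRi : 0 ≤ R i := le_trans hcQ (hR i)
    have hW : 0 < W i := lt_of_lt_of_le one_pos (h.W1 i)
    have e1 : (4 * Real.pi * (R i : ℂ) * u.im : ℂ) = ((4 * Real.pi * R i * u.im : ℝ) : ℂ) := by
      push_cast
      ring
    rw [norm_mul, norm_ee, e1]
    have h1 := lag_bd r (4 * Real.pi * R i * u.im) (by positivity)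
    have h2 : 1 + 4 * Real.pi * R i * u.im ≤ u.im * (4 * Real.pi * W i ^ 2) := by
      have h3 : 1 + R i ≤ W i ^ 2 := le_trans (by linarith [hR' i]) (h.QW i)
      have h4 : 1 + 4 * Real.pi * R i * u.im ≤ u.im * (4 * Real.pi * (1 + R i)) := by
        nlinarith
      refine le_trans h4 ?_
      gcongr
    have h5 : (2 : ℝ) ^ r * (1 + 4 * Real.pi * R i * u.im) ^ r ≤
        u.im ^ r * (2 * (4 * Real.pi)) ^ r * W i ^ (2 * r) := by
      calc (2 : ℝ) ^ r * (1 + 4 * Real.pi * R i * u.im) ^ r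
          ≤ (2 : ℝ) ^ r * (u.im * (4 * Real.pi * W i ^ 2)) ^ r := by
            gcongr
        _ = _ := by
            rw [pow_mul, ← mul_pow, ← mul_pow, ← mul_pow]
            congr 1
            ring
    have h6 : Real.exp (-(2 * Real.pi * R i * u.im)) ≤ Real.exp (-(Real.pi * c * Q i)) := by
      apply Real.exp_le_exp.2
      have h7 : c * Q i * (1 / 2) ≤ R i * u.im := mul_le_mul (hR i) hu (by norm_num) hRi
      have h8 : Real.pi * (2 * (c * Q i * (1 / 2))) ≤ Real.pi * (2 * (R i * u.im)) :=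
        mul_le_mul_of_nonneg_left (by linarith) hpi.le
      linarith
    calc ‖lag r ((4 * Real.pi * R i * u.im : ℝ) : ℂ)‖ * Real.exp (-(2 * Real.pi * R i * u.im))
        ≤ (u.im ^ r * (2 * (4 * Real.pi)) ^ r * W i ^ (2 * r)) *
            Real.exp (-(Real.pi * c * Q i)) :=
          mul_le_mul (le_trans h1 h5) h6 (Real.exp_pos _).le (by positivity)
      _ = _ := by ring
  have hs := (h.summ (2 * r) ht).mul_left (u.im ^ r * (2 * (4 * Real.pi)) ^ r)
  have hb := norm_tsum_bd hs hterm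
  rw [tsum_mul_left] at hb
  rw [norm_mul, norm_inv, norm_pow, Complex.norm_of_nonneg hu0.le]
  calc (u.im ^ r)⁻¹ * ‖∑' i, lag r (4 * Real.pi * (R i : ℂ) * u.im) * ee ((R i : ℂ) * u)‖
      ≤ (u.im ^ r)⁻¹ * (u.im ^ r * (2 * (4 * Real.pi)) ^ r *
          ∑' i, W i ^ (2 * r) * Real.exp (-(Real.pi * c * Q i))) :=
        mul_le_mul_of_nonneg_left hb (by positivity)
    _ = _ := by
        field_simp

/-- Exponential decay. -/
theorem Dt.expSum (h : Dt N W Q) (R : ι → ℝ) {c ρ : ℝ} (hc : 0 < c)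
    (hR : ∀ i, c * Q i ≤ R i) (k : ℕ) (F : ι → ℂ) (hF : ∀ i, ‖F i‖ ≤ W i ^ k)
    (h0 : ∀ i, F i = 0 ∨ ρ ≤ R i) :
    ∃ C : ℝ, 0 ≤ C ∧ ∀ u : ℂ, 1 / 2 ≤ u.im →
      ‖∑' i, F i * ee ((R i : ℂ) * u)‖ ≤ C * Real.exp (-(Real.pi * ρ * u.im)) := by
  have hpi := Real.pi_pos
  have ht : 0 < Real.pi * c / 2 := by positivity
  refine ⟨∑' i, W i ^ k * Real.exp (-(Real.pi * c / 2 * Q i)), ?_, ?_⟩
  · refine tsum_nonneg fun i => ?_
    have hW : 0 < W i := lt_of_lt_of_le one_pos (h.W1 i)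
    positivity
  intro u hu
  have hu0 : 0 < u.im := by linarith
  have hterm : ∀ i, ‖F i * ee ((R i : ℂ) * u)‖ ≤
      Real.exp (-(Real.pi * ρ * u.im)) * (W i ^ k * Real.exp (-(Real.pi * c / 2 * Q i))) := by
    intro i
    have hW : 0 < W i := lt_of_lt_of_le one_pos (h.W1 i)
    have hQ := h.Q0 i
    have hcQ : 0 ≤ c * Q i := by positivity
    have hRi : 0 ≤ R i := le_trans hcQ (hR i)
    rcases h0 i with h1 | h1
    · rw [h1, zero_mul, norm_zero]
      positivity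
    · rw [norm_mul, norm_ee]
      have h2 : Real.exp (-(2 * Real.pi * R i * u.im)) ≤
          Real.exp (-(Real.pi * ρ * u.im)) * Real.exp (-(Real.pi * c / 2 * Q i)) := by
        rw [← Real.exp_add]
        apply Real.exp_le_exp.2
        have h3 : ρ * u.im ≤ R i * u.im := mul_le_mul_of_nonneg_right h1 hu0.le
        have h4 : c * Q i * (1 / 2) ≤ R i * u.im := mul_le_mul (hR i) hu (by norm_num) hRi
        have h5 : Real.pi * (ρ * u.im + c * Q i * (1 / 2)) ≤ Real.pi * (2 * (R i * u.im)) :=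
          mul_le_mul_of_nonneg_left (by linarith) hpi.le
        linarith
      calc ‖F i‖ * Real.exp (-(2 * Real.pi * R i * u.im))
          ≤ W i ^ k * (Real.exp (-(Real.pi * ρ * u.im)) *
              Real.exp (-(Real.pi * c / 2 * Q i))) :=
            mul_le_mul (hF i) h2 (Real.exp_pos _).le (by positivity)
        _ = _ := by ring
  have hs := (h.summ k ht).mul_left (Real.exp (-(Real.pi * ρ * u.im)))
  have hb := norm_tsum_bd hs hterm
  rw [tsum_mul_left] at hb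
  rw [mul_comm]
  exact hb

theorem one_add_pow_le (x : ℝ) (hx : 0 ≤ x) (n : ℕ) : (1 + x) ^ n ≤ 2 ^ n * (1 + x ^ n) := by
  rcases le_total x 1 with h | h
  · calc (1 + x) ^ n ≤ 2 ^ n := pow_le_pow_left₀ (by linarith) (by linarith) n
      _ ≤ 2 ^ n * (1 + x ^ n) := le_mul_of_one_le_right (by positivity)
        (by linarith [pow_nonneg hx n])
  · calc (1 + x) ^ n ≤ (2 * x) ^ n := pow_le_pow_left₀ (by linarith) (by linarith) n
      _ = 2 ^ n * x ^ n := by rw [mul_pow]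
      _ ≤ 2 ^ n * (1 + x ^ n) := by
        have : (0 : ℝ) ≤ 2 ^ n := by positivity
        nlinarith

/-- Polynomial bound near the real axis. -/
theorem Dt.polySum (h : Dt N W Q) (k : ℕ) (F : ι → ℂ) (hF : ∀ i, ‖F i‖ ≤ W i ^ k) :
    ∃ (C : ℝ) (A : ℕ), ∀ u : ℂ, 0 < u.im →
      ‖∑' i, F i * ee ((Q i : ℂ) * u)‖ ≤ C * (1 + (u.im ^ A)⁻¹) := by
  have hpi := Real.pi_pos
  have hN := h.N1
  refine ⟨(2 * N) ^ (k + 4) * 2 ^ (k + 4) * (((k + 4).factorial : ℝ) * Real.exp 1) *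
    ∑' i, (W i ^ 4)⁻¹, k + 4, ?_⟩
  intro u hu
  have ht : 0 < 2 * Real.pi * u.im := by positivity
  have hterm : ∀ i, ‖F i * ee ((Q i : ℂ) * u)‖ ≤
      (2 * N * (1 + (2 * Real.pi * u.im)⁻¹)) ^ (k + 4) *
        (((k + 4).factorial : ℝ) * Real.exp 1) * (W i ^ 4)⁻¹ := by
    intro i
    have hW : 0 < W i := lt_of_lt_of_le one_pos (h.W1 i)
    rw [norm_mul, norm_ee]
    have h1 := h.term k ht i
    refine le_trans (mul_le_mul_of_nonneg_right (hF i) (Real.exp_pos _).le) ?_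
    have e1 : 2 * Real.pi * Q i * u.im = 2 * Real.pi * u.im * Q i := by ring
    rw [e1]
    exact h1
  have hs := h.sm.mul_left ((2 * N * (1 + (2 * Real.pi * u.im)⁻¹)) ^ (k + 4) *
    (((k + 4).factorial : ℝ) * Real.exp 1))
  have hb := norm_tsum_bd hs hterm
  rw [tsum_mul_left] at hb
  refine le_trans hb ?_
  have hS : 0 ≤ ∑' i, (W i ^ 4)⁻¹ := tsum_nonneg fun i => by
    have hW : 0 < W i := lt_of_lt_of_le one_pos (h.W1 i)
    positivity
  have h1 : (2 * N * (1 + (2 * Real.pi * u.im)⁻¹)) ^ (k + 4) ≤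
      (2 * N) ^ (k + 4) * (2 ^ (k + 4) * (1 + (u.im ^ (k + 4))⁻¹)) := by
    have h2 : (2 * Real.pi * u.im)⁻¹ ≤ u.im⁻¹ := by
      apply inv_anti₀ hu
      have := Real.pi_gt_three
      nlinarith
    have h3 := one_add_pow_le u.im⁻¹ (by positivity) (k + 4)
    rw [inv_pow] at h3
    calc (2 * N * (1 + (2 * Real.pi * u.im)⁻¹)) ^ (k + 4)
        ≤ (2 * N * (1 + u.im⁻¹)) ^ (k + 4) := by gcongr
      _ = (2 * N) ^ (k + 4) * (1 + u.im⁻¹) ^ (k + 4) := by rw [mul_pow]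
      _ ≤ _ := by gcongr
  calc (2 * N * (1 + (2 * Real.pi * u.im)⁻¹)) ^ (k + 4) *
        (((k + 4).factorial : ℝ) * Real.exp 1) * ∑' i, (W i ^ 4)⁻¹
      ≤ ((2 * N) ^ (k + 4) * (2 ^ (k + 4) * (1 + (u.im ^ (k + 4))⁻¹))) *
        (((k + 4).factorial : ℝ) * Real.exp 1) * ∑' i, (W i ^ 4)⁻¹ := by gcongr
    _ = _ := by ring

/-! ### the summability over an ideal -/

theorem summ_int : Summable fun m : ℤ => ((1 + |(m : ℝ)|) ^ 2)⁻¹ := by
  have h1 : Summable fun m : ℤ => 1 / (m : ℝ) ^ 2 :=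
    Real.summable_one_div_int_pow.2 (by norm_num)
  have h2 : Summable fun m : ℤ => if m = 0 then (1 : ℝ) else 0 :=
    (hasSum_ite_eq (0 : ℤ) (1 : ℝ)).summable
  refine Summable.of_nonneg_of_le (fun m => by positivity) (fun m => ?_) (h1.add h2)
  by_cases hm : m = 0
  · subst hm
    simp
  · rw [if_neg hm, add_zero, one_div]
    have h3 : (0 : ℝ) < |(m : ℝ)| := abs_pos.2 (Int.cast_ne_zero.2 hm)
    rw [← sq_abs (m : ℝ)]
    gcongr
    linarith

theorem summ_ideal {F : Type} [Field F] [NumberField F] (σ : F →+* ℂ) (a : Ideal (𝓞 F))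
    (X Y : 𝓞 F) (hb : OBasis σ a X Y) :
    Summable fun x : a => ((1 + ‖σ ((x : 𝓞 F) : F)‖) ^ 4)⁻¹ := by
  have hex : ∀ x : a, ∃ p : ℤ × ℤ, (x : 𝓞 F) = (p.1 : 𝓞 F) * X + (p.2 : 𝓞 F) * Y := by
    intro x
    obtain ⟨m, n, h⟩ := (hb.mem x).1 x.2
    exact ⟨(m, n), h⟩
  choose φ hφ using hex
  have hinj : Function.Injective φ := by
    intro x y hxy
    apply Subtype.ext
    rw [hφ x, hφ y, hxy]
  set V : ℝ := (σ X * conj (σ Y)).im with hV
  have hVpos : 0 < V := hb.pos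
  set B : ℝ := ‖σ X‖ + ‖σ Y‖ + V with hB
  have hX0 := norm_nonneg (σ (X : F))
  have hY0 := norm_nonneg (σ (Y : F))
  have hBpos : 0 < B := by
    rw [hB]
    linarith
  have hlow : ∀ x : a, (1 + |((φ x).1 : ℝ)|) * V ≤ B * (1 + ‖σ ((x : 𝓞 F) : F)‖) ∧
      (1 + |((φ x).2 : ℝ)|) * V ≤ B * (1 + ‖σ ((x : 𝓞 F) : F)‖) := by
    intro x
    have hz : σ ((x : 𝓞 F) : F) = ((φ x).1 : ℂ) * σ X + ((φ x).2 : ℂ) * σ Y := by
      rw [hφ x]
      simp
    set z : ℂ := σ ((x : 𝓞 F) : F) with hzdef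
    have hz0 : 0 ≤ ‖z‖ := norm_nonneg z
    have h1 : (z * conj (σ Y)).im = ((φ x).1 : ℝ) * V := by
      rw [hz, hV]
      simp
      ring
    have h2 : (z * conj (σ X)).im = -(((φ x).2 : ℝ) * V) := by
      rw [hz, hV]
      simp
      ring
    have h3 : |((φ x).1 : ℝ)| * V ≤ ‖z‖ * ‖σ Y‖ := by
      have := Complex.abs_im_le_norm (z * conj (σ Y))
      rw [h1, abs_mul, abs_of_pos hVpos, norm_mul, RCLike.norm_conj] at this
      exact this
    have h4 : |((φ x).2 : ℝ)| * V ≤ ‖z‖ * ‖σ X‖ := by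
      have := Complex.abs_im_le_norm (z * conj (σ X))
      rw [h2, abs_neg, abs_mul, abs_of_pos hVpos, norm_mul, RCLike.norm_conj] at this
      exact this
    have h5 : ‖z‖ * ‖σ Y‖ ≤ ‖z‖ * B := mul_le_mul_of_nonneg_left (by rw [hB]; linarith) hz0
    have h6 : ‖z‖ * ‖σ X‖ ≤ ‖z‖ * B := mul_le_mul_of_nonneg_left (by rw [hB]; linarith) hz0
    constructor <;> nlinarith
  have hg : Summable fun p : ℤ × ℤ =>
      ((1 + |(p.1 : ℝ)|) ^ 2)⁻¹ * ((1 + |(p.2 : ℝ)|) ^ 2)⁻¹ :=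
    summ_int.mul_of_nonneg summ_int (fun m => by positivity) (fun m => by positivity)
  have hg2 := (hg.comp_injective hinj).mul_left ((B / V) ^ 4)
  refine Summable.of_nonneg_of_le (fun x => by positivity) (fun x => ?_) hg2
  obtain ⟨h1, h2⟩ := hlow x
  set w : ℝ := 1 + ‖σ ((x : 𝓞 F) : F)‖ with hw
  have hw0 : 0 < w := by
    rw [hw]
    positivity
  have h3 : (1 + |((φ x).1 : ℝ)|) ≤ B / V * w := by
    rw [div_mul_eq_mul_div, le_div_iff₀ hVpos]
    exact h1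
  have h4 : (1 + |((φ x).2 : ℝ)|) ≤ B / V * w := by
    rw [div_mul_eq_mul_div, le_div_iff₀ hVpos]
    exact h2
  have h5 : (1 + |((φ x).1 : ℝ)|) ^ 2 * (1 + |((φ x).2 : ℝ)|) ^ 2 ≤ (B / V) ^ 4 * w ^ 4 := by
    calc (1 + |((φ x).1 : ℝ)|) ^ 2 * (1 + |((φ x).2 : ℝ)|) ^ 2
        ≤ (B / V * w) ^ 2 * (B / V * w) ^ 2 := by gcongr
      _ = _ := by ring
  show (w ^ 4)⁻¹ ≤ (B / V) ^ 4 * (((1 + |((φ x).1 : ℝ)|) ^ 2)⁻¹ * ((1 + |((φ x).2 : ℝ)|) ^ 2)⁻¹)
  rw [← mul_inv, ← div_eq_mul_inv, inv_eq_one_div, div_le_div_iff₀ (by positivity) (by positivity),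
    one_mul]
  exact h5

end ThBAux

open ThBAux

/-- (B4) -/
theorem stThB (h₁ : StBas) (h₂ : StBase) : StThB := by
  intro q F _ _ s σ χ cj a k r hD ha
  obtain ⟨-, -, -, -, -, hnorm, -, -, -, -, -⟩ := h₁ q F _ _ s σ χ cj hD
  obtain ⟨hbas, -⟩ := h₂ q F _ _ s σ χ cj hD
  obtain ⟨X, Y, hXY⟩ := hbas a ha
  have hN0 : 0 < Ideal.absNorm a :=
    Nat.pos_of_ne_zero (fun h => ha (Ideal.absNorm_eq_zero_iff.1 h))
  have hN1 : (1 : ℝ) ≤ (Ideal.absNorm a : ℝ) := by exact_mod_cast hN0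
  have hq0 : (0 : ℝ) < q := by exact_mod_cast hD.prime.pos
  have hq1 : (1 : ℝ) ≤ q := by exact_mod_cast hD.prime.pos
  -- integrality
  have hint : ∀ x ∈ a, ∃ n : ℕ, Qa σ a x = n := by
    intro x hx
    have h1 : Ideal.absNorm a ∣ Ideal.absNorm (Ideal.span {x}) :=
      Ideal.absNorm_dvd_absNorm_of_le ((Ideal.span_singleton_le_iff_mem a).2 hx)
    obtain ⟨n, hn⟩ := h1
    refine ⟨n, ?_⟩
    unfold Qa
    rw [hnorm x, hn]
    push_cast
    field_simp
  have hQn : ∀ x : 𝓞 F, Qa σ a x = ‖σ (x : F)‖ ^ 2 / (Ideal.absNorm a : ℝ) := by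
    intro x
    unfold Qa
    rw [Complex.normSq_eq_norm_sq]
  have hdt : Dt (Ideal.absNorm a : ℝ) (fun x : a => 1 + ‖σ ((x : 𝓞 F) : F)‖)
      (fun x : a => Qa σ a x) := by
    refine ⟨hN1, fun x => by linarith [norm_nonneg (σ ((x : 𝓞 F) : F))], fun x => ?_, fun x => ?_,
      fun x => ?_, summ_ideal σ a X Y hXY⟩
    · rw [hQn]
      positivity
    · rw [hQn]
      have h0 := norm_nonneg (σ ((x : 𝓞 F) : F))
      have h1 : (Ideal.absNorm a : ℝ) * (‖σ ((x : 𝓞 F) : F)‖ ^ 2 / (Ideal.absNorm a : ℝ)) =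
          ‖σ ((x : 𝓞 F) : F)‖ ^ 2 := by
        field_simp
      have h2 : (2 : ℝ) * (Ideal.absNorm a : ℝ) *
          (1 + ‖σ ((x : 𝓞 F) : F)‖ ^ 2 / (Ideal.absNorm a : ℝ)) =
          2 * (Ideal.absNorm a : ℝ) + 2 * ((Ideal.absNorm a : ℝ) *
            (‖σ ((x : 𝓞 F) : F)‖ ^ 2 / (Ideal.absNorm a : ℝ))) := by
        ring
      rw [h2, h1]
      nlinarith [sq_nonneg (‖σ ((x : 𝓞 F) : F)‖ - 1)]
    · rw [hQn]
      have h0 := norm_nonneg (σ ((x : 𝓞 F) : F))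
      have h1 : ‖σ ((x : 𝓞 F) : F)‖ ^ 2 / (Ideal.absNorm a : ℝ) ≤ ‖σ ((x : 𝓞 F) : F)‖ ^ 2 :=
        div_le_self (by positivity) hN1
      nlinarith
  have hR1 : ∀ x : a, (1 : ℝ) * Qa σ a x ≤ Qa σ a x := fun x => by rw [one_mul]
  have hRq : ∀ x : a, (1 / (q : ℝ)) * Qa σ a x ≤ Qa σ a x / q := fun x => by
    rw [one_div, inv_mul_eq_div]
  have hRq' : ∀ x : a, Qa σ a x / q ≤ Qa σ a x := fun x => div_le_self (hdt.Q0 x) hq1
  have hcq : 0 < 1 / (q : ℝ) := by positivity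
  have hw0 : ∀ x : a, 0 ≤ ‖σ ((x : 𝓞 F) : F)‖ := fun x => norm_nonneg _
  have hpow : ∀ x : a, ‖σ ((x : 𝓞 F) : F) ^ k‖ ≤ (1 + ‖σ ((x : 𝓞 F) : F)‖) ^ k := fun x => by
    rw [norm_pow]
    exact pow_le_pow_left₀ (hw0 x) (by linarith [hw0 x]) k
  have hpowS : ∀ x : a, ‖(σ ((x : 𝓞 F) : F) / (Complex.I * Real.sqrt q)) ^ k‖ ≤
      (1 + ‖σ ((x : 𝓞 F) : F)‖) ^ k := fun x => by
    rw [norm_pow, norm_div, norm_mul, Complex.norm_I, one_mul,
      Complex.norm_of_nonneg (Real.sqrt_nonneg _)]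
    refine pow_le_pow_left₀ (by positivity) ?_ k
    have h1 : (1 : ℝ) ≤ Real.sqrt q := Real.one_le_sqrt.2 hq1
    exact le_trans (div_le_self (hw0 x) h1) (by linarith [hw0 x])
  have hthS : ∀ u : ℂ, thS q σ a k u = ∑' x : a,
      (σ ((x : 𝓞 F) : F) / (Complex.I * Real.sqrt q)) ^ k *
        ee (((Qa σ a x / q : ℝ) : ℂ) * u) := by
    intro u
    unfold thS
    refine tsum_congr fun x => ?_
    push_cast
    rfl
  have hthl : ∀ u : ℂ, thl σ a r u = ((u.im : ℂ) ^ r)⁻¹ *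
      ∑' x : a, lag r (4 * Real.pi * ((Qa σ a x : ℝ) : ℂ) * u.im) *
        ee (((Qa σ a x : ℝ) : ℂ) * u) := by
    intro u
    rfl
  have hthlS : ∀ u : ℂ, thlS q σ a r u = ((u.im : ℂ) ^ r)⁻¹ *
      ∑' x : a, lag r (4 * Real.pi * ((Qa σ a x / q : ℝ) : ℂ) * u.im) *
        ee (((Qa σ a x / q : ℝ) : ℂ) * u) := by
    intro u
    unfold thlS
    congr 1
    refine tsum_congr fun x => ?_
    push_cast
    rfl
  have himc : ContinuousOn (fun u : ℂ => ((u.im : ℂ) ^ r)⁻¹) {u : ℂ | 0 < u.im} := by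
    refine ContinuousOn.inv₀ (Continuous.continuousOn (by fun_prop)) fun u hu => ?_
    have h1 : (0 : ℝ) < u.im := hu
    exact pow_ne_zero _ (by exact_mod_cast h1.ne')
  have hlagc : ∀ (R : a → ℝ) (c : ℝ), 0 < c → (∀ x : a, c * Qa σ a x ≤ R x) →
      (∀ x : a, R x ≤ Qa σ a x) → ContinuousOn (fun u : ℂ => ∑' x : a,
        lag r (4 * Real.pi * (R x : ℂ) * u.im) * ee ((R x : ℂ) * u)) {u : ℂ | 0 < u.im} := by
    intro R c hc hR hR'
    refine hdt.contOn R hc hR (fun x u => lag r (4 * Real.pi * (R x : ℂ) * u.im))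
      (2 ^ r * (4 * Real.pi) ^ r) (by have := Real.pi_pos; positivity) (2 * r) ?_ ?_
    · intro x
      exact ((lag_cont r).comp (by fun_prop)).continuousOn
    · intro x u hu
      have hpi := Real.pi_pos
      have hpi3 := Real.pi_gt_three
      have hRx : 0 ≤ R x := le_trans (mul_nonneg hc.le (hdt.Q0 x)) (hR x)
      have e1 : (4 * Real.pi * (R x : ℂ) * u.im : ℂ) =
          ((4 * Real.pi * R x * u.im : ℝ) : ℂ) := by
        push_cast
        ring
      show ‖lag r (4 * Real.pi * (R x : ℂ) * u.im)‖ ≤ _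
      rw [e1]
      refine le_trans (lag_bd r _ (by positivity)) ?_
      have h3 : 1 + R x ≤ (1 + ‖σ ((x : 𝓞 F) : F)‖) ^ 2 :=
        le_trans (by linarith [hR' x]) (hdt.QW x)
      have h4 : 1 + 4 * Real.pi * R x * u.im ≤
          4 * Real.pi * ((1 + ‖σ ((x : 𝓞 F) : F)‖) ^ 2 * (1 + u.im) ^ 2) := by
        have h5 : 1 + 4 * Real.pi * R x * u.im ≤ 4 * Real.pi * ((1 + R x) * (1 + u.im)) := by
          have h6 : 0 ≤ 4 * Real.pi * R x := by positivity
          have h7 : 0 ≤ 4 * Real.pi * u.im := by positivity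
          nlinarith
        refine le_trans h5 ?_
        have h6 : (1 + u.im) ≤ (1 + u.im) ^ 2 := by nlinarith
        gcongr
      calc (2 : ℝ) ^ r * (1 + 4 * Real.pi * R x * u.im) ^ r
          ≤ 2 ^ r * (4 * Real.pi * ((1 + ‖σ ((x : 𝓞 F) : F)‖) ^ 2 * (1 + u.im) ^ 2)) ^ r := by
            gcongr
        _ = _ := by
            rw [mul_pow (4 * Real.pi) _ r, mul_pow (((1 : ℝ) + ‖σ ((x : 𝓞 F) : F)‖) ^ 2) _ r,
              ← pow_mul, ← pow_mul]
            ring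
  have hQone : ∀ x : a, σ ((x : 𝓞 F) : F) ≠ 0 → 1 ≤ Qa σ a x := by
    intro x hx
    obtain ⟨n, hn⟩ := hint x x.2
    rw [hn]
    have h1 : n ≠ 0 := by
      rintro rfl
      rw [hQn, Nat.cast_zero, div_eq_zero_iff] at hn
      rcases hn with hn | hn
      · exact hx (norm_eq_zero.1 (pow_eq_zero_iff (two_ne_zero)|>.1 hn))
      · exact absurd hn (by positivity)
    exact_mod_cast Nat.one_le_iff_ne_zero.2 h1
  refine ⟨hint, fun t ht => hdt.summ k ht, ?_, ?_, ?_, ?_, ?_, ?_, ?_, ?_, ?_⟩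
  · -- continuity of th
    refine hdt.contOn _ one_pos hR1 (fun x _ => σ ((x : 𝓞 F) : F) ^ k) 1 zero_le_one k
      (fun x => continuousOn_const) ?_
    intro x u hu
    have h1 : (1 : ℝ) ≤ (1 + u.im) ^ k := one_le_pow₀ (by linarith)
    rw [one_mul]
    exact le_trans (hpow x) (le_mul_of_one_le_right (by positivity) h1)
  · -- continuity of thS
    refine ContinuousOn.congr (hdt.contOn (fun x => Qa σ a x / q) hcq hRq
      (fun x _ => (σ ((x : 𝓞 F) : F) / (Complex.I * Real.sqrt q)) ^ k) 1 zero_le_one k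
      (fun x => continuousOn_const) ?_) (fun u _ => hthS u)
    intro x u hu
    have h1 : (1 : ℝ) ≤ (1 + u.im) ^ k := one_le_pow₀ (by linarith)
    rw [one_mul]
    exact le_trans (hpowS x) (le_mul_of_one_le_right (by positivity) h1)
  · exact himc.mul (hlagc _ 1 one_pos hR1 (fun x => le_rfl))
  · exact ContinuousOn.congr (himc.mul (hlagc _ _ hcq hRq hRq')) (fun u _ => hthlS u)
  · intro u
    unfold th
    refine tsum_congr fun x => ?_
    obtain ⟨n, hn⟩ := hint x x.2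
    rw [hn, mul_add, mul_one, ee_add]
    push_cast
    rw [ee_nat, mul_one]
  · intro u
    unfold thl
    have him : (u + 1).im = u.im := by simp
    rw [him]
    congr 1
    refine tsum_congr fun x => ?_
    obtain ⟨n, hn⟩ := hint x x.2
    rw [hn, mul_add, mul_one, ee_add]
    push_cast
    rw [ee_nat, mul_one]
  · intro hk
    have hz : ∀ x : a, σ ((x : 𝓞 F) : F) ^ k = 0 ∨ 1 / (q : ℝ) ≤ Qa σ a x := by
      intro x
      by_cases hx : σ ((x : 𝓞 F) : F) = 0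
      · left
        rw [hx, zero_pow (by omega)]
      · right
        refine le_trans ?_ (hQone x hx)
        rw [div_le_one hq0]
        exact hq1
    have hzS : ∀ x : a, (σ ((x : 𝓞 F) : F) / (Complex.I * Real.sqrt q)) ^ k = 0 ∨
        1 / (q : ℝ) ≤ Qa σ a x / q := by
      intro x
      by_cases hx : σ ((x : 𝓞 F) : F) = 0
      · left
        rw [hx, zero_div, zero_pow (by omega)]
      · right
        have := hQone x hx
        gcongr
    obtain ⟨C₁, hC₁, h1⟩ := hdt.expSum (fun x => Qa σ a x) one_pos hR1 k _ hpow hz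
    obtain ⟨C₂, hC₂, h2⟩ := hdt.expSum (fun x => Qa σ a x / q) hcq hRq k _ hpowS hzS
    refine ⟨C₁ + C₂, Real.pi * (1 / (q : ℝ)), by have := Real.pi_pos; positivity, ?_⟩
    intro u hu
    constructor
    · refine le_trans (h1 u hu) ?_
      gcongr
      linarith
    · rw [hthS u]
      refine le_trans (h2 u hu) ?_
      gcongr
      linarith
  · obtain ⟨C₁, h1⟩ := hdt.lagSum (fun x => Qa σ a x) one_pos hR1 (fun x => le_rfl) r
    obtain ⟨C₂, h2⟩ := hdt.lagSum (fun x => Qa σ a x / q) hcq hRq hRq' r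
    refine ⟨max C₁ C₂, fun u hu => ⟨?_, ?_⟩⟩
    · rw [hthl u]
      exact le_trans (h1 u hu) (le_max_left _ _)
    · rw [hthlS u]
      exact le_trans (h2 u hu) (le_max_right _ _)
  · obtain ⟨C, A, h1⟩ := hdt.polySum k _ hpow
    exact ⟨C, A, h1⟩

end RZ

end Pool.Agent.Lib.MP_7c08ba_nt
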