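import Pool.Agent.Lib.MP_7c08ba_nt.RZ.StA
import Pool.Agent.Lib.MP_7c08ba_nt.RZ.StB

set_option autoImplicit false

/-!
Module `ThS`: the transformation `u ↦ -1/u` of the theta series of ideals.
-/

namespace Pool.Agent.Lib.MP_7c08ba_nt

namespace RZ

open NumberField MeasureTheory UpperHalfPlane Set
open scoped MatrixGroups ComplexConjugate nonZeroDivisors

namespace ThSAux

variable {F : Type} [Field F] [NumberField F]

/-- coordinates in an ideal -/
noncomputable def coord (a : Ideal (𝓞 F)) (x y : 𝓞 F)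
    (hmem : ∀ z : 𝓞 F, z ∈ a ↔ ∃ m n : ℤ, z = (m : 𝓞 F) * x + (n : 𝓞 F) * y)
    (hinj : ∀ m n : ℤ, (m : 𝓞 F) * x + (n : 𝓞 F) * y = 0 → m = 0 ∧ n = 0) : ℤ × ℤ ≃ a :=
  Equiv.ofBijective (fun p => ⟨(p.1 : 𝓞 F) * x + (p.2 : 𝓞 F) * y, (hmem _).2 ⟨p.1, p.2, rfl⟩⟩) <| by
    constructor
    · rintro ⟨m, n⟩ ⟨m', n'⟩ h
      have h1 : (m : 𝓞 F) * x + (n : 𝓞 F) * y = (m' : 𝓞 F) * x + (n' : 𝓞 F) * y :=
        congrArg Subtype.val h
      have h2 := hinj (m - m') (n - n') (by push_cast; linear_combination h1)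
      ext
      · show m = m'
        linarith [h2.1]
      · show n = n'
        linarith [h2.2]
    · rintro ⟨z, hz⟩
      obtain ⟨m, n, h⟩ := (hmem z).1 hz
      exact ⟨(m, n), Subtype.ext h.symm⟩

end ThSAux

open ThSAux

theorem stThS (h1 : StPoisK) (h2 : StBase) (_h3 : StBas) : StThS := by
  intro q F _ _ s σ χ cj a k u hD ha hk hu
  obtain ⟨b1, -, b3, b4, -⟩ := h2 q F _ _ s σ χ cj hD
  obtain ⟨x, y, hxy⟩ := b1 a ha
  have him := b3 a x y hxy
  set e := coord a x y hxy.mem (b4 a x y hxy) with he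
  have hq0 : (0 : ℝ) < q := by exact_mod_cast hD.prime.pos
  have hsq : (0 : ℝ) < Real.sqrt q := Real.sqrt_pos.2 hq0
  have hsqC : (Real.sqrt q : ℂ) ≠ 0 := by exact_mod_cast hsq.ne'
  have hsq2 : (Real.sqrt q : ℂ) ^ 2 = q := by
    rw [← Complex.ofReal_pow, Real.sq_sqrt hq0.le]
    simp
  set N : ℝ := (Ideal.absNorm a : ℝ) with hN
  have hN0 : 0 < N := by
    rw [hN]
    exact_mod_cast Nat.pos_of_ne_zero (by rwa [Ne, Ideal.absNorm_eq_zero_iff])
  have hNC : (N : ℂ) ≠ 0 := by exact_mod_cast hN0.ne'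
  set X : ℂ := σ (x : F) with hX
  set Y : ℂ := σ (y : F) with hY
  have hpos : 0 < (X * conj Y).im := by rw [him]; positivity
  have key := h1 k X Y 0 u N hpos hN0 hu
  have hDval : (Complex.I * N / (2 * (X * conj Y).im) : ℂ) = Complex.I / Real.sqrt q := by
    rw [him]
    push_cast
    field_simp
  simp only [hDval, zero_add] at key
  have hval : ∀ p : ℤ × ℤ, σ ((e p : 𝓞 F) : F) = p.1 * X + p.2 * Y := fun p => by
    show σ (((p.1 : 𝓞 F) * x + (p.2 : 𝓞 F) * y : 𝓞 F) : F) = _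
    push_cast
    simp [hX, hY]
  have hL : th σ a k (-1 / u) = ∑' p : ℤ × ℤ, (p.1 * X + p.2 * Y) ^ k *
        ee (Complex.normSq (p.1 * X + p.2 * Y) / N * (-1 / u)) := by
    unfold th
    rw [← e.tsum_eq]
    refine tsum_congr fun p => ?_
    rw [hval, Qa, hval]
    push_cast
    rfl
  have hR : thS q σ a k u = ∑' p : ℤ × ℤ, ((p.1 * X + p.2 * Y) / (Complex.I * Real.sqrt q)) ^ k *
        ee (Complex.normSq (p.1 * X + p.2 * Y) / N / q * u) := by
    unfold thS
    rw [← e.tsum_eq]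
    refine tsum_congr fun p => ?_
    rw [hval, Qa, hval]
    push_cast
    rfl
  rw [hL, key, hR]
  have hI : ((Complex.I / Real.sqrt q) * (-u) ^ (k + 1) : ℂ) =
      (-Complex.I / Real.sqrt q) * u ^ (k + 1) := by
    rw [Odd.neg_pow (Even.add_one hk)]
    ring
  rw [hI]
  congr 1
  refine tsum_congr fun p => ?_
  set α : ℂ := p.1 * X + p.2 * Y with hα
  have e1 : ee (2 * ((0 : ℂ) * conj (Complex.I / Real.sqrt q * α)).re / N) = 1 := by
    simp [ee]
  have e2 : (Complex.I / Real.sqrt q * α : ℂ) ^ k = (α / (Complex.I * Real.sqrt q)) ^ k := by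
    have : (Complex.I / Real.sqrt q * α : ℂ) = -(α / (Complex.I * Real.sqrt q)) := by
      field_simp
      rw [Complex.I_sq]
      ring
    rw [this, Even.neg_pow hk]
  have e3 : (Complex.normSq (Complex.I / Real.sqrt q * α) : ℂ) = Complex.normSq α / q := by
    rw [Complex.normSq_mul, Complex.normSq_div, Complex.normSq_I, Complex.normSq_ofReal,
      Real.mul_self_sqrt hq0.le]
    push_cast
    ring
  rw [e1, one_mul, e2, e3]
  congr 3
  ring

end RZ

end Pool.Agent.Lib.MP_7c08ba_nt
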