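import Mathlib
import Pool.Agent.Lib.MP_7c08ba_nt.RZ.StA
import Pool.Agent.Lib.MP_7c08ba_nt.RZ.StB

set_option autoImplicit false

/-!
(B7) Laguerre theta series of ideals: the group `Γ₀(q)` and `u ↦ -1/u`.
-/

namespace Pool.Agent.Lib.MP_7c08ba_nt

namespace RZ

open NumberField MeasureTheory UpperHalfPlane Set
open scoped MatrixGroups ComplexConjugate nonZeroDivisors

namespace ThlAux

variable {F : Type} [Field F] [NumberField F]

theorem th_zero (σ : F →+* ℂ) (a : Ideal (𝓞 F)) (u : ℂ) :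
    th σ a 0 u = ∑' x : a, ee (Qa σ a x * u) := by
  simp [th]

theorem thS_zero (q : ℕ) (σ : F →+* ℂ) (a : Ideal (𝓞 F)) (u : ℂ) :
    thS q σ a 0 u = ∑' x : a, ee (((Qa σ a x / q : ℝ) : ℂ) * u) := by
  simp [thS]

end ThlAux

theorem stThl (h1 : StRaise) (h2 : StThS) (h3 : StThG) (_h4 : StBas) (h5 : StThB) : StThl := by
  intro q F _ _ s σ χ cj a r hD ha
  have hq : (0 : ℝ) < q := by exact_mod_cast hD.prime.pos
  have hQ : ∀ x : a, 0 ≤ Qa σ a (x : 𝓞 F) := fun x =>
    div_nonneg (Complex.normSq_nonneg _) (Nat.cast_nonneg _)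
  have hS : ∀ y : ℝ, 0 < y → Summable fun x : a => Real.exp (-Qa σ a (x : 𝓞 F) * y) := by
    intro y hy
    have h := (h5 q F _ _ s σ χ cj a 0 r hD ha).2.1 y hy
    refine h.congr fun x => ?_
    rw [pow_zero, one_mul, neg_mul, mul_comm y]
  have hS' : ∀ y : ℝ, 0 < y →
      Summable fun x : a => Real.exp (-(Qa σ a (x : 𝓞 F) / q) * y) := by
    intro y hy
    refine (hS (y / q) (div_pos hy hq)).congr fun x => ?_
    congr 1
    ring
  refine ⟨?_, ?_⟩
  · intro g z hz hg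
    have hdet : (g 0 0 : ℝ) * (g 1 1 : ℝ) - (g 0 1 : ℝ) * (g 1 0 : ℝ) = 1 := by
      have := g.det_coe
      rw [Matrix.det_fin_two] at this
      exact_mod_cast this
    have key := h1 a r (fun x : a => Qa σ a (x : 𝓞 F)) (fun x : a => Qa σ a (x : 𝓞 F))
      (g 0 0 : ℝ) (g 0 1 : ℝ) (g 1 0 : ℝ) (g 1 1 : ℝ) (χ (g 1 1 : ℤ)) hQ hQ hS hS hdet
      (fun u hu => by
        have h := h3 q F _ _ s σ χ cj a 0 hD ha (by simp) g u hu hg
        rw [ThlAux.th_zero, ThlAux.th_zero, zero_add, pow_one] at h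
        simpa using h) z hz
    simpa [thl] using key
  · intro u hu
    have key := h1 a r (fun x : a => Qa σ a (x : 𝓞 F)) (fun x : a => Qa σ a (x : 𝓞 F) / q)
      0 (-1) 1 0 (-Complex.I / Real.sqrt q) hQ (fun x => div_nonneg (hQ x) hq.le) hS hS'
      (by norm_num)
      (fun v hv => by
        have h := h2 q F _ _ s σ χ cj a 0 v hD ha (by simp) hv
        rw [ThlAux.th_zero, ThlAux.thS_zero, zero_add, pow_one] at h
        simpa using h) u hu
    simpa [thl, thlS] using key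

end RZ

end Pool.Agent.Lib.MP_7c08ba_nt
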