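import Pool.Agent.Lib.MP_7c08ba_nt.RZ.StB

set_option autoImplicit false

/-! (B10) splitting of primes. -/

namespace Pool.Agent.Lib.MP_7c08ba_nt

namespace RZ

open NumberField MeasureTheory UpperHalfPlane Set
open scoped MatrixGroups ComplexConjugate nonZeroDivisors

namespace SplitAux

/-- quadratic reciprocity: `(-q/p) = (p/q)` for `q = 3` mod 4 -/
theorem recip {p q : ℕ} (hp : Odd p) (hq : q % 4 = 3) : jacobiSym (-(q : ℤ)) p = jacobiSym p q := by
  have hqo : Odd q := Nat.odd_iff.2 (by omega)
  rw [jacobiSym.neg _ hp]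
  rcases (by have := Nat.odd_iff.1 hp; omega : p % 4 = 1 ∨ p % 4 = 3) with h | h
  · rw [ZMod.χ₄_nat_one_mod_four h, one_mul,
      jacobiSym.quadratic_reciprocity_one_mod_four' hqo h]
  · rw [ZMod.χ₄_nat_three_mod_four h,
      jacobiSym.quadratic_reciprocity_three_mod_four h hq, neg_one_mul]

theorem jac_two {q : ℕ} (hq : q % 8 = 7) : jacobiSym 2 q = 1 := by
  have hqo : Odd q := Nat.odd_iff.2 (by omega)
  rw [jacobiSym.at_two hqo, ZMod.χ₈_nat_eq_if_mod_eight, if_neg (by omega), if_pos (by omega)]

variable {F : Type} [Field F] [NumberField F]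

theorem N_mul (x y : 𝓞 F) : Ideal.absNorm (Ideal.span {x * y}) =
    Ideal.absNorm (Ideal.span {x}) * Ideal.absNorm (Ideal.span {y}) := by
  rw [← Ideal.span_singleton_mul_span_singleton, map_mul]

theorem N_dvd {x y : 𝓞 F} (h : x ∣ y) : Ideal.absNorm (Ideal.span {x}) ∣
    Ideal.absNorm (Ideal.span {y}) := by
  obtain ⟨z, rfl⟩ := h
  rw [N_mul]
  exact dvd_mul_right _ _

theorem castinj {m n : ℕ} (h : (m : 𝓞 F) = n) : m = n := by exact_mod_cast h

end SplitAux

open SplitAux in
theorem stSplit (hB : StBas) : StSplit := by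
  intro q F _ _ s σ χ cj hD p hp
  obtain ⟨hcoord, hcc, hcs, hsd, hN, -, hI, hun, hsp, -, hsn⟩ := hB q F _ _ s σ χ cj hD
  have hq := hD.prime
  have hq16 := hD.mod
  have hs2 := hD.sq
  have hp0 : (p : 𝓞 F) ≠ 0 := by exact_mod_cast hp.ne_zero
  have hNp : ∀ n : ℕ, Ideal.absNorm (Ideal.span {(n : 𝓞 F)}) = n * n := by
    intro n
    have := hN (n : 𝓞 F)
    rw [map_natCast] at this
    exact castinj (F := F) (by rw [← this]; push_cast; rfl)
  have hNs : Ideal.absNorm (Ideal.span {s}) = q := by
    have := hN s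
    rw [hcs] at this
    exact castinj (F := F) (by rw [← this]; linear_combination -hs2)
  have hpn : ∀ n : ℕ, (p : 𝓞 F) ∣ (n : 𝓞 F) → p ∣ n := by
    intro n h
    have h1 := N_dvd h
    rw [hNp, hNp, ← sq, ← sq] at h1
    exact (Nat.pow_dvd_pow_iff two_ne_zero).1 h1
  have hnu : ¬ IsUnit (p : 𝓞 F) := by
    intro h
    have h1 : Ideal.absNorm (Ideal.span {(p : 𝓞 F)}) = 1 := by
      rw [Ideal.absNorm_eq_one_iff, Ideal.span_singleton_eq_top]
      exact h
    rw [hNp] at h1
    have := hp.one_lt
    nlinarith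
  have hxdvd : ∀ x : 𝓞 F, (p : 𝓞 F) ∣ cj x → (p : 𝓞 F) ∣ x := by
    rintro x ⟨y, hy⟩
    refine ⟨cj y, ?_⟩
    have := congrArg cj hy
    rwa [hcc, map_mul, map_natCast] at this
  refine ⟨fun hJ => ?_, fun hJ => ?_, fun hJ => ?_⟩
  · -- split case
    have hpq : p ≠ q := by
      rintro rfl
      have h1 : jacobiSym (p : ℤ) p = 0 := by
        rw [jacobiSym.eq_zero_iff]
        refine ⟨hp.ne_zero, ?_⟩
        rw [Int.gcd_self]
        simpa using hp.one_lt.ne'
      rw [h1] at hJ
      exact absurd hJ (by norm_num)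
    obtain ⟨x, c, hx1, hx2, hc1, hc2⟩ : ∃ (x : 𝓞 F) (c : ℕ), p ∣ Ideal.absNorm (Ideal.span {x}) ∧
        ¬ (p : 𝓞 F) ∣ x ∧ x - cj x = c * s ∧ ¬ p ∣ c := by
      rcases hp.eq_two_or_odd' with h2 | hodd
      · -- p = 2
        subst h2
        obtain ⟨θ, hθ⟩ : ∃ θ : 𝓞 F, 2 * θ = 1 + s := by
          have hi : IsIntegral ℤ ((1 + (s : F)) / 2) := by
            obtain ⟨k, hk⟩ : ∃ k : ℤ, (q : ℤ) + 1 = 4 * k := ⟨((q : ℤ) + 1) / 4, by omega⟩
            refine ⟨Polynomial.X ^ 2 - Polynomial.X + Polynomial.C k, ?_, ?_⟩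
            · monicity!
            · have h3 : (s : F) ^ 2 = -(q : F) := by
                have := congrArg (algebraMap (𝓞 F) F) hs2
                simpa using this
              have h4 : (q : F) + 1 = 4 * (k : F) := by exact_mod_cast congrArg (fun t : ℤ => (t : F)) hk
              rw [Polynomial.eval₂_add, Polynomial.eval₂_sub, Polynomial.eval₂_pow,
                Polynomial.eval₂_X, Polynomial.eval₂_C, eq_intCast]
              linear_combination (1 / 4 : F) * h3 - (1 / 4 : F) * h4
          obtain ⟨θ, hθ⟩ : ∃ θ : 𝓞 F, algebraMap (𝓞 F) F θ = (1 + (s : F)) / 2 :=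
            ⟨⟨_, hi⟩, rfl⟩
          refine ⟨θ, ?_⟩
          apply RingOfIntegers.ext
          have h7 : (algebraMap (𝓞 F) F) 2 = 2 := map_ofNat _ 2
          rw [RingOfIntegers.coe_eq_algebraMap, RingOfIntegers.coe_eq_algebraMap, map_mul, map_add,
            map_one, h7, hθ]
          show (2 : F) * ((1 + (s : F)) / 2) = 1 + (s : F)
          ring
        have hθc : θ - cj θ = s := by
          have h3 := congrArg cj hθ
          rw [map_mul, map_add, map_one, hcs, map_ofNat] at h3
          have h4 : (2 : 𝓞 F) * (θ - cj θ) = 2 * s := by linear_combination hθ - h3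
          exact mul_left_cancel₀ two_ne_zero h4
        refine ⟨θ, 1, ?_, ?_, ?_, ?_⟩
        · have h3 := hN θ
          have h4 := congrArg cj hθ
          rw [map_mul, map_add, map_one, hcs, map_ofNat] at h4
          have h5 : ((4 * Ideal.absNorm (Ideal.span {θ}) : ℕ) : 𝓞 F) = ((q + 1 : ℕ) : 𝓞 F) := by
            push_cast
            rw [← h3]
            linear_combination (2 * cj θ) * hθ + (1 + s) * h4 - hs2
          have h6 := castinj h5
          omega
        · intro h
          obtain ⟨y, hy⟩ := h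
          have h3 : (2 : 𝓞 F) * (y - cj y) = s := by
            rw [← hθc, hy, map_mul, map_natCast]
            push_cast
            ring
          have h4 := N_dvd (F := F) (Dvd.intro _ h3)
          have h5 := hNp 2
          push_cast at h5
          rw [h5, hNs] at h4
          omega
        · rw [hθc]
          push_cast
          ring
        · omega
      · -- p odd
        have : Fact p.Prime := ⟨hp⟩
        have h1 : jacobiSym (-(q : ℤ)) p = 1 := by rw [recip hodd (by omega), hJ]
        have h2 := ZMod.isSquare_of_jacobiSym_eq_one h1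
        obtain ⟨t, ht⟩ := h2
        obtain ⟨a, rfl⟩ := ZMod.intCast_surjective t
        have h3 : (p : ℤ) ∣ a * a + q := by
          rw [← ZMod.intCast_zmod_eq_zero_iff_dvd]
          push_cast
          push_cast at ht
          rw [← ht]
          ring
        have hp2 : ¬ p ∣ 2 := by
          intro h
          have := (Nat.prime_dvd_prime_iff_eq hp Nat.prime_two).1 h
          rw [this] at hodd
          exact absurd hodd (by decide)
        have hcx : cj (s - (a : 𝓞 F)) = -s - a := by rw [map_sub, hcs, map_intCast]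
        refine ⟨s - (a : 𝓞 F), 2, ?_, ?_, ?_, hp2⟩
        · have h4 := hN (s - (a : 𝓞 F))
          rw [hcx] at h4
          have h5 : ((Ideal.absNorm (Ideal.span {s - (a : 𝓞 F)}) : ℤ) : 𝓞 F) =
              ((a * a + q : ℤ) : 𝓞 F) := by
            push_cast
            rw [← h4]
            linear_combination -hs2
          have h6 : (Ideal.absNorm (Ideal.span {s - (a : 𝓞 F)}) : ℤ) = a * a + q := by
            exact_mod_cast h5
          rw [← h6] at h3
          exact_mod_cast h3
        · intro h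
          obtain ⟨y, hy⟩ := h
          have h4 : (p : 𝓞 F) * (y - cj y) = ((2 : ℕ) : 𝓞 F) * s := by
            have h5 := congrArg cj hy
            rw [hcx, map_mul, map_natCast] at h5
            push_cast
            linear_combination -hy + h5
          have h5 := N_dvd (F := F) (Dvd.intro _ h4)
          rw [hNp, N_mul, hNp, hNs] at h5
          have h6 : Nat.Coprime (p * p) (2 * 2) := by
            have : Nat.Coprime p 2 := (Nat.coprime_primes hp Nat.prime_two).2 (fun h => hp2 (h ▸ dvd_rfl))
            exact Nat.Coprime.mul_left (this.mul_right this) (this.mul_right this)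
          have h7 := h6.dvd_of_dvd_mul_left h5
          have h8 : p ∣ q := (dvd_mul_right p p).trans h7
          exact hpq ((Nat.prime_dvd_prime_iff_eq hp hq).1 h8)
        · rw [hcx]
          push_cast
          ring
    -- the ideal `(p)` is not prime
    have hxp : x * cj x ∈ Ideal.span {(p : 𝓞 F)} := by
      rw [hN, Ideal.mem_span_singleton]
      exact_mod_cast (Nat.cast_dvd_cast (α := 𝓞 F) hx1)
    have hnp : ¬ (Ideal.span {(p : 𝓞 F)}).IsPrime := by
      intro h
      rcases h.mem_or_mem hxp with h1 | h1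
      · exact hx2 (Ideal.mem_span_singleton.1 h1)
      · exact hx2 (hxdvd x (Ideal.mem_span_singleton.1 h1))
    have htop : Ideal.span {(p : 𝓞 F)} ≠ ⊤ := by
      rw [Ne, Ideal.span_singleton_eq_top]
      exact hnu
    obtain ⟨P, hPm, hPle⟩ := Ideal.exists_le_maximal _ htop
    have hPp : P.IsPrime := hPm.isPrime
    have hdvd := Ideal.absNorm_dvd_absNorm_of_le hPle
    rw [hNp, ← sq, Nat.dvd_prime_pow hp] at hdvd
    obtain ⟨k, hk2, hk⟩ := hdvd
    have hk1 : k = 1 := by
      rcases (by omega : k = 0 ∨ k = 1 ∨ k = 2) with rfl | rfl | rfl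
      · rw [pow_zero, Ideal.absNorm_eq_one_iff] at hk
        exact absurd hk hPp.ne_top
      · rfl
      · exfalso
        obtain ⟨J, hJJ⟩ := Ideal.dvd_iff_le.2 hPle
        have h1 := congrArg Ideal.absNorm hJJ
        rw [map_mul, hk, hNp, ← sq] at h1
        have h2 : Ideal.absNorm J = 1 := by
          have h3 : 0 < p ^ 2 := pow_pos hp.pos 2
          exact (Nat.mul_left_cancel h3 (by rw [mul_one]; exact h1)).symm
        rw [Ideal.absNorm_eq_one_iff] at h2
        rw [h2, Ideal.mul_top] at hJJ
        rw [hJJ] at hnp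
        exact hnp hPp
    rw [hk1, pow_one] at hk
    have hPP := hI P
    rw [hk] at hPP
    have hcjm : ∀ y, y ∈ P → cj y ∈ P.map (cj : 𝓞 F →+* 𝓞 F) := fun y hy =>
      Ideal.mem_map_of_mem _ hy
    refine ⟨P, P.map (cj : 𝓞 F →+* 𝓞 F), hPp, ?_, ?_, hPP, hk, ?_⟩
    · exact Ideal.map_isPrime_of_equiv cj
    · intro heq
      have h1 : x ∈ P ∧ cj x ∈ P := by
        rcases hPp.mem_or_mem (hPle hxp) with h1 | h1
        · refine ⟨h1, ?_⟩
          rw [heq]
          exact hcjm x h1
        · refine ⟨?_, h1⟩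
          rw [heq]
          have := hcjm _ h1
          rwa [hcc] at this
      have h2 := P.sub_mem h1.1 h1.2
      rw [hc1] at h2
      have h3 : ((c * c * q : ℕ) : 𝓞 F) ∈ P := by
        have h4 := P.mul_mem_left (-(c * s : 𝓞 F)) h2
        have h5 : -(c * s : 𝓞 F) * (c * s) = ((c * c * q : ℕ) : 𝓞 F) := by
          push_cast
          linear_combination -(c : 𝓞 F) ^ 2 * hs2
        rwa [h5] at h4
      have h6 : (p : 𝓞 F) ∈ P := hPle (Ideal.mem_span_singleton_self _)
      have h7 : IsCoprime (p : ℤ) ((c * c * q : ℕ) : ℤ) := by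
        rw [Nat.isCoprime_iff_coprime]
        have h8 : Nat.Coprime p c := (Nat.Prime.coprime_iff_not_dvd hp).2 hc2
        have h9 : Nat.Coprime p q := (Nat.coprime_primes hp hq).2 hpq
        exact (h8.mul_right h8).mul_right h9
      obtain ⟨u, v, huv⟩ := h7
      apply hPp.ne_top
      rw [Ideal.eq_top_iff_one]
      have h8 := congrArg (fun t : ℤ => (t : 𝓞 F)) huv
      simp only [Int.cast_add, Int.cast_mul, Int.cast_natCast, Int.cast_one] at h8
      rw [← h8]
      exact P.add_mem (P.mul_mem_left _ h6) (P.mul_mem_left _ h3)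
    · have h1 := congrArg Ideal.absNorm hPP
      rw [map_mul, hk, hNp] at h1
      exact Nat.mul_left_cancel hp.pos h1
  · -- inert case
    have hodd : Odd p := by
      rcases hp.eq_two_or_odd' with h2 | hodd
      · subst h2
        have h3 := jac_two (q := q) (by omega)
        push_cast at hJ
        rw [h3] at hJ
        exact absurd hJ (by norm_num)
      · exact hodd
    have : Fact p.Prime := ⟨hp⟩
    have h1 : jacobiSym (-(q : ℤ)) p = -1 := by rw [recip hodd (by omega), hJ]
    have key : ∀ x : 𝓞 F, p ∣ Ideal.absNorm (Ideal.span {x}) → (p : 𝓞 F) ∣ x := by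
      intro x hx
      obtain ⟨a, b, hab, -⟩ := hcoord x
      have h2 := congrArg cj hab
      rw [map_mul, map_add, map_mul, map_intCast, map_intCast, hcs, map_ofNat] at h2
      have h3 := hN x
      have h4 : ((4 * Ideal.absNorm (Ideal.span {x}) : ℤ) : 𝓞 F) =
          ((a ^ 2 - -(q : ℤ) * b ^ 2 : ℤ) : 𝓞 F) := by
        push_cast
        rw [← h3]
        linear_combination (2 * cj x) * hab + ((a : 𝓞 F) + b * s) * h2 - (b : 𝓞 F) ^ 2 * hs2
      have h5 : (4 * Ideal.absNorm (Ideal.span {x}) : ℤ) = a ^ 2 - -(q : ℤ) * b ^ 2 := by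
        exact_mod_cast h4
      have h6 : (p : ℤ) ∣ a ^ 2 - -(q : ℤ) * b ^ 2 := by
        rw [← h5]
        exact Dvd.dvd.mul_left (by exact_mod_cast hx) _
      obtain ⟨⟨a', ha'⟩, ⟨b', hb'⟩⟩ := jacobiSym.prime_dvd_of_eq_neg_one h1 h6
      obtain ⟨k, hk⟩ := hodd
      refine ⟨x - k * (a' + b' * s), ?_⟩
      have h7 : (p : 𝓞 F) = 2 * k + 1 := by
        rw [hk]
        push_cast
        ring
      rw [ha', hb'] at hab
      push_cast at hab
      linear_combination (-x) * h7 + (-k : 𝓞 F) * hab
    refine ⟨?_, ?_⟩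
    · rw [Ideal.span_singleton_prime hp0]
      refine ⟨hp0, hnu, fun a b hab => ?_⟩
      have h2 : p ∣ Ideal.absNorm (Ideal.span {a}) * Ideal.absNorm (Ideal.span {b}) := by
        rw [← N_mul]
        have h3 := N_dvd hab
        rw [hNp] at h3
        exact (dvd_mul_right p p).trans h3
      rcases hp.dvd_mul.1 h2 with h3 | h3
      · exact Or.inl (key _ h3)
      · exact Or.inr (key _ h3)
    · rw [hNp, sq]
  · -- ramified case
    have hpq : p = q := by
      rw [jacobiSym.eq_zero_iff] at hJ
      obtain ⟨-, h1⟩ := hJ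
      by_contra h2
      apply h1
      rw [Int.gcd_natCast_natCast]
      exact (Nat.coprime_primes hp hq).2 h2
    subst hpq
    refine ⟨rfl, hsp, ?_, hNs⟩
    rw [Ideal.span_singleton_pow, hs2, Ideal.span_singleton_neg]

end RZ

end Pool.Agent.Lib.MP_7c08ba_nt
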