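import Pool.Agent.Lib.MP_7c08ba_nt.RZ.StR

set_option autoImplicit false

/-! (R27) the derivative at `-r` is not zero for large `r`. -/

namespace Pool.Agent.Lib.MP_7c08ba_nt

namespace RZ

open NumberField MeasureTheory Set
open scoped MatrixGroups ComplexConjugate nonZeroDivisors

namespace Big

theorem chi_ne_one {D : ℕ} [NeZero D] {χ : DirichletCharacter ℂ D} (hD : OddD D)
    (hχ : ∀ n : ℤ, χ n = (jacobiSym n D : ℂ)) : χ ≠ 1 := by
  rintro rfl
  have h1 := hχ (-1)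
  have hodd : Odd D := by
    rw [Nat.odd_iff]
    have := hD.2.1
    omega
  rw [jacobiSym.at_neg_one hodd, ZMod.χ₄_nat_three_mod_four hD.2.1] at h1
  have h3 : IsUnit (((-1 : ℤ) : ℤ) : ZMod D) := by
    rw [Int.cast_neg, Int.cast_one]
    exact isUnit_one.neg
  rw [MulChar.one_apply h3] at h1
  norm_num at h1

/-- the main estimate -/
theorem key {L H H' c₀ C N : ℝ} {L' X : ℂ} (hL : 0 < L) (hN : 0 < N) (hH' : 0 ≤ H')
    (hH : (C / 2 + 2 * ‖L'‖) / L - c₀ < H) (hX : ‖X‖ ≤ C * N) :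
    2 * (N : ℂ) * ((L : ℂ) * ((H' : ℂ) + H + c₀) + 2 * L') + X ≠ 0 := by
  intro h0
  have h1 : C / 2 + 2 * ‖L'‖ < L * (H + c₀) := by
    have h2 : (C / 2 + 2 * ‖L'‖) / L < H + c₀ := by linarith
    rw [div_lt_iff₀ hL] at h2
    linarith
  have h2 : L * (H + c₀) ≤ L * (H' + H + c₀) := mul_le_mul_of_nonneg_left (by linarith) hL.le
  have h3 : L * (H' + H + c₀) ≤ ‖(L : ℂ) * ((H' : ℂ) + H + c₀)‖ := by
    have : (L : ℂ) * ((H' : ℂ) + H + c₀) = ((L * (H' + H + c₀) : ℝ) : ℂ) := by push_cast; ring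
    rw [this, Complex.norm_real]
    exact le_abs_self _
  have h4 : ‖(L : ℂ) * ((H' : ℂ) + H + c₀)‖ ≤
      ‖(L : ℂ) * ((H' : ℂ) + H + c₀) + 2 * L'‖ + 2 * ‖L'‖ := by
    have h5 := norm_sub_le ((L : ℂ) * ((H' : ℂ) + H + c₀) + 2 * L') (2 * L')
    rw [add_sub_cancel_right] at h5
    refine h5.trans (le_of_eq ?_)
    rw [norm_mul (2 : ℂ) L', Complex.norm_two]
  have h5 : C / 2 < ‖(L : ℂ) * ((H' : ℂ) + H + c₀) + 2 * L'‖ := by linarith
  have h6 : X = -(2 * (N : ℂ) * ((L : ℂ) * ((H' : ℂ) + H + c₀) + 2 * L')) :=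
    eq_neg_of_add_eq_zero_right h0
  have h7 : ‖X‖ = 2 * N * ‖(L : ℂ) * ((H' : ℂ) + H + c₀) + 2 * L'‖ := by
    rw [h6, norm_neg, norm_mul, norm_mul, Complex.norm_two, Complex.norm_real,
      Real.norm_of_nonneg hN.le]
  rw [h7] at hX
  have h8 : 2 * N * (C / 2) < 2 * N * ‖(L : ℂ) * ((H' : ℂ) + H + c₀) + 2 * L'‖ :=
    mul_lt_mul_of_pos_left h5 (by linarith)
  have h9 : 2 * N * (C / 2) = C * N := by ring
  linarith

end Big

theorem stBig (h1 : StEqR) (h2 : StDT) (h3 : StSuB) (h4 : StSgG) (h5 : StSuA) : StBig := by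
  intro D _ F _ _ s σ χ cj hd hp
  obtain ⟨-, -, L, hL0, hL⟩ := h4 D inferInstance F _ _ s σ χ cj hd
  obtain ⟨C, hC⟩ := h3 D inferInstance F _ _ s σ χ cj hd hp
  have hχ : χ ≠ 1 := Big.chi_ne_one hd.odd hd.chi
  have hL1 : DirichletCharacter.LFunction χ 1 ≠ 0 := by
    rw [hL]
    exact_mod_cast hL0.ne'
  set c₀ : ℝ := -2 * Real.eulerMascheroniConstant + Real.log (D / (4 * Real.pi ^ 2)) with hc₀
  set L' : ℂ := deriv (DirichletCharacter.LFunction χ) 1 with hL'
  set K : ℝ := (C / 2 + 2 * ‖L'‖) / L - c₀ with hK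
  refine ⟨max 5 ⌈Real.exp K⌉₊, ?_⟩
  intro w k r ψ c P hψ hco hw hr hP
  have h5r : 5 ≤ r := (le_max_left _ _).trans hr
  have hKr : K < ((harmonic r : ℚ) : ℝ) := by
    have h6 : (⌈Real.exp K⌉₊ : ℝ) ≤ r := by
      exact_mod_cast (le_max_right _ _).trans hr
    have h7 : Real.exp K < (r : ℝ) + 1 := by
      have := Nat.le_ceil (Real.exp K)
      linarith
    have h8 : K < Real.log ((r : ℝ) + 1) := by
      rw [Real.lt_log_iff_exp_lt (by positivity)]
      exact h7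
    have h9 := log_add_one_le_harmonic r
    push_cast at h9
    linarith
  -- the region
  have hr5 : (5 : ℝ) ≤ r := by exact_mod_cast h5r
  have hopen : IsOpen {t : ℂ | -(r : ℝ) - 1 / 4 < t.re ∧ t.re < -1} :=
    (isOpen_lt continuous_const Complex.continuous_re).inter
      (isOpen_lt Complex.continuous_re continuous_const)
  have hmem : (-(r : ℂ)) ∈ {t : ℂ | -(r : ℝ) - 1 / 4 < t.re ∧ t.re < -1} := by
    constructor
    · rw [Complex.neg_re, Complex.natCast_re]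
      linarith
    · rw [Complex.neg_re, Complex.natCast_re]
      linarith
  have hnh := hopen.mem_nhds hmem
  have hev : (fun t => rsD D (HN D χ k r ψ c t) P) =ᶠ[nhds (-(r : ℂ))]
      fun t => (T1 D χ k r t + T2 D χ k r t) + SUM D χ k r ψ c t := by
    filter_upwards [hnh] with t ht
    exact h1 D inferInstance F _ _ s σ χ cj w k r ψ c P hd hp hψ hco hw (by omega) hP t ht.1 ht.2
  have hS : DifferentiableAt ℂ (SUM D χ k r ψ c) (-(r : ℂ)) :=
    (h5 D inferInstance F _ _ s σ χ cj k r ψ c hd hp hψ).1.differentiableAt hnh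
  obtain ⟨hT, hT'⟩ := h2 D inferInstance χ hχ hL1 k r
  have hTd : DifferentiableAt ℂ (fun t => T1 D χ k r t + T2 D χ k r t) (-(r : ℂ)) := by
    refine hT.differentiableAt ?_
    refine ((isOpen_lt continuous_const Complex.continuous_re).inter
      (isOpen_lt Complex.continuous_re continuous_const)).mem_nhds ?_
    constructor
    · show -2 * (r : ℝ) - 1 < (-(r : ℂ)).re
      rw [Complex.neg_re, Complex.natCast_re]
      linarith
    · show (-(r : ℂ)).re < 1
      rw [Complex.neg_re, Complex.natCast_re]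
      linarith
  rw [hev.deriv_eq, deriv_fun_add hTd hS, hT']
  have hN : (0 : ℝ) < ((k + r).factorial : ℝ) * ((4 * Real.pi) ^ (k + r + 1))⁻¹ := by
    have := Real.pi_pos
    have := Nat.factorial_pos (k + r)
    positivity
  have hX : ‖deriv (SUM D χ k r ψ c) (-(r : ℂ))‖ ≤
      C * (((k + r).factorial : ℝ) * ((4 * Real.pi) ^ (k + r + 1))⁻¹) := by
    rw [← mul_assoc]
    exact hC k r ψ c hψ h5r
  have hH' : (0 : ℝ) ≤ ((harmonic (k + r) : ℚ) : ℝ) := by
    have : (0 : ℚ) ≤ harmonic (k + r) := by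
      unfold harmonic
      positivity
    exact_mod_cast this
  have h6 := Big.key hL0 hN hH' hKr hX
  have h7 : 2 * ((4 * Real.pi : ℂ) ^ (k + r + 1))⁻¹ * ((k + r).factorial : ℂ) *
        (DirichletCharacter.LFunction χ 1 * ((harmonic (k + r) : ℂ) + (harmonic r : ℂ) -
          2 * Real.eulerMascheroniConstant + Real.log (D / (4 * Real.pi ^ 2))) + 2 * L') =
      2 * ((((k + r).factorial : ℝ) * ((4 * Real.pi) ^ (k + r + 1))⁻¹ : ℝ) : ℂ) *
        ((L : ℂ) * ((((harmonic (k + r) : ℚ) : ℝ) : ℂ) + (((harmonic r : ℚ) : ℝ) : ℂ) + c₀) +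
          2 * L') := by
    rw [hL, hc₀]
    push_cast
    ring
  rw [h7]
  exact h6

end RZ

end Pool.Agent.Lib.MP_7c08ba_nt
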