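import Pool.Agent.Lib.MP_7c08ba_nt.RZ.StR

set_option autoImplicit false

/-!
Module R25 of RANK ONE: the derivative of the two main terms at the centre.
-/

namespace Pool.Agent.Lib.MP_7c08ba_nt

namespace RZ

namespace DTAux

open Complex

/-- Composition with an affine map. -/
lemma hd_aff {f : ℂ → ℂ} {f' x y : ℂ} {g : ℂ → ℂ} (b : ℂ) (hg : HasDerivAt g b x) (h : g x = y)
    (hf : HasDerivAt f f' y) : HasDerivAt (fun t => f (g t)) (f' * b) x := by
  subst h
  exact hf.comp x hg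

lemma four_pi_pos : (0 : ℝ) < 4 * Real.pi := by positivity

lemma four_pi_ne : (4 * Real.pi : ℂ) ≠ 0 := by
  have h : ((4 * Real.pi : ℝ) : ℂ) ≠ 0 := Complex.ofReal_ne_zero.2 four_pi_pos.ne'
  push_cast at h
  exact h

lemma log_four_pi : Complex.log (4 * Real.pi : ℂ) = (Real.log (4 * Real.pi) : ℂ) := by
  rw [Complex.ofReal_log four_pi_pos.le]
  push_cast
  rfl

variable (D : ℕ) [NeZero D]

lemma D_pos : (0 : ℝ) < D := by
  exact_mod_cast Nat.pos_of_ne_zero (NeZero.ne D)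

lemma pi_div_pos : (0 : ℝ) < Real.pi / D := div_pos Real.pi_pos (D_pos D)

lemma pi_div_ne : (Real.pi / D : ℂ) ≠ 0 := by
  have h : ((Real.pi / D : ℝ) : ℂ) ≠ 0 := Complex.ofReal_ne_zero.2 (pi_div_pos D).ne'
  push_cast at h
  exact h

lemma log_pi_div : Complex.log (Real.pi / D : ℂ) = (Real.log (Real.pi / D) : ℂ) := by
  rw [Complex.ofReal_log (pi_div_pos D).le]
  push_cast
  rfl

lemma log_eq : Real.log (D / (4 * Real.pi ^ 2)) =
    -Real.log (4 * Real.pi) - Real.log (Real.pi / D) := by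
  have h1 : (D : ℝ) / (4 * Real.pi ^ 2) = ((4 * Real.pi) * (Real.pi / D))⁻¹ := by
    have hD := (D_pos D).ne'
    have hp := Real.pi_pos.ne'
    field_simp
  rw [h1, Real.log_inv, Real.log_mul four_pi_pos.ne' (pi_div_pos D).ne']
  ring

lemma cpow_eq (k r : ℕ) : (4 * Real.pi : ℂ) ^ (-((k : ℂ) + 2 * r + 1 + -(r : ℂ))) =
    ((4 * Real.pi : ℂ) ^ (k + r + 1))⁻¹ := by
  have h : -((k : ℂ) + 2 * r + 1 + -(r : ℂ)) = -((k + r + 1 : ℕ) : ℂ) := by
    push_cast
    ring
  rw [h, Complex.cpow_neg, Complex.cpow_natCast]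

lemma cpow_eq' (k r : ℕ) : (4 * Real.pi : ℂ) ^ (-(r : ℂ) - k - 1) =
    ((4 * Real.pi : ℂ) ^ (k + r + 1))⁻¹ := by
  have h : -(r : ℂ) - k - 1 = -((k + r + 1 : ℕ) : ℂ) := by
    push_cast
    ring
  rw [h, Complex.cpow_neg, Complex.cpow_natCast]

variable (χ : DirichletCharacter ℂ D) (hχ : χ ≠ 1) (k r : ℕ)

include hχ in
lemma deriv_T1 : HasDerivAt (T1 D χ k r)
    (((4 * Real.pi : ℂ) ^ (k + r + 1))⁻¹ * ((k + r).factorial : ℂ) *
      (2 * deriv (DirichletCharacter.LFunction χ) 1 + DirichletCharacter.LFunction χ 1 *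
        (-(Real.eulerMascheroniConstant : ℂ) + (harmonic (k + r) : ℂ) -
          (Real.log (4 * Real.pi) : ℂ)))) (-(r : ℂ)) := by
  have hL : HasDerivAt (DirichletCharacter.LFunction χ)
      (deriv (DirichletCharacter.LFunction χ) 1) 1 :=
    ((DirichletCharacter.differentiable_LFunction hχ) 1).hasDerivAt
  have hG := Complex.hasDerivAt_Gamma_nat (k + r)
  -- the factors
  have g1 : HasDerivAt (fun t : ℂ => 2 * (r : ℂ) + 1 + 2 * t) 2 (-(r : ℂ)) := by
    simpa using ((hasDerivAt_id (-(r : ℂ))).const_mul 2).const_add (2 * (r : ℂ) + 1)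
  have h1 := hd_aff 2 g1 (y := 1) (by ring) hL
  have g2 : HasDerivAt (fun t : ℂ => (k : ℂ) + 2 * r + 1 + t) 1 (-(r : ℂ)) := by
    simpa using (hasDerivAt_id (-(r : ℂ))).const_add ((k : ℂ) + 2 * r + 1)
  have h2 := hd_aff 1 g2 (y := ((k + r : ℕ) : ℂ) + 1) (by push_cast; ring) hG
  have g3 : HasDerivAt (fun t : ℂ => -((k : ℂ) + 2 * r + 1 + t)) (-1) (-(r : ℂ)) := g2.neg
  have h3 := g3.const_cpow (c := (4 * Real.pi : ℂ)) (Or.inl four_pi_ne)
  have h := (h1.mul h2).mul h3
  have e : T1 D χ k r = fun t : ℂ => DirichletCharacter.LFunction χ (2 * r + 1 + 2 * t) *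
      Complex.Gamma (k + 2 * r + 1 + t) * (4 * Real.pi : ℂ) ^ (-((k : ℂ) + 2 * r + 1 + t)) := rfl
  rw [e]
  refine h.congr_deriv ?_
  have e1 : 2 * (r : ℂ) + 1 + 2 * -(r : ℂ) = 1 := by ring
  have e2 : (k : ℂ) + 2 * r + 1 + -(r : ℂ) = ((k + r : ℕ) : ℂ) + 1 := by push_cast; ring
  simp only [e1, cpow_eq, log_four_pi, Pi.mul_apply]
  rw [e2, Complex.Gamma_nat_eq_factorial]
  ring

include hχ in
lemma deriv_T2 : HasDerivAt (T2 D χ k r)
    (-(((4 * Real.pi : ℂ) ^ (k + r + 1))⁻¹ * ((k + r).factorial : ℂ) *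
      (DirichletCharacter.LFunction χ 1 * ((Real.log (4 * Real.pi) : ℂ) +
        2 * (Real.log (Real.pi / D) : ℂ) -
          (-(Real.eulerMascheroniConstant : ℂ) + (harmonic (k + r) : ℂ)) -
          2 * (-(Real.eulerMascheroniConstant : ℂ) + (harmonic r : ℂ))) -
        2 * deriv (DirichletCharacter.LFunction χ) 1))) (-(r : ℂ)) := by
  have hL : HasDerivAt (DirichletCharacter.LFunction χ)
      (deriv (DirichletCharacter.LFunction χ) 1) 1 :=
    ((DirichletCharacter.differentiable_LFunction hχ) 1).hasDerivAt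
  have hG := Complex.hasDerivAt_Gamma_nat (k + r)
  have hG' := Complex.hasDerivAt_Gamma_nat r
  -- the factors
  have g1 : HasDerivAt (fun t : ℂ => t - k - 1) 1 (-(r : ℂ)) := by
    simpa using ((hasDerivAt_id (-(r : ℂ))).sub_const (k : ℂ)).sub_const 1
  have h1 := g1.const_cpow (c := (4 * Real.pi : ℂ)) (Or.inl four_pi_ne)
  have g2 : HasDerivAt (fun t : ℂ => 2 * (t + r)) 2 (-(r : ℂ)) := by
    simpa using ((hasDerivAt_id (-(r : ℂ))).add_const (r : ℂ)).const_mul 2
  have h2 := g2.const_cpow (c := (Real.pi / D : ℂ)) (Or.inl (pi_div_ne D))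
  have g3 : HasDerivAt (fun t : ℂ => 1 - 2 * (t + r)) (-2) (-(r : ℂ)) := by
    simpa using g2.const_sub 1
  have h3 := hd_aff (-2) g3 (y := 1) (by ring) hL
  have g4 : HasDerivAt (fun t : ℂ => (k : ℂ) + 1 - t) (-1) (-(r : ℂ)) := by
    simpa using (hasDerivAt_id (-(r : ℂ))).const_sub ((k : ℂ) + 1)
  have h4 := hd_aff (-1) g4 (y := ((k + r : ℕ) : ℂ) + 1) (by push_cast; ring) hG
  have g5 : HasDerivAt (fun t : ℂ => 1 - t) (-1) (-(r : ℂ)) := by
    simpa using (hasDerivAt_id (-(r : ℂ))).const_sub (1 : ℂ)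
  have h5 := hd_aff (-1) g5 (y := (r : ℂ) + 1) (by ring) hG'
  have g6 : HasDerivAt (fun t : ℂ => 2 * (r : ℂ) + 1 + t) 1 (-(r : ℂ)) := by
    simpa using (hasDerivAt_id (-(r : ℂ))).const_add (2 * (r : ℂ) + 1)
  have h6 := hd_aff 1 g6 (y := (r : ℂ) + 1) (by ring) hG'
  have e6 : 2 * (r : ℂ) + 1 + -(r : ℂ) = (r : ℂ) + 1 := by ring
  have hr0 : ((r.factorial : ℕ) : ℂ) ≠ 0 := by exact_mod_cast r.factorial_ne_zero
  have hne : Complex.Gamma (2 * (r : ℂ) + 1 + -(r : ℂ)) ≠ 0 := by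
    rw [e6, Complex.Gamma_nat_eq_factorial]
    exact hr0
  have h := (((((h1.mul h2).mul h3).mul h4).mul h5).div h6 hne).neg
  have e : T2 D χ k r = fun t : ℂ => -((4 * Real.pi : ℂ) ^ (t - k - 1) *
      (Real.pi / D : ℂ) ^ (2 * (t + r)) * DirichletCharacter.LFunction χ (1 - 2 * (t + r)) *
        Complex.Gamma (k + 1 - t) * Complex.Gamma (1 - t) / Complex.Gamma (2 * r + 1 + t)) := rfl
  rw [e]
  refine h.congr_deriv ?_
  have e1 : 1 - 2 * (-(r : ℂ) + r) = 1 := by ring
  have e2 : 2 * (-(r : ℂ) + r) = 0 := by ring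
  have e4 : (k : ℂ) + 1 - -(r : ℂ) = ((k + r : ℕ) : ℂ) + 1 := by push_cast; ring
  have e5 : 1 - -(r : ℂ) = (r : ℂ) + 1 := by ring
  simp only [Pi.mul_apply, e1, e2, cpow_eq', log_four_pi, log_pi_div, Complex.cpow_zero]
  rw [e4, e5, e6, Complex.Gamma_nat_eq_factorial, Complex.Gamma_nat_eq_factorial]
  field_simp
  ring

end DTAux

open DTAux in
/-- (R25) the derivative of the other terms at `-r`. -/
theorem stDT : StDT := by
  intro D _ χ hχ _ k r
  constructor
  · intro t ht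
    obtain ⟨ht1, ht2⟩ := ht
    have hL := DirichletCharacter.differentiable_LFunction hχ
    apply DifferentiableAt.differentiableWithinAt
    have gam : ∀ z : ℂ, 0 < z.re → DifferentiableAt ℂ Complex.Gamma z := by
      intro z hz
      refine Complex.differentiableAt_Gamma _ fun m hm => ?_
      rw [hm] at hz
      simp only [Complex.neg_re, Complex.natCast_re] at hz
      have : (0 : ℝ) ≤ m := Nat.cast_nonneg m
      linarith
    have hk : (0 : ℝ) ≤ k := Nat.cast_nonneg k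
    have d1 : DifferentiableAt ℂ (T1 D χ k r) t := by
      refine DifferentiableAt.mul (DifferentiableAt.mul ?_ ?_) ?_
      · exact (hL _).comp t (by fun_prop)
      · refine (gam _ ?_).comp t (by fun_prop)
        simp
        linarith
      · exact DifferentiableAt.const_cpow (by fun_prop) (Or.inl four_pi_ne)
    have d2 : DifferentiableAt ℂ (T2 D χ k r) t := by
      refine DifferentiableAt.neg (DifferentiableAt.div (DifferentiableAt.mul
        (DifferentiableAt.mul (DifferentiableAt.mul (DifferentiableAt.mul ?_ ?_) ?_) ?_) ?_) ?_ ?_)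
      · exact DifferentiableAt.const_cpow (by fun_prop) (Or.inl four_pi_ne)
      · exact DifferentiableAt.const_cpow (by fun_prop) (Or.inl (pi_div_ne D))
      · exact (hL _).comp t (by fun_prop)
      · refine (gam _ ?_).comp t (by fun_prop)
        simp
        linarith
      · refine (gam _ ?_).comp t (by fun_prop)
        simp
        linarith
      · refine (gam _ ?_).comp t (by fun_prop)
        simp
        linarith
      · apply Complex.Gamma_ne_zero_of_re_pos
        simp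
        linarith
    exact d1.add d2
  · have h := (deriv_T1 D χ hχ k r).add (deriv_T2 D χ hχ k r)
    have e : deriv (fun t => T1 D χ k r t + T2 D χ k r t) (-(r : ℂ)) = _ := h.deriv
    rw [e, log_eq D]
    push_cast
    ring

end RZ

end Pool.Agent.Lib.MP_7c08ba_nt
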