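import Mathlib
import Pool.Agent.Lib.MP_7c08ba_nt.RZ.StE

set_option autoImplicit false

/-!
Statements of the modules for rank one: the derivative at the centre of the `L`-functions of
`BC_F(f) ⊗ ψ`, `ψ` of type `(k, 0)`, `w = k + 2 * r + 2` (sign `-1`), `F` of prime discriminant
`-D`.
-/

namespace Pool.Agent.Lib.MP_7c08ba_nt

namespace RZ

open NumberField MeasureTheory UpperHalfPlane Set IsDedekindDomain
open scoped MatrixGroups ComplexConjugate nonZeroDivisors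

/-- The Fourier integral of the general term of the Eisenstein series. -/
noncomputable def Wf (r : ℕ) (N : ℤ) (t : ℂ) (y : ℝ) : ℂ :=
  ∫ x : ℝ, ee (N * x) * gE r t (x + y * Complex.I)

/-- The integral over the upper half plane. -/
noncomputable def Kn (k r n m : ℕ) (t : ℂ) : ℂ :=
  ∫ y in Ioi (0 : ℝ), Complex.exp (-(2 * Real.pi * (n + m) * y)) * Wf r ((n : ℤ) - m) t y *
    (y : ℂ) ^ (t + k + 2 * r)

/-- The integral over the upper half plane in polar coordinates. -/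
noncomputable def Kp (k r n m : ℕ) (t : ℂ) : ℂ :=
  Complex.Gamma (k + 1 - t) * (2 * Real.pi : ℂ) ^ (t - k - 1) *
    ∫ φ in (0 : ℝ)..Real.pi, Complex.exp (-((2 * r + 1) * φ * Complex.I)) *
      (Real.sin φ : ℂ) ^ (t + k + 2 * r) *
      (((n : ℂ) + m) * Real.sin φ + Complex.I * (((m : ℂ) - n) * Real.cos φ)) ^ (t - k - 1)

/-- The finite sums in the Fourier coefficients of the Eisenstein series. -/
noncomputable def Gs (M : ℕ) (g : ℕ → ℤ → ℂ) (N : ℤ) (c : ℕ) : ℂ :=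
  ∑ d ∈ Finset.range (M * c), g c d * ee (-(N * d / (M * c)))

/-- The Jacobi polynomials `P_r^(0,k)(2x-1)`. -/
noncomputable def Jac (k r : ℕ) (x : ℝ) : ℝ :=
  ∑ i ∈ Finset.range (r + 1), ((k + r).choose i : ℝ) * (r.choose i : ℝ) * (x - 1) ^ i *
    x ^ (r - i)

/-- Product of a Fourier series and an Eisenstein series without the terms with `c = 0`. -/
noncomputable def GT (M r : ℕ) (g : ℕ → ℤ → ℂ) (ρ : ℕ → ℂ) (t z : ℂ) : ℂ :=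
  (∑' n : ℕ, ρ n * ee (n * z)) * ((z.im : ℂ) ^ t *
    ∑' p : ℕ × ℤ, g (p.1 + 1) p.2 * gE r t (M * ((p.1 : ℂ) + 1) * z + p.2))

section

variable {F : Type} [Field F] [NumberField F]

/-- The coefficients of the theta series of the Hecke character. -/
noncomputable def rT {σ : F →+* ℂ} (k : ℕ) (ψ : Ideal (𝓞 F) →*₀ ℂ) (c : Reps σ) (n : ℕ) : ℂ :=
  if n = 0 then (if k = 0 then 1 / 2 * ∑ A : ClassGroup (𝓞 F), (ψ (c.R A : Ideal (𝓞 F)))⁻¹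
    else 0) else bψ ψ n

/-- The sums over the divisors, cusp `0`. -/
noncomputable def sS (D : ℕ) (χ : DirichletCharacter ℂ D) (n : ℕ) (e : ℂ) : ℂ :=
  ∑ d ∈ ((n : ℤ) - D).natAbs.divisors, χ ((d : ℤ) : ZMod D) * (d : ℂ) ^ (-(2 * e))

/-- The sums over the divisors, cusp infinity. -/
noncomputable def sI (D : ℕ) (χ : DirichletCharacter ℂ D) (n : ℕ) (e : ℂ) : ℂ :=
  ∑ d ∈ ((n : ℤ) - 1).natAbs.divisors, χ ((((n : ℤ) - 1) / d : ℤ) : ZMod D) *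
    (d : ℂ) ^ (-(2 * e))

/-- The contribution of the constant term of the Eisenstein series. -/
noncomputable def T1 (D : ℕ) [NeZero D] (χ : DirichletCharacter ℂ D) (k r : ℕ) (t : ℂ) : ℂ :=
  DirichletCharacter.LFunction χ (2 * r + 1 + 2 * t) * Complex.Gamma (k + 2 * r + 1 + t) *
    (4 * Real.pi : ℂ) ^ (-((k : ℂ) + 2 * r + 1 + t))

/-- The contribution of the `D`-th coefficient of the theta series. -/
noncomputable def T2 (D : ℕ) [NeZero D] (χ : DirichletCharacter ℂ D) (k r : ℕ) (t : ℂ) : ℂ :=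
  -((4 * Real.pi : ℂ) ^ (t - k - 1) * (Real.pi / D : ℂ) ^ (2 * (t + r)) *
    DirichletCharacter.LFunction χ (1 - 2 * (t + r)) * Complex.Gamma (k + 1 - t) *
      Complex.Gamma (1 - t) / Complex.Gamma (2 * r + 1 + t))

/-- The factor in front of the sum for the cusp `0`. -/
noncomputable def cS (D k : ℕ) (t : ℂ) : ℂ :=
  (-Complex.I / Real.sqrt D) * ((Complex.I * Real.sqrt D) ^ k)⁻¹ * (D : ℂ) ^ ((k : ℂ) + 1 - t)

/-- The factor in front of the sum for the cusp infinity. -/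
noncomputable def cI (D r : ℕ) (t : ℂ) : ℂ :=
  -(Complex.I * Real.sqrt D) * (D : ℂ) ^ (-(2 * (r : ℂ) + 1) - 2 * t)

/-- The terms of the sum for the cusp `0`. -/
noncomputable def uS {σ : F →+* ℂ} (D : ℕ) (χ : DirichletCharacter ℂ D) (k r : ℕ)
    (ψ : Ideal (𝓞 F) →*₀ ℂ) (c : Reps σ) (t : ℂ) (n : ℕ) : ℂ :=
  if n = D then 0 else rT k ψ c n * sS D χ n (t + r) * Kp k r n D t

/-- The terms of the sum for the cusp infinity. -/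
noncomputable def uI {σ : F →+* ℂ} (D : ℕ) (χ : DirichletCharacter ℂ D) (k r : ℕ)
    (ψ : Ideal (𝓞 F) →*₀ ℂ) (c : Reps σ) (t : ℂ) (n : ℕ) : ℂ :=
  if n = 1 then 0 else rT k ψ c n * sI D χ n (t + r) * Kp k r n 1 t

/-- The two sums. -/
noncomputable def SUM {σ : F →+* ℂ} (D : ℕ) (χ : DirichletCharacter ℂ D) (k r : ℕ)
    (ψ : Ideal (𝓞 F) →*₀ ℂ) (c : Reps σ) (t : ℂ) : ℂ :=
  cS D k t * ∑' n : ℕ, uS D χ k r ψ c t n + cI D r t * ∑' n : ℕ, uI D χ k r ψ c t n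

end

/-! ### unfolding -/

/-- (R1) integrals against Poincaré series, functions of small growth at the cusp -/
def StPetG : Prop :=
  ∀ (w m : ℕ) (h : ℂ → ℂ), 4 ≤ w → Even w → 1 ≤ m → ContinuousOn h {z | 0 < z.im} → Wt w h →
    (∃ C a : ℝ, a < -1 ∧ ∀ z : ℂ, 1 / 2 ≤ z.im → |z.re| ≤ 1 / 2 → ‖h z‖ ≤ C * z.im ^ a) →
    ∫ z : ℍ in ModularGroup.fd, h z * poinc w m (-conj (z : ℂ)) * (z.im : ℂ) ^ w = JJ w m h

/-- (R2) bounds for the sums of the general terms of the Eisenstein series -/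
def StGB : Prop :=
  ∀ (M r : ℕ) (t : ℂ), 1 ≤ M → 1 / 2 - (r : ℝ) < t.re →
    (∀ z : ℂ, 0 < z.im → Summable fun p : ℕ × ℤ => ‖gE r t (M * ((p.1 : ℂ) + 1) * z + p.2)‖) ∧
    (∀ g : ℕ → ℤ → ℂ, (∀ c d, ‖g c d‖ ≤ 1) → ContinuousOn (fun z : ℂ =>
      ∑' p : ℕ × ℤ, g (p.1 + 1) p.2 * gE r t (M * ((p.1 : ℂ) + 1) * z + p.2)) {z | 0 < z.im}) ∧
    ∀ y₀ : ℝ, 0 < y₀ → ∃ C : ℝ, ∀ z : ℂ, y₀ ≤ z.im →
      ∑' p : ℕ × ℤ, ‖gE r t (M * ((p.1 : ℂ) + 1) * z + p.2)‖ ≤ C * z.im ^ (-2 * (r : ℝ) - 2 * t.re)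

/-- (R3) the theta series of the Hecke character: Fourier expansion with all coefficients, and
the transformation `u ↦ -1 / u` -/
def StThK : Prop :=
  ∀ (D : ℕ) (F : Type) (_ : Field F) (_ : NumberField F) (s : 𝓞 F) (σ : F →+* ℂ)
    (χ : DirichletCharacter ℂ D) (cj : 𝓞 F ≃+* 𝓞 F) (k : ℕ) (ψ : Ideal (𝓞 F) →*₀ ℂ)
    (c : Reps σ), DatD D s σ χ cj → IsHecke σ k ψ →
    (∀ n : ℕ, 1 ≤ n → ‖rT k ψ c n‖ ≤ (n.divisors.card : ℝ) * (n : ℝ) ^ ((k : ℝ) / 2)) ∧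
    (‖rT k ψ c 0‖ ≤ (Nat.card (ClassGroup (𝓞 F)) : ℝ)) ∧ rT k ψ c 1 = 1 ∧
    (D.Prime → rT k ψ c D = (Complex.I * Real.sqrt D) ^ k) ∧
    (∀ u : ℂ, 0 < u.im → (Summable fun n : ℕ => ‖rT k ψ c n * ee (n * u)‖) ∧
      thψ k ψ c u = ∑' n : ℕ, rT k ψ c n * ee (n * u) ∧
      thψ k ψ c (-1 / u) = (-Complex.I / Real.sqrt D) * ((Complex.I * Real.sqrt D) ^ k)⁻¹ *
        u ^ (k + 1) * thψ k ψ c (u / D))

/-- (R4) the trace, `D` prime, in the region of convergence -/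
def StTrS : Prop :=
  ∀ (D : ℕ) (_ : NeZero D) (F : Type) (_ : Field F) (_ : NumberField F) (s : 𝓞 F)
    (σ : F →+* ℂ) (χ : DirichletCharacter ℂ D) (cj : 𝓞 F ≃+* 𝓞 F) (w k r : ℕ)
    (ψ : Ideal (𝓞 F) →*₀ ℂ) (c : Reps σ), DatD D s σ χ cj → D.Prime → IsHecke σ k ψ →
    w = k + 2 * r + 2 → ∀ t z : ℂ, 1 / 2 - (r : ℝ) < t.re → 0 < z.im →
    trD D w (HN D χ k r ψ c t) z =
      DirichletCharacter.LFunction χ (2 * r + 1 + 2 * t) * (thψ k ψ c z * (z.im : ℂ) ^ t) +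
      GT D r (fun _ d => χ (d : ZMod D)) (rT k ψ c) t z +
      (-Complex.I / Real.sqrt D) * ((Complex.I * Real.sqrt D) ^ k)⁻¹ *
        (D : ℂ) ^ (-(2 * (r : ℂ) + 1) - t) * ∑ j ∈ Finset.range D,
          GT 1 r (fun c _ => χ ((c : ℤ) : ZMod D)) (rT k ψ c) t ((z + j) / D)

/-- (R5) growth of the trace in the region of convergence -/
def StGrow : Prop :=
  ∀ (D : ℕ) (_ : NeZero D) (F : Type) (_ : Field F) (_ : NumberField F) (s : 𝓞 F)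
    (σ : F →+* ℂ) (χ : DirichletCharacter ℂ D) (cj : 𝓞 F ≃+* 𝓞 F) (w k r : ℕ)
    (ψ : Ideal (𝓞 F) →*₀ ℂ) (c : Reps σ), DatD D s σ χ cj → D.Prime → IsHecke σ k ψ →
    w = k + 2 * r + 2 → ∀ t : ℂ, 1 / 2 - (r : ℝ) < t.re → ∃ C : ℝ, ∀ z : ℂ, 1 / 2 ≤ z.im →
      ‖trD D w (HN D χ k r ψ c t) z‖ ≤ C * (z.im ^ t.re + z.im ^ (-2 * (r : ℝ) - t.re))

/-- (R6) the integral for the Poincaré series of index one -/
def StRs1 : Prop :=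
  ∀ (D : ℕ) (_ : NeZero D) (F : Type) (_ : Field F) (_ : NumberField F) (s : 𝓞 F)
    (σ : F →+* ℂ) (χ : DirichletCharacter ℂ D) (cj : 𝓞 F ≃+* 𝓞 F) (w k r : ℕ)
    (ψ : Ideal (𝓞 F) →*₀ ℂ) (c : Reps σ) (P : CuspForm 𝒮ℒ (w : ℤ)), DatD D s σ χ cj →
    D.Prime → IsHecke σ k ψ → (∀ A, IsCoprime (c.R A : Ideal (𝓞 F)) (Ideal.span {s})) →
    w = k + 2 * r + 2 → (∀ z : ℍ, P z = poinc w 1 z) →
    ∀ t : ℂ, 1 / 2 - (r : ℝ) < t.re → t.re < -1 →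
      rsD D (HN D χ k r ψ c t) P = JJ w 1 (trD D w (HN D χ k r ψ c t))

/-- (R7) Fourier coefficients of the sums of general terms -/
def StFour : Prop :=
  ∀ (M r : ℕ) (g : ℕ → ℤ → ℂ) (t : ℂ) (N : ℤ) (y : ℝ), 1 ≤ M →
    (∀ (c : ℕ) (d : ℤ), g c (d + M * c) = g c d) → (∀ c d, ‖g c d‖ ≤ 1) →
    1 / 2 - (r : ℝ) < t.re → 0 < y →
    (Summable fun c : ℕ => ‖((M * (c + 1) : ℕ) : ℂ) ^ (-(2 * (r : ℂ) + 1) - 2 * t) *
      Gs M g N (c + 1)‖) ∧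
    ∫ x in (0 : ℝ)..1, ee (N * x) * ∑' p : ℕ × ℤ,
        g (p.1 + 1) p.2 * gE r t (M * ((p.1 : ℂ) + 1) * (x + y * Complex.I) + p.2) =
      (∑' c : ℕ, ((M * (c + 1) : ℕ) : ℂ) ^ (-(2 * (r : ℂ) + 1) - 2 * t) * Gs M g N (c + 1)) *
        Wf r N t y

/-- (R8) size of the Fourier integrals -/
def StWfB : Prop :=
  ∀ (r : ℕ) (t : ℂ), -(r : ℝ) < t.re → ∃ C : ℝ, ∀ (N : ℤ) (y : ℝ), 0 < y →
    (Integrable fun x : ℝ => ‖gE r t (x + y * Complex.I)‖) ∧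
    ‖Wf r N t y‖ ≤ C * y ^ (-2 * (r : ℝ) - 2 * t.re)

/-- (R9) the integral of the product of a Fourier series and an Eisenstein series -/
def StYInt : Prop :=
  ∀ (k r m M : ℕ) (g : ℕ → ℤ → ℂ) (ρ : ℕ → ℂ) (t : ℂ), 1 ≤ m → 1 ≤ M →
    (∀ (c : ℕ) (d : ℤ), g c (d + M * c) = g c d) → (∀ c d, ‖g c d‖ ≤ 1) →
    1 / 2 - (r : ℝ) < t.re → t.re < k + 1 →
    (Summable fun n : ℕ => ‖ρ n‖ * ((n : ℝ) + 1) ^ (t.re - k - 1)) →
    ContinuousOn (GT M r g ρ t) {z | 0 < z.im} ∧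
    IntegrableOn (fun y : ℝ => (∫ x in (0 : ℝ)..1, GT M r g ρ t (x + y * Complex.I) *
      ee (-(m : ℂ) * (x - y * Complex.I))) * (y : ℂ) ^ (k + 2 * r + 2 - 2)) (Ioi 0) ∧
    (Summable fun n : ℕ => ‖ρ n * (∑' c : ℕ, ((M * (c + 1) : ℕ) : ℂ) ^
      (-(2 * (r : ℂ) + 1) - 2 * t) * Gs M g ((n : ℤ) - m) (c + 1)) * Kn k r n m t‖) ∧
    JJ (k + 2 * r + 2) m (GT M r g ρ t) = ∑' n : ℕ, ρ n * (∑' c : ℕ,
      ((M * (c + 1) : ℕ) : ℂ) ^ (-(2 * (r : ℂ) + 1) - 2 * t) * Gs M g ((n : ℤ) - m) (c + 1)) *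
        Kn k r n m t

/-- (R10) the integral of a Fourier series times a power of `y` -/
def StI0 : Prop :=
  ∀ (w m : ℕ) (ρ : ℕ → ℂ) (t : ℂ), 2 ≤ w → 1 ≤ m → 1 - (w : ℝ) < t.re →
    (∀ y : ℝ, 0 < y → Summable fun n : ℕ => ‖ρ n‖ * Real.exp (-(2 * Real.pi * n * y))) →
    IntegrableOn (fun y : ℝ => (∫ x in (0 : ℝ)..1, ((∑' n : ℕ, ρ n *
        ee (n * (x + y * Complex.I))) * ((x + y * Complex.I : ℂ).im : ℂ) ^ t) *
      ee (-(m : ℂ) * (x - y * Complex.I))) * (y : ℂ) ^ (w - 2)) (Ioi 0) ∧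
    JJ w m (fun z => (∑' n : ℕ, ρ n * ee (n * z)) * (z.im : ℂ) ^ t) =
      ρ m * Complex.Gamma (w - 1 + t) * (4 * Real.pi * m : ℂ) ^ (-((w : ℂ) - 1 + t))

/-- (R11) the integrals `JJ` of the sum over the cosets -/
def StSc : Prop :=
  ∀ (D w m : ℕ) (G : ℂ → ℂ), 1 ≤ D → 2 ≤ w → ContinuousOn G {z | 0 < z.im} →
    IntegrableOn (fun y : ℝ => (∫ x in (0 : ℝ)..1, G (x + y * Complex.I) *
      ee (-((m * D : ℕ) : ℂ) * (x - y * Complex.I))) * (y : ℂ) ^ (w - 2)) (Ioi 0) →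
    IntegrableOn (fun y : ℝ => (∫ x in (0 : ℝ)..1,
      (∑ j ∈ Finset.range D, G ((x + y * Complex.I + j) / D)) *
      ee (-(m : ℂ) * (x - y * Complex.I))) * (y : ℂ) ^ (w - 2)) (Ioi 0) ∧
    JJ w m (fun z => ∑ j ∈ Finset.range D, G ((z + j) / D)) = (D : ℂ) ^ w * JJ w (m * D) G

/-- (R12) the sign of the quadratic Gauss sum -/
def StSgG : Prop :=
  ∀ (D : ℕ) (_ : NeZero D) (F : Type) (_ : Field F) (_ : NumberField F) (s : 𝓞 F)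
    (σ : F →+* ℂ) (χ : DirichletCharacter ℂ D) (cj : 𝓞 F ≃+* 𝓞 F), DatD D s σ χ cj →
    (gaussSum χ (ZMod.stdAddChar (N := D)) = Complex.I * Real.sqrt D) ∧
    (∀ b : ℤ, ∑ a ∈ Finset.range D, χ (a : ZMod D) * ee (a * b / D) =
      χ (b : ZMod D) * (Complex.I * Real.sqrt D)) ∧
    ∃ L : ℝ, 0 < L ∧ DirichletCharacter.LFunction χ 1 = L

/-- (R13) the finite sums for the two cusps -/
def StGs : Prop :=
  ∀ (D : ℕ) (_ : NeZero D) (F : Type) (_ : Field F) (_ : NumberField F) (s : 𝓞 F)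
    (σ : F →+* ℂ) (χ : DirichletCharacter ℂ D) (cj : 𝓞 F ≃+* 𝓞 F), DatD D s σ χ cj →
    ∀ (r : ℕ) (t : ℂ), 1 / 2 - (r : ℝ) < t.re →
    (∀ n : ℕ, n ≠ D → ∑' c : ℕ, ((1 * (c + 1) : ℕ) : ℂ) ^ (-(2 * (r : ℂ) + 1) - 2 * t) *
      Gs 1 (fun c _ => χ ((c : ℤ) : ZMod D)) ((n : ℤ) - D) (c + 1) = sS D χ n (t + r)) ∧
    (∑' c : ℕ, ((1 * (c + 1) : ℕ) : ℂ) ^ (-(2 * (r : ℂ) + 1) - 2 * t) *
      Gs 1 (fun c _ => χ ((c : ℤ) : ZMod D)) ((D : ℤ) - D) (c + 1) =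
        DirichletCharacter.LFunction χ (2 * (t + r))) ∧
    (∀ n : ℕ, n ≠ 1 → ∑' c : ℕ, ((D * (c + 1) : ℕ) : ℂ) ^ (-(2 * (r : ℂ) + 1) - 2 * t) *
      Gs D (fun _ d => χ (d : ZMod D)) ((n : ℤ) - 1) (c + 1) =
        cI D r t * sI D χ n (t + r)) ∧
    (∑' c : ℕ, ((D * (c + 1) : ℕ) : ℂ) ^ (-(2 * (r : ℂ) + 1) - 2 * t) *
      Gs D (fun _ d => χ (d : ZMod D)) ((1 : ℤ) - 1) (c + 1) = 0)

/-- (R14) polar coordinates -/
def StPol : Prop :=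
  ∀ (k r n m : ℕ) (t : ℂ), 1 ≤ m → -(r : ℝ) < t.re → t.re < k + 1 → Kn k r n m t = Kp k r n m t

/-- (R15) the integral for the Poincaré series of index one, explicitly -/
def StJR : Prop :=
  ∀ (D : ℕ) (_ : NeZero D) (F : Type) (_ : Field F) (_ : NumberField F) (s : 𝓞 F)
    (σ : F →+* ℂ) (χ : DirichletCharacter ℂ D) (cj : 𝓞 F ≃+* 𝓞 F) (w k r : ℕ)
    (ψ : Ideal (𝓞 F) →*₀ ℂ) (c : Reps σ), DatD D s σ χ cj →
    D.Prime → IsHecke σ k ψ → w = k + 2 * r + 2 →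
    ∀ t : ℂ, 1 / 2 - (r : ℝ) < t.re → t.re < -1 →
      JJ w 1 (trD D w (HN D χ k r ψ c t)) = T1 D χ k r t +
        cS D k t * (DirichletCharacter.LFunction χ (2 * (t + r)) *
          (Complex.I * Real.sqrt D) ^ k * Kp k r D D t) + SUM D χ k r ψ c t

/-! ### the functions `Kp` -/

/-- (R16) the functions `Kp` are holomorphic, size -/
def StKpA : Prop :=
  ∀ (k r m : ℕ), 1 ≤ m →
    (∀ n : ℕ, n ≠ m → DifferentiableOn ℂ (Kp k r n m) {t | -(r : ℝ) - 1 / 2 < t.re ∧ t.re < 1}) ∧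
    ∀ R : ℝ, ∃ C : ℝ, ∀ (n : ℕ) (t : ℂ), n ≠ m → -(r : ℝ) - 1 / 2 ≤ t.re → t.re ≤ 0 → ‖t‖ ≤ R →
      ‖Kp k r n m t‖ ≤ C * ((n : ℝ) + 1) ^ (t.re - k - 1)

/-- (R17) the functions `Kp`, both indices equal -/
def StKD : Prop :=
  ∀ (k r m : ℕ) (t : ℂ), 1 ≤ m → -(r : ℝ) < t.re → t.re < 1 →
    Kp k r m m t = Complex.Gamma (k + 1 - t) * (4 * Real.pi * m : ℂ) ^ (t - k - 1) *
      (-Complex.I * (-1) ^ r * Real.pi * Complex.Gamma (2 * t + 2 * r) *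
        (2 : ℂ) ^ (1 - 2 * t - 2 * r) / (Complex.Gamma t * Complex.Gamma (t + 2 * r + 1)))

/-- (R18) the functional equation -/
def StFE : Prop :=
  ∀ (D : ℕ) (_ : NeZero D) (χ : DirichletCharacter ℂ D), χ.IsPrimitive → χ (-1) = -1 →
    χ⁻¹ = χ → gaussSum χ (ZMod.stdAddChar (N := D)) = Complex.I * Real.sqrt D →
    ∀ e : ℂ, 0 < e.re → e.re < 1 → DirichletCharacter.LFunction χ (2 * e) =
      (Real.pi / D : ℂ) ^ (2 * e - 1 / 2) * (Complex.Gamma (1 - e) / Complex.Gamma (1 / 2 + e)) *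
        DirichletCharacter.LFunction χ (1 - 2 * e)

/-- (R19) the contribution of the `D`-th coefficient -/
def StT2 : Prop :=
  ∀ (D : ℕ) (_ : NeZero D) (F : Type) (_ : Field F) (_ : NumberField F) (s : 𝓞 F)
    (σ : F →+* ℂ) (χ : DirichletCharacter ℂ D) (cj : 𝓞 F ≃+* 𝓞 F), DatD D s σ χ cj →
    ∀ (k r : ℕ) (t : ℂ), -(r : ℝ) < t.re → t.re < 1 - (r : ℝ) → t.re < 1 →
      cS D k t * (DirichletCharacter.LFunction χ (2 * (t + r)) * (Complex.I * Real.sqrt D) ^ k *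
        Kp k r D D t) = T2 D χ k r t

/-- (R20) the values of `Kp` at `-r` -/
def StKpV : Prop :=
  ∀ (k r n m : ℕ), 1 ≤ m →
    (n < m → Kp k r n m (-r) = -2 * Real.pi * Complex.I * ((k + r).factorial : ℂ) *
      ((4 * Real.pi * m : ℂ) ^ (k + r + 1))⁻¹ * (Jac k r ((n : ℝ) / m) : ℂ)) ∧
    (m < n → Kp k r n m (-r) = 0)

/-- (R21) size of the Jacobi polynomials -/
def StJac : Prop :=
  ∀ (k r : ℕ) (x : ℝ), 0 ≤ x → x ≤ 1 → x ^ ((k : ℝ) / 2) * |Jac k r x| ≤ 1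

/-- (R22) the derivatives of `Kp` at `-r` -/
def StKpB : Prop :=
  ∀ (k r n m : ℕ), 1 ≤ r → 1 ≤ m → m < n → ‖deriv (Kp k r n m) (-r)‖ ≤
    ((k + r).factorial : ℝ) * ((2 * Real.pi) ^ (k + r + 1))⁻¹ * (((n : ℝ) + m) ^ (k + r))⁻¹ *
      (10 * (1 + Real.log ((n : ℝ) + m)))

/-! ### the sums -/

/-- (R23) the two sums are holomorphic -/
def StSuA : Prop :=
  ∀ (D : ℕ) (_ : NeZero D) (F : Type) (_ : Field F) (_ : NumberField F) (s : 𝓞 F)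
    (σ : F →+* ℂ) (χ : DirichletCharacter ℂ D) (cj : 𝓞 F ≃+* 𝓞 F) (k r : ℕ)
    (ψ : Ideal (𝓞 F) →*₀ ℂ) (c : Reps σ), DatD D s σ χ cj → D.Prime → IsHecke σ k ψ →
    DifferentiableOn ℂ (SUM D χ k r ψ c) {t | -(r : ℝ) - 1 / 4 < t.re ∧ t.re < -1} ∧
    (∀ n, DifferentiableOn ℂ (fun t => uS D χ k r ψ c t n)
      {t | -(r : ℝ) - 1 / 4 < t.re ∧ t.re < -1}) ∧
    (∀ n, DifferentiableOn ℂ (fun t => uI D χ k r ψ c t n)
      {t | -(r : ℝ) - 1 / 4 < t.re ∧ t.re < -1}) ∧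
    ∀ t : ℂ, -(r : ℝ) - 1 / 4 < t.re → t.re < -1 →
      (Summable fun n => ‖uS D χ k r ψ c t n‖) ∧ (Summable fun n => ‖uI D χ k r ψ c t n‖) ∧
      HasSum (fun n => deriv (fun t => uS D χ k r ψ c t n) t)
        (deriv (fun t => ∑' n, uS D χ k r ψ c t n) t) ∧
      HasSum (fun n => deriv (fun t => uI D χ k r ψ c t n) t)
        (deriv (fun t => ∑' n, uI D χ k r ψ c t n) t)

/-- (R24) the derivative of the two sums at `-r` -/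
def StSuB : Prop :=
  ∀ (D : ℕ) (_ : NeZero D) (F : Type) (_ : Field F) (_ : NumberField F) (s : 𝓞 F)
    (σ : F →+* ℂ) (χ : DirichletCharacter ℂ D) (cj : 𝓞 F ≃+* 𝓞 F), DatD D s σ χ cj →
    D.Prime → ∃ C : ℝ, ∀ (k r : ℕ) (ψ : Ideal (𝓞 F) →*₀ ℂ) (c : Reps σ), IsHecke σ k ψ →
      5 ≤ r → ‖deriv (SUM D χ k r ψ c) (-r)‖ ≤
        C * ((k + r).factorial : ℝ) * ((4 * Real.pi) ^ (k + r + 1))⁻¹

/-- (R25) the derivative of the other terms at `-r` -/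
def StDT : Prop :=
  ∀ (D : ℕ) (_ : NeZero D) (χ : DirichletCharacter ℂ D), χ ≠ 1 →
    DirichletCharacter.LFunction χ 1 ≠ 0 → ∀ k r : ℕ,
    DifferentiableOn ℂ (fun t => T1 D χ k r t + T2 D χ k r t)
      {t | -2 * (r : ℝ) - 1 < t.re ∧ t.re < 1} ∧
    deriv (fun t => T1 D χ k r t + T2 D χ k r t) (-r) =
      2 * ((4 * Real.pi : ℂ) ^ (k + r + 1))⁻¹ * ((k + r).factorial : ℂ) *
        (DirichletCharacter.LFunction χ 1 * ((harmonic (k + r) : ℂ) + (harmonic r : ℂ) -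
          2 * Real.eulerMascheroniConstant + Real.log (D / (4 * Real.pi ^ 2))) +
          2 * deriv (DirichletCharacter.LFunction χ) 1)

/-- (R26) the Rankin–Selberg integral of the Poincaré series near `-r` -/
def StEqR : Prop :=
  ∀ (D : ℕ) (_ : NeZero D) (F : Type) (_ : Field F) (_ : NumberField F) (s : 𝓞 F)
    (σ : F →+* ℂ) (χ : DirichletCharacter ℂ D) (cj : 𝓞 F ≃+* 𝓞 F) (w k r : ℕ)
    (ψ : Ideal (𝓞 F) →*₀ ℂ) (c : Reps σ) (P : CuspForm 𝒮ℒ (w : ℤ)), DatD D s σ χ cj →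
    D.Prime → IsHecke σ k ψ → (∀ A, IsCoprime (c.R A : Ideal (𝓞 F)) (Ideal.span {s})) →
    w = k + 2 * r + 2 → 2 ≤ r → (∀ z : ℍ, P z = poinc w 1 z) →
    ∀ t : ℂ, -(r : ℝ) - 1 / 4 < t.re → t.re < -1 →
      rsD D (HN D χ k r ψ c t) P = T1 D χ k r t + T2 D χ k r t + SUM D χ k r ψ c t

/-- (R27) the derivative at `-r` is not zero for large `r` -/
def StBig : Prop :=
  ∀ (D : ℕ) (_ : NeZero D) (F : Type) (_ : Field F) (_ : NumberField F) (s : 𝓞 F)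
    (σ : F →+* ℂ) (χ : DirichletCharacter ℂ D) (cj : 𝓞 F ≃+* 𝓞 F), DatD D s σ χ cj →
    D.Prime → ∃ r₀ : ℕ, ∀ (w k r : ℕ) (ψ : Ideal (𝓞 F) →*₀ ℂ) (c : Reps σ)
      (P : CuspForm 𝒮ℒ (w : ℤ)), IsHecke σ k ψ →
      (∀ A, IsCoprime (c.R A : Ideal (𝓞 F)) (Ideal.span {s})) → w = k + 2 * r + 2 → r₀ ≤ r →
      (∀ z : ℍ, P z = poinc w 1 z) → deriv (fun t => rsD D (HN D χ k r ψ c t) P) (-r) ≠ 0

/-! ### eigenforms -/

/-- (R28) the Hecke operators at primes as linear maps -/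
def StHp : Prop :=
  ∀ (w p : ℕ), p.Prime → 4 ≤ w → Even w →
    ∃ T : CuspForm 𝒮ℒ (w : ℤ) →ₗ[ℂ] CuspForm 𝒮ℒ (w : ℤ), ∀ f : CuspForm 𝒮ℒ (w : ℤ),
      (∀ n : ℕ, coef (T f) n = coef f (p * n) +
        if p ∣ n then (p : ℂ) ^ (w - 1) * coef f (n / p) else 0) ∧
      ∀ z : ℂ, 0 < z.im → T f (ofComplex z) = (p : ℂ) ^ (w - 1) * f (ofComplex (p * z)) +
        (p : ℂ)⁻¹ * ∑ b ∈ Finset.range p, f (ofComplex ((z + b) / p))

/-- (R29) the Petersson product: integrability, definiteness, Poincaré series -/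
def StPP : Prop :=
  ∀ (w : ℕ), 4 ≤ w → Even w →
    (∀ f g : CuspForm 𝒮ℒ (w : ℤ), IntegrableOn (fun z : ℍ => f z * conj (g z) * (z.im : ℂ) ^ w)
      ModularGroup.fd) ∧
    (∀ f : CuspForm 𝒮ℒ (w : ℤ), f ≠ 0 → ∃ a : ℝ, 0 < a ∧
      ∫ z : ℍ in ModularGroup.fd, f z * conj (f z) * (z.im : ℂ) ^ w = a) ∧
    ∀ (m : ℕ) (f P : CuspForm 𝒮ℒ (w : ℤ)), 1 ≤ m → (∀ z : ℍ, P z = poinc w m z) →
      ∫ z : ℍ in ModularGroup.fd, f z * conj (P z) * (z.im : ℂ) ^ w =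
        coef f m * ((w - 2).factorial : ℂ) * ((4 * Real.pi * m : ℂ) ^ (w - 1))⁻¹

/-- (R30) the Hecke operators are hermitian -/
def StHer : Prop :=
  ∀ (w p : ℕ) (T : CuspForm 𝒮ℒ (w : ℤ) →ₗ[ℂ] CuspForm 𝒮ℒ (w : ℤ)), p.Prime → 4 ≤ w → Even w →
    (∀ (f : CuspForm 𝒮ℒ (w : ℤ)) (n : ℕ), coef (T f) n = coef f (p * n) +
        if p ∣ n then (p : ℂ) ^ (w - 1) * coef f (n / p) else 0) →
    ∀ f g : CuspForm 𝒮ℒ (w : ℤ),
      ∫ z : ℍ in ModularGroup.fd, T f z * conj (g z) * (z.im : ℂ) ^ w =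
        ∫ z : ℍ in ModularGroup.fd, f z * conj (T g z) * (z.im : ℂ) ^ w

/-- (R31) forms which are eigenvectors of all Hecke operators at primes -/
def StMulE : Prop :=
  ∀ (w : ℕ) (f : CuspForm 𝒮ℒ (w : ℤ)) (l : ℕ → ℂ), 1 ≤ w → f ≠ 0 →
    (∀ p : ℕ, p.Prime → ∀ n : ℕ, coef f (p * n) +
      (if p ∣ n then (p : ℂ) ^ (w - 1) * coef f (n / p) else 0) = l p * coef f n) →
    coef f 1 ≠ 0 ∧ IsEigen ((coef f 1)⁻¹ • f)

/-- (R32) the eigenforms span the space of cusp forms; the coefficients are real -/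
def StEigS : Prop :=
  ∀ (w : ℕ), 4 ≤ w → Even w →
    Submodule.span ℂ {f : CuspForm 𝒮ℒ (w : ℤ) | IsEigen f} = ⊤ ∧
    ∀ f : CuspForm 𝒮ℒ (w : ℤ), IsEigen f → ∀ p : ℕ, p.Prime → (coef f p).im = 0

/-- (R33) the strict bound for the eigenvalues -/
def StAp : Prop :=
  ∀ (w : ℕ) (f : CuspForm 𝒮ℒ (w : ℤ)), IsEigen f → ∀ p : ℕ, p.Prime →
    ‖coef f p‖ < (p + 1 : ℝ) * (p : ℝ) ^ ((w : ℝ) / 2 - 1)

/-- (R34) the analytic part of the theorem -/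
def StMainR : Prop :=
  ∀ (D : ℕ) (F : Type) (_ : Field F) (_ : NumberField F) (s : F) (σ : F →+* ℂ),
    D.Prime → D % 4 = 3 → 3 < D → Module.finrank ℚ F = 2 → s ^ 2 = -(D : F) →
    ∃ r₀ : ℕ, ∀ (w k r : ℕ) (ψ : Ideal (𝓞 F) →*₀ ℂ), w = k + 2 * r + 2 → r₀ ≤ r →
      IsHecke σ k ψ → ∃ f : CuspForm 𝒮ℒ (w : ℤ), IsEigen f ∧
        ∃ Λ : ℂ → ℂ, DifferentiableOn ℂ Λ {z | -1 / 2 < z.re} ∧
          (∀ z : ℂ, 1 < z.re → HasProd (fun v : HeightOneSpectrum (𝓞 F) =>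
            (eulF f ψ (((w : ℂ) + k) / 2 + z) v)⁻¹) (Λ z)) ∧ Λ 0 = 0 ∧ deriv Λ 0 ≠ 0

end RZ

end Pool.Agent.Lib.MP_7c08ba_nt
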