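import Mathlib
import Pool.Agent.Lib.MP_7c08ba_nt.RZ.StR

set_option autoImplicit false

/-! (R26) the Rankin–Selberg integral of the Poincaré series near `-r`: identity theorem. -/

namespace Pool.Agent.Lib.MP_7c08ba_nt

namespace RZ

open NumberField MeasureTheory UpperHalfPlane Set
open scoped MatrixGroups ComplexConjugate nonZeroDivisors

namespace EqRAux

variable {F : Type} [Field F] [NumberField F]

theorem hecke_even {σ : F →+* ℂ} {k : ℕ} {ψ : Ideal (𝓞 F) →*₀ ℂ} (h : IsHecke σ k ψ) :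
    Even k := by
  have h1 := h 1 one_ne_zero
  have h2 := h (-1) (neg_ne_zero.2 one_ne_zero)
  have h3 : Ideal.span {(-1 : 𝓞 F)} = Ideal.span {1} := by
    rw [Ideal.span_singleton_neg]
  have h4 : σ (((-1 : 𝓞 F)) : F) = -1 := by
    rw [show (((-1 : 𝓞 F)) : F) = -1 from map_neg (algebraMap (𝓞 F) F) 1 |>.trans (by simp)]
    rw [map_neg, map_one]
  have h5 : σ (((1 : 𝓞 F)) : F) = 1 := by
    rw [show (((1 : 𝓞 F)) : F) = 1 from map_one (algebraMap (𝓞 F) F), map_one]
  rw [h3, h1, h4, h5, one_pow] at h2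
  exact (neg_one_pow_eq_one_iff_even (by norm_num)).1 h2.symm

theorem chi_ne {D : ℕ} {s : 𝓞 F} {σ : F →+* ℂ} {χ : DirichletCharacter ℂ D}
    {cj : 𝓞 F ≃+* 𝓞 F} (hd : DatD D s σ χ cj) : χ ≠ 1 := by
  rintro rfl
  have h1 := hd.chi (-1)
  have hodd : Odd D := by
    have := hd.odd.2.1
    rw [Nat.odd_iff]
    omega
  rw [jacobiSym.at_neg_one hodd, ZMod.χ₄_nat_three_mod_four hd.odd.2.1] at h1
  have h2 : IsUnit ((-1 : ℤ) : ZMod D) := by simp
  rw [MulChar.one_apply h2] at h1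
  norm_num at h1

/-- The identity theorem in a vertical strip. -/
theorem id_strip {f g : ℂ → ℂ} {a b : ℝ} (hf : DifferentiableOn ℂ f {t | a < t.re ∧ t.re < b})
    (hg : DifferentiableOn ℂ g {t | a < t.re ∧ t.re < b}) {c d : ℝ} (hac : a ≤ c) (hcd : c < d)
    (hdb : d ≤ b) (h : ∀ t : ℂ, c < t.re → t.re < d → f t = g t) {t : ℂ} (h1 : a < t.re)
    (h2 : t.re < b) : f t = g t := by
  have hopen : ∀ a b : ℝ, IsOpen {t : ℂ | a < t.re ∧ t.re < b} := fun a b =>
    (isOpen_lt continuous_const Complex.continuous_re).inter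
      (isOpen_lt Complex.continuous_re continuous_const)
  have hconv : Convex ℝ {t : ℂ | a < t.re ∧ t.re < b} :=
    (convex_halfSpace_re_gt a).inter (convex_halfSpace_re_lt b)
  obtain ⟨z, hz⟩ : ∃ z : ℂ, z = (((c + d) / 2 : ℝ) : ℂ) := ⟨_, rfl⟩
  have hzre : z.re = (c + d) / 2 := by rw [hz, Complex.ofReal_re]
  have hev : f =ᶠ[nhds z] g := by
    filter_upwards [(hopen c d).mem_nhds (show z ∈ {t : ℂ | c < t.re ∧ t.re < d} from by
      constructor <;> rw [hzre] <;> linarith)] with t ht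
    exact h t ht.1 ht.2
  have hmem : z ∈ {t : ℂ | a < t.re ∧ t.re < b} := by
    constructor <;> rw [hzre] <;> linarith
  exact (hf.analyticOnNhd (hopen a b)).eqOn_of_preconnected_of_eventuallyEq
    (hg.analyticOnNhd (hopen a b)) hconv.isPreconnected hmem hev ⟨h1, h2⟩

end EqRAux

open EqRAux in
theorem stEqR (h1 : StRs1) (h2 : StJR) (h3 : StT2) (h4 : StSuA) (h5 : StDT) (h6 : StRSanN)
    (h7 : StSgG) : StEqR := by
  intro D iD F iF iNF s σ χ cj w k r ψ c P hd hp hψ hc hw hr hP t ht1 ht2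
  have hr' : (2 : ℝ) ≤ r := by exact_mod_cast hr
  obtain ⟨-, -, L, hL, hL1⟩ := h7 D iD F iF iNF s σ χ cj hd
  have hL0 : DirichletCharacter.LFunction χ 1 ≠ 0 := by
    rw [hL1]
    exact_mod_cast hL.ne'
  have hf : DifferentiableOn ℂ (fun t => rsD D (HN D χ k r ψ c t) P)
      {t | -(r : ℝ) - 1 / 4 < t.re ∧ t.re < -1} :=
    (h6 D iD F iF iNF s σ χ cj w k r P ψ c hd (hecke_even hψ) hw hc).mono fun t ht => by
      have := ht.1
      show -(r : ℝ) - 1 / 2 < t.re
      linarith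
  have hg : DifferentiableOn ℂ (fun t => T1 D χ k r t + T2 D χ k r t + SUM D χ k r ψ c t)
      {t | -(r : ℝ) - 1 / 4 < t.re ∧ t.re < -1} := by
    refine DifferentiableOn.add ?_ (h4 D iD F iF iNF s σ χ cj k r ψ c hd hp hψ).1
    refine (h5 D iD χ (chi_ne hd) hL0 k r).1.mono fun t ht => ?_
    have e1 := ht.1
    have e2 := ht.2
    constructor <;> linarith
  refine id_strip hf hg (c := 1 / 2 - r) (d := min (1 - r) (-1)) (by linarith)
    (lt_min (by linarith) (by linarith)) (min_le_right _ _) ?_ ht1 ht2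
  intro t e1 e2
  have e3 : t.re < 1 - r := e2.trans_le (min_le_left _ _)
  have e4 : t.re < -1 := e2.trans_le (min_le_right _ _)
  show rsD D (HN D χ k r ψ c t) P = _
  rw [h1 D iD F iF iNF s σ χ cj w k r ψ c P hd hp hψ hc hw hP t e1 e4,
    h2 D iD F iF iNF s σ χ cj w k r ψ c hd hp hψ hw t e1 e4,
    h3 D iD F iF iNF s σ χ cj hd k r t (by linarith) e3 (by linarith)]

end RZ

end Pool.Agent.Lib.MP_7c08ba_nt
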