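import Pool.Agent.Lib.MP_7c08ba_nt.RZ.StR

set_option autoImplicit false

/-!
Module (R18): the functional equation of the `L`-function of a real odd primitive character.
-/

namespace Pool.Agent.Lib.MP_7c08ba_nt

namespace RZ

open Complex

namespace FEAux

variable {D : ℕ} [NeZero D] {χ : DirichletCharacter ℂ D}

theorem ne_one (h : χ (-1) = -1) : D ≠ 1 := by
  rintro rfl
  have h1 : χ (-1) = 1 := by
    have : (-1 : ZMod 1) = 1 := Subsingleton.elim _ _
    rw [this, map_one]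
  rw [h] at h1
  norm_num at h1

theorem root (h : χ (-1) = -1)
    (hg : gaussSum χ (ZMod.stdAddChar (N := D)) = Complex.I * Real.sqrt D) :
    DirichletCharacter.rootNumber χ = 1 := by
  have hodd : χ.Odd := h
  have hD : (D : ℝ) ≠ 0 := by exact_mod_cast NeZero.ne D
  have hs : (Real.sqrt D : ℂ) = (D : ℂ) ^ (1 / 2 : ℂ) := by
    rw [Real.sqrt_eq_rpow, Complex.ofReal_cpow (Nat.cast_nonneg D)]
    norm_num
  have hs0 : (D : ℂ) ^ (1 / 2 : ℂ) ≠ 0 := by
    rw [Complex.cpow_ne_zero_iff]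
    left
    exact_mod_cast NeZero.ne D
  rw [DirichletCharacter.rootNumber, if_neg hodd.not_even, hg, hs, pow_one]
  field_simp

theorem gammaR (s : ℂ) : Gammaℝ s = (Real.pi : ℂ) ^ (-s / 2) * Gamma (s / 2) := rfl

end FEAux

open FEAux in
/-- (R18) the functional equation -/
theorem stFE : StFE := by
  intro D _ χ hprim hneg hinv hg e he0 he1
  have hodd : χ.Odd := hneg
  have hD1 := ne_one hneg
  have hD0 : (D : ℂ) ≠ 0 := by exact_mod_cast NeZero.ne D
  have hπ0 : (Real.pi : ℂ) ≠ 0 := by exact_mod_cast Real.pi_ne_zero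
  have h1 := hprim.completedLFunction_one_sub (1 - 2 * e)
  rw [root hneg hg, hinv, mul_one, sub_sub_cancel] at h1
  have e1 := DirichletCharacter.LFunction_eq_completed_div_gammaFactor χ (2 * e) (Or.inr hD1)
  have e2 := DirichletCharacter.LFunction_eq_completed_div_gammaFactor χ (1 - 2 * e) (Or.inr hD1)
  rw [hodd.gammaFactor_def] at e1 e2
  have g2 : Gammaℝ (1 - 2 * e + 1) ≠ 0 := by
    refine Gammaℝ_ne_zero_of_re_pos ?_
    simp
    linarith
  rw [eq_div_iff g2] at e2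
  rw [e1, h1, ← e2, gammaR, gammaR]
  have k1 : -(1 - 2 * e + 1) / 2 = e - 1 := by ring
  have k2 : (1 - 2 * e + 1) / 2 = 1 - e := by ring
  have k3 : -(2 * e + 1) / 2 = -(e + 1 / 2) := by ring
  have k4 : (2 * e + 1) / 2 = 1 / 2 + e := by ring
  rw [k1, k2, k3, k4]
  have hG : Gamma (1 / 2 + e) ≠ 0 := by
    refine Gamma_ne_zero_of_re_pos ?_
    simp
    linarith
  have hπ1 : (Real.pi : ℂ) ^ (-(e + 1 / 2)) ≠ 0 := by
    rw [Complex.cpow_ne_zero_iff]
    exact Or.inl hπ0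
  have hsplit : (Real.pi / D : ℂ) ^ (2 * e - 1 / 2) =
      (Real.pi : ℂ) ^ (2 * e - 1 / 2) * (D : ℂ) ^ (1 - 2 * e - 1 / 2) := by
    have h3 : (Real.pi : ℂ) ^ (2 * e - 1 / 2) =
        (Real.pi / D : ℂ) ^ (2 * e - 1 / 2) * (D : ℂ) ^ (2 * e - 1 / 2) := by
      have h4 := Complex.mul_cpow_ofReal_nonneg (a := Real.pi / D) (b := D)
        (by positivity) (by positivity) (2 * e - 1 / 2)
      rw [← Complex.ofReal_mul, div_mul_cancel₀ _ (by exact_mod_cast NeZero.ne D)] at h4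
      rw [h4]
      push_cast
      rfl
    have h5 : (D : ℂ) ^ (2 * e - 1 / 2) * (D : ℂ) ^ (1 - 2 * e - 1 / 2) = 1 := by
      rw [← Complex.cpow_add _ _ hD0]
      have : 2 * e - 1 / 2 + (1 - 2 * e - 1 / 2) = 0 := by ring
      rw [this, Complex.cpow_zero]
    rw [h3, mul_assoc, h5, mul_one]
  have hπ2 : (Real.pi : ℂ) ^ (e - 1) =
      (Real.pi : ℂ) ^ (2 * e - 1 / 2) * (Real.pi : ℂ) ^ (-(e + 1 / 2)) := by
    rw [← Complex.cpow_add _ _ hπ0]
    congr 1
    ring
  rw [hsplit, hπ2]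
  field_simp

end RZ

end Pool.Agent.Lib.MP_7c08ba_nt
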