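import Pool.Agent.Lib.MP_7c08ba_nt.RZ.StR

set_option autoImplicit false

/-!
(R7) Fourier coefficients of the sums of general terms of the Eisenstein series.
-/

namespace Pool.Agent.Lib.MP_7c08ba_nt

namespace RZ

open MeasureTheory Set

namespace FourAux

lemma ee_add (a b : ℂ) : ee (a + b) = ee a * ee b := by
  unfold ee
  rw [← Complex.exp_add]
  congr 1
  ring

lemma ee_int (n : ℤ) : ee n = 1 := by
  unfold ee
  rw [Complex.exp_eq_one_iff]
  exact ⟨n, by ring⟩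

lemma norm_ee (x : ℝ) : ‖ee x‖ = 1 := by
  unfold ee
  rw [Complex.norm_exp]
  simp

lemma cont_ee : Continuous ee := by
  unfold ee
  fun_prop

lemma cont_gE (r : ℕ) (s : ℂ) {z : ℂ} (hz : z ≠ 0) : ContinuousAt (gE r s) z := by
  have hN : 0 < Complex.normSq z := Complex.normSq_pos.mpr hz
  unfold gE
  refine ContinuousAt.mul ?_ ?_
  · exact ((continuous_pow _).continuousAt).inv₀ (pow_ne_zero _ hz)
  · refine ContinuousAt.cpow ?_ continuousAt_const ?_
    · exact (Complex.continuous_ofReal.comp Complex.continuous_normSq).continuousAt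
    · exact Complex.ofReal_mem_slitPlane.mpr hN

lemma cont_comp (r : ℕ) (s : ℂ) (f : ℝ → ℂ) (hf : Continuous f) (h0 : ∀ x, f x ≠ 0) :
    Continuous fun x : ℝ => gE r s (f x) := by
  rw [continuous_iff_continuousAt]
  intro x
  exact ContinuousAt.comp (f := f) (cont_gE r s (h0 x)) hf.continuousAt

lemma gE_mul (r : ℕ) (t v : ℂ) {m : ℕ} (hm : 1 ≤ m) :
    gE r t (m * v) = (m : ℂ) ^ (-(2 * (r : ℂ) + 1) - 2 * t) * gE r t v := by
  have hm0 : (m : ℂ) ≠ 0 := by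
    have : m ≠ 0 := by omega
    exact_mod_cast this
  have h1 : Complex.normSq (m * v) = ((m : ℝ) ^ 2) * Complex.normSq v := by
    rw [Complex.normSq_mul, Complex.normSq_natCast]
    ring
  have h2 : (((m : ℝ) ^ 2 * Complex.normSq v : ℝ) : ℂ) ^ (-t) =
      (((m : ℝ) ^ 2 : ℝ) : ℂ) ^ (-t) * ((Complex.normSq v : ℝ) : ℂ) ^ (-t) := by
    rw [Complex.ofReal_mul]
    exact Complex.mul_cpow_ofReal_nonneg (by positivity) (Complex.normSq_nonneg _) _
  have h3 : (((m : ℝ) ^ 2 : ℝ) : ℂ) ^ (-t) = (m : ℂ) ^ (-(2 * t)) := by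
    have e : (((m : ℝ) ^ 2 : ℝ) : ℂ) = (m : ℂ) * m := by
      push_cast
      ring
    have e2 : (m : ℂ) = ((m : ℝ) : ℂ) := by push_cast; rfl
    rw [e]
    nth_rewrite 1 [e2]
    nth_rewrite 1 [e2]
    rw [Complex.mul_cpow_ofReal_nonneg (by positivity) (by positivity), ← e2,
      ← Complex.cpow_add _ _ hm0]
    congr 1
    ring
  have h4 : (m : ℂ) ^ (-(2 * (r : ℂ) + 1) - 2 * t) =
      ((m : ℂ) ^ (2 * r + 1))⁻¹ * (m : ℂ) ^ (-(2 * t)) := by
    have e : -(2 * (r : ℂ) + 1) - 2 * t = -((2 * r + 1 : ℕ) : ℂ) + -(2 * t) := by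
      push_cast
      ring
    rw [e, Complex.cpow_add _ _ hm0, Complex.cpow_neg, Complex.cpow_natCast]
  unfold gE
  rw [h1, h2, h3, h4, mul_pow, mul_inv]
  ring

lemma norm_pw (r : ℕ) (t : ℂ) {m : ℕ} (hm : 1 ≤ m) :
    ‖(m : ℂ) ^ (-(2 * (r : ℂ) + 1) - 2 * t)‖ = (m : ℝ) ^ (-(2 * (r : ℝ) + 1) - 2 * t.re) := by
  have hm0 : 0 < m := hm
  rw [Complex.norm_natCast_cpow_of_pos hm0]
  congr 1
  simp

/-- one residue class -/
lemma class_sum (h2 : StWfB) (r : ℕ) (t : ℂ) (N : ℤ) {y : ℝ} (ht : 1 / 2 - (r : ℝ) < t.re)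
    (hy : 0 < y) (a : ℝ) :
    HasSum (fun n : ℤ => ∫ x in (0 : ℝ)..1, ee (N * x) * gE r t (x + y * Complex.I + a + n))
      (ee (-(N * a)) * Wf r N t y) := by
  obtain ⟨C, hC⟩ := h2 r t (by linarith)
  have hi := (hC N y hy).1
  have him : ∀ x : ℝ, ((x : ℂ) + y * Complex.I) ≠ 0 := by
    intro x h
    have := congrArg Complex.im h
    simp at this
    exact hy.ne' this
  have hc : Continuous fun x : ℝ => gE r t (x + y * Complex.I) :=
    cont_comp r t _ (by fun_prop) him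
  have hg : Integrable fun x : ℝ => gE r t (x + y * Complex.I) :=
    (integrable_norm_iff hc.aestronglyMeasurable).1 hi
  have hF : Integrable fun x : ℝ => ee (N * x) * gE r t (x + y * Complex.I) := by
    refine hg.bdd_mul (c := 1) (Continuous.aestronglyMeasurable ?_) ?_
    · exact cont_ee.comp (by fun_prop)
    · refine Filter.Eventually.of_forall fun x => ?_
      have := norm_ee (N * x)
      push_cast at this
      exact this.le
  have hF2 : Integrable fun x : ℝ => ee (N * (x : ℂ)) * gE r t (x + y * Complex.I + a) := by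
    have h3 := (hF.comp_add_right a).const_mul (ee (-(N * a)))
    refine h3.congr (Filter.Eventually.of_forall fun x => ?_)
    simp only
    rw [← mul_assoc, ← ee_add]
    push_cast
    congr 2
    · ring
    · ring
  have h4 := hF2.hasSum_intervalIntegral_comp_add_int
  have h5 : ∫ x : ℝ, ee (N * (x : ℂ)) * gE r t (x + y * Complex.I + a) =
      ee (-(N * a)) * Wf r N t y := by
    unfold Wf
    rw [← integral_add_right_eq_self (fun x : ℝ => ee (N * x) * gE r t (x + y * Complex.I)) a,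
      ← integral_const_mul]
    refine integral_congr_ae (Filter.Eventually.of_forall fun x => ?_)
    simp only
    rw [← mul_assoc, ← ee_add]
    push_cast
    congr 2
    · ring
    · ring
  rw [h5] at h4
  have e : (fun n : ℤ => ∫ x in (0 : ℝ)..1, ee (N * x) * gE r t (x + y * Complex.I + a + n)) =
      fun n : ℤ => ∫ x in (0 : ℝ)..1,
        (fun x : ℝ => ee (N * (x : ℂ)) * gE r t (x + y * Complex.I + a)) (x + n) := by
    funext n
    refine intervalIntegral.integral_congr fun x _ => ?_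
    simp only
    have h6 : (N : ℂ) * ((x + n : ℝ) : ℂ) = N * x + ((N * n : ℤ) : ℂ) := by
      push_cast
      ring
    rw [h6, ee_add, ee_int, mul_one]
    congr 2
    push_cast
    ring
  rw [e]
  exact h4

/-- the terms -/
noncomputable def Tm (M r : ℕ) (g : ℕ → ℤ → ℂ) (t : ℂ) (N : ℤ) (y : ℝ) (p : ℕ × ℤ) (x : ℝ) : ℂ :=
  ee (N * x) * (g (p.1 + 1) p.2 * gE r t (M * ((p.1 : ℂ) + 1) * (x + y * Complex.I) + p.2))

lemma tm_cont {M : ℕ} (hM : 1 ≤ M) (r : ℕ) (g : ℕ → ℤ → ℂ) (t : ℂ) (N : ℤ) {y : ℝ} (hy : 0 < y)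
    (p : ℕ × ℤ) : Continuous (Tm M r g t N y p) := by
  unfold Tm
  refine (cont_ee.comp (by fun_prop)).mul (continuous_const.mul (cont_comp r t _ (by fun_prop) ?_))
  intro x h
  have h1 := congrArg Complex.im h
  have h2 : (M * ((p.1 : ℂ) + 1) * (x + y * Complex.I) + p.2).im = M * ((p.1 : ℝ) + 1) * y := by
    have e : (M : ℂ) * ((p.1 : ℂ) + 1) * (x + y * Complex.I) + p.2 =
        ((M * ((p.1 : ℝ) + 1) * x + p.2 : ℝ) : ℂ) + ((M * ((p.1 : ℝ) + 1) * y : ℝ) : ℂ) *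
          Complex.I := by
      push_cast
      ring
    rw [e]
    simp
  rw [h2] at h1
  have h3 : 0 < (M : ℝ) := by exact_mod_cast hM
  have h4 : 0 < (M : ℝ) * ((p.1 : ℝ) + 1) * y := by positivity
  simp at h1
  rcases h1 with h1 | h1
  · rcases h1 with h1 | h1
    · exact absurd h1 (by omega)
    · exact absurd h1 (by positivity)
  · exact absurd h1 hy.ne'

lemma norm_Tm {M r : ℕ} {g : ℕ → ℤ → ℂ} (hg : ∀ c d, ‖g c d‖ ≤ 1) (t : ℂ) (N : ℤ) (y : ℝ)
    (p : ℕ × ℤ) (x : ℝ) : ‖Tm M r g t N y p x‖ ≤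
      ‖gE r t (M * ((p.1 : ℂ) + 1) * (x + y * Complex.I) + p.2)‖ := by
  unfold Tm
  have h1 := norm_ee (N * x)
  push_cast at h1
  rw [norm_mul, h1, one_mul, norm_mul]
  exact mul_le_of_le_one_left (norm_nonneg _) (hg _ _)

lemma tm_summable (h1 : StGB) {M r : ℕ} {g : ℕ → ℤ → ℂ} {t : ℂ} (N : ℤ) {y : ℝ} (hM : 1 ≤ M)
    (hg : ∀ c d, ‖g c d‖ ≤ 1) (ht : 1 / 2 - (r : ℝ) < t.re) (hy : 0 < y) :
    Summable fun p : ℕ × ℤ => ∫ x in Ioc (0 : ℝ) 1, ‖Tm M r g t N y p x‖ := by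
  obtain ⟨hs, -, hb⟩ := h1 M r t hM ht
  obtain ⟨C, hC⟩ := hb y hy
  have him : ∀ x : ℝ, ((x : ℂ) + y * Complex.I).im = y := fun x => by simp
  refine summable_of_sum_le (c := C * y ^ (-2 * (r : ℝ) - 2 * t.re))
    (fun p => integral_nonneg fun x => norm_nonneg _) fun s => ?_
  rw [← integral_finsetSum _ fun p _ => ((tm_cont hM r g t N hy p).norm.integrableOn_Ioc)]
  calc ∫ x in Ioc (0 : ℝ) 1, ∑ p ∈ s, ‖Tm M r g t N y p x‖
      ≤ ∫ x in Ioc (0 : ℝ) 1, C * y ^ (-2 * (r : ℝ) - 2 * t.re) := by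
        refine setIntegral_mono_on ?_ (integrableOn_const (by simp)) measurableSet_Ioc ?_
        · exact (continuous_finsetSum _ fun p _ => (tm_cont hM r g t N hy p).norm).integrableOn_Ioc
        · intro x _
          have h3 := hs (x + y * Complex.I) (by rw [him]; exact hy)
          have h4 := hC (x + y * Complex.I) (by rw [him])
          rw [him] at h4
          calc ∑ p ∈ s, ‖Tm M r g t N y p x‖ ≤
              ∑ p ∈ s, ‖gE r t (M * ((p.1 : ℂ) + 1) * (x + y * Complex.I) + p.2)‖ :=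
                Finset.sum_le_sum fun p _ => norm_Tm hg t N y p x
            _ ≤ _ := h3.sum_le_tsum s fun p _ => norm_nonneg _
            _ ≤ _ := h4
    _ = _ := by simp

/-- one row -/
lemma row (h2 : StWfB) {M r : ℕ} {g : ℕ → ℤ → ℂ} {t : ℂ} (N : ℤ) {y : ℝ} (hM : 1 ≤ M)
    (hper : ∀ (c : ℕ) (d : ℤ), g c (d + M * c) = g c d) (ht : 1 / 2 - (r : ℝ) < t.re) (hy : 0 < y)
    (c : ℕ) (hs : Summable fun d : ℤ => ∫ x in (0 : ℝ)..1, Tm M r g t N y (c, d) x) :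
    HasSum (fun d : ℤ => ∫ x in (0 : ℝ)..1, Tm M r g t N y (c, d) x)
      (((M * (c + 1) : ℕ) : ℂ) ^ (-(2 * (r : ℂ) + 1) - 2 * t) * Gs M g N (c + 1) *
        Wf r N t y) := by
  have hm : 1 ≤ M * (c + 1) := Nat.mul_pos hM (Nat.succ_pos _)
  have hm0 : ((M * (c + 1) : ℕ) : ℂ) ≠ 0 := by
    have : M * (c + 1) ≠ 0 := by omega
    exact_mod_cast this
  have : NeZero (M * (c + 1)) := ⟨by omega⟩
  have hP : Function.Periodic (g (c + 1)) ((M * (c + 1) : ℕ) : ℤ) := by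
    intro d
    have := hper (c + 1) d
    push_cast at this ⊢
    exact this
  have hg2 : ∀ (n a : ℤ), g (c + 1) (n * ((M * (c + 1) : ℕ) : ℤ) + a) = g (c + 1) a := by
    intro n a
    rw [add_comm (n * ((M * (c + 1) : ℕ) : ℤ)) a]
    exact hP.int_mul n a
  -- the terms
  have hterm : ∀ (n : ℤ) (b : Fin (M * (c + 1))),
      ∫ x in (0 : ℝ)..1, Tm M r g t N y (c, n * ((M * (c + 1) : ℕ) : ℤ) + (b : ℕ)) x =
        ((M * (c + 1) : ℕ) : ℂ) ^ (-(2 * (r : ℂ) + 1) - 2 * t) * g (c + 1) (b : ℕ) *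
          ∫ x in (0 : ℝ)..1, ee (N * x) * gE r t (x + y * Complex.I +
            (((b : ℕ) : ℝ) / ((M * (c + 1) : ℕ) : ℝ) : ℝ) + n) := by
    intro n b
    rw [← intervalIntegral.integral_const_mul]
    refine intervalIntegral.integral_congr fun x _ => ?_
    unfold Tm
    simp only
    have e : (M : ℂ) * ((c : ℂ) + 1) * (x + y * Complex.I) +
        ((n * ((M * (c + 1) : ℕ) : ℤ) + ((b : ℕ) : ℤ) : ℤ) : ℂ) =
        ((M * (c + 1) : ℕ) : ℂ) * (x + y * Complex.I +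
            ((((b : ℕ) : ℝ) / ((M * (c + 1) : ℕ) : ℝ) : ℝ) : ℂ) + n) := by
      have e2 : ((M * (c + 1) : ℕ) : ℂ) * ((((b : ℕ) : ℝ) / ((M * (c + 1) : ℕ) : ℝ) : ℝ) : ℂ) =
          ((b : ℕ) : ℂ) := by
        rw [Complex.ofReal_div, Complex.ofReal_natCast, Complex.ofReal_natCast]
        exact mul_div_cancel₀ _ hm0
      have e3 : ((M * (c + 1) : ℕ) : ℂ) * (x + y * Complex.I +
            ((((b : ℕ) : ℝ) / ((M * (c + 1) : ℕ) : ℝ) : ℝ) : ℂ) + n) =
          ((M * (c + 1) : ℕ) : ℂ) * (x + y * Complex.I) + ((M * (c + 1) : ℕ) : ℂ) *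
            ((((b : ℕ) : ℝ) / ((M * (c + 1) : ℕ) : ℝ) : ℝ) : ℂ) +
            ((M * (c + 1) : ℕ) : ℂ) * n := by ring
      rw [e3, e2]
      push_cast
      ring
    rw [e, gE_mul r t _ hm, hg2]
    ring
  have hb : ∀ b : Fin (M * (c + 1)), HasSum (fun n : ℤ =>
      ∫ x in (0 : ℝ)..1, Tm M r g t N y (c, n * ((M * (c + 1) : ℕ) : ℤ) + (b : ℕ)) x)
      (((M * (c + 1) : ℕ) : ℂ) ^ (-(2 * (r : ℂ) + 1) - 2 * t) * g (c + 1) (b : ℕ) *
        (ee (-(N * ((((b : ℕ) : ℝ) / ((M * (c + 1) : ℕ) : ℝ) : ℝ) : ℂ))) * Wf r N t y)) := by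
    intro b
    simp_rw [hterm]
    exact (class_sum h2 r t N ht hy _).mul_left _
  have hS : Summable fun q : Fin (M * (c + 1)) × ℤ =>
      ∫ x in (0 : ℝ)..1, Tm M r g t N y (c, q.2 * ((M * (c + 1) : ℕ) : ℤ) + (q.1 : ℕ)) x := by
    have h3 := (((Equiv.prodComm (Fin (M * (c + 1))) ℤ).trans
      (Int.divModEquiv (M * (c + 1))).symm).summable_iff).2 hs
    exact h3
  have h4 := hS.hasSum.prod_fiberwise fun b => hb b
  have h5 := h4.unique (hasSum_fintype _)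
  have h6 : ∑' q : Fin (M * (c + 1)) × ℤ,
      ∫ x in (0 : ℝ)..1, Tm M r g t N y (c, q.2 * ((M * (c + 1) : ℕ) : ℤ) + (q.1 : ℕ)) x =
      ∑' d : ℤ, ∫ x in (0 : ℝ)..1, Tm M r g t N y (c, d) x :=
    ((Equiv.prodComm (Fin (M * (c + 1))) ℤ).trans
      (Int.divModEquiv (M * (c + 1))).symm).tsum_eq
        fun d : ℤ => ∫ x in (0 : ℝ)..1, Tm M r g t N y (c, d) x
  have h7 : ∑ b : Fin (M * (c + 1)),
      ((M * (c + 1) : ℕ) : ℂ) ^ (-(2 * (r : ℂ) + 1) - 2 * t) * g (c + 1) (b : ℕ) *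
        (ee (-(N * ((((b : ℕ) : ℝ) / ((M * (c + 1) : ℕ) : ℝ) : ℝ) : ℂ))) * Wf r N t y) =
      ((M * (c + 1) : ℕ) : ℂ) ^ (-(2 * (r : ℂ) + 1) - 2 * t) * Gs M g N (c + 1) *
        Wf r N t y := by
    unfold Gs
    rw [Finset.sum_range, Finset.mul_sum, Finset.sum_mul]
    refine Finset.sum_congr rfl fun b _ => ?_
    have e : -((N : ℂ) * ((((b : ℕ) : ℝ) / ((M * (c + 1) : ℕ) : ℝ) : ℝ) : ℂ)) =
        -((N : ℂ) * ((b : ℕ) : ℂ) / ((M : ℂ) * ((c + 1 : ℕ) : ℂ))) := by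
      push_cast
      ring
    rw [e]
    ring
  rw [← h7, ← h5, h6]
  exact hs.hasSum

end FourAux

open FourAux in
theorem stFour (h1 : StGB) (h2 : StWfB) : StFour := by
  intro M r g t N y hM hper hg ht hy
  constructor
  · -- summability
    have hsum : Summable fun c : ℕ => ((M * (c + 1) : ℕ) : ℝ) ^ (-2 * (r : ℝ) - 2 * t.re) := by
      have h3 : Summable fun c : ℕ => ((c + 1 : ℕ) : ℝ) ^ (-2 * (r : ℝ) - 2 * t.re) := by
        have h4 : Summable fun c : ℕ => (c : ℝ) ^ (-2 * (r : ℝ) - 2 * t.re) :=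
          Real.summable_nat_rpow.2 (by linarith)
        exact (summable_nat_add_iff 1).2 h4
      have h4 := h3.mul_left ((M : ℝ) ^ (-2 * (r : ℝ) - 2 * t.re))
      refine h4.congr fun c => ?_
      rw [← Real.mul_rpow (by positivity) (by positivity)]
      push_cast
      rfl
    refine Summable.of_nonneg_of_le (fun c => norm_nonneg _) (fun c => ?_) hsum
    have hm : 1 ≤ M * (c + 1) := Nat.mul_pos hM (Nat.succ_pos _)
    have hm0 : (0 : ℝ) < ((M * (c + 1) : ℕ) : ℝ) := by exact_mod_cast hm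
    have hG : ‖Gs M g N (c + 1)‖ ≤ ((M * (c + 1) : ℕ) : ℝ) := by
      unfold Gs
      calc _ ≤ ∑ d ∈ Finset.range (M * (c + 1)),
          ‖g (c + 1) d * ee (-(N * d / (M * ((c + 1 : ℕ) : ℂ))))‖ := norm_sum_le _ _
        _ ≤ ∑ d ∈ Finset.range (M * (c + 1)), (1 : ℝ) := by
            refine Finset.sum_le_sum fun d _ => ?_
            have e : -((N : ℂ) * (d : ℂ) / ((M : ℂ) * ((c + 1 : ℕ) : ℂ))) =
                ((-((N : ℝ) * d / (M * ((c + 1 : ℕ) : ℝ))) : ℝ) : ℂ) := by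
              push_cast
              ring
            rw [norm_mul, e, norm_ee, mul_one]
            exact hg _ _
        _ = _ := by simp
    rw [norm_mul, norm_pw r t hm]
    calc ((M * (c + 1) : ℕ) : ℝ) ^ (-(2 * (r : ℝ) + 1) - 2 * t.re) * ‖Gs M g N (c + 1)‖
        ≤ ((M * (c + 1) : ℕ) : ℝ) ^ (-(2 * (r : ℝ) + 1) - 2 * t.re) *
            ((M * (c + 1) : ℕ) : ℝ) := by gcongr
      _ = ((M * (c + 1) : ℕ) : ℝ) ^ (-2 * (r : ℝ) - 2 * t.re) := by
          rw [← Real.rpow_add_one hm0.ne']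
          congr 1
          ring
  · have h3 := tm_summable h1 N hM hg ht hy
    have h4 := hasSum_integral_of_summable_integral_norm
      (F := fun (p : ℕ × ℤ) (x : ℝ) => Tm M r g t N y p x)
      (μ := volume.restrict (Ioc (0 : ℝ) 1))
      (fun p => (tm_cont hM r g t N hy p).integrableOn_Ioc) h3
    have h5 : (fun p : ℕ × ℤ => ∫ x in Ioc (0 : ℝ) 1, Tm M r g t N y p x) =
        fun p : ℕ × ℤ => ∫ x in (0 : ℝ)..1, Tm M r g t N y p x := by
      funext p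
      rw [intervalIntegral.integral_of_le zero_le_one]
    have h6 : ∫ x in Ioc (0 : ℝ) 1, ∑' p : ℕ × ℤ, Tm M r g t N y p x =
        ∫ x in (0 : ℝ)..1, ee (N * x) * ∑' p : ℕ × ℤ, g (p.1 + 1) p.2 *
          gE r t (M * ((p.1 : ℂ) + 1) * (x + y * Complex.I) + p.2) := by
      rw [intervalIntegral.integral_of_le zero_le_one]
      refine integral_congr_ae (Filter.Eventually.of_forall fun x => ?_)
      simp only [Tm]
      rw [tsum_mul_left]
    have h4' : HasSum (fun p : ℕ × ℤ => ∫ x in (0 : ℝ)..1, Tm M r g t N y p x)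
        (∫ x in (0 : ℝ)..1, ee (N * x) * ∑' p : ℕ × ℤ, g (p.1 + 1) p.2 *
          gE r t (M * ((p.1 : ℂ) + 1) * (x + y * Complex.I) + p.2)) := by
      rw [← h5, ← h6]
      exact h4
    have h7 : ∀ c : ℕ, HasSum (fun d : ℤ => ∫ x in (0 : ℝ)..1, Tm M r g t N y (c, d) x)
        (((M * (c + 1) : ℕ) : ℂ) ^ (-(2 * (r : ℂ) + 1) - 2 * t) * Gs M g N (c + 1) *
          Wf r N t y) := fun c => row h2 N hM hper ht hy c (h4'.summable.prod_factor c)
    have h8 := h4'.prod_fiberwise h7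
    rw [← tsum_mul_right]
    exact h8.tsum_eq.symm

end RZ

end Pool.Agent.Lib.MP_7c08ba_nt
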