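import Pool.Agent.Lib.MP_7c08ba_nt.RZ.StR
import Pool.Agent.Lib.MP_7c08ba_nt.RZ.EisBig

set_option autoImplicit false

/-!
(R2) bounds for the sums of the general terms of the Eisenstein series.
-/

namespace Pool.Agent.Lib.MP_7c08ba_nt

namespace RZ

open NumberField MeasureTheory UpperHalfPlane Set
open scoped MatrixGroups ComplexConjugate nonZeroDivisors

namespace GBaux

lemma inj_M (M : ℕ) (hM : 1 ≤ M) :
    Function.Injective fun p : ℕ × ℤ => (((M : ℤ) * ((p.1 : ℤ) + 1), p.2) : ℤ × ℤ) := by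
  rintro ⟨a, b⟩ ⟨c, d⟩ h
  simp only [Prod.mk.injEq] at h
  have hq : (M : ℤ) ≠ 0 := by
    have : 0 < M := hM
    exact_mod_cast this.ne'
  have h1 := mul_left_cancel₀ hq h.1
  have h2 : a = c := by omega
  rw [h2, h.2]

lemma summ (M r : ℕ) (t : ℂ) (hM : 1 ≤ M) (ht : 1 / 2 - (r : ℝ) < t.re) (z : ℂ) (hz : 0 < z.im) :
    Summable fun p : ℕ × ℤ => ‖gE r t (M * ((p.1 : ℂ) + 1) * z + p.2)‖ := by
  have h1 := (EisBigAux.summable_pairs r t z ht hz).comp_injective (inj_M M hM)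
  refine h1.congr fun p => ?_
  simp only [Function.comp_apply]
  push_cast
  rfl

/-- a bound uniform on strips -/
lemma bound_strip (r : ℕ) (t : ℂ) (ht : 1 / 2 - (r : ℝ) < t.re) {A B : ℝ} (hB : 0 < B) (z : ℂ)
    (hz : 0 < z.im) (hA : |z.re| ≤ A) (hB' : B ≤ z.im) (x : Fin 2 → ℤ) :
    ‖gE r t ((x 0 : ℂ) * z + x 1)‖ ≤
      EisensteinSeries.r ⟨⟨A, B⟩, hB⟩ ^ (-((2 * r + 1 : ℝ) + 2 * t.re)) *
        ‖x‖ ^ (-((2 * r + 1 : ℝ) + 2 * t.re)) := by
  refine (EisBigAux.norm_gE_le r t _).trans ?_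
  exact EisensteinSeries.summand_bound_of_mem_verticalStrip (z := ⟨z, hz⟩)
    (by linarith) x hB ⟨hA, hB'⟩

lemma cont (M r : ℕ) (t : ℂ) (hM : 1 ≤ M) (ht : 1 / 2 - (r : ℝ) < t.re) (g : ℕ → ℤ → ℂ)
    (hg : ∀ c d, ‖g c d‖ ≤ 1) :
    ContinuousOn (fun z : ℂ =>
      ∑' p : ℕ × ℤ, g (p.1 + 1) p.2 * gE r t (M * ((p.1 : ℂ) + 1) * z + p.2)) {z | 0 < z.im} := by
  intro z₀ hz₀
  have hz₀' : 0 < z₀.im := hz₀
  set A : ℝ := |z₀.re| + 1 with hA
  set B : ℝ := z₀.im / 2 with hB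
  have hB0 : 0 < B := by positivity
  set U : Set ℂ := {z | |z.re| < A ∧ B < z.im} with hU
  have hUo : IsOpen U := by
    apply IsOpen.inter
    · exact isOpen_lt (continuous_abs.comp Complex.continuous_re) continuous_const
    · exact isOpen_lt continuous_const Complex.continuous_im
  have hmem : z₀ ∈ U := ⟨by rw [hA]; linarith, by rw [hB]; linarith⟩
  have hk : 2 < (2 * r + 1 : ℝ) + 2 * t.re := by linarith
  have h1 := EisensteinSeries.summable_one_div_norm_rpow hk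
  have h2 : Summable fun p : ℕ × ℤ =>
      EisensteinSeries.r ⟨⟨A, B⟩, hB0⟩ ^ (-((2 * r + 1 : ℝ) + 2 * t.re)) *
        ‖(finTwoArrowEquiv ℤ).symm ((M : ℤ) * ((p.1 : ℤ) + 1), p.2)‖ ^
          (-((2 * r + 1 : ℝ) + 2 * t.re)) := by
    refine Summable.mul_left _ ?_
    exact (h1.comp_injective (finTwoArrowEquiv ℤ).symm.injective).comp_injective (inj_M M hM)
  have h3 : ContinuousOn (fun z : ℂ =>
      ∑' p : ℕ × ℤ, g (p.1 + 1) p.2 * gE r t (M * ((p.1 : ℂ) + 1) * z + p.2)) U := by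
    refine continuousOn_tsum (fun p => ?_) h2 (fun p z hz => ?_)
    · intro z hz
      have hz0 : 0 < z.im := hB0.trans hz.2
      have hne : (M * ((p.1 : ℂ) + 1) * z + p.2 : ℂ) ≠ 0 := by
        intro h
        have h4 := congrArg Complex.im h
        have h5 : (M * ((p.1 : ℂ) + 1) * z + p.2 : ℂ).im = (M : ℝ) * ((p.1 : ℝ) + 1) * z.im := by
          have e1 : (M * ((p.1 : ℂ) + 1) : ℂ) = (((M : ℝ) * ((p.1 : ℝ) + 1) : ℝ) : ℂ) := by
            push_cast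
            rfl
          rw [e1, Complex.add_im, Complex.im_ofReal_mul, Complex.intCast_im, add_zero]
        rw [h5, Complex.zero_im] at h4
        have h6 : (0 : ℝ) < M := by exact_mod_cast hM
        have : (0 : ℝ) < (M : ℝ) * ((p.1 : ℝ) + 1) * z.im := by positivity
        exact this.ne' h4
      have h7 : ContinuousAt (fun z : ℂ => gE r t (M * ((p.1 : ℂ) + 1) * z + p.2)) z := by
        have h8 : ContinuousAt (gE r t) (M * ((p.1 : ℂ) + 1) * z + p.2) := by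
          unfold gE
          refine ContinuousAt.mul ?_ ?_
          · exact ContinuousAt.inv₀ (by fun_prop) (pow_ne_zero _ hne)
          · have hN : 0 < Complex.normSq (M * ((p.1 : ℂ) + 1) * z + p.2) :=
              Complex.normSq_pos.mpr hne
            refine ContinuousAt.cpow (f := fun z : ℂ => ((Complex.normSq z : ℝ) : ℂ)) ?_
              continuousAt_const (Or.inl ?_)
            · exact (Complex.continuous_ofReal.comp Complex.continuous_normSq).continuousAt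
            · exact_mod_cast hN
        exact ContinuousAt.comp (f := fun z : ℂ => (M * ((p.1 : ℂ) + 1) * z + p.2 : ℂ)) h8
          (by fun_prop)
      exact (continuousAt_const.mul h7).continuousWithinAt
    · rw [norm_mul]
      have h4 := bound_strip r t ht hB0 z (hB0.trans hz.2) hz.1.le hz.2.le
        ((finTwoArrowEquiv ℤ).symm ((M : ℤ) * ((p.1 : ℤ) + 1), p.2))
      have h5 : (((finTwoArrowEquiv ℤ).symm ((M : ℤ) * ((p.1 : ℤ) + 1), p.2) 0 : ℤ) : ℂ) * z +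
          (((finTwoArrowEquiv ℤ).symm ((M : ℤ) * ((p.1 : ℤ) + 1), p.2) 1 : ℤ) : ℂ) =
          M * ((p.1 : ℂ) + 1) * z + p.2 := by
        simp
      rw [h5] at h4
      refine le_trans ?_ h4
      exact mul_le_of_le_one_left (norm_nonneg _) (hg _ _)
  exact (h3.continuousAt (hUo.mem_nhds hmem)).continuousWithinAt

/-! ### the bound -/

lemma nat_sum {X : ℝ} (hX : 0 < X) : (Summable fun n : ℕ => 2 / ((n : ℝ) + X) ^ 2) ∧
    ∑' n : ℕ, 2 / ((n : ℝ) + X) ^ 2 ≤ 2 * (1 + 1 / X) / X := by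
  have h0 : ∀ n : ℕ, 0 ≤ 2 / ((n : ℝ) + X) ^ 2 := fun n => by positivity
  have h1 : ∀ n : ℕ, 2 / ((n : ℝ) + X) ^ 2 ≤
      2 * (1 + 1 / X) * (1 / ((n : ℝ) + X) - 1 / (((n + 1 : ℕ) : ℝ) + X)) := by
    intro n
    have hn : (0 : ℝ) ≤ n := Nat.cast_nonneg n
    have ha : 0 < (n : ℝ) + X := by positivity
    have hb : 0 < (n : ℝ) + 1 + X := by positivity
    have e1 : 1 / ((n : ℝ) + X) - 1 / (((n + 1 : ℕ) : ℝ) + X) =
        1 / (((n : ℝ) + X) * ((n : ℝ) + 1 + X)) := by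
      push_cast
      field_simp
      ring
    rw [e1]
    have e2 : 2 * (1 + 1 / X) * (1 / (((n : ℝ) + X) * ((n : ℝ) + 1 + X))) =
        (2 * (X + 1)) / (X * (((n : ℝ) + X) * ((n : ℝ) + 1 + X))) := by
      field_simp
    rw [e2, div_le_div_iff₀ (by positivity) (by positivity)]
    have h3 : (n : ℝ) + 1 + X ≤ (1 + X) * (((n : ℝ) + X) / X) := by
      rw [mul_div_assoc', le_div_iff₀ hX]
      nlinarith
    have h4 : X * ((n : ℝ) + 1 + X) ≤ (1 + X) * ((n : ℝ) + X) := by nlinarith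
    have h5 := mul_le_mul_of_nonneg_left h4 ha.le
    nlinarith
  have h2 : ∀ N : ℕ, ∑ i ∈ Finset.range N, 2 / ((i : ℝ) + X) ^ 2 ≤ 2 * (1 + 1 / X) / X := by
    intro N
    refine (Finset.sum_le_sum fun i _ => h1 i).trans ?_
    rw [← Finset.mul_sum, Finset.sum_range_sub' (fun i : ℕ => 1 / ((i : ℝ) + X))]
    have h3 : 0 ≤ 1 / ((N : ℝ) + X) := by positivity
    have h4 : 1 / (((0 : ℕ) : ℝ) + X) - 1 / ((N : ℝ) + X) ≤ 1 / X := by
      simp only [Nat.cast_zero, zero_add]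
      linarith
    have h5 : 0 ≤ 2 * (1 + 1 / X) := by positivity
    refine (mul_le_mul_of_nonneg_left h4 h5).trans (le_of_eq ?_)
    ring
  exact ⟨summable_of_sum_range_le h0 h2, Real.tsum_le_of_sum_range_le h0 h2⟩

lemma int_term (f X : ℝ) (hf : 0 ≤ f) (hX : 0 < X) (n : ℕ) :
    1 / ((f + n) ^ 2 + X ^ 2) ≤ 2 / ((n : ℝ) + X) ^ 2 := by
  have hn : (0 : ℝ) ≤ n := Nat.cast_nonneg n
  rw [div_le_div_iff₀ (by positivity) (by positivity)]
  nlinarith [sq_nonneg ((n : ℝ) - X), mul_nonneg hf hn, sq_nonneg f]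

lemma int_sum (x X : ℝ) (hX : 0 < X) : (Summable fun d : ℤ => 1 / ((x + d) ^ 2 + X ^ 2)) ∧
    ∑' d : ℤ, 1 / ((x + d) ^ 2 + X ^ 2) ≤ 4 * (1 + 1 / X) / X := by
  have hf0 := Int.fract_nonneg x
  have hf1 := (Int.fract_lt_one x).le
  set f := Int.fract x with hf
  obtain ⟨hs, hb⟩ := nat_sum hX
  have hA : ∀ n : ℕ, 1 / ((f + (n : ℤ)) ^ 2 + X ^ 2) ≤ 2 / ((n : ℝ) + X) ^ 2 := by
    intro n
    have := int_term f X hf0 hX n
    exact_mod_cast this
  have hB : ∀ n : ℕ, 1 / ((f + ((-((n : ℤ) + 1) : ℤ) : ℝ)) ^ 2 + X ^ 2) ≤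
      2 / ((n : ℝ) + X) ^ 2 := by
    intro n
    have := int_term (1 - f) X (by linarith) hX n
    have e1 : (f + ((-((n : ℤ) + 1) : ℤ) : ℝ)) ^ 2 = (1 - f + n) ^ 2 := by
      push_cast
      ring
    rw [e1]
    exact this
  have sA : Summable fun n : ℕ => 1 / ((f + (n : ℤ)) ^ 2 + X ^ 2) :=
    Summable.of_nonneg_of_le (fun n => by positivity) hA hs
  have sB : Summable fun n : ℕ => 1 / ((f + ((-((n : ℤ) + 1) : ℤ) : ℝ)) ^ 2 + X ^ 2) :=
    Summable.of_nonneg_of_le (fun n => by positivity) hB hs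
  have tA := sA.tsum_le_tsum hA hs
  have tB := sB.tsum_le_tsum hB hs
  have h1 : HasSum (fun d : ℤ => 1 / ((f + d) ^ 2 + X ^ 2))
      (∑' n : ℕ, 1 / ((f + (n : ℤ)) ^ 2 + X ^ 2) +
        ∑' n : ℕ, 1 / ((f + ((-((n : ℤ) + 1) : ℤ) : ℝ)) ^ 2 + X ^ 2)) :=
    HasSum.of_nat_of_neg_add_one (f := fun d : ℤ => 1 / ((f + d) ^ 2 + X ^ 2)) sA.hasSum sB.hasSum
  have h2 : (fun d : ℤ => 1 / ((x + d) ^ 2 + X ^ 2)) =
      (fun d : ℤ => 1 / ((f + d) ^ 2 + X ^ 2)) ∘ (Equiv.addRight ⌊x⌋) := by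
    funext d
    simp only [Function.comp_apply, Equiv.coe_addRight]
    have e1 : f + ((d + ⌊x⌋ : ℤ) : ℝ) = x + d := by
      rw [hf]
      push_cast
      have := Int.fract_add_floor x
      linarith
    rw [e1]
  have h3 := (Equiv.addRight ⌊x⌋).hasSum_iff.mpr h1
  rw [← h2] at h3
  refine ⟨h3.summable, ?_⟩
  rw [h3.tsum_eq]
  have e2 : 4 * (1 + 1 / X) / X = 2 * (1 + 1 / X) / X + 2 * (1 + 1 / X) / X := by ring
  rw [e2]
  exact add_le_add (tA.trans hb) (tB.trans hb)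

/-- one row -/
lemma row (r : ℕ) (t : ℂ) (ht : 1 / 2 - (r : ℝ) < t.re) (x X y₀ : ℝ) (hy₀ : 0 < y₀)
    (hX : y₀ ≤ X) (d : ℤ) :
    ‖gE r t ((x : ℂ) + X * Complex.I + d)‖ ≤
      X ^ (-(2 * (r : ℝ) - 1 + 2 * t.re)) * (1 / ((x + d) ^ 2 + X ^ 2)) := by
  have hX0 : 0 < X := hy₀.trans_le hX
  set v : ℂ := (x : ℂ) + X * Complex.I + d with hv
  have hre : v.re = x + d := by simp [hv]
  have him : v.im = X := by simp [hv]
  have hn : ‖v‖ ^ 2 = (x + d) ^ 2 + X ^ 2 := by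
    rw [← Complex.normSq_eq_norm_sq, Complex.normSq_apply, hre, him]
    ring
  have hXv : X ≤ ‖v‖ := by
    have := Complex.abs_im_le_norm v
    rw [him, abs_of_pos hX0] at this
    exact this
  have hv0 : 0 < ‖v‖ := hX0.trans_le hXv
  refine (EisBigAux.norm_gE_le r t v).trans ?_
  have e1 : ‖v‖ ^ (-((2 * r + 1 : ℝ) + 2 * t.re)) =
      ‖v‖ ^ (-(2 * (r : ℝ) - 1 + 2 * t.re)) * (1 / ‖v‖ ^ 2) := by
    have e2 : (1 : ℝ) / ‖v‖ ^ 2 = ‖v‖ ^ (-2 : ℝ) := by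
      rw [Real.rpow_neg hv0.le, ← Real.rpow_natCast ‖v‖ 2]
      norm_num
    rw [e2, ← Real.rpow_add hv0]
    congr 1
    ring
  rw [e1, hn]
  refine mul_le_mul_of_nonneg_right ?_ (by positivity)
  exact Real.rpow_le_rpow_of_nonpos hX0 hXv (by linarith)

lemma bound (M r : ℕ) (t : ℂ) (hM : 1 ≤ M) (ht : 1 / 2 - (r : ℝ) < t.re) (y₀ : ℝ)
    (hy₀ : 0 < y₀) : ∃ C : ℝ, ∀ z : ℂ, y₀ ≤ z.im →
      ∑' p : ℕ × ℤ, ‖gE r t (M * ((p.1 : ℂ) + 1) * z + p.2)‖ ≤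
        C * z.im ^ (-2 * (r : ℝ) - 2 * t.re) := by
  have hM' : (1 : ℝ) ≤ M := by exact_mod_cast hM
  set b : ℝ := 2 * (r : ℝ) + 2 * t.re with hb
  have hb1 : 1 < b := by rw [hb]; linarith
  have hS : Summable fun c : ℕ => ((c : ℝ) + 1) ^ (-b) := by
    have h1 := (Real.summable_nat_rpow (p := -b)).mpr (by linarith)
    have h2 := (summable_nat_add_iff 1).mpr h1
    refine h2.congr fun c => ?_
    push_cast
    rfl
  refine ⟨(4 * (1 + 1 / y₀)) * ∑' c : ℕ, ((c : ℝ) + 1) ^ (-b), fun z hz => ?_⟩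
  have hz0 : 0 < z.im := hy₀.trans_le hz
  have hs := summ M r t hM ht z hz0
  rw [hs.tsum_prod]
  have hrow : ∀ c : ℕ, ∑' d : ℤ, ‖gE r t (M * ((c : ℂ) + 1) * z + d)‖ ≤
      (4 * (1 + 1 / y₀)) * z.im ^ (-b) * ((c : ℝ) + 1) ^ (-b) := by
    intro c
    set x : ℝ := (M : ℝ) * ((c : ℝ) + 1) * z.re with hx
    set X : ℝ := (M : ℝ) * ((c : ℝ) + 1) * z.im with hX
    have hc1 : (1 : ℝ) ≤ (c : ℝ) + 1 := by
      have : (0 : ℝ) ≤ c := Nat.cast_nonneg c
      linarith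
    have hX1 : ((c : ℝ) + 1) * z.im ≤ X := by
      rw [hX]
      have : 0 ≤ ((c : ℝ) + 1) * z.im := by positivity
      nlinarith
    have hX2 : y₀ ≤ X := by
      refine hz.trans (le_trans ?_ hX1)
      nlinarith
    have hX0 : 0 < X := hy₀.trans_le hX2
    have e1 : ∀ d : ℤ, (M * ((c : ℂ) + 1) * z + d : ℂ) = (x : ℂ) + X * Complex.I + d := by
      intro d
      rw [hx, hX]
      conv_lhs => rw [← Complex.re_add_im z]
      push_cast
      ring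
    obtain ⟨s1, s2⟩ := int_sum x X hX0
    have h1 : ∀ d : ℤ, ‖gE r t (M * ((c : ℂ) + 1) * z + d)‖ ≤
        X ^ (-(2 * (r : ℝ) - 1 + 2 * t.re)) * (1 / ((x + d) ^ 2 + X ^ 2)) := by
      intro d
      rw [e1 d]
      exact row r t ht x X y₀ hy₀ hX2 d
    have h2 : Summable fun d : ℤ => ‖gE r t (M * ((c : ℂ) + 1) * z + d)‖ := hs.prod_factor c
    have h3 := h2.tsum_le_tsum h1 (s1.mul_left _)
    rw [tsum_mul_left] at h3
    refine h3.trans ?_
    have h4 : X ^ (-(2 * (r : ℝ) - 1 + 2 * t.re)) * ∑' d : ℤ, 1 / ((x + d) ^ 2 + X ^ 2) ≤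
        X ^ (-(2 * (r : ℝ) - 1 + 2 * t.re)) * (4 * (1 + 1 / X) / X) :=
      mul_le_mul_of_nonneg_left s2 (by positivity)
    refine h4.trans ?_
    have e3 : X ^ (-(2 * (r : ℝ) - 1 + 2 * t.re)) * (4 * (1 + 1 / X) / X) =
        (4 * (1 + 1 / X)) * X ^ (-b) := by
      have e4 : X ^ (-b) = X ^ (-(2 * (r : ℝ) - 1 + 2 * t.re)) * X⁻¹ := by
        rw [← Real.rpow_neg_one X, ← Real.rpow_add hX0]
        congr 1
        rw [hb]
        ring
      rw [e4]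
      ring
    rw [e3]
    have h5 : 1 / X ≤ 1 / y₀ := one_div_le_one_div_of_le hy₀ hX2
    have h6 : X ^ (-b) ≤ z.im ^ (-b) * ((c : ℝ) + 1) ^ (-b) := by
      rw [← Real.mul_rpow hz0.le (by linarith), mul_comm z.im]
      exact Real.rpow_le_rpow_of_nonpos (by positivity) hX1 (by linarith)
    calc (4 * (1 + 1 / X)) * X ^ (-b) ≤ (4 * (1 + 1 / y₀)) * X ^ (-b) :=
          mul_le_mul_of_nonneg_right (by linarith) (by positivity)
      _ ≤ (4 * (1 + 1 / y₀)) * (z.im ^ (-b) * ((c : ℝ) + 1) ^ (-b)) :=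
          mul_le_mul_of_nonneg_left h6 (by positivity)
      _ = _ := by ring
  have h7 : Summable fun c : ℕ => ∑' d : ℤ, ‖gE r t (M * ((c : ℂ) + 1) * z + d)‖ := hs.prod
  have h8 := h7.tsum_le_tsum hrow (hS.mul_left _)
  rw [tsum_mul_left] at h8
  refine h8.trans (le_of_eq ?_)
  have e5 : -2 * (r : ℝ) - 2 * t.re = -b := by
    rw [hb]
    ring
  rw [e5]
  ring

end GBaux

theorem stGB : StGB := by
  intro M r t hM ht
  exact ⟨fun z hz => GBaux.summ M r t hM ht z hz, fun g hg => GBaux.cont M r t hM ht g hg,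
    fun y₀ hy₀ => GBaux.bound M r t hM ht y₀ hy₀⟩

end RZ

end Pool.Agent.Lib.MP_7c08ba_nt
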