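import Pool.Agent.Lib.MP_7c08ba_nt.RZ.StR
import Pool.Agent.Lib.MP_7c08ba_nt.RZ.RSD

set_option autoImplicit false

/-!
Module R5: growth of the trace in the region of convergence.
-/

namespace Pool.Agent.Lib.MP_7c08ba_nt

namespace RZ

open NumberField MeasureTheory UpperHalfPlane Set IsDedekindDomain
open scoped MatrixGroups ComplexConjugate nonZeroDivisors

namespace GrowAux

/-- Bound for the product of the theta series and an Eisenstein series. -/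
theorem GT_bound (h3 : StGB) {M r : ℕ} (hM : 1 ≤ M) {t : ℂ} (ht : 1 / 2 - (r : ℝ) < t.re)
    (g : ℕ → ℤ → ℂ) (hg : ∀ c d, ‖g c d‖ ≤ 1) (ρ : ℕ → ℂ) {C₁ : ℝ} {A : ℕ} (hC₁ : 0 ≤ C₁)
    (hth : ∀ u : ℂ, 0 < u.im → ‖∑' n : ℕ, ρ n * ee (n * u)‖ ≤ C₁ * (1 + (u.im ^ A)⁻¹))
    {y₀ : ℝ} (hy₀ : 0 < y₀) :
    ∃ C : ℝ, 0 ≤ C ∧ ∀ z : ℂ, y₀ ≤ z.im →
      ‖GT M r g ρ t z‖ ≤ C * z.im ^ (-2 * (r : ℝ) - t.re) := by
  obtain ⟨hsum, -, hb⟩ := h3 M r t hM ht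
  obtain ⟨C₂, hC₂⟩ := hb y₀ hy₀
  refine ⟨C₁ * (1 + (y₀ ^ A)⁻¹) * |C₂|, by positivity, fun z hz => ?_⟩
  have hz0 : 0 < z.im := hy₀.trans_le hz
  have b1 : ‖∑' n : ℕ, ρ n * ee (n * z)‖ ≤ C₁ * (1 + (y₀ ^ A)⁻¹) := by
    refine (hth z hz0).trans (mul_le_mul_of_nonneg_left ?_ hC₁)
    have h1 : (z.im ^ A)⁻¹ ≤ (y₀ ^ A)⁻¹ :=
      inv_anti₀ (pow_pos hy₀ A) (pow_le_pow_left₀ hy₀.le hz A)
    linarith
  have b2 : ‖∑' p : ℕ × ℤ, g (p.1 + 1) p.2 * gE r t (M * ((p.1 : ℂ) + 1) * z + p.2)‖ ≤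
      |C₂| * z.im ^ (-2 * (r : ℝ) - 2 * t.re) := by
    have hs := hsum z hz0
    have hle : ∀ p : ℕ × ℤ, ‖g (p.1 + 1) p.2 * gE r t (M * ((p.1 : ℂ) + 1) * z + p.2)‖ ≤
        ‖gE r t (M * ((p.1 : ℂ) + 1) * z + p.2)‖ := fun p => by
      rw [norm_mul]
      exact mul_le_of_le_one_left (norm_nonneg _) (hg _ _)
    have hs' : Summable fun p : ℕ × ℤ =>
        ‖g (p.1 + 1) p.2 * gE r t (M * ((p.1 : ℂ) + 1) * z + p.2)‖ :=
      Summable.of_nonneg_of_le (fun _ => norm_nonneg _) hle hs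
    have hpos : 0 ≤ z.im ^ (-2 * (r : ℝ) - 2 * t.re) := Real.rpow_nonneg hz0.le _
    calc ‖∑' p : ℕ × ℤ, g (p.1 + 1) p.2 * gE r t (M * ((p.1 : ℂ) + 1) * z + p.2)‖
        ≤ ∑' p : ℕ × ℤ, ‖g (p.1 + 1) p.2 * gE r t (M * ((p.1 : ℂ) + 1) * z + p.2)‖ :=
          norm_tsum_le_tsum_norm hs'
      _ ≤ ∑' p : ℕ × ℤ, ‖gE r t (M * ((p.1 : ℂ) + 1) * z + p.2)‖ := hs'.tsum_le_tsum hle hs
      _ ≤ C₂ * z.im ^ (-2 * (r : ℝ) - 2 * t.re) := hC₂ z hz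
      _ ≤ |C₂| * z.im ^ (-2 * (r : ℝ) - 2 * t.re) :=
          mul_le_mul_of_nonneg_right (le_abs_self _) hpos
  have b3 : ‖(z.im : ℂ) ^ t‖ = z.im ^ t.re := Complex.norm_cpow_eq_rpow_re_of_pos hz0 t
  unfold GT
  rw [norm_mul, norm_mul, b3]
  have e : z.im ^ (-2 * (r : ℝ) - t.re) = z.im ^ t.re * z.im ^ (-2 * (r : ℝ) - 2 * t.re) := by
    rw [← Real.rpow_add hz0]
    congr 1
    ring
  rw [e]
  have hp1 : 0 ≤ z.im ^ t.re := Real.rpow_nonneg hz0.le _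
  calc ‖∑' n : ℕ, ρ n * ee (n * z)‖ * (z.im ^ t.re *
        ‖∑' p : ℕ × ℤ, g (p.1 + 1) p.2 * gE r t (M * ((p.1 : ℂ) + 1) * z + p.2)‖)
      ≤ C₁ * (1 + (y₀ ^ A)⁻¹) * (z.im ^ t.re *
        (|C₂| * z.im ^ (-2 * (r : ℝ) - 2 * t.re))) := by
        refine mul_le_mul b1 (mul_le_mul_of_nonneg_left b2 hp1) ?_ (by positivity)
        exact mul_nonneg hp1 (norm_nonneg _)
    _ = _ := by ring

end GrowAux

open GrowAux RSDAux in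
/-- (R5) -/
theorem stGrow (h1 : StTrS) (h2 : StThBD) (h3 : StGB) (h4 : StThK) : StGrow := by
  intro D hq F hF hNF s σ χ cj w k r ψ c hD hDp hψ hw t ht
  obtain ⟨C₁, A, hC₁, hth⟩ := bound_thD h2 hD k ψ c
  obtain ⟨-, -, -, -, hexp⟩ := h4 D F hF hNF s σ χ cj k ψ c hD hψ
  have hth' : ∀ u : ℂ, 0 < u.im → ‖∑' n : ℕ, rT k ψ c n * ee (n * u)‖ ≤
      C₁ * (1 + (u.im ^ A)⁻¹) := fun u hu => by
    rw [← (hexp u hu).2.1]
    exact hth u hu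
  have hD0 : (0 : ℝ) < D := by exact_mod_cast hDp.pos
  have hχ : ∀ a : ZMod D, ‖χ a‖ ≤ 1 := fun a => DirichletCharacter.norm_le_one χ a
  obtain ⟨C₂, hC₂, hb2⟩ := GT_bound h3 hDp.one_lt.le ht (fun _ d => χ (d : ZMod D))
    (fun _ _ => hχ _) (rT k ψ c) hC₁ hth' (y₀ := 1 / 2) (by norm_num)
  obtain ⟨C₃, hC₃, hb3⟩ := GT_bound h3 (le_refl 1) ht (fun c _ => χ ((c : ℤ) : ZMod D))
    (fun _ _ => hχ _) (rT k ψ c) hC₁ hth' (y₀ := 1 / 2 / D) (by positivity)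
  -- the three parts
  set a : ℝ := -2 * (r : ℝ) - t.re with ha
  set K₁ : ℝ := ‖DirichletCharacter.LFunction χ (2 * r + 1 + 2 * t)‖ *
    (C₁ * (1 + ((1 / 2 : ℝ) ^ A)⁻¹)) with hK₁
  set κ : ℂ := (-Complex.I / Real.sqrt D) * ((Complex.I * Real.sqrt D) ^ k)⁻¹ *
        (D : ℂ) ^ (-(2 * (r : ℂ) + 1) - t) with hκ
  set K₃ : ℝ := ‖κ‖ * (D * (C₃ * (D : ℝ) ^ (-a))) with hK₃
  have hK₁0 : 0 ≤ K₁ := by positivity
  have hK₃0 : 0 ≤ K₃ := by positivity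
  refine ⟨K₁ + C₂ + K₃, fun z hz => ?_⟩
  have hz0 : 0 < z.im := lt_of_lt_of_le (by norm_num) hz
  have hp1 : 0 ≤ z.im ^ t.re := Real.rpow_nonneg hz0.le _
  have hp2 : 0 ≤ z.im ^ a := Real.rpow_nonneg hz0.le _
  rw [h1 D hq F hF hNF s σ χ cj w k r ψ c hD hDp hψ hw t z ht hz0]
  have b1 : ‖DirichletCharacter.LFunction χ (2 * r + 1 + 2 * t) *
      (thψ k ψ c z * (z.im : ℂ) ^ t)‖ ≤ K₁ * z.im ^ t.re := by
    rw [norm_mul, norm_mul, Complex.norm_cpow_eq_rpow_re_of_pos hz0 t, hK₁, mul_assoc]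
    refine mul_le_mul_of_nonneg_left (mul_le_mul_of_nonneg_right ?_ hp1) (norm_nonneg _)
    refine (hth z hz0).trans (mul_le_mul_of_nonneg_left ?_ hC₁)
    have h5 : (z.im ^ A)⁻¹ ≤ ((1 / 2 : ℝ) ^ A)⁻¹ :=
      inv_anti₀ (by positivity) (pow_le_pow_left₀ (by norm_num) hz A)
    linarith
  have b2 := hb2 z hz
  have b3 : ‖κ * ∑ j ∈ Finset.range D,
      GT 1 r (fun c _ => χ ((c : ℤ) : ZMod D)) (rT k ψ c) t ((z + j) / D)‖ ≤ K₃ * z.im ^ a := by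
    rw [norm_mul, hK₃, mul_assoc]
    refine mul_le_mul_of_nonneg_left ?_ (norm_nonneg _)
    have h6 : ∀ j ∈ Finset.range D,
        ‖GT 1 r (fun c _ => χ ((c : ℤ) : ZMod D)) (rT k ψ c) t ((z + j) / D)‖ ≤
          C₃ * (D : ℝ) ^ (-a) * z.im ^ a := by
      intro j _
      have him : ((z + j) / D : ℂ).im = z.im / D := by
        rw [Complex.div_natCast_im]
        simp
      have h7 := hb3 ((z + j) / D) (by
        rw [him]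
        exact div_le_div_of_nonneg_right hz hD0.le)
      rw [him] at h7
      refine h7.trans (le_of_eq ?_)
      rw [Real.div_rpow hz0.le hD0.le, Real.rpow_neg hD0.le]
      ring
    refine (norm_sum_le _ _).trans ((Finset.sum_le_card_nsmul _ _ _ h6).trans (le_of_eq ?_))
    rw [Finset.card_range, nsmul_eq_mul]
    ring
  calc ‖DirichletCharacter.LFunction χ (2 * r + 1 + 2 * t) * (thψ k ψ c z * (z.im : ℂ) ^ t) +
      GT D r (fun _ d => χ (d : ZMod D)) (rT k ψ c) t z +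
      κ * ∑ j ∈ Finset.range D,
          GT 1 r (fun c _ => χ ((c : ℤ) : ZMod D)) (rT k ψ c) t ((z + j) / D)‖
      ≤ K₁ * z.im ^ t.re + C₂ * z.im ^ a + K₃ * z.im ^ a :=
        (norm_add_le _ _).trans (add_le_add ((norm_add_le _ _).trans (add_le_add b1 b2)) b3)
    _ ≤ (K₁ + C₂ + K₃) * (z.im ^ t.re + z.im ^ a) := by
        have e1 : 0 ≤ K₁ * z.im ^ a := mul_nonneg hK₁0 hp2
        have e2 : 0 ≤ C₂ * z.im ^ t.re := mul_nonneg hC₂ hp1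
        have e3 : 0 ≤ K₃ * z.im ^ t.re := mul_nonneg hK₃0 hp1
        linarith [mul_add (K₁ + C₂ + K₃) (z.im ^ t.re) (z.im ^ a), add_mul (K₁ + C₂) K₃ (z.im ^ t.re),
          add_mul K₁ C₂ (z.im ^ t.re), add_mul (K₁ + C₂) K₃ (z.im ^ a), add_mul K₁ C₂ (z.im ^ a)]

end RZ

end Pool.Agent.Lib.MP_7c08ba_nt
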