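import Pool.Agent.Lib.MP_7c08ba_nt.RZ.StR
import Pool.Agent.Lib.MP_7c08ba_nt.RZ.Gen

set_option autoImplicit false

/-! (R13) the finite sums for the two cusps. -/

namespace Pool.Agent.Lib.MP_7c08ba_nt

namespace RZ

open NumberField UpperHalfPlane Set
open scoped MatrixGroups ComplexConjugate nonZeroDivisors

namespace Gsm

theorem ee_add (a b : ℂ) : ee (a + b) = ee a * ee b := by
  unfold ee
  rw [mul_add, Complex.exp_add]

theorem ee_int (a : ℤ) : ee a = 1 := by
  unfold ee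
  rw [Complex.exp_eq_one_iff]
  exact ⟨a, by ring⟩

theorem ee_mul_nat (a : ℂ) (m : ℕ) : ee (m * a) = ee a ^ m := by
  unfold ee
  rw [← Complex.exp_nat_mul]
  congr 1
  ring

theorem ee_eq_one {a : ℂ} (h : ee a = 1) : ∃ n : ℤ, a = n := by
  unfold ee at h
  rw [Complex.exp_eq_one_iff] at h
  obtain ⟨n, hn⟩ := h
  refine ⟨n, ?_⟩
  have h2 : (2 * Real.pi * Complex.I : ℂ) ≠ 0 := Complex.two_pi_I_ne_zero
  apply mul_left_cancel₀ h2
  rw [hn]
  ring

/-- The sum of roots of unity. -/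
theorem sum_ee (N : ℤ) (c : ℕ) (hc : 1 ≤ c) :
    ∑ m ∈ Finset.range c, ee (-(N * m / c)) = if (c : ℤ) ∣ N then (c : ℂ) else 0 := by
  have hc0 : (c : ℂ) ≠ 0 := by
    have : c ≠ 0 := by omega
    exact_mod_cast this
  have h1 : ∀ m : ℕ, ee (-(N * m / c)) = ee (-(N / c)) ^ m := by
    intro m
    rw [← ee_mul_nat]
    congr 1
    ring
  rw [Finset.sum_congr rfl fun m _ => h1 m]
  have h2 : ee (-(N / c)) ^ c = 1 := by
    rw [← ee_mul_nat]
    have : (c : ℂ) * (-(N / c)) = ((-N : ℤ) : ℂ) := by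
      push_cast
      field_simp
    rw [this, ee_int]
  split_ifs with h
  · obtain ⟨q, rfl⟩ := h
    have h3 : ee (-(((c : ℤ) * q : ℤ) / c : ℂ)) = 1 := by
      have : (-(((c : ℤ) * q : ℤ) / c : ℂ)) = ((-q : ℤ) : ℂ) := by
        push_cast
        field_simp
      rw [this, ee_int]
    rw [h3]
    simp
  · have h3 : ee (-(N / c : ℂ)) ≠ 1 := by
      intro h4
      obtain ⟨n, hn⟩ := ee_eq_one h4
      apply h
      refine ⟨-n, ?_⟩
      have h5 : (N : ℂ) = ((c * (-n) : ℤ) : ℂ) := by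
        push_cast
        rw [← hn]
        field_simp
      exact_mod_cast h5
    rw [geom_sum_eq h3, h2, sub_self, zero_div]

/-- Splitting a sum over a range. -/
theorem sum_split (f : ℕ → ℂ) (D c : ℕ) :
    ∑ d ∈ Finset.range (D * c), f d =
      ∑ m ∈ Finset.range c, ∑ a ∈ Finset.range D, f (D * m + a) := by
  induction c with
  | zero => simp
  | succ c ih => rw [Finset.sum_range_succ, mul_add, mul_one, Finset.sum_range_add, ih]

/-- A sum over the divisors. -/
theorem tsum_div (N : ℤ) (hN : N ≠ 0) (G : ℕ → ℂ) :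
    ∑' c : ℕ, (if ((c + 1 : ℕ) : ℤ) ∣ N then G (c + 1) else 0) =
      ∑ d ∈ N.natAbs.divisors, G d := by
  rw [tsum_eq_sum (s := Finset.range N.natAbs)]
  · rw [Nat.divisors, Finset.sum_filter, Finset.sum_Ico_eq_sum_range]
    simp only [Nat.add_sub_cancel]
    refine Finset.sum_congr rfl fun c _ => ?_
    rw [add_comm 1 c]
    simp only [Int.natCast_dvd]
  · intro c hc
    rw [Finset.mem_range, not_lt] at hc
    rw [if_neg]
    intro h
    rw [Int.natCast_dvd] at h
    have := Nat.le_of_dvd (Int.natAbs_pos.2 hN) h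
    omega

/-- Cusp `0`. -/
theorem gs_one (D : ℕ) (χ : DirichletCharacter ℂ D) (N : ℤ) (c : ℕ) (hc : 1 ≤ c) :
    Gs 1 (fun c _ => χ ((c : ℤ) : ZMod D)) N c =
      if (c : ℤ) ∣ N then χ ((c : ℤ) : ZMod D) * c else 0 := by
  unfold Gs
  rw [← Finset.mul_sum, one_mul]
  simp only [Nat.cast_one, one_mul]
  rw [sum_ee N c hc]
  split_ifs <;> simp

/-- Cusp infinity. -/
theorem gs_D (D : ℕ) (hD : 1 ≤ D) (χ : DirichletCharacter ℂ D) (g : ℂ)
    (hodd : χ (-1 : ZMod D) = -1)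
    (hg : ∀ b : ℤ, ∑ a ∈ Finset.range D, χ (a : ZMod D) * ee (a * b / D) = χ (b : ZMod D) * g)
    (N : ℤ) (c : ℕ) (hc : 1 ≤ c) :
    Gs D (fun _ d => χ (d : ZMod D)) N c =
      if (c : ℤ) ∣ N then -(χ ((N / c : ℤ) : ZMod D) * g * c) else 0 := by
  have hc0 : (c : ℂ) ≠ 0 := by
    have : c ≠ 0 := by omega
    exact_mod_cast this
  have hD0 : (D : ℂ) ≠ 0 := by
    have : D ≠ 0 := by omega
    exact_mod_cast this
  unfold Gs
  rw [sum_split]
  have h1 : ∀ m ∈ Finset.range c, ∑ a ∈ Finset.range D,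
      (fun (_ : ℕ) (d : ℤ) => χ (d : ZMod D)) c ((D * m + a : ℕ) : ℤ) *
        ee (-(N * ((D * m + a : ℕ) : ℂ) / (D * c))) =
      ee (-(N * m / c)) * ∑ a ∈ Finset.range D, χ (a : ZMod D) * ee (-(N * a / (D * c))) := by
    intro m _
    rw [Finset.mul_sum]
    refine Finset.sum_congr rfl fun a _ => ?_
    have h2 : (-(N * ((D * m + a : ℕ) : ℂ) / (D * c))) =
        (-(N * m / c)) + (-(N * a / (D * c))) := by
      push_cast
      field_simp
      ring
    rw [h2, ee_add]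
    have h3 : (((D * m + a : ℕ) : ℤ) : ZMod D) = (a : ZMod D) := by
      push_cast
      simp
    simp only [h3]
    ring
  rw [Finset.sum_congr rfl h1, ← Finset.sum_mul, sum_ee N c hc]
  split_ifs with h
  · obtain ⟨q, rfl⟩ := h
    have h4 : ∀ a : ℕ, (-((((c : ℤ) * q : ℤ) : ℂ) * a / (D * c))) = a * ((-q : ℤ) : ℂ) / D := by
      intro a
      push_cast
      field_simp
    simp only [h4]
    rw [hg (-q)]
    have h5 : ((c : ℤ) * q / c : ℤ) = q := by
      rw [Int.mul_ediv_cancel_left]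
      have : c ≠ 0 := by omega
      exact_mod_cast this
    rw [h5]
    have h6 : χ ((-q : ℤ) : ZMod D) = -χ (q : ZMod D) := by
      rw [Int.cast_neg, ← neg_one_mul, map_mul, hodd, neg_one_mul]
    rw [h6]
    ring
  · rw [zero_mul]

theorem pow_aux (d : ℕ) (hd : 1 ≤ d) (r : ℕ) (t : ℂ) :
    (d : ℂ) ^ (-(2 * (r : ℂ) + 1) - 2 * t) * d = (d : ℂ) ^ (-(2 * (t + r))) := by
  have hd0 : (d : ℂ) ≠ 0 := by
    have : d ≠ 0 := by omega
    exact_mod_cast this
  conv_lhs => rw [← Complex.cpow_one (d : ℂ), Complex.cpow_one (d : ℂ)]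
  nth_rewrite 2 [← Complex.cpow_one (d : ℂ)]
  rw [← Complex.cpow_add _ _ hd0]
  congr 1
  ring

end Gsm

open Gsm in
theorem stGs (h1 : StSgG) : StGs := by
  intro D hD0 F _ _ s σ χ cj hd r t ht
  have hD3 : 3 < D := hd.odd.2.2
  obtain ⟨-, hg, -⟩ := h1 D hD0 F _ _ s σ χ cj hd
  have hodd : χ (-1 : ZMod D) = -1 := Genm.chi_neg_one hd
  have hχ0 : χ (0 : ZMod D) = 0 := by
    have : Fact (1 < D) := ⟨by omega⟩
    exact MulChar.map_zero χ
  refine ⟨?_, ?_, ?_, ?_⟩
  · intro n hn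
    have hN : (n : ℤ) - D ≠ 0 := by
      intro h
      apply hn
      have := sub_eq_zero.1 h
      exact_mod_cast this
    have h2 := tsum_div ((n : ℤ) - D) hN
      (fun d => χ ((d : ℤ) : ZMod D) * (d : ℂ) ^ (-(2 * (t + r))))
    unfold sS
    rw [← h2]
    refine tsum_congr fun c => ?_
    rw [gs_one D χ _ (c + 1) (by omega), one_mul]
    split_ifs
    · rw [← pow_aux (c + 1) (by omega)]
      ring
    · rw [mul_zero]
  · have hs : 1 < (2 * (t + r)).re := by
      simp only [Complex.mul_re, Complex.re_ofNat, Complex.add_re, Complex.natCast_re,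
        Complex.im_ofNat, zero_mul, sub_zero]
      linarith
    rw [DirichletCharacter.LFunction_eq_LSeries χ hs, LSeries,
      (DirichletCharacter.LSeriesSummable_of_one_lt_re χ hs).tsum_eq_zero_add]
    rw [LSeries.term_zero, zero_add]
    refine tsum_congr fun c => ?_
    rw [gs_one D χ _ (c + 1) (by omega), one_mul, sub_self, if_pos (dvd_zero _),
      LSeries.term_of_ne_zero (by omega), div_eq_mul_inv, ← Complex.cpow_neg,
      ← pow_aux (c + 1) (by omega)]
    push_cast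
    ring
  · intro n hn
    have hN : (n : ℤ) - 1 ≠ 0 := by
      intro h
      apply hn
      have := sub_eq_zero.1 h
      exact_mod_cast this
    have h2 := tsum_div ((n : ℤ) - 1) hN
      (fun d => cI D r t * (χ ((((n : ℤ) - 1) / d : ℤ) : ZMod D) * (d : ℂ) ^ (-(2 * (t + r)))))
    unfold sI
    rw [Finset.mul_sum, ← h2]
    refine tsum_congr fun c => ?_
    rw [gs_D D (by omega) χ _ hodd hg _ (c + 1) (by omega)]
    split_ifs
    · rw [← pow_aux (c + 1) (by omega)]
      unfold cI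
      have h3 : ((D * (c + 1) : ℕ) : ℂ) ^ (-(2 * (r : ℂ) + 1) - 2 * t) =
          (D : ℂ) ^ (-(2 * (r : ℂ) + 1) - 2 * t) * ((c + 1 : ℕ) : ℂ) ^
            (-(2 * (r : ℂ) + 1) - 2 * t) := by
        rw [Nat.cast_mul, Complex.natCast_mul_natCast_cpow]
      rw [h3]
      ring
    · rw [mul_zero]
  · have h3 : ∀ c : ℕ, ((D * (c + 1) : ℕ) : ℂ) ^ (-(2 * (r : ℂ) + 1) - 2 * t) *
      Gs D (fun _ d => χ (d : ZMod D)) ((1 : ℤ) - 1) (c + 1) = 0 := by
      intro c
      rw [gs_D D (by omega) χ _ hodd hg _ (c + 1) (by omega), sub_self, if_pos (dvd_zero _),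
        Int.zero_ediv, Int.cast_zero, hχ0]
      ring
    simp only [h3, tsum_zero]

end RZ

end Pool.Agent.Lib.MP_7c08ba_nt
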