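import Mathlib
import Pool.Agent.Lib.MP_7c08ba_nt.RZ.StR

set_option autoImplicit false

/-!
The integral for the Poincaré series of index one, explicitly.
-/

namespace Pool.Agent.Lib.MP_7c08ba_nt

namespace RZ

open NumberField MeasureTheory UpperHalfPlane Set IsDedekindDomain
open scoped MatrixGroups ComplexConjugate nonZeroDivisors

namespace JRaux

lemma ee_cont : Continuous ee := by
  unfold ee
  fun_prop

lemma JJ_congr (w m : ℕ) (h h' : ℂ → ℂ) (H : ∀ z : ℂ, 0 < z.im → h z = h' z) :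
    JJ w m h = JJ w m h' := by
  unfold JJ
  refine setIntegral_congr_fun measurableSet_Ioi ?_
  intro y hy
  simp only [mem_Ioi] at hy
  have : ∀ x : ℝ, h (x + y * Complex.I) = h' (x + y * Complex.I) := by
    intro x
    apply H
    simpa using hy
  simp only [this]

lemma JJ_lin3 (w m : ℕ) (a b : ℂ) (h1 h2 h3 : ℂ → ℂ)
    (c1 : ∀ y : ℝ, 0 < y → Continuous (fun x : ℝ => h1 (x + y * Complex.I)))
    (c2 : ∀ y : ℝ, 0 < y → Continuous (fun x : ℝ => h2 (x + y * Complex.I)))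
    (c3 : ∀ y : ℝ, 0 < y → Continuous (fun x : ℝ => h3 (x + y * Complex.I)))
    (i1 : IntegrableOn (fun y : ℝ => (∫ x in (0 : ℝ)..1, h1 (x + y * Complex.I) *
      ee (-(m : ℂ) * (x - y * Complex.I))) * (y : ℂ) ^ (w - 2)) (Ioi 0))
    (i2 : IntegrableOn (fun y : ℝ => (∫ x in (0 : ℝ)..1, h2 (x + y * Complex.I) *
      ee (-(m : ℂ) * (x - y * Complex.I))) * (y : ℂ) ^ (w - 2)) (Ioi 0))
    (i3 : IntegrableOn (fun y : ℝ => (∫ x in (0 : ℝ)..1, h3 (x + y * Complex.I) *
      ee (-(m : ℂ) * (x - y * Complex.I))) * (y : ℂ) ^ (w - 2)) (Ioi 0)) :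
    JJ w m (fun z => a * h1 z + h2 z + b * h3 z) =
      a * JJ w m h1 + JJ w m h2 + b * JJ w m h3 := by
  have hE : ∀ y : ℝ, Continuous (fun x : ℝ => ee (-(m : ℂ) * (x - y * Complex.I))) := by
    intro y
    exact ee_cont.comp (by fun_prop)
  have key : ∀ y ∈ Ioi (0 : ℝ), (∫ x in (0 : ℝ)..1, (a * h1 (x + y * Complex.I) +
      h2 (x + y * Complex.I) + b * h3 (x + y * Complex.I)) *
        ee (-(m : ℂ) * (x - y * Complex.I))) * (y : ℂ) ^ (w - 2) =
      a * ((∫ x in (0 : ℝ)..1, h1 (x + y * Complex.I) * ee (-(m : ℂ) * (x - y * Complex.I))) *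
        (y : ℂ) ^ (w - 2)) +
      (∫ x in (0 : ℝ)..1, h2 (x + y * Complex.I) * ee (-(m : ℂ) * (x - y * Complex.I))) *
        (y : ℂ) ^ (w - 2) +
      b * ((∫ x in (0 : ℝ)..1, h3 (x + y * Complex.I) * ee (-(m : ℂ) * (x - y * Complex.I))) *
        (y : ℂ) ^ (w - 2)) := by
    intro y hy
    simp only [mem_Ioi] at hy
    have j1 : IntervalIntegrable (fun x : ℝ => h1 (x + y * Complex.I) *
        ee (-(m : ℂ) * (x - y * Complex.I))) volume 0 1 :=
      ((c1 y hy).mul (hE y)).intervalIntegrable _ _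
    have j2 : IntervalIntegrable (fun x : ℝ => h2 (x + y * Complex.I) *
        ee (-(m : ℂ) * (x - y * Complex.I))) volume 0 1 :=
      ((c2 y hy).mul (hE y)).intervalIntegrable _ _
    have j3 : IntervalIntegrable (fun x : ℝ => h3 (x + y * Complex.I) *
        ee (-(m : ℂ) * (x - y * Complex.I))) volume 0 1 :=
      ((c3 y hy).mul (hE y)).intervalIntegrable _ _
    have e : (∫ x in (0 : ℝ)..1, (a * h1 (x + y * Complex.I) + h2 (x + y * Complex.I) +
        b * h3 (x + y * Complex.I)) * ee (-(m : ℂ) * (x - y * Complex.I))) =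
        a * (∫ x in (0 : ℝ)..1, h1 (x + y * Complex.I) * ee (-(m : ℂ) * (x - y * Complex.I))) +
        (∫ x in (0 : ℝ)..1, h2 (x + y * Complex.I) * ee (-(m : ℂ) * (x - y * Complex.I))) +
        b * (∫ x in (0 : ℝ)..1, h3 (x + y * Complex.I) *
          ee (-(m : ℂ) * (x - y * Complex.I))) := by
      rw [← intervalIntegral.integral_const_mul, ← intervalIntegral.integral_const_mul,
        ← intervalIntegral.integral_add (j1.const_mul a) j2]
      have := intervalIntegral.integral_add ((j1.const_mul a).add j2) (j3.const_mul b)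
      rw [← this]
      refine intervalIntegral.integral_congr ?_
      intro x _
      simp only [Pi.add_apply]
      ring
    rw [e]
    ring
  unfold JJ
  rw [setIntegral_congr_fun measurableSet_Ioi key]
  have k1 := integral_add ((i1.const_mul a).add i2) (i3.const_mul b)
  have k2 := integral_add (i1.const_mul a) i2
  simp only [Pi.add_apply] at k1
  rw [k1, k2, integral_const_mul, integral_const_mul]

lemma norm_ee (z : ℂ) : ‖ee z‖ = Real.exp (-(2 * Real.pi * z.im)) := by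
  unfold ee
  rw [Complex.norm_exp]
  congr 1
  simp [Complex.mul_re, Complex.mul_im]

lemma norm_ee_n (n : ℕ) (x y : ℝ) : ‖ee (n * (x + y * Complex.I))‖ =
    Real.exp (-(2 * Real.pi * n * y)) := by
  rw [norm_ee]
  congr 1
  simp [Complex.mul_re, Complex.mul_im]
  ring

lemma sum_bd (k : ℕ) (ρ : ℕ → ℂ) (τ : ℝ) (hτ : τ < -1)
    (hρ : ∀ n : ℕ, 1 ≤ n → ‖ρ n‖ ≤ (n.divisors.card : ℝ) * (n : ℝ) ^ ((k : ℝ) / 2)) :
    Summable fun n : ℕ => ‖ρ n‖ * ((n : ℝ) + 1) ^ (τ - k - 1) := by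
  have hs : Summable fun n : ℕ => ((n : ℝ) + 1) ^ τ := by
    have h0 : Summable fun n : ℕ => ((n : ℝ)) ^ τ := Real.summable_nat_rpow.2 hτ
    have h1 := (summable_nat_add_iff 1).2 h0
    refine h1.congr ?_
    intro n
    push_cast
    rfl
  rw [← summable_nat_add_iff 1]
  have hs1 := (summable_nat_add_iff 1).2 hs
  refine Summable.of_nonneg_of_le (fun n => by positivity) (fun n => ?_) hs1
  have h1 : 1 ≤ n + 1 := by omega
  have hb := hρ (n + 1) h1
  have hd : ((n + 1).divisors.card : ℝ) ≤ ((n + 1 : ℕ) : ℝ) := by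
    exact_mod_cast Nat.card_divisors_le_self (n + 1)
  set x : ℝ := ((n + 1 : ℕ) : ℝ) with hx
  have hx0 : 0 < x := by rw [hx]; positivity
  have hxx : x ≤ x + 1 := by linarith
  have h2 : ‖ρ (n + 1)‖ ≤ (x + 1) ^ (1 : ℝ) * (x + 1) ^ ((k : ℝ) / 2) := by
    refine hb.trans ?_
    refine mul_le_mul ?_ ?_ (by positivity) (by positivity)
    · rw [Real.rpow_one]; linarith
    · exact Real.rpow_le_rpow hx0.le hxx (by positivity)
  calc ‖ρ (n + 1)‖ * (x + 1) ^ (τ - k - 1)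
      ≤ ((x + 1) ^ (1 : ℝ) * (x + 1) ^ ((k : ℝ) / 2)) * (x + 1) ^ (τ - k - 1) := by
        gcongr
    _ = (x + 1) ^ (τ - (k : ℝ) / 2) := by
        rw [← Real.rpow_add (by linarith), ← Real.rpow_add (by linarith)]
        congr 1
        ring
    _ ≤ (x + 1) ^ τ := by
        refine Real.rpow_le_rpow_of_exponent_le (by linarith) ?_
        have : (0 : ℝ) ≤ (k : ℝ) / 2 := by positivity
        linarith

end JRaux

open JRaux

theorem stJR (h1 : StTrS) (h2 : StYInt) (h3 : StI0) (h4 : StSc) (h5 : StGs) (h6 : StThK)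
    (h7 : StPol) : StJR := by
  intro D iD F iF iN s σ χ cj w k r ψ c hD hp hψ hw t ht1 ht2
  obtain ⟨hb, -, hr1, hrD, hth⟩ := h6 D F iF iN s σ χ cj k ψ c hD hψ
  have hrD := hrD hp
  have hD1 : 1 ≤ D := hp.one_lt.le
  have hD0 : (D : ℂ) ≠ 0 := by
    have := hp.pos
    exact_mod_cast this.ne'
  have hr0 : (3 / 2 : ℝ) < r := by linarith
  have htk : t.re < (k : ℝ) + 1 := by
    have : (0 : ℝ) ≤ k := Nat.cast_nonneg k
    linarith
  have htr : -(r : ℝ) < t.re := by linarith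
  have hw2 : 2 ≤ w := by omega
  set ρ : ℕ → ℂ := rT k ψ c with hρ
  have hsum : Summable fun n : ℕ => ‖ρ n‖ * ((n : ℝ) + 1) ^ (t.re - k - 1) :=
    sum_bd k ρ t.re ht2 hb
  -- the three parts
  set g2 : ℕ → ℤ → ℂ := fun _ d => χ (d : ZMod D) with hg2
  set g3 : ℕ → ℤ → ℂ := fun c _ => χ ((c : ℤ) : ZMod D) with hg3
  have hg2p : ∀ (c : ℕ) (d : ℤ), g2 c (d + D * c) = g2 c d := by
    intro c d
    simp [hg2]
  have hg3p : ∀ (c : ℕ) (d : ℤ), g3 c (d + (1 : ℕ) * c) = g3 c d := by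
    intro c d
    simp [hg3]
  have hg2n : ∀ c d, ‖g2 c d‖ ≤ 1 := fun c d => DirichletCharacter.norm_le_one χ _
  have hg3n : ∀ c d, ‖g3 c d‖ ≤ 1 := fun c d => DirichletCharacter.norm_le_one χ _
  obtain ⟨Y1, Y2, Y3, Y4⟩ := h2 k r 1 D g2 ρ t le_rfl hD1 hg2p hg2n ht1 htk hsum
  obtain ⟨Z1, Z2, Z3, Z4⟩ := h2 k r D 1 g3 ρ t hD1 le_rfl hg3p hg3n ht1 htk hsum
  have hwt : 1 - (w : ℝ) < t.re := by
    rw [hw]
    push_cast
    have : (0 : ℝ) ≤ k := Nat.cast_nonneg k
    linarith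
  have hsy : ∀ y : ℝ, 0 < y → Summable fun n : ℕ => ‖ρ n‖ * Real.exp (-(2 * Real.pi * n * y)) := by
    intro y hy
    have := (hth (y * Complex.I) (by simpa using hy)).1
    refine this.congr ?_
    intro n
    rw [norm_mul]
    congr 1
    have := norm_ee_n n 0 y
    simpa using this
  obtain ⟨I1, I2⟩ := h3 w 1 ρ t hw2 le_rfl hwt hsy
  obtain ⟨G1, G2, G3, G4⟩ := h5 D iD F iF iN s σ χ cj hD r t ht1
  have hwe : k + 2 * r + 2 = w := hw.symm
  have hSc := h4 D w 1 (GT 1 r g3 ρ t) hD1 hw2 Z1 (by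
    rw [one_mul]
    rw [hwe] at Z2
    exact Z2)
  obtain ⟨S1, S2⟩ := hSc
  -- rewriting the trace
  set L0 : ℂ := DirichletCharacter.LFunction χ (2 * r + 1 + 2 * t) with hL0
  set κ : ℂ := (-Complex.I / Real.sqrt D) * ((Complex.I * Real.sqrt D) ^ k)⁻¹ *
        (D : ℂ) ^ (-(2 * (r : ℂ) + 1) - t) with hκ
  have hcong : JJ w 1 (trD D w (HN D χ k r ψ c t)) = JJ w 1 (fun z =>
      L0 * ((∑' n : ℕ, ρ n * ee (n * z)) * (z.im : ℂ) ^ t) + GT D r g2 ρ t z +
      κ * ∑ j ∈ Finset.range D, GT 1 r g3 ρ t ((z + j) / D)) := by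
    refine JJ_congr w 1 _ _ ?_
    intro z hz
    rw [h1 D iD F iF iN s σ χ cj w k r ψ c hD hp hψ hw t z ht1 hz, (hth z hz).2.1]
  have C1 : ∀ y : ℝ, 0 < y → Continuous (fun x : ℝ =>
      (fun z : ℂ => (∑' n : ℕ, ρ n * ee (n * z)) * (z.im : ℂ) ^ t) (x + y * Complex.I)) := by
    intro y hy
    have e1 : ∀ x : ℝ, ((x : ℂ) + y * Complex.I).im = y := by intro x; simp
    simp only [e1]
    refine Continuous.mul ?_ continuous_const
    refine continuous_tsum (u := fun n : ℕ => ‖ρ n‖ * Real.exp (-(2 * Real.pi * n * y))) ?_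
      (hsy y hy) ?_
    · intro n
      exact continuous_const.mul (ee_cont.comp (by fun_prop))
    · intro n x
      rw [norm_mul, norm_ee_n]
  have cG : ∀ (G : ℂ → ℂ), ContinuousOn G {z | 0 < z.im} → ∀ y : ℝ, 0 < y →
      Continuous (fun x : ℝ => G (x + y * Complex.I)) := by
    intro G hG y hy
    refine hG.comp_continuous (by fun_prop) ?_
    intro x
    simpa using hy
  have C3 : ∀ y : ℝ, 0 < y → Continuous (fun x : ℝ =>
      (fun z : ℂ => ∑ j ∈ Finset.range D, GT 1 r g3 ρ t ((z + j) / D)) (x + y * Complex.I)) := by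
    refine cG (fun z : ℂ => ∑ j ∈ Finset.range D, GT 1 r g3 ρ t ((z + j) / D)) ?_
    refine continuousOn_finset_sum _ ?_
    intro j _
    refine Z1.comp (by fun_prop) ?_
    intro z hz
    have hz : 0 < z.im := hz
    show 0 < ((z + j) / D : ℂ).im
    have hDp : (0 : ℝ) < D := by exact_mod_cast hp.pos
    have : ((z + j) / D : ℂ).im = z.im / D := by
      rw [Complex.div_natCast_im]
      simp
    rw [this]
    positivity
  have C2 := cG (GT D r g2 ρ t) Y1
  rw [hwe] at Y2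
  have hlin := JJ_lin3 w 1 L0 κ (fun z : ℂ => (∑' n : ℕ, ρ n * ee (n * z)) * (z.im : ℂ) ^ t)
    (GT D r g2 ρ t) (fun z : ℂ => ∑ j ∈ Finset.range D, GT 1 r g3 ρ t ((z + j) / D))
    C1 C2 C3 I1 Y2 S1
  rw [hcong, hlin, I2, S2]
  -- second part
  have E2 : JJ w 1 (GT D r g2 ρ t) = cI D r t * ∑' n : ℕ, uI D χ k r ψ c t n := by
    rw [← hwe, Y4, ← tsum_mul_left]
    refine tsum_congr ?_
    intro n
    by_cases hn : n = 1
    · subst hn
      have := G4
      simp only [uI, if_true, mul_zero]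
      have e : ((1 : ℕ) : ℤ) - ((1 : ℕ) : ℤ) = (1 : ℤ) - 1 := by norm_num
      rw [e, G4]
      ring
    · have e : ((n : ℕ) : ℤ) - ((1 : ℕ) : ℤ) = (n : ℤ) - 1 := by norm_num
      rw [e, G3 n hn, h7 k r n 1 t le_rfl htr htk]
      simp only [uI, if_neg hn]
      rw [← hρ]
      ring
  -- third part
  have E3 : JJ w (1 * D) (GT 1 r g3 ρ t) = (∑' n : ℕ, uS D χ k r ψ c t n) +
      DirichletCharacter.LFunction χ (2 * (t + r)) * (Complex.I * Real.sqrt D) ^ k *
        Kp k r D D t := by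
    rw [one_mul, ← hwe, Z4]
    have hsm := Z3.of_norm
    rw [hsm.tsum_eq_add_tsum_ite D]
    rw [add_comm]
    congr 1
    · refine tsum_congr ?_
      intro n
      by_cases hn : n = D
      · simp [uS, hn]
      · rw [if_neg hn, G1 n hn, h7 k r n D t hD1 htr htk]
        simp only [uS, if_neg hn]
        rw [← hρ]
    · rw [G2, h7 k r D D t hD1 htr htk, hrD]
      ring
  rw [E2, E3, hr1]
  have hT1 : L0 * (1 * Complex.Gamma (w - 1 + t) * (4 * Real.pi * ((1 : ℕ) : ℂ)) ^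
      (-((w : ℂ) - 1 + t))) = T1 D χ k r t := by
    have e : ((w : ℂ) - 1 + t) = (k : ℂ) + 2 * r + 1 + t := by
      rw [hw]
      push_cast
      ring
    rw [e]
    simp only [T1, Nat.cast_one, mul_one, one_mul]
    rw [← hL0]
    ring
  have hκD : κ * (D : ℂ) ^ w = cS D k t := by
    have e : (D : ℂ) ^ (-(2 * (r : ℂ) + 1) - t) * (D : ℂ) ^ w = (D : ℂ) ^ ((k : ℂ) + 1 - t) := by
      rw [← Complex.cpow_natCast, ← Complex.cpow_add _ _ hD0]
      congr 1
      rw [hw]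
      push_cast
      ring
    rw [hκ, mul_assoc, e]
    rfl
  rw [hT1]
  unfold SUM
  rw [← hκD]
  ring

end RZ

end Pool.Agent.Lib.MP_7c08ba_nt
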