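import Pool.Agent.Lib.MP_7c08ba_nt.RZ.StR

set_option autoImplicit false

/-!
Module KD: the functions `Kp`, both indices equal.
-/

namespace Pool.Agent.Lib.MP_7c08ba_nt

namespace RZ

open MeasureTheory Set

namespace KDAux

theorem image_half_cos : (fun φ : ℝ => (1 - Real.cos φ) / 2) '' Ioo 0 Real.pi = Ioo 0 1 := by
  ext x
  constructor
  · rintro ⟨φ, ⟨h0, h1⟩, rfl⟩
    have hc1 : Real.cos φ < 1 := by
      have := Real.strictAntiOn_cos (left_mem_Icc.2 Real.pi_pos.le) ⟨h0.le, h1.le⟩ h0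
      simpa using this
    have hc2 : -1 < Real.cos φ := by
      have := Real.strictAntiOn_cos ⟨h0.le, h1.le⟩ (right_mem_Icc.2 Real.pi_pos.le) h1
      simpa using this
    constructor
    · change 0 < (1 - Real.cos φ) / 2
      linarith
    · change (1 - Real.cos φ) / 2 < 1
      linarith
  · rintro ⟨h0, h1⟩
    refine ⟨Real.arccos (1 - 2 * x), ⟨?_, ?_⟩, ?_⟩
    · rw [Real.arccos_pos]
      linarith
    · rcases lt_or_eq_of_le (Real.arccos_le_pi (1 - 2 * x)) with h | h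
      · exact h
      · exfalso
        have := Real.cos_arccos (x := 1 - 2 * x) (by linarith) (by linarith)
        rw [h, Real.cos_pi] at this
        linarith
    · change (1 - Real.cos (Real.arccos (1 - 2 * x))) / 2 = x
      rw [Real.cos_arccos (by linarith) (by linarith)]
      ring

theorem comp_eq (s : ℂ) (φ : ℝ) (hφ : φ ∈ Ioo 0 Real.pi) :
    |Real.sin φ / 2| • ((((1 - Real.cos φ) / 2 : ℝ) : ℂ) ^ (s / 2 - 1) *
      (1 - (((1 - Real.cos φ) / 2 : ℝ) : ℂ)) ^ (s / 2 - 1)) =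
    (((1 / 2 : ℝ) : ℂ) ^ (s - 1)) * (Real.sin φ : ℂ) ^ (s - 1) := by
  have hsin : 0 < Real.sin φ := Real.sin_pos_of_pos_of_lt_pi hφ.1 hφ.2
  have hcos1 : Real.cos φ ≤ 1 := Real.cos_le_one φ
  have hcos2 : -1 ≤ Real.cos φ := Real.neg_one_le_cos φ
  have h1 : (1 : ℂ) - (((1 - Real.cos φ) / 2 : ℝ) : ℂ) = (((1 + Real.cos φ) / 2 : ℝ) : ℂ) := by
    push_cast
    ring
  have h2 : (((1 - Real.cos φ) / 2 : ℝ) : ℂ) * (((1 + Real.cos φ) / 2 : ℝ) : ℂ) =
      ((Real.sin φ / 2 : ℝ) : ℂ) * ((Real.sin φ / 2 : ℝ) : ℂ) := by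
    rw [← Complex.ofReal_mul, ← Complex.ofReal_mul]
    congr 1
    have := Real.sin_sq_add_cos_sq φ
    linear_combination (-1 / 4 : ℝ) * this
  have ha : (0 : ℝ) < Real.sin φ / 2 := by positivity
  have ha' : ((Real.sin φ / 2 : ℝ) : ℂ) ≠ 0 := by exact_mod_cast ha.ne'
  rw [h1, ← Complex.mul_cpow_ofReal_nonneg (by linarith) (by linarith), h2,
    Complex.mul_cpow_ofReal_nonneg ha.le ha.le, abs_of_pos ha, Complex.real_smul]
  have h3 : ((Real.sin φ / 2 : ℝ) : ℂ) * (((Real.sin φ / 2 : ℝ) : ℂ) ^ (s / 2 - 1) *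
      ((Real.sin φ / 2 : ℝ) : ℂ) ^ (s / 2 - 1)) = ((Real.sin φ / 2 : ℝ) : ℂ) ^ (s - 1) := by
    rw [← Complex.cpow_add _ _ ha']
    nth_rewrite 1 [← Complex.cpow_one ((Real.sin φ / 2 : ℝ) : ℂ)]
    rw [← Complex.cpow_add _ _ ha']
    congr 1
    ring
  rw [h3, ← Complex.mul_cpow_ofReal_nonneg (by norm_num) hsin.le, ← Complex.ofReal_mul]
  congr 2
  ring

theorem two_half (s : ℂ) : (2 : ℂ) ^ s * (((1 / 2 : ℝ) : ℂ) ^ s) = 1 := by
  have h := Complex.mul_cpow_ofReal_nonneg (a := 2) (b := 1 / 2) (by norm_num) (by norm_num) s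
  push_cast at h ⊢
  rw [← h]
  norm_num

theorem sin_beta (s : ℂ) (hs : 0 < s.re) :
    IntervalIntegrable (fun φ : ℝ => (Real.sin φ : ℂ) ^ (s - 1)) volume 0 Real.pi ∧
      ∫ φ in (0 : ℝ)..Real.pi, (Real.sin φ : ℂ) ^ (s - 1) =
        (2 : ℂ) ^ (s - 1) * Complex.betaIntegral (s / 2) (s / 2) := by
  have hs2 : 0 < (s / 2).re := by
    rw [Complex.div_ofNat_re]
    positivity
  have hderiv : ∀ x ∈ Ioo 0 Real.pi, HasDerivWithinAt (fun φ : ℝ => (1 - Real.cos φ) / 2)
      (Real.sin x / 2) (Ioo 0 Real.pi) x := by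
    intro x _
    have h := ((Real.hasDerivAt_cos x).const_sub 1).div_const 2
    rw [neg_neg] at h
    exact h.hasDerivWithinAt
  have hinj : InjOn (fun φ : ℝ => (1 - Real.cos φ) / 2) (Ioo 0 Real.pi) := by
    intro x hx y hy hxy
    refine Real.injOn_cos ⟨hx.1.le, hx.2.le⟩ ⟨hy.1.le, hy.2.le⟩ ?_
    have : (1 - Real.cos x) / 2 = (1 - Real.cos y) / 2 := hxy
    linarith
  have hbeta := Complex.betaIntegral_convergent hs2 hs2
  rw [intervalIntegrable_iff_integrableOn_Ioo_of_le zero_le_one] at hbeta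
  have hI := integrableOn_image_iff_integrableOn_abs_deriv_smul measurableSet_Ioo hderiv hinj
    (fun x : ℝ => (x : ℂ) ^ (s / 2 - 1) * (1 - (x : ℂ)) ^ (s / 2 - 1))
  have hE := integral_image_eq_integral_abs_deriv_smul measurableSet_Ioo hderiv hinj
    (fun x : ℝ => (x : ℂ) ^ (s / 2 - 1) * (1 - (x : ℂ)) ^ (s / 2 - 1))
  rw [image_half_cos] at hI hE
  have hI2 := hI.1 hbeta
  have hI3 : IntegrableOn (fun φ : ℝ => (((1 / 2 : ℝ) : ℂ) ^ (s - 1)) *
      (Real.sin φ : ℂ) ^ (s - 1)) (Ioo 0 Real.pi) :=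
    hI2.congr_fun (fun φ hφ => comp_eq s φ hφ) measurableSet_Ioo
  have hI4 : IntegrableOn (fun φ : ℝ => (Real.sin φ : ℂ) ^ (s - 1)) (Ioo 0 Real.pi) := by
    have h : IntegrableOn (fun φ : ℝ => (2 : ℂ) ^ (s - 1) * ((((1 / 2 : ℝ) : ℂ) ^ (s - 1)) *
        (Real.sin φ : ℂ) ^ (s - 1))) (Ioo 0 Real.pi) := hI3.const_mul ((2 : ℂ) ^ (s - 1))
    refine IntegrableOn.congr_fun h (fun φ _ => ?_) measurableSet_Ioo
    change (2 : ℂ) ^ (s - 1) * ((((1 / 2 : ℝ) : ℂ) ^ (s - 1)) * (Real.sin φ : ℂ) ^ (s - 1)) = _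
    rw [← mul_assoc, two_half, one_mul]
  refine ⟨?_, ?_⟩
  · rw [intervalIntegrable_iff_integrableOn_Ioo_of_le Real.pi_pos.le]
    exact hI4
  · rw [setIntegral_congr_fun measurableSet_Ioo (fun φ hφ => comp_eq s φ hφ)] at hE
    rw [Complex.betaIntegral, intervalIntegral.integral_of_le zero_le_one,
      intervalIntegral.integral_of_le Real.pi_pos.le, integral_Ioc_eq_integral_Ioo,
      integral_Ioc_eq_integral_Ioo, hE, integral_const_mul, ← mul_assoc, two_half, one_mul]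

/-- the integrals -/
noncomputable def S (l s : ℂ) : ℂ :=
  ∫ φ in (0 : ℝ)..Real.pi, Complex.exp (-(l * φ * Complex.I)) * (Real.sin φ : ℂ) ^ (s - 1)

theorem integrable (l s : ℂ) (hs : 0 < s.re) : IntervalIntegrable (fun φ : ℝ =>
    Complex.exp (-(l * φ * Complex.I)) * (Real.sin φ : ℂ) ^ (s - 1)) volume 0 Real.pi :=
  (sin_beta s hs).1.continuousOn_mul (by fun_prop)

theorem rec_aux (l s : ℂ) (φ : ℝ) (hφ : φ ∈ Ioo 0 Real.pi) :
    HasDerivAt (fun φ : ℝ => Complex.exp (-((l + 1) * φ * Complex.I)) * (Real.sin φ : ℂ) ^ s)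
      ((s - l - 1) / 2 * (Complex.exp (-(l * φ * Complex.I)) * (Real.sin φ : ℂ) ^ (s - 1)) +
        (s + l + 1) / 2 *
          (Complex.exp (-((l + 2) * φ * Complex.I)) * (Real.sin φ : ℂ) ^ (s - 1))) φ := by
  have hsin : 0 < Real.sin φ := Real.sin_pos_of_pos_of_lt_pi hφ.1 hφ.2
  have hsin' : Complex.sin φ ≠ 0 := by
    rw [← Complex.ofReal_sin]
    exact_mod_cast hsin.ne'
  have hslit : Complex.sin φ ∈ Complex.slitPlane := by
    rw [← Complex.ofReal_sin]
    exact Complex.ofReal_mem_slitPlane.2 hsin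
  have h1 : HasDerivAt (fun z : ℂ => Complex.exp (-((l + 1) * z * Complex.I)))
      (Complex.exp (-((l + 1) * φ * Complex.I)) * (-((l + 1) * Complex.I))) φ := by
    have h := ((((hasDerivAt_id (φ : ℂ)).const_mul (l + 1)).mul_const Complex.I).neg).cexp
    simp only [mul_one, id] at h
    exact h
  have h2 : HasDerivAt (fun z : ℂ => Complex.sin z ^ s)
      (s * Complex.sin φ ^ (s - 1) * Complex.cos φ) φ :=
    (Complex.hasDerivAt_sin φ).cpow_const hslit
  have h3 := (h1.mul h2).comp_ofReal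
  have h4 : (fun y : ℝ => ((fun z : ℂ => Complex.exp (-((l + 1) * z * Complex.I))) *
      fun z : ℂ => Complex.sin z ^ s) y) =
      fun φ : ℝ => Complex.exp (-((l + 1) * φ * Complex.I)) * (Real.sin φ : ℂ) ^ s := by
    ext y
    simp
  rw [h4] at h3
  convert h3 using 1
  have h5 : Complex.sin φ ^ s = Complex.sin φ ^ (s - 1) * Complex.sin φ := by
    rw [Complex.cpow_sub _ _ hsin', Complex.cpow_one, div_mul_cancel₀ _ hsin']
  have h6 : Complex.exp (-(l * φ * Complex.I)) =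
      Complex.exp (-((l + 1) * φ * Complex.I)) * Complex.exp (φ * Complex.I) := by
    rw [← Complex.exp_add]
    congr 1
    ring
  have h7 : Complex.exp (-((l + 2) * φ * Complex.I)) =
      Complex.exp (-((l + 1) * φ * Complex.I)) * Complex.exp (-φ * Complex.I) := by
    rw [← Complex.exp_add]
    congr 1
    ring
  rw [h5, h6, h7, Complex.ofReal_sin]
  have h8 : Complex.cos φ = (Complex.exp (φ * Complex.I) + Complex.exp (-φ * Complex.I)) / 2 := rfl
  have h9 : Complex.I * Complex.sin φ =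
      (Complex.exp (φ * Complex.I) - Complex.exp (-φ * Complex.I)) / 2 := by
    have : Complex.sin φ =
      (Complex.exp (-φ * Complex.I) - Complex.exp (φ * Complex.I)) * Complex.I / 2 := rfl
    rw [this]
    linear_combination (Complex.exp (-φ * Complex.I) - Complex.exp (φ * Complex.I)) / 2 *
      Complex.I_mul_I
  rw [h8]
  linear_combination (Complex.exp (-((l + 1) * φ * Complex.I)) * Complex.sin φ ^ (s - 1) *
    (l + 1)) * h9

theorem S_rec (l s : ℂ) (hs : 0 < s.re) : (s - l - 1) * S l s + (s + l + 1) * S (l + 2) s = 0 := by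
  have hi1 := integrable l s hs
  have hi2 := integrable (l + 2) s hs
  have hcont : ContinuousOn (fun φ : ℝ => Complex.exp (-((l + 1) * φ * Complex.I)) *
      (Real.sin φ : ℂ) ^ s) (Icc 0 Real.pi) := by
    apply Continuous.continuousOn
    refine Continuous.mul (by fun_prop) ?_
    exact (Complex.continuous_ofReal_cpow_const hs).comp Real.continuous_sin
  have h := intervalIntegral.integral_eq_sub_of_hasDerivAt_of_le Real.pi_pos.le hcont
    (fun φ hφ => rec_aux l s φ hφ)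
    ((hi1.const_mul ((s - l - 1) / 2)).add (hi2.const_mul ((s + l + 1) / 2)))
  have hs0 : s ≠ 0 := by
    rintro rfl
    simp at hs
  rw [intervalIntegral.integral_add (hi1.const_mul _) (hi2.const_mul _),
    intervalIntegral.integral_const_mul, intervalIntegral.integral_const_mul] at h
  simp only [Real.sin_pi, Real.sin_zero, Complex.ofReal_zero, Complex.zero_cpow hs0, mul_zero,
    sub_self] at h
  change (s - l - 1) / 2 * S l s + (s + l + 1) / 2 * S (l + 2) s = 0 at h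
  linear_combination 2 * h

theorem S_one (s : ℂ) (hs : 0 < s.re) :
    S 1 s = -Complex.I * ((2 : ℂ) ^ s * Complex.betaIntegral ((s + 1) / 2) ((s + 1) / 2)) := by
  have hs0 : s ≠ 0 := by
    rintro rfl
    simp at hs
  have h1 := S_rec (-1) s hs
  have h2 : S (-1) s - S 1 s = 2 * Complex.I * ∫ φ in (0 : ℝ)..Real.pi,
      (Real.sin φ : ℂ) ^ (s + 1 - 1) := by
    rw [S, S, ← intervalIntegral.integral_sub (integrable _ s hs) (integrable _ s hs),
      ← intervalIntegral.integral_const_mul]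
    rw [intervalIntegral.integral_of_le Real.pi_pos.le,
      intervalIntegral.integral_of_le Real.pi_pos.le, integral_Ioc_eq_integral_Ioo,
      integral_Ioc_eq_integral_Ioo]
    refine setIntegral_congr_fun measurableSet_Ioo (fun φ hφ => ?_)
    have hsin : 0 < Real.sin φ := Real.sin_pos_of_pos_of_lt_pi hφ.1 hφ.2
    have hsin' : (Real.sin φ : ℂ) ≠ 0 := by exact_mod_cast hsin.ne'
    have h5 : (Real.sin φ : ℂ) ^ (s + 1 - 1) = (Real.sin φ : ℂ) ^ (s - 1) * (Real.sin φ : ℂ) := by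
      rw [add_sub_cancel_right, Complex.cpow_sub _ _ hsin', Complex.cpow_one, div_mul_cancel₀ _ hsin']
    have h6 : Complex.exp (-(-1 * φ * Complex.I)) = Complex.exp (φ * Complex.I) := by
      congr 1
      ring
    have h7 : Complex.exp (-(1 * φ * Complex.I)) = Complex.exp (-φ * Complex.I) := by
      congr 1
      ring
    have h9 : Complex.I * Complex.sin φ =
        (Complex.exp (φ * Complex.I) - Complex.exp (-φ * Complex.I)) / 2 := by
      have : Complex.sin φ =
        (Complex.exp (-φ * Complex.I) - Complex.exp (φ * Complex.I)) * Complex.I / 2 := rfl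
      rw [this]
      linear_combination (Complex.exp (-φ * Complex.I) - Complex.exp (φ * Complex.I)) / 2 *
        Complex.I_mul_I
    change Complex.exp (-(-1 * φ * Complex.I)) * (Real.sin φ : ℂ) ^ (s - 1) -
      Complex.exp (-(1 * φ * Complex.I)) * (Real.sin φ : ℂ) ^ (s - 1) =
      2 * Complex.I * (Real.sin φ : ℂ) ^ (s + 1 - 1)
    rw [h5, h6, h7, Complex.ofReal_sin]
    linear_combination (-2 * Complex.sin φ ^ (s - 1)) * h9
  have h3 : 0 < (s + 1).re := by
    rw [Complex.add_re, Complex.one_re]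
    linarith
  rw [(sin_beta (s + 1) h3).2, add_sub_cancel_right] at h2
  have h4 : S (-1) s = -S 1 s := by
    have h5 : s * (S (-1) s + S 1 s) = 0 := by
      have h6 : (-1 : ℂ) + 2 = 1 := by norm_num
      rw [h6] at h1
      linear_combination h1
    have h7 := (mul_eq_zero.1 h5).resolve_left hs0
    linear_combination h7
  rw [h4] at h2
  linear_combination (-1 / 2 : ℂ) * h2

theorem S_base (s : ℂ) (hs : 0 < s.re) :
    S 1 s = -Complex.I * Real.pi * Complex.Gamma s * (2 : ℂ) ^ (1 - s) *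
      (Complex.Gamma (s / 2))⁻¹ * (Complex.Gamma (s / 2 + 1))⁻¹ := by
  rw [S_one s hs]
  have hu : 0 < ((s + 1) / 2).re := by
    rw [Complex.div_ofNat_re, Complex.add_re, Complex.one_re]
    positivity
  have hs2 : 0 < (s / 2).re := by
    rw [Complex.div_ofNat_re]
    positivity
  have hg1 := Complex.Gamma_mul_Gamma_eq_betaIntegral hu hu
  have hg2 := Complex.Gamma_mul_Gamma_add_half (s / 2)
  have hg3 := Complex.Gamma_mul_Gamma_add_half ((s + 1) / 2)
  have e1 : (s + 1) / 2 + (s + 1) / 2 = s + 1 := by ring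
  have e2 : s / 2 + 1 / 2 = (s + 1) / 2 := by ring
  have e3 : 2 * (s / 2) = s := by ring
  have e4 : (s + 1) / 2 + 1 / 2 = s / 2 + 1 := by ring
  have e5 : 2 * ((s + 1) / 2) = s + 1 := by ring
  have e6 : 1 - (s + 1) = -s := by ring
  rw [e1] at hg1
  rw [e2, e3] at hg2
  rw [e4, e5, e6] at hg3
  have n1 : Complex.Gamma (s / 2) ≠ 0 := Complex.Gamma_ne_zero_of_re_pos hs2
  have n2 : Complex.Gamma (s / 2 + 1) ≠ 0 := by
    apply Complex.Gamma_ne_zero_of_re_pos
    rw [Complex.add_re, Complex.one_re]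
    linarith
  have n3 : Complex.Gamma ((s + 1) / 2) ≠ 0 := Complex.Gamma_ne_zero_of_re_pos hu
  have n4 : Complex.Gamma (s + 1) ≠ 0 := by
    apply Complex.Gamma_ne_zero_of_re_pos
    rw [Complex.add_re, Complex.one_re]
    linarith
  have n5 : (2 : ℂ) ^ s ≠ 0 := by
    rw [Complex.cpow_ne_zero_iff]
    left
    norm_num
  have n6 : ((Real.sqrt Real.pi : ℝ) : ℂ) ≠ 0 := by
    exact_mod_cast (Real.sqrt_pos.2 Real.pi_pos).ne'
  have hpi : ((Real.sqrt Real.pi : ℝ) : ℂ) * ((Real.sqrt Real.pi : ℝ) : ℂ) = Real.pi := by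
    rw [← Complex.ofReal_mul, Real.mul_self_sqrt Real.pi_pos.le]
  have hneg : (2 : ℂ) ^ (-s) * (2 : ℂ) ^ s = 1 := by
    rw [← Complex.cpow_add _ _ (by norm_num)]
    simp
  set B := Complex.betaIntegral ((s + 1) / 2) ((s + 1) / 2)
  set G0 := Complex.Gamma s
  set G1 := Complex.Gamma (s + 1)
  set a := Complex.Gamma (s / 2)
  set b := Complex.Gamma ((s + 1) / 2)
  set c := Complex.Gamma (s / 2 + 1)
  set q := ((Real.sqrt Real.pi : ℝ) : ℂ)
  set P := (2 : ℂ) ^ s
  set M := (2 : ℂ) ^ (-s)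
  set R := (2 : ℂ) ^ (1 - s)
  -- hg1 : b * b = G1 * B, hg2 : a * b = G0 * R * q, hg3 : b * c = G1 * M * q
  rw [← hpi]
  have k1 : B = b * b / G1 := by
    rw [hg1]
    field_simp
  have k2 : G0 * R * q = a * b := hg2.symm
  have k3 : G1 = b * c * P / q := by
    have : b * c * P = G1 * q := by
      rw [hg3]
      linear_combination (G1 * q) * hneg
    rw [this]
    field_simp
  have k4 : -Complex.I * (q * q) * G0 * R * a⁻¹ * c⁻¹ = -Complex.I * q * (G0 * R * q) * a⁻¹ * c⁻¹ := by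
    ring
  rw [k4, k2, k1, k3]
  field_simp

theorem S_odd (s : ℂ) (hs : 0 < s.re) (r : ℕ) :
    S (2 * r + 1) s = -Complex.I * (-1) ^ r * Real.pi * Complex.Gamma s * (2 : ℂ) ^ (1 - s) *
      (Complex.Gamma (s / 2 - r))⁻¹ * (Complex.Gamma (s / 2 + r + 1))⁻¹ := by
  induction r with
  | zero =>
    have := S_base s hs
    simpa using this
  | succ r ih =>
    have h := S_rec (2 * r + 1) s hs
    rw [ih] at h
    have e1 : (2 * (r : ℂ) + 1 + 2) = 2 * ((r + 1 : ℕ) : ℂ) + 1 := by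
      push_cast
      ring
    rw [e1] at h
    have n1 : s + (2 * r + 1) + 1 ≠ 0 := by
      intro h0
      have := congrArg Complex.re h0
      simp at this
      have hr : (0 : ℝ) ≤ r := Nat.cast_nonneg r
      linarith
    have n2 : s / 2 + r + 1 ≠ 0 := by
      intro h0
      apply n1
      linear_combination 2 * h0
    have g1 := Complex.one_div_Gamma_eq_self_mul_one_div_Gamma_add_one (s / 2 - (r + 1 : ℕ))
    have e2 : s / 2 - ((r + 1 : ℕ) : ℂ) + 1 = s / 2 - r := by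
      push_cast
      ring
    rw [e2] at g1
    have g2 := Complex.Gamma_add_one _ n2
    have e3 : s / 2 + r + 1 + 1 = s / 2 + ((r + 1 : ℕ) : ℂ) + 1 := by
      push_cast
      ring
    rw [e3] at g2
    rw [g1, g2, mul_inv]
    have e4 : S (2 * ((r + 1 : ℕ) : ℂ) + 1) s = -((s - (2 * r + 1) - 1) * (-Complex.I * (-1) ^ r *
        Real.pi * Complex.Gamma s * (2 : ℂ) ^ (1 - s) *
      (Complex.Gamma (s / 2 - r))⁻¹ * (Complex.Gamma (s / 2 + r + 1))⁻¹)) /
        (s + (2 * r + 1) + 1) := by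
      rw [eq_div_iff n1]
      linear_combination h
    rw [e4, div_eq_iff n1]
    have e5 : (s + (2 * (r : ℂ) + 1) + 1) = 2 * (s / 2 + r + 1) := by ring
    have e6 : (s / 2 + (r : ℂ) + 1)⁻¹ * (s / 2 + r + 1) = 1 := inv_mul_cancel₀ n2
    rw [e5]
    push_cast
    rw [pow_succ]
    linear_combination (-(-Complex.I * ((-1) ^ r * -1) * Real.pi * Complex.Gamma s *
      (2 : ℂ) ^ (1 - s) * ((s / 2 - (r + 1)) * (Complex.Gamma (s / 2 - r))⁻¹) *
      (Complex.Gamma (s / 2 + r + 1))⁻¹ * 2)) * e6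

end KDAux

open KDAux in
/-- (R17) -/
theorem stKD : StKD := by
  intro k r m t hm h1 h2
  have hs : 0 < (2 * t + 2 * r : ℂ).re := by
    simp
    linarith
  have hm0 : (0 : ℝ) < m := by exact_mod_cast hm
  have hint : (∫ φ in (0 : ℝ)..Real.pi, Complex.exp (-((2 * r + 1) * φ * Complex.I)) *
      (Real.sin φ : ℂ) ^ (t + k + 2 * r) *
      (((m : ℂ) + m) * Real.sin φ + Complex.I * (((m : ℂ) - m) * Real.cos φ)) ^ (t - k - 1)) =
      (2 * m : ℂ) ^ (t - k - 1) * S (2 * r + 1) (2 * t + 2 * r) := by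
    rw [S, ← intervalIntegral.integral_const_mul, intervalIntegral.integral_of_le Real.pi_pos.le,
      intervalIntegral.integral_of_le Real.pi_pos.le, integral_Ioc_eq_integral_Ioo,
      integral_Ioc_eq_integral_Ioo]
    refine setIntegral_congr_fun measurableSet_Ioo (fun φ hφ => ?_)
    have hsin : 0 < Real.sin φ := Real.sin_pos_of_pos_of_lt_pi hφ.1 hφ.2
    have hsin' : (Real.sin φ : ℂ) ≠ 0 := by exact_mod_cast hsin.ne'
    have e1 : ((m : ℂ) + m) * Real.sin φ + Complex.I * (((m : ℂ) - m) * Real.cos φ) =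
        ((2 * m : ℝ) : ℂ) * (Real.sin φ : ℂ) := by
      push_cast
      ring
    have e2 : ((2 * m : ℝ) : ℂ) = 2 * (m : ℂ) := by push_cast; ring
    change Complex.exp (-((2 * r + 1) * φ * Complex.I)) *
      (Real.sin φ : ℂ) ^ (t + k + 2 * r) *
      (((m : ℂ) + m) * Real.sin φ + Complex.I * (((m : ℂ) - m) * Real.cos φ)) ^ (t - k - 1) =
      (2 * m : ℂ) ^ (t - k - 1) * (Complex.exp (-((2 * r + 1) * φ * Complex.I)) *
        (Real.sin φ : ℂ) ^ (2 * t + 2 * r - 1))
    rw [e1, Complex.mul_cpow_ofReal_nonneg (by positivity) hsin.le, e2]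
    have e3 : (Real.sin φ : ℂ) ^ (2 * t + 2 * r - 1) =
        (Real.sin φ : ℂ) ^ (t + k + 2 * r) * (Real.sin φ : ℂ) ^ (t - k - 1) := by
      rw [← Complex.cpow_add _ _ hsin']
      congr 1
      ring
    rw [e3]
    ring
  rw [Kp, hint, S_odd _ hs r]
  have e4 : (4 * Real.pi * m : ℂ) ^ (t - k - 1) =
      (2 * Real.pi : ℂ) ^ (t - k - 1) * (2 * m : ℂ) ^ (t - k - 1) := by
    have h := Complex.mul_cpow_ofReal_nonneg (a := 2 * Real.pi) (b := 2 * m) (by positivity)
      (by positivity) (t - k - 1)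
    push_cast at h
    rw [← h]
    congr 1
    ring
  have e5 : (2 * t + 2 * r) / 2 - (r : ℂ) = t := by ring
  have e6 : (2 * t + 2 * r) / 2 + (r : ℂ) + 1 = t + 2 * r + 1 := by ring
  have e7 : 1 - (2 * t + 2 * (r : ℂ)) = 1 - 2 * t - 2 * r := by ring
  rw [e4, e5, e6, e7, div_eq_mul_inv, mul_inv]
  ring

end RZ

end Pool.Agent.Lib.MP_7c08ba_nt
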