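import Mathlib
import Pool.Agent.Lib.MP_7c08ba_nt.RZ.StR

set_option autoImplicit false

/-!
(R22) the derivatives of `Kp` at `-r`.
-/

namespace Pool.Agent.Lib.MP_7c08ba_nt

namespace RZ

open MeasureTheory Set Filter
open scoped Topology Interval

namespace KpBaux

/-- The base of the power. -/
noncomputable def Ab (n m : ℕ) (φ : ℝ) : ℂ :=
  ((n : ℂ) + m) * Real.sin φ + Complex.I * (((m : ℂ) - n) * Real.cos φ)

/-- The integrand. -/
noncomputable def gI (k r n m : ℕ) (t : ℂ) (φ : ℝ) : ℂ :=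
  Complex.exp (-((2 * r + 1) * φ * Complex.I)) *
      (Real.sin φ : ℂ) ^ (t + k + 2 * r) * Ab n m φ ^ (t - k - 1)

/-- The derivative of the integrand. -/
noncomputable def gI' (k r n m : ℕ) (t : ℂ) (φ : ℝ) : ℂ :=
  gI k r n m t φ * (Complex.log (Real.sin φ) + Complex.log (Ab n m φ))

variable {k r n m : ℕ}

theorem eq_Ab (φ : ℝ) : Ab n m φ = (((n : ℝ) + m) * Real.sin φ : ℝ) +
    (((m : ℝ) - n) * Real.cos φ : ℝ) * Complex.I := by
  rw [Ab]
  push_cast
  ring

theorem re_Ab (φ : ℝ) : (Ab n m φ).re = ((n : ℝ) + m) * Real.sin φ := by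
  rw [eq_Ab, Complex.add_re, Complex.re_ofReal_mul, Complex.I_re, mul_zero, add_zero,
    Complex.ofReal_re]

theorem im_Ab (φ : ℝ) : (Ab n m φ).im = ((m : ℝ) - n) * Real.cos φ := by
  rw [eq_Ab, Complex.add_im, Complex.im_ofReal_mul, Complex.I_im, mul_one, Complex.ofReal_im,
    zero_add]

theorem normSq_Ab (φ : ℝ) : ‖Ab n m φ‖ ^ 2 =
    (((n : ℝ) + m) * Real.sin φ) ^ 2 + (((m : ℝ) - n) * Real.cos φ) ^ 2 := by
  rw [Complex.sq_norm, Complex.normSq_apply, re_Ab, im_Ab]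
  ring

theorem one_le_Ab (h : m < n) (φ : ℝ) : 1 ≤ ‖Ab n m φ‖ := by
  have h1 := normSq_Ab (n := n) (m := m) φ
  have h2 := Real.sin_sq_add_cos_sq φ
  have h3 : (m : ℝ) + 1 ≤ n := by exact_mod_cast h
  have h4 : (0 : ℝ) ≤ m := Nat.cast_nonneg m
  have h5 : (1 : ℝ) ≤ ‖Ab n m φ‖ ^ 2 := by
    rw [h1, mul_pow, mul_pow]
    have h6 : (1 : ℝ) ≤ ((n : ℝ) + m) ^ 2 := by nlinarith
    have h7 : (1 : ℝ) ≤ ((m : ℝ) - n) ^ 2 := by nlinarith
    nlinarith [sq_nonneg (Real.sin φ), sq_nonneg (Real.cos φ)]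
  nlinarith [norm_nonneg (Ab n m φ)]

theorem Ab_le (φ : ℝ) : ‖Ab n m φ‖ ≤ (n : ℝ) + m := by
  have h1 := normSq_Ab (n := n) (m := m) φ
  have h2 := Real.sin_sq_add_cos_sq φ
  have h3 : (0 : ℝ) ≤ n := Nat.cast_nonneg n
  have h4 : (0 : ℝ) ≤ m := Nat.cast_nonneg m
  have h5 : ‖Ab n m φ‖ ^ 2 ≤ ((n : ℝ) + m) ^ 2 := by
    rw [h1, mul_pow, mul_pow]
    have h7 : ((m : ℝ) - n) ^ 2 ≤ ((n : ℝ) + m) ^ 2 := by nlinarith
    nlinarith [sq_nonneg (Real.sin φ), sq_nonneg (Real.cos φ)]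
  exact le_of_sq_le_sq h5 (by positivity) |>.trans le_rfl

theorem sin_le_Ab (φ : ℝ) : ((n : ℝ) + m) * Real.sin φ ≤ ‖Ab n m φ‖ := by
  rw [← re_Ab]
  exact Complex.re_le_norm _

theorem norm_log_Ab (h : m < n) {φ : ℝ} (h0 : 0 ≤ Real.sin φ) :
    ‖Complex.log (Ab n m φ)‖ ≤ Real.log ((n : ℝ) + m) + Real.pi / 2 := by
  refine (Complex.norm_le_abs_re_add_abs_im _).trans ?_
  rw [Complex.log_re, Complex.log_im]
  have h1 := one_le_Ab h φ
  have h2 : |Real.log ‖Ab n m φ‖| ≤ Real.log ((n : ℝ) + m) := by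
    rw [abs_of_nonneg (Real.log_nonneg h1)]
    exact Real.log_le_log (by linarith) (Ab_le φ)
  have h3 : |(Ab n m φ).arg| ≤ Real.pi / 2 := by
    rw [Complex.abs_arg_le_pi_div_two_iff, re_Ab]
    positivity
  exact add_le_add h2 h3

theorem norm_exp (φ : ℝ) : ‖Complex.exp (-((2 * r + 1) * φ * Complex.I))‖ = 1 := by
  have h1 : -((2 * r + 1) * φ * Complex.I) = ((-((2 * r + 1) * φ) : ℝ) : ℂ) * Complex.I := by
    push_cast
    ring
  rw [h1, Complex.norm_exp_ofReal_mul_I]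

theorem norm_gI (h : m < n) {φ : ℝ} (h0 : 0 < Real.sin φ) (t : ℂ) :
    ‖gI k r n m t φ‖ = Real.sin φ ^ (t.re + k + 2 * r) *
      (‖Ab n m φ‖ ^ (t.re - k - 1) / Real.exp ((Ab n m φ).arg * t.im)) := by
  have h1 := one_le_Ab h φ
  have h2 : Ab n m φ ≠ 0 := by
    intro h2
    rw [h2, norm_zero] at h1
    linarith
  rw [gI, norm_mul, norm_mul, norm_exp, one_mul, Complex.norm_cpow_eq_rpow_re_of_pos h0,
    Complex.norm_cpow_of_ne_zero h2]
  simp

theorem norm_gI_le (h : m < n) (hr : 1 ≤ r) {φ : ℝ} (h0 : 0 < Real.sin φ) {t : ℂ}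
    (ht : ‖t - (-r)‖ < 1 / 2) : ‖gI k r n m t φ‖ ≤ Real.exp Real.pi := by
  rw [norm_gI h h0]
  have h1 := one_le_Ab h φ
  have hre : |t.re + r| < 1 / 2 := by
    have h2 := (Complex.abs_re_le_norm (t - (-r))).trans_lt ht
    simpa using h2
  have him : |t.im| < 1 / 2 := by
    have h2 := (Complex.abs_im_le_norm (t - (-r))).trans_lt ht
    simpa using h2
  rw [abs_lt] at hre
  have hr' : (1 : ℝ) ≤ r := by exact_mod_cast hr
  have hk : (0 : ℝ) ≤ k := Nat.cast_nonneg k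
  have e1 : Real.sin φ ^ (t.re + k + 2 * r) ≤ 1 :=
    Real.rpow_le_one h0.le (Real.sin_le_one φ) (by linarith)
  have e2 : ‖Ab n m φ‖ ^ (t.re - k - 1) ≤ 1 :=
    Real.rpow_le_one_of_one_le_of_nonpos h1 (by linarith)
  have e3 : Real.exp (-((Ab n m φ).arg * t.im)) ≤ Real.exp Real.pi := by
    apply Real.exp_le_exp.2
    have h3 : |(Ab n m φ).arg * t.im| ≤ Real.pi * 1 := by
      rw [abs_mul]
      exact mul_le_mul (Complex.abs_arg_le_pi _) (by linarith) (abs_nonneg _) Real.pi_pos.le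
    have h4 := neg_abs_le ((Ab n m φ).arg * t.im)
    linarith
  rw [div_eq_mul_inv, ← Real.exp_neg]
  have h5 : 0 ≤ ‖Ab n m φ‖ ^ (t.re - k - 1) := by positivity
  have h6 : 0 ≤ Real.sin φ ^ (t.re + k + 2 * r) := by positivity
  calc Real.sin φ ^ (t.re + k + 2 * r) * (‖Ab n m φ‖ ^ (t.re - k - 1) *
        Real.exp (-((Ab n m φ).arg * t.im)))
      ≤ 1 * (1 * Real.exp Real.pi) := by gcongr
    _ = _ := by ring

theorem norm_gI_at (h : m < n) {φ : ℝ} (h0 : 0 < Real.sin φ) :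
    ‖gI k r n m (-r) φ‖ ≤ (((n : ℝ) + m) ^ (k + r))⁻¹ := by
  have h1 := one_le_Ab h φ
  have hnm : 0 < (n : ℝ) + m := by
    have : (m : ℝ) + 1 ≤ n := by exact_mod_cast h
    have : (0 : ℝ) ≤ m := Nat.cast_nonneg m
    linarith
  have hA : 0 < ‖Ab n m φ‖ := by linarith
  have e1 : (-r : ℂ).re + k + 2 * r = ((k + r : ℕ) : ℝ) := by
    simp
    ring
  have e2 : (-r : ℂ).re - k - 1 = -((k + r + 1 : ℕ) : ℝ) := by
    simp
    ring
  have e3 : (-r : ℂ).im = 0 := by simp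
  rw [norm_gI h h0, e1, e2, e3, mul_zero, Real.exp_zero, div_one, Real.rpow_natCast,
    Real.rpow_neg hA.le, Real.rpow_natCast, ← div_eq_mul_inv, ← one_div,
    div_le_div_iff₀ (by positivity) (by positivity), one_mul, pow_succ, ← mul_pow, mul_comm _
      ((n : ℝ) + m)]
  have h2 : (((n : ℝ) + m) * Real.sin φ) ^ (k + r) ≤ ‖Ab n m φ‖ ^ (k + r) :=
    pow_le_pow_left₀ (by positivity) (sin_le_Ab φ) _
  have h3 : 0 < ‖Ab n m φ‖ ^ (k + r) := by positivity
  nlinarith

theorem hasDerivAt_gI (h : m < n) {φ : ℝ} (h0 : 0 < Real.sin φ) (t : ℂ) :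
    HasDerivAt (fun t => gI k r n m t φ) (gI' k r n m t φ) t := by
  have h1 := one_le_Ab h φ
  have h2 : Ab n m φ ≠ 0 := by
    intro h2
    rw [h2, norm_zero] at h1
    linarith
  have h3 : (Real.sin φ : ℂ) ≠ 0 := Complex.ofReal_ne_zero.2 h0.ne'
  have d1 : HasDerivAt (fun t : ℂ => t + k + 2 * r) 1 t :=
    ((hasDerivAt_id t).add_const _).add_const _
  have d2 : HasDerivAt (fun t : ℂ => t - k - 1) 1 t :=
    ((hasDerivAt_id t).sub_const _).sub_const _
  have d3 := (d1.const_cpow (c := (Real.sin φ : ℂ)) (Or.inl h3)).const_mul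
    (Complex.exp (-((2 * r + 1) * φ * Complex.I)))
  have d4 := d2.const_cpow (c := Ab n m φ) (Or.inl h2)
  have e : gI' k r n m t φ = Complex.exp (-((2 * r + 1) * φ * Complex.I)) *
      ((Real.sin φ : ℂ) ^ (t + k + 2 * r) * Complex.log (Real.sin φ) * 1) *
      Ab n m φ ^ (t - k - 1) + Complex.exp (-((2 * r + 1) * φ * Complex.I)) *
      (Real.sin φ : ℂ) ^ (t + k + 2 * r) *
      (Ab n m φ ^ (t - k - 1) * Complex.log (Ab n m φ) * 1) := by
    unfold gI' gI
    ring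
  rw [e]
  exact d3.mul d4

theorem measurable_Ab : Measurable (Ab n m) := by
  have : Continuous (Ab n m) := by
    unfold Ab
    fun_prop
  exact this.measurable

theorem measurable_gI (t : ℂ) : Measurable (gI k r n m t) := by
  have h1 : Measurable fun φ : ℝ => (Real.sin φ : ℂ) := by fun_prop
  have h2 := measurable_Ab (n := n) (m := m)
  unfold gI
  exact ((by fun_prop : Measurable fun φ : ℝ =>
    Complex.exp (-((2 * r + 1) * φ * Complex.I))).mul (h1.pow_const _)).mul (h2.pow_const _)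

theorem measurable_gI' (t : ℂ) : Measurable (gI' k r n m t) := by
  have h1 : Measurable fun φ : ℝ => (Real.sin φ : ℂ) := by fun_prop
  exact (measurable_gI t).mul ((Complex.measurable_log.comp h1).add
    (Complex.measurable_log.comp measurable_Ab))

theorem ae_pos : ∀ᵐ φ : ℝ ∂volume, φ ∈ Ι 0 Real.pi → 0 < Real.sin φ := by
  have h1 : ∀ᵐ φ : ℝ ∂volume, φ ≠ Real.pi := by
    rw [ae_iff]
    simp
  filter_upwards [h1] with φ h2 h3
  rw [uIoc_of_le Real.pi_pos.le] at h3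
  exact Real.sin_pos_of_pos_of_lt_pi h3.1 (lt_of_le_of_ne h3.2 h2)

theorem integrable_log : IntervalIntegrable (fun φ => Real.log (Real.sin φ)) volume 0
    Real.pi := intervalIntegrable_log_sin

theorem norm_log_sin {φ : ℝ} (h0 : 0 < Real.sin φ) :
    ‖Complex.log (Real.sin φ)‖ = -Real.log (Real.sin φ) := by
  rw [← Complex.ofReal_log h0.le, Complex.norm_real, Real.norm_eq_abs, abs_of_nonpos]
  exact Real.log_nonpos h0.le (Real.sin_le_one φ)

theorem main_deriv (h : m < n) (hr : 1 ≤ r) :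
    IntervalIntegrable (gI' k r n m (-r)) volume 0 Real.pi ∧
      HasDerivAt (fun t => ∫ φ in (0 : ℝ)..Real.pi, gI k r n m t φ)
        (∫ φ in (0 : ℝ)..Real.pi, gI' k r n m (-r) φ) (-r) := by
  refine intervalIntegral.hasDerivAt_integral_of_dominated_loc_of_deriv_le
    (s := Metric.ball (-r : ℂ) (1 / 2))
    (bound := fun φ => Real.exp Real.pi * (-Real.log (Real.sin φ) +
      (Real.log ((n : ℝ) + m) + Real.pi / 2))) (Metric.ball_mem_nhds _ (by norm_num)) ?_ ?_ ?_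
    ?_ ?_ ?_
  · exact Eventually.of_forall fun t => (measurable_gI t).aestronglyMeasurable
  · rw [intervalIntegrable_iff]
    refine Integrable.mono' (g := fun _ => Real.exp Real.pi) ?_
      (measurable_gI _).aestronglyMeasurable ?_
    · exact (intervalIntegrable_iff.1 (intervalIntegrable_const
        (c := Real.exp Real.pi)))
    · rw [ae_restrict_iff' measurableSet_uIoc]
      filter_upwards [ae_pos] with φ h1 h2
      exact norm_gI_le h hr (h1 h2) (by simp)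
  · exact (measurable_gI' _).aestronglyMeasurable
  · filter_upwards [ae_pos] with φ h1 h2 t ht
    rw [Metric.mem_ball, dist_eq_norm] at ht
    rw [gI', norm_mul]
    refine mul_le_mul (norm_gI_le h hr (h1 h2) ht) ?_ (norm_nonneg _) (Real.exp_pos _).le
    refine (norm_add_le _ _).trans ?_
    rw [norm_log_sin (h1 h2)]
    exact add_le_add le_rfl (norm_log_Ab h (h1 h2).le)
  · exact (integrable_log.neg.add intervalIntegrable_const).const_mul _
  · filter_upwards [ae_pos] with φ h1 h2 t _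
    exact hasDerivAt_gI h (h1 h2) t

theorem norm_int (h : m < n) :
    ‖∫ φ in (0 : ℝ)..Real.pi, gI' k r n m (-r) φ‖ ≤
      (((n : ℝ) + m) ^ (k + r))⁻¹ * (10 * (1 + Real.log ((n : ℝ) + m))) := by
  have hnm : 1 ≤ (n : ℝ) + m := by
    have : (m : ℝ) + 1 ≤ n := by exact_mod_cast h
    have : (0 : ℝ) ≤ m := Nat.cast_nonneg m
    linarith
  have h1 : ‖∫ φ in (0 : ℝ)..Real.pi, gI' k r n m (-r) φ‖ ≤
      ∫ φ in (0 : ℝ)..Real.pi, (((n : ℝ) + m) ^ (k + r))⁻¹ * (-Real.log (Real.sin φ) +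
        (Real.log ((n : ℝ) + m) + Real.pi / 2)) := by
    refine intervalIntegral.norm_integral_le_of_norm_le Real.pi_pos.le ?_ ?_
    · filter_upwards [ae_pos] with φ h1 h2
      rw [← uIoc_of_le Real.pi_pos.le] at h2
      rw [gI', norm_mul]
      refine mul_le_mul (norm_gI_at h (h1 h2)) ?_ (norm_nonneg _) (by positivity)
      refine (norm_add_le _ _).trans ?_
      rw [norm_log_sin (h1 h2)]
      exact add_le_add le_rfl (norm_log_Ab h (h1 h2).le)
    · exact (integrable_log.neg.add intervalIntegrable_const).const_mul _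
  refine h1.trans ?_
  rw [intervalIntegral.integral_const_mul]
  refine mul_le_mul_of_nonneg_left ?_ (by positivity)
  have h7 : IntervalIntegrable (fun φ => -Real.log (Real.sin φ)) volume 0 Real.pi :=
    integrable_log.neg
  rw [intervalIntegral.integral_add h7 intervalIntegrable_const, intervalIntegral.integral_neg, integral_log_sin_zero_pi, intervalIntegral.integral_const,
    smul_eq_mul]
  have h2 := Real.log_two_lt_d9
  have h3 := Real.pi_lt_d2
  have h4 := Real.pi_gt_three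
  have h5 := Real.log_nonneg hnm
  have h6 := Real.log_pos one_lt_two
  nlinarith [mul_nonneg h5 (by linarith : (0 : ℝ) ≤ 10 - Real.pi)]

end KpBaux

open KpBaux in
/-- (R22) the derivatives of `Kp` at `-r` -/
theorem stKpB (_h1 : StHol) (h2 : StKpV) (_h3 : StKpA) : StKpB := by
  intro k r n m hr hm hmn
  obtain ⟨-, hd⟩ := main_deriv (k := k) hmn hr
  let f : ℂ → ℂ := fun t => Complex.Gamma (k + 1 - t) * (2 * Real.pi : ℂ) ^ (t - k - 1)
  have hpi : (2 * Real.pi : ℂ) ≠ 0 := by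
    simp [Real.pi_ne_zero]
  have hre : ∀ j : ℕ, ((k : ℂ) + 1 - (-r)) ≠ -j := by
    intro j h
    have h3 := congrArg Complex.re h
    simp at h3
    have : (0 : ℝ) ≤ k := Nat.cast_nonneg k
    have : (0 : ℝ) ≤ r := Nat.cast_nonneg r
    have : (0 : ℝ) ≤ j := Nat.cast_nonneg j
    linarith
  have hf : DifferentiableAt ℂ f (-r) := by
    refine DifferentiableAt.mul ?_ ?_
    · exact (Complex.differentiableAt_Gamma _ hre).comp (-r : ℂ)
        ((differentiableAt_const _).sub differentiableAt_id)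
    · exact ((differentiableAt_id.sub_const _).sub_const _).const_cpow (Or.inl hpi)
  have hK : Kp k r n m = fun t => f t * ∫ φ in (0 : ℝ)..Real.pi, gI k r n m t φ := rfl
  have e1 : ((k : ℂ) + 1 - (-r)) = ((k + r : ℕ) : ℂ) + 1 := by
    push_cast
    ring
  have hfv : f (-r) = ((k + r).factorial : ℂ) * ((2 * Real.pi : ℂ) ^ (k + r + 1))⁻¹ := by
    change Complex.Gamma (k + 1 - (-r)) * (2 * Real.pi : ℂ) ^ ((-r : ℂ) - k - 1) = _
    have e2 : (-r : ℂ) - k - 1 = -((k + r + 1 : ℕ) : ℂ) := by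
      push_cast
      ring
    rw [e1, Complex.Gamma_nat_eq_factorial, e2, Complex.cpow_neg, Complex.cpow_natCast]
  have hf0 : f (-r) ≠ 0 := by
    rw [hfv]
    exact mul_ne_zero (Nat.cast_ne_zero.2 (Nat.factorial_ne_zero _))
      (inv_ne_zero (pow_ne_zero _ hpi))
  have hI : ∫ φ in (0 : ℝ)..Real.pi, gI k r n m (-r) φ = 0 := by
    have h3 := (h2 k r n m hm).2 hmn
    rw [hK] at h3
    exact (mul_eq_zero.1 h3).resolve_left hf0
  have h4 := (hf.hasDerivAt.mul hd).deriv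
  have h5 : deriv (Kp k r n m) (-r) = f (-r) * ∫ φ in (0 : ℝ)..Real.pi, gI' k r n m (-r) φ := by
    rw [hK]
    refine h4.trans ?_
    rw [hI, mul_zero, zero_add]
  rw [h5, norm_mul, hfv, norm_mul, norm_inv, norm_pow, Complex.norm_natCast]
  have h6 : ‖(2 * Real.pi : ℂ)‖ = 2 * Real.pi := by
    rw [norm_mul, Complex.norm_real, Real.norm_of_nonneg Real.pi_pos.le]
    norm_num
  rw [h6, mul_assoc (((k + r).factorial : ℝ) * _)]
  exact mul_le_mul_of_nonneg_left (norm_int hmn) (by positivity)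

end RZ

end Pool.Agent.Lib.MP_7c08ba_nt
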