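import Mathlib
import Pool.Agent.Lib.MP_7c08ba_nt.RZ.StR
import Pool.Agent.Lib.MP_7c08ba_nt.RZ.KpB
import Pool.Agent.Lib.MP_7c08ba_nt.RZ.KD

set_option autoImplicit false

/-!
(R16) the functions `Kp` are holomorphic, size.
-/

namespace Pool.Agent.Lib.MP_7c08ba_nt

namespace RZ

open MeasureTheory Set Filter
open scoped Topology Interval

namespace KpAaux

open KpBaux

variable {k r n m : ℕ}

theorem one_le_sub (h : n ≠ m) : 1 ≤ |(n : ℝ) - m| := by
  rcases lt_or_gt_of_ne h with h1 | h1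
  · have h2 : (n : ℝ) + 1 ≤ m := by exact_mod_cast h1
    rw [abs_sub_comm]
    exact le_trans (by linarith) (le_abs_self _)
  · have h2 : (m : ℝ) + 1 ≤ n := by exact_mod_cast h1
    exact le_trans (by linarith) (le_abs_self _)

theorem lin (h : n ≠ m) : ((n : ℝ) + 1) / ((m : ℝ) + 2) ≤ |(n : ℝ) - m| := by
  have h0 : (0 : ℝ) ≤ m := Nat.cast_nonneg m
  have h3 : (0 : ℝ) ≤ n := Nat.cast_nonneg n
  rw [div_le_iff₀ (by linarith)]
  rcases lt_or_gt_of_ne h with h1 | h1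
  · have h2 : (n : ℝ) + 1 ≤ m := by exact_mod_cast h1
    rw [abs_of_nonpos (by linarith)]
    nlinarith
  · have h2 : (m : ℝ) + 1 ≤ n := by exact_mod_cast h1
    rw [abs_of_nonneg (by linarith)]
    nlinarith

theorem sub_le_Ab (φ : ℝ) : |(n : ℝ) - m| ≤ ‖Ab n m φ‖ := by
  have h1 := normSq_Ab (n := n) (m := m) φ
  have h2 := Real.sin_sq_add_cos_sq φ
  have h3 : (0 : ℝ) ≤ n := Nat.cast_nonneg n
  have h4 : (0 : ℝ) ≤ m := Nat.cast_nonneg m
  refine abs_le_of_sq_le_sq ?_ (norm_nonneg _)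
  rw [h1, mul_pow, mul_pow]
  have h7 : ((m : ℝ) - n) ^ 2 ≤ ((n : ℝ) + m) ^ 2 := by nlinarith
  nlinarith [sq_nonneg (Real.sin φ), sq_nonneg (Real.cos φ)]

theorem Ab_ne (h : n ≠ m) (φ : ℝ) : Ab n m φ ≠ 0 := by
  intro h2
  have h1 := (one_le_sub h).trans (sub_le_Ab (n := n) (m := m) φ)
  rw [h2, norm_zero] at h1
  linarith

theorem norm_gI' (h : n ≠ m) {φ : ℝ} (h0 : 0 < Real.sin φ) (t : ℂ) :
    ‖gI k r n m t φ‖ = Real.sin φ ^ (t.re + k + 2 * r) *
      (‖Ab n m φ‖ ^ (t.re - k - 1) / Real.exp ((Ab n m φ).arg * t.im)) := by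
  rw [gI, norm_mul, norm_mul, norm_exp, one_mul, Complex.norm_cpow_eq_rpow_re_of_pos h0,
    Complex.norm_cpow_of_ne_zero (Ab_ne h φ)]
  simp

theorem norm_le (h : n ≠ m) {φ : ℝ} (h0 : 0 < Real.sin φ) {t : ℂ}
    (ht : -(r : ℝ) - 1 / 2 ≤ t.re) (ht1 : t.re ≤ 1) : ‖gI k r n m t φ‖ ≤
      Real.sin φ ^ (-(1 / 2) : ℝ) * (|(n : ℝ) - m| ^ (t.re - k - 1) *
        Real.exp (Real.pi * ‖t‖)) := by
  rw [norm_gI' h h0]
  have hk : (0 : ℝ) ≤ k := Nat.cast_nonneg k
  have hr : (0 : ℝ) ≤ r := Nat.cast_nonneg r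
  have e1 : Real.sin φ ^ (t.re + k + 2 * r) ≤ Real.sin φ ^ (-(1 / 2) : ℝ) :=
    Real.rpow_le_rpow_of_exponent_ge h0 (Real.sin_le_one φ) (by linarith)
  have e2 : ‖Ab n m φ‖ ^ (t.re - k - 1) ≤ |(n : ℝ) - m| ^ (t.re - k - 1) :=
    Real.rpow_le_rpow_of_nonpos (by linarith [one_le_sub h]) (sub_le_Ab φ) (by linarith)
  have e3 : Real.exp (-((Ab n m φ).arg * t.im)) ≤ Real.exp (Real.pi * ‖t‖) := by
    apply Real.exp_le_exp.2
    have h3 : |(Ab n m φ).arg * t.im| ≤ Real.pi * ‖t‖ := by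
      rw [abs_mul]
      exact mul_le_mul (Complex.abs_arg_le_pi _) (Complex.abs_im_le_norm t) (abs_nonneg _)
        Real.pi_pos.le
    have h4 := neg_abs_le ((Ab n m φ).arg * t.im)
    linarith
  rw [div_eq_mul_inv, ← Real.exp_neg]
  have h5 : 0 ≤ ‖Ab n m φ‖ ^ (t.re - k - 1) := by positivity
  have h6 : 0 ≤ Real.sin φ ^ (t.re + k + 2 * r) := by positivity
  gcongr

theorem diff_gI (h : n ≠ m) {φ : ℝ} (h0 : 0 < Real.sin φ) :
    Differentiable ℂ (fun t => gI k r n m t φ) := by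
  have h3 : (Real.sin φ : ℂ) ≠ 0 := Complex.ofReal_ne_zero.2 h0.ne'
  intro t
  have d1 : DifferentiableAt ℂ (fun t : ℂ => t + k + 2 * r) t := by fun_prop
  have d2 : DifferentiableAt ℂ (fun t : ℂ => t - k - 1) t := by fun_prop
  have d3 := (d1.const_cpow (c := (Real.sin φ : ℂ)) (Or.inl h3)).const_mul
    (Complex.exp (-((2 * r + 1) * φ * Complex.I)))
  have d4 := d2.const_cpow (c := Ab n m φ) (Or.inl (Ab_ne h φ))
  exact d3.mul d4

theorem int_sin : IntervalIntegrable (fun φ : ℝ => Real.sin φ ^ (-(1 / 2) : ℝ)) volume 0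
    Real.pi := by
  have h1 := (KDAux.sin_beta (1 / 2 : ℂ) (by norm_num)).1.norm
  refine (intervalIntegrable_congr_ae ?_).1 h1
  rw [Filter.EventuallyEq, ae_restrict_iff' measurableSet_uIoc]
  filter_upwards [ae_pos] with φ h2 h3
  rw [Complex.norm_cpow_eq_rpow_re_of_pos (h2 h3)]
  norm_num

theorem diff_int (h1 : StHol) (h : n ≠ m) :
    DifferentiableOn ℂ (fun t => ∫ φ in (0 : ℝ)..Real.pi, gI k r n m t φ)
      {t | -(r : ℝ) - 1 / 2 < t.re ∧ t.re < 1} := by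
  have hU : IsOpen {t : ℂ | -(r : ℝ) - 1 / 2 < t.re ∧ t.re < 1} :=
    (isOpen_lt continuous_const Complex.continuous_re).inter
      (isOpen_lt Complex.continuous_re continuous_const)
  have hpos : ∀ᵐ φ : ℝ ∂(volume.restrict (Ioc 0 Real.pi)), 0 < Real.sin φ := by
    rw [ae_restrict_iff' measurableSet_Ioc]
    filter_upwards [ae_pos] with φ h2 h3
    exact h2 (by rwa [uIoc_of_le Real.pi_pos.le])
  have h2 := h1 ℝ _ (volume.restrict (Ioc 0 Real.pi)) _ (gI k r n m) hU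
    (fun s _ => (measurable_gI s).aestronglyMeasurable)
    (by
      filter_upwards [hpos] with φ h3
      exact (diff_gI h h3).differentiableOn)
    (by
      intro s hs
      refine ⟨1, fun φ => Real.sin φ ^ (-(1 / 2) : ℝ) * Real.exp (Real.pi * (‖s‖ + 1)),
        one_pos, ?_, ?_⟩
      · have h4 := int_sin
        rw [intervalIntegrable_iff_integrableOn_Ioc_of_le Real.pi_pos.le] at h4
        exact h4.mul_const _
      · filter_upwards [hpos] with φ h3 t ht hts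
        refine (norm_le h h3 ht.1.le ht.2.le).trans ?_
        have h5 : |(n : ℝ) - m| ^ (t.re - k - 1) ≤ 1 := by
          have hk : (0 : ℝ) ≤ k := Nat.cast_nonneg k
          exact Real.rpow_le_one_of_one_le_of_nonpos (one_le_sub h) (by linarith [ht.2])
        have h6 : ‖t‖ ≤ ‖s‖ + 1 := by
          have := norm_le_norm_add_norm_sub' t s
          rw [norm_sub_rev] at this
          rw [norm_sub_rev] at hts
          linarith
        have h7 : 0 ≤ Real.sin φ ^ (-(1 / 2) : ℝ) := by positivity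
        have h8 : Real.exp (Real.pi * ‖t‖) ≤ Real.exp (Real.pi * (‖s‖ + 1)) :=
          Real.exp_le_exp.2 (mul_le_mul_of_nonneg_left h6 Real.pi_pos.le)
        calc Real.sin φ ^ (-(1 / 2) : ℝ) * (|(n : ℝ) - m| ^ (t.re - k - 1) *
              Real.exp (Real.pi * ‖t‖))
            ≤ Real.sin φ ^ (-(1 / 2) : ℝ) * (1 * Real.exp (Real.pi * (‖s‖ + 1))) := by gcongr
          _ = _ := by rw [one_mul])
  refine h2.congr fun t _ => ?_
  rw [intervalIntegral.integral_of_le Real.pi_pos.le]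

theorem Kp_eq (t : ℂ) : Kp k r n m t = Complex.Gamma (k + 1 - t) *
    (2 * Real.pi : ℂ) ^ (t - k - 1) * ∫ φ in (0 : ℝ)..Real.pi, gI k r n m t φ := rfl

theorem diff_pre {t : ℂ} (ht : t.re < 1) : DifferentiableAt ℂ (fun t : ℂ =>
    Complex.Gamma (k + 1 - t) * (2 * Real.pi : ℂ) ^ (t - k - 1)) t := by
  have h1 : DifferentiableAt ℂ Complex.Gamma (k + 1 - t) := by
    refine Complex.differentiableAt_Gamma _ fun j hj => ?_
    have h2 := congrArg Complex.re hj
    simp at h2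
    have hk : (0 : ℝ) ≤ k := Nat.cast_nonneg k
    have hj : (0 : ℝ) ≤ j := Nat.cast_nonneg j
    linarith
  have h3 : DifferentiableAt ℂ (fun t : ℂ => (k : ℂ) + 1 - t) t := by fun_prop
  have h4 : DifferentiableAt ℂ (fun t : ℂ => t - k - 1) t := by fun_prop
  refine (DifferentiableAt.comp t h1 h3).mul (h4.const_cpow (Or.inl ?_))
  exact_mod_cast (by positivity : (2 * Real.pi : ℝ) ≠ 0)

theorem norm_int_le (h : n ≠ m) {t : ℂ} (ht : -(r : ℝ) - 1 / 2 ≤ t.re) (ht1 : t.re ≤ 1) :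
    ‖∫ φ in (0 : ℝ)..Real.pi, gI k r n m t φ‖ ≤
      (∫ φ in (0 : ℝ)..Real.pi, Real.sin φ ^ (-(1 / 2) : ℝ)) * (|(n : ℝ) - m| ^ (t.re - k - 1) *
        Real.exp (Real.pi * ‖t‖)) := by
  rw [← intervalIntegral.integral_mul_const]
  refine intervalIntegral.norm_integral_le_of_norm_le Real.pi_pos.le ?_ (int_sin.mul_const _)
  filter_upwards [ae_pos] with φ h2 h3
  exact norm_le h (h2 (by rwa [uIoc_of_le Real.pi_pos.le])) ht ht1

end KpAaux

open KpAaux in
theorem stKpA (h1 : StHol) : StKpA := by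
  intro k r m _
  refine ⟨fun n hn => ?_, fun R => ?_⟩
  · intro t ht
    exact (diff_pre ht.2).differentiableWithinAt.mul (diff_int h1 hn t ht)
  · have hK : IsCompact {t : ℂ | (-(r : ℝ) - 1 / 2 ≤ t.re ∧ t.re ≤ 0) ∧ ‖t‖ ≤ R} := by
      refine (isCompact_closedBall (0 : ℂ) R).of_isClosed_subset ?_ ?_
      · exact ((isClosed_le continuous_const Complex.continuous_re).inter
          (isClosed_le Complex.continuous_re continuous_const)).inter
          (isClosed_le continuous_norm continuous_const)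
      · intro t ht
        rw [mem_closedBall_zero_iff]
        exact ht.2
    obtain ⟨C, hC⟩ := hK.exists_bound_of_continuousOn (f := fun t : ℂ =>
      Complex.Gamma (k + 1 - t) * (2 * Real.pi : ℂ) ^ (t - k - 1)) (fun t ht =>
        (diff_pre (k := k) (by linarith [ht.1.2])).continuousAt.continuousWithinAt)
    set J : ℝ := ∫ φ in (0 : ℝ)..Real.pi, Real.sin φ ^ (-(1 / 2) : ℝ) with hJ
    have hJ0 : 0 ≤ J := by
      refine intervalIntegral.integral_nonneg Real.pi_pos.le fun φ hφ => ?_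
      have := Real.sin_nonneg_of_mem_Icc hφ
      positivity
    refine ⟨C * (J * (((m : ℝ) + 2) ^ ((r : ℝ) + k + 3 / 2) * Real.exp (Real.pi * R))),
      fun n t hn ht ht0 htR => ?_⟩
    have h2 := hC t ⟨⟨ht, ht0⟩, htR⟩
    have h3 := norm_int_le (k := k) (r := r) hn ht (by linarith)
    have hC0 : 0 ≤ C := (norm_nonneg _).trans h2
    have hm : (0 : ℝ) ≤ m := Nat.cast_nonneg m
    have hn0 : (0 : ℝ) ≤ n := Nat.cast_nonneg n
    have hk : (0 : ℝ) ≤ k := Nat.cast_nonneg k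
    have h4 : |(n : ℝ) - m| ^ (t.re - k - 1) ≤
        ((n : ℝ) + 1) ^ (t.re - k - 1) * ((m : ℝ) + 2) ^ ((r : ℝ) + k + 3 / 2) := by
      have h5 : |(n : ℝ) - m| ^ (t.re - k - 1) ≤
          (((n : ℝ) + 1) / ((m : ℝ) + 2)) ^ (t.re - k - 1) :=
        Real.rpow_le_rpow_of_nonpos (by positivity) (lin hn) (by linarith)
      refine h5.trans ?_
      rw [Real.div_rpow (by positivity) (by positivity), div_eq_mul_inv,
        ← Real.rpow_neg (by positivity)]
      have h6 : ((m : ℝ) + 2) ^ (-(t.re - k - 1)) ≤ ((m : ℝ) + 2) ^ ((r : ℝ) + k + 3 / 2) :=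
        Real.rpow_le_rpow_of_exponent_le (by linarith) (by linarith)
      gcongr
    have h7 : Real.exp (Real.pi * ‖t‖) ≤ Real.exp (Real.pi * R) :=
      Real.exp_le_exp.2 (mul_le_mul_of_nonneg_left htR Real.pi_pos.le)
    rw [Kp_eq, norm_mul]
    calc ‖Complex.Gamma (k + 1 - t) * (2 * Real.pi : ℂ) ^ (t - k - 1)‖ *
          ‖∫ φ in (0 : ℝ)..Real.pi, KpBaux.gI k r n m t φ‖
        ≤ C * (J * (|(n : ℝ) - m| ^ (t.re - k - 1) * Real.exp (Real.pi * ‖t‖))) := by gcongr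
      _ ≤ C * (J * ((((n : ℝ) + 1) ^ (t.re - k - 1) * ((m : ℝ) + 2) ^ ((r : ℝ) + k + 3 / 2)) *
          Real.exp (Real.pi * R))) := by gcongr
      _ = _ := by ring

end RZ

end Pool.Agent.Lib.MP_7c08ba_nt
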