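import Mathlib
import Pool.Agent.Lib.MP_7c08ba_nt.RZ.StR

set_option autoImplicit false

/-!
The values of `Kp` at `-r`: circle integrals.
-/

namespace Pool.Agent.Lib.MP_7c08ba_nt

namespace RZ

namespace KpVaux

open Complex Set
open scoped Real

lemma int_zpow (x : ℂ) (hx : ‖x‖ < 1) (n : ℤ) :
    (∮ z in C(0, 1), (z - x) ^ n) = if n = -1 then 2 * π * I else 0 := by
  split_ifs with h
  · subst h
    simp only [zpow_neg_one]
    exact circleIntegral.integral_sub_inv_of_mem_ball (by simpa using hx)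
  · exact circleIntegral.integral_sub_zpow_of_ne h _ _ _

lemma integrable_zpow (x : ℂ) (hx : ‖x‖ < 1) (n : ℤ) :
    CircleIntegrable (fun z => (z - x) ^ n) 0 1 := by
  rw [circleIntegrable_sub_zpow_iff]
  right; right
  intro h
  simp at h
  linarith

lemma expand (r K : ℕ) (x q : ℂ) (hq : q - x ≠ 0) :
    q ^ r * (q - 1) ^ K * (q - x) ^ (-((K : ℤ) + 1)) =
      ∑ a ∈ Finset.range (r + 1), ∑ b ∈ Finset.range (K + 1),
        ((x ^ (r - a) * (r.choose a : ℂ)) * ((x - 1) ^ (K - b) * (K.choose b : ℂ))) *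
          (q - x) ^ ((a : ℤ) + b - K - 1) := by
  have h1 : q ^ r = ∑ a ∈ Finset.range (r + 1), (q - x) ^ a * x ^ (r - a) * (r.choose a : ℂ) := by
    rw [← add_pow]; congr 1; ring
  have h2 : (q - 1) ^ K =
      ∑ b ∈ Finset.range (K + 1), (q - x) ^ b * (x - 1) ^ (K - b) * (K.choose b : ℂ) := by
    rw [← add_pow]; congr 1; ring
  rw [h1, h2, Finset.sum_mul_sum, Finset.sum_mul]
  refine Finset.sum_congr rfl fun a _ => ?_
  rw [Finset.sum_mul]
  refine Finset.sum_congr rfl fun b _ => ?_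
  have h3 : (q - x) ^ ((a : ℤ) + b - K - 1) =
      (q - x) ^ a * (q - x) ^ b * (q - x) ^ (-((K : ℤ) + 1)) := by
    rw [← zpow_natCast (q - x) a, ← zpow_natCast (q - x) b, ← zpow_add₀ hq, ← zpow_add₀ hq]
    congr 1; ring
  rw [h3]; ring

lemma circ (r K : ℕ) (hrK : r ≤ K) (x : ℂ) (hx : ‖x‖ < 1) :
    (∮ z in C(0, 1), z ^ r * (z - 1) ^ K * (z - x) ^ (-((K : ℤ) + 1))) =
      2 * π * I * ∑ a ∈ Finset.range (r + 1),
        (K.choose a : ℂ) * (r.choose a : ℂ) * (x - 1) ^ a * x ^ (r - a) := by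
  have h1 : (∮ z in C(0, 1), z ^ r * (z - 1) ^ K * (z - x) ^ (-((K : ℤ) + 1))) =
      ∮ z in C(0, 1), ∑ a ∈ Finset.range (r + 1), ∑ b ∈ Finset.range (K + 1),
        ((x ^ (r - a) * (r.choose a : ℂ)) * ((x - 1) ^ (K - b) * (K.choose b : ℂ))) *
          (z - x) ^ ((a : ℤ) + b - K - 1) := by
    refine circleIntegral.integral_congr zero_le_one fun z hz => ?_
    refine expand r K x z ?_
    intro h
    have hz1 : ‖z‖ = 1 := by simpa using hz
    rw [sub_eq_zero] at h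
    rw [← h, hz1] at hx
    exact lt_irrefl _ hx
  have hint : ∀ (c : ℂ) (n : ℤ), CircleIntegrable (fun z => c * (z - x) ^ n) 0 1 := by
    intro c n
    have := (integrable_zpow x hx n).const_smul (a := c)
    simpa [smul_eq_mul, Pi.smul_def] using this
  rw [h1, circleIntegral.integral_fun_sum]
  · rw [Finset.mul_sum]
    refine Finset.sum_congr rfl fun a ha => ?_
    rw [circleIntegral.integral_fun_sum]
    · simp only [circleIntegral.integral_const_mul, int_zpow x hx]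
      have ha' : a ≤ K := by
        have := Finset.mem_range.1 ha
        omega
      rw [Finset.sum_eq_single (K - a)]
      · rw [if_pos (by push_cast [ha']; ring), Nat.choose_symm ha', Nat.sub_sub_self ha']
        ring
      · intro b _ hb
        rw [if_neg, mul_zero]
        intro h
        apply hb
        omega
      · intro h
        exact absurd (Finset.mem_range.2 (by omega)) h
    · intro b _
      exact hint _ _
  · intro a _
    have h := CircleIntegrable.sum (Finset.range (K + 1)) (c := 0) (R := 1)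
      (f := fun b z => ((x ^ (r - a) * (r.choose a : ℂ)) * ((x - 1) ^ (K - b) *
        (K.choose b : ℂ))) * (z - x) ^ ((a : ℤ) + b - K - 1)) (fun b _ => hint _ _)
    convert h using 1
    funext z
    rw [Finset.sum_apply]

/-- the integrand on the circle -/
noncomputable def gz (r K n m : ℕ) (z : ℂ) : ℂ :=
  z ^ r * (z - 1) ^ K * (((m : ℂ) * z - n) ^ (K + 1))⁻¹

lemma gz_lt (r K n m : ℕ) (hrK : r ≤ K) (hnm : n < m) :
    (∮ z in C(0, 1), gz r K n m z) = ((m : ℂ) ^ (K + 1))⁻¹ *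
      (2 * π * I * ∑ a ∈ Finset.range (r + 1),
        (K.choose a : ℂ) * (r.choose a : ℂ) * ((n : ℂ) / m - 1) ^ a * ((n : ℂ) / m) ^ (r - a)) := by
  have hm : (m : ℂ) ≠ 0 := by
    have : m ≠ 0 := by omega
    exact_mod_cast this
  have hx : ‖(n : ℂ) / m‖ < 1 := by
    rw [norm_div, Complex.norm_natCast, Complex.norm_natCast, div_lt_one]
    · exact_mod_cast hnm
    · exact_mod_cast (by omega : 0 < m)
  rw [← circ r K hrK _ hx, ← circleIntegral.integral_const_mul]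
  congr 1
  funext z
  unfold gz
  have h : (m : ℂ) * z - n = m * (z - n / m) := by field_simp
  have h2 : (z - (n : ℂ) / m) ^ (-((K : ℤ) + 1)) = ((z - (n : ℂ) / m) ^ (K + 1))⁻¹ := by
    rw [zpow_neg]
    congr 1
  rw [h, mul_pow, mul_inv, h2]
  ring

lemma gz_gt (r K n m : ℕ) (hnm : m < n) : (∮ z in C(0, 1), gz r K n m z) = 0 := by
  have hne : ∀ z : ℂ, ‖z‖ ≤ 1 → ((m : ℂ) * z - n) ^ (K + 1) ≠ 0 := by
    intro z hz h
    have h1 : (m : ℂ) * z - n = 0 := by
      exact pow_eq_zero_iff (Nat.succ_ne_zero K) |>.1 h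
    rw [sub_eq_zero] at h1
    have h2 := congrArg norm h1
    rw [norm_mul, Complex.norm_natCast, Complex.norm_natCast] at h2
    have h3 : (m : ℝ) * ‖z‖ ≤ m * 1 := by gcongr
    have h4 : (m : ℝ) < n := by exact_mod_cast hnm
    linarith
  have hd : ∀ z : ℂ, ‖z‖ ≤ 1 → DifferentiableAt ℂ (gz r K n m) z := by
    intro z hz
    unfold gz
    refine DifferentiableAt.mul (by fun_prop) (DifferentiableAt.inv (by fun_prop) (hne z hz))
  refine Complex.circleIntegral_eq_zero_of_differentiable_on_off_countable zero_le_one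
    Set.countable_empty ?_ ?_
  · intro z hz
    exact (hd z (by simpa using hz)).continuousAt.continuousWithinAt
  · intro z hz
    exact hd z (le_of_lt (by simpa using hz.1))

lemma ptw (k r n m : ℕ) (φ : ℝ) :
    Complex.exp (-((2 * r + 1) * φ * I)) * (Real.sin φ : ℂ) ^ (k + r) *
      ((((n : ℂ) + m) * Real.sin φ + I * (((m : ℂ) - n) * Real.cos φ)) ^ (k + r + 1))⁻¹ =
    -((2 : ℂ) ^ (k + r))⁻¹ * (deriv (circleMap 0 1) (2 * π - 2 * φ) •
      gz r (k + r) n m (circleMap 0 1 (2 * π - 2 * φ))) := by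
  set e : ℂ := Complex.exp (φ * I) with he
  have he0 : e ≠ 0 := Complex.exp_ne_zero _
  have hq : circleMap 0 1 (2 * π - 2 * φ) = (e ^ 2)⁻¹ := by
    rw [circleMap_zero, he, ← Complex.exp_nat_mul, ← Complex.exp_neg]
    have : (((2 * π - 2 * φ : ℝ) : ℂ) * I) = -((2 : ℕ) * (φ * I)) + 2 * π * I := by
      push_cast; ring
    rw [this, Complex.exp_add, Complex.exp_two_pi_mul_I]
    simp
  have hs : (Real.sin φ : ℂ) = I / 2 * e * ((e ^ 2)⁻¹ - 1) := by
    rw [Complex.ofReal_sin, Complex.sin]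
    have : Complex.exp (-φ * I) = e⁻¹ := by rw [he, ← Complex.exp_neg]; congr 1; ring
    rw [this, ← he]
    field_simp
  have hc : (Real.cos φ : ℂ) = (e + e⁻¹) / 2 := by
    rw [Complex.ofReal_cos, Complex.cos]
    have : Complex.exp (-φ * I) = e⁻¹ := by rw [he, ← Complex.exp_neg]; congr 1; ring
    rw [this, ← he]
  have hA : ((n : ℂ) + m) * Real.sin φ + I * (((m : ℂ) - n) * Real.cos φ) =
      I * e * ((m : ℂ) * (e ^ 2)⁻¹ - n) := by
    rw [hs, hc]
    field_simp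
    ring
  have hE : Complex.exp (-((2 * r + 1) * φ * I)) = (e ^ (2 * r + 1))⁻¹ := by
    rw [he, ← Complex.exp_nat_mul, ← Complex.exp_neg]
    congr 1; push_cast; ring
  rw [hA, hs, hE, deriv_circleMap, hq, smul_eq_mul]
  unfold gz
  set Z : ℂ := ((e ^ 2)⁻¹ - 1)
  set X : ℂ := ((m : ℂ) * (e ^ 2)⁻¹ - n)
  rw [mul_pow, mul_pow, mul_pow, mul_pow, mul_inv, mul_inv, div_pow]
  have hr : ((e ^ 2)⁻¹) * ((e ^ 2)⁻¹) ^ r = (e ^ (2 * r + 2))⁻¹ := by
    rw [inv_pow, ← mul_inv, ← pow_mul, ← pow_add]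
    congr 2
    ring
  have hI : (I : ℂ) ≠ 0 := Complex.I_ne_zero
  have key : (e ^ (2 * r + 1))⁻¹ * (I ^ (k + r) / 2 ^ (k + r) * e ^ (k + r)) *
      ((I ^ (k + r + 1))⁻¹ * (e ^ (k + r + 1))⁻¹) =
      -((2 : ℂ) ^ (k + r))⁻¹ * (I * (e ^ (2 * r + 2))⁻¹) := by
    have hI2 : (I ^ (k + r + 1))⁻¹ = -(I * (I ^ (k + r))⁻¹) := by
      rw [pow_succ, mul_inv, Complex.inv_I]; ring
    rw [hI2]
    have hIk : (I : ℂ) ^ (k + r) ≠ 0 := pow_ne_zero _ hI
    field_simp
    ring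
  calc (e ^ (2 * r + 1))⁻¹ * (I ^ (k + r) / 2 ^ (k + r) * e ^ (k + r) * Z ^ (k + r)) *
      ((I ^ (k + r + 1))⁻¹ * (e ^ (k + r + 1))⁻¹ * (X ^ (k + r + 1))⁻¹)
      = ((e ^ (2 * r + 1))⁻¹ * (I ^ (k + r) / 2 ^ (k + r) * e ^ (k + r)) *
      ((I ^ (k + r + 1))⁻¹ * (e ^ (k + r + 1))⁻¹)) * (Z ^ (k + r) * (X ^ (k + r + 1))⁻¹) := by ring
    _ = -((2 : ℂ) ^ (k + r))⁻¹ * (I * (((e ^ 2)⁻¹) * ((e ^ 2)⁻¹) ^ r)) *
        (Z ^ (k + r) * (X ^ (k + r + 1))⁻¹) := by rw [key, hr]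
    _ = _ := by ring

lemma val (k r n m : ℕ) : Kp k r n m (-r) =
    ((k + r).factorial : ℂ) * ((2 * π : ℂ) ^ (k + r + 1))⁻¹ *
      (-((2 : ℂ) ^ (k + r + 1))⁻¹ * ∮ z in C(0, 1), gz r (k + r) n m z) := by
  have h1 : ((k : ℂ) + 1 - -r) = ((k + r : ℕ) : ℂ) + 1 := by push_cast; ring
  have h2 : (-(r : ℂ) - k - 1) = -((k + r + 1 : ℕ) : ℂ) := by push_cast; ring
  have h3 : (-(r : ℂ) + k + 2 * r) = ((k + r : ℕ) : ℂ) := by push_cast; ring
  unfold Kp
  rw [h1, h2, h3, Complex.Gamma_nat_eq_factorial]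
  simp only [Complex.cpow_neg, Complex.cpow_natCast]
  congr 1
  simp only [ptw k r n m]
  rw [intervalIntegral.integral_const_mul]
  have h4 := intervalIntegral.integral_comp_sub_mul (a := 0) (b := π)
    (fun θ : ℝ => deriv (circleMap 0 1) θ • gz r (k + r) n m (circleMap 0 1 θ))
    (two_ne_zero' ℝ) (2 * π)
  simp only [mul_zero, sub_zero, sub_self] at h4
  rw [h4, circleIntegral, Complex.real_smul, pow_succ]
  push_cast
  rw [mul_inv]
  ring

end KpVaux

open KpVaux in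
theorem stKpV : StKpV := by
  intro k r n m hm
  refine ⟨fun h => ?_, fun h => ?_⟩
  · rw [val, gz_lt r (k + r) n m (by omega) h]
    have hJ : ((Jac k r ((n : ℝ) / m) : ℝ) : ℂ) = ∑ a ∈ Finset.range (r + 1),
        ((k + r).choose a : ℂ) * (r.choose a : ℂ) * ((n : ℂ) / m - 1) ^ a *
          ((n : ℂ) / m) ^ (r - a) := by
      unfold Jac
      push_cast
      rfl
    rw [hJ]
    have h4 : ((4 * Real.pi * m : ℂ) ^ (k + r + 1))⁻¹ = ((2 * Real.pi : ℂ) ^ (k + r + 1))⁻¹ *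
        ((2 : ℂ) ^ (k + r + 1))⁻¹ * ((m : ℂ) ^ (k + r + 1))⁻¹ := by
      rw [← mul_inv, ← mul_inv, ← mul_pow, ← mul_pow]
      congr 2
      ring
    rw [h4]
    ring
  · rw [val, gz_gt r (k + r) n m h]
    simp

end RZ

end Pool.Agent.Lib.MP_7c08ba_nt
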