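import Mathlib
import Pool.Agent.Lib.MP_7c08ba_nt.RZ.StR
import Pool.Agent.Lib.MP_7c08ba_nt.RZ.MainD
import Pool.Agent.Lib.MP_7c08ba_nt.RZ.RSanN

set_option autoImplicit false

/-!
(R34) some eigenform has a non-zero derivative at the centre.
-/

namespace Pool.Agent.Lib.MP_7c08ba_nt

namespace RZ

open NumberField MeasureTheory UpperHalfPlane Set IsDedekindDomain
open scoped MatrixGroups ComplexConjugate nonZeroDivisors

namespace MainRAux

/-- The integrand is integrable. -/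
theorem integ (h1 : StHN) (h3 : StFd) (h4 : StCoef) {D : ℕ} [hD0 : NeZero D] {F : Type} [Field F]
    [NumberField F] {s : 𝓞 F} {σ : F →+* ℂ} {χ : DirichletCharacter ℂ D} {cj : 𝓞 F ≃+* 𝓞 F}
    {w k r : ℕ} (f : CuspForm 𝒮ℒ (w : ℤ)) (ψ : Ideal (𝓞 F) →*₀ ℂ) (c : Reps σ)
    (hD : DatD D s σ χ cj) (hk : Even k) (hw : w = k + 2 * r + 2)
    (hco : ∀ A, IsCoprime (c.R A : Ideal (𝓞 F)) (Ideal.span {s})) (t : ℂ)
    (ht : -(r : ℝ) - 1 / 2 < t.re) :
    IntegrableOn (fun z : ℍ => trD D w (HN D χ k r ψ c t) z * f (ofComplex (-conj (z : ℂ))) *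
      (z.im : ℂ) ^ w) ModularGroup.fd := by
  obtain ⟨hA, -, hC⟩ := h1 D hD0 F _ _ s σ χ cj w k r ψ c hD hk hw hco
  obtain ⟨hvol, hmeas, hfd⟩ := h3
  obtain ⟨-, -, -, -, C₂, hC₂⟩ := h4 w f
  obtain ⟨C, N, hbd⟩ := hC t.re ‖t‖ ht
  have hc1 : Continuous fun z : ℍ => trD D w (HN D χ k r ψ c t) z :=
    (hA t ht).2.1.comp_continuous UpperHalfPlane.continuous_coe fun z => z.im_pos
  have hc2 : Continuous fun z : ℍ => ((z.im : ℝ) : ℂ) ^ w :=
    (Complex.continuous_ofReal.comp UpperHalfPlane.continuous_im).pow w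
  refine Measure.integrableOn_of_bounded (M := |C| * |C₂| * ((N + w).factorial *
    Real.exp (2 * Real.pi))) hvol.ne ?_ ?_
  · exact ((hc1.mul (RSanNAux.cont_f f)).mul hc2).aestronglyMeasurable
  · refine (ae_restrict_iff' hmeas).2 (Filter.Eventually.of_forall fun z hz => ?_)
    obtain ⟨hz1, hz2⟩ := hfd z hz
    have h5 := hbd t z le_rfl le_rfl hz1.le hz2
    have h6 := hC₂ (-conj (z : ℂ)) (by simpa using hz1.le)
    have h7 : (-conj (z : ℂ)).im = z.im := by simp
    rw [h7] at h6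
    have hy : 0 ≤ z.im := z.im_pos.le
    have hy1 : 0 ≤ z.im + 1 := by linarith
    have h8 : ‖trD D w (HN D χ k r ψ c t) z‖ ≤ |C| * (z.im + 1) ^ N := by
      refine h5.trans ?_
      exact mul_le_mul_of_nonneg_right (le_abs_self C) (pow_nonneg hy1 N)
    have h9 : ‖f (ofComplex (-conj (z : ℂ)))‖ ≤ |C₂| * Real.exp (-(2 * Real.pi * z.im)) :=
      h6.trans (mul_le_mul_of_nonneg_right (le_abs_self C₂) (Real.exp_pos _).le)
    have h10 : ‖((z.im : ℝ) : ℂ) ^ w‖ ≤ (z.im + 1) ^ w := by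
      rw [norm_pow, Complex.norm_real, Real.norm_eq_abs, abs_of_nonneg hy]
      exact pow_le_pow_left₀ hy (by linarith) w
    rw [norm_mul, norm_mul]
    calc ‖trD D w (HN D χ k r ψ c t) z‖ * ‖f (ofComplex (-conj (z : ℂ)))‖ *
          ‖((z.im : ℝ) : ℂ) ^ w‖
        ≤ |C| * (z.im + 1) ^ N * (|C₂| * Real.exp (-(2 * Real.pi * z.im))) *
          (z.im + 1) ^ w := by gcongr
      _ = |C| * |C₂| * ((z.im + 1) ^ (N + w) * Real.exp (-(2 * Real.pi * z.im))) := by
          rw [pow_add]; ring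
      _ ≤ |C| * |C₂| * ((N + w).factorial * Real.exp (2 * Real.pi)) := by
          refine mul_le_mul_of_nonneg_left (RSanNAux.pow_exp_le' (N + w) hy) ?_
          positivity

/-- The integral is additive in the form. -/
theorem rsD_add {D w : ℕ} (H : ℂ → ℂ) (f g : CuspForm 𝒮ℒ (w : ℤ))
    (hf : IntegrableOn (fun z : ℍ => trD D w H z * f (ofComplex (-conj (z : ℂ))) *
      (z.im : ℂ) ^ w) ModularGroup.fd)
    (hg : IntegrableOn (fun z : ℍ => trD D w H z * g (ofComplex (-conj (z : ℂ))) *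
      (z.im : ℂ) ^ w) ModularGroup.fd) : rsD D H (f + g) = rsD D H f + rsD D H g := by
  unfold rsD
  rw [← integral_add hf hg]
  congr 1
  funext z
  rw [add_apply]
  ring

theorem rsD_smul {D w : ℕ} (H : ℂ → ℂ) (a : ℂ) (f : CuspForm 𝒮ℒ (w : ℤ)) :
    rsD D H (a • f) = a * rsD D H f := by
  unfold rsD
  rw [← integral_const_mul]
  congr 1
  funext z
  rw [smul_apply, smul_eq_mul]
  ring

/-- The `L`-function. -/
theorem lam (h1 : StTr0) (h2 : StRSanN) (h3 : StRSN) (h4 : StDnN) (h5 : StEulN)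
    {q : ℕ} [hq0 : NeZero q] {F : Type} [Field F] [NumberField F] {s : 𝓞 F} {σ : F →+* ℂ}
    {χ : DirichletCharacter ℂ q} {cj : 𝓞 F ≃+* 𝓞 F} {w k r : ℕ} (f : CuspForm 𝒮ℒ (w : ℤ))
    (ψ : Ideal (𝓞 F) →*₀ ℂ) (c₀ : Reps σ) (hD : DatD q s σ χ cj) (hf : IsEigen f)
    (hwk : w = k + 2 * r + 2) (hψ : IsHecke σ k ψ) (hk : Even k)
    (hcop : ∀ A, IsCoprime (c₀.R A : Ideal (𝓞 F)) (Ideal.span {s}))
    (hder : deriv (fun t => rsD q (HN q χ k r ψ c₀ t) f) (-r) ≠ 0) :
    ∃ Λ : ℂ → ℂ, DifferentiableOn ℂ Λ {z | -1 / 2 < z.re} ∧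
      (∀ z : ℂ, 1 < z.re → HasProd (fun v : HeightOneSpectrum (𝓞 F) =>
        (eulF f ψ (((w : ℂ) + k) / 2 + z) v)⁻¹) (Λ z)) ∧ Λ 0 = 0 ∧ deriv Λ 0 ≠ 0 := by
  have han := h2 q hq0 F _ _ s σ χ cj w k r f ψ c₀ hD hk hwk hcop
  obtain ⟨A, hA⟩ := h3 q hq0 F _ _ s σ χ cj w k r f ψ c₀ hD hwk hψ
  obtain ⟨-, hDn⟩ := h4 q F _ _ s σ χ cj w k f ψ hD (by omega) hψ
  have hpi : (4 * Real.pi : ℂ) ≠ 0 := by
    have := Real.pi_ne_zero
    simp [this]
  have hcen : ((w : ℂ) + k) / 2 = k + r + 1 := by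
    rw [hwk]
    push_cast
    ring
  rw [hcen] at hDn ⊢
  have hP : ∀ z : ℂ, (4 * Real.pi : ℂ) ^ z ≠ 0 := fun z => by
    rw [Complex.cpow_def_of_ne_zero hpi]
    exact Complex.exp_ne_zero _
  have hG : ∀ z : ℂ, -1 < z.re → Complex.Gamma ((k : ℂ) + r + 1 + z) ≠ 0 := fun z hz => by
    refine Complex.Gamma_ne_zero_of_re_pos ?_
    simp only [Complex.add_re, Complex.natCast_re, Complex.one_re]
    have : (0 : ℝ) ≤ k := Nat.cast_nonneg k
    have : (0 : ℝ) ≤ r := Nat.cast_nonneg r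
    linarith
  -- the factors
  let G : ℂ → ℂ := fun z => (4 * Real.pi : ℂ) ^ ((k : ℂ) + r + 1 + z) *
    (Complex.Gamma ((k : ℂ) + r + 1 + z))⁻¹
  let R : ℂ → ℂ := fun t => rsD q (HN q χ k r ψ c₀ t) f
  have hGd : Differentiable ℂ G := by
    have e1 : Differentiable ℂ fun z : ℂ => (k : ℂ) + r + 1 + z :=
      (differentiable_const _).add differentiable_id
    have e2 : Differentiable ℂ fun z : ℂ => (4 * Real.pi : ℂ) ^ ((k : ℂ) + r + 1 + z) :=
      e1.const_cpow (Or.inl hpi)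
    have e3 : Differentiable ℂ fun z : ℂ => (Complex.Gamma ((k : ℂ) + r + 1 + z))⁻¹ :=
      Complex.differentiable_one_div_Gamma.comp e1
    exact e2.mul e3
  -- the function
  let Λ : ℂ → ℂ := fun z => G z * R (z - r)
  have hΛ : DifferentiableOn ℂ Λ {z | -1 / 2 < z.re} := by
    refine hGd.differentiableOn.mul ?_
    refine han.comp (g := R) (f := fun z : ℂ => z - r)
      (differentiable_id.sub (differentiable_const _)).differentiableOn ?_
    intro z hz
    simp only [mem_ofPred_eq, Complex.sub_re, Complex.natCast_re] at hz ⊢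
    linarith
  have hEq : EqOn Λ (fun z => DirichletCharacter.LFunction χ (1 + 2 * z) *
      Dn f ψ ((k : ℂ) + r + 1 + z)) {z | 1 < z.re} := by
    have hopen : IsOpen {z : ℂ | 1 < z.re} := isOpen_lt continuous_const Complex.continuous_re
    have ha1 : AnalyticOnNhd ℂ Λ {z | 1 < z.re} :=
      (hΛ.mono fun z (hz : 1 < z.re) => by
        show -1 / 2 < z.re
        linarith).analyticOnNhd hopen
    have ha2 : AnalyticOnNhd ℂ (fun z => DirichletCharacter.LFunction χ (1 + 2 * z) *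
        Dn f ψ ((k : ℂ) + r + 1 + z)) {z | 1 < z.re} := by
      refine DifferentiableOn.analyticOnNhd (DifferentiableOn.mul ?_ hDn) hopen
      intro z hz
      refine DifferentiableAt.differentiableWithinAt ?_
      refine DifferentiableAt.comp (g := DirichletCharacter.LFunction χ)
        (f := fun z : ℂ => 1 + 2 * z) z
        (DirichletCharacter.differentiableAt_LFunction χ _ (Or.inl ?_)) ?_
      · intro h
        have h' := congrArg Complex.re h
        simp only [mem_ofPred_eq] at hz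
        simp at h'
        rw [h'] at hz
        norm_num at hz
      · exact ((differentiable_const _).add ((differentiable_const _).mul differentiable_id)) z
    -- the point where the two functions agree
    let z₀ : ℂ := ((max 1 (A + r) + 1 : ℝ) : ℂ)
    have hz₀ : z₀ ∈ {z : ℂ | 1 < z.re} := by
      show 1 < z₀.re
      rw [Complex.ofReal_re]
      have := le_max_left 1 (A + r)
      linarith
    refine ha1.eqOn_of_preconnected_of_eventuallyEq ha2
      (convex_halfSpace_re_gt 1).isPreconnected hz₀ ?_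
    have hev : ∀ᶠ z in nhds z₀, A + r < z.re :=
      (isOpen_lt continuous_const Complex.continuous_re).mem_nhds (by
        show A + r < z₀.re
        rw [Complex.ofReal_re]
        have := le_max_right 1 (A + r)
        linarith)
    have hev2 : ∀ᶠ z in nhds z₀, 1 < z.re := hopen.mem_nhds hz₀
    filter_upwards [hev, hev2] with z hz hz1
    have h9 := hA (z - r) (by
      rw [Complex.sub_re, Complex.natCast_re]
      linarith)
    have e1 : (k : ℂ) + 2 * r + 1 + (z - r) = (k : ℂ) + r + 1 + z := by ring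
    have e2 : 2 * (r : ℂ) + 1 + 2 * (z - r) = 1 + 2 * z := by ring
    rw [e1, e2] at h9
    have hG' := hG z (by linarith)
    have hP' := hP ((k : ℂ) + r + 1 + z)
    show (4 * Real.pi : ℂ) ^ ((k : ℂ) + r + 1 + z) *
      (Complex.Gamma ((k : ℂ) + r + 1 + z))⁻¹ * rsD q (HN q χ k r ψ c₀ (z - r)) f = _
    rw [h9, Complex.cpow_neg]
    field_simp
  have h0 : R (-r) = 0 := by
    show rsD q (HN q χ k r ψ c₀ (-r)) f = 0
    have hz : (fun z : ℍ => trD q w (HN q χ k r ψ c₀ (-r)) z *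
        f (ofComplex (-conj (z : ℂ))) * (z.im : ℂ) ^ w) = fun _ => 0 := by
      funext z
      rw [h1 q hq0 F _ _ s σ χ cj w k r ψ c₀ hD hk hwk hcop z z.im_pos, zero_mul, zero_mul]
    show ∫ z : ℍ in ModularGroup.fd, trD q w (HN q χ k r ψ c₀ (-r)) z *
        f (ofComplex (-conj (z : ℂ))) * (z.im : ℂ) ^ w = 0
    rw [hz, integral_zero]
  refine ⟨Λ, hΛ, ?_, ?_, ?_⟩
  · intro z hz
    rw [hEq hz]
    have h := h5 q hq0 F _ _ s σ χ cj w k f ψ hD hf hψ z hz
    rwa [hcen] at h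
  · show G 0 * R (0 - r) = 0
    rw [zero_sub, h0, mul_zero]
  · have hRd : DifferentiableAt ℂ R (-r) := by
      refine han.differentiableAt ((isOpen_lt continuous_const Complex.continuous_re).mem_nhds ?_)
      show -(r : ℝ) - 1 / 2 < (-(r : ℂ)).re
      rw [Complex.neg_re, Complex.natCast_re]
      linarith
    have hR1 : HasDerivAt (fun z : ℂ => R (z - r)) (deriv R (-r)) 0 := by
      have h := hRd.hasDerivAt
      have e : (-(r : ℂ)) = 0 - r := (zero_sub _).symm
      rw [e] at h ⊢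
      exact h.comp_sub_const 0 (r : ℂ)
    have hΛ1 := (hGd 0).hasDerivAt.mul hR1
    have e : Λ = G * fun z : ℂ => R (z - r) := rfl
    rw [e, hΛ1.deriv, zero_sub, h0, mul_zero, zero_add]
    refine mul_ne_zero ?_ hder
    exact mul_ne_zero (hP _) (inv_ne_zero (hG 0 (by norm_num)))

end MainRAux

open MainRAux in
theorem stMainR (h1 : StBig) (h2 : StEigS) (h3 : StPoi) (h4 : StRSanN) (h5 : StTr0) (h6 : StRSN)
    (h7 : StDnN) (h8 : StEulN) (_h9 : StW12) (h10 : StRepsD) (h11 : StPsiD) (h12 : StHN)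
    (h13 : StCoef) (h14 : StFd) : StMainR := by
  intro D F _ _ s σ hDp hD4 hD3 hF hs
  obtain ⟨s', χ, cj, hD⟩ := MainDAux.exists_dat σ ⟨hDp.squarefree, hD4, hD3⟩ hF hs
  have hD0 : NeZero D := ⟨by omega⟩
  obtain ⟨r₀, hr₀⟩ := h1 D hD0 F _ _ s' σ χ cj hD hDp
  refine ⟨max r₀ 1, fun w k r ψ hw hr hψ => ?_⟩
  have hr1 : 1 ≤ r := (le_max_right _ _).trans hr
  have hr2 : r₀ ≤ r := (le_max_left _ _).trans hr
  obtain ⟨c, hcop⟩ := h10 D F _ _ s' σ χ cj hD
  obtain ⟨hk, -⟩ := h11 D F _ _ s' σ χ cj k ψ hD hψ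
  have hwe : Even w := by
    rw [hw]
    exact ((hk.add (even_two_mul r)).add even_two)
  obtain ⟨P, hP⟩ := h3 w 1 (by omega) hwe le_rfl
  have hne := hr₀ w k r ψ c P hψ hcop hw hr2 hP
  obtain ⟨hspan, -⟩ := h2 w (by omega) hwe
  by_contra hcon
  push Not at hcon
  have hopen : IsOpen {t : ℂ | -(r : ℝ) - 1 / 2 < t.re} :=
    isOpen_lt continuous_const Complex.continuous_re
  have hmem : (-(r : ℂ)) ∈ {t : ℂ | -(r : ℝ) - 1 / 2 < t.re} := by
    show -(r : ℝ) - 1 / 2 < (-(r : ℂ)).re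
    rw [Complex.neg_re, Complex.natCast_re]
    linarith
  have hint : ∀ (f : CuspForm 𝒮ℒ (w : ℤ)) (t : ℂ), -(r : ℝ) - 1 / 2 < t.re →
      IntegrableOn (fun z : ℍ => trD D w (HN D χ k r ψ c t) z * f (ofComplex (-conj (z : ℂ))) *
        (z.im : ℂ) ^ w) ModularGroup.fd := fun f t ht =>
    integ h12 h14 h13 f ψ c hD hk hw hcop t ht
  have hall : ∀ f ∈ Submodule.span ℂ {f : CuspForm 𝒮ℒ (w : ℤ) | IsEigen f},
      HasDerivAt (fun t => rsD D (HN D χ k r ψ c t) f) 0 (-r) := by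
    intro f hf
    induction hf using Submodule.span_induction with
    | mem f hf =>
      have hd0 : deriv (fun t => rsD D (HN D χ k r ψ c t) f) (-r) = 0 := by
        by_contra hd
        obtain ⟨Λ, hΛ1, hΛ2, hΛ3, hΛ4⟩ := lam h5 h4 h6 h7 h8 f ψ c hD hf hw hψ hk hcop hd
        exact hΛ4 (hcon f hf Λ hΛ1 hΛ2 hΛ3)
      have hdiff : DifferentiableAt ℂ (fun t => rsD D (HN D χ k r ψ c t) f) (-r) :=
        (h4 D hD0 F _ _ s' σ χ cj w k r f ψ c hD hk hw hcop).differentiableAt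
          (hopen.mem_nhds hmem)
      have h := hdiff.hasDerivAt
      rwa [hd0] at h
    | zero =>
      have e : (fun t => rsD D (HN D χ k r ψ c t) (0 : CuspForm 𝒮ℒ (w : ℤ))) = fun _ => 0 := by
        funext t
        have h := rsD_smul (D := D) (HN D χ k r ψ c t) 0 (0 : CuspForm 𝒮ℒ (w : ℤ))
        rwa [zero_smul, zero_mul] at h
      rw [e]
      exact hasDerivAt_const _ _
    | add f g _ _ hf hg =>
      have h := hf.add hg
      rw [add_zero] at h
      refine h.congr_of_eventuallyEq ?_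
      filter_upwards [hopen.mem_nhds hmem] with t ht
      exact rsD_add _ f g (hint f t ht) (hint g t ht)
    | smul a f _ hf =>
      have h := hf.const_mul a
      rw [mul_zero] at h
      refine h.congr_of_eventuallyEq (Filter.Eventually.of_forall fun t => ?_)
      exact rsD_smul _ a f
  have hPm : P ∈ Submodule.span ℂ {f : CuspForm 𝒮ℒ (w : ℤ) | IsEigen f} := by
    rw [hspan]
    exact Submodule.mem_top
  exact hne (hall P hPm).deriv

end RZ

end Pool.Agent.Lib.MP_7c08ba_nt
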