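import Pool.Agent.Lib.MP_7c08ba_nt.RZ.StR
import Pool.Agent.Lib.MP_7c08ba_nt.RZ.PetU

set_option autoImplicit false

/-!
(R1) integrals against Poincaré series, functions of small growth at the cusp
-/

namespace Pool.Agent.Lib.MP_7c08ba_nt

namespace RZ

namespace PetGX

open MeasureTheory UpperHalfPlane Set Filter
open scoped MatrixGroups ComplexConjugate

/-- a function of weight `w` of size at most a power of the imaginary part on the fundamental
domain -/
theorem size_of_fd {w : ℕ} (hw : Even w) {h : ℂ → ℂ} (hW : Wt w h) {C a : ℝ}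
    (hb : ∀ z : ℂ, 1 / 2 ≤ z.im → |z.re| ≤ 1 / 2 → ‖h z‖ ≤ C * z.im ^ a) (hfd : StFd)
    {A : ℝ} (hA : 0 ≤ A) (hA' : a + (w : ℝ) / 2 ≤ A) :
    ∃ C' : ℝ, ∀ z : ℂ, 0 < z.im →
      ‖h z‖ * z.im ^ ((w : ℝ) / 2) ≤ C' * (z.im ^ A + z.im ^ (-A)) := by
  obtain ⟨n, rfl⟩ := hw
  have hn : (((n + n : ℕ) : ℝ)) / 2 = (n : ℝ) := by push_cast; ring
  rw [hn] at hA' ⊢
  have hC : 0 ≤ C := by
    have h1 := hb Complex.I (by norm_num) (by norm_num)
    have h2 := (norm_nonneg _).trans h1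
    simpa using h2
  refine ⟨C * (2 : ℝ) ^ |a + n|, fun z hz => ?_⟩
  rw [Real.rpow_natCast]
  obtain ⟨g, hg⟩ := ModularGroup.exists_smul_mem_fd ⟨z, hz⟩
  have hg' := hfd.2.2 _ hg
  have e1 : (((g • (⟨z, hz⟩ : ℍ)) : ℍ) : ℂ) =
      ((g 0 0 : ℂ) * z + g 0 1) / ((g 1 0 : ℂ) * z + g 1 1) := by
    rw [coe_specialLinearGroup_apply]
    simp
  have e2 : (g • (⟨z, hz⟩ : ℍ)).im = z.im / Complex.normSq ((g 1 0 : ℂ) * z + g 1 1) := by
    rw [ModularGroup.im_smul_eq_div_normSq, ModularGroup.denom_apply]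
    rfl
  set D : ℂ := (g 1 0 : ℂ) * z + g 1 1 with hD
  have e3 : h ((g • (⟨z, hz⟩ : ℍ) : ℍ) : ℂ) = D ^ (n + n) * h z := by
    rw [e1]
    exact hW g z hz
  have h4 := hb ((g • (⟨z, hz⟩ : ℍ) : ℍ) : ℂ) hg'.1.le hg'.2
  have him : 0 < (g • (⟨z, hz⟩ : ℍ)).im := (g • (⟨z, hz⟩ : ℍ)).im_pos
  have hDpos : 0 < Complex.normSq D := by
    rcases (Complex.normSq_nonneg D).lt_or_eq with h | h
    · exact h
    · rw [e2, ← h, div_zero] at him
      exact absurd him (lt_irrefl _)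
  have e4 : ‖h z‖ * z.im ^ n = ‖h ((g • (⟨z, hz⟩ : ℍ) : ℍ) : ℂ)‖ * (g • (⟨z, hz⟩ : ℍ)).im ^ n := by
    rw [e3, e2, norm_mul, norm_pow, div_pow, ← two_mul, pow_mul, ← Complex.normSq_eq_norm_sq]
    field_simp
  -- the imaginary part is at most the maximum of `y` and `1 / y`
  have hmax : (g • (⟨z, hz⟩ : ℍ)).im ≤ max z.im z.im⁻¹ := by
    rw [e2]
    rcases eq_or_ne (g 1 0) 0 with hc | hc
    · have hd : (1 : ℝ) ≤ Complex.normSq D := by
        have hdet := g.det_coe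
        rw [Matrix.det_fin_two, hc, mul_zero, sub_zero] at hdet
        have hd0 : (g 1 1) ≠ 0 := by
          intro h0
          rw [h0, mul_zero] at hdet
          exact zero_ne_one hdet
        have hD' : D = ((g 1 1 : ℤ) : ℂ) := by
          rw [hD, hc]
          simp
        rw [hD', Complex.normSq_intCast]
        have : (1 : ℤ) ≤ g 1 1 * g 1 1 := by
          have := mul_self_pos.2 hd0
          omega
        exact_mod_cast this
      refine le_trans ?_ (le_max_left _ _)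
      exact div_le_self hz.le hd
    · refine le_trans ?_ (le_max_right _ _)
      have hc1 : (1 : ℝ) ≤ ((g 1 0 : ℤ) : ℝ) * ((g 1 0 : ℤ) : ℝ) := by
        have := mul_self_pos.2 hc
        have h2 : (1 : ℤ) ≤ g 1 0 * g 1 0 := by omega
        exact_mod_cast h2
      have hns : z.im * z.im ≤ Complex.normSq D := by
        have h5 : D.im = ((g 1 0 : ℤ) : ℝ) * z.im := by
          rw [hD]
          simp
        rw [Complex.normSq_apply, h5]
        nlinarith [mul_self_nonneg D.re, mul_self_nonneg z.im, mul_pos hz hz]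
      rw [div_le_iff₀ hDpos]
      calc z.im = z.im⁻¹ * (z.im * z.im) := by field_simp
        _ ≤ z.im⁻¹ * Complex.normSq D := mul_le_mul_of_nonneg_left hns (by positivity)
  set Y : ℝ := (g • (⟨z, hz⟩ : ℍ)).im with hY
  have hYh : 1 / 2 < Y := hg'.1
  have hYim : ((g • (⟨z, hz⟩ : ℍ) : ℍ) : ℂ).im = Y := rfl
  rw [hYim] at h4
  have hM1 : 1 ≤ max z.im z.im⁻¹ := by
    rcases le_total 1 z.im with h | h
    · exact h.trans (le_max_left _ _)
    · exact (one_le_inv₀ hz |>.2 h).trans (le_max_right _ _)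
  have hMA : (max z.im z.im⁻¹) ^ A ≤ z.im ^ A + z.im ^ (-A) := by
    have p1 : 0 ≤ z.im ^ A := (Real.rpow_pos_of_pos hz _).le
    have p2 : 0 ≤ z.im ^ (-A) := (Real.rpow_pos_of_pos hz _).le
    rcases le_total z.im z.im⁻¹ with h | h
    · rw [max_eq_right h, Real.inv_rpow hz.le, ← Real.rpow_neg hz.le]
      linarith
    · rw [max_eq_left h]
      linarith
  have hM1A : 1 ≤ (max z.im z.im⁻¹) ^ A := Real.one_le_rpow hM1 hA
  have h2p : (1 : ℝ) ≤ (2 : ℝ) ^ |a + n| := Real.one_le_rpow (by norm_num) (abs_nonneg _)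
  have key : Y ^ (a + n) ≤ (2 : ℝ) ^ |a + n| * (max z.im z.im⁻¹) ^ A := by
    rcases le_total 1 Y with h | h
    · have q1 : Y ^ (a + n) ≤ Y ^ A := Real.rpow_le_rpow_of_exponent_le h hA'
      have q2 : Y ^ A ≤ (max z.im z.im⁻¹) ^ A := Real.rpow_le_rpow him.le hmax hA
      calc Y ^ (a + n) ≤ (max z.im z.im⁻¹) ^ A := q1.trans q2
        _ = 1 * (max z.im z.im⁻¹) ^ A := (one_mul _).symm
        _ ≤ _ := mul_le_mul_of_nonneg_right h2p (by positivity)
    · have q1 : Y ^ (a + n) ≤ (2 : ℝ) ^ |a + n| := by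
        have q2 : Y ^ (a + n) ≤ Y ^ (-|a + n|) := by
          refine Real.rpow_le_rpow_of_exponent_ge him h ?_
          linarith [neg_abs_le (a + n)]
        have q3 : Y ^ (-|a + n|) ≤ (1 / 2 : ℝ) ^ (-|a + n|) := by
          rw [Real.rpow_neg him.le, Real.rpow_neg (by norm_num : (0 : ℝ) ≤ 1 / 2)]
          refine inv_anti₀ (by positivity) ?_
          exact Real.rpow_le_rpow (by norm_num) hYh.le (abs_nonneg _)
        have q4 : (1 / 2 : ℝ) ^ (-|a + n|) = (2 : ℝ) ^ |a + n| := by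
          rw [Real.rpow_neg (by norm_num : (0 : ℝ) ≤ 1 / 2), ← Real.inv_rpow (by norm_num)]
          norm_num
        exact (q2.trans q3).trans q4.le
      calc Y ^ (a + n) ≤ (2 : ℝ) ^ |a + n| := q1
        _ = (2 : ℝ) ^ |a + n| * 1 := (mul_one _).symm
        _ ≤ _ := mul_le_mul_of_nonneg_left hM1A (by positivity)
  rw [e4]
  calc ‖h ((g • (⟨z, hz⟩ : ℍ) : ℍ) : ℂ)‖ * Y ^ n
      ≤ C * Y ^ a * Y ^ n := mul_le_mul_of_nonneg_right h4 (by positivity)
    _ = C * Y ^ (a + n) := by rw [Real.rpow_add him, Real.rpow_natCast, mul_assoc]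
    _ ≤ C * ((2 : ℝ) ^ |a + n| * (max z.im z.im⁻¹) ^ A) := mul_le_mul_of_nonneg_left key hC
    _ ≤ C * ((2 : ℝ) ^ |a + n| * (z.im ^ A + z.im ^ (-A))) :=
        mul_le_mul_of_nonneg_left (mul_le_mul_of_nonneg_left hMA (by positivity)) hC
    _ = C * (2 : ℝ) ^ |a + n| * (z.im ^ A + z.im ^ (-A)) := by ring

end PetGX

open MeasureTheory UpperHalfPlane Set Filter
open scoped MatrixGroups ComplexConjugate

/-- (R1) integrals against Poincaré series, functions of small growth at the cusp -/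
theorem stPetG (h1 : StUnf) (h2 : StStrip) (h3 : StFd) (h4 : StPoiS) : StPetG := by
  intro w m h hw hev hm hcont hW hbd
  obtain ⟨C₀, a, ha, hC₀⟩ := hbd
  set A : ℝ := max (a + (w : ℝ) / 2) 0 with hAdef
  have hA : 0 ≤ A := le_max_right _ _
  have hA' : a + (w : ℝ) / 2 ≤ A := le_max_left _ _
  have hw4 : (4 : ℝ) ≤ w := by exact_mod_cast hw
  have hAlt : A < (w : ℝ) / 2 - 1 := by
    rw [hAdef]
    exact max_lt (by linarith) (by linarith)
  obtain ⟨C, hC⟩ := PetGX.size_of_fd hev hW hC₀ h3 hA hA'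
  have hGc : ContinuousOn (PetX.GG w m h) {z | 0 < z.im} := by
    have e1 : Continuous fun z : ℂ => conj (ee (m * z)) * (z.im : ℂ) ^ w := by
      unfold ee
      have := Complex.continuous_im
      have := Complex.continuous_conj
      fun_prop
    have e2 := hcont.mul e1.continuousOn
    refine e2.congr fun z _ => ?_
    unfold PetX.GG
    rw [mul_assoc]
    rfl
  have hGp : ∀ z : ℂ, 0 < z.im → PetX.GG w m h (z + 1) = PetX.GG w m h z := by
    intro z hz
    have e1 : h (z + 1) = h z := by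
      have e2 := hW ⟨!![1, 1; 0, 1], by rw [Matrix.det_fin_two_of]; norm_num⟩ z hz
      simpa using e2
    unfold PetX.GG
    rw [e1]
    have e3 : ee (m * (z + 1)) = ee (m * z) := by
      have := PetX.ee_add_int (m * z) (m : ℤ)
      rw [← this]
      congr 1
      push_cast
      ring
    rw [e3]
    simp
  set b : ℝ → ℝ := fun y =>
    C * (y ^ A + y ^ (-A)) * (y ^ ((w : ℝ) / 2) * Real.exp (-(2 * Real.pi * m) * y)) with hb
  have hm0 : (0 : ℝ) < m := by exact_mod_cast hm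
  have hGb : ∀ x y : ℝ, 0 < x → x ≤ 1 → 0 < y →
      ‖PetX.GG w m h (x + y * Complex.I)‖ ≤ b y := by
    intro x y _ _ hy
    have him : ((x : ℂ) + y * Complex.I).im = y := by simp
    have e1 := hC (x + y * Complex.I) (by rw [him]; exact hy)
    rw [him] at e1
    unfold PetX.GG
    rw [norm_mul, norm_mul, PetX.norm_conj_ee, him, norm_pow, Complex.norm_real,
      Real.norm_of_nonneg hy.le]
    have e2 : y ^ w = y ^ ((w : ℝ) / 2) * y ^ ((w : ℝ) / 2) := by
      rw [← Real.rpow_add hy, add_halves, Real.rpow_natCast]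
    rw [hb, e2]
    have e3 : 0 ≤ y ^ ((w : ℝ) / 2) * Real.exp (-(2 * Real.pi * m) * y) := by positivity
    calc ‖h (x + y * Complex.I)‖ * Real.exp (-(2 * Real.pi * m) * y) *
          (y ^ ((w : ℝ) / 2) * y ^ ((w : ℝ) / 2))
        = (‖h (x + y * Complex.I)‖ * y ^ ((w : ℝ) / 2)) *
          (y ^ ((w : ℝ) / 2) * Real.exp (-(2 * Real.pi * m) * y)) := by ring
      _ ≤ C * (y ^ A + y ^ (-A)) * (y ^ ((w : ℝ) / 2) * Real.exp (-(2 * Real.pi * m) * y)) :=
        mul_le_mul_of_nonneg_right e1 e3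
  have hbi : IntegrableOn (fun y : ℝ => b y / y ^ 2) (Ioi 0) := by
    have e1 : IntegrableOn (fun y : ℝ => y ^ (A + ((w : ℝ) / 2 - 2)) *
        Real.exp (-(2 * Real.pi * m) * y ^ (1 : ℝ))) (Ioi 0) :=
      integrableOn_rpow_mul_exp_neg_mul_rpow (by linarith) one_pos (by positivity)
    have e2 : IntegrableOn (fun y : ℝ => y ^ (-A + ((w : ℝ) / 2 - 2)) *
        Real.exp (-(2 * Real.pi * m) * y ^ (1 : ℝ))) (Ioi 0) :=
      integrableOn_rpow_mul_exp_neg_mul_rpow (by linarith) one_pos (by positivity)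
    refine IntegrableOn.congr_fun ((e1.add e2).const_mul C) ?_ measurableSet_Ioi
    intro y hy
    have hy' : (0 : ℝ) < y := hy
    simp only [hb, Real.rpow_one, Pi.add_apply]
    rw [Real.rpow_add hy', Real.rpow_add hy', Real.rpow_sub hy', Real.rpow_ofNat]
    ring
  obtain ⟨hstr, hint⟩ := h2 _ b hGc hGb hbi
  obtain ⟨-, hfi, hfe⟩ := h1 _ hGc hGp hstr
  have hkey : ∀ z : ℍ, h z * poinc w m (-conj (z : ℂ)) * (z.im : ℂ) ^ w =
      (1 / 2) * ∑' v : Cop, PetX.GG w m h (mob v.1 z) := fun z =>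
    PetX.sum_GG hW h4 z z.im_pos
  simp_rw [hkey]
  rw [integral_const_mul, hfe, hint]
  have e1 : (1 / 2 : ℂ) * (2 * ∫ y in Ioi (0 : ℝ),
      (∫ x in (0 : ℝ)..1, PetX.GG w m h (x + y * Complex.I)) / (y : ℂ) ^ 2) =
      ∫ y in Ioi (0 : ℝ),
        (∫ x in (0 : ℝ)..1, PetX.GG w m h (x + y * Complex.I)) / (y : ℂ) ^ 2 := by ring
  rw [e1]
  unfold JJ
  refine setIntegral_congr_fun measurableSet_Ioi fun y hy => ?_
  have hy' : (0 : ℝ) < y := hy
  have hy0 : (y : ℂ) ≠ 0 := by exact_mod_cast hy'.ne'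
  have e2 : ∀ x : ℝ, PetX.GG w m h (x + y * Complex.I) =
      h (x + y * Complex.I) * ee (-(m : ℂ) * (x - y * Complex.I)) * (y : ℂ) ^ w := by
    intro x
    have him : ((x : ℂ) + y * Complex.I).im = y := by simp
    unfold PetX.GG
    rw [PetX.conj_ee, him]
    congr 3
    simp only [map_mul, map_add, map_natCast, Complex.conj_ofReal, Complex.conj_I]
    ring
  simp_rw [e2]
  rw [intervalIntegral.integral_mul_const, mul_div_assoc]
  congr 1
  obtain ⟨k, rfl⟩ : ∃ k, w = k + 2 := ⟨w - 2, by omega⟩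
  rw [Nat.add_sub_cancel, pow_add, mul_div_assoc, div_self (pow_ne_zero 2 hy0), mul_one]

end RZ

end Pool.Agent.Lib.MP_7c08ba_nt
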