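import Mathlib
import Pool.Agent.Lib.MP_7c08ba_nt.RZ.StR

set_option autoImplicit false

/-!
(R8) size of the Fourier integrals of the general term of the Eisenstein series.
-/

namespace Pool.Agent.Lib.MP_7c08ba_nt

namespace RZ

open MeasureTheory

namespace WfBAux

theorem norm_gE (r : ℕ) (s z : ℂ) (hz : z ≠ 0) :
    ‖gE r s z‖ = ‖z‖ ^ (-((2 * r + 1 : ℝ) + 2 * s.re)) := by
  have hpos : 0 < ‖z‖ := norm_pos_iff.mpr hz
  have hN : 0 < Complex.normSq z := Complex.normSq_pos.mpr hz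
  unfold gE
  rw [norm_mul, norm_inv, norm_pow, Complex.norm_cpow_eq_rpow_re_of_pos hN,
    Complex.normSq_eq_norm_sq, ← Real.rpow_natCast, ← Real.rpow_natCast, ← Real.rpow_neg hpos.le,
    ← Real.rpow_mul hpos.le, ← Real.rpow_add hpos]
  congr 1
  push_cast
  simp only [Complex.neg_re]
  ring

theorem norm_ee (N : ℤ) (x : ℝ) : ‖ee (N * x)‖ = 1 := by
  unfold ee
  have h : 2 * (Real.pi : ℂ) * Complex.I * ((N : ℂ) * (x : ℂ)) =
      ((2 * Real.pi * (N * x) : ℝ) : ℂ) * Complex.I := by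
    push_cast
    ring
  rw [h, Complex.norm_exp_ofReal_mul_I]

theorem norm_add (x : ℝ) {y : ℝ} (hy : 0 < y) :
    ‖(x : ℂ) + y * Complex.I‖ = y * (1 + ‖x / y‖ ^ 2) ^ ((1 : ℝ) / 2) := by
  rw [Complex.norm_add_mul_I, ← Real.sqrt_eq_rpow]
  rw [← Real.sqrt_sq hy.le, ← Real.sqrt_mul (sq_nonneg y), Real.sqrt_sq hy.le]
  congr 1
  rw [Real.norm_eq_abs, sq_abs]
  field_simp
  ring

theorem norm_gE' (r : ℕ) (t : ℂ) (x : ℝ) {y : ℝ} (hy : 0 < y) :
    ‖gE r t (x + y * Complex.I)‖ = y ^ (-((2 * r + 1 : ℝ) + 2 * t.re)) *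
      (1 + ‖x / y‖ ^ 2) ^ (-((2 * r + 1 : ℝ) + 2 * t.re) / 2) := by
  have hz : (x : ℂ) + y * Complex.I ≠ 0 := by
    intro h
    have := congrArg Complex.im h
    simp at this
    exact hy.ne' this
  have h1 : (0 : ℝ) ≤ 1 + ‖x / y‖ ^ 2 := by positivity
  rw [norm_gE r t _ hz, norm_add x hy, Real.mul_rpow hy.le (Real.rpow_nonneg h1 _),
    ← Real.rpow_mul h1]
  congr 2
  ring

end WfBAux

open WfBAux in
theorem stWfB : StWfB := by
  intro r t ht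
  set a : ℝ := (2 * r + 1 : ℝ) + 2 * t.re with ha
  have ha1 : (Module.finrank ℝ ℝ : ℝ) < a := by
    rw [Module.finrank_self, ha]
    push_cast
    linarith
  have hJ : Integrable (fun x : ℝ => ((1 : ℝ) + ‖x‖ ^ 2) ^ (-a / 2)) volume :=
    integrable_rpow_neg_one_add_norm_sq ha1
  refine ⟨∫ x : ℝ, ((1 : ℝ) + ‖x‖ ^ 2) ^ (-a / 2), ?_⟩
  intro N y hy
  have e1 : (fun x : ℝ => ‖gE r t (x + y * Complex.I)‖) =
      fun x : ℝ => y ^ (-a) * (fun x : ℝ => ((1 : ℝ) + ‖x‖ ^ 2) ^ (-a / 2)) (x / y) := by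
    funext x
    rw [norm_gE' r t x hy]
  have hi : Integrable (fun x : ℝ => ‖gE r t (x + y * Complex.I)‖) := by
    rw [e1]
    exact (hJ.comp_div hy.ne').const_mul _
  refine ⟨hi, ?_⟩
  unfold Wf
  refine (norm_integral_le_integral_norm _).trans ?_
  have e2 : (fun x : ℝ => ‖ee (N * x) * gE r t (x + y * Complex.I)‖) =
      fun x : ℝ => ‖gE r t (x + y * Complex.I)‖ := by
    funext x
    rw [norm_mul, norm_ee, one_mul]
  have e4 : ∫ x : ℝ, (fun x : ℝ => ((1 : ℝ) + ‖x‖ ^ 2) ^ (-a / 2)) (x / y) =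
      y * ∫ x : ℝ, ((1 : ℝ) + ‖x‖ ^ 2) ^ (-a / 2) := by
    have h := Measure.integral_comp_div (fun x : ℝ => ((1 : ℝ) + ‖x‖ ^ 2) ^ (-a / 2)) y
    rw [smul_eq_mul, abs_of_pos hy] at h
    exact h
  rw [e2, e1, integral_const_mul, e4]
  have e3 : y ^ (-2 * (r : ℝ) - 2 * t.re) = y ^ (-a) * y := by
    conv_rhs => rw [← Real.rpow_one y, ← Real.rpow_mul hy.le, one_mul]
    rw [← Real.rpow_add hy]
    congr 1
    rw [ha]
    ring
  rw [e3]
  apply le_of_eq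
  ring

end RZ

end Pool.Agent.Lib.MP_7c08ba_nt
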