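import Mathlib
import Pool.Agent.Lib.MP_7c08ba_nt.RZ.StR
import Pool.Agent.Lib.MP_7c08ba_nt.RZ.WfB
import Pool.Agent.Lib.MP_973905_nt.F4.GammaC

set_option autoImplicit false

/-!
(R14) the integral over the upper half plane in polar coordinates.
-/

namespace Pool.Agent.Lib.MP_7c08ba_nt

namespace RZ

open MeasureTheory Set

namespace PolAux

/-- The integrand on the upper half plane. -/
noncomputable def fn (k r n m : ℕ) (t : ℂ) (p : ℝ × ℝ) : ℂ :=
  Complex.exp (-(2 * Real.pi * (n + m) * p.2)) *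
    (ee ((((n : ℤ) - m : ℤ) : ℂ) * p.1) * gE r t (p.1 + p.2 * Complex.I)) *
    (p.2 : ℂ) ^ (t + k + 2 * r)

theorem measurable_fn (k r n m : ℕ) (t : ℂ) : Measurable (fn k r n m t) := by
  have h : Measurable (fun p : ℝ × ℝ => ((Complex.normSq (p.1 + p.2 * Complex.I) : ℝ) : ℂ)) := by
    have : Measurable (fun p : ℝ × ℝ => (Complex.normSq (p.1 + p.2 * Complex.I) : ℝ)) := by
      refine Complex.continuous_normSq.measurable.comp ?_
      fun_prop
    exact Complex.measurable_ofReal.comp this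
  unfold fn ee gE
  fun_prop

theorem norm_fn (k r n m : ℕ) (t : ℂ) (x : ℝ) {y : ℝ} (hy : 0 < y) :
    ‖fn k r n m t (x, y)‖ = (Real.exp (-(2 * Real.pi * (n + m) * y)) *
      y ^ (t.re + k + 2 * r)) * ‖gE r t (x + y * Complex.I)‖ := by
  unfold fn
  simp only
  rw [norm_mul, norm_mul, norm_mul, WfBAux.norm_ee, Complex.norm_cpow_eq_rpow_re_of_pos hy,
    Complex.norm_exp, one_mul]
  have e1 : (-(2 * (Real.pi : ℂ) * ((n : ℂ) + m) * (y : ℂ))).re =
      -(2 * Real.pi * (n + m) * y) := by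
    have : -(2 * (Real.pi : ℂ) * ((n : ℂ) + m) * (y : ℂ)) =
        ((-(2 * Real.pi * (n + m) * y) : ℝ) : ℂ) := by
      push_cast
      ring
    rw [this, Complex.ofReal_re]
  have e2 : (t + k + 2 * r).re = t.re + k + 2 * r := by simp
  rw [e1, e2]
  ring

theorem integral_gE (r : ℕ) (t : ℂ) {y : ℝ} (hy : 0 < y) :
    ∫ x : ℝ, ‖gE r t (x + y * Complex.I)‖ = y ^ (-2 * (r : ℝ) - 2 * t.re) *
      ∫ x : ℝ, ((1 : ℝ) + ‖x‖ ^ 2) ^ (-((2 * r + 1 : ℝ) + 2 * t.re) / 2) := by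
  set a : ℝ := (2 * r + 1 : ℝ) + 2 * t.re with ha
  have e1 : (fun x : ℝ => ‖gE r t (x + y * Complex.I)‖) =
      fun x : ℝ => y ^ (-a) * (fun x : ℝ => ((1 : ℝ) + ‖x‖ ^ 2) ^ (-a / 2)) (x / y) := by
    funext x
    rw [WfBAux.norm_gE' r t x hy]
  have e4 : ∫ x : ℝ, (fun x : ℝ => ((1 : ℝ) + ‖x‖ ^ 2) ^ (-a / 2)) (x / y) =
      y * ∫ x : ℝ, ((1 : ℝ) + ‖x‖ ^ 2) ^ (-a / 2) := by
    have h := Measure.integral_comp_div (fun x : ℝ => ((1 : ℝ) + ‖x‖ ^ 2) ^ (-a / 2)) y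
    rw [smul_eq_mul, abs_of_pos hy] at h
    exact h
  rw [e1, integral_const_mul, e4]
  have e3 : y ^ (-2 * (r : ℝ) - 2 * t.re) = y ^ (-a) * y := by
    conv_rhs => rw [← Real.rpow_one y, ← Real.rpow_mul hy.le, one_mul]
    rw [← Real.rpow_add hy]
    congr 1
    rw [ha]
    ring
  rw [e3]
  ring

theorem integrable_fn (h0 : StWfB) (k r n m : ℕ) (t : ℂ) (hm : 1 ≤ m) (h1 : -(r : ℝ) < t.re)
    (h2 : t.re < k + 1) :
    Integrable (fn k r n m t) ((volume : Measure ℝ).prod (volume.restrict (Ioi (0 : ℝ)))) := by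
  obtain ⟨C, hC⟩ := h0 r t h1
  rw [integrable_prod_iff' (measurable_fn k r n m t).aestronglyMeasurable]
  have hnm : (0 : ℝ) < n + m := by
    have : (1 : ℝ) ≤ m := by exact_mod_cast hm
    positivity
  constructor
  · rw [ae_restrict_iff' measurableSet_Ioi]
    refine Filter.Eventually.of_forall fun y hy => ?_
    have hy' : 0 < y := hy
    have hi := (hC 0 y hy').1
    refine (integrable_norm_iff ?_).1 ?_
    · exact ((measurable_fn k r n m t).comp (measurable_id.prodMk measurable_const)).aestronglyMeasurable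
    · refine (hi.const_mul (Real.exp (-(2 * Real.pi * (n + m) * y)) *
        y ^ (t.re + k + 2 * r))).congr (Filter.Eventually.of_forall fun x => ?_)
      exact (norm_fn k r n m t x hy').symm
  · have hI := (Pool.Agent.Lib.MP_973905_nt.F4.GammaC.integrable_real (x := (k : ℝ) + 1 - t.re)
      (y := 2 * Real.pi * (n + m)) (by linarith) (by positivity)).const_mul
        (∫ x : ℝ, ((1 : ℝ) + ‖x‖ ^ 2) ^ (-((2 * r + 1 : ℝ) + 2 * t.re) / 2))
    refine IntegrableOn.congr_fun hI (fun y hy => ?_) measurableSet_Ioi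
    have hy' : 0 < y := hy
    have e : (fun x : ℝ => ‖fn k r n m t (x, y)‖) = fun x : ℝ =>
        (Real.exp (-(2 * Real.pi * (n + m) * y)) * y ^ (t.re + k + 2 * r)) *
          ‖gE r t (x + y * Complex.I)‖ := by
      funext x
      exact norm_fn k r n m t x hy'
    rw [e, integral_const_mul, integral_gE r t hy']
    have e3 : y ^ ((k : ℝ) + 1 - t.re - 1) =
        y ^ (t.re + k + 2 * r) * y ^ (-2 * (r : ℝ) - 2 * t.re) := by
      rw [← Real.rpow_add hy']
      congr 1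
      ring
    rw [e3]
    ring

theorem image_polar : polarCoord.symm '' (Ioi (0 : ℝ) ×ˢ Ioo (0 : ℝ) Real.pi) =
    univ ×ˢ Ioi (0 : ℝ) := by
  ext ⟨x, y⟩
  constructor
  · rintro ⟨⟨ρ, φ⟩, ⟨hρ, hφ⟩, h⟩
    rw [polarCoord_symm_apply] at h
    obtain ⟨-, h2⟩ := Prod.mk.inj h
    refine ⟨mem_univ _, ?_⟩
    change 0 < y
    rw [← h2]
    exact mul_pos hρ (Real.sin_pos_of_pos_of_lt_pi hφ.1 hφ.2)
  · rintro ⟨-, hy⟩
    have hy' : 0 < y := hy
    have hs : (x, y) ∈ polarCoord.source := by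
      rw [polarCoord_source]
      right
      exact hy'.ne'
    refine ⟨polarCoord (x, y), ?_, polarCoord.left_inv hs⟩
    have ht := polarCoord.map_source hs
    rw [polarCoord_target] at ht
    refine ⟨ht.1, ?_, ht.2.2⟩
    rw [polarCoord_apply]
    change 0 < Complex.arg (Complex.equivRealProd.symm (x, y))
    have him : 0 < (Complex.equivRealProd.symm (x, y)).im := by simpa using hy'
    rcases (Complex.arg_nonneg_iff.2 him.le).lt_or_eq with h | h
    · exact h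
    · exfalso
      have := Complex.arg_eq_zero_iff.1 h.symm
      exact him.ne' this.2

/-- The integrand in polar coordinates. -/
theorem fn_polar (k r n m : ℕ) (t : ℂ) {ρ φ : ℝ} (hρ : 0 < ρ) (h0 : 0 < φ) (h1 : φ < Real.pi) :
    ρ • fn k r n m t (ρ * Real.cos φ, ρ * Real.sin φ) =
      (Complex.exp (-((2 * r + 1) * φ * Complex.I)) * (Real.sin φ : ℂ) ^ (t + k + 2 * r)) *
        ((ρ : ℂ) ^ (((k : ℂ) + 1 - t) - 1) * Complex.exp (-(2 * Real.pi *
        (((n : ℂ) + m) * Real.sin φ + Complex.I * (((m : ℂ) - n) * Real.cos φ)) * ρ))) := by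
  have hs : 0 < Real.sin φ := Real.sin_pos_of_pos_of_lt_pi h0 h1
  have hρ0 : (ρ : ℂ) ≠ 0 := Complex.ofReal_ne_zero.2 hρ.ne'
  have hz : ((ρ * Real.cos φ : ℝ) : ℂ) + ((ρ * Real.sin φ : ℝ) : ℂ) * Complex.I =
      ρ * Complex.exp (φ * Complex.I) := by
    rw [Complex.exp_mul_I]
    push_cast
    ring
  have hN : Complex.normSq ((ρ : ℂ) * Complex.exp (φ * Complex.I)) = ρ ^ 2 := by
    rw [Complex.normSq_eq_norm_sq, norm_mul, Complex.norm_exp_ofReal_mul_I, mul_one,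
      Complex.norm_real, Real.norm_eq_abs, sq_abs]
  unfold fn gE ee
  simp only
  rw [hz, hN]
  have e1 : (((ρ ^ 2 : ℝ)) : ℂ) ^ (-t) = (ρ : ℂ) ^ (-(2 * t)) := by
    rw [show ((ρ ^ 2 : ℝ) : ℂ) = ((ρ ^ (2 : ℝ) : ℝ) : ℂ) by norm_num]
    rw [Complex.ofReal_cpow hρ.le, ← Complex.cpow_mul]
    · congr 1
      push_cast
      ring
    all_goals
      rw [← Complex.ofReal_log hρ.le, ← Complex.ofReal_mul, Complex.ofReal_im]
    · linarith [Real.pi_pos]
    · exact Real.pi_pos.le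
  have e2 : ((ρ * Real.sin φ : ℝ) : ℂ) ^ (t + k + 2 * r) =
      (ρ : ℂ) ^ (t + k + 2 * r) * (Real.sin φ : ℂ) ^ (t + k + 2 * r) := by
    rw [Complex.ofReal_mul, Complex.mul_cpow_ofReal_nonneg hρ.le hs.le]
  have e3 : (((ρ : ℂ) * Complex.exp (φ * Complex.I)) ^ (2 * r + 1))⁻¹ =
      (ρ : ℂ) ^ (-(2 * (r : ℂ) + 1)) * Complex.exp (-((2 * r + 1) * φ * Complex.I)) := by
    rw [mul_pow, mul_inv, ← Complex.exp_nat_mul, ← Complex.exp_neg, Complex.cpow_neg,
      show (2 * (r : ℂ) + 1) = ((2 * r + 1 : ℕ) : ℂ) by push_cast; ring, Complex.cpow_natCast]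
    congr 2
    ring
  have e4 : (ρ : ℂ) ^ (((k : ℂ) + 1 - t) - 1) =
      (ρ : ℂ) * ((ρ : ℂ) ^ (-(2 * (r : ℂ) + 1)) * (ρ : ℂ) ^ (-(2 * t)) *
        (ρ : ℂ) ^ (t + k + 2 * r)) := by
    nth_rewrite 2 [← Complex.cpow_one (ρ : ℂ)]
    rw [← Complex.cpow_add _ _ hρ0, ← Complex.cpow_add _ _ hρ0, ← Complex.cpow_add _ _ hρ0]
    congr 1
    ring
  have e5 : Complex.exp (-(2 * Real.pi *
        (((n : ℂ) + m) * Real.sin φ + Complex.I * (((m : ℂ) - n) * Real.cos φ)) * ρ)) =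
      Complex.exp (-(2 * Real.pi * ((n : ℂ) + m) * ((ρ * Real.sin φ : ℝ) : ℂ))) *
        Complex.exp (2 * Real.pi * Complex.I *
          ((((n : ℤ) - m : ℤ) : ℂ) * ((ρ * Real.cos φ : ℝ) : ℂ))) := by
    rw [← Complex.exp_add]
    congr 1
    push_cast
    ring
  rw [e1, e2, e3, e4, e5, Complex.real_smul]
  ring

theorem pow_A {A : ℂ} (hA : 0 < A.re) (b : ℂ) :
    (1 / (2 * Real.pi * A)) ^ b = (2 * Real.pi : ℂ) ^ (-b) * A ^ (-b) := by
  have hA0 : A ≠ 0 := fun h => by rw [h] at hA; simp at hA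
  have hp : (0 : ℝ) < 2 * Real.pi := by positivity
  have hp0 : ((2 * Real.pi : ℝ) : ℂ) ≠ 0 := Complex.ofReal_ne_zero.2 hp.ne'
  have e : (2 * (Real.pi : ℂ) * A) = ((2 * Real.pi : ℝ) : ℂ) * A := by push_cast; ring
  have e' : (2 * (Real.pi : ℂ)) = ((2 * Real.pi : ℝ) : ℂ) := by push_cast; ring
  rw [e, e', one_div]
  have hre : 0 < (((2 * Real.pi : ℝ) : ℂ) * A).re := by
    rw [Complex.re_ofReal_mul]
    positivity
  have harg : (((2 * Real.pi : ℝ) : ℂ) * A).arg ≠ Real.pi := by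
    intro h
    rw [Complex.arg_eq_pi_iff] at h
    linarith [h.1]
  rw [Complex.inv_cpow _ _ harg, ← Complex.cpow_neg]
  rw [Complex.cpow_def_of_ne_zero (mul_ne_zero hp0 hA0), Complex.log_ofReal_mul hp hA0,
    Complex.cpow_def_of_ne_zero hp0, Complex.cpow_def_of_ne_zero hA0, ← Complex.exp_add,
    Complex.ofReal_log hp.le]
  congr 1
  ring

end PolAux

open PolAux in
theorem stPol (h1 : StWfB) : StPol := by
  intro k r n m t hm ht1 ht2
  have hnm : (0 : ℝ) < n + m := by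
    have : (1 : ℝ) ≤ m := by exact_mod_cast hm
    positivity
  have hI := integrable_fn h1 k r n m t hm ht1 ht2
  -- the double integral
  have s1 : Kn k r n m t = ∫ p in (univ : Set ℝ) ×ˢ Ioi (0 : ℝ), fn k r n m t p := by
    have e : (volume : Measure ℝ).prod (volume.restrict (Ioi (0 : ℝ))) =
        (volume : Measure (ℝ × ℝ)).restrict ((univ : Set ℝ) ×ˢ Ioi (0 : ℝ)) := by
      rw [Measure.volume_eq_prod, ← Measure.prod_restrict, Measure.restrict_univ]
    rw [← e, integral_prod_symm _ hI]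
    unfold Kn Wf
    refine setIntegral_congr_fun measurableSet_Ioi fun y hy => ?_
    simp only [fn]
    rw [integral_mul_const, integral_const_mul]
  -- integrability on the half plane
  have hI' : IntegrableOn (fn k r n m t) ((univ : Set ℝ) ×ˢ Ioi (0 : ℝ)) := by
    have e : (volume : Measure ℝ).prod (volume.restrict (Ioi (0 : ℝ))) =
        (volume : Measure (ℝ × ℝ)).restrict ((univ : Set ℝ) ×ˢ Ioi (0 : ℝ)) := by
      rw [Measure.volume_eq_prod, ← Measure.prod_restrict, Measure.restrict_univ]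
    rw [e] at hI
    exact hI
  have hms : MeasurableSet (Ioi (0 : ℝ) ×ˢ Ioo (0 : ℝ) Real.pi) :=
    measurableSet_Ioi.prod measurableSet_Ioo
  have hder : ∀ p ∈ Ioi (0 : ℝ) ×ˢ Ioo (0 : ℝ) Real.pi,
      HasFDerivWithinAt polarCoord.symm (fderivPolarCoordSymm p)
        (Ioi (0 : ℝ) ×ˢ Ioo (0 : ℝ) Real.pi) p :=
    fun p _ => (hasFDerivAt_polarCoord_symm p).hasFDerivWithinAt
  have hsub : Ioi (0 : ℝ) ×ˢ Ioo (0 : ℝ) Real.pi ⊆ polarCoord.target := by
    rintro ⟨ρ, φ⟩ ⟨hρ, hφ⟩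
    rw [polarCoord_target]
    exact ⟨hρ, lt_trans (by linarith [Real.pi_pos]) hφ.1, hφ.2⟩
  have hinj : InjOn polarCoord.symm (Ioi (0 : ℝ) ×ˢ Ioo (0 : ℝ) Real.pi) :=
    polarCoord.symm.injOn.mono (by rw [OpenPartialHomeomorph.symm_source]; exact hsub)
  have s2 := integral_image_eq_integral_abs_det_fderiv_smul volume hms hder hinj (fn k r n m t)
  have s3 := integrableOn_image_iff_integrableOn_abs_det_fderiv_smul volume hms hder hinj
    (fn k r n m t)
  rw [image_polar] at s2 s3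
  have hP : EqOn (fun p : ℝ × ℝ => |(fderivPolarCoordSymm p).det| •
        fn k r n m t (polarCoord.symm p)) (fun p : ℝ × ℝ =>
      (Complex.exp (-((2 * r + 1) * p.2 * Complex.I)) *
        (Real.sin p.2 : ℂ) ^ (t + k + 2 * r)) *
        ((p.1 : ℂ) ^ (((k : ℂ) + 1 - t) - 1) * Complex.exp (-(2 * Real.pi *
        (((n : ℂ) + m) * Real.sin p.2 + Complex.I * (((m : ℂ) - n) * Real.cos p.2)) * p.1))))
      (Ioi (0 : ℝ) ×ˢ Ioo (0 : ℝ) Real.pi) := by
    rintro ⟨ρ, φ⟩ ⟨hρ, hφ⟩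
    have hρ' : 0 < ρ := hρ
    simp only
    rw [det_fderivPolarCoordSymm, polarCoord_symm_apply]
    simp only
    rw [abs_of_pos hρ']
    exact fn_polar k r n m t hρ' hφ.1 hφ.2
  have hI2 := (s3.1 hI').congr_fun hP hms
  have e' : (volume : Measure (ℝ × ℝ)).restrict (Ioi (0 : ℝ) ×ˢ Ioo (0 : ℝ) Real.pi) =
      ((volume : Measure ℝ).restrict (Ioi (0 : ℝ))).prod
        ((volume : Measure ℝ).restrict (Ioo (0 : ℝ) Real.pi)) := by
    rw [Measure.volume_eq_prod, Measure.prod_restrict]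
  unfold IntegrableOn at hI2
  rw [e'] at hI2
  rw [s1, s2, setIntegral_congr_fun hms hP, e', integral_prod_symm _ hI2]
  unfold Kp
  rw [intervalIntegral.integral_of_le Real.pi_pos.le, integral_Ioc_eq_integral_Ioo,
    ← integral_const_mul]
  refine setIntegral_congr_fun measurableSet_Ioo fun φ hφ => ?_
  simp only
  rw [integral_const_mul]
  have hs : 0 < Real.sin φ := Real.sin_pos_of_pos_of_lt_pi hφ.1 hφ.2
  set A : ℂ := ((n : ℂ) + m) * Real.sin φ + Complex.I * (((m : ℂ) - n) * Real.cos φ) with hA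
  have hAre : A.re = (n + m) * Real.sin φ := by
    rw [hA]
    have : ((n : ℂ) + m) * Real.sin φ + Complex.I * (((m : ℂ) - n) * Real.cos φ) =
        (((n + m) * Real.sin φ : ℝ) : ℂ) + (((m - n) * Real.cos φ : ℝ) : ℂ) * Complex.I := by
      push_cast
      ring
    rw [this, Complex.add_re, Complex.ofReal_re, Complex.re_ofReal_mul, Complex.I_re, mul_zero,
      add_zero]
  have hA0 : 0 < A.re := by
    rw [hAre]
    positivity
  have hG := Pool.Agent.Lib.MP_973905_nt.F4.GammaC.gammaC (a := (k : ℂ) + 1 - t)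
    (r := 2 * Real.pi * A) (by simp; linarith) (by
      rw [show (2 * (Real.pi : ℂ) * A) = ((2 * Real.pi : ℝ) : ℂ) * A by push_cast; ring,
        Complex.re_ofReal_mul]
      positivity)
  rw [hG, pow_A hA0]
  rw [show -((k : ℂ) + 1 - t) = t - k - 1 by ring]
  ring

end RZ

end Pool.Agent.Lib.MP_7c08ba_nt
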