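import Pool.Agent.Lib.MP_7c08ba_nt.RZ.StR

set_option autoImplicit false

/-!
(R11) the integrals `JJ` of the sum over the cosets.
-/

namespace Pool.Agent.Lib.MP_7c08ba_nt

namespace RZ

open NumberField MeasureTheory UpperHalfPlane Set IsDedekindDomain
open scoped MatrixGroups ComplexConjugate nonZeroDivisors

namespace ScAux

lemma ee_add (z w : ℂ) : ee (z + w) = ee z * ee w := by
  unfold ee
  rw [← Complex.exp_add]
  congr 1
  ring

lemma ee_int (n : ℤ) : ee n = 1 := by
  unfold ee
  rw [show 2 * (Real.pi : ℂ) * Complex.I * n = n * (2 * Real.pi * Complex.I) by ring]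
  exact Complex.exp_int_mul_two_pi_mul_I n

lemma continuous_ee : Continuous ee := by
  unfold ee
  fun_prop

/-- The inner integral. -/
lemma inner_eq {D m : ℕ} {G : ℂ → ℂ} (hD : 1 ≤ D) (hG : ContinuousOn G {z | 0 < z.im}) {y : ℝ}
    (hy : 0 < y) :
    ∫ x in (0 : ℝ)..1, (∑ j ∈ Finset.range D, G ((x + y * Complex.I + j) / D)) *
      ee (-(m : ℂ) * (x - y * Complex.I)) =
    (D : ℂ) * ∫ x in (0 : ℝ)..1, G (x + ((D : ℝ)⁻¹ * y : ℝ) * Complex.I) *
      ee (-((m * D : ℕ) : ℂ) * (x - ((D : ℝ)⁻¹ * y : ℝ) * Complex.I)) := by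
  have hD0 : (0 : ℝ) < D := by exact_mod_cast hD
  have hDc : (D : ℂ) ≠ 0 := by exact_mod_cast hD0.ne'
  set f : ℝ → ℂ := fun x => G ((x + y * Complex.I) / D) * ee (-(m : ℂ) * (x - y * Complex.I))
    with hf
  have hcont : Continuous f := by
    have h1 : Continuous fun x : ℝ => ((x : ℂ) + y * Complex.I) / D := by fun_prop
    have h2 : Continuous fun x : ℝ => G (((x : ℂ) + y * Complex.I) / D) := by
      refine hG.comp_continuous h1 ?_
      intro x
      have : (((x : ℂ) + y * Complex.I) / D).im = y / D := by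
        rw [← Complex.ofReal_natCast, Complex.div_ofReal_im]
        simp
      rw [mem_ofPred_eq, this]
      positivity
    exact h2.mul (continuous_ee.comp (by fun_prop))
  have e1 : ∀ x : ℝ, (∑ j ∈ Finset.range D, G ((x + y * Complex.I + j) / D)) *
      ee (-(m : ℂ) * (x - y * Complex.I)) = ∑ j ∈ Finset.range D, f (x + j) := by
    intro x
    rw [Finset.sum_mul]
    refine Finset.sum_congr rfl fun j _ => ?_
    simp only [hf]
    have h3 : ee (-(m : ℂ) * (((x + j : ℝ) : ℂ) - y * Complex.I)) =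
        ee (-(m : ℂ) * (x - y * Complex.I)) := by
      have : -(m : ℂ) * (((x + j : ℝ) : ℂ) - y * Complex.I) =
          -(m : ℂ) * (x - y * Complex.I) + ((-((m * j : ℕ) : ℤ) : ℤ) : ℂ) := by
        push_cast
        ring
      rw [this, ee_add, ee_int, mul_one]
    rw [h3]
    congr 3
    push_cast
    ring
  have e2 : ∫ x in (0 : ℝ)..1, (∑ j ∈ Finset.range D, G ((x + y * Complex.I + j) / D)) *
      ee (-(m : ℂ) * (x - y * Complex.I)) = ∫ x in (0 : ℝ)..D, f x := by
    rw [intervalIntegral.integral_congr (fun x _ => e1 x), intervalIntegral.integral_finsetSum]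
    · have h4 := intervalIntegral.sum_integral_adjacent_intervals (μ := volume) (f := f)
        (a := fun k : ℕ => (k : ℝ)) (n := D) (fun k _ => hcont.intervalIntegrable _ _)
      simp only [Nat.cast_zero] at h4
      rw [← h4]
      refine Finset.sum_congr rfl fun j _ => ?_
      rw [intervalIntegral.integral_comp_add_right (fun x => f x)]
      push_cast
      rw [zero_add, add_comm 1 (j : ℝ)]
    · intro j _
      exact (hcont.comp (by fun_prop)).intervalIntegrable _ _
  rw [e2]
  have e3 := intervalIntegral.smul_integral_comp_mul_left (a := 0) (b := 1) f (D : ℝ)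
  rw [mul_zero, mul_one] at e3
  rw [← e3, Complex.real_smul, Complex.ofReal_natCast]
  congr 1
  refine intervalIntegral.integral_congr fun x _ => ?_
  simp only [hf]
  congr 2
  · push_cast
    field_simp
  · push_cast
    field_simp

end ScAux

open ScAux in
theorem stSc : StSc := by
  intro D w m G hD hw hG hint
  have hD0 : (0 : ℝ) < D := by exact_mod_cast hD
  have hDc : (D : ℂ) ≠ 0 := by exact_mod_cast hD0.ne'
  have hDi : (0 : ℝ) < (D : ℝ)⁻¹ := inv_pos.mpr hD0
  set H : ℝ → ℂ := fun y => (∫ x in (0 : ℝ)..1, G (x + y * Complex.I) *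
    ee (-((m * D : ℕ) : ℂ) * (x - y * Complex.I))) * (y : ℂ) ^ (w - 2) with hH
  have hK : ∀ y ∈ Ioi (0 : ℝ), (∫ x in (0 : ℝ)..1,
      (∑ j ∈ Finset.range D, G ((x + y * Complex.I + j) / D)) *
      ee (-(m : ℂ) * (x - y * Complex.I))) * (y : ℂ) ^ (w - 2) =
      (D : ℂ) ^ (w - 1) * H ((D : ℝ)⁻¹ * y) := by
    intro y hy
    rw [inner_eq hD hG hy]
    simp only [hH]
    have h1 : (y : ℂ) ^ (w - 2) = (D : ℂ) ^ (w - 2) * (((D : ℝ)⁻¹ * y : ℝ) : ℂ) ^ (w - 2) := by
      rw [← mul_pow]
      congr 1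
      push_cast
      field_simp
    have h2 : (D : ℂ) ^ (w - 1) = D * (D : ℂ) ^ (w - 2) := by
      rw [← pow_succ']
      congr 1
      omega
    rw [h1, h2]
    ring
  have hint' : IntegrableOn (fun y : ℝ => (D : ℂ) ^ (w - 1) * H ((D : ℝ)⁻¹ * y)) (Ioi 0) := by
    refine Integrable.const_mul ?_ _
    have := (integrableOn_Ioi_comp_mul_left_iff H 0 hDi).mpr (by rw [mul_zero]; exact hint)
    exact this
  refine ⟨?_, ?_⟩
  · exact hint'.congr_fun (fun y hy => (hK y hy).symm) measurableSet_Ioi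
  · unfold JJ
    rw [setIntegral_congr_fun measurableSet_Ioi hK, integral_const_mul,
      integral_comp_mul_left_Ioi H 0 hDi, mul_zero, inv_inv]
    rw [Complex.real_smul, ← mul_assoc]
    have h2 : (D : ℂ) ^ w = (D : ℂ) ^ (w - 1) * ((D : ℝ) : ℂ) := by
      rw [Complex.ofReal_natCast, ← pow_succ]
      congr 1
      omega
    rw [h2]

end RZ

end Pool.Agent.Lib.MP_7c08ba_nt
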