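import Pool.Agent.Lib.MP_7c08ba_nt.RZ.StG
import Pool.Agent.Lib.MP_7c08ba_nt.RZ.EisAt

set_option autoImplicit false

/-! (G16) the Eisenstein series at `s = -r`, for odd fundamental discriminants. -/

namespace Pool.Agent.Lib.MP_7c08ba_nt

namespace RZ

namespace EisAtD

open Complex Filter Topology Finset EisAt
open UpperHalfPlane hiding I
open scoped Nat

section gauss

variable {D : ℕ} [NeZero D] {χ : DirichletCharacter ℂ D}

theorem jac_neg_one (hD : OddD D) : jacobiSym (-1) D = -1 := by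
  have hodd : Odd D := by
    rw [Nat.odd_iff]
    have := hD.2.1
    omega
  rw [jacobiSym.at_neg_one hodd, ZMod.χ₄_nat_three_mod_four hD.2.1]

/-- the character is primitive -/
theorem prim (hD : OddD D) (hχ : ∀ n : ℤ, χ n = (jacobiSym n D : ℂ)) : χ.IsPrimitive := by
  rw [DirichletCharacter.isPrimitive_def]
  by_contra hne
  obtain ⟨hsq, hmod, -⟩ := hD
  set d := χ.conductor with hd
  have hfac : χ.FactorsThrough d := DirichletCharacter.factorsThrough_conductor χ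
  obtain ⟨e, he⟩ := hfac.dvd
  have hD0 : D ≠ 0 := NeZero.ne D
  have he1 : e ≠ 1 := by
    rintro rfl
    exact hne (by rw [mul_one] at he; exact he.symm)
  obtain ⟨p, hp, hpe⟩ := Nat.exists_prime_and_dvd he1
  obtain ⟨e', rfl⟩ := hpe
  have : Fact p.Prime := ⟨hp⟩
  set m := d * e' with hm
  have hDm : D = p * m := by rw [he, hm]; ring
  have hm0 : m ≠ 0 := by
    intro h
    rw [h, mul_zero] at hDm
    exact hD0 hDm
  have hcop : Nat.Coprime p m := by
    rw [hDm] at hsq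
    exact (Nat.squarefree_mul_iff.1 hsq).1
  have hp2 : p ≠ 2 := by
    rintro rfl
    omega
  have hchar : ringChar (ZMod p) ≠ 2 := by
    rw [ZMod.ringChar_zmod_n]
    exact hp2
  obtain ⟨a, ha⟩ := FiniteField.exists_nonsquare hchar
  obtain ⟨n, hn1, hn2⟩ := Nat.chineseRemainder hcop a.val 1
  have hna : ((n : ℤ) : ZMod p) = a := by
    have h1 := (ZMod.natCast_eq_natCast_iff n a.val p).2 hn1
    rw [Int.cast_natCast, h1, ZMod.natCast_zmod_val]
  have hJp : jacobiSym (n : ℤ) p = -1 := by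
    rw [← jacobiSym.legendreSym.to_jacobiSym, legendreSym.eq_neg_one_iff, hna]
    exact ha
  have : NeZero m := ⟨hm0⟩
  have : NeZero p := ⟨hp.ne_zero⟩
  have hJm : jacobiSym (n : ℤ) m = 1 := by
    have h1 : ((n : ℤ)) % (m : ℤ) = 1 % (m : ℤ) := by
      have : n % m = 1 % m := hn2
      exact_mod_cast congrArg (Nat.cast : ℕ → ℤ) this
    rw [jacobiSym.mod_left' h1]
    exact jacobiSym.one_left m
  have hJD : jacobiSym (n : ℤ) D = -1 := by
    rw [hDm, jacobiSym.mul_right, hJp, hJm]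
    norm_num
  have hcD : IsCoprime (n : ℤ) (D : ℤ) := by
    rw [Int.isCoprime_iff_gcd_eq_one]
    by_contra hg
    have h0 := jacobiSym.eq_zero_iff_not_coprime (a := (n : ℤ)) (b := D)
    rw [hJD] at h0
    exact absurd (h0.2 hg) (by norm_num)
  have h1 := hχ (n : ℤ)
  rw [hJD] at h1
  have h2 : χ ((n : ℤ) : ZMod D) = 1 := by
    have h3 := hfac.eq_changeLevel
    rw [h3, DirichletCharacter.changeLevel_eq_cast_of_dvd' hfac.χ₀ hfac.dvd hcD]
    have h4 : ((n : ℤ) : ZMod d) = 1 := by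
      have h5 : n ≡ 1 [MOD d] := hn2.of_mul_right e'
      rw [Int.cast_natCast, (ZMod.natCast_eq_natCast_iff n 1 d).2 h5, Nat.cast_one]
    rw [h4, map_one]
  rw [h2] at h1
  norm_num at h1

theorem inv_eq (hχ : ∀ n : ℤ, χ n = (jacobiSym n D : ℂ)) : χ⁻¹ = χ := (quad hχ).inv

theorem chi_neg (hD : OddD D) (hχ : ∀ n : ℤ, χ n = (jacobiSym n D : ℂ)) (k : ZMod D) :
    χ (-k) = -χ k := by
  have h2 := hχ (-1)
  rw [jac_neg_one hD] at h2
  have h3 : ((-1 : ℤ) : ZMod D) = -1 := by simp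
  rw [h3] at h2
  rw [← neg_one_mul, map_mul, h2]
  push_cast
  ring

open ZMod in
theorem gs_sq (hD : OddD D) (hχ : ∀ n : ℤ, χ n = (jacobiSym n D : ℂ)) :
    gs D χ ^ 2 = -(D : ℂ) := by
  have h1 : ∀ k, ZMod.dft (χ : ZMod D → ℂ) k = -gs D χ * χ k := by
    intro k
    have h := (prim hD hχ).fourierTransform_eq_inv_mul_gaussSum k
    rw [inv_eq hχ, chi_neg hD hχ] at h
    refine Eq.trans h ?_
    unfold gs
    ring
  have h2 : ZMod.dft (χ : ZMod D → ℂ) = fun k => -gs D χ * χ k := funext h1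
  have h3 := ZMod.dft_dft (χ : ZMod D → ℂ)
  rw [h2] at h3
  have h4 := congrFun h3 1
  rw [ZMod.dft_const_mul (-gs D χ) (χ : ZMod D → ℂ)] at h4
  simp only [h1, chi_neg hD hχ, map_one, smul_eq_mul] at h4
  linear_combination h4

theorem gauss_shift (hD : OddD D) (hχ : ∀ n : ℤ, χ n = (jacobiSym n D : ℂ)) (d : ℕ) :
    ∑ a ∈ range D, χ a * ee (d * (a / D)) = χ d * gs D χ := by
  have h2 : ∑ a ∈ range D, χ a * ee (d * (a / D)) =
      ∑ a : ZMod D, χ a * ZMod.stdAddChar (N := D) (d * a) := by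
    rw [← sum_range_zmod]
    refine Finset.sum_congr rfl fun a _ => ?_
    have h3 := ZMod.stdAddChar_coe (N := D) ((d * a : ℕ) : ℤ)
    have h4 : (((d * a : ℕ) : ℤ) : ZMod D) = (d : ZMod D) * a := by push_cast; rfl
    rw [← h4, h3]
    unfold ee
    congr 2
    push_cast
    ring
  rw [h2]
  have h5 := gaussSum_mulShift_of_isPrimitive (ZMod.stdAddChar (N := D)) (prim hD hχ) (d : ZMod D)
  rw [inv_eq hχ] at h5
  exact h5

theorem exists_eps (hD : OddD D) (hχ : ∀ n : ℤ, χ n = (jacobiSym n D : ℂ)) :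
    ∃ ε : ℂ, (ε = 1 ∨ ε = -1) ∧ gs D χ = ε * (I * Real.sqrt D) := by
  have hq : (0 : ℝ) < D := by exact_mod_cast Nat.pos_of_ne_zero (NeZero.ne D)
  have h3 : ((Real.sqrt D : ℝ) : ℂ) ^ 2 = D := by
    rw [← Complex.ofReal_pow, Real.sq_sqrt hq.le]
    simp
  have h4 : (I * Real.sqrt D) ^ 2 = gs D χ ^ 2 := by
    rw [gs_sq hD hχ, mul_pow, h3, I_sq]
    ring
  rcases sq_eq_sq_iff_eq_or_eq_neg.1 h4 with h5 | h5
  · exact ⟨1, Or.inl rfl, by rw [one_mul, h5]⟩
  · exact ⟨-1, Or.inr rfl, by rw [h5]; ring⟩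

theorem sum_chi (hD : OddD D) (hχ : ∀ n : ℤ, χ n = (jacobiSym n D : ℂ)) :
    ∑ a ∈ range D, χ a = 0 := by
  rw [sum_range_zmod D (fun a => χ a)]
  exact MulChar.sum_eq_zero_of_ne_one (ne_one hχ (jac_neg_one hD))

theorem sum_Lj (hD : OddD D) (hχ : ∀ n : ℤ, χ n = (jacobiSym n D : ℂ)) (j : ℕ) {μ : ℂ}
    (hμ : 0 < μ.im) :
    ∑ a ∈ range D, χ a * Lj j (μ + a / D) =
      (-2 * Real.pi * I) ^ (j + 1) / (j ! : ℂ) * gs D χ *
        ∑' d : ℕ, χ ((d + 1 : ℕ) : ZMod D) * ((d + 1 : ℕ) : ℂ) ^ j * ee ((d + 1 : ℕ) * μ) := by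
  have him : ∀ a : ℕ, 0 < (μ + a / D).im := by
    intro a
    have : ((a : ℂ) / D).im = 0 := by
      have : (a : ℂ) / D = ((a / D : ℝ) : ℂ) := by push_cast; rfl
      rw [this, Complex.ofReal_im]
    rw [Complex.add_im, this, add_zero]
    exact hμ
  have h2 : ∀ a : ℕ, χ a * Lj j (μ + a / D) = χ a * c0 j +
      ∑' d : ℕ, (-2 * Real.pi * I) ^ (j + 1) / (j ! : ℂ) * (((d + 1 : ℕ) : ℂ) ^ j *
        ee ((d + 1 : ℕ) * μ) * (χ a * ee ((d + 1 : ℕ) * (a / D)))) := by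
    intro a
    unfold Lj
    rw [mul_add, ← mul_assoc, ← tsum_mul_left]
    congr 1
    refine tsum_congr fun d => ?_
    have : ee ((d + 1 : ℕ) * (μ + a / D)) = ee ((d + 1 : ℕ) * μ) * ee ((d + 1 : ℕ) * (a / D)) := by
      unfold ee
      rw [← Complex.exp_add]
      congr 1
      ring
    rw [this]
    ring
  have hsum : ∀ a : ℕ, Summable fun d : ℕ => (-2 * Real.pi * I) ^ (j + 1) / (j ! : ℂ) *
      (((d + 1 : ℕ) : ℂ) ^ j * ee ((d + 1 : ℕ) * μ) * (χ a * ee ((d + 1 : ℕ) * (a / D)))) := by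
    intro a
    refine (((summable_ee j (him a)).mul_left (χ a)).mul_left
      ((-2 * Real.pi * I) ^ (j + 1) / (j ! : ℂ))).congr fun d => ?_
    have : ee ((d + 1 : ℕ) * (μ + a / D)) = ee ((d + 1 : ℕ) * μ) * ee ((d + 1 : ℕ) * (a / D)) := by
      unfold ee
      rw [← Complex.exp_add]
      congr 1
      ring
    rw [this]
    ring
  rw [Finset.sum_congr rfl fun a _ => h2 a, Finset.sum_add_distrib, ← Finset.sum_mul,
    sum_chi hD hχ, zero_mul, zero_add, ← Summable.tsum_finsetSum fun a _ => hsum a,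
    ← tsum_mul_left]
  refine tsum_congr fun d => ?_
  rw [← Finset.mul_sum, ← Finset.mul_sum, gauss_shift hD hχ (d + 1)]
  ring

theorem fiber (hD : OddD D) (hχ : ∀ n : ℤ, χ n = (jacobiSym n D : ℂ)) (r : ℕ) {μ : ℂ}
    (hμ : 0 < μ.im) (hs : Summable fun n : ℤ => dE D χ r (-r) (D * (μ + n))) :
    ∑' n : ℤ, dE D χ r (-r) (D * (μ + n)) = (-2 * Real.pi * I) * gs D χ / D *
      ∑' d : ℕ, χ ((d + 1 : ℕ) : ZMod D) * lag r (4 * Real.pi * (d + 1 : ℕ) * μ.im) *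
        ee ((d + 1 : ℕ) * μ) := by
  have h2 := hs.hasSum.nat_add_neg_add_one.tendsto_sum_nat
  have h3 : Tendsto (sy fun n => dE D χ r (-r) (D * (μ + n))) atTop
      (𝓝 (∑' n : ℤ, dE D χ r (-r) (D * (μ + n)))) := by
    refine h2.congr fun N => ?_
    unfold sy
    rfl
  have h4 := tendsto_nhds_unique h3 (tendsto_dE (χ := χ) r hμ)
  rw [h4]
  have h5 : ∑ a ∈ range D, χ a * ∑ j ∈ range (r + 1), Kj D r j μ.im * Lj j (μ + a / D) =
      ∑ j ∈ range (r + 1), Kj D r j μ.im * ∑ a ∈ range D, χ a * Lj j (μ + a / D) := by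
    simp only [Finset.mul_sum]
    rw [Finset.sum_comm]
    refine Finset.sum_congr rfl fun j _ => Finset.sum_congr rfl fun a _ => ?_
    ring
  rw [h5]
  simp only [sum_Lj hD hχ _ hμ]
  have h6 : ∑' d : ℕ, χ ((d + 1 : ℕ) : ZMod D) * lag r (4 * Real.pi * (d + 1 : ℕ) * μ.im) *
        ee ((d + 1 : ℕ) * μ) = ∑ j ∈ range (r + 1), (r.choose j : ℂ) *
        (-(4 * Real.pi * μ.im)) ^ j / (j ! : ℂ) *
        ∑' d : ℕ, χ ((d + 1 : ℕ) : ZMod D) * ((d + 1 : ℕ) : ℂ) ^ j * ee ((d + 1 : ℕ) * μ) := by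
    simp only [← tsum_mul_left]
    rw [← Summable.tsum_finsetSum fun j _ => (summable_chi_ee j hμ).mul_left _]
    refine tsum_congr fun d => ?_
    unfold lag
    rw [Finset.mul_sum, Finset.sum_mul]
    refine Finset.sum_congr rfl fun j _ => ?_
    have : (-(4 * (Real.pi : ℂ) * (d + 1 : ℕ) * μ.im)) ^ j =
        (-(4 * Real.pi * μ.im)) ^ j * ((d + 1 : ℕ) : ℂ) ^ j := by
      rw [← mul_pow]
      congr 1
      ring
    rw [this]
    ring
  rw [h6, Finset.mul_sum]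
  refine Finset.sum_congr rfl fun j _ => ?_
  unfold Kj
  have : (-2 * I * (μ.im : ℂ)) ^ j * (-2 * Real.pi * I) ^ (j + 1) =
      (-2 * Real.pi * I) * (-(4 * Real.pi * μ.im)) ^ j := by
    rw [pow_succ, ← mul_assoc, ← mul_pow, mul_comm]
    congr 2
    linear_combination (4 * Real.pi * (μ.im : ℂ)) * I_sq
  calc _ = (r.choose j : ℂ) * ((-2 * I * (μ.im : ℂ)) ^ j * (-2 * Real.pi * I) ^ (j + 1)) /
      (j ! : ℂ) * (gs D χ / D) * ∑' d : ℕ, χ ((d + 1 : ℕ) : ZMod D) * ((d + 1 : ℕ) : ℂ) ^ j *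
        ee ((d + 1 : ℕ) * μ) := by ring
    _ = _ := by rw [this]; ring

end gauss

end EisAtD

open EisAtD in
open EisAt (gs summable_T) in
/-- (G16) the Eisenstein series at `s = -r` -/
theorem stEisAtD (h : StEisAD) : StEisAtD := by
  intro D _ χ hD hχ
  obtain ⟨ε, hε, hg⟩ := exists_eps hD hχ
  refine ⟨ε, hε, fun r u hu => ?_⟩
  obtain ⟨-, hA, -, -⟩ := h D inferInstance χ r hD hχ
  have hs := (hA (-r) u (by simp) hu).of_norm
  have hDpos : 0 < D := Nat.pos_of_ne_zero (NeZero.ne D)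
  have hqs : 0 < Real.sqrt D := Real.sqrt_pos.2 (by exact_mod_cast hDpos)
  have hq0 : (D : ℂ) ≠ 0 := by exact_mod_cast NeZero.ne D
  have e1 : (u.im : ℂ) ^ (-(r : ℂ)) = ((u.im : ℂ) ^ r)⁻¹ := by
    rw [Complex.cpow_neg, Complex.cpow_natCast]
  have e2 : (2 * (r : ℂ) + 1 + 2 * -(r : ℂ)) = 1 := by ring
  have e3 : ∑' p : ℕ × ℤ, dE D χ r (-r) (D * (((p.1 : ℂ) + 1) * u + p.2)) =
      ε * (2 * Real.pi / Real.sqrt D) * ∑' p : ℕ × ℕ, χ ((p.2 + 1 : ℕ) : ℤ) *
          lag r (4 * Real.pi * ((p.1 + 1 : ℕ) * (p.2 + 1 : ℕ)) * u.im) *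
          ee ((p.1 + 1 : ℕ) * (p.2 + 1 : ℕ) * u) := by
    have hT := summable_T χ r hu
    have hT' : (fun p : ℕ × ℕ => χ ((p.2 + 1 : ℕ) : ℤ) *
          lag r (4 * Real.pi * ((p.1 + 1 : ℕ) * (p.2 + 1 : ℕ)) * u.im) *
          ee ((p.1 + 1 : ℕ) * (p.2 + 1 : ℕ) * u)) = fun p : ℕ × ℕ => χ ((p.2 + 1 : ℕ) : ZMod D) *
      lag r (4 * Real.pi * ((p.1 + 1 : ℕ) * (p.2 + 1 : ℕ)) * u.im) *
        ee ((p.1 + 1 : ℕ) * (p.2 + 1 : ℕ) * u) := by
      funext p
      rw [Int.cast_natCast]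
    rw [hT', hs.tsum_prod, hT.tsum_prod, ← tsum_mul_left]
    refine tsum_congr fun m => ?_
    have him : (((m : ℂ) + 1) * u).im = (m + 1) * u.im := by
      have : ((m : ℂ) + 1) = ((m + 1 : ℝ) : ℂ) := by push_cast; rfl
      rw [this, Complex.im_ofReal_mul]
    have hμ : 0 < (((m : ℂ) + 1) * u).im := by
      rw [him]
      positivity
    have hf := fiber hD hχ r hμ (hs.prod_factor m)
    refine Eq.trans hf ?_
    have e4 : (-2 * Real.pi * Complex.I) * gs D χ / D = ε * (2 * Real.pi / Real.sqrt D) := by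
      rw [hg]
      have h3 : ((Real.sqrt D : ℝ) : ℂ) * ((Real.sqrt D : ℝ) : ℂ) = D := by
        rw [← Complex.ofReal_mul, Real.mul_self_sqrt (by positivity)]
        simp
      have h4 : ((Real.sqrt D : ℝ) : ℂ) ≠ 0 := by exact_mod_cast hqs.ne'
      rw [← h3]
      field_simp
      linear_combination (-ε) * Complex.I_sq
    rw [e4]
    congr 1
    refine tsum_congr fun d => ?_
    rw [him]
    congr 1
    · congr 1
      congr 1
      push_cast
      ring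
    · congr 1
      push_cast
      ring
  unfold eis
  rw [e1, e2, e3]

end RZ

end Pool.Agent.Lib.MP_7c08ba_nt
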