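import Pool.Agent.Lib.MP_7c08ba_nt.RZ.StR
import Pool.Agent.Lib.MP_7c08ba_nt.RZ.EisAtD
import Pool.Agent.Lib.MP_7c08ba_nt.RZ.EisThD

set_option autoImplicit false

/-!
(R12) the sign of the quadratic Gauss sum, from the theta series, and the positivity of the
value at one of the `L`-function.
-/

namespace Pool.Agent.Lib.MP_7c08ba_nt

namespace RZ

open NumberField MeasureTheory UpperHalfPlane Set
open scoped MatrixGroups ComplexConjugate nonZeroDivisors

namespace SgGAux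

open EisAtD in
open EisAt (gs summable_T) in
/-- the Eisenstein series at `s = -r` with the sign of the Gauss sum -/
theorem eis_at (h : StEisAD) {D : ℕ} [NeZero D] {χ : DirichletCharacter ℂ D} (hD : OddD D)
    (hχ : ∀ n : ℤ, χ n = (jacobiSym n D : ℂ)) {ε : ℂ} (hg : gs D χ = ε * (Complex.I * Real.sqrt D))
    (r : ℕ) (u : ℂ) (hu : 0 < u.im) :
      eis D χ r (-r) u = ((u.im : ℂ) ^ r)⁻¹ * (DirichletCharacter.LFunction χ 1 +
        ε * (2 * Real.pi / Real.sqrt D) * ∑' p : ℕ × ℕ, χ ((p.2 + 1 : ℕ) : ℤ) *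
          lag r (4 * Real.pi * ((p.1 + 1 : ℕ) * (p.2 + 1 : ℕ)) * u.im) *
          ee ((p.1 + 1 : ℕ) * (p.2 + 1 : ℕ) * u)) := by
  obtain ⟨-, hA, -, -⟩ := h D inferInstance χ r hD hχ
  have hs := (hA (-r) u (by simp) hu).of_norm
  have hDpos : 0 < D := Nat.pos_of_ne_zero (NeZero.ne D)
  have hqs : 0 < Real.sqrt D := Real.sqrt_pos.2 (by exact_mod_cast hDpos)
  have hq0 : (D : ℂ) ≠ 0 := by exact_mod_cast NeZero.ne D
  have e1 : (u.im : ℂ) ^ (-(r : ℂ)) = ((u.im : ℂ) ^ r)⁻¹ := by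
    rw [Complex.cpow_neg, Complex.cpow_natCast]
  have e2 : (2 * (r : ℂ) + 1 + 2 * -(r : ℂ)) = 1 := by ring
  have e3 : ∑' p : ℕ × ℤ, dE D χ r (-r) (D * (((p.1 : ℂ) + 1) * u + p.2)) =
      ε * (2 * Real.pi / Real.sqrt D) * ∑' p : ℕ × ℕ, χ ((p.2 + 1 : ℕ) : ℤ) *
          lag r (4 * Real.pi * ((p.1 + 1 : ℕ) * (p.2 + 1 : ℕ)) * u.im) *
          ee ((p.1 + 1 : ℕ) * (p.2 + 1 : ℕ) * u) := by
    have hT := summable_T χ r hu
    have hT' : (fun p : ℕ × ℕ => χ ((p.2 + 1 : ℕ) : ℤ) *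
          lag r (4 * Real.pi * ((p.1 + 1 : ℕ) * (p.2 + 1 : ℕ)) * u.im) *
          ee ((p.1 + 1 : ℕ) * (p.2 + 1 : ℕ) * u)) = fun p : ℕ × ℕ => χ ((p.2 + 1 : ℕ) : ZMod D) *
      lag r (4 * Real.pi * ((p.1 + 1 : ℕ) * (p.2 + 1 : ℕ)) * u.im) *
        ee ((p.1 + 1 : ℕ) * (p.2 + 1 : ℕ) * u) := by
      funext p
      rw [Int.cast_natCast]
    rw [hT', hs.tsum_prod, hT.tsum_prod, ← tsum_mul_left]
    refine tsum_congr fun m => ?_
    have him : (((m : ℂ) + 1) * u).im = (m + 1) * u.im := by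
      have : ((m : ℂ) + 1) = ((m + 1 : ℝ) : ℂ) := by push_cast; rfl
      rw [this, Complex.im_ofReal_mul]
    have hμ : 0 < (((m : ℂ) + 1) * u).im := by
      rw [him]
      positivity
    have hf := fiber hD hχ r hμ (hs.prod_factor m)
    refine Eq.trans hf ?_
    have e4 : (-2 * Real.pi * Complex.I) * gs D χ / D = ε * (2 * Real.pi / Real.sqrt D) := by
      rw [hg]
      have h3 : ((Real.sqrt D : ℝ) : ℂ) * ((Real.sqrt D : ℝ) : ℂ) = D := by
        rw [← Complex.ofReal_mul, Real.mul_self_sqrt (by positivity)]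
        simp
      have h4 : ((Real.sqrt D : ℝ) : ℂ) ≠ 0 := by exact_mod_cast hqs.ne'
      rw [← h3]
      field_simp
      linear_combination (-ε) * Complex.I_sq
    rw [e4]
    congr 1
    refine tsum_congr fun d => ?_
    rw [him]
    congr 1
    · congr 1
      congr 1
      push_cast
      ring
    · congr 1
      push_cast
      ring
  unfold eis
  rw [e1, e2, e3]

open EisThAux EisThDAux in
/-- the value at one with the sign of the Gauss sum -/
theorem L_one (h1 : StEisAD) (h2 : StEisLawD) (h3 : StThlD) (h4 : StIdSumD)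
    (h5 : StCountD) (h6 : StBasD) (h7 : StThBD) {D : ℕ} [NeZero D] {F : Type} [Field F]
    [NumberField F] {s : 𝓞 F} {σ : F →+* ℂ} {χ : DirichletCharacter ℂ D} {cj : 𝓞 F ≃+* 𝓞 F}
    (c : Reps σ) (hd : DatD D s σ χ cj) {ε : ℂ}
    (hg : EisAt.gs D χ = ε * (Complex.I * Real.sqrt D)) :
    DirichletCharacter.LFunction χ 1 =
      ε * (Real.pi / Real.sqrt D) * (Fintype.card (ClassGroup (𝓞 F)) : ℂ) := by
  have hD3 : 3 < D := hd.odd.2.2
  have hE := fun r u hu => eis_at h1 hd.odd hd.chi hg r u hu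
  -- the number of ideals
  have hcount : ∀ n : ℕ+, (Nat.card {b : Ideal (𝓞 F) // Ideal.absNorm b = n} : ℂ) =
      ∑ d ∈ (n : ℕ).divisors, χ ((d : ℕ) : ℤ) := by
    intro n
    have h := h5 D F _ _ s σ χ cj hd n n.pos
    have h' := congrArg (fun z : ℤ => (z : ℂ)) h
    simp only [Int.cast_natCast, Int.cast_sum] at h'
    rw [h']
    refine Finset.sum_congr rfl fun d _ => ?_
    exact (hd.chi d).symm
  -- the double sum as a sum over ideals
  have hdouble : ∀ (r : ℕ) (u : ℂ), 0 < u.im →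
      ∑' p : ℕ × ℕ, χ ((p.2 + 1 : ℕ) : ℤ) *
          lag r (4 * Real.pi * ((p.1 + 1 : ℕ) * (p.2 + 1 : ℕ)) * u.im) *
          ee ((p.1 + 1 : ℕ) * (p.2 + 1 : ℕ) * u) =
        ∑' b : (Ideal (𝓞 F))⁰, G r u (Ideal.absNorm (b : Ideal (𝓞 F)) : ℂ) := by
    intro r u hu
    rw [tsum_ideals (fun n => G r u (n : ℂ)) (sum_thl c h4 h6 h7 hd r hu).1]
    have hn : ∀ n : ℕ+, (Nat.card {b : Ideal (𝓞 F) // Ideal.absNorm b = n} : ℂ) *
        G r u ((n : ℕ) : ℂ) = (∑ d ∈ (n : ℕ).divisors, χ ((d : ℕ) : ℤ)) * G r u ((n : ℕ) : ℂ) :=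
      fun n => by rw [hcount n]
    rw [tsum_congr hn,
      ← tsum_pairs r hu (fun n => χ ((n : ℕ) : ℤ)) (fun n => χ.norm_le_one _)]
    refine tsum_congr fun p => ?_
    unfold G
    push_cast
    ring
  -- the constant
  set κ : ℂ := DirichletCharacter.LFunction χ 1 -
    ε * (Real.pi / Real.sqrt D) * (Fintype.card (ClassGroup (𝓞 F)) : ℂ) with hκ
  have hkey : ∀ (r : ℕ) (u : ℂ), 0 < u.im →
      eis D χ r (-r) u - ε * (Real.pi / Real.sqrt D) *
        ∑ B : ClassGroup (𝓞 F), thl σ (c.R B : Ideal (𝓞 F)) r u =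
          ((u.im : ℂ) ^ r)⁻¹ * κ := by
    intro r u hu
    rw [hE r u hu, (sum_thl c h4 h6 h7 hd r hu).2, hdouble r u hu, hκ]
    ring
  have hκ0 : κ = 0 := by
    have hR : ∀ A, (c.R A : Ideal (𝓞 F)) ≠ ⊥ := fun A => nonZeroDivisors.coe_ne_zero (c.R A)
    -- the matrix (1 0; D 1)
    let g : SL(2, ℤ) := ⟨!![1, 0; (D : ℤ), 1], by simp [Matrix.det_fin_two]⟩
    have g00 : g 0 0 = 1 := rfl
    have g01 : g 0 1 = 0 := rfl
    have g10 : g 1 0 = (D : ℤ) := rfl
    have g11 : g 1 1 = 1 := rfl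
    have hI : 0 < Complex.I.im := by simp
    set u' : ℂ := (((g 0 0 : ℤ) : ℂ) * Complex.I + (g 0 1 : ℤ)) /
      (((g 1 0 : ℤ) : ℂ) * Complex.I + (g 1 1 : ℤ)) with hu'
    have hden : ((D : ℂ) * Complex.I + 1) ≠ 0 := by
      intro h
      have := congrArg Complex.re h
      simp at this
    have hu'im : 0 < u'.im := by
      have e : u' = Complex.I / ((D : ℂ) * Complex.I + 1) := by
        rw [hu', g00, g01, g10, g11]; push_cast; ring
      rw [e, Complex.div_im]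
      have : 0 < Complex.normSq ((D : ℂ) * Complex.I + 1) := Complex.normSq_pos.2 hden
      simp
      positivity
    have a1 := h2 D inferInstance χ 0 hd.odd hd.chi 0 (by simp) g Complex.I hI
      (by rw [g10])
    have a2 : ∀ B, thl σ (c.R B : Ideal (𝓞 F)) 0 u' = χ (g 1 1 : ℤ) *
        (((g 1 0 : ℤ) : ℂ) * Complex.I + (g 1 1 : ℤ)) ^ (2 * 0 + 1) *
          thl σ (c.R B : Ideal (𝓞 F)) 0 Complex.I :=
      fun B => (h3 D F _ _ s σ χ cj hd).1 (c.R B : Ideal (𝓞 F)) 0 (hR B) g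
        Complex.I hI (by rw [g10])
    have b1 := hkey 0 Complex.I hI
    have b2 := hkey 0 u' hu'im
    have hc1 : χ ((g 1 1 : ℤ) : ℤ) = 1 := by rw [g11]; simp
    rw [← hu'] at a1
    have z0 : (-((0 : ℕ) : ℂ)) = 0 := by simp
    rw [z0] at b1 b2
    rw [a1, Finset.sum_congr rfl fun B _ => a2 B, hc1] at b2
    rw [← Finset.mul_sum] at b2
    simp only [pow_zero, inv_one, one_mul, mul_zero, zero_add, pow_one] at b1 b2
    rw [g10, g11] at b2
    push_cast at b2
    have : (D : ℂ) * Complex.I * κ = 0 := by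
      linear_combination b2 - ((D : ℂ) * Complex.I + 1) * b1
    rcases mul_eq_zero.1 this with h | h
    · exfalso
      rcases mul_eq_zero.1 h with h | h
      · have : D ≠ 0 := by omega
        exact this (by exact_mod_cast h)
      · exact Complex.I_ne_zero h
    · exact h
  exact sub_eq_zero.1 hκ0

/-- for real `x > 1` the value of the `L`-function is real and positive -/
theorem L_pos {D : ℕ} [NeZero D] {χ : DirichletCharacter ℂ D}
    (hχ : ∀ n : ℤ, χ n = (jacobiSym n D : ℂ)) {x : ℝ} (hx : 1 < x) :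
    ∃ y : ℝ, 0 < y ∧ DirichletCharacter.LFunction χ x = y := by
  have hs : 1 < (x : ℂ).re := by simpa using hx
  rw [DirichletCharacter.LFunction_eq_LSeries χ hs,
    ← DirichletCharacter.LSeries_eulerProduct_exp_log χ hs]
  have key : ∀ p : Nat.Primes, -Complex.log (1 - χ ((p : ℕ) : ZMod D) * ((p : ℕ) : ℂ) ^ (-(x : ℂ))) =
      ((-Real.log (1 - (jacobiSym (p : ℕ) D : ℝ) * ((p : ℕ) : ℝ) ^ (-x)) : ℝ) : ℂ) := by
    intro p
    have hp : (2 : ℝ) ≤ ((p : ℕ) : ℝ) := by exact_mod_cast p.2.two_le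
    have hp0 : (0 : ℝ) < ((p : ℕ) : ℝ) := by linarith
    have h1 : ((p : ℕ) : ℂ) ^ (-(x : ℂ)) = ((((p : ℕ) : ℝ) ^ (-x) : ℝ) : ℂ) := by
      rw [Complex.ofReal_cpow hp0.le]
      push_cast
      rfl
    have h2 : χ ((p : ℕ) : ZMod D) = (((jacobiSym (p : ℕ) D : ℤ) : ℝ) : ℂ) := by
      have h := hχ ((p : ℕ) : ℤ)
      rw [Int.cast_natCast] at h
      rw [h]
      push_cast
      rfl
    have h3 : ((p : ℕ) : ℝ) ^ (-x) < 1 :=
      Real.rpow_lt_one_of_one_lt_of_neg (by linarith) (by linarith)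
    have h4 : 0 < ((p : ℕ) : ℝ) ^ (-x) := Real.rpow_pos_of_pos hp0 _
    have h5 : (0 : ℝ) ≤ 1 - (jacobiSym (p : ℕ) D : ℝ) * ((p : ℕ) : ℝ) ^ (-x) := by
      rcases jacobiSym.trichotomy ((p : ℕ) : ℤ) D with h | h | h <;> rw [h] <;> push_cast <;>
        nlinarith
    rw [h1, h2, ← Complex.ofReal_mul, ← Complex.ofReal_one, ← Complex.ofReal_sub,
      ← Complex.ofReal_log h5, Complex.ofReal_neg]
  rw [tsum_congr key, ← Complex.ofReal_tsum, ← Complex.ofReal_exp]
  exact ⟨_, Real.exp_pos _, rfl⟩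

/-- the value at one is real and positive -/
theorem L_one_pos {D : ℕ} [NeZero D] {χ : DirichletCharacter ℂ D} (hD : OddD D)
    (hχ : ∀ n : ℤ, χ n = (jacobiSym n D : ℂ)) :
    ∃ y : ℝ, 0 < y ∧ DirichletCharacter.LFunction χ 1 = y := by
  have hne : χ ≠ 1 := EisAt.ne_one hχ (EisAtD.jac_neg_one hD)
  have hc : Continuous fun x : ℝ => DirichletCharacter.LFunction χ (x : ℂ) :=
    (DirichletCharacter.differentiable_LFunction hne).continuous.comp Complex.continuous_ofReal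
  have hcl : IsClosed {z : ℂ | z.im = 0 ∧ 0 ≤ z.re} :=
    (isClosed_eq Complex.continuous_im continuous_const).inter
      (isClosed_le continuous_const Complex.continuous_re)
  have ht : Filter.Tendsto (fun x : ℝ => DirichletCharacter.LFunction χ (x : ℂ))
      (nhdsWithin (1 : ℝ) (Ioi 1)) (nhds (DirichletCharacter.LFunction χ ((1 : ℝ) : ℂ))) :=
    (hc.tendsto 1).mono_left nhdsWithin_le_nhds
  have hm := hcl.mem_of_tendsto ht (by
    filter_upwards [self_mem_nhdsWithin] with x hx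
    obtain ⟨y, hy, he⟩ := L_pos hχ hx
    rw [he]
    exact ⟨by simp, by simpa using hy.le⟩)
  rw [Complex.ofReal_one] at hm
  have h0 := DirichletCharacter.LFunction_apply_one_ne_zero hne
  refine ⟨(DirichletCharacter.LFunction χ 1).re, lt_of_le_of_ne hm.2 ?_, ?_⟩
  · intro h
    exact h0 (Complex.ext (by simpa using h.symm) (by simpa using hm.1))
  · exact Complex.ext (by simp) (by simpa using hm.1)

theorem shift_int {D : ℕ} [NeZero D] {χ : DirichletCharacter ℂ D} (hD : OddD D)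
    (hχ : ∀ n : ℤ, χ n = (jacobiSym n D : ℂ)) (b : ℤ) :
    ∑ a ∈ Finset.range D, χ (a : ZMod D) * ee (a * b / D) = χ (b : ZMod D) * EisAt.gs D χ := by
  have h2 : ∑ a ∈ Finset.range D, χ (a : ZMod D) * ee (a * b / D) =
      ∑ a : ZMod D, χ a * ZMod.stdAddChar (N := D) (b * a) := by
    rw [← EisAt.sum_range_zmod]
    refine Finset.sum_congr rfl fun a _ => ?_
    have h3 := ZMod.stdAddChar_coe (N := D) (b * (a : ℤ))
    have h4 : ((b * (a : ℤ) : ℤ) : ZMod D) = (b : ZMod D) * a := by push_cast; rfl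
    rw [← h4, h3]
    unfold ee
    congr 2
    push_cast
    ring
  rw [h2]
  have h5 := gaussSum_mulShift_of_isPrimitive (ZMod.stdAddChar (N := D)) (EisAtD.prim hD hχ)
    (b : ZMod D)
  rw [EisAtD.inv_eq hχ] at h5
  exact h5

end SgGAux

open SgGAux in
/-- (R12) the sign of the quadratic Gauss sum -/
theorem stSgG (h1 : StEisAD) (h2 : StEisLawD) (h3 : StThlD) (h4 : StIdSumD)
    (h5 : StCountD) (h6 : StBasD) (h7 : StThBD) (h8 : StRepsD) : StSgG := by
  intro D _ F _ _ s σ χ cj hd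
  obtain ⟨c, -⟩ := h8 D F _ _ s σ χ cj hd
  obtain ⟨y, hy, hL⟩ := L_one_pos hd.odd hd.chi
  obtain ⟨ε, hε, hg⟩ := EisAtD.exists_eps hd.odd hd.chi
  have hone := L_one h1 h2 h3 h4 h5 h6 h7 c hd hg
  have hh : (0 : ℝ) < Fintype.card (ClassGroup (𝓞 F)) := by exact_mod_cast Fintype.card_pos
  have hD0 : (0 : ℝ) < Real.sqrt D := by
    have := hd.odd.2.2
    exact Real.sqrt_pos.2 (by exact_mod_cast (by omega : 0 < D))
  have hε1 : ε = 1 := by
    rcases hε with h | h
    · exact h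
    · exfalso
      rw [hL, h] at hone
      have h9 : (y : ℂ) = ((-(Real.pi / Real.sqrt D * Fintype.card (ClassGroup (𝓞 F))) : ℝ) : ℂ) := by
        rw [hone]
        push_cast
        ring
      have h10 := Complex.ofReal_injective h9
      have : 0 < Real.pi / Real.sqrt D * Fintype.card (ClassGroup (𝓞 F)) := by positivity
      linarith
  have hg' : EisAt.gs D χ = Complex.I * Real.sqrt D := by rw [hg, hε1, one_mul]
  refine ⟨hg', fun b => ?_, y, hy, hL⟩
  rw [shift_int hd.odd hd.chi b, hg']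

end RZ

end Pool.Agent.Lib.MP_7c08ba_nt
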