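import Mathlib
import Pool.Agent.Lib.MP_7c08ba_nt.RZ.StR
import Pool.Agent.Lib.MP_a17b09_nt.Divisor

set_option autoImplicit false

/-! (R23): the two sums are holomorphic. -/

namespace Pool.Agent.Lib.MP_7c08ba_nt

namespace RZ

open NumberField MeasureTheory UpperHalfPlane Set IsDedekindDomain
open scoped MatrixGroups ComplexConjugate nonZeroDivisors

namespace SuAux

/-- The open region. -/
def Om (r : ℕ) : Set ℂ := {t | -(r : ℝ) - 1 / 4 < t.re ∧ t.re < -1}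

theorem isOpen_Om (r : ℕ) : IsOpen (Om r) :=
  (isOpen_lt continuous_const Complex.continuous_re).inter
    (isOpen_lt Complex.continuous_re continuous_const)

/-- The general term. -/
noncomputable def uu (k r M : ℕ) (ρ : ℕ → ℂ) (s : ℕ → ℂ → ℂ) (t : ℂ) (n : ℕ) : ℂ :=
  if n = M then 0 else ρ n * s n (t + r) * Kp k r n M t

theorem summable_pow : Summable fun n : ℕ => ((n : ℝ) + 1) ^ (-(11 / 8) : ℝ) := by
  have h := (summable_nat_add_iff 1).mpr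
    (Real.summable_nat_rpow.mpr (show (-(11 / 8) : ℝ) < -1 by norm_num))
  refine h.congr fun n => ?_
  push_cast
  rfl

theorem natAbs_le (n M : ℕ) (hM : 1 ≤ M) :
    ((((n : ℤ) - M).natAbs : ℕ) : ℝ) ≤ (M : ℝ) * ((n : ℝ) + 1) := by
  have h1 : ((((n : ℤ) - M).natAbs : ℕ) : ℝ) = |(n : ℝ) - M| := by
    rw [Nat.cast_natAbs]
    push_cast
    rfl
  rw [h1]
  have hM' : (1 : ℝ) ≤ M := by exact_mod_cast hM
  have hn : (0 : ℝ) ≤ n := Nat.cast_nonneg n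
  rw [abs_le]
  constructor <;> nlinarith

theorem uu_bound (h1 : StKpA) (k r M : ℕ) (hM : 1 ≤ M) (ρ : ℕ → ℂ) (s : ℕ → ℂ → ℂ)
    (hs : ∀ n : ℕ, n ≠ M → ∀ e : ℂ, -1 / 4 ≤ e.re → ‖s n e‖ ≤
      ((((n : ℤ) - M).natAbs.divisors.card : ℕ) : ℝ) *
        ((((n : ℤ) - M).natAbs : ℕ) : ℝ) ^ ((1 : ℝ) / 2))
    (hρ : ∀ n : ℕ, 1 ≤ n → ‖ρ n‖ ≤ (n.divisors.card : ℝ) * (n : ℝ) ^ ((k : ℝ) / 2)) (R : ℝ) :
    ∃ C : ℝ, ∀ (n : ℕ) (t : ℂ), t ∈ Om r → ‖t‖ ≤ R →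
      ‖uu k r M ρ s t n‖ ≤ C * ((n : ℝ) + 1) ^ (-(11 / 8) : ℝ) := by
  obtain ⟨C0, hC0⟩ := (h1 k r M hM).2 R
  obtain ⟨C1, hC1, hdiv⟩ := MP_a17b09_nt.card_divisors_le (1 / 16) (by norm_num)
  have hM' : (1 : ℝ) ≤ M := by exact_mod_cast hM
  refine ⟨|C0| * (C1 * (M : ℝ) ^ ((9 : ℝ) / 16)) * (C1 + ‖ρ 0‖), fun n t ht htR => ?_⟩
  have hn1 : (0 : ℝ) < (n : ℝ) + 1 := by positivity
  have hn1' : (1 : ℝ) ≤ (n : ℝ) + 1 := by
    have : (0 : ℝ) ≤ n := Nat.cast_nonneg n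
    linarith
  unfold uu
  split_ifs with hn
  · rw [norm_zero]
    positivity
  · rw [norm_mul, norm_mul]
    -- the factor `Kp`
    have hK : ‖Kp k r n M t‖ ≤ |C0| * ((n : ℝ) + 1) ^ (-(2 : ℝ) - k) := by
      have h := hC0 n t hn (by linarith [ht.1]) (by linarith [ht.2]) htR
      refine h.trans ?_
      have e1 : ((n : ℝ) + 1) ^ (t.re - k - 1) ≤ ((n : ℝ) + 1) ^ (-(2 : ℝ) - k) :=
        Real.rpow_le_rpow_of_exponent_le hn1' (by linarith [ht.2])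
      exact mul_le_mul (le_abs_self C0) e1 (by positivity) (abs_nonneg _)
    -- the factor `s`
    have hne : 0 < ((n : ℤ) - M).natAbs := by
      rw [Int.natAbs_pos]
      intro h0
      exact hn (by exact_mod_cast sub_eq_zero.mp h0)
    have hS : ‖s n (t + r)‖ ≤ C1 * (M : ℝ) ^ ((9 : ℝ) / 16) * ((n : ℝ) + 1) ^ ((9 : ℝ) / 16) := by
      have h := hs n hn (t + r) (by
        rw [Complex.add_re, Complex.natCast_re]
        linarith [ht.1])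
      refine h.trans ?_
      have e1 := hdiv _ hne
      have hb : (0 : ℝ) < ((((n : ℤ) - M).natAbs : ℕ) : ℝ) := by exact_mod_cast hne
      calc ((((n : ℤ) - M).natAbs.divisors.card : ℕ) : ℝ) *
            ((((n : ℤ) - M).natAbs : ℕ) : ℝ) ^ ((1 : ℝ) / 2)
          ≤ (C1 * ((((n : ℤ) - M).natAbs : ℕ) : ℝ) ^ ((1 : ℝ) / 16)) *
            ((((n : ℤ) - M).natAbs : ℕ) : ℝ) ^ ((1 : ℝ) / 2) :=
            mul_le_mul_of_nonneg_right e1 (by positivity)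
        _ = C1 * ((((n : ℤ) - M).natAbs : ℕ) : ℝ) ^ ((9 : ℝ) / 16) := by
            rw [mul_assoc, ← Real.rpow_add hb]
            norm_num
        _ ≤ C1 * ((M : ℝ) * ((n : ℝ) + 1)) ^ ((9 : ℝ) / 16) := by
            gcongr
            exact natAbs_le n M hM
        _ = C1 * (M : ℝ) ^ ((9 : ℝ) / 16) * ((n : ℝ) + 1) ^ ((9 : ℝ) / 16) := by
            rw [Real.mul_rpow (by positivity) hn1.le]
            ring
    -- the factor `ρ`
    have hR : ‖ρ n‖ ≤ (C1 + ‖ρ 0‖) * ((n : ℝ) + 1) ^ ((1 : ℝ) / 16 + (k : ℝ) / 2) := by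
      have hone : (1 : ℝ) ≤ ((n : ℝ) + 1) ^ ((1 : ℝ) / 16 + (k : ℝ) / 2) :=
        Real.one_le_rpow hn1' (by positivity)
      rcases Nat.eq_zero_or_pos n with h0 | hpos
      · subst h0
        have : ‖ρ 0‖ ≤ C1 + ‖ρ 0‖ := by linarith
        refine this.trans ?_
        exact le_mul_of_one_le_right (by positivity) hone
      · have hp : (0 : ℝ) < n := by exact_mod_cast hpos
        have e1 := hdiv n hpos
        calc ‖ρ n‖ ≤ (n.divisors.card : ℝ) * (n : ℝ) ^ ((k : ℝ) / 2) := hρ n hpos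
          _ ≤ (C1 * (n : ℝ) ^ ((1 : ℝ) / 16)) * (n : ℝ) ^ ((k : ℝ) / 2) :=
              mul_le_mul_of_nonneg_right e1 (by positivity)
          _ = C1 * (n : ℝ) ^ ((1 : ℝ) / 16 + (k : ℝ) / 2) := by
              rw [mul_assoc, ← Real.rpow_add hp]
          _ ≤ C1 * ((n : ℝ) + 1) ^ ((1 : ℝ) / 16 + (k : ℝ) / 2) := by
              gcongr
              linarith
          _ ≤ (C1 + ‖ρ 0‖) * ((n : ℝ) + 1) ^ ((1 : ℝ) / 16 + (k : ℝ) / 2) := by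
              refine mul_le_mul_of_nonneg_right ?_ (by positivity)
              linarith [norm_nonneg (ρ 0)]
    have h3 : ‖ρ n‖ * ‖s n (t + r)‖ * ‖Kp k r n M t‖ ≤
        ((C1 + ‖ρ 0‖) * ((n : ℝ) + 1) ^ ((1 : ℝ) / 16 + (k : ℝ) / 2)) *
        (C1 * (M : ℝ) ^ ((9 : ℝ) / 16) * ((n : ℝ) + 1) ^ ((9 : ℝ) / 16)) *
        (|C0| * ((n : ℝ) + 1) ^ (-(2 : ℝ) - k)) := by
      gcongr
    refine h3.trans ?_
    have h4 : ((n : ℝ) + 1) ^ ((1 : ℝ) / 16 + (k : ℝ) / 2) * ((n : ℝ) + 1) ^ ((9 : ℝ) / 16) *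
        ((n : ℝ) + 1) ^ (-(2 : ℝ) - k) ≤ ((n : ℝ) + 1) ^ (-(11 / 8) : ℝ) := by
      rw [← Real.rpow_add hn1, ← Real.rpow_add hn1]
      refine Real.rpow_le_rpow_of_exponent_le hn1' ?_
      have : (0 : ℝ) ≤ k := Nat.cast_nonneg k
      linarith
    calc ((C1 + ‖ρ 0‖) * ((n : ℝ) + 1) ^ ((1 : ℝ) / 16 + (k : ℝ) / 2)) *
        (C1 * (M : ℝ) ^ ((9 : ℝ) / 16) * ((n : ℝ) + 1) ^ ((9 : ℝ) / 16)) *
        (|C0| * ((n : ℝ) + 1) ^ (-(2 : ℝ) - k))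
        = |C0| * (C1 * (M : ℝ) ^ ((9 : ℝ) / 16)) * (C1 + ‖ρ 0‖) *
          (((n : ℝ) + 1) ^ ((1 : ℝ) / 16 + (k : ℝ) / 2) * ((n : ℝ) + 1) ^ ((9 : ℝ) / 16) *
            ((n : ℝ) + 1) ^ (-(2 : ℝ) - k)) := by ring
      _ ≤ _ := mul_le_mul_of_nonneg_left h4 (by positivity)

theorem uu_diff (h1 : StKpA) (k r M : ℕ) (hM : 1 ≤ M) (ρ : ℕ → ℂ) (s : ℕ → ℂ → ℂ)
    (hsd : ∀ n : ℕ, Differentiable ℂ (s n)) (n : ℕ) :
    DifferentiableOn ℂ (fun t => uu k r M ρ s t n) (Om r) := by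
  unfold uu
  split_ifs with hn
  · exact differentiableOn_const _
  · refine DifferentiableOn.mul (DifferentiableOn.mul (differentiableOn_const _) ?_) ?_
    · exact ((hsd n).comp (differentiable_id.add (differentiable_const _))).differentiableOn
    · refine ((h1 k r M hM).1 n hn).mono fun t ht => ⟨?_, ?_⟩
      · linarith [ht.1]
      · linarith [ht.2]

theorem uu_all (h1 : StKpA) (k r M : ℕ) (hM : 1 ≤ M) (ρ : ℕ → ℂ) (s : ℕ → ℂ → ℂ)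
    (hsd : ∀ n : ℕ, Differentiable ℂ (s n))
    (hs : ∀ n : ℕ, n ≠ M → ∀ e : ℂ, -1 / 4 ≤ e.re → ‖s n e‖ ≤
      ((((n : ℤ) - M).natAbs.divisors.card : ℕ) : ℝ) *
        ((((n : ℤ) - M).natAbs : ℕ) : ℝ) ^ ((1 : ℝ) / 2))
    (hρ : ∀ n : ℕ, 1 ≤ n → ‖ρ n‖ ≤ (n.divisors.card : ℝ) * (n : ℝ) ^ ((k : ℝ) / 2)) :
    DifferentiableOn ℂ (fun t => ∑' n, uu k r M ρ s t n) (Om r) ∧
    (∀ n, DifferentiableOn ℂ (fun t => uu k r M ρ s t n) (Om r)) ∧
    ∀ t ∈ Om r, (Summable fun n => ‖uu k r M ρ s t n‖) ∧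
      HasSum (fun n => deriv (fun t => uu k r M ρ s t n) t)
        (deriv (fun t => ∑' n, uu k r M ρ s t n) t) := by
  have hd := uu_diff h1 k r M hM ρ s hsd
  have key : ∀ t ∈ Om r, ∃ (U : Set ℂ) (v : ℕ → ℝ), IsOpen U ∧ t ∈ U ∧ U ⊆ Om r ∧ Summable v ∧
      ∀ n, ∀ z ∈ U, ‖uu k r M ρ s z n‖ ≤ v n := by
    intro t ht
    obtain ⟨C, hC⟩ := uu_bound h1 k r M hM ρ s hs hρ (‖t‖ + 1)
    refine ⟨Om r ∩ {z | ‖z‖ < ‖t‖ + 1}, fun n => C * ((n : ℝ) + 1) ^ (-(11 / 8) : ℝ),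
      (isOpen_Om r).inter (isOpen_lt continuous_norm continuous_const), ⟨ht, ?_⟩,
      Set.inter_subset_left, summable_pow.mul_left C, fun n z hz => hC n z hz.1 (le_of_lt hz.2)⟩
    exact lt_add_one ‖t‖
  refine ⟨fun t ht => ?_, hd, fun t ht => ?_⟩
  · obtain ⟨U, v, hU, htU, hUO, hv, hb⟩ := key t ht
    have h2 := Complex.differentiableOn_tsum_of_summable_norm hv (fun n => (hd n).mono hUO) hU hb
    exact ((h2.differentiableAt (hU.mem_nhds htU))).differentiableWithinAt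
  · obtain ⟨U, v, hU, htU, hUO, hv, hb⟩ := key t ht
    refine ⟨Summable.of_nonneg_of_le (fun _ => norm_nonneg _) (fun n => hb n t htU) hv, ?_⟩
    exact Complex.hasSum_deriv_of_summable_norm hv (fun n => (hd n).mono hUO) hU hb htU

/-- Finite sums over divisors. -/
theorem sum_diff (m : ℕ) (a : ℕ → ℂ) :
    Differentiable ℂ fun e : ℂ => ∑ d ∈ m.divisors, a d * (d : ℂ) ^ (-(2 * e)) := by
  have : (fun e : ℂ => ∑ d ∈ m.divisors, a d * (d : ℂ) ^ (-(2 * e))) =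
      ∑ d ∈ m.divisors, fun e : ℂ => a d * (d : ℂ) ^ (-(2 * e)) := by
    ext e
    rw [Finset.sum_apply]
  rw [this]
  refine Differentiable.sum fun d hd => ?_
  have hd0 : (d : ℂ) ≠ 0 := by exact_mod_cast (Nat.pos_of_mem_divisors hd).ne'
  refine Differentiable.const_mul ?_ _
  exact Differentiable.const_cpow (by fun_prop) (Or.inl hd0)

theorem sum_bound (m : ℕ) (a : ℕ → ℂ) (ha : ∀ d, ‖a d‖ ≤ 1) (e : ℂ) (he : -1 / 4 ≤ e.re) :
    ‖∑ d ∈ m.divisors, a d * (d : ℂ) ^ (-(2 * e))‖ ≤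
      (m.divisors.card : ℝ) * (m : ℝ) ^ ((1 : ℝ) / 2) := by
  refine (norm_sum_le _ _).trans ?_
  have h1 : ∀ d ∈ m.divisors, ‖a d * (d : ℂ) ^ (-(2 * e))‖ ≤ (m : ℝ) ^ ((1 : ℝ) / 2) := by
    intro d hd
    have hd0 : 0 < d := Nat.pos_of_mem_divisors hd
    have hd1 : (1 : ℝ) ≤ d := by exact_mod_cast hd0
    have hdm : (d : ℝ) ≤ m := by exact_mod_cast Nat.divisor_le hd
    rw [norm_mul, Complex.norm_natCast_cpow_of_pos hd0]
    have hre : (-(2 * e)).re = -(2 * e.re) := by simp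
    rw [hre]
    calc ‖a d‖ * (d : ℝ) ^ (-(2 * e.re)) ≤ 1 * (d : ℝ) ^ (-(2 * e.re)) :=
          mul_le_mul_of_nonneg_right (ha d) (by positivity)
      _ = (d : ℝ) ^ (-(2 * e.re)) := one_mul _
      _ ≤ (d : ℝ) ^ ((1 : ℝ) / 2) :=
          Real.rpow_le_rpow_of_exponent_le hd1 (by linarith)
      _ ≤ (m : ℝ) ^ ((1 : ℝ) / 2) := by gcongr
  refine (Finset.sum_le_card_nsmul _ _ _ h1).trans (le_of_eq ?_)
  rw [nsmul_eq_mul]

end SuAux

open SuAux in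
theorem stSuA (h1 : StKpA) (h2 : StThK) : StSuA := by
  intro D hD0 F _ _ s σ χ cj k r ψ c hD hp hH
  obtain ⟨hρ, -⟩ := h2 D F _ _ s σ χ cj k ψ c hD hH
  have hD1 : 1 ≤ D := hp.one_lt.le
  have hDc : (D : ℂ) ≠ 0 := by exact_mod_cast hp.ne_zero
  have hS := uu_all h1 k r D hD1 (rT k ψ c) (sS D χ)
    (fun n => sum_diff _ _)
    (fun n _ e he => sum_bound _ _ (fun d => DirichletCharacter.norm_le_one χ _) e he) hρ
  have hI := uu_all h1 k r 1 le_rfl (rT k ψ c) (sI D χ)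
    (fun n => sum_diff _ _)
    (fun n _ e he => by
      have h := sum_bound ((n : ℤ) - 1).natAbs (fun d => χ ((((n : ℤ) - 1) / d : ℤ) : ZMod D))
        (fun d => DirichletCharacter.norm_le_one χ _) e he
      simpa [sI] using h) hρ
  have eS : ∀ t n, uS D χ k r ψ c t n = uu k r D (rT k ψ c) (sS D χ) t n := fun t n => rfl
  have eI : ∀ t n, uI D χ k r ψ c t n = uu k r 1 (rT k ψ c) (sI D χ) t n := fun t n => rfl
  simp only [eS, eI]
  refine ⟨?_, hS.2.1, hI.2.1, fun t h3 h4 => ⟨(hS.2.2 t ⟨h3, h4⟩).1, (hI.2.2 t ⟨h3, h4⟩).1,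
    (hS.2.2 t ⟨h3, h4⟩).2, (hI.2.2 t ⟨h3, h4⟩).2⟩⟩
  unfold SUM
  simp only [eS, eI]
  refine DifferentiableOn.add (DifferentiableOn.mul ?_ hS.1) (DifferentiableOn.mul ?_ hI.1)
  · unfold cS
    refine Differentiable.differentiableOn ?_
    refine Differentiable.const_mul ?_ _
    exact Differentiable.const_cpow (by fun_prop) (Or.inl hDc)
  · unfold cI
    refine Differentiable.differentiableOn ?_
    refine Differentiable.const_mul ?_ _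
    exact Differentiable.const_cpow (by fun_prop) (Or.inl hDc)

end RZ

end Pool.Agent.Lib.MP_7c08ba_nt
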