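import Mathlib
import Pool.Agent.Lib.MP_7c08ba_nt.RZ.StR

set_option autoImplicit false

/-!
The derivative of the two sums at `-r` (module RZ-SuB).
-/

namespace Pool.Agent.Lib.MP_7c08ba_nt

namespace RZ

open NumberField MeasureTheory UpperHalfPlane Set IsDedekindDomain
open scoped MatrixGroups ComplexConjugate nonZeroDivisors

namespace SuBm

/-! ### arithmetic -/

theorem sum_jac_zero (D n : ℕ) (hn : jacobiSym n D = -1) :
    ∑ d ∈ n.divisors, jacobiSym d D = 0 := by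
  have h1 : ∑ d ∈ n.divisors, jacobiSym ((n / d : ℕ) : ℤ) D = ∑ d ∈ n.divisors, jacobiSym d D :=
    Nat.sum_div_divisors n fun d => jacobiSym d D
  have h2 : ∀ d ∈ n.divisors, jacobiSym ((n / d : ℕ) : ℤ) D = -jacobiSym d D := by
    intro d hd
    have h3 : d * (n / d) = n := Nat.mul_div_cancel' (Nat.dvd_of_mem_divisors hd)
    have h4 : jacobiSym d D * jacobiSym ((n / d : ℕ) : ℤ) D = -1 := by
      rw [← jacobiSym.mul_left, ← hn, ← Nat.cast_mul, h3]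
    rcases Int.mul_eq_neg_one_iff_eq_one_or_neg_one.1 h4 with ⟨h5, h6⟩ | ⟨h5, h6⟩
    · rw [h5, h6]
    · rw [h5, h6]
      norm_num
  rw [Finset.sum_congr rfl h2, Finset.sum_neg_distrib] at h1
  linarith

theorem natAbs_lt (D n : ℕ) (h : n ≤ D) : ((n : ℤ) - D).natAbs = D - n := by
  omega

theorem natAbs_gt (D n : ℕ) (h : D ≤ n) : ((n : ℤ) - D).natAbs = n - D := by
  omega

section

variable {D : ℕ} {χ : DirichletCharacter ℂ D}

theorem sS_zero_arg (hχ : ∀ n : ℤ, χ n = (jacobiSym n D : ℂ)) (n : ℕ) :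
    sS D χ n 0 = ((∑ d ∈ ((n : ℤ) - D).natAbs.divisors, jacobiSym d D : ℤ) : ℂ) := by
  unfold sS
  push_cast
  refine Finset.sum_congr rfl fun d _ => ?_
  have h := hχ (d : ℤ)
  rw [Int.cast_natCast] at h
  rw [h]
  simp

theorem norm_term (d : ℕ) (x : ZMod D) (e : ℂ) (hd : 0 < d) (he : -1 / 2 ≤ e.re) :
    ‖χ x * (d : ℂ) ^ (-(2 * e))‖ ≤ d := by
  rw [norm_mul, Complex.norm_natCast_cpow_of_pos hd]
  have h1 : (1 : ℝ) ≤ d := by exact_mod_cast hd
  have h2 : (d : ℝ) ^ (-(2 * e)).re ≤ (d : ℝ) ^ (1 : ℝ) := by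
    refine Real.rpow_le_rpow_of_exponent_le h1 ?_
    simp
    linarith
  rw [Real.rpow_one] at h2
  calc ‖χ x‖ * (d : ℝ) ^ (-(2 * e)).re ≤ 1 * d :=
        mul_le_mul (DirichletCharacter.norm_le_one χ x) h2 (by positivity) zero_le_one
    _ = d := one_mul _

theorem norm_sum_div (M : ℕ) (f : ℕ → ℂ) (hf : ∀ d, 0 < d → ‖f d‖ ≤ d) :
    ‖∑ d ∈ M.divisors, f d‖ ≤ (M : ℝ) * M := by
  have h1 : ‖∑ d ∈ M.divisors, f d‖ ≤ ∑ d ∈ M.divisors, (M : ℝ) := by
    refine norm_sum_le_of_le _ fun d hd => ?_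
    refine le_trans (hf d (Nat.pos_of_mem_divisors hd)) ?_
    exact_mod_cast Nat.divisor_le hd
  refine le_trans h1 ?_
  rw [Finset.sum_const, nsmul_eq_mul]
  have h2 : (M.divisors.card : ℝ) ≤ M := by exact_mod_cast Nat.card_divisors_le_self M
  exact mul_le_mul_of_nonneg_right h2 (by positivity)

theorem norm_sS (n : ℕ) (e : ℂ) (he : -1 / 2 ≤ e.re) (hD : 1 ≤ D) :
    ‖sS D χ n e‖ ≤ (D : ℝ) ^ 2 * ((n : ℝ) + 1) ^ 2 := by
  have h1 : ‖sS D χ n e‖ ≤ ((((n : ℤ) - D).natAbs : ℕ) : ℝ) * (((n : ℤ) - D).natAbs : ℕ) :=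
    norm_sum_div _ _ fun d hd => norm_term d _ e hd he
  have h2 : ((((n : ℤ) - D).natAbs : ℕ) : ℝ) ≤ D * ((n : ℝ) + 1) := by
    have h3 : ((n : ℤ) - D).natAbs ≤ D * (n + 1) := by
      have h4 : n ≤ D * n := Nat.le_mul_of_pos_left n hD
      have h5 : D * (n + 1) = D * n + D := by ring
      omega
    exact_mod_cast h3
  have h0 : (0 : ℝ) ≤ ((((n : ℤ) - D).natAbs : ℕ) : ℝ) := Nat.cast_nonneg _
  calc ‖sS D χ n e‖ ≤ _ := h1
    _ ≤ (D * ((n : ℝ) + 1)) * (D * ((n : ℝ) + 1)) := mul_le_mul h2 h2 h0 (by positivity)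
    _ = _ := by ring

theorem norm_sI (n : ℕ) (e : ℂ) (he : -1 / 2 ≤ e.re) (hD : 1 ≤ D) :
    ‖sI D χ n e‖ ≤ (D : ℝ) ^ 2 * ((n : ℝ) + 1) ^ 2 := by
  have h1 : ‖sI D χ n e‖ ≤ ((((n : ℤ) - 1).natAbs : ℕ) : ℝ) * (((n : ℤ) - 1).natAbs : ℕ) :=
    norm_sum_div _ _ fun d hd => norm_term d _ e hd he
  have h2 : ((((n : ℤ) - 1).natAbs : ℕ) : ℝ) ≤ D * ((n : ℝ) + 1) := by
    have h3 : ((n : ℤ) - 1).natAbs ≤ D * (n + 1) := by
      have h4 : n ≤ D * n := Nat.le_mul_of_pos_left n hD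
      have h5 : D * (n + 1) = D * n + D := by ring
      omega
    exact_mod_cast h3
  have h0 : (0 : ℝ) ≤ ((((n : ℤ) - 1).natAbs : ℕ) : ℝ) := Nat.cast_nonneg _
  calc ‖sI D χ n e‖ ≤ _ := h1
    _ ≤ (D * ((n : ℝ) + 1)) * (D * ((n : ℝ) + 1)) := mul_le_mul h2 h2 h0 (by positivity)
    _ = _ := by ring

theorem norm_sum_div0 (M : ℕ) (f : ℕ → ℂ) (hf : ∀ d, 0 < d → ‖f d‖ ≤ 1) :
    ‖∑ d ∈ M.divisors, f d‖ ≤ (M : ℝ) := by
  have h1 : ‖∑ d ∈ M.divisors, f d‖ ≤ ∑ d ∈ M.divisors, (1 : ℝ) :=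
    norm_sum_le_of_le _ fun d hd => hf d (Nat.pos_of_mem_divisors hd)
  refine le_trans h1 ?_
  rw [Finset.sum_const, nsmul_eq_mul, mul_one]
  exact_mod_cast Nat.card_divisors_le_self M

theorem norm_term0 (d : ℕ) (x : ZMod D) :
    ‖χ x * (d : ℂ) ^ (-(2 * (0 : ℂ)))‖ ≤ 1 := by
  simpa using DirichletCharacter.norm_le_one χ x

theorem norm_sS0 (n : ℕ) (h : D < n) : ‖sS D χ n 0‖ ≤ n := by
  have h1 : ‖sS D χ n 0‖ ≤ ((((n : ℤ) - D).natAbs : ℕ) : ℝ) :=
    norm_sum_div0 _ _ fun d _ => norm_term0 d _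
  refine le_trans h1 ?_
  rw [natAbs_gt D n h.le]
  exact_mod_cast Nat.sub_le n D

theorem norm_sI0 (n : ℕ) (h : 1 < n) : ‖sI D χ n 0‖ ≤ n := by
  have h1 : ‖sI D χ n 0‖ ≤ ((((n : ℤ) - 1).natAbs : ℕ) : ℝ) :=
    norm_sum_div0 _ _ fun d _ => norm_term0 d _
  refine le_trans h1 ?_
  have h2 : ((n : ℤ) - 1).natAbs ≤ n := by omega
  exact_mod_cast h2

theorem diff_cpow (d : ℕ) (hd : 0 < d) (e : ℂ) :
    DifferentiableAt ℂ (fun e : ℂ => (d : ℂ) ^ (-(2 * e))) e := by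
  refine DifferentiableAt.const_cpow (by fun_prop) (Or.inl ?_)
  exact_mod_cast hd.ne'

theorem diff_sS (n : ℕ) (e : ℂ) : DifferentiableAt ℂ (sS D χ n) e := by
  unfold sS
  refine DifferentiableAt.fun_sum fun d hd => ?_
  exact (diff_cpow d (Nat.pos_of_mem_divisors hd) e).const_mul _

theorem diff_sI (n : ℕ) (e : ℂ) : DifferentiableAt ℂ (sI D χ n) e := by
  unfold sI
  refine DifferentiableAt.fun_sum fun d hd => ?_
  exact (diff_cpow d (Nat.pos_of_mem_divisors hd) e).const_mul _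

theorem sS_zero (hp : D.Prime) (e : ℂ) : sS D χ 0 e = 1 := by
  unfold sS
  have h1 : (((0 : ℕ) : ℤ) - D).natAbs = D := by omega
  have h0 : χ 0 = 0 := by
    have : Fact (1 < D) := ⟨hp.one_lt⟩
    exact MulChar.map_zero χ
  rw [h1, hp.divisors, Finset.sum_pair hp.one_lt.ne]
  simp [h0]

theorem sI_zero (e : ℂ) (h : χ (-1) = -1) : sI D χ 0 e = -1 := by
  unfold sI
  have h1 : (((0 : ℕ) : ℤ) - 1).natAbs = 1 := by omega
  rw [h1, Nat.divisors_one, Finset.sum_singleton]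
  simp [h]

end

/-! ### the key inequalities -/

theorem key_a (m n k r : ℕ) (hm : 1 ≤ m) (hmn : m < n) (hr : 5 ≤ r) (x y : ℝ)
    (hx : 0 ≤ x) (hxn : x ≤ n) (hy : 0 ≤ y) (hyn : y ≤ n) :
    (Real.sqrt m)⁻¹ * ((Real.sqrt m) ^ k)⁻¹ * (m : ℝ) ^ (k + 1 + r) *
      (x * (n : ℝ) ^ ((k : ℝ) / 2) * y * (((k + r).factorial : ℝ) * ((2 * Real.pi) ^ (k + r + 1))⁻¹ *
        (((n : ℝ) + m) ^ (k + r))⁻¹ * (10 * (1 + Real.log ((n : ℝ) + m))))) ≤
      ((k + r).factorial : ℝ) * ((4 * Real.pi) ^ (k + r + 1))⁻¹ *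
        (20 * Real.sqrt m * (2 * (m : ℝ)) ^ 5 * (((n : ℝ) + m) ^ 2)⁻¹) := by
  have hm1 : (1 : ℝ) ≤ m := by exact_mod_cast hm
  have hmnR : (m : ℝ) < n := by exact_mod_cast hmn
  have hpi := Real.pi_pos
  rw [Real.rpow_div_two_eq_sqrt _ (by positivity), Real.rpow_natCast]
  obtain ⟨p, hp0, hpm⟩ : ∃ p : ℝ, 0 < p ∧ p ^ 2 = m :=
    ⟨Real.sqrt m, Real.sqrt_pos.2 (by linarith), Real.sq_sqrt (by linarith)⟩
  obtain ⟨q, hq0, hqn⟩ : ∃ q : ℝ, 0 < q ∧ q ^ 2 = n :=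
    ⟨Real.sqrt n, Real.sqrt_pos.2 (by linarith), Real.sq_sqrt (by linarith)⟩
  have e1 : Real.sqrt m = p := by rw [← hpm, Real.sqrt_sq hp0.le]
  have e2 : Real.sqrt n = q := by rw [← hqn, Real.sqrt_sq hq0.le]
  rw [e1, e2, ← hpm]
  set s : ℝ := (n : ℝ) + p ^ 2 with hs
  have hs0 : 0 < s := by positivity
  have hL : 1 + Real.log s ≤ s := by
    have := Real.log_le_sub_one_of_pos hs0
    linarith
  have hs1 : 1 ≤ s := by
    rw [hs, hpm]
    linarith
  have hL0 : 0 ≤ 1 + Real.log s := by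
    have := Real.log_nonneg hs1
    linarith
  have hxs : x ≤ s := by
    refine le_trans hxn ?_
    rw [hs]
    nlinarith
  have hys : y ≤ s := by
    refine le_trans hyn ?_
    rw [hs]
    nlinarith
  -- the two ratios
  have hA : 2 * p * q / s ≤ 1 := by
    rw [div_le_one hs0, hs, ← hqn]
    nlinarith [sq_nonneg (p - q)]
  have hA0 : 0 ≤ 2 * p * q / s := by positivity
  have hB : 2 * p ^ 2 / s ≤ 1 := by
    rw [div_le_one hs0, hs, hpm]
    linarith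
  have hB0 : 0 ≤ 2 * p ^ 2 / s := by positivity
  have hAk : (2 * p * q / s) ^ k ≤ 1 := pow_le_one₀ hA0 hA
  have hBr : (2 * p ^ 2 / s) ^ r ≤ (2 * p ^ 2 / s) ^ 5 := pow_le_pow_of_le_one hB0 hB hr
  set G : ℝ := ((k + r).factorial : ℝ) * ((4 * Real.pi) ^ (k + r + 1))⁻¹ with hG
  have hG0 : 0 ≤ G := by positivity
  have id1 : p⁻¹ * (p ^ k)⁻¹ * (p ^ 2) ^ (k + 1 + r) = p * p ^ k * (p ^ 2) ^ r := by
    have h1 : (p ^ 2) ^ (k + 1 + r) = p ^ k * p ^ k * (p * p) * (p ^ 2) ^ r := by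
      rw [pow_add, pow_add, pow_one]
      congr 1
      rw [← pow_mul, two_mul, pow_add]
      ring
    rw [h1]
    field_simp
  have id2 : ((2 * Real.pi) ^ (k + r + 1))⁻¹ = 2 * 2 ^ k * 2 ^ r *
      ((4 * Real.pi) ^ (k + r + 1))⁻¹ := by
    have h1 : (4 * Real.pi) ^ (k + r + 1) = 2 * 2 ^ k * 2 ^ r * (2 * Real.pi) ^ (k + r + 1) := by
      have h2 : (4 * Real.pi) = 2 * (2 * Real.pi) := by ring
      rw [h2, mul_pow 2 (2 * Real.pi)]
      congr 1
      rw [pow_add, pow_add, pow_one]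
      ring
    rw [h1]
    field_simp
  have id3 : p⁻¹ * (p ^ k)⁻¹ * (p ^ 2) ^ (k + 1 + r) *
      (x * q ^ k * y * (((k + r).factorial : ℝ) * ((2 * Real.pi) ^ (k + r + 1))⁻¹ *
        (s ^ (k + r))⁻¹ * (10 * (1 + Real.log s)))) =
      G * (2 * p * (2 * p * q / s) ^ k * (2 * p ^ 2 / s) ^ r * (x * y * (10 * (1 + Real.log s)))) := by
    rw [id1, id2, hG, div_pow, div_pow, mul_pow (2 * p) q, mul_pow 2 p, mul_pow 2 (p ^ 2) r,
      pow_add s]
    field_simp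
  rw [id3]
  refine mul_le_mul_of_nonneg_left ?_ hG0
  calc 2 * p * (2 * p * q / s) ^ k * (2 * p ^ 2 / s) ^ r * (x * y * (10 * (1 + Real.log s)))
      ≤ 2 * p * 1 * (2 * p ^ 2 / s) ^ 5 * (s * s * (10 * s)) := by
        gcongr
    _ = 20 * p * (2 * p ^ 2) ^ 5 * (s ^ 2)⁻¹ := by
        field_simp
        ring

theorem key_b (D n k r : ℕ) (hn : 1 ≤ n) (hnD : n < D) (x z J : ℝ)
    (hxn : x ≤ n) (hz : 0 ≤ z) (hJ : ((n : ℝ) / D) ^ ((k : ℝ) / 2) * |J| ≤ 1) :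
    (Real.sqrt D)⁻¹ * ((Real.sqrt D) ^ k)⁻¹ * (D : ℝ) ^ (k + 1 + r) *
      (x * (n : ℝ) ^ ((k : ℝ) / 2) * z * (2 * Real.pi * ((k + r).factorial : ℝ) *
        ((4 * Real.pi * D) ^ (k + r + 1))⁻¹ * |J|)) ≤
      ((k + r).factorial : ℝ) * ((4 * Real.pi) ^ (k + r + 1))⁻¹ * (2 * Real.pi * n * z) := by
  have hn1 : (1 : ℝ) ≤ n := by exact_mod_cast hn
  have hnDR : (n : ℝ) < D := by exact_mod_cast hnD
  have hpi := Real.pi_pos
  rw [Real.rpow_div_two_eq_sqrt _ (by positivity), Real.rpow_natCast, Real.sqrt_div' _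
    (by linarith)] at hJ
  rw [Real.rpow_div_two_eq_sqrt _ (by positivity), Real.rpow_natCast]
  set p := Real.sqrt D with hp
  set q := Real.sqrt n with hq
  have hp1 : 1 ≤ p := Real.one_le_sqrt.2 (by linarith)
  have hp0 : 0 < p := by linarith
  have hpD : p ^ 2 = D := Real.sq_sqrt (by linarith)
  set G : ℝ := ((k + r).factorial : ℝ) * ((4 * Real.pi) ^ (k + r + 1))⁻¹ with hG
  have hG0 : 0 ≤ G := by positivity
  have hD0 : (0 : ℝ) < D := by linarith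
  have id3 : p⁻¹ * (p ^ k)⁻¹ * (D : ℝ) ^ (k + 1 + r) *
      (x * q ^ k * z * (2 * Real.pi * ((k + r).factorial : ℝ) *
        ((4 * Real.pi * D) ^ (k + r + 1))⁻¹ * |J|)) =
      G * (2 * Real.pi * x * z * ((q / p) ^ k * |J|) * p⁻¹) := by
    rw [hG, mul_pow (4 * Real.pi), show k + 1 + r = k + r + 1 by ring, div_pow]
    field_simp
  rw [id3]
  refine mul_le_mul_of_nonneg_left ?_ hG0
  have hpi' : p⁻¹ ≤ 1 := inv_le_one_of_one_le₀ hp1
  have h0 : 0 ≤ (q / p) ^ k * |J| := by positivity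
  calc 2 * Real.pi * x * z * ((q / p) ^ k * |J|) * p⁻¹
      ≤ 2 * Real.pi * n * z * 1 * 1 := by gcongr
    _ = 2 * Real.pi * n * z := by ring

/-! ### scaling -/

theorem mul_cpow_pos (m : ℝ) (hm : 0 < m) (z s : ℂ) (hz : z ≠ 0) :
    ((m : ℂ) * z) ^ s = (m : ℂ) ^ s * z ^ s := by
  have hm' : (m : ℂ) ≠ 0 := by exact_mod_cast hm.ne'
  rw [Complex.cpow_def_of_ne_zero (mul_ne_zero hm' hz), Complex.cpow_def_of_ne_zero hm',
    Complex.cpow_def_of_ne_zero hz, Complex.log_ofReal_mul hm hz, ← Complex.ofReal_log hm.le,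
    add_mul, Complex.exp_add]

theorem Kp_scale_aux (k r m : ℕ) (hm : 1 ≤ m) (t : ℂ) (φ : ℝ) :
    Complex.exp (-((2 * r + 1) * φ * Complex.I)) *
      (Real.sin φ : ℂ) ^ (t + k + 2 * r) *
      ((((0 : ℕ) : ℂ) + m) * Real.sin φ + Complex.I * (((m : ℂ) - (0 : ℕ)) * Real.cos φ)) ^
        (t - k - 1) = (m : ℂ) ^ (t - k - 1) * (Complex.exp (-((2 * r + 1) * φ * Complex.I)) *
      (Real.sin φ : ℂ) ^ (t + k + 2 * r) *
      ((((0 : ℕ) : ℂ) + (1 : ℕ)) * Real.sin φ + Complex.I * ((((1 : ℕ) : ℂ) - (0 : ℕ)) *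
        Real.cos φ)) ^ (t - k - 1)) := by
  have hm0 : (0 : ℝ) < m := by exact_mod_cast hm
  have hz : (Real.sin φ : ℂ) + Complex.I * Real.cos φ ≠ 0 := by
    intro h
    have h1 : Real.sin φ = 0 := by
      have := congrArg Complex.re h
      rw [Complex.add_re, Complex.ofReal_re, Complex.mul_re, Complex.I_re, Complex.I_im,
        Complex.ofReal_im] at this
      simpa using this
    have h2 : Real.cos φ = 0 := by
      have := congrArg Complex.im h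
      rw [Complex.add_im, Complex.ofReal_im, Complex.mul_im, Complex.I_re, Complex.I_im,
        Complex.ofReal_re] at this
      simpa using this
    have h3 := Real.sin_sq_add_cos_sq φ
    rw [h1, h2] at h3
    norm_num at h3
  have e1 : (((0 : ℕ) : ℂ) + m) * Real.sin φ + Complex.I * (((m : ℂ) - (0 : ℕ)) * Real.cos φ) =
      ((m : ℝ) : ℂ) * ((Real.sin φ : ℂ) + Complex.I * Real.cos φ) := by
    push_cast
    ring
  have e3 : (((0 : ℕ) : ℂ) + (1 : ℕ)) * Real.sin φ + Complex.I * ((((1 : ℕ) : ℂ) - (0 : ℕ)) *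
      Real.cos φ) = ((Real.sin φ : ℂ) + Complex.I * Real.cos φ) := by
    push_cast
    ring
  rw [e3, e1, mul_cpow_pos _ hm0 _ _ hz, Complex.ofReal_natCast]
  ring

theorem Kp_scale (k r m : ℕ) (hm : 1 ≤ m) (t : ℂ) :
    Kp k r 0 m t = (m : ℂ) ^ (t - k - 1) * Kp k r 0 1 t := by
  have hm0 : (0 : ℝ) < m := by exact_mod_cast hm
  have key : (∫ φ in (0 : ℝ)..Real.pi, Complex.exp (-((2 * r + 1) * φ * Complex.I)) *
      (Real.sin φ : ℂ) ^ (t + k + 2 * r) *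
      ((((0 : ℕ) : ℂ) + m) * Real.sin φ + Complex.I * (((m : ℂ) - (0 : ℕ)) * Real.cos φ)) ^
        (t - k - 1)) = (m : ℂ) ^ (t - k - 1) *
      ∫ φ in (0 : ℝ)..Real.pi, Complex.exp (-((2 * r + 1) * φ * Complex.I)) *
      (Real.sin φ : ℂ) ^ (t + k + 2 * r) *
      ((((0 : ℕ) : ℂ) + (1 : ℕ)) * Real.sin φ + Complex.I * ((((1 : ℕ) : ℂ) - (0 : ℕ)) *
        Real.cos φ)) ^ (t - k - 1) := by
    rw [← intervalIntegral.integral_const_mul]
    refine intervalIntegral.integral_congr fun φ _ => ?_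
    exact Kp_scale_aux k r m hm t φ
  unfold Kp
  rw [key]
  ring

/-! ### differentiability -/

theorem summ_sq : Summable fun n : ℕ => (((n : ℝ) + 1) ^ 2)⁻¹ := by
  have h := (summable_nat_add_iff 1).2 (Real.summable_nat_pow_inv.2 one_lt_two)
  refine h.congr fun n => ?_
  push_cast
  rfl

theorem diff_tsum (r : ℕ) (hr : 5 ≤ r) (f : ℂ → ℕ → ℂ)
    (hf : ∀ n, DifferentiableOn ℂ (fun t => f t n) {t | -(r : ℝ) - 1 / 4 < t.re ∧ t.re < -1})
    (K : ℝ) (hb : ∀ (n : ℕ) (t : ℂ), -(r : ℝ) - 1 / 4 ≤ t.re → t.re ≤ -(r : ℝ) + 1 / 4 →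
      ‖t‖ ≤ r + 1 → ‖f t n‖ ≤ K * (((n : ℝ) + 1) ^ 2)⁻¹) :
    DifferentiableAt ℂ (fun t => ∑' n, f t n) (-(r : ℂ)) := by
  have hr5 : (5 : ℝ) ≤ r := by exact_mod_cast hr
  have hU : ∀ t ∈ Metric.ball (-(r : ℂ)) (1 / 4), -(r : ℝ) - 1 / 4 < t.re ∧
      t.re < -(r : ℝ) + 1 / 4 ∧ ‖t‖ ≤ r + 1 := by
    intro t ht
    rw [Metric.mem_ball, Complex.dist_eq] at ht
    have h1 := Complex.abs_re_le_norm (t - -(r : ℂ))
    have h2 : (t - -(r : ℂ)).re = t.re + r := by simp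
    rw [h2] at h1
    have h3 := abs_le.1 h1
    refine ⟨by linarith [h3.1], by linarith [h3.2], ?_⟩
    have h4 : ‖t‖ ≤ ‖t - -(r : ℂ)‖ + ‖(-(r : ℂ))‖ := by
      have := norm_add_le (t - -(r : ℂ)) (-(r : ℂ))
      rwa [sub_add_cancel] at this
    rw [norm_neg, Complex.norm_natCast] at h4
    linarith
  have hd : DifferentiableOn ℂ (fun t => ∑' n, f t n) (Metric.ball (-(r : ℂ)) (1 / 4)) := by
    refine Complex.differentiableOn_tsum_of_summable_norm (summ_sq.mul_left K) (fun n => ?_)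
      Metric.isOpen_ball fun n t ht => ?_
    · refine (hf n).mono fun t ht => ?_
      obtain ⟨h1, h2, -⟩ := hU t ht
      exact ⟨h1, by linarith⟩
    · obtain ⟨h1, h2, h3⟩ := hU t ht
      exact hb n t h1.le h2.le h3
  exact hd.differentiableAt (Metric.ball_mem_nhds _ (by norm_num))

theorem term_bound (D k r n : ℕ) (hr : 5 ≤ r) (h C a : ℝ) (hC : 0 ≤ C) (hh : 0 ≤ h)
    (x y z : ℂ)
    (hx : ‖x‖ ≤ (h + 1) * ((n : ℝ) + 1) * ((n : ℝ) + 1) ^ ((k : ℝ) / 2))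
    (hy : ‖y‖ ≤ (D : ℝ) ^ 2 * ((n : ℝ) + 1) ^ 2) (hz : ‖z‖ ≤ C * ((n : ℝ) + 1) ^ (a - k - 1))
    (ha : a ≤ -(r : ℝ) + 1 / 4) :
    ‖x * y * z‖ ≤ ((h + 1) * (D : ℝ) ^ 2 * C) * (((n : ℝ) + 1) ^ 2)⁻¹ := by
  have hr5 : (5 : ℝ) ≤ r := by exact_mod_cast hr
  set X : ℝ := (n : ℝ) + 1 with hX
  have hX1 : 1 ≤ X := by
    rw [hX]
    linarith [(Nat.cast_nonneg n : (0 : ℝ) ≤ n)]
  have hX0 : 0 < X := by linarith
  rw [norm_mul, norm_mul]
  have h1 : ‖x‖ * ‖y‖ * ‖z‖ ≤ ((h + 1) * X * X ^ ((k : ℝ) / 2)) * ((D : ℝ) ^ 2 * X ^ 2) *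
      (C * X ^ (a - k - 1)) := by
    refine mul_le_mul (mul_le_mul hx hy (norm_nonneg _) (by positivity)) hz (norm_nonneg _)
      (by positivity)
  refine le_trans h1 ?_
  have h2 : X * X ^ ((k : ℝ) / 2) * X ^ 2 * X ^ (a - k - 1) ≤ (X ^ 2)⁻¹ := by
    have e1 : X * X ^ ((k : ℝ) / 2) * X ^ 2 * X ^ (a - k - 1) =
        X ^ (1 + (k : ℝ) / 2 + 2 + (a - k - 1)) := by
      rw [Real.rpow_add hX0, Real.rpow_add hX0, Real.rpow_add hX0, Real.rpow_one, Real.rpow_two]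
    have e2 : (X ^ 2)⁻¹ = X ^ (-2 : ℝ) := by
      rw [Real.rpow_neg hX0.le, Real.rpow_two]
    rw [e1, e2]
    refine Real.rpow_le_rpow_of_exponent_le hX1 ?_
    have : (0 : ℝ) ≤ k := Nat.cast_nonneg k
    linarith
  calc ((h + 1) * X * X ^ ((k : ℝ) / 2)) * ((D : ℝ) ^ 2 * X ^ 2) * (C * X ^ (a - k - 1))
      = ((h + 1) * (D : ℝ) ^ 2 * C) * (X * X ^ ((k : ℝ) / 2) * X ^ 2 * X ^ (a - k - 1)) := by ring
    _ ≤ _ := mul_le_mul_of_nonneg_left h2 (by positivity)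

theorem hasDeriv_term (a : ℂ) (g h : ℂ → ℂ) (r : ℕ) (hg : DifferentiableAt ℂ g 0)
    (hh : DifferentiableAt ℂ h (-(r : ℂ))) :
    HasDerivAt (fun t => a * g (t + r) * h t)
      (a * (deriv g 0 * h (-(r : ℂ)) + g 0 * deriv h (-(r : ℂ)))) (-(r : ℂ)) := by
  have e : (-(r : ℂ)) + r = 0 := by ring
  have h1 : HasDerivAt (fun t => g (t + r)) (deriv g 0) (-(r : ℂ)) := by
    refine HasDerivAt.comp_add_const (-(r : ℂ)) (r : ℂ) ?_
    rw [e]
    exact hg.hasDerivAt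
  have h2 := (h1.const_mul a).mul hh.hasDerivAt
  rw [e] at h2
  exact h2.congr_deriv (by ring)

/-! ### norms of the factors -/

theorem norm_cS (D k r : ℕ) : ‖cS D k (-(r : ℂ))‖ =
    (Real.sqrt D)⁻¹ * ((Real.sqrt D) ^ k)⁻¹ * (D : ℝ) ^ (k + 1 + r) := by
  have e : (k : ℂ) + 1 - -(r : ℂ) = ((k + 1 + r : ℕ) : ℂ) := by
    push_cast
    ring
  unfold cS
  rw [e, Complex.cpow_natCast, norm_mul, norm_mul, norm_div, norm_neg, Complex.norm_I, norm_inv,
    norm_pow, norm_mul, Complex.norm_I, norm_pow, Complex.norm_natCast,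
    Complex.norm_of_nonneg (Real.sqrt_nonneg _), one_mul, one_div]

theorem norm_cI (D r : ℕ) (hD : 1 ≤ D) : ‖cI D r (-(r : ℂ))‖ ≤ 1 := by
  have e : -(2 * (r : ℂ) + 1) - 2 * -(r : ℂ) = -1 := by ring
  have hD1 : (1 : ℝ) ≤ D := by exact_mod_cast hD
  unfold cI
  rw [e, Complex.cpow_neg_one, norm_mul, norm_neg, norm_mul, Complex.norm_I, one_mul, norm_inv,
    Complex.norm_natCast, Complex.norm_of_nonneg (Real.sqrt_nonneg _), ← div_eq_mul_inv,
    div_le_one (by linarith)]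
  rw [Real.sqrt_le_left (by linarith)]
  nlinarith

theorem diff_cS (D k : ℕ) (hD : 1 ≤ D) (t : ℂ) : DifferentiableAt ℂ (cS D k) t := by
  unfold cS
  refine DifferentiableAt.const_mul (DifferentiableAt.const_cpow (by fun_prop) (Or.inl ?_)) _
  exact_mod_cast (by omega : D ≠ 0)

theorem diff_cI (D r : ℕ) (hD : 1 ≤ D) (t : ℂ) : DifferentiableAt ℂ (cI D r) t := by
  unfold cI
  refine DifferentiableAt.const_mul (DifferentiableAt.const_cpow (by fun_prop) (Or.inl ?_)) _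
  exact_mod_cast (by omega : D ≠ 0)

/-- Differentiability of the functions `Kp`. -/
theorem diff_Kp (h7 : StKpA) (k r n m : ℕ) (hm : 1 ≤ m) (hnm : n ≠ m) :
    DifferentiableAt ℂ (Kp k r n m) (-(r : ℂ)) := by
  have h := (h7 k r m hm).1 n hnm
  refine h.differentiableAt ?_
  have ho : IsOpen {t : ℂ | -(r : ℝ) - 1 / 2 < t.re ∧ t.re < 1} :=
    (isOpen_lt continuous_const Complex.continuous_re).and
      (isOpen_lt Complex.continuous_re continuous_const)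
  refine ho.mem_nhds ⟨?_, ?_⟩
  · simp
  · simp
    linarith [(Nat.cast_nonneg r : (0 : ℝ) ≤ r)]

/-! ### the terms with `n = 0` -/

theorem E_zero (h2 : StKpV) (h4 : StJac) (h7 : StKpA) (D r : ℕ) (hD : 1 < D) (R h : ℝ) (ρ : ℂ)
    (hρ : ‖ρ‖ ≤ h) (hR : R = Real.log D) :
    ‖deriv (fun t => cS D 0 t * (ρ * 1 * Kp 0 r 0 D t) + cI D r t * (ρ * (-1) * Kp 0 r 0 1 t))
      (-(r : ℂ))‖ ≤ ((0 + r).factorial : ℝ) * ((4 * Real.pi) ^ (0 + r + 1))⁻¹ *
        (h * (4 * Real.pi * R)) := by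
  have hD0 : (D : ℂ) ≠ 0 := by exact_mod_cast (by omega : D ≠ 0)
  have hD1 : (1 : ℝ) < D := by exact_mod_cast hD
  have hsq : ((Real.sqrt D : ℝ) : ℂ) * (Real.sqrt D : ℝ) = D := by
    rw [← Complex.ofReal_mul, Real.mul_self_sqrt (by linarith), Complex.ofReal_natCast]
  have hs0 : ((Real.sqrt D : ℝ) : ℂ) ≠ 0 := by
    exact_mod_cast (Real.sqrt_pos.2 (by linarith : (0 : ℝ) < D)).ne'
  have hfun : (fun t => cS D 0 t * (ρ * 1 * Kp 0 r 0 D t) +
      cI D r t * (ρ * (-1) * Kp 0 r 0 1 t)) =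
      fun t => ρ * Kp 0 r 0 D t * (-(Complex.I * Real.sqrt D) *
        ((D : ℂ) ^ (-t) - (D : ℂ) ^ (-(2 * (r : ℂ)) - 3 * t))) := by
    funext t
    have e1 : Kp 0 r 0 1 t = (D : ℂ) ^ (1 - t) * Kp 0 r 0 D t := by
      rw [Kp_scale 0 r D (by omega) t, ← mul_assoc, ← Complex.cpow_add _ _ hD0]
      simp
    have e2 : cS D 0 t = -(Complex.I * Real.sqrt D) * (D : ℂ) ^ (-t) := by
      unfold cS
      have e3 : ((0 : ℕ) : ℂ) + 1 - t = 1 + -t := by
        push_cast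
        ring
      rw [e3, Complex.cpow_add _ _ hD0, Complex.cpow_one, pow_zero, inv_one, mul_one, ← hsq]
      field_simp
    have e4 : cI D r t * (D : ℂ) ^ (1 - t) = -(Complex.I * Real.sqrt D) *
        (D : ℂ) ^ (-(2 * (r : ℂ)) - 3 * t) := by
      unfold cI
      rw [mul_assoc, ← Complex.cpow_add _ _ hD0]
      congr 2
      ring
    rw [e1, e2]
    linear_combination (-ρ * Kp 0 r 0 D t) * e4
  rw [hfun]
  have hK := (diff_Kp h7 0 r 0 D (by omega) (by omega)).hasDerivAt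
  have d1 : HasDerivAt (fun t : ℂ => (D : ℂ) ^ (-t)) ((D : ℂ) ^ (-(-(r : ℂ))) * Complex.log D * (-1))
      (-(r : ℂ)) := (hasDerivAt_neg _).const_cpow (Or.inl hD0)
  have d2 : HasDerivAt (fun t : ℂ => (D : ℂ) ^ (-(2 * (r : ℂ)) - 3 * t))
      ((D : ℂ) ^ (-(2 * (r : ℂ)) - 3 * (-(r : ℂ))) * Complex.log D * (-3)) (-(r : ℂ)) := by
    refine HasDerivAt.const_cpow ?_ (Or.inl hD0)
    have := ((hasDerivAt_id (-(r : ℂ))).const_mul 3).const_sub (-(2 * (r : ℂ)))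
    simpa using this
  have d3 := (hK.const_mul ρ).mul ((d1.sub d2).const_mul (-(Complex.I * Real.sqrt D)))
  have x1 : -(-(r : ℂ)) = r := by ring
  have x2 : -(2 * (r : ℂ)) - 3 * (-(r : ℂ)) = r := by ring
  have hder : deriv (fun t => ρ * Kp 0 r 0 D t * (-(Complex.I * Real.sqrt D) *
        ((D : ℂ) ^ (-t) - (D : ℂ) ^ (-(2 * (r : ℂ)) - 3 * t)))) (-(r : ℂ)) =
      ρ * Kp 0 r 0 D (-(r : ℂ)) * (-(Complex.I * Real.sqrt D) * ((D : ℂ) ^ r *
        (Complex.log D * 2))) := by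
    refine Eq.trans d3.deriv ?_
    simp only [Pi.sub_apply, x1, x2, Complex.cpow_natCast]
    ring
  rw [hder, (h2 0 r 0 D (by omega)).1 (by omega)]
  have hJ := h4 0 r 0 le_rfl zero_le_one
  have hJ' : |Jac 0 r (((0 : ℕ) : ℝ) / D)| ≤ 1 := by simpa using hJ
  have hlog : Complex.log (D : ℂ) = ((Real.log D : ℝ) : ℂ) := Complex.natCast_log.symm
  have hR0 : 0 ≤ R := by
    rw [hR]
    exact Real.log_nonneg hD1.le
  have hh0 : 0 ≤ h := le_trans (norm_nonneg _) hρ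
  have hpi := Real.pi_pos
  rw [hlog, ← hR]
  have hn : ‖ρ * (-2 * Real.pi * Complex.I * ((0 + r).factorial : ℂ) *
      ((4 * Real.pi * D : ℂ) ^ (0 + r + 1))⁻¹ * (Jac 0 r (((0 : ℕ) : ℝ) / D) : ℂ)) *
        (-(Complex.I * Real.sqrt D) * ((D : ℂ) ^ r * ((R : ℂ) * 2)))‖ =
      ‖ρ‖ * (2 * Real.pi * ((0 + r).factorial : ℝ) * ((4 * Real.pi * D) ^ (0 + r + 1))⁻¹ *
        |Jac 0 r (((0 : ℕ) : ℝ) / D)|) * (Real.sqrt D * ((D : ℝ) ^ r * (R * 2))) := by
    simp only [norm_mul, norm_neg, norm_inv, norm_pow, Complex.norm_I, Complex.norm_natCast,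
      Complex.norm_real, Real.norm_eq_abs, Complex.norm_ofNat, abs_of_pos hpi,
      abs_of_nonneg hR0, abs_of_nonneg (Real.sqrt_nonneg _)]
    ring
  rw [hn]
  have hsD : Real.sqrt D ≤ D := by
    rw [Real.sqrt_le_left (by linarith)]
    nlinarith
  calc ‖ρ‖ * (2 * Real.pi * ((0 + r).factorial : ℝ) * ((4 * Real.pi * D) ^ (0 + r + 1))⁻¹ *
        |Jac 0 r (((0 : ℕ) : ℝ) / D)|) * (Real.sqrt D * ((D : ℝ) ^ r * (R * 2)))
      ≤ h * (2 * Real.pi * ((0 + r).factorial : ℝ) * ((4 * Real.pi * D) ^ (0 + r + 1))⁻¹ *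
        1) * (D * ((D : ℝ) ^ r * (R * 2))) := by gcongr
    _ = _ := by
      rw [mul_pow (4 * Real.pi) (D : ℝ), show (0 + r + 1) = r + 1 by ring]
      field_simp
      ring

/-! ### vanishing -/

section

variable {F : Type} [Field F] [NumberField F]

theorem jac_neg_one {D : ℕ} (hD : OddD D) : jacobiSym (-1) D = -1 := by
  have h1 : D % 2 = 1 := by
    have := hD.2.1
    omega
  rw [jacobiSym.at_neg_one (Nat.odd_iff.2 h1), ZMod.χ₄_nat_three_mod_four hD.2.1]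

theorem jac_compl {D n : ℕ} (hD : OddD D) (hn : n ≤ D) (h : jacobiSym n D = 1) :
    jacobiSym ((D - n : ℕ) : ℤ) D = -1 := by
  have h1 : ((D - n : ℕ) : ℤ) = D - n := by
    push_cast [hn]
    ring
  have h2 : jacobiSym ((D : ℤ) - n) D = jacobiSym (-1 * (n : ℤ)) D := by
    refine jacobiSym.mod_left' ?_
    have h3 : (D : ℤ) - n = -1 * (n : ℤ) + D * 1 := by ring
    rw [h3, Int.add_mul_emod_self_left]
  rw [h1, h2, jacobiSym.mul_left, h, jac_neg_one hD]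
  norm_num

theorem bpsi_zero {D : ℕ} {s : 𝓞 F} {σ : F →+* ℂ} {χ : DirichletCharacter ℂ D}
    {cj : 𝓞 F ≃+* 𝓞 F} (h6 : StCountD) (hd : DatD D s σ χ cj) (ψ : Ideal (𝓞 F) →*₀ ℂ) (n : ℕ)
    (hn : 1 ≤ n) (h : jacobiSym n D = -1) : bψ ψ n = 0 := by
  have h1 := h6 D F inferInstance inferInstance s σ χ cj hd n hn
  rw [sum_jac_zero D n h] at h1
  have h2 : Nat.card {b : Ideal (𝓞 F) // Ideal.absNorm b = n} = 0 := by exact_mod_cast h1
  have hfin : Finite {b : Ideal (𝓞 F) // Ideal.absNorm b = n} :=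
    (Ideal.finite_setOfPred_absNorm_eq n).to_subtype
  rcases Nat.card_eq_zero.1 h2 with h3 | h3
  · unfold bψ
    exact tsum_empty
  · exact absurd hfin (not_finite_iff_infinite.2 h3)

theorem vanish {D : ℕ} {s : 𝓞 F} {σ : F →+* ℂ} {χ : DirichletCharacter ℂ D}
    {cj : 𝓞 F ≃+* 𝓞 F} (h6 : StCountD) (hd : DatD D s σ χ cj) (hp : D.Prime) (k : ℕ)
    (ψ : Ideal (𝓞 F) →*₀ ℂ) (c : Reps σ) (n : ℕ) (hn : 1 ≤ n) (hnD : n < D) :
    rT k ψ c n * sS D χ n 0 = 0 := by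
  have hr : rT k ψ c n = bψ ψ n := by
    unfold rT
    rw [if_neg (by omega)]
  rw [hr]
  have : NeZero D := ⟨hp.ne_zero⟩
  rcases jacobiSym.trichotomy (n : ℤ) D with h | h | h
  · exfalso
    have h1 := jacobiSym.eq_zero_iff_not_coprime.1 h
    apply h1
    rw [Int.gcd_natCast_natCast]
    exact Nat.Coprime.symm ((Nat.Prime.coprime_iff_not_dvd hp).2
      (fun h2 => absurd (Nat.le_of_dvd (by omega) h2) (by omega)))
  · rw [sS_zero_arg hd.chi, natAbs_lt D n hnD.le,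
      sum_jac_zero D (D - n) (jac_compl hd.odd hnD.le h), Int.cast_zero, mul_zero]
  · rw [bpsi_zero h6 hd ψ n hn h, zero_mul]

end

/-! ### the bounding sequences -/

/-- The bounds for the terms. -/
noncomputable def bf (m : ℕ) (n : ℕ) : ℝ :=
  20 * Real.sqrt m * (2 * (m : ℝ)) ^ 5 * (((n : ℝ) + m) ^ 2)⁻¹

theorem bf_nonneg (m n : ℕ) : 0 ≤ bf m n := by
  unfold bf
  positivity

theorem bf_summable (m : ℕ) (hm : 1 ≤ m) : Summable fun n : ℕ => bf m (n + 1) := by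
  unfold bf
  refine Summable.mul_left _ ?_
  refine Summable.of_nonneg_of_le (fun n => by positivity) (fun n => ?_) summ_sq
  have hm1 : (1 : ℝ) ≤ m := by exact_mod_cast hm
  have hn : (0 : ℝ) ≤ n := Nat.cast_nonneg n
  push_cast
  gcongr
  linarith

/-- The bounds for the finitely many terms. -/
noncomputable def bg (D : ℕ) (χ : DirichletCharacter ℂ D) (n : ℕ) : ℝ :=
  if n < D then 2 * Real.pi * n * ‖deriv (sS D χ n) 0‖ else 0

theorem bg_nonneg (D : ℕ) (χ : DirichletCharacter ℂ D) (n : ℕ) : 0 ≤ bg D χ n := by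
  unfold bg
  split_ifs
  · have := Real.pi_pos
    positivity
  · exact le_rfl

theorem bg_summable (D : ℕ) (χ : DirichletCharacter ℂ D) : Summable fun n => bg D χ (n + 1) := by
  refine summable_of_ne_finset_zero (s := Finset.range D) fun n hn => ?_
  unfold bg
  rw [if_neg]
  have := Finset.mem_range.not.1 hn
  omega

end SuBm

open SuBm

/-- (R24) -/
theorem stSuB (h1 : StSuA) (h2 : StKpV) (h3 : StKpB) (h4 : StJac) (h5 : StThK)
    (h6 : StCountD) (h7 : StKpA) : StSuB := by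
  intro D _ F _ _ s σ χ cj hd hp
  set h : ℝ := (Nat.card (ClassGroup (𝓞 F)) : ℝ) with hh
  have hh0 : 0 ≤ h := Nat.cast_nonneg _
  have hD1 : 1 ≤ D := hp.one_lt.le
  refine ⟨h * (4 * Real.pi * Real.log D) + (∑' n : ℕ, (bf D (n + 1) + bg D χ (n + 1))) +
    ∑' n : ℕ, bf 1 (n + 1), ?_⟩
  intro k r ψ c hψ hr
  have hr5 : (5 : ℝ) ≤ r := by exact_mod_cast hr
  obtain ⟨hrT, hrT0, -, -, -⟩ := h5 D F inferInstance inferInstance s σ χ cj k ψ c hd hψ
  obtain ⟨-, hdS, hdI, hsm⟩ := h1 D inferInstance F inferInstance inferInstance s σ χ cj k r ψ c hd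
    hp hψ
  set t0 : ℂ := -(r : ℂ) with ht0
  have ht0re : t0.re = -(r : ℝ) := by simp [ht0]
  obtain ⟨-, -, hA', hB'⟩ := hsm t0 (by rw [ht0re]; linarith) (by rw [ht0re]; linarith)
  have ht0r : t0 + r = 0 := by
    rw [ht0]
    ring
  -- bounds
  have hrTb : ∀ n : ℕ, ‖rT k ψ c n‖ ≤ (h + 1) * ((n : ℝ) + 1) * ((n : ℝ) + 1) ^ ((k : ℝ) / 2) := by
    intro n
    rcases Nat.eq_zero_or_pos n with rfl | hn
    · simp
      linarith
    · refine le_trans (hrT n hn) ?_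
      have h8 : (n.divisors.card : ℝ) ≤ n := by exact_mod_cast Nat.card_divisors_le_self n
      have h9 : (n : ℝ) ^ ((k : ℝ) / 2) ≤ ((n : ℝ) + 1) ^ ((k : ℝ) / 2) :=
        Real.rpow_le_rpow (by positivity) (by linarith) (by positivity)
      refine mul_le_mul ?_ h9 (by positivity) (by positivity)
      have : (0 : ℝ) ≤ n := Nat.cast_nonneg n
      nlinarith
  have hKb : ∀ m : ℕ, 1 ≤ m → ∃ C : ℝ, 0 ≤ C ∧ ∀ (n : ℕ) (t : ℂ), n ≠ m →
      -(r : ℝ) - 1 / 4 ≤ t.re → t.re ≤ -(r : ℝ) + 1 / 4 → ‖t‖ ≤ r + 1 →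
      ‖Kp k r n m t‖ ≤ C * ((n : ℝ) + 1) ^ (t.re - k - 1) := by
    intro m hm
    obtain ⟨C, hC⟩ := (h7 k r m hm).2 (r + 1)
    refine ⟨max C 0, le_max_right _ _, fun n t hn ha hb hc => ?_⟩
    refine le_trans (hC n t hn (by linarith) (by linarith) hc) ?_
    exact mul_le_mul_of_nonneg_right (le_max_left _ _) (by positivity)
  obtain ⟨CS, hCS0, hCS⟩ := hKb D hD1
  obtain ⟨CI, hCI0, hCI⟩ := hKb 1 le_rfl
  have hdiffA : DifferentiableAt ℂ (fun t => ∑' n, uS D χ k r ψ c t n) t0 := by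
    refine diff_tsum r hr (fun t n => uS D χ k r ψ c t n) hdS ((h + 1) * (D : ℝ) ^ 2 * CS) ?_
    intro n t ha hb hc
    by_cases hn : n = D
    · simp only [uS, if_pos hn, norm_zero]
      positivity
    · simp only [uS, if_neg hn]
      refine term_bound D k r n hr h CS t.re hCS0 hh0 _ _ _ (hrTb n)
        (norm_sS n _ ?_ hD1) (hCS n t hn ha hb hc) hb
      simp
      linarith
  have hdiffB : DifferentiableAt ℂ (fun t => ∑' n, uI D χ k r ψ c t n) t0 := by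
    refine diff_tsum r hr (fun t n => uI D χ k r ψ c t n) hdI ((h + 1) * (D : ℝ) ^ 2 * CI) ?_
    intro n t ha hb hc
    by_cases hn : n = 1
    · simp only [uI, if_pos hn, norm_zero]
      positivity
    · simp only [uI, if_neg hn]
      refine term_bound D k r n hr h CI t.re hCI0 hh0 _ _ _ (hrTb n)
        (norm_sI n _ ?_ hD1) (hCI n t hn ha hb hc) hb
      simp
      linarith
  have hSUM := ((diff_cS D k hD1 t0).hasDerivAt.mul hdiffA.hasDerivAt).add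
    ((diff_cI D r hD1 t0).hasDerivAt.mul hdiffB.hasDerivAt)
  -- the values at `t0`
  have hA0 : ∑' n, uS D χ k r ψ c t0 n = uS D χ k r ψ c t0 0 := by
    refine tsum_eq_single 0 fun n hn => ?_
    by_cases hnD : n = D
    · simp only [uS, if_pos hnD]
    · simp only [uS, if_neg hnD]
      rcases lt_or_gt_of_ne hnD with h8 | h8
      · rw [ht0r, vanish h6 hd hp k ψ c n (Nat.pos_of_ne_zero hn) h8, zero_mul]
      · rw [(h2 k r n D hD1).2 h8, mul_zero]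
  have hB0 : ∑' n, uI D χ k r ψ c t0 n = uI D χ k r ψ c t0 0 := by
    refine tsum_eq_single 0 fun n hn => ?_
    by_cases hnD : n = 1
    · simp only [uI, if_pos hnD]
    · simp only [uI, if_neg hnD]
      rw [(h2 k r n 1 le_rfl).2 (by omega), mul_zero]
  have hopen : {t : ℂ | -(r : ℝ) - 1 / 4 < t.re ∧ t.re < -1} ∈ nhds t0 := by
    have ho : IsOpen {t : ℂ | -(r : ℝ) - 1 / 4 < t.re ∧ t.re < -1} :=
      (isOpen_lt continuous_const Complex.continuous_re).and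
        (isOpen_lt Complex.continuous_re continuous_const)
    refine ho.mem_nhds ⟨?_, ?_⟩
    · rw [ht0re]
      linarith
    · rw [ht0re]
      linarith
  have hE := ((diff_cS D k hD1 t0).hasDerivAt.mul
      ((hdS 0).differentiableAt hopen).hasDerivAt).add
    ((diff_cI D r hD1 t0).hasDerivAt.mul ((hdI 0).differentiableAt hopen).hasDerivAt)
  set N : ℝ := ((k + r).factorial : ℝ) * ((4 * Real.pi) ^ (k + r + 1))⁻¹ with hN
  have hpi := Real.pi_pos
  have hN0 : 0 ≤ N := by positivity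
  have hχ1 : χ (-1) = -1 := by
    have h8 := hd.chi (-1)
    rw [jac_neg_one hd.odd] at h8
    simpa using h8
  have hEb : ‖deriv (fun t => cS D k t * uS D χ k r ψ c t 0 + cI D r t * uI D χ k r ψ c t 0) t0‖ ≤
      N * (h * (4 * Real.pi * Real.log D)) := by
    have e0 : (0 : ℕ) ≠ D := by omega
    rcases Nat.eq_zero_or_pos k with hk | hk
    · subst hk
      have e1 : (fun t => cS D 0 t * uS D χ 0 r ψ c t 0 + cI D r t * uI D χ 0 r ψ c t 0) =
          fun t => cS D 0 t * (rT 0 ψ c 0 * 1 * Kp 0 r 0 D t) +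
            cI D r t * (rT 0 ψ c 0 * (-1) * Kp 0 r 0 1 t) := by
        funext t
        simp only [uS, uI, if_neg e0, if_neg (zero_ne_one : (0 : ℕ) ≠ 1), sS_zero hp,
          sI_zero _ hχ1]
      rw [e1]
      exact E_zero h2 h4 h7 D r hp.one_lt (Real.log D) h (rT 0 ψ c 0) hrT0 rfl
    · have e1 : (fun t => cS D k t * uS D χ k r ψ c t 0 + cI D r t * uI D χ k r ψ c t 0) =
          fun _ => (0 : ℂ) := by
        funext t
        have e2 : rT k ψ c 0 = 0 := by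
          simp only [rT, if_true]
          rw [if_neg (by omega)]
        simp only [uS, uI, if_neg e0, if_neg (zero_ne_one : (0 : ℕ) ≠ 1), e2]
        ring
      rw [e1, deriv_const, norm_zero]
      have := Real.log_nonneg (by exact_mod_cast hD1 : (1 : ℝ) ≤ D)
      positivity
  -- the terms of the first sum
  have hSb : ∀ n : ℕ, ‖cS D k t0 * deriv (fun t => uS D χ k r ψ c t (n + 1)) t0‖ ≤
      N * (bf D (n + 1) + bg D χ (n + 1)) := by
    intro n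
    have hb1 := bf_nonneg D (n + 1)
    have hb2 := bg_nonneg D χ (n + 1)
    by_cases hn : n + 1 = D
    · have e1 : (fun t => uS D χ k r ψ c t (n + 1)) = fun _ => (0 : ℂ) := by
        funext t
        simp only [uS, if_pos hn]
      rw [e1, deriv_const, mul_zero, norm_zero]
      positivity
    · have e1 : (fun t => uS D χ k r ψ c t (n + 1)) = fun t => rT k ψ c (n + 1) *
          sS D χ (n + 1) (t + r) * Kp k r (n + 1) D t := by
        funext t
        simp only [uS, if_neg hn]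
      have e2 := (hasDeriv_term (rT k ψ c (n + 1)) (sS D χ (n + 1)) (Kp k r (n + 1) D) r
        (diff_sS (n + 1) 0) (diff_Kp h7 k r (n + 1) D hD1 hn)).deriv
      rw [e1, ht0, e2, ← ht0]
      have hT := hrT (n + 1) (by omega)
      have hcard : ((n + 1).divisors.card : ℝ) ≤ ((n + 1 : ℕ) : ℝ) := by
        exact_mod_cast Nat.card_divisors_le_self (n + 1)
      rcases lt_or_gt_of_ne hn with h8 | h8
      · -- `n + 1 < D`
        have e3 : rT k ψ c (n + 1) * (deriv (sS D χ (n + 1)) 0 * Kp k r (n + 1) D t0 +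
            sS D χ (n + 1) 0 * deriv (Kp k r (n + 1) D) t0) =
            rT k ψ c (n + 1) * deriv (sS D χ (n + 1)) 0 * Kp k r (n + 1) D t0 := by
          linear_combination (deriv (Kp k r (n + 1) D) t0) *
            vanish h6 hd hp k ψ c (n + 1) (by omega) h8
        have e4 : ‖Kp k r (n + 1) D t0‖ = 2 * Real.pi * ((k + r).factorial : ℝ) *
            ((4 * Real.pi * D) ^ (k + r + 1))⁻¹ * |Jac k r (((n + 1 : ℕ) : ℝ) / D)| := by
          rw [ht0, (h2 k r (n + 1) D hD1).1 h8]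
          simp only [norm_mul, norm_neg, norm_inv, norm_pow, Complex.norm_I,
            Complex.norm_natCast, Complex.norm_real, Real.norm_eq_abs, Complex.norm_ofNat,
            abs_of_pos hpi]
          ring
        have hJ : (((n + 1 : ℕ) : ℝ) / D) ^ ((k : ℝ) / 2) *
            |Jac k r (((n + 1 : ℕ) : ℝ) / D)| ≤ 1 := by
          have hDR : (0 : ℝ) < D := by exact_mod_cast hD1
          refine h4 k r _ (by positivity) ?_
          rw [div_le_one hDR]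
          exact_mod_cast h8.le
        have key := key_b D (n + 1) k r (by omega) h8 ((n + 1).divisors.card : ℝ)
          ‖deriv (sS D χ (n + 1)) 0‖ (Jac k r (((n + 1 : ℕ) : ℝ) / D)) hcard
          (norm_nonneg _) hJ
        rw [e3, norm_mul, norm_mul, norm_mul, e4, ht0, norm_cS]
        have e5 : bg D χ (n + 1) = 2 * Real.pi * ((n + 1 : ℕ) : ℝ) *
            ‖deriv (sS D χ (n + 1)) 0‖ := by
          unfold bg
          rw [if_pos h8]
        calc _ ≤ (Real.sqrt D)⁻¹ * ((Real.sqrt D) ^ k)⁻¹ * (D : ℝ) ^ (k + 1 + r) *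
              (((n + 1).divisors.card : ℝ) * (((n + 1 : ℕ) : ℝ)) ^ ((k : ℝ) / 2) *
              ‖deriv (sS D χ (n + 1)) 0‖ * (2 * Real.pi * ((k + r).factorial : ℝ) *
                ((4 * Real.pi * D) ^ (k + r + 1))⁻¹ * |Jac k r (((n + 1 : ℕ) : ℝ) / D)|)) := by
              gcongr
          _ ≤ N * bg D χ (n + 1) := by
              rw [e5]
              exact key
          _ ≤ N * (bf D (n + 1) + bg D χ (n + 1)) := by
              gcongr
              linarith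
      · -- `D < n + 1`
        have e3 : Kp k r (n + 1) D t0 = 0 := (h2 k r (n + 1) D hD1).2 h8
        have hK := h3 k r (n + 1) D (by omega) hD1 h8
        have key := key_a D (n + 1) k r hD1 h8 hr ((n + 1).divisors.card : ℝ)
          ‖sS D χ (n + 1) 0‖ (by positivity) hcard (norm_nonneg _) (norm_sS0 (n + 1) h8)
        rw [e3, mul_zero, zero_add, norm_mul, norm_mul, norm_mul, ht0, norm_cS]
        calc _ ≤ (Real.sqrt D)⁻¹ * ((Real.sqrt D) ^ k)⁻¹ * (D : ℝ) ^ (k + 1 + r) *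
              ((((n + 1).divisors.card : ℝ) * (((n + 1 : ℕ) : ℝ)) ^ ((k : ℝ) / 2)) *
              (‖sS D χ (n + 1) 0‖ * (((k + r).factorial : ℝ) * ((2 * Real.pi) ^ (k + r + 1))⁻¹ *
        (((((n + 1 : ℕ) : ℝ)) + D) ^ (k + r))⁻¹ *
          (10 * (1 + Real.log ((((n + 1 : ℕ) : ℝ)) + D)))))) := by
              gcongr
          _ = (Real.sqrt D)⁻¹ * ((Real.sqrt D) ^ k)⁻¹ * (D : ℝ) ^ (k + 1 + r) *
              (((n + 1).divisors.card : ℝ) * (((n + 1 : ℕ) : ℝ)) ^ ((k : ℝ) / 2) *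
              ‖sS D χ (n + 1) 0‖ * (((k + r).factorial : ℝ) * ((2 * Real.pi) ^ (k + r + 1))⁻¹ *
        (((((n + 1 : ℕ) : ℝ)) + D) ^ (k + r))⁻¹ *
          (10 * (1 + Real.log ((((n + 1 : ℕ) : ℝ)) + D))))) := by ring
          _ ≤ N * bf D (n + 1) := key
          _ ≤ N * (bf D (n + 1) + bg D χ (n + 1)) := by
              gcongr
              linarith
  -- the terms of the second sum
  have hIb : ∀ n : ℕ, ‖cI D r t0 * deriv (fun t => uI D χ k r ψ c t (n + 1)) t0‖ ≤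
      N * bf 1 (n + 1) := by
    intro n
    have hb1 := bf_nonneg 1 (n + 1)
    by_cases hn : n + 1 = 1
    · have e1 : (fun t => uI D χ k r ψ c t (n + 1)) = fun _ => (0 : ℂ) := by
        funext t
        simp only [uI, if_pos hn]
      rw [e1, deriv_const, mul_zero, norm_zero]
      positivity
    · have e1 : (fun t => uI D χ k r ψ c t (n + 1)) = fun t => rT k ψ c (n + 1) *
          sI D χ (n + 1) (t + r) * Kp k r (n + 1) 1 t := by
        funext t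
        simp only [uI, if_neg hn]
      have e2 := (hasDeriv_term (rT k ψ c (n + 1)) (sI D χ (n + 1)) (Kp k r (n + 1) 1) r
        (diff_sI (n + 1) 0) (diff_Kp h7 k r (n + 1) 1 le_rfl hn)).deriv
      rw [e1, ht0, e2, ← ht0]
      have hT := hrT (n + 1) (by omega)
      have hcard : ((n + 1).divisors.card : ℝ) ≤ ((n + 1 : ℕ) : ℝ) := by
        exact_mod_cast Nat.card_divisors_le_self (n + 1)
      have h8 : 1 < n + 1 := by omega
      have e3 : Kp k r (n + 1) 1 t0 = 0 := (h2 k r (n + 1) 1 le_rfl).2 h8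
      have hK := h3 k r (n + 1) 1 (by omega) le_rfl h8
      have key := key_a 1 (n + 1) k r le_rfl h8 hr ((n + 1).divisors.card : ℝ)
        ‖sI D χ (n + 1) 0‖ (by positivity) hcard (norm_nonneg _) (norm_sI0 (n + 1) h8)
      have e4 : (Real.sqrt ((1 : ℕ) : ℝ))⁻¹ * ((Real.sqrt ((1 : ℕ) : ℝ)) ^ k)⁻¹ *
          (((1 : ℕ) : ℝ)) ^ (k + 1 + r) = 1 := by simp
      rw [e4, one_mul] at key
      rw [e3, mul_zero, zero_add, norm_mul, norm_mul, norm_mul]
      have hcI := norm_cI D r hD1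
      rw [← ht0] at hcI
      calc _ ≤ 1 *
            ((((n + 1).divisors.card : ℝ) * (((n + 1 : ℕ) : ℝ)) ^ ((k : ℝ) / 2)) *
            (‖sI D χ (n + 1) 0‖ * (((k + r).factorial : ℝ) * ((2 * Real.pi) ^ (k + r + 1))⁻¹ *
        (((((n + 1 : ℕ) : ℝ)) + ((1 : ℕ) : ℝ)) ^ (k + r))⁻¹ *
          (10 * (1 + Real.log ((((n + 1 : ℕ) : ℝ)) + ((1 : ℕ) : ℝ))))))) := by
            gcongr
        _ = (((n + 1).divisors.card : ℝ) * (((n + 1 : ℕ) : ℝ)) ^ ((k : ℝ) / 2) *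
            ‖sI D χ (n + 1) 0‖ * (((k + r).factorial : ℝ) * ((2 * Real.pi) ^ (k + r + 1))⁻¹ *
        (((((n + 1 : ℕ) : ℝ)) + ((1 : ℕ) : ℝ)) ^ (k + r))⁻¹ *
          (10 * (1 + Real.log ((((n + 1 : ℕ) : ℝ)) + ((1 : ℕ) : ℝ)))))) := by ring
        _ ≤ N * bf 1 (n + 1) := key
  -- the sums without the first terms
  have hS1 := (hasSum_nat_add_iff' 1).2 (hA'.mul_left (cS D k t0))
  have hI1 := (hasSum_nat_add_iff' 1).2 (hB'.mul_left (cI D r t0))
  rw [Finset.sum_range_one] at hS1 hI1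
  have hS2 := hS1.norm_le_of_bounded
    (((bf_summable D hD1).add (bg_summable D χ)).hasSum.mul_left N) hSb
  have hI2 := hI1.norm_le_of_bounded ((bf_summable 1 le_rfl).hasSum.mul_left N) hIb
  have hfin : deriv (SUM D χ k r ψ c) t0 =
      deriv (fun t => cS D k t * uS D χ k r ψ c t 0 + cI D r t * uI D χ k r ψ c t 0) t0 +
      (cS D k t0 * deriv (fun t => ∑' n, uS D χ k r ψ c t n) t0 -
        cS D k t0 * deriv (fun t => uS D χ k r ψ c t 0) t0) +
      (cI D r t0 * deriv (fun t => ∑' n, uI D χ k r ψ c t n) t0 -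
        cI D r t0 * deriv (fun t => uI D χ k r ψ c t 0) t0) := by
    have e1 : deriv (SUM D χ k r ψ c) t0 = _ := hSUM.deriv
    have e2 : deriv (fun t => cS D k t * uS D χ k r ψ c t 0 + cI D r t * uI D χ k r ψ c t 0) t0 =
      _ := hE.deriv
    rw [e1, e2, hA0, hB0]
    ring
  rw [hfin]
  refine le_trans (norm_add₃_le) ?_
  calc _ ≤ N * (h * (4 * Real.pi * Real.log D)) +
        N * (∑' n : ℕ, (bf D (n + 1) + bg D χ (n + 1))) + N * ∑' n : ℕ, bf 1 (n + 1) :=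
        add_le_add (add_le_add hEb hS2) hI2
    _ = _ := by
        rw [hN]
        ring

end RZ

end Pool.Agent.Lib.MP_7c08ba_nt
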