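import Pool.Agent.Lib.MP_7c08ba_nt.RZ.StR
import Pool.Agent.Lib.MP_7c08ba_nt.RZ.EisAtD

set_option autoImplicit false

/-!
(R19) the contribution of the `D`-th coefficient of the theta series: Gamma identities
-/

namespace Pool.Agent.Lib.MP_7c08ba_nt

namespace RZ

open NumberField MeasureTheory UpperHalfPlane Set IsDedekindDomain
open scoped MatrixGroups ComplexConjugate nonZeroDivisors

namespace T2Aux

theorem key (G G' S P : ℂ) (hG : G ≠ 0) (hP : P ≠ 0) (h : G * G' * S = P) :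
    G⁻¹ = G' * S / P := by
  rw [eq_div_iff hP, ← h]
  field_simp

theorem alg1 (p s l E g0 e2 t sn u1 gm gp L' : ℂ) (hp : p ≠ 0) (hs : s ≠ 0) :
    (p / s) * u1 * (E * (gm / gp) * L') * g0 * e2 * (t * (l * sn) / p) =
      (1 / s) * (u1 * l) * (g0 * e2) * (E * (gm / gp) * L') * (t * sn) := by
  field_simp

theorem alg2 (s q E ge gm gp L' t sn : ℂ) (hgp : gp ≠ 0) :
    (1 / s) * 1 * (ge * gp / q) * (E * (gm / gp) * L') * (t * sn) =
      (1 / s) * E * L' * t * (1 / q) * (ge * gm * sn) := by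
  field_simp

theorem alg3 (s q E L' t : ℂ) (hq : q ≠ 0) :
    (1 / s) * E * L' * t * (1 / q) * (q * q) = E * (q / s) * L' * t := by
  field_simp

/-- the reciprocal of the Gamma function by the reflection formula -/
theorem inv_Gamma (t : ℂ) (ht : t.re < 1) : (Complex.Gamma t)⁻¹ =
    Complex.Gamma (1 - t) * Complex.sin (Real.pi * t) / Real.pi := by
  have hpi : (Real.pi : ℂ) ≠ 0 := by exact_mod_cast Real.pi_ne_zero
  have h := Complex.Gamma_mul_Gamma_one_sub t
  by_cases hs : Complex.sin (Real.pi * t) = 0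
  · obtain ⟨n, hn⟩ := Complex.sin_eq_zero_iff.1 hs
    have ht' : t = n := by
      have h1 : (Real.pi : ℂ) * t = Real.pi * n := by rw [hn]; ring
      exact mul_left_cancel₀ hpi h1
    have hn1 : n < 1 := by
      rw [ht'] at ht
      simp only [Complex.intCast_re] at ht
      exact_mod_cast ht
    obtain ⟨m, hm⟩ : ∃ m : ℕ, n = -(m : ℤ) := ⟨(-n).toNat, by omega⟩
    have h2 : Complex.Gamma t = 0 := by
      rw [ht', hm]
      push_cast
      exact Complex.Gamma_neg_nat_eq_zero m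
    rw [h2, hs]
    simp
  · have h1 : Complex.Gamma t ≠ 0 := by
      intro h0
      rw [h0, zero_mul] at h
      exact div_ne_zero hpi hs h.symm
    rw [eq_div_iff hs] at h
    exact key _ _ _ _ h1 hpi h

theorem sin_shift (e : ℂ) (r : ℕ) :
    Complex.sin (Real.pi * (e - r)) = (-1) ^ r * Complex.sin (Real.pi * e) := by
  have h : (Real.pi : ℂ) * (e - r) = Real.pi * e - r * Real.pi := by ring
  rw [h]
  exact Complex.sin_antiperiodic.sub_nat_mul_eq r

/-- the Gamma identity -/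
theorem gamma_id (D : ℕ) (hD : 0 < D) (e t : ℂ) (r : ℕ) (ht : t = e - r) (h0 : 0 < e.re)
    (h1 : e.re < 1) (ht1 : t.re < 1) (L L' : ℂ)
    (hL : L = (Real.pi / D : ℂ) ^ (2 * e - 1 / 2) *
      (Complex.Gamma (1 - e) / Complex.Gamma (1 / 2 + e)) * L') :
    (Real.pi / Real.sqrt D) * (-1) ^ r * L * Complex.Gamma (2 * e) * (2 : ℂ) ^ (1 - 2 * e) *
      (Complex.Gamma t)⁻¹ = (Real.pi / D : ℂ) ^ (2 * e) * L' * Complex.Gamma (1 - t) := by
  have hpi : (Real.pi : ℂ) ≠ 0 := by exact_mod_cast Real.pi_ne_zero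
  have hDr : (0 : ℝ) < D := by exact_mod_cast hD
  have hDc : (D : ℂ) ≠ 0 := by exact_mod_cast hD.ne'
  have hsD : (Real.sqrt D : ℂ) ≠ 0 := by
    have := Real.sqrt_pos.2 hDr
    exact_mod_cast this.ne'
  have hsp : (Real.sqrt Real.pi : ℂ) ≠ 0 := by
    have := Real.sqrt_pos.2 Real.pi_pos
    exact_mod_cast this.ne'
  have hsp2 : (Real.sqrt Real.pi : ℂ) * Real.sqrt Real.pi = Real.pi := by
    rw [← Complex.ofReal_mul, Real.mul_self_sqrt Real.pi_pos.le]
  have hdup : Complex.Gamma (2 * e) * (2 : ℂ) ^ (1 - 2 * e) =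
      Complex.Gamma e * Complex.Gamma (e + 1 / 2) / Real.sqrt Real.pi := by
    rw [eq_div_iff hsp, Complex.Gamma_mul_Gamma_add_half]
  have hG1 : Complex.Gamma (1 / 2 + e) ≠ 0 := by
    refine Complex.Gamma_ne_zero_of_re_pos ?_
    simp
    linarith
  have hse : Complex.sin (Real.pi * e) ≠ 0 := by
    intro hs
    obtain ⟨n, hn⟩ := Complex.sin_eq_zero_iff.1 hs
    have he : e = n := by
      have h2 : (Real.pi : ℂ) * e = Real.pi * n := by rw [hn]; ring
      exact mul_left_cancel₀ hpi h2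
    rw [he] at h0 h1
    simp only [Complex.intCast_re] at h0 h1
    have h3 : 0 < n := by exact_mod_cast h0
    have h4 : n < 1 := by exact_mod_cast h1
    omega
  have hrefl : Complex.Gamma e * Complex.Gamma (1 - e) * Complex.sin (Real.pi * e) = Real.pi := by
    rw [Complex.Gamma_mul_Gamma_one_sub, div_mul_cancel₀ _ hse]
  have hpow : (Real.pi / D : ℂ) ^ (2 * e) = (Real.pi / D : ℂ) ^ (2 * e - 1 / 2) *
      (Real.sqrt Real.pi / Real.sqrt D) := by
    have hne : (Real.pi / D : ℂ) ≠ 0 := div_ne_zero hpi hDc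
    have h2 : (Real.sqrt Real.pi / Real.sqrt D : ℂ) = (Real.pi / D : ℂ) ^ (1 / 2 : ℂ) := by
      rw [← Complex.ofReal_div, ← Real.sqrt_div Real.pi_pos.le, Real.sqrt_eq_rpow,
        Complex.ofReal_cpow (by positivity)]
      push_cast
      rfl
    rw [h2, ← Complex.cpow_add _ _ hne]
    congr 1
    ring
  have hs1 : (-1 : ℂ) ^ r * (-1) ^ r = 1 := by
    rw [← mul_pow]
    simp
  rw [inv_Gamma t ht1, ht, sin_shift, hL, hpow]
  have h5 : Complex.Gamma (e + 1 / 2) = Complex.Gamma (1 / 2 + e) := by rw [add_comm]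
  rw [h5] at hdup
  rw [alg1 _ _ _ _ _ _ _ _ _ _ _ _ hpi hsD, hs1, hdup, alg2 _ _ _ _ _ _ _ _ _ hG1, hrefl,
    ← alg3 _ _ _ _ _ hsp, hsp2]

end T2Aux

open T2Aux in
theorem stT2 (h1 : StKD) (h2 : StFE) (h3 : StSgG) : StT2 := by
  intro D hN F _ _ s σ χ cj hD k r t ht1 ht2 ht3
  have hDpos : 0 < D := Nat.pos_of_ne_zero (NeZero.ne D)
  have hDr : (0 : ℝ) < D := by exact_mod_cast hDpos
  have hDc : (D : ℂ) ≠ 0 := by exact_mod_cast hDpos.ne'
  have hsD : (Real.sqrt D : ℂ) ≠ 0 := by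
    have := Real.sqrt_pos.2 hDr
    exact_mod_cast this.ne'
  have hFE := h2 D hN χ (EisAtD.prim hD.odd hD.chi) (by
    have h := EisAtD.chi_neg hD.odd hD.chi 1
    rw [map_one] at h
    exact h) (EisAtD.inv_eq hD.chi) (h3 D hN F _ _ s σ χ cj hD).1 (t + r)
    (by simp; linarith) (by simp; linarith)
  have hid := gamma_id D hDpos (t + r) t r (by ring) (by simp; linarith) (by simp; linarith) ht3
    _ _ hFE
  rw [h1 k r D t hDpos ht1 ht3]
  unfold cS T2
  have hI : (Complex.I * Real.sqrt D : ℂ) ^ k ≠ 0 := pow_ne_zero _ (mul_ne_zero Complex.I_ne_zero hsD)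
  have hDD : (D : ℂ) ^ ((k : ℂ) + 1 - t) * (4 * Real.pi * D : ℂ) ^ (t - k - 1) =
      (4 * Real.pi : ℂ) ^ (t - k - 1) := by
    have e1 : (4 * Real.pi * D : ℂ) ^ (t - k - 1) =
        (4 * Real.pi : ℂ) ^ (t - k - 1) * (D : ℂ) ^ (t - k - 1) := by
      have h4 : (4 * Real.pi : ℂ) = ((4 * Real.pi : ℝ) : ℂ) := by push_cast; rfl
      have h5 : (D : ℂ) = ((D : ℝ) : ℂ) := by push_cast; rfl
      rw [h4, h5, Complex.mul_cpow_ofReal_nonneg (by positivity) hDr.le]
    rw [e1, mul_left_comm, ← Complex.cpow_add _ _ hDc]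
    have e2 : (k : ℂ) + 1 - t + (t - k - 1) = 0 := by ring
    rw [e2, Complex.cpow_zero, mul_one]
  have e3 : (2 : ℂ) * t + 2 * r = 2 * (t + r) := by ring
  have e4 : (1 : ℂ) - 2 * t - 2 * r = 1 - 2 * (t + r) := by ring
  have e5 : t + 2 * (r : ℂ) + 1 = 2 * r + 1 + t := by ring
  rw [e3, e4, e5]
  calc _ = ((Complex.I * Real.sqrt D : ℂ) ^ k)⁻¹ * (Complex.I * Real.sqrt D) ^ k *
        ((D : ℂ) ^ ((k : ℂ) + 1 - t) * (4 * Real.pi * D : ℂ) ^ (t - k - 1)) *
        (Complex.I * Complex.I) * Complex.Gamma (k + 1 - t) / Complex.Gamma (2 * r + 1 + t) *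
        ((Real.pi / Real.sqrt D) * (-1) ^ r * DirichletCharacter.LFunction χ (2 * (t + r)) *
          Complex.Gamma (2 * (t + r)) * (2 : ℂ) ^ (1 - 2 * (t + r)) * (Complex.Gamma t)⁻¹) := by
        simp only [div_eq_mul_inv, mul_inv]
        ring
    _ = _ := by
        rw [hid, hDD, inv_mul_cancel₀ hI, Complex.I_mul_I]
        simp only [div_eq_mul_inv]
        ring

end RZ

end Pool.Agent.Lib.MP_7c08ba_nt
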