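import Mathlib
import Pool.Agent.Lib.MP_7c08ba_nt.RZ.StR

set_option autoImplicit false

/-!
(R3) the theta series of the Hecke character: Fourier expansion with all coefficients, and the
transformation `u ↦ -1 / u`.
-/

namespace Pool.Agent.Lib.MP_7c08ba_nt

namespace RZ

open NumberField MeasureTheory UpperHalfPlane Set IsDedekindDomain
open scoped MatrixGroups ComplexConjugate nonZeroDivisors

namespace ThKAux

lemma norm_ee (z : ℂ) : ‖ee z‖ = Real.exp (-(2 * Real.pi * z.im)) := by
  unfold ee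
  rw [Complex.norm_exp]
  congr 1
  simp

/-- The limit of a Fourier series. -/
lemma lim {ι : Type*} (b : ι → ℂ) (q : ι → ℝ) (hq : ∀ i, 0 ≤ q i)
    (hs : Summable fun i => ‖b i‖ * Real.exp (-(2 * Real.pi * q i))) (g : ι → ℂ)
    (h0 : ∀ i, q i = 0 → g i = b i) (h1 : ∀ i, q i ≠ 0 → g i = 0) :
    Filter.Tendsto (fun y : ℝ => ∑' i, b i * ee (q i * (y * Complex.I))) Filter.atTop
      (nhds (∑' i, g i)) := by
  have him : ∀ (i : ι) (y : ℝ), ((q i : ℂ) * (y * Complex.I)).im = q i * y := by
    intro i y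
    simp
  refine tendsto_tsum_of_dominated_convergence hs ?_ ?_
  · intro i
    by_cases hi : q i = 0
    · rw [h0 i hi]
      have : (fun y : ℝ => b i * ee (q i * (y * Complex.I))) = fun _ => b i := by
        funext y
        rw [hi]
        simp [ee]
      rw [this]
      exact tendsto_const_nhds
    · rw [h1 i hi]
      have hpos : 0 < q i := lt_of_le_of_ne (hq i) (Ne.symm hi)
      rw [tendsto_zero_iff_norm_tendsto_zero]
      have : (fun y : ℝ => ‖b i * ee (q i * (y * Complex.I))‖) =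
          fun y : ℝ => ‖b i‖ * Real.exp (-(2 * Real.pi * q i * y)) := by
        funext y
        rw [norm_mul, norm_ee, him, mul_assoc (2 * Real.pi)]
      rw [this, ← mul_zero ‖b i‖]
      refine Filter.Tendsto.const_mul _ ?_
      exact Real.tendsto_exp_neg_atTop_nhds_zero.comp
        (Filter.tendsto_id.const_mul_atTop (by positivity))
  · filter_upwards [Filter.eventually_ge_atTop 1] with y hy i
    rw [norm_mul, norm_ee, him]
    refine mul_le_mul_of_nonneg_left ?_ (norm_nonneg _)
    rw [Real.exp_le_exp, neg_le_neg_iff]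
    refine mul_le_mul_of_nonneg_left ?_ (by positivity)
    exact le_mul_of_one_le_right (hq i) hy

section

variable {F : Type} [Field F] [NumberField F]

lemma thS_eq (D : ℕ) (σ : F →+* ℂ) (a : Ideal (𝓞 F)) (k : ℕ) (u : ℂ) :
    thS D σ a k u = ((Complex.I * Real.sqrt D) ^ k)⁻¹ * th σ a k (u / D) := by
  unfold thS th
  rw [← tsum_mul_left]
  refine tsum_congr fun x => ?_
  rw [div_pow]
  have : (Qa σ a (x : 𝓞 F) / D * u : ℂ) = Qa σ a (x : 𝓞 F) * (u / D) := by ring
  rw [this]
  ring

lemma Qa_nonneg (σ : F →+* ℂ) (a : Ideal (𝓞 F)) (x : 𝓞 F) : 0 ≤ Qa σ a x :=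
  div_nonneg (Complex.normSq_nonneg _) (Nat.cast_nonneg _)

lemma Qa_ne_zero (σ : F →+* ℂ) {a : Ideal (𝓞 F)} (ha : a ≠ ⊥) {x : 𝓞 F} (hx : x ≠ 0) :
    Qa σ a x ≠ 0 := by
  unfold Qa
  refine div_ne_zero ?_ ?_
  · rw [Ne, Complex.normSq_eq_zero, map_eq_zero]
    intro h
    exact hx (RingOfIntegers.coe_injective (by simpa using h))
  · rw [Nat.cast_ne_zero, Ne, Ideal.absNorm_eq_zero_iff]
    exact ha

lemma Qa_zero (σ : F →+* ℂ) (a : Ideal (𝓞 F)) : Qa σ a 0 = 0 := by
  simp [Qa]

/-- The limit of the theta series at infinity. -/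
lemma th_lim (σ : F →+* ℂ) {a : Ideal (𝓞 F)} (ha : a ≠ ⊥)
    (hs : Summable fun x : a => (1 + ‖σ (x : 𝓞 F)‖) ^ 0 *
      Real.exp (-(2 * Real.pi * Qa σ a x))) :
    Filter.Tendsto (fun y : ℝ => th σ a 0 (y * Complex.I)) Filter.atTop (nhds 1) := by
  classical
  have h := lim (fun _ : a => (1 : ℂ)) (fun x : a => Qa σ a x) (fun x => Qa_nonneg σ a x)
    (by simpa using hs) (fun x => if x = 0 then 1 else 0)
    (by
      intro x hx
      by_cases h : x = 0
      · rw [if_pos h]
      · exact absurd hx (Qa_ne_zero σ ha fun h' => h (Subtype.ext h')))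
    (by
      intro x hx
      by_cases h : x = 0
      · subst h
        exact absurd (Qa_zero σ a) hx
      · rw [if_neg h])
  rw [tsum_ite_eq] at h
  refine h.congr fun y => ?_
  unfold th
  refine tsum_congr fun x => ?_
  rw [pow_zero]

end

end ThKAux

open ThKAux in
/-- Module R3. -/
theorem stThK (h1 : StThPsiN) (h2 : StThPsiD) (h3 : StThSD) (h4 : StPsiD) (h5 : StBmulD)
    (h6 : StThBD) : StThK := by
  intro D F _ _ s σ χ cj k ψ c hd hψ
  classical
  obtain ⟨hk, hnorm, -⟩ := h4 D F _ _ s σ χ cj k ψ hd hψ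
  obtain ⟨hb0, hbn, κ, hκ⟩ := h1 D F _ _ s σ χ cj k ψ c hd hψ
  obtain ⟨hb1, -, -, -, hram⟩ := h5 D F _ _ s σ χ cj k ψ hd hψ
  have hR : ∀ A, (c.R A : Ideal (𝓞 F)) ≠ ⊥ := fun A => nonZeroDivisors.coe_ne_zero (c.R A)
  have hD : D ≠ 0 := by
    rintro rfl
    exact absurd hd.odd.2.2 (by norm_num)
  have hrT : ∀ n : ℕ, n ≠ 0 → rT k ψ c n = bψ ψ n := fun n hn => by
    unfold rT
    rw [if_neg hn]
  -- the constant term
  have hκ0 : κ = rT k ψ c 0 := by
    rcases Nat.eq_zero_or_pos k with rfl | hk1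
    · have e0 : rT 0 ψ c 0 = 1 / 2 * ∑ A : ClassGroup (𝓞 F), (ψ (c.R A : Ideal (𝓞 F)))⁻¹ := by
        unfold rT
        rw [if_pos rfl, if_pos rfl]
      have l1 : Filter.Tendsto (fun y : ℝ => thψ 0 ψ c (y * Complex.I)) Filter.atTop
          (nhds (1 / 2 * ∑ A : ClassGroup (𝓞 F), (ψ (c.R A : Ideal (𝓞 F)))⁻¹ * 1)) := by
        unfold thψ
        refine Filter.Tendsto.const_mul _ (tendsto_finsetSum _ fun A _ => ?_)
        refine Filter.Tendsto.const_mul _ (th_lim σ (hR A) ?_)
        obtain ⟨-, hs, -⟩ := h6 D F _ _ s σ χ cj (c.R A : Ideal (𝓞 F)) 0 0 1 hd (hR A) (one_dvd D)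
        exact hs (2 * Real.pi) (by positivity)
      have l2 : Filter.Tendsto (fun y : ℝ => κ + ∑' n : ℕ, bψ ψ n * ee (((n : ℝ) : ℂ) *
          (y * Complex.I))) Filter.atTop (nhds (κ + ∑' _ : ℕ, (0 : ℂ))) := by
        refine Filter.Tendsto.const_add _ (lim (bψ ψ) (fun n : ℕ => (n : ℝ))
          (fun n => Nat.cast_nonneg n) ?_ _ ?_ fun _ _ => rfl)
        · refine ((hκ Complex.I (by simp)).1).congr fun n => ?_
          rw [norm_mul, norm_ee]
          congr 3
          simp
        · intro n hn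
          have : n = 0 := by exact_mod_cast hn
          rw [this, hb0]
      rw [tsum_zero, add_zero] at l2
      have l3 : Filter.Tendsto (fun y : ℝ => thψ 0 ψ c (y * Complex.I)) Filter.atTop (nhds κ) := by
        refine l2.congr' ?_
        filter_upwards [Filter.eventually_gt_atTop 0] with y hy
        rw [(hκ (y * Complex.I) (by simpa using hy)).2]
        congr 1
      rw [e0]
      have := tendsto_nhds_unique l3 l1
      rw [this]
      congr 1
      exact Finset.sum_congr rfl fun A _ => mul_one _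
    · have e0 : rT k ψ c 0 = 0 := by
        unfold rT
        rw [if_pos rfl, if_neg (by omega)]
      rw [e0]
      obtain ⟨-, -, h⟩ := h2 D F _ _ s σ χ cj k ψ c hd hψ hk1
      have e1 := (h Complex.I (by simp)).2
      rw [(hκ Complex.I (by simp)).2] at e1
      exact add_eq_right.1 e1
  refine ⟨?_, ?_, ?_, ?_, ?_⟩
  · intro n hn
    rw [hrT n (by omega)]
    exact hbn n hn
  · unfold rT
    rw [if_pos rfl]
    split_ifs with h
    · have e1 : ∀ A : ClassGroup (𝓞 F), ‖(ψ (c.R A : Ideal (𝓞 F)))⁻¹‖ = 1 := by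
        intro A
        have := hnorm _ (hR A)
        rw [h, pow_zero] at this
        rw [norm_inv, (pow_eq_one_iff_of_nonneg (norm_nonneg _) two_ne_zero).1 this, inv_one]
      calc ‖1 / 2 * ∑ A : ClassGroup (𝓞 F), (ψ (c.R A : Ideal (𝓞 F)))⁻¹‖
          ≤ 1 * ∑ A : ClassGroup (𝓞 F), ‖(ψ (c.R A : Ideal (𝓞 F)))⁻¹‖ := by
            rw [norm_mul]
            refine mul_le_mul (by norm_num) (norm_sum_le _ _) (norm_nonneg _) zero_le_one
        _ = Nat.card (ClassGroup (𝓞 F)) := by
            rw [one_mul, Finset.sum_congr rfl fun A _ => e1 A, Finset.sum_const,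
              Finset.card_univ, nsmul_eq_mul, mul_one, Nat.card_eq_fintype_card]
    · rw [norm_zero]
      positivity
  · rw [hrT 1 one_ne_zero]
    exact hb1
  · intro hp
    rw [hrT D hD]
    have e1 := hram D hp (dvd_refl D) 1
    rw [pow_one, pow_one] at e1
    have e2 : ram s D = Ideal.span {s} := by
      have hDs : (D : 𝓞 F) = s * -s := by
        have := hd.sq
        linear_combination this
      unfold ram
      refine le_antisymm ?_ ?_
      · rw [Ideal.span_le]
        rintro x (rfl | rfl)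
        · rw [SetLike.mem_coe, Ideal.mem_span_singleton, hDs]
          exact dvd_mul_right _ _
        · exact Ideal.subset_span rfl
      · rw [Ideal.span_le]
        rintro x rfl
        exact Ideal.subset_span (by simp)
    have hs0 : s ≠ 0 := by
      rintro rfl
      have := hd.sq
      rw [zero_pow two_ne_zero, eq_comm, neg_eq_zero, Nat.cast_eq_zero] at this
      exact hD this
    rw [e1, e2, hψ s hs0, hd.im]
  · intro u hu
    obtain ⟨e1, e2⟩ := hκ u hu
    have e3 : ∀ n : ℕ, rT k ψ c n * ee (n * u) = (if n = 0 then κ else 0) +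
        bψ ψ n * ee (n * u) := by
      intro n
      rcases Nat.eq_zero_or_pos n with rfl | hn
      · rw [if_pos rfl, hb0, ← hκ0]
        simp [ee]
      · rw [if_neg (by omega), hrT n (by omega), zero_add]
    have e4 : Summable fun n : ℕ => (if n = 0 then κ else 0) := summable_of_ne_finset_zero
      (s := {0}) (fun n hn => if_neg (by simpa using hn))
    refine ⟨?_, ?_, ?_⟩
    · refine Summable.congr ((e4.add e1.of_norm).norm) fun n => ?_
      rw [e3]
    · rw [e2, tsum_congr e3, e4.tsum_add e1.of_norm, tsum_ite_eq]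
    · unfold thψ
      rw [← mul_assoc, mul_comm _ (1 / 2 : ℂ), mul_assoc (1 / 2 : ℂ)]
      congr 1
      rw [Finset.mul_sum]
      refine Finset.sum_congr rfl fun A _ => ?_
      rw [h3 D F _ _ s σ χ cj (c.R A : Ideal (𝓞 F)) k u hd (hR A) hk hu, thS_eq]
      ring

end RZ

end Pool.Agent.Lib.MP_7c08ba_nt
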