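import Pool.Agent.Lib.MP_7c08ba_nt.RZ.StR

set_option autoImplicit false

/-! The integral of the product of a Fourier series and an Eisenstein series. -/

namespace Pool.Agent.Lib.MP_7c08ba_nt

namespace RZ

open NumberField MeasureTheory UpperHalfPlane Set IsDedekindDomain Filter Topology
open scoped MatrixGroups ComplexConjugate nonZeroDivisors

namespace YIntAux

lemma norm_ee (z : ℂ) : ‖ee z‖ = Real.exp (-(2 * Real.pi * z.im)) := by
  rw [ee, Complex.norm_exp]
  congr 1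
  simp [Complex.mul_re, Complex.mul_im]

lemma continuous_ee : Continuous ee := by
  unfold ee
  fun_prop

lemma ee_split (n m : ℕ) (x y : ℝ) :
    ee (n * (x + y * Complex.I)) * ee (-(m : ℂ) * (x - y * Complex.I)) =
      Complex.exp (-(2 * Real.pi * (n + m) * y)) * ee ((((n : ℤ) - m : ℤ) : ℂ) * x) := by
  simp only [ee, ← Complex.exp_add]
  congr 1
  push_cast
  linear_combination (2 * Real.pi * (n + m) * y : ℂ) * Complex.I_sq

lemma sumexp {ρ : ℕ → ℂ} {e : ℝ} (h : Summable fun n : ℕ => ‖ρ n‖ * ((n : ℝ) + 1) ^ e) {y : ℝ}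
    (hy : 0 < y) : Summable fun n : ℕ => ‖ρ n‖ * Real.exp (-(2 * Real.pi * n * y)) := by
  have hpy : 0 < 2 * Real.pi * y := by positivity
  have h1 : Tendsto (fun n : ℕ => (n : ℝ) + 1) atTop atTop :=
    tendsto_atTop_add_const_right _ 1 tendsto_natCast_atTop_atTop
  have h2 := ((isLittleO_exp_neg_mul_rpow_atTop hpy e).comp_tendsto h1).isBigO
  have h3 : (fun n : ℕ => Real.exp (-(2 * Real.pi * n * y))) =O[atTop]
      (fun n : ℕ => ((n : ℝ) + 1) ^ e) := by
    have h4 : (fun n : ℕ => Real.exp (-(2 * Real.pi * n * y))) =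
        fun n : ℕ => Real.exp (2 * Real.pi * y) * Real.exp (-(2 * Real.pi * y) * ((n : ℝ) + 1)) := by
      funext n
      rw [← Real.exp_add]
      congr 1
      ring
    rw [h4]
    exact h2.const_mul_left _
  exact summable_of_isBigO_nat h ((Asymptotics.isBigO_refl _ _).mul h3)

lemma int_tsum {F : ℕ → ℝ → ℂ} {μ : Measure ℝ} (hF : ∀ n, Integrable (F n) μ)
    (hs : Summable fun n => ∫ a, ‖F n a‖ ∂μ) (hp : ∀ᵐ a ∂μ, Summable fun n => F n a) :
    Integrable (fun a => ∑' n, F n a) μ := by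
  have key : ∑' n, ∫⁻ a, ‖F n a‖ₑ ∂μ ≠ ⊤ := by
    have h1 : ∀ n, ∫⁻ a, ‖F n a‖ₑ ∂μ = ENNReal.ofReal (∫ a, ‖F n a‖ ∂μ) := fun n =>
      (ofReal_integral_norm_eq_lintegral_enorm (hF n)).symm
    simp_rw [h1]
    exact hs.tsum_ofReal_ne_top
  refine ⟨?_, ?_⟩
  · refine aestronglyMeasurable_of_tendsto_ae (f := fun (N : ℕ) a => ∑ n ∈ Finset.range N, F n a)
      atTop (fun N => ?_) ?_
    · exact Finset.aestronglyMeasurable_fun_sum _ fun n _ => (hF n).1
    · filter_upwards [hp] with a ha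
      exact ha.hasSum.tendsto_sum_nat
  · calc ∫⁻ a, ‖∑' n, F n a‖ₑ ∂μ ≤ ∫⁻ a, ∑' n, ‖F n a‖ₑ ∂μ :=
          lintegral_mono fun a => enorm_tsum_le_tsum_enorm
      _ = ∑' n, ∫⁻ a, ‖F n a‖ₑ ∂μ := lintegral_tsum fun n => (hF n).1.enorm
      _ < ⊤ := key.lt_top

lemma meas_Wf (r : ℕ) (N : ℤ) (t : ℂ) : Measurable (fun y : ℝ => Wf r N t y) := by
  have h : StronglyMeasurable (fun p : ℝ × ℝ => ee (N * p.2) * gE r t (p.2 + p.1 * Complex.I)) := by
    apply Measurable.stronglyMeasurable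
    have h1 : Measurable fun p : ℝ × ℝ => ee (N * p.2) :=
      continuous_ee.measurable.comp (by fun_prop)
    have h2 : Measurable fun p : ℝ × ℝ => gE r t (p.2 + p.1 * Complex.I) := by
      unfold gE
      refine Measurable.mul ?_ ?_
      · exact Measurable.inv (Measurable.pow_const (by fun_prop) _)
      · refine Measurable.pow_const ?_ _
        have : Continuous fun p : ℝ × ℝ => Complex.normSq ((p.2 : ℂ) + p.1 * Complex.I) :=
          Complex.continuous_normSq.comp (by fun_prop)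
        exact Complex.measurable_ofReal.comp this.measurable
    exact h1.mul h2
  exact (StronglyMeasurable.integral_prod_right' (ν := volume) h).measurable

end YIntAux

open YIntAux in
theorem stYInt (h1 : StGB) (h2 : StWfB) (h3 : StFour) : StYInt := by
  intro k r m M g ρ t hm hM hgp hg ht1 ht2 hρ
  obtain ⟨G1, G2, G3⟩ := h1 M r t hM ht1
  have hpi := Real.pi_pos
  have hβ : 0 < (k : ℝ) + 1 - t.re := by linarith
  -- the Eisenstein series
  obtain ⟨E, hE⟩ : ∃ E : ℂ → ℂ, E = fun z => ∑' p : ℕ × ℤ,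
      g (p.1 + 1) p.2 * gE r t (M * ((p.1 : ℂ) + 1) * z + p.2) := ⟨_, rfl⟩
  have hEc : ContinuousOn E {z | 0 < z.im} := by
    rw [hE]
    exact G2 g hg
  have hEb : ∀ y₀ : ℝ, 0 < y₀ → ∃ C : ℝ, ∀ z : ℂ, y₀ ≤ z.im →
      ‖E z‖ ≤ C * z.im ^ (-2 * (r : ℝ) - 2 * t.re) := by
    intro y₀ hy₀
    obtain ⟨C, hC⟩ := G3 y₀ hy₀
    refine ⟨C, fun z hz => le_trans ?_ (hC z hz)⟩
    rw [hE]
    have hs := G1 z (hy₀.trans_le hz)
    refine tsum_of_norm_bounded hs.hasSum fun p => ?_
    rw [norm_mul]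
    exact mul_le_of_le_one_left (norm_nonneg _) (hg _ _)
  -- the Fourier series
  obtain ⟨F, hF⟩ : ∃ F : ℂ → ℂ, F = fun z => ∑' n : ℕ, ρ n * ee (n * z) := ⟨_, rfl⟩
  have hnorm : ∀ (n : ℕ) (z : ℂ), ‖ρ n * ee (n * z)‖ =
      ‖ρ n‖ * Real.exp (-(2 * Real.pi * n * z.im)) := by
    intro n z
    rw [norm_mul, norm_ee]
    congr 3
    have : ((n : ℂ) * z).im = n * z.im := by simp
    rw [this]
    ring
  have hFs : ∀ z : ℂ, 0 < z.im → Summable fun n : ℕ => ρ n * ee (n * z) := by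
    intro z hz
    refine Summable.of_norm ?_
    simp_rw [hnorm]
    exact sumexp hρ hz
  have hFc : ContinuousOn F {z | 0 < z.im} := by
    intro z hz
    have hz' : 0 < z.im := hz
    have hz2 : 0 < z.im / 2 := by positivity
    have hopen : IsOpen {w : ℂ | z.im / 2 < w.im} := isOpen_lt continuous_const Complex.continuous_im
    have hc : ContinuousOn F {w : ℂ | z.im / 2 < w.im} := by
      rw [hF]
      refine continuousOn_tsum (u := fun n : ℕ => ‖ρ n‖ * Real.exp (-(2 * Real.pi * n * (z.im / 2))))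
        (fun n => ?_) (sumexp hρ hz2) fun n w hw => ?_
      · exact (continuous_const.mul (continuous_ee.comp (by fun_prop))).continuousOn
      · rw [hnorm]
        have hw' : z.im / 2 < w.im := hw
        gcongr
    refine (hc.continuousAt (hopen.mem_nhds ?_)).continuousWithinAt
    show z.im / 2 < z.im
    linarith
  have hGT : GT M r g ρ t = fun z => F z * ((z.im : ℂ) ^ t * E z) := by
    rw [hF, hE]
    rfl
  have c1 : ContinuousOn (GT M r g ρ t) {z | 0 < z.im} := by
    rw [hGT]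
    refine hFc.mul (ContinuousOn.mul ?_ hEc)
    intro z hz
    have hz' : 0 < z.im := hz
    refine (ContinuousAt.cpow (f := fun z : ℂ => (z.im : ℂ)) ?_ continuousAt_const
      ?_).continuousWithinAt
    · exact (Complex.continuous_ofReal.comp Complex.continuous_im).continuousAt
    · exact Complex.ofReal_mem_slitPlane.2 hz'
  -- the sums
  obtain ⟨S, hS⟩ : ∃ S : ℕ → ℂ, S = fun n : ℕ => ∑' c : ℕ, ((M * (c + 1) : ℕ) : ℂ) ^
      (-(2 * (r : ℂ) + 1) - 2 * t) * Gs M g ((n : ℤ) - m) (c + 1) := ⟨_, rfl⟩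
  obtain ⟨S0, hS0⟩ : ∃ S0 : ℝ, ∀ n, ‖S n‖ ≤ S0 := by
    have hGs : ∀ (N : ℤ) (c : ℕ), ‖Gs M g N c‖ ≤ M * c := by
      intro N c
      unfold Gs
      refine (norm_sum_le _ _).trans ?_
      have : ∀ d ∈ Finset.range (M * c), ‖g c d * ee (-(N * d / (M * c)))‖ ≤ 1 := by
        intro d _
        rw [norm_mul, norm_ee]
        have h0 : (-((N : ℂ) * d / (M * c))).im = 0 := by
          have : (-((N : ℂ) * d / (M * c))) = ((-((N : ℝ) * d / (M * c)) : ℝ) : ℂ) := by
            push_cast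
            rfl
          rw [this, Complex.ofReal_im]
        rw [h0]
        simpa using hg c d
      refine (Finset.sum_le_card_nsmul _ _ _ this).trans ?_
      simp
    have hsum : Summable fun c : ℕ => ((c : ℝ) + 1) ^ (-2 * (r : ℝ) - 2 * t.re) := by
      have h4 : Summable fun c : ℕ => (c : ℝ) ^ (-2 * (r : ℝ) - 2 * t.re) :=
        Real.summable_nat_rpow.2 (by linarith)
      have h5 := (summable_nat_add_iff 1).2 h4
      refine h5.congr fun c => ?_
      push_cast
      rfl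
    refine ⟨∑' c : ℕ, ((c : ℝ) + 1) ^ (-2 * (r : ℝ) - 2 * t.re), fun n => ?_⟩
    · rw [hS]
      refine tsum_of_norm_bounded hsum.hasSum fun c => ?_
      rw [norm_mul, Complex.norm_natCast_cpow_of_pos (by positivity)]
      have he : (-(2 * (r : ℂ) + 1) - 2 * t).re = -2 * (r : ℝ) - 2 * t.re - 1 := by
        simp
        ring
      rw [he]
      have hMc : (0 : ℝ) < (M * (c + 1) : ℕ) := by
        have : 0 < M * (c + 1) := by positivity
        exact_mod_cast this
      have hb : ‖Gs M g ((n : ℤ) - m) (c + 1)‖ ≤ ((M * (c + 1) : ℕ) : ℝ) := by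
        have := hGs ((n : ℤ) - m) (c + 1)
        push_cast at this ⊢
        exact this
      calc ((M * (c + 1) : ℕ) : ℝ) ^ (-2 * (r : ℝ) - 2 * t.re - 1) *
            ‖Gs M g ((n : ℤ) - m) (c + 1)‖
          ≤ ((M * (c + 1) : ℕ) : ℝ) ^ (-2 * (r : ℝ) - 2 * t.re - 1) * ((M * (c + 1) : ℕ) : ℝ) := by
            gcongr
        _ = ((M * (c + 1) : ℕ) : ℝ) ^ (-2 * (r : ℝ) - 2 * t.re) := by
            rw [Real.rpow_sub_one hMc.ne', div_mul_cancel₀ _ hMc.ne']
        _ ≤ ((c : ℝ) + 1) ^ (-2 * (r : ℝ) - 2 * t.re) := by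
            refine Real.rpow_le_rpow_of_nonpos (by positivity) ?_ (by linarith)
            have hM' : (1 : ℝ) ≤ M := by exact_mod_cast hM
            push_cast
            nlinarith [(Nat.cast_nonneg c : (0 : ℝ) ≤ c)]
  have hS00 : 0 ≤ S0 := (norm_nonneg _).trans (hS0 0)
  -- the terms
  obtain ⟨a, ha⟩ : ∃ a : ℕ → ℝ → ℂ, a = fun (n : ℕ) (y : ℝ) => ρ n * S n *
      (Complex.exp (-(2 * Real.pi * (n + m) * y)) * Wf r ((n : ℤ) - m) t y *
        (y : ℂ) ^ (t + k + 2 * r)) := ⟨_, rfl⟩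
  have key : ∀ y : ℝ, 0 < y → HasSum (fun n => a n y)
      ((∫ x in (0 : ℝ)..1, GT M r g ρ t (x + y * Complex.I) *
        ee (-(m : ℂ) * (x - y * Complex.I))) * (y : ℂ) ^ (k + 2 * r + 2 - 2)) := by
    intro y hy
    have him : ∀ x : ℝ, ((x : ℂ) + y * Complex.I).im = y := by intro x; simp
    obtain ⟨C, hC⟩ := hEb y hy
    have hEx : Continuous fun x : ℝ => E (x + y * Complex.I) :=
      hEc.comp_continuous (by fun_prop) fun x => by
        show 0 < ((x : ℂ) + y * Complex.I).im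
        rw [him]
        exact hy
    have hb2 : ∀ x : ℝ, ‖ee (-(m : ℂ) * (x - y * Complex.I))‖ =
        Real.exp (-(2 * Real.pi * m * y)) := by
      intro x
      rw [norm_ee]
      congr 2
      simp
      ring
    have hx : HasSum (fun n : ℕ => ∫ x in (0 : ℝ)..1, ρ n * ee (n * (x + y * Complex.I)) *
        ((y : ℂ) ^ t * E (x + y * Complex.I)) * ee (-(m : ℂ) * (x - y * Complex.I)))
        (∫ x in (0 : ℝ)..1, GT M r g ρ t (x + y * Complex.I) *
          ee (-(m : ℂ) * (x - y * Complex.I))) := by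
      refine intervalIntegral.hasSum_integral_of_dominated_convergence
        (fun n _ => ‖ρ n‖ * Real.exp (-(2 * Real.pi * n * y)) *
          (‖(y : ℂ) ^ t‖ * (C * y ^ (-2 * (r : ℝ) - 2 * t.re)) * Real.exp (-(2 * Real.pi * m * y))))
        (fun n => ?_) (fun n => ?_) ?_ ?_ ?_
      · refine Continuous.aestronglyMeasurable ?_
        exact ((continuous_const.mul (continuous_ee.comp (by fun_prop))).mul
          (continuous_const.mul hEx)).mul (continuous_ee.comp (by fun_prop))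
      · refine ae_of_all _ fun x _ => ?_
        rw [norm_mul, norm_mul, hnorm, him, norm_mul, hb2, mul_assoc]
        have := hC (x + y * Complex.I) (by rw [him])
        rw [him] at this
        gcongr
      · exact ae_of_all _ fun x _ => (sumexp hρ hy).mul_right _
      · exact intervalIntegrable_const
      · refine ae_of_all _ fun x _ => ?_
        have h5 := (hFs (x + y * Complex.I) (by rw [him]; exact hy)).hasSum
        have h6 := (h5.mul_right ((y : ℂ) ^ t * E (x + y * Complex.I))).mul_right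
          (ee (-(m : ℂ) * (x - y * Complex.I)))
        rw [hGT]
        simp only [him]
        rw [hF]
        exact h6
    have hx2 := hx.mul_right ((y : ℂ) ^ (k + 2 * r + 2 - 2))
    refine hx2.congr_fun fun n => ?_
    have hy0 : (y : ℂ) ≠ 0 := by exact_mod_cast hy.ne'
    have e1 : ∀ x : ℝ, ρ n * ee (n * (x + y * Complex.I)) *
        ((y : ℂ) ^ t * E (x + y * Complex.I)) * ee (-(m : ℂ) * (x - y * Complex.I)) =
        ρ n * (y : ℂ) ^ t * Complex.exp (-(2 * Real.pi * (n + m) * y)) *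
          (ee ((((n : ℤ) - m : ℤ) : ℂ) * x) * E (x + y * Complex.I)) := by
      intro x
      linear_combination ρ n * (y : ℂ) ^ t * E (x + y * Complex.I) * ee_split n m x y
    simp_rw [e1]
    rw [intervalIntegral.integral_const_mul]
    have e2 := (h3 M r g t ((n : ℤ) - m) y hM hgp hg ht1 hy).2
    have e3 : ∫ x in (0 : ℝ)..1, ee ((((n : ℤ) - m : ℤ) : ℂ) * x) * E (x + y * Complex.I) =
        S n * Wf r ((n : ℤ) - m) t y := by
      rw [hE, hS]
      exact e2
    rw [e3, ha]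
    have e4 : (y : ℂ) ^ (t + k + 2 * r) = (y : ℂ) ^ t * (y : ℂ) ^ (k + 2 * r + 2 - 2) := by
      rw [Nat.add_sub_cancel, add_assoc, Complex.cpow_add _ _ hy0, ← Complex.cpow_natCast]
      push_cast
      rfl
    simp only []
    rw [e4]
    ring
  -- sizes
  obtain ⟨C, hC⟩ := h2 r t (by linarith)
  have hC0 : 0 ≤ C := by
    have := (norm_nonneg _).trans (hC 0 1 one_pos).2
    simpa using this
  have hbnd : ∀ (n : ℕ) (y : ℝ), 0 < y → ‖a n y‖ ≤ ‖ρ n‖ * S0 * C *
      (y ^ ((k : ℝ) + 1 - t.re - 1) * Real.exp (-((2 * Real.pi * (n + m)) * y))) := by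
    intro n y hy
    rw [ha]
    simp only [norm_mul]
    rw [Complex.norm_cpow_eq_rpow_re_of_pos hy, Complex.norm_exp]
    have e1 : (-(2 * (Real.pi : ℂ) * (n + m) * y)).re = -((2 * Real.pi * (n + m)) * y) := by
      have : (-(2 * (Real.pi : ℂ) * (n + m) * y)) =
          ((-((2 * Real.pi * (n + m)) * y) : ℝ) : ℂ) := by
        push_cast
        ring
      rw [this, Complex.ofReal_re]
    have e2 : (t + k + 2 * r).re = t.re + k + 2 * r := by simp
    rw [e1, e2]
    have e3 := (hC ((n : ℤ) - m) y hy).2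
    have e4 : y ^ (-2 * (r : ℝ) - 2 * t.re) * y ^ (t.re + k + 2 * r) =
        y ^ ((k : ℝ) + 1 - t.re - 1) := by
      rw [← Real.rpow_add hy]
      congr 1
      ring
    calc ‖ρ n‖ * ‖S n‖ * (Real.exp (-((2 * Real.pi * (n + m)) * y)) *
          ‖Wf r ((n : ℤ) - m) t y‖ * y ^ (t.re + k + 2 * r))
        ≤ ‖ρ n‖ * S0 * (Real.exp (-((2 * Real.pi * (n + m)) * y)) *
          (C * y ^ (-2 * (r : ℝ) - 2 * t.re)) * y ^ (t.re + k + 2 * r)) := by
          have := hS0 n
          gcongr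
      _ = ‖ρ n‖ * S0 * C * ((y ^ (-2 * (r : ℝ) - 2 * t.re) * y ^ (t.re + k + 2 * r)) *
          Real.exp (-((2 * Real.pi * (n + m)) * y))) := by ring
      _ = _ := by rw [e4]
  have hnm : ∀ n : ℕ, 0 < 2 * Real.pi * ((n : ℝ) + m) := by
    intro n
    have : (1 : ℝ) ≤ m := by exact_mod_cast hm
    positivity
  have hgi : ∀ n : ℕ, IntegrableOn (fun y : ℝ => y ^ ((k : ℝ) + 1 - t.re - 1) *
      Real.exp (-((2 * Real.pi * (n + m)) * y))) (Ioi 0) := by
    intro n
    have := integrableOn_rpow_mul_exp_neg_mul_rpow (p := 1) (s := (k : ℝ) + 1 - t.re - 1)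
      (b := 2 * Real.pi * (n + m)) (by linarith) one_pos (hnm n)
    refine this.congr_fun (fun y _ => ?_) measurableSet_Ioi
    simp only [Real.rpow_one]
    congr 2
    ring
  have hai : ∀ n : ℕ, IntegrableOn (a n) (Ioi 0) := by
    intro n
    refine Integrable.mono' ((hgi n).const_mul (‖ρ n‖ * S0 * C)) ?_ ?_
    · refine Measurable.aestronglyMeasurable ?_
      rw [ha]
      refine Measurable.const_mul (Measurable.mul (Measurable.mul ?_ (meas_Wf _ _ _)) ?_) _
      · fun_prop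
      · exact Measurable.pow_const Complex.measurable_ofReal _
    · exact (ae_restrict_iff' measurableSet_Ioi).2 (ae_of_all _ fun y hy => hbnd n y hy)
  have hgv : ∀ n : ℕ, ∫ y in Ioi (0 : ℝ), ‖a n y‖ ≤
      (S0 * C * Real.Gamma ((k : ℝ) + 1 - t.re)) * (‖ρ n‖ * ((n : ℝ) + 1) ^ (t.re - k - 1)) := by
    intro n
    have e1 : ∫ y in Ioi (0 : ℝ), ‖a n y‖ ≤ ∫ y in Ioi (0 : ℝ), ‖ρ n‖ * S0 * C *
        (y ^ ((k : ℝ) + 1 - t.re - 1) * Real.exp (-((2 * Real.pi * (n + m)) * y))) :=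
      setIntegral_mono_on (hai n).norm ((hgi n).const_mul _) measurableSet_Ioi
        fun y hy => hbnd n y hy
    rw [integral_const_mul, Real.integral_rpow_mul_exp_neg_mul_Ioi hβ (hnm n)] at e1
    refine e1.trans ?_
    have e2 : (1 / (2 * Real.pi * ((n : ℝ) + m))) ^ ((k : ℝ) + 1 - t.re) ≤
        ((n : ℝ) + 1) ^ (t.re - k - 1) := by
      have e3 : t.re - k - 1 = -((k : ℝ) + 1 - t.re) := by ring
      rw [e3, one_div, Real.inv_rpow (hnm n).le, ← Real.rpow_neg (hnm n).le]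
      refine Real.rpow_le_rpow_of_nonpos (by positivity) ?_ (by linarith)
      have h1 : (1 : ℝ) ≤ m := by exact_mod_cast hm
      have h2 : (1 : ℝ) ≤ 2 * Real.pi := by linarith [Real.pi_gt_three]
      calc (n : ℝ) + 1 ≤ 1 * ((n : ℝ) + m) := by linarith
        _ ≤ 2 * Real.pi * ((n : ℝ) + m) := by gcongr
    have hG := (Real.Gamma_pos_of_pos hβ).le
    calc ‖ρ n‖ * S0 * C * ((1 / (2 * Real.pi * ((n : ℝ) + m))) ^ ((k : ℝ) + 1 - t.re) *
          Real.Gamma ((k : ℝ) + 1 - t.re))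
        ≤ ‖ρ n‖ * S0 * C * (((n : ℝ) + 1) ^ (t.re - k - 1) *
          Real.Gamma ((k : ℝ) + 1 - t.re)) := by gcongr
      _ = _ := by ring
  have has : Summable fun n => ∫ y in Ioi (0 : ℝ), ‖a n y‖ :=
    Summable.of_nonneg_of_le (fun n => integral_nonneg fun y => norm_nonneg _) hgv
      (hρ.mul_left _)
  have hval : ∀ n, ∫ y in Ioi (0 : ℝ), a n y = ρ n * S n * Kn k r n m t := by
    intro n
    rw [ha, Kn, ← integral_const_mul]
  have hkey : ∀ᵐ y ∂(volume.restrict (Ioi (0 : ℝ))), HasSum (fun n => a n y)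
      ((∫ x in (0 : ℝ)..1, GT M r g ρ t (x + y * Complex.I) *
        ee (-(m : ℂ) * (x - y * Complex.I))) * (y : ℂ) ^ (k + 2 * r + 2 - 2)) :=
    (ae_restrict_iff' measurableSet_Ioi).2 (ae_of_all _ fun y hy => key y hy)
  have hSr : ∀ n, S n = ∑' c : ℕ, ((M * (c + 1) : ℕ) : ℂ) ^
      (-(2 * (r : ℂ) + 1) - 2 * t) * Gs M g ((n : ℤ) - m) (c + 1) := fun n => by rw [hS]
  refine ⟨c1, ?_, ?_, ?_⟩
  · have := int_tsum (μ := volume.restrict (Ioi (0 : ℝ))) hai has
      (hkey.mono fun y hy => hy.summable)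
    exact this.congr (hkey.mono fun y hy => hy.tsum_eq)
  · refine Summable.of_nonneg_of_le (fun n => norm_nonneg _) (fun n => ?_) has
    rw [← hSr, ← hval]
    exact norm_integral_le_integral_norm _
  · have h5 := hasSum_integral_of_summable_integral_norm (μ := volume.restrict (Ioi (0 : ℝ)))
      hai has
    rw [JJ]
    have h6 : ∫ y in Ioi (0 : ℝ), (∫ x in (0 : ℝ)..1, GT M r g ρ t (x + y * Complex.I) *
        ee (-(m : ℂ) * (x - y * Complex.I))) * (y : ℂ) ^ (k + 2 * r + 2 - 2) =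
        ∫ y in Ioi (0 : ℝ), ∑' n, a n y :=
      integral_congr_ae (hkey.mono fun y hy => hy.tsum_eq.symm)
    rw [h6, ← h5.tsum_eq]
    refine tsum_congr fun n => ?_
    rw [hval, hSr]

end RZ

end Pool.Agent.Lib.MP_7c08ba_nt
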