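import Mathlib
import Pool.Agent.Lib.MP_7c08ba_nt.RZ.AllN
import Pool.Agent.Lib.MP_7c08ba_nt.RZ.PetG
import Pool.Agent.Lib.MP_7c08ba_nt.RZ.GB
import Pool.Agent.Lib.MP_7c08ba_nt.RZ.ThK
import Pool.Agent.Lib.MP_7c08ba_nt.RZ.TrS
import Pool.Agent.Lib.MP_7c08ba_nt.RZ.Grow
import Pool.Agent.Lib.MP_7c08ba_nt.RZ.Rs1
import Pool.Agent.Lib.MP_7c08ba_nt.RZ.WfB
import Pool.Agent.Lib.MP_7c08ba_nt.RZ.Four
import Pool.Agent.Lib.MP_7c08ba_nt.RZ.YInt
import Pool.Agent.Lib.MP_7c08ba_nt.RZ.I0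
import Pool.Agent.Lib.MP_7c08ba_nt.RZ.Sc
import Pool.Agent.Lib.MP_7c08ba_nt.RZ.SgG
import Pool.Agent.Lib.MP_7c08ba_nt.RZ.Gs
import Pool.Agent.Lib.MP_7c08ba_nt.RZ.Pol
import Pool.Agent.Lib.MP_7c08ba_nt.RZ.JR
import Pool.Agent.Lib.MP_7c08ba_nt.RZ.KpA
import Pool.Agent.Lib.MP_7c08ba_nt.RZ.KD
import Pool.Agent.Lib.MP_7c08ba_nt.RZ.FE
import Pool.Agent.Lib.MP_7c08ba_nt.RZ.T2
import Pool.Agent.Lib.MP_7c08ba_nt.RZ.KpV
import Pool.Agent.Lib.MP_7c08ba_nt.RZ.Jac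
import Pool.Agent.Lib.MP_7c08ba_nt.RZ.KpB
import Pool.Agent.Lib.MP_7c08ba_nt.RZ.SuA
import Pool.Agent.Lib.MP_7c08ba_nt.RZ.SuB
import Pool.Agent.Lib.MP_7c08ba_nt.RZ.DT
import Pool.Agent.Lib.MP_7c08ba_nt.RZ.EqR
import Pool.Agent.Lib.MP_7c08ba_nt.RZ.Big
import Pool.Agent.Lib.MP_7c08ba_nt.RZ.R1.EigR
import Pool.Agent.Lib.MP_7c08ba_nt.RZ.R1.ApR
import Pool.Agent.Lib.MP_7c08ba_nt.RZ.MainR

set_option autoImplicit false

/-!
Assembly of the modules for rank one, prime discriminants: StMainR.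
-/

namespace Pool.Agent.Lib.MP_7c08ba_nt

namespace RZ

theorem aPetG : StPetG := stPetG aUnf aStrip aFd aPoiS

theorem aGB : StGB := stGB

theorem aThK : StThK := stThK aThPsiN aThPsiD aThSD aPsiD aBmulD aThBD

theorem aTrS : StTrS := stTrS aThK aThGD aEisLawD aPsiD

theorem aGrow : StGrow := stGrow aTrS aThBD aGB aThK

theorem aRs1 : StRs1 := stRs1 aPetG aGrow aTraceD aHN aPsiD

theorem aWfB : StWfB := stWfB

theorem aFour : StFour := stFour aGB aWfB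

theorem aYInt : StYInt := stYInt aGB aWfB aFour

theorem aI0 : StI0 := stI0

theorem aSc : StSc := stSc

theorem aSgG : StSgG := stSgG aEisAD aEisLawD aThlD aIdSumD aCountD aBasD aThBD aRepsD

theorem aGs : StGs := stGs aSgG

theorem aPol : StPol := stPol aWfB

theorem aJR : StJR := stJR aTrS aYInt aI0 aSc aGs aThK aPol

theorem aKpA : StKpA := stKpA aHol

theorem aKD : StKD := stKD

theorem aFE : StFE := stFE

theorem aT2 : StT2 := stT2 aKD aFE aSgG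

theorem aKpV : StKpV := stKpV

theorem aJac : StJac := stJac

theorem aKpB : StKpB := stKpB aHol aKpV aKpA

theorem aSuA : StSuA := stSuA aKpA aThK

theorem aSuB : StSuB := stSuB aSuA aKpV aKpB aJac aThK aCountD aKpA

theorem aDT : StDT := stDT

theorem aEqR : StEqR := stEqR aRs1 aJR aT2 aSuA aDT aRSanN aSgG

theorem aBig : StBig := stBig aEqR aDT aSuB aSgG aSuA

theorem aEigS : StEigS := stEigS

theorem aMainR : StMainR := stMainR aBig aEigS aPoi aRSanN aTr0 aRSN aDnN aEulN aW12 aRepsD aPsiD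
  aHN aCoef aFd

end RZ

end Pool.Agent.Lib.MP_7c08ba_nt
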