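import Mathlib
import Pool.Agent.Lib.MP_7c08ba_nt.RZ.StR

set_option autoImplicit false

/-!
Statements of the modules for rank one, explicit: the field of discriminant `-7` (and `-11`),
trivial character, all weights.
-/

namespace Pool.Agent.Lib.MP_7c08ba_nt

namespace RZ

open NumberField MeasureTheory UpperHalfPlane Set IsDedekindDomain
open scoped MatrixGroups ComplexConjugate nonZeroDivisors

/-- The integrals in the derivatives of `Kp`. -/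
noncomputable def JI (k r n m : ℕ) : ℝ :=
  ∫ x in (0 : ℝ)..1, x ^ r * (1 - x) ^ (k + r) * (((n : ℝ) - m * x) ^ (k + r + 1))⁻¹

/-- Number of ideals of norm `n`. -/
noncomputable def rn (D n : ℕ) : ℝ := ((∑ d ∈ n.divisors, jacobiSym (d : ℤ) D : ℤ) : ℝ)

/-- Sum of logarithms over the divisors. -/
noncomputable def sl (D n : ℕ) : ℝ := ∑ d ∈ n.divisors, (jacobiSym (d : ℤ) D : ℝ) * Real.log d

/-- The finite sum of Legendre polynomials. -/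
noncomputable def BB (D r : ℕ) : ℝ :=
  ∑ n ∈ Finset.range D, if n = 0 then 0 else rn D n * sl D (D - n) * Jac 0 r ((n : ℝ) / D)

/-- The infinite sums, cusp `0`. -/
noncomputable def AS (D r : ℕ) : ℝ :=
  ∑' n : ℕ, if D < n then rn D n * rn D (n - D) * (D : ℝ) ^ (r + 1) * JI 0 r n D else 0

/-- The infinite sums, cusp infinity. -/
noncomputable def AI (D r : ℕ) : ℝ :=
  ∑' n : ℕ, if 1 < n then rn D n * rn D (n - 1) * JI 0 r n 1 else 0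

/-- (S1) the exact derivatives of `Kp` at `-r`, first index larger than the second -/
def StKpE : Prop :=
  ∀ (k r n m : ℕ), 1 ≤ r → 1 ≤ m → m < n → deriv (Kp k r n m) (-r) =
    -2 * Real.pi * Complex.I * ((k + r).factorial : ℂ) *
      ((4 * Real.pi : ℂ) ^ (k + r + 1))⁻¹ * (JI k r n m : ℂ)

/-- (S2) the derivative of the sums at `-r`, trivial character -/
def StClo : Prop :=
  ∀ (D : ℕ) (_ : NeZero D) (F : Type) (_ : Field F) (_ : NumberField F) (s : 𝓞 F)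
    (σ : F →+* ℂ) (χ : DirichletCharacter ℂ D) (cj : 𝓞 F ≃+* 𝓞 F) (r : ℕ)
    (ψ : Ideal (𝓞 F) →*₀ ℂ) (c : Reps σ), DatD D s σ χ cj → D.Prime →
    (∀ a : Ideal (𝓞 F), a ≠ ⊥ → ψ a = 1) → 4 ≤ r →
    deriv (SUM D χ 0 r ψ c) (-r) = ((4 * Real.pi / Real.sqrt D * (r.factorial : ℝ) *
      ((4 * Real.pi) ^ (r + 1))⁻¹ * (BB D r - (-1) ^ r * (Fintype.card (ClassGroup (𝓞 F)) / 2) *
        Real.log D - (AS D r + AI D r) / 2) : ℝ) : ℂ)

/-- (S3) the infinite sums decrease -/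
def StAnt : Prop :=
  ∀ D : ℕ, 1 ≤ D → (∀ n : ℕ, 1 ≤ n → 0 ≤ rn D n) → ∀ r r' : ℕ, 4 ≤ r → r ≤ r' →
    AS D r' ≤ AS D r ∧ AI D r' ≤ AI D r

/-- (S4) size of the Legendre polynomials for large `r` -/
def StJB : Prop :=
  ∀ r : ℕ, 60 ≤ r → |Jac 0 r (1 / 7)| ≤ 1 / 4 ∧ |Jac 0 r (2 / 7)| ≤ 1 / 4 ∧
    |Jac 0 r (4 / 7)| ≤ 1 / 4

/-- The elementary function for `D = 7`. -/
noncomputable def W7 (r : ℕ) : ℝ :=
  (harmonic r : ℝ) - (2 * Real.log 3 * Jac 0 r (1 / 7) + 2 * Real.log 5 * Jac 0 r (2 / 7) +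
    3 * Real.log 3 * Jac 0 r (4 / 7)) - (-1) ^ r * (Real.log 7 / 2)

/-- (S5) the inequality for `D = 7` -/
def StLeg : Prop := W7 4 < W7 5 ∧ ∀ r : ℕ, 7 ≤ r → W7 6 < W7 r

/-- (S6) the analytic part of the theorem for `D = 7` -/
def StMain7 : Prop :=
  ∀ (F : Type) (_ : Field F) (_ : NumberField F) (s : F) (σ : F →+* ℂ),
    Module.finrank ℚ F = 2 → s ^ 2 = -(7 : F) →
    ∀ (w r : ℕ) (ψ : Ideal (𝓞 F) →*₀ ℂ), w = 2 * r + 2 → (r = 5 ∨ 7 ≤ r) →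
      IsHecke σ 0 ψ → ∃ f : CuspForm 𝒮ℒ (w : ℤ), IsEigen f ∧
        ∃ Λ : ℂ → ℂ, DifferentiableOn ℂ Λ {z | -1 / 2 < z.re} ∧
          (∀ z : ℂ, 1 < z.re → HasProd (fun v : HeightOneSpectrum (𝓞 F) =>
            (eulF f ψ ((w : ℂ) / 2 + z) v)⁻¹) (Λ z)) ∧ Λ 0 = 0 ∧ deriv Λ 0 ≠ 0

end RZ

end Pool.Agent.Lib.MP_7c08ba_nt
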