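import Pool.Agent.Lib.MP_7c08ba_nt.RZ.StR

set_option autoImplicit false

/-!
Statements of the modules for the count of forms of rank one: the derivative at the centre for the
Poincaré series `P_m`, `m ≥ 1`, with explicit dependence on `m`, and the conclusion that a power of
`r` of the eigenforms of weight `w = k + 2 * r + 2` have a non-zero derivative.
Plan: team store `RZRm_plan.md`.
-/

namespace Pool.Agent.Lib.MP_7c08ba_nt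

namespace RZ

open NumberField MeasureTheory UpperHalfPlane Set IsDedekindDomain
open scoped MatrixGroups ComplexConjugate nonZeroDivisors

section

variable {F : Type} [Field F] [NumberField F]

/-- The sums over the divisors, cusp `0`, index `m`. -/
noncomputable def sSm (D : ℕ) (χ : DirichletCharacter ℂ D) (m n : ℕ) (e : ℂ) : ℂ :=
  ∑ d ∈ ((n : ℤ) - (m * D : ℕ)).natAbs.divisors, χ ((d : ℤ) : ZMod D) * (d : ℂ) ^ (-(2 * e))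

/-- The sums over the divisors, cusp infinity, index `m`. -/
noncomputable def sIm (D : ℕ) (χ : DirichletCharacter ℂ D) (m n : ℕ) (e : ℂ) : ℂ :=
  ∑ d ∈ ((n : ℤ) - m).natAbs.divisors, χ ((((n : ℤ) - m) / d : ℤ) : ZMod D) *
    (d : ℂ) ^ (-(2 * e))

/-- The terms of the sum for the cusp `0`, index `m`. -/
noncomputable def uSm {σ : F →+* ℂ} (D : ℕ) (χ : DirichletCharacter ℂ D) (k r m : ℕ)
    (ψ : Ideal (𝓞 F) →*₀ ℂ) (c : Reps σ) (t : ℂ) (n : ℕ) : ℂ :=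
  if n = m * D then 0 else rT k ψ c n * sSm D χ m n (t + r) * Kp k r n (m * D) t

/-- The terms of the sum for the cusp infinity, index `m`. -/
noncomputable def uIm {σ : F →+* ℂ} (D : ℕ) (χ : DirichletCharacter ℂ D) (k r m : ℕ)
    (ψ : Ideal (𝓞 F) →*₀ ℂ) (c : Reps σ) (t : ℂ) (n : ℕ) : ℂ :=
  if n = m then 0 else rT k ψ c n * sIm D χ m n (t + r) * Kp k r n m t

/-- The two sums, index `m`. -/
noncomputable def SUMm {σ : F →+* ℂ} (D : ℕ) (χ : DirichletCharacter ℂ D) (k r m : ℕ)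
    (ψ : Ideal (𝓞 F) →*₀ ℂ) (c : Reps σ) (t : ℂ) : ℂ :=
  cS D k t * ∑' n : ℕ, uSm D χ k r m ψ c t n + cI D r t * ∑' n : ℕ, uIm D χ k r m ψ c t n

end

/-- (Q1) the coefficients of the theta series at multiples of `D` -/
def StRTm : Prop :=
  ∀ (D : ℕ) (F : Type) (_ : Field F) (_ : NumberField F) (s : 𝓞 F) (σ : F →+* ℂ)
    (χ : DirichletCharacter ℂ D) (cj : 𝓞 F ≃+* 𝓞 F) (k : ℕ) (ψ : Ideal (𝓞 F) →*₀ ℂ)
    (c : Reps σ), DatD D s σ χ cj → D.Prime → IsHecke σ k ψ → ∀ m : ℕ, 1 ≤ m →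
    rT k ψ c (m * D) = rT k ψ c m * (Complex.I * Real.sqrt D) ^ k

/-- (Q2) the integral for the Poincaré series of index `m` -/
def StRs1m : Prop :=
  ∀ (D : ℕ) (_ : NeZero D) (F : Type) (_ : Field F) (_ : NumberField F) (s : 𝓞 F)
    (σ : F →+* ℂ) (χ : DirichletCharacter ℂ D) (cj : 𝓞 F ≃+* 𝓞 F) (w k r m : ℕ)
    (ψ : Ideal (𝓞 F) →*₀ ℂ) (c : Reps σ) (P : CuspForm 𝒮ℒ (w : ℤ)), DatD D s σ χ cj →
    D.Prime → IsHecke σ k ψ → (∀ A, IsCoprime (c.R A : Ideal (𝓞 F)) (Ideal.span {s})) →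
    w = k + 2 * r + 2 → 1 ≤ m → (∀ z : ℍ, P z = poinc w m z) →
    ∀ t : ℂ, 1 / 2 - (r : ℝ) < t.re → t.re < -1 →
      rsD D (HN D χ k r ψ c t) P = JJ w m (trD D w (HN D χ k r ψ c t))

/-- (Q3) the finite sums for the two cusps -/
def StGsm : Prop :=
  ∀ (D : ℕ) (_ : NeZero D) (F : Type) (_ : Field F) (_ : NumberField F) (s : 𝓞 F)
    (σ : F →+* ℂ) (χ : DirichletCharacter ℂ D) (cj : 𝓞 F ≃+* 𝓞 F), DatD D s σ χ cj →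
    ∀ (r m : ℕ) (t : ℂ), 1 ≤ m → 1 / 2 - (r : ℝ) < t.re →
    (∀ n : ℕ, n ≠ m * D → ∑' c : ℕ, ((1 * (c + 1) : ℕ) : ℂ) ^ (-(2 * (r : ℂ) + 1) - 2 * t) *
      Gs 1 (fun c _ => χ ((c : ℤ) : ZMod D)) ((n : ℤ) - (m * D : ℕ)) (c + 1) =
        sSm D χ m n (t + r)) ∧
    (∑' c : ℕ, ((1 * (c + 1) : ℕ) : ℂ) ^ (-(2 * (r : ℂ) + 1) - 2 * t) *
      Gs 1 (fun c _ => χ ((c : ℤ) : ZMod D)) (((m * D : ℕ) : ℤ) - (m * D : ℕ)) (c + 1) =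
        DirichletCharacter.LFunction χ (2 * (t + r))) ∧
    (∀ n : ℕ, n ≠ m → ∑' c : ℕ, ((D * (c + 1) : ℕ) : ℂ) ^ (-(2 * (r : ℂ) + 1) - 2 * t) *
      Gs D (fun _ d => χ (d : ZMod D)) ((n : ℤ) - m) (c + 1) =
        cI D r t * sIm D χ m n (t + r)) ∧
    (∑' c : ℕ, ((D * (c + 1) : ℕ) : ℂ) ^ (-(2 * (r : ℂ) + 1) - 2 * t) *
      Gs D (fun _ d => χ (d : ZMod D)) ((m : ℤ) - m) (c + 1) = 0)

/-- (Q4) scaling of the functions `Kp` -/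
def StKpSc : Prop :=
  ∀ (k r n m a : ℕ) (t : ℂ), 1 ≤ a →
    Kp k r (n * a) (m * a) t = (a : ℂ) ^ (t - k - 1) * Kp k r n m t

/-- (Q5) the integral for the Poincaré series of index `m`, explicitly -/
def StJRm : Prop :=
  ∀ (D : ℕ) (_ : NeZero D) (F : Type) (_ : Field F) (_ : NumberField F) (s : 𝓞 F)
    (σ : F →+* ℂ) (χ : DirichletCharacter ℂ D) (cj : 𝓞 F ≃+* 𝓞 F) (w k r m : ℕ)
    (ψ : Ideal (𝓞 F) →*₀ ℂ) (c : Reps σ), DatD D s σ χ cj →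
    D.Prime → IsHecke σ k ψ → w = k + 2 * r + 2 → 1 ≤ m →
    ∀ t : ℂ, 1 / 2 - (r : ℝ) < t.re → t.re < -1 →
      JJ w m (trD D w (HN D χ k r ψ c t)) =
        rT k ψ c m * ((m : ℂ) ^ (-((k : ℂ) + 2 * r + 1 + t)) * T1 D χ k r t +
          (m : ℂ) ^ (t - k - 1) * (cS D k t * (DirichletCharacter.LFunction χ (2 * (t + r)) *
            (Complex.I * Real.sqrt D) ^ k * Kp k r D D t))) + SUMm D χ k r m ψ c t

/-- (Q6) the two sums are holomorphic -/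
def StSuAm : Prop :=
  ∀ (D : ℕ) (_ : NeZero D) (F : Type) (_ : Field F) (_ : NumberField F) (s : 𝓞 F)
    (σ : F →+* ℂ) (χ : DirichletCharacter ℂ D) (cj : 𝓞 F ≃+* 𝓞 F) (k r m : ℕ)
    (ψ : Ideal (𝓞 F) →*₀ ℂ) (c : Reps σ), DatD D s σ χ cj → D.Prime → IsHecke σ k ψ → 1 ≤ m →
    DifferentiableOn ℂ (SUMm D χ k r m ψ c) {t | -(r : ℝ) - 1 / 4 < t.re ∧ t.re < -1} ∧
    (∀ n, DifferentiableOn ℂ (fun t => uSm D χ k r m ψ c t n)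
      {t | -(r : ℝ) - 1 / 4 < t.re ∧ t.re < -1}) ∧
    (∀ n, DifferentiableOn ℂ (fun t => uIm D χ k r m ψ c t n)
      {t | -(r : ℝ) - 1 / 4 < t.re ∧ t.re < -1}) ∧
    ∀ t : ℂ, -(r : ℝ) - 1 / 4 < t.re → t.re < -1 →
      (Summable fun n => ‖uSm D χ k r m ψ c t n‖) ∧ (Summable fun n => ‖uIm D χ k r m ψ c t n‖) ∧
      HasSum (fun n => deriv (fun t => uSm D χ k r m ψ c t n) t)
        (deriv (fun t => ∑' n, uSm D χ k r m ψ c t n) t) ∧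
      HasSum (fun n => deriv (fun t => uIm D χ k r m ψ c t n) t)
        (deriv (fun t => ∑' n, uIm D χ k r m ψ c t n) t)

/-- (Q7) the derivative of the other terms at `-r` -/
def StDTm : Prop :=
  ∀ (D : ℕ) (_ : NeZero D) (χ : DirichletCharacter ℂ D), χ ≠ 1 → ∀ k r m : ℕ, 1 ≤ m →
    DifferentiableOn ℂ (fun t => (m : ℂ) ^ (-((k : ℂ) + 2 * r + 1 + t)) * T1 D χ k r t +
      (m : ℂ) ^ (t - k - 1) * T2 D χ k r t) {t | -2 * (r : ℝ) - 1 < t.re ∧ t.re < 1} ∧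
    deriv (fun t => (m : ℂ) ^ (-((k : ℂ) + 2 * r + 1 + t)) * T1 D χ k r t +
      (m : ℂ) ^ (t - k - 1) * T2 D χ k r t) (-r) =
      ((m : ℂ) ^ (k + r + 1))⁻¹ *
      (2 * ((4 * Real.pi : ℂ) ^ (k + r + 1))⁻¹ * ((k + r).factorial : ℂ) *
        (DirichletCharacter.LFunction χ 1 * ((harmonic (k + r) : ℂ) + (harmonic r : ℂ) -
          2 * Real.eulerMascheroniConstant + Real.log (D / (4 * Real.pi ^ 2)) - Real.log m) +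
          2 * deriv (DirichletCharacter.LFunction χ) 1))

/-- (Q8) the Rankin–Selberg integral of the Poincaré series of index `m` near `-r` -/
def StEqRm : Prop :=
  ∀ (D : ℕ) (_ : NeZero D) (F : Type) (_ : Field F) (_ : NumberField F) (s : 𝓞 F)
    (σ : F →+* ℂ) (χ : DirichletCharacter ℂ D) (cj : 𝓞 F ≃+* 𝓞 F) (w k r m : ℕ)
    (ψ : Ideal (𝓞 F) →*₀ ℂ) (c : Reps σ) (P : CuspForm 𝒮ℒ (w : ℤ)), DatD D s σ χ cj →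
    D.Prime → IsHecke σ k ψ → (∀ A, IsCoprime (c.R A : Ideal (𝓞 F)) (Ideal.span {s})) →
    w = k + 2 * r + 2 → 2 ≤ r → 1 ≤ m → (∀ z : ℍ, P z = poinc w m z) →
    ∀ t : ℂ, -(r : ℝ) - 1 / 4 < t.re → t.re < -1 →
      rsD D (HN D χ k r ψ c t) P =
        rT k ψ c m * ((m : ℂ) ^ (-((k : ℂ) + 2 * r + 1 + t)) * T1 D χ k r t +
          (m : ℂ) ^ (t - k - 1) * T2 D χ k r t) + SUMm D χ k r m ψ c t

/-- (Q9) size of the Jacobi polynomials, away from the end points -/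
def StJacS : Prop :=
  ∀ (k r : ℕ) (x : ℝ), 1 ≤ r → 0 < x → x < 1 →
    x ^ ((k : ℝ) / 2) * |Jac k r x| ≤ 2 * (r * x * (1 - x)) ^ (-(1 : ℝ) / 5)

/-- (Q10) the terms with large index -/
def StErB : Prop :=
  ∃ C : ℝ, 0 < C ∧ ∀ (k r Y : ℕ) (ρ τ : ℕ → ℂ), 1 ≤ Y → 20 ≤ r →
    (∀ n : ℕ, 1 ≤ n → ‖ρ n‖ ≤ (n.divisors.card : ℝ) * (n : ℝ) ^ ((k : ℝ) / 2)) →
    (∀ n : ℕ, Y < n → ‖τ n‖ ≤ ((n - Y).divisors.card : ℝ)) →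
    (Summable fun n : ℕ => if Y < n then ‖ρ n * τ n * deriv (Kp k r n Y) (-r)‖ else 0) ∧
    (Y : ℝ) ^ ((k : ℝ) / 2 + r + 1 / 2) *
      ∑' n : ℕ, (if Y < n then ‖ρ n * τ n * deriv (Kp k r n Y) (-r)‖ else 0) ≤
      C * (((k + r).factorial : ℝ) * ((4 * Real.pi) ^ (k + r + 1))⁻¹) *
        ((Y : ℝ) ^ 10 * ((r : ℝ) ^ 4)⁻¹)

/-- (Q11) the terms with small index -/
def StErS : Prop :=
  ∃ C : ℝ, 0 < C ∧ ∀ (k r Y : ℕ) (ρ τ : ℕ → ℂ), 1 ≤ Y → 1 ≤ r →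
    (∀ n : ℕ, 1 ≤ n → ‖ρ n‖ ≤ (n.divisors.card : ℝ) * (n : ℝ) ^ ((k : ℝ) / 2)) →
    (∀ n : ℕ, 1 ≤ n → n < Y → ‖τ n‖ ≤ ((Y - n).divisors.card : ℝ) * (1 + Real.log Y)) →
    (Y : ℝ) ^ ((k : ℝ) / 2 + r + 1 / 2) *
      ∑ n ∈ Finset.Ico 1 Y, ‖ρ n * τ n * Kp k r n Y (-r)‖ ≤
      C * (((k + r).factorial : ℝ) * ((4 * Real.pi) ^ (k + r + 1))⁻¹) *
        ((Y : ℝ) ^ ((9 : ℝ) / 10) * (r : ℝ) ^ (-(1 : ℝ) / 5))

/-- (Q12) the derivative of the two sums at `-r` -/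
def StErr : Prop :=
  ∀ (D : ℕ) (_ : NeZero D) (F : Type) (_ : Field F) (_ : NumberField F) (s : 𝓞 F)
    (σ : F →+* ℂ) (χ : DirichletCharacter ℂ D) (cj : 𝓞 F ≃+* 𝓞 F), DatD D s σ χ cj →
    D.Prime → ∃ C : ℝ, 0 < C ∧ ∀ (k r m : ℕ) (ψ : Ideal (𝓞 F) →*₀ ℂ) (c : Reps σ),
      IsHecke σ k ψ → 20 ≤ r → 1 ≤ m → m ^ 4 ≤ r →
      (m : ℝ) ^ ((k : ℝ) / 2 + r + 1 / 2) * ‖deriv (SUMm D χ k r m ψ c) (-r)‖ ≤
        C * (((k + r).factorial : ℝ) * ((4 * Real.pi) ^ (k + r + 1))⁻¹) *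
          ((m.divisors.card : ℝ) * (1 + Real.log m) * (m : ℝ) ^ (-(1 : ℝ) / 2) +
            (m : ℝ) ^ ((9 : ℝ) / 10) * (r : ℝ) ^ (-(1 : ℝ) / 5))

/-- (Q13) the derivative for the Poincaré series of index `m`; `z` is the main term -/
def StEll : Prop :=
  ∀ (D : ℕ) (_ : NeZero D) (F : Type) (_ : Field F) (_ : NumberField F) (s : 𝓞 F)
    (σ : F →+* ℂ) (χ : DirichletCharacter ℂ D) (cj : 𝓞 F ≃+* 𝓞 F), DatD D s σ χ cj →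
    D.Prime → ∃ L C : ℝ, 0 < L ∧ 0 < C ∧ ∀ (w k r : ℕ) (ψ : Ideal (𝓞 F) →*₀ ℂ) (c : Reps σ),
      IsHecke σ k ψ → (∀ A, IsCoprime (c.R A : Ideal (𝓞 F)) (Ideal.span {s})) →
      w = k + 2 * r + 2 → 20 ≤ r →
      ∃ z : ℂ, L * Real.log r - C ≤ ‖z‖ ∧
      ∀ (m : ℕ) (P : CuspForm 𝒮ℒ (w : ℤ)), 1 ≤ m → m ^ 4 ≤ r →
      (∀ z : ℍ, P z = poinc w m z) →
      ‖(((m : ℝ) ^ ((k : ℝ) / 2 + r + 1 / 2) : ℝ) : ℂ) *
          deriv (fun t => rsD D (HN D χ k r ψ c t) P) (-r) -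
        ((((k + r).factorial : ℝ) * ((4 * Real.pi) ^ (k + r + 1))⁻¹ : ℝ) : ℂ) *
          ((rT k ψ c m * (((m : ℝ) ^ (-((k : ℝ) + 1) / 2) : ℝ) : ℂ)) * z)‖ ≤
        C * (((k + r).factorial : ℝ) * ((4 * Real.pi) ^ (k + r + 1))⁻¹) *
          ((m.divisors.card : ℝ) * (1 + Real.log m) * (m : ℝ) ^ (-(1 : ℝ) / 2) +
            (m : ℝ) ^ ((9 : ℝ) / 10) * (r : ℝ) ^ (-(1 : ℝ) / 5))

/-- (Q14) many primes of about the same size -/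
def StPrC : Prop :=
  ∃ u₀ : ℕ, ∀ u : ℕ, u₀ ≤ u → ∃ S : Finset ℕ, S.card = (u + 1) ^ 4 ∧
    ∀ p ∈ S, p.Prime ∧ u ^ 5 < p ∧ p ≤ u ^ 6

/-- (Q15) linear algebra -/
def StCnt : Prop :=
  ∀ (I A : Type) (_ : DecidableEq I) (S : Finset I) (E : Finset A) (μ : A → ℂ) (l : I → A → ℂ)
    (G : I → I → ℂ), (∀ i ∈ S, ∀ j ∈ S, G i j = ∑ f ∈ E, μ f * l i f * l j f) →
    (∀ i ∈ S, ∑ j ∈ S.erase i, ‖G i j‖ < ‖G i i‖) →
    ∃ E' ⊆ E, S.card ≤ E'.card ∧ ∀ f ∈ E', μ f ≠ 0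

/-- (Q16) the numbers are strictly diagonally dominant for large `r` -/
def StNum : Prop :=
  ∀ L C : ℝ, 0 < L → 0 < C → ∃ r₀ : ℕ, ∀ (r : ℕ), r₀ ≤ r → ∃ S : Finset ℕ,
    (r : ℝ) ^ ((1 : ℝ) / 20) ≤ S.card ∧ (∀ p ∈ S, p.Prime ∧ p ^ 8 ≤ r) ∧
    ∀ (z : ℂ) (g b : ℕ → ℂ), L * Real.log r - C ≤ ‖z‖ → b 1 = 1 →
      (∀ m, 1 ≤ m → ‖b m‖ ≤ (m.divisors.card : ℝ)) →
      (∀ m, 1 ≤ m → m ^ 4 ≤ r →
        ‖g m - b m * (((m : ℝ) ^ (-(1 : ℝ) / 2) : ℝ) : ℂ) * z‖ ≤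
          C * ((m.divisors.card : ℝ) * (1 + Real.log m) * (m : ℝ) ^ (-(1 : ℝ) / 2) +
            (m : ℝ) ^ ((9 : ℝ) / 10) * (r : ℝ) ^ (-(1 : ℝ) / 5))) →
      ∀ p ∈ S, ∑ q ∈ S.erase p, ‖g (p * q)‖ < ‖g (p * p) + g 1‖

/-- (Q17) the analytic part of the theorem -/
def StMainRm : Prop :=
  ∀ (D : ℕ) (F : Type) (_ : Field F) (_ : NumberField F) (s : F) (σ : F →+* ℂ),
    D.Prime → D % 4 = 3 → 3 < D → Module.finrank ℚ F = 2 → s ^ 2 = -(D : F) →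
    ∃ r₀ : ℕ, ∀ (w k r : ℕ) (ψ : Ideal (𝓞 F) →*₀ ℂ), w = k + 2 * r + 2 → r₀ ≤ r →
      IsHecke σ k ψ → ∃ E : Finset (CuspForm 𝒮ℒ (w : ℤ)), (r : ℝ) ^ ((1 : ℝ) / 20) ≤ E.card ∧
        ∀ f ∈ E, IsEigen f ∧
        ∃ Λ : ℂ → ℂ, DifferentiableOn ℂ Λ {z | -1 / 2 < z.re} ∧
          (∀ z : ℂ, 1 < z.re → HasProd (fun v : HeightOneSpectrum (𝓞 F) =>
            (eulF f ψ (((w : ℂ) + k) / 2 + z) v)⁻¹) (Λ z)) ∧ Λ 0 = 0 ∧ deriv Λ 0 ≠ 0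

end RZ

end Pool.Agent.Lib.MP_7c08ba_nt
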