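import Pool.Agent.Lib.MP_7c08ba_nt.RZ.StX
import Pool.Agent.Lib.MP_7c08ba_nt.RZ.StRm

set_option autoImplicit false

/-!
Statements of the modules for the count of forms of rank one, every imaginary quadratic field of
discriminant `-D`, `D > 4`: at least `r ^ (1 / 20)` eigenforms of weight `w = k + 2 * r + 2` have
a non-zero derivative at the centre.  Plan: team store `RZRm_plan.md`, second part.
-/

namespace Pool.Agent.Lib.MP_7c08ba_nt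

namespace RZ

open NumberField MeasureTheory UpperHalfPlane Set IsDedekindDomain
open scoped MatrixGroups ComplexConjugate nonZeroDivisors

/-- (XQ1) the derivative of the sum of index `m` at `-r`, uniformly in `m` -/
def StErrX : Prop :=
  ∀ (D : ℕ) (_ : NeZero D) (F : Type) (_ : Field F) (_ : NumberField F) (s : 𝓞 F)
    (σ : F →+* ℂ) (χ : DirichletCharacter ℂ D) (cj : 𝓞 F ≃+* 𝓞 F), DatX D s σ χ cj →
    ∃ C : ℝ, 0 < C ∧ ∀ (k r m : ℕ) (ψ : Ideal (𝓞 F) →*₀ ℂ) (c : Reps σ) (θ : ℕ → ℕ → ℂ),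
      IsHecke σ k ψ → ThFam D k ψ c θ →
      (∀ A, IsCoprime (c.R A : Ideal (𝓞 F)) (Ideal.span {s})) →
      20 ≤ r → 1 ≤ m → m ^ 4 ≤ r →
      (m : ℝ) ^ ((k : ℝ) / 2 + r + 1 / 2) * ‖deriv (SX D χ k r m θ) (-r)‖ ≤
        C * (((k + r).factorial : ℝ) * ((4 * Real.pi) ^ (k + r + 1))⁻¹) *
          ((m.divisors.card : ℝ) * (1 + Real.log m) * (m : ℝ) ^ (-(1 : ℝ) / 2) +
            (m : ℝ) ^ ((9 : ℝ) / 10) * (r : ℝ) ^ (-(1 : ℝ) / 5))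

/-- (XQ2) the derivative for the Poincaré series of index `m`; `z` is the main term -/
def StEllX : Prop :=
  ∀ (D : ℕ) (_ : NeZero D) (F : Type) (_ : Field F) (_ : NumberField F) (s : 𝓞 F)
    (σ : F →+* ℂ) (χ : DirichletCharacter ℂ D) (cj : 𝓞 F ≃+* 𝓞 F), DatX D s σ χ cj →
    ∃ L C : ℝ, 0 < L ∧ 0 < C ∧ ∀ (w k r : ℕ) (ψ : Ideal (𝓞 F) →*₀ ℂ) (c : Reps σ),
      IsHecke σ k ψ → (∀ A, IsCoprime (c.R A : Ideal (𝓞 F)) (Ideal.span {s})) →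
      w = k + 2 * r + 2 → 20 ≤ r →
      ∃ z : ℂ, L * Real.log r - C ≤ ‖z‖ ∧
      ∀ (m : ℕ) (P : CuspForm 𝒮ℒ (w : ℤ)), 1 ≤ m → m ^ 4 ≤ r →
      (∀ z : ℍ, P z = poinc w m z) →
      ‖(((m : ℝ) ^ ((k : ℝ) / 2 + r + 1 / 2) : ℝ) : ℂ) *
          deriv (fun t => rsE D (HN D χ k r ψ c t) P) (-r) -
        ((((k + r).factorial : ℝ) * ((4 * Real.pi) ^ (k + r + 1))⁻¹ : ℝ) : ℂ) *
          ((bψ ψ m * (((m : ℝ) ^ (-((k : ℝ) + 1) / 2) : ℝ) : ℂ)) * z)‖ ≤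
        C * (((k + r).factorial : ℝ) * ((4 * Real.pi) ^ (k + r + 1))⁻¹) *
          ((m.divisors.card : ℝ) * (1 + Real.log m) * (m : ℝ) ^ (-(1 : ℝ) / 2) +
            (m : ℝ) ^ ((9 : ℝ) / 10) * (r : ℝ) ^ (-(1 : ℝ) / 5))

/-- (XQ3) many eigenforms have a non-zero derivative -/
def StManyQ : Prop :=
  ∀ (D : ℕ) (_ : NeZero D) (F : Type) (_ : Field F) (_ : NumberField F) (s : 𝓞 F)
    (σ : F →+* ℂ) (χ : DirichletCharacter ℂ D) (cj : 𝓞 F ≃+* 𝓞 F), DatX D s σ χ cj →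
    ∃ r₀ : ℕ, ∀ (w k r : ℕ) (ψ : Ideal (𝓞 F) →*₀ ℂ) (c : Reps σ), IsHecke σ k ψ →
      (∀ A, IsCoprime (c.R A : Ideal (𝓞 F)) (Ideal.span {s})) → w = k + 2 * r + 2 → r₀ ≤ r →
      ∃ S : Finset (CuspForm 𝒮ℒ (w : ℤ)), (r : ℝ) ^ ((1 : ℝ) / 20) ≤ S.card ∧
        ∀ f ∈ S, IsEigen f ∧ deriv (fun t => rsE D (HN D χ k r ψ c t) f) (-r) ≠ 0

/-- (XQ4) the analytic part of the theorem -/
def StMainQ : Prop :=
  ∀ (D : ℕ) (F : Type) (_ : Field F) (_ : NumberField F) (s : F) (σ : F →+* ℂ),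
    (OddD D ∨ EvD D) → Module.finrank ℚ F = 2 → s ^ 2 = -(D : F) →
    ∃ r₀ : ℕ, ∀ (w k r : ℕ) (ψ : Ideal (𝓞 F) →*₀ ℂ), w = k + 2 * r + 2 → r₀ ≤ r →
      IsHecke σ k ψ → ∃ S : Finset (CuspForm 𝒮ℒ (w : ℤ)),
        (r : ℝ) ^ ((1 : ℝ) / 20) ≤ S.card ∧ ∀ f ∈ S, IsEigen f ∧
        ∃ Λ : ℂ → ℂ, DifferentiableOn ℂ Λ {z | -1 / 2 < z.re} ∧
          (∀ z : ℂ, 1 < z.re → HasProd (fun v : HeightOneSpectrum (𝓞 F) =>
            (eulF f ψ (((w : ℂ) + k) / 2 + z) v)⁻¹) (Λ z)) ∧ Λ 0 = 0 ∧ deriv Λ 0 ≠ 0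

end RZ

end Pool.Agent.Lib.MP_7c08ba_nt
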