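import Mathlib
import Pool.Agent.Lib.MP_7c08ba_nt.RZ.All
import Pool.Agent.Lib.MP_7c08ba_nt.RZ.AllE
import Pool.Agent.Lib.MP_7c08ba_nt.RZ.Fund

set_option autoImplicit false

/-!
The analytic part for every fundamental discriminant: the `L`-function of the base change of an
eigenform of level one twisted by an unramified character of type `(w + 2 * r, 0)`, and its value
at the centre as a square of the period.
-/

namespace Pool.Agent.Lib.MP_7c08ba_nt

namespace RZ

theorem aMainA : StMainA := stMainA aMainD aMainE

end RZ

end Pool.Agent.Lib.MP_7c08ba_nt
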