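import Pool.Agent.Lib.MP_7c08ba_nt.RZ.StRm

set_option autoImplicit false

/-!
(Q15) linear algebra: a strictly diagonally dominant matrix has full rank.
-/

namespace Pool.Agent.Lib.MP_7c08ba_nt

namespace RZ

/-- (Q15) linear algebra. -/
theorem stCnt : StCnt := by
  intro I A _ S E μ l G hG hd
  classical
  set E' : Finset A := E.filter fun f => μ f ≠ 0 with hE'
  refine ⟨E', Finset.filter_subset _ _, ?_, fun f hf => (Finset.mem_filter.1 hf).2⟩
  let M : Matrix S S ℂ := fun i j => G i j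
  have hdet : M.det ≠ 0 := by
    refine det_ne_zero_of_sum_row_lt_diag fun k => ?_
    have h1 : ∑ j ∈ Finset.univ.erase k, ‖M k j‖ = ∑ j ∈ S.erase k, ‖G k j‖ := by
      have h2 : (∑ j : S, ‖M k j‖) = ∑ j ∈ S, ‖G k j‖ :=
        Finset.sum_coe_sort S fun j => ‖G k j‖
      have h3 : ‖M k k‖ + ∑ j ∈ Finset.univ.erase k, ‖M k j‖ = ∑ j : S, ‖M k j‖ :=
        Finset.add_sum_erase Finset.univ (fun j => ‖M k j‖) (Finset.mem_univ k)
      have h4 : ‖G k k‖ + ∑ j ∈ S.erase k, ‖G k j‖ = ∑ j ∈ S, ‖G k j‖ :=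
        Finset.add_sum_erase S (fun j => ‖G k j‖) k.2
      have h5 : ‖M k k‖ = ‖G k k‖ := rfl
      linarith
    rw [h1]
    exact hd k k.2
  have hfac : M = (Matrix.of fun (i : S) (f : E') => l i f) *
      (Matrix.of fun (f : E') (j : S) => μ f * l j f) := by
    ext i j
    rw [Matrix.mul_apply]
    simp only [Matrix.of_apply]
    have h1 : G i j = ∑ f ∈ E', l i f * (μ f * l j f) := by
      rw [hG i i.2 j j.2, hE', Finset.sum_filter]
      refine Finset.sum_congr rfl fun f _ => ?_
      by_cases h : μ f = 0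
      · simp [h]
      · rw [if_pos h]
        ring
    rw [Finset.sum_coe_sort E' fun f => l i f * (μ f * l j f)]
    exact h1
  have hr : M.rank = Fintype.card S :=
    Matrix.rank_of_isUnit _ ((Matrix.isUnit_iff_isUnit_det _).2 (isUnit_iff_ne_zero.2 hdet))
  have hr' : M.rank ≤ Fintype.card E' := by
    rw [hfac]
    exact (Matrix.rank_mul_le_left _ _).trans (Matrix.rank_le_card_width _)
  rw [hr, Fintype.card_coe, Fintype.card_coe] at hr'
  exact hr'

end RZ

end Pool.Agent.Lib.MP_7c08ba_nt
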