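import Mathlib
import Pool.Agent.Lib.MP_7c08ba_nt.RZ.StR
import Pool.Agent.Lib.MP_7c08ba_nt.RZ.StI

set_option autoImplicit false

/-!
Statements of the modules for rank one, every imaginary quadratic field of discriminant `-D`,
`D > 4` (uniform in odd and even `D`, all cusps at once).
-/

namespace Pool.Agent.Lib.MP_7c08ba_nt

namespace RZ

open NumberField MeasureTheory UpperHalfPlane Set IsDedekindDomain
open scoped MatrixGroups ComplexConjugate nonZeroDivisors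

/-- The coefficients of the Eisenstein series at the cusp `1 / g`. -/
noncomputable def om (D : ℕ) (χ : DirichletCharacter ℂ D) (g : ℕ) (c : ℕ) (d : ℤ) : ℂ :=
  if (D : ℤ) ∣ c + g * d then χ (d : ZMod D) else 0

/-- The sums over the divisors at the cusp `1 / g`, index `m`. -/
noncomputable def sG (D : ℕ) (χ : DirichletCharacter ℂ D) (m g n : ℕ) (e : ℂ) : ℂ :=
  ∑ c ∈ ((n : ℤ) - ((m * D : ℕ) : ℤ)).natAbs.divisors, (c : ℂ) ^ (-(2 * e)) *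
    ∑ d ∈ Finset.range D, om D χ g c d *
      ee (-(((((n : ℤ) - ((m * D : ℕ) : ℤ)) / c : ℤ) : ℂ) * d / D))

/-- The coefficients after the sum over all cusps, index `m`. -/
noncomputable def OmX (D : ℕ) (χ : DirichletCharacter ℂ D) (m : ℕ) (θ : ℕ → ℕ → ℂ) (n : ℕ)
    (e : ℂ) : ℂ :=
  ∑ g ∈ D.divisors, ((wid D g : ℂ) / D) * θ g n * sG D χ m g n e

/-- The terms of the sum, index `m`. -/
noncomputable def uX (D : ℕ) (χ : DirichletCharacter ℂ D) (k r m : ℕ) (θ : ℕ → ℕ → ℂ) (t : ℂ)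
    (n : ℕ) : ℂ :=
  if n = m * D then 0 else OmX D χ m θ n (t + r) * Kp k r n (m * D) t

/-- The sum, index `m`. -/
noncomputable def SX (D : ℕ) (χ : DirichletCharacter ℂ D) (k r m : ℕ) (θ : ℕ → ℕ → ℂ)
    (t : ℂ) : ℂ :=
  (D : ℂ) ^ ((k : ℂ) + 1 - t) * ∑' n : ℕ, uX D χ k r m θ t n

section

variable {F : Type} [Field F] [NumberField F]

/-- Odd or even discriminant. -/
def DatX (D : ℕ) (s : 𝓞 F) (σ : F →+* ℂ) (χ : DirichletCharacter ℂ D)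
    (cj : 𝓞 F ≃+* 𝓞 F) : Prop :=
  DatD D s σ χ cj ∨ DatE D s σ χ cj

/-- The expansions of the theta series of the Hecke character at the cusps `1 / g`. -/
structure ThFam {σ : F →+* ℂ} (D k : ℕ) (ψ : Ideal (𝓞 F) →*₀ ℂ) (c : Reps σ)
    (θ : ℕ → ℕ → ℂ) : Prop where
  exp : ∀ g ∈ D.divisors, ∀ u : ℂ, 0 < u.im →
    (Summable fun n : ℕ => ‖θ g n * ee (n * u / D)‖) ∧
    thψ k ψ c (u / (1 - g * u)) = (1 - g * u) ^ (k + 1) * ∑' n : ℕ, θ g n * ee (n * u / D)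
  bd : ∀ g ∈ D.divisors, ∀ n : ℕ, 1 ≤ n →
    ‖θ g n‖ ≤ (n.divisors.card : ℝ) * ((n : ℝ) / D) ^ ((k : ℝ) / 2)
  zero : ∀ g ∈ D.divisors, ‖θ g 0‖ ≤ if k = 0 then (Nat.card (ClassGroup (𝓞 F)) : ℝ) else 0
  one : ∀ m : ℕ, 1 ≤ m → θ 1 (m * D) = bψ ψ m * (Complex.I / Real.sqrt D)
  top : ∀ m : ℕ, 1 ≤ m → θ D (m * D) = bψ ψ m
  self : ∀ u : ℂ, 0 < u.im → thψ k ψ c u = ∑' n : ℕ, θ D n * ee (n * u / D)

end

/-- (X0) facts known for odd and for even discriminants -/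
def StCom : Prop :=
  ∀ (D : ℕ) (_ : NeZero D) (F : Type) (_ : Field F) (_ : NumberField F) (s : 𝓞 F)
    (σ : F →+* ℂ) (χ : DirichletCharacter ℂ D) (cj : 𝓞 F ≃+* 𝓞 F), DatX D s σ χ cj →
    (QC D χ ∧ χ⁻¹ = χ ∧ χ ≠ 1 ∧ 4 < D) ∧
    (∃ c : Reps σ, ∀ A, IsCoprime (c.R A : Ideal (𝓞 F)) (Ideal.span {s})) ∧
    (∀ (k : ℕ) (ψ : Ideal (𝓞 F) →*₀ ℂ), IsHecke σ k ψ → Even k ∧
      (∀ b : Ideal (𝓞 F), b ≠ ⊥ → ‖ψ b‖ ^ 2 = (Ideal.absNorm b : ℝ) ^ k) ∧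
      bψ ψ 1 = 1 ∧ bψ ψ D = (Complex.I * Real.sqrt D) ^ k) ∧
    (∀ n : ℕ, 1 ≤ n → Nat.card {b : Ideal (𝓞 F) // Ideal.absNorm b = n} ≤ n.divisors.card) ∧
    (∀ (w k r : ℕ) (ψ : Ideal (𝓞 F) →*₀ ℂ) (c : Reps σ), IsHecke σ k ψ → w = k + 2 * r + 2 →
      (∀ A, IsCoprime (c.R A : Ideal (𝓞 F)) (Ideal.span {s})) →
      (∀ t : ℂ, -(r : ℝ) - 1 / 2 < t.re → ContinuousOn (HN D χ k r ψ c t) {u | 0 < u.im} ∧
        ContinuousOn (trE D w (HN D χ k r ψ c t)) {u | 0 < u.im} ∧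
        (∀ (g : SL(2, ℤ)) (z : ℂ), 0 < z.im → (D : ℤ) ∣ g 1 0 →
          HN D χ k r ψ c t (((g 0 0 : ℂ) * z + g 0 1) / ((g 1 0 : ℂ) * z + g 1 1)) =
            ((g 1 0 : ℂ) * z + g 1 1) ^ w * HN D χ k r ψ c t z) ∧
        Wt w (trE D w (HN D χ k r ψ c t)) ∧
        ∃ (C : ℝ) (N : ℕ), ∀ z : ℂ, 1 / 2 ≤ z.im → |z.re| ≤ 1 / 2 →
          ‖trE D w (HN D χ k r ψ c t) z‖ ≤ C * (z.im + 1) ^ N) ∧
      (∀ f : CuspForm 𝒮ℒ (w : ℤ), DifferentiableOn ℂ (fun t => rsE D (HN D χ k r ψ c t) f)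
        {t | -(r : ℝ) - 1 / 2 < t.re}) ∧
      (∀ u : ℂ, 0 < u.im → trE D w (HN D χ k r ψ c (-r)) u = 0))

/-- (X1) the theta series at all cusps -/
def StThX : Prop :=
  ∀ (D : ℕ) (_ : NeZero D) (F : Type) (_ : Field F) (_ : NumberField F) (s : 𝓞 F)
    (σ : F →+* ℂ) (χ : DirichletCharacter ℂ D) (cj : 𝓞 F ≃+* 𝓞 F) (k : ℕ)
    (ψ : Ideal (𝓞 F) →*₀ ℂ) (c : Reps σ), DatX D s σ χ cj → IsHecke σ k ψ →
    (∀ A, IsCoprime (c.R A : Ideal (𝓞 F)) (Ideal.span {s})) → ∃ θ : ℕ → ℕ → ℂ, ThFam D k ψ c θ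

/-- (X2) the Eisenstein series at all cusps, region of convergence -/
def StEisX : Prop :=
  ∀ (D : ℕ) (_ : NeZero D) (χ : DirichletCharacter ℂ D) (r : ℕ), QC D χ → 1 < D →
    ∀ g ∈ D.divisors, ∀ t u : ℂ, 1 / 2 - (r : ℝ) < t.re → 0 < u.im →
      eis D χ r t (u / (1 - g * u)) = (1 - g * u) ^ (2 * r + 1) * ((u.im : ℂ) ^ t *
        ((if g = D then DirichletCharacter.LFunction χ (2 * r + 1 + 2 * t) else 0) +
          ∑' p : ℕ × ℤ, om D χ g (p.1 + 1) p.2 * gE r t (((p.1 : ℂ) + 1) * u + p.2)))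

/-- (X3) the trace in the region of convergence -/
def StTrX : Prop :=
  ∀ (D : ℕ) (_ : NeZero D) (F : Type) (_ : Field F) (_ : NumberField F) (s : 𝓞 F)
    (σ : F →+* ℂ) (χ : DirichletCharacter ℂ D) (cj : 𝓞 F ≃+* 𝓞 F) (w k r : ℕ)
    (ψ : Ideal (𝓞 F) →*₀ ℂ) (c : Reps σ) (θ : ℕ → ℕ → ℂ), DatX D s σ χ cj → IsHecke σ k ψ →
    ThFam D k ψ c θ → w = k + 2 * r + 2 → ∀ t z : ℂ, 1 / 2 - (r : ℝ) < t.re → 0 < z.im →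
    trE D w (HN D χ k r ψ c t) z =
      DirichletCharacter.LFunction χ (2 * r + 1 + 2 * t) * (thψ k ψ c z * (z.im : ℂ) ^ t) +
      (D : ℂ) ^ t * ∑ g ∈ D.divisors, ∑ j ∈ Finset.range (wid D g),
        GT D r (om D χ g) (θ g) t ((z + j) / D)

/-- (X4) growth of the trace in the region of convergence -/
def StGroX : Prop :=
  ∀ (D : ℕ) (_ : NeZero D) (F : Type) (_ : Field F) (_ : NumberField F) (s : 𝓞 F)
    (σ : F →+* ℂ) (χ : DirichletCharacter ℂ D) (cj : 𝓞 F ≃+* 𝓞 F) (w k r : ℕ)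
    (ψ : Ideal (𝓞 F) →*₀ ℂ) (c : Reps σ) (θ : ℕ → ℕ → ℂ), DatX D s σ χ cj → IsHecke σ k ψ →
    ThFam D k ψ c θ → w = k + 2 * r + 2 → ∀ t : ℂ, 1 / 2 - (r : ℝ) < t.re → ∃ C : ℝ,
      ∀ z : ℂ, 1 / 2 ≤ z.im →
      ‖trE D w (HN D χ k r ψ c t) z‖ ≤ C * (z.im ^ t.re + z.im ^ (-2 * (r : ℝ) - t.re))

/-- (X5) the integral for the Poincaré series of index `m` -/
def StRsX : Prop :=
  ∀ (D : ℕ) (_ : NeZero D) (F : Type) (_ : Field F) (_ : NumberField F) (s : 𝓞 F)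
    (σ : F →+* ℂ) (χ : DirichletCharacter ℂ D) (cj : 𝓞 F ≃+* 𝓞 F) (w k r m : ℕ)
    (ψ : Ideal (𝓞 F) →*₀ ℂ) (c : Reps σ) (θ : ℕ → ℕ → ℂ) (P : CuspForm 𝒮ℒ (w : ℤ)),
    DatX D s σ χ cj → IsHecke σ k ψ → ThFam D k ψ c θ →
    (∀ A, IsCoprime (c.R A : Ideal (𝓞 F)) (Ideal.span {s})) →
    w = k + 2 * r + 2 → 1 ≤ m → (∀ z : ℍ, P z = poinc w m z) →
    ∀ t : ℂ, 1 / 2 - (r : ℝ) < t.re → t.re < -1 →
      rsE D (HN D χ k r ψ c t) P = JJ w m (trE D w (HN D χ k r ψ c t))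

/-- (X6) the finite sums for all cusps -/
def StGsX : Prop :=
  ∀ (D : ℕ) (_ : NeZero D) (χ : DirichletCharacter ℂ D), QC D χ → 1 < D →
    ∀ g ∈ D.divisors, (∀ (c : ℕ) (d : ℤ), om D χ g c (d + D * c) = om D χ g c d) ∧
    (∀ (c : ℕ) (d : ℤ), ‖om D χ g c d‖ ≤ 1) ∧
    (∀ (m n : ℕ) (e : ℂ), n ≠ m * D → ‖sG D χ m g n e‖ ≤
      (D : ℝ) * ∑ c ∈ ((n : ℤ) - ((m * D : ℕ) : ℤ)).natAbs.divisors,
        (c : ℝ) ^ (-(2 * e.re))) ∧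
    ∀ (r m : ℕ) (t : ℂ), 1 / 2 - (r : ℝ) < t.re →
    (∀ n : ℕ, n ≠ m * D → ∑' c : ℕ, ((D * (c + 1) : ℕ) : ℂ) ^ (-(2 * (r : ℂ) + 1) - 2 * t) *
      Gs D (om D χ g) ((n : ℤ) - ((m * D : ℕ) : ℤ)) (c + 1) =
        (D : ℂ) ^ (-(2 * (r : ℂ) + 1) - 2 * t) * sG D χ m g n (t + r)) ∧
    (∑' c : ℕ, ((D * (c + 1) : ℕ) : ℂ) ^ (-(2 * (r : ℂ) + 1) - 2 * t) *
      Gs D (om D χ g) (((m * D : ℕ) : ℤ) - ((m * D : ℕ) : ℤ)) (c + 1) = if g = 1 then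
        -((D : ℂ) ^ (-(2 * (r : ℂ) + 1) - 2 * t) *
          DirichletCharacter.LFunction χ (2 * (t + r))) else 0)

/-- (X7) the sign of the quadratic Gauss sum -/
def StSgX : Prop :=
  ∀ (D : ℕ) (_ : NeZero D) (F : Type) (_ : Field F) (_ : NumberField F) (s : 𝓞 F)
    (σ : F →+* ℂ) (χ : DirichletCharacter ℂ D) (cj : 𝓞 F ≃+* 𝓞 F), DatX D s σ χ cj →
    (gaussSum χ (ZMod.stdAddChar (N := D)) = Complex.I * Real.sqrt D) ∧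
    ∃ L : ℝ, 0 < L ∧ DirichletCharacter.LFunction χ 1 = L

/-- (X8) the contribution of the `D`-th coefficient -/
def StT2X : Prop :=
  ∀ (D : ℕ) (_ : NeZero D) (F : Type) (_ : Field F) (_ : NumberField F) (s : 𝓞 F)
    (σ : F →+* ℂ) (χ : DirichletCharacter ℂ D) (cj : 𝓞 F ≃+* 𝓞 F), DatX D s σ χ cj →
    ∀ (k r : ℕ) (t : ℂ), -(r : ℝ) < t.re → t.re < 1 - (r : ℝ) → t.re < 1 →
      (-Complex.I / Real.sqrt D) * (D : ℂ) ^ ((k : ℂ) + 1 - t) *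
        DirichletCharacter.LFunction χ (2 * (t + r)) * Kp k r D D t = T2 D χ k r t

/-- (X9) the integral for the Poincaré series of index `m`, explicitly -/
def StJRX : Prop :=
  ∀ (D : ℕ) (_ : NeZero D) (F : Type) (_ : Field F) (_ : NumberField F) (s : 𝓞 F)
    (σ : F →+* ℂ) (χ : DirichletCharacter ℂ D) (cj : 𝓞 F ≃+* 𝓞 F) (w k r m : ℕ)
    (ψ : Ideal (𝓞 F) →*₀ ℂ) (c : Reps σ) (θ : ℕ → ℕ → ℂ), DatX D s σ χ cj →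
    IsHecke σ k ψ → ThFam D k ψ c θ →
    (∀ A, IsCoprime (c.R A : Ideal (𝓞 F)) (Ideal.span {s})) → w = k + 2 * r + 2 → 1 ≤ m →
    ∀ t : ℂ, 1 / 2 - (r : ℝ) < t.re → t.re < -1 →
      JJ w m (trE D w (HN D χ k r ψ c t)) =
        bψ ψ m * (m : ℂ) ^ (-((k : ℂ) + 2 * r + 1 + t)) * T1 D χ k r t +
        bψ ψ m * (m : ℂ) ^ (t - k - 1) *
          ((-Complex.I / Real.sqrt D) * (D : ℂ) ^ ((k : ℂ) + 1 - t) *
            DirichletCharacter.LFunction χ (2 * (t + r)) * Kp k r D D t) +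
        SX D χ k r m θ t

/-- (X10) the sum is holomorphic -/
def StSuX : Prop :=
  ∀ (D : ℕ) (_ : NeZero D) (F : Type) (_ : Field F) (_ : NumberField F) (s : 𝓞 F)
    (σ : F →+* ℂ) (χ : DirichletCharacter ℂ D) (cj : 𝓞 F ≃+* 𝓞 F) (k r m : ℕ)
    (ψ : Ideal (𝓞 F) →*₀ ℂ) (c : Reps σ) (θ : ℕ → ℕ → ℂ), DatX D s σ χ cj → IsHecke σ k ψ →
    ThFam D k ψ c θ → 1 ≤ m →
    DifferentiableOn ℂ (SX D χ k r m θ) {t | -(r : ℝ) - 1 / 4 < t.re ∧ t.re < -1} ∧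
    DifferentiableOn ℂ (fun t => ∑' n, uX D χ k r m θ t n)
      {t | -(r : ℝ) - 1 / 4 < t.re ∧ t.re < -1} ∧
    (∀ n, DifferentiableOn ℂ (fun t => uX D χ k r m θ t n)
      {t | -(r : ℝ) - 1 / 4 < t.re ∧ t.re < -1}) ∧
    ∀ t : ℂ, -(r : ℝ) - 1 / 4 < t.re → t.re < -1 →
      (Summable fun n => ‖uX D χ k r m θ t n‖) ∧
      HasSum (fun n => deriv (fun t => uX D χ k r m θ t n) t)
        (deriv (fun t => ∑' n, uX D χ k r m θ t n) t)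

/-- (X11) linear independence of the Jacobi polynomials on a finite set -/
def StJacI : Prop :=
  ∀ (k D : ℕ) (a : ℕ → ℂ), 1 ≤ D →
    (∀ r : ℕ, 2 ≤ r → ∑ i ∈ Finset.range D, a i * (Jac k r ((i : ℝ) / D) : ℂ) = 0) →
    ∀ i < D, a i = 0

/-- (X12) the Rankin–Selberg integral of the Poincaré series near `-r` -/
def StEqX : Prop :=
  ∀ (D : ℕ) (_ : NeZero D) (F : Type) (_ : Field F) (_ : NumberField F) (s : 𝓞 F)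
    (σ : F →+* ℂ) (χ : DirichletCharacter ℂ D) (cj : 𝓞 F ≃+* 𝓞 F) (w k r m : ℕ)
    (ψ : Ideal (𝓞 F) →*₀ ℂ) (c : Reps σ) (θ : ℕ → ℕ → ℂ) (P : CuspForm 𝒮ℒ (w : ℤ)),
    DatX D s σ χ cj → IsHecke σ k ψ → ThFam D k ψ c θ →
    (∀ A, IsCoprime (c.R A : Ideal (𝓞 F)) (Ideal.span {s})) →
    w = k + 2 * r + 2 → 2 ≤ r → 1 ≤ m → (∀ z : ℍ, P z = poinc w m z) →
    ∀ t : ℂ, -(r : ℝ) - 1 / 4 < t.re → t.re < -1 →
      rsE D (HN D χ k r ψ c t) P =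
        bψ ψ m * ((m : ℂ) ^ (-((k : ℂ) + 2 * r + 1 + t)) * T1 D χ k r t +
          (m : ℂ) ^ (t - k - 1) * T2 D χ k r t) + SX D χ k r m θ t

/-- (X13) the coefficients below `m D` vanish at the centre -/
def StVanX : Prop :=
  ∀ (D : ℕ) (_ : NeZero D) (F : Type) (_ : Field F) (_ : NumberField F) (s : 𝓞 F)
    (σ : F →+* ℂ) (χ : DirichletCharacter ℂ D) (cj : 𝓞 F ≃+* 𝓞 F) (k : ℕ)
    (ψ : Ideal (𝓞 F) →*₀ ℂ) (c : Reps σ) (θ : ℕ → ℕ → ℂ), DatX D s σ χ cj → IsHecke σ k ψ →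
    ThFam D k ψ c θ → (∀ A, IsCoprime (c.R A : Ideal (𝓞 F)) (Ideal.span {s})) →
    ∀ m : ℕ, 1 ≤ m → ∀ n < m * D, OmX D χ m θ n 0 = 0

/-- (X14) the derivative of the sum at `-r` -/
def StSuBX : Prop :=
  ∀ (D : ℕ) (_ : NeZero D) (F : Type) (_ : Field F) (_ : NumberField F) (s : 𝓞 F)
    (σ : F →+* ℂ) (χ : DirichletCharacter ℂ D) (cj : 𝓞 F ≃+* 𝓞 F) (m : ℕ),
    DatX D s σ χ cj → 1 ≤ m →
    ∃ C : ℝ, ∀ (k r : ℕ) (ψ : Ideal (𝓞 F) →*₀ ℂ) (c : Reps σ) (θ : ℕ → ℕ → ℂ),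
      IsHecke σ k ψ → ThFam D k ψ c θ →
      (∀ A, IsCoprime (c.R A : Ideal (𝓞 F)) (Ideal.span {s})) → 5 ≤ r →
      ‖deriv (SX D χ k r m θ) (-r)‖ ≤ C * ((k + r).factorial : ℝ) *
        ((4 * Real.pi * m) ^ (k + r + 1))⁻¹ * (m : ℝ) ^ ((k : ℝ) / 2)

/-- (X15) the derivative at `-r` for the Poincaré series of index `m` -/
def StBigX : Prop :=
  ∀ (D : ℕ) (_ : NeZero D) (F : Type) (_ : Field F) (_ : NumberField F) (s : 𝓞 F)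
    (σ : F →+* ℂ) (χ : DirichletCharacter ℂ D) (cj : 𝓞 F ≃+* 𝓞 F) (m : ℕ),
    DatX D s σ χ cj → 1 ≤ m →
    ∃ C : ℝ, ∀ (w k r : ℕ) (ψ : Ideal (𝓞 F) →*₀ ℂ) (c : Reps σ)
      (P : CuspForm 𝒮ℒ (w : ℤ)), IsHecke σ k ψ →
      (∀ A, IsCoprime (c.R A : Ideal (𝓞 F)) (Ideal.span {s})) → w = k + 2 * r + 2 → 5 ≤ r →
      (∀ z : ℍ, P z = poinc w m z) →
      ‖deriv (fun t => rsE D (HN D χ k r ψ c t) P) (-r) -
        2 * bψ ψ m * ((k + r).factorial : ℂ) * ((4 * Real.pi * m : ℂ) ^ (k + r + 1))⁻¹ *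
          DirichletCharacter.LFunction χ 1 * ((harmonic (k + r) : ℂ) + (harmonic r : ℂ))‖ ≤
        C * ((k + r).factorial : ℝ) * ((4 * Real.pi * m) ^ (k + r + 1))⁻¹ *
          (m : ℝ) ^ ((k : ℝ) / 2)

/-- (X16) there are many eigenforms with non-zero derivative -/
def StManyX : Prop :=
  ∀ (D : ℕ) (_ : NeZero D) (F : Type) (_ : Field F) (_ : NumberField F) (s : 𝓞 F)
    (σ : F →+* ℂ) (χ : DirichletCharacter ℂ D) (cj : 𝓞 F ≃+* 𝓞 F) (N : ℕ),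
    DatX D s σ χ cj →
    ∃ r₀ : ℕ, ∀ (w k r : ℕ) (ψ : Ideal (𝓞 F) →*₀ ℂ) (c : Reps σ), IsHecke σ k ψ →
      (∀ A, IsCoprime (c.R A : Ideal (𝓞 F)) (Ideal.span {s})) → w = k + 2 * r + 2 → r₀ ≤ r →
      ∃ S : Finset (CuspForm 𝒮ℒ (w : ℤ)), N ≤ S.card ∧ ∀ f ∈ S, IsEigen f ∧
        deriv (fun t => rsE D (HN D χ k r ψ c t) f) (-r) ≠ 0

/-- (X17) the analytic part of the theorem -/
def StMainX : Prop :=
  ∀ (D : ℕ) (F : Type) (_ : Field F) (_ : NumberField F) (s : F) (σ : F →+* ℂ) (N : ℕ),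
    (OddD D ∨ EvD D) → Module.finrank ℚ F = 2 → s ^ 2 = -(D : F) →
    ∃ r₀ : ℕ, ∀ (w k r : ℕ) (ψ : Ideal (𝓞 F) →*₀ ℂ), w = k + 2 * r + 2 → r₀ ≤ r →
      IsHecke σ k ψ → ∃ S : Finset (CuspForm 𝒮ℒ (w : ℤ)), N ≤ S.card ∧ ∀ f ∈ S, IsEigen f ∧
        ∃ Λ : ℂ → ℂ, DifferentiableOn ℂ Λ {z | -1 / 2 < z.re} ∧
          (∀ z : ℂ, 1 < z.re → HasProd (fun v : HeightOneSpectrum (𝓞 F) =>
            (eulF f ψ (((w : ℂ) + k) / 2 + z) v)⁻¹) (Λ z)) ∧ Λ 0 = 0 ∧ deriv Λ 0 ≠ 0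

end RZ

end Pool.Agent.Lib.MP_7c08ba_nt
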