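import Mathlib
import Pool.Agent.Lib.MP_7c08ba_nt.RZ.StX
import Pool.Agent.Lib.MP_7c08ba_nt.RZ.EisAtD
import Pool.Agent.Lib.MP_7c08ba_nt.RZ.EisAtQ

set_option autoImplicit false

/-!
(X0) facts known for odd and for even discriminants.
-/

namespace Pool.Agent.Lib.MP_7c08ba_nt

namespace RZ

open NumberField MeasureTheory UpperHalfPlane Set IsDedekindDomain
open scoped MatrixGroups ComplexConjugate nonZeroDivisors

namespace ComAux

theorem sq_inj {R : Type*} [CommRing R] [IsDedekindDomain R] {a b : Ideal R}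
    (h : a ^ 2 = b ^ 2) : a = b := by
  classical
  by_cases ha : a = 0
  · subst ha
    have h1 : b ^ 2 = 0 := by rw [← h]; exact zero_pow two_ne_zero
    exact ((pow_eq_zero_iff two_ne_zero).1 h1).symm
  · have hb : b ≠ 0 := by
      rintro rfl
      rw [zero_pow two_ne_zero] at h
      exact ha ((pow_eq_zero_iff two_ne_zero).1 h)
    have h1 := congrArg UniqueFactorizationMonoid.normalizedFactors h
    rw [UniqueFactorizationMonoid.normalizedFactors_pow,
      UniqueFactorizationMonoid.normalizedFactors_pow] at h1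
    have h2 : UniqueFactorizationMonoid.normalizedFactors a =
        UniqueFactorizationMonoid.normalizedFactors b := nsmul_right_injective two_ne_zero h1
    rw [← UniqueFactorizationMonoid.associated_iff_normalizedFactors_eq_normalizedFactors ha hb,
      associated_iff_eq] at h2
    exact h2

section

variable {F : Type} [Field F] [NumberField F]

/-- the value of the coefficient at the discriminant -/
theorem bD {D : ℕ} (hD : D ≠ 0) {s : 𝓞 F} {σ : F →+* ℂ} (hs : s ^ 2 = -(D : 𝓞 F))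
    (him : σ s = Complex.I * Real.sqrt D) {k : ℕ} {ψ : Ideal (𝓞 F) →*₀ ℂ}
    (hψ : IsHecke σ k ψ) (h1 : bψ ψ 1 = 1)
    (hm : ∀ m n : ℕ, m.Coprime n → bψ ψ (m * n) = bψ ψ m * bψ ψ n)
    (P : ℕ → Ideal (𝓞 F)) (hP : ∀ p : ℕ, p.Prime → p ∣ D → P p ^ 2 = Ideal.span {(p : 𝓞 F)})
    (hb : ∀ p : ℕ, p.Prime → p ∣ D → ∀ n : ℕ, bψ ψ (p ^ n) = ψ (P p) ^ n) :
    bψ ψ D = (Complex.I * Real.sqrt D) ^ k := by
  have e1 := Nat.multiplicative_factorization (bψ ψ) hm h1 hD
  have e2 : D.factorization.prod (fun p k => bψ ψ (p ^ k)) =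
      ψ (D.factorization.prod (fun p k => P p ^ k)) := by
    unfold Finsupp.prod
    rw [map_prod]
    refine Finset.prod_congr rfl fun p hp => ?_
    have hp1 := Nat.prime_of_mem_primeFactors (Nat.support_factorization D ▸ hp)
    have hp2 := Nat.dvd_of_mem_primeFactors (Nat.support_factorization D ▸ hp)
    change bψ ψ (p ^ D.factorization p) = ψ (P p ^ D.factorization p)
    rw [hb p hp1 hp2, map_pow]
  have e3 : (D.factorization.prod (fun p k => P p ^ k)) ^ 2 = Ideal.span {s} ^ 2 := by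
    have e4 : (D.factorization.prod (fun p k => P p ^ k)) ^ 2 =
        Ideal.span {((D.factorization.prod (fun p k => p ^ k) : ℕ) : 𝓞 F)} := by
      unfold Finsupp.prod
      rw [← Finset.prod_pow, Nat.cast_prod, ← Ideal.prod_span_singleton]
      refine Finset.prod_congr rfl fun p hp => ?_
      have hp1 := Nat.prime_of_mem_primeFactors (Nat.support_factorization D ▸ hp)
      have hp2 := Nat.dvd_of_mem_primeFactors (Nat.support_factorization D ▸ hp)
      rw [← pow_mul, mul_comm, pow_mul, hP p hp1 hp2, Ideal.span_singleton_pow, Nat.cast_pow]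
    rw [e4, Nat.prod_factorization_pow_eq_self hD, Ideal.span_singleton_pow, hs,
      Ideal.span_singleton_neg]
  have hs0 : s ≠ 0 := by
    rintro rfl
    rw [zero_pow two_ne_zero] at hs
    have h2 : (D : 𝓞 F) = 0 := by rw [← neg_eq_zero, ← hs]
    exact hD (by exact_mod_cast h2)
  rw [e1, e2, sq_inj e3, hψ s hs0, him]

end

theorem wid_eq {D : ℕ} (hD : Squarefree D) {g : ℕ} (hg : g ∈ D.divisors) : wid D g = D / g := by
  have h1 := Nat.dvd_of_mem_divisors hg
  obtain ⟨e, rfl⟩ := h1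
  have hg0 : 0 < g := Nat.pos_of_mem_divisors hg
  have hc : Nat.Coprime g e := (Nat.squarefree_mul_iff.1 hD).1
  unfold wid
  rw [Nat.mul_div_cancel_left e hg0, hc, mul_one, Nat.mul_div_cancel_left e hg0]

theorem tr_eq {D : ℕ} (hD : Squarefree D) (w : ℕ) (H : ℂ → ℂ) : trE D w H = trD D w H := by
  funext u
  unfold trE trD
  refine Finset.sum_congr rfl fun g hg => ?_
  rw [wid_eq hD hg]

theorem rs_eq {D : ℕ} (hD : Squarefree D) {w : ℕ} (H : ℂ → ℂ) (f : CuspForm 𝒮ℒ (w : ℤ)) :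
    rsE D H f = rsD D H f := by
  unfold rsE rsD
  rw [tr_eq hD]

theorem kr_le (D n : ℕ) : kr D n ≤ 1 := by
  unfold kr
  split_ifs
  · norm_num
  · rcases jacobiSym.trichotomy (-((D / 4 : ℕ) : ℤ)) n with h | h | h <;> rw [h] <;> norm_num

theorem jac_le (a : ℤ) (D : ℕ) : jacobiSym a D ≤ 1 := by
  rcases jacobiSym.trichotomy a D with h | h | h <;> rw [h] <;> norm_num

theorem card_le {c n : ℕ} {f : ℕ → ℤ} (h : (c : ℤ) = ∑ d ∈ n.divisors, f d)
    (hf : ∀ d, f d ≤ 1) : c ≤ n.divisors.card := by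
  have h1 : (c : ℤ) ≤ (n.divisors.card : ℤ) := by
    rw [h]
    calc ∑ d ∈ n.divisors, f d ≤ ∑ _d ∈ n.divisors, (1 : ℤ) := Finset.sum_le_sum fun d _ => hf d
      _ = (n.divisors.card : ℤ) := by simp
  exact_mod_cast h1

theorem kr_dvd {D p : ℕ} (hD : EvD D) (hp : p.Prime) (hpD : p ∣ D) : kr D p = 0 := by
  unfold kr
  split_ifs with h
  · rfl
  · obtain ⟨-, n, rfl, -, -⟩ := hD
    rw [Nat.mul_div_cancel_left n (by norm_num)]
    have h2 : p ≠ 2 := by
      rintro rfl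
      exact h even_two
    have h3 : Nat.Coprime p 4 := by
      have : Nat.Coprime p 2 := (Nat.coprime_primes hp Nat.prime_two).2 h2
      exact Nat.Coprime.pow_right 2 this
    have h4 : p ∣ n := h3.dvd_of_dvd_mul_left hpD
    have : NeZero p := ⟨hp.ne_zero⟩
    rw [jacobiSym.eq_zero_iff_not_coprime]
    intro h5
    rw [Int.neg_gcd, Int.gcd_natCast_natCast] at h5
    have h6 : p ∣ Nat.gcd n p := Nat.dvd_gcd h4 dvd_rfl
    rw [h5] at h6
    exact hp.one_lt.ne' (Nat.dvd_one.1 h6)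

end ComAux

open ComAux in
/-- (X0) facts known for odd and for even discriminants -/
theorem stCom (h1 : StRepsD) (h2 : StPsiD) (h3 : StBmulD) (h4 : StCountD) (h5 : StRam)
    (h6 : StHN) (h7 : StTraceD) (h8 : StRSanN) (h9 : StTr0) (e1 : StRepsE) (e2 : StPsiE)
    (e3 : StBmulE) (e4 : StCountE) (e5 : StSplitE) (e6 : StHNE) (e7 : StTraceE)
    (e8 : StRSanNE) (e9 : StTr0E) : StCom := by
  intro D hD0 F _ _ s σ χ cj hX
  rcases hX with hX | hX
  · have hsf : Squarefree D := hX.odd.1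
    have hqc : QC D χ := by
      refine ⟨EisAtD.prim hX.odd hX.chi, ?_, EisAt.quad hX.chi⟩
      have h := EisAtD.chi_neg hX.odd hX.chi 1
      rw [map_one] at h
      exact h
    refine ⟨⟨hqc, EisAtQ.inv_eq hqc, EisAtQ.ne_one' hqc, ?_⟩, h1 D F _ _ s σ χ cj hX, ?_, ?_, ?_⟩
    · have := hX.odd.2.1
      have := hX.odd.2.2
      omega
    · intro k ψ hψ
      obtain ⟨p1, p2, -⟩ := h2 D F _ _ s σ χ cj k ψ hX hψ
      obtain ⟨b1, b2, -, -, b5⟩ := h3 D F _ _ s σ χ cj k ψ hX hψ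
      refine ⟨p1, p2, b1, bD (NeZero.ne D) hX.sq hX.im hψ b1 b2 (ram s) ?_ b5⟩
      intro p _ hp
      exact (h5 D F _ _ s σ χ cj hX p hp).2.2.1
    · intro n hn
      exact card_le (h4 D F _ _ s σ χ cj hX n hn) fun d => jac_le d D
    · intro w k r ψ c hψ hw hc
      have hk : Even k := (h2 D F _ _ s σ χ cj k ψ hX hψ).1
      have hw2 : Even w := by
        rw [hw]
        exact (hk.add (even_two_mul r)).add even_two
      obtain ⟨q1, -, q3⟩ := h6 D hD0 F _ _ s σ χ cj w k r ψ c hX hk hw hc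
      refine ⟨?_, ?_, ?_⟩
      · intro t ht
        obtain ⟨t1, t2, t3⟩ := q1 t ht
        rw [tr_eq hsf]
        refine ⟨t1, t2, t3, h7 D w _ hsf hw2 t3, ?_⟩
        obtain ⟨C, N, hC⟩ := q3 t.re ‖t‖ ht
        exact ⟨C, N, fun z hz1 hz2 => hC t z le_rfl le_rfl hz1 hz2⟩
      · intro f
        have := h8 D hD0 F _ _ s σ χ cj w k r f ψ c hX hk hw hc
        simpa only [rs_eq hsf] using this
      · intro u hu
        rw [tr_eq hsf]
        exact h9 D hD0 F _ _ s σ χ cj w k r ψ c hX hk hw hc u hu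
  · have hqc : QC D χ := hX.qc
    refine ⟨⟨hqc, EisAtQ.inv_eq hqc, EisAtQ.ne_one' hqc, hX.ev.1⟩, e1 D F _ _ s σ χ cj hX,
      ?_, ?_, ?_⟩
    · intro k ψ hψ
      obtain ⟨p1, p2, -⟩ := e2 D F _ _ s σ χ cj k ψ hX hψ
      obtain ⟨b1, b2, -, -, b5⟩ := e3 D F _ _ s σ χ cj k ψ hX hψ
      have hP : ∀ p : ℕ, ∃ P : Ideal (𝓞 F), p.Prime → p ∣ D → P.IsPrime ∧
          P ^ 2 = Ideal.span {(p : 𝓞 F)} := by
        intro p
        by_cases hp : p.Prime ∧ p ∣ D
        · obtain ⟨-, P, hP1, hP2, -⟩ :=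
            (e5 D F _ _ s σ χ cj hX p hp.1).2.2 (kr_dvd hX.ev hp.1 hp.2)
          exact ⟨P, fun _ _ => ⟨hP1, hP2⟩⟩
        · exact ⟨⊥, fun a b => absurd ⟨a, b⟩ hp⟩
      choose P hP using hP
      exact ⟨p1, p2, b1, bD (NeZero.ne D) hX.sq hX.im hψ b1 b2 P (fun p a b => (hP p a b).2)
        fun p a b => b5 p a b (P p) (hP p a b).1 (hP p a b).2⟩
    · intro n hn
      exact card_le (e4 D F _ _ s σ χ cj hX n hn) fun d => kr_le D d
    · intro w k r ψ c hψ hw hc
      have hk : Even k := (e2 D F _ _ s σ χ cj k ψ hX hψ).1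
      have hw2 : Even w := by
        rw [hw]
        exact (hk.add (even_two_mul r)).add even_two
      obtain ⟨q1, -, q3⟩ := e6 D hD0 F _ _ s σ χ cj w k r ψ c hX hk hw hc
      refine ⟨?_, ?_, ?_⟩
      · intro t ht
        obtain ⟨t1, t2, t3⟩ := q1 t ht
        refine ⟨t1, t2, t3, e7 D w _ hX.ev hw2 t3, ?_⟩
        obtain ⟨C, N, hC⟩ := q3 t.re ‖t‖ ht
        exact ⟨C, N, fun z hz1 hz2 => hC t z le_rfl le_rfl hz1 hz2⟩
      · intro f
        exact e8 D hD0 F _ _ s σ χ cj w k r f ψ c hX hk hw hc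
      · intro u hu
        exact e9 D hD0 F _ _ s σ χ cj w k r ψ c hX hk hw hc u hu

end RZ

end Pool.Agent.Lib.MP_7c08ba_nt
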