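import Pool.Agent.Lib.MP_7c08ba_nt.RZ.StRm
import Pool.Agent.Lib.MP_7c08ba_nt.RZ.DT

set_option autoImplicit false

/-!
Module Q7 of RANK ONE, many forms: the derivative of the two main terms, index `m`.
-/

namespace Pool.Agent.Lib.MP_7c08ba_nt

namespace RZ

namespace DTmAux

open Complex DTAux

variable (D : ℕ) [NeZero D] (χ : DirichletCharacter ℂ D) (k r : ℕ)

lemma T1_val : T1 D χ k r (-(r : ℂ)) = ((4 * Real.pi : ℂ) ^ (k + r + 1))⁻¹ *
    ((k + r).factorial : ℂ) * DirichletCharacter.LFunction χ 1 := by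
  have e1 : 2 * (r : ℂ) + 1 + 2 * -(r : ℂ) = 1 := by ring
  have e2 : (k : ℂ) + 2 * r + 1 + -(r : ℂ) = ((k + r : ℕ) : ℂ) + 1 := by push_cast; ring
  unfold T1
  rw [e1, cpow_eq, e2, Complex.Gamma_nat_eq_factorial]
  ring

lemma T2_val : T2 D χ k r (-(r : ℂ)) = -(((4 * Real.pi : ℂ) ^ (k + r + 1))⁻¹ *
    ((k + r).factorial : ℂ) * DirichletCharacter.LFunction χ 1) := by
  have e1 : 1 - 2 * (-(r : ℂ) + r) = 1 := by ring
  have e2 : 2 * (-(r : ℂ) + r) = 0 := by ring
  have e4 : (k : ℂ) + 1 - -(r : ℂ) = ((k + r : ℕ) : ℂ) + 1 := by push_cast; ring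
  have e5 : 1 - -(r : ℂ) = (r : ℂ) + 1 := by ring
  have e6 : 2 * (r : ℂ) + 1 + -(r : ℂ) = (r : ℂ) + 1 := by ring
  have hr0 : ((r.factorial : ℕ) : ℂ) ≠ 0 := by exact_mod_cast r.factorial_ne_zero
  unfold T2
  rw [e1, e2, cpow_eq', Complex.cpow_zero, e4, e5, e6, Complex.Gamma_nat_eq_factorial,
    Complex.Gamma_nat_eq_factorial]
  field_simp

variable (m : ℕ)

lemma mpow_eq : (m : ℂ) ^ (-((k : ℂ) + 2 * r + 1 + -(r : ℂ))) = ((m : ℂ) ^ (k + r + 1))⁻¹ := by
  have h : -((k : ℂ) + 2 * r + 1 + -(r : ℂ)) = -((k + r + 1 : ℕ) : ℂ) := by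
    push_cast
    ring
  rw [h, Complex.cpow_neg, Complex.cpow_natCast]

lemma mpow_eq' : (m : ℂ) ^ (-(r : ℂ) - k - 1) = ((m : ℂ) ^ (k + r + 1))⁻¹ := by
  have h : -(r : ℂ) - k - 1 = -((k + r + 1 : ℕ) : ℂ) := by
    push_cast
    ring
  rw [h, Complex.cpow_neg, Complex.cpow_natCast]

end DTmAux

open DTAux DTmAux in
/-- (Q7) the derivative of the other terms at `-r`, index `m`. -/
theorem stDTm : StDTm := by
  intro D _ χ hχ k r m hm
  have hm0 : (m : ℂ) ≠ 0 := by exact_mod_cast (by omega : m ≠ 0)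
  constructor
  · intro t ht
    obtain ⟨ht1, ht2⟩ := ht
    have hL := DirichletCharacter.differentiable_LFunction hχ
    apply DifferentiableAt.differentiableWithinAt
    have gam : ∀ z : ℂ, 0 < z.re → DifferentiableAt ℂ Complex.Gamma z := by
      intro z hz
      refine Complex.differentiableAt_Gamma _ fun m hm => ?_
      rw [hm] at hz
      simp only [Complex.neg_re, Complex.natCast_re] at hz
      have : (0 : ℝ) ≤ m := Nat.cast_nonneg m
      linarith
    have hk : (0 : ℝ) ≤ k := Nat.cast_nonneg k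
    have d1 : DifferentiableAt ℂ (T1 D χ k r) t := by
      refine DifferentiableAt.mul (DifferentiableAt.mul ?_ ?_) ?_
      · exact (hL _).comp t (by fun_prop)
      · refine (gam _ ?_).comp t (by fun_prop)
        simp
        linarith
      · exact DifferentiableAt.const_cpow (by fun_prop) (Or.inl four_pi_ne)
    have d2 : DifferentiableAt ℂ (T2 D χ k r) t := by
      refine DifferentiableAt.neg (DifferentiableAt.div (DifferentiableAt.mul
        (DifferentiableAt.mul (DifferentiableAt.mul (DifferentiableAt.mul ?_ ?_) ?_) ?_) ?_) ?_ ?_)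
      · exact DifferentiableAt.const_cpow (by fun_prop) (Or.inl four_pi_ne)
      · exact DifferentiableAt.const_cpow (by fun_prop) (Or.inl (pi_div_ne D))
      · exact (hL _).comp t (by fun_prop)
      · refine (gam _ ?_).comp t (by fun_prop)
        simp
        linarith
      · refine (gam _ ?_).comp t (by fun_prop)
        simp
        linarith
      · refine (gam _ ?_).comp t (by fun_prop)
        simp
        linarith
      · apply Complex.Gamma_ne_zero_of_re_pos
        simp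
        linarith
    refine DifferentiableAt.add (DifferentiableAt.mul ?_ d1) (DifferentiableAt.mul ?_ d2)
    · exact DifferentiableAt.const_cpow (by fun_prop) (Or.inl hm0)
    · exact DifferentiableAt.const_cpow (by fun_prop) (Or.inl hm0)
  · have g1 : HasDerivAt (fun t : ℂ => -((k : ℂ) + 2 * r + 1 + t)) (-1) (-(r : ℂ)) :=
      ((hasDerivAt_id (-(r : ℂ))).const_add ((k : ℂ) + 2 * r + 1)).neg
    have h1 := g1.const_cpow (c := (m : ℂ)) (Or.inl hm0)
    have g2 : HasDerivAt (fun t : ℂ => t - k - 1) 1 (-(r : ℂ)) := by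
      simpa using ((hasDerivAt_id (-(r : ℂ))).sub_const (k : ℂ)).sub_const 1
    have h2 := g2.const_cpow (c := (m : ℂ)) (Or.inl hm0)
    have h := (h1.mul (deriv_T1 D χ hχ k r)).add (h2.mul (deriv_T2 D χ hχ k r))
    have e : deriv (fun t => (m : ℂ) ^ (-((k : ℂ) + 2 * r + 1 + t)) * T1 D χ k r t +
      (m : ℂ) ^ (t - k - 1) * T2 D χ k r t) (-(r : ℂ)) = _ := h.deriv
    have hlog : Complex.log (m : ℂ) = ((Real.log m : ℝ) : ℂ) := Complex.natCast_log.symm
    rw [e, T1_val, T2_val, mpow_eq, mpow_eq', hlog, log_eq D]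
    push_cast
    ring

end RZ

end Pool.Agent.Lib.MP_7c08ba_nt
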