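import Pool.Agent.Lib.MP_7c08ba_nt.RZ.StX
import Pool.Agent.Lib.MP_7c08ba_nt.RZ.TrS

set_option autoImplicit false

/-!
(X2) the Eisenstein series at all cusps, region of convergence.
-/

namespace Pool.Agent.Lib.MP_7c08ba_nt

namespace RZ

open NumberField MeasureTheory UpperHalfPlane Set IsDedekindDomain
open scoped MatrixGroups ComplexConjugate nonZeroDivisors

namespace EisXAux

open EisBigAux TrSAux

section

variable {q : ℕ} [NeZero q] (χ : DirichletCharacter ℂ q) (r : ℕ) (s u : ℂ) (g : ℕ)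

/-- The terms of the double series at the cusp `1 / g`. -/
noncomputable def W (p : ℤ × ℤ) : ℂ :=
  (if (q : ℤ) ∣ p.1 + g * p.2 then χ (p.2 : ZMod q) else 0) * gE r s ((p.1 : ℂ) * u + p.2)

lemma summable_W (hs : 1 / 2 - (r : ℝ) < s.re) (hu : 0 < u.im) : Summable (W χ r s u g) := by
  refine Summable.of_norm (Summable.of_nonneg_of_le (fun _ => norm_nonneg _) (fun p => ?_)
    (summable_pairs r s u hs hu))
  unfold W
  split_ifs
  · exact norm_chi_le χ _ _
  · rw [zero_mul, norm_zero]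
    exact norm_nonneg _

omit [NeZero q] in
lemma W_neg (hodd : χ (-1) = -1) (p : ℤ × ℤ) : W χ r s u g (-p.1, -p.2) = W χ r s u g p := by
  unfold W
  have e1 : (((-p.1 : ℤ) : ℂ) * u + ((-p.2 : ℤ) : ℂ)) = -((p.1 : ℂ) * u + p.2) := by
    push_cast
    ring
  have e2 : χ ((-p.2 : ℤ) : ZMod q) = -χ ((p.2 : ℤ) : ZMod q) := by
    push_cast
    rw [← neg_one_mul, map_mul, hodd, neg_one_mul]
  have e3 : ((q : ℤ) ∣ -p.1 + g * -p.2) ↔ ((q : ℤ) ∣ p.1 + g * p.2) := by
    rw [← dvd_neg, show -(-p.1 + (g : ℤ) * -p.2) = p.1 + g * p.2 by ring]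
  simp only
  rw [e1, e2, gE_neg]
  by_cases h : (q : ℤ) ∣ p.1 + g * p.2
  · rw [if_pos (e3.mpr h), if_pos h]
    ring
  · rw [if_neg (fun h' => h (e3.mp h')), if_neg h]
    ring

lemma tsum_W (hodd : χ (-1) = -1) (hs : 1 / 2 - (r : ℝ) < s.re) (hu : 0 < u.im) :
    ∑' p : ℤ × ℤ, W χ r s u g p = ∑' d : ℤ, W χ r s u g (0, d) +
      2 * ∑' p : ℕ × ℤ, W χ r s u g ((p.1 : ℤ) + 1, p.2) := by
  have hS : Summable (W χ r s u g) := summable_W χ r s u g hs hu
  have hF : Summable fun m : ℤ => ∑' d : ℤ, W χ r s u g (m, d) := hS.prod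
  have hin : Function.Injective fun p : ℕ × ℤ => (((p.1 : ℤ) + 1, p.2) : ℤ × ℤ) := by
    rintro ⟨a, b⟩ ⟨c, d⟩ h
    simp only [Prod.mk.injEq, add_left_inj, Nat.cast_inj] at h
    rw [h.1, h.2]
  have hJ : ∑' p : ℕ × ℤ, W χ r s u g ((p.1 : ℤ) + 1, p.2) =
      ∑' (n : ℕ) (d : ℤ), W χ r s u g ((n : ℤ) + 1, d) := (hS.comp_injective hin).tsum_prod
  rw [hS.tsum_prod, tsum_even _ hF, hJ]
  intro n
  rw [← (Equiv.neg ℤ).tsum_eq]
  exact tsum_congr fun d => W_neg χ r s u g hodd (n, d)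

lemma W_zero_ne (hg : g ∣ q) (hne : g ≠ q) (d : ℤ) : W χ r s u g (0, d) = 0 := by
  unfold W
  simp only [zero_add]
  by_cases h : (q : ℤ) ∣ g * d
  · rw [if_pos h]
    obtain ⟨e, rfl⟩ := hg
    have hg0 : (g : ℤ) ≠ 0 := by
      intro h0
      have h1 : g = 0 := by exact_mod_cast h0
      exact NeZero.ne (g * e) (by rw [h1, zero_mul])
    have hed : (e : ℤ) ∣ d := by
      push_cast at h
      exact (mul_dvd_mul_iff_left hg0).mp h
    have he1 : e ≠ 1 := by
      rintro rfl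
      exact hne (by rw [mul_one])
    have hnu : ¬ IsUnit ((d : ℤ) : ZMod (g * e)) := by
      rw [ZMod.coe_int_isUnit_iff_isCoprime]
      intro hc
      have h2 : IsCoprime (e : ℤ) d := by
        refine IsCoprime.of_isCoprime_of_dvd_left hc ?_
        push_cast
        exact dvd_mul_left _ _
      have h3 : IsUnit (e : ℤ) := h2.isUnit_of_dvd' dvd_rfl hed
      rw [Int.isUnit_iff] at h3
      rcases h3 with h3 | h3
      · exact he1 (by exact_mod_cast h3)
      · omega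
    rw [χ.map_nonunit hnu, zero_mul]
  · rw [if_neg h, zero_mul]

lemma W_zero_top (hodd : χ (-1) = -1) (hs : 1 / 2 - (r : ℝ) < s.re) (hu : 0 < u.im) :
    ∑' d : ℤ, W χ r s u q (0, d) = 2 * DirichletCharacter.LFunction χ (2 * r + 1 + 2 * s) := by
  have hre : 1 < (2 * (r : ℂ) + 1 + 2 * s).re := by
    have h1 : (2 * (r : ℂ) + 1 + 2 * s).re = 2 * (r : ℝ) + 1 + 2 * s.re := by
      simp
    rw [h1]
    linarith
  have hL : Summable fun n =>
      ‖LSeries.term (fun k => χ (k : ZMod q)) (2 * r + 1 + 2 * s) n‖ :=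
    (DirichletCharacter.LSeriesSummable_of_one_lt_re χ hre).norm
  have hG : Summable fun d : ℤ => W χ r s u q (0, d) :=
    (summable_W χ r s u q hs hu).comp_injective (Prod.mk_right_injective 0)
  rw [tsum_even _ hG]
  · have h0 : W χ r s u q (0, 0) = 0 := by
      simp [W, gE_zero]
    rw [h0, zero_add, DirichletCharacter.LFunction_eq_LSeries χ hre, LSeries,
      hL.of_norm.tsum_eq_zero_add, LSeries.term_zero, zero_add]
    congr 1
    refine tsum_congr fun n => ?_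
    rw [LSeries.term_of_ne_zero (Nat.succ_ne_zero n)]
    have e1 : (((0 : ℤ) : ℂ) * u) + (((n : ℤ) + 1 : ℤ) : ℂ) = ((n + 1 : ℕ) : ℂ) * 1 := by
      push_cast
      ring
    have e2 : gE r s 1 = 1 := by
      simp [gE]
    unfold W
    simp only [zero_add, dvd_mul_right, if_true]
    rw [e1, gE_mul r s 1 (n + 1) (Nat.succ_pos n), e2, mul_one, div_eq_mul_inv]
    push_cast
    rfl
  · intro n
    have := W_neg χ r s u q hodd (0, n)
    simpa using this

lemma inj_sh : Function.Injective fun p : ℤ × ℤ => (((q : ℤ) * p.1 - g * p.2, p.2) : ℤ × ℤ) := by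
  rintro ⟨a, b⟩ ⟨c, d⟩ h
  simp only [Prod.mk.injEq] at h
  obtain ⟨h1, rfl⟩ := h
  have hq : (q : ℤ) ≠ 0 := by exact_mod_cast NeZero.ne q
  have h2 : (q : ℤ) * a = q * c := by linarith
  rw [mul_left_cancel₀ hq h2]

/-- all pairs -/
lemma tsum_sh : ∑' p : ℤ × ℤ, W χ r s u g ((q : ℤ) * p.1 - g * p.2, p.2) =
    ∑' p : ℤ × ℤ, W χ r s u g p := by
  refine (inj_sh (q := q) g).tsum_eq (f := W χ r s u g) ?_
  rintro ⟨a, b⟩ h
  rw [Function.mem_support] at h
  have hd : (q : ℤ) ∣ a + g * b := by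
    by_contra hd
    refine h ?_
    unfold W
    simp only
    rw [if_neg hd, zero_mul]
  obtain ⟨c, hc⟩ := hd
  refine ⟨(c, b), ?_⟩
  simp only [Prod.mk.injEq, and_true]
  linarith

omit [NeZero q] in
lemma HK_sh (hv : (1 - (g : ℂ) * u) ≠ 0) (p : ℤ × ℤ) :
    HK χ r s (u / (1 - g * u)) p = (1 - g * u) ^ (2 * r + 1) *
      ((Complex.normSq (1 - g * u) : ℝ) : ℂ) ^ s *
        W χ r s u g ((q : ℤ) * p.1 - g * p.2, p.2) := by
  unfold HK W
  have e1 : (q : ℂ) * ((p.1 : ℂ) * (u / (1 - g * u))) + (p.2 : ℂ) =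
      ((((q : ℤ) * p.1 - g * p.2 : ℤ) : ℂ) * u + p.2) / (1 - g * u) := by
    have h1 : u / (1 - g * u) * (1 - g * u) = u := div_mul_cancel₀ _ hv
    rw [eq_div_iff hv]
    push_cast
    linear_combination ((q : ℂ) * p.1) * h1
  have e2 : (q : ℤ) ∣ ((q : ℤ) * p.1 - g * p.2) + g * p.2 := ⟨p.1, by ring⟩
  simp only
  rw [e1, gE_div r s _ _ hv, if_pos e2]
  ring

lemma im_sh (hv : (1 - (g : ℂ) * u) ≠ 0) :
    (u / (1 - g * u)).im = u.im / Complex.normSq (1 - g * u) := by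
  have hN : Complex.normSq (1 - g * u) ≠ 0 := (Complex.normSq_pos.mpr hv).ne'
  rw [Complex.div_im]
  have e1 : (1 - (g : ℂ) * u).re = 1 - g * u.re := by simp
  have e2 : (1 - (g : ℂ) * u).im = -(g * u.im) := by simp
  rw [e1, e2, ← sub_div]
  congr 1
  ring

end

end EisXAux

open EisXAux EisBigAux TrSAux in
/-- (X2) the Eisenstein series at all cusps. -/
theorem stEisX (_h1 : StGB) (_h2 : StEisAQ) : StEisX := by
  intro D _ χ r hQ hD g hg t u ht hu
  have hodd : χ (-1) = -1 := hQ.odd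
  have hgD : g ∣ D := Nat.dvd_of_mem_divisors hg
  have hg0 : 0 < g := Nat.pos_of_mem_divisors hg
  have hv : (1 - (g : ℂ) * u) ≠ 0 := by
    intro h
    have h5 := congrArg Complex.im h
    have e2 : (1 - (g : ℂ) * u).im = -(g * u.im) := by simp
    rw [e2, Complex.zero_im] at h5
    have h6 : 0 < (g : ℝ) * u.im := mul_pos (by exact_mod_cast hg0) hu
    linarith
  have hN : 0 < Complex.normSq (1 - g * u) := Complex.normSq_pos.mpr hv
  have him : (u / (1 - g * u)).im = u.im / Complex.normSq (1 - g * u) := im_sh u g hv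
  have hpos : 0 < (u / (1 - g * u)).im := by
    rw [him]
    exact div_pos hu hN
  have h2 : (((u / (1 - g * u)).im : ℝ) : ℂ) ^ t * ((Complex.normSq (1 - g * u) : ℝ) : ℂ) ^ t =
      (u.im : ℂ) ^ t := by
    rw [← Complex.mul_cpow_ofReal_nonneg hpos.le hN.le, him, ← Complex.ofReal_mul,
      div_mul_cancel₀ _ hN.ne']
  have hsum : ∑' p : ℤ × ℤ, HK χ r t (u / (1 - g * u)) p =
      (1 - g * u) ^ (2 * r + 1) * ((Complex.normSq (1 - g * u) : ℝ) : ℂ) ^ t *
        ∑' p : ℤ × ℤ, W χ r t u g p := by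
    rw [← tsum_sh χ r t u g, ← tsum_mul_left]
    exact tsum_congr fun p => HK_sh χ r t u g hv p
  have h0 : ∑' d : ℤ, W χ r t u g (0, d) =
      2 * (if g = D then DirichletCharacter.LFunction χ (2 * r + 1 + 2 * t) else 0) := by
    by_cases hgd : g = D
    · rw [if_pos hgd]
      subst hgd
      exact W_zero_top χ r t u hodd ht hu
    · rw [if_neg hgd, mul_zero]
      simp only [W_zero_ne χ r t u g hgD hgd, tsum_zero]
  have h3 : ∑' p : ℕ × ℤ, W χ r t u g ((p.1 : ℤ) + 1, p.2) =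
      ∑' p : ℕ × ℤ, om D χ g (p.1 + 1) p.2 * gE r t (((p.1 : ℂ) + 1) * u + p.2) := by
    refine tsum_congr fun p => ?_
    unfold W om
    simp only
    push_cast
    rfl
  rw [eis_eq χ r t hodd _ ht hpos, hsum, tsum_W χ r t u g hodd ht hu, h0, h3, ← h2]
  ring

end RZ

end Pool.Agent.Lib.MP_7c08ba_nt
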