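import Pool.Agent.Lib.MP_7c08ba_nt.RZ.StRm
import Pool.Agent.Lib.MP_7c08ba_nt.RZ.Big

set_option autoImplicit false

/-! (Q13) the derivative for the Poincaré series of index `m`. -/

namespace Pool.Agent.Lib.MP_7c08ba_nt

namespace RZ

open NumberField MeasureTheory UpperHalfPlane Set IsDedekindDomain
open scoped MatrixGroups ComplexConjugate nonZeroDivisors

namespace EllAux

theorem pow_id {m : ℕ} (hm : 1 ≤ m) (k r : ℕ) :
    ((m : ℝ) ^ ((k : ℝ) / 2 + r + 1 / 2)) * ((m : ℝ) ^ (k + r + 1))⁻¹ =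
      (m : ℝ) ^ (-((k : ℝ) + 1) / 2) := by
  have hm0 : (0 : ℝ) < m := by exact_mod_cast hm
  rw [← Real.rpow_natCast, ← Real.rpow_neg hm0.le, ← Real.rpow_add hm0]
  congr 1
  push_cast
  ring

theorem pow_id2 {m : ℕ} (hm : 1 ≤ m) (k : ℕ) :
    ((m : ℝ) ^ ((k : ℝ) / 2)) * (m : ℝ) ^ (-((k : ℝ) + 1) / 2) = (m : ℝ) ^ (-(1 : ℝ) / 2) := by
  have hm0 : (0 : ℝ) < m := by exact_mod_cast hm
  rw [← Real.rpow_add hm0]
  congr 1
  ring

/-- the lower bound for the main term -/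
theorem lower {L H H' c₀ l C : ℝ} {L' : ℂ} (hL : 0 < L) (hC : 0 ≤ C) (hH' : 0 ≤ H') (hl : 0 ≤ l)
    (hH : l ≤ H) :
    L * l - (C + 2 * L + 2 * L * |c₀| + 4 * ‖L'‖) ≤
      ‖2 * ((L : ℂ) * ((H' : ℂ) + H + c₀) + 2 * L')‖ := by
  have h1 : L * (H' + H + c₀) ≤ ‖(L : ℂ) * ((H' : ℂ) + H + c₀)‖ := by
    have : (L : ℂ) * ((H' : ℂ) + H + c₀) = ((L * (H' + H + c₀) : ℝ) : ℂ) := by push_cast; ring
    rw [this, Complex.norm_real]
    exact le_abs_self _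
  have h2 : ‖(L : ℂ) * ((H' : ℂ) + H + c₀)‖ ≤
      ‖(L : ℂ) * ((H' : ℂ) + H + c₀) + 2 * L'‖ + 2 * ‖L'‖ := by
    have h5 := norm_sub_le ((L : ℂ) * ((H' : ℂ) + H + c₀) + 2 * L') (2 * L')
    rw [add_sub_cancel_right] at h5
    refine h5.trans (le_of_eq ?_)
    rw [norm_mul (2 : ℂ) L', Complex.norm_two]
  rw [norm_mul, Complex.norm_two]
  have h3 : L * (l - |c₀|) ≤ L * (H' + H + c₀) := by
    refine mul_le_mul_of_nonneg_left ?_ hL.le
    have := neg_abs_le c₀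
    linarith
  have h4 : 0 ≤ L * l := mul_nonneg hL.le hl
  nlinarith

/-- the upper bound for the error -/
theorem upper {m : ℕ} (hm : 1 ≤ m) {k r : ℕ} {N L C C' x y : ℝ} {ρ z D2 : ℂ} (hN : 0 ≤ N)
    (hL : 0 ≤ L) (hC' : C + 2 * L ≤ C') (hρ : ‖ρ‖ ≤ x * (m : ℝ) ^ ((k : ℝ) / 2)) (hx : 0 ≤ x)
    (hy : 0 ≤ y)
    (hD2 : (m : ℝ) ^ ((k : ℝ) / 2 + r + 1 / 2) * ‖D2‖ ≤
      C * N * (x * (1 + Real.log m) * (m : ℝ) ^ (-(1 : ℝ) / 2) + y)) :
    ‖(((m : ℝ) ^ ((k : ℝ) / 2 + r + 1 / 2) : ℝ) : ℂ) *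
          (ρ * (((m : ℂ) ^ (k + r + 1))⁻¹ * ((N : ℂ) * (z - 2 * (L * Real.log m : ℝ)))) + D2) -
        (N : ℂ) * ((ρ * (((m : ℝ) ^ (-((k : ℝ) + 1) / 2) : ℝ) : ℂ)) * z)‖ ≤
      C' * N * (x * (1 + Real.log m) * (m : ℝ) ^ (-(1 : ℝ) / 2) + y) := by
  have hm0 : (0 : ℝ) < m := by exact_mod_cast hm
  have hm1 : (1 : ℝ) ≤ m := by exact_mod_cast hm
  have hlog : 0 ≤ Real.log m := Real.log_nonneg hm1
  have e1 : (((m : ℝ) ^ ((k : ℝ) / 2 + r + 1 / 2) : ℝ) : ℂ) * ((m : ℂ) ^ (k + r + 1))⁻¹ =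
      (((m : ℝ) ^ (-((k : ℝ) + 1) / 2) : ℝ) : ℂ) := by
    rw [← pow_id hm k r]
    push_cast
    rfl
  have e2 : (((m : ℝ) ^ ((k : ℝ) / 2 + r + 1 / 2) : ℝ) : ℂ) *
          (ρ * (((m : ℂ) ^ (k + r + 1))⁻¹ * ((N : ℂ) * (z - 2 * (L * Real.log m : ℝ)))) + D2) -
        (N : ℂ) * ((ρ * (((m : ℝ) ^ (-((k : ℝ) + 1) / 2) : ℝ) : ℂ)) * z) =
      -((N : ℂ) * ρ * (((m : ℝ) ^ (-((k : ℝ) + 1) / 2) : ℝ) : ℂ) * (2 * (L * Real.log m : ℝ))) +
        (((m : ℝ) ^ ((k : ℝ) / 2 + r + 1 / 2) : ℝ) : ℂ) * D2 := by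
    rw [← e1]
    ring
  rw [e2]
  refine (norm_add_le _ _).trans ?_
  rw [norm_neg, norm_mul, norm_mul, norm_mul, norm_mul, norm_mul, Complex.norm_real,
    Complex.norm_real, Complex.norm_real, Complex.norm_real, Complex.norm_two,
    Real.norm_of_nonneg hN, Real.norm_of_nonneg (mul_nonneg hL hlog),
    Real.norm_of_nonneg (Real.rpow_nonneg hm0.le _), Real.norm_of_nonneg (Real.rpow_nonneg hm0.le _)]
  have h1 : N * ‖ρ‖ * (m : ℝ) ^ (-((k : ℝ) + 1) / 2) * (2 * (L * Real.log m)) ≤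
      2 * L * N * (x * (1 + Real.log m) * (m : ℝ) ^ (-(1 : ℝ) / 2)) := by
    have h2 : ‖ρ‖ * (m : ℝ) ^ (-((k : ℝ) + 1) / 2) ≤ x * (m : ℝ) ^ (-(1 : ℝ) / 2) := by
      refine (mul_le_mul_of_nonneg_right hρ (Real.rpow_nonneg hm0.le _)).trans (le_of_eq ?_)
      rw [mul_assoc, pow_id2 hm k]
    have h3 : N * ‖ρ‖ * (m : ℝ) ^ (-((k : ℝ) + 1) / 2) * (2 * (L * Real.log m)) =
        (2 * L * N * Real.log m) * (‖ρ‖ * (m : ℝ) ^ (-((k : ℝ) + 1) / 2)) := by ring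
    have h4 : 2 * L * N * (x * (1 + Real.log m) * (m : ℝ) ^ (-(1 : ℝ) / 2)) =
        (2 * L * N * (1 + Real.log m)) * (x * (m : ℝ) ^ (-(1 : ℝ) / 2)) := by ring
    rw [h3, h4]
    have hm2 : 0 ≤ (m : ℝ) ^ (-(1 : ℝ) / 2) := Real.rpow_nonneg hm0.le _
    have hm3 : 0 ≤ (m : ℝ) ^ (-((k : ℝ) + 1) / 2) := Real.rpow_nonneg hm0.le _
    refine mul_le_mul ?_ h2 (by positivity) (by positivity)
    refine mul_le_mul_of_nonneg_left (by linarith) (by positivity)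
  have h5 : 0 ≤ x * (1 + Real.log m) * (m : ℝ) ^ (-(1 : ℝ) / 2) := by
    have hm2 : 0 ≤ (m : ℝ) ^ (-(1 : ℝ) / 2) := Real.rpow_nonneg hm0.le _
    positivity
  calc _ ≤ 2 * L * N * (x * (1 + Real.log m) * (m : ℝ) ^ (-(1 : ℝ) / 2)) +
        C * N * (x * (1 + Real.log m) * (m : ℝ) ^ (-(1 : ℝ) / 2) + y) := add_le_add h1 hD2
    _ ≤ 2 * L * N * (x * (1 + Real.log m) * (m : ℝ) ^ (-(1 : ℝ) / 2) + y) +
        C * N * (x * (1 + Real.log m) * (m : ℝ) ^ (-(1 : ℝ) / 2) + y) := by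
      gcongr
      linarith
    _ = (C + 2 * L) * N * (x * (1 + Real.log m) * (m : ℝ) ^ (-(1 : ℝ) / 2) + y) := by ring
    _ ≤ C' * N * (x * (1 + Real.log m) * (m : ℝ) ^ (-(1 : ℝ) / 2) + y) := by
      gcongr

end EllAux

theorem stEll (h1 : StEqRm) (h2 : StDTm) (h3 : StErr) (h4 : StSgG) (h5 : StSuAm) (h6 : StThK) :
    StEll := by
  intro D _ F _ _ s σ χ cj hd hp
  obtain ⟨-, -, L, hL0, hL⟩ := h4 D inferInstance F _ _ s σ χ cj hd
  obtain ⟨C, hC0, hC⟩ := h3 D inferInstance F _ _ s σ χ cj hd hp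
  have hχ : χ ≠ 1 := Big.chi_ne_one hd.odd hd.chi
  set c₀ : ℝ := -2 * Real.eulerMascheroniConstant + Real.log (D / (4 * Real.pi ^ 2)) with hc₀
  set L' : ℂ := deriv (DirichletCharacter.LFunction χ) 1 with hL'
  refine ⟨L, C + 2 * L + 2 * L * |c₀| + 4 * ‖L'‖, hL0, by positivity, ?_⟩
  intro w k r ψ c hψ hco hw hr
  have hr20 : (20 : ℝ) ≤ r := by exact_mod_cast hr
  have hH' : (0 : ℝ) ≤ ((harmonic (k + r) : ℚ) : ℝ) := by
    have : (0 : ℚ) ≤ harmonic (k + r) := by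
      unfold harmonic
      positivity
    exact_mod_cast this
  have hH : Real.log r ≤ ((harmonic r : ℚ) : ℝ) := by
    have h9 := log_add_one_le_harmonic r
    push_cast at h9
    refine le_trans (Real.log_le_log (by linarith) (by linarith)) h9
  have hlr : 0 ≤ Real.log r := Real.log_nonneg (by linarith)
  refine ⟨2 * ((L : ℂ) * ((((harmonic (k + r) : ℚ) : ℝ) : ℂ) + (((harmonic r : ℚ) : ℝ) : ℂ) + c₀) +
    2 * L'), EllAux.lower hL0 hC0.le hH' hlr hH, ?_⟩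
  intro m P hm hmr hP
  have hm0 : (0 : ℝ) < m := by exact_mod_cast hm
  -- the region
  have hopen : IsOpen {t : ℂ | -(r : ℝ) - 1 / 4 < t.re ∧ t.re < -1} :=
    (isOpen_lt continuous_const Complex.continuous_re).inter
      (isOpen_lt Complex.continuous_re continuous_const)
  have hmem : (-(r : ℂ)) ∈ {t : ℂ | -(r : ℝ) - 1 / 4 < t.re ∧ t.re < -1} := by
    constructor
    · rw [Complex.neg_re, Complex.natCast_re]
      linarith
    · rw [Complex.neg_re, Complex.natCast_re]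
      linarith
  have hnh := hopen.mem_nhds hmem
  have hev : (fun t => rsD D (HN D χ k r ψ c t) P) =ᶠ[nhds (-(r : ℂ))]
      fun t => rT k ψ c m * ((m : ℂ) ^ (-((k : ℂ) + 2 * r + 1 + t)) * T1 D χ k r t +
          (m : ℂ) ^ (t - k - 1) * T2 D χ k r t) + SUMm D χ k r m ψ c t := by
    filter_upwards [hnh] with t ht
    exact h1 D inferInstance F _ _ s σ χ cj w k r m ψ c P hd hp hψ hco hw (by omega) hm hP t
      ht.1 ht.2
  have hS : DifferentiableAt ℂ (SUMm D χ k r m ψ c) (-(r : ℂ)) :=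
    (h5 D inferInstance F _ _ s σ χ cj k r m ψ c hd hp hψ hm).1.differentiableAt hnh
  obtain ⟨hT, hT'⟩ := h2 D inferInstance χ hχ k r m hm
  have hTd : DifferentiableAt ℂ (fun t => (m : ℂ) ^ (-((k : ℂ) + 2 * r + 1 + t)) * T1 D χ k r t +
      (m : ℂ) ^ (t - k - 1) * T2 D χ k r t) (-(r : ℂ)) := by
    refine hT.differentiableAt ?_
    refine ((isOpen_lt continuous_const Complex.continuous_re).inter
      (isOpen_lt Complex.continuous_re continuous_const)).mem_nhds ?_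
    constructor
    · show -2 * (r : ℝ) - 1 < (-(r : ℂ)).re
      rw [Complex.neg_re, Complex.natCast_re]
      linarith
    · show (-(r : ℂ)).re < 1
      rw [Complex.neg_re, Complex.natCast_re]
      linarith
  rw [hev.deriv_eq, deriv_fun_add (hTd.const_mul _) hS, deriv_const_mul _ hTd, hT']
  have hN : (0 : ℝ) < ((k + r).factorial : ℝ) * ((4 * Real.pi) ^ (k + r + 1))⁻¹ := by
    have := Real.pi_pos
    have := Nat.factorial_pos (k + r)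
    positivity
  have hρ := (h6 D F _ _ s σ χ cj k ψ c hd hψ).1 m hm
  have hD2 := hC k r m ψ c hψ hr hm hmr
  have h7 : (2 * ((4 * Real.pi : ℂ) ^ (k + r + 1))⁻¹ * ((k + r).factorial : ℂ) *
        (DirichletCharacter.LFunction χ 1 * ((harmonic (k + r) : ℂ) + (harmonic r : ℂ) -
          2 * Real.eulerMascheroniConstant + Real.log (D / (4 * Real.pi ^ 2)) - Real.log m) +
            2 * L')) =
      ((((k + r).factorial : ℝ) * ((4 * Real.pi) ^ (k + r + 1))⁻¹ : ℝ) : ℂ) *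
        (2 * ((L : ℂ) * ((((harmonic (k + r) : ℚ) : ℝ) : ℂ) + (((harmonic r : ℚ) : ℝ) : ℂ) + c₀) +
          2 * L') - 2 * (L * Real.log m : ℝ)) := by
    rw [hL, hc₀]
    push_cast
    ring
  rw [h7]
  refine EllAux.upper hm hN.le hL0.le ?_ hρ (Nat.cast_nonneg _) ?_ hD2
  · have h8 : 0 ≤ 2 * L * |c₀| := by positivity
    have h9 : 0 ≤ 4 * ‖L'‖ := by positivity
    linarith
  · exact mul_nonneg (Real.rpow_nonneg hm0.le _) (Real.rpow_nonneg (by linarith) _)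

end RZ

end Pool.Agent.Lib.MP_7c08ba_nt
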