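import Pool.Agent.Lib.MP_7c08ba_nt.RZ.StXq
import Pool.Agent.Lib.MP_7c08ba_nt.RZ.Ell

set_option autoImplicit false

/-!
(XQ2) the derivative for the Poincaré series of index `m`, every imaginary quadratic field of
discriminant `-D`, `D > 4`.
-/

namespace Pool.Agent.Lib.MP_7c08ba_nt

namespace RZ

open NumberField MeasureTheory UpperHalfPlane Set IsDedekindDomain
open scoped MatrixGroups ComplexConjugate nonZeroDivisors

namespace EllXAux

theorem norm_bpsi_le {F : Type} [Field F] [NumberField F] {ψ : Ideal (𝓞 F) →*₀ ℂ} {k m : ℕ}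
    (hm : 1 ≤ m) (h1 : ∀ b : Ideal (𝓞 F), b ≠ ⊥ → ‖ψ b‖ ^ 2 = (Ideal.absNorm b : ℝ) ^ k)
    (h2 : Nat.card {b : Ideal (𝓞 F) // Ideal.absNorm b = m} ≤ m.divisors.card) :
    ‖bψ ψ m‖ ≤ (m.divisors.card : ℝ) * (m : ℝ) ^ ((k : ℝ) / 2) := by
  have hfin : Finite {b : Ideal (𝓞 F) // Ideal.absNorm b = m} :=
    Ideal.finite_setOfPred_absNorm_eq m
  have := Fintype.ofFinite {b : Ideal (𝓞 F) // Ideal.absNorm b = m}
  have hm0 : (0 : ℝ) ≤ m := Nat.cast_nonneg m
  unfold bψ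
  rw [tsum_fintype]
  refine (norm_sum_le _ _).trans ?_
  have h3 : ∀ b : {b : Ideal (𝓞 F) // Ideal.absNorm b = m},
      ‖ψ b.1‖ = (m : ℝ) ^ ((k : ℝ) / 2) := by
    intro b
    have hb : b.1 ≠ ⊥ := by
      intro h
      have h4 := b.2
      rw [h, Ideal.absNorm_bot] at h4
      omega
    have h5 := h1 b.1 hb
    rw [b.2] at h5
    have h6 : ((m : ℝ) ^ ((k : ℝ) / 2)) ^ 2 = (m : ℝ) ^ k := by
      rw [← Real.rpow_natCast, ← Real.rpow_mul hm0, ← Real.rpow_natCast]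
      congr 1
      push_cast
      ring
    rw [← h6] at h5
    exact (pow_left_inj₀ (norm_nonneg _) (Real.rpow_nonneg hm0 _) two_ne_zero).mp h5
  rw [Finset.sum_congr rfl fun b _ => h3 b, Finset.sum_const, nsmul_eq_mul, Finset.card_univ,
    ← Nat.card_eq_fintype_card]
  exact mul_le_mul_of_nonneg_right (by exact_mod_cast h2) (Real.rpow_nonneg hm0 _)

end EllXAux

theorem stEllX (h1 : StEqX) (h2 : StDTm) (h3 : StErrX) (h4 : StSgX) (h5 : StSuX) (h6 : StThX)
    (h7 : StCom) : StEllX := by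
  intro D _ F _ _ s σ χ cj hd
  obtain ⟨-, L, hL0, hL⟩ := h4 D inferInstance F _ _ s σ χ cj hd
  obtain ⟨C, hC0, hC⟩ := h3 D inferInstance F _ _ s σ χ cj hd
  obtain ⟨⟨-, -, hχ, -⟩, -, hHk, hcard, -⟩ := h7 D inferInstance F _ _ s σ χ cj hd
  set c₀ : ℝ := -2 * Real.eulerMascheroniConstant + Real.log (D / (4 * Real.pi ^ 2)) with hc₀
  set L' : ℂ := deriv (DirichletCharacter.LFunction χ) 1 with hL'
  refine ⟨L, C + 2 * L + 2 * L * |c₀| + 4 * ‖L'‖, hL0, by positivity, ?_⟩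
  intro w k r ψ c hψ hco hw hr
  obtain ⟨θ, hθ⟩ := h6 D inferInstance F _ _ s σ χ cj k ψ c hd hψ hco
  have hr20 : (20 : ℝ) ≤ r := by exact_mod_cast hr
  have hH' : (0 : ℝ) ≤ ((harmonic (k + r) : ℚ) : ℝ) := by
    have : (0 : ℚ) ≤ harmonic (k + r) := by
      unfold harmonic
      positivity
    exact_mod_cast this
  have hH : Real.log r ≤ ((harmonic r : ℚ) : ℝ) := by
    have h9 := log_add_one_le_harmonic r
    push_cast at h9
    refine le_trans (Real.log_le_log (by linarith) (by linarith)) h9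
  have hlr : 0 ≤ Real.log r := Real.log_nonneg (by linarith)
  refine ⟨2 * ((L : ℂ) * ((((harmonic (k + r) : ℚ) : ℝ) : ℂ) + (((harmonic r : ℚ) : ℝ) : ℂ) + c₀) +
    2 * L'), EllAux.lower hL0 hC0.le hH' hlr hH, ?_⟩
  intro m P hm hmr hP
  have hm0 : (0 : ℝ) < m := by exact_mod_cast hm
  -- the region
  have hopen : IsOpen {t : ℂ | -(r : ℝ) - 1 / 4 < t.re ∧ t.re < -1} :=
    (isOpen_lt continuous_const Complex.continuous_re).inter
      (isOpen_lt Complex.continuous_re continuous_const)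
  have hmem : (-(r : ℂ)) ∈ {t : ℂ | -(r : ℝ) - 1 / 4 < t.re ∧ t.re < -1} := by
    constructor
    · rw [Complex.neg_re, Complex.natCast_re]
      linarith
    · rw [Complex.neg_re, Complex.natCast_re]
      linarith
  have hnh := hopen.mem_nhds hmem
  have hev : (fun t => rsE D (HN D χ k r ψ c t) P) =ᶠ[nhds (-(r : ℂ))]
      fun t => bψ ψ m * ((m : ℂ) ^ (-((k : ℂ) + 2 * r + 1 + t)) * T1 D χ k r t +
          (m : ℂ) ^ (t - k - 1) * T2 D χ k r t) + SX D χ k r m θ t := by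
    filter_upwards [hnh] with t ht
    exact h1 D inferInstance F _ _ s σ χ cj w k r m ψ c θ P hd hψ hθ hco hw (by omega) hm hP t
      ht.1 ht.2
  have hS : DifferentiableAt ℂ (SX D χ k r m θ) (-(r : ℂ)) :=
    (h5 D inferInstance F _ _ s σ χ cj k r m ψ c θ hd hψ hθ hm).1.differentiableAt hnh
  obtain ⟨hT, hT'⟩ := h2 D inferInstance χ hχ k r m hm
  have hTd : DifferentiableAt ℂ (fun t => (m : ℂ) ^ (-((k : ℂ) + 2 * r + 1 + t)) * T1 D χ k r t +
      (m : ℂ) ^ (t - k - 1) * T2 D χ k r t) (-(r : ℂ)) := by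
    refine hT.differentiableAt ?_
    refine ((isOpen_lt continuous_const Complex.continuous_re).inter
      (isOpen_lt Complex.continuous_re continuous_const)).mem_nhds ?_
    constructor
    · show -2 * (r : ℝ) - 1 < (-(r : ℂ)).re
      rw [Complex.neg_re, Complex.natCast_re]
      linarith
    · show (-(r : ℂ)).re < 1
      rw [Complex.neg_re, Complex.natCast_re]
      linarith
  rw [hev.deriv_eq, deriv_fun_add (hTd.const_mul _) hS, deriv_const_mul _ hTd, hT']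
  have hN : (0 : ℝ) < ((k + r).factorial : ℝ) * ((4 * Real.pi) ^ (k + r + 1))⁻¹ := by
    have := Real.pi_pos
    have := Nat.factorial_pos (k + r)
    positivity
  have hρ := EllXAux.norm_bpsi_le hm (hHk k ψ hψ).2.1 (hcard m hm)
  have hD2 := hC k r m ψ c θ hψ hθ hco hr hm hmr
  have h7 : (2 * ((4 * Real.pi : ℂ) ^ (k + r + 1))⁻¹ * ((k + r).factorial : ℂ) *
        (DirichletCharacter.LFunction χ 1 * ((harmonic (k + r) : ℂ) + (harmonic r : ℂ) -
          2 * Real.eulerMascheroniConstant + Real.log (D / (4 * Real.pi ^ 2)) - Real.log m) +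
            2 * L')) =
      ((((k + r).factorial : ℝ) * ((4 * Real.pi) ^ (k + r + 1))⁻¹ : ℝ) : ℂ) *
        (2 * ((L : ℂ) * ((((harmonic (k + r) : ℚ) : ℝ) : ℂ) + (((harmonic r : ℚ) : ℝ) : ℂ) + c₀) +
          2 * L') - 2 * (L * Real.log m : ℝ)) := by
    rw [hL, hc₀]
    push_cast
    ring
  rw [h7]
  refine EllAux.upper hm hN.le hL0.le ?_ hρ (Nat.cast_nonneg _) ?_ hD2
  · have h8 : 0 ≤ 2 * L * |c₀| := by positivity
    have h9 : 0 ≤ 4 * ‖L'‖ := by positivity
    linarith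
  · exact mul_nonneg (Real.rpow_nonneg hm0.le _) (Real.rpow_nonneg (by linarith) _)

end RZ

end Pool.Agent.Lib.MP_7c08ba_nt
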