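import Mathlib
import Pool.Agent.Lib.MP_7c08ba_nt.RZ.StRm

set_option autoImplicit false

/-!
Module ErB: the terms with large index.
-/

namespace Pool.Agent.Lib.MP_7c08ba_nt

namespace RZ

open Real

namespace ErBAux

/-- The decay of the last factor. -/
theorem q_bound (r : ℕ) (hr : 20 ≤ r) {x y : ℝ} (hy : 1 ≤ y) (hx : y + 1 ≤ x) :
    (2 * y / (x + y)) ^ r ≤ (2 * y / (x + y)) ^ 5 * ((2 * y) ^ 4 * (1976 * ((r : ℝ) ^ 4)⁻¹)) := by
  have hr' : (20 : ℝ) ≤ r := by exact_mod_cast hr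
  have hxy : 0 < x + y := by linarith
  have hy0 : 0 < 2 * y := by linarith
  have hq0 : 0 < 2 * y / (x + y) := div_pos hy0 hxy
  have hq1 : 2 * y / (x + y) ≤ 1 := by
    rw [div_le_one hxy]
    linarith
  set p : ℕ := (r - 5) / 4 with hp
  have hp4 : 4 * p ≤ r - 5 := Nat.mul_div_le _ _
  have hp3 : r ≤ 4 * p + 8 := by omega
  have hp3' : (r : ℝ) ≤ 4 * p + 8 := by exact_mod_cast hp3
  have hpr : 3 * (r : ℝ) / 20 ≤ p := by linarith
  have hp0 : (0 : ℝ) < p := by linarith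
  have h1 : (2 * y / (x + y)) ^ r = (2 * y / (x + y)) ^ 5 * (2 * y / (x + y)) ^ (r - 5) := by
    rw [← pow_add]
    congr 1
    omega
  rw [h1]
  refine mul_le_mul_of_nonneg_left ?_ (pow_nonneg hq0.le 5)
  have h2 : (2 * y / (x + y)) ^ (r - 5) ≤ (2 * y / (x + y)) ^ (4 * p) :=
    pow_le_pow_of_le_one hq0.le hq1 hp4
  refine h2.trans ?_
  -- the inverse
  have hb : (p : ℝ) / (2 * y) ≤ ((x + y) / (2 * y)) ^ p := by
    have h3 : (1 : ℝ) + p * ((x - y) / (2 * y)) ≤ (1 + (x - y) / (2 * y)) ^ p := by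
      apply one_add_mul_le_pow
      have : 0 ≤ (x - y) / (2 * y) := div_nonneg (by linarith) hy0.le
      linarith
    have h4 : 1 + (x - y) / (2 * y) = (x + y) / (2 * y) := by
      field_simp
      ring
    rw [h4] at h3
    have h5 : (p : ℝ) / (2 * y) ≤ p * ((x - y) / (2 * y)) := by
      rw [div_eq_mul_inv, div_eq_mul_inv]
      refine mul_le_mul_of_nonneg_left ?_ hp0.le
      have : (2 * y)⁻¹ * 1 ≤ (2 * y)⁻¹ * (x - y) :=
        mul_le_mul_of_nonneg_left (by linarith) (inv_nonneg.mpr hy0.le)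
      rw [mul_one] at this
      rw [mul_comm (x - y)]
      exact this
    linarith
  have hb0 : (0 : ℝ) < (p : ℝ) / (2 * y) := div_pos hp0 hy0
  have hb' : (2 * y / (x + y)) ^ p ≤ 2 * y / p := by
    have h3 : (2 * y / (x + y)) ^ p = (((x + y) / (2 * y)) ^ p)⁻¹ := by
      rw [← inv_pow, inv_div]
    rw [h3]
    have h4 := inv_anti₀ hb0 hb
    rwa [inv_div] at h4
  have h6 : (2 * y / (x + y)) ^ (4 * p) ≤ (2 * y / p) ^ 4 := by
    rw [mul_comm 4 p, pow_mul]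
    exact pow_le_pow_left₀ (pow_nonneg hq0.le p) hb' 4
  refine h6.trans ?_
  rw [div_pow, div_eq_mul_inv]
  refine mul_le_mul_of_nonneg_left ?_ (pow_nonneg hy0.le 4)
  have hr0 : (0 : ℝ) < r := by linarith
  have h7 : (3 * (r : ℝ) / 20) ^ 4 ≤ (p : ℝ) ^ 4 :=
    pow_le_pow_left₀ (by positivity) hpr 4
  have h8 : ((p : ℝ) ^ 4)⁻¹ ≤ ((3 * (r : ℝ) / 20) ^ 4)⁻¹ := inv_anti₀ (by positivity) h7
  refine h8.trans ?_
  have h9 : ((3 * (r : ℝ) / 20) ^ 4)⁻¹ = (160000 / 81) * ((r : ℝ) ^ 4)⁻¹ := by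
    field_simp
    ring
  rw [h9]
  refine mul_le_mul_of_nonneg_right (by norm_num) (by positivity)

/-- The estimate of a term. -/
theorem real_bound (k r : ℕ) (hr : 20 ≤ r) {x y A d₁ d₂ l : ℝ} (hA : 0 ≤ A) (hy : 1 ≤ y)
    (hx : y + 1 ≤ x) (h1 : 0 ≤ d₁) (h1' : d₁ ≤ x) (h2 : 0 ≤ d₂) (h2' : d₂ ≤ x) (hl : 0 ≤ l)
    (hl' : l ≤ x + y) :
    y ^ ((k : ℝ) / 2 + r + 1 / 2) * ((d₁ * x ^ ((k : ℝ) / 2)) * d₂ *
      (A * ((2 * π) ^ (k + r + 1))⁻¹ * ((x + y) ^ (k + r))⁻¹ * (10 * l))) ≤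
    20234240 * (A * ((4 * π) ^ (k + r + 1))⁻¹) * (y ^ 10 * ((r : ℝ) ^ 4)⁻¹) * (1 / x ^ 2) := by
  have hy0 : 0 < y := by linarith
  have hx0 : 0 < x := by linarith
  have hxy : 0 < x + y := by linarith
  have hπ := Real.pi_pos
  set N : ℝ := A * ((4 * π) ^ (k + r + 1))⁻¹ with hN
  have hN0 : 0 ≤ N := by positivity
  have e1 : x ^ ((k : ℝ) / 2) = (√x) ^ k := by
    rw [Real.sqrt_eq_rpow, ← Real.rpow_natCast, ← Real.rpow_mul hx0.le]
    congr 1
    ring
  have e2 : y ^ ((k : ℝ) / 2 + r + 1 / 2) = (√y) ^ k * y ^ r * √y := by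
    rw [Real.rpow_add hy0, Real.rpow_add hy0, Real.rpow_natCast]
    congr 2
    · rw [Real.sqrt_eq_rpow, ← Real.rpow_natCast, ← Real.rpow_mul hy0.le]
      congr 1
      ring
    · rw [Real.sqrt_eq_rpow]
  have e3 : A * ((2 * π) ^ (k + r + 1))⁻¹ = N * 2 ^ (k + r + 1) := by
    rw [hN, show (4 * π) = 2 * (2 * π) by ring, mul_pow 2 (2 * π)]
    have : (2 : ℝ) ^ (k + r + 1) ≠ 0 := by positivity
    have : ((2 * π) : ℝ) ^ (k + r + 1) ≠ 0 := by positivity
    field_simp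
  have e4 : y ^ ((k : ℝ) / 2 + r + 1 / 2) * ((d₁ * x ^ ((k : ℝ) / 2)) * d₂ *
      (A * ((2 * π) ^ (k + r + 1))⁻¹ * ((x + y) ^ (k + r))⁻¹ * (10 * l))) =
      N * 20 * √y * (d₁ * d₂ * l) * (2 * (√y * √x) / (x + y)) ^ k * (2 * y / (x + y)) ^ r := by
    rw [e1, e2, e3, div_pow, div_pow, mul_pow, mul_pow, mul_pow, pow_add (x + y) k r]
    have : (x + y) ^ k ≠ 0 := by positivity
    have : (x + y) ^ r ≠ 0 := by positivity
    field_simp
    ring
  rw [e4]
  have hs : 2 * (√y * √x) ≤ x + y := by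
    have h3 : 0 ≤ (√x - √y) ^ 2 := sq_nonneg _
    have h4 : √x ^ 2 = x := Real.sq_sqrt hx0.le
    have h5 : √y ^ 2 = y := Real.sq_sqrt hy0.le
    nlinarith
  have hs1 : (2 * (√y * √x) / (x + y)) ^ k ≤ 1 := by
    apply pow_le_one₀
    · positivity
    · rw [div_le_one hxy]
      exact hs
  have hsy : √y ≤ y := by
    rw [Real.sqrt_le_left hy0.le]
    nlinarith
  have hq := q_bound r hr hy hx
  have hr0 : (0 : ℝ) < r := by
    have : (20 : ℝ) ≤ r := by exact_mod_cast hr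
    linarith
  have hd : d₁ * d₂ * l ≤ x * x * (x + y) := by
    have h3 : d₁ * d₂ ≤ x * x := mul_le_mul h1' h2' h2 hx0.le
    exact mul_le_mul h3 hl' hl (by positivity)
  calc N * 20 * √y * (d₁ * d₂ * l) * (2 * (√y * √x) / (x + y)) ^ k * (2 * y / (x + y)) ^ r
      ≤ N * 20 * y * (x * x * (x + y)) * 1 *
        ((2 * y / (x + y)) ^ 5 * ((2 * y) ^ 4 * (1976 * ((r : ℝ) ^ 4)⁻¹))) := by
        gcongr
    _ ≤ N * 20 * y * ((x + y) * (x + y) * (x + y)) * 1 *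
        ((2 * y / (x + y)) ^ 5 * ((2 * y) ^ 4 * (1976 * ((r : ℝ) ^ 4)⁻¹))) := by
        gcongr <;> linarith
    _ = 20234240 * N * (y ^ 10 * ((r : ℝ) ^ 4)⁻¹) * (1 / (x + y) ^ 2) := by
        rw [div_pow]
        field_simp
        ring
    _ ≤ 20234240 * N * (y ^ 10 * ((r : ℝ) ^ 4)⁻¹) * (1 / x ^ 2) := by
        gcongr
        linarith

end ErBAux

open ErBAux in
/-- Module ErB. -/
theorem stErB (h1 : StKpB) : StErB := by
  refine ⟨40468480, by norm_num, ?_⟩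
  intro k r Y ρ τ hY hr hρ hτ
  have hY' : (1 : ℝ) ≤ Y := by exact_mod_cast hY
  have hY0 : (0 : ℝ) < Y := by linarith
  set P : ℝ := (Y : ℝ) ^ ((k : ℝ) / 2 + r + 1 / 2) with hP
  have hP0 : 0 < P := Real.rpow_pos_of_pos hY0 _
  set K : ℝ := 20234240 * (((k + r).factorial : ℝ) * ((4 * π) ^ (k + r + 1))⁻¹) *
    ((Y : ℝ) ^ 10 * ((r : ℝ) ^ 4)⁻¹) with hK
  have hK0 : 0 ≤ K := by
    have := Real.pi_pos
    positivity
  set f : ℕ → ℝ := fun n => if Y < n then ‖ρ n * τ n * deriv (Kp k r n Y) (-r)‖ else 0 with hf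
  have hf0 : ∀ n, 0 ≤ f n := by
    intro n
    simp only [hf]
    split_ifs
    · exact norm_nonneg _
    · exact le_refl _
  have hterm : ∀ n, f n ≤ K / P * (1 / (n : ℝ) ^ 2) := by
    intro n
    by_cases hn : Y < n
    · have hn' : (Y : ℝ) + 1 ≤ n := by exact_mod_cast hn
      have hn0 : (0 : ℝ) < n := by linarith
      have hfn : f n = ‖ρ n * τ n * deriv (Kp k r n Y) (-r)‖ := by
        simp only [hf, if_pos hn]
      have hlog : Real.log ((n : ℝ) + Y) ≤ (n : ℝ) + Y - 1 :=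
        Real.log_le_sub_one_of_pos (by linarith)
      have hlog0 : 0 ≤ Real.log ((n : ℝ) + Y) := Real.log_nonneg (by linarith)
      have hd1 : (n.divisors.card : ℝ) ≤ n := by exact_mod_cast Nat.card_divisors_le_self n
      have hd2 : ((n - Y).divisors.card : ℝ) ≤ n := by
        exact_mod_cast (Nat.card_divisors_le_self (n - Y)).trans (Nat.sub_le _ _)
      have hb := real_bound k r hr (x := n) (y := Y) (A := ((k + r).factorial : ℝ))
        (d₁ := (n.divisors.card : ℝ)) (d₂ := ((n - Y).divisors.card : ℝ))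
        (l := 1 + Real.log ((n : ℝ) + Y)) (by positivity) hY' hn' (by positivity) hd1
        (by positivity) hd2 (by linarith) (by linarith)
      have h3 : f n ≤ ((n.divisors.card : ℝ) * (n : ℝ) ^ ((k : ℝ) / 2)) *
          ((n - Y).divisors.card : ℝ) * (((k + r).factorial : ℝ) *
          ((2 * π) ^ (k + r + 1))⁻¹ * (((n : ℝ) + Y) ^ (k + r))⁻¹ *
          (10 * (1 + Real.log ((n : ℝ) + Y)))) := by
        rw [hfn, norm_mul, norm_mul]
        have hρn := hρ n (by omega)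
        have hτn := hτ n hn
        have hKp := h1 k r n Y (by omega) hY hn
        exact mul_le_mul (mul_le_mul hρn hτn (norm_nonneg _) (by positivity)) hKp
          (norm_nonneg _) (by positivity)
      have h4 : P * f n ≤ K * (1 / (n : ℝ) ^ 2) :=
        (mul_le_mul_of_nonneg_left h3 hP0.le).trans hb
      rw [div_mul_eq_mul_div, le_div_iff₀ hP0, mul_comm (f n)]
      exact h4
    · have : f n = 0 := by simp only [hf, if_neg hn]
      rw [this]
      positivity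
  have hz := hasSum_zeta_two
  have hsum : Summable fun n : ℕ => K / P * (1 / (n : ℝ) ^ 2) := hz.summable.mul_left _
  have hs : Summable f := Summable.of_nonneg_of_le hf0 hterm hsum
  refine ⟨hs, ?_⟩
  have ht : ∑' n, f n ≤ K / P * (π ^ 2 / 6) := by
    have h3 : ∑' n, f n ≤ ∑' n : ℕ, K / P * (1 / (n : ℝ) ^ 2) := hs.tsum_le_tsum hterm hsum
    rw [tsum_mul_left, hz.tsum_eq] at h3
    exact h3
  have hπ2 : π ^ 2 / 6 ≤ 2 := by
    have h3 := Real.pi_lt_d2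
    have h4 := Real.pi_pos
    nlinarith
  calc P * ∑' n, f n ≤ P * (K / P * (π ^ 2 / 6)) := mul_le_mul_of_nonneg_left ht hP0.le
    _ = K * (π ^ 2 / 6) := by
      field_simp
    _ ≤ K * 2 := mul_le_mul_of_nonneg_left hπ2 hK0
    _ = _ := by
      rw [hK]
      ring

end RZ

end Pool.Agent.Lib.MP_7c08ba_nt
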