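import Pool.Agent.Lib.MP_7c08ba_nt.RZ.StRm
import Pool.Agent.Lib.MP_a17b09_nt.Divisor

set_option autoImplicit false

/-! (Q11) the terms with small index -/

namespace Pool.Agent.Lib.MP_7c08ba_nt

namespace RZ

open Set

namespace ErSAux

/-- the factor of the Jacobi polynomial -/
theorem jac_le (hJ : StJacS) {k r n Y : ℕ} (hr : 1 ≤ r) (hn : 1 ≤ n) (hY : n < Y) :
    ((n : ℝ) / Y) ^ ((k : ℝ) / 2) * |Jac k r ((n : ℝ) / Y)| ≤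
      4 * ((Y : ℝ) ^ ((1 : ℝ) / 5) * (r : ℝ) ^ (-(1 : ℝ) / 5)) := by
  have hn' : (1 : ℝ) ≤ n := by exact_mod_cast hn
  have hY' : (n : ℝ) + 1 ≤ Y := by exact_mod_cast hY
  have hr' : (1 : ℝ) ≤ r := by exact_mod_cast hr
  have hY0 : (0 : ℝ) < Y := by linarith
  have h0 : 0 < (n : ℝ) / Y := by positivity
  have h1 : (n : ℝ) / Y < 1 := by
    rw [div_lt_one hY0]
    linarith
  refine (hJ k r _ hr h0 h1).trans ?_
  have hx : (r : ℝ) / (2 * Y) ≤ r * ((n : ℝ) / Y) * (1 - (n : ℝ) / Y) := by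
    have e1 : (r : ℝ) * ((n : ℝ) / Y) * (1 - (n : ℝ) / Y) = r * (n * (Y - n)) / (Y * Y) := by
      field_simp
    rw [e1, div_le_div_iff₀ (by positivity) (by positivity)]
    have h2 : (Y : ℝ) ≤ 2 * (n * (Y - n)) := by nlinarith
    have h3 : (r : ℝ) * Y * Y ≤ r * Y * (2 * (n * (Y - n))) :=
      mul_le_mul_of_nonneg_left h2 (by positivity)
    nlinarith
  have h2 : ((r : ℝ) * ((n : ℝ) / Y) * (1 - (n : ℝ) / Y)) ^ (-(1 : ℝ) / 5) ≤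
      ((r : ℝ) / (2 * Y)) ^ (-(1 : ℝ) / 5) :=
    Real.rpow_le_rpow_of_nonpos (by positivity) hx (by norm_num)
  have h3 : ((r : ℝ) / (2 * Y)) ^ (-(1 : ℝ) / 5) =
      (2 : ℝ) ^ ((1 : ℝ) / 5) * ((Y : ℝ) ^ ((1 : ℝ) / 5) * (r : ℝ) ^ (-(1 : ℝ) / 5)) := by
    rw [Real.div_rpow (by positivity) (by positivity), show (-(1 : ℝ) / 5) = -((1 : ℝ) / 5) by ring,
      Real.rpow_neg (x := 2 * (Y : ℝ)) (by positivity), div_inv_eq_mul,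
      Real.mul_rpow (by norm_num) (by positivity)]
    ring
  have h4 : (2 : ℝ) ^ ((1 : ℝ) / 5) ≤ 2 := by
    calc (2 : ℝ) ^ ((1 : ℝ) / 5) ≤ (2 : ℝ) ^ (1 : ℝ) :=
          Real.rpow_le_rpow_of_exponent_le (by norm_num) (by norm_num)
      _ = 2 := Real.rpow_one 2
  have h5 : 0 ≤ (Y : ℝ) ^ ((1 : ℝ) / 5) * (r : ℝ) ^ (-(1 : ℝ) / 5) := by positivity
  calc 2 * ((r : ℝ) * ((n : ℝ) / Y) * (1 - (n : ℝ) / Y)) ^ (-(1 : ℝ) / 5)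
      ≤ 2 * ((2 : ℝ) ^ ((1 : ℝ) / 5) * ((Y : ℝ) ^ ((1 : ℝ) / 5) * (r : ℝ) ^ (-(1 : ℝ) / 5))) := by
        rw [← h3]
        linarith
    _ ≤ 2 * (2 * ((Y : ℝ) ^ ((1 : ℝ) / 5) * (r : ℝ) ^ (-(1 : ℝ) / 5))) := by
        have := mul_le_mul_of_nonneg_right h4 h5
        linarith
    _ = _ := by ring

theorem log_le {Y : ℕ} (hY : 1 ≤ Y) : 1 + Real.log Y ≤ 15 * (Y : ℝ) ^ ((3 : ℝ) / 40) := by
  have hY' : (1 : ℝ) ≤ Y := by exact_mod_cast hY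
  have h1 := Real.log_le_rpow_div (x := (Y : ℝ)) (by positivity) (ε := 3 / 40) (by norm_num)
  have h2 : (1 : ℝ) ≤ (Y : ℝ) ^ ((3 : ℝ) / 40) := Real.one_le_rpow hY' (by norm_num)
  linarith

theorem pow_id {k r Y : ℕ} (hY : 1 ≤ Y) :
    (Y : ℝ) ^ ((k : ℝ) / 2 + r + 1 / 2) * (Y : ℝ) ^ ((k : ℝ) / 2) * ((Y : ℝ) ^ (k + r + 1))⁻¹ =
      (Y : ℝ) ^ (-(1 : ℝ) / 2) := by
  have hY' : (0 : ℝ) < Y := by exact_mod_cast hY
  rw [← Real.rpow_natCast, ← Real.rpow_neg hY'.le, ← Real.rpow_add hY', ← Real.rpow_add hY']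
  congr 1
  push_cast
  ring

theorem norm_kp (h1 : StKpV) {k r n Y : ℕ} (hY : 1 ≤ Y) (hn : n < Y) :
    ‖Kp k r n Y (-r)‖ = 2 * Real.pi * (((k + r).factorial : ℝ) * ((4 * Real.pi) ^ (k + r + 1))⁻¹) *
      ((Y : ℝ) ^ (k + r + 1))⁻¹ * |Jac k r ((n : ℝ) / Y)| := by
  rw [(h1 k r n Y hY).1 hn]
  have e1 : ((4 * Real.pi * Y : ℂ) ^ (k + r + 1))⁻¹ =
      (((((4 * Real.pi) ^ (k + r + 1))⁻¹ * ((Y : ℝ) ^ (k + r + 1))⁻¹ : ℝ)) : ℂ) := by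
    push_cast
    rw [mul_pow, mul_inv]
  rw [e1]
  simp only [norm_mul, norm_neg, Complex.norm_two, Complex.norm_real, Complex.norm_I,
    Complex.norm_natCast, Real.norm_eq_abs]
  have hp := Real.pi_pos
  have e2 : |((4 * Real.pi) ^ (k + r + 1))⁻¹| = ((4 * Real.pi) ^ (k + r + 1))⁻¹ :=
    abs_of_nonneg (by positivity)
  have e3 : |((Y : ℝ) ^ (k + r + 1))⁻¹| = ((Y : ℝ) ^ (k + r + 1))⁻¹ := abs_of_nonneg (by positivity)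
  rw [abs_of_pos Real.pi_pos, e2, e3]
  ring

end ErSAux

open ErSAux in
theorem stErS (h1 : StKpV) (h2 : StJacS) : StErS := by
  obtain ⟨C1, hC1, hd⟩ := MP_a17b09_nt.card_divisors_le (1 / 16) (by norm_num)
  have hpi := Real.pi_pos
  refine ⟨2 * Real.pi * C1 ^ 2 * 4 * 15, by positivity, ?_⟩
  intro k r Y ρ τ hY hr hρ hτ
  have hN : (0 : ℝ) < ((k + r).factorial : ℝ) * ((4 * Real.pi) ^ (k + r + 1))⁻¹ := by
    have := Nat.factorial_pos (k + r)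
    positivity
  set N : ℝ := ((k + r).factorial : ℝ) * ((4 * Real.pi) ^ (k + r + 1))⁻¹ with hNdef
  have hY' : (1 : ℝ) ≤ Y := by exact_mod_cast hY
  have hY0 : (0 : ℝ) < Y := by linarith
  have hr0 : (0 : ℝ) < r := by exact_mod_cast hr
  have hlog : 0 ≤ Real.log Y := Real.log_nonneg hY'
  have key : ∀ n ∈ Finset.Ico 1 Y, (Y : ℝ) ^ ((k : ℝ) / 2 + r + 1 / 2) *
      ‖ρ n * τ n * Kp k r n Y (-r)‖ ≤ 2 * Real.pi * C1 ^ 2 * 4 * N *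
        ((Y : ℝ) ^ (-(1 : ℝ) / 2) * ((Y : ℝ) ^ ((1 : ℝ) / 16) * (Y : ℝ) ^ ((1 : ℝ) / 16)) *
          (Y : ℝ) ^ ((1 : ℝ) / 5) * (1 + Real.log Y)) * (r : ℝ) ^ (-(1 : ℝ) / 5) := by
    intro n hn
    obtain ⟨hn1, hnY⟩ := Finset.mem_Ico.1 hn
    have hn1' : (1 : ℝ) ≤ n := by exact_mod_cast hn1
    have hnY' : (n : ℝ) ≤ Y := by exact_mod_cast hnY.le
    have hρn : ‖ρ n‖ ≤ (C1 * (Y : ℝ) ^ ((1 : ℝ) / 16)) *
        (((n : ℝ) / Y) ^ ((k : ℝ) / 2) * (Y : ℝ) ^ ((k : ℝ) / 2)) := by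
      refine (hρ n hn1).trans ?_
      rw [← Real.mul_rpow (by positivity) (by positivity), div_mul_cancel₀ _ hY0.ne']
      refine mul_le_mul_of_nonneg_right ((hd n hn1).trans ?_) (by positivity)
      refine mul_le_mul_of_nonneg_left ?_ (by linarith)
      exact Real.rpow_le_rpow (by positivity) hnY' (by norm_num)
    have hτn : ‖τ n‖ ≤ (C1 * (Y : ℝ) ^ ((1 : ℝ) / 16)) * (1 + Real.log Y) := by
      refine (hτ n hn1 hnY).trans ?_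
      refine mul_le_mul_of_nonneg_right ((hd (Y - n) (by omega)).trans ?_) (by linarith)
      refine mul_le_mul_of_nonneg_left ?_ (by linarith)
      refine Real.rpow_le_rpow (by positivity) ?_ (by norm_num)
      exact_mod_cast Nat.sub_le Y n
    have hj := jac_le h2 (k := k) hr hn1 hnY
    have h3 : ‖ρ n * τ n * Kp k r n Y (-r)‖ ≤ (C1 * (Y : ℝ) ^ ((1 : ℝ) / 16)) *
        (((n : ℝ) / Y) ^ ((k : ℝ) / 2) * (Y : ℝ) ^ ((k : ℝ) / 2)) *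
        ((C1 * (Y : ℝ) ^ ((1 : ℝ) / 16)) * (1 + Real.log Y)) *
        (2 * Real.pi * N * ((Y : ℝ) ^ (k + r + 1))⁻¹ * |Jac k r ((n : ℝ) / Y)|) := by
      rw [norm_mul, norm_mul, norm_kp h1 hY hnY]
      refine mul_le_mul_of_nonneg_right ?_ (by positivity)
      exact mul_le_mul hρn hτn (norm_nonneg _) (by positivity)
    calc (Y : ℝ) ^ ((k : ℝ) / 2 + r + 1 / 2) * ‖ρ n * τ n * Kp k r n Y (-r)‖
        ≤ (Y : ℝ) ^ ((k : ℝ) / 2 + r + 1 / 2) * ((C1 * (Y : ℝ) ^ ((1 : ℝ) / 16)) *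
        (((n : ℝ) / Y) ^ ((k : ℝ) / 2) * (Y : ℝ) ^ ((k : ℝ) / 2)) *
        ((C1 * (Y : ℝ) ^ ((1 : ℝ) / 16)) * (1 + Real.log Y)) *
        (2 * Real.pi * N * ((Y : ℝ) ^ (k + r + 1))⁻¹ * |Jac k r ((n : ℝ) / Y)|)) :=
          mul_le_mul_of_nonneg_left h3 (by positivity)
      _ = (2 * Real.pi * C1 ^ 2 * N * (((Y : ℝ) ^ ((k : ℝ) / 2 + r + 1 / 2) *
            (Y : ℝ) ^ ((k : ℝ) / 2) * ((Y : ℝ) ^ (k + r + 1))⁻¹) *
            ((Y : ℝ) ^ ((1 : ℝ) / 16) * (Y : ℝ) ^ ((1 : ℝ) / 16)) * (1 + Real.log Y))) *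
          (((n : ℝ) / Y) ^ ((k : ℝ) / 2) * |Jac k r ((n : ℝ) / Y)|) := by ring
      _ ≤ (2 * Real.pi * C1 ^ 2 * N * (((Y : ℝ) ^ ((k : ℝ) / 2 + r + 1 / 2) *
            (Y : ℝ) ^ ((k : ℝ) / 2) * ((Y : ℝ) ^ (k + r + 1))⁻¹) *
            ((Y : ℝ) ^ ((1 : ℝ) / 16) * (Y : ℝ) ^ ((1 : ℝ) / 16)) * (1 + Real.log Y))) *
          (4 * ((Y : ℝ) ^ ((1 : ℝ) / 5) * (r : ℝ) ^ (-(1 : ℝ) / 5))) :=
          mul_le_mul_of_nonneg_left hj (by positivity)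
      _ = _ := by
        rw [pow_id hY]
        ring
  rw [Finset.mul_sum]
  refine (Finset.sum_le_card_nsmul _ _ _ key).trans ?_
  rw [nsmul_eq_mul, Nat.card_Ico]
  set B : ℝ := (Y : ℝ) ^ (-(1 : ℝ) / 2) * ((Y : ℝ) ^ ((1 : ℝ) / 16) * (Y : ℝ) ^ ((1 : ℝ) / 16)) *
          (Y : ℝ) ^ ((1 : ℝ) / 5) with hB
  have hB0 : 0 ≤ B := by positivity
  have h4 : (((Y - 1 : ℕ) : ℝ)) ≤ Y := by exact_mod_cast Nat.sub_le Y 1
  have h5 : (Y : ℝ) * (B * (15 * (Y : ℝ) ^ ((3 : ℝ) / 40))) = 15 * (Y : ℝ) ^ ((9 : ℝ) / 10) := by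
    have h6 : (Y : ℝ) * (B * (Y : ℝ) ^ ((3 : ℝ) / 40)) = (Y : ℝ) ^ ((9 : ℝ) / 10) := by
      rw [hB, ← Real.rpow_add hY0, ← Real.rpow_add hY0, ← Real.rpow_add hY0, ← Real.rpow_add hY0]
      nth_rewrite 1 [← Real.rpow_one (Y : ℝ)]
      rw [← Real.rpow_add hY0]
      norm_num
    rw [← h6]
    ring
  have h7 : B * (1 + Real.log Y) ≤ B * (15 * (Y : ℝ) ^ ((3 : ℝ) / 40)) :=
    mul_le_mul_of_nonneg_left (log_le hY) hB0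
  have hrr : 0 < (r : ℝ) ^ (-(1 : ℝ) / 5) := by positivity
  have h8 : 0 ≤ 2 * Real.pi * C1 ^ 2 * 4 * N * (B * (1 + Real.log Y)) *
      (r : ℝ) ^ (-(1 : ℝ) / 5) := by
    have : 0 ≤ 1 + Real.log Y := by linarith
    positivity
  calc (((Y - 1 : ℕ) : ℝ)) * (2 * Real.pi * C1 ^ 2 * 4 * N * (B * (1 + Real.log Y)) *
        (r : ℝ) ^ (-(1 : ℝ) / 5))
      ≤ Y * (2 * Real.pi * C1 ^ 2 * 4 * N * (B * (1 + Real.log Y)) * (r : ℝ) ^ (-(1 : ℝ) / 5)) :=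
        mul_le_mul_of_nonneg_right h4 h8
    _ ≤ Y * (2 * Real.pi * C1 ^ 2 * 4 * N * (B * (15 * (Y : ℝ) ^ ((3 : ℝ) / 40))) *
        (r : ℝ) ^ (-(1 : ℝ) / 5)) := by gcongr
    _ = 2 * Real.pi * C1 ^ 2 * 4 * N * (Y * (B * (15 * (Y : ℝ) ^ ((3 : ℝ) / 40)))) *
        (r : ℝ) ^ (-(1 : ℝ) / 5) := by ring
    _ = _ := by
      rw [h5]
      ring

end RZ

end Pool.Agent.Lib.MP_7c08ba_nt
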