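import Mathlib
import Pool.Agent.Lib.MP_7c08ba_nt.RZ.StXq

set_option autoImplicit false

/-! (XQ1) the derivative of the sum of index `m` at `-r`, uniformly in `m`. -/

namespace Pool.Agent.Lib.MP_7c08ba_nt

namespace RZ

open NumberField MeasureTheory UpperHalfPlane Set IsDedekindDomain
open scoped MatrixGroups ComplexConjugate nonZeroDivisors

namespace ErrXm

/-! ### sums over divisors -/

/-- Sums over divisors. -/
noncomputable def dsum (c : ℕ → ℂ) (M : ℕ) (e : ℂ) : ℂ :=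
  ∑ d ∈ M.divisors, c d * (d : ℂ) ^ (-(2 * e))

/-- Their derivatives at `0`. -/
noncomputable def dder (c : ℕ → ℂ) (M : ℕ) : ℂ :=
  ∑ d ∈ M.divisors, c d * (-2 * (Real.log d : ℂ))

theorem dsum_zero (c : ℕ → ℂ) (M : ℕ) : dsum c M 0 = ∑ d ∈ M.divisors, c d := by
  unfold dsum
  refine Finset.sum_congr rfl fun d _ => ?_
  simp

theorem hasDerivAt_dsum (c : ℕ → ℂ) (M : ℕ) : HasDerivAt (dsum c M) (dder c M) 0 := by
  unfold dder
  have h : ∀ d ∈ M.divisors, HasDerivAt (fun e : ℂ => c d * (d : ℂ) ^ (-(2 * e)))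
      (c d * (-2 * (Real.log d : ℂ))) 0 := by
    intro d hd
    have hd0 : (d : ℂ) ≠ 0 := by exact_mod_cast (Nat.pos_of_mem_divisors hd).ne'
    have h1 : HasDerivAt (fun e : ℂ => -(2 * e)) (-2) 0 := by
      have h := ((hasDerivAt_id (0 : ℂ)).const_mul 2).fun_neg
      rwa [mul_one] at h
    have h2 := (h1.const_cpow (c := (d : ℂ)) (Or.inl hd0)).const_mul (c d)
    refine h2.congr_deriv ?_
    rw [Complex.natCast_log, mul_zero, neg_zero, Complex.cpow_zero]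
    ring
  exact HasDerivAt.fun_sum h

theorem norm_dder {c : ℕ → ℂ} {B : ℝ} (hB : 0 ≤ B) (hc : ∀ d, ‖c d‖ ≤ B) (M : ℕ) :
    ‖dder c M‖ ≤ B * (2 * (M.divisors.card : ℝ) * Real.log M) := by
  unfold dder
  refine (norm_sum_le _ _).trans ?_
  have h : ∀ d ∈ M.divisors, ‖c d * (-2 * (Real.log d : ℂ))‖ ≤ B * (2 * Real.log M) := by
    intro d hd
    have hd1 : (1 : ℝ) ≤ d := by exact_mod_cast Nat.pos_of_mem_divisors hd
    have hdM : (d : ℝ) ≤ M := by exact_mod_cast Nat.divisor_le hd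
    have hl : 0 ≤ Real.log d := Real.log_nonneg hd1
    rw [norm_mul, norm_mul, norm_neg, Complex.norm_two, Complex.norm_real, Real.norm_eq_abs,
      abs_of_nonneg hl]
    calc ‖c d‖ * (2 * Real.log d) ≤ B * (2 * Real.log d) :=
          mul_le_mul_of_nonneg_right (hc d) (by positivity)
      _ ≤ B * (2 * Real.log M) := by
          refine mul_le_mul_of_nonneg_left ?_ hB
          have := Real.log_le_log (by linarith) hdM
          linarith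
  refine (Finset.sum_le_card_nsmul _ _ _ h).trans (le_of_eq ?_)
  rw [nsmul_eq_mul]
  ring

theorem norm_dsum_zero {c : ℕ → ℂ} {B : ℝ} (hc : ∀ d, ‖c d‖ ≤ B) (M : ℕ) :
    ‖dsum c M 0‖ ≤ B * (M.divisors.card : ℝ) := by
  rw [dsum_zero]
  refine (norm_sum_le _ _).trans ((Finset.sum_le_card_nsmul _ _ _ fun d _ => hc d).trans ?_)
  rw [nsmul_eq_mul, mul_comm]

/-! ### the coefficients -/

section

variable {D : ℕ} {χ : DirichletCharacter ℂ D}

theorem norm_om (g c : ℕ) (d : ℤ) : ‖om D χ g c d‖ ≤ 1 := by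
  unfold om
  split_ifs
  · exact DirichletCharacter.norm_le_one χ _
  · simp

/-- The inner sums. -/
noncomputable def inn (D : ℕ) (χ : DirichletCharacter ℂ D) (m g n c : ℕ) : ℂ :=
  ∑ d ∈ Finset.range D, om D χ g c d *
      ee (-(((((n : ℤ) - ((m * D : ℕ) : ℤ)) / c : ℤ) : ℂ) * d / D))

theorem norm_inn (m g n c : ℕ) : ‖inn D χ m g n c‖ ≤ D := by
  unfold inn
  have h : ∀ d ∈ Finset.range D, ‖om D χ g c d *
      ee (-(((((n : ℤ) - ((m * D : ℕ) : ℤ)) / c : ℤ) : ℂ) * d / D))‖ ≤ 1 := by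
    intro d _
    rw [norm_mul]
    have h1 : ‖ee (-(((((n : ℤ) - ((m * D : ℕ) : ℤ)) / c : ℤ) : ℂ) * d / D))‖ = 1 := by
      unfold ee
      rw [Complex.norm_exp]
      simp
    rw [h1, mul_one]
    exact norm_om g c d
  refine (norm_sum_le_of_le _ h).trans ?_
  simp

theorem sG_eq (m g n : ℕ) (e : ℂ) :
    sG D χ m g n e = dsum (inn D χ m g n) ((n : ℤ) - ((m * D : ℕ) : ℤ)).natAbs e := by
  unfold sG dsum inn
  exact Finset.sum_congr rfl fun c _ => mul_comm _ _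

/-- The derivative of `sG`. -/
noncomputable def sGd (D : ℕ) (χ : DirichletCharacter ℂ D) (m g n : ℕ) : ℂ :=
  dder (inn D χ m g n) ((n : ℤ) - ((m * D : ℕ) : ℤ)).natAbs

theorem hasDerivAt_sG (m g n : ℕ) : HasDerivAt (sG D χ m g n) (sGd D χ m g n) 0 := by
  have e : sG D χ m g n = dsum (inn D χ m g n) ((n : ℤ) - ((m * D : ℕ) : ℤ)).natAbs := by
    funext e
    exact sG_eq m g n e
  rw [e]
  exact hasDerivAt_dsum _ _

/-- The derivative of `OmX`. -/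
noncomputable def Omd (D : ℕ) (χ : DirichletCharacter ℂ D) (m : ℕ) (θ : ℕ → ℕ → ℂ) (n : ℕ) : ℂ :=
  ∑ g ∈ D.divisors, ((wid D g : ℂ) / D) * θ g n * sGd D χ m g n

theorem hasDerivAt_Om (m : ℕ) (θ : ℕ → ℕ → ℂ) (n : ℕ) :
    HasDerivAt (OmX D χ m θ n) (Omd D χ m θ n) 0 := by
  have h : HasDerivAt (fun e => ∑ g ∈ D.divisors, ((wid D g : ℂ) / D) * θ g n * sG D χ m g n e)
      (Omd D χ m θ n) 0 :=
    HasDerivAt.fun_sum fun g _ => (hasDerivAt_sG m g n).const_mul _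
  exact h

theorem norm_wid (hD : 1 ≤ D) (g : ℕ) : ‖(wid D g : ℂ) / D‖ ≤ 1 := by
  have hD0 : (0 : ℝ) < D := by exact_mod_cast hD
  rw [norm_div, Complex.norm_natCast, Complex.norm_natCast, div_le_one hD0]
  exact_mod_cast Nat.div_le_self _ _

theorem norm_Omd (hD : 1 ≤ D) (m : ℕ) (θ : ℕ → ℕ → ℂ) (n : ℕ) :
    ‖Omd D χ m θ n‖ ≤ ∑ g ∈ D.divisors, ‖θ g n * sGd D χ m g n‖ := by
  unfold Omd
  refine norm_sum_le_of_le _ fun g _ => ?_
  rw [mul_assoc, norm_mul]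
  exact mul_le_of_le_one_left (norm_nonneg _) (norm_wid hD g)

theorem norm_Om0 (hD : 1 ≤ D) (m : ℕ) (θ : ℕ → ℕ → ℂ) (n : ℕ) :
    ‖OmX D χ m θ n 0‖ ≤ ∑ g ∈ D.divisors, ‖θ g n * sG D χ m g n 0‖ := by
  unfold OmX
  refine norm_sum_le_of_le _ fun g _ => ?_
  rw [mul_assoc, norm_mul]
  exact mul_le_of_le_one_left (norm_nonneg _) (norm_wid hD g)

end

/-! ### derivatives at `-r` -/

theorem hasDerivAt_shift {f : ℂ → ℂ} {f' : ℂ} (r : ℕ) (h : HasDerivAt f f' 0) :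
    HasDerivAt (fun t : ℂ => f (t + r)) f' (-(r : ℂ)) := by
  have h1 : HasDerivAt f f' (-(r : ℂ) + r) := by rwa [neg_add_cancel]
  exact h1.comp_add_const (-(r : ℂ)) (r : ℂ)

theorem Kp_diff (hA : StKpA) {k r M n : ℕ} (hM : 1 ≤ M) (hn : n ≠ M) (hr : 2 ≤ r) :
    HasDerivAt (Kp k r n M) (deriv (Kp k r n M) (-(r : ℂ))) (-(r : ℂ)) := by
  have h : (2 : ℝ) ≤ r := by exact_mod_cast hr
  refine (((hA k r M hM).1 n hn).differentiableAt ?_).hasDerivAt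
  refine ((isOpen_lt continuous_const Complex.continuous_re).inter
    (isOpen_lt Complex.continuous_re continuous_const)).mem_nhds ?_
  constructor
  · show -(r : ℝ) - 1 / 2 < (-(r : ℂ)).re
    rw [Complex.neg_re, Complex.natCast_re]
    linarith
  · show (-(r : ℂ)).re < 1
    rw [Complex.neg_re, Complex.natCast_re]
    linarith

/-- One term. -/
theorem uX_term (hA : StKpA) {D : ℕ} (χ : DirichletCharacter ℂ D) {k r m : ℕ} (hM : 1 ≤ m * D)
    (hr : 2 ≤ r) (θ : ℕ → ℕ → ℂ) {n : ℕ} (hn : n ≠ m * D) :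
    HasDerivAt (fun t => uX D χ k r m θ t n)
      (Omd D χ m θ n * Kp k r n (m * D) (-(r : ℂ)) +
        OmX D χ m θ n 0 * deriv (Kp k r n (m * D)) (-(r : ℂ))) (-(r : ℂ)) := by
  have h1 := (hasDerivAt_shift r (hasDerivAt_Om (χ := χ) m θ n)).fun_mul
    (Kp_diff hA hM hn hr (k := k))
  have e : (fun t => uX D χ k r m θ t n) =
      fun t => OmX D χ m θ n (t + r) * Kp k r n (m * D) t := by
    funext t
    unfold uX
    rw [if_neg hn]
  rw [e]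
  refine h1.congr_deriv ?_
  rw [neg_add_cancel]

section

variable {D : ℕ} [NeZero D] {F : Type} [Field F] [NumberField F] {s : 𝓞 F} {σ : F →+* ℂ}
  {χ : DirichletCharacter ℂ D} {cj : 𝓞 F ≃+* 𝓞 F}

/-- The derivative of the sum. -/
theorem norm_deriv_SX (hSu : StSuX) (hVan : StVanX) (hV : StKpV) (hA : StKpA)
    (hd : DatX D s σ χ cj) {k r m : ℕ} {ψ : Ideal (𝓞 F) →*₀ ℂ} {c : Reps σ} {θ : ℕ → ℕ → ℂ}
    (hψ : IsHecke σ k ψ) (hθ : ThFam D k ψ c θ)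
    (hco : ∀ A, IsCoprime (c.R A : Ideal (𝓞 F)) (Ideal.span {s})) (hr : 2 ≤ r) (hm : 1 ≤ m)
    (hsum : Summable fun n => if m * D < n then
      ‖OmX D χ m θ n 0 * deriv (Kp k r n (m * D)) (-(r : ℂ))‖ else 0) :
    ‖deriv (SX D χ k r m θ) (-(r : ℂ))‖ ≤ (D : ℝ) ^ (k + 1 + r) *
      (∑ n ∈ Finset.range (m * D), ‖Omd D χ m θ n * Kp k r n (m * D) (-(r : ℂ))‖ +
        ∑' n, if m * D < n then
          ‖OmX D χ m θ n 0 * deriv (Kp k r n (m * D)) (-(r : ℂ))‖ else 0) := by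
  have hD0 : D ≠ 0 := NeZero.ne D
  have hM : 1 ≤ m * D := Nat.one_le_iff_ne_zero.2 (Nat.mul_ne_zero (by omega) hD0)
  have hDc : (D : ℂ) ≠ 0 := by exact_mod_cast hD0
  obtain ⟨-, hU, -, hsumm⟩ := hSu D inferInstance F _ _ s σ χ cj k r m ψ c θ hd hψ hθ hm
  have hr2 : (2 : ℝ) ≤ r := by exact_mod_cast hr
  have ht1 : -(r : ℝ) - 1 / 4 < (-(r : ℂ)).re := by
    rw [Complex.neg_re, Complex.natCast_re]
    linarith
  have ht2 : (-(r : ℂ)).re < -1 := by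
    rw [Complex.neg_re, Complex.natCast_re]
    linarith
  obtain ⟨-, hs2⟩ := hsumm _ ht1 ht2
  have hopen : IsOpen {t : ℂ | -(r : ℝ) - 1 / 4 < t.re ∧ t.re < -1} :=
    (isOpen_lt continuous_const Complex.continuous_re).inter
      (isOpen_lt Complex.continuous_re continuous_const)
  have hUd := (hU.differentiableAt (hopen.mem_nhds ⟨ht1, ht2⟩)).hasDerivAt
  -- the value is zero
  have hvan : ∀ n < m * D, OmX D χ m θ n 0 = 0 :=
    hVan D inferInstance F _ _ s σ χ cj k ψ c θ hd hψ hθ hco m hm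
  have hU0 : ∑' n, uX D χ k r m θ (-(r : ℂ)) n = 0 := by
    rw [tsum_congr (g := fun _ => (0 : ℂ)), tsum_zero]
    intro n
    unfold uX
    rcases lt_trichotomy n (m * D) with h | h | h
    · rw [if_neg h.ne, neg_add_cancel, hvan n h, zero_mul]
    · rw [if_pos h]
    · rw [if_neg h.ne', (hV k r n (m * D) hM).2 h, mul_zero]
  -- the power
  have hP : HasDerivAt (fun t : ℂ => (D : ℂ) ^ ((k : ℂ) + 1 - t))
      (deriv (fun t : ℂ => (D : ℂ) ^ ((k : ℂ) + 1 - t)) (-(r : ℂ))) (-(r : ℂ)) := by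
    have h : Differentiable ℂ fun t : ℂ => (D : ℂ) ^ ((k : ℂ) + 1 - t) :=
      Differentiable.const_cpow (by fun_prop) (Or.inl hDc)
    exact (h _).hasDerivAt
  have hSX := hP.fun_mul hUd
  have e1 : deriv (SX D χ k r m θ) (-(r : ℂ)) = (D : ℂ) ^ (k + 1 + r) *
      deriv (fun t => ∑' n, uX D χ k r m θ t n) (-(r : ℂ)) := by
    have e2 : SX D χ k r m θ = fun t => (D : ℂ) ^ ((k : ℂ) + 1 - t) *
      ∑' n, uX D χ k r m θ t n := rfl
    rw [e2, hSX.deriv, hU0, mul_zero, zero_add]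
    congr 1
    have e3 : (k : ℂ) + 1 - -(r : ℂ) = ((k + 1 + r : ℕ) : ℂ) := by
      push_cast
      ring
    rw [e3, Complex.cpow_natCast]
  rw [e1, norm_mul, norm_pow, Complex.norm_natCast]
  refine mul_le_mul_of_nonneg_left ?_ (by positivity)
  rw [← hs2.tsum_eq]
  -- the terms
  have hE : ∀ n, ‖deriv (fun t => uX D χ k r m θ t n) (-(r : ℂ))‖ =
      (if n ∈ Finset.range (m * D) then ‖Omd D χ m θ n * Kp k r n (m * D) (-(r : ℂ))‖ else 0) +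
      (if m * D < n then ‖OmX D χ m θ n 0 * deriv (Kp k r n (m * D)) (-(r : ℂ))‖ else 0) := by
    intro n
    rcases lt_trichotomy n (m * D) with h | h | h
    · rw [if_pos (Finset.mem_range.2 h), if_neg (by omega), add_zero,
        (uX_term hA χ hM hr θ h.ne).deriv, hvan n h, zero_mul, add_zero]
    · rw [if_neg (by rw [Finset.mem_range]; omega), if_neg (by omega), add_zero]
      have : (fun t => uX D χ k r m θ t n) = fun _ => 0 := by
        funext t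
        unfold uX
        rw [if_pos h]
      rw [this, deriv_const, norm_zero]
    · rw [if_neg (by rw [Finset.mem_range]; omega), if_pos h, zero_add,
        (uX_term hA χ hM hr θ h.ne').deriv, (hV k r n (m * D) hM).2 h, mul_zero, zero_add]
  have s1 : Summable fun n => (if n ∈ Finset.range (m * D) then
      ‖Omd D χ m θ n * Kp k r n (m * D) (-(r : ℂ))‖ else 0) :=
    summable_of_ne_finset_zero (s := Finset.range (m * D)) fun n hn => if_neg hn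
  have s2 : Summable fun n => ‖deriv (fun t => uX D χ k r m θ t n) (-(r : ℂ))‖ :=
    (s1.add hsum).congr fun n => (hE n).symm
  refine (norm_tsum_le_tsum_norm s2).trans (le_of_eq ?_)
  rw [tsum_congr hE, s1.tsum_add hsum]
  congr 1
  rw [tsum_eq_sum (s := Finset.range (m * D)) fun n hn => if_neg hn]
  exact Finset.sum_congr rfl fun n hn => if_pos hn

end

/-! ### estimates -/

theorem natAbs_lt {n Y : ℕ} (h : n ≤ Y) : ((n : ℤ) - ((Y : ℕ) : ℤ)).natAbs = Y - n := by omega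

theorem natAbs_gt {n Y : ℕ} (h : Y ≤ n) : ((n : ℤ) - ((Y : ℕ) : ℤ)).natAbs = n - Y := by omega

theorem pow_split {m D : ℕ} (hm : 1 ≤ m) (hD : 1 ≤ D) (k r : ℕ) :
    (m : ℝ) ^ ((k : ℝ) / 2 + r + 1 / 2) * (D : ℝ) ^ (k + 1 + r) =
      ((m * D : ℕ) : ℝ) ^ ((k : ℝ) / 2 + r + 1 / 2) *
        ((D : ℝ) ^ ((k : ℝ) / 2) * (D : ℝ) ^ ((1 : ℝ) / 2)) := by
  have hm0 : (0 : ℝ) < m := by exact_mod_cast hm
  have hD0 : (0 : ℝ) < D := by exact_mod_cast hD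
  rw [Nat.cast_mul, Real.mul_rpow hm0.le hD0.le, mul_assoc, ← Real.rpow_add hD0,
    ← Real.rpow_add hD0, ← Real.rpow_natCast]
  congr 2
  push_cast
  ring

section

variable {D : ℕ} {F : Type} [Field F] [NumberField F] {σ : F →+* ℂ}
  {χ : DirichletCharacter ℂ D} {k : ℕ} {ψ : Ideal (𝓞 F) →*₀ ℂ} {c : Reps σ} {θ : ℕ → ℕ → ℂ}

theorem norm_rho (hD : 1 ≤ D) (hθ : ThFam D k ψ c θ) {g : ℕ} (hg : g ∈ D.divisors) {n : ℕ}
    (hn : 1 ≤ n) : ‖(((D : ℝ) ^ ((k : ℝ) / 2) : ℝ) : ℂ) * θ g n‖ ≤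
      (n.divisors.card : ℝ) * (n : ℝ) ^ ((k : ℝ) / 2) := by
  have hD0 : (0 : ℝ) < D := by exact_mod_cast hD
  have hn0 : (0 : ℝ) ≤ n := Nat.cast_nonneg n
  rw [norm_mul, Complex.norm_real, Real.norm_of_nonneg (Real.rpow_nonneg hD0.le _)]
  refine (mul_le_mul_of_nonneg_left (hθ.bd g hg n hn) (Real.rpow_nonneg hD0.le _)).trans
    (le_of_eq ?_)
  rw [Real.div_rpow hn0 hD0.le]
  have h : (D : ℝ) ^ ((k : ℝ) / 2) ≠ 0 := (Real.rpow_pos_of_pos hD0 _).ne'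
  field_simp

theorem norm_sGd (m g n : ℕ) (h : n ≤ m * D) :
    ‖sGd D χ m g n‖ ≤ D * (2 * ((m * D - n).divisors.card : ℝ) *
      Real.log ((m * D - n : ℕ) : ℝ)) := by
  unfold sGd
  rw [natAbs_lt h]
  exact norm_dder (Nat.cast_nonneg D) (fun d => norm_inn m g n d) _

theorem norm_sG0 (m g n : ℕ) (h : m * D ≤ n) :
    ‖sG D χ m g n 0‖ ≤ D * ((n - m * D).divisors.card : ℝ) := by
  rw [sG_eq, natAbs_gt h]
  exact norm_dsum_zero (fun d => norm_inn m g n d) _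

/-- The terms with small index, one cusp. -/
theorem small {C : ℝ} (hD : 1 ≤ D) (hθ : ThFam D k ψ c θ) {g : ℕ} (hg : g ∈ D.divisors)
    {r m : ℕ} (hr : 1 ≤ r) (hm : 1 ≤ m)
    (hC : ∀ (k r Y : ℕ) (ρ τ : ℕ → ℂ), 1 ≤ Y → 1 ≤ r →
      (∀ n : ℕ, 1 ≤ n → ‖ρ n‖ ≤ (n.divisors.card : ℝ) * (n : ℝ) ^ ((k : ℝ) / 2)) →
      (∀ n : ℕ, 1 ≤ n → n < Y → ‖τ n‖ ≤ ((Y - n).divisors.card : ℝ) * (1 + Real.log Y)) →
      (Y : ℝ) ^ ((k : ℝ) / 2 + r + 1 / 2) *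
        ∑ n ∈ Finset.Ico 1 Y, ‖ρ n * τ n * Kp k r n Y (-r)‖ ≤
        C * (((k + r).factorial : ℝ) * ((4 * Real.pi) ^ (k + r + 1))⁻¹) *
          ((Y : ℝ) ^ ((9 : ℝ) / 10) * (r : ℝ) ^ (-(1 : ℝ) / 5))) :
    ((m * D : ℕ) : ℝ) ^ ((k : ℝ) / 2 + r + 1 / 2) * ((D : ℝ) ^ ((k : ℝ) / 2) *
      ∑ n ∈ Finset.Ico 1 (m * D), ‖θ g n * sGd D χ m g n * Kp k r n (m * D) (-(r : ℂ))‖) ≤
      2 * D * (C * (((k + r).factorial : ℝ) * ((4 * Real.pi) ^ (k + r + 1))⁻¹) *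
          (((m * D : ℕ) : ℝ) ^ ((9 : ℝ) / 10) * (r : ℝ) ^ (-(1 : ℝ) / 5))) := by
  have hD0 : (0 : ℝ) < D := by exact_mod_cast hD
  have hY : 1 ≤ m * D := Nat.mul_pos hm hD
  have h1 := hC k r (m * D) (fun n => (((D : ℝ) ^ ((k : ℝ) / 2) : ℝ) : ℂ) * θ g n)
    (fun n => (((2 * D : ℝ)⁻¹ : ℝ) : ℂ) * sGd D χ m g n) hY hr
    (fun n hn => norm_rho hD hθ hg hn) (by
      intro n hn hnY
      have hpos : (0 : ℝ) < ((m * D - n : ℕ) : ℝ) := by
        have : 0 < m * D - n := by omega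
        exact_mod_cast this
      have hle : ((m * D - n : ℕ) : ℝ) ≤ ((m * D : ℕ) : ℝ) := by
        exact_mod_cast Nat.sub_le _ _
      have hlog : Real.log ((m * D - n : ℕ) : ℝ) ≤ 1 + Real.log ((m * D : ℕ) : ℝ) := by
        have := Real.log_le_log hpos hle
        linarith
      have hinv : 0 ≤ (2 * (D : ℝ))⁻¹ := by positivity
      rw [norm_mul, Complex.norm_real, Real.norm_of_nonneg hinv]
      refine (mul_le_mul_of_nonneg_left (norm_sGd m g n hnY.le) hinv).trans ?_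
      have e1 : (2 * (D : ℝ))⁻¹ * (D * (2 * ((m * D - n).divisors.card : ℝ) *
          Real.log ((m * D - n : ℕ) : ℝ))) =
          ((m * D - n).divisors.card : ℝ) * Real.log ((m * D - n : ℕ) : ℝ) := by
        field_simp
      rw [e1]
      exact mul_le_mul_of_nonneg_left hlog (Nat.cast_nonneg _))
  have e2 : ∑ n ∈ Finset.Ico 1 (m * D), ‖(((D : ℝ) ^ ((k : ℝ) / 2) : ℝ) : ℂ) * θ g n *
      ((((2 * D : ℝ)⁻¹ : ℝ) : ℂ) * sGd D χ m g n) * Kp k r n (m * D) (-(r : ℂ))‖ =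
      (D : ℝ) ^ ((k : ℝ) / 2) * (2 * D : ℝ)⁻¹ *
        ∑ n ∈ Finset.Ico 1 (m * D), ‖θ g n * sGd D χ m g n * Kp k r n (m * D) (-(r : ℂ))‖ := by
    rw [Finset.mul_sum]
    refine Finset.sum_congr rfl fun n _ => ?_
    have hinv : 0 ≤ (2 * (D : ℝ))⁻¹ := by positivity
    rw [norm_mul, norm_mul, norm_mul, norm_mul, norm_mul, norm_mul, Complex.norm_real,
      Complex.norm_real, Real.norm_of_nonneg (Real.rpow_nonneg hD0.le _),
      Real.norm_of_nonneg hinv]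
    ring
  beta_reduce at h1
  rw [e2] at h1
  have h2 := mul_le_mul_of_nonneg_left h1 (show (0 : ℝ) ≤ 2 * D by positivity)
  refine (le_of_eq ?_).trans h2
  field_simp

/-- The terms with large index, one cusp. -/
theorem large {C : ℝ} (hD : 1 ≤ D) (hθ : ThFam D k ψ c θ) {g : ℕ} (hg : g ∈ D.divisors)
    {r m : ℕ} (hr : 20 ≤ r) (hm : 1 ≤ m)
    (hC : ∀ (k r Y : ℕ) (ρ τ : ℕ → ℂ), 1 ≤ Y → 20 ≤ r →
      (∀ n : ℕ, 1 ≤ n → ‖ρ n‖ ≤ (n.divisors.card : ℝ) * (n : ℝ) ^ ((k : ℝ) / 2)) →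
      (∀ n : ℕ, Y < n → ‖τ n‖ ≤ ((n - Y).divisors.card : ℝ)) →
      (Summable fun n : ℕ => if Y < n then ‖ρ n * τ n * deriv (Kp k r n Y) (-r)‖ else 0) ∧
      (Y : ℝ) ^ ((k : ℝ) / 2 + r + 1 / 2) *
        ∑' n : ℕ, (if Y < n then ‖ρ n * τ n * deriv (Kp k r n Y) (-r)‖ else 0) ≤
        C * (((k + r).factorial : ℝ) * ((4 * Real.pi) ^ (k + r + 1))⁻¹) *
          ((Y : ℝ) ^ 10 * ((r : ℝ) ^ 4)⁻¹)) :
    (Summable fun n : ℕ => if m * D < n then
      ‖θ g n * sG D χ m g n 0 * deriv (Kp k r n (m * D)) (-(r : ℂ))‖ else 0) ∧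
    ((m * D : ℕ) : ℝ) ^ ((k : ℝ) / 2 + r + 1 / 2) * ((D : ℝ) ^ ((k : ℝ) / 2) *
      ∑' n : ℕ, if m * D < n then
        ‖θ g n * sG D χ m g n 0 * deriv (Kp k r n (m * D)) (-(r : ℂ))‖ else 0) ≤
      D * (C * (((k + r).factorial : ℝ) * ((4 * Real.pi) ^ (k + r + 1))⁻¹) *
          (((m * D : ℕ) : ℝ) ^ 10 * ((r : ℝ) ^ 4)⁻¹)) := by
  have hD0 : (0 : ℝ) < D := by exact_mod_cast hD
  have hY : 1 ≤ m * D := Nat.mul_pos hm hD
  have hinv : 0 ≤ ((D : ℝ))⁻¹ := by positivity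
  obtain ⟨h0, h1⟩ := hC k r (m * D) (fun n => (((D : ℝ) ^ ((k : ℝ) / 2) : ℝ) : ℂ) * θ g n)
    (fun n => (((D : ℝ)⁻¹ : ℝ) : ℂ) * sG D χ m g n 0) hY hr
    (fun n hn => norm_rho hD hθ hg hn) (by
      intro n hn
      rw [norm_mul, Complex.norm_real, Real.norm_of_nonneg hinv]
      refine (mul_le_mul_of_nonneg_left (norm_sG0 m g n hn.le) hinv).trans (le_of_eq ?_)
      field_simp)
  have hpos : 0 < (D : ℝ) ^ ((k : ℝ) / 2) * (D : ℝ)⁻¹ := by positivity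
  have e2 : ∀ n : ℕ, (if m * D < n then ‖(((D : ℝ) ^ ((k : ℝ) / 2) : ℝ) : ℂ) * θ g n *
      ((((D : ℝ)⁻¹ : ℝ) : ℂ) * sG D χ m g n 0) * deriv (Kp k r n (m * D)) (-(r : ℂ))‖ else 0) =
      ((D : ℝ) ^ ((k : ℝ) / 2) * (D : ℝ)⁻¹) * (if m * D < n then
        ‖θ g n * sG D χ m g n 0 * deriv (Kp k r n (m * D)) (-(r : ℂ))‖ else 0) := by
    intro n
    split_ifs
    · rw [norm_mul, norm_mul, norm_mul, norm_mul, norm_mul, norm_mul, Complex.norm_real,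
        Complex.norm_real, Real.norm_of_nonneg (Real.rpow_nonneg hD0.le _),
        Real.norm_of_nonneg hinv]
      ring
    · rw [mul_zero]
  simp only [e2] at h0 h1
  refine ⟨(summable_mul_left_iff hpos.ne').1 h0, ?_⟩
  rw [tsum_mul_left] at h1
  have h2 := mul_le_mul_of_nonneg_left h1 hD0.le
  refine (le_of_eq ?_).trans h2
  field_simp

open scoped Pointwise in
theorem card_mul (m D : ℕ) : ((m * D).divisors.card : ℝ) ≤ (m.divisors.card : ℝ) * D := by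
  rw [Nat.divisors_mul]
  have h1 : (m.divisors * D.divisors).card ≤ m.divisors.card * D.divisors.card :=
    Finset.card_mul_le
  have h2 : D.divisors.card ≤ D := Nat.card_divisors_le_self D
  exact_mod_cast h1.trans (Nat.mul_le_mul_left _ h2)

/-- The term with index zero. -/
theorem zero (hV : StKpV) (hJ : StJac) (hD : 1 ≤ D) (hθ : ThFam D k ψ c θ) {r m : ℕ}
    (hm : 1 ≤ m) :
    ((m * D : ℕ) : ℝ) ^ ((k : ℝ) / 2 + r + 1 / 2) * ((D : ℝ) ^ ((k : ℝ) / 2) *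
      ‖Omd D χ m θ 0 * Kp k r 0 (m * D) (-(r : ℂ))‖) ≤
      (D * (Nat.card (ClassGroup (𝓞 F)) : ℝ) * (D * (2 * (D * (1 + Real.log D)))) *
        (2 * Real.pi)) * (((k + r).factorial : ℝ) * ((4 * Real.pi) ^ (k + r + 1))⁻¹) *
        ((m.divisors.card : ℝ) * (1 + Real.log m) * (m : ℝ) ^ (-(1 : ℝ) / 2)) := by
  have hpi := Real.pi_pos
  have hD0 : (0 : ℝ) < D := by exact_mod_cast hD
  have hD1 : (1 : ℝ) ≤ D := by exact_mod_cast hD
  have hm0 : (0 : ℝ) < m := by exact_mod_cast hm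
  have hm1 : (1 : ℝ) ≤ m := by exact_mod_cast hm
  have hlD : 0 ≤ Real.log D := Real.log_nonneg hD1
  have hlm : 0 ≤ Real.log m := Real.log_nonneg hm1
  have hh : (0 : ℝ) ≤ (Nat.card (ClassGroup (𝓞 F)) : ℝ) := Nat.cast_nonneg _
  have hY : 0 < m * D := Nat.mul_pos hm hD
  have hY0 : (0 : ℝ) < ((m * D : ℕ) : ℝ) := by exact_mod_cast hY
  rcases Nat.eq_zero_or_pos k with hk | hk
  · subst hk
    have h1 : ‖Omd D χ m θ 0‖ ≤ D * (Nat.card (ClassGroup (𝓞 F)) : ℝ) * (D * (2 *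
        ((m.divisors.card : ℝ) * D) * ((1 + Real.log D) * (1 + Real.log m)))) := by
      refine (norm_Omd hD m θ 0).trans ?_
      have h2 : ∀ g ∈ D.divisors, ‖θ g 0 * sGd D χ m g 0‖ ≤
          (Nat.card (ClassGroup (𝓞 F)) : ℝ) * (D * (2 *
        ((m.divisors.card : ℝ) * D) * ((1 + Real.log D) * (1 + Real.log m)))) := by
        intro g hg
        rw [norm_mul]
        have h3 := hθ.zero g hg
        rw [if_pos rfl] at h3
        have h4 := norm_sGd (χ := χ) m g 0 (Nat.zero_le (m * D))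
        rw [Nat.sub_zero] at h4
        have h5 : Real.log ((m * D : ℕ) : ℝ) ≤ (1 + Real.log D) * (1 + Real.log m) := by
          rw [Nat.cast_mul, Real.log_mul hm0.ne' hD0.ne']
          nlinarith
        refine mul_le_mul h3 (h4.trans ?_) (norm_nonneg _) hh
        refine mul_le_mul_of_nonneg_left ?_ hD0.le
        refine mul_le_mul ?_ h5 ?_ (by positivity)
        · exact mul_le_mul_of_nonneg_left (card_mul m D) (by norm_num)
        · exact Real.log_nonneg (by exact_mod_cast hY)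
      refine (Finset.sum_le_card_nsmul _ _ _ h2).trans ?_
      rw [nsmul_eq_mul, mul_assoc (D : ℝ)]
      refine mul_le_mul_of_nonneg_right ?_ (by positivity)
      exact_mod_cast Nat.card_divisors_le_self D
    have h2 : ‖Kp 0 r 0 (m * D) (-(r : ℂ))‖ ≤ 2 * Real.pi * ((0 + r).factorial : ℝ) *
        ((4 * Real.pi * ((m * D : ℕ) : ℝ)) ^ (0 + r + 1))⁻¹ := by
      rw [(hV 0 r 0 (m * D) hY).1 hY]
      have h3 := hJ 0 r 0 le_rfl zero_le_one
      rw [Nat.cast_zero, zero_div, Real.rpow_zero, one_mul] at h3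
      have h4 : ‖(Jac 0 r (((0 : ℕ) : ℝ) / ((m * D : ℕ) : ℝ)) : ℂ)‖ ≤ 1 := by
        rw [Complex.norm_real, Real.norm_eq_abs, Nat.cast_zero, zero_div]
        exact h3
      rw [norm_mul, norm_mul, norm_mul, norm_inv, norm_pow]
      have h5 : ‖(4 * Real.pi * ((m * D : ℕ) : ℂ) : ℂ)‖ = 4 * Real.pi * ((m * D : ℕ) : ℝ) := by
        have : (4 * Real.pi * ((m * D : ℕ) : ℂ) : ℂ) =
            ((4 * Real.pi * ((m * D : ℕ) : ℝ) : ℝ) : ℂ) := by push_cast; ring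
        rw [this, Complex.norm_real, Real.norm_of_nonneg (by positivity)]
      have h6 : ‖(-2 * Real.pi * Complex.I : ℂ)‖ = 2 * Real.pi := by
        rw [norm_mul, norm_mul, norm_neg, Complex.norm_two, Complex.norm_I, mul_one,
          Complex.norm_real, Real.norm_of_nonneg hpi.le]
      rw [h5, h6, Complex.norm_natCast]
      exact mul_le_of_le_one_right (by positivity) h4
    have h3 : ((m * D : ℕ) : ℝ) ^ (((0 : ℕ) : ℝ) / 2 + r + 1 / 2) *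
        ((4 * Real.pi * ((m * D : ℕ) : ℝ)) ^ (0 + r + 1))⁻¹ =
        ((4 * Real.pi) ^ (0 + r + 1))⁻¹ * ((m * D : ℕ) : ℝ) ^ (-(1 : ℝ) / 2) := by
      rw [mul_pow, mul_inv, ← Real.rpow_natCast ((m * D : ℕ) : ℝ), ← Real.rpow_neg hY0.le,
        mul_left_comm, ← Real.rpow_add hY0]
      congr 2
      push_cast
      ring
    have h4 : ((m * D : ℕ) : ℝ) ^ (-(1 : ℝ) / 2) ≤ (m : ℝ) ^ (-(1 : ℝ) / 2) := by
      refine Real.rpow_le_rpow_of_nonpos hm0 ?_ (by norm_num)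
      rw [Nat.cast_mul]
      nlinarith
    have e0 : (D : ℝ) ^ (((0 : ℕ) : ℝ) / 2) = 1 := by
      rw [Nat.cast_zero, zero_div, Real.rpow_zero]
    rw [e0, one_mul, norm_mul]
    have hYa : 0 ≤ ((m * D : ℕ) : ℝ) ^ (((0 : ℕ) : ℝ) / 2 + r + 1 / 2) :=
      Real.rpow_nonneg hY0.le _
    have hK : 0 ≤ 2 * Real.pi * ((0 + r).factorial : ℝ) *
        ((4 * Real.pi * ((m * D : ℕ) : ℝ)) ^ (0 + r + 1))⁻¹ := by positivity
    calc ((m * D : ℕ) : ℝ) ^ (((0 : ℕ) : ℝ) / 2 + r + 1 / 2) *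
          (‖Omd D χ m θ 0‖ * ‖Kp 0 r 0 (m * D) (-(r : ℂ))‖)
        ≤ ((m * D : ℕ) : ℝ) ^ (((0 : ℕ) : ℝ) / 2 + r + 1 / 2) *
          ((D * (Nat.card (ClassGroup (𝓞 F)) : ℝ) * (D * (2 *
        ((m.divisors.card : ℝ) * D) * ((1 + Real.log D) * (1 + Real.log m))))) *
          (2 * Real.pi * ((0 + r).factorial : ℝ) *
        ((4 * Real.pi * ((m * D : ℕ) : ℝ)) ^ (0 + r + 1))⁻¹)) := by
          refine mul_le_mul_of_nonneg_left ?_ hYa
          exact mul_le_mul h1 h2 (norm_nonneg _) (by positivity)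
      _ = (D * (Nat.card (ClassGroup (𝓞 F)) : ℝ) * (D * (2 *
        ((m.divisors.card : ℝ) * D) * ((1 + Real.log D) * (1 + Real.log m))))) *
          (2 * Real.pi * ((0 + r).factorial : ℝ)) *
          (((m * D : ℕ) : ℝ) ^ (((0 : ℕ) : ℝ) / 2 + r + 1 / 2) *
        ((4 * Real.pi * ((m * D : ℕ) : ℝ)) ^ (0 + r + 1))⁻¹) := by ring
      _ = (D * (Nat.card (ClassGroup (𝓞 F)) : ℝ) * (D * (2 *
        ((m.divisors.card : ℝ) * D) * ((1 + Real.log D) * (1 + Real.log m))))) *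
          (2 * Real.pi * ((0 + r).factorial : ℝ)) * (((4 * Real.pi) ^ (0 + r + 1))⁻¹ *
            ((m * D : ℕ) : ℝ) ^ (-(1 : ℝ) / 2)) := by rw [h3]
      _ ≤ (D * (Nat.card (ClassGroup (𝓞 F)) : ℝ) * (D * (2 *
        ((m.divisors.card : ℝ) * D) * ((1 + Real.log D) * (1 + Real.log m))))) *
          (2 * Real.pi * ((0 + r).factorial : ℝ)) * (((4 * Real.pi) ^ (0 + r + 1))⁻¹ *
            (m : ℝ) ^ (-(1 : ℝ) / 2)) := by
          refine mul_le_mul_of_nonneg_left ?_ (by positivity)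
          exact mul_le_mul_of_nonneg_left h4 (by positivity)
      _ = _ := by ring
  · have h1 : Omd D χ m θ 0 = 0 := by
      unfold Omd
      refine Finset.sum_eq_zero fun g hg => ?_
      have h3 := hθ.zero g hg
      rw [if_neg hk.ne'] at h3
      rw [norm_le_zero_iff.1 h3]
      ring
    rw [h1, zero_mul, norm_zero, mul_zero, mul_zero]
    have : 0 ≤ (m : ℝ) ^ (-(1 : ℝ) / 2) := Real.rpow_nonneg hm0.le _
    positivity

end

end ErrXm

open ErrXm in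
theorem stErrX (hB : StErB) (hS : StErS) (hSu : StSuX) (hVan : StVanX) (hV : StKpV)
    (hA : StKpA) (hJ : StJac) : StErrX := by
  obtain ⟨CB, hCB0, hCB⟩ := hB
  obtain ⟨CS, hCS0, hCS⟩ := hS
  intro D _ F _ _ s σ χ cj hd
  have hD : 1 ≤ D := Nat.one_le_iff_ne_zero.2 (NeZero.ne D)
  have hD0 : (0 : ℝ) < D := by exact_mod_cast hD
  have hD1 : (1 : ℝ) ≤ D := by exact_mod_cast hD
  have hlD : 0 ≤ Real.log D := Real.log_nonneg hD1
  have hpi := Real.pi_pos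
  set h : ℝ := (Nat.card (ClassGroup (𝓞 F)) : ℝ) with hh
  have hh0 : 0 ≤ h := Nat.cast_nonneg _
  set C0 : ℝ := D * h * (D * (2 * (D * (1 + Real.log D)))) * (2 * Real.pi) with hC0
  have hC00 : 0 ≤ C0 := by positivity
  refine ⟨(D : ℝ) ^ ((1 : ℝ) / 2) * (C0 + D * (2 * D * (CS * D)) + D * (D * (CB * D ^ 10))),
    by positivity, ?_⟩
  intro k r m ψ c θ hψ hθ hco hr hm hmr
  have hm0 : (0 : ℝ) < m := by exact_mod_cast hm
  have hm1 : (1 : ℝ) ≤ m := by exact_mod_cast hm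
  have hr1 : (1 : ℝ) ≤ r := by
    have : 1 ≤ r := by omega
    exact_mod_cast this
  have hr0 : (0 : ℝ) < r := by linarith
  have hlm : 0 ≤ Real.log m := Real.log_nonneg hm1
  have hsm := fun g (hg : g ∈ D.divisors) =>
    small (χ := χ) hD hθ hg (show 1 ≤ r by omega) hm hCS
  have hla := fun g (hg : g ∈ D.divisors) => large (χ := χ) hD hθ hg hr hm hCB
  have hze := zero (χ := χ) hV hJ hD hθ (r := r) hm
  -- abbreviations
  obtain ⟨N, hN⟩ : ∃ N : ℝ, N = ((k + r).factorial : ℝ) * ((4 * Real.pi) ^ (k + r + 1))⁻¹ :=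
    ⟨_, rfl⟩
  obtain ⟨Ya, hYa⟩ : ∃ Ya : ℝ, Ya = ((m * D : ℕ) : ℝ) ^ ((k : ℝ) / 2 + r + 1 / 2) := ⟨_, rfl⟩
  obtain ⟨Dk, hDk⟩ : ∃ Dk : ℝ, Dk = (D : ℝ) ^ ((k : ℝ) / 2) := ⟨_, rfl⟩
  obtain ⟨R, hR⟩ : ∃ R : ℝ, R = (m : ℝ) ^ ((9 : ℝ) / 10) * (r : ℝ) ^ (-(1 : ℝ) / 5) := ⟨_, rfl⟩
  obtain ⟨Z, hZ⟩ : ∃ Z : ℝ, Z = (m.divisors.card : ℝ) * (1 + Real.log m) *
    (m : ℝ) ^ (-(1 : ℝ) / 2) := ⟨_, rfl⟩
  have hN0 : 0 ≤ N := by rw [hN]; positivity
  have hYa0 : 0 ≤ Ya := by rw [hYa]; positivity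
  have hDk0 : 0 ≤ Dk := by rw [hDk]; positivity
  have hR0 : 0 ≤ R := by rw [hR]; positivity
  have hZ0 : 0 ≤ Z := by
    rw [hZ]
    have : 0 ≤ (m : ℝ) ^ (-(1 : ℝ) / 2) := Real.rpow_nonneg hm0.le _
    positivity
  -- the powers of `m D`
  have hp1 : ((m * D : ℕ) : ℝ) ^ ((9 : ℝ) / 10) * (r : ℝ) ^ (-(1 : ℝ) / 5) ≤ D * R := by
    rw [hR, Nat.cast_mul, Real.mul_rpow hm0.le hD0.le]
    have h1 : (D : ℝ) ^ ((9 : ℝ) / 10) ≤ D := by
      calc (D : ℝ) ^ ((9 : ℝ) / 10) ≤ (D : ℝ) ^ (1 : ℝ) :=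
            Real.rpow_le_rpow_of_exponent_le hD1 (by norm_num)
        _ = D := Real.rpow_one _
    have h2 : 0 ≤ (m : ℝ) ^ ((9 : ℝ) / 10) * (r : ℝ) ^ (-(1 : ℝ) / 5) := by positivity
    calc (m : ℝ) ^ ((9 : ℝ) / 10) * (D : ℝ) ^ ((9 : ℝ) / 10) * (r : ℝ) ^ (-(1 : ℝ) / 5) =
          (D : ℝ) ^ ((9 : ℝ) / 10) * ((m : ℝ) ^ ((9 : ℝ) / 10) * (r : ℝ) ^ (-(1 : ℝ) / 5)) := by
          ring
      _ ≤ D * ((m : ℝ) ^ ((9 : ℝ) / 10) * (r : ℝ) ^ (-(1 : ℝ) / 5)) :=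
          mul_le_mul_of_nonneg_right h1 h2
  have hp2 : ((m * D : ℕ) : ℝ) ^ 10 * ((r : ℝ) ^ 4)⁻¹ ≤ D ^ 10 * R := by
    have h1 : (m : ℝ) ^ 10 ≤ (r : ℝ) ^ 3 := by
      have h2 : (m : ℝ) ^ 10 ≤ (m : ℝ) ^ 12 := pow_le_pow_right₀ hm1 (by norm_num)
      have h3 : (m : ℝ) ^ 12 ≤ (r : ℝ) ^ 3 := by
        have h4 : ((m : ℝ) ^ 4) ≤ r := by exact_mod_cast hmr
        calc (m : ℝ) ^ 12 = ((m : ℝ) ^ 4) ^ 3 := by ring
          _ ≤ (r : ℝ) ^ 3 := pow_le_pow_left₀ (by positivity) h4 3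
      exact h2.trans h3
    have h2 : (r : ℝ)⁻¹ ≤ R := by
      rw [hR]
      have h3 : (1 : ℝ) ≤ (m : ℝ) ^ ((9 : ℝ) / 10) := Real.one_le_rpow hm1 (by norm_num)
      have h4 : (r : ℝ)⁻¹ ≤ (r : ℝ) ^ (-(1 : ℝ) / 5) := by
        rw [← Real.rpow_neg_one]
        exact Real.rpow_le_rpow_of_exponent_le hr1 (by norm_num)
      have h5 : 0 ≤ (r : ℝ) ^ (-(1 : ℝ) / 5) := by positivity
      nlinarith
    rw [Nat.cast_mul, mul_pow]
    calc (m : ℝ) ^ 10 * (D : ℝ) ^ 10 * ((r : ℝ) ^ 4)⁻¹ ≤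
          (r : ℝ) ^ 3 * (D : ℝ) ^ 10 * ((r : ℝ) ^ 4)⁻¹ := by gcongr
      _ = D ^ 10 * (r : ℝ)⁻¹ := by field_simp
      _ ≤ D ^ 10 * R := mul_le_mul_of_nonneg_left h2 (by positivity)
  rw [← hN, ← hYa, ← hDk, ← hZ, ← hh, ← hC0] at hze
  -- the sums over the cusps
  have hsm2 : ∀ g ∈ D.divisors, Ya * (Dk * ∑ n ∈ Finset.Ico 1 (m * D),
      ‖θ g n * sGd D χ m g n * Kp k r n (m * D) (-(r : ℂ))‖) ≤
        2 * D * (CS * D) * N * R := by
    intro g hg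
    have h1 := hsm g hg
    rw [← hN, ← hYa, ← hDk] at h1
    refine h1.trans ?_
    calc 2 * D * (CS * N * (((m * D : ℕ) : ℝ) ^ ((9 : ℝ) / 10) * (r : ℝ) ^ (-(1 : ℝ) / 5))) ≤
          2 * D * (CS * N * (D * R)) := by gcongr
      _ = 2 * D * (CS * D) * N * R := by ring
  have hla2 : ∀ g ∈ D.divisors, Ya * (Dk * ∑' n : ℕ, if m * D < n then
      ‖θ g n * sG D χ m g n 0 * deriv (Kp k r n (m * D)) (-(r : ℂ))‖ else 0) ≤
        D * (CB * D ^ 10) * N * R := by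
    intro g hg
    have h1 := (hla g hg).2
    rw [← hN, ← hYa, ← hDk] at h1
    refine h1.trans ?_
    calc D * (CB * N * (((m * D : ℕ) : ℝ) ^ 10 * ((r : ℝ) ^ 4)⁻¹)) ≤
          D * (CB * N * (D ^ 10 * R)) := by gcongr
      _ = D * (CB * D ^ 10) * N * R := by ring
  -- summability of the large terms
  have hle : ∀ n : ℕ, (if m * D < n then
      ‖OmX D χ m θ n 0 * deriv (Kp k r n (m * D)) (-(r : ℂ))‖ else 0) ≤
      ∑ g ∈ D.divisors, (if m * D < n then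
        ‖θ g n * sG D χ m g n 0 * deriv (Kp k r n (m * D)) (-(r : ℂ))‖ else 0) := by
    intro n
    split_ifs with hn
    · rw [norm_mul]
      refine (mul_le_mul_of_nonneg_right (norm_Om0 hD m θ n) (norm_nonneg _)).trans ?_
      rw [Finset.sum_mul]
      refine Finset.sum_le_sum fun g _ => ?_
      rw [← norm_mul]
    · simp
  have hsg : Summable fun n : ℕ => ∑ g ∈ D.divisors, (if m * D < n then
        ‖θ g n * sG D χ m g n 0 * deriv (Kp k r n (m * D)) (-(r : ℂ))‖ else 0) :=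
    summable_sum fun g hg => (hla g hg).1
  have hnn : ∀ n : ℕ, 0 ≤ (if m * D < n then
      ‖OmX D χ m θ n 0 * deriv (Kp k r n (m * D)) (-(r : ℂ))‖ else 0) := by
    intro n
    split_ifs
    · exact norm_nonneg _
    · exact le_rfl
  have hsum : Summable fun n : ℕ => (if m * D < n then
      ‖OmX D χ m θ n 0 * deriv (Kp k r n (m * D)) (-(r : ℂ))‖ else 0) :=
    Summable.of_nonneg_of_le hnn hle hsg
  have hbig : ∑' n : ℕ, (if m * D < n then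
      ‖OmX D χ m θ n 0 * deriv (Kp k r n (m * D)) (-(r : ℂ))‖ else 0) ≤
      ∑ g ∈ D.divisors, ∑' n : ℕ, (if m * D < n then
        ‖θ g n * sG D χ m g n 0 * deriv (Kp k r n (m * D)) (-(r : ℂ))‖ else 0) := by
    rw [← Summable.tsum_finsetSum fun g hg => (hla g hg).1]
    exact hsum.tsum_le_tsum hle hsg
  have hlow : ∑ n ∈ Finset.range (m * D), ‖Omd D χ m θ n * Kp k r n (m * D) (-(r : ℂ))‖ ≤
      ‖Omd D χ m θ 0 * Kp k r 0 (m * D) (-(r : ℂ))‖ + ∑ g ∈ D.divisors,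
        ∑ n ∈ Finset.Ico 1 (m * D), ‖θ g n * sGd D χ m g n * Kp k r n (m * D) (-(r : ℂ))‖ := by
    have hY : 0 < m * D := Nat.mul_pos hm hD
    rw [Finset.range_eq_Ico, Finset.sum_eq_sum_Ico_succ_bot hY, Finset.sum_comm]
    refine add_le_add le_rfl (Finset.sum_le_sum fun n _ => ?_)
    rw [norm_mul]
    refine (mul_le_mul_of_nonneg_right (norm_Omd hD m θ n) (norm_nonneg _)).trans ?_
    rw [Finset.sum_mul]
    refine Finset.sum_le_sum fun g _ => ?_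
    rw [← norm_mul]
  have hder := norm_deriv_SX hSu hVan hV hA hd (k := k) (r := r) (m := m) (ψ := ψ) (c := c)
    (θ := θ) hψ hθ hco (by omega) hm hsum
  have hcard : (D.divisors.card : ℝ) ≤ D := by exact_mod_cast Nat.card_divisors_le_self D
  have hs1 : ∑ g ∈ D.divisors, Ya * (Dk * ∑ n ∈ Finset.Ico 1 (m * D),
      ‖θ g n * sGd D χ m g n * Kp k r n (m * D) (-(r : ℂ))‖) ≤ D * (2 * D * (CS * D) * N * R) := by
    refine (Finset.sum_le_card_nsmul _ _ _ hsm2).trans ?_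
    rw [nsmul_eq_mul]
    exact mul_le_mul_of_nonneg_right hcard (by positivity)
  have hs2 : ∑ g ∈ D.divisors, Ya * (Dk * ∑' n : ℕ, if m * D < n then
      ‖θ g n * sG D χ m g n 0 * deriv (Kp k r n (m * D)) (-(r : ℂ))‖ else 0) ≤
        D * (D * (CB * D ^ 10) * N * R) := by
    refine (Finset.sum_le_card_nsmul _ _ _ hla2).trans ?_
    rw [nsmul_eq_mul]
    exact mul_le_mul_of_nonneg_right hcard (by positivity)
  rw [← hN, ← hZ, ← hR]
  have hD2 : 0 ≤ (D : ℝ) ^ ((1 : ℝ) / 2) := by positivity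
  calc (m : ℝ) ^ ((k : ℝ) / 2 + r + 1 / 2) * ‖deriv (SX D χ k r m θ) (-(r : ℂ))‖
      ≤ (m : ℝ) ^ ((k : ℝ) / 2 + r + 1 / 2) * ((D : ℝ) ^ (k + 1 + r) *
        ((‖Omd D χ m θ 0 * Kp k r 0 (m * D) (-(r : ℂ))‖ + ∑ g ∈ D.divisors,
        ∑ n ∈ Finset.Ico 1 (m * D), ‖θ g n * sGd D χ m g n * Kp k r n (m * D) (-(r : ℂ))‖) +
        ∑ g ∈ D.divisors, ∑' n : ℕ, (if m * D < n then
        ‖θ g n * sG D χ m g n 0 * deriv (Kp k r n (m * D)) (-(r : ℂ))‖ else 0))) := by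
        refine mul_le_mul_of_nonneg_left (hder.trans ?_) (by positivity)
        exact mul_le_mul_of_nonneg_left (add_le_add hlow hbig) (by positivity)
    _ = (D : ℝ) ^ ((1 : ℝ) / 2) * (Ya * (Dk * ‖Omd D χ m θ 0 *
          Kp k r 0 (m * D) (-(r : ℂ))‖) + ∑ g ∈ D.divisors, Ya * (Dk *
          ∑ n ∈ Finset.Ico 1 (m * D), ‖θ g n * sGd D χ m g n *
            Kp k r n (m * D) (-(r : ℂ))‖) + ∑ g ∈ D.divisors, Ya * (Dk *
          ∑' n : ℕ, if m * D < n then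
            ‖θ g n * sG D χ m g n 0 * deriv (Kp k r n (m * D)) (-(r : ℂ))‖ else 0)) := by
        rw [← mul_assoc, pow_split hm hD k r, ← hYa, ← hDk]
        simp only [← Finset.mul_sum]
        ring
    _ ≤ (D : ℝ) ^ ((1 : ℝ) / 2) * (C0 * N * Z + D * (2 * D * (CS * D) * N * R) +
          D * (D * (CB * D ^ 10) * N * R)) := by
        refine mul_le_mul_of_nonneg_left ?_ hD2
        exact add_le_add (add_le_add hze hs1) hs2
    _ ≤ (D : ℝ) ^ ((1 : ℝ) / 2) * (C0 + D * (2 * D * (CS * D)) + D * (D * (CB * D ^ 10))) *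
          N * (Z + R) := by
        have e1 : (D : ℝ) ^ ((1 : ℝ) / 2) * (C0 + D * (2 * D * (CS * D)) +
            D * (D * (CB * D ^ 10))) * N * (Z + R) =
            (D : ℝ) ^ ((1 : ℝ) / 2) * (C0 * N * Z + D * (2 * D * (CS * D) * N * R) +
          D * (D * (CB * D ^ 10) * N * R)) +
            (D : ℝ) ^ ((1 : ℝ) / 2) * N * (C0 * R + (D * (2 * D * (CS * D)) +
            D * (D * (CB * D ^ 10))) * Z) := by ring
        rw [e1]
        have : 0 ≤ (D : ℝ) ^ ((1 : ℝ) / 2) * N * (C0 * R + (D * (2 * D * (CS * D)) +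
            D * (D * (CB * D ^ 10))) * Z) := by positivity
        linarith

end RZ

end Pool.Agent.Lib.MP_7c08ba_nt
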