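import Pool.Agent.Lib.MP_7c08ba_nt.RZ.StX

set_option autoImplicit false

/-!
Module X4: growth of the trace in the region of convergence, every discriminant.
-/

namespace Pool.Agent.Lib.MP_7c08ba_nt

namespace RZ

open NumberField MeasureTheory UpperHalfPlane Set IsDedekindDomain
open scoped MatrixGroups ComplexConjugate nonZeroDivisors

namespace GroXaux

theorem norm_ee (z : ℂ) : ‖ee z‖ = Real.exp (-(2 * Real.pi * z.im)) := by
  unfold ee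
  rw [Complex.norm_exp]
  congr 1
  simp [Complex.mul_re, Complex.mul_im]

/-- A Fourier series is bounded on each half plane. -/
theorem four_bound (ρ : ℕ → ℂ) (hs : ∀ u : ℂ, 0 < u.im → Summable fun n : ℕ => ‖ρ n * ee (n * u)‖)
    {y₀ : ℝ} (hy₀ : 0 < y₀) :
    ∃ C : ℝ, 0 ≤ C ∧ ∀ z : ℂ, y₀ ≤ z.im → ‖∑' n : ℕ, ρ n * ee (n * z)‖ ≤ C := by
  have h0 := hs (y₀ * Complex.I) (by simpa using hy₀)
  refine ⟨∑' n : ℕ, ‖ρ n * ee (n * (y₀ * Complex.I))‖, tsum_nonneg fun _ => norm_nonneg _,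
    fun z hz => ?_⟩
  have hle : ∀ n : ℕ, ‖ρ n * ee (n * z)‖ ≤ ‖ρ n * ee (n * (y₀ * Complex.I))‖ := by
    intro n
    rw [norm_mul, norm_mul, norm_ee, norm_ee]
    refine mul_le_mul_of_nonneg_left (Real.exp_le_exp.mpr (neg_le_neg ?_)) (norm_nonneg _)
    have e1 : ((n : ℂ) * (y₀ * Complex.I)).im = n * y₀ := by simp
    have e2 : ((n : ℂ) * z).im = n * z.im := by simp
    rw [e1, e2]
    have hn : (n : ℝ) * y₀ ≤ n * z.im := mul_le_mul_of_nonneg_left hz (Nat.cast_nonneg n)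
    have hpi : (0 : ℝ) ≤ 2 * Real.pi := by positivity
    exact mul_le_mul_of_nonneg_left hn hpi
  have hs' : Summable fun n : ℕ => ‖ρ n * ee (n * z)‖ :=
    Summable.of_nonneg_of_le (fun _ => norm_nonneg _) hle h0
  exact (norm_tsum_le_tsum_norm hs').trans (hs'.tsum_le_tsum hle h0)

/-- Bound for the product of a Fourier series and an Eisenstein series. -/
theorem GT_bound (h3 : StGB) {M r : ℕ} (hM : 1 ≤ M) {t : ℂ} (ht : 1 / 2 - (r : ℝ) < t.re)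
    (g : ℕ → ℤ → ℂ) (hg : ∀ c d, ‖g c d‖ ≤ 1) (ρ : ℕ → ℂ)
    (hs : ∀ u : ℂ, 0 < u.im → Summable fun n : ℕ => ‖ρ n * ee (n * u)‖)
    {y₀ : ℝ} (hy₀ : 0 < y₀) :
    ∃ C : ℝ, 0 ≤ C ∧ ∀ z : ℂ, y₀ ≤ z.im →
      ‖GT M r g ρ t z‖ ≤ C * z.im ^ (-2 * (r : ℝ) - t.re) := by
  obtain ⟨hsum, -, hb⟩ := h3 M r t hM ht
  obtain ⟨C₂, hC₂⟩ := hb y₀ hy₀
  obtain ⟨C₁, hC₁, hth⟩ := four_bound ρ hs hy₀
  refine ⟨C₁ * |C₂|, by positivity, fun z hz => ?_⟩
  have hz0 : 0 < z.im := hy₀.trans_le hz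
  have b1 := hth z hz
  have b2 : ‖∑' p : ℕ × ℤ, g (p.1 + 1) p.2 * gE r t (M * ((p.1 : ℂ) + 1) * z + p.2)‖ ≤
      |C₂| * z.im ^ (-2 * (r : ℝ) - 2 * t.re) := by
    have hs := hsum z hz0
    have hle : ∀ p : ℕ × ℤ, ‖g (p.1 + 1) p.2 * gE r t (M * ((p.1 : ℂ) + 1) * z + p.2)‖ ≤
        ‖gE r t (M * ((p.1 : ℂ) + 1) * z + p.2)‖ := fun p => by
      rw [norm_mul]
      exact mul_le_of_le_one_left (norm_nonneg _) (hg _ _)
    have hs' : Summable fun p : ℕ × ℤ =>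
        ‖g (p.1 + 1) p.2 * gE r t (M * ((p.1 : ℂ) + 1) * z + p.2)‖ :=
      Summable.of_nonneg_of_le (fun _ => norm_nonneg _) hle hs
    have hpos : 0 ≤ z.im ^ (-2 * (r : ℝ) - 2 * t.re) := Real.rpow_nonneg hz0.le _
    calc ‖∑' p : ℕ × ℤ, g (p.1 + 1) p.2 * gE r t (M * ((p.1 : ℂ) + 1) * z + p.2)‖
        ≤ ∑' p : ℕ × ℤ, ‖g (p.1 + 1) p.2 * gE r t (M * ((p.1 : ℂ) + 1) * z + p.2)‖ :=
          norm_tsum_le_tsum_norm hs'
      _ ≤ ∑' p : ℕ × ℤ, ‖gE r t (M * ((p.1 : ℂ) + 1) * z + p.2)‖ := hs'.tsum_le_tsum hle hs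
      _ ≤ C₂ * z.im ^ (-2 * (r : ℝ) - 2 * t.re) := hC₂ z hz
      _ ≤ |C₂| * z.im ^ (-2 * (r : ℝ) - 2 * t.re) :=
          mul_le_mul_of_nonneg_right (le_abs_self _) hpos
  have b3 : ‖(z.im : ℂ) ^ t‖ = z.im ^ t.re := Complex.norm_cpow_eq_rpow_re_of_pos hz0 t
  unfold GT
  rw [norm_mul, norm_mul, b3]
  have e : z.im ^ (-2 * (r : ℝ) - t.re) = z.im ^ t.re * z.im ^ (-2 * (r : ℝ) - 2 * t.re) := by
    rw [← Real.rpow_add hz0]
    congr 1
    ring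
  rw [e]
  have hp1 : 0 ≤ z.im ^ t.re := Real.rpow_nonneg hz0.le _
  calc ‖∑' n : ℕ, ρ n * ee (n * z)‖ * (z.im ^ t.re *
        ‖∑' p : ℕ × ℤ, g (p.1 + 1) p.2 * gE r t (M * ((p.1 : ℂ) + 1) * z + p.2)‖)
      ≤ C₁ * (z.im ^ t.re * (|C₂| * z.im ^ (-2 * (r : ℝ) - 2 * t.re))) := by
        refine mul_le_mul b1 (mul_le_mul_of_nonneg_left b2 hp1) ?_ hC₁
        exact mul_nonneg hp1 (norm_nonneg _)
    _ = _ := by ring

theorem norm_om (D : ℕ) (χ : DirichletCharacter ℂ D) (g : ℕ) (c : ℕ) (d : ℤ) :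
    ‖om D χ g c d‖ ≤ 1 := by
  unfold om
  split_ifs
  · exact DirichletCharacter.norm_le_one χ _
  · simp

end GroXaux

open GroXaux in
/-- (X4) -/
theorem stGroX (h1 : StTrX) (h2 : StGB) : StGroX := by
  intro D hq F hF hNF s σ χ cj w k r ψ c θ hD hψ hθ hw t ht
  have hDpos : 0 < D := Nat.pos_of_ne_zero hq.out
  have hD0 : (0 : ℝ) < D := by exact_mod_cast hDpos
  have hDne : (D : ℂ) ≠ 0 := by exact_mod_cast hDpos.ne'
  have hsm : ∀ g ∈ D.divisors, ∀ u : ℂ, 0 < u.im →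
      Summable fun n : ℕ => ‖θ g n * ee (n * u)‖ := by
    intro g hg u hu
    have h := (hθ.exp g hg (D * u) (by simpa using mul_pos hD0 hu)).1
    have e : ∀ n : ℕ, ((n : ℂ) * (D * u) / D) = n * u := fun n => by field_simp
    simpa only [e] using h
  have hDD : D ∈ D.divisors := Nat.mem_divisors.mpr ⟨dvd_rfl, hDpos.ne'⟩
  obtain ⟨C₀, hC₀, hb0⟩ := four_bound (θ D) (hsm D hDD) (y₀ := 1 / 2 / D) (by positivity)
  have hex : ∀ g : ℕ, ∃ C : ℝ, 0 ≤ C ∧ (g ∈ D.divisors → ∀ z : ℂ, 1 / 2 / (D : ℝ) ≤ z.im →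
      ‖GT D r (om D χ g) (θ g) t z‖ ≤ C * z.im ^ (-2 * (r : ℝ) - t.re)) := by
    intro g
    by_cases hg : g ∈ D.divisors
    · obtain ⟨C, hC, h⟩ := GT_bound h2 hDpos ht (om D χ g) (norm_om D χ g) (θ g) (hsm g hg)
        (y₀ := 1 / 2 / D) (by positivity)
      exact ⟨C, hC, fun _ => h⟩
    · exact ⟨0, le_rfl, fun h => absurd h hg⟩
  choose Cg hCg hbg using hex
  set a : ℝ := -2 * (r : ℝ) - t.re with ha
  set K₁ : ℝ := ‖DirichletCharacter.LFunction χ (2 * r + 1 + 2 * t)‖ * C₀ with hK₁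
  set K₂ : ℝ := ‖(D : ℂ) ^ t‖ * ∑ g ∈ D.divisors, (wid D g : ℝ) * (Cg g * (D : ℝ) ^ (-a))
    with hK₂
  have hK₁0 : 0 ≤ K₁ := by positivity
  have hK₂0 : 0 ≤ K₂ := by
    rw [hK₂]
    refine mul_nonneg (norm_nonneg _) (Finset.sum_nonneg fun g _ => ?_)
    have := hCg g
    positivity
  refine ⟨K₁ + K₂, fun z hz => ?_⟩
  have hz0 : 0 < z.im := lt_of_lt_of_le (by norm_num) hz
  have hp1 : 0 ≤ z.im ^ t.re := Real.rpow_nonneg hz0.le _
  have hp2 : 0 ≤ z.im ^ a := Real.rpow_nonneg hz0.le _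
  rw [h1 D hq F hF hNF s σ χ cj w k r ψ c θ hD hψ hθ hw t z ht hz0]
  have b1 : ‖DirichletCharacter.LFunction χ (2 * r + 1 + 2 * t) *
      (thψ k ψ c z * (z.im : ℂ) ^ t)‖ ≤ K₁ * z.im ^ t.re := by
    rw [norm_mul, norm_mul, Complex.norm_cpow_eq_rpow_re_of_pos hz0 t, hK₁, mul_assoc]
    refine mul_le_mul_of_nonneg_left (mul_le_mul_of_nonneg_right ?_ hp1) (norm_nonneg _)
    rw [hθ.self z hz0]
    have e : ∀ n : ℕ, ((n : ℂ) * z / D) = n * (z / D) := fun n => mul_div_assoc _ _ _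
    simp only [e]
    refine hb0 (z / D) ?_
    rw [Complex.div_natCast_im]
    exact div_le_div_of_nonneg_right hz hD0.le
  have b2 : ‖(D : ℂ) ^ t * ∑ g ∈ D.divisors, ∑ j ∈ Finset.range (wid D g),
      GT D r (om D χ g) (θ g) t ((z + j) / D)‖ ≤ K₂ * z.im ^ a := by
    rw [norm_mul, hK₂, mul_assoc]
    refine mul_le_mul_of_nonneg_left ?_ (norm_nonneg _)
    rw [Finset.sum_mul]
    refine (norm_sum_le _ _).trans (Finset.sum_le_sum fun g hg => ?_)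
    have h6 : ∀ j ∈ Finset.range (wid D g),
        ‖GT D r (om D χ g) (θ g) t ((z + j) / D)‖ ≤ Cg g * (D : ℝ) ^ (-a) * z.im ^ a := by
      intro j _
      have him : ((z + j) / D : ℂ).im = z.im / D := by
        rw [Complex.div_natCast_im]
        simp
      have h7 := hbg g hg ((z + j) / D) (by
        rw [him]
        exact div_le_div_of_nonneg_right hz hD0.le)
      rw [him] at h7
      refine h7.trans (le_of_eq ?_)
      rw [Real.div_rpow hz0.le hD0.le, Real.rpow_neg hD0.le]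
      ring
    refine (norm_sum_le _ _).trans ((Finset.sum_le_card_nsmul _ _ _ h6).trans (le_of_eq ?_))
    rw [Finset.card_range, nsmul_eq_mul]
    ring
  calc ‖DirichletCharacter.LFunction χ (2 * r + 1 + 2 * t) * (thψ k ψ c z * (z.im : ℂ) ^ t) +
      (D : ℂ) ^ t * ∑ g ∈ D.divisors, ∑ j ∈ Finset.range (wid D g),
        GT D r (om D χ g) (θ g) t ((z + j) / D)‖
      ≤ K₁ * z.im ^ t.re + K₂ * z.im ^ a := (norm_add_le _ _).trans (add_le_add b1 b2)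
    _ ≤ (K₁ + K₂) * (z.im ^ t.re + z.im ^ a) := by
        have e1 : 0 ≤ K₁ * z.im ^ a := mul_nonneg hK₁0 hp2
        have e2 : 0 ≤ K₂ * z.im ^ t.re := mul_nonneg hK₂0 hp1
        nlinarith [e1, e2]

end RZ

end Pool.Agent.Lib.MP_7c08ba_nt
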