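import Pool.Agent.Lib.MP_7c08ba_nt.RZ.StX
import Pool.Agent.Lib.MP_7c08ba_nt.RZ.Gs
import Pool.Agent.Lib.MP_7c08ba_nt.RZ.EisAtQ

set_option autoImplicit false

/-! (X6) the finite sums for all cusps. -/

namespace Pool.Agent.Lib.MP_7c08ba_nt

namespace RZ

open NumberField UpperHalfPlane Set
open scoped MatrixGroups ComplexConjugate nonZeroDivisors

namespace GsXm

open Gsm (ee_add ee_int sum_ee sum_split tsum_div pow_aux)

variable {D : ℕ} {χ : DirichletCharacter ℂ D}

theorem om_add (g c : ℕ) (d m : ℤ) : om D χ g c (d + D * m) = om D χ g c d := by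
  unfold om
  have h1 : ((D : ℤ) ∣ c + g * (d + D * m)) ↔ ((D : ℤ) ∣ c + g * d) := by
    have : (c : ℤ) + g * (d + D * m) = (c + g * d) + D * (g * m) := by ring
    rw [this]
    exact dvd_add_left (dvd_mul_right _ _)
  have h2 : ((d + D * m : ℤ) : ZMod D) = (d : ZMod D) := by
    push_cast
    simp
  rw [h2]
  by_cases h : (D : ℤ) ∣ c + g * d
  · rw [if_pos (h1.2 h), if_pos h]
  · rw [if_neg (fun h' => h (h1.1 h')), if_neg h]

theorem norm_om_le (g c : ℕ) (d : ℤ) : ‖om D χ g c d‖ ≤ 1 := by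
  unfold om
  split_ifs
  · exact χ.norm_le_one _
  · simp

/-- The inner sum. -/
noncomputable def inn (D : ℕ) (χ : DirichletCharacter ℂ D) (g c : ℕ) (q : ℤ) : ℂ :=
  ∑ d ∈ Finset.range D, om D χ g c d * ee (-((q : ℂ) * d / D))

theorem gs_X (hD : 1 ≤ D) (g : ℕ) (N : ℤ) (c : ℕ) (hc : 1 ≤ c) :
    Gs D (om D χ g) N c = if (c : ℤ) ∣ N then c * inn D χ g c (N / c) else 0 := by
  have hc0 : (c : ℂ) ≠ 0 := by
    have : c ≠ 0 := by omega
    exact_mod_cast this
  have hD0 : (D : ℂ) ≠ 0 := by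
    have : D ≠ 0 := by omega
    exact_mod_cast this
  unfold Gs
  rw [sum_split]
  have h1 : ∀ m ∈ Finset.range c, ∑ a ∈ Finset.range D,
      om D χ g c ((D * m + a : ℕ) : ℤ) * ee (-(N * ((D * m + a : ℕ) : ℂ) / (D * c))) =
      ee (-(N * m / c)) * ∑ a ∈ Finset.range D, om D χ g c a * ee (-(N * a / (D * c))) := by
    intro m _
    rw [Finset.mul_sum]
    refine Finset.sum_congr rfl fun a _ => ?_
    have h2 : (-(N * ((D * m + a : ℕ) : ℂ) / (D * c))) =
        (-(N * m / c)) + (-(N * a / (D * c))) := by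
      push_cast
      field_simp
      ring
    rw [h2, ee_add]
    have h3 : om D χ g c ((D * m + a : ℕ) : ℤ) = om D χ g c a := by
      have : (((D * m + a : ℕ) : ℕ) : ℤ) = (a : ℤ) + D * (m : ℤ) := by
        push_cast
        ring
      rw [this, om_add]
    rw [h3]
    ring
  rw [Finset.sum_congr rfl h1, ← Finset.sum_mul, sum_ee N c hc]
  split_ifs with h
  · obtain ⟨q, rfl⟩ := h
    have h5 : ((c : ℤ) * q / c : ℤ) = q := by
      rw [Int.mul_ediv_cancel_left]
      have : c ≠ 0 := by omega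
      exact_mod_cast this
    rw [h5]
    congr 1
    unfold inn
    refine Finset.sum_congr rfl fun a _ => ?_
    congr 2
    push_cast
    field_simp
  · rw [zero_mul]

/-- The sum without the exponential. -/
theorem inn_zero [NeZero D] (g c : ℕ) : inn D χ g c 0 =
    ∑ x : ZMod D, if (c : ZMod D) + g * x = 0 then χ x else 0 := by
  rw [← EisAt.sum_range_zmod]
  unfold inn
  refine Finset.sum_congr rfl fun a _ => ?_
  have h1 : ee (-(((0 : ℤ) : ℂ) * a / D)) = 1 := by
    have := ee_int 0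
    simpa using this
  rw [h1, mul_one]
  unfold om
  have h2 : ((D : ℤ) ∣ c + g * (a : ℤ)) ↔ (c : ZMod D) + g * (a : ZMod D) = 0 := by
    rw [← ZMod.intCast_zmod_eq_zero_iff_dvd]
    push_cast
    rfl
  by_cases h : (D : ℤ) ∣ c + g * (a : ℤ)
  · rw [if_pos h, if_pos (h2.1 h)]
    simp
  · rw [if_neg h, if_neg (fun h' => h (h2.2 h'))]

theorem inn_one [NeZero D] (hχ : QC D χ) (c : ℕ) : inn D χ 1 c 0 = -χ (c : ZMod D) := by
  rw [inn_zero]
  have h1 : ∀ x : ZMod D, ((c : ZMod D) + ((1 : ℕ) : ZMod D) * x = 0) ↔ x = -(c : ZMod D) := by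
    intro x
    rw [Nat.cast_one, one_mul]
    constructor
    · intro h
      exact (neg_eq_of_add_eq_zero_right h).symm
    · rintro rfl
      exact add_neg_cancel _
  simp only [h1, Finset.sum_ite_eq', Finset.mem_univ, if_true]
  exact EisAtQ.chi_neg hχ _

theorem exists_unit [NeZero D] (hχ : QC D χ) {g : ℕ} (hg : g ∣ D) (hg1 : g ≠ 1) :
    ∃ a : (ZMod D)ˣ, (g : ZMod D) * a = g ∧ χ a ≠ 1 := by
  have hD0 : D ≠ 0 := NeZero.ne D
  have hg0 : 0 < g := Nat.pos_of_ne_zero fun h => hD0 (by rw [h] at hg; exact zero_dvd_iff.1 hg)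
  have hd : D / g ∣ D := Nat.div_dvd_of_dvd hg
  have hlt : D / g < D := Nat.div_lt_self (Nat.pos_of_ne_zero hD0) (by omega)
  by_contra hcon
  push Not at hcon
  have h1 : χ.FactorsThrough (D / g) := by
    rw [DirichletCharacter.factorsThrough_iff_ker_unitsMap hd]
    intro a ha
    rw [MonoidHom.mem_ker] at ha ⊢
    have h2 : (ZMod.castHom hd (ZMod (D / g))) (a : ZMod D) = 1 := by
      have := congrArg Units.val ha
      simpa [ZMod.unitsMap_def] using this
    have h3 : (g : ZMod D) * a = g := by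
      have h4 : (((a : ZMod D).val : ℤ) : ZMod (D / g)) = ((1 : ℤ) : ZMod (D / g)) := by
        have h5 : (ZMod.castHom hd (ZMod (D / g))) (a : ZMod D) =
            (((a : ZMod D).val : ℤ) : ZMod (D / g)) := by
          conv_lhs => rw [← ZMod.natCast_zmod_val (a : ZMod D)]
          rw [map_natCast]
          push_cast
          rfl
        rw [← h5, h2]
        simp
      rw [ZMod.intCast_eq_intCast_iff_dvd_sub] at h4
      have h6 : (D : ℤ) ∣ g * ((1 : ℤ) - ((a : ZMod D).val : ℤ)) := by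
        have h7 : ((D : ℕ) : ℤ) = g * ((D / g : ℕ) : ℤ) := by
          rw [← Nat.cast_mul, Nat.mul_div_cancel' hg]
        rw [h7]
        exact mul_dvd_mul_left _ h4
      rw [← ZMod.intCast_zmod_eq_zero_iff_dvd] at h6
      push_cast at h6
      rw [ZMod.natCast_zmod_val] at h6
      linear_combination -h6
    have h8 := hcon a h3
    ext
    rw [MulChar.coe_toUnitHom, h8]
    rfl
  have h9 : χ.conductor ≤ D / g := Nat.sInf_le h1
  have h10 : χ.conductor = D := hχ.prim
  omega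

theorem inn_ne_one [NeZero D] (hχ : QC D χ) {g : ℕ} (hg : g ∣ D) (hg1 : g ≠ 1) (c : ℕ) :
    inn D χ g c 0 = 0 := by
  obtain ⟨a, h1, h2⟩ := exists_unit hχ hg hg1
  rw [inn_zero]
  set S := ∑ x : ZMod D, (if (c : ZMod D) + g * x = 0 then χ x else 0) with hS
  have h3 : S = χ a * S := by
    conv_lhs => rw [hS]
    rw [← Equiv.sum_comp (Units.mulLeft a), hS, Finset.mul_sum]
    refine Finset.sum_congr rfl fun x _ => ?_
    have h4 : (g : ZMod D) * (Units.mulLeft a x) = g * x := by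
      rw [Units.mulLeft_apply, ← mul_assoc, h1]
    rw [h4]
    split_ifs
    · rw [Units.mulLeft_apply, map_mul]
    · rw [mul_zero]
  have h5 : (1 - χ a) * S = 0 := by
    linear_combination h3
  rcases mul_eq_zero.1 h5 with h6 | h6
  · exact absurd (sub_eq_zero.1 h6).symm h2
  · exact h6

theorem norm_ee_real (x : ℝ) : ‖ee x‖ = 1 := by
  unfold ee
  rw [show 2 * (Real.pi : ℂ) * Complex.I * x = ((2 * Real.pi * x : ℝ) : ℂ) * Complex.I by
    push_cast
    ring]
  exact Complex.norm_exp_ofReal_mul_I _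

theorem norm_inn_le (g c : ℕ) (q : ℤ) : ‖inn D χ g c q‖ ≤ D := by
  unfold inn
  refine (norm_sum_le _ _).trans ?_
  calc ∑ d ∈ Finset.range D, ‖om D χ g c d * ee (-((q : ℂ) * d / D))‖
      ≤ ∑ _d ∈ Finset.range D, (1 : ℝ) := by
        refine Finset.sum_le_sum fun d _ => ?_
        rw [norm_mul]
        have h1 : ‖ee (-((q : ℂ) * d / D))‖ = 1 := by
          have : (-((q : ℂ) * d / D)) = ((-((q : ℝ) * d / D) : ℝ) : ℂ) := by push_cast; rfl
          rw [this]
          exact norm_ee_real _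
        rw [h1, mul_one]
        exact norm_om_le g c d
    _ = D := by simp

theorem sG_eq (m g n : ℕ) (e : ℂ) : sG D χ m g n e =
    ∑ c ∈ ((n : ℤ) - ((m * D : ℕ) : ℤ)).natAbs.divisors,
      (c : ℂ) ^ (-(2 * e)) * inn D χ g c (((n : ℤ) - ((m * D : ℕ) : ℤ)) / c) := rfl

end GsXm

open GsXm Gsm in
theorem stGsX : StGsX := by
  intro D _ χ hχ hD1 g hg
  have hgD : g ∣ D := Nat.dvd_of_mem_divisors hg
  have hDc : (D : ℂ) ≠ 0 := by
    have : D ≠ 0 := by omega
    exact_mod_cast this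
  refine ⟨fun c d => om_add g c d c, fun c d => norm_om_le g c d, ?_, ?_⟩
  · intro m n e hn
    rw [sG_eq, Finset.mul_sum]
    refine (norm_sum_le _ _).trans (Finset.sum_le_sum fun c hc => ?_)
    have hc0 : 0 < c := Nat.pos_of_mem_divisors hc
    rw [norm_mul, mul_comm]
    have h1 : ‖(c : ℂ) ^ (-(2 * e))‖ = (c : ℝ) ^ (-(2 * e.re)) := by
      rw [Complex.norm_natCast_cpow_of_pos hc0]
      simp
    rw [h1]
    exact mul_le_mul_of_nonneg_right (norm_inn_le g c _) (Real.rpow_nonneg (Nat.cast_nonneg c) _)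
  intro r m t ht
  have hpow : ∀ c : ℕ, ((D * (c + 1) : ℕ) : ℂ) ^ (-(2 * (r : ℂ) + 1) - 2 * t) =
      (D : ℂ) ^ (-(2 * (r : ℂ) + 1) - 2 * t) * ((c + 1 : ℕ) : ℂ) ^
        (-(2 * (r : ℂ) + 1) - 2 * t) := by
    intro c
    rw [Nat.cast_mul, Complex.natCast_mul_natCast_cpow]
  refine ⟨?_, ?_⟩
  · intro n hn
    have hN : (n : ℤ) - ((m * D : ℕ) : ℤ) ≠ 0 := by
      intro h
      apply hn
      have := sub_eq_zero.1 h
      exact_mod_cast this
    have h2 := tsum_div ((n : ℤ) - ((m * D : ℕ) : ℤ)) hN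
      (fun d => (D : ℂ) ^ (-(2 * (r : ℂ) + 1) - 2 * t) *
        ((d : ℂ) ^ (-(2 * (t + r))) * inn D χ g d (((n : ℤ) - ((m * D : ℕ) : ℤ)) / d)))
    rw [sG_eq, Finset.mul_sum, ← h2]
    refine tsum_congr fun c => ?_
    rw [gs_X (by omega) g _ (c + 1) (by omega)]
    split_ifs
    · rw [← pow_aux (c + 1) (by omega), hpow]
      ring
    · rw [mul_zero]
  · have h3 : ∀ c : ℕ, ((D * (c + 1) : ℕ) : ℂ) ^ (-(2 * (r : ℂ) + 1) - 2 * t) *
        Gs D (om D χ g) (((m * D : ℕ) : ℤ) - ((m * D : ℕ) : ℤ)) (c + 1) = (D : ℂ) ^ (-(2 * (r : ℂ) + 1) - 2 * t) *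
          (((c + 1 : ℕ) : ℂ) ^ (-(2 * (t + r))) * inn D χ g (c + 1) 0) := by
      intro c
      rw [gs_X (by omega) g _ (c + 1) (by omega), sub_self, if_pos (dvd_zero _), Int.zero_ediv,
        ← pow_aux (c + 1) (by omega), hpow]
      ring
    simp only [h3]
    split_ifs with hg1
    · subst hg1
      have hs : 1 < (2 * (t + r)).re := by
        simp only [Complex.mul_re, Complex.re_ofNat, Complex.add_re, Complex.natCast_re,
          Complex.im_ofNat, zero_mul, sub_zero]
        linarith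
      rw [DirichletCharacter.LFunction_eq_LSeries χ hs, LSeries,
        (DirichletCharacter.LSeriesSummable_of_one_lt_re χ hs).tsum_eq_zero_add]
      rw [LSeries.term_zero, zero_add, ← tsum_mul_left, ← tsum_neg]
      refine tsum_congr fun c => ?_
      rw [inn_one hχ, LSeries.term_of_ne_zero (by omega), div_eq_mul_inv, ← Complex.cpow_neg]
      push_cast
      ring
    · simp only [inn_ne_one hχ hgD hg1, mul_zero, tsum_zero]

end RZ

end Pool.Agent.Lib.MP_7c08ba_nt
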