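import Mathlib
import Pool.Agent.Lib.MP_7c08ba_nt.RZ.StX
import Pool.Agent.Lib.MP_7c08ba_nt.RZ.EisAtD

set_option autoImplicit false

/-!
The trace of the theta series times the Eisenstein series in the region of convergence, every
imaginary quadratic field (module RZX-TrX).
-/

namespace Pool.Agent.Lib.MP_7c08ba_nt

namespace RZ

open NumberField MeasureTheory UpperHalfPlane Set IsDedekindDomain
open scoped MatrixGroups ComplexConjugate nonZeroDivisors

namespace TrXAux

variable {F : Type} [Field F] [NumberField F]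

/-- The character of an odd or even discriminant is odd, primitive and real. -/
theorem qc {D : ℕ} [NeZero D] {s : 𝓞 F} {σ : F →+* ℂ} {χ : DirichletCharacter ℂ D}
    {cj : 𝓞 F ≃+* 𝓞 F} (h : DatX D s σ χ cj) : QC D χ ∧ 1 < D := by
  rcases h with h | h
  · refine ⟨⟨EisAtD.prim h.odd h.chi, ?_, ?_⟩, by have := h.odd.2.2; omega⟩
    · have h1 := EisAtD.chi_neg h.odd h.chi 1
      rw [map_one] at h1
      exact h1
    · intro a
      obtain ⟨n, rfl⟩ := ZMod.intCast_surjective a
      rw [h.chi]
      rcases jacobiSym.trichotomy n D with h1 | h1 | h1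
      · left
        rw [h1, Int.cast_zero]
      · right
        left
        rw [h1, Int.cast_one]
      · right
        right
        rw [h1]
        simp
  · exact ⟨h.qc, by have := h.ev.1; omega⟩

/-- The powers of a positive number divided by `D`. -/
theorem pow_div {D : ℕ} (hD : 0 < D) {y : ℝ} (hy : 0 < y) (t : ℂ) :
    (D : ℂ) ^ t * (((y / D : ℝ) : ℂ)) ^ t = (y : ℂ) ^ t := by
  have hDR : (0 : ℝ) < D := by exact_mod_cast hD
  have h1 : ((y : ℝ) : ℂ) = (D : ℂ) * ((y / D : ℝ) : ℂ) := by
    push_cast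
    rw [mul_div_cancel₀]
    exact_mod_cast hD.ne'
  rw [h1]
  have h2 := Complex.mul_cpow_ofReal_nonneg (a := (D : ℝ)) (b := y / D) hDR.le
    (div_pos hy hDR).le t
  rw [← Complex.ofReal_natCast, h2]

theorem wid_self {D : ℕ} (hD : 0 < D) : wid D D = 1 := by
  unfold wid
  rw [Nat.div_self hD]
  simp [Nat.div_self hD]

end TrXAux

open TrXAux

/-- (X3) the trace in the region of convergence -/
theorem stTrX (h1 : StEisX) : StTrX := by
  intro D hD0 F _ _ s σ χ cj w k r ψ c θ hD hψ hθ hw t z ht hz
  obtain ⟨hqc, hD1⟩ := qc hD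
  have hDpos : 0 < D := by omega
  have hDC : (D : ℂ) ≠ 0 := by exact_mod_cast hDpos.ne'
  set L := DirichletCharacter.LFunction χ (2 * r + 1 + 2 * t) with hL
  -- the terms
  have hterm : ∀ g ∈ D.divisors, ∀ j : ℕ,
      ((1 - g * (z + j)) ^ w)⁻¹ * HN D χ k r ψ c t ((z + j) / (1 - g * (z + j))) =
        (if g = D then (∑' n : ℕ, θ g n * ee (n * (z + j) / D)) * ((z.im : ℂ) ^ t * L) else 0) +
        (D : ℂ) ^ t * GT D r (om D χ g) (θ g) t ((z + j) / D) := by
    intro g hg j
    have him : 0 < (z + (j : ℂ)).im := by simpa using hz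
    have hg0 : 0 < g := Nat.pos_of_mem_divisors hg
    have hgR : (0 : ℝ) < g := by exact_mod_cast hg0
    have hne : (1 - (g : ℂ) * (z + j)) ≠ 0 := by
      intro h
      have h2 := congrArg Complex.im h
      simp at h2
      rcases h2 with h2 | h2
      · exact absurd h2 (by positivity)
      · exact absurd h2 hz.ne'
    have e1 := (hθ.exp g hg (z + j) him).2
    have e2 := h1 D hD0 χ r hqc hD1 g hg t (z + j) ht him
    unfold HN
    rw [e1, e2]
    have him2 : (z + (j : ℂ)).im = z.im := by simp
    rw [him2]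
    set A := ∑' n : ℕ, θ g n * ee (n * (z + j) / D) with hA
    set B := ∑' p : ℕ × ℤ, om D χ g (p.1 + 1) p.2 * gE r t (((p.1 : ℂ) + 1) * (z + j) + p.2)
      with hB
    have hpow : (1 - (g : ℂ) * (z + j)) ^ w =
        (1 - g * (z + j)) ^ (k + 1) * (1 - g * (z + j)) ^ (2 * r + 1) := by
      rw [← pow_add]
      congr 1
      omega
    have hGT : (D : ℂ) ^ t * GT D r (om D χ g) (θ g) t ((z + j) / D) =
        A * ((z.im : ℂ) ^ t * B) := by
      unfold GT
      have f1 : (∑' n : ℕ, θ g n * ee (n * ((z + j) / D))) = A := by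
        rw [hA]
        refine tsum_congr fun n => ?_
        rw [mul_div_assoc]
      have f2 : (∑' p : ℕ × ℤ, om D χ g (p.1 + 1) p.2 *
          gE r t (D * ((p.1 : ℂ) + 1) * ((z + j) / D) + p.2)) = B := by
        rw [hB]
        refine tsum_congr fun p => ?_
        congr 2
        rw [mul_comm (D : ℂ), mul_assoc, mul_div_cancel₀ _ hDC]
      have f3 : (((z + j) / D : ℂ)).im = z.im / D := by
        rw [Complex.div_natCast_im, him2]
      rw [f1, f2, f3, ← pow_div hDpos hz t]
      ring
    rw [hGT, hpow]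
    have p1 := pow_ne_zero (k + 1) hne
    have p2 := pow_ne_zero (2 * r + 1) hne
    split_ifs with hgD
    · field_simp
      ring
    · field_simp
      ring
  unfold trE
  rw [Finset.sum_congr rfl fun g hg => Finset.sum_congr rfl fun j _ => hterm g hg j]
  simp_rw [Finset.sum_add_distrib, ← Finset.mul_sum]
  congr 1
  · have e3 : ∀ g ∈ D.divisors, (∑ j ∈ Finset.range (wid D g), if g = D then
        (∑' n : ℕ, θ g n * ee (n * (z + j) / D)) * ((z.im : ℂ) ^ t * L) else 0) =
        if g = D then L * (thψ k ψ c z * (z.im : ℂ) ^ t) else 0 := by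
      intro g _
      by_cases hgD : g = D
      · subst hgD
        simp only [if_true]
        rw [wid_self hDpos, Finset.sum_range_one, hθ.self z hz]
        simp only [Nat.cast_zero, add_zero]
        ring
      · simp only [if_neg hgD, Finset.sum_const_zero]
    rw [Finset.sum_congr rfl e3, Finset.sum_ite_eq', if_pos (Nat.mem_divisors_self D hDpos.ne')]

end RZ

end Pool.Agent.Lib.MP_7c08ba_nt
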