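import Mathlib
import Pool.Agent.Lib.MP_7c08ba_nt.RZ.StX
import Pool.Agent.Lib.MP_7c08ba_nt.RZ.JR
import Pool.Agent.Lib.MP_7c08ba_nt.RZ.TrX

set_option autoImplicit false

/-!
The integral for the Poincaré series of index `m`, explicitly, every imaginary quadratic field
(module RZX-JRX).
-/

namespace Pool.Agent.Lib.MP_7c08ba_nt

namespace RZ

open NumberField MeasureTheory UpperHalfPlane Set IsDedekindDomain
open scoped MatrixGroups ComplexConjugate nonZeroDivisors

namespace JRXAux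

open JRaux TrXAux

/-! ### linearity of the integrals -/

lemma JJ_sum {ι : Type} (w m : ℕ) (S : Finset ι) (a : ι → ℂ) (h : ι → ℂ → ℂ)
    (hc : ∀ i ∈ S, ∀ y : ℝ, 0 < y → Continuous (fun x : ℝ => h i (x + y * Complex.I)))
    (hi : ∀ i ∈ S, IntegrableOn (fun y : ℝ => (∫ x in (0 : ℝ)..1, h i (x + y * Complex.I) *
      ee (-(m : ℂ) * (x - y * Complex.I))) * (y : ℂ) ^ (w - 2)) (Ioi 0)) :
    IntegrableOn (fun y : ℝ => (∫ x in (0 : ℝ)..1, (∑ i ∈ S, a i * h i (x + y * Complex.I)) *
      ee (-(m : ℂ) * (x - y * Complex.I))) * (y : ℂ) ^ (w - 2)) (Ioi 0) ∧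
    JJ w m (fun z => ∑ i ∈ S, a i * h i z) = ∑ i ∈ S, a i * JJ w m (h i) := by
  have hE : ∀ y : ℝ, Continuous (fun x : ℝ => ee (-(m : ℂ) * (x - y * Complex.I))) := by
    intro y
    exact ee_cont.comp (by fun_prop)
  have key : ∀ y ∈ Ioi (0 : ℝ), (∫ x in (0 : ℝ)..1, (∑ i ∈ S, a i * h i (x + y * Complex.I)) *
        ee (-(m : ℂ) * (x - y * Complex.I))) * (y : ℂ) ^ (w - 2) =
      ∑ i ∈ S, a i * ((∫ x in (0 : ℝ)..1, h i (x + y * Complex.I) *
        ee (-(m : ℂ) * (x - y * Complex.I))) * (y : ℂ) ^ (w - 2)) := by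
    intro y hy
    simp only [mem_Ioi] at hy
    have j1 : ∀ i ∈ S, IntervalIntegrable (fun x : ℝ => a i * (h i (x + y * Complex.I) *
        ee (-(m : ℂ) * (x - y * Complex.I)))) volume 0 1 := fun i hiS =>
      (continuous_const.mul ((hc i hiS y hy).mul (hE y))).intervalIntegrable _ _
    have e : (∫ x in (0 : ℝ)..1, (∑ i ∈ S, a i * h i (x + y * Complex.I)) *
        ee (-(m : ℂ) * (x - y * Complex.I))) =
        ∑ i ∈ S, a i * ∫ x in (0 : ℝ)..1, h i (x + y * Complex.I) *
          ee (-(m : ℂ) * (x - y * Complex.I)) := by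
      have e1 : ∀ x : ℝ, (∑ i ∈ S, a i * h i (x + y * Complex.I)) *
          ee (-(m : ℂ) * (x - y * Complex.I)) = ∑ i ∈ S, a i * (h i (x + y * Complex.I) *
          ee (-(m : ℂ) * (x - y * Complex.I))) := by
        intro x
        rw [Finset.sum_mul]
        exact Finset.sum_congr rfl fun i _ => by ring
      simp_rw [e1]
      rw [intervalIntegral.integral_finsetSum j1]
      exact Finset.sum_congr rfl fun i _ => intervalIntegral.integral_const_mul _ _
    rw [e, Finset.sum_mul]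
    exact Finset.sum_congr rfl fun i _ => by ring
  have hint : IntegrableOn (fun y : ℝ => ∑ i ∈ S, a i * ((∫ x in (0 : ℝ)..1,
      h i (x + y * Complex.I) * ee (-(m : ℂ) * (x - y * Complex.I))) * (y : ℂ) ^ (w - 2)))
      (Ioi 0) := integrable_finsetSum _ fun i hiS => (hi i hiS).const_mul (a i)
  constructor
  · refine hint.congr_fun ?_ measurableSet_Ioi
    intro y hy
    exact (key y hy).symm
  · unfold JJ
    rw [setIntegral_congr_fun measurableSet_Ioi key]
    rw [integral_finsetSum _ fun i hiS => (hi i hiS).const_mul (a i)]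
    exact Finset.sum_congr rfl fun i _ => integral_const_mul _ _

/-- The Fourier series times a power of the imaginary part is continuous. -/
lemma cont_h1 (ρ : ℕ → ℂ) (t : ℂ)
    (hs : ∀ y : ℝ, 0 < y → Summable fun n : ℕ => ‖ρ n‖ * Real.exp (-(2 * Real.pi * n * y))) :
    ContinuousOn (fun z : ℂ => (∑' n : ℕ, ρ n * ee (n * z)) * (z.im : ℂ) ^ t)
      {z | 0 < z.im} := by
  intro z hz
  have hz : 0 < z.im := hz
  have hopen : IsOpen {z' : ℂ | z.im / 2 < z'.im} := isOpen_lt continuous_const Complex.continuous_im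
  have hmem : z ∈ {z' : ℂ | z.im / 2 < z'.im} := by
    show z.im / 2 < z.im
    linarith
  have c1 : ContinuousOn (fun z : ℂ => ∑' n : ℕ, ρ n * ee (n * z))
      {z' : ℂ | z.im / 2 < z'.im} := by
    refine continuousOn_tsum (u := fun n : ℕ => ‖ρ n‖ *
      Real.exp (-(2 * Real.pi * n * (z.im / 2)))) ?_ (hs _ (by linarith)) ?_
    · intro n
      exact (continuous_const.mul (ee_cont.comp (by fun_prop))).continuousOn
    · intro n z' hz'
      have hz' : z.im / 2 < z'.im := hz'
      rw [norm_mul, norm_ee]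
      refine mul_le_mul_of_nonneg_left (Real.exp_le_exp.2 ?_) (norm_nonneg _)
      have e : ((n : ℂ) * z').im = n * z'.im := by simp
      rw [e]
      have hn : (0 : ℝ) ≤ n := Nat.cast_nonneg n
      have := mul_le_mul_of_nonneg_left hz'.le hn
      nlinarith [Real.pi_pos]
  have c2 : ContinuousAt (fun z : ℂ => (z.im : ℂ) ^ t) z := by
    refine ContinuousAt.cpow ?_ continuousAt_const ?_
    · exact (Complex.continuous_ofReal.comp Complex.continuous_im).continuousAt
    · left
      simpa using hz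
  exact ((c1.continuousAt (hopen.mem_nhds hmem)).mul c2).continuousWithinAt

/-! ### periods -/

lemma sum_period (f : ℕ → ℂ) (v q : ℕ) (hf : ∀ j, f (j + v) = f j) :
    ∑ j ∈ Finset.range (v * q), f j = q * ∑ j ∈ Finset.range v, f j := by
  have hq : ∀ a j, f (v * a + j) = f j := by
    intro a
    induction a with
    | zero => intro j; simp
    | succ a ih =>
      intro j
      have : v * (a + 1) + j = (v * a + j) + v := by ring
      rw [this, hf, ih]
  induction q with
  | zero => simp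
  | succ q ih =>
    rw [Nat.mul_succ, Finset.sum_range_add, ih]
    simp_rw [hq]
    push_cast
    ring

lemma wid_mul {D g : ℕ} (hg : g ∈ D.divisors) :
    wid D g * (g * Nat.gcd g (D / g)) = D ∧ (D : ℤ) ∣ (g : ℤ) ^ 2 * wid D g := by
  obtain ⟨hgD, hD0⟩ := Nat.mem_divisors.1 hg
  obtain ⟨h, hh⟩ := hgD
  have hg0 : 0 < g := Nat.pos_of_mem_divisors hg
  have e1 : D / g = h := by rw [hh]; exact Nat.mul_div_cancel_left h hg0
  have hd : Nat.gcd g (D / g) ∣ h := by rw [e1]; exact Nat.gcd_dvd_right g h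
  have hdv : g * Nat.gcd g (D / g) ∣ D := by
    rw [hh]
    rw [← hh]
    exact Nat.mul_dvd_mul_left g hd |>.trans (by rw [hh])
  have hw : wid D g * (g * Nat.gcd g (D / g)) = D := Nat.div_mul_cancel hdv
  refine ⟨hw, ?_⟩
  obtain ⟨a, ha⟩ := Nat.gcd_dvd_left g (D / g)
  have : (g : ℤ) ^ 2 * wid D g = D * a := by
    have h1 : (g : ℤ) = (Nat.gcd g (D / g) : ℤ) * a := by exact_mod_cast ha
    have h2 : (wid D g : ℤ) * (g * (Nat.gcd g (D / g) : ℤ)) = D := by exact_mod_cast hw
    calc (g : ℤ) ^ 2 * wid D g = g * g * wid D g := by ring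
      _ = g * ((Nat.gcd g (D / g) : ℤ) * a) * wid D g := by rw [← h1]
      _ = (wid D g : ℤ) * (g * (Nat.gcd g (D / g) : ℤ)) * a := by ring
      _ = D * a := by rw [h2]
  rw [this]
  exact dvd_mul_right _ _

/-- The translates by the width of the cusp. -/
lemma per (D w g : ℕ) (H : ℂ → ℂ) (hg : g ∈ D.divisors)
    (hH : ∀ (γ : SL(2, ℤ)) (z : ℂ), 0 < z.im → (D : ℤ) ∣ γ 1 0 →
      H (((γ 0 0 : ℂ) * z + γ 0 1) / ((γ 1 0 : ℂ) * z + γ 1 1)) =
        ((γ 1 0 : ℂ) * z + γ 1 1) ^ w * H z) (v : ℂ) (hv : 0 < v.im) :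
    ((1 - (g : ℂ) * (v + wid D g)) ^ w)⁻¹ * H ((v + wid D g) / (1 - g * (v + wid D g))) =
      ((1 - (g : ℂ) * v) ^ w)⁻¹ * H (v / (1 - g * v)) := by
  have hg0 : 0 < g := Nat.pos_of_mem_divisors hg
  have hgR : (0 : ℝ) < g := by exact_mod_cast hg0
  set q := wid D g with hq
  have hne : ∀ u : ℂ, 0 < u.im → (1 - (g : ℂ) * u) ≠ 0 := by
    intro u hu h
    have h2 := congrArg Complex.im h
    simp at h2
    rcases h2 with h2 | h2
    · omega
    · exact absurd h2 hu.ne'
  have n1 := hne v hv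
  have hv' : 0 < (v + q : ℂ).im := by simpa using hv
  have n2 := hne (v + q) hv'
  have hdet : (1 + (g : ℤ) * q) * (1 - g * q) - q * (-((g : ℤ) ^ 2 * q)) = 1 := by ring
  let γ : SL(2, ℤ) := ⟨!![1 + (g : ℤ) * q, (q : ℤ); -((g : ℤ) ^ 2 * q), 1 - g * q], by
    rw [Matrix.det_fin_two_of]
    linear_combination hdet⟩
  have g00 : γ 0 0 = 1 + (g : ℤ) * q := rfl
  have g01 : γ 0 1 = (q : ℤ) := rfl
  have g10 : γ 1 0 = -((g : ℤ) ^ 2 * q) := rfl
  have g11 : γ 1 1 = 1 - (g : ℤ) * q := rfl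
  have him : 0 < (v / (1 - g * v)).im := by
    have e : (v / (1 - g * v)).im = v.im / Complex.normSq (1 - g * v) := by
      rw [Complex.div_im]
      simp
      ring
    rw [e]
    exact div_pos hv (Complex.normSq_pos.2 n1)
  have h1 := hH γ (v / (1 - g * v)) him (by
    rw [g10]
    exact (dvd_neg).2 (wid_mul hg).2)
  rw [g00, g01, g10, g11] at h1
  push_cast at h1
  have e1 : -((g : ℂ) ^ 2 * q) * (v / (1 - g * v)) + (1 - g * q) =
      (1 - g * (v + q)) / (1 - g * v) := by
    field_simp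
    ring
  have e2 : ((1 + (g : ℂ) * q) * (v / (1 - g * v)) + q) = (v + q) / (1 - g * v) := by
    field_simp
    ring
  rw [e1, e2] at h1
  have e3 : (v + q) / (1 - (g : ℂ) * v) / ((1 - g * (v + q)) / (1 - g * v)) =
      (v + q) / (1 - g * (v + q)) := div_div_div_cancel_right₀ n1 _ _
  rw [e3] at h1
  rw [h1, div_pow]
  have p1 := pow_ne_zero w n1
  have p2 := pow_ne_zero w n2
  field_simp

/-- The functions `Kp` with equal indices are homogeneous. -/
lemma Kp_hom (k r m D : ℕ) (t : ℂ) :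
    Kp k r (m * D) (m * D) t = (m : ℂ) ^ (t - k - 1) * Kp k r D D t := by
  unfold Kp
  have e : ∀ φ ∈ uIcc (0 : ℝ) Real.pi,
      Complex.exp (-((2 * r + 1) * φ * Complex.I)) * (Real.sin φ : ℂ) ^ (t + k + 2 * r) *
      ((((m * D : ℕ) : ℂ) + ((m * D : ℕ) : ℂ)) * Real.sin φ + Complex.I *
        ((((m * D : ℕ) : ℂ) - ((m * D : ℕ) : ℂ)) * Real.cos φ)) ^ (t - k - 1) =
      (m : ℂ) ^ (t - k - 1) * (Complex.exp (-((2 * r + 1) * φ * Complex.I)) *
      (Real.sin φ : ℂ) ^ (t + k + 2 * r) * (((D : ℂ) + D) * Real.sin φ + Complex.I *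
        (((D : ℂ) - D) * Real.cos φ)) ^ (t - k - 1)) := by
    intro φ hφ
    rw [uIcc_of_le Real.pi_pos.le] at hφ
    have hs : 0 ≤ Real.sin φ := Real.sin_nonneg_of_mem_Icc hφ
    have e1 : (((m * D : ℕ) : ℂ) + ((m * D : ℕ) : ℂ)) * Real.sin φ + Complex.I *
        ((((m * D : ℕ) : ℂ) - ((m * D : ℕ) : ℂ)) * Real.cos φ) =
        (((m : ℝ) : ℂ)) * (((2 * D * Real.sin φ : ℝ)) : ℂ) := by
      push_cast
      ring
    have e2 : ((D : ℂ) + D) * Real.sin φ + Complex.I * (((D : ℂ) - D) * Real.cos φ) =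
        (((2 * D * Real.sin φ : ℝ)) : ℂ) := by
      push_cast
      ring
    rw [e1, e2, Complex.mul_cpow_ofReal_nonneg (Nat.cast_nonneg m) (by positivity)]
    push_cast
    ring
  rw [intervalIntegral.integral_congr e, intervalIntegral.integral_const_mul]
  ring

lemma wid_one (D : ℕ) : wid D 1 = D := by
  unfold wid
  simp

lemma const_part {D m w k r : ℕ} [NeZero D] {χ : DirichletCharacter ℂ D} {t b : ℂ} (hD : 0 < D)
    (hm : 1 ≤ m) (hw : w = k + 2 * r + 2) :
    ((1 : ℕ) : ℂ) / D * ((D : ℂ) ^ w * ((D : ℂ) ^ t *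
      DirichletCharacter.LFunction χ (2 * r + 1 + 2 * t) *
      (b * Complex.Gamma (w - 1 + t) * (4 * Real.pi * ((m * D : ℕ) : ℂ)) ^
        (-((w : ℂ) - 1 + t))))) =
      b * (m : ℂ) ^ (-((k : ℂ) + 2 * r + 1 + t)) * T1 D χ k r t := by
  have hDC : (D : ℂ) ≠ 0 := by exact_mod_cast hD.ne'
  have e : ((w : ℂ) - 1 + t) = (k : ℂ) + 2 * r + 1 + t := by
    rw [hw]
    push_cast
    ring
  rw [e]
  set S : ℂ := (k : ℂ) + 2 * r + 1 + t with hS
  have e1 : (4 * Real.pi * ((m * D : ℕ) : ℂ)) ^ (-S) =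
      (4 * Real.pi : ℂ) ^ (-S) * ((m : ℂ) ^ (-S) * (D : ℂ) ^ (-S)) := by
    have h1 : (4 * Real.pi * ((m * D : ℕ) : ℂ)) =
        ((4 * Real.pi : ℝ) : ℂ) * ((((m : ℝ) * (D : ℝ) : ℝ)) : ℂ) := by
      push_cast
      ring
    have h2 : ((((m : ℝ) * (D : ℝ) : ℝ)) : ℂ) ^ (-S) = (m : ℂ) ^ (-S) * (D : ℂ) ^ (-S) := by
      rw [Complex.ofReal_mul, Complex.mul_cpow_ofReal_nonneg (by positivity) (by positivity),
        Complex.ofReal_natCast, Complex.ofReal_natCast]
    have h3 : ((4 * Real.pi : ℝ) : ℂ) = 4 * Real.pi := by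
      push_cast
      rfl
    rw [h1, Complex.mul_cpow_ofReal_nonneg (by positivity) (by positivity), h2, h3]
  have e2 : (D : ℂ) ^ w * ((D : ℂ) ^ t * (D : ℂ) ^ (-S)) = D := by
    rw [← Complex.cpow_natCast, ← Complex.cpow_add _ _ hDC, ← Complex.cpow_add _ _ hDC]
    have : ((w : ℕ) : ℂ) + (t + -S) = 1 := by
      rw [hS, hw]
      push_cast
      ring
    rw [this, Complex.cpow_one]
  rw [e1]
  unfold T1
  rw [← hS]
  calc ((1 : ℕ) : ℂ) / D * ((D : ℂ) ^ w * ((D : ℂ) ^ t *
      DirichletCharacter.LFunction χ (2 * r + 1 + 2 * t) *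
      (b * Complex.Gamma S * ((4 * Real.pi : ℂ) ^ (-S) * ((m : ℂ) ^ (-S) * (D : ℂ) ^ (-S))))))
      = ((1 : ℕ) : ℂ) / D * ((D : ℂ) ^ w * ((D : ℂ) ^ t * (D : ℂ) ^ (-S))) *
        (b * (m : ℂ) ^ (-S) * (DirichletCharacter.LFunction χ (2 * r + 1 + 2 * t) *
          Complex.Gamma S * (4 * Real.pi : ℂ) ^ (-S))) := by ring
    _ = _ := by
      rw [e2, Nat.cast_one, one_div, inv_mul_cancel₀ hDC, one_mul]

end JRXAux

open JRaux TrXAux JRXAux

/-- (X9) the integral for the Poincaré series of index `m`, explicitly -/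
theorem stJRX (_h1 : StTrX) (h2 : StYInt) (h3 : StI0) (h4 : StSc) (h5 : StGsX) (h6 : StPol)
    (h7 : StCom) (h8 : StEisX) : StJRX := by
  intro D hD0 F _ _ s σ χ cj w k r m ψ c θ hD hψ hθ hcop hw hm t ht1 ht2
  obtain ⟨hqc, hD1⟩ := qc hD
  have hDpos : 0 < D := by omega
  have hDC : (D : ℂ) ≠ 0 := by exact_mod_cast hDpos.ne'
  have hDR : (0 : ℝ) < D := by exact_mod_cast hDpos
  have hmC : (m : ℂ) ≠ 0 := by
    have : m ≠ 0 := by omega
    exact_mod_cast this
  have hmD : 1 ≤ m * D := Nat.mul_pos hm hDpos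
  have hr0 : (3 / 2 : ℝ) < r := by linarith
  have htk : t.re < (k : ℝ) + 1 := by
    have : (0 : ℝ) ≤ k := Nat.cast_nonneg k
    linarith
  have htr : -(r : ℝ) < t.re := by linarith
  have hw2 : 2 ≤ w := by omega
  have hwt : 1 - (w : ℝ) < t.re := by
    rw [hw]
    push_cast
    have : (0 : ℝ) ≤ k := Nat.cast_nonneg k
    linarith
  have hwe : k + 2 * r + 2 = w := hw.symm
  obtain ⟨-, -, -, -, hHN⟩ := h7 D hD0 F inferInstance inferInstance s σ χ cj hD
  obtain ⟨hlaw, -, -⟩ := hHN w k r ψ c hψ hw hcop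
  obtain ⟨-, -, hlaw, -, -⟩ := hlaw t (by linarith)
  set L := DirichletCharacter.LFunction χ (2 * r + 1 + 2 * t) with hL
  set H := HN D χ k r ψ c t with hH
  have hDdiv : D ∈ D.divisors := Nat.mem_divisors_self D hDpos.ne'
  -- the pieces
  set h1f : ℂ → ℂ := fun u => (∑' n : ℕ, θ D n * ee (n * u)) * (u.im : ℂ) ^ t with hh1f
  set h2f : ℕ → ℂ → ℂ := fun g => GT D r (om D χ g) (θ g) t with hh2f
  set a : ℕ → Bool → ℂ := fun g b => if b then (if g = D then (D : ℂ) ^ t * L else 0)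
    else (D : ℂ) ^ t with ha
  set hf : ℕ → Bool → ℂ → ℂ := fun g b => if b then h1f else h2f g with hhf
  set G : ℕ → ℂ → ℂ := fun g u => ∑ b : Bool, a g b * hf g b u with hG
  have hFG : ∀ g ∈ D.divisors, ∀ v : ℂ, 0 < v.im →
      ((1 - (g : ℂ) * v) ^ w)⁻¹ * H (v / (1 - g * v)) = G g (v / D) := by
    intro g hg v him
    have hg0 : 0 < g := Nat.pos_of_mem_divisors hg
    have hgR : (0 : ℝ) < g := by exact_mod_cast hg0
    have hne : (1 - (g : ℂ) * v) ≠ 0 := by
      intro h
      have h2 := congrArg Complex.im h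
      simp at h2
      rcases h2 with h2 | h2
      · omega
      · exact absurd h2 him.ne'
    have e1 := (hθ.exp g hg v him).2
    have e2 := h8 D hD0 χ r hqc hD1 g hg t v ht1 him
    rw [hH]
    unfold HN
    rw [e1, e2]
    set A := ∑' n : ℕ, θ g n * ee (n * v / D) with hA
    set B := ∑' p : ℕ × ℤ, om D χ g (p.1 + 1) p.2 * gE r t (((p.1 : ℂ) + 1) * v + p.2)
      with hB
    have hpow : (1 - (g : ℂ) * v) ^ w =
        (1 - g * v) ^ (k + 1) * (1 - g * v) ^ (2 * r + 1) := by
      rw [← pow_add]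
      congr 1
      omega
    have f3 : ((v / D : ℂ)).im = v.im / D := Complex.div_natCast_im _ _
    have hGT : (D : ℂ) ^ t * h2f g (v / D) = A * ((v.im : ℂ) ^ t * B) := by
      rw [hh2f]
      unfold GT
      have f1 : (∑' n : ℕ, θ g n * ee (n * (v / D))) = A := by
        rw [hA]
        refine tsum_congr fun n => ?_
        rw [mul_div_assoc]
      have f2 : (∑' p : ℕ × ℤ, om D χ g (p.1 + 1) p.2 *
          gE r t (D * ((p.1 : ℂ) + 1) * (v / D) + p.2)) = B := by
        rw [hB]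
        refine tsum_congr fun p => ?_
        congr 2
        rw [mul_comm (D : ℂ), mul_assoc, mul_div_cancel₀ _ hDC]
      simp only
      rw [f1, f2, f3, ← pow_div hDpos him t]
      ring
    rw [hG]
    simp only [Fintype.sum_bool, ha, hhf, if_true, Bool.false_eq_true, if_false]
    rw [hGT, hpow]
    have p1 := pow_ne_zero (k + 1) hne
    have p2 := pow_ne_zero (2 * r + 1) hne
    split_ifs with hgD
    · have e4 : (D : ℂ) ^ t * h1f (v / D) = A * (v.im : ℂ) ^ t := by
        rw [hh1f]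
        simp only
        rw [f3, ← pow_div hDpos him t, hA, hgD]
        have : (∑' n : ℕ, θ D n * ee (n * (v / D))) = ∑' n : ℕ, θ D n * ee (n * v / D) :=
          tsum_congr fun n => by rw [mul_div_assoc]
        rw [this]
        ring
      have e5 : (D : ℂ) ^ t * L * h1f (v / D) = L * (A * (v.im : ℂ) ^ t) := by
        rw [← e4]
        ring
      rw [e5]
      field_simp
      ring
    · field_simp
      ring
  -- the trace
  have htrace : ∀ z : ℂ, 0 < z.im → trE D w H z =
      ∑ g ∈ D.divisors, ((wid D g : ℂ) / D) * ∑ j ∈ Finset.range D, G g ((z + j) / D) := by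
    intro z hz
    unfold trE
    refine Finset.sum_congr rfl fun g hg => ?_
    have him : ∀ j : ℕ, 0 < (z + (j : ℂ)).im := fun j => by simpa using hz
    have hwd := (wid_mul hg).1
    set q := g * Nat.gcd g (D / g) with hq
    have hper : ∀ j : ℕ, G g ((z + ((j + wid D g : ℕ) : ℂ)) / D) = G g ((z + j) / D) := by
      intro j
      rw [← hFG g hg _ (him _), ← hFG g hg _ (him _)]
      have := per D w g H hg hlaw (z + j) (him j)
      have e : z + ((j + wid D g : ℕ) : ℂ) = z + j + wid D g := by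
        push_cast
        ring
      rw [e, this]
    have hs := sum_period (fun j => G g ((z + j) / D)) (wid D g) q hper
    rw [hwd] at hs
    rw [hs]
    have hwq : ((wid D g : ℂ) / D) * q = 1 := by
      rw [div_mul_eq_mul_div, div_eq_one_iff_eq hDC]
      exact_mod_cast hwd
    rw [← mul_assoc, hwq, one_mul]
    exact Finset.sum_congr rfl fun j _ => hFG g hg _ (him j)
  have hcong : JJ w m (trE D w H) = JJ w m (fun z => ∑ g ∈ D.divisors, ((wid D g : ℂ) / D) *
      ∑ j ∈ Finset.range D, G g ((z + j) / D)) := JJ_congr w m _ _ htrace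
  -- summability of the first piece
  have hsy : ∀ y : ℝ, 0 < y →
      Summable fun n : ℕ => ‖θ D n‖ * Real.exp (-(2 * Real.pi * n * y)) := by
    intro y hy
    have hy' : 0 < (((D : ℂ) * (y * Complex.I)).im) := by
      simp
      exact mul_pos hDR hy
    have := (hθ.exp D hDdiv ((D : ℂ) * (y * Complex.I)) hy').1
    refine this.congr ?_
    intro n
    rw [norm_mul]
    congr 1
    have e : (n : ℂ) * ((D : ℂ) * (y * Complex.I)) / D = n * (((0 : ℝ) : ℂ) + y * Complex.I) := by
      field_simp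
      push_cast
      ring
    rw [e, norm_ee_n]
  obtain ⟨I1, I2⟩ := h3 w (m * D) (θ D) t hw2 hmD hwt hsy
  have cG : ∀ (G : ℂ → ℂ), ContinuousOn G {z | 0 < z.im} → ∀ y : ℝ, 0 < y →
      Continuous (fun x : ℝ => G (x + y * Complex.I)) := by
    intro G hG y hy
    refine hG.comp_continuous (by fun_prop) ?_
    intro x
    simpa using hy
  have hbd : ∀ g ∈ D.divisors, ∀ n : ℕ, 1 ≤ n →
      ‖θ g n‖ ≤ (n.divisors.card : ℝ) * (n : ℝ) ^ ((k : ℝ) / 2) := by
    intro g hg n hn
    refine (hθ.bd g hg n hn).trans ?_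
    have hD1R : (1 : ℝ) ≤ D := by exact_mod_cast hDpos
    refine mul_le_mul_of_nonneg_left ?_ (Nat.cast_nonneg _)
    refine Real.rpow_le_rpow (by positivity) ?_ (by positivity)
    exact div_le_self (Nat.cast_nonneg n) hD1R
  -- the facts about the second piece
  have hY : ∀ g ∈ D.divisors, _ := fun g hg =>
    h2 k r (m * D) D (om D χ g) (θ g) t hmD hDpos
      (h5 D hD0 χ hqc hD1 g hg).1 (h5 D hD0 χ hqc hD1 g hg).2.1 ht1 htk
      (sum_bd k (θ g) t.re ht2 (hbd g hg))
  have hcf : ∀ g ∈ D.divisors, ∀ b ∈ (Finset.univ : Finset Bool),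
      ContinuousOn (hf g b) {z | 0 < z.im} := by
    intro g hg b _
    cases b
    · simp only [hhf, Bool.false_eq_true, if_false]
      exact (hY g hg).1
    · simp only [hhf, if_true]
      exact cont_h1 (θ D) t hsy
  have hif : ∀ g ∈ D.divisors, ∀ b ∈ (Finset.univ : Finset Bool),
      IntegrableOn (fun y : ℝ => (∫ x in (0 : ℝ)..1, hf g b (x + y * Complex.I) *
      ee (-((m * D : ℕ) : ℂ) * (x - y * Complex.I))) * (y : ℂ) ^ (w - 2)) (Ioi 0) := by
    intro g hg b _
    cases b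
    · simp only [hhf, Bool.false_eq_true, if_false]
      have := (hY g hg).2.1
      rw [hwe] at this
      exact this
    · simp only [hhf, if_true]
      exact I1
  have hGJ : ∀ g ∈ D.divisors, _ := fun g hg =>
    JJ_sum w (m * D) (Finset.univ : Finset Bool) (a g) (hf g)
      (fun b hb => cG _ (hcf g hg b hb)) (hif g hg)
  have hGc : ∀ g ∈ D.divisors, ContinuousOn (G g) {z | 0 < z.im} := by
    intro g hg
    exact continuousOn_finsetSum _ fun b hb => continuousOn_const.mul (hcf g hg b hb)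
  have hSc : ∀ g ∈ D.divisors, _ := fun g hg =>
    h4 D w m (G g) hDpos hw2 (hGc g hg) (hGJ g hg).1
  have hSum := JJ_sum w m D.divisors (fun g => (wid D g : ℂ) / D)
    (fun g z => ∑ j ∈ Finset.range D, G g ((z + j) / D)) (by
      intro g hg
      refine cG (fun z : ℂ => ∑ j ∈ Finset.range D, G g ((z + j) / D)) ?_
      refine continuousOn_finsetSum _ ?_
      intro j _
      refine (hGc g hg).comp (by fun_prop) ?_
      intro z hz
      have hz : 0 < z.im := hz
      show 0 < ((z + j) / D : ℂ).im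
      have : ((z + j) / D : ℂ).im = z.im / D := by
        rw [Complex.div_natCast_im]
        simp
      rw [this]
      positivity) (fun g hg => (hSc g hg).1)
  rw [hcong, hSum.2]
  have hval : ∀ g ∈ D.divisors, ((wid D g : ℂ) / D) *
      JJ w m (fun z => ∑ j ∈ Finset.range D, G g ((z + j) / D)) =
      (if g = D then bψ ψ m * (m : ℂ) ^ (-((k : ℂ) + 2 * r + 1 + t)) * T1 D χ k r t else 0) +
      ((if g = 1 then bψ ψ m * (m : ℂ) ^ (t - k - 1) *
          ((-Complex.I / Real.sqrt D) * (D : ℂ) ^ ((k : ℂ) + 1 - t) *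
            DirichletCharacter.LFunction χ (2 * (t + r)) * Kp k r D D t) else 0) +
      (D : ℂ) ^ ((k : ℂ) + 1 - t) * ∑' n : ℕ, if n = m * D then 0 else
        ((wid D g : ℂ) / D) * θ g n * sG D χ m g n (t + r) * Kp k r n (m * D) t) := by
    intro g hg
    rw [(hSc g hg).2, hG]
    rw [(hGJ g hg).2]
    simp only [Fintype.sum_bool, ha, hhf, if_true, Bool.false_eq_true, if_false]
    rw [mul_add, mul_add]
    congr 1
    · -- the constant term of the Eisenstein series
      by_cases hgD : g = D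
      · subst hgD
        simp only [if_true]
        rw [I2, hθ.top m hm, wid_self hDpos]
        exact const_part (D := g) hDpos hm hw
      · simp only [if_neg hgD, zero_mul, mul_zero]
    · obtain ⟨-, -, Y3, Y4⟩ := hY g hg
      obtain ⟨-, -, -, G0⟩ := h5 D hD0 χ hqc hD1 g hg
      obtain ⟨G1, G2⟩ := G0 r m t ht1
      rw [hwe] at Y4
      rw [show JJ w (m * D) (h2f g) = _ from Y4, (Y3.of_norm).tsum_eq_add_tsum_ite (m * D), G2,
        h6 k r (m * D) (m * D) t hmD htr htk, Kp_hom]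
      have hexp : (D : ℂ) ^ w * ((D : ℂ) ^ t * (D : ℂ) ^ (-(2 * (r : ℂ) + 1) - 2 * t)) =
          (D : ℂ) ^ ((k : ℂ) + 1 - t) := by
        rw [← Complex.cpow_natCast, ← Complex.cpow_add _ _ hDC, ← Complex.cpow_add _ _ hDC]
        congr 1
        rw [hw]
        push_cast
        ring
      rw [mul_add, mul_add, mul_add]
      congr 1
      · by_cases hg1 : g = 1
        · subst hg1
          simp only [if_true]
          rw [hθ.one m hm, wid_one, div_self hDC, ← hexp]
          ring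
        · simp only [if_neg hg1, mul_zero, zero_mul]
      · rw [← hexp, ← tsum_mul_left, ← tsum_mul_left, ← tsum_mul_left, ← tsum_mul_left]
        refine tsum_congr fun n => ?_
        by_cases hn : n = m * D
        · simp only [if_pos hn, mul_zero]
        · simp only [if_neg hn]
          rw [G1 n hn, h6 k r n (m * D) t hmD htr htk]
          ring
  rw [Finset.sum_congr rfl hval, Finset.sum_add_distrib, Finset.sum_add_distrib,
    Finset.sum_ite_eq', if_pos hDdiv, Finset.sum_ite_eq',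
    if_pos (Nat.one_mem_divisors.2 hDpos.ne'), ← Finset.mul_sum, ← add_assoc]
  refine congrArg _ ?_
  unfold SX
  congr 1
  have hsummable : ∀ g ∈ D.divisors, Summable fun n : ℕ => if n = m * D then (0 : ℂ) else
      ((wid D g : ℂ) / D) * θ g n * sG D χ m g n (t + r) * Kp k r n (m * D) t := by
    intro g hg
    obtain ⟨-, -, Y3, -⟩ := hY g hg
    obtain ⟨-, -, -, G0⟩ := h5 D hD0 χ hqc hD1 g hg
    obtain ⟨G1, -⟩ := G0 r m t ht1
    have hX : (D : ℂ) ^ (-(2 * (r : ℂ) + 1) - 2 * t) ≠ 0 := by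
      rw [Ne, Complex.cpow_eq_zero_iff]
      exact fun h => hDC h.1
    have hs := Y3.mul_left ‖((wid D g : ℂ) / D) * ((D : ℂ) ^ (-(2 * (r : ℂ) + 1) - 2 * t))⁻¹‖
    refine Summable.of_norm_bounded hs ?_
    intro n
    by_cases hn : n = m * D
    · simp only [if_pos hn, norm_zero]
      positivity
    · simp only [if_neg hn]
      rw [← norm_mul, G1 n hn, h6 k r n (m * D) t hmD htr htk]
      refine le_of_eq (congrArg _ ?_)
      generalize (D : ℂ) ^ (-(2 * (r : ℂ) + 1) - 2 * t) = X at hX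
      calc ((wid D g : ℂ) / D) * θ g n * sG D χ m g n (t + r) * Kp k r n (m * D) t =
          ((wid D g : ℂ) / D) * (X⁻¹ * X) * θ g n * sG D χ m g n (t + r) *
            Kp k r n (m * D) t := by rw [inv_mul_cancel₀ hX, mul_one]
        _ = _ := by ring
  rw [← Summable.tsum_finsetSum hsummable]
  refine tsum_congr fun n => ?_
  unfold uX OmX
  by_cases hn : n = m * D
  · simp only [if_pos hn, Finset.sum_const_zero]
  · simp only [if_neg hn]
    rw [Finset.sum_mul]

end RZ

end Pool.Agent.Lib.MP_7c08ba_nt
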