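import Pool.Agent.Lib.MP_7c08ba_nt.RZ.StX

set_option autoImplicit false

/-!
Module (X11): linear independence of the Jacobi polynomials on a finite set.
-/

namespace Pool.Agent.Lib.MP_7c08ba_nt

namespace RZ

namespace JacIAux

open Polynomial MeasureTheory intervalIntegral

noncomputable section

/-- The Jacobi polynomials as polynomials. -/
def PJ (k r : ℕ) : ℝ[X] :=
  ∑ i ∈ Finset.range (r + 1), C ((((k + r).choose i * r.choose i : ℕ)) : ℝ) *
    ((X - C 1) ^ i * X ^ (r - i))

theorem eval_PJ (k r : ℕ) (x : ℝ) : (PJ k r).eval x = Jac k r x := by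
  unfold PJ Jac
  rw [eval_finsetSum]
  refine Finset.sum_congr rfl fun i _ => ?_
  simp
  ring

theorem monic_term {r i : ℕ} (_ : i ≤ r) : ((X - C 1 : ℝ[X]) ^ i * X ^ (r - i)).Monic :=
  ((monic_X_sub_C (1 : ℝ)).pow i).mul (monic_X_pow _)

theorem natDegree_term {r i : ℕ} (hi : i ≤ r) :
    ((X - C 1 : ℝ[X]) ^ i * X ^ (r - i)).natDegree = r := by
  rw [((monic_X_sub_C (1 : ℝ)).pow i).natDegree_mul (monic_X_pow _),
    (monic_X_sub_C (1 : ℝ)).natDegree_pow, natDegree_X_sub_C, natDegree_X_pow]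
  omega

theorem coeff_PJ_gt (k r m : ℕ) (hm : r < m) : (PJ k r).coeff m = 0 := by
  unfold PJ
  rw [finsetSum_coeff]
  refine Finset.sum_eq_zero fun i hi => ?_
  have hi' : i ≤ r := Nat.lt_succ_iff.1 (Finset.mem_range.1 hi)
  rw [coeff_C_mul, coeff_eq_zero_of_natDegree_lt (by rw [natDegree_term hi']; exact hm), mul_zero]

theorem coeff_PJ (k r : ℕ) : 0 < (PJ k r).coeff r := by
  unfold PJ
  rw [finsetSum_coeff]
  have h : ∀ i ∈ Finset.range (r + 1), (C ((((k + r).choose i * r.choose i : ℕ)) : ℝ) *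
      ((X - C 1) ^ i * X ^ (r - i))).coeff r = (((k + r).choose i * r.choose i : ℕ) : ℝ) := by
    intro i hi
    have hi' : i ≤ r := Nat.lt_succ_iff.1 (Finset.mem_range.1 hi)
    have h1 := (monic_term hi').coeff_natDegree
    rw [natDegree_term hi'] at h1
    rw [coeff_C_mul, h1, mul_one]
  rw [Finset.sum_congr rfl h]
  refine Finset.sum_pos (fun i hi => ?_) ⟨0, by simp⟩
  have hi' : i ≤ r := Nat.lt_succ_iff.1 (Finset.mem_range.1 hi)
  have h1 : 0 < (k + r).choose i * r.choose i :=
    Nat.mul_pos (Nat.choose_pos (by omega)) (Nat.choose_pos hi')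
  exact_mod_cast h1

/-- The generating polynomial. -/
def FJ (k r : ℕ) : ℝ[X] := X ^ (k + r) * (X - C 1) ^ r

/-- Rodrigues' formula. -/
theorem rodrigues (k r : ℕ) : derivative^[r] (FJ k r) = C (r.factorial : ℝ) * (X ^ k * PJ k r) := by
  unfold FJ PJ
  rw [iterate_derivative_mul, Finset.mul_sum, Finset.mul_sum, ← Finset.sum_flip]
  refine Finset.sum_congr rfl fun i hi => ?_
  have hi' : i ≤ r := Nat.lt_succ_iff.1 (Finset.mem_range.1 hi)
  have h1 : r - (r - i) = i := by omega
  rw [h1, iterate_derivative_X_pow_eq_C_mul, iterate_derivative_X_sub_pow, h1]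
  have h2 : k + r - i = k + (r - i) := by omega
  rw [h2, pow_add]
  have h3 : (r.choose (r - i)) * ((k + r).descFactorial i * r.descFactorial (r - i)) =
      r.factorial * ((k + r).choose i * r.choose i) := by
    rw [Nat.descFactorial_eq_factorial_mul_choose, Nat.descFactorial_eq_factorial_mul_choose,
      Nat.choose_symm hi']
    have h4 := Nat.choose_mul_factorial_mul_factorial hi'
    rw [← h4]
    ring
  have h5 : ((r.choose (r - i) : ℕ) : ℝ[X]) *
      (((k + r).descFactorial i : ℕ) * ((r.descFactorial (r - i) : ℕ) : ℝ[X])) =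
      ((r.factorial : ℕ) : ℝ[X]) * (((k + r).choose i : ℕ) * ((r.choose i : ℕ) : ℝ[X])) := by
    exact_mod_cast congrArg (Nat.cast : ℕ → ℝ[X]) h3
  simp only [nsmul_eq_mul, map_natCast, Nat.cast_mul, map_mul]
  linear_combination (X ^ k * X ^ (r - i) * (X - C 1) ^ i) * h5

theorem root_zero (k r j : ℕ) (hj : j < r) : (derivative^[j] (FJ k r)).eval 0 = 0 := by
  have h1 : (X : ℝ[X]) ^ r ∣ FJ k r := by
    exact ⟨X ^ k * (X - C 1) ^ r, by unfold FJ; rw [pow_add]; ring⟩
  have h2 := pow_sub_dvd_iterate_derivative_of_pow_dvd j h1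
  have h3 : (X : ℝ[X]) ∣ X ^ (r - j) := dvd_pow_self _ (by omega)
  obtain ⟨g, hg⟩ := h3.trans h2
  rw [hg]
  simp

theorem root_one (k r j : ℕ) (hj : j < r) : (derivative^[j] (FJ k r)).eval 1 = 0 := by
  have h1 : (X - C 1 : ℝ[X]) ^ r ∣ FJ k r := Dvd.intro_left _ rfl
  have h2 := pow_sub_dvd_iterate_derivative_of_pow_dvd j h1
  have h3 : (X - C 1 : ℝ[X]) ∣ (X - C 1) ^ (r - j) := dvd_pow_self _ (by omega)
  obtain ⟨g, hg⟩ := h3.trans h2
  rw [hg]
  simp

/-- The integral over the unit interval. -/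
def J (p : ℝ[X]) : ℝ := ∫ x in (0 : ℝ)..1, p.eval x

theorem intb (p : ℝ[X]) : IntervalIntegrable (fun x => p.eval x) volume 0 1 :=
  p.continuous.intervalIntegrable _ _

theorem J_add (p q : ℝ[X]) : J (p + q) = J p + J q := by
  unfold J
  rw [← integral_add (intb p) (intb q)]
  simp

theorem J_smul (c : ℝ) (p : ℝ[X]) : J (C c * p) = c * J p := by
  unfold J
  rw [← intervalIntegral.integral_const_mul]
  simp

theorem J_deriv (p : ℝ[X]) : J (derivative p) = p.eval 1 - p.eval 0 := by
  unfold J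
  exact integral_eq_sub_of_hasDerivAt (fun x _ => p.hasDerivAt x) (intb _)

theorem J_parts (p q : ℝ[X]) (h0 : p.eval 0 = 0) (h1 : p.eval 1 = 0) :
    J (derivative p * q) = -J (p * derivative q) := by
  have h := J_deriv (p * q)
  rw [derivative_mul, J_add, eval_mul, eval_mul, h0, h1] at h
  linarith

theorem J_iter (k r : ℕ) (j : ℕ) (hj : j ≤ r) (q : ℝ[X]) :
    J (derivative^[j] (FJ k r) * q) = (-1) ^ j * J (FJ k r * derivative^[j] q) := by
  induction j generalizing q with
  | zero => simp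
  | succ j ih =>
    rw [Function.iterate_succ_apply', J_parts _ _ (root_zero k r j hj) (root_one k r j hj),
      ih (by omega), ← Function.iterate_succ_apply, pow_succ]
    ring

/-- Orthogonality. -/
theorem ortho (k r : ℕ) (q : ℝ[X]) (hq : q.degree < r) : J (X ^ k * PJ k r * q) = 0 := by
  have h1 := J_iter k r r le_rfl q
  rw [iterate_derivative_eq_zero_of_degree_lt hq, mul_zero, rodrigues, mul_assoc, J_smul] at h1
  have h2 : J (0 : ℝ[X]) = 0 := by
    unfold J
    simp
  rw [h2, mul_zero] at h1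
  have h3 : (r.factorial : ℝ) ≠ 0 := by exact_mod_cast r.factorial_ne_zero
  exact (mul_eq_zero.1 h1).resolve_left h3

/-- Positivity. -/
theorem J_pos (k : ℕ) (p : ℝ[X]) (hp : p ≠ 0) : 0 < J (X ^ k * (p * p)) := by
  unfold J
  obtain ⟨c, hc, hpc⟩ : ∃ c ∈ Set.Ioo (0 : ℝ) 1, p.eval c ≠ 0 := by
    by_contra hcon
    push Not at hcon
    apply hp
    exact p.eq_zero_of_infinite_isRoot
      ((Set.Ioo_infinite (zero_lt_one' ℝ)).mono fun x hx => hcon x hx)
  refine integral_pos zero_lt_one (Polynomial.continuous _).continuousOn ?_ ⟨c, ⟨hc.1.le, hc.2.le⟩, ?_⟩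
  · intro x hx
    simp only [eval_mul, eval_pow, eval_X]
    exact mul_nonneg (pow_nonneg hx.1.le _) (mul_self_nonneg _)
  · simp only [eval_mul, eval_pow, eval_X]
    exact mul_pos (pow_pos hc.1 _) (mul_self_pos.2 hpc)

/-- A linear functional which kills all Jacobi polynomials is zero. -/
theorem span (k : ℕ) (Λ : ℝ[X] →ₗ[ℝ] ℝ) (h : ∀ r, Λ (PJ k r) = 0) (p : ℝ[X]) : Λ p = 0 := by
  have key : ∀ n : ℕ, ∀ p : ℝ[X], p.degree < n → Λ p = 0 := by
    intro n
    induction n with
    | zero =>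
      intro p hp
      have : p = 0 := by
        rw [degree_lt_iff_coeff_zero] at hp
        ext m
        rw [hp m (Nat.zero_le m), coeff_zero]
      rw [this, map_zero]
    | succ n ih =>
      intro p hp
      have hc := (coeff_PJ k n).ne'
      set c : ℝ := p.coeff n / (PJ k n).coeff n with hcdef
      have h1 : Λ (p - c • PJ k n) = 0 := by
        refine ih _ ?_
        rw [degree_lt_iff_coeff_zero]
        intro m hm
        rw [coeff_sub, coeff_smul, smul_eq_mul]
        rcases Nat.eq_or_lt_of_le hm with rfl | hm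
        · rw [hcdef, div_mul_cancel₀ _ hc, sub_self]
        · rw [coeff_PJ_gt k n m hm, mul_zero, sub_zero]
          rw [degree_lt_iff_coeff_zero] at hp
          exact hp m (by omega)
      rw [map_sub, map_smul, h n, smul_zero, sub_zero] at h1
      exact h1
  refine key (p.natDegree + 1) p ?_
  rw [degree_lt_iff_coeff_zero]
  intro m hm
  exact coeff_eq_zero_of_natDegree_lt (by omega)

theorem degree_PJ_lt (k : ℕ) {j r : ℕ} (h : j < r) : (PJ k j).degree < r := by
  rw [degree_lt_iff_coeff_zero]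
  intro m hm
  exact coeff_PJ_gt k j m (by omega)

/-- The real case. -/
theorem real (k D : ℕ) (a : ℕ → ℝ) (hD : 1 ≤ D)
    (h : ∀ r : ℕ, 2 ≤ r → ∑ i ∈ Finset.range D, a i * Jac k r ((i : ℝ) / D) = 0) :
    ∀ i < D, a i = 0 := by
  have hD0 : (D : ℝ) ≠ 0 := by
    have : D ≠ 0 := by omega
    exact_mod_cast this
  -- the evaluation functional
  let Λ : ℝ[X] →ₗ[ℝ] ℝ :=
    ∑ i ∈ Finset.range D, a i • Polynomial.leval ((i : ℝ) / D)
  have hΛ : ∀ p : ℝ[X], Λ p = ∑ i ∈ Finset.range D, a i * p.eval ((i : ℝ) / D) := by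
    intro p
    show (∑ i ∈ Finset.range D, a i • Polynomial.leval ((i : ℝ) / D)) p = _
    rw [LinearMap.sum_apply]
    rfl
  have hP0 : PJ k 0 ≠ 0 := fun h0 => by
    have := coeff_PJ k 0
    rw [h0, coeff_zero] at this
    exact lt_irrefl _ this
  have hP1 : PJ k 1 ≠ 0 := fun h0 => by
    have := coeff_PJ k 1
    rw [h0, coeff_zero] at this
    exact lt_irrefl _ this
  have hn0 := (J_pos k _ hP0).ne'
  have hn1 := (J_pos k _ hP1).ne'
  set l0 : ℝ := Λ (PJ k 0) / J (X ^ k * (PJ k 0 * PJ k 0)) with hl0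
  set l1 : ℝ := Λ (PJ k 1) / J (X ^ k * (PJ k 1 * PJ k 1)) with hl1
  set ℓ : ℝ[X] := C l0 * PJ k 0 + C l1 * PJ k 1 with hℓ
  -- the integral functional
  let I : ℝ[X] →ₗ[ℝ] ℝ :=
    { toFun := fun p => J (X ^ k * (ℓ * p))
      map_add' := fun p q => by
        rw [← J_add]
        congr 1
        ring
      map_smul' := fun c p => by
        rw [RingHom.id_apply, smul_eq_mul, ← J_smul, smul_eq_C_mul]
        congr 1
        ring }
  have hI : ∀ p, I p = J (X ^ k * (ℓ * p)) := fun _ => rfl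
  have h01 : J (X ^ k * (PJ k 0 * PJ k 1)) = 0 := by
    have := ortho k 1 (PJ k 0) (degree_PJ_lt k (by norm_num))
    rw [← this]
    congr 1
    ring
  have h10 : J (X ^ k * (PJ k 1 * PJ k 0)) = 0 := by
    rw [mul_comm (PJ k 1)]
    exact h01
  have hker : ∀ p, (Λ - I) p = 0 := by
    refine span k _ fun r => ?_
    rw [LinearMap.sub_apply, hI]
    have hexp : ∀ p : ℝ[X], J (X ^ k * (ℓ * p)) =
        l0 * J (X ^ k * (PJ k 0 * p)) + l1 * J (X ^ k * (PJ k 1 * p)) := by
      intro p
      rw [← J_smul, ← J_smul, ← J_add]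
      congr 1
      rw [hℓ]
      ring
    rw [hexp]
    rcases Nat.lt_or_ge r 2 with hr | hr
    · interval_cases r
      · rw [h10, mul_zero, add_zero, hl0, div_mul_cancel₀ _ hn0, sub_self]
      · rw [h01, mul_zero, zero_add, hl1, div_mul_cancel₀ _ hn1, sub_self]
    · have e0 : J (X ^ k * (PJ k 0 * PJ k r)) = 0 := by
        have := ortho k r (PJ k 0) (degree_PJ_lt k (by omega))
        rw [← this]
        congr 1
        ring
      have e1 : J (X ^ k * (PJ k 1 * PJ k r)) = 0 := by
        have := ortho k r (PJ k 1) (degree_PJ_lt k (by omega))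
        rw [← this]
        congr 1
        ring
      rw [e0, e1, hΛ, Finset.sum_congr rfl (fun i _ => by rw [eval_PJ]), h r hr]
      ring
  -- the integral functional is zero
  let q : ℝ[X] := ∏ i ∈ Finset.range D, (X - C ((i : ℝ) / D))
  have hq0 : q ≠ 0 := Finset.prod_ne_zero_iff.2 fun i _ => X_sub_C_ne_zero _
  have hq : ∀ i < D, q.eval ((i : ℝ) / D) = 0 := by
    intro i hi
    show (∏ i ∈ Finset.range D, (X - C ((i : ℝ) / D))).eval _ = 0
    rw [eval_prod]
    exact Finset.prod_eq_zero (Finset.mem_range.2 hi) (by simp)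
  have hℓ0 : ℓ = 0 := by
    by_contra hne
    have h1 := hker (q * (q * ℓ))
    rw [LinearMap.sub_apply, hΛ, hI] at h1
    have h2 : ∑ i ∈ Finset.range D, a i * (q * (q * ℓ)).eval ((i : ℝ) / D) = 0 := by
      refine Finset.sum_eq_zero fun i hi => ?_
      rw [eval_mul, hq i (Finset.mem_range.1 hi), zero_mul, mul_zero]
    rw [h2, zero_sub, neg_eq_zero] at h1
    have h3 := J_pos k (q * ℓ) (mul_ne_zero hq0 hne)
    have h4 : X ^ k * (ℓ * (q * (q * ℓ))) = X ^ k * (q * ℓ * (q * ℓ)) := by ring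
    rw [h4] at h1
    exact h3.ne' h1
  have hΛ0 : ∀ p, Λ p = 0 := by
    intro p
    have h1 := hker p
    rw [LinearMap.sub_apply, hI, hℓ0, zero_mul, mul_zero] at h1
    have h2 : J (0 : ℝ[X]) = 0 := by
      unfold J
      simp
    rwa [h2, sub_zero] at h1
  intro i hi
  let g : ℝ[X] := ∏ j ∈ (Finset.range D).erase i, (X - C ((j : ℝ) / D))
  have h1 := hΛ0 g
  rw [hΛ, Finset.sum_eq_single i] at h1
  · rcases mul_eq_zero.1 h1 with h2 | h2
    · exact h2
    · exfalso
      have h3 : g.eval ((i : ℝ) / D) = ∏ j ∈ (Finset.range D).erase i, ((i : ℝ) / D - (j : ℝ) / D) := by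
        show (∏ j ∈ (Finset.range D).erase i, (X - C ((j : ℝ) / D))).eval _ = _
        rw [eval_prod]
        simp
      rw [h3, Finset.prod_eq_zero_iff] at h2
      obtain ⟨j, hj, hj2⟩ := h2
      rw [Finset.mem_erase] at hj
      apply hj.1
      have h4 : (i : ℝ) = j := by
        field_simp at hj2
        linarith
      exact_mod_cast h4.symm
  · intro j hj hji
    have : g.eval ((j : ℝ) / D) = 0 := by
      show (∏ j ∈ (Finset.range D).erase i, (X - C ((j : ℝ) / D))).eval _ = _
      rw [eval_prod]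
      exact Finset.prod_eq_zero (Finset.mem_erase.2 ⟨hji, hj⟩) (by simp)
    rw [this, mul_zero]
  · intro h2
    exact absurd (Finset.mem_range.2 hi) h2

end

end JacIAux

/-- (X11) linear independence of the Jacobi polynomials on a finite set -/
theorem stJacI : StJacI := by
  intro k D a hD h i hi
  have hre : ∀ i < D, (a i).re = 0 := by
    refine JacIAux.real k D (fun i => (a i).re) hD fun r hr => ?_
    have h1 := congrArg Complex.re (h r hr)
    rw [Complex.re_sum, Complex.zero_re] at h1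
    rw [← h1]
    refine Finset.sum_congr rfl fun j _ => ?_
    rw [Complex.re_mul_ofReal]
  have him : ∀ i < D, (a i).im = 0 := by
    refine JacIAux.real k D (fun i => (a i).im) hD fun r hr => ?_
    have h1 := congrArg Complex.im (h r hr)
    rw [Complex.im_sum, Complex.zero_im] at h1
    rw [← h1]
    refine Finset.sum_congr rfl fun j _ => ?_
    rw [Complex.im_mul_ofReal]
  exact Complex.ext (hre i hi) (him i hi)

end RZ

end Pool.Agent.Lib.MP_7c08ba_nt
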