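import Mathlib
import Pool.Agent.Lib.MP_7c08ba_nt.RZ.StR

set_option autoImplicit false

/-!
Size of the Jacobi polynomials: Cauchy estimate for the coefficients of
`(a + b T) ^ (k + r) * (- b + a T) ^ r`, `a ^ 2 + b ^ 2 = 1`.
-/

namespace Pool.Agent.Lib.MP_7c08ba_nt.RZ

namespace JacD

open Polynomial

theorem iter_poly (p : ℂ[X]) (n : ℕ) :
    iteratedDeriv n (fun z : ℂ => p.eval z) = fun z => (derivative^[n] p).eval z := by
  induction n with
  | zero => simp
  | succ n ih =>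
    rw [iteratedDeriv_succ, ih]
    funext z
    rw [Polynomial.deriv, Function.iterate_succ_apply']

theorem coeff_bound (p : ℂ[X]) (n : ℕ) (s C : ℝ) (hs : 0 < s)
    (hC : ∀ z : ℂ, ‖z‖ = s → ‖p.eval z‖ ≤ C) : ‖p.coeff n‖ ≤ C / s ^ n := by
  have h := Complex.norm_iteratedDeriv_le_of_forall_mem_sphere_norm_le (c := 0) (R := s) (C := C)
    (f := fun z : ℂ => p.eval z) n hs (Polynomial.differentiable p).diffContOnCl
    (fun z hz => hC z (by simpa using hz))
  rw [iter_poly] at h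
  have h2 : (derivative^[n] p).eval 0 = (n.factorial : ℂ) * p.coeff n := by
    rw [← coeff_zero_eq_eval_zero, coeff_iterate_derivative]
    simp [Nat.descFactorial_self]
  simp only [h2] at h
  rw [norm_mul, Complex.norm_natCast] at h
  have h3 : (0 : ℝ) < n.factorial := by exact_mod_cast n.factorial_pos
  rw [mul_div_assoc] at h
  exact le_of_mul_le_mul_left h h3

/-- the inequality of the means -/
theorem amgm (k r : ℕ) (hr : 1 ≤ r) (u v : ℝ) (hu : 0 ≤ u) (hv : 0 ≤ v)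
    (h : (u + v) * ((k : ℝ) + r) = k + 2 * r) :
    u ^ (k + r) * v ^ r ≤ ((r : ℝ) / (k + r)) ^ r := by
  have hr0 : (0 : ℝ) < r := by exact_mod_cast hr
  have hk0 : (0 : ℝ) ≤ k := Nat.cast_nonneg k
  have hkr : (0 : ℝ) < (k : ℝ) + r := by linarith
  have e1 : ∀ x : ℝ, x ≤ Real.exp (x - 1) := fun x => by
    have := Real.add_one_le_exp (x - 1)
    linarith
  have h1 : u ^ (k + r) ≤ Real.exp (((k : ℝ) + r) * (u - 1)) := by
    have := pow_le_pow_left₀ hu (e1 u) (k + r)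
    rw [← Real.exp_nat_mul] at this
    push_cast at this
    exact this
  have h2 : (v * ((k : ℝ) + r) / r) ^ r ≤ Real.exp ((r : ℝ) * (v * ((k : ℝ) + r) / r - 1)) := by
    have := pow_le_pow_left₀ (by positivity) (e1 (v * ((k : ℝ) + r) / r)) r
    rwa [← Real.exp_nat_mul] at this
  have h3 : u ^ (k + r) * (v * ((k : ℝ) + r) / r) ^ r ≤ 1 := by
    calc u ^ (k + r) * (v * ((k : ℝ) + r) / r) ^ r
        ≤ Real.exp (((k : ℝ) + r) * (u - 1)) * Real.exp ((r : ℝ) * (v * ((k : ℝ) + r) / r - 1)) :=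
          mul_le_mul h1 h2 (by positivity) (Real.exp_pos _).le
      _ = 1 := by
          rw [← Real.exp_add]
          have : ((k : ℝ) + r) * (u - 1) + (r : ℝ) * (v * ((k : ℝ) + r) / r - 1) = 0 := by
            field_simp
            linarith
          rw [this, Real.exp_zero]
  have h4 : v = (v * ((k : ℝ) + r) / r) * ((r : ℝ) / (k + r)) := by
    field_simp
  calc u ^ (k + r) * v ^ r
      = (u ^ (k + r) * (v * ((k : ℝ) + r) / r) ^ r) * ((r : ℝ) / (k + r)) ^ r := by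
        rw [mul_assoc, ← mul_pow, ← h4]
    _ ≤ 1 * ((r : ℝ) / (k + r)) ^ r := mul_le_mul_of_nonneg_right h3 (by positivity)
    _ = _ := one_mul _

/-- the polynomial whose coefficients are the Jacobi polynomials -/
noncomputable def P (k r : ℕ) (a b : ℝ) : ℂ[X] :=
  (C (a : ℂ) + C (b : ℂ) * X) ^ (k + r) * (C (-(b : ℂ)) + C (a : ℂ) * X) ^ r

theorem coeff_lin (n i : ℕ) (a b : ℂ) (hi : i ≤ n) :
    ((C a + C b * X) ^ n : ℂ[X]).coeff i = (n.choose i : ℂ) * a ^ (n - i) * b ^ i := by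
  rw [add_comm, add_pow]
  simp only [finsetSum_coeff]
  rw [Finset.sum_eq_single i]
  · rw [mul_pow, ← C_pow, ← C_pow, ← C_eq_natCast]
    rw [show (C (b ^ i) * X ^ i * C (a ^ (n - i)) * C ((n.choose i : ℕ) : ℂ) : ℂ[X]) =
      C ((n.choose i : ℂ) * a ^ (n - i) * b ^ i) * X ^ i by
        simp only [map_mul]; ring]
    rw [coeff_C_mul_X_pow]
    simp
  · intro j _ hj
    rw [mul_pow, ← C_pow, ← C_pow, ← C_eq_natCast]
    rw [show (C (b ^ j) * X ^ j * C (a ^ (n - j)) * C ((n.choose j : ℕ) : ℂ) : ℂ[X]) =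
      C ((n.choose j : ℂ) * a ^ (n - j) * b ^ j) * X ^ j by
        simp only [map_mul]; ring]
    rw [coeff_C_mul_X_pow]
    simp [Ne.symm hj]
  · intro h
    exact absurd (Finset.mem_range.2 (Nat.lt_succ_of_le hi)) h

theorem coeff_P (k r : ℕ) (a b : ℝ) (hab : a ^ 2 + b ^ 2 = 1) :
    (P k r a b).coeff r = ((a ^ k * Jac k r (a ^ 2) : ℝ) : ℂ) := by
  unfold P Jac
  rw [coeff_mul, Finset.Nat.sum_antidiagonal_eq_sum_range_succ_mk]
  rw [Finset.mul_sum]
  push_cast
  refine Finset.sum_congr rfl fun i hi => ?_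
  have hi' : i ≤ r := Nat.lt_succ_iff.1 (Finset.mem_range.1 hi)
  rw [coeff_lin _ _ _ _ (by omega), coeff_lin _ _ _ _ (by omega)]
  have h1 : ((a : ℂ) ^ 2 - 1) = (b : ℂ) * (-(b : ℂ)) := by
    have : ((a ^ 2 - 1 : ℝ) : ℂ) = ((b * (-b) : ℝ) : ℂ) := by
      congr 1
      linarith [hab, sq b]
    push_cast at this
    linear_combination this
  have h2 : r - (r - i) = i := by omega
  have h3 : k + r - i = k + (r - i) := by omega
  rw [h1, h2, h3, Nat.choose_symm hi', pow_add, mul_pow, ← pow_mul]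
  rw [show 2 * (r - i) = (r - i) + (r - i) by ring, pow_add]
  ring

theorem bound_P (k r : ℕ) (hr : 1 ≤ r) (a b s : ℝ) (hab : a ^ 2 + b ^ 2 = 1)
    (hs : 0 < s) (hs2 : s ^ 2 = (r : ℝ) / (k + r)) (z : ℂ) (hz : ‖z‖ = s) :
    ‖(P k r a b).eval z‖ ≤ s ^ r := by
  have hr0 : (0 : ℝ) < r := by exact_mod_cast hr
  have hk0 : (0 : ℝ) ≤ k := Nat.cast_nonneg k
  have hkr : (0 : ℝ) < (k : ℝ) + r := by linarith
  set A : ℂ := (a : ℂ) + b * z with hA
  set B : ℂ := -(b : ℂ) + a * z with hB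
  have e1 : (P k r a b).eval z = A ^ (k + r) * B ^ r := by
    simp [P, hA, hB]
  have hsum : ‖A‖ ^ 2 + ‖B‖ ^ 2 = 1 + s ^ 2 := by
    rw [← Complex.normSq_eq_norm_sq, ← Complex.normSq_eq_norm_sq, ← hz,
      ← Complex.normSq_eq_norm_sq]
    simp only [Complex.normSq_apply, hA, hB, Complex.add_re, Complex.add_im, Complex.mul_re,
      Complex.mul_im, Complex.ofReal_re, Complex.ofReal_im, Complex.neg_re, Complex.neg_im]
    linear_combination (1 + z.re ^ 2 + z.im ^ 2) * hab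
  have h1 := amgm k r hr (‖A‖ ^ 2) (‖B‖ ^ 2) (by positivity) (by positivity) (by
    rw [hsum, hs2]
    field_simp
    ring)
  rw [← hs2] at h1
  rw [e1, norm_mul, norm_pow, norm_pow]
  refine le_of_sq_le_sq ?_ (by positivity) 
  calc (‖A‖ ^ (k + r) * ‖B‖ ^ r) ^ 2 = (‖A‖ ^ 2) ^ (k + r) * (‖B‖ ^ 2) ^ r := by ring
    _ ≤ (s ^ 2) ^ r := h1
    _ = (s ^ r) ^ 2 := by ring

end JacD

open JacD in
/-- (R21) size of the Jacobi polynomials -/
theorem stJac : StJac := by
  intro k r x hx0 hx1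
  set a : ℝ := Real.sqrt x with ha
  set b : ℝ := Real.sqrt (1 - x) with hb
  have ha2 : a ^ 2 = x := Real.sq_sqrt hx0
  have hb2 : b ^ 2 = 1 - x := Real.sq_sqrt (by linarith)
  have ha0 : 0 ≤ a := Real.sqrt_nonneg _
  have hab : a ^ 2 + b ^ 2 = 1 := by rw [ha2, hb2]; ring
  have e1 : x ^ ((k : ℝ) / 2) = a ^ k := by
    rw [ha, Real.sqrt_eq_rpow, ← Real.rpow_natCast, ← Real.rpow_mul hx0]
    congr 1
    ring
  rw [e1]
  rcases Nat.eq_zero_or_pos r with rfl | hr
  · have : Jac k 0 x = 1 := by simp [Jac]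
    rw [this]
    have h1 : a ≤ 1 := by
      rw [ha]
      exact Real.sqrt_le_one.2 hx1
    simpa using pow_le_one₀ ha0 h1
  · have hr0 : (0 : ℝ) < r := by exact_mod_cast hr
    have hk0 : (0 : ℝ) ≤ k := Nat.cast_nonneg k
    have hkr : (0 : ℝ) < (k : ℝ) + r := by linarith
    set s : ℝ := Real.sqrt ((r : ℝ) / (k + r)) with hs
    have hs0 : 0 < s := Real.sqrt_pos.2 (by positivity)
    have hs2 : s ^ 2 = (r : ℝ) / (k + r) := Real.sq_sqrt (by positivity)
    have h := coeff_bound (P k r a b) r s (s ^ r) hs0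
      (fun z hz => bound_P k r hr a b s hab hs0 hs2 z hz)
    rw [coeff_P k r a b hab, div_self (by positivity), Complex.norm_real, Real.norm_eq_abs,
      abs_mul, abs_of_nonneg (pow_nonneg ha0 k), ha2] at h
    exact h

end Pool.Agent.Lib.MP_7c08ba_nt.RZ
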