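import Mathlib
import Pool.Agent.Lib.MP_7c08ba_nt.RZ.StRm
import Pool.Agent.Lib.MP_7c08ba_nt.RZ.Jac

set_option autoImplicit false

/-!
The second bound for the Jacobi polynomials: the mean over a circle of the polynomial
`(a + b T) ^ (k + r) * (- b + a T) ^ r`.
-/

namespace Pool.Agent.Lib.MP_7c08ba_nt.RZ

namespace JacSM

open MeasureTheory Polynomial Set

/-- Cauchy bound by the mean over a circle -/
theorem iter_int (f : ℂ → ℂ) (hf : Differentiable ℂ f) (n : ℕ) (s : ℝ) (hs : 0 < s) :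
    ‖iteratedDeriv n f 0‖ ≤ n.factorial * (((2 * Real.pi)⁻¹ *
      ∫ θ : ℝ in (0 : ℝ)..2 * Real.pi, ‖f (circleMap 0 s θ)‖) * s⁻¹ ^ n) := by
  have h := (hf.diffContOnCl (s := Metric.ball 0 s)).circleIntegral_one_div_sub_center_pow_smul hs n
  have h1 : (2 * (Real.pi : ℂ) * Complex.I / (n.factorial : ℂ)) ≠ 0 := by
    simp [Nat.factorial_ne_zero]
  have h2 : iteratedDeriv n f 0 = (n.factorial : ℂ) * ((2 * (Real.pi : ℂ) * Complex.I)⁻¹ *
      ∮ z in C(0, s), (z - 0)⁻¹ ^ n • (z - 0)⁻¹ • f z) := by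
    have e : (∮ z in C(0, s), (z - 0)⁻¹ ^ n • (z - 0)⁻¹ • f z) =
        ∮ z in C(0, s), (1 / (z - 0) ^ (n + 1)) • f z := by
      congr 1
      funext z
      simp only [smul_eq_mul, one_div, inv_pow, pow_succ, mul_inv]
      ring
    rw [e, h, smul_eq_mul]
    have h3 : (n.factorial : ℂ) ≠ 0 := by exact_mod_cast n.factorial_ne_zero
    have h4 : (2 * (Real.pi : ℂ) * Complex.I) ≠ 0 := Complex.two_pi_I_ne_zero
    field_simp
  rw [h2, norm_mul, Complex.norm_natCast]
  refine mul_le_mul_of_nonneg_left ?_ (by positivity)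
  have h5 := norm_cauchyPowerSeries_le f 0 s n
  rw [abs_of_pos hs] at h5
  refine le_trans ?_ h5
  simp [cauchyPowerSeries]

/-- the inequality for the logarithm, second order -/
theorem one_sub_le (y : ℝ) (hy : 0 ≤ y) (hy1 : y ≤ 1) : 1 - y ≤ Real.exp (-y - y ^ 2 / 2) := by
  rcases hy1.eq_or_lt with rfl | hy1
  · simpa using (Real.exp_pos _).le
  · have h := Real.hasSum_pow_div_log_of_abs_lt_one (x := y) (by rwa [abs_of_nonneg hy])
    have h2 : y + y ^ 2 / 2 ≤ -Real.log (1 - y) := by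
      have := sum_le_hasSum (Finset.range 2) (fun i _ => by positivity) h
      simp only [Finset.sum_range_succ, Finset.sum_range_zero] at this
      norm_num at this
      linarith
    have h3 : Real.log (1 - y) ≤ -y - y ^ 2 / 2 := by linarith
    calc 1 - y = Real.exp (Real.log (1 - y)) := (Real.exp_log (by linarith)).symm
      _ ≤ _ := Real.exp_le_exp.2 h3

/-- the pointwise inequality -/
theorem ptw (k r : ℕ) (hr : 1 ≤ r) (s δ : ℝ) (hs : 0 < s) (hs2 : s ^ 2 = (r : ℝ) / (k + r))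
    (h1 : 0 ≤ 1 + δ) (h2 : 0 ≤ s ^ 2 - δ) :
    (1 + δ) ^ (k + r) * (s ^ 2 - δ) ^ r ≤
      (s ^ 2) ^ r * Real.exp (-(((k : ℝ) + r) * δ ^ 2 / 2)) := by
  have hr0 : (0 : ℝ) < r := by exact_mod_cast hr
  have hk0 : (0 : ℝ) ≤ k := Nat.cast_nonneg k
  have hkr : (0 : ℝ) < (k : ℝ) + r := by linarith
  have hs2p : 0 < s ^ 2 := by positivity
  have hs21 : s ^ 2 ≤ 1 := by
    rw [hs2, div_le_one hkr]
    linarith
  have hrs : ((k : ℝ) + r) * s ^ 2 = r := by
    rw [hs2]; field_simp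
  have e3 : (s ^ 2 - δ) ^ r = (s ^ 2) ^ r * (1 - δ / s ^ 2) ^ r := by
    rw [← mul_pow]
    congr 1
    field_simp
  have h2' : 0 ≤ 1 - δ / s ^ 2 := by
    have : 1 - δ / s ^ 2 = (s ^ 2 - δ) / s ^ 2 := by field_simp
    rw [this]
    positivity
  rw [e3]
  suffices h : (1 + δ) ^ (k + r) * (1 - δ / s ^ 2) ^ r ≤
      Real.exp (-(((k : ℝ) + r) * δ ^ 2 / 2)) by
    calc (1 + δ) ^ (k + r) * ((s ^ 2) ^ r * (1 - δ / s ^ 2) ^ r)
        = (s ^ 2) ^ r * ((1 + δ) ^ (k + r) * (1 - δ / s ^ 2) ^ r) := by ring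
      _ ≤ _ := mul_le_mul_of_nonneg_left h (by positivity)
  rcases le_total 0 δ with hδ | hδ
  · -- positive case
    have a1 : (1 + δ) ^ (k + r) ≤ Real.exp (((k : ℝ) + r) * δ) := by
      have := pow_le_pow_left₀ h1 (by linarith [Real.add_one_le_exp δ] : 1 + δ ≤ Real.exp δ) (k + r)
      rw [← Real.exp_nat_mul] at this
      push_cast at this
      exact this
    have a2 : (1 - δ / s ^ 2) ^ r ≤
        Real.exp ((r : ℝ) * (-(δ / s ^ 2) - (δ / s ^ 2) ^ 2 / 2)) := by
      have := pow_le_pow_left₀ h2' (one_sub_le (δ / s ^ 2) (by positivity) (by linarith)) r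
      rwa [← Real.exp_nat_mul] at this
    calc (1 + δ) ^ (k + r) * (1 - δ / s ^ 2) ^ r
        ≤ Real.exp (((k : ℝ) + r) * δ) *
          Real.exp ((r : ℝ) * (-(δ / s ^ 2) - (δ / s ^ 2) ^ 2 / 2)) :=
          mul_le_mul a1 a2 (by positivity) (Real.exp_pos _).le
      _ = Real.exp (((k : ℝ) + r) * δ + (r : ℝ) * (-(δ / s ^ 2) - (δ / s ^ 2) ^ 2 / 2)) := by
          rw [Real.exp_add]
      _ ≤ _ := by
          rw [Real.exp_le_exp]
          have e4 : ∀ K R : ℝ, K * s ^ 2 = R →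
              K * δ + R * (-(δ / s ^ 2) - (δ / s ^ 2) ^ 2 / 2) =
                -(K * (δ ^ 2 / s ^ 2) / 2) := by
            intro K R h
            rw [← h]
            field_simp
            ring
          rw [e4 _ _ hrs]
          have : δ ^ 2 ≤ δ ^ 2 / s ^ 2 := by
            rw [le_div_iff₀ hs2p]
            nlinarith [sq_nonneg δ]
          have := mul_le_mul_of_nonneg_left this hkr.le
          linarith
  · -- negative case
    have a1 : (1 + δ) ^ (k + r) ≤ Real.exp (((k : ℝ) + r) * (δ - δ ^ 2 / 2)) := by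
      have := pow_le_pow_left₀ h1 (by
        have := one_sub_le (-δ) (by linarith) (by linarith)
        calc 1 + δ = 1 - -δ := by ring
          _ ≤ _ := this
          _ = Real.exp (δ - δ ^ 2 / 2) := by congr 1; ring
          : 1 + δ ≤ Real.exp (δ - δ ^ 2 / 2)) (k + r)
      rw [← Real.exp_nat_mul] at this
      push_cast at this
      exact this
    have a2 : (1 - δ / s ^ 2) ^ r ≤ Real.exp ((r : ℝ) * (-(δ / s ^ 2))) := by
      have := pow_le_pow_left₀ h2' (by linarith [Real.add_one_le_exp (-(δ / s ^ 2))] :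
        1 - δ / s ^ 2 ≤ Real.exp (-(δ / s ^ 2))) r
      rwa [← Real.exp_nat_mul] at this
    calc (1 + δ) ^ (k + r) * (1 - δ / s ^ 2) ^ r
        ≤ Real.exp (((k : ℝ) + r) * (δ - δ ^ 2 / 2)) * Real.exp ((r : ℝ) * (-(δ / s ^ 2))) :=
          mul_le_mul a1 a2 (by positivity) (Real.exp_pos _).le
      _ = Real.exp (((k : ℝ) + r) * (δ - δ ^ 2 / 2) + (r : ℝ) * (-(δ / s ^ 2))) := by
          rw [Real.exp_add]
      _ ≤ _ := by
          rw [Real.exp_le_exp]
          have e4 : ∀ K R : ℝ, K * s ^ 2 = R → R * (-(δ / s ^ 2)) = -(K * δ) := by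
            intro K R h
            rw [← h]
            field_simp
          rw [e4 _ _ hrs]
          linarith

/-- the measure of the set where the cosine is near a number -/
theorem vol_le (c η : ℝ) :
    (volume {φ : ℝ | φ ∈ Icc 0 Real.pi ∧ |Real.cos φ - c| ≤ η}) ≤
      ENNReal.ofReal (Real.pi * Real.sqrt η) := by
  refine (Real.volume_le_diam _).trans (Metric.ediam_le_of_forall_dist_le ?_)
  have key : ∀ x y : ℝ, x ∈ Icc 0 Real.pi → y ∈ Icc 0 Real.pi → |Real.cos x - c| ≤ η →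
      |Real.cos y - c| ≤ η → x ≤ y → y - x ≤ Real.pi * Real.sqrt η := by
    intro x y hx hy h1 h2 hxy
    have hc : Real.cos x - Real.cos y ≤ 2 * η := by
      have := (abs_le.1 h1).2
      have := (abs_le.1 h2).1
      linarith
    have hid : Real.cos x - Real.cos y = 2 * Real.sin ((y + x) / 2) * Real.sin ((y - x) / 2) := by
      rw [Real.cos_sub_cos]
      have : (x - y) / 2 = -((y - x) / 2) := by ring
      rw [this, Real.sin_neg, add_comm y x]
      ring
    have hpi := Real.pi_pos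
    have hs1 : 2 / Real.pi * ((y - x) / 2) ≤ Real.sin ((y - x) / 2) :=
      Real.mul_le_sin (by linarith) (by linarith [hx.1, hy.2])
    have hs2 : Real.sin ((y - x) / 2) ≤ Real.sin ((y + x) / 2) := by
      rcases le_total ((y + x) / 2) (Real.pi / 2) with h | h
      · exact Real.sin_le_sin_of_le_of_le_pi_div_two (by linarith) h (by linarith [hx.1])
      · rw [← Real.sin_pi_sub ((y + x) / 2)]
        exact Real.sin_le_sin_of_le_of_le_pi_div_two (by linarith) (by linarith)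
          (by linarith [hy.2])
    have hz : (0 : ℝ) ≤ (y - x) / Real.pi := by
      apply div_nonneg (by linarith) hpi.le
    have hs1' : (y - x) / Real.pi ≤ Real.sin ((y - x) / 2) := by
      calc (y - x) / Real.pi = 2 / Real.pi * ((y - x) / 2) := by ring
        _ ≤ _ := hs1
    have h3 : ((y - x) / Real.pi) ^ 2 ≤ η := by
      have : ((y - x) / Real.pi) * ((y - x) / Real.pi) ≤
          Real.sin ((y + x) / 2) * Real.sin ((y - x) / 2) :=
        mul_le_mul (hs1'.trans hs2) hs1' hz (hz.trans (hs1'.trans hs2))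
      nlinarith
    have h4 : (y - x) / Real.pi ≤ Real.sqrt η := Real.le_sqrt_of_sq_le h3
    rw [div_le_iff₀ hpi] at h4
    linarith
  intro x hx y hy
  rw [Real.dist_eq]
  rcases le_total x y with h | h
  · rw [abs_sub_comm, abs_of_nonneg (by linarith)]
    exact key x y hx.1 hy.1 hx.2 hy.2 h
  · rw [abs_of_nonneg (by linarith)]
    exact key y x hy.1 hx.1 hy.2 hx.2 h

/-- the integral over half of the circle -/
theorem half_le (l c η : ℝ) (hl : 0 < l) (hη : 0 ≤ η) :
    ∫ θ : ℝ in (0 : ℝ)..Real.pi, Real.exp (-(l * (Real.cos θ - c) ^ 2)) ≤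
      Real.pi * Real.sqrt η + Real.pi * Real.exp (-(l * η ^ 2)) := by
  set E : Set ℝ := {φ : ℝ | φ ∈ Icc 0 Real.pi ∧ |Real.cos φ - c| ≤ η} with hE
  have hEm : MeasurableSet E := by
    have h1 : IsClosed {φ : ℝ | |Real.cos φ - c| ≤ η} :=
      isClosed_le (by fun_prop) continuous_const
    exact (isClosed_Icc.inter h1).measurableSet
  have hpi := Real.pi_pos
  have hEv : volume E ≤ ENNReal.ofReal (Real.pi * Real.sqrt η) := vol_le c η
  rw [intervalIntegral.integral_of_le hpi.le]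
  have hfin : volume (Ioc 0 Real.pi) ≠ ⊤ := by simp
  have hI1 : IntegrableOn (fun θ : ℝ => Real.exp (-(l * (Real.cos θ - c) ^ 2)))
      (Ioc 0 Real.pi) :=
    (Continuous.integrableOn_Icc (by fun_prop)).mono_set Ioc_subset_Icc_self
  have hI2 : IntegrableOn (E.indicator (fun _ => (1 : ℝ))) (Ioc 0 Real.pi) :=
    (integrableOn_const hfin).indicator hEm
  have hI3 : IntegrableOn (fun _ : ℝ => Real.exp (-(l * η ^ 2))) (Ioc 0 Real.pi) :=
    integrableOn_const hfin
  calc ∫ θ in Ioc 0 Real.pi, Real.exp (-(l * (Real.cos θ - c) ^ 2))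
      ≤ ∫ θ in Ioc 0 Real.pi, (E.indicator (fun _ => (1 : ℝ)) θ + Real.exp (-(l * η ^ 2))) := by
        refine setIntegral_mono_on hI1 (hI2.add hI3) measurableSet_Ioc fun θ hθ => ?_
        by_cases h : θ ∈ E
        · rw [indicator_of_mem h]
          have h1 : Real.exp (-(l * (Real.cos θ - c) ^ 2)) ≤ 1 := by
            rw [Real.exp_le_one_iff]
            have : 0 ≤ l * (Real.cos θ - c) ^ 2 := by positivity
            linarith
          linarith [Real.exp_pos (-(l * η ^ 2))]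
        · rw [indicator_of_notMem h, zero_add, Real.exp_le_exp]
          have h1 : ¬ |Real.cos θ - c| ≤ η := fun h2 => h ⟨Ioc_subset_Icc_self hθ, h2⟩
          push Not at h1
          have h2 : η ^ 2 ≤ (Real.cos θ - c) ^ 2 := by
            rw [← sq_abs (Real.cos θ - c)]
            exact pow_le_pow_left₀ hη h1.le 2
          have := mul_le_mul_of_nonneg_left h2 hl.le
          linarith
    _ = (∫ θ in Ioc 0 Real.pi, E.indicator (fun _ => (1 : ℝ)) θ) +
          ∫ θ in Ioc 0 Real.pi, Real.exp (-(l * η ^ 2)) := integral_add hI2 hI3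
    _ ≤ _ := by
        refine add_le_add ?_ ?_
        · rw [setIntegral_indicator hEm, setIntegral_const, smul_eq_mul, mul_one]
          have h1 : volume (Ioc 0 Real.pi ∩ E) ≤ ENNReal.ofReal (Real.pi * Real.sqrt η) :=
            (measure_mono inter_subset_right).trans hEv
          calc volume.real (Ioc 0 Real.pi ∩ E)
              ≤ (ENNReal.ofReal (Real.pi * Real.sqrt η)).toReal :=
                ENNReal.toReal_mono ENNReal.ofReal_ne_top h1
            _ = _ := ENNReal.toReal_ofReal (by positivity)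
        · rw [setIntegral_const, smul_eq_mul]
          have : volume.real (Ioc 0 Real.pi) = Real.pi := by
            rw [Real.volume_real_Ioc_of_le hpi.le, sub_zero]
          rw [this]

/-- the integral over the circle -/
theorem circ_le (l c η : ℝ) (hl : 0 < l) (hη : 0 ≤ η) :
    ∫ θ : ℝ in (0 : ℝ)..2 * Real.pi, Real.exp (-(l * (Real.cos θ - c) ^ 2)) ≤
      2 * Real.pi * (Real.sqrt η + Real.exp (-(l * η ^ 2))) := by
  have hc : Continuous fun θ : ℝ => Real.exp (-(l * (Real.cos θ - c) ^ 2)) := by fun_prop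
  have h1 : (∫ θ : ℝ in (0 : ℝ)..Real.pi, Real.exp (-(l * (Real.cos θ - c) ^ 2))) +
      (∫ θ : ℝ in Real.pi..2 * Real.pi, Real.exp (-(l * (Real.cos θ - c) ^ 2))) =
      ∫ θ : ℝ in (0 : ℝ)..2 * Real.pi, Real.exp (-(l * (Real.cos θ - c) ^ 2)) :=
    intervalIntegral.integral_add_adjacent_intervals (hc.intervalIntegrable _ _)
      (hc.intervalIntegrable _ _)
  have h2 : (∫ θ : ℝ in Real.pi..2 * Real.pi, Real.exp (-(l * (Real.cos θ - c) ^ 2))) =
      ∫ θ : ℝ in (0 : ℝ)..Real.pi, Real.exp (-(l * (Real.cos θ - c) ^ 2)) := by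
    have := intervalIntegral.integral_comp_sub_left
      (fun θ : ℝ => Real.exp (-(l * (Real.cos θ - c) ^ 2))) (2 * Real.pi) (a := 0) (b := Real.pi)
    simp only [Real.cos_two_pi_sub, sub_zero] at this
    rw [this]
    congr 1
    ring
  rw [← h1, h2]
  have := half_le l c η hl hη
  nlinarith [Real.pi_pos]

/-- the coefficient is at most the mean over a circle -/
theorem coeff_int (p : ℂ[X]) (n : ℕ) (s : ℝ) (hs : 0 < s) :
    ‖p.coeff n‖ ≤ ((2 * Real.pi)⁻¹ *
      ∫ θ : ℝ in (0 : ℝ)..2 * Real.pi, ‖p.eval (circleMap 0 s θ)‖) * s⁻¹ ^ n := by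
  have h := iter_int (fun z : ℂ => p.eval z) (Polynomial.differentiable p) n s hs
  rw [JacD.iter_poly] at h
  have h2 : (derivative^[n] p).eval 0 = (n.factorial : ℂ) * p.coeff n := by
    rw [← coeff_zero_eq_eval_zero, coeff_iterate_derivative]
    simp [Nat.descFactorial_self]
  simp only [h2] at h
  rw [norm_mul, Complex.norm_natCast] at h
  have h3 : (0 : ℝ) < n.factorial := by exact_mod_cast n.factorial_pos
  exact le_of_mul_le_mul_left h h3

/-- the bound on the circle -/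
theorem eval_le (k r : ℕ) (hr : 1 ≤ r) (a b s : ℝ) (ha : 0 < a) (hab : a ^ 2 + b ^ 2 = 1)
    (hs : 0 < s) (hs2 : s ^ 2 = (r : ℝ) / (k + r)) (θ : ℝ) :
    ‖(JacD.P k r a b).eval (circleMap 0 s θ)‖ ≤ s ^ r *
      Real.exp (-(r * (a ^ 2 * b ^ 2) * (Real.cos θ - b * (1 - s ^ 2) / (2 * a * s)) ^ 2)) := by
  have hr0 : (0 : ℝ) < r := by exact_mod_cast hr
  have hk0 : (0 : ℝ) ≤ k := Nat.cast_nonneg k
  have hkr : (0 : ℝ) < (k : ℝ) + r := by linarith
  set z : ℂ := circleMap 0 s θ with hz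
  have hzre : z.re = s * Real.cos θ := by
    simp [hz, circleMap, Complex.exp_ofReal_mul_I_re]
  have hzim : z.im = s * Real.sin θ := by
    simp [hz, circleMap, Complex.exp_ofReal_mul_I_im]
  set A : ℂ := (a : ℂ) + b * z with hA
  set B : ℂ := -(b : ℂ) + a * z with hB
  have e1 : (JacD.P k r a b).eval z = A ^ (k + r) * B ^ r := by
    simp [JacD.P, hA, hB]
  set c : ℝ := b * (1 - s ^ 2) / (2 * a * s) with hc
  set δ : ℝ := 2 * a * b * s * (Real.cos θ - c) with hδ
  have hδ2 : δ = b ^ 2 * s ^ 2 - b ^ 2 + 2 * a * b * s * Real.cos θ := by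
    have : 2 * a * b * s * c = b ^ 2 * (1 - s ^ 2) := by
      rw [hc]
      field_simp
    rw [hδ, mul_sub, this]
    ring
  have hsc := Real.sin_sq_add_cos_sq θ
  have hAn : ‖A‖ ^ 2 = 1 + δ := by
    rw [← Complex.normSq_eq_norm_sq]
    simp only [Complex.normSq_apply, hA, Complex.add_re, Complex.add_im, Complex.mul_re,
      Complex.mul_im, Complex.ofReal_re, Complex.ofReal_im, hzre, hzim]
    rw [hδ2]
    linear_combination hab + (b ^ 2 * s ^ 2) * hsc
  have hBn : ‖B‖ ^ 2 = s ^ 2 - δ := by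
    rw [← Complex.normSq_eq_norm_sq]
    simp only [Complex.normSq_apply, hB, Complex.add_re, Complex.add_im, Complex.mul_re,
      Complex.mul_im, Complex.ofReal_re, Complex.ofReal_im, Complex.neg_re, Complex.neg_im,
      hzre, hzim]
    rw [hδ2]
    linear_combination (s ^ 2) * hab + (a ^ 2 * s ^ 2) * hsc
  have h1 := ptw k r hr s δ hs hs2 (by rw [← hAn]; positivity) (by rw [← hBn]; positivity)
  rw [← hAn, ← hBn] at h1
  have h2 : ((k : ℝ) + r) * s ^ 2 = r := by
    rw [hs2]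
    field_simp
  have h3 : ((k : ℝ) + r) * δ ^ 2 / 2 = 2 * (r * (a ^ 2 * b ^ 2) * (Real.cos θ - c) ^ 2) := by
    rw [hδ]
    linear_combination (2 * a ^ 2 * b ^ 2 * (Real.cos θ - c) ^ 2) * h2
  rw [h3] at h1
  rw [e1, norm_mul, norm_pow, norm_pow]
  refine le_of_sq_le_sq ?_ (by positivity)
  calc (‖A‖ ^ (k + r) * ‖B‖ ^ r) ^ 2 = (‖A‖ ^ 2) ^ (k + r) * (‖B‖ ^ 2) ^ r := by ring
    _ ≤ (s ^ 2) ^ r * Real.exp (-(2 * (r * (a ^ 2 * b ^ 2) * (Real.cos θ - c) ^ 2))) := h1
    _ = (s ^ r * Real.exp (-(r * (a ^ 2 * b ^ 2) * (Real.cos θ - c) ^ 2))) ^ 2 := by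
        rw [mul_pow, ← Real.exp_nat_mul]
        congr 1
        · ring
        · congr 1
          push_cast
          ring

/-- the final inequality in one variable -/
theorem fin_le (l : ℝ) (hl : 0 < l) :
    Real.sqrt (l ^ (-(2 : ℝ) / 5)) + Real.exp (-(l * (l ^ (-(2 : ℝ) / 5)) ^ 2)) ≤
      2 * l ^ (-(1 : ℝ) / 5) := by
  have e1 : Real.sqrt (l ^ (-(2 : ℝ) / 5)) = l ^ (-(1 : ℝ) / 5) := by
    rw [Real.sqrt_eq_rpow, ← Real.rpow_mul hl.le]
    norm_num
  have e2 : l * (l ^ (-(2 : ℝ) / 5)) ^ 2 = l ^ ((1 : ℝ) / 5) := by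
    rw [← Real.rpow_natCast (l ^ (-(2 : ℝ) / 5)) 2, ← Real.rpow_mul hl.le]
    nth_rewrite 1 [← Real.rpow_one l]
    rw [← Real.rpow_add hl]
    norm_num
  rw [e1, e2]
  have hp : 0 < l ^ ((1 : ℝ) / 5) := Real.rpow_pos_of_pos hl _
  have e3 : l ^ (-(1 : ℝ) / 5) = (l ^ ((1 : ℝ) / 5))⁻¹ := by
    rw [← Real.rpow_neg hl.le]
    norm_num
  have h1 : Real.exp (-(l ^ ((1 : ℝ) / 5))) ≤ (l ^ ((1 : ℝ) / 5))⁻¹ := by
    rw [Real.exp_neg]
    exact inv_anti₀ hp (by linarith [Real.add_one_le_exp (l ^ ((1 : ℝ) / 5))])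
  rw [e3]
  linarith

end JacSM

open JacSM in
/-- (Q9) the second bound for the Jacobi polynomials -/
theorem stJacS : StJacS := by
  intro k r x hr hx0 hx1
  set a : ℝ := Real.sqrt x with ha
  set b : ℝ := Real.sqrt (1 - x) with hb
  have ha2 : a ^ 2 = x := Real.sq_sqrt hx0.le
  have hb2 : b ^ 2 = 1 - x := Real.sq_sqrt (by linarith)
  have ha0 : 0 < a := Real.sqrt_pos.2 hx0
  have hab : a ^ 2 + b ^ 2 = 1 := by rw [ha2, hb2]; ring
  have e1 : x ^ ((k : ℝ) / 2) = a ^ k := by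
    rw [ha, Real.sqrt_eq_rpow, ← Real.rpow_natCast, ← Real.rpow_mul hx0.le]
    congr 1
    ring
  rw [e1]
  have hr0 : (0 : ℝ) < r := by exact_mod_cast hr
  have hk0 : (0 : ℝ) ≤ k := Nat.cast_nonneg k
  have hkr : (0 : ℝ) < (k : ℝ) + r := by linarith
  set s : ℝ := Real.sqrt ((r : ℝ) / (k + r)) with hs
  have hs0 : 0 < s := Real.sqrt_pos.2 (by positivity)
  have hs2 : s ^ 2 = (r : ℝ) / (k + r) := Real.sq_sqrt (by positivity)
  have h := coeff_int (JacD.P k r a b) r s hs0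
  rw [JacD.coeff_P k r a b hab, Complex.norm_real, Real.norm_eq_abs,
    abs_mul, abs_of_nonneg (pow_nonneg ha0.le k), ha2] at h
  refine h.trans ?_
  set l : ℝ := r * x * (1 - x) with hl
  have hl0 : 0 < l := mul_pos (mul_pos hr0 hx0) (by linarith)
  have hlab : (r : ℝ) * (a ^ 2 * b ^ 2) = l := by
    rw [ha2, hb2, hl]
    ring
  set c : ℝ := b * (1 - s ^ 2) / (2 * a * s) with hc
  have hη : 0 ≤ l ^ (-(2 : ℝ) / 5) := Real.rpow_nonneg hl0.le _
  have h1 : (∫ θ : ℝ in (0 : ℝ)..2 * Real.pi, ‖(JacD.P k r a b).eval (circleMap 0 s θ)‖) ≤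
      ∫ θ : ℝ in (0 : ℝ)..2 * Real.pi, s ^ r * Real.exp (-(l * (Real.cos θ - c) ^ 2)) := by
    refine intervalIntegral.integral_mono_on (by positivity) ?_ ?_ fun θ _ => ?_
    · exact (((JacD.P k r a b).continuous.comp (continuous_circleMap 0 s)).norm).intervalIntegrable
        _ _
    · exact Continuous.intervalIntegrable (by fun_prop) _ _
    · have := eval_le k r hr a b s ha0 hab hs0 hs2 θ
      rwa [hlab] at this
  rw [intervalIntegral.integral_const_mul] at h1
  have h2 := circ_le l c (l ^ (-(2 : ℝ) / 5)) hl0 hη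
  have h3 := fin_le l hl0
  have hpi := Real.pi_pos
  have hsr : 0 < s ^ r := pow_pos hs0 r
  calc (2 * Real.pi)⁻¹ * (∫ θ : ℝ in (0 : ℝ)..2 * Real.pi,
        ‖(JacD.P k r a b).eval (circleMap 0 s θ)‖) * s⁻¹ ^ r
      ≤ (2 * Real.pi)⁻¹ * (s ^ r * (2 * Real.pi * (2 * l ^ (-(1 : ℝ) / 5)))) * s⁻¹ ^ r := by
        refine mul_le_mul_of_nonneg_right (mul_le_mul_of_nonneg_left ?_ (by positivity))
          (by positivity)
        refine h1.trans (mul_le_mul_of_nonneg_left (h2.trans ?_) hsr.le)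
        exact mul_le_mul_of_nonneg_left h3 (by positivity)
    _ = 2 * l ^ (-(1 : ℝ) / 5) := by
        rw [inv_pow]
        field_simp

end Pool.Agent.Lib.MP_7c08ba_nt.RZ
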