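import Mathlib
import Pool.Agent.Lib.MP_7c08ba_nt.RZ.StX
import Pool.Agent.Lib.MP_7c08ba_nt.RZ.MainD
import Pool.Agent.Lib.MP_7c08ba_nt.RZ.MainE
import Pool.Agent.Lib.MP_7c08ba_nt.RZ.RSanN

set_option autoImplicit false

/-!
(X17) many eigenforms have a non-zero derivative at the centre, every discriminant.
-/

namespace Pool.Agent.Lib.MP_7c08ba_nt

namespace RZ

open NumberField MeasureTheory UpperHalfPlane Set IsDedekindDomain
open scoped MatrixGroups ComplexConjugate nonZeroDivisors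

namespace MainXAux

/-- The widths of the cusps, `D` squarefree. -/
theorem wid_eq {D g : ℕ} (hD : Squarefree D) (hg : g ∈ D.divisors) : wid D g = D / g := by
  obtain ⟨⟨c, rfl⟩, h0⟩ := Nat.mem_divisors.1 hg
  have hg0 : 0 < g := Nat.pos_of_ne_zero fun h => h0 (by rw [h, zero_mul])
  have h1 : Nat.Coprime g c := (Nat.squarefree_mul_iff.1 hD).1
  unfold wid
  rw [Nat.mul_div_cancel_left _ hg0, h1.gcd_eq_one, mul_one, Nat.mul_div_cancel_left _ hg0]

theorem trE_eq {D : ℕ} (hD : Squarefree D) (w : ℕ) (H : ℂ → ℂ) : trE D w H = trD D w H := by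
  funext u
  unfold trE trD
  refine Finset.sum_congr rfl fun g hg => ?_
  rw [wid_eq hD hg]

theorem rsE_eq {D w : ℕ} (hD : Squarefree D) (H : ℂ → ℂ) (f : CuspForm 𝒮ℒ (w : ℤ)) :
    rsE D H f = rsD D H f := by
  unfold rsE rsD
  rw [trE_eq hD]

/-- The integrand is integrable. -/
theorem integ (h3 : StFd) (h4 : StCoef) {D w : ℕ} (f : CuspForm 𝒮ℒ (w : ℤ)) (H : ℂ → ℂ)
    (hc : ContinuousOn (trE D w H) {u | 0 < u.im}) {C : ℝ} {N : ℕ}
    (hbd : ∀ z : ℂ, 1 / 2 ≤ z.im → |z.re| ≤ 1 / 2 → ‖trE D w H z‖ ≤ C * (z.im + 1) ^ N) :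
    IntegrableOn (fun z : ℍ => trE D w H z * f (ofComplex (-conj (z : ℂ))) *
      (z.im : ℂ) ^ w) ModularGroup.fd := by
  obtain ⟨hvol, hmeas, hfd⟩ := h3
  obtain ⟨-, -, -, -, C₂, hC₂⟩ := h4 w f
  have hc1 : Continuous fun z : ℍ => trE D w H z :=
    hc.comp_continuous UpperHalfPlane.continuous_coe fun z => z.im_pos
  have hc2 : Continuous fun z : ℍ => ((z.im : ℝ) : ℂ) ^ w :=
    (Complex.continuous_ofReal.comp UpperHalfPlane.continuous_im).pow w
  refine Measure.integrableOn_of_bounded (M := |C| * |C₂| * ((N + w).factorial *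
    Real.exp (2 * Real.pi))) hvol.ne ?_ ?_
  · exact ((hc1.mul (RSanNAux.cont_f f)).mul hc2).aestronglyMeasurable
  · refine (ae_restrict_iff' hmeas).2 (Filter.Eventually.of_forall fun z hz => ?_)
    obtain ⟨hz1, hz2⟩ := hfd z hz
    have h5 := hbd z hz1.le hz2
    have h6 := hC₂ (-conj (z : ℂ)) (by simpa using hz1.le)
    have h7 : (-conj (z : ℂ)).im = z.im := by simp
    rw [h7] at h6
    have hy : 0 ≤ z.im := z.im_pos.le
    have hy1 : 0 ≤ z.im + 1 := by linarith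
    have h8 : ‖trE D w H z‖ ≤ |C| * (z.im + 1) ^ N := by
      refine h5.trans ?_
      exact mul_le_mul_of_nonneg_right (le_abs_self C) (pow_nonneg hy1 N)
    have h9 : ‖f (ofComplex (-conj (z : ℂ)))‖ ≤ |C₂| * Real.exp (-(2 * Real.pi * z.im)) :=
      h6.trans (mul_le_mul_of_nonneg_right (le_abs_self C₂) (Real.exp_pos _).le)
    have h10 : ‖((z.im : ℝ) : ℂ) ^ w‖ ≤ (z.im + 1) ^ w := by
      rw [norm_pow, Complex.norm_real, Real.norm_eq_abs, abs_of_nonneg hy]
      exact pow_le_pow_left₀ hy (by linarith) w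
    rw [norm_mul, norm_mul]
    calc ‖trE D w H z‖ * ‖f (ofComplex (-conj (z : ℂ)))‖ *
          ‖((z.im : ℝ) : ℂ) ^ w‖
        ≤ |C| * (z.im + 1) ^ N * (|C₂| * Real.exp (-(2 * Real.pi * z.im))) *
          (z.im + 1) ^ w := by gcongr
      _ = |C| * |C₂| * ((z.im + 1) ^ (N + w) * Real.exp (-(2 * Real.pi * z.im))) := by
          rw [pow_add]; ring
      _ ≤ |C| * |C₂| * ((N + w).factorial * Real.exp (2 * Real.pi)) := by
          refine mul_le_mul_of_nonneg_left (RSanNAux.pow_exp_le' (N + w) hy) ?_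
          positivity

/-- The integral is additive in the form. -/
theorem rsE_add {D w : ℕ} (H : ℂ → ℂ) (f g : CuspForm 𝒮ℒ (w : ℤ))
    (hf : IntegrableOn (fun z : ℍ => trE D w H z * f (ofComplex (-conj (z : ℂ))) *
      (z.im : ℂ) ^ w) ModularGroup.fd)
    (hg : IntegrableOn (fun z : ℍ => trE D w H z * g (ofComplex (-conj (z : ℂ))) *
      (z.im : ℂ) ^ w) ModularGroup.fd) : rsE D H (f + g) = rsE D H f + rsE D H g := by
  unfold rsE
  rw [← integral_add hf hg]
  congr 1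
  funext z
  rw [add_apply]
  ring

theorem rsE_smul {D w : ℕ} (H : ℂ → ℂ) (a : ℂ) (f : CuspForm 𝒮ℒ (w : ℤ)) :
    rsE D H (a • f) = a * rsE D H f := by
  unfold rsE
  rw [← integral_const_mul]
  congr 1
  funext z
  rw [smul_apply, smul_eq_mul]
  ring

/-- The `L`-function. -/
theorem lam (h1 : StCom) (h3 : StRSN) (h3' : StRSNE) (h4 : StDnN) (h4' : StDnNE)
    (h5 : StEulN) (h5' : StEulNE)
    {q : ℕ} [hq0 : NeZero q] {F : Type} [Field F] [NumberField F] {s : 𝓞 F} {σ : F →+* ℂ}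
    {χ : DirichletCharacter ℂ q} {cj : 𝓞 F ≃+* 𝓞 F} {w k r : ℕ} (f : CuspForm 𝒮ℒ (w : ℤ))
    (ψ : Ideal (𝓞 F) →*₀ ℂ) (c₀ : Reps σ) (hD : DatX q s σ χ cj) (hf : IsEigen f)
    (hwk : w = k + 2 * r + 2) (hψ : IsHecke σ k ψ)
    (hcop : ∀ A, IsCoprime (c₀.R A : Ideal (𝓞 F)) (Ideal.span {s}))
    (hder : deriv (fun t => rsE q (HN q χ k r ψ c₀ t) f) (-r) ≠ 0) :
    ∃ Λ : ℂ → ℂ, DifferentiableOn ℂ Λ {z | -1 / 2 < z.re} ∧
      (∀ z : ℂ, 1 < z.re → HasProd (fun v : HeightOneSpectrum (𝓞 F) =>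
        (eulF f ψ (((w : ℂ) + k) / 2 + z) v)⁻¹) (Λ z)) ∧ Λ 0 = 0 ∧ deriv Λ 0 ≠ 0 := by
  obtain ⟨-, -, -, -, hcom⟩ := h1 q hq0 F _ _ s σ χ cj hD
  obtain ⟨-, han0, htr0⟩ := hcom w k r ψ c₀ hψ hwk hcop
  have han := han0 f
  obtain ⟨A, hA⟩ : ∃ A : ℝ, ∀ t : ℂ, A < t.re →
      rsE q (HN q χ k r ψ c₀ t) f = Complex.Gamma (k + 2 * r + 1 + t) *
        (4 * Real.pi : ℂ) ^ (-((k : ℂ) + 2 * r + 1 + t)) *
        DirichletCharacter.LFunction χ (2 * r + 1 + 2 * t) * Dn f ψ (k + 2 * r + 1 + t) := by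
    rcases hD with hD | hD
    · obtain ⟨A, hA⟩ := h3 q hq0 F _ _ s σ χ cj w k r f ψ c₀ hD hwk hψ
      exact ⟨A, fun t ht => by rw [rsE_eq hD.odd.1]; exact hA t ht⟩
    · exact h3' q hq0 F _ _ s σ χ cj w k r f ψ c₀ hD hwk hψ
  have hDn : DifferentiableOn ℂ (fun z => Dn f ψ (((w : ℂ) + k) / 2 + z)) {z | 1 < z.re} := by
    rcases hD with hD | hD
    · exact (h4 q F _ _ s σ χ cj w k f ψ hD (by omega) hψ).2
    · exact (h4' q F _ _ s σ χ cj w k f ψ hD (by omega) hψ).2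
  have hEul : ∀ z : ℂ, 1 < z.re →
      HasProd (fun v : HeightOneSpectrum (𝓞 F) => (eulF f ψ (((w : ℂ) + k) / 2 + z) v)⁻¹)
        (DirichletCharacter.LFunction χ (1 + 2 * z) * Dn f ψ (((w : ℂ) + k) / 2 + z)) := by
    rcases hD with hD | hD
    · exact h5 q hq0 F _ _ s σ χ cj w k f ψ hD hf hψ
    · exact h5' q hq0 F _ _ s σ χ cj w k f ψ hD hf hψ
  have hpi : (4 * Real.pi : ℂ) ≠ 0 := by
    have := Real.pi_ne_zero
    simp [this]
  have hcen : ((w : ℂ) + k) / 2 = k + r + 1 := by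
    rw [hwk]
    push_cast
    ring
  rw [hcen] at hDn hEul ⊢
  have hP : ∀ z : ℂ, (4 * Real.pi : ℂ) ^ z ≠ 0 := fun z => by
    rw [Complex.cpow_def_of_ne_zero hpi]
    exact Complex.exp_ne_zero _
  have hG : ∀ z : ℂ, -1 < z.re → Complex.Gamma ((k : ℂ) + r + 1 + z) ≠ 0 := fun z hz => by
    refine Complex.Gamma_ne_zero_of_re_pos ?_
    simp only [Complex.add_re, Complex.natCast_re, Complex.one_re]
    have : (0 : ℝ) ≤ k := Nat.cast_nonneg k
    have : (0 : ℝ) ≤ r := Nat.cast_nonneg r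
    linarith
  -- the factors
  let G : ℂ → ℂ := fun z => (4 * Real.pi : ℂ) ^ ((k : ℂ) + r + 1 + z) *
    (Complex.Gamma ((k : ℂ) + r + 1 + z))⁻¹
  let R : ℂ → ℂ := fun t => rsE q (HN q χ k r ψ c₀ t) f
  have hGd : Differentiable ℂ G := by
    have e1 : Differentiable ℂ fun z : ℂ => (k : ℂ) + r + 1 + z :=
      (differentiable_const _).add differentiable_id
    have e2 : Differentiable ℂ fun z : ℂ => (4 * Real.pi : ℂ) ^ ((k : ℂ) + r + 1 + z) :=
      e1.const_cpow (Or.inl hpi)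
    have e3 : Differentiable ℂ fun z : ℂ => (Complex.Gamma ((k : ℂ) + r + 1 + z))⁻¹ :=
      Complex.differentiable_one_div_Gamma.comp e1
    exact e2.mul e3
  -- the function
  let Λ : ℂ → ℂ := fun z => G z * R (z - r)
  have hΛ : DifferentiableOn ℂ Λ {z | -1 / 2 < z.re} := by
    refine hGd.differentiableOn.mul ?_
    refine han.comp (g := R) (f := fun z : ℂ => z - r)
      (differentiable_id.sub (differentiable_const _)).differentiableOn ?_
    intro z hz
    simp only [mem_ofPred_eq, Complex.sub_re, Complex.natCast_re] at hz ⊢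
    linarith
  have hEq : EqOn Λ (fun z => DirichletCharacter.LFunction χ (1 + 2 * z) *
      Dn f ψ ((k : ℂ) + r + 1 + z)) {z | 1 < z.re} := by
    have hopen : IsOpen {z : ℂ | 1 < z.re} := isOpen_lt continuous_const Complex.continuous_re
    have ha1 : AnalyticOnNhd ℂ Λ {z | 1 < z.re} :=
      (hΛ.mono fun z (hz : 1 < z.re) => by
        show -1 / 2 < z.re
        linarith).analyticOnNhd hopen
    have ha2 : AnalyticOnNhd ℂ (fun z => DirichletCharacter.LFunction χ (1 + 2 * z) *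
        Dn f ψ ((k : ℂ) + r + 1 + z)) {z | 1 < z.re} := by
      refine DifferentiableOn.analyticOnNhd (DifferentiableOn.mul ?_ hDn) hopen
      intro z hz
      refine DifferentiableAt.differentiableWithinAt ?_
      refine DifferentiableAt.comp (g := DirichletCharacter.LFunction χ)
        (f := fun z : ℂ => 1 + 2 * z) z
        (DirichletCharacter.differentiableAt_LFunction χ _ (Or.inl ?_)) ?_
      · intro h
        have h' := congrArg Complex.re h
        simp only [mem_ofPred_eq] at hz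
        simp at h'
        rw [h'] at hz
        norm_num at hz
      · exact ((differentiable_const _).add ((differentiable_const _).mul differentiable_id)) z
    -- the point where the two functions agree
    let z₀ : ℂ := ((max 1 (A + r) + 1 : ℝ) : ℂ)
    have hz₀ : z₀ ∈ {z : ℂ | 1 < z.re} := by
      show 1 < z₀.re
      rw [Complex.ofReal_re]
      have := le_max_left 1 (A + r)
      linarith
    refine ha1.eqOn_of_preconnected_of_eventuallyEq ha2
      (convex_halfSpace_re_gt 1).isPreconnected hz₀ ?_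
    have hev : ∀ᶠ z in nhds z₀, A + r < z.re :=
      (isOpen_lt continuous_const Complex.continuous_re).mem_nhds (by
        show A + r < z₀.re
        rw [Complex.ofReal_re]
        have := le_max_right 1 (A + r)
        linarith)
    have hev2 : ∀ᶠ z in nhds z₀, 1 < z.re := hopen.mem_nhds hz₀
    filter_upwards [hev, hev2] with z hz hz1
    have h9 := hA (z - r) (by
      rw [Complex.sub_re, Complex.natCast_re]
      linarith)
    have e1 : (k : ℂ) + 2 * r + 1 + (z - r) = (k : ℂ) + r + 1 + z := by ring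
    have e2 : 2 * (r : ℂ) + 1 + 2 * (z - r) = 1 + 2 * z := by ring
    rw [e1, e2] at h9
    have hG' := hG z (by linarith)
    have hP' := hP ((k : ℂ) + r + 1 + z)
    show (4 * Real.pi : ℂ) ^ ((k : ℂ) + r + 1 + z) *
      (Complex.Gamma ((k : ℂ) + r + 1 + z))⁻¹ * rsE q (HN q χ k r ψ c₀ (z - r)) f = _
    rw [h9, Complex.cpow_neg]
    field_simp
  have h0 : R (-r) = 0 := by
    show rsE q (HN q χ k r ψ c₀ (-r)) f = 0
    have hz : (fun z : ℍ => trE q w (HN q χ k r ψ c₀ (-r)) z *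
        f (ofComplex (-conj (z : ℂ))) * (z.im : ℂ) ^ w) = fun _ => 0 := by
      funext z
      rw [htr0 z z.im_pos, zero_mul, zero_mul]
    show ∫ z : ℍ in ModularGroup.fd, trE q w (HN q χ k r ψ c₀ (-r)) z *
        f (ofComplex (-conj (z : ℂ))) * (z.im : ℂ) ^ w = 0
    rw [hz, integral_zero]
  refine ⟨Λ, hΛ, ?_, ?_, ?_⟩
  · intro z hz
    rw [hEq hz]
    exact hEul z hz
  · show G 0 * R (0 - r) = 0
    rw [zero_sub, h0, mul_zero]
  · have hRd : DifferentiableAt ℂ R (-r) := by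
      refine han.differentiableAt ((isOpen_lt continuous_const Complex.continuous_re).mem_nhds ?_)
      show -(r : ℝ) - 1 / 2 < (-(r : ℂ)).re
      rw [Complex.neg_re, Complex.natCast_re]
      linarith
    have hR1 : HasDerivAt (fun z : ℂ => R (z - r)) (deriv R (-r)) 0 := by
      have h := hRd.hasDerivAt
      have e : (-(r : ℂ)) = 0 - r := (zero_sub _).symm
      rw [e] at h ⊢
      exact h.comp_sub_const 0 (r : ℂ)
    have hΛ1 := (hGd 0).hasDerivAt.mul hR1
    have e : Λ = G * fun z : ℂ => R (z - r) := rfl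
    rw [e, hΛ1.deriv, zero_sub, h0, mul_zero, zero_add]
    refine mul_ne_zero ?_ hder
    exact mul_ne_zero (hP _) (inv_ne_zero (hG 0 (by norm_num)))

end MainXAux

open MainXAux in
theorem stMainX (h1 : StManyX) (h4 : StCom) (h5 : StRSN) (h5' : StRSNE) (h6 : StDnN)
    (h6' : StDnNE) (h7 : StEulN) (h7' : StEulNE) (h8 : StChiE) : StMainX := by
  intro D F _ _ s σ N hDp hF hs
  have hD0 : NeZero D := ⟨by
    rcases hDp with h | h
    · have := h.2.2
      omega
    · have := h.1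
      omega⟩
  obtain ⟨s', χ, cj, hD⟩ : ∃ (s' : 𝓞 F) (χ : DirichletCharacter ℂ D) (cj : 𝓞 F ≃+* 𝓞 F),
      DatX D s' σ χ cj := by
    rcases hDp with h | h
    · obtain ⟨s', χ, cj, hD⟩ := MainDAux.exists_dat σ h hF hs
      exact ⟨s', χ, cj, Or.inl hD⟩
    · obtain ⟨s', χ, cj, hD⟩ := MainEAux.exists_dat h8 D hD0 σ h hF hs
      exact ⟨s', χ, cj, Or.inr hD⟩
  obtain ⟨r₀, hr₀⟩ := h1 D hD0 F _ _ s' σ χ cj N hD
  obtain ⟨-, ⟨c, hcop⟩, -, -, -⟩ := h4 D hD0 F _ _ s' σ χ cj hD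
  refine ⟨r₀, fun w k r ψ hw hr hψ => ?_⟩
  obtain ⟨S, hS, hSf⟩ := hr₀ w k r ψ c hψ hcop hw hr
  refine ⟨S, hS, fun f hf => ⟨(hSf f hf).1, ?_⟩⟩
  exact lam h4 h5 h5' h6 h6' h7 h7' f ψ c hD (hSf f hf).1 hw hψ hcop (hSf f hf).2

end RZ

end Pool.Agent.Lib.MP_7c08ba_nt
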