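import Pool.Agent.Lib.MP_7c08ba_nt.RZ.StXq
import Pool.Agent.Lib.MP_7c08ba_nt.RZ.MainX

/-!
RANK ONE, many forms, quantitative, every imaginary quadratic field (MP_7c08ba_nt), statement
`StMainQ`: from the non-vanishing derivative of `StManyQ` to the theorem on
`L(f × ψ, (w+k)/2 + z)`.
-/

namespace Pool.Agent.Lib.MP_7c08ba_nt

namespace RZ

open NumberField MeasureTheory UpperHalfPlane Set IsDedekindDomain
open scoped MatrixGroups ComplexConjugate nonZeroDivisors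

open MainXAux in
theorem stMainQ (h1 : StManyQ) (h4 : StCom) (h5 : StRSN) (h5' : StRSNE) (h6 : StDnN)
    (h6' : StDnNE) (h7 : StEulN) (h7' : StEulNE) (h8 : StChiE) : StMainQ := by
  intro D F _ _ s σ hDp hF hs
  have hD0 : NeZero D := ⟨by
    rcases hDp with h | h
    · have := h.2.2
      omega
    · have := h.1
      omega⟩
  obtain ⟨s', χ, cj, hD⟩ : ∃ (s' : 𝓞 F) (χ : DirichletCharacter ℂ D) (cj : 𝓞 F ≃+* 𝓞 F),
      DatX D s' σ χ cj := by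
    rcases hDp with h | h
    · obtain ⟨s', χ, cj, hD⟩ := MainDAux.exists_dat σ h hF hs
      exact ⟨s', χ, cj, Or.inl hD⟩
    · obtain ⟨s', χ, cj, hD⟩ := MainEAux.exists_dat h8 D hD0 σ h hF hs
      exact ⟨s', χ, cj, Or.inr hD⟩
  obtain ⟨r₀, hr₀⟩ := h1 D hD0 F _ _ s' σ χ cj hD
  obtain ⟨-, ⟨c, hcop⟩, -, -, -⟩ := h4 D hD0 F _ _ s' σ χ cj hD
  refine ⟨r₀, fun w k r ψ hw hr hψ => ?_⟩
  obtain ⟨S, hS, hSf⟩ := hr₀ w k r ψ c hψ hcop hw hr
  refine ⟨S, hS, fun f hf => ⟨(hSf f hf).1, ?_⟩⟩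
  exact lam h4 h5 h5' h6 h6' h7 h7' f ψ c hD (hSf f hf).1 hw hψ hcop (hSf f hf).2

end RZ

end Pool.Agent.Lib.MP_7c08ba_nt
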