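import Pool.Agent.Lib.MP_7c08ba_nt.RZ.StRm
import Pool.Agent.Lib.MP_7c08ba_nt.RZ.MainR
import Pool.Agent.Lib.MP_7c08ba_nt.RZ.R1.SpecD

set_option autoImplicit false

/-!
(Q17) many eigenforms have a non-zero derivative at the centre.
-/

namespace Pool.Agent.Lib.MP_7c08ba_nt

namespace RZ

open NumberField MeasureTheory UpperHalfPlane Set IsDedekindDomain
open scoped MatrixGroups ComplexConjugate nonZeroDivisors

namespace MainRmAux

open Spec SpanAux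

variable {w : ℕ}

/-- The coefficients of eigenforms at products of primes. -/
theorem coef_mul_prime {f : CuspForm 𝒮ℒ (w : ℤ)} (hf : IsEigen f) {p : ℕ} (hp : p.Prime) {m : ℕ}
    (hm0 : 0 < m) : coef f p * coef f m = coef f (p * m) +
      if p ∣ m then (p : ℂ) ^ (w - 1) * coef f (m / p) else 0 := by
  rw [hf.mul p m hp.pos hm0]
  by_cases hpn : p ∣ m
  · rw [if_pos hpn, Nat.gcd_eq_left hpn, hp.divisors, Finset.sum_pair hp.ne_one.symm]
    have h6 : p * m / p ^ 2 = m / p := by rw [pow_two, Nat.mul_div_mul_left _ _ hp.pos]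
    rw [h6]
    simp
  · have h6 : p.gcd m = 1 := (hp.coprime_iff_not_dvd).mpr hpn
    rw [if_neg hpn, h6, Nat.divisors_one, Finset.sum_singleton]
    simp

/-- The coefficients of eigenforms are real. -/
theorem coef_real_n (h1 : StPoi) (h2 : StPetU) (h3 : StCoef) (h4 : StFd) (hS : StSpan)
    (hT : StTrP) (hH : RZC.StHecke) (hw : 4 ≤ w) (hev : Even w) {f : CuspForm 𝒮ℒ (w : ℤ)}
    (hf : IsEigen f) (n : ℕ) : conj (coef f n) = coef f n := by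
  induction n using Nat.strong_induction_on with
  | _ n ih =>
  rcases Nat.eq_zero_or_pos n with rfl | hn
  · rw [(h3 w f).1, map_zero]
  rcases Nat.lt_or_ge 1 n with hn1 | hn1
  swap
  · have : n = 1 := by omega
    rw [this, hf.one, map_one]
  obtain ⟨p, hp, m, rfl⟩ := Nat.exists_prime_and_dvd (by omega : n ≠ 1)
  have hm0 : 0 < m := Nat.pos_of_ne_zero (by
    rintro rfl
    omega)
  have hm : m < p * m := by
    have := hp.two_le
    nlinarith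
  have key : coef f (p * m) = coef f p * coef f m -
      if p ∣ m then (p : ℂ) ^ (w - 1) * coef f (m / p) else 0 := by
    rw [coef_mul_prime hf hp hm0]
    ring
  rw [key, map_sub, map_mul, coef_real h1 h2 h3 h4 hS hT hH hw hev hf hp, ih m hm]
  congr 1
  split_ifs
  · rw [map_mul, map_pow, map_natCast, ih (m / p) (lt_of_le_of_lt (Nat.div_le_self m p) hm)]
  · rw [map_zero]

theorem cst_eq (w m : ℕ) (hm : 1 ≤ m) :
    cst w m = cst w 1 * ((m : ℝ) ^ (-(((w : ℝ) - 1) / 2)) * (m : ℝ) ^ (-(((w : ℝ) - 1) / 2))) := by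
  have hm' : (0 : ℝ) < m := by exact_mod_cast hm
  have hpi := Real.pi_pos
  have e1 : (1 / (4 * Real.pi * m) : ℝ) = 1 / (4 * Real.pi * (1 : ℕ)) * (m : ℝ)⁻¹ := by
    rw [Nat.cast_one, mul_one]
    field_simp
  unfold cst
  rw [e1, Real.mul_rpow (by positivity) (by positivity), ← Real.rpow_add hm',
    Real.inv_rpow hm'.le, ← Real.rpow_neg hm'.le]
  have e2 : -((w : ℝ) - 1) = -(((w : ℝ) - 1) / 2) + -(((w : ℝ) - 1) / 2) := by ring
  rw [e2]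
  ring

theorem pw_one {p : ℕ} (hp : 0 < p) (hw : 1 ≤ w) : ((p : ℂ) ^ (w - 1)) *
    ((((p : ℝ) ^ (-(((w : ℝ) - 1) / 2)) : ℝ) : ℂ) *
      (((p : ℝ) ^ (-(((w : ℝ) - 1) / 2)) : ℝ) : ℂ)) = 1 := by
  have hp' : (0 : ℝ) < p := by exact_mod_cast hp
  have e1 : ((p : ℂ) ^ (w - 1)) = (((p : ℝ) ^ ((w : ℝ) - 1) : ℝ) : ℂ) := by
    have e : ((w : ℝ) - 1) = ((w - 1 : ℕ) : ℝ) := by
      rw [Nat.cast_sub hw, Nat.cast_one]
    rw [e, Real.rpow_natCast]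
    push_cast
    rfl
  rw [e1, ← Complex.ofReal_mul, ← Complex.ofReal_mul, ← Real.rpow_add hp', ← Real.rpow_add hp']
  have e2 : (w : ℝ) - 1 + (-(((w : ℝ) - 1) / 2) + -(((w : ℝ) - 1) / 2)) = 0 := by ring
  rw [e2, Real.rpow_zero, Complex.ofReal_one]

/-- The derivative of the integrals for a sum of forms. -/
theorem sum_deriv (h1 : StHN) (h2 : StRSanN) (h3 : StFd) (h4 : StCoef) {D : ℕ} [hD0 : NeZero D]
    {F : Type} [Field F]
    [NumberField F] {s : 𝓞 F} {σ : F →+* ℂ} {χ : DirichletCharacter ℂ D} {cj : 𝓞 F ≃+* 𝓞 F}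
    {k r : ℕ} (ψ : Ideal (𝓞 F) →*₀ ℂ) (c : Reps σ)
    (hD : DatD D s σ χ cj) (hk : Even k) (hw : w = k + 2 * r + 2)
    (hco : ∀ A, IsCoprime (c.R A : Ideal (𝓞 F)) (Ideal.span {s}))
    (E : Finset (CuspForm 𝒮ℒ (w : ℤ))) (a : CuspForm 𝒮ℒ (w : ℤ) → ℂ) :
    HasDerivAt (fun t => rsD D (HN D χ k r ψ c t) (∑ f ∈ E, a f • f))
      (∑ f ∈ E, a f * deriv (fun t => rsD D (HN D χ k r ψ c t) f) (-r)) (-r) := by
  classical
  have hopen : IsOpen {t : ℂ | -(r : ℝ) - 1 / 2 < t.re} :=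
    isOpen_lt continuous_const Complex.continuous_re
  have hmem : (-(r : ℂ)) ∈ {t : ℂ | -(r : ℝ) - 1 / 2 < t.re} := by
    show -(r : ℝ) - 1 / 2 < (-(r : ℂ)).re
    rw [Complex.neg_re, Complex.natCast_re]
    linarith
  have hint : ∀ (f : CuspForm 𝒮ℒ (w : ℤ)) (t : ℂ), -(r : ℝ) - 1 / 2 < t.re →
      IntegrableOn (fun z : ℍ => trD D w (HN D χ k r ψ c t) z * f (ofComplex (-conj (z : ℂ))) *
        (z.im : ℂ) ^ w) ModularGroup.fd := fun f t ht =>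
    MainRAux.integ h1 h3 h4 f ψ c hD hk hw hco t ht
  have hd : ∀ f : CuspForm 𝒮ℒ (w : ℤ), HasDerivAt (fun t => rsD D (HN D χ k r ψ c t) f)
      (deriv (fun t => rsD D (HN D χ k r ψ c t) f) (-r)) (-r) := fun f =>
    ((h2 D hD0 F _ _ s σ χ cj w k r f ψ c hD hk hw hco).differentiableAt
      (hopen.mem_nhds hmem)).hasDerivAt
  induction E using Finset.induction_on with
  | empty =>
    have e : (fun t => rsD D (HN D χ k r ψ c t) (∑ f ∈ (∅ : Finset (CuspForm 𝒮ℒ (w : ℤ))),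
        a f • f)) = fun _ => 0 := by
      funext t
      rw [Finset.sum_empty]
      have h := MainRAux.rsD_smul (D := D) (HN D χ k r ψ c t) 0 (0 : CuspForm 𝒮ℒ (w : ℤ))
      rwa [zero_smul, zero_mul] at h
    rw [e, Finset.sum_empty]
    exact hasDerivAt_const _ _
  | insert f E hf ih =>
    simp only [Finset.sum_insert hf]
    have h := ((hd f).const_mul (a f)).add ih
    refine h.congr_of_eventuallyEq ?_
    filter_upwards [hopen.mem_nhds hmem] with t ht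
    rw [MainRAux.rsD_add _ _ _ (hint _ t ht) (hint _ t ht), MainRAux.rsD_smul]
    rfl

end MainRmAux

open MainRmAux MainRAux Spec SpanAux in
/-- (Q17) -/
theorem stMainRm (h1 : StEll) (h2 : StNum) (h3 : StCnt) (h4 : StThK) (h5 : StPoi)
    (h6 : StRSanN) (h7 : StTr0) (h8 : StRSN) (h9 : StDnN) (h10 : StEulN) (h11 : StRepsD)
    (h12 : StPsiD) (h13 : StHN) (h14 : StCoef) (h15 : StFd) (h16 : StPetU) (h17 : StSpan)
    (h18 : StTrP) (h19 : RZC.StHecke) : StMainRm := by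
  classical
  intro D F _ _ s σ hDp hD4 hD3 hF hs
  obtain ⟨s', χ, cj, hD⟩ := MainDAux.exists_dat σ ⟨hDp.squarefree, hD4, hD3⟩ hF hs
  have hD0 : NeZero D := ⟨by omega⟩
  obtain ⟨L, C, hL, hC, hell⟩ := h1 D hD0 F _ _ s' σ χ cj hD hDp
  obtain ⟨r₀, hr₀⟩ := h2 L C hL hC
  refine ⟨max r₀ 20, fun w k r ψ hw hr hψ => ?_⟩
  have hr1 : 20 ≤ r := (le_max_right _ _).trans hr
  have hr2 : r₀ ≤ r := (le_max_left _ _).trans hr
  obtain ⟨c, hcop⟩ := h11 D F _ _ s' σ χ cj hD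
  obtain ⟨hk, -⟩ := h12 D F _ _ s' σ χ cj k ψ hD hψ
  have hwe : Even w := by
    rw [hw]
    exact ((hk.add (even_two_mul r)).add even_two)
  have hw4 : 4 ≤ w := by omega
  obtain ⟨hrT, -, hrT1, -, -⟩ := h4 D F _ _ s' σ χ cj k ψ c hD hψ
  obtain ⟨z, hz, hP⟩ := hell w k r ψ c hψ hcop hw hr1
  obtain ⟨S, hS1, hS2, hS3⟩ := hr₀ r hr2
  obtain ⟨E, hE, hexp⟩ := expansion_poinc h5 h16 h14 h15 h17 h18 h19 hw4 hwe
  have hPex : ∀ m : ℕ, ∃ P : CuspForm 𝒮ℒ (w : ℤ), 1 ≤ m → ∀ z : ℍ, P z = poinc w m z := by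
    intro m
    by_cases hm : 1 ≤ m
    · obtain ⟨P, hP⟩ := h5 w m (by omega) hwe hm
      exact ⟨P, fun _ => hP⟩
    · exact ⟨0, fun h => absurd h hm⟩
  choose P hPp using hPex
  -- the functional
  let ell : CuspForm 𝒮ℒ (w : ℤ) → ℂ := fun f =>
    deriv (fun t => rsD D (HN D χ k r ψ c t) f) (-r)
  set N : ℝ := ((k + r).factorial : ℝ) * ((4 * Real.pi) ^ (k + r + 1))⁻¹ with hN
  have hN0 : 0 < N := by
    have := Real.pi_pos
    have h := Nat.factorial_pos (k + r)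
    positivity
  have hNC : (N : ℂ) ≠ 0 := by exact_mod_cast hN0.ne'
  let μ : CuspForm 𝒮ℒ (w : ℤ) → ℂ := fun f => (cst w 1 : ℂ) * ell f / (pet f f * N)
  let a : ℝ := ((w : ℝ) - 1) / 2
  let l : ℕ → CuspForm 𝒮ℒ (w : ℤ) → ℂ := fun p f => coef f p * (((p : ℝ) ^ (-a) : ℝ) : ℂ)
  let g : ℕ → ℂ := fun m => (((m : ℝ) ^ a : ℝ) : ℂ) * ell (P m) / N
  let b : ℕ → ℂ := fun m => rT k ψ c m * (((m : ℝ) ^ (-((k : ℝ) / 2)) : ℝ) : ℂ)
  have ha : a = (k : ℝ) / 2 + r + 1 / 2 := by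
    show ((w : ℝ) - 1) / 2 = _
    rw [hw]
    push_cast
    ring
  -- the expansion
  have hg : ∀ m : ℕ, 1 ≤ m → g m = ∑ f ∈ E, μ f * l m f := by
    intro m hm
    have hm' : (0 : ℝ) < m := by exact_mod_cast hm
    have e1 : ell (P m) = ∑ f ∈ E, (conj (coef f m) * (cst w m : ℂ) / pet f f) * ell f := by
      have hd := sum_deriv h13 h6 h15 h14 ψ c hD hk hw hcop E
        (fun f => conj (coef f m) * (cst w m : ℂ) / pet f f)
      rw [← hexp m (P m) hm (hPp m hm)] at hd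
      exact hd.deriv
    show (((m : ℝ) ^ a : ℝ) : ℂ) * ell (P m) / N = _
    rw [e1, Finset.mul_sum, Finset.sum_div]
    refine Finset.sum_congr rfl fun f hf => ?_
    have hfe : IsEigen f := (hE f).1 hf
    have hpet : pet f f ≠ 0 := pet_self_ne h5 h16 h14 h15 hw4 hwe hfe
    rw [coef_real_n h5 h16 h14 h15 h17 h18 h19 hw4 hwe hfe m, cst_eq w m hm]
    show _ = (cst w 1 : ℂ) * ell f / (pet f f * N) * (coef f m * (((m : ℝ) ^ (-a) : ℝ) : ℂ))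
    have e2 : (((m : ℝ) ^ a : ℝ) : ℂ) * (((m : ℝ) ^ (-a) : ℝ) : ℂ) = 1 := by
      rw [← Complex.ofReal_mul, ← Real.rpow_add hm', add_neg_cancel, Real.rpow_zero,
        Complex.ofReal_one]
    have e3 : ((cst w 1 * ((m : ℝ) ^ (-(((w : ℝ) - 1) / 2)) *
        (m : ℝ) ^ (-(((w : ℝ) - 1) / 2))) : ℝ) : ℂ) =
        (cst w 1 : ℂ) * ((((m : ℝ) ^ (-a) : ℝ) : ℂ) * (((m : ℝ) ^ (-a) : ℝ) : ℂ)) := by
      push_cast
      rfl
    rw [e3]
    field_simp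
    linear_combination (coef f m * (cst w 1 : ℂ) * (((m : ℝ) ^ (-a) : ℝ) : ℂ) * ell f) * e2
  -- the numbers
  have hb1 : b 1 = 1 := by
    show rT k ψ c 1 * ((((1 : ℕ) : ℝ) ^ (-((k : ℝ) / 2)) : ℝ) : ℂ) = 1
    rw [hrT1, Nat.cast_one, Real.one_rpow, Complex.ofReal_one, mul_one]
  have hbd : ∀ m, 1 ≤ m → ‖b m‖ ≤ (m.divisors.card : ℝ) := by
    intro m hm
    have hm' : (0 : ℝ) < m := by exact_mod_cast hm
    show ‖rT k ψ c m * (((m : ℝ) ^ (-((k : ℝ) / 2)) : ℝ) : ℂ)‖ ≤ _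
    rw [norm_mul, Complex.norm_real, Real.norm_of_nonneg (Real.rpow_nonneg hm'.le _)]
    calc ‖rT k ψ c m‖ * (m : ℝ) ^ (-((k : ℝ) / 2))
        ≤ ((m.divisors.card : ℝ) * (m : ℝ) ^ ((k : ℝ) / 2)) * (m : ℝ) ^ (-((k : ℝ) / 2)) :=
          mul_le_mul_of_nonneg_right (hrT m hm) (Real.rpow_nonneg hm'.le _)
      _ = (m.divisors.card : ℝ) := by
          rw [mul_assoc, ← Real.rpow_add hm', add_neg_cancel, Real.rpow_zero, mul_one]
  have hgb : ∀ m, 1 ≤ m → m ^ 4 ≤ r →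
      ‖g m - b m * (((m : ℝ) ^ (-(1 : ℝ) / 2) : ℝ) : ℂ) * z‖ ≤
        C * ((m.divisors.card : ℝ) * (1 + Real.log m) * (m : ℝ) ^ (-(1 : ℝ) / 2) +
          (m : ℝ) ^ ((9 : ℝ) / 10) * (r : ℝ) ^ (-(1 : ℝ) / 5)) := by
    intro m hm hmr
    have hm' : (0 : ℝ) < m := by exact_mod_cast hm
    have h := hP m (P m) hm hmr (hPp m hm)
    rw [← ha] at h
    have e1 : (((m : ℝ) ^ (-((k : ℝ) + 1) / 2) : ℝ) : ℂ) =
        (((m : ℝ) ^ (-((k : ℝ) / 2)) : ℝ) : ℂ) * (((m : ℝ) ^ (-(1 : ℝ) / 2) : ℝ) : ℂ) := by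
      rw [← Complex.ofReal_mul, ← Real.rpow_add hm']
      congr 2
      ring
    have e2 : (((m : ℝ) ^ a : ℝ) : ℂ) * ell (P m) -
        (N : ℂ) * ((rT k ψ c m * (((m : ℝ) ^ (-((k : ℝ) + 1) / 2) : ℝ) : ℂ)) * z) =
        (N : ℂ) * (g m - b m * (((m : ℝ) ^ (-(1 : ℝ) / 2) : ℝ) : ℂ) * z) := by
      show _ = (N : ℂ) * ((((m : ℝ) ^ a : ℝ) : ℂ) * ell (P m) / N -
        rT k ψ c m * (((m : ℝ) ^ (-((k : ℝ) / 2)) : ℝ) : ℂ) *
          (((m : ℝ) ^ (-(1 : ℝ) / 2) : ℝ) : ℂ) * z)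
      rw [e1]
      field_simp
    have h' : ‖(N : ℂ) * (g m - b m * (((m : ℝ) ^ (-(1 : ℝ) / 2) : ℝ) : ℂ) * z)‖ ≤
        C * N * ((m.divisors.card : ℝ) * (1 + Real.log m) * (m : ℝ) ^ (-(1 : ℝ) / 2) +
          (m : ℝ) ^ ((9 : ℝ) / 10) * (r : ℝ) ^ (-(1 : ℝ) / 5)) := by
      rw [← e2]
      exact h
    rw [norm_mul, Complex.norm_real, Real.norm_of_nonneg hN0.le] at h'
    have h'' : N * ‖g m - b m * (((m : ℝ) ^ (-(1 : ℝ) / 2) : ℝ) : ℂ) * z‖ ≤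
        N * (C * ((m.divisors.card : ℝ) * (1 + Real.log m) * (m : ℝ) ^ (-(1 : ℝ) / 2) +
          (m : ℝ) ^ ((9 : ℝ) / 10) * (r : ℝ) ^ (-(1 : ℝ) / 5))) := by
      refine h'.trans (le_of_eq ?_)
      ring
    exact le_of_mul_le_mul_left h'' hN0
  have hdom := hS3 z g b hz hb1 hbd hgb
  -- the matrix
  let G : ℕ → ℕ → ℂ := fun p q => if p = q then g (p * p) + g 1 else g (p * q)
  have hG : ∀ p ∈ S, ∀ q ∈ S, G p q = ∑ f ∈ E, μ f * l p f * l q f := by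
    intro p hp q hq
    have hp1 := (hS2 p hp).1
    have hq1 := (hS2 q hq).1
    have hp' : (0 : ℝ) ≤ p := Nat.cast_nonneg p
    have hq' : (0 : ℝ) ≤ q := Nat.cast_nonneg q
    show (if p = q then g (p * p) + g 1 else g (p * q)) = _
    split_ifs with hpq
    · subst hpq
      rw [hg (p * p) (Nat.mul_pos hp1.pos hp1.pos), hg 1 le_rfl, ← Finset.sum_add_distrib]
      refine Finset.sum_congr rfl fun f hf => ?_
      have hfe : IsEigen f := (hE f).1 hf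
      have e1 := coef_mul_prime hfe hp1 hp1.pos
      rw [if_pos dvd_rfl, Nat.div_self hp1.pos, hfe.one, mul_one] at e1
      have e2 := pw_one (w := w) hp1.pos (by omega)
      show μ f * (coef f (p * p) * ((((p * p : ℕ) : ℝ) ^ (-a) : ℝ) : ℂ)) +
        μ f * (coef f 1 * ((((1 : ℕ) : ℝ) ^ (-a) : ℝ) : ℂ)) =
        μ f * (coef f p * (((p : ℝ) ^ (-a) : ℝ) : ℂ)) * (coef f p * (((p : ℝ) ^ (-a) : ℝ) : ℂ))
      have e3 : ((((p * p : ℕ) : ℝ) ^ (-a) : ℝ) : ℂ) =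
          (((p : ℝ) ^ (-a) : ℝ) : ℂ) * (((p : ℝ) ^ (-a) : ℝ) : ℂ) := by
        rw [Nat.cast_mul, Real.mul_rpow hp' hp', Complex.ofReal_mul]
      rw [e3, hfe.one, Nat.cast_one, Real.one_rpow, Complex.ofReal_one]
      have e4 : ((p : ℂ) ^ (w - 1)) *
        ((((p : ℝ) ^ (-a) : ℝ) : ℂ) * (((p : ℝ) ^ (-a) : ℝ) : ℂ)) = 1 := e2
      linear_combination (-μ f * ((((p : ℝ) ^ (-a) : ℝ) : ℂ) * (((p : ℝ) ^ (-a) : ℝ) : ℂ))) * e1 -
        μ f * e4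
    · rw [hg (p * q) (Nat.mul_pos hp1.pos hq1.pos)]
      refine Finset.sum_congr rfl fun f hf => ?_
      have hfe : IsEigen f := (hE f).1 hf
      have e1 := coef_mul_prime hfe hp1 hq1.pos
      rw [if_neg (fun h => hpq ((Nat.prime_dvd_prime_iff_eq hp1 hq1).1 h)), add_zero] at e1
      show μ f * (coef f (p * q) * ((((p * q : ℕ) : ℝ) ^ (-a) : ℝ) : ℂ)) =
        μ f * (coef f p * (((p : ℝ) ^ (-a) : ℝ) : ℂ)) * (coef f q * (((q : ℝ) ^ (-a) : ℝ) : ℂ))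
      rw [← e1, Nat.cast_mul, Real.mul_rpow hp' hq', Complex.ofReal_mul]
      ring
  have hrow : ∀ p ∈ S, ∑ q ∈ S.erase p, ‖G p q‖ < ‖G p p‖ := by
    intro p hp
    have h := hdom p hp
    have e1 : G p p = g (p * p) + g 1 := if_pos rfl
    rw [e1]
    refine lt_of_le_of_lt (le_of_eq ?_) h
    refine Finset.sum_congr rfl fun q hq => ?_
    have e2 : G p q = g (p * q) := if_neg (Finset.ne_of_mem_erase hq).symm
    rw [e2]
  obtain ⟨E', hE'1, hE'2, hE'3⟩ := h3 ℕ (CuspForm 𝒮ℒ (w : ℤ)) inferInstance S E μ l G hG hrow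
  refine ⟨E', hS1.trans (by exact_mod_cast hE'2), fun f hf => ?_⟩
  have hfe : IsEigen f := (hE f).1 (hE'1 hf)
  refine ⟨hfe, ?_⟩
  have hne : ell f ≠ 0 := by
    intro h0
    apply hE'3 f hf
    show (cst w 1 : ℂ) * ell f / (pet f f * N) = 0
    rw [h0, mul_zero, zero_div]
  exact lam h7 h6 h8 h9 h10 f ψ c hD hfe hw hψ hk hcop hne

end RZ

end Pool.Agent.Lib.MP_7c08ba_nt
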