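import Mathlib
import Pool.Agent.Lib.MP_7c08ba_nt.RZ.MainX
import Pool.Agent.Lib.MP_7c08ba_nt.RZ.R1.SpecAll

set_option autoImplicit false

/-!
(X16) there are many eigenforms with non-zero derivative at the centre, every discriminant.
-/

namespace Pool.Agent.Lib.MP_7c08ba_nt

namespace RZ

open NumberField MeasureTheory UpperHalfPlane Set IsDedekindDomain
open scoped MatrixGroups ComplexConjugate nonZeroDivisors

namespace ManyXAux

/-- A matrix with dominant diagonal has many terms. -/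
theorem card_of_dominant {α : Type*} (E : Finset α) (N : ℕ) (a : α → Fin N → ℂ)
    (u : α → ℂ)
    (hdom : ∀ i : Fin N, ∑ j ∈ Finset.univ.erase i, ‖∑ f ∈ E, u f * a f i * a f j‖ <
      ‖∑ f ∈ E, u f * a f i * a f i‖) :
    ∃ S : Finset α, S ⊆ E ∧ (∀ f ∈ S, u f ≠ 0) ∧ N ≤ S.card := by
  classical
  refine ⟨E.filter fun f => u f ≠ 0, Finset.filter_subset _ _,
    fun f hf => (Finset.mem_filter.1 hf).2, ?_⟩
  by_contra hlt
  rw [not_le] at hlt
  let M : Matrix (Fin N) (Fin N) ℂ := Matrix.of fun i j => ∑ f ∈ E, u f * a f i * a f j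
  have hdet : M.det ≠ 0 := det_ne_zero_of_sum_row_lt_diag (fun i => hdom i)
  let T : (Fin N → ℂ) →ₗ[ℂ] ({f // f ∈ E.filter fun f => u f ≠ 0} → ℂ) :=
    Matrix.mulVecLin (Matrix.of fun f i => a f.1 i)
  have hker : LinearMap.ker T ≠ ⊥ := by
    refine LinearMap.ker_ne_bot_of_finrank_lt ?_
    rw [Module.finrank_fintype_fun_eq_card, Module.finrank_fintype_fun_eq_card,
      Fintype.card_coe, Fintype.card_fin]
    exact hlt
  obtain ⟨x, hx, hx0⟩ := (Submodule.ne_bot_iff _).1 hker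
  have hT : ∀ f ∈ E, u f ≠ 0 → ∑ i, a f i * x i = 0 := by
    intro f hf hu
    have := congrFun (LinearMap.mem_ker.1 hx) ⟨f, Finset.mem_filter.2 ⟨hf, hu⟩⟩
    exact this
  refine hdet (Matrix.exists_vecMul_eq_zero_iff.1 ⟨x, hx0, ?_⟩)
  funext j
  show ∑ i, x i * ∑ f ∈ E, u f * a f i * a f j = 0
  simp_rw [Finset.mul_sum]
  rw [Finset.sum_comm]
  refine Finset.sum_eq_zero fun f hf => ?_
  by_cases hu : u f = 0
  · simp [hu]
  · have h := hT f hf hu
    have e : ∑ i, x i * (u f * a f i * a f j) = u f * a f j * ∑ i, a f i * x i := by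
      rw [Finset.mul_sum]
      refine Finset.sum_congr rfl fun i _ => ?_
      ring
    rw [e, h, mul_zero]

/-- Inert primes. -/
theorem exists_primes {D : ℕ} [NeZero D] (χ : DirichletCharacter ℂ D) (hχ : χ (-1) = -1)
    (N : ℕ) : ∃ p : Fin N → ℕ, Function.Injective p ∧ (∀ i, (p i).Prime) ∧
      ∀ i, χ (p i : ZMod D) = -1 := by
  have hinf := Nat.infinite_setOfPred_prime_and_eq_mod (q := D) (a := -1) isUnit_one.neg
  let e := hinf.natEmbedding
  refine ⟨fun i => (e i : ℕ), ?_, fun i => (e i).2.1, fun i => ?_⟩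
  · intro i j hij
    exact Fin.val_injective (e.injective (Subtype.ext hij))
  · rw [(e i).2.2, hχ]

theorem exists_harm (K L : ℝ) (hL : 0 < L) : ∃ r₀ : ℕ, ∀ r : ℕ, r₀ ≤ r →
    K < L * (harmonic r : ℝ) := by
  have h1 : Filter.Tendsto (fun n : ℕ => Real.log ((n : ℝ) + 1)) Filter.atTop Filter.atTop :=
    Real.tendsto_log_atTop.comp (Filter.tendsto_atTop_add_const_right _ _
      tendsto_natCast_atTop_atTop)
  obtain ⟨r₀, hr₀⟩ := Filter.eventually_atTop.1 (h1.eventually_gt_atTop (K / L))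
  refine ⟨r₀, fun r hr => ?_⟩
  have h2 := hr₀ r hr
  have h3 := log_add_one_le_harmonic r
  have h4 : Real.log ((r : ℝ) + 1) ≤ (harmonic r : ℝ) := by
    push_cast at h3
    exact h3
  rw [div_lt_iff₀ hL] at h2
  nlinarith

theorem harmonic_nonneg (n : ℕ) : (0 : ℝ) ≤ (harmonic n : ℝ) := by
  have h : (0 : ℚ) ≤ harmonic n := by
    unfold harmonic
    exact Finset.sum_nonneg fun i _ => by positivity
  exact_mod_cast h

/-- The derivative at `-r` is linear in the form. -/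
theorem exists_lin {D w r : ℕ} (H : ℂ → ℂ → ℂ)
    (hint : ∀ (f : CuspForm 𝒮ℒ (w : ℤ)) (t : ℂ), -(r : ℝ) - 1 / 2 < t.re →
      IntegrableOn (fun z : ℍ => trE D w (H t) z * f (ofComplex (-conj (z : ℂ))) *
        (z.im : ℂ) ^ w) ModularGroup.fd)
    (han : ∀ f : CuspForm 𝒮ℒ (w : ℤ), DifferentiableOn ℂ (fun t => rsE D (H t) f)
      {t | -(r : ℝ) - 1 / 2 < t.re}) :
    ∃ Λ : CuspForm 𝒮ℒ (w : ℤ) →ₗ[ℂ] ℂ, ∀ f, Λ f = deriv (fun t => rsE D (H t) f) (-r) := by
  have hopen : IsOpen {t : ℂ | -(r : ℝ) - 1 / 2 < t.re} :=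
    isOpen_lt continuous_const Complex.continuous_re
  have hmem : (-(r : ℂ)) ∈ {t : ℂ | -(r : ℝ) - 1 / 2 < t.re} := by
    show -(r : ℝ) - 1 / 2 < (-(r : ℂ)).re
    rw [Complex.neg_re, Complex.natCast_re]
    linarith
  have hd : ∀ f : CuspForm 𝒮ℒ (w : ℤ), HasDerivAt (fun t => rsE D (H t) f)
      (deriv (fun t => rsE D (H t) f) (-r)) (-r) := fun f =>
    ((han f).differentiableAt (hopen.mem_nhds hmem)).hasDerivAt
  refine ⟨{ toFun := fun f => deriv (fun t => rsE D (H t) f) (-r)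
            map_add' := fun f g => ?_
            map_smul' := fun a f => ?_ }, fun f => rfl⟩
  · have h := (hd f).add (hd g)
    refine (h.congr_of_eventuallyEq ?_).deriv
    filter_upwards [hopen.mem_nhds hmem] with t ht
    exact MainXAux.rsE_add _ f g (hint f t ht) (hint g t ht)
  · have h := (hd f).const_mul a
    rw [RingHom.id_apply, smul_eq_mul]
    refine (h.congr_of_eventuallyEq (Filter.Eventually.of_forall fun t => ?_)).deriv
    exact MainXAux.rsE_smul _ a f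

theorem cst_eq {w m : ℕ} (hw : 4 ≤ w) (hm : 1 ≤ m) :
    (SpanAux.cst w m : ℂ) * (m : ℂ) ^ (w - 1) = (SpanAux.cst w 1 : ℂ) := by
  have hm' : (0 : ℝ) < m := by exact_mod_cast hm
  have hpi := Real.pi_pos
  have h : SpanAux.cst w m * (m : ℝ) ^ (w - 1) = SpanAux.cst w 1 := by
    unfold SpanAux.cst
    have e : (w : ℝ) - 1 = ((w - 1 : ℕ) : ℝ) := by
      rw [Nat.cast_sub (by omega)]
      norm_num
    rw [e, Real.rpow_natCast, Real.rpow_natCast]
    rw [Nat.cast_one, mul_one]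
    rw [one_div, one_div, inv_pow, inv_pow, mul_pow]
    field_simp
  rw [← h]
  push_cast
  ring

/-- The coefficients of an eigenform at products of two primes. -/
theorem coef_mul_primes {w : ℕ} {f : CuspForm 𝒮ℒ (w : ℤ)} (hf : IsEigen f) {p q : ℕ}
    (hp : p.Prime) (hq : q.Prime) :
    coef f p * coef f q = coef f (p * q) + if p = q then (p : ℂ) ^ (w - 1) else 0 := by
  rw [hf.mul p q hp.pos hq.pos]
  by_cases hpq : p = q
  · subst hpq
    rw [if_pos rfl, Nat.gcd_self, hp.divisors, Finset.sum_pair hp.ne_one.symm]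
    have h6 : p * p / p ^ 2 = 1 := by
      rw [pow_two]
      exact Nat.div_self (Nat.mul_pos hp.pos hp.pos)
    rw [h6, hf.one]
    simp
  · have h6 : p.gcd q = 1 := (Nat.coprime_primes hp hq).2 hpq
    rw [if_neg hpq, h6, Nat.divisors_one, Finset.sum_singleton]
    simp

end ManyXAux

open ManyXAux in
theorem stManyX (h1 : StBigX) (h2 : StPoi) (h3 : StCom) (h4 : StSgX) (h5 : StBmulD)
    (h6 : StBmulE) : StManyX := by
  intro D hD0 F _ _ s σ χ cj N hD
  obtain ⟨⟨hQC, -, -, hD4⟩, -, hchar, -, hcom⟩ := h3 D hD0 F _ _ s σ χ cj hD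
  obtain ⟨-, L, hL, hLχ⟩ := h4 D hD0 F _ _ s σ χ cj hD
  obtain ⟨p, hpinj, hp, hχp⟩ := exists_primes χ hQC.odd N
  have hb : ∀ (k : ℕ) (ψ : Ideal (𝓞 F) →*₀ ℂ), IsHecke σ k ψ →
      (∀ i j, i ≠ j → bψ ψ (p i * p j) = 0) ∧ ∀ i, bψ ψ (p i * p i) = (p i : ℂ) ^ k := by
    intro k ψ hψ
    have key : (∀ m n : ℕ, m.Coprime n → bψ ψ (m * n) = bψ ψ m * bψ ψ n) ∧
        ∀ i, bψ ψ (p i ^ (2 * 0 + 1)) = 0 ∧ bψ ψ (p i ^ (2 * 1)) = ((p i : ℂ) ^ k) ^ 1 := by
      rcases hD with hD | hD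
      · obtain ⟨-, hmul, -, hin, -⟩ := h5 D F _ _ s σ χ cj k ψ hD hψ
        refine ⟨hmul, fun i => ?_⟩
        have hj : jacobiSym (p i) D = -1 := by
          have h := hD.chi (p i : ℤ)
          rw [Int.cast_natCast, hχp i] at h
          exact_mod_cast h.symm
        exact ⟨(hin (p i) (hp i) hj 0).1, (hin (p i) (hp i) hj 1).2⟩
      · obtain ⟨-, hmul, -, hin, -⟩ := h6 D F _ _ s σ χ cj k ψ hD hψ
        refine ⟨hmul, fun i => ?_⟩
        have hj : kr D (p i) = -1 := by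
          have h := hD.chi (p i)
          rw [hχp i] at h
          exact_mod_cast h.symm
        exact ⟨(hin (p i) (hp i) hj 0).1, (hin (p i) (hp i) hj 1).2⟩
    obtain ⟨hmul, hv⟩ := key
    refine ⟨fun i j hij => ?_, fun i => ?_⟩
    · have h7 := (hv i).1
      rw [mul_zero, zero_add, pow_one] at h7
      rw [hmul _ _ ((Nat.coprime_primes (hp i) (hp j)).2 (hpinj.ne hij)), h7, zero_mul]
    · have h7 := (hv i).2
      rw [mul_one, pow_one, pow_two] at h7
      exact h7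
  have hC : ∀ m : ℕ, ∃ C : ℝ, 1 ≤ m → ∀ (w k r : ℕ) (ψ : Ideal (𝓞 F) →*₀ ℂ) (c : Reps σ)
      (P : CuspForm 𝒮ℒ (w : ℤ)), IsHecke σ k ψ →
      (∀ A, IsCoprime (c.R A : Ideal (𝓞 F)) (Ideal.span {s})) → w = k + 2 * r + 2 → 5 ≤ r →
      (∀ z : ℍ, P z = poinc w m z) →
      ‖deriv (fun t => rsE D (HN D χ k r ψ c t) P) (-r) -
        2 * bψ ψ m * ((k + r).factorial : ℂ) * ((4 * Real.pi * m : ℂ) ^ (k + r + 1))⁻¹ *
          DirichletCharacter.LFunction χ 1 * ((harmonic (k + r) : ℂ) + (harmonic r : ℂ))‖ ≤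
        C * ((k + r).factorial : ℝ) * ((4 * Real.pi * m) ^ (k + r + 1))⁻¹ *
          (m : ℝ) ^ ((k : ℝ) / 2) := by
    intro m
    by_cases hm : 1 ≤ m
    · obtain ⟨C, hC⟩ := h1 D hD0 F _ _ s σ χ cj m hD hm
      exact ⟨C, fun _ => hC⟩
    · exact ⟨0, fun h => absurd h hm⟩
  choose C hC using hC
  obtain ⟨r₁, hr₁⟩ := exists_harm (∑ i, ∑ j, |C (p i * p j)| + ∑ i, (p i : ℝ) * |C 1|) (2 * L)
    (by positivity)
  refine ⟨max r₁ 5, fun w k r ψ c hψ hcop hw hr => ?_⟩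
  have hr5 : 5 ≤ r := (le_max_right _ _).trans hr
  have hr1 : r₁ ≤ r := (le_max_left _ _).trans hr
  obtain ⟨hb0, hb1⟩ := hb k ψ hψ
  obtain ⟨hk, -, hbone, -⟩ := hchar k ψ hψ
  obtain ⟨κ, hκ⟩ := hk
  obtain ⟨hcont, han, -⟩ := hcom w k r ψ c hψ hw hcop
  have hwe : Even w := by
    rw [hw, hκ]
    exact (((Even.add_self κ).add (even_two_mul r)).add even_two)
  have hw4 : 4 ≤ w := by omega
  obtain ⟨Λ, hΛ⟩ := exists_lin (D := D) (w := w) (r := r) (fun t => HN D χ k r ψ c t)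
    (fun f t ht => by
      obtain ⟨-, hc, -, -, C, M, hbd⟩ := hcont t ht
      exact MainXAux.integ aFd aCoef f _ hc hbd) han
  obtain ⟨E, hE, hexp⟩ := Spec.expansion_poinc_all (w := w) hw4 hwe
  have hpi := Real.pi_pos
  obtain ⟨B, hB⟩ : ∃ B : ℝ, B = ((k + r).factorial : ℝ) * ((4 * Real.pi) ^ (k + r + 1))⁻¹ :=
    ⟨_, rfl⟩
  have hB0 : 0 < B := by
    rw [hB]
    positivity
  let u : CuspForm 𝒮ℒ (w : ℤ) → ℂ := fun f => (SpanAux.cst w 1 : ℂ) / Spec.pet f f * Λ f / B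
  let a : CuspForm 𝒮ℒ (w : ℤ) → Fin N → ℂ := fun f i => coef f (p i) / (p i : ℂ) ^ (r + κ)
  obtain ⟨X, hXdef⟩ : ∃ X : ℕ → ℂ, ∀ m, X m = ∑ f ∈ E, u f * coef f m := ⟨_, fun _ => rfl⟩
  obtain ⟨V, hV⟩ : ∃ V : ℝ, V = 2 * L * ((harmonic (k + r) : ℝ) + (harmonic r : ℝ)) :=
    ⟨_, rfl⟩
  have hX : ∀ m, 1 ≤ m → ‖X m - bψ ψ m * (m : ℂ) ^ r * V‖ ≤ C m * (m : ℝ) ^ (r + κ) := by
    intro m hm
    have hm0 : (0 : ℝ) < m := by exact_mod_cast hm
    obtain ⟨P, hP⟩ := h2 w m (by omega) hwe hm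
    have e1 := hexp m P hm hP
    have e2 := hC m hm w k r ψ c P hψ hcop hw hr5 hP
    rw [← hΛ P, hLχ] at e2
    have e3 : X m = (m : ℂ) ^ (w - 1) * Λ P / B := by
      conv_rhs => rw [e1]
      rw [map_sum, Finset.mul_sum, Finset.sum_div, hXdef]
      refine Finset.sum_congr rfl fun f hf => ?_
      rw [map_smul, smul_eq_mul, Spec.coef_real_all hw4 hwe ((hE f).1 hf) m]
      show (SpanAux.cst w 1 : ℂ) / Spec.pet f f * Λ f / B * coef f m = _
      rw [← cst_eq hw4 hm]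
      ring
    have e4 : (m : ℝ) ^ (w - 1) / B *
        (((k + r).factorial : ℝ) * ((4 * Real.pi * m) ^ (k + r + 1))⁻¹) = (m : ℝ) ^ r := by
      have e5 : w - 1 = (k + r + 1) + r := by omega
      have e6 : ((k + r).factorial : ℝ) ≠ 0 := by positivity
      rw [hB, e5, pow_add (m : ℝ) (k + r + 1) r, mul_pow (4 * Real.pi) (m : ℝ)]
      field_simp
    have e7 : (m : ℝ) ^ ((k : ℝ) / 2) = (m : ℝ) ^ κ := by
      rw [← Real.rpow_natCast]
      congr 1
      rw [hκ]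
      push_cast
      ring
    have e8 : ((m : ℂ) ^ (w - 1) / B) *
        (((k + r).factorial : ℂ) * ((4 * Real.pi * m : ℂ) ^ (k + r + 1))⁻¹) = (m : ℂ) ^ r := by
      exact_mod_cast congrArg (fun x : ℝ => (x : ℂ)) e4
    have e9 : X m - bψ ψ m * (m : ℂ) ^ r * V = ((m : ℂ) ^ (w - 1) / B) *
        (Λ P - 2 * bψ ψ m * ((k + r).factorial : ℂ) * ((4 * Real.pi * m : ℂ) ^ (k + r + 1))⁻¹ *
          L * ((harmonic (k + r) : ℂ) + (harmonic r : ℂ))) := by
      rw [e3, ← e8, hV]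
      push_cast
      ring
    have e10 : ‖((m : ℂ) ^ (w - 1) / B)‖ = (m : ℝ) ^ (w - 1) / B := by
      rw [norm_div, norm_pow, Complex.norm_natCast, Complex.norm_real, Real.norm_eq_abs,
        abs_of_pos hB0]
    rw [e9, norm_mul, e10]
    calc (m : ℝ) ^ (w - 1) / B * ‖Λ P - 2 * bψ ψ m * ((k + r).factorial : ℂ) *
          ((4 * Real.pi * m : ℂ) ^ (k + r + 1))⁻¹ *
          L * ((harmonic (k + r) : ℂ) + (harmonic r : ℂ))‖
        ≤ (m : ℝ) ^ (w - 1) / B * (C m * ((k + r).factorial : ℝ) *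
          ((4 * Real.pi * m) ^ (k + r + 1))⁻¹ * (m : ℝ) ^ ((k : ℝ) / 2)) := by
          refine mul_le_mul_of_nonneg_left e2 ?_
          positivity
      _ = C m * ((m : ℝ) ^ (w - 1) / B *
          (((k + r).factorial : ℝ) * ((4 * Real.pi * m) ^ (k + r + 1))⁻¹)) *
            (m : ℝ) ^ ((k : ℝ) / 2) := by ring
      _ = C m * (m : ℝ) ^ (r + κ) := by
          rw [e4, e7, pow_add]
          ring
  -- the entries
  have hM : ∀ i j, ∑ f ∈ E, u f * a f i * a f j =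
      (X (p i * p j) + if p i = p j then (p i : ℂ) ^ (w - 1) * X 1 else 0) /
        ((p i : ℂ) ^ (r + κ) * (p j : ℂ) ^ (r + κ)) := by
    intro i j
    have e1 : ∀ f ∈ E, u f * a f i * a f j = u f * (coef f (p i * p j) +
        if p i = p j then (p i : ℂ) ^ (w - 1) else 0) /
          ((p i : ℂ) ^ (r + κ) * (p j : ℂ) ^ (r + κ)) := by
      intro f hf
      rw [← coef_mul_primes ((hE f).1 hf) (hp i) (hp j)]
      show u f * (coef f (p i) / (p i : ℂ) ^ (r + κ)) * (coef f (p j) / (p j : ℂ) ^ (r + κ)) = _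
      rw [mul_assoc, div_mul_div_comm, ← mul_div_assoc]
    rw [Finset.sum_congr rfl e1, ← Finset.sum_div]
    congr 1
    simp_rw [mul_add]
    rw [Finset.sum_add_distrib, hXdef, hXdef]
    congr 1
    split_ifs
    · rw [Finset.mul_sum]
      refine Finset.sum_congr rfl fun f hf => ?_
      rw [((hE f).1 hf).one]
      ring
    · simp
  have hoff : ∀ i j, i ≠ j → ‖∑ f ∈ E, u f * a f i * a f j‖ ≤ |C (p i * p j)| := by
    intro i j hij
    have hpi0 : (0 : ℝ) < p i := by exact_mod_cast (hp i).pos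
    have hpj0 : (0 : ℝ) < p j := by exact_mod_cast (hp j).pos
    rw [hM i j, if_neg (hpinj.ne hij), add_zero, norm_div]
    have e1 := hX (p i * p j) (Nat.mul_pos (hp i).pos (hp j).pos)
    rw [hb0 i j hij, zero_mul, zero_mul, sub_zero] at e1
    have e2 : ‖(p i : ℂ) ^ (r + κ) * (p j : ℂ) ^ (r + κ)‖ =
        ((p i * p j : ℕ) : ℝ) ^ (r + κ) := by
      rw [norm_mul, norm_pow, norm_pow, Complex.norm_natCast, Complex.norm_natCast, ← mul_pow]
      push_cast
      rfl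
    have e3 : (0 : ℝ) < ((p i * p j : ℕ) : ℝ) ^ (r + κ) := by
      push_cast
      positivity
    rw [e2, div_le_iff₀ e3]
    exact e1.trans (mul_le_mul_of_nonneg_right (le_abs_self _) e3.le)
  have hdiag : ∀ i, V - |C (p i * p i)| - p i * |C 1| ≤ ‖∑ f ∈ E, u f * a f i * a f i‖ := by
    intro i
    have hpi0 : (0 : ℝ) < p i := by exact_mod_cast (hp i).pos
    have hpc : (p i : ℂ) ≠ 0 := by exact_mod_cast (hp i).ne_zero
    have e1 := hX (p i * p i) (Nat.mul_pos (hp i).pos (hp i).pos)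
    have e2 := hX 1 le_rfl
    rw [hb1 i] at e1
    rw [hbone, Nat.cast_one, one_pow, Nat.cast_one, one_pow, one_mul, one_mul, mul_one] at e2
    rw [hM i i, if_pos rfl]
    have e3 : (p i : ℂ) ^ (w - 1) = p i * ((p i : ℂ) ^ (r + κ) * (p i : ℂ) ^ (r + κ)) := by
      rw [← pow_add, ← pow_succ']
      congr 1
      omega
    have e4 : (p i : ℂ) ^ k * ((p i * p i : ℕ) : ℂ) ^ r =
        (p i : ℂ) ^ (r + κ) * (p i : ℂ) ^ (r + κ) := by
      rw [Nat.cast_mul, mul_pow, ← pow_add, ← pow_add, ← pow_add]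
      congr 1
      omega
    have e5 : ((p i * p i : ℕ) : ℝ) ^ (r + κ) =
        (p i : ℝ) ^ (r + κ) * (p i : ℝ) ^ (r + κ) := by
      rw [Nat.cast_mul, mul_pow]
    rw [e4, e5] at e1
    have hq0 : (p i : ℂ) ^ (r + κ) * (p i : ℂ) ^ (r + κ) ≠ 0 :=
      mul_ne_zero (pow_ne_zero _ hpc) (pow_ne_zero _ hpc)
    have hqn : ‖(p i : ℂ) ^ (r + κ) * (p i : ℂ) ^ (r + κ)‖ =
        (p i : ℝ) ^ (r + κ) * (p i : ℝ) ^ (r + κ) := by
      rw [norm_mul, norm_pow, Complex.norm_natCast]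
    have hqp : (0 : ℝ) < (p i : ℝ) ^ (r + κ) * (p i : ℝ) ^ (r + κ) := by positivity
    rw [e3]
    generalize (p i : ℂ) ^ (r + κ) * (p i : ℂ) ^ (r + κ) = q at *
    generalize (p i : ℝ) ^ (r + κ) * (p i : ℝ) ^ (r + κ) = q' at *
    have e6 : (X (p i * p i) + p i * q * X 1) / q = (1 + p i) * V +
        ((X (p i * p i) - q * V) / q + p i * (X 1 - V)) := by
      field_simp
      ring
    have e7 : ‖(X (p i * p i) - q * V) / q‖ ≤ |C (p i * p i)| := by
      rw [norm_div, hqn, div_le_iff₀ hqp]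
      exact e1.trans (mul_le_mul_of_nonneg_right (le_abs_self _) hqp.le)
    have e8 : ‖(p i : ℂ) * (X 1 - V)‖ ≤ p i * |C 1| := by
      rw [norm_mul, Complex.norm_natCast]
      exact mul_le_mul_of_nonneg_left (e2.trans (le_abs_self _)) hpi0.le
    have hV0 : 0 ≤ V := by
      rw [hV]
      have := harmonic_nonneg (k + r)
      have := harmonic_nonneg r
      positivity
    have e9 : ‖(1 + (p i : ℂ)) * V‖ = (1 + p i) * V := by
      have : (1 + (p i : ℂ)) * V = (((1 + (p i : ℝ)) * V : ℝ) : ℂ) := by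
        push_cast
        ring
      rw [this, Complex.norm_real, Real.norm_eq_abs, abs_of_nonneg]
      positivity
    rw [e6]
    have e10 := norm_sub_le_norm_add ((1 + (p i : ℂ)) * V)
      ((X (p i * p i) - q * V) / q + p i * (X 1 - V))
    have e11 := norm_add_le ((X (p i * p i) - q * V) / q) ((p i : ℂ) * (X 1 - V))
    have e12 : V ≤ (1 + p i) * V := by
      have : 0 ≤ (p i : ℝ) * V := mul_nonneg hpi0.le hV0
      linarith
    rw [e9] at e10
    linarith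
  obtain ⟨S, hSE, hSu, hSN⟩ := card_of_dominant E N a u (fun i => by
    have e1 : ∑ j ∈ Finset.univ.erase i, ‖∑ f ∈ E, u f * a f i * a f j‖ ≤
        ∑ j ∈ Finset.univ.erase i, |C (p i * p j)| :=
      Finset.sum_le_sum fun j hj => hoff i j (Finset.ne_of_mem_erase hj).symm
    have e2 : |C (p i * p i)| + ∑ j ∈ Finset.univ.erase i, |C (p i * p j)| =
        ∑ j, |C (p i * p j)| :=
      Finset.add_sum_erase Finset.univ (fun j => |C (p i * p j)|) (Finset.mem_univ i)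
    have e3 : ∑ j, |C (p i * p j)| ≤ ∑ i, ∑ j, |C (p i * p j)| :=
      Finset.single_le_sum (f := fun i => ∑ j, |C (p i * p j)|)
        (fun i _ => Finset.sum_nonneg fun j _ => abs_nonneg _) (Finset.mem_univ i)
    have e4 : (p i : ℝ) * |C 1| ≤ ∑ i, (p i : ℝ) * |C 1| :=
      Finset.single_le_sum (f := fun i => (p i : ℝ) * |C 1|)
        (fun i _ => by positivity) (Finset.mem_univ i)
    have e5 := hr₁ r hr1
    have e6 : 2 * L * (harmonic r : ℝ) ≤ V := by
      rw [hV]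
      have := harmonic_nonneg (k + r)
      nlinarith
    have e7 := hdiag i
    linarith)
  refine ⟨S, hSN, fun f hf => ⟨(hE f).1 (hSE hf), fun h => hSu f hf ?_⟩⟩
  show (SpanAux.cst w 1 : ℂ) / Spec.pet f f * Λ f / B = 0
  rw [hΛ f, h, mul_zero, zero_div]

end RZ

end Pool.Agent.Lib.MP_7c08ba_nt
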