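import Pool.Agent.Lib.MP_7c08ba_nt.RZ.StXq
import Pool.Agent.Lib.MP_7c08ba_nt.RZ.ManyX
import Pool.Agent.Lib.MP_7c08ba_nt.RZ.MainRm

set_option autoImplicit false

/-!
(XQ3) many eigenforms have a non-zero derivative at the centre, every discriminant, quantitative.
-/

namespace Pool.Agent.Lib.MP_7c08ba_nt

namespace RZ

open NumberField MeasureTheory UpperHalfPlane Set IsDedekindDomain
open scoped MatrixGroups ComplexConjugate nonZeroDivisors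

namespace ManyQAux

/-- The trivial bound for the sum of the character over the ideals of norm `m`. -/
theorem bpsi_le {F : Type} [Field F] [NumberField F] {ψ : Ideal (𝓞 F) →*₀ ℂ} {k m : ℕ}
    (hm : 1 ≤ m) (hψ : ∀ b : Ideal (𝓞 F), b ≠ ⊥ → ‖ψ b‖ ^ 2 = (Ideal.absNorm b : ℝ) ^ k)
    (hc : Nat.card {b : Ideal (𝓞 F) // Ideal.absNorm b = m} ≤ m.divisors.card) :
    ‖bψ ψ m‖ ≤ (m.divisors.card : ℝ) * (m : ℝ) ^ ((k : ℝ) / 2) := by
  have hm' : (0 : ℝ) < m := by exact_mod_cast hm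
  have hfin : Finite {b : Ideal (𝓞 F) // Ideal.absNorm b = m} :=
    (Ideal.finite_setOfPred_absNorm_eq (S := 𝓞 F) m).to_subtype
  have hft := Fintype.ofFinite {b : Ideal (𝓞 F) // Ideal.absNorm b = m}
  have hn : ∀ b : {b : Ideal (𝓞 F) // Ideal.absNorm b = m}, ‖ψ b.1‖ = (m : ℝ) ^ ((k : ℝ) / 2) := by
    intro b
    have hb : b.1 ≠ ⊥ := by
      intro h0
      have h1 := b.2
      rw [h0, Ideal.absNorm_bot] at h1
      omega
    have h1 := hψ b.1 hb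
    rw [b.2] at h1
    have h2 : ((m : ℝ) ^ ((k : ℝ) / 2)) ^ 2 = (m : ℝ) ^ k := by
      rw [← Real.rpow_natCast, ← Real.rpow_mul hm'.le, ← Real.rpow_natCast]
      congr 1
      push_cast
      ring
    exact (sq_eq_sq₀ (norm_nonneg _) (Real.rpow_nonneg hm'.le _)).1 (h1.trans h2.symm)
  unfold bψ
  rw [tsum_fintype]
  calc ‖∑ b : {b : Ideal (𝓞 F) // Ideal.absNorm b = m}, ψ b.1‖
      ≤ ∑ b : {b : Ideal (𝓞 F) // Ideal.absNorm b = m}, ‖ψ b.1‖ := norm_sum_le _ _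
    _ = (Nat.card {b : Ideal (𝓞 F) // Ideal.absNorm b = m} : ℝ) * (m : ℝ) ^ ((k : ℝ) / 2) := by
        rw [Finset.sum_congr rfl fun b _ => hn b, Finset.sum_const, nsmul_eq_mul,
          Finset.card_univ, Nat.card_eq_fintype_card]
    _ ≤ _ := mul_le_mul_of_nonneg_right (by exact_mod_cast hc) (Real.rpow_nonneg hm'.le _)

end ManyQAux

open MainRmAux ManyQAux Spec SpanAux in
/-- (XQ3) -/
theorem stManyQ (h1 : StEllX) (h2 : StNum) (h3 : StCnt) (h4 : StPoi) (h5 : StCom) (h6 : StFd)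
    (h7 : StCoef) : StManyQ := by
  classical
  intro D hD0 F _ _ s σ χ cj hD
  obtain ⟨-, -, hchar, hcard, hcom⟩ := h5 D hD0 F _ _ s σ χ cj hD
  obtain ⟨L, C, hL, hC, hell⟩ := h1 D hD0 F _ _ s σ χ cj hD
  obtain ⟨r₀, hr₀⟩ := h2 L C hL hC
  refine ⟨max r₀ 20, fun w k r ψ c hψ hcop hw hr => ?_⟩
  have hr1 : 20 ≤ r := (le_max_right _ _).trans hr
  have hr2 : r₀ ≤ r := (le_max_left _ _).trans hr
  obtain ⟨hk, hψn, hbone, -⟩ := hchar k ψ hψ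
  obtain ⟨hcont, han, -⟩ := hcom w k r ψ c hψ hw hcop
  have hwe : Even w := by
    rw [hw]
    exact ((hk.add (even_two_mul r)).add even_two)
  have hw4 : 4 ≤ w := by omega
  obtain ⟨Λ, hΛ⟩ := ManyXAux.exists_lin (D := D) (w := w) (r := r)
    (fun t => HN D χ k r ψ c t)
    (fun f t ht => by
      obtain ⟨-, hc, -, -, C, M, hbd⟩ := hcont t ht
      exact MainXAux.integ h6 h7 f _ hc hbd) han
  obtain ⟨z, hz, hP⟩ := hell w k r ψ c hψ hcop hw hr1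
  obtain ⟨S, hS1, hS2, hS3⟩ := hr₀ r hr2
  obtain ⟨E, hE, hexp⟩ := Spec.expansion_poinc_all (w := w) hw4 hwe
  have hPex : ∀ m : ℕ, ∃ P : CuspForm 𝒮ℒ (w : ℤ), 1 ≤ m → ∀ z : ℍ, P z = poinc w m z := by
    intro m
    by_cases hm : 1 ≤ m
    · obtain ⟨P, hP⟩ := h4 w m (by omega) hwe hm
      exact ⟨P, fun _ => hP⟩
    · exact ⟨0, fun h => absurd h hm⟩
  choose P hPp using hPex
  -- the functional
  set N : ℝ := ((k + r).factorial : ℝ) * ((4 * Real.pi) ^ (k + r + 1))⁻¹ with hN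
  have hN0 : 0 < N := by
    have := Real.pi_pos
    have h := Nat.factorial_pos (k + r)
    positivity
  have hNC : (N : ℂ) ≠ 0 := by exact_mod_cast hN0.ne'
  let μ : CuspForm 𝒮ℒ (w : ℤ) → ℂ := fun f => (cst w 1 : ℂ) * Λ f / (pet f f * N)
  let a : ℝ := ((w : ℝ) - 1) / 2
  let l : ℕ → CuspForm 𝒮ℒ (w : ℤ) → ℂ := fun p f => coef f p * (((p : ℝ) ^ (-a) : ℝ) : ℂ)
  let g : ℕ → ℂ := fun m => (((m : ℝ) ^ a : ℝ) : ℂ) * Λ (P m) / N
  let b : ℕ → ℂ := fun m => bψ ψ m * (((m : ℝ) ^ (-((k : ℝ) / 2)) : ℝ) : ℂ)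
  have ha : a = (k : ℝ) / 2 + r + 1 / 2 := by
    show ((w : ℝ) - 1) / 2 = _
    rw [hw]
    push_cast
    ring
  -- the expansion
  have hg : ∀ m : ℕ, 1 ≤ m → g m = ∑ f ∈ E, μ f * l m f := by
    intro m hm
    have hm' : (0 : ℝ) < m := by exact_mod_cast hm
    have e1 : Λ (P m) = ∑ f ∈ E, (conj (coef f m) * (cst w m : ℂ) / pet f f) * Λ f := by
      conv_lhs => rw [hexp m (P m) hm (hPp m hm)]
      rw [map_sum]
      exact Finset.sum_congr rfl fun f _ => by rw [map_smul, smul_eq_mul]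
    show (((m : ℝ) ^ a : ℝ) : ℂ) * Λ (P m) / N = _
    rw [e1, Finset.mul_sum, Finset.sum_div]
    refine Finset.sum_congr rfl fun f hf => ?_
    have hfe : IsEigen f := (hE f).1 hf
    have hpet : pet f f ≠ 0 := pet_self_ne aPoi aPetU aCoef aFd hw4 hwe hfe
    rw [coef_real_all hw4 hwe hfe m, cst_eq w m hm]
    show _ = (cst w 1 : ℂ) * Λ f / (pet f f * N) * (coef f m * (((m : ℝ) ^ (-a) : ℝ) : ℂ))
    have e2 : (((m : ℝ) ^ a : ℝ) : ℂ) * (((m : ℝ) ^ (-a) : ℝ) : ℂ) = 1 := by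
      rw [← Complex.ofReal_mul, ← Real.rpow_add hm', add_neg_cancel, Real.rpow_zero,
        Complex.ofReal_one]
    have e3 : ((cst w 1 * ((m : ℝ) ^ (-(((w : ℝ) - 1) / 2)) *
        (m : ℝ) ^ (-(((w : ℝ) - 1) / 2))) : ℝ) : ℂ) =
        (cst w 1 : ℂ) * ((((m : ℝ) ^ (-a) : ℝ) : ℂ) * (((m : ℝ) ^ (-a) : ℝ) : ℂ)) := by
      push_cast
      rfl
    rw [e3]
    field_simp
    linear_combination (coef f m * (cst w 1 : ℂ) * (((m : ℝ) ^ (-a) : ℝ) : ℂ) * Λ f) * e2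
  -- the numbers
  have hb1 : b 1 = 1 := by
    show bψ ψ 1 * ((((1 : ℕ) : ℝ) ^ (-((k : ℝ) / 2)) : ℝ) : ℂ) = 1
    rw [hbone, Nat.cast_one, Real.one_rpow, Complex.ofReal_one, mul_one]
  have hbd : ∀ m, 1 ≤ m → ‖b m‖ ≤ (m.divisors.card : ℝ) := by
    intro m hm
    have hm' : (0 : ℝ) < m := by exact_mod_cast hm
    show ‖bψ ψ m * (((m : ℝ) ^ (-((k : ℝ) / 2)) : ℝ) : ℂ)‖ ≤ _
    rw [norm_mul, Complex.norm_real, Real.norm_of_nonneg (Real.rpow_nonneg hm'.le _)]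
    calc ‖bψ ψ m‖ * (m : ℝ) ^ (-((k : ℝ) / 2))
        ≤ ((m.divisors.card : ℝ) * (m : ℝ) ^ ((k : ℝ) / 2)) * (m : ℝ) ^ (-((k : ℝ) / 2)) :=
          mul_le_mul_of_nonneg_right (bpsi_le hm hψn (hcard m hm)) (Real.rpow_nonneg hm'.le _)
      _ = (m.divisors.card : ℝ) := by
          rw [mul_assoc, ← Real.rpow_add hm', add_neg_cancel, Real.rpow_zero, mul_one]
  have hgb : ∀ m, 1 ≤ m → m ^ 4 ≤ r →
      ‖g m - b m * (((m : ℝ) ^ (-(1 : ℝ) / 2) : ℝ) : ℂ) * z‖ ≤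
        C * ((m.divisors.card : ℝ) * (1 + Real.log m) * (m : ℝ) ^ (-(1 : ℝ) / 2) +
          (m : ℝ) ^ ((9 : ℝ) / 10) * (r : ℝ) ^ (-(1 : ℝ) / 5)) := by
    intro m hm hmr
    have hm' : (0 : ℝ) < m := by exact_mod_cast hm
    have h := hP m (P m) hm hmr (hPp m hm)
    rw [← ha, ← hΛ] at h
    have e1 : (((m : ℝ) ^ (-((k : ℝ) + 1) / 2) : ℝ) : ℂ) =
        (((m : ℝ) ^ (-((k : ℝ) / 2)) : ℝ) : ℂ) * (((m : ℝ) ^ (-(1 : ℝ) / 2) : ℝ) : ℂ) := by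
      rw [← Complex.ofReal_mul, ← Real.rpow_add hm']
      congr 2
      ring
    have e2 : (((m : ℝ) ^ a : ℝ) : ℂ) * Λ (P m) -
        (N : ℂ) * ((bψ ψ m * (((m : ℝ) ^ (-((k : ℝ) + 1) / 2) : ℝ) : ℂ)) * z) =
        (N : ℂ) * (g m - b m * (((m : ℝ) ^ (-(1 : ℝ) / 2) : ℝ) : ℂ) * z) := by
      show _ = (N : ℂ) * ((((m : ℝ) ^ a : ℝ) : ℂ) * Λ (P m) / N -
        bψ ψ m * (((m : ℝ) ^ (-((k : ℝ) / 2)) : ℝ) : ℂ) *
          (((m : ℝ) ^ (-(1 : ℝ) / 2) : ℝ) : ℂ) * z)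
      rw [e1]
      field_simp
    have h' : ‖(N : ℂ) * (g m - b m * (((m : ℝ) ^ (-(1 : ℝ) / 2) : ℝ) : ℂ) * z)‖ ≤
        C * N * ((m.divisors.card : ℝ) * (1 + Real.log m) * (m : ℝ) ^ (-(1 : ℝ) / 2) +
          (m : ℝ) ^ ((9 : ℝ) / 10) * (r : ℝ) ^ (-(1 : ℝ) / 5)) := by
      rw [← e2]
      exact h
    rw [norm_mul, Complex.norm_real, Real.norm_of_nonneg hN0.le] at h'
    have h'' : N * ‖g m - b m * (((m : ℝ) ^ (-(1 : ℝ) / 2) : ℝ) : ℂ) * z‖ ≤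
        N * (C * ((m.divisors.card : ℝ) * (1 + Real.log m) * (m : ℝ) ^ (-(1 : ℝ) / 2) +
          (m : ℝ) ^ ((9 : ℝ) / 10) * (r : ℝ) ^ (-(1 : ℝ) / 5))) := by
      refine h'.trans (le_of_eq ?_)
      ring
    exact le_of_mul_le_mul_left h'' hN0
  have hdom := hS3 z g b hz hb1 hbd hgb
  -- the matrix
  let G : ℕ → ℕ → ℂ := fun p q => if p = q then g (p * p) + g 1 else g (p * q)
  have hG : ∀ p ∈ S, ∀ q ∈ S, G p q = ∑ f ∈ E, μ f * l p f * l q f := by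
    intro p hp q hq
    have hp1 := (hS2 p hp).1
    have hq1 := (hS2 q hq).1
    have hp' : (0 : ℝ) ≤ p := Nat.cast_nonneg p
    have hq' : (0 : ℝ) ≤ q := Nat.cast_nonneg q
    show (if p = q then g (p * p) + g 1 else g (p * q)) = _
    split_ifs with hpq
    · subst hpq
      rw [hg (p * p) (Nat.mul_pos hp1.pos hp1.pos), hg 1 le_rfl, ← Finset.sum_add_distrib]
      refine Finset.sum_congr rfl fun f hf => ?_
      have hfe : IsEigen f := (hE f).1 hf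
      have e1 := coef_mul_prime hfe hp1 hp1.pos
      rw [if_pos dvd_rfl, Nat.div_self hp1.pos, hfe.one, mul_one] at e1
      have e2 := pw_one (w := w) hp1.pos (by omega)
      show μ f * (coef f (p * p) * ((((p * p : ℕ) : ℝ) ^ (-a) : ℝ) : ℂ)) +
        μ f * (coef f 1 * ((((1 : ℕ) : ℝ) ^ (-a) : ℝ) : ℂ)) =
        μ f * (coef f p * (((p : ℝ) ^ (-a) : ℝ) : ℂ)) * (coef f p * (((p : ℝ) ^ (-a) : ℝ) : ℂ))
      have e3 : ((((p * p : ℕ) : ℝ) ^ (-a) : ℝ) : ℂ) =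
          (((p : ℝ) ^ (-a) : ℝ) : ℂ) * (((p : ℝ) ^ (-a) : ℝ) : ℂ) := by
        rw [Nat.cast_mul, Real.mul_rpow hp' hp', Complex.ofReal_mul]
      rw [e3, hfe.one, Nat.cast_one, Real.one_rpow, Complex.ofReal_one]
      have e4 : ((p : ℂ) ^ (w - 1)) *
        ((((p : ℝ) ^ (-a) : ℝ) : ℂ) * (((p : ℝ) ^ (-a) : ℝ) : ℂ)) = 1 := e2
      linear_combination (-μ f * ((((p : ℝ) ^ (-a) : ℝ) : ℂ) * (((p : ℝ) ^ (-a) : ℝ) : ℂ))) * e1 -
        μ f * e4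
    · rw [hg (p * q) (Nat.mul_pos hp1.pos hq1.pos)]
      refine Finset.sum_congr rfl fun f hf => ?_
      have hfe : IsEigen f := (hE f).1 hf
      have e1 := coef_mul_prime hfe hp1 hq1.pos
      rw [if_neg (fun h => hpq ((Nat.prime_dvd_prime_iff_eq hp1 hq1).1 h)), add_zero] at e1
      show μ f * (coef f (p * q) * ((((p * q : ℕ) : ℝ) ^ (-a) : ℝ) : ℂ)) =
        μ f * (coef f p * (((p : ℝ) ^ (-a) : ℝ) : ℂ)) * (coef f q * (((q : ℝ) ^ (-a) : ℝ) : ℂ))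
      rw [← e1, Nat.cast_mul, Real.mul_rpow hp' hq', Complex.ofReal_mul]
      ring
  have hrow : ∀ p ∈ S, ∑ q ∈ S.erase p, ‖G p q‖ < ‖G p p‖ := by
    intro p hp
    have h := hdom p hp
    have e1 : G p p = g (p * p) + g 1 := if_pos rfl
    rw [e1]
    refine lt_of_le_of_lt (le_of_eq ?_) h
    refine Finset.sum_congr rfl fun q hq => ?_
    have e2 : G p q = g (p * q) := if_neg (Finset.ne_of_mem_erase hq).symm
    rw [e2]
  obtain ⟨E', hE'1, hE'2, hE'3⟩ := h3 ℕ (CuspForm 𝒮ℒ (w : ℤ)) inferInstance S E μ l G hG hrow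
  refine ⟨E', hS1.trans (by exact_mod_cast hE'2), fun f hf => ⟨(hE f).1 (hE'1 hf), fun h0 => ?_⟩⟩
  apply hE'3 f hf
  show (cst w 1 : ℂ) * Λ f / (pet f f * N) = 0
  rw [hΛ f, h0, mul_zero, zero_div]

end RZ

end Pool.Agent.Lib.MP_7c08ba_nt
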