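import Pool.Agent.Lib.MP_7c08ba_nt.RZ.StRm

set_option autoImplicit false

/-!
Strict diagonal dominance of the matrix of the derivatives, for large `r`.
-/

namespace Pool.Agent.Lib.MP_7c08ba_nt

namespace RZ

namespace NumAux

open Finset
open scoped Pointwise

theorem card_div (p q : ℕ) (hp : p.Prime) (hq : q.Prime) : (p * q).divisors.card ≤ 4 := by
  rw [Nat.divisors_mul]
  refine le_trans Finset.card_mul_le ?_
  rw [hp.divisors, hq.divisors, Finset.card_pair hp.one_lt.ne, Finset.card_pair hq.one_lt.ne]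

theorem rpow_half (x : ℝ) (hx : 0 < x) : (x ^ 10) ^ (-(1 : ℝ) / 2) = (x ^ 5)⁻¹ := by
  rw [← Real.rpow_natCast x 10, ← Real.rpow_mul hx.le, ← Real.rpow_natCast x 5,
    ← Real.rpow_neg hx.le]
  norm_num

theorem rpow_fifth (x : ℝ) (hx : 0 < x) : (x ^ 80) ^ (-(1 : ℝ) / 5) = (x ^ 16)⁻¹ := by
  rw [← Real.rpow_natCast x 80, ← Real.rpow_mul hx.le, ← Real.rpow_natCast x 16,
    ← Real.rpow_neg hx.le]
  norm_num

theorem rpow_nine (x : ℝ) (hx : 1 ≤ x) : (x ^ 12) ^ ((9 : ℝ) / 10) ≤ x ^ 11 := by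
  rw [← Real.rpow_natCast x 12, ← Real.rpow_mul (by linarith), ← Real.rpow_natCast x 11]
  exact Real.rpow_le_rpow_of_exponent_le hx (by norm_num)

theorem m_half (x m : ℝ) (hx : 1 ≤ x) (h : x ^ 10 ≤ m) : m ^ (-(1 : ℝ) / 2) ≤ (x ^ 5)⁻¹ := by
  rw [← rpow_half x (by linarith)]
  exact Real.rpow_le_rpow_of_nonpos (by positivity) h (by norm_num)

theorem err_le (x m r d : ℝ) (hx : 1 ≤ x) (h1 : x ^ 10 ≤ m) (h2 : m ≤ x ^ 12)
    (h3 : x ^ 80 ≤ r) (hd4 : d ≤ 4) :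
    d * (1 + Real.log m) * m ^ (-(1 : ℝ) / 2) + m ^ ((9 : ℝ) / 10) * r ^ (-(1 : ℝ) / 5) ≤
      53 * (x ^ 4)⁻¹ := by
  have hx0 : 0 < x := by linarith
  have hm1 : 1 ≤ m := le_trans (one_le_pow₀ hx) h1
  have hm0 : 0 < m := by linarith
  have hlog : 1 + Real.log m ≤ 13 * x := by
    have h4 : Real.log m ≤ Real.log (x ^ 12) := Real.log_le_log hm0 h2
    rw [Real.log_pow] at h4
    have h5 := Real.log_le_sub_one_of_pos hx0
    push_cast at h4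
    linarith
  have hlog0 : 0 ≤ 1 + Real.log m := by
    have := Real.log_nonneg hm1
    linarith
  have hh := m_half x m hx h1
  have hh0 : 0 ≤ m ^ (-(1 : ℝ) / 2) := Real.rpow_nonneg hm0.le _
  have e1 : d * (1 + Real.log m) * m ^ (-(1 : ℝ) / 2) ≤ 4 * (13 * x) * (x ^ 5)⁻¹ := by
    gcongr
  have e2 : m ^ ((9 : ℝ) / 10) ≤ x ^ 11 :=
    le_trans (Real.rpow_le_rpow hm0.le h2 (by norm_num)) (rpow_nine x hx)
  have e3 : r ^ (-(1 : ℝ) / 5) ≤ (x ^ 16)⁻¹ := by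
    rw [← rpow_fifth x hx0]
    exact Real.rpow_le_rpow_of_nonpos (by positivity) h3 (by norm_num)
  have hr0 : 0 ≤ r := le_trans (by positivity) h3
  have e4 : m ^ ((9 : ℝ) / 10) * r ^ (-(1 : ℝ) / 5) ≤ x ^ 11 * (x ^ 16)⁻¹ := by
    gcongr
  have e5 : 4 * (13 * x) * (x ^ 5)⁻¹ = 52 * (x ^ 4)⁻¹ := by
    field_simp
    ring
  have e6 : x ^ 11 * (x ^ 16)⁻¹ ≤ (x ^ 4)⁻¹ := by
    have h7 : x ^ 11 * (x ^ 16)⁻¹ = (x ^ 5)⁻¹ := by
      field_simp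
    rw [h7]
    exact inv_anti₀ (by positivity) (pow_le_pow_right₀ hx (by norm_num))
  rw [e5] at e1
  linarith

/-- the final comparison of the real numbers -/
theorem final (x Z C : ℝ) (hx : 136 ≤ x) (hZ : 0 ≤ Z) (hC : 0 < C) (h : 1806 * C < Z) :
    16 * x ^ 4 * (4 * (x ^ 5)⁻¹ * Z + C * (53 * (x ^ 4)⁻¹)) <
      Z - 4 * (x ^ 5)⁻¹ * Z - C * (53 * (x ^ 4)⁻¹) - C * 2 := by
  have hx0 : 0 < x := by linarith
  have e1 : 16 * x ^ 4 * (4 * (x ^ 5)⁻¹ * Z + C * (53 * (x ^ 4)⁻¹)) =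
      64 * x⁻¹ * Z + 848 * C := by
    field_simp
    ring
  have e2 : x⁻¹ ≤ 136⁻¹ := inv_anti₀ (by norm_num) hx
  have e3 : (x ^ 5)⁻¹ ≤ x⁻¹ :=
    inv_anti₀ hx0 (le_self_pow₀ (by linarith) (by norm_num))
  have e4 : (x ^ 4)⁻¹ ≤ 1 := inv_le_one_of_one_le₀ (one_le_pow₀ (by linarith))
  have e5 : (x ^ 5)⁻¹ ≤ 136⁻¹ := le_trans e3 e2
  have f1 : x⁻¹ * Z ≤ 136⁻¹ * Z := mul_le_mul_of_nonneg_right e2 hZ
  have f2 : (x ^ 5)⁻¹ * Z ≤ 136⁻¹ * Z := mul_le_mul_of_nonneg_right e5 hZ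
  have f3 : C * (x ^ 4)⁻¹ ≤ C * 1 := mul_le_mul_of_nonneg_left e4 hC.le
  rw [e1]
  nlinarith

end NumAux

open NumAux

theorem stNum (h : StPrC) : StNum := by
  intro L C hL hC
  obtain ⟨u₀, hu₀⟩ := h
  set U : ℕ := max u₀ 136 with hU
  refine ⟨max (U ^ 80) (⌈Real.exp (1808 * C / L)⌉₊), fun r hr => ?_⟩
  have hr1 : U ^ 80 ≤ r := le_trans (le_max_left _ _) hr
  have hr2 : Real.exp (1808 * C / L) ≤ r :=
    le_trans (Nat.le_ceil _) (by exact_mod_cast le_trans (le_max_right _ _) hr)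
  have hlogr : 1808 * C ≤ L * Real.log r := by
    have h1 := Real.log_le_log (Real.exp_pos _) hr2
    rw [Real.log_exp] at h1
    rw [div_le_iff₀ hL] at h1
    linarith
  set u : ℕ := ⌊(r : ℝ) ^ ((1 : ℝ) / 80)⌋₊ with hu
  have hr0 : (0 : ℝ) ≤ r := Nat.cast_nonneg r
  have hpow : ((r : ℝ) ^ ((1 : ℝ) / 80)) ^ 80 = r := by
    rw [← Real.rpow_natCast, ← Real.rpow_mul hr0]
    norm_num
  have hrt0 : (0 : ℝ) ≤ (r : ℝ) ^ ((1 : ℝ) / 80) := Real.rpow_nonneg hr0 _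
  have hUu : U ≤ u := by
    refine Nat.le_floor ?_
    refine le_of_pow_le_pow_left₀ (n := 80) (by norm_num) hrt0 ?_
    rw [hpow]
    exact_mod_cast hr1
  have hu136 : 136 ≤ u := le_trans (le_max_right _ _) hUu
  have huu0 : u₀ ≤ u := le_trans (le_max_left _ _) hUu
  have hur : (u : ℝ) ^ 80 ≤ r := by
    rw [← hpow]
    exact pow_le_pow_left₀ (Nat.cast_nonneg _) (Nat.floor_le hrt0) 80
  have hurN : u ^ 80 ≤ r := by exact_mod_cast hur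
  have hru : (r : ℝ) ^ ((1 : ℝ) / 20) ≤ ((u : ℝ) + 1) ^ 4 := by
    have h1 : (r : ℝ) ^ ((1 : ℝ) / 20) = ((r : ℝ) ^ ((1 : ℝ) / 80)) ^ 4 := by
      rw [← Real.rpow_natCast, ← Real.rpow_mul hr0]
      norm_num
    rw [h1]
    exact pow_le_pow_left₀ hrt0 (Nat.lt_floor_add_one _).le 4
  obtain ⟨S, hS, hSp⟩ := hu₀ u huu0
  have hu1 : 1 ≤ u := by omega
  have hx : (136 : ℝ) ≤ u := by exact_mod_cast hu136
  have hx1 : (1 : ℝ) ≤ u := by linarith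
  refine ⟨S, ?_, ?_, ?_⟩
  · rw [hS]
    push_cast
    exact hru
  · intro p hp
    obtain ⟨h1, h2, h3⟩ := hSp p hp
    refine ⟨h1, ?_⟩
    calc p ^ 8 ≤ (u ^ 6) ^ 8 := Nat.pow_le_pow_left h3 8
      _ = u ^ 48 := by ring
      _ ≤ u ^ 80 := Nat.pow_le_pow_right hu1 (by norm_num)
      _ ≤ r := hurN
  intro z g b hz hb1 hb hg p hp
  have key : ∀ q ∈ S, ‖b (p * q) * ((((p * q : ℕ) : ℝ) ^ (-(1 : ℝ) / 2) : ℝ) : ℂ) * z‖ ≤
      4 * ((u : ℝ) ^ 5)⁻¹ * ‖z‖ ∧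
      ‖g (p * q) - b (p * q) * ((((p * q : ℕ) : ℝ) ^ (-(1 : ℝ) / 2) : ℝ) : ℂ) * z‖ ≤
        C * (53 * ((u : ℝ) ^ 4)⁻¹) := by
    intro q hq
    obtain ⟨p1, p2, p3⟩ := hSp p hp
    obtain ⟨q1, q2, q3⟩ := hSp q hq
    have hm1 : 1 ≤ p * q := Nat.mul_pos p1.pos q1.pos
    have hlo : u ^ 10 ≤ p * q := by
      calc u ^ 10 = u ^ 5 * u ^ 5 := by ring
        _ ≤ p * q := Nat.mul_le_mul p2.le q2.le
    have hhi : p * q ≤ u ^ 12 := by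
      calc p * q ≤ u ^ 6 * u ^ 6 := Nat.mul_le_mul p3 q3
        _ = u ^ 12 := by ring
    have hm4 : (p * q) ^ 4 ≤ r := by
      calc (p * q) ^ 4 ≤ (u ^ 12) ^ 4 := Nat.pow_le_pow_left hhi 4
        _ = u ^ 48 := by ring
        _ ≤ u ^ 80 := Nat.pow_le_pow_right hu1 (by norm_num)
        _ ≤ r := hurN
    have hlo' : (u : ℝ) ^ 10 ≤ ((p * q : ℕ) : ℝ) := by exact_mod_cast hlo
    have hhi' : ((p * q : ℕ) : ℝ) ≤ (u : ℝ) ^ 12 := by exact_mod_cast hhi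
    have hd : (((p * q).divisors.card : ℕ) : ℝ) ≤ 4 := by
      exact_mod_cast card_div p q p1 q1
    have hmh := m_half (u : ℝ) ((p * q : ℕ) : ℝ) hx1 hlo'
    have hmh0 : 0 ≤ ((p * q : ℕ) : ℝ) ^ (-(1 : ℝ) / 2) := Real.rpow_nonneg (Nat.cast_nonneg _) _
    constructor
    · rw [norm_mul, norm_mul, Complex.norm_real, Real.norm_of_nonneg hmh0]
      have hb4 : ‖b (p * q)‖ ≤ 4 := le_trans (hb _ hm1) hd
      gcongr
    · refine le_trans (hg _ hm1 hm4) ?_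
      refine mul_le_mul_of_nonneg_left ?_ hC.le
      exact err_le (u : ℝ) ((p * q : ℕ) : ℝ) r _ hx1 hlo' hhi' hur hd
  have key1 : ∀ q ∈ S, ‖g (p * q)‖ ≤ 4 * ((u : ℝ) ^ 5)⁻¹ * ‖z‖ + C * (53 * ((u : ℝ) ^ 4)⁻¹) := by
    intro q hq
    obtain ⟨h1, h2⟩ := key q hq
    have h3 := norm_sub_norm_le (g (p * q))
      (b (p * q) * ((((p * q : ℕ) : ℝ) ^ (-(1 : ℝ) / 2) : ℝ) : ℂ) * z)
    linarith
  have hg1 : ‖g 1 - z‖ ≤ C * 2 := by
    have h1 := hg 1 le_rfl (by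
      rw [one_pow]
      exact le_trans (Nat.one_le_pow _ _ hu1) hurN)
    rw [hb1] at h1
    simp only [Nat.cast_one, Real.one_rpow, Complex.ofReal_one, one_mul, Nat.divisors_one,
      Finset.card_singleton, Real.log_one, add_zero, mul_one] at h1
    refine le_trans h1 (mul_le_mul_of_nonneg_left ?_ hC.le)
    have h2 : (r : ℝ) ^ (-(1 : ℝ) / 5) ≤ 1 := by
      refine Real.rpow_le_one_of_one_le_of_nonpos ?_ (by norm_num)
      exact le_trans (one_le_pow₀ hx1) hur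
    linarith
  have hsum : ∑ q ∈ S.erase p, ‖g (p * q)‖ ≤
      16 * (u : ℝ) ^ 4 * (4 * ((u : ℝ) ^ 5)⁻¹ * ‖z‖ + C * (53 * ((u : ℝ) ^ 4)⁻¹)) := by
    have h1 : ∑ q ∈ S.erase p, ‖g (p * q)‖ ≤
        ((S.erase p).card) • (4 * ((u : ℝ) ^ 5)⁻¹ * ‖z‖ + C * (53 * ((u : ℝ) ^ 4)⁻¹)) :=
      Finset.sum_le_card_nsmul _ _ _ (fun q hq => key1 q (Finset.mem_of_mem_erase hq))
    refine le_trans h1 ?_
    rw [nsmul_eq_mul]
    refine mul_le_mul_of_nonneg_right ?_ (by positivity)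
    have h2 : (S.erase p).card ≤ (u + 1) ^ 4 := by
      rw [← hS]
      exact Finset.card_le_card (Finset.erase_subset _ _)
    have h3 : (((S.erase p).card : ℕ) : ℝ) ≤ ((u : ℝ) + 1) ^ 4 := by exact_mod_cast h2
    refine le_trans h3 ?_
    calc ((u : ℝ) + 1) ^ 4 ≤ (2 * (u : ℝ)) ^ 4 :=
          pow_le_pow_left₀ (by positivity) (by linarith) 4
      _ = 16 * (u : ℝ) ^ 4 := by ring
  have hZ : 1806 * C < ‖z‖ := by linarith
  have hdiag : ‖z‖ - 4 * ((u : ℝ) ^ 5)⁻¹ * ‖z‖ - C * (53 * ((u : ℝ) ^ 4)⁻¹) - C * 2 ≤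
      ‖g (p * p) + g 1‖ := by
    have h1 := key1 p hp
    have h2 : ‖z‖ ≤ ‖g (p * p) + g 1‖ + ‖g (p * p)‖ + ‖g 1 - z‖ := by
      have h3 : z = (g (p * p) + g 1) - g (p * p) - (g 1 - z) := by ring
      calc ‖z‖ = ‖(g (p * p) + g 1) - g (p * p) - (g 1 - z)‖ := by rw [← h3]
        _ ≤ ‖(g (p * p) + g 1) - g (p * p)‖ + ‖g 1 - z‖ := norm_sub_le _ _
        _ ≤ ‖g (p * p) + g 1‖ + ‖g (p * p)‖ + ‖g 1 - z‖ := by
            have := norm_sub_le (g (p * p) + g 1) (g (p * p))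
            linarith
    linarith
  calc ∑ q ∈ S.erase p, ‖g (p * q)‖ ≤ _ := hsum
    _ < _ := final (u : ℝ) ‖z‖ C hx (norm_nonneg _) hC hZ
    _ ≤ _ := hdiag

end RZ

end Pool.Agent.Lib.MP_7c08ba_nt
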