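import Pool.Agent.Lib.MP_7c08ba_nt.RZ.StRm

set_option autoImplicit false

/-!
Module (Q14): many primes of about the same size.
-/

namespace Pool.Agent.Lib.MP_7c08ba_nt

namespace RZ

namespace PrCAux

theorem real_bound {u : ℕ} (hu : 10000 ≤ u) :
    ((u : ℝ) ^ 5 + ((u : ℝ) + 1) ^ 4) * (6 * Real.log u) ≤
      (u : ℝ) ^ 6 * Real.log 2 - Real.log ((u : ℝ) ^ 6 + 1) := by
  have hu' : (10000 : ℝ) ≤ u := by exact_mod_cast hu
  set s : ℝ := Real.sqrt u with hs
  have hs2 : s ^ 2 = u := Real.sq_sqrt (by positivity)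
  have hs100 : 100 ≤ s := by
    rw [hs]
    apply Real.le_sqrt_of_sq_le
    linarith
  have hlog : Real.log u ≤ 2 * s := by
    have h1 : Real.log u = 2 * Real.log s := by
      rw [← hs2, Real.log_pow]
      norm_num
    have h2 := Real.log_le_sub_one_of_pos (show (0 : ℝ) < s by linarith)
    rw [h1]
    linarith
  have hlog0 : 0 ≤ Real.log u := Real.log_nonneg (by linarith)
  have h2 : (1 : ℝ) / 2 ≤ Real.log 2 := by
    have := Real.log_two_gt_d9
    linarith
  have h3 : Real.log ((u : ℝ) ^ 6 + 1) ≤ 6 * u := by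
    have h4 : (u : ℝ) ^ 6 + 1 ≤ ((u : ℝ) + 1) ^ 6 := by
      have h0 : (0 : ℝ) ≤ u := by positivity
      nlinarith [pow_nonneg h0 2, pow_nonneg h0 3, pow_nonneg h0 4, pow_nonneg h0 5]
    have h5 : Real.log ((u : ℝ) ^ 6 + 1) ≤ Real.log (((u : ℝ) + 1) ^ 6) :=
      Real.log_le_log (by positivity) h4
    rw [Real.log_pow] at h5
    have h6 := Real.log_le_sub_one_of_pos (show (0 : ℝ) < (u : ℝ) + 1 by positivity)
    push_cast at h5
    linarith
  have h4 : ((u : ℝ) + 1) ^ 4 ≤ (u : ℝ) ^ 5 := by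
    have h5 : (u : ℝ) + 1 ≤ 2 * u := by linarith
    calc ((u : ℝ) + 1) ^ 4 ≤ (2 * u) ^ 4 := pow_le_pow_left₀ (by positivity) h5 4
      _ = 16 * (u : ℝ) ^ 4 := by ring
      _ ≤ u * (u : ℝ) ^ 4 := by
        apply mul_le_mul_of_nonneg_right _ (by positivity)
        linarith
      _ = (u : ℝ) ^ 5 := by ring
  have h5 : ((u : ℝ) ^ 5 + ((u : ℝ) + 1) ^ 4) * (6 * Real.log u) ≤
      (2 * (u : ℝ) ^ 5) * (12 * s) := by
    apply mul_le_mul
    · linarith
    · linarith
    · positivity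
    · positivity
  have h6 : (u : ℝ) ^ 6 * (1 / 2) ≤ (u : ℝ) ^ 6 * Real.log 2 :=
    mul_le_mul_of_nonneg_left h2 (by positivity)
  have h7 : (2 * (u : ℝ) ^ 5) * (12 * s) ≤ (u : ℝ) ^ 6 * (1 / 2) - 6 * u := by
    rw [← hs2]
    have e1 : 2 * (s ^ 2) ^ 5 * (12 * s) = 24 * s ^ 11 := by ring
    have e2 : (s ^ 2) ^ 6 * (1 / 2) = s * s ^ 11 / 2 := by ring
    rw [e1, e2]
    have h8 : 100 * s ^ 11 ≤ s * s ^ 11 := mul_le_mul_of_nonneg_right hs100 (by positivity)
    have h9 : s ^ 2 ≤ s ^ 11 := pow_le_pow_right₀ (by linarith) (by norm_num)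
    linarith [pow_nonneg (show (0 : ℝ) ≤ s by linarith) 11]
  linarith

theorem count {u : ℕ} (hu : 10000 ≤ u) :
    (u + 1) ^ 4 ≤ ((Finset.Ioc (u ^ 5) (u ^ 6)).filter Nat.Prime).card := by
  have h1 := Chebyshev.pi_ge (u ^ 6)
  have hu1 : (1 : ℝ) < u := by
    have : (10000 : ℝ) ≤ u := by exact_mod_cast hu
    linarith
  have hlog : 0 < Real.log u := Real.log_pos hu1
  have h2 : (u : ℝ) ^ 5 + ((u : ℝ) + 1) ^ 4 ≤ Nat.primeCounting (u ^ 6) := by
    refine le_trans ?_ h1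
    push_cast
    rw [Real.log_pow, le_div_iff₀ (by push_cast; positivity)]
    push_cast
    exact real_bound hu
  have h3 : Nat.primeCounting (u ^ 6) ≤
      u ^ 5 + ((Finset.Ioc (u ^ 5) (u ^ 6)).filter Nat.Prime).card := by
    have e1 : Nat.primeCounting (u ^ 6) =
        ((Finset.range (u ^ 6 + 1)).filter Nat.Prime).card := by
      rw [Nat.primeCounting, Nat.primeCounting', Nat.count_eq_card_filter_range]
    rw [e1]
    have e2 : (Finset.range (u ^ 6 + 1)).filter Nat.Prime ⊆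
        Finset.Ioc 0 (u ^ 5) ∪ (Finset.Ioc (u ^ 5) (u ^ 6)).filter Nat.Prime := by
      intro p hp
      rw [Finset.mem_filter, Finset.mem_range] at hp
      rw [Finset.mem_union, Finset.mem_filter, Finset.mem_Ioc, Finset.mem_Ioc]
      have := hp.2.pos
      by_cases h : p ≤ u ^ 5
      · left
        exact ⟨this, h⟩
      · right
        exact ⟨⟨by omega, by omega⟩, hp.2⟩
    refine (Finset.card_le_card e2).trans ((Finset.card_union_le _ _).trans ?_)
    rw [Nat.card_Ioc]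
    omega
  have h4 : u ^ 5 + (u + 1) ^ 4 ≤ Nat.primeCounting (u ^ 6) := by exact_mod_cast h2
  omega

end PrCAux

/-- (Q14) many primes of about the same size -/
theorem stPrC : StPrC := by
  refine ⟨10000, fun u hu => ?_⟩
  obtain ⟨S, hS, hc⟩ := Finset.exists_subset_card_eq (PrCAux.count hu)
  refine ⟨S, hc, fun p hp => ?_⟩
  have := hS hp
  rw [Finset.mem_filter, Finset.mem_Ioc] at this
  exact ⟨this.2, this.1.1, this.1.2⟩

end RZ

end Pool.Agent.Lib.MP_7c08ba_nt
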