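import Mathlib
import Pool.Agent.Lib.MP_7c08ba_nt.RZ.StX
import Pool.Agent.Lib.MP_7c08ba_nt.RZ.SuA

set_option autoImplicit false

/-! (X10): the sum over all cusps is holomorphic. -/

namespace Pool.Agent.Lib.MP_7c08ba_nt

namespace RZ

open NumberField MeasureTheory UpperHalfPlane Set IsDedekindDomain
open scoped MatrixGroups ComplexConjugate nonZeroDivisors

namespace SuXAux

open SuAux

/-- Series with a locally uniform bound. -/
theorem all_of_bound (r : ℕ) (u : ℂ → ℕ → ℂ)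
    (hd : ∀ n, DifferentiableOn ℂ (fun t => u t n) (Om r))
    (hb : ∀ R : ℝ, ∃ C : ℝ, ∀ (n : ℕ) (t : ℂ), t ∈ Om r → ‖t‖ ≤ R →
      ‖u t n‖ ≤ C * ((n : ℝ) + 1) ^ (-(11 / 8) : ℝ)) :
    DifferentiableOn ℂ (fun t => ∑' n, u t n) (Om r) ∧
    ∀ t ∈ Om r, (Summable fun n => ‖u t n‖) ∧
      HasSum (fun n => deriv (fun t => u t n) t) (deriv (fun t => ∑' n, u t n) t) := by
  have key : ∀ t ∈ Om r, ∃ (U : Set ℂ) (v : ℕ → ℝ), IsOpen U ∧ t ∈ U ∧ U ⊆ Om r ∧ Summable v ∧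
      ∀ n, ∀ z ∈ U, ‖u z n‖ ≤ v n := by
    intro t ht
    obtain ⟨C, hC⟩ := hb (‖t‖ + 1)
    refine ⟨Om r ∩ {z | ‖z‖ < ‖t‖ + 1}, fun n => C * ((n : ℝ) + 1) ^ (-(11 / 8) : ℝ),
      (isOpen_Om r).inter (isOpen_lt continuous_norm continuous_const), ⟨ht, ?_⟩,
      Set.inter_subset_left, summable_pow.mul_left C, fun n z hz => hC n z hz.1 (le_of_lt hz.2)⟩
    exact lt_add_one ‖t‖
  refine ⟨fun t ht => ?_, fun t ht => ?_⟩
  · obtain ⟨U, v, hU, htU, hUO, hv, hb⟩ := key t ht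
    have h2 := Complex.differentiableOn_tsum_of_summable_norm hv (fun n => (hd n).mono hUO) hU hb
    exact ((h2.differentiableAt (hU.mem_nhds htU))).differentiableWithinAt
  · obtain ⟨U, v, hU, htU, hUO, hv, hb⟩ := key t ht
    refine ⟨Summable.of_nonneg_of_le (fun _ => norm_nonneg _) (fun n => hb n t htU) hv, ?_⟩
    exact Complex.hasSum_deriv_of_summable_norm hv (fun n => (hd n).mono hUO) hU hb htU

theorem norm_ee_real (x : ℂ) (hx : x.im = 0) : ‖ee x‖ = 1 := by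
  unfold ee
  rw [Complex.norm_exp]
  have : (2 * (Real.pi : ℂ) * Complex.I * x).re = 0 := by
    simp [Complex.mul_re, Complex.mul_im, hx]
  rw [this, Real.exp_zero]

/-- The finite sums over the divisors, divided by `D`. -/
noncomputable def aG (D : ℕ) (χ : DirichletCharacter ℂ D) (m g n c : ℕ) : ℂ :=
  (∑ d ∈ Finset.range D, om D χ g c d *
    ee (-(((((n : ℤ) - ((m * D : ℕ) : ℤ)) / c : ℤ) : ℂ) * d / D))) / D

theorem om_le (D : ℕ) (χ : DirichletCharacter ℂ D) (g c : ℕ) (d : ℤ) : ‖om D χ g c d‖ ≤ 1 := by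
  unfold om
  split_ifs
  · exact DirichletCharacter.norm_le_one χ _
  · simp

theorem aG_le (D : ℕ) (hD : 1 ≤ D) (χ : DirichletCharacter ℂ D) (m g n c : ℕ) :
    ‖aG D χ m g n c‖ ≤ 1 := by
  unfold aG
  have hD' : (0 : ℝ) < D := by exact_mod_cast hD
  rw [norm_div, Complex.norm_natCast, div_le_one hD']
  refine (norm_sum_le _ _).trans ?_
  refine (Finset.sum_le_card_nsmul _ _ 1 fun d _ => ?_).trans (le_of_eq ?_)
  · rw [norm_mul]
    refine mul_le_one₀ (om_le D χ g c d) (norm_nonneg _) (le_of_eq (norm_ee_real _ ?_))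
    have : (-(((((n : ℤ) - ((m * D : ℕ) : ℤ)) / c : ℤ) : ℂ) * d / D)) =
        (((-(((((n : ℤ) - ((m * D : ℕ) : ℤ)) / c : ℤ) : ℝ) * d / D)) : ℝ) : ℂ) := by
      push_cast
      rfl
    rw [this]
    exact Complex.ofReal_im _
  · simp

theorem sG_eq (D : ℕ) (hD : 1 ≤ D) (χ : DirichletCharacter ℂ D) (m g n : ℕ) (e : ℂ) :
    sG D χ m g n e = D * ∑ c ∈ ((n : ℤ) - ((m * D : ℕ) : ℤ)).natAbs.divisors,
      aG D χ m g n c * (c : ℂ) ^ (-(2 * e)) := by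
  have hD' : (D : ℂ) ≠ 0 := by exact_mod_cast (by omega : D ≠ 0)
  unfold sG aG
  rw [Finset.mul_sum]
  refine Finset.sum_congr rfl fun c _ => ?_
  field_simp

theorem uX_eq (D : ℕ) (hD : 1 ≤ D) (χ : DirichletCharacter ℂ D) (k r m : ℕ) (θ : ℕ → ℕ → ℂ)
    (t : ℂ) (n : ℕ) :
    uX D χ k r m θ t n = ∑ g ∈ D.divisors, (wid D g : ℂ) * uu k r (m * D) (θ g)
      (fun n e => ∑ c ∈ ((n : ℤ) - ((m * D : ℕ) : ℤ)).natAbs.divisors,
        aG D χ m g n c * (c : ℂ) ^ (-(2 * e))) t n := by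
  have hD' : (D : ℂ) ≠ 0 := by exact_mod_cast (by omega : D ≠ 0)
  unfold uX uu OmX
  split_ifs with h
  · simp
  · rw [Finset.sum_mul]
    refine Finset.sum_congr rfl fun g _ => ?_
    rw [sG_eq D hD]
    field_simp

end SuXAux

open SuAux SuXAux in
theorem stSuX (h1 : StKpA) (_h2 : StGsX) (_h3 : StCom) : StSuX := by
  intro D hD0 F _ _ s σ χ cj k r m ψ c θ _ _ hθ hm
  have hD1 : 1 ≤ D := Nat.one_le_iff_ne_zero.mpr hD0.out
  have hDr : (1 : ℝ) ≤ D := by exact_mod_cast hD1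
  have hDc : (D : ℂ) ≠ 0 := by exact_mod_cast hD0.out
  have hmD : 1 ≤ m * D := Nat.one_le_iff_ne_zero.mpr (Nat.mul_ne_zero (by omega) hD0.out)
  have hρ : ∀ g ∈ D.divisors, ∀ n : ℕ, 1 ≤ n →
      ‖θ g n‖ ≤ (n.divisors.card : ℝ) * (n : ℝ) ^ ((k : ℝ) / 2) := by
    intro g hg n hn
    refine (hθ.bd g hg n hn).trans ?_
    gcongr
    exact div_le_self (Nat.cast_nonneg n) hDr
  have hd : ∀ n, DifferentiableOn ℂ (fun t => uX D χ k r m θ t n) (Om r) := by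
    intro n
    have h : (fun t => uX D χ k r m θ t n) = ∑ g ∈ D.divisors, fun t => (wid D g : ℂ) *
        uu k r (m * D) (θ g) (fun n e => ∑ c ∈ ((n : ℤ) - ((m * D : ℕ) : ℤ)).natAbs.divisors,
          aG D χ m g n c * (c : ℂ) ^ (-(2 * e))) t n := by
      ext t
      rw [Finset.sum_apply]
      exact uX_eq D hD1 χ k r m θ t n
    rw [h]
    refine DifferentiableOn.sum fun g _ => ?_
    exact (uu_diff h1 k r (m * D) hmD (θ g) _ (fun n => sum_diff _ _) n).const_mul _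
  have hb : ∀ R : ℝ, ∃ C : ℝ, ∀ (n : ℕ) (t : ℂ), t ∈ Om r → ‖t‖ ≤ R →
      ‖uX D χ k r m θ t n‖ ≤ C * ((n : ℝ) + 1) ^ (-(11 / 8) : ℝ) := by
    intro R
    have h : ∀ g : ℕ, ∃ C : ℝ, g ∈ D.divisors → ∀ (n : ℕ) (t : ℂ), t ∈ Om r → ‖t‖ ≤ R →
        ‖uu k r (m * D) (θ g) (fun n e => ∑ c ∈ ((n : ℤ) - ((m * D : ℕ) : ℤ)).natAbs.divisors,
          aG D χ m g n c * (c : ℂ) ^ (-(2 * e))) t n‖ ≤
            C * ((n : ℝ) + 1) ^ (-(11 / 8) : ℝ) := by
      intro g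
      by_cases hg : g ∈ D.divisors
      · obtain ⟨C, hC⟩ := uu_bound h1 k r (m * D) hmD (θ g)
          (fun n e => ∑ c ∈ ((n : ℤ) - ((m * D : ℕ) : ℤ)).natAbs.divisors,
            aG D χ m g n c * (c : ℂ) ^ (-(2 * e)))
          (fun n _ e he => sum_bound _ _ (fun c => aG_le D hD1 χ m g n c) e he) (hρ g hg) R
        exact ⟨C, fun _ => hC⟩
      · exact ⟨0, fun h => absurd h hg⟩
    choose C hC using h
    refine ⟨∑ g ∈ D.divisors, (wid D g : ℝ) * C g, fun n t ht htR => ?_⟩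
    rw [uX_eq D hD1, Finset.sum_mul]
    refine (norm_sum_le _ _).trans (Finset.sum_le_sum fun g hg => ?_)
    rw [norm_mul, Complex.norm_natCast, mul_assoc]
    exact mul_le_mul_of_nonneg_left (hC g hg n t ht htR) (Nat.cast_nonneg _)
  obtain ⟨h2, h3⟩ := all_of_bound r (uX D χ k r m θ) hd hb
  refine ⟨?_, h2, hd, fun t h4 h5 => h3 t ⟨h4, h5⟩⟩
  unfold SX
  refine DifferentiableOn.mul ?_ h2
  refine Differentiable.differentiableOn ?_
  exact Differentiable.const_cpow (by fun_prop) (Or.inl hDc)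

end RZ

end Pool.Agent.Lib.MP_7c08ba_nt
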