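import Pool.Agent.Lib.MP_7c08ba_nt.RZ.StX
import Pool.Agent.Lib.MP_7c08ba_nt.RZ.T2

set_option autoImplicit false

/-!
(X8) the contribution of the `D`-th coefficient of the theta series: Gamma identities
-/

namespace Pool.Agent.Lib.MP_7c08ba_nt

namespace RZ

open NumberField MeasureTheory UpperHalfPlane Set IsDedekindDomain
open scoped MatrixGroups ComplexConjugate nonZeroDivisors

open T2Aux in
theorem stT2X (h1 : StKD) (h2 : StFE) (h3 : StSgX) (h4 : StCom) : StT2X := by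
  intro D hN F _ _ s σ χ cj hD k r t ht1 ht2 ht3
  have hDpos : 0 < D := Nat.pos_of_ne_zero (NeZero.ne D)
  have hDr : (0 : ℝ) < D := by exact_mod_cast hDpos
  have hDc : (D : ℂ) ≠ 0 := by exact_mod_cast hDpos.ne'
  have hsD : (Real.sqrt D : ℂ) ≠ 0 := by
    have := Real.sqrt_pos.2 hDr
    exact_mod_cast this.ne'
  obtain ⟨⟨hQC, hinv, -, -⟩, -⟩ := h4 D hN F _ _ s σ χ cj hD
  have hFE := h2 D hN χ hQC.prim hQC.odd hinv (h3 D hN F _ _ s σ χ cj hD).1 (t + r)
    (by simp; linarith) (by simp; linarith)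
  have hid := gamma_id D hDpos (t + r) t r (by ring) (by simp; linarith) (by simp; linarith) ht3
    _ _ hFE
  rw [h1 k r D t hDpos ht1 ht3]
  unfold T2
  have hDD : (D : ℂ) ^ ((k : ℂ) + 1 - t) * (4 * Real.pi * D : ℂ) ^ (t - k - 1) =
      (4 * Real.pi : ℂ) ^ (t - k - 1) := by
    have e1 : (4 * Real.pi * D : ℂ) ^ (t - k - 1) =
        (4 * Real.pi : ℂ) ^ (t - k - 1) * (D : ℂ) ^ (t - k - 1) := by
      have h4 : (4 * Real.pi : ℂ) = ((4 * Real.pi : ℝ) : ℂ) := by push_cast; rfl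
      have h5 : (D : ℂ) = ((D : ℝ) : ℂ) := by push_cast; rfl
      rw [h4, h5, Complex.mul_cpow_ofReal_nonneg (by positivity) hDr.le]
    rw [e1, mul_left_comm, ← Complex.cpow_add _ _ hDc]
    have e2 : (k : ℂ) + 1 - t + (t - k - 1) = 0 := by ring
    rw [e2, Complex.cpow_zero, mul_one]
  have e3 : (2 : ℂ) * t + 2 * r = 2 * (t + r) := by ring
  have e4 : (1 : ℂ) - 2 * t - 2 * r = 1 - 2 * (t + r) := by ring
  have e5 : t + 2 * (r : ℂ) + 1 = 2 * r + 1 + t := by ring
  rw [e3, e4, e5]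
  calc _ = ((D : ℂ) ^ ((k : ℂ) + 1 - t) * (4 * Real.pi * D : ℂ) ^ (t - k - 1)) *
        (Complex.I * Complex.I) * Complex.Gamma (k + 1 - t) / Complex.Gamma (2 * r + 1 + t) *
        ((Real.pi / Real.sqrt D) * (-1) ^ r * DirichletCharacter.LFunction χ (2 * (t + r)) *
          Complex.Gamma (2 * (t + r)) * (2 : ℂ) ^ (1 - 2 * (t + r)) * (Complex.Gamma t)⁻¹) := by
        simp only [div_eq_mul_inv, mul_inv]
        ring
    _ = _ := by
        rw [hid, hDD, Complex.I_mul_I]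
        simp only [div_eq_mul_inv]
        ring

end RZ

end Pool.Agent.Lib.MP_7c08ba_nt
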