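import Mathlib
import Pool.Agent.Lib.MP_7c08ba_nt.RZ.StX

set_option autoImplicit false

/-!
(X13) The coefficients below `m D` vanish at the centre.
-/

namespace Pool.Agent.Lib.MP_7c08ba_nt

namespace RZ

open NumberField MeasureTheory UpperHalfPlane Set IsDedekindDomain
open scoped MatrixGroups ComplexConjugate nonZeroDivisors

namespace VanXM

/-- the terms `T1`, `T2` cancel at the centre -/
theorem T12 (D : ℕ) [NeZero D] (χ : DirichletCharacter ℂ D) (k r : ℕ) :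
    T1 D χ k r (-r) + T2 D χ k r (-r) = 0 := by
  unfold T1 T2
  have e1 : (2 * (r : ℂ) + 1 + 2 * (-(r : ℂ))) = 1 := by ring
  have e2 : ((k : ℂ) + 2 * r + 1 + -(r : ℂ)) = k + r + 1 := by ring
  have e3 : (2 * (-(r : ℂ) + r)) = 0 := by ring
  have e4 : (-(r : ℂ) - k - 1) = -((k : ℂ) + r + 1) := by ring
  have e5 : ((k : ℂ) + 1 - -(r : ℂ)) = k + r + 1 := by ring
  have e6 : (1 : ℂ) - -(r : ℂ) = r + 1 := by ring
  have e7 : (2 * (r : ℂ) + 1 + -(r : ℂ)) = r + 1 := by ring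
  have e8 : (1 : ℂ) - 0 = 1 := sub_zero 1
  have hΓ : Complex.Gamma ((r : ℂ) + 1) ≠ 0 := by
    rw [Complex.Gamma_nat_eq_factorial]
    exact_mod_cast r.factorial_ne_zero
  rw [e1, e2, e3, e4, e5, e6, e7, e8, Complex.cpow_zero, mul_one]
  field_simp
  ring

/-- the sum at the centre -/
theorem SX_eq {D : ℕ} (hD : 1 ≤ D) (χ : DirichletCharacter ℂ D) (k r m : ℕ) (hm : 1 ≤ m)
    (θ : ℕ → ℕ → ℂ) (h3 : StKpV) :
    SX D χ k r m θ (-r) = (D : ℂ) ^ ((k : ℂ) + 1 - -(r : ℂ)) *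
      ((-2 * Real.pi * Complex.I * ((k + r).factorial : ℂ) *
        ((4 * Real.pi * (m * D : ℕ) : ℂ) ^ (k + r + 1))⁻¹) *
        ∑ n ∈ Finset.range (m * D), OmX D χ m θ n 0 *
          (Jac k r ((n : ℝ) / (m * D : ℕ)) : ℂ)) := by
  have hmD : 1 ≤ m * D := Nat.mul_pos hm hD
  unfold SX
  congr 1
  rw [tsum_eq_sum (s := Finset.range (m * D))]
  · rw [Finset.mul_sum]
    refine Finset.sum_congr rfl fun n hn => ?_
    rw [Finset.mem_range] at hn
    unfold uX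
    rw [if_neg (by omega), neg_add_cancel, (h3 k r n (m * D) hmD).1 hn]
    ring
  · intro n hn
    rw [Finset.mem_range, not_lt] at hn
    unfold uX
    split_ifs with h
    · rfl
    · rw [(h3 k r n (m * D) hmD).2 (by omega), mul_zero]

end VanXM

open VanXM in
/-- (X13) the coefficients below `m D` vanish at the centre -/
theorem stVanX (h1 : StEqX) (h2 : StJacI) (h3 : StKpV) (h4 : StPoi) (h5 : StCom) (_h6 : StDT) :
    StVanX := by
  intro D hD F _ _ s σ χ cj k ψ c θ hDat hψ hθ hc m hm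
  obtain ⟨⟨-, -, -, hD4⟩, -, hk, -, hz⟩ := h5 D hD F _ _ s σ χ cj hDat
  have hke : Even k := (hk k ψ hψ).1
  have hD1 : 1 ≤ D := by omega
  have hmD : 1 ≤ m * D := Nat.mul_pos hm hD1
  have hD0 : (D : ℂ) ≠ 0 := by exact_mod_cast (by omega : D ≠ 0)
  have hmD0 : ((m * D : ℕ) : ℂ) ≠ 0 := by exact_mod_cast (by omega : m * D ≠ 0)
  apply h2 k (m * D) (fun n => OmX D χ m θ n 0) hmD
  intro r hr
  have hr' : (2 : ℝ) ≤ r := by exact_mod_cast hr
  obtain ⟨P, hP⟩ := h4 (k + 2 * r + 2) m (by omega) (by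
    obtain ⟨a, rfl⟩ := hke
    exact ⟨a + r + 1, by ring⟩) hm
  have e1 := h1 D hD F _ _ s σ χ cj (k + 2 * r + 2) k r m ψ c θ P hDat hψ hθ hc rfl hr hm hP (-r)
    (by simp) (by simp; linarith)
  have e2 : rsE D (HN D χ k r ψ c (-r)) P = 0 := by
    unfold rsE
    have : ∀ z : ℍ, trE D (k + 2 * r + 2) (HN D χ k r ψ c (-r)) z *
        P (ofComplex (-conj (z : ℂ))) * (z.im : ℂ) ^ (k + 2 * r + 2) = 0 := by
      intro z
      rw [(hz (k + 2 * r + 2) k r ψ c hψ rfl hc).2.2 z z.im_pos, zero_mul, zero_mul]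
    simp only [this, integral_zero]
  have e4 : (-((k : ℂ) + 2 * r + 1 + -(r : ℂ))) = (-(r : ℂ) - k - 1) := by ring
  have e5 : (m : ℂ) ^ (-((k : ℂ) + 2 * r + 1 + -(r : ℂ))) * T1 D χ k r (-r) +
      (m : ℂ) ^ (-(r : ℂ) - k - 1) * T2 D χ k r (-r) = 0 := by
    rw [e4, ← mul_add, T12, mul_zero]
  rw [e2, e5, mul_zero, zero_add, SX_eq hD1 χ k r m hm θ h3] at e1
  have n1 : (D : ℂ) ^ ((k : ℂ) + 1 - -(r : ℂ)) ≠ 0 := by
    rw [Complex.cpow_ne_zero_iff]
    exact Or.inl hD0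
  have n2 : (-2 * Real.pi * Complex.I * ((k + r).factorial : ℂ) *
      ((4 * Real.pi * (m * D : ℕ) : ℂ) ^ (k + r + 1))⁻¹) ≠ 0 := by
    have hpi : (Real.pi : ℂ) ≠ 0 := by exact_mod_cast Real.pi_ne_zero
    have hf : ((k + r).factorial : ℂ) ≠ 0 := by exact_mod_cast (k + r).factorial_ne_zero
    refine mul_ne_zero (mul_ne_zero (mul_ne_zero (mul_ne_zero (by norm_num) hpi)
      Complex.I_ne_zero) hf) (inv_ne_zero (pow_ne_zero _ ?_))
    exact mul_ne_zero (mul_ne_zero (by norm_num) hpi) hmD0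
  have e3 := (mul_eq_zero.mp ((mul_eq_zero.mp e1.symm).resolve_left n1)).resolve_left n2
  exact e3

end RZ

end Pool.Agent.Lib.MP_7c08ba_nt
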