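import Pool.Agent.Lib.MP_7c08ba_nt.RZ.AllR
import Pool.Agent.Lib.MP_7c08ba_nt.RZ.AllNE
import Pool.Agent.Lib.MP_7c08ba_nt.RZ.JacS
import Pool.Agent.Lib.MP_7c08ba_nt.RZ.ErS
import Pool.Agent.Lib.MP_7c08ba_nt.RZ.ErB
import Pool.Agent.Lib.MP_7c08ba_nt.RZ.PrC
import Pool.Agent.Lib.MP_7c08ba_nt.RZ.Num
import Pool.Agent.Lib.MP_7c08ba_nt.RZ.Cnt
import Pool.Agent.Lib.MP_7c08ba_nt.RZ.DTm
import Pool.Agent.Lib.MP_7c08ba_nt.RZ.Com
import Pool.Agent.Lib.MP_7c08ba_nt.RZ.ThX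
import Pool.Agent.Lib.MP_7c08ba_nt.RZ.EisX
import Pool.Agent.Lib.MP_7c08ba_nt.RZ.TrX
import Pool.Agent.Lib.MP_7c08ba_nt.RZ.GroX
import Pool.Agent.Lib.MP_7c08ba_nt.RZ.RsX
import Pool.Agent.Lib.MP_7c08ba_nt.RZ.GsX
import Pool.Agent.Lib.MP_7c08ba_nt.RZ.SgX
import Pool.Agent.Lib.MP_7c08ba_nt.RZ.T2X
import Pool.Agent.Lib.MP_7c08ba_nt.RZ.JRX
import Pool.Agent.Lib.MP_7c08ba_nt.RZ.SuX
import Pool.Agent.Lib.MP_7c08ba_nt.RZ.JacI
import Pool.Agent.Lib.MP_7c08ba_nt.RZ.EqX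
import Pool.Agent.Lib.MP_7c08ba_nt.RZ.VanX
import Pool.Agent.Lib.MP_7c08ba_nt.RZ.ErrX
import Pool.Agent.Lib.MP_7c08ba_nt.RZ.EllX
import Pool.Agent.Lib.MP_7c08ba_nt.RZ.ManyQ
import Pool.Agent.Lib.MP_7c08ba_nt.RZ.MainQ

/-!
RANK ONE, many forms, quantitative (MP_7c08ba_nt): the assembly. `aMainQ` is the analytic part
of the theorem, without any hypothesis: for every imaginary quadratic field of discriminant
`-D`, `D > 4`, there is `r₀` such that for `r ≥ r₀`, every even `k` and every canonical-type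
Hecke character `ψ` of type `(k, 0)`, at least `r ^ (1/20)` level one eigenforms `f` of weight
`w = k + 2 r + 2` have `L(f × ψ, s)` with a zero of order exactly one at the centre.
-/

namespace Pool.Agent.Lib.MP_7c08ba_nt

namespace RZ

theorem aDTm : StDTm := stDTm

theorem aJacS : StJacS := stJacS

theorem aErS : StErS := stErS aKpV aJacS

theorem aErB : StErB := stErB aKpB

theorem aPrC : StPrC := stPrC

theorem aNum : StNum := stNum aPrC

theorem aCnt : StCnt := stCnt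

theorem aCom : StCom := stCom aRepsD aPsiD aBmulD aCountD aRam aHN aTraceD aRSanN aTr0
  aRepsE aPsiE aBmulE aCountE aSplitE aHNE aTraceE aRSanNE aTr0E

theorem aThX : StThX := stThX aCom aThCD aThCE aThGD aThGE aThSD aThSE aThBD aThBE aIdSumD
  aIdSumE aBasD aBasE

theorem aEisX : StEisX := stEisX aGB aEisAQ

theorem aTrX : StTrX := stTrX aEisX

theorem aGroX : StGroX := stGroX aTrX aGB

theorem aRsX : StRsX := stRsX aPetG aGroX aCom

theorem aGsX : StGsX := stGsX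

theorem aSgX : StSgX := stSgX aSgG aEisAQ aEisLawQ aThlE aIdSumE aCountE aBasE aThBE aRepsE

theorem aT2X : StT2X := stT2X aKD aFE aSgX aCom

theorem aJRX : StJRX := stJRX aTrX aYInt aI0 aSc aGsX aPol aCom aEisX

theorem aSuX : StSuX := stSuX aKpA aGsX aCom

theorem aJacI : StJacI := stJacI

theorem aEqX : StEqX := stEqX aRsX aJRX aT2X aSuX aDT aCom aSgX

theorem aVanX : StVanX := stVanX aEqX aJacI aKpV aPoi aCom aDT

theorem aErrX : StErrX := stErrX aErB aErS aSuX aVanX aKpV aKpA aJac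

theorem aEllX : StEllX := stEllX aEqX aDTm aErrX aSgX aSuX aThX aCom

theorem aManyQ : StManyQ := stManyQ aEllX aNum aCnt aPoi aCom aFd aCoef

theorem aMainQ : StMainQ := stMainQ aManyQ aCom aRSN aRSNE aDnN aDnNE aEulN aEulNE aChiE

end RZ

end Pool.Agent.Lib.MP_7c08ba_nt
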