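import Mathlib
import Pool.Agent.Lib.MP_7c08ba_nt.RZ.StR
import Pool.Agent.Lib.MP_7c08ba_nt.RZ.W12

set_option autoImplicit false

/-!
(R33) The strict bound for the eigenvalues of the Hecke operators, by the maximum principle.
-/

namespace Pool.Agent.Lib.MP_7c08ba_nt

namespace RZ

open NumberField MeasureTheory UpperHalfPlane Set Filter Topology
open scoped MatrixGroups ComplexConjugate nonZeroDivisors

namespace ApAux

variable {w : ℕ}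

/-- The function `|f| y ^ n`. -/
noncomputable def ph (f : CuspForm 𝒮ℒ (w : ℤ)) (n : ℕ) (τ : ℍ) : ℝ := ‖f τ‖ * τ.im ^ n

theorem ne_zero (f : CuspForm 𝒮ℒ (w : ℤ)) (hf : IsEigen f) : (f : ℍ → ℂ) ≠ 0 := by
  intro h0
  have h1 := hf.one
  unfold coef at h1
  rw [h0] at h1
  simp [UpperHalfPlane.qExpansion_zero] at h1

theorem ph_smul (f : CuspForm 𝒮ℒ (w : ℤ)) {n : ℕ} (hn : w = n + n) (g : SL(2, ℤ)) (τ : ℍ) :
    ph f n (g • τ) = ph f n τ := by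
  have h := SlashInvariantForm.slash_action_eqn'' (Γ := 𝒮ℒ) f
    (γ := (g : GL (Fin 2) ℝ)) ⟨g, rfl⟩ τ
  have h1 : f (g • τ) = (denom (g : GL (Fin 2) ℝ) τ) ^ w * f τ := by
    rw [zpow_natCast] at h
    exact h
  have hd : denom (g : GL (Fin 2) ℝ) τ ≠ 0 := denom_ne_zero _ _
  have h2 : (g • τ).im = τ.im / Complex.normSq (denom (g : GL (Fin 2) ℝ) τ) :=
    ModularGroup.im_smul_eq_div_normSq g τ
  have h3 : Complex.normSq (denom (g : GL (Fin 2) ℝ) τ) ≠ 0 := by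
    rwa [Ne, Complex.normSq_eq_zero]
  have h4 : ‖denom (g : GL (Fin 2) ℝ) τ ^ w‖ =
      Complex.normSq (denom (g : GL (Fin 2) ℝ) τ) ^ n := by
    rw [norm_pow, Complex.normSq_eq_norm_sq, ← pow_mul]
    congr 1
    omega
  unfold ph
  rw [h1, h2, norm_mul, h4, div_pow]
  field_simp

theorem isCompact_box (Y : ℝ) : IsCompact {τ : ℍ | |τ.re| ≤ 1 / 2 ∧ 1 / 2 ≤ τ.im ∧ τ.im ≤ Y} := by
  have h1 : IsCompact (Icc (-(1 / 2) : ℝ) (1 / 2) ×ℂ Icc (1 / 2 : ℝ) Y) :=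
    isCompact_Icc.reProdIm isCompact_Icc
  have h2 : (Icc (-(1 / 2) : ℝ) (1 / 2) ×ℂ Icc (1 / 2 : ℝ) Y) ⊆ range ((↑) : ℍ → ℂ) := by
    intro z hz
    rw [Complex.mem_reProdIm] at hz
    exact ⟨⟨z, by have := hz.2.1; linarith⟩, rfl⟩
  have h3 := (isOpenEmbedding_coe.isInducing.isCompact_preimage_iff h2).2 h1
  have h4 : {τ : ℍ | |τ.re| ≤ 1 / 2 ∧ 1 / 2 ≤ τ.im ∧ τ.im ≤ Y} =
      ((↑) : ℍ → ℂ) ⁻¹' (Icc (-(1 / 2) : ℝ) (1 / 2) ×ℂ Icc (1 / 2 : ℝ) Y) := by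
    ext τ
    simp only [mem_ofPred_eq, mem_preimage, Complex.mem_reProdIm, mem_Icc, abs_le, coe_re, coe_im]
  rw [h4]
  exact h3

theorem ph_decay (f : CuspForm 𝒮ℒ (w : ℤ)) (h2 : StCoef) (n : ℕ) {ε : ℝ} (hε : 0 < ε) :
    ∃ Y : ℝ, ∀ τ : ℍ, Y < τ.im → ph f n τ < ε := by
  obtain ⟨-, -, -, -, C, hC⟩ := h2 w f
  have ht := (tendsto_rpow_mul_exp_neg_mul_atTop_nhds_zero (n : ℝ) (2 * Real.pi)
    (by positivity)).const_mul C
  rw [mul_zero] at ht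
  obtain ⟨Y, hY⟩ := eventually_atTop.1 (ht.eventually (gt_mem_nhds hε))
  refine ⟨max Y 1, fun τ hτ => ?_⟩
  have h3 := hY τ.im ((le_max_left _ _).trans hτ.le)
  have h4 := hC (τ : ℂ) (by
    have := (le_max_right Y 1).trans hτ.le
    rw [coe_im]
    linarith)
  rw [ofComplex_apply, coe_im] at h4
  unfold ph
  rw [Real.rpow_natCast] at h3
  refine lt_of_le_of_lt ?_ h3
  calc ‖f τ‖ * τ.im ^ n ≤ C * Real.exp (-(2 * Real.pi * τ.im)) * τ.im ^ n :=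
        mul_le_mul_of_nonneg_right h4 (pow_nonneg τ.im_pos.le n)
    _ = C * (τ.im ^ n * Real.exp (-(2 * Real.pi) * τ.im)) := by
        rw [neg_mul]
        ring

theorem exists_max (f : CuspForm 𝒮ℒ (w : ℤ)) (h2 : StCoef) (h3 : StFd) {n : ℕ} (hn : w = n + n)
    (hf : (f : ℍ → ℂ) ≠ 0) : ∃ τ₀ : ℍ, 0 < ph f n τ₀ ∧ ∀ τ, ph f n τ ≤ ph f n τ₀ := by
  obtain ⟨τ₁, h1⟩ := Function.ne_iff.1 hf
  have hp : 0 < ph f n τ₁ := mul_pos (norm_pos_iff.2 h1) (pow_pos τ₁.im_pos n)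
  obtain ⟨Y, hY⟩ := ph_decay f h2 n hp
  obtain ⟨g₁, hg₁⟩ := ModularGroup.exists_smul_mem_fd τ₁
  have hb₁ := h3.2.2 _ hg₁
  have hne : {τ : ℍ | |τ.re| ≤ 1 / 2 ∧ 1 / 2 ≤ τ.im ∧ τ.im ≤ Y}.Nonempty := by
    refine ⟨g₁ • τ₁, hb₁.2, hb₁.1.le, ?_⟩
    by_contra hlt
    have := hY _ (not_le.1 hlt)
    rw [ph_smul f hn] at this
    exact lt_irrefl _ this
  have hcf : Continuous f := (CuspFormClass.holo f).continuous
  have hcont : Continuous (ph f n) := hcf.norm.mul (continuous_im.pow n)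
  obtain ⟨τ₀, hτ₀, hmax⟩ := (isCompact_box Y).exists_isMaxOn hne hcont.continuousOn
  have key : ∀ τ, ph f n τ₁ ≤ ph f n τ → ph f n τ ≤ ph f n τ₀ := by
    intro τ hτ
    obtain ⟨g, hg⟩ := ModularGroup.exists_smul_mem_fd τ
    have hb := h3.2.2 _ hg
    rw [← ph_smul f hn g τ]
    refine hmax ⟨hb.2, hb.1.le, ?_⟩
    by_contra hlt
    have := hY _ (not_le.1 hlt)
    rw [ph_smul f hn] at this
    exact lt_irrefl _ (this.trans_le hτ)
  have h5 := key τ₁ le_rfl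
  refine ⟨τ₀, hp.trans_le h5, fun τ => ?_⟩
  rcases le_total (ph f n τ₁) (ph f n τ) with h | h
  · exact key τ h
  · exact h.trans h5

/-- the step -/
theorem step (f : CuspForm 𝒮ℒ (w : ℤ)) (h1 : StTrF) (hf : IsEigen f) {n : ℕ} (hn : w = n + n)
    (hn1 : 1 ≤ n) {p : ℕ} (hp : p.Prime) {τ₀ : ℍ} (hpos : 0 < ph f n τ₀)
    (hmax : ∀ τ, ph f n τ ≤ ph f n τ₀)
    (hbig : (p + 1 : ℝ) * (p : ℝ) ^ (n - 1) ≤ ‖coef f p‖) (τ₁ : ℍ)
    (hτ₁ : (τ₁ : ℂ) = p * τ₀) : ph f n τ₁ = ph f n τ₀ := by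
  have hp0 : (0 : ℝ) < p := by exact_mod_cast hp.pos
  have hpc : (p : ℂ) ≠ 0 := by exact_mod_cast hp.ne_zero
  have hT := h1 w f hf p τ₀ hp.one_lt.le (by rw [coe_im]; exact τ₀.im_pos)
  rw [Nat.Prime.sum_divisors hp] at hT
  simp only [Nat.div_self hp.pos, Nat.div_one, Nat.cast_one, one_pow, one_mul,
    Finset.range_one, Finset.sum_singleton, Nat.cast_zero, add_zero, div_one, inv_one,
    mul_one, ofComplex_apply] at hT
  -- the points (z + b) / p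
  have him : ∀ b : ℕ, 0 < (((τ₀ : ℂ) + b) / p).im := by
    intro b
    have : (((τ₀ : ℂ) + b) / p) = (((τ₀ : ℂ) + b) * ((p : ℝ)⁻¹ : ℝ)) := by
      push_cast
      rw [div_eq_mul_inv]
    rw [this, Complex.im_mul_ofReal, Complex.add_im, Complex.natCast_im, add_zero, coe_im]
    exact mul_pos τ₀.im_pos (inv_pos.2 hp0)
  have him2 : ∀ b : ℕ, (((τ₀ : ℂ) + b) / p).im = τ₀.im / p := by
    intro b
    have : (((τ₀ : ℂ) + b) / p) = (((τ₀ : ℂ) + b) * ((p : ℝ)⁻¹ : ℝ)) := by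
      push_cast
      rw [div_eq_mul_inv]
    rw [this, Complex.im_mul_ofReal, Complex.add_im, Complex.natCast_im, add_zero, coe_im,
      div_eq_mul_inv]
  have hb : ∀ b : ℕ, ‖f (ofComplex (((τ₀ : ℂ) + b) / p))‖ * τ₀.im ^ n ≤
      (p : ℝ) ^ n * ph f n τ₀ := by
    intro b
    have h2 := hmax ⟨((τ₀ : ℂ) + b) / p, him b⟩
    rw [ofComplex_apply_of_im_pos (him b)]
    have h3 : ph f n ⟨((τ₀ : ℂ) + b) / p, him b⟩ =
        ‖f ⟨((τ₀ : ℂ) + b) / p, him b⟩‖ * (τ₀.im / p) ^ n := by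
      unfold ph
      congr 2
      exact him2 b
    rw [h3, div_pow] at h2
    have h4 : ‖f ⟨((τ₀ : ℂ) + b) / p, him b⟩‖ * τ₀.im ^ n =
        (p : ℝ) ^ n * (‖f ⟨((τ₀ : ℂ) + b) / p, him b⟩‖ * (τ₀.im ^ n / (p : ℝ) ^ n)) := by
      field_simp
    rw [h4]
    exact mul_le_mul_of_nonneg_left h2 (by positivity)
  have hτe : f (ofComplex ((p : ℂ) * τ₀)) = f τ₁ := by
    rw [← hτ₁, ofComplex_apply]
  have him1 : τ₁.im = p * τ₀.im := by
    have h5 := congrArg Complex.im hτ₁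
    rw [coe_im, ← Complex.ofReal_natCast, Complex.im_ofReal_mul, coe_im] at h5
    exact h5
  rw [hτe] at hT
  -- the inequality
  have hineq : ‖coef f p‖ * ph f n τ₀ ≤ (p : ℝ) ^ (n - 1) * ph f n τ₁ + (p : ℝ) ^ n *
      ph f n τ₀ := by
    have e1 : ‖coef f p‖ * ph f n τ₀ = ‖coef f p * f τ₀‖ * τ₀.im ^ n := by
      unfold ph
      rw [norm_mul]
      ring
    rw [e1, ← hT]
    have e2 : ‖(∑ b ∈ Finset.range p, (p : ℂ)⁻¹ * f (ofComplex (((τ₀ : ℂ) + b) / p))) +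
        (p : ℂ) ^ (w - 1) * f τ₁‖ ≤
        (∑ b ∈ Finset.range p, (p : ℝ)⁻¹ * ‖f (ofComplex (((τ₀ : ℂ) + b) / p))‖) +
        (p : ℝ) ^ (w - 1) * ‖f τ₁‖ := by
      refine (norm_add_le _ _).trans (add_le_add ?_ ?_)
      · refine (norm_sum_le _ _).trans (Finset.sum_le_sum fun b _ => ?_)
        rw [norm_mul, norm_inv, Complex.norm_natCast]
      · rw [norm_mul, norm_pow, Complex.norm_natCast]
    refine (mul_le_mul_of_nonneg_right e2 (pow_nonneg τ₀.im_pos.le n)).trans ?_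
    rw [add_mul, add_comm]
    refine add_le_add ?_ ?_
    · unfold ph
      rw [him1, mul_pow]
      have e3 : (p : ℝ) ^ (w - 1) = (p : ℝ) ^ (n - 1) * (p : ℝ) ^ n := by
        rw [← pow_add]
        congr 1
        omega
      rw [e3]
      apply le_of_eq
      ring
    · rw [Finset.sum_mul]
      calc ∑ b ∈ Finset.range p, (p : ℝ)⁻¹ * ‖f (ofComplex (((τ₀ : ℂ) + b) / p))‖ * τ₀.im ^ n
          ≤ ∑ _b ∈ Finset.range p, (p : ℝ)⁻¹ * ((p : ℝ) ^ n * ph f n τ₀) := by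
            refine Finset.sum_le_sum fun b _ => ?_
            rw [mul_assoc]
            exact mul_le_mul_of_nonneg_left (hb b) (by positivity)
        _ = (p : ℝ) ^ n * ph f n τ₀ := by
            rw [Finset.sum_const, Finset.card_range, nsmul_eq_mul]
            field_simp
  refine le_antisymm (hmax _) ?_
  have h6 : (p + 1 : ℝ) * (p : ℝ) ^ (n - 1) * ph f n τ₀ ≤ (p : ℝ) ^ (n - 1) * ph f n τ₁ +
      (p : ℝ) ^ n * ph f n τ₀ :=
    (mul_le_mul_of_nonneg_right hbig hpos.le).trans hineq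
  have h7 : (p : ℝ) ^ n = p * (p : ℝ) ^ (n - 1) := by
    rw [← pow_succ']
    congr 1
    omega
  rw [h7] at h6
  have h8 : (p : ℝ) ^ (n - 1) * ph f n τ₀ ≤ (p : ℝ) ^ (n - 1) * ph f n τ₁ := by linarith
  exact le_of_mul_le_mul_left h8 (by positivity)

end ApAux

theorem stAp (h1 : StTrF) (h2 : StCoef) (h3 : StFd) : StAp := by
  intro w f hf p hp
  obtain ⟨hw, n, hn⟩ := stW12 w f hf
  have hn1 : 1 ≤ n := by omega
  have hp0 : (0 : ℝ) < p := by exact_mod_cast hp.pos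
  have e1 : (p : ℝ) ^ ((w : ℝ) / 2 - 1) = (p : ℝ) ^ (n - 1) := by
    rw [← Real.rpow_natCast]
    congr 1
    rw [hn, Nat.cast_sub hn1]
    push_cast
    ring
  rw [e1]
  by_contra hlt
  have hbig := not_lt.1 hlt
  have hne : (f : ℍ → ℂ) ≠ 0 := ApAux.ne_zero f hf
  obtain ⟨τ₀, hpos, hmax⟩ := ApAux.exists_max f h2 h3 hn hne
  -- the points p ^ m * τ₀
  have him : ∀ m : ℕ, 0 < ((p : ℂ) ^ m * τ₀).im := by
    intro m
    rw [← Complex.ofReal_natCast, ← Complex.ofReal_pow, Complex.im_ofReal_mul, coe_im]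
    exact mul_pos (by positivity) τ₀.im_pos
  have hall : ∀ m : ℕ, ApAux.ph f n ⟨(p : ℂ) ^ m * τ₀, him m⟩ = ApAux.ph f n τ₀ := by
    intro m
    induction m with
    | zero =>
      congr 1
      apply UpperHalfPlane.ext
      show (p : ℂ) ^ 0 * τ₀ = τ₀
      rw [pow_zero, one_mul]
    | succ m ih =>
      rw [← ih]
      refine ApAux.step f h1 hf hn hn1 hp (by rw [ih]; exact hpos) (by rw [ih]; exact hmax)
        hbig _ ?_
      show (p : ℂ) ^ (m + 1) * τ₀ = p * ((p : ℂ) ^ m * τ₀)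
      ring
  obtain ⟨Y, hY⟩ := ApAux.ph_decay f h2 n hpos
  have hp1 : (1 : ℝ) < p := by exact_mod_cast hp.one_lt
  obtain ⟨m, hm⟩ := (tendsto_pow_atTop_atTop_of_one_lt hp1).eventually_gt_atTop (Y / τ₀.im) |>.exists
  have h4 : Y < (⟨(p : ℂ) ^ m * τ₀, him m⟩ : ℍ).im := by
    show Y < ((p : ℂ) ^ m * τ₀).im
    rw [← Complex.ofReal_natCast, ← Complex.ofReal_pow, Complex.im_ofReal_mul, coe_im]
    rwa [div_lt_iff₀ τ₀.im_pos] at hm
  have h5 := hY _ h4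
  rw [hall m] at h5
  exact lt_irrefl _ h5

end RZ

end Pool.Agent.Lib.MP_7c08ba_nt
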