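import Pool.Agent.Lib.MP_7c08ba_nt.RZ.StX
import Pool.Agent.Lib.MP_7c08ba_nt.RZ.DTm

set_option autoImplicit false

/-!
(X15) the derivative at `-r` for the Poincaré series of index `m`, every imaginary quadratic field
of discriminant `-D`, `D > 4`.
-/

namespace Pool.Agent.Lib.MP_7c08ba_nt

namespace RZ

open NumberField MeasureTheory Set
open scoped MatrixGroups ComplexConjugate nonZeroDivisors

namespace BigX

/-- The coefficients of the theta series of a Hecke character are not large. -/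
theorem bψ_le {F : Type} [Field F] [NumberField F] {ψ : Ideal (𝓞 F) →*₀ ℂ} {k m : ℕ}
    (hm : 1 ≤ m) (hψ : ∀ b : Ideal (𝓞 F), b ≠ ⊥ → ‖ψ b‖ ^ 2 = (Ideal.absNorm b : ℝ) ^ k)
    (hc : Nat.card {b : Ideal (𝓞 F) // Ideal.absNorm b = m} ≤ m.divisors.card) :
    ‖bψ ψ m‖ ≤ (m.divisors.card : ℝ) * (m : ℝ) ^ ((k : ℝ) / 2) := by
  have hfin : Finite {b : Ideal (𝓞 F) // Ideal.absNorm b = m} :=
    Ideal.finite_setOf_absNorm_eq m
  haveI := Fintype.ofFinite {b : Ideal (𝓞 F) // Ideal.absNorm b = m}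
  have h1 : ∀ b : {b : Ideal (𝓞 F) // Ideal.absNorm b = m},
      ‖ψ b.1‖ ≤ (m : ℝ) ^ ((k : ℝ) / 2) := by
    intro b
    have hb : (b.1 : Ideal (𝓞 F)) ≠ ⊥ := by
      intro h0
      have := b.2
      rw [h0, Ideal.absNorm_bot] at this
      omega
    have h2 := hψ b.1 hb
    rw [b.2] at h2
    have h3 : ((m : ℝ) ^ ((k : ℝ) / 2)) ^ 2 = (m : ℝ) ^ k := by
      rw [← Real.rpow_natCast, ← Real.rpow_mul (Nat.cast_nonneg m), ← Real.rpow_natCast]
      congr 1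
      push_cast
      ring
    have h4 : 0 ≤ (m : ℝ) ^ ((k : ℝ) / 2) := Real.rpow_nonneg (Nat.cast_nonneg m) _
    nlinarith [norm_nonneg (ψ b.1)]
  unfold bψ
  rw [tsum_fintype]
  calc ‖∑ b : {b : Ideal (𝓞 F) // Ideal.absNorm b = m}, ψ b.1‖
      ≤ ∑ b : {b : Ideal (𝓞 F) // Ideal.absNorm b = m}, ‖ψ b.1‖ := norm_sum_le _ _
    _ ≤ ∑ _b : {b : Ideal (𝓞 F) // Ideal.absNorm b = m}, (m : ℝ) ^ ((k : ℝ) / 2) :=
        Finset.sum_le_sum fun b _ => h1 b
    _ = (Nat.card {b : Ideal (𝓞 F) // Ideal.absNorm b = m} : ℝ) * (m : ℝ) ^ ((k : ℝ) / 2) := by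
        rw [Finset.sum_const, nsmul_eq_mul, Finset.card_univ, Nat.card_eq_fintype_card]
    _ ≤ (m.divisors.card : ℝ) * (m : ℝ) ^ ((k : ℝ) / 2) := by
        gcongr

end BigX

/-- (X15) the derivative at `-r` for the Poincaré series of index `m`. -/
theorem stBigX (h1 : StEqX) (_h2 : StDT) (h3 : StSuBX) (h4 : StSgX) (h5 : StSuX) (h6 : StThX)
    (h7 : StCom) : StBigX := by
  intro D _ F _ _ s σ χ cj m hd hm
  obtain ⟨-, L, hL0, hL⟩ := h4 D inferInstance F _ _ s σ χ cj hd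
  obtain ⟨C, hC⟩ := h3 D inferInstance F _ _ s σ χ cj m hd hm
  obtain ⟨⟨-, -, hχ, -⟩, -, hHk, hcard, -⟩ := h7 D inferInstance F _ _ s σ χ cj hd
  set c₀ : ℂ := DirichletCharacter.LFunction χ 1 *
    (-(2 * Real.eulerMascheroniConstant) + Real.log (D / (4 * Real.pi ^ 2)) - Real.log m) +
      2 * deriv (DirichletCharacter.LFunction χ) 1 with hc₀
  refine ⟨(m.divisors.card : ℝ) * (2 * ‖c₀‖) + C, ?_⟩
  intro w k r ψ c P hψ hco hw h5r hP
  obtain ⟨θ, hθ⟩ := h6 D inferInstance F _ _ s σ χ cj k ψ c hd hψ hco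
  obtain ⟨-, hψn, -, -⟩ := hHk k ψ hψ
  have hb := BigX.bψ_le hm hψn (hcard m hm)
  -- the region
  have hr5 : (5 : ℝ) ≤ r := by exact_mod_cast h5r
  have hopen : IsOpen {t : ℂ | -(r : ℝ) - 1 / 4 < t.re ∧ t.re < -1} :=
    (isOpen_lt continuous_const Complex.continuous_re).inter
      (isOpen_lt Complex.continuous_re continuous_const)
  have hmem : (-(r : ℂ)) ∈ {t : ℂ | -(r : ℝ) - 1 / 4 < t.re ∧ t.re < -1} := by
    constructor
    · rw [Complex.neg_re, Complex.natCast_re]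
      linarith
    · rw [Complex.neg_re, Complex.natCast_re]
      linarith
  have hnh := hopen.mem_nhds hmem
  have hev : (fun t => rsE D (HN D χ k r ψ c t) P) =ᶠ[nhds (-(r : ℂ))]
      fun t => bψ ψ m * ((m : ℂ) ^ (-((k : ℂ) + 2 * r + 1 + t)) * T1 D χ k r t +
        (m : ℂ) ^ (t - k - 1) * T2 D χ k r t) + SX D χ k r m θ t := by
    filter_upwards [hnh] with t ht
    exact h1 D inferInstance F _ _ s σ χ cj w k r m ψ c θ P hd hψ hθ hco hw (by omega) hm hP t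
      ht.1 ht.2
  have hS : DifferentiableAt ℂ (SX D χ k r m θ) (-(r : ℂ)) :=
    (h5 D inferInstance F _ _ s σ χ cj k r m ψ c θ hd hψ hθ hm).1.differentiableAt hnh
  obtain ⟨hT, hT'⟩ := stDTm D inferInstance χ hχ k r m hm
  have hTd : DifferentiableAt ℂ (fun t => (m : ℂ) ^ (-((k : ℂ) + 2 * r + 1 + t)) * T1 D χ k r t +
      (m : ℂ) ^ (t - k - 1) * T2 D χ k r t) (-(r : ℂ)) := by
    refine hT.differentiableAt ?_
    refine ((isOpen_lt continuous_const Complex.continuous_re).inter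
      (isOpen_lt Complex.continuous_re continuous_const)).mem_nhds ?_
    constructor
    · show -2 * (r : ℝ) - 1 < (-(r : ℂ)).re
      rw [Complex.neg_re, Complex.natCast_re]
      linarith
    · show (-(r : ℂ)).re < 1
      rw [Complex.neg_re, Complex.natCast_re]
      linarith
  rw [hev.deriv_eq, deriv_fun_add (hTd.const_mul _) hS, deriv_const_mul _ hTd, hT']
  have hm0 : (0 : ℝ) < m := by exact_mod_cast hm
  set A : ℝ := ((k + r).factorial : ℝ) * ((4 * Real.pi * m) ^ (k + r + 1))⁻¹ with hA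
  have hA0 : 0 ≤ A := by
    have := Real.pi_pos
    positivity
  have hX : ‖deriv (SX D χ k r m θ) (-(r : ℂ))‖ ≤ C * A * (m : ℝ) ^ ((k : ℝ) / 2) := by
    have := hC k r ψ c θ hψ hθ hco h5r
    rwa [hA, ← mul_assoc]
  have hmain : bψ ψ m * (((m : ℂ) ^ (k + r + 1))⁻¹ *
      (2 * ((4 * Real.pi : ℂ) ^ (k + r + 1))⁻¹ * ((k + r).factorial : ℂ) *
        (DirichletCharacter.LFunction χ 1 * ((harmonic (k + r) : ℂ) + (harmonic r : ℂ) -
          2 * Real.eulerMascheroniConstant + Real.log (D / (4 * Real.pi ^ 2)) - Real.log m) +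
          2 * deriv (DirichletCharacter.LFunction χ) 1))) + deriv (SX D χ k r m θ) (-(r : ℂ)) -
      2 * bψ ψ m * ((k + r).factorial : ℂ) * ((4 * Real.pi * m : ℂ) ^ (k + r + 1))⁻¹ *
          DirichletCharacter.LFunction χ 1 * ((harmonic (k + r) : ℂ) + (harmonic r : ℂ)) =
      bψ ψ m * ((A : ℂ) * (2 * c₀)) + deriv (SX D χ k r m θ) (-(r : ℂ)) := by
    rw [hA, hc₀]
    push_cast
    rw [mul_pow (4 * (Real.pi : ℂ)) (m : ℂ), mul_inv]
    ring
  rw [hmain]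
  calc ‖bψ ψ m * ((A : ℂ) * (2 * c₀)) + deriv (SX D χ k r m θ) (-(r : ℂ))‖
      ≤ ‖bψ ψ m * ((A : ℂ) * (2 * c₀))‖ + ‖deriv (SX D χ k r m θ) (-(r : ℂ))‖ := norm_add_le _ _
    _ ≤ ((m.divisors.card : ℝ) * (m : ℝ) ^ ((k : ℝ) / 2)) * (A * (2 * ‖c₀‖)) +
        C * A * (m : ℝ) ^ ((k : ℝ) / 2) := by
        refine add_le_add ?_ hX
        rw [norm_mul, norm_mul, norm_mul, Complex.norm_real, Real.norm_of_nonneg hA0,
          Complex.norm_ofNat]
        gcongr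
    _ = ((m.divisors.card : ℝ) * (2 * ‖c₀‖) + C) * ((k + r).factorial : ℝ) *
        ((4 * Real.pi * m) ^ (k + r + 1))⁻¹ * (m : ℝ) ^ ((k : ℝ) / 2) := by
        rw [hA]
        ring

end RZ

end Pool.Agent.Lib.MP_7c08ba_nt
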