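import Pool.Agent.Lib.MP_7c08ba_nt.RZ.StD

set_option autoImplicit false

/-! Module D7: the coefficients of the Hecke character are multiplicative; prime powers. -/

namespace Pool.Agent.Lib.MP_7c08ba_nt

namespace RZ

open NumberField MeasureTheory UpperHalfPlane Set IsDedekindDomain
open scoped MatrixGroups ComplexConjugate nonZeroDivisors

namespace BmulAux

variable {F : Type} [Field F] [NumberField F]

/-- Ideals of norm `n`. -/
abbrev Idn (F : Type) [Field F] [NumberField F] (n : ℕ) : Type :=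
  {b : Ideal (𝓞 F) // Ideal.absNorm b = n}

instance fin (n : ℕ) : Finite (Idn F n) :=
  (Ideal.finite_setOfPred_absNorm_eq (S := 𝓞 F) n).to_subtype

lemma bpsi_one (ψ : Ideal (𝓞 F) →*₀ ℂ) : bψ ψ 1 = 1 := by
  have h1 : Ideal.absNorm (⊤ : Ideal (𝓞 F)) = 1 := Ideal.absNorm_top
  have h2 : ∀ b : Idn F 1, b = ⟨⊤, h1⟩ := by
    rintro ⟨b, hb⟩
    exact Subtype.ext (Ideal.absNorm_eq_one_iff.mp hb)
  unfold bψ
  rw [tsum_eq_single (⟨⊤, h1⟩ : Idn F 1) (fun b hb => absurd (h2 b) hb)]
  change ψ ⊤ = 1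
  rw [← Ideal.one_eq_top, map_one]

/-- The greatest common divisor of `b * c` and `(m)`. -/
lemma sup_eq {m n : ℕ} (h : m.Coprime n) {b c : Ideal (𝓞 F)} (hb : Ideal.absNorm b = m)
    (hc : Ideal.absNorm c = n) : b * c ⊔ Ideal.span {(m : 𝓞 F)} = b := by
  have hmb : (m : 𝓞 F) ∈ b := by rw [← hb]; exact Ideal.absNorm_mem b
  have hnc : (n : 𝓞 F) ∈ c := by rw [← hc]; exact Ideal.absNorm_mem c
  have htop : c ⊔ Ideal.span {(m : 𝓞 F)} = ⊤ := by
    rw [Ideal.eq_top_iff_one]
    have h1 : (Int.gcd (m : ℤ) n : ℤ) = 1 := by exact_mod_cast h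
    have h2 := Int.gcd_eq_gcd_ab (m : ℤ) n
    rw [h1] at h2
    have h3 : (1 : 𝓞 F) = m * (Int.gcdA m n : 𝓞 F) + n * (Int.gcdB m n : 𝓞 F) := by
      exact_mod_cast congrArg (fun z : ℤ => (z : 𝓞 F)) h2
    rw [h3, add_comm]
    exact Submodule.add_mem_sup (Ideal.mul_mem_right _ _ hnc)
      (Ideal.mul_mem_right _ _ (Ideal.mem_span_singleton_self _))
  apply le_antisymm
  · refine sup_le Ideal.mul_le_left ?_
    rw [Ideal.span_singleton_le_iff_mem]
    exact hmb
  · calc b = b * (c ⊔ Ideal.span {(m : 𝓞 F)}) := by rw [htop, Ideal.mul_top]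
      _ = b * c ⊔ b * Ideal.span {(m : 𝓞 F)} := Ideal.mul_sup _ _ _
      _ ≤ b * c ⊔ Ideal.span {(m : 𝓞 F)} := sup_le_sup_left Ideal.mul_le_right _

lemma bpsi_mul (ψ : Ideal (𝓞 F) →*₀ ℂ) {m n : ℕ} (h : m.Coprime n) :
    bψ ψ (m * n) = bψ ψ m * bψ ψ n := by
  classical
  rcases Nat.eq_zero_or_pos m with rfl | hm
  · rw [Nat.coprime_zero_left] at h
    subst h
    rw [bpsi_one, mul_one, mul_one]
  rcases Nat.eq_zero_or_pos n with rfl | hn
  · rw [Nat.coprime_zero_right] at h
    subst h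
    rw [bpsi_one, one_mul, one_mul]
  let g : Idn F m × Idn F n → Idn F (m * n) := fun x =>
    ⟨x.1.1 * x.2.1, by rw [map_mul, x.1.2, x.2.2]⟩
  have hg : Function.Bijective g := by
    constructor
    · rintro ⟨⟨b, hb⟩, ⟨c, hc⟩⟩ ⟨⟨b', hb'⟩, ⟨c', hc'⟩⟩ hx
      have h1 : b * c = b' * c' := congrArg Subtype.val hx
      have h2 : b = b' := by
        rw [← sup_eq h hb hc, ← sup_eq h hb' hc', h1]
      have h3 : c = c' := by
        rw [← sup_eq h.symm hc hb, ← sup_eq h.symm hc' hb', mul_comm c, mul_comm c', h1]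
      subst h2 h3
      rfl
    · rintro ⟨a, ha⟩
      set b := a ⊔ Ideal.span {(m : 𝓞 F)} with hb
      set c := a ⊔ Ideal.span {(n : 𝓞 F)} with hc
      have hmn : (m : 𝓞 F) * n ∈ a := by
        have := Ideal.absNorm_mem a
        rw [ha] at this
        exact_mod_cast this
      have htop : a ⊔ (Ideal.span {(m : 𝓞 F)} ⊔ Ideal.span {(n : 𝓞 F)}) = ⊤ := by
        have h1 : Ideal.span {(m : 𝓞 F)} ⊔ Ideal.span {(n : 𝓞 F)} = ⊤ := by
          rw [Ideal.eq_top_iff_one]
          have h1 : (Int.gcd (m : ℤ) n : ℤ) = 1 := by exact_mod_cast h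
          have h2 := Int.gcd_eq_gcd_ab (m : ℤ) n
          rw [h1] at h2
          have h3 : (1 : 𝓞 F) = m * (Int.gcdA m n : 𝓞 F) + n * (Int.gcdB m n : 𝓞 F) := by
            exact_mod_cast congrArg (fun z : ℤ => (z : 𝓞 F)) h2
          rw [h3]
          exact Submodule.add_mem_sup (Ideal.mul_mem_right _ _ (Ideal.mem_span_singleton_self _))
            (Ideal.mul_mem_right _ _ (Ideal.mem_span_singleton_self _))
        rw [h1, sup_top_eq]
      have hbc : b * c = a := by
        apply le_antisymm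
        · rw [hb, hc, Ideal.sup_mul, Ideal.mul_sup, Ideal.mul_sup]
          refine sup_le (sup_le Ideal.mul_le_left Ideal.mul_le_left)
            (sup_le Ideal.mul_le_right ?_)
          rw [Ideal.span_singleton_mul_span_singleton, Ideal.span_singleton_le_iff_mem]
          exact hmn
        · calc a = a * (a ⊔ (Ideal.span {(m : 𝓞 F)} ⊔ Ideal.span {(n : 𝓞 F)})) := by
                rw [htop, Ideal.mul_top]
            _ = a * a ⊔ (a * Ideal.span {(m : 𝓞 F)} ⊔ a * Ideal.span {(n : 𝓞 F)}) := by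
                rw [Ideal.mul_sup, Ideal.mul_sup]
            _ ≤ b * c := by
                refine sup_le (Ideal.mul_mono le_sup_left le_sup_left) (sup_le ?_ ?_)
                · rw [mul_comm]
                  exact Ideal.mul_mono le_sup_right le_sup_left
                · exact Ideal.mul_mono le_sup_left le_sup_right
      have hNb : Ideal.absNorm b ∣ m ^ Module.finrank ℤ (𝓞 F) := by
        rw [← Ideal.absNorm_span_natCast (S := 𝓞 F)]
        exact Ideal.absNorm_dvd_absNorm_of_le le_sup_right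
      have hNc : Ideal.absNorm c ∣ n ^ Module.finrank ℤ (𝓞 F) := by
        rw [← Ideal.absNorm_span_natCast (S := 𝓞 F)]
        exact Ideal.absNorm_dvd_absNorm_of_le le_sup_right
      have hN : Ideal.absNorm b * Ideal.absNorm c = m * n := by
        rw [← map_mul, hbc, ha]
      have hb1 : Ideal.absNorm b ∣ m := by
        have h1 : (Ideal.absNorm b).Coprime n :=
          Nat.Coprime.coprime_dvd_left hNb (h.pow_left _)
        exact h1.dvd_of_dvd_mul_right (hN ▸ Dvd.intro _ rfl)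
      have hc1 : Ideal.absNorm c ∣ n := by
        have h1 : (Ideal.absNorm c).Coprime m :=
          Nat.Coprime.coprime_dvd_left hNc (h.symm.pow_left _)
        exact h1.dvd_of_dvd_mul_left (hN ▸ Dvd.intro_left _ rfl)
      have hb2 : Ideal.absNorm b ≤ m := Nat.le_of_dvd hm hb1
      have hc2 : Ideal.absNorm c ≤ n := Nat.le_of_dvd hn hc1
      have hb3 : Ideal.absNorm b = m := by
        by_contra hne
        have hlt : Ideal.absNorm b < m := lt_of_le_of_ne hb2 hne
        have : Ideal.absNorm b * Ideal.absNorm c < m * n :=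
          lt_of_le_of_lt (Nat.mul_le_mul_left _ hc2) (Nat.mul_lt_mul_of_pos_right hlt hn)
        omega
      have hc3 : Ideal.absNorm c = n := by
        rw [hb3] at hN
        exact Nat.eq_of_mul_eq_mul_left hm hN
      exact ⟨(⟨b, hb3⟩, ⟨c, hc3⟩), Subtype.ext hbc⟩
  have := Fintype.ofFinite (Idn F m)
  have := Fintype.ofFinite (Idn F n)
  have := Fintype.ofFinite (Idn F (m * n))
  unfold bψ
  rw [tsum_fintype, tsum_fintype, tsum_fintype, Fintype.sum_mul_sum, ← Fintype.sum_prod_type']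
  rw [← (Equiv.ofBijective g hg).sum_comp]
  refine Finset.sum_congr rfl fun x _ => ?_
  change ψ (x.1.1 * x.2.1) = _
  rw [map_mul]

/-- A prime factor. -/
lemma exists_factor {p : ℕ} {n : ℕ} {b : Ideal (𝓞 F)}
    (hn : n ≠ 0) (hp1 : 1 < p) (hb : Ideal.absNorm b = p ^ n) : ∃ Q : Ideal (𝓞 F), Q.IsMaximal ∧
      (p : 𝓞 F) ∈ Q ∧ ∃ b', b = Q * b' := by
  have h1 : b ≠ ⊤ := by
    intro h
    rw [h, Ideal.absNorm_top] at hb
    have := Nat.one_lt_pow hn hp1
    omega
  obtain ⟨Q, hQ, hle⟩ := Ideal.exists_le_maximal b h1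
  refine ⟨Q, hQ, ?_, Ideal.dvd_iff_le.mpr hle⟩
  have h2 := Ideal.absNorm_mem b
  rw [hb] at h2
  have h3 : (p : 𝓞 F) ^ n ∈ Q := by
    have := hle h2
    exact_mod_cast this
  exact hQ.isPrime.mem_of_pow_mem n h3

/-- All ideals of norm a power of `p` are powers of `Q` if `Q` is the only prime above. -/
lemma pow_of_unique {p e : ℕ} (hp1 : 1 < p) {Q : Ideal (𝓞 F)}
    (hQ : ∀ Q' : Ideal (𝓞 F), Q'.IsMaximal → (p : 𝓞 F) ∈ Q' → Q' = Q)
    (hN : Ideal.absNorm Q = p ^ e) (he : e ≠ 0) (n : ℕ) (b : Ideal (𝓞 F))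
    (hb : Ideal.absNorm b = p ^ n) : ∃ j, n = e * j ∧ b = Q ^ j := by
  induction n using Nat.strong_induction_on generalizing b with
  | _ n ih =>
    rcases Nat.eq_zero_or_pos n with rfl | hn
    · rw [pow_zero, Ideal.absNorm_eq_one_iff] at hb
      exact ⟨0, rfl, by rw [hb, pow_zero, Ideal.one_eq_top]⟩
    · obtain ⟨Q', hQ', hpQ', b', rfl⟩ := exists_factor hn.ne' hp1 hb
      rw [hQ Q' hQ' hpQ'] at hb ⊢
      rw [map_mul, hN] at hb
      have hle : e ≤ n := by
        have : p ^ e ∣ p ^ n := ⟨_, hb.symm⟩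
        exact (Nat.pow_dvd_pow_iff_le_right hp1).mp this
      have h1 : Ideal.absNorm b' = p ^ (n - e) := by
        have h2 : p ^ n = p ^ e * p ^ (n - e) := by rw [← pow_add, Nat.add_sub_cancel' hle]
        rw [h2] at hb
        exact Nat.eq_of_mul_eq_mul_left (pow_pos (by omega) e) hb
      obtain ⟨j, hj, hb'⟩ := ih (n - e) (by omega) b' h1
      refine ⟨j + 1, ?_, ?_⟩
      · rw [mul_add, mul_one, ← hj]
        omega
      · rw [hb', pow_succ, mul_comm]

end BmulAux

open BmulAux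

theorem stBmul (_h1 : StBas) (h2 : StSplit) : StBmul := by
  classical
  intro q F _ _ s σ χ cj k ψ D hψ
  have hrank : Module.finrank ℤ (𝓞 F) = 2 := by rw [RingOfIntegers.rank, D.fin]
  refine ⟨bpsi_one ψ, fun m n h => bpsi_mul ψ h, ?_, ?_, ?_⟩
  · intro p hp _ P P' hP hP' hne hPP n
    have hp0 : (p : 𝓞 F) ≠ 0 := Nat.cast_ne_zero.mpr hp.ne_zero
    have hspan : Ideal.span {(p : 𝓞 F)} ≠ ⊥ := by
      rw [Ne, Ideal.span_singleton_eq_bot]
      exact hp0
    have hP0 : P ≠ ⊥ := by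
      rintro rfl
      rw [Ideal.bot_mul] at hPP
      exact hspan hPP.symm
    have hP'0 : P' ≠ ⊥ := by
      rintro rfl
      rw [Ideal.mul_bot] at hPP
      exact hspan hPP.symm
    have hN : Ideal.absNorm P * Ideal.absNorm P' = p ^ 2 := by
      rw [← map_mul, hPP, Ideal.absNorm_span_natCast, hrank]
    obtain ⟨hNP, hNP'⟩ := (hp.mul_eq_prime_sq_iff
      (fun h => hP.ne_top (Ideal.absNorm_eq_one_iff.mp h))
      (fun h => hP'.ne_top (Ideal.absNorm_eq_one_iff.mp h))).mp hN
    have hPm : P.IsMaximal := hP.isMaximal hP0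
    have hP'm : P'.IsMaximal := hP'.isMaximal hP'0
    have huniq : ∀ Q : Ideal (𝓞 F), Q.IsMaximal → (p : 𝓞 F) ∈ Q → Q = P ∨ Q = P' := by
      intro Q hQ hpQ
      have h3 : P * P' ≤ Q := by
        rw [hPP, Ideal.span_singleton_le_iff_mem]
        exact hpQ
      rcases (Ideal.IsPrime.mul_le hQ.isPrime).mp h3 with h4 | h4
      · exact Or.inl (hPm.eq_of_le hQ.ne_top h4).symm
      · exact Or.inr (hP'm.eq_of_le hQ.ne_top h4).symm
    have hex : ∀ (n : ℕ) (b : Ideal (𝓞 F)), Ideal.absNorm b = p ^ n →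
        ∃ i ≤ n, b = P ^ i * P' ^ (n - i) := by
      intro n
      induction n with
      | zero =>
        intro b hb
        rw [pow_zero, Ideal.absNorm_eq_one_iff] at hb
        exact ⟨0, le_rfl, by rw [hb]; simp⟩
      | succ n ih =>
        intro b hb
        obtain ⟨Q, hQ, hpQ, b', rfl⟩ := exists_factor (Nat.succ_ne_zero n) hp.one_lt hb
        rw [map_mul] at hb
        rcases huniq Q hQ hpQ with rfl | rfl
        · rw [hNP, pow_succ, mul_comm] at hb
          obtain ⟨i, hi, rfl⟩ := ih b' (Nat.eq_of_mul_eq_mul_right hp.pos hb)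
          refine ⟨i + 1, by omega, ?_⟩
          rw [Nat.succ_sub_succ, pow_succ, ← mul_assoc, mul_comm Q]
        · rw [hNP', pow_succ, mul_comm] at hb
          obtain ⟨i, hi, rfl⟩ := ih b' (Nat.eq_of_mul_eq_mul_right hp.pos hb)
          refine ⟨i, by omega, ?_⟩
          rw [Nat.succ_sub hi, pow_succ, mul_comm Q, mul_assoc]
    have hinj : ∀ i j : ℕ, i < j → j ≤ n → P ^ i * P' ^ (n - i) ≠ P ^ j * P' ^ (n - j) := by
      intro i j hij hjn h3
      have h4 : P ^ j = P ^ i * P ^ (j - i) := by rw [← pow_add, Nat.add_sub_cancel' hij.le]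
      rw [h4, mul_assoc] at h3
      have h5 : P' ^ (n - i) = P ^ (j - i) * P' ^ (n - j) :=
        mul_left_cancel₀ (pow_ne_zero i hP0) h3
      have h6 : P' ^ (n - i) ≤ P := by
        rw [h5]
        exact Ideal.mul_le_left.trans (Ideal.pow_le_self (by omega))
      have h7 : P' ≤ P := (Ideal.IsPrime.pow_le_iff (by omega)).mp h6
      exact hne (hP'm.eq_of_le hP.ne_top h7).symm
    let g : Fin (n + 1) → Idn F (p ^ n) := fun i =>
      ⟨P ^ (i : ℕ) * P' ^ (n - i), by
        rw [map_mul, map_pow, map_pow, hNP, hNP', ← pow_add, Nat.add_sub_cancel' (by omega)]⟩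
    have hg : Function.Bijective g := by
      constructor
      · intro i j hij
        have h3 : P ^ (i : ℕ) * P' ^ (n - i) = P ^ (j : ℕ) * P' ^ (n - j) :=
          congrArg Subtype.val hij
        rcases lt_trichotomy (i : ℕ) (j : ℕ) with h4 | h4 | h4
        · exact absurd h3 (hinj _ _ h4 (by omega))
        · exact Fin.ext h4
        · exact absurd h3.symm (hinj _ _ h4 (by omega))
      · rintro ⟨b, hb⟩
        obtain ⟨i, hi, h3⟩ := hex n b hb
        exact ⟨⟨i, by omega⟩, Subtype.ext h3.symm⟩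
    have := Fintype.ofFinite (Idn F (p ^ n))
    unfold bψ
    rw [tsum_fintype, ← (Equiv.ofBijective g hg).sum_comp, Finset.sum_range]
    refine Finset.sum_congr rfl fun i _ => ?_
    change ψ (P ^ (i : ℕ) * P' ^ (n - i)) = _
    rw [map_mul, map_pow, map_pow]
  · intro p hp hj n
    obtain ⟨hpr, hNp⟩ := (h2 q F _ _ s σ χ cj D p hp).2.1 hj
    have hp0 : (p : 𝓞 F) ≠ 0 := Nat.cast_ne_zero.mpr hp.ne_zero
    have hspan : Ideal.span {(p : 𝓞 F)} ≠ ⊥ := by
      rw [Ne, Ideal.span_singleton_eq_bot]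
      exact hp0
    have hmax : (Ideal.span {(p : 𝓞 F)}).IsMaximal := hpr.isMaximal hspan
    have huniq : ∀ Q : Ideal (𝓞 F), Q.IsMaximal → (p : 𝓞 F) ∈ Q →
        Q = Ideal.span {(p : 𝓞 F)} := by
      intro Q hQ hpQ
      refine (hmax.eq_of_le hQ.ne_top ?_).symm
      rw [Ideal.span_singleton_le_iff_mem]
      exact hpQ
    have hpow := pow_of_unique hp.one_lt huniq hNp two_ne_zero
    constructor
    · have : IsEmpty (Idn F (p ^ (2 * n + 1))) := by
        constructor
        rintro ⟨b, hb⟩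
        obtain ⟨j, hj, -⟩ := hpow _ b hb
        omega
      unfold bψ
      exact tsum_empty
    · have h3 : Ideal.absNorm (Ideal.span {(p : 𝓞 F)} ^ n) = p ^ (2 * n) := by
        rw [map_pow, hNp, pow_mul]
      have h4 : ∀ b : Idn F (p ^ (2 * n)), b = ⟨Ideal.span {(p : 𝓞 F)} ^ n, h3⟩ := by
        rintro ⟨b, hb⟩
        obtain ⟨j, hj, hb'⟩ := hpow _ b hb
        have : j = n := by omega
        subst this
        exact Subtype.ext hb'
      unfold bψ
      rw [tsum_eq_single (⟨Ideal.span {(p : 𝓞 F)} ^ n, h3⟩ : Idn F (p ^ (2 * n)))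
        (fun b hb => absurd (h4 b) hb)]
      change ψ (Ideal.span {(p : 𝓞 F)} ^ n) = _
      rw [map_pow, hψ _ hp0]
      simp
  · intro n
    have hj : jacobiSym (q : ℤ) q = 0 := by
      have : NeZero q := ⟨D.prime.ne_zero⟩
      rw [jacobiSym.eq_zero_iff_not_coprime]
      have := D.prime.one_lt
      simp
      omega
    obtain ⟨-, hpr, hsq, hNs⟩ := (h2 q F _ _ s σ χ cj D q D.prime).2.2 hj
    have hp0 : (q : 𝓞 F) ≠ 0 := Nat.cast_ne_zero.mpr D.prime.ne_zero
    have hspan : Ideal.span {s} ≠ ⊥ := by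
      intro h3
      rw [h3, Ideal.absNorm_bot] at hNs
      exact D.prime.ne_zero hNs.symm
    have hmax : (Ideal.span {s}).IsMaximal := hpr.isMaximal hspan
    have huniq : ∀ Q : Ideal (𝓞 F), Q.IsMaximal → (q : 𝓞 F) ∈ Q → Q = Ideal.span {s} := by
      intro Q hQ hpQ
      refine (hmax.eq_of_le hQ.ne_top ?_).symm
      have h3 : Ideal.span {s} ^ 2 ≤ Q := by
        rw [hsq, Ideal.span_singleton_le_iff_mem]
        exact hpQ
      exact ((@Ideal.IsPrime.pow_le_iff _ _ _ _ hQ.isPrime) two_ne_zero).mp h3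
    have hpow := pow_of_unique D.prime.one_lt huniq (e := 1) (by rw [hNs, pow_one]) one_ne_zero
    have h3 : Ideal.absNorm (Ideal.span {s} ^ n) = q ^ n := by rw [map_pow, hNs]
    have h4 : ∀ b : Idn F (q ^ n), b = ⟨Ideal.span {s} ^ n, h3⟩ := by
      rintro ⟨b, hb⟩
      obtain ⟨j, hj, hb'⟩ := hpow _ b hb
      have : j = n := by omega
      subst this
      exact Subtype.ext hb'
    unfold bψ
    rw [tsum_eq_single (⟨Ideal.span {s} ^ n, h3⟩ : Idn F (q ^ n))
      (fun b hb => absurd (h4 b) hb)]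
    change ψ (Ideal.span {s} ^ n) = _
    rw [map_pow]

end RZ

end Pool.Agent.Lib.MP_7c08ba_nt
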