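import Pool.Agent.Lib.MP_7c08ba_nt.RZ.StD

set_option autoImplicit false

/-! (D17) the central value is a non-zero multiple of the square of the period. -/

namespace Pool.Agent.Lib.MP_7c08ba_nt

namespace RZ

open NumberField MeasureTheory UpperHalfPlane Set IsDedekindDomain
open scoped MatrixGroups ComplexConjugate nonZeroDivisors

theorem stCen (h1 : StW12) (h2 : StSpan) (h3 : StKer) (h4 : StDefo) (h5 : StRSat) (h6 : StJm)
    (h7 : StSSinv) (h8 : StGlue) (h9 : StCls) (h10 : StReps) (h11 : StPInv) (h12 : StPsi)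
    (_h13 : StBas) : StCen := by
  intro q hq0 F _ _ s σ χ cj w r f ψ hD hf hψ
  obtain ⟨hw, hev⟩ := h1 w f hf
  obtain ⟨β, hβ0, hβ⟩ := h2 w f (by omega) hev
  have hker := h3 w f β hf hβ0 hβ
  obtain ⟨-, c, hcop⟩ := h10 q F _ _ s σ χ cj hD
  have hrs := h5 q hq0 F _ _ s σ χ cj w r f ψ c β hD (by omega) hev hβ0 hβ
  obtain ⟨ε, hε, hJ⟩ := h6 q hq0 F _ _ s σ χ cj w r ψ c hD (by omega) hev
  have hP := (h11 q F _ _ s σ χ cj w r f ψ hD hψ (by omega)).2 c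
  obtain ⟨-, hψn, hψc⟩ := h12 q F _ _ s σ χ cj (w + 2 * r) ψ hD hψ
  have hb : ∀ A, (c.R A : Ideal (𝓞 F)) ≠ ⊥ := fun A => nonZeroDivisors.coe_ne_zero (c.R A)
  have hbm : ∀ A, ((c.R A : Ideal (𝓞 F)).map (cj : 𝓞 F →+* 𝓞 F)) ∈ (Ideal (𝓞 F))⁰ := by
    intro A
    rw [mem_nonZeroDivisors_iff_ne_zero]
    intro h
    apply hb A
    have hinj : Function.Injective (cj : 𝓞 F →+* 𝓞 F) := cj.injective
    exact (Ideal.map_eq_bot_iff_of_injective hinj).1 h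
  have hN0 : ∀ A, (Ideal.absNorm (c.R A : Ideal (𝓞 F)) : ℂ) ≠ 0 := by
    intro A
    have := Ideal.absNorm_ne_zero_of_nonZeroDivisors (c.R A)
    exact_mod_cast this
  have hψ0 : ∀ A, ψ (c.R A : Ideal (𝓞 F)) ≠ 0 := by
    intro A h
    have h13 := hψn _ (hb A)
    rw [h, norm_zero] at h13
    have h14 : ((Ideal.absNorm (c.R A : Ideal (𝓞 F)) : ℝ)) ≠ 0 := by exact_mod_cast hN0 A
    exact pow_ne_zero _ h14 (by rw [← h13]; norm_num)
  have hq : (q : ℂ) ≠ 0 := by exact_mod_cast hD.prime.ne_zero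
  have hsq : (Real.sqrt q : ℂ) ≠ 0 := by
    have : Real.sqrt q ≠ 0 := Real.sqrt_ne_zero'.2 (by exact_mod_cast hD.prime.pos)
    exact_mod_cast this
  -- the sums over the classes
  have hsum : ∀ m : ℕ, 1 ≤ m → ∑ A : ClassGroup (𝓞 F), ∑ B : ClassGroup (𝓞 F),
      (ψ (c.R A : Ideal (𝓞 F)))⁻¹ * SS q w r m σ (c.R A : Ideal (𝓞 F)) (c.R B : Ideal (𝓞 F)) =
      ∑ C : ClassGroup (𝓞 F), ∑ D : ClassGroup (𝓞 F),
        (2 * ((Complex.I * Real.sqrt q) ^ (w + 2 * r))⁻¹ * (q : ℂ) ^ (w + r)) *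
        (ψ (c.R C : Ideal (𝓞 F)) * ((Ideal.absNorm (c.R C : Ideal (𝓞 F)) : ℂ) ^ r)⁻¹) *
        ((ψ (c.R D : Ideal (𝓞 F)))⁻¹ * (Ideal.absNorm (c.R D : Ideal (𝓞 F)) : ℂ) ^ (w + r)) *
        XX w r m (σ (c.X C)) (σ (c.Y C)) (σ (c.X D)) (σ (c.Y D)) := by
    intro m hm
    obtain ⟨hcl, hcs⟩ := h9 q F _ _ s σ χ cj (fun A B => (ψ (c.R A : Ideal (𝓞 F)))⁻¹ *
      SS q w r m σ (c.R A : Ideal (𝓞 F)) (c.R B : Ideal (𝓞 F))) hD
    rw [hcs]
    refine Finset.sum_congr rfl fun C _ => Finset.sum_congr rfl fun D _ => ?_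
    have e1 : ClassGroup.mk0 (c.R (D * C⁻¹)) =
        ClassGroup.mk0 (c.R D * ⟨_, hbm C⟩) := by
      rw [map_mul, hcl (c.R C) (hbm C), c.cls, c.cls, c.cls]
    have e2 : ClassGroup.mk0 (c.R (D * C)) = ClassGroup.mk0 (c.R D * c.R C) := by
      rw [map_mul, c.cls, c.cls, c.cls]
    have e3 := h7 q F _ _ s σ χ cj w r m ψ _ _ _ _ hD hψ e1 e2
    have e4 := h8 q F _ _ s σ χ cj w r m (c.R C : Ideal (𝓞 F)) (c.R D : Ideal (𝓞 F))
      (c.X C) (c.Y C) (c.X D) (c.Y D) hD (by omega) hm hev (c.bas C) (c.bas D) (hb C) (hb D)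
      (hcop C) (hcop D)
    have e5 : ((c.R D * ⟨_, hbm C⟩ : (Ideal (𝓞 F))⁰) : Ideal (𝓞 F)) =
        (c.R D : Ideal (𝓞 F)) * (c.R C : Ideal (𝓞 F)).map (cj : 𝓞 F →+* 𝓞 F) := rfl
    have e6 : ((c.R D * c.R C : (Ideal (𝓞 F))⁰) : Ideal (𝓞 F)) =
        (c.R D : Ideal (𝓞 F)) * (c.R C : Ideal (𝓞 F)) := rfl
    rw [e5, e6, e4, map_mul] at e3
    rw [e3]
    have e7 := hψc _ (hb C)
    have e8 : (ψ ((c.R C : Ideal (𝓞 F)).map (cj : 𝓞 F →+* 𝓞 F)))⁻¹ =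
        ψ (c.R C : Ideal (𝓞 F)) *
          ((Ideal.absNorm (c.R C : Ideal (𝓞 F)) : ℂ) ^ (w + 2 * r))⁻¹ := by
      rw [← e7, mul_inv, ← mul_assoc, mul_inv_cancel₀ (hψ0 C), one_mul]
    rw [mul_inv, e8]
    have e9 : (Ideal.absNorm (c.R C : Ideal (𝓞 F)) : ℂ) ^ (w + 2 * r) =
        (Ideal.absNorm (c.R C : Ideal (𝓞 F)) : ℂ) ^ (w + r) *
          (Ideal.absNorm (c.R C : Ideal (𝓞 F)) : ℂ) ^ r := by
      rw [← pow_add]
      congr 1
      ring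
    have e11 : ((q : ℂ) * (Ideal.absNorm (c.R C : Ideal (𝓞 F)) : ℂ) *
        (Ideal.absNorm (c.R D : Ideal (𝓞 F)) : ℂ)) ^ (w + r) = (q : ℂ) ^ (w + r) *
        (Ideal.absNorm (c.R C : Ideal (𝓞 F)) : ℂ) ^ (w + r) *
        (Ideal.absNorm (c.R D : Ideal (𝓞 F)) : ℂ) ^ (w + r) := by rw [mul_pow, mul_pow]
    rw [e9, e11, mul_inv ((Ideal.absNorm (c.R C : Ideal (𝓞 F)) : ℂ) ^ (w + r))]
    have e10 : (Ideal.absNorm (c.R C : Ideal (𝓞 F)) : ℂ) ^ (w + r) ≠ 0 := pow_ne_zero _ (hN0 C)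
    field_simp
  -- the kernel identity
  have hS : ∀ C D : ClassGroup (𝓞 F), (∑ m ∈ β.support, β m *
      XX w r m (σ (c.X C)) (σ (c.Y C)) (σ (c.X D)) (σ (c.Y D))) =
      (((w + r - 1).choose r : ℂ)⁻¹ * ((-1) ^ r * (2 * Cw w))) *
        lfr f r (σ (c.X C)) (σ (c.Y C)) *
        lfr f r (-conj (σ (c.X D))) (conj (σ (c.Y D))) := by
    intro C D
    have e1 := (h4 w r f β (σ (c.X C)) (σ (c.Y C)) (σ (c.X D)) (σ (c.Y D)) (by omega) hβ0 hker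
      (c.bas C).pos (c.bas D).pos).2
    have e2 : ((w + r - 1).choose r : ℂ) ≠ 0 := by
      have : (w + r - 1).choose r ≠ 0 := (Nat.choose_pos (by omega)).ne'
      exact_mod_cast this
    have e3 : (∑ m ∈ β.support, β m *
      XX w r m (σ (c.X C)) (σ (c.Y C)) (σ (c.X D)) (σ (c.Y D))) *
        ((w + r - 1).choose r : ℂ) = (-1) ^ r * (2 * Cw w) * lfr f r (σ (c.X C)) (σ (c.Y C)) *
        lfr f r (-conj (σ (c.X D))) (conj (σ (c.Y D))) := e1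
    rw [eq_comm, mul_assoc, mul_assoc, inv_mul_eq_iff_eq_mul₀ e2, mul_comm _ (Finset.sum _ _), e3]
    ring
  set K0 : ℂ := 1 / 2 * ε * (Real.pi / Real.sqrt q) * ((w + r - 1).factorial : ℂ) *
        ((4 * Real.pi : ℂ) ^ (w + r))⁻¹ with hK0
  set K2 : ℂ := 2 * ((Complex.I * Real.sqrt q) ^ (w + 2 * r))⁻¹ * (q : ℂ) ^ (w + r) with hK2
  set K3 : ℂ := ((w + r - 1).choose r : ℂ)⁻¹ * ((-1) ^ r * (2 * Cw w)) with hK3
  refine ⟨c, K0 * K2 * K3, ?_, ?_⟩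
  · have hε0 : ε ≠ 0 := by
      rcases hε with h | h <;> rw [h] <;> norm_num
    have hπ : (Real.pi : ℂ) ≠ 0 := by exact_mod_cast Real.pi_ne_zero
    have hch : ((w + r - 1).choose r : ℂ) ≠ 0 := by
      have : (w + r - 1).choose r ≠ 0 := (Nat.choose_pos (by omega)).ne'
      exact_mod_cast this
    have hfac : ∀ n : ℕ, (n.factorial : ℂ) ≠ 0 := fun n => by
      exact_mod_cast n.factorial_ne_zero
    have hI := Complex.I_ne_zero
    have hCw : Cw w ≠ 0 := by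
      unfold Cw
      refine div_ne_zero (pow_ne_zero _ ?_) (hfac _)
      exact mul_ne_zero (mul_ne_zero two_ne_zero hπ) hI
    have a1 : K0 ≠ 0 := by
      rw [hK0]
      refine mul_ne_zero (mul_ne_zero (mul_ne_zero (mul_ne_zero (by norm_num) hε0)
        (div_ne_zero hπ hsq)) (hfac _)) (inv_ne_zero (pow_ne_zero _ ?_))
      exact mul_ne_zero (by norm_num) hπ
    have a2 : K2 ≠ 0 := by
      rw [hK2]
      exact mul_ne_zero (mul_ne_zero two_ne_zero (inv_ne_zero (pow_ne_zero _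
        (mul_ne_zero hI hsq)))) (pow_ne_zero _ hq)
    have a3 : K3 ≠ 0 := by
      rw [hK3]
      exact mul_ne_zero (inv_ne_zero hch) (mul_ne_zero (pow_ne_zero _ (by norm_num))
        (mul_ne_zero two_ne_zero hCw))
    exact mul_ne_zero (mul_ne_zero a1 a2) a3
  · rw [hrs]
    unfold Finsupp.sum
    have e1 : ∀ m ∈ β.support, β m * JJ w m (tr q w (HH q χ w r ψ c (-r))) =
        ∑ C : ClassGroup (𝓞 F), ∑ D : ClassGroup (𝓞 F), K0 * (K2 *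
        (ψ (c.R C : Ideal (𝓞 F)) * ((Ideal.absNorm (c.R C : Ideal (𝓞 F)) : ℂ) ^ r)⁻¹) *
        ((ψ (c.R D : Ideal (𝓞 F)))⁻¹ * (Ideal.absNorm (c.R D : Ideal (𝓞 F)) : ℂ) ^ (w + r))) *
        (β m * XX w r m (σ (c.X C)) (σ (c.Y C)) (σ (c.X D)) (σ (c.Y D))) := by
      intro m hm
      have hm1 : 1 ≤ m := by
        rcases Nat.eq_zero_or_pos m with rfl | h
        · exact absurd hβ0 (Finsupp.mem_support_iff.1 hm)
        · exact h
      rw [hJ m hm1, hsum m hm1, Finset.mul_sum, Finset.mul_sum]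
      refine Finset.sum_congr rfl fun C _ => ?_
      rw [Finset.mul_sum, Finset.mul_sum]
      refine Finset.sum_congr rfl fun D _ => ?_
      ring
    rw [Finset.sum_congr rfl e1, Finset.sum_comm]
    have e2 : ∀ C : ClassGroup (𝓞 F), ∑ m ∈ β.support, ∑ D : ClassGroup (𝓞 F), K0 * (K2 *
        (ψ (c.R C : Ideal (𝓞 F)) * ((Ideal.absNorm (c.R C : Ideal (𝓞 F)) : ℂ) ^ r)⁻¹) *
        ((ψ (c.R D : Ideal (𝓞 F)))⁻¹ * (Ideal.absNorm (c.R D : Ideal (𝓞 F)) : ℂ) ^ (w + r))) *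
        (β m * XX w r m (σ (c.X C)) (σ (c.Y C)) (σ (c.X D)) (σ (c.Y D))) =
        ∑ D : ClassGroup (𝓞 F), K0 * K2 * K3 *
          ((ψ (c.R C : Ideal (𝓞 F)) * ((Ideal.absNorm (c.R C : Ideal (𝓞 F)) : ℂ) ^ r)⁻¹ *
            lfr f r (σ (c.X C)) (σ (c.Y C))) *
          ((ψ (c.R D : Ideal (𝓞 F)))⁻¹ * (Ideal.absNorm (c.R D : Ideal (𝓞 F)) : ℂ) ^ (w + r) *
            lfr f r (-conj (σ (c.X D))) (conj (σ (c.Y D))))) := by
      intro C
      rw [Finset.sum_comm]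
      refine Finset.sum_congr rfl fun D _ => ?_
      rw [← Finset.mul_sum, hS C D]
      ring
    rw [Finset.sum_congr rfl fun C _ => e2 C]
    simp_rw [← Finset.mul_sum]
    rw [← Finset.sum_mul, hP, sq]
    rfl

end RZ

end Pool.Agent.Lib.MP_7c08ba_nt
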