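import Pool.Agent.Lib.MP_7c08ba_nt.RZ.StD

set_option autoImplicit false

/-! (D16): sums over pairs of classes. -/

namespace Pool.Agent.Lib.MP_7c08ba_nt

namespace RZ

open NumberField
open scoped nonZeroDivisors

namespace ClsAux

theorem sum_pairs {G : Type*} [CommGroup G] [Fintype G] (hodd : Odd (Nat.card G))
    (Φ : G → G → ℂ) : ∑ A : G, ∑ B : G, Φ A B = ∑ C : G, ∑ D : G, Φ (D * C⁻¹) (D * C) := by
  have hcop : (Nat.card G).Coprime 2 := hodd.coprime_two_right
  let e : G × G → G × G := fun p => (p.2 * p.1⁻¹, p.2 * p.1)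
  have hinj : Function.Injective e := by
    rintro ⟨C, D⟩ ⟨C', D'⟩ h
    obtain ⟨h1, h2⟩ := Prod.ext_iff.1 h
    simp only [e] at h1 h2
    have hD : D = D' := by
      apply (powCoprime hcop).injective
      simp only [powCoprime_apply]
      have : D ^ 2 = (D * C⁻¹) * (D * C) := by
        rw [pow_two, mul_mul_mul_comm, inv_mul_cancel, mul_one]
      have h' : D' ^ 2 = (D' * C'⁻¹) * (D' * C') := by
        rw [pow_two, mul_mul_mul_comm, inv_mul_cancel, mul_one]
      rw [this, h', h1, h2]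
    subst hD
    have hC : C = C' := mul_left_cancel h2
    rw [hC]
  have hbij : Function.Bijective e := Finite.injective_iff_bijective.1 hinj
  have h1 : ∑ p : G × G, Φ p.1 p.2 = ∑ p : G × G, Φ (e p).1 (e p).2 :=
    (hbij.sum_comp fun p : G × G => Φ p.1 p.2).symm
  rw [Fintype.sum_prod_type, Fintype.sum_prod_type] at h1
  exact h1

end ClsAux

open ClsAux

theorem stCls (h1 : StBas) (h2 : StReps) : StCls := by
  intro q F _ _ s σ χ cj Φ hD
  obtain ⟨-, -, -, -, -, -, hN, -⟩ := h1 q F _ _ s σ χ cj hD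
  refine ⟨fun b h => ?_, sum_pairs (h2 q F _ _ s σ χ cj hD).1 Φ⟩
  rw [eq_inv_iff_mul_eq_one, mul_comm, ← map_mul, ClassGroup.mk0_eq_one_iff]
  have e : ((b * ⟨_, h⟩ : (Ideal (𝓞 F))⁰) : Ideal (𝓞 F)) =
      Ideal.span {(Ideal.absNorm (b : Ideal (𝓞 F)) : 𝓞 F)} := by
    rw [Submonoid.coe_mul]
    exact hN b
  rw [e]
  exact ⟨⟨_, rfl⟩⟩

end RZ

end Pool.Agent.Lib.MP_7c08ba_nt
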