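import Pool.Agent.Lib.MP_7c08ba_nt.RZ.StB

set_option autoImplicit false

/-!
(B11) convergence of the Eisenstein series with the quadratic character.
-/

namespace Pool.Agent.Lib.MP_7c08ba_nt

namespace RZ

open NumberField MeasureTheory UpperHalfPlane Set
open scoped MatrixGroups ComplexConjugate nonZeroDivisors

namespace EisAaux

/-! ### the general term -/

lemma norm_gE (r : ℕ) (s : ℂ) {z : ℂ} (hz : z ≠ 0) :
    ‖gE r s z‖ = ‖z‖ ^ (-(2 * (r : ℝ) + 1 + 2 * s.re)) := by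
  have h0 : 0 < ‖z‖ := norm_pos_iff.mpr hz
  have hN : 0 < Complex.normSq z := Complex.normSq_pos.mpr hz
  unfold gE
  rw [norm_mul, norm_inv, norm_pow, Complex.norm_cpow_eq_rpow_re_of_pos hN, Complex.neg_re,
    Complex.normSq_eq_norm_sq, ← Real.rpow_natCast ‖z‖ (2 * r + 1), ← Real.rpow_natCast ‖z‖ 2,
    ← Real.rpow_mul h0.le, ← Real.rpow_neg h0.le, ← Real.rpow_add h0]
  congr 1
  push_cast
  ring

/-- the exponent -/
noncomputable def lG (α s z : ℂ) (t : ℝ) : ℂ :=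
  -α * Complex.log (z + t) - s * Complex.log (conj z + t)

lemma gE_exp (r : ℕ) (s : ℂ) {z : ℂ} (hz : 0 < z.im) (t : ℝ) :
    gE r s (z + t) = Complex.exp (lG (2 * r + 1 + s) s z t) := by
  have hw : 0 < (z + t).im := by simpa using hz
  have hw0 : z + t ≠ 0 := by
    intro h
    rw [h] at hw
    simp at hw
  have hc : conj z + (t : ℂ) = conj (z + t) := by simp
  have harg : (z + t).arg ≠ Real.pi := by
    intro h
    rw [Complex.arg_eq_pi_iff] at h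
    exact hw.ne' h.2
  have hN : 0 < Complex.normSq (z + t) := Complex.normSq_pos.mpr hw0
  have hlog : (Complex.log ((Complex.normSq (z + t) : ℝ) : ℂ)) =
      Complex.log (z + t) + Complex.log (conj (z + t)) := by
    rw [Complex.log_conj _ harg, Complex.add_conj, Complex.log_re, ← Complex.ofReal_log hN.le,
      Complex.normSq_eq_norm_sq, Real.log_pow]
    push_cast
    ring
  unfold gE lG
  rw [hc, Complex.cpow_def_of_ne_zero (by exact_mod_cast hN.ne'), hlog]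
  have h1 : ((z + t) ^ (2 * r + 1))⁻¹ =
      Complex.exp (-((2 * r + 1 : ℕ) * Complex.log (z + t))) := by
    rw [Complex.exp_neg, Complex.exp_nat_mul, Complex.exp_log hw0]
  rw [h1, ← Complex.exp_add]
  congr 1
  push_cast
  ring

/-- the logarithmic derivative -/
noncomputable def hG (α s z : ℂ) (t : ℝ) : ℂ := -α * (z + t)⁻¹ - s * (conj z + t)⁻¹

/-- its derivative -/
noncomputable def hG' (α s z : ℂ) (t : ℝ) : ℂ := α * ((z + t) ^ 2)⁻¹ + s * ((conj z + t) ^ 2)⁻¹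

lemma hasDerivAt_add (z : ℂ) (t : ℝ) : HasDerivAt (fun t : ℝ => z + (t : ℂ)) 1 t := by
  have h := (hasDerivAt_id t).ofReal_comp.const_add z
  simpa using h

lemma mem_slit {z : ℂ} (hz : z.im ≠ 0) (t : ℝ) : z + (t : ℂ) ∈ Complex.slitPlane := by
  rw [Complex.mem_slitPlane_iff]
  exact Or.inr (by simpa using hz)

lemma add_ne {z : ℂ} (hz : z.im ≠ 0) (t : ℝ) : z + (t : ℂ) ≠ 0 :=
  Complex.slitPlane_ne_zero (mem_slit hz t)

lemma hasDerivAt_lG (α s : ℂ) {z : ℂ} (hz : 0 < z.im) (t : ℝ) :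
    HasDerivAt (lG α s z) (hG α s z t) t := by
  have h1 := (hasDerivAt_add z t).clog_real (mem_slit hz.ne' t)
  have hz' : (conj z).im ≠ 0 := by simpa using hz.ne'
  have h2 := (hasDerivAt_add (conj z) t).clog_real (mem_slit hz' t)
  have h3 := (h1.const_mul (-α)).sub (h2.const_mul s)
  rw [one_div, one_div] at h3
  exact h3

lemma hasDerivAt_hG (α s : ℂ) {z : ℂ} (hz : 0 < z.im) (t : ℝ) :
    HasDerivAt (hG α s z) (hG' α s z t) t := by
  have h1 := (hasDerivAt_add z t).inv (add_ne hz.ne' t)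
  have hz' : (conj z).im ≠ 0 := by simpa using hz.ne'
  have h2 := (hasDerivAt_add (conj z) t).inv (add_ne hz' t)
  have h3 := (h1.const_mul (-α)).sub (h2.const_mul s)
  have h4 : -α * (-1 / (z + (t : ℂ)) ^ 2) - s * (-1 / (conj z + (t : ℂ)) ^ 2) = hG' α s z t := by
    unfold hG'
    rw [div_eq_mul_inv, div_eq_mul_inv]
    ring
  rw [h4] at h3
  exact h3

lemma norm_conj_add (z : ℂ) (t : ℝ) : ‖conj z + (t : ℂ)‖ = ‖z + (t : ℂ)‖ := by
  have hc : conj z + (t : ℂ) = conj (z + t) := by simp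
  rw [hc, Complex.norm_conj]

/-- a bound for the second derivative -/
lemma norm_second (α s z : ℂ) (t : ℝ) (E : ℂ) :
    ‖E * (hG α s z t) * (hG α s z t) + E * hG' α s z t‖ ≤
      ‖E‖ * (((‖α‖ + ‖s‖) ^ 2 + (‖α‖ + ‖s‖)) * (‖z + (t : ℂ)‖ ^ 2)⁻¹) := by
  have h1 : ‖hG α s z t‖ ≤ (‖α‖ + ‖s‖) * ‖z + (t : ℂ)‖⁻¹ := by
    unfold hG
    refine (norm_sub_le _ _).trans (le_of_eq ?_)
    rw [norm_mul, norm_mul, norm_inv, norm_inv, norm_conj_add, norm_neg]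
    ring
  have h2 : ‖hG' α s z t‖ ≤ (‖α‖ + ‖s‖) * (‖z + (t : ℂ)‖ ^ 2)⁻¹ := by
    unfold hG'
    refine (norm_add_le _ _).trans (le_of_eq ?_)
    rw [norm_mul, norm_mul, norm_inv, norm_inv, norm_pow, norm_pow, norm_conj_add]
    ring
  have h3 : ‖hG α s z t‖ * ‖hG α s z t‖ ≤ (‖α‖ + ‖s‖) ^ 2 * (‖z + (t : ℂ)‖ ^ 2)⁻¹ := by
    have := mul_le_mul h1 h1 (norm_nonneg _) (by positivity)
    refine this.trans (le_of_eq ?_)
    rw [← inv_pow]
    ring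
  have h4 : E * (hG α s z t) * (hG α s z t) + E * hG' α s z t =
      E * (hG α s z t * hG α s z t + hG' α s z t) := by ring
  rw [h4, norm_mul]
  refine mul_le_mul_of_nonneg_left ?_ (norm_nonneg _)
  refine (norm_add_le _ _).trans ?_
  rw [norm_mul, add_mul]
  exact add_le_add h3 h2

/-- Taylor's formula -/
lemma taylor {G G1 G2 : ℝ → ℂ} {Q M : ℝ} (hQ : 0 ≤ Q)
    (h1 : ∀ t, HasDerivAt G (G1 t) t) (h2 : ∀ t, HasDerivAt G1 (G2 t) t)
    (hM : ∀ t ∈ Icc 0 Q, ‖G2 t‖ ≤ M) {a : ℝ} (ha : a ∈ Icc 0 Q) :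
    ‖G a - G 0 - a * G1 0‖ ≤ M * Q * Q := by
  have h0 : (0 : ℝ) ∈ Icc 0 Q := ⟨le_rfl, hQ⟩
  have hM0 : 0 ≤ M := (norm_nonneg _).trans (hM 0 h0)
  have h3 : ∀ t ∈ Icc 0 Q, ‖G1 t - G1 0‖ ≤ M * Q := by
    intro t ht
    have := (convex_Icc (0 : ℝ) Q).norm_image_sub_le_of_norm_hasDerivWithin_le
      (fun x _ => (h2 x).hasDerivWithinAt) hM h0 ht
    refine this.trans (mul_le_mul_of_nonneg_left ?_ hM0)
    rw [sub_zero, Real.norm_eq_abs, abs_of_nonneg ht.1]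
    exact ht.2
  have h4 : ∀ t, HasDerivAt (fun t : ℝ => G t - (t : ℂ) * G1 0) (G1 t - G1 0) t := by
    intro t
    have h5 : HasDerivAt (fun t : ℝ => (t : ℂ) * G1 0) (G1 0) t := by
      have := (hasDerivAt_add 0 t).mul_const (G1 0)
      simpa using this
    exact (h1 t).sub h5
  have h6 := (convex_Icc (0 : ℝ) Q).norm_image_sub_le_of_norm_hasDerivWithin_le
    (fun x _ => (h4 x).hasDerivWithinAt) h3 h0 ha
  have h7 : G a - G 0 - a * G1 0 = G a - (a : ℂ) * G1 0 - (G 0 - ((0 : ℝ) : ℂ) * G1 0) := by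
    push_cast
    ring
  rw [h7]
  refine h6.trans (mul_le_mul_of_nonneg_left ?_ (mul_nonneg hM0 hQ))
  rw [sub_zero, Real.norm_eq_abs, abs_of_nonneg ha.1]
  exact ha.2

/-- the difference to the linear interpolation -/
lemma bracket {G G1 G2 : ℝ → ℂ} {Q M : ℝ} (hQ : 0 < Q)
    (h1 : ∀ t, HasDerivAt G (G1 t) t) (h2 : ∀ t, HasDerivAt G1 (G2 t) t)
    (hM : ∀ t ∈ Icc 0 Q, ‖G2 t‖ ≤ M) {a : ℝ} (ha : a ∈ Icc 0 Q) :
    ‖G a - G 0 - a / Q * (G Q - G 0)‖ ≤ 2 * (M * Q * Q) := by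
  have hM0 : 0 ≤ M := (norm_nonneg _).trans (hM 0 ⟨le_rfl, hQ.le⟩)
  have h3 := taylor hQ.le h1 h2 hM ha
  have h4 := taylor hQ.le h1 h2 hM (a := Q) ⟨hQ.le, le_rfl⟩
  have hQ' : (Q : ℂ) ≠ 0 := by exact_mod_cast hQ.ne'
  have h5 : G a - G 0 - a / Q * (G Q - G 0) =
      (G a - G 0 - a * G1 0) - (a / Q) * (G Q - G 0 - Q * G1 0) := by
    field_simp
    ring
  rw [h5]
  refine (norm_sub_le _ _).trans ?_
  have h6 : ‖((a : ℂ) / Q) * (G Q - G 0 - Q * G1 0)‖ ≤ 1 * (M * Q * Q) := by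
    rw [norm_mul]
    refine mul_le_mul ?_ h4 (norm_nonneg _) zero_le_one
    rw [← Complex.ofReal_div, Complex.norm_real, Real.norm_eq_abs, abs_of_nonneg
      (div_nonneg ha.1 hQ.le)]
    exact (div_le_one hQ).mpr ha.2
  linarith

/-- the constant -/
noncomputable def Bs (r : ℕ) (s : ℂ) : ℝ :=
  (‖2 * (r : ℂ) + 1 + s‖ + ‖s‖) ^ 2 + (‖2 * (r : ℂ) + 1 + s‖ + ‖s‖)

lemma Bs_nonneg (r : ℕ) (s : ℂ) : 0 ≤ Bs r s := by
  unfold Bs
  positivity

/-- the bound for one bracket -/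
lemma bracket_gE (r : ℕ) (s : ℂ) {z : ℂ} (hz : 0 < z.im) {Q ρ : ℝ} (hQ : 0 < Q) (hρ : 0 < ρ)
    (hρz : ∀ t ∈ Icc 0 Q, ρ ≤ ‖z + (t : ℂ)‖) (hs : 0 ≤ 2 * (r : ℝ) + 3 + 2 * s.re) {a : ℝ}
    (ha : a ∈ Icc 0 Q) :
    ‖gE r s (z + a) - gE r s z - a / Q * (gE r s (z + Q) - gE r s z)‖ ≤
      2 * (Bs r s * ρ ^ (-(2 * (r : ℝ) + 3 + 2 * s.re)) * Q * Q) := by
  have e0 : gE r s z = gE r s (z + ((0 : ℝ) : ℂ)) := by simp
  rw [e0]
  set α : ℂ := 2 * r + 1 + s with hα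
  have h1 : ∀ t : ℝ, HasDerivAt (fun t : ℝ => gE r s (z + t)) (gE r s (z + t) * hG α s z t) t := by
    intro t
    have h := (hasDerivAt_lG α s hz t).cexp
    have e : (fun t : ℝ => gE r s (z + t)) = fun t : ℝ => Complex.exp (lG α s z t) := by
      funext t
      exact gE_exp r s hz t
    rw [e, gE_exp r s hz t]
    exact h
  have h2 : ∀ t : ℝ, HasDerivAt (fun t : ℝ => gE r s (z + t) * hG α s z t)
      (gE r s (z + t) * hG α s z t * hG α s z t + gE r s (z + t) * hG' α s z t) t :=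
    fun t => (h1 t).mul (hasDerivAt_hG α s hz t)
  refine bracket hQ h1 h2 ?_ ha
  intro t ht
  have hne : z + (t : ℂ) ≠ 0 := add_ne hz.ne' t
  have h0 : 0 < ‖z + (t : ℂ)‖ := norm_pos_iff.mpr hne
  refine (norm_second α s z t _).trans ?_
  rw [norm_gE r s hne]
  have h3 : ‖z + (t : ℂ)‖ ^ (-(2 * (r : ℝ) + 1 + 2 * s.re)) *
      (((‖α‖ + ‖s‖) ^ 2 + (‖α‖ + ‖s‖)) * (‖z + (t : ℂ)‖ ^ 2)⁻¹) =
      Bs r s * ‖z + (t : ℂ)‖ ^ (-(2 * (r : ℝ) + 3 + 2 * s.re)) := by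
    have h4 : (‖z + (t : ℂ)‖ ^ 2)⁻¹ = ‖z + (t : ℂ)‖ ^ (-2 : ℝ) := by
      rw [Real.rpow_neg h0.le, ← Real.rpow_natCast ‖z + (t : ℂ)‖ 2]
      norm_num
    have h5 : ‖z + (t : ℂ)‖ ^ (-(2 * (r : ℝ) + 3 + 2 * s.re)) =
        ‖z + (t : ℂ)‖ ^ (-(2 * (r : ℝ) + 1 + 2 * s.re)) * ‖z + (t : ℂ)‖ ^ (-2 : ℝ) := by
      rw [← Real.rpow_add h0]
      congr 1
      ring
    rw [h4, h5]
    unfold Bs
    rw [← hα]
    ring
  rw [h3]
  refine mul_le_mul_of_nonneg_left ?_ (Bs_nonneg r s)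
  exact Real.rpow_le_rpow_of_nonpos hρ (hρz t ht) (by linarith)

/-! ### the character -/

lemma chi_ne_one {q : ℕ} [NeZero q] {χ : DirichletCharacter ℂ q} (hq : q.Prime) (h2 : 2 < q)
    (hχ : ∀ n : ℤ, χ n = (jacobiSym n q : ℂ)) : χ ≠ 1 := by
  have : Fact q.Prime := ⟨hq⟩
  intro h
  obtain ⟨a, ha⟩ := quadraticChar_exists_neg_one (F := ZMod q) (by
    rw [ZMod.ringChar_zmod_n]
    omega)
  obtain ⟨n, rfl⟩ := ZMod.intCast_surjective a
  have h1 : jacobiSym n q = -1 := by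
    rw [← jacobiSym.legendreSym.to_jacobiSym, legendreSym]
    exact ha
  have h3 := hχ n
  rw [h1, h, MulChar.one_apply] at h3
  · norm_num at h3
  · by_contra hu
    have hz : ((n : ℤ) : ZMod q) = 0 := by
      by_contra hz
      exact hu (IsUnit.mk0 _ hz)
    rw [hz] at ha
    simp at ha

lemma sum_chi {q : ℕ} [NeZero q] {χ : DirichletCharacter ℂ q} (h : χ ≠ 1) :
    ∑ a ∈ Finset.range q, χ (a : ZMod q) = 0 := by
  rw [← MulChar.sum_eq_zero_of_ne_one h]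
  refine Finset.sum_nbij' (fun a => (a : ZMod q)) (fun x => x.val) ?_ ?_ ?_ ?_ ?_
  · intro a _
    exact Finset.mem_univ _
  · intro x _
    exact Finset.mem_range.mpr (ZMod.val_lt x)
  · intro a ha
    exact ZMod.val_cast_of_lt (Finset.mem_range.mp ha)
  · intro x _
    exact ZMod.natCast_zmod_val x
  · intro a _
    rfl

/-- the bound for `dE` -/
lemma norm_dE_le {q : ℕ} [NeZero q] {χ : DirichletCharacter ℂ q} (hχ : χ ≠ 1) (r : ℕ) (s : ℂ)
    {z : ℂ} (hz : 0 < z.im) {ρ : ℝ} (hρ : 0 < ρ)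
    (hρz : ∀ t ∈ Icc 0 (q : ℝ), ρ ≤ ‖z + (t : ℂ)‖) (hs : 0 ≤ 2 * (r : ℝ) + 3 + 2 * s.re) :
    ‖dE q χ r s z‖ ≤ 2 * (q : ℝ) ^ 3 * Bs r s * ρ ^ (-(2 * (r : ℝ) + 3 + 2 * s.re)) := by
  have hq0 : (0 : ℝ) < q := by exact_mod_cast Nat.pos_of_ne_zero (NeZero.ne q)
  have h1 : dE q χ r s z = ∑ a ∈ Finset.range q, χ a * (gE r s (z + a) - gE r s z -
      (a : ℂ) / q * (gE r s (z + q) - gE r s z)) := by
    have h2 : ∀ a ∈ Finset.range q, χ a * (gE r s (z + a) - gE r s z -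
        (a : ℂ) / q * (gE r s (z + q) - gE r s z)) =
        χ a * gE r s (z + a) - χ a * gE r s z - χ a * a * ((gE r s (z + q) - gE r s z) / q) := by
      intro a _
      ring
    rw [Finset.sum_congr rfl h2, Finset.sum_sub_distrib, Finset.sum_sub_distrib,
      ← Finset.sum_mul, ← Finset.sum_mul, sum_chi hχ]
    unfold dE
    ring
  rw [h1]
  refine (norm_sum_le _ _).trans ?_
  have h3 : ∀ a ∈ Finset.range q, ‖χ a * (gE r s (z + a) - gE r s z -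
      (a : ℂ) / q * (gE r s (z + q) - gE r s z))‖ ≤
      2 * (Bs r s * ρ ^ (-(2 * (r : ℝ) + 3 + 2 * s.re)) * q * q) := by
    intro a ha
    rw [norm_mul]
    have h4 := bracket_gE r s hz hq0 hρ hρz hs (a := (a : ℝ)) ⟨Nat.cast_nonneg a, by
      exact_mod_cast (Finset.mem_range.mp ha).le⟩
    push_cast at h4
    refine (mul_le_mul (DirichletCharacter.norm_le_one χ _) h4 (norm_nonneg _)
      zero_le_one).trans (le_of_eq ?_)
    rw [one_mul]
  refine (Finset.sum_le_sum h3).trans (le_of_eq ?_)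
  rw [Finset.sum_const, Finset.card_range, nsmul_eq_mul]
  ring

/-! ### the lattice -/

/-- the size of the pair -/
noncomputable def Np (p : ℕ × ℤ) : ℝ := ‖(![((p.1 : ℤ) + 1), p.2] : Fin 2 → ℤ)‖

lemma one_le_Np (p : ℕ × ℤ) : 1 ≤ Np p := by
  have h := norm_le_pi_norm (![((p.1 : ℤ) + 1), p.2] : Fin 2 → ℤ) 0
  refine le_trans ?_ h
  show 1 ≤ ‖((p.1 : ℤ) + 1)‖
  rw [Int.norm_eq_abs]
  push_cast
  rw [abs_of_nonneg (by positivity)]
  have : (0 : ℝ) ≤ p.1 := Nat.cast_nonneg _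
  linarith

lemma Np_sq_le (p : ℕ × ℤ) : Np p ^ 2 ≤ ((p.1 : ℝ) + 1) ^ 2 + (p.2 : ℝ) ^ 2 := by
  have h : Np p ≤ √(((p.1 : ℝ) + 1) ^ 2 + (p.2 : ℝ) ^ 2) := by
    unfold Np
    rw [pi_norm_le_iff_of_nonneg (Real.sqrt_nonneg _)]
    intro i
    fin_cases i
    · show ‖((p.1 : ℤ) + 1)‖ ≤ _
      rw [Int.norm_eq_abs]
      push_cast
      refine Real.abs_le_sqrt ?_
      nlinarith [sq_nonneg (p.2 : ℝ)]
    · show ‖p.2‖ ≤ _
      rw [Int.norm_eq_abs]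
      refine Real.abs_le_sqrt ?_
      nlinarith [sq_nonneg ((p.1 : ℝ) + 1)]
  have h0 : (0 : ℝ) ≤ ((p.1 : ℝ) + 1) ^ 2 + (p.2 : ℝ) ^ 2 := by positivity
  calc Np p ^ 2 ≤ √(((p.1 : ℝ) + 1) ^ 2 + (p.2 : ℝ) ^ 2) ^ 2 :=
        pow_le_pow_left₀ (by linarith [one_le_Np p]) h 2
    _ = _ := Real.sq_sqrt h0

lemma summable_Np {κ : ℝ} (hκ : 2 < κ) : Summable fun p : ℕ × ℤ => Np p ^ (-κ) := by
  have h := EisensteinSeries.summable_one_div_norm_rpow hκ
  have hinj : Function.Injective fun p : ℕ × ℤ => (![((p.1 : ℤ) + 1), p.2] : Fin 2 → ℤ) := by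
    intro p p' hpp
    have h1 := congrFun hpp 0
    have h2 := congrFun hpp 1
    simp only [Matrix.cons_val_zero, Matrix.cons_val_one] at h1 h2
    exact Prod.ext (by omega) h2
  exact h.comp_injective hinj

/-- the quantity `(1 + |u|^2) / y` -/
noncomputable def Xu (u : ℂ) : ℝ := (1 + ‖u‖ ^ 2) / u.im

lemma im_sq_le (u : ℂ) : u.im ^ 2 ≤ ‖u‖ ^ 2 := by
  rw [← Complex.normSq_eq_norm_sq, Complex.normSq_apply]
  nlinarith [sq_nonneg u.re]

section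

variable {u : ℂ} (hu : 0 < u.im)

include hu

lemma Xu_pos : 0 < Xu u := by
  unfold Xu
  positivity

lemma one_le_Xu : 1 ≤ Xu u := by
  unfold Xu
  rw [one_le_div hu]
  have := im_sq_le u
  nlinarith [sq_nonneg (u.im - 1)]

lemma im_le_Xu : u.im ≤ Xu u := by
  unfold Xu
  rw [le_div_iff₀ hu]
  have := im_sq_le u
  nlinarith

lemma inv_im_le_Xu : u.im⁻¹ ≤ Xu u := by
  unfold Xu
  rw [div_eq_mul_inv]
  have h : (0 : ℝ) < u.im⁻¹ := inv_pos.mpr hu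
  nlinarith [sq_nonneg ‖u‖]

/-- the lower bound for linear forms -/
lemma lower (c d : ℝ) : (c ^ 2 + d ^ 2) ≤ ‖(c : ℂ) * u + d‖ ^ 2 * Xu u ^ 2 := by
  have h1 : (c ^ 2 + d ^ 2) * u.im ^ 2 ≤ ‖(c : ℂ) * u + d‖ ^ 2 * (1 + ‖u‖ ^ 2) := by
    rw [← Complex.normSq_eq_norm_sq, ← Complex.normSq_eq_norm_sq, Complex.normSq_apply,
      Complex.normSq_apply]
    simp only [Complex.add_re, Complex.mul_re, Complex.ofReal_re, Complex.ofReal_im, zero_mul,
      sub_zero, Complex.add_im, Complex.mul_im, add_zero]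
    nlinarith [sq_nonneg ((u.re * u.re + u.im * u.im) * c + u.re * d), sq_nonneg (u.re * c + d)]
  have h2 : (1 + ‖u‖ ^ 2) ≤ Xu u ^ 2 * u.im ^ 2 := by
    have h3 : Xu u * u.im = 1 + ‖u‖ ^ 2 := by
      unfold Xu
      field_simp
    have h4 : Xu u ^ 2 * u.im ^ 2 = (1 + ‖u‖ ^ 2) ^ 2 := by rw [← h3]; ring
    rw [h4]
    nlinarith [sq_nonneg ‖u‖, sq_nonneg (‖u‖ ^ 2)]
  have h5 : 0 < u.im ^ 2 := by positivity
  have h6 : (c ^ 2 + d ^ 2) * u.im ^ 2 ≤ ‖(c : ℂ) * u + d‖ ^ 2 * (Xu u ^ 2) * u.im ^ 2 := by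
    calc (c ^ 2 + d ^ 2) * u.im ^ 2 ≤ ‖(c : ℂ) * u + d‖ ^ 2 * (1 + ‖u‖ ^ 2) := h1
      _ ≤ ‖(c : ℂ) * u + d‖ ^ 2 * (Xu u ^ 2 * u.im ^ 2) :=
          mul_le_mul_of_nonneg_left h2 (by positivity)
      _ = _ := by ring
  exact le_of_mul_le_mul_right h6 h5

/-- the lower bound on a period -/
lemma lower_period {q : ℕ} [NeZero q] (p : ℕ × ℤ) (t : ℝ) (ht : t ∈ Icc 0 (q : ℝ)) :
    Np p / (2 * Xu u) ≤ ‖(q : ℂ) * (((p.1 : ℂ) + 1) * u + p.2) + (t : ℂ)‖ := by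
  have hq1 : (1 : ℝ) ≤ q := by exact_mod_cast Nat.one_le_iff_ne_zero.mpr (NeZero.ne q)
  have hq0 : (0 : ℝ) < q := by linarith
  have hqc : (q : ℂ) ≠ 0 := by exact_mod_cast NeZero.ne q
  have h1 : (q : ℂ) * (((p.1 : ℂ) + 1) * u + p.2) + (t : ℂ) =
      (q : ℂ) * (((((p.1 : ℝ) + 1 : ℝ) : ℂ)) * u + (((p.2 : ℝ) + t / q : ℝ) : ℂ)) := by
    push_cast
    field_simp
    ring
  rw [h1, norm_mul, Complex.norm_natCast]
  set w : ℝ := ‖(((((p.1 : ℝ) + 1 : ℝ) : ℂ)) * u + (((p.2 : ℝ) + t / q : ℝ) : ℂ))‖ with hw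
  have h2 := lower hu ((p.1 : ℝ) + 1) ((p.2 : ℝ) + t / q)
  rw [← hw] at h2
  have ht0 : 0 ≤ t / q := div_nonneg ht.1 hq0.le
  have ht1 : t / q ≤ 1 := (div_le_one hq0).mpr ht.2
  have hm : (0 : ℝ) ≤ p.1 := Nat.cast_nonneg _
  have h3 : Np p ^ 2 ≤ 4 * (((p.1 : ℝ) + 1) ^ 2 + ((p.2 : ℝ) + t / q) ^ 2) := by
    refine (Np_sq_le p).trans ?_
    nlinarith [sq_nonneg ((p.2 : ℝ) + 2 * (t / q)), mul_nonneg ht0 (sub_nonneg.mpr ht1),
      sq_nonneg ((p.2 : ℝ) + t / q)]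
  have hX : 0 < Xu u := Xu_pos hu
  have hw0 : 0 ≤ w := norm_nonneg _
  have h4 : Np p ^ 2 ≤ (2 * (w * Xu u)) ^ 2 := by
    calc Np p ^ 2 ≤ 4 * (((p.1 : ℝ) + 1) ^ 2 + ((p.2 : ℝ) + t / q) ^ 2) := h3
      _ ≤ 4 * (w ^ 2 * Xu u ^ 2) := by linarith
      _ = _ := by ring
  have h5 : Np p ≤ 2 * (w * Xu u) := by
    exact (sq_le_sq₀ (by linarith [one_le_Np p]) (by positivity)).mp h4
  rw [div_le_iff₀ (by positivity)]
  nlinarith [mul_nonneg hw0 hX.le, mul_le_mul_of_nonneg_right hq1 (mul_nonneg hw0 hX.le)]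

end

/-! ### uniform bounds -/

/-- the argument of the general term -/
noncomputable def zp (q : ℕ) (p : ℕ × ℤ) (u : ℂ) : ℂ := q * (((p.1 : ℂ) + 1) * u + p.2)

lemma zp_im {q : ℕ} [NeZero q] (p : ℕ × ℤ) {u : ℂ} (hu : 0 < u.im) : 0 < (zp q p u).im := by
  have hq0 : (0 : ℝ) < q := by exact_mod_cast Nat.pos_of_ne_zero (NeZero.ne q)
  have h1 : (zp q p u).im = q * (((p.1 : ℝ) + 1) * u.im) := by
    unfold zp
    simp [Complex.mul_im]
  rw [h1]
  positivity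

lemma main_bound {q : ℕ} [NeZero q] {χ : DirichletCharacter ℂ q} (hχ : χ ≠ 1) (r : ℕ)
    {s u : ℂ} (hs : -(r : ℝ) - 1 / 2 < s.re) (hu : 0 < u.im) (p : ℕ × ℤ) :
    ‖dE q χ r s (zp q p u)‖ ≤ 2 * (q : ℝ) ^ 3 * Bs r s *
      ((2 * Xu u) ^ (2 * (r : ℝ) + 3 + 2 * s.re) * Np p ^ (-(2 * (r : ℝ) + 3 + 2 * s.re))) := by
  have hX : 0 < Xu u := Xu_pos hu
  have hN : 0 < Np p := by linarith [one_le_Np p]
  refine (norm_dE_le hχ r s (zp_im p hu) (ρ := Np p / (2 * Xu u)) (by positivity)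
    (fun t ht => lower_period hu p t ht) (by linarith)).trans (le_of_eq ?_)
  rw [Real.div_rpow hN.le (by positivity), Real.rpow_neg (x := 2 * Xu u) (by positivity),
    div_inv_eq_mul, mul_comm (Np p ^ _)]

/-- the constant of the uniform bound -/
noncomputable def Ku (q r : ℕ) (R : ℝ) (X : ℝ) : ℝ :=
  2 * (q : ℝ) ^ 3 * ((2 * (r : ℝ) + 1 + 2 * R) ^ 2 + (2 * (r : ℝ) + 1 + 2 * R)) *
    (2 * X) ^ (2 * (r : ℝ) + 3 + 2 * R)

lemma Ku_nonneg (q r : ℕ) {R X : ℝ} (hR : 0 ≤ R) (hX : 0 ≤ X) : 0 ≤ Ku q r R X := by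
  unfold Ku
  positivity

lemma Ku_mono (q r : ℕ) {R X X' : ℝ} (hR : 0 ≤ R) (hX : 0 ≤ X) (h : X ≤ X') :
    Ku q r R X ≤ Ku q r R X' := by
  unfold Ku
  refine mul_le_mul_of_nonneg_left ?_ (by positivity)
  exact Real.rpow_le_rpow (by positivity) (by linarith) (by positivity)

lemma unif_bound {q : ℕ} [NeZero q] {χ : DirichletCharacter ℂ q} (hχ : χ ≠ 1) (r : ℕ)
    {σ₀ R : ℝ} (hσ : -(r : ℝ) - 1 / 2 < σ₀) {s u : ℂ} (hs : σ₀ ≤ s.re) (hsR : ‖s‖ ≤ R)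
    (hu : 0 < u.im) (p : ℕ × ℤ) :
    ‖dE q χ r s (zp q p u)‖ ≤ Ku q r R (Xu u) * Np p ^ (-(2 * (r : ℝ) + 3 + 2 * σ₀)) := by
  have hR : 0 ≤ R := (norm_nonneg s).trans hsR
  have hre : s.re ≤ R := (Complex.re_le_norm s).trans hsR
  have hX : 1 ≤ Xu u := one_le_Xu hu
  have hN := one_le_Np p
  refine (main_bound hχ r (by linarith) hu p).trans ?_
  unfold Ku
  rw [mul_assoc (2 * (q : ℝ) ^ 3 * _)]
  have h1 : ‖2 * (r : ℂ) + 1 + s‖ ≤ 2 * (r : ℝ) + 1 + R := by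
    refine (norm_add_le _ _).trans (add_le_add (le_of_eq ?_) hsR)
    have h2 : (2 * (r : ℂ) + 1) = ((2 * r + 1 : ℕ) : ℂ) := by push_cast; ring
    rw [h2, Complex.norm_natCast]
    push_cast
    ring
  have h3 : ‖2 * (r : ℂ) + 1 + s‖ + ‖s‖ ≤ 2 * (r : ℝ) + 1 + 2 * R := by linarith
  have h4 : Bs r s ≤ (2 * (r : ℝ) + 1 + 2 * R) ^ 2 + (2 * (r : ℝ) + 1 + 2 * R) := by
    unfold Bs
    exact add_le_add (pow_le_pow_left₀ (by positivity) h3 2) h3
  have h5 : (2 * Xu u) ^ (2 * (r : ℝ) + 3 + 2 * s.re) ≤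
      (2 * Xu u) ^ (2 * (r : ℝ) + 3 + 2 * R) :=
    Real.rpow_le_rpow_of_exponent_le (by linarith) (by linarith)
  have h6 : Np p ^ (-(2 * (r : ℝ) + 3 + 2 * s.re)) ≤ Np p ^ (-(2 * (r : ℝ) + 3 + 2 * σ₀)) :=
    Real.rpow_le_rpow_of_exponent_le hN (by linarith)
  have h7 : (0 : ℝ) ≤ Np p ^ (-(2 * (r : ℝ) + 3 + 2 * s.re)) :=
    Real.rpow_nonneg (by linarith) _
  have h8 : (0 : ℝ) ≤ (2 * Xu u) ^ (2 * (r : ℝ) + 3 + 2 * R) :=
    Real.rpow_nonneg (by linarith) _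
  exact mul_le_mul (mul_le_mul_of_nonneg_left h4 (by positivity))
    (mul_le_mul h5 h6 h7 h8)
    (mul_nonneg (Real.rpow_nonneg (by linarith) _) h7)
    (mul_nonneg (by positivity) (by positivity))

lemma diff_gE (r : ℕ) {z : ℂ} (hz : z ≠ 0) : Differentiable ℂ fun s => gE r s z := by
  have hN : ((Complex.normSq z : ℝ) : ℂ) ≠ 0 := by
    exact_mod_cast (Complex.normSq_pos.mpr hz).ne'
  unfold gE
  intro s
  exact (differentiableAt_id.neg.const_cpow (Or.inl hN)).const_mul _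

lemma diff_dE {q : ℕ} {χ : DirichletCharacter ℂ q} (r : ℕ) {z : ℂ} (hz : 0 < z.im) :
    Differentiable ℂ fun s => dE q χ r s z := by
  have h0 : ∀ a : ℕ, z + (a : ℂ) ≠ 0 := fun a => by
    have := add_ne hz.ne' (a : ℝ)
    push_cast at this
    exact this
  have hz0 : z ≠ 0 := by simpa using h0 0
  unfold dE
  exact (Differentiable.fun_sum fun a _ => (diff_gE r (h0 a)).const_mul _).sub
    (((diff_gE r (h0 q)).sub (diff_gE r hz0)).const_mul _)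

lemma cont_gE (r : ℕ) (s : ℂ) {z : ℂ} (hz : z ≠ 0) : ContinuousAt (gE r s) z := by
  have hN : 0 < Complex.normSq z := Complex.normSq_pos.mpr hz
  unfold gE
  refine ContinuousAt.mul ?_ ?_
  · exact ((continuous_pow _).continuousAt).inv₀ (pow_ne_zero _ hz)
  · refine ContinuousAt.cpow ?_ continuousAt_const ?_
    · exact (Complex.continuous_ofReal.comp Complex.continuous_normSq).continuousAt
    · exact Complex.ofReal_mem_slitPlane.mpr hN

lemma cont_dE {q : ℕ} {χ : DirichletCharacter ℂ q} (r : ℕ) (s : ℂ) {z : ℂ} (hz : 0 < z.im) :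
    ContinuousAt (dE q χ r s) z := by
  have h0 : ∀ a : ℕ, z + (a : ℂ) ≠ 0 := fun a => by
    have := add_ne hz.ne' (a : ℝ)
    push_cast at this
    exact this
  have hz0 : z ≠ 0 := by simpa using h0 0
  have h1 : ∀ a : ℕ, ContinuousAt (fun z => gE r s (z + a)) z := fun a =>
    ContinuousAt.comp (f := fun z : ℂ => z + a) (cont_gE r s (h0 a))
      (continuous_id.add continuous_const).continuousAt
  unfold dE
  refine ContinuousAt.sub ?_ ?_
  · exact tendsto_finsetSum _ fun a _ => (continuousAt_const.mul (h1 a))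
  · exact continuousAt_const.mul ((h1 q).sub (cont_gE r s hz0))

lemma cont_zp (q : ℕ) (p : ℕ × ℤ) : Continuous (zp q p) := by
  unfold zp
  fun_prop

/-- powers of the imaginary part -/
lemma norm_im_cpow {s u : ℂ} {R : ℝ} (hs : ‖s‖ ≤ R) (hu : 0 < u.im) :
    ‖((u.im : ℝ) : ℂ) ^ s‖ ≤ Xu u ^ R := by
  have hX := Xu_pos hu
  have hX1 := one_le_Xu hu
  rw [Complex.norm_cpow_eq_rpow_re_of_pos hu, Real.rpow_def_of_pos hu, Real.rpow_def_of_pos hX]
  refine Real.exp_le_exp.mpr ?_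
  have h1 : Real.log u.im ≤ Real.log (Xu u) := Real.log_le_log hu (im_le_Xu hu)
  have h2 : -Real.log u.im ≤ Real.log (Xu u) := by
    rw [← Real.log_inv]
    exact Real.log_le_log (inv_pos.mpr hu) (inv_im_le_Xu hu)
  have h3 : |Real.log u.im| ≤ Real.log (Xu u) := abs_le.mpr ⟨by linarith, h1⟩
  have h4 : |s.re| ≤ R := (Complex.abs_re_le_norm s).trans hs
  calc Real.log u.im * s.re ≤ |Real.log u.im * s.re| := le_abs_self _
    _ = |Real.log u.im| * |s.re| := abs_mul _ _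
    _ ≤ Real.log (Xu u) * R := mul_le_mul h3 h4 (abs_nonneg _) (Real.log_nonneg hX1)

end EisAaux

open EisAaux in
theorem stEisA : StEisA := by
  intro q _ χ r hq h2 hχq
  have hχ : χ ≠ 1 := chi_ne_one hq h2 hχq
  have hL : Differentiable ℂ (DirichletCharacter.LFunction χ) :=
    DirichletCharacter.differentiable_LFunction hχ
  refine ⟨?_, ?_, ?_, ?_⟩
  · -- holomorphy
    intro u hu s hs
    rw [mem_ofPred_eq] at hs
    refine DifferentiableAt.differentiableWithinAt ?_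
    obtain ⟨σ₀, h1, h3⟩ := exists_between hs
    have hO : IsOpen {s' : ℂ | σ₀ < s'.re ∧ ‖s'‖ < ‖s‖ + 1} :=
      (isOpen_lt continuous_const Complex.continuous_re).inter
        (isOpen_lt continuous_norm continuous_const)
    have hmem : s ∈ {s' : ℂ | σ₀ < s'.re ∧ ‖s'‖ < ‖s‖ + 1} := ⟨h3, by linarith⟩
    have hsum : Summable fun p : ℕ × ℤ => Ku q r (‖s‖ + 1) (Xu u) *
        Np p ^ (-(2 * (r : ℝ) + 3 + 2 * σ₀)) := (summable_Np (by linarith)).mul_left _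
    have h4 : DifferentiableOn ℂ (fun s' => ∑' p : ℕ × ℤ, dE q χ r s' (zp q p u))
        {s' : ℂ | σ₀ < s'.re ∧ ‖s'‖ < ‖s‖ + 1} := by
      refine Complex.differentiableOn_tsum_of_summable_norm hsum ?_ hO ?_
      · intro p
        exact (diff_dE r (zp_im p hu)).differentiableOn
      · intro p s' hs'
        exact unif_bound hχ r h1 hs'.1.le hs'.2.le hu p
    have h5 : DifferentiableAt ℂ (fun s' => ∑' p : ℕ × ℤ, dE q χ r s' (zp q p u)) s :=
      (h4 s hmem).differentiableAt (hO.mem_nhds hmem)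
    have h6 : DifferentiableAt ℂ
        (fun s' : ℂ => DirichletCharacter.LFunction χ (2 * r + 1 + 2 * s')) s :=
      DifferentiableAt.comp s (hL _) (by fun_prop)
    have h7 : DifferentiableAt ℂ (fun s' : ℂ => ((u.im : ℝ) : ℂ) ^ s') s :=
      differentiableAt_id.const_cpow (Or.inl (by exact_mod_cast hu.ne'))
    exact h7.mul (h6.add h5)
  · -- summability
    intro s u hs hu
    have hsum : Summable fun p : ℕ × ℤ => Ku q r ‖s‖ (Xu u) *
        Np p ^ (-(2 * (r : ℝ) + 3 + 2 * s.re)) := (summable_Np (by linarith)).mul_left _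
    exact Summable.of_nonneg_of_le (fun p => norm_nonneg _)
      (fun p => unif_bound hχ r hs le_rfl le_rfl hu p) hsum
  · -- continuity
    intro s hs u₀ hu₀
    rw [mem_ofPred_eq] at hu₀
    refine ContinuousAt.continuousWithinAt ?_
    have hO : IsOpen {u : ℂ | u₀.im / 2 < u.im ∧ ‖u‖ < ‖u₀‖ + 1} :=
      (isOpen_lt continuous_const Complex.continuous_im).inter
        (isOpen_lt continuous_norm continuous_const)
    have hmem : u₀ ∈ {u : ℂ | u₀.im / 2 < u.im ∧ ‖u‖ < ‖u₀‖ + 1} :=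
      ⟨by linarith, by linarith⟩
    have hX : ∀ u ∈ {u : ℂ | u₀.im / 2 < u.im ∧ ‖u‖ < ‖u₀‖ + 1},
        Xu u ≤ (1 + (‖u₀‖ + 1) ^ 2) / (u₀.im / 2) := by
      intro u hu
      unfold Xu
      have h1 : ‖u‖ ^ 2 ≤ (‖u₀‖ + 1) ^ 2 := pow_le_pow_left₀ (norm_nonneg _) hu.2.le 2
      exact div_le_div₀ (by positivity) (by linarith) (by positivity) hu.1.le
    have hpos : ∀ u ∈ {u : ℂ | u₀.im / 2 < u.im ∧ ‖u‖ < ‖u₀‖ + 1}, 0 < u.im := by
      intro u hu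
      have : 0 < u₀.im / 2 := by positivity
      exact this.trans hu.1
    have hsum : Summable fun p : ℕ × ℤ => Ku q r ‖s‖ ((1 + (‖u₀‖ + 1) ^ 2) / (u₀.im / 2)) *
        Np p ^ (-(2 * (r : ℝ) + 3 + 2 * s.re)) := (summable_Np (by linarith)).mul_left _
    have h4 : ContinuousOn (fun u => ∑' p : ℕ × ℤ, dE q χ r s (zp q p u))
        {u : ℂ | u₀.im / 2 < u.im ∧ ‖u‖ < ‖u₀‖ + 1} := by
      refine continuousOn_tsum ?_ hsum ?_
      · intro p u hu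
        exact (ContinuousAt.comp (f := zp q p) (cont_dE r s (zp_im p (hpos u hu)))
          (cont_zp q p).continuousAt).continuousWithinAt
      · intro p u hu
        refine (unif_bound hχ r hs le_rfl le_rfl (hpos u hu) p).trans ?_
        refine mul_le_mul_of_nonneg_right ?_ (Real.rpow_nonneg (by linarith [one_le_Np p]) _)
        exact Ku_mono q r (norm_nonneg s) (Xu_pos (hpos u hu)).le (hX u hu)
    have h5 : ContinuousAt (fun u => ∑' p : ℕ × ℤ, dE q χ r s (zp q p u)) u₀ :=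
      h4.continuousAt (hO.mem_nhds hmem)
    have h7 : ContinuousAt (fun u : ℂ => ((u.im : ℝ) : ℂ) ^ s) u₀ := by
      refine ContinuousAt.cpow ?_ continuousAt_const ?_
      · exact (Complex.continuous_ofReal.comp Complex.continuous_im).continuousAt
      · exact Complex.ofReal_mem_slitPlane.mpr hu₀
    exact h7.mul (continuousAt_const.add h5)
  · -- size
    intro σ₀ R hσ
    rcases lt_or_ge R 0 with hR | hR
    · exact ⟨0, 0, le_rfl, fun s u _ hs _ => absurd ((norm_nonneg s).trans hs) (by linarith)⟩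
    have hcont : Continuous fun s : ℂ => DirichletCharacter.LFunction χ (2 * r + 1 + 2 * s) :=
      hL.continuous.comp (by fun_prop)
    obtain ⟨Lm, hLm⟩ := (isCompact_closedBall (0 : ℂ) R).exists_bound_of_continuousOn
      hcont.continuousOn
    have hLm0 : 0 ≤ Lm := (norm_nonneg _).trans (hLm 0 (Metric.mem_closedBall_self hR))
    have hsumN : Summable fun p : ℕ × ℤ => Np p ^ (-(2 * (r : ℝ) + 3 + 2 * σ₀)) :=
      summable_Np (by linarith)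
    set T : ℝ := ∑' p : ℕ × ℤ, Np p ^ (-(2 * (r : ℝ) + 3 + 2 * σ₀)) with hT
    have hT0 : 0 ≤ T := tsum_nonneg fun p => Real.rpow_nonneg (by linarith [one_le_Np p]) _
    have hκ : 0 ≤ 2 * (r : ℝ) + 3 + 2 * R := by positivity
    refine ⟨Lm + Ku q r R 1 * T, R + (2 * (r : ℝ) + 3 + 2 * R), by positivity, ?_⟩
    intro s u hs hsR hu
    have hX1 : 1 ≤ Xu u := one_le_Xu hu
    have hX0 : 0 < Xu u := Xu_pos hu
    have hK : Ku q r R (Xu u) = Ku q r R 1 * Xu u ^ (2 * (r : ℝ) + 3 + 2 * R) := by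
      unfold Ku
      rw [Real.mul_rpow (by norm_num) hX0.le, mul_one]
      ring
    have h1 : ‖∑' p : ℕ × ℤ, dE q χ r s (zp q p u)‖ ≤ Ku q r R (Xu u) * T :=
      tsum_of_norm_bounded (hsumN.hasSum.mul_left _)
        (fun p => unif_bound hχ r hσ hs hsR hu p)
    have h3 : ‖DirichletCharacter.LFunction χ (2 * r + 1 + 2 * s)‖ ≤ Lm :=
      hLm s (by simpa using hsR)
    have h4 : eis q χ r s u = ((u.im : ℝ) : ℂ) ^ s *
        (DirichletCharacter.LFunction χ (2 * r + 1 + 2 * s) +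
          ∑' p : ℕ × ℤ, dE q χ r s (zp q p u)) := rfl
    have hXu : (1 + ‖u‖ ^ 2) / u.im = Xu u := rfl
    have hXκ : 1 ≤ Xu u ^ (2 * (r : ℝ) + 3 + 2 * R) := Real.one_le_rpow hX1 hκ
    have hK1 : 0 ≤ Ku q r R 1 := Ku_nonneg q r hR zero_le_one
    rw [h4, hXu, norm_mul, Real.rpow_add hX0]
    calc ‖((u.im : ℝ) : ℂ) ^ s‖ * ‖DirichletCharacter.LFunction χ (2 * r + 1 + 2 * s) +
          ∑' p : ℕ × ℤ, dE q χ r s (zp q p u)‖
        ≤ Xu u ^ R * (Lm + Ku q r R (Xu u) * T) :=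
          mul_le_mul (norm_im_cpow hsR hu) ((norm_add_le _ _).trans (add_le_add h3 h1))
            (norm_nonneg _) (Real.rpow_nonneg hX0.le _)
      _ ≤ Xu u ^ R * ((Lm + Ku q r R 1 * T) * Xu u ^ (2 * (r : ℝ) + 3 + 2 * R)) := by
          refine mul_le_mul_of_nonneg_left ?_ (Real.rpow_nonneg hX0.le _)
          rw [hK]
          nlinarith [mul_le_mul_of_nonneg_left hXκ hLm0]
      _ = _ := by ring

end RZ

end Pool.Agent.Lib.MP_7c08ba_nt
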