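import Pool.Agent.Lib.MP_7c08ba_nt.RZ.EisBigD
import Pool.Agent.Lib.MP_7c08ba_nt.RZ.StH

set_option autoImplicit false

/-!
Module H14 of RANK ZERO: the Eisenstein series as a sum over coprime pairs, odd primitive real
characters (adapted from `EisBigD`).
-/

namespace Pool.Agent.Lib.MP_7c08ba_nt

namespace RZ

open UpperHalfPlane

open EisBigAux in
/-- (H14) the Eisenstein series as a sum over coprime pairs. -/
theorem stEisBigQ : StEisBigQ := by
  intro q _ χ r hχ s u hs hu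
  have hodd : χ (-1) = -1 := hχ.odd
  have hre : 1 < (2 * (r : ℂ) + 1 + 2 * s).re := by
    have h1 : (2 * (r : ℂ) + 1 + 2 * s).re = 2 * (r : ℝ) + 1 + 2 * s.re := by
      simp
    rw [h1]
    linarith
  have hL : Summable fun n =>
      ‖LSeries.term (fun k => χ (k : ZMod q)) (2 * r + 1 + 2 * s) n‖ :=
    (DirichletCharacter.LSeriesSummable_of_one_lt_re χ hre).norm
  refine ⟨(summable_pairs r s u hs hu).comp_injective Subtype.val_injective, ?_⟩
  have h1 : eis q χ r s u = (u.im : ℂ) ^ s * (1 / 2 *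
      (DirichletCharacter.LFunction χ (2 * r + 1 + 2 * s) * ∑' v : Cop, HC χ r s u v.1)) := by
    unfold eis
    rw [tsum_dE χ r s u hs hu, DirichletCharacter.LFunction_eq_LSeries χ hre,
      ← EisBigDAux.tsum_HC χ r s u hs hu hL, ← tsum_HK_HC, tsum_HK χ r s u hodd hs hu hL]
    ring
  have h2 : ∑' v : Cop, (if (q : ℤ) ∣ v.1.1 then χ (v.1.2 : ℤ) else 0) *
      (((v.1.1 : ℂ) * u + v.1.2) ^ (2 * r + 1))⁻¹ *
      ((Complex.normSq ((v.1.1 : ℂ) * u + v.1.2) : ℝ) : ℂ) ^ (-s) * (u.im : ℂ) ^ s =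
      (∑' v : Cop, HC χ r s u v.1) * (u.im : ℂ) ^ s := by
    rw [← tsum_mul_right]
    refine tsum_congr fun v => ?_
    unfold HC gE
    ring
  rw [h1, h2]
  ring

end RZ

end Pool.Agent.Lib.MP_7c08ba_nt
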