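import Mathlib
import Pool.Agent.Lib.MP_7c08ba_nt.RZ.StRm
import Pool.Agent.Lib.MP_7c08ba_nt.RZ.EqR

set_option autoImplicit false

/-! (Q8) the Rankin–Selberg integral of the Poincaré series of index `m` near `-r`: identity
theorem. -/

namespace Pool.Agent.Lib.MP_7c08ba_nt

namespace RZ

open NumberField MeasureTheory UpperHalfPlane Set
open scoped MatrixGroups ComplexConjugate nonZeroDivisors

open EqRAux in
theorem stEqRm (h1 : StRs1m) (h2 : StJRm) (h3 : StT2) (h4 : StSuAm) (h5 : StDTm)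
    (h6 : StRSanN) : StEqRm := by
  intro D iD F iF iNF s σ χ cj w k r m ψ c P hd hp hψ hc hw hr hm hP t ht1 ht2
  have hr' : (2 : ℝ) ≤ r := by exact_mod_cast hr
  have hf : DifferentiableOn ℂ (fun t => rsD D (HN D χ k r ψ c t) P)
      {t | -(r : ℝ) - 1 / 4 < t.re ∧ t.re < -1} :=
    (h6 D iD F iF iNF s σ χ cj w k r P ψ c hd (hecke_even hψ) hw hc).mono fun t ht => by
      have := ht.1
      show -(r : ℝ) - 1 / 2 < t.re
      linarith
  have hg : DifferentiableOn ℂ (fun t => rT k ψ c m *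
      ((m : ℂ) ^ (-((k : ℂ) + 2 * r + 1 + t)) * T1 D χ k r t +
        (m : ℂ) ^ (t - k - 1) * T2 D χ k r t) + SUMm D χ k r m ψ c t)
      {t | -(r : ℝ) - 1 / 4 < t.re ∧ t.re < -1} := by
    refine DifferentiableOn.add ?_ (h4 D iD F iF iNF s σ χ cj k r m ψ c hd hp hψ hm).1
    refine DifferentiableOn.const_mul ?_ _
    refine (h5 D iD χ (chi_ne hd) k r m hm).1.mono fun t ht => ?_
    have e1 := ht.1
    have e2 := ht.2
    constructor <;> linarith
  refine id_strip hf hg (c := 1 / 2 - r) (d := min (1 - r) (-1)) (by linarith)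
    (lt_min (by linarith) (by linarith)) (min_le_right _ _) ?_ ht1 ht2
  intro t e1 e2
  have e3 : t.re < 1 - r := e2.trans_le (min_le_left _ _)
  have e4 : t.re < -1 := e2.trans_le (min_le_right _ _)
  show rsD D (HN D χ k r ψ c t) P = _
  rw [h1 D iD F iF iNF s σ χ cj w k r m ψ c P hd hp hψ hc hw hm hP t e1 e4,
    h2 D iD F iF iNF s σ χ cj w k r m ψ c hd hp hψ hw hm t e1 e4,
    h3 D iD F iF iNF s σ χ cj hd k r t (by linarith) e3 (by linarith)]

end RZ

end Pool.Agent.Lib.MP_7c08ba_nt
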