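import Mathlib
import Pool.Agent.Lib.MP_7c08ba_nt.RZ.StX
import Pool.Agent.Lib.MP_7c08ba_nt.RZ.EqR
import Pool.Agent.Lib.MP_7c08ba_nt.RZ.DTm

set_option autoImplicit false

/-! (X12) the Rankin–Selberg integral of the Poincaré series near `-r`: identity theorem. -/

namespace Pool.Agent.Lib.MP_7c08ba_nt

namespace RZ

open NumberField MeasureTheory UpperHalfPlane Set
open scoped MatrixGroups ComplexConjugate nonZeroDivisors

theorem stEqX (h1 : StRsX) (h2 : StJRX) (h3 : StT2X) (h4 : StSuX) (_h5 : StDT) (h6 : StCom)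
    (_h7 : StSgX) : StEqX := by
  intro D iD F iF iNF s σ χ cj w k r m ψ c θ P hd hψ hθ hc hw hr hm hP t ht1 ht2
  have hr' : (2 : ℝ) ≤ r := by exact_mod_cast hr
  obtain ⟨⟨-, -, hχ, -⟩, -, -, -, hcom⟩ := h6 D iD F iF iNF s σ χ cj hd
  obtain ⟨-, han, -⟩ := hcom w k r ψ c hψ hw hc
  have hf : DifferentiableOn ℂ (fun t => rsE D (HN D χ k r ψ c t) P)
      {t | -(r : ℝ) - 1 / 4 < t.re ∧ t.re < -1} :=
    (han P).mono fun t ht => by
      have := ht.1
      show -(r : ℝ) - 1 / 2 < t.re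
      linarith
  have hg : DifferentiableOn ℂ (fun t => bψ ψ m *
      ((m : ℂ) ^ (-((k : ℂ) + 2 * r + 1 + t)) * T1 D χ k r t +
        (m : ℂ) ^ (t - k - 1) * T2 D χ k r t) + SX D χ k r m θ t)
      {t | -(r : ℝ) - 1 / 4 < t.re ∧ t.re < -1} := by
    have hT := (stDTm D iD χ hχ k r m hm).1
    refine DifferentiableOn.add ?_ (h4 D iD F iF iNF s σ χ cj k r m ψ c θ hd hψ hθ hm).1
    refine (hT.const_mul (bψ ψ m)).mono fun t ht => ?_
    have e1 := ht.1
    have e2 := ht.2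
    constructor <;> linarith
  refine EqRAux.id_strip hf hg (c := 1 / 2 - r) (d := min (1 - r) (-1)) (by linarith)
    (lt_min (by linarith) (by linarith)) (min_le_right _ _) ?_ ht1 ht2
  intro t e1 e2
  have e3 : t.re < 1 - r := e2.trans_le (min_le_left _ _)
  have e4 : t.re < -1 := e2.trans_le (min_le_right _ _)
  show rsE D (HN D χ k r ψ c t) P = _
  rw [h1 D iD F iF iNF s σ χ cj w k r m ψ c θ P hd hψ hθ hc hw hm hP t e1 e4,
    h2 D iD F iF iNF s σ χ cj w k r m ψ c θ hd hψ hθ hc hw hm t e1 e4,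
    h3 D iD F iF iNF s σ χ cj hd k r t (by linarith) e3 (by linarith)]
  ring

end RZ

end Pool.Agent.Lib.MP_7c08ba_nt
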