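import Mathlib
import Pool.Agent.Lib.MP_7c08ba_nt.RZ.StD
import Pool.Agent.Lib.MP_7c08ba_nt.RZ.W12

set_option autoImplicit false

/-!
(D9) The Euler product over the rational primes.
-/

namespace Pool.Agent.Lib.MP_7c08ba_nt

namespace RZ

open NumberField MeasureTheory UpperHalfPlane Set IsDedekindDomain
open scoped MatrixGroups ComplexConjugate nonZeroDivisors

section

variable {w : ℕ} (f : CuspForm 𝒮ℒ (w : ℤ))

theorem EulQ_coef_mul (hf : IsEigen f) (h0 : coef f 0 = 0) {m n : ℕ} (h : m.Coprime n) :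
    coef f (m * n) = coef f m * coef f n := by
  rcases Nat.eq_zero_or_pos m with rfl | hm
  · simp [h0]
  rcases Nat.eq_zero_or_pos n with rfl | hn
  · simp [h0]
  have h1 := hf.mul m n hm hn
  rw [Nat.Coprime] at h
  rw [h1, h]
  simp

theorem EulQ_coef_rec (hf : IsEigen f) {p : ℕ} (hp : p.Prime) (n : ℕ) :
    coef f (p ^ (n + 2)) = coef f p * coef f (p ^ (n + 1)) - (p : ℂ) ^ (w - 1) * coef f (p ^ n) := by
  have h1 := hf.mul (p ^ (n + 1)) p (pow_pos hp.pos _) hp.pos
  have h2 : (p ^ (n + 1)).gcd p = p := Nat.gcd_eq_right (dvd_pow_self p (by omega))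
  rw [h2, hp.sum_divisors] at h1
  have h3 : p ^ (n + 1) * p / p ^ 2 = p ^ n := by
    have : p ^ (n + 1) * p = p ^ n * p ^ 2 := by ring
    rw [this, Nat.mul_div_cancel _ (pow_pos hp.pos _)]
  have h4 : p ^ (n + 1) * p / 1 ^ 2 = p ^ (n + 2) := by
    simp
    ring
  rw [h3, h4] at h1
  simp only [Nat.cast_one, one_pow, one_mul] at h1
  linear_combination -h1

end

section

variable {F : Type} [Field F] [NumberField F]

/-- A prime ideal dividing a product of two prime ideals. -/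
theorem EulQ_above {P P' : Ideal (𝓞 F)} (hP : P.IsPrime) (hP' : P'.IsPrime) (hP0 : P ≠ ⊥)
    (hP0' : P' ≠ ⊥) {x : 𝓞 F} (hx : P * P' = Ideal.span {x}) (v : HeightOneSpectrum (𝓞 F)) :
    x ∈ v.asIdeal ↔ v = ⟨P, hP, hP0⟩ ∨ v = ⟨P', hP', hP0'⟩ := by
  constructor
  · intro h
    have h1 : P * P' ≤ v.asIdeal := by
      rw [hx, Ideal.span_singleton_le_iff_mem]
      exact h
    rcases (v.isPrime.mul_le).1 h1 with h2 | h2
    · left
      have hm : P.IsMaximal := Ideal.IsPrime.isMaximal hP hP0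
      exact HeightOneSpectrum.ext (hm.eq_of_le v.isPrime.ne_top h2).symm
    · right
      have hm : P'.IsMaximal := Ideal.IsPrime.isMaximal hP' hP0'
      exact HeightOneSpectrum.ext (hm.eq_of_le v.isPrime.ne_top h2).symm
  · have h3 : x ∈ P * P' := by
      rw [hx]
      exact Ideal.mem_span_singleton_self x
    rintro (h | h)
    · have h4 : P * P' ≤ P := Ideal.mul_le_left
      rw [h]
      exact h4 h3
    · have h4 : P * P' ≤ P' := Ideal.mul_le_right
      rw [h]
      exact h4 h3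

end

theorem stEulQ (h1 : StDn) (h2 : StBmul) (h3 : StSplit) (h4 : StLocal) (_h5 : StPsi)
    (_h6 : StBas) (h7 : StCoef) : StEulQ := by
  intro q _ F _ _ s σ χ cj w r f ψ hD hf hψ z hz
  have hw : 1 ≤ w := by
    have := (stW12 w f hf).1
    omega
  have h0 : coef f 0 = 0 := (h7 w f).1
  obtain ⟨hsm, -⟩ := h1 q F _ _ s σ χ cj w r f ψ hD hw hψ
  have hsum := hsm z hz
  obtain ⟨hb1, hbm, hbs, hbi, hbr⟩ := h2 q F _ _ s σ χ cj (w + 2 * r) ψ hD hψ
  set s0 : ℂ := (w : ℂ) + r + z with hs0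
  set g : ℕ → ℂ := fun n => coef f n * bψ ψ n * (n : ℂ) ^ (-s0) with hg
  have hg1 : g 1 = 1 := by
    simp [hg, hf.one, hb1]
  have hg0 : g 0 = 0 := by
    simp [hg, h0]
  have hgm : ∀ {m n : ℕ}, m.Coprime n → g (m * n) = g m * g n := by
    intro m n hmn
    simp only [hg]
    rw [EulQ_coef_mul f hf h0 hmn, hbm m n hmn, Nat.cast_mul, Complex.natCast_mul_natCast_cpow]
    ring
  have hE := EulerProduct.eulerProduct_hasProd hg1 hgm hsum hg0
  have hre : 1 < (1 + 2 * z).re := by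
    simp
    linarith
  have hL := DirichletCharacter.LSeries_eulerProduct_hasProd χ hre
  rw [← DirichletCharacter.LFunction_eq_LSeries χ hre] at hL
  have hprod := hL.mul hE
  -- the values at the powers of a prime
  have hgp : ∀ (p : ℕ) (e : ℕ), g (p ^ e) = coef f (p ^ e) * bψ ψ (p ^ e) *
      ((p : ℂ) ^ (-s0)) ^ e := by
    intro p e
    simp only [hg]
    congr 1
    rw [Nat.cast_pow, ← Complex.natCast_cpow_natCast_mul, Complex.cpow_nat_mul]
  -- the norm of the character factor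
  have hchi : ∀ p : ℕ, p.Prime → (1 : ℂ) - χ p * (p : ℂ) ^ (-(1 + 2 * z)) ≠ 0 := by
    intro p hp h
    have h5 : ‖χ p * (p : ℂ) ^ (-(1 + 2 * z))‖ = 1 := by
      rw [← sub_eq_zero.1 h, norm_one]
    have h6 : ‖χ p * (p : ℂ) ^ (-(1 + 2 * z))‖ < 1 := by
      rw [norm_mul, Complex.norm_natCast_cpow_of_pos hp.pos]
      have h7 : ‖χ p‖ ≤ 1 := DirichletCharacter.norm_le_one χ _
      have h8 : (p : ℝ) ^ (-(1 + 2 * z)).re < 1 := by
        apply Real.rpow_lt_one_of_one_lt_of_neg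
        · exact_mod_cast hp.one_lt
        · rw [Complex.neg_re]
          linarith
      have h9 : 0 ≤ (p : ℝ) ^ (-(1 + 2 * z)).re := Real.rpow_nonneg (Nat.cast_nonneg _) _
      calc ‖χ p‖ * (p : ℝ) ^ (-(1 + 2 * z)).re ≤ 1 * (p : ℝ) ^ (-(1 + 2 * z)).re :=
            mul_le_mul_of_nonneg_right h7 h9
        _ < 1 := by rw [one_mul]; exact h8
    linarith
  -- the power of `p` in the character factor
  have hX2 : ∀ p : ℕ, p.Prime → (p : ℂ) ^ (w - 1) * (p : ℂ) ^ (w + 2 * r) *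
      ((p : ℂ) ^ (-s0)) ^ 2 = (p : ℂ) ^ (-(1 + 2 * z)) := by
    intro p hp
    have hp0 : (p : ℂ) ≠ 0 := by exact_mod_cast hp.ne_zero
    rw [← Complex.cpow_natCast, ← Complex.cpow_natCast, ← Complex.cpow_nat_mul,
      ← Complex.cpow_add _ _ hp0, ← Complex.cpow_add _ _ hp0]
    congr 1
    rw [hs0]
    push_cast [Nat.cast_sub hw]
    ring
  -- the local statement
  have key : ∀ p : ℕ, p.Prime → ∃ T : Finset (HeightOneSpectrum (𝓞 F)),
      (∀ v, v ∈ T ↔ (p : 𝓞 F) ∈ v.asIdeal) ∧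
      (∑' e, g (p ^ e)) * ∏ v ∈ T, eulF f ψ s0 v =
        1 - χ p * (p : ℂ) ^ (-(1 + 2 * z)) := by
    intro p hp
    classical
    have hp0 : (p : 𝓞 F) ≠ 0 := by exact_mod_cast hp.ne_zero
    have hu0 : coef f (p ^ 0) = 1 := by rw [pow_zero]; exact hf.one
    have hu1 : coef f (p ^ 1) = coef f p := by rw [pow_one]
    obtain ⟨hl1, hl2, hl3⟩ := h4 (fun n => coef f (p ^ n)) (coef f p) ((p : ℂ) ^ (w - 1)) hu0 hu1
      (fun n => EulQ_coef_rec f hf hp n)
    have hsp : Summable fun e : ℕ => ‖g (p ^ e)‖ :=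
      hsum.comp_injective (Nat.pow_right_injective hp.two_le)
    obtain ⟨hs1, hs2, hs3⟩ := h3 q F _ _ s σ χ cj hD p hp
    have hpσ : ψ (Ideal.span {(p : 𝓞 F)}) = (p : ℂ) ^ (w + 2 * r) := by
      rw [hψ _ hp0]
      congr 1
      simp
    have hχ : χ p = ((jacobiSym p q : ℤ) : ℂ) := by
      have := hD.chi p
      rwa [Int.cast_natCast] at this
    rcases jacobiSym.trichotomy (p : ℤ) q with hj | hj | hj
    · -- ramified
      obtain ⟨hpq, hPr, hPsq, hPn⟩ := hs3 hj
      have hb : Ideal.span {s} ≠ ⊥ := by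
        intro hb
        rw [hb, Ideal.absNorm_bot] at hPn
        exact hp.ne_zero hPn.symm
      refine ⟨{⟨Ideal.span {s}, hPr, hb⟩}, ?_, ?_⟩
      · intro v
        rw [EulQ_above hPr hPr hb hb (x := (p : 𝓞 F)) (by rw [← sq, hPsq]) v]
        simp
      · rw [Finset.prod_singleton, hχ, hj]
        have e1 : ∀ e : ℕ, g (p ^ e) = coef f (p ^ e) * (ψ (Ideal.span {s})) ^ e *
            ((p : ℂ) ^ (-s0)) ^ e := by
          intro e
          rw [hgp, hpq, hbr]
        have e2 := hl3 (ψ (Ideal.span {s})) ((p : ℂ) ^ (-s0)) (hsp.congr fun e => by rw [e1 e])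
        rw [tsum_congr e1]
        have e3 : eulF f ψ s0 ⟨Ideal.span {s}, hPr, hb⟩ = 1 - coef f p * ψ (Ideal.span {s}) *
            (p : ℂ) ^ (-s0) + (p : ℂ) ^ (w - 1) * ψ (Ideal.span {s}) ^ 2 *
              ((p : ℂ) ^ (-s0)) ^ 2 := by
          simp only [eulF, tv, hPn, if_pos hp]
        rw [e3, e2]
        simp
    · -- split
      obtain ⟨P, P', hP, hP', hne, hPP, hPn, hPn'⟩ := hs1 hj
      have hb : P ≠ ⊥ := by
        intro hb
        rw [hb, Ideal.absNorm_bot] at hPn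
        exact hp.ne_zero hPn.symm
      have hb' : P' ≠ ⊥ := by
        intro hb
        rw [hb, Ideal.absNorm_bot] at hPn'
        exact hp.ne_zero hPn'.symm
      have hvne : (⟨P, hP, hb⟩ : HeightOneSpectrum (𝓞 F)) ≠ ⟨P', hP', hb'⟩ := by
        intro h
        exact hne (congrArg HeightOneSpectrum.asIdeal h)
      refine ⟨{⟨P, hP, hb⟩, ⟨P', hP', hb'⟩}, ?_, ?_⟩
      · intro v
        rw [EulQ_above hP hP' hb hb' hPP v]
        simp
      · rw [Finset.prod_pair hvne, hχ, hj]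
        have e1 : ∀ e : ℕ, g (p ^ e) = coef f (p ^ e) *
            (∑ i ∈ Finset.range (e + 1), ψ P ^ i * ψ P' ^ (e - i)) * ((p : ℂ) ^ (-s0)) ^ e := by
          intro e
          rw [hgp, hbs p hp hj P P' hP hP' hne hPP]
        have e2 := hl1 (ψ P) (ψ P') ((p : ℂ) ^ (-s0)) (hsp.congr fun e => by rw [e1 e])
        rw [tsum_congr e1]
        have e3 : eulF f ψ s0 ⟨P, hP, hb⟩ = 1 - coef f p * ψ P *
            (p : ℂ) ^ (-s0) + (p : ℂ) ^ (w - 1) * ψ P ^ 2 *
              ((p : ℂ) ^ (-s0)) ^ 2 := by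
          simp only [eulF, tv, hPn, if_pos hp]
        have e4 : eulF f ψ s0 ⟨P', hP', hb'⟩ = 1 - coef f p * ψ P' *
            (p : ℂ) ^ (-s0) + (p : ℂ) ^ (w - 1) * ψ P' ^ 2 *
              ((p : ℂ) ^ (-s0)) ^ 2 := by
          simp only [eulF, tv, hPn', if_pos hp]
        rw [e3, e4, e2]
        have e5 : ψ P * ψ P' = (p : ℂ) ^ (w + 2 * r) := by
          rw [← map_mul, hPP, hpσ]
        rw [← hX2 p hp, ← e5]
        push_cast
        ring
    · -- inert
      obtain ⟨hPr, hPn⟩ := hs2 hj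
      have hb : Ideal.span {(p : 𝓞 F)} ≠ ⊥ := by
        rw [Ne, Ideal.span_singleton_eq_bot]
        exact hp0
      refine ⟨{⟨Ideal.span {(p : 𝓞 F)}, hPr, hb⟩}, ?_, ?_⟩
      · intro v
        rw [Finset.mem_singleton]
        constructor
        · rintro rfl
          exact Ideal.mem_span_singleton_self _
        · intro h
          have hm : (Ideal.span {(p : 𝓞 F)}).IsMaximal := Ideal.IsPrime.isMaximal hPr hb
          refine HeightOneSpectrum.ext (hm.eq_of_le v.isPrime.ne_top ?_).symm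
          rwa [Ideal.span_singleton_le_iff_mem]
      · rw [Finset.prod_singleton, hχ, hj]
        have hbe := hbi p hp hj
        have e1 : ∀ n : ℕ, g (p ^ (2 * n)) = coef f (p ^ (2 * n)) *
            ((p : ℂ) ^ (w + 2 * r)) ^ n * ((p : ℂ) ^ (-s0)) ^ (2 * n) := by
          intro n
          rw [hgp, (hbe n).2]
        have e1' : ∀ n : ℕ, g (p ^ (2 * n + 1)) = 0 := by
          intro n
          rw [hgp, (hbe n).1]
          simp
        have hspE : Summable fun n : ℕ => ‖g (p ^ (2 * n))‖ :=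
          hsp.comp_injective (i := fun n : ℕ => 2 * n) (fun a b h => by simpa using h)
        have e2 := hl2 ((p : ℂ) ^ (w + 2 * r)) ((p : ℂ) ^ (-s0))
          (hspE.congr fun n => by rw [e1 n])
        have e0 : ∑' e, g (p ^ e) = ∑' n : ℕ, coef f (p ^ (2 * n)) *
            ((p : ℂ) ^ (w + 2 * r)) ^ n * ((p : ℂ) ^ (-s0)) ^ (2 * n) := by
          rw [← tsum_even_add_odd (f := fun e => g (p ^ e)) hspE.of_norm
            (by simp only [e1']; exact summable_zero)]
          simp only [e1', tsum_zero, add_zero]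
          exact tsum_congr e1
        rw [e0]
        have hnp : ¬ (p ^ 2).Prime := Nat.Prime.not_prime_pow le_rfl
        have hmf : (p ^ 2).minFac = p := hp.pow_minFac (by norm_num)
        have hpc : ((p : ℂ) ^ 2) ^ (-s0) = ((p : ℂ) ^ (-s0)) ^ 2 := by
          have := Complex.natCast_cpow_natCast_mul p 2 (-s0)
          rw [← this, Complex.cpow_nat_mul]
        have e3 : eulF f ψ s0 ⟨Ideal.span {(p : 𝓞 F)}, hPr, hb⟩ =
            1 - (coef f p ^ 2 - 2 * (p : ℂ) ^ (w - 1)) * (p : ℂ) ^ (w + 2 * r) *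
              ((p : ℂ) ^ (-s0)) ^ 2 + ((p : ℂ) ^ (w - 1)) ^ 2 * ((p : ℂ) ^ (w + 2 * r)) ^ 2 *
              ((p : ℂ) ^ (-s0)) ^ 4 := by
          simp only [eulF, tv, hPn, if_neg hnp, hmf, hpσ, Nat.cast_pow, hpc]
          ring
        rw [e3, e2, ← hX2 p hp]
        push_cast
        ring
  constructor
  · intro v
    -- a prime number in the ideal
    have hN : ((Ideal.absNorm v.asIdeal : ℕ) : 𝓞 F) ∈ v.asIdeal := Ideal.absNorm_mem v.asIdeal
    have hN0 : Ideal.absNorm v.asIdeal ≠ 0 := by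
      rw [Ne, Ideal.absNorm_eq_zero_iff]
      exact v.ne_bot
    have hex : ∃ p : ℕ, p.Prime ∧ (p : 𝓞 F) ∈ v.asIdeal := by
      have : ∀ n : ℕ, n ≠ 0 → (n : 𝓞 F) ∈ v.asIdeal → ∃ p : ℕ, p.Prime ∧ (p : 𝓞 F) ∈ v.asIdeal := by
        intro n
        induction n using Nat.recOnPrimeCoprime with
        | zero => intro h; exact absurd rfl h
        | prime_pow p n hp =>
          intro _ h
          rw [Nat.cast_pow] at h
          exact ⟨p, hp, v.isPrime.mem_of_pow_mem n h⟩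
        | coprime a b ha hb _ iha ihb =>
          intro _ h
          rw [Nat.cast_mul] at h
          rcases v.isPrime.mem_or_mem h with h | h
          · exact iha (by omega) h
          · exact ihb (by omega) h
      exact this _ hN0 hN
    obtain ⟨p, hp, hpv⟩ := hex
    obtain ⟨T, hT, hk⟩ := key p hp
    intro hzero
    have : ∏ v ∈ T, eulF f ψ s0 v = 0 := Finset.prod_eq_zero ((hT v).2 hpv) hzero
    rw [this, mul_zero] at hk
    exact hchi p hp hk.symm
  · have hfun : (fun p : Nat.Primes => ∏ᶠ v : {v : HeightOneSpectrum (𝓞 F) //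
        (p : 𝓞 F) ∈ v.asIdeal}, (eulF f ψ s0 v.1)⁻¹) =
        fun p : Nat.Primes => (1 - χ p * (p : ℂ) ^ (-(1 + 2 * z)))⁻¹ * ∑' e, g (p ^ e) := by
      funext p
      obtain ⟨T, hT, hk⟩ := key p p.2
      have e1 : (∏ᶠ v : {v : HeightOneSpectrum (𝓞 F) // ((p : ℕ) : 𝓞 F) ∈ v.asIdeal},
          (eulF f ψ s0 v.1)⁻¹) = ∏ v ∈ T, (eulF f ψ s0 v)⁻¹ := by
        have e2 : {v : HeightOneSpectrum (𝓞 F) | ((p : ℕ) : 𝓞 F) ∈ v.asIdeal} =
            (T : Set (HeightOneSpectrum (𝓞 F))) := by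
          ext v
          rw [Finset.mem_coe, hT]
          rfl
        have e3 := finprod_set_coe_eq_finprod_mem (f := fun v => (eulF f ψ s0 v)⁻¹)
          {v : HeightOneSpectrum (𝓞 F) | ((p : ℕ) : 𝓞 F) ∈ v.asIdeal}
        refine Eq.trans e3 ?_
        rw [e2, finprod_mem_coe_finset]
      rw [e1, Finset.prod_inv_distrib]
      have h5 := hchi p p.2
      have h6 : ∏ v ∈ T, eulF f ψ s0 v ≠ 0 := by
        intro h
        rw [h, mul_zero] at hk
        exact h5 hk.symm
      rw [← hk]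
      rw [← hk] at h5
      have h7 : (∑' e, g ((p : ℕ) ^ e)) ≠ 0 := left_ne_zero_of_mul h5
      field_simp
    rw [hfun]
    exact hprod

end RZ

end Pool.Agent.Lib.MP_7c08ba_nt
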