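import Pool.Agent.Lib.MP_7c08ba_nt.RZ.StRm
import Pool.Agent.Lib.MP_7c08ba_nt.RZ.Gs

set_option autoImplicit false

/-! (Q3) the finite sums for the two cusps, index `m`. -/

namespace Pool.Agent.Lib.MP_7c08ba_nt

namespace RZ

open NumberField UpperHalfPlane Set
open scoped MatrixGroups ComplexConjugate nonZeroDivisors

open Gsm in
/-- (Q3) the finite sums for the two cusps -/
theorem stGsm (h1 : StSgG) : StGsm := by
  intro D hD0 F _ _ s σ χ cj hd r m t hm ht
  have hD3 : 3 < D := hd.odd.2.2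
  obtain ⟨-, hg, -⟩ := h1 D hD0 F _ _ s σ χ cj hd
  have hodd : χ (-1 : ZMod D) = -1 := Genm.chi_neg_one hd
  have hχ0 : χ (0 : ZMod D) = 0 := by
    have : Fact (1 < D) := ⟨by omega⟩
    exact MulChar.map_zero χ
  refine ⟨?_, ?_, ?_, ?_⟩
  · intro n hn
    have hN : (n : ℤ) - (m * D : ℕ) ≠ 0 := by
      intro h
      apply hn
      have := sub_eq_zero.1 h
      exact_mod_cast this
    have h2 := tsum_div ((n : ℤ) - (m * D : ℕ)) hN
      (fun d => χ ((d : ℤ) : ZMod D) * (d : ℂ) ^ (-(2 * (t + r))))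
    unfold sSm
    rw [← h2]
    refine tsum_congr fun c => ?_
    rw [gs_one D χ _ (c + 1) (by omega), one_mul]
    split_ifs
    · rw [← pow_aux (c + 1) (by omega)]
      ring
    · rw [mul_zero]
  · have hs : 1 < (2 * (t + r)).re := by
      simp only [Complex.mul_re, Complex.re_ofNat, Complex.add_re, Complex.natCast_re,
        Complex.im_ofNat, zero_mul, sub_zero]
      linarith
    rw [DirichletCharacter.LFunction_eq_LSeries χ hs, LSeries,
      (DirichletCharacter.LSeriesSummable_of_one_lt_re χ hs).tsum_eq_zero_add]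
    rw [LSeries.term_zero, zero_add]
    refine tsum_congr fun c => ?_
    rw [gs_one D χ _ (c + 1) (by omega), one_mul, sub_self, if_pos (dvd_zero _),
      LSeries.term_of_ne_zero (by omega), div_eq_mul_inv, ← Complex.cpow_neg,
      ← pow_aux (c + 1) (by omega)]
    push_cast
    ring
  · intro n hn
    have hN : (n : ℤ) - m ≠ 0 := by
      intro h
      apply hn
      have := sub_eq_zero.1 h
      exact_mod_cast this
    have h2 := tsum_div ((n : ℤ) - m) hN
      (fun d => cI D r t * (χ ((((n : ℤ) - m) / d : ℤ) : ZMod D) * (d : ℂ) ^ (-(2 * (t + r)))))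
    unfold sIm
    rw [Finset.mul_sum, ← h2]
    refine tsum_congr fun c => ?_
    rw [gs_D D (by omega) χ _ hodd hg _ (c + 1) (by omega)]
    split_ifs
    · rw [← pow_aux (c + 1) (by omega)]
      unfold cI
      have h3 : ((D * (c + 1) : ℕ) : ℂ) ^ (-(2 * (r : ℂ) + 1) - 2 * t) =
          (D : ℂ) ^ (-(2 * (r : ℂ) + 1) - 2 * t) * ((c + 1 : ℕ) : ℂ) ^
            (-(2 * (r : ℂ) + 1) - 2 * t) := by
        rw [Nat.cast_mul, Complex.natCast_mul_natCast_cpow]
      rw [h3]
      ring
    · rw [mul_zero]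
  · have h3 : ∀ c : ℕ, ((D * (c + 1) : ℕ) : ℂ) ^ (-(2 * (r : ℂ) + 1) - 2 * t) *
      Gs D (fun _ d => χ (d : ZMod D)) ((m : ℤ) - m) (c + 1) = 0 := by
      intro c
      rw [gs_D D (by omega) χ _ hodd hg _ (c + 1) (by omega), sub_self, if_pos (dvd_zero _),
        Int.zero_ediv, Int.cast_zero, hχ0]
      ring
    simp only [h3, tsum_zero]

end RZ

end Pool.Agent.Lib.MP_7c08ba_nt
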