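import Pool.Agent.Lib.MP_7c08ba_nt.RZ.StD
import Pool.Agent.Lib.MP_7c08ba_nt.RZ.EisLaw

set_option autoImplicit false

/-! (D2) continuity, transformation, holomorphy and size of the integrand of the Rankin–Selberg
integral. -/

namespace Pool.Agent.Lib.MP_7c08ba_nt

namespace RZ

open NumberField MeasureTheory UpperHalfPlane Set
open scoped MatrixGroups ComplexConjugate nonZeroDivisors

namespace HHm

theorem bot_ne {F : Type} [Field F] [NumberField F] (a : (Ideal (𝓞 F))⁰) :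
    (a : Ideal (𝓞 F)) ≠ ⊥ :=
  nonZeroDivisors.coe_ne_zero a

theorem im_inv (v : ℂ) : (-1 / v).im = v.im / Complex.normSq v := by
  rw [Complex.div_im]
  simp only [Complex.neg_im, Complex.one_im, Complex.neg_re, Complex.one_re]
  ring

/-- a polynomial times an exponential -/
theorem poly_exp (δ a : ℝ) (N : ℕ) (hδ : 0 < δ) (ha : 0 ≤ a) :
    ∃ K : ℝ, 0 ≤ K ∧ ∀ y : ℝ, 0 ≤ y → (y + a) ^ N * Real.exp (-(δ * y)) ≤
      K * Real.exp (-(δ / 2 * y)) := by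
  refine ⟨(N.factorial : ℝ) * (2 / δ) ^ N * Real.exp (δ / 2 * a), by positivity, fun y hy => ?_⟩
  have h := Real.pow_div_factorial_le_exp (x := δ / 2 * (y + a)) (by positivity) N
  have hf : (0 : ℝ) < N.factorial := by exact_mod_cast N.factorial_pos
  rw [div_le_iff₀ hf] at h
  have e1 : (y + a) ^ N = (2 / δ) ^ N * (δ / 2 * (y + a)) ^ N := by
    rw [← mul_pow]
    congr 1
    field_simp
  have e2 : Real.exp (δ / 2 * (y + a)) * Real.exp (-(δ * y)) =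
      Real.exp (δ / 2 * a) * Real.exp (-(δ / 2 * y)) := by
    rw [← Real.exp_add, ← Real.exp_add]
    congr 1
    ring
  calc (y + a) ^ N * Real.exp (-(δ * y))
      = (2 / δ) ^ N * (δ / 2 * (y + a)) ^ N * Real.exp (-(δ * y)) := by rw [← e1]
    _ ≤ (2 / δ) ^ N * (Real.exp (δ / 2 * (y + a)) * N.factorial) * Real.exp (-(δ * y)) := by
        gcongr
    _ = (N.factorial : ℝ) * (2 / δ) ^ N *
        (Real.exp (δ / 2 * (y + a)) * Real.exp (-(δ * y))) := by ring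
    _ = _ := by rw [e2]; ring

section

variable {q : ℕ} [NeZero q] {F : Type} [Field F] [NumberField F] {s : 𝓞 F} {σ : F →+* ℂ}
  {χ : DirichletCharacter ℂ q} {cj : 𝓞 F ≃+* 𝓞 F} {ψ : Ideal (𝓞 F) →*₀ ℂ} {c : Reps σ}

theorem two_lt (hd : Dat q s σ χ cj) : 2 < q := by
  have := hd.mod
  omega

theorem jac_neg (hd : Dat q s σ χ cj) : jacobiSym (-1) q = -1 := by
  have hm := hd.mod
  have hodd : Odd q := by rw [Nat.odd_iff]; omega
  rw [jacobiSym.at_neg_one hodd]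
  exact ZMod.χ₄_nat_three_mod_four (by omega)

theorem thψ_cont (h1 : StThB) (hd : Dat q s σ χ cj) (k : ℕ) :
    ContinuousOn (thψ k ψ c) {u | 0 < u.im} := by
  unfold thψ
  refine continuousOn_const.mul (continuousOn_finsetSum _ fun A _ => continuousOn_const.mul ?_)
  exact (h1 q F _ _ s σ χ cj _ k 0 hd (bot_ne _)).2.2.1

theorem HH_cont (h1 : StThB) (h4 : StEisA) (hd : Dat q s σ χ cj) (w r : ℕ) {t : ℂ}
    (ht : -(r : ℝ) - 1 / 2 < t.re) :
    ContinuousOn (HH q χ w r ψ c t) {u | 0 < u.im} := by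
  unfold HH
  have hE := (h4 q inferInstance χ r hd.prime (two_lt hd) hd.chi).2.2.1 (conj t) (by simpa using ht)
  refine ((thψ_cont h1 hd _).mul (Complex.continuous_conj.comp_continuousOn hE)).mul ?_
  exact ((Complex.continuous_ofReal.comp Complex.continuous_im).pow _).continuousOn

theorem tr_cont (h1 : StThB) (h4 : StEisA) (hd : Dat q s σ χ cj) (w r : ℕ) {t : ℂ}
    (ht : -(r : ℝ) - 1 / 2 < t.re) :
    ContinuousOn (tr q w (HH q χ w r ψ c t)) {u | 0 < u.im} := by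
  unfold tr
  have hH := HH_cont (ψ := ψ) (c := c) h1 h4 hd w r ht
  refine hH.add (continuousOn_finsetSum _ fun j _ => ?_)
  have hne : ∀ u ∈ {u : ℂ | 0 < u.im}, u + (j : ℂ) ≠ 0 := by
    intro u hu h
    have := congrArg Complex.im h
    simp at this
    exact (show (0 : ℝ) < u.im from hu).ne' this
  refine ContinuousOn.mul (ContinuousOn.inv₀ (by fun_prop) fun u hu => pow_ne_zero _ (hne u hu)) ?_
  refine hH.comp (continuousOn_const.div (by fun_prop) hne) ?_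
  intro u hu
  simp only [Set.mem_ofPred_eq] at hu ⊢
  rw [im_inv]
  refine div_pos ?_ (Complex.normSq_pos.2 (hne u hu))
  simpa using hu

theorem thψ_law (h3 : StThG) (hd : Dat q s σ χ cj) {k : ℕ} (hk : Even k) (g : SL(2, ℤ)) {z : ℂ}
    (hz : 0 < z.im) (hc : (q : ℤ) ∣ g 1 0) :
    thψ k ψ c (((g 0 0 : ℂ) * z + g 0 1) / ((g 1 0 : ℂ) * z + g 1 1)) =
      χ (g 1 1 : ℤ) * ((g 1 0 : ℂ) * z + g 1 1) ^ (k + 1) * thψ k ψ c z := by
  unfold thψ
  simp only [Finset.mul_sum]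
  refine Finset.sum_congr rfl fun A _ => ?_
  rw [h3 q F _ _ s σ χ cj _ k hd (bot_ne _) hk g z hz hc]
  ring

theorem chi_conj (hd : Dat q s σ χ cj) (n : ℤ) : conj (χ n) = χ n := by
  rw [hd.chi]
  exact map_intCast (starRingEnd ℂ) _

theorem HH_law (h3 : StThG) (h5 : StEisLaw) (hd : Dat q s σ χ cj) {w r : ℕ}
    (hw : Even w) {t : ℂ} (ht : -(r : ℝ) - 1 / 2 < t.re) (g : SL(2, ℤ)) {z : ℂ}
    (hz : 0 < z.im) (hc : (q : ℤ) ∣ g 1 0) :
    HH q χ w r ψ c t (((g 0 0 : ℂ) * z + g 0 1) / ((g 1 0 : ℂ) * z + g 1 1)) =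
      ((g 1 0 : ℂ) * z + g 1 1) ^ w * HH q χ w r ψ c t z := by
  have hE := h5 q inferInstance χ r hd.prime (two_lt hd) hd.chi (jac_neg hd) (conj t) (by simpa using ht)
    g z hz hc
  have hT := thψ_law (ψ := ψ) (c := c) h3 hd (k := w + 2 * r)
    (hw.add (even_two_mul r)) g hz hc
  have him := EisLaw.im_gz g hz
  have hne := EisLaw.den_ne g hz
  have hchi := EisLaw.chi_sq hd.chi g hc
  set D : ℂ := (g 1 0 : ℂ) * z + g 1 1 with hD
  set v : ℂ := ((g 0 0 : ℂ) * z + g 0 1) / D with hv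
  have hn : (z.im : ℂ) = (v.im : ℂ) * (D * conj D) := by
    rw [Complex.mul_conj, ← him]
    push_cast
    rfl
  unfold HH
  rw [hT, hE, map_mul, map_mul, chi_conj hd, map_pow, hn]
  have hp : D ^ (w + 2 * r + 1) = D ^ w * D ^ (2 * r + 1) := by ring
  rw [hp, mul_pow, mul_pow]
  linear_combination (D ^ w * D ^ (2 * r + 1) * thψ (w + 2 * r) ψ c z * conj D ^ (2 * r + 1) *
    conj (eis q χ r (conj t) z) * (v.im : ℂ) ^ (2 * r + 1)) * hchi

theorem HH_diff (h4 : StEisA) (hd : Dat q s σ χ cj) (w r : ℕ) {z : ℂ} (hz : 0 < z.im) :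
    DifferentiableOn ℂ (fun t => HH q χ w r ψ c t z) {t | -(r : ℝ) - 1 / 2 < t.re} := by
  have hopen : IsOpen {t : ℂ | -(r : ℝ) - 1 / 2 < t.re} :=
    isOpen_lt continuous_const Complex.continuous_re
  have hE := (h4 q inferInstance χ r hd.prime (two_lt hd) hd.chi).1 z hz
  intro t ht
  refine DifferentiableAt.differentiableWithinAt ?_
  unfold HH
  refine (DifferentiableAt.const_mul ?_ _).mul_const _
  have h0 : conj t ∈ {t : ℂ | -(r : ℝ) - 1 / 2 < t.re} := by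
    simpa using ht
  have h1 : DifferentiableAt ℂ (fun s => eis q χ r s z) (conj t) :=
    hE.differentiableAt (hopen.mem_nhds h0)
  have h2 := h1.conj_conj
  rw [Complex.conj_conj] at h2
  exact h2

theorem tr_diff (h4 : StEisA) (hd : Dat q s σ χ cj) (w r : ℕ) {z : ℂ} (hz : 0 < z.im) :
    DifferentiableOn ℂ (fun t => tr q w (HH q χ w r ψ c t) z) {t | -(r : ℝ) - 1 / 2 < t.re} := by
  unfold tr
  refine (HH_diff h4 hd w r hz).add ?_
  refine DifferentiableOn.fun_sum fun j _ => (HH_diff h4 hd w r ?_).const_mul _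
  rw [im_inv]
  have h1 : 0 < (z + (j : ℂ)).im := by simpa using hz
  refine div_pos h1 (Complex.normSq_pos.2 fun h => ?_)
  rw [h] at h1
  simp at h1

/-- size of the theta series -/
theorem thψ_size (h1 : StThB) (hd : Dat q s σ χ cj) {k : ℕ} (hk : 1 ≤ k) :
    ∃ C δ : ℝ, 0 ≤ C ∧ 0 < δ ∧ ∀ u : ℂ, 1 / 2 ≤ u.im →
      ‖thψ k ψ c u‖ ≤ C * Real.exp (-(δ * u.im)) ∧
      ‖(1 / 2 : ℂ) * ∑ A : ClassGroup (𝓞 F), (ψ (c.R A : Ideal (𝓞 F)))⁻¹ *
        thS q σ (c.R A : Ideal (𝓞 F)) k u‖ ≤ C * Real.exp (-(δ * u.im)) := by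
  classical
  have H : ∀ A : ClassGroup (𝓞 F), ∃ C δ : ℝ, 0 < δ ∧ ∀ u : ℂ, 1 / 2 ≤ u.im →
      ‖th σ (c.R A : Ideal (𝓞 F)) k u‖ ≤ C * Real.exp (-(δ * u.im)) ∧
      ‖thS q σ (c.R A : Ideal (𝓞 F)) k u‖ ≤ C * Real.exp (-(δ * u.im)) := fun A =>
    (h1 q F _ _ s σ χ cj _ k 0 hd (bot_ne _)).2.2.2.2.2.2.2.2.1 hk
  choose C δ hδ hb using H
  have hne : (Finset.univ : Finset (ClassGroup (𝓞 F))).Nonempty := ⟨1, Finset.mem_univ _⟩
  obtain ⟨A₀, -, hA₀⟩ := Finset.exists_min_image Finset.univ δ hne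
  have key : ∀ (A : ClassGroup (𝓞 F)) (u : ℂ), 1 / 2 ≤ u.im →
      ‖th σ (c.R A : Ideal (𝓞 F)) k u‖ ≤ |C A| * Real.exp (-(δ A₀ * u.im)) ∧
      ‖thS q σ (c.R A : Ideal (𝓞 F)) k u‖ ≤ |C A| * Real.exp (-(δ A₀ * u.im)) := by
    intro A u hu
    have h0 : C A * Real.exp (-(δ A * u.im)) ≤ |C A| * Real.exp (-(δ A₀ * u.im)) := by
      have hA := hA₀ A (Finset.mem_univ _)
      gcongr
      · exact le_abs_self _
    exact ⟨(hb A u hu).1.trans h0, (hb A u hu).2.trans h0⟩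
  refine ⟨‖(1 / 2 : ℂ)‖ * ∑ A : ClassGroup (𝓞 F), ‖(ψ (c.R A : Ideal (𝓞 F)))⁻¹‖ * |C A|, δ A₀,
    by positivity, hδ A₀, fun u hu => ⟨?_, ?_⟩⟩
  · unfold thψ
    rw [norm_mul, mul_assoc, Finset.sum_mul]
    gcongr
    refine norm_sum_le_of_le _ fun A _ => ?_
    rw [norm_mul, mul_assoc]
    gcongr
    exact (key A u hu).1
  · rw [norm_mul, mul_assoc, Finset.sum_mul]
    gcongr
    refine norm_sum_le_of_le _ fun A _ => ?_
    rw [norm_mul, mul_assoc]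
    gcongr
    exact (key A u hu).2

theorem thψ_inv (h2 : StThS) (hd : Dat q s σ χ cj) {k : ℕ} (hk : Even k) {u : ℂ}
    (hu : 0 < u.im) :
    thψ k ψ c (-1 / u) = (-Complex.I / Real.sqrt q) * u ^ (k + 1) *
      ((1 / 2 : ℂ) * ∑ A : ClassGroup (𝓞 F), (ψ (c.R A : Ideal (𝓞 F)))⁻¹ *
        thS q σ (c.R A : Ideal (𝓞 F)) k u) := by
  unfold thψ
  simp only [Finset.mul_sum]
  refine Finset.sum_congr rfl fun A _ => ?_
  rw [h2 q F _ _ s σ χ cj _ k u hd (bot_ne _) hk hu]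
  ring

theorem norm_kap (hd : Dat q s σ χ cj) : ‖(-Complex.I / Real.sqrt q : ℂ)‖ ≤ 1 := by
  have hq : (1 : ℝ) ≤ q := by exact_mod_cast hd.prime.one_lt.le
  have h1 : (1 : ℝ) ≤ Real.sqrt q := by
    rw [Real.one_le_sqrt]
    exact hq
  rw [norm_div, norm_neg, Complex.norm_I, Complex.norm_real, Real.norm_eq_abs,
    abs_of_nonneg (Real.sqrt_nonneg _)]
  exact div_le_one_of_le₀ h1 (Real.sqrt_nonneg _)

/-- the terms of the trace -/
theorem term_size {w r : ℕ} {t v : ℂ} {T E : ℝ} (hv : 0 < v.im) (hT : 0 ≤ T) (_hE : 0 ≤ E)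
    {κ S : ℂ} (hκ : ‖κ‖ ≤ 1) (hS : ‖S‖ ≤ T)
    (h1 : thψ (w + 2 * r) ψ c (-1 / v) = κ * v ^ (w + 2 * r + 1) * S)
    (h2 : ‖eis q χ r (conj t) (-1 / v)‖ ≤ E) :
    ‖(v ^ w)⁻¹ * HH q χ w r ψ c t (-1 / v)‖ ≤ T * E := by
  have hv0 : v ≠ 0 := by
    rintro rfl
    simp at hv
  have hn : 0 < ‖v‖ := norm_pos_iff.2 hv0
  have him : |v.im| ≤ ‖v‖ := Complex.abs_im_le_norm v
  have hp : (v ^ w)⁻¹ * (κ * v ^ (w + 2 * r + 1) * S) = κ * v ^ (2 * r + 1) * S := by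
    have : v ^ w ≠ 0 := pow_ne_zero _ hv0
    rw [show w + 2 * r + 1 = w + (2 * r + 1) by ring, pow_add]
    field_simp
  unfold HH
  rw [h1, mul_assoc, ← mul_assoc, hp, im_inv]
  rw [norm_mul, norm_mul, norm_mul, norm_mul, RCLike.norm_conj, norm_pow, norm_pow,
    Complex.norm_real, Real.norm_eq_abs, abs_div, abs_of_nonneg (Complex.normSq_nonneg v),
    Complex.normSq_eq_norm_sq]
  have e1 : ‖v‖ ^ (2 * r + 1) * (|v.im| / ‖v‖ ^ 2) ^ (2 * r + 1) ≤ 1 := by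
    rw [← mul_pow]
    apply pow_le_one₀ (by positivity)
    rw [mul_div_assoc', div_le_one (by positivity), sq]
    gcongr
  calc ‖κ‖ * ‖v‖ ^ (2 * r + 1) * ‖S‖ * (‖eis q χ r (conj t) (-1 / v)‖ *
        (|v.im| / ‖v‖ ^ 2) ^ (2 * r + 1))
      = ‖κ‖ * (‖v‖ ^ (2 * r + 1) * (|v.im| / ‖v‖ ^ 2) ^ (2 * r + 1)) * (‖S‖ *
        ‖eis q χ r (conj t) (-1 / v)‖) := by ring
    _ ≤ 1 * 1 * (T * E) := by gcongr
    _ = T * E := by ring

end

end HHm

open HHm in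
theorem stHH (h1 : StThB) (h2 : StThS) (h3 : StThG) (h4 : StEisA) (h5 : StEisLaw)
    (_h6 : StBas) : StHH := by
  intro q _ F _ _ s σ χ cj w r ψ c hd hw1 hw
  refine ⟨fun t ht => ⟨HH_cont h1 h4 hd w r ht, tr_cont h1 h4 hd w r ht,
    fun g z hz hc => HH_law h3 h5 hd hw ht g hz hc⟩, fun z hz => tr_diff h4 hd w r hz, ?_⟩
  intro σ₀ R hσ
  have hk : Even (w + 2 * r) := hw.add (even_two_mul r)
  obtain ⟨C₁, δ, hC₁, hδ, hth⟩ := thψ_size (ψ := ψ) (c := c) h1 hd (k := w + 2 * r) (by omega)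
  obtain ⟨C₂, A, hA, hE⟩ := (h4 q inferInstance χ r hd.prime (two_lt hd) hd.chi).2.2.2 σ₀ R hσ
  obtain ⟨n, hn⟩ := exists_nat_ge A
  obtain ⟨K, hK, hpe⟩ := poly_exp δ (q + 2) (2 * n + (2 * r + 1)) hδ (by positivity)
  refine ⟨(q + 1) * (C₁ * (|C₂| * 2 ^ n) * K), δ / 2, by positivity, ?_⟩
  intro t z ht hR hz hx
  have hz0 : 0 < z.im := by linarith
  set y := z.im with hy
  -- the size of the Eisenstein series
  have hB1 : ∀ v : ℂ, v.im = y → ‖v‖ ≤ y + (q + 1) →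
      ((1 + ‖v‖ ^ 2) / y) ^ A ≤ 2 ^ n * (y + (q + 2)) ^ (2 * n) := by
    intro v hv1 hv2
    have hle : (1 + ‖v‖ ^ 2) / y ≤ 2 * (y + (q + 2)) ^ 2 := by
      rw [div_le_iff₀ hz0]
      have h3 : 1 + ‖v‖ ^ 2 ≤ (y + (q + 2)) ^ 2 := by
        have : ‖v‖ ^ 2 ≤ (y + (q + 1)) ^ 2 := by gcongr
        have hq0 : (0 : ℝ) ≤ q := by positivity
        nlinarith
      nlinarith [sq_nonneg (y + ((q : ℝ) + 2))]
    have h1B : (1 : ℝ) ≤ 2 * (y + (q + 2)) ^ 2 := by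
      have : (1 : ℝ) ≤ y + (q + 2) := by
        have hq0 : (0 : ℝ) ≤ q := by positivity
        linarith
      nlinarith
    calc ((1 + ‖v‖ ^ 2) / y) ^ A ≤ (2 * (y + (q + 2)) ^ 2) ^ A :=
          Real.rpow_le_rpow (by positivity) hle hA
      _ ≤ (2 * (y + (q + 2)) ^ 2) ^ (n : ℝ) := Real.rpow_le_rpow_of_exponent_le h1B hn
      _ = (2 * (y + (q + 2)) ^ 2) ^ n := Real.rpow_natCast _ _
      _ = _ := by rw [mul_pow, ← pow_mul]
  have hnz : ‖z‖ ≤ y + 1 := by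
    have h3 := Complex.norm_le_abs_re_add_abs_im z
    rw [abs_of_pos hz0] at h3
    linarith
  have hE' : ∀ v : ℂ, v.im = y → ‖v‖ ≤ y + (q + 1) →
      ‖eis q χ r (conj t) v‖ ≤ |C₂| * (2 ^ n * (y + (q + 2)) ^ (2 * n)) := by
    intro v hv1 hv2
    have h3 := hE (conj t) v (by simpa using ht) (by simpa using hR) (by rw [hv1]; exact hz0)
    rw [hv1] at h3
    refine h3.trans ?_
    gcongr ?_ * ?_
    · exact le_abs_self _
    · exact hB1 v hv1 hv2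
  have hE'' : ∀ v : ℂ, v.im = y → ‖v‖ ≤ y + (q + 1) →
      ‖eis q χ r (conj t) (-1 / v)‖ ≤ |C₂| * (2 ^ n * (y + (q + 2)) ^ (2 * n)) := by
    intro v hv1 hv2
    have hv0 : v ≠ 0 := by
      rintro rfl
      simp at hv1
      linarith
    have hnv : 0 < ‖v‖ := norm_pos_iff.2 hv0
    have him : (-1 / v).im = y / ‖v‖ ^ 2 := by
      rw [im_inv, hv1, Complex.normSq_eq_norm_sq]
    have h3 := hE (conj t) (-1 / v) (by simpa using ht) (by simpa using hR)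
      (by rw [him]; positivity)
    have h4' : (1 + ‖-1 / v‖ ^ 2) / (-1 / v).im = (1 + ‖v‖ ^ 2) / y := by
      rw [him, norm_div, norm_neg, norm_one]
      field_simp
      ring
    rw [h4'] at h3
    refine h3.trans ?_
    gcongr ?_ * ?_
    · exact le_abs_self _
    · exact hB1 v hv1 hv2
  -- the first term
  have hq1 : (1 : ℝ) ≤ q := by exact_mod_cast hd.prime.one_lt.le
  have hfin : ∀ T : ℝ, T ≤ C₁ * Real.exp (-(δ * y)) * (|C₂| * (2 ^ n * (y + (q + 2)) ^ (2 * n))) *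
      (y + (q + 2)) ^ (2 * r + 1) → T ≤ C₁ * (|C₂| * 2 ^ n) * K * Real.exp (-(δ / 2 * y)) := by
    intro T hT
    refine hT.trans ?_
    have h3 := hpe y hz0.le
    calc C₁ * Real.exp (-(δ * y)) * (|C₂| * (2 ^ n * (y + (q + 2)) ^ (2 * n))) *
          (y + (q + 2)) ^ (2 * r + 1)
        = C₁ * (|C₂| * 2 ^ n) * ((y + (q + 2)) ^ (2 * n + (2 * r + 1)) *
          Real.exp (-(δ * y))) := by rw [pow_add]; ring
      _ ≤ C₁ * (|C₂| * 2 ^ n) * (K * Real.exp (-(δ / 2 * y))) := by gcongr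
      _ = _ := by ring
  have hone : (1 : ℝ) ≤ (y + (q + 2)) ^ (2 * r + 1) := by
    apply one_le_pow₀
    linarith
  have hT1 : ‖HH q χ w r ψ c t z‖ ≤ C₁ * (|C₂| * 2 ^ n) * K * Real.exp (-(δ / 2 * y)) := by
    apply hfin
    unfold HH
    rw [norm_mul, norm_mul, RCLike.norm_conj, norm_pow, Complex.norm_real, Real.norm_eq_abs,
      abs_of_pos hz0]
    gcongr
    · exact (hth z hz).1
    · exact hE' z rfl (by linarith)
    · linarith
  have hT2 : ∀ j ∈ Finset.range q, ‖((z + (j : ℂ)) ^ w)⁻¹ * HH q χ w r ψ c t (-1 / (z + j))‖ ≤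
      C₁ * (|C₂| * 2 ^ n) * K * Real.exp (-(δ / 2 * y)) := by
    intro j hj
    have hjq : (j : ℝ) ≤ q := by exact_mod_cast (Finset.mem_range.1 hj).le
    have him : (z + (j : ℂ)).im = y := by simp [hy]
    have hnv : ‖z + (j : ℂ)‖ ≤ y + (q + 1) := by
      refine (norm_add_le _ _).trans ?_
      rw [Complex.norm_natCast]
      linarith
    have himp : 0 < (z + (j : ℂ)).im := by rw [him]; exact hz0
    apply hfin
    have h3 := term_size (χ := χ) (w := w) (r := r) (t := t) (ψ := ψ) (c := c)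
      (T := C₁ * Real.exp (-(δ * y)))
      (E := |C₂| * (2 ^ n * (y + (q + 2)) ^ (2 * n))) himp (by positivity) (by positivity)
      (norm_kap hd) (by rw [← him]; exact (hth _ (by rw [him]; exact hz)).2)
      (thψ_inv h2 hd hk himp) (hE'' _ him hnv)
    refine h3.trans ?_
    exact le_mul_of_one_le_right (by positivity) hone
  unfold tr
  calc ‖HH q χ w r ψ c t z + ∑ j ∈ Finset.range q, ((z + (j : ℂ)) ^ w)⁻¹ *
        HH q χ w r ψ c t (-1 / (z + j))‖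
      ≤ ‖HH q χ w r ψ c t z‖ + ‖∑ j ∈ Finset.range q, ((z + (j : ℂ)) ^ w)⁻¹ *
        HH q χ w r ψ c t (-1 / (z + j))‖ := norm_add_le _ _
    _ ≤ C₁ * (|C₂| * 2 ^ n) * K * Real.exp (-(δ / 2 * y)) +
        ∑ j ∈ Finset.range q, C₁ * (|C₂| * 2 ^ n) * K * Real.exp (-(δ / 2 * y)) :=
        add_le_add hT1 (norm_sum_le_of_le _ hT2)
    _ = _ := by
        rw [Finset.sum_const, Finset.card_range, nsmul_eq_mul]
        ring

end RZ

end Pool.Agent.Lib.MP_7c08ba_nt
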