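import Pool.Agent.Lib.MP_7c08ba_nt.RZ.StR

set_option autoImplicit false

/-! (R10) the integral of a Fourier series times a power of `y`. -/

namespace Pool.Agent.Lib.MP_7c08ba_nt

namespace RZ

open MeasureTheory Set

namespace I0Aux

theorem ee_add (a b : ℂ) : ee (a + b) = ee a * ee b := by
  unfold ee
  rw [← Complex.exp_add]
  congr 1
  ring

theorem norm_ee (z : ℂ) : ‖ee z‖ = Real.exp (-(2 * Real.pi * z.im)) := by
  unfold ee
  rw [Complex.norm_exp]
  congr 1
  simp [Complex.mul_re, Complex.mul_im]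

/-- the integral of an exponential over a period -/
theorem int_ee (N : ℤ) : ∫ x in (0 : ℝ)..1, ee (N * x) = if N = 0 then 1 else 0 := by
  split_ifs with h
  · subst h
    simp [ee]
  · have hN : (N : ℂ) ≠ 0 := by exact_mod_cast h
    have hc : 2 * (Real.pi : ℂ) * Complex.I * N ≠ 0 :=
      mul_ne_zero Complex.two_pi_I_ne_zero hN
    have h1 : ∀ x : ℝ, ee (N * x) = Complex.exp (2 * (Real.pi : ℂ) * Complex.I * N * x) := by
      intro x
      unfold ee
      congr 1
      ring
    simp only [h1]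
    rw [integral_exp_mul_complex hc]
    have h2 : Complex.exp (2 * (Real.pi : ℂ) * Complex.I * N * (1 : ℝ)) = 1 := by
      rw [Complex.exp_eq_one_iff]
      exact ⟨N, by push_cast; ring⟩
    rw [h2]
    simp

/-- the terms -/
theorem term_eq (m n : ℕ) (x y : ℝ) : ee (n * (x + y * Complex.I)) *
    ee (-(m : ℂ) * (x - y * Complex.I)) =
      ee (((n : ℤ) - m : ℤ) * x) * Complex.exp (-(2 * Real.pi * (n + m) * y)) := by
  unfold ee
  rw [← Complex.exp_add, ← Complex.exp_add]
  congr 1
  push_cast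
  linear_combination (2 * Real.pi * (n * y + m * y) : ℂ) * Complex.I_sq

/-- the inner integral -/
theorem inner (m : ℕ) (ρ : ℕ → ℂ) (t : ℂ) {y : ℝ}
    (hρ : Summable fun n : ℕ => ‖ρ n‖ * Real.exp (-(2 * Real.pi * n * y))) :
    ∫ x in (0 : ℝ)..1, ((∑' n : ℕ, ρ n * ee (n * (x + y * Complex.I))) *
        ((x + y * Complex.I : ℂ).im : ℂ) ^ t) * ee (-(m : ℂ) * (x - y * Complex.I)) =
      ρ m * ((y : ℂ) ^ t * Complex.exp (-(4 * Real.pi * m * y))) := by
  have him : ∀ x : ℝ, (x + y * Complex.I : ℂ).im = y := by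
    intro x
    simp
  -- the terms
  set G : ℕ → ℝ → ℂ := fun n x => ρ n * ((y : ℂ) ^ t *
    (ee (((n : ℤ) - m : ℤ) * x) * Complex.exp (-(2 * Real.pi * (n + m) * y)))) with hG
  have hcont : ∀ n, Continuous (G n) := by
    intro n
    rw [hG]
    simp only [ee]
    fun_prop
  have h1 : ∀ x : ℝ, ((∑' n : ℕ, ρ n * ee (n * (x + y * Complex.I))) *
        ((x + y * Complex.I : ℂ).im : ℂ) ^ t) * ee (-(m : ℂ) * (x - y * Complex.I)) =
      ∑' n, G n x := by
    intro x
    rw [him, mul_assoc, ← tsum_mul_right]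
    refine tsum_congr fun n => ?_
    rw [hG]
    simp only
    rw [← term_eq]
    ring
  simp only [h1]
  rw [intervalIntegral.integral_of_le zero_le_one]
  have hnorm : ∀ n x, ‖G n x‖ = ‖ρ n‖ * Real.exp (-(2 * Real.pi * n * y)) *
      (‖(y : ℂ) ^ t‖ * Real.exp (-(2 * Real.pi * m * y))) := by
    intro n x
    rw [hG]
    simp only [norm_mul, norm_ee]
    have h2 : (((((n : ℤ) - m : ℤ) : ℂ)) * (x : ℂ)).im = 0 := by
      simp
    rw [h2, mul_zero, neg_zero, Real.exp_zero, one_mul]
    have h3 : ‖Complex.exp (-(2 * (Real.pi : ℂ) * (n + m) * y))‖ =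
        Real.exp (-(2 * Real.pi * n * y)) * Real.exp (-(2 * Real.pi * m * y)) := by
      rw [Complex.norm_exp, ← Real.exp_add]
      congr 1
      have : -(2 * (Real.pi : ℂ) * (n + m) * y) = ((-(2 * Real.pi * (n + m) * y) : ℝ) : ℂ) := by
        push_cast
        ring
      rw [this, Complex.ofReal_re]
      ring
    rw [h3]
    ring
  have hint : ∀ n, Integrable (G n) (volume.restrict (Ioc (0 : ℝ) 1)) := fun n =>
    ((hcont n).intervalIntegrable 0 1).1
  have hsum := hasSum_integral_of_summable_integral_norm hint (by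
    have h2 : ∀ n, ∫ x in Ioc (0 : ℝ) 1, ‖G n x‖ = ‖ρ n‖ * Real.exp (-(2 * Real.pi * n * y)) *
      (‖(y : ℂ) ^ t‖ * Real.exp (-(2 * Real.pi * m * y))) := by
      intro n
      simp only [hnorm]
      simp
    simp only [h2]
    exact hρ.mul_right _)
  rw [← hsum.tsum_eq]
  have hval : ∀ n, ∫ x in Ioc (0 : ℝ) 1, G n x = if n = m then
      ρ m * ((y : ℂ) ^ t * Complex.exp (-(4 * Real.pi * m * y))) else 0 := by
    intro n
    rw [← intervalIntegral.integral_of_le zero_le_one, hG]
    simp only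
    rw [intervalIntegral.integral_const_mul, intervalIntegral.integral_const_mul,
      intervalIntegral.integral_mul_const, int_ee]
    by_cases h : n = m
    · subst h
      simp only [sub_self, if_true, one_mul]
      congr 3
      ring
    · have h' : ¬ ((n : ℤ) - m = 0) := by omega
      rw [if_neg h', if_neg h]
      ring
  simp only [hval]
  exact tsum_ite_eq m _

end I0Aux

open I0Aux in
theorem stI0 : StI0 := by
  intro w m ρ t hw hm ht hρ
  set a : ℂ := (w : ℂ) - 1 + t with ha
  have hre : 0 < a.re := by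
    rw [ha]
    simp
    linarith
  set b : ℝ := 4 * Real.pi * m with hb
  have hb0 : 0 < b := by
    have : (0 : ℝ) < m := by exact_mod_cast hm
    positivity
  have hval : ∀ y ∈ Ioi (0 : ℝ), (∫ x in (0 : ℝ)..1, ((∑' n : ℕ, ρ n *
        ee (n * (x + y * Complex.I))) * ((x + y * Complex.I : ℂ).im : ℂ) ^ t) *
      ee (-(m : ℂ) * (x - y * Complex.I))) * (y : ℂ) ^ (w - 2) =
      ρ m * ((y : ℂ) ^ (a - 1) * Complex.exp (-((b : ℂ) * y))) := by
    intro y hy
    have hy0 : (y : ℂ) ≠ 0 := by
      exact_mod_cast (ne_of_gt hy)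
    rw [inner m ρ t (hρ y hy)]
    have h1 : (y : ℂ) ^ (a - 1) = (y : ℂ) ^ t * (y : ℂ) ^ (w - 2) := by
      have h2 : a - 1 = t + ((w - 2 : ℕ) : ℂ) := by
        rw [ha]
        push_cast [Nat.cast_sub hw]
        ring
      rw [h2, Complex.cpow_add _ _ hy0, Complex.cpow_natCast]
    have h3 : -(4 * (Real.pi : ℂ) * m * y) = -((b : ℂ) * y) := by
      rw [hb]
      push_cast
      ring
    rw [h1, h3]
    ring
  have hcont : ContinuousOn (fun y : ℝ => (y : ℂ) ^ (a - 1) * Complex.exp (-((b : ℂ) * y)))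
      (Ioi 0) := by
    refine ContinuousOn.mul ?_ (by fun_prop)
    intro y hy
    exact (Complex.continuousAt_ofReal_cpow_const y (a - 1) (Or.inr (ne_of_gt hy))).continuousWithinAt
  have hint : IntegrableOn (fun y : ℝ => (y : ℂ) ^ (a - 1) * Complex.exp (-((b : ℂ) * y)))
      (Ioi 0) := by
    have h1 := integrableOn_rpow_mul_exp_neg_mul_rpow (s := a.re - 1) (p := 1) (b := b)
      (by linarith) one_pos hb0
    refine h1.mono' (hcont.aestronglyMeasurable measurableSet_Ioi) ?_
    refine (ae_restrict_iff' measurableSet_Ioi).2 (Filter.Eventually.of_forall fun y hy => ?_)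
    rw [norm_mul, Complex.norm_cpow_eq_rpow_re_of_pos hy, Complex.sub_re, Complex.one_re,
      Complex.norm_exp]
    have h2 : (-((b : ℂ) * y)).re = -b * y ^ (1 : ℝ) := by
      rw [Real.rpow_one]
      simp
    rw [h2]
  constructor
  · refine IntegrableOn.congr_fun (hint.const_mul (ρ m)) ?_ measurableSet_Ioi
    intro y hy
    exact (hval y hy).symm
  · unfold JJ
    rw [setIntegral_congr_fun measurableSet_Ioi hval, integral_const_mul,
      Complex.integral_cpow_mul_exp_neg_mul_Ioi hre hb0]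
    have h1 : (1 / (b : ℂ)) ^ a = (4 * Real.pi * m : ℂ) ^ (-((w : ℂ) - 1 + t)) := by
      have h2 : (4 * Real.pi * m : ℂ) = (b : ℂ) := by
        rw [hb]
        push_cast
        ring
      have h3 : Complex.arg (b : ℂ) ≠ Real.pi := by
        rw [Complex.arg_ofReal_of_nonneg hb0.le]
        exact Real.pi_pos.ne
      rw [h2, ← ha, one_div, Complex.inv_cpow _ _ h3, Complex.cpow_neg]
    rw [h1]
    ring

end RZ

end Pool.Agent.Lib.MP_7c08ba_nt
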