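import Mathlib
import Pool.Agent.Lib.MP_7c08ba_nt.RZ.StG
import Pool.Agent.Lib.MP_7c08ba_nt.RZ.IdSum

set_option autoImplicit false

/-!
Module (G10): sums over ideals are sums over the elements of the representatives, each ideal being
obtained twice, for every odd fundamental discriminant.
-/

namespace Pool.Agent.Lib.MP_7c08ba_nt

namespace RZ

/-- (G10) sums over ideals and sums over elements of representatives -/
theorem stIdSumD (h : StBasD) : StIdSumD := by
  intro D F _ _ s σ χ cj c g T hD h0 hT hs
  obtain ⟨-, -, -, -, -, -, -, hunit, -⟩ := h D F _ _ s σ χ cj hD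
  exact IdSumAux.main hunit c.R c.cls g T h0 hT hs

end RZ

end Pool.Agent.Lib.MP_7c08ba_nt
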