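import Mathlib
import Pool.Agent.Lib.MP_7c08ba_nt.RZ.StD

set_option autoImplicit false

/-!
Module D14 of RANK ZERO: pairs of elements of ideals and integral 2x2 matrices.
-/

namespace Pool.Agent.Lib.MP_7c08ba_nt

namespace RZ

open NumberField

/-- (D14) pairs of elements and matrices. -/
theorem stImg (h1 : StBas) (h2 : StBase) : StImg := by
  intro q F _ _ s σ χ cj c d c₁ c₂ d₁ d₂ hD hc hd hc0 hd0 hcs hds
  obtain ⟨-, hcc, hcjs, hsub, -, -, hnorm, -, hsp, -, -⟩ := h1 q F _ _ s σ χ cj hD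
  obtain ⟨-, hdet, -, hli, -, -, -⟩ := h2 q F _ _ s σ χ cj hD
  intro al be
  have hcdet := hdet c c₁ c₂ hc
  have hddet := hdet d d₁ d₂ hd
  have hsq := hD.sq
  have hs0 : s ≠ 0 := by
    rintro rfl
    have hq : (q : 𝓞 F) = 0 := by
      have h : (q : 𝓞 F) = -(-(q : 𝓞 F)) := (neg_neg _).symm
      rw [h, ← hsq]
      simp
    exact hD.prime.ne_zero (by exact_mod_cast hq)
  have hNc0 : (Ideal.absNorm c : 𝓞 F) ≠ 0 := by
    have h : Ideal.absNorm c ≠ 0 := by
      rw [Ne, Ideal.absNorm_eq_zero_iff]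
      exact hc0
    exact_mod_cast h
  -- membership of the basis vectors
  have hd1 : d₁ ∈ d := (hd.mem d₁).mpr ⟨1, 0, by push_cast; ring⟩
  have hd2 : d₂ ∈ d := (hd.mem d₂).mpr ⟨0, 1, by push_cast; ring⟩
  have hc1 : c₁ ∈ c := (hc.mem c₁).mpr ⟨1, 0, by push_cast; ring⟩
  have hc2 : c₂ ∈ c := (hc.mem c₂).mpr ⟨0, 1, by push_cast; ring⟩
  have hu : ∀ m n : ℤ, (m : 𝓞 F) * d₁ + n * d₂ ∈ d := fun m n => (hd.mem _).mpr ⟨m, n, rfl⟩
  have hcj1 : cj c₁ ∈ c.map (cj : 𝓞 F →+* 𝓞 F) := Ideal.mem_map_of_mem (cj : 𝓞 F →+* 𝓞 F) hc1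
  have hcj2 : cj c₂ ∈ c.map (cj : 𝓞 F →+* 𝓞 F) := Ideal.mem_map_of_mem (cj : 𝓞 F →+* 𝓞 F) hc2
  refine ⟨?_, ?_, ?_⟩
  · intro g
    have e1 : al g * cj (al g) - be g * cj (be g) =
        -((c₁ * cj c₂ - cj c₁ * c₂) * (((g 0 0 : 𝓞 F) * (g 1 1 : 𝓞 F) - (g 0 1 : 𝓞 F) * (g 1 0 : 𝓞 F)) *
          (d₁ * cj d₂ - cj d₁ * d₂))) := by
      simp only [al, be, map_sub, map_mul, map_add, map_intCast, hcc]
      ring
    rw [e1, hcdet, hddet, Matrix.det_fin_two]
    push_cast
    linear_combination (-((g 0 0 : 𝓞 F) * (g 1 1 : 𝓞 F) - (g 0 1 : 𝓞 F) * (g 1 0 : 𝓞 F)) *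
      (Ideal.absNorm c : 𝓞 F) * (Ideal.absNorm d : 𝓞 F)) * hsq
  · intro g g' ha hb
    have hu0 : s * (Ideal.absNorm c : 𝓞 F) *
        (((g 0 0 - g' 0 0 : ℤ) : 𝓞 F) * d₁ + ((g 0 1 - g' 0 1 : ℤ) : 𝓞 F) * d₂) = 0 := by
      simp only [al, be] at ha hb
      rw [← hcdet]
      push_cast
      linear_combination c₁ * ha - cj c₁ * hb
    have hv0 : s * (Ideal.absNorm c : 𝓞 F) *
        (((g 1 0 - g' 1 0 : ℤ) : 𝓞 F) * d₁ + ((g 1 1 - g' 1 1 : ℤ) : 𝓞 F) * d₂) = 0 := by
      simp only [al, be] at ha hb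
      rw [← hcdet]
      push_cast
      linear_combination c₂ * ha - cj c₂ * hb
    have hne : s * (Ideal.absNorm c : 𝓞 F) ≠ 0 := mul_ne_zero hs0 hNc0
    obtain ⟨h00, h01⟩ := hli d d₁ d₂ hd _ _ ((mul_eq_zero.mp hu0).resolve_left hne)
    obtain ⟨h10, h11⟩ := hli d d₁ d₂ hd _ _ ((mul_eq_zero.mp hv0).resolve_left hne)
    ext i j
    fin_cases i <;> fin_cases j
    · exact sub_eq_zero.mp h00
    · exact sub_eq_zero.mp h01
    · exact sub_eq_zero.mp h10
    · exact sub_eq_zero.mp h11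
  · intro x y
    constructor
    · rintro ⟨hx, hy, hxy⟩
      -- the element `s` does not divide the norm of `c`
      have hNs : ¬ s ∣ (Ideal.absNorm c : 𝓞 F) := by
        intro h
        have h3 : c * c.map (cj : 𝓞 F →+* 𝓞 F) ≤ Ideal.span {s} := by
          rw [hnorm c, Ideal.span_singleton_le_span_singleton]
          exact h
        have key : ¬ c ≤ Ideal.span {s} := by
          intro h4
          obtain ⟨i, hi, j, hj, hij⟩ := Ideal.isCoprime_iff_exists.mp hcs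
          refine hsp.ne_top ?_
          rw [Ideal.eq_top_iff_one, ← hij]
          exact Ideal.add_mem _ (h4 hi) hj
        rcases (Ideal.IsPrime.mul_le hsp).mp h3 with h4 | h4
        · exact key h4
        · refine key fun z hz => ?_
          have h5 : cj z ∈ Ideal.span {s} := h4 (Ideal.mem_map_of_mem (cj : 𝓞 F →+* 𝓞 F) hz)
          rw [Ideal.mem_span_singleton] at h5 ⊢
          obtain ⟨t, ht⟩ := h5
          refine ⟨-cj t, ?_⟩
          have h6 := congrArg cj ht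
          rw [hcc, map_mul, hcjs] at h6
          rw [h6]
          ring
      have hdiv : ∀ e ∈ c, ∃ t ∈ d, s * (Ideal.absNorm c : 𝓞 F) * t = e * x - cj e * y := by
        intro e he
        have hm1 : e * x ∈ Ideal.span {(Ideal.absNorm c : 𝓞 F)} * d := by
          rw [← hnorm c]
          have h3 : e * x ∈ c * (d * c.map (cj : 𝓞 F →+* 𝓞 F)) := Ideal.mul_mem_mul he hx
          have h4 : c * (d * c.map (cj : 𝓞 F →+* 𝓞 F)) = c * c.map (cj : 𝓞 F →+* 𝓞 F) * d := by
            ring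
          rwa [h4] at h3
        have hm2 : cj e * y ∈ Ideal.span {(Ideal.absNorm c : 𝓞 F)} * d := by
          rw [← hnorm c]
          have h3 : cj e * y ∈ c.map (cj : 𝓞 F →+* 𝓞 F) * (d * c) :=
            Ideal.mul_mem_mul (Ideal.mem_map_of_mem (cj : 𝓞 F →+* 𝓞 F) he) hy
          have h4 : c.map (cj : 𝓞 F →+* 𝓞 F) * (d * c) = c * c.map (cj : 𝓞 F →+* 𝓞 F) * d := by
            ring
          rwa [h4] at h3
        obtain ⟨t, htd, ht⟩ := Ideal.mem_span_singleton_mul.mp (Ideal.sub_mem _ hm1 hm2)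
        have hst : s ∣ (Ideal.absNorm c : 𝓞 F) * t := by
          rw [ht]
          have h5 : e * x - cj e * y = e * (x - y) + (e - cj e) * y := by ring
          rw [h5]
          exact dvd_add (hxy.mul_left _) ((hsub e).mul_right _)
        have hst2 : s ∣ t := by
          have h6 : (Ideal.absNorm c : 𝓞 F) * t ∈ Ideal.span {s} := Ideal.mem_span_singleton.mpr hst
          rcases hsp.mem_or_mem h6 with h7 | h7
          · exact absurd (Ideal.mem_span_singleton.mp h7) hNs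
          · exact Ideal.mem_span_singleton.mp h7
        obtain ⟨t', rfl⟩ := hst2
        refine ⟨t', ?_, ?_⟩
        · obtain ⟨i, hi, j, hj, hij⟩ := Ideal.isCoprime_iff_exists.mp hds
          obtain ⟨k, rfl⟩ := Ideal.mem_span_singleton.mp hj
          have h8 : t' = t' * i + k * (s * t') := by
            linear_combination (-t') * hij
          rw [h8]
          exact Ideal.add_mem _ (Ideal.mul_mem_left _ _ hi) (Ideal.mul_mem_left _ _ htd)
        · rw [← ht]
          ring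
      obtain ⟨u, hud, hu'⟩ := hdiv c₁ hc1
      obtain ⟨v, hvd, hv'⟩ := hdiv c₂ hc2
      obtain ⟨A, B, rfl⟩ := (hd.mem u).mp hud
      obtain ⟨C, D, rfl⟩ := (hd.mem v).mp hvd
      have hne : s * (Ideal.absNorm c : 𝓞 F) ≠ 0 := mul_ne_zero hs0 hNc0
      refine ⟨!![A, B; C, D], ?_, ?_⟩
      · apply mul_left_cancel₀ hne
        simp only [al, Matrix.of_apply, Matrix.cons_val', Matrix.cons_val_zero,
          Matrix.cons_val_one, Matrix.cons_val_fin_one]
        linear_combination cj c₂ * hu' - cj c₁ * hv' + x * hcdet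
      · apply mul_left_cancel₀ hne
        simp only [be, Matrix.of_apply, Matrix.cons_val', Matrix.cons_val_zero,
          Matrix.cons_val_one, Matrix.cons_val_fin_one]
        linear_combination c₂ * hu' - c₁ * hv' + y * hcdet
    · rintro ⟨g, rfl, rfl⟩
      refine ⟨?_, ?_, ?_⟩
      · exact Ideal.sub_mem _ (Ideal.mul_mem_mul (hu _ _) hcj2) (Ideal.mul_mem_mul (hu _ _) hcj1)
      · exact Ideal.sub_mem _ (Ideal.mul_mem_mul (hu _ _) hc2) (Ideal.mul_mem_mul (hu _ _) hc1)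
      · have e1 : al g - be g = ((g 1 0 : 𝓞 F) * d₁ + g 1 1 * d₂) * (c₁ - cj c₁) -
            ((g 0 0 : 𝓞 F) * d₁ + g 0 1 * d₂) * (c₂ - cj c₂) := by
          simp only [al, be]
          ring
        rw [e1]
        exact dvd_sub ((hsub _).mul_left _) ((hsub _).mul_left _)

end RZ

end Pool.Agent.Lib.MP_7c08ba_nt
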