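import Pool.Agent.Lib.MP_7c08ba_nt.RZ.Defs

set_option autoImplicit false

/-!
Values of unramified Hecke characters: linear independence of the values on representatives of the
classes of ideals, if the class number is odd and prime to the type.
-/

namespace Pool.Agent.Lib.MP_7c08ba_nt.RZX

open NumberField Polynomial
open scoped nonZeroDivisors

noncomputable section

variable {F : Type} [Field F] [NumberField F]

/-- If `J ^ n = (y)`, `n` the order of the class of `J`, and `b ^ l = y ^ k` for a prime `l` which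
divides `n`, then `l` divides `k`. -/
theorem dvd_of_pow_eq {J : (Ideal (𝓞 F))⁰} {n : ℕ} (hn : orderOf (ClassGroup.mk0 J) = n)
    (hn0 : 0 < n) {y : 𝓞 F} (hy : (J : Ideal (𝓞 F)) ^ n = Ideal.span {y}) {l k : ℕ}
    (hl : l.Prime) (hln : l ∣ n) {b : F} (hb : b ^ l = (y : F) ^ k) : l ∣ k := by
  -- `b` is integral
  have hbi : IsIntegral ℤ b := by
    have h1 : IsIntegral ℤ (b ^ l) := by
      rw [hb]
      exact y.isIntegral_coe.pow k
    exact IsIntegral.of_pow hl.pos h1
  obtain ⟨c, hc⟩ : ∃ c : 𝓞 F, (c : F) = b := ⟨⟨b, hbi⟩, rfl⟩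
  have hcy : c ^ l = y ^ k := by
    apply RingOfIntegers.coe_injective
    rw [map_pow, map_pow]
    rw [← hc] at hb
    exact hb
  obtain ⟨t, rfl⟩ := hln
  have hJ0 : (J : Ideal (𝓞 F)) ≠ ⊥ := nonZeroDivisors.coe_ne_zero J
  have h2 : (Ideal.span {c}) ^ l = ((J : Ideal (𝓞 F)) ^ (t * k)) ^ l := by
    rw [Ideal.span_singleton_pow, hcy, ← Ideal.span_singleton_pow, ← hy, ← pow_mul, ← pow_mul]
    congr 1
    ring
  have h3 : Ideal.span {c} = (J : Ideal (𝓞 F)) ^ (t * k) := pow_left_injective hl.ne_zero h2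
  have h4 : ClassGroup.mk0 (J ^ (t * k)) = 1 := by
    rw [ClassGroup.mk0_eq_one_iff]
    rw [SubmonoidClass.coe_pow, ← h3]
    exact ⟨c, rfl⟩
  rw [map_pow] at h4
  have h5 := orderOf_dvd_of_pow_eq_one h4
  rw [hn] at h5
  have ht : 0 < t := Nat.pos_of_ne_zero (by
    rintro rfl
    simp at hn0)
  rw [mul_comm t k] at h5
  exact Nat.dvd_of_mul_dvd_mul_right ht h5

/-- The minimal polynomial of the value of the character at a non-principal ideal. -/
theorem minpoly_eq (σ : F →+* ℂ) {k : ℕ} {ψ : Ideal (𝓞 F) →*₀ ℂ} (hψ : RZ.IsHecke σ k ψ)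
    (hodd : Odd (Fintype.card (ClassGroup (𝓞 F))))
    (hcop : k.Coprime (Fintype.card (ClassGroup (𝓞 F)))) (J : (Ideal (𝓞 F))⁰)
    (hJ : ClassGroup.mk0 J ≠ 1) :
    letI := σ.toAlgebra
    ∃ (n : ℕ) (r : F), 2 ≤ n ∧ minpoly F (ψ (J : Ideal (𝓞 F))) = X ^ n - C r := by
  letI := σ.toAlgebra
  set n := orderOf (ClassGroup.mk0 J) with hn
  have hn0 : 0 < n := orderOf_pos _
  have hdvd : n ∣ Fintype.card (ClassGroup (𝓞 F)) := orderOf_dvd_card
  have hnodd : Odd n := hodd.of_dvd_nat hdvd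
  have hn1 : n ≠ 1 := by
    intro h
    exact hJ (orderOf_eq_one_iff.1 h)
  have hp : ClassGroup.mk0 (J ^ n) = 1 := by
    rw [map_pow]
    exact pow_orderOf_eq_one _
  rw [ClassGroup.mk0_eq_one_iff, SubmonoidClass.coe_pow] at hp
  obtain ⟨y, hy⟩ := hp
  have hy' : (J : Ideal (𝓞 F)) ^ n = Ideal.span {y} := hy
  have hJ0 : (J : Ideal (𝓞 F)) ≠ ⊥ := nonZeroDivisors.coe_ne_zero J
  have hy0 : y ≠ 0 := by
    rintro rfl
    rw [Ideal.span_singleton_eq_bot.2 rfl] at hy'
    exact pow_ne_zero _ hJ0 hy'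
  have hval : ψ (J : Ideal (𝓞 F)) ^ n = σ ((y : F) ^ k) := by
    rw [← map_pow, hy', hψ y hy0, map_pow]
  have hirr : Irreducible (X ^ n - C ((y : F) ^ k)) := by
    refine X_pow_sub_C_irreducible_of_odd hnodd fun l hl hln b hb => ?_
    have h1 := dvd_of_pow_eq hn.symm hn0 hy' hl hln hb
    have h2 := Nat.dvd_gcd h1 (hln.trans hdvd)
    rw [Nat.Coprime] at hcop
    rw [hcop] at h2
    exact hl.one_lt.ne' (Nat.dvd_one.1 h2)
  refine ⟨n, (y : F) ^ k, by omega, ?_⟩
  symm
  refine minpoly.eq_of_irreducible_of_monic hirr ?_ (monic_X_pow_sub_C _ hn0.ne')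
  rw [map_sub, map_pow, aeval_X, aeval_C, hval]
  exact sub_self _

/-- **Linear independence.** -/
theorem indep (σ : F →+* ℂ) {k : ℕ} {ψ : Ideal (𝓞 F) →*₀ ℂ} (hψ : RZ.IsHecke σ k ψ)
    (hodd : Odd (Fintype.card (ClassGroup (𝓞 F))))
    (hcop : k.Coprime (Fintype.card (ClassGroup (𝓞 F))))
    (a : ClassGroup (𝓞 F) → (Ideal (𝓞 F))⁰) (ha : ∀ c, ClassGroup.mk0 (a c) = c)
    (x : ClassGroup (𝓞 F) → F) (hx : ∑ c, σ (x c) * ψ (a c : Ideal (𝓞 F)) = 0) (c₀ : ClassGroup (𝓞 F)) :
    x c₀ = 0 := by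
  classical
  letI := σ.toAlgebra
  have halg : ∀ z : F, algebraMap F ℂ z = σ z := fun z => rfl
  set b : (Ideal (𝓞 F))⁰ := a c₀⁻¹ with hb
  set z : ClassGroup (𝓞 F) → ℂ := fun c => ψ ((a c * b : (Ideal (𝓞 F))⁰) : Ideal (𝓞 F)) with hz
  have hcls : ∀ c, ClassGroup.mk0 (a c * b) = c * c₀⁻¹ := by
    intro c
    rw [map_mul, ha, ha]
  -- the elements are integral
  have hint : ∀ c, IsIntegral F (z c) := by
    intro c
    by_cases h : c = c₀
    · have h1 : ClassGroup.mk0 (a c * b) = 1 := by rw [hcls, h, mul_inv_cancel]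
      rw [ClassGroup.mk0_eq_one_iff] at h1
      obtain ⟨y, hy⟩ := h1
      have hy' : ((a c * b : (Ideal (𝓞 F))⁰) : Ideal (𝓞 F)) = Ideal.span {y} := hy
      have hy0 : y ≠ 0 := by
        rintro rfl
        rw [Ideal.span_singleton_eq_bot.2 rfl] at hy'
        exact nonZeroDivisors.coe_ne_zero (a c * b) hy'
      have h2 : z c = algebraMap F ℂ ((y : F) ^ k) := by
        simp only [hz]
        rw [hy', hψ y hy0, halg, map_pow]
      rw [h2]
      exact isIntegral_algebraMap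
    · obtain ⟨n, r, hn, hm⟩ := minpoly_eq σ hψ hodd hcop (a c * b) (by
        rw [hcls]
        intro h1
        exact h (mul_inv_eq_one.1 h1))
      by_contra hni
      have h3 : minpoly F (z c) = 0 := minpoly.eq_zero hni
      have h4 : (X ^ n - C r : F[X]) ≠ 0 := X_pow_sub_C_ne_zero (by omega) r
      exact h4 (hm.symm.trans h3)
  -- the finite extension
  set K : IntermediateField F ℂ := IntermediateField.adjoin F (Set.range z) with hK
  have hfin : FiniteDimensional F K :=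
    IntermediateField.finiteDimensional_adjoin (by
      rintro _ ⟨c, rfl⟩
      exact hint c)
  have hmem : ∀ c, z c ∈ K := fun c => IntermediateField.subset_adjoin F _ ⟨c, rfl⟩
  have hrel : ∑ c, x c • (⟨z c, hmem c⟩ : K) = 0 := by
    apply Subtype.ext
    rw [IntermediateField.coe_sum]
    have h1 : ∀ c, ((x c • (⟨z c, hmem c⟩ : K) : K) : ℂ) =
        (σ (x c) * ψ (a c : Ideal (𝓞 F))) * ψ (b : Ideal (𝓞 F)) := by
      intro c
      have h0 : ((x c • (⟨z c, hmem c⟩ : K) : K) : ℂ) = σ (x c) * z c := rfl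
      rw [h0]
      simp only [hz]
      rw [Submonoid.coe_mul, map_mul]
      ring
    rw [Finset.sum_congr rfl fun c _ => h1 c, ← Finset.sum_mul, hx, zero_mul]
    rfl
  have htr := congrArg (Algebra.trace F K) hrel
  rw [map_sum, map_zero] at htr
  simp only [map_smul] at htr
  -- the traces
  have htr0 : ∀ c, c ≠ c₀ → Algebra.trace F K (⟨z c, hmem c⟩ : K) = 0 := by
    intro c hc
    obtain ⟨n, r, hn, hm⟩ := minpoly_eq σ hψ hodd hcop (a c * b) (by
      rw [hcls]
      intro h1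
      exact hc (mul_inv_eq_one.1 h1))
    rw [trace_eq_trace_adjoin]
    have h1 : IsIntegral F (⟨z c, hmem c⟩ : K) := Algebra.IsIntegral.isIntegral _
    have h2 := PowerBasis.trace_gen_eq_nextCoeff_minpoly
      (IntermediateField.adjoin.powerBasis h1)
    rw [IntermediateField.adjoin.powerBasis_gen] at h2
    rw [h2, IntermediateField.minpoly_gen]
    have h3 : minpoly F (⟨z c, hmem c⟩ : K) = X ^ n - C r := by
      rw [← hm]
      exact (minpoly.algebraMap_eq (algebraMap K ℂ).injective (⟨z c, hmem c⟩ : K)).symm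
    rw [h3]
    have h4 : (X ^ n - C r : F[X]).nextCoeff = 0 := by
      rw [nextCoeff_of_natDegree_pos (by rw [natDegree_X_pow_sub_C]; omega),
        natDegree_X_pow_sub_C, coeff_sub, coeff_X_pow, coeff_C]
      rw [if_neg (by omega), if_neg (by omega), sub_zero]
    rw [h4, neg_zero, smul_zero]
  rw [Finset.sum_eq_single c₀ (fun c _ hc => by rw [htr0 c hc, smul_zero])
    (fun h => absurd (Finset.mem_univ _) h)] at htr
  have h1 : ClassGroup.mk0 (a c₀ * b) = 1 := by rw [hcls, mul_inv_cancel]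
  rw [ClassGroup.mk0_eq_one_iff] at h1
  obtain ⟨y, hy⟩ := h1
  have hy' : ((a c₀ * b : (Ideal (𝓞 F))⁰) : Ideal (𝓞 F)) = Ideal.span {y} := hy
  have hy0 : y ≠ 0 := by
    rintro rfl
    rw [Ideal.span_singleton_eq_bot.2 rfl] at hy'
    exact nonZeroDivisors.coe_ne_zero (a c₀ * b) hy'
  have h2 : (⟨z c₀, hmem c₀⟩ : K) = algebraMap F K ((y : F) ^ k) := by
    apply Subtype.ext
    change z c₀ = σ ((y : F) ^ k)
    simp only [hz]
    rw [hy', hψ y hy0, map_pow]
  rw [h2, Algebra.trace_algebraMap] at htr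
  rcases smul_eq_zero.1 htr with h3 | h3
  · exact h3
  · exfalso
    rw [nsmul_eq_mul, mul_eq_zero] at h3
    rcases h3 with h3 | h3
    · have h4 : Module.finrank F K ≠ 0 := Module.finrank_pos.ne'
      exact h4 (by exact_mod_cast h3)
    · have h5 : (y : F) ≠ 0 := by
        intro h6
        exact hy0 (RingOfIntegers.coe_injective (h6.trans (map_zero _).symm))
      exact pow_ne_zero k h5 h3

end

end Pool.Agent.Lib.MP_7c08ba_nt.RZX
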