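import Pool.Agent.Lib.MP_7c08ba_nt.RZ.StD

set_option autoImplicit false

/-!
(D12) the integrals `JJ` as sums over pairs of elements of ideals
-/

namespace Pool.Agent.Lib.MP_7c08ba_nt

namespace RZ

open NumberField MeasureTheory UpperHalfPlane Set
open scoped MatrixGroups ComplexConjugate nonZeroDivisors

namespace JmAux

theorem ee_add (a b : ℂ) : ee (a + b) = ee a * ee b := by
  unfold ee
  rw [mul_add, Complex.exp_add]

theorem ee_int (n : ℤ) : ee n = 1 := by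
  unfold ee
  rw [mul_comm]
  exact Complex.exp_int_mul_two_pi_mul_I n

theorem ee_zero : ee 0 = 1 := by
  unfold ee
  simp

theorem conj_ee (z : ℂ) : conj (ee z) = ee (-conj z) := by
  unfold ee
  rw [← Complex.exp_conj]
  congr 1
  simp only [map_mul, Complex.conj_I, Complex.conj_ofReal, map_ofNat]
  ring

theorem norm_ee (z : ℂ) : ‖ee z‖ = Real.exp (-(2 * Real.pi * z.im)) := by
  rw [ee, Complex.norm_exp]
  congr 1
  simp

theorem norm_ee_real (x : ℝ) : ‖ee x‖ = 1 := by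
  rw [norm_ee]
  simp

theorem ee_mulI (x : ℝ) : ee (x * Complex.I) = ((Real.exp (-(2 * Real.pi * x)) : ℝ) : ℂ) := by
  unfold ee
  push_cast
  congr 1
  linear_combination (2 * Real.pi * x : ℂ) * Complex.I_mul_I

theorem continuous_ee : Continuous ee := by
  unfold ee
  fun_prop

theorem norm_lag_le (r : ℕ) (t : ℝ) (ht : 0 ≤ t) :
    ‖lag r (t : ℂ)‖ ≤ 5 ^ r * Real.exp (t / 4) := by
  unfold lag
  have h5 : (5 : ℝ) ^ r = ∑ j ∈ Finset.range (r + 1), (r.choose j : ℝ) * 4 ^ j := by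
    have h := add_pow (4 : ℝ) 1 r
    rw [show (4 : ℝ) + 1 = 5 by norm_num] at h
    rw [h]
    refine Finset.sum_congr rfl fun j _ => ?_
    rw [one_pow]
    ring
  rw [h5, Finset.sum_mul]
  refine (norm_sum_le _ _).trans (Finset.sum_le_sum fun j _ => ?_)
  rw [norm_div, norm_mul, norm_pow, norm_neg, Complex.norm_natCast, Complex.norm_natCast,
    Complex.norm_real, Real.norm_of_nonneg ht]
  have h1 := Real.pow_div_factorial_le_exp (t / 4) (by positivity) j
  have h2 : (r.choose j : ℝ) * t ^ j / (j.factorial : ℝ) =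
      (r.choose j : ℝ) * 4 ^ j * ((t / 4) ^ j / (j.factorial : ℝ)) := by
    rw [div_pow]
    field_simp
  rw [h2]
  exact mul_le_mul_of_nonneg_left h1 (by positivity)

theorem conj_lag (r : ℕ) (t : ℝ) : conj (lag r (t : ℂ)) = lag r t := by
  unfold lag
  rw [map_sum]
  refine Finset.sum_congr rfl fun j _ => ?_
  simp only [map_div₀, map_mul, map_pow, map_neg, Complex.conj_ofReal, map_natCast]

theorem integrable_tsum_aux {ι : Type} [Countable ι] {μ : Measure ℝ} {F : ι → ℝ → ℂ}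
    (h1 : ∀ i, Integrable (F i) μ) (h2 : Summable fun i => ∫ y, ‖F i y‖ ∂μ) :
    Integrable (fun y => ∑' i, F i y) μ := by
  have hfin : ∑' i, ∫⁻ y, ‖F i y‖ₑ ∂μ ≠ ⊤ := by
    have (i : ι) : ∫⁻ a, ‖F i a‖ₑ ∂μ = ‖∫ a, ‖F i a‖ ∂μ‖ₑ := by
      dsimp [enorm]
      rw [lintegral_coe_eq_integral _ (h1 i).norm, ENNReal.coe_nnreal_eq, coe_nnnorm,
        Real.norm_of_nonneg (integral_nonneg (fun a ↦ norm_nonneg (F i a)))]
      simp only [coe_nnnorm]
    rw [funext this]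
    exact ENNReal.tsum_coe_ne_top_iff_summable.2 <| NNReal.summable_coe.1 h2.abs
  have hmeas : ∀ i, AEMeasurable (fun y => ‖F i y‖ₑ) μ := fun i => (h1 i).1.enorm
  have hl : ∫⁻ y, ∑' i, ‖F i y‖ₑ ∂μ = ∑' i, ∫⁻ y, ‖F i y‖ₑ ∂μ := lintegral_tsum hmeas
  have hae : ∀ᵐ y ∂μ, ∑' i, ‖F i y‖ₑ < ⊤ :=
    ae_lt_top' (AEMeasurable.tsum hmeas) (by rw [hl]; exact hfin)
  have hs : ∀ᵐ y ∂μ, Summable fun i => F i y := by
    filter_upwards [hae] with y hy
    have h3 : Summable fun i => ‖F i y‖₊ := ENNReal.tsum_coe_ne_top_iff_summable.1 hy.ne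
    exact Summable.of_nnnorm h3
  refine ⟨aestronglyMeasurable_of_tendsto_ae Filter.atTop
    (f := fun s : Finset ι => fun y => ∑ i ∈ s, F i y)
    (fun s => Finset.aestronglyMeasurable_fun_sum s fun i _ => (h1 i).1)
    (hs.mono fun y hy => hy.hasSum), ?_⟩
  unfold HasFiniteIntegral
  refine lt_of_le_of_lt (lintegral_mono fun y => ?_) (lt_top_iff_ne_top.2 (hl ▸ hfin))
  exact enorm_tsum_le_tsum_enorm

theorem real_int (n : ℕ) {a : ℝ} (ha : 0 < a) :
    IntegrableOn (fun y : ℝ => y ^ n * Real.exp (-(a * y))) (Ioi 0) ∧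
    ∫ y in Ioi (0 : ℝ), y ^ n * Real.exp (-(a * y)) = n.factorial * (a ^ (n + 1))⁻¹ := by
  constructor
  · have h := integrableOn_rpow_mul_exp_neg_mul_rpow (p := 1) (s := n) (b := a)
      (by have : (0 : ℝ) ≤ n := Nat.cast_nonneg n
          linarith) (by norm_num) ha
    refine h.congr_fun (fun y _ => ?_) measurableSet_Ioi
    simp only [Real.rpow_natCast, Real.rpow_one]
    ring_nf
  · have h := Real.integral_rpow_mul_exp_neg_mul_Ioi (a := (n : ℝ) + 1) (r := a) (by positivity) ha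
    have e : ∫ y in Ioi (0 : ℝ), y ^ n * Real.exp (-(a * y)) =
        ∫ y in Ioi (0 : ℝ), y ^ ((n : ℝ) + 1 - 1) * Real.exp (-(a * y)) := by
      refine setIntegral_congr_fun measurableSet_Ioi fun y _ => ?_
      simp only [add_sub_cancel_right, Real.rpow_natCast]
    rw [e, h, Real.Gamma_nat_eq_factorial]
    have e2 : (1 / a) ^ ((n : ℝ) + 1) = (a ^ (n + 1))⁻¹ := by
      have : ((n : ℝ) + 1) = ((n + 1 : ℕ) : ℝ) := by push_cast; ring
      rw [this, Real.rpow_natCast, one_div, inv_pow]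
    rw [e2]
    ring

/-- the integral over a period -/
theorem per_int (N : ℕ) (c : ℝ) (hc : ∃ n : ℤ, c * N = n) :
    ∫ x in (0 : ℝ)..1, ∑ j ∈ Finset.range N, ee (c * ((x + j : ℝ) : ℂ)) =
      if c = 0 then (N : ℂ) else 0 := by
  have hcont : Continuous fun x : ℝ => ee (c * (x : ℂ)) :=
    continuous_ee.comp (by fun_prop)
  have h1 : ∫ x in (0 : ℝ)..1, ∑ j ∈ Finset.range N, ee (c * ((x + j : ℝ) : ℂ)) =
      ∑ j ∈ Finset.range N, ∫ x in (0 : ℝ)..1, ee (c * ((x + j : ℝ) : ℂ)) := by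
    refine intervalIntegral.integral_finsetSum fun j _ => ?_
    exact (hcont.comp (continuous_id.add continuous_const)).intervalIntegrable _ _
  have h2 : ∀ j : ℕ, ∫ x in (0 : ℝ)..1, ee (c * ((x + j : ℝ) : ℂ)) =
      ∫ x in ((j : ℕ) : ℝ)..((j + 1 : ℕ) : ℝ), ee (c * (x : ℂ)) := by
    intro j
    have h := intervalIntegral.integral_comp_add_right (a := 0) (b := 1)
      (fun x : ℝ => ee (c * (x : ℂ))) (j : ℝ)
    rw [h, zero_add]
    push_cast
    rw [add_comm]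
  rw [h1, Finset.sum_congr rfl fun j _ => h2 j]
  rw [intervalIntegral.sum_integral_adjacent_intervals (a := fun j : ℕ => (j : ℝ))
    (f := fun x : ℝ => ee (c * (x : ℂ))) (fun j _ => hcont.intervalIntegrable _ _)]
  split_ifs with hc0
  · subst hc0
    simp [ee_zero]
  · have hc1 : (2 * Real.pi * Complex.I * c : ℂ) ≠ 0 := by
      have := Complex.two_pi_I_ne_zero
      exact mul_ne_zero this (by exact_mod_cast hc0)
    have h3 : ∀ x : ℝ, ee (c * (x : ℂ)) = Complex.exp ((2 * Real.pi * Complex.I * c) * x) := by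
      intro x
      unfold ee
      congr 1
      ring
    simp only [h3]
    rw [integral_exp_mul_complex hc1, ← h3, ← h3]
    obtain ⟨n, hn⟩ := hc
    have h4 : (c : ℂ) * ((N : ℝ) : ℂ) = (n : ℂ) := by exact_mod_cast hn
    rw [h4, ee_int]
    simp [ee_zero]

theorem xint {ι : Type} [Countable ι] (N m : ℕ) (hN : 0 < N) (M : ℝ) (hM : M = N * m) (y : ℝ)
    (d : ι → ℂ) (D : ι → ℝ) (T : ℂ → ℂ) (hd : Summable fun i => ‖d i‖)
    (hD : ∀ i, ∃ n : ℤ, D i = n)
    (hT : ∀ x : ℝ, HasSum (fun i => d i * ee (((D i / N : ℝ) : ℂ) * x))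
      (T ((x : ℂ) + y * Complex.I))) :
    ∫ x in (0 : ℝ)..1, (1 / (N : ℂ) * ∑ j ∈ Finset.range N,
        T ((x : ℂ) + y * Complex.I + j)) * ee (-(m : ℂ) * (x - y * Complex.I)) =
      ∑' i : {i // D i = M}, d i.1 * ee (m * (y * Complex.I)) := by
  have hN' : (N : ℂ) ≠ 0 := by exact_mod_cast hN.ne'
  have hNr : (N : ℝ) ≠ 0 := by exact_mod_cast hN.ne'
  set G : ι → ℝ → ℂ := fun i x => (d i * ee (m * (y * Complex.I)) * (1 / (N : ℂ))) *
    ∑ j ∈ Finset.range N, ee (((D i / N - m : ℝ) : ℂ) * ((x + j : ℝ) : ℂ)) with hG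
  have key : ∀ i (x : ℝ) (j : ℕ), ee (((D i / N : ℝ) : ℂ) * ((x + j : ℝ) : ℂ)) *
      ee (-(m : ℂ) * (x - y * Complex.I)) =
      ee (m * (y * Complex.I)) * ee (((D i / N - m : ℝ) : ℂ) * ((x + j : ℝ) : ℂ)) := by
    intro i x j
    rw [← ee_add, ← ee_add]
    have e1 : ((D i / N : ℝ) : ℂ) * ((x + j : ℝ) : ℂ) + -(m : ℂ) * (x - y * Complex.I) =
        m * (y * Complex.I) + ((D i / N - m : ℝ) : ℂ) * ((x + j : ℝ) : ℂ) +
          (((m : ℤ) * (j : ℤ) : ℤ) : ℂ) := by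
      push_cast
      ring
    rw [e1, ee_add _ ((((m : ℤ) * (j : ℤ) : ℤ) : ℂ)), ee_int, mul_one]
  have hlim : ∀ x : ℝ, HasSum (fun i => G i x) ((1 / (N : ℂ) * ∑ j ∈ Finset.range N,
        T ((x : ℂ) + y * Complex.I + j)) * ee (-(m : ℂ) * (x - y * Complex.I))) := by
    intro x
    have h1 : ∀ j ∈ Finset.range N, HasSum
        (fun i => d i * ee (((D i / N : ℝ) : ℂ) * ((x + j : ℝ) : ℂ)))
        (T ((x : ℂ) + y * Complex.I + j)) := by
      intro j _
      have h := hT (x + j)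
      have e : ((x + j : ℝ) : ℂ) + y * Complex.I = (x : ℂ) + y * Complex.I + j := by
        push_cast
        ring
      rwa [e] at h
    have h2 := (((hasSum_sum h1).mul_left (1 / (N : ℂ))).mul_right
      (ee (-(m : ℂ) * (x - y * Complex.I))))
    have h3 : (fun i => G i x) = fun i => 1 / (N : ℂ) *
        (∑ j ∈ Finset.range N, d i * ee (((D i / N : ℝ) : ℂ) * ((x + j : ℝ) : ℂ))) *
          ee (-(m : ℂ) * (x - y * Complex.I)) := by
      funext i
      simp only [hG]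
      rw [Finset.mul_sum, Finset.mul_sum, Finset.sum_mul]
      refine Finset.sum_congr rfl fun j _ => ?_
      linear_combination -(d i * (1 / (N : ℂ))) * key i x j
    rw [h3]
    exact h2
  have hGc : ∀ i, Continuous (G i) := by
    intro i
    refine continuous_const.mul (continuous_finsetSum _ fun j _ => continuous_ee.comp ?_)
    fun_prop
  have hGb : ∀ i x, ‖G i x‖ ≤ ‖d i‖ * ‖ee (m * (y * Complex.I))‖ := by
    intro i x
    have h1 : ‖∑ j ∈ Finset.range N, ee (((D i / N - m : ℝ) : ℂ) * ((x + j : ℝ) : ℂ))‖ ≤ N := by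
      refine (norm_sum_le _ _).trans ?_
      refine le_of_eq ?_
      rw [Finset.sum_congr rfl fun j _ => ?_, Finset.sum_const, Finset.card_range, nsmul_eq_mul,
        mul_one]
      rw [← Complex.ofReal_mul]
      exact norm_ee_real _
    simp only [hG]
    rw [norm_mul, norm_mul, norm_mul, norm_div, norm_one, Complex.norm_natCast]
    have h2 : ‖d i‖ * ‖ee (m * (y * Complex.I))‖ * (1 / (N : ℝ)) *
        ‖∑ j ∈ Finset.range N, ee (((D i / N - m : ℝ) : ℂ) * ((x + j : ℝ) : ℂ))‖ ≤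
        ‖d i‖ * ‖ee (m * (y * Complex.I))‖ * (1 / (N : ℝ)) * N :=
      mul_le_mul_of_nonneg_left h1 (by positivity)
    refine h2.trans (le_of_eq ?_)
    field_simp
  have hsum := intervalIntegral.hasSum_integral_of_dominated_convergence (μ := volume)
    (a := (0 : ℝ)) (b := 1) (F := G)
    (f := fun x : ℝ => (1 / (N : ℂ) * ∑ j ∈ Finset.range N,
        T ((x : ℂ) + y * Complex.I + j)) * ee (-(m : ℂ) * (x - y * Complex.I)))
    (fun i _ => ‖d i‖ * ‖ee (m * (y * Complex.I))‖)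
    (fun i => (hGc i).aestronglyMeasurable)
    (fun i => Filter.Eventually.of_forall fun x _ => hGb i x)
    (Filter.Eventually.of_forall fun x _ => hd.mul_right _)
    intervalIntegrable_const
    (Filter.Eventually.of_forall fun x _ => hlim x)
  rw [← hsum.tsum_eq]
  have hval : ∀ i, ∫ x in (0 : ℝ)..1, G i x =
      {i | D i = M}.indicator (fun i => d i * ee (m * (y * Complex.I))) i := by
    intro i
    simp only [hG]
    rw [intervalIntegral.integral_const_mul, per_int N]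
    · rw [Set.indicator_apply]
      have h1 : D i / N - m = 0 ↔ i ∈ {i | D i = M} := by
        rw [Set.mem_ofPred_eq, hM, sub_eq_zero, div_eq_iff hNr, mul_comm]
      by_cases h2 : D i / N - m = 0
      · rw [if_pos h2, if_pos (h1.1 h2)]
        field_simp
      · rw [if_neg h2, if_neg (fun h => h2 (h1.2 h)), mul_zero]
    · obtain ⟨n, hn⟩ := hD i
      refine ⟨n - m * N, ?_⟩
      rw [hn]
      push_cast
      field_simp
  rw [tsum_congr hval]
  exact (tsum_subtype {i | D i = M} (fun i => d i * ee (m * (y * Complex.I)))).symm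

/-- the terms of the product of the two series -/
noncomputable def dd {α β : Type} (c : α → ℂ) (A : α → ℝ) (B : β → ℝ) (r : ℕ) (y : ℝ)
    (p : α × β) : ℂ :=
  (c p.1 * ((Real.exp (-(2 * Real.pi * (A p.1 * y))) : ℝ) : ℂ)) *
    (((y : ℂ) ^ r)⁻¹ * (lag r ((4 * Real.pi * B p.2 * y : ℝ) : ℂ) *
      ((Real.exp (-(2 * Real.pi * (B p.2 * y))) : ℝ) : ℂ))) * (y : ℂ) ^ (2 * r + 1)

theorem ee_split (Q x y : ℝ) : ee ((Q : ℂ) * ((x : ℂ) + y * Complex.I)) =
    ee ((Q : ℂ) * x) * ((Real.exp (-(2 * Real.pi * (Q * y))) : ℝ) : ℂ) := by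
  rw [← ee_mulI, ← ee_add]
  congr 1
  push_cast
  ring

theorem series_T {α β : Type} (c : α → ℂ) (A : α → ℝ) (B : β → ℝ) (r : ℕ) (T1 T2 : ℂ → ℂ)
    (hT1 : ∀ u, T1 u = ∑' x : α, c x * ee ((A x : ℂ) * u))
    (hT2 : ∀ u : ℂ, T2 u = ((u.im : ℂ) ^ r)⁻¹ *
      ∑' x : β, lag r (4 * Real.pi * (B x : ℂ) * u.im) * ee ((B x : ℂ) * u))
    (y : ℝ) (hy : 0 < y) (hB : ∀ x, 0 ≤ B x)
    (hsA : Summable fun x : α => ‖c x‖ * Real.exp (-(2 * Real.pi * (A x * y))))
    (hsB : Summable fun x : β => Real.exp (-(Real.pi * (B x * y)))) :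
    (Summable fun p : α × β => ‖dd c A B r y p‖) ∧
    ∀ x : ℝ, HasSum (fun p : α × β => dd c A B r y p * ee (((A p.1 - B p.2 : ℝ) : ℂ) * x))
      (T1 ((x : ℂ) + y * Complex.I) * conj (T2 ((x : ℂ) + y * Complex.I)) *
        (y : ℂ) ^ (2 * r + 1)) := by
  set f : α → ℂ := fun x => c x * ((Real.exp (-(2 * Real.pi * (A x * y))) : ℝ) : ℂ) with hf
  set g : β → ℂ := fun x => ((y : ℂ) ^ r)⁻¹ * (lag r ((4 * Real.pi * B x * y : ℝ) : ℂ) *
      ((Real.exp (-(2 * Real.pi * (B x * y))) : ℝ) : ℂ)) with hg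
  have hsf : Summable fun x => ‖f x‖ := by
    refine hsA.congr fun x => ?_
    simp only [hf]
    rw [norm_mul, Complex.norm_real, Real.norm_of_nonneg (Real.exp_pos _).le]
  have hsg : Summable fun x => ‖g x‖ := by
    refine Summable.of_nonneg_of_le (fun _ => norm_nonneg _) (fun x => ?_)
      (hsB.mul_left (‖((y : ℂ) ^ r)⁻¹‖ * 5 ^ r))
    simp only [hg]
    rw [norm_mul, norm_mul, Complex.norm_real, Real.norm_of_nonneg (Real.exp_pos _).le,
      mul_assoc ‖((y : ℂ) ^ r)⁻¹‖ (5 ^ r)]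
    refine mul_le_mul_of_nonneg_left ?_ (norm_nonneg _)
    have h2 : 0 ≤ 4 * Real.pi * B x * y := by
      have := hB x
      positivity
    refine (mul_le_mul_of_nonneg_right (norm_lag_le r _ h2) (Real.exp_pos _).le).trans
      (le_of_eq ?_)
    rw [mul_assoc, ← Real.exp_add]
    congr 2
    ring
  have hdd : ∀ p : α × β, dd c A B r y p = f p.1 * g p.2 * (y : ℂ) ^ (2 * r + 1) := fun p => rfl
  constructor
  · have h1 := (summable_mul_of_summable_norm hsf hsg).norm.mul_right ‖(y : ℂ) ^ (2 * r + 1)‖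
    refine h1.congr fun p => ?_
    rw [hdd, norm_mul _ ((y : ℂ) ^ (2 * r + 1))]
  · intro x
    have him : ((x : ℂ) + y * Complex.I).im = y := by simp
    have s1n : Summable fun z => ‖f z * ee ((A z : ℂ) * x)‖ := by
      refine hsf.congr fun z => ?_
      rw [norm_mul _ (ee ((A z : ℂ) * x)), ← Complex.ofReal_mul, norm_ee_real, mul_one]
    have s2n : Summable fun z => ‖g z * ee (((-B z : ℝ) : ℂ) * x)‖ := by
      refine hsg.congr fun z => ?_
      rw [norm_mul _ (ee (((-B z : ℝ) : ℂ) * x)), ← Complex.ofReal_mul, norm_ee_real, mul_one]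
    have t1 : T1 ((x : ℂ) + y * Complex.I) = ∑' z, f z * ee ((A z : ℂ) * x) := by
      rw [hT1]
      refine tsum_congr fun z => ?_
      rw [ee_split]
      simp only [hf]
      ring
    have t2 : conj (T2 ((x : ℂ) + y * Complex.I)) = ∑' z, g z * ee (((-B z : ℝ) : ℂ) * x) := by
      rw [hT2, him, ← tsum_mul_left, Complex.conj_tsum]
      refine tsum_congr fun z => ?_
      have e3 : (4 * Real.pi * (B z : ℂ) * y : ℂ) = ((4 * Real.pi * B z * y : ℝ) : ℂ) := by
        push_cast; rfl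
      rw [ee_split, e3, map_mul, map_mul, map_mul, map_inv₀, map_pow, Complex.conj_ofReal,
        conj_lag, conj_ee, Complex.conj_ofReal]
      have e4 : -conj ((B z : ℂ) * (x : ℂ)) = ((-B z : ℝ) : ℂ) * x := by
        rw [map_mul, Complex.conj_ofReal, Complex.conj_ofReal]
        push_cast
        ring
      rw [e4]
      simp only [hg]
      ring
    have hm : Summable fun p : α × β => ‖(f p.1 * ee ((A p.1 : ℂ) * x)) *
        (g p.2 * ee (((-B p.2 : ℝ) : ℂ) * x))‖ := by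
      have h := s1n.mul_of_nonneg s2n (fun _ => norm_nonneg _) (fun _ => norm_nonneg _)
      refine h.congr fun p => ?_
      rw [norm_mul (f p.1 * ee ((A p.1 : ℂ) * x))]
    have hprod := tsum_mul_tsum_of_summable_norm s1n s2n
    rw [t1, t2, hprod]
    have h3 := (hm.of_norm.hasSum).mul_right ((y : ℂ) ^ (2 * r + 1))
    have h4 : (fun p : α × β => dd c A B r y p * ee (((A p.1 - B p.2 : ℝ) : ℂ) * x)) =
        fun p : α × β => (f p.1 * ee ((A p.1 : ℂ) * x)) *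
        (g p.2 * ee (((-B p.2 : ℝ) : ℂ) * x)) * (y : ℂ) ^ (2 * r + 1) := by
      funext p
      have e5 : ee (((A p.1 - B p.2 : ℝ) : ℂ) * x) =
          ee ((A p.1 : ℂ) * x) * ee (((-B p.2 : ℝ) : ℂ) * x) := by
        rw [← ee_add]
        congr 1
        push_cast
        ring
      rw [hdd, e5]
      ring
    rw [h4]
    exact h3

theorem main_abs (hGam : StGam) {α β : Type} [Countable α] [Countable β] (w r N m : ℕ)
    (hw : 5 ≤ w) (hN : 0 < N) (hm : 1 ≤ m) (c : α → ℂ) (A : α → ℝ) (B : β → ℝ) (D : α × β → ℝ)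
    (hDA : ∀ p, A p.1 - B p.2 = D p / N) (hDi : ∀ p, ∃ n : ℤ, D p = n) (M : ℝ)
    (hM : M = N * m) (hB : ∀ x, 0 ≤ B x) (T1 T2 : ℂ → ℂ)
    (hT1 : ∀ u, T1 u = ∑' x : α, c x * ee ((A x : ℂ) * u))
    (hT2 : ∀ u : ℂ, T2 u = ((u.im : ℂ) ^ r)⁻¹ *
      ∑' x : β, lag r (4 * Real.pi * (B x : ℂ) * u.im) * ee ((B x : ℂ) * u))
    (hsA : ∀ y : ℝ, 0 < y → Summable fun x : α => ‖c x‖ * Real.exp (-(2 * Real.pi * (A x * y))))
    (hsB : ∀ y : ℝ, 0 < y → Summable fun x : β => Real.exp (-(Real.pi * (B x * y))))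
    (hS : Summable fun p : {p : α × β // D p = M} => ‖c p.1.1‖ * ((A p.1.1) ^ (w + r))⁻¹) :
    IntegrableOn (fun y : ℝ => (∫ x in (0 : ℝ)..1, (1 / (N : ℂ) * ∑ j ∈ Finset.range N,
        (fun u : ℂ => T1 u * conj (T2 u) * (u.im : ℂ) ^ (2 * r + 1))
          ((x : ℂ) + y * Complex.I + j)) * ee (-(m : ℂ) * (x - y * Complex.I))) *
            (y : ℂ) ^ (w - 2)) (Ioi 0) ∧
    ∫ y in Ioi (0 : ℝ), (∫ x in (0 : ℝ)..1, (1 / (N : ℂ) * ∑ j ∈ Finset.range N,
        (fun u : ℂ => T1 u * conj (T2 u) * (u.im : ℂ) ^ (2 * r + 1))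
          ((x : ℂ) + y * Complex.I + j)) * ee (-(m : ℂ) * (x - y * Complex.I))) *
            (y : ℂ) ^ (w - 2) =
      ∑' p : {p : α × β // D p = M}, c p.1.1 * (((w + r - 1).factorial : ℂ) *
        ((4 * Real.pi * (A p.1.1 : ℂ)) ^ (w + r))⁻¹ * Jr w r ((B p.1.2 : ℂ) / (A p.1.1 : ℂ))) := by
  have hN' : (N : ℂ) ≠ 0 := by exact_mod_cast hN.ne'
  have hNr : (N : ℝ) ≠ 0 := by exact_mod_cast hN.ne'
  have hm1 : (1 : ℝ) ≤ m := by exact_mod_cast hm
  set T : ℂ → ℂ := fun u : ℂ => T1 u * conj (T2 u) * (u.im : ℂ) ^ (2 * r + 1) with hT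
  set G : {p : α × β // D p = M} → ℝ → ℂ := fun p y => c p.1.1 *
    ((y : ℂ) ^ (w + r - 1) * lag r (4 * Real.pi * (B p.1.2 : ℂ) * y) *
      Complex.exp (-(4 * Real.pi * (A p.1.1 : ℂ) * y))) with hG
  have hAB : ∀ p : {p : α × β // D p = M}, A p.1.1 - B p.1.2 = m := by
    intro p
    rw [hDA, p.2, hM]
    field_simp
  have hApos : ∀ p : {p : α × β // D p = M}, 0 < A p.1.1 := by
    intro p
    have h1 := hAB p
    have h2 := hB p.1.2
    linarith
  have hpt : ∀ y : ℝ, 0 < y → (∫ x in (0 : ℝ)..1, (1 / (N : ℂ) * ∑ j ∈ Finset.range N,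
        T ((x : ℂ) + y * Complex.I + j)) * ee (-(m : ℂ) * (x - y * Complex.I))) *
            (y : ℂ) ^ (w - 2) = ∑' p, G p y := by
    intro y hy
    have hy0 : (y : ℂ) ≠ 0 := by exact_mod_cast hy.ne'
    obtain ⟨h1, h2⟩ := series_T c A B r T1 T2 hT1 hT2 y hy hB (hsA y hy) (hsB y hy)
    rw [xint N m hN M hM y (dd c A B r y) D T h1 hDi, ← tsum_mul_right]
    · refine tsum_congr fun p => ?_
      have e1 : ee (m * (y * Complex.I)) =
          ((Real.exp (-(2 * Real.pi * (m * y))) : ℝ) : ℂ) := by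
        rw [← ee_mulI]
        congr 1
        push_cast
        ring
      rw [e1]
      simp only [hG]
      unfold dd
      have e2 : Complex.exp (-(4 * Real.pi * (A p.1.1 : ℂ) * y)) =
          ((Real.exp (-(2 * Real.pi * (A p.1.1 * y))) : ℝ) : ℂ) *
          ((Real.exp (-(2 * Real.pi * (B p.1.2 * y))) : ℝ) : ℂ) *
          ((Real.exp (-(2 * Real.pi * (m * y))) : ℝ) : ℂ) := by
        rw [← Complex.ofReal_mul, ← Complex.ofReal_mul, ← Real.exp_add, ← Real.exp_add,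
          Complex.ofReal_exp]
        congr 1
        have h3 : B p.1.2 = A p.1.1 - m := by have := hAB p; linarith
        rw [h3]
        push_cast
        ring
      have e3 : ((4 * Real.pi * B p.1.2 * y : ℝ) : ℂ) = 4 * Real.pi * (B p.1.2 : ℂ) * y := by
        push_cast; rfl
      have e4 : (y : ℂ) ^ (w + r - 1) = ((y : ℂ) ^ r)⁻¹ * (y : ℂ) ^ (2 * r + 1) *
          (y : ℂ) ^ (w - 2) := by
        have h5 : (y : ℂ) ^ r ≠ 0 := pow_ne_zero _ hy0
        field_simp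
        rw [← pow_add, ← pow_add]
        congr 1
        omega
      rw [e2, e3, e4]
      ring
    · intro x
      have h3 := h2 x
      have him : ((x : ℂ) + y * Complex.I).im = y := by simp
      simp only [hT, him]
      simpa only [hDA] using h3
  have hGi : ∀ p, IntegrableOn (G p) (Ioi 0) := by
    intro p
    exact (hGam w r (A p.1.1) (B p.1.2) (by omega) (hApos p) (hB _)).1.const_mul _
  have hGv : ∀ p, ∫ y in Ioi (0 : ℝ), G p y = c p.1.1 * (((w + r - 1).factorial : ℂ) *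
        ((4 * Real.pi * (A p.1.1 : ℂ)) ^ (w + r))⁻¹ * Jr w r ((B p.1.2 : ℂ) / (A p.1.1 : ℂ))) := by
    intro p
    simp only [hG]
    rw [integral_const_mul, (hGam w r (A p.1.1) (B p.1.2) (by omega) (hApos p) (hB _)).2]
    push_cast
    rfl
  have hGn : ∀ p, ∫ y in Ioi (0 : ℝ), ‖G p y‖ ≤
      (5 ^ r * ((w + r - 1).factorial : ℝ) * ((2 * Real.pi) ^ (w + r))⁻¹) *
        (‖c p.1.1‖ * ((A p.1.1) ^ (w + r))⁻¹) := by
    intro p
    have ha : 0 < 2 * Real.pi * A p.1.1 := by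
      have := hApos p
      positivity
    obtain ⟨h1, h2⟩ := real_int (w + r - 1) ha
    have h3 : ∫ y in Ioi (0 : ℝ), ‖G p y‖ ≤ ∫ y in Ioi (0 : ℝ), (‖c p.1.1‖ * 5 ^ r) *
        (y ^ (w + r - 1) * Real.exp (-(2 * Real.pi * A p.1.1 * y))) := by
      refine setIntegral_mono_on (hGi p).norm (h1.const_mul _) measurableSet_Ioi fun y hy => ?_
      have hy' : (0 : ℝ) < y := hy
      simp only [hG]
      have e3 : (4 * Real.pi * (B p.1.2 : ℂ) * y : ℂ) = ((4 * Real.pi * B p.1.2 * y : ℝ) : ℂ) := by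
        push_cast; rfl
      have e4 : Complex.exp (-(4 * Real.pi * (A p.1.1 : ℂ) * y)) =
          ((Real.exp (-(4 * Real.pi * A p.1.1 * y)) : ℝ) : ℂ) := by
        push_cast; rfl
      rw [e3, e4, norm_mul, norm_mul, norm_mul, norm_pow, Complex.norm_real, Complex.norm_real,
        Real.norm_of_nonneg hy'.le, Real.norm_of_nonneg (Real.exp_pos _).le,
        mul_assoc ‖c p.1.1‖ (5 ^ r)]
      refine mul_le_mul_of_nonneg_left ?_ (norm_nonneg _)
      have h4 : 0 ≤ 4 * Real.pi * B p.1.2 * y := by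
        have := hB p.1.2
        positivity
      have h5 := norm_lag_le r _ h4
      have h6 : y ^ (w + r - 1) * ‖lag r ((4 * Real.pi * B p.1.2 * y : ℝ) : ℂ)‖ *
          Real.exp (-(4 * Real.pi * A p.1.1 * y)) ≤
          y ^ (w + r - 1) * (5 ^ r * Real.exp (4 * Real.pi * B p.1.2 * y / 4)) *
          Real.exp (-(4 * Real.pi * A p.1.1 * y)) :=
        mul_le_mul_of_nonneg_right (mul_le_mul_of_nonneg_left h5 (by positivity))
          (Real.exp_pos _).le
      refine h6.trans ?_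
      have h7 : Real.exp (4 * Real.pi * B p.1.2 * y / 4) *
          Real.exp (-(4 * Real.pi * A p.1.1 * y)) ≤ Real.exp (-(2 * Real.pi * A p.1.1 * y)) := by
        rw [← Real.exp_add]
        refine Real.exp_le_exp.2 ?_
        have h8 : B p.1.2 ≤ A p.1.1 := by have := hAB p; linarith
        have h9 := hApos p
        have h10 : Real.pi * y * B p.1.2 ≤ Real.pi * y * A p.1.1 :=
          mul_le_mul_of_nonneg_left h8 (by positivity)
        have h11 : 0 ≤ Real.pi * y * A p.1.1 := by positivity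
        nlinarith
      calc y ^ (w + r - 1) * (5 ^ r * Real.exp (4 * Real.pi * B p.1.2 * y / 4)) *
          Real.exp (-(4 * Real.pi * A p.1.1 * y)) =
          (5 ^ r * y ^ (w + r - 1)) * (Real.exp (4 * Real.pi * B p.1.2 * y / 4) *
          Real.exp (-(4 * Real.pi * A p.1.1 * y))) := by ring
        _ ≤ (5 ^ r * y ^ (w + r - 1)) * Real.exp (-(2 * Real.pi * A p.1.1 * y)) :=
          mul_le_mul_of_nonneg_left h7 (by positivity)
        _ = _ := by ring
    refine h3.trans (le_of_eq ?_)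
    rw [integral_const_mul, h2]
    have h12 : w + r - 1 + 1 = w + r := by omega
    rw [h12, mul_pow]
    have h13 := (hApos p).ne'
    field_simp
  have hsum : Summable fun p => ∫ y in Ioi (0 : ℝ), ‖G p y‖ :=
    Summable.of_nonneg_of_le (fun p => integral_nonneg fun y => norm_nonneg _) hGn
      (hS.mul_left _)
  constructor
  · refine (integrable_tsum_aux hGi hsum).congr ?_
    refine (ae_restrict_iff' measurableSet_Ioi).2 (Filter.Eventually.of_forall fun y hy => ?_)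
    exact (hpt y hy).symm
  · rw [setIntegral_congr_fun measurableSet_Ioi fun y hy => hpt y hy]
    rw [← (hasSum_integral_of_summable_integral_norm hGi hsum).tsum_eq]
    exact tsum_congr hGv

section

variable {F : Type} [Field F] [NumberField F]

theorem lat_lower {X Y : ℂ} (h : 0 < (X * conj Y).im) : ∃ δ : ℝ, 0 < δ ∧ ∀ m n : ℤ,
    δ * max |(m : ℝ)| |(n : ℝ)| ≤ ‖(m : ℂ) * X + n * Y‖ := by
  have hX : X ≠ 0 := by
    rintro rfl
    simp at h
  have hY : Y ≠ 0 := by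
    rintro rfl
    simp at h
  have hX' : 0 < ‖X‖ := norm_pos_iff.2 hX
  have hY' : 0 < ‖Y‖ := norm_pos_iff.2 hY
  refine ⟨(X * conj Y).im / (‖X‖ + ‖Y‖), by positivity, fun m n => ?_⟩
  have h1 : |(m : ℝ)| * (X * conj Y).im ≤ ‖(m : ℂ) * X + n * Y‖ * ‖Y‖ := by
    have e : (((m : ℂ) * X + n * Y) * conj Y).im = m * (X * conj Y).im := by
      rw [add_mul, Complex.add_im, mul_assoc, mul_assoc, Complex.mul_conj]
      simp
    have h2 := Complex.abs_im_le_norm (((m : ℂ) * X + n * Y) * conj Y)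
    rw [e, norm_mul, Complex.norm_conj, abs_mul, abs_of_pos h] at h2
    exact h2
  have h3 : |(n : ℝ)| * (X * conj Y).im ≤ ‖(m : ℂ) * X + n * Y‖ * ‖X‖ := by
    have e : (((m : ℂ) * X + n * Y) * conj X).im = -(n * (X * conj Y).im) := by
      rw [add_mul, Complex.add_im, mul_assoc, mul_assoc, Complex.mul_conj]
      simp
      ring
    have h2 := Complex.abs_im_le_norm (((m : ℂ) * X + n * Y) * conj X)
    rw [e, norm_mul, Complex.norm_conj, abs_neg, abs_mul, abs_of_pos h] at h2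
    exact h2
  rw [div_mul_eq_mul_div, div_le_iff₀ (by positivity)]
  have h4 := norm_nonneg ((m : ℂ) * X + n * Y)
  rcases le_total |(m : ℝ)| |(n : ℝ)| with h5 | h5
  · rw [max_eq_right h5]
    nlinarith
  · rw [max_eq_left h5]
    nlinarith

theorem summable_pt (σ : F →+* ℂ) {a : Ideal (𝓞 F)} {X Y : 𝓞 F} (h : OBasis σ a X Y) :
    Summable fun z : a => ((1 + ‖σ ((z : 𝓞 F) : F)‖) ^ (5 / 2 : ℝ))⁻¹ := by
  obtain ⟨δ, hδ, hlow⟩ := lat_lower h.pos
  choose m n hmn using fun z : a => (h.mem z).1 z.2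
  set e : a → (Fin 2 → ℤ) := fun z => ![m z, n z] with he
  have hinj : Function.Injective e := by
    intro z z' hz
    have h0 := congrFun hz 0
    have h1 := congrFun hz 1
    simp only [he, Matrix.cons_val_zero, Matrix.cons_val_one] at h0 h1
    apply Subtype.ext
    rw [hmn z, hmn z', h0, h1]
  have hs := (EisensteinSeries.summable_one_div_norm_rpow (k := 5 / 2) (by norm_num)).comp_injective
    hinj
  have hs2 : Summable fun z : a => δ ^ (-(5 / 2) : ℝ) * ‖e z‖ ^ (-(5 / 2) : ℝ) := hs.mul_left _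
  refine Summable.of_norm_bounded_eventually hs2 ?_
  have hfin : {z : a | e z = 0}.Finite := by
    refine Set.Finite.preimage (s := {(0 : Fin 2 → ℤ)}) ?_ (Set.finite_singleton _)
    exact hinj.injOn
  filter_upwards [hfin.compl_mem_cofinite] with z hz
  have hz' : e z ≠ 0 := hz
  have hpos : 0 < ‖e z‖ := norm_pos_iff.2 hz'
  have hnorm : ‖e z‖ ≤ max |(m z : ℝ)| |(n z : ℝ)| := by
    rw [pi_norm_le_iff_of_nonneg (by positivity)]
    intro i
    fin_cases i
    · simp [he, Int.norm_eq_abs]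
    · simp [he, Int.norm_eq_abs]
  have h1 : δ * ‖e z‖ ≤ 1 + ‖σ ((z : 𝓞 F) : F)‖ := by
    have h2 := hlow (m z) (n z)
    have h3 : σ ((z : 𝓞 F) : F) = (m z : ℂ) * σ (X : F) + n z * σ (Y : F) := by
      rw [hmn z]
      push_cast
      simp
    rw [← h3] at h2
    have h4 : δ * ‖e z‖ ≤ δ * max |(m z : ℝ)| |(n z : ℝ)| := mul_le_mul_of_nonneg_left hnorm hδ.le
    linarith
  rw [norm_inv, Real.norm_of_nonneg (by positivity), ← Real.rpow_neg (by positivity),
    ← Real.mul_rpow hδ.le hpos.le]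
  exact Real.rpow_le_rpow_of_nonpos (by positivity) h1 (by norm_num)

omit [NumberField F] in
theorem countable_ideal (σ : F →+* ℂ) {a : Ideal (𝓞 F)} {X Y : 𝓞 F} (h : OBasis σ a X Y) :
    Countable a := by
  choose m n hmn using fun z : a => (h.mem z).1 z.2
  refine Function.Injective.countable (f := fun z : a => (m z, n z)) ?_
  intro z z' hz
  have h0 : m z = m z' := congrArg Prod.fst hz
  have h1 : n z = n z' := congrArg Prod.snd hz
  apply Subtype.ext
  rw [hmn z, hmn z', h0, h1]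

theorem absNorm_pos {a : Ideal (𝓞 F)} (ha : a ≠ ⊥) : (1 : ℝ) ≤ (Ideal.absNorm a : ℝ) := by
  have h : Ideal.absNorm a ≠ 0 := fun h0 => ha (Ideal.absNorm_eq_zero_iff.1 h0)
  exact_mod_cast Nat.one_le_iff_ne_zero.2 h

/-- the sums over pairs converge -/
theorem summable_pairs (σ : F →+* ℂ) (a b : Ideal (𝓞 F)) (ha : a ≠ ⊥) (hb : b ≠ ⊥)
    (w r : ℕ) (hw : 5 ≤ w) (M : ℝ) (hM : 1 ≤ M)
    (hpa : Summable fun z : a => ((1 + ‖σ ((z : 𝓞 F) : F)‖) ^ (5 / 2 : ℝ))⁻¹)
    (hpb : Summable fun z : b => ((1 + ‖σ ((z : 𝓞 F) : F)‖) ^ (5 / 2 : ℝ))⁻¹) :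
    Summable fun p : {p : a × b // Qa σ a p.1 - Qa σ b p.2 = M} =>
      ‖σ ((p.1.1 : 𝓞 F) : F)‖ ^ (w + 2 * r) * ((Qa σ a p.1.1) ^ (w + r))⁻¹ := by
  have hNa := absNorm_pos ha
  have hNb := absNorm_pos hb
  set na : ℝ := (Ideal.absNorm a : ℝ) with hna
  set nb : ℝ := (Ideal.absNorm b : ℝ) with hnb
  have h1 := (hpa.mul_of_nonneg hpb (fun _ => by positivity) (fun _ => by positivity)).subtype
    {p : a × b | Qa σ a p.1 - Qa σ b p.2 = M}
  have h2 := h1.mul_left (na ^ (w + r) * (2 * (1 + nb)) ^ (5 / 2 : ℝ))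
  refine Summable.of_nonneg_of_le (fun p => ?_) (fun p => ?_) h2
  · unfold Qa
    have := Complex.normSq_nonneg (σ ((p.1.1 : 𝓞 F) : F))
    positivity
  · obtain ⟨⟨x, y⟩, hp⟩ := p
    set u : ℝ := ‖σ ((x : 𝓞 F) : F)‖ with hu
    set v : ℝ := ‖σ ((y : 𝓞 F) : F)‖ with hv
    have hu0 : 0 ≤ u := norm_nonneg _
    have hv0 : 0 ≤ v := norm_nonneg _
    have hQa : Qa σ a x = u ^ 2 / na := by
      unfold Qa
      rw [Complex.normSq_eq_norm_sq]
    have hQb : Qa σ b y = v ^ 2 / nb := by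
      unfold Qa
      rw [Complex.normSq_eq_norm_sq]
    have hp' : u ^ 2 / na - v ^ 2 / nb = M := by
      rw [← hQa, ← hQb]
      exact hp
    have hna0 : 0 < na := by linarith
    have hnb0 : 0 < nb := by linarith
    have hA1 : na ≤ u ^ 2 := by
      have h3 : 0 ≤ v ^ 2 / nb := by positivity
      have h4 : 1 ≤ u ^ 2 / na := by linarith
      rwa [le_div_iff₀ hna0, one_mul] at h4
    have hu1 : 1 ≤ u := by
      nlinarith
    have hvu : v ≤ nb * u := by
      have h3 : v ^ 2 / nb ≤ u ^ 2 / na := by linarith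
      have h4 : u ^ 2 / na ≤ u ^ 2 := div_le_self (by positivity) hNa
      have h5 : v ^ 2 ≤ u ^ 2 * nb := by
        have h6 : v ^ 2 / nb ≤ u ^ 2 := h3.trans h4
        rwa [div_le_iff₀ hnb0] at h6
      have h6 : v ^ 2 ≤ (nb * u) ^ 2 := by
        have h7 : u ^ 2 * nb ≤ (nb * u) ^ 2 := by
          have h8 : 0 ≤ u ^ 2 * nb * (nb - 1) := by
            have : 0 ≤ nb - 1 := by linarith
            positivity
          nlinarith
        linarith
      exact le_of_sq_le_sq h6 (by positivity)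
    show u ^ (w + 2 * r) * ((Qa σ a x) ^ (w + r))⁻¹ ≤
      na ^ (w + r) * (2 * (1 + nb)) ^ (5 / 2 : ℝ) *
        (((1 + u) ^ (5 / 2 : ℝ))⁻¹ * ((1 + v) ^ (5 / 2 : ℝ))⁻¹)
    have hu0' : 0 < u := by linarith
    have e1 : u ^ (w + 2 * r) * ((Qa σ a x) ^ (w + r))⁻¹ = na ^ (w + r) * (u ^ w)⁻¹ := by
      rw [hQa, div_pow, ← pow_mul, inv_div]
      have e2 : u ^ (2 * (w + r)) = u ^ (w + 2 * r) * u ^ w := by
        rw [← pow_add]
        congr 1
        ring
      rw [e2]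
      field_simp
    rw [e1, mul_assoc]
    refine mul_le_mul_of_nonneg_left ?_ (by positivity)
    have h3 : (u ^ w)⁻¹ ≤ (u ^ 5)⁻¹ :=
      inv_anti₀ (by positivity) (pow_le_pow_right₀ hu1 hw)
    refine h3.trans ?_
    rw [← mul_inv, ← div_eq_mul_inv, inv_eq_one_div, div_le_div_iff₀ (by positivity)
      (by positivity), one_mul, ← Real.mul_rpow (by positivity) (by positivity)]
    have h4 : (1 + u) * (1 + v) ≤ (2 * (1 + nb)) * u ^ 2 := by
      have h5 : 1 + u ≤ 2 * u := by linarith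
      have h6 : 1 + v ≤ (1 + nb) * u := by nlinarith
      have h7 : (1 + u) * (1 + v) ≤ (2 * u) * ((1 + nb) * u) :=
        mul_le_mul h5 h6 (by positivity) (by positivity)
      nlinarith
    have h5 : (u ^ 2) ^ (5 / 2 : ℝ) = u ^ 5 := by
      rw [← Real.rpow_natCast u 2, ← Real.rpow_mul hu0, ← Real.rpow_natCast u 5]
      congr 1
      norm_num
    rw [← h5, ← Real.mul_rpow (by positivity) (by positivity)]
    exact Real.rpow_le_rpow (by positivity) h4 (by norm_num)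

theorem main_N (hGam : StGam) (σ : F →+* ℂ) (a b : Ideal (𝓞 F)) (ha : a ≠ ⊥) (hb : b ≠ ⊥)
    [Countable a] [Countable b]
    (w r N m : ℕ) (hw : 5 ≤ w) (hN : 0 < N) (hm : 1 ≤ m) (κ : ℂ) (M : ℝ) (hM : M = N * m)
    (T1 T2 : ℂ → ℂ)
    (hT1 : ∀ u, T1 u = ∑' x : a, κ * σ ((x : 𝓞 F) : F) ^ (w + 2 * r) *
      ee ((Qa σ a x : ℂ) / N * u))
    (hT2 : ∀ u : ℂ, T2 u = ((u.im : ℂ) ^ r)⁻¹ *
      ∑' x : b, lag r (4 * Real.pi * ((Qa σ b x : ℂ) / N) * u.im) * ee ((Qa σ b x : ℂ) / N * u))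
    (hQa : ∀ x ∈ a, ∃ n : ℕ, Qa σ a x = n) (hQb : ∀ x ∈ b, ∃ n : ℕ, Qa σ b x = n)
    (hsa : ∀ t : ℝ, 0 < t → Summable fun x : a =>
      (1 + ‖σ ((x : 𝓞 F) : F)‖) ^ (w + 2 * r) * Real.exp (-(t * Qa σ a x)))
    (hsb : ∀ t : ℝ, 0 < t → Summable fun x : b => Real.exp (-(t * Qa σ b x)))
    (hpa : Summable fun z : a => ((1 + ‖σ ((z : 𝓞 F) : F)‖) ^ (5 / 2 : ℝ))⁻¹)
    (hpb : Summable fun z : b => ((1 + ‖σ ((z : 𝓞 F) : F)‖) ^ (5 / 2 : ℝ))⁻¹) :
    IntegrableOn (fun y : ℝ => (∫ x in (0 : ℝ)..1, (1 / (N : ℂ) * ∑ j ∈ Finset.range N,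
        (fun u : ℂ => T1 u * conj (T2 u) * (u.im : ℂ) ^ (2 * r + 1))
          ((x : ℂ) + y * Complex.I + j)) * ee (-(m : ℂ) * (x - y * Complex.I))) *
            (y : ℂ) ^ (w - 2)) (Ioi 0) ∧
    ∫ y in Ioi (0 : ℝ), (∫ x in (0 : ℝ)..1, (1 / (N : ℂ) * ∑ j ∈ Finset.range N,
        (fun u : ℂ => T1 u * conj (T2 u) * (u.im : ℂ) ^ (2 * r + 1))
          ((x : ℂ) + y * Complex.I + j)) * ee (-(m : ℂ) * (x - y * Complex.I))) *
            (y : ℂ) ^ (w - 2) =
      κ * (N : ℂ) ^ (w + r) * (((w + r - 1).factorial : ℂ) * ((4 * Real.pi : ℂ) ^ (w + r))⁻¹) *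
        ∑' p : {p : a × b // Qa σ a p.1 - Qa σ b p.2 = M}, PT w r σ a b p.1.1 p.1.2 := by
  have hN' : (N : ℂ) ≠ 0 := by exact_mod_cast hN.ne'
  have hNr : (0 : ℝ) < N := by exact_mod_cast hN
  have hN1 : (1 : ℝ) ≤ N := by exact_mod_cast hN
  have hm1 : (1 : ℝ) ≤ m := by exact_mod_cast hm
  have hM1 : 1 ≤ M := by rw [hM]; nlinarith
  have hQb0 : ∀ x : 𝓞 F, 0 ≤ Qa σ b x := fun x => by
    unfold Qa
    exact div_nonneg (Complex.normSq_nonneg _) (Nat.cast_nonneg _)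
  have hmain := main_abs hGam w r N m hw hN hm
    (fun x : a => κ * σ ((x : 𝓞 F) : F) ^ (w + 2 * r)) (fun x : a => Qa σ a x / N)
    (fun x : b => Qa σ b x / N) (fun p => Qa σ a p.1 - Qa σ b p.2)
    (fun p => by rw [sub_div])
    (fun p => by
      obtain ⟨n1, h1⟩ := hQa p.1 p.1.2
      obtain ⟨n2, h2⟩ := hQb p.2 p.2.2
      refine ⟨(n1 : ℤ) - n2, ?_⟩
      rw [h1, h2]
      push_cast
      rfl) M hM (fun x => div_nonneg (hQb0 _) hNr.le) T1 T2
    (fun u => by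
      rw [hT1]
      refine tsum_congr fun x => ?_
      push_cast
      rfl)
    (fun u => by
      rw [hT2]
      congr 1
      refine tsum_congr fun x => ?_
      push_cast
      rfl)
    (fun y hy => by
      have h1 := (hsa (2 * Real.pi * y / N) (by positivity)).mul_left ‖κ‖
      refine Summable.of_nonneg_of_le (fun _ => by positivity) (fun x => ?_) h1
      rw [norm_mul, norm_pow, mul_assoc]
      refine mul_le_mul_of_nonneg_left ?_ (norm_nonneg _)
      refine mul_le_mul ?_ (le_of_eq ?_) (Real.exp_pos _).le (by positivity)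
      · exact pow_le_pow_left₀ (norm_nonneg _) (by linarith) _
      · congr 1
        field_simp)
    (fun y hy => by
      refine (hsb (Real.pi * y / N) (by positivity)).congr fun x => ?_
      congr 1
      field_simp)
    (by
      have h1 := (summable_pairs σ a b ha hb w r hw M hM1 hpa hpb).mul_left
        (‖κ‖ * (N : ℝ) ^ (w + r))
      refine h1.congr fun p => ?_
      rw [norm_mul, norm_pow, div_pow, inv_div]
      field_simp)
  refine ⟨hmain.1, ?_⟩
  rw [hmain.2, ← tsum_mul_left]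
  refine tsum_congr fun p => ?_
  unfold PT
  push_cast
  have h1 : (Qa σ b p.1.2 : ℂ) / N / ((Qa σ a p.1.1 : ℂ) / N) =
      (Qa σ b p.1.2 : ℂ) / (Qa σ a p.1.1 : ℂ) := by
    rw [div_div_div_cancel_right₀ hN']
  rw [h1, ← mul_div_assoc, div_pow, inv_div, mul_pow]
  simp only [div_eq_mul_inv, mul_inv]
  ring

theorem cont_x {G : ℂ → ℂ} (hG : ContinuousOn G {u | 0 < u.im}) (N m : ℕ) (y : ℝ) (hy : 0 < y) :
    Continuous fun x : ℝ => (1 / (N : ℂ) * ∑ j ∈ Finset.range N,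
      G ((x : ℂ) + y * Complex.I + j)) * ee (-(m : ℂ) * (x - y * Complex.I)) := by
  refine Continuous.mul (continuous_const.mul (continuous_finsetSum _ fun j _ => ?_)) ?_
  · refine hG.comp_continuous (by fun_prop) fun x => ?_
    show 0 < ((x : ℂ) + y * Complex.I + j).im
    simpa using hy
  · exact continuous_ee.comp (by fun_prop)

end

theorem alg {ι κ : Type} [Fintype ι] [Fintype κ] (f : ι → ℂ) (g : κ → ℂ) (c₁ c₂ y : ℂ) :
    (c₁ * ∑ i, f i) * (c₂ * ∑ i, g i) * y = (c₁ * c₂) * ∑ p : ι × κ, f p.1 * g p.2 * y := by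
  rw [Fintype.sum_prod_type]
  have h : ∑ x, ∑ z, f x * g z * y = (∑ i, f i) * (∑ i, g i) * y := by
    rw [Finset.sum_mul_sum, Finset.sum_mul]
    refine Finset.sum_congr rfl fun i _ => ?_
    rw [Finset.sum_mul]
  rw [h]
  ring

end JmAux

open JmAux in
theorem stJm (h1 : StThB) (h2 : StThS) (h3 : StThl) (h4 : StEisTh) (h5 : StGam) (_h6 : StBas)
    (_h7 : StBase) : StJm := by
  intro q hq0 F _ _ s σ χ cj w r ψ c hD hw hev
  obtain ⟨ε, hε, hE⟩ := h4 q hq0 F _ _ s σ χ cj c hD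
  refine ⟨ε, hε, fun m hm => ?_⟩
  have hqpos : 0 < q := hD.prime.pos
  have hqr : (0 : ℝ) < q := by exact_mod_cast hqpos
  have hqc : (q : ℂ) ≠ 0 := by exact_mod_cast hqpos.ne'
  have hsq : (Real.sqrt q : ℂ) ^ 2 = q := by
    rw [← Complex.ofReal_pow, Real.sq_sqrt hqr.le]
    simp
  have hsq0 : (Real.sqrt q : ℂ) ≠ 0 := by
    intro h0
    rw [h0] at hsq
    exact hqc (by rw [← hsq]; ring)
  have hR : ∀ A, (c.R A : Ideal (𝓞 F)) ≠ ⊥ := fun A => nonZeroDivisors.coe_ne_zero (c.R A)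
  have hB := fun A => h1 q F _ _ s σ χ cj (c.R A : Ideal (𝓞 F)) (w + 2 * r) r hD (hR A)
  have hB0 := fun A => h1 q F _ _ s σ χ cj (c.R A : Ideal (𝓞 F)) 0 r hD (hR A)
  have hevk : Even (w + 2 * r) := hev.add (even_two_mul r)
  have hεc : conj ε = ε := by
    rcases hε with h | h
    · rw [h]; simp
    · rw [h]; simp
  have hrc : conj (-(r : ℂ)) = -(r : ℂ) := by simp
  set G1 : ClassGroup (𝓞 F) × ClassGroup (𝓞 F) → ℂ → ℂ := fun p u =>
    th σ (c.R p.1 : Ideal (𝓞 F)) (w + 2 * r) u * conj (thl σ (c.R p.2 : Ideal (𝓞 F)) r u) *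
      (u.im : ℂ) ^ (2 * r + 1) with hG1
  set G2 : ClassGroup (𝓞 F) × ClassGroup (𝓞 F) → ℂ → ℂ := fun p u =>
    thS q σ (c.R p.1 : Ideal (𝓞 F)) (w + 2 * r) u * conj (thlS q σ (c.R p.2 : Ideal (𝓞 F)) r u) *
      (u.im : ℂ) ^ (2 * r + 1) with hG2
  set C0 : ℂ := 1 / 2 * ε * (Real.pi / Real.sqrt q) with hC0
  have hH1 : ∀ u : ℂ, 0 < u.im → HH q χ w r ψ c (-r) u =
      C0 * ∑ p : ClassGroup (𝓞 F) × ClassGroup (𝓞 F), (ψ (c.R p.1 : Ideal (𝓞 F)))⁻¹ * G1 p u := by
    intro u hu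
    unfold HH thψ
    rw [hrc, hE r u hu, map_mul, map_mul, map_sum, map_div₀, Complex.conj_ofReal,
      Complex.conj_ofReal, hεc, alg, hC0]
    congr 1
    · ring
    · refine Finset.sum_congr rfl fun p _ => ?_
      simp only [hG1]
      ring
  have hH2 : ∀ v : ℂ, 0 < v.im → HH q χ w r ψ c (-r) (-1 / v) = v ^ w * (1 / (q : ℂ) *
      (C0 * ∑ p : ClassGroup (𝓞 F) × ClassGroup (𝓞 F),
        (ψ (c.R p.1 : Ideal (𝓞 F)))⁻¹ * G2 p v)) := by
    intro v hv
    have hv0 : v ≠ 0 := by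
      rintro rfl
      simp at hv
    have hvc0 : conj v ≠ 0 := (map_ne_zero _).2 hv0
    have him : (((-1 / v).im : ℝ) : ℂ) = (v.im : ℂ) / (v * conj v) := by
      rw [Complex.mul_conj, neg_div, one_div, Complex.neg_im, Complex.inv_im]
      push_cast
      ring
    have hvim : 0 < (-1 / v).im := by
      rw [neg_div, one_div, Complex.neg_im, Complex.inv_im]
      have := Complex.normSq_pos.2 hv0
      have h : -(-v.im / Complex.normSq v) = v.im / Complex.normSq v := by ring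
      rw [h]
      positivity
    have e1 : ∀ A, th σ (c.R A : Ideal (𝓞 F)) (w + 2 * r) (-1 / v) =
        (-Complex.I / Real.sqrt q) * v ^ (w + 2 * r + 1) *
          thS q σ (c.R A : Ideal (𝓞 F)) (w + 2 * r) v := fun A =>
      h2 q F _ _ s σ χ cj _ (w + 2 * r) v hD (hR A) hevk hv
    have e2 : ∀ A, thl σ (c.R A : Ideal (𝓞 F)) r (-1 / v) =
        (-Complex.I / Real.sqrt q) * v ^ (2 * r + 1) *
          thlS q σ (c.R A : Ideal (𝓞 F)) r v := fun A =>
      (h3 q F _ _ s σ χ cj _ r hD (hR A)).2 v hv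
    rw [hH1 _ hvim]
    simp only [hG1, e1, e2]
    have e0 : v ^ w * (1 / (q : ℂ) * (C0 * ∑ p : ClassGroup (𝓞 F) × ClassGroup (𝓞 F),
        (ψ (c.R p.1 : Ideal (𝓞 F)))⁻¹ * G2 p v)) =
        C0 * ∑ p : ClassGroup (𝓞 F) × ClassGroup (𝓞 F),
          v ^ w * (1 / (q : ℂ)) * ((ψ (c.R p.1 : Ideal (𝓞 F)))⁻¹ * G2 p v) := by
      rw [← Finset.mul_sum]
      ring
    rw [him, e0]
    congr 1
    refine Finset.sum_congr rfl fun p _ => ?_
    simp only [hG2]
    rw [map_mul, map_mul, map_pow, map_div₀, map_neg, Complex.conj_I, Complex.conj_ofReal]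
    have e3 : v ^ (w + 2 * r + 1) = v ^ w * v ^ (2 * r + 1) := by
      rw [← pow_add]
      congr 1
    have e4 : (1 : ℂ) / q = (-Complex.I / Real.sqrt q) * (- -Complex.I / Real.sqrt q) := by
      rw [← hsq, div_mul_div_comm, ← pow_two, neg_neg, neg_mul, Complex.I_mul_I, neg_neg]
    rw [e3, e4, div_pow, mul_pow]
    field_simp
  have htr : ∀ u : ℂ, 0 < u.im → tr q w (HH q χ w r ψ c (-r)) u =
      ∑ p : ClassGroup (𝓞 F) × ClassGroup (𝓞 F), (C0 * (ψ (c.R p.1 : Ideal (𝓞 F)))⁻¹) *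
        (1 / ((1 : ℕ) : ℂ) * ∑ j ∈ Finset.range 1, G1 p (u + j) +
          1 / (q : ℂ) * ∑ j ∈ Finset.range q, G2 p (u + j)) := by
    intro u hu
    unfold tr
    have e1 : ∀ j ∈ Finset.range q, ((u + j) ^ w)⁻¹ * HH q χ w r ψ c (-r) (-1 / (u + j)) =
        ∑ p : ClassGroup (𝓞 F) × ClassGroup (𝓞 F), (C0 * (ψ (c.R p.1 : Ideal (𝓞 F)))⁻¹) *
          (1 / (q : ℂ) * G2 p (u + j)) := by
      intro j _
      have hv : 0 < (u + j).im := by simpa using hu
      have hv0 : (u + j) ^ w ≠ 0 := by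
        refine pow_ne_zero _ fun h => ?_
        rw [h] at hv
        simp at hv
      rw [hH2 _ hv, inv_mul_cancel_left₀ hv0, Finset.mul_sum, Finset.mul_sum]
      refine Finset.sum_congr rfl fun p _ => ?_
      ring
    rw [Finset.sum_congr rfl e1, Finset.sum_comm, hH1 u hu, Finset.mul_sum,
      ← Finset.sum_add_distrib]
    refine Finset.sum_congr rfl fun p _ => ?_
    rw [← Finset.mul_sum, ← Finset.mul_sum, Finset.sum_range_one]
    simp only [Nat.cast_one, Nat.cast_zero, add_zero, div_one, one_mul]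
    ring
  -- continuity
  have hc1 : ∀ p, ContinuousOn (G1 p) {u | 0 < u.im} := by
    intro p
    refine (((hB p.1).2.2.1).mul (Complex.continuous_conj.comp_continuousOn
      (hB p.2).2.2.2.2.1)).mul ?_
    exact (by fun_prop : Continuous fun u : ℂ => (u.im : ℂ) ^ (2 * r + 1)).continuousOn
  have hc2 : ∀ p, ContinuousOn (G2 p) {u | 0 < u.im} := by
    intro p
    refine (((hB p.1).2.2.2.1).mul (Complex.continuous_conj.comp_continuousOn
      (hB p.2).2.2.2.2.2.1)).mul ?_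
    exact (by fun_prop : Continuous fun u : ℂ => (u.im : ℂ) ^ (2 * r + 1)).continuousOn
  -- the integrals
  set Z1 : ClassGroup (𝓞 F) × ClassGroup (𝓞 F) → ℝ → ℂ := fun p y =>
    (∫ x in (0 : ℝ)..1, (1 / ((1 : ℕ) : ℂ) * ∑ j ∈ Finset.range 1,
      G1 p ((x : ℂ) + y * Complex.I + j)) * ee (-(m : ℂ) * (x - y * Complex.I))) *
        (y : ℂ) ^ (w - 2) with hZ1
  set Z2 : ClassGroup (𝓞 F) × ClassGroup (𝓞 F) → ℝ → ℂ := fun p y =>
    (∫ x in (0 : ℝ)..1, (1 / (q : ℂ) * ∑ j ∈ Finset.range q,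
      G2 p ((x : ℂ) + y * Complex.I + j)) * ee (-(m : ℂ) * (x - y * Complex.I))) *
        (y : ℂ) ^ (w - 2) with hZ2
  have hpt : ∀ y : ℝ, 0 < y → (∫ x in (0 : ℝ)..1,
      tr q w (HH q χ w r ψ c (-r)) ((x : ℂ) + y * Complex.I) *
        ee (-(m : ℂ) * (x - y * Complex.I))) * (y : ℂ) ^ (w - 2) =
      ∑ p : ClassGroup (𝓞 F) × ClassGroup (𝓞 F), (C0 * (ψ (c.R p.1 : Ideal (𝓞 F)))⁻¹) *
        (Z1 p y + Z2 p y) := by
    intro y hy
    have e1 : ∫ x in (0 : ℝ)..1, tr q w (HH q χ w r ψ c (-r)) ((x : ℂ) + y * Complex.I) *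
        ee (-(m : ℂ) * (x - y * Complex.I)) =
        ∫ x in (0 : ℝ)..1, ∑ p : ClassGroup (𝓞 F) × ClassGroup (𝓞 F),
          (C0 * (ψ (c.R p.1 : Ideal (𝓞 F)))⁻¹) *
          ((1 / ((1 : ℕ) : ℂ) * ∑ j ∈ Finset.range 1, G1 p ((x : ℂ) + y * Complex.I + j)) *
            ee (-(m : ℂ) * (x - y * Complex.I)) +
          (1 / (q : ℂ) * ∑ j ∈ Finset.range q, G2 p ((x : ℂ) + y * Complex.I + j)) *
            ee (-(m : ℂ) * (x - y * Complex.I))) := by
      refine intervalIntegral.integral_congr fun x _ => ?_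
      rw [htr _ (by simpa using hy), Finset.sum_mul]
      refine Finset.sum_congr rfl fun p _ => ?_
      ring
    have c1 := fun p => (cont_x (hc1 p) 1 m y hy).intervalIntegrable (μ := volume) 0 1
    have c2 := fun p => (cont_x (hc2 p) q m y hy).intervalIntegrable (μ := volume) 0 1
    rw [e1, intervalIntegral.integral_finsetSum
      (fun p _ => ((c1 p).add (c2 p)).const_mul _), Finset.sum_mul]
    refine Finset.sum_congr rfl fun p _ => ?_
    rw [intervalIntegral.integral_const_mul, intervalIntegral.integral_add (c1 p) (c2 p)]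
    simp only [hZ1, hZ2]
    ring
  have hcount : ∀ A, Countable (c.R A : Ideal (𝓞 F)) := fun A => countable_ideal σ (c.bas A)
  have hsp := fun A => summable_pt σ (c.bas A)
  have hsb : ∀ A, ∀ t : ℝ, 0 < t → Summable fun x : (c.R A : Ideal (𝓞 F)) =>
      Real.exp (-(t * Qa σ (c.R A : Ideal (𝓞 F)) x)) := by
    intro A t ht
    have h := (hB0 A).2.1 t ht
    simpa using h
  have hV1 : ∀ p, IntegrableOn (Z1 p) (Ioi 0) ∧ ∫ y in Ioi (0 : ℝ), Z1 p y =
      (((w + r - 1).factorial : ℂ) * ((4 * Real.pi : ℂ) ^ (w + r))⁻¹) *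
        ∑' z : {z : (c.R p.1 : Ideal (𝓞 F)) × (c.R p.2 : Ideal (𝓞 F)) //
          Qa σ (c.R p.1 : Ideal (𝓞 F)) z.1 - Qa σ (c.R p.2 : Ideal (𝓞 F)) z.2 = m},
          PT w r σ (c.R p.1 : Ideal (𝓞 F)) (c.R p.2 : Ideal (𝓞 F)) z.1.1 z.1.2 := by
    intro p
    have hca := hcount p.1
    have hcb := hcount p.2
    have h := main_N h5 σ (c.R p.1 : Ideal (𝓞 F)) (c.R p.2 : Ideal (𝓞 F)) (hR _) (hR _) w r 1 m
      hw one_pos hm 1 (m : ℝ) (by simp) (th σ (c.R p.1 : Ideal (𝓞 F)) (w + 2 * r))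
      (thl σ (c.R p.2 : Ideal (𝓞 F)) r)
      (fun u => by
        unfold th
        refine tsum_congr fun x => ?_
        rw [Nat.cast_one, div_one, one_mul])
      (fun u => by
        unfold thl
        simp only [Nat.cast_one, div_one])
      (hB p.1).1 (hB p.2).1 (hB p.1).2.1 (hsb p.2) (hsp p.1) (hsp p.2)
    refine ⟨h.1, ?_⟩
    have h' := h.2
    simp only [Nat.cast_one, one_pow, one_mul] at h'
    simp only [hZ1, hG1, Nat.cast_one]
    exact h'
  have hV2 : ∀ p, IntegrableOn (Z2 p) (Ioi 0) ∧ ∫ y in Ioi (0 : ℝ), Z2 p y =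
      ((Complex.I * Real.sqrt q) ^ (w + 2 * r))⁻¹ * (q : ℂ) ^ (w + r) *
      (((w + r - 1).factorial : ℂ) * ((4 * Real.pi : ℂ) ^ (w + r))⁻¹) *
        ∑' z : {z : (c.R p.1 : Ideal (𝓞 F)) × (c.R p.2 : Ideal (𝓞 F)) //
          Qa σ (c.R p.1 : Ideal (𝓞 F)) z.1 - Qa σ (c.R p.2 : Ideal (𝓞 F)) z.2 = q * m},
          PT w r σ (c.R p.1 : Ideal (𝓞 F)) (c.R p.2 : Ideal (𝓞 F)) z.1.1 z.1.2 := by
    intro p
    have hca := hcount p.1
    have hcb := hcount p.2
    exact main_N h5 σ (c.R p.1 : Ideal (𝓞 F)) (c.R p.2 : Ideal (𝓞 F)) (hR _) (hR _) w r q m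
      hw hqpos hm (((Complex.I * Real.sqrt q) ^ (w + 2 * r))⁻¹) (q * m : ℝ) rfl
      (thS q σ (c.R p.1 : Ideal (𝓞 F)) (w + 2 * r))
      (thlS q σ (c.R p.2 : Ideal (𝓞 F)) r)
      (fun u => by
        unfold thS
        refine tsum_congr fun x => ?_
        rw [div_pow]
        ring)
      (fun u => by
        unfold thlS
        rfl)
      (hB p.1).1 (hB p.2).1 (hB p.1).2.1 (hsb p.2) (hsp p.1) (hsp p.2)
  unfold JJ
  rw [setIntegral_congr_fun measurableSet_Ioi fun y hy => hpt y hy]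
  have hint : ∀ p ∈ (Finset.univ : Finset (ClassGroup (𝓞 F) × ClassGroup (𝓞 F))),
      Integrable (fun y : ℝ => (C0 * (ψ (c.R p.1 : Ideal (𝓞 F)))⁻¹) * (Z1 p y + Z2 p y))
        (volume.restrict (Ioi 0)) := fun p _ =>
    Integrable.const_mul (Integrable.add (hV1 p).1 (hV2 p).1) _
  rw [integral_finsetSum _ hint]
  have hfin : ∀ p : ClassGroup (𝓞 F) × ClassGroup (𝓞 F),
      ∫ y in Ioi (0 : ℝ), (C0 * (ψ (c.R p.1 : Ideal (𝓞 F)))⁻¹) * (Z1 p y + Z2 p y) =
      C0 * (((w + r - 1).factorial : ℂ) * ((4 * Real.pi : ℂ) ^ (w + r))⁻¹) *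
        ((ψ (c.R p.1 : Ideal (𝓞 F)))⁻¹ *
          SS q w r m σ (c.R p.1 : Ideal (𝓞 F)) (c.R p.2 : Ideal (𝓞 F))) := by
    intro p
    rw [integral_const_mul, integral_add (hV1 p).1 (hV2 p).1, (hV1 p).2, (hV2 p).2]
    unfold SS
    ring
  rw [Finset.sum_congr rfl fun p _ => hfin p, ← Finset.mul_sum, Fintype.sum_prod_type]
  simp only [hC0]
  ring

end RZ

end Pool.Agent.Lib.MP_7c08ba_nt
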