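import Pool.Agent.Lib.MP_7c08ba_nt.RZ.JmP
import Pool.Agent.Lib.MP_7c08ba_nt.RZ.StH

set_option autoImplicit false

/-!
(H30) the integrals `JJ` as sums over pairs, all cusps, even discriminants.
-/

namespace Pool.Agent.Lib.MP_7c08ba_nt

namespace RZ

open NumberField MeasureTheory UpperHalfPlane Set
open scoped MatrixGroups ComplexConjugate nonZeroDivisors

namespace JmEX

open JmX

/-- the second series, with coefficients -/
noncomputable def SC {κ : Type} (r : ℕ) (c' : κ → ℂ) (Q : κ → ℝ) (u : ℂ) : ℂ :=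
  ((u.im : ℂ) ^ r)⁻¹ * ∑' i, c' i * lag r (4 * Real.pi * Q i * u.im) * ee (Q i * u)

/-- the terms of the product, without phase -/
noncomputable def TQ {ι κ : Type} (r : ℕ) (c : ι → ℂ) (c' : κ → ℂ) (Q : ι → ℝ) (Q' : κ → ℝ)
    (y : ℝ) (p : ι × κ) : ℂ :=
  conj (c' p.2) * TP r c Q Q' y p

section

variable {ι κ : Type} {r : ℕ} {c : ι → ℂ} {c' : κ → ℂ} {Q : ι → ℝ} {Q' : κ → ℝ}

theorem summ_TQ (h1 : ∀ t : ℝ, 0 < t → Summable fun i => ‖c i‖ * Real.exp (-(t * Q i)))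
    (h2 : ∀ t : ℝ, 0 < t → Summable fun i => Real.exp (-(t * Q' i)))
    (hQ' : ∀ j, 0 ≤ Q' j) (hc' : ∀ j, ‖c' j‖ ≤ 1) {y : ℝ} (hy : 0 < y) :
    Summable fun p => ‖TQ r c c' Q Q' y p‖ := by
  refine Summable.of_nonneg_of_le (fun p => norm_nonneg _) (fun p => ?_)
    (summ_TP (r := r) (c := c) h1 h2 hQ' hy)
  unfold TQ
  rw [norm_mul, RCLike.norm_conj]
  exact mul_le_of_le_one_left (norm_nonneg _) (hc' _)

theorem prod_eq' (h1 : ∀ t : ℝ, 0 < t → Summable fun i => ‖c i‖ * Real.exp (-(t * Q i)))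
    (h2 : ∀ t : ℝ, 0 < t → Summable fun i => Real.exp (-(t * Q' i)))
    (hQ' : ∀ j, 0 ≤ Q' j) (hc' : ∀ j, ‖c' j‖ ≤ 1) {y : ℝ} (hy : 0 < y) (t : ℝ) :
    SA c Q (t + y * Complex.I) * conj (SC r c' Q' (t + y * Complex.I)) =
      ((y : ℂ) ^ r)⁻¹ * ∑' p : ι × κ, TQ r c c' Q Q' y p * ee ((Q p.1 - Q' p.2 : ℝ) * (t : ℂ)) := by
  have him : ((t : ℂ) + y * Complex.I).im = y := by simp
  have hB : Summable fun j => ‖lag r (4 * Real.pi * Q' j * y)‖ * Real.exp (-(2 * Real.pi * Q' j * y)) :=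
    summ_B h2 hQ' hy
  have hA := h1 (2 * Real.pi * y) (by positivity)
  unfold SA SC
  rw [him, map_mul, map_inv₀, map_pow, Complex.conj_ofReal, Complex.conj_tsum]
  have hfA : Summable fun i => ‖c i * ee (Q i * ((t : ℂ) + y * Complex.I))‖ := by
    refine hA.congr fun i => ?_
    rw [norm_mul, ThBAux.norm_ee, him]
    congr 2
    ring
  have hfB : Summable fun j => ‖conj (c' j * lag r (4 * Real.pi * Q' j * y) *
      ee (Q' j * ((t : ℂ) + y * Complex.I)))‖ := by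
    refine Summable.of_nonneg_of_le (fun p => norm_nonneg _) (fun j => ?_) hB
    rw [RCLike.norm_conj, norm_mul, norm_mul, ThBAux.norm_ee, him, mul_assoc]
    exact mul_le_of_le_one_left (by positivity) (hc' _)
  have h3 := tsum_mul_tsum_of_summable_norm hfA hfB
  rw [mul_left_comm, h3]
  congr 1
  refine tsum_congr fun p => ?_
  have e1 : (4 * (Real.pi : ℂ) * Q' p.2 * y) = ((4 * Real.pi * Q' p.2 * y : ℝ) : ℂ) := by
    push_cast
    ring
  unfold TQ TP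
  rw [map_mul, map_mul, e1, lag_real, PetX.conj_ee]
  have e2 : ee (Q p.1 * ((t : ℂ) + y * Complex.I)) * ee (-conj (Q' p.2 * ((t : ℂ) + y * Complex.I))) =
      Real.exp (-(2 * Real.pi * (Q p.1 + Q' p.2) * y)) * ee ((Q p.1 - Q' p.2 : ℝ) * (t : ℂ)) := by
    unfold ee
    rw [Complex.ofReal_exp, ← Complex.exp_add, ← Complex.exp_add]
    congr 1
    simp only [map_mul, map_add, Complex.conj_ofReal, Complex.conj_I]
    push_cast
    linear_combination (2 * Real.pi * (Q p.1 + Q' p.2) * y : ℂ) * Complex.I_sq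
  calc _ = conj (c' p.2) * (c p.1 * lag r ((4 * Real.pi * Q' p.2 * y : ℝ) : ℂ)) *
        (ee (Q p.1 * ((t : ℂ) + y * Complex.I)) * ee (-conj (Q' p.2 * ((t : ℂ) + y * Complex.I)))) := by
        ring
    _ = _ := by rw [e2]; ring

theorem inner' [Countable ι] [Countable κ]
    (h1 : ∀ t : ℝ, 0 < t → Summable fun i => ‖c i‖ * Real.exp (-(t * Q i)))
    (h2 : ∀ t : ℝ, 0 < t → Summable fun i => Real.exp (-(t * Q' i)))
    (hQ' : ∀ j, 0 ≤ Q' j) (hc' : ∀ j, ‖c' j‖ ≤ 1) (G : ℕ) (hG : 1 ≤ G)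
    (hint : ∀ i j, ∃ n : ℤ, (G : ℝ) * (Q i - Q' j) = n) (m : ℕ) {y : ℝ} (hy : 0 < y) :
    IntervalIntegrable (fun x : ℝ => (∑ j ∈ Finset.range G, SA c Q (x + y * Complex.I + j) *
      conj (SC r c' Q' (x + y * Complex.I + j))) * ee (-(m : ℂ) * (x - y * Complex.I)))
      volume 0 1 ∧
    ∫ x in (0 : ℝ)..1, (∑ j ∈ Finset.range G, SA c Q (x + y * Complex.I + j) *
      conj (SC r c' Q' (x + y * Complex.I + j))) * ee (-(m : ℂ) * (x - y * Complex.I)) =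
      G * ((y : ℂ) ^ r)⁻¹ * ∑' p : {p : ι × κ // Q p.1 - Q' p.2 = m},
        c p.1.1 * conj (c' p.1.2) * lag r (4 * Real.pi * Q' p.1.2 * y) *
          Complex.exp (-(4 * Real.pi * Q p.1.1 * y)) := by
  have hG0 : (G : ℝ) ≠ 0 := by
    have : G ≠ 0 := by omega
    exact_mod_cast this
  have hG0' : (G : ℂ) ≠ 0 := by exact_mod_cast hG0
  choose n hn using hint
  have hT := summ_TQ (r := r) h1 h2 hQ' hc' hy
  set K : ℂ := ((y : ℂ) ^ r)⁻¹ * ee (m * (y * Complex.I)) with hK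
  let F : ι × κ → ℝ → ℂ := fun p x => TQ r c c' Q Q' y p * ∑ j ∈ Finset.range G,
    (ee ((n p.1 p.2 : ℂ) / G * (x + j - ((0 : ℤ) : ℂ))) * ee (-((m : ℤ) : ℂ) * x))
  have hQn : ∀ (p : ι × κ), ((Q p.1 - Q' p.2 : ℝ) : ℂ) = (n p.1 p.2 : ℂ) / G := by
    intro p
    rw [eq_div_iff hG0']
    have := hn p.1 p.2
    rw [mul_comm]
    exact_mod_cast this
  have hinteg : ∀ x : ℝ, (∑ j ∈ Finset.range G, SA c Q (x + y * Complex.I + j) *
      conj (SC r c' Q' (x + y * Complex.I + j))) * ee (-(m : ℂ) * (x - y * Complex.I)) =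
      K * ∑' p, F p x := by
    intro x
    have e1 : ∀ j ∈ Finset.range G, SA c Q (x + y * Complex.I + j) *
      conj (SC r c' Q' (x + y * Complex.I + j)) = ((y : ℂ) ^ r)⁻¹ *
        ∑' p : ι × κ, TQ r c c' Q Q' y p * ee ((n p.1 p.2 : ℂ) / G * (x + j - ((0 : ℤ) : ℂ))) := by
      intro j _
      have e2 : ((x : ℂ) + y * Complex.I + j) = ((x + j : ℝ) : ℂ) + y * Complex.I := by
        push_cast
        ring
      rw [e2, prod_eq' h1 h2 hQ' hc' hy]
      congr 1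
      refine tsum_congr fun p => ?_
      rw [hQn]
      push_cast
      rw [sub_zero]
    have hs : ∀ j ∈ Finset.range G, Summable fun p : ι × κ =>
        TQ r c c' Q Q' y p * ee ((n p.1 p.2 : ℂ) / G * (x + j - ((0 : ℤ) : ℂ))) := by
      intro j _
      refine Summable.of_norm (hT.congr fun p => ?_)
      rw [norm_mul]
      have e3 : ((n p.1 p.2 : ℂ) / G * (x + j - ((0 : ℤ) : ℂ))) =
          (((n p.1 p.2 : ℝ) / G * (x + j) : ℝ) : ℂ) := by push_cast; ring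
      rw [e3, ee_re, mul_one]
    rw [Finset.sum_congr rfl e1, ← Finset.mul_sum, ← Summable.tsum_finsetSum hs]
    have e4 : ee (-(m : ℂ) * (x - y * Complex.I)) = ee (m * (y * Complex.I)) * ee (-((m : ℤ) : ℂ) * x) := by
      rw [← ee_add']
      congr 1
      push_cast
      ring
    rw [e4, hK]
    have e5 : ((y : ℂ) ^ r)⁻¹ * (∑' b : ι × κ, ∑ j ∈ Finset.range G,
          TQ r c c' Q Q' y b * ee ((n b.1 b.2 : ℂ) / G * (x + j - ((0 : ℤ) : ℂ)))) *
          (ee (m * (y * Complex.I)) * ee (-((m : ℤ) : ℂ) * x)) =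
        ((y : ℂ) ^ r)⁻¹ * ee (m * (y * Complex.I)) * ((∑' b : ι × κ, ∑ j ∈ Finset.range G,
          TQ r c c' Q Q' y b * ee ((n b.1 b.2 : ℂ) / G * (x + j - ((0 : ℤ) : ℂ)))) *
            ee (-((m : ℤ) : ℂ) * x)) := by
      ring
    rw [e5, ← tsum_mul_right]
    congr 1
    refine tsum_congr fun p => ?_
    simp only [F]
    rw [Finset.mul_sum, Finset.sum_mul]
    refine Finset.sum_congr rfl fun j _ => ?_
    ring
  simp_rw [hinteg]
  rw [intervalIntegral.integral_const_mul]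
  have hcont : ∀ p, Continuous (F p) := by
    intro p
    simp only [F]
    refine continuous_const.mul (continuous_finsetSum _ fun j _ => ?_)
    refine (ThBAux.ee_cont.comp ?_).mul (ThBAux.ee_cont.comp ?_)
    · fun_prop
    · fun_prop
  have hnorm : ∀ p x, ‖F p x‖ ≤ G * ‖TQ r c c' Q Q' y p‖ := by
    intro p x
    simp only [F]
    rw [norm_mul, mul_comm]
    gcongr
    refine le_trans (norm_sum_le _ _) ?_
    refine le_trans (Finset.sum_le_sum (g := fun _ => (1 : ℝ)) fun j _ => ?_) (by simp)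
    rw [norm_mul]
    have e3 : ((n p.1 p.2 : ℂ) / G * (x + j - ((0 : ℤ) : ℂ))) =
        (((n p.1 p.2 : ℝ) / G * (x + j) : ℝ) : ℂ) := by push_cast; ring
    have e4 : (-((m : ℤ) : ℂ) * x) = ((-(m : ℝ) * x : ℝ) : ℂ) := by push_cast; ring
    rw [e3, e4, ee_re, ee_re, one_mul]
  have hFi : ∀ p, Integrable (F p) (volume.restrict (Ioc (0 : ℝ) 1)) := fun p =>
    ((hcont p).integrableOn_Icc (a := 0) (b := 1)).mono_set Ioc_subset_Icc_self
  have hFs : Summable fun p => ∫ x in Ioc (0 : ℝ) 1, ‖F p x‖ := by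
    refine Summable.of_nonneg_of_le (fun p => integral_nonneg fun _ => norm_nonneg _) (fun p => ?_)
      (hT.mul_left (G : ℝ))
    have := norm_setIntegral_le_of_norm_le_const (μ := volume) (s := Ioc (0 : ℝ) 1)
      (f := fun x => ‖F p x‖) (C := G * ‖TQ r c c' Q Q' y p‖) (by simp)
      (fun x _ => by rw [norm_norm]; exact hnorm p x)
    rw [Real.norm_of_nonneg (integral_nonneg fun _ => norm_nonneg _)] at this
    simpa using this
  refine ⟨?_, ?_⟩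
  · rw [intervalIntegrable_iff_integrableOn_Ioc_of_le zero_le_one]
    exact (integrable_tsum hFi hFs).const_mul K
  have hsum := hasSum_integral_of_summable_integral_norm hFi hFs
  have hI : ∀ p, ∫ x in Ioc (0 : ℝ) 1, F p x = TQ r c c' Q Q' y p *
      (if n p.1 p.2 = G * (m : ℤ) then (G : ℂ) else 0) := by
    intro p
    rw [← intervalIntegral.integral_of_le zero_le_one]
    simp only [F]
    rw [intervalIntegral.integral_const_mul, intervalIntegral.integral_finsetSum]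
    · rw [phase G hG]
    · intro j _
      refine Continuous.intervalIntegrable ?_ _ _
      refine (ThBAux.ee_cont.comp ?_).mul (ThBAux.ee_cont.comp ?_)
      · fun_prop
      · fun_prop
  rw [intervalIntegral.integral_of_le zero_le_one, ← hsum.tsum_eq]
  simp_rw [hI]
  have e6 : ∀ p : ι × κ, TQ r c c' Q Q' y p * (if n p.1 p.2 = G * (m : ℤ) then (G : ℂ) else 0) =
      G * Set.indicator {p : ι × κ | Q p.1 - Q' p.2 = m} (TQ r c c' Q Q' y) p := by
    intro p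
    have hiff : n p.1 p.2 = G * (m : ℤ) ↔ Q p.1 - Q' p.2 = m := by
      constructor
      · intro h3
        have h4 := hn p.1 p.2
        rw [h3] at h4
        push_cast at h4
        exact mul_left_cancel₀ hG0 h4
      · intro h3
        have h4 := hn p.1 p.2
        rw [h3] at h4
        exact_mod_cast h4.symm
    by_cases h5 : Q p.1 - Q' p.2 = m
    · rw [if_pos (hiff.2 h5), Set.indicator_of_mem (by exact h5)]
      ring
    · rw [if_neg (fun h6 => h5 (hiff.1 h6)), Set.indicator_of_notMem (by exact h5)]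
      ring
  simp_rw [e6]
  rw [tsum_mul_left, ← tsum_subtype]
  rw [hK]
  have e7 : ∀ p : {p : ι × κ // Q p.1 - Q' p.2 = m}, ee (m * (y * Complex.I)) * TQ r c c' Q Q' y p.1 =
      c p.1.1 * conj (c' p.1.2) * lag r (4 * Real.pi * Q' p.1.2 * y) *
        Complex.exp (-(4 * Real.pi * Q p.1.1 * y)) := by
    intro p
    unfold TQ TP ee
    have h7 := p.2
    have h8 : (Q' p.1.2 : ℂ) = Q p.1.1 - m := by
      have : Q' p.1.2 = Q p.1.1 - m := by linarith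
      rw [this]
      push_cast
      ring
    have e8 : Complex.exp (2 * Real.pi * Complex.I * (m * (y * Complex.I))) *
        ((Real.exp (-(2 * Real.pi * (Q p.1.1 + Q' p.1.2) * y)) : ℝ) : ℂ) =
        Complex.exp (-(4 * Real.pi * Q p.1.1 * y)) := by
      rw [Complex.ofReal_exp, ← Complex.exp_add]
      congr 1
      push_cast
      rw [h8]
      linear_combination (2 * Real.pi * m * y : ℂ) * Complex.I_sq
    rw [← e8]
    ring
  have e9 : ∑' p : {p : ι × κ // Q p.1 - Q' p.2 = m},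
        c p.1.1 * conj (c' p.1.2) * lag r (4 * Real.pi * Q' p.1.2 * y) *
          Complex.exp (-(4 * Real.pi * Q p.1.1 * y)) =
      ee (m * (y * Complex.I)) * ∑' p : {p : ι × κ // Q p.1 - Q' p.2 = m}, TQ r c c' Q Q' y p.1 := by
    rw [← tsum_mul_left]
    exact tsum_congr fun p => (e7 p).symm
  rw [e9]
  have e10 : (∑' x : ({p : ι × κ | Q p.1 - Q' p.2 = m} : Set (ι × κ)), TQ r c c' Q Q' y ↑x) =
      ∑' p : {p : ι × κ // Q p.1 - Q' p.2 = m}, TQ r c c' Q Q' y p.1 := rfl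
  rw [e10]
  ring

end

/-! ### The cusps -/

theorem Dpos' {D : ℕ} (hD : EvD D) : 0 < D := by
  have := hD.1
  omega

theorem sq_dvd {D d : ℕ} (hD : EvD D) (hd : d * d ∣ D) : d ∣ 2 := by
  obtain ⟨-, n, rfl, hn, -⟩ := hD
  rcases Nat.even_or_odd' d with ⟨e, rfl | rfl⟩
  · have h1 : e * e ∣ n := by
      have h2 : 4 * (e * e) ∣ 4 * n := by
        convert hd using 1
        ring
      exact Nat.dvd_of_mul_dvd_mul_left (by norm_num) h2
    have h3 := Nat.isUnit_iff.1 (hn e h1)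
    rw [h3]
  · have hco : Nat.Coprime ((2 * e + 1) * (2 * e + 1)) 4 := by
      have h5 : Nat.Coprime (2 * e + 1) 4 := by
        have : Nat.Coprime (2 * e + 1) (2 ^ 2) := by
          apply Nat.Coprime.pow_right
          simp
        simpa using this
      exact Nat.Coprime.mul_left h5 h5
    have h1 := hco.dvd_of_dvd_mul_left hd
    have h3 := Nat.isUnit_iff.1 (hn _ h1)
    rw [h3]
    norm_num

theorem two_eq (m : ℕ) : twop m * oddp m = m := Nat.ordProj_mul_ordCompl_eq_self m 2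

theorem cop_two (m : ℕ) (hm : m ≠ 0) (k : ℕ) : Nat.Coprime (2 ^ k) (oddp m) := by
  apply Nat.Coprime.pow_left
  exact Nat.coprime_ordCompl Nat.prime_two hm

theorem supE_sub {D g : ℕ} (hg : g ∣ D) {n : ℤ} (m : ℕ) (h : supE D g n) :
    supE D g (n - D * m) := by
  refine ⟨?_, ?_⟩
  · refine dvd_sub h.1 ?_
    refine Dvd.dvd.mul_right ?_ _
    have : oddp g ∣ D := (Nat.ordCompl_dvd g 2).trans hg
    exact_mod_cast this
  · rcases h.2 with h2 | h2
    · exact Or.inl h2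
    · right
      rw [← h2]
      have h3 : (twop D : ℤ) ∣ D * m := by
        refine Dvd.dvd.mul_right ?_ _
        have : twop D ∣ D := Nat.ordProj_dvd D 2
        exact_mod_cast this
      apply Nat.dvd_antisymm
      · apply Int.dvd_gcd
        · have h4 := Int.gcd_dvd_left (a := n - D * m) (b := (twop D : ℤ))
          have h5 := Int.gcd_dvd_right (a := n - D * m) (b := (twop D : ℤ))
          have := dvd_add h4 (h5.trans h3)
          simpa using this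
        · exact Int.gcd_dvd_right ..
      · apply Int.dvd_gcd
        · have h4 := Int.gcd_dvd_left (a := n) (b := (twop D : ℤ))
          have h5 := Int.gcd_dvd_right (a := n) (b := (twop D : ℤ))
          exact dvd_sub h4 (h5.trans h3)
        · exact Int.gcd_dvd_right ..

theorem twop_dvd {D g : ℕ} {n : ℤ} (hn : supE D g n) : (twop g : ℤ) ∣ n := by
  rcases hn.2 with h | h
  · have h1 : twop g = 1 := by
      unfold twop
      rw [Nat.factorization_eq_zero_of_not_dvd (fun h2 => by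
        have := h.not_two_dvd_nat
        exact this h2)]
      simp
    rw [h1]
    simp
  · rw [← h]
    exact Int.gcd_dvd_left ..

theorem g_dvd {D g : ℕ} (hg0 : g ≠ 0) {n : ℤ} (hn : supE D g n) : (g : ℤ) ∣ n := by
  have h1 := twop_dvd hn
  have h2 := hn.1
  have h3 : IsCoprime (twop g : ℤ) (oddp g : ℤ) := by
    rw [Nat.isCoprime_iff_coprime]
    exact cop_two g hg0 _
  have h4 := h3.mul_dvd h1 h2
  have h5 : ((twop g : ℤ) * (oddp g : ℤ)) = g := by exact_mod_cast two_eq g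
  rwa [h5] at h4

theorem width_facts {D g : ℕ} (hD : EvD D) (hg : g ∣ D) :
    g * Nat.gcd g (D / g) ∣ D ∧ ∀ n n' : ℤ, supE D g n → supE D g n' →
      ((g * Nat.gcd g (D / g) : ℕ) : ℤ) ∣ n - n' := by
  have hD0 := Dpos' hD
  have hg0 : g ≠ 0 := (Nat.pos_of_dvd_of_pos hg hD0).ne'
  have h1 : g * (D / g) = D := Nat.mul_div_cancel' hg
  refine ⟨?_, fun n n' hn hn' => ?_⟩
  · conv_rhs => rw [← h1]
    exact Nat.mul_dvd_mul_left _ (Nat.gcd_dvd_right _ _)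
  · have h2 : Nat.gcd g (D / g) ∣ 2 := by
      refine sq_dvd hD ?_
      conv_rhs => rw [← h1]
      exact Nat.mul_dvd_mul (Nat.gcd_dvd_left _ _) (Nat.gcd_dvd_right _ _)
    rcases (Nat.dvd_prime Nat.prime_two).1 h2 with h3 | h3
    · rw [h3, mul_one]
      exact dvd_sub (g_dvd hg0 hn) (g_dvd hg0 hn')
    · rw [h3]
      have h4 : 2 ∣ g := by rw [← h3]; exact Nat.gcd_dvd_left _ _
      have h5 : g * 2 ∣ D := by
        conv_rhs => rw [← h1]
        refine Nat.mul_dvd_mul_left _ ?_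
        rw [← h3]
        exact Nat.gcd_dvd_right _ _
      have hodd : ¬ Odd g := by
        rw [Nat.not_odd_iff_even]
        exact (even_iff_two_dvd).2 h4
      set j := g.factorization 2 with hj
      have htg : twop g = 2 ^ j := rfl
      have h6 : 2 ^ (j + 1) ∣ twop D := by
        have h7 : 2 ^ (j + 1) ∣ D := by
          refine dvd_trans ?_ h5
          rw [pow_succ]
          exact Nat.mul_dvd_mul_right (by rw [← htg]; exact Nat.ordProj_dvd g 2) _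
        have h8 := (Nat.Prime.pow_dvd_iff_le_factorization Nat.prime_two hD0.ne').1 h7
        exact pow_dvd_pow _ h8
      have key : ∀ k : ℤ, supE D g k → ∃ a : ℤ, Odd a ∧ k = 2 ^ j * a := by
        intro k hk
        obtain ⟨a, ha⟩ := twop_dvd hk
        refine ⟨a, ?_, by rw [ha, htg]; push_cast; ring⟩
        by_contra hev
        rw [Int.not_odd_iff_even] at hev
        obtain ⟨b, hb⟩ := hev
        have h9 : ((2 ^ (j + 1) : ℕ) : ℤ) ∣ k := by
          rw [ha, htg, hb]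
          exact ⟨b, by push_cast; ring⟩
        have h10 : 2 ^ (j + 1) ∣ Int.gcd k (twop D) :=
          Int.dvd_gcd h9 (by exact_mod_cast h6)
        rcases hk.2 with h11 | h11
        · exact hodd h11
        · rw [h11, htg] at h10
          have := Nat.le_of_dvd (by positivity) h10
          have h12 : 2 ^ j < 2 ^ (j + 1) := Nat.pow_lt_pow_right (by norm_num) (by omega)
          omega
      obtain ⟨a, hao, ha⟩ := key n hn
      obtain ⟨b, hbo, hb⟩ := key n' hn'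
      obtain ⟨e, he⟩ := hao.sub_odd hbo
      have h9 : ((2 ^ (j + 1) : ℕ) : ℤ) ∣ n - n' := by
        refine ⟨e, ?_⟩
        rw [ha, hb, ← mul_sub, he]
        push_cast
        ring
      have h10 : (oddp g : ℤ) ∣ n - n' := dvd_sub hn.1 hn'.1
      have h11 : IsCoprime ((2 ^ (j + 1) : ℕ) : ℤ) (oddp g : ℤ) := by
        rw [Nat.isCoprime_iff_coprime]
        exact cop_two g hg0 _
      have h12 := h11.mul_dvd h9 h10
      have h13 : ((2 ^ (j + 1) : ℕ) : ℤ) * (oddp g : ℤ) = ((g * 2 : ℕ) : ℤ) := by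
        have h14 := two_eq g
        rw [htg] at h14
        conv_rhs => rw [← h14]
        push_cast
        ring
      rwa [h13] at h12

theorem wid_eq {D g : ℕ} (hD : EvD D) (hg : g ∣ D) :
    wid D g * (g * Nat.gcd g (D / g)) = D := Nat.div_mul_cancel (width_facts hD hg).1

theorem wid_pos {D g : ℕ} (hD : EvD D) (hg : g ∣ D) : 1 ≤ wid D g := by
  have h1 := wid_eq hD hg
  have h2 := Dpos' hD
  rcases Nat.eq_zero_or_pos (wid D g) with h3 | h3
  · rw [h3] at h1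
    omega
  · exact h3

theorem countable_of_summable {ι : Type} {f : ι → ℝ} (hf : Summable f) (h0 : ∀ i, f i ≠ 0) :
    Countable ι := by
  have h1 := hf.countable_support
  have h2 : Function.support f = Set.univ := by
    ext i
    simp [h0 i]
  rw [h2] at h1
  exact Set.countable_univ_iff.1 h1

section

variable {F : Type} [Field F] [NumberField F] {D : ℕ} {s : 𝓞 F} {σ : F →+* ℂ}
  {χ : DirichletCharacter ℂ D} {cj : 𝓞 F ≃+* 𝓞 F}

/-- the elements with norms in the support at the cusp -/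
abbrev Su (D : ℕ) (σ : F →+* ℂ) (a : Ideal (𝓞 F)) (g : ℕ) : Type :=
  {x : a // supE D g ⌊Qa σ a x⌋}

/-- the coefficient, without the function of the cusp -/
noncomputable def c0 (D : ℕ) (σ : F →+* ℂ) (a : Ideal (𝓞 F)) (g k : ℕ) (x : Su D σ a g) : ℂ :=
  (σ (x.1 : 𝓞 F) / (Complex.I * Real.sqrt D)) ^ k

/-- the function of the cusp -/
noncomputable def cQ (D : ℕ) (σ : F →+* ℂ) (a : Ideal (𝓞 F)) (g : ℕ) (Φ : ℤ → ℂ)
    (x : Su D σ a g) : ℂ :=
  Φ ⌊Qa σ a x.1⌋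

/-- the coefficient -/
noncomputable def cP (D : ℕ) (σ : F →+* ℂ) (a : Ideal (𝓞 F)) (g k : ℕ) (Φ : ℤ → ℂ)
    (x : Su D σ a g) : ℂ :=
  cQ D σ a g Φ x * c0 D σ a g k x

/-- the exponent at the cusp -/
noncomputable def qG (D : ℕ) (σ : F →+* ℂ) (a : Ideal (𝓞 F)) (g : ℕ) (x : Su D σ a g) : ℝ :=
  Qa σ a x.1 / D

theorem thP_eq {g : ℕ} {Φ : ℤ → ℂ} (hΦ : CuspF D g Φ) (a : Ideal (𝓞 F)) (k : ℕ) (u : ℂ) :
    thP D σ a Φ k u = SA (cP D σ a g k Φ) (qG D σ a g) u := by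
  unfold thP SA
  have h1 : Function.support (fun x : a => Φ ⌊Qa σ a x⌋ *
      (σ (x : 𝓞 F) / (Complex.I * Real.sqrt D)) ^ k * ee (Qa σ a x / D * u)) ⊆
      {x : a | supE D g ⌊Qa σ a x⌋} := by
    intro x hx
    by_contra h
    apply hx
    show Φ ⌊Qa σ a x⌋ * _ * _ = 0
    rw [hΦ.zero _ h]
    ring
  rw [← tsum_subtype_eq_of_support_subset h1]
  refine tsum_congr fun x => ?_
  unfold cP cQ c0 qG
  push_cast
  rfl

theorem thlP_eq {g : ℕ} {Φ : ℤ → ℂ} (hΦ : CuspF D g Φ) (a : Ideal (𝓞 F)) (r : ℕ) (u : ℂ) :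
    thlP D σ a Φ r u = SC r (cQ D σ a g Φ) (qG D σ a g) u := by
  unfold thlP SC
  congr 1
  have h1 : Function.support (fun x : a => Φ ⌊Qa σ a x⌋ *
      lag r (4 * Real.pi * (Qa σ a x / D) * u.im) * ee (Qa σ a x / D * u)) ⊆
      {x : a | supE D g ⌊Qa σ a x⌋} := by
    intro x hx
    by_contra h
    apply hx
    show Φ ⌊Qa σ a x⌋ * _ * _ = 0
    rw [hΦ.zero _ h]
    ring
  rw [← tsum_subtype_eq_of_support_subset h1]
  refine tsum_congr fun x => ?_
  unfold cQ qG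
  push_cast
  rfl

theorem normC {g : ℕ} {Φ : ℤ → ℂ} (hD : EvD D) (hg : g ∣ D) (hΦ : CuspF D g Φ)
    (a : Ideal (𝓞 F)) (x : Su D σ a g) : ‖cQ D σ a g Φ x‖ ≤ 1 := by
  have h1 := hΦ.nrm _ x.2
  have h2 : (1 : ℝ) ≤ ((wid D g : ℕ) : ℝ) := by exact_mod_cast wid_pos hD hg
  have h3 : Complex.normSq (Φ ⌊Qa σ a x.1⌋) ≤ 1 := by
    rw [h1]
    exact inv_le_one_of_one_le₀ h2
  rw [Complex.normSq_eq_norm_sq] at h3
  unfold cQ
  exact (sq_le_one_iff₀ (norm_nonneg _)).1 h3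

theorem qG_nonneg (a : Ideal (𝓞 F)) (g : ℕ) (x : Su D σ a g) : 0 ≤ qG D σ a g x := by
  unfold qG Qa
  have := Complex.normSq_nonneg (σ (x.1 : 𝓞 F))
  positivity

theorem Q_nat (h1 : StThBE) (hd : DatE D s σ χ cj) {a : Ideal (𝓞 F)} (ha : a ≠ ⊥) (x : a) :
    ∃ n : ℕ, Qa σ a x = n :=
  (h1 D F inferInstance inferInstance s σ χ cj a 0 0 (fun _ => 0) hd ha (by simp)).1 x x.2

theorem Q_floor (h1 : StThBE) (hd : DatE D s σ χ cj) {a : Ideal (𝓞 F)} (ha : a ≠ ⊥) (x : a) :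
    Qa σ a x = ((⌊Qa σ a x⌋ : ℤ) : ℝ) := by
  obtain ⟨n, hn⟩ := Q_nat h1 hd ha x
  rw [hn]
  simp

theorem sqrtD (hd : DatE D s σ χ cj) : 0 < Real.sqrt D :=
  Real.sqrt_pos.2 (by exact_mod_cast Dpos' hd.ev)

theorem norm_c0 (a : Ideal (𝓞 F)) (g k : ℕ) (x : Su D σ a g) :
    ‖c0 D σ a g k x‖ = (Real.sqrt D ^ k)⁻¹ * ‖σ (x.1 : 𝓞 F)‖ ^ k := by
  unfold c0
  rw [norm_pow, norm_div, norm_mul, Complex.norm_I, one_mul,
    Complex.norm_of_nonneg (Real.sqrt_nonneg _), div_pow]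
  ring

theorem summ_exp (h1 : StThBE) (hd : DatE D s σ χ cj) (g : ℕ)
    {a : Ideal (𝓞 F)} (ha : a ≠ ⊥) (k : ℕ) {t : ℝ} (ht : 0 < t) :
    Summable fun x : Su D σ a g =>
      (1 + ‖σ (x.1 : 𝓞 F)‖) ^ k * Real.exp (-(t * qG D σ a g x)) := by
  have hD := Dpos' hd.ev
  have h2 := (h1 D F inferInstance inferInstance s σ χ cj a k 0 (fun _ => 0) hd ha
    (by simp)).2.1 (t / D) (by positivity)
  refine (h2.comp_injective (Subtype.val_injective (p := fun x : a => supE D g ⌊Qa σ a x⌋))).congr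
    fun x => ?_
  simp only [Function.comp]
  congr 3
  unfold qG
  ring

theorem summ_c (h1 : StThBE) (hd : DatE D s σ χ cj) {g : ℕ} {Φ : ℤ → ℂ} (hg : g ∣ D)
    (hΦ : CuspF D g Φ) {a : Ideal (𝓞 F)} (ha : a ≠ ⊥) (k : ℕ) (t : ℝ) (ht : 0 < t) :
    Summable fun x : Su D σ a g =>
      ‖cP D σ a g k Φ x‖ * Real.exp (-(t * qG D σ a g x)) := by
  refine Summable.of_nonneg_of_le (fun x => by positivity) (fun x => ?_)
    ((summ_exp h1 hd g ha k ht).mul_left ((Real.sqrt D ^ k)⁻¹))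
  unfold cP
  rw [norm_mul, norm_c0, ← mul_assoc]
  have := sqrtD hd
  have h2 := normC hd.ev hg hΦ a x
  have h3 : ‖cQ D σ a g Φ x‖ * ((Real.sqrt D ^ k)⁻¹ * ‖σ (x.1 : 𝓞 F)‖ ^ k) ≤
      (Real.sqrt D ^ k)⁻¹ * (1 + ‖σ (x.1 : 𝓞 F)‖) ^ k := by
    calc ‖cQ D σ a g Φ x‖ * ((Real.sqrt D ^ k)⁻¹ * ‖σ (x.1 : 𝓞 F)‖ ^ k)
        ≤ 1 * ((Real.sqrt D ^ k)⁻¹ * ‖σ (x.1 : 𝓞 F)‖ ^ k) := by gcongr
      _ ≤ (Real.sqrt D ^ k)⁻¹ * (1 + ‖σ (x.1 : 𝓞 F)‖) ^ k := by
        rw [one_mul]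
        gcongr
        linarith [norm_nonneg (σ (x.1 : 𝓞 F))]
  rw [← mul_assoc] at h3
  rw [← mul_assoc]
  exact mul_le_mul_of_nonneg_right h3 (Real.exp_pos _).le

theorem summ_1 (h1 : StThBE) (hd : DatE D s σ χ cj) (g : ℕ)
    {a : Ideal (𝓞 F)} (ha : a ≠ ⊥) (t : ℝ) (ht : 0 < t) :
    Summable fun x : Su D σ a g => Real.exp (-(t * qG D σ a g x)) := by
  simpa using summ_exp h1 hd g ha 0 ht

theorem cnt (h1 : StThBE) (hd : DatE D s σ χ cj) (g : ℕ)
    {a : Ideal (𝓞 F)} (ha : a ≠ ⊥) : Countable (Su D σ a g) :=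
  countable_of_summable (summ_1 h1 hd g ha 1 one_pos) fun _ => (Real.exp_pos _).ne'

theorem qG_int (h1 : StThBE) (hd : DatE D s σ χ cj) {g : ℕ} (hg : g ∣ D)
    {a b : Ideal (𝓞 F)} (ha : a ≠ ⊥) (hb : b ≠ ⊥) (x : Su D σ a g) (y : Su D σ b g) :
    ∃ n : ℤ, ((wid D g : ℕ) : ℝ) * (qG D σ a g x - qG D σ b g y) = n := by
  have hD := Dpos' hd.ev
  obtain ⟨n, hn⟩ := (width_facts hd.ev hg).2 _ _ x.2 y.2
  refine ⟨n, ?_⟩
  have h2 := wid_eq hd.ev hg
  unfold qG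
  rw [Q_floor h1 hd ha x.1, Q_floor h1 hd hb y.1, ← sub_div]
  have h3 : ((⌊Qa σ a x.1⌋ : ℤ) : ℝ) - ((⌊Qa σ b y.1⌋ : ℤ) : ℝ) =
      ((g * Nat.gcd g (D / g) : ℕ) : ℝ) * n := by
    exact_mod_cast hn
  have h4 : (D : ℝ) = ((wid D g : ℕ) : ℝ) * ((g * Nat.gcd g (D / g) : ℕ) : ℝ) := by
    exact_mod_cast h2.symm
  have hD' : (D : ℝ) ≠ 0 := by exact_mod_cast hD.ne'
  rw [h3, mul_div_assoc', div_eq_iff hD', h4]
  ring

/-- The product of the functions at the cusp. -/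
theorem phi_phi (h1 : StThBE) (hd : DatE D s σ χ cj) {g : ℕ} {Φ : ℤ → ℂ}
    (hΦ : CuspF D g Φ) {a b : Ideal (𝓞 F)} (ha : a ≠ ⊥) (hb : b ≠ ⊥) (x : Su D σ a g)
    (y : Su D σ b g) {m : ℕ} (h : qG D σ a g x - qG D σ b g y = m) :
    cQ D σ a g Φ x * conj (cQ D σ b g Φ y) = ((wid D g : ℕ) : ℂ)⁻¹ := by
  have hD := Dpos' hd.ev
  have hD' : (D : ℝ) ≠ 0 := by exact_mod_cast hD.ne'
  have h2 : ⌊Qa σ a x.1⌋ = ⌊Qa σ b y.1⌋ + m * D := by
    have h3 : Qa σ a x.1 - Qa σ b y.1 = m * D := by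
      unfold qG at h
      rw [← sub_div, div_eq_iff hD'] at h
      exact h
    rw [Q_floor h1 hd ha x.1, Q_floor h1 hd hb y.1] at h3
    have h4 : ((⌊Qa σ a x.1⌋ : ℤ) : ℝ) = ((⌊Qa σ b y.1⌋ + m * D : ℤ) : ℝ) := by
      push_cast
      linarith
    exact_mod_cast h4
  have h5 : ∀ (k : ℕ) (n : ℤ), Φ (n + k * D) = Φ n := by
    intro k
    induction k with
    | zero => intro n; simp
    | succ k ih =>
      intro n
      have : n + ((k + 1 : ℕ) : ℤ) * D = (n + D) + k * D := by push_cast; ring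
      rw [this, ih, hΦ.per]
  unfold cQ
  rw [h2, h5, Complex.mul_conj, hΦ.nrm _ y.2]
  push_cast
  rfl

theorem summ_S (h7 : StBaseE) (hd : DatE D s σ χ cj) (g : ℕ)
    {a b : Ideal (𝓞 F)} (ha : a ≠ ⊥) (hb : b ≠ ⊥) {w r m : ℕ} (hw : 6 ≤ w) (hm : 1 ≤ m) :
    Summable fun p : {p : Su D σ a g × Su D σ b g //
      qG D σ a g p.1 - qG D σ b g p.2 = m} =>
      ‖c0 D σ a g (w + 2 * r) p.1.1‖ * ((qG D σ a g p.1.1) ^ (w + r))⁻¹ := by
  have hD := Dpos' hd.ev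
  obtain ⟨h2, -⟩ := h7 D F inferInstance inferInstance s σ χ cj hd
  obtain ⟨x1, y1, hb1⟩ := h2 _ ha
  obtain ⟨x2, y2, hb2⟩ := h2 _ hb
  have hna : ∀ a : Ideal (𝓞 F), a ≠ ⊥ → 0 < (Ideal.absNorm a : ℝ) := by
    intro a ha
    have : 0 < Ideal.absNorm a := Nat.pos_of_ne_zero fun h => ha (Ideal.absNorm_eq_zero_iff.1 h)
    exact_mod_cast this
  have hD' : (0 : ℝ) < D := by exact_mod_cast hD
  refine summ_pairs (r := r) w m hw hm (X := fun x : Su D σ a g => ‖σ (x.1 : 𝓞 F)‖)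
    (Y := fun y : Su D σ b g => ‖σ (y.1 : 𝓞 F)‖)
    (k0 := (Real.sqrt D ^ (w + 2 * r))⁻¹) (k1 := ((Ideal.absNorm a : ℝ) * D)⁻¹)
    (k2 := ((Ideal.absNorm b : ℝ) * D)⁻¹) (fun _ => norm_nonneg _) (fun _ => norm_nonneg _)
    (by have := sqrtD hd; positivity) (by have := hna a ha; positivity)
    (by have := hna b hb; positivity)
    ((summ_id hb1).comp_injective (Subtype.val_injective (p := fun x : a => supE D g ⌊Qa σ a x⌋)))
    ((summ_id' hb2).comp_injective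
      (Subtype.val_injective (p := fun x : b => supE D g ⌊Qa σ b x⌋)))
    (fun x => norm_c0 a g _ x)
    (fun x => ?_) (fun y => ?_)
  · unfold qG Qa
    rw [Complex.normSq_eq_norm_sq, mul_inv]
    ring
  · unfold qG Qa
    rw [Complex.normSq_eq_norm_sq, mul_inv]
    ring

/-- the two local factors -/
noncomputable def SAg (D : ℕ) (σ : F →+* ℂ) (ψ : Ideal (𝓞 F) →*₀ ℂ) (c : Reps σ)
    (g k : ℕ) (Φ : ℤ → ℂ) (u : ℂ) : ℂ :=
  ∑ A : ClassGroup (𝓞 F), (ψ (c.R A : Ideal (𝓞 F)))⁻¹ *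
    ((epsE D g (Ideal.absNorm (c.R A : Ideal (𝓞 F))) : ℂ) *
      thP D σ (c.R A : Ideal (𝓞 F)) Φ k u)

/-- the two local factors -/
noncomputable def SBg (D : ℕ) (σ : F →+* ℂ) (c : Reps σ)
    (g r : ℕ) (Φ : ℤ → ℂ) (u : ℂ) : ℂ :=
  ∑ B : ClassGroup (𝓞 F), (epsE D g (Ideal.absNorm (c.R B : Ideal (𝓞 F))) : ℂ) *
      conj (thlP D σ (c.R B : Ideal (𝓞 F)) Φ r u)

omit [NumberField F] in
theorem bot_ne' (a : (Ideal (𝓞 F))⁰) : (a : Ideal (𝓞 F)) ≠ ⊥ :=
  nonZeroDivisors.coe_ne_zero a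

theorem loc [NeZero D] {w r : ℕ} {ψ : Ideal (𝓞 F) →*₀ ℂ} {c : Reps σ} (hwe : Even w)
    (hc : ∀ A, IsCoprime (c.R A : Ideal (𝓞 F)) (Ideal.span {s})) {ε : ℂ} (hε : conj ε = ε)
    (hE : ∀ u : ℂ, 0 < u.im → eis D χ r (-r) u = ε * (Real.pi / Real.sqrt D) *
        ∑ B : ClassGroup (𝓞 F), thl σ (c.R B : Ideal (𝓞 F)) r u)
    {g : ℕ} {Φ : ℤ → ℂ}
    (hth : ∀ (a : Ideal (𝓞 F)) (k : ℕ) (u : ℂ), a ≠ ⊥ → IsCoprime a (Ideal.span {s}) → Even k →
      0 < u.im → th σ a k (u / (1 - g * u)) =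
        (1 - g * u) ^ (k + 1) * (epsE D g (Ideal.absNorm a) : ℂ) * thP D σ a Φ k u)
    (hthl : ∀ (a : Ideal (𝓞 F)) (r : ℕ) (u : ℂ), a ≠ ⊥ → IsCoprime a (Ideal.span {s}) →
      0 < u.im → thl σ a r (u / (1 - g * u)) =
        (1 - g * u) ^ (2 * r + 1) * (epsE D g (Ideal.absNorm a) : ℂ) * thlP D σ a Φ r u)
    {v : ℂ} (hv : 0 < v.im) :
    ((1 - g * v) ^ w)⁻¹ * HH D χ w r ψ c (-r) (v / (1 - g * v)) =
      1 / 2 * ε * (Real.pi / Real.sqrt D) * (SAg D σ ψ c g (w + 2 * r) Φ v *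
        SBg D σ c g r Φ v) * (v.im : ℂ) ^ (2 * r + 1) := by
  have hδ : (1 - g * v : ℂ) ≠ 0 := by
    intro h0
    have h1 := congrArg Complex.im h0
    have h2 : (g : ℝ) * v.im = 0 := by simpa using h1
    rcases mul_eq_zero.1 h2 with h3 | h3
    · have : (g : ℂ) = 0 := by exact_mod_cast h3
      rw [this] at h0
      simp at h0
    · exact hv.ne' h3
  set δ : ℂ := 1 - g * v with hδd
  have him : (v / δ).im = v.im / Complex.normSq δ := by
    have h1 : v / δ = v * conj δ / (Complex.normSq δ : ℝ) := by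
      rw [Complex.normSq_eq_conj_mul_self]
      have : conj δ ≠ 0 := by simpa using hδ
      field_simp
    rw [h1, Complex.div_ofReal_im]
    congr 1
    rw [hδd]
    simp
    ring
  have hns : 0 < Complex.normSq δ := Complex.normSq_pos.2 hδ
  have hnsc : (Complex.normSq δ : ℂ) = conj δ * δ := Complex.normSq_eq_conj_mul_self
  have hu' : 0 < (v / δ).im := by rw [him]; positivity
  have e1 : thψ (w + 2 * r) ψ c (v / δ) =
      1 / 2 * (δ ^ (w + 2 * r + 1)) * SAg D σ ψ c g (w + 2 * r) Φ v := by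
    unfold thψ SAg
    rw [mul_assoc (1 / 2 : ℂ), Finset.mul_sum _ _ (δ ^ (w + 2 * r + 1))]
    congr 1
    refine Finset.sum_congr rfl fun A _ => ?_
    have := hth (c.R A : Ideal (𝓞 F)) (w + 2 * r) v (bot_ne' _) (hc A)
      (hwe.add (even_two_mul r)) hv
    rw [this]
    ring
  have e2 : conj (eis D χ r (conj (-(r : ℂ))) (v / δ)) =
      ε * (Real.pi / Real.sqrt D) * (conj δ ^ (2 * r + 1)) * SBg D σ c g r Φ v := by
    have h1 : conj (-(r : ℂ)) = -(r : ℂ) := by simp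
    rw [h1, hE _ hu']
    unfold SBg
    simp only [map_mul, map_div₀, map_sum, Complex.conj_ofReal, hε]
    rw [mul_assoc (ε * (Real.pi / Real.sqrt D) : ℂ),
      Finset.mul_sum _ _ (conj δ ^ (2 * r + 1))]
    congr 1
    refine Finset.sum_congr rfl fun B _ => ?_
    have := hthl (c.R B : Ideal (𝓞 F)) r v (bot_ne' _) (hc B) hv
    rw [this]
    simp only [map_mul, map_pow, map_intCast]
    ring
  unfold HH
  rw [e1, e2, him]
  have hδc : conj δ ≠ 0 := by simpa using hδ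
  have e3 : (((v.im / Complex.normSq δ : ℝ) : ℂ)) ^ (2 * r + 1) =
      (v.im : ℂ) ^ (2 * r + 1) * ((conj δ) ^ (2 * r + 1))⁻¹ * (δ ^ (2 * r + 1))⁻¹ := by
    push_cast
    rw [hnsc, div_pow, mul_pow]
    field_simp
  rw [e3]
  have e4 : δ ^ (w + 2 * r + 1) = δ ^ w * δ ^ (2 * r + 1) := by rw [← pow_add]; ring_nf
  rw [e4]
  field_simp

/-- the terms for a pair of classes -/
noncomputable def PP (D : ℕ) (σ : F →+* ℂ) (g k r : ℕ) (Φ : ℤ → ℂ) (a b : Ideal (𝓞 F))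
    (u : ℂ) : ℂ :=
  SA (cP D σ a g k Φ) (qG D σ a g) u * conj (SC r (cQ D σ b g Φ) (qG D σ b g) u)

theorem eps_mul (D g c c' : ℕ) : epsE D g (c * c') = epsE D g c * epsE D g c' := by
  unfold epsE
  split_ifs
  · push_cast
    rw [jacobiSym.mul_left]
  · push_cast
    rw [jacobiSym.mul_left]

theorem split (w r g : ℕ) {Φ : ℤ → ℂ} (hΦ : CuspF D g Φ) (ψ : Ideal (𝓞 F) →*₀ ℂ) (c : Reps σ)
    (K : ℂ) (u : ℕ → ℂ) (y : ℂ) (G : ℕ) (hu : ∀ j, ((u j).im : ℂ) = y) :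
    ∑ j ∈ Finset.range G, K * (SAg D σ ψ c g (w + 2 * r) Φ (u j) *
        SBg D σ c g r Φ (u j)) * ((u j).im : ℂ) ^ (2 * r + 1) =
      ∑ A : ClassGroup (𝓞 F), ∑ B : ClassGroup (𝓞 F), K * (ψ (c.R A : Ideal (𝓞 F)))⁻¹ *
        (epsE D g (Ideal.absNorm (c.R A : Ideal (𝓞 F)) * Ideal.absNorm (c.R B : Ideal (𝓞 F)))
          : ℂ) * y ^ (2 * r + 1) *
        ∑ j ∈ Finset.range G, PP D σ g (w + 2 * r) r Φ (c.R A : Ideal (𝓞 F))
          (c.R B : Ideal (𝓞 F)) (u j) := by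
  have h1 : ∀ j ∈ Finset.range G, K * (SAg D σ ψ c g (w + 2 * r) Φ (u j) *
        SBg D σ c g r Φ (u j)) * ((u j).im : ℂ) ^ (2 * r + 1) =
      ∑ A : ClassGroup (𝓞 F), ∑ B : ClassGroup (𝓞 F), K * (ψ (c.R A : Ideal (𝓞 F)))⁻¹ *
        (epsE D g (Ideal.absNorm (c.R A : Ideal (𝓞 F)) * Ideal.absNorm (c.R B : Ideal (𝓞 F)))
          : ℂ) * y ^ (2 * r + 1) *
        PP D σ g (w + 2 * r) r Φ (c.R A : Ideal (𝓞 F)) (c.R B : Ideal (𝓞 F)) (u j) := by
    intro j _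
    rw [hu]
    unfold SAg SBg PP
    rw [Finset.sum_mul_sum, Finset.mul_sum, Finset.sum_mul]
    refine Finset.sum_congr rfl fun A _ => ?_
    rw [Finset.mul_sum, Finset.sum_mul]
    refine Finset.sum_congr rfl fun B _ => ?_
    rw [eps_mul, thP_eq hΦ, thlP_eq hΦ]
    push_cast
    ring
  rw [Finset.sum_congr rfl h1, Finset.sum_comm]
  refine Finset.sum_congr rfl fun A _ => ?_
  rw [Finset.sum_comm]
  refine Finset.sum_congr rfl fun B _ => ?_
  rw [Finset.mul_sum]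

theorem val (h1 : StThBE) (hd : DatE D s σ χ cj) (w r m g : ℕ) (hg : g ∣ D)
    (a b : Ideal (𝓞 F)) (ha : a ≠ ⊥) (hb : b ≠ ⊥) :
    ∑' p : {p : Su D σ a g × Su D σ b g // qG D σ a g p.1 - qG D σ b g p.2 = m},
      c0 D σ a g (w + 2 * r) p.1.1 * (((w + r - 1).factorial : ℂ) *
        ((4 * Real.pi * qG D σ a g p.1.1) ^ (w + r))⁻¹ *
          Jr w r (qG D σ b g p.1.2 / qG D σ a g p.1.1)) =
    ((w + r - 1).factorial : ℂ) * ((4 * Real.pi : ℂ) ^ (w + r))⁻¹ *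
      (((Complex.I * Real.sqrt D) ^ (w + 2 * r))⁻¹ * (D : ℂ) ^ (w + r) *
      ∑' p : {p : a × b // Qa σ a p.1 - Qa σ b p.2 = D * m ∧ supE D g ⌊Qa σ a p.1⌋},
        PT w r σ a b p.1.1 p.1.2) := by
  have hD : (D : ℝ) ≠ 0 := by exact_mod_cast (Dpos' hd.ev).ne'
  have hDc : (D : ℂ) ≠ 0 := by exact_mod_cast (Dpos' hd.ev).ne'
  have hiff : ∀ x y : ℝ, x / D - y / D = m ↔ x - y = D * m := by
    intro x y
    rw [← sub_div, div_eq_iff hD, mul_comm (m : ℝ)]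
  have hsup : ∀ p : {p : a × b // Qa σ a p.1 - Qa σ b p.2 = D * m ∧ supE D g ⌊Qa σ a p.1⌋},
      supE D g ⌊Qa σ b p.1.2⌋ := by
    intro p
    have h3 := p.2.1
    rw [Q_floor h1 hd ha p.1.1, Q_floor h1 hd hb p.1.2] at h3
    have h4 : ⌊Qa σ b p.1.2⌋ = ⌊Qa σ a p.1.1⌋ - D * m := by
      have h5 : ((⌊Qa σ b p.1.2⌋ : ℤ) : ℝ) = ((⌊Qa σ a p.1.1⌋ - D * m : ℤ) : ℝ) := by
        push_cast
        linarith
      exact_mod_cast h5
    rw [h4]
    exact supE_sub hg m p.2.2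
  let e : {p : Su D σ a g × Su D σ b g // qG D σ a g p.1 - qG D σ b g p.2 = m} ≃
      {p : a × b // Qa σ a p.1 - Qa σ b p.2 = D * m ∧ supE D g ⌊Qa σ a p.1⌋} :=
    { toFun := fun p => ⟨(p.1.1.1, p.1.2.1), (hiff _ _).1 p.2, p.1.1.2⟩
      invFun := fun p => ⟨(⟨p.1.1, p.2.2⟩, ⟨p.1.2, hsup p⟩), (hiff _ _).2 p.2.1⟩
      left_inv := fun p => rfl
      right_inv := fun p => rfl }
  rw [← e.tsum_eq, ← tsum_mul_left, ← tsum_mul_left]
  refine tsum_congr fun p => ?_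
  have he1 : (e p).1 = (p.1.1.1, p.1.2.1) := rfl
  rw [he1]
  unfold c0 PT qG
  push_cast
  rw [div_div_div_cancel_right₀ hDc, div_pow, ← mul_div_assoc, div_pow, mul_pow (4 * (Real.pi : ℂ))]
  rw [inv_div, div_eq_mul_inv, div_eq_mul_inv, mul_inv]
  ring

end

end JmEX

open JmEX JmX

theorem stJmE (h1 : StThBE) (h3 : StThlE) (h4 : StEisThE) (h5 : StGam) (_h6 : StBasE)
    (h7 : StBaseE) : StJmE := by
  intro D _ F _ _ s σ χ cj w r ψ c hd hw hwe hc
  classical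
  obtain ⟨ε, hε, hE⟩ := h4 D inferInstance F inferInstance inferInstance s σ χ cj c hd
  refine ⟨ε, hε, fun m hm => ?_⟩
  have hεc : conj ε = ε := by rcases hε with rfl | rfl <;> simp
  obtain ⟨-, h3'⟩ := h3 D F inferInstance inferInstance s σ χ cj hd
  choose! Φ hΦ hth hthl using h3'
  have hD := Dpos' hd.ev
  have hw6 : 6 ≤ w := by
    obtain ⟨k, hk⟩ := hwe
    omega
  let co : ClassGroup (𝓞 F) → ClassGroup (𝓞 F) → ℕ → ℂ := fun A B g =>
    1 / 2 * ε * (Real.pi / Real.sqrt D) * (ψ (c.R A : Ideal (𝓞 F)))⁻¹ *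
      (epsE D g (Ideal.absNorm (c.R A : Ideal (𝓞 F)) * Ideal.absNorm (c.R B : Ideal (𝓞 F))) : ℂ)
  let W : ClassGroup (𝓞 F) → ClassGroup (𝓞 F) → ℕ → ℝ → ℂ := fun A B g y =>
    ∑' p : {p : Su D σ (c.R A : Ideal (𝓞 F)) g × Su D σ (c.R B : Ideal (𝓞 F)) g //
      qG D σ (c.R A : Ideal (𝓞 F)) g p.1 - qG D σ (c.R B : Ideal (𝓞 F)) g p.2 = m},
        c0 D σ (c.R A : Ideal (𝓞 F)) g (w + 2 * r) p.1.1 *
          lag r (4 * Real.pi * qG D σ (c.R B : Ideal (𝓞 F)) g p.1.2 * y) *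
          Complex.exp (-(4 * Real.pi * qG D σ (c.R A : Ideal (𝓞 F)) g p.1.1 * y))
  have hgd : ∀ {g : ℕ}, g ∈ D.divisors → g ∣ D := fun hg => Nat.dvd_of_mem_divisors hg
  have hG1 : ∀ {g : ℕ}, g ∈ D.divisors → 1 ≤ wid D g := fun {g} hg => wid_pos hd.ev (hgd hg)
  -- the trace
  have htr : ∀ x y : ℝ, 0 < y → trE D w (HH D χ w r ψ c (-r)) (x + y * Complex.I) =
      ∑ g ∈ D.divisors, ∑ A : ClassGroup (𝓞 F), ∑ B : ClassGroup (𝓞 F),
        co A B g * (y : ℂ) ^ (2 * r + 1) * ∑ j ∈ Finset.range (wid D g),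
          PP D σ g (w + 2 * r) r (Φ g) (c.R A : Ideal (𝓞 F)) (c.R B : Ideal (𝓞 F))
            (x + y * Complex.I + j) := by
    intro x y hy
    unfold trE
    refine Finset.sum_congr rfl fun g hg => ?_
    have h9 : ∀ j ∈ Finset.range (wid D g),
        ((1 - g * ((x : ℂ) + y * Complex.I + j)) ^ w)⁻¹ *
          HH D χ w r ψ c (-r) (((x : ℂ) + y * Complex.I + j) / (1 - g * ((x : ℂ) + y * Complex.I + j))) =
        1 / 2 * ε * (Real.pi / Real.sqrt D) *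
          (SAg D σ ψ c g (w + 2 * r) (Φ g) ((x : ℂ) + y * Complex.I + j) *
            SBg D σ c g r (Φ g) ((x : ℂ) + y * Complex.I + j)) *
          (((x : ℂ) + y * Complex.I + j).im : ℂ) ^ (2 * r + 1) := by
      intro j _
      exact loc hwe hc hεc (fun u hu => hE r u hu) (hth g (hgd hg))
        (hthl g (hgd hg)) (by simpa using hy)
    rw [Finset.sum_congr rfl h9]
    exact split w r g (hΦ g (hgd hg)) ψ c _ (fun j => (x : ℂ) + y * Complex.I + j) y _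
      (fun j => by simp)
  -- the inner integral
  have hin : ∀ g ∈ D.divisors, ∀ (A B : ClassGroup (𝓞 F)) {y : ℝ}, 0 < y →
      IntervalIntegrable (fun x : ℝ => (∑ j ∈ Finset.range (wid D g),
          PP D σ g (w + 2 * r) r (Φ g) (c.R A : Ideal (𝓞 F)) (c.R B : Ideal (𝓞 F))
            (x + y * Complex.I + j)) * ee (-(m : ℂ) * (x - y * Complex.I))) volume 0 1 ∧
      ∫ x in (0 : ℝ)..1, (∑ j ∈ Finset.range (wid D g),
          PP D σ g (w + 2 * r) r (Φ g) (c.R A : Ideal (𝓞 F)) (c.R B : Ideal (𝓞 F))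
            (x + y * Complex.I + j)) * ee (-(m : ℂ) * (x - y * Complex.I)) =
        ((y : ℂ) ^ r)⁻¹ * W A B g y := by
    intro g hg A B y hy
    have c1 := cnt h1 hd g (bot_ne' (c.R A))
    have c2 := cnt h1 hd g (bot_ne' (c.R B))
    have hi := inner' (r := r) (summ_c h1 hd (hgd hg) (hΦ g (hgd hg)) (bot_ne' (c.R A)) (w + 2 * r))
      (summ_1 h1 hd g (bot_ne' (c.R B)))
      (qG_nonneg _ _) (fun y => normC hd.ev (hgd hg) (hΦ g (hgd hg)) _ y)
      (wid D g) (hG1 hg) (qG_int h1 hd (hgd hg) (bot_ne' (c.R A)) (bot_ne' (c.R B))) m hy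
    refine ⟨hi.1, ?_⟩
    have hwn : ((wid D g : ℕ) : ℂ) ≠ 0 := by
      have := hG1 hg
      exact_mod_cast (by omega : wid D g ≠ 0)
    refine hi.2.trans ?_
    have h10 : ∀ p : {p : Su D σ (c.R A : Ideal (𝓞 F)) g × Su D σ (c.R B : Ideal (𝓞 F)) g //
        qG D σ (c.R A : Ideal (𝓞 F)) g p.1 - qG D σ (c.R B : Ideal (𝓞 F)) g p.2 = m},
        cP D σ (c.R A : Ideal (𝓞 F)) g (w + 2 * r) (Φ g) p.1.1 *
          conj (cQ D σ (c.R B : Ideal (𝓞 F)) g (Φ g) p.1.2) *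
          lag r (4 * Real.pi * qG D σ (c.R B : Ideal (𝓞 F)) g p.1.2 * y) *
          Complex.exp (-(4 * Real.pi * qG D σ (c.R A : Ideal (𝓞 F)) g p.1.1 * y)) =
        ((wid D g : ℕ) : ℂ)⁻¹ * (c0 D σ (c.R A : Ideal (𝓞 F)) g (w + 2 * r) p.1.1 *
          lag r (4 * Real.pi * qG D σ (c.R B : Ideal (𝓞 F)) g p.1.2 * y) *
          Complex.exp (-(4 * Real.pi * qG D σ (c.R A : Ideal (𝓞 F)) g p.1.1 * y))) := by
      intro p
      rw [← phi_phi h1 hd (hΦ g (hgd hg)) (bot_ne' (c.R A)) (bot_ne' (c.R B)) p.1.1 p.1.2 p.2]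
      unfold cP
      ring
    rw [tsum_congr h10, tsum_mul_left]
    have h11 : ∀ X Y : ℂ, ((wid D g : ℕ) : ℂ) * Y * (((wid D g : ℕ) : ℂ)⁻¹ * X) = Y * X := by
      intro X Y
      calc _ = (((wid D g : ℕ) : ℂ) * ((wid D g : ℕ) : ℂ)⁻¹) * (Y * X) := by ring
        _ = _ := by rw [mul_inv_cancel₀ hwn, one_mul]
    exact h11 _ _
  have hout : ∀ g ∈ D.divisors, ∀ (A B : ClassGroup (𝓞 F)),
      IntegrableOn (fun y : ℝ => (y : ℂ) ^ (w + r - 1) * W A B g y) (Ioi 0) ∧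
      ∫ y in Ioi (0 : ℝ), (y : ℂ) ^ (w + r - 1) * W A B g y =
        ((w + r - 1).factorial : ℂ) * ((4 * Real.pi : ℂ) ^ (w + r))⁻¹ *
      (((Complex.I * Real.sqrt D) ^ (w + 2 * r))⁻¹ * (D : ℂ) ^ (w + r) *
      ∑' p : {p : ↥(c.R A : Ideal (𝓞 F)) × ↥(c.R B : Ideal (𝓞 F)) //
        Qa σ (c.R A : Ideal (𝓞 F)) p.1 - Qa σ (c.R B : Ideal (𝓞 F)) p.2 = D * m ∧
          supE D g ⌊Qa σ (c.R A : Ideal (𝓞 F)) p.1⌋},
        PT w r σ (c.R A : Ideal (𝓞 F)) (c.R B : Ideal (𝓞 F)) p.1.1 p.1.2) := by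
    intro g hg A B
    have c1 := cnt h1 hd g (bot_ne' (c.R A))
    have c2 := cnt h1 hd g (bot_ne' (c.R B))
    rw [← val h1 hd w r m g (hgd hg) _ _ (bot_ne' (c.R A)) (bot_ne' (c.R B))]
    exact outer h5 (qG_nonneg _ _) (by omega) hm
      (summ_S h7 hd g (bot_ne' (c.R A)) (bot_ne' (c.R B)) hw6 hm)
  unfold JJ
  have hstep : ∀ y ∈ Ioi (0 : ℝ), (∫ x in (0 : ℝ)..1,
      trE D w (HH D χ w r ψ c (-r)) (x + y * Complex.I) * ee (-(m : ℂ) * (x - y * Complex.I))) *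
        (y : ℂ) ^ (w - 2) = ∑ g ∈ D.divisors, ∑ A : ClassGroup (𝓞 F), ∑ B : ClassGroup (𝓞 F),
        co A B g * ((y : ℂ) ^ (w + r - 1) * W A B g y) := by
    intro y hy
    have hy' : (0 : ℝ) < y := hy
    have hyc : (y : ℂ) ≠ 0 := by exact_mod_cast hy'.ne'
    have e1 : ∀ x : ℝ, trE D w (HH D χ w r ψ c (-r)) (x + y * Complex.I) *
        ee (-(m : ℂ) * (x - y * Complex.I)) =
        ∑ g ∈ D.divisors, ∑ A : ClassGroup (𝓞 F), ∑ B : ClassGroup (𝓞 F),
        co A B g * (y : ℂ) ^ (2 * r + 1) * ((∑ j ∈ Finset.range (wid D g),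
          PP D σ g (w + 2 * r) r (Φ g) (c.R A : Ideal (𝓞 F)) (c.R B : Ideal (𝓞 F))
            (x + y * Complex.I + j)) * ee (-(m : ℂ) * (x - y * Complex.I))) := by
      intro x
      rw [htr x y hy', Finset.sum_mul]
      refine Finset.sum_congr rfl fun g _ => ?_
      rw [Finset.sum_mul]
      refine Finset.sum_congr rfl fun A _ => ?_
      rw [Finset.sum_mul]
      refine Finset.sum_congr rfl fun B _ => ?_
      ring
    simp_rw [e1]
    have hi : ∀ g ∈ D.divisors, ∀ (A B : ClassGroup (𝓞 F)), IntervalIntegrable (fun x : ℝ =>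
        co A B g * (y : ℂ) ^ (2 * r + 1) * ((∑ j ∈ Finset.range (wid D g),
          PP D σ g (w + 2 * r) r (Φ g) (c.R A : Ideal (𝓞 F)) (c.R B : Ideal (𝓞 F))
            (x + y * Complex.I + j)) * ee (-(m : ℂ) * (x - y * Complex.I)))) volume 0 1 :=
      fun g hg A B => (hin g hg A B hy').1.const_mul _
    have hi2 : ∀ g ∈ D.divisors, ∀ (A : ClassGroup (𝓞 F)), IntervalIntegrable (fun x : ℝ =>
        ∑ B : ClassGroup (𝓞 F), co A B g * (y : ℂ) ^ (2 * r + 1) * ((∑ j ∈ Finset.range (wid D g),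
          PP D σ g (w + 2 * r) r (Φ g) (c.R A : Ideal (𝓞 F)) (c.R B : Ideal (𝓞 F))
            (x + y * Complex.I + j)) * ee (-(m : ℂ) * (x - y * Complex.I)))) volume 0 1 :=
      fun g hg A => intervalIntegrable_iff.2
        (integrable_finsetSum _ fun B _ => intervalIntegrable_iff.1 (hi g hg A B))
    have hi3 : ∀ g ∈ D.divisors, IntervalIntegrable (fun x : ℝ => ∑ A : ClassGroup (𝓞 F),
        ∑ B : ClassGroup (𝓞 F), co A B g * (y : ℂ) ^ (2 * r + 1) * ((∑ j ∈ Finset.range (wid D g),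
          PP D σ g (w + 2 * r) r (Φ g) (c.R A : Ideal (𝓞 F)) (c.R B : Ideal (𝓞 F))
            (x + y * Complex.I + j)) * ee (-(m : ℂ) * (x - y * Complex.I)))) volume 0 1 :=
      fun g hg => intervalIntegrable_iff.2
        (integrable_finsetSum _ fun A _ => intervalIntegrable_iff.1 (hi2 g hg A))
    rw [intervalIntegral.integral_finsetSum hi3, Finset.sum_mul]
    refine Finset.sum_congr rfl fun g hg => ?_
    rw [intervalIntegral.integral_finsetSum (fun A _ => hi2 g hg A), Finset.sum_mul]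
    refine Finset.sum_congr rfl fun A _ => ?_
    rw [intervalIntegral.integral_finsetSum (fun B _ => hi g hg A B), Finset.sum_mul]
    refine Finset.sum_congr rfl fun B _ => ?_
    rw [intervalIntegral.integral_const_mul, (hin g hg A B hy').2]
    have e2 : (y : ℂ) ^ (2 * r + 1) * ((y : ℂ) ^ r)⁻¹ * (y : ℂ) ^ (w - 2) =
        (y : ℂ) ^ (w + r - 1) := by
      rw [mul_inv_eq_iff_eq_mul₀ (pow_ne_zero _ hyc) |>.2 (show (y : ℂ) ^ (2 * r + 1) =
        (y : ℂ) ^ (r + 1) * (y : ℂ) ^ r by rw [← pow_add]; congr 1; omega), ← pow_add]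
      congr 1
      omega
    rw [← e2]
    ring
  rw [setIntegral_congr_fun measurableSet_Ioi hstep]
  have ho : ∀ g ∈ D.divisors, ∀ (A B : ClassGroup (𝓞 F)), Integrable (fun y : ℝ =>
      co A B g * ((y : ℂ) ^ (w + r - 1) * W A B g y))
        (volume.restrict (Ioi (0 : ℝ))) := fun g hg A B => (hout g hg A B).1.const_mul _
  have ho2 : ∀ g ∈ D.divisors, ∀ (A : ClassGroup (𝓞 F)), Integrable (fun y : ℝ =>
      ∑ B : ClassGroup (𝓞 F), co A B g *
        ((y : ℂ) ^ (w + r - 1) * W A B g y)) (volume.restrict (Ioi (0 : ℝ))) :=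
    fun g hg A => integrable_finsetSum _ fun B _ => ho g hg A B
  have ho3 : ∀ g ∈ D.divisors, Integrable (fun y : ℝ => ∑ A : ClassGroup (𝓞 F),
      ∑ B : ClassGroup (𝓞 F), co A B g *
        ((y : ℂ) ^ (w + r - 1) * W A B g y)) (volume.restrict (Ioi (0 : ℝ))) :=
    fun g hg => integrable_finsetSum _ fun A _ => ho2 g hg A
  rw [integral_finsetSum _ ho3]
  rw [Finset.mul_sum]
  have e3 : ∀ g ∈ D.divisors, ∫ y in Ioi (0 : ℝ), ∑ A : ClassGroup (𝓞 F),
      ∑ B : ClassGroup (𝓞 F), co A B g *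
        ((y : ℂ) ^ (w + r - 1) * W A B g y) = ∑ A : ClassGroup (𝓞 F), ∑ B : ClassGroup (𝓞 F),
        co A B g * (((w + r - 1).factorial : ℂ) *
          ((4 * Real.pi : ℂ) ^ (w + r))⁻¹ *
      (((Complex.I * Real.sqrt D) ^ (w + 2 * r))⁻¹ * (D : ℂ) ^ (w + r) *
      ∑' p : {p : ↥(c.R A : Ideal (𝓞 F)) × ↥(c.R B : Ideal (𝓞 F)) //
        Qa σ (c.R A : Ideal (𝓞 F)) p.1 - Qa σ (c.R B : Ideal (𝓞 F)) p.2 = D * m ∧
          supE D g ⌊Qa σ (c.R A : Ideal (𝓞 F)) p.1⌋},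
        PT w r σ (c.R A : Ideal (𝓞 F)) (c.R B : Ideal (𝓞 F)) p.1.1 p.1.2)) := by
    intro g hg
    rw [integral_finsetSum _ (fun A _ => ho2 g hg A)]
    refine Finset.sum_congr rfl fun A _ => ?_
    rw [integral_finsetSum _ (fun B _ => ho g hg A B)]
    refine Finset.sum_congr rfl fun B _ => ?_
    rw [integral_const_mul, (hout g hg A B).2]
  rw [Finset.sum_congr rfl e3, Finset.sum_comm]
  refine Finset.sum_congr rfl fun A _ => ?_
  rw [Finset.sum_comm, Finset.mul_sum]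
  refine Finset.sum_congr rfl fun B _ => ?_
  unfold SSE
  rw [Finset.mul_sum, Finset.mul_sum, Finset.mul_sum]
  refine Finset.sum_congr rfl fun g hg => ?_
  simp only [co]
  ring

end RZ

end Pool.Agent.Lib.MP_7c08ba_nt
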