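import Pool.Agent.Lib.MP_7c08ba_nt.RZ.StG
import Pool.Agent.Lib.MP_7c08ba_nt.RZ.PetU
import Pool.Agent.Lib.MP_7c08ba_nt.RZ.ThB
import Pool.Agent.Lib.MP_7c08ba_nt.RZ.Gam

set_option autoImplicit false

/-!
General lemmas for the integrals of products of theta series: phases, exchange of sums and
integrals.
-/

namespace Pool.Agent.Lib.MP_7c08ba_nt

namespace RZ

open MeasureTheory Set Filter
open scoped ComplexConjugate Topology ENNReal

namespace JmX

theorem ee_zero : ee 0 = 1 := by simp [ee]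

theorem ee_add' (z w : ℂ) : ee (z + w) = ee z * ee w := ThBAux.ee_add z w

theorem ee_int (n : ℤ) : ee (n : ℂ) = 1 := by
  have := PetX.ee_add_int 0 n
  rw [zero_add, ee_zero] at this
  exact this

theorem ee_nsmul (z : ℂ) (n : ℕ) : ee (n * z) = ee z ^ n := by
  unfold ee
  rw [← Complex.exp_nat_mul]
  congr 1
  ring

theorem int_ee (α : ℝ) :
    ∫ x in (0 : ℝ)..1, ee ((α : ℂ) * (x : ℂ)) =
      if α = 0 then 1 else (ee α - 1) / (2 * Real.pi * Complex.I * α) := by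
  by_cases h : α = 0
  · subst h
    simp [ee_zero]
  · rw [if_neg h]
    have hc : (2 * Real.pi * Complex.I * α : ℂ) ≠ 0 := by
      have h1 : (Real.pi : ℂ) ≠ 0 := by exact_mod_cast Real.pi_ne_zero
      have h2 : (α : ℂ) ≠ 0 := by exact_mod_cast h
      exact mul_ne_zero (mul_ne_zero (mul_ne_zero two_ne_zero h1) Complex.I_ne_zero) h2
    have e : ∀ x : ℝ, ee ((α : ℂ) * (x : ℂ)) = Complex.exp (2 * Real.pi * Complex.I * α * x) := by
      intro x
      unfold ee
      congr 1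
      ring
    simp_rw [e]
    rw [integral_exp_mul_complex hc]
    unfold ee
    simp

/-- the sum of the integrals of the phases over all translates -/
theorem phase (G : ℕ) (hG : 1 ≤ G) (n m h : ℤ) :
    ∑ j ∈ Finset.range G, ∫ x in (0 : ℝ)..1,
      ee ((n : ℂ) / G * (x + j - h)) * ee (-(m : ℂ) * x) = if n = G * m then (G : ℂ) else 0 := by
  have hG0 : (G : ℂ) ≠ 0 := by
    have : G ≠ 0 := by omega
    exact_mod_cast this
  have hGr : (G : ℝ) ≠ 0 := by
    have : G ≠ 0 := by omega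
    exact_mod_cast this
  set α : ℝ := (n : ℝ) / G - m with hα
  have e1 : ∀ (j : ℕ) (x : ℝ), ee ((n : ℂ) / G * (x + j - h)) * ee (-(m : ℂ) * x) =
      ee (j * ((n : ℂ) / G)) * ee (-(h : ℂ) * ((n : ℂ) / G)) * ee ((α : ℂ) * x) := by
    intro j x
    rw [← ee_add', ← ee_add', ← ee_add']
    congr 1
    rw [hα]
    push_cast
    ring
  simp_rw [e1]
  simp_rw [intervalIntegral.integral_const_mul]
  rw [int_ee]
  by_cases h0 : α = 0
  · have hn : n = G * m := by
      have h1 : (n : ℝ) = G * m := by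
        rw [hα] at h0
        field_simp at h0
        linarith
      exact_mod_cast h1
    rw [if_pos h0, if_pos hn]
    have h2 : (n : ℂ) / G = (m : ℂ) := by
      rw [hn]
      push_cast
      field_simp
    have h3 : ∀ j ∈ Finset.range G, ee (j * ((n : ℂ) / G)) * ee (-(h : ℂ) * ((n : ℂ) / G)) * 1 = 1 := by
      intro j _
      rw [h2]
      have h4 : ((j : ℂ) * (m : ℂ)) = (((j : ℤ) * m : ℤ) : ℂ) := by push_cast; ring
      have h5 : (-(h : ℂ) * (m : ℂ)) = ((-h * m : ℤ) : ℂ) := by push_cast; ring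
      rw [h4, h5, ee_int, ee_int]
      ring
    rw [Finset.sum_congr rfl h3]
    simp
  · have hn : n ≠ G * m := by
      intro hn
      apply h0
      rw [hα, hn]
      push_cast
      field_simp
      ring
    rw [if_neg h0, if_neg hn]
    rw [← Finset.sum_mul, ← Finset.sum_mul]
    have h2 : ee (α : ℂ) = ee ((n : ℂ) / G) := by
      have : (α : ℂ) = (n : ℂ) / G + ((-m : ℤ) : ℂ) := by
        rw [hα]
        push_cast
        ring
      rw [this, PetX.ee_add_int]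
    have h3 : (∑ j ∈ Finset.range G, ee (j * ((n : ℂ) / G))) * (ee (α : ℂ) - 1) = 0 := by
      rw [h2]
      simp_rw [ee_nsmul]
      rw [geom_sum_mul, ← ee_nsmul]
      have : ((G : ℂ) * ((n : ℂ) / G)) = (n : ℂ) := by field_simp
      rw [this, ee_int, sub_self]
    calc _ = ((∑ j ∈ Finset.range G, ee (j * ((n : ℂ) / G))) * (ee (α : ℂ) - 1)) *
          (ee (-(h : ℂ) * ((n : ℂ) / G)) / (2 * Real.pi * Complex.I * α)) := by ring
      _ = 0 := by rw [h3, zero_mul]

/-- Integrability of sums. -/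
theorem integrable_tsum {ι : Type} [Countable ι] {μ : Measure ℝ} {F : ι → ℝ → ℂ}
    (hF_int : ∀ i, Integrable (F i) μ) (hF_sum : Summable fun i => ∫ a, ‖F i a‖ ∂μ) :
    Integrable (fun a => ∑' i, F i a) μ := by
  have hfin : ∑' i, ∫⁻ a, ‖F i a‖ₑ ∂μ ≠ ∞ := by
    have h1 : ∀ i, ∫⁻ a, ‖F i a‖ₑ ∂μ = ENNReal.ofReal (∫ a, ‖F i a‖ ∂μ) := by
      intro i
      rw [ofReal_integral_norm_eq_lintegral_enorm (hF_int i)]
    simp_rw [h1]
    exact hF_sum.tsum_ofReal_ne_top
  have hmeas : ∀ i, AEMeasurable (fun a => ‖F i a‖ₑ) μ := fun i => (hF_int i).1.enorm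
  have hl : ∫⁻ a, ∑' i, ‖F i a‖ₑ ∂μ ≠ ∞ := by
    rw [lintegral_tsum hmeas]
    exact hfin
  have hae : ∀ᵐ a ∂μ, ∑' i, ‖F i a‖ₑ < ∞ :=
    ae_lt_top' (AEMeasurable.tsum hmeas) hl
  have hsum : ∀ᵐ a ∂μ, Summable fun i => F i a := by
    filter_upwards [hae] with a ha
    exact Summable.of_enorm ha.ne
  refine ⟨?_, ?_⟩
  · refine aestronglyMeasurable_of_tendsto_ae (atTop : Filter (Finset ι))
      (f := fun s a => ∑ i ∈ s, F i a) (fun s => ?_) ?_
    · exact Finset.aestronglyMeasurable_fun_sum s fun i _ => (hF_int i).1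
    · filter_upwards [hsum] with a ha
      exact ha.hasSum
  · refine lt_of_le_of_lt (lintegral_mono fun a => ?_) (lt_top_iff_ne_top.2 hl)
    exact enorm_tsum_le_tsum_enorm

theorem lag_real (r : ℕ) (x : ℝ) : conj (lag r (x : ℂ)) = lag r (x : ℂ) := by
  unfold lag
  simp [map_sum, map_div₀]

/-- the first series -/
noncomputable def SA {ι : Type} (c : ι → ℂ) (Q : ι → ℝ) (u : ℂ) : ℂ :=
  ∑' i, c i * ee (Q i * u)

/-- the second series -/
noncomputable def SB {κ : Type} (r : ℕ) (Q : κ → ℝ) (u : ℂ) : ℂ :=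
  ((u.im : ℂ) ^ r)⁻¹ * ∑' i, lag r (4 * Real.pi * Q i * u.im) * ee (Q i * u)

/-- the terms of the product, without phase -/
noncomputable def TP {ι κ : Type} (r : ℕ) (c : ι → ℂ) (Q : ι → ℝ) (Q' : κ → ℝ) (y : ℝ)
    (p : ι × κ) : ℂ :=
  c p.1 * lag r (4 * Real.pi * Q' p.2 * y) * Real.exp (-(2 * Real.pi * (Q p.1 + Q' p.2) * y))

theorem lag_bd' (r : ℕ) (x : ℝ) (hx : 0 ≤ x) : ‖lag r (x : ℂ)‖ ≤ 3 ^ r * Real.exp (x / 2) := by
  unfold lag
  refine le_trans (norm_sum_le _ _) ?_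
  have h1 : ∀ j ∈ Finset.range (r + 1),
      ‖((r.choose j : ℂ) * (-(x : ℂ)) ^ j / (j.factorial : ℂ))‖ ≤
        ((2 : ℝ) ^ j * 1 ^ (r - j) * (r.choose j : ℝ)) * Real.exp (x / 2) := by
    intro j _
    rw [norm_div, norm_mul, norm_pow, norm_neg, Complex.norm_natCast, Complex.norm_natCast,
      Complex.norm_of_nonneg hx]
    have h2 := Real.pow_div_factorial_le_exp (x / 2) (by positivity) j
    have h3 : x ^ j / (j.factorial : ℝ) = 2 ^ j * ((x / 2) ^ j / j.factorial) := by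
      rw [div_pow]
      field_simp
    calc (r.choose j : ℝ) * x ^ j / (j.factorial : ℝ) = (r.choose j : ℝ) * (x ^ j / j.factorial) := by
          ring
      _ = (r.choose j : ℝ) * (2 ^ j * ((x / 2) ^ j / j.factorial)) := by rw [h3]
      _ ≤ (r.choose j : ℝ) * (2 ^ j * Real.exp (x / 2)) := by gcongr
      _ = _ := by ring
  refine le_trans (Finset.sum_le_sum h1) ?_
  rw [← Finset.sum_mul]
  rw [← add_pow]
  norm_num

section

variable {ι κ : Type} {r : ℕ} {c : ι → ℂ} {Q : ι → ℝ} {Q' : κ → ℝ}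

theorem summ_B (h2 : ∀ t : ℝ, 0 < t → Summable fun i => Real.exp (-(t * Q' i)))
    (hQ' : ∀ j, 0 ≤ Q' j) {y : ℝ} (hy : 0 < y) :
    Summable fun j => ‖lag r (4 * Real.pi * Q' j * y)‖ * Real.exp (-(2 * Real.pi * Q' j * y)) := by
  have h3 := (h2 (Real.pi * y / 2) (by positivity))
  -- `(1 + x)^r e^{-x/2}` with `x = 4 π Q' y`
  have hb : ∀ x : ℝ, 0 ≤ x → (1 + x) ^ r * Real.exp (-(x / 2)) ≤
      (8 ^ r * r.factorial * Real.exp (1 / 8)) * Real.exp (-(x / 8)) := by
    intro x hx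
    have h4 := Real.pow_div_factorial_le_exp ((1 + x) / 8) (by positivity) r
    rw [div_pow, div_div, div_le_iff₀ (by positivity)] at h4
    have h5 : Real.exp ((1 + x) / 8) = Real.exp (1 / 8) * Real.exp (x / 8) := by
      rw [← Real.exp_add]
      congr 1
      ring
    calc (1 + x) ^ r * Real.exp (-(x / 2))
        ≤ (Real.exp ((1 + x) / 8) * (8 ^ r * r.factorial)) * Real.exp (-(x / 2)) := by gcongr
      _ = (8 ^ r * r.factorial * Real.exp (1 / 8)) * (Real.exp (x / 8) * Real.exp (-(x / 2))) := by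
          rw [h5]; ring
      _ = (8 ^ r * r.factorial * Real.exp (1 / 8)) * Real.exp (-(3 * x / 8)) := by
          rw [← Real.exp_add]
          congr 2
          ring
      _ ≤ _ := by
          gcongr
          linarith
  refine Summable.of_nonneg_of_le (fun j => by positivity) (fun j => ?_)
    (h3.mul_left (2 ^ r * (8 ^ r * r.factorial * Real.exp (1 / 8))))
  have hx : 0 ≤ 4 * Real.pi * Q' j * y := by
    have := hQ' j
    positivity
  have h6 := ThBAux.lag_bd r _ hx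
  have h7 := hb _ hx
  have e1 : ((4 * Real.pi * Q' j * y : ℝ) : ℂ) = 4 * Real.pi * Q' j * y := by push_cast; ring
  rw [e1] at h6
  have e2 : Real.exp (-(2 * Real.pi * Q' j * y)) = Real.exp (-(4 * Real.pi * Q' j * y / 2)) := by
    congr 1; ring
  have e3 : Real.exp (-(Real.pi * y / 2 * Q' j)) = Real.exp (-(4 * Real.pi * Q' j * y / 8)) := by
    congr 1; ring
  rw [e2, e3]
  calc _ ≤ (2 ^ r * (1 + 4 * Real.pi * Q' j * y) ^ r) * Real.exp (-(4 * Real.pi * Q' j * y / 2)) := by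
        gcongr
    _ = 2 ^ r * ((1 + 4 * Real.pi * Q' j * y) ^ r * Real.exp (-(4 * Real.pi * Q' j * y / 2))) := by ring
    _ ≤ 2 ^ r * ((8 ^ r * r.factorial * Real.exp (1 / 8)) * Real.exp (-(4 * Real.pi * Q' j * y / 8))) := by
        gcongr
    _ = _ := by ring

theorem summ_TP (h1 : ∀ t : ℝ, 0 < t → Summable fun i => ‖c i‖ * Real.exp (-(t * Q i)))
    (h2 : ∀ t : ℝ, 0 < t → Summable fun i => Real.exp (-(t * Q' i)))
    (hQ' : ∀ j, 0 ≤ Q' j) {y : ℝ} (hy : 0 < y) : Summable fun p => ‖TP r c Q Q' y p‖ := by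
  have hB := summ_B (r := r) h2 hQ' hy
  have hA := h1 (2 * Real.pi * y) (by positivity)
  have h8 := hA.mul_of_nonneg hB (fun i => by positivity) (fun j => by positivity)
  refine h8.congr fun p => ?_
  unfold TP
  rw [norm_mul, norm_mul, Complex.norm_real, Real.norm_of_nonneg (Real.exp_pos _).le]
  have e4 : Real.exp (-(2 * Real.pi * (Q p.1 + Q' p.2) * y)) =
      Real.exp (-(2 * Real.pi * y * Q p.1)) * Real.exp (-(2 * Real.pi * Q' p.2 * y)) := by
    rw [← Real.exp_add]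
    congr 1
    ring
  rw [e4]
  ring


theorem prod_eq (h1 : ∀ t : ℝ, 0 < t → Summable fun i => ‖c i‖ * Real.exp (-(t * Q i)))
    (h2 : ∀ t : ℝ, 0 < t → Summable fun i => Real.exp (-(t * Q' i)))
    (hQ' : ∀ j, 0 ≤ Q' j) {y : ℝ} (hy : 0 < y) (t : ℝ) :
    SA c Q (t + y * Complex.I) * conj (SB r Q' (t + y * Complex.I)) =
      ((y : ℂ) ^ r)⁻¹ * ∑' p : ι × κ, TP r c Q Q' y p * ee ((Q p.1 - Q' p.2 : ℝ) * (t : ℂ)) := by
  have him : ((t : ℂ) + y * Complex.I).im = y := by simp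
  have hB : Summable fun j => ‖lag r (4 * Real.pi * Q' j * y)‖ * Real.exp (-(2 * Real.pi * Q' j * y)) :=
    summ_B h2 hQ' hy
  have hA := h1 (2 * Real.pi * y) (by positivity)
  unfold SA SB
  rw [him, map_mul, map_inv₀, map_pow, Complex.conj_ofReal, Complex.conj_tsum]
  have hfA : Summable fun i => ‖c i * ee (Q i * ((t : ℂ) + y * Complex.I))‖ := by
    refine hA.congr fun i => ?_
    rw [norm_mul, ThBAux.norm_ee, him]
    congr 2
    ring
  have hfB : Summable fun j => ‖conj (lag r (4 * Real.pi * Q' j * y) *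
      ee (Q' j * ((t : ℂ) + y * Complex.I)))‖ := by
    refine hB.congr fun j => ?_
    rw [RCLike.norm_conj, norm_mul, ThBAux.norm_ee, him]
  have h3 := tsum_mul_tsum_of_summable_norm hfA hfB
  rw [mul_left_comm, h3]
  congr 1
  refine tsum_congr fun p => ?_
  have e1 : (4 * (Real.pi : ℂ) * Q' p.2 * y) = ((4 * Real.pi * Q' p.2 * y : ℝ) : ℂ) := by
    push_cast
    ring
  unfold TP
  rw [map_mul, e1, lag_real, PetX.conj_ee]
  have e2 : ee (Q p.1 * ((t : ℂ) + y * Complex.I)) * ee (-conj (Q' p.2 * ((t : ℂ) + y * Complex.I))) =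
      Real.exp (-(2 * Real.pi * (Q p.1 + Q' p.2) * y)) * ee ((Q p.1 - Q' p.2 : ℝ) * (t : ℂ)) := by
    unfold ee
    rw [Complex.ofReal_exp, ← Complex.exp_add, ← Complex.exp_add]
    congr 1
    simp only [map_mul, map_add, Complex.conj_ofReal, Complex.conj_I]
    push_cast
    linear_combination (2 * Real.pi * (Q p.1 + Q' p.2) * y : ℂ) * Complex.I_sq
  calc _ = c p.1 * lag r ((4 * Real.pi * Q' p.2 * y : ℝ) : ℂ) *
        (ee (Q p.1 * ((t : ℂ) + y * Complex.I)) * ee (-conj (Q' p.2 * ((t : ℂ) + y * Complex.I)))) := by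
        ring
    _ = _ := by rw [e2]; ring

theorem ee_re (α : ℝ) : ‖ee (α : ℂ)‖ = 1 := by
  have := ThBAux.norm_ee α 1
  simpa using this

theorem inner [Countable ι] [Countable κ]
    (h1 : ∀ t : ℝ, 0 < t → Summable fun i => ‖c i‖ * Real.exp (-(t * Q i)))
    (h2 : ∀ t : ℝ, 0 < t → Summable fun i => Real.exp (-(t * Q' i)))
    (hQ' : ∀ j, 0 ≤ Q' j) (G : ℕ) (hG : 1 ≤ G)
    (hint : ∀ i j, ∃ n : ℤ, (G : ℝ) * (Q i - Q' j) = n) (m : ℕ) (h : ℤ) {y : ℝ} (hy : 0 < y) :
    IntervalIntegrable (fun x : ℝ => (∑ j ∈ Finset.range G, SA c Q (x + y * Complex.I + j - h) *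
      conj (SB r Q' (x + y * Complex.I + j - h))) * ee (-(m : ℂ) * (x - y * Complex.I)))
      volume 0 1 ∧
    ∫ x in (0 : ℝ)..1, (∑ j ∈ Finset.range G, SA c Q (x + y * Complex.I + j - h) *
      conj (SB r Q' (x + y * Complex.I + j - h))) * ee (-(m : ℂ) * (x - y * Complex.I)) =
      G * ((y : ℂ) ^ r)⁻¹ * ∑' p : {p : ι × κ // Q p.1 - Q' p.2 = m},
        c p.1.1 * lag r (4 * Real.pi * Q' p.1.2 * y) * Complex.exp (-(4 * Real.pi * Q p.1.1 * y)) := by
  have hG0 : (G : ℝ) ≠ 0 := by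
    have : G ≠ 0 := by omega
    exact_mod_cast this
  have hG0' : (G : ℂ) ≠ 0 := by exact_mod_cast hG0
  choose n hn using hint
  have hT := summ_TP (r := r) h1 h2 hQ' hy
  set K : ℂ := ((y : ℂ) ^ r)⁻¹ * ee (m * (y * Complex.I)) with hK
  let F : ι × κ → ℝ → ℂ := fun p x => TP r c Q Q' y p * ∑ j ∈ Finset.range G,
    (ee ((n p.1 p.2 : ℂ) / G * (x + j - h)) * ee (-((m : ℤ) : ℂ) * x))
  have hQn : ∀ (p : ι × κ), ((Q p.1 - Q' p.2 : ℝ) : ℂ) = (n p.1 p.2 : ℂ) / G := by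
    intro p
    rw [eq_div_iff hG0']
    have := hn p.1 p.2
    rw [mul_comm]
    exact_mod_cast this
  have hinteg : ∀ x : ℝ, (∑ j ∈ Finset.range G, SA c Q (x + y * Complex.I + j - h) *
      conj (SB r Q' (x + y * Complex.I + j - h))) * ee (-(m : ℂ) * (x - y * Complex.I)) =
      K * ∑' p, F p x := by
    intro x
    have e1 : ∀ j ∈ Finset.range G, SA c Q (x + y * Complex.I + j - h) *
      conj (SB r Q' (x + y * Complex.I + j - h)) = ((y : ℂ) ^ r)⁻¹ *
        ∑' p : ι × κ, TP r c Q Q' y p * ee ((n p.1 p.2 : ℂ) / G * (x + j - h)) := by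
      intro j _
      have e2 : ((x : ℂ) + y * Complex.I + j - h) = ((x + j - h : ℝ) : ℂ) + y * Complex.I := by
        push_cast
        ring
      rw [e2, prod_eq h1 h2 hQ' hy]
      congr 1
      refine tsum_congr fun p => ?_
      rw [hQn]
      push_cast
      rfl
    have hs : ∀ j ∈ Finset.range G, Summable fun p : ι × κ =>
        TP r c Q Q' y p * ee ((n p.1 p.2 : ℂ) / G * (x + j - h)) := by
      intro j _
      refine Summable.of_norm (hT.congr fun p => ?_)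
      rw [norm_mul]
      have e3 : ((n p.1 p.2 : ℂ) / G * (x + j - h)) =
          (((n p.1 p.2 : ℝ) / G * (x + j - h) : ℝ) : ℂ) := by push_cast; ring
      rw [e3, ee_re, mul_one]
    rw [Finset.sum_congr rfl e1, ← Finset.mul_sum, ← Summable.tsum_finsetSum hs]
    have e4 : ee (-(m : ℂ) * (x - y * Complex.I)) = ee (m * (y * Complex.I)) * ee (-((m : ℤ) : ℂ) * x) := by
      rw [← ee_add']
      congr 1
      push_cast
      ring
    rw [e4, hK]
    have e5 : ((y : ℂ) ^ r)⁻¹ * (∑' b : ι × κ, ∑ j ∈ Finset.range G,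
          TP r c Q Q' y b * ee ((n b.1 b.2 : ℂ) / G * (x + j - h))) *
          (ee (m * (y * Complex.I)) * ee (-((m : ℤ) : ℂ) * x)) =
        ((y : ℂ) ^ r)⁻¹ * ee (m * (y * Complex.I)) * ((∑' b : ι × κ, ∑ j ∈ Finset.range G,
          TP r c Q Q' y b * ee ((n b.1 b.2 : ℂ) / G * (x + j - h))) * ee (-((m : ℤ) : ℂ) * x)) := by
      ring
    rw [e5, ← tsum_mul_right]
    congr 1
    refine tsum_congr fun p => ?_
    simp only [F]
    rw [Finset.mul_sum, Finset.sum_mul]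
    refine Finset.sum_congr rfl fun j _ => ?_
    ring
  simp_rw [hinteg]
  rw [intervalIntegral.integral_const_mul]
  have hcont : ∀ p, Continuous (F p) := by
    intro p
    simp only [F]
    refine continuous_const.mul (continuous_finsetSum _ fun j _ => ?_)
    refine (ThBAux.ee_cont.comp ?_).mul (ThBAux.ee_cont.comp ?_)
    · fun_prop
    · fun_prop
  have hnorm : ∀ p x, ‖F p x‖ ≤ G * ‖TP r c Q Q' y p‖ := by
    intro p x
    simp only [F]
    rw [norm_mul, mul_comm]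
    gcongr
    refine le_trans (norm_sum_le _ _) ?_
    refine le_trans (Finset.sum_le_sum (g := fun _ => (1 : ℝ)) fun j _ => ?_) (by simp)
    rw [norm_mul]
    have e3 : ((n p.1 p.2 : ℂ) / G * (x + j - h)) =
        (((n p.1 p.2 : ℝ) / G * (x + j - h) : ℝ) : ℂ) := by push_cast; ring
    have e4 : (-((m : ℤ) : ℂ) * x) = ((-(m : ℝ) * x : ℝ) : ℂ) := by push_cast; ring
    rw [e3, e4, ee_re, ee_re, one_mul]
  have hFi : ∀ p, Integrable (F p) (volume.restrict (Ioc (0 : ℝ) 1)) := fun p =>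
    ((hcont p).integrableOn_Icc (a := 0) (b := 1)).mono_set Ioc_subset_Icc_self
  have hFs : Summable fun p => ∫ x in Ioc (0 : ℝ) 1, ‖F p x‖ := by
    refine Summable.of_nonneg_of_le (fun p => integral_nonneg fun _ => norm_nonneg _) (fun p => ?_)
      (hT.mul_left (G : ℝ))
    have := norm_setIntegral_le_of_norm_le_const (μ := volume) (s := Ioc (0 : ℝ) 1)
      (f := fun x => ‖F p x‖) (C := G * ‖TP r c Q Q' y p‖) (by simp)
      (fun x _ => by rw [norm_norm]; exact hnorm p x)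
    rw [Real.norm_of_nonneg (integral_nonneg fun _ => norm_nonneg _)] at this
    simpa using this
  refine ⟨?_, ?_⟩
  · rw [intervalIntegrable_iff_integrableOn_Ioc_of_le zero_le_one]
    exact (integrable_tsum hFi hFs).const_mul K
  have hsum := hasSum_integral_of_summable_integral_norm hFi hFs
  have hI : ∀ p, ∫ x in Ioc (0 : ℝ) 1, F p x = TP r c Q Q' y p *
      (if n p.1 p.2 = G * (m : ℤ) then (G : ℂ) else 0) := by
    intro p
    rw [← intervalIntegral.integral_of_le zero_le_one]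
    simp only [F]
    rw [intervalIntegral.integral_const_mul, intervalIntegral.integral_finsetSum]
    · rw [phase G hG]
    · intro j _
      refine Continuous.intervalIntegrable ?_ _ _
      refine (ThBAux.ee_cont.comp ?_).mul (ThBAux.ee_cont.comp ?_)
      · fun_prop
      · fun_prop
  rw [intervalIntegral.integral_of_le zero_le_one, ← hsum.tsum_eq]
  simp_rw [hI]
  have e6 : ∀ p : ι × κ, TP r c Q Q' y p * (if n p.1 p.2 = G * (m : ℤ) then (G : ℂ) else 0) =
      G * Set.indicator {p : ι × κ | Q p.1 - Q' p.2 = m} (TP r c Q Q' y) p := by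
    intro p
    have hiff : n p.1 p.2 = G * (m : ℤ) ↔ Q p.1 - Q' p.2 = m := by
      constructor
      · intro h3
        have h4 := hn p.1 p.2
        rw [h3] at h4
        push_cast at h4
        exact mul_left_cancel₀ hG0 h4
      · intro h3
        have h4 := hn p.1 p.2
        rw [h3] at h4
        exact_mod_cast h4.symm
    by_cases h5 : Q p.1 - Q' p.2 = m
    · rw [if_pos (hiff.2 h5), Set.indicator_of_mem (by exact h5)]
      ring
    · rw [if_neg (fun h6 => h5 (hiff.1 h6)), Set.indicator_of_notMem (by exact h5)]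
      ring
  simp_rw [e6]
  rw [tsum_mul_left, ← tsum_subtype]
  rw [hK]
  have e7 : ∀ p : {p : ι × κ // Q p.1 - Q' p.2 = m}, ee (m * (y * Complex.I)) * TP r c Q Q' y p.1 =
      c p.1.1 * lag r (4 * Real.pi * Q' p.1.2 * y) * Complex.exp (-(4 * Real.pi * Q p.1.1 * y)) := by
    intro p
    unfold TP ee
    have h7 := p.2
    have h8 : (Q' p.1.2 : ℂ) = Q p.1.1 - m := by
      have : Q' p.1.2 = Q p.1.1 - m := by linarith
      rw [this]
      push_cast
      ring
    have e8 : Complex.exp (2 * Real.pi * Complex.I * (m * (y * Complex.I))) *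
        ((Real.exp (-(2 * Real.pi * (Q p.1.1 + Q' p.1.2) * y)) : ℝ) : ℂ) =
        Complex.exp (-(4 * Real.pi * Q p.1.1 * y)) := by
      rw [Complex.ofReal_exp, ← Complex.exp_add]
      congr 1
      push_cast
      rw [h8]
      linear_combination (2 * Real.pi * m * y : ℂ) * Complex.I_sq
    rw [← e8]
    ring
  have e9 : ∑' p : {p : ι × κ // Q p.1 - Q' p.2 = m},
        c p.1.1 * lag r (4 * Real.pi * Q' p.1.2 * y) * Complex.exp (-(4 * Real.pi * Q p.1.1 * y)) =
      ee (m * (y * Complex.I)) * ∑' p : {p : ι × κ // Q p.1 - Q' p.2 = m}, TP r c Q Q' y p.1 := by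
    rw [← tsum_mul_left]
    exact tsum_congr fun p => (e7 p).symm
  rw [e9]
  have e10 : (∑' x : ({p : ι × κ | Q p.1 - Q' p.2 = m} : Set (ι × κ)), TP r c Q Q' y ↑x) =
      ∑' p : {p : ι × κ // Q p.1 - Q' p.2 = m}, TP r c Q Q' y p.1 := rfl
  rw [e10]
  ring


theorem norm_F (Qa Qb : ℝ) (w r : ℕ) (hb : 0 ≤ Qb) (hab : Qb ≤ Qa) {y : ℝ} (hy : 0 < y) :
    ‖(y : ℂ) ^ (w + r - 1) * lag r (4 * Real.pi * Qb * y) * Complex.exp (-(4 * Real.pi * Qa * y))‖ ≤
      3 ^ r * (y ^ (w + r - 1) * Real.exp (-(2 * Real.pi * Qa * y))) := by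
  have hx : 0 ≤ 4 * Real.pi * Qb * y := by positivity
  have h1 := lag_bd' r _ hx
  have e1 : ((4 * Real.pi * Qb * y : ℝ) : ℂ) = 4 * Real.pi * Qb * y := by push_cast; ring
  rw [e1] at h1
  have e2 : (-(4 * (Real.pi : ℂ) * Qa * y)) = ((-(4 * Real.pi * Qa * y) : ℝ) : ℂ) := by push_cast; ring
  rw [norm_mul, norm_mul, norm_pow, Complex.norm_of_nonneg hy.le, e2, ← Complex.ofReal_exp,
    Complex.norm_of_nonneg (Real.exp_pos _).le]
  have h2 : Real.exp (4 * Real.pi * Qb * y / 2) * Real.exp (-(4 * Real.pi * Qa * y)) ≤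
      Real.exp (-(2 * Real.pi * Qa * y)) := by
    rw [← Real.exp_add]
    refine Real.exp_le_exp.2 ?_
    have : 0 ≤ Real.pi * y * (Qa - Qb) := by
      have := Real.pi_pos
      have h3 : 0 ≤ Qa - Qb := by linarith
      positivity
    nlinarith
  calc y ^ (w + r - 1) * ‖lag r (4 * Real.pi * Qb * y)‖ * Real.exp (-(4 * Real.pi * Qa * y))
      ≤ y ^ (w + r - 1) * (3 ^ r * Real.exp (4 * Real.pi * Qb * y / 2)) *
          Real.exp (-(4 * Real.pi * Qa * y)) := by gcongr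
    _ = 3 ^ r * (y ^ (w + r - 1) * (Real.exp (4 * Real.pi * Qb * y / 2) *
          Real.exp (-(4 * Real.pi * Qa * y)))) := by ring
    _ ≤ _ := by gcongr

theorem outer (hgam : StGam) [Countable ι] [Countable κ] (hQ' : ∀ j, 0 ≤ Q' j) {w m : ℕ}
    (hw : 1 ≤ w) (hm : 1 ≤ m)
    (hS : Summable fun p : {p : ι × κ // Q p.1 - Q' p.2 = m} =>
      ‖c p.1.1‖ * ((Q p.1.1) ^ (w + r))⁻¹) :
    IntegrableOn (fun y : ℝ => (y : ℂ) ^ (w + r - 1) * ∑' p : {p : ι × κ // Q p.1 - Q' p.2 = m},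
      c p.1.1 * lag r (4 * Real.pi * Q' p.1.2 * y) * Complex.exp (-(4 * Real.pi * Q p.1.1 * y)))
      (Ioi 0) ∧
    ∫ y in Ioi (0 : ℝ), (y : ℂ) ^ (w + r - 1) * ∑' p : {p : ι × κ // Q p.1 - Q' p.2 = m},
      c p.1.1 * lag r (4 * Real.pi * Q' p.1.2 * y) * Complex.exp (-(4 * Real.pi * Q p.1.1 * y)) =
      ∑' p : {p : ι × κ // Q p.1 - Q' p.2 = m}, c p.1.1 * (((w + r - 1).factorial : ℂ) *
        ((4 * Real.pi * Q p.1.1) ^ (w + r))⁻¹ * Jr w r (Q' p.1.2 / Q p.1.1)) := by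
  let F : {p : ι × κ // Q p.1 - Q' p.2 = m} → ℝ → ℂ := fun p y => c p.1.1 *
    ((y : ℂ) ^ (w + r - 1) * lag r (4 * Real.pi * Q' p.1.2 * y) *
      Complex.exp (-(4 * Real.pi * Q p.1.1 * y)))
  have hfun : (fun y : ℝ => (y : ℂ) ^ (w + r - 1) * ∑' p : {p : ι × κ // Q p.1 - Q' p.2 = m},
      c p.1.1 * lag r (4 * Real.pi * Q' p.1.2 * y) * Complex.exp (-(4 * Real.pi * Q p.1.1 * y))) =
      fun y => ∑' p, F p y := by
    funext y
    rw [← tsum_mul_left]
    refine tsum_congr fun p => ?_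
    simp only [F]
    ring
  rw [hfun]
  have hm' : (1 : ℝ) ≤ m := by exact_mod_cast hm
  have hQpos : ∀ p : {p : ι × κ // Q p.1 - Q' p.2 = m}, 0 < Q p.1.1 ∧ Q' p.1.2 ≤ Q p.1.1 := by
    intro p
    have h1 := p.2
    have h2 := hQ' p.1.2
    constructor <;> linarith
  have hFi : ∀ p, Integrable (F p) (volume.restrict (Ioi (0 : ℝ))) := fun p =>
    ((hgam w r (Q p.1.1) (Q' p.1.2) hw (hQpos p).1 (hQ' _)).1).const_mul _
  have hFn : Summable fun p => ∫ y in Ioi (0 : ℝ), ‖F p y‖ := by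
    refine Summable.of_nonneg_of_le (fun p => integral_nonneg fun _ => norm_nonneg _) (fun p => ?_)
      (hS.mul_left (3 ^ r * ((w + r - 1).factorial * ((2 * Real.pi) ^ (w + r))⁻¹)))
    have hpos : 0 < 2 * Real.pi * Q p.1.1 := by
      have := (hQpos p).1
      positivity
    obtain ⟨h3, h4⟩ := GamAux.real_int (w + r - 1) hpos
    have h5 : ∫ y in Ioi (0 : ℝ), ‖F p y‖ ≤ ∫ y in Ioi (0 : ℝ), ‖c p.1.1‖ * (3 ^ r *
        (y ^ (w + r - 1) * Real.exp (-(2 * Real.pi * Q p.1.1 * y)))) := by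
      refine setIntegral_mono_on (hFi p).norm ((h3.const_mul _).const_mul _) measurableSet_Ioi ?_
      intro y hy
      simp only [F]
      rw [norm_mul]
      exact mul_le_mul_of_nonneg_left (norm_F _ _ w r (hQ' _) (hQpos p).2 hy) (norm_nonneg _)
    refine le_trans h5 ?_
    rw [integral_const_mul, integral_const_mul, h4]
    have h6 : w + r - 1 + 1 = w + r := by omega
    rw [h6, mul_pow (2 * Real.pi)]
    rw [mul_inv]
    apply le_of_eq
    ring
  refine ⟨integrable_tsum hFi hFn, ?_⟩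
  rw [← integral_tsum_of_summable_integral_norm hFi hFn]
  refine tsum_congr fun p => ?_
  simp only [F]
  rw [integral_const_mul]
  congr 1
  have := (hgam w r (Q p.1.1) (Q' p.1.2) hw (hQpos p).1 (hQ' _)).2
  exact this


theorem summ_pairs (w m : ℕ) (hw : 6 ≤ w) (hm : 1 ≤ m) {X : ι → ℝ} {Y : κ → ℝ}
    {k0 k1 k2 : ℝ} (hX0 : ∀ i, 0 ≤ X i) (hY0 : ∀ j, 0 ≤ Y j) (hk0 : 0 ≤ k0) (hk1 : 0 < k1)
    (hk2 : 0 < k2)
    (hX : Summable fun i => ((X i) ^ 3)⁻¹) (hY : Summable fun j => ((1 + Y j) ^ 3)⁻¹)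
    (hc : ∀ i, ‖c i‖ = k0 * X i ^ (w + 2 * r)) (hQ : ∀ i, Q i = k1 * X i ^ 2)
    (hQ' : ∀ j, Q' j = k2 * Y j ^ 2) :
    Summable fun p : {p : ι × κ // Q p.1 - Q' p.2 = m} => ‖c p.1.1‖ * ((Q p.1.1) ^ (w + r))⁻¹ := by
  set L : ℝ := Real.sqrt k1 + Real.sqrt (k1 / k2) with hL
  have hs1 : 0 < Real.sqrt k1 := Real.sqrt_pos.2 hk1
  have hL0 : 0 < L := by
    have := Real.sqrt_nonneg (k1 / k2)
    rw [hL]
    linarith
  have hprod := (hX.mul_of_nonneg hY (fun i => by have := hX0 i; positivity)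
    (fun j => by have := hY0 j; positivity)).mul_left
      (k0 * (k1 ^ (w + r))⁻¹ * (Real.sqrt k1) ^ (w - 6) * L ^ 3)
  have hsub := hprod.subtype {p : ι × κ | Q p.1 - Q' p.2 = m}
  refine Summable.of_nonneg_of_le (fun p => ?_) (fun p => ?_) hsub
  · have := hQ p.1.1
    have h2 := hX0 p.1.1
    rw [this]
    positivity
  · have hm' : (1 : ℝ) ≤ m := by exact_mod_cast hm
    have hp := p.2
    set x := X p.1.1 with hx
    set y := Y p.1.2 with hy
    have hx0 : 0 ≤ x := hX0 _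
    have hy0 : 0 ≤ y := hY0 _
    have hq : Q p.1.1 = k1 * x ^ 2 := hQ _
    have hq' : Q' p.1.2 = k2 * y ^ 2 := hQ' _
    have hge : 1 ≤ k1 * x ^ 2 := by
      have : 0 ≤ k2 * y ^ 2 := by positivity
      rw [hq, hq'] at hp
      linarith
    have hle : k2 * y ^ 2 ≤ k1 * x ^ 2 := by
      rw [hq, hq'] at hp
      linarith
    have hxpos : 0 < x := by
      rcases hx0.eq_or_lt with h | h
      · rw [← h] at hge
        norm_num at hge
      · exact h
    have h1 : 1 ≤ Real.sqrt k1 * x := by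
      have h2 : (1 : ℝ) ≤ Real.sqrt (k1 * x ^ 2) := by
        rw [← Real.sqrt_one]
        exact Real.sqrt_le_sqrt hge
      rwa [Real.sqrt_mul hk1.le, Real.sqrt_sq hx0] at h2
    have h3 : y ≤ Real.sqrt (k1 / k2) * x := by
      have h4 : y ^ 2 ≤ (k1 / k2) * x ^ 2 := by
        rw [div_mul_eq_mul_div, le_div_iff₀ hk2]
        linarith
      have h5 : y ≤ Real.sqrt ((k1 / k2) * x ^ 2) := by
        rw [← Real.sqrt_sq hy0]
        exact Real.sqrt_le_sqrt h4
      rwa [Real.sqrt_mul (by positivity), Real.sqrt_sq hx0] at h5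
    have h6 : 1 + y ≤ L * x := by
      rw [hL]
      linarith
    have h7 : (x ^ 3)⁻¹ ≤ L ^ 3 * ((1 + y) ^ 3)⁻¹ := by
      rw [← div_eq_mul_inv, le_div_iff₀ (by positivity), inv_mul_le_iff₀ (by positivity)]
      calc (1 + y) ^ 3 ≤ (L * x) ^ 3 := by gcongr
        _ = _ := by ring
    have h8 : (x ^ (w - 6))⁻¹ ≤ Real.sqrt k1 ^ (w - 6) := by
      rw [inv_le_iff_one_le_mul₀ (by positivity), ← mul_pow]
      exact one_le_pow₀ h1
    have h9 : ‖c p.1.1‖ * ((Q p.1.1) ^ (w + r))⁻¹ =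
        k0 * (k1 ^ (w + r))⁻¹ * ((x ^ (w - 6))⁻¹ * ((x ^ 3)⁻¹ * (x ^ 3)⁻¹)) := by
      have hcc : ‖c p.1.1‖ = k0 * x ^ (w + 2 * r) := hc _
      rw [hcc, hq]
      have h10 : x ^ (2 * (w + r)) = x ^ (w + 2 * r) * (x ^ (w - 6) * (x ^ 3 * x ^ 3)) := by
        rw [← pow_add, ← pow_add, ← pow_add]
        congr 1
        omega
      rw [mul_pow, ← pow_mul, h10]
      have hxn : x ≠ 0 := hxpos.ne'
      field_simp
    rw [h9]
    show _ ≤ (k0 * (k1 ^ (w + r))⁻¹ * (Real.sqrt k1) ^ (w - 6) * L ^ 3) *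
      ((x ^ 3)⁻¹ * ((1 + y) ^ 3)⁻¹)
    calc k0 * (k1 ^ (w + r))⁻¹ * ((x ^ (w - 6))⁻¹ * ((x ^ 3)⁻¹ * (x ^ 3)⁻¹))
        ≤ k0 * (k1 ^ (w + r))⁻¹ * (Real.sqrt k1 ^ (w - 6) * ((x ^ 3)⁻¹ * (L ^ 3 * ((1 + y) ^ 3)⁻¹))) := by
          gcongr
      _ = _ := by ring

end

open NumberField UpperHalfPlane in
/-- summability over an ideal -/
theorem summ_id {F : Type} [Field F] [NumberField F] {σ : F →+* ℂ} {a : Ideal (𝓞 F)}
    {x y : 𝓞 F} (h : OBasis σ a x y) : Summable fun z : a => (‖σ (z : 𝓞 F)‖ ^ 3)⁻¹ := by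
  have hpos := h.pos
  have hy : σ y ≠ 0 := by
    intro h0
    rw [h0] at hpos
    simp at hpos
  have hz : 0 < (σ x / σ y).im := by
    have : σ x / σ y = σ x * conj (σ y) / (Complex.normSq (σ y) : ℝ) := by
      rw [Complex.normSq_eq_conj_mul_self]
      have : conj (σ y) ≠ 0 := by simpa using hy
      field_simp
    rw [this, Complex.div_ofReal_im]
    exact div_pos hpos (Complex.normSq_pos.2 hy)
  have h1 := (EisensteinSeries.summable_norm_eisSummand (k := 3) le_rfl ⟨σ x / σ y, hz⟩)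
  have h2 : ∀ z : a, ∃ v : Fin 2 → ℤ, (z : 𝓞 F) = (v 0 : 𝓞 F) * x + (v 1 : 𝓞 F) * y := by
    intro z
    obtain ⟨m, n, hmn⟩ := (h.mem z).1 z.2
    exact ⟨![m, n], by simpa using hmn⟩
  choose s hs using h2
  have hinj : Function.Injective s := by
    intro z z' hzz
    apply Subtype.ext
    rw [hs z, hs z', hzz]
  refine (((h1.comp_injective hinj)).mul_left ((‖σ y‖ ^ 3)⁻¹)).congr fun z => ?_
  have h3 : σ (z : 𝓞 F) = σ y * ((s z 0 : ℂ) * (σ x / σ y) + s z 1) := by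
    have e : ∀ n : ℤ, σ ((n : 𝓞 F) : F) = (n : ℂ) := by
      intro n
      have : ((n : 𝓞 F) : F) = (n : F) := map_intCast (algebraMap (𝓞 F) F) n
      rw [this, map_intCast]
    rw [hs z]
    push_cast
    rw [map_add, map_mul, map_mul, e, e]
    field_simp
  rw [h3, norm_mul, mul_pow, mul_inv]
  congr 1
  simp only [Function.comp, EisensteinSeries.eisSummand, norm_zpow]
  rw [zpow_neg]
  norm_cast

open NumberField in
theorem summ_id' {F : Type} [Field F] [NumberField F] {σ : F →+* ℂ} {a : Ideal (𝓞 F)}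
    {x y : 𝓞 F} (h : OBasis σ a x y) : Summable fun z : a => ((1 + ‖σ (z : 𝓞 F)‖) ^ 3)⁻¹ := by
  classical
  have h1 := summ_id h
  have h2 : Summable fun z : a => if z = 0 then (1 : ℝ) else 0 := by
    refine summable_of_ne_finset_zero (s := {0}) fun z hz => ?_
    rw [if_neg (by simpa using hz)]
  refine Summable.of_nonneg_of_le (fun z => by positivity) (fun z => ?_) (h1.add h2)
  by_cases hz : z = 0
  · rw [if_pos hz, hz]
    simp
  · rw [if_neg hz, add_zero]
    have h3 : 0 < ‖σ (z : 𝓞 F)‖ := by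
      rw [norm_pos_iff]
      intro h0
      apply hz
      apply Subtype.ext
      have h4 : ((z : 𝓞 F) : F) = 0 := (map_eq_zero σ).1 h0
      exact NumberField.RingOfIntegers.coe_eq_zero_iff.1 h4
    gcongr
    linarith

end JmX

end RZ

end Pool.Agent.Lib.MP_7c08ba_nt
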