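import Pool.Agent.Lib.MP_7c08ba_nt.RZ.StRm

set_option autoImplicit false

/-! (Q4) scaling of the functions `Kp`. -/

namespace Pool.Agent.Lib.MP_7c08ba_nt

namespace RZ

open Complex intervalIntegral

namespace KpScAux

theorem cpow_scale {a : ℝ} (ha : 0 < a) (z s : ℂ) :
    ((a : ℂ) * z) ^ s = (a : ℂ) ^ s * z ^ s := by
  have ha' : (a : ℂ) ≠ 0 := by exact_mod_cast ha.ne'
  by_cases hs : s = 0
  · rw [hs, cpow_zero, cpow_zero, cpow_zero, mul_one]
  by_cases hz : z = 0
  · rw [hz, mul_zero, zero_cpow hs, mul_zero]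
  · rw [cpow_def_of_ne_zero (mul_ne_zero ha' hz), cpow_def_of_ne_zero ha',
      cpow_def_of_ne_zero hz, log_ofReal_mul ha hz, add_mul, exp_add, ofReal_log ha.le]

end KpScAux

open KpScAux in
/-- (Q4) -/
theorem stKpSc : StKpSc := by
  intro k r n m a t ha
  have ha' : (0 : ℝ) < a := by exact_mod_cast ha
  unfold Kp
  have key : ∀ X A B : ℂ, A = (a : ℂ) ^ (t - k - 1) * B →
      X * A = (a : ℂ) ^ (t - k - 1) * (X * B) := by
    intro X A B h
    rw [h]
    ring
  refine key _ _ _ ?_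
  rw [← intervalIntegral.integral_const_mul]
  refine intervalIntegral.integral_congr fun φ _ => ?_
  have h1 : (((n * a : ℕ) : ℂ) + (m * a : ℕ)) * Real.sin φ +
      I * ((((m * a : ℕ) : ℂ) - (n * a : ℕ)) * Real.cos φ) =
      ((a : ℝ) : ℂ) * (((n : ℂ) + m) * Real.sin φ + I * (((m : ℂ) - n) * Real.cos φ)) := by
    push_cast
    ring
  simp only [h1]
  rw [cpow_scale ha', ofReal_natCast]
  ring

end RZ

end Pool.Agent.Lib.MP_7c08ba_nt
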