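import Pool.Agent.Lib.MP_7c08ba_nt.RZ.StD

set_option autoImplicit false

/-!
(D0) the Hecke character: absolute values, conjugate ideals, even type.
-/

namespace Pool.Agent.Lib.MP_7c08ba_nt

namespace RZ

open NumberField
open scoped ComplexConjugate nonZeroDivisors

theorem stPsi (h : StBas) : StPsi := by
  intro q F _ _ s σ χ cj k ψ hD hψ
  obtain ⟨-, -, -, -, -, hN, hC, -⟩ := h q F _ _ s σ χ cj hD
  refine ⟨?_, ?_, ?_⟩
  · have h1 := hψ 1 one_ne_zero
    have h2 := hψ (-1) (neg_ne_zero.2 one_ne_zero)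
    have h3 : Ideal.span {(-1 : 𝓞 F)} = Ideal.span {(1 : 𝓞 F)} := by
      rw [Ideal.span_singleton_neg]
    rw [h3, h1] at h2
    have e1 : σ ((1 : 𝓞 F) : F) = 1 := by simp
    have e2 : σ ((-1 : 𝓞 F) : F) = -1 := by simp
    rw [e1, e2, one_pow] at h2
    exact (neg_one_pow_eq_one_iff_even (by norm_num)).1 h2.symm
  · intro b hb
    have hb0 : b ∈ (Ideal (𝓞 F))⁰ := mem_nonZeroDivisors_of_ne_zero hb
    set n := Fintype.card (ClassGroup (𝓞 F)) with hn
    have hn0 : n ≠ 0 := Fintype.card_ne_zero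
    have hcl : ClassGroup.mk0 (⟨b, hb0⟩ ^ n : (Ideal (𝓞 F))⁰) = 1 := by
      rw [map_pow]
      exact pow_card_eq_one
    rw [ClassGroup.mk0_eq_one_iff] at hcl
    obtain ⟨⟨t, ht⟩⟩ := hcl
    have ht' : b ^ n = Ideal.span {t} := by
      rw [← Ideal.submodule_span_eq, ← ht]
      simp
    have ht0 : t ≠ 0 := by
      rintro rfl
      have : b ^ n = 0 := by rw [ht']; simp
      exact hb (pow_eq_zero_iff hn0 |>.1 this)
    have h1 : ψ b ^ n = σ (t : F) ^ k := by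
      rw [← map_pow, ht', hψ t ht0]
    have h2 : ‖σ (t : F)‖ ^ 2 = (Ideal.absNorm b : ℝ) ^ n := by
      rw [← Complex.normSq_eq_norm_sq, hN t, ← ht', map_pow]
      push_cast
      rfl
    have h3 : (‖ψ b‖ ^ 2) ^ n = ((Ideal.absNorm b : ℝ) ^ k) ^ n := by
      calc (‖ψ b‖ ^ 2) ^ n = ‖ψ b ^ n‖ ^ 2 := by rw [norm_pow]; ring
        _ = (‖σ (t : F)‖ ^ 2) ^ k := by rw [h1, norm_pow]; ring
        _ = _ := by rw [h2]; ring
    exact (pow_left_inj₀ (by positivity) (by positivity) hn0).1 h3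
  · intro b hb
    rw [← map_mul, hC b, hψ]
    · simp
    · exact_mod_cast fun h0 => hb (Ideal.absNorm_eq_zero_iff.1 h0)

end RZ

end Pool.Agent.Lib.MP_7c08ba_nt
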