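import Pool.Agent.Lib.MP_7c08ba_nt.RZ.StD

set_option autoImplicit false

/-!
(D3) the Rankin–Selberg integral is holomorphic.
-/

namespace Pool.Agent.Lib.MP_7c08ba_nt

namespace RZ

open NumberField MeasureTheory UpperHalfPlane Set
open scoped MatrixGroups ComplexConjugate nonZeroDivisors

namespace RSanAux

theorem im_neg_conj (z : ℍ) : 0 < (-conj (z : ℂ)).im := by
  simpa using z.im_pos

theorem cont_f {w : ℕ} (f : CuspForm 𝒮ℒ (w : ℤ)) :
    Continuous fun z : ℍ => f (ofComplex (-conj (z : ℂ))) := by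
  have h1 : Continuous (f : ℍ → ℂ) := (CuspFormClass.holo f).continuous
  have h2 : Continuous fun z : ℍ => ofComplex (-conj (z : ℂ)) := by
    have h3 : (fun z : ℍ => ofComplex (-conj (z : ℂ))) =
        fun z : ℍ => (⟨-conj (z : ℂ), im_neg_conj z⟩ : ℍ) := by
      funext z
      exact ofComplex_apply_of_im_pos (im_neg_conj z)
    rw [h3]
    refine UpperHalfPlane.isEmbedding_coe.continuous_iff.2 ?_
    exact (Complex.continuous_conj.comp UpperHalfPlane.continuous_coe).neg
  exact h1.comp h2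

theorem pow_exp_le (w : ℕ) {y : ℝ} (hy : 0 ≤ y) :
    y ^ w * Real.exp (-(2 * Real.pi * y)) ≤ w.factorial := by
  have h1 := Real.pow_div_factorial_le_exp y hy w
  have h2 : (0 : ℝ) < w.factorial := by exact_mod_cast w.factorial_pos
  have h3 : y ^ w ≤ w.factorial * Real.exp y := by
    rw [div_le_iff₀ h2] at h1
    linarith
  have h4 : Real.exp y * Real.exp (-(2 * Real.pi * y)) ≤ 1 := by
    rw [← Real.exp_add, Real.exp_le_one_iff]
    nlinarith [Real.pi_gt_three]
  calc y ^ w * Real.exp (-(2 * Real.pi * y))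
      ≤ w.factorial * Real.exp y * Real.exp (-(2 * Real.pi * y)) :=
        mul_le_mul_of_nonneg_right h3 (Real.exp_pos _).le
    _ = w.factorial * (Real.exp y * Real.exp (-(2 * Real.pi * y))) := by ring
    _ ≤ w.factorial * 1 := mul_le_mul_of_nonneg_left h4 h2.le
    _ = w.factorial := mul_one _

end RSanAux

open RSanAux in
theorem stRSan (h1 : StHH) (h2 : StHol) (h3 : StFd) (h4 : StCoef) : StRSan := by
  intro q hq F _ _ s σ χ cj w r f ψ c hD hw hwe
  obtain ⟨hA, hB, hC⟩ := h1 q hq F _ _ s σ χ cj w r ψ c hD hw hwe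
  obtain ⟨hvol, hmeas, hfd⟩ := h3
  obtain ⟨-, -, -, -, C₂, hC₂⟩ := h4 w f
  have hfin : IsFiniteMeasure ((volume : Measure ℍ).restrict (ModularGroup.fd : Set ℍ)) :=
    ⟨by rwa [Measure.restrict_apply_univ]⟩
  have hU : IsOpen {t : ℂ | -(r : ℝ) - 1 / 2 < t.re} :=
    isOpen_lt continuous_const Complex.continuous_re
  refine h2 ℍ _ (volume.restrict (ModularGroup.fd : Set ℍ)) _
    (fun t z => tr q w (HH q χ w r ψ c t) z * f (ofComplex (-conj (z : ℂ))) * (z.im : ℂ) ^ w)
    hU ?_ ?_ ?_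
  · intro t ht
    have hc1 : Continuous fun z : ℍ => tr q w (HH q χ w r ψ c t) z :=
      (hA t ht).2.1.comp_continuous UpperHalfPlane.continuous_coe fun z => z.im_pos
    have hc2 : Continuous fun z : ℍ => ((z.im : ℝ) : ℂ) ^ w :=
      (Complex.continuous_ofReal.comp UpperHalfPlane.continuous_im).pow w
    exact ((hc1.mul (cont_f f)).mul hc2).aestronglyMeasurable
  · refine Filter.Eventually.of_forall fun z => ?_
    exact ((hB z z.im_pos).mul_const _).mul_const _
  · intro t ht
    have ht' : -(r : ℝ) - 1 / 2 < t.re := ht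
    set δ : ℝ := (t.re - (-(r : ℝ) - 1 / 2)) / 2 with hδ
    have hδ0 : 0 < δ := by rw [hδ]; linarith
    obtain ⟨C, δ', hδ', hbd⟩ := hC (t.re - δ) (‖t‖ + δ) (by rw [hδ]; linarith)
    refine ⟨δ, fun _ => |C| * |C₂| * w.factorial, hδ0, integrable_const _, ?_⟩
    refine (ae_restrict_iff' hmeas).2 (Filter.Eventually.of_forall fun z hz => ?_)
    intro t' _ htt
    obtain ⟨hz1, hz2⟩ := hfd z hz
    have hre : t.re - δ ≤ t'.re := by
      have h5 : |(t' - t).re| ≤ ‖t' - t‖ := Complex.abs_re_le_norm _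
      rw [Complex.sub_re] at h5
      have h6 := neg_abs_le (t'.re - t.re)
      linarith
    have hno : ‖t'‖ ≤ ‖t‖ + δ := by
      have h5 : ‖t'‖ ≤ ‖t‖ + ‖t' - t‖ := by
        have := norm_add_le t (t' - t)
        rwa [add_sub_cancel] at this
      linarith
    have h5 := hbd t' z hre hno hz1.le hz2
    have h6 := hC₂ (-conj (z : ℂ)) (by simpa using hz1.le)
    have h7 : (-conj (z : ℂ)).im = z.im := by simp
    rw [h7] at h6
    have hy : 0 ≤ z.im := z.im_pos.le
    have h8 : ‖tr q w (HH q χ w r ψ c t') z‖ ≤ |C| := by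
      refine h5.trans ?_
      calc C * Real.exp (-(δ' * (z : ℂ).im)) ≤ |C| * Real.exp (-(δ' * (z : ℂ).im)) :=
            mul_le_mul_of_nonneg_right (le_abs_self C) (Real.exp_pos _).le
        _ ≤ |C| * 1 := by
            refine mul_le_mul_of_nonneg_left ?_ (abs_nonneg C)
            rw [Real.exp_le_one_iff]
            have : 0 ≤ δ' * (z : ℂ).im := mul_nonneg hδ'.le z.im_pos.le
            linarith
        _ = |C| := mul_one _
    have h9 : ‖f (ofComplex (-conj (z : ℂ)))‖ ≤ |C₂| * Real.exp (-(2 * Real.pi * z.im)) :=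
      h6.trans (mul_le_mul_of_nonneg_right (le_abs_self C₂) (Real.exp_pos _).le)
    have h10 : ‖((z.im : ℝ) : ℂ) ^ w‖ = z.im ^ w := by
      rw [norm_pow, Complex.norm_real, Real.norm_eq_abs, abs_of_nonneg hy]
    rw [norm_mul, norm_mul, h10]
    calc ‖tr q w (HH q χ w r ψ c t') z‖ * ‖f (ofComplex (-conj (z : ℂ)))‖ * z.im ^ w
        ≤ |C| * (|C₂| * Real.exp (-(2 * Real.pi * z.im))) * z.im ^ w := by
          gcongr
      _ = |C| * |C₂| * (z.im ^ w * Real.exp (-(2 * Real.pi * z.im))) := by ring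
      _ ≤ |C| * |C₂| * w.factorial := by
          refine mul_le_mul_of_nonneg_left (pow_exp_le w hy) ?_
          positivity

end RZ

end Pool.Agent.Lib.MP_7c08ba_nt
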