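import Pool.Agent.Lib.MP_7c08ba_nt.RZ.StD
import Pool.Agent.Lib.MP_7c08ba_nt.RZ.HH

set_option autoImplicit false

/-! (D4) the integrand of the Rankin–Selberg integral as a sum over coprime pairs. -/

namespace Pool.Agent.Lib.MP_7c08ba_nt

namespace RZ

open NumberField MeasureTheory UpperHalfPlane Set
open scoped MatrixGroups ComplexConjugate nonZeroDivisors

namespace RSptm

/-! ### Modular forms of level one on the plane -/

section

variable {w : ℕ}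

theorem wt_f (f : CuspForm 𝒮ℒ (w : ℤ)) : Wt w (fun z => f (ofComplex z)) := by
  intro γ z hz
  have h := SlashInvariantForm.slash_action_eqn'' (Γ := 𝒮ℒ) f
    (γ := (γ : GL (Fin 2) ℝ)) ⟨γ, rfl⟩ ⟨z, hz⟩
  have h1 : ((γ • (⟨z, hz⟩ : ℍ) : ℍ) : ℂ) =
      ((γ 0 0 : ℂ) * z + γ 0 1) / ((γ 1 0 : ℂ) * z + γ 1 1) := by
    rw [coe_specialLinearGroup_apply]
    simp
  simp only
  rw [← h1, ofComplex_apply, ofComplex_apply_of_im_pos hz]
  have h2 : denom (γ : GL (Fin 2) ℝ) (⟨z, hz⟩ : ℍ) = (γ 1 0 : ℂ) * z + γ 1 1 :=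
    ModularGroup.denom_apply γ ⟨z, hz⟩
  rw [h2, zpow_natCast] at h
  exact h

/-- the function `f (-conj z)` -/
theorem wt_conj (f : CuspForm 𝒮ℒ (w : ℤ)) (g : SL(2, ℤ)) {z : ℂ} (hz : 0 < z.im) :
    f (ofComplex (-conj (((g 0 0 : ℂ) * z + g 0 1) / ((g 1 0 : ℂ) * z + g 1 1)))) =
      (conj ((g 1 0 : ℂ) * z + g 1 1)) ^ w * f (ofComplex (-conj z)) := by
  have hd := EisLaw.det_eq g
  let g' : SL(2, ℤ) := ⟨!![g 0 0, -g 0 1; -g 1 0, g 1 1], by
    rw [Matrix.det_fin_two_of]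
    linear_combination hd⟩
  have h := wt_f f g' (-conj z) (by simpa using hz)
  have e1 : (((g' 0 0 : ℤ) : ℂ) * (-conj z) + ((g' 0 1 : ℤ) : ℂ)) /
      (((g' 1 0 : ℤ) : ℂ) * (-conj z) + ((g' 1 1 : ℤ) : ℂ)) =
      -conj (((g 0 0 : ℂ) * z + g 0 1) / ((g 1 0 : ℂ) * z + g 1 1)) := by
    show (((g 0 0 : ℤ) : ℂ) * (-conj z) + ((-g 0 1 : ℤ) : ℂ)) /
      (((-g 1 0 : ℤ) : ℂ) * (-conj z) + ((g 1 1 : ℤ) : ℂ)) = _
    rw [map_div₀, map_add, map_add, map_mul, map_mul, map_intCast, map_intCast, map_intCast,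
      map_intCast, ← neg_div]
    congr 1
    · push_cast
      ring
    · push_cast
      ring
  have e2 : ((g' 1 0 : ℤ) : ℂ) * (-conj z) + ((g' 1 1 : ℤ) : ℂ) =
      conj ((g 1 0 : ℂ) * z + g 1 1) := by
    show ((-g 1 0 : ℤ) : ℂ) * (-conj z) + ((g 1 1 : ℤ) : ℂ) = _
    rw [map_add, map_mul, map_intCast, map_intCast]
    push_cast
    ring
  rw [e1, e2] at h
  exact h

end

/-! ### The `L`-function of a real character -/

theorem cpow_conj_real {x : ℝ} (hx : 0 ≤ x) (a : ℂ) :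
    conj ((x : ℂ) ^ (conj a)) = (x : ℂ) ^ a := by
  have h : (x : ℂ).arg ≠ Real.pi := by
    rw [Complex.arg_ofReal_of_nonneg hx]
    exact Real.pi_pos.ne
  have h1 := Complex.cpow_conj (x : ℂ) (conj a) h
  rw [Complex.conj_conj, Complex.conj_ofReal] at h1
  exact h1.symm

theorem L_conj {q : ℕ} [NeZero q] {χ : DirichletCharacter ℂ q}
    (hχ : ∀ n : ℤ, conj (χ n) = χ n) {a : ℂ} (ha : 1 < a.re) :
    conj (DirichletCharacter.LFunction χ (conj a)) = DirichletCharacter.LFunction χ a := by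
  rw [DirichletCharacter.LFunction_eq_LSeries χ ha,
    DirichletCharacter.LFunction_eq_LSeries χ (by simpa using ha : 1 < (conj a).re)]
  unfold LSeries
  rw [Complex.conj_tsum]
  refine tsum_congr fun n => ?_
  unfold LSeries.term
  split_ifs with hn
  · exact map_zero _
  · rw [map_div₀]
    congr 1
    · have := hχ n
      rwa [Int.cast_natCast] at this
    · have := cpow_conj_real (x := (n : ℝ)) (Nat.cast_nonneg n) a
      rwa [Complex.ofReal_natCast] at this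

/-! ### The function to be summed -/

section

variable {q : ℕ} [NeZero q] {F : Type} [Field F] [NumberField F] {s : 𝓞 F} {σ : F →+* ℂ}
  {χ : DirichletCharacter ℂ q} {cj : 𝓞 F ≃+* 𝓞 F} {ψ : Ideal (𝓞 F) →*₀ ℂ} {c : Reps σ} {w : ℕ}

/-- the function to be summed -/
noncomputable def GG (w r : ℕ) {σ : F →+* ℂ} (ψ : Ideal (𝓞 F) →*₀ ℂ) (c : Reps σ)
    (f : CuspForm 𝒮ℒ (w : ℤ)) (t u : ℂ) : ℂ :=
  thψ (w + 2 * r) ψ c u * f (ofComplex (-conj u)) * (u.im : ℂ) ^ ((w : ℂ) + 2 * r + 1 + t)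

/-- the imaginary part of `g z` to a complex power -/
theorem im_cpow (g : SL(2, ℤ)) {z : ℂ} (hz : 0 < z.im) (m : ℕ) (t : ℂ) :
    (((((g 0 0 : ℂ) * z + g 0 1) / ((g 1 0 : ℂ) * z + g 1 1)).im : ℝ) : ℂ) ^ ((m : ℂ) + t) =
      (z.im : ℂ) ^ ((m : ℂ) + t) * ((((g 1 0 : ℂ) * z + g 1 1) *
        conj ((g 1 0 : ℂ) * z + g 1 1)) ^ m)⁻¹ *
        ((Complex.normSq ((g 1 0 : ℂ) * z + g 1 1) : ℝ) : ℂ) ^ (-t) := by
  have him := EisLaw.im_gz g hz
  have hne := EisLaw.den_ne g hz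
  set D : ℂ := (g 1 0 : ℂ) * z + g 1 1 with hD
  set v : ℂ := ((g 0 0 : ℂ) * z + g 0 1) / D with hv
  have hn0 : 0 < Complex.normSq D := Complex.normSq_pos.2 hne
  have hv0 : 0 ≤ v.im := by
    have : 0 < v.im * Complex.normSq D := by rw [him]; exact hz
    exact (pos_of_mul_pos_left this hn0.le).le
  have hnc : ((Complex.normSq D : ℝ) : ℂ) ≠ 0 := by exact_mod_cast hn0.ne'
  have e1 : (z.im : ℂ) ^ ((m : ℂ) + t) =
      (v.im : ℂ) ^ ((m : ℂ) + t) * ((Complex.normSq D : ℝ) : ℂ) ^ ((m : ℂ) + t) := by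
    rw [← Complex.mul_cpow_ofReal_nonneg hv0 hn0.le, ← him]
    push_cast
    rfl
  rw [e1, Complex.mul_conj, Complex.cpow_add _ _ hnc, Complex.cpow_natCast, Complex.cpow_neg]
  have h2 : ((Complex.normSq D : ℝ) : ℂ) ^ t ≠ 0 := by
    rw [Ne, Complex.cpow_eq_zero_iff]
    exact fun h => hnc h.1
  field_simp

theorem GG_law (h3 : StThG) (hd : Dat q s σ χ cj) (hw : Even w) (r : ℕ)
    (f : CuspForm 𝒮ℒ (w : ℤ)) (t : ℂ) (g : SL(2, ℤ)) {z : ℂ}
    (hz : 0 < z.im) (hc : (q : ℤ) ∣ g 1 0) :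
    GG w r ψ c f t (((g 0 0 : ℂ) * z + g 0 1) / ((g 1 0 : ℂ) * z + g 1 1)) =
      GG w r ψ c f t z * (χ (g 1 1 : ℤ) * (conj ((g 1 0 : ℂ) * z + g 1 1) ^ (2 * r + 1))⁻¹ *
        ((Complex.normSq ((g 1 0 : ℂ) * z + g 1 1) : ℝ) : ℂ) ^ (-t)) := by
  have hT := HHm.thψ_law (ψ := ψ) (c := c) h3 hd (k := w + 2 * r)
    (hw.add (even_two_mul r)) g hz hc
  have hf := wt_conj f g hz
  have hne := EisLaw.den_ne g hz
  have hi := im_cpow g hz (w + 2 * r + 1) t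
  have he : (((w + 2 * r + 1 : ℕ) : ℂ) + t) = (w : ℂ) + 2 * r + 1 + t := by push_cast; ring
  rw [he] at hi
  unfold GG
  rw [hT, hf, hi]
  set D : ℂ := (g 1 0 : ℂ) * z + g 1 1 with hD
  have hne2 : conj D ≠ 0 := (map_ne_zero _).2 hne
  have e3 : D ^ (w + 2 * r + 1) * conj D ^ w * ((D * conj D) ^ (w + 2 * r + 1))⁻¹ =
      (conj D ^ (2 * r + 1))⁻¹ := by
    rw [mul_pow, show conj D ^ (w + 2 * r + 1) = conj D ^ w * conj D ^ (2 * r + 1) by ring]
    field_simp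
  rw [← e3]
  ring

omit [NeZero q] in
theorem GG_periodic (h4 : StThB) (hd : Dat q s σ χ cj) (r : ℕ) (f : CuspForm 𝒮ℒ (w : ℤ))
    (t : ℂ) {u : ℂ} (hu : 0 < u.im) : GG w r ψ c f t (u + 1) = GG w r ψ c f t u := by
  have e1 : thψ (w + 2 * r) ψ c (u + 1) = thψ (w + 2 * r) ψ c u := by
    unfold thψ
    congr 1
    refine Finset.sum_congr rfl fun A _ => ?_
    rw [(h4 q F _ _ s σ χ cj _ (w + 2 * r) 0 hd (HHm.bot_ne _)).2.2.2.2.2.2.1 u]
  have e2 : f (ofComplex (-conj (u + 1))) = f (ofComplex (-conj u)) := by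
    have h := wt_f f ⟨!![1, 1; 0, 1], by rw [Matrix.det_fin_two_of]; norm_num⟩ (-conj (u + 1))
      (by simpa using hu)
    simp only at h
    have e3 : (((1 : ℤ) : ℂ) * (-conj (u + 1)) + ((1 : ℤ) : ℂ)) /
        (((0 : ℤ) : ℂ) * (-conj (u + 1)) + ((1 : ℤ) : ℂ)) = -conj u := by
      rw [map_add, map_one]
      push_cast
      ring
    have e4 : (((0 : ℤ) : ℂ) * (-conj (u + 1)) + ((1 : ℤ) : ℂ)) ^ w = 1 := by
      push_cast
      rw [zero_mul, zero_add, one_pow]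
    have h' : f (ofComplex ((((1 : ℤ) : ℂ) * (-conj (u + 1)) + ((1 : ℤ) : ℂ)) /
        (((0 : ℤ) : ℂ) * (-conj (u + 1)) + ((1 : ℤ) : ℂ)))) =
        (((0 : ℤ) : ℂ) * (-conj (u + 1)) + ((1 : ℤ) : ℂ)) ^ w *
          f (ofComplex (-conj (u + 1))) := h
    rw [e3, e4, one_mul] at h'
    exact h'.symm
  unfold GG
  rw [e1, e2]
  congr 2
  simp

omit [NeZero q] in
theorem GG_add_nat (h4 : StThB) (hd : Dat q s σ χ cj) (r : ℕ) (f : CuspForm 𝒮ℒ (w : ℤ))
    (t : ℂ) {u : ℂ} (hu : 0 < u.im) (n : ℕ) :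
    GG w r ψ c f t (u + n) = GG w r ψ c f t u := by
  induction n with
  | zero => simp
  | succ n ih =>
    have h := GG_periodic (ψ := ψ) (c := c) h4 hd r f t (u := u + n) (by simpa using hu)
    rw [ih] at h
    rw [← h]
    congr 1
    push_cast
    ring

omit [NeZero q] in
theorem GG_add_int (h4 : StThB) (hd : Dat q s σ χ cj) (r : ℕ) (f : CuspForm 𝒮ℒ (w : ℤ))
    (t : ℂ) {u : ℂ} (hu : 0 < u.im) (n : ℤ) :
    GG w r ψ c f t (u + n) = GG w r ψ c f t u := by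
  rcases Int.eq_nat_or_neg n with ⟨m, rfl | rfl⟩
  · have := GG_add_nat (ψ := ψ) (c := c) h4 hd r f t hu m
    rwa [Int.cast_natCast]
  · have h := GG_add_nat (ψ := ψ) (c := c) h4 hd r f t (u := u + ((-(m : ℤ) : ℤ) : ℂ))
      (by simpa using hu) m
    rw [← h]
    congr 1
    push_cast
    ring

omit [NeZero q] in
/-- the value at `g z` only depends on the bottom row -/
theorem GG_mob (h4 : StThB) (hd : Dat q s σ χ cj) (r : ℕ) (f : CuspForm 𝒮ℒ (w : ℤ))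
    (t : ℂ) (g : SL(2, ℤ)) {z : ℂ} (hz : 0 < z.im) :
    GG w r ψ c f t (mob (g 1 0, g 1 1) z) =
      GG w r ψ c f t (((g 0 0 : ℂ) * z + g 0 1) / ((g 1 0 : ℂ) * z + g 1 1)) := by
  have hne := EisLaw.den_ne g hz
  have him := EisLaw.im_gz g hz
  have hdet := EisLaw.det_eq g
  have hcop : IsCoprime (g 1 0) (g 1 1) := ⟨-g 0 1, g 0 0, by linear_combination hdet⟩
  have hb : g 1 0 * Int.gcdA (g 1 0) (g 1 1) + g 1 1 * Int.gcdB (g 1 0) (g 1 1) = 1 := by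
    rw [← Int.gcd_eq_gcd_ab, Int.isCoprime_iff_gcd_eq_one.1 hcop]
    rfl
  set A := Int.gcdA (g 1 0) (g 1 1) with hA
  set B := Int.gcdB (g 1 0) (g 1 1) with hB
  have hn : Complex.normSq ((g 1 0 : ℂ) * z + g 1 1) > 0 := Complex.normSq_pos.2 hne
  have hv : 0 < (((g 0 0 : ℂ) * z + g 0 1) / ((g 1 0 : ℂ) * z + g 1 1)).im := by
    have h1 : 0 < (((g 0 0 : ℂ) * z + g 0 1) / ((g 1 0 : ℂ) * z + g 1 1)).im *
        Complex.normSq ((g 1 0 : ℂ) * z + g 1 1) := by rw [him]; exact hz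
    exact pos_of_mul_pos_left h1 hn.le
  have key : mob (g 1 0, g 1 1) z = ((g 0 0 : ℂ) * z + g 0 1) / ((g 1 0 : ℂ) * z + g 1 1) +
      ((-(g 0 0 * A + g 0 1 * B) : ℤ) : ℂ) := by
    unfold mob
    simp only
    rw [← hA, ← hB, div_add' _ _ _ hne]
    congr 1
    have e1 : (B : ℂ) = g 0 0 + (-(g 0 0 * A + g 0 1 * B)) * g 1 0 := by
      have : B = g 0 0 + (-(g 0 0 * A + g 0 1 * B)) * g 1 0 := by
        linear_combination B * (-hdet) + g 0 0 * hb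
      exact_mod_cast this
    have e2 : (-(A : ℂ)) = g 0 1 + (-(g 0 0 * A + g 0 1 * B)) * g 1 1 := by
      have : -A = g 0 1 + (-(g 0 0 * A + g 0 1 * B)) * g 1 1 := by
        linear_combination A * hdet + g 0 1 * hb
      exact_mod_cast this
    push_cast
    linear_combination z * e1 + e2
  rw [key]
  exact GG_add_int h4 hd r f t hv _

end

/-! ### The Eisenstein series -/

/-- the matrix with bottom row `v` -/
noncomputable def gm (v : Cop) : SL(2, ℤ) :=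
  ⟨!![Int.gcdB v.1.1 v.1.2, -Int.gcdA v.1.1 v.1.2; v.1.1, v.1.2], by
    have hb : v.1.1 * Int.gcdA v.1.1 v.1.2 + v.1.2 * Int.gcdB v.1.1 v.1.2 = 1 := by
      rw [← Int.gcd_eq_gcd_ab, Int.isCoprime_iff_gcd_eq_one.1 v.2]
      rfl
    rw [Matrix.det_fin_two_of]
    linear_combination hb⟩

theorem gm_10 (v : Cop) : gm v 1 0 = v.1.1 := rfl

theorem gm_11 (v : Cop) : gm v 1 1 = v.1.2 := rfl

theorem mob_eq (v : Cop) (z : ℂ) :
    mob v.1 z = ((gm v 0 0 : ℂ) * z + gm v 0 1) / ((gm v 1 0 : ℂ) * z + gm v 1 1) := by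
  show _ = (((Int.gcdB v.1.1 v.1.2 : ℤ) : ℂ) * z + ((-Int.gcdA v.1.1 v.1.2 : ℤ) : ℂ)) /
    (((v.1.1 : ℤ) : ℂ) * z + ((v.1.2 : ℤ) : ℂ))
  unfold mob
  push_cast
  rw [sub_eq_add_neg]

section

variable {q : ℕ} [NeZero q] {F : Type} [Field F] [NumberField F] {s : 𝓞 F} {σ : F →+* ℂ}
  {χ : DirichletCharacter ℂ q} {cj : 𝓞 F ≃+* 𝓞 F} {ψ : Ideal (𝓞 F) →*₀ ℂ} {c : Reps σ} {w : ℕ}

theorem eis_conj (h1 : StEisBig) (hd : Dat q s σ χ cj) (r : ℕ) {t u : ℂ}
    (ht : 1 / 2 - (r : ℝ) < t.re) (hu : 0 < u.im) :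
    conj (eis q χ r (conj t) u) = 1 / 2 * DirichletCharacter.LFunction χ (2 * r + 1 + 2 * t) *
      ∑' v : Cop, (if (q : ℤ) ∣ v.1.1 then χ (v.1.2 : ℤ) else 0) *
        (conj ((v.1.1 : ℂ) * u + v.1.2) ^ (2 * r + 1))⁻¹ *
        ((Complex.normSq ((v.1.1 : ℂ) * u + v.1.2) : ℝ) : ℂ) ^ (-t) * (u.im : ℂ) ^ t := by
  rw [(h1 q inferInstance χ r hd.prime (HHm.two_lt hd) hd.chi (HHm.jac_neg hd) (conj t) u
    (by simpa using ht) hu).2, map_mul, map_mul]
  have hL : conj (DirichletCharacter.LFunction χ (2 * (r : ℂ) + 1 + 2 * conj t)) =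
      DirichletCharacter.LFunction χ (2 * r + 1 + 2 * t) := by
    have e : (2 * (r : ℂ) + 1 + 2 * conj t) = conj (2 * (r : ℂ) + 1 + 2 * t) := by
      have h2 : conj (2 : ℂ) = 2 := Complex.conj_ofNat 2
      rw [map_add, map_add, map_mul, map_mul, map_one, h2, Complex.conj_natCast]
    rw [e]
    refine L_conj (HHm.chi_conj hd) ?_
    have : (2 * (r : ℂ) + 1 + 2 * t).re = 2 * r + 1 + 2 * t.re := by simp
    rw [this]
    linarith
  rw [hL]
  have hh : conj (1 / 2 : ℂ) = 1 / 2 := by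
    rw [map_div₀, map_one]
    congr 1
    exact Complex.conj_ofNat 2
  rw [hh, Complex.conj_tsum]
  congr 1
  refine tsum_congr fun v => ?_
  rw [map_mul, map_mul, map_mul, map_inv₀, map_pow]
  have e1 : conj (if (q : ℤ) ∣ v.1.1 then χ (v.1.2 : ℤ) else 0) =
      if (q : ℤ) ∣ v.1.1 then χ (v.1.2 : ℤ) else 0 := by
    split_ifs
    · exact HHm.chi_conj hd _
    · exact map_zero _
  have e2 : conj (((Complex.normSq ((v.1.1 : ℂ) * u + v.1.2) : ℝ) : ℂ) ^ (-conj t)) =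
      ((Complex.normSq ((v.1.1 : ℂ) * u + v.1.2) : ℝ) : ℂ) ^ (-t) := by
    rw [← map_neg]
    exact cpow_conj_real (Complex.normSq_nonneg _) _
  have e3 : conj ((u.im : ℂ) ^ (conj t)) = (u.im : ℂ) ^ t := cpow_conj_real hu.le _
  rw [e1, e2, e3]

/-- the terms with first entry divisible by `q` -/
theorem GG_term (h3 : StThG) (hd : Dat q s σ χ cj) (hw : Even w) (r : ℕ)
    (f : CuspForm 𝒮ℒ (w : ℤ)) (t : ℂ) {u : ℂ} (hu : 0 < u.im) (v : Cop) :
    (if (q : ℤ) ∣ v.1.1 then GG w r ψ c f t (mob v.1 u) else 0) =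
      GG w r ψ c f t u * ((if (q : ℤ) ∣ v.1.1 then χ (v.1.2 : ℤ) else 0) *
        (conj ((v.1.1 : ℂ) * u + v.1.2) ^ (2 * r + 1))⁻¹ *
        ((Complex.normSq ((v.1.1 : ℂ) * u + v.1.2) : ℝ) : ℂ) ^ (-t)) := by
  split_ifs with hq
  · rw [mob_eq, GG_law h3 hd hw r f t (gm v) hu (by rw [gm_10]; exact hq)]
    rfl
  · ring

theorem GG_summable (h1 : StEisBig) (h3 : StThG) (hd : Dat q s σ χ cj) (hw : Even w) (r : ℕ)
    (f : CuspForm 𝒮ℒ (w : ℤ)) {t u : ℂ} (ht : 1 / 2 - (r : ℝ) < t.re) (hu : 0 < u.im) :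
    Summable fun v : Cop => if (q : ℤ) ∣ v.1.1 then GG w r ψ c f t (mob v.1 u) else 0 := by
  have hs := (h1 q inferInstance χ r hd.prime (HHm.two_lt hd) hd.chi (HHm.jac_neg hd) t u ht hu).1
  refine Summable.of_norm_bounded (hs.mul_left ‖GG w r ψ c f t u‖) fun v => ?_
  rw [GG_term h3 hd hw r f t hu v, norm_mul]
  refine mul_le_mul_of_nonneg_left ?_ (norm_nonneg _)
  rw [norm_mul, norm_mul, norm_mul, norm_inv, norm_inv, norm_pow, norm_pow, Complex.norm_conj]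
  refine mul_le_mul_of_nonneg_right ?_ (norm_nonneg _)
  refine mul_le_of_le_one_left (by positivity) ?_
  split_ifs
  · exact DirichletCharacter.norm_le_one χ _
  · simp

theorem HH_eq (h1 : StEisBig) (h3 : StThG) (hd : Dat q s σ χ cj) (hw : Even w) (r : ℕ)
    (f : CuspForm 𝒮ℒ (w : ℤ)) {t u : ℂ} (ht : 1 / 2 - (r : ℝ) < t.re) (hu : 0 < u.im) :
    HH q χ w r ψ c t u * f (ofComplex (-conj u)) * (u.im : ℂ) ^ w =
      1 / 2 * DirichletCharacter.LFunction χ (2 * r + 1 + 2 * t) *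
        ∑' v : Cop, if (q : ℤ) ∣ v.1.1 then GG w r ψ c f t (mob v.1 u) else 0 := by
  have hy : (u.im : ℂ) ≠ 0 := by exact_mod_cast hu.ne'
  simp only [GG_term h3 hd hw r f t hu]
  unfold HH
  rw [eis_conj h1 hd r ht hu, tsum_mul_left, tsum_mul_right]
  have e : (u.im : ℂ) ^ ((w : ℂ) + 2 * r + 1 + t) =
      (u.im : ℂ) ^ w * (u.im : ℂ) ^ (2 * r + 1) * (u.im : ℂ) ^ t := by
    rw [Complex.cpow_add _ _ hy, ← pow_add, ← Complex.cpow_natCast]
    congr 2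
    push_cast
    ring
  unfold GG
  rw [e]
  ring

end

/-! ### The cosets -/

/-- the matrix `S T ^ j` -/
def STj (j : ℕ) : SL(2, ℤ) := ⟨!![0, -1; 1, (j : ℤ)], by
  rw [Matrix.det_fin_two_of]
  ring⟩

theorem STj_apply (j : ℕ) (z : ℂ) :
    (((STj j) 0 0 : ℂ) * z + (STj j) 0 1) / (((STj j) 1 0 : ℂ) * z + (STj j) 1 1) =
      -1 / (z + j) := by
  show (((0 : ℤ) : ℂ) * z + ((-1 : ℤ) : ℂ)) / (((1 : ℤ) : ℂ) * z + (((j : ℤ) : ℤ) : ℂ)) = _
  push_cast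
  ring_nf

theorem STj_den (j : ℕ) (z : ℂ) : ((STj j) 1 0 : ℂ) * z + (STj j) 1 1 = z + j := by
  show ((1 : ℤ) : ℂ) * z + (((j : ℤ) : ℤ) : ℂ) = _
  push_cast
  ring

/-- multiplication by `S T ^ j` -/
def Ej (j : ℕ) : Cop ≃ Cop where
  toFun v := ⟨(v.1.2, v.1.2 * j - v.1.1), by
    obtain ⟨a, b, h⟩ := v.2
    exact ⟨b + a * j, -a, by linear_combination h⟩⟩
  invFun v := ⟨(v.1.1 * j - v.1.2, v.1.1), by
    obtain ⟨a, b, h⟩ := v.2
    exact ⟨-b, a + b * j, by linear_combination h⟩⟩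
  left_inv v := by
    apply Subtype.ext
    apply Prod.ext
    · simp
    · simp
  right_inv v := by
    apply Subtype.ext
    apply Prod.ext
    · simp
    · simp

/-- exactly one of the conditions holds -/
theorem exists_unique_j {q : ℕ} (hq : q.Prime) (v : Cop) (x : ℂ) :
    (if (q : ℤ) ∣ v.1.1 then x else 0) +
      ∑ j ∈ Finset.range q, (if (q : ℤ) ∣ v.1.1 * (j : ℤ) - v.1.2 then x else 0) = x := by
  obtain ⟨⟨c, d⟩, hv⟩ := v
  simp only
  simp only at hv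
  have hqp : Prime (q : ℤ) := Nat.prime_iff_prime_int.1 hq
  by_cases hc : (q : ℤ) ∣ c
  · rw [if_pos hc, Finset.sum_eq_zero, add_zero]
    intro j _
    rw [if_neg]
    intro h
    have hd : (q : ℤ) ∣ d := by
      have := (hc.mul_right (j : ℤ)).sub h
      rwa [sub_sub_cancel] at this
    exact hqp.not_isUnit (hv.isUnit_of_dvd' hc hd)
  · rw [if_neg hc, zero_add]
    have : Fact q.Prime := ⟨hq⟩
    have hc' : ((c : ℤ) : ZMod q) ≠ 0 := by
      rwa [Ne, ZMod.intCast_zmod_eq_zero_iff_dvd]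
    set a : ZMod q := (d : ZMod q) / (c : ZMod q) with ha
    have hmem : a.val ∈ Finset.range q := Finset.mem_range.2 (ZMod.val_lt a)
    have hiff : ∀ j : ℕ, (q : ℤ) ∣ c * (j : ℤ) - d ↔ (j : ZMod q) = a := by
      intro j
      rw [← ZMod.intCast_zmod_eq_zero_iff_dvd, ha, eq_div_iff hc']
      push_cast
      rw [sub_eq_zero, mul_comm]
    rw [Finset.sum_eq_single a.val]
    · rw [if_pos]
      rw [hiff]
      exact ZMod.natCast_zmod_val a
    · intro j hj hne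
      rw [if_neg]
      rw [hiff]
      intro h
      apply hne
      rw [← h, ZMod.val_natCast_of_lt (Finset.mem_range.1 hj)]
    · intro h
      exact absurd hmem h

section

variable {q : ℕ} [NeZero q] {F : Type} [Field F] [NumberField F] {s : 𝓞 F} {σ : F →+* ℂ}
  {χ : DirichletCharacter ℂ q} {cj : 𝓞 F ≃+* 𝓞 F} {ψ : Ideal (𝓞 F) →*₀ ℂ} {c : Reps σ} {w : ℕ}

omit [NeZero q] in
/-- the term of the trace -/
theorem GG_j (h4 : StThB) (hd : Dat q s σ χ cj) (r : ℕ)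
    (f : CuspForm 𝒮ℒ (w : ℤ)) (t : ℂ) {z : ℂ} (hz : 0 < z.im) (j : ℕ) (v : Cop) :
    (if (q : ℤ) ∣ v.1.1 then GG w r ψ c f t (mob v.1 (-1 / (z + j))) else 0) =
      (fun v' : Cop => if (q : ℤ) ∣ v'.1.1 * (j : ℤ) - v'.1.2 then
        GG w r ψ c f t (mob v'.1 z) else 0) (Ej j v) := by
  have e0 : ((Ej j v).1.1 * (j : ℤ) - (Ej j v).1.2) = v.1.1 := by
    show v.1.2 * (j : ℤ) - (v.1.2 * j - v.1.1) = v.1.1
    ring
  simp only [e0]
  have key : GG w r ψ c f t (mob v.1 (-1 / (z + j))) = GG w r ψ c f t (mob (Ej j v).1 z) := by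
    have h := GG_mob (ψ := ψ) (c := c) h4 hd r f t (gm v * STj j) hz
    have hne : z + j ≠ 0 := by
      intro h0
      have := congrArg Complex.im h0
      simp at this
      exact hz.ne' this
    have b0 : (gm v * STj j) 1 0 = v.1.2 := by
      rw [Matrix.SpecialLinearGroup.coe_mul, Matrix.mul_apply, Fin.sum_univ_two]
      show v.1.1 * 0 + v.1.2 * 1 = _
      ring
    have b1 : (gm v * STj j) 1 1 = v.1.2 * j - v.1.1 := by
      rw [Matrix.SpecialLinearGroup.coe_mul, Matrix.mul_apply, Fin.sum_univ_two]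
      show v.1.1 * (-1) + v.1.2 * (j : ℤ) = _
      ring
    have a0 : (gm v * STj j) 0 0 = gm v 0 1 := by
      rw [Matrix.SpecialLinearGroup.coe_mul, Matrix.mul_apply, Fin.sum_univ_two]
      show gm v 0 0 * 0 + gm v 0 1 * 1 = _
      ring
    have a1 : (gm v * STj j) 0 1 = gm v 0 1 * j - gm v 0 0 := by
      rw [Matrix.SpecialLinearGroup.coe_mul, Matrix.mul_apply, Fin.sum_univ_two]
      show gm v 0 0 * (-1) + gm v 0 1 * (j : ℤ) = _
      ring
    rw [b0, b1, a0, a1] at h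
    have e1 : mob (Ej j v).1 z = mob (v.1.2, v.1.2 * j - v.1.1) z := rfl
    rw [e1, h, mob_eq, gm_10, gm_11]
    congr 1
    push_cast
    rw [← mul_div_mul_right (((gm v 0 0 : ℤ) : ℂ) * (-1 / (z + j)) + ((gm v 0 1 : ℤ) : ℂ)) _ hne]
    congr 1
    · field_simp
      ring
    · field_simp
      ring
  rw [key]

theorem term_j (h1 : StEisBig) (h3 : StThG) (h4 : StThB) (hd : Dat q s σ χ cj) (hw : Even w)
    (r : ℕ) (f : CuspForm 𝒮ℒ (w : ℤ)) {t z : ℂ} (ht : 1 / 2 - (r : ℝ) < t.re) (hz : 0 < z.im)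
    (j : ℕ) :
    (Summable fun v : Cop => if (q : ℤ) ∣ v.1.1 * (j : ℤ) - v.1.2 then
      GG w r ψ c f t (mob v.1 z) else 0) ∧
    ((z + j) ^ w)⁻¹ * HH q χ w r ψ c t (-1 / (z + j)) * f (ofComplex (-conj z)) *
      (z.im : ℂ) ^ w = 1 / 2 * DirichletCharacter.LFunction χ (2 * r + 1 + 2 * t) *
        ∑' v : Cop, if (q : ℤ) ∣ v.1.1 * (j : ℤ) - v.1.2 then
          GG w r ψ c f t (mob v.1 z) else 0 := by
  have him := EisLaw.im_gz (STj j) hz
  have hf := wt_conj f (STj j) hz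
  rw [STj_apply, STj_den] at him hf
  have hne : z + j ≠ 0 := by
    intro h0
    have := congrArg Complex.im h0
    simp at this
    exact hz.ne' this
  have hn : 0 < Complex.normSq (z + j) := Complex.normSq_pos.2 hne
  have hz' : 0 < (-1 / (z + j)).im := by
    have h1 : 0 < (-1 / (z + j)).im * Complex.normSq (z + j) := by rw [him]; exact hz
    exact pos_of_mul_pos_left h1 hn.le
  have hS := GG_summable (ψ := ψ) (c := c) h1 h3 hd hw r f ht hz'
  have hE := HH_eq (ψ := ψ) (c := c) h1 h3 hd hw r f ht hz'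
  simp only [GG_j h4 hd r f t hz j] at hS hE
  refine ⟨(Ej j).summable_iff.1 hS, ?_⟩
  rw [(Ej j).tsum_eq (fun v' : Cop => if (q : ℤ) ∣ v'.1.1 * (j : ℤ) - v'.1.2 then
        GG w r ψ c f t (mob v'.1 z) else 0)] at hE
  rw [← hE, hf]
  have e : (z.im : ℂ) = ((-1 / (z + j)).im : ℂ) * ((z + j) * conj (z + j)) := by
    rw [Complex.mul_conj, ← him]
    push_cast
    rfl
  rw [e, mul_pow, mul_pow]
  have hne2 : conj (z + (j : ℂ)) ≠ 0 := (map_ne_zero _).2 hne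
  field_simp

end

end RSptm

open RSptm in
theorem stRSpt (h1 : StEisBig) (h2 : StThG) (_h3 : StBas) (h4 : StThB) : StRSpt := by
  intro q _ F _ _ s σ χ cj w r f ψ c hd hw1 hw t z ht hz
  have hF : ∀ u : ℂ, thψ (w + 2 * r) ψ c u * f (ofComplex (-conj u)) *
      (u.im : ℂ) ^ ((w : ℂ) + 2 * r + 1 + t) = GG w r ψ c f t u := fun u => rfl
  simp only [hF]
  have h0 := HH_eq (ψ := ψ) (c := c) h1 h2 hd hw r f ht hz
  have s0 := GG_summable (ψ := ψ) (c := c) h1 h2 hd hw r f ht hz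
  have hj := fun j : ℕ => (term_j (ψ := ψ) (c := c) h1 h2 h4 hd hw r f ht hz j).2
  have sj := fun j : ℕ => (term_j (ψ := ψ) (c := c) h1 h2 h4 hd hw r f ht hz j).1
  have hsum : ∑' v : Cop, GG w r ψ c f t (mob v.1 z) =
      (∑' v : Cop, if (q : ℤ) ∣ v.1.1 then GG w r ψ c f t (mob v.1 z) else 0) +
      ∑ j ∈ Finset.range q, ∑' v : Cop, if (q : ℤ) ∣ v.1.1 * (j : ℤ) - v.1.2 then
        GG w r ψ c f t (mob v.1 z) else 0 := by
    rw [← Summable.tsum_finsetSum fun j _ => sj j, ← Summable.tsum_add s0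
      (summable_sum fun j _ => sj j)]
    exact tsum_congr fun v => (exists_unique_j hd.prime v _).symm
  rw [hsum, mul_add, ← h0, Finset.mul_sum]
  have hj' : ∀ j ∈ Finset.range q, 1 / 2 * DirichletCharacter.LFunction χ (2 * r + 1 + 2 * t) *
      (∑' v : Cop, if (q : ℤ) ∣ v.1.1 * (j : ℤ) - v.1.2 then
        GG w r ψ c f t (mob v.1 z) else 0) =
      ((z + j) ^ w)⁻¹ * HH q χ w r ψ c t (-1 / (z + j)) * f (ofComplex (-conj z)) *
        (z.im : ℂ) ^ w := fun j _ => (hj j).symm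
  rw [Finset.sum_congr rfl hj']
  unfold tr
  rw [add_mul, add_mul, Finset.sum_mul, Finset.sum_mul]


end RZ

end Pool.Agent.Lib.MP_7c08ba_nt
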