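import Mathlib
import Pool.Agent.Lib.MP_7c08ba_nt.RZ.StRm

set_option autoImplicit false

/-!
(Q1) the coefficients of the theta series at multiples of `D`.
-/

namespace Pool.Agent.Lib.MP_7c08ba_nt

namespace RZ

open NumberField MeasureTheory UpperHalfPlane Set IsDedekindDomain
open scoped MatrixGroups ComplexConjugate nonZeroDivisors

/-- Module Q1. -/
theorem stRTm (h1 : StThK) (h2 : StBmulD) : StRTm := by
  intro D F _ _ s σ χ cj k ψ c hd hp hψ m hm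
  obtain ⟨-, -, -, hD, -⟩ := h1 D F _ _ s σ χ cj k ψ c hd hψ
  obtain ⟨-, hmul, -, -, hram⟩ := h2 D F _ _ s σ χ cj k ψ hd hψ
  have hD0 : D ≠ 0 := hp.ne_zero
  have hm0 : m ≠ 0 := by omega
  have hrT : ∀ n : ℕ, n ≠ 0 → rT k ψ c n = bψ ψ n := fun n hn => by
    unfold rT
    rw [if_neg hn]
  have hpow : ∀ n : ℕ, bψ ψ (D ^ n) = ψ (ram s D) ^ n := hram D hp dvd_rfl
  have h3 : ψ (ram s D) = (Complex.I * Real.sqrt D) ^ k := by
    rw [← hD hp, hrT D hD0, ← pow_one (ψ (ram s D)), ← hpow 1, pow_one]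
  obtain ⟨a, m', hm', rfl⟩ := Nat.exists_eq_pow_mul_and_not_dvd hm0 D hp.ne_one
  have hcop : ∀ n : ℕ, (D ^ n).Coprime m' := fun n =>
    ((Nat.Prime.coprime_iff_not_dvd hp).2 hm').pow_left n
  have e1 : D ^ a * m' * D = D ^ (a + 1) * m' := by ring
  rw [hrT _ (Nat.mul_ne_zero hm0 hD0), hrT _ hm0, e1, hmul _ _ (hcop _), hmul _ _ (hcop _),
    hpow, hpow, h3]
  ring

end RZ

end Pool.Agent.Lib.MP_7c08ba_nt
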