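import Pool.Agent.Lib.MP_bf61d2_nt.Perm.Equi

set_option autoImplicit false

/-!
Frobenius density theorem (for divisions), with given Frobenius elements.
-/

namespace Pool.Agent.Lib.MP_7c08ba_nt.RZ

open NumberField IsDedekindDomain Filter Topology Pool.Agent.Lib.MP_bf61d2_nt
  Pool.Agent.Lib.MP_bf61d2_nt.Perm

section

variable {K M : Type*} [Field K] [NumberField K] [Field M] [NumberField M] [Algebra K M]

theorem frob_finite [IsGalois K M] (P : HeightOneSpectrum (𝓞 K) → HeightOneSpectrum (𝓞 M))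
    (hP : ∀ v, dn (K := K) (P v) = v) (Fr : HeightOneSpectrum (𝓞 K) → Gal(M/K))
    (hFr : ∀ (v : HeightOneSpectrum (𝓞 K)) (x : 𝓞 M), Fr v • x - x ^ nm v ∈ (P v).asIdeal)
    (F : IntermediateField K M) :
    {v : HeightOneSpectrum (𝓞 K) | r1 F v ≠ fx F (Fr v)}.Finite := by
  have hfd : FiniteDimensional K M := Module.Finite.of_restrictScalars_finite ℚ K M
  obtain ⟨B, θ, hθ⟩ := exists_theta K F
  have hPinj : Function.Injective P := fun v v' h => by rw [← hP v, ← hP v', h]
  have hfin : ∀ q : (F →ₐ[K] M) × (F →ₐ[K] M), {v : HeightOneSpectrum (𝓞 K) | q.1 ≠ q.2 ∧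
      (RingOfIntegers.mapAlgHom q.1 : 𝓞 F →ₐ[𝓞 K] 𝓞 M) θ -
      (RingOfIntegers.mapAlgHom q.2 : 𝓞 F →ₐ[𝓞 K] 𝓞 M) θ ∈ (P v).asIdeal}.Finite := by
    intro q
    by_cases hq : q.1 = q.2
    · refine Set.Finite.subset Set.finite_empty fun v hv => absurd hq hv.1
    · have hne : (RingOfIntegers.mapAlgHom q.1 : 𝓞 F →ₐ[𝓞 K] 𝓞 M) θ -
          (RingOfIntegers.mapAlgHom q.2 : 𝓞 F →ₐ[𝓞 K] 𝓞 M) θ ≠ 0 := by
        intro h0
        apply hq
        apply B.algHom_ext
        rw [← hθ]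
        exact congrArg (algebraMap (𝓞 M) M) (sub_eq_zero.mp h0)
      refine Set.Finite.subset ((finite_dvd hne).preimage hPinj.injOn) fun v hv => ?_
      exact hv.2
  refine Set.Finite.subset (Set.finite_iUnion hfin) fun v hv => ?_
  by_contra hcon
  apply hv
  refine r1_eq_fx F (θ := θ) v (P v) (hP v) (Fr v) (hFr v) fun φ ψ hne hmem => ?_
  exact hcon (Set.mem_iUnion.mpr ⟨(φ, ψ), hne, hmem⟩)

theorem wp_le_one {σ : ℝ} (hσ : 0 ≤ σ) (v : HeightOneSpectrum (𝓞 K)) : wp σ v ≤ 1 := by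
  rw [wp]
  apply Real.rpow_le_one_of_one_le_of_nonpos
  · exact_mod_cast (one_lt_nm v).le
  · linarith

/-- **Frobenius density**: places with a Frobenius element which has the same fixed embeddings as a
given element. -/
theorem exists_place_ru [IsGalois K M] (P : HeightOneSpectrum (𝓞 K) → HeightOneSpectrum (𝓞 M))
    (hP : ∀ v, dn (K := K) (P v) = v) (Fr : HeightOneSpectrum (𝓞 K) → Gal(M/K))
    (hFr : ∀ (v : HeightOneSpectrum (𝓞 K)) (x : 𝓞 M), Fr v • x - x ^ nm v ∈ (P v).asIdeal)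
    (g : Gal(M/K)) (S : Set (HeightOneSpectrum (𝓞 K))) (hS : S.Finite) :
    ∃ v ∉ S, ∀ F : IntermediateField K M, fx F (Fr v) = fx F g := by
  classical
  have hfd : FiniteDimensional K M := Module.Finite.of_restrictScalars_finite ℚ K M
  have := Fintype.ofFinite Gal(M/K)
  by_contra hcon
  push Not at hcon
  have hfinI : Finite (IntermediateField K M) := by
    have h1 : Finite (Subgroup Gal(M/K))ᵒᵈ := inferInstanceAs (Finite (Subgroup Gal(M/K)))
    exact Finite.of_equiv _ (IsGalois.intermediateFieldEquivSubgroup (F := K) (E := M)).symm.toEquiv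
  obtain ⟨n, ⟨e⟩⟩ := Finite.exists_equiv_fin (IntermediateField K M)
  let f : Gal(M/K) → ℝ := fun h => if ∀ F : IntermediateField K M, fx F h = fx F g then 1 else 0
  have hf0 : ∀ h, 0 ≤ f h := fun h => by
    simp only [f]; split_ifs <;> norm_num
  have hf1 : ∀ h, f h ≤ 1 := fun h => by
    simp only [f]; split_ifs <;> norm_num
  have hfg : f g = 1 := if_pos fun F => rfl
  have heqd := eqd_of_fx (fun F => frob_finite P hP Fr hFr F) (fun i => e.symm i) f (by
    intro h h' hh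
    have h1 : ∀ F : IntermediateField K M, fx F h = fx F h' := by
      intro F
      have := hh (e F)
      rwa [Equiv.symm_apply_apply] at this
    simp only [f, h1])
  obtain ⟨C, hC0, hC⟩ := heqd 0
  simp only [if_true, zero_mul, Real.cos_zero, mul_one] at hC
  set m : ℝ := (∑ h, f h) / Fintype.card Gal(M/K) with hm
  have hm0 : 0 < m := by
    apply div_pos
    · have h1 : f g ≤ ∑ h, f h := Finset.single_le_sum (fun h _ => hf0 h) (Finset.mem_univ g)
      linarith
    · exact_mod_cast Fintype.card_pos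
  have hfv : ∀ v ∉ S, f (Fr v) = 0 := by
    intro v hv
    obtain ⟨F, hF⟩ := hcon v hv
    exact if_neg fun h => hF (h F)
  -- the sum is bounded
  have hbound : ∀ σ : ℝ, 1 < σ → ∑' v, wp σ v * f (Fr v) ≤ hS.toFinset.card := by
    intro σ hσ
    rw [tsum_eq_sum (s := hS.toFinset) (fun v hv => by
      rw [hfv v (by simpa using hv), mul_zero])]
    calc ∑ v ∈ hS.toFinset, wp σ v * f (Fr v) ≤ ∑ v ∈ hS.toFinset, (1 : ℝ) := by
          refine Finset.sum_le_sum fun v _ => ?_
          exact mul_le_one₀ (wp_le_one (by linarith) v) (hf0 _) (hf1 _)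
      _ = hS.toFinset.card := by simp
  -- the logarithm is not bounded
  have hlog : Tendsto (fun σ : ℝ => Real.log (1 / (σ - 1))) (𝓝[>] 1) atTop := by
    have h1 : Tendsto (fun σ : ℝ => σ - 1) (𝓝[>] 1) (𝓝[>] 0) := by
      apply tendsto_nhdsWithin_iff.mpr
      refine ⟨?_, ?_⟩
      · have h2 : Tendsto (fun σ : ℝ => σ - 1) (𝓝 1) (𝓝 (1 - 1)) :=
          (continuous_id.sub continuous_const).tendsto 1
        rw [sub_self] at h2
        exact h2.mono_left nhdsWithin_le_nhds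
      · filter_upwards [self_mem_nhdsWithin] with σ hσ
        have hσ' : (1 : ℝ) < σ := hσ
        exact sub_pos.mpr hσ'
    have h2 : Tendsto (fun σ : ℝ => 1 / (σ - 1)) (𝓝[>] 1) atTop := by
      simp only [one_div]
      exact tendsto_inv_nhdsGT_zero.comp h1
    exact Real.tendsto_log_atTop.comp h2
  have h1 := hlog.eventually_gt_atTop ((C + hS.toFinset.card) / m)
  obtain ⟨σ, h2, h3, h4⟩ := (hC.and (h1.and self_mem_nhdsWithin)).exists
  have h5 : (1 : ℝ) < σ := h4
  have h6 := hbound σ h5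
  have h7 := (abs_le.mp h2).1
  rw [div_lt_iff₀ hm0] at h3
  linarith

/-- elements with the same fixed embeddings generate conjugate subgroups -/
theorem conj_of_fx [IsGalois K M] (σ g : Gal(M/K))
    (h : ∀ F : IntermediateField K M, fx F σ = fx F g) :
    ∃ (τ : Gal(M/K)) (k : ℕ), τ * σ ^ k * τ⁻¹ = g := by
  have hfd : FiniteDimensional K M := Module.Finite.of_restrictScalars_finite ℚ K M
  set H := Subgroup.zpowers σ with hH
  have h1 := h (IntermediateField.fixedField H)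
  rw [fx_fixedField, fx_fixedField] at h1
  have h2 : 0 < fp (Gal(M/K) ⧸ H) σ := by
    rw [fp]
    have : Nonempty {x : Gal(M/K) ⧸ H // σ • x = x} := by
      refine ⟨⟨((1 : Gal(M/K)) : Gal(M/K) ⧸ H), ?_⟩⟩
      rw [MulAction.Quotient.smul_coe, smul_eq_mul, mul_one, QuotientGroup.eq, mul_one]
      exact H.inv_mem (Subgroup.mem_zpowers σ)
    exact Nat.card_pos
  rw [h1, fp] at h2
  have h3 : Nonempty {x : Gal(M/K) ⧸ H // g • x = x} := (Nat.card_pos_iff.mp h2).1
  obtain ⟨⟨x, hx⟩⟩ := h3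
  obtain ⟨τ, rfl⟩ := QuotientGroup.mk_surjective x
  rw [MulAction.Quotient.smul_mk, smul_eq_mul, QuotientGroup.eq] at hx
  -- `(g τ)⁻¹ τ` is a power of `σ`
  have h4 : τ⁻¹ * g * τ ∈ H := by
    have h5 := H.inv_mem hx
    have h6 : ((g * τ)⁻¹ * τ)⁻¹ = τ⁻¹ * g * τ := by group
    rwa [h6] at h5
  obtain ⟨k, hk⟩ := (isOfFinOrder_of_finite σ).mem_powers_iff_mem_zpowers.mpr h4
  refine ⟨τ, k, ?_⟩
  have hk' : σ ^ k = τ⁻¹ * g * τ := hk
  rw [hk']
  group

end

end Pool.Agent.Lib.MP_7c08ba_nt.RZ
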