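import Pool.Agent.Lib.MP_7c08ba_nt.HeckeDefs
import Pool.Agent.Lib.MP_7c08ba_nt.Tw.Frob

set_option autoImplicit false

/-!
Existence of Frobenius elements in the absolute Galois group at all primes.
-/

namespace Pool.Agent.Lib.MP_7c08ba_nt.RZ

open NumberField

variable {F : Type} [Field F] [NumberField F]

/-- Existence of Frobenius elements. -/
theorem exists_isFrobenius {P : Ideal (AllInt F)} (hP : P.IsPrime)
    (hP0 : P.under (𝓞 F) ≠ ⊥) : ∃ g : AbsGal F, IsFrobenius P g := by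
  set p : Ideal (𝓞 F) := P.under (𝓞 F) with hp
  have hpp : p.IsPrime := inferInstance
  have hmax : p.IsMaximal := hpp.isMaximal hP0
  have hfin : Finite (𝓞 F ⧸ p) := p.finiteQuotientOfFreeOfNeBot hP0
  let _ : Field (𝓞 F ⧸ p) := Ideal.Quotient.field p
  let _ : Fintype (𝓞 F ⧸ p) := Fintype.ofFinite _
  obtain ⟨l, hl⟩ := CharP.exists (𝓞 F ⧸ p)
  obtain ⟨n, hlp, hcard⟩ := FiniteField.card (𝓞 F ⧸ p) l
  have : Fact l.Prime := ⟨hlp⟩
  have hq : Nat.card (𝓞 F ⧸ p) = l ^ (n : ℕ) := by rw [Nat.card_eq_fintype_card, hcard]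
  -- the prime number `l` is in `P`
  have hlP : (l : AllInt F) ∈ P := by
    have h1 : ((l : ℕ) : 𝓞 F ⧸ p) = 0 := CharP.cast_eq_zero _ l
    have h2 : (l : 𝓞 F) ∈ p := by
      rw [← Ideal.Quotient.eq_zero_iff_mem, map_natCast]
      exact h1
    have h3 : algebraMap (𝓞 F) (AllInt F) (l : 𝓞 F) ∈ P := h2
    rwa [map_natCast] at h3
  have hchar : CharP (AllInt F ⧸ P) l := by
    have h0 : ((l : ℕ) : AllInt F ⧸ P) = 0 := by
      have h1 : ((l : ℕ) : AllInt F ⧸ P) = Ideal.Quotient.mk P (l : AllInt F) := by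
        rw [map_natCast]
      rw [h1, Ideal.Quotient.eq_zero_iff_mem]
      exact hlP
    obtain ⟨r, hr⟩ := CharP.exists (AllInt F ⧸ P)
    have h2 : r ∣ l := (CharP.cast_eq_zero_iff (AllInt F ⧸ P) r l).mp h0
    rcases (Nat.dvd_prime hlp).mp h2 with h3 | h3
    · exfalso
      rw [h3] at hr
      have := CharP.nontrivial_of_char_ne_one (R := AllInt F ⧸ P) (v := l)
      have h4 : ((1 : ℕ) : AllInt F ⧸ P) = 0 := (CharP.cast_eq_zero_iff (AllInt F ⧸ P) 1 1).mpr
        (dvd_refl 1)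
      rw [Nat.cast_one] at h4
      exact one_ne_zero h4
    · rwa [h3] at hr
  have : ExpChar (AllInt F ⧸ P) l := ExpChar.prime hlp
  have hinj : Function.Injective (iterateFrobenius (AllInt F ⧸ P) l n) :=
    iterateFrobenius_inj _ _ _
  have hq0 : 0 < l ^ (n : ℕ) := pow_pos hlp.pos _
  have hsurj : Function.Surjective (iterateFrobenius (AllInt F ⧸ P) l n) := by
    intro b
    obtain ⟨b, rfl⟩ := Ideal.Quotient.mk_surjective b
    obtain ⟨c, hc⟩ := IsAlgClosed.exists_pow_nat_eq (b : AlgebraicClosure F) hq0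
    have hci : IsIntegral ℤ c := by
      apply IsIntegral.of_pow hq0
      rw [hc]
      exact b.2
    obtain ⟨C, hC⟩ : ∃ C : AllInt F, C ^ (l ^ (n : ℕ)) = b := ⟨⟨c, hci⟩, RingOfIntegers.ext hc⟩
    refine ⟨Ideal.Quotient.mk P C, ?_⟩
    rw [iterateFrobenius_def, ← map_pow, hC]
  let e : (AllInt F ⧸ P) ≃+* (AllInt F ⧸ P) := RingEquiv.ofBijective _ ⟨hinj, hsurj⟩
  have he : ∀ x, e x = x ^ (l ^ (n : ℕ)) := fun x => iterateFrobenius_def _ _ _
  obtain ⟨g, -, hg⟩ := exists_lift_equiv (F := F) (Ω := AlgebraicClosure F) ⊤ isClosed_univ P e (by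
    intro x hx
    obtain ⟨x₀, hx₀⟩ : (x : AlgebraicClosure F) ∈ Set.range (algebraMap F (AlgebraicClosure F)) := by
      rw [InfiniteGalois.mem_range_algebraMap_iff_fixed]
      intro g
      have := hx g (Subgroup.mem_top g)
      exact congrArg (fun z : AllInt F => (z : AlgebraicClosure F)) this
    have hx₀i : IsIntegral ℤ x₀ := by
      have h1 : IsIntegral ℤ (algebraMap F (AlgebraicClosure F) x₀) := by
        rw [hx₀]
        exact x.2
      exact (isIntegral_algebraMap_iff (algebraMap F (AlgebraicClosure F)).injective).mp h1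
    have hxx : algebraMap (𝓞 F) (AllInt F) ⟨x₀, hx₀i⟩ = x := RingOfIntegers.ext hx₀
    have h1 : (Ideal.Quotient.mk p ⟨x₀, hx₀i⟩) ^ (l ^ (n : ℕ)) = Ideal.Quotient.mk p ⟨x₀, hx₀i⟩ := by
      rw [← hcard]
      exact FiniteField.pow_card _
    rw [← map_pow, Ideal.Quotient.eq] at h1
    have h2 : algebraMap (𝓞 F) (AllInt F) (⟨x₀, hx₀i⟩ ^ (l ^ (n : ℕ)) - ⟨x₀, hx₀i⟩) ∈ P := h1
    rw [map_sub, map_pow, hxx] at h2
    rw [he, ← map_pow, Ideal.Quotient.eq]
    exact h2)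
  refine ⟨g, fun x => ?_⟩
  rw [hq, ← Ideal.Quotient.eq, hg x, he, ← map_pow]

end Pool.Agent.Lib.MP_7c08ba_nt.RZ
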