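import Mathlib

set_option autoImplicit false

/-!
Residually unipotent matrices over an ultrametric field: the powers of such a matrix are residually
unipotent.
-/

namespace Pool.Agent.Lib.MP_7c08ba_nt.RZ

open Polynomial

/-- A valuation ring of an extension field above the valuation ring of `L`. -/
theorem exists_val (L M : Type*) [NormedField L] [IsUltrametricDist L] [Field M] [Algebra L M] :
    ∃ V : ValuationSubring M, ∀ x : L, V.valuation (algebraMap L M x) < 1 ↔ ‖x‖ < 1 := by
  let O : ValuationSubring L :=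
    { carrier := {x | ‖x‖ ≤ 1}
      mul_mem' := fun {a b} ha hb => by
        change ‖a * b‖ ≤ 1
        rw [norm_mul]
        exact mul_le_one₀ ha (norm_nonneg _) hb
      one_mem' := by
        change ‖(1 : L)‖ ≤ 1
        rw [norm_one]
      add_mem' := fun {a b} ha hb =>
        (IsUltrametricDist.norm_add_le_max a b).trans (max_le ha hb)
      zero_mem' := by
        change ‖(0 : L)‖ ≤ 1
        rw [norm_zero]; exact zero_le_one
      neg_mem' := fun {a} ha => by
        change ‖-a‖ ≤ 1
        rw [norm_neg]; exact ha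
      mem_or_inv_mem' := fun a => by
        by_cases ha : ‖a‖ ≤ 1
        · exact Or.inl ha
        · right
          change ‖a⁻¹‖ ≤ 1
          rw [norm_inv]
          exact inv_le_one_of_one_le₀ (le_of_lt (not_le.mp ha)) }
  have hO : ∀ x : L, x ∈ O ↔ ‖x‖ ≤ 1 := fun x => Iff.rfl
  have hOu : ∀ x : O, IsUnit x ↔ ‖(x : L)‖ = 1 := by
    intro x
    constructor
    · rintro ⟨u, rfl⟩
      have h1 : ((u : O) : L) * ((u⁻¹ : Oˣ) : O) = 1 := by
        have := u.mul_inv
        exact_mod_cast congrArg (Subtype.val) this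
      have h2 : ‖((u : O) : L)‖ * ‖(((u⁻¹ : Oˣ) : O) : L)‖ = 1 := by
        rw [← norm_mul, h1, norm_one]
      have h3 : ‖((u : O) : L)‖ ≤ 1 := (u : O).2
      have h4 : ‖(((u⁻¹ : Oˣ) : O) : L)‖ ≤ 1 := ((u⁻¹ : Oˣ) : O).2
      nlinarith [norm_nonneg ((u : O) : L), norm_nonneg (((u⁻¹ : Oˣ) : O) : L)]
    · intro h
      have hx0 : (x : L) ≠ 0 := by
        intro h0
        rw [h0, norm_zero] at h
        exact zero_ne_one h
      refine IsUnit.of_mul_eq_one ⟨(x : L)⁻¹, ?_⟩ ?_
      · rw [hO, norm_inv, h, inv_one]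
      · ext
        exact mul_inv_cancel₀ hx0
  let f : O →+* M := (algebraMap L M).comp O.subtype
  obtain ⟨V, hV, hloc⟩ := IsLocalRing.exists_factor_valuationRing f
  refine ⟨V, fun x => ?_⟩
  have hle : ∀ x : L, ‖x‖ ≤ 1 → V.valuation (algebraMap L M x) ≤ 1 := by
    intro x hx
    rw [V.valuation_le_one_iff]
    exact hV ⟨x, hx⟩
  have hlt : ∀ x : L, ‖x‖ < 1 → V.valuation (algebraMap L M x) < 1 := by
    intro x hx
    refine lt_of_le_of_ne (hle x hx.le) fun h1 => ?_
    have h2 : IsUnit (⟨algebraMap L M x, hV ⟨x, hx.le⟩⟩ : V) := by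
      rw [V.valuation_eq_one_iff]
      exact h1
    have h3 : IsUnit (⟨x, hx.le⟩ : O) := hloc.map_nonunit ⟨x, hx.le⟩ h2
    rw [hOu] at h3
    exact hx.ne h3
  constructor
  · intro h
    by_contra hcon
    rw [not_lt] at hcon
    have hx0 : x ≠ 0 := by
      rintro rfl
      rw [norm_zero] at hcon
      exact absurd hcon (not_le.mpr zero_lt_one)
    have h1 := hle x⁻¹ (by rw [norm_inv]; exact inv_le_one_of_one_le₀ hcon)
    have h2 : V.valuation (algebraMap L M x) * V.valuation (algebraMap L M x⁻¹) = 1 := by
      rw [← map_mul, ← map_mul, mul_inv_cancel₀ hx0, map_one, map_one]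
    have h3 : V.valuation (algebraMap L M x) * V.valuation (algebraMap L M x⁻¹) < 1 :=
      mul_lt_one_of_lt_of_le h h1
    rw [h2] at h3
    exact lt_irrefl _ h3
  · exact hlt x

section Val

variable {M : Type*} [Field M] (V : ValuationSubring M)

/-- A root of a polynomial congruent to `(X - 1) ^ n` is congruent to one. -/
theorem root_of_coeff {n : ℕ} {P : M[X]} (hP : (P - (X - 1) ^ n).degree < (n : WithBot ℕ))
    (h : ∀ i, V.valuation ((P - (X - 1) ^ n).coeff i) < 1) {x : M} (hx : P.eval x = 0) :
    V.valuation (x - 1) < 1 := by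
  by_contra hcon
  rw [not_lt] at hcon
  set Q := P - (X - 1) ^ n with hQ
  have hn : n ≠ 0 := by
    rintro rfl
    have h1 : Q = 0 := by
      by_contra hne
      have h3 := (natDegree_lt_iff_degree_lt hne).mpr hP
      exact absurd h3 (Nat.not_lt_zero _)
    have h2 : P = 1 := by
      have : P = Q + (X - 1) ^ 0 := by rw [hQ]; ring
      rw [this, h1, pow_zero, zero_add]
    rw [h2, eval_one] at hx
    exact one_ne_zero hx
  have hQx : Q.eval x = -(x - 1) ^ n := by
    rw [hQ, eval_sub, hx]
    simp
  have hxle : V.valuation x ≤ V.valuation (x - 1) := by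
    have h1 : x = (x - 1) + 1 := by ring
    calc V.valuation x = V.valuation ((x - 1) + 1) := by rw [← h1]
      _ ≤ max (V.valuation (x - 1)) (V.valuation 1) := Valuation.map_add _ _ _
      _ = V.valuation (x - 1) := by rw [map_one, max_eq_left hcon]
  have hpos : 0 < V.valuation (x - 1) ^ n := by
    apply pow_pos
    exact lt_of_lt_of_le zero_lt_one hcon
  have h2 : V.valuation (Q.eval x) < V.valuation (x - 1) ^ n := by
    have hdeg : Q.natDegree < n := by
      by_cases hQ0 : Q = 0
      · rw [hQ0, natDegree_zero]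
        exact Nat.pos_of_ne_zero hn
      · exact (natDegree_lt_iff_degree_lt hQ0).mpr hP
    rw [eval_eq_sum_range' hdeg]
    refine Valuation.map_sum_lt _ hpos.ne' fun i hi => ?_
    rw [Finset.mem_range] at hi
    rw [map_mul, map_pow]
    calc V.valuation (Q.coeff i) * V.valuation x ^ i
        ≤ V.valuation (Q.coeff i) * V.valuation (x - 1) ^ i :=
          mul_le_mul_right (pow_le_pow_left₀ zero_le hxle i) _
      _ < 1 * V.valuation (x - 1) ^ i := by
          apply mul_lt_mul_of_pos_right (h i)
          apply pow_pos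
          exact lt_of_lt_of_le zero_lt_one hcon
      _ ≤ V.valuation (x - 1) ^ n := by
          rw [one_mul]
          exact pow_le_pow_right₀ hcon hi.le
  rw [hQx, Valuation.map_neg, map_pow] at h2
  exact lt_irrefl _ h2

theorem coeff_prod (s : Multiset M) (hs : ∀ x ∈ s, V.valuation (x - 1) < 1) (i : ℕ) :
    V.valuation (((s.map fun x => X - C x).prod).coeff i) ≤ 1 ∧
      V.valuation (((s.map fun x => X - C x).prod - (X - 1) ^ (Multiset.card s)).coeff i) < 1 := by
  induction s using Multiset.induction_on generalizing i with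
  | empty =>
    simp only [Multiset.map_zero, Multiset.prod_zero, Multiset.card_zero, pow_zero, sub_self,
      coeff_zero, map_zero]
    refine ⟨?_, zero_lt_one⟩
    rw [coeff_one]
    split_ifs
    · rw [map_one]
    · rw [map_zero]; exact zero_le_one
  | cons x s ih =>
    have hs' : ∀ y ∈ s, V.valuation (y - 1) < 1 := fun y hy => hs y (Multiset.mem_cons_of_mem hy)
    have hx : V.valuation (x - 1) < 1 := hs x (Multiset.mem_cons_self x s)
    have hx1 : V.valuation x ≤ 1 := by
      have h1 : x = (x - 1) + 1 := by ring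
      calc V.valuation x = V.valuation ((x - 1) + 1) := by rw [← h1]
        _ ≤ max (V.valuation (x - 1)) (V.valuation 1) := Valuation.map_add _ _ _
        _ ≤ 1 := max_le hx.le (by rw [map_one])
    set P := (s.map fun x => X - C x).prod with hP
    have hPi : ∀ j, V.valuation (P.coeff j) ≤ 1 := fun j => (ih hs' j).1
    have hQi : ∀ j, V.valuation ((P - (X - 1) ^ (Multiset.card s)).coeff j) < 1 :=
      fun j => (ih hs' j).2
    -- multiplication by `X - x`
    have hmul : ∀ (R : M[X]) (j : ℕ), ((X - C x) * R).coeff j =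
        (if j = 0 then 0 else R.coeff (j - 1)) - x * R.coeff j := by
      intro R j
      rw [sub_mul, coeff_sub, coeff_C_mul]
      cases j with
      | zero => simp
      | succ j => simp
    have hle : ∀ (R : M[X]) (c : V.ValueGroup), 0 ≤ c → (∀ j, V.valuation (R.coeff j) ≤ c) →
        ∀ j, V.valuation (((X - C x) * R).coeff j) ≤ c := by
      intro R c hc hR j
      rw [hmul]
      refine (Valuation.map_sub _ _ _).trans (max_le ?_ ?_)
      · split_ifs
        · rw [map_zero]; exact hc
        · exact hR _
      · rw [map_mul]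
        calc V.valuation x * V.valuation (R.coeff j) ≤ 1 * c := mul_le_mul' hx1 (hR j)
          _ = c := one_mul c
    have hlt : ∀ (R : M[X]), (∀ j, V.valuation (R.coeff j) < 1) →
        ∀ j, V.valuation (((X - C x) * R).coeff j) < 1 := by
      intro R hR j
      rw [hmul]
      refine lt_of_le_of_lt (Valuation.map_sub _ _ _) (max_lt ?_ ?_)
      · split_ifs
        · rw [map_zero]; exact zero_lt_one
        · exact hR _
      · rw [map_mul]
        calc V.valuation x * V.valuation (R.coeff j) ≤ 1 * V.valuation (R.coeff j) :=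
              mul_le_mul_left hx1 _
          _ < 1 := by rw [one_mul]; exact hR j
    rw [Multiset.map_cons, Multiset.prod_cons, Multiset.card_cons, ← hP]
    refine ⟨hle P 1 zero_le_one hPi i, ?_⟩
    have e : (X - C x) * P - (X - 1) ^ (Multiset.card s + 1) =
        (X - C x) * (P - (X - 1) ^ (Multiset.card s)) +
          C (1 - x) * (X - 1) ^ (Multiset.card s) := by
      rw [C_sub, C_1, pow_succ]
      ring
    have hpow : ∀ j, V.valuation (((X - 1 : M[X]) ^ (Multiset.card s)).coeff j) ≤ 1 := by
      intro j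
      have h1 : ((X - 1 : M[X]) ^ (Multiset.card s)).coeff j =
          P.coeff j - (P - (X - 1) ^ (Multiset.card s)).coeff j := by
        rw [coeff_sub]; ring
      rw [h1]
      exact (Valuation.map_sub _ _ _).trans (max_le (hPi j) (hQi j).le)
    rw [e, coeff_add, coeff_C_mul]
    refine lt_of_le_of_lt (Valuation.map_add _ _ _) (max_lt (hlt _ hQi i) ?_)
    rw [map_mul, Valuation.map_sub_swap]
    calc V.valuation (x - 1) * V.valuation (((X - 1 : M[X]) ^ (Multiset.card s)).coeff i)
        ≤ V.valuation (x - 1) * 1 := mul_le_mul_right (hpow i) _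
      _ < 1 := by rw [mul_one]; exact hx

end Val

section Mat

variable {L : Type*} [NormedField L] [IsUltrametricDist L] {n : ℕ}

/-- residually unipotent matrices -/
def UniMat (A : Matrix (Fin n) (Fin n) L) : Prop :=
  ∀ i, ‖(A.charpoly - (X - 1) ^ n).coeff i‖ < 1

theorem charpoly_degree_sub_lt {R : Type*} [CommRing R] [Nontrivial R] (A : Matrix (Fin n) (Fin n) R) :
    (A.charpoly - (X - 1) ^ n).degree < (n : WithBot ℕ) := by
  have h1 : A.charpoly.degree = n := by
    rw [Matrix.charpoly_degree_eq_dim, Fintype.card_fin]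
  have hm : ((X - 1 : R[X]) ^ n).Monic := (monic_X_sub_C (1 : R)).pow n
  have h2 : ((X - 1 : R[X]) ^ n).degree = n := by
    have h3 := (monic_X_sub_C (1 : R)).natDegree_pow n
    rw [natDegree_X_sub_C, mul_one, C_1] at h3
    rw [degree_eq_natDegree hm.ne_zero, h3]
  have h4 := Polynomial.degree_sub_lt_left (p := A.charpoly) (q := (X - 1) ^ n) (by rw [h1, h2])
    (Matrix.charpoly_monic A).ne_zero (by
      rw [(Matrix.charpoly_monic A).leadingCoeff, hm.leadingCoeff])
  rwa [h1] at h4

/-- **Powers of residually unipotent matrices are residually unipotent.** -/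
theorem UniMat.pow {A : Matrix (Fin n) (Fin n) L} (h : UniMat A) (k : ℕ) : UniMat (A ^ k) := by
  rcases Nat.eq_zero_or_pos k with rfl | hk
  · intro i
    rw [pow_zero, Matrix.charpoly_one, Fintype.card_fin, sub_self, coeff_zero, norm_zero]
    exact zero_lt_one
  let M := AlgebraicClosure L
  obtain ⟨V, hV⟩ := exists_val L M
  set A' : Matrix (Fin n) (Fin n) M := A.map (algebraMap L M) with hA'
  have hmap : ∀ B : Matrix (Fin n) (Fin n) L,
      (B.map (algebraMap L M)).charpoly - (X - 1) ^ n =
        (B.charpoly - (X - 1) ^ n).map (algebraMap L M) := by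
    intro B
    rw [Matrix.charpoly_map]
    simp
  have hroot : ∀ x : M, A'.charpoly.eval x = 0 → V.valuation (x - 1) < 1 := by
    intro x hx
    refine root_of_coeff V (charpoly_degree_sub_lt A') ?_ hx
    intro i
    rw [hA', hmap, coeff_map, hV]
    exact h i
  have hpow : (A ^ k).map (algebraMap L M) = A' ^ k := by
    rw [hA', Matrix.map_pow]
  have hroot' : ∀ x ∈ (A' ^ k).charpoly.roots, V.valuation (x - 1) < 1 := by
    intro x hx
    have hx' : (A' ^ k).charpoly.IsRoot x := isRoot_of_mem_roots hx
    have hne : Nonempty (Fin n) := by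
      by_contra hcon
      rw [not_nonempty_iff] at hcon
      have h1 : (A' ^ k).charpoly = 1 := by
        rw [Matrix.charpoly, Matrix.det_isEmpty]
      rw [h1, IsRoot.def, eval_one] at hx'
      exact one_ne_zero hx'
    have h1 : x ∈ spectrum M (A' ^ k) := Matrix.mem_spectrum_iff_isRoot_charpoly.mpr hx'
    rw [spectrum.map_pow_of_pos (𝕜 := M) A' hk] at h1
    obtain ⟨y, hy, rfl⟩ := h1
    have hy' := hroot y (Matrix.mem_spectrum_iff_isRoot_charpoly.mp hy)
    have hy1 : V.valuation y ≤ 1 := by
      have h1 : y = (y - 1) + 1 := by ring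
      calc V.valuation y = V.valuation ((y - 1) + 1) := by rw [← h1]
        _ ≤ max (V.valuation (y - 1)) (V.valuation 1) := Valuation.map_add _ _ _
        _ ≤ 1 := max_le hy'.le (by rw [map_one])
    have h2 : y ^ k - 1 = (∑ i ∈ Finset.range k, y ^ i) * (y - 1) := (geom_sum_mul y k).symm
    change V.valuation (y ^ k - 1) < 1
    rw [h2, map_mul]
    have h3 : V.valuation (∑ i ∈ Finset.range k, y ^ i) ≤ 1 := by
      refine Valuation.map_sum_le _ fun i _ => ?_
      rw [map_pow]
      exact pow_le_one₀ zero_le hy1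
    calc V.valuation (∑ i ∈ Finset.range k, y ^ i) * V.valuation (y - 1)
        ≤ 1 * V.valuation (y - 1) := mul_le_mul_left h3 _
      _ < 1 := by rw [one_mul]; exact hy'
  intro i
  rw [← hV, ← coeff_map, ← hmap, hpow]
  have hsplit : (A' ^ k).charpoly = ((A' ^ k).charpoly.roots.map fun x => X - C x).prod := by
    have h1 := (IsAlgClosed.splits (A' ^ k).charpoly).eq_prod_roots
    rwa [(Matrix.charpoly_monic (A' ^ k)).leadingCoeff, C_1, one_mul] at h1
  have hcard : Multiset.card (A' ^ k).charpoly.roots = n := by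
    have h1 := (IsAlgClosed.splits (A' ^ k).charpoly).natDegree_eq_card_roots
    rw [Matrix.charpoly_natDegree_eq_dim, Fintype.card_fin] at h1
    exact h1.symm
  have h1 := (coeff_prod V _ hroot' i).2
  rw [hcard, ← hsplit] at h1
  exact h1

end Mat

end Pool.Agent.Lib.MP_7c08ba_nt.RZ
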