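import Mathlib
import Pool.Agent.Lib.MP_7c08ba_nt.RZ.StH
import Pool.Agent.Lib.MP_7c08ba_nt.RZ.Rho

set_option autoImplicit false

/-!
(H31) the sum over the cusps as a sum over the factors of the right norm, even discriminant.
-/

namespace Pool.Agent.Lib.MP_7c08ba_nt

namespace RZ

open NumberField MeasureTheory UpperHalfPlane Set
open scoped MatrixGroups ComplexConjugate nonZeroDivisors

open RhoAux in
/-- Module H31. -/
theorem stRhoE (h1 : StKeyE) (h2 : StBasE) (h3 : StBaseE) : StRhoE := by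
  intro D _ F _ _ s σ χ cj w r m a b H hw hm ha hb has hbs
  classical
  obtain ⟨-, -, -, -, -, b6, -, -, -, -⟩ := h2 D F _ _ s σ χ cj H
  obtain ⟨c1, -⟩ := h3 D F _ _ s σ χ cj H
  have hD4 : 4 < D := H.ev.1
  have hDm : (1 : ℝ) ≤ D * m := by
    have e1 : (1 : ℝ) ≤ D := by exact_mod_cast (by omega : 1 ≤ D)
    have e2 : (1 : ℝ) ≤ m := by exact_mod_cast hm
    nlinarith
  -- convergence
  have hsum : Summable fun p : {p : a × b // Qa σ a p.1 - Qa σ b p.2 = D * m} =>
      ‖PT w r σ a b p.1.1 p.1.2‖ := by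
    obtain ⟨C, hC⟩ := bound (σ := σ) w r hw ha hb
    obtain ⟨X, Y, hXY⟩ := c1 a ha
    obtain ⟨X', Y', hXY'⟩ := c1 b hb
    have e1 := (summable_ideal hXY).mul_of_nonneg (summable_ideal hXY')
      (fun z => by positivity) (fun z => by positivity)
    refine Summable.of_nonneg_of_le (fun p => norm_nonneg _) (fun p => ?_)
      ((e1.mul_left C).comp_injective Subtype.val_injective)
    exact hC p.1.1 p.1.2 (by rw [p.2]; exact hDm)
  refine ⟨hsum, ?_⟩
  set f : 𝓞 F × 𝓞 F → ℂ := fun p => PT w r σ a b p.1 p.2 with hf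
  set E : Set (𝓞 F × 𝓞 F) := {p | p.1 ∈ a ∧ p.2 ∈ b ∧ Qa σ a p.1 - Qa σ b p.2 = D * m} with hE
  have hsE : Summable (E.indicator f) :=
    pairs_summable a b (fun x y => Qa σ a x - Qa σ b y = D * m) f hsum.of_norm
  -- the quotient is finite
  have hs0 : s ≠ 0 := by
    intro h0
    have h5 := H.sq
    rw [h0, zero_pow two_ne_zero, zero_eq_neg] at h5
    have h6 : D = 0 := by exact_mod_cast h5
    omega
  have hfin : Finite (𝓞 F ⧸ Ideal.span {s}) := by
    rw [← Ideal.absNorm_ne_zero_iff, Ne, Ideal.absNorm_eq_zero_iff, Ideal.span_singleton_eq_bot]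
    exact hs0
  let _ : Fintype (𝓞 F ⧸ Ideal.span {s}) := Fintype.ofFinite _
  have ha0 : Ideal.absNorm a ≠ 0 := by rwa [Ne, Ideal.absNorm_eq_zero_iff]
  have hb0 : Ideal.absNorm b ≠ 0 := by rwa [Ne, Ideal.absNorm_eq_zero_iff]
  have hQ : ∀ (c : Ideal (𝓞 F)) (x : 𝓞 F), Ideal.absNorm c ≠ 0 → x ∈ c →
      ∃ n : ℕ, Ideal.absNorm (Ideal.span {x}) = n * Ideal.absNorm c ∧ Qa σ c x = n := by
    intro c x hc hx
    have h5 : Ideal.absNorm c ∣ Ideal.absNorm (Ideal.span {x}) :=
      Ideal.absNorm_dvd_absNorm_of_le ((Ideal.span_singleton_le_iff_mem _).2 hx)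
    obtain ⟨n, hn⟩ := h5
    refine ⟨n, by rw [hn, mul_comm], ?_⟩
    unfold Qa
    rw [b6, hn]
    push_cast
    field_simp
  -- the sets for the cusps
  have hS1 : ∀ g : ℕ, ∀ p : 𝓞 F × 𝓞 F,
      {p : 𝓞 F × 𝓞 F | p.1 ∈ a ∧ p.2 ∈ b ∧
        (Qa σ a p.1 - Qa σ b p.2 = D * m ∧ supE D g ⌊Qa σ a p.1⌋)}.indicator f p =
      if supE D g ⌊Qa σ a p.1⌋ then E.indicator f p else 0 := by
    intro g p
    simp only [Set.indicator_apply, Set.mem_ofPred_eq, hE]
    by_cases g1 : supE D g ⌊Qa σ a p.1⌋ <;> simp [g1]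
  have hS2 : ∀ ρ : 𝓞 F ⧸ Ideal.span {s}, ∀ p : 𝓞 F × 𝓞 F,
      {p : 𝓞 F × 𝓞 F | p.1 ∈ a ∧ p.2 ∈ b ∧ (Qa σ a p.1 - Qa σ b p.2 = D * m ∧
        Ideal.Quotient.mk (Ideal.span {s}) p.1 =
          ρ * Ideal.Quotient.mk (Ideal.span {s}) p.2)}.indicator f p =
      if Ideal.Quotient.mk (Ideal.span {s}) p.1 =
          ρ * Ideal.Quotient.mk (Ideal.span {s}) p.2 then E.indicator f p else 0 := by
    intro ρ p
    simp only [Set.indicator_apply, Set.mem_ofPred_eq, hE]
    by_cases g1 : Ideal.Quotient.mk (Ideal.span {s}) p.1 =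
          ρ * Ideal.Quotient.mk (Ideal.span {s}) p.2 <;> simp [g1]
  -- pointwise identity
  have hpt : ∀ p : 𝓞 F × 𝓞 F,
      ∑ g ∈ D.divisors, (epsE D g (Ideal.absNorm a * Ideal.absNorm b) : ℂ) *
        (if supE D g ⌊Qa σ a p.1⌋ then E.indicator f p else 0) =
      ∑ ρ : 𝓞 F ⧸ Ideal.span {s}, (if RhoOK D s a b ρ then
        (if Ideal.Quotient.mk (Ideal.span {s}) p.1 =
          ρ * Ideal.Quotient.mk (Ideal.span {s}) p.2 then E.indicator f p else 0) else 0) := by
    intro p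
    by_cases hp : p ∈ E
    · obtain ⟨n, hn, hn'⟩ := hQ a p.1 ha0 hp.1
      obtain ⟨n', hk, hk'⟩ := hQ b p.2 hb0 hp.2.1
      have hnn : (n : ZMod D) = (n' : ZMod D) := by
        have h5 := hp.2.2
        rw [hn', hk'] at h5
        have h6 : n = n' + D * m := by
          have : (n : ℝ) = n' + D * m := by linarith
          exact_mod_cast this
        rw [h6]
        push_cast
        simp
      have hkey := h1 D F _ _ s σ χ cj H a b p.1 p.2 n n' ha hb has hbs hp.1 hp.2.1 hn hk hnn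
      have hfl : ⌊Qa σ a p.1⌋ = (n : ℤ) := by rw [hn', Int.floor_natCast]
      have e0 : (∑ᶠ g ∈ {g : ℕ | g ∣ D ∧ supE D g n}, epsE D g (Ideal.absNorm a * Ideal.absNorm b)) =
          ∑ g ∈ D.divisors, if supE D g n then epsE D g (Ideal.absNorm a * Ideal.absNorm b)
            else 0 := by
        have e00 : {g : ℕ | g ∣ D ∧ supE D g n} =
            ((D.divisors.filter fun g => supE D g n : Finset ℕ) : Set ℕ) := by
          ext g
          simp only [Set.mem_ofPred_eq, Finset.coe_filter, Nat.mem_divisors]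
          have : D ≠ 0 := by omega
          tauto
        rw [← Finset.sum_filter, e00, finsum_mem_coe_finset]
      have e1 : ∑ g ∈ D.divisors, (epsE D g (Ideal.absNorm a * Ideal.absNorm b) : ℂ) *
          (if supE D g ⌊Qa σ a p.1⌋ then E.indicator f p else 0) =
          ((∑ g ∈ D.divisors, if supE D g n then epsE D g (Ideal.absNorm a * Ideal.absNorm b)
            else 0 : ℤ) : ℂ) * E.indicator f p := by
        rw [Int.cast_sum, Finset.sum_mul, hfl]
        refine Finset.sum_congr rfl fun g _ => ?_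
        split_ifs <;> simp
      have e2 : ∑ ρ : 𝓞 F ⧸ Ideal.span {s}, (if RhoOK D s a b ρ then
          (if Ideal.Quotient.mk (Ideal.span {s}) p.1 =
          ρ * Ideal.Quotient.mk (Ideal.span {s}) p.2 then E.indicator f p else 0) else 0) =
          ((Nat.card {ρ : 𝓞 F ⧸ Ideal.span {s} // RhoOK D s a b ρ ∧
            Ideal.Quotient.mk (Ideal.span {s}) p.1 =
              ρ * Ideal.Quotient.mk (Ideal.span {s}) p.2} : ℤ) : ℂ) * E.indicator f p := by
        rw [Nat.card_eq_fintype_card, Fintype.card_subtype, Finset.card_filter, Nat.cast_sum,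
          Int.cast_sum, Finset.sum_mul]
        refine Finset.sum_congr rfl fun ρ _ => ?_
        by_cases g1 : RhoOK D s a b ρ <;>
          by_cases g2 : Ideal.Quotient.mk (Ideal.span {s}) p.1 =
            ρ * Ideal.Quotient.mk (Ideal.span {s}) p.2 <;> simp [g1, g2]
      rw [e1, e2, hkey, e0]
    · simp [Set.indicator_of_notMem hp]
  -- assembly
  have hsub : ∀ (P : 𝓞 F × 𝓞 F → Prop) [DecidablePred P],
      Summable fun p => if P p then E.indicator f p else 0 := by
    intro P _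
    have : (fun p => if P p then E.indicator f p else 0) = {p | P p}.indicator (E.indicator f) := by
      funext p
      simp only [Set.indicator_apply, Set.mem_ofPred_eq]
    rw [this]
    exact hsE.indicator _
  unfold SSE
  congr 1
  have l1 : ∀ g ∈ D.divisors,
      (epsE D g (Ideal.absNorm a * Ideal.absNorm b) : ℂ) *
        ∑' p : {p : a × b // Qa σ a p.1 - Qa σ b p.2 = D * m ∧ supE D g ⌊Qa σ a p.1⌋},
          PT w r σ a b p.1.1 p.1.2 =
      ∑' p, (epsE D g (Ideal.absNorm a * Ideal.absNorm b) : ℂ) *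
        (if supE D g ⌊Qa σ a p.1⌋ then E.indicator f p else 0) := by
    intro g hg
    rw [tsum_mul_left]
    congr 1
    rw [← tsum_congr (hS1 g)]
    exact pairs_tsum a b (fun x y => Qa σ a x - Qa σ b y = D * m ∧ supE D g ⌊Qa σ a x⌋) f
  rw [Finset.sum_congr rfl l1, ← Summable.tsum_finsetSum (fun g _ => (hsub _).mul_left _)]
  have l0 : (∑ᶠ ρ ∈ {ρ : 𝓞 F ⧸ Ideal.span {s} | RhoOK D s a b ρ}, TTE D w r m s σ a b ρ) =
      ∑ ρ : 𝓞 F ⧸ Ideal.span {s}, (if RhoOK D s a b ρ then TTE D w r m s σ a b ρ else 0) := by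
    have e00 : {ρ : 𝓞 F ⧸ Ideal.span {s} | RhoOK D s a b ρ} =
        ((Finset.univ.filter fun ρ => RhoOK D s a b ρ : Finset (𝓞 F ⧸ Ideal.span {s})) :
          Set (𝓞 F ⧸ Ideal.span {s})) := by
      ext ρ
      simp only [Set.mem_ofPred_eq, Finset.coe_filter, Finset.mem_univ, true_and]
    rw [← Finset.sum_filter, e00, finsum_mem_coe_finset]
  have l2 : ∀ ρ : 𝓞 F ⧸ Ideal.span {s}, (if RhoOK D s a b ρ then TTE D w r m s σ a b ρ else 0) =
      ∑' p : 𝓞 F × 𝓞 F, (if RhoOK D s a b ρ then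
        (if Ideal.Quotient.mk (Ideal.span {s}) p.1 =
          ρ * Ideal.Quotient.mk (Ideal.span {s}) p.2 then E.indicator f p else 0) else 0) := by
    intro ρ
    split_ifs
    · rw [← tsum_congr (hS2 ρ)]
      exact pairs_tsum a b (fun x y => Qa σ a x - Qa σ b y = D * m ∧
        Ideal.Quotient.mk (Ideal.span {s}) x = ρ * Ideal.Quotient.mk (Ideal.span {s}) y) f
    · rw [tsum_zero]
  rw [l0, Finset.sum_congr rfl (fun ρ _ => l2 ρ), ← Summable.tsum_finsetSum]
  · exact tsum_congr hpt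
  · intro ρ _
    split_ifs
    · exact hsub _
    · exact summable_zero

end RZ

end Pool.Agent.Lib.MP_7c08ba_nt
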