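import Mathlib
import Pool.Agent.Lib.MP_7c08ba_nt.RZ.StRm
import Pool.Agent.Lib.MP_7c08ba_nt.RZ.Rs1

set_option autoImplicit false

/-!
The Rankin–Selberg integral of the Poincaré series of index `m` is the integral `JJ w m` of the
trace (module RZRm-Rs1m).
-/

namespace Pool.Agent.Lib.MP_7c08ba_nt

namespace RZ

open NumberField MeasureTheory UpperHalfPlane Set IsDedekindDomain
open scoped MatrixGroups ComplexConjugate nonZeroDivisors

/-- (Q2) the integral for the Poincaré series of index `m` -/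
theorem stRs1m (h1 : StPetG) (h2 : StGrow) (h3 : StTraceD) (h4 : StHN) (h5 : StPsiD) : StRs1m := by
  intro D hD0 F _ _ s σ χ cj w k r m ψ c P hD hp hψ hcop hw hm hP t ht1 ht2
  obtain ⟨hk, -⟩ := h5 D F inferInstance inferInstance s σ χ cj k ψ hD hψ
  have hr : 2 ≤ r := by
    have : (3 / 2 : ℝ) < r := by linarith
    have h' : (1 : ℝ) < r := by linarith
    exact_mod_cast h'
  have hr0 : (2 : ℝ) ≤ r := by exact_mod_cast hr
  have hw4 : 4 ≤ w := by omega
  have hev : Even w := by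
    rw [hw]
    exact (hk.add (even_two_mul r)).add even_two
  obtain ⟨hcont, -, -⟩ := h4 D hD0 F inferInstance inferInstance s σ χ cj w k r ψ c hD hk hw hcop
  obtain ⟨-, hc2, hlaw⟩ := hcont t (by linarith)
  have hWt : Wt w (trD D w (HN D χ k r ψ c t)) := h3 D w _ hD.odd.1 hev hlaw
  obtain ⟨C, hC⟩ := h2 D hD0 F inferInstance inferInstance s σ χ cj w k r ψ c hD hp hψ hw t ht1
  set a : ℝ := max t.re (-2 * (r : ℝ) - t.re) with ha
  have ha1 : a < -1 := by
    rw [ha]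
    exact max_lt ht2 (by linarith)
  have hb : ∃ C a : ℝ, a < -1 ∧ ∀ z : ℂ, 1 / 2 ≤ z.im → |z.re| ≤ 1 / 2 →
      ‖trD D w (HN D χ k r ψ c t) z‖ ≤ C * z.im ^ a := by
    refine ⟨|C| * ((1 / 2 : ℝ) ^ (t.re - a) + (1 / 2 : ℝ) ^ (-2 * (r : ℝ) - t.re - a)), a, ha1,
      fun z hz _ => ?_⟩
    have e1 := Rs1Aux.rpow_half hz (show t.re ≤ a from le_max_left _ _)
    have e2 := Rs1Aux.rpow_half hz (show -2 * (r : ℝ) - t.re ≤ a from le_max_right _ _)
    have hz0 : 0 < z.im := by linarith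
    have e3 : 0 ≤ z.im ^ t.re + z.im ^ (-2 * (r : ℝ) - t.re) := by positivity
    calc ‖trD D w (HN D χ k r ψ c t) z‖ ≤ C * (z.im ^ t.re + z.im ^ (-2 * (r : ℝ) - t.re)) :=
          hC z hz
      _ ≤ |C| * (z.im ^ t.re + z.im ^ (-2 * (r : ℝ) - t.re)) :=
          mul_le_mul_of_nonneg_right (le_abs_self C) e3
      _ ≤ |C| * ((1 / 2 : ℝ) ^ (t.re - a) * z.im ^ a +
            (1 / 2 : ℝ) ^ (-2 * (r : ℝ) - t.re - a) * z.im ^ a) :=
          mul_le_mul_of_nonneg_left (add_le_add e1 e2) (abs_nonneg C)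
      _ = |C| * ((1 / 2 : ℝ) ^ (t.re - a) + (1 / 2 : ℝ) ^ (-2 * (r : ℝ) - t.re - a)) *
            z.im ^ a := by ring
  have hmain := h1 w m _ hw4 hev hm hc2 hWt hb
  rw [← hmain]
  unfold rsD
  refine integral_congr_ae (Filter.Eventually.of_forall fun z => ?_)
  simp only
  have him : 0 < (-conj (z : ℂ)).im := by
    simpa using z.im_pos
  rw [hP, ofComplex_apply_of_im_pos him]

end RZ

end Pool.Agent.Lib.MP_7c08ba_nt
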