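import Pool.Agent.Lib.MP_7c08ba_nt.RZ.StE
import Pool.Agent.Lib.MP_7c08ba_nt.RZ.Gen
import Pool.Agent.Lib.MP_7c08ba_nt.RZ.Rho
import Pool.Agent.Lib.MP_7c08ba_nt.RZ.ThCD

set_option autoImplicit false

/-!
(E10) the sum of the signs over the cusps is zero.
-/

namespace Pool.Agent.Lib.MP_7c08ba_nt

namespace RZ

open NumberField MeasureTheory UpperHalfPlane Set IsDedekindDomain
open scoped MatrixGroups ComplexConjugate nonZeroDivisors

namespace SgnAux

open RhoAux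

/-- some prime divisor has symbol `-1` -/
lemma exists_prime {C : ℤ} (D : ℕ) (h : jacobiSym C D = -1) :
    ∃ p : ℕ, p.Prime ∧ p ∣ D ∧ jacobiSym C p = -1 := by
  induction D using Nat.recOnMul with
  | zero => simp at h
  | one => simp at h
  | prime p hp => exact ⟨p, hp, dvd_rfl, h⟩
  | mul m n ihm ihn =>
    rcases eq_or_ne m 0 with rfl | hm
    · simp at h
    rcases eq_or_ne n 0 with rfl | hn
    · simp at h
    have : NeZero m := ⟨hm⟩
    have : NeZero n := ⟨hn⟩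
    rw [jacobiSym.mul_right] at h
    rcases jacobiSym.trichotomy C m with h1 | h1 | h1
    · rw [h1, zero_mul] at h
      exact absurd h (by norm_num)
    · rw [h1, one_mul] at h
      obtain ⟨p, hp, hpn, hj⟩ := ihn h
      exact ⟨p, hp, hpn.mul_left m, hj⟩
    · obtain ⟨p, hp, hpm, hj⟩ := ihm h1
      exact ⟨p, hp, hpm.mul_right n, hj⟩

lemma prime_zero {p : ℕ} (hp : p.Prime) {A B x y : ℤ} (hB : ¬ (p : ℤ) ∣ B)
    (h : (p : ℤ) ∣ x ^ 2 * B + y ^ 2 * A) (hj : jacobiSym (-(A * B)) p = -1) :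
    LL (-(A * B)) x y p = 0 := by
  have hpp := Nat.prime_iff_prime_int.1 hp
  have : Fact p.Prime := ⟨hp⟩
  have hy : (p : ℤ) ∣ y := by
    by_contra hy
    have h1 : jacobiSym (-(A * B) * y ^ 2) p = jacobiSym ((x * B) ^ 2) p := by
      apply jacobiSym.mod_left'
      apply (Int.modEq_iff_dvd).2
      obtain ⟨k, hk⟩ := h
      exact ⟨B * k, by linear_combination B * hk⟩
    have h2 : jacobiSym y p ≠ 0 := by
      intro h0
      have h3 := jacobiSym.eq_zero_iff_not_coprime.1 h0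
      apply h3
      rw [← Int.isCoprime_iff_gcd_eq_one, isCoprime_comm]
      exact (Prime.coprime_iff_not_dvd hpp).2 hy
    rw [jacobiSym.mul_left, jacobiSym.pow_left, jacobiSym.pow_left, hj] at h1
    have h3 : 0 < jacobiSym y p ^ 2 := by positivity
    have h4 : 0 ≤ jacobiSym (x * B) p ^ 2 := sq_nonneg _
    linarith
  have hx : (p : ℤ) ∣ x := by
    have h1 : (p : ℤ) ∣ x ^ 2 * B := by
      have h2 : x ^ 2 * B = (x ^ 2 * B + y ^ 2 * A) - y * (y * A) := by ring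
      rw [h2]
      exact dvd_sub h (hy.mul_right _)
    exact hpp.dvd_of_dvd_pow ((hpp.dvd_or_dvd h1).resolve_right hB)
  unfold LL
  rw [Nat.Prime.divisors hp, Finset.sum_pair hp.one_lt.ne]
  simp only [Nat.cast_one, one_dvd, and_self, if_true, Nat.div_one, Nat.div_self hp.pos,
    jacobiSym.one_right, hx, hy, hj]
  norm_num

/-- the arithmetic identity -/
theorem LL_zero (D : ℕ) (hsq : Squarefree D) {A B x y : ℤ} (hB : IsCoprime B D)
    (h : (D : ℤ) ∣ x ^ 2 * B + y ^ 2 * A) (hj : jacobiSym (-(A * B)) D = -1) :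
    LL (-(A * B)) x y D = 0 := by
  obtain ⟨p, hp, ⟨n, rfl⟩, hjp⟩ := exists_prime D hj
  have hpp := Nat.prime_iff_prime_int.1 hp
  rw [Nat.squarefree_mul_iff] at hsq
  push_cast at hB h
  rw [LL_mul _ _ _ hsq.1, prime_zero hp ?_ ((dvd_mul_right _ _).trans h) hjp, zero_mul]
  intro hd
  exact hpp.not_isUnit (hB.of_mul_right_left.isUnit_of_dvd' hd dvd_rfl)

end SgnAux

open SgnAux RhoAux Classical in
/-- Module E10. -/
theorem stSgn (h1 : StBasD) (h2 : StRam) (h3 : StSplitD) : StSgn := by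
  intro D F _ _ s σ χ cj H a b x y m ha hb has hbs hx hy h
  obtain ⟨-, -, -, -, -, b6, -, -, b9, -⟩ := h1 D F _ _ s σ χ cj H
  obtain ⟨nx, hnx⟩ := b9 x
  obtain ⟨ny, hny⟩ := b9 y
  have hD := H.odd
  have hD0 : D ≠ 0 := by
    have := hD.2.2
    omega
  have hA := Genm.jac_norm h3 H a ha has
  have hB := Genm.jac_norm h3 H b hb hbs
  have hm1 : jacobiSym (-1) D = -1 := by
    rw [jacobiSym.at_neg_one (Nat.odd_iff.2 (by have := hD.2.1; omega))]
    exact ZMod.χ₄_nat_three_mod_four hD.2.1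
  have hj : jacobiSym (-((Ideal.absNorm a : ℤ) * Ideal.absNorm b)) D = -1 := by
    rw [← neg_one_mul, jacobiSym.mul_left, jacobiSym.mul_left, hm1, hA, hB]
    norm_num
  have hsum : ∑ g ∈ D.divisors, (if x ∈ a * ram s g ∧ y ∈ b * ram s g then
      jacobiSym (-((Ideal.absNorm a : ℤ) * Ideal.absNorm b)) (D / g) else 0) =
      LL (-((Ideal.absNorm a : ℤ) * Ideal.absNorm b)) nx ny D := by
    unfold LL
    refine Finset.sum_congr rfl fun g hg => ?_
    obtain ⟨-, -, -, r4, r5⟩ := h2 D F _ _ s σ χ cj H g (Nat.dvd_of_mem_divisors hg)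
    have e1 : x ∈ a * ram s g ↔ (g : ℤ) ∣ nx := by
      rw [r5 a x has, r4 x nx hnx]
      exact ⟨fun h => h.2, fun h => ⟨hx, h⟩⟩
    have e2 : y ∈ b * ram s g ↔ (g : ℤ) ∣ ny := by
      rw [r5 b y hbs, r4 y ny hny]
      exact ⟨fun h => h.2, fun h => ⟨hy, h⟩⟩
    simp only [e1, e2]
  rw [hsum]
  apply LL_zero D hD.1 (coprime_norm h1 H hbs) _ hj
  have ha0 : (Ideal.absNorm a : ℝ) ≠ 0 := by
    have : Ideal.absNorm a ≠ 0 := by rwa [Ne, Ideal.absNorm_eq_zero_iff]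
    exact_mod_cast this
  have hb0 : (Ideal.absNorm b : ℝ) ≠ 0 := by
    have : Ideal.absNorm b ≠ 0 := by rwa [Ne, Ideal.absNorm_eq_zero_iff]
    exact_mod_cast this
  have h5 := h
  unfold Qa at h5
  rw [b6, b6, div_add_div _ _ ha0 hb0, div_eq_iff (mul_ne_zero ha0 hb0)] at h5
  have h6 : (Ideal.absNorm (Ideal.span {x}) : ℤ) * (Ideal.absNorm b : ℤ) +
      (Ideal.absNorm a : ℤ) * (Ideal.absNorm (Ideal.span {y}) : ℤ) =
      D * m * ((Ideal.absNorm a : ℤ) * (Ideal.absNorm b : ℤ)) := by exact_mod_cast h5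
  obtain ⟨u, hu⟩ := ThCDX.res_norm h1 H x nx hnx
  obtain ⟨v, hv⟩ := ThCDX.res_norm h1 H y ny hny
  refine ⟨m * ((Ideal.absNorm a : ℤ) * (Ideal.absNorm b : ℤ)) - u * (Ideal.absNorm b : ℤ) -
    v * (Ideal.absNorm a : ℤ), ?_⟩
  linear_combination h6 - (Ideal.absNorm b : ℤ) * hu - (Ideal.absNorm a : ℤ) * hv

end RZ

end Pool.Agent.Lib.MP_7c08ba_nt
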