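import Pool.Agent.Lib.MP_7c08ba_nt.RZ.StI
import Pool.Agent.Lib.MP_7c08ba_nt.RZ.ThCE
import Pool.Agent.Lib.MP_7c08ba_nt.RZ.Sgn

set_option autoImplicit false

/-!
(I9) the sum of the signs over the cusps is zero, even discriminants.
-/

namespace Pool.Agent.Lib.MP_7c08ba_nt

namespace RZ

open NumberField MeasureTheory UpperHalfPlane Set IsDedekindDomain
open scoped MatrixGroups ComplexConjugate nonZeroDivisors

namespace SgnEAux

/-! ### Sums over divisors -/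

lemma sum_div_mul {A B : ℕ} (h : A.Coprime B) (F : ℕ → ℤ) :
    ∑ g ∈ (A * B).divisors, F g = ∑ u ∈ A.divisors, ∑ w ∈ B.divisors, F (u * w) := by
  rw [Nat.divisors_mul, Finset.mul_def, Finset.sum_image h.mul_injOn_divisors,
    Finset.sum_product]

lemma jac_one {C : ℤ} (k : ℕ) (h : ∀ p : ℕ, p.Prime → p ∣ k → jacobiSym C p = 1) :
    jacobiSym C k = 1 := by
  induction k using Nat.recOnMul with
  | zero => exact jacobiSym.zero_right C
  | one => exact jacobiSym.one_right C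
  | prime p hp => exact h p hp dvd_rfl
  | mul m n ihm ihn =>
    rcases eq_or_ne m 0 with rfl | hm
    · rw [zero_mul]
      exact jacobiSym.zero_right C
    rcases eq_or_ne n 0 with rfl | hn
    · rw [mul_zero]
      exact jacobiSym.zero_right C
    rw [jacobiSym.mul_right' C hm hn, ihm fun p hp hd => h p hp (hd.mul_right n),
      ihn fun p hp hd => h p hp (hd.mul_left m), one_mul]

/-- the sum of the symbols over the divisors is zero if the last one is `-1` -/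
lemma sumJ {C : ℤ} {k : ℕ} (hsq : Squarefree k) (h : jacobiSym C k = -1) :
    ∑ w ∈ k.divisors, jacobiSym C w = 0 := by
  obtain ⟨p, hp, ⟨n, rfl⟩, hj⟩ := SgnAux.exists_prime k h
  rw [Nat.squarefree_mul_iff] at hsq
  rw [sum_div_mul hsq.1]
  have h1 : ∀ u ∈ p.divisors, ∑ w ∈ n.divisors, jacobiSym C (u * w) =
      jacobiSym C u * ∑ w ∈ n.divisors, jacobiSym C w := by
    intro u hu
    rw [Finset.mul_sum]
    refine Finset.sum_congr rfl fun w hw => ?_
    exact jacobiSym.mul_right' C (Nat.pos_of_mem_divisors hu).ne' (Nat.pos_of_mem_divisors hw).ne'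
  rw [Finset.sum_congr rfl h1, ← Finset.sum_mul, Nat.Prime.divisors hp,
    Finset.sum_pair hp.one_lt.ne, hj, jacobiSym.one_right]
  norm_num

lemma odd_two {w : ℕ} (hw : Odd w) : ¬ 2 ∣ w := hw.not_two_dvd_nat

lemma oddp_eq (j : ℕ) {w : ℕ} (hw : Odd w) : oddp (2 ^ j * w) = w :=
  Nat.ordCompl_pow_mul_of_not_dvd j Nat.prime_two (odd_two hw)

lemma twop_eq (j : ℕ) {w : ℕ} (hw : Odd w) : twop (2 ^ j * w) = 2 ^ j := by
  have h1 : twop (2 ^ j * w) * oddp (2 ^ j * w) = 2 ^ j * w :=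
    Nat.ordProj_mul_ordCompl_eq_self _ 2
  rw [oddp_eq j hw] at h1
  exact Nat.eq_of_mul_eq_mul_right hw.pos h1

open Classical in
/-- the sum over the cusps -/
lemma sum_eq (v m n c : ℕ) (hv : 1 ≤ v) (hm : Odd m) :
    ∑ g ∈ (2 ^ v * m).divisors, (if supE (2 ^ v * m) g n then
      epsE (2 ^ v * m) g c * sgnE (2 ^ v * m) g else 0) =
      -(∑ w ∈ m.divisors, if w ∣ n then jacobiSym (-(c : ℤ)) w else 0) +
        if Even n then ∑ w ∈ m.divisors, if w ∣ n then jacobiSym (-(c : ℤ)) (m / w) else 0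
        else 0 := by
  have hcop : Nat.Coprime (2 ^ v) m := Nat.Coprime.pow_left v (Nat.coprime_two_left.2 hm)
  have hodd : ∀ w ∈ m.divisors, Odd w := fun w hw => hm.of_dvd_nat (Nat.dvd_of_mem_divisors hw)
  rw [sum_div_mul hcop, Nat.sum_divisors_prime_pow Nat.prime_two, Finset.sum_range_succ']
  rw [add_comm]
  congr 1
  · rw [← Finset.sum_neg_distrib]
    refine Finset.sum_congr rfl fun w hw => ?_
    have hw1 := hodd w hw
    have e1 : supE (2 ^ v * m) (2 ^ 0 * w) n ↔ w ∣ n := by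
      unfold supE
      rw [oddp_eq 0 hw1, pow_zero, one_mul]
      constructor
      · intro h
        exact_mod_cast h.1
      · intro h
        exact ⟨by exact_mod_cast h, Or.inl hw1⟩
    have e2 : epsE (2 ^ v * m) (2 ^ 0 * w) c * sgnE (2 ^ v * m) (2 ^ 0 * w) =
        -jacobiSym (-(c : ℤ)) w := by
      unfold epsE sgnE
      rw [pow_zero, one_mul, if_pos hw1, if_pos hw1, ← neg_one_mul (c : ℤ), jacobiSym.mul_left]
      ring
    by_cases h : w ∣ n
    · rw [if_pos (e1.2 h), if_pos h, e2]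
    · rw [if_neg (fun h2 => h (e1.1 h2)), if_neg h, neg_zero]
  · have hterm : ∀ j ∈ Finset.range v, (∑ w ∈ m.divisors,
        (if supE (2 ^ v * m) (2 ^ (j + 1) * w) n then
          epsE (2 ^ v * m) (2 ^ (j + 1) * w) c * sgnE (2 ^ v * m) (2 ^ (j + 1) * w) else 0)) =
        if Nat.gcd n (2 ^ v) = 2 ^ (j + 1) then
          ∑ w ∈ m.divisors, (if w ∣ n then jacobiSym (-(c : ℤ)) (m / w) else 0) else 0 := by
      intro j hj
      have hj' : j + 1 ≤ v := by
        have := Finset.mem_range.1 hj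
        omega
      have key : ∀ w ∈ m.divisors, (if supE (2 ^ v * m) (2 ^ (j + 1) * w) n then
          epsE (2 ^ v * m) (2 ^ (j + 1) * w) c * sgnE (2 ^ v * m) (2 ^ (j + 1) * w) else 0) =
          if Nat.gcd n (2 ^ v) = 2 ^ (j + 1) then
            (if w ∣ n then jacobiSym (-(c : ℤ)) (m / w) else 0) else 0 := by
        intro w hw
        have hw1 := hodd w hw
        have hwm := Nat.dvd_of_mem_divisors hw
        have hne : ¬ Odd (2 ^ (j + 1) * w) := by
          rw [Nat.not_odd_iff_even, pow_succ, mul_assoc, mul_left_comm]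
          exact even_two_mul _
        have e1 : supE (2 ^ v * m) (2 ^ (j + 1) * w) n ↔
            (Nat.gcd n (2 ^ v) = 2 ^ (j + 1) ∧ w ∣ n) := by
          unfold supE
          rw [oddp_eq (j + 1) hw1, twop_eq (j + 1) hw1, twop_eq v hm]
          have e3 : Int.gcd (n : ℤ) ((2 ^ v : ℕ) : ℤ) = Nat.gcd n (2 ^ v) := Int.gcd_natCast_natCast _ _
          rw [e3]
          constructor
          · intro h
            exact ⟨h.2.resolve_left hne, by exact_mod_cast h.1⟩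
          · intro h
            exact ⟨by exact_mod_cast h.2, Or.inr h.1⟩
        have e2 : epsE (2 ^ v * m) (2 ^ (j + 1) * w) c * sgnE (2 ^ v * m) (2 ^ (j + 1) * w) =
            jacobiSym (-(c : ℤ)) (m / w) := by
          have e4 : 2 ^ v * m / (2 ^ (j + 1) * w) = 2 ^ (v - (j + 1)) * (m / w) := by
            rw [Nat.mul_div_mul_comm (pow_dvd_pow 2 hj') hwm, Nat.pow_div hj' two_pos]
          unfold epsE sgnE
          rw [if_neg hne, if_neg hne, e4, oddp_eq _ (hm.of_dvd_nat (Nat.div_dvd_of_dvd hwm)),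
            ← neg_one_mul (c : ℤ), jacobiSym.mul_left]
          ring
        by_cases h1 : Nat.gcd n (2 ^ v) = 2 ^ (j + 1)
        · by_cases h2 : w ∣ n
          · rw [if_pos (e1.2 ⟨h1, h2⟩), if_pos h1, if_pos h2, e2]
          · rw [if_neg (fun h => h2 (e1.1 h).2), if_pos h1, if_neg h2]
        · rw [if_neg (fun h => h1 (e1.1 h).1), if_neg h1]
      rw [Finset.sum_congr rfl key]
      split_ifs
      · rfl
      · exact Finset.sum_const_zero
    rw [Finset.sum_congr rfl hterm]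
    obtain ⟨i, hi, hgi⟩ := (Nat.dvd_prime_pow Nat.prime_two).1 (Nat.gcd_dvd_right n (2 ^ v))
    by_cases hn : Even n
    · rw [if_pos hn]
      have hi0 : i ≠ 0 := by
        rintro rfl
        have h2 : 2 ∣ Nat.gcd n (2 ^ v) :=
          Nat.dvd_gcd hn.two_dvd (dvd_pow_self 2 (by omega))
        rw [hgi] at h2
        norm_num at h2
      obtain ⟨j0, rfl⟩ := Nat.exists_eq_succ_of_ne_zero hi0
      rw [Finset.sum_eq_single j0]
      · rw [if_pos hgi]
      · intro j _ hj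
        rw [if_neg]
        rw [hgi]
        intro h
        have := Nat.pow_right_injective le_rfl h
        omega
      · intro h
        exact absurd (Finset.mem_range.2 (by omega)) h
    · rw [if_neg hn]
      refine Finset.sum_eq_zero fun j _ => ?_
      rw [if_neg]
      intro h
      apply hn
      rw [even_iff_two_dvd]
      have h2 : 2 ∣ Nat.gcd n (2 ^ v) := by
        rw [h]
        exact dvd_pow_self 2 (by omega)
      exact h2.trans (Nat.gcd_dvd_left _ _)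

/-- the arithmetic identity -/
lemma main_sum (m n : ℕ) (C : ℤ) (hsq : Squarefree m)
    (hone : ∀ p : ℕ, p.Prime → p ∣ m → ¬ p ∣ n → jacobiSym C p = 1)
    (hneg : Odd n → jacobiSym C m = -1) :
    -(∑ w ∈ m.divisors, if w ∣ n then jacobiSym C w else 0) +
      (if Even n then ∑ w ∈ m.divisors, if w ∣ n then jacobiSym C (m / w) else 0 else 0) = 0 := by
  have hm0 : m ≠ 0 := hsq.ne_zero
  set G := Nat.gcd m n with hG
  have hGm : G ∣ m := Nat.gcd_dvd_left _ _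
  have hG0 : G ≠ 0 := fun h => hm0 (Nat.eq_zero_of_gcd_eq_zero_left h)
  obtain ⟨E, hE⟩ := hGm
  have hE0 : E ≠ 0 := by
    rintro rfl
    exact hm0 (by rw [hE, mul_zero])
  have hfil : m.divisors.filter (fun w => w ∣ n) = G.divisors := by
    ext w
    rw [Finset.mem_filter, Nat.mem_divisors, Nat.mem_divisors, hG, Nat.dvd_gcd_iff]
    constructor
    · rintro ⟨⟨h1, -⟩, h2⟩
      exact ⟨⟨h1, h2⟩, hG0⟩
    · rintro ⟨⟨h1, h2⟩, -⟩
      exact ⟨⟨h1, hm0⟩, h2⟩
  have hJE : jacobiSym C E = 1 := by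
    apply jac_one
    intro p hp hpE
    apply hone p hp (by rw [hE]; exact hpE.mul_left G)
    intro hpn
    have hpG : p ∣ G := Nat.dvd_gcd (by rw [hE]; exact hpE.mul_left G) hpn
    have h2 : p * p ∣ m := by
      rw [hE]
      exact mul_dvd_mul hpG hpE
    exact hp.not_isUnit (hsq p h2)
  rw [← Finset.sum_filter, ← Finset.sum_filter, hfil]
  have hGsq : Squarefree G := hsq.squarefree_of_dvd ⟨E, hE⟩
  by_cases hn : Even n
  · rw [if_pos hn]
    have h1 : ∑ w ∈ G.divisors, jacobiSym C (m / w) = ∑ w ∈ G.divisors, jacobiSym C w := by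
      rw [← Nat.sum_div_divisors G (fun w => jacobiSym C w)]
      refine Finset.sum_congr rfl fun w hw => ?_
      have hwG := Nat.dvd_of_mem_divisors hw
      have h2 : m / w = E * (G / w) := by
        rw [hE, mul_comm G E, Nat.mul_div_assoc _ hwG]
      have h3 : G / w ≠ 0 := (Nat.div_pos (Nat.le_of_dvd (Nat.pos_of_ne_zero hG0) hwG)
        (Nat.pos_of_mem_divisors hw)).ne'
      rw [h2, jacobiSym.mul_right' C hE0 h3, hJE, one_mul]
    rw [h1]
    ring
  · rw [if_neg hn]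
    have h1 := hneg (Nat.not_even_iff_odd.1 hn)
    rw [hE, jacobiSym.mul_right' C hG0 hE0, hJE, mul_one] at h1
    rw [sumJ hGsq h1]
    ring

/-! ### The symbols -/

lemma one_of {p : ℕ} (hp : p.Prime) {n0 n n' A B x1 x2 y1 y2 : ℤ} (h0 : (p : ℤ) ∣ n0)
    (hn : ¬ (p : ℤ) ∣ n) (hA : ¬ (p : ℤ) ∣ A) (hB : ¬ (p : ℤ) ∣ B)
    (hx : n * A = x1 ^ 2 + n0 * x2 ^ 2) (hy : n' * B = y1 ^ 2 + n0 * y2 ^ 2)
    (hnn : (p : ℤ) ∣ n + n') : jacobiSym (-(A * B)) p = 1 := by
  have hpp := Nat.prime_iff_prime_int.1 hp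
  have : Fact p.Prime := ⟨hp⟩
  have h1 : jacobiSym (-(A * B) * n ^ 2) p = jacobiSym ((x1 * y1) ^ 2) p := by
    apply jacobiSym.mod_left'
    apply (Int.modEq_iff_dvd).2
    obtain ⟨k, hk⟩ := hnn
    obtain ⟨l, hl⟩ := h0
    refine ⟨A * B * n * k - l * (x1 ^ 2 * y2 ^ 2 + x2 ^ 2 * y1 ^ 2 + n0 * x2 ^ 2 * y2 ^ 2), ?_⟩
    linear_combination (A * B * n) * hk - n' * B * hx - (x1 ^ 2 + n0 * x2 ^ 2) * hy -
      (x1 ^ 2 * y2 ^ 2 + x2 ^ 2 * y1 ^ 2 + n0 * x2 ^ 2 * y2 ^ 2) * hl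
  have nz : ∀ z : ℤ, ¬ (p : ℤ) ∣ z → jacobiSym z p ≠ 0 := by
    intro z hz h
    have h3 := jacobiSym.eq_zero_iff_not_coprime.1 h
    apply h3
    rw [← Int.isCoprime_iff_gcd_eq_one, isCoprime_comm]
    exact (Prime.coprime_iff_not_dvd hpp).2 hz
  rw [jacobiSym.mul_left, jacobiSym.pow_left, jacobiSym.pow_left] at h1
  have h2 : jacobiSym (-(A * B)) p ≠ 0 := by
    apply nz
    rw [dvd_neg]
    intro h
    exact (hpp.dvd_or_dvd h).elim hA hB
  have h3 : 0 < jacobiSym n p ^ 2 := by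
    have := nz n hn
    positivity
  have h4 : 0 ≤ jacobiSym (x1 * y1) p ^ 2 := sq_nonneg _
  rcases jacobiSym.trichotomy (-(A * B)) p with h | h | h
  · exact absurd h h2
  · exact h
  · rw [h] at h1
    linarith

lemma negA {n0 c : ℕ} (h4 : n0 % 4 = 1) (hc : jacobiSym (-(n0 : ℤ)) c = 1) (hc4 : c % 4 = 3) :
    jacobiSym (-(c : ℤ)) n0 = -1 := by
  have hn : Odd n0 := Nat.odd_iff.2 (by omega)
  have hco : Odd c := Nat.odd_iff.2 (by omega)
  rw [jacobiSym.neg _ hco, ZMod.χ₄_nat_three_mod_four hc4] at hc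
  rw [jacobiSym.neg _ hn, ZMod.χ₄_nat_one_mod_four h4,
    ← jacobiSym.quadratic_reciprocity_one_mod_four h4 hco]
  linarith

lemma negB {m c : ℕ} (hm : Odd m) (hc : jacobiSym (-(2 * (m : ℤ))) c = 1)
    (h8 : c % 8 = 7 ∨ (m % 4 = 1 ∧ c % 8 = 5) ∨ (m % 4 = 3 ∧ c % 8 = 1)) :
    jacobiSym (-(c : ℤ)) m = -1 := by
  have hco : Odd c := by
    rw [Nat.odd_iff]
    omega
  have e1 : jacobiSym (-2) c * jacobiSym m c = 1 := by
    rw [← jacobiSym.mul_left, ← hc]
    congr 1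
  rw [jacobiSym.at_neg_two hco, ZMod.χ₈'_nat_eq_if_mod_eight, if_neg (by omega)] at e1
  rw [jacobiSym.neg _ hm]
  have hm4 : m % 4 = 1 ∨ m % 4 = 3 := by
    have := Nat.odd_iff.1 hm
    omega
  rcases hm4 with h4 | h4
  · rw [ZMod.χ₄_nat_one_mod_four h4, ← jacobiSym.quadratic_reciprocity_one_mod_four h4 hco]
    rw [if_neg (by omega)] at e1
    linarith
  · rw [ZMod.χ₄_nat_three_mod_four h4]
    rcases h8 with h8 | ⟨h8, -⟩ | ⟨-, h8⟩
    · have h5 := jacobiSym.quadratic_reciprocity_three_mod_four h4 (by omega : c % 4 = 3)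
      rw [if_neg (by omega)] at e1
      linarith
    · omega
    · rw [← jacobiSym.quadratic_reciprocity_one_mod_four' hm (by omega : c % 4 = 1)]
      rw [if_pos (by omega)] at e1
      linarith

lemma mod4 : ∀ u x y : ZMod 4, u = x ^ 2 + y ^ 2 → 2 * u ≠ 0 → u = 1 := by decide

lemma mod4' : ∀ n A B : ZMod 4, n * A = 1 → -n * B = 1 → A * B = 3 := by decide

lemma mod8 : ∀ m x y : ZMod 8, 4 * m ≠ 0 → 4 * (x ^ 2 + 2 * m * y ^ 2) ≠ 0 →
    x ^ 2 + 2 * m * y ^ 2 = 1 ∨ x ^ 2 + 2 * m * y ^ 2 = 1 + 2 * m := by decide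

lemma mod8' : ∀ m : ZMod 8, 4 * m ≠ 0 → (1 + 2 * m) * (1 + 2 * m) = 1 ∧ m ^ 2 = 1 := by decide

lemma odd4 {n : ℕ} (hn : Odd n) : (2 : ZMod 4) * (n : ZMod 4) ≠ 0 := by
  intro h
  have h1 : ((2 * n : ℕ) : ZMod 4) = 0 := by
    push_cast
    exact h
  rw [ZMod.natCast_eq_zero_iff] at h1
  rw [Nat.odd_iff] at hn
  omega

lemma odd8 {n : ℕ} (hn : Odd n) : (4 : ZMod 8) * (n : ZMod 8) ≠ 0 := by
  intro h
  have h1 : ((4 * n : ℕ) : ZMod 8) = 0 := by
    push_cast
    exact h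
  rw [ZMod.natCast_eq_zero_iff] at h1
  rw [Nat.odd_iff] at hn
  omega

lemma c_mod4 {n0 n n' A B : ℕ} {x1 x2 y1 y2 : ℤ} (h0 : n0 % 4 = 1) (hn : Odd n) (hA : Odd A)
    (hB : Odd B) (hx : (n * A : ℤ) = x1 ^ 2 + n0 * x2 ^ 2)
    (hy : (n' * B : ℤ) = y1 ^ 2 + n0 * y2 ^ 2) (hnn : 4 ∣ n + n') : (A * B) % 4 = 3 := by
  have hn' : Odd n' := by
    rw [Nat.odd_iff] at hn ⊢
    omega
  have e0 : (n0 : ZMod 4) = 1 := by
    have : ((n0 : ℕ) : ZMod 4) = ((1 : ℕ) : ZMod 4) :=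
      (ZMod.natCast_eq_natCast_iff' _ _ _).2 (by omega)
    rw [this, Nat.cast_one]
  have ex : ((n * A : ℕ) : ZMod 4) = (x1 : ZMod 4) ^ 2 + (x2 : ZMod 4) ^ 2 := by
    have := congrArg (fun z : ℤ => (z : ZMod 4)) hx
    push_cast at this ⊢
    rw [this, e0]
    ring
  have ey : ((n' * B : ℕ) : ZMod 4) = (y1 : ZMod 4) ^ 2 + (y2 : ZMod 4) ^ 2 := by
    have := congrArg (fun z : ℤ => (z : ZMod 4)) hy
    push_cast at this ⊢
    rw [this, e0]
    ring
  have e1 := mod4 _ _ _ ex (odd4 (hn.mul hA))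
  have e2 := mod4 _ _ _ ey (odd4 (hn'.mul hB))
  have e3 : (n' : ZMod 4) = -(n : ZMod 4) := by
    have : ((n + n' : ℕ) : ZMod 4) = 0 := (ZMod.natCast_eq_zero_iff _ _).2 hnn
    push_cast at this
    linear_combination this
  push_cast at e1 e2
  rw [e3] at e2
  have e4 := mod4' _ _ _ e1 e2
  have e5 : ((A * B : ℕ) : ZMod 4) = ((3 : ℕ) : ZMod 4) := by
    push_cast
    exact e4
  have e6 := (ZMod.natCast_eq_natCast_iff' _ _ _).1 e5
  omega

lemma c_mod8 {m n n' A B : ℕ} {x1 x2 y1 y2 : ℤ} (hm : Odd m) (hn : Odd n) (hA : Odd A)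
    (hB : Odd B) (hx : (n * A : ℤ) = x1 ^ 2 + 2 * m * x2 ^ 2)
    (hy : (n' * B : ℤ) = y1 ^ 2 + 2 * m * y2 ^ 2) (hnn : 8 ∣ n + n') :
    (A * B) % 8 = 7 ∨ (m % 4 = 1 ∧ (A * B) % 8 = 5) ∨ (m % 4 = 3 ∧ (A * B) % 8 = 1) := by
  have hn' : Odd n' := by
    rw [Nat.odd_iff] at hn ⊢
    omega
  have ex : ((n * A : ℕ) : ZMod 8) = (x1 : ZMod 8) ^ 2 + 2 * m * (x2 : ZMod 8) ^ 2 := by
    have := congrArg (fun z : ℤ => (z : ZMod 8)) hx
    push_cast at this ⊢
    exact this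
  have ey : ((n' * B : ℕ) : ZMod 8) = (y1 : ZMod 8) ^ 2 + 2 * m * (y2 : ZMod 8) ^ 2 := by
    have := congrArg (fun z : ℤ => (z : ZMod 8)) hy
    push_cast at this ⊢
    exact this
  have e1 := mod8 (m : ZMod 8) x1 x2 (odd8 hm) (by rw [← ex]; exact odd8 (hn.mul hA))
  have e2 := mod8 (m : ZMod 8) y1 y2 (odd8 hm) (by rw [← ey]; exact odd8 (hn'.mul hB))
  rw [← ex] at e1
  rw [← ey] at e2
  have e3 : (n' : ZMod 8) = -(n : ZMod 8) := by
    have : ((n + n' : ℕ) : ZMod 8) = 0 := (ZMod.natCast_eq_zero_iff _ _).2 hnn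
    push_cast at this
    linear_combination this
  have e4 := (mod8' _ (odd8 hn)).2
  have e5 := (mod8' _ (odd8 hm)).1
  have e6 : ((A * B : ℕ) : ZMod 8) = -(((n * A : ℕ) : ZMod 8) * ((n' * B : ℕ) : ZMod 8)) := by
    push_cast
    rw [e3]
    linear_combination (-(A : ZMod 8) * B) * e4
  have e7 : ((A * B + 1 : ℕ) : ZMod 8) = 0 ∨ ((A * B + 1 + 2 * m : ℕ) : ZMod 8) = 0 := by
    rcases e1 with e1 | e1 <;> rcases e2 with e2 | e2 <;> rw [e1, e2] at e6
    · left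
      push_cast at e6 ⊢
      linear_combination e6
    · right
      push_cast at e6 ⊢
      linear_combination e6
    · right
      push_cast at e6 ⊢
      linear_combination e6
    · left
      rw [e5] at e6
      push_cast at e6 ⊢
      linear_combination e6
  have hm2 := Nat.odd_iff.1 hm
  rcases e7 with h | h
  · rw [ZMod.natCast_eq_zero_iff] at h
    left
    omega
  · rw [ZMod.natCast_eq_zero_iff] at h
    right
    omega

end SgnEAux

open SgnEAux in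
/-- Module I9. -/
theorem stSgnE (h1 : StBasE) (h2 : StSplitE) : StSgnE := by
  intro D F _ _ s σ χ cj H a b x y n n' ha hb has hbs hx hy hnx hny hnn
  obtain ⟨⟨t, -, -, b3, -, b5⟩, -⟩ := h1 D F _ _ s σ χ cj H
  obtain ⟨x1, x2, rfl⟩ := b3 x
  obtain ⟨y1, y2, rfl⟩ := b3 y
  have kA := ThCEX.kr_norm h2 H a ha has
  have kB := ThCEX.kr_norm h2 H b hb hbs
  set A := Ideal.absNorm a with hAdef
  set B := Ideal.absNorm b with hBdef
  obtain ⟨h4, n0, hn0, hsq, hmod⟩ := H.ev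
  have hD4 : D / 4 = n0 := by omega
  have odd_of : ∀ c : ℕ, kr D c = 1 → Odd c ∧ jacobiSym (-(n0 : ℤ)) c = 1 := by
    intro c hc
    unfold kr at hc
    rw [hD4] at hc
    split_ifs at hc with he
    · exact absurd hc (by norm_num)
    · exact ⟨Nat.not_even_iff_odd.1 he, hc⟩
  obtain ⟨hAo, jA⟩ := odd_of A kA
  obtain ⟨hBo, jB⟩ := odd_of B kB
  obtain ⟨hco, jc⟩ := odd_of (A * B) (by rw [ThCEX.kr_mul, kA, kB, one_mul])
  have hcopr : ∀ {p c : ℕ}, p.Prime → p ∣ n0 → Odd c → jacobiSym (-(n0 : ℤ)) c = 1 →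
      ¬ (p : ℤ) ∣ (c : ℤ) := by
    intro p c hp hpn hc hj hpc
    have : NeZero c := ⟨hc.pos.ne'⟩
    have h5 : jacobiSym (-(n0 : ℤ)) c = 0 := by
      rw [jacobiSym.eq_zero_iff_not_coprime]
      intro h6
      have h7 : (p : ℤ) ∣ ((Int.gcd (-(n0 : ℤ)) c : ℕ) : ℤ) :=
        Int.dvd_coe_gcd (dvd_neg.2 (by exact_mod_cast hpn)) hpc
      rw [h6] at h7
      have h8 : p ∣ 1 := by exact_mod_cast h7
      exact hp.one_lt.ne' (Nat.dvd_one.1 h8)
    rw [hj] at h5
    exact one_ne_zero h5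
  have ex : ((n : ℤ) * A : ℤ) = x1 ^ 2 + n0 * x2 ^ 2 := by
    rw [← hD4, ← b5 x1 x2, hnx]
    push_cast
    rfl
  have ey : ((n' : ℤ) * B : ℤ) = y1 ^ 2 + n0 * y2 ^ 2 := by
    rw [← hD4, ← b5 y1 y2, hny]
    push_cast
    rfl
  have hone : ∀ p : ℕ, p.Prime → p ∣ n0 → ¬ p ∣ n → jacobiSym (-((A : ℤ) * B)) p = 1 := by
    intro p hp hpn hpn'
    refine one_of hp (by exact_mod_cast hpn) (fun h => hpn' (by exact_mod_cast h))
      (hcopr hp hpn hAo jA) (hcopr hp hpn hBo jB) ex ey ?_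
    have h5 : p ∣ n + n' := (hpn.trans ⟨4, by omega⟩).trans hnn
    exact_mod_cast h5
  rcases hmod with hmod | hmod
  · have hDv : D = 2 ^ 2 * n0 := by omega
    have hm : Odd n0 := Nat.odd_iff.2 (by omega)
    rw [hDv, sum_eq 2 n0 n (A * B) (by norm_num) hm]
    have hc : -((A * B : ℕ) : ℤ) = -((A : ℤ) * B) := by push_cast; rfl
    rw [hc]
    refine main_sum n0 n _ hsq hone fun hno => ?_
    rw [← hc]
    refine negA hmod jc (c_mod4 hmod hno hAo hBo ex ey ((Dvd.intro n0 hn0.symm).trans hnn))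
  · obtain ⟨m, hm2⟩ : ∃ m, n0 = 2 * m := ⟨n0 / 2, by omega⟩
    have hDv : D = 2 ^ 3 * m := by omega
    have hm : Odd m := by
      rw [Nat.odd_iff]
      omega
    have hmn : m ∣ n0 := ⟨2, by rw [hm2, mul_comm]⟩
    rw [hDv, sum_eq 3 m n (A * B) (by norm_num) hm]
    have hc : -((A * B : ℕ) : ℤ) = -((A : ℤ) * B) := by push_cast; rfl
    rw [hc]
    refine main_sum m n _ (hsq.squarefree_of_dvd hmn) (fun p hp hpm => hone p hp (hpm.trans hmn))
      fun hno => ?_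
    rw [← hc]
    have hn0' : (n0 : ℤ) = 2 * (m : ℤ) := by exact_mod_cast hm2
    rw [hn0'] at ex ey jc
    exact negB hm jc (c_mod8 hm hno hAo hBo ex ey
      ((show 8 ∣ D from ⟨m, by rw [hDv]; norm_num⟩).trans hnn))

end RZ

end Pool.Agent.Lib.MP_7c08ba_nt
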