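import Pool.Agent.Lib.MP_7c08ba_nt.RZ.StA

set_option autoImplicit false

/-!
Module A7: cusp forms of level one are linear combinations of Poincaré series.
-/

namespace Pool.Agent.Lib.MP_7c08ba_nt

namespace RZ

open NumberField MeasureTheory UpperHalfPlane Set
open scoped MatrixGroups ComplexConjugate nonZeroDivisors

namespace SpanAux

variable {w : ℕ}

/-- A cusp form as a function on `ℂ`. -/
noncomputable def ext (g : CuspForm 𝒮ℒ (w : ℤ)) (z : ℂ) : ℂ := g (ofComplex z)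

theorem ext_pos (g : CuspForm 𝒮ℒ (w : ℤ)) {z : ℂ} (hz : 0 < z.im) : ext g z = g ⟨z, hz⟩ := by
  rw [ext, ofComplex_apply_of_im_pos hz]

theorem ext_coe (g : CuspForm 𝒮ℒ (w : ℤ)) (z : ℍ) : ext g z = g z := by
  rw [ext, ofComplex_apply]

theorem ext_add (g h : CuspForm 𝒮ℒ (w : ℤ)) (z : ℂ) : ext (g + h) z = ext g z + ext h z := rfl

theorem ext_smul (c : ℂ) (g : CuspForm 𝒮ℒ (w : ℤ)) (z : ℂ) : ext (c • g) z = c * ext g z := rfl

theorem wt_ext (g : CuspForm 𝒮ℒ (w : ℤ)) : Wt w (ext g) := by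
  intro γ z hz
  have h := SlashInvariantForm.slash_action_eqn'' (Γ := 𝒮ℒ) g
    (γ := (γ : GL (Fin 2) ℝ)) ⟨γ, rfl⟩ ⟨z, hz⟩
  have h1 : ((γ • (⟨z, hz⟩ : ℍ) : ℍ) : ℂ) =
      ((γ 0 0 : ℂ) * z + γ 0 1) / ((γ 1 0 : ℂ) * z + γ 1 1) := by
    rw [coe_specialLinearGroup_apply]
    simp
  rw [← h1, ext_coe, ext_pos g hz]
  have h2 : denom (γ : GL (Fin 2) ℝ) (⟨z, hz⟩ : ℍ) = (γ 1 0 : ℂ) * z + γ 1 1 :=
    ModularGroup.denom_apply γ ⟨z, hz⟩
  rw [h2, zpow_natCast] at h
  exact h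

theorem continuousOn_ext (g : CuspForm 𝒮ℒ (w : ℤ)) : ContinuousOn (ext g) {z | 0 < z.im} :=
  (UpperHalfPlane.mdifferentiable_iff.mp (CuspFormClass.holo g)).continuousOn

theorem im_neg_conj (z : ℂ) : (-conj z).im = z.im := by simp

theorem continuous_term (g h : CuspForm 𝒮ℒ (w : ℤ)) :
    Continuous fun z : ℍ => ext g z * ext h (-conj (z : ℂ)) * (z.im : ℂ) ^ w := by
  refine (Continuous.mul ?_ ?_).mul ?_
  · exact (continuousOn_ext g).comp_continuous continuous_coe fun z => z.im_pos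
  · refine (continuousOn_ext h).comp_continuous
      (Complex.continuous_conj.comp continuous_coe).neg fun z => ?_
    show 0 < (-conj (z : ℂ)).im
    rw [im_neg_conj]
    exact z.im_pos
  · exact (Complex.continuous_ofReal.comp continuous_im).pow w

theorem integrable_term (h3 : StCoef) (h4 : StFd) (g h : CuspForm 𝒮ℒ (w : ℤ)) :
    IntegrableOn (fun z : ℍ => ext g z * ext h (-conj (z : ℂ)) * (z.im : ℂ) ^ w)
      ModularGroup.fd := by
  obtain ⟨-, -, -, ⟨C₁, hC₁⟩, -⟩ := h3 w g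
  obtain ⟨-, -, -, ⟨C₂, hC₂⟩, -⟩ := h3 w h
  refine Measure.integrableOn_of_bounded (M := C₁ * C₂) h4.1.ne
    (continuous_term g h).aestronglyMeasurable (Filter.Eventually.of_forall fun z => ?_)
  have hy : 0 < z.im := z.im_pos
  have b1 : ‖ext g z‖ * z.im ^ ((w : ℝ) / 2) ≤ C₁ := hC₁ z z.im_pos
  have b2 : ‖ext h (-conj (z : ℂ))‖ * z.im ^ ((w : ℝ) / 2) ≤ C₂ := by
    have := hC₂ (-conj (z : ℂ)) (by rw [im_neg_conj]; exact z.im_pos)
    rwa [im_neg_conj] at this
  have e : (z.im : ℝ) ^ w = z.im ^ ((w : ℝ) / 2) * z.im ^ ((w : ℝ) / 2) := by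
    rw [← Real.rpow_add hy, add_halves, Real.rpow_natCast]
  have n1 : ‖((z.im : ℝ) : ℂ) ^ w‖ = (z.im : ℝ) ^ w := by
    rw [norm_pow, Complex.norm_real, Real.norm_of_nonneg hy.le]
  rw [norm_mul, norm_mul, n1, e]
  calc ‖ext g z‖ * ‖ext h (-conj (z : ℂ))‖ * (z.im ^ ((w : ℝ) / 2) * z.im ^ ((w : ℝ) / 2))
      = (‖ext g z‖ * z.im ^ ((w : ℝ) / 2)) *
        (‖ext h (-conj (z : ℂ))‖ * z.im ^ ((w : ℝ) / 2)) := by ring
    _ ≤ C₁ * C₂ := mul_le_mul b1 b2 (by positivity) (le_trans (by positivity) b1)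

/-- The bilinear form. -/
noncomputable def Psi (h3 : StCoef) (h4 : StFd) :
    CuspForm 𝒮ℒ (w : ℤ) →ₗ[ℂ] CuspForm 𝒮ℒ (w : ℤ) →ₗ[ℂ] ℂ :=
  LinearMap.mk₂ ℂ
    (fun h g => ∫ z : ℍ in ModularGroup.fd, ext g z * ext h (-conj (z : ℂ)) * (z.im : ℂ) ^ w)
    (fun h₁ h₂ g => by
      rw [← integral_add (integrable_term h3 h4 g h₁) (integrable_term h3 h4 g h₂)]
      refine integral_congr_ae (Filter.Eventually.of_forall fun z => ?_)
      show ext g z * ext (h₁ + h₂) (-conj (z : ℂ)) * (z.im : ℂ) ^ w = _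
      rw [ext_add]
      ring)
    (fun c h g => by
      rw [smul_eq_mul, ← integral_const_mul]
      refine integral_congr_ae (Filter.Eventually.of_forall fun z => ?_)
      show ext g z * ext (c • h) (-conj (z : ℂ)) * (z.im : ℂ) ^ w = _
      rw [ext_smul]
      ring)
    (fun h g₁ g₂ => by
      rw [← integral_add (integrable_term h3 h4 g₁ h) (integrable_term h3 h4 g₂ h)]
      refine integral_congr_ae (Filter.Eventually.of_forall fun z => ?_)
      show ext (g₁ + g₂) z * ext h (-conj (z : ℂ)) * (z.im : ℂ) ^ w = _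
      rw [ext_add]
      ring)
    (fun c h g => by
      rw [smul_eq_mul, ← integral_const_mul]
      refine integral_congr_ae (Filter.Eventually.of_forall fun z => ?_)
      show ext (c • g) z * ext h (-conj (z : ℂ)) * (z.im : ℂ) ^ w = _
      rw [ext_smul]
      ring)

theorem Psi_apply (h3 : StCoef) (h4 : StFd) (h g : CuspForm 𝒮ℒ (w : ℤ)) :
    Psi h3 h4 h g =
      ∫ z : ℍ in ModularGroup.fd, ext g z * ext h (-conj (z : ℂ)) * (z.im : ℂ) ^ w := rfl

/-! ### Fourier coefficients -/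

theorem norm_ee (z : ℂ) : ‖ee z‖ = Real.exp (-(2 * Real.pi * z.im)) := by
  unfold ee
  rw [Complex.norm_exp]
  congr 1
  simp

theorem norm_ee_n (n : ℕ) (x y : ℝ) :
    ‖ee (n * ((x : ℂ) + y * Complex.I))‖ = ‖ee (n * ((y : ℂ) * Complex.I))‖ := by
  rw [norm_ee, norm_ee]
  congr 1
  simp

theorem norm_ee_m (m : ℕ) (x y : ℝ) :
    ‖ee (-(m : ℂ) * ((x : ℂ) - y * Complex.I))‖ = Real.exp (-(2 * Real.pi * (m * y))) := by
  rw [norm_ee]
  congr 1
  simp

theorem ee_mul_ee (m n : ℕ) (x y : ℝ) :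
    ee (n * ((x : ℂ) + y * Complex.I)) * ee (-(m : ℂ) * ((x : ℂ) - y * Complex.I)) =
      Complex.exp (-(2 * Real.pi * ((n : ℂ) + m) * y)) *
        Complex.exp ((2 * Real.pi * Complex.I * ((n : ℂ) - m)) * x) := by
  unfold ee
  rw [← Complex.exp_add, ← Complex.exp_add]
  congr 1
  linear_combination (2 * (Real.pi : ℂ) * (n + m) * y) * Complex.I_sq

theorem integral_ee (m n : ℕ) (y : ℝ) :
    ∫ x in (0 : ℝ)..1, ee (n * ((x : ℂ) + y * Complex.I)) *
        ee (-(m : ℂ) * ((x : ℂ) - y * Complex.I)) =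
      if n = m then ((Real.exp (-(4 * Real.pi * m * y)) : ℝ) : ℂ) else 0 := by
  simp_rw [ee_mul_ee]
  rw [intervalIntegral.integral_const_mul]
  split_ifs with h
  · subst h
    have : ∀ x : ℝ, Complex.exp ((2 * Real.pi * Complex.I * ((n : ℂ) - n)) * x) = 1 := by
      intro x
      rw [sub_self, mul_zero, zero_mul, Complex.exp_zero]
    simp_rw [this]
    rw [intervalIntegral.integral_const, sub_zero, one_smul, mul_one, Complex.ofReal_exp]
    congr 1
    push_cast
    ring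
  · have hne : (n : ℂ) - m ≠ 0 := by
      rw [sub_ne_zero]
      exact_mod_cast h
    have hc : 2 * (Real.pi : ℂ) * Complex.I * ((n : ℂ) - m) ≠ 0 :=
      mul_ne_zero Complex.two_pi_I_ne_zero hne
    rw [integral_exp_mul_complex hc]
    have h1 : Complex.exp (2 * (Real.pi : ℂ) * Complex.I * ((n : ℂ) - m) * ((1 : ℝ) : ℂ)) = 1 := by
      have := Complex.exp_int_mul_two_pi_mul_I ((n : ℤ) - m)
      rw [← this]
      congr 1
      push_cast
      ring
    rw [h1, Complex.ofReal_zero, mul_zero, Complex.exp_zero, sub_self, zero_div, mul_zero]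

theorem inner_integral (h3 : StCoef) (g : CuspForm 𝒮ℒ (w : ℤ)) (m : ℕ) {y : ℝ} (hy : 0 < y) :
    ∫ x in (0 : ℝ)..1, ext g ((x : ℂ) + y * Complex.I) *
        ee (-(m : ℂ) * ((x : ℂ) - y * Complex.I)) =
      coef g m * ((Real.exp (-(4 * Real.pi * m * y)) : ℝ) : ℂ) := by
  obtain ⟨-, -, hexp, -, -⟩ := h3 w g
  have him : ∀ x : ℝ, 0 < ((x : ℂ) + y * Complex.I).im := by
    intro x
    simpa using hy
  have hsum0 := (hexp ((y : ℂ) * Complex.I) (by simpa using hy)).1
  have key : HasSum (fun n : ℕ => ∫ x in (0 : ℝ)..1,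
      coef g n * (ee (n * ((x : ℂ) + y * Complex.I)) * ee (-(m : ℂ) * ((x : ℂ) - y * Complex.I))))
      (∫ x in (0 : ℝ)..1, ext g ((x : ℂ) + y * Complex.I) *
        ee (-(m : ℂ) * ((x : ℂ) - y * Complex.I))) := by
    refine intervalIntegral.hasSum_integral_of_dominated_convergence
      (fun n _ => ‖coef g n * ee (n * ((y : ℂ) * Complex.I))‖ *
        Real.exp (-(2 * Real.pi * (m * y)))) ?_ ?_ ?_ ?_ ?_
    · intro n
      refine Continuous.aestronglyMeasurable ?_
      unfold ee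
      fun_prop
    · intro n
      refine Filter.Eventually.of_forall fun x _ => ?_
      rw [norm_mul, norm_mul, norm_ee_n, norm_ee_m, norm_mul]
      exact le_of_eq (by ring)
    · refine Filter.Eventually.of_forall fun x _ => ?_
      exact hsum0.mul_right _
    · exact intervalIntegrable_const
    · refine Filter.Eventually.of_forall fun x _ => ?_
      obtain ⟨hs, he⟩ := hexp _ (him x)
      have h5 : HasSum (fun n : ℕ => coef g n * ee (n * ((x : ℂ) + y * Complex.I)))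
          (ext g ((x : ℂ) + y * Complex.I)) := by
        rw [ext, he]
        exact hs.of_norm.hasSum
      have h6 := h5.mul_right (ee (-(m : ℂ) * ((x : ℂ) - y * Complex.I)))
      simp_rw [mul_assoc] at h6
      exact h6
  have hval : ∀ n : ℕ, (∫ x in (0 : ℝ)..1,
      coef g n * (ee (n * ((x : ℂ) + y * Complex.I)) * ee (-(m : ℂ) * ((x : ℂ) - y * Complex.I)))) =
      if n = m then coef g m * ((Real.exp (-(4 * Real.pi * m * y)) : ℝ) : ℂ) else 0 := by
    intro n
    rw [intervalIntegral.integral_const_mul, integral_ee]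
    split_ifs with h
    · rw [h]
    · rw [mul_zero]
  simp_rw [hval] at key
  exact key.unique (hasSum_ite_eq m _)

/-- The constant in the formula for the Fourier coefficients. -/
noncomputable def cst (w m : ℕ) : ℝ :=
  (1 / (4 * Real.pi * m)) ^ ((w : ℝ) - 1) * Real.Gamma ((w : ℝ) - 1)

theorem cst_pos (w m : ℕ) (hw : 4 ≤ w) (hm : 1 ≤ m) : 0 < cst w m := by
  have hw' : (4 : ℝ) ≤ w := by exact_mod_cast hw
  have hm' : (0 : ℝ) < m := by exact_mod_cast hm
  have := Real.pi_pos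
  exact mul_pos (Real.rpow_pos_of_pos (by positivity) _) (Real.Gamma_pos_of_pos (by linarith))

theorem outer_integral (h3 : StCoef) (g : CuspForm 𝒮ℒ (w : ℤ)) (m : ℕ) (hw : 4 ≤ w)
    (hm : 1 ≤ m) :
    ∫ y in Ioi (0 : ℝ), (∫ x in (0 : ℝ)..1, ext g (x + y * Complex.I) *
        ee (-(m : ℂ) * (x - y * Complex.I))) * (y : ℂ) ^ (w - 2) = coef g m * (cst w m : ℂ) := by
  have hw' : (4 : ℝ) ≤ w := by exact_mod_cast hw
  have hm' : (0 : ℝ) < m := by exact_mod_cast hm
  have hpi := Real.pi_pos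
  have h1 : ∀ y ∈ Ioi (0 : ℝ), (∫ x in (0 : ℝ)..1, ext g (x + y * Complex.I) *
        ee (-(m : ℂ) * (x - y * Complex.I))) * (y : ℂ) ^ (w - 2) =
      coef g m * ((y ^ ((w : ℝ) - 1 - 1) * Real.exp (-(4 * Real.pi * m * y)) : ℝ) : ℂ) := by
    intro y hy
    have hy' : 0 < y := hy
    rw [inner_integral h3 g m hy']
    have h2 : y ^ ((w : ℝ) - 1 - 1) = y ^ (w - 2) := by
      rw [← Real.rpow_natCast]
      congr 1
      rw [Nat.cast_sub (by omega)]
      push_cast
      ring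
    rw [h2]
    push_cast
    ring
  have h5 : ∫ y in Ioi (0 : ℝ),
      ((y ^ ((w : ℝ) - 1 - 1) * Real.exp (-(4 * Real.pi * m * y)) : ℝ) : ℂ) =
      ((∫ y in Ioi (0 : ℝ), y ^ ((w : ℝ) - 1 - 1) * Real.exp (-(4 * Real.pi * m * y)) : ℝ) : ℂ) :=
    integral_ofReal
  rw [setIntegral_congr_fun measurableSet_Ioi h1, integral_const_mul, h5,
    Real.integral_rpow_mul_exp_neg_mul_Ioi (by linarith) (by positivity)]
  rfl

end SpanAux

open SpanAux in
/-- (A7) -/
theorem stSpan (h1 : StPoi) (h2 : StPetU) (h3 : StCoef) (h4 : StFd) : StSpan := by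
  intro w f hw hev
  have hP : ∀ m : ℕ, ∃ P : CuspForm 𝒮ℒ (w : ℤ), 1 ≤ m → ∀ z : ℍ, P z = poinc w m z := by
    intro m
    by_cases hm : 1 ≤ m
    · obtain ⟨P, hP⟩ := h1 w m (by omega) hev hm
      exact ⟨P, fun _ => hP⟩
    · exact ⟨0, fun h => absurd h hm⟩
  choose P hP using hP
  have : FiniteDimensional ℂ (CuspForm 𝒮ℒ (w : ℤ)) :=
    FiniteDimensional.of_injective CuspForm.toModularFormₗ CuspForm.toModularFormₗ_injective
  set Ψ : CuspForm 𝒮ℒ (w : ℤ) →ₗ[ℂ] Module.Dual ℂ (CuspForm 𝒮ℒ (w : ℤ)) := Psi h3 h4 with hΨ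
  have hPet : ∀ (m : ℕ) (g : CuspForm 𝒮ℒ (w : ℤ)), 1 ≤ m →
      Ψ (P m) g = coef g m * (cst w m : ℂ) := by
    intro m g hm
    show Psi h3 h4 (P m) g = _
    rw [Psi_apply, ← outer_integral h3 g m hw hm]
    obtain ⟨-, -, -, hC, -⟩ := h3 w g
    rw [← (h2 w m (ext g) hw hev hm (continuousOn_ext g) (wt_ext g) hC).2]
    refine integral_congr_ae (Filter.Eventually.of_forall fun z => ?_)
    have hz : 0 < (-conj (z : ℂ)).im := by
      rw [im_neg_conj]
      exact z.im_pos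
    show ext g z * ext (P m) (-conj (z : ℂ)) * (z.im : ℂ) ^ w =
      ext g z * poinc w m (-conj (z : ℂ)) * (z.im : ℂ) ^ w
    rw [ext_pos (P m) hz, hP m hm]
  -- the span of the Poincaré series
  let Q : ℕ → CuspForm 𝒮ℒ (w : ℤ) := fun m => if m = 0 then 0 else P m
  set S : Submodule ℂ (CuspForm 𝒮ℒ (w : ℤ)) := Submodule.span ℂ (Set.range Q) with hS
  have hmem : ∀ m, 1 ≤ m → P m ∈ S := by
    intro m hm
    refine Submodule.subset_span ⟨m, ?_⟩
    show (if m = 0 then 0 else P m) = P m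
    rw [if_neg (by omega)]
  have hbot : (S.map Ψ).dualCoannihilator = ⊥ := by
    rw [Submodule.eq_bot_iff]
    intro g hg
    rw [Submodule.mem_dualCoannihilator] at hg
    have hcoef : ∀ m : ℕ, coef g m = 0 := by
      intro m
      rcases Nat.eq_zero_or_pos m with rfl | hm
      · exact (h3 w g).1
      · have := hg (Ψ (P m)) (Submodule.mem_map_of_mem (hmem m hm))
        rw [hPet m g hm] at this
        rcases mul_eq_zero.mp this with h | h
        · exact h
        · exact absurd (Complex.ofReal_eq_zero.mp h) (cst_pos w m hw hm).ne'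
    refine DFunLike.ext _ _ fun z => ?_
    have h5 := ((h3 w g).2.2.1 z z.im_pos).2
    rw [ofComplex_apply] at h5
    rw [h5]
    simp [hcoef]
  have htop : S.map Ψ = ⊤ := by
    have h6 := Subspace.dualCoannihilator_dualAnnihilator_eq (W := S.map Ψ)
    rw [hbot, Submodule.dualAnnihilator_bot] at h6
    exact h6.symm
  have hST : S = ⊤ := by
    refine Submodule.eq_top_of_finrank_eq (le_antisymm (Submodule.finrank_le S) ?_)
    have h7 := Submodule.finrank_map_le Ψ S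
    rw [htop, finrank_top, Subspace.dual_finrank_eq] at h7
    exact h7
  have hf : f ∈ S := by
    rw [hST]
    exact Submodule.mem_top
  obtain ⟨β, hβ⟩ := (Finsupp.mem_span_range_iff_exists_finsupp).mp hf
  refine ⟨β.erase 0, Finsupp.erase_same, fun z => ?_⟩
  let ev : CuspForm 𝒮ℒ (w : ℤ) →ₗ[ℂ] ℂ :=
    { toFun := fun g => g z
      map_add' := fun _ _ => rfl
      map_smul' := fun _ _ => rfl }
  have h8 : f z = β.sum fun m b => b * (Q m) z := by
    have := congrArg ev hβ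
    rw [map_finsuppSum] at this
    exact this.symm
  rw [h8]
  unfold Finsupp.sum
  rw [Finsupp.support_erase]
  have h9 : ∀ m ∈ β.support.erase 0, (β.erase 0) m * poinc w m z = β m * (Q m) z := by
    intro m hm
    have hm0 : m ≠ 0 := (Finset.mem_erase.mp hm).1
    rw [Finsupp.erase_ne hm0]
    show _ = β m * (if m = 0 then (0 : CuspForm 𝒮ℒ (w : ℤ)) else P m) z
    rw [if_neg hm0, hP m (by omega)]
  rw [Finset.sum_congr rfl h9]
  refine (Finset.sum_subset (Finset.erase_subset 0 β.support) fun m hm hm' => ?_).symm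
  have hm0 : m = 0 := by
    by_contra h
    exact hm' (Finset.mem_erase.mpr ⟨h, hm⟩)
  rw [hm0]
  show β 0 * (if (0 : ℕ) = 0 then (0 : CuspForm 𝒮ℒ (w : ℤ)) else P 0) z = 0
  rw [if_pos rfl]
  exact mul_zero _

end RZ

end Pool.Agent.Lib.MP_7c08ba_nt
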