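import Mathlib
import Pool.Agent.Lib.MP_7c08ba_nt.RZ.StRm
import Pool.Agent.Lib.MP_7c08ba_nt.RZ.SuA

set_option autoImplicit false

/-! (Q6): the two sums are holomorphic, index `m`. -/

namespace Pool.Agent.Lib.MP_7c08ba_nt

namespace RZ

open NumberField MeasureTheory UpperHalfPlane Set IsDedekindDomain
open scoped MatrixGroups ComplexConjugate nonZeroDivisors

open SuAux in
theorem stSuAm (h1 : StKpA) (h2 : StThK) : StSuAm := by
  intro D hD0 F _ _ s σ χ cj k r m ψ c hD hp hH hm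
  obtain ⟨hρ, -⟩ := h2 D F _ _ s σ χ cj k ψ c hD hH
  have hD1 : 1 ≤ D := hp.one_lt.le
  have hDc : (D : ℂ) ≠ 0 := by exact_mod_cast hp.ne_zero
  have hmD : 1 ≤ m * D := Nat.mul_pos hm hD1
  have hS := uu_all h1 k r (m * D) hmD (rT k ψ c) (sSm D χ m)
    (fun n => sum_diff _ _)
    (fun n _ e he => sum_bound _ _ (fun d => DirichletCharacter.norm_le_one χ _) e he) hρ
  have hI := uu_all h1 k r m hm (rT k ψ c) (sIm D χ m)
    (fun n => sum_diff _ _)
    (fun n _ e he => sum_bound ((n : ℤ) - m).natAbs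
      (fun d => χ ((((n : ℤ) - m) / d : ℤ) : ZMod D))
      (fun d => DirichletCharacter.norm_le_one χ _) e he) hρ
  have eS : ∀ t n, uSm D χ k r m ψ c t n = uu k r (m * D) (rT k ψ c) (sSm D χ m) t n :=
    fun t n => rfl
  have eI : ∀ t n, uIm D χ k r m ψ c t n = uu k r m (rT k ψ c) (sIm D χ m) t n :=
    fun t n => rfl
  simp only [eS, eI]
  refine ⟨?_, hS.2.1, hI.2.1, fun t h3 h4 => ⟨(hS.2.2 t ⟨h3, h4⟩).1, (hI.2.2 t ⟨h3, h4⟩).1,
    (hS.2.2 t ⟨h3, h4⟩).2, (hI.2.2 t ⟨h3, h4⟩).2⟩⟩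
  unfold SUMm
  simp only [eS, eI]
  refine DifferentiableOn.add (DifferentiableOn.mul ?_ hS.1) (DifferentiableOn.mul ?_ hI.1)
  · unfold cS
    refine Differentiable.differentiableOn ?_
    refine Differentiable.const_mul ?_ _
    exact Differentiable.const_cpow (by fun_prop) (Or.inl hDc)
  · unfold cI
    refine Differentiable.differentiableOn ?_
    refine Differentiable.const_mul ?_ _
    exact Differentiable.const_cpow (by fun_prop) (Or.inl hDc)

end RZ

end Pool.Agent.Lib.MP_7c08ba_nt
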