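import Mathlib
import Pool.Agent.Lib.MP_7c08ba_nt.RZ.StX
import Pool.Agent.Lib.MP_7c08ba_nt.RZ.SuB

set_option autoImplicit false

/-!
The derivative of the sum at `-r`, every imaginary quadratic field (module RZX-SuBX).
-/

namespace Pool.Agent.Lib.MP_7c08ba_nt

namespace RZ

open NumberField MeasureTheory UpperHalfPlane Set IsDedekindDomain
open scoped MatrixGroups ComplexConjugate nonZeroDivisors

namespace SuBXm

section

variable {D : ℕ} {χ : DirichletCharacter ℂ D}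

theorem norm_om (g c : ℕ) (d : ℤ) : ‖om D χ g c d‖ ≤ 1 := by
  unfold om
  split_ifs
  · exact DirichletCharacter.norm_le_one χ _
  · simp

theorem norm_inner (g c : ℕ) (N : ℤ) :
    ‖∑ d ∈ Finset.range D, om D χ g c d * ee (-(((N : ℤ) : ℂ) * d / D))‖ ≤ D := by
  have h : ∀ d ∈ Finset.range D, ‖om D χ g c d * ee (-(((N : ℤ) : ℂ) * d / D))‖ ≤ 1 := by
    intro d _
    rw [norm_mul]
    have h1 : ‖ee (-(((N : ℤ) : ℂ) * d / D))‖ = 1 := by
      unfold ee
      rw [Complex.norm_exp]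
      simp
    rw [h1, mul_one]
    exact norm_om g c d
  refine (norm_sum_le_of_le _ h).trans ?_
  simp

theorem norm_sG0 (g n : ℕ) (h : D < n) : ‖sG D χ g n 0‖ ≤ (n : ℝ) * D := by
  unfold sG
  have h1 : ∀ c ∈ ((n : ℤ) - D).natAbs.divisors, ‖(c : ℂ) ^ (-(2 * (0 : ℂ))) *
      ∑ d ∈ Finset.range D, om D χ g c d * ee (-(((((n : ℤ) - D) / c : ℤ) : ℂ) * d / D))‖ ≤ D := by
    intro c _
    simp only [mul_zero, neg_zero, Complex.cpow_zero, one_mul]
    exact norm_inner g c _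
  refine (norm_sum_le_of_le _ h1).trans ?_
  rw [Finset.sum_const, nsmul_eq_mul]
  refine mul_le_mul_of_nonneg_right ?_ (by positivity)
  rw [SuBm.natAbs_gt D n h.le]
  exact_mod_cast (Nat.card_divisors_le_self (n - D)).trans (Nat.sub_le n D)

theorem diff_sG (g n : ℕ) (e : ℂ) : DifferentiableAt ℂ (sG D χ g n) e := by
  unfold sG
  refine DifferentiableAt.fun_sum fun c hc => ?_
  exact (SuBm.diff_cpow c (Nat.pos_of_mem_divisors hc) e).mul_const _

theorem hasDeriv_Om (θ : ℕ → ℕ → ℂ) (n : ℕ) (e : ℂ) :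
    HasDerivAt (OmX D χ θ n)
      (∑ g ∈ D.divisors, ((wid D g : ℂ) / D) * θ g n * deriv (sG D χ g n) e) e := by
  have h : HasDerivAt (fun e => ∑ g ∈ D.divisors, ((wid D g : ℂ) / D) * θ g n * sG D χ g n e)
      (∑ g ∈ D.divisors, ((wid D g : ℂ) / D) * θ g n * deriv (sG D χ g n) e) e :=
    HasDerivAt.fun_sum fun g _ => (diff_sG g n e).hasDerivAt.const_mul _
  exact h

theorem norm_wid (hD : 1 ≤ D) (g : ℕ) : ‖(wid D g : ℂ) / D‖ ≤ 1 := by
  have hD0 : (0 : ℝ) < D := by exact_mod_cast hD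
  rw [norm_div, Complex.norm_natCast, Complex.norm_natCast, div_le_one hD0]
  exact_mod_cast Nat.div_le_self _ _

/-- The bounds for the finitely many terms. -/
noncomputable def bX (D : ℕ) (χ : DirichletCharacter ℂ D) (h : ℝ) (n : ℕ) : ℝ :=
  if n < D then 2 * Real.pi * (h + D) * ∑ g ∈ D.divisors, ‖deriv (sG D χ g n) 0‖ else 0

theorem bX_nonneg (h : ℝ) (hh : 0 ≤ h) (n : ℕ) : 0 ≤ bX D χ h n := by
  unfold bX
  split_ifs
  · have := Real.pi_pos
    positivity
  · exact le_rfl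

theorem bX_summable (h : ℝ) : Summable fun n => bX D χ h n := by
  refine summable_of_ne_finset_zero (s := Finset.range D) fun n hn => ?_
  unfold bX
  rw [if_neg]
  exact fun h => hn (Finset.mem_range.2 h)

theorem bf_summable (hD : 1 ≤ D) : Summable fun n => SuBm.bf D n :=
  (summable_nat_add_iff 1).1 (SuBm.bf_summable D hD)

end

/-- The terms below `D`. -/
theorem small (D k r n : ℕ) (hD : 1 ≤ D) (χ : DirichletCharacter ℂ D) (θ : ℕ → ℕ → ℂ)
    (h J : ℝ) (hθ : ∀ g ∈ D.divisors, ‖θ g n‖ * |J| ≤ h + D) :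
    (D : ℝ) ^ (k + 1 + r) *
      (‖∑ g ∈ D.divisors, ((wid D g : ℂ) / D) * θ g n * deriv (sG D χ g n) 0‖ *
        (2 * Real.pi * ((k + r).factorial : ℝ) * ((4 * Real.pi * D) ^ (k + r + 1))⁻¹ * |J|)) ≤
      ((k + r).factorial : ℝ) * ((4 * Real.pi) ^ (k + r + 1))⁻¹ *
        (2 * Real.pi * (h + D) * ∑ g ∈ D.divisors, ‖deriv (sG D χ g n) 0‖) := by
  have hD0 : (0 : ℝ) < D := by exact_mod_cast hD
  have hpi := Real.pi_pos
  have h1 : ‖∑ g ∈ D.divisors, ((wid D g : ℂ) / D) * θ g n * deriv (sG D χ g n) 0‖ * |J| ≤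
      (h + D) * ∑ g ∈ D.divisors, ‖deriv (sG D χ g n) 0‖ := by
    calc ‖∑ g ∈ D.divisors, ((wid D g : ℂ) / D) * θ g n * deriv (sG D χ g n) 0‖ * |J|
        ≤ (∑ g ∈ D.divisors, ‖θ g n‖ * ‖deriv (sG D χ g n) 0‖) * |J| := by
          refine mul_le_mul_of_nonneg_right ?_ (abs_nonneg _)
          refine norm_sum_le_of_le _ fun g _ => ?_
          rw [norm_mul, norm_mul]
          refine mul_le_mul_of_nonneg_right ?_ (norm_nonneg _)
          calc _ ≤ 1 * ‖θ g n‖ := mul_le_mul_of_nonneg_right (norm_wid hD g) (norm_nonneg _)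
            _ = _ := one_mul _
      _ = ∑ g ∈ D.divisors, (‖θ g n‖ * |J|) * ‖deriv (sG D χ g n) 0‖ := by
          rw [Finset.sum_mul]
          exact Finset.sum_congr rfl fun g _ => by ring
      _ ≤ ∑ g ∈ D.divisors, (h + D) * ‖deriv (sG D χ g n) 0‖ := by
          refine Finset.sum_le_sum fun g hg => ?_
          exact mul_le_mul_of_nonneg_right (hθ g hg) (norm_nonneg _)
      _ = _ := by rw [Finset.mul_sum]
  have e1 : (D : ℝ) ^ (k + 1 + r) * ((4 * Real.pi * D) ^ (k + r + 1))⁻¹ =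
      ((4 * Real.pi) ^ (k + r + 1))⁻¹ := by
    rw [mul_pow (4 * Real.pi), show k + 1 + r = k + r + 1 by ring]
    field_simp
  calc _ = ((k + r).factorial : ℝ) * ((D : ℝ) ^ (k + 1 + r) *
        ((4 * Real.pi * D) ^ (k + r + 1))⁻¹) * (2 * Real.pi *
        (‖∑ g ∈ D.divisors, ((wid D g : ℂ) / D) * θ g n * deriv (sG D χ g n) 0‖ * |J|)) := by
        ring
    _ = ((k + r).factorial : ℝ) * ((4 * Real.pi) ^ (k + r + 1))⁻¹ * (2 * Real.pi *
        (‖∑ g ∈ D.divisors, ((wid D g : ℂ) / D) * θ g n * deriv (sG D χ g n) 0‖ * |J|)) := by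
        rw [e1]
    _ ≤ ((k + r).factorial : ℝ) * ((4 * Real.pi) ^ (k + r + 1))⁻¹ * (2 * Real.pi *
        ((h + D) * ∑ g ∈ D.divisors, ‖deriv (sG D χ g n) 0‖)) := by
        gcongr
    _ = _ := by ring

/-- The coefficient of a term above `D`. -/
theorem norm_Om (D k n : ℕ) (hD : 1 ≤ D) (χ : DirichletCharacter ℂ D) (θ : ℕ → ℕ → ℂ)
    (hn : D < n) (hθ : ∀ g ∈ D.divisors, ‖θ g n‖ ≤
      (n.divisors.card : ℝ) * ((n : ℝ) / D) ^ ((k : ℝ) / 2)) :
    ‖OmX D χ θ n 0‖ ≤ (D.divisors.card : ℝ) *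
      ((n.divisors.card : ℝ) * ((n : ℝ) / D) ^ ((k : ℝ) / 2) * ((n : ℝ) * D)) := by
  unfold OmX
  have h1 : ∀ g ∈ D.divisors, ‖((wid D g : ℂ) / D) * θ g n * sG D χ g n 0‖ ≤
      (n.divisors.card : ℝ) * ((n : ℝ) / D) ^ ((k : ℝ) / 2) * ((n : ℝ) * D) := by
    intro g hg
    rw [norm_mul, norm_mul]
    refine mul_le_mul ?_ (norm_sG0 g n hn) (norm_nonneg _) (by positivity)
    calc _ ≤ 1 * ‖θ g n‖ := mul_le_mul_of_nonneg_right (norm_wid hD g) (norm_nonneg _)
      _ = ‖θ g n‖ := one_mul _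
      _ ≤ _ := hθ g hg
  refine (norm_sum_le_of_le _ h1).trans ?_
  rw [Finset.sum_const, nsmul_eq_mul]

/-- The terms above `D`. -/
theorem big (D k r n : ℕ) (hD : 1 ≤ D) (hn : D < n) (hr : 5 ≤ r) (O K : ℝ) (hK : 0 ≤ K)
    (hO : O ≤ (D.divisors.card : ℝ) *
      ((n.divisors.card : ℝ) * ((n : ℝ) / D) ^ ((k : ℝ) / 2) * ((n : ℝ) * D)))
    (hKb : K ≤ ((k + r).factorial : ℝ) * ((2 * Real.pi) ^ (k + r + 1))⁻¹ *
        (((n : ℝ) + D) ^ (k + r))⁻¹ * (10 * (1 + Real.log ((n : ℝ) + D)))) :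
    (D : ℝ) ^ (k + 1 + r) * (O * K) ≤
      ((k + r).factorial : ℝ) * ((4 * Real.pi) ^ (k + r + 1))⁻¹ *
        ((D.divisors.card : ℝ) * D * Real.sqrt D * SuBm.bf D n) := by
  have hD0 : (0 : ℝ) < D := by exact_mod_cast hD
  have hpi := Real.pi_pos
  have hcard : (n.divisors.card : ℝ) ≤ (n : ℝ) := by
    exact_mod_cast Nat.card_divisors_le_self n
  have key := SuBm.key_a D n k r hD hn hr (n.divisors.card : ℝ) (n : ℝ) (by positivity) hcard
    (by positivity) le_rfl
  set Q : ℝ := ((k + r).factorial : ℝ) * ((2 * Real.pi) ^ (k + r + 1))⁻¹ *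
        (((n : ℝ) + D) ^ (k + r))⁻¹ * (10 * (1 + Real.log ((n : ℝ) + D))) with hQ
  have hs0 : 0 < Real.sqrt D := Real.sqrt_pos.2 hD0
  have e1 : ((n : ℝ) / D) ^ ((k : ℝ) / 2) = (n : ℝ) ^ ((k : ℝ) / 2) * ((Real.sqrt D) ^ k)⁻¹ := by
    rw [Real.div_rpow (Nat.cast_nonneg n) hD0.le, Real.rpow_div_two_eq_sqrt (k : ℝ) hD0.le,
      Real.rpow_natCast, div_eq_mul_inv]
  calc (D : ℝ) ^ (k + 1 + r) * (O * K) ≤ (D : ℝ) ^ (k + 1 + r) * (((D.divisors.card : ℝ) *
      ((n.divisors.card : ℝ) * ((n : ℝ) / D) ^ ((k : ℝ) / 2) * ((n : ℝ) * D))) * Q) := by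
        refine mul_le_mul_of_nonneg_left ?_ (by positivity)
        exact mul_le_mul hO hKb hK (by positivity)
    _ = (D.divisors.card : ℝ) * D * Real.sqrt D * ((Real.sqrt D)⁻¹ * ((Real.sqrt D) ^ k)⁻¹ *
        (D : ℝ) ^ (k + 1 + r) * ((n.divisors.card : ℝ) * (n : ℝ) ^ ((k : ℝ) / 2) * n * Q)) := by
        rw [e1]
        field_simp
    _ ≤ (D.divisors.card : ℝ) * D * Real.sqrt D * (((k + r).factorial : ℝ) *
        ((4 * Real.pi) ^ (k + r + 1))⁻¹ *
          (20 * Real.sqrt D * (2 * (D : ℝ)) ^ 5 * (((n : ℝ) + D) ^ 2)⁻¹)) := by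
        refine mul_le_mul_of_nonneg_left key (by positivity)
    _ = _ := by
        unfold SuBm.bf
        ring

end SuBXm

open SuBXm

/-- (X14) -/
theorem stSuBX (h1 : StSuX) (h2 : StVanX) (h3 : StKpV) (h4 : StKpB) (h5 : StJac)
    (h6 : StKpA) (_h7 : StGsX) : StSuBX := by
  intro D _ F _ _ s σ χ cj hd
  set h : ℝ := (Nat.card (ClassGroup (𝓞 F)) : ℝ) with hh
  have hh0 : 0 ≤ h := Nat.cast_nonneg _
  have hD1 : 1 ≤ D := Nat.one_le_iff_ne_zero.2 (NeZero.ne D)
  have hD0 : (0 : ℝ) < D := by exact_mod_cast hD1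
  have hDc : (D : ℂ) ≠ 0 := by exact_mod_cast NeZero.ne D
  have hpi := Real.pi_pos
  refine ⟨∑' n : ℕ, ((D.divisors.card : ℝ) * D * Real.sqrt D * SuBm.bf D n + bX D χ h n), ?_⟩
  intro k r ψ c θ hψ hθ hc hr
  have hr5 : (5 : ℝ) ≤ r := by exact_mod_cast hr
  obtain ⟨hdS, hdu, hsm⟩ := h1 D inferInstance F inferInstance inferInstance s σ χ cj k r ψ c θ hd
    hψ hθ
  have hvan := h2 D inferInstance F inferInstance inferInstance s σ χ cj k ψ c θ hd hψ hθ hc
  set t0 : ℂ := -(r : ℂ) with ht0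
  have ht0re : t0.re = -(r : ℝ) := by simp [ht0]
  obtain ⟨-, hA⟩ := hsm t0 (by rw [ht0re]; linarith) (by rw [ht0re]; linarith)
  have ht0r : t0 + r = 0 := by
    rw [ht0]
    ring
  have hopen : {t : ℂ | -(r : ℝ) - 1 / 4 < t.re ∧ t.re < -1} ∈ nhds t0 := by
    have ho : IsOpen {t : ℂ | -(r : ℝ) - 1 / 4 < t.re ∧ t.re < -1} :=
      (isOpen_lt continuous_const Complex.continuous_re).and
        (isOpen_lt Complex.continuous_re continuous_const)
    refine ho.mem_nhds ⟨?_, ?_⟩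
    · rw [ht0re]
      linarith
    · rw [ht0re]
      linarith
  -- the factor
  have hfac : ∀ t : ℂ, HasDerivAt (fun t : ℂ => (D : ℂ) ^ ((k : ℂ) + 1 - t))
      ((D : ℂ) ^ ((k : ℂ) + 1 - t) * Complex.log D * (-1)) t := fun t => by
    refine HasDerivAt.const_cpow ?_ (Or.inl hDc)
    exact (hasDerivAt_id t).const_sub _
  have hfac0 : (D : ℂ) ^ ((k : ℂ) + 1 - t0) = (D : ℂ) ^ (k + 1 + r) := by
    have e : (k : ℂ) + 1 - t0 = ((k + 1 + r : ℕ) : ℂ) := by
      rw [ht0]
      push_cast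
      ring
    rw [e, Complex.cpow_natCast]
  have hne : ∀ t : ℂ, (D : ℂ) ^ ((k : ℂ) + 1 - t) ≠ 0 := fun t => by
    rw [Complex.cpow_def_of_ne_zero hDc]
    exact Complex.exp_ne_zero _
  have hTd : DifferentiableAt ℂ (fun t => ∑' n, uX D χ k r θ t n) t0 := by
    have e : (fun t => ∑' n, uX D χ k r θ t n) = fun t =>
        ((D : ℂ) ^ ((k : ℂ) + 1 - t))⁻¹ * SX D χ k r θ t := by
      funext t
      unfold SX
      rw [inv_mul_cancel_left₀ (hne t)]
    rw [e]
    exact ((hfac t0).differentiableAt.inv (hne t0)).mul (hdS.differentiableAt hopen)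
  have hvals : ∀ n, uX D χ k r θ t0 n = 0 := by
    intro n
    by_cases hn : n = D
    · simp only [uX, if_pos hn]
    · simp only [uX, if_neg hn]
      rcases lt_or_gt_of_ne hn with h8 | h8
      · rw [ht0r, hvan n h8, zero_mul]
      · rw [ht0, (h3 k r n D hD1).2 h8, mul_zero]
  have hder : deriv (SX D χ k r θ) t0 =
      (D : ℂ) ^ (k + 1 + r) * deriv (fun t => ∑' n, uX D χ k r θ t n) t0 := by
    have e1 := ((hfac t0).mul hTd.hasDerivAt).deriv
    have e2 : ∑' n, uX D χ k r θ t0 n = 0 := by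
      rw [tsum_congr hvals, tsum_zero]
    have e3 : deriv (SX D χ k r θ) t0 = _ := e1
    rw [e3, e2, mul_zero, zero_add, hfac0]
  set N : ℝ := ((k + r).factorial : ℝ) * ((4 * Real.pi) ^ (k + r + 1))⁻¹ with hN
  have hN0 : 0 ≤ N := by positivity
  have hDpow : ‖(D : ℂ) ^ (k + 1 + r)‖ = (D : ℝ) ^ (k + 1 + r) := by
    rw [norm_pow, Complex.norm_natCast]
  have hterm : ∀ n : ℕ, ‖(D : ℂ) ^ (k + 1 + r) * deriv (fun t => uX D χ k r θ t n) t0‖ ≤
      N * ((D.divisors.card : ℝ) * D * Real.sqrt D * SuBm.bf D n + bX D χ h n) := by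
    intro n
    have hb1 := SuBm.bf_nonneg D n
    have hb2 : 0 ≤ bX D χ h n := bX_nonneg h hh0 n
    by_cases hn : n = D
    · have e1 : (fun t => uX D χ k r θ t n) = fun _ => (0 : ℂ) := by
        funext t
        simp only [uX, if_pos hn]
      rw [e1, deriv_const, mul_zero, norm_zero]
      positivity
    · have e1 : (fun t => uX D χ k r θ t n) = fun t => 1 *
          OmX D χ θ n (t + r) * Kp k r n D t := by
        funext t
        simp only [uX, if_neg hn, one_mul]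
      have hO := hasDeriv_Om (D := D) (χ := χ) θ n 0
      have e2 := (SuBm.hasDeriv_term 1 (OmX D χ θ n) (Kp k r n D) r
        hO.differentiableAt (SuBm.diff_Kp h6 k r n D hD1 hn)).deriv
      rw [e1, ht0, e2, ← ht0, one_mul, hO.deriv, norm_mul, hDpow]
      rcases lt_or_gt_of_ne hn with h8 | h8
      · -- `n < D`
        rw [hvan n h8, zero_mul, add_zero, norm_mul]
        have e4 : ‖Kp k r n D t0‖ = 2 * Real.pi * ((k + r).factorial : ℝ) *
            ((4 * Real.pi * D) ^ (k + r + 1))⁻¹ * |Jac k r ((n : ℝ) / D)| := by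
          rw [ht0, (h3 k r n D hD1).1 h8]
          simp only [norm_mul, norm_neg, norm_inv, norm_pow, Complex.norm_I,
            Complex.norm_natCast, Complex.norm_real, Real.norm_eq_abs, Complex.norm_ofNat,
            abs_of_pos hpi]
          ring
        have hθJ : ∀ g ∈ D.divisors, ‖θ g n‖ * |Jac k r ((n : ℝ) / D)| ≤ h + D := by
          intro g hg
          rcases Nat.eq_zero_or_pos n with h9 | h9
          · subst h9
            have h10 := hθ.zero g hg
            rcases Nat.eq_zero_or_pos k with hk | hk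
            · subst hk
              rw [if_pos rfl] at h10
              have hJ := h5 0 r 0 le_rfl zero_le_one
              have hJ' : |Jac 0 r (((0 : ℕ) : ℝ) / D)| ≤ 1 := by simpa using hJ
              calc _ ≤ h * 1 := mul_le_mul h10 hJ' (abs_nonneg _) hh0
                _ ≤ h + D := by linarith
            · rw [if_neg (by omega)] at h10
              have h11 : ‖θ g 0‖ = 0 := le_antisymm h10 (norm_nonneg _)
              rw [h11, zero_mul]
              positivity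
          · have h10 := hθ.bd g hg n h9
            have hJ : ((n : ℝ) / D) ^ ((k : ℝ) / 2) * |Jac k r ((n : ℝ) / D)| ≤ 1 := by
              refine h5 k r _ (by positivity) ?_
              rw [div_le_one hD0]
              exact_mod_cast h8.le
            have hcard : (n.divisors.card : ℝ) ≤ D := by
              exact_mod_cast (Nat.card_divisors_le_self n).trans h8.le
            calc _ ≤ (n.divisors.card : ℝ) * ((n : ℝ) / D) ^ ((k : ℝ) / 2) *
                  |Jac k r ((n : ℝ) / D)| :=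
                  mul_le_mul_of_nonneg_right h10 (abs_nonneg _)
              _ = (n.divisors.card : ℝ) * (((n : ℝ) / D) ^ ((k : ℝ) / 2) *
                  |Jac k r ((n : ℝ) / D)|) := by ring
              _ ≤ (D : ℝ) * 1 := mul_le_mul hcard hJ (by positivity) (by positivity)
              _ ≤ h + D := by linarith
        have key := small D k r n hD1 χ θ h (Jac k r ((n : ℝ) / D)) hθJ
        rw [e4]
        refine key.trans ?_
        rw [← hN]
        refine mul_le_mul_of_nonneg_left ?_ hN0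
        unfold bX
        rw [if_pos h8]
        have : 0 ≤ (D.divisors.card : ℝ) * D * Real.sqrt D * SuBm.bf D n := by positivity
        linarith
      · -- `D < n`
        have e3 : Kp k r n D t0 = 0 := by
          rw [ht0]
          exact (h3 k r n D hD1).2 h8
        rw [e3, mul_zero, zero_add, norm_mul]
        have hK := h4 k r n D (by omega) hD1 h8
        rw [← ht0] at hK
        have key := big D k r n hD1 h8 hr ‖OmX D χ θ n 0‖ ‖deriv (Kp k r n D) t0‖
          (norm_nonneg _) (norm_Om D k n hD1 χ θ h8 fun g hg => hθ.bd g hg n (by omega)) hK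
        refine key.trans ?_
        rw [← hN]
        refine mul_le_mul_of_nonneg_left ?_ hN0
        linarith
  have hsum := (hA.mul_left ((D : ℂ) ^ (k + 1 + r))).norm_le_of_bounded
    (((((bf_summable hD1).mul_left ((D.divisors.card : ℝ) * D * Real.sqrt D)).add
      (bX_summable (D := D) (χ := χ) h)).hasSum).mul_left N) hterm
  rw [hder]
  refine hsum.trans (le_of_eq ?_)
  rw [hN]
  ring

end RZ

end Pool.Agent.Lib.MP_7c08ba_nt
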