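import Mathlib
import Pool.Agent.Lib.MP_7c08ba_nt.RZ.StX
import Pool.Agent.Lib.MP_7c08ba_nt.RZ.ThK

set_option autoImplicit false

/-!
(X1) the theta series of the Hecke character at all cusps `1 / g`, with bounds for the
coefficients, for every imaginary quadratic field of discriminant `-D`, `D > 4`.
-/

namespace Pool.Agent.Lib.MP_7c08ba_nt

namespace RZ

open NumberField MeasureTheory UpperHalfPlane Set IsDedekindDomain
open scoped MatrixGroups ComplexConjugate nonZeroDivisors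

namespace ThXAux

open ThKAux

/-- Grouping the terms of a sum. -/
lemma fib {α : Type*} (q : α → ℕ) (f : α → ℂ) (hf : Summable fun x => ‖f x‖) :
    HasSum (fun n : ℕ => ∑' x, (if q x = n then f x else 0)) (∑' x, f x) := by
  classical
  have e1 : ∀ n : ℕ, ∑' x : (q ⁻¹' {n} : Set α), f x = ∑' x, (if q x = n then f x else 0) := by
    intro n
    rw [tsum_subtype (q ⁻¹' {n}) f]
    refine tsum_congr fun x => ?_
    rw [Set.indicator_apply]
    simp only [Set.mem_preimage, Set.mem_singleton_iff]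
  have h1 := hf.of_norm.hasSum.tsum_fiberwise q
  rwa [funext e1] at h1

section

variable {F : Type} [Field F] [NumberField F]

/-- The facts about the field and the character which are used. -/
structure Ctx (D k : ℕ) {σ : F →+* ℂ} (χ : DirichletCharacter ℂ D) (ψ : Ideal (𝓞 F) →*₀ ℂ)
    (c : Reps σ) : Prop where
  big : 4 < D
  even : Even k
  sq : ∀ x : 𝓞 F, Complex.normSq (σ x) = (Ideal.absNorm (Ideal.span {x}) : ℝ)
  int : ∀ a : Ideal (𝓞 F), a ≠ ⊥ → ∀ x ∈ a, ∃ n : ℕ, Qa σ a x = n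
  sum : ∀ a : Ideal (𝓞 F), a ≠ ⊥ → ∀ t : ℝ, 0 < t → Summable fun x : a =>
    (1 + ‖σ (x : 𝓞 F)‖) ^ k * Real.exp (-(t * Qa σ a x))
  ids : ∀ (g : Ideal (𝓞 F) → ℂ) (T : ClassGroup (𝓞 F) → 𝓞 F → ℂ), (∀ A, T A 0 = 0) →
    (∀ (A : ClassGroup (𝓞 F)) (x : 𝓞 F) (b : Ideal (𝓞 F)), x ≠ 0 →
      b * (c.R A : Ideal (𝓞 F)) = Ideal.span {x} → T A x = g b) →
    (∀ A, Summable fun x : (c.R A : Ideal (𝓞 F)) => ‖T A x‖) →
    (Summable fun b : (Ideal (𝓞 F))⁰ => ‖g b‖) ∧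
    ∑ A : ClassGroup (𝓞 F), ∑' x : (c.R A : Ideal (𝓞 F)), T A x =
      2 * ∑' b : (Ideal (𝓞 F))⁰, g b
  psi : ∀ b : Ideal (𝓞 F), b ≠ ⊥ → ‖ψ b‖ ^ 2 = (Ideal.absNorm b : ℝ) ^ k
  hecke : IsHecke σ k ψ
  cnt : ∀ n : ℕ, 1 ≤ n →
    Nat.card {b : Ideal (𝓞 F) // Ideal.absNorm b = n} ≤ n.divisors.card
  bD : ∀ m : ℕ, 1 ≤ m → bψ ψ (m * D) = (Complex.I * Real.sqrt D) ^ k * bψ ψ m
  per : ∀ a : Ideal (𝓞 F), a ≠ ⊥ → ∀ u : ℂ, th σ a k (u + 1) = th σ a k u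
  inv : ∀ a : Ideal (𝓞 F), a ≠ ⊥ → ∀ u : ℂ, 0 < u.im →
    th σ a k (-1 / u) = (-Complex.I / Real.sqrt D) * u ^ (k + 1) * thS D σ a k u
  law : ∀ a : Ideal (𝓞 F), a ≠ ⊥ → Wq D χ (k + 1) (th σ a k)
  cusp : ∀ g : ℕ, g ∣ D → ∃ C : ClassGroup (𝓞 F) → 𝓞 F → ℂ, (∀ A x, ‖C A x‖ ≤ 1) ∧
    ∀ (A : ClassGroup (𝓞 F)) (u : ℂ), 0 < u.im →
      th σ (c.R A : Ideal (𝓞 F)) k (u / (1 - g * u)) = (1 - g * u) ^ (k + 1) *
        ∑' x : (c.R A : Ideal (𝓞 F)), C A x * (σ (x : 𝓞 F) / (Complex.I * Real.sqrt D)) ^ k *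
          ee (Qa σ (c.R A : Ideal (𝓞 F)) x / D * u)

open Classical in
/-- The coefficients. -/
noncomputable def cf {σ : F →+* ℂ} (k : ℕ) (ψ : Ideal (𝓞 F) →*₀ ℂ) (c : Reps σ)
    (C : ClassGroup (𝓞 F) → 𝓞 F → ℂ) (n : ℕ) : ℂ :=
  1 / 2 * ∑ A : ClassGroup (𝓞 F), (ψ (c.R A : Ideal (𝓞 F)))⁻¹ *
    ∑' x : (c.R A : Ideal (𝓞 F)), if Qa σ (c.R A : Ideal (𝓞 F)) x = n then
      C A x * σ (x : 𝓞 F) ^ k else 0

lemma R_ne {σ : F →+* ℂ} (c : Reps σ) (A : ClassGroup (𝓞 F)) : (c.R A : Ideal (𝓞 F)) ≠ ⊥ :=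
  nonZeroDivisors.coe_ne_zero (c.R A)

lemma nrm_ne {b : Ideal (𝓞 F)} (hb : b ≠ ⊥) : (Ideal.absNorm b : ℝ) ≠ 0 := by
  rw [Nat.cast_ne_zero, Ne, Ideal.absNorm_eq_zero_iff]
  exact hb

variable {D k : ℕ} {σ : F →+* ℂ} {χ : DirichletCharacter ℂ D} {ψ : Ideal (𝓞 F) →*₀ ℂ}
  {c : Reps σ}

lemma Ctx.psi_ne (h : Ctx D k χ ψ c) {b : Ideal (𝓞 F)} (hb : b ≠ ⊥) : ψ b ≠ 0 := by
  intro h0
  have := h.psi b hb
  rw [h0, norm_zero, zero_pow two_ne_zero] at this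
  exact (pow_ne_zero k (nrm_ne hb)) this.symm

/-- The relation between an ideal and an element of a representative. -/
lemma Ctx.rel (h : Ctx D k χ ψ c) (A : ClassGroup (𝓞 F)) (x : 𝓞 F) (b : Ideal (𝓞 F))
    (hx : x ≠ 0) (hb : b * (c.R A : Ideal (𝓞 F)) = Ideal.span {x}) :
    Qa σ (c.R A : Ideal (𝓞 F)) x = (Ideal.absNorm b : ℝ) ∧
    (ψ (c.R A : Ideal (𝓞 F)))⁻¹ * σ x ^ k = ψ b := by
  have e1 := congrArg ψ hb
  rw [map_mul, h.hecke x hx] at e1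
  have e2 := congrArg (fun I : Ideal (𝓞 F) => (Ideal.absNorm I : ℝ)) hb
  simp only [map_mul, Nat.cast_mul] at e2
  rw [← h.sq x] at e2
  refine ⟨?_, ?_⟩
  · unfold Qa
    rw [← e2, mul_div_assoc, div_self (nrm_ne (R_ne c A)), mul_one]
  · rw [← e1]
    have := h.psi_ne (R_ne c A)
    field_simp

/-- Sums over the ideals of norm `n`. -/
lemma sum_norm (G : Ideal (𝓞 F) → ℂ) (n : ℕ) (hn : 1 ≤ n) :
    ∑' b : (Ideal (𝓞 F))⁰, (if Ideal.absNorm (b : Ideal (𝓞 F)) = n then G b else 0) =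
      ∑' b : {b : Ideal (𝓞 F) // Ideal.absNorm b = n}, G b := by
  classical
  have e1 : ∑' b : (Ideal (𝓞 F))⁰, (if Ideal.absNorm (b : Ideal (𝓞 F)) = n then G b else 0) =
      ∑' b : Ideal (𝓞 F), (if Ideal.absNorm b = n then G b else 0) := by
    refine (Subtype.val_injective (p := fun b => b ∈ (Ideal (𝓞 F))⁰)).tsum_eq
      (f := fun b : Ideal (𝓞 F) => if Ideal.absNorm b = n then G b else 0) ?_
    intro b hb
    have hb' : Ideal.absNorm b = n := by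
      by_contra h
      exact hb (if_neg h)
    have h0 : b ≠ 0 := by
      rintro rfl
      rw [Ideal.zero_eq_bot, Ideal.absNorm_bot] at hb'
      omega
    exact ⟨⟨b, mem_nonZeroDivisors_of_ne_zero h0⟩, rfl⟩
  have e2 : ∑' b : {b : Ideal (𝓞 F) // Ideal.absNorm b = n}, G b =
      ∑' b : Ideal (𝓞 F), (if Ideal.absNorm b = n then G b else 0) := by
    have := tsum_subtype {b : Ideal (𝓞 F) | Ideal.absNorm b = n} G
    refine this.trans (tsum_congr fun b => ?_)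
    rw [Set.indicator_apply]
    simp only [Set.mem_ofPred_eq]
  rw [e1, e2]

/-- Only finitely many elements have norm `n`. -/
lemma Ctx.fin (h : Ctx D k χ ψ c) (A : ClassGroup (𝓞 F)) (n : ℕ) :
    {x : (c.R A : Ideal (𝓞 F)) | Qa σ (c.R A : Ideal (𝓞 F)) x = n}.Finite := by
  have h1 := (h.sum _ (R_ne c A) 1 one_pos).tendsto_cofinite_zero.eventually
    (gt_mem_nhds (Real.exp_pos (-(1 * (n : ℝ)))))
  rw [Filter.eventually_cofinite] at h1
  refine h1.subset fun x hx => ?_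
  rw [Set.mem_ofPred_eq] at hx ⊢
  rw [hx, not_lt]
  refine le_mul_of_one_le_left (Real.exp_pos _).le ?_
  exact one_le_pow₀ (by linarith [norm_nonneg (σ (x : 𝓞 F))])

open Classical in
lemma Ctx.summ (h : Ctx D k χ ψ c) (A : ClassGroup (𝓞 F)) (n : ℕ) (f : 𝓞 F → ℂ) :
    Summable fun x : (c.R A : Ideal (𝓞 F)) =>
      ‖(if Qa σ (c.R A : Ideal (𝓞 F)) x = n then f x else 0)‖ := by
  refine summable_of_hasFiniteSupport ((h.fin A n).subset ?_)
  intro x hx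
  by_contra h0
  have h0' : ¬ Qa σ (c.R A : Ideal (𝓞 F)) x = n := h0
  refine hx ?_
  show ‖(if Qa σ (c.R A : Ideal (𝓞 F)) x = n then f x else 0)‖ = 0
  rw [if_neg h0', norm_zero]

/-- The sums over the elements of norm `n` of the representatives. -/
lemma Ctx.ids_n (h : Ctx D k χ ψ c) (n : ℕ) (hn : 1 ≤ n) (G : Ideal (𝓞 F) → ℂ)
    (f : ClassGroup (𝓞 F) → 𝓞 F → ℂ)
    (hf : ∀ (A : ClassGroup (𝓞 F)) (x : 𝓞 F) (b : Ideal (𝓞 F)), x ≠ 0 →
      b * (c.R A : Ideal (𝓞 F)) = Ideal.span {x} → f A x = G b) :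
    open Classical in
    ∑ A : ClassGroup (𝓞 F), ∑' x : (c.R A : Ideal (𝓞 F)),
      (if Qa σ (c.R A : Ideal (𝓞 F)) x = n then f A x else 0) =
      2 * ∑' b : {b : Ideal (𝓞 F) // Ideal.absNorm b = n}, G b := by
  classical
  rw [← sum_norm G n hn]
  refine (h.ids (fun b => if Ideal.absNorm b = n then G b else 0)
    (fun A x => if Qa σ (c.R A : Ideal (𝓞 F)) x = n then f A x else 0) ?_ ?_ ?_).2
  · intro A
    rw [Qa_zero, if_neg]
    intro h0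
    have : n = 0 := by exact_mod_cast h0.symm
    omega
  · intro A x b hx hb
    rw [(h.rel A x b hx hb).1, hf A x b hx hb]
    by_cases hbn : Ideal.absNorm b = n
    · rw [if_pos hbn, if_pos (by rw [hbn])]
    · rw [if_neg hbn, if_neg (by exact_mod_cast hbn)]
  · intro A
    exact h.summ A n (f A)

/-- The value of a coefficient. -/
lemma Ctx.cf_const (h : Ctx D k χ ψ c) (C : ClassGroup (𝓞 F) → 𝓞 F → ℂ) (n : ℕ) (hn : 1 ≤ n)
    (C0 : ℂ) (hC : ∀ A x, Qa σ (c.R A : Ideal (𝓞 F)) x = n → C A x = C0) :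
    cf k ψ c C n = C0 * bψ ψ n := by
  classical
  have h1 := h.ids_n n hn (fun b => ψ b) (fun A x => (ψ (c.R A : Ideal (𝓞 F)))⁻¹ * σ x ^ k)
    (fun A x b hx hb => (h.rel A x b hx hb).2)
  unfold cf bψ
  have h2 : ∀ A : ClassGroup (𝓞 F), (ψ (c.R A : Ideal (𝓞 F)))⁻¹ *
      ∑' x : (c.R A : Ideal (𝓞 F)), (if Qa σ (c.R A : Ideal (𝓞 F)) x = n then
        C A x * σ (x : 𝓞 F) ^ k else 0) =
      C0 * ∑' x : (c.R A : Ideal (𝓞 F)), (if Qa σ (c.R A : Ideal (𝓞 F)) x = n then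
        (ψ (c.R A : Ideal (𝓞 F)))⁻¹ * σ (x : 𝓞 F) ^ k else 0) := by
    intro A
    rw [← tsum_mul_left, ← tsum_mul_left]
    refine tsum_congr fun x => ?_
    by_cases hx : Qa σ (c.R A : Ideal (𝓞 F)) x = n
    · rw [if_pos hx, if_pos hx, hC A x hx]
      ring
    · rw [if_neg hx, if_neg hx, mul_zero, mul_zero]
  rw [Finset.sum_congr rfl fun A _ => h2 A, ← Finset.mul_sum]
  rw [show (1 : ℂ) / 2 * (C0 * ∑ A : ClassGroup (𝓞 F), ∑' x : (c.R A : Ideal (𝓞 F)),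
      (if Qa σ (c.R A : Ideal (𝓞 F)) x = n then
        (ψ (c.R A : Ideal (𝓞 F)))⁻¹ * σ (x : 𝓞 F) ^ k else 0)) =
      C0 * (1 / 2 * ∑ A : ClassGroup (𝓞 F), ∑' x : (c.R A : Ideal (𝓞 F)),
      (if Qa σ (c.R A : Ideal (𝓞 F)) x = n then
        (ψ (c.R A : Ideal (𝓞 F)))⁻¹ * σ (x : 𝓞 F) ^ k else 0)) by ring]
  congr 1
  rw [h1]
  ring

/-- The size of an element of norm `n`. -/
lemma Ctx.size (h : Ctx D k χ ψ c) (A : ClassGroup (𝓞 F)) (x : 𝓞 F) (n : ℕ)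
    (hx : Qa σ (c.R A : Ideal (𝓞 F)) x = n) :
    ‖σ x‖ ^ k = (n : ℝ) ^ ((k : ℝ) / 2) * ‖ψ (c.R A : Ideal (𝓞 F))‖ := by
  have hn0 : (0 : ℝ) ≤ n := Nat.cast_nonneg n
  have e1 : Complex.normSq (σ x) = n * (Ideal.absNorm (c.R A : Ideal (𝓞 F)) : ℝ) := by
    rw [← hx]
    unfold Qa
    rw [div_mul_cancel₀ _ (nrm_ne (R_ne c A))]
  rw [Complex.normSq_eq_norm_sq] at e1
  have e2 : ((n : ℝ) ^ ((k : ℝ) / 2)) ^ 2 = (n : ℝ) ^ k := by
    rw [← Real.rpow_natCast, ← Real.rpow_mul hn0, ← Real.rpow_natCast]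
    congr 1
    push_cast
    ring
  refine (pow_left_inj₀ (pow_nonneg (norm_nonneg _) _)
    (mul_nonneg (Real.rpow_nonneg hn0 _) (norm_nonneg _)) two_ne_zero).mp ?_
  rw [mul_pow, e2, h.psi _ (R_ne c A), ← mul_pow, ← e1]
  ring

/-- The bound for the coefficients. -/
lemma Ctx.cf_bd (h : Ctx D k χ ψ c) (C : ClassGroup (𝓞 F) → 𝓞 F → ℂ) (K : ℝ) (hK : 0 ≤ K)
    (hC : ∀ A x, ‖C A x‖ ≤ K) (n : ℕ) (hn : 1 ≤ n) :
    ‖cf k ψ c C n‖ ≤ (n.divisors.card : ℝ) * (K * (n : ℝ) ^ ((k : ℝ) / 2)) := by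
  classical
  have hn0 : (0 : ℝ) ≤ (n : ℝ) ^ ((k : ℝ) / 2) := Real.rpow_nonneg (Nat.cast_nonneg n) _
  have h1 := h.ids_n n hn (fun _ => 1) (fun _ _ => 1) (fun A x b hx hb => rfl)
  rw [tsum_const, nsmul_eq_mul, mul_one] at h1
  set M : ClassGroup (𝓞 F) → ℝ := fun A => ∑' x : (c.R A : Ideal (𝓞 F)),
    (if Qa σ (c.R A : Ideal (𝓞 F)) x = n then 1 else 0) with hM
  have h2 : ∑ A, M A = 2 * (Nat.card {b : Ideal (𝓞 F) // Ideal.absNorm b = n} : ℝ) := by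
    have : ((∑ A, M A : ℝ) : ℂ) =
        ((2 * (Nat.card {b : Ideal (𝓞 F) // Ideal.absNorm b = n} : ℝ) : ℝ) : ℂ) := by
      push_cast
      rw [← h1]
      refine Finset.sum_congr rfl fun A _ => ?_
      rw [hM, Complex.ofReal_tsum]
      refine tsum_congr fun x => ?_
      split_ifs <;> simp
    exact_mod_cast this
  have h3 : ∀ A : ClassGroup (𝓞 F), ‖(ψ (c.R A : Ideal (𝓞 F)))⁻¹ *
      ∑' x : (c.R A : Ideal (𝓞 F)), (if Qa σ (c.R A : Ideal (𝓞 F)) x = n then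
        C A x * σ (x : 𝓞 F) ^ k else 0)‖ ≤ K * (n : ℝ) ^ ((k : ℝ) / 2) * M A := by
    intro A
    have hψ0 : 0 < ‖ψ (c.R A : Ideal (𝓞 F))‖ := norm_pos_iff.2 (h.psi_ne (R_ne c A))
    have hs := h.summ A n fun x => C A x * σ x ^ k
    have hs1 : Summable fun x : (c.R A : Ideal (𝓞 F)) =>
        (if Qa σ (c.R A : Ideal (𝓞 F)) x = n then (1 : ℝ) else 0) := by
      refine summable_of_hasFiniteSupport ((h.fin A n).subset ?_)
      intro x hx
      by_contra h0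
      exact hx (if_neg h0)
    have hb : ∑' x : (c.R A : Ideal (𝓞 F)), ‖(if Qa σ (c.R A : Ideal (𝓞 F)) x = n then
        C A x * σ (x : 𝓞 F) ^ k else 0)‖ ≤
        K * ((n : ℝ) ^ ((k : ℝ) / 2) * ‖ψ (c.R A : Ideal (𝓞 F))‖) * M A := by
      rw [hM, ← tsum_mul_left]
      refine hs.tsum_le_tsum (fun x => ?_) (hs1.mul_left _)
      by_cases hx : Qa σ (c.R A : Ideal (𝓞 F)) x = n
      · rw [if_pos hx, if_pos hx, mul_one, norm_mul, norm_pow, h.size A x n hx]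
        exact mul_le_mul_of_nonneg_right (hC A x) (mul_nonneg hn0 (norm_nonneg _))
      · rw [if_neg hx, if_neg hx, mul_zero, norm_zero]
    rw [norm_mul, norm_inv]
    have hb2 := (norm_tsum_le_tsum_norm hs).trans hb
    calc ‖ψ (c.R A : Ideal (𝓞 F))‖⁻¹ * _
        ≤ ‖ψ (c.R A : Ideal (𝓞 F))‖⁻¹ *
          (K * ((n : ℝ) ^ ((k : ℝ) / 2) * ‖ψ (c.R A : Ideal (𝓞 F))‖) * M A) :=
          mul_le_mul_of_nonneg_left hb2 (inv_nonneg.2 (norm_nonneg _))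
      _ = K * (n : ℝ) ^ ((k : ℝ) / 2) * M A := by
          field_simp
  unfold cf
  calc ‖(1 : ℂ) / 2 * ∑ A : ClassGroup (𝓞 F), (ψ (c.R A : Ideal (𝓞 F)))⁻¹ *
        ∑' x : (c.R A : Ideal (𝓞 F)), (if Qa σ (c.R A : Ideal (𝓞 F)) x = n then
        C A x * σ (x : 𝓞 F) ^ k else 0)‖
      ≤ 1 / 2 * ∑ A : ClassGroup (𝓞 F), K * (n : ℝ) ^ ((k : ℝ) / 2) * M A := by
        rw [norm_mul]
        refine mul_le_mul (by norm_num) ?_ (norm_nonneg _) (by norm_num)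
        exact (norm_sum_le _ _).trans (Finset.sum_le_sum fun A _ => h3 A)
    _ = (Nat.card {b : Ideal (𝓞 F) // Ideal.absNorm b = n} : ℝ) *
          (K * (n : ℝ) ^ ((k : ℝ) / 2)) := by
        rw [← Finset.mul_sum, h2]
        ring
    _ ≤ _ := by
        refine mul_le_mul_of_nonneg_right ?_ (mul_nonneg hK hn0)
        exact_mod_cast h.cnt n hn

/-- The constant term. -/
lemma Ctx.cf_zero (h : Ctx D k χ ψ c) (C : ClassGroup (𝓞 F) → 𝓞 F → ℂ) (K : ℝ)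
    (hC : ∀ A x, ‖C A x‖ ≤ K) :
    ‖cf k ψ c C 0‖ ≤ if k = 0 then K * (Nat.card (ClassGroup (𝓞 F)) : ℝ) else 0 := by
  classical
  have h1 : ∀ A : ClassGroup (𝓞 F), ∑' x : (c.R A : Ideal (𝓞 F)),
      (if Qa σ (c.R A : Ideal (𝓞 F)) x = ((0 : ℕ) : ℝ) then
        C A x * σ (x : 𝓞 F) ^ k else 0) = C A 0 * 0 ^ k := by
    intro A
    rw [tsum_eq_single (0 : (c.R A : Ideal (𝓞 F)))]
    · rw [if_pos]
      · simp
      · simp [Qa]
    · intro x hx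
      rw [if_neg]
      rw [Nat.cast_zero]
      exact Qa_ne_zero σ (R_ne c A) fun h' => hx (Subtype.ext h')
  unfold cf
  rw [Finset.sum_congr rfl fun A _ => by rw [h1 A]]
  split_ifs with hk
  · subst hk
    have e1 : ∀ A : ClassGroup (𝓞 F), ‖(ψ (c.R A : Ideal (𝓞 F)))⁻¹‖ = 1 := by
      intro A
      have := h.psi _ (R_ne c A)
      rw [pow_zero] at this
      rw [norm_inv, (pow_eq_one_iff_of_nonneg (norm_nonneg _) two_ne_zero).1 this, inv_one]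
    calc ‖(1 : ℂ) / 2 * ∑ A : ClassGroup (𝓞 F), (ψ (c.R A : Ideal (𝓞 F)))⁻¹ *
          (C A 0 * 0 ^ 0)‖
        ≤ 1 * ∑ A : ClassGroup (𝓞 F), K := by
          rw [norm_mul]
          refine mul_le_mul (by norm_num) ?_ (norm_nonneg _) zero_le_one
          refine (norm_sum_le _ _).trans (Finset.sum_le_sum fun A _ => ?_)
          rw [norm_mul, e1, one_mul, pow_zero, mul_one]
          exact hC A 0
      _ = K * Nat.card (ClassGroup (𝓞 F)) := by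
          rw [one_mul, Finset.sum_const, Finset.card_univ, nsmul_eq_mul,
            Nat.card_eq_fintype_card, mul_comm]
  · rw [zero_pow hk]
    simp

/-- The expansion. -/
lemma Ctx.cf_exp (h : Ctx D k χ ψ c) (C : ClassGroup (𝓞 F) → 𝓞 F → ℂ) (K : ℝ)
    (hC : ∀ A x, ‖C A x‖ ≤ K) (u : ℂ) (hu : 0 < u.im) :
    HasSum (fun n : ℕ => cf k ψ c C n * ee (n * u))
      (1 / 2 * ∑ A : ClassGroup (𝓞 F), (ψ (c.R A : Ideal (𝓞 F)))⁻¹ *
        ∑' x : (c.R A : Ideal (𝓞 F)), C A x * σ (x : 𝓞 F) ^ k *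
          ee (Qa σ (c.R A : Ideal (𝓞 F)) x * u)) := by
  classical
  have h1 : ∀ A : ClassGroup (𝓞 F), HasSum (fun n : ℕ => (∑' x : (c.R A : Ideal (𝓞 F)),
      if Qa σ (c.R A : Ideal (𝓞 F)) x = n then C A x * σ (x : 𝓞 F) ^ k else 0) * ee (n * u))
      (∑' x : (c.R A : Ideal (𝓞 F)), C A x * σ (x : 𝓞 F) ^ k *
          ee (Qa σ (c.R A : Ideal (𝓞 F)) x * u)) := by
    intro A
    have hint : ∀ x : (c.R A : Ideal (𝓞 F)), ∃ n : ℕ, Qa σ (c.R A : Ideal (𝓞 F)) x = n :=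
      fun x => h.int _ (R_ne c A) x x.2
    choose q hq using hint
    have hs : Summable fun x : (c.R A : Ideal (𝓞 F)) => ‖C A x * σ (x : 𝓞 F) ^ k *
        ee (Qa σ (c.R A : Ideal (𝓞 F)) x * u)‖ := by
      have h6 := (h.sum _ (R_ne c A) (2 * Real.pi * u.im) (by positivity)).mul_left K
      refine Summable.of_nonneg_of_le (fun x => norm_nonneg _) (fun x => ?_) h6
      rw [norm_mul, norm_mul, norm_pow, norm_ee, mul_assoc]
      have e1 : ((Qa σ (c.R A : Ideal (𝓞 F)) x : ℂ) * u).im =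
          Qa σ (c.R A : Ideal (𝓞 F)) x * u.im := Complex.im_ofReal_mul _ _
      rw [e1]
      have e2 : -(2 * Real.pi * (Qa σ (c.R A : Ideal (𝓞 F)) (x : 𝓞 F) * u.im)) =
          -(2 * Real.pi * u.im * Qa σ (c.R A : Ideal (𝓞 F)) (x : 𝓞 F)) := by ring
      rw [e2]
      refine mul_le_mul (hC A x) ?_ (by positivity) ((norm_nonneg _).trans (hC A x))
      refine mul_le_mul_of_nonneg_right ?_ (Real.exp_pos _).le
      exact pow_le_pow_left₀ (norm_nonneg _) (by linarith) k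
    have h2 := fib q _ hs
    refine (congrArg (fun f => HasSum f _) (funext fun n => ?_)).mpr h2
    rw [← tsum_mul_right]
    refine tsum_congr fun x => ?_
    by_cases hx : q x = n
    · have hx' : Qa σ (c.R A : Ideal (𝓞 F)) x = n := by rw [hq, hx]
      rw [if_pos hx, if_pos hx', hx', Complex.ofReal_natCast]
    · have hx' : ¬ Qa σ (c.R A : Ideal (𝓞 F)) x = n := by
        rw [hq]
        exact_mod_cast hx
      rw [if_neg hx, if_neg hx', zero_mul]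
  have h2 := (hasSum_sum fun A (_ : A ∈ (Finset.univ : Finset (ClassGroup (𝓞 F)))) =>
    (h1 A).mul_left ((ψ (c.R A : Ideal (𝓞 F)))⁻¹)).mul_left (1 / 2 : ℂ)
  refine (congrArg (fun f => HasSum f _) (funext fun n => ?_)).mpr h2
  unfold cf
  rw [mul_assoc, Finset.sum_mul]
  congr 1
  exact Finset.sum_congr rfl fun A _ => mul_assoc _ _ _

/-- The conditions on the coefficients at one cusp. -/
def Pg (D k : ℕ) {σ : F →+* ℂ} (ψ : Ideal (𝓞 F) →*₀ ℂ) (c : Reps σ) (g : ℕ)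
    (θ : ℕ → ℂ) : Prop :=
  (∀ u : ℂ, 0 < u.im → (Summable fun n : ℕ => ‖θ n * ee (n * u / D)‖) ∧
    thψ k ψ c (u / (1 - g * u)) = (1 - g * u) ^ (k + 1) * ∑' n : ℕ, θ n * ee (n * u / D)) ∧
  (∀ n : ℕ, 1 ≤ n → ‖θ n‖ ≤ (n.divisors.card : ℝ) * ((n : ℝ) / D) ^ ((k : ℝ) / 2)) ∧
  (‖θ 0‖ ≤ if k = 0 then (Nat.card (ClassGroup (𝓞 F)) : ℝ) else 0) ∧
  (g = 1 → ∀ m : ℕ, 1 ≤ m → θ (m * D) = bψ ψ m * (Complex.I / Real.sqrt D)) ∧
  (g = D → ∀ m : ℕ, 1 ≤ m → θ (m * D) = bψ ψ m) ∧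
  (g = D → ∀ u : ℂ, 0 < u.im → thψ k ψ c u = ∑' n : ℕ, θ n * ee (n * u / D))

/-- The coefficients from an expansion over the elements. -/
lemma Ctx.mk_exp (h : Ctx D k χ ψ c) (g : ℕ) (C : ClassGroup (𝓞 F) → 𝓞 F → ℂ)
    (hC : ∀ A x, ‖C A x‖ ≤ 1)
    (hexp : ∀ (A : ClassGroup (𝓞 F)) (u : ℂ), 0 < u.im →
      th σ (c.R A : Ideal (𝓞 F)) k (u / (1 - g * u)) = (1 - g * u) ^ (k + 1) *
        ∑' x : (c.R A : Ideal (𝓞 F)), C A x * (σ (x : 𝓞 F) / (Complex.I * Real.sqrt D)) ^ k *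
          ee (Qa σ (c.R A : Ideal (𝓞 F)) x / D * u)) :
    let C' : ClassGroup (𝓞 F) → 𝓞 F → ℂ := fun A x => ((Complex.I * Real.sqrt D) ^ k)⁻¹ * C A x
    (∀ u : ℂ, 0 < u.im → (Summable fun n : ℕ => ‖cf k ψ c C' n * ee (n * u / D)‖) ∧
      thψ k ψ c (u / (1 - g * u)) =
        (1 - g * u) ^ (k + 1) * ∑' n : ℕ, cf k ψ c C' n * ee (n * u / D)) ∧
    (∀ n : ℕ, 1 ≤ n →
      ‖cf k ψ c C' n‖ ≤ (n.divisors.card : ℝ) * ((n : ℝ) / D) ^ ((k : ℝ) / 2)) ∧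
    (‖cf k ψ c C' 0‖ ≤ if k = 0 then (Nat.card (ClassGroup (𝓞 F)) : ℝ) else 0) := by
  intro C'
  have hD : (0 : ℝ) < D := by
    have := h.big
    exact_mod_cast (by omega : 0 < D)
  have hDC : (D : ℂ) ≠ 0 := by
    have := hD.ne'
    exact_mod_cast this
  set K : ℝ := (Real.sqrt D ^ k)⁻¹ with hKdef
  have hK0 : 0 ≤ K := by positivity
  have hC' : ∀ A x, ‖C' A x‖ ≤ K := by
    intro A x
    simp only [C']
    rw [norm_mul, norm_inv, norm_pow, norm_mul, Complex.norm_I, one_mul, Complex.norm_real,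
      Real.norm_of_nonneg (Real.sqrt_nonneg _), ← hKdef]
    exact mul_le_of_le_one_right hK0 (hC A x)
  refine ⟨?_, ?_, ?_⟩
  · intro u hu
    have hu' : 0 < (u / (D : ℂ)).im := by
      have : (u / (D : ℂ)).im = u.im / D := Complex.div_natCast_im u D
      rw [this]
      exact div_pos hu hD
    have h1 := h.cf_exp C' K hC' (u / D) hu'
    have e1 : ∀ n : ℕ, cf k ψ c C' n * ee (n * (u / D)) = cf k ψ c C' n * ee (n * u / D) := by
      intro n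
      rw [mul_div_assoc]
    rw [funext e1] at h1
    refine ⟨h1.summable.norm, ?_⟩
    rw [h1.tsum_eq]
    unfold thψ
    rw [← mul_assoc, mul_comm ((1 - (g : ℂ) * u) ^ (k + 1)) (1 / 2), mul_assoc (1 / 2 : ℂ)]
    congr 1
    rw [Finset.mul_sum]
    refine Finset.sum_congr rfl fun A _ => ?_
    rw [hexp A u hu, mul_left_comm]
    congr 2
    refine tsum_congr fun x => ?_
    simp only [C']
    rw [div_pow]
    have : (Qa σ (c.R A : Ideal (𝓞 F)) (x : 𝓞 F) / D * u : ℂ) =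
      Qa σ (c.R A : Ideal (𝓞 F)) (x : 𝓞 F) * (u / D) := by ring
    rw [this]
    ring
  · intro n hn
    refine (h.cf_bd C' K hK0 hC' n hn).trans_eq ?_
    congr 1
    rw [Real.div_rpow (Nat.cast_nonneg n) hD.le, hKdef]
    have : Real.sqrt D ^ k = (D : ℝ) ^ ((k : ℝ) / 2) := by
      rw [Real.sqrt_eq_rpow, ← Real.rpow_natCast, ← Real.rpow_mul hD.le]
      congr 1
      ring
    rw [this]
    exact (div_eq_inv_mul _ _).symm
  · refine (h.cf_zero C' K hC').trans_eq ?_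
    by_cases hk : k = 0
    · rw [if_pos hk, if_pos hk, hKdef, hk, pow_zero, inv_one, one_mul]
    · rw [if_neg hk, if_neg hk]

/-- A cusp different from the two extreme ones. -/
lemma Ctx.mid (h : Ctx D k χ ψ c) (g : ℕ) (hg : g ∣ D) (h1 : g ≠ 1) (hgD : g ≠ D) :
    ∃ θ, Pg D k ψ c g θ := by
  obtain ⟨C, hC, hexp⟩ := h.cusp g hg
  obtain ⟨e1, e2, e3⟩ := h.mk_exp g C hC hexp
  exact ⟨_, e1, e2, e3, fun h0 => absurd h0 h1, fun h0 => absurd h0 hgD,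
    fun h0 => absurd h0 hgD⟩

/-- The cusp `0`. -/
lemma Ctx.low (h : Ctx D k χ ψ c) : ∃ θ, Pg D k ψ c 1 θ := by
  have hbig := h.big
  have hD : (0 : ℝ) < D := by exact_mod_cast (by omega : 0 < D)
  have hDC : (D : ℂ) ≠ 0 := by
    have := hD.ne'
    exact_mod_cast this
  have hs : (1 : ℝ) ≤ Real.sqrt D := by
    rw [← Real.sqrt_one]
    refine Real.sqrt_le_sqrt ?_
    exact_mod_cast (by omega : 1 ≤ D)
  set C : ClassGroup (𝓞 F) → 𝓞 F → ℂ := fun A x => (Complex.I / Real.sqrt D) *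
    ee (-(Qa σ (c.R A : Ideal (𝓞 F)) x / D)) with hCdef
  have hC : ∀ A x, ‖C A x‖ ≤ 1 := by
    intro A x
    simp only [hCdef]
    rw [norm_mul, norm_ee, norm_div, Complex.norm_I, Complex.norm_real,
      Real.norm_of_nonneg (Real.sqrt_nonneg _)]
    have : (-((Qa σ (c.R A : Ideal (𝓞 F)) x : ℂ) / D)).im = 0 := by
      have e : (-((Qa σ (c.R A : Ideal (𝓞 F)) x : ℂ) / D)) =
        ((-(Qa σ (c.R A : Ideal (𝓞 F)) x / D) : ℝ) : ℂ) := by push_cast; rfl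
      rw [e, Complex.ofReal_im]
    rw [this, mul_zero, neg_zero, Real.exp_zero, mul_one]
    exact (div_le_one (by linarith)).2 hs
  have hexp : ∀ (A : ClassGroup (𝓞 F)) (u : ℂ), 0 < u.im →
      th σ (c.R A : Ideal (𝓞 F)) k (u / (1 - (1 : ℕ) * u)) = (1 - (1 : ℕ) * u) ^ (k + 1) *
        ∑' x : (c.R A : Ideal (𝓞 F)), C A x * (σ (x : 𝓞 F) / (Complex.I * Real.sqrt D)) ^ k *
          ee (Qa σ (c.R A : Ideal (𝓞 F)) x / D * u) := by
    intro A u hu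
    have hu1 : u - 1 ≠ 0 := by
      intro h0
      have : (u - 1).im = 0 := by rw [h0, Complex.zero_im]
      rw [Complex.sub_im, Complex.one_im, sub_zero] at this
      exact hu.ne' this
    have hu2 : 0 < (u - 1).im := by
      rw [Complex.sub_im, Complex.one_im, sub_zero]
      exact hu
    have hu3 : (1 : ℂ) - u ≠ 0 := by
      intro h0
      exact hu1 (by linear_combination -h0)
    have e1 : u / (1 - ((1 : ℕ) : ℂ) * u) + 1 = -1 / (u - 1) := by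
      rw [Nat.cast_one, one_mul]
      rw [div_add_one hu3, div_eq_div_iff hu3 hu1]
      ring
    rw [← h.per _ (R_ne c A), e1, h.inv _ (R_ne c A) _ hu2]
    have e2 : (u - 1) ^ (k + 1) = -(1 - ((1 : ℕ) : ℂ) * u) ^ (k + 1) := by
      rw [Nat.cast_one, one_mul, ← neg_sub, (h.even.add_one).neg_pow]
    rw [e2]
    unfold thS
    rw [mul_neg, neg_mul, mul_comm (-Complex.I / (Real.sqrt D : ℂ)), mul_assoc, ← mul_neg]
    congr 1
    rw [← neg_mul, ← tsum_mul_left]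
    refine tsum_congr fun x => ?_
    simp only [hCdef]
    have e3 : (Qa σ (c.R A : Ideal (𝓞 F)) (x : 𝓞 F) / D * (u - 1) : ℂ) =
      -(Qa σ (c.R A : Ideal (𝓞 F)) (x : 𝓞 F) / D) +
        Qa σ (c.R A : Ideal (𝓞 F)) (x : 𝓞 F) / D * u := by ring
    have e4 : ∀ a b : ℂ, ee (a + b) = ee a * ee b := by
      intro a b
      unfold ee
      rw [← Complex.exp_add]
      congr 1
      ring
    rw [e3, e4]
    ring
  obtain ⟨e1, e2, e3⟩ := h.mk_exp 1 C hC hexp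
  refine ⟨_, e1, e2, e3, fun _ m hm => ?_, fun h0 => by omega, fun h0 => by omega⟩
  have hmD : 1 ≤ m * D := Nat.one_le_iff_ne_zero.2 (Nat.mul_ne_zero (by omega) (by omega))
  rw [h.cf_const _ (m * D) hmD (((Complex.I * Real.sqrt D) ^ k)⁻¹ * (Complex.I / Real.sqrt D)),
    h.bD m hm]
  · have hne : (Complex.I * (Real.sqrt D : ℂ)) ^ k ≠ 0 := by
      refine pow_ne_zero _ (mul_ne_zero Complex.I_ne_zero ?_)
      have : Real.sqrt D ≠ 0 := by linarith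
      exact_mod_cast this
    field_simp
  · intro A x hx
    simp only [hCdef]
    have e4 : (-(((((m * D : ℕ) : ℝ)) : ℂ) / D)) = ((-(m : ℤ) : ℤ) : ℂ) := by
      push_cast
      field_simp
    have e5 : ∀ n : ℤ, ee n = 1 := by
      intro n
      unfold ee
      rw [mul_comm, Complex.exp_int_mul_two_pi_mul_I]
    rw [hx, e4, e5, mul_one]

/-- The cusp infinity. -/
lemma Ctx.top (h : Ctx D k χ ψ c) : ∃ θ, Pg D k ψ c D θ := by
  have hbig := h.big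
  have hD0 : 0 < D := by omega
  have hD : (0 : ℝ) < D := by exact_mod_cast hD0
  have hDC : (D : ℂ) ≠ 0 := by
    have := hD.ne'
    exact_mod_cast this
  set ρ : ℕ → ℂ := cf k ψ c fun _ _ => 1 with hρ
  have hC : ∀ (A : ClassGroup (𝓞 F)) (x : 𝓞 F), ‖(1 : ℂ)‖ ≤ (1 : ℝ) := fun _ _ => by
    rw [norm_one]
  have hinj : Function.Injective fun n : ℕ => D * n := fun a b hab =>
    Nat.eq_of_mul_eq_mul_left hD0 hab
  have hself : ∀ u : ℂ, 0 < u.im →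
      (Summable fun n : ℕ => ‖(if D ∣ n then ρ (n / D) else 0) * ee (n * u / D)‖) ∧
      thψ k ψ c u = ∑' n : ℕ, (if D ∣ n then ρ (n / D) else 0) * ee (n * u / D) := by
    intro u hu
    have h1 := h.cf_exp (fun _ _ => 1) 1 hC u hu
    have e1 : ∀ n : ℕ, (if D ∣ D * n then ρ (D * n / D) else 0) *
        ee (((D * n : ℕ) : ℂ) * u / D) = ρ n * ee (n * u) := by
      intro n
      rw [if_pos (dvd_mul_right D n), Nat.mul_div_cancel_left n hD0]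
      congr 2
      push_cast
      field_simp
    have h2 : HasSum (fun n : ℕ => (if D ∣ n then ρ (n / D) else 0) * ee (n * u / D))
        (1 / 2 * ∑ A : ClassGroup (𝓞 F), (ψ (c.R A : Ideal (𝓞 F)))⁻¹ *
        ∑' x : (c.R A : Ideal (𝓞 F)), 1 * σ (x : 𝓞 F) ^ k *
          ee (Qa σ (c.R A : Ideal (𝓞 F)) x * u)) := by
      rw [← hinj.hasSum_iff]
      · refine (congrArg (fun f => HasSum f _) (funext fun n => ?_)).mpr h1
        exact e1 n
      · intro n hn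
        rw [if_neg, zero_mul]
        rintro ⟨m, hm⟩
        exact hn ⟨m, hm.symm⟩
    refine ⟨h2.summable.norm, ?_⟩
    rw [h2.tsum_eq]
    unfold thψ th
    congr 1
    refine Finset.sum_congr rfl fun A _ => ?_
    congr 1
    refine tsum_congr fun x => ?_
    rw [one_mul]
  refine ⟨fun n => if D ∣ n then ρ (n / D) else 0, ?_, ?_, ?_, ?_, ?_, ?_⟩
  · intro u hu
    refine ⟨(hself u hu).1, ?_⟩
    rw [← (hself u hu).2]
    unfold thψ
    rw [← mul_assoc, mul_comm ((1 - (D : ℂ) * u) ^ (k + 1)) (1 / 2), mul_assoc (1 / 2 : ℂ)]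
    congr 1
    rw [Finset.mul_sum]
    refine Finset.sum_congr rfl fun A _ => ?_
    have h1 := h.law _ (R_ne c A) ⟨!![1, 0; -(D : ℤ), 1], by simp⟩ u hu (by simp)
    simp at h1
    have e1 : -((D : ℂ) * u) + 1 = 1 - D * u := by ring
    rw [e1] at h1
    rw [h1]
    ring
  · intro n hn
    show ‖(if D ∣ n then ρ (n / D) else 0)‖ ≤ _
    by_cases hd : D ∣ n
    · rw [if_pos hd]
      obtain ⟨m, rfl⟩ := hd
      have hm : 1 ≤ m := by
        rcases Nat.eq_zero_or_pos m with rfl | hm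
        · rw [mul_zero] at hn
          omega
        · exact hm
      rw [Nat.mul_div_cancel_left m hD0]
      refine (h.cf_bd (fun _ _ => 1) 1 zero_le_one hC m hm).trans ?_
      rw [one_mul]
      have e1 : ((D * m : ℕ) : ℝ) / D = m := by
        push_cast
        field_simp
      rw [e1]
      refine mul_le_mul_of_nonneg_right ?_ (Real.rpow_nonneg (Nat.cast_nonneg m) _)
      exact_mod_cast Finset.card_le_card (Nat.divisors_subset_of_dvd (by positivity)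
        (dvd_mul_left m D))
    · rw [if_neg hd, norm_zero]
      positivity
  · show ‖(if D ∣ 0 then ρ (0 / D) else 0)‖ ≤ _
    rw [if_pos (dvd_zero D), Nat.zero_div]
    refine (h.cf_zero (fun _ _ => 1) 1 hC).trans_eq ?_
    rw [one_mul]
  · intro h0
    omega
  · intro _ m hm
    show (if D ∣ m * D then ρ (m * D / D) else 0) = _
    rw [if_pos (dvd_mul_left D m), Nat.mul_div_cancel m hD0, hρ,
      h.cf_const _ m hm 1 (fun _ _ _ => rfl), one_mul]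
  · intro _ u hu
    exact (hself u hu).2

/-- All cusps. -/
lemma Ctx.main (h : Ctx D k χ ψ c) : ∃ θ : ℕ → ℕ → ℂ, ThFam D k ψ c θ := by
  classical
  have hbig := h.big
  have h1 : ∀ g : ℕ, ∃ θ : ℕ → ℂ, g ∣ D → Pg D k ψ c g θ := by
    intro g
    by_cases hg : g ∣ D
    · by_cases hg1 : g = 1
      · obtain ⟨θ, hθ⟩ := h.low
        exact ⟨θ, fun _ => hg1 ▸ hθ⟩
      · by_cases hgD : g = D
        · obtain ⟨θ, hθ⟩ := h.top
          exact ⟨θ, fun _ => by rw [hgD]; exact hθ⟩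
        · obtain ⟨θ, hθ⟩ := h.mid g hg hg1 hgD
          exact ⟨θ, fun _ => hθ⟩
    · exact ⟨0, fun h0 => absurd h0 hg⟩
  choose θ hθ using h1
  refine ⟨θ, ?_, ?_, ?_, ?_, ?_, ?_⟩
  · intro g hg
    exact (hθ g (Nat.dvd_of_mem_divisors hg)).1
  · intro g hg
    exact (hθ g (Nat.dvd_of_mem_divisors hg)).2.1
  · intro g hg
    exact (hθ g (Nat.dvd_of_mem_divisors hg)).2.2.1
  · exact (hθ 1 (one_dvd D)).2.2.2.1 rfl
  · exact (hθ D (dvd_refl D)).2.2.2.2.1 rfl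
  · exact (hθ D (dvd_refl D)).2.2.2.2.2 rfl

lemma norm_ee_re (x : ℝ) : ‖ee x‖ = 1 := by
  rw [norm_ee, Complex.ofReal_im, mul_zero, neg_zero, Real.exp_zero]

lemma ee_add (a b : ℂ) : ee (a + b) = ee a * ee b := by
  unfold ee
  rw [← Complex.exp_add]
  congr 1
  ring

lemma jac_norm (a : ℤ) (b : ℕ) : ‖(jacobiSym a b : ℂ)‖ ≤ 1 := by
  rcases jacobiSym.trichotomy a b with h | h | h <;> rw [h] <;> simp

omit [NumberField F] in
/-- Ideals which contain `s` are invariant. -/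
lemma map_eq {s : 𝓞 F} {cj : 𝓞 F ≃+* 𝓞 F} (h1 : ∀ x, cj (cj x) = x) (h2 : ∀ x, s ∣ x - cj x)
    (J : Ideal (𝓞 F)) (hJ : s ∈ J) : J.map (cj : 𝓞 F →+* 𝓞 F) = J := by
  have h3 : ∀ x ∈ J, cj x ∈ J := by
    intro x hx
    have : cj x = x - (x - cj x) := by ring
    rw [this]
    exact J.sub_mem hx (Ideal.mem_of_dvd J (h2 x) hJ)
  refine le_antisymm ?_ ?_
  · rw [Ideal.map_le_iff_le_comap]
    exact fun x hx => h3 x hx
  · intro x hx
    rw [← h1 x]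
    exact Ideal.mem_map_of_mem (cj : 𝓞 F →+* 𝓞 F) (h3 x hx)

/-- An ideal of norm divisible by `D` is divisible by `s`. -/
lemma dvd_of_norm {s : 𝓞 F} {cj : 𝓞 F ≃+* 𝓞 F} (hs0 : s ≠ 0) (hsD : s ^ 2 = -(D : 𝓞 F))
    (h1 : ∀ x, cj (cj x) = x) (h2 : ∀ x, s ∣ x - cj x)
    (h3 : ∀ a : Ideal (𝓞 F), a * a.map (cj : 𝓞 F →+* 𝓞 F) =
      Ideal.span {(Ideal.absNorm a : 𝓞 F)}) (b : Ideal (𝓞 F)) (m : ℕ)
    (hb : Ideal.absNorm b = m * D) : Ideal.span {s} ∣ b := by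
  set J : Ideal (𝓞 F) := Ideal.span {s} ⊔ b with hJ
  have hsJ : s ∈ J := Ideal.mem_sup_left (Ideal.mem_span_singleton_self s)
  have hJ0 : J ≠ 0 := by
    intro h0
    rw [h0] at hsJ
    exact hs0 (by simpa using hsJ)
  obtain ⟨K, hK⟩ : J ∣ Ideal.span {s} := Ideal.dvd_iff_le.2 le_sup_left
  obtain ⟨L, hL⟩ : J ∣ b := Ideal.dvd_iff_le.2 le_sup_right
  have hKL : K ⊔ L = ⊤ := by
    have h4 : J * (K ⊔ L) = J * ⊤ := by
      rw [Ideal.mul_sup, ← hK, ← hL, Ideal.mul_top]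
    exact mul_left_cancel₀ hJ0 h4
  have hsK : s ∈ K := by
    have h4 : Ideal.span {s} ≤ K := Ideal.dvd_iff_le.1 ⟨J, by rw [hK, mul_comm]⟩
    exact h4 (Ideal.mem_span_singleton_self s)
  have hKL' : K ⊔ L.map (cj : 𝓞 F →+* 𝓞 F) = ⊤ := by
    have h4 := congrArg (Ideal.map (cj : 𝓞 F →+* 𝓞 F)) hKL
    rw [Ideal.map_sup, Ideal.map_top, map_eq h1 h2 K hsK] at h4
    exact h4
  have h5 : Ideal.span {((m * D : ℕ) : 𝓞 F)} = Ideal.span {(m : 𝓞 F)} * Ideal.span {s} ^ 2 := by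
    rw [Ideal.span_singleton_pow, Ideal.span_singleton_mul_span_singleton, hsD, mul_neg,
      Ideal.span_singleton_neg, Nat.cast_mul]
  have h6 := h3 b
  rw [hb, h5] at h6
  have h7 : b.map (cj : 𝓞 F →+* 𝓞 F) = J * L.map (cj : 𝓞 F →+* 𝓞 F) := by
    conv_lhs => rw [hL]
    rw [Ideal.map_mul, map_eq h1 h2 J hsJ]
  rw [h7, hL, hK] at h6
  have h8 : L * L.map (cj : 𝓞 F →+* 𝓞 F) = K * (Ideal.span {(m : 𝓞 F)} * K) := by
    refine mul_left_cancel₀ (pow_ne_zero 2 hJ0) ?_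
    calc J ^ 2 * (L * L.map (cj : 𝓞 F →+* 𝓞 F))
        = J * L * (J * L.map (cj : 𝓞 F →+* 𝓞 F)) := by ring
      _ = Ideal.span {(m : 𝓞 F)} * (J * K) ^ 2 := h6
      _ = J ^ 2 * (K * (Ideal.span {(m : 𝓞 F)} * K)) := by ring
  have h9 : IsCoprime K (L * L.map (cj : 𝓞 F →+* 𝓞 F)) :=
    (Ideal.isCoprime_iff_sup_eq.2 hKL).mul_right (Ideal.isCoprime_iff_sup_eq.2 hKL')
  have h10 : IsUnit K := h9.isUnit_of_dvd' dvd_rfl ⟨_, h8⟩
  rw [hK, hL]
  exact mul_dvd_mul_left J h10.dvd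

/-- The coefficients at multiples of `D`. -/
lemma bmulD {s : 𝓞 F} {cj : 𝓞 F ≃+* 𝓞 F} (hs0 : s ≠ 0) (hsD : s ^ 2 = -(D : 𝓞 F))
    (h1 : ∀ x, cj (cj x) = x) (h2 : ∀ x, s ∣ x - cj x)
    (h3 : ∀ a : Ideal (𝓞 F), a * a.map (cj : 𝓞 F →+* 𝓞 F) =
      Ideal.span {(Ideal.absNorm a : 𝓞 F)}) (hN : Ideal.absNorm (Ideal.span {s}) = D)
    (m : ℕ) : bψ ψ (m * D) = ψ (Ideal.span {s}) * bψ ψ m := by
  have hs : Ideal.span {s} ≠ (0 : Ideal (𝓞 F)) := by
    rw [Ideal.zero_eq_bot, Ne, Ideal.span_singleton_eq_bot]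
    exact hs0
  let f : {b : Ideal (𝓞 F) // Ideal.absNorm b = m} →
      {b : Ideal (𝓞 F) // Ideal.absNorm b = m * D} :=
    fun b => ⟨Ideal.span {s} * b.1, by rw [map_mul, hN, b.2, mul_comm]⟩
  have hf : Function.Bijective f := by
    refine ⟨?_, ?_⟩
    · intro a b hab
      exact Subtype.ext (mul_left_cancel₀ hs (congrArg Subtype.val hab))
    · rintro ⟨b, hb⟩
      obtain ⟨a, ha⟩ := dvd_of_norm hs0 hsD h1 h2 h3 b m hb
      refine ⟨⟨a, ?_⟩, Subtype.ext ha.symm⟩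
      have h4 := congrArg Ideal.absNorm ha
      rw [map_mul, hN, hb, mul_comm] at h4
      have hD0 : 0 < D := by
        rcases Nat.eq_zero_or_pos D with h0 | h0
        · rw [h0, Nat.cast_zero, neg_zero] at hsD
          exact absurd (pow_eq_zero_iff two_ne_zero |>.1 hsD) hs0
        · exact h0
      exact (Nat.eq_of_mul_eq_mul_left hD0 h4).symm
  unfold bψ
  rw [← (Equiv.ofBijective f hf).tsum_eq, ← tsum_mul_left]
  refine tsum_congr fun b => ?_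
  exact map_mul ψ _ _

/-- The other cusps, odd discriminant. -/
lemma cuspD (h1 : StThCD) {s : 𝓞 F} {cj : 𝓞 F ≃+* 𝓞 F} (hd : DatD D s σ χ cj) (hk : Even k)
    (hc : ∀ A, IsCoprime (c.R A : Ideal (𝓞 F)) (Ideal.span {s})) (g : ℕ) (hg : g ∣ D) :
    ∃ C : ClassGroup (𝓞 F) → 𝓞 F → ℂ, (∀ A x, ‖C A x‖ ≤ 1) ∧
    ∀ (A : ClassGroup (𝓞 F)) (u : ℂ), 0 < u.im →
      th σ (c.R A : Ideal (𝓞 F)) k (u / (1 - g * u)) = (1 - g * u) ^ (k + 1) *
        ∑' x : (c.R A : Ideal (𝓞 F)), C A x * (σ (x : 𝓞 F) / (Complex.I * Real.sqrt D)) ^ k *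
          ee (Qa σ (c.R A : Ideal (𝓞 F)) x / D * u) := by
  classical
  obtain ⟨h, κ, hκ, hth⟩ := h1 D F _ _ s σ χ cj hd g hg
  have hD0 : 0 < D := by
    have := hd.odd.2.2
    omega
  have hD : (0 : ℝ) < D := by exact_mod_cast hD0
  have hκ1 : ‖κ‖ ≤ 1 := by
    rw [Complex.normSq_eq_norm_sq] at hκ
    have h2 : ‖κ‖ ^ 2 ≤ 1 := by
      rw [hκ]
      refine (div_le_one hD).2 ?_
      exact_mod_cast Nat.le_of_dvd hD0 hg
    nlinarith [norm_nonneg κ]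
  refine ⟨fun A x => if x ∈ ((c.R A : Ideal (𝓞 F)) * ram s g) then
    κ * (jacobiSym (Ideal.absNorm (c.R A : Ideal (𝓞 F))) (D / g) : ℂ) *
      ee ((-(Qa σ (c.R A : Ideal (𝓞 F)) x / D * h) : ℝ)) else 0, ?_, ?_⟩
  · intro A x
    simp only
    split_ifs
    · rw [norm_mul, norm_mul, norm_ee_re, mul_one]
      exact mul_le_one₀ hκ1 (norm_nonneg _) (jac_norm _ _)
    · rw [norm_zero]
      exact zero_le_one
  · intro A u hu
    have hu' : 0 < (u - h).im := by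
      rw [Complex.sub_im, Complex.intCast_im, sub_zero]
      exact hu
    have h2 := hth (c.R A : Ideal (𝓞 F)) k (u - h) (R_ne c A) (hc A) hk hu'
    rw [sub_add_cancel] at h2
    rw [h2, mul_assoc, mul_assoc]
    congr 1
    rw [← mul_assoc]
    unfold thG
    rw [← tsum_mul_left]
    have hle : (c.R A : Ideal (𝓞 F)) * ram s g ≤ (c.R A : Ideal (𝓞 F)) := Ideal.mul_le_left
    have hinj : Function.Injective (fun x : ((c.R A : Ideal (𝓞 F)) * ram s g : Ideal (𝓞 F)) =>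
        (⟨x, hle x.2⟩ : (c.R A : Ideal (𝓞 F)))) := by
      intro x y hxy
      have h4 : (x : 𝓞 F) = y := congrArg
        (fun z : (c.R A : Ideal (𝓞 F)) => (z : 𝓞 F)) hxy
      exact Subtype.ext h4
    have h3 := hinj.tsum_eq (f := fun x : (c.R A : Ideal (𝓞 F)) =>
      (if (x : 𝓞 F) ∈ ((c.R A : Ideal (𝓞 F)) * ram s g) then
    κ * (jacobiSym (Ideal.absNorm (c.R A : Ideal (𝓞 F))) (D / g) : ℂ) *
      ee ((-(Qa σ (c.R A : Ideal (𝓞 F)) x / D * h) : ℝ)) else 0) *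
        (σ (x : 𝓞 F) / (Complex.I * Real.sqrt D)) ^ k *
          ee (Qa σ (c.R A : Ideal (𝓞 F)) x / D * u)) ?_
    · rw [← h3]
      refine tsum_congr fun x => ?_
      simp only
      rw [if_pos x.2]
      have e3 : (Qa σ (c.R A : Ideal (𝓞 F)) (x : 𝓞 F) / D * (u - h) : ℂ) =
          ((-(Qa σ (c.R A : Ideal (𝓞 F)) (x : 𝓞 F) / D * h) : ℝ) : ℂ) +
          Qa σ (c.R A : Ideal (𝓞 F)) (x : 𝓞 F) / D * u := by
        push_cast
        ring
      rw [e3, ee_add]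
      ring
    · intro x hx
      by_contra h0
      refine hx ?_
      simp only
      rw [if_neg, zero_mul, zero_mul]
      intro h4
      exact h0 ⟨⟨x, h4⟩, rfl⟩

/-- The other cusps, even discriminant. -/
lemma cuspE (h1 : StThCE) {s : 𝓞 F} {cj : 𝓞 F ≃+* 𝓞 F} (hd : DatE D s σ χ cj) (hk : Even k)
    (hc : ∀ A, IsCoprime (c.R A : Ideal (𝓞 F)) (Ideal.span {s})) (g : ℕ) (hg : g ∣ D) :
    ∃ C : ClassGroup (𝓞 F) → 𝓞 F → ℂ, (∀ A x, ‖C A x‖ ≤ 1) ∧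
    ∀ (A : ClassGroup (𝓞 F)) (u : ℂ), 0 < u.im →
      th σ (c.R A : Ideal (𝓞 F)) k (u / (1 - g * u)) = (1 - g * u) ^ (k + 1) *
        ∑' x : (c.R A : Ideal (𝓞 F)), C A x * (σ (x : 𝓞 F) / (Complex.I * Real.sqrt D)) ^ k *
          ee (Qa σ (c.R A : Ideal (𝓞 F)) x / D * u) := by
  classical
  obtain ⟨Φ, hΦ, hth⟩ := h1 D F _ _ s σ χ cj hd g hg
  have hΦ1 : ∀ n : ℤ, ‖Φ n‖ ≤ 1 := by
    intro n
    by_cases hn : supE D g n
    · have h2 := hΦ.nrm n hn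
      rw [Complex.normSq_eq_norm_sq] at h2
      have h3 : ‖Φ n‖ ^ 2 ≤ 1 := by
        rw [h2]
        exact Nat.cast_inv_le_one _
      nlinarith [norm_nonneg (Φ n)]
    · rw [hΦ.zero n hn, norm_zero]
      exact zero_le_one
  have heps : ∀ m : ℕ, ‖(epsE D g m : ℂ)‖ ≤ 1 := by
    intro m
    unfold epsE
    split_ifs
    · exact jac_norm _ _
    · exact jac_norm _ _
  refine ⟨fun A x => (epsE D g (Ideal.absNorm (c.R A : Ideal (𝓞 F))) : ℂ) *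
    Φ ⌊Qa σ (c.R A : Ideal (𝓞 F)) x⌋, ?_, ?_⟩
  · intro A x
    simp only
    rw [norm_mul]
    exact mul_le_one₀ (heps _) (norm_nonneg _) (hΦ1 _)
  · intro A u hu
    rw [hth (c.R A : Ideal (𝓞 F)) k u (R_ne c A) (hc A) hk hu, mul_assoc]
    congr 1
    unfold thP
    rw [← tsum_mul_left]
    refine tsum_congr fun x => ?_
    ring

end

end ThXAux

open ThXAux in
/-- Module X1. -/
theorem stThX (h : StCom) (h1 : StThCD) (h2 : StThCE) (h3 : StThGD) (h4 : StThGE) (h5 : StThSD)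
    (h6 : StThSE) (h7 : StThBD) (h8 : StThBE) (h9 : StIdSumD) (h10 : StIdSumE) (h11 : StBasD)
    (h12 : StBasE) : StThX := by
  intro D hne F _ _ s σ χ cj k ψ c hd hψ hc
  obtain ⟨⟨-, -, -, hbig⟩, -, hpsi, hcnt, -⟩ := h D hne F _ _ s σ χ cj hd
  obtain ⟨hk, hnorm, -, -⟩ := hpsi k ψ hψ
  have key : σ s = Complex.I * Real.sqrt D → s ^ 2 = -(D : 𝓞 F) →
      (∀ x, cj (cj x) = x) → (∀ x, s ∣ x - cj x) →
      (∀ x : 𝓞 F, Complex.normSq (σ x) = (Ideal.absNorm (Ideal.span {x}) : ℝ)) →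
      (∀ a : Ideal (𝓞 F), a * a.map (cj : 𝓞 F →+* 𝓞 F) =
        Ideal.span {(Ideal.absNorm a : 𝓞 F)}) → ∀ m : ℕ, 1 ≤ m →
      bψ ψ (m * D) = (Complex.I * Real.sqrt D) ^ k * bψ ψ m := by
    intro him hsD b1 b2 b3 b4 m hm
    have hs0 : s ≠ 0 := by
      rintro rfl
      rw [zero_pow two_ne_zero, eq_comm, neg_eq_zero, Nat.cast_eq_zero] at hsD
      omega
    have hN : Ideal.absNorm (Ideal.span {s}) = D := by
      have h0 := b3 s
      rw [him, Complex.normSq_mul, Complex.normSq_I, one_mul, Complex.normSq_ofReal,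
        Real.mul_self_sqrt (Nat.cast_nonneg D)] at h0
      exact_mod_cast h0.symm
    rw [bmulD hs0 hsD b1 b2 b4 hN m, hψ s hs0, him]
  rcases hd with hd | hd
  · obtain ⟨-, b1, -, b2, -, hsq, b4, -⟩ := h11 D F _ _ s σ χ cj hd
    refine Ctx.main (χ := χ) ⟨hbig, hk, hsq, ?_, ?_, ?_, hnorm, hψ, hcnt,
      key hd.im hd.sq b1 b2 hsq b4, ?_, ?_, ?_, fun g hg => cuspD h1 hd hk hc g hg⟩
    · intro a ha
      exact (h7 D F _ _ s σ χ cj a k 0 1 hd ha (one_dvd D)).1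
    · intro a ha
      exact (h7 D F _ _ s σ χ cj a k 0 1 hd ha (one_dvd D)).2.1
    · intro g T a1 a2 a3
      exact h9 D F _ _ s σ χ cj c g T hd a1 a2 a3
    · intro a ha
      exact (h7 D F _ _ s σ χ cj a k 0 1 hd ha (one_dvd D)).2.2.2.2.2.2.1
    · intro a ha u hu
      exact h5 D F _ _ s σ χ cj a k u hd ha hk hu
    · intro a ha
      exact h3 D F _ _ s σ χ cj a k hd ha hk
  · obtain ⟨-, b1, -, b2, -, hsq, b4, -⟩ := h12 D F _ _ s σ χ cj hd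
    refine Ctx.main (χ := χ) ⟨hbig, hk, hsq, ?_, ?_, ?_, hnorm, hψ, hcnt,
      key hd.im hd.sq b1 b2 hsq b4, ?_, ?_, ?_, fun g hg => cuspE h2 hd hk hc g hg⟩
    · intro a ha
      exact (h8 D F _ _ s σ χ cj a k 0 0 hd ha (by simp)).1
    · intro a ha
      exact (h8 D F _ _ s σ χ cj a k 0 0 hd ha (by simp)).2.1
    · intro g T a1 a2 a3
      exact h10 D F _ _ s σ χ cj c g T hd a1 a2 a3
    · intro a ha
      exact (h8 D F _ _ s σ χ cj a k 0 0 hd ha (by simp)).2.2.2.2.2.2.1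
    · intro a ha u hu
      exact h6 D F _ _ s σ χ cj a k u hd ha hk hu
    · intro a ha
      exact h4 D F _ _ s σ χ cj a k hd ha hk

end RZ

end Pool.Agent.Lib.MP_7c08ba_nt
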