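import Mathlib
import Pool.Agent.Lib.MP_7c08ba_nt.RZ.LHalf
import Pool.Agent.Lib.MP_7c08ba_nt.RZ.AllA
import Pool.Agent.Lib.MP_7c08ba_nt.RZ.C3.RigO

set_option autoImplicit false

/-!
Rank zero, `p = 3`, without hypotheses.
-/

namespace Pool.Agent.Lib.MP_7c08ba_nt

namespace RZ

open NumberField Matrix IsDedekindDomain
open scoped MatrixGroups nonZeroDivisors

variable {F : Type} [Field F] [NumberField F] {w : ℕ}

theorem field3 : StField3 := fun _ _ _ _ _ hD h3 hR hF hs =>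
  RZC3.fieldC3_of_rigidAll hD h3 hR hF hs

/-- The central value is not zero if the character is trivial modulo a valuation above `3`. -/
theorem lval_three_all {D : ℕ} (hD : BKDH.IsFund D) (h3 : D % 3 = 2)
    (hR : BKDH.RigidAll D) (hF : Module.finrank ℚ F = 2) {s : F}
    (hs : s ^ 2 = -(D : F)) {f : CuspForm 𝒮ℒ (w : ℤ)} (hf : IsEigen f) {σ : F →+* ℂ} {r : ℕ}
    {ψ : Ideal (𝓞 F) →*₀ ℂ} (hψ : IsHecke σ (w + 2 * r) ψ) {V : ValuationSubring ℂ}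
    (hV : RZC3.ResTriv3 V ψ) : ∃ Λ : ℂ → ℂ, IsLFunction f ψ r Λ ∧ Λ 0 ≠ 0 :=
  lval_three aMainA field3 hD h3 hR hF hs hf hψ hV

/-- The half `k ≥ w`, `p = 3`. -/
theorem lhalf_three_all {D : ℕ} (hD : BKDH.IsFund D) (h3 : D % 3 = 2)
    (hR : BKDH.RigidAll D) (hF : Module.finrank ℚ F = 2) {s : F}
    (hs : s ^ 2 = -(D : F)) {f : CuspForm 𝒮ℒ (w : ℤ)} (hf : IsEigen f) {σ : F →+* ℂ} {r : ℕ}
    {ψ : Ideal (𝓞 F) →*₀ ℂ} (hψ : IsHecke σ (w + 2 * r) ψ) {E : Type} [NormedField E]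
    [NormedAlgebra ℚ_[3] E] {ι : ℂ →+* E} (hι : ResidueOneAt 3 ψ ι) :
    ∃ Λ : ℂ → ℂ, IsLFunction f ψ r Λ ∧ Λ 0 ≠ 0 :=
  lhalf_three aMainA field3 hD h3 hR hF hs hf hψ hι

/-- **The Bloch–Kato conjecture in rank zero**, `p = 3`. -/
theorem bkZero_three_un {D : ℕ} (hD : BKDH.IsFund D) (h3 : D % 3 = 2) (hR : BKDH.RigidAll D) :
    BKZero 3 D :=
  bkZero_three_all aMainA field3 hD h3 hR

/-- **The Bloch–Kato conjecture in rank zero** holds at `p = 3` for at least half of the imaginary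
quadratic fields in which `3` splits. -/
theorem density_three_all (ε : ℝ) (hε : 0 < ε) : ∃ X₀ : ℕ, ∀ X : ℕ, X₀ ≤ X →
    (1 / 2 - ε) * ({D : ℕ | D ≤ X ∧ BKDH.IsFund D ∧ D % 3 = 2}.ncard : ℝ) ≤
      ({D : ℕ | D ≤ X ∧ BKDH.IsFund D ∧ D % 3 = 2 ∧ BKZero 3 D}.ncard : ℝ) :=
  density_three aMainA RZC3.stmtC3_all RZC3.pTr3 RZC3.pDelta3 field3 ε hε

/-- Non-vanishing of the central value for all characters of type `(k, 0)` with `k` prime to the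
class number, `p = 3`. -/
theorem lval_coprime_three {D : ℕ} (hD : BKDH.IsFund D) (h3 : D % 3 = 2)
    (hR : BKDH.RigidAll D) (hF : Module.finrank ℚ F = 2) {s : F}
    (hs : s ^ 2 = -(D : F)) (hodd : Odd (Fintype.card (ClassGroup (𝓞 F))))
    {f : CuspForm 𝒮ℒ (w : ℤ)} (hf : IsEigen f) {σ : F →+* ℂ} {r : ℕ} (hev : Even w)
    (hcop : (w + 2 * r).Coprime (Fintype.card (ClassGroup (𝓞 F))))
    {ψ : Ideal (𝓞 F) →*₀ ℂ} (hψ : IsHecke σ (w + 2 * r) ψ) :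
    ∃ Λ : ℂ → ℂ, IsLFunction f ψ r Λ ∧ Λ 0 ≠ 0 := by
  have hfc : RZC3.FieldC3 D F s := RZC3.fieldC3_of_rigidAll hD h3 hR hF hs
  obtain ⟨P, P', hP, hP', -, hPN, -⟩ := hfc.split
  obtain ⟨V, hV1, hV2⟩ := RZX.exists_valuationSubring σ hψ hodd hcop Nat.prime_three
    (by
      obtain ⟨v, hv⟩ := hev
      exact ⟨v + r, by rw [hv]; ring⟩) hP hPN
  refine lval_three_all hD h3 hR hF hs hf hψ (V := V) ⟨?_, fun a ha => ?_⟩
  · exact_mod_cast hV1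
  · exact hV2 a ha

end RZ

end Pool.Agent.Lib.MP_7c08ba_nt
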