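import Mathlib
import Pool.Agent.Lib.MP_7c08ba_nt.RZ.StA

set_option autoImplicit false

/-!
(A16) The trace from `Γ₀(q)` to level one.
-/

namespace Pool.Agent.Lib.MP_7c08ba_nt.RZ

open UpperHalfPlane
open scoped MatrixGroups ModularForm

namespace TrAux

/-- The matrix with given entries. -/
def mk (a b c d : ℤ) (h : a * d - b * c = 1) : SL(2, ℤ) :=
  ⟨!![a, b; c, d], by rw [Matrix.det_fin_two_of]; exact h⟩

theorem coe_smul' (g : SL(2, ℤ)) (z : ℍ) :
    ((g • z : ℍ) : ℂ) = ((g 0 0 : ℂ) * z + g 0 1) / ((g 1 0 : ℂ) * z + g 1 1) := by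
  rw [UpperHalfPlane.coe_specialLinearGroup_apply]
  simp

/-- The matrix `S T ^ j`. -/
def st (j : ℤ) : SL(2, ℤ) := mk 0 (-1) 1 j (by ring)

theorem st_apply (w : ℕ) (f : ℍ → ℂ) (j : ℤ) (z : ℍ) :
    (f ∣[(w : ℤ)] (st j)) z = (((z : ℂ) + j) ^ w)⁻¹ * f (st j • z) := by
  rw [ModularForm.SL_slash_apply, mul_comm]
  congr 1
  rw [zpow_neg, zpow_natCast]
  congr 2
  change ((((st j) 1 0 : ℤ) : ℝ) : ℂ) * z + ((((st j) 1 1 : ℤ) : ℝ) : ℂ) = _
  simp [st, mk]

theorem st_smul (j : ℤ) (z : ℍ) : ((st j • z : ℍ) : ℂ) = -1 / ((z : ℂ) + j) := by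
  rw [coe_smul']
  simp [st, mk]

theorem mul_entry (A B : SL(2, ℤ)) (i j : Fin 2) :
    (A * B) i j = A i 0 * B 0 j + A i 1 * B 1 j := by
  change ((A * B : SL(2, ℤ)) : Matrix (Fin 2) (Fin 2) ℤ) i j = _
  rw [Matrix.SpecialLinearGroup.coe_mul, Matrix.mul_apply, Fin.sum_univ_two]

theorem inv_entry_00 (A : SL(2, ℤ)) : A⁻¹ 0 0 = A 1 1 := by
  change ((A⁻¹ : SL(2, ℤ)) : Matrix (Fin 2) (Fin 2) ℤ) 0 0 = _
  rw [Matrix.SpecialLinearGroup.coe_inv, Matrix.adjugate_fin_two]; rfl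

theorem inv_entry_10 (A : SL(2, ℤ)) : A⁻¹ 1 0 = -A 1 0 := by
  change ((A⁻¹ : SL(2, ℤ)) : Matrix (Fin 2) (Fin 2) ℤ) 1 0 = _
  rw [Matrix.SpecialLinearGroup.coe_inv, Matrix.adjugate_fin_two]; rfl

theorem st_mul_T (j : ℤ) : st j * ModularGroup.T = st (j + 1) := by
  ext a b
  rw [mul_entry]
  fin_cases a <;> fin_cases b <;> simp [st, mk, ModularGroup.T, add_comm]

theorem st_mul_S_entry (a b : ℤ) : (st a * ModularGroup.S * (st b)⁻¹) 1 0 = a * b + 1 := by
  rw [mul_entry, mul_entry, mul_entry, inv_entry_00, inv_entry_10]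
  simp [st, mk, ModularGroup.S]

theorem st_entry (a b : ℤ) : (st a * (st b)⁻¹) 1 0 = b - a := by
  rw [mul_entry, inv_entry_00, inv_entry_10]
  simp [st, mk]
  ring

theorem st_zero : st 0 = ModularGroup.S := by
  ext a b
  fin_cases a <;> fin_cases b <;> simp [st, mk, ModularGroup.S]

theorem st_zero_mul_S_entry : (st 0 * ModularGroup.S) 1 0 = 0 := by
  rw [mul_entry]
  simp [st, mk, ModularGroup.S]

end TrAux

open TrAux in
theorem stTrace : StTrace := by
  intro q w H hq hw hH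
  set F : ℍ → ℂ := fun z => H z with hF
  -- invariance under the group
  have inv : ∀ g : SL(2, ℤ), (q : ℤ) ∣ g 1 0 → F ∣[(w : ℤ)] g = F := by
    intro g hg
    funext z
    rw [ModularForm.slash_action_eq'_iff, zpow_natCast]
    have := hH g z z.im_pos hg
    rw [← coe_smul'] at this
    exact this
  have coset : ∀ g g' : SL(2, ℤ), (q : ℤ) ∣ (g * g'⁻¹) 1 0 →
      F ∣[(w : ℤ)] g = F ∣[(w : ℤ)] g' := by
    intro g g' h
    have e : g = (g * g'⁻¹) * g' := by group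
    rw [e, SlashAction.slash_mul, inv _ h]
  set G : ℍ → ℂ := F + ∑ j ∈ Finset.range q, F ∣[(w : ℤ)] (st j) with hG
  have hGtr : ∀ z : ℍ, G z = tr q w H z := by
    intro z
    rw [hG, tr, Pi.add_apply, Finset.sum_apply]
    congr 1
    refine Finset.sum_congr rfl fun j _ => ?_
    rw [st_apply]
    simp only [hF]
    rw [st_smul]
    simp
  have : Fact q.Prime := ⟨hq⟩
  -- the sum over `ZMod q`
  set Φ : ZMod q → (ℍ → ℂ) := fun x => F ∣[(w : ℤ)] (st (x.val : ℤ)) with hΦ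
  have per : ∀ a b : ℤ, (q : ℤ) ∣ b - a → F ∣[(w : ℤ)] (st a) = F ∣[(w : ℤ)] (st b) := by
    intro a b h
    apply coset
    rw [st_entry]; exact h
  have sumZ : ∀ φ : ℤ → (ℍ → ℂ), ∑ j ∈ Finset.range q, φ (j : ℤ) = ∑ x : ZMod q, φ (x.val : ℤ) := by
    intro φ
    refine Finset.sum_nbij' (fun j => (j : ZMod q)) (fun x => x.val) ?_ ?_ ?_ ?_ ?_
    · intro a _; exact Finset.mem_univ _
    · intro a _; exact Finset.mem_range.2 (ZMod.val_lt a)
    · intro a ha; exact ZMod.val_cast_of_lt (Finset.mem_range.1 ha)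
    · intro a _; exact ZMod.natCast_zmod_val a
    · intro a ha
      rw [ZMod.val_cast_of_lt (Finset.mem_range.1 ha)]
  have slG : ∀ g : SL(2, ℤ), G ∣[(w : ℤ)] g =
      F ∣[(w : ℤ)] g + ∑ j ∈ Finset.range q, F ∣[(w : ℤ)] (st j * g) := by
    intro g
    rw [hG, SlashAction.add_slash]
    congr 1
    rw [SlashAction.sum_slash]
    exact Finset.sum_congr rfl fun j _ => (SlashAction.slash_mul _ _ _ _).symm
  have hT : G ∣[(w : ℤ)] ModularGroup.T = G := by
    rw [slG, inv ModularGroup.T (by simp [ModularGroup.T]), hG]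
    congr 1
    have e1 : ∀ j : ℕ, F ∣[(w : ℤ)] (st (j : ℤ) * ModularGroup.T) =
        F ∣[(w : ℤ)] (st ((j + 1 : ℕ) : ℤ)) := by
      intro j; rw [st_mul_T]; push_cast; rfl
    simp_rw [e1]
    have e2 := Finset.sum_range_succ' (fun j : ℕ => F ∣[(w : ℤ)] (st (j : ℤ))) q
    rw [Finset.sum_range_succ] at e2
    have e3 : F ∣[(w : ℤ)] (st (q : ℤ)) = F ∣[(w : ℤ)] (st ((0 : ℕ) : ℤ)) :=
      per _ _ (by simp)
    rw [e3] at e2
    exact (add_right_cancel e2).symm
  have hS : G ∣[(w : ℤ)] ModularGroup.S = G := by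
    rw [slG, hG]
    have e0 := sumZ (fun j => F ∣[(w : ℤ)] (st j * ModularGroup.S))
    have e1 := sumZ (fun j => F ∣[(w : ℤ)] (st j))
    rw [e0, e1]
    have e2 : ∀ x : ZMod q, F ∣[(w : ℤ)] (st (x.val : ℤ) * ModularGroup.S) =
        Φ (-x⁻¹) + if x = 0 then F - Φ 0 else 0 := by
      intro x
      by_cases hx : x = 0
      · subst hx
        rw [if_pos rfl, inv_zero, neg_zero, ZMod.val_zero, Nat.cast_zero,
          inv _ (by rw [st_zero_mul_S_entry]; exact dvd_zero _)]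
        abel
      · rw [if_neg hx, add_zero, hΦ]
        apply coset
        rw [st_mul_S_entry]
        rw [← ZMod.intCast_zmod_eq_zero_iff_dvd]
        push_cast
        rw [ZMod.natCast_zmod_val, ZMod.natCast_zmod_val]
        field_simp
        ring
    have e3 : ∑ x : ZMod q, Φ (-x⁻¹) = ∑ x : ZMod q, Φ x := by
      refine Fintype.sum_equiv ((Equiv.inv (ZMod q)).trans (Equiv.neg (ZMod q))) _ _ ?_
      intro x
      rfl
    simp_rw [e2]
    rw [Finset.sum_add_distrib, e3, Finset.sum_ite_eq' Finset.univ (0 : ZMod q),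
      if_pos (Finset.mem_univ _)]
    have e4 : F ∣[(w : ℤ)] ModularGroup.S = Φ 0 := by
      rw [hΦ]
      simp only [ZMod.val_zero, Nat.cast_zero]
      rw [st_zero]
    rw [e4]
    change Φ 0 + (∑ x : ZMod q, Φ x + (F - Φ 0)) = F + ∑ x : ZMod q, Φ x
    abel
  have hall : ∀ g : SL(2, ℤ), G ∣[(w : ℤ)] g = G := by
    intro g
    have hg : g ∈ Subgroup.closure {ModularGroup.S, ModularGroup.T} := by
      rw [SpecialLinearGroup.SL2Z_generators]; trivial
    induction hg using Subgroup.closure_induction with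
    | mem x hx =>
      rcases hx with rfl | hx
      · exact hS
      · rw [Set.mem_singleton_iff] at hx
        rw [hx]; exact hT
    | one => exact SlashAction.slash_one _ _
    | mul x y _ _ hx hy => rw [SlashAction.slash_mul, hx, hy]
    | inv x _ hx =>
      conv_lhs => rw [← hx]
      rw [← SlashAction.slash_mul, mul_inv_cancel, SlashAction.slash_one]
  intro g z hz
  have h1 := congrFun (hall g) ⟨z, hz⟩
  rw [ModularForm.slash_action_eq'_iff, zpow_natCast] at h1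
  rw [hGtr, hGtr, coe_smul'] at h1
  exact h1

end Pool.Agent.Lib.MP_7c08ba_nt.RZ
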