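import Mathlib
import Pool.Agent.Lib.MP_7c08ba_nt.RZ.StH

set_option autoImplicit false

/-!
(H18) The trace from `Γ₀(D)` to level one, for even fundamental discriminants.
-/

namespace Pool.Agent.Lib.MP_7c08ba_nt.RZ

open UpperHalfPlane
open scoped MatrixGroups ModularForm

namespace TrEAux

/-- The matrix with given entries. -/
def mk (a b c d : ℤ) (h : a * d - b * c = 1) : SL(2, ℤ) :=
  ⟨!![a, b; c, d], by rw [Matrix.det_fin_two_of]; exact h⟩

theorem coe_smul' (g : SL(2, ℤ)) (z : ℍ) :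
    ((g • z : ℍ) : ℂ) = ((g 0 0 : ℂ) * z + g 0 1) / ((g 1 0 : ℂ) * z + g 1 1) := by
  rw [UpperHalfPlane.coe_specialLinearGroup_apply]
  simp

/-- The representatives. -/
def dl (g j : ℤ) : SL(2, ℤ) := mk 1 j (-g) (1 - g * j) (by ring)

theorem dl_apply (w : ℕ) (f : ℍ → ℂ) (g j : ℤ) (z : ℍ) :
    (f ∣[(w : ℤ)] (dl g j)) z = ((1 - g * ((z : ℂ) + j)) ^ w)⁻¹ * f (dl g j • z) := by
  rw [ModularForm.SL_slash_apply, mul_comm]
  congr 1
  rw [zpow_neg, zpow_natCast]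
  congr 2
  change ((((dl g j) 1 0 : ℤ) : ℝ) : ℂ) * z + ((((dl g j) 1 1 : ℤ) : ℝ) : ℂ) = _
  simp [dl, mk]
  ring

theorem dl_smul (g j : ℤ) (z : ℍ) :
    ((dl g j • z : ℍ) : ℂ) = ((z : ℂ) + j) / (1 - g * ((z : ℂ) + j)) := by
  rw [coe_smul']
  simp only [dl, mk]
  congr 1
  · simp
  · simp
    ring

theorem mul_entry (A B : SL(2, ℤ)) (i j : Fin 2) :
    (A * B) i j = A i 0 * B 0 j + A i 1 * B 1 j := by
  change ((A * B : SL(2, ℤ)) : Matrix (Fin 2) (Fin 2) ℤ) i j = _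
  rw [Matrix.SpecialLinearGroup.coe_mul, Matrix.mul_apply, Fin.sum_univ_two]

theorem inv_entry_00 (A : SL(2, ℤ)) : A⁻¹ 0 0 = A 1 1 := by
  change ((A⁻¹ : SL(2, ℤ)) : Matrix (Fin 2) (Fin 2) ℤ) 0 0 = _
  rw [Matrix.SpecialLinearGroup.coe_inv, Matrix.adjugate_fin_two]; rfl

theorem inv_entry_10 (A : SL(2, ℤ)) : A⁻¹ 1 0 = -A 1 0 := by
  change ((A⁻¹ : SL(2, ℤ)) : Matrix (Fin 2) (Fin 2) ℤ) 1 0 = _
  rw [Matrix.SpecialLinearGroup.coe_inv, Matrix.adjugate_fin_two]; rfl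

theorem ent (A B : SL(2, ℤ)) : (A * B⁻¹) 1 0 = A 1 0 * B 1 1 - A 1 1 * B 1 0 := by
  rw [mul_entry, inv_entry_00, inv_entry_10]
  ring

theorem dl_10 (g j : ℤ) : (dl g j) 1 0 = -g := by simp [dl, mk]

theorem dl_11 (g j : ℤ) : (dl g j) 1 1 = 1 - g * j := by simp [dl, mk]

theorem ent_dl (A : SL(2, ℤ)) (g j : ℤ) :
    (A * (dl g j)⁻¹) 1 0 = A 1 0 * (1 - g * j) + A 1 1 * g := by
  rw [ent, dl_10, dl_11]
  ring

/-- The set of the indices. -/
def ind (D : ℕ) : Finset (Σ _ : ℕ, ℕ) := D.divisors.sigma fun g => Finset.range (wid D g)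

theorem mem_ind {D : ℕ} {p : Σ _ : ℕ, ℕ} :
    p ∈ ind D ↔ p.1 ∈ D.divisors ∧ p.2 < wid D p.1 := by
  rw [ind, Finset.mem_sigma, Finset.mem_range]

/-- The shape of the divisors of `D`. -/
theorem shape {D g : ℕ} (hD : EvD D) (hg : g ∣ D) :
    ∃ e g1 E : ℕ, g = e * g1 ∧ D = g * (e * E) ∧ wid D g = E ∧ Nat.Coprime g1 E ∧
      (e = 1 ∨ e = 2) ∧ 0 < g ∧ 0 < E := by
  obtain ⟨h4, n, hn, hsq, hmod⟩ := hD
  have hD0 : D ≠ 0 := by omega
  have hg0 : 0 < g := Nat.pos_of_dvd_of_pos hg (Nat.pos_of_ne_zero hD0)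
  obtain ⟨E', hE'⟩ := hg
  have hE0 : 0 < E' := by
    rcases Nat.eq_zero_or_pos E' with h | h
    · exact absurd (by rw [hE', h, mul_zero]) hD0
    · exact h
  have hDg : D / g = E' := by rw [hE', Nat.mul_div_cancel_left _ hg0]
  set e := Nat.gcd g E' with he
  have he0 : 0 < e := Nat.gcd_pos_of_pos_left _ hg0
  obtain ⟨g1, hg1⟩ : e ∣ g := Nat.gcd_dvd_left _ _
  obtain ⟨E, hE⟩ : e ∣ E' := Nat.gcd_dvd_right _ _
  have hEpos : 0 < E := by
    rcases Nat.eq_zero_or_pos E with h | h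
    · rw [h, mul_zero] at hE; omega
    · exact h
  have hcop : Nat.Coprime g1 E := by
    have h := Nat.coprime_div_gcd_div_gcd (m := g) (n := E') (by rw [← he]; exact he0)
    rw [← he] at h
    rwa [hg1, hE, Nat.mul_div_cancel_left _ he0, Nat.mul_div_cancel_left _ he0] at h
  have hee : e * e ∣ 4 * n := by
    rw [← hn, hE', hg1, hE]
    exact ⟨g1 * E, by ring⟩
  have he12 : e = 1 ∨ e = 2 := by
    -- prime factors of `e`
    have hodd : ∀ p : ℕ, p.Prime → p ∣ e → p = 2 := by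
      intro p hp hpe
      by_contra hp2
      have h1 : p * p ∣ 4 * n := dvd_trans (mul_dvd_mul hpe hpe) hee
      have h2 : Nat.Coprime (p * p) 4 := by
        have : Nat.Coprime p 2 := (Nat.coprime_primes hp Nat.prime_two).2 hp2
        have h3 : Nat.Coprime (p * p) 2 := Nat.Coprime.mul_left this this
        have : (4 : ℕ) = 2 * 2 := rfl
        rw [this]
        exact Nat.Coprime.mul_right h3 h3
      have h3 : p * p ∣ n := h2.dvd_of_dvd_mul_left h1
      exact hp.one_lt.ne' (Nat.isUnit_iff.1 (hsq p h3))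
    have h4e : ¬ 4 ∣ e := by
      intro h
      have h1 : 4 * 4 ∣ 4 * n := dvd_trans (mul_dvd_mul h h) hee
      have h2 : 4 ∣ n := Nat.dvd_of_mul_dvd_mul_left (by norm_num) h1
      omega
    rcases Nat.even_or_odd e with h | h
    · right
      obtain ⟨m, hm⟩ := h
      have hm2 : e = 2 * m := by omega
      by_contra hne
      have hm1 : m ≠ 1 := by
        intro h1
        exact hne (by rw [hm2, h1])
      obtain ⟨p, hp, hpm⟩ := Nat.exists_prime_and_dvd hm1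
      have hp2 := hodd p hp (hm2 ▸ dvd_mul_of_dvd_right hpm 2)
      rw [hp2] at hpm
      apply h4e
      rw [hm2]
      exact mul_dvd_mul_left 2 hpm
    · left
      by_contra hne
      obtain ⟨p, hp, hpm⟩ := Nat.exists_prime_and_dvd hne
      have hp2 := hodd p hp hpm
      rw [hp2] at hpm
      exact (Nat.not_even_iff_odd.2 h) (even_iff_two_dvd.2 hpm)
  refine ⟨e, g1, E, hg1, by rw [hE', hE], ?_, hcop, he12, hg0, hEpos⟩
  rw [wid, hDg, ← he, hE', hE]
  have : g * (e * E) = g * e * E := by ring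
  rw [this, Nat.mul_div_cancel_left _ (Nat.mul_pos hg0 he0)]

/-- Existence of a representative. -/
theorem exists_rep {D : ℕ} (hD : EvD D) (A : SL(2, ℤ)) :
    ∃ p ∈ ind D, (D : ℤ) ∣ (A * (dl p.1 p.2)⁻¹) 1 0 := by
  have hD0 : D ≠ 0 := by have := hD.1; omega
  set c := A 1 0 with hc
  set d := A 1 1 with hd
  have hcop : IsCoprime c d := by
    have h := A.det_coe
    rw [Matrix.det_fin_two] at h
    refine ⟨-A 0 1, A 0 0, ?_⟩
    rw [hc, hd]
    linear_combination h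
  set g := Int.gcd c D with hg
  have hgD : g ∣ D := by
    have : (g : ℤ) ∣ (D : ℤ) := Int.gcd_dvd_right c D
    exact_mod_cast this
  obtain ⟨e, g1, E, hge, hDE, hwid, hgE, he, hg0, hE0⟩ := shape hD hgD
  obtain ⟨c', hc'⟩ : (g : ℤ) ∣ c := Int.gcd_dvd_left c D
  have hc'E' : IsCoprime c' ((e * E : ℕ) : ℤ) := by
    have h1 : Int.gcd (c / g) ((D : ℤ) / g) = 1 :=
      Int.gcd_div_gcd_div_gcd (by exact_mod_cast hg0)
    have hgz : (g : ℤ) ≠ 0 := by exact_mod_cast hg0.ne'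
    have h2 : c / (g : ℤ) = c' := by rw [hc', Int.mul_ediv_cancel_left _ hgz]
    have h3 : (D : ℤ) / g = ((e * E : ℕ) : ℤ) := by
      conv_lhs => rw [hDE]
      rw [Nat.cast_mul, Int.mul_ediv_cancel_left _ hgz]
    rw [h2, h3] at h1
    exact Int.isCoprime_iff_gcd_eq_one.2 h1
  have hc'E : IsCoprime c' (E : ℤ) := by
    rw [Nat.cast_mul] at hc'E'
    exact hc'E'.of_mul_right_right
  have hcg : IsCoprime (c' * g1) (E : ℤ) :=
    IsCoprime.mul_left hc'E (Nat.isCoprime_iff_coprime.2 hgE)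
  -- divisibility by `e`
  obtain ⟨m, hm⟩ : (e : ℤ) ∣ c' + d := by
    rcases he with he | he
    · rw [he]; simp
    · rw [he]
      have h1 : IsCoprime c' (2 : ℤ) := by
        rw [he, Nat.cast_mul] at hc'E'
        exact_mod_cast hc'E'.of_mul_right_left
      have h2 : IsCoprime (2 : ℤ) d := by
        refine IsCoprime.of_isCoprime_of_dvd_left hcop ?_
        rw [hc', hge, he]
        push_cast
        exact ⟨g1 * c', by ring⟩
      have h3 : Odd c' := by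
        rw [← Int.not_even_iff_odd]
        intro h
        have := Int.isCoprime_iff_gcd_eq_one.1 h1
        have h4 : (2 : ℤ) ∣ (Int.gcd c' 2 : ℤ) := Int.dvd_coe_gcd (even_iff_two_dvd.1 h) dvd_rfl
        rw [this] at h4
        norm_num at h4
      have h4 : Odd d := by
        rw [← Int.not_even_iff_odd]
        intro h
        have := Int.isCoprime_iff_gcd_eq_one.1 h2
        have h4 : (2 : ℤ) ∣ (Int.gcd 2 d : ℤ) := Int.dvd_coe_gcd dvd_rfl (even_iff_two_dvd.1 h)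
        rw [this] at h4
        norm_num at h4
      exact even_iff_two_dvd.1 (h3.add_odd h4)
  -- the solution of the congruence
  obtain ⟨a, b, hab⟩ := hcg
  have hEz : (E : ℤ) ≠ 0 := by exact_mod_cast hE0.ne'
  set jz : ℤ := (a * m) % E with hjz
  have hj0 : 0 ≤ jz := Int.emod_nonneg _ hEz
  have hj1 : jz < E := Int.emod_lt_of_pos _ (by exact_mod_cast hE0)
  have hjn : ((jz.toNat : ℕ) : ℤ) = jz := Int.toNat_of_nonneg hj0
  refine ⟨⟨g, jz.toNat⟩, mem_ind.2 ⟨Nat.mem_divisors.2 ⟨hgD, hD0⟩, ?_⟩, ?_⟩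
  · change jz.toNat < wid D g
    rw [hwid]
    have : ((jz.toNat : ℕ) : ℤ) < E := by rw [hjn]; exact hj1
    exact_mod_cast this
  · change (D : ℤ) ∣ (A * (dl (g : ℤ) ((jz.toNat : ℕ) : ℤ))⁻¹) 1 0
    rw [ent_dl, hjn, ← hc, ← hd]
    have h1 : jz = a * m - E * (a * m / E) := by
      have := Int.emod_add_mul_ediv (a * m) E
      rw [hjz]
      linarith
    have h2 : (D : ℤ) = g * (e * E) := by exact_mod_cast hDE
    have h3 : (g : ℤ) = e * g1 := by exact_mod_cast hge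
    refine ⟨b * m + c' * g1 * (a * m / E), ?_⟩
    rw [h2, hc']
    have h4 : (g : ℤ) * c' * (1 - g * jz) + d * g = g * (c' + d) - g * c' * (g * jz) := by ring
    rw [h4, hm, h1]
    have h5 : (g : ℤ) * c' * (g * (a * m - E * (a * m / E))) =
        g * e * (c' * g1 * (a * m - E * (a * m / E))) := by
      nth_rewrite 2 [h3]
      ring
    rw [h5]
    linear_combination (-(g : ℤ) * e * m) * hab

/-- Uniqueness of the representative. -/
theorem uniq {D : ℕ} (hD : EvD D) (p p' : Σ _ : ℕ, ℕ) (hp : p ∈ ind D) (hp' : p' ∈ ind D)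
    (h : (D : ℤ) ∣ (dl p.1 p.2 * (dl p'.1 p'.2)⁻¹) 1 0) : p = p' := by
  have hD0 : D ≠ 0 := by have := hD.1; omega
  obtain ⟨g, j⟩ := p
  obtain ⟨g', j'⟩ := p'
  obtain ⟨hg, hj⟩ := mem_ind.1 hp
  obtain ⟨hg', hj'⟩ := mem_ind.1 hp'
  simp only at hg hj hg' hj' h
  rw [ent_dl, dl_10, dl_11] at h
  have hgD : g ∣ D := (Nat.mem_divisors.1 hg).1
  have hgD' : g' ∣ D := (Nat.mem_divisors.1 hg').1
  have h1 : (g : ℤ) ∣ g' := by
    have e : (g : ℤ) ∣ (-(g : ℤ)) * (1 - g' * j') + (1 - g * j) * g' :=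
      dvd_trans (by exact_mod_cast hgD) h
    have e2 : (g' : ℤ) = ((-(g : ℤ)) * (1 - g' * j') + (1 - g * j) * g') +
        g * ((1 - g' * j') + j * g') := by ring
    rw [e2]
    exact dvd_add e (dvd_mul_right _ _)
  have h2 : (g' : ℤ) ∣ g := by
    have e : (g' : ℤ) ∣ (-(g : ℤ)) * (1 - g' * j') + (1 - g * j) * g' :=
      dvd_trans (by exact_mod_cast hgD') h
    have e2 : (g : ℤ) = -((-(g : ℤ)) * (1 - g' * j') + (1 - g * j) * g') +
        g' * (g * j' + (1 - g * j)) := by ring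
    rw [e2]
    exact dvd_add ((dvd_neg).2 e) (dvd_mul_right _ _)
  have hgg : g = g' := Nat.dvd_antisymm (by exact_mod_cast h1) (by exact_mod_cast h2)
  subst hgg
  obtain ⟨e, g1, E, hge, hDE, hwid, hgE, he, hg0, hE0⟩ := shape hD hgD
  rw [hwid] at hj hj'
  have h3 : (-(g : ℤ)) * (1 - g * j') + (1 - g * j) * g = g * (g * (j' - j)) := by ring
  have hDz : (D : ℤ) = g * (e * E) := by exact_mod_cast hDE
  rw [h3, hDz] at h
  have hgz : (g : ℤ) ≠ 0 := by exact_mod_cast hg0.ne'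
  have h4 : (e * E : ℤ) ∣ g * (j' - j) := (mul_dvd_mul_iff_left hgz).1 h
  have hgez : (g : ℤ) = e * g1 := by exact_mod_cast hge
  rw [hgez, mul_assoc] at h4
  have hez : (e : ℤ) ≠ 0 := by rcases he with he | he <;> rw [he] <;> norm_num
  have h4' : (E : ℤ) ∣ g1 * (j' - j) := (mul_dvd_mul_iff_left hez).1 h4
  have h5 : (E : ℤ) ∣ j' - j :=
    IsCoprime.dvd_of_dvd_mul_left (Nat.isCoprime_iff_coprime.2 hgE.symm) h4'
  have h6 : (j' : ℤ) - j = 0 := by
    apply Int.eq_zero_of_abs_lt_dvd h5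
    rw [abs_lt]
    constructor <;> omega
  have h7 : j = j' := by omega
  rw [h7]

end TrEAux

open TrEAux in
/-- (H18) the trace from `Γ₀(D)` to level one -/
theorem stTraceE : StTraceE := by
  intro D w H hD _ hH
  classical
  set F : ℍ → ℂ := fun z => H z with hF
  -- invariance under the group
  have inv : ∀ g : SL(2, ℤ), (D : ℤ) ∣ g 1 0 → F ∣[(w : ℤ)] g = F := by
    intro g hg
    funext z
    rw [ModularForm.slash_action_eq'_iff, zpow_natCast]
    have := hH g z z.im_pos hg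
    rw [← coe_smul'] at this
    exact this
  have coset : ∀ g g' : SL(2, ℤ), (D : ℤ) ∣ (g * g'⁻¹) 1 0 →
      F ∣[(w : ℤ)] g = F ∣[(w : ℤ)] g' := by
    intro g g' h
    have e : g = (g * g'⁻¹) * g' := by group
    rw [e, SlashAction.slash_mul, inv _ h]
  set G : ℍ → ℂ := ∑ p ∈ ind D, F ∣[(w : ℤ)] (dl (p.1 : ℤ) (p.2 : ℤ)) with hG
  have hGtr : ∀ z : ℍ, G z = trE D w H z := by
    intro z
    rw [hG, trE, Finset.sum_apply, ind, Finset.sum_sigma]
    refine Finset.sum_congr rfl fun g _ => Finset.sum_congr rfl fun j _ => ?_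
    rw [dl_apply]
    simp only [hF]
    rw [dl_smul]
    simp
  have slG : ∀ g : SL(2, ℤ), G ∣[(w : ℤ)] g =
      ∑ p ∈ ind D, F ∣[(w : ℤ)] (dl (p.1 : ℤ) (p.2 : ℤ) * g) := by
    intro g
    rw [hG, SlashAction.sum_slash]
    exact Finset.sum_congr rfl fun j _ => (SlashAction.slash_mul _ _ _ _).symm
  have hall : ∀ g : SL(2, ℤ), G ∣[(w : ℤ)] g = G := by
    intro g
    choose π hπ1 hπ2 using fun p : (Σ _ : ℕ, ℕ) => exists_rep hD (dl (p.1 : ℤ) (p.2 : ℤ) * g)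
    rw [slG, hG]
    have hinj : Set.InjOn π (ind D : Set (Σ _ : ℕ, ℕ)) := by
      intro p hp p' hp' h
      apply uniq hD p p' hp hp'
      have h1 := hπ2 p
      have h2 := hπ2 p'
      rw [← h] at h2
      have hm : ∀ A : SL(2, ℤ), (D : ℤ) ∣ A 1 0 ↔ A ∈ CongruenceSubgroup.Gamma0 D := by
        intro A
        rw [CongruenceSubgroup.Gamma0_mem, ZMod.intCast_zmod_eq_zero_iff_dvd]
      rw [hm] at h1 h2 ⊢
      have h3 := mul_mem h1 (inv_mem h2)
      have e : dl (p.1 : ℤ) (p.2 : ℤ) * g * (dl ((π p).1 : ℤ) ((π p).2 : ℤ))⁻¹ *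
          (dl (p'.1 : ℤ) (p'.2 : ℤ) * g * (dl ((π p).1 : ℤ) ((π p).2 : ℤ))⁻¹)⁻¹ =
          dl (p.1 : ℤ) (p.2 : ℤ) * (dl (p'.1 : ℤ) (p'.2 : ℤ))⁻¹ := by group
      rw [e] at h3
      exact h3
    have hmaps : ∀ p ∈ ind D, π p ∈ ind D := fun p _ => hπ1 p
    have hsurj : Set.SurjOn π (ind D : Set (Σ _ : ℕ, ℕ)) (ind D : Set (Σ _ : ℕ, ℕ)) :=
      Finset.surjOn_of_injOn_of_card_le π (fun p hp => hmaps p hp) hinj le_rfl
    exact Finset.sum_nbij π hmaps hinj hsurj fun p _ => coset _ _ (hπ2 p)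
  intro g z hz
  have h1 := congrFun (hall g) ⟨z, hz⟩
  rw [ModularForm.slash_action_eq'_iff, zpow_natCast] at h1
  rw [hGtr, hGtr, coe_smul'] at h1
  exact h1

end Pool.Agent.Lib.MP_7c08ba_nt.RZ
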